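import Mathlib
import Pool.Agent.W_448zz_h61.Ns
import Pool.Agent.W_448zz_h61.M159

/-! From `Pool.Agent.W_448p_h97.PaE` -/

section

/-!
MP_448cb3_co, G2, case B, window `j`: values of the contributions with labels on the two stars.
helper97.
-/

namespace Pool.Agent.GaussPoset.Win.Pa

set_option linter.unusedSectionVars false

open Finset W4
open Pool.Agent.GaussPoset.Win.So (IV_chi IV_Fe)

universe u

variable {P : Type u} [Fintype P] [PartialOrder P] [DecidableEq P] {r i : ℕ}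
variable {e f : P → ℕ} {psi : P → P} {C K : Finset P} {w v w' v' a b c a' b' c' : P}

/-- the factor of a label -/
noncomputable def fg (i : ℕ) (e : P → ℕ) (x : P) (n : ℕ) : ℤ :=
  if n = 0 then 1 else sg1 i x * FG i e x n

lemma fg_zero (e : P → ℕ) (x : P) : fg i e x 0 = 1 := if_pos rfl

lemma fg_pos (e : P → ℕ) (x : P) {n : ℕ} (h : n ≠ 0) : fg i e x n = sg1 i x * FG i e x n :=
  if_neg h

/-- one step -/
lemma step_lc (H : Gr P r) (hir : i ≤ r) (hC : Part (i + 1) C) (hs : Spt C e) {x : P}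
    (hx : x ∈ near P i) (hxC : x ∈ C) (h2 : (nz i x).card = 2) {n k : ℕ}
    (hA : n = 0 ∨ (x ∉ Tch i e ∧ e x = 0)) (ho : od (st i C).card k (tC i C e)) :
    od (st i C).card (k + ind n) (tC i C (e + Pi.single x n)) ∧
      lc (st i C).card (k + ind n) (tC i C (e + Pi.single x n)) =
        fg i e x n * lc (st i C).card k (tC i C e) := by
  by_cases hn : n = 0
  · rw [hn, ind_zero, Pi.single_zero, add_zero, add_zero, fg_zero, one_mul]
    exact ⟨ho, rfl⟩
  · obtain ⟨g1, g2⟩ := hA.resolve_left hn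
    rw [ind_pos hn, fg_pos e x hn]
    exact add_lc H hir hC hs hx hxC h2 g1 g2 hn ho

lemma fg_add (H : Gr P r) {x y : P} (hx : x ∈ near P i) (hy : y ∈ near P i) {m n : ℕ}
    (h0 : m = 0 ∨ e x = 0) (hd : m = 0 ∨ n = 0 ∨ Disjoint (kz i e x m) (nz i y)) :
    fg i (e + Pi.single x m) y n = fg i e y n := by
  by_cases hm : m = 0
  · rw [hm, Pi.single_zero, add_zero]
  by_cases hn : n = 0
  · rw [hn, fg_zero, fg_zero]
  rw [fg_pos _ _ hn, fg_pos _ _ hn,
    FG_add H hx hy (h0.resolve_left hm) ((hd.resolve_left hm).resolve_left hn)]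

/-- a component with two stars and its sites -/
structure K9c (r i : ℕ) (K : Finset P) (psi : P → P) (C : Finset P)
    (w v w' v' a b c a' b' c' : P) : Prop extends K9b r i K psi C w v w' v' b b' where
  uw : uc w = {a, b}
  dv : dc v = {b, c}
  uw' : uc w' = {a', b'}
  dv' : dc v' = {b', c'}
  nab : a ≠ b
  nbc : b ≠ c
  nac : a ≠ c
  nab' : a' ≠ b'
  nbc' : b' ≠ c'
  nac' : a' ≠ c'
  nLR : Disjoint ({a, b, c} : Finset P) {a', b', c'}

section

variable (Q : K9c r i K psi C w v w' v' a b c a' b' c')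
include Q

lemma K9c.nzw : nz i w = {a, b} := by rw [nz_low Q.lw, Q.uw]
lemma K9c.nzv : nz i v = {b, c} := by rw [nz_upp Q.lv, Q.dv]
lemma K9c.nzw' : nz i w' = {a', b'} := by rw [nz_low Q.lw', Q.uw']
lemma K9c.nzv' : nz i v' = {b', c'} := by rw [nz_upp Q.lv', Q.dv']

lemma K9c.w2 : (nz i w).card = 2 := by rw [Q.nzw, card_pair Q.nab]
lemma K9c.v2 : (nz i v).card = 2 := by rw [Q.nzv, card_pair Q.nbc]
lemma K9c.w2' : (nz i w').card = 2 := by rw [Q.nzw', card_pair Q.nab']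
lemma K9c.v2' : (nz i v').card = 2 := by rw [Q.nzv', card_pair Q.nbc']

/-- the sites of the two stars are disjoint -/
lemma K9c.dLR {x y : P} (hx : x = w ∨ x = v) (hy : y = w' ∨ y = v') :
    Disjoint (nz i x) (nz i y) := by
  have h1 : nz i x ⊆ {a, b, c} := by
    rcases hx with rfl | rfl
    · rw [Q.nzw]
      intro z hz
      simp only [mem_insert, mem_singleton] at hz ⊢
      tauto
    · rw [Q.nzv]
      intro z hz
      simp only [mem_insert, mem_singleton] at hz ⊢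
      tauto
  have h2 : nz i y ⊆ {a', b', c'} := by
    rcases hy with rfl | rfl
    · rw [Q.nzw']
      intro z hz
      simp only [mem_insert, mem_singleton] at hz ⊢
      tauto
    · rw [Q.nzv']
      intro z hz
      simp only [mem_insert, mem_singleton] at hz ⊢
      tauto
  exact disjoint_of_subset_left h1 (disjoint_of_subset_right h2 Q.nLR)

lemma K9c.dwv {e : P → ℕ} (h : 1 ≤ e b) : Disjoint (kz i e w 1) (nz i v) := by
  rw [disjoint_left]
  intro x hx hx'
  rw [mem_kz, Q.nzw, mem_insert, mem_singleton] at hx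
  rw [Q.nzv, mem_insert, mem_singleton] at hx'
  rcases hx with ⟨rfl | rfl, h1⟩
  · rcases hx' with h2 | h2
    · exact Q.nab h2
    · exact Q.nac h2
  · omega

lemma K9c.dwv' {e : P → ℕ} (h : 1 ≤ e b') : Disjoint (kz i e w' 1) (nz i v') := by
  rw [disjoint_left]
  intro x hx hx'
  rw [mem_kz, Q.nzw', mem_insert, mem_singleton] at hx
  rw [Q.nzv', mem_insert, mem_singleton] at hx'
  rcases hx with ⟨rfl | rfl, h1⟩
  · rcases hx' with h2 | h2
    · exact Q.nab' h2
    · exact Q.nac' h2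
  · omega

/-- THE VALUE with labels on the two stars -/
theorem K9c.val4 (hc : IsCore i ∅ (ps K psi) e) (hs : Spt C e) {k : ℕ}
    (ho : od (st i C).card k (tC i C e)) {α β α' β' : ℕ}
    (h1 : α = 0 ∨ β = 0 ∨ (α = 1 ∧ β = 1 ∧ 1 ≤ e b))
    (h2 : α' = 0 ∨ β' = 0 ∨ (α' = 1 ∧ β' = 1 ∧ 1 ≤ e b'))
    (t1 : α ≤ 1 ∨ w ∉ Tch i e) (t2 : β ≤ 1 ∨ v ∉ Tch i e) (t3 : α' ≤ 1 ∨ w' ∉ Tch i e)
    (t4 : β' ≤ 1 ∨ v' ∉ Tch i e) :
    od (st i C).card (k + ind α + ind β + ind α' + ind β')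
        (Jw i K psi C w v w' v' e α β α' β' 0) ∧
      lc (st i C).card (k + ind α + ind β + ind α' + ind β')
        (Jw i K psi C w v w' v' e α β α' β' 0) =
        fg i e w α * fg i e v β * fg i e w' α' * fg i e v' β' * lc (st i C).card k (tC i C e) := by
  classical
  have H := Q.H
  have hir := Q.hir
  have hC := Q.hC
  have f1 := single_far (i := i) Q.nw α
  have f2 := single_far (i := i) Q.nv β
  have f3 := single_far (i := i) Q.nw' α'
  have f4 := single_far (i := i) Q.nv' β'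
  have c1 := fun h => Q.core0 hc (x := w) (Or.inl rfl) h
  have c2 := fun h => Q.core0 hc (x := v) (Or.inr (Or.inl rfl)) h
  have c3 := fun h => Q.core0 hc (x := w') (Or.inr (Or.inr (Or.inl rfl))) h
  have c4 := fun h => Q.core0 hc (x := v') (Or.inr (Or.inr (Or.inr rfl))) h
  unfold Jw
  by_cases hA : (Ac i e w α ∧ Ac i e v β) ∧ Ac i e w' α' ∧ Ac i e v' β'
  · rw [if_pos hA]
    obtain ⟨⟨g1, g2⟩, g3, g4⟩ := hA
    obtain ⟨e1, he1⟩ : ∃ e1, e1 = e + Pi.single w α := ⟨_, rfl⟩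
    obtain ⟨e2, he2⟩ : ∃ e2, e2 = e1 + Pi.single v β := ⟨_, rfl⟩
    obtain ⟨e3, he3⟩ : ∃ e3, e3 = e2 + Pi.single w' α' := ⟨_, rfl⟩
    have T1 : Tch i e1 = Tch i e := by rw [he1]; exact Tch_add H f1
    have T2 : Tch i e2 = Tch i e := by rw [he2, Tch_add H f2]; exact T1
    have T3 : Tch i e3 = Tch i e := by rw [he3, Tch_add H f3]; exact T2
    have s1 : Spt C e1 := by rw [he1]; exact Spt_add hs Q.wC α
    have s2 : Spt C e2 := by rw [he2]; exact Spt_add s1 Q.vC β
    have s3 : Spt C e3 := by rw [he3]; exact Spt_add s2 Q.wC' α'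
    have s4 : Spt C (e3 + Pi.single v' β') := Spt_add s3 Q.vC' β'
    have z1 : α = 0 ∨ e w = 0 := g1.imp_right c1
    have z2 : β = 0 ∨ e1 v = 0 := by
      refine g2.imp_right fun h => ?_
      rw [he1, Pi.add_apply, c2 h, Pi.single_apply, if_neg Q.nwv.symm, add_zero]
    have z3 : α' = 0 ∨ e2 w' = 0 := by
      refine g3.imp_right fun h => ?_
      rw [he2, he1, Pi.add_apply, Pi.add_apply, c3 h, Pi.single_apply, if_neg Q.nww.symm,
        Pi.single_apply, if_neg Q.nvw'.symm, add_zero, add_zero]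
    have z4 : β' = 0 ∨ e3 v' = 0 := by
      refine g4.imp_right fun h => ?_
      rw [he3, he2, he1, Pi.add_apply, Pi.add_apply, Pi.add_apply, c4 h, Pi.single_apply,
        if_neg Q.nwv'.symm, Pi.single_apply, if_neg Q.nvv.symm, Pi.single_apply,
        if_neg Q.nwv''.symm, add_zero, add_zero, add_zero]
    have a1 : α = 0 ∨ (w ∉ Tch i e ∧ e w = 0) := by
      rcases z1 with h | h
      · exact Or.inl h
      · rcases g1 with g | g
        · exact Or.inl g
        · exact Or.inr ⟨g, h⟩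
    have a2 : β = 0 ∨ (v ∉ Tch i e1 ∧ e1 v = 0) := by
      rw [T1]
      rcases z2 with h | h
      · exact Or.inl h
      · rcases g2 with g | g
        · exact Or.inl g
        · exact Or.inr ⟨g, h⟩
    have a3 : α' = 0 ∨ (w' ∉ Tch i e2 ∧ e2 w' = 0) := by
      rw [T2]
      rcases z3 with h | h
      · exact Or.inl h
      · rcases g3 with g | g
        · exact Or.inl g
        · exact Or.inr ⟨g, h⟩
    have a4 : β' = 0 ∨ (v' ∉ Tch i e3 ∧ e3 v' = 0) := by
      rw [T3]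
      rcases z4 with h | h
      · exact Or.inl h
      · rcases g4 with g | g
        · exact Or.inl g
        · exact Or.inr ⟨g, h⟩
    obtain ⟨o1, l1⟩ := step_lc H hir hC hs Q.nw Q.wC Q.w2 a1 ho
    rw [← he1] at o1 l1
    obtain ⟨o2, l2⟩ := step_lc H hir hC s1 Q.nv Q.vC Q.v2 a2 o1
    rw [← he2] at o2 l2
    obtain ⟨o3, l3⟩ := step_lc H hir hC s2 Q.nw' Q.wC' Q.w2' a3 o2
    rw [← he3] at o3 l3
    obtain ⟨o4, l4⟩ := step_lc H hir hC s3 Q.nv' Q.vC' Q.v2' a4 o3
    -- the factors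
    have d2 : fg i e1 v β = fg i e v β := by
      rw [he1]
      refine fg_add H Q.nw Q.nv z1 ?_
      rcases h1 with h | h | ⟨h, h', h''⟩
      · exact Or.inl h
      · exact Or.inr (Or.inl h)
      · rw [h]
        exact Or.inr (Or.inr (Q.dwv h''))
    have cross : ∀ {x y : P}, (x = w ∨ x = v) → (y = w' ∨ y = v') → ∀ (e : P → ℕ) n,
        Disjoint (kz i e x n) (nz i y) := fun hx hy e n =>
      disjoint_of_subset_left kz_sub (Q.dLR hx hy)
    have d3 : fg i e2 w' α' = fg i e w' α' := by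
      rw [he2, fg_add H Q.nv Q.nw' z2 (Or.inr (Or.inr (cross (Or.inr rfl) (Or.inl rfl) _ _))), he1,
        fg_add H Q.nw Q.nw' z1 (Or.inr (Or.inr (cross (Or.inl rfl) (Or.inl rfl) _ _)))]
    have d4 : fg i e3 v' β' = fg i e v' β' := by
      have h3 : fg i e3 v' β' = fg i e2 v' β' := by
        rw [he3]
        refine fg_add H Q.nw' Q.nv' z3 ?_
        rcases h2 with h | h | ⟨h, h', h''⟩
        · exact Or.inl h
        · exact Or.inr (Or.inl h)
        · rw [h]
          refine Or.inr (Or.inr (Q.dwv' ?_))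
          rw [he2, add_site H Q.nv Q.lb', he1, add_site H Q.nw Q.lb']
          exact h''
      rw [h3, he2, fg_add H Q.nv Q.nv' z2 (Or.inr (Or.inr (cross (Or.inr rfl) (Or.inr rfl) _ _))),
        he1, fg_add H Q.nw Q.nv' z1 (Or.inr (Or.inr (cross (Or.inl rfl) (Or.inr rfl) _ _)))]
    rw [← he1, ← he2, ← he3, JK_zero H hir Q.part s4]
    refine ⟨o4, ?_⟩
    rw [l4, l3, l2, l1, d2, d3, d4]
    ring
  · rw [if_neg hA]
    refine ⟨od_zero _ _, ?_⟩
    rw [lc_zero]
    by_cases hadm : AdmL i e ∧ AdmU i e ∧ Disjoint (AL i e) (AU i e)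
    swap
    · rw [W4.tC_zero hadm, lc_zero, mul_zero]
    -- a touched element with label one
    have key : ∀ {x : P} {n : ℕ}, x ∈ near P i → (nz i x).card = 2 → (n ≤ 1 ∨ x ∉ Tch i e) →
        ¬ Ac i e x n → fg i e x n = 0 := by
      intro x n hx h2 hn hA
      have h3 : n ≠ 0 := fun h => hA (Or.inl h)
      have h4 : x ∈ Tch i e := by
        by_contra h
        exact hA (Or.inr h)
      have h5 : n = 1 := by
        rcases hn with h | h
        · omega
        · exact absurd h4 h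
      rw [fg_pos _ _ h3, h5]
      have hpos : 0 < e x := by
        by_contra h
        have h4' := h4
        rw [mem_Tch] at h4'
        rcases h4' with ⟨h1, z, hz, hz'⟩ | ⟨h1, z, hz, hz'⟩
        · refine hadm.1 x (by omega) ⟨⟨z, hz, by omega⟩, ?_⟩
          obtain ⟨y, hy⟩ := uc_nonempty H (x := x) (by omega)
          exact ⟨y, mem_uc.1 hy, by omega⟩
        · refine hadm.2.1 x (by omega) ⟨⟨z, hz, by omega⟩, ?_⟩
          obtain ⟨y, hy⟩ := dc_nonempty H (x := x) (by have := Q.hi2; omega)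
          exact ⟨y, mem_dc.1 hy, by omega⟩
      have kk : ∀ y ∈ nz i x, e y = 0 → y ∈ AL i e ∪ AU i e := by
        intro y hy hy0
        have hl := nz_lev H hx hy
        rw [mem_union, NormD_mem_AL, NormD_mem_AU]
        rcases mem_near.1 hx with h | h
        · rw [nz_low h] at hy
          exact Or.inl ⟨hl, x, mem_uc.1 hy, by omega⟩
        · rw [nz_upp h] at hy
          exact Or.inr ⟨hl, x, mem_dc.1 hy, by omega⟩
      have hFG : FG i e x 1 = 0 := by
        unfold FG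
        rw [if_neg, if_neg]
        · rintro ⟨g1, g2, g3⟩
          obtain ⟨y, hy⟩ := card_eq_one.1 g1
          have hy1 : y ∈ kz i e x 1 := by rw [hy]; exact mem_singleton_self _
          obtain ⟨hy2, hy3⟩ := mem_kz.1 hy1
          exact disjoint_left.1 g3 hy1 (kk y hy2 (by omega))
        · rintro ⟨g1, g2⟩
          obtain ⟨y, hy⟩ : (nz i x).Nonempty := by rw [← card_pos]; omega
          have := g1 y hy
          exact disjoint_left.1 g2 hy (kk y hy (by omega))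
      rw [hFG, mul_zero]
    by_cases g1 : Ac i e w α
    · by_cases g2 : Ac i e v β
      · by_cases g3 : Ac i e w' α'
        · by_cases g4 : Ac i e v' β'
          · exact absurd ⟨⟨g1, g2⟩, g3, g4⟩ hA
          · rw [key Q.nv' Q.v2' t4 g4]; ring
        · rw [key Q.nw' Q.w2' t3 g3]; ring
      · rw [key Q.nv Q.v2 t2 g2]; ring
    · rw [key Q.nw Q.w2 t1 g1]; ring

end

end Pool.Agent.GaussPoset.Win.Pa

end

/-! From `Pool.Agent.W_448p_h97.PaF` -/

section

/-!
MP_448cb3_co, G2, case B, window `j`: the leading coefficients of the contributions of a component with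
two stars.  helper97.
-/

namespace Pool.Agent.GaussPoset.Win.Pa

set_option linter.unusedSectionVars false

open Finset W4
open Pool.Agent.GaussPoset.Win.So (IV_chi IV_Fe)

universe u

variable {P : Type u} [Fintype P] [PartialOrder P] [DecidableEq P] {r i : ℕ}
variable {e f : P → ℕ} {psi : P → P} {C K : Finset P} {w v w' v' a b c a' b' c' : P}

lemma an0 {M : Type*} [AddCommMonoid M] (g : ℕ × ℕ → M) : ∑ p ∈ antidiagonal 0, g p = g (0, 0) := by
  simp

lemma an1 {M : Type*} [AddCommMonoid M] (g : ℕ × ℕ → M) :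
    ∑ p ∈ antidiagonal 1, g p = g (0, 1) + g (1, 0) := by
  simp [Finset.Nat.antidiagonal_succ]

lemma an2 {M : Type*} [AddCommMonoid M] (g : ℕ × ℕ → M) :
    ∑ p ∈ antidiagonal 2, g p = g (0, 2) + (g (1, 1) + g (2, 0)) := by
  simp [Finset.Nat.antidiagonal_succ]

/-- the difference of the types of the two elements of a star -/
noncomputable def DD (i : ℕ) (e : P → ℕ) (w v : P) : ℤ := FG i e w 1 - FG i e v 1

/-- the product of the types -/
noncomputable def PP (i : ℕ) (e : P → ℕ) (w v : P) : ℤ := FG i e w 1 * FG i e v 1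

section

variable (Q : K9c r i K psi C w v w' v' a b c a' b' c')
include Q

lemma K9c.fw : fg i e w 1 = FG i e w 1 := by
  rw [fg_pos _ _ one_ne_zero]
  unfold sg1
  rw [if_pos Q.lw, one_mul]

lemma K9c.fv : fg i e v 1 = - FG i e v 1 := by
  rw [fg_pos _ _ one_ne_zero]
  unfold sg1
  rw [if_neg (by have := Q.lv; omega)]
  ring

lemma K9c.fw' : fg i e w' 1 = FG i e w' 1 := by
  rw [fg_pos _ _ one_ne_zero]
  unfold sg1
  rw [if_pos Q.lw', one_mul]

lemma K9c.fv' : fg i e v' 1 = - FG i e v' 1 := by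
  rw [fg_pos _ _ one_ne_zero]
  unfold sg1
  rw [if_neg (by have := Q.lv'; omega)]
  ring

variable (hc : IsCore i ∅ (ps K psi) e) (hs : Spt C e) {k : ℕ}
    (ho : od (st i C).card k (tC i C e))
include hc hs ho

theorem K9c.J000 : lc (st i C).card k (J9 i K psi C w v w' v' e 0 0 0) =
    lc (st i C).card k (tC i C e) := by
  rw [Q.J9_eq hc, an0, an0]
  have := (Q.val4 hc hs ho (α := 0) (β := 0) (α' := 0) (β' := 0) (Or.inl rfl) (Or.inl rfl)
    (Or.inl (by omega)) (Or.inl (by omega)) (Or.inl (by omega)) (Or.inl (by omega))).2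
  simp only [ind_zero, fg_zero, one_mul, add_zero] at this
  exact this

theorem K9c.J100 : lc (st i C).card (k + 1) (J9 i K psi C w v w' v' e 1 0 0) =
    DD i e w v * lc (st i C).card k (tC i C e) := by
  rw [Q.J9_eq hc, an1, an0, an0, lc_add]
  have h1 := (Q.val4 hc hs ho (α := 0) (β := 1) (α' := 0) (β' := 0) (Or.inl rfl) (Or.inl rfl)
    (Or.inl (by omega)) (Or.inl (by omega)) (Or.inl (by omega)) (Or.inl (by omega))).2
  have h2 := (Q.val4 hc hs ho (α := 1) (β := 0) (α' := 0) (β' := 0) (Or.inr (Or.inl rfl))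
    (Or.inl rfl) (Or.inl (by omega)) (Or.inl (by omega)) (Or.inl (by omega))
    (Or.inl (by omega))).2
  simp only [ind_zero, ind_pos one_ne_zero, fg_zero, one_mul, mul_one, add_zero, Q.fw,
    Q.fv] at h1 h2
  rw [h1, h2]
  unfold DD
  ring

theorem K9c.J010 : lc (st i C).card (k + 1) (J9 i K psi C w v w' v' e 0 1 0) =
    DD i e w' v' * lc (st i C).card k (tC i C e) := by
  rw [Q.J9_eq hc, an0, an1, lc_add]
  have h1 := (Q.val4 hc hs ho (α := 0) (β := 0) (α' := 0) (β' := 1) (Or.inl rfl) (Or.inl rfl)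
    (Or.inl (by omega)) (Or.inl (by omega)) (Or.inl (by omega)) (Or.inl (by omega))).2
  have h2 := (Q.val4 hc hs ho (α := 0) (β := 0) (α' := 1) (β' := 0) (Or.inl rfl)
    (Or.inr (Or.inl rfl)) (Or.inl (by omega)) (Or.inl (by omega)) (Or.inl (by omega))
    (Or.inl (by omega))).2
  simp only [ind_zero, ind_pos one_ne_zero, fg_zero, one_mul, mul_one, add_zero, Q.fw',
    Q.fv'] at h1 h2
  rw [h1, h2]
  unfold DD
  ring

theorem K9c.J110 : lc (st i C).card (k + 2) (J9 i K psi C w v w' v' e 1 1 0) =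
    DD i e w v * DD i e w' v' * lc (st i C).card k (tC i C e) := by
  rw [Q.J9_eq hc, an1, an1, an1, lc_add, lc_add, lc_add]
  have h1 := (Q.val4 hc hs ho (α := 0) (β := 1) (α' := 0) (β' := 1) (Or.inl rfl) (Or.inl rfl)
    (Or.inl (by omega)) (Or.inl (by omega)) (Or.inl (by omega)) (Or.inl (by omega))).2
  have h2 := (Q.val4 hc hs ho (α := 0) (β := 1) (α' := 1) (β' := 0) (Or.inl rfl)
    (Or.inr (Or.inl rfl)) (Or.inl (by omega)) (Or.inl (by omega)) (Or.inl (by omega))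
    (Or.inl (by omega))).2
  have h3 := (Q.val4 hc hs ho (α := 1) (β := 0) (α' := 0) (β' := 1) (Or.inr (Or.inl rfl))
    (Or.inl rfl) (Or.inl (by omega)) (Or.inl (by omega)) (Or.inl (by omega))
    (Or.inl (by omega))).2
  have h4 := (Q.val4 hc hs ho (α := 1) (β := 0) (α' := 1) (β' := 0) (Or.inr (Or.inl rfl))
    (Or.inr (Or.inl rfl)) (Or.inl (by omega)) (Or.inl (by omega)) (Or.inl (by omega))
    (Or.inl (by omega))).2
  simp only [ind_zero, ind_pos one_ne_zero, fg_zero, one_mul, mul_one, add_zero, Q.fw', Q.fw,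
    Q.fv, Q.fv', add_assoc, Nat.reduceAdd] at h1 h2 h3 h4
  rw [h1, h2, h3, h4]
  unfold DD
  ring

variable (b1 : 1 ≤ e b) (nw : w ∉ Tch i e) (nv : v ∉ Tch i e)
include b1 nw nv

theorem K9c.J200 : lc (st i C).card (k + 2) (J9 i K psi C w v w' v' e 2 0 0) =
    - PP i e w v * lc (st i C).card k (tC i C e) := by
  rw [Q.J9_eq hc, an2, an0, an0, an0, lc_add, lc_add]
  have h1 := (Q.val4 hc hs ho (α := 0) (β := 2) (α' := 0) (β' := 0) (Or.inl rfl) (Or.inl rfl)
    (Or.inr nw) (Or.inr nv) (Or.inl (by omega)) (Or.inl (by omega))).1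
  have h2 := (Q.val4 hc hs ho (α := 2) (β := 0) (α' := 0) (β' := 0) (Or.inr (Or.inl rfl))
    (Or.inl rfl) (Or.inr nw) (Or.inr nv) (Or.inl (by omega)) (Or.inl (by omega))).1
  have h3 := (Q.val4 hc hs ho (α := 1) (β := 1) (α' := 0) (β' := 0)
    (Or.inr (Or.inr ⟨rfl, rfl, b1⟩)) (Or.inl rfl) (Or.inr nw) (Or.inr nv) (Or.inl (by omega))
    (Or.inl (by omega))).2
  simp only [ind_zero, ind_pos one_ne_zero, ind_pos two_ne_zero, fg_zero, one_mul, mul_one,
    add_zero, Q.fw, Q.fv, add_assoc, Nat.reduceAdd] at h1 h2 h3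
  rw [lc_lt (show k + 1 < k + 2 by omega) h1, lc_lt (show k + 1 < k + 2 by omega) h2, h3]
  unfold PP
  ring

theorem K9c.J210 : lc (st i C).card (k + 3) (J9 i K psi C w v w' v' e 2 1 0) =
    - PP i e w v * DD i e w' v' * lc (st i C).card k (tC i C e) := by
  rw [Q.J9_eq hc, an2, an1, an1, an1, lc_add, lc_add, lc_add, lc_add, lc_add]
  have h1 := (Q.val4 hc hs ho (α := 0) (β := 2) (α' := 0) (β' := 1) (Or.inl rfl) (Or.inl rfl)
    (Or.inr nw) (Or.inr nv) (Or.inl (by omega)) (Or.inl (by omega))).1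
  have h1' := (Q.val4 hc hs ho (α := 0) (β := 2) (α' := 1) (β' := 0) (Or.inl rfl)
    (Or.inr (Or.inl rfl))
    (Or.inr nw) (Or.inr nv) (Or.inl (by omega)) (Or.inl (by omega))).1
  have h2 := (Q.val4 hc hs ho (α := 2) (β := 0) (α' := 0) (β' := 1) (Or.inr (Or.inl rfl))
    (Or.inl rfl) (Or.inr nw) (Or.inr nv) (Or.inl (by omega)) (Or.inl (by omega))).1
  have h2' := (Q.val4 hc hs ho (α := 2) (β := 0) (α' := 1) (β' := 0) (Or.inr (Or.inl rfl))
    (Or.inr (Or.inl rfl)) (Or.inr nw) (Or.inr nv) (Or.inl (by omega)) (Or.inl (by omega))).1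
  have h3 := (Q.val4 hc hs ho (α := 1) (β := 1) (α' := 0) (β' := 1)
    (Or.inr (Or.inr ⟨rfl, rfl, b1⟩)) (Or.inl rfl) (Or.inr nw) (Or.inr nv) (Or.inl (by omega))
    (Or.inl (by omega))).2
  have h3' := (Q.val4 hc hs ho (α := 1) (β := 1) (α' := 1) (β' := 0)
    (Or.inr (Or.inr ⟨rfl, rfl, b1⟩)) (Or.inr (Or.inl rfl)) (Or.inr nw) (Or.inr nv)
    (Or.inl (by omega)) (Or.inl (by omega))).2
  simp only [ind_zero, ind_pos one_ne_zero, ind_pos two_ne_zero, fg_zero, one_mul, mul_one,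
    add_zero, Q.fw, Q.fv, Q.fw', Q.fv', add_assoc, Nat.reduceAdd] at h1 h1' h2 h2' h3 h3'
  rw [lc_lt (show k + 2 < k + 3 by omega) h1, lc_lt (show k + 2 < k + 3 by omega) h1',
    lc_lt (show k + 2 < k + 3 by omega) h2, lc_lt (show k + 2 < k + 3 by omega) h2', h3, h3']
  unfold PP DD
  ring

variable (b1' : 1 ≤ e b') (nw' : w' ∉ Tch i e) (nv' : v' ∉ Tch i e)
include b1' nw' nv'

theorem K9c.J220 : lc (st i C).card (k + 4) (J9 i K psi C w v w' v' e 2 2 0) =
    PP i e w v * PP i e w' v' * lc (st i C).card k (tC i C e) := by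
  rw [Q.J9_eq hc, an2, an2, an2, an2, lc_add, lc_add, lc_add, lc_add, lc_add, lc_add, lc_add,
    lc_add]
  have t1 : ∀ {n : ℕ}, n ≤ 1 ∨ w ∉ Tch i e := Or.inr nw
  have t2 : ∀ {n : ℕ}, n ≤ 1 ∨ v ∉ Tch i e := Or.inr nv
  have t3 : ∀ {n : ℕ}, n ≤ 1 ∨ w' ∉ Tch i e := Or.inr nw'
  have t4 : ∀ {n : ℕ}, n ≤ 1 ∨ v' ∉ Tch i e := Or.inr nv'
  have g : ∀ {α β α' β' : ℕ}, (α = 0 ∨ β = 0 ∨ (α = 1 ∧ β = 1 ∧ 1 ≤ e b)) →
      (α' = 0 ∨ β' = 0 ∨ (α' = 1 ∧ β' = 1 ∧ 1 ≤ e b')) → ind α + ind β + ind α' + ind β' < 4 →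
      lc (st i C).card (k + 4) (Jw i K psi C w v w' v' e α β α' β' 0) = 0 := by
    intro α β α' β' g1 g2 g3
    exact lc_lt (by omega) (Q.val4 hc hs ho g1 g2 t1 t2 t3 t4).1
  have h3 := (Q.val4 hc hs ho (α := 1) (β := 1) (α' := 1) (β' := 1)
    (Or.inr (Or.inr ⟨rfl, rfl, b1⟩)) (Or.inr (Or.inr ⟨rfl, rfl, b1'⟩)) t1 t2 t3 t4).2
  simp only [ind_pos one_ne_zero, Q.fw, Q.fv, Q.fw', Q.fv', add_assoc, Nat.reduceAdd] at h3
  rw [h3, g (Or.inl rfl) (Or.inl rfl) (by decide), g (Or.inl rfl)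
      (Or.inr (Or.inr ⟨rfl, rfl, b1'⟩)) (by decide),
    g (Or.inl rfl) (Or.inr (Or.inl rfl)) (by decide),
    g (Or.inr (Or.inr ⟨rfl, rfl, b1⟩)) (Or.inl rfl) (by decide),
    g (Or.inr (Or.inr ⟨rfl, rfl, b1⟩)) (Or.inr (Or.inl rfl)) (by decide),
    g (Or.inr (Or.inl rfl)) (Or.inl rfl) (by decide),
    g (Or.inr (Or.inl rfl)) (Or.inr (Or.inr ⟨rfl, rfl, b1'⟩)) (by decide),
    g (Or.inr (Or.inl rfl)) (Or.inr (Or.inl rfl)) (by decide)]
  unfold PP
  ring

end

section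

variable (Q : K9c r i K psi C w v w' v' a b c a' b' c')
include Q
variable (hc : IsCore i ∅ (ps K psi) e) (hs : Spt C e) {k : ℕ}
    (ho : od (st i C).card k (tC i C e))
include hc hs ho
variable (b1' : 1 ≤ e b') (nw' : w' ∉ Tch i e) (nv' : v' ∉ Tch i e)
include b1' nw' nv'

theorem K9c.J020 : lc (st i C).card (k + 2) (J9 i K psi C w v w' v' e 0 2 0) =
    - PP i e w' v' * lc (st i C).card k (tC i C e) := by
  rw [Q.J9_eq hc, an0, an2, lc_add, lc_add]
  have h1 := (Q.val4 hc hs ho (α := 0) (β := 0) (α' := 0) (β' := 2) (Or.inl rfl) (Or.inl rfl)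
    (Or.inl (by omega)) (Or.inl (by omega)) (Or.inr nw') (Or.inr nv')).1
  have h2 := (Q.val4 hc hs ho (α := 0) (β := 0) (α' := 2) (β' := 0) (Or.inl rfl)
    (Or.inr (Or.inl rfl)) (Or.inl (by omega)) (Or.inl (by omega)) (Or.inr nw') (Or.inr nv')).1
  have h3 := (Q.val4 hc hs ho (α := 0) (β := 0) (α' := 1) (β' := 1)
    (Or.inl rfl) (Or.inr (Or.inr ⟨rfl, rfl, b1'⟩)) (Or.inl (by omega)) (Or.inl (by omega))
    (Or.inr nw') (Or.inr nv')).2
  simp only [ind_zero, ind_pos one_ne_zero, ind_pos two_ne_zero, fg_zero, one_mul, mul_one,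
    add_zero, Q.fw', Q.fv', add_assoc, Nat.reduceAdd] at h1 h2 h3
  rw [lc_lt (show k + 1 < k + 2 by omega) h1, lc_lt (show k + 1 < k + 2 by omega) h2, h3]
  unfold PP
  ring

theorem K9c.J120 : lc (st i C).card (k + 3) (J9 i K psi C w v w' v' e 1 2 0) =
    - PP i e w' v' * DD i e w v * lc (st i C).card k (tC i C e) := by
  rw [Q.J9_eq hc, an1, an2, an2, lc_add, lc_add, lc_add, lc_add, lc_add]
  have h1 := (Q.val4 hc hs ho (α := 0) (β := 1) (α' := 0) (β' := 2) (Or.inl rfl) (Or.inl rfl)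
    (Or.inl (by omega)) (Or.inl (by omega)) (Or.inr nw') (Or.inr nv')).1
  have h1' := (Q.val4 hc hs ho (α := 1) (β := 0) (α' := 0) (β' := 2) (Or.inr (Or.inl rfl))
    (Or.inl rfl) (Or.inl (by omega)) (Or.inl (by omega)) (Or.inr nw') (Or.inr nv')).1
  have h2 := (Q.val4 hc hs ho (α := 0) (β := 1) (α' := 2) (β' := 0) (Or.inl rfl)
    (Or.inr (Or.inl rfl)) (Or.inl (by omega)) (Or.inl (by omega)) (Or.inr nw') (Or.inr nv')).1
  have h2' := (Q.val4 hc hs ho (α := 1) (β := 0) (α' := 2) (β' := 0) (Or.inr (Or.inl rfl))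
    (Or.inr (Or.inl rfl)) (Or.inl (by omega)) (Or.inl (by omega)) (Or.inr nw') (Or.inr nv')).1
  have h3 := (Q.val4 hc hs ho (α := 0) (β := 1) (α' := 1) (β' := 1)
    (Or.inl rfl) (Or.inr (Or.inr ⟨rfl, rfl, b1'⟩)) (Or.inl (by omega)) (Or.inl (by omega))
    (Or.inr nw') (Or.inr nv')).2
  have h3' := (Q.val4 hc hs ho (α := 1) (β := 0) (α' := 1) (β' := 1)
    (Or.inr (Or.inl rfl)) (Or.inr (Or.inr ⟨rfl, rfl, b1'⟩)) (Or.inl (by omega))
    (Or.inl (by omega)) (Or.inr nw') (Or.inr nv')).2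
  simp only [ind_zero, ind_pos one_ne_zero, ind_pos two_ne_zero, fg_zero, one_mul, mul_one,
    add_zero, Q.fw, Q.fv, Q.fw', Q.fv', add_assoc, Nat.reduceAdd] at h1 h1' h2 h2' h3 h3'
  rw [lc_lt (show k + 2 < k + 3 by omega) h1, lc_lt (show k + 2 < k + 3 by omega) h1',
    lc_lt (show k + 2 < k + 3 by omega) h2, lc_lt (show k + 2 < k + 3 by omega) h2', h3, h3']
  unfold PP DD
  ring

end

end Pool.Agent.GaussPoset.Win.Pa

end

/-! From `Pool.Agent.W_448p_h97.PaG` -/

section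

/-!
MP_448cb3_co, G2, case B, window `j`: the cores of energy zero and one, labels on the centres of the stars.
helper97.
-/

namespace Pool.Agent.GaussPoset.Win.Pa

set_option linter.unusedSectionVars false

open Finset W4
open Pool.Agent.GaussPoset.Win.So (IV_chi IV_Fe)

universe u

variable {P : Type u} [Fintype P] [PartialOrder P] [DecidableEq P] {r i : ℕ}
variable {e f : P → ℕ} {psi : P → P} {C K : Finset P} {w v w' v' a b c a' b' c' : P}

/-- lowering the order -/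
lemma od_pred {b k : ℕ} {X : A} (h : od b (k + 1) X) (h0 : lc b (k + 1) X = 0) : od b k X := by
  unfold od lc at *
  have h1 : (dd : A) ^ (b + 1) ∣ dd ^ (k + 1) * X := by
    unfold dd at *
    rw [PowerSeries.X_pow_dvd_iff] at h ⊢
    intro m hm
    rcases Nat.lt_or_ge m b with h2 | h2
    · exact h m h2
    · have : m = b := by omega
      rw [this]
      exact h0
  rw [pow_succ', pow_succ', mul_assoc] at h1
  exact (mul_dvd_mul_iff_left dd_ne).1 h1

lemma Sc_single {y : P} (hy : lev y = i) (n : ℕ) : Sc i (Pi.single y n : P → ℕ) := by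
  intro x hx
  rw [Pi.single_apply, if_neg]
  rintro rfl
  exact hx hy

lemma Sc_add {l l' : P → ℕ} (h : Sc i l) (h' : Sc i l') : Sc i (l + l') := by
  intro x hx
  rw [Pi.add_apply, h x hx, h' x hx]

lemma zero_data (H : Gr P r) (hi : 1 ≤ i) (hi2 : i + 1 ≤ r) :
    Sc i (0 : P → ℕ) ∧ Spt C (0 : P → ℕ) ∧ IsCore i ∅ (ps K psi) (0 : P → ℕ) ∧
      od (st i C).card 0 (tC i C (0 : P → ℕ)) ∧ lc (st i C).card 0 (tC i C (0 : P → ℕ)) = 1 := by
  have hS : Sc i (0 : P → ℕ) := fun _ _ => rfl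
  exact ⟨hS, fun _ _ => rfl, fun _ _ => rfl, (hS.val H hi hi2).2.2.2.2.1,
    (hS.val H hi hi2).2.2.2.2.2⟩

lemma sum_one_single (h : ∑ x, e x = 1) : ∃ y, e = Pi.single y 1 := by
  obtain ⟨y, hy⟩ : ∃ y, 1 ≤ e y := by
    by_contra hcon
    push Not at hcon
    have : ∑ x, e x = 0 := sum_eq_zero fun x _ => by have := hcon x; omega
    omega
  refine ⟨y, ?_⟩
  have h1 := Finset.add_sum_erase univ e (mem_univ y)
  rw [h] at h1
  have h2 : ∑ x ∈ univ.erase y, e x = 0 := by omega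
  rw [sum_eq_zero_iff] at h2
  funext x
  by_cases hx : x = y
  · rw [hx, Pi.single_eq_same]
    omega
  · rw [Pi.single_eq_of_ne hx]
    exact h2 x (mem_erase.2 ⟨hx, mem_univ x⟩)

/-- the cores of energy one -/
theorem Co_one (H : Gr P r) (hi2 : i + 1 ≤ r) (he : e ∈ Co i K psi C 1) :
    ¬ (AdmL i e ∧ AdmU i e ∧ Disjoint (AL i e) (AU i e)) ∨ ∃ y, lev y = i ∧ y ∈ C ∧
      e = Pi.single y 1 := by
  obtain ⟨h1, h2, h3⟩ := mem_Co.1 he
  obtain ⟨y, hy⟩ := sum_one_single h1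
  have ey : e y = 1 := by rw [hy, Pi.single_eq_same]
  have ez : ∀ x, x ≠ y → e x = 0 := fun x hx => by rw [hy, Pi.single_eq_of_ne hx]
  have hyC : y ∈ C := mem_of_pos h2 (by omega)
  by_cases hl : lev y = i
  · exact Or.inr ⟨y, hl, hyC, hy⟩
  left
  rintro ⟨hA, hB, -⟩
  by_cases hn : y ∈ near P i
  · -- near
    have hT : ∀ x, x ∉ Tch i e := by
      intro x hx
      rw [mem_Tch] at hx
      rw [mem_near] at hn
      rcases hx with ⟨g1, z, g2, g3⟩ | ⟨g1, z, g2, g3⟩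
      · have := lev_cov H g2
        have hzy : z = y := by
          by_contra h
          have := ez z h
          omega
        rw [hzy] at this
        omega
      · have := lev_cov H g2
        have hzy : z = y := by
          by_contra h
          have := ez z h
          omega
        rw [hzy] at this
        omega
    have := h3 y (mem_Rst.2 ⟨hn, notMem_empty y, hT y, fun h => hT _ h.2⟩)
    omega
  · rw [mem_near, not_or] at hn
    rcases Nat.lt_or_gt_of_ne hl with h | h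
    · -- above the window
      obtain ⟨t, ht⟩ := dc_nonempty H (x := y) (by omega)
      have l1 := lev_dc H ht
      obtain ⟨z, hz⟩ := dc_nonempty H (x := t) (by omega)
      have ht0 : e t = 0 := ez t (by rintro rfl; omega)
      exact hB t (by omega) ⟨⟨y, mem_dc.1 ht, by omega⟩, ⟨z, mem_dc.1 hz, by omega⟩⟩
    · obtain ⟨t, ht⟩ := uc_nonempty H (x := y) (by omega)
      have l1 := lev_uc H ht
      obtain ⟨z, hz⟩ := uc_nonempty H (x := t) (by omega)
      have ht0 : e t = 0 := ez t (by rintro rfl; omega)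
      exact hA t (by omega) ⟨⟨y, mem_uc.1 ht, by omega⟩, ⟨z, mem_uc.1 hz, by omega⟩⟩

section

variable (Q : K9c r i K psi C w v w' v' a b c a' b' c')
include Q

lemma K9c.mC : a ∈ C ∧ b ∈ C ∧ c ∈ C := by
  refine ⟨Q.hC.up Q.wC (mem_uc.1 (by rw [Q.uw]; simp)), Q.hC.up Q.wC (mem_uc.1 (by rw [Q.uw]; simp)),
    Q.hC.dn Q.vC (by have := Q.lv; omega) (mem_dc.1 (by rw [Q.dv]; simp))⟩

lemma K9c.mC' : a' ∈ C ∧ b' ∈ C ∧ c' ∈ C := by
  refine ⟨Q.hC.up Q.wC' (mem_uc.1 (by rw [Q.uw']; simp)),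
    Q.hC.up Q.wC' (mem_uc.1 (by rw [Q.uw']; simp)),
    Q.hC.dn Q.vC' (by have := Q.lv'; omega) (mem_dc.1 (by rw [Q.dv']; simp))⟩

/-- types for a configuration on the sites -/
lemma K9c.DDs (hS : Sc i e) : DD i e w v =
    (if e a < 1 ∧ e b < 1 then 1 else if e a < 1 ∨ e b < 1 then -1 else 0) -
      (if e b < 1 ∧ e c < 1 then 1 else if e b < 1 ∨ e c < 1 then -1 else 0) := by
  unfold DD
  rw [hS.FG Q.H Q.hi Q.hi2 Q.nab Q.nzw, hS.FG Q.H Q.hi Q.hi2 Q.nbc Q.nzv]

lemma K9c.DDs' (hS : Sc i e) : DD i e w' v' =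
    (if e a' < 1 ∧ e b' < 1 then 1 else if e a' < 1 ∨ e b' < 1 then -1 else 0) -
      (if e b' < 1 ∧ e c' < 1 then 1 else if e b' < 1 ∨ e c' < 1 then -1 else 0) := by
  unfold DD
  rw [hS.FG Q.H Q.hi Q.hi2 Q.nab' Q.nzw', hS.FG Q.H Q.hi Q.hi2 Q.nbc' Q.nzv']

lemma K9c.PPs (hS : Sc i e) : PP i e w v =
    (if e a < 1 ∧ e b < 1 then 1 else if e a < 1 ∨ e b < 1 then -1 else 0) *
      (if e b < 1 ∧ e c < 1 then 1 else if e b < 1 ∨ e c < 1 then -1 else 0) := by
  unfold PP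
  rw [hS.FG Q.H Q.hi Q.hi2 Q.nab Q.nzw, hS.FG Q.H Q.hi Q.hi2 Q.nbc Q.nzv]

lemma K9c.PPs' (hS : Sc i e) : PP i e w' v' =
    (if e a' < 1 ∧ e b' < 1 then 1 else if e a' < 1 ∨ e b' < 1 then -1 else 0) *
      (if e b' < 1 ∧ e c' < 1 then 1 else if e b' < 1 ∨ e c' < 1 then -1 else 0) := by
  unfold PP
  rw [hS.FG Q.H Q.hi Q.hi2 Q.nab' Q.nzw', hS.FG Q.H Q.hi Q.hi2 Q.nbc' Q.nzv']

/-- the vacuum: no difference of types -/
lemma K9c.DD0 (hS : Sc i e) (h0 : e a = 0 ∧ e b = 0 ∧ e c = 0) : DD i e w v = 0 := by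
  rw [Q.DDs hS, h0.1, h0.2.1, h0.2.2]
  norm_num

lemma K9c.DD0' (hS : Sc i e) (h0 : e a' = 0 ∧ e b' = 0 ∧ e c' = 0) : DD i e w' v' = 0 := by
  rw [Q.DDs' hS, h0.1, h0.2.1, h0.2.2]
  norm_num

lemma K9c.nLR' {x y : P} (hx : x = a ∨ x = b ∨ x = c) (hy : y = a' ∨ y = b' ∨ y = c') :
    x ≠ y := by
  rintro rfl
  have h1 : x ∈ ({a, b, c} : Finset P) := by
    simp only [mem_insert, mem_singleton]
    exact hx
  have h2 : x ∈ ({a', b', c'} : Finset P) := by
    simp only [mem_insert, mem_singleton]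
    exact hy
  exact disjoint_left.1 Q.nLR h1 h2

/-- one label on a site: the product of the differences vanishes -/
lemma K9c.DD1 {y : P} (hy : lev y = i) :
    DD i (Pi.single y 1 : P → ℕ) w v * DD i (Pi.single y 1 : P → ℕ) w' v' = 0 := by
  have hS := Sc_single hy 1
  by_cases h : y = a ∨ y = b ∨ y = c
  · rw [Q.DD0' hS, mul_zero]
    refine ⟨?_, ?_, ?_⟩
    · rw [Pi.single_apply, if_neg (Q.nLR' h (Or.inl rfl)).symm]
    · rw [Pi.single_apply, if_neg (Q.nLR' h (Or.inr (Or.inl rfl))).symm]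
    · rw [Pi.single_apply, if_neg (Q.nLR' h (Or.inr (Or.inr rfl))).symm]
  · rw [Q.DD0 hS, zero_mul]
    rw [not_or, not_or] at h
    refine ⟨?_, ?_, ?_⟩
    · rw [Pi.single_apply, if_neg (fun h' => h.1 h'.symm)]
    · rw [Pi.single_apply, if_neg (fun h' => h.2.1 h'.symm)]
    · rw [Pi.single_apply, if_neg (fun h' => h.2.2 h'.symm)]

/-! ### energy zero -/

lemma tx_zero_two {x : P} (hx : x ∈ near P i) (S : Finset P) :
    tx i (0 : P → ℕ) x 2 S = tx i (0 : P → ℕ) x 1 S := by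
  have hT : x ∉ Tch i (0 : P → ℕ) := by
    rw [(show Sc i (0 : P → ℕ) from fun _ _ => rfl).tch Q.H]
    exact notMem_empty x
  have hk : ∀ n, 1 ≤ n → kz i (0 : P → ℕ) x n = nz i x := by
    intro n hn
    rw [kz_eq_iff]
    intro v _
    show 0 < n
    omega
  have hf : ∀ n, 1 ≤ n → fz i (0 : P → ℕ) x n = if lev x = i + 1 then dd else xi * dd := by
    intro n hn
    unfold fz
    rw [if_pos (hk n hn)]
  rw [tx_free hT, tx_free hT]
  rcases mem_near.1 hx with h | h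
  · rw [wt_low h, wt_low h, hk 2 (by omega), hk 1 (by omega), hf 2 (by omega), hf 1 (by omega)]
  · rw [wt_upp h, wt_upp h, hk 2 (by omega), hk 1 (by omega), hf 2 (by omega), hf 1 (by omega)]

lemma tx_both {x y q : P} (hx : lev x = i + 1) (hy : lev y + 1 = i) (hq : q ∈ uc x)
    (hq' : q ∈ dc y) (hTx : x ∉ Tch i e) (hTy : y ∉ Tch i e) (h0 : e q = 0) {m n : ℕ}
    (hm : 1 ≤ m) (hn : 1 ≤ n) (S : Finset P) : tx i e x m S * tx i e y n S = 0 := by
  rw [tx_free hTx, tx_free hTy, wt_low hx, wt_upp hy]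
  have q1 : q ∈ kz i e x m := mem_kz.2 ⟨by rw [nz_low hx]; exact hq, by omega⟩
  have q2 : q ∈ kz i e y n := mem_kz.2 ⟨by rw [nz_upp hy]; exact hq', by omega⟩
  by_cases hS : q ∈ S
  · have : chi ∅ (kz i e y n) S = 0 := by
      unfold chi
      rw [if_neg]
      rintro ⟨-, h2⟩
      exact disjoint_left.1 h2 q2 hS
    rw [this]
    ring
  · have : chi (kz i e x m) ∅ S = 0 := by
      unfold chi
      rw [if_neg]
      rintro ⟨h2, -⟩
      exact hS (h2 q1)
    rw [this]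
    ring

lemma WW_two {x y q : P} (hx : lev x = i + 1) (hy : lev y + 1 = i) (hq : q ∈ uc x)
    (hq' : q ∈ dc y) (S : Finset P) :
    WW i (0 : P → ℕ) x y 2 S = WW i (0 : P → ℕ) x y 1 S := by
  have hT : ∀ z, z ∉ Tch i (0 : P → ℕ) := by
    intro z
    rw [(show Sc i (0 : P → ℕ) from fun _ _ => rfl).tch Q.H]
    exact notMem_empty z
  unfold WW
  rw [an2, an1]
  show tx i 0 x 0 S * tx i 0 y 2 S + (tx i 0 x 1 S * tx i 0 y 1 S + tx i 0 x 2 S * tx i 0 y 0 S) =
    tx i 0 x 0 S * tx i 0 y 1 S + tx i 0 x 1 S * tx i 0 y 0 S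
  rw [tx_both Q hx hy hq hq' (hT x) (hT y) rfl le_rfl le_rfl S,
    tx_zero_two Q (mem_near.2 (Or.inl hx)), tx_zero_two Q (mem_near.2 (Or.inr hy)), zero_add]

lemma K9c.J0_210 (m : ℕ) : J9 i K psi C w v w' v' (0 : P → ℕ) 2 1 m =
    J9 i K psi C w v w' v' (0 : P → ℕ) 1 1 m := by
  unfold J9
  congr 1
  funext S
  rw [WW_two Q Q.lw Q.lv Q.hb Q.hb1]

lemma K9c.J0_120 (m : ℕ) : J9 i K psi C w v w' v' (0 : P → ℕ) 1 2 m =
    J9 i K psi C w v w' v' (0 : P → ℕ) 1 1 m := by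
  unfold J9
  congr 1
  funext S
  rw [WW_two Q Q.lw' Q.lv' Q.hb' Q.hb1']

lemma K9c.L0_110 : lc (st i C).card 2 (J9 i K psi C w v w' v' (0 : P → ℕ) 1 1 0) = 0 := by
  obtain ⟨h1, h2, h3, h4, -⟩ := zero_data (C := C) (K := K) (psi := psi) Q.H Q.hi Q.hi2
  have := Q.J110 h3 h2 h4
  rw [Q.DD0 h1 ⟨rfl, rfl, rfl⟩, zero_mul, zero_mul] at this
  exact this

lemma K9c.L0_100 : lc (st i C).card 1 (J9 i K psi C w v w' v' (0 : P → ℕ) 1 0 0) = 0 := by
  obtain ⟨h1, h2, h3, h4, -⟩ := zero_data (C := C) (K := K) (psi := psi) Q.H Q.hi Q.hi2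
  have := Q.J100 h3 h2 h4
  rw [Q.DD0 h1 ⟨rfl, rfl, rfl⟩, zero_mul] at this
  exact this

lemma K9c.L0_010 : lc (st i C).card 1 (J9 i K psi C w v w' v' (0 : P → ℕ) 0 1 0) = 0 := by
  obtain ⟨h1, h2, h3, h4, -⟩ := zero_data (C := C) (K := K) (psi := psi) Q.H Q.hi Q.hi2
  have := Q.J010 h3 h2 h4
  rw [Q.DD0' h1 ⟨rfl, rfl, rfl⟩, zero_mul] at this
  exact this

/-- one label on a star element each and one on a free near element -/
lemma K9c.Jw111 {x y : P} (hx : x = w ∨ x = v) (hy : y = w' ∨ y = v') :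
    lc (st i C).card 2 (JK i K psi C 1 (Pi.single x 1 + Pi.single y 1 : P → ℕ)) =
      sg1 i x * sg1 i y * Dg i K C (nz i x ∪ nz i y) := by
  have H := Q.H
  obtain ⟨h1, h2, h3, h4, h5⟩ := zero_data (C := C) (K := K) (psi := psi) Q.H Q.hi Q.hi2
  have hxd : x ∈ near P i ∧ x ∈ C ∧ x ∈ K ∧ (nz i x).card = 2 := by
    rcases hx with rfl | rfl
    · exact ⟨Q.nw, Q.wC, Q.wK, Q.w2⟩
    · exact ⟨Q.nv, Q.vC, Q.vK, Q.v2⟩
  have hyd : y ∈ near P i ∧ y ∈ C ∧ y ∈ K ∧ (nz i y).card = 2 := by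
    rcases hy with rfl | rfl
    · exact ⟨Q.nw', Q.wC', Q.wK', Q.w2'⟩
    · exact ⟨Q.nv', Q.vC', Q.vK', Q.v2'⟩
  have hxy : y ≠ x := by
    rintro rfl
    have := Q.dLR hx hy
    rw [disjoint_self_iff_empty] at this
    rw [this] at hxd
    simp at hxd
  have hT0 : ∀ z, z ∉ Tch i (0 : P → ℕ) := by
    intro z
    rw [h1.tch H]
    exact notMem_empty z
  obtain ⟨-, -, A0, U0, -, -⟩ := h1.val (C := C) H Q.hi Q.hi2
  have hkz : kz i (0 : P → ℕ) x 1 = nz i x := by
    rw [kz_eq_iff]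
    intro z _
    show 0 < 1
    omega
  have hFx : Fx i (0 : P → ℕ) x 1 := by
    refine ⟨fun z _ => by show 0 < 1; omega, ?_⟩
    rw [A0, U0, union_empty]
    exact disjoint_empty_right _
  obtain ⟨o1, l1⟩ := val_F H Q.hir Q.hC h2 (by rw [A0]; exact disjoint_empty_left _) hxd.1 hxd.2.1
    (hT0 x) rfl hxd.2.2.2 hFx h4
  have z1 : ((0 : P → ℕ) + Pi.single x 1) = Pi.single x 1 := zero_add _
  rw [zero_add, z1] at o1 l1
  have T1 : Tch i (Pi.single x 1 : P → ℕ) = ∅ := by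
    have := Tch_add (e := (0 : P → ℕ)) H (single_far hxd.1 1)
    rw [zero_add] at this
    rw [this, h1.tch H]
  have s1 : Spt C (Pi.single x 1 : P → ℕ) := by
    have := Spt_add h2 hxd.2.1 1
    rwa [zero_add] at this
  have hAU : AL i (Pi.single x 1 : P → ℕ) ∪ AU i (Pi.single x 1 : P → ℕ) = nz i x := by
    have := ALU_add (e := (0 : P → ℕ)) H hxd.1 rfl 1
    rw [zero_add, A0, U0, empty_union, empty_union, hkz] at this
    exact this
  have hdis : Disjoint (AL i (Pi.single x 1 : P → ℕ)) (AU i (Pi.single x 1 : P → ℕ)) := by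
    rcases mem_near.1 hxd.1 with g | g
    · have := AU_low (e := (0 : P → ℕ)) H g rfl 1
      rw [zero_add, U0] at this
      rw [this]
      exact disjoint_empty_right _
    · have := AL_upp (e := (0 : P → ℕ)) H g rfl 1
      rw [zero_add, A0] at this
      rw [this]
      exact disjoint_empty_left _
  have hsite : ∀ z, lev z = i → (Pi.single x 1 : P → ℕ) z = 0 := by
    intro z hz
    apply single_far hxd.1 1 z
    rw [mem_near]
    omega
  have hcore : IsCore i K psi (Pi.single x 1 : P → ℕ) := by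
    intro z hz
    rw [Pi.single_apply, if_neg]
    rintro rfl
    exact (mem_Rst.1 hz).2.1 hxd.2.2.1
  have hR : ∀ z ∈ N0 i K C, z ∉ RK i K psi C (Pi.single x 1 : P → ℕ) →
      z ∈ dbL P i ∪ dbU P i ∧ nz i z ⊆ AL i (Pi.single x 1 : P → ℕ) ∪ AU i (Pi.single x 1) := by
    intro z hz hn
    exfalso
    apply hn
    obtain ⟨g1, g2, g3⟩ := mem_N0.1 hz
    refine mem_RK.2 ⟨mem_Rst.2 ⟨g1, g3, ?_, ?_⟩, g2⟩
    · rw [T1]; exact notMem_empty z
    · rintro ⟨-, g⟩
      rw [T1] at g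
      exact notMem_empty _ g
  have := x_one_gen (psi := psi) H Q.hi Q.hi2 Q.hM Q.hC s1 hdis (k := 1) o1 hsite hcore hR hyd.1
    hyd.2.1 hyd.2.2.1 hyd.2.2.2 (by rw [T1]; exact notMem_empty y)
    (by rw [Pi.single_apply, if_neg hxy]) (by rw [hAU]; exact (Q.dLR hx hy).symm)
  rw [this, hAU, l1, h5]
  ring

/-- the mixed term -/
theorem K9c.L0_111 : lc (st i C).card 2 (J9 i K psi C w v w' v' (0 : P → ℕ) 1 1 1) =
    - (W4.mm i K C (nz i w ∪ nz i w') + W4.mm i K C (nz i v ∪ nz i v') -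
      W4.mm i K C (nz i w ∪ nz i v') - W4.mm i K C (nz i v ∪ nz i w')) := by
  obtain ⟨h1, h2, h3, h4, h5⟩ := zero_data (C := C) (K := K) (psi := psi) Q.H Q.hi Q.hi2
  have hT : ∀ x n, Ac i (0 : P → ℕ) x n := by
    intro x n
    right
    rw [h1.tch Q.H]
    exact notMem_empty x
  have hJ : ∀ α β α' β' m, Jw i K psi C w v w' v' (0 : P → ℕ) α β α' β' m =
      JK i K psi C m ((0 : P → ℕ) + Pi.single w α + Pi.single v β + Pi.single w' α' +
        Pi.single v' β') := by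
    intro α β α' β' m
    unfold Jw
    rw [if_pos ⟨⟨hT _ _, hT _ _⟩, hT _ _, hT _ _⟩]
  rw [Q.J9_eq h3, an1, an1, an1, lc_add, lc_add, lc_add]
  simp only [hJ, Pi.single_zero, add_zero, zero_add]
  rw [Q.Jw111 (Or.inr rfl) (Or.inr rfl), Q.Jw111 (Or.inr rfl) (Or.inl rfl),
    Q.Jw111 (Or.inl rfl) (Or.inr rfl), Q.Jw111 (Or.inl rfl) (Or.inl rfl)]
  have sw : sg1 i w = 1 := by unfold sg1; rw [if_pos Q.lw]
  have sv : sg1 i v = -1 := by unfold sg1; rw [if_neg (by have := Q.lv; omega)]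
  have sw' : sg1 i w' = 1 := by unfold sg1; rw [if_pos Q.lw']
  have sv' : sg1 i v' = -1 := by unfold sg1; rw [if_neg (by have := Q.lv'; omega)]
  rw [sw, sv, sw', sv']
  unfold Dg
  rw [sum_union (Q.dLR (Or.inr rfl) (Or.inr rfl)), sum_union (Q.dLR (Or.inr rfl) (Or.inl rfl)),
    sum_union (Q.dLR (Or.inl rfl) (Or.inr rfl)), sum_union (Q.dLR (Or.inl rfl) (Or.inl rfl))]
  ring

end

end Pool.Agent.GaussPoset.Win.Pa

end

/-! From `Pool.Agent.W_448p_h97.PaH` -/

section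

/-!
MP_448cb3_co, G2, case B, window `j`: the leading coefficients of the window sum of a component with two
stars.  helper97.
-/

namespace Pool.Agent.GaussPoset.Win.Pa

set_option linter.unusedSectionVars false

open Finset W4
open Pool.Agent.GaussPoset.Win.So (IV_chi IV_Fe)
open Pool.Agent.GaussPoset.Win.SO (PN vp con on)

universe u

variable {P : Type u} [Fintype P] [PartialOrder P] [DecidableEq P] {r i : ℕ}
variable {e f : P → ℕ} {psi : P → P} {C K : Finset P} {w v w' v' a b c a' b' c' : P}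

lemma rk0 (β : ℕ) : rk 0 β = 0 := rfl
lemma rk1 (β : ℕ) : rk 1 β = 1 := rfl
lemma rk2 (β : ℕ) : rk 2 β = 1 + β := rfl

/-- the relevant energies of the stars -/
def tT (n q : ℕ) : Finset (ℕ × ℕ × ℕ) :=
  match n with
  | 1 => if q = 0 then {(1, 0, 0), (0, 1, 0)} else ∅
  | 2 => if q = 0 then {(1, 1, 0)} else ∅
  | 3 => if q = 0 then {(1, 1, 1), (2, 1, 0), (1, 2, 0)}
    else if q = 1 then {(1, 1, 0), (2, 0, 0), (0, 2, 0)}
    else if q = 2 then {(1, 0, 0), (0, 1, 0)} else ∅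
  | 4 => if q = 1 then {(2, 1, 0), (1, 2, 0)} else if q = 2 then {(1, 1, 0)} else ∅
  | 6 => if q = 2 then {(2, 2, 0)} else if q = 3 then {(2, 1, 0), (1, 2, 0)}
    else if q = 4 then {(1, 1, 0)} else ∅
  | _ => ∅

/-- the orders -/
def tk (n : ℕ) : ℕ := match n with
  | 1 => 1
  | 2 => 2
  | 3 => 2
  | 4 => 3
  | 6 => 4
  | _ => 0

lemma tT_sum (n : ℕ) : ∀ q ≤ n, ∀ x ∈ tT n q, x.1 + x.2.1 + x.2.2 = n - q := by
  have h1 : ∀ q ∈ range 2, ∀ x ∈ tT 1 q, x.1 + x.2.1 + x.2.2 = 1 - q := by decide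
  have h2 : ∀ q ∈ range 3, ∀ x ∈ tT 2 q, x.1 + x.2.1 + x.2.2 = 2 - q := by decide
  have h3 : ∀ q ∈ range 4, ∀ x ∈ tT 3 q, x.1 + x.2.1 + x.2.2 = 3 - q := by decide
  have h4 : ∀ q ∈ range 5, ∀ x ∈ tT 4 q, x.1 + x.2.1 + x.2.2 = 4 - q := by decide
  have h6 : ∀ q ∈ range 7, ∀ x ∈ tT 6 q, x.1 + x.2.1 + x.2.2 = 6 - q := by decide
  intro q hq x hx
  match n with
  | 0 => simp [tT] at hx
  | 1 => exact h1 q (mem_range.2 (by omega)) x hx
  | 2 => exact h2 q (mem_range.2 (by omega)) x hx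
  | 3 => exact h3 q (mem_range.2 (by omega)) x hx
  | 4 => exact h4 q (mem_range.2 (by omega)) x hx
  | 5 => simp [tT] at hx
  | 6 => exact h6 q (mem_range.2 (by omega)) x hx
  | k + 7 => simp [tT] at hx

/-- the test -/
def tB (n : ℕ) : Prop := ∀ q ∈ range (n + 1), ∀ n1 ∈ range (n + 1), ∀ n2 ∈ range (n + 1),
  ∀ β ∈ range 2, ∀ β' ∈ range 2, β + β' ≤ q → q + n1 + n2 ≤ n →
    (n1, n2, n - q - n1 - n2) ∉ tT n q → (q - β - β') / 2 + rk n1 β + rk n2 β' < tk n

instance (n : ℕ) : Decidable (tB n) := by unfold tB; infer_instance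

lemma tB_1 : tB 1 := by decide
lemma tB_2 : tB 2 := by decide
lemma tB_3 : tB 3 := by decide
lemma tB_4 : tB 4 := by decide
set_option maxRecDepth 100000 in
lemma tB_6 : tB 6 := by decide

lemma tB.use {n : ℕ} (h : tB n) : ∀ q n1 n2 m, q + n1 + n2 + m = n → (n1, n2, m) ∉ tT n q →
    ∀ β β', β ≤ 1 → β' ≤ 1 → β + β' ≤ q →
      (q - β - β') / 2 + rk n1 β + rk n2 β' < tk n := by
  intro q n1 n2 m hs hn β β' g1 g2 g3
  have : m = n - q - n1 - n2 := by omega
  rw [this] at hn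
  exact h q (mem_range.2 (by omega)) n1 (mem_range.2 (by omega)) n2 (mem_range.2 (by omega)) β
    (mem_range.2 (by omega)) β' (mem_range.2 (by omega)) g3 (by omega) hn

section

variable (Q : K9c r i K psi C w v w' v' a b c a' b' c')
include Q

lemma K9c.lcT {n : ℕ} (h : tB n) : lc (st i C).card (tk n) (ZC i C n) =
    ∑ q ∈ range (n + 1), ∑ e ∈ Co i K psi C q, ∑ x ∈ tT n q,
      lc (st i C).card (tk n) (J9 i K psi C w v w' v' e x.1 x.2.1 x.2.2) :=
  Q.ZC_lc (tT n) (tT_sum n) h.use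

/-! ### orders -/

theorem K9c.z0 : od (st i C).card 0 (ZC i C 0) := Q.ZC_od fun q β β' n1 n2 h1 h2 h3 h4 => by
  unfold rk; split_ifs <;> omega

theorem K9c.z1 : od (st i C).card 0 (ZC i C 1) := by
  refine od_pred (Q.ZC_od fun q β β' n1 n2 h1 h2 h3 h4 => by unfold rk; split_ifs <;> omega) ?_
  have h := Q.lcT tB_1
  rw [show tk 1 = 0 + 1 from rfl] at h
  rw [h, sum_range_succ, sum_range_one, Co_zero Q.H, sum_singleton]
  have t0 : tT 1 0 = {(1, 0, 0), (0, 1, 0)} := by decide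
  have t1 : tT 1 1 = ∅ := by decide
  rw [t0, t1, sum_pair (by decide)]
  simp only [sum_empty, sum_const_zero, add_zero]
  rw [show (0 + 1 : ℕ) = 1 from rfl, Q.L0_100, Q.L0_010, add_zero]

theorem K9c.z2 : od (st i C).card 1 (ZC i C 2) := by
  refine od_pred Q.od2 ?_
  have h := Q.lcT tB_2
  rw [show tk 2 = 1 + 1 from rfl] at h
  rw [h, sum_range_succ, sum_range_succ, sum_range_one, Co_zero Q.H, sum_singleton]
  have t0 : tT 2 0 = {(1, 1, 0)} := by decide
  have t1 : tT 2 1 = ∅ := by decide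
  have t2 : tT 2 2 = ∅ := by decide
  rw [t0, t1, t2, sum_singleton]
  simp only [sum_empty, sum_const_zero, add_zero]
  rw [show (1 + 1 : ℕ) = 2 from rfl, Q.L0_110]

/-! ### sums over the cores of energy one -/

/-- a core which is not admissible does not contribute -/
lemma K9c.bad (h : ¬ (AdmL i e ∧ AdmU i e ∧ Disjoint (AL i e) (AU i e))) (n1 n2 m : ℕ) :
    J9 i K psi C w v w' v' e n1 n2 m = 0 := by
  unfold J9 IV
  refine sum_eq_zero fun S _ => ?_
  show xx ^ S.card * (Fe i e S * _) = 0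
  rw [Fe_zero h, zero_mul, mul_zero]

lemma K9c.co_b {y : P} (hy : lev y = i) (hyC : y ∈ C) (q : ℕ) :
    (Pi.single y q : P → ℕ) ∈ Co i K psi C q := by
  refine mem_Co.2 ⟨?_, ?_, (Sc_single hy q).core Q.H⟩
  · rw [sum_eq_single y]
    · rw [Pi.single_eq_same]
    · intro x _ hx
      rw [Pi.single_eq_of_ne hx]
    · intro h
      exact absurd (mem_univ y) h
  · intro x hx
    rw [Pi.single_apply, if_neg]
    rintro rfl
    exact hx hyC

/-- sum over the cores of energy one of a function supported on the centres of the stars -/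
lemma K9c.sum1 (X : (P → ℕ) → ℤ)
    (h1 : ∀ e, ¬ (AdmL i e ∧ AdmU i e ∧ Disjoint (AL i e) (AU i e)) → X e = 0)
    (h2 : ∀ y, lev y = i → y ∈ C → y ≠ b → y ≠ b' → X (Pi.single y 1) = 0) :
    ∑ e ∈ Co i K psi C 1, X e = X (Pi.single b 1) + X (Pi.single b' 1) := by
  classical
  have hne : (Pi.single b 1 : P → ℕ) ≠ Pi.single b' 1 := by
    intro h
    have := congrFun h b
    rw [Pi.single_eq_same, Pi.single_eq_of_ne Q.nbb] at this
    omega
  rw [← sum_pair hne]
  symm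
  refine sum_subset ?_ ?_
  · intro e he
    rw [mem_insert, mem_singleton] at he
    rcases he with rfl | rfl
    · exact Q.co_b Q.lb Q.mC.2.1 1
    · exact Q.co_b Q.lb' Q.mC'.2.1 1
  · intro e he hn
    rw [mem_insert, mem_singleton, not_or] at hn
    rcases Co_one Q.H Q.hi2 he with h | ⟨y, hy, hyC, rfl⟩
    · exact h1 e h
    · refine h2 y hy hyC ?_ ?_
      · rintro rfl
        exact hn.1 rfl
      · rintro rfl
        exact hn.2 rfl

lemma K9c.sing (y : P) (hy : lev y = i) (hyC : y ∈ C) :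
    Sc i (Pi.single y 1 : P → ℕ) ∧ Spt C (Pi.single y 1 : P → ℕ) ∧
      IsCore i ∅ (ps K psi) (Pi.single y 1 : P → ℕ) ∧
      od (st i C).card 0 (tC i C (Pi.single y 1 : P → ℕ)) ∧
      lc (st i C).card 0 (tC i C (Pi.single y 1 : P → ℕ)) = 1 ∧
      (∀ x, x ∉ Tch i (Pi.single y 1 : P → ℕ)) := by
  have hS := Sc_single hy 1
  have h := mem_Co.1 (Q.co_b hy hyC 1)
  refine ⟨hS, h.2.1, h.2.2, (hS.val Q.H Q.hi Q.hi2).2.2.2.2.1, (hS.val Q.H Q.hi Q.hi2).2.2.2.2.2,
    fun x => ?_⟩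
  rw [hS.tch Q.H]
  exact notMem_empty x

/-- the products of the types at the centres -/
lemma K9c.PPb : PP i (Pi.single b 1 : P → ℕ) w v = 1 := by
  rw [Q.PPs (Sc_single Q.lb 1), Pi.single_eq_same, Pi.single_eq_of_ne Q.nab,
    Pi.single_eq_of_ne Q.nbc.symm]
  norm_num

lemma K9c.PPb' : PP i (Pi.single b' 1 : P → ℕ) w' v' = 1 := by
  rw [Q.PPs' (Sc_single Q.lb' 1), Pi.single_eq_same, Pi.single_eq_of_ne Q.nab',
    Pi.single_eq_of_ne Q.nbc'.symm]
  norm_num

lemma K9c.DDb' : DD i (Pi.single b 1 : P → ℕ) w' v' = 0 := by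
  refine Q.DD0' (Sc_single Q.lb 1) ⟨?_, ?_, ?_⟩
  · exact Pi.single_eq_of_ne (Q.nLR' (Or.inr (Or.inl rfl)) (Or.inl rfl)).symm _
  · exact Pi.single_eq_of_ne (Q.nLR' (Or.inr (Or.inl rfl)) (Or.inr (Or.inl rfl))).symm _
  · exact Pi.single_eq_of_ne (Q.nLR' (Or.inr (Or.inl rfl)) (Or.inr (Or.inr rfl))).symm _

lemma K9c.DDb : DD i (Pi.single b' 1 : P → ℕ) w v = 0 := by
  refine Q.DD0 (Sc_single Q.lb' 1) ⟨?_, ?_, ?_⟩
  · exact Pi.single_eq_of_ne (Q.nLR' (Or.inl rfl) (Or.inr (Or.inl rfl))) _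
  · exact Pi.single_eq_of_ne (Q.nLR' (Or.inr (Or.inl rfl)) (Or.inr (Or.inl rfl))) _
  · exact Pi.single_eq_of_ne (Q.nLR' (Or.inr (Or.inr rfl)) (Or.inr (Or.inl rfl))) _

/-- the star is open exactly if its centre has a label -/
lemma K9c.bt_single {y : P} (hy : lev y = i) {x z q : P} (hq : q ≠ y) :
    bt i (Pi.single y 1 : P → ℕ) x z q = 0 := by
  unfold bt
  rw [if_neg]
  rintro ⟨h, -⟩
  rw [Pi.single_eq_of_ne hq] at h
  omega

lemma K9c.low2 {y : P} (hy : lev y = i) (hyC : y ∈ C) (hb : b ≠ y) (m : ℕ) :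
    lc (st i C).card 2 (J9 i K psi C w v w' v' (Pi.single y 1 : P → ℕ) 2 0 m) = 0 := by
  have h := Q.od (Q.co_b hy hyC 1) 2 0 m
  rw [Q.bt_single hy hb] at h
  refine lc_lt ?_ h
  have := bt_le (i := i) (e := (Pi.single y 1 : P → ℕ)) w' v' b'
  rw [rk2, rk0]
  omega

lemma K9c.low2' {y : P} (hy : lev y = i) (hyC : y ∈ C) (hb : b' ≠ y) (m : ℕ) :
    lc (st i C).card 2 (J9 i K psi C w v w' v' (Pi.single y 1 : P → ℕ) 0 2 m) = 0 := by
  have h := Q.od (Q.co_b hy hyC 1) 0 2 m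
  rw [Q.bt_single hy hb] at h
  refine lc_lt ?_ h
  have := bt_le (i := i) (e := (Pi.single y 1 : P → ℕ)) w v b
  rw [rk2, rk0]
  omega

lemma K9c.low3 {y : P} (hy : lev y = i) (hyC : y ∈ C) (hb : b ≠ y) (m : ℕ) :
    lc (st i C).card 3 (J9 i K psi C w v w' v' (Pi.single y 1 : P → ℕ) 2 1 m) = 0 := by
  have h := Q.od (Q.co_b hy hyC 1) 2 1 m
  rw [Q.bt_single hy hb] at h
  refine lc_lt ?_ h
  have := bt_le (i := i) (e := (Pi.single y 1 : P → ℕ)) w' v' b'
  rw [rk2, rk1]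
  omega

lemma K9c.low3' {y : P} (hy : lev y = i) (hyC : y ∈ C) (hb : b' ≠ y) (m : ℕ) :
    lc (st i C).card 3 (J9 i K psi C w v w' v' (Pi.single y 1 : P → ℕ) 1 2 m) = 0 := by
  have h := Q.od (Q.co_b hy hyC 1) 1 2 m
  rw [Q.bt_single hy hb] at h
  refine lc_lt ?_ h
  have := bt_le (i := i) (e := (Pi.single y 1 : P → ℕ)) w v b
  rw [rk2, rk1]
  omega

end

end Pool.Agent.GaussPoset.Win.Pa

end

/-! From `Pool.Agent.W_448p_h97.PaI` -/

section

/-!
MP_448cb3_co, G2, case B, window `j`: the values of (3,2), (4,3), (6,4) of a component with two stars.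
helper97.
-/

namespace Pool.Agent.GaussPoset.Win.Pa

set_option linter.unusedSectionVars false

open Finset W4
open Pool.Agent.GaussPoset.Win.So (IV_chi IV_Fe)
open Pool.Agent.GaussPoset.Win.SO (PN vp con on)

universe u

variable {P : Type u} [Fintype P] [PartialOrder P] [DecidableEq P] {r i : ℕ}
variable {e f : P → ℕ} {psi : P → P} {C K : Finset P} {w v w' v' a b c a' b' c' : P}

section

variable (Q : K9c r i K psi C w v w' v' a b c a' b' c')
include Q

/-- the order of a core -/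
lemma K9c.odC {q k : ℕ} (he : e ∈ Co i K psi C q)
    (hk : (q - bt i e w v b - bt i e w' v' b') / 2 ≤ k) : od (st i C).card k (tC i C e) := by
  have h1 := Q.cheap he
  have h2 := SO.dvd_up (SO.cheap_dvd Q.H Q.hC (mem_Co.1 he).2.1 h1)
  exact od_mono hk h2

/-- the differences at a pendant -/
noncomputable def NN (i : ℕ) (w v p : P) : ℤ := Nx i w p - Nx i v p

lemma K9c.DDp {p : P} (hp : p ∈ PN i C) : DD i (on (con i p)) w v = NN i w v p := by
  unfold DD NN
  rw [FG_pd Q.H Q.hi Q.hi2 Q.hC hp Q.nw Q.w2 one_ne_zero,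
    FG_pd Q.H Q.hi Q.hi2 Q.hC hp Q.nv Q.v2 one_ne_zero]

lemma K9c.DDp' {p : P} (hp : p ∈ PN i C) : DD i (on (con i p)) w' v' = NN i w' v' p := by
  unfold DD NN
  rw [FG_pd Q.H Q.hi Q.hi2 Q.hC hp Q.nw' Q.w2' one_ne_zero,
    FG_pd Q.H Q.hi Q.hi2 Q.hC hp Q.nv' Q.v2' one_ne_zero]

/-- sums over the cores of energy two -/
lemma K9c.s2 (F : (P → ℕ) → ℤ) :
    ∑ e ∈ Co i K psi C 2, F e * lc (st i C).card 1 (tC i C e) =
      ∑ p ∈ PN i C, F (on (con i p)) * vp i p := by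
  rw [Q.sum2 (fun e => F e * lc (st i C).card 1 (tC i C e))]
  · refine sum_congr rfl fun p hp => ?_
    rw [(pd_val Q.H Q.hi Q.hi2 Q.hC hp).2.2.2.2.2]
  · intro e hs h _ _
    rw [cheap0_lc Q.H Q.hC hs h, mul_zero]

/-- THE VALUE (4,3) -/
theorem K9c.l43 : lc (st i C).card 3 (ZC i C 4) =
    ∑ p ∈ PN i C, NN i w v p * NN i w' v' p * vp i p := by
  have h := Q.lcT tB_4
  rw [show tk 4 = 3 from rfl] at h
  rw [h, sum_range_succ, sum_range_succ, sum_range_succ, sum_range_succ, sum_range_one]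
  have t0 : tT 4 0 = ∅ := by decide
  have t1 : tT 4 1 = {(2, 1, 0), (1, 2, 0)} := by decide
  have t2 : tT 4 2 = {(1, 1, 0)} := by decide
  have t3 : tT 4 3 = ∅ := by decide
  have t4 : tT 4 4 = ∅ := by decide
  rw [t0, t1, t2, t3, t4]
  simp only [sum_empty, sum_const_zero, add_zero, zero_add, sum_singleton]
  have e1 : ∑ e ∈ Co i K psi C 1, ∑ x ∈ ({(2, 1, 0), (1, 2, 0)} : Finset (ℕ × ℕ × ℕ)),
      lc (st i C).card 3 (J9 i K psi C w v w' v' e x.1 x.2.1 x.2.2) = 0 := by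
    have e2 : ∀ e : P → ℕ, ∑ x ∈ ({(2, 1, 0), (1, 2, 0)} : Finset (ℕ × ℕ × ℕ)),
        lc (st i C).card 3 (J9 i K psi C w v w' v' e x.1 x.2.1 x.2.2) =
        lc (st i C).card 3 (J9 i K psi C w v w' v' e 2 1 0) +
          lc (st i C).card 3 (J9 i K psi C w v w' v' e 1 2 0) := by
      intro e
      rw [sum_pair (by decide)]
    simp only [e2]
    rw [Q.sum1 (fun e => lc (st i C).card 3 (J9 i K psi C w v w' v' e 2 1 0) +
          lc (st i C).card 3 (J9 i K psi C w v w' v' e 1 2 0))]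
    · obtain ⟨c1, c2, c3, c4, c5, c6⟩ := Q.sing b Q.lb Q.mC.2.1
      obtain ⟨d1, d2, d3, d4, d5, d6⟩ := Q.sing b' Q.lb' Q.mC'.2.1
      have g1 := Q.J210 c3 c2 c4 (by rw [Pi.single_eq_same]) (c6 w) (c6 v)
      have g2 := Q.J120 d3 d2 d4 (by rw [Pi.single_eq_same]) (d6 w') (d6 v')
      rw [zero_add, Q.DDb', mul_zero, zero_mul] at g1
      rw [zero_add, Q.DDb, mul_zero, zero_mul] at g2
      rw [g1, g2, Q.low3' Q.lb Q.mC.2.1 Q.nbb.symm, Q.low3 Q.lb' Q.mC'.2.1 Q.nbb]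
      norm_num
    · intro e he
      rw [Q.bad he, Q.bad he, lc_zero]
      norm_num
    · intro y hy hyC n1 n2
      rw [Q.low3 hy hyC n1.symm, Q.low3' hy hyC n2.symm]
      norm_num
  rw [e1, zero_add]
  have e3 : ∀ e ∈ Co i K psi C 2, lc (st i C).card 3 (J9 i K psi C w v w' v' e 1 1 0) =
      DD i e w v * DD i e w' v' * lc (st i C).card 1 (tC i C e) := by
    intro e he
    exact Q.J110 (mem_Co.1 he).2.2 (mem_Co.1 he).2.1 (Q.odC he (by omega))
  rw [sum_congr rfl e3, Q.s2 (fun e => DD i e w v * DD i e w' v')]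
  refine sum_congr rfl fun p hp => ?_
  rw [Q.DDp hp, Q.DDp' hp]

/-- the order of (4,·) -/
theorem K9c.z4 (h : ∀ p ∈ PN i C, NN i w v p * NN i w' v' p = 0) :
    od (st i C).card 2 (ZC i C 4) := by
  refine od_pred Q.od4 ?_
  have h1 := Q.l43
  rw [show (2 + 1 : ℕ) = 3 from rfl, h1]
  refine sum_eq_zero fun p hp => ?_
  rw [h p hp, zero_mul]

/-- the mixed number of lower doubles -/
noncomputable def MM (i : ℕ) (K C : Finset P) (w v w' v' : P) : ℤ :=
  W4.mm i K C (nz i w ∪ nz i w') + W4.mm i K C (nz i v ∪ nz i v') -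
      W4.mm i K C (nz i w ∪ nz i v') - W4.mm i K C (nz i v ∪ nz i w')

/-- THE VALUE (3,2) -/
theorem K9c.l32 : lc (st i C).card 2 (ZC i C 3) =
    ∑ p ∈ PN i C, (NN i w v p + NN i w' v' p) * vp i p - 2 - MM i K C w v w' v' := by
  have h := Q.lcT tB_3
  rw [show tk 3 = 2 from rfl] at h
  rw [h, sum_range_succ, sum_range_succ, sum_range_succ, sum_range_one]
  have t0 : tT 3 0 = {(1, 1, 1), (2, 1, 0), (1, 2, 0)} := by decide
  have t1 : tT 3 1 = {(1, 1, 0), (2, 0, 0), (0, 2, 0)} := by decide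
  have t2 : tT 3 2 = {(1, 0, 0), (0, 1, 0)} := by decide
  have t3 : tT 3 3 = ∅ := by decide
  rw [t0, t1, t2, t3]
  simp only [sum_empty, sum_const_zero, add_zero]
  -- energy zero
  have e0 : ∑ e ∈ Co i K psi C 0, ∑ x ∈ ({(1, 1, 1), (2, 1, 0), (1, 2, 0)} : Finset (ℕ × ℕ × ℕ)),
      lc (st i C).card 2 (J9 i K psi C w v w' v' e x.1 x.2.1 x.2.2) = - MM i K C w v w' v' := by
    rw [Co_zero Q.H, sum_singleton, sum_insert (by decide), sum_pair (by decide)]
    simp only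
    rw [Q.L0_111, Q.J0_210, Q.J0_120, Q.L0_110]
    unfold MM
    ring
  -- energy one
  have e1 : ∑ e ∈ Co i K psi C 1, ∑ x ∈ ({(1, 1, 0), (2, 0, 0), (0, 2, 0)} : Finset (ℕ × ℕ × ℕ)),
      lc (st i C).card 2 (J9 i K psi C w v w' v' e x.1 x.2.1 x.2.2) = -2 := by
    have e2 : ∀ e : P → ℕ, ∑ x ∈ ({(1, 1, 0), (2, 0, 0), (0, 2, 0)} : Finset (ℕ × ℕ × ℕ)),
        lc (st i C).card 2 (J9 i K psi C w v w' v' e x.1 x.2.1 x.2.2) =
        lc (st i C).card 2 (J9 i K psi C w v w' v' e 1 1 0) +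
          (lc (st i C).card 2 (J9 i K psi C w v w' v' e 2 0 0) +
            lc (st i C).card 2 (J9 i K psi C w v w' v' e 0 2 0)) := by
      intro e
      rw [sum_insert (by decide), sum_pair (by decide)]
    simp only [e2]
    have k110 : ∀ y, lev y = i → y ∈ C →
        lc (st i C).card 2 (J9 i K psi C w v w' v' (Pi.single y 1 : P → ℕ) 1 1 0) = 0 := by
      intro y hy hyC
      obtain ⟨c1, c2, c3, c4, c5, c6⟩ := Q.sing y hy hyC
      have := Q.J110 c3 c2 c4
      rw [zero_add, Q.DD1 hy, zero_mul] at this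
      exact this
    rw [Q.sum1 (fun e => lc (st i C).card 2 (J9 i K psi C w v w' v' e 1 1 0) +
          (lc (st i C).card 2 (J9 i K psi C w v w' v' e 2 0 0) +
            lc (st i C).card 2 (J9 i K psi C w v w' v' e 0 2 0)))]
    · obtain ⟨c1, c2, c3, c4, c5, c6⟩ := Q.sing b Q.lb Q.mC.2.1
      obtain ⟨d1, d2, d3, d4, d5, d6⟩ := Q.sing b' Q.lb' Q.mC'.2.1
      have g1 := Q.J200 c3 c2 c4 (by rw [Pi.single_eq_same]) (c6 w) (c6 v)
      have g2 := Q.J020 d3 d2 d4 (by rw [Pi.single_eq_same]) (d6 w') (d6 v')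
      rw [zero_add, Q.PPb, c5] at g1
      rw [zero_add, Q.PPb', d5] at g2
      rw [g1, g2, Q.low2' Q.lb Q.mC.2.1 Q.nbb.symm, Q.low2 Q.lb' Q.mC'.2.1 Q.nbb,
        k110 b Q.lb Q.mC.2.1, k110 b' Q.lb' Q.mC'.2.1]
      norm_num
    · intro e he
      rw [Q.bad he, Q.bad he, Q.bad he, lc_zero]
      norm_num
    · intro y hy hyC n1 n2
      rw [Q.low2 hy hyC n1.symm, Q.low2' hy hyC n2.symm, k110 y hy hyC]
      norm_num
  -- energy two
  have e3 : ∑ e ∈ Co i K psi C 2, ∑ x ∈ ({(1, 0, 0), (0, 1, 0)} : Finset (ℕ × ℕ × ℕ)),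
      lc (st i C).card 2 (J9 i K psi C w v w' v' e x.1 x.2.1 x.2.2) =
      ∑ p ∈ PN i C, (NN i w v p + NN i w' v' p) * vp i p := by
    have e4 : ∀ e ∈ Co i K psi C 2, ∑ x ∈ ({(1, 0, 0), (0, 1, 0)} : Finset (ℕ × ℕ × ℕ)),
        lc (st i C).card 2 (J9 i K psi C w v w' v' e x.1 x.2.1 x.2.2) =
        (DD i e w v + DD i e w' v') * lc (st i C).card 1 (tC i C e) := by
      intro e he
      rw [sum_pair (by decide)]
      simp only
      have g1 := Q.J100 (mem_Co.1 he).2.2 (mem_Co.1 he).2.1 (Q.odC he (show _ ≤ 1 by omega))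
      have g2 := Q.J010 (mem_Co.1 he).2.2 (mem_Co.1 he).2.1 (Q.odC he (show _ ≤ 1 by omega))
      rw [show (1 + 1 : ℕ) = 2 from rfl] at g1 g2
      rw [g1, g2]
      ring
    rw [sum_congr rfl e4, Q.s2 (fun e => DD i e w v + DD i e w' v')]
    refine sum_congr rfl fun p hp => ?_
    rw [Q.DDp hp, Q.DDp' hp]
  rw [e0, e1, e3]
  ring

end

end Pool.Agent.GaussPoset.Win.Pa

end

/-! From `Pool.Agent.W_448p_h97.PaJ` -/

section

/-!
MP_448cb3_co, G2, case B, window `j`: the value (6,4) of a component with two stars.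
helper97.
-/

namespace Pool.Agent.GaussPoset.Win.Pa

set_option linter.unusedSectionVars false

open Finset W4
open Pool.Agent.GaussPoset.Win.So (IV_chi IV_Fe)
open Pool.Agent.GaussPoset.Win.SO (PN vp con on)

universe u

variable {P : Type u} [Fintype P] [PartialOrder P] [DecidableEq P] {r i : ℕ}
variable {e f : P → ℕ} {psi : P → P} {C K : Finset P} {w v w' v' a b c a' b' c' : P}

lemma two_eq {x y : P} (hxy : x ≠ y) (hx : 1 ≤ e x) (hy : 1 ≤ e y) (h : ∑ z, e z = 2) :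
    e = Pi.single x 1 + Pi.single y 1 := by
  have h1 := Finset.add_sum_erase univ e (mem_univ x)
  have h2 := Finset.add_sum_erase (univ.erase x) e (mem_erase.2 ⟨hxy.symm, mem_univ y⟩)
  rw [h] at h1
  have h3 : ∑ z ∈ (univ.erase x).erase y, e z = 0 := by omega
  rw [sum_eq_zero_iff] at h3
  funext z
  rw [Pi.add_apply]
  by_cases hzx : z = x
  · rw [hzx, Pi.single_eq_same, Pi.single_eq_of_ne hxy]
    omega
  · by_cases hzy : z = y
    · rw [hzy, Pi.single_eq_same, Pi.single_eq_of_ne hxy.symm]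
      omega
    · rw [Pi.single_eq_of_ne hzx, Pi.single_eq_of_ne hzy, add_zero]
      exact h3 z (mem_erase.2 ⟨hzy, mem_erase.2 ⟨hzx, mem_univ z⟩⟩)

section

variable (Q : K9c r i K psi C w v w' v' a b c a' b' c')
include Q

lemma K9c.sym : K9c r i K psi C w' v' w v a' b' c' a b c where
  H := Q.H
  hi := Q.hi
  hi2 := Q.hi2
  hM := Q.hM
  hC := Q.hC
  nq := Q.nq
  nq' := Q.nq'
  hK := by
    intro x hx
    rw [Q.hK x hx]
    tauto
  wC := Q.wC'
  vC := Q.vC'
  wC' := Q.wC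
  vC' := Q.vC
  lw := Q.lw'
  lv := Q.lv'
  lw' := Q.lw
  lv' := Q.lv
  nww := Q.nww.symm
  nvv := Q.nvv.symm
  hb := Q.hb'
  hb1 := Q.hb1'
  hb' := Q.hb
  hb1' := Q.hb1
  nbb := Q.nbb.symm
  NQ2 := Q.NQ2
  Gd := Q.Gd
  tw := Q.tw'
  tw' := Q.tw
  uw := Q.uw'
  dv := Q.dv'
  uw' := Q.uw
  dv' := Q.dv
  nab := Q.nab'
  nbc := Q.nbc'
  nac := Q.nac'
  nab' := Q.nab
  nbc' := Q.nbc
  nac' := Q.nac
  nLR := Q.nLR.symm

/-- the cores of energy two with both centres -/
lemma K9c.e220 : ∑ e ∈ Co i K psi C 2, lc (st i C).card 4 (J9 i K psi C w v w' v' e 2 2 0) = 1 := by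
  have hcore : (Pi.single b 1 + Pi.single b' 1 : P → ℕ) ∈ Co i K psi C 2 := by
    have h1 := mem_Co.1 (Q.co_b Q.lb Q.mC.2.1 1)
    have h2 := mem_Co.1 (Q.co_b Q.lb' Q.mC'.2.1 1)
    refine mem_Co.2 ⟨?_, ?_, (Sc_add (Sc_single Q.lb 1) (Sc_single Q.lb' 1)).core Q.H⟩
    · have : ∑ x, (Pi.single b 1 + Pi.single b' 1 : P → ℕ) x =
          ∑ x, (Pi.single b 1 : P → ℕ) x + ∑ x, (Pi.single b' 1 : P → ℕ) x := by
        rw [← sum_add_distrib]
        rfl
      rw [this, h1.1, h2.1]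
    · intro x hx
      rw [Pi.add_apply, h1.2.1 x hx, h2.2.1 x hx]
  rw [sum_eq_single (Pi.single b 1 + Pi.single b' 1 : P → ℕ)]
  · have hS : Sc i (Pi.single b 1 + Pi.single b' 1 : P → ℕ) :=
      Sc_add (Sc_single Q.lb 1) (Sc_single Q.lb' 1)
    have hc := (mem_Co.1 hcore).2.2
    have hs := (mem_Co.1 hcore).2.1
    obtain ⟨-, -, -, -, o, l⟩ := hS.val (C := C) Q.H Q.hi Q.hi2
    have hT : ∀ x, x ∉ Tch i (Pi.single b 1 + Pi.single b' 1 : P → ℕ) := by
      intro x
      rw [hS.tch Q.H]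
      exact notMem_empty x
    have eb : (Pi.single b 1 + Pi.single b' 1 : P → ℕ) b = 1 := by
      rw [Pi.add_apply, Pi.single_eq_same, Pi.single_eq_of_ne Q.nbb, add_zero]
    have eb' : (Pi.single b 1 + Pi.single b' 1 : P → ℕ) b' = 1 := by
      rw [Pi.add_apply, Pi.single_eq_same, Pi.single_eq_of_ne Q.nbb.symm]
    have z : ∀ {x}, x ≠ b → x ≠ b' → (Pi.single b 1 + Pi.single b' 1 : P → ℕ) x = 0 := by
      intro x h1 h2
      rw [Pi.add_apply, Pi.single_eq_of_ne h1, Pi.single_eq_of_ne h2, add_zero]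
    have h := Q.J220 hc hs o (by rw [eb]) (hT w) (hT v) (by rw [eb']) (hT w') (hT v')
    rw [zero_add, l, Q.PPs hS, Q.PPs' hS, eb, eb',
      z Q.nab (Q.nLR' (Or.inl rfl) (Or.inr (Or.inl rfl))),
      z Q.nbc.symm (Q.nLR' (Or.inr (Or.inr rfl)) (Or.inr (Or.inl rfl))),
      z (Q.nLR' (Or.inr (Or.inl rfl)) (Or.inl rfl)).symm Q.nab',
      z (Q.nLR' (Or.inr (Or.inl rfl)) (Or.inr (Or.inr rfl))).symm Q.nbc'.symm] at h
    rw [h]
    norm_num
  · intro e he hne
    refine lc_lt ?_ (Q.od he 2 2 0)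
    rw [rk2, rk2]
    have g1 := bt_le (i := i) (e := e) w v b
    have g2 := bt_le (i := i) (e := e) w' v' b'
    by_contra hcon
    apply hne
    have h1 : bt i e w v b = 1 := by omega
    have h2 : bt i e w' v' b' = 1 := by omega
    refine two_eq Q.nbb ?_ ?_ (mem_Co.1 he).1
    · unfold bt at h1
      by_contra h
      rw [if_neg (fun h' => h h'.1)] at h1
      omega
    · unfold bt at h2
      by_contra h
      rw [if_neg (fun h' => h h'.1)] at h2
      omega
  · intro h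
    exact absurd hcore h

/-- the value of a label on the centre -/
lemma K9c.e210 {e : P → ℕ} (he : e ∈ Co i K psi C 3) :
    lc (st i C).card 4 (J9 i K psi C w v w' v' e 2 1 0) =
      if bt i e w v b = 1 then
        - PP i e w v * DD i e w' v' * lc (st i C).card 1 (tC i C e) else 0 := by
  by_cases h : bt i e w v b = 1
  · rw [if_pos h]
    have h' := h
    unfold bt at h'
    have hd : 1 ≤ e b ∧ w ∉ Tch i e ∧ v ∉ Tch i e := by
      by_contra hcon
      rw [if_neg hcon] at h'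
      omega
    exact Q.J210 (mem_Co.1 he).2.2 (mem_Co.1 he).2.1 (Q.odC he (by rw [h]; omega)) hd.1 hd.2.1 hd.2.2
  · rw [if_neg h]
    have g1 := bt_le (i := i) (e := e) w v b
    have g2 := bt_le (i := i) (e := e) w' v' b'
    refine lc_lt ?_ (Q.od he 2 1 0)
    rw [rk2, rk1]
    omega

/-- no site of the star is a site of the pendant -/
noncomputable def Nf (i : ℕ) (a b c p : P) : ℤ :=
  if Disjoint ({a, b, c} : Finset P) (sit i p) then 1 else 0

/-- the sum of the contributions with a label on the centre -/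
theorem K9c.s210 (hbp : ∀ p ∈ PN i C, b ∈ sit i p → a ∈ sit i p ∨ c ∈ sit i p) :
    ∑ e ∈ Co i K psi C 3, lc (st i C).card 4 (J9 i K psi C w v w' v' e 2 1 0) =
      - ∑ p ∈ PN i C, Nf i a b c p * NN i w' v' p * vp i p := by
  classical
  have H := Q.H
  rw [sum_congr rfl fun e he => Q.e210 he]
  rw [Q.sum3 Q.lb (fun e => if bt i e w v b = 1 then
        - PP i e w v * DD i e w' v' * lc (st i C).card 1 (tC i C e) else 0)]
  rotate_left
  · intro e hs h
    rw [cheap0_lc H Q.hC hs h, mul_zero, ite_self]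
  · intro e h
    rw [if_neg]
    unfold bt
    rw [if_neg (by omega)]
    omega
  have hfil : (PN i C).filter (fun p => (p, b) ∈ I3 i C) = PN i C := by
    rw [filter_eq_self]
    intro p hp
    exact mem_I3.2 ⟨hp, Q.mC.2.1, Or.inl Q.lb⟩
  rw [hfil, ← sum_neg_distrib]
  refine sum_congr rfl fun p hp => ?_
  have hI : (p, b) ∈ I3 i C := mem_I3.2 ⟨hp, Q.mC.2.1, Or.inl Q.lb⟩
  obtain ⟨v1, v2, v3, v4, v5, v6, v7⟩ := m3_val H Q.hir Q.hC hI
  obtain ⟨hpC, y, hcon, hyn, hnz, hcard, hlev, hd⟩ := PN_dat H hp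
  -- labels
  have hsite : ∀ y, lev y = i → m3 i (p, b) y = if y = b then 1 else 0 := by
    intro y hy
    unfold m3
    rw [Pi.add_apply, Pi.single_apply]
    show on (con i p) y + _ = _
    rw [pd_site H hp hy, zero_add]
  have la : lev a = i := nz_lev H Q.nw (by rw [Q.nzw]; simp)
  have lc' : lev c = i := nz_lev H Q.nv (by rw [Q.nzv]; simp)
  have hTc : Tch i (m3 i (p, b)) = Tch i (on (con i p)) := by
    ext z
    rw [mem_Tch, mem_Tch]
    have key : ∀ z, lev z ≠ i → m3 i (p, b) z = on (con i p) z := by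
      intro z hz
      unfold m3
      rw [Pi.add_apply, Pi.single_apply, if_neg, add_zero]
      rintro rfl
      exact hz Q.lb
    constructor
    · rintro (⟨g1, t, g2, g3⟩ | ⟨g1, t, g2, g3⟩)
      · have := lev_cov H g2
        rw [key t (by omega)] at g3
        exact Or.inl ⟨g1, t, g2, g3⟩
      · have := lev_cov H g2
        rw [key t (by omega)] at g3
        exact Or.inr ⟨g1, t, g2, g3⟩
    · rintro (⟨g1, t, g2, g3⟩ | ⟨g1, t, g2, g3⟩)
      · have := lev_cov H g2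
        rw [← key t (by omega)] at g3
        exact Or.inl ⟨g1, t, g2, g3⟩
      · have := lev_cov H g2
        rw [← key t (by omega)] at g3
        exact Or.inr ⟨g1, t, g2, g3⟩
  simp only at v4 v6
  -- the types of the elements of the other star
  have hfree : ∀ {z : P}, z ∈ near P i → (nz i z).card = 2 → b ∉ nz i z →
      FG i (m3 i (p, b)) z 1 = Nx i z p := by
    intro z hz h2 hbz
    have hlt : ∀ y ∈ nz i z, m3 i (p, b) y < 1 := by
      intro y hy
      rw [hsite y (nz_lev H hz hy), if_neg (by rintro rfl; exact hbz hy)]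
      omega
    have hdis : Disjoint (nz i z) ((sit i p).erase b) ↔ Disjoint (nz i z) (sit i p) := by
      constructor
      · intro h
        rw [disjoint_left] at h ⊢
        intro y hy hy'
        exact h hy (mem_erase.2 ⟨by rintro rfl; exact hbz hy, hy'⟩)
      · intro h
        exact disjoint_of_subset_right (erase_subset _ _) h
    unfold FG Nx
    have e1 : Fx i (m3 i (p, b)) z 1 ↔ Disjoint (nz i z) (sit i p) := by
      unfold Fx
      rw [v4, hdis]
      exact ⟨fun h => h.2, fun h => ⟨hlt, h⟩⟩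
    by_cases hd' : Disjoint (nz i z) (sit i p)
    · rw [if_pos (e1.2 hd'), if_pos hd']
    · rw [if_neg (fun h => hd' (e1.1 h)), if_neg hd', if_neg]
      rintro ⟨g1, -⟩
      rw [kz_eq_iff.2 hlt] at g1
      omega
  have hbw' : b ∉ nz i w' := by
    rw [Q.nzw', mem_insert, mem_singleton]
    rintro (h | h)
    · exact Q.nLR' (Or.inr (Or.inl rfl)) (Or.inl rfl) h
    · exact Q.nbb h
  have hbv' : b ∉ nz i v' := by
    rw [Q.nzv', mem_insert, mem_singleton]
    rintro (h | h)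
    · exact Q.nbb h
    · exact Q.nLR' (Or.inr (Or.inl rfl)) (Or.inr (Or.inr rfl)) h
  have hDD : DD i (m3 i (p, b)) w' v' = NN i w' v' p := by
    unfold DD NN
    rw [hfree Q.nw' Q.w2' hbw', hfree Q.nv' Q.v2' hbv']
  -- the types of the star itself
  have kzw : kz i (m3 i (p, b)) w 1 = {a} := by
    ext y
    rw [mem_kz, Q.nzw, mem_insert, mem_singleton, mem_singleton]
    constructor
    · rintro ⟨rfl | rfl, h⟩
      · rfl
      · rw [hsite y Q.lb, if_pos rfl] at h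
        omega
    · rintro rfl
      refine ⟨Or.inl rfl, ?_⟩
      rw [hsite y la, if_neg Q.nab]
      omega
  have kzv : kz i (m3 i (p, b)) v 1 = {c} := by
    ext y
    rw [mem_kz, Q.nzv, mem_insert, mem_singleton]
    constructor
    · rintro ⟨rfl | rfl, h⟩
      · rw [hsite y Q.lb, if_pos rfl] at h
        omega
      · rfl
    · rintro rfl
      refine ⟨Or.inr rfl, ?_⟩
      rw [hsite y lc', if_neg Q.nbc.symm]
      omega
  have FGw : FG i (m3 i (p, b)) w 1 = if a ∈ sit i p then 0 else -1 := by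
    unfold FG
    rw [if_neg]
    · unfold Gx
      rw [kzw, v4, card_singleton, disjoint_singleton_left, mem_erase]
      by_cases h : a ∈ sit i p
      · rw [if_neg, if_pos h]
        rintro ⟨-, -, h'⟩
        exact h' ⟨Q.nab, h⟩
      · rw [if_pos, if_neg h]
        exact ⟨rfl, Q.w2, fun h' => h h'.2⟩
    · rintro ⟨g, -⟩
      have := g b (by rw [Q.nzw]; simp)
      rw [hsite b Q.lb, if_pos rfl] at this
      omega
  have FGv : FG i (m3 i (p, b)) v 1 = if c ∈ sit i p then 0 else -1 := by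
    unfold FG
    rw [if_neg]
    · unfold Gx
      rw [kzv, v4, card_singleton, disjoint_singleton_left, mem_erase]
      by_cases h : c ∈ sit i p
      · rw [if_neg, if_pos h]
        rintro ⟨-, -, h'⟩
        exact h' ⟨Q.nbc.symm, h⟩
      · rw [if_pos, if_neg h]
        exact ⟨rfl, Q.v2, fun h' => h h'.2⟩
    · rintro ⟨g, -⟩
      have := g b (by rw [Q.nzv]; simp)
      rw [hsite b Q.lb, if_pos rfl] at this
      omega
  show (if bt i (m3 i (p, b)) w v b = 1 then - PP i (m3 i (p, b)) w v *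
    DD i (m3 i (p, b)) w' v' * lc (st i C).card 1 (tC i C (m3 i (p, b))) else 0) =
      -(Nf i a b c p * NN i w' v' p * vp i p)
  unfold PP
  rw [FGw, FGv, hDD, v6]
  unfold Nf
  have hdabc : Disjoint ({a, b, c} : Finset P) (sit i p) ↔
      a ∉ sit i p ∧ b ∉ sit i p ∧ c ∉ sit i p := by
    rw [disjoint_insert_left, disjoint_insert_left, disjoint_singleton_left]
  by_cases hD : Disjoint ({a, b, c} : Finset P) (sit i p)
  · rw [if_pos hD]
    obtain ⟨n1, n2, n3⟩ := hdabc.1 hD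
    have hbt : bt i (m3 i (p, b)) w v b = 1 := by
      unfold bt
      rw [if_pos]
      refine ⟨?_, ?_, ?_⟩
      · rw [hsite b Q.lb, if_pos rfl]
      · rw [hTc]
        intro h
        have := pd_tch H hp h
        rw [Q.nzw] at this
        exact n2 (by rw [← this]; simp)
      · rw [hTc]
        intro h
        have := pd_tch H hp h
        rw [Q.nzv] at this
        exact n2 (by rw [← this]; simp)
    have hbp' : b ≠ p := by
      rintro rfl
      have := Q.lb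
      rcases hd with ⟨-, h, -⟩ | ⟨-, h, -⟩ <;> omega
    have hep : ep3 (sit i p) p b = 1 := by
      unfold ep3
      rw [if_neg]
      rintro (h | h)
      · exact n2 h
      · exact hbp' h
    rw [if_pos hbt, if_neg n1, if_neg n3, hep]
    ring
  · rw [if_neg hD]
    have hz : (if a ∈ sit i p then (0 : ℤ) else -1) * (if c ∈ sit i p then 0 else -1) = 0 := by
      by_cases n1 : a ∈ sit i p
      · rw [if_pos n1, zero_mul]
      · by_cases n3 : c ∈ sit i p
        · rw [if_pos n3, mul_zero]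
        · exfalso
          apply hD
          rw [hdabc]
          refine ⟨n1, fun n2 => ?_, n3⟩
          rcases hbp p hp n2 with h | h
          · exact n1 h
          · exact n3 h
    rw [hz]
    split_ifs <;> ring

end

end Pool.Agent.GaussPoset.Win.Pa

end

/-! From `Pool.Agent.W_448p_h97.PaK` -/

section

/-!
MP_448cb3_co, G2, case B, window `j`: the value (6,4) of a component with two stars, configurations of energy four.
helper97.
-/

namespace Pool.Agent.GaussPoset.Win.Pa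

set_option linter.unusedSectionVars false

open Finset W4
open Pool.Agent.GaussPoset.Win.So (IV_chi IV_Fe)
open Pool.Agent.GaussPoset.Win.SO (PN vp con on Sde TD On tL tU con_cls num_PN sit_con BL_union BU_union LowD UppD)
open Pool.Agent.GaussPoset.Win.I2 (lS uS mem_lS mem_uS)

universe u

variable {P : Type u} [Fintype P] [PartialOrder P] [DecidableEq P] {r i : ℕ}
variable {e f : P → ℕ} {psi : P → P} {C K : Finset P} {w v w' v' a b c a' b' c' : P}

/-- the type for free sites -/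
lemma FG_free {x : P} (h2 : (nz i x).card = 2) (hlt : ∀ y ∈ nz i x, e y < 1) :
    FG i e x 1 = if Disjoint (nz i x) (AL i e ∪ AU i e) then 1 else 0 := by
  unfold FG
  by_cases hd : Disjoint (nz i x) (AL i e ∪ AU i e)
  · rw [if_pos (show Fx i e x 1 from ⟨hlt, hd⟩), if_pos hd]
  · rw [if_neg (fun h => hd h.2), if_neg hd, if_neg]
    rintro ⟨g1, -⟩
    rw [kz_eq_iff.2 hlt] at g1
    omega

/-- killed sites of a pair of pendants -/
lemma c4_AU (H : Gr P r) (hi : 1 ≤ i) (hi2 : i + 1 ≤ r) {q : P × P} (hq : q ∈ P4 i C) :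
    AL i (c4 i q) ∪ AU i (c4 i q) = sit i q.1 ∪ sit i q.2 := by
  obtain ⟨h1, h2, h3⟩ := mem_P4.1 hq
  have N := num_PN H h1
  have N' := num_PN H h2
  have c1 := con_cls H N.ns
  have c2 := con_cls H N'.ns
  have hs : SO.Cls i (con i q.1 ∪ con i q.2) := by
    constructor
    · intro x hx
      rcases mem_union.1 hx with hx | hx
      · exact c1.ns x hx
      · exact c2.ns x hx
    · intro x hx hl y hy
      rcases mem_union.1 hx with hx | hx
      · exact mem_union_left _ (c1.lo x hx hl y hy)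
      · exact mem_union_right _ (c2.lo x hx hl y hy)
    · intro x hx hl y hy
      rcases mem_union.1 hx with hx | hx
      · exact mem_union_left _ (c1.up x hx hl y hy)
      · exact mem_union_right _ (c2.up x hx hl y hy)
  obtain ⟨-, -, -, -, -, -, d1, d2⟩ := SO.on_data H hi hi2 hs
  unfold c4
  rw [d1, d2, BL_union, BU_union, ← sit_con H N.ns, ← sit_con H N'.ns]
  ext y
  simp only [mem_union]
  tauto

/-- DATA of a T-element -/
lemma T4_dat (H : Gr P r) (hir : i ≤ r) (hC : Part (i + 1) C) {z : P} (hz : z ∈ T4 i C) :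
    ∃ x1 x2 s, (x1 ∈ near P i ∧ x1 ∈ C ∧ (nz i x1).card = 2) ∧
      (x2 ∈ near P i ∧ x2 ∈ C ∧ (nz i x2).card = 2) ∧ s ∈ nz i x1 ∧ s ∈ nz i x2 ∧
      (∀ y, y ∈ nz i x1 → y ∈ nz i x2 → y = s) ∧
      AL i (cA i z) ∪ AU i (cA i z) = nz i x1 ∪ nz i x2 ∧
      AL i (cB i z) ∪ AU i (cB i z) = (nz i x1 ∪ nz i x2).erase s ∧
      (∀ y, lev y = i → cA i z y = 0) ∧
      (∀ y, lev y = i → cB i z y = if y = s then 1 else 0) := by
  rcases mem_T4.1 hz with ⟨h1, h2⟩ | ⟨h1, h2⟩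
  · obtain ⟨x, x', s, T⟩ := T4_low H h1 h2
    have l1 := T.lw
    obtain ⟨l2, l3⟩ := T.lx H
    have l4 := T.site H (mem_union_left _ T.sx)
    have hzC := (mem_ZL.1 h1).1
    have hxC := hC.up hzC (show z ⋖ x by rw [← mem_uc, T.cw]; simp)
    have hxC' := hC.up hzC (show z ⋖ x' by rw [← mem_uc, T.cw]; simp)
    have fA := cA_low H l1 T.cw
    have fB := cB_low H T
    have D := lowA H l1 T.cw fA
    have D' : UppD i (cA i z) (∅ : Finset P) ∅ ∅ := SO.upp_none H hir fun y hy => by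
      rw [fA y, if_neg (by rintro rfl; omega), if_neg]
      rintro (rfl | rfl) <;> omega
    have E := lowB H T fB
    have E' : UppD i (cB i z) (∅ : Finset P) ∅ ∅ := SO.upp_none H hir fun y hy => by
      rw [fB y, if_neg]
      rw [mem_insert, mem_insert, mem_insert, mem_singleton]
      rintro (rfl | rfl | rfl | rfl) <;> omega
    refine ⟨x, x', s, ⟨mem_near.2 (Or.inl l2), hxC, by rw [nz_low l2]; exact T.cx⟩,
      ⟨mem_near.2 (Or.inl l3), hxC', by rw [nz_low l3]; exact T.cx'⟩, ?_, ?_, ?_, ?_, ?_, ?_, ?_⟩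
    · rw [nz_low l2]; exact T.sx
    · rw [nz_low l3]; exact T.sx'
    · rw [nz_low l2, nz_low l3]; exact T.only
    · rw [D.AL_eq, D'.AU_eq, union_empty, nz_low l2, nz_low l3]
    · rw [E.AL_eq, E'.AU_eq, union_empty, nz_low l2, nz_low l3]
    · intro y hy
      rw [fA y, if_neg (by rintro rfl; omega), if_neg]
      rintro (rfl | rfl) <;> omega
    · intro y hy
      rw [fB y]
      by_cases hys : y = s
      · rw [if_pos hys, if_pos]
        simp [hys]
      · rw [if_neg hys, if_neg]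
        rw [mem_insert, mem_insert, mem_insert, mem_singleton]
        rintro (rfl | rfl | rfl | rfl)
        · omega
        · omega
        · omega
        · exact hys rfl
  · obtain ⟨x, x', s, T⟩ := T4_upp H h1 h2
    have l1 := T.lw'
    obtain ⟨l2, l3⟩ := T.lx' H
    have l4 := T.site' H (mem_union_left _ T.sx)
    have hzC := (mem_ZU.1 h1).1
    have hxC := hC.dn hzC (by omega) (show x ⋖ z by rw [← mem_dc, T.cw]; simp)
    have hxC' := hC.dn hzC (by omega) (show x' ⋖ z by rw [← mem_dc, T.cw]; simp)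
    have fA := cA_upp H l1 T.cw
    have fB := cB_upp H T
    have D := uppA H hir l1 T.cw fA
    have D' : LowD i (cA i z) (∅ : Finset P) ∅ ∅ := SO.low_none H fun y hy => by
      rw [fA y, if_neg (by rintro rfl; omega), if_neg]
      rintro (rfl | rfl) <;> omega
    have E := uppB H hir T fB
    have E' : LowD i (cB i z) (∅ : Finset P) ∅ ∅ := SO.low_none H fun y hy => by
      rw [fB y, if_neg]
      rw [mem_insert, mem_insert, mem_insert, mem_singleton]
      rintro (rfl | rfl | rfl | rfl) <;> omega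
    refine ⟨x, x', s, ⟨mem_near.2 (Or.inr l2), hxC, by rw [nz_upp l2]; exact T.cx⟩,
      ⟨mem_near.2 (Or.inr l3), hxC', by rw [nz_upp l3]; exact T.cx'⟩, ?_, ?_, ?_, ?_, ?_, ?_, ?_⟩
    · rw [nz_upp l2]; exact T.sx
    · rw [nz_upp l3]; exact T.sx'
    · rw [nz_upp l2, nz_upp l3]; exact T.only
    · rw [D.AU_eq, D'.AL_eq, empty_union, nz_upp l2, nz_upp l3]
    · rw [E.AU_eq, E'.AL_eq, empty_union, nz_upp l2, nz_upp l3]
    · intro y hy
      rw [fA y, if_neg (by rintro rfl; omega), if_neg]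
      rintro (rfl | rfl) <;> omega
    · intro y hy
      rw [fB y]
      by_cases hys : y = s
      · rw [if_pos hys, if_pos]
        simp [hys]
      · rw [if_neg hys, if_neg]
        rw [mem_insert, mem_insert, mem_insert, mem_singleton]
        rintro (rfl | rfl | rfl | rfl)
        · omega
        · omega
        · omega
        · exact hys rfl

/-- the types are the same for the two configurations of a T-element -/
lemma FG_AB (H : Gr P r) {z : P} {T : Finset P} {s : P}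
    (hA : AL i (cA i z) ∪ AU i (cA i z) = T)
    (hB : AL i (cB i z) ∪ AU i (cB i z) = T.erase s)
    (gA : ∀ y, lev y = i → cA i z y = 0) (gB : ∀ y, lev y = i → cB i z y = if y = s then 1 else 0)
    {x : P} (hx : x ∈ near P i) (h2 : (nz i x).card = 2) (hs : s ∈ nz i x → nz i x ⊆ T) :
    FG i (cA i z) x 1 = FG i (cB i z) x 1 := by
  have hltA : ∀ y ∈ nz i x, cA i z y < 1 := by
    intro y hy
    rw [gA y (nz_lev H hx hy)]
    omega
  rw [FG_free h2 hltA, hA]
  by_cases hsx : s ∈ nz i x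
  · have hsub := hs hsx
    have n1 : ¬ Disjoint (nz i x) T := by
      rw [not_disjoint_iff]
      exact ⟨s, hsx, hsub hsx⟩
    rw [if_neg n1]
    unfold FG
    rw [if_neg, if_neg]
    · rintro ⟨g1, -, g3⟩
      obtain ⟨y, hy⟩ := card_eq_one.1 g1
      have hy1 : y ∈ kz i (cB i z) x 1 := by rw [hy]; exact mem_singleton_self _
      obtain ⟨hy2, hy3⟩ := mem_kz.1 hy1
      rw [gB y (nz_lev H hx hy2)] at hy3
      have hys : y ≠ s := by
        rintro rfl
        rw [if_pos rfl] at hy3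
        omega
      rw [hB] at g3
      exact disjoint_left.1 g3 hy1 (mem_erase.2 ⟨hys, hsub hy2⟩)
    · rintro ⟨g1, -⟩
      have := g1 s hsx
      rw [gB s (nz_lev H hx hsx), if_pos rfl] at this
      omega
  · have hltB : ∀ y ∈ nz i x, cB i z y < 1 := by
      intro y hy
      rw [gB y (nz_lev H hx hy), if_neg (by rintro rfl; exact hsx hy)]
      omega
    rw [FG_free h2 hltB, hB]
    have : Disjoint (nz i x) (T.erase s) ↔ Disjoint (nz i x) T := by
      constructor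
      · intro h
        rw [disjoint_left] at h ⊢
        intro y hy hy'
        exact h hy (mem_erase.2 ⟨by rintro rfl; exact hsx hy, hy'⟩)
      · intro h
        exact disjoint_of_subset_right (erase_subset _ _) h
    by_cases hd : Disjoint (nz i x) T
    · rw [if_pos hd, if_pos (this.2 hd)]
    · rw [if_neg hd, if_neg (fun h => hd (this.1 h))]

lemma J9_sym (e : P → ℕ) (n1 n2 m : ℕ) : J9 i K psi C w v w' v' e n1 n2 m =
    J9 i K psi C w' v' w v e n2 n1 m := by
  unfold J9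
  congr 1
  funext S
  ring

section

variable (Q : K9c r i K psi C w v w' v' a b c a' b' c')
include Q

theorem K9c.s120 (hbp : ∀ p ∈ PN i C, b' ∈ sit i p → a' ∈ sit i p ∨ c' ∈ sit i p) :
    ∑ e ∈ Co i K psi C 3, lc (st i C).card 4 (J9 i K psi C w v w' v' e 1 2 0) =
      - ∑ p ∈ PN i C, Nf i a' b' c' p * NN i w v p * vp i p := by
  rw [← Q.sym.s210 hbp]
  refine sum_congr rfl fun e _ => ?_
  rw [J9_sym]

/-- THE VALUE (6,4) -/
theorem K9c.l64 (hbp : ∀ p ∈ PN i C, b ∈ sit i p → a ∈ sit i p ∨ c ∈ sit i p)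
    (hbp' : ∀ p ∈ PN i C, b' ∈ sit i p → a' ∈ sit i p ∨ c' ∈ sit i p) :
    lc (st i C).card 4 (ZC i C 6) =
      ∑ e ∈ Co i K psi C 4, DD i e w v * DD i e w' v' * lc (st i C).card 2 (tC i C e) -
        ∑ p ∈ PN i C, Nf i a b c p * NN i w' v' p * vp i p -
        ∑ p ∈ PN i C, Nf i a' b' c' p * NN i w v p * vp i p + 1 := by
  have h := Q.lcT tB_6
  rw [show tk 6 = 4 from rfl] at h
  rw [h, sum_range_succ, sum_range_succ, sum_range_succ, sum_range_succ, sum_range_succ,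
    sum_range_succ, sum_range_one]
  have t0 : tT 6 0 = ∅ := by decide
  have t1 : tT 6 1 = ∅ := by decide
  have t2 : tT 6 2 = {(2, 2, 0)} := by decide
  have t3 : tT 6 3 = {(2, 1, 0), (1, 2, 0)} := by decide
  have t4 : tT 6 4 = {(1, 1, 0)} := by decide
  have t5 : tT 6 5 = ∅ := by decide
  have t6 : tT 6 6 = ∅ := by decide
  rw [t0, t1, t2, t3, t4, t5, t6]
  simp only [sum_empty, sum_const_zero, add_zero, zero_add, sum_singleton]
  have e3 : ∑ e ∈ Co i K psi C 3, ∑ x ∈ ({(2, 1, 0), (1, 2, 0)} : Finset (ℕ × ℕ × ℕ)),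
      lc (st i C).card 4 (J9 i K psi C w v w' v' e x.1 x.2.1 x.2.2) =
      - ∑ p ∈ PN i C, Nf i a b c p * NN i w' v' p * vp i p -
        ∑ p ∈ PN i C, Nf i a' b' c' p * NN i w v p * vp i p := by
    have e2 : ∀ e : P → ℕ, ∑ x ∈ ({(2, 1, 0), (1, 2, 0)} : Finset (ℕ × ℕ × ℕ)),
        lc (st i C).card 4 (J9 i K psi C w v w' v' e x.1 x.2.1 x.2.2) =
        lc (st i C).card 4 (J9 i K psi C w v w' v' e 2 1 0) +
          lc (st i C).card 4 (J9 i K psi C w v w' v' e 1 2 0) := by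
      intro e
      rw [sum_pair (by decide)]
    simp only [e2]
    rw [sum_add_distrib, Q.s210 hbp, Q.s120 hbp']
    ring
  have e4 : ∀ e ∈ Co i K psi C 4, lc (st i C).card 4 (J9 i K psi C w v w' v' e 1 1 0) =
      DD i e w v * DD i e w' v' * lc (st i C).card 2 (tC i C e) := by
    intro e he
    exact Q.J110 (mem_Co.1 he).2.2 (mem_Co.1 he).2.1 (Q.odC he (by omega))
  rw [e3, Q.e220, sum_congr rfl e4]
  ring

/-- the energy four part -/
theorem K9c.S4 (hZ : ∀ z ∈ Z4 i C, z ∈ T4 i C)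
    (hS : ∀ x1 x2 s x : P, (x1 ∈ near P i ∧ x1 ∈ C ∧ (nz i x1).card = 2) →
      (x2 ∈ near P i ∧ x2 ∈ C ∧ (nz i x2).card = 2) → s ∈ nz i x1 → s ∈ nz i x2 →
      (∀ y, y ∈ nz i x1 → y ∈ nz i x2 → y = s) → (x = w ∨ x = v ∨ x = w' ∨ x = v') →
      s ∈ nz i x → nz i x ⊆ nz i x1 ∪ nz i x2) :
    2 * ∑ e ∈ Co i K psi C 4, DD i e w v * DD i e w' v' * lc (st i C).card 2 (tC i C e) =
      ∑ q ∈ P4 i C, DD i (c4 i q) w v * DD i (c4 i q) w' v' * (vp i q.1 * vp i q.2) := by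
  have H := Q.H
  rw [Q.sum4 (fun e => DD i e w v * DD i e w' v' * lc (st i C).card 2 (tC i C e))]
  · have hZT : Z4 i C = T4 i C := by
      ext z
      exact ⟨hZ z, T4_sub⟩
    have h1 : ∑ z ∈ Z4 i C, DD i (cA i z) w v * DD i (cA i z) w' v' *
        lc (st i C).card 2 (tC i C (cA i z)) + ∑ z ∈ T4 i C, DD i (cB i z) w v *
        DD i (cB i z) w' v' * lc (st i C).card 2 (tC i C (cB i z)) = 0 := by
      rw [hZT, ← sum_add_distrib]
      refine sum_eq_zero fun z hz => ?_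
      have vA : lc (st i C).card 2 (tC i C (cA i z)) = -1 := (cA_value H Q.hir Q.hC (T4_sub hz)).2
      have vB : lc (st i C).card 2 (tC i C (cB i z)) = 1 := (cB_value H Q.hir Q.hC hz).2
      obtain ⟨x1, x2, s, d1, d2, s1, s2, hon, hA, hB, gA, gB⟩ := T4_dat H Q.hir Q.hC hz
      have key : ∀ {x : P}, (x = w ∨ x = v ∨ x = w' ∨ x = v') → x ∈ near P i →
          (nz i x).card = 2 → FG i (cA i z) x 1 = FG i (cB i z) x 1 := fun hx hn h2 =>
        FG_AB H hA hB gA gB hn h2 (hS x1 x2 s _ d1 d2 s1 s2 hon hx)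
      rw [vA, vB]
      unfold DD
      rw [key (Or.inl rfl) Q.nw Q.w2, key (Or.inr (Or.inl rfl)) Q.nv Q.v2,
        key (Or.inr (Or.inr (Or.inl rfl))) Q.nw' Q.w2',
        key (Or.inr (Or.inr (Or.inr rfl))) Q.nv' Q.v2']
      ring
    rw [h1, mul_zero, add_zero]
    refine sum_congr rfl fun q hq => ?_
    have hv : lc (st i C).card 2 (tC i C (c4 i q)) = vp i q.1 * vp i q.2 :=
      (c4_value H Q.hi Q.hi2 Q.hC hq).2
    rw [hv]
  · intro e hs h
    have h2 := SO.dvd_up (SO.cheap_dvd H Q.hC hs h)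
    have h3 : lc (st i C).card 2 (tC i C e) = 0 := lc_of_od h2
    rw [h3, mul_zero]

end

end Pool.Agent.GaussPoset.Win.Pa

end
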