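import Mathlib
import Pool.Agent.W_448zz_h61.Ns
import Pool.Agent.W_448zz_h61.M161
import Pool.Agent.W_448zz_h61.M169

/-! From `Pool.Agent.W_448p_h97.PaL` -/

section

/-!
MP_448cb3_co, G2, case B, window `j`: the inequality `0 <= w3 ^ 2 - 2 w6` for a component with two stars
at the ends of its path of sites.  helper97.
-/

namespace Pool.Agent.GaussPoset.Win.Pa

set_option linter.unusedSectionVars false

open Finset W4
open Pool.Agent.GaussPoset.Win.So (IV_chi IV_Fe)
open Pool.Agent.GaussPoset.Win.SO (PN vp con on con_sub)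

universe u

variable {P : Type u} [Fintype P] [PartialOrder P] [DecidableEq P] {r i : ℕ}
variable {e f : P → ℕ} {psi : P → P} {C K : Finset P} {w v w' v' : P} {x : ℕ → P} {m : ℕ}

/-- a component with two stars at the ends of the path `x 0, ..., x m` of its sites -/
structure K9x (r i : ℕ) (K : Finset P) (psi : P → P) (C : Finset P)
    (w v w' v' : P) (x : ℕ → P) (m : ℕ) : Prop extends
    K9c r i K psi C w v w' v' (x 0) (x 1) (x 2) (x m) (x (m - 1)) (x (m - 2)) where
  hm : 5 ≤ m
  inj : ∀ s t, s ≤ m → t ≤ m → x s = x t → s = t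
  dbl : ∀ y ∈ C, y ∈ near P i → (nz i y).card = 2 → ∃ t, t < m ∧ nz i y = {x t, x (t + 1)}
  zz : ∀ z ∈ Z4 i C, z ∈ T4 i C
  mid : m = 5 → ∀ p ∈ PN i C, sit i p ≠ {x 2, x 3}

/-- the pendant has the sites `x k`, `x (k + 1)` -/
noncomputable def chi' (i : ℕ) (x : ℕ → P) (k : ℕ) (p : P) : ℤ :=
  if sit i p = {x k, x (k + 1)} then 1 else 0

section

variable (Q : K9x r i K psi C w v w' v' x m)
include Q

lemma K9x.eq_iff {j k : ℕ} (hj : j ≤ m) (hk : k ≤ m) : x j = x k ↔ j = k :=
  ⟨Q.inj j k hj hk, fun h => by rw [h]⟩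

lemma K9x.dj {j t : ℕ} (hj : j < m) (ht : t < m) :
    Disjoint ({x j, x (j + 1)} : Finset P) {x t, x (t + 1)} ↔ j + 1 < t ∨ t + 1 < j := by
  rw [disjoint_insert_left, disjoint_singleton_left, mem_insert, mem_singleton, mem_insert,
    mem_singleton, Q.eq_iff (by omega) (by omega), Q.eq_iff (by omega) (by omega),
    Q.eq_iff (by omega) (by omega), Q.eq_iff (by omega) (by omega)]
  omega

lemma K9x.pair_eq {k t : ℕ} (hk : k < m) (ht : t < m) :
    ({x t, x (t + 1)} : Finset P) = {x k, x (k + 1)} ↔ t = k := by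
  constructor
  · intro h
    have h1 : x t ∈ ({x k, x (k + 1)} : Finset P) := by rw [← h]; simp
    have h2 : x (t + 1) ∈ ({x k, x (k + 1)} : Finset P) := by rw [← h]; simp
    rw [mem_insert, mem_singleton, Q.eq_iff (by omega) (by omega),
      Q.eq_iff (by omega) (by omega)] at h1 h2
    omega
  · rintro rfl
    rfl

lemma K9x.n1 : nz i w = {x 0, x (0 + 1)} := Q.nzw
lemma K9x.n2 : nz i v = {x 1, x (1 + 1)} := Q.nzv
lemma K9x.n3 : nz i w' = {x (m - 1), x (m - 1 + 1)} := by
  have := Q.hm
  rw [Q.nzw', pair_comm, show m - 1 + 1 = m by omega]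
lemma K9x.n4 : nz i v' = {x (m - 2), x (m - 2 + 1)} := by
  have := Q.hm
  rw [Q.nzv', pair_comm, show m - 2 + 1 = m - 1 by omega]

/-- the sites of a pendant -/
lemma K9x.pn {p : P} (hp : p ∈ PN i C) : ∃ t, t < m ∧ sit i p = {x t, x (t + 1)} := by
  obtain ⟨hpC, y, hcon, hyn, hnz, hcard, hlev, hd⟩ := PN_dat Q.H hp
  have hl : lev p ≠ i := by rcases hd with ⟨-, h, -⟩ | ⟨-, h, -⟩ <;> omega
  have hyC : y ∈ C := con_sub Q.H Q.hC hpC hl (by rw [hcon]; simp)
  rw [← hnz] at hcard ⊢
  exact Q.dbl y hyC hyn hcard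

lemma K9x.Nx_val {y : P} {j t : ℕ} (hj : j < m) (ht : t < m) (hy : nz i y = {x j, x (j + 1)})
    {p : P} (hp : sit i p = {x t, x (t + 1)}) :
    Nx i y p = if j + 1 < t ∨ t + 1 < j then 1 else 0 := by
  unfold Nx
  rw [hy, hp]
  by_cases h : j + 1 < t ∨ t + 1 < j
  · rw [if_pos ((Q.dj hj ht).2 h), if_pos h]
  · rw [if_neg (fun h' => h ((Q.dj hj ht).1 h')), if_neg h]

lemma K9x.chi_val {k t : ℕ} (hk : k < m) (ht : t < m) {p : P} (hp : sit i p = {x t, x (t + 1)}) :
    chi' i x k p = if t = k then 1 else 0 := by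
  unfold chi'
  rw [hp]
  by_cases h : t = k
  · rw [if_pos ((Q.pair_eq hk ht).2 h), if_pos h]
  · rw [if_neg (fun h' => h ((Q.pair_eq hk ht).1 h')), if_neg h]

lemma K9x.NL {p : P} (hp : p ∈ PN i C) : NN i w v p = chi' i x 2 p := by
  have hm := Q.hm
  obtain ⟨t, ht, hs⟩ := Q.pn hp
  unfold NN
  rw [Q.Nx_val (by omega) ht Q.n1 hs, Q.Nx_val (by omega) ht Q.n2 hs, Q.chi_val (by omega) ht hs]
  split_ifs <;> omega

lemma K9x.NR {p : P} (hp : p ∈ PN i C) : NN i w' v' p = chi' i x (m - 3) p := by
  have hm := Q.hm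
  obtain ⟨t, ht, hs⟩ := Q.pn hp
  unfold NN
  rw [Q.Nx_val (by omega) ht Q.n3 hs, Q.Nx_val (by omega) ht Q.n4 hs, Q.chi_val (by omega) ht hs]
  split_ifs <;> omega

lemma K9x.NfL {p : P} (hp : p ∈ PN i C) :
    Nf i (x 0) (x 1) (x 2) p * NN i w' v' p = if 6 ≤ m then chi' i x (m - 3) p else 0 := by
  have hm := Q.hm
  obtain ⟨t, ht, hs⟩ := Q.pn hp
  have hd : Disjoint ({x 0, x 1, x 2} : Finset P) (sit i p) ↔ 3 ≤ t := by
    rw [hs, disjoint_insert_left, disjoint_insert_left, disjoint_singleton_left]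
    simp only [mem_insert, mem_singleton]
    rw [Q.eq_iff (by omega) (by omega), Q.eq_iff (by omega) (by omega),
      Q.eq_iff (by omega) (by omega), Q.eq_iff (by omega) (by omega),
      Q.eq_iff (by omega) (by omega), Q.eq_iff (by omega) (by omega)]
    omega
  rw [Q.NR hp, Q.chi_val (by omega) ht hs]
  unfold Nf
  by_cases h : 3 ≤ t
  · rw [if_pos (hd.2 h)]
    split_ifs <;> omega
  · rw [if_neg (fun h' => h (hd.1 h'))]
    split_ifs <;> omega

lemma K9x.NfR {p : P} (hp : p ∈ PN i C) :
    Nf i (x m) (x (m - 1)) (x (m - 2)) p * NN i w v p = if 6 ≤ m then chi' i x 2 p else 0 := by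
  have hm := Q.hm
  obtain ⟨t, ht, hs⟩ := Q.pn hp
  have hd : Disjoint ({x m, x (m - 1), x (m - 2)} : Finset P) (sit i p) ↔ t + 1 < m - 2 := by
    rw [hs, disjoint_insert_left, disjoint_insert_left, disjoint_singleton_left]
    simp only [mem_insert, mem_singleton]
    rw [Q.eq_iff (by omega) (by omega), Q.eq_iff (by omega) (by omega),
      Q.eq_iff (by omega) (by omega), Q.eq_iff (by omega) (by omega),
      Q.eq_iff (by omega) (by omega), Q.eq_iff (by omega) (by omega)]
    omega
  rw [Q.NL hp, Q.chi_val (by omega) ht hs]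
  unfold Nf
  by_cases h : t + 1 < m - 2
  · rw [if_pos (hd.2 h)]
    split_ifs <;> omega
  · rw [if_neg (fun h' => h (hd.1 h'))]
    split_ifs <;> omega

/-- no pendant counts on both sides -/
lemma K9x.NN0 {p : P} (hp : p ∈ PN i C) : NN i w v p * NN i w' v' p = 0 := by
  have hm := Q.hm
  obtain ⟨t, ht, hs⟩ := Q.pn hp
  rw [Q.NL hp, Q.NR hp, Q.chi_val (by omega) ht hs, Q.chi_val (by omega) ht hs]
  by_cases h5 : m = 5
  · have h2 : t ≠ 2 := by
      rintro rfl
      exact Q.mid h5 p hp hs
    rw [if_neg h2, zero_mul]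
  · split_ifs <;> omega

lemma K9x.hbc {p : P} (hp : p ∈ PN i C) (h : x 1 ∈ sit i p) : x 0 ∈ sit i p ∨ x 2 ∈ sit i p := by
  have hm := Q.hm
  obtain ⟨t, ht, hs⟩ := Q.pn hp
  rw [hs] at h ⊢
  simp only [mem_insert, mem_singleton] at h ⊢
  rw [Q.eq_iff (by omega) (by omega), Q.eq_iff (by omega) (by omega)] at h
  rw [Q.eq_iff (by omega) (by omega), Q.eq_iff (by omega) (by omega),
    Q.eq_iff (by omega) (by omega), Q.eq_iff (by omega) (by omega)]
  omega

lemma K9x.hbc' {p : P} (hp : p ∈ PN i C) (h : x (m - 1) ∈ sit i p) :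
    x m ∈ sit i p ∨ x (m - 2) ∈ sit i p := by
  have hm := Q.hm
  obtain ⟨t, ht, hs⟩ := Q.pn hp
  rw [hs] at h ⊢
  simp only [mem_insert, mem_singleton] at h ⊢
  rw [Q.eq_iff (by omega) (by omega), Q.eq_iff (by omega) (by omega)] at h
  rw [Q.eq_iff (by omega) (by omega), Q.eq_iff (by omega) (by omega),
    Q.eq_iff (by omega) (by omega), Q.eq_iff (by omega) (by omega)]
  omega

/-- the T-elements and the doubles of the stars -/
lemma K9x.hS {x1 x2 s y : P} (d1 : x1 ∈ near P i ∧ x1 ∈ C ∧ (nz i x1).card = 2)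
    (d2 : x2 ∈ near P i ∧ x2 ∈ C ∧ (nz i x2).card = 2) (s1 : s ∈ nz i x1) (s2 : s ∈ nz i x2)
    (hon : ∀ y, y ∈ nz i x1 → y ∈ nz i x2 → y = s) (hy : y = w ∨ y = v ∨ y = w' ∨ y = v')
    (hs : s ∈ nz i y) : nz i y ⊆ nz i x1 ∪ nz i x2 := by
  have hm := Q.hm
  obtain ⟨t1, h1, e1⟩ := Q.dbl x1 d1.2.1 d1.1 d1.2.2
  obtain ⟨t2, h2, e2⟩ := Q.dbl x2 d2.2.1 d2.1 d2.2.2
  obtain ⟨t3, h3, e3⟩ : ∃ t, t < m ∧ nz i y = {x t, x (t + 1)} := by
    rcases hy with rfl | rfl | rfl | rfl
    · exact ⟨0, by omega, Q.n1⟩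
    · exact ⟨1, by omega, Q.n2⟩
    · exact ⟨m - 1, by omega, Q.n3⟩
    · exact ⟨m - 2, by omega, Q.n4⟩
  rw [e1] at s1 hon
  rw [e2] at s2 hon
  rw [e3] at hs
  rw [e1, e2, e3]
  -- the index of the common site
  obtain ⟨u, hu, rfl⟩ : ∃ u, u ≤ m ∧ s = x u := by
    rw [mem_insert, mem_singleton] at s1
    rcases s1 with h | h
    · exact ⟨t1, by omega, h⟩
    · exact ⟨t1 + 1, by omega, h⟩
  have hne : t1 ≠ t2 := by
    rintro rfl
    have g1 := hon (x t1) (by simp) (by simp)
    have g2 := hon (x (t1 + 1)) (by simp) (by simp)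
    rw [Q.eq_iff (by omega) (by omega)] at g1 g2
    omega
  simp only [mem_insert, mem_singleton] at s1 s2 hs
  rw [Q.eq_iff (by omega) (by omega), Q.eq_iff (by omega) (by omega)] at s1 s2 hs
  intro z hz
  rw [mem_insert, mem_singleton] at hz
  rw [mem_union]
  simp only [mem_insert, mem_singleton]
  rcases hz with rfl | rfl
  · rw [Q.eq_iff (by omega) (by omega), Q.eq_iff (by omega) (by omega),
      Q.eq_iff (by omega) (by omega), Q.eq_iff (by omega) (by omega)]
    omega
  · rw [Q.eq_iff (by omega) (by omega), Q.eq_iff (by omega) (by omega),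
      Q.eq_iff (by omega) (by omega), Q.eq_iff (by omega) (by omega)]
    omega

/-! ### pairs of pendants -/

lemma K9x.DDc {q : P × P} (hq : q ∈ P4 i C) {y : P} {j t s : ℕ} (hy : y ∈ near P i)
    (h2 : (nz i y).card = 2) (hj : j < m) (ht : t < m) (hs : s < m)
    (hn : nz i y = {x j, x (j + 1)}) (h1 : sit i q.1 = {x t, x (t + 1)})
    (h1' : sit i q.2 = {x s, x (s + 1)}) : FG i (c4 i q) y 1 =
      if (j + 1 < t ∨ t + 1 < j) ∧ (j + 1 < s ∨ s + 1 < j) then 1 else 0 := by
  have hlt : ∀ z ∈ nz i y, c4 i q z < 1 := by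
    intro z hz
    rw [c4_site Q.H hq (nz_lev Q.H hy hz)]
    omega
  have hiff : Disjoint (nz i y) (AL i (c4 i q) ∪ AU i (c4 i q)) ↔
      (j + 1 < t ∨ t + 1 < j) ∧ (j + 1 < s ∨ s + 1 < j) := by
    rw [c4_AU Q.H Q.hi Q.hi2 hq, disjoint_union_right, hn, h1, h1', Q.dj hj ht, Q.dj hj hs]
  rw [FG_free h2 hlt]
  by_cases h : (j + 1 < t ∨ t + 1 < j) ∧ (j + 1 < s ∨ s + 1 < j)
  · rw [if_pos (hiff.2 h), if_pos h]
  · rw [if_neg (fun h' => h (hiff.1 h')), if_neg h]

lemma K9x.DDp4 {q : P × P} (hq : q ∈ P4 i C) :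
    DD i (c4 i q) w v * DD i (c4 i q) w' v' = if 7 ≤ m then
      chi' i x 2 q.1 * chi' i x (m - 3) q.2 + chi' i x (m - 3) q.1 * chi' i x 2 q.2 else 0 := by
  have hm := Q.hm
  obtain ⟨hp1, hp2, hd⟩ := mem_P4.1 hq
  obtain ⟨t, ht, h1⟩ := Q.pn hp1
  obtain ⟨s, hs, h2⟩ := Q.pn hp2
  rw [h1, h2, Q.dj ht hs] at hd
  unfold DD
  rw [Q.DDc hq Q.nw Q.w2 (by omega) ht hs Q.n1 h1 h2, Q.DDc hq Q.nv Q.v2 (by omega) ht hs Q.n2 h1 h2,
    Q.DDc hq Q.nw' Q.w2' (by omega) ht hs Q.n3 h1 h2,
    Q.DDc hq Q.nv' Q.v2' (by omega) ht hs Q.n4 h1 h2, Q.chi_val (by omega) ht h1,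
    Q.chi_val (by omega) hs h2, Q.chi_val (by omega) ht h1, Q.chi_val (by omega) hs h2]
  have e1 : ((if (0 + 1 < t ∨ t + 1 < 0) ∧ (0 + 1 < s ∨ s + 1 < 0) then (1 : ℤ) else 0) -
      if (1 + 1 < t ∨ t + 1 < 1) ∧ (1 + 1 < s ∨ s + 1 < 1) then 1 else 0) =
      if (t = 2 ∧ 2 < s) ∨ (s = 2 ∧ 2 < t) then 1 else 0 := by
    split_ifs <;> omega
  have e2 : ((if (m - 1 + 1 < t ∨ t + 1 < m - 1) ∧ (m - 1 + 1 < s ∨ s + 1 < m - 1) then (1 : ℤ)
      else 0) - if (m - 2 + 1 < t ∨ t + 1 < m - 2) ∧ (m - 2 + 1 < s ∨ s + 1 < m - 2) then 1 else 0) =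
      if (t = m - 3 ∧ s < m - 3) ∨ (s = m - 3 ∧ t < m - 3) then 1 else 0 := by
    split_ifs <;> omega
  rw [e1, e2]
  by_cases h7 : 7 ≤ m
  · rw [if_pos h7]
    by_cases c1 : t = 2
    · rw [if_pos c1]
      by_cases c2 : s = m - 3
      · rw [if_pos c2, if_pos (Or.inl ⟨c1, by omega⟩), if_pos (Or.inr ⟨c2, by omega⟩),
          if_neg (show ¬ t = m - 3 by omega)]
        norm_num
      · rw [if_neg c2, if_neg (show ¬ t = m - 3 by omega), if_neg (show
          ¬ ((t = m - 3 ∧ s < m - 3) ∨ (s = m - 3 ∧ t < m - 3)) by omega)]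
        norm_num
    · rw [if_neg c1]
      by_cases c2 : s = 2
      · rw [if_pos c2]
        by_cases c3 : t = m - 3
        · rw [if_pos c3, if_pos (Or.inr ⟨c2, by omega⟩), if_pos (Or.inl ⟨c3, by omega⟩)]
          norm_num
        · rw [if_neg c3, if_neg (show
            ¬ ((t = m - 3 ∧ s < m - 3) ∨ (s = m - 3 ∧ t < m - 3)) by omega)]
          norm_num
      · rw [if_neg c2, if_neg (show ¬ ((t = 2 ∧ 2 < s) ∨ (s = 2 ∧ 2 < t)) by omega)]
        norm_num
  · rw [if_neg h7]
    by_cases c1 : (t = 2 ∧ 2 < s) ∨ (s = 2 ∧ 2 < t)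
    · rw [if_neg (show ¬ ((t = m - 3 ∧ s < m - 3) ∨ (s = m - 3 ∧ t < m - 3)) by omega), mul_zero]
    · rw [if_neg c1, zero_mul]

/-- the signed number of pendants at the position `k` -/
noncomputable def dl (i : ℕ) (C : Finset P) (x : ℕ → P) (k : ℕ) : ℤ :=
  ∑ p ∈ PN i C, chi' i x k p * vp i p

theorem K9x.S4v :
    ∑ e ∈ Co i K psi C 4, DD i e w v * DD i e w' v' * lc (st i C).card 2 (tC i C e) =
      if 7 ≤ m then dl i C x 2 * dl i C x (m - 3) else 0 := by
  classical
  have hm := Q.hm
  have h := Q.S4 Q.zz (fun x1 x2 s y d1 d2 s1 s2 hon hy hs => Q.hS d1 d2 s1 s2 hon hy hs)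
  have h1 : ∀ q ∈ P4 i C, DD i (c4 i q) w v * DD i (c4 i q) w' v' * (vp i q.1 * vp i q.2) =
      if 7 ≤ m then (chi' i x 2 q.1 * vp i q.1) * (chi' i x (m - 3) q.2 * vp i q.2) +
        (chi' i x (m - 3) q.1 * vp i q.1) * (chi' i x 2 q.2 * vp i q.2) else 0 := by
    intro q hq
    rw [Q.DDp4 hq]
    split_ifs <;> ring
  rw [sum_congr rfl h1] at h
  by_cases h7 : 7 ≤ m
  · simp only [if_pos h7] at h ⊢
    have h2 : ∑ q ∈ P4 i C, ((chi' i x 2 q.1 * vp i q.1) * (chi' i x (m - 3) q.2 * vp i q.2) +
        (chi' i x (m - 3) q.1 * vp i q.1) * (chi' i x 2 q.2 * vp i q.2)) =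
        ∑ q ∈ PN i C ×ˢ PN i C, ((chi' i x 2 q.1 * vp i q.1) *
          (chi' i x (m - 3) q.2 * vp i q.2) +
        (chi' i x (m - 3) q.1 * vp i q.1) * (chi' i x 2 q.2 * vp i q.2)) := by
      refine sum_subset ?_ ?_
      · intro q hq
        obtain ⟨g1, g2, -⟩ := mem_P4.1 hq
        exact mem_product.2 ⟨g1, g2⟩
      · intro q hq hn
        obtain ⟨g1, g2⟩ := mem_product.1 hq
        obtain ⟨t, ht, k1⟩ := Q.pn g1
        obtain ⟨s, hs, k2⟩ := Q.pn g2
        have hd : ¬ (t + 1 < s ∨ s + 1 < t) := by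
          intro h'
          exact hn (mem_P4.2 ⟨g1, g2, by rw [k1, k2]; exact (Q.dj ht hs).2 h'⟩)
        rw [Q.chi_val (by omega) ht k1, Q.chi_val (by omega) hs k2, Q.chi_val (by omega) ht k1,
          Q.chi_val (by omega) hs k2]
        split_ifs <;> omega
    rw [h2, sum_add_distrib, sum_product, sum_product] at h
    simp only [← mul_sum, ← sum_mul] at h
    unfold dl
    linarith
  · simp only [if_neg h7, sum_const_zero] at h ⊢
    omega

/-- the mixed number of lower doubles -/
theorem K9x.MMv : 0 ≤ MM i K C w v w' v' ∧ (6 ≤ m → MM i K C w v w' v' = 0) := by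
  classical
  have hm := Q.hm
  have hmm : ∀ T : Finset P, W4.mm i K C T = ∑ y ∈ (N0 i K C).filter (fun y => y ∈ dbL P i),
      if nz i y ⊆ T then (1 : ℤ) else 0 := by
    intro T
    unfold W4.mm
    rw [← Finset.sum_filter, filter_filter, sum_const, nsmul_eq_mul, mul_one]
  have key : ∀ y ∈ (N0 i K C).filter (fun y => y ∈ dbL P i),
      (if nz i y ⊆ nz i w ∪ nz i w' then (1 : ℤ) else 0) +
        (if nz i y ⊆ nz i v ∪ nz i v' then 1 else 0) -
        (if nz i y ⊆ nz i w ∪ nz i v' then 1 else 0) -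
        (if nz i y ⊆ nz i v ∪ nz i w' then 1 else 0) =
      if m = 5 ∧ nz i y = {x 2, x (2 + 1)} then 1 else 0 := by
    intro y hy
    rw [mem_filter] at hy
    obtain ⟨g1, g2, g3⟩ := mem_N0.1 hy.1
    obtain ⟨t, ht, hn⟩ := Q.dbl y g2 g1 (dbL_nz hy.2).2
    have hsub : ∀ {j k : ℕ}, j < m → k < m → (nz i y ⊆ {x j, x (j + 1)} ∪ {x k, x (k + 1)} ↔
        (t = j ∨ t = j + 1 ∨ t = k ∨ t = k + 1) ∧
        (t + 1 = j ∨ t + 1 = j + 1 ∨ t + 1 = k ∨ t + 1 = k + 1)) := by
      intro j k hj hk
      rw [hn, insert_subset_iff, singleton_subset_iff, mem_union, mem_union]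
      simp only [mem_insert, mem_singleton]
      rw [Q.eq_iff (by omega) (by omega), Q.eq_iff (by omega) (by omega),
        Q.eq_iff (by omega) (by omega), Q.eq_iff (by omega) (by omega),
        Q.eq_iff (by omega) (by omega), Q.eq_iff (by omega) (by omega),
        Q.eq_iff (by omega) (by omega), Q.eq_iff (by omega) (by omega)]
      omega
    have h5 : nz i y = {x 2, x (2 + 1)} ↔ t = 2 := by
      rw [hn]
      exact Q.pair_eq (by omega) ht
    rw [Q.n1, Q.n2, Q.n3, Q.n4]
    have q1 : nz i y ⊆ {x 0, x (0 + 1)} ∪ {x (m - 1), x (m - 1 + 1)} ↔ t = 0 ∨ t = m - 1 := by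
      rw [hsub (show 0 < m by omega) (show m - 1 < m by omega)]
      omega
    have q2 : nz i y ⊆ {x 1, x (1 + 1)} ∪ {x (m - 2), x (m - 2 + 1)} ↔
        t = 1 ∨ t = m - 2 ∨ (m = 5 ∧ t = 2) := by
      rw [hsub (show 1 < m by omega) (show m - 2 < m by omega)]
      omega
    have q3 : nz i y ⊆ {x 0, x (0 + 1)} ∪ {x (m - 2), x (m - 2 + 1)} ↔ t = 0 ∨ t = m - 2 := by
      rw [hsub (show 0 < m by omega) (show m - 2 < m by omega)]
      omega
    have q4 : nz i y ⊆ {x 1, x (1 + 1)} ∪ {x (m - 1), x (m - 1 + 1)} ↔ t = 1 ∨ t = m - 1 := by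
      rw [hsub (show 1 < m by omega) (show m - 1 < m by omega)]
      omega
    simp only [q1, q2, q3, q4, h5]
    split_ifs <;> omega
  have htot : MM i K C w v w' v' = ∑ y ∈ (N0 i K C).filter (fun y => y ∈ dbL P i),
      if m = 5 ∧ nz i y = {x 2, x (2 + 1)} then (1 : ℤ) else 0 := by
    rw [← sum_congr rfl key]
    unfold MM
    rw [hmm, hmm, hmm, hmm, sum_sub_distrib, sum_sub_distrib, sum_add_distrib]
  rw [htot]
  constructor
  · refine sum_nonneg fun y _ => ?_
    split_ifs <;> omega
  · intro h6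
    refine sum_eq_zero fun y _ => ?_
    rw [if_neg]
    rintro ⟨h, -⟩
    omega

/-- THE ORDERS -/
theorem K9x.pg : I2.PG (st i C).card (ZS i C) := by
  intro n hn
  rw [coeff_ZS]
  interval_cases n
  · exact Q.z0
  · exact Q.z1
  · exact Q.z2
  · exact Q.od3
  · exact Q.z4 fun p hp => Q.NN0 hp
  · exact Q.od5
  · exact Q.od6

/-- the value (3,2) -/
theorem K9x.w3v : I2.w3 (st i C).card (ZS i C) = dl i C x 2 + dl i C x (m - 3) - 2 -
    MM i K C w v w' v' := by
  have h3 : I2.w3 (st i C).card (ZS i C) = lc (st i C).card 2 (ZC i C 3) := by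
    unfold I2.w3 lc
    rw [coeff_ZS]
  rw [h3, Q.l32]
  have : ∀ p ∈ PN i C, (NN i w v p + NN i w' v' p) * vp i p =
      chi' i x 2 p * vp i p + chi' i x (m - 3) p * vp i p := by
    intro p hp
    rw [Q.NL hp, Q.NR hp]
    ring
  rw [sum_congr rfl this, sum_add_distrib]
  rfl

/-- the value (6,4) -/
theorem K9x.w6v : I2.w6 (st i C).card (ZS i C) =
    (if 7 ≤ m then dl i C x 2 * dl i C x (m - 3) else 0) -
      (if 6 ≤ m then dl i C x (m - 3) else 0) - (if 6 ≤ m then dl i C x 2 else 0) + 1 := by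
  have hm := Q.hm
  have h6 : I2.w6 (st i C).card (ZS i C) = lc (st i C).card 4 (ZC i C 6) := by
    unfold I2.w6 lc
    rw [coeff_ZS]
  rw [h6, Q.l64 (fun p hp => Q.hbc hp) (fun p hp => Q.hbc' hp), Q.S4v]
  have e1 : ∑ p ∈ PN i C, Nf i (x 0) (x 1) (x 2) p * NN i w' v' p * vp i p =
      if 6 ≤ m then dl i C x (m - 3) else 0 := by
    have : ∀ p ∈ PN i C, Nf i (x 0) (x 1) (x 2) p * NN i w' v' p * vp i p =
        if 6 ≤ m then chi' i x (m - 3) p * vp i p else 0 := by
      intro p hp
      rw [Q.NfL hp]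
      split_ifs <;> ring
    rw [sum_congr rfl this]
    unfold dl
    split_ifs
    · rfl
    · exact sum_const_zero
  have e2 : ∑ p ∈ PN i C, Nf i (x m) (x (m - 1)) (x (m - 2)) p * NN i w v p * vp i p =
      if 6 ≤ m then dl i C x 2 else 0 := by
    have : ∀ p ∈ PN i C, Nf i (x m) (x (m - 1)) (x (m - 2)) p * NN i w v p * vp i p =
        if 6 ≤ m then chi' i x 2 p * vp i p else 0 := by
      intro p hp
      rw [Q.NfR hp]
      split_ifs <;> ring
    rw [sum_congr rfl this]
    unfold dl
    split_ifs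
    · rfl
    · exact sum_const_zero
  rw [e1, e2]

/-- THE INEQUALITY, and its equality case -/
theorem K9x.ineq' : 0 ≤ I2.w3 (st i C).card (ZS i C) ^ 2 - 2 * I2.w6 (st i C).card (ZS i C) ∧
    (I2.w3 (st i C).card (ZS i C) ^ 2 - 2 * I2.w6 (st i C).card (ZS i C) = 0 →
      7 ≤ m ∧ dl i C x 2 = 1 ∧ dl i C x (m - 3) = 1) := by
  have hm := Q.hm
  obtain ⟨M1, M2⟩ := Q.MMv
  rw [Q.w3v, Q.w6v]
  obtain ⟨A, hA⟩ : ∃ A, A = dl i C x 2 := ⟨_, rfl⟩
  obtain ⟨B, hB⟩ : ∃ B, B = dl i C x (m - 3) := ⟨_, rfl⟩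
  rw [← hA, ← hB]
  rcases Nat.lt_or_ge m 6 with g | g
  · -- m = 5
    have g5 : m = 5 := by omega
    have hd : ∀ k, k = 2 ∨ k = m - 3 → dl i C x k = 0 := by
      intro k hk
      refine sum_eq_zero fun p hp => ?_
      have : chi' i x k p = 0 := by
        unfold chi'
        rw [if_neg]
        intro h
        have hk2 : k = 2 := by omega
        rw [hk2] at h
        exact Q.mid g5 p hp h
      rw [this, zero_mul]
    rw [if_neg (by omega), if_neg (by omega), if_neg (by omega), hA, hB, hd 2 (Or.inl rfl),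
      hd (m - 3) (Or.inr rfl)]
    constructor
    · nlinarith
    · intro h
      nlinarith
  · rw [M2 g, if_pos g, if_pos g]
    rcases Nat.lt_or_ge m 7 with g7 | g7
    · rw [if_neg (by omega)]
      constructor
      · nlinarith [sq_nonneg (A + B - 1)]
      · intro h
        nlinarith [sq_nonneg (A + B - 1)]
    · rw [if_pos g7]
      have he : (A + B - 2 - 0) ^ 2 - 2 * (A * B - B - A + 1) = (A - 1) ^ 2 + (B - 1) ^ 2 := by
        ring
      rw [he]
      refine ⟨by positivity, fun h => ⟨g7, ?_, ?_⟩⟩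
      · have : (A - 1) ^ 2 = 0 := by nlinarith [sq_nonneg (A - 1), sq_nonneg (B - 1)]
        have := pow_eq_zero_iff (two_ne_zero) |>.1 this
        omega
      · have : (B - 1) ^ 2 = 0 := by nlinarith [sq_nonneg (A - 1), sq_nonneg (B - 1)]
        have := pow_eq_zero_iff (two_ne_zero) |>.1 this
        omega

/-- THE INEQUALITY -/
theorem K9x.ineq : 0 ≤ I2.w3 (st i C).card (ZS i C) ^ 2 - 2 * I2.w6 (st i C).card (ZS i C) ∧
    (m ≤ 6 → 0 < I2.w3 (st i C).card (ZS i C) ^ 2 - 2 * I2.w6 (st i C).card (ZS i C)) := by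
  obtain ⟨h1, h2⟩ := Q.ineq'
  refine ⟨h1, fun h3 => ?_⟩
  rcases h1.lt_or_eq with h4 | h4
  · exact h4
  · have := (h2 h4.symm).1
    omega

/-- the values in the equality case -/
theorem K9x.zero (h : I2.w3 (st i C).card (ZS i C) ^ 2 - 2 * I2.w6 (st i C).card (ZS i C) = 0) :
    I2.w3 (st i C).card (ZS i C) = 0 ∧ I2.w6 (st i C).card (ZS i C) = 0 := by
  obtain ⟨h1, h2, h3⟩ := Q.ineq'.2 h
  rw [Q.w3v, Q.w6v, h2, h3, Q.MMv.2 (by omega), if_pos h1, if_pos (by omega)]
  norm_num

end

end Pool.Agent.GaussPoset.Win.Pa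

end

/-! From `Pool.Agent.W_448p_h97.PaM` -/

section

/-!
MP_448cb3_co, G2, case B, window `j`: a component with two stars of the row classification is a
component of `K9x`.  helper97.
-/

namespace Pool.Agent.GaussPoset.Win.Pa

set_option linter.unusedSectionVars false

open Finset W4
open Pool.Agent.GaussPoset.Win.So (IV_chi IV_Fe)
open Pool.Agent.GaussPoset.Win.SO (PN vp con on con_sub)
open Pool.Agent.GaussPoset.EK (Red RowB Row Pat6)
open Pool.Agent.GaussPoset.St
open Pool.Agent.GaussPoset.Wd (NJ)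

universe u

variable {P : Type u} [Fintype P] [PartialOrder P] [DecidableEq P] {r i j : ℕ}

variable {m : ℕ} {x : ℕ → P} {c : ℕ → ℤ} {β : ℤ} {t : Tops P}

variable {K : Finset P} {psi : P → P}

/-- two doubles over a pair of sites fill both sites -/
lemma paM_full (H : Gr P r) {u v : P} (h2 : dcv u v = 2) :
    ∀ y, (y ⋖ u ∨ y ⋖ v) → y ⋖ u ∧ y ⋖ v := by
  classical
  unfold dcv at h2
  have h1 : univ.filter (fun y : P => y ⋖ u ∧ y ⋖ v) ⊆ dc u := by
    intro y hy
    exact mem_dc.2 (mem_filter.1 hy).2.1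
  have h1' : univ.filter (fun y : P => y ⋖ u ∧ y ⋖ v) ⊆ dc v := by
    intro y hy
    exact mem_dc.2 (mem_filter.1 hy).2.2
  have h3 := eq_of_subset_of_card_le h1 (by rw [h2]; exact dc_card_le H u)
  have h3' := eq_of_subset_of_card_le h1' (by rw [h2]; exact dc_card_le H v)
  rintro y (h | h)
  · have : y ∈ dc u := mem_dc.2 h
    rw [← h3] at this
    exact (mem_filter.1 this).2
  · have : y ∈ dc v := mem_dc.2 h
    rw [← h3'] at this
    exact (mem_filter.1 this).2

lemma paM_uc (H : Gr P r) {u v y : P} (hne : u ≠ v) (h1 : y ⋖ u) (h2 : y ⋖ v) : uc y = {u, v} := by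
  symm
  apply eq_of_subset_of_card_le
  · intro w hw
    rw [mem_insert, mem_singleton] at hw
    rcases hw with rfl | rfl
    · exact mem_uc.2 h1
    · exact mem_uc.2 h2
  · rw [card_pair hne]
    exact uc_card_le H y

/-- two doubles -/
lemma paM_two (H : Gr P r) {u v : P} (hne : u ≠ v) (h2 : dcv u v = 2) :
    ∃ y y', y ≠ y' ∧ uc y = {u, v} ∧ uc y' = {u, v} := by
  classical
  unfold dcv at h2
  obtain ⟨y, y', h3, h4⟩ := card_eq_two.1 h2
  have hy : y ∈ univ.filter (fun y : P => y ⋖ u ∧ y ⋖ v) := by rw [h4]; simp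
  have hy' : y' ∈ univ.filter (fun y : P => y ⋖ u ∧ y ⋖ v) := by rw [h4]; simp
  rw [mem_filter] at hy hy'
  exact ⟨y, y', h3, paM_uc H hne hy.2.1 hy.2.2, paM_uc H hne hy'.2.1 hy'.2.2⟩

/-- a twin of an unmatched lower double -/
lemma paM_twin (R : Red P j K psi) (H : Gr P r) {u v : P} (hu : lev u = j) (hne : u ≠ v)
    (h1 : Df j {u, v} = 1) (h2 : dcv u v = 2) : ∃ y, y ∉ K ∧ uc y = {u, v} := by
  obtain ⟨y, y', h3, h4, h5⟩ := paM_two H hne h2
  by_contra hcon
  push Not at hcon
  have hy : y ∈ K := by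
    by_contra h
    exact hcon y h h4
  have hy' : y' ∈ K := by
    by_contra h
    exact hcon y' h h5
  have key : ∀ y, uc y = {u, v} → y ∈ dbL P j := by
    intro y h
    have h6 : y ⋖ u := by
      rw [← mem_uc, h]
      exact mem_insert_self _ _
    have := lev_cov H h6
    exact mem_dbL.2 ⟨by omega, by rw [h, card_pair hne]⟩
  have h6 : ({y, y'} : Finset P) ⊆ K ∩ CoreC_L j {u, v} := by
    intro w hw
    rw [mem_insert, mem_singleton] at hw
    rcases hw with rfl | rfl
    · exact mem_inter.2 ⟨hy, mem_CoreC_L.2 ⟨key _ h4, h4⟩⟩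
    · exact mem_inter.2 ⟨hy', mem_CoreC_L.2 ⟨key _ h5, h5⟩⟩
  have h7 := card_le_card h6
  rw [card_pair h3] at h7
  have h8 := R.nL {u, v}
  rw [h1] at h8
  have h9 : max (1 : ℤ) 0 = 1 := by norm_num
  omega

section main

variable (h : NJ P r j) (B : RowB P j t m x c β) (hp : Pat6 m c β)

include h B hp

lemma paM_ne {p q : ℕ} (hp1 : p ≤ m) (hq : q ≤ m) (hpq : p ≠ q) : x p ≠ x q := fun h2 =>
  hpq (B.row.inj p q hp1 hq h2)

lemma paM_dcv {p : ℕ} (hp1 : p + 1 ≤ m) : (dcv (x p) (x (p + 1)) : ℤ) = 1 + c p := by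
  have h1 := B.row.df p (p + 1) (by omega) hp1
  rw [if_pos rfl, Df_pair h.g.H (B.row.lev_x p (by omega))
    (paM_ne h B hp (by omega) hp1 (by omega))] at h1
  have h2 := B.ucv_x p (p + 1) (by omega) hp1
  rw [if_pos rfl] at h2
  rw [h2] at h1
  push_cast at h1
  omega

lemma paM_dcv0 : dcv (x 0) (x 1) = 2 := by
  have := hp.1
  have h1 := paM_dcv h B hp (p := 0) (by omega)
  rw [hp.2.2.1] at h1
  have h2 : (0 : ℕ) + 1 = 1 := rfl
  rw [h2] at h1
  omega

lemma paM_dcvm : dcv (x (m - 1)) (x m) = 2 := by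
  have := hp.1
  have h1 := paM_dcv h B hp (p := m - 1) (by omega)
  rw [hp.2.2.2.2.2.1, show m - 1 + 1 = m by omega] at h1
  omega

/-- the lower near elements of the component are double -/
lemma paM_dbl {y : P} (hy : lev y = j + 1) (hyC : y ∈ cext (j + 1) (topOf : P → Tops P) t) :
    (uc y).card = 2 := by
  have hm := hp.1
  have h1 := uc_card_le h.g.H y
  have hC := part_cext h.g.H (le_refl (j + 1)) h.split t
  have h0 : (uc y).card ≠ 0 := by
    intro h0
    rw [card_eq_zero] at h0
    obtain ⟨w, hw⟩ := uc_nonempty h.g.H (x := y) (by omega)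
    rw [h0] at hw
    exact notMem_empty _ hw
  by_contra h2
  obtain ⟨v, hv⟩ := card_eq_one.1 (show (uc y).card = 1 by omega)
  have hvy : v ∈ uc y := by rw [hv]; exact mem_singleton_self _
  have hl := lev_uc h.g.H hvy
  have hvC : v ∈ cext (j + 1) (topOf : P → Tops P) t := hC.up hyC (mem_uc.1 hvy)
  have hvt : topOf v = t := (mem_cext.1 hvC) v le_rfl (by omega)
  obtain ⟨q, hq, rfl⟩ := B.row.surj v (by omega) hvt
  have hcov := mem_uc.1 hvy
  have hpen : y ∈ pen (x q) := mem_pen.2 ⟨hcov, by rw [hv, card_singleton]⟩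
  by_cases h3 : 2 ≤ q ∧ q + 2 ≤ m
  · rw [B.pen0 q h3.1 h3.2] at hpen
    exact notMem_empty _ hpen
  · by_cases h4 : q ≤ 1
    · have h5 : y ⋖ x 0 ∨ y ⋖ x 1 := by
        rcases Nat.le_one_iff_eq_zero_or_eq_one.1 h4 with rfl | rfl
        · exact Or.inl hcov
        · exact Or.inr hcov
      have h6 := paM_full h.g.H (paM_dcv0 h B hp) y h5
      have h7 := paM_uc h.g.H (paM_ne h B hp (by omega) (by omega) (by omega)) h6.1 h6.2
      rw [h7, card_pair (paM_ne h B hp (by omega) (by omega) (by omega))] at h2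
      exact h2 rfl
    · have h5 : y ⋖ x (m - 1) ∨ y ⋖ x m := by
        have h8 : q = m - 1 ∨ q = m := by omega
        rcases h8 with rfl | rfl
        · exact Or.inl hcov
        · exact Or.inr hcov
      have h6 := paM_full h.g.H (paM_dcvm h B hp) y h5
      have h7 := paM_uc h.g.H (paM_ne h B hp (by omega) (by omega) (by omega)) h6.1 h6.2
      rw [h7, card_pair (paM_ne h B hp (by omega) (by omega) (by omega))] at h2
      exact h2 rfl

lemma paM_ns_eq {y y' : P} (R : Red P j K psi) {S : Finset P} (hS : |Df j S| = 1) (hy : y ∈ K)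
    (hy' : y' ∈ K) (e : ns j y = S) (e' : ns j y' = S) : y = y' := by
  have h1 := R.fib S
  rw [hS] at h1
  have h2 : (K.filter (fun x => ns j x = S)).card = 1 := by exact_mod_cast h1
  obtain ⟨w, hw⟩ := card_eq_one.1 h2
  have h3 : y ∈ K.filter (fun x => ns j x = S) := mem_filter.2 ⟨hy, e⟩
  have h4 : y' ∈ K.filter (fun x => ns j x = S) := mem_filter.2 ⟨hy', e'⟩
  rw [hw, mem_singleton] at h3 h4
  rw [h3, h4]

/-- the union of the sites of the covers -/
lemma paM_T4 (hj : 2 ≤ j) {z : P} (hz : z ∈ Z4 j (cext (j + 1) (topOf : P → Tops P) t)) :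
    z ∈ T4 j (cext (j + 1) (topOf : P → Tops P) t) := by
  classical
  have hC := part_cext h.g.H (le_refl (j + 1)) h.split t
  rw [mem_T4]
  rcases mem_Z4.1 hz with h1 | h1
  · left
    refine ⟨h1, ?_⟩
    intro y hy
    obtain ⟨h2, h3, h4⟩ := mem_ZL.1 h1
    have hl := lev_uc h.g.H hy
    exact paM_dbl h B hp (by omega) (hC.up h2 (mem_uc.1 hy))
  · right
    refine ⟨h1, ?_⟩
    obtain ⟨h2, h3, h4⟩ := mem_ZU.1 h1
    obtain ⟨y, y', hyy, he⟩ := card_eq_two.1 (card_dc_of_dn h.g.H h3 h4)
    have hu := dn_two h.g.H h3 he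
    have hy : y ⋖ z := by
      rw [← mem_dc, he]
      exact mem_insert_self _ _
    have hy' : y' ⋖ z := by
      rw [← mem_dc, he]
      exact mem_insert_of_mem (mem_singleton_self _)
    have hl := lev_cov h.g.H hy
    have hl' := lev_cov h.g.H hy'
    have g1 := h.g.good (j - 1) (by omega) y y' (by omega) (by omega) hyy
    have g2 := StA_ucv_pos hy hy'
    have g3 : 1 ≤ (dc y ∩ dc y').card := by
      rw [g1] at g2
      unfold dcv at g2
      obtain ⟨w, hw⟩ := card_pos.1 (show 0 < _ from g2)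
      rw [mem_filter] at hw
      exact card_pos.2 ⟨w, mem_inter.2 ⟨mem_dc.2 hw.2.1, mem_dc.2 hw.2.2⟩⟩
    have g4 := card_union_add_card_inter (dc y) (dc y')
    have g5 := dc_card_le h.g.H y
    have g6 := dc_card_le h.g.H y'
    rw [h4] at hu
    intro w hw
    rw [he, mem_insert, mem_singleton] at hw
    rcases hw with rfl | rfl <;> omega

/-- the middle edge of a component with six sites has no pendant -/
lemma paM_mid (hj : 2 ≤ j) (hm : m = 5) {p : P}
    (hz : p ∈ PN j (cext (j + 1) (topOf : P → Tops P) t)) : sit j p ≠ {x 2, x 3} := by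
  intro hs
  obtain ⟨hpC, y, hcon, hyn, hnz, hcard, hlev, hd⟩ := PN_dat h.g.H hz
  rcases hd with ⟨h1, h2, h3, h4, h5, h6⟩ | ⟨h1, h2, h3, h4, h5, h6⟩
  · have h7 := EK.NJ.no_mid h hj B hp hm (w := y) (by rw [← h5, hs])
    have h8 : p ∈ pen y := by
      refine mem_pen.2 ⟨?_, by rw [h4, card_singleton]⟩
      rw [← mem_uc, h4]
      exact mem_singleton_self _
    rw [h7] at h8
    exact notMem_empty _ h8
  · rw [hs] at h5
    have h7 : x 2 ⋖ y := by
      rw [← mem_dc, ← h5]
      exact mem_insert_self _ _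
    have h8 : x 3 ⋖ y := by
      rw [← mem_dc, ← h5]
      exact mem_insert_of_mem (mem_singleton_self _)
    have h9 : y ⋖ p := by
      rw [← mem_dc, h4]
      exact mem_singleton_self _
    have h10 := B.pu 2 (by omega) (by omega) y h7 h8 p h9
    rw [h4, card_singleton] at h10
    omega

/-- every double of the component is over an edge -/
lemma paM_edge {y : P} (hyC : y ∈ cext (j + 1) (topOf : P → Tops P) t) (hy : y ∈ near P j)
    (h2 : (nz j y).card = 2) : ∃ p, p < m ∧ nz j y = {x p, x (p + 1)} := by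
  rcases mem_near.1 hy with hl | hl
  · rw [nz_low hl] at h2 ⊢
    have hd : y ∈ dbL P j := mem_dbL.2 ⟨hl, h2⟩
    obtain ⟨p, h3, h4⟩ := B.dbL_edge h.g.H h.split hp hd
      (EK.kap_of_cext (mem_union_left _ hd) hyC)
    exact ⟨p, by omega, h4⟩
  · rw [nz_upp hl] at h2 ⊢
    have hd : y ∈ dbU P j := mem_dbU.2 ⟨hl, h2⟩
    obtain ⟨p, h3, h4⟩ := B.dbU_edge h.g.H h.split hd
      (EK.kap_of_cext (mem_union_right _ hd) hyC)
    exact ⟨p, by omega, h4⟩

lemma paM_df {p : ℕ} (hp1 : p + 1 ≤ m) : Df j {x p, x (p + 1)} = c p := by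
  have h1 := B.row.df p (p + 1) (by omega) hp1
  rwa [if_pos rfl] at h1

/-- a component with two stars -/
theorem exists_k9x (hj : 2 ≤ j) (R : Red P j K psi) :
    ∃ w v w' v', K9x r j K psi (cext (j + 1) (topOf : P → Tops P) t) w v w' v' x m := by
  classical
  obtain ⟨hm, hb, c0, c1, c2, c3, c4⟩ := id hp
  have H := h.g.H
  have hC := part_cext H (le_refl (j + 1)) h.split t
  have hne : ∀ {p q : ℕ}, p ≤ m → q ≤ m → p ≠ q → x p ≠ x q := fun h1 h2 h3 =>
    paM_ne h B hp h1 h2 h3
  have hxC : ∀ p, p ≤ m → x p ∈ cext (j + 1) (topOf : P → Tops P) t := fun p hp' =>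
    mem_cext_of_le h.split (by rw [B.row.lev_x p hp']; omega) (B.row.kap p hp')
  have d0 : Df j {x 0, x 1} = 1 := by rw [← c0]; exact paM_df h B hp (p := 0) (by omega)
  have d1 : Df j {x 1, x 2} = -1 := by rw [← c1]; exact paM_df h B hp (p := 1) (by omega)
  have d2 : Df j {x (m - 2), x (m - 1)} = -1 := by
    rw [← c2]
    have := paM_df h B hp (p := m - 2) (by omega)
    rwa [show m - 2 + 1 = m - 1 by omega] at this
  have d3 : Df j {x (m - 1), x m} = 1 := by
    rw [← c3]
    have := paM_df h B hp (p := m - 1) (by omega)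
    rwa [show m - 1 + 1 = m by omega] at this
  have exL : ∀ S : Finset P, Df j S = 1 → ∃ w, w ∈ K ∧ w ∈ dbL P j ∧ uc w = S := by
    intro S hS
    have h1 := R.nL S
    rw [hS] at h1
    have h2 : 0 < (K ∩ CoreC_L j S).card := by
      have : max (1 : ℤ) 0 = 1 := by norm_num
      omega
    obtain ⟨w, hw⟩ := card_pos.1 h2
    rw [mem_inter, mem_CoreC_L] at hw
    exact ⟨w, hw.1, hw.2.1, hw.2.2⟩
  have exU : ∀ S : Finset P, Df j S = -1 → ∃ w, w ∈ K ∧ w ∈ dbU P j ∧ dc w = S := by
    intro S hS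
    have h1 := R.nU S
    rw [hS] at h1
    have h2 : 0 < (K ∩ CoreC_U j S).card := by
      have : max (-(-1) : ℤ) 0 = 1 := by norm_num
      omega
    obtain ⟨w, hw⟩ := card_pos.1 h2
    rw [mem_inter, mem_CoreC_U] at hw
    exact ⟨w, hw.1, hw.2.1, hw.2.2⟩
  obtain ⟨w, wK, wd, ew⟩ := exL _ d0
  obtain ⟨v, vK, vd, ev⟩ := exU _ d1
  obtain ⟨w', wK', wd', ew'⟩ := exL _ d3
  obtain ⟨v', vK', vd', ev'⟩ := exU _ d2
  have lw := (mem_dbL.1 wd).1
  have lw' := (mem_dbL.1 wd').1
  have lv := (mem_dbU.1 vd).1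
  have lv' := (mem_dbU.1 vd').1
  have hcL : ∀ {y : P} {q : ℕ}, lev y = j + 1 → q ≤ m → x q ∈ uc y →
      y ∈ cext (j + 1) (topOf : P → Tops P) t := by
    intro y q hy hq hxy
    exact hC.dn (hxC q hq) (by rw [B.row.lev_x q hq]; omega) (mem_uc.1 hxy)
  have hcU : ∀ {y : P} {q : ℕ}, lev y + 1 = j → q ≤ m → x q ∈ dc y →
      y ∈ cext (j + 1) (topOf : P → Tops P) t := by
    intro y q hy hq hxy
    exact hC.up (hxC q hq) (mem_dc.1 hxy)
  have tw0 := paM_twin R H (B.row.lev_x 0 (by omega)) (hne (p := 0) (q := 1) (by omega) (by omega)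
    (by omega)) d0 (paM_dcv0 h B hp)
  have tw1 := paM_twin R H (B.row.lev_x (m - 1) (by omega)) (hne (p := m - 1) (q := m) (by omega)
    (by omega) (by omega)) d3 (paM_dcvm h B hp)
  have Q0 : PaQ r j K psi (cext (j + 1) (topOf : P → Tops P) t) := by
    refine ⟨H, by omega, h.hr, R.mat, hC, ?_, ?_⟩
    · intro z _ hz y hy y' hy' h2 h2'
      by_cases he : y = y'
      · subst he
        rw [inter_self]
        exact card_pos.1 (by omega)
      · obtain ⟨q, h3, h4⟩ := EK.NJ.noQ h hj z hz y hy y' hy' he h2 h2'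
        exact ⟨q, mem_inter.2 ⟨h3, h4⟩⟩
    · intro z _ hz y hy y' hy' h2 h2'
      by_cases he : y = y'
      · subst he
        rw [inter_self]
        exact card_pos.1 (by omega)
      · have l1 := lev_dc H hy
        have l2 := lev_dc H hy'
        have g1 := h.g.good (j - 1) (by omega) y y' (by omega) (by omega) he
        have g2 := StA_ucv_pos (mem_dc.1 hy) (mem_dc.1 hy')
        rw [g1] at g2
        unfold dcv at g2
        obtain ⟨q, hq⟩ := card_pos.1 (show 0 < _ from g2)
        rw [mem_filter] at hq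
        exact ⟨q, mem_inter.2 ⟨mem_dc.2 hq.2.1, mem_dc.2 hq.2.2⟩⟩
  have nsw : ns j w = {x 0, x 1} := by rw [ns_L wd, ew]
  have nsv : ns j v = {x 1, x 2} := by rw [ns_U vd, ev]
  have nsw' : ns j w' = {x (m - 1), x m} := by rw [ns_L wd', ew']
  have nsv' : ns j v' = {x (m - 2), x (m - 1)} := by rw [ns_U vd', ev']
  have Q1 : K9 r j K psi (cext (j + 1) (topOf : P → Tops P) t) w v w' v' := by
    refine ⟨Q0, ?_, hcL lw (q := 0) (by omega) (by rw [ew]; simp),
      hcU lv (q := 1) (by omega) (by rw [ev]; simp), hcL lw' (q := m) (by omega) (by rw [ew']; simp),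
      hcU lv' (q := m - 1) (by omega) (by rw [ev']; simp), lw, lv, lw', lv', ?_, ?_⟩
    · intro y hy
      constructor
      · intro hyK
        have ht := EK.kap_of_cext (R.sub hyK) hy
        rcases B.row.ends4 R H h.split hp hyK ht with (e | e) | (e | e)
        · exact Or.inl (paM_ns_eq h B hp R (by rw [d0, abs_one]) hyK wK e nsw)
        · exact Or.inr (Or.inl (paM_ns_eq h B hp R (by rw [d1, abs_neg, abs_one]) hyK vK e nsv))
        · exact Or.inr (Or.inr (Or.inr
            (paM_ns_eq h B hp R (by rw [d2, abs_neg, abs_one]) hyK vK' e nsv')))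
        · exact Or.inr (Or.inr (Or.inl (paM_ns_eq h B hp R (by rw [d3, abs_one]) hyK wK' e nsw')))
      · rintro (rfl | rfl | rfl | rfl) <;> assumption
    · rintro rfl
      have h1 : x m ∈ uc w := by rw [ew']; simp
      rw [ew, mem_insert, mem_singleton] at h1
      rcases h1 with h1 | h1
      · exact hne (le_refl m) (by omega) (by omega) h1
      · exact hne (le_refl m) (by omega) (by omega) h1
    · rintro rfl
      have h1 : x (m - 1) ∈ dc v := by rw [ev']; simp
      rw [ev, mem_insert, mem_singleton] at h1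
      rcases h1 with h1 | h1
      · exact hne (by omega) (by omega) (by omega) h1
      · exact hne (by omega) (by omega) (by omega) h1
  have Q2 : K9b r j K psi (cext (j + 1) (topOf : P → Tops P) t) w v w' v' (x 1) (x (m - 1)) := by
    refine ⟨Q1, by rw [ew]; simp, by rw [ev]; simp, by rw [ew']; simp, by rw [ev']; simp,
      hne (by omega) (by omega) (by omega), EK.NJ.noQ h hj, fun n hn => h.g.good n (by omega),
      by rw [ew]; exact tw0, by rw [ew']; exact tw1⟩
  have Q3 : K9c r j K psi (cext (j + 1) (topOf : P → Tops P) t) w v w' v' (x 0) (x 1) (x 2)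
      (x m) (x (m - 1)) (x (m - 2)) := by
    refine ⟨Q2, ew, ev, by rw [ew', pair_comm], by rw [ev', pair_comm],
      hne (by omega) (by omega) (by omega), hne (by omega) (by omega) (by omega),
      hne (by omega) (by omega) (by omega), hne (by omega) (by omega) (by omega),
      hne (by omega) (by omega) (by omega), hne (by omega) (by omega) (by omega), ?_⟩
    rw [disjoint_left]
    intro q hq hq'
    simp only [mem_insert, mem_singleton] at hq hq'
    rcases hq with rfl | rfl | rfl <;> rcases hq' with h1 | h1 | h1 <;>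
      exact hne (by omega) (by omega) (by omega) h1
  exact ⟨w, v, w', v', ⟨Q3, hm, B.row.inj, fun y hy hn h2 => paM_edge h B hp hy hn h2,
    fun z hz => paM_T4 h B hp hj hz, fun hm5 p hpn => paM_mid h B hp hj hm5 hpn⟩⟩

end main

end Pool.Agent.GaussPoset.Win.Pa

end

/-! From `Pool.Agent.W_448p_h97.PaN` -/

section

/-!
MP_448cb3_co, G2, case B, window `j`: the signs of the joins of a double and a single element.
helper97.
-/

namespace Pool.Agent.GaussPoset.EK

set_option linter.unusedSectionVars false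

open Finset Win St Polynomial Wd

universe u

variable {P : Type u} [Fintype P] [PartialOrder P] [DecidableEq P] {r i j : ℕ}

variable {ι : Type*} [DecidableEq ι] {κ : P → ι} {a : ι}

variable {m : ℕ} {x : ℕ → P} {c : ℕ → ℤ} {β : ℤ} {t : Tops P}

variable {K : Finset P} {psi : P → P} {T T1 T2 : Finset P}

/-! ### coefficients -/

lemma paN_coeff {ι' : Type*} [DecidableEq ι'] (f : ι' → ℤ) (I : Finset ι')
    (h : ∀ s ∈ I, 0 ≤ f s) : ∀ n, 0 ≤ (∏ s ∈ I, (1 + C (f s) * X) : ℤ[X]).coeff n := by
  induction I using Finset.induction_on with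
  | empty =>
    intro n
    rw [prod_empty, coeff_one]
    split_ifs <;> norm_num
  | insert s I hs ih =>
    have h1 := ih (fun s hs => h s (mem_insert_of_mem hs))
    have h2 := h s (mem_insert_self _ _)
    intro n
    rw [prod_insert hs, add_mul, one_mul, coeff_add, mul_assoc, coeff_C_mul]
    have h3 := h1 n
    rcases n with _ | n
    · rw [coeff_X_mul_zero, mul_zero, add_zero]
      exact h3
    · rw [coeff_X_mul]
      have h4 := mul_nonneg h2 (h1 n)
      linarith

/-- all the numbers of families are nonnegative if all the stars are -/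
theorem HS.nonneg (h : HS r i K psi) (hs : ∀ k ∈ K, 0 ≤ sst i K T (star i K k)) (n : ℕ) :
    0 ≤ Ek i K T n := by
  classical
  rw [Ek_coeff, h.prod T]
  refine paN_coeff _ _ ?_ n
  intro s hs'
  obtain ⟨k, hk, rfl⟩ := mem_image.1 hs'
  exact hs k hk

/-- an unmatched element with a positive defect is lower -/
lemma Red.sgn_pos (R : Red P i K psi) {k : P} (hk : k ∈ K) (h : 0 < Df i (ns i k)) :
    sgn i k = 1 := by
  rcases mem_union.1 (R.sub hk) with h1 | h1
  · exact sgn_low h1
  · exfalso
    have h2 : k ∈ K ∩ CoreC_U i (ns i k) :=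
      mem_inter.2 ⟨hk, mem_CoreC_U.2 ⟨h1, (ns_U h1).symm⟩⟩
    have h3 := card_pos.2 ⟨k, h2⟩
    have h4 := R.nU (ns i k)
    omega

/-- a class with only lower elements which avoid `T` -/
lemma Red.ss_pos {ι' : Type*} [DecidableEq ι'] {lam : P → ι'} (R : Red P i K psi) {b : ι'}
    (h : ∀ k ∈ K, lam k = b → Disjoint (ns i k) T → 0 < Df i (ns i k)) :
    0 ≤ ss (ns i) (sgn i) lam K T b := by
  classical
  unfold ss
  refine sum_nonneg (fun k hk => ?_)
  rw [mem_filter] at hk
  rw [R.sgn_pos hk.1 (h k hk.1 hk.2.1 hk.2.2)]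
  norm_num

/-- restriction of `T` to the component -/
lemma paN_sa_union (H : Gr P r) (hκ : Split (i + 1) κ) (hK : K ⊆ dbL P i ∪ dbU P i)
    (hT : ∀ v ∈ T2, κ v ≠ a) : sa i κ K (T1 ∪ T2) a = sa i κ K T1 a := by
  classical
  rw [sa_eq, sa_eq]
  refine sum_congr ?_ (fun _ _ => rfl)
  refine filter_congr (fun x hx => ?_)
  rw [disjoint_union_right]
  constructor
  · exact fun h => ⟨h.1, h.2.1⟩
  · rintro ⟨h1, h2⟩
    refine ⟨h1, h2, ?_⟩
    rw [disjoint_left]
    intro v hv hv2
    exact hT v hv2 ((kap_ns H hκ (hK hx) hv).trans h1)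

/-- the star of an element of a small component is the whole component -/
lemma Red.sst_small (R : Red P i K psi) (h : HS r i K psi) (hκ : Split (i + 1) κ)
    (hs : Small i κ a) {k : P} (hk : k ∈ K) (hka : κ k = a) :
    sst i K T (star i K k) = sa i κ K T a := by
  classical
  rw [sst_eq, sa_eq]
  refine sum_congr ?_ (fun _ _ => rfl)
  refine filter_congr (fun x hx => ?_)
  rw [h.star_eq hx hk]
  constructor
  · rintro ⟨h1, h2⟩
    exact ⟨(star_comp h.H hκ R.sub hx hk h1).trans hka, h2⟩
  · rintro ⟨h1, h2⟩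
    exact ⟨R.same_of_small h.H h.hi hκ hs hx hk h1 hka, h2⟩

/-- a star which does not meet `T` -/
lemma HS.sst_zero (h : HS r i K psi) {k : P} (hk : k ∈ K)
    (hd : ∀ x ∈ K, ¬ Disjoint (ns i x) (ns i k) → Disjoint (ns i x) T) :
    sst i K T (star i K k) = 0 := by
  unfold sst
  refine ss_zero ?_ (h.zero _)
  intro x hx hxk
  exact hd x hx ((h.star_eq hx hk).1 hxk)

/-! ### the single element -/

/-- the value over the site of a single element is nonnegative in case B -/
theorem NJ.sa_single (h : NJ P r j) (hj : 2 ≤ j) (R : Red P j K psi) {v : P} (hl : lev v = j + 1)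
    (h1 : (uc v).card = 1) : 0 ≤ sa j (topOf : P → Tops P) K (uc v) (topOf v) := by
  classical
  obtain ⟨s, hs⟩ := card_eq_one.1 h1
  have hsv : s ∈ uc v := by rw [hs]; exact mem_singleton_self _
  have hls := lev_uc h.g.H hsv
  have hts : topOf v = topOf s := h.split (mem_uc.1 hsv) (by omega)
  rw [hs, hts]
  obtain ⟨m, x, c, β, B⟩ := NJ.rowB h hj (topOf s)
  obtain ⟨q, hq, rfl⟩ := B.row.surj s (by omega) rfl
  rcases Nat.eq_zero_or_pos m with rfl | hm
  · -- one site only
    have h2 : sa j (topOf : P → Tops P) K {x q} (topOf (x q)) = 0 := by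
      rw [sa_eq, filter_false_of_mem, sum_empty]
      rintro k hk ⟨h3, h4⟩
      obtain ⟨w, hw⟩ := ns_ne (R.sub hk)
      have h5 := kap_ns' h.g.H h.split (R.sub hk) hw
      obtain ⟨p, hp, rfl⟩ := B.row.surj w h5.2 (h5.1.trans h3)
      have hpq : p = q := by omega
      subst hpq
      rw [disjoint_left] at h4
      exact h4 hw (mem_singleton_self _)
    exact h2.ge
  · have hu : ∃ u, x q ⋖ u ∧ (dc u).card = 2 := by
      have key : ∀ p, p + 1 ≤ m → ∃ u, x p ⋖ u ∧ x (p + 1) ⋖ u ∧ (dc u).card = 2 := by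
        intro p hp
        have h2 := B.ucv_x p (p + 1) (by omega) hp
        rw [if_pos rfl] at h2
        unfold ucv at h2
        obtain ⟨u, hu⟩ := card_pos.1 (show 0 < _ by rw [h2]; exact one_pos)
        rw [mem_filter] at hu
        refine ⟨u, hu.2.1, hu.2.2, ?_⟩
        have hne : x p ≠ x (p + 1) := fun h3 => by
          have := B.row.inj p (p + 1) (by omega) hp h3
          omega
        have h3 : ({x p, x (p + 1)} : Finset P) ⊆ dc u := by
          intro w hw
          rw [mem_insert, mem_singleton] at hw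
          rcases hw with rfl | rfl
          · exact mem_dc.2 hu.2.1
          · exact mem_dc.2 hu.2.2
        have h4 := card_le_card h3
        rw [card_pair hne] at h4
        have h5 := dc_card_le h.g.H u
        omega
      by_cases h2 : q + 1 ≤ m
      · obtain ⟨u, h3, h4, h5⟩ := key q h2
        exact ⟨u, h3, h5⟩
      · obtain ⟨u, h3, h4, h5⟩ := key (q - 1) (by omega)
        rw [show q - 1 + 1 = q by omega] at h4
        exact ⟨u, h4, h5⟩
    obtain ⟨u, hu1, hu2⟩ := hu
    exact sa_single_nonneg h.g.H (by have := h.hr; omega) h.split R.mat R.sub (by omega)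
      (mem_dc.2 (mem_uc.1 hsv)) h1 (mem_uc.2 hu1) hu2

/-! ### the double element -/

section two

variable (W : Row i κ a m x c β) (R : Red P i K psi) (H : Gr P r) (hκ : Split (i + 1) κ)
  (hp : Pat6 m c β)

include W R H hκ hp

/-- the stars of a component with two stars have nonnegative value over an edge -/
lemma Row.sst_nonneg (h : HS r i K psi) {p : ℕ} (hpm : p + 1 ≤ m)
    (hT1 : ({x p, x (p + 1)} : Finset P) ⊆ T) (hT2 : ∀ v ∈ T, κ v = a → v = x p ∨ v = x (p + 1))
    {k : P} (hk : k ∈ K) (hka : κ k = a) : 0 ≤ sst i K T (star i K k) := by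
  obtain ⟨hm, h2, c0, c1, c2, c3, c4⟩ := id hp
  have hin : ∀ {s t : ℕ}, s ≤ m → t ≤ m → (x s = x t ↔ s = t) := fun hs ht =>
    ⟨W.inj _ _ hs ht, fun h => by rw [h]⟩
  have hd : ∀ k' ∈ K, κ k' = a → (Disjoint (ns i k') T ↔ Disjoint (ns i k') {x p, x (p + 1)}) := by
    intro k' hk' hka'
    constructor
    · intro h3
      exact Disjoint.mono_right hT1 h3
    · intro h3
      rw [disjoint_left] at h3 ⊢
      intro v hv hvT
      refine h3 hv ?_
      rw [mem_insert, mem_singleton]
      exact hT2 v hvT ((kap_ns H hκ (R.sub hk') hv).trans hka')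
  have hcomp : ∀ k' ∈ K, star i K k' = star i K k → κ k' = a := by
    intro k' hk' h3
    exact (star_comp H hκ R.sub hk' hk ((h.star_eq hk' hk).1 h3)).trans hka
  have d0 : Df i {x 0, x 1} = 1 := by
    rw [W.df 0 1 (by omega) (by omega), if_pos rfl, c0]
  have d3 : Df i {x (m - 1), x m} = 1 := by
    rw [W.df (m - 1) m (by omega) (by omega), if_pos (by omega), c3]
  by_cases hside : x 1 ∈ ns i k
  · -- left star
    by_cases hp2 : p ≤ 2
    · unfold sst
      refine R.ss_pos ?_
      intro k' hk' h3 h4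
      have hka' := hcomp k' hk' h3
      rw [hd k' hk' hka'] at h4
      rcases W.ends4 R H hκ hp hk' hka' with (e | e) | (e | e)
      · rw [e, d0]
        norm_num
      · exfalso
        rw [e, disjoint_left] at h4
        simp only [mem_insert, mem_singleton] at h4
        rcases Nat.eq_zero_or_pos p with h5 | h5
        · subst h5
          exact h4 (a := x 1) (Or.inl rfl) (Or.inr rfl)
        · have h6 : p = 1 ∨ p = 2 := by omega
          rcases h6 with rfl | rfl
          · exact h4 (a := x 1) (Or.inl rfl) (Or.inl rfl)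
          · exact h4 (a := x 2) (Or.inr rfl) (Or.inl rfl)
      · exfalso
        have h5 := (h.star_eq hk' hk).1 h3
        rcases W.ends4 R H hκ hp hk hka with e' | e'
        · obtain ⟨v, hv, hv'⟩ := not_disjoint_iff.1 h5
          obtain ⟨q, hq, rfl⟩ := W.surj v (kap_ns' H hκ (R.sub hk) hv').2
            ((kap_ns' H hκ (R.sub hk) hv').1.trans hka)
          have f1 := W.left_site hm e' hq hv'
          have f2 := W.right_site hm (Or.inl e) hq hv
          omega
        · have f2 := W.right_site hm e' (by omega) hside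
          omega
      · exfalso
        have h5 := (h.star_eq hk' hk).1 h3
        rcases W.ends4 R H hκ hp hk hka with e' | e'
        · obtain ⟨v, hv, hv'⟩ := not_disjoint_iff.1 h5
          obtain ⟨q, hq, rfl⟩ := W.surj v (kap_ns' H hκ (R.sub hk) hv').2
            ((kap_ns' H hκ (R.sub hk) hv').1.trans hka)
          have f1 := W.left_site hm e' hq hv'
          have f2 := W.right_site hm (Or.inr e) hq hv
          omega
        · have f2 := W.right_site hm e' (by omega) hside
          omega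
    · refine (h.sst_zero hk ?_).ge
      intro k' hk' h3
      have hka' := (star_comp H hκ R.sub hk' hk h3).trans hka
      rw [hd k' hk' hka', disjoint_left]
      intro v hv hv'
      have hq : v = x p ∨ v = x (p + 1) := by
        rw [mem_insert, mem_singleton] at hv'
        exact hv'
      rcases W.ends4 R H hκ hp hk' hka' with e | e
      · rcases hq with rfl | rfl
        · have := W.left_site hm e (by omega) hv
          omega
        · have := W.left_site hm e (by omega) hv
          omega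
      · obtain ⟨v', hv1, hv2⟩ := not_disjoint_iff.1 h3
        obtain ⟨q, hq, rfl⟩ := W.surj v' (kap_ns' H hκ (R.sub hk) hv2).2
          ((kap_ns' H hκ (R.sub hk) hv2).1.trans hka)
        have f2 := W.right_site hm e hq hv1
        rcases W.ends4 R H hκ hp hk hka with e' | e'
        · have f1 := W.left_site hm e' hq hv2
          omega
        · have f1 := W.right_site hm e' (by omega) hside
          omega
  · -- right star
    have he : ns i k = {x (m - 2), x (m - 1)} ∨ ns i k = {x (m - 1), x m} := by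
      rcases W.ends4 R H hκ hp hk hka with (e | e) | e
      · exact absurd (by rw [e]; simp) hside
      · exact absurd (by rw [e]; simp) hside
      · exact e
    by_cases hp2 : m ≤ p + 3
    · unfold sst
      refine R.ss_pos ?_
      intro k' hk' h3 h4
      have hka' := hcomp k' hk' h3
      rw [hd k' hk' hka'] at h4
      have h5 := (h.star_eq hk' hk).1 h3
      rcases W.ends4 R H hκ hp hk' hka' with e | (e | e)
      · exfalso
        obtain ⟨v, hv, hv'⟩ := not_disjoint_iff.1 h5
        obtain ⟨q, hq, rfl⟩ := W.surj v (kap_ns' H hκ (R.sub hk) hv').2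
          ((kap_ns' H hκ (R.sub hk) hv').1.trans hka)
        have f1 := W.left_site hm e hq hv
        have f2 := W.right_site hm he hq hv'
        omega
      · exfalso
        rw [e, disjoint_left] at h4
        simp only [mem_insert, mem_singleton] at h4
        have h6 : p = m - 3 ∨ p = m - 2 ∨ p = m - 1 := by omega
        rcases h6 with h6 | h6 | h6
        · exact h4 (a := x (m - 2)) (Or.inl rfl) (Or.inr (by rw [h6, show m - 3 + 1 = m - 2 by omega]))
        · exact h4 (a := x (m - 2)) (Or.inl rfl) (Or.inl (by rw [h6]))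
        · exact h4 (a := x (m - 1)) (Or.inr rfl) (Or.inl (by rw [h6]))
      · rw [e, d3]
        norm_num
    · refine (h.sst_zero hk ?_).ge
      intro k' hk' h3
      have hka' := (star_comp H hκ R.sub hk' hk h3).trans hka
      rw [hd k' hk' hka', disjoint_left]
      intro v hv hv'
      have hq : v = x p ∨ v = x (p + 1) := by
        rw [mem_insert, mem_singleton] at hv'
        exact hv'
      rcases W.ends4 R H hκ hp hk' hka' with e | e
      · obtain ⟨v', hv1, hv2⟩ := not_disjoint_iff.1 h3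
        obtain ⟨q, hq, rfl⟩ := W.surj v' (kap_ns' H hκ (R.sub hk) hv2).2
          ((kap_ns' H hκ (R.sub hk) hv2).1.trans hka)
        have f1 := W.left_site hm e hq hv1
        have f2 := W.right_site hm he hq hv2
        omega
      · rcases hq with rfl | rfl
        · have := W.right_site hm e (by omega) hv
          omega
        · have := W.right_site hm e (by omega) hv
          omega

end two

end Pool.Agent.GaussPoset.EK

end

/-! From `Pool.Agent.W_448p_h97.PaO` -/

section

/-!
MP_448cb3_co, G2, case B, window `j`: the values of the joins of a double and a single element.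
helper97.
-/

namespace Pool.Agent.GaussPoset.EK

set_option linter.unusedSectionVars false

open Finset Win St Polynomial Wd

universe u

variable {P : Type u} [Fintype P] [PartialOrder P] [DecidableEq P] {r i j : ℕ}

variable {ι : Type*} [DecidableEq ι] {κ : P → ι} {a : ι}

variable {m : ℕ} {x : ℕ → P} {c : ℕ → ℤ} {β : ℤ} {t : Tops P}

variable {K : Finset P} {psi : P → P} {T T1 T2 : Finset P}

/-- the sites of a lower double of a row -/
lemma RowB.dbL_pair (B : RowB P j t m x c β) (H : Gr P r) (hκ : Split (j + 1) (topOf : P → Tops P))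
    {y : P} (hy : y ∈ dbL P j) (hyt : topOf y = t) :
    ∃ p q, p < q ∧ q ≤ m ∧ uc y = {x p, x q} ∧
      ((q = p + 1 ∧ 0 ≤ c p) ∨ (q ≠ p + 1 ∧ p = 0 ∧ q = m ∧ 1 ≤ β)) := by
  have hyD : y ∈ dbL P j ∪ dbU P j := mem_union_left _ hy
  obtain ⟨u, v, huv, hns⟩ := card_eq_two.1 (mem_dbL.1 hy).2
  have hu : u ∈ uc y := by rw [hns]; exact mem_insert_self _ _
  have hv : v ∈ uc y := by rw [hns]; exact mem_insert_of_mem (mem_singleton_self _)
  have hu' : u ∈ ns j y := by rw [ns_L hy]; exact hu
  have hv' : v ∈ ns j y := by rw [ns_L hy]; exact hv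
  obtain ⟨p, hp1, rfl⟩ := B.row.surj u (kap_ns' H hκ hyD hu').2 ((kap_ns' H hκ hyD hu').1.trans hyt)
  obtain ⟨q, hq1, rfl⟩ := B.row.surj v (kap_ns' H hκ hyD hv').2 ((kap_ns' H hκ hyD hv').1.trans hyt)
  have hpq : p ≠ q := by
    rintro rfl
    exact huv rfl
  have key : ∀ p q, p < q → q ≤ m → x p ∈ uc y → x q ∈ uc y →
      ((q = p + 1 ∧ 0 ≤ c p) ∨ (q ≠ p + 1 ∧ p = 0 ∧ q = m ∧ 1 ≤ β)) := by
    intro p q hpq hq hpy hqy
    have h1 := B.row.df p q hpq hq
    have hne' : x p ≠ x q := fun h2 => by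
      have := B.row.inj p q (by omega) hq h2
      omega
    rw [Df_pair H (B.row.lev_x p (by omega)) hne'] at h1
    have h2 := B.ucv_x p q hpq hq
    have h3 := StA_dcv_pos (mem_uc.1 hpy) (mem_uc.1 hqy)
    by_cases h4 : q = p + 1
    · rw [if_pos h4] at h1 h2
      rw [h2] at h1
      push_cast at h1
      exact Or.inl ⟨h4, by omega⟩
    · rw [if_neg h4] at h1 h2
      rw [h2] at h1
      by_cases h5 : p = 0 ∧ q = m
      · rw [if_pos h5] at h1
        push_cast at h1
        exact Or.inr ⟨h4, h5.1, h5.2, by omega⟩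
      · rw [if_neg h5] at h1
        push_cast at h1
        omega
  rcases Nat.lt_or_ge p q with h1 | h1
  · exact ⟨p, q, h1, hq1, hns, key p q h1 hq1 hu hv⟩
  · exact ⟨q, p, by omega, hp1, by rw [hns, pair_comm], key q p (by omega) hp1 hv hu⟩

/-- all the unmatched elements of the component avoid `T` -/
lemma Red.sa_zero (R : Red P i K psi) (H : Gr P r) (hi : i ≤ r) (hκ : Split (i + 1) κ)
    (h : ∀ k ∈ K, κ k = a → Disjoint (ns i k) T) : sa i κ K T a = 0 :=
  ss_zero h (sum_K H hi hκ R.mat R.sub a)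

/-- no unmatched element of the component avoids `T` -/
lemma paO_sa_none (h : ∀ k ∈ K, κ k = a → ¬ Disjoint (ns i k) T) : sa i κ K T a = 0 := by
  classical
  rw [sa_eq, filter_false_of_mem, sum_empty]
  rintro k hk ⟨h3, h4⟩
  exact h k hk h3 h4

/-- the exceptional double over the last edge of a rotated row -/
def BadR (P : Type u) [Fintype P] [PartialOrder P] [DecidableEq P] (j : ℕ) (y : P) : Prop :=
  ∃ (m : ℕ) (x : ℕ → P) (c : ℕ → ℤ) (β : ℤ), RowB P j (topOf y) m x c β ∧ 3 ≤ m ∧ β = 1 ∧
    ((c 0 = -1 ∧ (∀ k, 1 ≤ k → k < m → c k = 0) ∧ uc y = {x (m - 1), x m}) ∨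
      (c (m - 1) = -1 ∧ (∀ k, k + 1 < m → c k = 0) ∧ uc y = {x 0, x 1}))

/-- the value of a double in case B -/
theorem RowB.sa_double (h : NJ P r j) (R : Red P j K psi) (B : RowB P j t m x c β)
    (hp6 : ¬ Pat6 m c β) {y : P} (hy : y ∈ dbL P j) (hyt : topOf y = t) (hbad : ¬ BadR P j y) :
    0 ≤ sa j (topOf : P → Tops P) K (uc y) t := by
  have H := h.g.H
  have hjr : j ≤ r := by have := h.hr; omega
  obtain ⟨p, q, hpq, hq, he, hc⟩ := B.dbL_pair H h.split hy hyt
  have W := B.row
  have hinj : ∀ {s t : ℕ}, s ≤ m → t ≤ m → x s = x t → s = t := fun hs ht hst => W.inj _ _ hs ht hst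
  rw [he]
  by_cases hm : m ≤ 2
  · -- three sites
    refine (paO_sa_none ?_).ge
    intro k hk hkt hd
    obtain ⟨p', q', h1, h2, h3, -⟩ := W.pair R H h.split hk hkt
    rw [h3, disjoint_left] at hd
    simp only [mem_insert, mem_singleton] at hd
    have h4 : p' = p ∨ p' = q ∨ q' = p ∨ q' = q := by omega
    rcases h4 with rfl | rfl | rfl | rfl
    · exact hd (a := x p') (Or.inl rfl) (Or.inl rfl)
    · exact hd (a := x p') (Or.inl rfl) (Or.inr rfl)
    · exact hd (a := x q') (Or.inr rfl) (Or.inl rfl)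
    · exact hd (a := x q') (Or.inr rfl) (Or.inr rfl)
  rcases B.pat with ⟨h1, h2⟩ | ⟨h1, h2, h3, h4⟩ | ⟨h1, h2, h3, h4⟩ | ⟨h1, h2, h3, h4, h5⟩ |
    ⟨h1, h2, h3, h4, h5⟩ | h1 | ⟨h1, h2, h3, h4⟩ | h1
  · -- natural
    refine (paO_sa_none ?_).ge
    intro k hk hkt hd
    obtain ⟨p', q', f1, f2, f3, f4⟩ := W.pair R H h.split hk hkt
    rcases f4 with ⟨f5, f6⟩ | ⟨_, _, _, f5⟩
    · exact f6 (h2 p' (by omega))
    · exact f5 h1
  · -- rotated, left
    have hK : ∀ k ∈ K, topOf k = t → ns j k = {x 0, x 1} ∨ ns j k = {x 0, x m} := by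
      intro k hk hkt
      obtain ⟨p', q', f1, f2, f3, f4⟩ := W.pair R H h.split hk hkt
      rcases f4 with ⟨f5, f6⟩ | ⟨f5, f6, _, _⟩
      · left
        have : p' = 0 := by
          by_contra h7
          exact f6 (h4 p' (by omega) (by omega))
        subst this
        rw [f3, f5]
      · right
        rw [f3, f5, f6]
    rcases hc with ⟨g1, g2⟩ | ⟨_, g1, g2, _⟩
    · subst g1
      have hp0 : 1 ≤ p := by
        by_contra h7
        have : p = 0 := by omega
        subst this
        omega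
      by_cases hp1 : p = 1
      · subst hp1
        unfold sa
        refine R.ss_pos ?_
        intro k hk hkt hd
        rcases hK k hk hkt with e | e
        · exfalso
          rw [e, disjoint_left] at hd
          simp only [mem_insert, mem_singleton] at hd
          exact hd (a := x 1) (Or.inr rfl) (Or.inl rfl)
        · rw [e, W.df 0 m (by omega) le_rfl, if_neg (by omega), if_pos ⟨rfl, rfl⟩, h2]
          norm_num
      · by_cases hpm : p + 1 = m
        · exfalso
          apply hbad
          refine ⟨m, x, c, β, by rw [hyt]; exact B, by omega, h2, Or.inl ⟨h3, h4, ?_⟩⟩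
          rw [he, hpm, show m - 1 = p by omega]
        · refine (R.sa_zero H hjr h.split ?_).ge
          intro k hk hkt
          rw [disjoint_left]
          intro v hv hv'
          rw [mem_insert, mem_singleton] at hv'
          rcases hK k hk hkt with e | e <;> rw [e, mem_insert, mem_singleton] at hv <;>
            rcases hv with rfl | rfl <;> rcases hv' with h8 | h8 <;>
            (have := hinj (by omega) (by omega) h8; omega)
    · refine (paO_sa_none ?_).ge
      intro k hk hkt hd
      subst g1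
      rw [disjoint_left] at hd
      simp only [mem_insert, mem_singleton] at hd
      rcases hK k hk hkt with e | e
      · exact hd (a := x 0) (by rw [e]; simp) (Or.inl rfl)
      · exact hd (a := x 0) (by rw [e]; simp) (Or.inl rfl)
  · -- rotated, right
    have hK : ∀ k ∈ K, topOf k = t → ns j k = {x (m - 1), x m} ∨ ns j k = {x 0, x m} := by
      intro k hk hkt
      obtain ⟨p', q', f1, f2, f3, f4⟩ := W.pair R H h.split hk hkt
      rcases f4 with ⟨f5, f6⟩ | ⟨f5, f6, _, _⟩
      · left
        have : p' = m - 1 := by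
          by_contra h7
          exact f6 (h4 p' (by omega))
        rw [f3, f5, this, show m - 1 + 1 = m by omega]
      · right
        rw [f3, f5, f6]
    rcases hc with ⟨g1, g2⟩ | ⟨_, g1, g2, _⟩
    · subst g1
      have hp0 : p + 1 < m := by
        by_contra h7
        have : p = m - 1 := by omega
        rw [this] at g2
        omega
      by_cases hp1 : p = m - 2
      · unfold sa
        refine R.ss_pos ?_
        intro k hk hkt hd
        rcases hK k hk hkt with e | e
        · exfalso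
          rw [e, disjoint_left] at hd
          simp only [mem_insert, mem_singleton] at hd
          exact hd (a := x (m - 1)) (Or.inl rfl) (Or.inr (by rw [show m - 1 = p + 1 by omega]))
        · rw [e, W.df 0 m (by omega) le_rfl, if_neg (by omega), if_pos ⟨rfl, rfl⟩, h2]
          norm_num
      · by_cases hpm : p = 0
        · exfalso
          apply hbad
          subst hpm
          exact ⟨m, x, c, β, by rw [hyt]; exact B, by omega, h2, Or.inr ⟨h3, h4, he⟩⟩
        · refine (R.sa_zero H hjr h.split ?_).ge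
          intro k hk hkt
          rw [disjoint_left]
          intro v hv hv'
          rw [mem_insert, mem_singleton] at hv'
          rcases hK k hk hkt with e | e <;> rw [e, mem_insert, mem_singleton] at hv <;>
            rcases hv with rfl | rfl <;> rcases hv' with h8 | h8 <;>
            (have := hinj (by omega) (by omega) h8; omega)
    · refine (paO_sa_none ?_).ge
      intro k hk hkt hd
      subst g2
      rw [disjoint_left] at hd
      simp only [mem_insert, mem_singleton] at hd
      rcases hK k hk hkt with e | e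
      · exact hd (a := x q) (by rw [e]; simp) (Or.inr rfl)
      · exact hd (a := x q) (by rw [e]; simp) (Or.inr rfl)
  · -- doubled, left
    rcases hc with ⟨g1, g2⟩ | ⟨_, _, _, g1⟩
    · subst g1
      have hK : ∀ k ∈ K, topOf k = t → ns j k = {x 0, x 1} ∨ ns j k = {x 1, x 2} := by
        intro k hk hkt
        obtain ⟨p', q', f1, f2, f3, f4⟩ := W.pair R H h.split hk hkt
        rcases f4 with ⟨f5, f6⟩ | ⟨_, _, _, f6⟩
        · have h7 : p' = 0 ∨ p' = 1 := by
            by_contra h7
            exact f6 (h5 p' (by omega) (by omega))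
          rcases h7 with h7 | h7
          · left
            rw [f3, f5, h7]
          · right
            rw [f3, f5, h7]
        · exact absurd h2 f6
      by_cases hp2 : p ≤ 2
      · unfold sa
        refine R.ss_pos ?_
        intro k hk hkt hd
        rcases hK k hk hkt with e | e
        · rw [e, W.df 0 1 (by omega) (by omega), if_pos rfl, h3]
          norm_num
        · exfalso
          rw [e, disjoint_left] at hd
          simp only [mem_insert, mem_singleton] at hd
          have h7 : p = 0 ∨ p = 1 ∨ p = 2 := by omega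
          rcases h7 with rfl | rfl | rfl
          · exact hd (a := x 1) (Or.inl rfl) (Or.inr rfl)
          · exact hd (a := x 1) (Or.inl rfl) (Or.inl rfl)
          · exact hd (a := x 2) (Or.inr rfl) (Or.inl rfl)
      · refine (R.sa_zero H hjr h.split ?_).ge
        intro k hk hkt
        rw [disjoint_left]
        intro v hv hv'
        rw [mem_insert, mem_singleton] at hv'
        rcases hK k hk hkt with e | e <;> rw [e, mem_insert, mem_singleton] at hv <;>
          rcases hv with rfl | rfl <;> rcases hv' with h8 | h8 <;>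
          (have := hinj (by omega) (by omega) h8; omega)
    · omega
  · -- doubled, right
    rcases hc with ⟨g1, g2⟩ | ⟨_, _, _, g1⟩
    · subst g1
      have hK : ∀ k ∈ K, topOf k = t → ns j k = {x (m - 1), x m} ∨ ns j k = {x (m - 2), x (m - 1)} := by
        intro k hk hkt
        obtain ⟨p', q', f1, f2, f3, f4⟩ := W.pair R H h.split hk hkt
        rcases f4 with ⟨f5, f6⟩ | ⟨_, _, _, f6⟩
        · have h7 : p' = m - 1 ∨ p' = m - 2 := by
            by_contra h7
            exact f6 (h5 p' (by omega))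
          rcases h7 with h7 | h7
          · left
            rw [f3, f5, h7, show m - 1 + 1 = m by omega]
          · right
            rw [f3, f5, h7, show m - 2 + 1 = m - 1 by omega]
        · exact absurd h2 f6
      by_cases hp2 : m ≤ p + 3
      · unfold sa
        refine R.ss_pos ?_
        intro k hk hkt hd
        rcases hK k hk hkt with e | e
        · rw [e, W.df (m - 1) m (by omega) (by omega), if_pos (by omega), h3]
          norm_num
        · exfalso
          rw [e, disjoint_left] at hd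
          simp only [mem_insert, mem_singleton] at hd
          have h6 : p = m - 3 ∨ p = m - 2 ∨ p = m - 1 := by omega
          rcases h6 with h6 | h6 | h6
          · exact hd (a := x (m - 2)) (Or.inl rfl)
              (Or.inr (by rw [h6, show m - 3 + 1 = m - 2 by omega]))
          · exact hd (a := x (m - 2)) (Or.inl rfl) (Or.inl (by rw [h6]))
          · exact hd (a := x (m - 1)) (Or.inr rfl) (Or.inl (by rw [h6]))
      · refine (R.sa_zero H hjr h.split ?_).ge
        intro k hk hkt
        rw [disjoint_left]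
        intro v hv hv'
        rw [mem_insert, mem_singleton] at hv'
        rcases hK k hk hkt with e | e <;> rw [e, mem_insert, mem_singleton] at hv <;>
          rcases hv with rfl | rfl <;> rcases hv' with h8 | h8 <;>
          (have := hinj (by omega) (by omega) h8; omega)
    · omega
  · exact absurd h1 hp6
  · omega
  · exact (B.not8 h1).elim

/-! ### joins -/

section join

variable (h : NJ P r j) (R : Red P j K psi) {z y v : P}
  (S : K2.SD j (topOf : P → Tops P) z y v)

include h S

lemma paO_ky : ∀ s ∈ uc y, topOf s = topOf y := by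
  intro s hs
  exact (h.split (mem_uc.1 hs) (by have := S.ly h.g.H; omega)).symm

lemma paO_kv : ∀ s ∈ uc v, topOf s = topOf v := by
  intro s hs
  exact (h.split (mem_uc.1 hs) (by have := S.lv' h.g.H; omega)).symm

lemma paO_y : y ∈ dbL P j := mem_dbL.2 ⟨S.ly h.g.H, S.cy⟩

include R

lemma paO_meet {k : P} (hk : k ∈ K) (hd : ¬ Disjoint (ns j k) (uc y ∪ uc v)) :
    topOf k = topOf y ∨ topOf k = topOf v := by
  obtain ⟨s, hs, hs'⟩ := not_disjoint_iff.1 hd
  have h1 := kap_ns h.g.H h.split (R.sub hk) hs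
  rcases mem_union.1 hs' with h2 | h2
  · exact Or.inl (h1.symm.trans (paO_ky h S s h2))
  · exact Or.inr (h1.symm.trans (paO_kv h S s h2))

lemma paO_sa_y : sa j (topOf : P → Tops P) K (uc y ∪ uc v) (topOf y) =
    sa j (topOf : P → Tops P) K (uc y) (topOf y) :=
  paN_sa_union h.g.H h.split R.sub (fun s hs h1 => S.hk (h1.symm.trans (paO_kv h S s hs)))

lemma paO_sa_v : sa j (topOf : P → Tops P) K (uc y ∪ uc v) (topOf v) =
    sa j (topOf : P → Tops P) K (uc v) (topOf v) := by
  rw [union_comm]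
  exact paN_sa_union h.g.H h.split R.sub (fun s hs h1 => S.hk ((paO_ky h S s hs).symm.trans h1))

/-- the values of a join of two small components -/
theorem NJ.join_small (hj : 2 ≤ j) (hy : Small j (topOf : P → Tops P) (topOf y))
    (hv : Small j (topOf : P → Tops P) (topOf v)) :
    Ek j K (K2.Tz z) 2 = sa j (topOf : P → Tops P) K (uc y) (topOf y) *
      sa j (topOf : P → Tops P) K (uc v) (topOf v) ∧ ∀ n, 3 ≤ n → Ek j K (K2.Tz z) n = 0 := by
  have hS := (NJ.HT h hj R).hs
  have key : ∀ {a : Tops P} {k k' : P}, Small j (topOf : P → Tops P) a → k ∈ K → k' ∈ K →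
      topOf k = a → topOf k' = a → star j K k = star j K k' := by
    intro a k k' hs hk hk' e e'
    exact (hS.star_eq hk hk').2 (R.same_of_small h.g.H hS.hi h.split hs hk hk' e e')
  rw [S.Tz]
  by_cases ey : ∃ k ∈ K, topOf k = topOf y
  · obtain ⟨ky, hky, ty⟩ := ey
    by_cases ev : ∃ k ∈ K, topOf k = topOf v
    · obtain ⟨kv, hkv, tv⟩ := ev
      have hne : star j K ky ≠ star j K kv := by
        intro he
        have h1 := star_comp h.g.H h.split R.sub hky hkv ((hS.star_eq hky hkv).1 he)
        exact S.hk (ty.symm.trans (h1.trans tv))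
      have h2 := hS.two (T := uc y ∪ uc v) hne (by
        intro k hk hd
        rcases paO_meet h R S hk hd with e | e
        · exact Or.inl (key hy hk hky e ty)
        · exact Or.inr (key hv hk hkv e tv))
      rw [R.sst_small hS h.split hy hky ty, R.sst_small hS h.split hv hkv tv, paO_sa_y h R S,
        paO_sa_v h R S] at h2
      exact ⟨h2.2.2.1, h2.2.2.2⟩
    · push Not at ev
      have h1 : sa j (topOf : P → Tops P) K (uc v) (topOf v) = 0 :=
        paO_sa_none (fun k hk e => (ev k hk e).elim)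
      have h2 := hS.one (T := uc y ∪ uc v) (s := star j K ky) (by
        intro k hk hd
        rcases paO_meet h R S hk hd with e | e
        · exact key hy hk hky e ty
        · exact (ev k hk e).elim)
      rw [h1, mul_zero]
      exact ⟨h2.2.2 2 le_rfl, fun n hn => h2.2.2 n (by omega)⟩
  · push Not at ey
    have h1 : sa j (topOf : P → Tops P) K (uc y) (topOf y) = 0 :=
      paO_sa_none (fun k hk e => (ey k hk e).elim)
    rw [h1, zero_mul]
    by_cases ev : ∃ k ∈ K, topOf k = topOf v
    · obtain ⟨kv, hkv, tv⟩ := ev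
      have h2 := hS.one (T := uc y ∪ uc v) (s := star j K kv) (by
        intro k hk hd
        rcases paO_meet h R S hk hd with e | e
        · exact (ey k hk e).elim
        · exact key hv hk hkv e tv)
      exact ⟨h2.2.2 2 le_rfl, fun n hn => h2.2.2 n (by omega)⟩
    · push Not at ev
      have h2 := hS.none (T := uc y ∪ uc v) (by
        intro k hk
        by_contra hd
        rcases paO_meet h R S hk hd with e | e
        · exact ey k hk e
        · exact ev k hk e)
      exact ⟨h2.2 2 (by norm_num), fun n hn => h2.2 n (by omega)⟩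

/-- the component of the single element is small -/
lemma NJ.join_v (hj : 2 ≤ j) : Small j (topOf : P → Tops P) (topOf v) := by
  obtain ⟨m, x, c, β, B⟩ := NJ.rowB h hj (topOf v)
  rcases B.small h.g.H h.split with h1 | h1
  · exact h1
  · exfalso
    have h2 := Win.Pa.paM_dbl h B h1 (S.lv' h.g.H)
      (mem_cext_of_le h.split (by have := S.lv' h.g.H; omega) rfl)
    have h3 := S.cv
    omega

/-- a join of a double of a component with two stars -/
theorem NJ.join_six (hj : 2 ≤ j) {m : ℕ} {x : ℕ → P} {c : ℕ → ℤ} {β : ℤ}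
    (B : RowB P j (topOf y) m x c β) (hp : Pat6 m c β) : ∀ n, 0 ≤ Ek j K (K2.Tz z) n := by
  have hS := (NJ.HT h hj R).hs
  have hvs := NJ.join_v h R S hj
  obtain ⟨p, hp1, he⟩ := B.dbL_edge h.g.H h.split hp (paO_y h S) rfl
  rw [S.Tz]
  refine hS.nonneg ?_
  intro k hk
  by_cases h1 : topOf k = topOf y
  · refine B.row.sst_nonneg R h.g.H h.split hp hS hp1 ?_ ?_ hk h1
    · rw [← he]
      exact subset_union_left
    · intro s hs hst
      rcases mem_union.1 hs with h2 | h2
      · rw [he, mem_insert, mem_singleton] at h2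
        exact h2
      · exact (S.hk (hst.symm.trans (paO_kv h S s h2))).elim
  · by_cases h2 : topOf k = topOf v
    · rw [R.sst_small hS h.split hvs hk h2, paO_sa_v h R S]
      exact NJ.sa_single h hj R (S.lv' h.g.H) S.cv
    · refine (hS.sst_zero hk ?_).ge
      intro k' hk' hd
      have h3 := star_comp h.g.H h.split R.sub hk' hk hd
      by_contra h4
      rcases paO_meet h R S hk' h4 with e | e
      · exact h1 (h3.symm.trans e)
      · exact h2 (h3.symm.trans e)

/-- THE SIGN OF A JOIN -/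
theorem NJ.join_nonneg (hj : 2 ≤ j)
    (hbad : BadR P j y → sa j (topOf : P → Tops P) K (uc v) (topOf v) = 0) :
    ∀ n, 2 ≤ n → 0 ≤ Ek j K (K2.Tz z) n := by
  obtain ⟨m, x, c, β, B⟩ := NJ.rowB h hj (topOf y)
  by_cases hp : Pat6 m c β
  · exact fun n _ => NJ.join_six h R S hj B hp n
  · have hy : Small j (topOf : P → Tops P) (topOf y) :=
      (B.small h.g.H h.split).resolve_right hp
    obtain ⟨h2, h3⟩ := NJ.join_small h R S hj hy (NJ.join_v h R S hj)
    have h4 := NJ.sa_single h hj R (S.lv' h.g.H) S.cv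
    intro n hn
    rcases Nat.lt_or_ge n 3 with h5 | h5
    · have : n = 2 := by omega
      subst this
      rw [h2]
      by_cases h6 : BadR P j y
      · rw [hbad h6, mul_zero]
      · exact mul_nonneg (B.sa_double h R hp (paO_y h S) rfl h6) h4
    · exact (h3 n h5).ge

/-- the weight of a join -/
theorem NJ.join_one (hj : 2 ≤ j) (hbad : ¬ BadR P j y) : 0 ≤ Ek j K (K2.Tz z) 1 := by
  obtain ⟨m, x, c, β, B⟩ := NJ.rowB h hj (topOf y)
  by_cases hp : Pat6 m c β
  · exact NJ.join_six h R S hj B hp 1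
  · have hS := (NJ.HT h hj R).hs
    rw [S.Tz]
    have hy : Small j (topOf : P → Tops P) (topOf y) :=
      (B.small h.g.H h.split).resolve_right hp
    have hvs := NJ.join_v h R S hj
    refine hS.nonneg ?_ 1
    intro k hk
    by_cases h1 : topOf k = topOf y
    · rw [R.sst_small hS h.split hy hk h1, paO_sa_y h R S]
      exact B.sa_double h R hp (paO_y h S) rfl hbad
    · by_cases h2 : topOf k = topOf v
      · rw [R.sst_small hS h.split hvs hk h2, paO_sa_v h R S]
        exact NJ.sa_single h hj R (S.lv' h.g.H) S.cv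
      · refine (hS.sst_zero hk ?_).ge
        intro k' hk' hd
        have h3 := star_comp h.g.H h.split R.sub hk' hk hd
        by_contra h4
        rcases paO_meet h R S hk' h4 with e | e
        · exact h1 (h3.symm.trans e)
        · exact h2 (h3.symm.trans e)

end join

end Pool.Agent.GaussPoset.EK

end

/-! From `Pool.Agent.W_448fin_h16.FnE` -/

section

/-!
# Final assembly (MP_448cb3_co): from the classes of a row to the case distinction of T6

If the bad level `i + 1` has no lost edge between two double-ups, and nothing hangs at the second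
pair of a rotated row, then every component is as required by T6.
-/

namespace Pool.Agent.GaussPoset.Win

set_option linter.unusedSectionVars false

open Finset

universe u

variable {P : Type u} [Fintype P] [PartialOrder P] [DecidableEq P] {r i j : ℕ} {t : P}
  {lo hi : ℕ → ℕ} {x : ℕ → ℕ → P} {m : ℕ}

/-- in a rotated row at most one element of `PU` hangs at the last pair -/
lemma RotR.thU_le (h : GoodTo P r j) (ht : lev t = 0) {X : ℕ → P} (R : RotR P j t m X) :
    T6N.thU j {X (m - 1), X m} ≤ 1 := by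
  have S := R.row
  have hm := R.hm
  refine thU_le_one h ht (by rw [S.card_wt]; omega) (S.le_t _ (by omega)) ?_
  rw [S.ucv_x (m - 1) m (by omega) le_rfl (by omega)]
  split_ifs <;> omega

/-- what has to be shown about a component with at least four sites of the bad level `j` -/
def RowOK (P : Type u) [Fintype P] [PartialOrder P] [DecidableEq P] (j : ℕ) (t : P) : Prop :=
  4 ≤ (St.wt0 j t).card →
    (∀ v v' : P, lev v = j → lev v' = j → v ≤ t → v' ≤ t → (uc v).card = 2 → (uc v').card = 2 →
      ucv v v' = 1 → dcv v v' = 1) ∧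
    ∀ (m : ℕ) (X : ℕ → P), RotR P j t m X → T6N.thD j {X 1, X 2} = 0

/-- the case distinction of T6 -/
theorem case_row (h : GoodTo P r (i + 1)) (hi1 : 1 ≤ i) (hr : i + 2 ≤ r)
    (hno : ∀ z : P, lev z = i + 2 → ¬ Hul.Jn z) (ht : lev t = 0) (hok : RowOK P (i + 1) t) :
    T6case P (i + 1) t := by
  classical
  obtain ⟨lo, hi, x, C⟩ := comp_exists h ht
  have S := C.rw_row h hi1 ht
  have hlohi := C.lohi (i + 1) le_rfl
  obtain ⟨c, β, hpc, hdef, -, -⟩ := S6_pieces h hi1 hr hno ht C
  set m := hi (i + 1) - lo (i + 1) with hm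
  set X : ℕ → P := fun a => x (i + 1) (lo (i + 1) + a) with hX
  have hcard := S.card_wt
  by_cases h4 : 4 ≤ (St.wt0 (i + 1) t).card
  swap
  · exact Or.inr (Or.inl (by omega))
  have hm3 : 3 ≤ m := by omega
  obtain ⟨hφ, hR⟩ := hok h4
  have f1 := C.lo_le i (by omega)
  have f2 := C.lo_ge i (by omega)
  have f3 := C.hi_le i (by omega)
  have f4 := C.hi_ge i (by omega)
  -- inner elements are double-ups
  have hdb : ∀ a, 1 ≤ a → a < m → (uc (X a)).card = 2 := by
    intro a h1 h2
    show (uc (x (i + 1) (lo (i + 1) + a))).card = 2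
    rw [C.uc_two h ht (k := i) (by omega) (by omega) (by omega)]
    omega
  have hD : ∀ a b, a < b → b ≤ m → Df (i + 1) {X a, X b} =
      if b = a + 1 then c a else if a = 0 ∧ b = m then β else 0 := by
    intro a b hab hb
    rw [Df_pair h.H (S.lev_x a (by omega)) (fun he => by
      have := S.inj a b (by omega) hb he
      omega)]
    have h1 := hdef (lo (i + 1) + a) (lo (i + 1) + b) (by omega) (by omega) (by omega)
    rw [h1]
    by_cases h2 : b = a + 1
    · rw [if_pos (by omega), if_pos h2, show lo (i + 1) + a - lo (i + 1) = a by omega]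
    · rw [if_neg (by omega), if_neg h2]
      exact if_congr (by omega) rfl rfl
  have hc0 : ∀ k, 1 ≤ k → k + 1 < m → c k = 0 := by
    intro k h1 h2
    have e1 := hD k (k + 1) (by omega) (by omega)
    rw [if_pos rfl, Df_pair h.H (S.lev_x k (by omega)) (fun he => by
      have := S.inj k (k + 1) (by omega) (by omega) he
      omega)] at e1
    have e2 := S.ucv_x k (k + 1) (by omega) (by omega) (by omega)
    rw [if_pos (Or.inl rfl)] at e2
    have e3 := hφ (X k) (X (k + 1)) (S.lev_x k (by omega)) (S.lev_x (k + 1) (by omega))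
      (S.le_t k (by omega)) (S.le_t (k + 1) (by omega)) (hdb k h1 (by omega))
      (hdb (k + 1) (by omega) h2) e2
    rw [e2, e3] at e1
    rw [← e1]
    norm_num
  rcases hpc with ⟨p1, p2⟩ | ⟨-, p1, p2, p3⟩ | ⟨-, p1, p2, p3⟩ | ⟨-, -, -, p3, -⟩ |
    ⟨-, -, -, p3, -⟩ | ⟨-, -, -, p3, -⟩ | ⟨p1, -⟩ | ⟨p1, -, -, p3, -⟩
  · -- natural
    left
    rw [natT_iff h.H, S.wt_eq]
    have key : ∀ a b, a < b → b ≤ m → Df (i + 1) {X a, X b} = 0 := by
      intro a b hab hb
      rw [hD a b hab hb, p1]
      split_ifs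
      · exact p2 a (by omega)
      · rfl
      · rfl
    intro u hu w hw huw
    unfold SV at hu hw
    obtain ⟨a, ha, rfl⟩ := mem_image.1 hu
    obtain ⟨b, hb, rfl⟩ := mem_image.1 hw
    rw [mem_range] at ha hb
    rcases Nat.lt_trichotomy a b with h1 | h1 | h1
    · exact key a b h1 (by omega)
    · rw [h1] at huw
      exact absurd rfl huw
    · rw [pair_comm]
      exact key b a h1 (by omega)
  · -- rotation
    have R : RotR P (i + 1) t m X := by
      refine ⟨S, hm3, ?_, ?_, ?_⟩
      · rw [hD 0 m (by omega) le_rfl, if_neg (by omega), if_pos ⟨rfl, rfl⟩, p1]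
      · rw [hD 0 1 (by omega) (by omega), if_pos rfl, p2]
      · intro k h1 h2
        rw [hD k (k + 1) (by omega) (by omega), if_pos rfl]
        exact p3 k h1 h2
    exact Or.inr (Or.inr ⟨m, X, R, hR m X R, R.thU_le h ht⟩)
  · -- the mirror image
    have R : RotR P (i + 1) t m (fun a => X (m - a)) := by
      refine ⟨S.rev, hm3, ?_, ?_, ?_⟩
      · show Df (i + 1) {X (m - 0), X (m - m)} = 1
        rw [Nat.sub_zero, Nat.sub_self, pair_comm, hD 0 m (by omega) le_rfl, if_neg (by omega),
          if_pos ⟨rfl, rfl⟩, p1]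
      · show Df (i + 1) {X (m - 0), X (m - 1)} = -1
        rw [Nat.sub_zero, pair_comm, hD (m - 1) m (by omega) le_rfl, if_pos (by omega), p2]
      · intro k h1 h2
        show Df (i + 1) {X (m - k), X (m - (k + 1))} = 0
        rw [pair_comm, hD (m - (k + 1)) (m - k) (by omega) (by omega), if_pos (by omega)]
        exact p3 (m - (k + 1)) (by omega)
    exact Or.inr (Or.inr ⟨m, fun a => X (m - a), R, hR m _ R, R.thU_le h ht⟩)
  · have := hc0 1 le_rfl (by omega)
    omega
  · have := hc0 (m - 2) (by omega) (by omega)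
    omega
  · have := hc0 1 le_rfl (by omega)
    omega
  · omega
  · have := hc0 1 le_rfl (by omega)
    omega

end Pool.Agent.GaussPoset.Win

end

/-! From `Pool.Agent.W_448fin_h16.FnF` -/

section

/-!
# Final assembly (MP_448cb3_co): the open input of case B in terms of the rows of the level `j`
-/

namespace Pool.Agent.GaussPoset.EK

set_option linter.unusedSectionVars false

open Finset Win St Polynomial Wd

universe u

variable {P : Type u} [Fintype P] [PartialOrder P] [DecidableEq P] {r i j : ℕ}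

variable {m : ℕ} {x : ℕ → P} {c : ℕ → ℤ} {β : ℤ} {t : Tops P}

lemma RowB.topOf_iff (h : NJ P r j) {v : P} (hl : lev v = j) : topOf v = t ↔ v ≤ (t : P) := by
  constructor
  · rintro rfl
    exact le_topOf v
  · intro hv
    refine Subtype.ext ?_
    exact Hul.top_unique (h.nj (by omega)) (topOf v).2 t.2 (le_topOf v) hv

lemma RowB.card_wt (h : NJ P r j) (R : RowB P j t m x c β) : (St.wt0 j (t : P)).card = m + 1 := by
  classical
  have e : St.wt0 j (t : P) = (range (m + 1)).image x := by
    ext v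
    rw [St.mem_wt0, mem_image]
    constructor
    · rintro ⟨h1, h2⟩
      obtain ⟨k, hk, hkv⟩ := R.row.surj v h1 ((RowB.topOf_iff h h1).2 h2)
      exact ⟨k, by rw [mem_range]; omega, hkv⟩
    · rintro ⟨k, hk, rfl⟩
      rw [mem_range] at hk
      exact ⟨R.row.lev_x k (by omega),
        (RowB.topOf_iff h (R.row.lev_x k (by omega))).1 (R.row.kap k (by omega))⟩
  rw [e, card_image_of_injOn, card_range]
  intro a ha b hb hab
  rw [mem_coe, mem_range] at ha hb
  exact R.row.inj a b (by omega) (by omega) hab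

lemma RowB.ucv_sym (R : RowB P j t m x c β) {a b : ℕ} (ha : a ≤ m) (hb : b ≤ m) (hab : a ≠ b) :
    ucv (x a) (x b) = if a + 1 = b ∨ b + 1 = a then 1 else 0 := by
  rcases Nat.lt_or_ge a b with h1 | h1
  · rw [R.ucv_x a b h1 hb]
    exact if_congr (by omega) rfl rfl
  · rw [StB_ucv_comm, R.ucv_x b a (by omega) ha]
    exact if_congr (by omega) rfl rfl

/-- THE OPEN INPUT of case B in terms of the rows: no double edge at an end of a row with at least
four sites, and nothing hangs at the second pair of a rotated row -/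
theorem rowOK_of (h : NJ P r j) (hj : 2 ≤ j) (t : Tops P)
    (hR : ∀ (m : ℕ) (x : ℕ → P) (c : ℕ → ℤ) (β : ℤ), RowB P j t m x c β → 3 ≤ m →
      c 0 ≠ 1 ∧ c (m - 1) ≠ 1 ∧
        (β = 1 → c 0 = -1 → T6N.thD j {x 1, x 2} = 0) ∧
        (β = 1 → c (m - 1) = -1 → T6N.thD j {x (m - 1), x (m - 2)} = 0)) :
    RowOK P j (t : P) := by
  classical
  intro h4
  obtain ⟨m, x, c, β, R⟩ := NJ.rowB h hj t
  have hm := R.card_wt h
  have hm3 : 3 ≤ m := by omega
  obtain ⟨g1, g2, g3, g4⟩ := hR m x c β R hm3
  have hD := R.row.df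
  have H := h.g.H
  -- the inner edges are not lost
  have hc0 : ∀ k, 1 ≤ k → k + 1 < m → c k = 0 := by
    intro k k1 k2
    rcases R.pat with ⟨p1, p2⟩ | ⟨-, p1, p2, p3⟩ | ⟨-, p1, p2, p3⟩ | ⟨-, -, p3, -⟩ |
      ⟨-, -, p3, -⟩ | ⟨-, -, p3, -⟩ | ⟨p1, -⟩ | ⟨p1, -, p3, -⟩
    · exact p2 k (by omega)
    · exact p3 k k1 (by omega)
    · exact p3 k k2
    · exact absurd p3 g1
    · exact absurd p3 g2
    · exact absurd p3 g1
    · omega
    · exact absurd p3 g1
  refine ⟨?_, ?_⟩
  · intro v v' hv hv' hvt hvt' hu hu' huc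
    obtain ⟨a, ha, rfl⟩ := R.row.surj v hv ((RowB.topOf_iff h hv).2 hvt)
    obtain ⟨b, hb, rfl⟩ := R.row.surj v' hv' ((RowB.topOf_iff h hv').2 hvt')
    have hab : a ≠ b := by
      rintro rfl
      unfold ucv at huc
      rw [show (univ.filter fun w => x a ⋖ w ∧ x a ⋖ w) = uc (x a) by
        ext w
        simp [mem_uc], hu] at huc
      omega
    have e0 := R.ucv_sym ha hb hab
    rw [e0] at huc
    have hadj : a + 1 = b ∨ b + 1 = a := by
      by_contra hcon
      rw [if_neg hcon] at huc
      omega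
    -- the end edges of a rotated row contain a single-up
    have key : ∀ k, k + 1 ≤ m → (uc (x k)).card = 2 → (uc (x (k + 1))).card = 2 →
        dcv (x k) (x (k + 1)) = 1 := by
      intro k hk hk1 hk2
      have hne : x k ≠ x (k + 1) := fun q => by
        have := R.row.inj k (k + 1) (by omega) hk q
        omega
      have e1 := hD k (k + 1) (by omega) hk
      rw [if_pos rfl, Df_pair H (R.row.lev_x k (by omega)) hne,
        R.ucv_x k (k + 1) (by omega) hk, if_pos rfl] at e1
      have hck : c k = 0 := by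
        by_cases hk0 : k = 0
        · subst hk0
          rcases R.pat with ⟨p1, p2⟩ | ⟨-, p1, p2, p3⟩ | ⟨-, p1, p2, p3⟩ | ⟨-, -, p3, -⟩ |
            ⟨-, -, p3, p4, p5⟩ | ⟨-, -, p3, -⟩ | ⟨p1, -⟩ | ⟨p1, -, p3, -⟩
          · exact p2 0 (by omega)
          · have := (R.ends (by omega)).1
            omega
          · exact p3 0 (by omega)
          · exact absurd p3 g1
          · exact absurd p3 g2
          · exact absurd p3 g1
          · omega
          · exact absurd p3 g1
        · by_cases hkm : k + 1 = m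
          · rcases R.pat with ⟨p1, p2⟩ | ⟨-, p1, p2, p3⟩ | ⟨-, p1, p2, p3⟩ | ⟨-, -, p3, -⟩ |
              ⟨-, -, p3, p4, p5⟩ | ⟨-, -, p3, -⟩ | ⟨p1, -⟩ | ⟨p1, -, p3, -⟩
            · exact p2 k (by omega)
            · exact p3 k (by omega) (by omega)
            · have := (R.ends (by omega)).2
              rw [← hkm] at this
              omega
            · exact absurd p3 g1
            · exact absurd p3 g2
            · exact absurd p3 g1
            · omega
            · exact absurd p3 g1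
          · exact hc0 k (by omega) (by omega)
      rw [hck] at e1
      have : (dcv (x k) (x (k + 1)) : ℤ) = 1 := by
        push_cast at e1
        linarith
      exact_mod_cast this
    rcases hadj with rfl | rfl
    · exact key a hb hu hu'
    · rw [StB_dcv_comm]
      exact key b ha hu' hu
  · intro m' X S
    -- the rotated row is `x` or its mirror image
    have hwt := S.row.card_wt
    have hmm : m' = m := by omega
    subst hmm
    have hs : ∀ a, a ≤ m' → ∃ b, b ≤ m' ∧ x b = X a := fun a ha => by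
      have h1 := S.row.lev_x a ha
      exact R.row.surj (X a) h1 ((RowB.topOf_iff h h1).2 (S.row.le_t a ha))
    have adj : ∀ a a' b b', a ≤ m' → a' ≤ m' → b ≤ m' → b' ≤ m' → x b = X a → x b' = X a' →
        ((a + 1 = a' ∨ a' + 1 = a) ↔ (b + 1 = b' ∨ b' + 1 = b)) := by
      intro a a' b b' ha ha' hb hb' e e'
      by_cases hne : a = a'
      · subst hne
        have : b = b' := R.row.inj b b' hb hb' (e.trans e'.symm)
        constructor <;> intro h <;> omega
      · have hne' : b ≠ b' := fun hbb => hne (S.row.inj a a' ha ha' (by rw [← e, ← e', hbb]))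
        have h1 := S.row.ucv_x a a' ha ha' hne
        have h2 := R.ucv_sym hb hb' hne'
        rw [e, e', h1] at h2
        constructor
        · intro h3
          rw [if_pos h3] at h2
          by_contra hcon
          rw [if_neg hcon] at h2
          exact absurd h2 (by norm_num)
        · intro h3
          rw [if_pos h3] at h2
          by_contra hcon
          rw [if_neg hcon] at h2
          exact absurd h2 (by norm_num)
    obtain ⟨b0, hb0, e0⟩ := hs 0 (by omega)
    obtain ⟨b1, hb1, e1⟩ := hs 1 (by omega)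
    obtain ⟨b2, hb2, e2⟩ := hs 2 (by omega)
    obtain ⟨bm, hbm, em⟩ := hs m' le_rfl
    have s1 := (adj 0 1 b0 b1 (by omega) (by omega) hb0 hb1 e0 e1).1 (by omega)
    have s2 := (adj 1 2 b1 b2 (by omega) (by omega) hb1 hb2 e1 e2).1 (by omega)
    have n02 : b0 ≠ b2 := by
      rintro rfl
      have := S.row.inj 0 2 (by omega) (by omega) (e0.symm.trans e2)
      omega
    have n0m : b0 ≠ bm := by
      rintro rfl
      have := S.row.inj 0 m' (by omega) le_rfl (e0.symm.trans em)
      omega
    have n01 : b0 ≠ b1 := by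
      rintro rfl
      have := S.row.inj 0 1 (by omega) (by omega) (e0.symm.trans e1)
      omega
    -- the new pair
    have hnew := S.new
    rw [← e0, ← em] at hnew
    have hlost := S.lost
    rw [← e0, ← e1] at hlost
    have D0 : ∀ a b, a ≤ m' → b ≤ m' → a ≠ b → Df j {x a, x b} =
        if b = a + 1 then c a else if a = b + 1 then c b else
          if (a = 0 ∧ b = m') ∨ (a = m' ∧ b = 0) then β else 0 := by
      intro a b ha hb hab
      rcases Nat.lt_or_ge a b with h1 | h1
      · rw [hD a b h1 hb]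
        by_cases h2 : b = a + 1
        · rw [if_pos h2, if_pos h2]
        · rw [if_neg h2, if_neg h2, if_neg (show ¬ a = b + 1 by omega)]
          exact if_congr (by omega) rfl rfl
      · rw [pair_comm, hD b a (by omega) ha, if_neg (show ¬ b = a + 1 by omega)]
        by_cases h2 : a = b + 1
        · rw [if_pos h2, if_pos h2]
        · rw [if_neg h2, if_neg h2]
          exact if_congr (by omega) rfl rfl
    rw [D0 b0 bm hb0 hbm n0m] at hnew
    rw [D0 b0 b1 hb0 hb1 n01] at hlost
    have hc1 : ∀ k, k < m' → c k ≠ 1 := by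
      intro k hk
      by_cases k0 : k = 0
      · rw [k0]; exact g1
      · by_cases km : k + 1 = m'
        · rw [show k = m' - 1 by omega]; exact g2
        · rw [hc0 k (by omega) (by omega)]
          norm_num
    have hends : (b0 = 0 ∧ bm = m') ∨ (b0 = m' ∧ bm = 0) := by
      by_contra hcon
      by_cases q1 : bm = b0 + 1
      · rw [if_pos q1] at hnew
        exact hc1 b0 (by omega) hnew
      · rw [if_neg q1] at hnew
        by_cases q2 : b0 = bm + 1
        · rw [if_pos q2] at hnew
          exact hc1 bm (by omega) hnew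
        · rw [if_neg q2, if_neg hcon] at hnew
          exact absurd hnew (by norm_num)
    rcases hends with ⟨q1, q2⟩ | ⟨q1, q2⟩
    · subst q1
      rw [if_neg (show ¬ bm = 0 + 1 by omega), if_neg (show ¬ 0 = bm + 1 by omega),
        if_pos (Or.inl ⟨rfl, q2⟩)] at hnew
      have r1 : b1 = 1 := by omega
      have r2 : b2 = 2 := by omega
      rw [r1, if_pos rfl] at hlost
      rw [← e1, ← e2, r1, r2]
      exact g3 hnew hlost
    · rw [if_neg (show ¬ bm = b0 + 1 by omega), if_neg (show ¬ b0 = bm + 1 by omega),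
        if_pos (Or.inr ⟨q1, q2⟩)] at hnew
      have r1 : b1 = m' - 1 := by omega
      have r2 : b2 = m' - 2 := by omega
      rw [if_neg (show ¬ b1 = b0 + 1 by omega), if_pos (show b0 = b1 + 1 by omega), r1] at hlost
      rw [← e1, ← e2, r1, r2]
      exact g4 hnew hlost

end Pool.Agent.GaussPoset.EK

end
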