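import Mathlib
import Pool.Agent.W_448zz_h61.Ns
import Pool.Agent.W_448zz_h61.M148
import Pool.Agent.W_448zz_h61.M163
import Pool.Agent.W_448zz_h61.M170

/-! From `Pool.Agent.W_448t8_h97.TD` -/

section

/-!
Window `j - 1` (MP_448cb3_co, case B): the environment number of a join of two pendants as a sum over
the pendants; the pairs of joins.
-/

set_option autoImplicit false

namespace Pool.Agent.GaussPoset.Win.Pn

set_option linter.unusedSectionVars false

open Finset W4 Wd
open Pool.Agent.GaussPoset.Win.SO (con PN on mem_PN vp)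
open Pool.Agent.GaussPoset.Win.I2 (bb VV)
open Pool.Agent.GaussPoset.Win.So (N5s Z2s mem_Z2s env chs nLs nUs Sv Cn TWs mem_TWs)

universe u

variable {P : Type u} [Fintype P] [PartialOrder P] [DecidableEq P] {r i : ℕ}
  {psi : P → P} {C : Finset P} {p p' y y' w z v x : P}

variable {ι : Type*} [DecidableEq ι] {κ : P → ι}

section env

variable (H : Gr P r) (hκ : Split (i + 2) κ)
include H hκ

lemma ZD_sit (D : So.ZD i κ v p p' y y') : sit i p = uc y :=
  sit_PDs H (mem_PD.2 ⟨D.lp H, by rw [D.hp, card_singleton], y, D.yp, D.c⟩) D.hp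

lemma ZD_sit' (D : So.ZD i κ v p p' y y') : sit i p' = uc y' :=
  sit_PDs H (mem_PD.2 ⟨D.lp' H, by rw [D.hp', card_singleton], y', D.yp', D.c'⟩) D.hp'

lemma ZD_kap (D : So.ZD i κ v p p' y y') {s : P} (hs : s ∈ uc y) : κ s = κ p := by
  have l1 := D.lp H
  have l2 := D.ly H
  have h1 : κ y = κ s := hκ (mem_uc.1 hs) (by omega)
  have h2 : κ p = κ y := hκ D.yp (by omega)
  rw [h2, h1]

lemma ZD_kap' (D : So.ZD i κ v p p' y y') {s : P} (hs : s ∈ uc y') : κ s = κ p' := by
  have l1 := D.lp' H
  have l2 := D.ly' H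
  have h1 : κ y' = κ s := hκ (mem_uc.1 hs) (by omega)
  have h2 : κ p' = κ y' := hκ D.yp' (by omega)
  rw [h2, h1]

lemma nLs_split (D : So.ZD i κ v p p' y y') :
    ((nLs i v).card : ℤ) = (nLp i p).card + (nLp i p').card := by
  classical
  have h1 : nLs i v = nLp i p ∪ nLp i p' := by
    ext w
    rw [mem_union, mem_nLp, mem_nLp, ZD_sit H hκ D, ZD_sit' H hκ D]
    unfold So.nLs
    rw [mem_filter, D.sv H, disjoint_union_right]
    simp only [mem_univ, true_and]
    tauto
  rw [h1, card_union_of_disjoint, Nat.cast_add]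
  rw [disjoint_left]
  intro w hw hw'
  rw [mem_nLp, ZD_sit H hκ D] at hw
  rw [mem_nLp, ZD_sit' H hκ D] at hw'
  obtain ⟨l1, h2⟩ := hw
  obtain ⟨-, h3⟩ := hw'
  obtain ⟨s, hs1, hs2⟩ := not_disjoint_iff.1 h2
  obtain ⟨s', hs1', hs2'⟩ := not_disjoint_iff.1 h3
  have k1 : κ w = κ s := hκ (mem_uc.1 hs1) (by omega)
  have k2 : κ w = κ s' := hκ (mem_uc.1 hs1') (by omega)
  rw [ZD_kap H hκ D hs2] at k1
  rw [ZD_kap' H hκ D hs2'] at k2
  exact D.ne (k1.symm.trans k2)

lemma nUs_split (D : So.ZD i κ v p p' y y') :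
    ((nUs i v).card : ℤ) = (nUp i p).card + (nUp i p').card := by
  classical
  have h1 : nUs i v = nUp i p ∪ nUp i p' := by
    ext w
    rw [mem_union, mem_nUp, mem_nUp, ZD_sit H hκ D, ZD_sit' H hκ D]
    unfold So.nUs
    rw [mem_filter, D.sv H, disjoint_union_right]
    simp only [mem_univ, true_and]
    tauto
  rw [h1, card_union_of_disjoint, Nat.cast_add]
  rw [disjoint_left]
  intro w hw hw'
  rw [mem_nUp, ZD_sit H hκ D] at hw
  rw [mem_nUp, ZD_sit' H hκ D] at hw'
  obtain ⟨l1, h2⟩ := hw
  obtain ⟨-, h3⟩ := hw'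
  obtain ⟨s, hs1, hs2⟩ := not_disjoint_iff.1 h2
  obtain ⟨s', hs1', hs2'⟩ := not_disjoint_iff.1 h3
  have a1 := lev_dc H hs1
  have a2 := lev_dc H hs1'
  have k1 : κ s = κ w := hκ (mem_dc.1 hs1) (by omega)
  have k2 : κ s' = κ w := hκ (mem_dc.1 hs1') (by omega)
  rw [ZD_kap H hκ D hs2] at k1
  rw [ZD_kap' H hκ D hs2'] at k2
  exact D.ne (k1.trans k2.symm)

/-- the private elements of the environment -/
lemma chs_split (hone : ∀ p ∈ PD P i, ∀ q ∈ PD P i, κ p = κ q → p = q)
    (D : So.ZD i κ v p p' y y') :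
    ((chs i v).card : ℤ) = kc p + kc p' + kc v + (tw i κ v).card := by
  classical
  have lv := D.lv
  have lp := D.lp H
  have lp' := D.lp' H
  have ly := D.ly H
  have ly' := D.ly' H
  have huv : uc v = {p, p'} := D.cov
  have hpp : p ≠ p' := by
    rintro rfl
    exact D.ne rfl
  have hcn := D.cn H
  have hpD : p ∈ PD P i := mem_PD.2 ⟨lp, by rw [D.hp, card_singleton], y, D.yp, D.c⟩
  have hpD' : p' ∈ PD P i := mem_PD.2 ⟨lp', by rw [D.hp', card_singleton], y', D.yp', D.c'⟩
  have h1 : chs i v = ((ks p ∪ ks p') ∪ ks v) ∪ tw i κ v := by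
    ext x
    rw [mem_union, mem_union, mem_union, mem_ks, mem_ks, mem_ks, mem_tw]
    unfold So.chs
    rw [mem_filter, hcn]
    simp only [mem_univ, true_and]
    constructor
    · rintro ⟨hl, hx, hsub⟩
      obtain ⟨a, ha⟩ := uc_nonempty H (x := x) (by omega)
      have la := lev_uc H ha
      have hlt : lev x ≤ i + 4 := by
        by_contra hc
        have := hsub ha
        simp only [mem_insert, mem_singleton] at this
        rcases this with rfl | rfl | rfl | rfl | rfl <;> omega
      have hcase : lev x = i + 2 ∨ lev x = i + 3 ∨ lev x = i + 4 := by omega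
      rcases hcase with h2 | h2 | h2
      · -- another pendant
        exfalso
        have hin : ∀ b ∈ uc x, b = y ∨ b = y' := by
          intro b hb
          have lb := lev_uc H hb
          have := hsub hb
          simp only [mem_insert, mem_singleton] at this
          rcases this with rfl | rfl | rfl | rfl | rfl
          · omega
          · omega
          · omega
          · exact Or.inl rfl
          · exact Or.inr rfl
        have hky : κ y = κ p := (hκ D.yp (by omega)).symm
        have hky' : κ y' = κ p' := (hκ D.yp' (by omega)).symm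
        have hkx : ∀ b ∈ uc x, κ x = κ b := fun b hb => hκ (mem_uc.1 hb) (by omega)
        rcases hin a ha with rfl | rfl
        · have hu : uc x = {a} := by
            ext b
            rw [mem_singleton]
            constructor
            · intro hb
              rcases hin b hb with h3 | h3
              · exact h3
              · exfalso
                have k1 := hkx a ha
                have k2 := hkx b hb
                rw [h3] at k2
                exact D.ne (by rw [← hky, ← k1, k2, hky'])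
            · rintro rfl
              exact ha
          have hxD : x ∈ PD P i := mem_PD.2 ⟨h2, by rw [hu, card_singleton], a, mem_uc.1 ha, D.c⟩
          have := hone x hxD p hpD (by rw [hkx a ha, hky])
          exact hx (by rw [this]; simp)
        · have hu : uc x = {a} := by
            ext b
            rw [mem_singleton]
            constructor
            · intro hb
              rcases hin b hb with h3 | h3
              · exfalso
                have k1 := hkx a ha
                have k2 := hkx b hb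
                rw [h3] at k2
                exact D.ne (by rw [← hky', ← k1, k2, hky])
              · exact h3
            · rintro rfl
              exact ha
          have hxD : x ∈ PD P i := mem_PD.2 ⟨h2, by rw [hu, card_singleton], a, mem_uc.1 ha, D.c'⟩
          have := hone x hxD p' hpD' (by rw [hkx a ha, hky'])
          exact hx (by rw [this]; simp)
      · -- over the pendants
        have hin : ∀ b ∈ uc x, b = p ∨ b = p' := by
          intro b hb
          have lb := lev_uc H hb
          have := hsub hb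
          simp only [mem_insert, mem_singleton] at this
          rcases this with rfl | rfl | rfl | rfl | rfl
          · omega
          · exact Or.inl rfl
          · exact Or.inr rfl
          · omega
          · omega
        by_cases q : p ∈ uc x
        · by_cases q' : p' ∈ uc x
          · right
            have hu : uc x = {p, p'} := by
              ext b
              rw [mem_insert, mem_singleton]
              constructor
              · exact hin b
              · rintro (rfl | rfl)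
                · exact q
                · exact q'
            have hxv : x ≠ v := by
              rintro rfl
              exact hx (by simp)
            refine ⟨?_, hxv, by rw [hu, huv]⟩
            rw [X3_Z2s H hκ]
            refine ⟨mem_X3.2 ⟨h2, ?_⟩, ?_⟩
            · intro hxc
              unfold cuni at hxc
              rw [mem_biUnion] at hxc
              obtain ⟨a', -, hxa⟩ := hxc
              have e1 := mem_cext.1 hxa p (mem_uc.1 q).le (by omega)
              have e2 := mem_cext.1 hxa p' (mem_uc.1 q').le (by omega)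
              exact D.ne (e1.trans e2.symm)
            · intro b hb
              rcases hin b hb with rfl | rfl
              · exact hpD
              · exact hpD'
          · left; left; left
            ext b
            rw [mem_singleton]
            constructor
            · intro hb
              rcases hin b hb with h3 | h3
              · exact h3
              · rw [h3] at hb; exact absurd hb q'
            · rintro rfl
              exact q
        · left; left; right
          ext b
          rw [mem_singleton]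
          constructor
          · intro hb
            rcases hin b hb with h3 | h3
            · rw [h3] at hb; exact absurd hb q
            · exact h3
          · rintro rfl
            rcases hin a ha with h3 | h3
            · rw [h3] at ha; exact absurd ha q
            · rw [h3] at ha; exact ha
      · left; right
        ext b
        rw [mem_singleton]
        have hin : ∀ b ∈ uc x, b = v := by
          intro b hb
          have lb := lev_uc H hb
          have := hsub hb
          simp only [mem_insert, mem_singleton] at this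
          rcases this with rfl | rfl | rfl | rfl | rfl
          · rfl
          · omega
          · omega
          · omega
          · omega
        constructor
        · exact hin b
        · rintro rfl
          rw [← hin a ha]
          exact ha
    · have base : ∀ {b : P}, x ≠ v → b ∈ uc x → (b = p ∨ b = p') → i + 1 < lev x ∧
          ¬ (x = v ∨ x = p ∨ x = p' ∨ x = y ∨ x = y') := by
        intro b hxv hb hbp
        have lx := lev_uc H hb
        have lb : lev b = i + 2 := by
          rcases hbp with rfl | rfl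
          · exact lp
          · exact lp'
        refine ⟨by omega, ?_⟩
        rintro (rfl | rfl | rfl | rfl | rfl)
        · exact hxv rfl
        · omega
        · omega
        · omega
        · omega
      rintro (((hu | hu) | hu) | ⟨hz, hne, hu⟩)
      · have hxv : x ≠ v := by
          rintro rfl
          rw [huv] at hu
          have := card_pair hpp
          rw [hu, card_singleton] at this
          omega
        have b1 := base hxv (b := p) (by rw [hu]; simp) (Or.inl rfl)
        refine ⟨b1.1, ?_, ?_⟩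
        · simpa only [mem_insert, mem_singleton] using b1.2
        · rw [hu]; simp
      · have hxv : x ≠ v := by
          rintro rfl
          rw [huv] at hu
          have := card_pair hpp
          rw [hu, card_singleton] at this
          omega
        have b1 := base hxv (b := p') (by rw [hu]; simp) (Or.inr rfl)
        refine ⟨b1.1, ?_, ?_⟩
        · simpa only [mem_insert, mem_singleton] using b1.2
        · rw [hu]; simp
      · have lx := lev_uc H (show v ∈ uc x by rw [hu]; simp)
        refine ⟨by omega, ?_, ?_⟩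
        · simp only [mem_insert, mem_singleton]
          rintro (rfl | rfl | rfl | rfl | rfl) <;> omega
        · rw [hu]; simp
      · have b1 := base hne (b := p) (by rw [hu, huv]; simp) (Or.inl rfl)
        refine ⟨b1.1, ?_, ?_⟩
        · simpa only [mem_insert, mem_singleton] using b1.2
        · rw [hu, huv]
          intro b hb
          rw [mem_insert, mem_singleton] at hb
          rcases hb with rfl | rfl <;> simp
  rw [h1, card_union_of_disjoint, card_union_of_disjoint, card_union_of_disjoint]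
  · unfold kc
    push_cast
    ring
  · rw [disjoint_left]
    intro x hx hx'
    rw [mem_ks] at hx hx'
    rw [hx] at hx'
    exact hpp (singleton_injective hx')
  · rw [disjoint_left]
    intro x hx hx'
    rw [mem_union, mem_ks, mem_ks] at hx
    rw [mem_ks] at hx'
    rcases hx with hx | hx
    · rw [hx] at hx'
      have := singleton_injective hx'
      rw [this] at lp
      omega
    · rw [hx] at hx'
      have := singleton_injective hx'
      rw [this] at lp'
      omega
  · rw [disjoint_left]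
    intro x hx hx'
    rw [mem_union, mem_union, mem_ks, mem_ks, mem_ks] at hx
    obtain ⟨-, -, hu⟩ := mem_tw.1 hx'
    have h2 : (uc x).card = 2 := by rw [hu, huv, card_pair hpp]
    rcases hx with (hx | hx) | hx <;> rw [hx, card_singleton] at h2 <;> omega

/-- THE ENVIRONMENT NUMBER -/
theorem env_split (hone : ∀ p ∈ PD P i, ∀ q ∈ PD P i, κ p = κ q → p = q) (hv : v ∈ Z2s i κ) :
    env i v = ∑ p ∈ uc v, (kc p + nn i p - 3) + kc v + (tw i κ v).card := by
  obtain ⟨p, p', y, y', D, hu, hne⟩ := Z2s_pair H hκ hv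
  rw [hu, Finset.sum_pair hne]
  unfold So.env
  rw [chs_split H hκ hone D, nLs_split H hκ D, nUs_split H hκ D]
  unfold nn
  ring

/-- twins -/
lemma sum_tw : ∑ v ∈ Z2s i κ, ((tw i κ v).card : ℤ) = ((TWs i κ).card : ℤ) := by
  classical
  rw [← Nat.cast_sum]
  congr 1
  have : TWs i κ = (Z2s i κ).biUnion (fun v => (tw i κ v).image (fun x => (v, x))) := by
    ext ⟨a, b⟩
    rw [mem_TWs, mem_biUnion]
    constructor
    · rintro ⟨h1, h2, h3, h4⟩
      exact ⟨a, h1, mem_image.2 ⟨b, mem_tw.2 ⟨h2, Ne.symm h3, h4.symm⟩, rfl⟩⟩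
    · rintro ⟨v, hv, h⟩
      obtain ⟨x, hx, he⟩ := mem_image.1 h
      obtain ⟨h1, h2, h3⟩ := mem_tw.1 hx
      simp only [Prod.mk.injEq] at he
      obtain ⟨rfl, rfl⟩ := he
      exact ⟨hv, h1, Ne.symm h2, h3.symm⟩
  rw [this, card_biUnion]
  · refine Finset.sum_congr rfl fun v _ => ?_
    rw [card_image_of_injective]
    intro a b hab
    simpa using hab
  · intro v _ v' _ hne
    simp only [Function.onFun]
    rw [disjoint_left]
    intro q hq hq'
    obtain ⟨x, -, rfl⟩ := mem_image.1 hq
    obtain ⟨x', -, he⟩ := mem_image.1 hq'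
    simp only [Prod.mk.injEq] at he
    exact hne he.1.symm

/-- THE SUM OF THE ENVIRONMENT NUMBERS -/
theorem sum_env (hone : ∀ p ∈ PD P i, ∀ q ∈ PD P i, κ p = κ q → p = q) :
    ∑ v ∈ Z2s i κ, env i v = ∑ p ∈ PD P i, zc i κ p * (kc p + nn i p - 3) +
      ∑ v ∈ Z2s i κ, kc v + ((TWs i κ).card : ℤ) := by
  rw [← sum_zc H hκ, ← sum_tw H hκ, ← sum_add_distrib, ← sum_add_distrib]
  exact Finset.sum_congr rfl fun v hv => env_split H hκ hone hv

end env

end Pool.Agent.GaussPoset.Win.Pn

end

/-! From `Pool.Agent.W_448t8_h97.TE` -/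

section

/-!
Window `j - 1` (MP_448cb3_co, case B): the pairs of joins of two pendants.
-/

set_option autoImplicit false

namespace Pool.Agent.GaussPoset.Win.Pn

set_option linter.unusedSectionVars false

open Finset W4 Wd
open Pool.Agent.GaussPoset.Win.SO (con PN on mem_PN vp)
open Pool.Agent.GaussPoset.Win.I2 (bb VV)
open Pool.Agent.GaussPoset.Win.So (N5s Z2s mem_Z2s env chs nLs nUs Sv Cn TWs mem_TWs)

universe u

variable {P : Type u} [Fintype P] [PartialOrder P] [DecidableEq P] {r i j : ℕ}
  {psi : P → P} {C : Finset P} {p p' y y' w z v x : P}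

/-- ordered and unordered pairs -/
lemma two_pairs {α : Type*} [DecidableEq α] (S : Finset α) (Q : Finset α → Prop)
    [DecidablePred Q] : (S.offDiag.filter (fun q => Q {q.1, q.2})).card =
      2 * ((S.powersetCard 2).filter Q).card := by
  classical
  have hm : ∀ q ∈ S.offDiag.filter (fun q => Q {q.1, q.2}),
      ({q.1, q.2} : Finset α) ∈ (S.powersetCard 2).filter Q := by
    intro q hq
    rw [mem_filter, mem_offDiag] at hq
    rw [mem_filter, mem_powersetCard]
    refine ⟨⟨?_, card_pair hq.1.2.2⟩, hq.2⟩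
    intro a ha
    rw [mem_insert, mem_singleton] at ha
    rcases ha with rfl | rfl
    · exact hq.1.1
    · exact hq.1.2.1
  rw [Finset.card_eq_sum_card_fiberwise (f := fun q : α × α => ({q.1, q.2} : Finset α))
    (t := (S.powersetCard 2).filter Q) hm]
  rw [Finset.sum_const_nat (m := 2), mul_comm]
  intro s hs
  rw [mem_filter, mem_powersetCard] at hs
  obtain ⟨⟨h1, h2⟩, h3⟩ := hs
  obtain ⟨a, b, hab, rfl⟩ := card_eq_two.1 h2
  have ha : a ∈ S := h1 (by simp)
  have hb : b ∈ S := h1 (by simp)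
  have : (S.offDiag.filter (fun q => Q {q.1, q.2})).filter
      (fun q : α × α => ({q.1, q.2} : Finset α) = {a, b}) = {(a, b), (b, a)} := by
    ext ⟨c, d⟩
    rw [mem_filter, mem_filter, mem_offDiag, mem_insert, mem_singleton, Prod.mk.injEq,
      Prod.mk.injEq]
    simp only
    constructor
    · rintro ⟨⟨⟨k1, k2, k3⟩, -⟩, k4⟩
      have e1 : c ∈ ({a, b} : Finset α) := by rw [← k4]; simp
      have e2 : d ∈ ({a, b} : Finset α) := by rw [← k4]; simp
      rw [mem_insert, mem_singleton] at e1 e2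
      rcases e1 with rfl | rfl <;> rcases e2 with rfl | rfl
      · exact absurd rfl k3
      · exact Or.inl ⟨rfl, rfl⟩
      · exact Or.inr ⟨rfl, rfl⟩
      · exact absurd rfl k3
    · rintro (⟨rfl, rfl⟩ | ⟨rfl, rfl⟩)
      · exact ⟨⟨⟨ha, hb, hab⟩, h3⟩, rfl⟩
      · refine ⟨⟨⟨hb, ha, hab.symm⟩, ?_⟩, pair_comm _ _⟩
        rw [pair_comm]
        exact h3
  rw [this, card_pair]
  intro h
  exact hab (Prod.mk.injEq .. ▸ h).1

variable {ι : Type*} [DecidableEq ι] {κ : P → ι}

section pr

variable (H : Gr P r) (hκ : Split (i + 2) κ)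
include H hκ

/-- the pairs of joins through a pendant -/
theorem sum_offDiag : ∑ p ∈ PD P i, zc i κ p * (zc i κ p - 1) =
    ∑ q ∈ (Z2s i κ).offDiag, ((uc q.1 ∩ uc q.2).card : ℤ) := by
  classical
  have h1 : ∀ q ∈ (Z2s i κ).offDiag, ((uc q.1 ∩ uc q.2).card : ℤ) =
      ∑ p ∈ uc q.1 ∩ uc q.2, (1 : ℤ) := by
    intro q _
    rw [sum_const, nsmul_eq_mul, mul_one]
  rw [Finset.sum_congr rfl h1]
  have h2 : ∑ q ∈ (Z2s i κ).offDiag, ∑ p ∈ uc q.1 ∩ uc q.2, (1 : ℤ) =
      ∑ p ∈ PD P i, ∑ q ∈ (zs i κ p).offDiag, (1 : ℤ) := by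
    refine Finset.sum_comm' ?_
    intro q p
    rw [mem_offDiag, mem_offDiag, mem_zs, mem_zs, mem_inter]
    constructor
    · rintro ⟨⟨h1, h2, h3⟩, h4, h5⟩
      exact ⟨⟨⟨h1, h4⟩, ⟨h2, h5⟩, h3⟩, (Z2s_cov H hκ h1 h4).1⟩
    · rintro ⟨⟨⟨h1, h4⟩, ⟨h2, h5⟩, h3⟩, -⟩
      exact ⟨⟨h1, h2, h3⟩, h4, h5⟩
  rw [h2]
  refine Finset.sum_congr rfl fun p _ => ?_
  rw [sum_const, nsmul_eq_mul, mul_one, offDiag_card]
  have h3 : (zs i κ p).card ≤ (zs i κ p).card * (zs i κ p).card := Nat.le_mul_self _
  rw [Nat.cast_sub h3]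
  unfold zc
  push_cast
  ring

lemma uni_card (hz : z ∈ Z2s i κ) (hw : w ∈ Z2s i κ) :
    (({z, w} : Finset P).biUnion uc).card + (uc z ∩ uc w).card = 4 := by
  obtain ⟨p, p', y, y', D, hu, hne⟩ := Z2s_pair H hκ hz
  obtain ⟨q, q', x, x', D', hu', hne'⟩ := Z2s_pair H hκ hw
  rw [biUnion_insert, singleton_biUnion, card_union_add_card_inter, hu, hu', card_pair hne,
    card_pair hne']

/-- two joins have at most two common covers -/
theorem pairs_eq : ∑ q ∈ (Z2s i κ).offDiag, ((uc q.1 ∩ uc q.2).card : ℤ) =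
    2 * ((((Z2s i κ).powersetCard 2).filter (fun s => (s.biUnion uc).card = 3)).card : ℤ) +
      4 * ((((Z2s i κ).powersetCard 2).filter (fun s => (s.biUnion uc).card = 2)).card : ℤ) := by
  classical
  have h3 := two_pairs (Z2s i κ) (fun s => (s.biUnion uc).card = 3)
  have h2 := two_pairs (Z2s i κ) (fun s => (s.biUnion uc).card = 2)
  have key : ∀ q ∈ (Z2s i κ).offDiag, ((uc q.1 ∩ uc q.2).card : ℤ) =
      (if (({q.1, q.2} : Finset P).biUnion uc).card = 3 then 1 else 0) +
        2 * (if (({q.1, q.2} : Finset P).biUnion uc).card = 2 then 1 else 0) := by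
    intro q hq
    rw [mem_offDiag] at hq
    have h4 := uni_card H hκ hq.1 hq.2.1
    have h5 : (uc q.1 ∩ uc q.2).card ≤ 2 := by
      obtain ⟨p, p', y, y', D, hu, hne⟩ := Z2s_pair H hκ hq.1
      refine (card_le_card inter_subset_left).trans ?_
      rw [hu, card_pair hne]
    have h6 : (uc q.1 ∩ uc q.2).card = 0 ∨ (uc q.1 ∩ uc q.2).card = 1 ∨
      (uc q.1 ∩ uc q.2).card = 2 := by omega
    rcases h6 with h6 | h6 | h6
    · rw [h6, if_neg (by omega), if_neg (by omega)]; norm_num
    · rw [h6, if_pos (by omega), if_neg (by omega)]; norm_num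
    · rw [h6, if_neg (by omega), if_pos (by omega)]; norm_num
  rw [Finset.sum_congr rfl key, sum_add_distrib, ← mul_sum, Finset.sum_boole, Finset.sum_boole,
    h3, h2]
  push_cast
  ring

/-- twins and pairs of joins with the same covers -/
theorem TWs_DB : ((TWs i κ).card : ℤ) =
    2 * ((((Z2s i κ).powersetCard 2).filter (fun s => (s.biUnion uc).card = 2)).card : ℤ) := by
  classical
  have h2 := two_pairs (Z2s i κ) (fun s => (s.biUnion uc).card = 2)
  have h1 : TWs i κ = (Z2s i κ).offDiag.filter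
      (fun q => (({q.1, q.2} : Finset P).biUnion uc).card = 2) := by
    ext q
    rw [mem_TWs, mem_filter, mem_offDiag]
    constructor
    · rintro ⟨a1, a2, a3, a4⟩
      refine ⟨⟨a1, a2, a3⟩, ?_⟩
      obtain ⟨p, p', y, y', D, hu, hne⟩ := Z2s_pair H hκ a1
      rw [biUnion_insert, singleton_biUnion, ← a4, union_self, hu, card_pair hne]
    · rintro ⟨⟨a1, a2, a3⟩, a4⟩
      refine ⟨a1, a2, a3, ?_⟩
      have h4 := uni_card H hκ a1 a2
      obtain ⟨p, p', y, y', D, hu, hne⟩ := Z2s_pair H hκ a1
      obtain ⟨s, s', x, x', D', hu', hne'⟩ := Z2s_pair H hκ a2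
      have c1 : (uc q.1).card = 2 := by rw [hu, card_pair hne]
      have c2 : (uc q.2).card = 2 := by rw [hu', card_pair hne']
      have e1 := eq_of_subset_of_card_le (inter_subset_left (s₁ := uc q.1) (s₂ := uc q.2))
        (by omega)
      have e2 := eq_of_subset_of_card_le (inter_subset_right (s₁ := uc q.1) (s₂ := uc q.2))
        (by omega)
      rw [← e1, e2]
  rw [h1, h2]
  push_cast
  ring

end pr

end Pool.Agent.GaussPoset.Win.Pn

end

/-! From `Pool.Agent.W_448t8_h97.TF` -/

section

/-!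
Window `j - 1` (MP_448cb3_co, case B): THE TOTALS (3,1), (5,2), (6,2), (8,3), (10,4), as sums over the
parts and over the pendants.
-/

set_option autoImplicit false

namespace Pool.Agent.GaussPoset.Win.Pn

set_option linter.unusedSectionVars false

open Finset W4 Wd
open Pool.Agent.GaussPoset.Win.SO (con PN on mem_PN vp)
open Pool.Agent.GaussPoset.Win.I2 (bb VV)
open Pool.Agent.GaussPoset.Win.So (N5s Z2s mem_Z2s env TWs mem_TWs)

universe u

variable {P : Type u} [Fintype P] [PartialOrder P] [DecidableEq P] {r i j : ℕ}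
  {psi : P → P} {C : Finset P} {p p' y y' w z v x : P}

/-- the coefficient (3,1) of the part `t` at the window `i` -/
noncomputable def A3 (i : ℕ) (t : Tops P) : ℤ := I2.al 3 (st i (SS i t)).card (ZS i (SS i t))

/-- the coefficient (5,2) of the part `t` at the window `i` -/
noncomputable def B5 (i : ℕ) (t : Tops P) : ℤ := I2.be 5 (st i (SS i t)).card (ZS i (SS i t))

/-- the additive quantity at the energy six -/
noncomputable def C6 (i : ℕ) (t : Tops P) : ℤ := So.Q6 (st i (SS i t)).card (ZS i (SS i t))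

/-- the additive quantity at the energy eight -/
noncomputable def C8 (i : ℕ) (t : Tops P) : ℤ := T8.Q8 (st i (SS i t)).card (ZS i (SS i t))

/-- the additive quantity at the energy ten -/
noncomputable def C10 (i : ℕ) (t : Tops P) : ℤ := T8.Q10 (st i (SS i t)).card (ZS i (SS i t))

/-- the joins of a pendant and an element which is not a pendant -/
noncomputable def mx (i : ℕ) : Finset P :=
  X3 i (topOf : P → Tops P) \ Z2s i (topOf : P → Tops P)

section nj

variable (h : NJ P r j) (hij : i + 1 = j) (hi1 : 1 ≤ i)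
include h hij

omit hij in
lemma nj_image : univ.image (topOf : P → Tops P) = univ := by
  rw [eq_univ_iff_forall]
  intro t
  refine mem_image.2 ⟨(t : P), mem_univ _, ?_⟩
  exact Subtype.ext (Hul.top_unique (h.nj (by have := t.2; omega)) (topOf (t : P)).2 t.2
    (le_topOf (t : P)) le_rfl)

lemma nj_bb (t : Tops P) : bb i (i + 2) (topOf : P → Tops P) t = (st i (SS i t)).card := by
  rw [show i + 2 = j + 1 by omega]
  exact h.bb_eq (by omega) t

lemma nj_VV (t : Tops P) : VV i (i + 2) (topOf : P → Tops P) t = ZS i (SS i t) := by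
  rw [show i + 2 = j + 1 by omega]
  exact h.VV_eq (by omega) t

include hi1

/-- pendants of a part -/
lemma nj_hone : ∀ p ∈ PD P i, ∀ q ∈ PD P i, (topOf p : Tops P) = topOf q → p = q := by
  intro p hp q hq hk
  obtain ⟨n1, -, -⟩ := nj_one h hij hi1 (topOf p)
  rw [card_le_one] at n1
  have m1 := nj_mem h hij hi1 (mem_PD.1 hp).1
  have m2 := nj_mem h hij hi1 (mem_PD.1 hq).1
  rw [← hk] at m2
  exact n1 p (mem_filter.2 ⟨m1, hp⟩) q (mem_filter.2 ⟨m2, hq⟩)

/-- the mixed joins at the energy eight -/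
theorem nj_mixed8 (hz : z ∈ mx (P := P) i) : Wn i (topOf : P → Tops P) 3 z ≤ 0 := by
  have H := h.g.H
  have hκ : Split (i + 2) (topOf : P → Tops P) := by
    rw [show i + 2 = j + 1 by omega]
    exact h.split
  obtain ⟨hz1, hz2⟩ := mem_sdiff.1 hz
  rcases Wn_mixed H hκ hz1 hz2 3 with h1 | ⟨p, hp, hpn, h1⟩
  · rw [h1]
  · rw [h1, show 2 * 3 - 1 = 5 from rfl]
    have lz := (mem_X3.1 hz1).1
    have lp := lev_uc H hp
    by_cases hzl : p ∈ ZL i (SS i (topOf p))
    · rw [nj_rho5_ZL h hij hi1 hzl]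
      obtain ⟨psi, hM⟩ := good_mat h.g.H (h.g.good i (by omega))
      have h0 : ∑ q ∈ (PN i (SS i (topOf p))).filter (fun q => Disjoint (sit i p) (sit i q)),
          vp i q = 0 := by
        rcases Nat.lt_or_ge 3 (st i (SS i (topOf p))).card with h4 | h4
        · exact nj_pn_zero h hij hi1 hM _ h4
        · apply Finset.sum_eq_zero
          intro q hq
          exfalso
          obtain ⟨m1, hd⟩ := mem_filter.1 hq
          have F := nj_fr h hij hi1 hM (topOf p)
          have h6 : (sit i p).card = 3 := by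
            rw [sit_low H (by omega), card_sts]
            exact (mem_ZL.1 hzl).2.2
          have h7 : sit i p ∪ sit i q ⊆ st i (SS i (topOf p)) :=
            union_subset (SO.sit_part H F.E.hC (mem_ZL.1 hzl).1)
              (SO.sit_part H F.E.hC (mem_PN.1 m1).1)
          have h8 := card_le_card h7
          rw [card_union_of_disjoint hd, h6, (pn_two F m1).1] at h8
          omega
      rw [h0]
      have : (0 : ℤ) ≤ (ntw (SS i (topOf p)) p : ℤ) := Nat.cast_nonneg _
      linarith
    · rw [nj_rho5_else h hij hi1 (by omega) hpn hzl]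

/-- the mixed joins at the energy ten -/
theorem nj_mixed10 (hz : z ∈ mx (P := P) i) : Wn i (topOf : P → Tops P) 4 z = 0 := by
  have H := h.g.H
  have hκ : Split (i + 2) (topOf : P → Tops P) := by
    rw [show i + 2 = j + 1 by omega]
    exact h.split
  obtain ⟨hz1, hz2⟩ := mem_sdiff.1 hz
  rcases Wn_mixed H hκ hz1 hz2 4 with h1 | ⟨p, hp, hpn, h1⟩
  · exact h1
  · rw [h1, show 2 * 4 - 1 = 7 from rfl]
    have lz := (mem_X3.1 hz1).1
    have lp := lev_uc H hp
    by_cases hzl : p ∈ ZL i (SS i (topOf p))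
    · rw [nj_rho7_ZL h hij hi1 hzl]
      obtain ⟨psi, hM⟩ := good_mat h.g.H (h.g.good i (by omega))
      have h0 : ∑ q ∈ (PN i (SS i (topOf p))).filter (fun q => Disjoint (sit i p) (sit i q)),
          vp i q = 0 := by
        rcases Nat.lt_or_ge 3 (st i (SS i (topOf p))).card with h4 | h4
        · exact nj_pn_zero h hij hi1 hM _ h4
        · apply Finset.sum_eq_zero
          intro q hq
          exfalso
          obtain ⟨m1, hd⟩ := mem_filter.1 hq
          have F := nj_fr h hij hi1 hM (topOf p)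
          have h6 : (sit i p).card = 3 := by
            rw [sit_low H (by omega), card_sts]
            exact (mem_ZL.1 hzl).2.2
          have h7 : sit i p ∪ sit i q ⊆ st i (SS i (topOf p)) :=
            union_subset (SO.sit_part H F.E.hC (mem_ZL.1 hzl).1)
              (SO.sit_part H F.E.hC (mem_PN.1 m1).1)
          have h8 := card_le_card h7
          rw [card_union_of_disjoint hd, h6, (pn_two F m1).1] at h8
          omega
      rw [h0, mul_zero, neg_zero]
    · exact nj_rho7_else h hij hi1 (by omega) hpn hzl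

variable (hb : 1 ≤ (lv P i).card)
include hb

/-- THE TOTAL (3,1) -/
theorem nj_R3 : ∑ t : Tops P, A3 i t = 0 := by
  have H := h.g.H
  have hir : i ≤ r := by have := h.g.hr; omega
  have hκ : Split (i + 2) (topOf : P → Tops P) := by
    rw [show i + 2 = j + 1 by omega]
    exact h.split
  obtain ⟨-, -, h3, -⟩ := T8.prod_ten (univ.image (topOf : P → Tops P))
    (bb i (i + 2) topOf) (VV i (i + 2) topOf) (nj_P10' h hij hi1)
    (fun a _ => by rw [T8.cg_cf (by omega), So.cf_zero]; exact I2.eps_VV H hir a)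
  rw [So.sum_bb hκ, T8.cg_cf (by omega), So.cf_three, So.al3_prod H hir hκ] at h3
  rw [h3, nj_image h]
  refine Finset.sum_congr rfl fun t _ => ?_
  rw [T8.cg_cf (by omega), So.cf_three, nj_bb h hij, nj_VV h hij]
  rfl

/-- THE TOTAL (5,2) -/
theorem nj_R5 : 2 * ∑ t : Tops P, B5 i t = -∑ p ∈ PD P i, zc i (topOf : P → Tops P) p := by
  have H := h.g.H
  have hir : i ≤ r := by have := h.g.hr; omega
  have hκ : Split (i + 2) (topOf : P → Tops P) := by
    rw [show i + 2 = j + 1 by omega]
    exact h.split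
  rw [← two_Z2s H hκ]
  obtain ⟨-, -, -, h3, -⟩ := T8.prod_ten (univ.image (topOf : P → Tops P))
    (bb i (i + 2) topOf) (VV i (i + 2) topOf) (nj_P10' h hij hi1)
    (fun a _ => by rw [T8.cg_cf (by omega), So.cf_zero]; exact I2.eps_VV H hir a)
  rw [So.sum_bb hκ, T8.cg_cf (by omega),
    So.cf5_prod H hi1 (by have := h.g.hr; omega) (h.g.good i (by omega)) hκ hb, nj_image h] at h3
  have h4 : ∑ t : Tops P, B5 i t = ∑ t : Tops P, T8.cg 5 (bb i (i + 2) topOf t)
      (VV i (i + 2) topOf t) := by
    refine Finset.sum_congr rfl fun t _ => ?_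
    rw [T8.cg_cf (by omega), So.cf_five, nj_bb h hij, nj_VV h hij]
    rfl
  rw [h4, ← h3]
  ring

/-- THE TOTAL (8,3) -/
theorem nj_R8 : 2 * ∑ t : Tops P, C8 i t =
    ∑ p ∈ PD P i, (2 * zc i (topOf : P → Tops P) p * (rho i (topOf : P → Tops P) 5 p -
      A3 i (topOf p)) + zc i (topOf : P → Tops P) p * (zc i (topOf : P → Tops P) p - 1)) +
      2 * ∑ z ∈ mx (P := P) i, Wn i (topOf : P → Tops P) 3 z -
        4 * ((DB i (topOf : P → Tops P)).card : ℤ) := by
  have H := h.g.H
  have hκ : Split (i + 2) (topOf : P → Tops P) := by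
    rw [show i + 2 = j + 1 by omega]
    exact h.split
  have h1 := nj_tot8' h hij hi1 hb
  have h2 : ∑ t : Tops P, C8 i t = ∑ a ∈ univ.image (topOf : P → Tops P),
      T8.Q8 (bb i (i + 2) topOf a) (VV i (i + 2) topOf a) := by
    rw [nj_image h]
    refine Finset.sum_congr rfl fun t _ => ?_
    rw [nj_bb h hij, nj_VV h hij]
    rfl
  have h3 := sum_offDiag H hκ
  have h4 := pairs_eq H hκ
  rw [← nj_PR h hij hi1] at h4
  have h5 := sum_Wn H hκ 3
  have h6 : ∑ p ∈ PD P i, zc i (topOf : P → Tops P) p * (rho i (topOf : P → Tops P) (2 * 3 - 1) p -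
      sg i (topOf : P → Tops P) (2 * 3 - 3) (topOf p)) = ∑ p ∈ PD P i,
        zc i (topOf : P → Tops P) p * (rho i (topOf : P → Tops P) 5 p - A3 i (topOf p)) := by
    refine Finset.sum_congr rfl fun p _ => ?_
    rw [show 2 * 3 - 1 = 5 from rfl, show 2 * 3 - 3 = 3 from rfl, sg_three, nj_bb h hij,
      nj_VV h hij]
    rfl
  have h7 : ∑ p ∈ PD P i, (2 * zc i (topOf : P → Tops P) p * (rho i (topOf : P → Tops P) 5 p -
      A3 i (topOf p)) + zc i (topOf : P → Tops P) p * (zc i (topOf : P → Tops P) p - 1)) =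
      2 * ∑ p ∈ PD P i, zc i (topOf : P → Tops P) p * (rho i (topOf : P → Tops P) 5 p -
        A3 i (topOf p)) + ∑ p ∈ PD P i, zc i (topOf : P → Tops P) p *
          (zc i (topOf : P → Tops P) p - 1) := by
    rw [mul_sum, ← sum_add_distrib]
    exact Finset.sum_congr rfl fun p _ => by ring
  unfold mx
  rw [h2, h1, h5, h6, h7, h3, h4]
  unfold DB
  ring

/-- THE TOTAL (10,4) -/
theorem nj_R10 : 2 * ∑ t : Tops P, C10 i t =
    ∑ p ∈ PD P i, (4 * zc i (topOf : P → Tops P) p * (rho i (topOf : P → Tops P) 7 p -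
      B5 i (topOf p)) - zc i (topOf : P → Tops P) p -
        2 * (zc i (topOf : P → Tops P) p * (zc i (topOf : P → Tops P) p - 1))) +
        4 * ((DB i (topOf : P → Tops P)).card : ℤ) +
          4 * ((N5s i (topOf : P → Tops P)).card : ℤ) := by
  have H := h.g.H
  have hκ : Split (i + 2) (topOf : P → Tops P) := by
    rw [show i + 2 = j + 1 by omega]
    exact h.split
  have h1 := nj_tot10' h hij hi1 hb
  have h2 : ∑ t : Tops P, C10 i t = ∑ a ∈ univ.image (topOf : P → Tops P),
      T8.Q10 (bb i (i + 2) topOf a) (VV i (i + 2) topOf a) := by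
    rw [nj_image h]
    refine Finset.sum_congr rfl fun t _ => ?_
    rw [nj_bb h hij, nj_VV h hij]
    rfl
  have h3 := sum_offDiag H hκ
  have h4 := pairs_eq H hκ
  rw [← nj_PR h hij hi1] at h4
  have h0 := two_Z2s H hκ
  have h5 := sum_Wn H hκ 4
  have h6 : ∑ p ∈ PD P i, zc i (topOf : P → Tops P) p * (rho i (topOf : P → Tops P) (2 * 4 - 1) p -
      sg i (topOf : P → Tops P) (2 * 4 - 3) (topOf p)) = ∑ p ∈ PD P i,
        zc i (topOf : P → Tops P) p * (rho i (topOf : P → Tops P) 7 p - B5 i (topOf p)) := by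
    refine Finset.sum_congr rfl fun p _ => ?_
    rw [show 2 * 4 - 1 = 7 from rfl, show 2 * 4 - 3 = 5 from rfl, sg_five, nj_bb h hij,
      nj_VV h hij]
    rfl
  have h8 : ∑ z ∈ mx (P := P) i, Wn i (topOf : P → Tops P) 4 z = 0 :=
    Finset.sum_eq_zero fun z hz => nj_mixed10 h hij hi1 hz
  have h7 : ∑ p ∈ PD P i, (4 * zc i (topOf : P → Tops P) p * (rho i (topOf : P → Tops P) 7 p -
      B5 i (topOf p)) - zc i (topOf : P → Tops P) p -
        2 * (zc i (topOf : P → Tops P) p * (zc i (topOf : P → Tops P) p - 1))) =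
      4 * ∑ p ∈ PD P i, zc i (topOf : P → Tops P) p * (rho i (topOf : P → Tops P) 7 p -
        B5 i (topOf p)) - ∑ p ∈ PD P i, zc i (topOf : P → Tops P) p -
          2 * ∑ p ∈ PD P i, zc i (topOf : P → Tops P) p *
          (zc i (topOf : P → Tops P) p - 1) := by
    rw [mul_sum, mul_sum, ← sum_sub_distrib, ← sum_sub_distrib]
    exact Finset.sum_congr rfl fun p _ => by ring
  unfold mx at h8
  rw [h6, h8] at h5
  rw [h2, h7, h3, h4]
  rw [h5] at h1
  unfold DB at h1 ⊢
  linarith

/-- THE TOTAL (6,2) -/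
theorem nj_R6 : ∑ t : Tops P, C6 i t =
    ∑ p ∈ PD P i, (2 * zc i (topOf : P → Tops P) p * (kc p + nn i p - 3) +
      ∑ z ∈ zs i (topOf : P → Tops P) p, kc z) + 2 * ((DB i (topOf : P → Tops P)).card : ℤ) -
        2 * ((N5s i (topOf : P → Tops P)).card : ℤ) := by
  have H := h.g.H
  have hκ : Split (i + 2) (topOf : P → Tops P) := by
    rw [show i + 2 = j + 1 by omega]
    exact h.split
  have hP : ∀ a ∈ univ.image (topOf : P → Tops P), So.P6 (bb i (i + 2) topOf a)
      (VV i (i + 2) topOf a) := fun a ha => (nj_P10' h hij hi1 a ha).p6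
  have hg : GoodTo P r (i + 1) := by rw [hij]; exact h.g
  have hu : ∀ w w' : P, lev w = i + 1 → lev w' = i + 1 → w ≠ w' → (uc w ∩ uc w').card ≤ 1 := by
    intro w w' hw hw' hne
    rw [card_uc_inter]
    exact ucv_le_one hg (by omega) hne (by omega)
  have h1 := So.tot_six_Z H hi1 (by have := h.g.hr; omega) (h.g.good i (by omega)) hκ hb hu hP
  have h2 : ∑ t : Tops P, C6 i t = ∑ a ∈ univ.image (topOf : P → Tops P),
      So.Q6 (bb i (i + 2) topOf a) (VV i (i + 2) topOf a) := by
    rw [nj_image h]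
    refine Finset.sum_congr rfl fun t _ => ?_
    rw [nj_bb h hij, nj_VV h hij]
    rfl
  have h3 := sum_env H hκ (nj_hone h hij hi1)
  have h4 : ((TWs i (topOf : P → Tops P)).card : ℤ) =
      2 * ((DB i (topOf : P → Tops P)).card : ℤ) := TWs_DB H hκ
  have h5 := two_sum H hκ (fun z => kc z)
  rw [h2, h1, h3, h4, sum_add_distrib, ← h5]
  have h6 : ∑ p ∈ PD P i, 2 * zc i (topOf : P → Tops P) p * (kc p + nn i p - 3) =
      2 * ∑ p ∈ PD P i, zc i (topOf : P → Tops P) p * (kc p + nn i p - 3) := by
    rw [mul_sum]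
    exact Finset.sum_congr rfl fun p _ => by ring
  rw [h6]
  ring

end nj

end Pool.Agent.GaussPoset.Win.Pn

end

/-! From `Pool.Agent.W_448p_h97.PaP` -/

section

/-!
MP_448cb3_co, G2, case B, window `j`: THE IDENTITY (6,4) with components with two stars: all the leading
coefficients (3,2) vanish.  helper97.
-/

namespace Pool.Agent.GaussPoset.EK

set_option linter.unusedSectionVars false

open Finset Win St Polynomial Wd

universe u

variable {P : Type u} [Fintype P] [PartialOrder P] [DecidableEq P] {r i j : ℕ}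

variable {m : ℕ} {x : ℕ → P} {c : ℕ → ℤ} {β : ℤ} {t : Tops P}

variable {K : Finset P} {psi : P → P}

section main

variable (h : NJ P r j) (hj : 2 ≤ j) (R : Red P j K psi)

include h hj R

/-- the profile of every component in case B -/
theorem NJ.PG (t : Tops P) : I2.PG (I2.bb j (j + 1) (topOf : P → Tops P) t)
    (I2.VV j (j + 1) (topOf : P → Tops P) t) := by
  have hjr : j ≤ r := by have := h.hr; omega
  obtain ⟨m, x, c, β, B⟩ := NJ.rowB h hj t
  rcases B.small h.g.H h.split with h1 | h1
  · exact (K2.PG_star h.g.H hjr (NJ.noQ h hj) (fun m hm => h.g.good m (by omega)) h.split R.mat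
      R.sub (K2.star_small h.g.H hjr h.split R h1)).1
  · obtain ⟨w, v, w', v', Q⟩ := Pa.exists_k9x h B h1 hj R
    exact Q.pg

/-- the inequality for every component in case B -/
theorem NJ.w3_sq (t : Tops P) : 0 ≤ I2.w3 (I2.bb j (j + 1) (topOf : P → Tops P) t)
    (I2.VV j (j + 1) (topOf : P → Tops P) t) ^ 2 -
      2 * I2.w6 (I2.bb j (j + 1) (topOf : P → Tops P) t) (I2.VV j (j + 1) (topOf : P → Tops P) t) ∧
    (I2.w3 (I2.bb j (j + 1) (topOf : P → Tops P) t)
      (I2.VV j (j + 1) (topOf : P → Tops P) t) ^ 2 -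
      2 * I2.w6 (I2.bb j (j + 1) (topOf : P → Tops P) t) (I2.VV j (j + 1) (topOf : P → Tops P) t) = 0 →
      I2.w3 (I2.bb j (j + 1) (topOf : P → Tops P) t) (I2.VV j (j + 1) (topOf : P → Tops P) t) = 0 ∧
      I2.w6 (I2.bb j (j + 1) (topOf : P → Tops P) t) (I2.VV j (j + 1) (topOf : P → Tops P) t) = 0) := by
  have hjr : j ≤ r := by have := h.hr; omega
  obtain ⟨m, x, c, β, B⟩ := NJ.rowB h hj t
  rcases B.small h.g.H h.split with h1 | h1
  · have h2 := (K2.PG_star h.g.H hjr (NJ.noQ h hj) (fun m hm => h.g.good m (by omega)) h.split R.mat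
      R.sub (K2.star_small h.g.H hjr h.split R h1)).2
    rw [h2, mul_zero, sub_zero]
    refine ⟨sq_nonneg _, fun h3 => ⟨?_, rfl⟩⟩
    exact pow_eq_zero_iff (two_ne_zero) |>.1 h3
  · obtain ⟨w, v, w', v', Q⟩ := Pa.exists_k9x h B h1 hj R
    exact ⟨Q.ineq.1, Q.zero⟩

/-- THE IDENTITY (6,4) IN CASE B: all the leading coefficients (3,2) and (6,4) vanish, and the joins of
a double and a single element have weight zero -/
theorem NJ.w3_zero (hbad : ∀ z y v, K2.SD j (topOf : P → Tops P) z y v →
      z ∉ cuni (j + 1) (topOf : P → Tops P) → BadR P j y →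
      sa j (topOf : P → Tops P) K (uc v) (topOf v) = 0) :
    (∀ t : Tops P,
      I2.w3 (I2.bb j (j + 1) (topOf : P → Tops P) t) (I2.VV j (j + 1) (topOf : P → Tops P) t) = 0 ∧
      I2.w6 (I2.bb j (j + 1) (topOf : P → Tops P) t) (I2.VV j (j + 1) (topOf : P → Tops P) t) = 0) ∧
    (∀ (t : Tops P) (m : ℕ) (x : ℕ → P) (c : ℕ → ℤ) (β : ℤ), RowB P j t m x c β → Pat6 m c β →
      7 ≤ m ∧ Pa.dl j (cext (j + 1) (topOf : P → Tops P) t) x 2 = 1 ∧
        Pa.dl j (cext (j + 1) (topOf : P → Tops P) t) x (m - 3) = 1) ∧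
    ∀ z ∈ K2.Z2 j (topOf : P → Tops P), Ek j K (K2.Tz z) 3 = 0 ∧ Ek j K (K2.Tz z) 2 = 0 := by
  have hjr : j ≤ r := by have := h.hr; omega
  have h1 := K2.six_four h.g.H hjr (NJ.noQ h hj) (fun m hm => h.g.good m (by omega)) h.split R.mat
    R.sub (fun a _ => NJ.PG h hj R a)
  have h2 : ∀ z ∈ K2.Z2 j (topOf : P → Tops P),
      0 ≤ Ek j K (K2.Tz z) 3 ∧ 0 ≤ Ek j K (K2.Tz z) 2 := by
    intro z hz
    obtain ⟨hz1, y, v, S⟩ := K2.mem_Z2.1 hz
    have h3 := NJ.join_nonneg h R S hj (hbad z y v S hz1)
    exact ⟨h3 3 (by norm_num), h3 2 le_rfl⟩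
  have h3 : ∀ z ∈ K2.Z2 j (topOf : P → Tops P), 0 ≤ Ek j K (K2.Tz z) 3 + Ek j K (K2.Tz z) 2 :=
    fun z hz => add_nonneg (h2 z hz).1 (h2 z hz).2
  have h4 := sum_nonneg h3
  have h5 := sum_nonneg (fun (a : Tops P) (_ : a ∈ univ.image (topOf : P → Tops P)) =>
    (NJ.w3_sq h hj R a).1)
  have h6 := (sum_eq_zero_iff_of_nonneg h3).1 (by linarith)
  have h7 := (sum_eq_zero_iff_of_nonneg (fun (a : Tops P)
    (_ : a ∈ univ.image (topOf : P → Tops P)) => (NJ.w3_sq h hj R a).1)).1 (by linarith)
  have hall : ∀ t : Tops P, t ∈ univ.image (topOf : P → Tops P) := by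
    intro t
    refine mem_image.2 ⟨(t : P), mem_univ _, ?_⟩
    exact Subtype.ext (Hul.top_unique (h.nj (by have := t.2; omega)) (topOf (t : P)).2 t.2
      (le_topOf (t : P)) le_rfl)
  refine ⟨fun t => (NJ.w3_sq h hj R t).2 (h7 t (hall t)), ?_, ?_⟩
  · intro t m x c β B hp
    obtain ⟨w, v, w', v', Q⟩ := Pa.exists_k9x h B hp hj R
    exact Q.ineq'.2 (h7 t (hall t))
  · intro z hz
    have h8 := h6 z hz
    have h9 := h2 z hz
    exact ⟨by linarith, by linarith⟩

end main

end Pool.Agent.GaussPoset.EK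

end

/-! From `Pool.Agent.W_448t8_h97.TG` -/

section

/-!
Windows `j - 1` and `j` (MP_448cb3_co, case B): THE TOTAL IDENTITY of a functional with free weights, as a
sum over the parts, their pendants and the joins.
-/

set_option autoImplicit false

namespace Pool.Agent.GaussPoset.Win.Pn

set_option linter.unusedSectionVars false

open Finset W4 Wd
open Pool.Agent.GaussPoset.Win.SO (con PN on mem_PN vp)
open Pool.Agent.GaussPoset.Win.I2 (bb VV)
open Pool.Agent.GaussPoset.Win.So (N5s Z2s mem_Z2s env TWs mem_TWs)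

universe u

variable {P : Type u} [Fintype P] [PartialOrder P] [DecidableEq P] {r i j : ℕ}
  {psi : P → P} {K C : Finset P} {p p' y y' w z v x : P}

/-- the coefficient (2,1) at the window `j` -/
noncomputable def F2 (j : ℕ) (t : Tops P) : ℤ :=
  I2.al 2 (bb j (j + 1) (topOf : P → Tops P) t) (VV j (j + 1) (topOf : P → Tops P) t)

/-- the additive quantity at the energy four at the window `j` -/
noncomputable def F4 (j : ℕ) (t : Tops P) : ℤ :=
  I2.Q4 (bb j (j + 1) (topOf : P → Tops P) t) (VV j (j + 1) (topOf : P → Tops P) t)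

/-- the coefficient (3,2) at the window `j` -/
noncomputable def F3 (j : ℕ) (t : Tops P) : ℤ :=
  I2.w3 (bb j (j + 1) (topOf : P → Tops P) t) (VV j (j + 1) (topOf : P → Tops P) t)

/-- the additive quantity at the energy six at the window `j` -/
noncomputable def F6 (j : ℕ) (t : Tops P) : ℤ :=
  I2.w3 (bb j (j + 1) (topOf : P → Tops P) t) (VV j (j + 1) (topOf : P → Tops P) t) ^ 2 -
    2 * I2.w6 (bb j (j + 1) (topOf : P → Tops P) t) (VV j (j + 1) (topOf : P → Tops P) t)

/-- the value of a join at the energy four -/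
noncomputable def e1 (j : ℕ) (K : Finset P) (z : P) : ℤ := 1 + EK.Ek j K (K2.Tz z) 1

/-- the value of a join at the energy six -/
noncomputable def e23 (j : ℕ) (K : Finset P) (z : P) : ℤ :=
  EK.Ek j K (K2.Tz z) 3 + EK.Ek j K (K2.Tz z) 2

/-- the weights of a functional -/
structure Wt where
  a3 : ℤ
  a5 : ℤ
  a6 : ℤ
  a8 : ℤ
  a10 : ℤ
  f2 : ℤ
  f4 : ℤ
  f3 : ℤ
  f6 : ℤ

/-- the value of a part -/
noncomputable def own (W : Wt) (i j : ℕ) (t : Tops P) : ℤ :=
  W.a3 * A3 i t + W.a5 * B5 i t + W.a6 * C6 i t + W.a8 * C8 i t + W.a10 * C10 i t +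
    W.f2 * F2 j t + W.f4 * F4 j t + W.f3 * F3 j t + W.f6 * F6 j t

/-- the share of a pendant (twice) -/
noncomputable def shr (W : Wt) (i : ℕ) (p : P) : ℤ :=
  zc i (topOf : P → Tops P) p * (W.a5 + W.a10) -
    4 * W.a6 * zc i (topOf : P → Tops P) p * (kc p + nn i p - 3) -
    2 * W.a6 * ∑ z ∈ zs i (topOf : P → Tops P) p, kc z -
    2 * W.a8 * zc i (topOf : P → Tops P) p * (rho i (topOf : P → Tops P) 5 p - A3 i (topOf p)) -
    4 * W.a10 * zc i (topOf : P → Tops P) p *
      (rho i (topOf : P → Tops P) 7 p - B5 i (topOf p)) +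
    (2 * W.a10 - W.a8) * (zc i (topOf : P → Tops P) p * (zc i (topOf : P → Tops P) p - 1)) -
    (W.a6 - W.a8 + W.a10) * ∑ z ∈ zs i (topOf : P → Tops P) p,
      ((tw i (topOf : P → Tops P) z).card : ℤ)

open Classical in
/-- the cost of a join of a double and a single element (twice) -/
noncomputable def cst (W : Wt) (i j : ℕ) (K : Finset P) (z : P) : ℤ :=
  4 * W.f4 * e1 j K z + 4 * W.f6 * e23 j K z +
    (if z ∈ N5s i (topOf : P → Tops P) then 4 * W.a6 - 4 * W.a10 else 0)

section nj

variable (h : NJ P r j)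
include h

/-- the joins with a 3-site element are joins of a double and a single element -/
theorem N5s_sub (hij : i + 1 = j) :
    N5s i (topOf : P → Tops P) ⊆ K2.Z2 j (topOf : P → Tops P) := by
  intro v hv
  have H := h.g.H
  have hκ : Split (i + 2) (topOf : P → Tops P) := by
    rw [show i + 2 = j + 1 by omega]
    exact h.split
  obtain ⟨h1, h2, h3, h4⟩ := So.mem_N5s.1 hv
  obtain ⟨p, p', hk, huc⟩ := So.two_labels H hκ h2 (by omega)
  have D : So.CrV i (topOf : P → Tops P) v p p' := ⟨h1, huc, hk⟩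
  have lp := D.lp H
  have lp' := D.lp' H
  have n1 : 1 ≤ (uc p).card := card_pos.2 (uc_nonempty H (by omega))
  have n2 : 1 ≤ (uc p').card := card_pos.2 (uc_nonempty H (by omega))
  rw [D.up1 H hκ] at h3
  rw [K2.mem_Z2]
  refine ⟨by rw [show j + 1 = i + 2 by omega]; exact h2, ?_⟩
  rcases Nat.lt_or_ge 1 (uc p).card with h5 | h5
  · exact ⟨p, p', ⟨by omega, huc, hk, by omega, by omega⟩⟩
  · exact ⟨p', p, ⟨by omega, by rw [huc, pair_comm], Ne.symm hk, by omega, by omega⟩⟩

/-- THE TOTALS AT THE WINDOW `j` -/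
theorem nj_S (hj : 2 ≤ j) (R : EK.Red P j K psi) :
    ∑ t : Tops P, F2 j t = 0 ∧ ∑ t : Tops P, F3 j t = 0 ∧
    ∑ t : Tops P, F4 j t = -(2 * ∑ z ∈ K2.Z2 j (topOf : P → Tops P), e1 j K z) ∧
    ∑ t : Tops P, F6 j t = -(2 * ∑ z ∈ K2.Z2 j (topOf : P → Tops P), e23 j K z) := by
  have hjr : j ≤ r := by have := h.g.hr; omega
  obtain ⟨h1, h2, h3⟩ := K2.four_two_gen h.g.H hjr (EK.NJ.noQ h hj)
    (fun m hm => h.g.good m (by omega)) h.split R.mat R.sub (fun a _ => EK.NJ.PG h hj R a)
  have h4 := K2.six_four h.g.H hjr (EK.NJ.noQ h hj) (fun m hm => h.g.good m (by omega)) h.split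
    R.mat R.sub (fun a _ => EK.NJ.PG h hj R a)
  rw [nj_image h] at h1 h2 h3 h4
  refine ⟨h2, h1, ?_, ?_⟩
  · refine h3.trans ?_
    congr 2
    refine Finset.sum_congr rfl fun z _ => ?_
    unfold e1
    rw [K2.Ek_zero R.sub]
    ring
  · exact h4

/-- the pairs of joins with the same covers -/
lemma four_DB (hij : i + 1 = j) : 4 * ((DB i (topOf : P → Tops P)).card : ℤ) =
    ∑ p ∈ PD P i, ∑ z ∈ zs i (topOf : P → Tops P) p, ((tw i (topOf : P → Tops P) z).card : ℤ) := by
  have H := h.g.H
  have hκ : Split (i + 2) (topOf : P → Tops P) := by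
    rw [show i + 2 = j + 1 by omega]
    exact h.split
  rw [← two_sum H hκ (fun z => ((tw i (topOf : P → Tops P) z).card : ℤ)), sum_tw H hκ,
    TWs_DB H hκ]
  unfold DB
  ring

/-- THE TOTAL IDENTITY -/
theorem nj_total (hij : i + 1 = j) (hi1 : 1 ≤ i) (hb : 1 ≤ (lv P i).card)
    (R : EK.Red P j K psi) (W : Wt) :
    2 * ∑ t : Tops P, own W i j t + ∑ p ∈ PD P i, shr W i p +
      ∑ z ∈ K2.Z2 j (topOf : P → Tops P), cst W i j K z -
        2 * W.a8 * ∑ z ∈ mx (P := P) i, Wn i (topOf : P → Tops P) 3 z = 0 := by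
  classical
  have r3 := nj_R3 h hij hi1 hb
  have r5 := nj_R5 h hij hi1 hb
  have r6 := nj_R6 h hij hi1 hb
  have r8 := nj_R8 h hij hi1 hb
  have r10 := nj_R10 h hij hi1 hb
  obtain ⟨s2, s3, s4, s6⟩ := nj_S h (by omega) R
  have d4 := four_DB h hij
  have e0 : ∑ t : Tops P, own W i j t = W.a3 * ∑ t : Tops P, A3 i t +
      W.a5 * ∑ t : Tops P, B5 i t + W.a6 * ∑ t : Tops P, C6 i t + W.a8 * ∑ t : Tops P, C8 i t +
      W.a10 * ∑ t : Tops P, C10 i t + W.f2 * ∑ t : Tops P, F2 j t +
      W.f4 * ∑ t : Tops P, F4 j t + W.f3 * ∑ t : Tops P, F3 j t +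
      W.f6 * ∑ t : Tops P, F6 j t := by
    simp only [mul_sum, ← sum_add_distrib]
    rfl
  have e2 : ∑ z ∈ K2.Z2 j (topOf : P → Tops P), cst W i j K z =
      4 * W.f4 * ∑ z ∈ K2.Z2 j (topOf : P → Tops P), e1 j K z +
      4 * W.f6 * ∑ z ∈ K2.Z2 j (topOf : P → Tops P), e23 j K z +
        (4 * W.a6 - 4 * W.a10) * ((N5s i (topOf : P → Tops P)).card : ℤ) := by
    unfold cst
    rw [sum_add_distrib, sum_add_distrib, ← mul_sum, ← mul_sum, ← Finset.sum_filter,
      sum_const, nsmul_eq_mul, mul_comm (4 * W.a6 - 4 * W.a10)]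
    congr 3
    congr 1
    ext z
    rw [mem_filter]
    exact ⟨fun hz => hz.2, fun hz => ⟨N5s_sub h hij hz, hz⟩⟩
  have e3 : ∑ p ∈ PD P i, shr W i p =
      (W.a5 + W.a10) * ∑ p ∈ PD P i, zc i (topOf : P → Tops P) p -
      2 * W.a6 * ∑ p ∈ PD P i, (2 * zc i (topOf : P → Tops P) p * (kc p + nn i p - 3) +
        ∑ z ∈ zs i (topOf : P → Tops P) p, kc z) -
      W.a8 * ∑ p ∈ PD P i, (2 * zc i (topOf : P → Tops P) p *
        (rho i (topOf : P → Tops P) 5 p - A3 i (topOf p)) +
          zc i (topOf : P → Tops P) p * (zc i (topOf : P → Tops P) p - 1)) -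
      W.a10 * ∑ p ∈ PD P i, (4 * zc i (topOf : P → Tops P) p *
        (rho i (topOf : P → Tops P) 7 p - B5 i (topOf p)) - zc i (topOf : P → Tops P) p -
        2 * (zc i (topOf : P → Tops P) p * (zc i (topOf : P → Tops P) p - 1))) -
      W.a10 * ∑ p ∈ PD P i, zc i (topOf : P → Tops P) p -
      (W.a6 - W.a8 + W.a10) * ∑ p ∈ PD P i, ∑ z ∈ zs i (topOf : P → Tops P) p,
        ((tw i (topOf : P → Tops P) z).card : ℤ) := by
    simp only [mul_sum (PD P i), ← sum_sub_distrib]
    refine Finset.sum_congr rfl fun p _ => ?_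
    unfold shr
    ring
  rw [e0, e2, e3, ← d4, r3, s2, s3, s4, s6]
  generalize ∑ t : Tops P, B5 i t = b5 at *
  generalize ∑ t : Tops P, C6 i t = c6 at *
  generalize ∑ t : Tops P, C8 i t = c8 at *
  generalize ∑ t : Tops P, C10 i t = c10 at *
  generalize ∑ p ∈ PD P i, zc i (topOf : P → Tops P) p = q5 at *
  generalize ∑ p ∈ PD P i, (2 * zc i (topOf : P → Tops P) p * (kc p + nn i p - 3) +
        ∑ z ∈ zs i (topOf : P → Tops P) p, kc z) = q6 at *
  generalize ∑ p ∈ PD P i, (2 * zc i (topOf : P → Tops P) p *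
        (rho i (topOf : P → Tops P) 5 p - A3 i (topOf p)) +
          zc i (topOf : P → Tops P) p * (zc i (topOf : P → Tops P) p - 1)) = q8 at *
  generalize ∑ p ∈ PD P i, (4 * zc i (topOf : P → Tops P) p *
        (rho i (topOf : P → Tops P) 7 p - B5 i (topOf p)) - zc i (topOf : P → Tops P) p -
        2 * (zc i (topOf : P → Tops P) p * (zc i (topOf : P → Tops P) p - 1))) = q10 at *
  generalize ((DB i (topOf : P → Tops P)).card : ℤ) = d at *
  generalize ((N5s i (topOf : P → Tops P)).card : ℤ) = n5 at *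
  generalize ∑ z ∈ mx (P := P) i, Wn i (topOf : P → Tops P) 3 z = m3 at *
  linear_combination W.a5 * r5 + 2 * W.a6 * r6 + W.a8 * r8 + W.a10 * r10

end nj

end Pool.Agent.GaussPoset.Win.Pn

end

/-! From `Pool.Agent.W_448t8_h97.TH` -/

section

/-!
Windows `j - 1` and `j` (MP_448cb3_co, case B): THE END: if every part with its shares has a nonnegative
value, then all the values vanish.
-/

set_option autoImplicit false

namespace Pool.Agent.GaussPoset.Win.Pn

set_option linter.unusedSectionVars false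

open Finset W4 Wd
open Pool.Agent.GaussPoset.Win.So (N5s Z2s mem_Z2s)

universe u

variable {P : Type u} [Fintype P] [PartialOrder P] [DecidableEq P] {r i j : ℕ}
  {psi : P → P} {K C : Finset P} {p p' y y' w z v x : P}

/-- the value of a part with its shares (twice): `g z y` is the share of the cover `y` of the join `z`
of a double and a single element -/
noncomputable def Lm (W : Wt) (g : P → P → ℤ) (i j : ℕ) (t : Tops P) : ℤ :=
  2 * own W i j t + ∑ p ∈ (PD P i).filter (fun p => (topOf p : Tops P) = t), shr W i p +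
    ∑ z ∈ K2.Z2 j (topOf : P → Tops P), ∑ y ∈ (uc z).filter (fun y => (topOf y : Tops P) = t), g z y

/-- the sum of the values -/
theorem sum_Lm (W : Wt) (g : P → P → ℤ) : ∑ t : Tops P, Lm W g i j t =
    2 * ∑ t : Tops P, own W i j t + ∑ p ∈ PD P i, shr W i p +
      ∑ z ∈ K2.Z2 j (topOf : P → Tops P), ∑ y ∈ uc z, g z y := by
  classical
  unfold Lm
  rw [sum_add_distrib, sum_add_distrib, ← mul_sum]
  congr 1
  · congr 1
    exact Finset.sum_fiberwise (PD P i) (fun p => (topOf p : Tops P)) (fun p => shr W i p)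
  · rw [Finset.sum_comm]
    refine Finset.sum_congr rfl fun z _ => ?_
    exact Finset.sum_fiberwise (uc z) (fun y => (topOf y : Tops P)) (fun y => g z y)

section nj

variable (h : NJ P r j) (hij : i + 1 = j) (hi1 : 1 ≤ i) (hb : 1 ≤ (lv P i).card)
  (R : EK.Red P j K psi)
include h hij hi1 hb R

/-- THE END -/
theorem nj_end (W : Wt) (h8 : 0 ≤ W.a8) (g : P → P → ℤ)
    (hg : ∀ z ∈ K2.Z2 j (topOf : P → Tops P), ∑ y ∈ uc z, g z y ≤ cst W i j K z)
    (hpos : ∀ t : Tops P, 0 ≤ Lm W g i j t) :
    (∀ t : Tops P, Lm W g i j t = 0) ∧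
    (∀ z ∈ K2.Z2 j (topOf : P → Tops P), cst W i j K z = ∑ y ∈ uc z, g z y) ∧
    ∀ z ∈ mx (P := P) i, W.a8 * Wn i (topOf : P → Tops P) 3 z = 0 := by
  classical
  have h1 := nj_total h hij hi1 hb R W
  have h2 := sum_Lm (i := i) (j := j) W g
  have h3 : ∑ z ∈ K2.Z2 j (topOf : P → Tops P), ∑ y ∈ uc z, g z y ≤
      ∑ z ∈ K2.Z2 j (topOf : P → Tops P), cst W i j K z := Finset.sum_le_sum hg
  have h4 : ∑ z ∈ mx (P := P) i, (-(W.a8 * Wn i (topOf : P → Tops P) 3 z)) =
      -(W.a8 * ∑ z ∈ mx (P := P) i, Wn i (topOf : P → Tops P) 3 z) := by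
    rw [mul_sum, Finset.sum_neg_distrib]
  have h5 : ∀ z ∈ mx (P := P) i, 0 ≤ -(W.a8 * Wn i (topOf : P → Tops P) 3 z) := by
    intro z hz
    have := nj_mixed8 h hij hi1 hz
    nlinarith
  have h6 := Finset.sum_nonneg h5
  have h7 := Finset.sum_nonneg (fun (t : Tops P) (_ : t ∈ (univ : Finset (Tops P))) => hpos t)
  have h8' : ∑ t : Tops P, Lm W g i j t = 0 := by linarith
  have h9 : ∑ z ∈ K2.Z2 j (topOf : P → Tops P), (cst W i j K z - ∑ y ∈ uc z, g z y) = 0 := by
    rw [sum_sub_distrib]
    linarith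
  refine ⟨fun t => (Finset.sum_eq_zero_iff_of_nonneg (fun t _ => hpos t)).1 h8' t (mem_univ t),
    fun z hz => ?_, fun z hz => ?_⟩
  · have := (Finset.sum_eq_zero_iff_of_nonneg (fun z hz => sub_nonneg.2 (hg z hz))).1 h9 z hz
    linarith
  · have := (Finset.sum_eq_zero_iff_of_nonneg h5).1 (by linarith) z hz
    linarith

end nj

end Pool.Agent.GaussPoset.Win.Pn

end

/-! From `Pool.Agent.W_448t8_h97.TI` -/

section

/-!
Windows `j - 1` and `j` (MP_448cb3_co, case B): THE END with extra terms: any function of the parts with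
total at most zero (the totals of the window `j + 1`, cross free coefficients, a redistribution along
the joins) may be added.
-/

set_option autoImplicit false

namespace Pool.Agent.GaussPoset.Win.Pn

set_option linter.unusedSectionVars false

open Finset W4 Wd
open Pool.Agent.GaussPoset.Win.So (N5s Z2s mem_Z2s)

universe u

variable {P : Type u} [Fintype P] [PartialOrder P] [DecidableEq P] {r i j : ℕ}
  {psi : P → P} {K C : Finset P} {p p' y y' w z v x : P}

/-- the terms `f z p` of the covers `p` of the elements `z` of `Z`, at the part of `p` -/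
noncomputable def Xt (Z : Finset P) (f : P → P → ℤ) (t : Tops P) : ℤ :=
  ∑ z ∈ Z, ∑ p ∈ (uc z).filter (fun p => (topOf p : Tops P) = t), f z p

/-- the sum of the terms over all the parts -/
theorem sum_Xt (Z : Finset P) (f : P → P → ℤ) :
    ∑ t : Tops P, Xt Z f t = ∑ z ∈ Z, ∑ p ∈ uc z, f z p := by
  classical
  unfold Xt
  rw [Finset.sum_comm]
  refine Finset.sum_congr rfl fun z _ => ?_
  exact Finset.sum_fiberwise (uc z) (fun y => (topOf y : Tops P)) (fun y => f z y)

section nj

variable (h : NJ P r j) (hij : i + 1 = j) (hi1 : 1 ≤ i) (hb : 1 ≤ (lv P i).card)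
  (R : EK.Red P j K psi)
include h hij hi1 hb R

/-- THE END, with an extra function `X` of the parts -/
theorem nj_endX (W : Wt) (h8 : 0 ≤ W.a8) (g : P → P → ℤ) (X : Tops P → ℤ)
    (hX : ∑ t : Tops P, X t ≤ 0)
    (hg : ∀ z ∈ K2.Z2 j (topOf : P → Tops P), ∑ y ∈ uc z, g z y ≤ cst W i j K z)
    (hpos : ∀ t : Tops P, 0 ≤ Lm W g i j t + X t) :
    (∀ t : Tops P, Lm W g i j t + X t = 0) ∧
    (∑ t : Tops P, X t = 0) ∧
    (∀ z ∈ K2.Z2 j (topOf : P → Tops P), cst W i j K z = ∑ y ∈ uc z, g z y) ∧
    ∀ z ∈ mx (P := P) i, W.a8 * Wn i (topOf : P → Tops P) 3 z = 0 := by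
  classical
  have h1 := nj_total h hij hi1 hb R W
  have h2 := sum_Lm (i := i) (j := j) W g
  have h3 : ∑ z ∈ K2.Z2 j (topOf : P → Tops P), ∑ y ∈ uc z, g z y ≤
      ∑ z ∈ K2.Z2 j (topOf : P → Tops P), cst W i j K z := Finset.sum_le_sum hg
  have h4 : ∑ z ∈ mx (P := P) i, (-(W.a8 * Wn i (topOf : P → Tops P) 3 z)) =
      -(W.a8 * ∑ z ∈ mx (P := P) i, Wn i (topOf : P → Tops P) 3 z) := by
    rw [mul_sum, Finset.sum_neg_distrib]
  have h5 : ∀ z ∈ mx (P := P) i, 0 ≤ -(W.a8 * Wn i (topOf : P → Tops P) 3 z) := by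
    intro z hz
    have := nj_mixed8 h hij hi1 hz
    nlinarith
  have h6 := Finset.sum_nonneg h5
  have h7 := Finset.sum_nonneg (fun (t : Tops P) (_ : t ∈ (univ : Finset (Tops P))) => hpos t)
  have h7' : ∑ t : Tops P, (Lm W g i j t + X t) =
      ∑ t : Tops P, Lm W g i j t + ∑ t : Tops P, X t := sum_add_distrib
  have h8' : ∑ t : Tops P, (Lm W g i j t + X t) = 0 := by linarith
  have hX0 : ∑ t : Tops P, X t = 0 := by linarith
  have h9 : ∑ z ∈ K2.Z2 j (topOf : P → Tops P), (cst W i j K z - ∑ y ∈ uc z, g z y) = 0 := by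
    rw [sum_sub_distrib]
    linarith
  refine ⟨fun t => (Finset.sum_eq_zero_iff_of_nonneg (fun t _ => hpos t)).1 h8' t (mem_univ t),
    hX0, fun z hz => ?_, fun z hz => ?_⟩
  · have := (Finset.sum_eq_zero_iff_of_nonneg (fun z hz => sub_nonneg.2 (hg z hz))).1 h9 z hz
    linarith
  · have := (Finset.sum_eq_zero_iff_of_nonneg h5).1 (by linarith) z hz
    linarith

end nj

end Pool.Agent.GaussPoset.Win.Pn

end
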