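import Mathlib
import Pool.Agent.W_448zz_h61.Ns
import Pool.Agent.W_448zz_h61.M166
import Pool.Agent.W_448zz_h61.M168
import Pool.Agent.W_448zz_h61.M171

/-! From `Pool.Agent.W_448s8f_h76.GqA` -/

section

/-!
# The joins of two pendants at the window `i = j - 2` (MP_448cb3_co, S7 / S8)

If all levels below `j` are good, then case B holds at the level `j - 1`, and the joins of the level
`j + 1` between two pendants are the joins `Z2s` of the window `i = j - 2`.
-/

set_option autoImplicit false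

namespace Pool.Agent.GaussPoset.Gq

set_option linter.unusedSectionVars false

open Finset Win Wd
open Pool.Agent.GaussPoset.Win.SO (con PN on mem_PN vp F5 mem_F5 O5 mem_O5)
open Pool.Agent.GaussPoset.Win.I2 (bb VV)
open Pool.Agent.GaussPoset.Win.So (N5s Z2s mem_Z2s)
open Pool.Agent.GaussPoset.Win.T8 (P10 Q8 Q10 cg)
open Pool.Agent.GaussPoset.Win.Pn

universe u

variable {P : Type u} [Fintype P] [PartialOrder P] [DecidableEq P] {r i : ℕ}

/-- the level `i + 1` is a case B level -/
lemma nj_of (h : GoodTo P r (i + 2)) : NJ P r (i + 1) :=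
  ⟨h.mono (by omega), h.hr, fun z hz => h.no_join z (by omega)⟩

variable (h : GoodTo P r (i + 2)) (hi1 : 1 ≤ i)

include h in
/-- no twins on the level `i + 2` -/
lemma tws_empty (t : Tops P) : Tws i (SS i t) = ∅ := by
  rw [eq_empty_iff_forall_notMem]
  intro q hq
  have T := mem_Tws.1 hq
  have h1 := (mem_ZL.1 T.zl)
  have hz' : q.2 ∈ ZL i (SS i t) := by
    refine mem_ZL.2 ⟨T.mC, ?_, ?_⟩
    · obtain ⟨w, hw⟩ : (uc q.1).Nonempty := uc_nonempty h.H (by omega)
      have e1 := lev_uc h.H hw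
      rw [T.uc] at hw
      have e2 := lev_uc h.H hw
      omega
    · have e1 : sts i q.1 = sts i q.2 := by
        have l1 := h1.2.1
        have l2 : lev q.2 = i + 2 := by
          obtain ⟨w, hw⟩ : (uc q.1).Nonempty := uc_nonempty h.H (by omega)
          have e1 := lev_uc h.H hw
          rw [T.uc] at hw
          have e2 := lev_uc h.H hw
          omega
        rw [Rd.sts_bi h.H l1, Rd.sts_bi h.H l2, T.uc]
      rw [← card_sts, ← e1, card_sts]
      exact h1.2.2
  have h2 : q ∈ O5 i (SS i t) := mem_O5.2 ⟨T.zl, hz', T.ne, T.uc⟩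
  rw [So.O5_empty h t] at h2
  exact notMem_empty _ h2

include h in
/-- the covers of a crossing element of the level `i + 3` -/
lemma x3_cov {z : P} (hz : z ∈ X3 i (topOf : P → Tops P)) :
    ∃ p p', topOf p ≠ topOf p' ∧ uc z = {p, p'} ∧ (uc p).card = 1 ∧ (uc p').card = 1 ∧
      lev p = i + 2 ∧ lev p' = i + 2 := by
  obtain ⟨h1, h2⟩ := mem_X3.1 hz
  obtain ⟨p, p', hk, hu⟩ := So.two_labels h.H (Wd.split_gt h) h2 (by omega)
  have c1 : z ⋖ p := mem_uc.1 (by rw [hu]; simp)
  have c2 : z ⋖ p' := mem_uc.1 (by rw [hu]; simp)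
  have l1 := lev_cov h.H c1
  have l2 := lev_cov h.H c2
  have hne : p ≠ p' := fun e => hk (by rw [e])
  rcases (near_level' (i := i + 1) h (by omega)).1 z p p' (by omega) c1 c2 hne with g | ⟨g1, g2, -⟩
  · exfalso
    obtain ⟨y, hy, hy'⟩ := Win.exists_of_ucv (v := p) (v' := p') (by rw [g]; exact one_pos)
    have e1 := Split.le (Wd.split_gt h) p hy.1.le (by omega)
    have e2 := Split.le (Wd.split_gt h) p' hy'.1.le (by omega)
    exact hk (e1.trans e2.symm)
  · exact ⟨p, p', hk, hu, g1, g2, by omega, by omega⟩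

include h in
lemma n5s_empty : N5s i (topOf : P → Tops P) = ∅ := by
  rw [eq_empty_iff_forall_notMem]
  intro z hz
  obtain ⟨h1, h2, h3, -⟩ := So.mem_N5s.1 hz
  obtain ⟨p, p', hk, hu, c1, c2, l1, l2⟩ := x3_cov h (mem_X3.2 ⟨h1, h2⟩)
  have D : So.CrV i (topOf : P → Tops P) z p p' := ⟨h1, hu, hk⟩
  rw [D.up1 h.H (Wd.split_gt h), c1, c2] at h3
  omega

include h in
lemma nfc_empty (t : Tops P) : Rd.NfC i (SS i t) = ∅ := by
  rw [eq_empty_iff_forall_notMem]
  intro a ha
  obtain ⟨z, z2, w, w2, y, S⟩ := Rd.mem_NfC.1 ha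
  have c1 : a ⋖ z := mem_uc.1 (by rw [S.ua]; simp)
  have c2 : a ⋖ z2 := mem_uc.1 (by rw [S.ua]; simp)
  have la := S.la
  rcases (near_level' (i := i + 1) h (by omega)).1 a z z2 (by omega) c1 c2 S.ne.symm with
    g | ⟨g1, -, -⟩
  · obtain ⟨x, hx, hx'⟩ := Win.exists_of_ucv (v := z) (v' := z2) (by rw [g]; exact one_pos)
    have e1 : x ∈ uc z := mem_uc.2 hx
    have e2 : x ∈ uc z2 := mem_uc.2 hx'
    rw [S.uz, mem_insert, mem_singleton] at e1
    rw [S.uz2, mem_singleton] at e2
    rcases e1 with e1 | e1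
    · exact S.yw (e2.symm.trans e1)
    · exact S.yw2 (e2.symm.trans e1)
  · rw [S.uz, card_pair S.ww] at g1
    omega

include h in
lemma ets_empty (t : Tops P) : Rd.ETs i (SS i t) = ∅ := by
  rw [eq_empty_iff_forall_notMem]
  rintro ⟨q, c⟩ ha
  obtain ⟨p0, y0, S⟩ := Rd.mem_ETs.1 ha
  have h1 : q ∈ Tws i (SS i t) := mem_Tws.2 (S.T.tws h.H)
  rw [tws_empty h t] at h1
  exact notMem_empty _ h1

include h in
lemma prs_empty (t : Tops P) : Rd.PrS i (SS i t) = ∅ := by
  unfold Rd.PrS
  rw [tws_empty h t]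
  rfl

include h hi1

/-- the value (10,4) of a component -/
theorem q10_val (t : Tops P) : Q10 (st i (SS i t)).card (ZS i (SS i t)) =
    ((F5 i (SS i t)).card : ℤ) ^ 2 := by
  have N := nj_of h
  rcases Nat.lt_or_ge (st i (SS i t)).card 4 with h4 | h4
  · rw [nj_Q10_small N rfl t (by omega), nj_be5 N rfl hi1 t, tws_empty h t, card_empty]
    ring
  · obtain ⟨lo, hi, e, C⟩ := Cp.comp_exists N.g.H t.2 N.g.hr N.g.good
    have h5 := N.card_SS (i := i) (by omega) C
    have h6 := C.lo_le i (by omega)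
    rw [(N.vals4 rfl hi1 C (by omega)).2.2.2.2, tws_empty h t, prs_empty h t, nfc_empty h t,
      nj_F5_three N rfl hi1 t (by omega)]
    simp

/-- the value (8,3) of a component -/
theorem q8_val (t : Tops P) : Q8 (st i (SS i t)).card (ZS i (SS i t)) =
    - (I2.al 3 (st i (SS i t)).card (ZS i (SS i t)) * ((F5 i (SS i t)).card : ℤ)) := by
  have N := nj_of h
  rcases Nat.lt_or_ge (st i (SS i t)).card 4 with h4 | h4
  · rw [nj_Q8_small N rfl t (by omega), nj_be5 N rfl hi1 t, tws_empty h t, card_empty]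
    push_cast
    ring
  · obtain ⟨lo, hi, e, C⟩ := Cp.comp_exists N.g.H t.2 N.g.hr N.g.good
    have h5 := N.card_SS (i := i) (by omega) C
    have h6 := C.lo_le i (by omega)
    rw [(N.vals4 rfl hi1 C (by omega)).2.2.2.1, tws_empty h t, ets_empty h t,
      nj_F5_three N rfl hi1 t (by omega)]
    simp

/-- the flips of a component -/
lemma f5_le (t : Tops P) : (F5 i (SS i t)).card ≤ 1 := by
  classical
  have N := nj_of h
  obtain ⟨n1, n2, -⟩ := nj_one N rfl hi1 t
  have h1 : F5 i (SS i t) ⊆ (SS i t).filter (· ∈ PD P i) ×ˢ (SS i t).filter (· ∈ PU P i) := by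
    intro q hq
    obtain ⟨a1, a2, a3, a4, -⟩ := mem_F5.1 hq
    exact mem_product.2 ⟨mem_filter.2 ⟨a1, a2⟩, mem_filter.2 ⟨a3, a4⟩⟩
  have h2 := card_le_card h1
  rw [card_product] at h2
  nlinarith

end Pool.Agent.GaussPoset.Gq

end

/-! From `Pool.Agent.W_448pn_h63.QbC` -/

section

/-!
# Flip parts: the share of the pendant
(MP_448cb3_co, G2, window `j - 1`)
-/

set_option autoImplicit false

namespace Pool.Agent.GaussPoset.Win.Pf

set_option linter.unusedSectionVars false

open Finset W4 Wd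
open Pool.Agent.GaussPoset.Win.SO (con PN on mem_PN vp F5 mem_F5 PSO N1f)
open Pool.Agent.GaussPoset.Win.So (Z2s)
open Pool.Agent.GaussPoset.Win.Pn

universe u

variable {P : Type u} [Fintype P] [PartialOrder P] [DecidableEq P] {r j i : ℕ}
  {psi : P → P} {S : Finset P} {p y q u a s b : P} {lo hi : ℕ → ℕ} {e : ℕ → ℕ → P}

section nj

variable (h : NJ P r j) (hij : i + 1 = j) (hi1 : 1 ≤ i)
include h hij hi1

/-- the pinned series of the pendant at the energy five -/
theorem nj_flip_rho5 (F : Flp i (SS i (topOf p)) p y q u a s b) :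
    Pn.rho i (topOf : P → Tops P) 5 p = -1 := by
  classical
  obtain ⟨psi, hM⟩ := good_mat h.g.H (h.g.good i (by omega))
  have H := h.g.H
  have Q := nj_pso h hij hi1 hM (topOf p)
  rw [nj_rho5_PD h hij hi1 F.pD]
  have hlp := F.lp
  have hlq := F.lq
  have hsp : sit i p = {a, s} := by rw [sit_PDs H F.pD F.cp, F.cy]
  have e1 : (ZL i (SS i (topOf p)) ∪ ZU i (SS i (topOf p))).filter
      (fun z => Disjoint (sit i z) (sit i p)) = ∅ := by
    rw [filter_eq_empty_iff]
    intro z hz hd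
    have h3 : (sit i z).card = 3 ∧ z ∈ SS i (topOf p) := by
      rcases mem_union.1 hz with k | k
      · obtain ⟨k1, k2, k3⟩ := mem_ZL.1 k
        rw [sit_low H (by omega), card_sts]
        exact ⟨k3, k1⟩
      · obtain ⟨k1, k2, k3⟩ := mem_ZU.1 k
        rw [sit_upp H (by omega), card_stD]
        exact ⟨k3, k1⟩
    have h4 : sit i z = st i (SS i (topOf p)) :=
      eq_of_subset_of_card_le (SO.sit_part H Q.hC h3.2) (by rw [F.b3, h3.1])
    rw [h4, F.st, hsp] at hd
    exact disjoint_left.1 hd (mem_insert_self a _) (mem_insert_self a _)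
  have hpn : p ∈ PN i (SS i (topOf p)) := mem_PN.2 ⟨F.mp, Or.inl F.pD⟩
  have hqn : q ∈ PN i (SS i (topOf p)) := mem_PN.2 ⟨F.mq, Or.inr F.qU⟩
  have hqp : q ≠ p := fun he => by have := congrArg lev he; omega
  have e2 : Ov i (SS i (topOf p)) p = {q} := by
    ext x
    rw [mem_singleton, mem_Ov]
    constructor
    · rintro ⟨h1, h2, h3, h4⟩
      obtain ⟨m1, k | k⟩ := mem_PN.1 h1
      · exact absurd (Q.pd p F.mp x m1 F.pD k) h3
      · exact Q.pu x m1 q F.mq k F.qU
    · rintro rfl
      have h5 := F5_eq Q F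
      have h6 : (p, x) ∈ F5 i (SS i (topOf p)) := by rw [h5]; exact mem_singleton_self _
      exact ⟨hqn, hpn, hqp.symm, (mem_F5.1 h6).2.2.2.2⟩
  rw [e1, e2, sum_empty, sum_singleton, zero_add]
  unfold SO.vp
  rw [if_neg]
  intro hq
  have := (mem_PD.1 hq).1
  omega

/-- the pinned series of the pendant at the energy seven -/
theorem nj_flip_rho7 (F : Flp i (SS i (topOf p)) p y q u a s b) :
    Pn.rho i (topOf : P → Tops P) 7 p = 0 := by
  classical
  rw [nj_rho7_PD h hij hi1 F.pD, nj_flip_tws h hij hi1 (topOf p) F]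
  simp

/-- near elements which meet the sites of the pendant -/
theorem nj_flip_nn (t : Tops P) (F : Flp i (SS i t) p y q u a s b) :
    nn i p = 4 + (Sg i (SS i t) a).card := by
  classical
  obtain ⟨psi, hM⟩ := good_mat h.g.H (h.g.good i (by omega))
  have H := h.g.H
  have Q := nj_pso h hij hi1 hM t
  have nt := nj_nt h hij hi1 t F
  obtain ⟨y1, y2, y3, y4⟩ := psi_y Q F
  obtain ⟨u1, u2, u3, u4⟩ := psi_u Q F
  have ly := F.ly
  have lu := F.lu
  have lp := F.lp
  have hsp : sit i p = {a, s} := by rw [sit_PDs H F.pD F.cp, F.cy]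
  have hin : ∀ {v x : P}, v ∈ SS i t → lev v = i → (lev x = i + 1 → x ⋖ v → x ∈ SS i t) ∧
      (lev x + 1 = i → v ⋖ x → x ∈ SS i t) := by
    intro v x hv hl
    constructor
    · intro hx hc
      have h1 := (h.mem (i := i) (by omega) t (y := v) (by omega)).1 hv
      exact (h.mem (by omega) t (by omega)).2 (hc.le.trans h1)
    · intro hx hc
      exact Q.hC.up hv hc
  have aC : a ∈ SS i t := Q.hC.up (F.yC Q.hC) F.ya
  have la := F.la
  have ls := F.ls
  have n1 : psi u ≠ y := by
    intro h'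
    rw [h', F.cy] at u3
    have : b ∈ ({a, s} : Finset P) := by
      rw [u3]; exact mem_insert_of_mem (mem_singleton_self _)
    rw [mem_insert, mem_singleton] at this
    rcases this with k | k
    · exact F.ab k.symm
    · exact F.sb k.symm
  have n2 : psi y ≠ u := by
    intro h'
    rw [h', F.cu] at y3
    have : a ∈ ({s, b} : Finset P) := by rw [y3]; exact mem_insert_self _ _
    rw [mem_insert, mem_singleton] at this
    rcases this with k | k
    · exact F.as k
    · exact F.ab k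
  have hU : nLp i p ∪ nUp i p = {y, psi u} ∪ ({u, psi y} ∪ Sg i (SS i t) a) := by
    ext w
    rw [mem_union, mem_nLp, mem_nUp, hsp, mem_union, mem_union, mem_insert, mem_singleton,
      mem_insert, mem_singleton]
    have key : ∀ T : Finset P, ¬ Disjoint T {a, s} ↔ a ∈ T ∨ s ∈ T := by
      intro T
      rw [not_disjoint_iff]
      constructor
      · rintro ⟨x, h1, h2⟩
        rw [mem_insert, mem_singleton] at h2
        rcases h2 with h2 | h2
        · rw [h2] at h1; exact Or.inl h1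
        · rw [h2] at h1; exact Or.inr h1
      · rintro (h1 | h1)
        · exact ⟨a, h1, mem_insert_self _ _⟩
        · exact ⟨s, h1, mem_insert_of_mem (mem_singleton_self _)⟩
    rw [key, key]
    constructor
    · intro hw
      have hwC : w ∈ SS i t ∧ w ∈ near P i := by
        rcases hw with ⟨hl, hw⟩ | ⟨hl, hw⟩
        · refine ⟨?_, mem_near.2 (Or.inl hl)⟩
          rcases hw with hw | hw
          · exact (hin aC la).1 hl (mem_uc.1 hw)
          · exact (hin F.sC ls).1 hl (mem_uc.1 hw)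
        · refine ⟨?_, mem_near.2 (Or.inr hl)⟩
          rcases hw with hw | hw
          · exact (hin aC la).2 hl (mem_dc.1 hw)
          · exact (hin F.sC ls).2 hl (mem_dc.1 hw)
      rcases near_cls Q F nt hwC.1 hwC.2 with k | k | k | k | k | k
      · exact Or.inl (Or.inl k)
      · exact Or.inr (Or.inl (Or.inl k))
      · exact Or.inr (Or.inl (Or.inr k))
      · exact Or.inl (Or.inr k)
      · exact Or.inr (Or.inr k)
      · exfalso
        have k' := (mem_Sg.1 k).2
        rcases hw with ⟨hl, hw⟩ | ⟨hl, hw⟩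
        · rcases k' with k' | k'
          · rw [k'.2, mem_singleton, mem_singleton] at hw
            rcases hw with hw | hw
            · exact F.ab hw
            · exact F.sb hw
          · omega
        · rcases k' with k' | k'
          · omega
          · rw [k'.2, mem_singleton, mem_singleton] at hw
            rcases hw with hw | hw
            · exact F.ab hw
            · exact F.sb hw
    · rintro ((k | k) | (k | k) | k)
      · rw [k]
        exact Or.inl ⟨ly, Or.inl (by rw [F.cy]; exact mem_insert_self _ _)⟩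
      · rw [k]
        exact Or.inl ⟨u2, Or.inr (by rw [u3]; exact mem_insert_self _ _)⟩
      · rw [k]
        exact Or.inr ⟨lu, Or.inr (by rw [F.cu]; exact mem_insert_self _ _)⟩
      · rw [k]
        exact Or.inr ⟨y2, Or.inl (by rw [y3]; exact mem_insert_self _ _)⟩
      · rcases (mem_Sg.1 k).2 with k' | k'
        · exact Or.inl ⟨k'.1, Or.inl (by rw [k'.2]; exact mem_singleton_self _)⟩
        · exact Or.inr ⟨k'.1, Or.inl (by rw [k'.2]; exact mem_singleton_self _)⟩
  have hdis : Disjoint (nLp i p) (nUp i p) := by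
    rw [disjoint_left]
    intro w h1 h2
    have := (mem_nLp.1 h1).1
    have := (mem_nUp.1 h2).1
    omega
  have hSn : ∀ x ∈ Sg i (SS i t) a, x ≠ y ∧ x ≠ psi u ∧ x ≠ u ∧ x ≠ psi y := by
    intro x hx
    have hk := (mem_Sg.1 hx).2
    refine ⟨?_, ?_, ?_, ?_⟩ <;> intro hxe <;> rw [hxe] at hk <;> rcases hk with k | k
    · have h3 := congrArg Finset.card k.2
      rw [F.cy, card_pair F.as, card_singleton] at h3
      omega
    · omega
    · have h3 := congrArg Finset.card k.2
      rw [u3, card_pair F.sb, card_singleton] at h3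
      omega
    · omega
    · omega
    · have h3 := congrArg Finset.card k.2
      rw [F.cu, card_pair F.sb, card_singleton] at h3
      omega
    · omega
    · have h3 := congrArg Finset.card k.2
      rw [y3, card_pair F.as, card_singleton] at h3
      omega
  have d1 : Disjoint ({u, psi y} : Finset P) (Sg i (SS i t) a) := by
    rw [disjoint_left]
    intro x hx hx'
    rw [mem_insert, mem_singleton] at hx
    obtain ⟨k1, k2, k3, k4⟩ := hSn x hx'
    rcases hx with k | k
    · exact k3 k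
    · exact k4 k
  have d2 : Disjoint ({y, psi u} : Finset P) ({u, psi y} ∪ Sg i (SS i t) a) := by
    rw [disjoint_left]
    intro x hx hx'
    rw [mem_insert, mem_singleton] at hx
    rcases mem_union.1 hx' with k | k
    · rw [mem_insert, mem_singleton] at k
      have e1 : lev x = i + 1 := by
        rcases hx with hx | hx
        · rw [hx]; exact ly
        · rw [hx]; exact u2
      have e2 : lev x + 1 = i := by
        rcases k with k | k
        · rw [k]; exact lu
        · rw [k]; exact y2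
      omega
    · obtain ⟨k1, k2, k3, k4⟩ := hSn x k
      rcases hx with k | k
      · exact k1 k
      · exact k2 k
  have hc := card_union_of_disjoint hdis
  rw [hU, card_union_of_disjoint d2, card_union_of_disjoint d1, card_pair n1.symm,
    card_pair n2.symm] at hc
  unfold nn
  omega

/-- private children of a pendant of the part -/
theorem nj_kc (t : Tops P) (hp : p ∈ SS i t) (lp : lev p = i + 2) :
    kc p = ((FLo (SS i t) p).card : ℤ) := by
  have H := h.g.H
  unfold kc
  congr 2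
  ext x
  rw [mem_ks, mem_FLo]
  constructor
  · intro hx
    refine ⟨?_, hx⟩
    have hxp : x ⋖ p := by rw [← mem_uc, hx]; exact mem_singleton_self _
    have hlx := lev_cov H hxp
    rw [← h.cext_eq (i := i) (by omega) t, mem_cext] at hp ⊢
    intro z hz hlz
    refine hp z ?_ hlz
    have hne : x ≠ z := by
      rintro rfl
      omega
    obtain ⟨w, hw1, hw2⟩ := Hul.exists_cov (lt_of_le_of_ne hz hne)
    have : w ∈ uc x := mem_uc.2 hw1
    rw [hx, mem_singleton] at this
    rw [← this]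
    exact hw2
  · rintro ⟨-, hx⟩
    exact hx

/-- the children of a pendant: joins and private children -/
theorem nj_zc_kc (hp : lev p = i + 2) :
    zc i (topOf : P → Tops P) p + kc p ≤ 2 := by
  classical
  have H := h.g.H
  have hκ : Split (i + 2) (topOf : P → Tops P) := by
    rw [show i + 2 = j + 1 by omega]
    exact h.split
  have h1 : zs i (topOf : P → Tops P) p ∪ ks p ⊆ dc p := by
    intro z hz
    rcases mem_union.1 hz with k | k
    · exact mem_dc.2 (mem_uc.1 (mem_zs.1 k).2)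
    · exact mem_dc.2 (mem_uc.1 (by rw [mem_ks.1 k]; exact mem_singleton_self _))
  have h2 : Disjoint (zs i (topOf : P → Tops P) p) (ks p) := by
    rw [disjoint_left]
    intro z hz hz'
    obtain ⟨p1, p2, y1, y2, D, hu, hne⟩ := Z2s_pair H hκ (mem_zs.1 hz).1
    have h3 := mem_ks.1 hz'
    rw [hu] at h3
    have := congrArg Finset.card h3
    rw [card_pair hne, card_singleton] at this
    omega
  have h3 := card_le_card h1
  rw [card_union_of_disjoint h2] at h3
  have h4 := dc_card_le H p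
  unfold zc kc
  omega

/-- THE VALUE OF A FLIP PART for arbitrary weights -/
theorem nj_flip_own (W : Wt) (t : Tops P) (F : Flp i (SS i t) p y q u a s b) :
    own W i j t = W.a3 * A3 i t - W.a5 + W.a6 * (A3 i t ^ 2 + 4 +
      2 * ((N1f i (SS i t)).card + (FL i (SS i t)).card + (FU' i (SS i t)).card +
          (Sg i (SS i t) a).card + (Sg i (SS i t) b).card)) - W.a8 * A3 i t + W.a10 +
      W.f2 * F2 j t + W.f4 * F4 j t + W.f3 * F3 j t + W.f6 * F6 j t := by
  have h8 := nj_flip_Q8 h hij hi1 t F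
  have e5 : B5 i t = -1 := nj_flip_be5 h hij hi1 t F
  have e6 : C6 i t = _ := nj_flip_Q6 h hij hi1 t F
  have e8 : C8 i t = - A3 i t := h8.1
  have e10 : C10 i t = 1 := h8.2
  unfold own
  rw [e5, e6, e8, e10]
  unfold A3
  ring

/-- THE SHARE OF THE PENDANT OF A FLIP PART for arbitrary weights -/
theorem nj_flip_shr (W : Wt) (F : Flp i (SS i (topOf p)) p y q u a s b) :
    shr W i p = zc i (topOf : P → Tops P) p * (W.a5 + W.a10) -
      4 * W.a6 * zc i (topOf : P → Tops P) p *
        ((FL i (SS i (topOf p))).card + (Sg i (SS i (topOf p)) a).card + 1) -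
      2 * W.a6 * ∑ z ∈ zs i (topOf : P → Tops P) p, kc z +
      2 * W.a8 * zc i (topOf : P → Tops P) p * (1 + A3 i (topOf p)) -
      4 * W.a10 * zc i (topOf : P → Tops P) p +
      (2 * W.a10 - W.a8) *
        (zc i (topOf : P → Tops P) p * (zc i (topOf : P → Tops P) p - 1)) -
      (W.a6 - W.a8 + W.a10) * ∑ z ∈ zs i (topOf : P → Tops P) p,
        ((tw i (topOf : P → Tops P) z).card : ℤ) := by
  obtain ⟨psi, hM⟩ := good_mat h.g.H (h.g.good i (by omega))
  have Q := nj_pso h hij hi1 hM (topOf p)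
  have e5 := nj_flip_rho5 h hij hi1 F
  have e7 := nj_flip_rho7 h hij hi1 F
  have en := nj_flip_nn h hij hi1 (topOf p) F
  have ek := nj_kc h hij hi1 (topOf p) F.mp F.lp
  have eb : B5 i (topOf p) = -1 := nj_flip_be5 h hij hi1 (topOf p) F
  unfold shr
  rw [e5, e7, en, ek, eb, FL_eq Q F]
  ring

end nj

end Pool.Agent.GaussPoset.Win.Pf

end

/-! From `Pool.Agent.W_448s8f_h76.GqB` -/

section

/-!
# The local contributions of the joins at the window `i = j - 2` (MP_448cb3_co, S7 / S8)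
-/

set_option autoImplicit false

namespace Pool.Agent.GaussPoset.Gq

set_option linter.unusedSectionVars false

open Finset Win Wd
open Pool.Agent.GaussPoset.Win.SO (con PN on mem_PN vp F5 mem_F5 O5 mem_O5)
open Pool.Agent.GaussPoset.Win.I2 (bb VV)
open Pool.Agent.GaussPoset.Win.So (N5s Z2s mem_Z2s)
open Pool.Agent.GaussPoset.Win.T8 (P10 Q8 Q10 cg)
open Pool.Agent.GaussPoset.Win.Pn

universe u

variable {P : Type u} [Fintype P] [PartialOrder P] [DecidableEq P] {r i : ℕ}

/-- the number of flips -/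
noncomputable def nf (i : ℕ) (t : Tops P) : ℤ := ((F5 i (SS i t)).card : ℤ)

lemma sg_eq (h : GoodTo P r (i + 2)) (n : ℕ) (t : Tops P) :
    Pn.sg i (topOf : P → Tops P) n t = hc n (st i (SS i t)).card (ZS i (SS i t)) := by
  unfold Pn.sg
  rw [Wd.bb_eq h (by omega) t, Wd.VV_eq h (by omega) t]

variable (h : GoodTo P r (i + 2)) (hi1 : 1 ≤ i)
include h hi1

/-- single elements outside `PD` have no pinned contribution -/
lemma rho_ns {w : P} (lw : lev w = i + 2) (hc : (uc w).card = 1) (hp : w ∉ PD P i) :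
    Pn.rho i (topOf : P → Tops P) 5 w = 0 ∧ Pn.rho i (topOf : P → Tops P) 7 w = 0 := by
  have N := nj_of h
  have hz : w ∉ ZL i (SS i (topOf w)) := by
    intro hz
    obtain ⟨-, -, h3⟩ := mem_ZL.1 hz
    obtain ⟨y, hy⟩ := card_eq_one.1 hc
    have h4 : sts i w ⊆ uc y := by
      intro v hv
      rw [mem_sts_iff h.H lw] at hv
      obtain ⟨x, hx, hx'⟩ := hv
      have : x ∈ uc w := by first | exact hx | exact mem_uc.2 hx
      rw [hy, mem_singleton] at this
      rw [← this]
      first | exact hx' | exact mem_uc.2 hx'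
    have h5 := card_le_card h4
    rw [card_sts, h3] at h5
    have h6 := uc_card_le h.H y
    omega
  exact ⟨nj_rho5_else N rfl hi1 lw hp hz, nj_rho7_else N rfl hi1 lw hp hz⟩

/-- the local contribution of a join of two pendants -/
lemma wn_pair {z p p' : P} (m : ℕ) (hz : z ∈ Z2s i (topOf : P → Tops P)) (hu : uc z = {p, p'})
    (hne : p ≠ p') : Wn i (topOf : P → Tops P) m z =
      (Pn.rho i (topOf : P → Tops P) (2 * m - 1) p - Pn.sg i (topOf : P → Tops P) (2 * m - 3) (topOf p)) +
      (Pn.rho i (topOf : P → Tops P) (2 * m - 1) p' -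
        Pn.sg i (topOf : P → Tops P) (2 * m - 3) (topOf p')) := by
  have h1 := (Z2s_cov h.H (Wd.split_gt h) hz (w := p) (by rw [hu]; simp)).1
  have h2 := (Z2s_cov h.H (Wd.split_gt h) hz (w := p') (by rw [hu]; simp)).1
  rw [Wn_pair hu hne, if_pos h2, if_pos h1, if_pos ⟨h1, h2⟩]
  ring

/-- the other crossing elements of the level `i + 3` do not contribute -/
lemma wn_zero {z : P} {m : ℕ} (hm : m = 3 ∨ m = 4) (hz : z ∈ X3 i (topOf : P → Tops P))
    (hz2 : z ∉ Z2s i (topOf : P → Tops P)) : Wn i (topOf : P → Tops P) m z = 0 := by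
  obtain ⟨p, p', hk, hu, c1, c2, l1, l2⟩ := x3_cov h hz
  have hne : p ≠ p' := fun e => hk (by rw [e])
  have key : ¬ (p ∈ PD P i ∧ p' ∈ PD P i) := by
    rintro ⟨k1, k2⟩
    apply hz2
    rw [X3_Z2s h.H (Wd.split_gt h)]
    refine ⟨hz, ?_⟩
    intro q hq
    rw [hu, mem_insert, mem_singleton] at hq
    rcases hq with rfl | rfl
    · exact k1
    · exact k2
  rw [Wn_pair hu hne, if_neg key, sub_zero]
  by_cases k1 : p ∈ PD P i
  · have k2 : p' ∉ PD P i := fun k => key ⟨k1, k⟩
    have r2 := rho_ns h hi1 l2 c2 k2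
    rw [if_neg k2, if_pos k1, zero_add]
    rcases hm with rfl | rfl
    · exact r2.1
    · exact r2.2
  · have r1 := rho_ns h hi1 l1 c1 k1
    rw [if_neg k1, add_zero]
    by_cases k2 : p' ∈ PD P i
    · rw [if_pos k2]
      rcases hm with rfl | rfl
      · exact r1.1
      · exact r1.2
    · rw [if_neg k2]

lemma z2_sub : Z2s i (topOf : P → Tops P) ⊆ X3 i (topOf : P → Tops P) := by
  intro z hz
  rw [X3_Z2s h.H (Wd.split_gt h)] at hz
  exact hz.1

lemma sum_wn {m : ℕ} (hm : m = 3 ∨ m = 4) : ∑ z ∈ X3 i (topOf : P → Tops P),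
    Wn i (topOf : P → Tops P) m z = ∑ z ∈ Z2s i (topOf : P → Tops P),
      Wn i (topOf : P → Tops P) m z :=
  (sum_subset (z2_sub h hi1) fun z hz hz2 => wn_zero h hi1 hm hz hz2).symm

/-- the value (7) of a pendant -/
lemma net7 {p : P} (hp : p ∈ PD P i) : Pn.rho i (topOf : P → Tops P) 7 p -
    Pn.sg i (topOf : P → Tops P) 5 (topOf p) = nf i (topOf p) := by
  have N := nj_of h
  have e := nj_net7 N rfl hi1 hp
  rw [sg_eq h]
  have e2 : hc 5 (st i (SS i (topOf p))).card (ZS i (SS i (topOf p))) =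
      I2.be 5 (st i (SS i (topOf p))).card (ZS i (SS i (topOf p))) := rfl
  rw [e2, e, tws_empty h]
  simp [nf]

lemma wn4 {z : P} (hz : z ∈ Z2s i (topOf : P → Tops P)) :
    Wn i (topOf : P → Tops P) 4 z = ∑ p ∈ uc z, nf i (topOf p) := by
  obtain ⟨p, p', y, y', D⟩ := So.Z2s_ZD h.H (Wd.split_gt h) hz
  have hne : p ≠ p' := fun e => D.ne (by rw [e])
  have h1 := (Z2s_cov h.H (Wd.split_gt h) hz (w := p) (by rw [D.cov]; simp)).1
  have h2 := (Z2s_cov h.H (Wd.split_gt h) hz (w := p') (by rw [D.cov]; simp)).1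
  rw [wn_pair h hi1 4 hz D.cov hne, D.cov, sum_pair hne, ← net7 h hi1 h1, ← net7 h hi1 h2]

lemma wn3 {z : P} (hz : z ∈ Z2s i (topOf : P → Tops P)) :
    Wn i (topOf : P → Tops P) 3 z = ∑ p ∈ uc z, (Pn.rho i (topOf : P → Tops P) 5 p -
      Pn.sg i (topOf : P → Tops P) 3 (topOf p)) := by
  obtain ⟨p, p', y, y', D⟩ := So.Z2s_ZD h.H (Wd.split_gt h) hz
  have hne : p ≠ p' := fun e => D.ne (by rw [e])
  rw [wn_pair h hi1 3 hz D.cov hne, D.cov, sum_pair hne]

/-- the value (5) of the pendant of a flip -/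
lemma net5_flip {p : P} (hp : p ∈ PD P i) (hf : nf i (topOf p) ≠ 0) :
    Pn.rho i (topOf : P → Tops P) 5 p = -1 := by
  have N := nj_of h
  have h1 : (F5 i (SS i (topOf p))).Nonempty := by
    rw [← card_pos]
    unfold nf at hf
    omega
  obtain ⟨⟨p1, q1⟩, hq⟩ := h1
  have hp1 : p1 = p := by
    obtain ⟨n1, -, -⟩ := nj_one N rfl hi1 (topOf p)
    rw [card_le_one] at n1
    obtain ⟨a1, a2, -⟩ := mem_F5.1 hq
    exact n1 p1 (mem_filter.2 ⟨a1, a2⟩) p (mem_filter.2
      ⟨nj_mem N rfl hi1 (mem_PD.1 hp).1, hp⟩)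
  subst hp1
  obtain ⟨y, u, a, s, b, F⟩ := Pf.nj_flp N rfl hi1 (topOf p1) hq
  exact Pf.nj_flip_rho5 N rfl hi1 F

end Pool.Agent.GaussPoset.Gq

end

/-! From `Pool.Agent.W_448s8f_h76.GqC` -/

section

/-!
# No joins of two pendants (MP_448cb3_co, S7 / S8)

All levels below `i + 2` are good. If a flip is never joined with a flip nor with a component with an
element of `FU'`, then there are no joins of two pendants on the level `i + 3`.
-/

set_option autoImplicit false

namespace Pool.Agent.GaussPoset.Gq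

set_option linter.unusedSectionVars false

open Finset Win Wd
open Pool.Agent.GaussPoset.Win.SO (con PN on mem_PN vp F5 mem_F5 O5 mem_O5)
open Pool.Agent.GaussPoset.Win.I2 (bb VV)
open Pool.Agent.GaussPoset.Win.So (N5s Z2s mem_Z2s)
open Pool.Agent.GaussPoset.Win.T8 (P10 Q8 Q10 cg)
open Pool.Agent.GaussPoset.Win.Pn

universe u

variable {P : Type u} [Fintype P] [PartialOrder P] [DecidableEq P] {r i : ℕ}

/-- the sites of an element of the level `i + 2` -/
lemma sts_low (h : GoodTo P r (i + 2)) {t : Tops P} {lo hi : ℕ → ℕ} {e : ℕ → ℕ → P}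
    (C : Cp.Comp (i + 2) (t : P) lo hi e) {s s' : ℕ} (h1 : lo (i + 2) ≤ s) (h2 : s ≤ hi (i + 2))
    (h3 : lo i ≤ s') (h4 : s' ≤ hi i) : e i s' ∈ sts i (e (i + 2) s) ↔ s' ≤ s ∧ s ≤ s' + 2 := by
  rw [mem_sts, ← C.le_iff h.H h.good t.2 h3 h4 (by omega) h1 h2]
  have l1 := C.lev_e (i + 2) s (by omega) h1 h2
  have l2 := C.lev_e i s' (by omega) h3 h4
  constructor
  · rintro ⟨-, k⟩
    exact k.le
  · intro k
    refine ⟨l2, lt_of_le_of_ne k ?_⟩
    intro k'
    rw [k'] at l1
    omega

lemma sts_upp (h : GoodTo P r (i + 2)) (hi2 : 2 ≤ i) {t : Tops P} {lo hi : ℕ → ℕ}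
    {e : ℕ → ℕ → P} (C : Cp.Comp (i + 2) (t : P) lo hi e) {s s' : ℕ} (h1 : lo (i - 2) ≤ s)
    (h2 : s ≤ hi (i - 2)) (h3 : lo i ≤ s') (h4 : s' ≤ hi i) :
    e i s' ∈ stD i (e (i - 2) s) ↔ s ≤ s' ∧ s' ≤ s + 2 := by
  obtain ⟨k, rfl⟩ : ∃ k, i = k + 2 := ⟨i - 2, by omega⟩
  rw [show k + 2 - 2 = k by omega] at h1 h2 ⊢
  rw [mem_stD, ← C.le_iff h.H h.good t.2 h1 h2 (by omega) h3 h4]
  have l1 := C.lev_e k s (by omega) h1 h2
  have l2 := C.lev_e (k + 2) s' (by omega) h3 h4
  constructor
  · rintro ⟨-, k⟩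
    exact k.le
  · intro k
    refine ⟨l2, lt_of_le_of_ne k ?_⟩
    intro k'
    rw [k'] at l2
    omega

lemma le_of_SS (h : GoodTo P r (i + 2)) {t : Tops P} {z : P} (hz : z ∈ SS i t)
    (hl : lev z ≤ i + 2) : z ≤ (t : P) :=
  ((nj_of h).mem (i := i) (by omega) t (by omega)).1 hz

/-- an element of the level `i + 2` with three sites has a twin above with the same sites -/
lemma zl_zu (h : GoodTo P r (i + 2)) (hi2 : 2 ≤ i) {t : Tops P} {lo hi : ℕ → ℕ}
    {e : ℕ → ℕ → P} (C : Cp.Comp (i + 2) (t : P) lo hi e) {z : P} (hz : z ∈ ZL i (SS i t)) :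
    ∃ s, lo i + 2 ≤ s ∧ s ≤ hi i ∧ lo (i + 2) ≤ s ∧ s ≤ hi (i + 2) ∧ z = e (i + 2) s ∧
      lo (i - 2) ≤ s - 2 ∧ s - 2 ≤ hi (i - 2) ∧
      sit i z = (Icc (s - 2) s).image (e i) ∧
      sit i (e (i - 2) (s - 2)) = (Icc (s - 2) s).image (e i) ∧
      e (i - 2) (s - 2) ∈ ZU i (SS i t) := by
  classical
  obtain ⟨hzC, hzl, hz3⟩ := mem_ZL.1 hz
  have hzt : z ≤ (t : P) := le_of_SS h hzC (by omega)
  obtain ⟨s, s1, s2, s3⟩ := C.surj z hzt (by omega)
  rw [hzl] at s1 s2 s3
  have hall : ∀ v ∈ sts i z, ∃ s', lo i ≤ s' ∧ s' ≤ hi i ∧ e i s' = v := by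
    intro v hv
    obtain ⟨a1, a2⟩ := mem_sts.1 hv
    have e1 : ((topOf v : Tops P) : P) = (t : P) :=
      h.top_eq (x := z) (by omega) (topOf v).2 t.2 (a2.le.trans (le_topOf v)) hzt
    have hvt : v ≤ (t : P) := by
      rw [← e1]
      exact le_topOf v
    obtain ⟨s', b1, b2, b3⟩ := C.surj v hvt (by omega)
    rw [a1] at b1 b2 b3
    exact ⟨s', b1, b2, b3⟩
  have himg : sts i z = ((Icc (lo i) (hi i)).filter (fun s' => s' ≤ s ∧ s ≤ s' + 2)).image
      (e i) := by
    ext v
    rw [mem_image]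
    constructor
    · intro hv
      obtain ⟨s', b1, b2, b3⟩ := hall v hv
      refine ⟨s', mem_filter.2 ⟨mem_Icc.2 ⟨b1, b2⟩, ?_⟩, b3⟩
      rw [← b3, ← s3] at hv
      exact (sts_low h C s1 s2 b1 b2).1 hv
    · rintro ⟨s', b, rfl⟩
      obtain ⟨b1, b2⟩ := mem_filter.1 b
      obtain ⟨b3, b4⟩ := mem_Icc.1 b1
      rw [← s3]
      exact (sts_low h C s1 s2 b3 b4).2 b2
  have hcard : 3 ≤ ((Icc (lo i) (hi i)).filter (fun s' => s' ≤ s ∧ s ≤ s' + 2)).card := by
    have h1 : (sts i z).card = 3 := by rw [card_sts]; exact hz3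
    rw [himg] at h1
    rw [← h1]
    exact card_image_le
  have hlo : lo i + 2 ≤ s ∧ s ≤ hi i := by
    by_contra hcon
    have hsub : (Icc (lo i) (hi i)).filter (fun s' => s' ≤ s ∧ s ≤ s' + 2) ⊆
        Icc (max (lo i) (s - 2)) (min (hi i) s) := by
      intro x hx
      obtain ⟨b1, b2⟩ := mem_filter.1 hx
      obtain ⟨b3, b4⟩ := mem_Icc.1 b1
      rw [mem_Icc]
      omega
    have h1 := card_le_card hsub
    rw [Nat.card_Icc] at h1
    omega
  have hfil : (Icc (lo i) (hi i)).filter (fun s' => s' ≤ s ∧ s ≤ s' + 2) = Icc (s - 2) s := by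
    ext x
    rw [mem_filter, mem_Icc, mem_Icc]
    omega
  have m1 := C.lo_mono (l := i - 2) (d := 2) (by omega)
  have m2 := C.hi_mono (l := i - 2) (d := 2) (by omega)
  rw [show i - 2 + 2 = i by omega] at m1 m2
  have k1 : lo (i - 2) ≤ s - 2 := by omega
  have k2 : s - 2 ≤ hi (i - 2) := by omega
  have hw : stD i (e (i - 2) (s - 2)) = (Icc (s - 2) s).image (e i) := by
    ext v
    rw [mem_image]
    constructor
    · intro hv
      obtain ⟨a1, a2⟩ := mem_stD.1 hv
      have hvt : v ≤ (t : P) := a2.le.trans (C.le_t (i - 2) (s - 2) (by omega) k1 k2)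
      obtain ⟨s', b1, b2, b3⟩ := C.surj v hvt (by omega)
      rw [a1] at b1 b2 b3
      rw [← b3] at hv
      have := (sts_upp h hi2 C k1 k2 b1 b2).1 hv
      exact ⟨s', mem_Icc.2 (by omega), b3⟩
    · rintro ⟨s', b, rfl⟩
      have b' := mem_Icc.1 b
      exact (sts_upp h hi2 C k1 k2 (by omega) (by omega)).2 (by omega)
  have l0 := C.lev_e (i - 2) (s - 2) (by omega) k1 k2
  refine ⟨s, hlo.1, hlo.2, s1, s2, s3.symm, k1, k2, ?_, ?_, ?_⟩
  · rw [sit_low h.H (by omega), himg, hfil]
  · rw [sit_upp h.H (by omega), hw]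
  · rw [mem_ZU]
    refine ⟨?_, by omega, ?_⟩
    · rw [(nj_of h).mem (i := i) (by omega) t (by omega)]
      exact C.le_t (i - 2) (s - 2) (by omega) k1 k2
    · rw [← card_stD, hw, card_image_of_injOn, Nat.card_Icc]
      · omega
      · intro a ha b hb hab
        have ha' := mem_Icc.1 (mem_coe.1 ha)
        have hb' := mem_Icc.1 (mem_coe.1 hb)
        exact C.inj i a b (by omega) (by omega) (by omega) (by omega) (by omega) hab

/-- at least as many upper as lower elements with three sites meet a given set -/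
lemma zl_le_zu (h : GoodTo P r (i + 2)) (hi2 : 2 ≤ i) (t : Tops P) (Q : Finset P)
    [DecidablePred (fun z : P => ¬ Disjoint (sit i z) Q)] :
    ((ZL i (SS i t)).filter (fun z => ¬ Disjoint (sit i z) Q)).card ≤
      ((ZU i (SS i t)).filter (fun z => ¬ Disjoint (sit i z) Q)).card := by
  classical
  obtain ⟨lo, hi, e, C⟩ := Cp.comp_exists h.H t.2 h.hr h.good
  refine card_le_card_of_forall_subsingleton (fun z w => sit i z = sit i w) ?_ ?_
  · intro z hz
    obtain ⟨hz1, hz2⟩ := mem_filter.1 hz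
    obtain ⟨s, -, -, -, -, -, -, -, a1, a2, a3⟩ := zl_zu h hi2 C hz1
    refine ⟨e (i - 2) (s - 2), mem_filter.2 ⟨a3, ?_⟩, by rw [a1, a2]⟩
    rw [a2, ← a1]
    exact hz2
  · intro w _ z hz z' hz'
    obtain ⟨hz1, hz2⟩ := hz
    obtain ⟨hz1', hz2'⟩ := hz'
    obtain ⟨s, b1, b2, b3, b4, rfl, -, -, a1, -, -⟩ := zl_zu h hi2 C (mem_filter.1 hz1).1
    obtain ⟨s', b1', b2', b3', b4', rfl, -, -, a1', -, -⟩ := zl_zu h hi2 C (mem_filter.1 hz1').1
    have he : (Icc (s - 2) s).image (e i) = (Icc (s' - 2) s').image (e i) := by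
      rw [← a1, ← a1', hz2, hz2']
    have key : ∀ {x y : ℕ}, lo i + 2 ≤ x → x ≤ hi i → lo i + 2 ≤ y → y ≤ hi i →
        (Icc (x - 2) x).image (e i) ⊆ (Icc (y - 2) y).image (e i) → x ≤ y := by
      intro x y c1 c2 c3 c4 hs
      have h1 : e i x ∈ (Icc (x - 2) x).image (e i) :=
        mem_image_of_mem _ (mem_Icc.2 (by omega))
      obtain ⟨y', d1, d2⟩ := mem_image.1 (hs h1)
      have d1' := mem_Icc.1 d1
      have := C.inj i y' x (by omega) (by omega) (by omega) (by omega) (by omega) d2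
      omega
    have e1 := key b1 b2 b1' b2' he.subset
    have e2 := key b1' b2' b1 b2 he.symm.subset
    rw [show s = s' by omega]

end Pool.Agent.GaussPoset.Gq

end

/-! From `Pool.Agent.W_448s8f_h76.GqD` -/

section

/-!
# No joins of two pendants (MP_448cb3_co, S7 / S8)

All levels below `i + 2` are good. If a flip is never joined with a flip nor with a component with an
element of `FU'`, then there are no joins of two pendants on the level `i + 3`.
-/

set_option autoImplicit false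

namespace Pool.Agent.GaussPoset.Gq

set_option linter.unusedSectionVars false

open Finset Win Wd
open Pool.Agent.GaussPoset.Win.SO (con PN on mem_PN vp F5 mem_F5 O5 mem_O5)
open Pool.Agent.GaussPoset.Win.I2 (bb VV)
open Pool.Agent.GaussPoset.Win.So (N5s Z2s mem_Z2s)
open Pool.Agent.GaussPoset.Win.T8 (P10 Q8 Q10 cg)
open Pool.Agent.GaussPoset.Win.Pn

universe u

variable {P : Type u} [Fintype P] [PartialOrder P] [DecidableEq P] {r i : ℕ}

lemma nf_nonneg (t : Tops P) : 0 ≤ nf i t := Int.natCast_nonneg _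

variable (h : GoodTo P r (i + 2)) (hi1 : 1 ≤ i)
include h hi1

lemma nf_le (t : Tops P) : nf i t ≤ 1 := by
  have := f5_le h hi1 t
  unfold nf
  omega

/-- the value (5) of the pendants of the components without flip and without `FU'` -/
lemma net5_le (hi2 : 2 ≤ i) {p : P} (hp : p ∈ PD P i) (hF : F5 i (SS i (topOf p)) = ∅)
    (hU : FU' i (SS i (topOf p)) = ∅) :
    Pn.rho i (topOf : P → Tops P) 5 p - Pn.sg i (topOf : P → Tops P) 3 (topOf p) ≤ 0 := by
  classical
  have N := nj_of h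
  have e := nj_net5 N rfl hi1 hp hF
  rw [sg_eq h]
  have e2 : hc 3 (st i (SS i (topOf p))).card (ZS i (SS i (topOf p))) =
      I2.al 3 (st i (SS i (topOf p))).card (ZS i (SS i (topOf p))) := by
    unfold hc I2.al
    rw [show 3 / 2 = 1 from rfl, pow_one]
  have e3 := zl_le_zu h hi2 (topOf p) (sit i p)
  rw [e2, e, hU, card_empty]
  have e4 : ((((ZL i (SS i (topOf p))).filter
      (fun z => ¬ Disjoint (sit i z) (sit i p))).card : ℕ) : ℤ) ≤
      (((ZU i (SS i (topOf p))).filter (fun z => ¬ Disjoint (sit i z) (sit i p))).card : ℤ) := by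
    exact_mod_cast e3
  have e5 : (0 : ℤ) ≤ ((FL i (SS i (topOf p))).card : ℤ) := Int.natCast_nonneg _
  push_cast
  linarith

/-- NO JOINS OF TWO PENDANTS on the level `i + 3` -/
theorem z2_empty (hi2 : 2 ≤ i)
    (hfo : ∀ z p q, z ∈ Z2s i (topOf : P → Tops P) → uc z = {p, q} → p ≠ q →
      F5 i (SS i (topOf p)) ≠ ∅ → F5 i (SS i (topOf q)) = ∅ ∧ FU' i (SS i (topOf q)) = ∅) :
    Z2s i (topOf : P → Tops P) = ∅ := by
  classical
  have N := nj_of h
  have H := h.H
  have hκ : Split (i + 2) (topOf : P → Tops P) := Wd.split_gt h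
  by_contra hne0
  obtain ⟨z0, hz0⟩ := nonempty_iff_ne_empty.2 hne0
  have hb : 1 ≤ (lv P i).card := by
    obtain ⟨h1, -⟩ := mem_Z2s.1 hz0
    obtain ⟨y, -, hy⟩ := exists_above' (x := z0) (j := i) (by omega)
    exact card_pos.2 ⟨y, mem_lv.2 hy⟩
  set Z := Z2s i (topOf : P → Tops P) with hZ
  set T := univ.image (topOf : P → Tops P) with hT
  -- covers
  have hcov : ∀ z ∈ Z, ∃ p p', uc z = {p, p'} ∧ p ≠ p' ∧ p ∈ PD P i ∧ p' ∈ PD P i := by
    intro z hz
    obtain ⟨p, p', y, y', D⟩ := So.Z2s_ZD H hκ hz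
    have hne : p ≠ p' := fun e => D.ne (by rw [e])
    exact ⟨p, p', D.cov, hne, (Z2s_cov H hκ hz (w := p) (by rw [D.cov]; simp)).1,
      (Z2s_cov H hκ hz (w := p') (by rw [D.cov]; simp)).1⟩
  have nfc : ∀ t : Tops P, nf i t = 0 ∨ nf i t = 1 := by
    intro t
    have a1 := nf_nonneg (i := i) t
    have a2 := nf_le h hi1 t
    omega
  -- the number of joins
  have h52 : (Z.card : ℤ) = ∑ t ∈ T, nf i t := by
    have := So.Z2_card h hi1
    rw [hZ, this]
    push_cast
    rfl
  -- the total (10,4)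
  have h104 := nj_tot10' N rfl hi1 hb
  have q10 : ∑ a ∈ T, T8.Q10 (bb i (i + 2) topOf a) (VV i (i + 2) topOf a) =
      ∑ t ∈ T, nf i t := by
    refine sum_congr rfl fun t _ => ?_
    rw [Wd.bb_eq h (by omega) t, Wd.VV_eq h (by omega) t, q10_val h hi1 t]
    have e : ((F5 i (SS i t)).card : ℤ) = nf i t := rfl
    rw [e]
    rcases nfc t with e1 | e1 <;> rw [e1] <;> norm_num
  rw [q10, sum_wn h hi1 (Or.inr rfl), n5s_empty h, card_empty, ← h52] at h104
  have w4 : ∑ z ∈ Z2s i (topOf : P → Tops P), Wn i (topOf : P → Tops P) 4 z =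
      ∑ z ∈ Z, ∑ p ∈ uc z, nf i (topOf p) := sum_congr rfl fun z hz => wn4 h hi1 hz
  rw [w4] at h104
  have fl1 : ∀ z ∈ Z, ∑ p ∈ uc z, nf i (topOf p) ≤ 1 := by
    intro z hz
    obtain ⟨p, p', hu, hne, -, -⟩ := hcov z hz
    rw [hu, sum_pair hne]
    rcases nfc (topOf p) with e1 | e1
    · have := nf_le h hi1 (topOf p')
      omega
    · have hF : F5 i (SS i (topOf p)) ≠ ∅ := by
        intro hF
        unfold nf at e1
        rw [hF, card_empty] at e1
        norm_num at e1
      obtain ⟨g1, -⟩ := hfo z p p' hz hu hne hF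
      have : nf i (topOf p') = 0 := by
        unfold nf
        rw [g1, card_empty]
        rfl
      omega
  have s1 : ∑ z ∈ Z, ∑ p ∈ uc z, nf i (topOf p) ≤ (Z.card : ℤ) := by
    calc _ ≤ ∑ z ∈ Z, (1 : ℤ) := sum_le_sum fl1
      _ = _ := by simp
  have p3 : (0 : ℤ) ≤ ((PR i (topOf : P → Tops P) 3).card : ℤ) := Int.natCast_nonneg _
  have p2 : (0 : ℤ) ≤ ((DB i (topOf : P → Tops P)).card : ℤ) := Int.natCast_nonneg _
  push_cast at h104
  have s2 : ∑ z ∈ Z, ∑ p ∈ uc z, nf i (topOf p) = (Z.card : ℤ) := by linarith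
  have hPR : PR i (topOf : P → Tops P) 3 = ∅ := by
    rw [← card_eq_zero]
    have : ((PR i (topOf : P → Tops P) 3).card : ℤ) = 0 := by linarith
    exact_mod_cast this
  have hDB : DB i (topOf : P → Tops P) = ∅ := by
    rw [← card_eq_zero]
    have : ((DB i (topOf : P → Tops P)).card : ℤ) = 0 := by linarith
    exact_mod_cast this
  -- every join has exactly one flip
  have fl2 : ∀ z ∈ Z, ∑ p ∈ uc z, nf i (topOf p) = 1 := by
    have e1 : ∑ z ∈ Z, ∑ p ∈ uc z, nf i (topOf p) = ∑ z ∈ Z, (1 : ℤ) := by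
      rw [s2]; simp
    exact (sum_eq_sum_iff_of_le fl1).1 e1
  -- different joins have disjoint covers
  have hdis : ∀ z ∈ Z, ∀ z' ∈ Z, z ≠ z' → Disjoint (uc z) (uc z') := by
    intro z hz z' hz' hzz
    obtain ⟨p, p', hu, hne, -, -⟩ := hcov z hz
    obtain ⟨q, q', hu', hne', -, -⟩ := hcov z' hz'
    have c1 : (uc z).card = 2 := by rw [hu, card_pair hne]
    have c2 : (uc z').card = 2 := by rw [hu', card_pair hne']
    have hs : ({z, z'} : Finset P) ∈ Z.powersetCard 2 := by
      rw [mem_powersetCard]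
      refine ⟨?_, card_pair hzz⟩
      intro x hx
      rw [mem_insert, mem_singleton] at hx
      rcases hx with rfl | rfl
      · exact hz
      · exact hz'
    have hb' : ({z, z'} : Finset P).biUnion uc = uc z ∪ uc z' := by
      rw [biUnion_insert, singleton_biUnion]
    have n3 : (uc z ∪ uc z').card ≠ 3 := by
      intro h3
      have : ({z, z'} : Finset P) ∈ PR i (topOf : P → Tops P) 3 := by
        rw [nj_PR N rfl hi1, mem_filter]
        exact ⟨hs, by rw [hb', h3]⟩
      rw [hPR] at this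
      exact notMem_empty _ this
    have n2 : (uc z ∪ uc z').card ≠ 2 := by
      intro h3
      have : ({z, z'} : Finset P) ∈ DB i (topOf : P → Tops P) := by
        unfold DB
        rw [mem_filter]
        exact ⟨hs, by rw [hb', h3]⟩
      rw [hDB] at this
      exact notMem_empty _ this
    have u1 := card_union_add_card_inter (uc z) (uc z')
    have u2 := card_le_card (subset_union_left (s₁ := uc z) (s₂ := uc z'))
    rw [disjoint_iff_inter_eq_empty, ← card_eq_zero]
    omega
  set B := Z.biUnion uc with hB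
  have hBP : ∀ p ∈ B, p ∈ PD P i := by
    intro p hp
    obtain ⟨z, hz, hz'⟩ := mem_biUnion.1 hp
    exact (Z2s_cov H hκ hz hz').1
  have hinj : Set.InjOn (topOf : P → Tops P) (B : Set P) := by
    intro p hp p' hp' he
    have k1 := hBP p (mem_coe.1 hp)
    have k2 := hBP p' (mem_coe.1 hp')
    obtain ⟨n1, -, -⟩ := nj_one N rfl hi1 (topOf p)
    rw [card_le_one] at n1
    refine n1 p (mem_filter.2 ⟨nj_mem N rfl hi1 (mem_PD.1 k1).1, k1⟩) p' (mem_filter.2 ⟨?_, k2⟩)
    rw [he]
    exact nj_mem N rfl hi1 (mem_PD.1 k2).1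
  have hsum : ∀ G : Tops P → ℤ, ∑ z ∈ Z, ∑ p ∈ uc z, G (topOf p) = ∑ t ∈ B.image topOf, G t := by
    intro G
    rw [sum_image hinj, hB, sum_biUnion]
    intro z hz z' hz' hzz
    exact hdis z hz z' hz' hzz
  have hBT : B.image (topOf : P → Tops P) ⊆ T := image_subset_image (subset_univ _)
  have hoff : ∀ t ∈ T, t ∉ B.image (topOf : P → Tops P) → nf i t = 0 := by
    have e1 := hsum (fun t => nf i t)
    rw [s2, h52, ← sum_sdiff hBT] at e1
    have e2 : ∑ t ∈ T \ B.image (topOf : P → Tops P), nf i t = 0 := by linarith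
    rw [sum_eq_zero_iff_of_nonneg (fun t _ => nf_nonneg t)] at e2
    intro t ht ht'
    exact e2 t (mem_sdiff.2 ⟨ht, ht'⟩)
  have hfin : ∑ z ∈ Z, ∑ p ∈ uc z, Pn.sg i (topOf : P → Tops P) 3 (topOf p) * nf i (topOf p) =
      ∑ t ∈ T, Pn.sg i (topOf : P → Tops P) 3 t * nf i t := by
    rw [hsum (fun t => Pn.sg i (topOf : P → Tops P) 3 t * nf i t)]
    refine sum_subset hBT fun t ht ht' => ?_
    rw [hoff t ht ht', mul_zero]
  -- the total (8,3)
  have h83 := nj_tot8' N rfl hi1 hb
  have q8 : ∑ a ∈ T, T8.Q8 (bb i (i + 2) topOf a) (VV i (i + 2) topOf a) =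
      - ∑ t ∈ T, Pn.sg i (topOf : P → Tops P) 3 t * nf i t := by
    rw [← sum_neg_distrib]
    refine sum_congr rfl fun t _ => ?_
    rw [sg_three, Wd.bb_eq h (by omega) t, Wd.VV_eq h (by omega) t, q8_val h hi1 t]
    rfl
  rw [q8, sum_wn h hi1 (Or.inl rfl), hPR, card_empty, ← hfin] at h83
  have w3 : ∑ z ∈ Z, Wn i (topOf : P → Tops P) 3 z ≤ ∑ z ∈ Z, (-1 -
      ∑ p ∈ uc z, Pn.sg i (topOf : P → Tops P) 3 (topOf p) * nf i (topOf p)) := by
    refine sum_le_sum fun z hz => ?_
    rw [wn3 h hi1 hz]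
    have f := fl2 z hz
    obtain ⟨p, p', hu, hne, k1, k2⟩ := hcov z hz
    have hu' : uc z = {p', p} := by rw [hu, pair_comm]
    rw [hu, sum_pair hne] at f
    rw [hu, sum_pair hne, sum_pair hne]
    rcases nfc (topOf p) with e1 | e1
    · have e2 : nf i (topOf p') = 1 := by linarith
      have hF : F5 i (SS i (topOf p')) ≠ ∅ := by
        intro hF
        unfold nf at e2
        rw [hF, card_empty] at e2
        norm_num at e2
      obtain ⟨g1, g2⟩ := hfo z p' p hz hu' hne.symm hF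
      have r1 := net5_flip h hi1 k2 (by rw [e2]; norm_num)
      have r2 := net5_le h hi1 hi2 k1 g1 g2
      rw [e1, e2, r1]
      linarith
    · have e2 : nf i (topOf p') = 0 := by linarith
      have hF : F5 i (SS i (topOf p)) ≠ ∅ := by
        intro hF
        unfold nf at e1
        rw [hF, card_empty] at e1
        norm_num at e1
      obtain ⟨g1, g2⟩ := hfo z p p' hz hu hne hF
      have r1 := net5_flip h hi1 k1 (by rw [e1]; norm_num)
      have r2 := net5_le h hi1 hi2 k2 g1 g2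
      rw [e1, e2, r1]
      linarith
  rw [sum_sub_distrib, sum_const, nsmul_eq_mul] at w3
  have hpos : (1 : ℤ) ≤ (Z.card : ℤ) := by
    have : 0 < Z.card := card_pos.2 ⟨z0, hz0⟩
    exact_mod_cast this
  push_cast at h83
  rw [← hZ] at h83
  linarith

end Pool.Agent.GaussPoset.Gq

end
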