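import Mathlib
import Pool.Agent.W_448zz_h61.Ns
import Pool.Agent.W_448zz_h61.M163

/-! From `Pool.Agent.W_448s8f_h76.FrA` -/

section

/-!
# The window `j - 2` with joins of level `j + 1` (MP_448cb3_co, S7, `j = 14`)

`z` is a join of level `i + 3` of two ends: above it there are exactly the five elements
`z, x, x', u, u'` of the levels `i + 3, i + 2, i + 1` and at most three sites.  A configuration of energy
at most six which excites `z` loses at most one site, except for a lower or an upper double next to the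
window which does not touch the three sites.
-/

namespace Pool.Agent.GaussPoset.Win

set_option linter.unusedSectionVars false

open Finset

universe u

variable {P : Type u} [Fintype P] [PartialOrder P] [DecidableEq P] {r i : ℕ}

/-- the elements above a join of two ends -/
structure J5 (i : ℕ) (z x x' u u' : P) : Prop where
  lz : lev z = i + 3
  ucz : uc z = {x, x'}
  ucx : uc x = {u}
  ucx' : uc x' = {u'}
  neu : u ≠ u'
  dis : Disjoint (uc u) (uc u')
  le3 : (uc u).card + (uc u').card ≤ 3

/-- label one on `U`, one more on `o` -/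
def cf (U : Finset P) (o : Option P) : P → ℕ :=
  fun c => (if c ∈ U then 1 else 0) + (if o = some c then 1 else 0)

lemma cf_pos {U : Finset P} {o : Option P} {c : P} (h : 1 ≤ cf U o c) : c ∈ U ∨ o = some c := by
  unfold cf at h
  by_contra hc
  rw [not_or] at hc
  rw [if_neg hc.1, if_neg hc.2] at h
  omega

lemma cf_two {U : Finset P} {o : Option P} {c : P} (h : 2 ≤ cf U o c) : c ∈ U ∧ o = some c := by
  unfold cf at h
  by_contra hc
  by_cases h1 : c ∈ U
  · rw [if_neg (fun h2 => hc ⟨h1, h2⟩)] at h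
    split_ifs at h
    omega
  · rw [if_neg h1] at h
    split_ifs at h <;> omega

lemma cf_mem {U : Finset P} {o : Option P} {c : P} (h : c ∈ U) : 1 ≤ cf U o c := by
  unfold cf
  rw [if_pos h]
  omega

lemma cf_mem_ne {U : Finset P} {o : Option P} {c : P} (h : c ∈ U) (h2 : o ≠ some c) :
    cf U o c = 1 := by
  unfold cf
  rw [if_pos h, if_neg h2]

lemma cf_some {U : Finset P} {c : P} : 1 ≤ cf U (some c) c := by
  unfold cf
  rw [if_pos (rfl : (some c : Option P) = some c)]
  omega

lemma cf_some_out {U : Finset P} {c : P} (h : c ∉ U) : cf U (some c) c = 1 := by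
  unfold cf
  rw [if_pos (rfl : (some c : Option P) = some c), if_neg h]

lemma cf_out {U : Finset P} {o : Option P} {c : P} (h : c ∉ U) (h2 : o ≠ some c) :
    cf U o c = 0 := by
  unfold cf
  rw [if_neg h, if_neg h2]

/-- a configuration with one more -/
lemma cf_of_sum {U : Finset P} {e : P → ℕ} (h : ∀ c ∈ U, 1 ≤ e c)
    (hs : ∑ c, e c ≤ U.card + 1) : ∃ o, e = cf U o := by
  classical
  have h1 : ∀ c, e c = (if c ∈ U then 1 else 0) + (e c - (if c ∈ U then 1 else 0)) := by
    intro c
    by_cases hc : c ∈ U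
    · rw [if_pos hc]
      have := h c hc
      omega
    · rw [if_neg hc]
      omega
  have h2 : ∑ c, e c = U.card + ∑ c, (e c - (if c ∈ U then 1 else 0)) := by
    rw [Finset.sum_congr rfl (fun c _ => h1 c), Finset.sum_add_distrib]
    congr 1
    rw [Finset.sum_ite_mem, Finset.univ_inter, Finset.sum_const, smul_eq_mul, mul_one]
  by_cases h3 : ∃ y, e y - (if y ∈ U then 1 else 0) ≠ 0
  · obtain ⟨y, hy⟩ := h3
    refine ⟨some y, ?_⟩
    have h4 := Finset.sum_erase_add (s := (univ : Finset P))
      (f := fun c => e c - (if c ∈ U then 1 else 0)) (a := y) (mem_univ y)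
    have h5 : ∑ c ∈ univ.erase y, (e c - (if c ∈ U then 1 else 0)) = 0 := by omega
    have h6 : e y - (if y ∈ U then 1 else 0) = 1 := by omega
    rw [Finset.sum_eq_zero_iff] at h5
    funext c
    rw [h1 c]
    unfold cf
    congr 1
    by_cases hc : c = y
    · subst hc
      rw [if_pos (rfl : (some c : Option P) = some c)]
      exact h6
    · rw [if_neg (fun h7 => hc (Option.some.inj h7).symm)]
      exact h5 c (mem_erase.2 ⟨hc, mem_univ c⟩)
  · push Not at h3
    refine ⟨none, ?_⟩
    funext c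
    rw [h1 c]
    unfold cf
    congr 1
    rw [if_neg (show ¬ (none : Option P) = some c by simp)]
    exact h3 c

/-- at most one deficit -/
lemma dvd_trm_of {e : P → ℕ} (h : (AL i e).card + (AU i e).card ≤ pL i e + pU i e + 1) :
    dd ^ (lv P i).card ∣ dd * trm i e := by
  unfold trm
  split_ifs with h1
  · unfold cw
    split_ifs with h2
    · have e1 : dd * (xx ^ aL i e * xi ^ (aU i e + pU i e) * dd ^ (pL i e + pU i e) *
          (xx ^ (AL i e).card * dd ^ ((lv P i).card - (AL i e).card - (AU i e).card))) =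
          dd ^ (pL i e + pU i e + 1 + ((lv P i).card - (AL i e).card - (AU i e).card)) *
          (xx ^ aL i e * xi ^ (aU i e + pU i e) * xx ^ (AL i e).card) := by
        rw [show dd ^ (pL i e + pU i e + 1 + ((lv P i).card - (AL i e).card - (AU i e).card)) =
          dd ^ (pL i e + pU i e) * dd * dd ^ ((lv P i).card - (AL i e).card - (AU i e).card) by
            rw [pow_add, pow_succ]]
        ring
      rw [e1]
      exact Dvd.dvd.mul_right (pow_dvd_pow dd (by omega)) _
    · simp
  · simp

namespace J5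

variable {z x x' u u' : P}

section

variable (h : J5 i z x x' u u') (H : Gr P r)

include h

lemma symm : J5 i z x' x u' u where
  lz := h.lz
  ucz := by rw [h.ucz, pair_comm]
  ucx := h.ucx'
  ucx' := h.ucx
  neu := h.neu.symm
  dis := h.dis.symm
  le3 := by have := h.le3; omega

lemma nex : x ≠ x' := by
  rintro rfl
  have := h.ucx.symm.trans h.ucx'
  rw [singleton_inj] at this
  exact h.neu this

include H

lemma lx : lev x = i + 2 := by
  have h1 : x ∈ uc z := by rw [h.ucz]; exact mem_insert_self _ _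
  have := lev_uc H h1
  have := h.lz
  omega

lemma lx' : lev x' = i + 2 := by
  have h1 : x' ∈ uc z := by
    rw [h.ucz]
    exact mem_insert_of_mem (mem_singleton_self _)
  have := lev_uc H h1
  have := h.lz
  omega

lemma lu : lev u = i + 1 := by
  have h1 : u ∈ uc x := by rw [h.ucx]; exact mem_singleton_self _
  have := lev_uc H h1
  have := h.lx H
  omega

lemma lu' : lev u' = i + 1 := h.symm.lu H

omit H h in
lemma mem_U {c : P} : c ∈ ({z, x, x', u, u'} : Finset P) ↔
    c = z ∨ c = x ∨ c = x' ∨ c = u ∨ c = u' := by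
  simp only [mem_insert, mem_singleton]

lemma card_U : ({z, x, x', u, u'} : Finset P).card = 5 := by
  have l1 := h.lz
  have l2 := h.lx H
  have l3 := h.lx' H
  have l4 := h.lu H
  have l5 := h.lu' H
  have hn := h.nex
  have hu := h.neu
  rw [card_insert_of_notMem, card_insert_of_notMem, card_insert_of_notMem, card_pair hu]
  · simp only [mem_insert, mem_singleton]
    rintro (rfl | rfl) <;> omega
  · simp only [mem_insert, mem_singleton]
    rintro (rfl | rfl | rfl)
    · exact hn rfl
    · omega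
    · omega
  · simp only [mem_insert, mem_singleton]
    rintro (rfl | rfl | rfl | rfl) <;> omega

/-- all five elements are excited -/
lemma pos {e : P → ℕ} (hA : AdmL i e) (hz : 0 < e z) :
    ∀ c ∈ ({z, x, x', u, u'} : Finset P), 1 ≤ e c := by
  have m1 : x ∈ uc z := by rw [h.ucz]; exact mem_insert_self _ _
  have m2 : x' ∈ uc z := by
    rw [h.ucz]
    exact mem_insert_of_mem (mem_singleton_self _)
  have m3 : u ∈ uc x := by rw [h.ucx]; exact mem_singleton_self _
  have m4 : u' ∈ uc x' := by rw [h.ucx']; exact mem_singleton_self _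
  have g1 : z ≤ x := (mem_uc.1 m1).le
  have g2 : z ≤ x' := (mem_uc.1 m2).le
  have g3 : z ≤ u := g1.trans (mem_uc.1 m3).le
  have g4 : z ≤ u' := g2.trans (mem_uc.1 m4).le
  have l2 := h.lx H
  have l3 := h.lx' H
  have l4 := h.lu H
  have l5 := h.lu' H
  intro c hc
  rw [mem_U] at hc
  rcases hc with rfl | rfl | rfl | rfl | rfl
  · exact hz
  · exact pos_above H hA (by omega) z g1 hz
  · exact pos_above H hA (by omega) z g2 hz
  · exact pos_above H hA (by omega) z g3 hz
  · exact pos_above H hA (by omega) z g4 hz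

/-- `u` is free -/
lemma free_u {o : Option P} (h1 : o ≠ some x) (h2 : ∀ v ∈ uc u, o ≠ some v) :
    ¬ FD (cf {z, x, x', u, u'} o) u ∧ ¬ GU (cf {z, x, x', u, u'} o) u := by
  have l1 := h.lz
  have l2 := h.lx H
  have l3 := h.lx' H
  have l4 := h.lu H
  have l5 := h.lu' H
  have mu : u ∈ ({z, x, x', u, u'} : Finset P) := by rw [mem_U]; tauto
  constructor
  · rintro ⟨c, hc, hlt⟩
    have g1 := cf_mem (o := o) mu
    obtain ⟨g2, g3⟩ := cf_two (U := {z, x, x', u, u'}) (o := o) (c := c) (by omega)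
    have g4 := lev_uc H (mem_uc.2 hc)
    rw [mem_U] at g2
    rcases g2 with rfl | rfl | rfl | rfl | rfl
    · omega
    · exact h1 g3
    · have g5 := mem_uc.2 hc
      rw [h.ucx', mem_singleton] at g5
      exact h.neu g5
    · omega
    · omega
  · rintro ⟨v, hv, hle⟩
    have g1 := cf_mem (o := o) mu
    have g2 := cf_pos (U := {z, x, x', u, u'}) (o := o) (c := v) (by omega)
    have g4 := lev_uc H (mem_uc.2 hv)
    rcases g2 with g2 | g2
    · rw [mem_U] at g2
      rcases g2 with rfl | rfl | rfl | rfl | rfl <;> omega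
    · exact h2 v (mem_uc.2 hv) g2

/-- `x` is free when it has label two -/
lemma free_x : ¬ FD (cf {z, x, x', u, u'} (some x)) x ∧ ¬ GU (cf {z, x, x', u, u'} (some x)) x := by
  have l2 := h.lx H
  have l4 := h.lu H
  have mx : x ∈ ({z, x, x', u, u'} : Finset P) := by rw [mem_U]; tauto
  have mu : u ∈ ({z, x, x', u, u'} : Finset P) := by rw [mem_U]; tauto
  have g1 : cf {z, x, x', u, u'} (some x) x = 2 := by
    unfold cf
    rw [if_pos mx, if_pos (rfl : (some x : Option P) = some x)]
  constructor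
  · rintro ⟨c, hc, hlt⟩
    obtain ⟨-, g3⟩ := cf_two (U := {z, x, x', u, u'}) (o := some x) (c := c) (by omega)
    have g4 := lev_uc H (mem_uc.2 hc)
    have := Option.some.inj g3
    subst this
    omega
  · rintro ⟨v, hv, hle⟩
    have g2 := mem_uc.2 hv
    rw [h.ucx, mem_singleton] at g2
    subst g2
    rw [cf_mem_ne mu (fun hh => by
      have := Option.some.inj hh
      subst this
      omega), g1] at hle
    omega

/-- a near element outside is free -/
lemma free_y {y : P} (hy : lev y = i + 1) (h1 : y ≠ u) (h2 : y ≠ u') :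
    ¬ FD (cf {z, x, x', u, u'} (some y)) y ∧ ¬ GU (cf {z, x, x', u, u'} (some y)) y := by
  have l1 := h.lz
  have l2 := h.lx H
  have l3 := h.lx' H
  have l4 := h.lu H
  have l5 := h.lu' H
  have hn : y ∉ ({z, x, x', u, u'} : Finset P) := by
    rw [mem_U]
    rintro (rfl | rfl | rfl | rfl | rfl)
    · omega
    · omega
    · omega
    · exact h1 rfl
    · exact h2 rfl
  have g1 := cf_some_out hn
  constructor
  · rintro ⟨c, hc, hlt⟩
    obtain ⟨-, g3⟩ := cf_two (U := {z, x, x', u, u'}) (o := some y) (c := c) (by omega)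
    have g4 := lev_uc H (mem_uc.2 hc)
    have := Option.some.inj g3
    subst this
    omega
  · rintro ⟨v, hv, hle⟩
    have g4 := lev_uc H (mem_uc.2 hv)
    rcases cf_pos (U := {z, x, x', u, u'}) (o := some y) (c := v) (by omega) with g2 | g2
    · rw [mem_U] at g2
      rcases g2 with rfl | rfl | rfl | rfl | rfl <;> omega
    · have := Option.some.inj g2
      subst this
      omega

/-- the lower sites -/
lemma AL_sub {o : Option P} {v : P} (hv : v ∈ AL i (cf {z, x, x', u, u'} o)) :
    (v ∈ uc u ∨ v ∈ uc u' ∨ ∃ y, o = some y ∧ v ∈ uc y ∧ lev y = i + 1) ∧ o ≠ some v := by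
  have l1 := h.lz
  have l2 := h.lx H
  have l3 := h.lx' H
  have l4 := h.lu H
  have l5 := h.lu' H
  rw [NormD_mem_AL] at hv
  obtain ⟨hl, c, hc, hlt⟩ := hv
  have g4 := lev_uc H (mem_uc.2 hc)
  constructor
  · rcases cf_pos (U := {z, x, x', u, u'}) (o := o) (c := c) (by omega) with g2 | g2
    · rw [mem_U] at g2
      rcases g2 with rfl | rfl | rfl | rfl | rfl
      · omega
      · omega
      · omega
      · exact Or.inl (mem_uc.2 hc)
      · exact Or.inr (Or.inl (mem_uc.2 hc))
    · exact Or.inr (Or.inr ⟨c, g2, mem_uc.2 hc, by omega⟩)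
  · rintro rfl
    have g1 := cf_some (U := {z, x, x', u, u'}) (c := v)
    obtain ⟨-, g3⟩ := cf_two (U := {z, x, x', u, u'}) (o := some v) (c := c) (by omega)
    have := Option.some.inj g3
    subst this
    omega

/-- the upper sites -/
lemma AU_sub {o : Option P} {v : P} (hv : v ∈ AU i (cf {z, x, x', u, u'} o)) :
    ∃ y, o = some y ∧ v ∈ dc y ∧ lev y + 1 = i := by
  have l1 := h.lz
  have l2 := h.lx H
  have l3 := h.lx' H
  have l4 := h.lu H
  have l5 := h.lu' H
  rw [NormD_mem_AU] at hv
  obtain ⟨hl, c, hc, hlt⟩ := hv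
  have g4 := lev_uc H (mem_uc.2 hc)
  rcases cf_pos (U := {z, x, x', u, u'}) (o := o) (c := c) (by omega) with g2 | g2
  · rw [mem_U] at g2
    rcases g2 with rfl | rfl | rfl | rfl | rfl <;> omega
  · exact ⟨c, g2, mem_dc.2 hc, by omega⟩

end

end J5

end Pool.Agent.GaussPoset.Win

end

/-! From `Pool.Agent.W_448s8f_h76.FrB` -/

section

/-!
# The window `j - 2` with joins of level `j + 1` (MP_448cb3_co, S7, `j = 14`): the deficits
-/

namespace Pool.Agent.GaussPoset.Win

set_option linter.unusedSectionVars false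

open Finset

universe u

variable {P : Type u} [Fintype P] [PartialOrder P] [DecidableEq P] {r i : ℕ}

lemma le_pL {e : P → ℕ} {F : Finset P} (hF : ∀ c ∈ F, i < lev c ∧ ¬ FD e c ∧ ¬ GU e c) :
    F.card ≤ pL i e := by
  classical
  unfold pL
  apply card_le_card
  intro c hc
  rw [mem_filter]
  exact ⟨mem_univ c, hF c hc⟩

lemma le_pU {e : P → ℕ} {F : Finset P} (hF : ∀ c ∈ F, lev c < i ∧ ¬ FU e c ∧ ¬ GD e c) :
    F.card ≤ pU i e := by
  classical
  unfold pU
  apply card_le_card
  intro c hc
  rw [mem_filter]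
  exact ⟨mem_univ c, hF c hc⟩

namespace J5

variable {z x x' u u' : P}

lemma swap_U : ({z, x', x, u', u} : Finset P) = {z, x, x', u, u'} := by
  ext c
  simp only [mem_insert, mem_singleton]
  tauto

/-- an upper near element outside is free -/
lemma free_w (h : J5 i z x x' u u') (H : Gr P r) {y : P} (hy : lev y + 1 = i) :
    ¬ FU (cf {z, x, x', u, u'} (some y)) y ∧ ¬ GD (cf {z, x, x', u, u'} (some y)) y := by
  have l1 := h.lz
  have l2 := h.lx H
  have l3 := h.lx' H
  have l4 := h.lu H
  have l5 := h.lu' H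
  have hn : y ∉ ({z, x, x', u, u'} : Finset P) := by
    rw [mem_U]
    rintro (rfl | rfl | rfl | rfl | rfl) <;> omega
  have g1 := cf_some_out hn
  constructor
  · rintro ⟨c, hc, hlt⟩
    obtain ⟨-, g3⟩ := cf_two (U := {z, x, x', u, u'}) (o := some y) (c := c) (by omega)
    have g4 := lev_uc H (mem_uc.2 hc)
    have := Option.some.inj g3
    subst this
    omega
  · rintro ⟨v, hv, hle⟩
    have g4 := lev_uc H (mem_uc.2 hv)
    rcases cf_pos (U := {z, x, x', u, u'}) (o := some y) (c := v) (by omega) with g2 | g2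
    · rw [mem_U] at g2
      rcases g2 with rfl | rfl | rfl | rfl | rfl <;> omega
    · have := Option.some.inj g2
      subst this
      omega

/-- the configuration with one more at `x` or at a site of `u` -/
lemma dvd_half (h : J5 i z x x' u u') (H : Gr P r) {o : Option P}
    (ho : o = some x ∨ ∃ v ∈ uc u, o = some v) :
    dd ^ (lv P i).card ∣ dd * trm i (cf {z, x, x', u, u'} o) := by
  classical
  have l1 := h.lz
  have l2 := h.lx H
  have l3 := h.lx' H
  have l4 := h.lu H
  have l5 := h.lu' H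
  have h3 := h.le3
  have hex := h.nex
  apply dvd_trm_of
  have hAU : (AU i (cf {z, x, x', u, u'} o)).card = 0 := by
    rw [card_eq_zero, eq_empty_iff_forall_notMem]
    intro v hv
    obtain ⟨y, hy, -, hl⟩ := h.AU_sub H hv
    rcases ho with rfl | ⟨w, hw, rfl⟩
    · have := Option.some.inj hy
      subst this
      omega
    · have := Option.some.inj hy
      subst this
      have := lev_uc H hw
      omega
  rcases ho with rfl | ⟨w, hw, rfl⟩
  · have h1 : (AL i (cf {z, x, x', u, u'} (some x))).card ≤ (uc u).card + (uc u').card := by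
      refine (card_le_card ?_).trans (card_union_le _ _)
      intro v hv
      obtain ⟨g1, -⟩ := h.AL_sub H hv
      rw [mem_union]
      rcases g1 with g1 | g1 | ⟨y, hy, -, hl⟩
      · exact Or.inl g1
      · exact Or.inr g1
      · have := Option.some.inj hy
        subst this
        omega
    have h2 : ({x, u'} : Finset P).card ≤ pL i (cf {z, x, x', u, u'} (some x)) := by
      apply le_pL
      intro c hc
      rw [mem_insert, mem_singleton] at hc
      rcases hc with rfl | rfl
      · exact ⟨by omega, h.free_x H⟩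
      · refine ⟨by omega, ?_⟩
        have := h.symm.free_u H (o := some x) (fun hh => hex (Option.some.inj hh)) (by
          intro v hv hh
          have := Option.some.inj hh
          subst this
          have := lev_uc H hv
          omega)
        rwa [swap_U] at this
    rw [card_pair (by rintro rfl; omega)] at h2
    omega
  · have lw := lev_uc H hw
    have h1 : (AL i (cf {z, x, x', u, u'} (some w))).card + 1 ≤ (uc u).card + (uc u').card := by
      have h4 : AL i (cf {z, x, x', u, u'} (some w)) ⊆ (uc u ∪ uc u').erase w := by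
        intro v hv
        obtain ⟨g1, g2⟩ := h.AL_sub H hv
        rw [mem_erase, mem_union]
        refine ⟨fun hh => g2 (by rw [hh]), ?_⟩
        rcases g1 with g1 | g1 | ⟨y, hy, -, hl⟩
        · exact Or.inl g1
        · exact Or.inr g1
        · have := Option.some.inj hy
          subst this
          omega
      have h5 := card_le_card h4
      have h6 : w ∈ uc u ∪ uc u' := mem_union_left _ hw
      rw [card_erase_of_mem h6] at h5
      have h7 := card_pos.2 ⟨w, h6⟩
      have h8 := card_union_le (uc u) (uc u')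
      omega
    have h2 : ({u'} : Finset P).card ≤ pL i (cf {z, x, x', u, u'} (some w)) := by
      apply le_pL
      intro c hc
      rw [mem_singleton] at hc
      subst hc
      refine ⟨by omega, ?_⟩
      have := h.symm.free_u H (o := some w) (fun hh => by
        have := Option.some.inj hh
        subst this
        omega) (by
        intro v hv hh
        have := Option.some.inj hh
        subst this
        exact disjoint_left.1 h.dis hw hv)
      rwa [swap_U] at this
    rw [card_singleton] at h2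
    omega

/-- the exceptional positions of the additional unit -/
def Spc (i : ℕ) (S : Finset P) (y : P) : Prop :=
  (y ∈ dbL P i ∧ Disjoint (uc y) S) ∨ (y ∈ dbU P i ∧ Disjoint (dc y) S)

/-- AT MOST ONE DEFICIT, except for a double next to the window away from the three sites -/
theorem dvd_cf (h : J5 i z x x' u u') (H : Gr P r) {o : Option P}
    (ho : ∀ y, o = some y → ¬ Spc i (uc u ∪ uc u') y) :
    dd ^ (lv P i).card ∣ dd * trm i (cf {z, x, x', u, u'} o) := by
  classical
  have l1 := h.lz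
  have l2 := h.lx H
  have l3 := h.lx' H
  have l4 := h.lu H
  have l5 := h.lu' H
  have h3 := h.le3
  have hex := h.nex
  by_cases c1 : o = some x ∨ ∃ v ∈ uc u, o = some v
  · exact h.dvd_half H c1
  by_cases c2 : o = some x' ∨ ∃ v ∈ uc u', o = some v
  · have := h.symm.dvd_half H c2
    rwa [swap_U] at this
  rw [not_or] at c1 c2
  have fu := h.free_u H (o := o) c1.1 (fun v hv hh => c1.2 ⟨v, hv, hh⟩)
  have fu' := h.symm.free_u H (o := o) c2.1 (fun v hv hh => c2.2 ⟨v, hv, hh⟩)
  rw [swap_U] at fu'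
  have hsub : (∀ y, o = some y → lev y = i + 1 → y = u ∨ y = u') →
      (AL i (cf {z, x, x', u, u'} o)).card ≤ (uc u).card + (uc u').card := by
    intro hy
    refine (card_le_card ?_).trans (card_union_le _ _)
    intro v hv
    obtain ⟨g1, -⟩ := h.AL_sub H hv
    rw [mem_union]
    rcases g1 with g1 | g1 | ⟨y, hy1, hy2, hl⟩
    · exact Or.inl g1
    · exact Or.inr g1
    · rcases hy y hy1 hl with rfl | rfl
      · exact Or.inl hy2
      · exact Or.inr hy2
  by_cases c3 : ∃ y, o = some y ∧ lev y = i + 1 ∧ y ≠ u ∧ y ≠ u'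
  · obtain ⟨y, rfl, hl, hyu, hyu'⟩ := c3
    have hs := ho y rfl
    apply dvd_trm_of
    have hAU : (AU i (cf {z, x, x', u, u'} (some y))).card = 0 := by
      rw [card_eq_zero, eq_empty_iff_forall_notMem]
      intro v hv
      obtain ⟨y', hy, -, hl⟩ := h.AU_sub H hv
      have := Option.some.inj hy
      subst this
      omega
    have h4 : AL i (cf {z, x, x', u, u'} (some y)) ⊆ uc y ∪ (uc u ∪ uc u') := by
      intro v hv
      obtain ⟨g1, -⟩ := h.AL_sub H hv
      rw [mem_union, mem_union]
      rcases g1 with g1 | g1 | ⟨y', hy, g1, -⟩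
      · exact Or.inr (Or.inl g1)
      · exact Or.inr (Or.inr g1)
      · have := Option.some.inj hy
        subst this
        exact Or.inl g1
    have h5 := card_le_card h4
    have h6 := card_union_add_card_inter (uc y) (uc u ∪ uc u')
    have h7 := card_union_le (uc u) (uc u')
    have h8 := uc_card_le H y
    have h9 : (uc y ∪ (uc u ∪ uc u')).card ≤ 4 := by
      by_contra hcon
      apply hs
      refine Or.inl ⟨mem_dbL.2 ⟨hl, by omega⟩, ?_⟩
      rw [disjoint_iff_inter_eq_empty, ← card_eq_zero]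
      omega
    have h2 : ({u, u', y} : Finset P).card ≤ pL i (cf {z, x, x', u, u'} (some y)) := by
      apply le_pL
      intro c hc
      rw [mem_insert, mem_insert, mem_singleton] at hc
      rcases hc with rfl | rfl | rfl
      · exact ⟨by omega, fu⟩
      · exact ⟨by omega, fu'⟩
      · exact ⟨by omega, h.free_y H hl hyu hyu'⟩
    rw [card_insert_of_notMem, card_pair (Ne.symm hyu')] at h2
    · omega
    · rw [mem_insert, mem_singleton, not_or]
      exact ⟨h.neu, Ne.symm hyu⟩
  have hF : ({u, u'} : Finset P).card ≤ pL i (cf {z, x, x', u, u'} o) := by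
    apply le_pL
    intro c hc
    rw [mem_insert, mem_singleton] at hc
    rcases hc with rfl | rfl
    · exact ⟨by omega, fu⟩
    · exact ⟨by omega, fu'⟩
  rw [card_pair h.neu] at hF
  have hAL := hsub (by
    intro y hy hl
    by_contra hcon
    rw [not_or] at hcon
    exact c3 ⟨y, hy, hl, hcon⟩)
  by_cases c4 : ∃ y, o = some y ∧ lev y + 1 = i
  · obtain ⟨y, rfl, hl⟩ := c4
    have hs := ho y rfl
    by_cases hd : Disjoint (AL i (cf {z, x, x', u, u'} (some y)))
        (AU i (cf {z, x, x', u, u'} (some y)))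
    · apply dvd_trm_of
      have h4 : AU i (cf {z, x, x', u, u'} (some y)) ⊆ dc y := by
        intro v hv
        obtain ⟨y', hy, g1, -⟩ := h.AU_sub H hv
        have := Option.some.inj hy
        subst this
        exact g1
      have h5 := card_le_card h4
      have h8 := dc_card_le H y
      have h2 : ({y} : Finset P).card ≤ pU i (cf {z, x, x', u, u'} (some y)) := by
        apply le_pU
        intro c hc
        rw [mem_singleton] at hc
        subst hc
        exact ⟨by omega, h.free_w H hl⟩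
      rw [card_singleton] at h2
      by_cases h9 : (dc y).card = 2
      · exfalso
        apply hs
        refine Or.inr ⟨mem_dbU.2 ⟨hl, h9⟩, ?_⟩
        rw [disjoint_left]
        intro v hv hv'
        have lv' := lev_uc H (mem_uc.2 (mem_dc.1 hv))
        have hvU : v ∉ ({z, x, x', u, u'} : Finset P) := by
          rw [mem_U]
          rintro (rfl | rfl | rfl | rfl | rfl) <;> omega
        have hv0 : cf {z, x, x', u, u'} (some y) v = 0 := by
          apply cf_out hvU
          intro hh
          have := Option.some.inj hh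
          subst this
          omega
        have hyU : y ∉ ({z, x, x', u, u'} : Finset P) := by
          rw [mem_U]
          rintro (rfl | rfl | rfl | rfl | rfl) <;> omega
        refine (disjoint_left.1 hd : ∀ ⦃a⦄, _ → _ → False) (a := v) ?_ ?_
        · rw [NormD_mem_AL]
          refine ⟨by omega, ?_⟩
          rw [mem_union] at hv'
          rcases hv' with hv' | hv'
          · refine ⟨u, mem_uc.1 hv', ?_⟩
            have := cf_mem (U := ({z, x, x', u, u'} : Finset P)) (o := some y) (c := u)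
              (by rw [mem_U]; tauto)
            omega
          · refine ⟨u', mem_uc.1 hv', ?_⟩
            have := cf_mem (U := ({z, x, x', u, u'} : Finset P)) (o := some y) (c := u')
              (by rw [mem_U]; tauto)
            omega
        · rw [NormD_mem_AU]
          refine ⟨by omega, y, mem_dc.1 hv, ?_⟩
          have := cf_some (U := ({z, x, x', u, u'} : Finset P)) (c := y)
          omega
      · omega
    · unfold trm
      rw [if_neg hd, mul_zero]
      exact dvd_zero _
  · apply dvd_trm_of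
    have hAU : (AU i (cf {z, x, x', u, u'} o)).card = 0 := by
      rw [card_eq_zero, eq_empty_iff_forall_notMem]
      intro v hv
      obtain ⟨y, hy, -, hl⟩ := h.AU_sub H hv
      exact c4 ⟨y, hy, hl⟩
    omega

end J5

end Pool.Agent.GaussPoset.Win

end

/-! From `Pool.Agent.W_448s8f_h76.FrC` -/

section

/-!
# The window `j - 2` with joins of level `j + 1` (MP_448cb3_co, S7, `j = 14`): the exceptional terms
-/

namespace Pool.Agent.GaussPoset.Win

set_option linter.unusedSectionVars false

open Finset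

universe u

variable {P : Type u} [Fintype P] [PartialOrder P] [DecidableEq P] {r i : ℕ}

namespace J5

variable {z x x' u u' : P}

section

variable (h : J5 i z x x' u u') (H : Gr P r)

include h H

/-- the additional unit is outside -/
lemma out {y : P} (hy : (lev y = i + 1 ∧ y ≠ u ∧ y ≠ u') ∨ lev y + 1 = i) :
    y ∉ ({z, x, x', u, u'} : Finset P) := by
  have l1 := h.lz
  have l2 := h.lx H
  have l3 := h.lx' H
  have l4 := h.lu H
  have l5 := h.lu' H
  rw [mem_U]
  rcases hy with ⟨hy, h1, h2⟩ | hy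
  · rintro (rfl | rfl | rfl | rfl | rfl)
    · omega
    · omega
    · omega
    · exact h1 rfl
    · exact h2 rfl
  · rintro (rfl | rfl | rfl | rfl | rfl) <;> omega

/-- no lower element has a child with a larger label -/
lemma noFD {y : P} (hy : (lev y = i + 1 ∧ y ≠ u ∧ y ≠ u') ∨ lev y + 1 = i) {c : P}
    (hc : i < lev c) : ¬ FD (cf {z, x, x', u, u'} (some y)) c := by
  have l1 := h.lz
  have l2 := h.lx H
  have l3 := h.lx' H
  have l4 := h.lu H
  have l5 := h.lu' H
  have ho := h.out H hy
  rintro ⟨c', hc', hlt⟩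
  have g4 := lev_uc H (mem_uc.2 hc')
  have key : ∀ w ∈ ({z, x, x', u, u'} : Finset P), c' = w → c' ⋖ c →
      c ∈ ({z, x, x', u, u'} : Finset P) := by
    intro w hw hcw hcc
    subst hcw
    have g5 := mem_uc.2 hcc
    rw [mem_U] at hw ⊢
    rcases hw with rfl | rfl | rfl | rfl | rfl
    · rw [h.ucz, mem_insert, mem_singleton] at g5
      tauto
    · rw [h.ucx, mem_singleton] at g5
      tauto
    · rw [h.ucx', mem_singleton] at g5
      tauto
    · omega
    · omega
  rcases cf_pos (U := {z, x, x', u, u'}) (o := some y) (c := c') (by omega) with g2 | g2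
  · have g6 := key c' g2 rfl hc'
    have g7 := cf_mem (o := some y) g6
    obtain ⟨g8, g9⟩ := cf_two (U := {z, x, x', u, u'}) (o := some y) (c := c') (by omega)
    have := Option.some.inj g9
    subst this
    exact ho g8
  · have := Option.some.inj g2
    subst this
    omega

/-- no upper element has an upper cover with a larger label -/
lemma noFU {y : P} (hy : (lev y = i + 1 ∧ y ≠ u ∧ y ≠ u') ∨ lev y + 1 = i) {c : P}
    (hc : lev c < i) : ¬ FU (cf {z, x, x', u, u'} (some y)) c := by
  have l1 := h.lz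
  have l2 := h.lx H
  have l3 := h.lx' H
  have l4 := h.lu H
  have l5 := h.lu' H
  rintro ⟨c', hc', hlt⟩
  have g4 := lev_uc H (mem_uc.2 hc')
  rcases cf_pos (U := {z, x, x', u, u'}) (o := some y) (c := c') (by omega) with g2 | g2
  · rw [mem_U] at g2
    rcases g2 with rfl | rfl | rfl | rfl | rfl <;> omega
  · have := Option.some.inj g2
    subst this
    omega

lemma admL {y : P} (hy : (lev y = i + 1 ∧ y ≠ u ∧ y ≠ u') ∨ lev y + 1 = i) :
    AdmL i (cf {z, x, x', u, u'} (some y)) := fun _ hc h1 => h.noFD H hy hc h1.1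

lemma admU {y : P} (hy : (lev y = i + 1 ∧ y ≠ u ∧ y ≠ u') ∨ lev y + 1 = i) :
    AdmU i (cf {z, x, x', u, u'} (some y)) := fun _ hc h1 => h.noFU H hy hc h1.1

lemma aL0 {y : P} (hy : (lev y = i + 1 ∧ y ≠ u ∧ y ≠ u') ∨ lev y + 1 = i) :
    aL i (cf {z, x, x', u, u'} (some y)) = 0 := by
  classical
  unfold aL
  rw [card_eq_zero, filter_eq_empty_iff]
  rintro c - ⟨hc, h1⟩
  exact h.noFD H hy hc h1

lemma aU0 {y : P} (hy : (lev y = i + 1 ∧ y ≠ u ∧ y ≠ u') ∨ lev y + 1 = i) :
    aU i (cf {z, x, x', u, u'} (some y)) = 0 := by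
  classical
  unfold aU
  rw [card_eq_zero, filter_eq_empty_iff]
  rintro c - ⟨hc, h1⟩
  exact h.noFU H hy hc h1

/-- the other lower elements are blocked -/
lemma isGU {y c : P} (hc : i < lev c) (h1 : c ≠ u) (h2 : c ≠ u') (h3 : c ≠ y) :
    GU (cf {z, x, x', u, u'} (some y)) c := by
  have l1 := h.lz
  have l2 := h.lx H
  have l3 := h.lx' H
  have l4 := h.lu H
  have l5 := h.lu' H
  have hne : (some y : Option P) ≠ some c := fun hh => h3 (Option.some.inj hh).symm
  by_cases hcU : c ∈ ({z, x, x', u, u'} : Finset P)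
  · have e1 := cf_mem_ne hcU hne
    have m1 : x ∈ ({z, x, x', u, u'} : Finset P) := by rw [mem_U]; tauto
    have m2 : u ∈ ({z, x, x', u, u'} : Finset P) := by rw [mem_U]; tauto
    have m3 : u' ∈ ({z, x, x', u, u'} : Finset P) := by rw [mem_U]; tauto
    rw [mem_U] at hcU
    rcases hcU with rfl | rfl | rfl | rfl | rfl
    · refine ⟨x, mem_uc.1 (by rw [h.ucz]; exact mem_insert_self _ _), ?_⟩
      rw [e1]
      exact cf_mem m1
    · refine ⟨u, mem_uc.1 (by rw [h.ucx]; exact mem_singleton_self _), ?_⟩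
      rw [e1]
      exact cf_mem m2
    · refine ⟨u', mem_uc.1 (by rw [h.ucx']; exact mem_singleton_self _), ?_⟩
      rw [e1]
      exact cf_mem m3
    · exact absurd rfl h1
    · exact absurd rfl h2
  · obtain ⟨w, hw⟩ := uc_nonempty H (x := c) (by omega)
    refine ⟨w, mem_uc.1 hw, ?_⟩
    rw [cf_out hcU hne]
    omega

/-- the other upper elements are blocked -/
lemma isGD (hir : i ≤ r) {y c : P} (hc : lev c < i) (h3 : c ≠ y) :
    GD (cf {z, x, x', u, u'} (some y)) c := by
  have l1 := h.lz
  have l2 := h.lx H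
  have l3 := h.lx' H
  have l4 := h.lu H
  have l5 := h.lu' H
  have hne : (some y : Option P) ≠ some c := fun hh => h3 (Option.some.inj hh).symm
  have hcU : c ∉ ({z, x, x', u, u'} : Finset P) := by
    rw [mem_U]
    rintro (rfl | rfl | rfl | rfl | rfl) <;> omega
  obtain ⟨w, hw⟩ := dc_nonempty H (x := c) (by omega)
  refine ⟨w, mem_dc.1 hw, ?_⟩
  rw [cf_out hcU hne]
  omega

lemma notGU_u {y : P} (hy : (lev y = i + 1 ∧ y ≠ u ∧ y ≠ u') ∨ lev y + 1 = i) :
    ¬ GU (cf {z, x, x', u, u'} (some y)) u := by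
  have l2 := h.lx H
  refine (h.free_u H (o := some y) (fun hh => ?_) (fun v hv hh => ?_)).2
  · have := Option.some.inj hh
    subst this
    omega
  · have := Option.some.inj hh
    subst this
    have l4 := h.lu H
    have := lev_uc H hv
    omega

lemma notGU_u' {y : P} (hy : (lev y = i + 1 ∧ y ≠ u ∧ y ≠ u') ∨ lev y + 1 = i) :
    ¬ GU (cf {z, x, x', u, u'} (some y)) u' := by
  have := h.symm.notGU_u H (y := y) (by tauto)
  rwa [swap_U] at this

/-- three free lower elements -/
lemma pL3 {y : P} (hl : lev y = i + 1) (h1 : y ≠ u) (h2 : y ≠ u') :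
    pL i (cf {z, x, x', u, u'} (some y)) = 3 := by
  classical
  have l4 := h.lu H
  have l5 := h.lu' H
  have hy : (lev y = i + 1 ∧ y ≠ u ∧ y ≠ u') ∨ lev y + 1 = i := Or.inl ⟨hl, h1, h2⟩
  have e1 : ({u, u', y} : Finset P).card = 3 := by
    rw [card_insert_of_notMem, card_pair (Ne.symm h2)]
    rw [mem_insert, mem_singleton, not_or]
    exact ⟨h.neu, Ne.symm h1⟩
  rw [← e1]
  unfold pL
  congr 1
  ext c
  rw [mem_filter, mem_insert, mem_insert, mem_singleton]
  constructor
  · rintro ⟨-, g1, -, g2⟩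
    by_contra hcon
    rw [not_or, not_or] at hcon
    exact g2 (h.isGU H g1 hcon.1 hcon.2.1 hcon.2.2)
  · rintro (rfl | rfl | rfl)
    · exact ⟨mem_univ _, by omega, h.noFD H hy (by omega), h.notGU_u H hy⟩
    · exact ⟨mem_univ _, by omega, h.noFD H hy (by omega), h.notGU_u' H hy⟩
    · exact ⟨mem_univ _, by omega, h.free_y H hl h1 h2⟩

/-- two free lower elements -/
lemma pL2 {y : P} (hl : lev y + 1 = i) : pL i (cf {z, x, x', u, u'} (some y)) = 2 := by
  classical
  have l4 := h.lu H
  have l5 := h.lu' H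
  have hy : (lev y = i + 1 ∧ y ≠ u ∧ y ≠ u') ∨ lev y + 1 = i := Or.inr hl
  rw [← card_pair h.neu]
  unfold pL
  congr 1
  ext c
  rw [mem_filter, mem_insert, mem_singleton]
  constructor
  · rintro ⟨-, g1, -, g2⟩
    by_contra hcon
    rw [not_or] at hcon
    exact g2 (h.isGU H g1 hcon.1 hcon.2 (by rintro rfl; omega))
  · rintro (rfl | rfl)
    · exact ⟨mem_univ _, by omega, h.noFD H hy (by omega), h.notGU_u H hy⟩
    · exact ⟨mem_univ _, by omega, h.noFD H hy (by omega), h.notGU_u' H hy⟩

lemma pU0 (hir : i ≤ r) {y : P} (hl : lev y = i + 1) :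
    pU i (cf {z, x, x', u, u'} (some y)) = 0 := by
  classical
  unfold pU
  rw [card_eq_zero, filter_eq_empty_iff]
  rintro c - ⟨hc, -, h1⟩
  exact h1 (h.isGD H hir hc (by rintro rfl; omega))

lemma pU1 (hir : i ≤ r) {y : P} (hl : lev y + 1 = i) :
    pU i (cf {z, x, x', u, u'} (some y)) = 1 := by
  classical
  rw [← card_singleton y]
  unfold pU
  congr 1
  ext c
  rw [mem_filter, mem_singleton]
  constructor
  · rintro ⟨-, g1, -, g2⟩
    by_contra hcon
    exact g2 (h.isGD H hir g1 hcon)
  · rintro rfl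
    exact ⟨mem_univ _, by omega, h.free_w H hl⟩

/-- the sites of the five elements are hit -/
lemma mem_AL {y : P} (hy : (lev y = i + 1 ∧ y ≠ u ∧ y ≠ u') ∨ lev y + 1 = i) {v : P}
    (hv : v ∈ uc u ∪ uc u') : v ∈ AL i (cf {z, x, x', u, u'} (some y)) := by
  have l1 := h.lz
  have l2 := h.lx H
  have l3 := h.lx' H
  have l4 := h.lu H
  have l5 := h.lu' H
  have hlv : lev v = i := by
    rw [mem_union] at hv
    rcases hv with hv | hv
    · have := lev_uc H hv
      omega
    · have := lev_uc H hv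
      omega
  have hv0 : cf {z, x, x', u, u'} (some y) v = 0 := by
    apply cf_out
    · rw [mem_U]
      rintro (rfl | rfl | rfl | rfl | rfl) <;> omega
    · intro hh
      have := Option.some.inj hh
      subst this
      omega
  rw [NormD_mem_AL]
  refine ⟨hlv, ?_⟩
  rw [mem_union] at hv
  rcases hv with hv | hv
  · refine ⟨u, mem_uc.1 hv, ?_⟩
    have := cf_mem (U := ({z, x, x', u, u'} : Finset P)) (o := some y) (c := u)
      (by rw [mem_U]; tauto)
    omega
  · refine ⟨u', mem_uc.1 hv, ?_⟩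
    have := cf_mem (U := ({z, x, x', u, u'} : Finset P)) (o := some y) (c := u')
      (by rw [mem_U]; tauto)
    omega

/-- the value of the lower exceptional term -/
theorem trm_low (hir : i ≤ r) {y : P} (hy : y ∈ dbL P i) (hd : Disjoint (uc y) (uc u ∪ uc u')) :
    trm i (cf {z, x, x', u, u'} (some y)) =
      xx ^ ((uc u ∪ uc u').card + 2) *
        dd ^ ((lv P i).card - ((uc u ∪ uc u').card + 2) + 3) := by
  classical
  have l1 := h.lz
  have l2 := h.lx H
  have l3 := h.lx' H
  have l4 := h.lu H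
  have l5 := h.lu' H
  rw [mem_dbL] at hy
  have hyu : y ≠ u := by
    rintro rfl
    have := disjoint_of_subset_right (subset_union_left (s₁ := uc y) (s₂ := uc u')) hd
    rw [disjoint_self, bot_eq_empty] at this
    rw [this, card_empty] at hy
    omega
  have hyu' : y ≠ u' := by
    rintro rfl
    have := disjoint_of_subset_right (subset_union_right (s₁ := uc u) (s₂ := uc y)) hd
    rw [disjoint_self, bot_eq_empty] at this
    rw [this, card_empty] at hy
    omega
  have ho : (lev y = i + 1 ∧ y ≠ u ∧ y ≠ u') ∨ lev y + 1 = i := Or.inl ⟨hy.1, hyu, hyu'⟩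
  have e1 : AL i (cf {z, x, x', u, u'} (some y)) = (uc u ∪ uc u') ∪ uc y := by
    ext v
    constructor
    · intro hv
      obtain ⟨g1, -⟩ := h.AL_sub H hv
      rw [mem_union, mem_union]
      rcases g1 with g1 | g1 | ⟨y', hy, g1, -⟩
      · exact Or.inl (Or.inl g1)
      · exact Or.inl (Or.inr g1)
      · have := Option.some.inj hy
        subst this
        exact Or.inr g1
    · intro hv
      rw [mem_union] at hv
      rcases hv with hv | hv
      · exact h.mem_AL H ho hv
      · have lv' := lev_uc H hv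
        have hv0 : cf {z, x, x', u, u'} (some y) v = 0 := by
          apply cf_out
          · rw [mem_U]
            rintro (rfl | rfl | rfl | rfl | rfl) <;> omega
          · intro hh
            have := Option.some.inj hh
            subst this
            omega
        rw [NormD_mem_AL]
        refine ⟨by omega, y, mem_uc.1 hv, ?_⟩
        have := cf_some (U := ({z, x, x', u, u'} : Finset P)) (c := y)
        omega
  have e2 : AU i (cf {z, x, x', u, u'} (some y)) = ∅ := by
    rw [eq_empty_iff_forall_notMem]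
    intro v hv
    obtain ⟨y', hy', -, hl⟩ := h.AU_sub H hv
    have := Option.some.inj hy'
    subst this
    omega
  have e3 : (AL i (cf {z, x, x', u, u'} (some y))).card = (uc u ∪ uc u').card + 2 := by
    rw [e1, card_union_of_disjoint hd.symm, hy.2]
  unfold trm
  rw [if_pos (by rw [e2]; exact disjoint_empty_right _), e3, e2, card_empty, Nat.sub_zero]
  unfold cw
  rw [if_pos ⟨h.admL H ho, h.admU H ho⟩, h.aL0 H ho, h.aU0 H ho, h.pL3 H hy.1 hyu hyu',
    h.pU0 H hir hy.1]
  rw [pow_add dd _ 3]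
  ring

/-- the value of the upper exceptional term -/
theorem trm_upp (hir : i ≤ r) {y : P} (hy : y ∈ dbU P i) (hd : Disjoint (dc y) (uc u ∪ uc u')) :
    trm i (cf {z, x, x', u, u'} (some y)) =
      xi * xx ^ (uc u ∪ uc u').card *
        dd ^ ((lv P i).card - ((uc u ∪ uc u').card + 2) + 3) := by
  classical
  have l1 := h.lz
  have l2 := h.lx H
  have l3 := h.lx' H
  have l4 := h.lu H
  have l5 := h.lu' H
  rw [mem_dbU] at hy
  have ho : (lev y = i + 1 ∧ y ≠ u ∧ y ≠ u') ∨ lev y + 1 = i := Or.inr hy.1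
  have e1 : AL i (cf {z, x, x', u, u'} (some y)) = uc u ∪ uc u' := by
    ext v
    constructor
    · intro hv
      obtain ⟨g1, -⟩ := h.AL_sub H hv
      rw [mem_union]
      rcases g1 with g1 | g1 | ⟨y', hy', g1, hl⟩
      · exact Or.inl g1
      · exact Or.inr g1
      · have := Option.some.inj hy'
        subst this
        omega
    · exact fun hv => h.mem_AL H ho hv
  have e2 : AU i (cf {z, x, x', u, u'} (some y)) = dc y := by
    ext v
    constructor
    · intro hv
      obtain ⟨y', hy', g1, -⟩ := h.AU_sub H hv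
      have := Option.some.inj hy'
      subst this
      exact g1
    · intro hv
      have lv' := lev_uc H (mem_uc.2 (mem_dc.1 hv))
      have hv0 : cf {z, x, x', u, u'} (some y) v = 0 := by
        apply cf_out
        · rw [mem_U]
          rintro (rfl | rfl | rfl | rfl | rfl) <;> omega
        · intro hh
          have := Option.some.inj hh
          subst this
          omega
      rw [NormD_mem_AU]
      refine ⟨by omega, y, mem_dc.1 hv, ?_⟩
      have := cf_some (U := ({z, x, x', u, u'} : Finset P)) (c := y)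
      omega
  unfold trm
  rw [if_pos (by rw [e1, e2]; exact hd.symm), e1, e2, hy.2]
  unfold cw
  rw [if_pos ⟨h.admL H ho, h.admU H ho⟩, h.aL0 H ho, h.aU0 H ho, h.pL2 H hy.1,
    h.pU1 H hir hy.1]
  rw [pow_add dd _ 3, Nat.sub_sub]
  ring

/-- THE TWO EXCEPTIONAL TERMS CANCEL to the order with one deficit -/
theorem dvd_two (hir : i ≤ r) {y w : P} (hy : y ∈ dbL P i)
    (hd : Disjoint (uc y) (uc u ∪ uc u')) (hw : w ∈ dbU P i) (hw' : dc w = uc y) :
    dd ^ (lv P i).card ∣ dd * (trm i (cf {z, x, x', u, u'} (some y)) +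
      trm i (cf {z, x, x', u, u'} (some w))) := by
  rw [h.trm_low H hir hy hd, h.trm_upp H hir hw (by rw [hw']; exact hd)]
  have h3 := h.le3
  have h7 := card_union_le (uc u) (uc u')
  generalize (uc u ∪ uc u').card = s at *
  have hxx : xx ^ 2 + xi = dd * (xi * (dd ^ 2 - 3 * dd + 3)) := by
    have h1 := xx_mul_xi
    have h2 : xx = dd - 1 := rfl
    have h4 : xx ^ 3 + 1 = dd * (dd ^ 2 - 3 * dd + 3) := by
      rw [h2]
      ring
    calc xx ^ 2 + xi = xi * (xx ^ 3 + 1) - xx ^ 2 * (xx * xi - 1) := by ring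
      _ = xi * (dd * (dd ^ 2 - 3 * dd + 3)) := by rw [h4, h1]; ring
      _ = _ := by ring
  have e1 : dd * (xx ^ (s + 2) * dd ^ ((lv P i).card - (s + 2) + 3) +
      xi * xx ^ s * dd ^ ((lv P i).card - (s + 2) + 3)) =
      dd ^ ((lv P i).card - (s + 2) + 3 + 2) * (xx ^ s * (xi * (dd ^ 2 - 3 * dd + 3))) := by
    rw [pow_add xx s 2, pow_add dd _ 2]
    linear_combination (dd * xx ^ s * dd ^ ((lv P i).card - (s + 2) + 3)) * hxx
  rw [e1]
  exact Dvd.dvd.mul_right (pow_dvd_pow dd (by omega)) _

end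

end J5

end Pool.Agent.GaussPoset.Win

end

/-! From `Pool.Agent.W_448s8f_h76.FrD` -/

section

/-!
# The window `j - 2` with joins of level `j + 1` (MP_448cb3_co, S7, `j = 14`): the total

If every join of level `i + 3` is a join of two ends with at most three sites above, then the
coefficients `q^n`, `n ≤ 6`, of the product of the window series of the components of the levels
`≤ i + 2` have at most one deficit.
-/

namespace Pool.Agent.GaussPoset.Win

set_option linter.unusedSectionVars false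

open Finset

universe u

variable {P : Type u} [Fintype P] [PartialOrder P] [DecidableEq P] {r i : ℕ}

variable {ι : Type*} [DecidableEq ι] {κ : P → ι}

open Classical in
/-- the lower elements above `z` -/
noncomputable def Uz (i : ℕ) (z : P) : Finset P := univ.filter (fun w => z ≤ w ∧ i < lev w)

open Classical in
/-- the sites above `z` -/
noncomputable def Sz (i : ℕ) (z : P) : Finset P := univ.filter (fun w => z ≤ w ∧ lev w = i)

lemma mem_Uz {z w : P} : w ∈ Uz i z ↔ z ≤ w ∧ i < lev w := by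
  classical
  unfold Uz
  simp

lemma mem_Sz {z w : P} : w ∈ Sz i z ↔ z ≤ w ∧ lev w = i := by
  classical
  unfold Sz
  simp

lemma le_cases {z w : P} (h : z ≤ w) : w = z ∨ ∃ c ∈ uc z, c ≤ w := by
  rcases eq_or_lt_of_le h with h | h
  · exact Or.inl h.symm
  · obtain ⟨c, h1, h2⟩ := Hul.exists_cov h
    exact Or.inr ⟨c, mem_uc.2 h1, h2⟩

namespace J5

variable {z x x' u u' : P}

lemma above (h : J5 i z x x' u u') {w : P} (hw : z ≤ w) :
    w ∈ ({z, x, x', u, u'} : Finset P) ∨ ∃ v ∈ uc u ∪ uc u', v ≤ w := by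
  rw [mem_U]
  rcases le_cases hw with rfl | ⟨c, hc, hw⟩
  · tauto
  · rw [h.ucz, mem_insert, mem_singleton] at hc
    rcases hc with rfl | rfl
    · rcases le_cases hw with rfl | ⟨c, hc, hw⟩
      · tauto
      · rw [h.ucx, mem_singleton] at hc
        subst hc
        rcases le_cases hw with rfl | ⟨c, hc, hw⟩
        · tauto
        · exact Or.inr ⟨c, mem_union_left _ hc, hw⟩
    · rcases le_cases hw with rfl | ⟨c, hc, hw⟩
      · tauto
      · rw [h.ucx', mem_singleton] at hc
        subst hc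
        rcases le_cases hw with rfl | ⟨c, hc, hw⟩
        · tauto
        · exact Or.inr ⟨c, mem_union_right _ hc, hw⟩

lemma lev_site (h : J5 i z x x' u u') (H : Gr P r) {v : P} (hv : v ∈ uc u ∪ uc u') :
    lev v = i := by
  have l4 := h.lu H
  have l5 := h.lu' H
  rw [mem_union] at hv
  rcases hv with hv | hv
  · have := lev_uc H hv
    omega
  · have := lev_uc H hv
    omega

lemma le_U (h : J5 i z x x' u u') {c : P} (hc : c ∈ ({z, x, x', u, u'} : Finset P)) : z ≤ c := by
  have m1 : x ∈ uc z := by rw [h.ucz]; exact mem_insert_self _ _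
  have m2 : x' ∈ uc z := by
    rw [h.ucz]
    exact mem_insert_of_mem (mem_singleton_self _)
  have m3 : u ∈ uc x := by rw [h.ucx]; exact mem_singleton_self _
  have m4 : u' ∈ uc x' := by rw [h.ucx']; exact mem_singleton_self _
  have g1 : z ≤ x := (mem_uc.1 m1).le
  have g2 : z ≤ x' := (mem_uc.1 m2).le
  rw [mem_U] at hc
  rcases hc with rfl | rfl | rfl | rfl | rfl
  · exact le_rfl
  · exact g1
  · exact g2
  · exact g1.trans (mem_uc.1 m3).le
  · exact g2.trans (mem_uc.1 m4).le

lemma Uz_eq (h : J5 i z x x' u u') (H : Gr P r) : Uz i z = {z, x, x', u, u'} := by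
  ext w
  rw [mem_Uz]
  constructor
  · rintro ⟨h1, h2⟩
    rcases h.above h1 with h3 | ⟨v, hv, hvw⟩
    · exact h3
    · have := h.lev_site H hv
      have : lev w ≤ lev v := by
        rcases eq_or_lt_of_le hvw with h | h
        · rw [h]
        · exact (lev_strictAnti h).le
      omega
  · intro hw
    refine ⟨h.le_U hw, ?_⟩
    have l1 := h.lz
    have l2 := h.lx H
    have l3 := h.lx' H
    have l4 := h.lu H
    have l5 := h.lu' H
    rw [mem_U] at hw
    rcases hw with rfl | rfl | rfl | rfl | rfl <;> omega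

lemma Sz_eq (h : J5 i z x x' u u') (H : Gr P r) : Sz i z = uc u ∪ uc u' := by
  have l1 := h.lz
  have l2 := h.lx H
  have l3 := h.lx' H
  have l4 := h.lu H
  have l5 := h.lu' H
  ext w
  rw [mem_Sz]
  constructor
  · rintro ⟨h1, h2⟩
    rcases h.above h1 with h3 | ⟨v, hv, hvw⟩
    · rw [mem_U] at h3
      rcases h3 with rfl | rfl | rfl | rfl | rfl <;> omega
    · have := h.lev_site H hv
      have : v = w := by
        rcases eq_or_lt_of_le hvw with h | h
        · exact h
        · have := lev_strictAnti h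
          omega
      rwa [← this]
  · intro hw
    refine ⟨?_, h.lev_site H hw⟩
    have m2 : u ∈ ({z, x, x', u, u'} : Finset P) := by rw [mem_U]; tauto
    have m3 : u' ∈ ({z, x, x', u, u'} : Finset P) := by rw [mem_U]; tauto
    rw [mem_union] at hw
    rcases hw with hw | hw
    · exact (h.le_U m2).trans (mem_uc.1 hw).le
    · exact (h.le_U m3).trans (mem_uc.1 hw).le

end J5

lemma trm_not {e : P → ℕ} (h : ¬ AdmL i e) : trm i e = 0 := by
  unfold trm
  split_ifs with h1
  · unfold cw
    rw [if_neg (fun h2 => h h2.1), zero_mul]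
  · rfl

/-- an excited element which is not below one component: there is an excited join of level
`i + 3` -/
theorem join_of (H : Gr P r) (hκ : Split (i + 2) κ) {e : P → ℕ} (hA : AdmL i e)
    (hs : ∑ x, e x ≤ 6) {z : P} (hz : z ∉ cuni (i + 2) κ) (he : e z ≠ 0) :
    ∃ w, lev w = i + 3 ∧ w ∉ cuni (i + 2) κ ∧ 0 < e w := by
  classical
  obtain ⟨hzl, h2⟩ := two_up H hκ hz
  rcases Nat.eq_or_lt_of_le (show i + 3 ≤ lev z by omega) with h1 | h1
  · exact ⟨z, h1.symm, hz, by omega⟩
  · obtain ⟨w, hw, hwl⟩ := exists_above' (x := z) (j := i + 3) h1.le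
    refine ⟨w, hwl, ?_, pos_above H hA (by omega) z hw (by omega)⟩
    by_cases h3 : 2 ≤ up (i + 3) z
    · exfalso
      have := energy_join H hA h1 (by omega) (fun k _ hk => by
        rcases Nat.lt_or_ge k (i + 3) with h | h
        · exact h2 k (by omega)
        · have : k = i + 3 := by omega
          rw [this]
          exact h3)
      omega
    · intro hwc
      apply hz
      unfold cuni at hwc ⊢
      rw [mem_biUnion] at hwc ⊢
      obtain ⟨a, ha, hwa⟩ := hwc
      refine ⟨a, ha, ?_⟩
      rw [mem_cext] at hwa ⊢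
      intro y hy hl
      obtain ⟨w', g1, g2, g3⟩ := exists_mid H hy (k := i + 3) (by omega) h1.le
      have h4 : ((lv P (i + 3)).filter (fun v => z < v)).card ≤ 1 := by
        have h5 : up (i + 3) z ≤ 1 := by omega
        unfold up at h5
        convert h5
      rw [card_le_one] at h4
      have hlt : ∀ v, z ≤ v → lev v = i + 3 → v ∈ (lv P (i + 3)).filter (fun v => z < v) := by
        intro v hv hl
        rw [mem_filter, mem_lv]
        refine ⟨hl, lt_of_le_of_ne hv ?_⟩
        rintro rfl
        omega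
      have := h4 w (hlt w hw hwl) w' (hlt w' g1 g3)
      subst this
      exact hwa y g2 hl

open Classical in
/-- the configurations which excite an element outside of the components -/
noncomputable def TT6 (i : ℕ) (κ : P → ι) (n : ℕ) : Finset (P → ℕ) :=
  ((univ : Finset P).piAntidiag n).filter (fun e => ∃ z, z ∉ cuni (i + 2) κ ∧ e z ≠ 0)

open Classical in
/-- the pairs of a join and a lower double away from its sites -/
noncomputable def SLo (i : ℕ) (κ : P → ι) : Finset (P × P) :=
  (univ : Finset (P × P)).filter (fun p => (lev p.1 = i + 3 ∧ p.1 ∉ cuni (i + 2) κ) ∧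
    p.2 ∈ dbL P i ∧ Disjoint (uc p.2) (Sz i p.1))

open Classical in
/-- the pairs of a join and an upper double away from its sites -/
noncomputable def SUp (i : ℕ) (κ : P → ι) : Finset (P × P) :=
  (univ : Finset (P × P)).filter (fun p => (lev p.1 = i + 3 ∧ p.1 ∉ cuni (i + 2) κ) ∧
    p.2 ∈ dbU P i ∧ Disjoint (dc p.2) (Sz i p.1))

lemma mem_SLo {p : P × P} : p ∈ SLo i κ ↔ (lev p.1 = i + 3 ∧ p.1 ∉ cuni (i + 2) κ) ∧
    p.2 ∈ dbL P i ∧ Disjoint (uc p.2) (Sz i p.1) := by
  classical
  unfold SLo
  simp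

lemma mem_SUp {p : P × P} : p ∈ SUp i κ ↔ (lev p.1 = i + 3 ∧ p.1 ∉ cuni (i + 2) κ) ∧
    p.2 ∈ dbU P i ∧ Disjoint (dc p.2) (Sz i p.1) := by
  classical
  unfold SUp
  simp

/-- the configuration of a pair -/
noncomputable def mcf (i : ℕ) (p : P × P) : P → ℕ := cf (Uz i p.1) (some p.2)

section total

variable (H : Gr P r) (hκ : Split (i + 2) κ)
  (hJ : ∀ z : P, lev z = i + 3 → z ∉ cuni (i + 2) κ → ∃ x x' u u' : P, J5 i z x x' u u')

include H hJ

/-- the terms which are not exceptional -/
theorem dvd_ordinary (hκ : Split (i + 2) κ) {n : ℕ} (hn : n ≤ 6) {e : P → ℕ}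
    (he : e ∈ TT6 i κ n) (hne : ∀ p, p ∈ SLo i κ ∨ p ∈ SUp i κ → e ≠ mcf i p) :
    dd ^ (lv P i).card ∣ dd * trm i e := by
  classical
  unfold TT6 at he
  rw [mem_filter, mem_piAntidiag] at he
  obtain ⟨⟨hs, -⟩, z, hz, hez⟩ := he
  by_cases hA : AdmL i e
  · obtain ⟨w, hwl, hwc, hwe⟩ := join_of H hκ hA (by rw [hs]; exact hn) hz hez
    obtain ⟨x, x', u, u', h⟩ := hJ w hwl hwc
    obtain ⟨o, ho⟩ := cf_of_sum (h.pos H hA hwe) (by rw [h.card_U H, hs]; exact hn)
    rw [ho]
    apply h.dvd_cf H
    rintro y rfl hS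
    unfold J5.Spc at hS
    rw [← h.Sz_eq H] at hS
    rcases hS with hS | hS
    · refine hne (w, y) (Or.inl (mem_SLo.2 ⟨⟨hwl, hwc⟩, hS⟩)) ?_
      rw [ho]
      unfold mcf
      rw [h.Uz_eq H]
    · refine hne (w, y) (Or.inr (mem_SUp.2 ⟨⟨hwl, hwc⟩, hS⟩)) ?_
      rw [ho]
      unfold mcf
      rw [h.Uz_eq H]
  · rw [trm_not hA, mul_zero]
    exact dvd_zero _

/-- the energy of an exceptional configuration is six -/
lemma sum_mcf {p : P × P} (hp : p ∈ SLo i κ ∨ p ∈ SUp i κ) : ∑ c, mcf i p c = 6 := by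
  classical
  have hz : lev p.1 = i + 3 ∧ p.1 ∉ cuni (i + 2) κ := by
    rcases hp with hp | hp
    · exact (mem_SLo.1 hp).1
    · exact (mem_SUp.1 hp).1
  obtain ⟨x, x', u, u', h⟩ := hJ p.1 hz.1 hz.2
  unfold mcf
  rw [h.Uz_eq H]
  unfold cf
  rw [Finset.sum_add_distrib, Finset.sum_ite_mem, Finset.univ_inter, Finset.sum_const,
    h.card_U H, smul_eq_mul, mul_one]
  have : ∑ c : P, (if (some p.2 : Option P) = some c then 1 else 0) = 1 := by
    rw [Finset.sum_eq_single p.2]
    · rw [if_pos rfl]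
    · intro b _ hb
      rw [if_neg (fun hh => hb (Option.some.inj hh).symm)]
    · intro hh
      exact absurd (mem_univ _) hh
  rw [this]

lemma mcf_mem {p : P × P} (hp : p ∈ SLo i κ ∨ p ∈ SUp i κ) : mcf i p ∈ TT6 i κ 6 := by
  classical
  have hz : lev p.1 = i + 3 ∧ p.1 ∉ cuni (i + 2) κ := by
    rcases hp with hp | hp
    · exact (mem_SLo.1 hp).1
    · exact (mem_SUp.1 hp).1
  unfold TT6
  rw [mem_filter, mem_piAntidiag]
  refine ⟨⟨sum_mcf H hJ hp, fun c _ => mem_univ c⟩, p.1, hz.2, ?_⟩
  unfold mcf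
  have : p.1 ∈ Uz i p.1 := mem_Uz.2 ⟨le_rfl, by omega⟩
  have := cf_mem (o := some p.2) this
  omega

omit hJ in
lemma mcf_inj {p q : P × P} (hp : p ∈ SLo i κ ∨ p ∈ SUp i κ) (hq : q ∈ SLo i κ ∨ q ∈ SUp i κ)
    (h : mcf i p = mcf i q) : p = q := by
  classical
  have key : ∀ p : P × P, (p ∈ SLo i κ ∨ p ∈ SUp i κ) → lev p.1 = i + 3 ∧
      (lev p.2 = i + 1 ∨ lev p.2 + 1 = i) := by
    intro p hp
    rcases hp with hp | hp
    · obtain ⟨h1, h2, -⟩ := mem_SLo.1 hp
      exact ⟨h1.1, Or.inl (mem_dbL.1 h2).1⟩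
    · obtain ⟨h1, h2, -⟩ := mem_SUp.1 hp
      exact ⟨h1.1, Or.inr (mem_dbU.1 h2).1⟩
  obtain ⟨p1, p2⟩ := key p hp
  obtain ⟨q1, q2⟩ := key q hq
  have e1 : p.1 = q.1 := by
    have h1 : p.1 ∈ Uz i p.1 := mem_Uz.2 ⟨le_rfl, by omega⟩
    have h2 := cf_mem (o := some p.2) h1
    have h3 := congrFun h p.1
    unfold mcf at h3
    rw [h3] at h2
    rcases cf_pos h2 with h4 | h4
    · rw [mem_Uz] at h4
      rcases eq_or_lt_of_le h4.1 with h5 | h5
      · exact h5.symm
      · have := lev_strictAnti h5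
        omega
    · have := Option.some.inj h4
      rw [← this] at p1
      omega
  have e2 : p.2 = q.2 := by
    have h3 := congrFun h p.2
    unfold mcf cf at h3
    rw [e1, if_pos (rfl : (some p.2 : Option P) = some p.2)] at h3
    by_contra hcon
    rw [if_neg (fun hh => hcon (Option.some.inj hh).symm)] at h3
    omega
  exact Prod.ext e1 e2

end total

end Pool.Agent.GaussPoset.Win

end

/-! From `Pool.Agent.W_448s8f_h76.FrE` -/

section

/-!
# The window `j - 2` with joins of level `j + 1` (MP_448cb3_co, S7, `j = 14`): the product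
-/

namespace Pool.Agent.GaussPoset.Win

set_option linter.unusedSectionVars false

open Finset

universe u

variable {P : Type u} [Fintype P] [PartialOrder P] [DecidableEq P] {r i : ℕ}

variable {ι : Type*} [DecidableEq ι] {κ : P → ι}

variable (H : Gr P r) (hir : i ≤ r) (hg : Good P i) (hκ : Split (i + 2) κ)
  (hJ : ∀ z : P, lev z = i + 3 → z ∉ cuni (i + 2) κ → ∃ x x' u u' : P, J5 i z x x' u u')

include H hJ

include hir hg in
/-- the exceptional terms cancel -/
theorem dvd_exc : dd ^ (lv P i).card ∣ dd * (∑ p ∈ SLo i κ, trm i (mcf i p) +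
    ∑ p ∈ SUp i κ, trm i (mcf i p)) := by
  classical
  obtain ⟨psi, hM⟩ := good_mat H hg
  have e1 : ∑ p ∈ SUp i κ, trm i (mcf i p) =
      ∑ p ∈ SLo i κ, trm i (mcf i (p.1, psi p.2)) := by
    symm
    refine Finset.sum_bij' (fun p _ => (p.1, psi p.2)) (fun p _ => (p.1, psi p.2)) ?_ ?_ ?_ ?_ ?_
    · intro p hp
      obtain ⟨h1, h2, h3⟩ := mem_SLo.1 hp
      obtain ⟨g1, g2⟩ := hM.low p.2 h2 (notMem_empty _)
      exact mem_SUp.2 ⟨h1, g1, by rw [g2]; exact h3⟩
    · intro p hp
      obtain ⟨h1, h2, h3⟩ := mem_SUp.1 hp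
      obtain ⟨g1, g2⟩ := hM.upp p.2 h2 (notMem_empty _)
      exact mem_SLo.2 ⟨h1, g1, by rw [g2]; exact h3⟩
    · intro p hp
      obtain ⟨h1, h2, h3⟩ := mem_SLo.1 hp
      have := (hM.invol p.2 (mem_union_left _ h2) (notMem_empty _)).1
      exact Prod.ext rfl this
    · intro p hp
      obtain ⟨h1, h2, h3⟩ := mem_SUp.1 hp
      have := (hM.invol p.2 (mem_union_right _ h2) (notMem_empty _)).1
      exact Prod.ext rfl this
    · intro p hp
      rfl
  rw [e1, ← Finset.sum_add_distrib, Finset.mul_sum]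
  refine Finset.dvd_sum fun p hp => ?_
  obtain ⟨h1, h2, h3⟩ := mem_SLo.1 hp
  obtain ⟨x, x', u, u', h⟩ := hJ p.1 h1.1 h1.2
  obtain ⟨g1, g2⟩ := hM.low p.2 h2 (notMem_empty _)
  rw [h.Sz_eq H] at h3
  have := h.dvd_two H hir h2 h3 g1 g2
  unfold mcf
  rwa [h.Uz_eq H]

include hir hg in
/-- THE JOINED CONFIGURATIONS have at most one deficit -/
theorem dvd_TT6 (hκ : Split (i + 2) κ) {n : ℕ} (hn : n ≤ 6) :
    dd ^ (lv P i).card ∣ dd * ∑ e ∈ TT6 i κ n, trm i e := by
  classical
  rcases Nat.lt_or_ge n 6 with h6 | h6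
  · rw [Finset.mul_sum]
    refine Finset.dvd_sum fun e he => ?_
    refine dvd_ordinary H hJ hκ hn he ?_
    rintro p hp rfl
    have h1 := sum_mcf H hJ hp
    unfold TT6 at he
    rw [mem_filter, mem_piAntidiag] at he
    have h2 : ∑ c, mcf i p c = n := he.1.1
    omega
  · obtain rfl : n = 6 := by omega
    have hsub : (SLo i κ ∪ SUp i κ).image (mcf i) ⊆ TT6 i κ 6 := by
      intro e he
      rw [mem_image] at he
      obtain ⟨p, hp, rfl⟩ := he
      rw [mem_union] at hp
      exact mcf_mem H hJ hp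
    rw [← Finset.sum_sdiff hsub, mul_add]
    refine dvd_add ?_ ?_
    · rw [Finset.mul_sum]
      refine Finset.dvd_sum fun e he => ?_
      rw [mem_sdiff, mem_image] at he
      refine dvd_ordinary H hJ hκ hn he.1 ?_
      rintro p hp rfl
      exact he.2 ⟨p, mem_union.2 hp, rfl⟩
    · rw [Finset.sum_image (fun p hp q hq h => mcf_inj H (mem_union.1 hp) (mem_union.1 hq) h),
        Finset.sum_union]
      · exact dvd_exc H hir hg hJ
      · rw [disjoint_left]
        intro p hp hq
        have h1 := mem_dbL.1 (mem_SLo.1 hp).2.1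
        have h2 := mem_dbU.1 (mem_SUp.1 hq).2.1
        omega

omit hJ in
/-- the window sum is the product and the joined configurations -/
theorem sum_trm_TT6 (hil : i ≤ i + 2) (hir : i ≤ r) (hκ : Split (i + 2) κ) (n : ℕ) :
    ∑ e ∈ (univ : Finset P).piAntidiag n, trm i e =
      PowerSeries.coeff n (∏ a ∈ univ.image κ, ZS i (cext (i + 2) κ a)) +
        ∑ e ∈ TT6 i κ n, trm i e := by
  classical
  rw [← ZS_cuni H hir hil hκ, coeff_ZS]
  unfold ZC TT6
  rw [← Finset.sum_filter_add_sum_filter_not ((univ : Finset P).piAntidiag n)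
    (fun e => ∃ z, z ∉ cuni (i + 2) κ ∧ e z ≠ 0), add_comm]
  congr 1
  have hset : ((univ : Finset P).piAntidiag n).filter
      (fun e => ¬ ∃ z, z ∉ cuni (i + 2) κ ∧ e z ≠ 0) = (cuni (i + 2) κ).piAntidiag n := by
    ext e
    rw [mem_filter, mem_piAntidiag, mem_piAntidiag]
    constructor
    · rintro ⟨⟨h1, -⟩, h2⟩
      have h3 : ∀ x, e x ≠ 0 → x ∈ cuni (i + 2) κ := by
        intro x hx
        by_contra hc
        exact h2 ⟨x, hc, hx⟩
      refine ⟨?_, h3⟩
      rw [← h1]
      refine Finset.sum_subset (subset_univ _) fun x _ hx => ?_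
      by_contra h0
      exact hx (h3 x h0)
    · rintro ⟨h1, h2⟩
      refine ⟨⟨?_, fun x _ => mem_univ x⟩, ?_⟩
      · rw [← h1]
        symm
        refine Finset.sum_subset (subset_univ _) fun x _ hx => ?_
        by_contra h0
        exact hx (h2 x h0)
      · rintro ⟨x, hx, hx0⟩
        exact hx (h2 x hx0)
  rw [hset]
  refine Finset.sum_congr rfl fun e _ => ?_
  unfold tC trm
  rw [st_cuni hil hκ]

include hir hg in
/-- THE TOTAL HAS AT MOST ONE DEFICIT up to energy six -/
theorem dvd_prod6 (hκ : Split (i + 2) κ) {n : ℕ} (hn : n ≤ 6) :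
    dd ^ (∑ a ∈ univ.image κ, (st i (cext (i + 2) κ a)).card) ∣
      dd * PowerSeries.coeff n (∏ a ∈ univ.image κ, ZS i (cext (i + 2) κ a)) := by
  rw [sum_card_st (by omega) hκ]
  have h1 := sum_trm_TT6 H (i := i) (by omega) hir hκ n
  have h2 : PowerSeries.coeff n (∏ a ∈ univ.image κ, ZS i (cext (i + 2) κ a)) =
      ∑ e ∈ (univ : Finset P).piAntidiag n, trm i e - ∑ e ∈ TT6 i κ n, trm i e := by
    rw [h1]
    ring
  rw [h2, mul_sub]
  exact dvd_sub (Dvd.dvd.mul_left (dvd_sum_trm H hir n) _) (dvd_TT6 H hir hg hJ hκ hn)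

end Pool.Agent.GaussPoset.Win

end

/-! From `Pool.Agent.W_448s8f_h76.FrF` -/

section

/-!
# The window `j - 2` with joins of level `j + 1` (MP_448cb3_co, S7, `j = 14`): (5,2), (3,1), (6,2)
-/

namespace Pool.Agent.GaussPoset.Win.I2

set_option linter.unusedSectionVars false

open Finset

universe u

/-- `∑ ε_c β_c = 0` when the total has at most one deficit -/
theorem sum_odd1 {ι : Type*} (s : Finset ι) {e m : ℕ} (he : 1 ≤ e) (hem : e < m) (hm : m < 2 * e)
    (b : ι → ℕ) (V : ι → PowerSeries A) (h : ∀ c ∈ s, Prof e m (b c) (V c))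
    (h1 : ∀ c ∈ s, eps (b c) (V c) ^ 2 = 1)
    (hP2 : dd ^ (∑ c ∈ s, b c) ∣ dd * PowerSeries.coeff m (∏ c ∈ s, V c)) :
    ∑ c ∈ s, eps (b c) (V c) * be m (b c) (V c) = 0 := by
  obtain ⟨_, _, _, i4⟩ := prod_all s he hem hm.le b V h h1
  have hne : m ≠ 2 * e := hm.ne
  simp only [if_neg hne, zero_sub] at i4
  have e2 : be m (∑ c ∈ s, b c) (∏ c ∈ s, V c) = 0 := by
    unfold be
    apply coeff_eq_zero_of_dvd
    rw [pow_succ', pow_two, mul_assoc]
    exact mul_dvd_mul_left _ hP2
  rw [e2, mul_zero, mul_zero, neg_zero, Finset.sum_neg_distrib, ← Finset.mul_sum] at i4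
  linarith

/-- second power sum when the total at `q^(2e)` has at most one deficit -/
theorem sum_second1 {ι : Type*} (s : Finset ι) {e : ℕ} (he : 1 ≤ e) (b : ι → ℕ)
    (V : ι → PowerSeries A) (h : ∀ c ∈ s, Prof e (2 * e) (b c) (V c))
    (h1 : ∀ c ∈ s, eps (b c) (V c) ^ 2 = 1)
    (hP : dd ^ (∑ c ∈ s, b c) ∣ PowerSeries.coeff e (∏ c ∈ s, V c))
    (hP2 : dd ^ (∑ c ∈ s, b c) ∣ dd * PowerSeries.coeff (2 * e) (∏ c ∈ s, V c)) :
    ∑ c ∈ s, ((al e (b c) (V c)) ^ 2 - 2 * (eps (b c) (V c) * be (2 * e) (b c) (V c))) = 0 := by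
  obtain ⟨_, _, i3, i4⟩ := prod_all s he (by omega) le_rfl b V h h1
  simp only [if_true] at i4
  rw [← i4]
  have e1 : al e (∑ c ∈ s, b c) (∏ c ∈ s, V c) = 0 := by
    unfold al
    apply coeff_eq_zero_of_dvd
    rw [pow_succ']
    exact mul_dvd_mul_left _ hP
  have e2 : be (2 * e) (∑ c ∈ s, b c) (∏ c ∈ s, V c) = 0 := by
    unfold be
    apply coeff_eq_zero_of_dvd
    rw [pow_succ', pow_two, mul_assoc]
    exact mul_dvd_mul_left _ hP2
  rw [e1, e2]
  ring

variable {P : Type u} [Fintype P] [PartialOrder P] [DecidableEq P] {r i : ℕ}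

variable {ι : Type*} [DecidableEq ι] {κ : P → ι}

variable (H : Gr P r) (hir : i ≤ r)
    (hg : ∀ m, i ≤ m + 1 → m ≤ i + 1 → Good P m) (hκ : Split (i + 2) κ)
    (hJ : ∀ z : P, lev z = i + 3 → z ∉ cuni (i + 2) κ → ∃ x x' u u' : P, J5 i z x x' u u')

include H hir hg hκ hJ

lemma tot_dvd1 {n : ℕ} (hn : n ≤ 6) :
    dd ^ (∑ a ∈ univ.image κ, bb i (i + 2) κ a) ∣
      dd * PowerSeries.coeff n (∏ a ∈ univ.image κ, VV i (i + 2) κ a) :=
  dvd_prod6 H hir (hg i (by omega) (by omega)) hJ hκ hn

/-- (5,2) vanishes for every component if it is nowhere positive -/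
theorem be5_zero1 (hneg : ∀ a ∈ univ.image κ, 3 ≤ bb i (i + 2) κ a →
      be 5 (bb i (i + 2) κ a) (VV i (i + 2) κ a) ≤ 0) :
    ∀ a ∈ univ.image κ, be 5 (bb i (i + 2) κ a) (VV i (i + 2) κ a) = 0 := by
  have h1 := sum_odd1 (univ.image κ) (e := 3) (m := 5) (by omega) (by omega) (by omega)
    (bb i (i + 2) κ) (VV i (i + 2) κ) (fun a ha => prof35 H hir (by omega) hg hκ ha)
    (fun a _ => eps_sq H hir a) (tot_dvd1 H hir hg hκ hJ (by omega))
  simp only [eps_VV H hir, one_mul] at h1
  have h2 : ∀ a ∈ univ.image κ, be 5 (bb i (i + 2) κ a) (VV i (i + 2) κ a) ≤ 0 := by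
    intro a ha
    rcases Nat.lt_or_ge (bb i (i + 2) κ a) 3 with h | h
    · rw [be_small H hir (by omega) hκ a (by omega)]
    · exact hneg a ha h
  exact (Finset.sum_eq_zero_iff_of_nonpos h2).1 h1

/-- (3,1) and (6,2) -/
theorem al3_sq1 (h5 : ∀ a ∈ univ.image κ, be 5 (bb i (i + 2) κ a) (VV i (i + 2) κ a) = 0)
    (hneg : ∀ a ∈ univ.image κ, 3 ≤ bb i (i + 2) κ a →
      2 * be 6 (bb i (i + 2) κ a) (VV i (i + 2) κ a) ≤
        (al 3 (bb i (i + 2) κ a) (VV i (i + 2) κ a)) ^ 2) :
    ∀ a ∈ univ.image κ, (al 3 (bb i (i + 2) κ a) (VV i (i + 2) κ a)) ^ 2 =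
      2 * be 6 (bb i (i + 2) κ a) (VV i (i + 2) κ a) := by
  have h1 := sum_second1 (univ.image κ) (e := 3) (by omega)
    (bb i (i + 2) κ) (VV i (i + 2) κ)
    (fun a ha => prof36 H hir (by omega) hg hκ ha (h5 a ha))
    (fun a _ => eps_sq H hir a) (tot_dvd H hir (by omega) hκ (by omega))
    (tot_dvd1 H hir hg hκ hJ (by omega))
  simp only [eps_VV H hir, one_mul] at h1
  have h2 : ∀ a ∈ univ.image κ, 0 ≤ (al 3 (bb i (i + 2) κ a) (VV i (i + 2) κ a)) ^ 2 -
      2 * be (2 * 3) (bb i (i + 2) κ a) (VV i (i + 2) κ a) := by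
    intro a ha
    rcases Nat.lt_or_ge (bb i (i + 2) κ a) 3 with h | h
    · rw [be_small H hir (by omega) hκ a (by omega)]
      have := sq_nonneg (al 3 (bb i (i + 2) κ a) (VV i (i + 2) κ a))
      linarith
    · have := hneg a ha h
      linarith
  intro a ha
  have h3 := (Finset.sum_eq_zero_iff_of_nonneg h2).1 h1 a ha
  linarith

end Pool.Agent.GaussPoset.Win.I2

namespace Pool.Agent.GaussPoset.Wd

set_option linter.unusedSectionVars false

open Finset Win Win.I2

universe u

variable {P : Type u} [Fintype P] [PartialOrder P] [DecidableEq P] {r j i k : ℕ}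

/-- the levels less than or equal to `j` are good (no joins), the joins of level `j + 1` are joins of two
ends with at most three elements above on the level `j - 2`; `i = j - 2` is the window -/
structure GJ (P : Type u) [Fintype P] [PartialOrder P] [DecidableEq P] (r i : ℕ) : Prop where
  g : GoodTo P r (i + 2)
  hi1 : 1 ≤ i
  hr : i + 3 ≤ r
  jn : ∀ z : P, lev z = i + 3 → Hul.Jn z → ∃ x x' u u' : P, J5 i z x x' u u'

namespace GJ

variable (h : GJ P r i)

include h

lemma nj {z : P} (hz : lev z ≤ i + 2) : ¬ Hul.Jn z := h.g.no_join z hz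

theorem split : Split (i + 2) (topOf : P → Tops P) := by
  intro v y hvy hv
  refine Subtype.ext ?_
  exact Hul.top_unique (h.nj hv) (topOf v).2 (topOf y).2 (le_topOf v) (hvy.le.trans (le_topOf y))

/-- the extended component does not depend on the level of the decomposition -/
lemma cext_eq (t : Tops P) : cext (i + 2) (topOf : P → Tops P) t = SS i t := by
  unfold SS
  ext x
  rw [mem_cext, mem_cext]
  constructor
  · intro hx y hy hl
    exact hx y hy (by omega)
  · intro hx y hy hl
    rcases Nat.lt_or_ge (lev y) i with h1 | h1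
    · exact hx y hy h1.le
    · obtain ⟨y', hy', hl'⟩ := exists_above' (x := y) (j := i) h1
      rw [Split.le h.split (y := y') y hy' hl]
      exact hx y' (hy.trans hy') hl'.le

lemma mem (t : Tops P) {y : P} (hy : lev y ≤ i + 2) : y ∈ SS i t ↔ y ≤ (t : P) := by
  rw [← h.cext_eq t, mem_cext]
  constructor
  · intro h1
    have h2 := h1 y le_rfl hy
    rw [← h2]
    exact le_topOf y
  · intro h1 z hz hlz
    refine Subtype.ext ?_
    exact Hul.top_unique (h.nj hy) (topOf z).2 t.2 (hz.trans (le_topOf z)) h1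

/-- an element with one upper cover belongs to the part of its cover -/
lemma mem_one {t : Tops P} {z w : P} (hz : uc z = {w}) (hl : i < lev z) (hw : w ∈ SS i t) :
    z ∈ SS i t := by
  unfold SS at hw ⊢
  rw [mem_cext] at hw ⊢
  intro y hy hly
  rcases le_cases hy with rfl | ⟨c, hc, hcy⟩
  · omega
  · rw [hz, mem_singleton] at hc
    subst hc
    exact hw y hcy hly

lemma part (hk : k ≤ i + 2) (t : Tops P) : Part k (SS i t) := by
  rw [← h.cext_eq t]
  exact part_cext h.g.H hk h.split t

lemma bb_eq (t : Tops P) : bb i (i + 2) (topOf : P → Tops P) t = (st i (SS i t)).card := by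
  unfold bb
  rw [h.cext_eq t]

lemma VV_eq (t : Tops P) : VV i (i + 2) (topOf : P → Tops P) t = ZS i (SS i t) := by
  unfold VV
  rw [h.cext_eq t]

lemma jn' (z : P) (hz : lev z = i + 3) (hc : z ∉ cuni (i + 2) (topOf : P → Tops P)) :
    ∃ x x' u u' : P, J5 i z x x' u u' := by
  refine h.jn z hz ?_
  by_contra hn
  apply hc
  unfold cuni
  rw [mem_biUnion]
  refine ⟨topOf z, mem_image_of_mem _ (mem_univ z), ?_⟩
  rw [mem_cext]
  intro y hy _
  refine Subtype.ext ?_
  exact Hul.top_unique hn (topOf y).2 (topOf z).2 (hy.trans (le_topOf y)) (le_topOf z)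

/-- (5,2) -/
theorem be5_all (t : Tops P) : be 5 (st i (SS i t)).card (ZS i (SS i t)) = 0 := by
  have hr := h.hr
  have h1 := be5_zero1 h.g.H (by omega)
    (fun m _ hm => h.g.good m (by omega)) h.split h.jn' (by
      intro c _ hb
      rw [h.bb_eq] at hb ⊢
      rw [h.VV_eq]
      obtain ⟨lo, hi, e, C⟩ := Cp.comp_exists h.g.H c.2 h.g.hr h.g.good
      have h2 := be5_nat h.g C.toWin c.2 h.hi1 (by omega)
        (fun y hy => h.mem c (by omega)) (h.part (by omega) c)
      omega) t (mem_tops t)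
  rwa [h.bb_eq, h.VV_eq] at h1

/-- no flip -/
theorem no_flip {t : Tops P} {lo hi : ℕ → ℕ} {e : ℕ → ℕ → P}
    (C : Cp.Comp (i + 2) (t : P) lo hi e) : ¬ Flip lo hi i := by
  intro hf
  have hS : ∀ y, lev y ≤ i + 2 → (y ∈ Wd.SS i t ↔ y ≤ (t : P)) :=
    fun y hy => h.mem t (by omega)
  have h1 := be5_nat h.g C.toWin t.2 h.hi1 (by omega) hS (h.part (by omega) t)
  have h2 := F5_flip h.g C.toWin t.2 h.hi1 (by omega) hS hf
  have h4 := h.be5_all t
  rw [← card_pos] at h2
  omega

/-- the values -/
theorem vals {t : Tops P} {lo hi : ℕ → ℕ} {e : ℕ → ℕ → P}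
    (C : Cp.Comp (i + 2) (t : P) lo hi e) :
    al 3 (st i (SS i t)).card (ZS i (SS i t)) = ((FL i (SS i t)).card : ℤ) - fuw lo hi i ∧
    be 6 (st i (SS i t)).card (ZS i (SS i t)) =
      - ((SO.N1f i (SS i t)).card : ℤ) - ((SO.N5f i (SS i t)).card : ℤ) :=
  be6_gen h.g C.toWin t.2 h.hi1 (by omega) (fun y hy => h.mem t (by omega))
    (h.part (by omega) t) (h.no_flip C)

/-- (3,1), (6,2) -/
theorem al3_sq (t : Tops P) : (al 3 (st i (SS i t)).card (ZS i (SS i t))) ^ 2 =
    2 * be 6 (st i (SS i t)).card (ZS i (SS i t)) := by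
  have hr := h.hr
  have h1 := al3_sq1 h.g.H (by omega)
    (fun m _ hm => h.g.good m (by omega)) h.split h.jn' (by
      intro c _
      rw [h.bb_eq, h.VV_eq]
      exact h.be5_all c) (by
      intro c _ hb
      rw [h.bb_eq] at hb ⊢
      rw [h.VV_eq]
      obtain ⟨lo, hi, e, C⟩ := Cp.comp_exists h.g.H c.2 h.g.hr h.g.good
      have h2 := (h.vals C).2
      have h4 := sq_nonneg (al 3 (st i (SS i c)).card (ZS i (SS i c)))
      rw [h2]
      have h5 : (0 : ℤ) ≤ (SO.N1f i (SS i c)).card := by positivity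
      have h6 : (0 : ℤ) ≤ (SO.N5f i (SS i c)).card := by positivity
      linarith) t (mem_tops t)
  rwa [h.bb_eq, h.VV_eq] at h1

/-- THE LAWS at the window `i = j - 2`: chain balance, nothing hangs below a twisted triple -/
theorem law {t : Tops P} {lo hi : ℕ → ℕ} {e : ℕ → ℕ → P}
    (C : Cp.Comp (i + 2) (t : P) lo hi e) :
    (FL i (SS i t)).card = fuw lo hi i ∧ SO.N1f i (SS i t) = ∅ ∧ SO.N5f i (SS i t) = ∅ := by
  obtain ⟨h1, h2⟩ := h.vals C
  have h4 := h.al3_sq t
  have h5 : (0 : ℤ) ≤ (SO.N1f i (SS i t)).card := by positivity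
  have h6 : (0 : ℤ) ≤ (SO.N5f i (SS i t)).card := by positivity
  have h7 := sq_nonneg (al 3 (st i (SS i t)).card (ZS i (SS i t)))
  rw [h4] at h7
  have h8 : al 3 (st i (SS i t)).card (ZS i (SS i t)) = 0 := by
    have : (al 3 (st i (SS i t)).card (ZS i (SS i t))) ^ 2 = 0 := by
      rw [h4]
      linarith
    exact pow_eq_zero_iff (two_ne_zero) |>.1 this
  refine ⟨?_, ?_, ?_⟩
  · rw [h1] at h8
    have h9 : ((FL i (SS i t)).card : ℤ) = (fuw lo hi i : ℕ) := by
      have : (fuw lo hi i : ℤ) = (Win.fuw lo hi i : ℤ) := rfl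
      linarith
    exact_mod_cast h9
  · rw [← card_eq_zero]
    have : ((SO.N1f i (SS i t)).card : ℤ) = 0 := by linarith
    exact_mod_cast this
  · rw [← card_eq_zero]
    have : ((SO.N5f i (SS i t)).card : ℤ) = 0 := by linarith
    exact_mod_cast this

/-- **nothing hangs below an element of level `j` over three elements of level `j - 2`** -/
theorem pen_three {t : Tops P} {lo hi : ℕ → ℕ} {e : ℕ → ℕ → P}
    (C : Cp.Comp (i + 2) (t : P) lo hi e) {a : ℕ} (ha : lo i + 2 ≤ a) (ha' : a ≤ hi i) :
    pen (e (i + 2) a) = ∅ := by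
  have W := C.toWin
  have f1 := W.lo_ge i (by omega)
  have f2 := W.lo_ge (i + 1) (by omega)
  have f3 := W.hi_le i (by omega)
  have f4 := W.hi_le (i + 1) (by omega)
  have e1 : i + 1 + 1 = i + 2 := rfl
  rw [e1] at f2 f4
  have hl := W.lev_x (i + 2) (by omega) a (by omega) (by omega)
  have hat := W.le_t (i + 2) (by omega) a (by omega) (by omega)
  rw [eq_empty_iff_forall_notMem]
  intro z hz
  have hu := pen_uc hz
  have hzc := (mem_pen.1 hz).1
  have hlz := lev_cov h.g.H hzc
  have hN := (h.law C).2.1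
  have hzS : z ∈ SS i t := h.mem_one hu (by omega) ((h.mem t (by omega)).2 hat)
  have : z ∈ SO.N1f i (SS i t) := by
    refine SO.mem_N1f.2 ⟨hzS, Or.inl ⟨by omega, e (i + 2) a, ?_, hu⟩⟩
    exact mem_ZL.2 ⟨(h.mem t (by omega)).2 hat, hl,
      (W.up_three h.g t.2 (by omega) (by omega) (by omega)).2 ⟨ha, ha'⟩⟩
  rw [hN] at this
  exact absurd this (notMem_empty _)

end GJ

end Pool.Agent.GaussPoset.Wd

end

/-! From `Pool.Agent.W_448nv_h97.NvA` -/

section

/-!
MP_448cb3_co, G2, case B, window `j - 1`, small components: consequences of the laws of the words at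
a pendant pattern above a row with at most three elements.  helper97.
-/

set_option autoImplicit false

namespace Pool.Agent.GaussPoset.Wd

variable {lo hi : ℕ → ℕ} {j i k : ℕ}

/-- the steps of a word -/
lemma Laws3.st (L : Laws3 lo hi j) (hk : k + 1 ≤ j) : lo k ≤ lo (k + 1) ∧ lo (k + 1) ≤ lo k + 1 ∧
    hi k ≤ hi (k + 1) ∧ hi (k + 1) ≤ hi k + 1 ∧ lo k ≤ hi k ∧ lo (k + 1) ≤ hi (k + 1) := by
  have h1 := L.lo_step k (by omega)
  have h2 := L.hi_step k (by omega)
  have h3 := L.lo_le k (by omega)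
  have h4 := L.lo_le (k + 1) (by omega)
  omega

/-- a pendant pattern below the window gives one above -/
lemma Laws3.pd_pu (L : Laws3 lo hi j) (hk : k + 2 ≤ j) (h : pdL lo hi k ∨ pdR lo hi k) :
    puL lo hi k ∨ puR lo hi k := by
  have h1 := L.two k hk
  unfold npd npu at h1
  by_contra hc
  rw [not_or] at hc
  rw [if_neg hc.1, if_neg hc.2] at h1
  rcases h with h | h
  · rw [if_pos h] at h1
    omega
  · rw [if_pos h] at h1
    omega

/-- pendant patterns at different ends need two sites -/
lemma Laws3.two_sites (L : Laws3 lo hi j) (h1 : 1 ≤ k) (hk : k + 3 ≤ j)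
    (h : (pdL lo hi k ∧ puR lo hi k) ∨ (pdR lo hi k ∧ puL lo hi k)) : hi k = lo k + 1 := by
  have a1 : lo k < hi k := by
    rcases h with ⟨h, -⟩ | ⟨h, -⟩
    · exact h.2.2
    · exact h.2.2
  have a2 : ¬ hi k = lo k + 2 := by
    intro h2
    refine L.be5 k h1 hk ⟨h2, ?_⟩
    rcases h with ⟨h3, h4⟩ | ⟨h3, h4⟩
    · exact Or.inr ⟨h4, h3⟩
    · exact Or.inl ⟨h4, h3⟩
  have a3 : ¬ lo k + 3 ≤ hi k := by
    intro h2
    obtain ⟨b1, b2⟩ := L.two4 k h1 (by omega) h2
    have b3 := L.two_le k (by omega)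
    rcases h with ⟨h3, h4⟩ | ⟨h3, h4⟩
    · have h5 := b2.2 h4
      unfold npd at b3
      rw [if_pos h3, if_pos h5] at b3
      omega
    · have h5 := b1.2 h4
      unfold npd at b3
      rw [if_pos h3, if_pos h5] at b3
      omega
  omega

/-- no alternating pattern: two sites, the steps `O C | C O | O ?` -/
theorem Laws3.zig (L : Laws3 lo hi j) : ∀ k, k + 2 ≤ j → hi (k - 1) = lo (k - 1) + 1 → 1 ≤ k →
    hi k = lo k + 1 → hi (k + 1) = lo (k + 1) + 1 →
    ((lo k = lo (k - 1) ∧ lo (k + 1) = lo k + 1 ∧ lo (k + 2) = lo (k + 1)) ∨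
      (lo k = lo (k - 1) + 1 ∧ lo (k + 1) = lo k ∧ hi (k + 2) = hi (k + 1) + 1)) → False := by
  intro k
  induction k using Nat.strong_induction_on with
  | _ k ih =>
    intro hk h0 h1 h2 h3 hc
    rcases hc with ⟨c1, c2, c3⟩ | ⟨c1, c2, c3⟩
    · -- a left pattern below the window `k`
      have p1 : puL lo hi k ∨ puR lo hi k := L.pd_pu hk (Or.inl ⟨c2, c3, by omega⟩)
      have p2 : puL lo hi k := by
        rcases p1 with p | p
        · exact p
        · obtain ⟨-, -, p3, -⟩ := p
          omega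
      obtain ⟨q1, q2, q3, -⟩ := p2
      have s1 := L.st (k := k - 2) (by omega)
      rw [show k - 2 + 1 = k - 1 by omega] at s1
      have p4 : puL lo hi (k - 1) ∨ puR lo hi (k - 1) := L.pd_pu (k := k - 1) (by omega)
        (Or.inr ⟨by rw [show k - 1 + 1 = k by omega]; omega,
          by rw [show k - 1 + 2 = k + 1 by omega, show k - 1 + 1 = k by omega]; omega, by omega⟩)
      have p5 : puR lo hi (k - 1) := by
        rcases p4 with p | p
        · obtain ⟨-, -, p3, -⟩ := p
          rw [show k - 1 - 1 = k - 2 by omega] at p3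
          omega
        · exact p
      obtain ⟨r1, r2, r3, -⟩ := p5
      rw [show k - 1 - 1 = k - 2 by omega, show k - 1 - 2 = k - 3 by omega] at r2
      rw [show k - 1 - 1 = k - 2 by omega] at r3
      refine ih (k - 1) (by omega) (by omega) ?_ (by omega) (by omega) ?_ (Or.inr ⟨?_, ?_, ?_⟩)
      · rw [show k - 1 - 1 = k - 2 by omega]
        omega
      · rw [show k - 1 + 1 = k by omega]
        omega
      · rw [show k - 1 - 1 = k - 2 by omega]
        omega
      · rw [show k - 1 + 1 = k by omega]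
        omega
      · rw [show k - 1 + 1 = k by omega, show k - 1 + 2 = k + 1 by omega]
        omega
    · have p1 : puL lo hi k ∨ puR lo hi k := L.pd_pu hk (Or.inr ⟨by omega, c3, by omega⟩)
      have p2 : puR lo hi k := by
        rcases p1 with p | p
        · obtain ⟨-, -, p3, -⟩ := p
          omega
        · exact p
      obtain ⟨q1, q2, q3, -⟩ := p2
      have s1 := L.st (k := k - 2) (by omega)
      rw [show k - 2 + 1 = k - 1 by omega] at s1
      have p4 : puL lo hi (k - 1) ∨ puR lo hi (k - 1) := L.pd_pu (k := k - 1) (by omega)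
        (Or.inl ⟨by rw [show k - 1 + 1 = k by omega]; omega,
          by rw [show k - 1 + 2 = k + 1 by omega, show k - 1 + 1 = k by omega]; omega, by omega⟩)
      have p5 : puL lo hi (k - 1) := by
        rcases p4 with p | p
        · exact p
        · obtain ⟨-, -, p3, -⟩ := p
          rw [show k - 1 - 1 = k - 2 by omega] at p3
          omega
      obtain ⟨r1, r2, r3, -⟩ := p5
      rw [show k - 1 - 1 = k - 2 by omega, show k - 1 - 2 = k - 3 by omega] at r2
      rw [show k - 1 - 1 = k - 2 by omega] at r3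
      refine ih (k - 1) (by omega) (by omega) ?_ (by omega) (by omega) ?_ (Or.inl ⟨?_, ?_, ?_⟩)
      · rw [show k - 1 - 1 = k - 2 by omega]
        omega
      · rw [show k - 1 + 1 = k by omega]
        omega
      · rw [show k - 1 - 1 = k - 2 by omega]
        omega
      · rw [show k - 1 + 1 = k by omega]
        omega
      · rw [show k - 1 + 1 = k by omega, show k - 1 + 2 = k + 1 by omega]
        omega

lemma flw_posL (h : lo (k + 3) = lo (k + 2)) (p : pdL lo hi k) : 1 ≤ flw lo hi k := by
  unfold flw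
  rw [if_pos (show lo (k + 3) = lo (k + 2) ∧ (pdL lo hi k ∨
    (pdR lo hi k ∧ lo (k + 2) = hi (k + 2))) from ⟨h, Or.inl p⟩)]
  omega

lemma flw_posR (h : hi (k + 3) = hi (k + 2) + 1) (p : pdR lo hi k) : 1 ≤ flw lo hi k := by
  unfold flw
  rw [if_pos (show hi (k + 3) = hi (k + 2) + 1 ∧ (pdR lo hi k ∨
    (pdL lo hi k ∧ lo (k + 2) = hi (k + 2))) from ⟨h, Or.inl p⟩)]
  omega

lemma fuw_pos (h : 1 ≤ fuw lo hi k) : (3 ≤ k ∧ lo (k - 2) = lo (k - 3) + 1 ∧
      (puL lo hi k ∨ (puR lo hi k ∧ lo (k - 2) = hi (k - 2)))) ∨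
    (3 ≤ k ∧ hi (k - 2) = hi (k - 3) ∧
      (puR lo hi k ∨ (puL lo hi k ∧ lo (k - 2) = hi (k - 2)))) := by
  unfold fuw at h
  by_contra hc
  rw [not_or] at hc
  rw [if_neg hc.1, if_neg hc.2] at h
  omega

lemma fuw_two (h : 2 ≤ fuw lo hi k) : (3 ≤ k ∧ lo (k - 2) = lo (k - 3) + 1 ∧
      (puL lo hi k ∨ (puR lo hi k ∧ lo (k - 2) = hi (k - 2)))) ∧
    (3 ≤ k ∧ hi (k - 2) = hi (k - 3) ∧
      (puR lo hi k ∨ (puL lo hi k ∧ lo (k - 2) = hi (k - 2)))) := by
  unfold fuw at h
  refine ⟨?_, ?_⟩
  · by_contra hc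
    rw [if_neg hc] at h
    split_ifs at h <;> omega
  · by_contra hc
    rw [if_neg hc] at h
    split_ifs at h <;> omega

/-- no chain: two sites, a left end with the letters `C C O O` while the right end has the letters
`O O` (and the mirror image) -/
theorem Laws3.chain (L : Laws3 lo hi j) : ∀ k, k + 3 ≤ j → 1 ≤ k → hi k = lo k + 1 →
    ((lo k = lo (k - 1) + 1 ∧ lo (k + 1) = lo k + 1 ∧ hi (k + 1) = hi k + 1 ∧
        lo (k + 2) = lo (k + 1) ∧ lo (k + 3) = lo (k + 2)) ∨
      (hi k = hi (k - 1) ∧ lo (k + 1) = lo k ∧ hi (k + 1) = hi k ∧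
        hi (k + 2) = hi (k + 1) + 1 ∧ hi (k + 3) = hi (k + 2) + 1)) → False := by
  intro k
  induction k using Nat.strong_induction_on with
  | _ k ih =>
    intro hk h1 h2 hc
    have s0 := L.st (k := k - 1) (by omega)
    rw [show k - 1 + 1 = k by omega] at s0
    rcases hc with ⟨c1, c2, c3, c4, c5⟩ | ⟨c1, c2, c3, c4, c5⟩
    · have p0 : pdL lo hi k := ⟨c2, c4, by omega⟩
      have p2 : puR lo hi k := by
        rcases L.pd_pu (by omega) (Or.inl p0) with p | p
        · obtain ⟨-, -, p3, -⟩ := p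
          omega
        · exact p
      obtain ⟨q1, q2, q3, -⟩ := p2
      -- the chain goes on above
      have t1 := L.thr k h1 hk (by omega)
      have t3 := flw_posL c5 p0
      have t2 : 3 ≤ k ∧ hi (k - 2) = hi (k - 3) := by
        rcases fuw_pos (lo := lo) (hi := hi) (k := k) (by omega) with
          ⟨g1, g2, g3 | ⟨g3, g4⟩⟩ | ⟨g1, g2, -⟩
        · obtain ⟨-, -, g5, -⟩ := g3
          omega
        · have s1 := L.st (k := k - 2) (by omega)
          rw [show k - 2 + 1 = k - 1 by omega] at s1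
          omega
        · exact ⟨g1, g2⟩
      have s1 := L.st (k := k - 2) (by omega)
      rw [show k - 2 + 1 = k - 1 by omega] at s1
      have p3 : pdR lo hi (k - 2) := ⟨by rw [show k - 2 + 1 = k - 1 by omega]; omega,
        by rw [show k - 2 + 2 = k by omega, show k - 2 + 1 = k - 1 by omega]; omega, by omega⟩
      have p4 : puL lo hi (k - 2) := by
        rcases L.pd_pu (by omega) (Or.inr p3) with p | p
        · exact p
        · obtain ⟨-, -, p5, -⟩ := p
          rw [show k - 2 - 1 = k - 3 by omega] at p5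
          omega
      have p5 := L.two_sites (k := k - 2) (by obtain ⟨g, -⟩ := p4; omega) (by omega)
        (Or.inr ⟨p3, p4⟩)
      obtain ⟨r1, r2, r3, -⟩ := p4
      rw [show k - 2 - 1 = k - 3 by omega] at r3
      refine ih (k - 2) (by omega) (by omega) (by omega) p5 (Or.inr ⟨?_, ?_, ?_, ?_, ?_⟩)
      · rw [show k - 2 - 1 = k - 3 by omega]
        omega
      · rw [show k - 2 + 1 = k - 1 by omega]
        omega
      · rw [show k - 2 + 1 = k - 1 by omega]
        omega
      · rw [show k - 2 + 2 = k by omega, show k - 2 + 1 = k - 1 by omega]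
        omega
      · rw [show k - 2 + 3 = k + 1 by omega, show k - 2 + 2 = k by omega]
        omega
    · have p0 : pdR lo hi k := ⟨c3, c4, by omega⟩
      have p2 : puL lo hi k := by
        rcases L.pd_pu (by omega) (Or.inr p0) with p | p
        · exact p
        · obtain ⟨-, -, p3, -⟩ := p
          omega
      obtain ⟨q1, q2, q3, -⟩ := p2
      have t1 := L.thr k h1 hk (by omega)
      have t3 := flw_posR c5 p0
      have t2 : 3 ≤ k ∧ lo (k - 2) = lo (k - 3) + 1 := by
        rcases fuw_pos (lo := lo) (hi := hi) (k := k) (by omega) with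
          ⟨g1, g2, -⟩ | ⟨g1, g2, g3 | ⟨g3, g4⟩⟩
        · exact ⟨g1, g2⟩
        · obtain ⟨-, -, g5, -⟩ := g3
          omega
        · have s1 := L.st (k := k - 2) (by omega)
          rw [show k - 2 + 1 = k - 1 by omega] at s1
          omega
      have s1 := L.st (k := k - 2) (by omega)
      rw [show k - 2 + 1 = k - 1 by omega] at s1
      have p3 : pdL lo hi (k - 2) := ⟨by rw [show k - 2 + 1 = k - 1 by omega]; omega,
        by rw [show k - 2 + 2 = k by omega, show k - 2 + 1 = k - 1 by omega]; omega, by omega⟩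
      have p4 : puR lo hi (k - 2) := by
        rcases L.pd_pu (by omega) (Or.inl p3) with p | p
        · obtain ⟨-, -, p5, -⟩ := p
          rw [show k - 2 - 1 = k - 3 by omega] at p5
          omega
        · exact p
      have p5 := L.two_sites (k := k - 2) (by obtain ⟨g, -⟩ := p4; omega) (by omega)
        (Or.inl ⟨p3, p4⟩)
      obtain ⟨r1, r2, r3, -⟩ := p4
      rw [show k - 2 - 1 = k - 3 by omega] at r3
      refine ih (k - 2) (by omega) (by omega) (by omega) p5 (Or.inl ⟨?_, ?_, ?_, ?_, ?_⟩)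
      · rw [show k - 2 - 1 = k - 3 by omega]
        omega
      · rw [show k - 2 + 1 = k - 1 by omega]
        omega
      · rw [show k - 2 + 1 = k - 1 by omega]
        omega
      · rw [show k - 2 + 2 = k by omega, show k - 2 + 1 = k - 1 by omega]
        omega
      · rw [show k - 2 + 3 = k + 1 by omega, show k - 2 + 2 = k by omega]
        omega

/-- at most one pendant pattern above an inner window -/
lemma Laws3.pu_one (L : Laws3 lo hi j) (hk : k + 2 ≤ j) : ¬ (puL lo hi k ∧ puR lo hi k) := by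
  rintro ⟨h1, h2⟩
  have h3 := L.two k hk
  have h4 := L.two_le k hk
  unfold npu at h3
  rw [if_pos h1, if_pos h2] at h3
  omega

/-- at most one element hangs above the upper pendant -/
theorem Laws3.fuw_one (L : Laws3 lo hi j) : ∀ k, k ≤ j → ¬ (puL lo hi k ∧ puR lo hi k) →
    fuw lo hi k ≤ 1 := by
  intro k
  induction k using Nat.strong_induction_on with
  | _ k ih =>
    intro hk hn
    by_contra hc
    obtain ⟨⟨a1, a2, a3⟩, ⟨-, b2, b3⟩⟩ := fuw_two (lo := lo) (hi := hi) (k := k) (by omega)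
    have s0 := L.st (k := k - 3) (by omega)
    have s1 := L.st (k := k - 2) (by omega)
    have s2 := L.st (k := k - 1) (by omega)
    rw [show k - 3 + 1 = k - 2 by omega] at s0
    rw [show k - 2 + 1 = k - 1 by omega] at s1
    rw [show k - 1 + 1 = k by omega] at s2
    have e1 : lo (k - 2) = hi (k - 2) := by
      rcases a3 with h1 | ⟨h1, h2⟩
      · rcases b3 with h3 | ⟨h3, h4⟩
        · exact absurd ⟨h1, h3⟩ hn
        · exact h4
      · exact h2
    rcases Nat.lt_or_ge 3 k with h4 | h4
    · have i3 : fuw lo hi (k - 3) ≤ 1 := ih (k - 3) (by omega) (by omega) (L.pu_one (by omega))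
      have t1 := L.thr (k - 3) (by omega) (by omega) (by omega)
      have t2 : flw lo hi (k - 3) = 2 := by
        unfold flw
        rw [show k - 3 + 3 = k by omega, show k - 3 + 2 = k - 1 by omega]
        have e2 : puL lo hi k ∨ puR lo hi k := by
          rcases a3 with h1 | ⟨h1, h2⟩
          · exact Or.inl h1
          · exact Or.inr h1
        rcases e2 with ⟨-, c1, c2, c3⟩ | ⟨-, c1, c2, c3⟩
        · have p1 : pdR lo hi (k - 3) := ⟨by rw [show k - 3 + 1 = k - 2 by omega]; omega,
            by rw [show k - 3 + 2 = k - 1 by omega, show k - 3 + 1 = k - 2 by omega]; omega,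
            by omega⟩
          rw [if_pos ⟨c2, Or.inr ⟨p1, by omega⟩⟩, if_pos ⟨by omega, Or.inl p1⟩]
        · have p1 : pdL lo hi (k - 3) := ⟨by rw [show k - 3 + 1 = k - 2 by omega]; omega,
            by rw [show k - 3 + 2 = k - 1 by omega, show k - 3 + 1 = k - 2 by omega]; omega,
            by omega⟩
          rw [if_pos ⟨by omega, Or.inl p1⟩, if_pos ⟨by omega, Or.inr ⟨p1, by omega⟩⟩]
      omega
    · have h0 := L.lo_zero
      have h0' := L.hi_zero
      have e3 : k - 3 = 0 := by omega
      rw [e3] at a2 b2 s0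
      omega

/-- THE WORD FACTS at the last window but one, at most three sites -/
theorem Laws3.small (L : Laws3 lo hi j) (hij : i + 1 = j) (hp : puL lo hi i ∨ puR lo hi i)
    (hu : ¬ (puL lo hi i ∧ puR lo hi i)) : fuw lo hi i ≤ 1 ∧
    (hi i = lo i + 1 → (hi j - lo j) + (hi (i - 1) - lo (i - 1)) ≤ 2) ∧
    (hi i = lo i + 2 → 1 ≤ fuw lo hi i →
      (puL lo hi i → lo j = lo i + 1) ∧ (puR lo hi i → hi j = hi i)) := by
  subst hij
  have h2 : 2 ≤ i := by
    rcases hp with h | h
    · exact h.1
    · exact h.1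
  have s0 := L.st (k := i) le_rfl
  have s1 := L.st (k := i - 1) (by omega)
  have s2 := L.st (k := i - 2) (by omega)
  rw [show i - 1 + 1 = i by omega] at s1
  rw [show i - 2 + 1 = i - 1 by omega] at s2
  refine ⟨L.fuw_one i (by omega) hu, ?_, ?_⟩
  · intro hV
    by_contra hc
    rcases hp with ⟨-, c1, c2, c3⟩ | ⟨-, c1, c2, c3⟩
    · have p1 : pdR lo hi (i - 1) := ⟨by rw [show i - 1 + 1 = i by omega]; omega,
        by rw [show i - 1 + 2 = i + 1 by omega, show i - 1 + 1 = i by omega]; omega, by omega⟩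
      have p2 : puR lo hi (i - 1) := by
        rcases L.pd_pu (k := i - 1) (by omega) (Or.inr p1) with p | p
        · obtain ⟨-, -, p5, -⟩ := p
          rw [show i - 1 - 1 = i - 2 by omega] at p5
          omega
        · exact p
      obtain ⟨r1, r2, r3, -⟩ := p2
      rw [show i - 1 - 1 = i - 2 by omega] at r3
      refine L.zig (i - 1) (by omega) ?_ (by omega) (by omega) ?_ (Or.inr ⟨?_, ?_, ?_⟩)
      · rw [show i - 1 - 1 = i - 2 by omega]
        omega
      · rw [show i - 1 + 1 = i by omega]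
        omega
      · rw [show i - 1 - 1 = i - 2 by omega]
        omega
      · rw [show i - 1 + 1 = i by omega]
        omega
      · rw [show i - 1 + 2 = i + 1 by omega, show i - 1 + 1 = i by omega]
        omega
    · have p1 : pdL lo hi (i - 1) := ⟨by rw [show i - 1 + 1 = i by omega]; omega,
        by rw [show i - 1 + 2 = i + 1 by omega, show i - 1 + 1 = i by omega]; omega, by omega⟩
      have p2 : puL lo hi (i - 1) := by
        rcases L.pd_pu (k := i - 1) (by omega) (Or.inl p1) with p | p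
        · exact p
        · obtain ⟨-, -, p5, -⟩ := p
          rw [show i - 1 - 1 = i - 2 by omega] at p5
          omega
      obtain ⟨r1, r2, r3, -⟩ := p2
      rw [show i - 1 - 1 = i - 2 by omega] at r3
      refine L.zig (i - 1) (by omega) ?_ (by omega) (by omega) ?_ (Or.inl ⟨?_, ?_, ?_⟩)
      · rw [show i - 1 - 1 = i - 2 by omega]
        omega
      · rw [show i - 1 + 1 = i by omega]
        omega
      · rw [show i - 1 - 1 = i - 2 by omega]
        omega
      · rw [show i - 1 + 1 = i by omega]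
        omega
      · rw [show i - 1 + 2 = i + 1 by omega, show i - 1 + 1 = i by omega]
        omega
  · intro hV hf
    refine ⟨fun hL => ?_, fun hR => ?_⟩
    · by_contra hc
      obtain ⟨-, c1, c2, c3⟩ := hL
      have f1 : 3 ≤ i ∧ lo (i - 2) = lo (i - 3) + 1 := by
        rcases fuw_pos hf with ⟨g1, g2, -⟩ | ⟨g1, g2, g3 | ⟨g3, g4⟩⟩
        · exact ⟨g1, g2⟩
        · exact absurd ⟨⟨h2, c1, c2, c3⟩, g3⟩ hu
        · exfalso
          omega
      have p1 : pdL lo hi (i - 2) := ⟨by rw [show i - 2 + 1 = i - 1 by omega]; omega,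
        by rw [show i - 2 + 2 = i by omega, show i - 2 + 1 = i - 1 by omega]; omega, by omega⟩
      have p2 : puR lo hi (i - 2) := by
        rcases L.pd_pu (k := i - 2) (by omega) (Or.inl p1) with p | p
        · obtain ⟨-, -, p5, -⟩ := p
          rw [show i - 2 - 1 = i - 3 by omega] at p5
          omega
        · exact p
      have p3 := L.two_sites (k := i - 2) (by omega) (by omega) (Or.inl ⟨p1, p2⟩)
      refine L.chain (i - 2) (by omega) (by omega) p3 (Or.inl ⟨?_, ?_, ?_, ?_, ?_⟩)
      · rw [show i - 2 - 1 = i - 3 by omega]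
        omega
      · rw [show i - 2 + 1 = i - 1 by omega]
        omega
      · rw [show i - 2 + 1 = i - 1 by omega]
        omega
      · rw [show i - 2 + 2 = i by omega, show i - 2 + 1 = i - 1 by omega]
        omega
      · rw [show i - 2 + 3 = i + 1 by omega, show i - 2 + 2 = i by omega]
        omega
    · by_contra hc
      obtain ⟨-, c1, c2, c3⟩ := hR
      have f1 : 3 ≤ i ∧ hi (i - 2) = hi (i - 3) := by
        rcases fuw_pos hf with ⟨g1, g2, g3 | ⟨g3, g4⟩⟩ | ⟨g1, g2, -⟩
        · exact absurd ⟨g3, ⟨h2, c1, c2, c3⟩⟩ hu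
        · exfalso
          omega
        · exact ⟨g1, g2⟩
      have p1 : pdR lo hi (i - 2) := ⟨by rw [show i - 2 + 1 = i - 1 by omega]; omega,
        by rw [show i - 2 + 2 = i by omega, show i - 2 + 1 = i - 1 by omega]; omega, by omega⟩
      have p2 : puL lo hi (i - 2) := by
        rcases L.pd_pu (k := i - 2) (by omega) (Or.inr p1) with p | p
        · exact p
        · obtain ⟨-, -, p5, -⟩ := p
          rw [show i - 2 - 1 = i - 3 by omega] at p5
          omega
      have p3 := L.two_sites (k := i - 2) (by omega) (by omega) (Or.inr ⟨p1, p2⟩)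
      refine L.chain (i - 2) (by omega) (by omega) p3 (Or.inr ⟨?_, ?_, ?_, ?_, ?_⟩)
      · rw [show i - 2 - 1 = i - 3 by omega]
        omega
      · rw [show i - 2 + 1 = i - 1 by omega]
        omega
      · rw [show i - 2 + 1 = i - 1 by omega]
        omega
      · rw [show i - 2 + 2 = i by omega, show i - 2 + 1 = i - 1 by omega]
        omega
      · rw [show i - 2 + 3 = i + 1 by omega, show i - 2 + 2 = i by omega]
        omega

end Pool.Agent.GaussPoset.Wd

end

/-! From `Pool.Agent.W_448nv_h97.NvC` -/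

section

/-!
MP_448cb3_co, G2, case B, window `j - 1`: natural parts with at most three sites, no flip: twins, three
site elements, the near elements of the pendant.  helper97.
-/

set_option autoImplicit false

namespace Pool.Agent.GaussPoset.Win.Pn

set_option linter.unusedSectionVars false

open Finset W4 Wd
open Pool.Agent.GaussPoset.Win.SO (con PN on mem_PN vp F5 mem_F5 N1f N5f)

universe u

variable {P : Type u} [Fintype P] [PartialOrder P] [DecidableEq P] {r j i : ℕ}
  {psi : P → P} {C : Finset P} {p w z : P} {lo hi : ℕ → ℕ} {e : ℕ → ℕ → P}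

section nj

variable (h : NJ P r j) (hij : i + 1 = j) (hi1 : 1 ≤ i)
include h hij hi1

/-- a natural part has no two elements of level `j + 1` with the same two covers -/
theorem nat_twin {t : Tops P} (hn : NatT j (t : P)) {z z' x x' : P} (hz : z ∈ SS i t)
    (hne : x ≠ x') (hl : lev x = j) (hl' : lev x' = j) (h1 : z ⋖ x) (h2 : z ⋖ x') (h3 : z' ⋖ x)
    (h4 : z' ⋖ x') : z = z' := by
  classical
  have H := h.g.H
  have hC : Part (i + 1) (SS i t) := h.part (by omega) (by omega) t
  have lz := lev_cov H h1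
  have hx : x ∈ SS i t := hC.up hz h1
  have hx' : x' ∈ SS i t := hC.up hz h2
  have tx := (h.mem (i := i) (by omega) t (y := x) (by omega)).1 hx
  have tx' := (h.mem (i := i) (by omega) t (y := x') (by omega)).1 hx'
  have e1 := hn x x' hl hl' tx tx' hne
  have g : GoodTo P r (i + 1) := by rw [hij]; exact h.g
  have e2 : ucv x x' ≤ 1 := ucv_le_one g (by omega) hne (by omega)
  by_contra hzz
  have e3 : 2 ≤ dcv x x' := by
    unfold dcv
    rw [← card_pair hzz]
    refine card_le_card fun y hy => ?_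
    rw [mem_insert, mem_singleton] at hy
    rw [mem_filter]
    rcases hy with rfl | rfl
    · exact ⟨mem_univ _, h1, h2⟩
    · exact ⟨mem_univ _, h3, h4⟩
  omega

/-- a natural part has no twins -/
theorem nat_Tws {t : Tops P} (hn : NatT j (t : P)) : Tws i (SS i t) = ∅ := by
  classical
  have H := h.g.H
  rw [eq_empty_iff_forall_notMem]
  rintro ⟨w, w'⟩ hq
  have T := mem_Tws.1 hq
  obtain ⟨m1, m2, m3⟩ : w ∈ SS i t ∧ lev w = i + 2 ∧ up i w = 3 := mem_ZL.1 T.zl
  have hc := card_uc_of_up H m2 m3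
  obtain ⟨x, x', hne, hu⟩ := card_eq_two.1 hc
  have hx : w ⋖ x := mem_uc.1 (by rw [hu]; simp)
  have hx' : w ⋖ x' := mem_uc.1 (by rw [hu]; simp)
  have lx := lev_cov H hx
  have lx' := lev_cov H hx'
  have hu' : uc w' = {x, x'} := by
    have h1 : uc w = uc w' := T.uc
    rw [← h1]
    exact hu
  have k1 : w' ⋖ x := mem_uc.1 (by rw [hu']; simp)
  have k2 : w' ⋖ x' := mem_uc.1 (by rw [hu']; simp)
  exact T.ne (nat_twin h hij hi1 hn m1 hne (by omega) (by omega) hx hx' k1 k2)

/-- the upper pendant of a part without flip in coordinates -/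
theorem pu_row {t : Tops P} (Cm : Cp.Comp (i + 1) (t : P) lo hi e) (hF : F5 i (SS i t) = ∅)
    (hp : p ∈ PD P i) (ht : (topOf p : Tops P) = t) : 2 ≤ i ∧ lo i < hi i ∧
    ¬ (puL lo hi i ∧ puR lo hi i) ∧
    ((puL lo hi i ∧ sit i p = {e i (lo i), e i (lo i + 1)}) ∨
      (puR lo hi i ∧ sit i p = {e i (hi i - 1), e i (hi i)})) := by
  classical
  have H := h.g.H
  have g : GoodTo P r (i + 1) := by rw [hij]; exact h.g
  have W := Cm.toWin
  have lp := (mem_PD.1 hp).1
  have hpS : p ∈ SS i t := by rw [← ht]; exact nj_mem h hij hi1 lp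
  obtain ⟨psi, hM⟩ := good_mat h.g.H (h.g.good i (by omega))
  rcases (nj_mtc h hij hi1 hM t hF).out with hN | ⟨z, q, y, u, hz, hq, hzD, hqU, huz, hdq, hdu,
      hc, uz, uq, -⟩
  · exact absurd hp (hN p hpS).1
  have hpz : p = z := uz p hpS hp
  subst hpz
  have lq := (mem_PU.1 hqU).1
  obtain ⟨m, rfl⟩ : ∃ m, i = m + 2 := ⟨i - 2, by omega⟩
  have hqt : q ≤ (t : P) := (h.mem (i := m + 2) (by omega) t (y := q) (by omega)).1 hq
  obtain ⟨hV, hcase⟩ := W.PU_cases g t.2 (m := m) (by omega) hqU hqt
  have hsp : sit (m + 2) p = stD (m + 2) q := by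
    rw [sit_PDs H hp huz, ← hdu]
    exact (ClE_stD H lq hdq).symm
  have hno : ¬ (puL lo hi (m + 2) ∧ puR lo hi (m + 2)) := by
    rintro ⟨hL, hR⟩
    have e0 := W.lohi m (by omega)
    have e1 := W.lohi (m + 1) (by omega)
    have k1 : e m (lo m) ∈ PU P (m + 2) :=
      (W.mem_PU_iff g t.2 (k := m) (by omega) le_rfl e0).2 (Or.inl ⟨rfl, hL⟩)
    have k2 : e m (hi m) ∈ PU P (m + 2) :=
      (W.mem_PU_iff g t.2 (k := m) (by omega) e0 le_rfl).2 (Or.inr ⟨rfl, hR⟩)
    have l1 := W.lev_x m (by omega) (lo m) le_rfl e0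
    have l2 := W.lev_x m (by omega) (hi m) e0 le_rfl
    have m1 : e m (lo m) ∈ SS (m + 2) t :=
      (h.mem (i := m + 2) (by omega) t (y := e m (lo m)) (by omega)).2
        (W.le_t m (by omega) _ le_rfl e0)
    have m2 : e m (hi m) ∈ SS (m + 2) t :=
      (h.mem (i := m + 2) (by omega) t (y := e m (hi m)) (by omega)).2
        (W.le_t m (by omega) _ e0 le_rfl)
    have q1 := uq _ m1 k1
    have q2 := uq _ m2 k2
    have q3 := W.inj' (k := m) (by omega) le_rfl e0 e0 le_rfl (q1.trans q2.symm)
    obtain ⟨-, c1, -, -⟩ := hL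
    obtain ⟨-, c2, -, -⟩ := hR
    rw [show m + 2 - 1 = m + 1 by omega, show m + 2 - 2 = m by omega] at c1 c2
    omega
  refine ⟨by omega, by omega, hno, ?_⟩
  rcases hcase with ⟨c1, c2, -, c4⟩ | ⟨c1, c2, -, c4⟩
  · left
    refine ⟨⟨by omega, ?_, ?_, by omega⟩, by rw [hsp]; exact c4⟩
    · rw [show m + 2 - 1 = m + 1 by omega, show m + 2 - 2 = m by omega]
      exact c1
    · rw [show m + 2 - 1 = m + 1 by omega]
      exact c2
  · right
    refine ⟨⟨by omega, ?_, ?_, by omega⟩, by rw [hsp]; exact c4⟩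
    · rw [show m + 2 - 1 = m + 1 by omega, show m + 2 - 2 = m by omega]
      exact c1
    · rw [show m + 2 - 1 = m + 1 by omega]
      exact c2

/-- the near elements which meet two neighbouring sites in coordinates -/
theorem nn_le {t : Tops P} (Cm : Cp.Comp (i + 1) (t : P) lo hi e) {a : ℕ} (ha : lo i ≤ a)
    (ha' : a + 1 ≤ hi i) (hs : sit i p = {e i a, e i (a + 1)}) (hi2 : 1 ≤ i) :
    nn i p ≤ ((min (hi (i + 1)) (a + 2) + 1 - max (lo (i + 1)) a : ℕ) : ℤ) +
      ((min (hi (i - 1)) (a + 1) + 1 - max (lo (i - 1)) (a - 1) : ℕ) : ℤ) := by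
  classical
  have g : GoodTo P r (i + 1) := by rw [hij]; exact h.g
  have W := Cm.toWin
  have key : ∀ T : Finset P, ¬ Disjoint T (sit i p) ↔ e i a ∈ T ∨ e i (a + 1) ∈ T := by
    intro T
    rw [hs, not_disjoint_iff]
    constructor
    · rintro ⟨v, h1, h2⟩
      rw [mem_insert, mem_singleton] at h2
      rcases h2 with h2 | h2
      · rw [h2] at h1; exact Or.inl h1
      · rw [h2] at h1; exact Or.inr h1
    · rintro (h1 | h1)
      · exact ⟨_, h1, mem_insert_self _ _⟩
      · exact ⟨_, h1, mem_insert_of_mem (mem_singleton_self _)⟩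
  have c1 : (nLp i p).card ≤ min (hi (i + 1)) (a + 2) + 1 - max (lo (i + 1)) a := by
    rw [← Nat.card_Icc]
    refine (card_le_card (t := (Finset.Icc (max (lo (i + 1)) a)
      (min (hi (i + 1)) (a + 2))).image (e (i + 1))) fun w hw => ?_).trans card_image_le
    obtain ⟨lw, hd⟩ := mem_nLp.1 hw
    rw [key] at hd
    rw [mem_image]
    rcases hd with hd | hd
    · obtain ⟨s, s1, s2, s3, s4⟩ := (W.dc_iff g t.2 (k := i) (b := a) (by omega) ha (by omega)).1
        (mem_uc.1 hd)
      exact ⟨s, Finset.mem_Icc.2 (by omega), s4⟩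
    · obtain ⟨s, s1, s2, s3, s4⟩ := (W.dc_iff g t.2 (k := i) (b := a + 1) (by omega) (by omega)
        (by omega)).1 (mem_uc.1 hd)
      exact ⟨s, Finset.mem_Icc.2 (by omega), s4⟩
  have c2 : (nUp i p).card ≤ min (hi (i - 1)) (a + 1) + 1 - max (lo (i - 1)) (a - 1) := by
    obtain ⟨m, rfl⟩ : ∃ m, i = m + 1 := ⟨i - 1, by omega⟩
    rw [show m + 1 - 1 = m by omega]
    rw [← Nat.card_Icc]
    refine (card_le_card (t := (Finset.Icc (max (lo m) (a - 1))
      (min (hi m) (a + 1))).image (e m)) fun w hw => ?_).trans card_image_le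
    obtain ⟨lw, hd⟩ := mem_nUp.1 hw
    rw [key] at hd
    rw [mem_image]
    rcases hd with hd | hd
    · obtain ⟨s, s1, s2, s3, s4⟩ := (W.uc_iff g t.2 (k := m) (a := a) (by omega) ha
        (by omega)).1 (mem_dc.1 hd)
      exact ⟨s, Finset.mem_Icc.2 (by omega), s4⟩
    · obtain ⟨s, s1, s2, s3, s4⟩ := (W.uc_iff g t.2 (k := m) (a := a + 1) (by omega)
        (by omega) (by omega)).1 (mem_dc.1 hd)
      exact ⟨s, Finset.mem_Icc.2 (by omega), s4⟩
  unfold nn
  have d1 : ((nLp i p).card : ℤ) ≤ ((min (hi (i + 1)) (a + 2) + 1 - max (lo (i + 1)) a : ℕ) : ℤ) :=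
    by exact_mod_cast c1
  have d2 : ((nUp i p).card : ℤ) ≤
      ((min (hi (i - 1)) (a + 1) + 1 - max (lo (i - 1)) (a - 1) : ℕ) : ℤ) := by exact_mod_cast c2
  linarith

/-- THE NEAR ELEMENTS of the pendant of a part with at most three sites -/
theorem small_nn {t : Tops P} (Cm : Cp.Comp (i + 1) (t : P) lo hi e) (L : Laws3 lo hi (i + 1))
    (hF : F5 i (SS i t) = ∅) (h3 : hi i ≤ lo i + 2) (hp : p ∈ PD P i)
    (ht : (topOf p : Tops P) = t) : Wd.fuw lo hi i ≤ 1 ∧ nn i p ≤ 5 - (Wd.fuw lo hi i : ℤ) := by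
  obtain ⟨a0, a1, a2, a3⟩ := pu_row h hij hi1 Cm hF hp ht
  obtain ⟨b1, b2, b3⟩ := L.small rfl (by tauto) a2
  have s0 := L.st (k := i) le_rfl
  have s1 := L.st (k := i - 1) (by omega)
  rw [show i - 1 + 1 = i by omega] at s1
  refine ⟨b1, ?_⟩
  rcases a3 with ⟨c1, c2⟩ | ⟨c1, c2⟩
  · have k1 := nn_le h hij hi1 Cm (a := lo i) le_rfl (by omega) c2 hi1
    obtain ⟨-, d1, d2, d3⟩ := c1
    have b4 : hi i = lo i + 2 → 1 ≤ Wd.fuw lo hi i → lo (i + 1) = lo i + 1 := fun q1 q2 =>
      (b3 q1 q2).1 ⟨a0, d1, d2, d3⟩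
    omega
  · have k1 := nn_le h hij hi1 Cm (a := hi i - 1) (by omega) (by omega)
      (by rw [show hi i - 1 + 1 = hi i by omega]; exact c2) hi1
    obtain ⟨-, d1, d2, d3⟩ := c1
    have b4 : hi i = lo i + 2 → 1 ≤ Wd.fuw lo hi i → hi (i + 1) = hi i := fun q1 q2 =>
      (b3 q1 q2).2 ⟨a0, d1, d2, d3⟩
    omega

end nj

end Pool.Agent.GaussPoset.Win.Pn

end
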