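import Mathlib
import Pool.Agent.W_448zz_h61.Ns
import Pool.Agent.W_448zz_h61.M070

/-! From `Pool.Agent.W_448ev_h61.EvL7c` -/

/-! Values of the word E7 at the window 8 (kernel evaluation, in pieces). -/

namespace Pool.Agent.GaussPoset.Win.Ev

set_option maxRecDepth 100000

/-- 71888 nodes -/
theorem E7p14_0_p_0_0_0 : pcv 1 (tl (tl (tl (mk [0, 0, 0, 0, 0, 0, 1, 2, 2, 3, 3, 3, 4, 5, 5, 5] [0, 0, 0, 0, 1, 1, 2, 3, 4, 4, 4, 4, 5, 5, 5, 5] 16 8)))) (0 + 0 * 32 ^ 258 + 0 * 32 ^ 291) 226 (14 - 0 - 0) 0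
    [0, -1] = true := by
  decide +kernel

/-- 91418 nodes -/
theorem E7p14_0_p_0_0_1 : pcv 1 (tl (tl (tl (mk [0, 0, 0, 0, 0, 0, 1, 2, 2, 3, 3, 3, 4, 5, 5, 5] [0, 0, 0, 0, 1, 1, 2, 3, 4, 4, 4, 4, 5, 5, 5, 5] 16 8)))) (0 + 0 * 32 ^ 258 + 0 * 32 ^ 291) 226 (14 - 0 - 0) 2
    [-41, 1] = true := by
  decide +kernel

/-- 49296 nodes -/
theorem E7p14_0_p_0_0_2 : pcv 1 (tl (tl (tl (mk [0, 0, 0, 0, 0, 0, 1, 2, 2, 3, 3, 3, 4, 5, 5, 5] [0, 0, 0, 0, 1, 1, 2, 3, 4, 4, 4, 4, 5, 5, 5, 5] 16 8)))) (0 + 0 * 32 ^ 258 + 0 * 32 ^ 291) 226 (14 - 0 - 0) 4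
    [24, 12, 4, 1, 0, 0, 0, 0, 0, 0, 0] = true := by
  decide +kernel

theorem E7p14_0_p_0_0 : pcv 1 (tl (tl (mk [0, 0, 0, 0, 0, 0, 1, 2, 2, 3, 3, 3, 4, 5, 5, 5] [0, 0, 0, 0, 1, 1, 2, 3, 4, 4, 4, 4, 5, 5, 5, 5] 16 8))) (0 + 0 * 32 ^ 258) 291 (14 - 0) 0 [0] = true := by
  have h := pcv_app (pcv_app E7p14_0_p_0_0_0 (by decide) E7p14_0_p_0_0_1) (by decide) E7p14_0_p_0_0_2
  exact pcv_one E7_7_hd3 (c := [0, -1, -41, 1, 24, 12, 4, 1, 0, 0, 0, 0, 0, 0, 0]) (by decide) h (by decide)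

/-- 77012 nodes -/
theorem E7p14_0_p_0_1 : pcv 1 (tl (tl (mk [0, 0, 0, 0, 0, 0, 1, 2, 2, 3, 3, 3, 4, 5, 5, 5] [0, 0, 0, 0, 1, 1, 2, 3, 4, 4, 4, 4, 5, 5, 5, 5] 16 8))) (0 + 0 * 32 ^ 258) 291 (14 - 0) 1
    [-1] = true := by
  decide +kernel

/-- 66394 nodes -/
theorem E7p14_0_p_0_2 : pcv 1 (tl (tl (mk [0, 0, 0, 0, 0, 0, 1, 2, 2, 3, 3, 3, 4, 5, 5, 5] [0, 0, 0, 0, 1, 1, 2, 3, 4, 4, 4, 4, 5, 5, 5, 5] 16 8))) (0 + 0 * 32 ^ 258) 291 (14 - 0) 2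
    [-41] = true := by
  decide +kernel

/-- 90735 nodes -/
theorem E7p14_0_p_0_3 : pcv 1 (tl (tl (mk [0, 0, 0, 0, 0, 0, 1, 2, 2, 3, 3, 3, 4, 5, 5, 5] [0, 0, 0, 0, 1, 1, 2, 3, 4, 4, 4, 4, 5, 5, 5, 5] 16 8))) (0 + 0 * 32 ^ 258) 291 (14 - 0) 3
    [1, 24, 12, 4, 1, 0, 0, 0, 0, 0, 0, 0] = true := by
  decide +kernel

theorem E7p14_0_p_0 : pcv 1 (tl (mk [0, 0, 0, 0, 0, 0, 1, 2, 2, 3, 3, 3, 4, 5, 5, 5] [0, 0, 0, 0, 1, 1, 2, 3, 4, 4, 4, 4, 5, 5, 5, 5] 16 8)) (0) 258 (14) 0 [0] = true := by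
  have h := pcv_app (pcv_app (pcv_app E7p14_0_p_0_0 (by decide) E7p14_0_p_0_1) (by decide) E7p14_0_p_0_2) (by decide) E7p14_0_p_0_3
  exact pcv_one E7_7_hd2 (c := [0, -1, -41, 1, 24, 12, 4, 1, 0, 0, 0, 0, 0, 0, 0]) (by decide) h (by decide)

theorem E7p14_0 : pcs 1 (tl (mk [0, 0, 0, 0, 0, 0, 1, 2, 2, 3, 3, 3, 4, 5, 5, 5] [0, 0, 0, 0, 1, 1, 2, 3, 4, 4, 4, 4, 5, 5, 5, 5] 16 8)) 258 14 0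
    [0] = true := by
  have h := E7p14_0_p_0
  exact pcs_of h

end Pool.Agent.GaussPoset.Win.Ev
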