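import Mathlib
import Pool.Agent.W_448zz_h61.Ns
import Pool.Agent.W_448zz_h61.M070

/-! From `Pool.Agent.W_448ev_h61.EvL7d` -/

/-! Values of the word E7 at the window 8 (kernel evaluation, in pieces). -/

namespace Pool.Agent.GaussPoset.Win.Ev

set_option maxRecDepth 100000

/-- 95806 nodes -/
theorem E7p14_1_p_0_0 : pcv 1 (tl (tl (mk [0, 0, 0, 0, 0, 0, 1, 2, 2, 3, 3, 3, 4, 5, 5, 5] [0, 0, 0, 0, 1, 1, 2, 3, 4, 4, 4, 4, 5, 5, 5, 5] 16 8))) (0 + 1 * 32 ^ 258) 291 (14 - 1) 0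
    [1] = true := by
  decide +kernel

/-- 114221 nodes -/
theorem E7p14_1_p_0_1 : pcv 1 (tl (tl (mk [0, 0, 0, 0, 0, 0, 1, 2, 2, 3, 3, 3, 4, 5, 5, 5] [0, 0, 0, 0, 1, 1, 2, 3, 4, 4, 4, 4, 5, 5, 5, 5] 16 8))) (0 + 1 * 32 ^ 258) 291 (14 - 1) 1
    [0] = true := by
  decide +kernel

/-- 81032 nodes -/
theorem E7p14_1_p_0_2 : pcv 1 (tl (tl (mk [0, 0, 0, 0, 0, 0, 1, 2, 2, 3, 3, 3, 4, 5, 5, 5] [0, 0, 0, 0, 1, 1, 2, 3, 4, 4, 4, 4, 5, 5, 5, 5] 16 8))) (0 + 1 * 32 ^ 258) 291 (14 - 1) 2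
    [-4] = true := by
  decide +kernel

/-- 96292 nodes -/
theorem E7p14_1_p_0_3 : pcv 1 (tl (tl (mk [0, 0, 0, 0, 0, 0, 1, 2, 2, 3, 3, 3, 4, 5, 5, 5] [0, 0, 0, 0, 1, 1, 2, 3, 4, 4, 4, 4, 5, 5, 5, 5] 16 8))) (0 + 1 * 32 ^ 258) 291 (14 - 1) 3
    [4, 1, 0, 0, 0, 0, 0, 0, 0, 0, 0] = true := by
  decide +kernel

theorem E7p14_1_p_0 : pcv 1 (tl (mk [0, 0, 0, 0, 0, 0, 1, 2, 2, 3, 3, 3, 4, 5, 5, 5] [0, 0, 0, 0, 1, 1, 2, 3, 4, 4, 4, 4, 5, 5, 5, 5] 16 8)) (0) 258 (14) 1 [2] = true := by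
  have h := pcv_app (pcv_app (pcv_app E7p14_1_p_0_0 (by decide) E7p14_1_p_0_1) (by decide) E7p14_1_p_0_2) (by decide) E7p14_1_p_0_3
  exact pcv_one E7_7_hd2 (c := [1, 0, -4, 4, 1, 0, 0, 0, 0, 0, 0, 0, 0, 0]) (by decide) h (by decide)

theorem E7p14_1 : pcs 1 (tl (mk [0, 0, 0, 0, 0, 0, 1, 2, 2, 3, 3, 3, 4, 5, 5, 5] [0, 0, 0, 0, 1, 1, 2, 3, 4, 4, 4, 4, 5, 5, 5, 5] 16 8)) 258 14 1
    [2] = true := by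
  have h := E7p14_1_p_0
  exact pcs_of h

end Pool.Agent.GaussPoset.Win.Ev
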