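import Mathlib
import Pool.Agent.W_448zz_h61.Ns
import Pool.Agent.W_448zz_h61.M070

/-! From `Pool.Agent.W_448ev_h61.EvL7e` -/

/-! Values of the word E7 at the window 8 (kernel evaluation, in pieces). -/

namespace Pool.Agent.GaussPoset.Win.Ev

set_option maxRecDepth 100000

/-- 85720 nodes -/
theorem E7p14_2_p_0_0 : pcv 1 (tl (tl (mk [0, 0, 0, 0, 0, 0, 1, 2, 2, 3, 3, 3, 4, 5, 5, 5] [0, 0, 0, 0, 1, 1, 2, 3, 4, 4, 4, 4, 5, 5, 5, 5] 16 8))) (0 + 2 * 32 ^ 258) 291 (14 - 2) 0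
    [9, -9] = true := by
  decide +kernel

/-- 79604 nodes -/
theorem E7p14_2_p_0_1 : pcv 1 (tl (tl (mk [0, 0, 0, 0, 0, 0, 1, 2, 2, 3, 3, 3, 4, 5, 5, 5] [0, 0, 0, 0, 1, 1, 2, 3, 4, 4, 4, 4, 5, 5, 5, 5] 16 8))) (0 + 2 * 32 ^ 258) 291 (14 - 2) 2
    [-1, 1, 0, 0, 0, 0, 0, 0, 0, 0, 0] = true := by
  decide +kernel

theorem E7p14_2_p_0 : pcv 1 (tl (mk [0, 0, 0, 0, 0, 0, 1, 2, 2, 3, 3, 3, 4, 5, 5, 5] [0, 0, 0, 0, 1, 1, 2, 3, 4, 4, 4, 4, 5, 5, 5, 5] 16 8)) (0) 258 (14) 2 [0] = true := by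
  have h := pcv_app E7p14_2_p_0_0 (by decide) E7p14_2_p_0_1
  exact pcv_one E7_7_hd2 (c := [9, -9, -1, 1, 0, 0, 0, 0, 0, 0, 0, 0, 0]) (by decide) h (by decide)

/-- 76248 nodes -/
theorem E7p14_2_p_1 : pcv 1 (tl (mk [0, 0, 0, 0, 0, 0, 1, 2, 2, 3, 3, 3, 4, 5, 5, 5] [0, 0, 0, 0, 1, 1, 2, 3, 4, 4, 4, 4, 5, 5, 5, 5] 16 8)) (0) 258 (14) 3
    [-2] = true := by
  decide +kernel

/-- 86972 nodes -/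
theorem E7p14_2_p_2 : pcv 1 (tl (mk [0, 0, 0, 0, 0, 0, 1, 2, 2, 3, 3, 3, 4, 5, 5, 5] [0, 0, 0, 0, 1, 1, 2, 3, 4, 4, 4, 4, 5, 5, 5, 5] 16 8)) (0) 258 (14) 4
    [0, 0, 0, 0, 0, 0, 0, 0, 0, 0, 0] = true := by
  decide +kernel

theorem E7p14_2 : pcs 1 (tl (mk [0, 0, 0, 0, 0, 0, 1, 2, 2, 3, 3, 3, 4, 5, 5, 5] [0, 0, 0, 0, 1, 1, 2, 3, 4, 4, 4, 4, 5, 5, 5, 5] 16 8)) 258 14 2
    [0, -2, 0, 0, 0, 0, 0, 0, 0, 0, 0, 0, 0] = true := by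
  have h := pcv_app (pcv_app E7p14_2_p_0 (by decide) E7p14_2_p_1) (by decide) E7p14_2_p_2
  exact pcs_of h

theorem E7_7_X : okXs [0, 0, 0, 0, 0, 0, 1, 2, 2, 3, 3, 3, 4, 5, 5, 5] [0, 0, 0, 0, 1, 1, 2, 3, 4, 4, 4, 4, 5, 5, 5, 5] 16 8 1 14 = true := by decide +kernel

end Pool.Agent.GaussPoset.Win.Ev
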