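import Mathlib
import Pool.Agent.W_448zz_h61.Ns
import Pool.Agent.W_448zz_h61.M068

/-! From `Pool.Agent.W_448ev_h61.EvL8` -/

section

/-! Values of the word E7 at the window 8 (kernel evaluation). -/

namespace Pool.Agent.GaussPoset.Win.Ev

set_option maxRecDepth 100000

theorem E7_al8 : goodE [0, 0, 0, 0, 0, 0, 1, 2, 2, 3, 3, 3, 4, 5, 5, 5, 5] [0, 0, 0, 0, 1, 1, 2, 3, 4, 4, 4, 4, 5, 5, 5, 5, 5] 17 8 2 8 0 = true := by decide +kernel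

end Pool.Agent.GaussPoset.Win.Ev

end

/-! From `Pool.Agent.W_448nl_h15.Nv16d` -/

section

/-! Values of the word E7 at the window 8, level 16 natural (kernel evaluation, in pieces). -/

namespace Pool.Agent.GaussPoset.Win.Ev

set_option maxRecDepth 100000

/-- 102898 nodes -/
theorem E7q16_10_0 : pcv 1 (tl (tl (tl (mk [0, 0, 0, 0, 0, 0, 1, 2, 2, 3, 3, 3, 4, 5, 5, 5, 5] [0, 0, 0, 0, 1, 1, 2, 3, 4, 4, 4, 4, 5, 5, 5, 5, 5] 17 8)))) (1 * 32 ^ 258 + 0 * 32 ^ 291) 226 (15 - 0) 0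
    [0, 0, -61] = true := by
  decide +kernel

/-- 87000 nodes -/
theorem E7q16_10_1 : pcv 1 (tl (tl (tl (mk [0, 0, 0, 0, 0, 0, 1, 2, 2, 3, 3, 3, 4, 5, 5, 5, 5] [0, 0, 0, 0, 1, 1, 2, 3, 4, 4, 4, 4, 5, 5, 5, 5, 5] 17 8)))) (1 * 32 ^ 258 + 0 * 32 ^ 291) 226 (15 - 0) 3
    [-23, 42] = true := by
  decide +kernel

/-- 49130 nodes -/
theorem E7q16_10_2 : pcv 1 (tl (tl (tl (mk [0, 0, 0, 0, 0, 0, 1, 2, 2, 3, 3, 3, 4, 5, 5, 5, 5] [0, 0, 0, 0, 1, 1, 2, 3, 4, 4, 4, 4, 5, 5, 5, 5, 5] 17 8)))) (1 * 32 ^ 258 + 0 * 32 ^ 291) 226 (15 - 0) 5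
    [28, 12, 4, 1, 0, 0, 0, 0, 0, 0, 0] = true := by
  decide +kernel

theorem E7q16_10 : pcv 1 (tl (tl (mk [0, 0, 0, 0, 0, 0, 1, 2, 2, 3, 3, 3, 4, 5, 5, 5, 5] [0, 0, 0, 0, 1, 1, 2, 3, 4, 4, 4, 4, 5, 5, 5, 5, 5] 17 8))) (1 * 32 ^ 258) 291 (15) 0 [3] = true := by
  have h := pcv_app (pcv_app E7q16_10_0 (by decide) E7q16_10_1) (by decide) E7q16_10_2
  exact pcv_one E7_8_hd3 (c := [0, 0, -61, -23, 42, 28, 12, 4, 1, 0, 0, 0, 0, 0, 0, 0]) (by decide) h (by decide)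

end Pool.Agent.GaussPoset.Win.Ev

end
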