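import Mathlib
import Pool.Agent.W_448zz_h61.Ns
import Pool.Agent.W_448zz_h61.M077
import Pool.Agent.W_448zz_h61.M102

/-! From `Pool.Agent.W_448s7s_h5.SpA` -/

section

/-!
# Clusters of components linked by joins: matching polynomials (MP_448cb3_co)
-/

namespace Pool.Agent.GaussPoset.Sm

set_option linter.unusedSectionVars false

open Finset Polynomial

universe u

variable {P : Type u} [Fintype P] [PartialOrder P] [DecidableEq P] {r j : ℕ}

lemma ucv_cross (G : Win.GoodTo P r j) {v v' : P} (hv : lev v ≤ j) (hv' : lev v' ≤ j)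
    (hne : topOf v ≠ topOf v') : ucv v v' = 0 := by
  by_contra hcon
  have h1 := G.top_of_ucv hv (Nat.one_le_iff_ne_zero.mpr hcon) (topOf v).2 (le_topOf v)
  exact hne (Subtype.ext (G.top_eq hv' (topOf v).2 (topOf v').2 h1 (le_topOf v')))

/-- two covers with different tops of an element of level `j + 1` -/
lemma cg_of_cov (G : Win.GoodTo P r j) {z u w : P} (hlz : lev z = j + 1) (h1 : z ⋖ u) (h2 : z ⋖ w)
    (hne : topOf u ≠ topOf w) : Cg z u w := by
  have H := G.H
  have e1 := (H.covBy_iff.mp h1).2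
  have e2 := (H.covBy_iff.mp h2).2
  exact Cg.mk' h1 h2 (only_of_le H G.good (le_topOf u) (by omega))
    (only_of_le H G.good (le_topOf w) (by omega)) hne

open Classical in
/-- the matching polynomial of a closed family of components is one -/
theorem mp_closed (G : Win.GoodTo P r j) (hr : j ≤ r) (S : Tops P → Prop)
    (hS : ∀ z x x' : P, Cg z x x' → lev z = j + 1 → S (topOf x) → S (topOf x')) :
    St.mp (Win.Df j) ((lv P j).filter fun v => S (topOf v)) = 1 := by
  have H := G.H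
  have h1 : St.mp (Win.Df j) (lv P j) = 1 := St.mp_level H hr
  have h2 : lv P j = ((lv P j).filter fun v => S (topOf v)) ∪
      ((lv P j).filter fun v => ¬ S (topOf v)) := (Finset.filter_union_filter_not_eq _ _).symm
  have hd : Disjoint ((lv P j).filter fun v => S (topOf v))
      ((lv P j).filter fun v => ¬ S (topOf v)) := Finset.disjoint_filter_filter_not _ _ _
  have h3 : ∀ u ∈ (lv P j).filter fun v => S (topOf v), ∀ w ∈ (lv P j).filter
      fun v => ¬ S (topOf v), Win.Df j {u, w} = 0 := by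
    intro u hu w hw
    rw [mem_filter, mem_lv] at hu hw
    have hne : topOf u ≠ topOf w := fun h => hw.2 (h ▸ hu.2)
    have hne' : u ≠ w := fun h => hne (by rw [h])
    have hd0 : dcv u w = 0 := by
      by_contra hcon
      obtain ⟨z, hz1, hz2⟩ := Win.StA_of_dcv (Nat.one_le_iff_ne_zero.mpr hcon)
      have e1 := (H.covBy_iff.mp hz1).2
      have hlz : lev z = j + 1 := by omega
      exact hw.2 (hS z u w (cg_of_cov G hlz hz1 hz2 hne) hlz hu.2)
    rw [Win.Df_pair H hu.1 hne', hd0, ucv_cross G hu.1.le hw.1.le hne]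
    simp
  rw [h2, St.mp_union hd h3] at h1
  exact St.eq_one_of_mul h1 St.coeff_zero_mp

open Classical in
/-- a closed family of components with one element on the level `j` has no joins -/
theorem no_cg_single (G : Win.GoodTo P r j) (hr : j ≤ r) (S : Tops P → Prop)
    (hS : ∀ z x x' : P, Cg z x x' → lev z = j + 1 → S (topOf x) → S (topOf x'))
    (h1 : ∀ v v' : P, lev v = j → lev v' = j → S (topOf v) → topOf v = topOf v' → v = v')
    {z x x' : P} (h : Cg z x x') (hl : lev z = j + 1) (hx : S (topOf x)) : False := by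
  have H := G.H
  obtain ⟨l1, l2⟩ := h.lev_eq H
  have hmp := mp_closed G hr S hS
  set V := (lv P j).filter fun v => S (topOf v) with hV
  have hc : (St.mp (Win.Df j) V).coeff 1 = 0 := by
    rw [hmp]
    simp [Polynomial.coeff_one]
  rw [St.coeff_mp] at hc
  have hval : ∀ u w : P, u ∈ V → w ∈ V → u ≠ w → Win.Df j {u, w} = (dcv u w : ℤ) := by
    intro u w hu hw hne
    rw [hV, mem_filter, mem_lv] at hu hw
    have hne' : topOf u ≠ topOf w := fun hh => hne (h1 u w hu.1 hw.1 hu.2 hh)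
    rw [Win.Df_pair H hu.1 hne, ucv_cross G hu.1.le hw.1.le hne']
    simp
  have hnn : ∀ M ∈ (St.MS V).filter (fun M => M.card = 1), 0 ≤ ∏ T ∈ M, Win.Df j T := by
    intro M hM
    rw [mem_filter] at hM
    refine Finset.prod_nonneg fun T hT => ?_
    obtain ⟨g1, g2⟩ := (St.mem_MS.1 hM.1).1 T hT
    obtain ⟨u, w, hne, rfl⟩ := Finset.card_eq_two.mp g2
    rw [hval u w (g1 (by simp)) (g1 (by simp)) hne]
    exact Int.natCast_nonneg _
  have h0 := (Finset.sum_eq_zero_iff_of_nonneg hnn).mp hc {{x, x'}} (by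
    rw [mem_filter, St.mem_MS]
    refine ⟨⟨?_, ?_⟩, card_singleton _⟩
    · intro T hT
      rw [mem_singleton] at hT
      subst hT
      refine ⟨?_, card_pair (fun hh => h.ne (by rw [hh]))⟩
      intro y hy
      rw [mem_insert, mem_singleton] at hy
      rw [hV, mem_filter, mem_lv]
      rcases hy with rfl | rfl
      · exact ⟨by omega, hx⟩
      · exact ⟨by omega, hS z x _ h hl hx⟩
    · rw [coe_singleton]
      exact Set.pairwiseDisjoint_singleton _ _)
  rw [prod_singleton, hval x x' (by rw [hV, mem_filter, mem_lv]; exact ⟨by omega, hx⟩)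
    (by rw [hV, mem_filter, mem_lv]; exact ⟨by omega, hS z x _ h hl hx⟩)
    (fun hh => h.ne (by rw [hh]))] at h0
  have := Win.dcv_pos h.cov h.cov'
  omega

end Pool.Agent.GaussPoset.Sm

end

/-! From `Pool.Agent.W_448s7s_h5.SmJ9` -/

section

/-!
# S7 for `j = 9`: windows `0`, `1` (MP_448cb3_co)
-/

namespace Pool.Agent.GaussPoset.Sm

set_option linter.unusedSectionVars false

open Finset Wd

universe u

variable {P : Type u} [Fintype P] [PartialOrder P] [DecidableEq P] {r : ℕ}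

/-- ends -/
def E9 : List (ℕ × ℕ × ℕ) :=
    [(0, 0, 0), (1, 2, 1), (1, 3, 0), (1, 4, 0), (3, 9, 1), (5, 20, 1)]

/-- sides, one level deeper -/
def S9a : List (ℕ × ℕ × ℕ) :=
    [(0, 0, 0), (0, 0, 1), (1, 1, 0), (1, 1, 1), (1, 2, 0), (1, 3, 0), (1, 4, 0), (2, 3, 0),
    (2, 3, 1), (3, 6, 0), (3, 6, 1), (3, 9, 0), (4, 7, 1), (4, 10, 0), (4, 10, 1), (5, 12, 0),
    (5, 12, 1), (5, 15, 0), (5, 20, 0), (6, 13, 1), (6, 16, 1)]

/-- sides, two or more levels deeper -/
def S9b : List (ℕ × ℕ × ℕ) :=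
    [(0, 0, 0), (0, 0, 1), (1, 1, 0), (1, 1, 1), (1, 1, 2), (1, 2, 0), (1, 3, 0), (1, 4, 0),
    (2, 3, 0), (2, 3, 1), (2, 3, 2), (3, 6, 0), (3, 6, 1), (3, 9, 0), (4, 7, 1), (4, 7, 2),
    (4, 7, 3), (4, 10, 0), (4, 10, 1), (4, 10, 2), (5, 12, 0), (5, 12, 1), (5, 15, 0),
    (5, 20, 0), (6, 13, 1), (6, 13, 2), (6, 13, 3), (6, 16, 1)]

lemma chkE9 : ChkE 9 E9 := by decide +kernel

/-- caps -/
def cp9 (w : ℕ) : ℤ := if w = 0 then cap0 9 else ((9 * (9 - 1) / 2 : ℕ) : ℤ) - 1

/-- even noise -/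
def ne9 (w : ℕ) (V : ℤ) : Bool := if w = 0 then false else nz 9 V

lemma bal9 {lo hi : Tops P → ℕ → ℕ} {e : Tops P → ℕ → ℕ → P} (K : Ctx P r 9 lo hi e)
    (hJ : ∃ z : P, Hul.Jn z) : ∀ w ≤ 1, ∃ V, WinB P 9 w (cp9 w) ((fun _ _ => false) w) (ne9 w)
      ((fun _ => 0) w) V := by
  intro w hw
  have : w = 0 ∨ w = 1 := by omega
  rcases this with rfl | rfl
  · exact K.win0 hJ
  · exact K.win1 (by norm_num) chkE9 (by decide +kernel) (by decide +kernel) hJ

/-- lines with `g`, by `κ` -/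
def L9 : List (List ℤ) :=
  [[0], [-4, -3, -2], [-8, -7, -6, -5, -4, 3], [-9, -1, 0, 1, 2, 3], [-13, -12, -11, -5, -4,
    -3, -2, -1, 0, 1, 2, 3, 8], [-20, -6, -4, -3, -2, -1, 0, 1, 2], [-24, -23, -22, -18, -10,
    -9, -8, -7], [-17], [-29]]

set_option maxRecDepth 100000 in
theorem tab9 : Tab 9 1 cp9 L9 E9 S9a S9b X0 := by
  refine ⟨by norm_num, chkE9, ?_, ?_, ?_, ?_, ?_, ?_, ?_, ?_, ?_, ?_⟩
  · decide +kernel
  · decide +kernel
  · decide +kernel
  · decide +kernel
  · decide +kernel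
  · intro _ h
    exact absurd h (by norm_num)
  · decide +kernel
  · decide +kernel
  · decide +kernel
  · decide +kernel

/-- the pairs of ends which are left -/
def R9 : List ((ℕ × ℕ × ℕ) × (ℕ × ℕ × ℕ)) :=
    [((5, 20, 1), (5, 20, 1))]

lemma rest9 : rest 9 E9 X0 (ubd 9 1 cp9 (fun _ => 0) L9 (fun _ _ => false) ne9 200 5) =
    R9 := by
  decide +kernel

/-- **S7 for `j = 9`**, exclusion `X0`. -/
theorem left9 {lo hi : Tops P → ℕ → ℕ} {e : Tops P → ℕ → ℕ → P} (K : Ctx P r 9 lo hi e)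
    {z x x' : P} (h : Cg z x x') (hl : lev z = 10) :
    ∃ s s', (s, s') ∈ R9 ∧ Dt 9 x s ∧ Dt 9 x' s' := by
  have hs : ∀ y : P, lev y = 9 → Sok 9 y := fun y hy => ⟨fun hf => by have := hf.1; omega,
    fun h12 => by omega⟩
  obtain ⟨l1, l2⟩ := h.lev_eq K.gt.H
  obtain ⟨s, s', h1, h2, h3⟩ := K.left (noP_zero 9) tab9 (bal9 K ⟨z, h.jn⟩) 200 5 h hl
    (hs x (by omega)) (hs x' (by omega))
  rw [rest9] at h1
  exact ⟨s, s', h1, h2, h3⟩

end Pool.Agent.GaussPoset.Sm

end

/-! From `Pool.Agent.W_448s7s_h5.SpB` -/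

section

/-!
# S7 for `j = 9`: the ends with `(5, 20)` (MP_448cb3_co)
-/

namespace Pool.Agent.GaussPoset.Sm

set_option linter.unusedSectionVars false

open Finset Wd

universe u

variable {P : Type u} [Fintype P] [PartialOrder P] [DecidableEq P] {r j : ℕ}

/-- rows of a late component -/
lemma LateC.rows {t : P} {lo hi : ℕ → ℕ} {e : ℕ → ℕ → P} {a : ℕ} (C : Cp.Comp j t lo hi e)
    (h : LateC j lo hi a) {W : List Ltr} (hW : Wd.word lo hi a (j - a) = W) :
    Lw W (W.length + 3) = lo j ∧ Hw W (W.length + 3) = hi j := by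
  obtain ⟨d, rfl⟩ : ∃ d, j = a + d := ⟨j - a, by have := h.le; omega⟩
  rw [Nat.add_sub_cancel_left] at hW
  have hlen : W.length = d := by rw [← hW, word_length]
  rw [hlen, ← hW]
  exact ⟨lo_word (a := a) (d := d) C.lo_step h.at_a.1 (hi := hi) le_rfl d le_rfl,
    hi_word (a := a) (d := d) C.hi_step h.at_a.2 (lo := lo) le_rfl d le_rfl⟩

/-- the ends with the data `s` are in rows with one element -/
def Chk1 (j : ℕ) (s : ℕ × ℕ × ℕ) : Prop :=
  ∀ a ∈ range (j + 1), 2 ≤ a → ∀ w ∈ wds j a, w.length = j - a →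
    ∀ A ∈ (Icc (Lw w (w.length + 3)) (Hw w (w.length + 3))).powerset, A.Nonempty →
      condA 0 w A → (mA w A, dA w A, rhA w A) = s → Lw w (w.length + 3) = Hw w (w.length + 3)

instance (j : ℕ) (s : ℕ × ℕ × ℕ) : Decidable (Chk1 j s) := by
  unfold Chk1; infer_instance

theorem Ctx.row_one {lo hi : Tops P → ℕ → ℕ} {e : Tops P → ℕ → ℕ → P} (K : Ctx P r j lo hi e)
    {s : ℕ × ℕ × ℕ} (hs : s.1 ≠ 0) (hc : Chk1 j s) {x : P} (hx : x ∈ onlyB (topOf x))
    (hl : lev x = j) (hend : (Win.uc x).card = 1) (hD : Dt j x s) (hF : ¬ Fold j x) :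
    lo (topOf x) j = hi (topOf x) j := by
  obtain ⟨d1, d2, d3⟩ := hD
  have hj := K.h5
  rcases K.cases hx hl.ge (fun _ => hend) (fun h => by have := h.1; omega) with h | h | ⟨a, h, -⟩
  · exact absurd h hF
  · exfalso
    have := h.mX.1
    rw [d1] at this
    exact hs (by exact_mod_cast this)
  · obtain ⟨A, g1, g2, g3, g4, g5, -, g7⟩ := late_side K.gt (by omega) (K.comp (topOf x)) h.two
      h.le h.low h.at_a hx hl.ge (fun _ => hend) rfl
    have h1 := hc a (mem_range.mpr (by have := h.le; omega)) h.two _ h.word (by simp) A g1 g2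
      (g3 0 hl) (by
        refine Prod.ext ?_ (Prod.ext ?_ ?_)
        · rw [d1] at g4
          exact_mod_cast g4.symm
        · rw [d2] at g5
          exact_mod_cast g5.symm
        · show rhA _ A = s.2.2
          omega)
    obtain ⟨e1, e2⟩ := h.rows (K.comp (topOf x)) rfl
    rw [← e1, ← e2]
    exact h1

lemma chk1_9 : Chk1 9 (5, 20, 1) := by decide +kernel

/-- **S7 for `j = 9`** -/
theorem no_join9 {lo hi : Tops P → ℕ → ℕ} {e : Tops P → ℕ → ℕ → P} (K : Ctx P r 9 lo hi e)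
    {z : P} (hl : lev z = 10) : ¬ Hul.Jn z := by
  intro hz
  have hrow : ∀ z x x' : P, Cg z x x' → lev z = 10 → lo (topOf x) 9 = hi (topOf x) 9 := by
    intro z x x' h hl
    obtain ⟨s, s', h1, h2, h3⟩ := left9 K h hl
    rw [R9, List.mem_singleton, Prod.mk.injEq] at h1
    obtain ⟨rfl, rfl⟩ := h1
    obtain ⟨l1, l2⟩ := h.lev_eq K.gt.H
    refine K.row_one (by norm_num) chk1_9 h.only (by omega) (K.ends h hl).1 h2 (fun hf => ?_)
    have := hf.2.1
    omega
  obtain ⟨x, x', h⟩ := K.cross hz hl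
  refine no_cg_single K.gt K.gt.hr (fun t => lo t 9 = hi t 9)
    (fun z x x' h hl _ => hrow z x' x h.symm hl) ?_ h hl (hrow z x x' h hl)
  intro v v' hv hv' hs ht
  have C := K.comp (topOf v)
  obtain ⟨s, a1, a2, a3⟩ := C.surj v (le_topOf v) (by omega)
  obtain ⟨s', b1, b2, b3⟩ := C.surj v' (by rw [ht]; exact le_topOf v') (by omega)
  rw [hv] at a1 a2 a3
  rw [hv'] at b1 b2 b3
  rw [← a3, ← b3, show s = s' by omega]

end Pool.Agent.GaussPoset.Sm

end
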