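import Mathlib
import Pool.Agent.W_448zz_h61.Ns
import Pool.Agent.W_448zz_h61.M052
import Pool.Agent.W_448zz_h61.M062
import Pool.Agent.W_448zz_h61.M128
import Pool.Agent.W_448zz_h61.M140
import Pool.Agent.W_448zz_h61.M154

/-! From `Pool.Agent.W_448j8_h67.JaF` -/

section

/-!
The pole of a common child of the fold end and the straight end of a stair, truncated data of
the other components (MP_448cb3_co).
-/

namespace Pool.Agent.GaussPoset.J8

set_option linter.unusedSectionVars false

open Polynomial Finset Dd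

universe u

variable {P : Type u} [Fintype P] [PartialOrder P] [DecidableEq P] {r m g u : ℕ}

/-- a dangerous element costs -/
lemma SC_low_zero {Q : Type u} [Fintype Q] [PartialOrder Q] [DecidableEq Q] {i k : ℕ}
    {Sd : Finset Q} {z' : Q} (hz : z' ∈ Sd) (hiz : i < lev z') {n : ℕ}
    (hn : n < cst i (fun _ => k) z') :
    SC (fun (e : Q → ℕ) F => Vd i e F ∧ Sd ⊆ upL i k e F) n = 0 := by
  classical
  rw [SC_eq_cfg]
  refine Finset.sum_eq_zero fun x hx => ?_
  exfalso
  rw [mem_cfg] at hx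
  obtain ⟨he, hV, hS⟩ := hx
  obtain ⟨F, e⟩ := x
  simp only at he hV hS
  have hd : z' ∈ F ∨ k ≤ e z' := by
    rcases mem_upL.mp (hS hz) with h | h
    · exact Or.inl h
    · right
      rw [rho_of_lt hiz] at h
      exact_mod_cast h
  have h1 : cst i (fun _ => k) z' ≤ ∑ x, e x :=
    Finset.sum_le_sum fun x _ => ez_le (h := fun _ => k) hV hiz hd x
  omega

/-- the other components, truncated -/
theorem dvd_restL {i n0 : ℕ} {N : Tops P → Finset P} {b : Tops P → ℕ} {θ : P → ℕ}
    {B : P → Prop} (L : Lad i n0 (unnat N) b θ B) (HN : NatSys N) (t0 : Tops P) {n : ℕ}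
    (hn : n < n0) :
    (1 + X : ℤ[X]) ^ (∑ t ∈ univ.erase t0, b t) ∣
      Z {x : {x : P // x ∉ offN N t0} // ¬ (x : P) ∈ onlyB t0} i n := by
  classical
  have hmemN : ∀ x : {x : {x : P // x ∉ offN N t0} // ¬ (x : P) ∈ onlyB t0},
      (x : P) ∈ N (topOf (x : P)) := by
    intro x
    refine mem_of_not_offN x.1.2 ?_ (le_topOf _)
    intro h
    refine x.2 (onlyB_of_not_offN HN x.1.2 ?_)
    have h1 := le_topOf (x : P)
    rw [h] at h1
    exact h1
  have hs : ∑ t ∈ univ.erase t0, b t = ∑ t, (if t = t0 then 0 else b t) := by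
    rw [← Finset.add_sum_erase univ _ (mem_univ t0), if_pos rfl, zero_add]
    exact Finset.sum_congr rfl fun t ht => by rw [if_neg (ne_of_mem_erase ht)]
  rw [hs]
  have hc : ∀ x y : {x : {x : P // x ∉ offN N t0} // ¬ (x : P) ∈ onlyB t0}, x ≤ y →
      topOf (x : P) = topOf (y : P) := by
    intro x y hxy
    exact HN.cp x y hxy fun h => mem_unnat.mp h _ (hmemN x)
  choose f hf hf' using fun k => exists_norm
    {x : {x : {x : P // x ∉ offN N t0} // ¬ (x : P) ∈ onlyB t0} // topOf (x : P) = k} i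
  rw [Z_prod (fun x : {x : {x : P // x ∉ offN N t0} // ¬ (x : P) ∈ onlyB t0} =>
    topOf (x : P)) hc i f hf n]
  refine Lo.prod (n0 := n0) univ (fun k _ n' hn' => ?_) n hn
  by_cases hk : k = t0
  · rw [if_pos hk, pow_zero]
    exact one_dvd _
  · rw [if_neg hk, hf']
    have h2 := (L.data k).clean (unnat N) ⟨L.low, Finset.Subset.refl _, L.lev, L.base⟩
      inferInstance n' hn'
    have e : {x : {x : {x : P // x ∉ offN N t0} // ¬ (x : P) ∈ onlyB t0} // topOf (x : P) = k} ≃o
        {x : {x : P // x ∉ unnat N} // topOf (x : P) = k} :=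
      { toFun := fun x => ⟨⟨x.1.1.1, fun h => mem_unnat.mp h _ (hmemN x.1)⟩, x.2⟩
        invFun := fun x => ⟨⟨⟨x.1.1, fun h => x.1.2 (offN_sub HN h)⟩, fun h => by
          have h3 : (x.1.1 : P) ∈ N k := HN.mem_iff.mpr ⟨x.1.2, x.2⟩
          exact hk (Subtype.ext (mem_onlyB.mp h k k.2 (HN.le_t k _ h3)))⟩, x.2⟩
        left_inv := fun x => rfl
        right_inv := fun x => rfl
        map_rel_iff' := Iff.rfl }
    rw [Z_iso e]
    exact h2

section CEl

variable {t0 : Tops P} {Nc : Finset P} {co : P → ℕ × ℕ} {z F S : P}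
  {N : Tops P → Finset P}

/-- **The pole.** -/
theorem poleT (C : CEl t0 Nc co m z F S) (H : Gr P r) {b : Tops P → ℕ} (HN : NatSys N)
    (hlow : ∀ x ∈ unnat N, 2 * m < lev x)
    (hrest' : ∀ n ≤ (u + 1) ^ 2, (1 + X : ℤ[X]) ^ (∑ t ∈ univ.erase t0, b t) ∣
      Z {x : {x : P // x ∉ offN N t0} // ¬ (x : P) ∈ onlyB t0} m n)
    (hm : m = 2 * g + u) (hu : u ≤ 1) (hg : 1 ≤ g) (hgu : g = 1 → u = 0) {Sd : Finset P}
    (hzS : z ∈ Sd) (hSd : ∀ x ∈ Sd, x ∈ onlyB t0) :
    (∀ n < (u + 1) ^ 2 + cst m (fun _ => u + 1) z,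
      (1 + X : ℤ[X]) ^ (g + 1 + ∑ t ∈ univ.erase t0, b t) ∣ ZB m ∅ 0 (sgs Sd (u + 1)) n) ∧
    ((∃ x ∈ Sd, ¬ z ≤ x) → (1 + X : ℤ[X]) ^ (g + 1 + ∑ t ∈ univ.erase t0, b t) ∣
      ZB m ∅ 0 (sgs Sd (u + 1)) ((u + 1) ^ 2 + cst m (fun _ => u + 1) z)) ∧
    ((∀ x ∈ Sd, z ≤ x) → (1 + X : ℤ[X]) ^ (g + 1 + ∑ t ∈ univ.erase t0, b t) ∣
      ZB m ∅ 0 (sgs Sd (u + 1)) ((u + 1) ^ 2 + cst m (fun _ => u + 1) z) -
      X ^ (below P m + (u + 1) * g) * (1 + X) ^ ((lv P m).card - 1)) := by
  classical
  have hgr := H.gradedBelow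
  have E := C.emb hgr HN hlow
  have hzo := C.z_only hgr HN hlow
  have hzl := C.lev_z hgr
  set E0 := cst m (fun _ => u + 1) z with hE0
  have hsq : (u + 1) ^ 2 < m + 1 := by
    rcases Nat.le_one_iff_eq_zero_or_eq_one.mp hu with h | h
    · subst h; simp; omega
    · subst h
      have : g ≠ 1 := fun h => by have := hgu h; omega
      have : (1 + 1) ^ 2 = 4 := by norm_num
      omega
  have hred : ∀ n ≤ (u + 1) ^ 2 + E0, ZB m ∅ 0 (sgs Sd (u + 1)) n = ∑ ab ∈ antidiagonal n,
      SC (fun (e : {x : {x : P // x ∉ offN N t0} // (x : P) ∈ onlyB t0} → ℕ) F => Vd m e F ∧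
        (univ.filter (fun x : {x : {x : P // x ∉ offN N t0} // (x : P) ∈ onlyB t0} =>
          (x : P) ∈ Sd)) ⊆ upL m (u + 1) e F) ab.1 *
      Z {x : {x : P // x ∉ offN N t0} // ¬ (x : P) ∈ onlyB t0} m ab.2 := by
    intro n hn
    refine ZB_reduce HN (fun x hx => by have := hlow x hx; omega) hSd ?_
    intro e F' hV hS hs x hx
    have hz1 : z ∈ F' ∨ u + 1 ≤ e z := by
      rcases mem_upL.mp (hS hzS) with h | h
      · exact Or.inl h
      · right
        rw [rho_of_lt (by omega)] at h
        exact_mod_cast h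
    by_contra hcon
    have hd : x ∈ F' ∨ 1 ≤ e x := by
      by_contra h
      push Not at h
      exact hcon ⟨h.1, by omega⟩
    have := C.cost hgr HN hlow hV hz1 hx hd
    omega
  set Sd0 := univ.filter (fun x : {x : {x : P // x ∉ offN N t0} // (x : P) ∈ onlyB t0} =>
          (x : P) ∈ Sd) with hSd0
  have hmS : ∀ x, x ∈ Sd0 ↔ (x : P) ∈ Sd := by
    intro x
    rw [hSd0, mem_filter]
    simp only [mem_univ, true_and]
  set zQ : {x : {x : P // x ∉ offN N t0} // (x : P) ∈ onlyB t0} :=
    ⟨⟨z, not_offN_of_onlyB hzo⟩, hzo⟩ with hzQ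
  have key := C.comp H E hm hu hg hgu Sd0 (z' := zQ) rfl ((hmS _).mpr hzS)
  have hsum := CEl.sum_upz (m := m) E (u + 1)
  have hcstQ : cst m (fun _ => u + 1) zQ = E0 := by
    rw [hE0, ← hsum]
    unfold cst ez
    rw [← Finset.sum_filter]
    refine Finset.sum_congr ?_ (fun _ _ => rfl)
    ext x
    rw [mem_filter, CEl.mem_upz]
    simp only [mem_univ, true_and]
    rfl
  have hzQl : m < lev zQ := by
    rw [E.lev]
    show m < lev z
    omega
  have hz0 : ∀ n < E0, SC (fun (e : {x : {x : P // x ∉ offN N t0} //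
      (x : P) ∈ onlyB t0} → ℕ) F => Vd m e F ∧ Sd0 ⊆ upL m (u + 1) e F) n = 0 :=
    fun n hn => SC_low_zero ((hmS _).mpr hzS) hzQl (by rw [hcstQ]; exact hn)
  rw [hsum, ← hE0] at key
  obtain ⟨k1, k2, k3⟩ := key
  -- the products
  have hprod : ∀ ab : ℕ × ℕ, ab.1 + ab.2 ≤ (u + 1) ^ 2 + E0 →
      (1 + X : ℤ[X]) ^ (g + 1) ∣ SC (fun (e : {x : {x : P // x ∉ offN N t0} //
        (x : P) ∈ onlyB t0} → ℕ) F => Vd m e F ∧ Sd0 ⊆ upL m (u + 1) e F) ab.1 →
      (1 + X : ℤ[X]) ^ (g + 1 + ∑ t ∈ univ.erase t0, b t) ∣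
        SC (fun (e : {x : {x : P // x ∉ offN N t0} // (x : P) ∈ onlyB t0} → ℕ) F => Vd m e F ∧
          Sd0 ⊆ upL m (u + 1) e F) ab.1 *
        Z {x : {x : P // x ∉ offN N t0} // ¬ (x : P) ∈ onlyB t0} m ab.2 := by
    intro ab hab hd
    rcases Nat.lt_or_ge ab.1 E0 with h | h
    · rw [hz0 ab.1 h, zero_mul]
      exact dvd_zero _
    · rw [pow_add _ (g + 1)]
      exact mul_dvd_mul hd (hrest' _ (by omega))
  have hp1 : ∀ n < (u + 1) ^ 2 + E0, (1 + X : ℤ[X]) ^ (g + 1 + ∑ t ∈ univ.erase t0, b t) ∣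
      ZB m ∅ 0 (sgs Sd (u + 1)) n := by
    intro n hn
    rw [hred n hn.le]
    refine Finset.dvd_sum fun ab hab => ?_
    rw [HasAntidiagonal.mem_antidiagonal] at hab
    exact hprod ab (by omega) (k1 ab.1 (by omega))
  refine ⟨hp1, ?_, ?_⟩
  · rintro ⟨x, hx, hzx⟩
    rw [hred _ le_rfl]
    refine Finset.dvd_sum fun ab hab => ?_
    rw [HasAntidiagonal.mem_antidiagonal] at hab
    refine hprod ab hab.le ?_
    rcases Nat.lt_or_ge ab.1 ((u + 1) ^ 2 + E0) with h | h
    · exact k1 ab.1 h
    · have h1 : ab.1 = (u + 1) ^ 2 + E0 := by omega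
      rw [h1]
      refine k2 ⟨⟨⟨x, not_offN_of_onlyB (hSd x hx)⟩, hSd x hx⟩, (hmS _).mpr hx, hzx⟩
  · intro hall
    have k3' := k3 (fun x hx => hall _ ((hmS x).mp hx))
    rw [hred _ le_rfl]
    have hmem : (((u + 1) ^ 2 + E0, 0) : ℕ × ℕ) ∈ antidiagonal ((u + 1) ^ 2 + E0) := by
      rw [HasAntidiagonal.mem_antidiagonal]
      exact Nat.add_zero _
    rw [← Finset.add_sum_erase _ _ hmem]
    obtain ⟨a, ha, hcore⟩ := C.core_eq hgr E hm hu hg hgu
    have hT := C.triS_tz E
    have e1 := hT.below_eq hm hu hg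
    have e2 := hT.card_lv_low (l := m) (by omega) (by omega)
    have e3 : below P m = below {x // x ∈ CEl.tz z (fun x : {x : {x : P // x ∉ offN N t0} //
        (x : P) ∈ onlyB t0} => (x : P))} m +
        below {x : {x : P // x ∉ offN N t0} // ¬ (x : P) ∈ onlyB t0} m :=
      C.card_split hgr HN (by omega) hlow (fun l => l < m) (by omega)
    have e4 : (lv P m).card = (lv {x // x ∈ CEl.tz z (fun x : {x : {x : P // x ∉ offN N t0} //
        (x : P) ∈ onlyB t0} => (x : P))} m).card +
        (lv {x : {x : P // x ∉ offN N t0} // ¬ (x : P) ∈ onlyB t0} m).card :=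
      C.card_split hgr HN (by omega) hlow (fun l => l = m) (by omega)
    have h0 := hrest' 0 (Nat.zero_le _)
    rw [Z_zero] at h0
    simp only
    rw [Z_zero]
    have e5 : below P m + (u + 1) * g = a +
        below {x : {x : P // x ∉ offN N t0} // ¬ (x : P) ∈ onlyB t0} m := by omega
    have e6 : (lv P m).card - 1 = g +
        (lv {x : {x : P // x ∉ offN N t0} // ¬ (x : P) ∈ onlyB t0} m).card := by omega
    rw [e5, e6]
    have h1 := dvd_add k3' hcore
    have h2 := mul_dvd_mul h1 h0
    rw [← pow_add] at h2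
    have h3 : (1 + X : ℤ[X]) ^ (g + 1 + ∑ t ∈ univ.erase t0, b t) ∣
        ∑ ab ∈ (antidiagonal ((u + 1) ^ 2 + E0)).erase ((u + 1) ^ 2 + E0, 0),
        SC (fun (e : {x : {x : P // x ∉ offN N t0} // (x : P) ∈ onlyB t0} → ℕ) F => Vd m e F ∧
          Sd0 ⊆ upL m (u + 1) e F) ab.1 *
        Z {x : {x : P // x ∉ offN N t0} // ¬ (x : P) ∈ onlyB t0} m ab.2 := by
      refine Finset.dvd_sum fun ab hab => ?_
      rw [mem_erase, HasAntidiagonal.mem_antidiagonal] at hab
      refine hprod ab hab.2.le (k1 ab.1 ?_)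
      by_contra hcon
      apply hab.1
      exact Prod.ext (by simp only; omega) (by simp only; omega)
    have h4 := dvd_add h2 h3
    refine h4.trans (dvd_of_eq ?_)
    rw [pow_add X a, pow_add (1 + X) g]
    ring

/-- the pole of a family of (C) elements with the same covers -/
theorem fam_poleT (C : CEl t0 Nc co m z F S) (H : Gr P r) {b : Tops P → ℕ} (HN : NatSys N)
    (hlow : ∀ x ∈ unnat N, 2 * m < lev x)
    (hrest' : ∀ n ≤ (u + 1) ^ 2, (1 + X : ℤ[X]) ^ (∑ t ∈ univ.erase t0, b t) ∣
      Z {x : {x : P // x ∉ offN N t0} // ¬ (x : P) ∈ onlyB t0} m n)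
    (hm : m = 2 * g + u) (hu : u ≤ 1) (hg : 1 ≤ g) (hgu : g = 1 → u = 0) (hb : b t0 = g + 1)
    {h : P → ℕ} {A : Finset P} (hzA : z ∈ A) (hA : ∀ y ∈ A, ∀ w, z < w ↔ y < w)
    (hh' : ∀ y ∈ A, h y = u + 1) :
    (∀ n < E0 m + hh m ^ 2, (1 + X : ℤ[X]) ^ (∑ t, b t) ∣ ZF m h A n) ∧
    (1 + X : ℤ[X]) ^ (∑ t, b t) ∣ ZF m h A (E0 m + hh m ^ 2) -
      ∑ _y ∈ A, X ^ (below P m + (u + 1) * g) * (1 + X) ^ ((lv P m).card - 1) := by
  classical
  have hgr := H.gradedBelow
  have hs : ∑ t, b t = g + 1 + ∑ t ∈ univ.erase t0, b t := by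
    rw [← hb]
    exact (Finset.add_sum_erase univ b (mem_univ t0)).symm
  have hhu : hh m = u + 1 := by unfold hh; omega
  have hE : (u + 1) ^ 2 + E0 m = E0 m + hh m ^ 2 := by rw [hhu]; omega
  have hfam : ∀ y ∈ A, CEl t0 Nc co m y F S ∧ lev y = 2 * m + 1 ∧
      cst m (fun _ => u + 1) y = E0 m := by
    intro y hy
    have hyF := (cov_of_up (hA y hy)).mp C.zF
    have hyS := (cov_of_up (hA y hy)).mp C.zS
    have C' : CEl t0 Nc co m y F S := ⟨C.chart, C.strip, C.F_mem, C.S_mem, C.co_F, C.co_S, hyF,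
      hyS, fun w hw => C.only w ((cov_of_up (hA y hy)).mpr hw)⟩
    refine ⟨C', C'.lev_z hgr, ?_⟩
    rw [← hhu]
    exact C'.cst_eq hgr (by omega)
  have hsingle : ∀ y ∈ A, (∀ n < (u + 1) ^ 2 + cst m (fun _ => u + 1) y,
      (1 + X : ℤ[X]) ^ (∑ t, b t) ∣ ZD m y (u + 1) n) ∧
      (1 + X : ℤ[X]) ^ (∑ t, b t) ∣ ZD m y (u + 1) ((u + 1) ^ 2 + cst m (fun _ => u + 1) y) -
      X ^ (below P m + (u + 1) * g) * (1 + X) ^ ((lv P m).card - 1) := by
    intro y hy
    have key := poleT (hfam y hy).1 H HN hlow hrest' hm hu hg hgu (Sd := {y})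
      (mem_singleton_self y) (by
        intro x hx
        rw [mem_singleton.mp hx]
        exact (hfam y hy).1.z_only hgr HN hlow)
    rw [sgs_single, ← hs] at key
    exact ⟨key.1, key.2.2 fun x hx => by rw [mem_singleton.mp hx]⟩
  have hlz := (hfam z hzA).2.1
  by_cases hone : A = {z}
  · have h1 := hfam z hzA
    have f2 := hsingle z hzA
    rw [h1.2.2, hE] at f2
    constructor
    · intro n hn
      rw [hone, ZF_singleton (by omega), hh' z hzA]
      exact f2.1 n hn
    · rw [hone, ZF_singleton (by omega), hh' z hzA, Finset.sum_singleton]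
      exact f2.2
  · obtain ⟨y, hy, hyz⟩ : ∃ y ∈ A, y ≠ z := by
      by_contra hcon
      push Not at hcon
      apply hone
      ext x
      rw [mem_singleton]
      exact ⟨fun h => hcon x h, fun h => h ▸ hzA⟩
    have htwo : A = {z, y} := by
      ext x
      rw [mem_insert, mem_singleton]
      constructor
      · intro hx
        by_contra hcon
        push Not at hcon
        exact Win.dc_three H (hfam x hx).1.zF C.zF (hfam y hy).1.zF hcon.1 hcon.2 hyz.symm
      · rintro (h | h)
        · rw [h]; exact hzA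
        · rw [h]; exact hy
    have h1 := hfam z hzA
    have f2 := hsingle z hzA
    have g1 := hfam y hy
    have g2 := hsingle y hy
    have hzy : ¬ z ≤ y := by
      intro h
      have := lev_strictAnti (lt_of_le_of_ne h hyz.symm)
      omega
    have hP : ∀ n ≤ (u + 1) ^ 2 + cst m (fun _ => u + 1) z,
        (1 + X : ℤ[X]) ^ (∑ t, b t) ∣ ZB m ∅ 0 (sgs {z, y} (u + 1)) n := by
      intro n hn
      have key := poleT h1.1 H HN hlow hrest' hm hu hg hgu (Sd := {z, y}) (by simp) (by
        intro x hx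
        rw [mem_insert, mem_singleton] at hx
        rcases hx with rfl | rfl
        · exact h1.1.z_only hgr HN hlow
        · exact g1.1.z_only hgr HN hlow)
      rw [← hs] at key
      rcases Nat.lt_or_ge n ((u + 1) ^ 2 + cst m (fun _ => u + 1) z) with h | h
      · exact key.1 n h
      · rw [show n = (u + 1) ^ 2 + cst m (fun _ => u + 1) z by omega]
        exact key.2.1 ⟨y, by simp, hzy⟩
    rw [h1.2.2, hE] at f2
    rw [g1.2.2, hE] at g2
    rw [h1.2.2, hE] at hP
    have key : ∀ n, ZF m h {z, y} n = ZD m z (u + 1) n + ZD m y (u + 1) n -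
        ZB m ∅ 0 (sgs {z, y} (u + 1)) n := by
      intro n
      have h3 := ZF_pair (i := m) (h := h) (z := z) (z' := y) (by omega) (by omega) n
      rw [ZP_eq_sgs (by omega) (by omega) (hh' z hzA) (hh' y hy), hh' z hzA, hh' y hy] at h3
      rw [← h3]
      ring
    constructor
    · intro n hn
      rw [htwo, key]
      exact dvd_sub (dvd_add (f2.1 n hn) (g2.1 n hn)) (hP n hn.le)
    · rw [htwo, key, Finset.sum_pair hyz.symm]
      have h5 := dvd_sub (dvd_add f2.2 g2.2) (hP _ le_rfl)
      refine h5.trans (dvd_of_eq ?_)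
      ring

end CEl

end Pool.Agent.GaussPoset.J8

end

/-! From `Pool.Agent.W_448j6_h22.KaC` -/

section

/-!
Level 6, window 3: data of one component, the ladder data (MP_448cb3_co, `j = 6`).
-/

namespace Pool.Agent.GaussPoset.J6

set_option linter.unusedSectionVars false

open Polynomial Finset Dd J8

universe u

variable {P : Type u} [Fintype P] [PartialOrder P] [DecidableEq P] {r : ℕ}

/-- the cost of an element of level 7 with the label `k` -/
noncomputable def cK (k : ℕ) (z : P) : ℕ :=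
  min k 1 * nab 4 z + min k 2 * nab 5 z + min k 3 * nab 6 z + min k 4 * nab 7 z

lemma cK_mono {k : ℕ} {z y : P} (h : z ≤ y) : cK k y ≤ cK k z := by
  unfold cK
  have h4 := Nat.mul_le_mul_left (min k 1) (nab_mono (l := 4) h)
  have h5 := Nat.mul_le_mul_left (min k 2) (nab_mono (l := 5) h)
  have h6 := Nat.mul_le_mul_left (min k 3) (nab_mono (l := 6) h)
  have h7 := Nat.mul_le_mul_left (min k 4) (nab_mono (l := 7) h)
  omega

lemma cst7 {h : P → ℕ} {z : P} (hl : lev z = 7) : cst 3 h z = cK (h z) z := by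
  rw [cst_eq, hl]
  unfold cK
  simp only [Finset.sum_range_succ, Finset.sum_range_zero]
  norm_num

lemma cst8 {h : P → ℕ} {z : P} (hl : lev z = 8) : cst 3 h z = cK (h z) z + min (h z) 5 := by
  have h8 : nab 8 z = 1 := by
    have := nab_self (z := z)
    rwa [hl] at this
  rw [cst_eq, hl]
  unfold cK
  simp only [Finset.sum_range_succ, Finset.sum_range_zero, h8]
  norm_num

/-- data of one component: natural elements `Y` of level 7, energies below `n`, costs at least
`m` except for the elements described by `G` -/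
structure TD6 (t : Tops P) (b n m : ℕ) (Y : Finset P) (θ : P → ℕ) (B : P → Prop)
    (G : ℕ → P → Prop) : Prop where
  b_one : 1 ≤ b
  Ylev : ∀ y ∈ Y, lev y = 7
  Yle : ∀ y ∈ Y, y ≤ (t : P)
  c7 : ∀ z, z ≤ (t : P) → lev z = 7 → z ∉ Y → ∀ h, (∃ x, z ⋖ x ∧ h = θ x + 1) →
    (∀ x, z ⋖ x → h ≤ θ x + 1) → m ≤ cK h z ∨ G h z
  c8 : ∀ y ∈ Y, m ≤ cK (θ y + 1) y + min (θ y + 1) 5
  data : ∀ N : Tops P → Finset P, NatSys N → (∀ s : Tops P, lowPart 6 (s : P) ⊆ N s) →
    N t = lowPart 6 (t : P) ∪ Y → ∀ θ' B', (∀ x ∈ N t, θ' x = θ x) →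
    (∀ x ∈ N t, (B' x ↔ B x)) → CompDataL (unnat N) topOf t 3 b n θ' B'

/-- the natural sets -/
noncomputable def N6 (Y : Tops P → Finset P) (t : Tops P) : Finset P := lowPart 6 (t : P) ∪ Y t

/-- the thresholds -/
noncomputable def th6 (θ : Tops P → P → ℕ) (x : P) : ℕ := θ (topOf x) x

/-- the base elements -/
def B6 (Y : Tops P → Finset P) (B : Tops P → P → Prop) (x : P) : Prop :=
  x ∉ unnat (N6 Y) ∧ B (topOf x) x

/-- the labels -/
noncomputable def h6 (Y : Tops P → Finset P) (θ : Tops P → P → ℕ) : P → ℕ :=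
  hcan (unnat (N6 Y)) (th6 θ)

/-- the context at level 6 -/
structure C6 (P : Type u) [Fintype P] [PartialOrder P] [DecidableEq P] (r n m : ℕ)
    (b : Tops P → ℕ) (Y : Tops P → Finset P) (θ : Tops P → P → ℕ)
    (B : Tops P → P → Prop) (G : ℕ → P → Prop) : Prop where
  nj : Wd.NJ P r 6
  sum_b : ∑ t, b t = (lv P 3).card
  td : ∀ t, TD6 t (b t) n m (Y t) (θ t) (B t) G

section

variable {n m : ℕ} {b : Tops P → ℕ} {Y : Tops P → Finset P} {θ : Tops P → P → ℕ}
  {B : Tops P → P → Prop} {G : ℕ → P → Prop}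

/-- elements of level at most 7 below one top -/
lemma nj_top (h : Wd.NJ P r 6) {x y : P} (hx : lev x ≤ 7) (hxy : x ≤ y) : topOf x = topOf y := by
  by_contra hne
  exact h.nj (z := x) (by omega) ⟨(topOf x : P), (topOf y : P), (topOf x).2, (topOf y).2,
    fun h' => hne (Subtype.ext h'), le_topOf x, hxy.trans (le_topOf y)⟩

lemma nj_top' (h : Wd.NJ P r 6) {x : P} {t : Tops P} (hx : lev x ≤ 7) (hxt : x ≤ (t : P)) :
    topOf x = t := by
  have h1 := nj_top h hx hxt
  rw [h1]
  by_contra hne
  exact h.nj (z := (t : P)) (by rw [t.2]; omega) ⟨(topOf (t : P) : P), (t : P),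
    (topOf (t : P)).2, t.2, fun h' => hne (Subtype.ext h'), le_topOf _, le_rfl⟩

lemma low6 (Y : Tops P → Finset P) (t : Tops P) : lowPart 6 (t : P) ⊆ N6 Y t :=
  Finset.subset_union_left

lemma C6.sys (W : C6 P r n m b Y θ B G) : NatSys (N6 Y) where
  up := by
    intro t x hx y hxy
    unfold N6 at hx ⊢
    rw [mem_union] at hx ⊢
    have hxt : x ≤ (t : P) := by
      rcases hx with hx | hx
      · exact (mem_lowPart.mp hx).1
      · exact (W.td t).Yle x hx
    have hxl : lev x ≤ 7 := by
      rcases hx with hx | hx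
      · have := (mem_lowPart.mp hx).2
        omega
      · have := (W.td t).Ylev x hx
        omega
    rcases eq_or_lt_of_le hxy with h | h
    · rw [← h]
      exact hx
    · left
      rw [mem_lowPart]
      have h1 := lev_strictAnti h
      refine ⟨?_, by omega⟩
      have h2 := nj_top W.nj (x := x) hxl hxy
      have h3 := nj_top' W.nj (x := x) hxl hxt
      rw [← h3, h2]
      exact le_topOf y
  le_t := by
    intro t x hx
    unfold N6 at hx
    rw [mem_union] at hx
    rcases hx with hx | hx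
    · exact (mem_lowPart.mp hx).1
    · exact (W.td t).Yle x hx

lemma C6.lev7 (_W : C6 P r n m b Y θ B G) {x : P} (hx : x ∈ unnat (N6 Y)) : 6 < lev x := by
  by_contra hcon
  exact mem_unnat.mp hx (topOf x) (low6 Y _ (mem_lowPart.mpr ⟨le_topOf x, by omega⟩))

lemma C6.nat6 (W : C6 P r n m b Y θ B G) {x : P} (hx : lev x ≤ 6) : x ∉ unnat (N6 Y) :=
  fun h => by
    have := W.lev7 h
    omega

/-- natural elements -/
lemma C6.nat_cases (W : C6 P r n m b Y θ B G) {x : P} (hx : x ∉ unnat (N6 Y)) :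
    lev x ≤ 6 ∨ x ∈ Y (topOf x) := by
  have h1 : x ∈ N6 Y (topOf x) := W.sys.mem_iff.mpr ⟨hx, rfl⟩
  unfold N6 at h1
  rw [mem_union, mem_lowPart] at h1
  rcases h1 with h1 | h1
  · exact Or.inl h1.2
  · exact Or.inr h1

/-- the data of the components -/
lemma C6.data (W : C6 P r n m b Y θ B G) (t : Tops P) :
    CompDataL (unnat (N6 Y)) topOf t 3 (b t) n (th6 θ) (B6 Y B) := by
  have HN := W.sys
  refine (W.td t).data (N6 Y) HN (low6 Y) rfl _ _ ?_ ?_
  · intro x hx
    unfold th6
    rw [HN.topOf_eq hx]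
  · intro x hx
    unfold B6
    rw [HN.topOf_eq hx]
    exact and_iff_right (HN.mem_iff.mp hx).1

/-- **The ladder data.** -/
lemma C6.lad (W : C6 P r n m b Y θ B G) :
    Lad 3 n (unnat (N6 Y)) b (th6 θ) (B6 Y B) where
  gr := W.nj.g.H.gradedBelow
  low := W.sys.lower
  lev := fun x hx => by
    have := W.lev7 hx
    omega
  cp := W.sys.cp
  base := fun x hx h => h.1 hx
  data := W.data

/-- **The boundary elements.** -/
theorem C6.kind (W : C6 P r n m b Y θ B G) {z : P} (hz : z ∈ bdR (unnat (N6 Y))) :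
    m ≤ cst 3 (h6 Y θ) z ∨ (lev z = 7 ∧ cst 3 (h6 Y θ) z = cK (h6 Y θ z) z ∧
      G (h6 Y θ z) z) := by
  classical
  have H := W.nj.g.H
  obtain ⟨x, hx, hzx, hh⟩ := hcan_spec (θ := th6 θ) hz
  have hh' : h6 Y θ z = θ (topOf x) x + 1 := hh
  have hzR := (mem_filter.mp hz).1
  have hz7 := W.lev7 hzR
  have hzl := (H.covBy_iff.mp hzx).2
  rcases W.nat_cases hx with h1 | h1
  · -- level 7
    have hlz : lev z = 7 := by omega
    have hc := cst7 (h := h6 Y θ) hlz
    have hzx' : topOf z = topOf x := nj_top W.nj (by omega) hzx.1.le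
    have hzt : z ≤ (topOf x : P) := by rw [← hzx']; exact le_topOf z
    have hzY : z ∉ Y (topOf x) := fun h => mem_unnat.mp hzR (topOf x) (by
      unfold N6
      rw [mem_union]
      exact Or.inr h)
    have hle : ∀ y, z ⋖ y → h6 Y θ z ≤ θ (topOf x) y + 1 := by
      intro y hzy
      have hyl := (H.covBy_iff.mp hzy).2
      have h3 := hcan_le (θ := th6 θ) (W.nat6 (x := y) (by omega)) hzy
      have h4 : topOf y = topOf x := by
        rw [← hzx']
        exact (nj_top W.nj (by omega) hzy.1.le).symm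
      unfold th6 at h3
      rw [h4] at h3
      exact h3
    rcases (W.td (topOf x)).c7 z hzt hlz hzY (h6 Y θ z) ⟨x, hzx, hh'⟩ hle with h2 | h2
    · left
      rw [hc]
      exact h2
    · exact Or.inr ⟨hlz, hc, h2⟩
  · -- level 8
    left
    have hx7 := (W.td (topOf x)).Ylev x h1
    have hlz : lev z = 8 := by omega
    rw [cst8 hlz, hh']
    have h2 := (W.td (topOf x)).c8 x h1
    have h3 := cK_mono (k := θ (topOf x) x + 1) hzx.1.le
    omega

/-- the boundary elements of level 7 -/
lemma C6.mem_bd (W : C6 P r n m b Y θ B G) {t : Tops P} {z x : P} (hzx : z ⋖ x)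
    (hx : x ≤ (t : P)) (hl : lev z = 7) (hzY : z ∉ Y t) :
    z ∈ bdR (unnat (N6 Y)) ∧ h6 Y θ z ≤ θ t x + 1 ∧
      ∃ y, z ⋖ y ∧ y ≤ (t : P) ∧ lev y = 6 ∧ h6 Y θ z = θ t y + 1 := by
  classical
  have H := W.nj.g.H
  have hxl := (H.covBy_iff.mp hzx).2
  have hxt : topOf x = t := nj_top' W.nj (by omega) hx
  have hzt : topOf z = t := (nj_top W.nj (by omega) hzx.1.le).trans hxt
  have hzR : z ∈ unnat (N6 Y) := by
    rw [mem_unnat]
    intro s hs
    have h1 := W.sys.topOf_eq hs
    have h2 : s = t := h1.symm.trans hzt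
    subst h2
    unfold N6 at hs
    rw [mem_union, mem_lowPart] at hs
    rcases hs with hs | hs
    · have := hs.2
      omega
    · exact hzY hs
  have hzb : z ∈ bdR (unnat (N6 Y)) := by
    unfold bdR
    rw [mem_filter]
    exact ⟨hzR, x, W.nat6 (by omega), hzx⟩
  refine ⟨hzb, ?_, ?_⟩
  · have h3 := hcan_le (θ := th6 θ) (W.nat6 (x := x) (by omega)) hzx
    unfold th6 at h3
    rw [hxt] at h3
    exact h3
  · obtain ⟨y, hy, hzy, hh⟩ := hcan_spec (θ := th6 θ) hzb
    have hyl := (H.covBy_iff.mp hzy).2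
    have hyt : topOf y = t := (nj_top W.nj (by omega) hzy.1.le).symm.trans hzt
    refine ⟨y, hzy, by rw [← hyt]; exact le_topOf y, by omega, ?_⟩
    have hh' : h6 Y θ z = θ (topOf y) y + 1 := hh
    rw [hh', hyt]

end

end Pool.Agent.GaussPoset.J6

end

/-! From `Pool.Agent.W_448j6_h22.KaD` -/

section

/-!
Level 6: the elements of level 7 (MP_448cb3_co, `j = 6`).
-/

namespace Pool.Agent.GaussPoset.J6

set_option linter.unusedSectionVars false

open Polynomial Finset Dd J8

universe u

variable {P : Type u} [Fintype P] [PartialOrder P] [DecidableEq P] {r : ℕ}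
variable {t : Tops P} {lo hi : ℕ → ℕ} {e : ℕ → ℕ → P}

/-- the covers of an element of level 7 -/
lemma cov7 (h : Wd.NJ P r 6) (C : Cp.Comp 6 (t : P) lo hi e) {z x : P} (hz : z ≤ (t : P))
    (hl : lev z = 7) (hzx : z ⋖ x) : x ≤ (t : P) ∧ lev x = 6 ∧
      ∃ s, lo 6 ≤ s ∧ s ≤ hi 6 ∧ x = e 6 s := by
  have hx := (h.g.H.covBy_iff.mp hzx).2
  have hxl : lev x = 6 := by omega
  have h1 := nj_top h (x := z) (by omega) hzx.1.le
  have h2 := nj_top' h (x := z) (by omega) hz
  have hxt : x ≤ (t : P) := by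
    rw [← h2, h1]
    exact le_topOf x
  obtain ⟨s, s1, s2, s3⟩ := C.surj x hxt (by omega)
  rw [hxl] at s1 s2 s3
  exact ⟨hxt, hxl, s, s1, s2, s3.symm⟩

/-- an element of level 7 has a cover -/
lemma ex_cov7 {z : P} (hl : lev z = 7) : ∃ x, z ⋖ x := by
  have h1 : z < (topOf z : P) := lt_of_le_of_ne (le_topOf z) (by
    intro h
    have h2 := (topOf z).2
    rw [← h] at h2
    omega)
  obtain ⟨v, hv, -⟩ := Hul.exists_cov h1
  exact ⟨v, hv⟩

/-- two cells of the last row with a common child -/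
lemma pair7 (h : Wd.NJ P r 6) (C : Cp.Comp 6 (t : P) lo hi e) {a b : ℕ} (ha : lo 6 ≤ a)
    (hab : a < b) (hb : b ≤ hi 6) {z : P} (hza : z ⋖ e 6 a) (hzb : z ⋖ e 6 b) :
    b = a + 1 ∨ (a = lo 6 ∧ b = hi 6 ∧ (Win.uc (e 6 (lo 6))).card = 1 ∧
      (Win.uc (e 6 (hi 6))).card = 1) := by
  classical
  obtain ⟨c, β, -, h2, h3, -⟩ := h.pieces (by norm_num) C
  by_cases hb1 : b = a + 1
  · exact Or.inl hb1
  right
  have h4 := h2 a b ha hab hb
  rw [if_neg hb1] at h4
  have hd : 1 ≤ dcv (e 6 a) (e 6 b) := by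
    unfold dcv
    exact Finset.card_pos.mpr ⟨z, mem_filter.mpr ⟨mem_univ _, hza, hzb⟩⟩
  have hu : ucv (e 6 a) (e 6 b) = 0 := by
    unfold ucv
    rw [Finset.card_eq_zero, Finset.filter_eq_empty_iff]
    rintro y - ⟨g1, g2⟩
    obtain ⟨s, s1, s2, s3, rfl⟩ := (C.toWin.uc_iff h.g t.2 (k := 5) (by norm_num) ha
      (hab.le.trans hb)).1 g1
    obtain ⟨s', s1', s2', s3', s4'⟩ := (C.toWin.uc_iff h.g t.2 (k := 5) (by norm_num)
      (ha.trans hab.le) hb).1 g2
    have := C.inj 5 s s' (by norm_num) s1 s2 s1' s2' s4'.symm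
    omega
  rw [hu] at h4
  by_cases hc : a = lo 6 ∧ b = hi 6
  · rw [if_pos hc] at h4
    have h5 : β ≠ 0 := by
      rw [← h4]
      push_cast
      omega
    exact ⟨hc.1, hc.2, h3 h5⟩
  · rw [if_neg hc] at h4
    push_cast at h4
    omega

/-- the elements of level 7 -/
theorem own7 (h : Wd.NJ P r 6) (C : Cp.Comp 6 (t : P) lo hi e) {z : P} (hz : z ≤ (t : P))
    (hl : lev z = 7) : (∃ s, lo 6 ≤ s ∧ s ≤ hi 6 ∧ Pend z (e 6 s)) ∨
      ∃ a b, lo 6 ≤ a ∧ a < b ∧ b ≤ hi 6 ∧ z ⋖ e 6 a ∧ z ⋖ e 6 b ∧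
        (∀ y, z ⋖ y → y = e 6 a ∨ y = e 6 b) ∧
        (b = a + 1 ∨ (a = lo 6 ∧ b = hi 6 ∧ (Win.uc (e 6 (lo 6))).card = 1 ∧
          (Win.uc (e 6 (hi 6))).card = 1)) := by
  obtain ⟨x, hzx⟩ := ex_cov7 hl
  obtain ⟨hxt, hxl, s, s1, s2, hs⟩ := cov7 h C hz hl hzx
  by_cases hp : ∀ y, z ⋖ y → y = x
  · left
    exact ⟨s, s1, s2, by rw [← hs]; exact ⟨hzx, hp⟩⟩
  right
  push Not at hp
  obtain ⟨y, hzy, hyx⟩ := hp
  obtain ⟨hyt, hyl, s', s1', s2', hs'⟩ := cov7 h C hz hl hzy
  have hne : s ≠ s' := by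
    rintro rfl
    exact hyx (hs'.trans hs.symm)
  have hpair : ∀ v, z ⋖ v → v = x ∨ v = y := fun v hv =>
    uc_pair h.g.H hzx hzy (Ne.symm hyx) hv
  rcases Nat.lt_or_gt_of_ne hne with h1 | h1
  · rw [hs] at hzx
    rw [hs'] at hzy
    refine ⟨s, s', s1, h1, s2', hzx, hzy, ?_, pair7 h C s1 h1 s2' hzx hzy⟩
    rw [← hs, ← hs']
    exact hpair
  · rw [hs] at hzx
    rw [hs'] at hzy
    refine ⟨s', s, s1', h1, s2, hzy, hzx, ?_, pair7 h C s1' h1 s2 hzy hzx⟩
    rw [← hs, ← hs']
    exact fun v hv => (hpair v hv).symm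

/-- two covers of the cell `(6, s)` -/
lemma double6 (h : Wd.NJ P r 6) (C : Cp.Comp 6 (t : P) lo hi e) {s : ℕ} (h1 : lo 6 ≤ s)
    (h2 : s ≤ hi 6) (h3 : lo 5 < s) (h4 : s ≤ hi 5) : (Win.uc (e 6 s)).card = 2 :=
  (C.toWin.uc_two h.g t.2 (k := 5) (by norm_num) h1 h2).mpr ⟨h3, h4⟩

end Pool.Agent.GaussPoset.J6

end

/-! From `Pool.Agent.W_448j6_h22.KaE` -/

section

/-!
Level 6, window 3: light components and quadrics (MP_448cb3_co, `j = 6`).
-/

namespace Pool.Agent.GaussPoset.J6

set_option linter.unusedSectionVars false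

open Polynomial Finset Dd J8

universe u

variable {P : Type u} [Fintype P] [PartialOrder P] [DecidableEq P] {r : ℕ}
variable {t : Tops P} {lo hi : ℕ → ℕ} {e : ℕ → ℕ → P}

/-- the elements of level 7 below `t` -/
noncomputable def Y7 (t : Tops P) : Finset P := by
  classical exact univ.filter (fun y => y ≤ (t : P) ∧ lev y = 7)

lemma mem_Y7 {y : P} : y ∈ Y7 t ↔ y ≤ (t : P) ∧ lev y = 7 := by
  classical
  unfold Y7
  simp

/-- elements of level at most 7 are below one top -/
lemma only7 (h : Wd.NJ P r 6) {x : P} (hx : x ≤ (t : P)) (hl : lev x ≤ 7) : x ∈ onlyB t := by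
  rw [mem_onlyB]
  intro s hs hxs
  by_contra hne
  exact h.nj (z := x) (by omega) ⟨s, (t : P), hs, t.2, hne, hxs, hx⟩

/-- light components -/
theorem tdLight (h : Wd.NJ P r 6) (C : Cp.Comp 6 (t : P) lo hi e) (h3 : lo 3 = hi 3) {n m : ℕ}
    (hm : m ≤ 15) (G : ℕ → P → Prop) :
    TD6 t (hi 3 - lo 3 + 1) n m (Y7 t) (fun x => lev x - 3) (fun _ => False) G where
  b_one := by omega
  Ylev := fun y hy => (mem_Y7.mp hy).2
  Yle := fun y hy => (mem_Y7.mp hy).1
  c7 := fun z hz hl hzY => absurd (mem_Y7.mpr ⟨hz, hl⟩) hzY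
  c8 := by
    intro y hy
    have hl := (mem_Y7.mp hy).2
    have h4 := one_le_nab (z := y) (l := 4) (by omega)
    have h5 := one_le_nab (z := y) (l := 5) (by omega)
    have h6 := one_le_nab (z := y) (l := 6) (by omega)
    have h7 := one_le_nab (z := y) (l := 7) (by omega)
    unfold cK
    simp only [hl]
    norm_num
    omega
  data := by
    intro N HN hlow hN θ' B' hθ hB
    have H := exists_light (t := t) C h.g.H h.g.good h.g.H.gradedBelow (i := 3) (by norm_num)
    rw [show hi 3 - lo 3 + 1 = 1 by omega]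
    refine compL_nat HN H ?_ (fun x _ hx => absurd hx (by simp)) hθ hB n
    intro x hx
    rw [hN, mem_union, mem_lowPart, mem_Y7] at hx
    rcases hx with hx | hx
    · exact only7 h hx.1 (by omega)
    · exact only7 h hx.1 (by omega)

/-- quadrics -/
theorem tdQuad (h : Wd.NJ P r 6) (C : Cp.Comp 6 (t : P) lo hi e) (Q : QRows 6 3 lo hi) {n m : ℕ}
    {G : ℕ → P → Prop} (hG : ∀ z ≤ (t : P), lev z = 7 → nab 3 z = 2 → nab 4 z = 1 →
      cK 1 z = 4 → m ≤ cK 1 z ∨ G 1 z) :
    TD6 t (hi 3 - lo 3 + 1) n m ∅ (fun _ => 0) (fun x => x ∈ lowPart 6 (t : P)) G := by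
  classical
  have hQ : QInf 3 3 t := Q.inf (m := 3) C (by norm_num)
  have hup := low_up (t := t) (m := 3) h.g
  have hN := natTop_quad (by norm_num) (dvd_W_Qd 3) hQ (fun x hx y hxy => hup x y hxy hx)
  have h3 := Q.at'
  have hb : hi 3 - lo 3 + 1 = 2 := by omega
  have hprof : ∀ x, x ≤ (t : P) → lev x = 6 → nab 3 x = 2 ∧ nab 4 x = 1 ∧ nab 5 x = 1 ∧
      nab 6 x = 1 := by
    intro x hx hl
    have hpr := quad_prof hQ hx (by omega) hup (by norm_num)
    have q : ∀ l, 3 ≤ l → l ≤ 6 → nab l x = 1 + Fi.gD (List.replicate 3 0 ++ [1]) (6 - l) := by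
      intro l h5 h6
      have := hpr (6 - l) (by omega)
      rw [show 2 * 3 - (6 - l) = l by omega] at this
      exact this
    refine ⟨?_, ?_, ?_, ?_⟩
    · rw [q 3 le_rfl (by norm_num)]; rfl
    · rw [q 4 (by norm_num) (by norm_num)]; rfl
    · rw [q 5 (by norm_num) (by norm_num)]; rfl
    · rw [q 6 (by norm_num) (by norm_num)]; rfl
  rw [hb]
  constructor
  · norm_num
  · exact fun y hy => absurd hy (Finset.notMem_empty _)
  · exact fun y hy => absurd hy (Finset.notMem_empty _)
  · rintro z hz hl - k ⟨x, hzx, hk⟩ -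
    have hk1 : k = 1 := hk
    subst hk1
    obtain ⟨hxt, hxl, -⟩ := cov7 h C hz hl hzx
    have hpend : Pend z x := by
      refine ⟨hzx, fun y hzy => ?_⟩
      obtain ⟨hyt, hyl, -⟩ := cov7 h C hz hl hzy
      exact le_antisymm (hQ.bot y hyt (by omega) x hxt (by omega))
        (hQ.bot x hxt (by omega) y hyt (by omega))
    obtain ⟨p3, p4, p5, p6⟩ := hprof x hxt hxl
    have hn : ∀ k, k ≤ 6 → nab k z = nab k x := fun k hk =>
      nab_pend hpend (by omega)
    have n7 : nab 7 z = 1 := by
      have := nab_self (z := z)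
      rwa [hl] at this
    refine hG z hz hl (by rw [hn 3 (by norm_num), p3]) (by rw [hn 4 (by norm_num), p4]) ?_
    unfold cK
    rw [hn 4 (by norm_num), hn 5 (by norm_num), hn 6 le_rfl, n7, p4, p5, p6]
    norm_num
  · exact fun y hy => absurd hy (Finset.notMem_empty _)
  · intro N HN hlow hN' θ' B' hθ hB
    refine compL_nat HN hN ?_ ?_ hθ hB n
    · intro x hx
      rw [hN', Finset.union_empty] at hx
      exact hx
    · intro x hx _
      rw [hN', Finset.union_empty]
      exact hx

end Pool.Agent.GaussPoset.J6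

end

/-! From `Pool.Agent.W_448sd_h84.SdC` -/

section

/-!
# Window 2 in case B (MP_448cb3_co): the context, natural elements

No element of level `j + 1` is below two tops, `6 ≤ j`, all strips are light at level 2,
rectangle-like or stair-like.
-/

namespace Pool.Agent.GaussPoset

set_option linter.unusedSectionVars false

open Polynomial Finset

universe u

variable {P : Type u} [Fintype P] [PartialOrder P] [DecidableEq P] {r j : ℕ}
  {N : Tops P → Finset P} {b : Tops P → ℕ} {θ : Tops P → P → ℕ}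

/-- the types at window 2 -/
inductive Ty2 (j : ℕ) (N : Tops P → Finset P) (t : Tops P) (b : ℕ) (θ : P → ℕ) : Prop
  | light (h1 : N t = onlyB t) (h2 : θ = fun x => lev x - 2) (h3 : b = 1)
      (h6 : ∃ x ≤ (t : P), lev x = 2)
  | rect (Nc : Finset P) (co : P → ℕ × ℕ) (h0 : RectNat j 2 t b Nc co)
      (h1 : N t = natR Nc co) (h2 : θ = thR 2 b Nc co)
      (pen : ∀ x z : P, x ≤ (t : P) → lev x = j → (Win.uc x).card = 2 → ¬ Pend z x)
      (nrt : ∀ z x x' : P, x ≤ (t : P) → lev z = j + 1 → z ⋖ x → z ⋖ x' → x ≠ x' →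
        ucv x x' = 1)
  | stair (Nc : Finset P) (co : P → ℕ × ℕ) (h0 : StairNat j 2 t Nc co)
      (h1 : N t = natS Nc co) (h2 : θ = thS 2 Nc co) (h3 : b = 2)
      (pen : ∀ x z : P, x ≤ (t : P) → lev x = j → (Win.uc x).card = 2 → Pend z x →
        (co x).2 = (co x).1 + 1 ∧ ∀ z', Pend z' x → z' = z)

/-- the context -/
structure W2 (r j : ℕ) (N : Tops P → Finset P) (b : Tops P → ℕ) (θ : Tops P → P → ℕ) :
    Prop where
  gt : Win.GoodTo P r j
  six : 6 ≤ j
  typ : ∀ t, Ty2 j N t (b t) (θ t)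
  sum_b : ∑ t, b t = (lv P 2).card
  nj : ∀ z : P, lev z = j + 1 → ¬ Hul.Jn z

lemma W2.lowOnly (W : W2 r j N b θ) {t : Tops P} {x : P} (hx : x ≤ (t : P))
    (hl : lev x ≤ j + 1) : x ∈ onlyB t := by
  rw [mem_onlyB]
  intro s hs hxs
  by_contra hne
  rcases Nat.lt_or_ge j (lev x) with h | h
  · exact W.nj x (by omega) ⟨s, t, hs, t.2, hne, hxs, hx⟩
  · exact hne (Cp.top_eq W.gt.H W.gt.good h hs t.2 hxs hx)

theorem W2.natTop (W : W2 r j N b θ) (t : Tops P) : ∃ B, NatTop 2 t (b t) (N t) (θ t) B := by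
  have hm := W.six
  have hgr := W.gt.H.gradedBelow
  rcases W.typ t with ⟨h1, h2, h3, h6⟩ | ⟨Nc, co, h0, h1, h2, h3, h4⟩ |
    ⟨Nc, co, h0, h1, h2, h3, h4⟩
  · rw [h1, h2, h3]
    exact ⟨_, natTop_light hgr (fun x hx hxi => W.lowOnly hx (by omega)) h6⟩
  · rw [h1, h2]
    exact ⟨_, h0.natTop hgr (by omega)⟩
  · rw [h1, h2, h3]
    exact ⟨_, h0.natTop hgr (by omega) (by omega)⟩

lemma W2.natSys (W : W2 r j N b θ) : NatSys N := by
  choose B hB using W.natTop
  exact natSys_of_tops hB

lemma W2.low (W : W2 r j N b θ) {x : P} (hx : lev x ≤ j) : x ∉ unnat N := by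
  intro h
  refine mem_unnat.mp h (topOf x) ?_
  rcases W.typ (topOf x) with ⟨h1, h2, h3, h6⟩ | ⟨Nc, co, h0, h1, h2, h3, h4⟩ |
    ⟨Nc, co, h0, h1, h2, h3, h4⟩
  · rw [h1]; exact W.lowOnly (le_topOf x) (by omega)
  · rw [h1]; exact mem_natR.mpr (Or.inl (h0.strip (mem_lowPart.mpr ⟨le_topOf x, hx⟩)))
  · rw [h1]; exact mem_natS.mpr (Or.inl (h0.strip (mem_lowPart.mpr ⟨le_topOf x, hx⟩)))

lemma W2.lt_lev (W : W2 r j N b θ) {x : P} (hx : x ∈ unnat N) : j < lev x := by
  by_contra hcon
  exact W.low (not_lt.mp hcon) hx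

/-- inner cells of rectangle-like components -/
structure InR2 (j : ℕ) (N : Tops P → Finset P) (b : Tops P → ℕ) (θ : Tops P → P → ℕ) (x : P)
    (Nc : Finset P) (co : P → ℕ × ℕ) : Prop where
  rect : RectNat j 2 (topOf x) (b (topOf x)) Nc co
  nat : N (topOf x) = natR Nc co
  mem : x ∈ Nc
  fst : 1 ≤ (co x).1
  snd : 1 ≤ (co x).2
  th : θ (topOf x) x = ((co x).1 - (b (topOf x) - 1)) + ((co x).2 - 2)
  bt : b (topOf x) = 3 ∨ (b (topOf x) = 2 ∧ (co x).1 = 1)

/-- inner cells of stair-like components -/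
structure InS2sd (j : ℕ) (N : Tops P → Finset P) (θ : Tops P → P → ℕ) (x : P)
    (Nc : Finset P) (co : P → ℕ × ℕ) : Prop where
  stair : StairNat j 2 (topOf x) Nc co
  nat : N (topOf x) = natS Nc co
  mem : x ∈ Nc
  fst : 1 ≤ (co x).1
  th : θ (topOf x) x = ((co x).1 - 2) + ((co x).2 - 2)
  pen : ∀ y z : P, y ≤ (topOf x : P) → lev y = j → (Win.uc y).card = 2 → Pend z y →
        (co y).2 = (co y).1 + 1 ∧ ∀ z', Pend z' y → z' = z

/-- the kinds of natural elements -/
theorem W2.cases (W : W2 r j N b θ) {x : P} (hx : x ∉ unnat N) : FullM 2 N θ x ∨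
    (∃ Nc co, InR2 j N b θ x Nc co) ∨ (∃ Nc co, InS2sd j N θ x Nc co) := by
  have H := W.gt.H
  have HN := W.natSys
  have hxt : x ∈ N (topOf x) := HN.mem_iff.mpr ⟨hx, rfl⟩
  have hm := W.six
  have hT := W.typ (topOf x)
  generalize ht : topOf x = t at hxt hT
  rcases hT with ⟨h1, h2, h3, h6⟩ | ⟨Nc, co, h0, h1, h2, h3, h5⟩ |
    ⟨Nc, co, h0, h1, h2, h3, h4⟩
  · left
    have hs : ∀ z ∈ unnat N, ∃ s : P, lev s = 0 ∧ z ≤ s ∧ s ≠ t := by
      intro z hz
      have h7 : z ∉ onlyB t := by
        rw [← h1]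
        exact mem_unnat.mp hz t
      rw [mem_onlyB] at h7
      push Not at h7
      exact h7
    refine ⟨by rw [ht, h2], ?_, ?_⟩
    · intro z hz hzx k _ hk
      obtain ⟨s, hs1, hs2, hs3⟩ := hs z hz
      exact two_le_nab_join HN H.gradedBelow hxt hzx hs1 hs3 hs2 hk
    · intro z hz h
      obtain ⟨s, hs1, hs2, hs3⟩ := hs z hz
      have h7 := W.lt_lev hz
      have h8 : z < s := lt_of_le_of_ne hs2 (by rintro rfl; omega)
      exact hs3 (HN.top_eq hxt hs1 ((h s).mpr h8).le)
  · -- rectangles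
    by_cases hJ : x ∈ junk (fun _ => True) Nc co ∨ x ∈ junk (fun _ => True) Nc (swp co)
    · left
      refine ⟨?_, ?_, ?_⟩
      · rw [ht, h2]
        unfold thR
        rw [if_pos hJ]
      · intro z hz hzx k hk hkx
        refine rect_two_le_nab H h0 h1 hz hzx ?_ (by omega) hkx
        rcases hJ with h | h
        · exact Or.inl h
        · exact Or.inr (Or.inl h)
      · intro z hz h
        refine mem_unnat.mp hz t ?_
        rw [h1, mem_natR]
        rcases hJ with h' | h'
        · exact Or.inr (Or.inl (junk_twin h' h))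
        · exact Or.inr (Or.inr (junk_twin h' h))
    · have hxN : x ∈ Nc := by
        rw [h1, mem_natR] at hxt
        rcases hxt with h | h | h
        · exact h
        · exact absurd (Or.inl h) hJ
        · exact absurd (Or.inr h) hJ
      have hl := h0.chart.lev x hxN
      have hb1 := h0.b_two
      have hb2 := h0.b_le
      have hrow : b t = 2 + 1 ∨ (co x).1 ≤ b t - 1 := by
        rcases h0.rows with h | h
        · exact Or.inl h
        · exact Or.inr (h x hxN)
      by_cases h7 : (co x).1 = 0 ∨ (co x).2 = 0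
      · left
        refine ⟨?_, ?_, ?_⟩
        · rw [ht, h2]
          unfold thR
          rw [if_neg hJ]
          omega
        · intro z hz hzx k hk hkx
          exact rect_two_le_nab H h0 h1 hz hzx (Or.inr (Or.inr ⟨hxN, h7⟩)) (by omega) hkx
        · intro z hz h
          have h8 := W.lt_lev hz
          rw [← lev_eq_of_up h] at h8
          rcases h7 with h7 | h7
          · obtain ⟨u, hu, hcu⟩ := h0.chart.low x hxN (0, (co x).2 - 1)
              ⟨Nat.zero_le _, Nat.sub_le _ _⟩ trivial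
            refine straight_twin H h0 h1 hxN hu ?_ ?_ ?_ hz h
            · rw [hcu]
              exact Or.inr ⟨by simp only; omega, by simp only; omega⟩
            · intro y hy hp
              rw [hcu]
              rcases hp with hp | hp
              · omega
              · exact Prod.ext (by simp only; omega) (by simp only; omega)
            · rw [hcu]
              exact Or.inl rfl
          · obtain ⟨u, hu, hcu⟩ := h0.chart.low x hxN ((co x).1 - 1, 0)
              ⟨Nat.sub_le _ _, Nat.zero_le _⟩ trivial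
            refine straight_twin H h0 h1 hxN hu ?_ ?_ ?_ hz h
            · rw [hcu]
              exact Or.inl ⟨by simp only; omega, by simp only; omega⟩
            · intro y hy hp
              rw [hcu]
              rcases hp with hp | hp
              · exact Prod.ext (by simp only; omega) (by simp only; omega)
              · omega
            · rw [hcu]
              exact Or.inr rfl
      · right; left
        refine ⟨Nc, co, ?_, ?_, hxN, by omega, by omega, ?_, ?_⟩
        · rw [ht]; exact h0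
        · rw [ht]; exact h1
        · rw [ht, h2]
          unfold thR
          rw [if_neg hJ]
        · rw [ht]; omega
  · -- stairs
    by_cases hJ : x ∈ junk (fun c => c.1 ≤ c.2) Nc co
    · left
      refine ⟨?_, ?_, ?_⟩
      · rw [ht, h2]
        unfold thS
        rw [if_pos hJ]
      · intro z hz hzx k hk hkx
        exact stair_two_le_nab H h0 h1 hz hzx (Or.inl hJ) hk hkx
      · intro z hz h
        refine mem_unnat.mp hz t ?_
        rw [h1, mem_natS]
        exact Or.inr (junk_twin hJ h)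
    · have hxN : x ∈ Nc := by
        rw [h1, mem_natS] at hxt
        rcases hxt with h | h
        · exact h
        · exact absurd h hJ
      have hl := h0.chart.lev x hxN
      by_cases h7 : (co x).1 = 0
      · left
        refine ⟨?_, ?_, ?_⟩
        · rw [ht, h2]
          unfold thS
          rw [if_neg hJ]
          omega
        · intro z hz hzx k hk hkx
          exact stair_two_le_nab H h0 h1 hz hzx (Or.inr ⟨hxN, h7⟩) hk hkx
        · intro z hz h
          have h8 := W.lt_lev hz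
          rw [← lev_eq_of_up h] at h8
          obtain ⟨u, hu, hcu⟩ := h0.chart.low x hxN (0, (co x).2 - 1)
            ⟨Nat.zero_le _, Nat.sub_le _ _⟩ (Nat.zero_le _)
          refine straight_twinS H h0 (by omega) h1 hxN hu ?_ ?_ ?_ hz h
          · rw [hcu]
            exact Or.inr ⟨by simp only; omega, by simp only; omega⟩
          · intro y hy hp
            rw [hcu]
            rcases hp with hp | hp
            · omega
            · exact Prod.ext (by simp only; omega) (by simp only; omega)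
          · rw [hcu]
      · right; right
        refine ⟨Nc, co, ?_, ?_, hxN, by omega, ?_, ?_⟩
        · rw [ht]; exact h0
        · rw [ht]; exact h1
        · rw [ht, h2]
          unfold thS
          rw [if_neg hJ]
        · rw [ht]; exact h4

/-- the system of twins -/
theorem W2.twSys (W : W2 r j N b θ) : TwSys (unnat N) (twY j N) topOf (twT N) where
  sub := fun x hx => (mem_twY.mp hx).1
  nat := fun x hx => (twT_spec (mem_twY.mp hx).2.2).1
  up := fun x hx => (twT_spec (mem_twY.mp hx).2.2).2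
  inj := by
    intro x hx x' hx' h
    have h1 := mem_twY.mp hx
    have h2 := mem_twY.mp hx'
    have h3 := twT_spec h1.2.2
    have h4 := twT_spec h2.2.2
    by_contra hne
    have h5 : x < (topOf x : P) := lt_of_le_of_ne (le_topOf x) (by
      intro h
      have := (topOf x).2
      rw [← h] at this
      omega)
    obtain ⟨u, hu, -⟩ := Hul.exists_cov h5
    have hu' : twT N x ⋖ u := (cov_of_up h3.2).mpr hu
    have hu'' : x' ⋖ u := by
      rw [h] at hu'
      exact (cov_of_up h4.2).mp hu'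
    refine Win.dc_three W.gt.H hu hu'' hu' hne ?_ ?_
    · intro h6
      exact h3.1 (h6 ▸ h1.1)
    · intro h6
      rw [h] at h6
      exact h4.1 (h6 ▸ h2.1)
  anti := by
    intro x hx y hy h
    have h1 := mem_twY.mp hx
    have h2 := mem_twY.mp hy
    have := lev_strictAnti h
    omega
  cp := by
    intro x hx
    have h1 := mem_twY.mp hx
    have h3 := twT_spec h1.2.2
    have h5 : x < (topOf x : P) := lt_of_le_of_ne (le_topOf x) (by
      intro h
      have := (topOf x).2
      rw [← h] at this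
      omega)
    have h6 : twT N x ∈ N (topOf (twT N x)) := W.natSys.mem_iff.mpr ⟨h3.1, rfl⟩
    exact (Subtype.ext (W.natSys.top_eq h6 (topOf x).2 ((h3.2 _).mpr h5).le)).symm

/-- the natural partner of a twin is an inner cell -/
lemma W2.tw_inner (W : W2 r j N b θ) {x : P} (hx : x ∈ twY j N) :
    (∃ Nc co, InR2 j N b θ (twT N x) Nc co) ∨ ∃ Nc co, InS2sd j N θ (twT N x) Nc co := by
  have h1 := mem_twY.mp hx
  have h3 := twT_spec h1.2.2
  rcases W.cases h3.1 with h | h | h
  · exact absurd h3.2 (h.tw x h1.1)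
  · exact Or.inl h
  · exact Or.inr h

/-- no joins: all elements above have the same top -/
lemma W2.top_cov (W : W2 r j N b θ) {z x : P} (hl : lev z = j + 1) (hzx : z ⋖ x) :
    topOf x = topOf z := by
  by_contra hne
  refine W.nj z hl ⟨topOf x, topOf z, (topOf x).2, (topOf z).2, fun h => hne (Subtype.ext h), ?_,
    le_topOf z⟩
  exact hzx.le.trans (le_topOf x)

end Pool.Agent.GaussPoset

end

/-! From `Pool.Agent.W_448sd_h84.SdE` -/

section

/-!
# The leading term of a twin pair with any threshold; twins at window 2 (MP_448cb3_co)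
-/

namespace Pool.Agent.GaussPoset

set_option linter.unusedSectionVars false

open Polynomial Finset

universe u

variable {P : Type u} [Fintype P] [PartialOrder P] [DecidableEq P]

section Term

variable {i : ℕ} {θ : P → ℕ} {t : P × P}

lemma sd_rho_up (H : Twn i θ t) {y : P} (h : t.1 < y) (hl : lev y ≤ i + (θ t.1 + 1)) :
    rho i (tez i θ t) y = (lev y : ℤ) - i := by
  unfold rho
  rw [tez_up H h]
  rcases le_total (lev y) i with h1 | h1
  · have h2 : lev y - i = 0 := by omega
    rw [h2, Nat.min_zero]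
    omega
  · rw [Nat.min_eq_right (by omega)]
    omega

lemma sd_rho_up' (H : Twn i θ t) {y : P} (h : t.1 < y) (hl : i + (θ t.1 + 1) ≤ lev y) :
    rho i (tez i θ t) y = (θ t.1 : ℤ) + 1 := by
  unfold rho
  rw [tez_up H h, Nat.min_eq_left (by omega)]
  omega

lemma sd_rho_snd (H : Twn i θ t) : rho i (tez i θ t) t.2 = (θ t.1 : ℤ) + 1 := by
  have hl : lev t.1 = lev t.2 := lev_eq_of_up H.up
  have h1 := H.lt
  unfold rho
  rw [tez_snd H.ne]
  omega

lemma sd_rho_fst (H : Twn i θ t) : rho i (tez i θ t) t.1 = (θ t.1 : ℤ) := by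
  have h1 := H.lt
  unfold rho
  rw [tez_fst]
  omega

lemma sd_rho_le (H : Twn i θ t) (w : P) : rho i (tez i θ t) w ≤ (θ t.1 : ℤ) + 1 := by
  by_cases h3 : t.1 < w
  · rcases le_total (lev w) (i + (θ t.1 + 1)) with h | h
    · rw [sd_rho_up H h3 h]; omega
    · rw [sd_rho_up' H h3 h]
  · by_cases h1 : w = t.1
    · rw [h1, sd_rho_fst H]; omega
    · by_cases h2 : w = t.2
      · rw [h2, sd_rho_snd H]
      · rw [rho_tez_off h1 h2 h3]; omega

lemma sd_FI (H : Twn i θ t) (y : P) :
    FI i (tez i θ t) y ↔ lev y < i ∨ (t.2 ≤ y ∧ lev y < i + (θ t.1 + 1)) := by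
  have hl : lev t.1 = lev t.2 := lev_eq_of_up H.up
  have hθ := H.one_le
  have hlt := H.lt
  unfold FI
  constructor
  · rintro (h | ⟨w, hw, h⟩)
    · left
      by_contra hcon
      by_cases h3 : t.1 < y
      · rcases le_total (lev y) (i + (θ t.1 + 1)) with h5 | h5
        · rw [sd_rho_up H h3 h5] at h; omega
        · rw [sd_rho_up' H h3 h5] at h; omega
      · by_cases h1 : y = t.1
        · rw [h1, sd_rho_fst H] at h; omega
        · by_cases h2 : y = t.2
          · rw [h2, sd_rho_snd H] at h; omega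
          · rw [rho_tez_off h1 h2 h3] at h; omega
    · have hlw := lev_strictAnti hw
      by_cases h3 : t.1 < y
      · right
        refine ⟨((H.up y).mp h3).le, ?_⟩
        by_contra hcon
        rw [sd_rho_up' H h3 (by omega)] at h
        have := sd_rho_le H w
        omega
      · left
        have hw1 : w ≠ t.1 := fun h5 => h3 (h5 ▸ hw)
        have hw2 : w ≠ t.2 := fun h5 => h3 ((H.up y).mpr (h5 ▸ hw))
        have hw3 : ¬ t.1 < w := fun h5 => h3 (h5.trans hw)
        rw [rho_tez_off hw1 hw2 hw3] at h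
        by_cases h1 : y = t.1
        · rw [h1, sd_rho_fst H] at h; omega
        · by_cases h2 : y = t.2
          · rw [h2, sd_rho_snd H] at h; omega
          · rw [rho_tez_off h1 h2 h3] at h; omega
  · rintro (h | ⟨h, h4⟩)
    · left
      by_cases h3 : t.1 < y
      · rw [sd_rho_up H h3 (by omega)]; omega
      · have h1 : y ≠ t.1 := by rintro rfl; omega
        have h2 : y ≠ t.2 := by rintro rfl; omega
        rw [rho_tez_off h1 h2 h3]; omega
    · right
      have hne : t.2 ≠ y := by rintro rfl; omega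
      have hlt2 := lt_of_le_of_ne h hne
      refine ⟨t.2, hlt2, ?_⟩
      rw [sd_rho_snd H, sd_rho_up H ((H.up y).mpr hlt2) (by omega)]
      omega

lemma sd_FA (H : Twn i θ t) (y : P) :
    FA i (tez i θ t) y ↔ (i < lev y ∧ ¬ t.2 ≤ y) ∨
      (t.2 ≤ y ∧ i + (θ t.1 + 1) < lev y) := by
  have hl : lev t.1 = lev t.2 := lev_eq_of_up H.up
  have hθ := H.one_le
  have hlt := H.lt
  unfold FA
  constructor
  · rintro ⟨w, hw, h⟩
    have hlw := lev_strictAnti hw
    by_cases h3 : t.1 < y
    · right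
      refine ⟨((H.up y).mp h3).le, ?_⟩
      by_contra hcon
      rw [sd_rho_up H h3 (by omega), sd_rho_up H (h3.trans hw) (by omega)] at h
      omega
    · by_cases h2 : y = t.2
      · right
        refine ⟨h2.ge, ?_⟩
        by_contra hcon
        have h4 : t.1 < w := (H.up w).mpr (h2 ▸ hw)
        rw [sd_rho_up H h4 (by omega), h2, sd_rho_snd H] at h
        omega
      · left
        refine ⟨?_, fun h4 => h3 ((H.up y).mpr (lt_of_le_of_ne h4 (Ne.symm h2)))⟩
        by_cases h1 : y = t.1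
        · rw [h1]; omega
        · by_contra hcon
          rw [rho_tez_off h1 h2 h3] at h
          by_cases h5 : t.1 < w
          · rw [sd_rho_up H h5 (by omega)] at h; omega
          · have h6 : w ≠ t.1 := by rintro rfl; omega
            have h7 : w ≠ t.2 := by rintro rfl; omega
            rw [rho_tez_off h6 h7 h5] at h; omega
  · rintro (⟨h1, h2⟩ | ⟨h1, h2⟩)
    · have h3 : ¬ t.1 < y := fun h => h2 ((H.up y).mp h).le
      have h2' : y ≠ t.2 := fun h => h2 h.ge
      by_cases h4 : y = t.1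
      · obtain ⟨w, hw1, hw2⟩ := exists_above' (x := y) (j := lev y - 1) (by omega)
        have hne : y ≠ w := by rintro rfl; omega
        have hlt2 := lt_of_le_of_ne hw1 hne
        refine ⟨w, hlt2, ?_⟩
        have h6 := h4 ▸ hlt2
        rw [h4] at hw2
        rw [h4, sd_rho_fst H]
        rcases le_total (lev w) (i + (θ t.1 + 1)) with h5 | h5
        · rw [sd_rho_up H h6 h5]; omega
        · rw [sd_rho_up' H h6 h5]; omega
      · obtain ⟨w, hw1, hw2⟩ := exists_above' (x := y) (j := i) h1.le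
        have hne : y ≠ w := by rintro rfl; omega
        have hlt2 := lt_of_le_of_ne hw1 hne
        refine ⟨w, hlt2, ?_⟩
        rw [rho_tez_off h4 h2' h3]
        by_cases h5 : t.1 < w
        · rw [sd_rho_up H h5 (by omega)]; omega
        · have h6 : w ≠ t.1 := by rintro rfl; omega
          have h7 : w ≠ t.2 := by rintro rfl; omega
          rw [rho_tez_off h6 h7 h5]; omega
    · obtain ⟨w, hw1, hw2⟩ := exists_above' (x := y) (j := i + (θ t.1 + 1)) h2.le
      have hne : y ≠ w := by rintro rfl; omega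
      have hlt2 := lt_of_le_of_ne hw1 hne
      refine ⟨w, hlt2, ?_⟩
      have h3 : t.1 < w := (H.up w).mpr (lt_of_le_of_lt h1 hlt2)
      rw [sd_rho_up' H h3 hw2.ge]
      exact sd_rho_le H y

/-- a twin pair contributes as if the second element had one more than the threshold -/
theorem sd_Tm_eq (hgr : GradedBelow P) (H : Twn i θ t) :
    Tm i θ t = Lt i (fun _ => θ t.1 + 1) t.2 := by
  classical
  have hl : lev t.1 = lev t.2 := lev_eq_of_up H.up
  have hθ := H.one_le
  have hlt := H.lt
  have h1 : ∀ F : Finset P, Vd i (tez i θ t) F ↔ Vd i (ez i (fun _ => θ t.1 + 1) t.2) F := by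
    intro F
    rw [vd_iff, vd_iff]
    have h2 : ∀ y, FI i (tez i θ t) y ↔ FI i (ez i (fun _ => θ t.1 + 1) t.2) y := by
      intro y
      rw [sd_FI H, FI_ez hgr (by omega) (by omega)]
    have h3 : ∀ y, FA i (tez i θ t) y ↔ FA i (ez i (fun _ => θ t.1 + 1) t.2) y := by
      intro y
      rw [sd_FA H, FA_ez]
    simp only [h2, h3]
  unfold Tm
  rw [Finset.sum_congr rfl (g := fun F => if Vd i (ez i (fun _ => θ t.1 + 1) t.2) F then
    (X : ℤ[X]) ^ F.card else 0) (fun F _ => by simp only [h1 F]), sum_vd]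
  exact lead_eq (h := fun _ => θ t.1 + 1) (z := t.2) hgr (by omega) (by omega)

end Term

variable {r j : ℕ} {N : Tops P → Finset P} {b : Tops P → ℕ} {θ : Tops P → P → ℕ}

/-- thresholds of natural elements -/
lemma W2.sd_le (W : W2 r j N b θ) {y : P} (hy : y ∉ unnat N) : θ (topOf y) y ≤ lev y - 2 := by
  rcases W.cases hy with h | ⟨Nc, co, h⟩ | ⟨Nc, co, h⟩
  · exact h.th.le
  · have h1 := h.rect.chart.lev _ h.mem
    have h2 := h.th
    have h3 := h.fst
    have h4 := h.snd
    have h5 := h.bt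
    omega
  · have h1 := h.stair.chart.lev _ h.mem
    have h2 := h.th
    have h3 := h.fst
    have h4 : (co y).1 ≤ (co y).2 := h.stair.chart.mem _ h.mem
    omega

/-- the level of the partner -/
lemma W2.tw_lev (W : W2 r j N b θ) {x : P} (hx : x ∈ twY j N) : lev (twT N x) = j + 1 := by
  rw [W.twSys.lev hx]; exact (mem_twY.mp hx).2.1

/-- thresholds of twins -/
lemma W2.tw_th (W : W2 r j N b θ) {x : P} (hx : x ∈ twY j N) :
    j - 3 ≤ θ (topOf (twT N x)) (twT N x) ∧ θ (topOf (twT N x)) (twT N x) ≤ j - 2 := by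
  have h5 := W.tw_lev hx
  have hm := W.six
  rcases W.tw_inner hx with ⟨Nc, co, h⟩ | ⟨Nc, co, h⟩
  · have h6 := h.rect.chart.lev _ h.mem
    have h7 := h.fst
    have h8 := h.snd
    have h9 := h.th
    have h10 := h.bt
    omega
  · have h6 := h.stair.chart.lev _ h.mem
    have h7 := h.fst
    have h8 : (co (twT N x)).1 ≤ (co (twT N x)).2 := h.stair.chart.mem _ h.mem
    have h9 := h.th
    omega

lemma W2.sdT_nat (W : W2 r j N b θ) {y : P} (hy : y ∉ unnat N) :
    sdT j N θ y = θ (topOf y) y := thX_not fun h => hy (mem_twY.mp h).1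

lemma W2.sdT_tw (W : W2 r j N b θ) {x : P} (hx : x ∈ twY j N) :
    sdT j N θ (twT N x) = θ (topOf (twT N x)) (twT N x) := W.sdT_nat (W.twSys.nat x hx)

/-- the pairs of twins -/
theorem W2.twn (W : W2 r j N b θ) {x : P} (hx : x ∈ twY j N) :
    Twn 2 (sdT j N θ) (twT N x, x) := by
  have hj := W.six
  have T := W.twSys
  have hlev := W.tw_lev hx
  obtain ⟨h1, h2⟩ := W.tw_th hx
  have h3 := W.sdT_tw hx
  refine ⟨?_, T.up x hx, ?_, ?_, ?_, ?_⟩
  · intro h
    have h' : twT N x = x := h
    exact T.nat x hx (h'.symm ▸ (mem_twY.mp hx).1)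
  · show 1 ≤ sdT j N θ (twT N x)
    omega
  · show sdT j N θ x = sdT j N θ (twT N x)
    rw [h3]
    exact thX_of hx
  · show sdT j N θ (twT N x) + 1 ≤ lev (twT N x) - 2
    omega
  · intro y hy
    have hy' : twT N x < y := hy
    have hyN : y ∉ unnat N := by
      intro h
      exact T.nat x hx (W.natSys.lower _ y hy'.le h)
    have h4 := W.sd_le hyN
    have h5 := lev_strictAnti hy'
    show sdT j N θ y ≤ sdT j N θ (twT N x) + 1
    rw [W.sdT_nat hyN]
    omega

/-- the cost of a pair of twins -/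
theorem W2.tcst_eq (W : W2 r j N b θ) {x : P} (hx : x ∈ twY j N) :
    tcst 2 (sdT j N θ) (twT N x, x) = ct 2 (θ (topOf (twT N x)) (twT N x) + 1) (twT N x) +
      θ (topOf (twT N x)) (twT N x) := by
  classical
  have hj := W.six
  have hlev := W.tw_lev hx
  obtain ⟨h1, h2⟩ := W.tw_th hx
  rw [Pool.Agent.GaussPoset.tcst_eq (W.twn hx)]
  simp only
  rw [W.sdT_tw hx, ct_succ, hlev, Nat.min_eq_left (by omega)]
  omega

/-- no twins of a cell of the diagonal -/
lemma W2.tw_nodiag (W : W2 r j N b θ) {x : P} (hx : x ∈ twY j N) {Nc : Finset P}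
    {co : P → ℕ × ℕ} (h : InS2sd j N θ (twT N x) Nc co) :
    (co (twT N x)).1 < (co (twT N x)).2 := by
  classical
  have H := W.gt.H
  have hj := W.six
  have T := W.twSys
  have hlev := W.tw_lev hx
  have C := h.stair.chart
  have h6 := C.lev _ h.mem
  have h7 := h.fst
  have h8 : (co (twT N x)).1 ≤ (co (twT N x)).2 := C.mem _ h.mem
  by_contra hcon
  obtain ⟨w, hw, hcw⟩ := C.low _ h.mem ((co (twT N x)).1 - 1, (co (twT N x)).2)
    ⟨Nat.sub_le _ _, le_rfl⟩ (by simp only; omega)
  have hyw : twT N x ⋖ w := by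
    rw [chart_cov C H h.mem hw, hcw]
    exact Or.inl ⟨by simp only; omega, rfl⟩
  have honly : ∀ y, twT N x ⋖ y → y = w := by
    intro y hy
    have hyN := C.up _ h.mem y hy.1.le
    have h9 : (co y).1 ≤ (co y).2 := C.mem y hyN
    have e := (chart_cov C H h.mem hyN).mp hy
    refine C.inj y hyN w hw ?_
    rw [hcw]
    rcases e with e | e
    · exact Prod.ext (by simp only; omega) (by simp only; omega)
    · omega
  have hlw : lev w = j := by
    have := (H.covBy_iff.mp hyw).2
    omega
  have hw2 : (Win.uc w).card = 2 := chartS_inner_uc C H hw (by rw [hcw]; simp only; omega)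
    (by rw [hcw]; simp only; omega)
  have hP : Pend (twT N x) w := ⟨hyw, honly⟩
  have hP' : Pend x w := ⟨(T.cov hx).mp hyw, fun y hy => honly y ((T.cov hx).mpr hy)⟩
  have hwt : w ≤ (topOf (twT N x) : P) := by
    rw [W.natSys.cp _ w hyw.1.le (T.nat x hx)]
    exact le_topOf _
  have h9 := (h.pen w (twT N x) hwt hlw hw2 hP).2 x hP'
  exact T.nat x hx (h9 ▸ (mem_twY.mp hx).1)

end Pool.Agent.GaussPoset

end

/-! From `Pool.Agent.W_448sd_h84.SdF` -/

section

/-!
# Window 2: costs of twins and of boundary elements of high level (MP_448cb3_co)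
-/

namespace Pool.Agent.GaussPoset

set_option linter.unusedSectionVars false

open Polynomial Finset

universe u

variable {P : Type u} [Fintype P] [PartialOrder P] [DecidableEq P] {r j : ℕ}
  {N : Tops P → Finset P} {b : Tops P → ℕ} {θ : Tops P → P → ℕ}

/-- the inner cells of rectangle-like components -/
lemma InR2.cost {x : P} {Nc : Finset P} {co : P → ℕ × ℕ} (h : InR2 j N b θ x Nc co)
    (hl : 7 ≤ lev x) :
    (θ (topOf x) x + 1 = lev x - 2 ∧ (∀ k, 2 ≤ k → k < lev x → 2 ≤ nab k x) ∧ nab 2 x = 2) ∨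
      (θ (topOf x) x + 1 = lev x - 3 ∧
        (lev x - 1) * (lev x - 2) < ct 2 (θ (topOf x) x + 1) x + (θ (topOf x) x + 1)) := by
  have C := h.rect.chart
  have hlc := C.lev x h.mem
  have h1 := h.fst
  have h2 := h.snd
  have h3 := h.th
  have h4 := h.bt
  by_cases h5 : 2 ≤ (co x).1 ∧ 2 ≤ (co x).2
  · right
    have h6 : θ (topOf x) x + 1 = lev x - 3 := by omega
    refine ⟨h6, ?_⟩
    rw [h6]
    exact sd_rect_deep C h.mem h5.1 h5.2 hl
  · left
    refine ⟨by omega, fun k hk hk2 => ?_, ?_⟩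
    · have h6 := rect_nab C h.mem (k := k) (by omega)
      omega
    · have h6 := rect_nab C h.mem (k := 2) (by omega)
      omega

/-- the inner cells of stair-like components -/
lemma InS2sd.cost {x : P} {Nc : Finset P} {co : P → ℕ × ℕ} (h : InS2sd j N θ x Nc co)
    (hl : 7 ≤ lev x) :
    (θ (topOf x) x + 1 = lev x - 2 ∧ (∀ k, 2 ≤ k → k < lev x → 2 ≤ nab k x) ∧ nab 2 x = 2) ∨
      co x = (4, 4) ∨
      (θ (topOf x) x + 1 = lev x - 3 ∧ 2 ≤ (co x).1 ∧
        (lev x - 1) * (lev x - 2) ≤ ct 2 (θ (topOf x) x + 1) x + (θ (topOf x) x + 1)) := by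
  have C := h.stair.chart
  have hlc := C.lev x h.mem
  have h1 := h.fst
  have h3 := h.th
  have h4 : (co x).1 ≤ (co x).2 := C.mem x h.mem
  by_cases h5 : 2 ≤ (co x).1
  · right
    by_cases h44 : co x = (4, 4)
    · exact Or.inl h44
    · right
      have h6 : θ (topOf x) x + 1 = lev x - 3 := by omega
      refine ⟨h6, h5, ?_⟩
      rw [h6]
      exact sd_stair_deep C h.mem h5 hl h44
  · left
    refine ⟨by omega, fun k hk hk2 => ?_, ?_⟩
    · have h6 := stair_nab C h.mem (k := k) (by omega)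
      omega
    · have h6 := stair_nab C h.mem (k := 2) (by omega)
      omega

/-- natural elements of level at least `j + 1` -/
theorem W2.kap (W : W2 r j N b θ) {x : P} (hx : x ∉ unnat N) (hl : j + 1 ≤ lev x) :
    FullM 2 N θ x ∨ (∃ Nc co, InS2sd j N θ x Nc co ∧ co x = (4, 4)) ∨
      (lev x - 1) * (lev x - 2) ≤ ct 2 (θ (topOf x) x + 1) x + (θ (topOf x) x + 1) := by
  have hj := W.six
  rcases W.cases hx with h | ⟨Nc, co, h⟩ | ⟨Nc, co, h⟩
  · exact Or.inl h
  · right; right
    rcases h.cost (by omega) with ⟨h1, h2, -⟩ | ⟨h1, h2⟩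
    · rw [h1]
      exact sd_row1 (by omega) (fun k hk hk2 => h2 k (by omega) hk2)
    · exact h2.le
  · right
    rcases h.cost (by omega) with ⟨h1, h2, -⟩ | h1 | ⟨h1, -, h2⟩
    · right
      rw [h1]
      exact sd_row1 (by omega) (fun k hk hk2 => h2 k (by omega) hk2)
    · exact Or.inl ⟨Nc, co, h, h1⟩
    · exact Or.inr h2

/-- kinds of twins -/
theorem W2.tw_kind (W : W2 r j N b θ) {x : P} (hx : x ∈ twY j N) :
    (θ (topOf (twT N x)) (twT N x) + 1 = j - 1 ∧ (∀ k, 2 ≤ k → k ≤ j → 2 ≤ nab k (twT N x)) ∧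
      nab 2 (twT N x) = 2 ∧ j * (j - 1) ≤ tcst 2 (sdT j N θ) (twT N x, x) + 1) ∨
    (θ (topOf (twT N x)) (twT N x) + 1 = j - 2 ∧
      j * (j - 1) < tcst 2 (sdT j N θ) (twT N x, x) + 1) ∨
    (θ (topOf (twT N x)) (twT N x) + 1 = j - 2 ∧ nab 2 (twT N x) = 2 ∧ nab j (twT N x) = 2 ∧
      j * (j - 1) ≤ tcst 2 (sdT j N θ) (twT N x, x) + 1) := by
  have hj := W.six
  have hlev := W.tw_lev hx
  have e1 : lev (twT N x) - 1 = j := by omega
  have e2 : lev (twT N x) - 2 = j - 1 := by omega
  have e3 : lev (twT N x) - 3 = j - 2 := by omega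
  rw [W.tcst_eq hx]
  rcases W.tw_inner hx with ⟨Nc, co, h⟩ | ⟨Nc, co, h⟩
  · rcases h.cost (by omega) with ⟨h1, h2, h3⟩ | ⟨h1, h2⟩
    · left
      rw [e2] at h1
      refine ⟨h1, fun k hk hk2 => h2 k hk (by omega), h3, ?_⟩
      have h4 := sd_row1 (x := twT N x) (by omega) (fun k hk hk2 => h2 k (by omega) hk2)
      rw [e1, e2] at h4
      rw [h1]
      omega
    · right; left
      rw [e3] at h1
      rw [e1, e2] at h2
      exact ⟨h1, by omega⟩
  · have hnd := W.tw_nodiag hx h
    rcases h.cost (by omega) with ⟨h1, h2, h3⟩ | h1 | ⟨h1, h5, h2⟩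
    · left
      rw [e2] at h1
      refine ⟨h1, fun k hk hk2 => h2 k hk (by omega), h3, ?_⟩
      have h4 := sd_row1 (x := twT N x) (by omega) (fun k hk hk2 => h2 k (by omega) hk2)
      rw [e1, e2] at h4
      rw [h1]
      omega
    · rw [h1] at hnd
      exact absurd hnd (lt_irrefl _)
    · right; right
      rw [e3] at h1
      rw [e1, e2] at h2
      have C := h.stair.chart
      have hlc := C.lev _ h.mem
      refine ⟨h1, ?_, ?_, by omega⟩
      · have h6 := stair_nab C h.mem (k := 2) (by omega)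
        omega
      · have h6 := stair_nab C h.mem (k := j) (by omega)
        omega

/-- all twins cost at least `j (j - 1) - 1` -/
theorem W2.tw_ge (W : W2 r j N b θ) {x : P} (hx : x ∈ twY j N) :
    j * (j - 1) - 1 ≤ tcst 2 (sdT j N θ) (twT N x, x) := by
  rcases W.tw_kind hx with h | h | h <;> omega

/-- exact far data -/
theorem W2.farX (W : W2 r j N b θ) : FarX P 2 (r2 j N) (lv P 2).card (h2 j N θ) (sdT j N θ)
    (pairsX (twY j N) (twT N)) (j * (j - 1) - 1) := by
  choose B hB using W.natTop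
  have h := farX_of_tops W.gt.H.gradedBelow hB W.twSys (j * (j - 1) - 1)
    (fun x hx => W.twn hx) (fun x hx => W.tw_ge hx)
  rw [W.sum_b] at h
  exact h

/-- truncated far data -/
theorem W2.farT (W : W2 r j N b θ) :
    FarT P 2 (r2 j N) (lv P 2).card (h2 j N θ) (j * (j - 1) - 1) := by
  choose B hB using W.natTop
  have h := farT_of_tops W.gt.H.gradedBelow hB W.twSys (j * (j - 1) - 1)
    (fun x hx => (W.twn hx).pair (W.tw_ge hx))
  rw [W.sum_b] at h
  exact h

/-- the boundary elements of level at least `j + 2` -/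
theorem W2.bd (W : W2 r j N b θ) {z : P} (hz : z ∈ bdR (r2 j N)) : lev z = j + 1 ∨
    j * (j - 1) ≤ cst 2 (h2 j N θ) z ∨
    (j = 7 ∧ h2 j N θ z = 5 ∧ ∃ u Nc co, InS2sd j N θ u Nc co ∧ co u = (4, 4) ∧ Pend z u) := by
  classical
  have H := W.gt.H
  have hm := W.six
  have T := W.twSys
  have hzR : z ∈ unnat N := (mem_sdiff.mp (mem_filter.mp hz).1).1
  have hlz := W.lt_lev hzR
  by_cases hl : lev z = j + 1
  · exact Or.inl hl
  right
  obtain ⟨u, hu, hzu, hh⟩ := hcan_spec (θ := sdT j N θ) hz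
  have hlu := (H.covBy_iff.mp hzu).2
  have hhz : h2 j N θ z = sdT j N θ u + 1 := hh
  have hbig : ∀ a, j + 1 ≤ a → j * (j - 1) ≤ (a - 1) * (a - 2) := fun a ha =>
    Nat.mul_le_mul (by omega) (by omega)
  have key : ∀ (u' : P) (k : ℕ), ct 2 k u = ct 2 k u' → (lev u - 1) * (lev u - 2) ≤
      ct 2 k u' + k → k ≤ lev z - 2 → h2 j N θ z = k → j * (j - 1) ≤ cst 2 (h2 j N θ) z := by
    intro u' k h3 h4 h5 h6
    have h7 := ct_cov (i := 2) (k := k) hzu.1
    rw [Nat.min_eq_left h5] at h7
    rw [cst_ct h6]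
    have h8 := hbig (lev u) (by omega)
    omega
  by_cases huY : u ∈ twY j N
  · left
    have e1 : sdT j N θ u = θ (topOf (twT N u)) (twT N u) := thX_of huY
    have h3 := W.tw_th huY
    have hlt := W.tw_lev huY
    have hlu' := (mem_twY.mp huY).2.1
    refine key (twT N u) _ (ct_congr_up fun w => (T.up u huY w).symm) ?_ ?_
      (by rw [hhz, e1])
    · rcases W.tw_kind huY with h | h | h
      all_goals
        have h9 := W.tcst_eq huY
        rw [show lev u - 1 = j by omega, show lev u - 2 = j - 1 by omega]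
        omega
    · omega
  · have huR : u ∉ unnat N := fun h => hu (mem_sdiff.mpr ⟨h, huY⟩)
    rw [W.sdT_nat huR] at hhz
    rcases W.kap huR (by omega) with hF | ⟨Nc, co, hI, h44⟩ | hI
    · left
      rw [hF.th] at hhz
      have h3 := sq_le_cst (i := 2) (h := h2 j N θ) (z := z) (by omega)
        (by rw [hhz]; omega) (by
          intro k hk hk2
          exact hF.two z hzR hzu.le k (by omega) (by omega))
      refine le_trans ?_ h3
      rw [pow_two]
      exact Nat.mul_le_mul (by omega) (by omega)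
    · have C := hI.stair.chart
      have hlc := C.lev u hI.mem
      rw [h44] at hlc
      simp only at hlc
      have hth := hI.th
      rw [h44] at hth
      simp only at hth
      have hz5 : h2 j N θ z = 5 := by omega
      by_cases hj : j = 7
      · by_cases honly : ∀ y, z ⋖ y → y = u
        · exact Or.inr ⟨hj, hz5, u, Nc, co, hI, h44, hzu, honly⟩
        · left
          push Not at honly
          obtain ⟨v, hzv, hvu⟩ := honly
          have hlv := (H.covBy_iff.mp hzv).2
          -- the only cover of `u`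
          obtain ⟨w0, hw0, hcw0⟩ := C.low _ hI.mem (3, 4) (by rw [h44]; exact ⟨by omega, le_rfl⟩)
            (by simp only; omega)
          have huw0 : u ⋖ w0 := by
            rw [chart_cov C H hI.mem hw0, hcw0, h44]
            exact Or.inl ⟨rfl, rfl⟩
          have honly0 : ∀ y, u ⋖ y → y = w0 := by
            intro y hy
            have hyN := C.up _ hI.mem y hy.1.le
            have h9 : (co y).1 ≤ (co y).2 := C.mem y hyN
            have e := (chart_cov C H hI.mem hyN).mp hy
            rw [h44] at e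
            refine C.inj y hyN w0 hw0 ?_
            rw [hcw0]
            rcases e with e | e
            · exact Prod.ext (by simp only at *; omega) (by simp only at *; omega)
            · simp only at e
              omega
          have hlw0 : lev w0 = 7 := by
            have := (H.covBy_iff.mp huw0).2
            omega
          have hw02 : (Win.uc w0).card = 2 := chartS_inner_uc C H hw0 (by rw [hcw0]; simp)
            (by rw [hcw0]; simp)
          have hwt : w0 ≤ (topOf u : P) := by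
            rw [W.natSys.cp _ w0 huw0.1.le huR]
            exact le_topOf _
          -- `v` has a cover which is not above `u`
          have hvlt : v < (topOf v : P) := lt_of_le_of_ne (le_topOf v) (by
            intro h
            have := (topOf v).2
            rw [← h] at this
            omega)
          obtain ⟨w, hvw, hww0⟩ : ∃ w, v ⋖ w ∧ w ≠ w0 := by
            by_contra hcon
            push Not at hcon
            obtain ⟨w, hvw, -⟩ := Hul.exists_cov hvlt
            have hP : Pend v w0 := ⟨(hcon w hvw) ▸ hvw, hcon⟩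
            have h9 := (hI.pen w0 u hwt (by omega) hw02 ⟨huw0, honly0⟩).2 v hP
            exact hvu h9
          have hlw := (H.covBy_iff.mp hvw).2
          have hnvu : ¬ u ≤ v := fun h => by
            rcases eq_or_lt_of_le h with h | h
            · exact hvu h.symm
            · have := lev_strictAnti h
              omega
          have hnwu : ¬ u ≤ w := fun h => by
            rcases eq_or_lt_of_le h with h | h
            · rw [h] at hlu; omega
            · obtain ⟨y, hy, hyw⟩ := Hul.exists_cov h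
              rw [honly0 y hy] at hyw
              rcases eq_or_lt_of_le hyw with h' | h'
              · exact hww0 h'.symm
              · have := lev_strictAnti h'
                omega
          -- the cost
          rw [cst_ct hz5, ct_eq_sum]
          have h37 : ct 2 5 u = 32 := by
            rw [sd_stair_ct C hI.mem, h44]
            decide
          rw [ct_eq_sum] at h37
          have hvw' : v ≠ w := by rintro rfl; exact lt_irrefl _ hvw.1
          have hzv' : z ≠ v := by rintro rfl; exact lt_irrefl _ hzv.1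
          have hzw' : z ≠ w := by
            rintro rfl
            exact lt_irrefl _ (hzv.1.trans hvw.1)
          have hnzu : ¬ u ≤ z := fun h => absurd (lt_of_le_of_lt h hzu.1) (lt_irrefl _)
          have h10 : ∑ y, ((if u ≤ y then min 5 (lev y - 2) else 0) +
              ((if y = z then 5 else 0) + ((if y = v then 5 else 0) +
                (if y = w then 5 else 0)))) ≤ ∑ y, (if z ≤ y then min 5 (lev y - 2) else 0) := by
            refine Finset.sum_le_sum fun y _ => ?_
            by_cases h1 : u ≤ y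
            · have e1 : y ≠ z := by rintro rfl; exact hnzu h1
              have e2 : y ≠ v := by rintro rfl; exact hnvu h1
              have e3 : y ≠ w := by rintro rfl; exact hnwu h1
              rw [if_pos h1, if_neg e1, if_neg e2, if_neg e3, if_pos (hzu.1.le.trans h1)]
              exact le_of_eq (by ring)
            · rw [if_neg h1]
              by_cases e1 : y = z
              · subst e1
                rw [if_pos rfl, if_neg hzv', if_neg hzw', if_pos le_rfl, hlu]
                omega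
              · rw [if_neg e1]
                by_cases e2 : y = v
                · subst e2
                  rw [if_pos rfl, if_neg hvw', if_pos hzv.1.le]
                  omega
                · rw [if_neg e2]
                  by_cases e3 : y = w
                  · subst e3
                    rw [if_pos rfl, if_pos (hzv.1.le.trans hvw.1.le)]
                    omega
                  · rw [if_neg e3]
                    exact Nat.zero_le _
          rw [Finset.sum_add_distrib, Finset.sum_add_distrib, Finset.sum_add_distrib,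
            Finset.sum_ite_eq' univ z, Finset.sum_ite_eq' univ v, Finset.sum_ite_eq' univ w,
            if_pos (mem_univ _), if_pos (mem_univ _), if_pos (mem_univ _)] at h10
          subst hj
          omega
      · left
        have hj6 : j = 6 := by omega
        have h37 : ct 2 5 u = 32 := by
          rw [sd_stair_ct C hI.mem, h44]
          decide
        have h7 := ct_cov (i := 2) (k := 5) hzu.1
        rw [Nat.min_eq_left (by omega), h37] at h7
        rw [cst_ct hz5]
        subst hj6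
        omega
    · left
      have h5 := W.farT.le_lev z hz
      exact key u _ rfl hI (by rw [hhz] at h5; exact h5) hhz

end Pool.Agent.GaussPoset

end

/-! From `Pool.Agent.W_448sd_h84.SdG` -/

section

/-!
# Window 2: the unnatural elements of level `j + 1` (MP_448cb3_co)
-/

namespace Pool.Agent.GaussPoset

set_option linter.unusedSectionVars false

open Polynomial Finset

universe u

variable {P : Type u} [Fintype P] [PartialOrder P] [DecidableEq P] {r j : ℕ}
  {N : Tops P → Finset P} {b : Tops P → ℕ} {θ : Tops P → P → ℕ}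

/-- the label of a boundary element of level `j + 1` -/
lemma W2.h2_eq (W : W2 r j N b θ) {z x : P} (hz : z ∈ r2 j N) (hl : lev z = j + 1)
    (hzx : z ⋖ x) (hmin : ∀ y, z ⋖ y → θ (topOf x) x ≤ θ (topOf y) y) :
    h2 j N θ z = θ (topOf x) x + 1 := by
  classical
  have H := W.gt.H
  have hlev : ∀ y, z ⋖ y → lev y = j := by
    intro y hy
    have := (H.covBy_iff.mp hy).2
    omega
  have hnR : ∀ y, z ⋖ y → y ∉ r2 j N := fun y hy h =>
    W.low (hlev y hy).le (mem_sdiff.mp h).1
  have hbd : z ∈ bdR (r2 j N) := mem_filter.mpr ⟨hz, x, hnR x hzx, hzx⟩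
  refine le_antisymm ?_ ?_
  · refine (hcan_le (θ := sdT j N θ) (hnR x hzx) hzx).trans ?_
    rw [W.sdT_nat (W.low (hlev x hzx).le)]
  · obtain ⟨y, hy, hzy, hh⟩ := hcan_spec (θ := sdT j N θ) hbd
    rw [W.sdT_nat (W.low (hlev y hzy).le)] at hh
    have h3 := hmin y hzy
    have hh' : h2 j N θ z = θ (topOf y) y + 1 := hh
    rw [hh']
    omega

lemma W2.mem_bd (W : W2 r j N b θ) {z : P} (hz : z ∈ r2 j N) (hl : lev z = j + 1) :
    z ∈ bdR (r2 j N) := by
  classical
  have hzt : z < (topOf z : P) := lt_of_le_of_ne (le_topOf z) (by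
    intro h
    have := (topOf z).2
    rw [← h] at this
    omega)
  obtain ⟨x, hzx, -⟩ := Hul.exists_cov hzt
  refine mem_filter.mpr ⟨hz, x, fun h => ?_, hzx⟩
  have h1 := (W.gt.H.covBy_iff.mp hzx).2
  exact W.low (by omega) (mem_sdiff.mp h).1

/-- cells which are not in row 0 are not hung below the end of row 0 -/
lemma sd_not_junk {t : P} {S : ℕ × ℕ → Prop} {Nc : Finset P} {co : P → ℕ × ℕ}
    (C : Chart t S Nc co) {x : P} (hx : x ∈ Nc) (h1 : 1 ≤ (co x).1) : x ∉ junk S Nc co := by
  intro hJ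
  obtain ⟨x1, H1, hz1⟩ := mem_junk.mp hJ
  have := (H1.tail C hx (mem_jset.mp hz1).1).1
  omega

/-- two neighbours of the level `j`: the element is natural or a twin -/
lemma W2.near (W : W2 r j N b θ) {z x x' : P} (hz : z ∈ r2 j N) (hl : lev z = j + 1)
    (hzx : z ⋖ x) (hzx' : z ⋖ x') (hne : x ≠ x') (h1 : ucv x x' = 1) : False := by
  classical
  have H := W.gt.H
  have HN := W.natSys
  have hm := W.six
  have hlx : lev x = j := by
    have := (H.covBy_iff.mp hzx).2
    omega
  have hlx' : lev x' = j := by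
    have := (H.covBy_iff.mp hzx').2
    omega
  rw [mem_sdiff] at hz
  have hzU := hz.1
  obtain ⟨p, hp⟩ := Finset.card_eq_one.mp h1
  have hp2 : x ⋖ p ∧ x' ⋖ p := by
    have : p ∈ (univ.filter (fun y : P => x ⋖ y ∧ x' ⋖ y)) := by rw [hp]; simp
    simpa using this
  have hxt : topOf x = topOf z := W.top_cov hl hzx
  have hxt' : topOf x' = topOf z := W.top_cov hl hzx'
  have hxle : x ≤ (topOf z : P) := by rw [← hxt]; exact le_topOf x
  have hxle' : x' ≤ (topOf z : P) := by rw [← hxt']; exact le_topOf x'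
  have twin : ∀ y : P, y ∉ unnat N → y ⋖ x → y ⋖ x' → False := fun y hy hyx hyx' =>
    hz.2 (mem_twY.mpr ⟨hzU, hl, y, hy, up_of_pair H hzx hzx' hyx hyx' hne⟩)
  rcases W.typ (topOf z) with ⟨g1, g2, g3, g6⟩ | ⟨Nc, co, g0, g1, g2, g3, g4⟩ |
    ⟨Nc, co, g0, g1, g2, g3, g4⟩
  · refine mem_unnat.mp hzU (topOf z) ?_
    rw [g1]
    exact W.lowOnly (le_topOf z) (by omega)
  · have hx : x ∈ Nc := g0.strip (mem_lowPart.mpr ⟨hxle, hlx.le⟩)
    have hx' : x' ∈ Nc := g0.strip (mem_lowPart.mpr ⟨hxle', hlx'.le⟩)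
    have hzN : z ∉ Nc := fun h => mem_unnat.mp hzU (topOf z) (by
      rw [g1]
      exact mem_natR.mpr (Or.inl h))
    obtain ⟨y, hy, hyx, hyx'⟩ := near_chart H g0.chart g0.max (fun _ _ _ => trivial) hx hx' hp2.1
      hp2.2 hzx hzx' hne hzN
    refine twin y (HN.mem_iff (t := topOf z).mp ?_).1 hyx hyx'
    rw [g1]
    exact mem_natR.mpr (Or.inl hy)
  · have hx : x ∈ Nc := g0.strip (mem_lowPart.mpr ⟨hxle, hlx.le⟩)
    have hx' : x' ∈ Nc := g0.strip (mem_lowPart.mpr ⟨hxle', hlx'.le⟩)
    have hzN : z ∉ Nc := fun h => mem_unnat.mp hzU (topOf z) (by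
      rw [g1]
      exact mem_natS.mpr (Or.inl h))
    obtain ⟨y, hy, hyx, hyx'⟩ := near_chart H g0.chart g0.max
      (fun s c (h : s + 1 ≤ c) => show s + 1 ≤ c + 1 by omega) hx hx' hp2.1 hp2.2 hzx hzx' hne hzN
    refine twin y (HN.mem_iff (t := topOf z).mp ?_).1 hyx hyx'
    rw [g1]
    exact mem_natS.mpr (Or.inl hy)

/-- the fold ends of level `j` -/
def Fold2 (j : ℕ) (N : Tops P → Finset P) (θ : Tops P → P → ℕ) (x : P) : Prop :=
  ∃ Nc co m, InS2sd j N θ x Nc co ∧ co x = (m, m) ∧ j = 2 * m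

/-- an element of level `j + 1` below both ends of a stair -/
def Cc2 (j : ℕ) (N : Tops P → Finset P) (θ : Tops P → P → ℕ) (z : P) : Prop :=
  ∃ x x' Nc co m, InS2sd j N θ x Nc co ∧ co x = (m, m) ∧ j = 2 * m ∧ x' ∈ Nc ∧
    co x' = (0, 2 * m) ∧ z ⋖ x ∧ z ⋖ x'

/-- the classification -/
theorem W2.class (W : W2 r j N b θ) {z : P} (hz : z ∈ r2 j N) (hl : lev z = j + 1) :
    (∃ x, Fold2 j N θ x ∧ Pend z x) ∨ Cc2 j N θ z := by
  classical
  have H := W.gt.H
  have HN := W.natSys
  have hm := W.six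
  have hzU := (mem_sdiff.mp hz).1
  have hzt : z < (topOf z : P) := lt_of_le_of_ne (le_topOf z) (by
    intro h
    have := (topOf z).2
    rw [← h] at this
    omega)
  obtain ⟨x, hzx, hxt⟩ := Hul.exists_cov hzt
  have hlev : ∀ y, z ⋖ y → lev y = j := by
    intro y hy
    have := (H.covBy_iff.mp hy).2
    omega
  have htop : ∀ y, z ⋖ y → topOf y = topOf z := fun y hy => W.top_cov hl hy
  have hyt : ∀ y, z ⋖ y → y ≤ (topOf z : P) := fun y hy => by
    rw [← htop y hy]
    exact le_topOf y
  have hyN : ∀ y, z ⋖ y → y ∈ N (topOf z) := fun y hy =>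
    HN.mem_iff.mpr ⟨W.low (hlev y hy).le, htop y hy⟩
  have hlx := hlev x hzx
  have hmk : ∀ (Nc : Finset P) (co : P → ℕ × ℕ), StairNat j 2 (topOf z) Nc co →
      N (topOf z) = natS Nc co → θ (topOf z) = thS 2 Nc co →
      (∀ x w : P, x ≤ (topOf z : P) → lev x = j → (Win.uc x).card = 2 → Pend w x →
        (co x).2 = (co x).1 + 1 ∧ ∀ z', Pend z' x → z' = w) →
      ∀ y, z ⋖ y → 1 ≤ (co y).1 → InS2sd j N θ y Nc co := by
    intro Nc co g0 g1 g2 g4 y hy h1
    have h2 := htop y hy
    have h3 : y ∈ Nc := g0.strip (mem_lowPart.mpr ⟨hyt y hy, (hlev y hy).le⟩)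
    refine ⟨by rw [h2]; exact g0, by rw [h2]; exact g1, h3, h1, ?_, by rw [h2]; exact g4⟩
    rw [h2, g2]
    unfold thS
    rw [if_neg (sd_not_junk g0.chart h3 h1)]
  rcases W.typ (topOf z) with ⟨g1, g2, g3, g6⟩ | ⟨Nc, co, g0, g1, g2, g3, g4⟩ |
    ⟨Nc, co, g0, g1, g2, g3, g4⟩
  · exfalso
    refine mem_unnat.mp hzU (topOf z) ?_
    rw [g1]
    exact W.lowOnly (le_topOf z) (by omega)
  · exfalso
    by_cases honly : ∀ y, z ⋖ y → y = x
    · obtain ⟨k1, -, -, k4, k5⟩ := rect_pendant H g0 g1 hzU (hyN x hzx) hzx honly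
      exact g3 x z hxt hlx (chart_inner_uc g0.chart H k1 k4 k5) ⟨hzx, honly⟩
    · push Not at honly
      obtain ⟨x', hzx', hne⟩ := honly
      exact W.near hz hl hzx hzx' hne.symm (g4 z x x' hxt hl hzx hzx' hne.symm)
  · by_cases honly : ∀ y, z ⋖ y → y = x
    · left
      obtain ⟨k1, k2, k3⟩ := stair_pendant H g0 (by omega) g1 hzU (hyN x hzx) hzx honly
      have hle : (co x).1 ≤ (co x).2 := g0.chart.mem x k1
      have hlc := g0.chart.lev x k1
      rcases Nat.lt_or_ge (co x).1 (co x).2 with h | h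
      · exfalso
        obtain ⟨p1, p2⟩ := g4 x z hxt hlx (chartS_inner_uc g0.chart H k1 k3 h) ⟨hzx, honly⟩
        have hzN : z ∉ Nc := fun h => mem_unnat.mp hzU (topOf z) (by
          rw [g1]
          exact mem_natS.mpr (Or.inl h))
        obtain ⟨y, hy, hcy, hyx, hyz⟩ := max_diag g0.chart g0.max H hzN k1 hzx honly
          (s := (co x).1) (Prod.ext rfl p1)
        refine hyz (p2 y ⟨hyx, fun w hw => ?_⟩)
        have hwN := g0.chart.up _ hy w hw.1.le
        have h9 : (co w).1 ≤ (co w).2 := g0.chart.mem w hwN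
        have e := (chart_cov g0.chart H hy hwN).mp hw
        rw [hcy] at e
        refine g0.chart.inj w hwN x k1 ?_
        rcases e with e | e
        · have e1 := e.1
          have e2 := e.2
          simp only at e1 e2
          exact Prod.ext (by omega) (by omega)
        · have e1 := e.1
          have e2 := e.2
          simp only at e1 e2
          omega
      · exact ⟨x, ⟨Nc, co, (co x).1, hmk Nc co g0 g1 g2 g4 x hzx k3,
          Prod.ext rfl (by simp only; omega), by omega⟩, hzx, honly⟩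
    · right
      push Not at honly
      obtain ⟨x', hzx', hne'⟩ := honly
      have hne : x ≠ x' := Ne.symm hne'
      have hlx' := hlev x' hzx'
      obtain ⟨i, rfl⟩ : ∃ i, j = i + 1 := ⟨j - 1, by omega⟩
      rcases (Win.near_level' W.gt (by omega)).1 z x x' hl hzx hzx' hne with h7 | ⟨h7, h8, h9⟩
      · exact (W.near hz hl hzx hzx' hne h7).elim
      · have hx : ∀ y, z ⋖ y → y ∈ Nc := fun y hy =>
          g0.strip (mem_lowPart.mpr ⟨hyt y hy, (hlev y hy).le⟩)
        have hpos : ∀ y, z ⋖ y → (Win.uc y).card = 1 → (co y).1 = 0 ∨ (co y).1 = (co y).2 := by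
          intro y hy hu
          by_contra hcon
          have h5 : (co y).1 ≤ (co y).2 := g0.chart.mem y (hx y hy)
          have := chartS_inner_uc g0.chart H (hx y hy) (by omega) (by omega)
          omega
        have hc : ∀ y, z ⋖ y → (co y).1 + (co y).2 = i + 1 := fun y hy => by
          rw [← g0.chart.lev y (hx y hy)]
          exact hlev y hy
        have hcne : co x ≠ co x' := fun h => hne (g0.chart.inj x (hx x hzx) x' (hx x' hzx') h)
        have c1 := hc x hzx
        have c2 := hc x' hzx'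
        have key : ∀ x x' : P, z ⋖ x → z ⋖ x' → co x ≠ co x' → (co x').1 = 0 →
            (Win.uc x).card = 1 → Cc2 (i + 1) N θ z := by
          intro x x' hzx hzx' hcne h0 hu
          have c1 := hc x hzx
          have c2 := hc x' hzx'
          have h1 : 1 ≤ (co x).1 := by
            by_contra hcon
            exact hcne (Prod.ext (by omega) (by omega))
          have h2 := (hpos x hzx hu).resolve_left (by omega)
          exact ⟨x, x', Nc, co, (co x).1, hmk Nc co g0 g1 g2 g4 x hzx h1,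
            Prod.ext rfl h2.symm, by omega, hx x' hzx',
            Prod.ext h0 (by simp only; omega), hzx, hzx'⟩
        by_cases h0' : (co x').1 = 0
        · exact key x x' hzx hzx' hcne h0' h7
        · by_cases h0 : (co x).1 = 0
          · exact key x' x hzx' hzx hcne.symm h0 h8
          · exfalso
            have e1 := (hpos x hzx h7).resolve_left h0
            have e2 := (hpos x' hzx' h8).resolve_left h0'
            exact hcne (Prod.ext (by omega) (by omega))

end Pool.Agent.GaussPoset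

end

/-! From `Pool.Agent.W_448sd_h84.SdL` -/

section

/-!
# No component of the shape `F1` (MP_448cb3_co): level 6, window 2, energy 12
-/

namespace Pool.Agent.GaussPoset

set_option linter.unusedSectionVars false

open Polynomial Finset

universe u

variable {P : Type u} [Fintype P] [PartialOrder P] [DecidableEq P] {r : ℕ}
  {N : Tops P → Finset P} {b : Tops P → ℕ} {θ : Tops P → P → ℕ}

open Cp

/-- the types at window 2, level 6, the word `F1` allowed -/
inductive Ty6 (N : Tops P → Finset P) (t : Tops P) (b : ℕ) (θ : P → ℕ) : Prop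
  | light (h1 : N t = onlyB t) (h2 : θ = fun x => lev x - 2) (h3 : b = 1)
      (h6 : ∃ x ≤ (t : P), lev x = 2)
  | rect (Nc : Finset P) (co : P → ℕ × ℕ) (h0 : RectNat 6 2 t b Nc co)
      (h1 : N t = natR Nc co) (h2 : θ = thR 2 b Nc co)
  | stair (Nc : Finset P) (co : P → ℕ × ℕ) (h0 : StairNat 5 2 t Nc co)
      (h1 : N t = natS Nc co) (h2 : θ = thS 2 Nc co) (h3 : b = 2)
      (h6 : ∀ z ≤ (t : P), lev z = 6 → z ∈ Nc ∨ ∃ x ∈ Nc, co x = (1, 4) ∧ Pend z x)

/-- the context -/
structure V6 (r : ℕ) (N : Tops P → Finset P) (b : Tops P → ℕ) (θ : Tops P → P → ℕ) :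
    Prop where
  gt : Win.GoodTo P r 6
  typ : ∀ t, Ty6 N t (b t) (θ t)
  sum_b : ∑ t, b t = (lv P 2).card
  nj : ∀ z : P, lev z = 7 → ¬ Hul.Jn z

lemma V6.lowOnly (W : V6 r N b θ) {t : Tops P} {x : P} (hx : x ≤ (t : P))
    (hl : lev x ≤ 7) : x ∈ onlyB t := by
  rw [mem_onlyB]
  intro s hs hxs
  by_contra hne
  rcases Nat.lt_or_ge 6 (lev x) with h | h
  · exact W.nj x (by omega) ⟨s, t, hs, t.2, hne, hxs, hx⟩
  · exact hne (Cp.top_eq W.gt.H W.gt.good h hs t.2 hxs hx)

lemma V6.topOf_eq (W : V6 r N b θ) {t : Tops P} {x : P} (hx : x ≤ (t : P))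
    (hl : lev x ≤ 7) : topOf x = t := by
  have h := W.lowOnly hx hl
  rw [mem_onlyB] at h
  exact Subtype.ext (h (topOf x) (topOf x).2 (le_topOf x))

theorem V6.natTop (W : V6 r N b θ) (t : Tops P) : ∃ B, NatTop 2 t (b t) (N t) (θ t) B := by
  have hgr := W.gt.H.gradedBelow
  rcases W.typ t with ⟨h1, h2, h3, h6⟩ | ⟨Nc, co, h0, h1, h2⟩ | ⟨Nc, co, h0, h1, h2, h3, h4⟩
  · rw [h1, h2, h3]
    exact ⟨_, natTop_light hgr (fun x hx hxi => W.lowOnly hx (by omega)) h6⟩
  · rw [h1, h2]
    exact ⟨_, h0.natTop hgr (by omega)⟩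
  · rw [h1, h2, h3]
    exact ⟨_, h0.natTop hgr (by omega) (by omega)⟩

lemma V6.natSys (W : V6 r N b θ) : NatSys N := by
  choose B hB using W.natTop
  exact natSys_of_tops hB

/-- far data -/
theorem V6.far (W : V6 r N b θ) :
    FarData P 2 (unnat N) (lv P 2).card (hcan (unnat N) (fun x => θ (topOf x) x)) := by
  choose B hB using W.natTop
  have h := farData_of_tops W.gt.H.gradedBelow hB
  rw [W.sum_b] at h
  exact h

/-- elements of level at most 6: natural or a pendant below the cell `(1, 4)` -/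
lemma V6.low (W : V6 r N b θ) {x : P} (hx : lev x ≤ 6) (hU : x ∈ unnat N) :
    lev x = 6 ∧ ∃ Nc co, StairNat 5 2 (topOf x) Nc co ∧ θ (topOf x) = thS 2 Nc co ∧
      N (topOf x) = natS Nc co ∧ ∃ y ∈ Nc, co y = (1, 4) ∧ Pend x y := by
  have hn := mem_unnat.mp hU (topOf x)
  rcases W.typ (topOf x) with ⟨h1, h2, h3, h6⟩ | ⟨Nc, co, h0, h1, h2⟩ |
    ⟨Nc, co, h0, h1, h2, h3, h4⟩
  · exfalso
    refine hn ?_
    rw [h1]
    exact W.lowOnly (le_topOf x) (by omega)
  · exfalso
    refine hn ?_
    rw [h1]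
    exact mem_natR.mpr (Or.inl (h0.strip (mem_lowPart.mpr ⟨le_topOf x, by omega⟩)))
  · by_cases hl : lev x = 6
    · refine ⟨hl, Nc, co, h0, h2, h1, ?_⟩
      rcases h4 x (le_topOf x) hl with h | h
      · exfalso
        refine hn ?_
        rw [h1]
        exact mem_natS.mpr (Or.inl h)
      · exact h
    · exfalso
      refine hn ?_
      rw [h1]
      exact mem_natS.mpr (Or.inl (h0.strip (mem_lowPart.mpr ⟨le_topOf x, by omega⟩)))

/-- natural elements of level at least 6 -/
theorem V6.cases (W : V6 r N b θ) {x : P} (hx : x ∉ unnat N) (hl : 6 ≤ lev x) :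
    (θ (topOf x) x = lev x - 2 ∧
      ∀ z ∈ unnat N, z ≤ x → ∀ k, 2 ≤ k → k ≤ lev x → 2 ≤ nab k z) ∨
    (3 ≤ θ (topOf x) x + 1 ∧ 2 ≤ nab 3 x ∧ 2 ≤ nab 4 x) := by
  have H := W.gt.H
  have HN := W.natSys
  have hxt : x ∈ N (topOf x) := HN.mem_iff.mpr ⟨hx, rfl⟩
  have hT := W.typ (topOf x)
  generalize ht : topOf x = t at hxt hT
  rcases hT with ⟨h1, h2, h3, h6⟩ | ⟨Nc, co, h0, h1, h2⟩ | ⟨Nc, co, h0, h1, h2, h3, h4⟩
  · left
    have hs : ∀ z ∈ unnat N, ∃ s : P, lev s = 0 ∧ z ≤ s ∧ s ≠ t := by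
      intro z hz
      have h7 : z ∉ onlyB t := by
        rw [← h1]
        exact mem_unnat.mp hz t
      rw [mem_onlyB] at h7
      push Not at h7
      exact h7
    refine ⟨by rw [h2], ?_⟩
    intro z hz hzx k _ hk
    obtain ⟨s, hs1, hs2, hs3⟩ := hs z hz
    exact two_le_nab_join HN H.gradedBelow hxt hzx hs1 hs3 hs2 hk
  · by_cases hJ : x ∈ junk (fun _ => True) Nc co ∨ x ∈ junk (fun _ => True) Nc (swp co)
    · left
      refine ⟨?_, ?_⟩
      · rw [h2]
        unfold thR
        rw [if_pos hJ]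
      · intro z hz hzx k hk hkx
        refine rect_two_le_nab H h0 h1 hz hzx ?_ (by omega) hkx
        rcases hJ with h | h
        · exact Or.inl h
        · exact Or.inr (Or.inl h)
    · have hxN : x ∈ Nc := by
        rw [h1, mem_natR] at hxt
        rcases hxt with h | h | h
        · exact h
        · exact absurd (Or.inl h) hJ
        · exact absurd (Or.inr h) hJ
      have hlc := h0.chart.lev x hxN
      have hb1 := h0.b_two
      have hb2 := h0.b_le
      have hrow : b t = 2 + 1 ∨ (co x).1 ≤ b t - 1 := by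
        rcases h0.rows with h | h
        · exact Or.inl h
        · exact Or.inr (h x hxN)
      by_cases h7 : (co x).1 = 0 ∨ (co x).2 = 0
      · left
        refine ⟨?_, ?_⟩
        · rw [h2]
          unfold thR
          rw [if_neg hJ]
          omega
        · intro z hz hzx k hk hkx
          exact rect_two_le_nab H h0 h1 hz hzx (Or.inr (Or.inr ⟨hxN, h7⟩)) (by omega) hkx
      · right
        have h3' := rect_nab h0.chart hxN (k := 3) (by omega)
        have h4' := rect_nab h0.chart hxN (k := 4) (by omega)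
        refine ⟨?_, by omega, by omega⟩
        rw [h2]
        unfold thR
        rw [if_neg hJ]
        omega
  · by_cases hJ : x ∈ junk (fun c => c.1 ≤ c.2) Nc co
    · left
      refine ⟨?_, ?_⟩
      · rw [h2]
        unfold thS
        rw [if_pos hJ]
      · intro z hz hzx k hk hkx
        exact stair_two_le_nab H h0 h1 hz hzx (Or.inl hJ) hk hkx
    · have hxN : x ∈ Nc := by
        rw [h1, mem_natS] at hxt
        rcases hxt with h | h
        · exact h
        · exact absurd h hJ
      have hlc := h0.chart.lev x hxN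
      have hm : (co x).1 ≤ (co x).2 := h0.chart.mem x hxN
      by_cases h7 : (co x).1 = 0
      · left
        refine ⟨?_, ?_⟩
        · rw [h2]
          unfold thS
          rw [if_neg hJ]
          omega
        · intro z hz hzx k hk hkx
          exact stair_two_le_nab H h0 h1 hz hzx (Or.inr ⟨hxN, h7⟩) hk hkx
      · right
        have h3' := stair_nab h0.chart hxN (k := 3) (by omega)
        have h4' := stair_nab h0.chart hxN (k := 4) (by omega)
        refine ⟨?_, by omega, by omega⟩
        rw [h2]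
        unfold thS
        rw [if_neg hJ]
        omega

/-- a lower bound -/
lemma sd_ct3 {u : P} (hl : 6 ≤ lev u) (h3 : 2 ≤ nab 3 u) (h4 : 2 ≤ nab 4 u) :
    12 ≤ ct 2 3 u := by
  unfold ct
  rw [cst_eq]
  have h5 : ∑ k ∈ range (5 + 1), min 3 (k - 2) * nab k u + min 3 (lev u - 2) * nab (lev u) u ≤
      ∑ k ∈ range (lev u + 1), min 3 (k - 2) * nab k u := by
    rw [Finset.sum_range_succ (fun k => min 3 (k - 2) * nab k u) (lev u)]
    exact Nat.add_le_add_right (Finset.sum_le_sum_of_subset (Finset.range_mono (by omega))) _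
  have h6 := one_le_nab (l := 5) (z := u) (by omega)
  have h7 : ∑ k ∈ range (5 + 1), min 3 (k - 2) * nab k u =
      nab 3 u + 2 * nab 4 u + 3 * nab 5 u := by
    simp [Finset.sum_range_succ]
  rw [h7, nab_self, Nat.min_eq_left (by omega)] at h5
  omega

/-- all boundary elements are expensive or special -/
theorem V6.bd (W : V6 r N b θ) {z : P} (hz : z ∈ bdR (unnat N)) :
    12 < cst 2 (hcan (unnat N) (fun x => θ (topOf x) x)) z ∨
    (cst 2 (hcan (unnat N) (fun x => θ (topOf x) x)) z = 12 ∧ nab 2 z = 2 ∧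
      nab (2 + hcan (unnat N) (fun x => θ (topOf x) x) z) z = 1 ∧
      nst 2 (hcan (unnat N) (fun x => θ (topOf x) x)) z = 6) := by
  classical
  have H := W.gt.H
  have hzR : z ∈ unnat N := (mem_filter.mp hz).1
  obtain ⟨u, hu, hzu, hh⟩ := hcan_spec (θ := fun x => θ (topOf x) x) hz
  have hlu := (H.covBy_iff.mp hzu).2
  rcases Nat.lt_or_ge 6 (lev z) with hl | hl
  · left
    have h5 := W.far.le_lev z hz
    rcases W.cases hu (by omega) with ⟨h1, h2⟩ | ⟨h1, h2, h3⟩
    · have h3 := sq_le_cst (i := 2) (h := hcan (unnat N) (fun x => θ (topOf x) x)) (z := z)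
        (by omega) (by rw [hh, h1]; omega) (by
          intro k hk hk2
          exact h2 z hzR hzu.le k (by omega) (by omega))
      refine lt_of_lt_of_le ?_ h3
      have : 5 * 5 ≤ (lev z - 2) ^ 2 := by
        rw [pow_two]
        exact Nat.mul_le_mul (by omega) (by omega)
      omega
    · have h7 := ct_cov (i := 2) (k := hcan (unnat N) (fun x => θ (topOf x) x) z) hzu.1
      rw [Nat.min_eq_left h5] at h7
      have h8 := sd_ct3 (u := u) (by omega) h2 h3
      have h9 := ct_mono (i := 2) (le_refl u)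
        (show 3 ≤ hcan (unnat N) (fun x => θ (topOf x) x) z by rw [hh]; exact h1)
      rw [cst_ct (k := hcan (unnat N) (fun x => θ (topOf x) x) z) rfl]
      rw [hh] at h7 h9 ⊢
      omega
  · right
    obtain ⟨hl6, Nc, co, h0, h2, h1, y, hy, hcy, hP⟩ := W.low hl hzR
    have huy : u = y := hP.2 u hzu
    subst huy
    have hlc := h0.chart.lev u hy
    rw [hcy] at hlc
    simp only at hlc
    have htu : topOf u = topOf z := by
      refine W.topOf_eq (h0.chart.le_t u hy) (by omega)
    have hth : θ (topOf u) u = 2 := by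
      rw [htu, h2]
      unfold thS
      rw [if_neg (sd_not_junk h0.chart hy (by rw [hcy])), hcy]
      rfl
    have hlab : hcan (unnat N) (fun x => θ (topOf x) x) z = 3 := by
      rw [hh, hth]
    have hn : ∀ k, k ≤ 5 → nab k z = min (k / 2) 1 + 1 - (k - 4) := by
      intro k hk
      rw [nab_pend hP (l := k) (by omega)]
      have h3 := stair_nab h0.chart hy (k := k) (by omega)
      rw [hcy] at h3
      simp only at h3
      omega
    refine ⟨?_, ?_, ?_, ?_⟩
    · rw [cst_eq, hlab, hl6, Finset.sum_range_succ, ← hl6, nab_self, hl6]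
      rw [Finset.sum_congr rfl (g := fun k => min 3 (k - 2) * (min (k / 2) 1 + 1 - (k - 4)))
        (fun k hk => by rw [mem_range] at hk; rw [hn k (by omega)])]
      decide
    · rw [hn 2 (by omega)]
      decide
    · rw [hlab, hn (2 + 3) (by omega)]
      decide
    · rw [nst_eq, hlab]
      rw [Finset.sum_congr rfl (g := fun k => min ((2 + k) / 2) 1 + 1 - (2 + k - 4))
        (fun k hk => by rw [mem_range] at hk; rw [hn (2 + k) (by omega)])]
      decide

/-- no special boundary element -/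
theorem V6.kill (W : V6 r N b θ) {z : P} (hz : z ∈ unnat N) (hl : lev z = 6) : False := by
  classical
  have H := W.gt.H
  have hbd : z ∈ bdR (unnat N) := by
    have hzt : z < (topOf z : P) := lt_of_le_of_ne (le_topOf z) (by
      intro h
      have := (topOf z).2
      rw [← h] at this
      omega)
    obtain ⟨x, hzx, -⟩ := Hul.exists_cov hzt
    refine mem_filter.mpr ⟨hz, x, fun h => ?_, hzx⟩
    have h1 := (H.covBy_iff.mp hzx).2
    have := (W.low (by omega) h).1
    omega
  set hf := hcan (unnat N) (fun x => θ (topOf x) x) with hhf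
  have hge : ∀ y ∈ bdR (unnat N), 12 ≤ cst 2 hf y := by
    intro y hy
    rcases W.bd hy with h | ⟨h, -⟩
    · exact h.le
    · exact h.ge
  have hd := W.far.dvd_lead (n := 12) hge
  have hZ := dvd_Z W.gt.H.gauss 2 12
  set T := (bdR (unnat N)).filter (fun y => cst 2 hf y = 12) with hTdef
  have hTe : ∀ y ∈ T, nab 2 y = 2 ∧ nab (2 + hf y) y = 1 ∧ nst 2 hf y = 6 := by
    intro y hy
    rw [hTdef, mem_filter] at hy
    rcases W.bd hy.1 with h | ⟨-, h⟩
    · rw [← hhf] at h
      omega
    · exact h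
  have hzT : z ∈ T := by
    rw [hTdef, mem_filter]
    refine ⟨hbd, ?_⟩
    have h5 := W.far.le_lev z hbd
    rw [← hhf] at h5
    rcases W.bd hbd with h | ⟨h, -⟩
    · exfalso
      obtain ⟨u, hu, hzu, hh⟩ := hcan_spec (θ := fun x => θ (topOf x) x) hbd
      obtain ⟨-, Nc, co, h0, h2, h1, y, hy, hcy, hP⟩ := W.low hl.le hz
      have huy : u = y := hP.2 u hzu
      subst huy
      have hlc := h0.chart.lev u hy
      rw [hcy] at hlc
      simp only at hlc
      have htu : topOf u = topOf z := W.topOf_eq (h0.chart.le_t u hy) (by omega)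
      have hth : θ (topOf u) u = 2 := by
        rw [htu, h2]
        unfold thS
        rw [if_neg (sd_not_junk h0.chart hy (by rw [hcy])), hcy]
        rfl
      have hlab : hcan (unnat N) (fun x => θ (topOf x) x) z = 3 := by
        rw [hh, hth]
      have hn : ∀ k, k ≤ 5 → nab k z = min (k / 2) 1 + 1 - (k - 4) := by
        intro k hk
        rw [nab_pend hP (l := k) (by omega)]
        have h3 := stair_nab h0.chart hy (k := k) (by omega)
        rw [hcy] at h3
        simp only at h3
        omega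
      have : cst 2 (hcan (unnat N) (fun x => θ (topOf x) x)) z = 12 := by
        rw [cst_eq, hlab, hl, Finset.sum_range_succ, ← hl, nab_self, hl]
        rw [Finset.sum_congr rfl (g := fun k => min 3 (k - 2) * (min (k / 2) 1 + 1 - (k - 4)))
          (fun k hk => by rw [mem_range] at hk; rw [hn k (by omega)])]
        decide
      omega
    · exact h
  have hcard : 2 ≤ (lv P 2).card := by
    have h3 := (hTe z hzT).1
    have h4 := nab_le z 2
    omega
  have hs := sign_sum_of_dvd (h := hf) T hZ hd (c0 := (lv P 2).card - 1) (by omega) (by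
    intro y hy
    obtain ⟨h3, h4, -⟩ := hTe y hy
    rw [h3, h4]
    omega)
  have hTf : T.filter (fun y => (lv P 2).card - 1 + nab 2 y =
      (lv P 2).card + nab (2 + hf y) y) = T := by
    refine Finset.filter_true_of_mem fun y hy => ?_
    obtain ⟨h3, h4, -⟩ := hTe y hy
    rw [h3, h4]
    omega
  rw [hTf, Finset.sum_congr rfl (g := fun _ => (1 : ℤ)) (fun y hy => by
    rw [(hTe y hy).2.2]
    norm_num)] at hs
  rw [Finset.sum_const, nsmul_eq_mul, mul_one] at hs
  have h' : T.card = 0 := by exact_mod_cast hs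
  rw [Finset.card_eq_zero] at h'
  rw [h'] at hzT
  exact absurd hzT (Finset.notMem_empty z)

section All

variable {lo hi : Tops P → ℕ → ℕ} {e : Tops P → ℕ → ℕ → P}

/-- the type of a strip -/
theorem sd_type6 (h : Wd.NJ P r 6) {t : Tops P} {lo hi : ℕ → ℕ} {e : ℕ → ℕ → P}
    (C : Comp 6 (t : P) lo hi e) (hS : Wd.Shape 6 lo hi) :
    ∃ M θ, (∀ N : Tops P → Finset P, N t = M → Ty6 N t (hi 2 - lo 2 + 1) θ) ∧
      (Wd.F1 lo hi → e 6 1 ∉ M) := by
  have H := h.g.H
  have hg := h.g.good
  have hlight : lo 2 = hi 2 → ∃ M θ, (∀ N : Tops P → Finset P, N t = M →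
      Ty6 N t (hi 2 - lo 2 + 1) θ) ∧ (Wd.F1 lo hi → e 6 1 ∉ M) := by
    intro h1
    refine ⟨onlyB t, fun x => lev x - 2, fun N hN => Ty6.light hN rfl (by omega) ?_, ?_⟩
    · exact ⟨e 2 (lo 2), C.le_t 2 (lo 2) (by omega) le_rfl (C.lo_le 2 (by omega)),
        C.lev_e 2 (lo 2) (by omega) le_rfl (C.lo_le 2 (by omega))⟩
    · rintro ⟨⟨l0, l1, l2, l3, l4, l5, l6⟩, k0, k1, k2, k3, k4, k5, k6⟩
      omega
  rcases hS with h1 | ⟨h1, S'⟩ | ⟨h1, S⟩ | ⟨h1, h2, h3⟩ | ⟨h1, h2⟩ | ⟨a, h0, h1, h2, h3, hN, h4⟩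
  · have e1 := h1 2 (by omega)
    exact hlight (by omega)
  · have hlt : lo 2 < hi 2 := by
      by_contra hcon
      have g3 := C.lo_le 2 (by omega)
      have g1 := C.lo_mono (l := 1) (d := 1) (by omega)
      have g2 := C.hi_mono (l := 1) (d := 1) (by omega)
      rw [show 1 + 1 = 2 from rfl] at g1 g2
      have g4 := shape_lo C S'.lo (l := 2) (by omega) 2 (by omega)
      have g5 := shape_hi C S'.hi (l := 2) (by omega) 2 (by omega)
      have g6 := C.lo_le (2 + 2) (by omega)
      omega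
    obtain ⟨Nc, co, h2, -⟩ := exists_rect C H hg H.gradedBelow S' (i := 2) (by omega) hlt
    refine ⟨natR Nc co, _, fun N hN => Ty6.rect Nc co h2 hN rfl, ?_⟩
    rintro ⟨⟨l0, l1, l2, l3, l4, l5, l6⟩, k0, k1, k2, k3, k4, k5, k6⟩
    omega
  · obtain ⟨Nc, co, h1, h1'⟩ := exists_stair C H hg H.gradedBelow S (i := 2) (by omega)
    refine ⟨natS Nc co, _, fun N hN => Ty6.stair Nc co
      ⟨h1.chart, h1.max, fun x hx => h1.strip ?_, h1.cell⟩ hN rfl ?_ ?_, ?_⟩
    · rw [mem_lowPart] at hx ⊢
      exact ⟨hx.1, by omega⟩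
    · have e1 := S.hi 2 (by omega)
      have h0 : lo 2 = 0 := by
        by_contra hcon
        have e1 := shape_lo C S.lo (l := 2) (by omega) 2 (by omega)
        have e2 := S.hi (2 + 2) (by omega)
        have e3 := C.lo_le (2 + 2) (by omega)
        omega
      omega
    · intro z hz hl
      exact Or.inl (h1.strip (mem_lowPart.mpr ⟨hz, hl.le⟩))
    · rintro ⟨⟨l0, l1, l2, l3, l4, l5, l6⟩, k0, k1, k2, k3, k4, k5, k6⟩
      have e1 := S.lo 5 (by omega)
      have e1' : lo 6 = 0 ∨ lo 6 = lo 5 + 1 := e1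
      omega
  · omega
  · obtain ⟨⟨l0, l1, l2, l3, l4, l5, l6⟩, k0, k1, k2, k3, k4, k5, k6⟩ := h2
    have C5 : Comp 5 (t : P) lo hi e := C.mono (by omega)
    have S : StairShape 5 lo hi := by
      refine ⟨?_, ?_⟩
      · intro k hk
        interval_cases k <;> simp only [Nat.reduceAdd, zero_add] <;> omega
      · intro k hk
        interval_cases k <;> omega
    obtain ⟨Nc, co, h1, h1'⟩ := exists_stair C5 H (fun l hl => hg l (by omega)) H.gradedBelow S
      (i := 2) (by omega)
    have l5' : lo (4 + 1) = 1 := l5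
    have k5' : hi (4 + 1) = 2 := k5
    have l6' : lo (5 + 1) = 1 := l6
    have k6' : hi (5 + 1) = 2 := k6
    have hx1 : e 5 1 ∈ lowPart 5 (t : P) := mem_lowPart.mpr
      ⟨C.le_t 5 1 (by omega) (by omega) (by omega), (C.lev_e 5 1 (by omega) (by omega)
        (by omega)).le⟩
    have hx2 : e 5 2 ∈ lowPart 5 (t : P) := mem_lowPart.mpr
      ⟨C.le_t 5 2 (by omega) (by omega) (by omega), (C.lev_e 5 2 (by omega) (by omega)
        (by omega)).le⟩
    have hc1 : co (e 5 1) = (1, 4) := by
      rw [h1' _ hx1]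
      unfold ccoord
      rw [scoord_e C5 (k := 5) (s := 1) le_rfl (by omega) (by omega),
        C.lev_e 5 1 (by omega) (by omega) (by omega)]
    have hc2 : co (e 5 2) = (2, 3) := by
      rw [h1' _ hx2]
      unfold ccoord
      rw [scoord_e C5 (k := 5) (s := 2) le_rfl (by omega) (by omega),
        C.lev_e 5 2 (by omega) (by omega) (by omega)]
    -- no cell `(0, 5)`
    have h05 : ∀ y ∈ Nc, co y ≠ (0, 5) := by
      intro y hy hcy
      have hly := h1.chart.lev y hy
      rw [hcy] at hly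
      simp only at hly
      obtain ⟨s', q1, q2, q3⟩ := C.surj y (h1.chart.le_t y hy) (by omega)
      have hly5 : lev y = 5 := by omega
      rw [hly5] at q1 q2 q3
      have : s' = 1 ∨ s' = 2 := by omega
      rcases this with rfl | rfl
      · rw [← q3, hc1, Prod.mk.injEq] at hcy
        omega
      · rw [← q3, hc2, Prod.mk.injEq] at hcy
        omega
    refine ⟨natS Nc co, _, fun N hN => Ty6.stair Nc co h1 hN rfl (by omega) ?_, ?_⟩
    swap
    · intro _ hz
      have h61 : e (5 + 1) 1 ⋖ e 5 1 :=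
        (C.cov 5 1 1 (by omega) (by omega) (by omega) (by omega) (by omega)).mpr (Or.inl rfl)
      have h62 : ¬ e (5 + 1) 1 ⋖ e 5 2 := fun hq => by
        have := (C.cov 5 1 2 (by omega) (by omega) (by omega) (by omega) (by omega)).mp hq
        omega
      have h61' : e 6 1 ⋖ e 5 1 := h61
      have h62' : ¬ e 6 1 ⋖ e 5 2 := h62
      rw [mem_natS] at hz
      rcases hz with hz | hz
      · have f1 := (chart_cov h1.chart H hz (h1.strip hx1)).mp h61'
        rw [hc1] at f1
        rcases f1 with f1 | f1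
        · have g1 := f1.1
          have g2 := f1.2
          simp only at g1 g2
          apply h62'
          rw [chart_cov h1.chart H hz (h1.strip hx2), hc2]
          exact Or.inr ⟨by simp only; omega, by simp only; omega⟩
        · have g1 := f1.1
          have g2 := f1.2
          simp only at g1 g2
          obtain ⟨y, hy, hcy⟩ := h1.chart.low _ hz (0, 5) ⟨by simp only; omega,
            by simp only; omega⟩ (Nat.zero_le _)
          exact h05 y hy hcy
      · obtain ⟨x1, H1, hz1⟩ := mem_junk.mp hz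
        have g1 := H1.lt _ (h1.strip hx1) (by rw [hc1])
        rw [hc1] at g1
        simp only at g1
        obtain ⟨y, hy, hcy⟩ := h1.chart.low _ H1.mem (0, 5) ⟨by simp only; omega,
          by simp only; omega⟩ (Nat.zero_le _)
        exact h05 y hy hcy
    intro z hz hl
    -- the elements of level 6
    obtain ⟨s, s1, s2, s3⟩ := C.surj z hz (by omega)
    rw [hl] at s1 s2 s3
    -- covers are below `t`
    have hcovt : ∀ y, z ⋖ y → ∃ s', lo 5 ≤ s' ∧ s' ≤ hi 5 ∧ e 5 s' = y := by
      intro y hy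
      have hly := (H.covBy_iff.mp hy).2
      have hyt : y ≤ (t : P) := by
        have h5 := Cp.top_eq H hg (by omega : lev z ≤ 6) (topOf y).2 t.2
          (hy.1.le.trans (le_topOf y)) hz
        rw [← h5]
        exact le_topOf y
      obtain ⟨s', q1, q2, q3⟩ := C.surj y hyt (by omega)
      have : lev y = 5 := by omega
      rw [this] at q1 q2 q3
      exact ⟨s', q1, q2, q3⟩
    have hz61 : ∀ s', lo 5 ≤ s' → s' ≤ hi 5 → (e 6 s ⋖ e 5 s' ↔ s' = s ∨ s' + 1 = s) :=
      fun s' q1 q2 => C.cov 5 s s' (by omega) s1 s2 q1 q2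
    rw [s3] at hz61
    have hs : s = 1 ∨ s = 2 := by omega
    rcases hs with rfl | rfl
    · right
      refine ⟨e 5 1, h1.strip hx1, hc1, ?_, ?_⟩
      · exact (hz61 1 (by omega) (by omega)).mpr (Or.inl rfl)
      · intro y hy
        obtain ⟨s', q1, q2, q3⟩ := hcovt y hy
        rw [← q3] at hy ⊢
        have := (hz61 s' q1 q2).mp hy
        congr 1
        omega
    · left
      by_contra hzN
      have hne : e 5 1 ≠ e 5 2 := by
        intro hq
        have := C.inj 5 1 2 (by omega) (by omega) (by omega) (by omega) (by omega) hq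
        omega
      obtain ⟨y, hy, hy1, hy2⟩ := near_chart (z := z) H h1.chart h1.max
        (fun s c (h : s + 1 ≤ c) => show s + 1 ≤ c + 1 by omega) (h1.strip hx1) (h1.strip hx2)
        (p := e 4 1)
        ((C.cov 4 1 1 (by omega) (by omega) (by omega) (by omega) (by omega)).mpr (Or.inl rfl))
        ((C.cov 4 2 1 (by omega) (by omega) (by omega) (by omega) (by omega)).mpr (Or.inr rfl))
        ((hz61 1 (by omega) (by omega)).mpr (Or.inr rfl))
        ((hz61 2 (by omega) (by omega)).mpr (Or.inl rfl)) hne hzN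
      have hyt := h1.chart.le_t y hy
      have hly : lev y = 6 := by
        have e1 := (H.covBy_iff.mp hy1).2
        have e2 := C.lev_e 5 1 (by omega) (by omega) (by omega)
        omega
      obtain ⟨s', q1, q2, q3⟩ := C.surj y hyt (by omega)
      rw [hly] at q1 q2 q3
      have e1 := (C.cov 5 s' 1 (by omega) q1 q2 (by omega) (by omega))
      have e2 := (C.cov 5 s' 2 (by omega) q1 q2 (by omega) (by omega))
      have q3' : e (5 + 1) s' = y := q3
      rw [q3'] at e1 e2
      have e1' := e1.mp hy1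
      have e2' := e2.mp hy2
      have hs' : s' = 2 := by omega
      apply hzN
      have : y = z := by rw [← q3, ← s3, hs']
      rw [← this]
      exact hy
  · have e1 := h2 2 (by omega)
    exact hlight (by omega)

/-- **no component has the shape `F1`** -/
theorem NJ_no_six (h : Wd.NJ P r 6) (C : ∀ t : Tops P, Comp 6 (t : P) (lo t) (hi t) (e t))
    (hS : ∀ t, Wd.Shape 6 (lo t) (hi t)) (t : Tops P) : ¬ Wd.F1 (lo t) (hi t) := by
  classical
  intro hF
  choose M θ hty hMt using fun t => sd_type6 h (C t) (hS t)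
  have W : V6 r M (fun t => hi t 2 - lo t 2 + 1) θ :=
    ⟨h.g, fun t => hty t M rfl, (card_level h.g.H h.g.good C (i := 2) (by omega)).symm, h.no⟩
  have hM := hMt t hF
  obtain ⟨⟨l0, l1, l2, l3, l4, l5, l6⟩, k0, k1, k2, k3, k4, k5, k6⟩ := hF
  have hlz : lev (e t 6 1) = 6 := (C t).lev_e 6 1 le_rfl (by omega) (by omega)
  have hzt := (C t).le_t 6 1 le_rfl (by omega) (by omega)
  have htz : topOf (e t 6 1) = t := W.topOf_eq hzt (by omega)
  refine W.kill (z := e t 6 1) ?_ hlz
  by_contra hn
  exact hM (W.natSys.mem_iff.mpr ⟨hn, htz⟩)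

end All

end Pool.Agent.GaussPoset

end

/-! From `Pool.Agent.W_448f5_h53.F5A` -/

section

/-!
# No flip at the level 5: window 2, energy 12 (MP_448cb3_co)

All levels less than 5 are good, no join on the level 6.  In a stair-like component there is no
element of level 6 which covers the cell `(1, 4)` only.
-/

namespace Pool.Agent.GaussPoset.F5

set_option linter.unusedSectionVars false

open Polynomial Finset Cp

universe u

variable {P : Type u} [Fintype P] [PartialOrder P] [DecidableEq P] {r : ℕ}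
  {N : Tops P → Finset P} {b : Tops P → ℕ} {θ : Tops P → P → ℕ}

/-- the types at window 2, level 5 -/
inductive Ty5 (N : Tops P → Finset P) (t : Tops P) (b : ℕ) (θ : P → ℕ) : Prop
  | light (h1 : N t = onlyB t) (h2 : θ = fun x => lev x - 2) (h3 : b = 1)
      (h6 : ∃ x ≤ (t : P), lev x = 2)
  | rect (Nc : Finset P) (co : P → ℕ × ℕ) (h0 : RectNat 5 2 t b Nc co)
      (h1 : N t = natR Nc co) (h2 : θ = thR 2 b Nc co)
      (pen : ∀ x z : P, x ≤ (t : P) → lev x = 5 → (Win.uc x).card = 2 → ¬ Pend z x)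
  | stair (Nc : Finset P) (co : P → ℕ × ℕ) (h0 : StairNat 5 2 t Nc co)
      (h1 : N t = natS Nc co) (h2 : θ = thS 2 Nc co) (h3 : b = 2)
      (pen : ∀ x z : P, x ≤ (t : P) → lev x = 5 → (Win.uc x).card = 2 → Pend z x →
        ((co x).2 = (co x).1 + 1 ∨ (co x).2 = (co x).1 + 3) ∧ ∀ z', Pend z' x → z' = z)

/-- the context -/
structure V5 (r : ℕ) (N : Tops P → Finset P) (b : Tops P → ℕ) (θ : Tops P → P → ℕ) :
    Prop where
  gt : Win.GoodTo P r 5
  typ : ∀ t, Ty5 N t (b t) (θ t)
  sum_b : ∑ t, b t = (lv P 2).card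
  nj : ∀ z : P, lev z = 6 → ¬ Hul.Jn z

lemma V5.lowOnly (W : V5 r N b θ) {t : Tops P} {x : P} (hx : x ≤ (t : P))
    (hl : lev x ≤ 6) : x ∈ onlyB t := by
  rw [mem_onlyB]
  intro s hs hxs
  by_contra hne
  rcases Nat.lt_or_ge 5 (lev x) with h | h
  · exact W.nj x (by omega) ⟨s, t, hs, t.2, hne, hxs, hx⟩
  · exact hne (Cp.top_eq W.gt.H W.gt.good h hs t.2 hxs hx)

lemma V5.topOf_eq (W : V5 r N b θ) {t : Tops P} {x : P} (hx : x ≤ (t : P))
    (hl : lev x ≤ 6) : topOf x = t := by
  have h := W.lowOnly hx hl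
  rw [mem_onlyB] at h
  exact Subtype.ext (h (topOf x) (topOf x).2 (le_topOf x))

theorem V5.natTop (W : V5 r N b θ) (t : Tops P) : ∃ B, NatTop 2 t (b t) (N t) (θ t) B := by
  have hgr := W.gt.H.gradedBelow
  rcases W.typ t with ⟨h1, h2, h3, h6⟩ | ⟨Nc, co, h0, h1, h2, -⟩ | ⟨Nc, co, h0, h1, h2, h3, h4⟩
  · rw [h1, h2, h3]
    exact ⟨_, natTop_light hgr (fun x hx hxi => W.lowOnly hx (by omega)) h6⟩
  · rw [h1, h2]
    exact ⟨_, h0.natTop hgr (by omega)⟩
  · rw [h1, h2, h3]
    exact ⟨_, h0.natTop hgr (by omega) (by omega)⟩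

lemma V5.natSys (W : V5 r N b θ) : NatSys N := by
  choose B hB using W.natTop
  exact natSys_of_tops hB

/-- far data -/
theorem V5.far (W : V5 r N b θ) :
    FarData P 2 (unnat N) (lv P 2).card (hcan (unnat N) (fun x => θ (topOf x) x)) := by
  choose B hB using W.natTop
  have h := farData_of_tops W.gt.H.gradedBelow hB
  rw [W.sum_b] at h
  exact h

/-- elements of level at most 5 are natural -/
lemma V5.low (W : V5 r N b θ) {x : P} (hx : lev x ≤ 5) : x ∉ unnat N := by
  intro hU
  have hn := mem_unnat.mp hU (topOf x)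
  rcases W.typ (topOf x) with ⟨h1, h2, h3, h6⟩ | ⟨Nc, co, h0, h1, h2, -⟩ |
    ⟨Nc, co, h0, h1, h2, h3, h4⟩
  · refine hn ?_
    rw [h1]
    exact W.lowOnly (le_topOf x) (by omega)
  · refine hn ?_
    rw [h1]
    exact mem_natR.mpr (Or.inl (h0.strip (mem_lowPart.mpr ⟨le_topOf x, by omega⟩)))
  · refine hn ?_
    rw [h1]
    exact mem_natS.mpr (Or.inl (h0.strip (mem_lowPart.mpr ⟨le_topOf x, by omega⟩)))

/-- natural elements of level at least 6 -/
theorem V5.cases (W : V5 r N b θ) {x : P} (hx : x ∉ unnat N) (hl : 6 ≤ lev x) :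
    (θ (topOf x) x = lev x - 2 ∧
      ∀ z ∈ unnat N, z ≤ x → ∀ k, 2 ≤ k → k ≤ lev x → 2 ≤ nab k z) ∨
    (3 ≤ θ (topOf x) x + 1 ∧ 2 ≤ nab 3 x ∧ 2 ≤ nab 4 x) := by
  have H := W.gt.H
  have HN := W.natSys
  have hxt : x ∈ N (topOf x) := HN.mem_iff.mpr ⟨hx, rfl⟩
  have hT := W.typ (topOf x)
  generalize ht : topOf x = t at hxt hT
  rcases hT with ⟨h1, h2, h3, h6⟩ | ⟨Nc, co, h0, h1, h2, -⟩ | ⟨Nc, co, h0, h1, h2, h3, h4⟩
  · left
    have hs : ∀ z ∈ unnat N, ∃ s : P, lev s = 0 ∧ z ≤ s ∧ s ≠ t := by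
      intro z hz
      have h7 : z ∉ onlyB t := by
        rw [← h1]
        exact mem_unnat.mp hz t
      rw [mem_onlyB] at h7
      push Not at h7
      exact h7
    refine ⟨by rw [h2], ?_⟩
    intro z hz hzx k _ hk
    obtain ⟨s, hs1, hs2, hs3⟩ := hs z hz
    exact two_le_nab_join HN H.gradedBelow hxt hzx hs1 hs3 hs2 hk
  · by_cases hJ : x ∈ junk (fun _ => True) Nc co ∨ x ∈ junk (fun _ => True) Nc (swp co)
    · left
      refine ⟨?_, ?_⟩
      · rw [h2]
        unfold thR
        rw [if_pos hJ]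
      · intro z hz hzx k hk hkx
        refine rect_two_le_nab H h0 h1 hz hzx ?_ (by omega) hkx
        rcases hJ with h | h
        · exact Or.inl h
        · exact Or.inr (Or.inl h)
    · have hxN : x ∈ Nc := by
        rw [h1, mem_natR] at hxt
        rcases hxt with h | h | h
        · exact h
        · exact absurd (Or.inl h) hJ
        · exact absurd (Or.inr h) hJ
      have hlc := h0.chart.lev x hxN
      have hb1 := h0.b_two
      have hb2 := h0.b_le
      have hrow : b t = 2 + 1 ∨ (co x).1 ≤ b t - 1 := by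
        rcases h0.rows with h | h
        · exact Or.inl h
        · exact Or.inr (h x hxN)
      by_cases h7 : (co x).1 = 0 ∨ (co x).2 = 0
      · left
        refine ⟨?_, ?_⟩
        · rw [h2]
          unfold thR
          rw [if_neg hJ]
          omega
        · intro z hz hzx k hk hkx
          exact rect_two_le_nab H h0 h1 hz hzx (Or.inr (Or.inr ⟨hxN, h7⟩)) (by omega) hkx
      · right
        have h3' := rect_nab h0.chart hxN (k := 3) (by omega)
        have h4' := rect_nab h0.chart hxN (k := 4) (by omega)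
        refine ⟨?_, by omega, by omega⟩
        rw [h2]
        unfold thR
        rw [if_neg hJ]
        omega
  · by_cases hJ : x ∈ junk (fun c => c.1 ≤ c.2) Nc co
    · left
      refine ⟨?_, ?_⟩
      · rw [h2]
        unfold thS
        rw [if_pos hJ]
      · intro z hz hzx k hk hkx
        exact stair_two_le_nab H h0 h1 hz hzx (Or.inl hJ) hk hkx
    · have hxN : x ∈ Nc := by
        rw [h1, mem_natS] at hxt
        rcases hxt with h | h
        · exact h
        · exact absurd h hJ
      have hlc := h0.chart.lev x hxN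
      have hm : (co x).1 ≤ (co x).2 := h0.chart.mem x hxN
      by_cases h7 : (co x).1 = 0
      · left
        refine ⟨?_, ?_⟩
        · rw [h2]
          unfold thS
          rw [if_neg hJ]
          omega
        · intro z hz hzx k hk hkx
          exact stair_two_le_nab H h0 h1 hz hzx (Or.inr ⟨hxN, h7⟩) hk hkx
      · right
        have h3' := stair_nab h0.chart hxN (k := 3) (by omega)
        have h4' := stair_nab h0.chart hxN (k := 4) (by omega)
        refine ⟨?_, by omega, by omega⟩
        rw [h2]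
        unfold thS
        rw [if_neg hJ]
        omega

lemma nab_extra {l : ℕ} {z x u : P} (hzx : z ≤ x) (hzu : z ≤ u) (hu : lev u = l)
    (hxu : ¬ x ≤ u) : nab l x + 1 ≤ nab l z := by
  classical
  unfold nab
  have h1 : u ∉ (lv P l).filter (fun y => x ≤ y) := fun h => hxu (mem_filter.mp h).2
  rw [← Finset.card_insert_of_notMem h1]
  refine Finset.card_le_card fun y hy => ?_
  rw [mem_insert] at hy
  rw [mem_filter, mem_lv]
  rcases hy with rfl | hy
  · exact ⟨hu, hzu⟩
  · rw [mem_filter, mem_lv] at hy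
    exact ⟨hy.1, hzx.trans hy.2⟩

/-- the special elements -/
def Fl (N : Tops P → Finset P) (θ : Tops P → P → ℕ) (z : P) : Prop :=
  ∃ Nc co, StairNat 5 2 (topOf z) Nc co ∧ θ (topOf z) = thS 2 Nc co ∧
    N (topOf z) = natS Nc co ∧ ∃ y ∈ Nc, co y = (1, 4) ∧ Pend z y

lemma cost6 {h : P → ℕ} {z : P} (hl : lev z = 6) : cst 2 h z =
    min (h z) 1 * nab 3 z + min (h z) 2 * nab 4 z + min (h z) 3 * nab 5 z + min (h z) 4 := by
  have h6 : nab 6 z = 1 := by
    have := nab_self (z := z)
    rwa [hl] at this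
  rw [cst_eq, hl]
  simp only [Finset.sum_range_succ, Finset.sum_range_zero, h6]
  norm_num

/-- the elements of level 6 which are not natural -/
theorem V5.six (W : V5 r N b θ) {z : P} (hz : z ∈ bdR (unnat N)) (hl : lev z = 6) :
    12 < cst 2 (hcan (unnat N) (fun x => θ (topOf x) x)) z ∨ Fl N θ z := by
  classical
  have H := W.gt.H
  have HN := W.natSys
  have hzU : z ∈ unnat N := (mem_filter.mp hz).1
  obtain ⟨u, hu, hzu, hh⟩ := hcan_spec (θ := fun x => θ (topOf x) x) hz
  have hlev : ∀ y, z ⋖ y → lev y = 5 := by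
    intro y hy
    have := (H.covBy_iff.mp hy).2
    omega
  have htop : ∀ y, z ⋖ y → topOf y = topOf z := fun y hy =>
    (W.topOf_eq (x := z) (hy.1.le.trans (le_topOf y)) (by omega)).symm
  have hyt : ∀ y, z ⋖ y → y ≤ (topOf z : P) := fun y hy => by
    rw [← htop y hy]
    exact le_topOf y
  have hyN : ∀ y, z ⋖ y → y ∈ N (topOf z) := fun y hy =>
    HN.mem_iff.mpr ⟨W.low (hlev y hy).le, htop y hy⟩
  have hlu := hlev u hzu
  have hhe : hcan (unnat N) (fun x => θ (topOf x) x) z = θ (topOf z) u + 1 := by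
    rw [hh, htop u hzu]
  have hn5 : ∀ y, z ⋖ y → y ≠ u → 2 ≤ nab 5 z := by
    intro y hy hne
    have h1 := nab_extra (l := 5) hzu.1.le hy.1.le (hlev y hy) (fun hle => by
      rcases eq_or_lt_of_le hle with h2 | h2
      · exact hne h2.symm
      · have := lev_strictAnti h2
        have := hlev y hy
        omega)
    have h2 : nab 5 u = 1 := by
      have := nab_self (z := u)
      rwa [hlu] at this
    omega
  have hmono : ∀ k, nab k u ≤ nab k z := fun k => nab_mono hzu.1.le
  rw [cost6 hl, hhe]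
  rcases W.typ (topOf z) with ⟨g1, g2, g3, g6⟩ | ⟨Nc, co, g0, g1, g2, g3⟩ |
    ⟨Nc, co, g0, g1, g2, g3, g4⟩
  · exfalso
    refine mem_unnat.mp hzU (topOf z) ?_
    rw [g1]
    exact W.lowOnly (le_topOf z) (by omega)
  · left
    have hx : u ∈ Nc := g0.strip (mem_lowPart.mpr ⟨hyt u hzu, hlu.le⟩)
    have honly : ¬ ∀ y, z ⋖ y → y = u := by
      intro honly
      obtain ⟨k1, -, -, k4, k5⟩ := rect_pendant H g0 g1 hzU (hyN u hzu) hzu honly
      exact g3 u z (hyt u hzu) hlu (chart_inner_uc g0.chart H k1 k4 k5) ⟨hzu, honly⟩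
    push Not at honly
    obtain ⟨x', hzx', hne'⟩ := honly
    have m5 := hn5 x' hzx' hne'
    have hlc := g0.chart.lev u hx
    have hb1 := g0.b_two
    have hb2 := g0.b_le
    have hrow : b (topOf z) = 2 + 1 ∨ (co u).1 ≤ b (topOf z) - 1 := by
      rcases g0.rows with h | h
      · exact Or.inl h
      · exact Or.inr (h u hx)
    by_cases h7 : (co u).1 = 0 ∨ (co u).2 = 0
    · have q := fun k (h1 : 1 ≤ k) (h2 : k ≤ lev u) =>
        rect_two_le_nab H g0 g1 hzU hzu.1.le (Or.inr (Or.inr ⟨hx, h7⟩)) h1 h2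
      have q3 := q 3 (by norm_num) (by omega)
      have q4 := q 4 (by norm_num) (by omega)
      have hth : θ (topOf z) u = 3 := by
        rw [g2]
        unfold thR
        split_ifs <;> omega
      rw [hth]
      norm_num
      omega
    · push Not at h7
      have hJ : ¬ (u ∈ junk (fun _ => True) Nc co ∨ u ∈ junk (fun _ => True) Nc (swp co)) := by
        rintro (h | h)
        · exact sd_not_junk g0.chart hx (by omega) h
        · exact sd_not_junk g0.chart.swap hx (show 1 ≤ (co u).2 by omega) h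
      have hth : θ (topOf z) u = ((co u).1 - (b (topOf z) - 1)) + ((co u).2 - 2) := by
        rw [g2]
        unfold thR
        rw [if_neg hJ]
      have q3 := rect_nab g0.chart hx (k := 3) (by omega)
      have q4 := rect_nab g0.chart hx (k := 4) (by omega)
      have p3 := hmono 3
      have p4 := hmono 4
      rw [hth]
      have hcs : ((co u).1 = 1 ∧ (co u).2 = 4) ∨ ((co u).1 = 2 ∧ (co u).2 = 3) ∨
          ((co u).1 = 3 ∧ (co u).2 = 2) ∨ ((co u).1 = 4 ∧ (co u).2 = 1) := by omega
      rcases hcs with ⟨e1, e2⟩ | ⟨e1, e2⟩ | ⟨e1, e2⟩ | ⟨e1, e2⟩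
      all_goals
        rw [e1, e2] at q3 q4 ⊢
        rw [e1] at hrow
        have hbv : b (topOf z) = 2 ∨ b (topOf z) = 3 := by omega
        rcases hbv with hbv | hbv
        · first
          | (exfalso; omega)
          | (rw [hbv]; norm_num at q3 q4 ⊢; omega)
        · rw [hbv]
          norm_num at q3 q4 ⊢
          omega
  · have hx : u ∈ Nc := g0.strip (mem_lowPart.mpr ⟨hyt u hzu, hlu.le⟩)
    have hm : (co u).1 ≤ (co u).2 := g0.chart.mem u hx
    have hlc := g0.chart.lev u hx
    by_cases honly : ∀ y, z ⋖ y → y = u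
    · right
      obtain ⟨k1, k2, k3⟩ := stair_pendant H g0 (by omega) g1 hzU (hyN u hzu) hzu honly
      obtain ⟨p1, p2⟩ := g4 u z (hyt u hzu) hlu
        (chartS_inner_uc g0.chart H k1 k3 (by omega)) ⟨hzu, honly⟩
      rcases p1 with p1 | p1
      · exfalso
        have hzN : z ∉ Nc := fun h => mem_unnat.mp hzU (topOf z) (by
          rw [g1]
          exact mem_natS.mpr (Or.inl h))
        obtain ⟨y, hy, hcy, hyx, hyz⟩ := max_diag g0.chart g0.max H hzN k1 hzu honly
          (s := (co u).1) (Prod.ext rfl p1)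
        refine hyz (p2 y ⟨hyx, fun w hw => ?_⟩)
        have hwN := g0.chart.up _ hy w hw.1.le
        have h9 : (co w).1 ≤ (co w).2 := g0.chart.mem w hwN
        have e := (chart_cov g0.chart H hy hwN).mp hw
        rw [hcy] at e
        refine g0.chart.inj w hwN u k1 ?_
        rcases e with e | e
        · have e1 := e.1
          have e2 := e.2
          simp only at e1 e2
          exact Prod.ext (by omega) (by omega)
        · have e1 := e.1
          have e2 := e.2
          simp only at e1 e2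
          omega
      · exact ⟨Nc, co, g0, g2, g1, u, hx, Prod.ext (by simp only; omega) (by simp only; omega),
          hzu, honly⟩
    · left
      push Not at honly
      obtain ⟨x', hzx', hne'⟩ := honly
      have hx' : x' ∈ Nc := g0.strip (mem_lowPart.mpr ⟨hyt x' hzx', (hlev x' hzx').le⟩)
      have m5 := hn5 x' hzx' hne'
      have hm' : (co x').1 ≤ (co x').2 := g0.chart.mem x' hx'
      have hlc' := g0.chart.lev x' hx'
      have hlx' := hlev x' hzx'
      have hcne : co u ≠ co x' := fun h => hne' (g0.chart.inj x' hx' u hx h.symm)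
      by_cases h7 : (co u).1 = 0
      · have q := fun k (h1 : 2 ≤ k) (h2 : k ≤ lev u) =>
          stair_two_le_nab H g0 g1 hzU hzu.1.le (Or.inr ⟨hx, h7⟩) h1 h2
        have q3 := q 3 (by norm_num) (by omega)
        have q4 := q 4 (by norm_num) (by omega)
        have hth : θ (topOf z) u = 3 := by
          rw [g2]
          unfold thS
          split_ifs <;> omega
        rw [hth]
        norm_num
        omega
      · have hth : θ (topOf z) u = ((co u).1 - 2) + ((co u).2 - 2) := by
          rw [g2]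
          unfold thS
          rw [if_neg (sd_not_junk g0.chart hx (by omega))]
        have q3 := stair_nab g0.chart hx (k := 3) (by omega)
        have q4 := stair_nab g0.chart hx (k := 4) (by omega)
        have p3 := hmono 3
        have p4 := hmono 4
        rw [hth]
        have hcs : ((co u).1 = 1 ∧ (co u).2 = 4) ∨ ((co u).1 = 2 ∧ (co u).2 = 3) := by omega
        rcases hcs with ⟨e1, e2⟩ | ⟨e1, e2⟩
        · rw [e1, e2] at q3 q4 ⊢
          norm_num at q3 q4 ⊢
          omega
        · -- one more element of level 4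
          have h4' : 4 ≤ (co x').2 := by
            by_contra hcon
            exact hcne (Prod.ext (by omega) (by omega))
          obtain ⟨w, hw, hcw⟩ := g0.chart.low x' hx' (0, 4) ⟨Nat.zero_le _, h4'⟩ (Nat.zero_le _)
          have hlw : lev w = 4 := by
            rw [g0.chart.lev w hw, hcw]
            rfl
          have hxw : x' ≤ w := by
            rw [g0.chart.le_iff x' hx' w hw, hcw]
            exact ⟨Nat.zero_le _, h4'⟩
          have h8 := nab_extra (l := 4) hzu.1.le (hzx'.1.le.trans hxw) hlw (fun hle => by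
            have h9 := (g0.chart.le_iff u hx w hw).mp hle
            rw [hcw] at h9
            have h10 : 4 ≤ (co u).2 := h9.2
            omega)
          rw [e1, e2] at q3 q4 ⊢
          norm_num at q3 q4 ⊢
          omega

end Pool.Agent.GaussPoset.F5

end
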