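import Mathlib
import Pool.Agent.W_448zz_h61.Ns
import Pool.Agent.W_448zz_h61.M047
import Pool.Agent.W_448zz_h61.M052
import Pool.Agent.W_448zz_h61.M056
import Pool.Agent.W_448zz_h61.M121
import Pool.Agent.W_448zz_h61.M140
import Pool.Agent.W_448zz_h61.M182

/-! From `Pool.Agent.W_448j8_h67.JaH` -/

section

/-!
The components at the window 4, level 8: data of one component; light and rectangle-like
components, quadric, `E6` (MP_448cb3_co).
-/

namespace Pool.Agent.GaussPoset.J8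

set_option linter.unusedSectionVars false

open Polynomial Finset Dd Wd Cl

universe u

variable {P : Type u} [Fintype P] [PartialOrder P] [DecidableEq P] {r : ℕ}
variable {t : Tops P} {lo hi : ℕ → ℕ} {e : ℕ → ℕ → P}

/-- numbers of elements of the levels 4, ..., 7 above `x`: the fold end -/
def Fp (x : P) : Prop := nab 4 x = 3 ∧ nab 5 x = 2 ∧ nab 6 x = 2 ∧ nab 7 x = 1

/-- one element on the levels 5, ..., 7, two on the level 4 -/
def Qp (x : P) : Prop := nab 4 x = 2 ∧ nab 5 x = 1 ∧ nab 6 x = 1 ∧ nab 7 x = 1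

/-- two elements on the levels 4, 5, 6 -/
def Dp (x : P) : Prop := nab 4 x = 2 ∧ nab 5 x = 2 ∧ nab 6 x = 2 ∧ nab 7 x = 1

/-- `z` covers exactly the fold end and the straight end of the stair `t` -/
def IsCx (t : Tops P) (b : ℕ) (θ : P → ℕ) (z : P) : Prop :=
  ∃ Nc co F S, CEl (P := P) t Nc co 4 z F S ∧ b = 3 ∧ θ F = 0

/-- data of one component; `w` = the number of its poles at the energy 12 -/
structure TD (t : Tops P) (b w : ℕ) (Y : Finset P) (θ : P → ℕ) (B : P → Prop) : Prop where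
  b_one : 1 ≤ b
  w_le : w ≤ 1
  Ylev : ∀ y ∈ Y, lev y = 9
  Ycov : ∀ y ∈ Y, ∀ v, y ⋖ v → v ≤ (t : P)
  Yth : ∀ y ∈ Y, θ y = 1
  Ytwo : ∀ y ∈ Y, 2 ≤ nab 8 y
  pend : ∀ x z, x ≤ (t : P) → lev x = 8 → z ⋖ x → (∀ y, z ⋖ y → y = x) →
    3 ≤ θ x ∨ (θ x = 0 ∧ (Fp x ∨ Qp x)) ∨ (θ x = 1 ∧ (Dp x ∨ (2 ≤ nab 6 x ∧ 2 ≤ nab 7 x)))
  own : ∀ x x' z, x ≠ x' → x ≤ (t : P) → x' ≤ (t : P) → lev x = 8 → lev x' = 8 → z ⋖ x →
    z ⋖ x' → z ∉ Y → (3 ≤ θ x ∧ 3 ≤ θ x') ∨ (1 ≤ θ x ∧ 1 ≤ θ x' ∧ 2 ≤ nab 7 z) ∨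
      (∀ l, 5 ≤ l → l ≤ 8 → 10 - l ≤ nab l z) ∨ IsCx t b θ z
  ends : ∀ x ≤ (t : P), lev x = 8 → θ x = 0 → (Win.uc x).card = 1 → Fp x ∨ Qp x
  data : ∀ N : Tops P → Finset P, NatSys N → (∀ s : Tops P, lowPart 8 (s : P) ⊆ N s) →
    N t = lowPart 8 (t : P) ∪ Y → ∀ θ' B', (∀ x ∈ N t, θ' x = θ x) →
    (∀ x ∈ N t, (B' x ↔ B x)) → CompDataL (unnat N) topOf t 4 b (13 - w) θ' B'
  full : w = 1 → ∀ N : Tops P → Finset P, NatSys N → N t = lowPart 8 (t : P) ∪ Y →
    ∀ f, (∀ n, exq n f = Z {x : {x : P // x ∉ unnat N} // topOf (x : P) = t} 4 n) →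
    Pl 12 b 1 f

/-- light components -/
theorem tdLight (h : Win.GoodTo P r 8) (C : Cp.Comp 8 (t : P) lo hi e) :
    TD t 1 0 ∅ (fun x => lev x - 4) (fun _ => False) where
  b_one := le_rfl
  w_le := Nat.zero_le _
  Ylev := fun y hy => absurd hy (Finset.notMem_empty _)
  Ycov := fun y hy => absurd hy (Finset.notMem_empty _)
  Yth := fun y hy => absurd hy (Finset.notMem_empty _)
  Ytwo := fun y hy => absurd hy (Finset.notMem_empty _)
  pend := fun x z _ hl _ _ => Or.inl (by show 3 ≤ lev x - 4; omega)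
  own := fun x x' z _ _ _ hl hl' _ _ _ =>
    Or.inl ⟨by show 3 ≤ lev x - 4; omega, by show 3 ≤ lev x' - 4; omega⟩
  ends := fun x _ hl h0 _ => by
    have h0' : lev x - 4 = 0 := h0
    omega
  data := by
    intro N HN hlow hN θ' B' hθ hB
    have H := exists_light (t := t) C h.H h.good h.H.gradedBelow (i := 4) (by norm_num)
    refine compL_nat HN H ?_ (fun x _ hx => absurd hx (by simp)) hθ hB 13
    intro x hx
    rw [hN, Finset.union_empty, mem_lowPart] at hx
    exact only_low h x hx.1 hx.2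
  full := fun h => absurd h (by norm_num)

/-- above an element which is not below the cell `(4, 4)` -/
lemma rect_extra {Nc : Finset P} {co : P → ℕ × ℕ} (C : Chart (t : P) (fun _ => True) Nc co)
    {x x' : P} (hx : x ∈ Nc) (hx' : x' ∈ Nc) (hcx : co x = (4, 4)) (hlx' : lev x' = 8)
    (hne : x ≠ x') {l : ℕ} (h5 : 5 ≤ l) (h8 : l ≤ 8) :
    ∃ u, x' ≤ u ∧ lev u = l ∧ ¬ x ≤ u := by
  have hl := C.lev x' hx'
  have hne' : co x' ≠ (4, 4) := fun h => hne (C.inj x hx x' hx' (by rw [hcx, h]))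
  have key : 5 ≤ (co x').1 ∨ 5 ≤ (co x').2 := by
    by_contra hcon
    push Not at hcon
    exact hne' (Prod.ext (by simp only; omega) (by simp only; omega))
  rcases key with hk | hk
  · obtain ⟨u, hu, hcu⟩ := C.low x' hx' (min l (co x').1, l - min l (co x').1)
      ⟨by simp only; omega, by simp only; omega⟩ trivial
    refine ⟨u, ?_, ?_, ?_⟩
    · rw [C.le_iff x' hx' u hu, hcu]
      exact ⟨by simp only; omega, by simp only; omega⟩
    · rw [C.lev u hu, hcu]
      simp only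
      omega
    · rw [C.le_iff x hx u hu, hcu, hcx]
      rintro ⟨h1, -⟩
      simp only at h1
      omega
  · obtain ⟨u, hu, hcu⟩ := C.low x' hx' (l - min l (co x').2, min l (co x').2)
      ⟨by simp only; omega, by simp only; omega⟩ trivial
    refine ⟨u, ?_, ?_, ?_⟩
    · rw [C.le_iff x' hx' u hu, hcu]
      exact ⟨by simp only; omega, by simp only; omega⟩
    · rw [C.lev u hu, hcu]
      simp only
      omega
    · rw [C.le_iff x hx u hu, hcu, hcx]
      rintro ⟨-, h1⟩
      simp only at h1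
      omega

lemma nab_extra {l : ℕ} {z x u : P} (hzx : z ≤ x) (hzu : z ≤ u) (hu : lev u = l) (hxu : ¬ x ≤ u) :
    nab l x + 1 ≤ nab l z := by
  classical
  unfold nab
  have h1 : u ∉ (lv P l).filter (fun y => x ≤ y) := fun h => hxu (mem_filter.mp h).2
  rw [← Finset.card_insert_of_notMem h1]
  refine Finset.card_le_card fun y hy => ?_
  rw [mem_insert] at hy
  rw [mem_filter, mem_lv]
  rcases hy with rfl | hy
  · exact ⟨hu, hzu⟩
  · rw [mem_filter, mem_lv] at hy
    exact ⟨hy.1, hzx.trans hy.2⟩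

/-- an element of the first row or column is not junk otherwise -/
lemma not_junk {S : ℕ × ℕ → Prop} {Nc : Finset P} {co : P → ℕ × ℕ} {t' : P}
    (C : Chart t' S Nc co) {x : P} (hx : x ∈ Nc) (h1 : 1 ≤ (co x).1) : x ∉ junk S Nc co := by
  intro h
  obtain ⟨x1, H, hz⟩ := mem_junk.mp h
  have := (H.tail C hx (mem_jset.mp hz).1).1
  omega

/-- rectangle-like components -/
theorem tdRect (h : Win.GoodTo P r 8) (C : Cp.Comp 8 (t : P) lo hi e)
    (h1 : lo 1 = 0 ∧ hi 1 = 1) (S : RectShape 8 lo hi) :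
    ∃ θ B, TD t (hi 4 - lo 4 + 1) 0 ∅ θ B := by
  classical
  have H := h.H
  have hg := h.good
  have hlt : lo 4 < hi 4 := by
    have g1 := C.lo_mono (l := 1) (d := 3) (by norm_num)
    have g2 := C.hi_mono (l := 1) (d := 3) (by norm_num)
    norm_num at g1 g2
    by_contra hcon
    have g3 := C.lo_le 4 (by norm_num)
    have g4 := shape_lo C S.lo (l := 4) (by omega) 4 (by norm_num)
    have g5 := shape_hi C S.hi (l := 4) (by omega) 4 (by norm_num)
    have g6 := C.lo_le (4 + 4) (by norm_num)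
    omega
  obtain ⟨Nc, co, R, -⟩ := exists_rect C H hg H.gradedBelow S (i := 4) (by norm_num) hlt
  have hnop : ∀ x z : P, x ≤ (t : P) → lev x = 8 → (Win.uc x).card = 2 → z ⋖ x →
      (∀ y, z ⋖ y → y = x) → False := fun x z hxt hxl hx2 hzx honly =>
    rectShape_no_pendant (i := 7) h (by norm_num) t.2 C S hxl hxt hx2 hzx honly
  have hR := R.natTop H.gradedBelow (by norm_num)
  have hmem : ∀ x, x ≤ (t : P) → lev x = 8 → x ∈ Nc := fun x hx hl =>
    R.strip (mem_lowPart.mpr ⟨hx, hl.le⟩)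
  have hb := R.b_le
  have hth : ∀ x ∈ Nc, lev x = 8 → thR 4 (hi 4 - lo 4 + 1) Nc co x = 4 ∨
      thR 4 (hi 4 - lo 4 + 1) Nc co x =
        ((co x).1 - (hi 4 - lo 4 + 1 - 1)) + ((co x).2 - 4) := by
    intro x hx hl
    unfold thR
    split_ifs with hj
    · left; omega
    · right; rfl
  refine ⟨thR 4 (hi 4 - lo 4 + 1) Nc co, fun x => x ∈ Nc ∧ co x = (hi 4 - lo 4 + 1 - 1, 4), ?_⟩
  constructor
  · omega
  · omega
  · exact fun y hy => absurd hy (Finset.notMem_empty _)
  · exact fun y hy => absurd hy (Finset.notMem_empty _)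
  · exact fun y hy => absurd hy (Finset.notMem_empty _)
  · exact fun y hy => absurd hy (Finset.notMem_empty _)
  · intro x z hxt hl hzx honly
    left
    have hx := hmem x hxt hl
    have hlc := R.chart.lev x hx
    rcases hth x hx hl with h2 | h2
    · omega
    · rw [h2]
      by_cases h3 : 1 ≤ (co x).1 ∧ 1 ≤ (co x).2
      · exact (hnop x z hxt hl (chart_inner_uc R.chart H hx h3.1 h3.2) hzx honly).elim
      · omega
  · intro x x' z hne hxt hxt' hl hl' hzx hzx' _
    have hx := hmem x hxt hl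
    have hx' := hmem x' hxt' hl'
    have hlc := R.chart.lev x hx
    have hlc' := R.chart.lev x' hx'
    -- the cell (4, 4)
    have h44 : ∀ y ∈ Nc, lev y = 8 → thR 4 (hi 4 - lo 4 + 1) Nc co y = 0 → co y = (4, 4) := by
      intro y hy hyl h0
      have := R.chart.lev y hy
      rcases hth y hy hyl with h2 | h2
      · omega
      · exact Prod.ext (by simp only; omega) (by simp only; omega)
    have case0 : ∀ y y' : P, y ∈ Nc → y' ∈ Nc → lev y' = 8 → y ≠ y' → z ⋖ y → z ⋖ y' →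
        co y = (4, 4) → ∀ l, 5 ≤ l → l ≤ 8 → 10 - l ≤ nab l z := by
      intro y y' hy hy' hly' hyy hzy hzy' hc l h5 h8
      obtain ⟨u, hu1, hu2, hu3⟩ := rect_extra R.chart hy hy' hc hly' hyy h5 h8
      have h2 := nab_extra hzy.1.le (hzy'.1.le.trans hu1) hu2 hu3
      have h3 := nab_chart R.chart hy l
      have h4 := card_cellsAt_true (l := l) (p := co y) (by rw [hc]; simp only; omega)
      rw [hc] at h3 h4
      simp only at h4
      omega
    by_cases h0 : thR 4 (hi 4 - lo 4 + 1) Nc co x = 0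
    · right; right; left
      exact case0 x x' hx hx' hl' hne hzx hzx' (h44 x hx hl h0)
    by_cases h0' : thR 4 (hi 4 - lo 4 + 1) Nc co x' = 0
    · right; right; left
      exact case0 x' x hx' hx hl (Ne.symm hne) hzx' hzx (h44 x' hx' hl' h0')
    right; left
    refine ⟨by omega, by omega, ?_⟩
    by_cases h3 : 1 ≤ (co x).1 ∧ 1 ≤ (co x).2
    · exact (chart_inner_nab R.chart hx h3.1 h3.2 (k := 7) (by norm_num) (by omega)).trans
        (nab_mono hzx.1.le)
    by_cases h3' : 1 ≤ (co x').1 ∧ 1 ≤ (co x').2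
    · exact (chart_inner_nab R.chart hx' h3'.1 h3'.2 (k := 7) (by norm_num) (by omega)).trans
        (nab_mono hzx'.1.le)
    -- two ends
    have key : ∀ y ∈ Nc, lev y = 8 → ¬ (1 ≤ (co y).1 ∧ 1 ≤ (co y).2) → ∃ u ∈ Nc, y ≤ u ∧
        lev u = 7 ∧ ((co y = (0, 8) ∧ co u = (0, 7)) ∨ (co y = (8, 0) ∧ co u = (7, 0))) := by
      intro y hy hyl hc
      have hly := R.chart.lev y hy
      have hc2 : co y = (0, 8) ∨ co y = (8, 0) := by
        rcases Nat.eq_zero_or_pos (co y).1 with h4 | h4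
        · exact Or.inl (Prod.ext h4 (by simp only; omega))
        · have : (co y).2 = 0 := by
            by_contra h5
            exact hc ⟨h4, by omega⟩
          exact Or.inr (Prod.ext (by simp only; omega) this)
      rcases hc2 with h4 | h4
      · obtain ⟨u, hu, hcu⟩ := R.chart.low y hy (0, 7) (by rw [h4]; decide) trivial
        exact ⟨u, hu, (R.chart.le_iff y hy u hu).mpr (by rw [h4, hcu]; decide), by
          rw [R.chart.lev u hu, hcu]; rfl, Or.inl ⟨h4, hcu⟩⟩
      · obtain ⟨u, hu, hcu⟩ := R.chart.low y hy (7, 0) (by rw [h4]; decide) trivial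
        exact ⟨u, hu, (R.chart.le_iff y hy u hu).mpr (by rw [h4, hcu]; decide), by
          rw [R.chart.lev u hu, hcu]; rfl, Or.inr ⟨h4, hcu⟩⟩
    obtain ⟨u, hu, hxu, hul, hc⟩ := key x hx hl h3
    obtain ⟨u', hu', hxu', hul', hc'⟩ := key x' hx' hl' h3'
    refine two_le_nab (hzx.1.le.trans hxu) (hzx'.1.le.trans hxu') hul hul' ?_
    rintro rfl
    refine hne (R.chart.inj x hx x' hx' ?_)
    rcases hc with ⟨c1, c2⟩ | ⟨c1, c2⟩ <;> rcases hc' with ⟨c1', c2'⟩ | ⟨c1', c2'⟩
    · rw [c1, c1']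
    · rw [c2] at c2'
      exact absurd c2' (by decide)
    · rw [c2] at c2'
      exact absurd c2' (by decide)
    · rw [c1, c1']
  · intro x hxt hl h0 hu
    exfalso
    have hx := hmem x hxt hl
    have hlc := R.chart.lev x hx
    rcases hth x hx hl with h2 | h2
    · omega
    · have h3 : 1 ≤ (co x).1 ∧ 1 ≤ (co x).2 := by omega
      have := chart_inner_uc R.chart H hx h3.1 h3.2
      omega
  · intro N HN hlow hN θ' B' hθ hB
    refine compL_nat HN hR ?_ ?_ hθ hB 13
    · intro x hx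
      rw [hN, Finset.union_empty] at hx
      exact mem_natR.mpr (Or.inl (R.strip hx))
    · rintro x - ⟨hx, hcx⟩
      rw [hN, Finset.union_empty, mem_lowPart]
      refine ⟨R.chart.le_t x hx, ?_⟩
      rw [R.chart.lev x hx, hcx]
      simp only
      omega
  · exact fun h => absurd h (by norm_num)

end Pool.Agent.GaussPoset.J8

end

/-! From `Pool.Agent.W_448j8_h67.JaI` -/

section

/-!
The components at the window 4, level 8: quadric, `E6`, `E7`, flip word (MP_448cb3_co).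
-/

namespace Pool.Agent.GaussPoset.J8

set_option linter.unusedSectionVars false

open Polynomial Finset Dd Wd Cl

universe u

variable {P : Type u} [Fintype P] [PartialOrder P] [DecidableEq P] {r : ℕ}
variable {t : Tops P} {lo hi : ℕ → ℕ} {e : ℕ → ℕ → P}

/-- the elements above a cell of the last row of a word -/
lemma nab_word {a : ℕ} {w : List Ltr} (D : WordD 8 a w lo hi) (C : Cp.Comp 8 (t : P) lo hi e)
    (h : Win.GoodTo P r 8) {s : ℕ} (h1 : losW a w 8 ≤ s) (h2 : s ≤ hisW a w 8) {l c : ℕ}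
    (hl : l ≤ 8) (hc : (upI (losW a w) (hisW a w) 8 s (8 - l)).2 + 1 -
      (upI (losW a w) (hisW a w) 8 s (8 - l)).1 = c) : nab l (e 8 s) = c := by
  obtain ⟨r1, r2⟩ := D.rows C
  have h3 := nab_upI C h.H h.good t.2 (s := s) (by rw [r1 8 le_rfl]; exact h1)
    (by rw [r2 8 le_rfl]; exact h2) (m := 8 - l) (by omega)
  have h4 : upI lo hi 8 s (8 - l) = upI (losW a w) (hisW a w) 8 s (8 - l) := by
    have := upI_congr (L := losW a w) (H := hisW a w) (lo := lo) (hi := hi) (B := 0)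
      (N := 8) (s := s) (fun n hn => by rw [Nat.zero_add]; exact (r1 n hn).symm)
      (fun n hn => by rw [Nat.zero_add]; exact (r2 n hn).symm) (8 - l) (by omega)
    rw [this]
  rw [h4, hc, show 8 - (8 - l) = l by omega] at h3
  exact h3

/-- two elements of level 8 have two elements of level 7 above them -/
lemma nab7_two (C : Cp.Comp 8 (t : P) lo hi e) (h7 : lo 7 < hi 7) {x x' z : P} (hne : x ≠ x')
    (hxt : x ≤ (t : P)) (hxt' : x' ≤ (t : P)) (hl : lev x = 8) (hl' : lev x' = 8) (hzx : z ≤ x)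
    (hzx' : z ≤ x') : 2 ≤ nab 7 z := by
  obtain ⟨s, s1, s2, hs⟩ := C.surj x hxt hl.le
  obtain ⟨s', s1', s2', hs'⟩ := C.surj x' hxt' hl'.le
  rw [hl] at s1 s2 hs
  rw [hl'] at s1' s2' hs'
  subst hs
  subst hs'
  have hss : s ≠ s' := fun h => hne (by rw [h])
  have a1 := C.lo_step 7 (by norm_num)
  have a2 := C.hi_step 7 (by norm_num)
  norm_num at a1 a2
  have key : ∀ a b : ℕ, a < b → lo 8 ≤ a → b ≤ hi 8 → z ≤ e 8 a → z ≤ e 8 b → 2 ≤ nab 7 z := by
    intro a b hab ha hb hza hzb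
    have ha' : a ≤ hi 8 := by omega
    have hb' : lo 8 ≤ b := by omega
    have c1 := (C.cov 7 a (max (lo 7) (a - 1)) (by norm_num) ha ha' (by omega)
      (by omega)).2 (by omega)
    have c2 := (C.cov 7 b (min (hi 7) b) (by norm_num) hb' hb (by omega)
      (by omega)).2 (by omega)
    refine two_le_nab (hza.trans c1.1.le) (hzb.trans c2.1.le)
      (C.lev_e 7 _ (by norm_num) (by omega) (by omega))
      (C.lev_e 7 _ (by norm_num) (by omega) (by omega)) fun hh => ?_
    have := C.inj 7 _ _ (by norm_num) (by omega) (by omega) (by omega) (by omega) hh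
    omega
  rcases Nat.lt_or_gt_of_ne hss with h | h
  · exact key s s' h s1 s2' hzx hzx'
  · exact key s' s h s1' s2 hzx' hzx

/-- the quadric -/
theorem tdQuad (h : Win.GoodTo P r 8) (C : Cp.Comp 8 (t : P) lo hi e)
    (Q : QRows 8 4 lo hi) : ∃ θ B, TD t (hi 4 - lo 4 + 1) 0 ∅ θ B := by
  classical
  have hQ : QInf 4 4 t := Q.inf (m := 4) C (by norm_num)
  have hup := low_up (t := t) (m := 4) h
  have hN := natTop_quad (by norm_num) (dvd_W_Qd 4) hQ (fun x hx y hxy => hup x y hxy hx)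
  have h4 := Q.at'
  have hb : hi 4 - lo 4 + 1 = 2 := by omega
  have hprof : ∀ x, x ≤ (t : P) → lev x = 8 → Qp x := by
    intro x hx hl
    have hpr := quad_prof hQ hx (by omega) hup (by norm_num)
    have q : ∀ l, 4 ≤ l → l ≤ 8 → nab l x = 1 + Fi.gD (List.replicate 4 0 ++ [1]) (8 - l) := by
      intro l h5 h6
      have := hpr (8 - l) (by omega)
      rw [show 2 * 4 - (8 - l) = l by omega] at this
      exact this
    refine ⟨?_, ?_, ?_, ?_⟩
    · rw [q 4 le_rfl (by norm_num)]; rfl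
    · rw [q 5 (by norm_num) (by norm_num)]; rfl
    · rw [q 6 (by norm_num) (by norm_num)]; rfl
    · rw [q 7 (by norm_num) (by norm_num)]; rfl
  refine ⟨fun _ => 0, fun x => x ∈ lowPart 8 (t : P), ?_⟩
  rw [hb]
  constructor
  · norm_num
  · norm_num
  · exact fun y hy => absurd hy (Finset.notMem_empty _)
  · exact fun y hy => absurd hy (Finset.notMem_empty _)
  · exact fun y hy => absurd hy (Finset.notMem_empty _)
  · exact fun y hy => absurd hy (Finset.notMem_empty _)
  · exact fun x z hxt hl _ _ => Or.inr (Or.inl ⟨rfl, Or.inr (hprof x hxt hl)⟩)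
  · intro x x' z hne hxt hxt' hl hl' _ _ _
    exact absurd (le_antisymm (hQ.bot x hxt (by omega) x' hxt' (by omega))
      (hQ.bot x' hxt' (by omega) x hxt (by omega))) hne
  · exact fun x hxt hl _ _ => Or.inr (hprof x hxt hl)
  · intro N HN hlow hN' θ' B' hθ hB
    refine compL_nat HN hN ?_ ?_ hθ hB 13
    · intro x hx
      rw [hN', Finset.union_empty] at hx
      exact hx
    · intro x hx _
      rw [hN', Finset.union_empty]
      exact hx
  · exact fun h => absurd h (by norm_num)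

lemma E6_rows8 : losW 3 w6 8 = 3 ∧ hisW 3 w6 8 = 3 ∧ losW 3 w6 7 = 2 ∧ hisW 3 w6 7 = 3 ∧
    losW 3 w6 4 = 0 ∧ hisW 3 w6 4 = 1 := by decide +kernel

/-- `E6` -/
theorem tdE6 (h : Win.GoodTo P r 8) (C : Cp.Comp 8 (t : P) lo hi e) (D : WordD 8 3 w6 lo hi) :
    ∃ θ B, TD t (hi 4 - lo 4 + 1) 0 ∅ θ B := by
  classical
  have hN := natTopC_E6_4 D C h.H h.good (by norm_num) (by norm_num)
  obtain ⟨r1, r2⟩ := D.rows C
  obtain ⟨e1, e2, e3, e4, e5, e6⟩ := E6_rows8
  have hb : hi 4 - lo 4 + 1 = 2 := by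
    rw [r1 4 (by norm_num), r2 4 (by norm_num), e5, e6]
  have hcell : ∀ x, x ≤ (t : P) → lev x = 8 → x = e 8 3 := by
    intro x hx hl
    obtain ⟨s, s1, s2, hs⟩ := C.surj x hx hl.le
    rw [hl] at s1 s2 hs
    rw [r1 8 le_rfl, e1] at s1
    rw [r2 8 le_rfl, e2] at s2
    rw [← hs, show s = 3 by omega]
  have hth : thC lo hi e E6t4 (e 8 3) = 1 := by
    rw [thC_e C E6t4 le_rfl (by rw [r1 8 le_rfl, e1]) (by rw [r2 8 le_rfl, e2])]
    decide +kernel
  refine ⟨thC lo hi e E6t4, fun x => x = e 7 3, ?_⟩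
  rw [hb]
  constructor
  · norm_num
  · norm_num
  · exact fun y hy => absurd hy (Finset.notMem_empty _)
  · exact fun y hy => absurd hy (Finset.notMem_empty _)
  · exact fun y hy => absurd hy (Finset.notMem_empty _)
  · exact fun y hy => absurd hy (Finset.notMem_empty _)
  · intro x z hxt hl _ _
    right; right
    rw [hcell x hxt hl]
    refine ⟨hth, Or.inr ⟨?_, ?_⟩⟩
    · exact (nab_word D C h (s := 3) (by rw [e1]) (by rw [e2]) (l := 6) (c := 2) (by norm_num)
        (by decide +kernel)).ge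
    · exact (nab_word D C h (s := 3) (by rw [e1]) (by rw [e2]) (l := 7) (c := 2) (by norm_num)
        (by decide +kernel)).ge
  · intro x x' z hne hxt hxt' hl hl' _ _ _
    exact absurd ((hcell x hxt hl).trans (hcell x' hxt' hl').symm) hne
  · intro x hxt hl h0 _
    rw [hcell x hxt hl, hth] at h0
    exact absurd h0 (by norm_num)
  · intro N HN hlow hN' θ' B' hθ hB
    refine compL_nat HN hN ?_ ?_ hθ hB 13
    · intro x hx
      rw [hN', Finset.union_empty] at hx
      exact hx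
    · intro x hx _
      rw [hN', Finset.union_empty]
      exact hx
  · exact fun h => absurd h (by norm_num)

/-- the own elements below the last cell of level 8 -/
noncomputable def Yw (t : Tops P) (v : P) : Finset P := by
  classical exact univ.filter (fun y => y ⋖ v ∧ ∃ x', x' ≤ (t : P) ∧ x' ≠ v ∧ y ⋖ x')

lemma mem_Yw {v y : P} : y ∈ Yw t v ↔ y ⋖ v ∧ ∃ x', x' ≤ (t : P) ∧ x' ≠ v ∧ y ⋖ x' := by
  classical
  unfold Yw
  simp

/-- the thresholds of `E7` and of the flip word -/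
noncomputable def thW (Y : Finset P) (v x : P) : ℕ := by
  classical exact if x ∈ Y ∨ (lev x = 8 ∧ x ≠ v) then 1 else 0

/-- common part of `E7` and of the flip word -/
theorem tdWord (h : Win.GoodTo P r 8) (C : Cp.Comp 8 (t : P) lo hi e) {w : ℕ} (hw : w ≤ 1)
    (h48 : lo 8 ≤ 4) (h48' : hi 8 = 4) (h7 : lo 7 < hi 7)
    {w1 w2 : P} (hw1 : w1 ≤ (t : P)) (hw2 : w2 ≤ (t : P))
    (hY : ∀ y x', y ⋖ e 8 4 → x' ≤ (t : P) → lev x' = 8 → x' ≠ e 8 4 → y ⋖ x' →
      x' = w1 ∨ x' = w2)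
    (hq : Qp (e 8 4)) (hoth : ∀ s, lo 8 ≤ s → s < 4 → Dp (e 8 s) ∨
      (2 ≤ nab 6 (e 8 s) ∧ 2 ≤ nab 7 (e 8 s)))
    (hlowU : ∀ Y, Add (e 8 4) w1 w2 Y → ∀ U : Finset P,
      (∀ x ∈ U, x ∈ lowPart 8 (t : P) ∨ x ∈ Y) → (∀ x ∈ U, ∀ y, x ≤ y → y ∈ U) →
      (∀ x ∈ lowPart 8 (t : P), lev x ≤ 4 → x ∈ U) → e 8 4 ∈ U →
      ∀ n < 13 - w, (1 + X : ℤ[X]) ^ 2 ∣ Z {x : P // x ∈ U} 4 n)
    (hfull : w = 1 → ∀ Y, Add (e 8 4) w1 w2 Y → ∀ U : Finset P,
      (∀ x, x ∈ U ↔ x ∈ lowPart 8 (t : P) ∨ x ∈ Y) → ∀ f : Polynomial (PowerSeries ℤ),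
      (∀ n, exq n f = Z {x : P // x ∈ U} 4 n) → Pl 12 2 1 f) :
    TD t 2 w (Yw t (e 8 4)) (thW (Yw t (e 8 4)) (e 8 4)) (fun x => x = e 8 4) := by
  classical
  have H := h.H
  have hv8 : lev (e 8 4) = 8 := C.lev_e 8 4 le_rfl h48 h48'.ge
  have hvt : e 8 4 ≤ (t : P) := C.le_t 8 4 le_rfl h48 h48'.ge
  have hcov8 : ∀ {y v : P}, lev y = 9 → y ⋖ v → lev v = 8 := by
    intro y v hy hyv
    have := (H.covBy_iff.mp hyv).2
    omega
  have hY9 : ∀ y ∈ Yw t (e 8 4), lev y = 9 := by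
    intro y hy
    have := (H.covBy_iff.mp (mem_Yw.mp hy).1).2
    omega
  have hpair : ∀ {y a b v : P}, y ⋖ a → y ⋖ b → a ≠ b → y ⋖ v → v = a ∨ v = b := by
    intro y a b v h1 h2 h3 h4
    exact uc_pair H h1 h2 h3 h4
  have hAdd : Add (e 8 4) w1 w2 (Yw t (e 8 4)) := by
    refine ⟨?_, hY9, ?_⟩
    · refine (Finset.card_le_card (t := Win.dc (e 8 4)) fun y hy => ?_).trans
        (Win.dc_card_le H _)
      rw [Win.mem_dc]
      exact (mem_Yw.mp hy).1
    · intro y hy
      obtain ⟨h1, x', h2, h3, h4⟩ := mem_Yw.mp hy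
      have hy9 := hY9 y hy
      have h5 := hY y x' h1 h2 (hcov8 hy9 h4) h3 h4
      have h6 : ∀ v, y ⋖ v ↔ v = e 8 4 ∨ v = x' := fun v => by
        constructor
        · exact hpair h1 h4 (Ne.symm h3)
        · rintro (h | h)
          · rw [h]; exact h1
          · rw [h]; exact h4
      rcases h5 with h5 | h5
      · left; rw [← h5]; exact h6
      · right; rw [← h5]; exact h6
  have hth0 : ∀ x, lev x = 8 → (thW (Yw t (e 8 4)) (e 8 4) x = 0 ↔ x = e 8 4) := by
    intro x hl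
    unfold thW
    split_ifs with hc
    · constructor
      · intro h0; exact absurd h0 (by norm_num)
      · rintro rfl
        rcases hc with hc | hc
        · have := hY9 _ hc; omega
        · exact absurd rfl hc.2
    · refine ⟨fun _ => ?_, fun _ => rfl⟩
      by_contra hne
      exact hc (Or.inr ⟨hl, hne⟩)
  have hth1 : ∀ x, thW (Yw t (e 8 4)) (e 8 4) x ≤ 1 := by
    intro x
    unfold thW
    split_ifs <;> norm_num
  have hcell : ∀ x, x ≤ (t : P) → lev x = 8 → ∃ s, lo 8 ≤ s ∧ s ≤ 4 ∧ x = e 8 s := by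
    intro x hx hl
    obtain ⟨s, s1, s2, hs⟩ := C.surj x hx hl.le
    rw [hl] at s1 s2 hs
    exact ⟨s, s1, by omega, hs.symm⟩
  -- the natural set
  have hNt : ∀ N : Tops P → Finset P, N t = lowPart 8 (t : P) ∪ Yw t (e 8 4) →
      ∀ x, x ∈ N t ↔ x ∈ lowPart 8 (t : P) ∨ x ∈ Yw t (e 8 4) := by
    intro N hN x
    rw [hN, mem_union]
  have hvN : ∀ N : Tops P → Finset P, N t = lowPart 8 (t : P) ∪ Yw t (e 8 4) → e 8 4 ∈ N t := by
    intro N hN
    rw [hN, mem_union, mem_lowPart]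
    exact Or.inl ⟨hvt, hv8.le⟩
  constructor
  · norm_num
  · exact hw
  · exact hY9
  · intro y hy v hyv
    obtain ⟨h1, x', h2, h3, h4⟩ := mem_Yw.mp hy
    rcases hpair h1 h4 (Ne.symm h3) hyv with h | h
    · rw [h]; exact hvt
    · rw [h]; exact h2
  · intro y hy
    unfold thW
    rw [if_pos (Or.inl hy)]
  · intro y hy
    obtain ⟨h1, x', h2, h3, h4⟩ := mem_Yw.mp hy
    exact two_le_nab h1.1.le h4.1.le hv8 (hcov8 (hY9 y hy) h4) (Ne.symm h3)
  · intro x z hxt hl _ _
    right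
    obtain ⟨s, s1, s2, rfl⟩ := hcell x hxt hl
    rcases Nat.lt_or_ge s 4 with h4 | h4
    · right
      have h5 : thW (Yw t (e 8 4)) (e 8 4) (e 8 s) ≠ 0 := by
        intro h0
        have := (hth0 _ hl).mp h0
        have := C.inj 8 s 4 le_rfl s1 (by omega) h48 (by omega) this
        omega
      have := hth1 (e 8 s)
      exact ⟨by omega, hoth s s1 h4⟩
    · left
      obtain rfl : s = 4 := by omega
      exact ⟨(hth0 _ hl).mpr rfl, Or.inr hq⟩
  · intro x x' z hne hxt hxt' hl hl' hzx hzx' hzY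
    right; left
    have h1 : x ≠ e 8 4 := by
      rintro rfl
      exact hzY (mem_Yw.mpr ⟨hzx, x', hxt', Ne.symm hne, hzx'⟩)
    have h2 : x' ≠ e 8 4 := by
      rintro rfl
      exact hzY (mem_Yw.mpr ⟨hzx', x, hxt, hne, hzx⟩)
    have h3 : thW (Yw t (e 8 4)) (e 8 4) x ≠ 0 := fun h0 => h1 ((hth0 x hl).mp h0)
    have h4 : thW (Yw t (e 8 4)) (e 8 4) x' ≠ 0 := fun h0 => h2 ((hth0 x' hl').mp h0)
    exact ⟨by omega, by omega, nab7_two C h7 hne hxt hxt' hl hl' hzx.1.le hzx'.1.le⟩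
  · intro x hxt hl h0 _
    rw [(hth0 x hl).mp h0]
    exact Or.inr hq
  · intro N HN hlow hN θ' B' hθ hB
    have hm := hNt N hN
    have hmem : ∀ {x}, x ∉ unnat N → topOf x = t → x ∈ N t := fun {x} h1 h2 =>
      HN.mem_iff.mpr ⟨h1, h2⟩
    have hpos : ∀ x ∈ N t, 1 ≤ θ' x → 8 ≤ lev x ∧ x ≠ e 8 4 := by
      intro x hx h1
      rw [hθ x hx] at h1
      unfold thW at h1
      split_ifs at h1 with hc
      · rcases hc with hc | hc
        · have := hY9 x hc
          refine ⟨by omega, ?_⟩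
          rintro rfl
          omega
        · exact ⟨hc.1.ge, hc.2⟩
      · omega
    constructor
    · intro E hE hdec n hn
      let U : Finset P := (N t).filter (fun x => x ∉ E)
      have hU : ∀ x, x ∈ U ↔ x ∈ N t ∧ x ∉ E := fun x => by simp [U]
      have hiso : {x : P // x ∈ U} ≃o {x : {x : P // x ∉ E} // topOf (x : P) = t} :=
        { toFun := fun x => ⟨⟨x, ((hU x).mp x.2).2⟩, HN.topOf_eq ((hU x).mp x.2).1⟩
          invFun := fun x => ⟨x.1.1, (hU _).mpr ⟨hmem (fun h => x.1.2 (hE.2.1 h)) x.2, x.1.2⟩⟩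
          left_inv := fun x => rfl
          right_inv := fun x => rfl
          map_rel_iff' := Iff.rfl }
      rw [← Z_iso hiso]
      refine hlowU _ hAdd U (fun x hx => (hm x).mp ((hU x).mp hx).1) ?_ ?_ ?_ n hn
      · intro x hx y hxy
        rw [hU] at hx ⊢
        exact ⟨HN.up t x hx.1 y hxy, fun h => hx.2 (hE.1 x y hxy h)⟩
      · intro x hx hl
        rw [hU]
        exact ⟨(hm x).mpr (Or.inl hx), fun h => by have := hE.2.2.1 x h; omega⟩
      · rw [hU]
        exact ⟨hvN N hN, fun h => hE.2.2.2 _ h ((hB _ (hvN N hN)).mpr rfl)⟩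
    · intro x hx hk h1
      have := (hpos x (hmem hx hk) h1).1
      omega
    · intro x hx hk h1 y hyx hy hBy
      obtain ⟨h2, h3⟩ := hpos x (hmem hx hk) h1
      have h4 := (hB y (hmem hy ((HN.cp y x hyx hy).trans hk))).mp hBy
      subst h4
      rcases eq_or_lt_of_le hyx with h5 | h5
      · exact h3 h5.symm
      · have := lev_strictAnti h5
        omega
    · intro x hx hk _ _ _ _ _ _ _ _
      rw [hθ x (hmem hx hk)]
      have := hth1 x
      omega
    · intro x hx hk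
      rcases Nat.eq_zero_or_pos (θ' x) with h1 | h1
      · omega
      · have h2 := (hpos x (hmem hx hk) h1).1
        rw [hθ x (hmem hx hk)]
        have := hth1 x
        omega
  · intro hw1' N HN hN f hf
    refine hfull hw1' _ hAdd (N t) (hNt N hN) f fun n => ?_
    rw [hf n]
    have hiso : {x : P // x ∈ N t} ≃o {x : {x : P // x ∉ unnat N} // topOf (x : P) = t} :=
      { toFun := fun x => ⟨⟨x, (HN.mem_iff.mp x.2).1⟩, HN.topOf_eq x.2⟩
        invFun := fun x => ⟨x.1.1, HN.mem_iff.mpr ⟨x.1.2, x.2⟩⟩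
        left_inv := fun x => rfl
        right_inv := fun x => rfl
        map_rel_iff' := Iff.rfl }
    rw [Z_iso hiso]

end Pool.Agent.GaussPoset.J8

end

/-! From `Pool.Agent.W_448j8_h67.JaJ` -/

section

/-!
The components at the window 4, level 8: `E7` and flip word, stair-like components
(MP_448cb3_co).
-/

namespace Pool.Agent.GaussPoset.J8

set_option linter.unusedSectionVars false

open Polynomial Finset Dd Wd Cl

universe u

variable {P : Type u} [Fintype P] [PartialOrder P] [DecidableEq P] {r : ℕ}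
variable {t : Tops P} {lo hi : ℕ → ℕ} {e : ℕ → ℕ → P}

lemma E7_rows8 : losW 4 w7 8 = 2 ∧ hisW 4 w7 8 = 4 ∧ losW 4 w7 7 = 2 ∧ hisW 4 w7 7 = 3 ∧
    losW 4 w7 4 = 0 ∧ hisW 4 w7 4 = 1 := by decide +kernel

lemma W8_rows8 : losW 4 w8 8 = 1 ∧ hisW 4 w8 8 = 4 ∧ losW 4 w8 7 = 1 ∧ hisW 4 w8 7 = 3 ∧
    losW 4 w8 4 = 0 ∧ hisW 4 w8 4 = 1 := by decide +kernel

/-- `E7` -/
theorem tdE7 (h : Win.GoodTo P r 8) (C : Cp.Comp 8 (t : P) lo hi e) (D : WordD 8 4 w7 lo hi) :
    ∃ Y θ B, TD t (hi 4 - lo 4 + 1) 0 Y θ B := by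
  obtain ⟨r1, r2⟩ := D.rows C
  obtain ⟨e1, e2, e3, e4, e5, e6⟩ := E7_rows8
  have l8 : lo 8 = 2 := by rw [r1 8 le_rfl, e1]
  have u8 : hi 8 = 4 := by rw [r2 8 le_rfl, e2]
  have l7 : lo 7 = 2 := by rw [r1 7 (by norm_num), e3]
  have u7 : hi 7 = 3 := by rw [r2 7 (by norm_num), e4]
  have hb : hi 4 - lo 4 + 1 = 2 := by
    rw [r1 4 (by norm_num), r2 4 (by norm_num), e5, e6]
  rw [hb]
  refine ⟨_, _, _, tdWord (w := 0) (w1 := e 8 3) (w2 := e 8 2) h C (by norm_num) (by omega) u8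
    (by omega) (C.le_t 8 3 le_rfl (by omega) (by omega)) (C.le_t 8 2 le_rfl (by omega)
    (by omega)) ?_ ?_ ?_ ?_ (fun h => absurd h (by norm_num))⟩
  · intro y x' _ hx' hl' hne _
    obtain ⟨s, s1, s2, hs⟩ := C.surj x' hx' hl'.le
    rw [hl'] at s1 s2 hs
    have h3 : s ≠ 4 := by
      rintro rfl
      exact hne hs.symm
    rcases (show s = 3 ∨ s = 2 by omega) with h4 | h4
    · left; rw [← hs, h4]
    · right; rw [← hs, h4]
  · have q : ∀ l c, l ≤ 8 → (upI (losW 4 w7) (hisW 4 w7) 8 4 (8 - l)).2 + 1 -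
        (upI (losW 4 w7) (hisW 4 w7) 8 4 (8 - l)).1 = c → nab l (e 8 4) = c := fun l c hl hc =>
      nab_word D C h (by rw [e1]; norm_num) (by rw [e2]) hl hc
    exact ⟨q 4 2 (by norm_num) (by decide +kernel), q 5 1 (by norm_num) (by decide +kernel),
      q 6 1 (by norm_num) (by decide +kernel), q 7 1 (by norm_num) (by decide +kernel)⟩
  · intro s hs hs4
    rcases (show s = 2 ∨ s = 3 by omega) with rfl | rfl
    · left
      have q : ∀ l c, l ≤ 8 → (upI (losW 4 w7) (hisW 4 w7) 8 2 (8 - l)).2 + 1 -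
          (upI (losW 4 w7) (hisW 4 w7) 8 2 (8 - l)).1 = c → nab l (e 8 2) = c :=
        fun l c hl hc => nab_word D C h (by rw [e1]) (by rw [e2]; norm_num) hl hc
      exact ⟨q 4 2 (by norm_num) (by decide +kernel), q 5 2 (by norm_num) (by decide +kernel),
        q 6 2 (by norm_num) (by decide +kernel), q 7 1 (by norm_num) (by decide +kernel)⟩
    · right
      have q : ∀ l c, l ≤ 8 → (upI (losW 4 w7) (hisW 4 w7) 8 3 (8 - l)).2 + 1 -
          (upI (losW 4 w7) (hisW 4 w7) 8 3 (8 - l)).1 = c → nab l (e 8 3) = c :=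
        fun l c hl hc => nab_word D C h (by rw [e1]; norm_num) (by rw [e2]; norm_num) hl hc
      exact ⟨(q 6 2 (by norm_num) (by decide +kernel)).ge,
        (q 7 2 (by norm_num) (by decide +kernel)).ge⟩
  · intro Y hY U hU hup hlow hbase
    exact e7_low D C h.H h.good t.2 hY hU hup hlow hbase

/-- the flip word -/
theorem tdW8 (h : Win.GoodTo P r 8) (C : Cp.Comp 8 (t : P) lo hi e) (D : WordD 8 4 w8 lo hi) :
    ∃ Y θ B, TD t (hi 4 - lo 4 + 1) 1 Y θ B := by
  classical
  obtain ⟨r1, r2⟩ := D.rows C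
  obtain ⟨e1, e2, e3, e4, e5, e6⟩ := W8_rows8
  have l8 : lo 8 = 1 := by rw [r1 8 le_rfl, e1]
  have u8 : hi 8 = 4 := by rw [r2 8 le_rfl, e2]
  have l7 : lo 7 = 1 := by rw [r1 7 (by norm_num), e3]
  have u7 : hi 7 = 3 := by rw [r2 7 (by norm_num), e4]
  have hb : hi 4 - lo 4 + 1 = 2 := by
    rw [r1 4 (by norm_num), r2 4 (by norm_num), e5, e6]
  rw [hb]
  have q : ∀ s l c, 1 ≤ s → s ≤ 4 → l ≤ 8 → (upI (losW 4 w8) (hisW 4 w8) 8 s (8 - l)).2 + 1 -
      (upI (losW 4 w8) (hisW 4 w8) 8 s (8 - l)).1 = c → nab l (e 8 s) = c :=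
    fun s l c h1 h2 hl hc => nab_word D C h (by rw [e1]; exact h1) (by rw [e2]; exact h2) hl hc
  refine ⟨_, _, _, tdWord (w := 1) (w1 := e 8 3) (w2 := e 8 1) h C (by norm_num) (by omega) u8
    (by omega) (C.le_t 8 3 le_rfl (by omega) (by omega)) (C.le_t 8 1 le_rfl (by omega)
    (by omega)) ?_ ?_ ?_ ?_ ?_⟩
  · intro y x' hy hx' hl' hne hyx'
    obtain ⟨s, s1, s2, hs⟩ := C.surj x' hx' hl'.le
    rw [hl'] at s1 s2 hs
    have h3 : s ≠ 4 := by
      rintro rfl
      exact hne hs.symm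
    have h5 : s ≠ 2 := by
      rintro rfl
      have hly : lev y = 7 + 2 := by
        have := (h.H.covBy_iff.mp hyx').2
        omega
      rcases (Win.near_level' (i := 7) h (by norm_num)).1 y (e 8 4) x' hly hy hyx'
        (Ne.symm hne) with h6 | ⟨-, h6, -⟩
      · obtain ⟨u, hu1, hu2⟩ := Win.exists_of_ucv (v := e 8 4) (v' := x')
          (by rw [h6]; exact one_pos)
        have hut : u ≤ (t : P) := Cp.up_le h.H h.good t.2 hx' hl'.le hu2.1.le
        have hul : lev u = 7 := by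
          have := (h.H.covBy_iff.mp hu2).2
          omega
        obtain ⟨s', s1', s2', hs'⟩ := C.surj u hut (by omega)
        rw [hul] at s1' s2' hs'
        rw [← hs'] at hu1 hu2
        rw [← hs] at hu2
        have c1 := (C.cov 7 4 s' (by norm_num) (by show lo 8 ≤ 4; omega)
          (by show 4 ≤ hi 8; omega) s1' s2').1 hu1
        have c2 := (C.cov 7 2 s' (by norm_num) (by show lo 8 ≤ 2; omega)
          (by show 2 ≤ hi 8; omega) s1' s2').1 hu2
        omega
      · have h7 := uc_card_nab h.H (x := x') (by omega)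
        rw [hl', ← hs, q 2 7 2 (by norm_num) (by norm_num) (by norm_num)
          (by decide +kernel)] at h7
        rw [← hs, h7] at h6
        exact absurd h6 (by norm_num)
    rcases (show s = 3 ∨ s = 1 by omega) with h4 | h4
    · left; rw [← hs, h4]
    · right; rw [← hs, h4]
  · exact ⟨q 4 4 2 (by norm_num) le_rfl (by norm_num) (by decide +kernel),
      q 4 5 1 (by norm_num) le_rfl (by norm_num) (by decide +kernel),
      q 4 6 1 (by norm_num) le_rfl (by norm_num) (by decide +kernel),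
      q 4 7 1 (by norm_num) le_rfl (by norm_num) (by decide +kernel)⟩
  · intro s hs hs4
    rcases (show s = 1 ∨ s = 2 ∨ s = 3 by omega) with rfl | rfl | rfl
    · left
      exact ⟨q 1 4 2 le_rfl (by norm_num) (by norm_num) (by decide +kernel),
        q 1 5 2 le_rfl (by norm_num) (by norm_num) (by decide +kernel),
        q 1 6 2 le_rfl (by norm_num) (by norm_num) (by decide +kernel),
        q 1 7 1 le_rfl (by norm_num) (by norm_num) (by decide +kernel)⟩
    · right
      exact ⟨(by norm_num : 2 ≤ 3).trans (q 2 6 3 (by norm_num) (by norm_num) (by norm_num)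
        (by decide +kernel)).ge,
        (q 2 7 2 (by norm_num) (by norm_num) (by norm_num) (by decide +kernel)).ge⟩
    · right
      exact ⟨(q 3 6 2 (by norm_num) (by norm_num) (by norm_num) (by decide +kernel)).ge,
        (q 3 7 2 (by norm_num) (by norm_num) (by norm_num) (by decide +kernel)).ge⟩
  · intro Y hY U hU hup hlow hbase
    exact w8_low D C h.H h.good t.2 hY hU hup hlow hbase
  · intro _ Y hY U hU f hf
    exact w8_full D C h.H h.good t.2 hY hU hf

/-- sums above an element of level 9 with a cover with the profile of the fold end -/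
lemma fold_sum {y1 F : P} (hyF : y1 < F) (hlF : lev F = 8) (h5 : nab 5 F = 2)
    (h6 : nab 6 F = 2) (h7 : nab 7 F = 1) :
    (13 ≤ ∑ y, (by classical exact if y1 ≤ y then lev y - 4 else 0)) ∧
    (10 ≤ ∑ y, (by classical exact if y1 < y then min (1 + 1) (lev y - 4) else 0)) := by
  classical
  have h8 : nab 8 F = 1 := by
    have := nab_self (z := F)
    rwa [hlF] at this
  have c5 : cst 4 (fun _ => 5) F = 13 := by
    rw [cst_eq, hlF]
    simp only [Finset.sum_range_succ, Finset.sum_range_zero, h5, h6, h7, h8]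
    norm_num
  have c2 : cst 4 (fun _ => 2) F = 10 := by
    rw [cst_eq, hlF]
    simp only [Finset.sum_range_succ, Finset.sum_range_zero, h5, h6, h7, h8]
    norm_num
  constructor
  · rw [← c5]
    unfold cst ez
    refine Finset.sum_le_sum fun y _ => ?_
    split_ifs with a b b
    · exact min_le_right _ _
    · exact absurd (hyF.le.trans a) b
    · exact Nat.zero_le _
    · exact Nat.zero_le _
  · rw [← c2]
    unfold cst ez
    refine Finset.sum_le_sum fun y _ => ?_
    split_ifs with a b b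
    · exact le_rfl
    · exact absurd (hyF.trans_le a) b
    · exact Nat.zero_le _
    · exact Nat.zero_le _

end Pool.Agent.GaussPoset.J8

end
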