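import Mathlib
import Pool.Agent.W_448zz_h61.Ns
import Pool.Agent.W_448zz_h61.M100
import Pool.Agent.W_448zz_h61.M122
import Pool.Agent.W_448zz_h61.M128
import Pool.Agent.W_448zz_h61.M183

/-! From `Pool.Agent.W_448fc_h67.FcW` -/

section

/-!
Case B: from the strips to the context; there are no (C) elements.
-/

namespace Pool.Agent.GaussPoset

set_option linter.unusedSectionVars false

open Polynomial Finset

universe u

variable {P : Type u} [Fintype P] [PartialOrder P] [DecidableEq P] {r m K : ℕ}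

open Cp

lemma KapS.mono {K' : ℕ} (h : KapS m K) (hK : K' ≤ K) : KapS m K' := fun s c h1 h2 h3 =>
  hK.trans (h s c h1 h2 h3)

lemma kapS_of {f : ℕ → Bool} (h : ∀ s, 1 ≤ s → s ≤ m → f s = true)
    (hf : ∀ s, f s = decide (K ≤ ((s - 2 * (m / 2)) + ((2 * m + 1 - s) - m) + 1) +
      ∑ a ∈ range (s + 1),
      rowW true (fun k => min ((s - 2 * (m / 2)) + ((2 * m + 1 - s) - m) + 1) (k - m))
        (2 * m + 1 - s) (2 * m + 1) a)) : KapS m K := by
  intro s c h1 h2 h3
  obtain rfl : c = 2 * m + 1 - s := by omega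
  have h4 := h s h1 h2
  rw [hf] at h4
  exact of_decide_eq_true h4

lemma kapS_small2 : KapS 2 8 := kapS_of (f := fun s => decide _)
  (by intro s h1 h2; interval_cases s <;> decide +kernel) (fun _ => rfl)
lemma kapS_small4 : KapS 4 14 := kapS_of (f := fun s => decide _)
  (by intro s h1 h2; interval_cases s <;> decide +kernel) (fun _ => rfl)
lemma kapS_small5 : KapS 5 32 := kapS_of (f := fun s => decide _)
  (by intro s h1 h2; interval_cases s <;> decide +kernel) (fun _ => rfl)
lemma kapS_small6 : KapS 6 22 := kapS_of (f := fun s => decide _)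
  (by intro s h1 h2; interval_cases s <;> decide +kernel) (fun _ => rfl)
lemma kapS_small7 : KapS 7 49 := kapS_of (f := fun s => decide _)
  (by intro s h1 h2; interval_cases s <;> decide +kernel) (fun _ => rfl)
lemma kapS_small8 : KapS 8 32 := kapS_of (f := fun s => decide _)
  (by intro s h1 h2; interval_cases s <;> decide +kernel) (fun _ => rfl)
lemma kapS_small9 : KapS 9 70 := kapS_of (f := fun s => decide _)
  (by intro s h1 h2; interval_cases s <;> decide +kernel) (fun _ => rfl)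

/-- the energy bound -/
def Ke (m : ℕ) : ℕ := E0 m + hh m ^ 2 + 2

lemma Ke_even (q : ℕ) : Ke (2 * q) = q * q + 3 * q + 4 := by
  unfold Ke
  rw [E0_even, hh_even]
  ring

lemma Ke_odd (q : ℕ) : Ke (2 * q + 1) = 2 * q * q + 7 * q + 10 := by
  unfold Ke
  rw [E0_odd, hh_odd]
  norm_num

theorem kapS_Ke (h2 : 2 ≤ m) (h3 : m ≠ 3) : KapS m (Ke m) := by
  rcases Nat.lt_or_ge m 10 with h | h
  · obtain rfl | rfl | rfl | rfl | rfl | rfl | rfl : m = 2 ∨ m = 4 ∨ m = 5 ∨ m = 6 ∨ m = 7 ∨
      m = 8 ∨ m = 9 := by omega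
    · rw [show Ke 2 = 8 from Ke_even 1]; exact kapS_small2
    · rw [show Ke 4 = 14 from Ke_even 2]; exact kapS_small4
    · rw [show Ke 5 = 32 from Ke_odd 2]; exact kapS_small5
    · rw [show Ke 6 = 22 from Ke_even 3]; exact kapS_small6
    · rw [show Ke 7 = 49 from Ke_odd 3]; exact kapS_small7
    · rw [show Ke 8 = 32 from Ke_even 4]; exact kapS_small8
    · rw [show Ke 9 = 70 from Ke_odd 4]; exact kapS_small9
  · refine (kapS_Kb (by omega)).mono ?_
    obtain ⟨q, hq | hq⟩ := Nat.even_or_odd' m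
    · subst hq
      rw [Kb_even, Ke_even]
      have : 5 ≤ q := by omega
      nlinarith
    · subst hq
      rw [Kb_odd, Ke_odd]
      have : 5 ≤ q := by omega
      nlinarith

lemma Ke_le (h2 : 2 ≤ m) (h3 : m ≠ 3) : Ke m ≤ (m + 1) ^ 2 := by
  obtain ⟨q, hq | hq⟩ := Nat.even_or_odd' m
  · subst hq
    rw [Ke_even]
    have : 1 ≤ q := by omega
    nlinarith
  · subst hq
    rw [Ke_odd]
    have : 2 ≤ q := by omega
    nlinarith

/-- the types of one component -/
inductive TyL (m K : ℕ) (t : Tops P) (b : ℕ) (N : Finset P) (θ : P → ℕ) : Prop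
  | light (h1 : N = onlyB t) (h2 : θ = fun x => lev x - m) (h3 : b = 1)
      (h6 : ∃ x ≤ (t : P), lev x = m)
  | rect (Nc : Finset P) (co : P → ℕ × ℕ) (h0 : RectNat (2 * m) m t b Nc co)
      (h1 : N = natR Nc co) (h2 : θ = thR m b Nc co) (h3 : NopT m t)
  | stair (Nc : Finset P) (co : P → ℕ × ℕ) (h0 : StairNat (2 * m) m t Nc co)
      (h1 : N = natS Nc co) (h2 : θ = thS m Nc co) (h3 : b = m / 2 + 1) (h4 : NopT m t)
  | quad (h1 : N = lowPart (2 * m) (t : P)) (h2 : θ = fun _ => 0) (h3 : b = 2)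
      (h4 : QInf m m t) (h5 : 4 ≤ m)
  | oth (h1 : ∃ B, NatTop m t b N θ B) (h2 : lowPart (2 * m) (t : P) ⊆ N)
      (h3 : ∀ z, z ∉ N → ∀ x ∈ N, z ⋖ x → K ≤ ct m (θ x + 1) z)
      (h4 : ∀ z, z ∉ N → ∀ x ∈ N, lev z = 2 * m + 1 → ¬ ∀ w, x < w ↔ z < w)

lemma TyL.tyG {N : Tops P → Finset P} {t : Tops P} {b : ℕ} {θ : P → ℕ}
    (h : TyL m K t b (N t) θ) : TyG m K N t b θ := by
  rcases h with ⟨h1, h2, h3, h6⟩ | ⟨Nc, co, h0, h1, h2, h3⟩ | ⟨Nc, co, h0, h1, h2, h3, h4⟩ |
    ⟨h1, h2, h3, h4, h5⟩ | ⟨h1, h2, h3, h4⟩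
  · exact TyG.light h1 h2 h3 h6
  · exact TyG.rect Nc co h0 h1 h2 h3
  · exact TyG.stair Nc co h0 h1 h2 h3 h4
  · exact TyG.quad h1 h2 h3 h4 h5
  · exact TyG.oth h1 h2 (fun z hz x hx hzx => h3 z (mem_unnat.mp hz t) x hx hzx)
      (fun z hz x hx hl => h4 z (mem_unnat.mp hz t) x hx hl)

section One

variable {t : Tops P} {lo hi : ℕ → ℕ} {e : ℕ → ℕ → P}

/-- the type of a strip -/
theorem tyL_shape (h : Win.GoodTo P r (2 * m)) (hm : 2 ≤ m) (hm3 : m ≠ 3)
    (C : Comp (2 * m) (t : P) lo hi e) (hS : Wd.Shape (2 * m) lo hi)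
    (hO : ∀ a, a ≤ m → Wd.LateD (2 * m) a lo hi → Wd.word lo hi a (2 * m - a) ∈ Wd.lateW a →
      ∃ N θ, TyL m K t (hi m - lo m + 1) N θ) :
    ∃ N θ, TyL m K t (hi m - lo m + 1) N θ ∧
      (StairShape (2 * m) lo hi → StairInfo m t lo hi e N θ) := by
  have H := h.H
  have hg := h.good
  by_cases S : StairShape (2 * m) lo hi
  · obtain ⟨Nc, co, h1, h1'⟩ := exists_stair C H hg H.gradedBelow S (i := m) le_rfl
    have hnop : NopT m t := by
      intro x z hxt hxl hx2 hzx honly
      obtain ⟨j, hj⟩ : ∃ j, 2 * m = j + 1 := ⟨2 * m - 1, by omega⟩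
      have h2 := stairShape_pendant (i := j) (hj ▸ h) (by omega) t.2 (hj ▸ C) (hj ▸ S)
        (hxl.trans hj) hxt hx2 hzx honly
      have h3 := cell_lev C (x := x) hxt (by omega)
      omega
    refine ⟨_, _, TyL.stair Nc co h1 rfl rfl ?_ hnop, fun _ => ⟨Nc, co, h1, rfl, rfl, hnop, h1'⟩⟩
    have e1 := S.hi m (by omega)
    have e2 := stair_lo C S
    omega
  · suffices hs : ∃ N θ, TyL m K t (hi m - lo m + 1) N θ by
      obtain ⟨N, θ, h1⟩ := hs
      exact ⟨N, θ, h1, fun h2 => absurd h2 S⟩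
    rcases hS with h1 | ⟨h1, S'⟩ | ⟨h1, h2⟩ | ⟨h1, h2, h3⟩ | ⟨h1, h2⟩ | ⟨a, h0, h1, h2, h3, hN, h4⟩
    · have e1 := h1 m (by omega)
      exact ⟨_, _, TyL.light rfl rfl (by omega)
        ⟨e m (lo m), C.le_t m (lo m) (by omega) le_rfl (C.lo_le m (by omega)),
          C.lev_e m (lo m) (by omega) le_rfl (C.lo_le m (by omega))⟩⟩
    · have hlt : lo m < hi m := by
        have g1 := C.lo_mono (l := 1) (d := m - 1) (by omega)
        have g2 := C.hi_mono (l := 1) (d := m - 1) (by omega)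
        rw [show 1 + (m - 1) = m by omega] at g1 g2
        by_contra hcon
        have g3 := C.lo_le m (by omega)
        have g4 := shape_lo C S'.lo (l := m) (by omega) m (by omega)
        have g5 := shape_hi C S'.hi (l := m) (by omega) m (by omega)
        have g6 := C.lo_le (m + m) (by omega)
        omega
      obtain ⟨Nc, co, h2, -⟩ := exists_rect C H hg H.gradedBelow S' (i := m) le_rfl hlt
      refine ⟨_, _, TyL.rect Nc co h2 rfl rfl ?_⟩
      intro x z hxt hxl hx2 hzx honly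
      obtain ⟨j, hj⟩ : ∃ j, 2 * m = j + 1 := ⟨2 * m - 1, by omega⟩
      exact rectShape_no_pendant (i := j) (hj ▸ h) (by omega) t.2 (hj ▸ C) (hj ▸ S')
        (hxl.trans hj) hxt hx2 hzx honly
    · exact absurd h2 S
    · omega
    · omega
    · have D : Wd.LateD (2 * m) a lo hi := ⟨h0, h1, h2, h3, h4⟩
      rcases Nat.lt_or_ge m a with hma | hma
      · have e1 := D.h2 m hma
        exact ⟨_, _, TyL.light rfl rfl (by omega)
          ⟨e m (lo m), C.le_t m (lo m) (by omega) le_rfl (C.lo_le m (by omega)),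
            C.lev_e m (lo m) (by omega) le_rfl (C.lo_le m (by omega))⟩⟩
      · rcases h4 with ⟨⟨g1, g2⟩, g3⟩ | g3
        · have hq := D.quad C g3
          obtain rfl : a = m := by omega
          have Q : QRows (2 * a) a lo hi := ⟨D.h2, D.h3, by
            intro k hk hk2
            have := hq (k - a) (by omega) (by omega)
            rwa [show a + (k - a) = k by omega] at this⟩
          have e1 := D.h3
          exact ⟨_, _, TyL.quad rfl rfl (by omega) (Q.inf C (by omega)) (by omega)⟩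
        · exact hO a hma D g3

end One

section All

variable {lo hi : Tops P → ℕ → ℕ} {e : Tops P → ℕ → ℕ → P}

/-- case B: the context -/
theorem exists_WG (hm : 2 ≤ m) (h : Win.GoodTo P r (2 * m)) (hK : KapS m K)
    (hK2 : K ≤ (m + 1) ^ 2)
    (C : ∀ t : Tops P, Comp (2 * m) (t : P) (lo t) (hi t) (e t))
    (hT : ∀ t, ∃ N θ, TyL m K t (hi t m - lo t m + 1) N θ ∧
      (StairShape (2 * m) (lo t) (hi t) → StairInfo m t (lo t) (hi t) (e t) N θ))
    (hnj : ∀ z : P, lev z = 2 * m + 1 → ¬ Hul.Jn z) :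
    ∃ N θ, WG r m K N (fun t => hi t m - lo t m + 1) θ ∧
      ∀ t, StairShape (2 * m) (lo t) (hi t) → StairInfo m t (lo t) (hi t) (e t) (N t) (θ t) := by
  classical
  choose N θ hT hI using hT
  refine ⟨N, θ, ⟨h, hm, fun t => (hT t).tyG, ?_, hnj, hK, hK2⟩, hI⟩
  rw [card_level h.H h.good C (i := m) (by omega)]

/-- **Case B.**  If no element of level `2 m + 1` is below two tops then no element of level
`2 m + 1` covers the fold end and the straight end of a stair.  `hO`: the late components with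
`a ≤ m` which are no quadrics (`m = 4, .., 8` only). -/
theorem caseB_no_cc (hm : 2 ≤ m) (hm3 : m ≠ 3) (h : Win.GoodTo P r (2 * m))
    (C : ∀ t : Tops P, Comp (2 * m) (t : P) (lo t) (hi t) (e t))
    (hS : ∀ t, Wd.Shape (2 * m) (lo t) (hi t))
    (hO : ∀ t a, a ≤ m → Wd.LateD (2 * m) a (lo t) (hi t) →
      Wd.word (lo t) (hi t) a (2 * m - a) ∈ Wd.lateW a →
      ∃ N θ, TyL m (Ke m) t (hi t m - lo t m + 1) N θ)
    (hnj : ∀ z : P, lev z = 2 * m + 1 → ¬ Hul.Jn z) {t : Tops P} {z : P}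
    (S : StairShape (2 * m) (lo t) (hi t)) (h0 : lo t (2 * m) = 0)
    (hz1 : z ⋖ e t (2 * m) m) (hz2 : z ⋖ e t (2 * m) 0) : False := by
  classical
  have H := h.H
  obtain ⟨N, θ, W, hI⟩ := exists_WG hm h (kapS_Ke hm hm3) (Ke_le hm hm3) C
    (fun t => tyL_shape h hm hm3 (C t) (hS t) (hO t)) hnj
  obtain ⟨Nc, co, R, h1, h2, h3, h4⟩ := hI t S
  have e1 := S.hi (2 * m) le_rfl
  have e2 := (C t).lev_e (2 * m) m le_rfl (by omega) (by omega)
  have e3 := (C t).lev_e (2 * m) 0 le_rfl (by omega) (by omega)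
  have t2 := (C t).le_t (2 * m) m le_rfl (by omega) (by omega)
  have t3 := (C t).le_t (2 * m) 0 le_rfl (by omega) (by omega)
  have hF : e t (2 * m) m ∈ lowPart (2 * m) (t : P) := mem_lowPart.mpr ⟨t2, e2.le⟩
  have hS' : e t (2 * m) 0 ∈ lowPart (2 * m) (t : P) := mem_lowPart.mpr ⟨t3, e3.le⟩
  have c2 : co (e t (2 * m) m) = (m, m) := by
    rw [h4 _ hF]
    unfold ccoord
    rw [scoord_e (C t) (k := 2 * m) (s := m) le_rfl (by omega) (by omega), e2]
    exact Prod.ext rfl (by simp only; omega)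
  have c3 : co (e t (2 * m) 0) = (0, 2 * m) := by
    rw [h4 _ hS']
    unfold ccoord
    rw [scoord_e (C t) (k := 2 * m) (s := 0) le_rfl (by omega) (by omega), e3]
    exact Prod.ext rfl (by simp only; omega)
  have hFN := R.strip hF
  have hSN := R.strip hS'
  have hne : e t (2 * m) m ≠ e t (2 * m) 0 := by
    intro h
    rw [h, c3, Prod.mk.injEq] at c2
    omega
  have D : CEl t Nc co m z (e t (2 * m) m) (e t (2 * m) 0) :=
    ⟨R.chart, R.strip, hFN, hSN, c2, c3, hz1, hz2, fun y hy => uc_pair H hz1 hz2 hne hy⟩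
  have hlz := D.lev_z H.gradedBelow
  have hzR : z ∈ r2 (2 * m) N := by
    refine mem_sdiff.mpr ⟨D.not_nat W.natSys h1 (by omega) hz1.1 hz2.1 hlz, ?_⟩
    intro hY
    obtain ⟨-, -, y, hy, hyz⟩ := mem_twY.mp hY
    refine hy (D.not_nat W.natSys h1 (by omega) ((hyz _).mpr hz1.1) ((hyz _).mpr hz2.1) ?_)
    rw [lev_eq_of_up hyz]
    exact hlz
  have htF : topOf (e t (2 * m) m) = t := W.natSys.topOf_eq (by
    rw [h1]; exact mem_natS.mpr (Or.inl hFN))
  have htS : topOf (e t (2 * m) 0) = t := W.natSys.topOf_eq (by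
    rw [h1]; exact mem_natS.mpr (Or.inl hSN))
  have hthF : θ t (e t (2 * m) m) = m % 2 := by
    rw [h2]
    unfold thS
    rw [if_neg (fold_not_junk R.chart hFN (by rw [c2]; show 1 ≤ m; omega)), c2]
    simp only
    omega
  have hthS : m % 2 ≤ θ t (e t (2 * m) 0) := by
    rw [h2]
    unfold thS
    split_ifs
    · rw [e3]; omega
    · rw [c3]; simp only; omega
  have hlab : GaussPoset.h2 (2 * m) N θ z = hh m := by
    rw [W.h2_eq hzR hlz hz1 (fun y hy => ?_), htF, hthF, hh_eq]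
    rcases D.only y hy with h | h
    · rw [h]
    · rw [h, htF, htS, hthF]
      exact hthS
  rcases W.no_cc hm3 (by unfold Ke; omega) hzR with h5 | h5
  · rw [cst_ct hlab] at h5
    have h6 := D.cst_eq H.gradedBelow (by omega)
    have h7 : cst m (fun _ => hh m) z = ct m (hh m) z := rfl
    omega
  · exact h5 hlz

end All

end Pool.Agent.GaussPoset

end

/-! From `Pool.Agent.W_448fc_h67.FcX` -/

section

/-!
Case B, `m = 2` or `9 ≤ m`, `m = 8` without the complete strip of type E7: no (C) elements.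
-/

namespace Pool.Agent.GaussPoset

set_option linter.unusedSectionVars false

open Polynomial Finset

universe u

variable {P : Type u} [Fintype P] [PartialOrder P] [DecidableEq P] {r m : ℕ}
  {lo hi : Tops P → ℕ → ℕ} {e : Tops P → ℕ → ℕ → P}

open Cp

theorem caseB_no_cc_big (hm : m = 2 ∨ 9 ≤ m) (h : Win.GoodTo P r (2 * m))
    (C : ∀ t : Tops P, Comp (2 * m) (t : P) (lo t) (hi t) (e t))
    (hS : ∀ t, Wd.Shape (2 * m) (lo t) (hi t))
    (hnj : ∀ z : P, lev z = 2 * m + 1 → ¬ Hul.Jn z) {t : Tops P} {z : P}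
    (S : StairShape (2 * m) (lo t) (hi t)) (h0 : lo t (2 * m) = 0)
    (hz1 : z ⋖ e t (2 * m) m) (hz2 : z ⋖ e t (2 * m) 0) : False := by
  refine caseB_no_cc (by omega) (by omega) h C hS (fun t a ha D hw => ?_) hnj S h0 hz1 hz2
  exfalso
  have h1 := Wd.late_len_all hw
  rw [Wd.word_length] at h1
  have := D.h0
  omega

end Pool.Agent.GaussPoset

end

/-! From `Pool.Agent.W_448j8_h67.JaK` -/

section

/-!
The components at the window 4, level 8: stair-like components (MP_448cb3_co).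
-/

namespace Pool.Agent.GaussPoset.J8

set_option linter.unusedSectionVars false

open Polynomial Finset Dd Wd Cl

universe u

variable {P : Type u} [Fintype P] [PartialOrder P] [DecidableEq P] {r : ℕ}
variable {t : Tops P} {lo hi : ℕ → ℕ} {e : ℕ → ℕ → P}

/-- the own elements below the fold end and its neighbour -/
noncomputable def Ys (Nc : Finset P) (co : P → ℕ × ℕ) : Finset P := by
  classical exact univ.filter (fun y => ∃ F ∈ Nc, co F = (4, 4) ∧ y ⋖ F ∧
    ∃ G ∈ Nc, co G = (3, 5) ∧ y ⋖ G)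

lemma mem_Ys {Nc : Finset P} {co : P → ℕ × ℕ} {y : P} : y ∈ Ys Nc co ↔
    ∃ F ∈ Nc, co F = (4, 4) ∧ y ⋖ F ∧ ∃ G ∈ Nc, co G = (3, 5) ∧ y ⋖ G := by
  classical
  unfold Ys
  simp

/-- thresholds of a stair with the additional elements -/
noncomputable def thY (Nc : Finset P) (co : P → ℕ × ℕ) (x : P) : ℕ := by
  classical exact if x ∈ Ys Nc co then 1 else thS 4 Nc co x

section

variable {Nc : Finset P} {co : P → ℕ × ℕ}

lemma Ys_lev (C : Chart (t : P) (fun c => c.1 ≤ c.2) Nc co) (H : Gr P r) {y : P}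
    (hy : y ∈ Ys Nc co) : lev y = 9 := by
  obtain ⟨F, hF, hcF, hyF, -⟩ := mem_Ys.mp hy
  have h1 := (H.covBy_iff.mp hyF).2
  rw [C.lev F hF, hcF] at h1
  simp only at h1
  omega

lemma thY_low (C : Chart (t : P) (fun c => c.1 ≤ c.2) Nc co) (H : Gr P r) {x : P}
    (hl : lev x ≤ 8) : thY Nc co x = thS 4 Nc co x := by
  unfold thY
  rw [if_neg]
  intro h
  have := Ys_lev C H h
  omega

/-- the value on the level 8 -/
lemma thY_eq (C : Chart (t : P) (fun c => c.1 ≤ c.2) Nc co) (H : Gr P r) {x : P}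
    (hl : lev x = 8) : thY Nc co x = 4 ∨
      thY Nc co x = ((co x).1 - 4) + ((co x).2 - 4) := by
  rw [thY_low C H hl.le]
  unfold thS
  split_ifs with hj
  · left; omega
  · right; rfl

lemma thY_F (C : Chart (t : P) (fun c => c.1 ≤ c.2) Nc co) (H : Gr P r) {x : P} (hx : x ∈ Nc)
    (hc : co x = (4, 4)) : thY Nc co x = 0 := by
  have hl := C.lev x hx
  rw [hc] at hl
  rw [thY_low C H (by rw [hl]; decide)]
  unfold thS
  rw [if_neg (not_junk C hx (by rw [hc]; norm_num)), hc]
  rfl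

/-- the profile of the fold end -/
lemma fold_prof (C : Chart (t : P) (fun c => c.1 ≤ c.2) Nc co) {x : P} (hx : x ∈ Nc)
    (hc : co x = (4, 4)) : Fp x := by
  have q : ∀ l, l ≤ 8 → nab l x + (l - 4) = min (l / 2) 4 + 1 := by
    intro l hl
    have h3 := nab_chart C hx l
    have h4 := card_cellsAt_shift (l := l) (p := co x) (by rw [hc]) (by rw [hc]; exact hl)
    rw [hc] at h3 h4
    simp only at h4
    rw [← h3] at h4
    exact h4
  have q4 := q 4 (by norm_num)
  have q5 := q 5 (by norm_num)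
  have q6 := q 6 (by norm_num)
  have q7 := q 7 (by norm_num)
  norm_num at q4 q5 q6 q7
  exact ⟨by omega, by omega, by omega, by omega⟩

/-- own elements of level 9 -/
theorem stair_own (h : Win.GoodTo P r 8) (R : StairNat 8 4 t Nc co)
    (hu : ∀ x ∈ Nc, lev x = 8 → (Win.uc x).card = 1 → co x = (4, 4) ∨ co x = (0, 8))
    {x x' z : P} (hx : x ∈ Nc) (hx' : x' ∈ Nc) (hl : lev x = 8) (hl' : lev x' = 8)
    (hne : x ≠ x') (hzx : z ⋖ x) (hzx' : z ⋖ x') (hz : z ∉ Ys Nc co) (hc : co x = (4, 4)) :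
    IsCx t 3 (thY Nc co) z := by
  classical
  have H := h.H
  have C := R.chart
  have hlz : lev z = 7 + 2 := by
    have := (H.covBy_iff.mp hzx).2
    omega
  have huc : ∀ y, z ⋖ y → y = x ∨ y = x' := fun y hy => uc_pair H hzx hzx' hne hy
  rcases (Win.near_level' (i := 7) h (by norm_num)).1 z x x' hlz hzx hzx' hne with
    h6 | ⟨-, h6, -⟩
  · exfalso
    obtain ⟨u, hu1, hu2⟩ := Win.exists_of_ucv (v := x) (v' := x') (by rw [h6]; exact one_pos)
    have huN := C.up x hx u hu1.1.le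
    have p1 := (chart_cov C H hx huN).mp hu1
    have p2 := (chart_cov C H hx' huN).mp hu2
    have hm : (co u).1 ≤ (co u).2 := C.mem u huN
    have hm' : (co x').1 ≤ (co x').2 := C.mem x' hx'
    rw [hc] at p1
    have hne' : co x' ≠ (4, 4) := fun hh => hne (C.inj x hx x' hx' (by rw [hc, hh]))
    have hcu : co u = (3, 4) := by
      unfold Prd at p1
      simp only at p1
      exact Prod.ext (by simp only; omega) (by simp only; omega)
    rw [hcu] at p2
    have hcx' : co x' = (3, 5) := by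
      unfold Prd at p2
      simp only at p2
      rcases p2 with p2 | p2
      · exact absurd (Prod.ext p2.1 p2.2) hne'
      · exact Prod.ext p2.1 p2.2
    exact hz (mem_Ys.mpr ⟨x, hx, hc, hzx, x', hx', hcx', hzx'⟩)
  · have hcx' : co x' = (0, 8) := by
      rcases hu x' hx' hl' h6 with h7 | h7
      · exact absurd (C.inj x hx x' hx' (by rw [hc, h7])) hne
      · exact h7
    exact ⟨Nc, co, x, x', ⟨C, R.strip, hx, hx', hc, hcx', hzx, hzx', huc⟩, rfl,
      thY_F C H hx hc⟩

/-- the data of a stair -/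
theorem stair_data (h : Win.GoodTo P r 8) (R : StairNat 8 4 t Nc co) {N : Tops P → Finset P}
    (HN : NatSys N) (hlow : ∀ s : Tops P, lowPart 8 (s : P) ⊆ N s)
    (hN : N t = lowPart 8 (t : P) ∪ Ys Nc co) {θ' : P → ℕ} {B' : P → Prop}
    (hθ : ∀ x ∈ N t, θ' x = thY Nc co x)
    (hB : ∀ x ∈ N t, (B' x ↔ x ∈ Nc ∧ co x = (4, 4))) :
    CompDataL (unnat N) topOf t 4 3 13 θ' B' := by
  classical
  have H := h.H
  have C := R.chart
  have hS := R.natTop H.gradedBelow (by norm_num) (by norm_num)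
  have hbase : ∀ x ∈ natS Nc co, (x ∈ Nc ∧ co x = (4, 4)) → x ∈ N t := by
    rintro x - ⟨hx, hcx⟩
    rw [hN, mem_union, mem_lowPart]
    refine Or.inl ⟨C.le_t x hx, ?_⟩
    rw [C.lev x hx, hcx]
    decide
  have hN' : ∀ x, x ∈ N t ↔ x ∈ lowPart 8 (t : P) ∨ x ∈ Ys Nc co := by
    intro x
    rw [hN, mem_union]
  have hlN : ∀ x ∈ lowPart 8 (t : P), x ∈ natS Nc co := fun x hx =>
    mem_natS.mpr (Or.inl (R.strip hx))
  by_cases hsub : ∀ y ∈ Ys Nc co, y ∈ natS Nc co
  · -- no additional element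
    refine compL_nat HN hS ?_ hbase ?_ hB 13
    · intro x hx
      rcases (hN' x).mp hx with h1 | h1
      · exact hlN x h1
      · exact hsub x h1
    · intro x hx
      rw [hθ x hx]
      unfold thY
      split_ifs with hY
      · -- the natural element
        obtain ⟨F, hF, hcF, hyF, G, hG, hcG, hyG⟩ := mem_Ys.mp hY
        have hxN : x ∈ Nc := by
          rcases mem_natS.mp (hsub x hY) with h1 | h1
          · exact h1
          · exfalso
            obtain ⟨x1, E1, hz⟩ := mem_junk.mp h1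
            rcases (mem_jset.mp hz).2 F hyF.1.le with h2 | h2
            · have h3 := (C.le_iff F hF x1 E1.mem).mp h2
              have h4 := E1.lt F hF (by rw [hcF]; norm_num)
              have h5 : (co x1).2 ≤ (co F).2 := h3.2
              omega
            · have h3 := (C.le_iff x1 E1.mem F hF).mp h2
              have h4 : (co F).1 ≤ (co x1).1 := h3.1
              rw [hcF, E1.fst] at h4
              exact absurd h4 (by norm_num)
        have p1 := (chart_cov C H hxN hF).mp hyF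
        have p2 := (chart_cov C H hxN hG).mp hyG
        rw [hcF] at p1
        rw [hcG] at p2
        have hcx : co x = (4, 5) := by
          unfold Prd at p1 p2
          simp only at p1 p2
          exact Prod.ext (by simp only; omega) (by simp only; omega)
        unfold thS
        rw [if_neg (not_junk C hxN (by rw [hcx]; norm_num)), hcx]
        rfl
      · rfl
  · -- one additional twin
    push Not at hsub
    obtain ⟨y2, hy2, hy2N⟩ := hsub
    obtain ⟨F, hF, hcF, hyF, G, hG, hcG, hyG⟩ := mem_Ys.mp hy2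
    have hy2Nc : y2 ∉ Nc := fun h => hy2N (mem_natS.mpr (Or.inl h))
    obtain ⟨y1, hy1, hc1, hy1F, hy1G, hy12⟩ := max_pair C R.max H hy2Nc hF hG hyF hyG
      (s := 3) (c := 4) hcF hcG (by norm_num)
    have hFG : F ≠ G := by
      rintro rfl
      rw [hcF] at hcG
      exact absurd hcG (by decide)
    have hup12 : ∀ y, y1 < y ↔ y2 < y := by
      refine up_of_cov fun w => ?_
      constructor
      · intro hw
        rcases uc_pair H hy1F hy1G hFG hw with h1 | h1
        · rw [h1]; exact hyF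
        · rw [h1]; exact hyG
      · intro hw
        rcases uc_pair H hyF hyG hFG hw with h1 | h1
        · rw [h1]; exact hy1F
        · rw [h1]; exact hy1G
    have hlF : lev F = 8 := by rw [C.lev F hF, hcF]; rfl
    have hl1 : lev y1 = 9 := by
      have := (H.covBy_iff.mp hy1F).2
      omega
    have hY1 : y1 ∈ Ys Nc co := mem_Ys.mpr ⟨F, hF, hcF, hy1F, G, hG, hcG, hy1G⟩
    have hY2 : ∀ y ∈ Ys Nc co, y = y1 ∨ y = y2 := by
      intro y hy
      obtain ⟨F', hF', hcF', hyF', -⟩ := mem_Ys.mp hy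
      have hFF : F' = F := C.inj F' hF' F hF (by rw [hcF', hcF])
      rw [hFF] at hyF'
      by_contra hcon
      push Not at hcon
      exact Win.dc_three H hyF' hy1F hyF hcon.1 hcon.2 hy12
    have hth1 : thS 4 Nc co y1 = 1 := by
      unfold thS
      rw [if_neg (not_junk C hy1 (by rw [hc1]; norm_num)), hc1]
      rfl
    have hfp := fold_prof C hF hcF
    obtain ⟨s1, s2⟩ := fold_sum hy1F.1 hlF hfp.2.1 hfp.2.2.1 hfp.2.2.2
    have hBy2 : y2 ∈ N t := (hN' y2).mpr (Or.inr hy2)
    refine compL_twin HN (i := 4) (j := 8) (by norm_num) hlow hS (y1 := y1) (y2 := y2) ?_ ?_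
      hbase ((hN' y1).mpr (Or.inr hY1)) hBy2 (mem_natS.mpr (Or.inl hy1)) hy2N ?_ ?_ ?_ ?_ ?_ ?_
    · intro x hx
      rcases (hN' x).mp hx with h1 | h1
      · exact Or.inl (hlN x h1)
      · rcases hY2 x h1 with h2 | h2
        · rw [h2]; exact Or.inl (mem_natS.mpr (Or.inl hy1))
        · exact Or.inr h2
    · intro x hx hl
      exact hlN x (mem_lowPart.mpr ⟨hx, hl⟩)
    · intro x hx hne
      rw [hθ x hx]
      unfold thY
      split_ifs with hY
      · rcases hY2 x hY with h2 | h2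
        · rw [h2, hth1]
        · exact absurd h2 hne
      · rfl
    · rw [hθ y2 hBy2]
      unfold thY
      rw [if_pos hy2]
    · intro x hx _
      exact hB x hx
    · intro hb
      exact hy2Nc ((hB y2 hBy2).mp hb).1
    · refine ⟨hy12, hup12, ?_, ?_, ?_, ?_, ?_⟩
      · simp only [hy12, if_false]
        exact hth1.ge
      · simp only [hy12, if_false, if_true]
        exact hth1.symm
      · simp only [hy12, if_false]
        rw [hth1, hl1]
        norm_num
      · simp only [hy12, if_false, hth1]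
        omega
      · simp only [hy12, if_false, hth1]
        omega
    · rw [hl1]; norm_num

end

end Pool.Agent.GaussPoset.J8

end

/-! From `Pool.Agent.W_448j8_h67.JaL` -/

section

/-!
The components at the window 4, level 8: all shapes (MP_448cb3_co).
-/

namespace Pool.Agent.GaussPoset.J8

set_option linter.unusedSectionVars false

open Polynomial Finset Dd Wd Cl

universe u

variable {P : Type u} [Fintype P] [PartialOrder P] [DecidableEq P] {r : ℕ}
variable {t : Tops P} {lo hi : ℕ → ℕ} {e : ℕ → ℕ → P}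

/-- stair-like components -/
theorem tdStair (h : Win.GoodTo P r 8) (C : Cp.Comp 8 (t : P) lo hi e)
    (S : StairShape 8 lo hi) : ∃ Y θ B, TD t (hi 4 - lo 4 + 1) 0 Y θ B ∧
      (lo 8 = 0 → ∀ z, z ⋖ e 8 4 → z ⋖ e 8 0 → z ∉ Y ∧ IsCx t (hi 4 - lo 4 + 1) θ z) := by
  classical
  have H := h.H
  have hg := h.good
  have e0 : lo 4 = 0 := by
    by_contra hcon
    have e1 := shape_lo C S.lo (l := 4) (by omega) 4 (by norm_num)
    have e2 := S.hi (4 + 4) (by norm_num)
    have e3 := C.lo_le (4 + 4) (by norm_num)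
    omega
  have u4 := S.hi 4 (by norm_num)
  have u7 := S.hi 7 (by norm_num)
  have u8 := S.hi 8 le_rfl
  norm_num at u4 u7 u8
  have hb : hi 4 - lo 4 + 1 = 3 := by omega
  obtain ⟨Nc, co, R, hco⟩ := exists_stair' C H hg H.gradedBelow S (i := 4) (by norm_num) e0
  have CC := R.chart
  have hmem : ∀ x, x ≤ (t : P) → lev x = 8 → x ∈ Nc := fun x hx hl =>
    R.strip (mem_lowPart.mpr ⟨hx, hl.le⟩)
  have hcl : ∀ x ∈ Nc, lev x = 8 → (co x).1 + (co x).2 = 8 ∧ (co x).1 ≤ (co x).2 := by
    intro x hx hl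
    have h1 := CC.lev x hx
    exact ⟨by omega, CC.mem x hx⟩
  have hu : ∀ x ∈ Nc, lev x = 8 → (Win.uc x).card = 1 → co x = (4, 4) ∨ co x = (0, 8) := by
    intro x hx hl hu1
    obtain ⟨h1, h2⟩ := hcl x hx hl
    by_contra hcon
    push Not at hcon
    have h3 : (co x).1 ≠ 4 := fun h4 => hcon.1 (Prod.ext h4 (by simp only; omega))
    have h4 : (co x).1 ≠ 0 := fun h4 => hcon.2 (Prod.ext h4 (by simp only; omega))
    have := chartS_inner_uc CC H hx (by omega) (by omega)
    omega
  have hnop : ∀ x z : P, x ≤ (t : P) → lev x = 8 → (Win.uc x).card = 2 → z ⋖ x →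
      (∀ y, z ⋖ y → y = x) → False := by
    intro x z hxt hxl hx2 hzx honly
    have h2 := stairShape_pendant (i := 7) h (by norm_num) t.2 C S hxl hxt hx2 hzx honly
    have h3 := cell_lev C (x := x) hxt (by omega)
    omega
  rw [hb]
  have hcx : lo 8 = 0 → ∀ z, z ⋖ e 8 4 → z ⋖ e 8 0 →
      z ∉ Ys Nc co ∧ IsCx t 3 (thY Nc co) z := by
    intro h0 z hz4 hz0
    have m4 : e 8 4 ∈ lowPart 8 (t : P) := mem_lowPart.mpr
      ⟨C.le_t 8 4 le_rfl (by omega) (by omega), (C.lev_e 8 4 le_rfl (by omega) (by omega)).le⟩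
    have m0 : e 8 0 ∈ lowPart 8 (t : P) := mem_lowPart.mpr
      ⟨C.le_t 8 0 le_rfl (by omega) (by omega), (C.lev_e 8 0 le_rfl (by omega) (by omega)).le⟩
    have c4 : co (e 8 4) = (4, 4) := by
      rw [hco _ m4]
      unfold ccoord
      rw [scoord_e C (k := 8) (s := 4) le_rfl (by omega) (by omega),
        C.lev_e 8 4 le_rfl (by omega) (by omega)]
    have c0 : co (e 8 0) = (0, 8) := by
      rw [hco _ m0]
      unfold ccoord
      rw [scoord_e C (k := 8) (s := 0) le_rfl (by omega) (by omega),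
        C.lev_e 8 0 le_rfl (by omega) (by omega)]
    have hne : e 8 4 ≠ e 8 0 := by
      intro hh
      have := C.inj 8 4 0 le_rfl (by omega) (by omega) (by omega) (by omega) hh
      omega
    refine ⟨?_, Nc, co, e 8 4, e 8 0, ⟨CC, R.strip, R.strip m4, R.strip m0, c4, c0, hz4, hz0,
      fun y hy => uc_pair H hz4 hz0 hne hy⟩, rfl, thY_F CC H (R.strip m4) c4⟩
    intro hY
    obtain ⟨F, hF, hcF, hyF, G, hG, hcG, hyG⟩ := mem_Ys.mp hY
    rcases uc_pair H hz4 hz0 hne hyG with h1 | h1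
    · rw [h1, c4] at hcG
      exact absurd hcG (by decide)
    · rw [h1, c0] at hcG
      exact absurd hcG (by decide)
  refine ⟨Ys Nc co, thY Nc co, fun x => x ∈ Nc ∧ co x = (4, 4), ?_, hcx⟩
  constructor
  · norm_num
  · norm_num
  · exact fun y hy => Ys_lev CC H hy
  · intro y hy v hyv
    obtain ⟨F, hF, hcF, hyF, G, hG, hcG, hyG⟩ := mem_Ys.mp hy
    have hFG : F ≠ G := by
      rintro rfl
      rw [hcF] at hcG
      exact absurd hcG (by decide)
    rcases uc_pair H hyF hyG hFG hyv with h1 | h1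
    · rw [h1]; exact CC.le_t F hF
    · rw [h1]; exact CC.le_t G hG
  · intro y hy
    unfold thY
    rw [if_pos hy]
  · intro y hy
    obtain ⟨F, hF, hcF, hyF, G, hG, hcG, hyG⟩ := mem_Ys.mp hy
    refine two_le_nab hyF.1.le hyG.1.le (by rw [CC.lev F hF, hcF]; rfl)
      (by rw [CC.lev G hG, hcG]; rfl) ?_
    rintro rfl
    rw [hcF] at hcG
    exact absurd hcG (by decide)
  · intro x z hxt hl hzx honly
    have hx := hmem x hxt hl
    obtain ⟨h1, h2⟩ := hcl x hx hl
    have h3 : co x = (4, 4) ∨ co x = (0, 8) := by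
      by_contra hcon
      push Not at hcon
      have h3 : (co x).1 ≠ 4 := fun h4 => hcon.1 (Prod.ext h4 (by simp only; omega))
      have h4 : (co x).1 ≠ 0 := fun h4 => hcon.2 (Prod.ext h4 (by simp only; omega))
      exact hnop x z hxt hl (chartS_inner_uc CC H hx (by omega) (by omega)) hzx honly
    rcases h3 with h3 | h3
    · right; left
      exact ⟨thY_F CC H hx h3, Or.inl (fold_prof CC hx h3)⟩
    · left
      rcases thY_eq CC H hl with h4 | h4
      · omega
      · rw [h4, h3]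
        norm_num
  · intro x x' z hne hxt hxt' hl hl' hzx hzx' hz
    have hx := hmem x hxt hl
    have hx' := hmem x' hxt' hl'
    have h44 : ∀ y ∈ Nc, lev y = 8 → thY Nc co y = 0 → co y = (4, 4) := by
      intro y hy hyl h0
      obtain ⟨h1, h2⟩ := hcl y hy hyl
      rcases thY_eq CC H hyl with h4 | h4
      · omega
      · exact Prod.ext (by simp only; omega) (by simp only; omega)
    by_cases h0 : thY Nc co x = 0
    · right; right; right
      exact stair_own h R hu hx hx' hl hl' hne hzx hzx' hz (h44 x hx hl h0)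
    by_cases h0' : thY Nc co x' = 0
    · right; right; right
      exact stair_own h R hu hx' hx hl' hl (Ne.symm hne) hzx' hzx hz (h44 x' hx' hl' h0')
    right; left
    refine ⟨by omega, by omega, ?_⟩
    have h7 : lo 7 < hi 7 := by
      obtain ⟨s, s1, s2, hs⟩ := C.surj x hxt hl.le
      obtain ⟨s', s1', s2', hs'⟩ := C.surj x' hxt' hl'.le
      rw [hl] at s1 s2 hs
      rw [hl'] at s1' s2' hs'
      have hss : s ≠ s' := fun hh => hne (by rw [← hs, ← hs', hh])
      have g1 := S.lo 7 (by norm_num)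
      have g2 := C.lo_step 7 (by norm_num)
      norm_num at g1 g2
      omega
    exact nab7_two C h7 hne hxt hxt' hl hl' hzx.1.le hzx'.1.le
  · intro x hxt hl h0 _
    have hx := hmem x hxt hl
    obtain ⟨h1, h2⟩ := hcl x hx hl
    left
    refine fold_prof CC hx ?_
    rcases thY_eq CC H hl with h4 | h4
    · omega
    · exact Prod.ext (by simp only; omega) (by simp only; omega)
  · intro N HN hlow hN θ' B' hθ hB
    exact stair_data h R HN hlow hN hθ hB
  · exact fun h => absurd h (by norm_num)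

lemma late8_words : ∀ w ∈ lateW 4, w.length = 4 → w = w8 ∨ w = w7.take 4 := by decide +kernel

/-- the flip word has three elements of level 6 -/
lemma rows_w8 (D : WordD 8 4 w8 lo hi) (C : Cp.Comp 8 (t : P) lo hi e) :
    lo 4 = 0 ∧ hi 4 = 1 ∧ lo 8 = 1 ∧ hi 8 = 4 := by
  obtain ⟨r1, r2⟩ := D.rows C
  obtain ⟨e1, e2, e3, e4, e5, e6⟩ := W8_rows8
  exact ⟨by rw [r1 4 (by norm_num), e5], by rw [r2 4 (by norm_num), e6],
    by rw [r1 8 le_rfl, e1], by rw [r2 8 le_rfl, e2]⟩

/-- the data of a component together with the two special cases -/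
def TDx (t : Tops P) (lo hi : ℕ → ℕ) (e : ℕ → ℕ → P) : Prop :=
  ∃ (w : ℕ) (Y : Finset P) (θ : P → ℕ) (B : P → Prop), TD t (hi 4 - lo 4 + 1) w Y θ B ∧
    (WordD 8 4 w8 lo hi → w = 1) ∧
    (StairShape 8 lo hi → lo 8 = 0 → ∀ z, z ⋖ e 8 4 → z ⋖ e 8 0 →
      z ∉ Y ∧ IsCx t (hi 4 - lo 4 + 1) θ z)

/-- **the data of a component.** -/
theorem exists_td (h : Win.GoodTo P r 8) (C : Cp.Comp 8 (t : P) lo hi e)
    (S : Wd.Shape 8 lo hi) : TDx t lo hi e := by
  have hw8 : ∀ k, k < 4 → lo k < hi k → ¬ WordD 8 4 w8 lo hi := by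
    intro k hk hlt D
    have := D.trunk k hk
    omega
  rcases S with h1 | ⟨h1, h2⟩ | ⟨h0, h2⟩ | ⟨h0, h1, h2⟩ | ⟨h0, h1⟩ | ⟨a, h0, h1, h2, h3, hN, h4⟩
  · -- light
    have e4 := h1 4 (by norm_num)
    refine ⟨0, ∅, fun x => lev x - 4, fun _ => False, ?_, ?_, ?_⟩
    · rw [e4.1, e4.2]
      exact tdLight h C
    · intro D
      have := D.row
      omega
    · intro S _ _ _ _
      have := S.hi 8 le_rfl
      have := h1 8 le_rfl
      omega
  · -- rectangle
    obtain ⟨θ, B, T⟩ := tdRect h C h1 h2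
    refine ⟨0, ∅, θ, B, T, fun D => (hw8 1 (by norm_num) (by omega) D).elim, fun S => ?_⟩
    have := S.hi 1 (by norm_num)
    omega
  · -- stair
    obtain ⟨Y, θ, B, T, hx⟩ := tdStair h C h2
    refine ⟨0, Y, θ, B, T, fun D => ?_, fun _ => hx⟩
    have e1 := h2.hi 2 (by norm_num)
    have e2 := D.trunk 2 (by norm_num)
    omega
  · omega
  · omega
  · -- late
    have hns : StairShape 8 lo hi → False := by
      intro S
      have e1 := S.hi 2 (by norm_num)
      have e2 := h2 2 (by omega)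
      omega
    have D : LateD 8 a lo hi := ⟨h0, h1, h2, h3, h4⟩
    rcases Nat.lt_or_ge a 5 with ha | ha
    · obtain rfl | rfl : a = 3 ∨ a = 4 := by omega
      · obtain ⟨W, -⟩ := wordD_three D (by norm_num)
        obtain ⟨θ, B, T⟩ := tdE6 h C W
        exact ⟨0, ∅, θ, B, T, fun D' => (hw8 3 (by norm_num) (by omega) D').elim,
          fun S => (hns S).elim⟩
      · rcases h4 with ⟨g1, g2⟩ | g2
        · have hq := D.quad C g2
          have Q : QRows 8 4 lo hi := ⟨h2, h3, by
            intro k hk hk2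
            have := hq (k - 4) (by omega) (by omega)
            rwa [show 4 + (k - 4) = k by omega] at this⟩
          obtain ⟨θ, B, T⟩ := tdQuad h C Q
          refine ⟨0, ∅, θ, B, T, fun D' => ?_, fun S => (hns S).elim⟩
          have e1 := (rows_w8 D' C)
          have e2 := Q.aft 8 (by norm_num) le_rfl
          omega
        · have hl : (word lo hi 4 (8 - 4)).length = 4 := by rw [word_length]
          rcases late8_words _ g2 hl with g3 | g3
          · have W : WordD 8 4 w8 lo hi := ⟨h2, h3, by rw [g3]; rfl⟩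
            obtain ⟨Y, θ, B, T⟩ := tdW8 h C W
            exact ⟨1, Y, θ, B, T, fun _ => rfl, fun S => (hns S).elim⟩
          · have W : WordD 8 4 w7 lo hi := ⟨h2, h3, g3⟩
            obtain ⟨Y, θ, B, T⟩ := tdE7 h C W
            refine ⟨0, Y, θ, B, T, fun D' => ?_, fun S => (hns S).elim⟩
            have e1 := rows_w8 D' C
            obtain ⟨r1, -⟩ := W.rows C
            have e2 := r1 8 le_rfl
            rw [E7_rows8.1] at e2
            omega
    · have e4 := h2 4 (by omega)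
      refine ⟨0, ∅, fun x => lev x - 4, fun _ => False, ?_, ?_, fun S => (hns S).elim⟩
      · rw [e4.1, e4.2]
        exact tdLight h C
      · intro D'
        have := D'.row
        omega

end Pool.Agent.GaussPoset.J8

end

/-! From `Pool.Agent.W_448hcc_h53.HcC` -/

section

/-!
Case B at window `m`: twins, truncated data, the boundary.
-/

namespace Pool.Agent.GaussPoset.Hc

set_option linter.unusedSectionVars false

open Polynomial Finset

universe u

variable {P : Type u} [Fintype P] [PartialOrder P] [DecidableEq P] {r m K : ℕ}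
  {N : Tops P → Finset P} {b : Tops P → ℕ} {θ : Tops P → P → ℕ}

theorem WH.twSys (W : WH r m K N b θ) : TwSys (unnat N) (twY (2 * m) N) topOf (twT N) :=
  twSys_of W.gt.H W.natSys

/-- natural elements of level at least `2 m + 1` -/
theorem WH.kap (W : WH r m K N b θ) {x : P} (hx : x ∉ unnat N) (hl : 2 * m + 1 ≤ lev x) :
    FullM m N θ x ∨ OthH m K N θ x ∨ K ≤ ct m (θ (topOf x) x + 1) x + (θ (topOf x) x + 1) := by
  have hm := W.two
  rcases W.cases hx with h | ⟨Nc, co, h⟩ | ⟨Nc, co, h⟩ | h | h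
  · exact Or.inl h
  · right; right
    have h1 := W.K_le
    rw [pow_two] at h1
    refine le_trans (by omega) (kap_chart (by omega) h.rect.chart h.mem h.fst h.snd hl ?_)
    rw [h.th]
  · right; right
    refine kap_chartG W.kap0 (by omega) h.stair.chart h.mem h.fst hl ?_
    rw [h.th]
  · have := h.1.lev
    omega
  · exact Or.inr (Or.inl h)

lemma WH.tw_inner (W : WH r m K N b θ) {x : P} (hx : x ∈ twY (2 * m) N) :
    (∃ Nc co, InRM m N b θ (twT N x) Nc co) ∨ ∃ Nc co, InSM m N b θ (twT N x) Nc co := by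
  have h1 := mem_twY.mp hx
  have h3 := twT_spec h1.2.2
  rcases W.cases h3.1 with h | h | h | h | h
  · exact absurd h3.2 (h.tw x h1.1)
  · exact Or.inl h
  · exact Or.inr h
  · have h4 := h.1.lev
    have h5 := W.twSys.lev hx
    omega
  · exact absurd h3.2 (h.tw x h1.1 _ h.mem h1.2.1)

lemma WH.tw_kap (W : WH r m K N b θ) {x : P} (hx : x ∈ twY (2 * m) N) :
    K ≤ ct m (θ (topOf (twT N x)) (twT N x) + 1) (twT N x) +
      (θ (topOf (twT N x)) (twT N x) + 1) := by
  have h1 := mem_twY.mp hx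
  have h3 := twT_spec h1.2.2
  have h5 := W.twSys.lev hx
  rcases W.kap h3.1 (by omega) with h | h | h
  · exact absurd h3.2 (h.tw x h1.1)
  · exact absurd h3.2 (h.tw x h1.1 _ h.mem h1.2.1)
  · exact h

lemma WH.tw_th (W : WH r m K N b θ) {x : P} (hx : x ∈ twY (2 * m) N) :
    1 ≤ θ (topOf (twT N x)) (twT N x) ∧ θ (topOf (twT N x)) (twT N x) ≤ m := by
  have h1 := mem_twY.mp hx
  have h5 := W.twSys.lev hx
  have hm := W.two
  rcases W.tw_inner hx with ⟨Nc, co, h⟩ | ⟨Nc, co, h⟩
  · have h6 := h.rect.chart.lev _ h.mem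
    have h7 := h.fst
    have h8 := h.snd
    have h9 := h.th
    omega
  · have h6 := h.stair.chart.lev _ h.mem
    have h7 := h.fst
    have h8 : (co (twT N x)).1 ≤ (co (twT N x)).2 := h.stair.chart.mem _ h.mem
    have h9 := h.th
    omega

/-- the twins are harmless below energy `K - 1` -/
theorem WH.twinPair (W : WH r m K N b θ) {x : P} (hx : x ∈ twY (2 * m) N) :
    TwinPair m (thX (twY (2 * m) N) (twT N) (fun x => θ (topOf x) x)) (K - 1) (twT N x) x := by
  classical
  have T := W.twSys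
  have h1 := mem_twY.mp hx
  have hlev : lev (twT N x) = 2 * m + 1 := by rw [T.lev hx]; exact h1.2.1
  have hnY : twT N x ∉ twY (2 * m) N := fun h => T.nat x hx (mem_twY.mp h).1
  obtain ⟨h3, h4⟩ := W.tw_th hx
  have h5 := W.tw_kap hx
  have hth : thX (twY (2 * m) N) (twT N) (fun x => θ (topOf x) x) (twT N x) =
      θ (topOf (twT N x)) (twT N x) := thX_not hnY
  have hth' : thX (twY (2 * m) N) (twT N) (fun x => θ (topOf x) x) x =
      θ (topOf (twT N x)) (twT N x) := thX_of hx
  refine ⟨?_, T.up x hx, ?_, ?_, ?_, ?_, ?_⟩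
  · intro h
    exact T.nat x hx (h.symm ▸ h1.1)
  · rw [hth]; exact h3
  · rw [hth, hth']
  · rw [hth, hlev]; omega
  · rw [hth]
    have h6 : ct m (θ (topOf (twT N x)) (twT N x) + 1) (twT N x) ≤
        ∑ y, (if twT N x ≤ y then lev y - m else 0) := by
      rw [ct_eq_sum]
      refine Finset.sum_le_sum fun y _ => ?_
      split_ifs
      · exact Nat.min_le_right _ _
      · exact le_rfl
    omega
  · rw [hth]
    have h6 := ct_succ m (θ (topOf (twT N x)) (twT N x) + 1) (twT N x)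
    rw [hlev, Nat.min_eq_left (by omega)] at h6
    omega

/-- truncated data at window `m` -/
theorem WH.farT (W : WH r m K N b θ) : FarT P m (r2 (2 * m) N) (lv P m).card
    (h2 (2 * m) N θ) (K - 1) := by
  choose B hB using W.natTop
  have h := farT_of_tops W.gt.H.gradedBelow hB W.twSys (K - 1) (fun x hx => W.twinPair hx)
  rw [W.sum_b] at h
  exact h

/-- the boundary: level `2 m + 1` or large cost -/
theorem WH.bd (W : WH r m K N b θ) {z : P} (hz : z ∈ bdR (r2 (2 * m) N)) :
    lev z = 2 * m + 1 ∨ K ≤ cst m (h2 (2 * m) N θ) z := by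
  classical
  have H := W.gt.H
  have hm := W.two
  have T := W.twSys
  have hzR : z ∈ unnat N := (mem_sdiff.mp (mem_filter.mp hz).1).1
  have hlz := W.lt_lev hzR
  by_cases hl : lev z = 2 * m + 1
  · exact Or.inl hl
  right
  obtain ⟨u, hu, hzu, hh⟩ := hcan_spec
    (θ := thX (twY (2 * m) N) (twT N) (fun x => θ (topOf x) x)) hz
  have hlu := (H.covBy_iff.mp hzu).2
  have hc : ∀ k, h2 (2 * m) N θ z = k → cst m (h2 (2 * m) N θ) z = ct m k z := by
    intro k hk
    unfold ct cst ez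
    rw [hk]
  have key : ∀ (u' : P) (k : ℕ), ct m k u = ct m k u' → K ≤ ct m k u' + k → k ≤ lev z - m →
      h2 (2 * m) N θ z = k → K ≤ cst m (h2 (2 * m) N θ) z := by
    intro u' k h3 h4 h5 h6
    have h7 := ct_cov (i := m) (k := k) hzu.1
    rw [Nat.min_eq_left h5] at h7
    rw [hc k h6]
    omega
  by_cases huY : u ∈ twY (2 * m) N
  · rw [thX_of huY] at hh
    have h3 := W.tw_th huY
    exact key (twT N u) _ (ct_congr_up fun w => (T.up u huY w).symm) (W.tw_kap huY) (by omega) hh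
  · have huR : u ∉ unnat N := fun h => hu (mem_sdiff.mpr ⟨h, huY⟩)
    rw [thX_not huY] at hh
    rcases W.kap huR (by omega) with hF | hO | hI
    · rw [hF.th] at hh
      have h3 := sq_le_cst (i := m) (h := h2 (2 * m) N θ) (z := z) (by omega)
        (by show h2 (2 * m) N θ z = _; rw [show h2 (2 * m) N θ z = _ from hh]; omega) (by
          intro k hk hk2
          exact hF.two z hzR hzu.le k (by omega) (by omega))
      have h4 : (m + 1) ^ 2 ≤ (lev z - m) ^ 2 := Nat.pow_le_pow_left (by omega) 2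
      exact (W.K_le.trans h4).trans h3
    · rcases hO.cost z hzR u hO.mem hzu with hO | hO
      · rw [hc _ hh]
        exact hO
      · have := hO.1
        omega
    · have h5 := W.farT.le_lev z hz
      exact key u _ rfl hI (by rw [show h2 (2 * m) N θ z = _ from hh] at h5; exact h5) hh

end Pool.Agent.GaussPoset.Hc

end

/-! From `Pool.Agent.W_448hcc_h53.HcE` -/

section

/-!
Case B at window `m`: there are no (C) elements.
-/

namespace Pool.Agent.GaussPoset.Hc

set_option linter.unusedSectionVars false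

open Polynomial Finset

universe u

variable {P : Type u} [Fintype P] [PartialOrder P] [DecidableEq P] {r m K : ℕ}
  {N : Tops P → Finset P} {b : Tops P → ℕ} {θ : Tops P → P → ℕ}

lemma WH.num_penQ (W : WH r m K N b θ) {z x : P} (hz : z ∈ r2 (2 * m) N)
    (hl : lev z = 2 * m + 1) (hx : QPn m (θ (topOf x)) z x) :
    Num m N θ z 1 (m + 1) 1 2 := by
  have hm := W.two
  obtain ⟨hlx, hth, hp, -, hq⟩ := hx
  have hn : ∀ u, u ≤ m → nab (m + u) z = if m + u = m then 2 else 1 := by
    intro u hu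
    rw [nab_pend hp (by omega)]
    exact hq u hu
  refine Num.mk' hl (by omega) ?_ ?_ ?_ ?_
  · rw [W.h2_eq hz hl hp.1 (fun y hy => by rw [hp.2 y hy]), hth]
  · rw [vs_quad (a := m) le_rfl (by omega) hn, NL_one, Nat.sub_self, Nat.min_zero]
  · have h1 := hn 0 (by omega)
    have h2 := hn 1 (by omega)
    rw [if_pos (by omega)] at h1
    rw [if_neg (by omega)] at h2
    rw [Nat.add_zero] at h1
    omega
  · have h1 := hn 0 (by omega)
    rw [if_pos (by omega)] at h1
    rw [Finset.sum_range_one, h1]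

lemma WH.num_penF (W : WH r m K N b θ) {z x : P} (hz : z ∈ r2 (2 * m) N)
    (hl : lev z = 2 * m + 1) (hx : FoldM m N b θ x) (hp : Pend z x) :
    Num m N θ z (hh m) (NF m (hh m) + hh m) 1 (sgF m) := by
  have hm := W.two
  have hh2 := hh_le m
  have hn : ∀ u, u ≤ m → nab (m + u) z = nab (m + u) x := by
    intro u hu
    exact nab_pend hp (by omega)
  refine Num.mk' hl (by omega) ?_ ?_ ?_ ?_
  · rw [W.h2_eq hz hl hp.1 (fun y hy => by rw [hp.2 y hy]), hx.th, hh_eq]
  · rw [vs_congr hn, hx.vs]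
  · have h1 := hn 0 (by omega)
    rw [Nat.add_zero] at h1
    have h3 := hx.nab (u := 0) (by omega)
    rw [Nat.add_zero] at h3
    rw [h1, h3, hn (hh m) (by omega), hx.nab (by omega), nF_drop (by omega)]
  · unfold sgF
    refine Finset.sum_congr rfl fun u hu => ?_
    rw [mem_range] at hu
    rw [hn u (by omega), hx.nab (by omega)]

/-- the step: all terms of maximal drop have the same sign, so there are none -/
theorem WH.kill (W : WH r m K N b θ) {n : ℕ} (hn : n < K - 1)
    (hcost : ∀ z ∈ bdR (r2 (2 * m) N), n ≤ cst m (h2 (2 * m) N θ) z) (σ : ℤ) (hσ : σ ≠ 0) (δ : ℕ)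
    (hδ : 1 ≤ δ)
    (h1 : ∀ z ∈ bdR (r2 (2 * m) N), cst m (h2 (2 * m) N θ) z = n →
      nab m z ≤ nab (m + h2 (2 * m) N θ z) z + δ)
    (h3 : ∀ z ∈ bdR (r2 (2 * m) N), cst m (h2 (2 * m) N θ) z = n →
      nab m z = nab (m + h2 (2 * m) N θ z) z + δ → (-1 : ℤ) ^ nst m (h2 (2 * m) N θ) z = σ) :
    ∀ z ∈ bdR (r2 (2 * m) N), cst m (h2 (2 * m) N θ) z = n →
      nab m z ≠ nab (m + h2 (2 * m) N θ z) z + δ := by
  classical
  intro z0 hz0 hc0 hd0
  have F := W.farT
  have hd := F.dvd_lead hn hcost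
  have hZ := dvd_Z W.gt.H.gauss m n
  set T := (bdR (r2 (2 * m) N)).filter (fun z => cst m (h2 (2 * m) N θ) z = n) with hT
  have hb : δ ≤ (lv P m).card := by
    have h5 : nab m z0 ≤ (lv P m).card := by
      unfold nab
      exact Finset.card_filter_le _ _
    omega
  have hs := sign_sum_of_dvd T hZ hd (c0 := (lv P m).card - δ) (by omega) (by
    intro y hy
    rw [hT, mem_filter] at hy
    have h4 := h1 y hy.1 hy.2
    omega)
  set T' := T.filter (fun y => (lv P m).card - δ + nab m y =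
    (lv P m).card + nab (m + h2 (2 * m) N θ y) y) with hT'
  have hz0T : z0 ∈ T' := by
    rw [hT', mem_filter, hT, mem_filter]
    exact ⟨⟨hz0, hc0⟩, by omega⟩
  rw [Finset.sum_congr rfl (g := fun _ => σ)] at hs
  · rw [Finset.sum_const, nsmul_eq_mul] at hs
    rcases mul_eq_zero.mp hs with h4 | h4
    · have h5 : T'.card = 0 := by exact_mod_cast h4
      rw [Finset.card_eq_zero] at h5
      rw [h5] at hz0T
      exact absurd hz0T (Finset.notMem_empty _)
    · exact hσ h4
  · intro y hy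
    rw [hT', mem_filter, hT, mem_filter] at hy
    exact h3 y hy.1.1 hy.1.2 (by omega)

/-- the data of a (C) element -/
lemma WH.cel (W : WH r m K N b θ) {z F S : P} {Nc : Finset P} {co : P → ℕ × ℕ}
    (hF : InSM m N b θ F Nc co) (hcF : co F = (m, m)) (hS : S ∈ Nc) (hcS : co S = (0, 2 * m))
    (hzF : z ⋖ F) (hzS : z ⋖ S) : CEl (topOf F) Nc co m z F S where
  chart := hF.stair.chart
  strip := hF.stair.strip
  F_mem := hF.mem
  S_mem := hS
  co_F := hcF
  co_S := hcS
  zF := hzF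
  zS := hzS
  only := by
    have hm := W.two
    have hne : F ≠ S := by
      rintro rfl
      rw [hcF, Prod.mk.injEq] at hcS
      omega
    exact fun y hy => uc_pair W.gt.H hzF hzS hne hy

/-- the straight end of the stair of a fold end -/
lemma WH.cc_full (W : WH r m K N b θ) {x x' : P} {Nc : Finset P} {co : P → ℕ × ℕ}
    (hx : InSM m N b θ x Nc co)
    (hcx : co x = (m, m)) (hx' : x' ∈ Nc) (hcx' : co x' = (0, 2 * m))
    (hO : ¬ OthH m K N θ x') :
    FullM m N θ x' ∧ topOf x' = topOf x := by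
  classical
  have H := W.gt.H
  have hm := W.two
  have C := hx.stair.chart
  have hlx : lev x = 2 * m := by
    rw [C.lev x hx.mem, hcx]
    simp only
    omega
  have hlx' : lev x' = 2 * m := by
    rw [C.lev x' hx', hcx']
    simp only
    omega
  have hxN : x ∈ N (topOf x) := W.natSys.mem_iff.mpr ⟨W.low hlx.le, rfl⟩
  have htop : topOf x' = topOf x := by
    have h1 : x' ∈ N (topOf x) := by
      rw [hx.nat]
      exact mem_natS.mpr (Or.inl hx')
    exact W.natSys.topOf_eq h1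
  refine ⟨?_, htop⟩
  rcases W.kind hlx' with h | h | ⟨h, -⟩ | h | h
  · exact h
  · exfalso
    have h1 := h.nab (u := 0) (by omega)
    rw [Nat.add_zero, nab_chart C hx', hcx'] at h1
    have := card_cellsAt_shift (l := m) (p := (0, 2 * m)) (Nat.zero_le _) (by simp only; omega)
    simp only at this
    unfold nF at h1
    omega
  · exfalso
    have h1 := h.inf.unique (x := x) (x' := x') (by rw [htop]; exact le_topOf x) (le_topOf x')
      hlx hlx'
    rw [h1, hcx'] at hcx
    simp only [Prod.mk.injEq] at hcx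
    omega
  · exact absurd h hO
  · exfalso
    obtain ⟨y1, y2, hne, hyy⟩ := Finset.card_eq_two.mp h.1
    have e1 : x' ⋖ y1 := Win.mem_uc.mp (by rw [hyy]; simp)
    have e2 : x' ⋖ y2 := Win.mem_uc.mp (by rw [hyy]; simp)
    have hy1 := C.up x' hx' y1 e1.le
    have hy2 := C.up x' hx' y2 e2.le
    have f1 := (chart_cov C H hx' hy1).mp e1
    have f2 := (chart_cov C H hx' hy2).mp e2
    rw [hcx'] at f1 f2
    unfold Prd at f1 f2
    simp only at f1 f2
    exact hne (C.inj y1 hy1 y2 hy2 (Prod.ext (by omega) (by omega)))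

/-- the order of the component of a (C) element -/
lemma WH.b_cel (W : WH r m K N b θ) {z F S : P} {Nc : Finset P} {co : P → ℕ × ℕ}
    {t : Tops P} (hzU : z ∈ unnat N) (C : CEl t Nc co m z F S)
    (hO : ∀ y, z ⋖ y → ¬ OthH m K N θ y) : b t = m / 2 + 1 := by
  have hm := W.two
  have H := W.gt.H
  have hl := C.lev_z H.gradedBelow
  have hFt : F ≤ (t : P) := C.chart.le_t F C.F_mem
  have htF : topOf z = t := by
    by_contra hne
    refine W.nj z hl ⟨topOf z, t, (topOf z).2, t.2, fun h => hne (Subtype.ext h), le_topOf z,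
      C.zF.le.trans hFt⟩
  have hFF : topOf F = t := (W.top_cov hl C.zF).trans htF
  have hlF : lev F = 2 * m := by
    have := (H.covBy_iff.mp C.zF).2
    omega
  have hlS : lev S = 2 * m := by
    have := (H.covBy_iff.mp C.zS).2
    omega
  rcases W.typ t with ⟨g1, -, -, -⟩ | ⟨Nc', co', h0, -, -, -⟩ |
    ⟨Nc', co', h0, -, -, hb, -⟩ | ⟨-, -, -, g4, -⟩ | ⟨-, h2, h3, h4⟩
  · exfalso
    refine mem_unnat.mp hzU t ?_
    rw [g1, ← htF]
    exact W.lowOnly (le_topOf z) (by omega)
  · exfalso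
    obtain ⟨y, hy, hcy⟩ := h0.cell
    have hb2 := h0.b_two
    obtain ⟨y1, hy1, hc1⟩ := h0.chart.low y hy (1, 0) (by
      rw [hcy]
      exact ⟨by simp only; omega, Nat.zero_le _⟩) trivial
    obtain ⟨y2, hy2, hc2⟩ := h0.chart.low y hy (0, 1) (by
      rw [hcy]
      exact ⟨Nat.zero_le _, by simp only; omega⟩) trivial
    have l1 := h0.chart.lev y1 hy1
    have l2 := h0.chart.lev y2 hy2
    rw [hc1] at l1
    rw [hc2] at l2
    simp only at l1 l2
    have g1 := C.strip (mem_lowPart.mpr ⟨h0.chart.le_t y1 hy1, by omega⟩)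
    have g2 := C.strip (mem_lowPart.mpr ⟨h0.chart.le_t y2 hy2, by omega⟩)
    have k1 : (co y1).1 ≤ (co y1).2 := C.chart.mem y1 g1
    have k2 : (co y2).1 ≤ (co y2).2 := C.chart.mem y2 g2
    have q1 := C.chart.lev y1 g1
    have q2 := C.chart.lev y2 g2
    have he := C.chart.inj y1 g1 y2 g2 (Prod.ext (by omega) (by omega))
    rw [he, hc2, Prod.mk.injEq] at hc1
    omega
  · exact hb
  · exfalso
    have h1 := g4.unique hFt (C.chart.le_t S C.S_mem) hlF hlS
    have h2 := C.co_F
    rw [h1, C.co_S, Prod.mk.injEq] at h2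
    omega
  · exfalso
    refine hO F C.zF ⟨W.natSys.mem_iff.mpr ⟨W.low hlF.le, rfl⟩, ?_, ?_⟩
    · rw [hFF]; exact h3
    · rw [hFF]; exact h4

/-- **Case B.**  No element of level `2 m + 1` covers the fold end and the straight end. -/
theorem WH.no_cc (W : WH r m K N b θ) (h3m : m ≠ 3) (hK : E0 m + hh m ^ 2 + 2 ≤ K) {z : P}
    (hz : z ∈ r2 (2 * m) N) : E0 m < cst m (h2 (2 * m) N θ) z ∨ lev z ≠ 2 * m + 1 := by
  classical
  have H := W.gt.H
  have hm := W.two
  have hh2 := hh_le m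
  have hh1 := hh_pos m
  have hNL := NL_ge (m := m) hh1
  have hE0 : E0 m = NF m (hh m) + NL m (hh m) + hh m := rfl
  obtain ⟨g, u, hu, hmu, hg⟩ : ∃ g u, u ≤ 1 ∧ m = 2 * g + u ∧ 1 ≤ g :=
    ⟨m / 2, m % 2, by omega, by omega, by omega⟩
  -- the table
  have hrow : ∀ z ∈ bdR (r2 (2 * m) N), K ≤ cst m (h2 (2 * m) N θ) z ∨
      ((∃ x, QPn m (θ (topOf x)) z x) ∧ Num m N θ z 1 (m + 1) 1 2) ∨
      (Num m N θ z (hh m) (NF m (hh m) + hh m) 1 (sgF m)) ∨
      (h2 (2 * m) N θ z = hh m ∧ IsC b m z ∧ cst m (h2 (2 * m) N θ) z = E0 m) := by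
    intro z hz
    have hzR := bd_mem hz
    rcases W.bd hz with hl | h
    · rcases W.class hzR hl with h | ⟨x, hx⟩ | ⟨x, hx, hp⟩ |
        ⟨⟨-, F, S, Nc, co, hF, hcF, hS, hcS, hzF, hzS⟩, hO⟩
      · exact Or.inl h
      · exact Or.inr (Or.inl ⟨⟨x, hx⟩, W.num_penQ hzR hl hx⟩)
      · exact Or.inr (Or.inr (Or.inl (W.num_penF hzR hl hx hp)))
      · refine Or.inr (Or.inr (Or.inr ?_))
        have C := W.cel hF hcF hS hcS hzF hzS
        have hfold : FoldM m N b θ F := ⟨Nc, co, hF, hcF⟩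
        obtain ⟨hfull, htop⟩ := W.cc_full hF hcF hS hcS (hO S hzS)
        have hlS : lev S = 2 * m := by
          have := (H.covBy_iff.mp hzS).2
          omega
        have hlab : h2 (2 * m) N θ z = hh m := by
          rw [W.h2_eq hzR hl hzF (fun y hy => ?_), hfold.th, hh_eq]
          rcases C.only y hy with h | h
          · rw [h]
          · rw [h, hfold.th, hfull.th, hlS]
            omega
        refine ⟨hlab, ⟨topOf F, Nc, co, F, S, C, W.b_cel (mem_sdiff.mp hzR).1 C hO⟩, ?_⟩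
        rw [cst_ct hlab]
        exact C.cst_eq H.gradedBelow (by omega)
    · exact Or.inl h
  -- no pendants below quadrics
  have hNF : 4 ≤ m → m + 1 < NF m (hh m) + hh m := by
    intro h4
    rcases Nat.le_one_iff_eq_zero_or_eq_one.mp hu with h | h
    · obtain rfl : m = 2 * g := by omega
      have hg2 : 2 ≤ g := by omega
      rw [hh_even, NF_even]
      nlinarith
    · obtain rfl : m = 2 * g + 1 := by omega
      rw [hh_odd, NF_odd]
      nlinarith
  have hnoQ : ∀ z ∈ bdR (r2 (2 * m) N), ¬ ((∃ x, QPn m (θ (topOf x)) z x) ∧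
      Num m N θ z 1 (m + 1) 1 2) := by
    rintro z0 hz0 ⟨⟨x0, hx0⟩, hn0⟩
    have h5 := hNF hx0.2.2.2.1
    refine W.kill (n := m + 1) (by omega) ?_ 1 one_ne_zero 1 le_rfl ?_ ?_ z0 hz0 hn0.cst (by
      rw [hn0.lab]; exact hn0.drop)
    · intro z hz
      rcases hrow z hz with h | ⟨-, h⟩ | h | ⟨-, -, h⟩
      · omega
      · rw [h.cst]
      · rw [h.cst]; omega
      · rw [h]; omega
    · intro z hz hc
      rcases hrow z hz with h | ⟨-, h⟩ | h | ⟨-, -, h⟩
      · omega
      · rw [h.lab]; exact h.drop.le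
      · rw [h.cst] at hc; omega
      · rw [h] at hc; omega
    · intro z hz hc _
      rcases hrow z hz with h | ⟨-, h⟩ | h | ⟨-, -, h⟩
      · omega
      · rw [h.nst]; norm_num
      · rw [h.cst] at hc; omega
      · rw [h] at hc; omega
  -- no pendants below fold ends
  have hnoF : ∀ z ∈ bdR (r2 (2 * m) N), ¬ Num m N θ z (hh m) (NF m (hh m) + hh m) 1 (sgF m) := by
    intro z0 hz0 hn0
    refine W.kill (n := NF m (hh m) + hh m) (by omega) ?_ ((-1) ^ sgF m)
      (pow_ne_zero _ (by norm_num)) 1 le_rfl ?_ ?_ z0 hz0 hn0.cst (by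
      rw [hn0.lab]; exact hn0.drop)
    · intro z hz
      rcases hrow z hz with h | h | h | ⟨-, -, h⟩
      · omega
      · exact absurd h (hnoQ z hz)
      · rw [h.cst]
      · rw [h]; omega
    · intro z hz hc
      rcases hrow z hz with h | h | h | ⟨-, -, h⟩
      · omega
      · exact absurd h (hnoQ z hz)
      · rw [h.lab]; exact h.drop.le
      · rw [h] at hc; omega
    · intro z hz hc _
      rcases hrow z hz with h | h | h | ⟨-, -, h⟩
      · omega
      · exact absurd h (hnoQ z hz)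
      · rw [h.nst]
      · rw [h] at hc; omega
  choose B hB using W.natTop
  by_cases hl : lev z = 2 * m + 1
  · left
    refine (Nat.le_add_right _ _).trans_lt (cc_dead H hB (fun x hx => W.lt_lev hx) hmu hu hg
      (fun h => ?_) W.sum_b W.farT (by omega) (fun z hz => ?_) z (W.mem_bd hz hl))
    · omega
    · rcases hrow z hz with h | h | h | ⟨h1, h2, -⟩
      · left; omega
      · exact absurd h (hnoQ z hz)
      · exact absurd h (hnoF z hz)
      · exact Or.inr ⟨h1, h2⟩
  · exact Or.inr hl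

end Pool.Agent.GaussPoset.Hc

end

/-! From `Pool.Agent.W_448hcc_h53.HcF` -/

section

/-!
Case B: from the strips to the context; there are no (C) elements.
-/

namespace Pool.Agent.GaussPoset.Hc

set_option linter.unusedSectionVars false

open Polynomial Finset

universe u

variable {P : Type u} [Fintype P] [PartialOrder P] [DecidableEq P] {r m K : ℕ}

open Cp

/-- the types of one component -/
inductive TyK (m K : ℕ) (t : Tops P) (b : ℕ) (N : Finset P) (θ : P → ℕ) : Prop
  | light (h1 : N = onlyB t) (h2 : θ = fun x => lev x - m) (h3 : b = 1)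
      (h6 : ∃ x ≤ (t : P), lev x = m)
  | rect (Nc : Finset P) (co : P → ℕ × ℕ) (h0 : RectNat (2 * m) m t b Nc co)
      (h1 : N = natR Nc co) (h2 : θ = thR m b Nc co) (h3 : NopT m t)
  | stair (Nc : Finset P) (co : P → ℕ × ℕ) (h0 : StairNat (2 * m) m t Nc co)
      (h1 : N = natS Nc co) (h2 : θ = thS m Nc co) (h3 : b = m / 2 + 1) (h4 : NopT m t)
  | quad (h1 : N = lowPart (2 * m) (t : P)) (h2 : θ = fun _ => 0) (h3 : b = 2)
      (h4 : QInf m m t) (h5 : 4 ≤ m)
  | oth (h1 : ∃ B, NatTop m t b N θ B) (h2 : lowPart (2 * m) (t : P) ⊆ N)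
      (h3 : ∀ z, z ∉ N → ∀ x ∈ N, z ⋖ x → K ≤ ct m (θ x + 1) z ∨ QPn m θ z x)
      (h4 : ∀ z, z ∉ N → ∀ x ∈ N, lev z = 2 * m + 1 → ¬ ∀ w, x < w ↔ z < w)

lemma TyK.tyG {N : Tops P → Finset P} {t : Tops P} {b : ℕ} {θ : P → ℕ}
    (h : TyK m K t b (N t) θ) : TyH m K N t b θ := by
  rcases h with ⟨h1, h2, h3, h6⟩ | ⟨Nc, co, h0, h1, h2, h3⟩ | ⟨Nc, co, h0, h1, h2, h3, h4⟩ |
    ⟨h1, h2, h3, h4, h5⟩ | ⟨h1, h2, h3, h4⟩
  · exact TyH.light h1 h2 h3 h6
  · exact TyH.rect Nc co h0 h1 h2 h3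
  · exact TyH.stair Nc co h0 h1 h2 h3 h4
  · exact TyH.quad h1 h2 h3 h4 h5
  · exact TyH.oth h1 h2 (fun z hz x hx hzx => h3 z (mem_unnat.mp hz t) x hx hzx)
      (fun z hz x hx hl => h4 z (mem_unnat.mp hz t) x hx hl)

section One

variable {t : Tops P} {lo hi : ℕ → ℕ} {e : ℕ → ℕ → P}

/-- the type of a strip -/
theorem tyL_shape (h : Win.GoodTo P r (2 * m)) (hm : 2 ≤ m) (hm3 : m ≠ 3)
    (C : Comp (2 * m) (t : P) lo hi e) (hS : Wd.Shape (2 * m) lo hi)
    (hO : ∀ a, a ≤ m → Wd.LateD (2 * m) a lo hi → Wd.word lo hi a (2 * m - a) ∈ Wd.lateW a →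
      ∃ N θ, TyK m K t (hi m - lo m + 1) N θ) :
    ∃ N θ, TyK m K t (hi m - lo m + 1) N θ ∧
      (StairShape (2 * m) lo hi → StairInfo m t lo hi e N θ) := by
  have H := h.H
  have hg := h.good
  by_cases S : StairShape (2 * m) lo hi
  · obtain ⟨Nc, co, h1, h1'⟩ := exists_stair C H hg H.gradedBelow S (i := m) le_rfl
    have hnop : NopT m t := by
      intro x z hxt hxl hx2 hzx honly
      obtain ⟨j, hj⟩ : ∃ j, 2 * m = j + 1 := ⟨2 * m - 1, by omega⟩
      have h2 := stairShape_pendant (i := j) (hj ▸ h) (by omega) t.2 (hj ▸ C) (hj ▸ S)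
        (hxl.trans hj) hxt hx2 hzx honly
      have h3 := cell_lev C (x := x) hxt (by omega)
      omega
    refine ⟨_, _, TyK.stair Nc co h1 rfl rfl ?_ hnop, fun _ => ⟨Nc, co, h1, rfl, rfl, hnop, h1'⟩⟩
    have e1 := S.hi m (by omega)
    have e2 := stair_lo C S
    omega
  · suffices hs : ∃ N θ, TyK m K t (hi m - lo m + 1) N θ by
      obtain ⟨N, θ, h1⟩ := hs
      exact ⟨N, θ, h1, fun h2 => absurd h2 S⟩
    rcases hS with h1 | ⟨h1, S'⟩ | ⟨h1, h2⟩ | ⟨h1, h2, h3⟩ | ⟨h1, h2⟩ | ⟨a, h0, h1, h2, h3, hN, h4⟩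
    · have e1 := h1 m (by omega)
      exact ⟨_, _, TyK.light rfl rfl (by omega)
        ⟨e m (lo m), C.le_t m (lo m) (by omega) le_rfl (C.lo_le m (by omega)),
          C.lev_e m (lo m) (by omega) le_rfl (C.lo_le m (by omega))⟩⟩
    · have hlt : lo m < hi m := by
        have g1 := C.lo_mono (l := 1) (d := m - 1) (by omega)
        have g2 := C.hi_mono (l := 1) (d := m - 1) (by omega)
        rw [show 1 + (m - 1) = m by omega] at g1 g2
        by_contra hcon
        have g3 := C.lo_le m (by omega)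
        have g4 := shape_lo C S'.lo (l := m) (by omega) m (by omega)
        have g5 := shape_hi C S'.hi (l := m) (by omega) m (by omega)
        have g6 := C.lo_le (m + m) (by omega)
        omega
      obtain ⟨Nc, co, h2, -⟩ := exists_rect C H hg H.gradedBelow S' (i := m) le_rfl hlt
      refine ⟨_, _, TyK.rect Nc co h2 rfl rfl ?_⟩
      intro x z hxt hxl hx2 hzx honly
      obtain ⟨j, hj⟩ : ∃ j, 2 * m = j + 1 := ⟨2 * m - 1, by omega⟩
      exact rectShape_no_pendant (i := j) (hj ▸ h) (by omega) t.2 (hj ▸ C) (hj ▸ S')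
        (hxl.trans hj) hxt hx2 hzx honly
    · exact absurd h2 S
    · omega
    · omega
    · have D : Wd.LateD (2 * m) a lo hi := ⟨h0, h1, h2, h3, h4⟩
      rcases Nat.lt_or_ge m a with hma | hma
      · have e1 := D.h2 m hma
        exact ⟨_, _, TyK.light rfl rfl (by omega)
          ⟨e m (lo m), C.le_t m (lo m) (by omega) le_rfl (C.lo_le m (by omega)),
            C.lev_e m (lo m) (by omega) le_rfl (C.lo_le m (by omega))⟩⟩
      · rcases h4 with ⟨⟨g1, g2⟩, g3⟩ | g3
        · have hq := D.quad C g3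
          obtain rfl : a = m := by omega
          have Q : QRows (2 * a) a lo hi := ⟨D.h2, D.h3, by
            intro k hk hk2
            have := hq (k - a) (by omega) (by omega)
            rwa [show a + (k - a) = k by omega] at this⟩
          have e1 := D.h3
          exact ⟨_, _, TyK.quad rfl rfl (by omega) (Q.inf C (by omega)) (by omega)⟩
        · exact hO a hma D g3

end One

section All

variable {lo hi : Tops P → ℕ → ℕ} {e : Tops P → ℕ → ℕ → P}

/-- case B: the context -/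
theorem exists_WH (hm : 2 ≤ m) (h : Win.GoodTo P r (2 * m)) (hK : KapS m K)
    (hK2 : K ≤ (m + 1) ^ 2)
    (C : ∀ t : Tops P, Comp (2 * m) (t : P) (lo t) (hi t) (e t))
    (hT : ∀ t, ∃ N θ, TyK m K t (hi t m - lo t m + 1) N θ ∧
      (StairShape (2 * m) (lo t) (hi t) → StairInfo m t (lo t) (hi t) (e t) N θ))
    (hnj : ∀ z : P, lev z = 2 * m + 1 → ¬ Hul.Jn z) :
    ∃ N θ, WH r m K N (fun t => hi t m - lo t m + 1) θ ∧
      ∀ t, StairShape (2 * m) (lo t) (hi t) → StairInfo m t (lo t) (hi t) (e t) (N t) (θ t) := by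
  classical
  choose N θ hT hI using hT
  refine ⟨N, θ, ⟨h, hm, fun t => (hT t).tyG, ?_, hnj, hK, hK2⟩, hI⟩
  rw [card_level h.H h.good C (i := m) (by omega)]

/-- **Case B.**  If no element of level `2 m + 1` is below two tops then no element of level
`2 m + 1` covers the fold end and the straight end of a stair.  `hO`: the late components with
`a ≤ m` which are no quadrics (`m = 4, .., 8` only). -/
theorem caseB_no_cc (hm : 2 ≤ m) (hm3 : m ≠ 3) (h : Win.GoodTo P r (2 * m))
    (C : ∀ t : Tops P, Comp (2 * m) (t : P) (lo t) (hi t) (e t))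
    (hS : ∀ t, Wd.Shape (2 * m) (lo t) (hi t))
    (hO : ∀ t a, a ≤ m → Wd.LateD (2 * m) a (lo t) (hi t) →
      Wd.word (lo t) (hi t) a (2 * m - a) ∈ Wd.lateW a →
      ∃ N θ, TyK m (Ke m) t (hi t m - lo t m + 1) N θ)
    (hnj : ∀ z : P, lev z = 2 * m + 1 → ¬ Hul.Jn z) {t : Tops P} {z : P}
    (S : StairShape (2 * m) (lo t) (hi t)) (h0 : lo t (2 * m) = 0)
    (hz1 : z ⋖ e t (2 * m) m) (hz2 : z ⋖ e t (2 * m) 0) : False := by
  classical
  have H := h.H
  obtain ⟨N, θ, W, hI⟩ := exists_WH hm h (kapS_Ke hm hm3) (Ke_le hm hm3) C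
    (fun t => tyL_shape h hm hm3 (C t) (hS t) (hO t)) hnj
  obtain ⟨Nc, co, R, h1, h2, h3, h4⟩ := hI t S
  have e1 := S.hi (2 * m) le_rfl
  have e2 := (C t).lev_e (2 * m) m le_rfl (by omega) (by omega)
  have e3 := (C t).lev_e (2 * m) 0 le_rfl (by omega) (by omega)
  have t2 := (C t).le_t (2 * m) m le_rfl (by omega) (by omega)
  have t3 := (C t).le_t (2 * m) 0 le_rfl (by omega) (by omega)
  have hF : e t (2 * m) m ∈ lowPart (2 * m) (t : P) := mem_lowPart.mpr ⟨t2, e2.le⟩
  have hS' : e t (2 * m) 0 ∈ lowPart (2 * m) (t : P) := mem_lowPart.mpr ⟨t3, e3.le⟩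
  have c2 : co (e t (2 * m) m) = (m, m) := by
    rw [h4 _ hF]
    unfold ccoord
    rw [scoord_e (C t) (k := 2 * m) (s := m) le_rfl (by omega) (by omega), e2]
    exact Prod.ext rfl (by simp only; omega)
  have c3 : co (e t (2 * m) 0) = (0, 2 * m) := by
    rw [h4 _ hS']
    unfold ccoord
    rw [scoord_e (C t) (k := 2 * m) (s := 0) le_rfl (by omega) (by omega), e3]
    exact Prod.ext rfl (by simp only; omega)
  have hFN := R.strip hF
  have hSN := R.strip hS'
  have hne : e t (2 * m) m ≠ e t (2 * m) 0 := by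
    intro h
    rw [h, c3, Prod.mk.injEq] at c2
    omega
  have D : CEl t Nc co m z (e t (2 * m) m) (e t (2 * m) 0) :=
    ⟨R.chart, R.strip, hFN, hSN, c2, c3, hz1, hz2, fun y hy => uc_pair H hz1 hz2 hne hy⟩
  have hlz := D.lev_z H.gradedBelow
  have hzR : z ∈ r2 (2 * m) N := by
    refine mem_sdiff.mpr ⟨D.not_nat W.natSys h1 (by omega) hz1.1 hz2.1 hlz, ?_⟩
    intro hY
    obtain ⟨-, -, y, hy, hyz⟩ := mem_twY.mp hY
    refine hy (D.not_nat W.natSys h1 (by omega) ((hyz _).mpr hz1.1) ((hyz _).mpr hz2.1) ?_)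
    rw [lev_eq_of_up hyz]
    exact hlz
  have htF : topOf (e t (2 * m) m) = t := W.natSys.topOf_eq (by
    rw [h1]; exact mem_natS.mpr (Or.inl hFN))
  have htS : topOf (e t (2 * m) 0) = t := W.natSys.topOf_eq (by
    rw [h1]; exact mem_natS.mpr (Or.inl hSN))
  have hthF : θ t (e t (2 * m) m) = m % 2 := by
    rw [h2]
    unfold thS
    rw [if_neg (fold_not_junk R.chart hFN (by rw [c2]; show 1 ≤ m; omega)), c2]
    simp only
    omega
  have hthS : m % 2 ≤ θ t (e t (2 * m) 0) := by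
    rw [h2]
    unfold thS
    split_ifs
    · rw [e3]; omega
    · rw [c3]; simp only; omega
  have hlab : GaussPoset.h2 (2 * m) N θ z = hh m := by
    rw [W.h2_eq hzR hlz hz1 (fun y hy => ?_), htF, hthF, hh_eq]
    rcases D.only y hy with h | h
    · rw [h]
    · rw [h, htF, htS, hthF]
      exact hthS
  rcases W.no_cc hm3 (by unfold Ke; omega) hzR with h5 | h5
  · rw [cst_ct hlab] at h5
    have h6 := D.cst_eq H.gradedBelow (by omega)
    have h7 : cst m (fun _ => hh m) z = ct m (hh m) z := rfl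
    omega
  · exact h5 hlz

end All

end Pool.Agent.GaussPoset.Hc

end

/-! From `Pool.Agent.W_448hcc_h53.HcG` -/

section

/-!
The strips `E7`, `La5`, `La6` at level 12, window 6 (MP_448cb3_co).
-/

namespace Pool.Agent.GaussPoset.Hc

set_option linter.unusedSectionVars false

open Polynomial Finset Cl Wd

universe u

/-- the up-sets -/
def Ha6us : List ℕ := [33554431, 32505855, 31457279, 30408703, 30277631, 30261247, 16777215, 15728639, 14680063, 13631487, 13500415, 13484031, 12582911, 11534335, 10485759, 10223615, 9437183, 9306111, 9289727, 9175039, 9043967, 9027583, 9011199, 8994815, 8990719, 8989695, 8989439, 8388607, 7340031, 6291455, 5242879, 5111807, 5095423, 4194303, 3670015, 3145727, 2621439, 2097151, 1835007, 1572863, 1310719, 1245183, 1048575, 917503, 901119, 786431, 655359, 638975, 622591, 606207, 602111, 601087, 600831, 524287, 393215, 376831, 262143, 196607, 131071, 114687, 98303, 81919, 77823, 76799, 76543, 65535, 49151, 32767, 24575, 16383,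 12287, 11263, 11007, 8191, 4095, 3071, 2815, 2047, 1023, 767, 511, 383, 255, 191, 127, 63, 31, 15, 7, 3, 1, 0]

/-- the covers -/
def Ha6cv : List ℕ := [0, 1, 2, 4, 8, 16, 32, 32, 64, 192, 768, 512, 3072, 2048, 4096, 12288, 8192, 49152, 98304, 65536, 131072, 393216, 786432, 524288, 12582912]

/-- the levels -/
def Ha6lv : List ℕ := [0, 1, 2, 3, 4, 5, 6, 6, 7, 7, 8, 8, 9, 9, 10, 10, 10, 11, 11, 11, 12, 12, 12, 12, 13]

/-- the cells above -/
def Ha6um : List ℕ := [1, 3, 7, 15, 31, 63, 127, 191, 383, 767, 2047, 2815, 8191, 11007, 24575, 49151, 76543, 196607, 376831, 600831, 1245183, 2621439, 5095423, 8989439, 30261247]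

/-- the thresholds -/
def Ha6th : List ℕ := [0, 0, 0, 0, 0, 0, 0, 0, 1, 0, 1, 0, 1, 0, 2, 1, 0, 2, 1, 0, 3, 2, 1, 0, 1]

/-- window 6 -/
def Ha6L6 : List (ℕ × ℕ × ℕ) := [(8989439, 13, 1), (8989695, 13, 2), (8990719, 13, 3), (8994815, 13, 4), (9011199, 13, 5), (9027583, 13, 5), (9043967, 13, 6), (9175039, 13, 7), (9289727, 13, 6), (9306111, 13, 7), (9437183, 13, 8), (10223615, 13, 8), (10485759, 13, 9), (11534335, 13, 9), (12582911, 13, 10), (13484031, 13, 7), (13500415, 13, 8), (13631487, 13, 9), (14680063, 13, 10), (15728639, 13, 10), (16777215, 13, 11), (30261247, 14, 7), (30277631, 14, 8), (30408703, 14, 9), (31457279, 14, 10), (32505855, 14, 10), (33554431, 14, 11)]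

theorem Ha6_us : UsOK 25 (fun a => Ha6cv.getD a 0) Ha6us :=
  usOK_of_chk (by decide +kernel)

theorem Ha6_win6 : winChk 25 (2 ^ 100) 11 (fun a => Ha6lv.getD a 0) Ha6us 6 8989439
    Ha6L6 = true := by
  decide +kernel

theorem Ha6_th6 : thChk 25 6 23 (fun a => Ha6lv.getD a 0) (fun a => Ha6cv.getD a 0)
    (fun a => Ha6um.getD a 0) (fun a => Ha6th.getD a 0) = true := by
  decide +kernel

theorem Ha6_bm6 : Sg.bmC 25 6 23 8989439 (fun a => Ha6lv.getD a 0)
    (fun a => Ha6um.getD a 0) = true := by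
  decide +kernel

section Cod

variable {P : Type u} [Fintype P] [PartialOrder P] [DecidableEq P]
variable {n N : ℕ} {cv lv : ℕ → ℕ} {c : ℕ → P} {Us : List ℕ}

/-- local data of a coded set from the checks -/
theorem cod_loc (C : Cod n cv lv c) (hU : UsOK N cv Us) (hn : n ≤ N) {um th : ℕ → ℕ}
    {i a0 B K bm : ℕ} (hth : thChk N i a0 lv cv um th = true) (ha0 : a0 < n) {S : Finset P}
    (hS : ∀ x, x ∈ S ↔ ∃ a < n, c a = x) {L : List (ℕ × ℕ × ℕ)}
    (hw : winChk N B K lv Us i bm L = true) (hbm : Sg.bmC N i a0 bm lv um = true)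
    (hbn : bm < 2 ^ n) : LocData i 2 S (Sg.thI n c th) (fun x => x = c a0) := by
  unfold thChk at hth
  simp only [Bool.and_eq_true, List.all_eq_true, List.mem_range, Bool.or_eq_true, ble_iff,
    beq_iff, Nat.blt_eq, Bool.not_eq_true'] at hth
  obtain ⟨⟨h1, h2⟩, h3⟩ := hth
  have hle : ∀ {a b : ℕ}, a < n → b < n → (c a ≤ c b ↔ (um a).testBit b = true) := fun ha hb =>
    C.le_iff hn hU.cv h1 ha hb
  have hpos : ∀ x ∈ S, 1 ≤ Sg.thI n c th x → ∃ a < n, c a = x ∧
      i < lv a ∧ (um a0).testBit a = false ∧ th a ≤ lv a - i ∧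
      ∀ y < N, (um y).testBit a = false ∨ ∀ x' < N, ((cv y).testBit x' = false ∨
        (um x').testBit a = true) ∨ th a ≤ th x' + 1 := by
    intro x hx h4
    obtain ⟨a, ha, rfl⟩ := (hS x).mp hx
    rw [Sg.thI_c C th ha] at h4
    rcases h2 a (by omega) with h5 | ⟨⟨⟨h5, h6⟩, h7⟩, h8⟩
    · omega
    · exact ⟨a, ha, rfl, h5, h6, h7, h8⟩
  constructor
  · intro U hUS hup hlow hB
    have hb := hB _ ((hS _).mpr ⟨a0, ha0, rfl⟩) rfl
    refine C.clean_of hU hn hw (fun x hx => (hS x).mp (hUS hx)) hup hbn ?_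
    intro a ha hab
    unfold Sg.bmC at hbm
    simp only [List.all_eq_true, List.mem_range, Bool.or_eq_true, ble_iff,
      Bool.not_eq_true'] at hbm
    rcases hbm a (by omega) with (h4 | h4) | h4
    · rw [hab] at h4
      exact absurd h4 (by simp)
    · refine hlow _ ((hS _).mpr ⟨a, ha, rfl⟩) ?_
      rw [C.lev a ha]
      exact h4
    · exact hup _ hb _ ((hle ha0 ha).mpr h4)
  · intro x hx h4
    obtain ⟨a, ha, rfl, h5, -⟩ := hpos x hx h4
    rw [C.lev a ha]
    exact h5
  · rintro x hx h4 y hy hyx rfl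
    obtain ⟨a, ha, rfl, -, h6, -⟩ := hpos x hx h4
    rw [hle ha0 ha, h6] at hyx
    exact absurd hyx (by simp)
  · intro x hx h4 y hy hyx x' hx' hyx' hn'
    obtain ⟨a, ha, rfl, -, -, -, h8⟩ := hpos x hx h4
    obtain ⟨y, hy', rfl⟩ := (hS y).mp hy
    obtain ⟨x', hxn', hcx, rfl⟩ := (C.cov y hy' x').mp hyx'
    rw [Sg.thI_c C th ha, Sg.thI_c C th hxn']
    rcases h8 y (by omega) with h9 | h9
    · rw [hle hy' ha, h9] at hyx
      exact absurd hyx (by simp)
    · rcases h9 x' (by omega) with (h10 | h10) | h10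
      · rw [hcx] at h10
        exact absurd h10 (by simp)
      · exact absurd ((hle hxn' ha).mpr h10) hn'
      · exact h10
  · intro x hx
    rcases Nat.eq_zero_or_pos (Sg.thI n c th x) with h4 | h4
    · rw [h4]; exact Nat.zero_le _
    · obtain ⟨a, ha, rfl, -, -, h7, -⟩ := hpos x hx h4
      rw [Sg.thI_c C th ha, C.lev a ha]
      exact h7

end Cod

section

variable {P : Type u} [Fintype P] [PartialOrder P] [DecidableEq P] {r : ℕ}
variable {t : Tops P} {lo hi : ℕ → ℕ} {e : ℕ → ℕ → P}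

/-- the natural set of `La6` with the element below the first two cells -/
theorem natTop_Ha6 (D : WordD 12 6 wa6 lo hi) (C : Cp.Comp 12 (t : P) lo hi e) (H : Gr P r)
    (hg : ∀ l, l < 12 → Win.Good P l) {z0 : P} (h0 : z0 ⋖ e 12 6) (h1 : z0 ⋖ e 12 5) :
    ∃ θ : P → ℕ, NatTop 6 t 2 (insert z0 (lowPart 12 (t : P))) θ (fun x => x = e 12 6) ∧
      θ (e 12 3) = 3 ∧ θ (e 12 4) = 2 ∧ θ (e 12 5) = 1 ∧ θ (e 12 6) = 0 ∧ θ z0 = 1 := by
  obtain ⟨r1, r2⟩ := D.rows C
  have hC := La6_strip.cod C H hg t.2 (by norm_num) r1 r2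
  have e1 : losW 6 wa6 12 = 3 ∧ hisW 6 wa6 12 = 6 := by decide +kernel
  have l12 : lo 12 = 3 := by rw [r1 12 le_rfl, e1.1]
  have u12 : hi 12 = 6 := by rw [r2 12 le_rfl, e1.2]
  have hne : e 12 6 ≠ e 12 5 := fun h => by
    have := C.inj 12 6 5 le_rfl (by omega) (by omega) (by omega) (by omega) h
    omega
  have hl0 : lev z0 = 13 := by
    have h2 := (H.covBy_iff.mp h0).2
    have h3 := C.lev_e 12 6 le_rfl (by omega) (by omega)
    omega
  have hcv0 : ∀ a < 24, La6cv.getD a 0 < 2 ^ 24 := by decide +kernel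
  have hlow : ∀ a < 24, e (La6lv.getD a 0) (La6sl.getD a 0) ∈ lowPart 12 (t : P) := by
    intro a ha
    have hr := La6_strip.row a (by omega)
    have hla : ∀ a < 24, La6lv.getD a 0 ≤ 12 := by decide +kernel
    have h2 := hla a ha
    have hr' : lo (La6lv.getD a 0) ≤ La6sl.getD a 0 ∧ La6sl.getD a 0 ≤ hi (La6lv.getD a 0) := by
      rw [r1 _ h2, r2 _ h2]
      exact hr
    rw [mem_lowPart, C.lev_e _ _ h2 hr'.1 hr'.2]
    exact ⟨C.le_t _ _ h2 hr'.1 hr'.2, h2⟩
  have hX := J8.Cod.extend hC (y := z0) (m := 12582912) (l := 13) hcv0 (by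
      intro a ha h
      have h2 := (mem_lowPart.mp (hlow a ha)).2
      have h3 : e (La6lv.getD a 0) (La6sl.getD a 0) = z0 := h
      rw [h3] at h2
      omega) (by decide +kernel) (by
      intro w
      constructor
      · intro hw
        rcases uc_pair H h0 h1 hne hw with h | h
        · exact ⟨23, by decide +kernel, by decide +kernel, h.symm⟩
        · exact ⟨22, by decide +kernel, by decide +kernel, h.symm⟩
      · rintro ⟨b, hb, h2, h3⟩
        have h4 : ∀ b < 24, (12582912 : ℕ).testBit b = true → b = 22 ∨ b = 23 := by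
          decide +kernel
        rcases h4 b hb h2 with h5 | h5
        · subst h5
          rw [← h3]; exact h1
        · subst h5
          rw [← h3]; exact h0) hl0
  set c : ℕ → P := fun a => if a = 24 then z0 else e (La6lv.getD a 0) (La6sl.getD a 0) with hc
  have hY : Cod 25 (fun a => Ha6cv.getD a 0) (fun a => Ha6lv.getD a 0) c := by
    refine J8.Cod.congr hX (fun a ha => ?_) (fun a ha => ?_) (fun a ha => rfl)
    · have h2 : ∀ a < 25, Ha6cv.getD a 0 = if a = 24 then 12582912 else La6cv.getD a 0 := by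
        decide +kernel
      exact h2 a ha
    · have h2 : ∀ a < 25, Ha6lv.getD a 0 = if a = 24 then 13 else La6lv.getD a 0 := by
        decide +kernel
      exact h2 a ha
  have hS : ∀ x, x ∈ insert z0 (lowPart 12 (t : P)) ↔ ∃ a < 25, c a = x := by
    intro x
    rw [mem_insert]
    constructor
    · rintro (h | h)
      · exact ⟨24, by norm_num, by rw [hc]; simp only [if_true]; exact h.symm⟩
      · obtain ⟨a, ha, h2⟩ := La6_strip.surj' C (by norm_num) r1 r2 h
        have ha' : a < 24 := ha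
        refine ⟨a, by omega, ?_⟩
        rw [hc]
        simp only
        rw [if_neg (by omega)]
        exact h2
    · rintro ⟨a, ha, h2⟩
      by_cases h3 : a = 24
      · left
        rw [hc] at h2
        simp only at h2
        rw [if_pos h3] at h2
        exact h2.symm
      · right
        rw [hc] at h2
        simp only at h2
        rw [if_neg h3] at h2
        rw [← h2]
        exact hlow a (by omega)
  have hcv : ∀ a, a < 24 → c a = e (La6lv.getD a 0) (La6sl.getD a 0) := by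
    intro a ha
    rw [hc]
    simp only
    rw [if_neg (by omega)]
  have hL := cod_loc hY Ha6_us le_rfl Ha6_th6 (by norm_num) hS Ha6_win6 Ha6_bm6 (by norm_num)
  have hth : ∀ a, a < 25 → Sg.thI 25 c (fun a => Ha6th.getD a 0) (c a) = Ha6th.getD a 0 :=
    fun a ha => Sg.thI_c hY _ ha
  have hc23 : c 23 = e 12 6 := hcv 23 (by norm_num)
  have hup : ∀ x ∈ insert z0 (lowPart 12 (t : P)), ∀ y, x ≤ y →
      y ∈ insert z0 (lowPart 12 (t : P)) := by
    have hlu : ∀ x ∈ lowPart 12 (t : P), ∀ y, x ≤ y → y ∈ lowPart 12 (t : P) := by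
      intro x hx y hxy
      rw [mem_lowPart] at hx ⊢
      refine ⟨Cp.up_le H hg t.2 hx.1 hx.2 hxy, ?_⟩
      rcases eq_or_lt_of_le hxy with h | h
      · rw [← h]; exact hx.2
      · have := lev_strictAnti h
        omega
    intro x hx y hxy
    rcases mem_insert.mp hx with h | h
    · subst h
      rcases eq_or_lt_of_le hxy with h2 | h2
      · rw [← h2]; exact mem_insert_self _ _
      · obtain ⟨v, hv, hvy⟩ := Hul.exists_cov h2
        refine mem_insert_of_mem ?_
        rcases uc_pair H h0 h1 hne hv with h3 | h3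
        · rw [h3] at hvy
          exact hlu _ (by
            rw [mem_lowPart, C.lev_e 12 6 le_rfl (by omega) (by omega)]
            exact ⟨C.le_t 12 6 le_rfl (by omega) (by omega), le_rfl⟩) y hvy
        · rw [h3] at hvy
          exact hlu _ (by
            rw [mem_lowPart, C.lev_e 12 5 le_rfl (by omega) (by omega)]
            exact ⟨C.le_t 12 5 le_rfl (by omega) (by omega), le_rfl⟩) y hvy
    · exact mem_insert_of_mem (hlu x h y hxy)
  refine ⟨Sg.thI 25 c (fun a => Ha6th.getD a 0), ?_, ?_, ?_, ?_, ?_, ?_⟩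
  · rw [hc23] at hL
    refine hL.natTop hup ?_ ?_
    · intro x hx
      rcases mem_insert.mp hx with h | h
      · rw [h]
        exact h0.le.trans (C.le_t 12 6 le_rfl (by omega) (by omega))
      · exact (mem_lowPart.mp h).1
    · intro x hx hl
      exact mem_insert_of_mem (mem_lowPart.mpr ⟨hx, by omega⟩)
  · have h2 := hth 20 (by norm_num)
    rw [hcv 20 (by norm_num)] at h2
    exact h2
  · have h2 := hth 21 (by norm_num)
    rw [hcv 21 (by norm_num)] at h2
    exact h2
  · have h2 := hth 22 (by norm_num)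
    rw [hcv 22 (by norm_num)] at h2
    exact h2
  · have h2 := hth 23 (by norm_num)
    rw [hcv 23 (by norm_num)] at h2
    exact h2
  · have h2 := hth 24 (by norm_num)
    have h3 : c 24 = z0 := by rw [hc]; simp
    rw [h3] at h2
    exact h2

end

end Pool.Agent.GaussPoset.Hc

end

/-! From `Pool.Agent.W_448hcc_h53.HcH` -/

section

/-!
Case B, `m = 6`: no element (C) (MP_448cb3_co, input HCC at `m = 6`).
-/

namespace Pool.Agent.GaussPoset.Hc

set_option linter.unusedSectionVars false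

open Polynomial Finset Cl Wd

universe u

variable {P : Type u} [Fintype P] [PartialOrder P] [DecidableEq P] {r : ℕ}
variable {t : Tops P} {lo hi : ℕ → ℕ} {e : ℕ → ℕ → P}

/-- the number of cells of level `l` above the cell `s` of the last row -/
def nbw (a : ℕ) (w : List Ltr) (s l : ℕ) : ℕ :=
  (upI (losW a w) (hisW a w) 12 s (12 - l)).2 + 1 - (upI (losW a w) (hisW a w) 12 s (12 - l)).1

lemma nab_cell {a : ℕ} {w : List Ltr} (D : WordD 12 a w lo hi) (C : Cp.Comp 12 (t : P) lo hi e)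
    (H : Gr P r) (hg : ∀ l, l < 12 → Win.Good P l) {s : ℕ} (h1 : losW a w 12 ≤ s)
    (h2 : s ≤ hisW a w 12) {l : ℕ} (hl : l ≤ 12) : nab l (e 12 s) = nbw a w s l := by
  obtain ⟨r1, r2⟩ := D.rows C
  have h3 := nab_upI C H hg t.2 (s := s) (by rw [r1 12 le_rfl]; exact h1)
    (by rw [r2 12 le_rfl]; exact h2) (m := 12 - l) (by omega)
  have h4 : upI lo hi 12 s (12 - l) = upI (losW a w) (hisW a w) 12 s (12 - l) := by
    have := upI_congr (L := losW a w) (H := hisW a w) (lo := lo) (hi := hi) (B := 0)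
      (N := 12) (s := s) (fun n hn => by rw [Nat.zero_add]; exact (r1 n hn).symm)
      (fun n hn => by rw [Nat.zero_add]; exact (r2 n hn).symm) (12 - l) (by omega)
    rw [this]
  rw [h4, show 12 - (12 - l) = l by omega] at h3
  exact h3

lemma ct_cell {a : ℕ} {w : List Ltr} (D : WordD 12 a w lo hi) (C : Cp.Comp 12 (t : P) lo hi e)
    (H : Gr P r) (hg : ∀ l, l < 12 → Win.Good P l) {s : ℕ} (h1 : losW a w 12 ≤ s)
    (h2 : s ≤ hisW a w 12) (k : ℕ) :
    ct 6 k (e 12 s) = ∑ l ∈ range 13, min k (l - 6) * nbw a w s l := by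
  obtain ⟨r1, r2⟩ := D.rows C
  have hl := C.lev_e 12 s le_rfl (by rw [r1 12 le_rfl]; exact h1) (by rw [r2 12 le_rfl]; exact h2)
  unfold ct
  rw [cst_eq, hl]
  refine Finset.sum_congr rfl fun l hl' => ?_
  rw [mem_range] at hl'
  rw [nab_cell D C H hg h1 h2 (by omega)]

/-- the cost of an element of level 13 below a cell -/
lemma cost_cell {a : ℕ} {w : List Ltr} (D : WordD 12 a w lo hi) (C : Cp.Comp 12 (t : P) lo hi e)
    (H : Gr P r) (hg : ∀ l, l < 12 → Win.Good P l) {s : ℕ} (h1 : losW a w 12 ≤ s)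
    (h2 : s ≤ hisW a w 12) {k : ℕ} (hk : k ≤ 7)
    (hc : 22 ≤ k + ∑ l ∈ range 13, min k (l - 6) * nbw a w s l) {z : P} (hz : z ⋖ e 12 s) :
    22 ≤ ct 6 k z := by
  obtain ⟨r1, r2⟩ := D.rows C
  have hl := C.lev_e 12 s le_rfl (by rw [r1 12 le_rfl]; exact h1) (by rw [r2 12 le_rfl]; exact h2)
  have h3 := (H.covBy_iff.mp hz).2
  have h4 := ct_cov (i := 6) (k := k) hz.1
  rw [ct_cell D C H hg h1 h2, Nat.min_eq_left (by omega)] at h4
  omega

/-- strips with large costs -/
theorem tyK_word {a : ℕ} {w : List Ltr} (D : WordD 12 a w lo hi)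
    (C : Cp.Comp 12 (t : P) lo hi e) (h : Win.GoodTo P r 12) {thv : ℕ → ℕ → ℕ} {x0 : P}
    (hN : NatTop 6 t 2 (lowPart 12 (t : P)) (thC lo hi e thv) (fun x => x = x0))
    (h6 : losW a w 6 + 1 = hisW a w 6)
    (hc : ∀ s, losW a w 12 ≤ s → s ≤ hisW a w 12 → thv 12 s + 1 ≤ 7 ∧
      22 ≤ thv 12 s + 1 + ∑ l ∈ range 13, min (thv 12 s + 1) (l - 6) * nbw a w s l) :
    ∃ N θ, TyK (P := P) 6 (Ke 6) t (hi 6 - lo 6 + 1) N θ := by
  have H := h.H
  have hg := h.good
  obtain ⟨r1, r2⟩ := D.rows C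
  have hb : hi 6 - lo 6 + 1 = 2 := by
    rw [r1 6 (by norm_num), r2 6 (by norm_num)]
    omega
  rw [hb, show Ke 6 = 22 from Ke_even 3]
  refine ⟨_, _, TyK.oth ⟨_, hN⟩ (fun x hx => hx) ?_ ?_⟩
  · intro z hz x hx hzx
    left
    rw [mem_lowPart] at hx
    have h1 : 12 ≤ lev x := by
      by_contra hcon
      have h3 := (H.covBy_iff.mp hzx).2
      exact hz (mem_lowPart.mpr ⟨hzx.le.trans hx.1, by omega⟩)
    obtain ⟨s, s1, s2, hs⟩ := C.surj x hx.1 hx.2
    have hl : lev x = 12 := by omega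
    rw [hl] at s1 s2 hs
    subst hs
    have s1' : losW a w 12 ≤ s := by rw [← r1 12 le_rfl]; exact s1
    have s2' : s ≤ hisW a w 12 := by rw [← r2 12 le_rfl]; exact s2
    obtain ⟨c1, c2⟩ := hc s s1' s2'
    rw [thC_e C thv le_rfl s1 s2]
    exact cost_cell D C H hg s1' s2' c1 c2 hzx
  · intro z _ x hx hl htw
    have h1 := lev_eq_of_up htw
    have h2 := (mem_lowPart.mp hx).2
    omega

/-- `E7` at level 12 -/
theorem tyK_E7 (D : WordD 12 4 w7 lo hi) (C : Cp.Comp 12 (t : P) lo hi e)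
    (h : Win.GoodTo P r 12) : ∃ N θ, TyK (P := P) 6 (Ke 6) t (hi 6 - lo 6 + 1) N θ := by
  refine tyK_word D C h (natTopC_E7_6 D C h.H h.good (by norm_num) (by norm_num))
    (by decide +kernel) ?_
  intro s s1 s2
  have e1 : losW 4 w7 12 = 4 ∧ hisW 4 w7 12 = 5 := by decide +kernel
  rw [e1.1] at s1
  rw [e1.2] at s2
  rcases (show s = 4 ∨ s = 5 by omega) with h1 | h1 <;> subst h1 <;> decide +kernel

/-- `La5` at level 12 -/
theorem tyK_La5 (D : WordD 12 5 wa5 lo hi) (C : Cp.Comp 12 (t : P) lo hi e)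
    (h : Win.GoodTo P r 12) : ∃ N θ, TyK (P := P) 6 (Ke 6) t (hi 6 - lo 6 + 1) N θ := by
  refine tyK_word D C h (natTopC_La5_6 D C h.H h.good (by norm_num) (by norm_num))
    (by decide +kernel) ?_
  intro s s1 s2
  have e1 : losW 5 wa5 12 = 3 ∧ hisW 5 wa5 12 = 5 := by decide +kernel
  rw [e1.1] at s1
  rw [e1.2] at s2
  rcases (show s = 3 ∨ s = 4 ∨ s = 5 by omega) with h1 | h1 | h1 <;> subst h1 <;> decide +kernel

/-- `La6` at level 12, natural row -/
theorem tyK_La6 (D : WordD 12 6 wa6 lo hi) (C : Cp.Comp 12 (t : P) lo hi e)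
    (h : Win.GoodTo P r 12) (hnat : Win.NatT 12 (t : P))
    (hnj : ∀ z : P, lev z = 13 → ¬ Hul.Jn z) :
    ∃ N θ, TyK (P := P) 6 (Ke 6) t (hi 6 - lo 6 + 1) N θ := by
  classical
  have H := h.H
  have hg := h.good
  obtain ⟨r1, r2⟩ := D.rows C
  have e1 : losW 6 wa6 12 = 3 ∧ hisW 6 wa6 12 = 6 ∧ losW 6 wa6 11 = 3 ∧ hisW 6 wa6 11 = 5 ∧
      losW 6 wa6 6 = 0 ∧ hisW 6 wa6 6 = 1 := by decide +kernel
  have l12 : lo 12 = 3 := by rw [r1 12 le_rfl, e1.1]
  have u12 : hi 12 = 6 := by rw [r2 12 le_rfl, e1.2.1]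
  have l11 : lo 11 = 3 := by rw [r1 11 (by norm_num), e1.2.2.1]
  have u11 : hi 11 = 5 := by rw [r2 11 (by norm_num), e1.2.2.2.1]
  have hb : hi 6 - lo 6 + 1 = 2 := by
    rw [r1 6 (by norm_num), r2 6 (by norm_num), e1.2.2.2.2.1, e1.2.2.2.2.2]
  rw [hb, show Ke 6 = 22 from Ke_even 3]
  have hle : ∀ s, 3 ≤ s → s ≤ 6 → e 12 s ≤ (t : P) := fun s h1 h2 =>
    C.le_t 12 s le_rfl (by omega) (by omega)
  have hlv : ∀ s, 3 ≤ s → s ≤ 6 → lev (e 12 s) = 12 := fun s h1 h2 =>
    C.lev_e 12 s le_rfl (by omega) (by omega)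
  have hinj : ∀ s s', 3 ≤ s → s ≤ 6 → 3 ≤ s' → s' ≤ 6 → e 12 s = e 12 s' → s = s' :=
    fun s s' h1 h2 h3 h4 hh => C.inj 12 s s' le_rfl (by omega) (by omega) (by omega) (by omega) hh
  have hcv : ∀ s s', 3 ≤ s → s ≤ 6 → 3 ≤ s' → s' ≤ 5 →
      (e 12 s ⋖ e 11 s' ↔ (s' = s ∨ s' + 1 = s)) := fun s s' h1 h2 h3 h4 =>
    C.cov 11 s s' (by norm_num) (by show lo 12 ≤ s; omega) (by show s ≤ hi 12; omega)
      (by omega) (by omega)
  -- common upper covers of the end
  have hup6 : ∀ v, e 12 6 ⋖ v → v = e 11 5 := by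
    intro v hv
    obtain ⟨s', h4, h5, h6, h7⟩ := C.cov_up H hg t.2 (k := 11) (s := 6) (by norm_num)
      (by show lo 12 ≤ 6; omega) (by show 6 ≤ hi 12; omega) hv
    rw [h6, show s' = 5 by omega]
  have hcommon : ∀ s, 3 ≤ s → s ≤ 5 → ucv (e 12 6) (e 12 s) = if s = 5 then 1 else 0 := by
    intro s h1 h2
    by_cases h5 : s = 5
    · rw [if_pos h5, h5]
      unfold ucv
      rw [Finset.card_eq_one]
      refine ⟨e 11 5, ?_⟩
      ext v
      simp only [mem_filter, mem_univ, true_and, mem_singleton]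
      constructor
      · exact fun hv => hup6 v hv.1
      · rintro rfl
        exact ⟨(hcv 6 5 (by norm_num) (by norm_num) (by norm_num) (by norm_num)).mpr
            (by norm_num),
          (hcv 5 5 (by norm_num) (by norm_num) (by norm_num) (by norm_num)).mpr
            (by norm_num)⟩
    · rw [if_neg h5]
      unfold ucv
      rw [Finset.card_eq_zero, Finset.filter_eq_empty_iff]
      rintro v - ⟨hv1, hv2⟩
      rw [hup6 v hv1] at hv2
      have := (hcv s 5 h1 (by omega) (by norm_num) (by norm_num)).mp hv2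
      omega
  have hdc : ∀ s, 3 ≤ s → s ≤ 5 → dcv (e 12 6) (e 12 s) = if s = 5 then 1 else 0 := by
    intro s h1 h2
    rw [← hcommon s h1 h2]
    refine (hnat _ _ (hlv 6 (by norm_num) le_rfl) (hlv s h1 (by omega)) (hle 6 (by norm_num)
      le_rfl) (hle s h1 (by omega)) ?_).symm
    intro hh
    have := hinj 6 s (by norm_num) le_rfl h1 (by omega) hh
    omega
  have h56 := hdc 5 (by norm_num) le_rfl
  rw [if_pos rfl] at h56
  unfold dcv at h56
  obtain ⟨z0, hz0⟩ := Finset.card_eq_one.mp h56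
  have hz0' : ∀ v, (v ⋖ e 12 6 ∧ v ⋖ e 12 5) ↔ v = z0 := by
    intro v
    have : v ∈ (univ.filter (fun x : P => x ⋖ e 12 6 ∧ x ⋖ e 12 5)) ↔ v ∈ ({z0} : Finset P) := by
      rw [hz0]
    simpa using this
  obtain ⟨z6, z5⟩ := (hz0' z0).mpr rfl
  obtain ⟨θ, hN, t3, t4, t5, t6, tz⟩ := natTop_Ha6 D C H hg z6 z5
  have hlz0 : lev z0 = 13 := by
    have := (H.covBy_iff.mp z6).2
    rw [hlv 6 (by norm_num) le_rfl] at this
    exact this
  have hrow : ∀ s, 3 ≤ s → s ≤ 6 → losW 6 wa6 12 ≤ s ∧ s ≤ hisW 6 wa6 12 := by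
    intro s h1 h2
    rw [e1.1, e1.2.1]
    exact ⟨h1, h2⟩
  refine ⟨_, θ, TyK.oth ⟨_, hN⟩ (fun x hx => mem_insert_of_mem hx) ?_ ?_⟩
  · intro z hz x hx hzx
    rw [mem_insert, not_or] at hz
    rcases mem_insert.mp hx with hx | hx
    · -- below `z0`
      left
      subst hx
      have h3 := (H.covBy_iff.mp hzx).2
      have h4 := ct_cov (i := 6) (k := θ x + 1) hzx.1
      have h5 := ct_cov (i := 6) (k := θ x + 1) z5.1
      rw [tz] at h4 h5 ⊢
      have h6 : ct 6 (1 + 1) (e 12 5) = 20 := by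
        rw [ct_cell D C H hg (hrow 5 (by norm_num) (by norm_num)).1
          (hrow 5 (by norm_num) (by norm_num)).2]
        decide +kernel
      rw [h6] at h5
      rw [h3, hlz0] at h4
      rw [hlz0] at h5
      have m1 : min (1 + 1) (13 - 6) = 2 := by norm_num
      have m2 : min (1 + 1) (13 + 1 - 6) = 2 := by norm_num
      rw [m1] at h5
      rw [m2] at h4
      omega
    · have hx' := mem_lowPart.mp hx
      have h1 : 12 ≤ lev x := by
        by_contra hcon
        have h3 := (H.covBy_iff.mp hzx).2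
        exact hz.2 (mem_lowPart.mpr ⟨hzx.le.trans hx'.1, by omega⟩)
      obtain ⟨s, s1, s2, hs⟩ := C.surj x hx'.1 hx'.2
      have hl : lev x = 12 := by omega
      rw [hl] at s1 s2 hs
      subst hs
      rcases (show s = 3 ∨ s = 4 ∨ s = 5 ∨ s = 6 by omega) with h2 | h2 | h2 | h2
      · left
        subst h2
        rw [t3]
        exact cost_cell D C H hg (hrow 3 (by norm_num) (by norm_num)).1
          (hrow 3 (by norm_num) (by norm_num)).2 (by norm_num) (by decide +kernel) hzx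
      · left
        subst h2
        rw [t4]
        exact cost_cell D C H hg (hrow 4 (by norm_num) (by norm_num)).1
          (hrow 4 (by norm_num) (by norm_num)).2 (by norm_num) (by decide +kernel) hzx
      · left
        subst h2
        rw [t5]
        exact cost_cell D C H hg (hrow 5 (by norm_num) (by norm_num)).1
          (hrow 5 (by norm_num) (by norm_num)).2 (by norm_num) (by decide +kernel) hzx
      · right
        subst h2
        have hlz : lev z = 13 := by
          have := (H.covBy_iff.mp hzx).2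
          omega
        refine ⟨hl, t6, ⟨hzx, ?_⟩, by norm_num, ?_⟩
        · -- a second cover
          intro y hy
          by_contra hne
          have hly : lev y = 12 := by
            have := (H.covBy_iff.mp hy).2
            omega
          have hyt : y ≤ (t : P) := by
            by_contra hyt
            refine hnj z hlz ⟨topOf y, t, (topOf y).2, t.2, ?_, hy.le.trans (le_topOf y),
              hzx.le.trans (hle 6 (by norm_num) le_rfl)⟩
            intro hh
            exact hyt (by rw [← hh]; exact le_topOf y)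
          obtain ⟨s', s1', s2', hs'⟩ := C.surj y hyt (by omega)
          rw [hly] at s1' s2' hs'
          subst hs'
          have hs6 : s' ≠ 6 := fun hh => hne (by rw [hh])
          by_cases h5 : s' = 5
          · subst h5
            exact hz.1 ((hz0' z).mp ⟨hzx, hy⟩)
          · have h7 := hdc s' (by omega) (by omega)
            rw [if_neg h5] at h7
            unfold dcv at h7
            rw [Finset.card_eq_zero, Finset.filter_eq_empty_iff] at h7
            exact h7 (mem_univ z) ⟨hzx, hy⟩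
        · intro u hu
          rw [nab_cell D C H hg (hrow 6 (by norm_num) (by norm_num)).1
            (hrow 6 (by norm_num) (by norm_num)).2 (by omega)]
          have key : ∀ u < 7, nbw 6 wa6 6 (6 + u) = if 6 + u = 6 then 2 else 1 := by
            decide +kernel
          exact key u (by omega)
  · intro z hz x hx hl htw
    rw [mem_insert, not_or] at hz
    have h1 := lev_eq_of_up htw
    rcases mem_insert.mp hx with hx | hx
    · subst hx
      exact hz.1 ((hz0' z).mp ⟨(cov_of_up htw).mp z6, (cov_of_up htw).mp z5⟩)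
    · have h2 := (mem_lowPart.mp hx).2
      omega

lemma late12_6 : ∀ w ∈ lateW 6, w.length = 6 → w = wa6.take 6 := by
  decide +kernel

lemma late12_5 : ∀ w ∈ lateW 5, w.length = 7 → w = wa5.take 7 := by
  decide +kernel

lemma late12_4 : ∀ w ∈ lateW 4, w.length = 8 → w = w7.take 8 := by
  decide +kernel

lemma late12_3 : ∀ w ∈ lateW 3, w.length ≠ 9 := by
  decide +kernel

/-- **(C), `m = 6`.** -/
theorem no_cc_six (h : Win.GoodTo P r (2 * 6)) {lo hi : Tops P → ℕ → ℕ}
    {e : Tops P → ℕ → ℕ → P}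
    (C : ∀ t : Tops P, Cp.Comp (2 * 6) (t : P) (lo t) (hi t) (e t))
    (hS : ∀ t, Wd.Shape (2 * 6) (lo t) (hi t))
    (hT : ∀ t : Tops P, Win.NatT (2 * 6) (t : P) ∨ StairShape (2 * 6) (lo t) (hi t))
    (hnj : ∀ z : P, lev z = 2 * 6 + 1 → ¬ Hul.Jn z) {t : Tops P} {z : P}
    (S : StairShape (2 * 6) (lo t) (hi t)) (h0 : lo t (2 * 6) = 0)
    (hz1 : z ⋖ e t (2 * 6) 6) (hz2 : z ⋖ e t (2 * 6) 0) : False := by
  refine caseB_no_cc (by norm_num) (by norm_num) h C hS ?_ hnj S h0 hz1 hz2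
  intro t a ha D hw
  have hlen : (Wd.word (lo t) (hi t) a (2 * 6 - a)).length = 2 * 6 - a := Wd.word_length
  have h3 := D.h0
  obtain rfl | rfl | rfl | rfl : a = 3 ∨ a = 4 ∨ a = 5 ∨ a = 6 := by omega
  · exact absurd hlen (late12_3 _ hw)
  · exact tyK_E7 (⟨D.h2, D.h3, late12_4 _ hw hlen⟩ : WordD 12 4 w7 (lo t) (hi t)) (C t) h
  · exact tyK_La5 (⟨D.h2, D.h3, late12_5 _ hw hlen⟩ : WordD 12 5 wa5 (lo t) (hi t)) (C t) h
  · have D' : WordD 12 6 wa6 (lo t) (hi t) := ⟨D.h2, D.h3, late12_6 _ hw hlen⟩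
    refine tyK_La6 D' (C t) h ?_ hnj
    rcases hT t with g | g
    · exact g
    · exfalso
      have g1 := g.hi 6 (by norm_num)
      have g2 := D.h3
      omega

end Pool.Agent.GaussPoset.Hc

end

/-! From `Pool.Agent.W_448w6_h53.WdA` -/

section

/-!
The components at the window 6, level 12: data of one component; light and rectangle-like
components, quadric, `E7` (MP_448cb3_co, `j = 12`).
-/

namespace Pool.Agent.GaussPoset.W6

set_option linter.unusedSectionVars false

open Polynomial Finset Dd Wd Cl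

universe u

variable {P : Type u} [Fintype P] [PartialOrder P] [DecidableEq P] {r : ℕ}
variable {t : Tops P} {lo hi : ℕ → ℕ} {e : ℕ → ℕ → P}

/-- numbers of elements of the levels 6, ..., 11 above `x`: the fold end -/
def Fp (x : P) : Prop := nab 6 x = 4 ∧ nab 7 x = 3 ∧ nab 8 x = 3 ∧ nab 9 x = 2 ∧ nab 10 x = 2 ∧
  nab 11 x = 1

/-- two elements of the level 6, one of the levels 7, ..., 11 -/
def Qp (x : P) : Prop := nab 6 x = 2 ∧ nab 7 x = 1 ∧ nab 8 x = 1 ∧ nab 9 x = 1 ∧ nab 10 x = 1 ∧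
  nab 11 x = 1

/-- `z` covers exactly the fold end and the straight end of the stair `t` -/
def IsCx (t : Tops P) (b : ℕ) (θ : P → ℕ) (z : P) : Prop :=
  ∃ Nc co F S, CEl (P := P) t Nc co 6 z F S ∧ b = 4 ∧ θ F = 0

/-- the costs of one component -/
structure TB (T : ℕ) (q : Prop) (t : Tops P) (b : ℕ) (Y : Finset P) (θ : P → ℕ) : Prop where
  b_one : 1 ≤ b
  Ylev : ∀ y ∈ Y, 12 < lev y
  Yup : ∀ y ∈ Y, ∀ v, y ⋖ v → v ∈ lowPart 12 (t : P) ∪ Y
  costY : ∀ y ∈ Y, ∀ z, z ⋖ y → z ∉ Y → T ≤ ct 6 (θ y + 1) z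
  pend : ∀ x z, x ≤ (t : P) → lev x = 12 → z ⋖ x → (∀ y, z ⋖ y → y = x) → z ∉ Y →
    T ≤ ct 6 (θ x + 1) z ∨ (θ x = 0 ∧ (Fp x ∨ Qp x))
  own : ∀ x x' z, x ≠ x' → x ≤ (t : P) → x' ≤ (t : P) → lev x = 12 → lev x' = 12 → z ⋖ x →
    z ⋖ x' → z ∉ Y → θ x ≤ θ x' → T ≤ ct 6 (θ x + 1) z ∨ (q ∧ IsCx t b θ z)
  ends : ∀ x, x ≤ (t : P) → lev x = 12 → (Win.uc x).card = 1 →
    (3 ≤ nab 6 x → θ x = 0 ∧ Fp x) ∧ (θ x = 0 → Fp x ∨ Qp x)
  endc : ∀ x, x ≤ (t : P) → lev x = 12 → (Win.uc x).card = 1 → θ x ≠ 0 →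
    T ≤ ct 6 (θ x + 1) x + 13
  Yp : ∀ y ∈ Y, ∀ x, Pend y x → lev x = 12 → nab 6 x ≤ 2

/-- the orders below the energy `n0` -/
def DT (n0 : ℕ) (t : Tops P) (b : ℕ) (Y : Finset P) (θ : P → ℕ) (B : P → Prop) : Prop :=
  ∀ N : Tops P → Finset P, NatSys N → (∀ s : Tops P, lowPart 12 (s : P) ⊆ N s) →
    N t = lowPart 12 (t : P) ∪ Y → ∀ θ' B', (∀ x ∈ N t, θ' x = θ x) →
    (∀ x ∈ N t, (B' x ↔ B x)) → CompDataL (unnat N) topOf t 6 b n0 θ' B'

/-- the value at the energy `n0` -/
def PT (n0 : ℕ) (t : Tops P) (b : ℕ) (ρ : ℤ) (Y : Finset P) : Prop :=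
  ∀ N : Tops P → Finset P, NatSys N → (∀ s : Tops P, lowPart 12 (s : P) ⊆ N s) →
    N t = lowPart 12 (t : P) ∪ Y →
    (ρ = 0 ∧ (1 + X : ℤ[X]) ^ b ∣ Z {x : {x : P // x ∉ unnat N} // topOf (x : P) = t} 6 n0) ∨
    ∀ f, (∀ n, exq n f = Z {x : {x : P // x ∉ unnat N} // topOf (x : P) = t} 6 n) → Pl n0 b ρ f

/-- the data of one component -/
structure TS (T n0 : ℕ) (q : Prop) (t : Tops P) (b : ℕ) (ρ : ℤ) (Y : Finset P) (θ : P → ℕ)
    (B : P → Prop) : Prop where
  cost : TB T q t b Y θ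
  data : DT n0 t b Y θ B
  pl : PT n0 t b ρ Y

lemma TB.mono {T T' : ℕ} {q : Prop} {b : ℕ} {Y : Finset P} {θ : P → ℕ} (h : TB T q t b Y θ)
    (hT : T' ≤ T) : TB T' q t b Y θ where
  b_one := h.b_one
  Ylev := h.Ylev
  Yup := h.Yup
  costY := fun y hy z hz hzY => hT.trans (h.costY y hy z hz hzY)
  pend := fun x z h1 h2 h3 h4 h5 => (h.pend x z h1 h2 h3 h4 h5).imp_left fun g => hT.trans g
  own := fun x x' z h1 h2 h3 h4 h5 h6 h7 h8 h9 =>
    (h.own x x' z h1 h2 h3 h4 h5 h6 h7 h8 h9).imp_left fun g => hT.trans g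
  ends := h.ends
  endc := fun x h1 h2 h3 h4 => hT.trans (h.endc x h1 h2 h3 h4)
  Yp := h.Yp

lemma TB.noq {T : ℕ} {q q' : Prop} {b : ℕ} {Y : Finset P} {θ : P → ℕ} (h : TB T q t b Y θ)
    (hq : ∀ z, z ∉ Y → q → ¬ IsCx t b θ z) : TB T q' t b Y θ where
  b_one := h.b_one
  Ylev := h.Ylev
  Yup := h.Yup
  costY := h.costY
  pend := h.pend
  own := fun x x' z h1 h2 h3 h4 h5 h6 h7 h8 h9 => by
    rcases h.own x x' z h1 h2 h3 h4 h5 h6 h7 h8 h9 with g | ⟨g1, g2⟩
    · exact Or.inl g
    · exact absurd g2 (hq z h8 g1)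
  ends := h.ends
  endc := h.endc
  Yp := h.Yp

lemma DT.mono {n0 n1 : ℕ} {b : ℕ} {Y : Finset P} {θ : P → ℕ} {B : P → Prop}
    (h : DT n0 t b Y θ B) (hn : n1 ≤ n0) : DT n1 t b Y θ B :=
  fun N HN hlow hN θ' B' hθ hB => J8.CompDataL.of_le (h N HN hlow hN θ' B' hθ hB) hn

lemma unnat_lev12 {N : Tops P → Finset P} (hlow : ∀ s : Tops P, lowPart 12 (s : P) ⊆ N s)
    {x : P} (hx : x ∈ unnat N) : 12 < lev x := by
  by_contra hcon
  exact mem_unnat.mp hx (topOf x) (hlow _ (mem_lowPart.mpr ⟨le_topOf x, by omega⟩))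

lemma DT.pt {n0 n1 : ℕ} {b : ℕ} {Y : Finset P} {θ : P → ℕ} {B : P → Prop}
    (h : DT n0 t b Y θ B) (hn : n1 < n0) : PT n1 t b 0 Y := by
  classical
  intro N HN hlow hN
  left
  refine ⟨rfl, ?_⟩
  have h1 := h N HN hlow hN θ (fun x => x ∉ unnat N ∧ B x) (fun _ _ => rfl)
    (fun x hx => and_iff_right (HN.mem_iff.mp hx).1)
  exact h1.clean (unnat N) ⟨HN.lower, Subset.refl _, fun x hx => by
    have := unnat_lev12 hlow hx
    omega, fun x hx h => h.1 hx⟩ inferInstance n1 hn

/-- the common types -/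
lemma TS.of {T n0 : ℕ} {q : Prop} {b : ℕ} {Y : Finset P} {θ : P → ℕ} {B : P → Prop}
    (h1 : TB 28 q t b Y θ) (h2 : DT 28 t b Y θ B) (hT : T ≤ 28) (hn : n0 ≤ 27) :
    TS T n0 q t b 0 Y θ B :=
  ⟨h1.mono hT, h2.mono (by omega), h2.pt (by omega)⟩

/-! ### general bounds -/

/-- the lower bound of the costs from one element above of every level -/
lemma ct_ge13 {x : P} (hl : lev x = 13) (k : ℕ) :
    ∑ l ∈ range 14, min k (l - 6) ≤ ct 6 k x := by
  unfold ct
  rw [cst_eq, hl]
  refine Finset.sum_le_sum fun l hl2 => ?_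
  rw [mem_range] at hl2
  have := one_le_nab (z := x) (l := l) (by omega)
  calc min k (l - 6) = min k (l - 6) * 1 := (Nat.mul_one _).symm
    _ ≤ _ := Nat.mul_le_mul_left _ this

/-- the same at level 12 -/
lemma ct_ge12 {x : P} (hl : lev x = 12) (k : ℕ) :
    ∑ l ∈ range 13, min k (l - 6) ≤ ct 6 k x := by
  unfold ct
  rw [cst_eq, hl]
  refine Finset.sum_le_sum fun l hl2 => ?_
  rw [mem_range] at hl2
  have := one_le_nab (z := x) (l := l) (by omega)
  calc min k (l - 6) = min k (l - 6) * 1 := (Nat.mul_one _).symm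
    _ ≤ _ := Nat.mul_le_mul_left _ this

lemma ct_three {x : P} (hl : lev x = 12) {k : ℕ} (hk : 3 ≤ k) : 28 ≤ ct 6 k x + 13 := by
  have h1 := ct_ge12 hl 3
  have h2 : ∑ l ∈ range 13, min 3 (l - 6) = 15 := by decide +kernel
  have h3 := ct_mono (i := 6) (le_refl x) hk
  omega

lemma ct_two {x : P} (hl : lev x = 12) {k : ℕ} (hk : 2 ≤ k) : 24 ≤ ct 6 k x + 13 := by
  have h1 := ct_ge12 hl 2
  have h2 : ∑ l ∈ range 13, min 2 (l - 6) = 11 := by decide +kernel
  have h3 := ct_mono (i := 6) (le_refl x) hk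
  omega

lemma light_k : ∑ l ∈ range 14, min 7 (l - 6) = 28 := by decide +kernel

lemma rect_k : ∀ s < 13, s ≠ 6 → 28 ≤ (∑ a ∈ range (s + 1),
    rowW false (fun k => min ((s - 6) + (12 - s - 6) + 1) (k - 6)) (12 - s) 12 a) +
      min ((s - 6) + (12 - s - 6) + 1) 7 := by decide +kernel

/-- at most as many elements above as in the row -/
lemma nab_le_row (h : Win.GoodTo P r 12) (C : Cp.Comp 12 (t : P) lo hi e) {x : P}
    (hx : x ≤ (t : P)) (hl : lev x ≤ 12) {l : ℕ} (hl2 : l ≤ 12) : nab l x + lo l ≤ hi l + 1 := by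
  classical
  have h1 : (lv P l).filter (fun y => x ≤ y) ⊆ (Finset.Icc (lo l) (hi l)).image (e l) := by
    intro y hy
    rw [mem_filter, mem_lv] at hy
    have h2 := Cp.up_le h.H h.good t.2 hx hl hy.2
    obtain ⟨s, s1, s2, hs⟩ := C.surj y h2 (by omega)
    rw [hy.1] at s1 s2 hs
    exact mem_image.mpr ⟨s, Finset.mem_Icc.mpr ⟨s1, s2⟩, hs⟩
  have h2 := (Finset.card_le_card h1).trans Finset.card_image_le
  rw [Nat.card_Icc] at h2
  have h3 := C.lo_le l hl2
  unfold nab
  omega

/-- the elements below a cell of level 12 -/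
lemma ct_below (H : Gr P r) {x z : P} (hl : lev x = 12) (hzx : z ⋖ x) (k : ℕ) :
    min k 7 + ct 6 k x ≤ ct 6 k z := by
  have h1 := (H.covBy_iff.mp hzx).2
  have h2 := ct_cov (i := 6) (k := k) hzx.1
  rw [h1, hl] at h2
  exact h2

/-- orders from a natural set which contains the strip -/
lemma dt_nat {b : ℕ} {N' : Finset P} {θ : P → ℕ} {B : P → Prop} (H : NatTop 6 t b N' θ B)
    (h1 : lowPart 12 (t : P) ⊆ N') (h2 : ∀ x ∈ N', B x → x ∈ lowPart 12 (t : P)) (n0 : ℕ) :
    DT n0 t b ∅ θ B := by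
  intro N HN hlow hN θ' B' hθ hB
  refine J8.compL_nat HN H ?_ ?_ hθ hB n0
  · intro x hx
    rw [hN, Finset.union_empty] at hx
    exact h1 hx
  · intro x hx hb
    rw [hN, Finset.union_empty]
    exact h2 x hx hb

/-- costs of a component without additional elements -/
lemma tb_nat {b : ℕ} {θ : P → ℕ} (h0 : 1 ≤ b)
    (h1 : ∀ x z, x ≤ (t : P) → lev x = 12 → z ⋖ x → (∀ y, z ⋖ y → y = x) →
      28 ≤ ct 6 (θ x + 1) z ∨ (θ x = 0 ∧ (Fp x ∨ Qp x)))
    (h2 : ∀ x x' z, x ≠ x' → x ≤ (t : P) → x' ≤ (t : P) → lev x = 12 → lev x' = 12 → z ⋖ x →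
      z ⋖ x' → θ x ≤ θ x' → 28 ≤ ct 6 (θ x + 1) z)
    (h3 : ∀ x, x ≤ (t : P) → lev x = 12 → (Win.uc x).card = 1 →
      (3 ≤ nab 6 x → θ x = 0 ∧ Fp x) ∧ (θ x = 0 → Fp x ∨ Qp x))
    (h4 : ∀ x, x ≤ (t : P) → lev x = 12 → (Win.uc x).card = 1 → θ x ≠ 0 → 2 ≤ θ x) :
    TB 28 True t b ∅ θ where
  b_one := h0
  Ylev := fun y hy => absurd hy (Finset.notMem_empty _)
  Yup := fun y hy => absurd hy (Finset.notMem_empty _)
  costY := fun y hy => absurd hy (Finset.notMem_empty _)
  pend := fun x z g1 g2 g3 g4 _ => h1 x z g1 g2 g3 g4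
  own := fun x x' z g1 g2 g3 g4 g5 g6 g7 _ g9 => Or.inl (h2 x x' z g1 g2 g3 g4 g5 g6 g7 g9)
  ends := h3
  endc := fun x g1 g2 g3 g4 => ct_three g2 (by have := h4 x g1 g2 g3 g4; omega)
  Yp := fun y hy => absurd hy (Finset.notMem_empty _)

/-- light components -/
theorem light_ts (h : Win.GoodTo P r 12) (C : Cp.Comp 12 (t : P) lo hi e) (h6 : hi 6 = lo 6) :
    TB 28 True t 1 ∅ (fun x => lev x - 6) ∧
      DT 28 t 1 ∅ (fun x : P => lev x - 6) (fun _ => False) := by
  have hc : ∀ x z : P, lev x = 12 → z ⋖ x → 28 ≤ ct 6 (lev x - 6 + 1) z := by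
    intro x z hl hzx
    have h1 := (h.H.covBy_iff.mp hzx).2
    have h2 := ct_ge13 (x := z) (by omega) 7
    rw [light_k] at h2
    rw [hl]
    exact h2
  refine ⟨tb_nat le_rfl (fun x z _ hl hzx _ => Or.inl (hc x z hl hzx))
    (fun x x' z _ _ _ hl _ hzx _ _ => hc x z hl hzx) ?_
    (fun x _ hl _ _ => by show 2 ≤ lev x - 6; omega), ?_⟩
  · intro x hx hl _
    have := nab_le_row h C hx hl.le (l := 6) (by norm_num)
    exact ⟨fun h3 => by omega, fun h3 => by omega⟩
  · refine dt_nat (exists_light (t := t) C h.H h.good h.H.gradedBelow (i := 6) (by norm_num))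
      ?_ (fun x _ hx => absurd hx (by simp)) 28
    intro x hx
    rw [mem_lowPart] at hx
    exact only_low h x hx.1 hx.2

/-- above an element which is not below the cell `(6, 6)` -/
lemma rect_extra {Nc : Finset P} {co : P → ℕ × ℕ} (C : Chart (t : P) (fun _ => True) Nc co)
    {x x' : P} (hx : x ∈ Nc) (hx' : x' ∈ Nc) (hcx : co x = (6, 6)) (hlx' : lev x' = 12)
    (hne : x ≠ x') {l : ℕ} (h5 : 7 ≤ l) (h8 : l ≤ 12) :
    ∃ u, x' ≤ u ∧ lev u = l ∧ ¬ x ≤ u := by
  have hl := C.lev x' hx'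
  have hne' : co x' ≠ (6, 6) := fun h => hne (C.inj x hx x' hx' (by rw [hcx, h]))
  have key : 7 ≤ (co x').1 ∨ 7 ≤ (co x').2 := by
    by_contra hcon
    push Not at hcon
    exact hne' (Prod.ext (by simp only; omega) (by simp only; omega))
  rcases key with hk | hk
  · obtain ⟨u, hu, hcu⟩ := C.low x' hx' (min l (co x').1, l - min l (co x').1)
      ⟨by simp only; omega, by simp only; omega⟩ trivial
    refine ⟨u, ?_, ?_, ?_⟩
    · rw [C.le_iff x' hx' u hu, hcu]
      exact ⟨by simp only; omega, by simp only; omega⟩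
    · rw [C.lev u hu, hcu]
      simp only
      omega
    · rw [C.le_iff x hx u hu, hcu, hcx]
      rintro ⟨h1, -⟩
      simp only at h1
      omega
  · obtain ⟨u, hu, hcu⟩ := C.low x' hx' (l - min l (co x').2, min l (co x').2)
      ⟨by simp only; omega, by simp only; omega⟩ trivial
    refine ⟨u, ?_, ?_, ?_⟩
    · rw [C.le_iff x' hx' u hu, hcu]
      exact ⟨by simp only; omega, by simp only; omega⟩
    · rw [C.lev u hu, hcu]
      simp only
      omega
    · rw [C.le_iff x hx u hu, hcu, hcx]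
      rintro ⟨-, h1⟩
      simp only at h1
      omega

/-- the cost of the label one by the numbers above -/
lemma ct_one13 {z : P} (hl : lev z = 13) : ct 6 1 z = nab 7 z + nab 8 z + nab 9 z + nab 10 z +
    nab 11 z + nab 12 z + 1 := by
  have h9 : nab 13 z = 1 := by
    have := nab_self (z := z)
    rwa [hl] at this
  unfold ct
  rw [cst_eq, hl]
  simp only [Finset.sum_range_succ, Finset.sum_range_zero, h9]
  norm_num

/-- rectangle-like components -/
theorem rect_ts (h : Win.GoodTo P r 12) (C : Cp.Comp 12 (t : P) lo hi e)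
    (h1 : lo 1 = 0 ∧ hi 1 = 1) (S : RectShape 12 lo hi) :
    ∃ θ B, TB 28 True t (hi 6 - lo 6 + 1) ∅ θ ∧ DT 28 t (hi 6 - lo 6 + 1) ∅ θ B := by
  classical
  have H := h.H
  have hg := h.good
  have hlt : lo 6 < hi 6 := by
    have g1 := C.lo_mono (l := 1) (d := 5) (by norm_num)
    have g2 := C.hi_mono (l := 1) (d := 5) (by norm_num)
    norm_num at g1 g2
    by_contra hcon
    have g3 := C.lo_le 6 (by norm_num)
    have g4 := shape_lo C S.lo (l := 6) (by omega) 6 (by norm_num)
    have g5 := shape_hi C S.hi (l := 6) (by omega) 6 (by norm_num)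
    have g6 := C.lo_le (6 + 6) (by norm_num)
    omega
  obtain ⟨Nc, co, R, -⟩ := exists_rect C H hg H.gradedBelow S (i := 6) (by norm_num) hlt
  have hnop : ∀ x z : P, x ≤ (t : P) → lev x = 12 → (Win.uc x).card = 2 → z ⋖ x →
      (∀ y, z ⋖ y → y = x) → False := fun x z hxt hxl hx2 hzx honly =>
    rectShape_no_pendant (i := 11) h (by norm_num) t.2 C S hxl hxt hx2 hzx honly
  have hR := R.natTop H.gradedBelow (by norm_num)
  have hmem : ∀ x, x ≤ (t : P) → lev x = 12 → x ∈ Nc := fun x hx hl =>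
    R.strip (mem_lowPart.mpr ⟨hx, hl.le⟩)
  have hb := R.b_le
  have hth : ∀ x ∈ Nc, lev x = 12 → thR 6 (hi 6 - lo 6 + 1) Nc co x = 6 ∨
      thR 6 (hi 6 - lo 6 + 1) Nc co x =
        ((co x).1 - (hi 6 - lo 6 + 1 - 1)) + ((co x).2 - 6) := by
    intro x hx hl
    unfold thR
    split_ifs with hj
    · left; omega
    · right; rfl
  -- cells different from `(6, 6)`
  have hcell : ∀ x z : P, x ∈ Nc → lev x = 12 → (co x).1 ≠ 6 → z ⋖ x →
      28 ≤ ct 6 (thR 6 (hi 6 - lo 6 + 1) Nc co x + 1) z := by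
    intro x z hx hl h6 hzx
    have hlc := R.chart.lev x hx
    rcases hth x hx hl with h2 | h2
    · have h3 := (H.covBy_iff.mp hzx).2
      have h4 := ct_ge13 (x := z) (by omega) 7
      rw [light_k] at h4
      rw [h2]
      exact h4
    · have h5 := rect_k (co x).1 (by omega) h6
      have h6' := ct_chart R.chart (shift := false) (by simp) hx 6
        (((co x).1 - 6) + ((co x).2 - 6) + 1)
      rw [hl, show (co x).2 = 12 - (co x).1 by omega] at h6'
      rw [← h6'] at h5
      have h7 := ct_below H hl hzx (((co x).1 - 6) + (12 - (co x).1 - 6) + 1)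
      have h8 : ct 6 (((co x).1 - 6) + (12 - (co x).1 - 6) + 1) z ≤
          ct 6 (thR 6 (hi 6 - lo 6 + 1) Nc co x + 1) z := by
        refine ct_mono le_rfl ?_
        rw [h2]
        omega
      omega
  refine ⟨thR 6 (hi 6 - lo 6 + 1) Nc co,
    fun x => x ∈ Nc ∧ co x = (hi 6 - lo 6 + 1 - 1, 6), ?_, ?_⟩
  · refine tb_nat (by omega) ?_ ?_ ?_ ?_
    · intro x z hxt hl hzx honly
      left
      have hx := hmem x hxt hl
      have hlc := R.chart.lev x hx
      refine hcell x z hx hl ?_ hzx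
      intro h6
      exact hnop x z hxt hl (chart_inner_uc R.chart H hx (by omega) (by omega)) hzx honly
    · intro x x' z hne hxt hxt' hl hl' hzx hzx' _
      have hx := hmem x hxt hl
      have hx' := hmem x' hxt' hl'
      have hlc := R.chart.lev x hx
      by_cases h6 : (co x).1 = 6
      · have hc : co x = (6, 6) := Prod.ext h6 (by simp only; omega)
        have hlz : lev z = 13 := by
          have := (H.covBy_iff.mp hzx).2
          omega
        have hn : ∀ l, 7 ≤ l → l ≤ 12 → 14 - l ≤ nab l z := by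
          intro l g1 g2
          obtain ⟨u, hu1, hu2, hu3⟩ := rect_extra R.chart hx hx' hc hl' hne g1 g2
          have h2 := J8.nab_extra hzx.1.le (hzx'.1.le.trans hu1) hu2 hu3
          have h3 := nab_chart R.chart hx l
          have h4 := card_cellsAt_true (l := l) (p := co x) (by rw [hc]; simp only; omega)
          rw [hc] at h3 h4
          simp only at h4
          omega
        have n7 := hn 7 le_rfl (by norm_num)
        have n8 := hn 8 (by norm_num) (by norm_num)
        have n9 := hn 9 (by norm_num) (by norm_num)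
        have n10 := hn 10 (by norm_num) (by norm_num)
        have n11 := hn 11 (by norm_num) (by norm_num)
        have n12 := hn 12 (by norm_num) (by norm_num)
        have h7 := ct_one13 hlz
        have h8 : ct 6 1 z ≤ ct 6 (thR 6 (hi 6 - lo 6 + 1) Nc co x + 1) z :=
          ct_mono le_rfl (by omega)
        omega
      · exact hcell x z hx hl h6 hzx
    · intro x hxt hl hu
      have hx := hmem x hxt hl
      have hlc := R.chart.lev x hx
      have h4 := nab_chart R.chart hx 6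
      have h5 := card_cellsAt_true (l := 6) (p := co x) (by omega)
      rw [← h4] at h5
      have hc : ¬ (1 ≤ (co x).1 ∧ 1 ≤ (co x).2) := fun hc => by
        have := chart_inner_uc R.chart H hx hc.1 hc.2
        omega
      refine ⟨fun h3 => by omega, fun h0 => ?_⟩
      exfalso
      rcases hth x hx hl with h2 | h2
      · omega
      · omega
    · intro x hxt hl hu _
      have hx := hmem x hxt hl
      have hlc := R.chart.lev x hx
      have hc : ¬ (1 ≤ (co x).1 ∧ 1 ≤ (co x).2) := fun hc => by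
        have := chart_inner_uc R.chart H hx hc.1 hc.2
        omega
      rcases hth x hx hl with h2 | h2
      · omega
      · omega
  · refine dt_nat hR (fun x hx => mem_natR.mpr (Or.inl (R.strip hx))) ?_ 28
    rintro x - ⟨hx, hcx⟩
    rw [mem_lowPart]
    refine ⟨R.chart.le_t x hx, ?_⟩
    rw [R.chart.lev x hx, hcx]
    simp only
    omega

/-- the quadric -/
theorem quad_ts (h : Win.GoodTo P r 12) (C : Cp.Comp 12 (t : P) lo hi e)
    (Q : QRows 12 6 lo hi) :
    ∃ θ B, TB 28 True t (hi 6 - lo 6 + 1) ∅ θ ∧ DT 28 t (hi 6 - lo 6 + 1) ∅ θ B := by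
  classical
  have hQ : QInf 6 6 t := Q.inf (m := 6) C (by norm_num)
  have hup := low_up (t := t) (m := 6) h
  have hN := natTop_quad (by norm_num) (dvd_W_Qd 6) hQ (fun x hx y hxy => hup x y hxy hx)
  have h4 := Q.at'
  have hb : hi 6 - lo 6 + 1 = 2 := by omega
  have hprof : ∀ x, x ≤ (t : P) → lev x = 12 → Qp x := by
    intro x hx hl
    have hpr := quad_prof hQ hx (by omega) hup (by norm_num)
    have q : ∀ l, 6 ≤ l → l ≤ 12 → nab l x = 1 + Fi.gD (List.replicate 6 0 ++ [1]) (12 - l) := by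
      intro l h5 h6
      have := hpr (12 - l) (by omega)
      rw [show 2 * 6 - (12 - l) = l by omega] at this
      exact this
    refine ⟨?_, ?_, ?_, ?_, ?_, ?_⟩
    · rw [q 6 le_rfl (by norm_num)]; rfl
    · rw [q 7 (by norm_num) (by norm_num)]; rfl
    · rw [q 8 (by norm_num) (by norm_num)]; rfl
    · rw [q 9 (by norm_num) (by norm_num)]; rfl
    · rw [q 10 (by norm_num) (by norm_num)]; rfl
    · rw [q 11 (by norm_num) (by norm_num)]; rfl
  refine ⟨fun _ => 0, fun x => x ∈ lowPart 12 (t : P), ?_⟩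
  rw [hb]
  refine ⟨tb_nat (by norm_num) (fun x z hxt hl _ _ => Or.inr ⟨rfl, Or.inr (hprof x hxt hl)⟩) ?_
    ?_ (fun _ _ _ _ h0 => absurd rfl h0), dt_nat hN (fun x hx => hx) (fun x hx _ => hx) 28⟩
  · intro x x' z hne hxt hxt' hl hl' _ _ _
    exact absurd (le_antisymm (hQ.bot x hxt (by omega) x' hxt' (by omega))
      (hQ.bot x' hxt' (by omega) x hxt (by omega))) hne
  · intro x hx hl _
    have := nab_le_row h C hx hl.le (l := 6) (by norm_num)
    exact ⟨fun h3 => by omega, fun _ => Or.inr (hprof x hx hl)⟩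

lemma cell_cost {a : ℕ} {w : List Ltr} (D : WordD 12 a w lo hi)
    (C : Cp.Comp 12 (t : P) lo hi e) (h : Win.GoodTo P r 12) {s : ℕ} (h1 : losW a w 12 ≤ s)
    (h2 : s ≤ hisW a w 12) {k T : ℕ}
    (hc : T ≤ min k 7 + ∑ l ∈ range 13, min k (l - 6) * Hc.nbw a w s l) {z : P}
    (hz : z ⋖ e 12 s) : T ≤ ct 6 k z := by
  obtain ⟨r1, r2⟩ := D.rows C
  have hl := C.lev_e 12 s le_rfl (by rw [r1 12 le_rfl]; exact h1) (by rw [r2 12 le_rfl]; exact h2)
  have h4 := ct_below h.H hl hz k
  rw [Hc.ct_cell D C h.H h.good h1 h2] at h4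
  omega

/-- `E7` -/
theorem e7_ts (h : Win.GoodTo P r 12) (C : Cp.Comp 12 (t : P) lo hi e)
    (D : WordD 12 4 w7 lo hi) :
    ∃ θ B, TB 28 True t (hi 6 - lo 6 + 1) ∅ θ ∧ DT 28 t (hi 6 - lo 6 + 1) ∅ θ B := by
  have hN := natTopC_E7_6 D C h.H h.good (by norm_num) (by norm_num)
  obtain ⟨r1, r2⟩ := D.rows C
  have e1 : losW 4 w7 12 = 4 ∧ hisW 4 w7 12 = 5 ∧ losW 4 w7 6 + 1 = hisW 4 w7 6 := by
    decide +kernel
  have hb : hi 6 - lo 6 + 1 = 2 := by
    rw [r1 6 (by norm_num), r2 6 (by norm_num)]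
    omega
  have l12 : lo 12 = 4 := by rw [r1 12 le_rfl, e1.1]
  have u12 : hi 12 = 5 := by rw [r2 12 le_rfl, e1.2.1]
  have hc : ∀ x z : P, x ≤ (t : P) → lev x = 12 → z ⋖ x →
      28 ≤ ct 6 (thC lo hi e E7t6 x + 1) z := by
    intro x z hx hl hzx
    obtain ⟨s, s1, s2, hs⟩ := C.surj x hx hl.le
    rw [hl] at s1 s2 hs
    subst hs
    rw [thC_e C E7t6 le_rfl s1 s2]
    have key : ∀ s < 6, 4 ≤ s → 28 ≤ min (E7t6 12 s + 1) 7 +
        ∑ l ∈ range 13, min (E7t6 12 s + 1) (l - 6) * Hc.nbw 4 w7 s l := by decide +kernel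
    exact cell_cost D C h (by rw [e1.1]; omega) (by rw [e1.2.1]; omega)
      (key s (by omega) (by omega)) hzx
  refine ⟨thC lo hi e E7t6, fun x => x = e 10 4, ?_⟩
  rw [hb]
  refine ⟨tb_nat (by norm_num) (fun x z hx hl hzx _ => Or.inl (hc x z hx hl hzx))
    (fun x x' z _ hx _ hl _ hzx _ _ => hc x z hx hl hzx) ?_ ?_,
    dt_nat hN (fun x hx => hx) (fun x hx _ => hx) 28⟩
  swap
  · intro x hx hl _ _
    obtain ⟨s, s1, s2, hs⟩ := C.surj x hx hl.le
    rw [hl] at s1 s2 hs
    subst hs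
    rw [thC_e C E7t6 le_rfl s1 s2]
    have key : ∀ s < 6, 4 ≤ s → 2 ≤ E7t6 12 s := by decide +kernel
    exact key s (by omega) (by omega)
  intro x hx hl _
  have := nab_le_row h C hx hl.le (l := 6) (by norm_num)
  refine ⟨fun h3 => by omega, fun h0 => ?_⟩
  exfalso
  obtain ⟨s, s1, s2, hs⟩ := C.surj x hx hl.le
  rw [hl] at s1 s2 hs
  subst hs
  rw [thC_e C E7t6 le_rfl s1 s2] at h0
  have key : ∀ s < 6, 4 ≤ s → E7t6 12 s ≠ 0 := by decide +kernel
  exact key s (by omega) (by omega) h0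

end Pool.Agent.GaussPoset.W6

end

/-! From `Pool.Agent.W_448w6_h53.WdB` -/

section

/-!
The components at the window 6, level 12: stair-like components (MP_448cb3_co, `j = 12`).
-/

namespace Pool.Agent.GaussPoset.W6

set_option linter.unusedSectionVars false

open Polynomial Finset Dd Wd Cl

universe u

variable {P : Type u} [Fintype P] [PartialOrder P] [DecidableEq P] {r : ℕ}
variable {t : Tops P} {lo hi : ℕ → ℕ} {e : ℕ → ℕ → P}

lemma stair_k : ∀ s < 6, 28 ≤ (∑ a ∈ range (s + 1),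
    rowW true (fun k => min ((s - 6) + (12 - s - 6) + 1) (k - 6)) (12 - s) 12 a) +
      min ((s - 6) + (12 - s - 6) + 1) 7 := by decide +kernel

lemma stair_G : (∑ a ∈ range (5 + 1), rowW true (fun k => min 2 (k - 6)) 7 12 a) = 30 ∧
    (∑ a ∈ range (5 + 1), rowW true (fun k => min 7 (k - 6)) 7 12 a) = 49 := by
  decide +kernel

/-- the own elements below the fold end and its neighbour -/
noncomputable def Ys (Nc : Finset P) (co : P → ℕ × ℕ) : Finset P := by
  classical exact univ.filter (fun y => ∃ F ∈ Nc, co F = (6, 6) ∧ y ⋖ F ∧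
    ∃ G ∈ Nc, co G = (5, 7) ∧ y ⋖ G)

lemma mem_Ys {Nc : Finset P} {co : P → ℕ × ℕ} {y : P} : y ∈ Ys Nc co ↔
    ∃ F ∈ Nc, co F = (6, 6) ∧ y ⋖ F ∧ ∃ G ∈ Nc, co G = (5, 7) ∧ y ⋖ G := by
  classical
  unfold Ys
  simp

/-- thresholds of a stair with the additional elements -/
noncomputable def thY (Nc : Finset P) (co : P → ℕ × ℕ) (x : P) : ℕ := by
  classical exact if x ∈ Ys Nc co then 1 else thS 6 Nc co x

section

variable {Nc : Finset P} {co : P → ℕ × ℕ}

lemma Ys_lev (C : Chart (t : P) (fun c => c.1 ≤ c.2) Nc co) (H : Gr P r) {y : P}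
    (hy : y ∈ Ys Nc co) : lev y = 13 := by
  obtain ⟨F, hF, hcF, hyF, -⟩ := mem_Ys.mp hy
  have h1 := (H.covBy_iff.mp hyF).2
  rw [C.lev F hF, hcF] at h1
  simp only at h1
  omega

lemma thY_low (C : Chart (t : P) (fun c => c.1 ≤ c.2) Nc co) (H : Gr P r) {x : P}
    (hl : lev x ≤ 12) : thY Nc co x = thS 6 Nc co x := by
  unfold thY
  rw [if_neg]
  intro h
  have := Ys_lev C H h
  omega

/-- the value on the level 12 -/
lemma thY_eq (C : Chart (t : P) (fun c => c.1 ≤ c.2) Nc co) (H : Gr P r) {x : P}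
    (hl : lev x = 12) : thY Nc co x = 6 ∨
      thY Nc co x = ((co x).1 - 6) + ((co x).2 - 6) := by
  rw [thY_low C H hl.le]
  unfold thS
  split_ifs with hj
  · left; omega
  · right; rfl

lemma thY_F (C : Chart (t : P) (fun c => c.1 ≤ c.2) Nc co) (H : Gr P r) {x : P} (hx : x ∈ Nc)
    (hc : co x = (6, 6)) : thY Nc co x = 0 := by
  have hl := C.lev x hx
  rw [hc] at hl
  rw [thY_low C H (by rw [hl]; decide)]
  unfold thS
  rw [if_neg (J8.not_junk C hx (by rw [hc]; norm_num)), hc]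
  rfl

/-- the profile of the fold end -/
lemma fold_prof (C : Chart (t : P) (fun c => c.1 ≤ c.2) Nc co) {x : P} (hx : x ∈ Nc)
    (hc : co x = (6, 6)) : Fp x := by
  have q : ∀ l, l ≤ 12 → nab l x + (l - 6) = min (l / 2) 6 + 1 := by
    intro l hl
    have h3 := nab_chart C hx l
    have h4 := card_cellsAt_shift (l := l) (p := co x) (by rw [hc]) (by rw [hc]; exact hl)
    rw [hc] at h3 h4
    simp only at h4
    rw [← h3] at h4
    exact h4
  have q6 := q 6 (by norm_num)
  have q7 := q 7 (by norm_num)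
  have q8 := q 8 (by norm_num)
  have q9 := q 9 (by norm_num)
  have q10 := q 10 (by norm_num)
  have q11 := q 11 (by norm_num)
  norm_num at q6 q7 q8 q9 q10 q11
  exact ⟨by omega, by omega, by omega, by omega, by omega, by omega⟩

/-- the costs of the neighbour of the fold end -/
lemma ct_G (C : Chart (t : P) (fun c => c.1 ≤ c.2) Nc co) {G : P} (hG : G ∈ Nc)
    (hc : co G = (5, 7)) : ct 6 2 G = 30 ∧ ct 6 7 G = 49 := by
  have hl : lev G = 12 := by rw [C.lev G hG, hc]; rfl
  have h2 := ct_chart C (shift := true) (by simp) hG 6 2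
  have h7 := ct_chart C (shift := true) (by simp) hG 6 7
  rw [hl, hc] at h2 h7
  exact ⟨h2.trans stair_G.1, h7.trans stair_G.2⟩

/-- own elements of level 13 below the fold end -/
theorem stair_own (h : Win.GoodTo P r 12) (R : StairNat 12 6 t Nc co)
    (hu : ∀ x ∈ Nc, lev x = 12 → (Win.uc x).card = 1 → co x = (6, 6) ∨ co x = (0, 12))
    {x x' z : P} (hx : x ∈ Nc) (hx' : x' ∈ Nc) (hl : lev x = 12) (hl' : lev x' = 12)
    (hne : x ≠ x') (hzx : z ⋖ x) (hzx' : z ⋖ x') (hz : z ∉ Ys Nc co) (hc : co x = (6, 6)) :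
    IsCx t 4 (thY Nc co) z := by
  classical
  have H := h.H
  have C := R.chart
  have hlz : lev z = 11 + 2 := by
    have := (H.covBy_iff.mp hzx).2
    omega
  have huc : ∀ y, z ⋖ y → y = x ∨ y = x' := fun y hy => uc_pair H hzx hzx' hne hy
  rcases (Win.near_level' (i := 11) h (by norm_num)).1 z x x' hlz hzx hzx' hne with
    h6 | ⟨-, h6, -⟩
  · exfalso
    obtain ⟨u, hu1, hu2⟩ := Win.exists_of_ucv (v := x) (v' := x') (by rw [h6]; exact one_pos)
    have huN := C.up x hx u hu1.1.le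
    have p1 := (chart_cov C H hx huN).mp hu1
    have p2 := (chart_cov C H hx' huN).mp hu2
    have hm : (co u).1 ≤ (co u).2 := C.mem u huN
    have hm' : (co x').1 ≤ (co x').2 := C.mem x' hx'
    rw [hc] at p1
    have hne' : co x' ≠ (6, 6) := fun hh => hne (C.inj x hx x' hx' (by rw [hc, hh]))
    have hcu : co u = (5, 6) := by
      unfold Prd at p1
      simp only at p1
      exact Prod.ext (by simp only; omega) (by simp only; omega)
    rw [hcu] at p2
    have hcx' : co x' = (5, 7) := by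
      unfold Prd at p2
      simp only at p2
      rcases p2 with p2 | p2
      · exact absurd (Prod.ext p2.1 p2.2) hne'
      · exact Prod.ext p2.1 p2.2
    exact hz (mem_Ys.mpr ⟨x, hx, hc, hzx, x', hx', hcx', hzx'⟩)
  · have hcx' : co x' = (0, 12) := by
      rcases hu x' hx' hl' h6 with h7 | h7
      · exact absurd (C.inj x hx x' hx' (by rw [hc, h7])) hne
      · exact h7
    exact ⟨Nc, co, x, x', ⟨C, R.strip, hx, hx', hc, hcx', hzx, hzx', huc⟩, rfl,
      thY_F C H hx hc⟩

/-- the data of a stair -/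
theorem stair_data (h : Win.GoodTo P r 12) (R : StairNat 12 6 t Nc co) :
    DT 28 t 4 (Ys Nc co) (thY Nc co) (fun x => x ∈ Nc ∧ co x = (6, 6)) := by
  classical
  intro N HN hlow hN θ' B' hθ hB
  have H := h.H
  have C := R.chart
  have hS := R.natTop H.gradedBelow (by norm_num) (by norm_num)
  have hbase : ∀ x ∈ natS Nc co, (x ∈ Nc ∧ co x = (6, 6)) → x ∈ N t := by
    rintro x - ⟨hx, hcx⟩
    rw [hN, mem_union, mem_lowPart]
    refine Or.inl ⟨C.le_t x hx, ?_⟩
    rw [C.lev x hx, hcx]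
    decide
  have hN' : ∀ x, x ∈ N t ↔ x ∈ lowPart 12 (t : P) ∨ x ∈ Ys Nc co := by
    intro x
    rw [hN, mem_union]
  have hlN : ∀ x ∈ lowPart 12 (t : P), x ∈ natS Nc co := fun x hx =>
    mem_natS.mpr (Or.inl (R.strip hx))
  by_cases hsub : ∀ y ∈ Ys Nc co, y ∈ natS Nc co
  · -- no additional element
    refine J8.compL_nat HN hS ?_ hbase ?_ hB 28
    · intro x hx
      rcases (hN' x).mp hx with h1 | h1
      · exact hlN x h1
      · exact hsub x h1
    · intro x hx
      rw [hθ x hx]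
      unfold thY
      split_ifs with hY
      · -- the natural element
        obtain ⟨F, hF, hcF, hyF, G, hG, hcG, hyG⟩ := mem_Ys.mp hY
        have hxN : x ∈ Nc := by
          rcases mem_natS.mp (hsub x hY) with h1 | h1
          · exact h1
          · exfalso
            obtain ⟨x1, E1, hz⟩ := mem_junk.mp h1
            rcases (mem_jset.mp hz).2 F hyF.1.le with h2 | h2
            · have h3 := (C.le_iff F hF x1 E1.mem).mp h2
              have h4 := E1.lt F hF (by rw [hcF]; norm_num)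
              have h5 : (co x1).2 ≤ (co F).2 := h3.2
              omega
            · have h3 := (C.le_iff x1 E1.mem F hF).mp h2
              have h4 : (co F).1 ≤ (co x1).1 := h3.1
              rw [hcF, E1.fst] at h4
              exact absurd h4 (by norm_num)
        have p1 := (chart_cov C H hxN hF).mp hyF
        have p2 := (chart_cov C H hxN hG).mp hyG
        rw [hcF] at p1
        rw [hcG] at p2
        have hcx : co x = (6, 7) := by
          unfold Prd at p1 p2
          simp only at p1 p2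
          exact Prod.ext (by simp only; omega) (by simp only; omega)
        unfold thS
        rw [if_neg (J8.not_junk C hxN (by rw [hcx]; norm_num)), hcx]
        rfl
      · rfl
  · -- one additional twin
    push Not at hsub
    obtain ⟨y2, hy2, hy2N⟩ := hsub
    obtain ⟨F, hF, hcF, hyF, G, hG, hcG, hyG⟩ := mem_Ys.mp hy2
    have hy2Nc : y2 ∉ Nc := fun h => hy2N (mem_natS.mpr (Or.inl h))
    obtain ⟨y1, hy1, hc1, hy1F, hy1G, hy12⟩ := max_pair C R.max H hy2Nc hF hG hyF hyG
      (s := 5) (c := 6) hcF hcG (by norm_num)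
    have hFG : F ≠ G := by
      rintro rfl
      rw [hcF] at hcG
      exact absurd hcG (by decide)
    have hup12 : ∀ y, y1 < y ↔ y2 < y := by
      refine up_of_cov fun w => ?_
      constructor
      · intro hw
        rcases uc_pair H hy1F hy1G hFG hw with h1 | h1
        · rw [h1]; exact hyF
        · rw [h1]; exact hyG
      · intro hw
        rcases uc_pair H hyF hyG hFG hw with h1 | h1
        · rw [h1]; exact hy1F
        · rw [h1]; exact hy1G
    have hlF : lev F = 12 := by rw [C.lev F hF, hcF]; rfl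
    have hlG : lev G = 12 := by rw [C.lev G hG, hcG]; rfl
    have hl1 : lev y1 = 13 := by
      have := (H.covBy_iff.mp hy1F).2
      omega
    have hY1 : y1 ∈ Ys Nc co := mem_Ys.mpr ⟨F, hF, hcF, hy1F, G, hG, hcG, hy1G⟩
    have hY2 : ∀ y ∈ Ys Nc co, y = y1 ∨ y = y2 := by
      intro y hy
      obtain ⟨F', hF', hcF', hyF', -⟩ := mem_Ys.mp hy
      have hFF : F' = F := C.inj F' hF' F hF (by rw [hcF', hcF])
      rw [hFF] at hyF'
      by_contra hcon
      push Not at hcon
      exact Win.dc_three H hyF' hy1F hyF hcon.1 hcon.2 hy12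
    have hth1 : thS 6 Nc co y1 = 1 := by
      unfold thS
      rw [if_neg (J8.not_junk C hy1 (by rw [hc1]; norm_num)), hc1]
      rfl
    obtain ⟨cG2, cG7⟩ := ct_G C hG hcG
    have s1 : 49 ≤ ∑ y, (if y1 ≤ y then lev y - 6 else 0) := by
      rw [← cG7, ct_eq_sum]
      refine Finset.sum_le_sum fun y _ => ?_
      by_cases a : G ≤ y
      · rw [if_pos a, if_pos (hy1G.1.le.trans a)]
        exact min_le_right _ _
      · rw [if_neg a]
        exact Nat.zero_le _
    have s2 : 30 ≤ ∑ y, (if y1 < y then min (1 + 1) (lev y - 6) else 0) := by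
      rw [← cG2, ct_eq_sum]
      refine Finset.sum_le_sum fun y _ => ?_
      by_cases a : G ≤ y
      · rw [if_pos a, if_pos (hy1G.1.trans_le a)]
      · rw [if_neg a]
        exact Nat.zero_le _
    have hBy2 : y2 ∈ N t := (hN' y2).mpr (Or.inr hy2)
    refine J8.compL_twin HN (i := 6) (j := 12) (by norm_num) hlow hS (y1 := y1) (y2 := y2) ?_ ?_
      hbase ((hN' y1).mpr (Or.inr hY1)) hBy2 (mem_natS.mpr (Or.inl hy1)) hy2N ?_ ?_ ?_ ?_ ?_ ?_
    · intro x hx
      rcases (hN' x).mp hx with h1 | h1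
      · exact Or.inl (hlN x h1)
      · rcases hY2 x h1 with h2 | h2
        · rw [h2]; exact Or.inl (mem_natS.mpr (Or.inl hy1))
        · exact Or.inr h2
    · intro x hx hl
      exact hlN x (mem_lowPart.mpr ⟨hx, hl⟩)
    · intro x hx hne
      rw [hθ x hx]
      unfold thY
      split_ifs with hY
      · rcases hY2 x hY with h2 | h2
        · rw [h2, hth1]
        · exact absurd h2 hne
      · rfl
    · rw [hθ y2 hBy2]
      unfold thY
      rw [if_pos hy2]
    · intro x hx _
      exact hB x hx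
    · intro hb
      exact hy2Nc ((hB y2 hBy2).mp hb).1
    · refine ⟨hy12, hup12, ?_, ?_, ?_, ?_, ?_⟩
      · simp only [hy12, if_false]
        exact hth1.ge
      · simp only [hy12, if_false, if_true]
        exact hth1.symm
      · simp only [hy12, if_false]
        rw [hth1, hl1]
        norm_num
      · simp only [hy12, if_false, hth1]
        omega
      · simp only [hy12, if_false, hth1]
        omega
    · rw [hl1]; norm_num

end

/-- stair-like components -/
theorem stair_ts (h : Win.GoodTo P r 12) (C : Cp.Comp 12 (t : P) lo hi e)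
    (S : StairShape 12 lo hi) : ∃ Y θ B, (TB 28 True t (hi 6 - lo 6 + 1) Y θ ∧
      DT 28 t (hi 6 - lo 6 + 1) Y θ B) ∧
      (lo 12 = 0 → ∀ z, z ⋖ e 12 6 → z ⋖ e 12 0 → z ∉ Y ∧ IsCx t (hi 6 - lo 6 + 1) θ z) := by
  classical
  have H := h.H
  have hg := h.good
  have e0 : lo 6 = 0 := by
    by_contra hcon
    have e1 := shape_lo C S.lo (l := 6) (by omega) 6 (by norm_num)
    have e2 := S.hi (6 + 6) (by norm_num)
    have e3 := C.lo_le (6 + 6) (by norm_num)
    omega
  have u6 := S.hi 6 (by norm_num)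
  have u12 := S.hi 12 le_rfl
  norm_num at u6 u12
  have hb : hi 6 - lo 6 + 1 = 4 := by omega
  obtain ⟨Nc, co, R, hco⟩ := exists_stair' C H hg H.gradedBelow S (i := 6) (by norm_num) e0
  have CC := R.chart
  have hmem : ∀ x, x ≤ (t : P) → lev x = 12 → x ∈ Nc := fun x hx hl =>
    R.strip (mem_lowPart.mpr ⟨hx, hl.le⟩)
  have hcl : ∀ x ∈ Nc, lev x = 12 → (co x).1 + (co x).2 = 12 ∧ (co x).1 ≤ (co x).2 := by
    intro x hx hl
    have h1 := CC.lev x hx
    exact ⟨by omega, CC.mem x hx⟩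
  have hu : ∀ x ∈ Nc, lev x = 12 → (Win.uc x).card = 1 → co x = (6, 6) ∨ co x = (0, 12) := by
    intro x hx hl hu1
    obtain ⟨h1, h2⟩ := hcl x hx hl
    by_contra hcon
    push Not at hcon
    have h3 : (co x).1 ≠ 6 := fun h4 => hcon.1 (Prod.ext h4 (by simp only; omega))
    have h4 : (co x).1 ≠ 0 := fun h4 => hcon.2 (Prod.ext h4 (by simp only; omega))
    have := chartS_inner_uc CC H hx (by omega) (by omega)
    omega
  -- cells different from the fold end
  have hcell : ∀ x z : P, x ∈ Nc → lev x = 12 → (co x).1 ≠ 6 → z ⋖ x →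
      28 ≤ ct 6 (thY Nc co x + 1) z := by
    intro x z hx hl h6 hzx
    obtain ⟨h1, h2⟩ := hcl x hx hl
    rcases thY_eq CC H hl with h3 | h3
    · have h4 := (H.covBy_iff.mp hzx).2
      have h5 := ct_ge13 (x := z) (by omega) 7
      rw [light_k] at h5
      rw [h3]
      exact h5
    · have h5 := stair_k (co x).1 (by omega)
      have h6' := ct_chart CC (shift := true) (by simp) hx 6
        (((co x).1 - 6) + ((co x).2 - 6) + 1)
      rw [hl, show (co x).2 = 12 - (co x).1 by omega] at h6'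
      rw [← h6'] at h5
      have h7 := ct_below H hl hzx (((co x).1 - 6) + (12 - (co x).1 - 6) + 1)
      rw [h3, show (co x).2 = 12 - (co x).1 by omega]
      omega
  rw [hb]
  have hcx : lo 12 = 0 → ∀ z, z ⋖ e 12 6 → z ⋖ e 12 0 →
      z ∉ Ys Nc co ∧ IsCx t 4 (thY Nc co) z := by
    intro h0 z hz4 hz0
    have m4 : e 12 6 ∈ lowPart 12 (t : P) := mem_lowPart.mpr
      ⟨C.le_t 12 6 le_rfl (by omega) (by omega), (C.lev_e 12 6 le_rfl (by omega) (by omega)).le⟩
    have m0 : e 12 0 ∈ lowPart 12 (t : P) := mem_lowPart.mpr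
      ⟨C.le_t 12 0 le_rfl (by omega) (by omega), (C.lev_e 12 0 le_rfl (by omega) (by omega)).le⟩
    have c4 : co (e 12 6) = (6, 6) := by
      rw [hco _ m4]
      unfold ccoord
      rw [scoord_e C (k := 12) (s := 6) le_rfl (by omega) (by omega),
        C.lev_e 12 6 le_rfl (by omega) (by omega)]
    have c0 : co (e 12 0) = (0, 12) := by
      rw [hco _ m0]
      unfold ccoord
      rw [scoord_e C (k := 12) (s := 0) le_rfl (by omega) (by omega),
        C.lev_e 12 0 le_rfl (by omega) (by omega)]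
    have hne : e 12 6 ≠ e 12 0 := by
      intro hh
      have := C.inj 12 6 0 le_rfl (by omega) (by omega) (by omega) (by omega) hh
      omega
    refine ⟨?_, Nc, co, e 12 6, e 12 0, ⟨CC, R.strip, R.strip m4, R.strip m0, c4, c0, hz4, hz0,
      fun y hy => uc_pair H hz4 hz0 hne hy⟩, rfl, thY_F CC H (R.strip m4) c4⟩
    intro hY
    obtain ⟨F, hF, hcF, hyF, G, hG, hcG, hyG⟩ := mem_Ys.mp hY
    rcases uc_pair H hz4 hz0 hne hyG with h1 | h1
    · rw [h1, c4] at hcG
      exact absurd hcG (by decide)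
    · rw [h1, c0] at hcG
      exact absurd hcG (by decide)
  refine ⟨Ys Nc co, thY Nc co, fun x => x ∈ Nc ∧ co x = (6, 6), ⟨?_, stair_data h R⟩, hcx⟩
  constructor
  · norm_num
  · intro y hy
    have := Ys_lev CC H hy
    omega
  · intro y hy v hyv
    obtain ⟨F, hF, hcF, hyF, G, hG, hcG, hyG⟩ := mem_Ys.mp hy
    have hFG : F ≠ G := by
      rintro rfl
      rw [hcF] at hcG
      exact absurd hcG (by decide)
    rw [mem_union, mem_lowPart]
    left
    rcases uc_pair H hyF hyG hFG hyv with h1 | h1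
    · rw [h1]
      exact ⟨CC.le_t F hF, by rw [CC.lev F hF, hcF]; decide⟩
    · rw [h1]
      exact ⟨CC.le_t G hG, by rw [CC.lev G hG, hcG]; decide⟩
  · intro y hy z hzy _
    obtain ⟨F, hF, hcF, hyF, G, hG, hcG, hyG⟩ := mem_Ys.mp hy
    have h1 : thY Nc co y = 1 := by
      unfold thY
      rw [if_pos hy]
    have h2 := ct_mono (i := 6) (hzy.1.le.trans hyG.1.le) (le_refl 2)
    rw [(ct_G CC hG hcG).1] at h2
    rw [h1]
    show 28 ≤ ct 6 2 z
    omega
  · intro x z hxt hl hzx honly _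
    have hx := hmem x hxt hl
    obtain ⟨h1, h2⟩ := hcl x hx hl
    by_cases h6 : (co x).1 = 6
    · right
      have hc : co x = (6, 6) := Prod.ext h6 (by simp only; omega)
      exact ⟨thY_F CC H hx hc, Or.inl (fold_prof CC hx hc)⟩
    · left
      exact hcell x z hx hl h6 hzx
  · intro x x' z hne hxt hxt' hl hl' hzx hzx' hz _
    have hx := hmem x hxt hl
    have hx' := hmem x' hxt' hl'
    obtain ⟨h1, h2⟩ := hcl x hx hl
    by_cases h6 : (co x).1 = 6
    · right
      exact ⟨trivial, stair_own h R hu hx hx' hl hl' hne hzx hzx' hz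
        (Prod.ext h6 (by simp only; omega))⟩
    · left
      exact hcell x z hx hl h6 hzx
  · intro x hxt hl hu1
    have hx := hmem x hxt hl
    rcases hu x hx hl hu1 with h4 | h4
    · exact ⟨fun _ => ⟨thY_F CC H hx h4, fold_prof CC hx h4⟩, fun _ => Or.inl (fold_prof CC hx h4)⟩
    · have h5 := nab_chart CC hx 6
      have h6 := card_cellsAt_shift (l := 6) (p := co x) (by rw [h4]; norm_num)
        (by rw [h4]; norm_num)
      rw [← h5, h4] at h6
      norm_num at h6
      refine ⟨fun h3 => by omega, fun h0 => ?_⟩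
      exfalso
      rcases thY_eq CC H hl with h7 | h7
      · omega
      · rw [h4] at h7
        norm_num at h7
        omega
  · intro x hxt hl hu1 h0
    have hx := hmem x hxt hl
    refine ct_three hl ?_
    rcases hu x hx hl hu1 with h4 | h4
    · exact absurd (thY_F CC H hx h4) h0
    · rcases thY_eq CC H hl with h7 | h7
      · omega
      · rw [h4] at h7
        norm_num at h7
        omega
  · intro y hy x hp _
    exfalso
    obtain ⟨F, hF, hcF, hyF, G, hG, hcG, hyG⟩ := mem_Ys.mp hy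
    rw [hp.2 F hyF] at hcF
    rw [hp.2 G hyG, hcF] at hcG
    exact absurd hcG (by decide)

end Pool.Agent.GaussPoset.W6

end
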