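import Mathlib
import Pool.Agent.W_448zz_h61.Ns
import Pool.Agent.W_448zz_h61.M125
import Pool.Agent.W_448zz_h61.M126
import Pool.Agent.W_448zz_h61.M127
import Pool.Agent.W_448zz_h61.M184

/-! From `Pool.Agent.W_448cc7_h94.CsB` -/

section

/-!
Case B at window `m`: twins, truncated data, the boundary (after `FcT` of helper67).
-/

namespace Pool.Agent.GaussPoset.Cs

set_option linter.unusedSectionVars false

open Polynomial Finset

universe u

variable {P : Type u} [Fintype P] [PartialOrder P] [DecidableEq P] {r m K : ℕ}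
  {N : Tops P → Finset P} {b : Tops P → ℕ} {θ : Tops P → P → ℕ}

theorem WG.twSys (W : WG r m K N b θ) : TwSys (unnat N) (twY (2 * m) N) topOf (twT N) :=
  twSys_of W.gt.H W.natSys

/-- natural elements of level at least `2 m + 1` -/
theorem WG.kap (W : WG r m K N b θ) {x : P} (hx : x ∉ unnat N) (hl : 2 * m + 1 ≤ lev x) :
    FullM m N θ x ∨ K ≤ ct m (θ (topOf x) x + 1) x + (θ (topOf x) x + 1) := by
  have hm := W.two
  rcases W.cases hx with h | ⟨Nc, co, h⟩ | ⟨Nc, co, h⟩ | h | h
  · exact Or.inl h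
  · right
    have h1 := W.K_le
    rw [pow_two] at h1
    refine le_trans (by omega) (kap_chart (by omega) h.rect.chart h.mem h.fst h.snd hl ?_)
    rw [h.th]
  · right
    refine kap_chartG W.kap0 (by omega) h.stair.chart h.mem h.fst hl ?_
    rw [h.th]
  · have := h.1.lev
    omega
  · exact Or.inr (h.kap x h.mem hl)

lemma WG.tw_inner (W : WG r m K N b θ) {x : P} (hx : x ∈ twY (2 * m) N) :
    (∃ Nc co, InRM m N b θ (twT N x) Nc co) ∨ (∃ Nc co, InSM m N b θ (twT N x) Nc co) ∨
      OthM m K N θ (twT N x) := by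
  have h1 := mem_twY.mp hx
  have h3 := twT_spec h1.2.2
  rcases W.cases h3.1 with h | h | h | h | h
  · exact absurd h3.2 (h.tw x h1.1)
  · exact Or.inl h
  · exact Or.inr (Or.inl h)
  · have h4 := h.1.lev
    have h5 := W.twSys.lev hx
    omega
  · exact Or.inr (Or.inr h)

lemma WG.tw_kap (W : WG r m K N b θ) {x : P} (hx : x ∈ twY (2 * m) N) :
    K ≤ ct m (θ (topOf (twT N x)) (twT N x) + 1) (twT N x) +
      (θ (topOf (twT N x)) (twT N x) + 1) := by
  have h1 := mem_twY.mp hx
  have h3 := twT_spec h1.2.2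
  have h5 := W.twSys.lev hx
  rcases W.kap h3.1 (by omega) with h | h
  · exact absurd h3.2 (h.tw x h1.1)
  · exact h

lemma WG.tw_th (W : WG r m K N b θ) {x : P} (hx : x ∈ twY (2 * m) N) :
    1 ≤ θ (topOf (twT N x)) (twT N x) ∧ θ (topOf (twT N x)) (twT N x) ≤ m := by
  have h1 := mem_twY.mp hx
  have h5 := W.twSys.lev hx
  have hm := W.two
  rcases W.tw_inner hx with ⟨Nc, co, h⟩ | ⟨Nc, co, h⟩ | h
  · have h6 := h.rect.chart.lev _ h.mem
    have h7 := h.fst
    have h8 := h.snd
    have h9 := h.th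
    omega
  · have h6 := h.stair.chart.lev _ h.mem
    have h7 := h.fst
    have h8 : (co (twT N x)).1 ≤ (co (twT N x)).2 := h.stair.chart.mem _ h.mem
    have h9 := h.th
    omega
  · exact h.th _ h.mem (by omega)

/-- the twins are harmless below energy `K - 1` -/
theorem WG.twinPair (W : WG r m K N b θ) {x : P} (hx : x ∈ twY (2 * m) N) :
    TwinPair m (thX (twY (2 * m) N) (twT N) (fun x => θ (topOf x) x)) (K - 1) (twT N x) x := by
  classical
  have T := W.twSys
  have h1 := mem_twY.mp hx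
  have hlev : lev (twT N x) = 2 * m + 1 := by rw [T.lev hx]; exact h1.2.1
  have hnY : twT N x ∉ twY (2 * m) N := fun h => T.nat x hx (mem_twY.mp h).1
  obtain ⟨h3, h4⟩ := W.tw_th hx
  have h5 := W.tw_kap hx
  have hth : thX (twY (2 * m) N) (twT N) (fun x => θ (topOf x) x) (twT N x) =
      θ (topOf (twT N x)) (twT N x) := thX_not hnY
  have hth' : thX (twY (2 * m) N) (twT N) (fun x => θ (topOf x) x) x =
      θ (topOf (twT N x)) (twT N x) := thX_of hx
  refine ⟨?_, T.up x hx, ?_, ?_, ?_, ?_, ?_⟩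
  · intro h
    exact T.nat x hx (h.symm ▸ h1.1)
  · rw [hth]; exact h3
  · rw [hth, hth']
  · rw [hth, hlev]; omega
  · rw [hth]
    have h6 : ct m (θ (topOf (twT N x)) (twT N x) + 1) (twT N x) ≤
        ∑ y, (if twT N x ≤ y then lev y - m else 0) := by
      rw [ct_eq_sum]
      refine Finset.sum_le_sum fun y _ => ?_
      split_ifs
      · exact Nat.min_le_right _ _
      · exact le_rfl
    omega
  · rw [hth]
    have h6 := ct_succ m (θ (topOf (twT N x)) (twT N x) + 1) (twT N x)
    rw [hlev, Nat.min_eq_left (by omega)] at h6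
    omega

/-- truncated data at window `m` -/
theorem WG.farT (W : WG r m K N b θ) : FarT P m (r2 (2 * m) N) (lv P m).card
    (h2 (2 * m) N θ) (K - 1) := by
  choose B hB using W.natTop
  have h := farT_of_tops W.gt.H.gradedBelow hB W.twSys (K - 1) (fun x hx => W.twinPair hx)
  rw [W.sum_b] at h
  exact h

/-- the boundary: level `2 m + 1` or large cost -/
theorem WG.bd (W : WG r m K N b θ) {z : P} (hz : z ∈ bdR (r2 (2 * m) N)) :
    lev z = 2 * m + 1 ∨ K ≤ cst m (h2 (2 * m) N θ) z := by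
  classical
  have H := W.gt.H
  have hm := W.two
  have T := W.twSys
  have hzR : z ∈ unnat N := (mem_sdiff.mp (mem_filter.mp hz).1).1
  have hlz := W.lt_lev hzR
  by_cases hl : lev z = 2 * m + 1
  · exact Or.inl hl
  right
  obtain ⟨u, hu, hzu, hh⟩ := hcan_spec
    (θ := thX (twY (2 * m) N) (twT N) (fun x => θ (topOf x) x)) hz
  have hlu := (H.covBy_iff.mp hzu).2
  have hc : ∀ k, h2 (2 * m) N θ z = k → cst m (h2 (2 * m) N θ) z = ct m k z := by
    intro k hk
    unfold ct cst ez
    rw [hk]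
  have key : ∀ (u' : P) (k : ℕ), ct m k u = ct m k u' → K ≤ ct m k u' + k → k ≤ lev z - m →
      h2 (2 * m) N θ z = k → K ≤ cst m (h2 (2 * m) N θ) z := by
    intro u' k h3 h4 h5 h6
    have h7 := ct_cov (i := m) (k := k) hzu.1
    rw [Nat.min_eq_left h5] at h7
    rw [hc k h6]
    omega
  by_cases huY : u ∈ twY (2 * m) N
  · rw [thX_of huY] at hh
    have h3 := W.tw_th huY
    exact key (twT N u) _ (ct_congr_up fun w => (T.up u huY w).symm) (W.tw_kap huY) (by omega) hh
  · have huR : u ∉ unnat N := fun h => hu (mem_sdiff.mpr ⟨h, huY⟩)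
    rw [thX_not huY] at hh
    rcases W.kap huR (by omega) with hF | hI
    · rw [hF.th] at hh
      have h3 := sq_le_cst (i := m) (h := h2 (2 * m) N θ) (z := z) (by omega)
        (by show h2 (2 * m) N θ z = _; rw [show h2 (2 * m) N θ z = _ from hh]; omega) (by
          intro k hk hk2
          exact hF.two z hzR hzu.le k (by omega) (by omega))
      have h4 : (m + 1) ^ 2 ≤ (lev z - m) ^ 2 := Nat.pow_le_pow_left (by omega) 2
      exact (W.K_le.trans h4).trans h3
    · have h5 := W.farT.le_lev z hz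
      exact key u _ rfl hI (by rw [show h2 (2 * m) N θ z = _ from hh] at h5; exact h5) hh

end Pool.Agent.GaussPoset.Cs

end

/-! From `Pool.Agent.W_448s14_h94.SgL` -/

section

/-!
No first pole if the sum of the values is not zero; the context at level 14, window 7, energy 25.
-/

namespace Pool.Agent.GaussPoset.Sg

set_option linter.unusedSectionVars false

open Polynomial Finset Cl Dd Wd Win

universe u

section General

variable {P : Type u} [Fintype P] [PartialOrder P] [DecidableEq P]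
variable {ι : Type*} [Fintype ι] [DecidableEq ι]

/-- **No first pole**, the sum of the values is not zero. -/
theorem no_first_pole_sum {i n0 : ℕ} (h0 : 1 ≤ n0) (hG : IsGaussian P) {R : Finset P}
    (hR : ∀ x y, x ≤ y → y ∈ R → x ∈ R) (hRlev : ∀ x ∈ R, i < lev x)
    (cp : P → ι) (hcp : ∀ x y, x ≤ y → x ∉ R → cp x = cp y) (b : ι → ℕ) (θ : P → ℕ)
    (B : P → Prop) (hBR : ∀ x ∈ R, ¬ B x)
    (H : ∀ k, CompDataL R cp k i (b k) n0 θ B) (hb : ∀ k, 1 ≤ b k)
    (hsum : ∑ k, b k = (lv P i).card)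
    (hcost : ∀ z ∈ bdR R, n0 < cst i (hcan R θ) z) (ρ : ι → ℤ)
    (hpl : ∀ k, (ρ k = 0 ∧ ∀ n, (1 + X : ℤ[X]) ^ b k ∣
        Z {x : {x : P // x ∉ R} // cp (x : P) = k} i n) ∨
      ∀ f, (∀ n, exq n f = Z {x : {x : P // x ∉ R} // cp (x : P) = k} i n) →
        Pl n0 (b k) (ρ k) f)
    (hρ : ∑ k, ρ k ≠ 0) : False := by
  classical
  have hne : (univ : Finset ι).Nonempty := by
    by_contra hcon
    rw [Finset.not_nonempty_iff_eq_empty] at hcon
    rw [hcon, Finset.sum_empty] at hρ
    exact hρ rfl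
  have h1 := sub_natural hR hRlev cp hcp b θ B hBR H hcost
  rw [hsum] at h1
  have h2 := dvd_Z hG i n0
  have h3 : (1 + X : ℤ[X]) ^ (lv P i).card ∣ Z {x : P // x ∉ R} i n0 := by
    have := dvd_sub h2 h1
    rwa [sub_sub_cancel] at this
  have hc : ∀ x y : {x : P // x ∉ R}, x ≤ y → cp (x : P) = cp (y : P) := fun x y hxy =>
    hcp x y hxy x.2
  choose f hf hf' using fun k => exists_norm {x : {x : P // x ∉ R} // cp (x : P) = k} i
  have hprod := Z_prod (fun x : {x : P // x ∉ R} => cp (x : P)) hc i f hf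
  have hR' : ∀ x : {x : P // x ∉ R}, lev x = lev (x : P) :=
    lev_subtype (p := fun x => x ∉ R) (fun x y hxy hx => fun h => hx (hR x y hxy h))
  have hlv : (lv P i).card = (lv {x : P // x ∉ R} i).card := by
    refine (Finset.card_bij (fun (x : {x : P // x ∉ R}) _ => (x : P)) ?_ ?_ ?_).symm
    · intro x hx
      rw [mem_lv] at hx ⊢
      rw [← hR', hx]
    · intro x _ y _ h
      exact Subtype.ext h
    · intro x hx
      rw [mem_lv] at hx
      have hxR : x ∉ R := fun h => by have := hRlev x h; omega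
      exact ⟨⟨x, hxR⟩, by rw [mem_lv, hR']; exact hx, rfl⟩
  have hlv2 := card_lv_prod (fun x : {x : P // x ∉ R} => cp (x : P)) hc i
  have hz0 : ∀ k, exq 0 (f k) =
      X ^ (below {x : {x : P // x ∉ R} // cp (x : P) = k} i) *
        (1 + X) ^ (lv {x : {x : P // x ∉ R} // cp (x : P) = k} i).card := fun k => by
    rw [hf', Z_zero]
  have hgood : GaussPoset.Good i R B R := ⟨hR, Subset.refl R, hRlev, hBR⟩
  have hle : ∀ k ∈ (univ : Finset ι), b k ≤
      (lv {x : {x : P // x ∉ R} // cp (x : P) = k} i).card := by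
    intro k _
    have h4 := (H k).clean R hgood inferInstance 0 (by omega)
    rw [Z_zero] at h4
    exact le_of_pow_dvd h4
  have heq := (Finset.sum_eq_sum_iff_of_le hle).mp (by rw [hsum, hlv, hlv2])
  have hP : Pl n0 (∑ k, b k) (∑ k, ρ k) (∏ k, f k) := by
    refine Pl.prod h0 univ hne fun k hk => ?_
    rcases hpl k with ⟨h4, h5⟩ | h4
    · rw [h4]
      refine Pl.of_dvd (hb k) (fun n => by rw [hf']; exact h5 n) (m := below
        {x : {x : P // x ∉ R} // cp (x : P) = k} i) ?_
      rw [hz0, heq k hk]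
    · exact h4 (f k) (hf' k)
  refine hP.not_dvd hρ ?_
  rw [hsum, ← hprod]
  exact h3

end General

variable {P : Type u} [Fintype P] [PartialOrder P] [DecidableEq P] {r : ℕ}

/-- the types at the energy 25 -/
inductive T25 (t : Tops P) (b : ℕ) (N A : Finset P) (θ : P → ℕ) (B : P → Prop) (ρ : ℤ) : Prop
  | nat (h1 : Nt t b N θ B 26) (h2 : A = ∅) (h3 : ρ = 0)
      (h4 : ∀ x ≤ (t : P), lev x = 14 → θ x = 0 → Thin x →
        (∀ y ≤ (t : P), lev y = 14 → y = x) ∧ ∀ z, lev z = 15 → ¬ Pend z x)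
  | la (lo hi : ℕ → ℕ) (e : ℕ → ℕ → P) (C : Cp.Comp 14 (t : P) lo hi e)
      (D : WordD 14 7 wa7 lo hi) (h1 : N = lowPart 14 (t : P) ∪ A) (h2 : b = 2)
      (h3 : B = fun x => x = ce e 29) (h4 : LaData e (t : P) A θ ρ)

/-- the context -/
structure D7 (r : ℕ) (N A : Tops P → Finset P) (b : Tops P → ℕ) (θ : Tops P → P → ℕ)
    (B : Tops P → P → Prop) (ρ : Tops P → ℤ) : Prop where
  gt : GoodTo P r 14
  hno : ∀ z : P, lev z = 15 → ¬ Hul.Jn z
  typ : ∀ t, T25 t (b t) (N t) (A t) (θ t) (B t) (ρ t)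
  sum_b : ∑ t, b t = (lv P 7).card

variable {N A : Tops P → Finset P} {b : Tops P → ℕ} {θ : Tops P → P → ℕ} {B : Tops P → P → Prop}
  {ρ : Tops P → ℤ}

/-- the strips with the elements of level 15 -/
noncomputable def MA (A : Tops P → Finset P) (t : Tops P) : Finset P := lowPart 14 (t : P) ∪ A t

lemma D7.lowUp (W : D7 r N A b θ B ρ) (t : Tops P) :
    ∀ x ∈ lowPart 14 (t : P), ∀ y, x ≤ y → y ∈ lowPart 14 (t : P) := by
  intro x hx y hxy
  rw [mem_lowPart] at hx ⊢
  refine ⟨Cp.up_le W.gt.H W.gt.good t.2 hx.1 hx.2 hxy, ?_⟩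
  rcases eq_or_lt_of_le hxy with h | h
  · rw [← h]; exact hx.2
  · have := lev_strictAnti h; omega

/-- the elements of the extended strips -/
lemma D7.mem_A (W : D7 r N A b θ B ρ) {t : Tops P} {x : P} (hx : x ∈ A t) : lev x = 15 ∧
    (∀ y, x ⋖ y → y ∈ lowPart 14 (t : P)) ∧ ∀ z, z ⋖ x → 26 ≤ ct 7 (θ t x + 1) z := by
  rcases W.typ t with ⟨h1, h2, h3, h4⟩ | ⟨lo, hi, e, C, D, h1, h2, h3, h4⟩
  · rw [h2] at hx
    exact absurd hx (Finset.notMem_empty x)
  · obtain ⟨m, hm, hmk, -⟩ := h4.ext.ex x hx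
    refine ⟨hmk.1, fun y hy => ?_, fun z hz => h4.costA z x hx hz⟩
    obtain ⟨a, ha, -, rfl⟩ := (hmk.2 y).mp hy
    have h5 := La7_le D C ha
    have h6 := (W.gt.H.covBy_iff.mp hy).2
    have h7 := hmk.1
    rw [mem_lowPart]
    exact ⟨h5.1, by omega⟩

lemma D7.sysM (W : D7 r N A b θ B ρ) : NatSys (MA A) where
  up := by
    intro t x hx y hxy
    unfold MA at hx ⊢
    rw [mem_union] at hx ⊢
    rcases hx with hx | hx
    · exact Or.inl (W.lowUp t x hx y hxy)
    · rcases eq_or_lt_of_le hxy with h | h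
      · rw [← h]
        exact Or.inr hx
      · obtain ⟨v, hv, hvy⟩ := Hul.exists_cov h
        exact Or.inl (W.lowUp t v ((W.mem_A hx).2.1 v hv) y hvy)
  le_t := by
    intro t x hx
    unfold MA at hx
    rw [mem_union] at hx
    rcases hx with hx | hx
    · exact (mem_lowPart.mp hx).1
    · have h1 := (W.mem_A hx).1
      have h2 : x < (topOf x : P) := lt_of_le_of_ne (le_topOf x) (by
        intro h
        have := (topOf x).2
        rw [← h] at this
        omega)
      obtain ⟨v, hv, -⟩ := Hul.exists_cov h2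
      exact hv.le.trans (mem_lowPart.mp ((W.mem_A hx).2.1 v hv)).1

lemma D7.sysN (W : D7 r N A b θ B ρ) : NatSys N where
  up := by
    intro t
    rcases W.typ t with ⟨h1, h2, h3, h4⟩ | ⟨lo, hi, e, C, D, h1, h2, h3, h4⟩
    · exact h1.nt.up
    · rw [h1]
      exact W.sysM.up t
  le_t := by
    intro t
    rcases W.typ t with ⟨h1, h2, h3, h4⟩ | ⟨lo, hi, e, C, D, h1, h2, h3, h4⟩
    · exact h1.nt.le_t
    · rw [h1]
      exact W.sysM.le_t t

lemma D7.sub (W : D7 r N A b θ B ρ) (t : Tops P) : MA A t ⊆ N t := by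
  rcases W.typ t with ⟨h1, h2, h3, h4⟩ | ⟨lo, hi, e, C, D, h1, h2, h3, h4⟩
  · unfold MA
    rw [h2, Finset.union_empty]
    exact h1.strip
  · rw [h1]
    exact Finset.Subset.refl _

lemma D7.unnat_sub (W : D7 r N A b θ B ρ) : unnat N ⊆ unnat (MA A) := by
  intro x hx
  rw [mem_unnat] at hx ⊢
  exact fun t h => hx t (W.sub t h)

lemma D7.low (W : D7 r N A b θ B ρ) {x : P} (hx : lev x ≤ 14) : x ∈ MA A (topOf x) :=
  mem_union_left _ (mem_lowPart.mpr ⟨le_topOf x, hx⟩)

lemma D7.lt_lev (W : D7 r N A b θ B ρ) {x : P} (hx : x ∈ unnat (MA A)) : 14 < lev x := by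
  by_contra hcon
  exact mem_unnat.mp hx (topOf x) (W.low (by omega))

lemma D7.base (W : D7 r N A b θ B ρ) {t : Tops P} {x : P} (hx : x ∈ N t) (hB : B t x) :
    lev x ≤ 14 := by
  rcases W.typ t with ⟨h1, h2, h3, h4⟩ | ⟨lo, hi, e, C, D, h1, h2, h3, h4⟩
  · exact h1.base x hx hB
  · rw [h3] at hB
    have h5 := (La7_le D C (a := 29) (by norm_num)).2
    rw [show x = ce e 29 from hB, h5]
    decide +kernel

lemma D7.not_BA (W : D7 r N A b θ B ρ) : ∀ x ∈ unnat (MA A), ¬ Dd.BA N B x := by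
  rintro x hx ⟨h1, h2⟩
  have h3 := W.lt_lev hx
  have hxN : x ∈ N (topOf x) := W.sysN.mem_iff.mpr ⟨h1, rfl⟩
  have := W.base hxN h2
  omega

theorem D7.compL (W : D7 r N A b θ B ρ) (t : Tops P) :
    CompDataL (unnat (MA A)) topOf t 7 (b t) 25 (Dd.thA θ) (Dd.BA N B) := by
  have HN := W.sysN
  have e1 : ∀ x ∈ N t, Dd.thA θ x = θ t x := by
    intro x hx
    show θ (topOf x) x = _
    rw [HN.topOf_eq hx]
  have e2 : ∀ x ∈ N t, Dd.BA N B x ↔ B t x := by
    intro x hx
    unfold Dd.BA
    simp only [HN.topOf_eq hx, (HN.mem_iff.mp hx).1, not_false_eq_true, true_and]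
  rcases W.typ t with ⟨h1, h2, h3, h4⟩ | ⟨lo, hi, e, C, D, h1, h2, h3, h4⟩
  · exact CompDataL.of (CompData.mono (h1.nt.data N HN rfl _ _ e1 e2) W.unnat_sub) 25
  · have h5 : LocL 7 2 25 (N t) (θ t) (B t) := by
      rw [h1, h3]
      exact h4.ext.loc
    rw [h2]
    exact compDataL_mono (h5.data HN _ _ e1 e2) W.unnat_sub

/-- the covers of an element of level 15 are below one maximal element -/
lemma D7.cov_top (W : D7 r N A b θ B ρ) {z x y : P} (hz : lev z = 15) (hx : z ⋖ x) (hy : z ⋖ y) :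
    y ≤ (topOf x : P) := by
  have h1 : (topOf y : P) = (topOf x : P) := by
    by_contra hne
    exact W.hno z hz ⟨topOf y, topOf x, (topOf y).2, (topOf x).2, hne,
      hy.le.trans (le_topOf y), hx.le.trans (le_topOf x)⟩
  rw [← h1]
  exact le_topOf y

/-- **The costs.** -/
theorem D7.cost (W : D7 r N A b θ B ρ) {z : P} (hz : z ∈ bdR (unnat (MA A))) :
    26 ≤ cst 7 (hcan (unnat (MA A)) (Dd.thA θ)) z := by
  classical
  have H := W.gt.H
  obtain ⟨x, hx, hzx, hh⟩ := hcan_spec (θ := Dd.thA θ) hz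
  have hh' : hcan (unnat (MA A)) (Dd.thA θ) z = θ (topOf x) x + 1 := hh
  have hzR := (mem_filter.mp hz).1
  have hzl := W.lt_lev hzR
  have hzc := (H.covBy_iff.mp hzx).2
  rw [cst_ct (i := 7) hh']
  have hxM : x ∈ MA A (topOf x) := W.sysM.mem_iff.mpr ⟨hx, rfl⟩
  unfold MA at hxM
  rw [mem_union, mem_lowPart] at hxM
  rcases hxM with ⟨-, hxl⟩ | hxA
  · have hlx : lev x = 14 := by omega
    have hlz : lev z = 15 := by omega
    rcases W.typ (topOf x) with ⟨h1, h2, h3, h4⟩ | ⟨lo, hi, e, C, D, h1, h2, h3, h4⟩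
    · rcases h1.cost x (le_topOf x) hlx with h5 | ⟨h5, h6⟩
      · have h7 := ct_cov (i := 7) (k := θ (topOf x) x + 1) hzx.1
        rw [hlz] at h7
        omega
      · obtain ⟨h7, h8⟩ := h4 x (le_topOf x) hlx h5 h6
        refine absurd ⟨hzx, fun y hy => ?_⟩ (h8 z hlz)
        refine h7 y (W.cov_top hlz hzx hy) ?_
        have := (H.covBy_iff.mp hy).2
        omega
    · refine h4.cost z hlz (fun y hy => W.cov_top hlz hzx hy) ?_ x hzx
      intro h
      exact mem_unnat.mp hzR (topOf x) (mem_union_right _ h)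
  · exact (W.mem_A hxA).2.2 z hzx

/-- **No component with an element below the ends.** -/
theorem D7.no_pos (W : D7 r N A b θ B ρ) {t0 : Tops P} (h0 : 0 < ρ t0) : False := by
  classical
  have HM := W.sysM
  have hρ0 : ∀ t, 0 ≤ ρ t := by
    intro t
    rcases W.typ t with ⟨h1, h2, h3, h4⟩ | ⟨lo, hi, e, C, D, h1, h2, h3, h4⟩
    · rw [h3]
    · exact h4.nonneg
  refine no_first_pole_sum (n0 := 25) (i := 7) (by omega) W.gt.H.gauss HM.lower
    (fun x hx => by have := W.lt_lev hx; omega) topOf HM.cp b (Dd.thA θ) (Dd.BA N B) W.not_BA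
    W.compL ?_ W.sum_b (fun z hz => by have := W.cost hz; omega) ρ ?_ ?_
  · intro t
    rcases W.typ t with ⟨h1, h2, h3, h4⟩ | ⟨lo, hi, e, C, D, h1, h2, h3, h4⟩
    · exact h1.one
    · omega
  · intro t
    rcases W.typ t with ⟨h1, h2, h3, h4⟩ | ⟨lo, hi, e, C, D, h1, h2, h3, h4⟩
    · left
      refine ⟨h3, fun n => ?_⟩
      have HN := W.sysN
      have h6 : CompData (unnat N) topOf t 7 (b t) (Dd.thA θ) (Dd.BA N B) := by
        refine h1.nt.data N HN rfl _ _ ?_ ?_
        · intro x hx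
          show θ (topOf x) x = _
          rw [HN.topOf_eq hx]
        · intro x hx
          unfold Dd.BA
          simp only [HN.topOf_eq hx, (HN.mem_iff.mp hx).1, not_false_eq_true, true_and]
      have h7 := (CompData.mono h6 W.unnat_sub).clean (unnat (MA A))
        ⟨HM.lower, Subset.refl _, fun x hx => by have := W.lt_lev hx; omega, W.not_BA⟩
        inferInstance
      exact dvd_Z_of_dvd_W h7 n
    · right
      intro f hf
      rw [h2]
      refine h4.ext.pl f fun n => ?_
      rw [hf, ← Z_iso (isoPart HM t (Subset.refl _) (lowPart 14 (t : P) ∪ A t) (fun x => by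
        refine ⟨fun h => ⟨h, fun h' => mem_unnat.mp h' t h⟩, fun h => h.1⟩))]
  · have h1 : 0 < ∑ t, ρ t := Finset.sum_pos' (fun t _ => hρ0 t) ⟨t0, mem_univ _, h0⟩
    exact h1.ne'

end Pool.Agent.GaussPoset.Sg

end

/-! From `Pool.Agent.W_448cc7_h94.CsD` -/

section

/-!
Case B at window `m`: there are no (C) elements (after `FcV` of helper67).
-/

namespace Pool.Agent.GaussPoset.Cs

set_option linter.unusedSectionVars false

open Polynomial Finset

universe u

variable {P : Type u} [Fintype P] [PartialOrder P] [DecidableEq P] {r m K : ℕ}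
  {N : Tops P → Finset P} {b : Tops P → ℕ} {θ : Tops P → P → ℕ}

/-- the elements above the bottom of a quadric strip -/
lemma WG.nab_quad (W : WG r m K N b θ) {a : ℕ} {v : P} (h : QInf m a (topOf v))
    (hl : lev v = 2 * m) {l : ℕ} (hl2 : l ≤ 2 * m) : nab l v = if l = a then 2 else 1 := by
  classical
  rw [← h.cn l hl2]
  unfold nab cn
  congr 1
  ext x
  rw [mem_filter, mem_filter, mem_lv]
  refine and_congr_right fun h1 => ⟨fun h2 => ?_, fun h2 => ?_⟩
  · rw [W.natSys.cp v x h2 (W.low hl.le)]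
    exact le_topOf x
  · exact h.bot v (le_topOf v) hl x h2 (by omega)

lemma WG.num_penQ (W : WG r m K N b θ) {z x : P} (hz : z ∈ r2 (2 * m) N)
    (hl : lev z = 2 * m + 1) (hx : QdM m N θ x) (hp : Pend z x) :
    Num m N θ z 1 (m + 1) 1 2 := by
  have hm := W.two
  have hlx : lev x = 2 * m := by
    have := (W.gt.H.covBy_iff.mp hp.1).2
    omega
  have hn : ∀ u, u ≤ m → nab (m + u) z = if m + u = m then 2 else 1 := by
    intro u hu
    rw [nab_pend hp (by omega)]
    exact W.nab_quad hx.inf hlx (by omega)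
  refine Num.mk' hl (by omega) ?_ ?_ ?_ ?_
  · rw [W.h2_eq hz hl hp.1 (fun y hy => by rw [hp.2 y hy]), hx.th]
  · rw [vs_quad (a := m) le_rfl (by omega) hn, NL_one, Nat.sub_self, Nat.min_zero]
  · have h1 := hn 0 (by omega)
    have h2 := hn 1 (by omega)
    rw [if_pos (by omega)] at h1
    rw [if_neg (by omega)] at h2
    rw [Nat.add_zero] at h1
    omega
  · have h1 := hn 0 (by omega)
    rw [if_pos (by omega)] at h1
    rw [Finset.sum_range_one, h1]

lemma WG.num_penF (W : WG r m K N b θ) {z x : P} (hz : z ∈ r2 (2 * m) N)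
    (hl : lev z = 2 * m + 1) (hx : FoldM m N b θ x) (hp : Pend z x) :
    Num m N θ z (hh m) (NF m (hh m) + hh m) 1 (sgF m) := by
  have hm := W.two
  have hh2 := hh_le m
  have hn : ∀ u, u ≤ m → nab (m + u) z = nab (m + u) x := by
    intro u hu
    exact nab_pend hp (by omega)
  refine Num.mk' hl (by omega) ?_ ?_ ?_ ?_
  · rw [W.h2_eq hz hl hp.1 (fun y hy => by rw [hp.2 y hy]), hx.th, hh_eq]
  · rw [vs_congr hn, hx.vs]
  · have h1 := hn 0 (by omega)
    rw [Nat.add_zero] at h1
    have h3 := hx.nab (u := 0) (by omega)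
    rw [Nat.add_zero] at h3
    rw [h1, h3, hn (hh m) (by omega), hx.nab (by omega), nF_drop (by omega)]
  · unfold sgF
    refine Finset.sum_congr rfl fun u hu => ?_
    rw [mem_range] at hu
    rw [hn u (by omega), hx.nab (by omega)]

/-- the step: all terms of maximal drop have the same sign, so there are none -/
theorem WG.kill (W : WG r m K N b θ) {n : ℕ} (hn : n < K - 1)
    (hcost : ∀ z ∈ bdR (r2 (2 * m) N), n ≤ cst m (h2 (2 * m) N θ) z) (σ : ℤ) (hσ : σ ≠ 0) (δ : ℕ)
    (hδ : 1 ≤ δ)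
    (h1 : ∀ z ∈ bdR (r2 (2 * m) N), cst m (h2 (2 * m) N θ) z = n →
      nab m z ≤ nab (m + h2 (2 * m) N θ z) z + δ)
    (h3 : ∀ z ∈ bdR (r2 (2 * m) N), cst m (h2 (2 * m) N θ) z = n →
      nab m z = nab (m + h2 (2 * m) N θ z) z + δ → (-1 : ℤ) ^ nst m (h2 (2 * m) N θ) z = σ) :
    ∀ z ∈ bdR (r2 (2 * m) N), cst m (h2 (2 * m) N θ) z = n →
      nab m z ≠ nab (m + h2 (2 * m) N θ z) z + δ := by
  classical
  intro z0 hz0 hc0 hd0
  have F := W.farT
  have hd := F.dvd_lead hn hcost
  have hZ := dvd_Z W.gt.H.gauss m n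
  set T := (bdR (r2 (2 * m) N)).filter (fun z => cst m (h2 (2 * m) N θ) z = n) with hT
  have hb : δ ≤ (lv P m).card := by
    have h5 : nab m z0 ≤ (lv P m).card := by
      unfold nab
      exact Finset.card_filter_le _ _
    omega
  have hs := sign_sum_of_dvd T hZ hd (c0 := (lv P m).card - δ) (by omega) (by
    intro y hy
    rw [hT, mem_filter] at hy
    have h4 := h1 y hy.1 hy.2
    omega)
  set T' := T.filter (fun y => (lv P m).card - δ + nab m y =
    (lv P m).card + nab (m + h2 (2 * m) N θ y) y) with hT'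
  have hz0T : z0 ∈ T' := by
    rw [hT', mem_filter, hT, mem_filter]
    exact ⟨⟨hz0, hc0⟩, by omega⟩
  rw [Finset.sum_congr rfl (g := fun _ => σ)] at hs
  · rw [Finset.sum_const, nsmul_eq_mul] at hs
    rcases mul_eq_zero.mp hs with h4 | h4
    · have h5 : T'.card = 0 := by exact_mod_cast h4
      rw [Finset.card_eq_zero] at h5
      rw [h5] at hz0T
      exact absurd hz0T (Finset.notMem_empty _)
    · exact hσ h4
  · intro y hy
    rw [hT', mem_filter, hT, mem_filter] at hy
    exact h3 y hy.1.1 hy.1.2 (by omega)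

/-- the data of a (C) element -/
lemma WG.cel (W : WG r m K N b θ) {z F S : P} {Nc : Finset P} {co : P → ℕ × ℕ}
    (hF : InSM m N b θ F Nc co) (hcF : co F = (m, m)) (hS : S ∈ Nc) (hcS : co S = (0, 2 * m))
    (hzF : z ⋖ F) (hzS : z ⋖ S) : CEl (topOf F) Nc co m z F S where
  chart := hF.stair.chart
  strip := hF.stair.strip
  F_mem := hF.mem
  S_mem := hS
  co_F := hcF
  co_S := hcS
  zF := hzF
  zS := hzS
  only := by
    have hm := W.two
    have hne : F ≠ S := by
      rintro rfl
      rw [hcF, Prod.mk.injEq] at hcS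
      omega
    exact fun y hy => uc_pair W.gt.H hzF hzS hne hy

/-- the straight end of the stair of a fold end -/
lemma WG.cc_full (W : WG r m K N b θ) {x x' : P} {Nc : Finset P} {co : P → ℕ × ℕ}
    (hx : InSM m N b θ x Nc co)
    (hcx : co x = (m, m)) (hx' : x' ∈ Nc) (hcx' : co x' = (0, 2 * m))
    (hO : ¬ OthM m K N θ x') :
    FullM m N θ x' ∧ topOf x' = topOf x := by
  classical
  have H := W.gt.H
  have hm := W.two
  have C := hx.stair.chart
  have hlx : lev x = 2 * m := by
    rw [C.lev x hx.mem, hcx]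
    simp only
    omega
  have hlx' : lev x' = 2 * m := by
    rw [C.lev x' hx', hcx']
    simp only
    omega
  have hxN : x ∈ N (topOf x) := W.natSys.mem_iff.mpr ⟨W.low hlx.le, rfl⟩
  have htop : topOf x' = topOf x := by
    have h1 : x' ∈ N (topOf x) := by
      rw [hx.nat]
      exact mem_natS.mpr (Or.inl hx')
    exact W.natSys.topOf_eq h1
  refine ⟨?_, htop⟩
  rcases W.kind hlx' with h | h | ⟨h, -⟩ | h | h
  · exact h
  · exfalso
    have h1 := h.nab (u := 0) (by omega)
    rw [Nat.add_zero, nab_chart C hx', hcx'] at h1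
    have := card_cellsAt_shift (l := m) (p := (0, 2 * m)) (Nat.zero_le _) (by simp only; omega)
    simp only at this
    unfold nF at h1
    omega
  · exfalso
    have h1 := h.inf.unique (x := x) (x' := x') (by rw [htop]; exact le_topOf x) (le_topOf x')
      hlx hlx'
    rw [h1, hcx'] at hcx
    simp only [Prod.mk.injEq] at hcx
    omega
  · exact absurd h hO
  · exfalso
    obtain ⟨y1, y2, hne, hyy⟩ := Finset.card_eq_two.mp h.1
    have e1 : x' ⋖ y1 := Win.mem_uc.mp (by rw [hyy]; simp)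
    have e2 : x' ⋖ y2 := Win.mem_uc.mp (by rw [hyy]; simp)
    have hy1 := C.up x' hx' y1 e1.le
    have hy2 := C.up x' hx' y2 e2.le
    have f1 := (chart_cov C H hx' hy1).mp e1
    have f2 := (chart_cov C H hx' hy2).mp e2
    rw [hcx'] at f1 f2
    unfold Prd at f1 f2
    simp only at f1 f2
    exact hne (C.inj y1 hy1 y2 hy2 (Prod.ext (by omega) (by omega)))

/-- the order of the component of a (C) element -/
lemma WG.b_cel (W : WG r m K N b θ) {z F S : P} {Nc : Finset P} {co : P → ℕ × ℕ}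
    {t : Tops P} (hzU : z ∈ unnat N) (C : CEl t Nc co m z F S)
    (hO : ∀ y, z ⋖ y → ¬ OthM m K N θ y) : b t = m / 2 + 1 := by
  have hm := W.two
  have H := W.gt.H
  have hl := C.lev_z H.gradedBelow
  have hFt : F ≤ (t : P) := C.chart.le_t F C.F_mem
  have htF : topOf z = t := by
    by_contra hne
    refine W.nj z hl ⟨topOf z, t, (topOf z).2, t.2, fun h => hne (Subtype.ext h), le_topOf z,
      C.zF.le.trans hFt⟩
  have hFF : topOf F = t := (W.top_cov hl C.zF).trans htF
  have hlF : lev F = 2 * m := by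
    have := (H.covBy_iff.mp C.zF).2
    omega
  have hlS : lev S = 2 * m := by
    have := (H.covBy_iff.mp C.zS).2
    omega
  rcases W.typ t with ⟨g1, -, -, -⟩ | ⟨Nc', co', h0, -, -, -⟩ |
    ⟨Nc', co', h0, -, -, hb, -⟩ | ⟨-, -, -, g4, -⟩ | ⟨-, h2, h3, h4, h5⟩
  · exfalso
    refine mem_unnat.mp hzU t ?_
    rw [g1, ← htF]
    exact W.lowOnly (le_topOf z) (by omega)
  · exfalso
    obtain ⟨y, hy, hcy⟩ := h0.cell
    have hb2 := h0.b_two
    obtain ⟨y1, hy1, hc1⟩ := h0.chart.low y hy (1, 0) (by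
      rw [hcy]
      exact ⟨by simp only; omega, Nat.zero_le _⟩) trivial
    obtain ⟨y2, hy2, hc2⟩ := h0.chart.low y hy (0, 1) (by
      rw [hcy]
      exact ⟨Nat.zero_le _, by simp only; omega⟩) trivial
    have l1 := h0.chart.lev y1 hy1
    have l2 := h0.chart.lev y2 hy2
    rw [hc1] at l1
    rw [hc2] at l2
    simp only at l1 l2
    have g1 := C.strip (mem_lowPart.mpr ⟨h0.chart.le_t y1 hy1, by omega⟩)
    have g2 := C.strip (mem_lowPart.mpr ⟨h0.chart.le_t y2 hy2, by omega⟩)
    have k1 : (co y1).1 ≤ (co y1).2 := C.chart.mem y1 g1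
    have k2 : (co y2).1 ≤ (co y2).2 := C.chart.mem y2 g2
    have q1 := C.chart.lev y1 g1
    have q2 := C.chart.lev y2 g2
    have he := C.chart.inj y1 g1 y2 g2 (Prod.ext (by omega) (by omega))
    rw [he, hc2, Prod.mk.injEq] at hc1
    omega
  · exact hb
  · exfalso
    have h1 := g4.unique hFt (C.chart.le_t S C.S_mem) hlF hlS
    have h2 := C.co_F
    rw [h1, C.co_S, Prod.mk.injEq] at h2
    omega
  · exfalso
    refine hO F C.zF ⟨W.natSys.mem_iff.mpr ⟨W.low hlF.le, rfl⟩, ?_, ?_, ?_⟩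
    · rw [hFF]; exact h3
    · rw [hFF]; exact h4
    · rw [hFF]; exact h5

/-- **Case B.**  No element of level `2 m + 1` covers the fold end and the straight end. -/
theorem WG.no_cc (W : WG r m K N b θ) (h3m : m ≠ 3) (hK : E0 m + hh m ^ 2 + 2 ≤ K) {z : P}
    (hz : z ∈ r2 (2 * m) N) : E0 m < cst m (h2 (2 * m) N θ) z ∨ lev z ≠ 2 * m + 1 := by
  classical
  have H := W.gt.H
  have hm := W.two
  have hh2 := hh_le m
  have hh1 := hh_pos m
  have hNL := NL_ge (m := m) hh1
  have hE0 : E0 m = NF m (hh m) + NL m (hh m) + hh m := rfl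
  obtain ⟨g, u, hu, hmu, hg⟩ : ∃ g u, u ≤ 1 ∧ m = 2 * g + u ∧ 1 ≤ g :=
    ⟨m / 2, m % 2, by omega, by omega, by omega⟩
  -- the table
  have hrow : ∀ z ∈ bdR (r2 (2 * m) N), K ≤ cst m (h2 (2 * m) N θ) z ∨
      ((∃ x, QdM m N θ x ∧ 4 ≤ m ∧ Pend z x) ∧ Num m N θ z 1 (m + 1) 1 2) ∨
      (Num m N θ z (hh m) (NF m (hh m) + hh m) 1 (sgF m)) ∨
      (h2 (2 * m) N θ z = hh m ∧ IsC b m z ∧ cst m (h2 (2 * m) N θ) z = E0 m) := by
    intro z hz
    have hzR := bd_mem hz
    rcases W.bd hz with hl | h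
    · rcases W.class hzR hl with h | ⟨x, hx, h4, hp⟩ | ⟨x, hx, hp⟩ |
        ⟨⟨-, F, S, Nc, co, hF, hcF, hS, hcS, hzF, hzS⟩, hO⟩
      · exact Or.inl h
      · exact Or.inr (Or.inl ⟨⟨x, hx, h4, hp⟩, W.num_penQ hzR hl hx hp⟩)
      · exact Or.inr (Or.inr (Or.inl (W.num_penF hzR hl hx hp)))
      · refine Or.inr (Or.inr (Or.inr ?_))
        have C := W.cel hF hcF hS hcS hzF hzS
        have hfold : FoldM m N b θ F := ⟨Nc, co, hF, hcF⟩
        obtain ⟨hfull, htop⟩ := W.cc_full hF hcF hS hcS (hO S hzS)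
        have hlS : lev S = 2 * m := by
          have := (H.covBy_iff.mp hzS).2
          omega
        have hlab : h2 (2 * m) N θ z = hh m := by
          rw [W.h2_eq hzR hl hzF (fun y hy => ?_), hfold.th, hh_eq]
          rcases C.only y hy with h | h
          · rw [h]
          · rw [h, hfold.th, hfull.th, hlS]
            omega
        refine ⟨hlab, ⟨topOf F, Nc, co, F, S, C, W.b_cel (mem_sdiff.mp hzR).1 C hO⟩, ?_⟩
        rw [cst_ct hlab]
        exact C.cst_eq H.gradedBelow (by omega)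
    · exact Or.inl h
  -- no pendants below quadrics
  have hNF : 4 ≤ m → m + 1 < NF m (hh m) + hh m := by
    intro h4
    rcases Nat.le_one_iff_eq_zero_or_eq_one.mp hu with h | h
    · obtain rfl : m = 2 * g := by omega
      have hg2 : 2 ≤ g := by omega
      rw [hh_even, NF_even]
      nlinarith
    · obtain rfl : m = 2 * g + 1 := by omega
      rw [hh_odd, NF_odd]
      nlinarith
  have hnoQ : ∀ z ∈ bdR (r2 (2 * m) N), ¬ ((∃ x, QdM m N θ x ∧ 4 ≤ m ∧ Pend z x) ∧
      Num m N θ z 1 (m + 1) 1 2) := by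
    rintro z0 hz0 ⟨⟨x0, hx0, h4, hp0⟩, hn0⟩
    have h5 := hNF h4
    refine W.kill (n := m + 1) (by omega) ?_ 1 one_ne_zero 1 le_rfl ?_ ?_ z0 hz0 hn0.cst (by
      rw [hn0.lab]; exact hn0.drop)
    · intro z hz
      rcases hrow z hz with h | ⟨-, h⟩ | h | ⟨-, -, h⟩
      · omega
      · rw [h.cst]
      · rw [h.cst]; omega
      · rw [h]; omega
    · intro z hz hc
      rcases hrow z hz with h | ⟨-, h⟩ | h | ⟨-, -, h⟩
      · omega
      · rw [h.lab]; exact h.drop.le
      · rw [h.cst] at hc; omega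
      · rw [h] at hc; omega
    · intro z hz hc _
      rcases hrow z hz with h | ⟨-, h⟩ | h | ⟨-, -, h⟩
      · omega
      · rw [h.nst]; norm_num
      · rw [h.cst] at hc; omega
      · rw [h] at hc; omega
  -- no pendants below fold ends
  have hnoF : ∀ z ∈ bdR (r2 (2 * m) N), ¬ Num m N θ z (hh m) (NF m (hh m) + hh m) 1 (sgF m) := by
    intro z0 hz0 hn0
    refine W.kill (n := NF m (hh m) + hh m) (by omega) ?_ ((-1) ^ sgF m)
      (pow_ne_zero _ (by norm_num)) 1 le_rfl ?_ ?_ z0 hz0 hn0.cst (by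
      rw [hn0.lab]; exact hn0.drop)
    · intro z hz
      rcases hrow z hz with h | h | h | ⟨-, -, h⟩
      · omega
      · exact absurd h (hnoQ z hz)
      · rw [h.cst]
      · rw [h]; omega
    · intro z hz hc
      rcases hrow z hz with h | h | h | ⟨-, -, h⟩
      · omega
      · exact absurd h (hnoQ z hz)
      · rw [h.lab]; exact h.drop.le
      · rw [h] at hc; omega
    · intro z hz hc _
      rcases hrow z hz with h | h | h | ⟨-, -, h⟩
      · omega
      · exact absurd h (hnoQ z hz)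
      · rw [h.nst]
      · rw [h] at hc; omega
  choose B hB using W.natTop
  by_cases hl : lev z = 2 * m + 1
  · left
    refine (Nat.le_add_right _ _).trans_lt (cc_dead H hB (fun x hx => W.lt_lev hx) hmu hu hg
      (fun h => ?_) W.sum_b W.farT (by omega) (fun z hz => ?_) z (W.mem_bd hz hl))
    · omega
    · rcases hrow z hz with h | h | h | ⟨h1, h2, -⟩
      · left; omega
      · exact absurd h (hnoQ z hz)
      · exact absurd h (hnoF z hz)
      · exact Or.inr ⟨h1, h2⟩
  · exact Or.inr hl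

end Pool.Agent.GaussPoset.Cs

end

/-! From `Pool.Agent.W_448cc7_h94.CsE` -/

section

/-!
Case B: from the strips to the context; there are no (C) elements (after `FcW` of helper67).
-/

namespace Pool.Agent.GaussPoset.Cs

set_option linter.unusedSectionVars false

open Polynomial Finset

universe u

variable {P : Type u} [Fintype P] [PartialOrder P] [DecidableEq P] {r m K : ℕ}

open Cp

/-- the types of one component -/
inductive TyL (m K : ℕ) (t : Tops P) (b : ℕ) (N : Finset P) (θ : P → ℕ) : Prop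
  | light (h1 : N = onlyB t) (h2 : θ = fun x => lev x - m) (h3 : b = 1)
      (h6 : ∃ x ≤ (t : P), lev x = m)
  | rect (Nc : Finset P) (co : P → ℕ × ℕ) (h0 : RectNat (2 * m) m t b Nc co)
      (h1 : N = natR Nc co) (h2 : θ = thR m b Nc co) (h3 : NopT m t)
  | stair (Nc : Finset P) (co : P → ℕ × ℕ) (h0 : StairNat (2 * m) m t Nc co)
      (h1 : N = natS Nc co) (h2 : θ = thS m Nc co) (h3 : b = m / 2 + 1) (h4 : NopT m t)
  | quad (h1 : N = lowPart (2 * m) (t : P)) (h2 : θ = fun _ => 0) (h3 : b = 2)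
      (h4 : QInf m m t) (h5 : 4 ≤ m)
  | oth (h1 : ∃ B, NatTop m t b N θ B) (h2 : lowPart (2 * m) (t : P) ⊆ N)
      (h3 : ∀ z, lev z = 2 * m + 1 → z ∉ N → ∀ x ∈ N, z ⋖ x →
        K ≤ ct m (θ x + 1) z ∨ ∃ y ∈ N, ∀ w, y < w ↔ z < w)
      (h4 : ∀ x ∈ N, 2 * m + 1 ≤ lev x → K ≤ ct m (θ x + 1) x + (θ x + 1))
      (h5 : ∀ x ∈ N, lev x = 2 * m + 1 → 1 ≤ θ x ∧ θ x ≤ m)

lemma TyL.tyG {N : Tops P → Finset P} {t : Tops P} {b : ℕ} {θ : P → ℕ}
    (h : TyL m K t b (N t) θ) : TyG m K N t b θ := by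
  rcases h with ⟨h1, h2, h3, h6⟩ | ⟨Nc, co, h0, h1, h2, h3⟩ | ⟨Nc, co, h0, h1, h2, h3, h4⟩ |
    ⟨h1, h2, h3, h4, h5⟩ | ⟨h1, h2, h3, h4, h5⟩
  · exact TyG.light h1 h2 h3 h6
  · exact TyG.rect Nc co h0 h1 h2 h3
  · exact TyG.stair Nc co h0 h1 h2 h3 h4
  · exact TyG.quad h1 h2 h3 h4 h5
  · refine TyG.oth h1 h2 (fun z hz x hx hl hzx => ?_) h4 h5
    have hz' := mem_sdiff.mp hz
    rcases h3 z hl (mem_unnat.mp hz'.1 t) x hx hzx with h | ⟨y, hy, h⟩
    · exact h
    · exact absurd (mem_twY.mpr ⟨hz'.1, hl, y, fun h' => mem_unnat.mp h' t hy, h⟩) hz'.2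

section One

variable {t : Tops P} {lo hi : ℕ → ℕ} {e : ℕ → ℕ → P}

/-- the type of a strip -/
theorem tyL_shape (h : Win.GoodTo P r (2 * m)) (hm : 2 ≤ m) (hm3 : m ≠ 3)
    (C : Comp (2 * m) (t : P) lo hi e) (hS : Wd.Shape (2 * m) lo hi)
    (hO : ¬ StairShape (2 * m) lo hi → ∀ a, a ≤ m → Wd.LateD (2 * m) a lo hi →
      Wd.word lo hi a (2 * m - a) ∈ Wd.lateW a → ∃ N θ, TyL m K t (hi m - lo m + 1) N θ) :
    ∃ N θ, TyL m K t (hi m - lo m + 1) N θ ∧
      (StairShape (2 * m) lo hi → StairInfo m t lo hi e N θ) := by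
  have H := h.H
  have hg := h.good
  by_cases S : StairShape (2 * m) lo hi
  · obtain ⟨Nc, co, h1, h1'⟩ := exists_stair C H hg H.gradedBelow S (i := m) le_rfl
    have hnop : NopT m t := by
      intro x z hxt hxl hx2 hzx honly
      obtain ⟨j, hj⟩ : ∃ j, 2 * m = j + 1 := ⟨2 * m - 1, by omega⟩
      have h2 := stairShape_pendant (i := j) (hj ▸ h) (by omega) t.2 (hj ▸ C) (hj ▸ S)
        (hxl.trans hj) hxt hx2 hzx honly
      have h3 := cell_lev C (x := x) hxt (by omega)
      omega
    refine ⟨_, _, TyL.stair Nc co h1 rfl rfl ?_ hnop, fun _ => ⟨Nc, co, h1, rfl, rfl, hnop, h1'⟩⟩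
    have e1 := S.hi m (by omega)
    have e2 := stair_lo C S
    omega
  · suffices hs : ∃ N θ, TyL m K t (hi m - lo m + 1) N θ by
      obtain ⟨N, θ, h1⟩ := hs
      exact ⟨N, θ, h1, fun h2 => absurd h2 S⟩
    rcases hS with h1 | ⟨h1, S'⟩ | ⟨h1, h2⟩ | ⟨h1, h2, h3⟩ | ⟨h1, h2⟩ | ⟨a, h0, h1, h2, h3, hN, h4⟩
    · have e1 := h1 m (by omega)
      exact ⟨_, _, TyL.light rfl rfl (by omega)
        ⟨e m (lo m), C.le_t m (lo m) (by omega) le_rfl (C.lo_le m (by omega)),
          C.lev_e m (lo m) (by omega) le_rfl (C.lo_le m (by omega))⟩⟩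
    · have hlt : lo m < hi m := by
        have g1 := C.lo_mono (l := 1) (d := m - 1) (by omega)
        have g2 := C.hi_mono (l := 1) (d := m - 1) (by omega)
        rw [show 1 + (m - 1) = m by omega] at g1 g2
        by_contra hcon
        have g3 := C.lo_le m (by omega)
        have g4 := shape_lo C S'.lo (l := m) (by omega) m (by omega)
        have g5 := shape_hi C S'.hi (l := m) (by omega) m (by omega)
        have g6 := C.lo_le (m + m) (by omega)
        omega
      obtain ⟨Nc, co, h2, -⟩ := exists_rect C H hg H.gradedBelow S' (i := m) le_rfl hlt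
      refine ⟨_, _, TyL.rect Nc co h2 rfl rfl ?_⟩
      intro x z hxt hxl hx2 hzx honly
      obtain ⟨j, hj⟩ : ∃ j, 2 * m = j + 1 := ⟨2 * m - 1, by omega⟩
      exact rectShape_no_pendant (i := j) (hj ▸ h) (by omega) t.2 (hj ▸ C) (hj ▸ S')
        (hxl.trans hj) hxt hx2 hzx honly
    · exact absurd h2 S
    · omega
    · omega
    · have D : Wd.LateD (2 * m) a lo hi := ⟨h0, h1, h2, h3, h4⟩
      rcases Nat.lt_or_ge m a with hma | hma
      · have e1 := D.h2 m hma
        exact ⟨_, _, TyL.light rfl rfl (by omega)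
          ⟨e m (lo m), C.le_t m (lo m) (by omega) le_rfl (C.lo_le m (by omega)),
            C.lev_e m (lo m) (by omega) le_rfl (C.lo_le m (by omega))⟩⟩
      · rcases h4 with ⟨⟨g1, g2⟩, g3⟩ | g3
        · have hq := D.quad C g3
          obtain rfl : a = m := by omega
          have Q : QRows (2 * a) a lo hi := ⟨D.h2, D.h3, by
            intro k hk hk2
            have := hq (k - a) (by omega) (by omega)
            rwa [show a + (k - a) = k by omega] at this⟩
          have e1 := D.h3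
          exact ⟨_, _, TyL.quad rfl rfl (by omega) (Q.inf C (by omega)) (by omega)⟩
        · exact hO S a hma D g3

end One

section All

variable {lo hi : Tops P → ℕ → ℕ} {e : Tops P → ℕ → ℕ → P}

/-- case B: the context -/
theorem exists_WG (hm : 2 ≤ m) (h : Win.GoodTo P r (2 * m)) (hK : KapS m K)
    (hK2 : K ≤ (m + 1) ^ 2)
    (C : ∀ t : Tops P, Comp (2 * m) (t : P) (lo t) (hi t) (e t))
    (hT : ∀ t, ∃ N θ, TyL m K t (hi t m - lo t m + 1) N θ ∧
      (StairShape (2 * m) (lo t) (hi t) → StairInfo m t (lo t) (hi t) (e t) N θ))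
    (hnj : ∀ z : P, lev z = 2 * m + 1 → ¬ Hul.Jn z) :
    ∃ N θ, WG r m K N (fun t => hi t m - lo t m + 1) θ ∧
      ∀ t, StairShape (2 * m) (lo t) (hi t) → StairInfo m t (lo t) (hi t) (e t) (N t) (θ t) := by
  classical
  choose N θ hT hI using hT
  refine ⟨N, θ, ⟨h, hm, fun t => (hT t).tyG, ?_, hnj, hK, hK2⟩, hI⟩
  rw [card_level h.H h.good C (i := m) (by omega)]

/-- **Case B.**  If no element of level `2 m + 1` is below two tops then no element of level
`2 m + 1` covers the fold end and the straight end of a stair.  `hO`: the late components with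
`a ≤ m` which are no quadrics (`m = 4, .., 8` only). -/
theorem caseB_no_cc (hm : 2 ≤ m) (hm3 : m ≠ 3) (h : Win.GoodTo P r (2 * m))
    (C : ∀ t : Tops P, Comp (2 * m) (t : P) (lo t) (hi t) (e t))
    (hS : ∀ t, Wd.Shape (2 * m) (lo t) (hi t))
    (hO : ∀ t, ¬ StairShape (2 * m) (lo t) (hi t) → ∀ a, a ≤ m →
      Wd.LateD (2 * m) a (lo t) (hi t) → Wd.word (lo t) (hi t) a (2 * m - a) ∈ Wd.lateW a →
      ∃ N θ, TyL m (Ke m) t (hi t m - lo t m + 1) N θ)
    (hnj : ∀ z : P, lev z = 2 * m + 1 → ¬ Hul.Jn z) {t : Tops P} {z : P}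
    (S : StairShape (2 * m) (lo t) (hi t)) (h0 : lo t (2 * m) = 0)
    (hz1 : z ⋖ e t (2 * m) m) (hz2 : z ⋖ e t (2 * m) 0) : False := by
  classical
  have H := h.H
  obtain ⟨N, θ, W, hI⟩ := exists_WG hm h (kapS_Ke hm hm3) (Ke_le hm hm3) C
    (fun t => tyL_shape h hm hm3 (C t) (hS t) (hO t)) hnj
  obtain ⟨Nc, co, R, h1, h2, h3, h4⟩ := hI t S
  have e1 := S.hi (2 * m) le_rfl
  have e2 := (C t).lev_e (2 * m) m le_rfl (by omega) (by omega)
  have e3 := (C t).lev_e (2 * m) 0 le_rfl (by omega) (by omega)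
  have t2 := (C t).le_t (2 * m) m le_rfl (by omega) (by omega)
  have t3 := (C t).le_t (2 * m) 0 le_rfl (by omega) (by omega)
  have hF : e t (2 * m) m ∈ lowPart (2 * m) (t : P) := mem_lowPart.mpr ⟨t2, e2.le⟩
  have hS' : e t (2 * m) 0 ∈ lowPart (2 * m) (t : P) := mem_lowPart.mpr ⟨t3, e3.le⟩
  have c2 : co (e t (2 * m) m) = (m, m) := by
    rw [h4 _ hF]
    unfold ccoord
    rw [scoord_e (C t) (k := 2 * m) (s := m) le_rfl (by omega) (by omega), e2]
    exact Prod.ext rfl (by simp only; omega)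
  have c3 : co (e t (2 * m) 0) = (0, 2 * m) := by
    rw [h4 _ hS']
    unfold ccoord
    rw [scoord_e (C t) (k := 2 * m) (s := 0) le_rfl (by omega) (by omega), e3]
    exact Prod.ext rfl (by simp only; omega)
  have hFN := R.strip hF
  have hSN := R.strip hS'
  have hne : e t (2 * m) m ≠ e t (2 * m) 0 := by
    intro h
    rw [h, c3, Prod.mk.injEq] at c2
    omega
  have D : CEl t Nc co m z (e t (2 * m) m) (e t (2 * m) 0) :=
    ⟨R.chart, R.strip, hFN, hSN, c2, c3, hz1, hz2, fun y hy => uc_pair H hz1 hz2 hne hy⟩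
  have hlz := D.lev_z H.gradedBelow
  have hzR : z ∈ r2 (2 * m) N := by
    refine mem_sdiff.mpr ⟨D.not_nat W.natSys h1 (by omega) hz1.1 hz2.1 hlz, ?_⟩
    intro hY
    obtain ⟨-, -, y, hy, hyz⟩ := mem_twY.mp hY
    refine hy (D.not_nat W.natSys h1 (by omega) ((hyz _).mpr hz1.1) ((hyz _).mpr hz2.1) ?_)
    rw [lev_eq_of_up hyz]
    exact hlz
  have htF : topOf (e t (2 * m) m) = t := W.natSys.topOf_eq (by
    rw [h1]; exact mem_natS.mpr (Or.inl hFN))
  have htS : topOf (e t (2 * m) 0) = t := W.natSys.topOf_eq (by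
    rw [h1]; exact mem_natS.mpr (Or.inl hSN))
  have hthF : θ t (e t (2 * m) m) = m % 2 := by
    rw [h2]
    unfold thS
    rw [if_neg (fold_not_junk R.chart hFN (by rw [c2]; show 1 ≤ m; omega)), c2]
    simp only
    omega
  have hthS : m % 2 ≤ θ t (e t (2 * m) 0) := by
    rw [h2]
    unfold thS
    split_ifs
    · rw [e3]; omega
    · rw [c3]; simp only; omega
  have hlab : GaussPoset.h2 (2 * m) N θ z = hh m := by
    rw [W.h2_eq hzR hlz hz1 (fun y hy => ?_), htF, hthF, hh_eq]
    rcases D.only y hy with h | h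
    · rw [h]
    · rw [h, htF, htS, hthF]
      exact hthS
  rcases W.no_cc hm3 (by unfold Ke; omega) hzR with h5 | h5
  · rw [cst_ct hlab] at h5
    have h6 := D.cst_eq H.gradedBelow (by omega)
    have h7 : cst m (fun _ => hh m) z = ct m (hh m) z := rfl
    omega
  · exact h5 hlz

end All

end Pool.Agent.GaussPoset.Cs

end

/-! From `Pool.Agent.W_448cc7_h94.CsF` -/

section

/-!
Level 14, window 7: the component `E7` with a natural element of level 15; a natural component is
not `La7`.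
-/

namespace Pool.Agent.GaussPoset.Cs

set_option linter.unusedSectionVars false

open Polynomial Finset Cl Wd Cp

universe u

variable {P : Type u} [Fintype P] [PartialOrder P] [DecidableEq P] {r : ℕ}
variable {t : Tops P} {lo hi : ℕ → ℕ} {e : ℕ → ℕ → P}

/-- the up-sets of the cells of `E7` -/
def E7um : List ℕ := [1, 3, 7, 15, 31, 47, 95, 191, 511, 703, 2047, 2751, 6143, 12287, 19135, 49151,
  94207, 180223, 393215, 704511, 1572863, 4194303, 5767167, 16777215, 33554431, 67108863, 134217727]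

/-- the cell with the number `a` -/
def c7 (e : ℕ → ℕ → P) (a : ℕ) : P := e (E7lv.getD a 0) (E7sl.getD a 0)

lemma E7_cod14 (D : WordD 14 4 w7 lo hi) (C : Comp 14 (t : P) lo hi e) (H : Gr P r)
    (hg : ∀ l, l < 14 → Win.Good P l) :
    Cod 25 (fun a => E7cv.getD a 0) (fun a => E7lv.getD a 0) (c7 e) := by
  obtain ⟨h1, h2⟩ := D.rows C
  exact E7_strip.cod C H hg t.2 (by norm_num) h1 h2

/-- one more cell -/
def c7y (e : ℕ → ℕ → P) (y : P) (a : ℕ) : P := if a < 25 then c7 e a else y

lemma E7_cod15 (D : WordD 14 4 w7 lo hi) (C : Comp 14 (t : P) lo hi e) (H : Gr P r)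
    (hg : ∀ l, l < 14 → Win.Good P l) {y : P} (hl : lev y = 15)
    (hy : ∀ w, y ⋖ w ↔ w = c7 e 24) :
    Cod 26 (fun a => E7cv.getD a 0) (fun a => E7lv.getD a 0) (c7y e y) := by
  have C25 := E7_cod14 D C H hg
  refine Sg.cod_append (n := 25) (K := 1) (cx := fun _ => 16777216) (lx := fun _ => 15)
    (z := fun _ => y) C25 (by decide +kernel) (by decide +kernel) (fun a _ => rfl)
    (fun a _ => rfl) (by decide +kernel) (by decide +kernel) (by intro a ha b hb _; omega) ?_ ?_
    (fun _ _ => hl)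
  · intro a ha b _ h
    have h1 := C25.lev a ha
    have h2 : ∀ a < 25, E7lv.getD a 0 ≤ 14 := by decide +kernel
    have h3 := h2 a ha
    rw [h, hl] at h1
    omega
  · intro k _ w
    rw [hy w]
    constructor
    · intro h
      exact ⟨24, by norm_num, by decide +kernel, h.symm⟩
    · rintro ⟨b, hb, hbit, rfl⟩
      have h : ∀ b < 25, (16777216 : ℕ).testBit b = true → b = 24 := by decide +kernel
      rw [h b hb hbit]

/-- order two of the strip with one more cell -/
lemma E7_clean15 (D : WordD 14 4 w7 lo hi) (C : Comp 14 (t : P) lo hi e) (H : Gr P r)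
    (hg : ∀ l, l < 14 → Win.Good P l) {y : P} (hl : lev y = 15)
    (hy : ∀ w, y ⋖ w ↔ w = c7 e 24) :
    CleanAt 7 2 (lowPart 14 (t : P) ∪ {y}) (e 11 4) := by
  obtain ⟨h1, h2⟩ := D.rows C
  intro U hUN hup hlow hbase
  have hC := E7_cod15 D C H hg hl hy
  obtain ⟨h3, h4⟩ := E7_strip.base_mem C H hg t.2 (j := 14) (by norm_num) h1 h2 (i := 7)
    E7_b7 (by show (11 : ℕ) ≤ 14; omega) hup
    (fun x hx hx' => hlow x (mem_union_left _ hx) hx') hbase
  refine hC.clean_of E7_us (by norm_num) E7_win7 ?_ hup (by norm_num) ?_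
  · intro x hx
    rcases mem_union.mp (hUN hx) with h | h
    · obtain ⟨a, ha, hxa⟩ := E7_strip.surj' C (by norm_num) h1 h2 h
      have ha25 : a < 25 := ha
      exact ⟨a, by omega, by unfold c7y; rw [if_pos ha25]; exact hxa⟩
    · refine ⟨25, by norm_num, ?_⟩
      unfold c7y
      rw [if_neg (by norm_num)]
      exact (mem_singleton.mp h).symm
  · intro a ha hbit
    have h5 : ∀ a < 26, (1572863 : ℕ).testBit a = true → a < 25 := by decide +kernel
    have h6 := h5 a ha hbit
    unfold c7y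
    rw [if_pos h6]
    exact h4 a h6 hbit

/-- the only element of level 14 -/
lemma E7_one (D : WordD 14 4 w7 lo hi) (C : Comp 14 (t : P) lo hi e) {x : P} (hx : x ≤ (t : P))
    (hl : lev x = 14) : x = c7 e 24 := by
  obtain ⟨h1, h2⟩ := D.rows C
  obtain ⟨s, s1, s2, hs⟩ := C.surj x hx (by omega)
  rw [hl] at s1 s2 hs
  have l1 := h1 14 le_rfl
  have l2 := h2 14 le_rfl
  have l3 : losW 4 w7 14 = 5 ∧ hisW 4 w7 14 = 5 := by decide +kernel
  rw [← hs, show s = 5 by omega]
  rfl

/-- the cost below the cell of level 15 -/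
lemma E7_cost (D : WordD 14 4 w7 lo hi) (C : Comp 14 (t : P) lo hi e) (H : Gr P r)
    (hg : ∀ l, l < 14 → Win.Good P l) {y : P} (hl : lev y = 15)
    (hy : ∀ w, y ⋖ w ↔ w = c7 e 24) : ct 7 5 y = 46 := by
  have hC := E7_cod14 D C H hg
  have h1 := Sg.cod_ct (um := fun a => E7um.getD a 0) hC (by decide +kernel) (by decide +kernel)
    (z := y) (m := 16777216) (fun w => by
      rw [hy w]
      constructor
      · intro h
        exact ⟨24, by norm_num, by decide +kernel, h.symm⟩
      · rintro ⟨b, hb, hbit, rfl⟩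
        have h : ∀ b < 25, (16777216 : ℕ).testBit b = true → b = 24 := by decide +kernel
        rw [h b hb hbit]) 7 5
  rw [h1, hl]
  decide +kernel

/-- **the type of `E7`** -/
theorem tyL_E7 (h : Win.GoodTo P r 14) (C : Comp 14 (t : P) lo hi e)
    (D : WordD 14 4 w7 lo hi) (hno : ∀ z : P, lev z = 15 → ¬ Hul.Jn z) :
    ∃ N θ, TyL 7 49 t (hi 7 - lo 7 + 1) N θ := by
  classical
  have H := h.H
  obtain ⟨h1, h2⟩ := D.rows C
  have hb : hi 7 - lo 7 + 1 = 2 := by
    rw [h1 7 (by omega), h2 7 (by omega)]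
    decide +kernel
  rw [hb]
  have hr := row7 7 (by omega) (by omega)
  rw [← h1 (7 + 4) (by omega), ← h2 (7 + 4) (by omega)] at hr
  have hl11 : lev (e 11 4) = 11 := C.lev_e 11 4 (by norm_num) hr.1 hr.2
  have hle11 : e 11 4 ≤ (t : P) := C.le_t 11 4 (by norm_num) hr.1 hr.2
  have l14 : lev (c7 e 24) = 14 := (E7_cod14 D C H h.good).lev 24 (by norm_num)
  -- the covers of an element of level 15
  have hcov : ∀ z : P, lev z = 15 → z ≤ (t : P) → ∀ w, z ⋖ w ↔ w = c7 e 24 := by
    intro z hz hzt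
    have key : ∀ w, z ⋖ w → w = c7 e 24 := by
      intro w hw
      refine E7_one D C ?_ ?_
      · have h3 : (topOf w : P) = (t : P) := by
          by_contra hne
          exact hno z hz ⟨topOf w, t, (topOf w).2, t.2, hne, hw.le.trans (le_topOf w), hzt⟩
        rw [← h3]
        exact le_topOf w
      · have := (H.covBy_iff.mp hw).2
        omega
    intro w
    refine ⟨key w, ?_⟩
    rintro rfl
    obtain ⟨v, hv, -⟩ := Hul.exists_cov (lt_of_le_of_ne hzt (by
      intro h
      have := t.2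
      rw [← h] at this
      omega))
    rwa [← key v hv]
  by_cases hex : ∃ y : P, lev y = 15 ∧ y ≤ (t : P)
  · obtain ⟨y, hly, hyt⟩ := hex
    have hy := hcov y hly hyt
    have hclean := E7_clean15 D C H h.good hly hy
    have h0 : e 11 4 ∈ lowPart 14 (t : P) ∪ {y} :=
      mem_union_left _ (mem_lowPart.mpr ⟨hle11, by omega⟩)
    have hloc := hclean.loc_lev H.gradedBelow h0 (by omega)
    have hN : NatTop 7 t 2 (lowPart 14 (t : P) ∪ {y}) (fun x => lev x - lev (e 11 4))
        (fun x => x = e 11 4) := by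
      refine hloc.natTop ?_ ?_ ?_
      · intro x hx w hxw
        rcases mem_union.mp hx with hx | hx
        · rw [mem_lowPart] at hx
          refine mem_union_left _ (mem_lowPart.mpr ⟨Cp.up_le H h.good t.2 hx.1 hx.2 hxw, ?_⟩)
          rcases eq_or_lt_of_le hxw with h3 | h3
          · rw [← h3]; exact hx.2
          · have := lev_strictAnti h3; omega
        · rw [mem_singleton] at hx
          subst hx
          rcases eq_or_lt_of_le hxw with h3 | h3
          · rw [← h3]
            exact mem_union_right _ (mem_singleton_self _)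
          · obtain ⟨v, hv, hvw⟩ := Hul.exists_cov h3
            rw [hy v] at hv
            subst hv
            have h4 : c7 e 24 ≤ (t : P) := by
              have := (hy (c7 e 24)).mpr rfl
              have h5 : (topOf (c7 e 24) : P) = (t : P) := by
                by_contra hne
                exact hno x hly ⟨topOf (c7 e 24), t, (topOf (c7 e 24)).2, t.2, hne,
                  this.le.trans (le_topOf _), hyt⟩
              rw [← h5]
              exact le_topOf _
            refine mem_union_left _ (mem_lowPart.mpr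
              ⟨Cp.up_le H h.good t.2 h4 (by omega) hvw, ?_⟩)
            rcases eq_or_lt_of_le hvw with h5 | h5
            · rw [← h5]; omega
            · have := lev_strictAnti h5; omega
      · intro x hx
        rcases mem_union.mp hx with hx | hx
        · exact (mem_lowPart.mp hx).1
        · rw [mem_singleton] at hx
          rw [hx]
          exact hyt
      · intro x hx hxi
        exact mem_union_left _ (mem_lowPart.mpr ⟨hx, by omega⟩)
    refine ⟨_, _, TyL.oth ⟨_, hN⟩ subset_union_left ?_ ?_ ?_⟩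
    · intro z hz hzN x hx hzx
      right
      have hxl := (H.covBy_iff.mp hzx).2
      refine ⟨y, mem_union_right _ (mem_singleton_self _), ?_⟩
      have hxt : x ≤ (t : P) := by
        rcases mem_union.mp hx with hx | hx
        · exact (mem_lowPart.mp hx).1
        · rw [mem_singleton] at hx
          rw [hx]
          exact hyt
      have hz' := hcov z hz (hzx.le.trans hxt)
      intro w
      constructor
      · intro hyw
        obtain ⟨v, hv, hvw⟩ := Hul.exists_cov hyw
        rw [hy v] at hv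
        exact ((hz' v).mpr hv).lt.trans_le hvw
      · intro hzw
        obtain ⟨v, hv, hvw⟩ := Hul.exists_cov hzw
        rw [hz' v] at hv
        exact ((hy v).mpr hv).lt.trans_le hvw
    · intro x hx hxl
      have hxy : x = y := by
        rcases mem_union.mp hx with hx | hx
        · have := (mem_lowPart.mp hx).2
          omega
        · exact mem_singleton.mp hx
      rw [hxy]
      show 49 ≤ ct 7 (lev y - lev (e 11 4) + 1) y + (lev y - lev (e 11 4) + 1)
      rw [hly, hl11, show 15 - 11 + 1 = 5 by norm_num, E7_cost D C H h.good hly hy]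
      norm_num
    · intro x _ hxl
      show 1 ≤ lev x - lev (e 11 4) ∧ lev x - lev (e 11 4) ≤ 7
      rw [hxl, hl11]
      norm_num
  · push Not at hex
    have hN := natTop_E7 D C H h.good H.gradedBelow (i := 7) (by omega) (by omega) (by omega)
      (by omega)
    refine ⟨_, _, TyL.oth ⟨_, hN⟩ (Subset.refl _) ?_ ?_ ?_⟩
    · intro z hz _ x hx hzx
      exact absurd (hzx.le.trans (mem_lowPart.mp hx).1) (hex z hz)
    · intro x hx hxl
      have := (mem_lowPart.mp hx).2
      omega
    · intro x hx hxl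
      have := (mem_lowPart.mp hx).2
      omega

end Pool.Agent.GaussPoset.Cs

end

/-! From `Pool.Agent.W_448f6_h94.FxN` -/

section

/-!
The local data of the component `E7` at level 14, window 6 (MP_448cb3_co, S8, `j = 14`).
-/

namespace Pool.Agent.GaussPoset.F6

set_option linter.unusedSectionVars false

open Polynomial Finset Cl Wd Cp Sg Cs

universe u

variable {P : Type u} [Fintype P] [PartialOrder P] [DecidableEq P] {r : ℕ} {v : P}

/-- the check of the cells -/
def chkE (cv lv th : List ℕ) (N k15 : ℕ) (ms : List ℕ) : Bool :=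
  ((List.range 25).all fun a => Nat.beq (cv.getD a 0) (E7cv.getD a 0) &&
    Nat.beq (lv.getD a 0) (E7lv.getD a 0)) &&
  ((List.range k15).all fun k => Nat.beq (cv.getD (25 + k) 0) (2 ^ 24) &&
    Nat.beq (lv.getD (25 + k) 0) 15 && Nat.beq (th.getD (25 + k) 0) 5) &&
  ((List.range ms.length).all fun k =>
    Nat.beq (cv.getD (25 + k15 + k) 0) (ms.getD k 0 * 2 ^ 25) &&
    Nat.beq (lv.getD (25 + k15 + k) 0) 16 && Nat.beq (th.getD (25 + k15 + k) 0) 6 &&
    Nat.blt (ms.getD k 0) (2 ^ k15)) &&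
  Nat.beq (th.getD 24 0) 4 && Nat.ble (25 + k15 + ms.length) N

/-- the data of the component -/
structure E7L (t : Tops P) (v : P) (θ : P → ℕ) : Prop where
  loc : ∃ B, LocL 6 2 76 (nE t v) θ B
  th14 : θ v = 4
  th15 : ∀ x, Pend x v → θ x = 5
  th16 : ∀ x ∈ A16 v, θ x = 6

variable {t : Tops P} {c : ℕ → P} {zs : List P} {L : List (P × ℕ)} {ms : List ℕ}

theorem Dat.loc (D : Dat v zs L ms) (C : Cod 25 (fun a => E7cv.getD a 0) (fun a => E7lv.getD a 0) c)
    (hv : c 24 = v) (hst : ∀ x, x ∈ lowPart 14 (t : P) ↔ ∃ a < 25, c a = x)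
    (hlz : ∀ z, Pend z v → GaussPoset.lev z = 15)
    (hlw : ∀ w ∈ A16 v, GaussPoset.lev w = 16) {cv lv th um Us : List ℕ} {N B K k15 : ℕ}
    {LL : List (ℕ × ℕ × ℕ × ℕ × ℕ)} (hk : zs.length = k15)
    (hchk : chkE cv lv th N k15 ms = true)
    (hU : UsOK N (fun a => cv.getD a 0) Us)
    (hpol : polC N B K Us 6 LL = true)
    (hlow : lowC N K 6 75 (fun a => lv.getD a 0) Us 393215 LL = true)
    (hth : thChk N 6 18 (fun a => lv.getD a 0) (fun a => cv.getD a 0) (fun a => um.getD a 0)
      (fun a => th.getD a 0) = true)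
    (hbm : bmC N 6 18 393215 (fun a => lv.getD a 0) (fun a => um.getD a 0) = true) :
    ∃ θ, E7L t v θ := by
  subst hk
  unfold chkE at hchk
  simp only [Bool.and_eq_true, List.all_eq_true, List.mem_range, beq_iff, Nat.blt_eq,
    ble_iff] at hchk
  obtain ⟨⟨⟨⟨h1, h2⟩, h3⟩, h4⟩, h5⟩ := hchk
  have hc := D.cod (cv := fun a => cv.getD a 0) (lv := fun a => lv.getD a 0) C hv hlz hlw
    (fun a ha => (h1 a ha).1) (fun a ha => (h1 a ha).2)
    (fun k hk => ⟨(h2 k hk).1.1, (h2 k hk).1.2⟩)
    (fun k hk => ⟨(h3 k hk).1.1.1, (h3 k hk).1.1.2⟩) (fun k hk => (h3 k hk).2)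
  have hS := D.surj hst
  have hlen := D.len
  refine ⟨thI (25 + zs.length + ms.length) (cE c v zs L) (fun a => th.getD a 0), ?_, ?_, ?_, ?_⟩
  · refine ⟨_, cod_locL' hc hU h5 hth (by omega) hS hpol hlow (fun x hx => hx) hbm ?_⟩
    refine lt_of_lt_of_le (b := 2 ^ 25) (by norm_num) (Nat.pow_le_pow_right (by norm_num) ?_)
    omega
  · have e : v = cE c v zs L 24 := by
      unfold cE
      rw [if_pos (by omega), if_pos (by norm_num), hv]
    have g := thI_c hc (fun a => th.getD a 0) (a := 24) (by omega)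
    rw [← e] at g
    exact g.trans h4
  · intro x hx
    obtain ⟨k, hk, h6⟩ := mem_getD (d := v) ((D.zmem x).mpr hx)
    have e : x = cE c v zs L (25 + k) := by
      unfold cE
      rw [if_pos (by omega), if_neg (by omega), Nat.add_sub_cancel_left, h6]
    rw [e, thI_c hc _ (by omega)]
    exact (h2 k hk).2
  · intro x hx
    obtain ⟨p, hp, rfl⟩ := D.lall x hx
    obtain ⟨k, hk, h6⟩ := mem_getD (d := v) (List.mem_map_of_mem (f := Prod.fst) hp)
    have e : p.1 = cE c v zs L (25 + zs.length + k) := by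
      unfold cE
      rw [if_neg (by omega), Nat.add_sub_cancel_left, h6]
    rw [e, thI_c hc _ (by omega)]
    exact (h3 k (by omega)).1.2

section Cases

variable (C : Cod 25 (fun a => E7cv.getD a 0) (fun a => E7lv.getD a 0) c)
  (hv : c 24 = v) (hst : ∀ x, x ∈ lowPart 14 (t : P) ↔ ∃ a < 25, c a = x)
  (hlz : ∀ z, Pend z v → GaussPoset.lev z = 15)
  (hlw : ∀ w ∈ A16 v, GaussPoset.lev w = 16)

include C hv hst hlz hlw

/-- at most one pendant -/
lemma case_one (D : Dat v zs L ms) {n1 n2 : ℕ} (h1 : zs.length = n1) (hn1 : n1 ≤ 1)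
    (hms : ms = List.replicate n2 1) (hn2 : n2 ≤ 2) (h0 : n1 = 0 → n2 = 0) :
    ∃ θ, E7L t v θ := by
  subst hms
  refine D.loc C hv hst hlz hlw h1 ?_ Ea_us Ea_pol Ea_low Ea_th Ea_bm
  obtain rfl | rfl : n1 = 0 ∨ n1 = 1 := by omega
  · rw [h0 rfl]
    decide +kernel
  · obtain rfl | rfl | rfl : n2 = 0 ∨ n2 = 1 ∨ n2 = 2 := by omega
    · decide +kernel
    · decide +kernel
    · decide +kernel

/-- two pendants without common children -/
lemma case_two (D : Dat v zs L ms) {a b : ℕ} (h1 : zs.length = 2) (ha : a ≤ 2) (hba : b ≤ a)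
    (hms : ms = List.replicate a 1 ++ List.replicate b 2) : ∃ θ, E7L t v θ := by
  subst hms
  by_cases h : a = 1 ∧ b = 1
  · obtain ⟨rfl, rfl⟩ := h
    exact D.loc C hv hst hlz hlw h1 (by decide +kernel) Ec_us Ec_pol Ec_low Ec_th Ec_bm
  · refine D.loc C hv hst hlz hlw h1 ?_ Eb_us Eb_pol Eb_low Eb_th Eb_bm
    obtain rfl | rfl | rfl : a = 0 ∨ a = 1 ∨ a = 2 := by omega
    · obtain rfl : b = 0 := by omega
      decide +kernel
    · obtain rfl : b = 0 := by omega
      decide +kernel
    · obtain rfl | rfl | rfl : b = 0 ∨ b = 1 ∨ b = 2 := by omega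
      · decide +kernel
      · decide +kernel
      · decide +kernel

/-- two pendants with common children -/
lemma case_com (D : Dat v zs L ms) {a b d : ℕ} (h1 : zs.length = 2) (hd : 1 ≤ d)
    (had : a + d ≤ 2) (hba : b ≤ a)
    (hms : ms = List.replicate d 3 ++ (List.replicate a 1 ++ List.replicate b 2)) :
    ∃ θ, E7L t v θ := by
  subst hms
  obtain rfl | rfl : d = 1 ∨ d = 2 := by omega
  · refine D.loc C hv hst hlz hlw h1 ?_ Ed_us Ed_pol Ed_low Ed_th Ed_bm
    obtain rfl | rfl : a = 0 ∨ a = 1 := by omega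
    · obtain rfl : b = 0 := by omega
      decide +kernel
    · obtain rfl | rfl : b = 0 ∨ b = 1 := by omega
      · decide +kernel
      · decide +kernel
  · obtain rfl : a = 0 := by omega
    obtain rfl : b = 0 := by omega
    exact D.loc C hv hst hlz hlw h1 (by decide +kernel) Ee_us Ee_pol Ee_low Ee_th Ee_bm

end Cases

end Pool.Agent.GaussPoset.F6

end

/-! From `Pool.Agent.W_448f6_h94.FxO` -/

section

/-!
The component `E7` at level 14: its local data at window 6 (MP_448cb3_co, S8, `j = 14`).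
-/

namespace Pool.Agent.GaussPoset.F6

set_option linter.unusedSectionVars false

open Polynomial Finset Cl Wd Cp Sg Cs

universe u

variable {P : Type u} [Fintype P] [PartialOrder P] [DecidableEq P] {r : ℕ} {v : P}
variable {t : Tops P} {lo hi : ℕ → ℕ} {e : ℕ → ℕ → P}

lemma E7_le (D : WordD 14 4 w7 lo hi) (C : Comp 14 (t : P) lo hi e) {a : ℕ} (ha : a < 25) :
    c7 e a ≤ (t : P) ∧ GaussPoset.lev (c7 e a) = E7lv.getD a 0 := by
  obtain ⟨h1, h2⟩ := D.rows C
  have h3 := E7_strip.row a (by omega)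
  have h4 : E7lv.getD a 0 ≤ 14 := by
    have h : ∀ a < 25, E7lv.getD a 0 ≤ 14 := by decide +kernel
    exact h a ha
  rw [← h1 _ h4, ← h2 _ h4] at h3
  exact ⟨C.le_t _ _ h4 h3.1 h3.2, C.lev_e _ _ h4 h3.1 h3.2⟩

lemma E7_low (D : WordD 14 4 w7 lo hi) (C : Comp 14 (t : P) lo hi e) (x : P) :
    x ∈ lowPart 14 (t : P) ↔ ∃ a < 25, c7 e a = x := by
  obtain ⟨h1, h2⟩ := D.rows C
  constructor
  · intro h
    obtain ⟨a, ha, hxa⟩ := E7_strip.surj' C (by norm_num) h1 h2 h
    exact ⟨a, ha, hxa⟩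
  · rintro ⟨a, ha, rfl⟩
    obtain ⟨h3, h4⟩ := E7_le D C ha
    refine mem_lowPart.mpr ⟨h3, ?_⟩
    rw [h4]
    have h : ∀ a < 25, E7lv.getD a 0 ≤ 14 := by decide +kernel
    exact h a ha

lemma E7_l14 (D : WordD 14 4 w7 lo hi) (C : Comp 14 (t : P) lo hi e) :
    GaussPoset.lev (c7 e 24) = 14 := (E7_le D C (by norm_num)).2

lemma lev15 (H : Gr P r) (hv : GaussPoset.lev v = 14) {z : P} (hz : Pend z v) :
    GaussPoset.lev z = 15 := by
  have := (H.covBy_iff.mp hz.1).2
  omega

lemma lev16 (H : Gr P r) (hv : GaussPoset.lev v = 14) {w : P} (hw : w ∈ A16 v) :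
    GaussPoset.lev w = 16 := by
  obtain ⟨⟨y, hy⟩, h2⟩ := mem_A16.mp hw
  have h3 := lev15 H hv (h2 y hy)
  have := (H.covBy_iff.mp hy).2
  omega

/-- the data from a list of the elements of level 16 -/
theorem dat_of {zs : List P} (hz : zs.Nodup) (hzm : ∀ x, x ∈ zs ↔ Pend x v) (l : List P)
    (hl : l.Nodup) (hlm : ∀ x, x ∈ l ↔ x ∈ A16 v) (mk : P → ℕ)
    (hmk : ∀ w ∈ A16 v, ∀ y, w ⋖ y ↔ ∃ j < zs.length, (mk w).testBit j = true ∧
      zs.getD j v = y) : Dat v zs (l.map fun w => (w, mk w)) (l.map mk) where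
  znd := hz
  zmem := hzm
  lnd := by
    rw [List.map_map]
    have : (Prod.fst ∘ fun w : P => (w, mk w)) = id := rfl
    rw [this, List.map_id]
    exact hl
  lcov := by
    intro p hp y
    obtain ⟨w, hw, rfl⟩ := List.mem_map.mp hp
    exact hmk w ((hlm w).mp hw) y
  lall := by
    intro x hx
    exact ⟨_, List.mem_map_of_mem (f := fun w => (w, mk w)) ((hlm x).mpr hx), rfl⟩
  lmem := by
    intro p hp
    obtain ⟨w, hw, rfl⟩ := List.mem_map.mp hp
    exact (hlm w).mp hw
  lms := by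
    rw [List.map_map]
    rfl

lemma card_low (H : Gr P r) {x : P} {S : Finset P} (hS : ∀ w ∈ S, w ⋖ x) : S.card ≤ 2 := by
  refine le_trans (Finset.card_le_card ?_) (Win.dc_card_le H x)
  intro w hw
  rw [Win.mem_dc]
  exact hS w hw

/-- **The local data of `E7` at level 14.** -/
theorem exists_E7L (h : Win.GoodTo P r 14) (C : Comp 14 (t : P) lo hi e)
    (D : WordD 14 4 w7 lo hi) : ∃ θ, E7L t (c7 e 24) θ := by
  classical
  have H := h.H
  have hC := E7_cod14 D C H h.good
  have hst := E7_low D C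
  have hl := E7_l14 D C
  generalize hve : c7 e 24 = v at hl
  have hlz : ∀ z, Pend z v → GaussPoset.lev z = 15 := fun z hz => lev15 H hl hz
  have hlw : ∀ w ∈ A16 v, GaussPoset.lev w = 16 := fun w hw => lev16 H hl hw
  have hc15 : (A15 v).card ≤ 2 := card_low H fun w hw => (mem_A15.mp hw).1
  obtain hc | hc | hc : (A15 v).card = 0 ∨ (A15 v).card = 1 ∨ (A15 v).card = 2 := by omega
  · rw [Finset.card_eq_zero] at hc
    have hno : ∀ z, ¬ Pend z v := by
      intro z hz
      have := mem_A15.mpr hz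
      rw [hc] at this
      exact absurd this (Finset.notMem_empty z)
    have hno' : ∀ w, w ∉ A16 v := by
      intro w hw
      obtain ⟨⟨y, hy⟩, h2⟩ := mem_A16.mp hw
      exact hno y (h2 y hy)
    have Dt := dat_of (v := v) (zs := []) List.nodup_nil (fun x => by simp [hno x]) []
      List.nodup_nil (fun x => by simp [hno' x]) (fun _ => 0) (fun w hw => absurd hw (hno' w))
    exact case_one hC hve hst hlz hlw Dt (n1 := 0) (n2 := 0) rfl (by norm_num) rfl (by norm_num)
      (fun _ => rfl)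
  · obtain ⟨z, hz⟩ := Finset.card_eq_one.mp hc
    have hp : ∀ x, Pend x v ↔ x = z := by
      intro x
      rw [← mem_A15, hz, mem_singleton]
    have hcov : ∀ w ∈ A16 v, ∀ y, w ⋖ y ↔ y = z := by
      intro w hw y
      obtain ⟨⟨y', hy'⟩, h2⟩ := mem_A16.mp hw
      constructor
      · intro h3
        exact (hp y).mp (h2 y h3)
      · rintro rfl
        rw [← (hp y').mp (h2 y' hy')]
        exact hy'
    have Dt := dat_of (v := v) (zs := [z]) (List.nodup_singleton z)
      (fun x => by rw [List.mem_singleton]; exact (hp x).symm) (A16 v).toList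
      (Finset.nodup_toList _) (fun x => Finset.mem_toList) (fun _ => 1) (by
        intro w hw y
        rw [hcov w hw y]
        constructor
        · rintro rfl
          exact ⟨0, by simp, by decide, rfl⟩
        · rintro ⟨j, hj, -, hj2⟩
          have : j = 0 := by simpa using hj
          subst this
          exact hj2.symm)
    refine case_one hC hve hst hlz hlw Dt (n1 := 1) (n2 := (A16 v).card) rfl le_rfl ?_ ?_
      (fun h => absurd h (by norm_num))
    · rw [← Finset.length_toList, List.eq_replicate_iff]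
      refine ⟨by rw [List.length_map], ?_⟩
      intro b hb
      obtain ⟨w, -, rfl⟩ := List.mem_map.mp hb
      rfl
    · exact card_low H (x := z) fun w hw => (hcov w hw z).mpr rfl
  · obtain ⟨y0, y1, hne, hz⟩ := Finset.card_eq_two.mp hc
    -- the general statement
    have key : ∀ z0 z1 : P, z0 ≠ z1 → A15 v = {z0, z1} →
        ((A16 v).filter (fun w => ¬ w ⋖ z0 ∧ w ⋖ z1)).card ≤
          ((A16 v).filter (fun w => w ⋖ z0 ∧ ¬ w ⋖ z1)).card → ∃ θ, E7L t v θ := by
      intro z0 z1 hne hz hcard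
      have hp : ∀ x, Pend x v ↔ x = z0 ∨ x = z1 := by
        intro x
        rw [← mem_A15, hz, mem_insert, mem_singleton]
      set W3 := (A16 v).filter (fun w => w ⋖ z0 ∧ w ⋖ z1) with hW3
      set W1 := (A16 v).filter (fun w => w ⋖ z0 ∧ ¬ w ⋖ z1) with hW1
      set W2 := (A16 v).filter (fun w => ¬ w ⋖ z0 ∧ w ⋖ z1) with hW2
      have hcov : ∀ w ∈ A16 v, (∀ y, w ⋖ y → y = z0 ∨ y = z1) ∧ (w ⋖ z0 ∨ w ⋖ z1) := by
        intro w hw
        obtain ⟨⟨y, hy⟩, h2⟩ := mem_A16.mp hw
        refine ⟨fun y hy => (hp y).mp (h2 y hy), ?_⟩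
        rcases (hp y).mp (h2 y hy) with rfl | rfl
        · exact Or.inl hy
        · exact Or.inr hy
      have hnd : (W3.toList ++ (W1.toList ++ W2.toList)).Nodup := by
        rw [List.nodup_append]
        refine ⟨W3.nodup_toList, ?_, ?_⟩
        · rw [List.nodup_append]
          refine ⟨W1.nodup_toList, W2.nodup_toList, ?_⟩
          intro a ha b hb hab
          rw [Finset.mem_toList, mem_filter] at ha hb
          subst hab
          exact hb.2.1 ha.2.1
        · intro a ha b hb hab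
          rw [Finset.mem_toList, mem_filter] at ha
          subst hab
          rw [List.mem_append, Finset.mem_toList, Finset.mem_toList, mem_filter,
            mem_filter] at hb
          rcases hb with hb | hb
          · exact hb.2.2 ha.2.2
          · exact hb.2.1 ha.2.1
      have hmem : ∀ x, x ∈ W3.toList ++ (W1.toList ++ W2.toList) ↔ x ∈ A16 v := by
        intro x
        rw [List.mem_append, List.mem_append, Finset.mem_toList, Finset.mem_toList,
          Finset.mem_toList, mem_filter, mem_filter, mem_filter]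
        constructor
        · rintro (h | h | h)
          · exact h.1
          · exact h.1
          · exact h.1
        · intro hx
          have := (hcov x hx).2
          by_cases h0 : x ⋖ z0 <;> by_cases h1 : x ⋖ z1
          · exact Or.inl ⟨hx, h0, h1⟩
          · exact Or.inr (Or.inl ⟨hx, h0, h1⟩)
          · exact Or.inr (Or.inr ⟨hx, h0, h1⟩)
          · exact absurd this (by tauto)
      have Dt := dat_of (v := v) (zs := [z0, z1]) (by simp [hne])
        (fun x => by rw [hp x]; simp) (W3.toList ++ (W1.toList ++ W2.toList)) hnd hmem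
        (fun w => if w ⋖ z0 then (if w ⋖ z1 then 3 else 1) else 2) (by
          intro w hw y
          obtain ⟨g1, g2⟩ := hcov w hw
          have e2 : [z0, z1].length = 2 := rfl
          rw [e2]
          have q0 : ([z0, z1] : List P).getD 0 v = z0 := rfl
          have q1 : ([z0, z1] : List P).getD 1 v = z1 := rfl
          by_cases h0 : w ⋖ z0
          · by_cases h1 : w ⋖ z1
            · simp only [if_pos h0, if_pos h1]
              constructor
              · intro hy
                rcases g1 y hy with rfl | rfl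
                · exact ⟨0, by norm_num, by decide, q0⟩
                · exact ⟨1, by norm_num, by decide, q1⟩
              · rintro ⟨j, hj, -, hj2⟩
                obtain rfl | rfl : j = 0 ∨ j = 1 := by omega
                · rw [← hj2, q0]; exact h0
                · rw [← hj2, q1]; exact h1
            · simp only [if_pos h0, if_neg h1]
              constructor
              · intro hy
                rcases g1 y hy with rfl | rfl
                · exact ⟨0, by norm_num, by decide, q0⟩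
                · exact absurd hy h1
              · rintro ⟨j, hj, hbit, hj2⟩
                obtain rfl | rfl : j = 0 ∨ j = 1 := by omega
                · rw [← hj2, q0]; exact h0
                · exact absurd hbit (by decide)
          · have h1 : w ⋖ z1 := by tauto
            simp only [if_neg h0]
            constructor
            · intro hy
              rcases g1 y hy with rfl | rfl
              · exact absurd hy h0
              · exact ⟨1, by norm_num, by decide, q1⟩
            · rintro ⟨j, hj, hbit, hj2⟩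
              obtain rfl | rfl : j = 0 ∨ j = 1 := by omega
              · exact absurd hbit (by decide)
              · rw [← hj2, q1]; exact h1)
      have hms : (W3.toList ++ (W1.toList ++ W2.toList)).map
          (fun w => if w ⋖ z0 then (if w ⋖ z1 then 3 else 1) else 2) =
          List.replicate W3.card 3 ++ (List.replicate W1.card 1 ++ List.replicate W2.card 2) := by
        rw [List.map_append, List.map_append]
        refine congrArg₂ _ ?_ (congrArg₂ _ ?_ ?_)
        · rw [← Finset.length_toList, List.eq_replicate_iff]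
          refine ⟨by rw [List.length_map], fun b hb => ?_⟩
          obtain ⟨w, hw, rfl⟩ := List.mem_map.mp hb
          rw [Finset.mem_toList, mem_filter] at hw
          rw [if_pos hw.2.1, if_pos hw.2.2]
        · rw [← Finset.length_toList, List.eq_replicate_iff]
          refine ⟨by rw [List.length_map], fun b hb => ?_⟩
          obtain ⟨w, hw, rfl⟩ := List.mem_map.mp hb
          rw [Finset.mem_toList, mem_filter] at hw
          rw [if_pos hw.2.1, if_neg hw.2.2]
        · rw [← Finset.length_toList, List.eq_replicate_iff]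
          refine ⟨by rw [List.length_map], fun b hb => ?_⟩
          obtain ⟨w, hw, rfl⟩ := List.mem_map.mp hb
          rw [Finset.mem_toList, mem_filter] at hw
          rw [if_neg hw.2.1]
      have hc31 : W1.card + W3.card ≤ 2 := by
        rw [← Finset.card_union_of_disjoint]
        · refine card_low H (x := z0) fun w hw => ?_
          rw [mem_union, mem_filter, mem_filter] at hw
          rcases hw with hw | hw
          · exact hw.2.1
          · exact hw.2.1
        · rw [Finset.disjoint_left]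
          intro w hw hw'
          rw [mem_filter] at hw hw'
          exact hw.2.2 hw'.2.2
      rcases Nat.eq_zero_or_pos W3.card with h3 | h3
      · refine case_two hC hve hst hlz hlw Dt (a := W1.card) (b := W2.card) rfl (by omega) hcard ?_
        rw [hms, h3]
        rfl
      · exact case_com hC hve hst hlz hlw Dt (a := W1.card) (b := W2.card) (d := W3.card) rfl h3
          hc31 hcard hms
    rcases le_total ((A16 v).filter (fun w => ¬ w ⋖ y0 ∧ w ⋖ y1)).card
      ((A16 v).filter (fun w => w ⋖ y0 ∧ ¬ w ⋖ y1)).card with h4 | h4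
    · exact key y0 y1 hne hz h4
    · refine key y1 y0 hne.symm (by rw [hz, Finset.pair_comm]) ?_
      have e1 : (A16 v).filter (fun w => ¬ w ⋖ y1 ∧ w ⋖ y0) =
          (A16 v).filter (fun w => w ⋖ y0 ∧ ¬ w ⋖ y1) :=
        Finset.filter_congr fun w _ => and_comm
      have e2 : (A16 v).filter (fun w => w ⋖ y1 ∧ ¬ w ⋖ y0) =
          (A16 v).filter (fun w => ¬ w ⋖ y0 ∧ w ⋖ y1) :=
        Finset.filter_congr fun w _ => and_comm
      rw [e1, e2]
      exact h4

end Pool.Agent.GaussPoset.F6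

end

/-! From `Pool.Agent.W_448f6_h94.FxP` -/

section

/-!
The type of the component `E7` at window 6, level 14 (MP_448cb3_co, S8, `j = 14`).
-/

namespace Pool.Agent.GaussPoset.F6

set_option linter.unusedSectionVars false

open Polynomial Finset Cl Wd Cp Sg Cs

universe u

variable {P : Type u} [Fintype P] [PartialOrder P] [DecidableEq P] {r : ℕ} {v : P}
variable {t : Tops P} {lo hi : ℕ → ℕ} {e : ℕ → ℕ → P}

lemma ct_three {i k : ℕ} {z x y0 y1 : P} (hzx : z < x) (h0 : z < y0) (h1 : z < y1)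
    (hx0 : ¬ x ≤ y0) (hx1 : ¬ x ≤ y1) (hne : y0 ≠ y1) :
    ct i k x + (min k (GaussPoset.lev z - i) + (min k (GaussPoset.lev y0 - i) +
      min k (GaussPoset.lev y1 - i))) ≤ ct i k z := by
  classical
  have e1 : ∀ a : P, (∑ y, if y = a then min k (GaussPoset.lev y - i) else 0) =
      min k (GaussPoset.lev a - i) := by
    intro a
    rw [Finset.sum_ite_eq' univ a (fun y => min k (GaussPoset.lev y - i)), if_pos (mem_univ a)]
  rw [← e1 z, ← e1 y0, ← e1 y1, ct_eq_sum, ct_eq_sum, ← Finset.sum_add_distrib,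
    ← Finset.sum_add_distrib, ← Finset.sum_add_distrib]
  refine Finset.sum_le_sum fun y _ => ?_
  by_cases a1 : x ≤ y
  · have a2 : y ≠ z := by rintro rfl; exact absurd a1 (not_le_of_gt hzx)
    have a3 : y ≠ y0 := by rintro rfl; exact hx0 a1
    have a4 : y ≠ y1 := by rintro rfl; exact hx1 a1
    rw [if_pos a1, if_neg a2, if_neg a3, if_neg a4, if_pos (hzx.le.trans a1)]
    omega
  · rw [if_neg a1]
    by_cases a2 : y = z
    · subst a2
      rw [if_pos rfl, if_neg h0.ne, if_neg h1.ne, if_pos le_rfl]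
      omega
    · rw [if_neg a2]
      by_cases a3 : y = y0
      · subst a3
        rw [if_pos rfl, if_neg hne, if_pos h0.le]
        omega
      · rw [if_neg a3]
        by_cases a4 : y = y1
        · subst a4
          rw [if_pos rfl, if_pos h1.le]
          omega
        · rw [if_neg a4]
          simp

lemma E7_umOK : ∀ a < 25, Cs.E7um.getD a 0 = Nat.lor (2 ^ a)
    (orM (fun a => Cs.E7um.getD a 0) 25 (E7cv.getD a 0)) := by decide +kernel

lemma E7_cvOK : ∀ a < 25, E7cv.getD a 0 < 2 ^ a := by decide +kernel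

/-- the costs of a pendant -/
lemma E7_pct (hC : Cod 25 (fun a => E7cv.getD a 0) (fun a => E7lv.getD a 0) (c7 e))
    {z : P} (hl : GaussPoset.lev z = 15) (hz : Pend z (c7 e 24)) :
    ct 6 6 z = 62 ∧ ct 6 7 z = 65 := by
  have h1 := Sg.cod_ct (um := fun a => Cs.E7um.getD a 0) hC E7_cvOK E7_umOK
    (z := z) (m := 16777216) (fun w => by
      constructor
      · intro h
        exact ⟨24, by norm_num, by decide +kernel, (hz.2 w h).symm⟩
      · rintro ⟨b, hb, hbit, rfl⟩
        have h : ∀ b < 25, (16777216 : ℕ).testBit b = true → b = 24 := by decide +kernel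
        rw [h b hb hbit]
        exact hz.1) 6
  rw [h1, h1, hl]
  decide +kernel

/-- the cells above the last one -/
lemma E7_nab (hC : Cod 25 (fun a => E7cv.getD a 0) (fun a => E7lv.getD a 0) (c7 e)) (l : ℕ) :
    nab l (c7 e 24) = ((range 25).filter (fun a => E7lv.getD a 0 = l)).card := by
  classical
  unfold nab
  symm
  refine Finset.card_bij (fun a _ => c7 e a) ?_ ?_ ?_
  · intro a ha
    rw [mem_filter, mem_range] at ha
    rw [mem_filter, mem_lv]
    refine ⟨(hC.lev a ha.1).trans ha.2, ?_⟩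
    rw [hC.le_iff le_rfl E7_cvOK E7_umOK (by norm_num) ha.1]
    have h : ∀ a < 25, (Cs.E7um.getD 24 0).testBit a = true := by decide +kernel
    exact h a ha.1
  · intro a ha b hb h
    rw [mem_filter, mem_range] at ha hb
    exact hC.inj a ha.1 b hb.1 h
  · intro y hy
    rw [mem_filter, mem_lv] at hy
    obtain ⟨a, ha, rfl⟩ := cod_above hC (by norm_num) hy.2
    exact ⟨a, mem_filter.mpr ⟨mem_range.mpr ha, (hC.lev a ha).symm.trans hy.1⟩, rfl⟩

lemma E7_prof (hC : Cod 25 (fun a => E7cv.getD a 0) (fun a => E7lv.getD a 0) (c7 e)) :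
    Fi.Prof 7 (c7 e 24) (Fi.gD pE) := by
  intro d hd
  rw [E7_nab hC]
  have h : ∀ d, d ≤ 14 → ((range 25).filter (fun a => E7lv.getD a 0 = 14 - d)).card =
      1 + pE.getD d 0 := by decide +kernel
  exact h d hd

lemma E7_uc (hC : Cod 25 (fun a => E7cv.getD a 0) (fun a => E7lv.getD a 0) (c7 e)) :
    (Win.uc (c7 e 24)).card = 1 := by
  classical
  rw [Finset.card_eq_one]
  have h : ∀ b < 25, (E7cv.getD 24 0).testBit b = true → b = 23 := by decide +kernel
  refine ⟨c7 e 23, ?_⟩
  ext y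
  rw [Win.mem_uc, hC.cov 24 (by norm_num) y, mem_singleton]
  constructor
  · rintro ⟨b, hb, hbit, rfl⟩
    rw [h b hb hbit]
  · rintro rfl
    exact ⟨23, by norm_num, by decide +kernel, rfl⟩

lemma exists_cov' {y : P} (hl : 1 ≤ GaussPoset.lev y) : ∃ w, y ⋖ w := by
  have h1 : y < (topOf y : P) := by
    refine lt_of_le_of_ne (le_topOf y) ?_
    intro h
    have := (topOf y).2
    rw [← h] at this
    omega
  obtain ⟨w, hw, -⟩ := Hul.exists_cov h1
  exact ⟨w, hw⟩

/-- the costs at the end of the natural set -/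
lemma kap_E7 (H : Gr P r) (hv : GaussPoset.lev v = 14)
    (hpc : ∀ x, Pend x v → ct 6 6 x = 62 ∧ ct 6 7 x = 65) {θ : P → ℕ} (E : E7L t v θ) {z x : P}
    (hz : z ∉ nE t v) (hx : x ∈ nE t v) (hl : 15 ≤ GaussPoset.lev x) (hzx : z ⋖ x) :
    77 ≤ ct 6 (θ x + 1) z := by
  have hzl := (H.covBy_iff.mp hzx).2
  rw [mem_nE] at hx hz
  push Not at hz
  rcases hx with hx | hx | hx
  · exact absurd (mem_lowPart.mp hx).2 (by omega)
  · rw [E.th15 x hx]
    have hxl := lev15 H hv hx
    have h1 : ∃ y, z ⋖ y ∧ ¬ Pend y v := by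
      by_contra hcon
      push Not at hcon
      exact hz.2.2 (mem_A16.mpr ⟨⟨x, hzx⟩, hcon⟩)
    obtain ⟨y, hy, hyp⟩ := h1
    have hyl := (H.covBy_iff.mp hy).2
    have h2 : ∃ y', y ⋖ y' ∧ y' ≠ v := by
      by_contra hcon
      push Not at hcon
      obtain ⟨y', hy'⟩ := exists_cov' (y := y) (by omega)
      exact hyp ⟨by rw [← hcon y' hy']; exact hy', hcon⟩
    obtain ⟨y', hy', hne⟩ := h2
    have hyl' := (H.covBy_iff.mp hy').2
    have h3 := ct_three (i := 6) (k := 6) hzx.lt hy.lt (hy.lt.trans hy'.lt) (by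
      intro h
      have h4 : x = y := by
        by_contra hne'
        have := lev_strictAnti (lt_of_le_of_ne h hne')
        omega
      rw [h4] at hx
      exact hyp hx) (by
      intro h
      obtain ⟨w, hw, hwy⟩ := Hul.exists_cov (lt_of_le_of_ne h (by rintro rfl; omega))
      rw [hx.2 w hw] at hwy
      refine hne ?_
      by_contra hne'
      have := lev_strictAnti (lt_of_le_of_ne hwy fun h => hne' h.symm)
      omega) hy'.lt.ne
    rw [(hpc x hx).1, hzl, hxl, show GaussPoset.lev y = 15 by omega,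
      show GaussPoset.lev y' = 14 by omega] at h3
    exact le_trans (by norm_num) h3
  · rw [E.th16 x hx]
    have hxl := lev16 H hv hx
    obtain ⟨⟨y, hy⟩, h2⟩ := mem_A16.mp hx
    have h3 := ct_cov (i := 6) (k := 7) hy.lt
    have h4 := ct_cov (i := 6) (k := 7) hzx.lt
    rw [(hpc y (h2 y hy)).2, hxl] at h3
    rw [hzl, hxl] at h4
    have h5 : min 7 (16 - 6) = 7 := by norm_num
    have h6 : min 7 (16 + 1 - 6) = 7 := by norm_num
    rw [h5] at h3
    rw [h6] at h4
    show 77 ≤ ct 6 7 z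
    omega

/-- no twins of the pendants outside the natural set -/
lemma tw_E7 (H : Gr P r) (hv : GaussPoset.lev v = 14) {z x : P} (hz : z ∉ nE t v)
    (hx : x ∈ nE t v) (hl : GaussPoset.lev x = 15) (h : ∀ w, x < w ↔ z < w) : False := by
  rw [mem_nE] at hx hz
  push Not at hz
  rcases hx with hx | hx | hx
  · exact absurd (mem_lowPart.mp hx).2 (by omega)
  · refine hz.2.1 ⟨⟨(h v).mp hx.1.lt, ?_⟩, ?_⟩
    · intro w hzw hwv
      exact hx.1.2 ((h w).mpr hzw) hwv
    · intro y hy
      have h1 := (h y).mpr hy.lt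
      obtain ⟨w, hw, hwy⟩ := Hul.exists_cov h1
      rw [hx.2 w hw] at hwy
      by_contra hne
      exact hy.2 ((h v).mp hx.1.lt) (lt_of_le_of_ne hwy fun h => hne h.symm)
  · have := lev16 H hv hx
    omega

/-- **The type of `E7`.** -/
theorem oth_E7 (h : Win.GoodTo P r 14) (C : Comp 14 (t : P) lo hi e) (D : WordD 14 4 w7 lo hi)
    {N : Tops P → Finset P} {θ : P → ℕ} (hN : N t = nE t (c7 e 24))
    (E : E7L t (c7 e 24) θ) : TyE 6 7 77 N t 2 θ := by
  have H := h.H
  have hC := E7_cod14 D C H h.good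
  have hst := E7_low D C
  have hl := E7_l14 D C
  have hone : ∀ x, x ≤ (t : P) → GaussPoset.lev x = 14 → x = c7 e 24 :=
    fun x hx hxl => E7_one D C hx hxl
  have hvt : c7 e 24 ≤ (t : P) := (E7_le D C (by norm_num)).1
  have hprof := E7_prof hC
  have huc := E7_uc hC
  have hpc : ∀ x, Pend x (c7 e 24) → ct 6 6 x = 62 ∧ ct 6 7 x = 65 :=
    fun x hx => E7_pct hC (lev15 H hl hx) hx
  have hup : ∀ x ∈ lowPart 14 (t : P), ∀ y, x ≤ y → y ∈ lowPart 14 (t : P) := by
    intro x hx y hxy
    rw [mem_lowPart] at hx ⊢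
    refine ⟨Cp.up_le H h.good t.2 hx.1 hx.2 hxy, ?_⟩
    rcases eq_or_lt_of_le hxy with h | h
    · rw [← h]; exact hx.2
    · have := lev_strictAnti h; omega
  generalize c7 e 24 = v at *
  have hvlow : v ∈ lowPart 14 (t : P) := mem_lowPart.mpr ⟨hvt, hl.le⟩
  have hup15 : ∀ x, Pend x v → ∀ y, x ≤ y → y ∈ nE t v := by
    intro x hx y hxy
    rcases eq_or_lt_of_le hxy with h1 | h1
    · rw [← h1]
      exact mem_nE.mpr (Or.inr (Or.inl hx))
    · obtain ⟨w, hw, hwy⟩ := Hul.exists_cov h1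
      rw [hx.2 w hw] at hwy
      exact mem_nE.mpr (Or.inl (hup v hvlow y hwy))
  refine TyE.oth ?_ ?_ ?_ ?_ ?_ ?_ ?_ ?_ ?_ ?_
  · rw [hN]
    exact E.loc
  · rw [hN]
    intro x hx
    exact mem_nE.mpr (Or.inl hx)
  · rw [hN]
    intro x hx
    rcases mem_nE.mp hx with hx | hx | hx
    · exact (mem_lowPart.mp hx).1
    · exact hx.1.le.trans hvt
    · obtain ⟨⟨y, hy⟩, h2⟩ := mem_A16.mp hx
      exact hy.le.trans ((h2 y hy).1.le.trans hvt)
  · rw [hN]
    intro x hx y hxy
    rcases mem_nE.mp hx with hx | hx | hx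
    · exact mem_nE.mpr (Or.inl (hup x hx y hxy))
    · exact hup15 x hx y hxy
    · rcases eq_or_lt_of_le hxy with h1 | h1
      · rw [← h1]
        exact mem_nE.mpr (Or.inr (Or.inr hx))
      · obtain ⟨w, hw, hwy⟩ := Hul.exists_cov h1
        exact hup15 w ((mem_A16.mp hx).2 w hw) y hwy
  · intro a b ha hb hal hbl
    rw [hone a ha hal, hone b hb hbl]
  · intro z w _ hw hwl hzw
    rw [hone w hw hwl] at hzw
    rw [hN]
    exact mem_nE.mpr (Or.inr (Or.inl hzw))
  · intro w hw hwl
    rw [hone w hw hwl]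
    exact ⟨hprof, E.th14, huc⟩
  · classical
    unfold cn
    refine (Finset.card_le_card (t := {c7 e 2}) ?_).trans (Finset.card_singleton _).le
    intro x hx
    obtain ⟨hx1, hx2⟩ := Finset.mem_filter.mp hx
    rw [mem_lv] at hx1
    obtain ⟨a, ha, rfl⟩ := (hst x).mp (mem_lowPart.mpr ⟨hx2, by omega⟩)
    have h2 : E7lv.getD a 0 = 2 := (hC.lev a ha).symm.trans hx1
    have h3 : ∀ a < 25, E7lv.getD a 0 = 2 → a = 2 := by decide +kernel
    rw [h3 a ha h2]
    exact mem_singleton_self _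
  · intro z hz x hx hxl hzx
    have hz' : z ∉ nE t v := by
      rw [← hN]
      exact mem_unnat.mp hz t
    rw [hN] at hx
    exact kap_E7 H hl hpc E hz' hx (by omega) hzx
  · intro z hz x hx hxl hw
    have hz' : z ∉ nE t v := by
      rw [← hN]
      exact mem_unnat.mp hz t
    rw [hN] at hx
    exact tw_E7 H hl hz' hx (by omega) hw

end Pool.Agent.GaussPoset.F6

end

/-! From `Pool.Agent.W_448f6_h94.FxC` -/

section

/-!
Twins, the truncated data, the boundary elements of level at least `2 m + 2` (MP_448cb3_co, S8,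
`j = 14`, window 6; after `FiB` of helper76).
-/

namespace Pool.Agent.GaussPoset.F6

set_option linter.unusedSectionVars false

open Polynomial Finset Fi

universe u

variable {P : Type u} [Fintype P] [PartialOrder P] [DecidableEq P] {r i m K : ℕ}
  {N : Tops P → Finset P} {b : Tops P → ℕ} {θ : Tops P → P → ℕ}

theorem WE.twSys (W : WE r i m K N b θ) : TwSys (unnat N) (twY (2 * m) N) topOf (twT N) :=
  twSys_of W.gt.H W.natSys

/-- natural elements of level at least `2 m + 1` -/
theorem WE.kap (W : WE r i m K N b θ) {x : P} (hx : x ∉ unnat N) (hl : 2 * m + 1 ≤ lev x) :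
    Fi.Full i m N θ x ∨ K ≤ ct i (θ (topOf x) x + 1) x + (θ (topOf x) x + 1) ∨
      Ot i m K N θ x := by
  have h4 := W.hi
  have him := W.him
  rcases W.cases hx with h | ⟨Nc, co, h⟩ | ⟨Nc, co, h⟩ | h
  · exact Or.inl h
  · right; left
    refine Fi.kap_chart W.kapR (by omega) h.rect.chart h.mem h.fst h.snd hl ?_
    rw [h.th]
  · right; left
    refine Fi.kap_chartS W.kapS (by omega) h.stair.chart h.mem h.fst hl ?_
    rw [h.th]
  · exact Or.inr (Or.inr h)

lemma WE.tw_inner (W : WE r i m K N b θ) {x : P} (hx : x ∈ twY (2 * m) N) :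
    (∃ Nc co, InR i m N b θ (twT N x) Nc co) ∨ ∃ Nc co, InS i m N b θ (twT N x) Nc co := by
  have h1 := mem_twY.mp hx
  have h3 := twT_spec h1.2.2
  rcases W.cases h3.1 with h | h | h | h
  · exact absurd h3.2 (h.tw x h1.1)
  · exact Or.inl h
  · exact Or.inr h
  · have h5 := W.twSys.lev hx
    exact absurd h3.2 (h.tw x h1.1 _ h.mem (by rw [h5]; exact h1.2.1))

lemma WE.tw_kap (W : WE r i m K N b θ) {x : P} (hx : x ∈ twY (2 * m) N) :
    K ≤ ct i (θ (topOf (twT N x)) (twT N x) + 1) (twT N x) +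
      (θ (topOf (twT N x)) (twT N x) + 1) := by
  have h1 := mem_twY.mp hx
  have h3 := twT_spec h1.2.2
  have h5 := W.twSys.lev hx
  rcases W.kap h3.1 (by omega) with h | h | h
  · exact absurd h3.2 (h.tw x h1.1)
  · exact h
  · exact absurd h3.2 (h.tw x h1.1 _ h.mem (by rw [h5]; exact h1.2.1))

lemma WE.tw_th (W : WE r i m K N b θ) {x : P} (hx : x ∈ twY (2 * m) N) :
    1 ≤ θ (topOf (twT N x)) (twT N x) ∧ θ (topOf (twT N x)) (twT N x) ≤ 2 * m - i := by
  have h1 := mem_twY.mp hx
  have h5 := W.twSys.lev hx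
  have h4 := W.hi
  have him := W.him
  rcases W.tw_inner hx with ⟨Nc, co, h⟩ | ⟨Nc, co, h⟩
  · have h6 := h.rect.chart.lev _ h.mem
    have h7 := h.fst
    have h8 := h.snd
    have h9 := h.th
    omega
  · have h6 := h.stair.chart.lev _ h.mem
    have h7 := h.fst
    have h8 : (co (twT N x)).1 ≤ (co (twT N x)).2 := h.stair.chart.mem _ h.mem
    have h9 := h.th
    omega

/-- the twins are harmless below energy `K - 1` -/
theorem WE.twinPair (W : WE r i m K N b θ) {x : P} (hx : x ∈ twY (2 * m) N) :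
    TwinPair i (thX (twY (2 * m) N) (twT N) (fun x => θ (topOf x) x)) (K - 1) (twT N x) x := by
  classical
  have T := W.twSys
  have h1 := mem_twY.mp hx
  have him := W.him
  have hlev : lev (twT N x) = 2 * m + 1 := by rw [T.lev hx]; exact h1.2.1
  have hnY : twT N x ∉ twY (2 * m) N := fun h => T.nat x hx (mem_twY.mp h).1
  obtain ⟨h3, h4⟩ := W.tw_th hx
  have h5 := W.tw_kap hx
  have hth : thX (twY (2 * m) N) (twT N) (fun x => θ (topOf x) x) (twT N x) =
      θ (topOf (twT N x)) (twT N x) := thX_not hnY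
  have hth' : thX (twY (2 * m) N) (twT N) (fun x => θ (topOf x) x) x =
      θ (topOf (twT N x)) (twT N x) := thX_of hx
  refine ⟨?_, T.up x hx, ?_, ?_, ?_, ?_, ?_⟩
  · intro h
    exact T.nat x hx (h.symm ▸ h1.1)
  · rw [hth]; exact h3
  · rw [hth, hth']
  · rw [hth, hlev]; omega
  · rw [hth]
    have h6 : ct i (θ (topOf (twT N x)) (twT N x) + 1) (twT N x) ≤
        ∑ y, (if twT N x ≤ y then lev y - i else 0) := by
      rw [ct_eq_sum]
      refine Finset.sum_le_sum fun y _ => ?_
      split_ifs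
      · exact Nat.min_le_right _ _
      · exact le_rfl
    omega
  · rw [hth]
    have h6 := ct_succ i (θ (topOf (twT N x)) (twT N x) + 1) (twT N x)
    rw [hlev, Nat.min_eq_left (by omega)] at h6
    omega

/-- the data of all tops -/
lemma WE.compL (W : WE r i m K N b θ) : ∃ B : Tops P → P → Prop, ∀ t,
    Dd.CompDataL (unnat N) topOf t i (b t) (K - 1) (fun x => θ (topOf x) x)
      (fun x => x ∉ unnat N ∧ B (topOf x) x) := by
  have h : ∀ t, ∃ Bt : P → Prop, NatTop i t (b t) (N t) (θ t) Bt ∨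
      Sg.LocL i (b t) (K - 1) (N t) (θ t) Bt := by
    intro t
    rcases W.natTop t with ⟨B, h⟩ | ⟨⟨B, h⟩, -⟩
    · exact ⟨B, Or.inl h⟩
    · exact ⟨B, Or.inr h⟩
  choose B hB using h
  refine ⟨B, fun t => ?_⟩
  rcases hB t with h | h
  · exact compL_of_natTop h W.natSys _ fun _ _ => Iff.rfl
  · exact compL_of_locL h W.natSys fun _ _ => Iff.rfl

/-- truncated data at window `i` -/
theorem WE.farT (W : WE r i m K N b θ) : FarT P i (r2 (2 * m) N) (lv P i).card
    (h2 (2 * m) N θ) (K - 1) := by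
  obtain ⟨B, hB⟩ := W.compL
  have h4 := W.hi
  have him := W.him
  have h := farT_of_topsL W.gt.H.gradedBelow W.natSys (fun x hx => by
    have := W.lt_lev hx
    omega) hB W.twSys (fun x hx => W.twinPair hx)
  rw [W.sum_b] at h
  exact h

lemma WE.sq_ge (W : WE r i m K N b θ) {l : ℕ} (hl : 2 * m + 2 - i ≤ l) : K ≤ l ^ 2 := by
  have h0 := W.K_le
  have him := W.him
  obtain ⟨a, ha⟩ : ∃ a, 2 * m + 1 - i = a := ⟨_, rfl⟩
  rw [ha] at h0
  have h1 : (a + 1) ^ 2 ≤ l ^ 2 := Nat.pow_le_pow_left (by omega) 2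
  nlinarith

/-- the boundary: level `2 m + 1` or large cost -/
theorem WE.bd (W : WE r i m K N b θ) {z : P} (hz : z ∈ bdR (r2 (2 * m) N)) :
    lev z = 2 * m + 1 ∨ K ≤ cst i (h2 (2 * m) N θ) z := by
  classical
  have H := W.gt.H
  have h4 := W.hi
  have him := W.him
  have T := W.twSys
  have hzR : z ∈ unnat N := (mem_sdiff.mp (mem_filter.mp hz).1).1
  have hlz := W.lt_lev hzR
  by_cases hl : lev z = 2 * m + 1
  · exact Or.inl hl
  right
  obtain ⟨u, hu, hzu, hh⟩ := hcan_spec
    (θ := thX (twY (2 * m) N) (twT N) (fun x => θ (topOf x) x)) hz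
  have hlu := (H.covBy_iff.mp hzu).2
  have hc : ∀ k, h2 (2 * m) N θ z = k → cst i (h2 (2 * m) N θ) z = ct i k z := by
    intro k hk
    unfold ct cst ez
    rw [hk]
  have key : ∀ (u' : P) (k : ℕ), ct i k u = ct i k u' → K ≤ ct i k u' + k → k ≤ lev z - i →
      h2 (2 * m) N θ z = k → K ≤ cst i (h2 (2 * m) N θ) z := by
    intro u' k h3 h4 h5 h6
    have h7 := ct_cov (i := i) (k := k) hzu.1
    rw [Nat.min_eq_left h5] at h7
    rw [hc k h6]
    omega
  by_cases huY : u ∈ twY (2 * m) N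
  · rw [thX_of huY] at hh
    have h3 := W.tw_th huY
    exact key (twT N u) _ (ct_congr_up fun w => (T.up u huY w).symm) (W.tw_kap huY) (by omega) hh
  · have huR : u ∉ unnat N := fun h => hu (mem_sdiff.mpr ⟨h, huY⟩)
    rw [thX_not huY] at hh
    rcases W.kap huR (by omega) with hF | hI | hO
    · rw [hF.th] at hh
      have h3 := sq_le_cst (i := i) (h := h2 (2 * m) N θ) (z := z) (by omega)
        (by show h2 (2 * m) N θ z = _; rw [show h2 (2 * m) N θ z = _ from hh]; omega) (by
          intro k hk hk2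
          exact hF.two z hzR hzu.le k (by omega) (by omega))
      exact (W.sq_ge (by omega)).trans h3
    · have h5 := W.farT.le_lev z hz
      exact key u _ rfl hI (by rw [show h2 (2 * m) N θ z = _ from hh] at h5; exact h5) hh
    · rw [hc _ hh]
      exact hO.kap z hzR u hO.mem (by omega) hzu

end Pool.Agent.GaussPoset.F6

end

/-! From `Pool.Agent.W_448f6_h94.FxD` -/

section

/-!
Fold ends; the elements of level `2 m + 1` below a fold end (MP_448cb3_co, S8, `j = 14`,
window 6; after `FiC` of helper76).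
-/

namespace Pool.Agent.GaussPoset.F6

set_option linter.unusedSectionVars false

open Polynomial Finset Fi

universe u

variable {P : Type u} [Fintype P] [PartialOrder P] [DecidableEq P] {r i m K : ℕ}
  {N : Tops P → Finset P} {b : Tops P → ℕ} {θ : Tops P → P → ℕ}

lemma WE.nab_le_cn (W : WE r i m K N b θ) {v : P} (hl : lev v ≤ 2 * m) (l : ℕ) :
    nab l v ≤ cn l (topOf v : P) := by
  classical
  unfold nab cn
  refine Finset.card_le_card fun x hx => ?_
  rw [mem_filter] at hx ⊢
  refine ⟨hx.1, ?_⟩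
  rw [W.natSys.cp v x hx.2 (W.low hl)]
  exact le_topOf x

theorem WE.fold_typ (W : WE r i m K N b θ) {x : P} (hx : Fd m x) :
    ∃ Nc co, Fi.FI i m N b θ x Nc co := by
  have H := W.gt.H
  have h4 := W.hi
  have him := W.him
  obtain ⟨hl, hu, h2⟩ := hx
  have hc := W.nab_le_cn hl.le 2
  have hxl : x ∈ lowPart (2 * m) (topOf x : P) := mem_lowPart.mpr ⟨le_topOf x, hl.le⟩
  rcases W.tc (topOf x) with ⟨g1, g2, g3, g5, g6, g7, g8⟩ | ⟨Nc, co, g0, g1, g2, g3⟩ |
    ⟨Nc, co, g0, g1, g2, g3, g4⟩ | ⟨g1, g2, g3, g4, g5, g6, g7, g8, g9, g10⟩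
  · omega
  · exfalso
    have hxN := g0.strip hxl
    have hcl := g0.chart.lev x hxN
    have h0 : (co x).1 = 0 ∨ (co x).2 = 0 := by
      by_contra hcon
      have := chart_inner_uc g0.chart H hxN (by omega) (by omega)
      omega
    rw [nab_chart g0.chart hxN] at h2
    have := card_cellsAt_true (l := 2) (p := co x) (by omega)
    omega
  · have hxN := g0.strip hxl
    have hcl := g0.chart.lev x hxN
    have hS : (co x).1 ≤ (co x).2 := g0.chart.mem x hxN
    have h5 : (co x).1 ≠ 0 := by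
      intro h5
      rw [nab_chart g0.chart hxN] at h2
      have := card_cellsAt_shift (l := 2) (p := co x) hS (by omega)
      omega
    have h6 : (co x).1 = (co x).2 := by
      by_contra hcon
      have := chartS_inner_uc g0.chart H hxN (by omega) (by omega)
      omega
    exact ⟨Nc, co, g0, g1, g2, g3, hxN, Prod.ext (by simp only; omega) (by simp only; omega), g4⟩
  · omega

lemma WE.fold_th (W : WE r i m K N b θ) {x : P} (hx : Fd m x) :
    θ (topOf x) x = (m - 2 * (i / 2)) + (m - i) := by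
  obtain ⟨Nc, co, h⟩ := W.fold_typ hx
  have him := W.him
  have h4 := W.hi
  rw [h.th]
  unfold thS
  rw [if_neg (fold_not_junk h.stair.chart h.mem (by rw [h.cell]; show 1 ≤ m; omega)), h.cell]

lemma WE.fold_prof (W : WE r i m K N b θ) {x : P} (hx : Fd m x) : Prof m x (pF m) := by
  obtain ⟨Nc, co, h⟩ := W.fold_typ hx
  intro d hd
  rw [nab_chart h.stair.chart h.mem, h.cell]
  have := card_cellsAt_shift (l := 2 * m - d) (p := (m, m)) le_rfl (by simp only; omega)
  simp only at this
  unfold pF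
  omega

/-- natural elements below a fold end -/
lemma WE.nat_child (W : WE r i m K N b θ) {f : P} {Nc : Finset P} {co : P → ℕ × ℕ}
    (T : Fi.FI i m N b θ f Nc co) {y : P} (hy : y ∉ unnat N) (hyf : y ⋖ f) :
    ∃ x' ∈ Nc, co x' = (m - 1, m + 1) ∧ y ⋖ x' := by
  have H := W.gt.H
  have HN := W.natSys
  have him := W.him
  have h4 := W.hi
  have h1 : y ∈ N (topOf y) := HN.mem_iff.mpr ⟨hy, rfl⟩
  rw [HN.cp y f hyf.1.le hy, T.nat, mem_natS] at h1
  have hyN : y ∈ Nc := by
    rcases h1 with h | h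
    · exact h
    · exfalso
      obtain ⟨x1, hE, hj⟩ := mem_junk.mp h
      have hj2 := (mem_jset.mp hj).2
      have e3 := hE.lt f T.mem (by rw [T.cell]; show 1 ≤ m; omega)
      rw [T.cell] at e3
      simp only at e3
      rcases hj2 f hyf.1.le with h3 | h3
      · have e1 := (T.stair.chart.le_iff f T.mem x1 hE.mem).mp h3
        rw [T.cell] at e1
        have e2 := e1.2
        simp only at e2
        omega
      · have e1 := (T.stair.chart.le_iff x1 hE.mem f T.mem).mp h3
        rw [T.cell] at e1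
        have e2 := e1.1
        have h0 := hE.fst
        simp only at e2
        omega
  have hS : (co y).1 ≤ (co y).2 := T.stair.chart.mem y hyN
  have hp := (chart_cov T.stair.chart H hyN T.mem).mp hyf
  rw [T.cell] at hp
  have hcy : co y = (m, m + 1) := by
    rcases hp with ⟨p1, p2⟩ | ⟨p1, p2⟩
    · simp only at p1 p2
      omega
    · simp only at p1 p2
      exact Prod.ext (by simp only; omega) (by simp only; omega)
  obtain ⟨x', hx', hcx'⟩ := T.stair.chart.low y hyN (m - 1, m + 1) (by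
    rw [hcy]
    exact ⟨Nat.sub_le _ _, le_rfl⟩) (show m - 1 ≤ m + 1 by omega)
  refine ⟨x', hx', hcx', ?_⟩
  rw [chart_cov T.stair.chart H hyN hx', hcx', hcy]
  exact Or.inl ⟨by simp only; omega, rfl⟩

/-- natural elements and twins below a fold end -/
theorem WE.fold_child (W : WE r i m K N b θ) {z f : P} (hf : Fd m f) (hzf : z ⋖ f)
    (hz : z ∉ r2 (2 * m) N) : ∃ Nc co x', Fi.FI i m N b θ f Nc co ∧ x' ∈ Nc ∧
      co x' = (m - 1, m + 1) ∧ z ⋖ x' := by
  obtain ⟨Nc, co, T⟩ := W.fold_typ hf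
  by_cases hY : z ∈ twY (2 * m) N
  · obtain ⟨x', h2, h3, h4⟩ := W.nat_child T (W.twSys.nat z hY) ((W.twSys.cov hY).mpr hzf)
    exact ⟨Nc, co, x', T, h2, h3, (W.twSys.cov hY).mp h4⟩
  · obtain ⟨x', h2, h3, h4⟩ := W.nat_child T (fun h => hz (mem_sdiff.mpr ⟨h, hY⟩)) hzf
    exact ⟨Nc, co, x', T, h2, h3, h4⟩

/-- pendants below a fold end are in `r2` -/
theorem WE.pend_r2 (W : WE r i m K N b θ) {z f : P} (hf : Fd m f) (hp : Pend z f) :
    z ∈ r2 (2 * m) N := by
  have him := W.him
  have h4 := W.hi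
  by_contra hz
  obtain ⟨Nc, co, x', T, h1, h2, h3⟩ := W.fold_child hf hp.1 hz
  have h5 := hp.2 x' h3
  rw [h5, T.cell] at h2
  simp only [Prod.mk.injEq] at h2
  omega

/-- joins below different tops are in `r2` -/
theorem WE.join_r2 (W : WE r i m K N b θ) {z x x' : P} (ht : topOf x ≠ topOf x') (hzx : z ⋖ x)
    (hzx' : z ⋖ x') : z ∈ r2 (2 * m) N := by
  have HN := W.natSys
  refine mem_sdiff.mpr ⟨?_, fun hY => ?_⟩
  · by_contra h
    exact ht ((HN.cp z x hzx.1.le h).symm.trans (HN.cp z x' hzx'.1.le h))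
  · have h := W.twSys.nat z hY
    exact ht ((HN.cp _ x ((W.twSys.cov hY).mpr hzx).1.le h).symm.trans
      (HN.cp _ x' ((W.twSys.cov hY).mpr hzx').1.le h))

/-- joins of a fold end with a single-up end of the same component are in `r2` -/
theorem WE.cc_r2 (W : WE r i m K N b θ) {z f x' : P} (hf : Fd m f) (hu : (Win.uc x').card = 1)
    (hne : f ≠ x') (hzx : z ⋖ f) (hzx' : z ⋖ x') : z ∈ r2 (2 * m) N := by
  have H := W.gt.H
  have him := W.him
  have h4 := W.hi
  by_contra hz
  obtain ⟨Nc, co, y, T, h1, h2, h3⟩ := W.fold_child hf hzx hz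
  have hyf : y ≠ f := by
    rintro rfl
    rw [T.cell] at h2
    simp only [Prod.mk.injEq] at h2
    omega
  have hyx : y = x' := (uc_pair H hzx hzx' hne h3).resolve_left hyf
  subst hyx
  have := chartS_inner_uc T.stair.chart H h1 (by rw [h2]; show 1 ≤ m - 1; omega)
    (by rw [h2]; show m - 1 < m + 1; omega)
  omega

end Pool.Agent.GaussPoset.F6

end

/-! From `Pool.Agent.W_448f6_h94.FxE` -/

section

/-!
The unnatural elements of level `2 m + 1`: kinds, profiles, labels (MP_448cb3_co, S8, `j = 14`,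
window 6; after `FiD`, `FiF` of helper76).
-/

namespace Pool.Agent.GaussPoset.F6

set_option linter.unusedSectionVars false

open Polynomial Finset Fi

universe u

variable {P : Type u} [Fintype P] [PartialOrder P] [DecidableEq P] {r i m K : ℕ}
  {N : Tops P → Finset P} {b : Tops P → ℕ} {θ : Tops P → P → ℕ}

/-- the kinds of elements of level `2 m` -/
theorem WE.kind (W : WE r i m K N b θ) {x : P} (hl : lev x = 2 * m) :
    Fi.Full i m N θ x ∨ Fd m x ∨ Ot i m K N θ x ∨ ((Win.uc x).card = 2 ∧ NopT m (topOf x)) := by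
  have H := W.gt.H
  have him := W.him
  have h4 := W.hi
  have hlow := W.low hl.le
  have hxt : x ∈ N (topOf x) := W.natSys.mem_iff.mpr ⟨hlow, rfl⟩
  rcases W.tc (topOf x) with ⟨g1, g2, g3, g5, g6, g7, g8⟩ | ⟨Nc, co, g0, g1, g2, g3⟩ |
    ⟨Nc, co, g0, g1, g2, g3, g4⟩ | ⟨g1, g2, g3, g4, g5, g6, g7, g8, g9, g10⟩
  · exact Or.inl (W.light_case hlow g1 g2)
  · rcases W.rect_case hlow g0 g1 g2 g3 with h | ⟨Nc', co', h⟩
    · exact Or.inl h
    · exact Or.inr (Or.inr (Or.inr ⟨chart_inner_uc h.rect.chart H h.mem h.fst h.snd, h.nop⟩))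
  · rcases W.stair_case hlow g0 g1 g2 g3 g4 with h | ⟨Nc', co', h⟩
    · exact Or.inl h
    · have h1 := h.stair.chart.lev x h.mem
      have h2 : (co' x).1 ≤ (co' x).2 := h.stair.chart.mem x h.mem
      have h0 := h.fst
      by_cases h3 : (co' x).1 = (co' x).2
      · refine Or.inr (Or.inl ⟨hl, ?_, ?_⟩)
        · rw [Wd.uc_card_nab H (by omega), nab_chart h.stair.chart h.mem]
          have := card_cellsAt_shift (l := lev x - 1) (p := co' x) h2 (by omega)
          omega
        · rw [nab_chart h.stair.chart h.mem]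
          have := card_cellsAt_shift (l := 2) (p := co' x) h2 (by omega)
          omega
      · exact Or.inr (Or.inr (Or.inr ⟨chartS_inner_uc h.stair.chart H h.mem h.fst (by omega),
          h.nop⟩))
  · exact Or.inr (Or.inr (Or.inl ⟨hxt, g5, g6, g7, g9, g10⟩))

/-- two neighbours of the level `2 m`: the element is natural or a twin -/
theorem WE.near (W : WE r i m K N b θ) {z x x' : P} (hz : z ∈ r2 (2 * m) N)
    (hl : lev z = 2 * m + 1) (hzx : z ⋖ x) (hzx' : z ⋖ x') (hne : x ≠ x')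
    (h1 : ucv x x' = 1) : False := by
  classical
  have H := W.gt.H
  have HN := W.natSys
  have h4 := W.hi
  have him := W.him
  have hlx : lev x = 2 * m := by
    have := (H.covBy_iff.mp hzx).2
    omega
  have hlx' : lev x' = 2 * m := by
    have := (H.covBy_iff.mp hzx').2
    omega
  rw [mem_sdiff] at hz
  have hzU := hz.1
  obtain ⟨p, hp⟩ := Finset.card_eq_one.mp h1
  have hp2 : x ⋖ p ∧ x' ⋖ p := by
    have : p ∈ (univ.filter (fun y : P => x ⋖ y ∧ x' ⋖ y)) := by rw [hp]; simp
    simpa using this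
  have hxt : topOf x = topOf p := HN.cp x p hp2.1.le (W.low hlx.le)
  have hxt' : topOf x' = topOf p := HN.cp x' p hp2.2.le (W.low hlx'.le)
  have hxle : x ≤ (topOf p : P) := by rw [← hxt]; exact le_topOf x
  have hxle' : x' ≤ (topOf p : P) := by rw [← hxt']; exact le_topOf x'
  have hxN : x ∈ N (topOf p) := HN.mem_iff.mpr ⟨W.low hlx.le, hxt⟩
  have hxN' : x' ∈ N (topOf p) := HN.mem_iff.mpr ⟨W.low hlx'.le, hxt'⟩
  have twin : ∀ y : P, y ∉ unnat N → y ⋖ x → y ⋖ x' → False := fun y hy hyx hyx' =>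
    hz.2 (mem_twY.mpr ⟨hzU, hl, y, hy, up_of_pair H hzx hzx' hyx hyx' hne⟩)
  rcases W.tc (topOf p) with ⟨g1, g2, g3, g5, g6, g7, g8⟩ | ⟨Nc, co, g0, g1, g2, g3⟩ |
    ⟨Nc, co, g0, g1, g2, g3, g4⟩ | ⟨g1, g2, g3, g4, g5, g6, g7, g8, g9, g10⟩
  · refine mem_unnat.mp hzU (topOf p) ?_
    rw [g1, mem_onlyB]
    intro s hs hzs
    have hne2 : z ≠ s := by rintro rfl; omega
    obtain ⟨v, hv, hvs⟩ := Hul.exists_cov (lt_of_le_of_ne hzs hne2)
    rcases uc_pair H hzx hzx' hne hv with h | h
    · rw [h] at hvs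
      exact HN.top_eq hxN hs hvs
    · rw [h] at hvs
      exact HN.top_eq hxN' hs hvs
  · have hx : x ∈ Nc := g0.strip (mem_lowPart.mpr ⟨hxle, hlx.le⟩)
    have hx' : x' ∈ Nc := g0.strip (mem_lowPart.mpr ⟨hxle', hlx'.le⟩)
    have hpN := g0.chart.up x hx p hp2.1.le
    have e1 := (chart_cov g0.chart H hx hpN).mp hp2.1
    have e2 := (chart_cov g0.chart H hx' hpN).mp hp2.2
    have hcne : co x ≠ co x' := fun h => hne (g0.chart.inj x hx x' hx' h)
    have hzN : z ∉ Nc := fun h => mem_unnat.mp hzU (topOf p) (by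
      rw [g1]
      exact mem_natR.mpr (Or.inl h))
    have key : ∀ x x' : P, x ∈ Nc → x' ∈ Nc → z ⋖ x → z ⋖ x' →
        co x = ((co p).1 + 1, (co p).2) → co x' = ((co p).1, (co p).2 + 1) →
        ∃ y, y ∉ unnat N ∧ y ⋖ x ∧ y ⋖ x' := by
      intro x x' hx hx' hzx hzx' hcx hcx'
      obtain ⟨y, hy, -, hyx, hyx', hyz⟩ := max_pair g0.chart g0.max H hzN hx hx' hzx hzx' hcx
        hcx' trivial
      refine ⟨y, (HN.mem_iff (t := topOf p).mp ?_).1, hyx, hyx'⟩
      rw [g1]
      exact mem_natR.mpr (Or.inl hy)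
    rcases e1 with e1 | e1
    · rcases e2 with e2 | e2
      · exact hcne (Prod.ext (by omega) (by omega))
      · obtain ⟨y, h3, h4, h5⟩ := key x x' hx hx' hzx hzx' (Prod.ext e1.1 e1.2)
          (Prod.ext e2.1 e2.2)
        exact twin y h3 h4 h5
    · rcases e2 with e2 | e2
      · obtain ⟨y, h3, h4, h5⟩ := key x' x hx' hx hzx' hzx (Prod.ext e2.1 e2.2)
          (Prod.ext e1.1 e1.2)
        exact twin y h3 h5 h4
      · exact hcne (Prod.ext (by omega) (by omega))
  · have hx : x ∈ Nc := g0.strip (mem_lowPart.mpr ⟨hxle, hlx.le⟩)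
    have hx' : x' ∈ Nc := g0.strip (mem_lowPart.mpr ⟨hxle', hlx'.le⟩)
    have hpN := g0.chart.up x hx p hp2.1.le
    have e1 := (chart_cov g0.chart H hx hpN).mp hp2.1
    have e2 := (chart_cov g0.chart H hx' hpN).mp hp2.2
    have hcne : co x ≠ co x' := fun h => hne (g0.chart.inj x hx x' hx' h)
    have hzN : z ∉ Nc := fun h => mem_unnat.mp hzU (topOf p) (by
      rw [g1]
      exact mem_natS.mpr (Or.inl h))
    have hSx : (co x).1 ≤ (co x).2 := g0.chart.mem x hx
    have hSx' : (co x').1 ≤ (co x').2 := g0.chart.mem x' hx'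
    have key : ∀ x x' : P, x ∈ Nc → x' ∈ Nc → z ⋖ x → z ⋖ x' → (co x).1 ≤ (co x).2 →
        co x = ((co p).1 + 1, (co p).2) → co x' = ((co p).1, (co p).2 + 1) →
        ∃ y, y ∉ unnat N ∧ y ⋖ x ∧ y ⋖ x' := by
      intro x x' hx hx' hzx hzx' hS hcx hcx'
      obtain ⟨y, hy, -, hyx, hyx', hyz⟩ := max_pair g0.chart g0.max H hzN hx hx' hzx hzx' hcx
        hcx' (by
          rw [hcx] at hS
          simp only at hS ⊢
          omega)
      refine ⟨y, (HN.mem_iff (t := topOf p).mp ?_).1, hyx, hyx'⟩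
      rw [g1]
      exact mem_natS.mpr (Or.inl hy)
    rcases e1 with e1 | e1
    · rcases e2 with e2 | e2
      · exact hcne (Prod.ext (by omega) (by omega))
      · obtain ⟨y, h3, h4, h5⟩ := key x x' hx hx' hzx hzx' hSx (Prod.ext e1.1 e1.2)
          (Prod.ext e2.1 e2.2)
        exact twin y h3 h4 h5
    · rcases e2 with e2 | e2
      · obtain ⟨y, h3, h4, h5⟩ := key x' x hx' hx hzx' hzx hSx' (Prod.ext e2.1 e2.2)
          (Prod.ext e1.1 e1.2)
        exact twin y h3 h5 h4
      · exact hcne (Prod.ext (by omega) (by omega))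
  · exact hne (g5 x x' hxle hxle' hlx hlx')

/-- the second single-up end of the component of a fold end -/
theorem WE.stair_single (W : WE r i m K N b θ) {x x' : P} (hx : Fd m x) (hlx' : lev x' = 2 * m)
    (hxt : topOf x' = topOf x) (hne : x ≠ x') (h1 : (Win.uc x').card = 1) :
    Prof m x' (gD []) ∧ ∃ Nc co, Fi.FI i m N b θ x Nc co ∧ x' ∈ Nc ∧ co x' = (0, 2 * m) := by
  have H := W.gt.H
  have h4 := W.hi
  have him := W.him
  obtain ⟨Nc, co, h⟩ := W.fold_typ hx
  have hx' : x' ∈ Nc := h.stair.strip (mem_lowPart.mpr ⟨by rw [← hxt]; exact le_topOf x',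
    hlx'.le⟩)
  have h2 := h.stair.chart.lev x' hx'
  have h3 : (co x').1 ≤ (co x').2 := h.stair.chart.mem x' hx'
  have h5 : (co x').1 = 0 := by
    by_contra h5
    by_cases h6 : (co x').1 = (co x').2
    · refine hne (h.stair.chart.inj x h.mem x' hx' ?_)
      rw [h.cell]
      exact Prod.ext (by simp only; omega) (by simp only; omega)
    · have := chartS_inner_uc h.stair.chart H hx' (by omega) (by omega)
      omega
  refine ⟨fun d hd => ?_, Nc, co, h, hx', Prod.ext h5 (by simp only; omega)⟩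
  rw [nab_chart h.stair.chart hx']
  have := card_cellsAt_shift (l := 2 * m - d) (p := co x') h3 (by omega)
  have h7 : gD [] d = 0 := rfl
  omega

/-- the profiles of the full single-up elements -/
theorem WE.full_prof (W : WE r i m K N b θ) {v : P} (hl : lev v = 2 * m)
    (hF : Fi.Full i m N θ v) (hne : 2 * m - i ≠ 4) (h1 : (Win.uc v).card = 1) : ∃ p ∈ PL i m, Prof m v (gD p) := by
  have H := W.gt.H
  have h4 := W.hi
  have him := W.him
  have hnil : ([] : List ℕ) ∈ PL i m := by
    unfold PL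
    simp
  rcases W.tc (topOf v) with ⟨g1, g2, g3, g5, g6, g7, g8⟩ | ⟨Nc, co, g0, g1, g2, g3⟩ |
    ⟨Nc, co, g0, g1, g2, g3, g4⟩ | ⟨g1, g2, g3, g4, g5, g6, g7, g8, g9, g10⟩
  · exact g7 v (le_topOf v) hl h1
  · have hv : v ∈ Nc := g0.strip (mem_lowPart.mpr ⟨le_topOf v, hl.le⟩)
    have hcl := g0.chart.lev v hv
    refine ⟨[], hnil, fun d hd => ?_⟩
    have h3 : (co v).1 = 0 ∨ (co v).2 = 0 := by
      by_contra hcon
      have := chart_inner_uc g0.chart H hv (by omega) (by omega)
      omega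
    rw [nab_chart g0.chart hv]
    have := card_cellsAt_true (l := 2 * m - d) (p := co v) (by omega)
    have h8 : gD [] d = 0 := rfl
    omega
  · have hv : v ∈ Nc := g0.strip (mem_lowPart.mpr ⟨le_topOf v, hl.le⟩)
    have hcl := g0.chart.lev v hv
    have hS : (co v).1 ≤ (co v).2 := g0.chart.mem v hv
    have h3 : (co v).1 = 0 := by
      by_contra h3
      by_cases h5 : (co v).1 = (co v).2
      · have hFd : Fd m v := by
          refine ⟨hl, h1, ?_⟩
          rw [nab_chart g0.chart hv]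
          have := card_cellsAt_shift (l := 2) (p := co v) hS (by omega)
          omega
        have e1 := W.fold_th hFd
        have e2 := hF.th
        omega
      · have := chartS_inner_uc g0.chart H hv (by omega) (by omega)
        omega
    refine ⟨[], hnil, fun d hd => ?_⟩
    rw [nab_chart g0.chart hv]
    have := card_cellsAt_shift (l := 2 * m - d) (p := co v) hS (by omega)
    have h8 : gD [] d = 0 := rfl
    omega
  · have e1 := (g7 v (le_topOf v) hl).2.1
    have e2 := hF.th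
    rw [hl] at e2
    omega

/-- the label of a boundary element of level `2 m + 1` -/
lemma WE.h2_eqI (W : WE r i m K N b θ) {z x : P} (hz : z ∈ r2 (2 * m) N) (hl : lev z = 2 * m + 1)
    (hzx : z ⋖ x) (hmin : ∀ y, z ⋖ y → θ (topOf x) x ≤ θ (topOf y) y) :
    h2 (2 * m) N θ z = θ (topOf x) x + 1 := by
  classical
  have H := W.gt.H
  have hlev : ∀ y, z ⋖ y → lev y = 2 * m := by
    intro y hy
    have := (H.covBy_iff.mp hy).2
    omega
  have hnY : ∀ y, z ⋖ y → y ∉ twY (2 * m) N := by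
    intro y hy h
    have h1 := hlev y hy
    have h2 := (mem_twY.mp h).2.1
    omega
  have hnR : ∀ y, z ⋖ y → y ∉ r2 (2 * m) N := fun y hy h =>
    W.low (hlev y hy).le (mem_sdiff.mp h).1
  have hbd : z ∈ bdR (r2 (2 * m) N) := mem_filter.mpr ⟨hz, x, hnR x hzx, hzx⟩
  refine le_antisymm ?_ ?_
  · refine (hcan_le (θ := thX (twY (2 * m) N) (twT N) (fun x => θ (topOf x) x)) (hnR x hzx)
      hzx).trans ?_
    rw [thX_not (hnY x hzx)]
  · obtain ⟨y, hy, hzy, hh⟩ := hcan_spec
      (θ := thX (twY (2 * m) N) (twT N) (fun x => θ (topOf x) x)) hbd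
    rw [thX_not (hnY y hzy)] at hh
    have h3 := hmin y hzy
    show _ ≤ hcan _ _ z
    omega

lemma WE.mem_bd (W : WE r i m K N b θ) {z : P} (hz : z ∈ r2 (2 * m) N) (hl : lev z = 2 * m + 1) :
    z ∈ bdR (r2 (2 * m) N) := by
  classical
  have hzt : z < (topOf z : P) := lt_of_le_of_ne (le_topOf z) (by
    intro h
    have := (topOf z).2
    rw [← h] at this
    omega)
  obtain ⟨x, hzx, -⟩ := Hul.exists_cov hzt
  refine mem_filter.mpr ⟨hz, x, fun h => ?_, hzx⟩
  have h1 := (W.gt.H.covBy_iff.mp hzx).2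
  exact W.low (by omega) (mem_sdiff.mp h).1

/-- joins of natural elements of level `2 m` of different tops -/
lemma WE.nab_joinI (W : WE r i m K N b θ) {z x x' : P} (hl : lev z = 2 * m + 1) (hzx : z ⋖ x)
    (hzx' : z ⋖ x') (ht : topOf x ≠ topOf x') {l : ℕ} (hl2 : l ≤ 2 * m) :
    nab l z = nab l x + nab l x' := by
  have H := W.gt.H
  have HN := W.natSys
  have h1 := (H.covBy_iff.mp hzx).2
  have h2 := (H.covBy_iff.mp hzx').2
  exact nab_join_eq HN H (HN.mem_iff.mpr ⟨W.low (by omega), rfl⟩)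
    (HN.mem_iff.mpr ⟨W.low (by omega), rfl⟩) ht hzx hzx' (by omega)

end Pool.Agent.GaussPoset.F6

end

/-! From `Pool.Agent.W_448f6_h94.FxF` -/

section

/-!
The table of the elements of level `2 m + 1` (MP_448cb3_co, S8, `j = 14`, window 6).
-/

namespace Pool.Agent.GaussPoset.F6

set_option linter.unusedSectionVars false

open Polynomial Finset Fi

universe u

variable {P : Type u} [Fintype P] [PartialOrder P] [DecidableEq P] {r i m K : ℕ}
  {N : Tops P → Finset P} {b : Tops P → ℕ} {θ : Tops P → P → ℕ}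

/-- the table -/
inductive RwE (i m K : ℕ) (N : Tops P → Finset P) (θ : Tops P → P → ℕ) (z : P) : Prop
  | penF (x : P) (hx : Fd m x) (hp : Pend z x)
      (hn : NQ i m N θ z (kF i m) (fun d => 1 + pF m d))
  | ff (x x' : P) (hx : Fd m x) (hx' : Fd m x') (ht : topOf x ≠ topOf x') (hzx : z ⋖ x)
      (hzx' : z ⋖ x') (hn : NQ i m N θ z (kF i m) (fun d => (1 + pF m d) + (1 + pF m d)))
  | fv (x x' : P) (hx : Fd m x) (h1 : (Win.uc x').card = 1)
      (ht : topOf x ≠ topOf x') (hzx : z ⋖ x) (hzx' : z ⋖ x') (p : List ℕ) (hp : p ∈ PL i m)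
      (hpr : Prof m x' (gD p))
      (hn : NQ i m N θ z (kF i m) (fun d => (1 + pF m d) + (1 + gD p d)))
  | cc (x x' : P) (hx : Fd m x) (h1 : (Win.uc x').card = 1) (ht : topOf x' = topOf x)
      (hne : x ≠ x') (hzx : z ⋖ x) (hzx' : z ⋖ x')
  | big (h : K ≤ cst i (h2 (2 * m) N θ) z)

/-- joins of the end of E7 and an end with a large threshold -/
lemma WE.big_ot (W : WE r i m K N b θ) (hm5 : i + 5 ≤ 2 * m)
    (n3 : K ≤ vsQ i m 5 (fun d => (1 + gD pE d) + 1) + 5) {z x x' : P}
    (hz : z ∈ r2 (2 * m) N) (hl : lev z = 2 * m + 1) (hzx : z ⋖ x) (hzx' : z ⋖ x')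
    (hne : x ≠ x') (ht : topOf x ≠ topOf x') (hx : Ot i m K N θ x)
    (hx' : 4 ≤ θ (topOf x') x') : K ≤ cst i (h2 (2 * m) N θ) z := by
  have H := W.gt.H
  have hlx := (H.covBy_iff.mp hzx).2
  have hlx' := (H.covBy_iff.mp hzx').2
  obtain ⟨hpr, hth, -⟩ := hx.prof x (le_topOf x) (by omega)
  have hlab : h2 (2 * m) N θ z = 5 := by
    rw [W.h2_eqI hz hl hzx (fun y hy => ?_), hth]
    rcases uc_pair H hzx hzx' hne hy with e | e
    · rw [e]
    · rw [e, hth]; exact hx'
  have hn : NQ i m N θ z 5 (fun d => (1 + gD pE d) + nab (2 * m - d) x') := by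
    refine NQ.mk' hl (by omega) hlab fun d hd => ?_
    rw [W.nab_joinI hl hzx hzx' ht (by omega), hpr d (by omega)]
  rw [hn.cst]
  refine n3.trans (Nat.add_le_add_right (vsQ_mono fun d => ?_) 5)
  exact Nat.add_le_add_left (one_le_nab (by omega)) _

/-- the table of the elements of level `2 m + 1` -/
theorem WE.rows (W : WE r i m K N b θ) (hkF : i + kF i m ≤ 2 * m) (hk4 : kF i m ≤ 5)
    (hm5 : i + 5 ≤ 2 * m) (n1 : K ≤ (2 * m + 1 - i) ^ 2)
    (n2 : K ≤ vsQ i m (kF i m) (fun d => (1 + pF m d) + (1 + gD pE d)) + kF i m)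
    (n3 : K ≤ vsQ i m 5 (fun d => (1 + gD pE d) + 1) + 5)
    {z : P} (hz : z ∈ r2 (2 * m) N) (hl : lev z = 2 * m + 1) : RwE i m K N θ z := by
  classical
  have H := W.gt.H
  have h4 := W.hi
  have him := W.him
  have hmi := W.hmi
  have hzU : z ∈ unnat N := (mem_sdiff.mp hz).1
  have hlev : ∀ y, z ⋖ y → lev y = 2 * m := by
    intro y hy
    have := (H.covBy_iff.mp hy).2
    omega
  have hFle : (m - 2 * (i / 2)) + (m - i) ≤ 2 * m - i := by omega
  have hzt : z < (topOf z : P) := lt_of_le_of_ne (le_topOf z) (by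
    intro h
    have := (topOf z).2
    rw [← h] at this
    omega)
  obtain ⟨x, hzx, hxt⟩ := Hul.exists_cov hzt
  have hlx := hlev x hzx
  have full : (∀ y, z ⋖ y → Fi.Full i m N θ y) → RwE i m K N θ z := by
    intro h
    refine RwE.big (n1.trans ?_)
    have h3 := W.h2_eqI hz hl hzx (fun y hy => by
      rw [(h x hzx).th, (h y hy).th, hlev x hzx, hlev y hy])
    rw [(h x hzx).th, hlev x hzx] at h3
    have h5 := sq_le_cst (i := i) (h := h2 (2 * m) N θ) (z := z) (by omega)
      (by rw [h3]; omega) (by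
        intro k hk hk2
        exact (h x hzx).two z hzU hzx.le k (by omega) (by rw [hlev x hzx]; omega))
    rwa [hl] at h5
  have ot : ∀ x, Ot i m K N θ x → z ⋖ x → ¬ Pend z x := by
    intro x h hzx hp
    refine mem_unnat.mp hzU (topOf x) (h.pend z x hl (le_topOf x) (hlev x hzx) hp)
  by_cases honly : ∀ y, z ⋖ y → y = x
  · rcases W.kind hlx with h | h | h | h
    · refine full fun y hy => ?_
      rw [honly y hy]
      exact h
    · refine RwE.penF x h ⟨hzx, honly⟩ (NQ.mk' hl hkF ?_ fun d hd => ?_)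
      · rw [W.h2_eqI hz hl hzx (fun y hy => by rw [honly y hy]), W.fold_th h]
        rfl
      · rw [nab_pend ⟨hzx, honly⟩ (by omega)]
        exact W.fold_prof h d (by omega)
    · exact absurd ⟨hzx, honly⟩ (ot x h hzx)
    · exact absurd honly (h.2 x z (le_topOf x) hlx h.1 hzx)
  · push Not at honly
    obtain ⟨x', hzx', hne'⟩ := honly
    have hne : x ≠ x' := Ne.symm hne'
    have hlx' := hlev x' hzx'
    obtain ⟨j, hj⟩ : ∃ j, 2 * m = j + 1 := ⟨2 * m - 1, by omega⟩
    have hgt := W.gt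
    rw [hj] at hgt
    rcases (Win.near_level' hgt (by omega)).1 z x x' (by omega) hzx hzx' hne with
      h7 | ⟨h7, h8, -⟩
    · exact (W.near hz hl hzx hzx' hne h7).elim
    · by_cases ht : topOf x = topOf x'
      · have hQ : ∀ y, z ⋖ y → ¬ Ot i m K N θ y := by
          intro y hy hQ
          rcases uc_pair H hzx hzx' hne hy with h | h
          · subst h
            exact hne (hQ.single y x' (le_topOf y) (by rw [ht]; exact le_topOf x') hlx hlx')
          · subst h
            exact hne (hQ.single x y (by rw [← ht]; exact le_topOf x) (le_topOf y) hlx hlx')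
        rcases W.kind hlx with h | h | h | h
        · rcases W.kind hlx' with h' | h' | h' | h'
          · refine full fun y hy => ?_
            rcases uc_pair H hzx hzx' hne hy with e | e
            · rw [e]; exact h
            · rw [e]; exact h'
          · exact RwE.cc x' x h' h7 ht hne' hzx' hzx
          · exact (hQ x' hzx' h').elim
          · omega
        · exact RwE.cc x x' h h8 ht.symm hne hzx hzx'
        · exact (hQ x hzx h).elim
        · omega
      · -- a fold end and another end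
        have fold : ∀ x x' : P, z ⋖ x → z ⋖ x' → x ≠ x' → topOf x ≠ topOf x' → Fd m x →
            (Win.uc x').card = 1 → lev x' = 2 * m → RwE i m K N θ z := by
          intro x x' hzx hzx' hne ht hx h8 hlx'
          rcases W.kind hlx' with h | h | h | h
          · obtain ⟨p, hp, hpr⟩ := W.full_prof hlx' h (by omega) h8
            refine RwE.fv x x' hx h8 ht hzx hzx' p hp hpr (NQ.mk' hl hkF ?_ fun d hd => ?_)
            · rw [W.h2_eqI hz hl hzx (fun y hy => ?_), W.fold_th hx]
              · rfl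
              · rcases uc_pair H hzx hzx' hne hy with e | e
                · rw [e]
                · rw [e, W.fold_th hx, h.th, hlx']
                  exact hFle
            · rw [W.nab_joinI hl hzx hzx' ht (by omega), W.fold_prof hx d (by omega),
                hpr d (by omega)]
          · refine RwE.ff x x' hx h ht hzx hzx' (NQ.mk' hl hkF ?_ fun d hd => ?_)
            · rw [W.h2_eqI hz hl hzx (fun y hy => ?_), W.fold_th hx]
              · rfl
              · rcases uc_pair H hzx hzx' hne hy with e | e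
                · rw [e]
                · rw [e, W.fold_th hx, W.fold_th h]
            · rw [W.nab_joinI hl hzx hzx' ht (by omega), W.fold_prof hx d (by omega),
                W.fold_prof h d (by omega)]
          · obtain ⟨hpr, hth, -⟩ := h.prof x' (le_topOf x') hlx'
            have hn : NQ i m N θ z (kF i m) (fun d => (1 + pF m d) + (1 + gD pE d)) := by
              refine NQ.mk' hl hkF ?_ fun d hd => ?_
              · rw [W.h2_eqI hz hl hzx (fun y hy => ?_), W.fold_th hx]
                · rfl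
                · rcases uc_pair H hzx hzx' hne hy with e | e
                  · rw [e]
                  · rw [e, W.fold_th hx, hth]
                    unfold kF at hk4
                    omega
              · rw [W.nab_joinI hl hzx hzx' ht (by omega), W.fold_prof hx d (by omega),
                  hpr d (by omega)]
            refine RwE.big ?_
            rw [hn.cst]
            exact n2
          · omega
        rcases W.kind hlx with h | h | h | h
        · rcases W.kind hlx' with h' | h' | h' | h'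
          · refine full fun y hy => ?_
            rcases uc_pair H hzx hzx' hne hy with e | e
            · rw [e]; exact h
            · rw [e]; exact h'
          · exact fold x' x hzx' hzx hne' (Ne.symm ht) h' h7 hlx
          · exact RwE.big (W.big_ot hm5 n3 hz hl hzx' hzx hne' (Ne.symm ht) h' (by
              rw [h.th, hlx]; omega))
          · omega
        · exact fold x x' hzx hzx' hne ht h h8 hlx'
        · rcases W.kind hlx' with h' | h' | h' | h'
          · exact RwE.big (W.big_ot hm5 n3 hz hl hzx hzx' hne ht h (by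
              rw [h'.th, hlx']; omega))
          · exact fold x' x hzx' hzx hne' (Ne.symm ht) h' h7 hlx
          · exact RwE.big (W.big_ot hm5 n3 hz hl hzx hzx' hne ht h (by
              rw [(h'.prof x' (le_topOf x') hlx').2.1]))
          · omega
        · omega

end Pool.Agent.GaussPoset.F6

end

/-! From `Pool.Agent.W_448f6_h94.FxG` -/

section

/-!
The ladder at window 6, level 14, energies up to 75 (MP_448cb3_co, S8, `j = 14`).
-/

namespace Pool.Agent.GaussPoset.F6

set_option linter.unusedSectionVars false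

open Polynomial Finset Fi

universe u

variable {P : Type u} [Fintype P] [PartialOrder P] [DecidableEq P] {r i m K : ℕ}
  {N : Tops P → Finset P} {b : Tops P → ℕ} {θ : Tops P → P → ℕ}

/-- one step: the elements of cost `n` with the largest drop `δ` have one sign -/
theorem WE.kill (W : WE r i m K N b θ) {n δ : ℕ} (hn : n < K - 1) (hδ : 1 ≤ δ) {σ : ℤ}
    (hσ : σ ≠ 0)
    (hcost : ∀ z ∈ bdR (r2 (2 * m) N), n ≤ cst i (h2 (2 * m) N θ) z)
    (h1 : ∀ z ∈ bdR (r2 (2 * m) N), cst i (h2 (2 * m) N θ) z = n →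
      nab i z ≤ nab (i + h2 (2 * m) N θ z) z + δ)
    (h3 : ∀ z ∈ bdR (r2 (2 * m) N), cst i (h2 (2 * m) N θ) z = n →
      nab i z = nab (i + h2 (2 * m) N θ z) z + δ → (-1 : ℤ) ^ (nst i (h2 (2 * m) N θ) z) = σ) :
    ∀ z ∈ bdR (r2 (2 * m) N), cst i (h2 (2 * m) N θ) z = n →
      nab i z ≠ nab (i + h2 (2 * m) N θ z) z + δ := by
  classical
  intro z0 hz0 hc0 hd0
  have F := W.farT
  have hd := F.dvd_lead hn hcost
  have hZ := dvd_Z W.gt.H.gauss i n
  set T := (bdR (r2 (2 * m) N)).filter (fun z => cst i (h2 (2 * m) N θ) z = n) with hT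
  have hb : δ ≤ (lv P i).card := by
    have h5 : nab i z0 ≤ (lv P i).card := by
      unfold nab
      exact Finset.card_filter_le _ _
    omega
  have hs := sign_sum_of_dvd T hZ hd (c0 := (lv P i).card - δ) (by omega) (by
    intro y hy
    rw [hT, mem_filter] at hy
    have h4 := h1 y hy.1 hy.2
    omega)
  set T' := T.filter (fun y => (lv P i).card - δ + nab i y =
    (lv P i).card + nab (i + h2 (2 * m) N θ y) y) with hT'
  have hz0T : z0 ∈ T' := by
    rw [hT', mem_filter, hT, mem_filter]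
    exact ⟨⟨hz0, hc0⟩, by omega⟩
  rw [Finset.sum_congr rfl (g := fun _ => σ)] at hs
  · rw [Finset.sum_const, nsmul_eq_mul] at hs
    rcases mul_eq_zero.mp hs with h4 | h4
    · have h5 : T'.card = 0 := by exact_mod_cast h4
      rw [Finset.card_eq_zero] at h5
      rw [h5] at hz0T
      exact absurd hz0T (Finset.notMem_empty _)
    · exact hσ h4
  · intro y hy
    rw [hT', mem_filter, hT, mem_filter] at hy
    exact h3 y hy.1.1 hy.1.2 (by omega)

/-- the ladder with drops 1 -/
theorem WE.ladder (W : WE r i m K N b θ) {N0 : ℕ} (hN : N0 + 1 ≤ K) (sg : ℕ → ℤ)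
    (hsg : ∀ n, sg n ≠ 0)
    (hrow : ∀ z ∈ bdR (r2 (2 * m) N), N0 ≤ cst i (h2 (2 * m) N θ) z ∨
      (nab i z = nab (i + h2 (2 * m) N θ z) z + 1 ∧
        (-1 : ℤ) ^ (nst i (h2 (2 * m) N θ) z) = sg (cst i (h2 (2 * m) N θ) z))) :
    ∀ z ∈ bdR (r2 (2 * m) N), N0 ≤ cst i (h2 (2 * m) N θ) z := by
  have key : ∀ n, n < N0 → ∀ z ∈ bdR (r2 (2 * m) N), cst i (h2 (2 * m) N θ) z ≠ n := by
    intro n
    induction n using Nat.strong_induction_on with
    | _ n ih =>
    intro hn z hz hc
    have h1 : ∀ z ∈ bdR (r2 (2 * m) N), n ≤ cst i (h2 (2 * m) N θ) z := by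
      intro y hy
      by_contra hcon
      exact ih _ (not_le.mp hcon) (by omega) y hy rfl
    have h2 : ∀ z ∈ bdR (r2 (2 * m) N), cst i (Pool.Agent.GaussPoset.h2 (2 * m) N θ) z = n →
        nab i z = nab (i + Pool.Agent.GaussPoset.h2 (2 * m) N θ z) z + 1 ∧
        (-1 : ℤ) ^ (nst i (Pool.Agent.GaussPoset.h2 (2 * m) N θ) z) = sg n := by
      intro y hy hcy
      rcases hrow y hy with h | h
      · omega
      · rw [hcy] at h
        exact h
    exact W.kill (by omega) le_rfl (hsg n) h1 (fun y hy hcy => (h2 y hy hcy).1.le)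
      (fun y hy hcy _ => (h2 y hy hcy).2) z hz hc (h2 z hz hc).1
  intro z hz
  by_contra hcon
  exact key _ (not_le.mp hcon) z hz rfl

/-- the sign of the energy `n` -/
def sg6 (n : ℕ) : ℤ := if n = 51 ∨ n = 73 ∨ n = 74 then 1 else -1

lemma sg6_ne (n : ℕ) : sg6 n ≠ 0 := by
  unfold sg6
  split_ifs <;> norm_num

/-- cost of a join of a fold end and an end with the profile `p` -/
def cF (p : List ℕ) : ℕ := vsQ 6 7 (kF 6 7) (fun d => (1 + pF 7 d) + (1 + gD p d)) + kF 6 7

/-- the check of a row -/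
def okF (p : List ℕ) : Bool :=
  decide (76 ≤ cF p) ||
  (decide (72 ≤ cF p ∧ cF p ≤ 75) &&
    ((decide (((1 + pF 7 8) + (1 + gD p 8)) = ((1 + pF 7 5) + (1 + gD p 5)) + 1) &&
      decide (nsQ 6 7 (kF 6 7) (fun d => (1 + pF 7 d) + (1 + gD p d)) % 2 =
        if cF p = 73 ∨ cF p = 74 then 0 else 1)) ||
     decide (((1 + pF 7 8) + (1 + gD p 8)) = ((1 + pF 7 5) + (1 + gD p 5)) ∧ cF p = 75)))

lemma okF_all : ∀ p ∈ PL 6 7, okF p = true := by decide +kernel

/-- the rows at window 6 -/
theorem WE.row6 (W : WE r 6 7 77 N b θ)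
    (hC : ∀ z x x' : P, Fd 7 x → (Win.uc x').card = 1 → topOf x' = topOf x → x ≠ x' →
      z ⋖ x → z ⋖ x' → False) {z : P} (hz : z ∈ bdR (r2 (2 * 7) N)) :
    76 ≤ cst 6 (h2 (2 * 7) N θ) z ∨
    (nab 6 z = nab (6 + h2 (2 * 7) N θ z) z + 1 ∧
      (-1 : ℤ) ^ (nst 6 (h2 (2 * 7) N θ) z) = sg6 (cst 6 (h2 (2 * 7) N θ) z)) ∨
    (cst 6 (h2 (2 * 7) N θ) z = 75 ∧ nab 6 z = nab (6 + h2 (2 * 7) N θ z) z) := by
  rcases W.bd hz with hl | hl
  · rcases W.rows (by decide) (by decide) (by decide) (by decide) (by decide +kernel)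
      (by decide +kernel) (bd_mem hz) hl with ⟨x, hx, hp, hn⟩ |
      ⟨x, x', hx, hx', ht, hzx, hzx', hn⟩ | ⟨x, x', hx, h1, ht, hzx, hzx', p, hp, hpr, hn⟩ |
      ⟨x, x', hx, h1, ht, hne, hzx, hzx'⟩ | h
    · right; left
      refine ⟨?_, ?_⟩
      · rw [hn.n0, hn.n1]
        decide
      · rw [hn.nst, hn.cst]
        decide +kernel
    · left
      rw [hn.cst]
      decide +kernel
    · have h2 := okF_all p hp
      unfold okF at h2
      simp only [Bool.or_eq_true, Bool.and_eq_true, decide_eq_true_eq] at h2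
      have hc : cst 6 (Pool.Agent.GaussPoset.h2 (2 * 7) N θ) z = cF p := hn.cst
      have e0 : nab 6 z = (1 + pF 7 8) + (1 + gD p 8) := hn.n0
      have e1 : nab (6 + Pool.Agent.GaussPoset.h2 (2 * 7) N θ z) z =
        (1 + pF 7 5) + (1 + gD p 5) := hn.n1
      rcases h2 with h2 | ⟨h2, h3 | h3⟩
      · left; omega
      · right; left
        refine ⟨by omega, ?_⟩
        rw [hn.nst, hc, sg6, neg_one_pow_eq_pow_mod_two, h3.2]
        by_cases h4 : cF p = 73 ∨ cF p = 74
        · rw [if_pos h4, if_pos (Or.inr h4), pow_zero]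
        · rw [if_neg h4, if_neg (by omega), pow_one]
      · right; right
        exact ⟨by omega, by omega⟩
    · exact (hC z x x' hx h1 ht hne hzx hzx').elim
    · left; omega
  · left; omega

/-- **the result of the ladder**: no boundary element of drop 1 and cost `≤ 75` -/
theorem WE.result (W : WE r 6 7 77 N b θ)
    (hC : ∀ z x x' : P, Fd 7 x → (Win.uc x').card = 1 → topOf x' = topOf x → x ≠ x' →
      z ⋖ x → z ⋖ x' → False) {z : P} (hz : z ∈ bdR (r2 (2 * 7) N)) :
    76 ≤ cst 6 (h2 (2 * 7) N θ) z ∨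
      (cst 6 (h2 (2 * 7) N θ) z = 75 ∧ nab 6 z = nab (6 + h2 (2 * 7) N θ z) z) := by
  have h1 : ∀ z ∈ bdR (r2 (2 * 7) N), 75 ≤ cst 6 (h2 (2 * 7) N θ) z := by
    refine W.ladder (by norm_num) sg6 sg6_ne fun z hz => ?_
    rcases W.row6 hC hz with h | h | h
    · left; omega
    · exact Or.inr h
    · left; omega
  rcases W.row6 hC hz with h | h | h
  · exact Or.inl h
  · rcases (h1 z hz).lt_or_eq with h4 | h4
    · left; omega
    · exfalso
      refine W.kill (n := 75) (δ := 1) (by norm_num) le_rfl (sg6_ne 75) h1 ?_ ?_ z hz h4.symm h.1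
      · intro y hy hcy
        rcases W.row6 hC hy with h | h | h
        · omega
        · exact h.1.le
        · omega
      · intro y hy hcy hdy
        rcases W.row6 hC hy with h | h | h
        · omega
        · rw [hcy] at h
          exact h.2
        · omega
  · exact Or.inr h

/-- **no pendant below a fold end** -/
theorem WE.no_pend (W : WE r 6 7 77 N b θ)
    (hC : ∀ z x x' : P, Fd 7 x → (Win.uc x').card = 1 → topOf x' = topOf x → x ≠ x' →
      z ⋖ x → z ⋖ x' → False) {z x : P} (hx : Fd 7 x) (hp : Pend z x) : False := by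
  have hz2 := W.pend_r2 hx hp
  have hl : lev z = 2 * 7 + 1 := by
    have h1 := (W.gt.H.covBy_iff.mp hp.1).2
    have h2 := hx.1
    omega
  have hz := W.mem_bd hz2 hl
  have hn : NQ 6 7 N θ z (kF 6 7) (fun d => 1 + pF 7 d) := by
    refine NQ.mk' hl (by decide) ?_ fun d hd => ?_
    · rw [W.h2_eqI hz2 hl hp.1 (fun y hy => by rw [hp.2 y hy]), W.fold_th hx]
      rfl
    · rw [nab_pend hp (by omega)]
      exact W.fold_prof hx d (by omega)
  have h1 := W.result hC hz
  have h3 : cst 6 (Pool.Agent.GaussPoset.h2 (2 * 7) N θ) z = 51 := by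
    rw [hn.cst]
    decide +kernel
  omega

/-- **the joins with a fold end** -/
theorem WE.join_prof (W : WE r 6 7 77 N b θ)
    (hC : ∀ z x x' : P, Fd 7 x → (Win.uc x').card = 1 → topOf x' = topOf x → x ≠ x' →
      z ⋖ x → z ⋖ x' → False) {z x x' : P} (hx : Fd 7 x) (ht : topOf x ≠ topOf x')
    (hzx : z ⋖ x) (hzx' : z ⋖ x') {p : List ℕ} (hp : p ∈ PL 6 7) (hpr : Prof 7 x' (gD p)) :
    p = [0, 0, 1, 1, 1] ∨ p = [0, 0, 1, 1, 1, 1, 1] ∨ p = p5 ∨ p = [0, 0, 0, 0, 0, 1] := by
  have H := W.gt.H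
  have hz2 := W.join_r2 ht hzx hzx'
  have hl : lev z = 2 * 7 + 1 := by
    have h1 := (W.gt.H.covBy_iff.mp hzx).2
    have h2 := hx.1
    omega
  have hlx' : lev x' = 2 * 7 := by
    have := (H.covBy_iff.mp hzx').2
    omega
  have hne : x ≠ x' := fun h => ht (by rw [h])
  have hz := W.mem_bd hz2 hl
  -- the label of the other end
  have hth : θ (topOf x) x ≤ θ (topOf x') x' := by
    have e0 : θ (topOf x) x = 2 := by rw [W.fold_th hx]
    rw [e0]
    rcases W.kind hlx' with h | h | h | h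
    · rw [h.th, hlx']; norm_num
    · rw [W.fold_th h]
    · rw [(h.prof x' (le_topOf x') hlx').2.1]; norm_num
    · exfalso
      obtain ⟨j, hj⟩ : ∃ j, 2 * 7 = j + 1 := ⟨13, rfl⟩
      have hgt := W.gt
      rw [hj] at hgt
      rcases (Win.near_level' hgt (by omega)).1 z x x' (by omega) hzx hzx' hne with
        h7 | ⟨h7, h8, -⟩
      · exact (W.near hz2 hl hzx hzx' hne h7)
      · omega
  have hn : NQ 6 7 N θ z (kF 6 7) (fun d => (1 + pF 7 d) + (1 + gD p d)) := by
    refine NQ.mk' hl (by decide) ?_ fun d hd => ?_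
    · rw [W.h2_eqI hz2 hl hzx (fun y hy => ?_), W.fold_th hx]
      · rfl
      · rcases uc_pair H hzx hzx' hne hy with e | e
        · rw [e]
        · rw [e]; exact hth
    · rw [W.nab_joinI hl hzx hzx' ht (by omega), W.fold_prof hx d (by omega),
        hpr d (by omega)]
  have h1 := W.result hC hz
  have hc : cst 6 (h2 (2 * 7) N θ) z = cF p := hn.cst
  have e0 : nab 6 z = (1 + pF 7 8) + (1 + gD p 8) := hn.n0
  have e1 : nab (6 + h2 (2 * 7) N θ z) z = (1 + pF 7 5) + (1 + gD p 5) := hn.n1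
  rw [hc, e0, e1] at h1
  have key : ∀ p ∈ PL 6 7, (76 ≤ cF p ∨ (cF p = 75 ∧
      (1 + pF 7 8) + (1 + gD p 8) = (1 + pF 7 5) + (1 + gD p 5))) →
      p = [0, 0, 1, 1, 1] ∨ p = [0, 0, 1, 1, 1, 1, 1] ∨ p = p5 ∨ p = [0, 0, 0, 0, 0, 1] := by
    decide +kernel
  exact key p hp h1

end Pool.Agent.GaussPoset.F6

end

/-! From `Pool.Agent.W_448f6_h94.FxQ` -/

section

/-!
The types of the components at window 6, level 14, and the context (MP_448cb3_co, S8, `j = 14`).
-/

namespace Pool.Agent.GaussPoset.F6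

set_option linter.unusedSectionVars false

open Polynomial Finset Wd Cl Cp

universe u

variable {P : Type u} [Fintype P] [PartialOrder P] [DecidableEq P] {r a : ℕ}
variable {t : Tops P} {lo hi : ℕ → ℕ} {e : ℕ → ℕ → P}

lemma PLl_PL67 : ∀ p ∈ PLl, p ∈ Fi.PL 6 7 := by decide

lemma kapR_67 : Fi.KapR 6 7 77 := by
  unfold Fi.KapR
  decide +kernel

lemma kapS_67 : Fi.KapS 6 7 77 := by
  unfold Fi.KapS
  decide +kernel

/-- light components -/
theorem te_light (h : Win.GoodTo P r (2 * 7)) (C : Comp (2 * 7) (t : P) lo hi e)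
    (h6 : lo 6 = 0 ∧ hi 6 = 0) (h2 : lo 2 = 0 ∧ hi 2 = 0)
    (hp : ∀ s, lo (2 * 7) ≤ s → s ≤ hi (2 * 7) → (Win.uc (e (2 * 7) s)).card = 1 →
      ∃ p ∈ Fi.PL 6 7, Fi.Prof 7 (e (2 * 7) s) (Fi.gD p)) :
    ∃ Nt θ, ∀ N : Tops P → Finset P, N t = Nt → TyE 6 7 77 N t (hi 6 - lo 6 + 1) θ := by
  classical
  refine ⟨_, _, fun N hN => TyE.light hN rfl (by omega) (only_low h) ⟨e 6 (lo 6), C.le_t 6 (lo 6)
    (by omega) le_rfl (C.lo_le 6 (by omega)), C.lev_e 6 (lo 6) (by omega) le_rfl
    (C.lo_le 6 (by omega))⟩ ?_ ?_⟩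
  · intro v hv hvl hvu
    obtain ⟨s, s1, s2, hs⟩ := C.surj v hv hvl.le
    rw [hvl] at s1 s2 hs
    subst hs
    exact hp s s1 s2 hvu
  · rw [cn_comp C (by omega)]
    omega

/-- straight strips -/
theorem te_str (h : Win.GoodTo P r (2 * 7)) (C : Comp (2 * 7) (t : P) lo hi e)
    (hL : ∀ k, k ≤ 2 * 7 → lo k = 0 ∧ hi k = 0) :
    ∃ Nt θ, ∀ N : Tops P → Finset P, N t = Nt → TyE 6 7 77 N t (hi 6 - lo 6 + 1) θ := by
  have hcn : ∀ l, l ≤ 2 * 7 → cn l (t : P) = 1 := by
    intro l hl
    rw [cn_comp C (by omega)]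
    have := hL l hl
    omega
  refine te_light h C (hL 6 (by omega)) (hL 2 (by omega)) ?_
  intro s s1 s2 _
  have hv := C.le_t (2 * 7) s le_rfl s1 s2
  have hvl := C.lev_e (2 * 7) s le_rfl s1 s2
  refine ⟨[], nil_PL, ?_⟩
  intro d hd
  have h1 := nab_le_cn' (t := t) h hv hvl.le (2 * 7 - d)
  rw [hcn _ (by omega)] at h1
  have h2 := one_le_nab (z := e (2 * 7) s) (l := 2 * 7 - d) (by omega)
  rw [gD_large (Nat.zero_le _)]
  omega

/-- late strips, light at window 6 -/
theorem te_late (h : Win.GoodTo P r (2 * 7)) (C : Comp (2 * 7) (t : P) lo hi e)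
    (D : LateD (2 * 7) a lo hi) (ha : 6 < a) :
    ∃ Nt θ, ∀ N : Tops P → Finset P, N t = Nt → TyE 6 7 77 N t (hi 6 - lo 6 + 1) θ := by
  have h0 := D.h0
  have h1 := D.h1
  refine te_light h C (D.h2 6 ha) (D.h2 2 (by omega)) ?_
  rcases D.h4 with ⟨h2, h3⟩ | h2
  · have hq := D.quad C h3
    have Q : QRows (2 * 7) a lo hi := ⟨D.h2, D.h3, by
      intro k hk hk2
      have := hq (k - a) (by omega) (by omega)
      rwa [show a + (k - a) = k by omega] at this⟩
    have hQ : QInf 7 a t := Q.inf C (by omega)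
    intro s s1 s2 _
    exact ⟨_, rep_PL (d := 2 * 7 - a) (by omega) (by omega),
      quad_prof hQ (C.le_t (2 * 7) s le_rfl s1 s2) (C.lev_e (2 * 7) s le_rfl s1 s2)
        (low_up h) h1⟩
  · rw [lateW_large (by omega)] at h2
    intro s s1 s2 hvu
    obtain ⟨p, hp, hpr, -⟩ := prof_late C h.H h.good D h2 s1 s2 hvu
    exact ⟨p, PLl_PL67 p hp, hpr⟩

/-- rectangle-like strips -/
theorem te_rect (h : Win.GoodTo P r (2 * 7)) (C : Comp (2 * 7) (t : P) lo hi e)
    (h1 : lo 1 = 0 ∧ hi 1 = 1) (S : RectShape (2 * 7) lo hi) :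
    ∃ Nt θ, ∀ N : Tops P → Finset P, N t = Nt → TyE 6 7 77 N t (hi 6 - lo 6 + 1) θ := by
  have H := h.H
  have hg := h.good
  have hlt : lo 6 < hi 6 := by
    have g1 := C.lo_mono (l := 1) (d := 5) (by omega)
    have g2 := C.hi_mono (l := 1) (d := 5) (by omega)
    norm_num at g1 g2
    by_contra hcon
    have g3 := C.lo_le 6 (by omega)
    have g4 := shape_lo C S.lo (l := 6) (by omega) 6 (by omega)
    have g5 := shape_hi C S.hi (l := 6) (by omega) 6 (by omega)
    have g6 := C.lo_le (6 + 6) (by omega)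
    omega
  obtain ⟨Nc, co, h2, -⟩ := exists_rect C H hg H.gradedBelow S (i := 6) (by omega) hlt
  refine ⟨_, _, fun N hN => TyE.rect Nc co h2 hN rfl ?_⟩
  intro x z hxt hxl hx2 hzx honly
  exact rectShape_no_pendant (i := 13) h (by omega) t.2 C S hxl hxt hx2 hzx honly

/-- stair-like strips -/
theorem te_stair (h : Win.GoodTo P r (2 * 7)) (C : Comp (2 * 7) (t : P) lo hi e)
    (S : StairShape (2 * 7) lo hi) :
    ∃ Nt θ, ∀ N : Tops P → Finset P, N t = Nt → TyE 6 7 77 N t (hi 6 - lo 6 + 1) θ := by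
  have H := h.H
  have hg := h.good
  obtain ⟨Nc, co, h1, -⟩ := exists_stair C H hg H.gradedBelow S (i := 6) (by omega)
  have hnop : NopT 7 t := by
    intro x z hxt hxl hx2 hzx honly
    have h2 := stairShape_pendant (i := 13) h (by omega) t.2 C S hxl hxt hx2 hzx honly
    have h3 := cell_lev C (x := x) hxt (by omega)
    omega
  have e0 : lo 6 = 0 := by
    by_contra hcon
    have e1 := shape_lo C S.lo (l := 6) (by omega) 6 (by omega)
    have e2 := S.hi (6 + 6) (by omega)
    have e3 := C.lo_le (6 + 6) (by omega)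
    omega
  have e1 := S.hi 6 (by omega)
  exact ⟨_, _, fun N hN => TyE.stair Nc co h1 hN rfl (by omega) hnop⟩

/-- `E7` -/
theorem te_E7 (h : Win.GoodTo P r (2 * 7)) (C : Comp (2 * 7) (t : P) lo hi e)
    (D : WordD (2 * 7) 4 w7 lo hi) :
    ∃ Nt θ, ∀ N : Tops P → Finset P, N t = Nt → TyE 6 7 77 N t (hi 6 - lo 6 + 1) θ := by
  obtain ⟨θ, E⟩ := exists_E7L h C D
  obtain ⟨h1, h2⟩ := D.rows C
  refine ⟨nE t (Cs.c7 e 24), θ, fun N hN => ?_⟩
  have hb : hi 6 - lo 6 + 1 = 2 := by
    rw [h1 6 (by omega), h2 6 (by omega)]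
    decide +kernel
  rw [hb]
  exact oth_E7 h C D hN E

/-- the type of a strip -/
theorem te_shape (h : Win.GoodTo P r (2 * 7)) (C : Comp (2 * 7) (t : P) lo hi e)
    (hS : Shape (2 * 7) lo hi) :
    ∃ Nt θ, ∀ N : Tops P → Finset P, N t = Nt → TyE 6 7 77 N t (hi 6 - lo 6 + 1) θ := by
  rcases hS with h1 | ⟨h1, h2⟩ | ⟨h1, h2⟩ | ⟨h1, h2, h3⟩ | ⟨h1, h2⟩ | ⟨a, h0, h1, h2, h3, hN, h4⟩
  · exact te_str h C h1
  · exact te_rect h C h1 h2
  · exact te_stair h C h2
  · omega
  · omega
  · have D : LateD (2 * 7) a lo hi := ⟨h0, h1, h2, h3, h4⟩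
    rcases Nat.lt_or_ge 6 a with h5 | h5
    · exact te_late h C D h5
    · rcases h4 with ⟨⟨g1, g2⟩, g3⟩ | g3
      · omega
      · obtain rfl | rfl | rfl | rfl : a = 3 ∨ a = 4 ∨ a = 5 ∨ a = 6 := by omega
        · have := (wordD_three D (by omega)).2
          omega
        · exact te_E7 h C (wordD_four D (by omega) (by omega)).1
        · exact absurd word_length (Sg.late5_14 _ g3)
        · exact absurd word_length (Sg.late6_14 _ g3)

/-- **The context at window 6, level 14.** -/
theorem exists_WE (h : Win.GoodTo P r (2 * 7)) (hr : 2 * 7 + 1 ≤ r) {lo hi : Tops P → ℕ → ℕ}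
    {e : Tops P → ℕ → ℕ → P} (C : ∀ t : Tops P, Comp (2 * 7) (t : P) (lo t) (hi t) (e t))
    (hS : ∀ t, Shape (2 * 7) (lo t) (hi t)) :
    ∃ N θ, WE r 6 7 77 N (fun t => hi t 6 - lo t 6 + 1) θ := by
  classical
  choose N θ hT using fun t => te_shape h (C t) (hS t)
  refine ⟨N, θ, ⟨h, hr, by omega, by omega, by omega, fun t => hT t N rfl, ?_, kapR_67, kapS_67,
    by norm_num⟩⟩
  rw [card_level h.H h.good C (i := 6) (by omega)]

end Pool.Agent.GaussPoset.F6

end

/-! From `Pool.Agent.W_448f6_h94.FxR` -/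

section

/-!
Level 14, window 6: no pendants below the fold ends and the joins with a fold end
(MP_448cb3_co, S8, `m = 7`).
-/

namespace Pool.Agent.GaussPoset.F6

set_option linter.unusedSectionVars false

open Polynomial Finset Wd Cl Cp Fi

universe u

variable {P : Type u} [Fintype P] [PartialOrder P] [DecidableEq P] {r : ℕ}
  {N : Tops P → Finset P} {b : Tops P → ℕ} {θ : Tops P → P → ℕ}

/-- the joins with a fold end -/
theorem WE.join_class (W : WE r 6 7 77 N b θ)
    (hC : ∀ z x x' : P, Fd 7 x → (Win.uc x').card = 1 → topOf x' = topOf x → x ≠ x' →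
      z ⋖ x → z ⋖ x' → False) {z x x' : P} (hx : Fd 7 x) (ht : topOf x ≠ topOf x')
    (hzx : z ⋖ x) (hzx' : z ⋖ x') :
    Fd 7 x' ∨ ∃ p ∈ [[0, 0, 1, 1, 1], [0, 0, 1, 1, 1, 1, 1], p5, [0, 0, 0, 0, 0, 1], pE],
      Prof 7 x' (gD p) := by
  have H := W.gt.H
  have hz2 := W.join_r2 ht hzx hzx'
  have hne : x ≠ x' := fun h => ht (by rw [h])
  have hl : lev z = 2 * 7 + 1 := by
    have h1 := (H.covBy_iff.mp hzx).2
    have h2 := hx.1
    omega
  have hlx' : lev x' = 2 * 7 := by
    have := (H.covBy_iff.mp hzx').2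
    omega
  have h1 : (Win.uc x').card = 1 := by
    obtain ⟨j, hj⟩ : ∃ j, 2 * 7 = j + 1 := ⟨13, rfl⟩
    have hgt := W.gt
    rw [hj] at hgt
    rcases (Win.near_level' hgt (by omega)).1 z x x' (by omega) hzx hzx' hne with
      h7 | ⟨-, h8, -⟩
    · exact (W.near hz2 hl hzx hzx' hne h7).elim
    · exact h8
  rcases W.kind hlx' with h | h | h | h
  · obtain ⟨p, hp, hpr⟩ := W.full_prof hlx' h (by norm_num) h1
    right
    rcases W.join_prof hC hx ht hzx hzx' hp hpr with rfl | rfl | rfl | rfl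
    · exact ⟨_, by simp, hpr⟩
    · exact ⟨_, by simp, hpr⟩
    · exact ⟨_, by simp, hpr⟩
    · exact ⟨_, by simp, hpr⟩
  · exact Or.inl h
  · exact Or.inr ⟨pE, by simp, (h.prof x' (le_topOf x') hlx').1⟩
  · omega

/-- **Level 14, window 6**: `hC` is the absence of the elements (C). -/
theorem level14 (h : Win.GoodTo P r (2 * 7)) (hr : 2 * 7 + 1 ≤ r) {lo hi : Tops P → ℕ → ℕ}
    {e : Tops P → ℕ → ℕ → P} (C : ∀ t : Tops P, Comp (2 * 7) (t : P) (lo t) (hi t) (e t))
    (hS : ∀ t, Shape (2 * 7) (lo t) (hi t))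
    (hC : ∀ z x x' : P, Fd 7 x → (Win.uc x').card = 1 → topOf x' = topOf x → x ≠ x' →
      z ⋖ x → z ⋖ x' → False) :
    (∀ z x : P, Fd 7 x → ¬ Pend z x) ∧ ∀ z x x' : P, Fd 7 x → topOf x ≠ topOf x' → z ⋖ x →
      z ⋖ x' → Fd 7 x' ∨ ∃ p ∈ [[0, 0, 1, 1, 1], [0, 0, 1, 1, 1, 1, 1], p5,
        [0, 0, 0, 0, 0, 1], pE], Prof 7 x' (gD p) := by
  obtain ⟨N, θ, W⟩ := exists_WE h hr C hS
  exact ⟨fun z x hx hp => W.no_pend hC hx hp,
    fun z x x' hx ht hzx hzx' => W.join_class hC hx ht hzx hzx'⟩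

end Pool.Agent.GaussPoset.F6

end

/-! From `Pool.Agent.W_448s14_h94.SgN` -/

section

/-!
**S14 is impossible** (MP_448cb3_co, step B, `j = 14`): if no element of level 15 is below two
maximal elements, then no element of level 15 is below both ends of a component `La7`.
-/

namespace Pool.Agent.GaussPoset.Sg

set_option linter.unusedSectionVars false

open Polynomial Finset Cl Dd Wd Cp

universe u

variable {P : Type u} [Fintype P] [PartialOrder P] [DecidableEq P] {r : ℕ}

/-- **No element of level 15 below both ends of `La7`.** -/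
theorem no_ends {lo hi : Tops P → ℕ → ℕ} {e : Tops P → ℕ → ℕ → P} (h : Win.GoodTo P r 14)
    (hno : ∀ z : P, lev z = 15 → ¬ Hul.Jn z)
    (C : ∀ t : Tops P, Comp 14 (t : P) (lo t) (hi t) (e t))
    (hS : ∀ t, Shape 14 (lo t) (hi t)) (t : Tops P) (D : WordD 14 7 wa7 (lo t) (hi t)) (z : P)
    (hz1 : z ⋖ e t 14 7) (hz2 : z ⋖ e t 14 3) : False := by
  classical
  have hex0 : ∀ t : Tops P, ∃ N θ B, Dat t (hi t 7 - lo t 7 + 1) (lo t) (hi t) (e t) N θ B ∧
      (WordD 14 7 wa7 (lo t) (hi t) → θ (ce (e t) 29) = 0 ∧ Thin (ce (e t) 29)) := by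
    intro t
    by_cases hD : WordD 14 7 wa7 (lo t) (hi t)
    · obtain ⟨N, θ, B, h1, h2⟩ := t7_la h (C t) hD
      exact ⟨N, θ, B, h1, fun _ => h2⟩
    · obtain ⟨N, θ, B, h1⟩ := t7_shape h (C t) (hS t)
      exact ⟨N, θ, B, h1, fun h => absurd h hD⟩
  choose N θ B hT hT2 using hex0
  have W : C7 r N (fun t => hi t 7 - lo t 7 + 1) θ B :=
    ⟨h, fun t => (hT t).1, (card_level h.H h.good C (i := 7) (by omega)).symm⟩
  -- from a component to its top
  have htop : ∀ (t : Tops P) (x : P), x ≤ (t : P) → lev x ≤ 14 → topOf x = t := fun t x hx hl =>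
    W.natSys.topOf_eq ((hT t).1.strip (mem_lowPart.mpr ⟨hx, hl⟩))
  have hthin : ∀ (t : Tops P) (x : P), x ≤ (t : P) → lev x = 14 → θ t x = 0 → Thin x →
      ∀ z, lev z = 15 → ¬ Pend z x := by
    intro t x hx hl h0 ht z hz hp
    refine W.no_thin hz hp ?_ ht
    rw [htop t x hx hl.le]
    exact h0
  -- the second stage
  have hex : ∀ t : Tops P, ∃ (N' A : Finset P) (θ' : P → ℕ) (B' : P → Prop) (ρ : ℤ),
      T25 t (hi t 7 - lo t 7 + 1) N' A θ' B' ρ ∧ (WordD 14 7 wa7 (lo t) (hi t) →
        (∃ z, Mk (e t) z 570425344) → 0 < ρ) := by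
    intro t
    by_cases hD : WordD 14 7 wa7 (lo t) (hi t)
    · have hb : hi t 7 - lo t 7 + 1 = 2 := by
        obtain ⟨h1, h2⟩ := hD.rows (C t)
        rw [h1 7 (by omega), h2 7 (by omega)]
        decide +kernel
      have hp0 : ∀ z, ¬ Mk (e t) z 536870912 := by
        intro z hz
        have h29 := La7_le hD (C t) (a := 29) (by norm_num)
        have hl29 : lev (ce (e t) 29) = 14 := h29.2.trans (by decide +kernel)
        have hpd : Pend z (ce (e t) 29) := by
          refine ⟨hz.cov (by norm_num) (by decide +kernel), fun y hy => ?_⟩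
          obtain ⟨b, hb, hbit, rfl⟩ := (hz.2 y).mp hy
          have h3 : ∀ b < 30, Nat.testBit 536870912 b = true → b = 29 := by decide +kernel
          rw [h3 b hb hbit]
        obtain ⟨h3, h4⟩ := hT2 t hD
        exact hthin t _ h29.1 hl29 h3 h4 z hz.1 hpd
      obtain ⟨A, θ', ρ, hL⟩ := la7_data hD (C t) h t.2 hp0
      refine ⟨_, A, θ', _, ρ, T25.la (lo t) (hi t) (e t) (C t) hD rfl hb rfl hL, fun _ => hL.pos⟩
    · rcases (hT t).2 with ⟨h3, h4⟩ | ⟨h3, -⟩
      · exact ⟨N t, ∅, θ t, B t, 0, T25.nat h3 rfl rfl (fun x hx hl h0 ht =>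
          ⟨h4 x hx hl h0 ht, hthin t x hx hl h0 ht⟩), fun h => absurd h hD⟩
      · exact absurd h3 hD
  choose N' A θ' B' ρ hT' hpos using hex
  have W' : D7 r N' A (fun t => hi t 7 - lo t 7 + 1) θ' B' ρ :=
    ⟨h, hno, hT', (card_level h.H h.good C (i := 7) (by omega)).symm⟩
  refine W'.no_pos (t0 := t) (hpos t D ?_)
  have e29 : ce (e t) 29 = e t 14 7 := by
    unfold ce
    rfl
  have e25 : ce (e t) 25 = e t 14 3 := by
    unfold ce
    rfl
  have hl29 := (La7_le D (C t) (a := 29) (by norm_num)).2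
  rw [← e29] at hz1
  rw [← e25] at hz2
  have hlz : lev z = 15 := by
    have h1 := (h.H.covBy_iff.mp hz1).2
    rw [hl29] at h1
    exact h1
  obtain ⟨m, hm, hmk⟩ := La7_msk D (C t) h t.2 hlz (fun y hy => by
    have h1 := W'.cov_top hlz hz1 hy
    rw [htop t _ (La7_le D (C t) (a := 29) (by norm_num)).1 (by rw [hl29]; decide +kernel)] at h1
    exact h1)
  have hmk' : Mk (e t) z m := ⟨hlz, hmk⟩
  have h1 : ∀ m ∈ msk, m.testBit 29 = true → m.testBit 25 = true → m = 570425344 := by
    decide +kernel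
  have b29 : m.testBit 29 = true := by
    by_contra hcon
    exact hmk'.ncov D (C t) h t.2 (by norm_num) (by simpa using hcon) hz1
  have b25 : m.testBit 25 = true := by
    by_contra hcon
    exact hmk'.ncov D (C t) h t.2 (by norm_num) (by simpa using hcon) hz2
  rw [h1 m hm b29 b25] at hmk'
  exact ⟨z, hmk'⟩

end Pool.Agent.GaussPoset.Sg

end

/-! From `Pool.Agent.W_448s7s_h5.TvD` -/

section

/-!
The component `E7` at level 14, window 7: the costs at the end of the natural set
(MP_448cb3_co, S7, `j = 14`; after `FxP` of helper94).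
-/

namespace Pool.Agent.GaussPoset.Tv

set_option linter.unusedSectionVars false

open Polynomial Finset Cl Wd Cp Sg Cs F6

universe u

variable {P : Type u} [Fintype P] [PartialOrder P] [DecidableEq P] {r : ℕ} {v : P}
variable {t : Tops P} {lo hi : ℕ → ℕ} {e : ℕ → ℕ → P}

/-- the costs of a pendant at window 7 -/
lemma E7_pct7 (hC : Cod 25 (fun a => E7cv.getD a 0) (fun a => E7lv.getD a 0) (c7 e))
    {z : P} (hl : GaussPoset.lev z = 15) (hz : Pend z (c7 e 24)) :
    ct 7 5 z = 46 ∧ ct 7 6 z = 49 := by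
  have h1 := Sg.cod_ct (um := fun a => Cs.E7um.getD a 0) hC E7_cvOK E7_umOK
    (z := z) (m := 16777216) (fun w => by
      constructor
      · intro h
        exact ⟨24, by norm_num, by decide +kernel, (hz.2 w h).symm⟩
      · rintro ⟨b, hb, hbit, rfl⟩
        have h : ∀ b < 25, (16777216 : ℕ).testBit b = true → b = 24 := by decide +kernel
        rw [h b hb hbit]
        exact hz.1) 7
  rw [h1, h1, hl]
  decide +kernel

/-- the costs at the end of the natural set -/
lemma kap_E77 (H : Gr P r) (hv : GaussPoset.lev v = 14)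
    (hpc : ∀ x, Pend x v → ct 7 5 x = 46 ∧ ct 7 6 x = 49) {θ : P → ℕ} (E : E7L7 t v θ) {z x : P}
    (hz : z ∉ nE t v) (hx : x ∈ nE t v) (hl : 15 ≤ GaussPoset.lev x) (hzx : z ⋖ x) :
    60 ≤ ct 7 (θ x + 1) z := by
  have hzl := (H.covBy_iff.mp hzx).2
  rw [mem_nE] at hx hz
  push Not at hz
  rcases hx with hx | hx | hx
  · exact absurd (mem_lowPart.mp hx).2 (by omega)
  · rw [E.th15 x hx]
    have hxl := lev15 H hv hx
    have h1 : ∃ y, z ⋖ y ∧ ¬ Pend y v := by
      by_contra hcon
      push Not at hcon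
      exact hz.2.2 (mem_A16.mpr ⟨⟨x, hzx⟩, hcon⟩)
    obtain ⟨y, hy, hyp⟩ := h1
    have hyl := (H.covBy_iff.mp hy).2
    have h2 : ∃ y', y ⋖ y' ∧ y' ≠ v := by
      by_contra hcon
      push Not at hcon
      obtain ⟨y', hy'⟩ := exists_cov' (y := y) (by omega)
      exact hyp ⟨by rw [← hcon y' hy']; exact hy', hcon⟩
    obtain ⟨y', hy', hne⟩ := h2
    have hyl' := (H.covBy_iff.mp hy').2
    have h3 := ct_three (i := 7) (k := 5) hzx.lt hy.lt (hy.lt.trans hy'.lt) (by
      intro h
      have h4 : x = y := by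
        by_contra hne'
        have := lev_strictAnti (lt_of_le_of_ne h hne')
        omega
      rw [h4] at hx
      exact hyp hx) (by
      intro h
      obtain ⟨w, hw, hwy⟩ := Hul.exists_cov (lt_of_le_of_ne h (by rintro rfl; omega))
      rw [hx.2 w hw] at hwy
      refine hne ?_
      by_contra hne'
      have := lev_strictAnti (lt_of_le_of_ne hwy fun h => hne' h.symm)
      omega) hy'.lt.ne
    rw [(hpc x hx).1, hzl, hxl, show GaussPoset.lev y = 15 by omega,
      show GaussPoset.lev y' = 14 by omega] at h3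
    exact le_trans (by norm_num) h3
  · rw [E.th16 x hx]
    have hxl := lev16 H hv hx
    obtain ⟨⟨y, hy⟩, h2⟩ := mem_A16.mp hx
    have h3 := ct_cov (i := 7) (k := 6) hy.lt
    have h4 := ct_cov (i := 7) (k := 6) hzx.lt
    rw [(hpc y (h2 y hy)).2, hxl] at h3
    rw [hzl, hxl] at h4
    have h5 : min 6 (16 - 7) = 6 := by norm_num
    have h6 : min 6 (16 + 1 - 7) = 6 := by norm_num
    rw [h5] at h3
    rw [h6] at h4
    show 60 ≤ ct 7 6 z
    omega

end Pool.Agent.GaussPoset.Tv

end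

/-! From `Pool.Agent.W_448cc7_h94.CsG` -/

section

/-!
Case B, `m = 7`: no element (C) (MP_448cb3_co, input HCC at `m = 7`).
-/

namespace Pool.Agent.GaussPoset.Cs

set_option linter.unusedSectionVars false

open Polynomial Finset Cl Wd Cp Win

universe u

variable {P : Type u} [Fintype P] [PartialOrder P] [DecidableEq P] {r : ℕ}
variable {t : Tops P} {lo hi : ℕ → ℕ} {e : ℕ → ℕ → P}

lemma one_ucv {v v' y : P} (h : v ⋖ y) (h' : v' ⋖ y) : 1 ≤ ucv v v' := by
  classical
  unfold ucv
  exact Finset.card_pos.mpr ⟨y, by simp [h, h']⟩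

lemma dcv_exists {v v' : P} (h : 1 ≤ dcv v v') : ∃ y, y ⋖ v ∧ y ⋖ v' := by
  classical
  unfold dcv at h
  obtain ⟨y, hy⟩ := Finset.card_pos.mp h
  rw [mem_filter] at hy
  exact ⟨y, hy.2⟩

/-- **A natural component at level 14 is not `La7`.** -/
theorem no_la (h : GoodTo P r 14) (C : Comp 14 (t : P) lo hi e) (D : WordD 14 7 wa7 lo hi)
    (hN : NatT 14 (t : P)) : False := by
  classical
  obtain ⟨h1, h2⟩ := D.rows C
  have l11 : losW 7 wa7 11 = 2 ∧ hisW 7 wa7 11 = 4 := by decide +kernel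
  have l12 : losW 7 wa7 12 = 3 ∧ hisW 7 wa7 12 = 5 := by decide +kernel
  have l13 : losW 7 wa7 13 = 3 ∧ hisW 7 wa7 13 = 6 := by decide +kernel
  have l14 : losW 7 wa7 14 = 3 ∧ hisW 7 wa7 14 = 7 := by decide +kernel
  rw [← h1 11 (by norm_num), ← h2 11 (by norm_num)] at l11
  rw [← h1 12 (by norm_num), ← h2 12 (by norm_num)] at l12
  rw [← h1 13 (by norm_num), ← h2 13 (by norm_num)] at l13
  rw [← h1 14 (by norm_num), ← h2 14 (by norm_num)] at l14
  have hS : S5c lo hi e 13 := (near_level' (i := 13) h (by norm_num)).2 _ lo hi e t.2 C.toWin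
  have hL : LCO lo hi 13 := ⟨by norm_num, by norm_num; omega, by norm_num; omega, by omega⟩
  have key : ∀ b, b = 4 ∨ b = 5 → (pen (e 14 b)).card = 0 := by
    intro b hb
    by_contra hp
    obtain ⟨p, hp⟩ := Finset.card_pos.mp (Nat.pos_of_ne_zero hp)
    rw [mem_pen] at hp
    have hlev : ∀ a, 3 ≤ a → a ≤ 7 → lev (e 14 a) = 14 := fun a h3 h7 =>
      C.lev_e 14 a le_rfl (by omega) (by omega)
    have hle : ∀ a, 3 ≤ a → a ≤ 7 → e 14 a ≤ (t : P) := fun a h3 h7 =>
      C.le_t 14 a le_rfl (by omega) (by omega)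
    have hne : ∀ a b, 3 ≤ a → a ≤ 7 → 3 ≤ b → b ≤ 7 → a ≠ b → e 14 a ≠ e 14 b := by
      intro a b a1 a2 b1 b2 hab h
      exact hab (C.inj 14 a b le_rfl (by omega) (by omega) (by omega) (by omega) h)
    have hadj : ∀ a, 3 ≤ a → a < 7 → ∃ y, y ⋖ e 14 a ∧ y ⋖ e 14 (a + 1) := by
      intro a a1 a2
      have c1 : e 14 a ⋖ e 13 a := (C.cov 13 a a (by norm_num) (by norm_num; omega)
        (by norm_num; omega) (by omega) (by omega)).mpr (Or.inl rfl)
      have c2 : e 14 (a + 1) ⋖ e 13 a := (C.cov 13 (a + 1) a (by norm_num) (by norm_num; omega)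
        (by norm_num; omega) (by omega) (by omega)).mpr (Or.inr rfl)
      have h3 := one_ucv c1 c2
      rw [hN _ _ (hlev a a1 (by omega)) (hlev (a + 1) (by omega) (by omega)) (hle a a1 (by omega))
        (hle (a + 1) (by omega) (by omega)) (hne a (a + 1) a1 (by omega) (by omega) (by omega)
        (by omega))] at h3
      exact dcv_exists h3
    obtain ⟨y1, y11, y12⟩ := hadj (b - 1) (by omega) (by omega)
    obtain ⟨y2, y21, y22⟩ := hadj b (by omega) (by omega)
    rw [show b - 1 + 1 = b by omega] at y12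
    obtain ⟨q, hq⟩ := Finset.card_eq_one.mp hp.2
    have hpq : ∀ w, p ⋖ w → w = e 14 b := by
      intro w hw
      have g1 : w ∈ uc p := mem_uc.mpr hw
      have g2 : e 14 b ∈ uc p := mem_uc.mpr hp.1
      rw [hq, mem_singleton] at g1 g2
      rw [g1, g2]
    refine dc_three h.H y12 y21 hp.1 ?_ ?_ ?_
    · rintro rfl
      have h3 := StB_uc_pair h.H y11 y12 (hne (b - 1) b (by omega) (by omega) (by omega)
        (by omega) (by omega))
      have h4 : e 14 (b + 1) ∈ uc y1 := mem_uc.mpr y22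
      rw [h3, mem_insert, mem_singleton] at h4
      rcases h4 with h4 | h4
      · exact hne (b + 1) (b - 1) (by omega) (by omega) (by omega) (by omega) (by omega) h4
      · exact hne (b + 1) b (by omega) (by omega) (by omega) (by omega) (by omega) h4
    · rintro rfl
      exact hne (b - 1) b (by omega) (by omega) (by omega) (by omega) (by omega) (hpq _ y11)
    · rintro rfl
      exact hne (b + 1) b (by omega) (by omega) (by omega) (by omega) (by omega) (hpq _ y22)
  rcases hS with ⟨g1, -, -⟩ | ⟨-, -, b, g1, g2⟩ | ⟨-, g1, -⟩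
  · exact g1 hL
  · have hb : b = 4 ∨ b = 5 := by omega
    have g3 := g2 b (by omega) (by omega)
    rw [if_pos rfl] at g3
    have g4 := key b hb
    have g5 : (pen (e (13 + 1) b)).card = 0 := g4
    omega
  · exact g1 hL

/-- **(C), `m = 7`.** -/
theorem no_cc_seven (h : GoodTo P r (2 * 7)) {lo hi : Tops P → ℕ → ℕ} {e : Tops P → ℕ → ℕ → P}
    (C : ∀ t : Tops P, Comp (2 * 7) (t : P) (lo t) (hi t) (e t))
    (hS : ∀ t, Shape (2 * 7) (lo t) (hi t))
    (hT : ∀ t : Tops P, NatT (2 * 7) (t : P) ∨ StairShape (2 * 7) (lo t) (hi t))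
    (hnj : ∀ z : P, lev z = 2 * 7 + 1 → ¬ Hul.Jn z) {t : Tops P} {z : P}
    (S : StairShape (2 * 7) (lo t) (hi t)) (h0 : lo t (2 * 7) = 0)
    (hz1 : z ⋖ e t (2 * 7) 7) (hz2 : z ⋖ e t (2 * 7) 0) : False := by
  refine caseB_no_cc (m := 7) (by norm_num) (by norm_num) h C hS ?_ hnj S h0 hz1 hz2
  intro s hs a ha D g3
  rw [show Ke 7 = 49 from Ke_odd 3]
  have h0 := D.h0
  obtain rfl | rfl | rfl | rfl | rfl : a = 3 ∨ a = 4 ∨ a = 5 ∨ a = 6 ∨ a = 7 := by omega
  · have := (wordD_three D (by omega)).2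
    omega
  · exact tyL_E7 h (C s) (wordD_four D (by omega) (by omega)).1 hnj
  · exact absurd word_length (Sg.late5_14 _ g3)
  · exact absurd word_length (Sg.late6_14 _ g3)
  · exfalso
    have g4 : WordD 14 7 wa7 (lo s) (hi s) :=
      ⟨D.h2, D.h3, Sg.late7_14 _ g3 (by rw [word_length])⟩
    rcases hT s with h1 | h1
    · exact no_la h (C s) g4 h1
    · exact hs h1

end Pool.Agent.GaussPoset.Cs

end

/-! From `Pool.Agent.W_448cc6_h94.CyD` -/

section

/-!
Case B, `m = 7`, window 6: no element (C), no hypothesis on the components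
(MP_448cb3_co, input HCC at `m = 7`).
-/

namespace Pool.Agent.GaussPoset.Cy

set_option linter.unusedSectionVars false

open Polynomial Finset Fi F6

universe u

variable {P : Type u} [Fintype P] [PartialOrder P] [DecidableEq P] {r : ℕ}
  {N : Tops P → Finset P} {b : Tops P → ℕ} {θ : Tops P → P → ℕ}

/-- the orders of the components -/
lemma hz_WE (W : WE r 6 7 77 N b θ) : ∀ t, ∀ n < 76, (1 + X : ℤ[X]) ^ b t ∣
    Z {x : P // x ∈ N t} 6 n := by
  classical
  intro t n hn
  obtain ⟨B, hB⟩ := W.compL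
  have HN := W.natSys
  have h1 := (hB t).clean (unnat N) ⟨HN.lower, Finset.Subset.refl _, fun x hx => by
    have := W.lt_lev hx
    omega, fun x hx h => h.1 hx⟩ inferInstance n hn
  have e : {x : {x : P // x ∉ unnat N} // topOf (x : P) = t} ≃o {x : P // x ∈ N t} :=
    { toFun := fun x => ⟨x.1.1, HN.mem_iff.mpr ⟨x.1.2, x.2⟩⟩
      invFun := fun x => ⟨⟨x.1, (HN.mem_iff.mp x.2).1⟩, (HN.mem_iff.mp x.2).2⟩
      left_inv := fun x => rfl
      right_inv := fun x => rfl
      map_rel_iff' := Iff.rfl }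
  rw [Z_iso e] at h1
  exact h1

/-- the elements (C) in the context -/
lemma cel_WE (W : WE r 6 7 77 N b θ) {z x x' : P} (hx : Fd 7 x) (h1 : (Win.uc x').card = 1)
    (ht : topOf x' = topOf x) (hne : x ≠ x') (hzx : z ⋖ x) (hzx' : z ⋖ x')
    (hz : z ∈ r2 (2 * 7) N) (hl : lev z = 2 * 7 + 1) :
    h2 (2 * 7) N θ z = 3 ∧ IsC b z := by
  have H := W.gt.H
  have hlx' : lev x' = 2 * 7 := by
    have := (H.covBy_iff.mp hzx').2
    omega
  obtain ⟨-, Nc, co, h, hx', hcx'⟩ := W.stair_single hx hlx' ht hne h1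
  have hthx' : 2 ≤ θ (topOf x') x' := by
    rw [ht, h.th]
    unfold thS
    split_ifs
    · rw [hlx']; norm_num
    · rw [hcx']; norm_num
  have e0 : θ (topOf x) x = 2 := by rw [W.fold_th hx]
  refine ⟨?_, topOf x, Nc, co, x, x', ?_, ?_⟩
  · rw [W.h2_eqI hz hl hzx (fun y hy => ?_), e0]
    rcases uc_pair H hzx hzx' hne hy with e | e
    · rw [e]
    · rw [e, e0]; exact hthx'
  · exact ⟨h.stair.chart, h.stair.strip, h.mem, hx', h.cell, hcx', hzx, hzx',
      fun y hy => uc_pair H hzx hzx' hne hy⟩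
  · rw [h.b]

/-- **Case B**: there is no element (C). -/
theorem no_cc (W : WE r 6 7 77 N b θ) (hnj : ∀ z : P, lev z = 2 * 7 + 1 → ¬ Hul.Jn z)
    {z x x' : P} (hx : Fd 7 x) (h1 : (Win.uc x').card = 1)
    (ht : topOf x' = topOf x) (hne : x ≠ x') (hzx : z ⋖ x) (hzx' : z ⋖ x') : False := by
  classical
  have H := W.gt.H
  have hjn : ∀ z x x' : P, lev z = 2 * 7 + 1 → z ⋖ x → z ⋖ x' → topOf x ≠ topOf x' → False := by
    intro z x x' hl hx hx' hne
    refine hnj z hl ⟨topOf x, topOf x', (topOf x).2, (topOf x').2, ?_, ?_, ?_⟩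
    · intro h
      exact hne (Subtype.ext h)
    · exact hx.1.le.trans (le_topOf x)
    · exact hx'.1.le.trans (le_topOf x')
  -- the table
  have hrow : ∀ z ∈ bdR (r2 (2 * 7) N), 77 ≤ cst 6 (h2 (2 * 7) N θ) z ∨
      (cst 6 (h2 (2 * 7) N θ) z = 51 ∧ nab 6 z = nab (6 + h2 (2 * 7) N θ z) z + 1 ∧
        (-1 : ℤ) ^ (nst 6 (h2 (2 * 7) N θ) z) = 1) ∨
      (h2 (2 * 7) N θ z = 3 ∧ IsC b z ∧ cst 6 (h2 (2 * 7) N θ) z = 71) := by
    intro z hz
    rcases W.bd hz with hl | hl
    · rcases W.rows (by decide) (by decide) (by decide) (by decide) (by decide +kernel)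
        (by decide +kernel) (bd_mem hz) hl with ⟨x, hx, hp, hn⟩ |
        ⟨x, x', hx, hx', ht, hzx, hzx', hn⟩ | ⟨x, x', hx, h1, ht, hzx, hzx', p, hp, hpr, hn⟩ |
        ⟨x, x', hx, h1, ht, hne, hzx, hzx'⟩ | h
      · right; left
        refine ⟨?_, ?_, ?_⟩
        · rw [hn.cst]
          decide +kernel
        · rw [hn.n0, hn.n1]
          decide
        · rw [hn.nst]
          decide +kernel
      · exact (hjn z x x' hl hzx hzx' ht).elim
      · exact (hjn z x x' hl hzx hzx' ht).elim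
      · obtain ⟨g1, g2⟩ := cel_WE W hx h1 ht hne hzx hzx' (bd_mem hz) hl
        refine Or.inr (Or.inr ⟨g1, g2, ?_⟩)
        obtain ⟨t, Nc, co, F, S, C, -⟩ := g2
        rw [cst_ct g1]
        exact cst_eq C H.gradedBelow
      · exact Or.inl h
    · exact Or.inl hl
  have h51 : ∀ z ∈ bdR (r2 (2 * 7) N), 51 ≤ cst 6 (h2 (2 * 7) N θ) z := by
    intro z hz
    rcases hrow z hz with h | ⟨h, -, -⟩ | ⟨-, -, h⟩ <;> omega
  have hno : ∀ z ∈ bdR (r2 (2 * 7) N), ¬ cst 6 (h2 (2 * 7) N θ) z = 51 := by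
    intro z0 hz0 hc0
    refine W.kill (n := 51) (δ := 1) (by norm_num) le_rfl (σ := 1) one_ne_zero h51 ?_ ?_ z0 hz0
      hc0 ?_
    · intro z hz hc
      rcases hrow z hz with h | ⟨-, h, -⟩ | ⟨-, -, h⟩
      · omega
      · exact h.le
      · omega
    · intro z hz hc _
      rcases hrow z hz with h | ⟨-, -, h⟩ | ⟨-, -, h⟩
      · omega
      · exact h
      · omega
    · rcases hrow z0 hz0 with h | ⟨-, h, -⟩ | ⟨-, -, h⟩
      · omega
      · exact h
      · omega
  have hl : lev z = 2 * 7 + 1 := by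
    have e1 := (H.covBy_iff.mp hzx).2
    have e2 := hx.1
    omega
  have hzR := W.cc_r2 hx h1 hne hzx hzx'
  have hzb := W.mem_bd hzR hl
  obtain ⟨g1, g2⟩ := cel_WE W hx h1 ht hne hzx hzx' hzR hl
  have hdead := cc_dead H W.natSys (hz_WE W) (fun x hx => W.lt_lev hx) W.sum_b W.farT
    (by norm_num) (fun z hz => by
      rcases hrow z hz with h | ⟨h, -, -⟩ | ⟨h, h', -⟩
      · left; omega
      · exact absurd h (hno z hz)
      · exact Or.inr ⟨h, h'⟩) z hzb
  obtain ⟨t, Nc, co, F, S, C, -⟩ := g2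
  rw [cst_ct g1] at hdead
  have e3 : ct 6 3 z = 71 := cst_eq C H.gradedBelow
  omega

end Pool.Agent.GaussPoset.Cy

end

/-! From `Pool.Agent.W_448cc6_h94.CyE` -/

section

/-!
Case B, `m = 7`: no element (C), without hypotheses on the components
(MP_448cb3_co, input HCC at `m = 7`).
-/

namespace Pool.Agent.GaussPoset.Cy

set_option linter.unusedSectionVars false

open Polynomial Finset Fi F6 Cp

universe u

variable {P : Type u} [Fintype P] [PartialOrder P] [DecidableEq P] {r : ℕ}

/-- one upper cover at the two ends of the last row of a chart -/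
lemma uc_le_one (H : Gr P r) {t0 : Tops P} {Nc : Finset P} {co : P → ℕ × ℕ} {x : P}
    (C : Chart (t0 : P) (fun c => c.1 ≤ c.2) Nc co) (hx : x ∈ Nc)
    (hc : co x = (7, 7) ∨ co x = (0, 14)) : (Win.uc x).card ≤ 1 := by
  rw [Finset.card_le_one]
  intro a ha b hb
  rw [Win.mem_uc] at ha hb
  have haN := C.up x hx a ha.le
  have hbN := C.up x hx b hb.le
  have h1 := (chart_cov C H hx haN).mp ha
  have h2 := (chart_cov C H hx hbN).mp hb
  have h3 : (co a).1 ≤ (co a).2 := C.mem a haN
  have h4 : (co b).1 ≤ (co b).2 := C.mem b hbN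
  apply C.inj a haN b hbN
  unfold Prd at h1 h2
  rcases hc with h | h
  · rw [h] at h1 h2
    simp only at h1 h2
    exact Prod.ext (by omega) (by omega)
  · rw [h] at h1 h2
    simp only at h1 h2
    exact Prod.ext (by omega) (by omega)

/-- **(C), `m = 7`, case B.**  If no element of level 15 is below two tops then no element of
level 15 covers the fold end and the straight end of a stair; the components are arbitrary. -/
theorem no_cc_seven (h : Win.GoodTo P r (2 * 7)) {lo hi : Tops P → ℕ → ℕ}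
    {e : Tops P → ℕ → ℕ → P} (C : ∀ t : Tops P, Comp (2 * 7) (t : P) (lo t) (hi t) (e t))
    (hS : ∀ t, Wd.Shape (2 * 7) (lo t) (hi t))
    (hnj : ∀ z : P, lev z = 2 * 7 + 1 → ¬ Hul.Jn z) {t : Tops P} {z : P}
    (S : StairShape (2 * 7) (lo t) (hi t)) (h0 : lo t (2 * 7) = 0)
    (hz1 : z ⋖ e t (2 * 7) 7) (hz2 : z ⋖ e t (2 * 7) 0) : False := by
  classical
  have H := h.H
  have e1 := S.hi (2 * 7) le_rfl
  have e2 := (C t).lev_e (2 * 7) 7 le_rfl (by omega) (by omega)
  have e3 := (C t).lev_e (2 * 7) 0 le_rfl (by omega) (by omega)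
  have t2 := (C t).le_t (2 * 7) 7 le_rfl (by omega) (by omega)
  have t3 := (C t).le_t (2 * 7) 0 le_rfl (by omega) (by omega)
  have hr : 2 * 7 + 1 ≤ r := by
    have g1 := (H.covBy_iff.mp hz1).2
    have g2 := H.lev_le z
    omega
  obtain ⟨N, θ, W⟩ := exists_WE h hr C hS
  obtain ⟨Nc, co, R, h4⟩ := exists_stair (C t) H h.good H.gradedBelow S (i := 6) (by norm_num)
  have hF : e t (2 * 7) 7 ∈ lowPart (2 * 7) (t : P) := mem_lowPart.mpr ⟨t2, e2.le⟩
  have hS' : e t (2 * 7) 0 ∈ lowPart (2 * 7) (t : P) := mem_lowPart.mpr ⟨t3, e3.le⟩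
  have c2 : co (e t (2 * 7) 7) = (7, 7) := by
    rw [h4 _ hF]
    unfold ccoord
    rw [scoord_e (C t) (k := 2 * 7) (s := 7) le_rfl (by omega) (by omega), e2]
  have c3 : co (e t (2 * 7) 0) = (0, 14) := by
    rw [h4 _ hS']
    unfold ccoord
    rw [scoord_e (C t) (k := 2 * 7) (s := 0) le_rfl (by omega) (by omega), e3]
  have hFN := R.strip hF
  have hSN := R.strip hS'
  have u2 : (Win.uc (e t (2 * 7) 7)).card = 1 := by
    refine le_antisymm (uc_le_one H R.chart hFN (Or.inl c2)) ?_
    obtain ⟨w, hw⟩ := exists_cov' (y := e t (2 * 7) 7) (by omega)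
    exact Finset.card_pos.mpr ⟨w, Win.mem_uc.mpr hw⟩
  have u3 : (Win.uc (e t (2 * 7) 0)).card = 1 := by
    refine le_antisymm (uc_le_one H R.chart hSN (Or.inr c3)) ?_
    obtain ⟨w, hw⟩ := exists_cov' (y := e t (2 * 7) 0) (by omega)
    exact Finset.card_pos.mpr ⟨w, Win.mem_uc.mpr hw⟩
  have hFd : Fd 7 (e t (2 * 7) 7) := by
    refine ⟨e2, u2, ?_⟩
    rw [nab_chart R.chart hFN, c2]
    have := card_cellsAt_shift (l := 2) (p := (7, 7)) le_rfl (by norm_num)
    simp only at this
    omega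
  have htop : ∀ x : P, x ≤ (t : P) → lev x = 2 * 7 → topOf x = t := by
    intro x hx hl
    have h1 : x ∈ N (topOf x) := W.natSys.mem_iff.mpr ⟨W.low hl.le, rfl⟩
    exact Subtype.ext (W.natSys.top_eq h1 t.2 hx).symm
  refine no_cc W hnj hFd u3 ?_ ?_ hz1 hz2
  · rw [htop _ t3 e3, htop _ t2 e2]
  · intro h
    rw [h, c3, Prod.mk.injEq] at c2
    omega

end Pool.Agent.GaussPoset.Cy

end
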