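import Mathlib
import Pool.Agent.W_448zz_h61.Ns
import Pool.Agent.W_448zz_h61.M129
import Pool.Agent.W_448zz_h61.M133
import Pool.Agent.W_448zz_h61.M185

/-! From `Pool.Agent.W_448s7s_h5.TvE` -/

section

/-!
`j = 14`, energy 25 at the window 7, with joins of a fold end and an end `(5, 25, 0)`
(MP_448cb3_co, S7; after `SgL` of helper94): the context.
-/

namespace Pool.Agent.GaussPoset.Tv

set_option linter.unusedSectionVars false

open Polynomial Finset Cl Dd Wd Win Sg

universe u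

variable {P : Type u} [Fintype P] [PartialOrder P] [DecidableEq P] {r : ℕ}

/-- the context -/
structure D7F (r : ℕ) (N A : Tops P → Finset P) (b : Tops P → ℕ) (θ : Tops P → P → ℕ)
    (B : Tops P → P → Prop) (ρ : Tops P → ℤ) : Prop where
  gt : GoodTo P r 14
  hjn : ∀ z x y : P, lev z = 15 → z ⋖ x → z ⋖ y → topOf x ≠ topOf y →
    ∀ k, 1 ≤ k → 26 ≤ ct 7 k z
  typ : ∀ t, T25 t (b t) (N t) (A t) (θ t) (B t) (ρ t)
  sum_b : ∑ t, b t = (lv P 7).card

variable {N A : Tops P → Finset P} {b : Tops P → ℕ} {θ : Tops P → P → ℕ} {B : Tops P → P → Prop}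
  {ρ : Tops P → ℤ}

lemma D7F.lowUp (W : D7F r N A b θ B ρ) (t : Tops P) :
    ∀ x ∈ lowPart 14 (t : P), ∀ y, x ≤ y → y ∈ lowPart 14 (t : P) := by
  intro x hx y hxy
  rw [mem_lowPart] at hx ⊢
  refine ⟨Cp.up_le W.gt.H W.gt.good t.2 hx.1 hx.2 hxy, ?_⟩
  rcases eq_or_lt_of_le hxy with h | h
  · rw [← h]; exact hx.2
  · have := lev_strictAnti h; omega

/-- the elements of the extended strips -/
lemma D7F.mem_A (W : D7F r N A b θ B ρ) {t : Tops P} {x : P} (hx : x ∈ A t) : lev x = 15 ∧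
    (∀ y, x ⋖ y → y ∈ lowPart 14 (t : P)) ∧ ∀ z, z ⋖ x → 26 ≤ ct 7 (θ t x + 1) z := by
  rcases W.typ t with ⟨h1, h2, h3, h4⟩ | ⟨lo, hi, e, C, D, h1, h2, h3, h4⟩
  · rw [h2] at hx
    exact absurd hx (Finset.notMem_empty x)
  · obtain ⟨m, hm, hmk, -⟩ := h4.ext.ex x hx
    refine ⟨hmk.1, fun y hy => ?_, fun z hz => h4.costA z x hx hz⟩
    obtain ⟨a, ha, -, rfl⟩ := (hmk.2 y).mp hy
    have h5 := La7_le D C ha
    have h6 := (W.gt.H.covBy_iff.mp hy).2
    have h7 := hmk.1
    rw [mem_lowPart]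
    exact ⟨h5.1, by omega⟩

lemma D7F.sysM (W : D7F r N A b θ B ρ) : NatSys (MA A) where
  up := by
    intro t x hx y hxy
    unfold MA at hx ⊢
    rw [mem_union] at hx ⊢
    rcases hx with hx | hx
    · exact Or.inl (W.lowUp t x hx y hxy)
    · rcases eq_or_lt_of_le hxy with h | h
      · rw [← h]
        exact Or.inr hx
      · obtain ⟨v, hv, hvy⟩ := Hul.exists_cov h
        exact Or.inl (W.lowUp t v ((W.mem_A hx).2.1 v hv) y hvy)
  le_t := by
    intro t x hx
    unfold MA at hx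
    rw [mem_union] at hx
    rcases hx with hx | hx
    · exact (mem_lowPart.mp hx).1
    · have h1 := (W.mem_A hx).1
      have h2 : x < (topOf x : P) := lt_of_le_of_ne (le_topOf x) (by
        intro h
        have := (topOf x).2
        rw [← h] at this
        omega)
      obtain ⟨v, hv, -⟩ := Hul.exists_cov h2
      exact hv.le.trans (mem_lowPart.mp ((W.mem_A hx).2.1 v hv)).1

lemma D7F.sysN (W : D7F r N A b θ B ρ) : NatSys N where
  up := by
    intro t
    rcases W.typ t with ⟨h1, h2, h3, h4⟩ | ⟨lo, hi, e, C, D, h1, h2, h3, h4⟩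
    · exact h1.nt.up
    · rw [h1]
      exact W.sysM.up t
  le_t := by
    intro t
    rcases W.typ t with ⟨h1, h2, h3, h4⟩ | ⟨lo, hi, e, C, D, h1, h2, h3, h4⟩
    · exact h1.nt.le_t
    · rw [h1]
      exact W.sysM.le_t t

lemma D7F.sub (W : D7F r N A b θ B ρ) (t : Tops P) : MA A t ⊆ N t := by
  rcases W.typ t with ⟨h1, h2, h3, h4⟩ | ⟨lo, hi, e, C, D, h1, h2, h3, h4⟩
  · unfold MA
    rw [h2, Finset.union_empty]
    exact h1.strip
  · rw [h1]
    exact Finset.Subset.refl _

lemma D7F.unnat_sub (W : D7F r N A b θ B ρ) : unnat N ⊆ unnat (MA A) := by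
  intro x hx
  rw [mem_unnat] at hx ⊢
  exact fun t h => hx t (W.sub t h)

lemma D7F.low (W : D7F r N A b θ B ρ) {x : P} (hx : lev x ≤ 14) : x ∈ MA A (topOf x) :=
  mem_union_left _ (mem_lowPart.mpr ⟨le_topOf x, hx⟩)

lemma D7F.lt_lev (W : D7F r N A b θ B ρ) {x : P} (hx : x ∈ unnat (MA A)) : 14 < lev x := by
  by_contra hcon
  exact mem_unnat.mp hx (topOf x) (W.low (by omega))

lemma D7F.base (W : D7F r N A b θ B ρ) {t : Tops P} {x : P} (hx : x ∈ N t) (hB : B t x) :
    lev x ≤ 14 := by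
  rcases W.typ t with ⟨h1, h2, h3, h4⟩ | ⟨lo, hi, e, C, D, h1, h2, h3, h4⟩
  · exact h1.base x hx hB
  · rw [h3] at hB
    have h5 := (La7_le D C (a := 29) (by norm_num)).2
    rw [show x = ce e 29 from hB, h5]
    decide +kernel

lemma D7F.not_BA (W : D7F r N A b θ B ρ) : ∀ x ∈ unnat (MA A), ¬ Dd.BA N B x := by
  rintro x hx ⟨h1, h2⟩
  have h3 := W.lt_lev hx
  have hxN : x ∈ N (topOf x) := W.sysN.mem_iff.mpr ⟨h1, rfl⟩
  have := W.base hxN h2
  omega

theorem D7F.compL (W : D7F r N A b θ B ρ) (t : Tops P) :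
    CompDataL (unnat (MA A)) topOf t 7 (b t) 25 (Dd.thA θ) (Dd.BA N B) := by
  have HN := W.sysN
  have e1 : ∀ x ∈ N t, Dd.thA θ x = θ t x := by
    intro x hx
    show θ (topOf x) x = _
    rw [HN.topOf_eq hx]
  have e2 : ∀ x ∈ N t, Dd.BA N B x ↔ B t x := by
    intro x hx
    unfold Dd.BA
    simp only [HN.topOf_eq hx, (HN.mem_iff.mp hx).1, not_false_eq_true, true_and]
  rcases W.typ t with ⟨h1, h2, h3, h4⟩ | ⟨lo, hi, e, C, D, h1, h2, h3, h4⟩
  · exact CompDataL.of (CompData.mono (h1.nt.data N HN rfl _ _ e1 e2) W.unnat_sub) 25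
  · have h5 : LocL 7 2 25 (N t) (θ t) (B t) := by
      rw [h1, h3]
      exact h4.ext.loc
    rw [h2]
    exact compDataL_mono (h5.data HN _ _ e1 e2) W.unnat_sub

/-- the covers of an element of level 15 are below one maximal element -/
lemma D7F.cov_top {z x y : P} (hc : ¬ ∃ x y : P, z ⋖ x ∧ z ⋖ y ∧ topOf x ≠ topOf y)
    (hx : z ⋖ x) (hy : z ⋖ y) : y ≤ (topOf x : P) := by
  have h1 : topOf x = topOf y := by
    by_contra hne
    exact hc ⟨x, y, hx, hy, hne⟩
  rw [h1]
  exact le_topOf y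

/-- **The costs.** -/
theorem D7F.cost (W : D7F r N A b θ B ρ) {z : P} (hz : z ∈ bdR (unnat (MA A))) :
    26 ≤ cst 7 (hcan (unnat (MA A)) (Dd.thA θ)) z := by
  classical
  have H := W.gt.H
  obtain ⟨x, hx, hzx, hh⟩ := hcan_spec (θ := Dd.thA θ) hz
  have hh' : hcan (unnat (MA A)) (Dd.thA θ) z = θ (topOf x) x + 1 := hh
  have hzR := (mem_filter.mp hz).1
  have hzl := W.lt_lev hzR
  have hzc := (H.covBy_iff.mp hzx).2
  rw [cst_ct (i := 7) hh']
  have hxM : x ∈ MA A (topOf x) := W.sysM.mem_iff.mpr ⟨hx, rfl⟩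
  unfold MA at hxM
  rw [mem_union, mem_lowPart] at hxM
  rcases hxM with ⟨-, hxl⟩ | hxA
  · have hlx : lev x = 14 := by omega
    have hlz : lev z = 15 := by omega
    by_cases hc : ∃ x y : P, z ⋖ x ∧ z ⋖ y ∧ topOf x ≠ topOf y
    · obtain ⟨a, c, g1, g2, g3⟩ := hc
      exact W.hjn z a c hlz g1 g2 g3 _ (by omega)
    rcases W.typ (topOf x) with ⟨h1, h2, h3, h4⟩ | ⟨lo, hi, e, C, D, h1, h2, h3, h4⟩
    · rcases h1.cost x (le_topOf x) hlx with h5 | ⟨h5, h6⟩
      · have h7 := ct_cov (i := 7) (k := θ (topOf x) x + 1) hzx.1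
        rw [hlz] at h7
        omega
      · obtain ⟨h7, h8⟩ := h4 x (le_topOf x) hlx h5 h6
        refine absurd ⟨hzx, fun y hy => ?_⟩ (h8 z hlz)
        refine h7 y (D7F.cov_top hc hzx hy) ?_
        have := (H.covBy_iff.mp hy).2
        omega
    · refine h4.cost z hlz (fun y hy => D7F.cov_top hc hzx hy) ?_ x hzx
      intro h
      exact mem_unnat.mp hzR (topOf x) (mem_union_right _ h)
  · exact (W.mem_A hxA).2.2 z hzx

/-- **No component with an element below the ends.** -/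
theorem D7F.no_pos (W : D7F r N A b θ B ρ) {t0 : Tops P} (h0 : 0 < ρ t0) : False := by
  classical
  have HM := W.sysM
  have hρ0 : ∀ t, 0 ≤ ρ t := by
    intro t
    rcases W.typ t with ⟨h1, h2, h3, h4⟩ | ⟨lo, hi, e, C, D, h1, h2, h3, h4⟩
    · rw [h3]
    · exact h4.nonneg
  refine no_first_pole_sum (n0 := 25) (i := 7) (by omega) W.gt.H.gauss HM.lower
    (fun x hx => by have := W.lt_lev hx; omega) topOf HM.cp b (Dd.thA θ) (Dd.BA N B) W.not_BA
    W.compL ?_ W.sum_b (fun z hz => by have := W.cost hz; omega) ρ ?_ ?_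
  · intro t
    rcases W.typ t with ⟨h1, h2, h3, h4⟩ | ⟨lo, hi, e, C, D, h1, h2, h3, h4⟩
    · exact h1.one
    · omega
  · intro t
    rcases W.typ t with ⟨h1, h2, h3, h4⟩ | ⟨lo, hi, e, C, D, h1, h2, h3, h4⟩
    · left
      refine ⟨h3, fun n => ?_⟩
      have HN := W.sysN
      have h6 : CompData (unnat N) topOf t 7 (b t) (Dd.thA θ) (Dd.BA N B) := by
        refine h1.nt.data N HN rfl _ _ ?_ ?_
        · intro x hx
          show θ (topOf x) x = _
          rw [HN.topOf_eq hx]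
        · intro x hx
          unfold Dd.BA
          simp only [HN.topOf_eq hx, (HN.mem_iff.mp hx).1, not_false_eq_true, true_and]
      have h7 := (CompData.mono h6 W.unnat_sub).clean (unnat (MA A))
        ⟨HM.lower, Subset.refl _, fun x hx => by have := W.lt_lev hx; omega, W.not_BA⟩
        inferInstance
      exact dvd_Z_of_dvd_W h7 n
    · right
      intro f hf
      rw [h2]
      refine h4.ext.pl f fun n => ?_
      rw [hf, ← Z_iso (isoPart HM t (Subset.refl _) (lowPart 14 (t : P) ∪ A t) (fun x => by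
        refine ⟨fun h => ⟨h, fun h' => mem_unnat.mp h' t h⟩, fun h => h.1⟩))]
  · have h1 : 0 < ∑ t, ρ t := Finset.sum_pos' (fun t _ => hρ0 t) ⟨t0, mem_univ _, h0⟩
    exact h1.ne'

end Pool.Agent.GaussPoset.Tv

end

/-! From `Pool.Agent.W_448s7s_h5.TvF` -/

section

/-!
**`j = 14`: no element of level 15 below both ends of `La7`, no pendant below the last element of
level 14, with joins of a fold end and an end `(5, 25, 0)`** (MP_448cb3_co, S7; after `SgN` of
helper94).
-/

namespace Pool.Agent.GaussPoset.Tv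

set_option linter.unusedSectionVars false

open Polynomial Finset Cl Dd Wd Cp Sg

universe u

variable {P : Type u} [Fintype P] [PartialOrder P] [DecidableEq P] {r : ℕ}

/-- the joins of level `15` are joins of a fold end and an end `(5, 25, 0)` -/
def JFB (P : Type u) [Fintype P] [PartialOrder P] [DecidableEq P] : Prop :=
  ∀ z : P, lev z = 15 → Hul.Jn z → ∃ x x', W4.FJn 14 z x x' ∧ Sm.Dt 14 x' (5, 25, 0)

/-- **the cost of a join at the window 7** -/
theorem fb_cost (H : Gr P r) {z x x' : P} (h : W4.FJn 14 z x x') (hd : Sm.Dt 14 x' (5, 25, 0))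
    {k : ℕ} (hk : 1 ≤ k) : 26 ≤ ct 7 k z := by
  obtain ⟨hc, hl, hf⟩ := h
  have hl' : lev x' = 14 := by
    have := (H.covBy_iff.mp hc.cov').2
    omega
  have hs : ∀ l, l ≤ 14 → nab l z = nab l x + nab l x' := fun l hl2 => hc.sum H (by omega)
  have h1 : ∀ l, l ≤ 14 → 1 ≤ nab l x' := fun l hl2 => one_le_nab (by omega)
  have hF : ∀ l, l ≤ 14 → nab l x + (l - 14 / 2) = l / 2 + 1 := hf.2.2
  have hm : mX 14 x' = 5 := hd.1
  have hx : cX 14 x' = 25 := hd.2.1
  unfold mX at hm
  unfold cX at hx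
  simp only [Finset.sum_range_succ, Finset.sum_range_zero] at hm hx
  have e : ct 7 1 z ≤ ct 7 k z := by
    classical
    rw [ct_eq_sum, ct_eq_sum]
    refine Finset.sum_le_sum fun y _ => ?_
    split_ifs
    · exact min_le_min_right _ hk
    · exact le_rfl
  refine le_trans ?_ e
  rw [Sg.ct_one hl, hs 8 (by omega), hs 9 (by omega), hs 10 (by omega), hs 11 (by omega),
    hs 12 (by omega), hs 13 (by omega), hs 14 (by omega)]
  have f8 := hF 8 (by omega)
  have f9 := hF 9 (by omega)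
  have f10 := hF 10 (by omega)
  have f11 := hF 11 (by omega)
  have f12 := hF 12 (by omega)
  have f13 := hF 13 (by omega)
  have f14 := hF 14 (by omega)
  have g0 := h1 0 (by omega)
  have g1 := h1 1 (by omega)
  have g2 := h1 2 (by omega)
  have g3 := h1 3 (by omega)
  have g4 := h1 4 (by omega)
  have g5 := h1 5 (by omega)
  have g6 := h1 6 (by omega)
  have g7 := h1 7 (by omega)
  have g8 := h1 8 (by omega)
  have g9 := h1 9 (by omega)
  have g10 := h1 10 (by omega)
  have g11 := h1 11 (by omega)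
  have g12 := h1 12 (by omega)
  have g13 := h1 13 (by omega)
  have g14 := h1 14 (by omega)
  norm_num at hm hx f8 f9 f10 f11 f12 f13 f14
  omega

section Ends

variable {lo hi : Tops P → ℕ → ℕ} {e : Tops P → ℕ → ℕ → P} (h : Win.GoodTo P r 14)
  (C : ∀ t : Tops P, Comp 14 (t : P) (lo t) (hi t) (e t)) (hS : ∀ t, Shape 14 (lo t) (hi t))

include h C hS

/-- the data at the energy 8 -/
theorem exists_Dat : ∃ (N : Tops P → Finset P) (θ : Tops P → P → ℕ) (B : Tops P → P → Prop),
    (∀ t : Tops P, Dat t (hi t 7 - lo t 7 + 1) (lo t) (hi t) (e t) (N t) (θ t) (B t)) ∧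
      ∀ t : Tops P, WordD 14 7 wa7 (lo t) (hi t) →
        θ t (ce (e t) 29) = 0 ∧ Thin (ce (e t) 29) := by
  have hex0 : ∀ t : Tops P, ∃ N θ B, Dat t (hi t 7 - lo t 7 + 1) (lo t) (hi t) (e t) N θ B ∧
      (WordD 14 7 wa7 (lo t) (hi t) → θ (ce (e t) 29) = 0 ∧ Thin (ce (e t) 29)) := by
    intro t
    by_cases hD : WordD 14 7 wa7 (lo t) (hi t)
    · obtain ⟨N, θ, B, h1, h2⟩ := t7_la h (C t) hD
      exact ⟨N, θ, B, h1, fun _ => h2⟩
    · obtain ⟨N, θ, B, h1⟩ := t7_shape h (C t) (hS t)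
      exact ⟨N, θ, B, h1, fun h => absurd h hD⟩
  choose N θ B hT hT2 using hex0
  exact ⟨N, θ, B, hT, hT2⟩

/-- no pendants below thin elements with the label `0` -/
theorem no_thin_of {N : Tops P → Finset P} {θ : Tops P → P → ℕ} {B : Tops P → P → Prop}
    (hT : ∀ t : Tops P, Dat t (hi t 7 - lo t 7 + 1) (lo t) (hi t) (e t) (N t) (θ t) (B t))
    (t : Tops P) (x : P) (hx : x ≤ (t : P)) (hl : lev x = 14) (h0 : θ t x = 0) (ht : Thin x)
    (z : P) (hz : lev z = 15) (hp : Pend z x) : False := by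
  have W : C7 r N (fun t => hi t 7 - lo t 7 + 1) θ B :=
    ⟨h, fun t => (hT t).1, (card_level h.H h.good C (i := 7) (by omega)).symm⟩
  refine W.no_thin hz hp ?_ ht
  rw [W.natSys.topOf_eq ((hT t).1.strip (mem_lowPart.mpr ⟨hx, hl.le⟩))]
  exact h0

/-- **No pendant below the last element of level 14 of `La7`.** -/
theorem no_pen_last (t : Tops P) (D : WordD 14 7 wa7 (lo t) (hi t)) {z : P}
    (hz : Pend z (e t 14 7)) : False := by
  obtain ⟨N, θ, B, hT, hT2⟩ := exists_Dat h C hS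
  have e29 : ce (e t) 29 = e t 14 7 := by
    unfold ce
    rfl
  have h29 := La7_le D (C t) (a := 29) (by norm_num)
  obtain ⟨h3, h4⟩ := hT2 t D
  rw [e29] at h29 h3 h4
  have hl14 : lev (e t 14 7) = 14 := h29.2.trans (by decide +kernel)
  have hl : lev z = 15 := by
    have := (h.H.covBy_iff.mp hz.1).2
    omega
  exact no_thin_of h C hS hT t _ h29.1 hl14 h3 h4 z hl hz

/-- the covers of a join of level `15` -/
lemma jfb_cost (hJ : JFB P) (z x y : P) (hl : lev z = 15) (hx : z ⋖ x) (hy : z ⋖ y)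
    (hne : topOf x ≠ topOf y) (k : ℕ) (hk : 1 ≤ k) : 26 ≤ ct 7 k z := by
  have hj : Hul.Jn z := ⟨topOf x, topOf y, (topOf x).2, (topOf y).2,
    fun hh => hne (Subtype.ext hh), hx.1.le.trans (le_topOf x), hy.1.le.trans (le_topOf y)⟩
  obtain ⟨a, a', h1, h2⟩ := hJ z hl hj
  exact fb_cost h.H h1 h2 hk

/-- **No element of level 15 below both ends of `La7`.** -/
theorem no_ends_fb (hJ : JFB P) (t : Tops P) (D : WordD 14 7 wa7 (lo t) (hi t)) {z : P}
    (hz1 : z ⋖ e t 14 7) (hz2 : z ⋖ e t 14 3) : False := by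
  classical
  obtain ⟨N, θ, B, hT, hT2⟩ := exists_Dat h C hS
  have W : C7 r N (fun t => hi t 7 - lo t 7 + 1) θ B :=
    ⟨h, fun t => (hT t).1, (card_level h.H h.good C (i := 7) (by omega)).symm⟩
  have htop : ∀ (t : Tops P) (x : P), x ≤ (t : P) → lev x ≤ 14 → topOf x = t := fun t x hx hl =>
    W.natSys.topOf_eq ((hT t).1.strip (mem_lowPart.mpr ⟨hx, hl⟩))
  -- the second stage
  have hex : ∀ t : Tops P, ∃ (N' A : Finset P) (θ' : P → ℕ) (B' : P → Prop) (ρ : ℤ),
      T25 t (hi t 7 - lo t 7 + 1) N' A θ' B' ρ ∧ (WordD 14 7 wa7 (lo t) (hi t) →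
        (∃ z, Mk (e t) z 570425344) → 0 < ρ) := by
    intro t
    by_cases hD : WordD 14 7 wa7 (lo t) (hi t)
    · have hb : hi t 7 - lo t 7 + 1 = 2 := by
        obtain ⟨h1, h2⟩ := hD.rows (C t)
        rw [h1 7 (by omega), h2 7 (by omega)]
        decide +kernel
      have hp0 : ∀ z, ¬ Mk (e t) z 536870912 := by
        intro z hz
        have h29 := La7_le hD (C t) (a := 29) (by norm_num)
        have hl29 : lev (ce (e t) 29) = 14 := h29.2.trans (by decide +kernel)
        have hpd : Pend z (ce (e t) 29) := by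
          refine ⟨hz.cov (by norm_num) (by decide +kernel), fun y hy => ?_⟩
          obtain ⟨b, hb, hbit, rfl⟩ := (hz.2 y).mp hy
          have h3 : ∀ b < 30, Nat.testBit 536870912 b = true → b = 29 := by decide +kernel
          rw [h3 b hb hbit]
        obtain ⟨h3, h4⟩ := hT2 t hD
        exact no_thin_of h C hS hT t _ h29.1 hl29 h3 h4 z hz.1 hpd
      obtain ⟨A, θ', ρ, hL⟩ := la7_data hD (C t) h t.2 hp0
      refine ⟨_, A, θ', _, ρ, T25.la (lo t) (hi t) (e t) (C t) hD rfl hb rfl hL, fun _ => hL.pos⟩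
    · rcases (hT t).2 with ⟨h3, h4⟩ | ⟨h3, -⟩
      · exact ⟨N t, ∅, θ t, B t, 0, T25.nat h3 rfl rfl (fun x hx hl h0 ht =>
          ⟨h4 x hx hl h0 ht, fun z hz hp => no_thin_of h C hS hT t x hx hl h0 ht z hz hp⟩),
          fun h => absurd h hD⟩
      · exact absurd h3 hD
  choose N' A θ' B' ρ hT' hpos using hex
  have W' : D7F r N' A (fun t => hi t 7 - lo t 7 + 1) θ' B' ρ :=
    ⟨h, fun z x y hl hx hy hne k hk => jfb_cost h C hS hJ z x y hl hx hy hne k hk, hT',
      (card_level h.H h.good C (i := 7) (by omega)).symm⟩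
  refine W'.no_pos (t0 := t) (hpos t D ?_)
  have e29 : ce (e t) 29 = e t 14 7 := by
    unfold ce
    rfl
  have e25 : ce (e t) 25 = e t 14 3 := by
    unfold ce
    rfl
  have h29 := La7_le D (C t) (a := 29) (by norm_num)
  have h25 := La7_le D (C t) (a := 25) (by norm_num)
  have hl29 := h29.2
  rw [← e29] at hz1
  rw [← e25] at hz2
  have hlz : lev z = 15 := by
    have h1 := (h.H.covBy_iff.mp hz1).2
    rw [hl29] at h1
    exact h1
  have hne : ce (e t) 29 ≠ ce (e t) 25 := fun hh =>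
    absurd ((La7_cod D (C t) h.H h.good t.2).inj 29 (by norm_num) 25 (by norm_num) hh)
      (by norm_num)
  obtain ⟨m, hm, hmk⟩ := La7_msk D (C t) h t.2 hlz (fun y hy => by
    rcases uc_pair h.H hz1 hz2 hne hy with e | e
    · rw [e]; exact h29.1
    · rw [e]; exact h25.1)
  have hmk' : Mk (e t) z m := ⟨hlz, hmk⟩
  have h1 : ∀ m ∈ msk, m.testBit 29 = true → m.testBit 25 = true → m = 570425344 := by
    decide +kernel
  have b29 : m.testBit 29 = true := by
    by_contra hcon
    exact hmk'.ncov D (C t) h t.2 (by norm_num) (by simpa using hcon) hz1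
  have b25 : m.testBit 25 = true := by
    by_contra hcon
    exact hmk'.ncov D (C t) h t.2 (by norm_num) (by simpa using hcon) hz2
  rw [h1 m hm b29 b25] at hmk'
  exact ⟨z, hmk'⟩

/-- (H1): no pendant below the last element of level 14 of `La7` -/
theorem pen_last : ∀ t : Tops P, WordD 14 7 wa7 (lo t) (hi t) → Win.pen (e t 14 7) = ∅ := by
  intro t D
  have h29 := La7_le D (C t) (a := 29) (by norm_num)
  rw [Finset.eq_empty_iff_forall_notMem]
  intro z hz
  rw [Win.mem_pen] at hz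
  refine no_pen_last h C hS t D (z := z) ⟨hz.1, fun y hy => ?_⟩
  obtain ⟨y0, h0⟩ := Finset.card_eq_one.mp hz.2
  have h1 : e t 14 7 ∈ Win.uc z := by rw [Win.mem_uc]; exact hz.1
  have h2 : y ∈ Win.uc z := by rw [Win.mem_uc]; exact hy
  rw [h0, mem_singleton] at h1 h2
  rw [h1, h2]

/-- (H2): no element of level 15 below both ends of `La7` -/
theorem dcv_ends (hJ : JFB P) : ∀ t : Tops P, WordD 14 7 wa7 (lo t) (hi t) →
    dcv (e t 14 3) (e t 14 7) = 0 := by
  intro t D
  classical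
  unfold dcv
  rw [Finset.card_eq_zero, Finset.filter_eq_empty_iff]
  rintro z - ⟨h1, h2⟩
  exact no_ends_fb h C hS hJ t D h2 h1

end Ends

end Pool.Agent.GaussPoset.Tv

end

/-! From `Pool.Agent.W_448w7_h15.WnB` -/

section

/-!
`JH P` from the joins of level 15 (MP_448cb3_co, S7, `j = 14`, window 7).
-/

namespace Pool.Agent.GaussPoset.W7

set_option linter.unusedSectionVars false

open Polynomial Finset Fi Cl Dd Wd

universe u

variable {P : Type u} [Fintype P] [PartialOrder P] [DecidableEq P] {r : ℕ}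
  {lo hi : Tops P → ℕ → ℕ} {e : Tops P → ℕ → ℕ → P}

/-- the profile of the fold ends -/
theorem fold_of_fd (K : Sm.Ctx P r 14 lo hi e) (hr : 15 ≤ r) {x : P} (hx : Fd 7 x) :
    Sm.Fold 14 x := by
  obtain ⟨N, θ, W⟩ := F6.exists_WE K.gt hr K.comp K.shape
  refine ⟨hx.1, by norm_num, fun k hk => ?_⟩
  have h := W.fold_prof hx (14 - k) (by omega)
  rw [show 2 * 7 - (14 - k) = k by omega] at h
  unfold pF at h
  omega

/-- nothing below both ends of a stair -/
theorem noCC_fd (K : Sm.Ctx P r 14 lo hi e) (hr : 15 ≤ r) (hC : Sm.NoCC P 14) :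
    ∀ z x x' : P, Fd 7 x → (Win.uc x').card = 1 → topOf x' = topOf x → x ≠ x' →
      z ⋖ x → z ⋖ x' → False := by
  intro z x x' hx h1 ht hne hz hz'
  have h2 := (K.gt.H.covBy_iff.mp hz).2
  have h3 := hx.1
  exact hC z x x' (by omega) (fold_of_fd K hr hx) hz hz' hne.symm h1 ht.symm

/-- the numbers of a profile -/
lemma prof_mX {x : P} {p : List ℕ} (h : Prof 7 x (gD p)) :
    mX 14 x = ((∑ k ∈ range 14, gD p (14 - k) : ℕ) : ℤ) ∧
      cX 14 x = ((∑ k ∈ range 14, gD p (14 - k) * (14 - k) : ℕ) : ℤ) := by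
  have key : ∀ k, k < 14 → (nab k x : ℤ) - 1 = gD p (14 - k) := by
    intro k hk
    have h1 := h (14 - k) (by omega)
    rw [show 2 * 7 - (14 - k) = k by omega] at h1
    rw [h1]
    push_cast
    ring
  constructor
  · unfold mX
    rw [Nat.cast_sum]
    exact Finset.sum_congr rfl fun k hk => key k (by rw [mem_range] at hk; omega)
  · unfold cX
    rw [Nat.cast_sum]
    refine Finset.sum_congr rfl fun k hk => ?_
    rw [mem_range] at hk
    rw [key k hk, Nat.cast_mul, Nat.cast_sub hk.le]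

lemma p5_of_dt {x : P} (hd : Sm.Dt 14 x (5, 25, 0)) {p : List ℕ}
    (hp : p ∈ [[0, 0, 1, 1, 1], [0, 0, 1, 1, 1, 1, 1], p5, [0, 0, 0, 0, 0, 1], F6.pE])
    (h : Prof 7 x (gD p)) : p = p5 := by
  obtain ⟨h1, h2⟩ := prof_mX h
  have h3 : ∑ k ∈ range 14, gD p (14 - k) = 5 := by
    have := hd.1
    rw [h1] at this
    exact_mod_cast this
  have h4 : ∑ k ∈ range 14, gD p (14 - k) * (14 - k) = 25 := by
    have := hd.2.1
    rw [h2] at this
    exact_mod_cast this
  have key : ∀ p ∈ [[0, 0, 1, 1, 1], [0, 0, 1, 1, 1, 1, 1], p5, [0, 0, 0, 0, 0, 1], F6.pE],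
      ∑ k ∈ range 14, gD p (14 - k) = 5 → ∑ k ∈ range 14, gD p (14 - k) * (14 - k) = 25 →
      p = p5 := by decide +kernel
  exact key p hp h3 h4

/-- **what is known about the elements of level 15** -/
theorem jh_of (K : Sm.Ctx P r 14 lo hi e) (hr : 15 ≤ r) (hC : Sm.NoCC P 14) (hJ : Tv.JFB P) :
    JH P := by
  have hcc := noCC_fd K hr hC
  obtain ⟨g1, g2⟩ := F6.level14 K.gt hr K.comp K.shape hcc
  refine ⟨g1, hcc, ?_⟩
  intro z x x' hl hzx hzx' ht
  have H := K.gt.H
  have hne : x ≠ x' := fun h => ht (by rw [h])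
  have l1 := (H.covBy_iff.mp hzx).2
  have l2 := (H.covBy_iff.mp hzx').2
  have hc : Sm.Cg z x x' := Sm.Cg.mk' hzx hzx' (only_of_le H K.gt.good (le_topOf x) (by omega))
    (only_of_le H K.gt.good (le_topOf x') (by omega)) ht
  obtain ⟨y, y', ⟨hc', hl', hf⟩, hd⟩ := hJ z hl hc.jn
  have hu := K.ends hc' hl'
  have hy : Fd 7 y := ⟨hf.1, hu.1, by have := hf.2.2 2 (by norm_num); omega⟩
  have hp : Prof 7 y' (gD p5) := by
    rcases g2 z y y' hy hc'.ne hc'.cov hc'.cov' with h | ⟨p, hp, hpr⟩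
    · exfalso
      have h3 := (fold_of_fd K hr h).2.2 12 (by norm_num)
      have h4 : nab 12 y' = 0 + 1 := hd.2.2
      omega
    · rw [p5_of_dt hd hp hpr] at hpr
      exact hpr
  have hyy : y ≠ y' := fun h => hc'.ne (by rw [h])
  rcases uc_pair H hzx hzx' hne hc'.cov with rfl | rfl
  · rcases uc_pair H hzx hzx' hne hc'.cov' with rfl | rfl
    · exact absurd rfl hyy
    · exact Or.inl ⟨hy, hp⟩
  · rcases uc_pair H hzx hzx' hne hc'.cov' with rfl | rfl
    · exact Or.inr ⟨hy, hp⟩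
    · exact absurd rfl hyy

end Pool.Agent.GaussPoset.W7

end

/-! From `Pool.Agent.W_448jb_h67.NpA` -/

section

/-!
The near patterns of `La7` at `j = 14` (MP_448cb3_co, step B): the matching polynomial at a cut
vertex, the numbers of lower covers
-/

namespace Pool.Agent.GaussPoset.Np

set_option linter.unusedSectionVars false

open Finset Polynomial Win

universe u

section mat

variable {α : Type*} [DecidableEq α]

/-- the matching polynomial at a cut vertex -/
theorem mp_cut (A : Finset α → ℤ) {V B : Finset α} {a : α} (haV : a ∉ V) (haB : a ∉ B)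
    (hVB : Disjoint V B) (h : ∀ u ∈ V, ∀ w ∈ B, A {u, w} = 0) :
    St.mp A (insert a (V ∪ B)) = St.mp A (insert a V) * St.mp A B +
      St.mp A V * ∑ u ∈ B, C (A {a, u}) * X * St.mp A (B.erase u) := by
  have ha : a ∉ V ∪ B := by
    rw [mem_union]
    exact fun h => h.elim haV haB
  rw [St.mp_insert A ha, St.mp_insert A haV, St.mp_union hVB h, sum_union hVB]
  have e1 : ∀ u ∈ V, C (A {a, u}) * X * St.mp A ((V ∪ B).erase u) =
      C (A {a, u}) * X * St.mp A (V.erase u) * St.mp A B := by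
    intro u hu
    have huB : u ∉ B := disjoint_left.1 hVB hu
    rw [erase_union_distrib, erase_eq_of_notMem huB,
      St.mp_union (disjoint_of_subset_left (erase_subset _ _) hVB)
        (fun x hx w hw => h x (mem_of_mem_erase hx) w hw)]
    ring
  have e2 : ∀ u ∈ B, C (A {a, u}) * X * St.mp A ((V ∪ B).erase u) =
      St.mp A V * (C (A {a, u}) * X * St.mp A (B.erase u)) := by
    intro u hu
    have huV : u ∉ V := fun h1 => disjoint_left.1 hVB h1 hu
    rw [erase_union_distrib, erase_eq_of_notMem huV,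
      St.mp_union (disjoint_of_subset_right (erase_subset _ _) hVB)
        (fun x hx w hw => h x hx w (mem_of_mem_erase hw))]
    ring
  rw [sum_congr rfl e1, sum_congr rfl e2, ← sum_mul, ← mul_sum]
  ring

/-- a vertex with one neighbour -/
lemma mp_head (A : Finset α → ℤ) {W : Finset α} {a b : α} (hab : a ≠ b) (haW : a ∉ W)
    (hbW : b ∉ W) (h : ∀ u ∈ W, A {a, u} = 0) :
    St.mp A (insert a (insert b W)) = St.mp A (insert b W) + C (A {a, b}) * X * St.mp A W := by
  have ha : a ∉ insert b W := by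
    rw [mem_insert]
    exact fun h => h.elim hab haW
  rw [St.mp_insert A ha, sum_insert hbW, erase_insert hbW, sum_eq_zero, add_zero]
  intro u hu
  rw [h u hu]
  simp

/-- the value at `1` for a path with five vertices -/
lemma ev_path {A : Finset α → ℤ} {y : ℕ → α} (hinj : ∀ a < 5, ∀ b < 5, y a = y b → a = b)
    (h0 : ∀ a b, a + 2 ≤ b → b < 5 → A {y a, y b} = 0) {c : ℕ → ℤ}
    (hc : ∀ a, a < 4 → A {y a, y (a + 1)} = c a) :
    (St.mp A {y 1, y 2, y 3, y 4}).eval 1 = 1 + c 1 + c 2 + c 3 + c 1 * c 3 ∧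
    (St.mp A {y 0, y 1, y 2, y 3, y 4}).eval 1 =
      1 + c 0 + c 1 + c 2 + c 3 + c 0 * c 2 + c 0 * c 3 + c 1 * c 3 := by
  have hne : ∀ a b, a < b → b < 5 → y a ≠ y b := fun a b h1 h2 h3 => by
    have := hinj a (by omega) b h2 h3
    omega
  have p4 : St.mp A {y 4} = 1 := St.mp_singleton
  have p34 : St.mp A {y 3, y 4} = 1 + C (c 3) * X := by
    have h1 := mp_head A (a := y 3) (b := y 4) (W := ∅) (hne 3 4 (by omega) (by omega)) (by simp)
      (by simp) (by simp)
    rw [St.mp_empty, mul_one, show (insert (y 4) ∅ : Finset α) = {y 4} from rfl, p4,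
      hc 3 (by omega)] at h1
    exact h1
  have p234 : St.mp A {y 2, y 3, y 4} = St.mp A {y 3, y 4} + C (c 2) * X * St.mp A {y 4} := by
    rw [← hc 2 (by omega)]
    refine mp_head A (hne 2 3 (by omega) (by omega)) ?_ ?_ ?_
    · simp [hne 2 4]
    · simp [hne 3 4]
    · intro u hu
      rw [mem_singleton.1 hu]
      exact h0 2 4 (by omega) (by omega)
  have p1234 : St.mp A {y 1, y 2, y 3, y 4} = St.mp A {y 2, y 3, y 4} +
      C (c 1) * X * St.mp A {y 3, y 4} := by
    rw [← hc 1 (by omega)]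
    refine mp_head A (hne 1 2 (by omega) (by omega)) ?_ ?_ ?_
    · simp [hne 1 3, hne 1 4]
    · simp [hne 2 3, hne 2 4]
    · intro u hu
      rw [mem_insert, mem_singleton] at hu
      rcases hu with rfl | rfl
      · exact h0 1 3 (by omega) (by omega)
      · exact h0 1 4 (by omega) (by omega)
  have p01234 : St.mp A {y 0, y 1, y 2, y 3, y 4} = St.mp A {y 1, y 2, y 3, y 4} +
      C (c 0) * X * St.mp A {y 2, y 3, y 4} := by
    rw [← hc 0 (by omega)]
    refine mp_head A (hne 0 1 (by omega) (by omega)) ?_ ?_ ?_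
    · simp [hne 0 2, hne 0 3, hne 0 4]
    · simp [hne 1 2, hne 1 3, hne 1 4]
    · intro u hu
      rw [mem_insert, mem_insert, mem_singleton] at hu
      rcases hu with rfl | rfl | rfl
      · exact h0 0 2 (by omega) (by omega)
      · exact h0 0 3 (by omega) (by omega)
      · exact h0 0 4 (by omega) (by omega)
  constructor
  · rw [p1234, p234, p34, p4]
    simp only [eval_add, eval_mul, eval_C, eval_X, eval_one, mul_one]
    ring
  · rw [p01234, p1234, p234, p34, p4]
    simp only [eval_add, eval_mul, eval_C, eval_X, eval_one, mul_one]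
    ring

end mat

variable {P : Type u} [Fintype P] [PartialOrder P] [DecidableEq P] {r i : ℕ}

/-- the lower covers of an element: pendants and common lower covers -/
theorem dc_sum (H : Gr P r) {v : P} (hv : lev v = i) :
    ∑ w ∈ (lv P i).erase v, dcv v w + (pen v).card = (dc v).card := by
  classical
  have h1 : ∀ w, dcv v w = ∑ z ∈ dc v, if z ⋖ w then 1 else 0 := by
    intro w
    unfold dcv
    rw [← Finset.card_filter]
    congr 1
    ext z
    simp only [mem_filter, mem_univ, true_and, mem_dc]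
  have h2 : (pen v).card = ∑ z ∈ dc v, if (uc z).card = 1 then 1 else 0 := by
    rw [← Finset.card_filter]
    congr 1
    ext z
    rw [mem_pen, mem_filter, mem_dc]
  have h3 : ∑ w ∈ (lv P i).erase v, dcv v w =
      ∑ z ∈ dc v, ∑ w ∈ (lv P i).erase v, if z ⋖ w then 1 else 0 := by
    rw [Finset.sum_congr rfl fun w _ => h1 w, Finset.sum_comm]
  rw [h3, h2, ← Finset.sum_add_distrib, Finset.card_eq_sum_ones]
  refine Finset.sum_congr rfl fun z hz => ?_
  rw [mem_dc] at hz
  have hlz := lev_cov H hz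
  rw [← Finset.card_filter]
  have e1 : ((lv P i).erase v).filter (fun w => z ⋖ w) = (uc z).erase v := by
    ext w
    rw [mem_filter, mem_erase, mem_erase, mem_lv, mem_uc]
    constructor
    · rintro ⟨⟨g1, g2⟩, g3⟩
      exact ⟨g1, g3⟩
    · rintro ⟨g1, g2⟩
      have := lev_cov H g2
      exact ⟨⟨g1, by omega⟩, g2⟩
  rw [e1, card_erase_of_mem (mem_uc.2 hz)]
  rcases uc_card_cases H (x := z) (by omega) with h4 | h4
  · rw [h4, if_pos rfl]
  · rw [h4, if_neg (by norm_num)]

/-- all the common lower covers of `v` are counted on a set -/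
theorem dc_sum_on (H : Gr P r) {v : P} (hv : lev v = i) {I : Finset P}
    (hI : ∀ w ∈ I, lev w = i ∧ w ≠ v) (h0 : ∀ w, lev w = i → w ≠ v → w ∉ I → dcv v w = 0) :
    ∑ w ∈ I, dcv v w + (pen v).card = (dc v).card := by
  rw [← dc_sum H hv]
  congr 1
  refine Finset.sum_subset ?_ ?_
  · intro w hw
    obtain ⟨h1, h2⟩ := hI w hw
    exact mem_erase.2 ⟨h2, mem_lv.2 h1⟩
  · intro w hw hn
    rw [mem_erase, mem_lv] at hw
    exact h0 w hw.2 hw.1 hn

/-- at most two lower covers -/
theorem dc_sum_le (H : Gr P r) {v : P} (hv : lev v = i) {I : Finset P}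
    (hI : ∀ w ∈ I, lev w = i ∧ w ≠ v) : ∑ w ∈ I, dcv v w + (pen v).card ≤ 2 := by
  have h1 := dc_sum H hv
  have h2 := dc_card_le H v
  have h3 : ∑ w ∈ I, dcv v w ≤ ∑ w ∈ (lv P i).erase v, dcv v w := by
    refine Finset.sum_le_sum_of_subset ?_
    intro w hw
    obtain ⟨h1, h2⟩ := hI w hw
    exact mem_erase.2 ⟨h2, mem_lv.2 h1⟩
  omega

end Pool.Agent.GaussPoset.Np

end

/-! From `Pool.Agent.W_448jb_h67.NpB` -/

section

/-!
The near patterns of `La7` at `j = 14` (MP_448cb3_co, step B): if every join of level 15 is a join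
of a fold end and an end `(5, 25, 0)`, then such a join is below the first element of level 14 of
every component `La7`, and there are three patterns of the common lower covers of the others.
-/

namespace Pool.Agent.GaussPoset.Np

set_option linter.unusedSectionVars false

open Finset Polynomial Win Wd Cl

universe u

variable {P : Type u} [Fintype P] [PartialOrder P] [DecidableEq P] {r : ℕ}
  {lo hi : Tops P → ℕ → ℕ} {e : Tops P → ℕ → ℕ → P}

/-- the bounds of the last levels -/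
lemma la7_bd {t : P} {l h : ℕ → ℕ} {f : ℕ → ℕ → P} (D : WordD 14 7 wa7 l h)
    (C : Cp.Comp 14 t l h f) : (l 14 = 3 ∧ h 14 = 7) ∧ (l 13 = 3 ∧ h 13 = 6) ∧
      (l 12 = 3 ∧ h 12 = 5) ∧ (l 11 = 2 ∧ h 11 = 4) ∧ ∀ k, k < 7 → l k = 0 ∧ h k = 0 := by
  obtain ⟨h1, h2⟩ := D.rows C
  refine ⟨⟨?_, ?_⟩, ⟨?_, ?_⟩, ⟨?_, ?_⟩, ⟨?_, ?_⟩, D.trunk⟩
  · exact (h1 14 le_rfl).trans (by decide +kernel)
  · exact (h2 14 le_rfl).trans (by decide +kernel)
  · exact (h1 13 (by omega)).trans (by decide +kernel)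
  · exact (h2 13 (by omega)).trans (by decide +kernel)
  · exact (h1 12 (by omega)).trans (by decide +kernel)
  · exact (h2 12 (by omega)).trans (by decide +kernel)
  · exact (h1 11 (by omega)).trans (by decide +kernel)
  · exact (h2 11 (by omega)).trans (by decide +kernel)

/-- the covers of an element which is not a join -/
lemma le_of_not_jn {z w t : P} (ht : lev t = 0) (hz : ¬ Hul.Jn z) (hzt : z ≤ t) (hzw : z ⋖ w) :
    w ≤ t := by
  obtain ⟨s, hs, hs2⟩ := exists_above' (x := w) (j := 0) (Nat.zero_le _)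
  by_contra hcon
  exact hz ⟨t, s, ht, hs2, fun h => hcon (h ▸ hs), hzt, hzw.le.trans hs⟩

/-- the last element of level 14 of `La7` -/
lemma la7_last (K : Sm.Ctx P r 14 lo hi e) {t : Tops P} (D : WordD 14 7 wa7 (lo t) (hi t))
    (ho : e t 14 7 ∈ onlyB t) (hl : lev (e t 14 7) = 14) : mX 14 (e t 14 7) = 1 := by
  obtain ⟨N, θ, B, -, -, h1, h2⟩ := Sg.t7_la K.gt (K.comp t) D
  have e29 : Sg.ce (e t) 29 = e t 14 7 := by
    unfold Sg.ce
    rfl
  rw [e29] at h1 h2
  have h3 : ∀ k, k < 7 → nab k (e t 14 7) = 1 := fun k hk => by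
    obtain ⟨a, b⟩ := D.trunk k hk
    exact nab_one_of_eq (K.comp t) ho (by omega) (by omega) (by rw [a, b])
  unfold mX
  simp only [Finset.sum_range_succ, Finset.sum_range_zero]
  rw [h3 0 (by omega), h3 1 (by omega), h3 2 (by omega), h3 3 (by omega), h3 4 (by omega),
    h3 5 (by omega), h3 6 (by omega), h2, h1 8 (by omega) (by omega),
    h1 9 (by omega) (by omega), h1 10 (by omega) (by omega), h1 11 (by omega) (by omega),
    h1 12 (by omega) (by omega), h1 13 (by omega) (by omega)]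
  norm_num

/-- a join in a component `La7` -/
theorem join_y0 (K : Sm.Ctx P r 14 lo hi e) (hJ : Tv.JFB P) {t : Tops P}
    (D : WordD 14 7 wa7 (lo t) (hi t)) {z y : P} (hz : lev z = 15) (hj : Hul.Jn z) (hzy : z ⋖ y)
    (hyt : y ≤ (t : P)) : y = e t 14 3 ∧ ∃ x, W4.FJn 14 z x y ∧ Sm.Dt 14 y (5, 25, 0) := by
  obtain ⟨x, x', F, hd⟩ := hJ z hz hj
  have H := K.gt.H
  have C := K.comp t
  obtain ⟨b14, b13, -, -, btr⟩ := la7_bd D C
  obtain ⟨u1, u2⟩ := K.ends F.1 F.2.1
  have hly : lev y = 14 := by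
    have := lev_cov H hzy
    omega
  have hxx : x ≠ x' := by
    rintro rfl
    exact F.1.ne rfl
  have hy : y = x ∨ y = x' := by
    have h1 : y ∈ uc z := mem_uc.2 hzy
    rw [StB_uc_pair H F.1.cov F.1.cov' hxx, mem_insert, mem_singleton] at h1
    exact h1
  have hyx : y = x' := by
    rcases hy with hy | hy
    · exfalso
      have ho := F.1.only
      rw [← hy] at ho
      have ht : t = topOf y := Subtype.ext (mem_onlyB.mp ho t t.2 hyt)
      rw [← ht] at ho
      have h1 := nab_one_of_eq C (x := y) ho (k := 2) (by omega) (by omega)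
        (by rw [(btr 2 (by omega)).1, (btr 2 (by omega)).2])
      have h2 := F.2.2.2.2 2 (by omega)
      rw [← hy] at h2
      omega
    · exact hy
  subst hyx
  refine ⟨?_, x, F, hd⟩
  have ho := F.1.only'
  have ht : t = topOf y := Subtype.ext (mem_onlyB.mp ho t t.2 hyt)
  rw [← ht] at ho
  obtain ⟨s, s1, s2, s3⟩ := C.surj y hyt (by omega)
  rw [hly] at s1 s2 s3
  have h2 := C.toWin.uc_two K.gt t.2 (k := 13) (a := s) (by omega) s1 s2
  rw [show 13 + 1 = 14 from rfl, s3, u2] at h2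
  have h3 : s = 3 ∨ s = 7 := by
    by_contra hcon
    have := h2.2 (by omega)
    omega
  rcases h3 with rfl | rfl
  · exact s3.symm
  · exfalso
    have h4 := la7_last K D (by rw [s3]; exact ho) (by rw [s3]; exact hly)
    rw [s3] at h4
    have h5 := hd.1
    rw [h4] at h5
    norm_num at h5

end Pool.Agent.GaussPoset.Np

end

/-! From `Pool.Agent.W_448jb_h67.NpC` -/

section

/-!
The near patterns of `La7` at `j = 14` (MP_448cb3_co, step B): the numbers of common lower covers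
-/

namespace Pool.Agent.GaussPoset.Np

set_option linter.unusedSectionVars false

open Finset Polynomial Win Wd Cl

universe u

variable {P : Type u} [Fintype P] [PartialOrder P] [DecidableEq P] {r : ℕ}
  {lo hi : Tops P → ℕ → ℕ} {e : Tops P → ℕ → ℕ → P}

/-- the row of level 14 of `La7` -/
lemma la7_row (K : Sm.Ctx P r 14 lo hi e) {t : Tops P} (D : WordD 14 7 wa7 (lo t) (hi t)) :
    Rw P 14 (t : P) 4 (fun a => e t 14 (3 + a)) := by
  obtain ⟨⟨a1, a2⟩, -⟩ := la7_bd D (K.comp t)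
  have S := (K.comp t).toWin.rw_row (i := 13) K.gt (by omega) t.2
  rw [show 13 + 1 = 14 from rfl, a1, a2] at S
  exact S

/-- the pendants of the inner elements -/
lemma la7_pen (K : Sm.Ctx P r 14 lo hi e)
    (hA : ∀ t a, lo t 12 + 2 ≤ a → a ≤ hi t 12 → pen (e t 14 a) = ∅) {t : Tops P}
    (D : WordD 14 7 wa7 (lo t) (hi t)) :
    (pen (e t 14 4)).card = 1 ∧ pen (e t 14 5) = ∅ ∧ pen (e t 14 6) = ∅ := by
  obtain ⟨b14, b13, b12, b11, -⟩ := la7_bd D (K.comp t)
  have h5 : pen (e t 14 5) = ∅ := hA t 5 (by omega) (by omega)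
  have hS := (near_level' (i := 13) K.gt (by omega)).2 t _ _ _ t.2 (K.comp t).toWin
  rcases hS with ⟨h1, -, -⟩ | ⟨-, -, b, hb, h1⟩ | ⟨h1, -, -⟩
  · refine absurd ⟨by omega, ?_, ?_, ?_⟩ h1
    · show lo t 12 = lo t 11 + 1
      omega
    · show lo t 13 = lo t 12
      omega
    · omega
  · have g5 := h1 5 (by omega) (by omega)
    rw [show 13 + 1 = 14 from rfl, h5, card_empty] at g5
    have hb4 : b = 4 := by
      rcases hb with hb | ⟨hb, -⟩
      · omega
      · rw [if_pos (by omega)] at g5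
        omega
    subst hb4
    have g4 := h1 4 (by omega) (by omega)
    have g6 := h1 6 (by omega) (by omega)
    rw [show 13 + 1 = 14 from rfl] at g4 g6
    rw [if_pos rfl] at g4
    rw [if_neg (by omega)] at g6
    exact ⟨g4, h5, card_eq_zero.1 g6⟩
  · exfalso
    obtain ⟨-, h2, -, -⟩ := h1
    have h3 : hi t 12 = hi t 11 := h2
    omega

/-- the common lower covers of the elements which are not the first -/
lemma la7_far (K : Sm.Ctx P r 14 lo hi e) (hJ : Tv.JFB P)
    (h04 : ∀ t, WordD 14 7 wa7 (lo t) (hi t) → dcv (e t 14 3) (e t 14 7) = 0) {t : Tops P}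
    (D : WordD 14 7 wa7 (lo t) (hi t)) {k : ℕ} (hk : 1 ≤ k) (hk4 : k ≤ 4) {w : P}
    (hw : lev w = 14) (hne : w ≠ e t 14 (3 + k)) (h1 : w ≠ e t 14 (3 + (k - 1)))
    (h2 : k < 4 → w ≠ e t 14 (3 + (k + 1))) : dcv (e t 14 (3 + k)) w = 0 := by
  have S := la7_row K D
  by_contra hcon
  obtain ⟨z, hz, hz'⟩ := StA_of_dcv (Nat.one_le_iff_ne_zero.2 hcon)
  have hly : lev (e t 14 (3 + k)) = 14 := S.lev_x k hk4
  have hlz : lev z = 15 := by
    have := lev_cov K.gt.H hz
    omega
  have hle : e t 14 (3 + k) ≤ (t : P) := S.le_t k hk4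
  have hnj : ¬ Hul.Jn z := fun hj => by
    have h3 := (join_y0 K hJ D hlz hj hz hle).1
    have := S.inj k 0 hk4 (by omega) h3
    omega
  have hwt : w ≤ (t : P) := le_of_not_jn t.2 hnj (hz.le.trans hle) hz'
  obtain ⟨b, hb, rfl⟩ := S.surj w hw hwt
  have e1 : b ≠ k := by
    rintro rfl
    exact hne rfl
  have e2 : b ≠ k - 1 := by
    rintro rfl
    exact h1 rfl
  have e3 : k < 4 → b ≠ k + 1 := by
    rintro h rfl
    exact h2 h rfl
  rcases Nat.lt_or_ge b k with h3 | h3
  · have h4 := S.far b k (by omega) hk4 (by rw [StB_dcv_comm]; exact hcon)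
    obtain ⟨rfl, rfl, -, -⟩ := h4
    have h5 := h04 t D
    rw [StB_dcv_comm] at h5
    exact hcon h5
  · have h4 := S.far k b (by omega) hb hcon
    omega

/-- the arithmetic of the row -/
lemma la7_arith {g : ℕ → ℕ} (h1 : 1 ≤ g 0 + g 1 + 1 ∧ g 0 + g 1 + 1 ≤ 2)
    (h2 : 1 ≤ g 1 + g 2 ∧ g 1 + g 2 ≤ 2) (h3 : 1 ≤ g 2 + g 3 ∧ g 2 + g 3 ≤ 2)
    (h4 : 1 ≤ g 3 ∧ g 3 ≤ 2) :
    (g 0 = 0 ∧ ((g 1 = 1 ∧ g 2 = 1 ∧ g 3 = 1) ∨ (g 1 = 1 ∧ g 2 = 0 ∧ g 3 = 2) ∨
      (g 1 = 0 ∧ g 2 = 1 ∧ g 3 = 1))) ∨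
    (g 0 = 0 ∧ g 1 = 1 ∧ g 2 = 0 ∧ g 3 = 1) ∨ (g 0 = 1 ∧ g 1 = 0 ∧ g 2 = 1 ∧ g 3 = 1) := by
  omega

/-- the sums of the row -/
lemma la7_sums (K : Sm.Ctx P r 14 lo hi e) (hr : 15 ≤ r) (hJ : Tv.JFB P)
    (hA : ∀ t a, lo t 12 + 2 ≤ a → a ≤ hi t 12 → pen (e t 14 a) = ∅)
    (h4 : ∀ t, WordD 14 7 wa7 (lo t) (hi t) → pen (e t 14 7) = ∅)
    (h04 : ∀ t, WordD 14 7 wa7 (lo t) (hi t) → dcv (e t 14 3) (e t 14 7) = 0) {t : Tops P}
    (D : WordD 14 7 wa7 (lo t) (hi t)) {g : ℕ → ℕ}
    (hg : ∀ k, k < 4 → dcv (e t 14 (3 + k)) (e t 14 (3 + (k + 1))) = g k) :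
    (1 ≤ g 0 + g 1 + 1 ∧ g 0 + g 1 + 1 ≤ 2) ∧ (1 ≤ g 1 + g 2 ∧ g 1 + g 2 ≤ 2) ∧
      (1 ≤ g 2 + g 3 ∧ g 2 + g 3 ≤ 2) ∧ (1 ≤ g 3 ∧ g 3 ≤ 2) := by
  classical
  have H := K.gt.H
  have S := la7_row K D
  obtain ⟨p1, p2, p3⟩ := la7_pen K hA D
  have p4 := h4 t D
  have hdc : ∀ k, k ≤ 4 → 1 ≤ (dc (e t 14 (3 + k))).card ∧ (dc (e t 14 (3 + k))).card ≤ 2 := by
    intro k hk
    have hly : lev (e t 14 (3 + k)) = 14 := S.lev_x k hk
    obtain ⟨z, hz⟩ := exists_dc H (v := e t 14 (3 + k)) (by omega)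
    exact ⟨card_pos.2 ⟨z, mem_dc.2 hz⟩, dc_card_le H _⟩
  have hne : ∀ a b, a ≤ 4 → b ≤ 4 → a ≠ b → e t 14 (3 + a) ≠ e t 14 (3 + b) :=
    fun a b ha hb hab h => hab (S.inj a b ha hb h)
  have hmid : ∀ k, 1 ≤ k → k < 4 → g (k - 1) + g k + (pen (e t 14 (3 + k))).card =
      (dc (e t 14 (3 + k))).card := by
    intro k hk hk4
    have h1 := dc_sum_on H (v := e t 14 (3 + k)) (S.lev_x k (by omega))
      (I := {e t 14 (3 + (k - 1)), e t 14 (3 + (k + 1))}) (by
        intro w hw
        rw [mem_insert, mem_singleton] at hw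
        rcases hw with rfl | rfl
        · exact ⟨S.lev_x (k - 1) (by omega), hne _ _ (by omega) (by omega) (by omega)⟩
        · exact ⟨S.lev_x (k + 1) (by omega), hne _ _ (by omega) (by omega) (by omega)⟩) (by
        intro w hw h1 h2
        rw [mem_insert, mem_singleton, not_or] at h2
        exact la7_far K hJ h04 D hk (by omega) hw h1 h2.1 (fun _ => h2.2))
    rw [sum_pair (hne _ _ (by omega) (by omega) (by omega)), hg k hk4, StB_dcv_comm] at h1
    have h2 := hg (k - 1) (by omega)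
    rw [show k - 1 + 1 = k by omega] at h2
    rw [h2] at h1
    exact h1
  have hlast : g 3 + (pen (e t 14 7)).card = (dc (e t 14 7)).card := by
    have h1 := dc_sum_on H (v := e t 14 (3 + 4)) (S.lev_x 4 (by omega))
      (I := {e t 14 (3 + 3)}) (by
        intro w hw
        rw [mem_singleton] at hw
        subst hw
        exact ⟨S.lev_x 3 (by omega), hne _ _ (by omega) (by omega) (by omega)⟩) (by
        intro w hw h1 h2
        rw [mem_singleton] at h2
        exact la7_far K hJ h04 D (by omega) (by omega) hw h1 h2 (fun h => absurd h (by omega)))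
    rw [sum_singleton, StB_dcv_comm, hg 3 (by omega)] at h1
    exact h1
  have m1 : g 0 + g 1 + (pen (e t 14 4)).card = (dc (e t 14 4)).card :=
    hmid 1 (by omega) (by omega)
  have m2 : g 1 + g 2 + (pen (e t 14 5)).card = (dc (e t 14 5)).card :=
    hmid 2 (by omega) (by omega)
  have m3 : g 2 + g 3 + (pen (e t 14 6)).card = (dc (e t 14 6)).card :=
    hmid 3 (by omega) (by omega)
  have d1 : 1 ≤ (dc (e t 14 4)).card ∧ (dc (e t 14 4)).card ≤ 2 := hdc 1 (by omega)
  have d2 : 1 ≤ (dc (e t 14 5)).card ∧ (dc (e t 14 5)).card ≤ 2 := hdc 2 (by omega)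
  have d3 : 1 ≤ (dc (e t 14 6)).card ∧ (dc (e t 14 6)).card ≤ 2 := hdc 3 (by omega)
  have d4 : 1 ≤ (dc (e t 14 7)).card ∧ (dc (e t 14 7)).card ≤ 2 := hdc 4 (by omega)
  rw [p1] at m1
  rw [p2, card_empty] at m2
  rw [p3, card_empty] at m3
  rw [p4, card_empty] at hlast
  omega

end Pool.Agent.GaussPoset.Np

end

/-! From `Pool.Agent.W_448jb_h67.NpD` -/

section

/-!
The near patterns of `La7` at `j = 14` (MP_448cb3_co, step B): the join and the three patterns
-/

namespace Pool.Agent.GaussPoset.Np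

set_option linter.unusedSectionVars false

open Finset Polynomial Win Wd Cl

universe u

variable {P : Type u} [Fintype P] [PartialOrder P] [DecidableEq P] {r : ℕ}
  {lo hi : Tops P → ℕ → ℕ} {e : Tops P → ℕ → ℕ → P}

/-- the matching polynomial of the level, cut at the first element of the row -/
theorem la7_cut (K : Sm.Ctx P r 14 lo hi e) (hr : 14 ≤ r) (hJ : Tv.JFB P)
    (h04 : ∀ t, WordD 14 7 wa7 (lo t) (hi t) → dcv (e t 14 3) (e t 14 7) = 0) {t : Tops P}
    (D : WordD 14 7 wa7 (lo t) (hi t)) {y : ℕ → P} (hy : y = fun k => e t 14 (3 + k))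
    {B : Finset P} (hB : B = lv P 14 \ {y 0, y 1, y 2, y 3, y 4}) :
    St.mp (Df 14) {y 0, y 1, y 2, y 3, y 4} * St.mp (Df 14) B +
      St.mp (Df 14) {y 1, y 2, y 3, y 4} *
        ∑ u ∈ B, C (Df 14 {y 0, u}) * X * St.mp (Df 14) (B.erase u) = 1 := by
  classical
  have H := K.gt.H
  have S : Rw P 14 (t : P) 4 y := by
    rw [hy]
    exact la7_row K D
  have hne : ∀ a b, a ≤ 4 → b ≤ 4 → a ≠ b → y a ≠ y b :=
    fun a b ha hb hab h => hab (S.inj a b ha hb h)
  have hnB : ∀ a, a ≤ 4 → y a ∉ B := by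
    intro a ha h
    rw [hB, mem_sdiff] at h
    refine h.2 ?_
    simp only [mem_insert, mem_singleton]
    obtain rfl | rfl | rfl | rfl | rfl : a = 0 ∨ a = 1 ∨ a = 2 ∨ a = 3 ∨ a = 4 := by omega
    · exact Or.inl rfl
    · exact Or.inr (Or.inl rfl)
    · exact Or.inr (Or.inr (Or.inl rfl))
    · exact Or.inr (Or.inr (Or.inr (Or.inl rfl)))
    · exact Or.inr (Or.inr (Or.inr (Or.inr rfl)))
  have hsub : ({y 0, y 1, y 2, y 3, y 4} : Finset P) ⊆ lv P 14 := by
    intro v hv
    simp only [mem_insert, mem_singleton] at hv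
    rw [mem_lv]
    rcases hv with rfl | rfl | rfl | rfl | rfl
    · exact S.lev_x 0 (by omega)
    · exact S.lev_x 1 (by omega)
    · exact S.lev_x 2 (by omega)
    · exact S.lev_x 3 (by omega)
    · exact S.lev_x 4 (by omega)
  have hlv : lv P 14 = insert (y 0) ({y 1, y 2, y 3, y 4} ∪ B) := by
    rw [hB, ← insert_union]
    exact (union_sdiff_of_subset hsub).symm
  have hV : ∀ u ∈ ({y 1, y 2, y 3, y 4} : Finset P), ∃ k, 1 ≤ k ∧ k ≤ 4 ∧ u = y k := by
    intro u hu
    simp only [mem_insert, mem_singleton] at hu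
    rcases hu with rfl | rfl | rfl | rfl
    · exact ⟨1, by omega, by omega, rfl⟩
    · exact ⟨2, by omega, by omega, rfl⟩
    · exact ⟨3, by omega, by omega, rfl⟩
    · exact ⟨4, by omega, by omega, rfl⟩
  have haV : y 0 ∉ ({y 1, y 2, y 3, y 4} : Finset P) := by
    intro h
    obtain ⟨k, h1, h2, h3⟩ := hV _ h
    exact hne 0 k (by omega) h2 (by omega) h3
  have hVB : Disjoint ({y 1, y 2, y 3, y 4} : Finset P) B := by
    rw [disjoint_left]
    intro u hu
    obtain ⟨k, h1, h2, rfl⟩ := hV _ hu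
    exact hnB k h2
  have hx : ∀ u ∈ ({y 1, y 2, y 3, y 4} : Finset P), ∀ w ∈ B, Df 14 {u, w} = 0 := by
    intro u hu w hw
    obtain ⟨k, h1, h2, rfl⟩ := hV _ hu
    have hw1 : ∀ a, a ≤ 4 → w ≠ y a := by
      rintro a ha rfl
      exact hnB a ha hw
    have hlw : lev w = 14 := by
      rw [hB, mem_sdiff] at hw
      exact mem_lv.1 hw.1
    have hd : dcv (y k) w = 0 := by
      have a1 := hw1 k h2
      have a2 := hw1 (k - 1) (by omega)
      have a3 : k < 4 → w ≠ y (k + 1) := fun h => hw1 (k + 1) (by omega)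
      rw [hy] at a1 a2 a3 ⊢
      exact la7_far K hJ h04 D h1 h2 hlw a1 a2 a3
    have hu0 : ucv (y k) w = 0 := by
      by_contra hcon
      have h5 := K.gt.top_of_ucv (v := y k) (v' := w) (t := t) (by rw [S.lev_x k h2])
        (Nat.one_le_iff_ne_zero.2 hcon) t.2 (S.le_t k h2)
      obtain ⟨b, hb, hb2⟩ := S.surj w hlw h5
      exact hw1 b hb hb2.symm
    rw [Df_pair H (S.lev_x k h2) (hw1 k h2).symm, hd, hu0]
    norm_num
  have h1 := mp_cut (Df 14 : Finset P → ℤ) haV (hnB 0 (by omega)) hVB hx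
  rw [← hlv, St.mp_level H hr] at h1
  exact h1.symm

/-- the three patterns of the strip `La7` -/
structure Pat (t : P) (f : ℕ → ℕ → P) : Prop where
  fb : ∃ z x, W4.FJn 14 z x (f 14 3) ∧ Sm.Dt 14 (f 14 3) (5, 25, 0)
  d34 : dcv (f 14 3) (f 14 4) = 0
  d37 : dcv (f 14 3) (f 14 7) = 0
  p3 : (pen (f 14 3)).card ≤ 1
  p4 : (pen (f 14 4)).card = 1
  p5 : pen (f 14 5) = ∅
  p6 : pen (f 14 6) = ∅
  p7 : pen (f 14 7) = ∅
  pat : (dcv (f 14 4) (f 14 5) = 1 ∧ dcv (f 14 5) (f 14 6) = 1 ∧ dcv (f 14 6) (f 14 7) = 1) ∨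
    (dcv (f 14 4) (f 14 5) = 1 ∧ dcv (f 14 5) (f 14 6) = 0 ∧ dcv (f 14 6) (f 14 7) = 2) ∨
    (dcv (f 14 4) (f 14 5) = 0 ∧ dcv (f 14 5) (f 14 6) = 1 ∧ dcv (f 14 6) (f 14 7) = 1)

/-- **Step B.**  If every join of level 15 is a join of a fold end and an end `(5, 25, 0)` and the
pendants of the doubles of level 14 are below the first doubles, then every component `La7` has
one of three patterns, and its first element of level 14 is below a join. -/
theorem la7_pat (K : Sm.Ctx P r 14 lo hi e) (hr : 15 ≤ r) (hJ : Tv.JFB P)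
    (hA : ∀ t a, lo t 12 + 2 ≤ a → a ≤ hi t 12 → pen (e t 14 a) = ∅) {t : Tops P}
    (D : WordD 14 7 wa7 (lo t) (hi t)) : Pat (t : P) (e t) := by
  classical
  have H := K.gt.H
  have h4 := Tv.pen_last K.gt K.comp K.shape
  have h04 := Tv.dcv_ends K.gt K.comp K.shape hJ
  obtain ⟨p4, p5, p6⟩ := la7_pen K hA D
  obtain ⟨y, hy⟩ : ∃ y : ℕ → P, y = fun k => e t 14 (3 + k) := ⟨_, rfl⟩
  obtain ⟨g, hgd⟩ : ∃ g : ℕ → ℕ, g = fun k => dcv (y k) (y (k + 1)) := ⟨_, rfl⟩
  have S : Rw P 14 (t : P) 4 y := by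
    rw [hy]
    exact la7_row K D
  have hg : ∀ k, k < 4 → dcv (e t 14 (3 + k)) (e t 14 (3 + (k + 1))) = g k := by
    intro k hk
    rw [hgd, hy]
  obtain ⟨s1, s2, s3, s4⟩ := la7_sums K hr hJ hA h4 h04 D hg
  have hcases := la7_arith s1 s2 s3 s4
  obtain ⟨B, hB⟩ : ∃ B : Finset P, B = lv P 14 \ {y 0, y 1, y 2, y 3, y 4} := ⟨_, rfl⟩
  have hcut := la7_cut K (by omega) hJ h04 D hy hB
  have hd04 : dcv (y 0) (y 4) = 0 := by
    rw [hy]
    exact h04 t D
  have hfar : ∀ a b, a + 2 ≤ b → b < 5 → Df 14 {y a, y b} = 0 := by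
    intro a b h1 h2
    by_cases h3 : a = 0 ∧ b = 4
    · obtain ⟨rfl, rfl⟩ := h3
      rw [S.Df_ends H (by omega), hd04]
      rfl
    · exact S.onStrip H a b (by omega) (by omega) h3
  have hc : ∀ a, a < 4 → Df 14 {y a, y (a + 1)} = (fun k => (g k : ℤ) - 1) a := by
    intro a ha
    rw [S.Df_adj H ha, hgd]
  obtain ⟨ev1, ev0⟩ := ev_path (A := (Df 14 : Finset P → ℤ)) (y := y)
    (fun a ha b hb h => S.inj a b (by omega) (by omega) h) hfar hc

  have hev := congrArg (eval 1) hcut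
  rw [eval_add, eval_mul, eval_mul, ev1, ev0, eval_one] at hev
  -- the first element is below a join
  have hjoin : ∃ u ∈ B, Df 14 {y 0, u} ≠ 0 := by
    by_contra hcon
    push Not at hcon
    have h0 : ∑ u ∈ B, C (Df 14 {y 0, u}) * X * St.mp (Df 14) (B.erase u) = 0 := by
      refine sum_eq_zero fun u hu => ?_
      rw [hcon u hu]
      simp
    rw [h0, mul_zero, add_zero] at hcut
    have h1 := St.eq_one_of_mul hcut St.coeff_zero_mp
    have h2 := congrArg (eval 1) h1
    rw [ev0, eval_one] at h2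
    rcases hcases with ⟨g0, ⟨g1, g2, g3⟩ | ⟨g1, g2, g3⟩ | ⟨g1, g2, g3⟩⟩ | ⟨g0, g1, g2, g3⟩ |
      ⟨g0, g1, g2, g3⟩ <;>
    · rw [g0, g1, g2, g3] at h2
      norm_num at h2
  obtain ⟨u, huB, hu⟩ := hjoin
  have hul : lev u = 14 := by
    rw [hB, mem_sdiff] at huB
    exact mem_lv.1 huB.1
  have hun : ∀ a, a ≤ 4 → u ≠ y a := by
    rintro a ha rfl
    rw [hB, mem_sdiff] at huB
    refine huB.2 ?_
    simp only [mem_insert, mem_singleton]
    obtain rfl | rfl | rfl | rfl | rfl : a = 0 ∨ a = 1 ∨ a = 2 ∨ a = 3 ∨ a = 4 := by omega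
    · exact Or.inl rfl
    · exact Or.inr (Or.inl rfl)
    · exact Or.inr (Or.inr (Or.inl rfl))
    · exact Or.inr (Or.inr (Or.inr (Or.inl rfl)))
    · exact Or.inr (Or.inr (Or.inr (Or.inr rfl)))
  have hut : ¬ u ≤ (t : P) := fun h => by
    obtain ⟨b, hb, hb2⟩ := S.surj u hul h
    exact hun b hb hb2.symm
  have hdu : dcv (y 0) u ≠ 0 := by
    intro h
    refine hu ?_
    have hu0 : ucv (y 0) u = 0 := by
      by_contra hcon
      exact hut (K.gt.top_of_ucv (v := y 0) (v' := u) (t := t) (by rw [S.lev_x 0 (by omega)])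
        (Nat.one_le_iff_ne_zero.2 hcon) t.2 (S.le_t 0 (by omega)))
    rw [Df_pair H (S.lev_x 0 (by omega)) (hun 0 (by omega)).symm, h, hu0]
    norm_num
  obtain ⟨z, hz, hz'⟩ := StA_of_dcv (Nat.one_le_iff_ne_zero.2 hdu)
  have hlz : lev z = 15 := by
    have h1 := lev_cov H hz
    rw [S.lev_x 0 (by omega)] at h1
    exact h1
  have hzj : Hul.Jn z := by
    by_contra hcon
    exact hut (le_of_not_jn t.2 hcon (hz.le.trans (S.le_t 0 (by omega))) hz')
  have hfb := join_y0 K hJ D hlz hzj hz (S.le_t 0 (by omega))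
  -- the lower covers of the first element
  have hsum : g 0 + dcv (y 0) u + (pen (y 0)).card ≤ 2 := by
    have h1 := dc_sum_le H (v := y 0) (S.lev_x 0 (by omega)) (I := {y 1, u}) (by
      intro w hw
      rw [mem_insert, mem_singleton] at hw
      rcases hw with rfl | rfl
      · exact ⟨S.lev_x 1 (by omega), fun h => by
          have := S.inj 1 0 (by omega) (by omega) h
          omega⟩
      · exact ⟨hul, hun 0 (by omega)⟩)
    rw [sum_pair (hun 1 (by omega)).symm] at h1
    rw [hgd]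
    exact h1
  have hg0 : g 0 = 0 ∧ ((g 1 = 1 ∧ g 2 = 1 ∧ g 3 = 1) ∨ (g 1 = 1 ∧ g 2 = 0 ∧ g 3 = 2) ∨
      (g 1 = 0 ∧ g 2 = 1 ∧ g 3 = 1)) := by
    rcases hcases with h | ⟨g0, g1, g2, g3⟩ | ⟨g0, g1, g2, g3⟩
    · exact h
    · exfalso
      rw [g0, g1, g2, g3] at hev
      norm_num at hev
    · exfalso
      rw [g0, g1, g2, g3] at hev
      norm_num at hev
  obtain ⟨g0, hpat⟩ := hg0
  have ey : ∀ k, y k = e t 14 (3 + k) := fun k => by rw [hy]
  obtain ⟨e0, x, hx1, hx2⟩ := hfb
  rw [e0] at hx1 hx2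
  refine ⟨⟨z, x, hx1, hx2⟩, ?_, h04 t D, ?_, p4, p5, p6, h4 t D, ?_⟩
  · rw [← g0]
    exact hg 0 (by omega)
  · have h1 : (pen (y 0)).card ≤ 1 := by omega
    rw [e0] at h1
    exact h1
  · have f1 : dcv (e t 14 4) (e t 14 5) = g 1 := hg 1 (by omega)
    have f2 : dcv (e t 14 5) (e t 14 6) = g 2 := hg 2 (by omega)
    have f3 : dcv (e t 14 6) (e t 14 7) = g 3 := hg 3 (by omega)
    rw [f1, f2, f3]
    exact hpat

end Pool.Agent.GaussPoset.Np

end

/-! From `Pool.Agent.W_448jb_h67.NpE` -/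

section

/-!
The near patterns of `La7` at `j = 14` (MP_448cb3_co, step B): the elements of level 15 below the
elements `1, …, 4` of the row, as masks
-/

namespace Pool.Agent.GaussPoset.Np

set_option linter.unusedSectionVars false

open Finset Polynomial Win Wd Cl

universe u

variable {P : Type u} [Fintype P] [PartialOrder P] [DecidableEq P] {r : ℕ}
  {lo hi : Tops P → ℕ → ℕ} {e : Tops P → ℕ → ℕ → P}

/-- the covers of the elements of level 15 below the elements `1, …, 4` of the row -/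
theorem la7_cov (K : Sm.Ctx P r 14 lo hi e) (hJ : Tv.JFB P) {t : Tops P}
    (D : WordD 14 7 wa7 (lo t) (hi t)) (Pt : Pat (t : P) (e t)) {z : P} {k : ℕ} (hk : 1 ≤ k)
    (hk4 : k ≤ 4) (hzk : z ⋖ e t 14 (3 + k)) :
    (∀ y, z ⋖ y ↔ y = e t 14 4) ∨ ∃ a, 1 ≤ a ∧ a ≤ 3 ∧
      ∀ y, z ⋖ y ↔ y = e t 14 (3 + a) ∨ y = e t 14 (3 + (a + 1)) := by
  have H := K.gt.H
  have S := la7_row K D
  have h04 := Tv.dcv_ends K.gt K.comp K.shape hJ
  have hly : lev (e t 14 (3 + k)) = 14 := S.lev_x k hk4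
  have hlz : lev z = 15 := by
    have := lev_cov H hzk
    omega
  rcases uc_card_cases H (x := z) (by omega) with h1 | h1
  · left
    have hzp : z ∈ pen (e t 14 (3 + k)) := mem_pen.2 ⟨hzk, h1⟩
    obtain rfl | rfl | rfl | rfl : k = 1 ∨ k = 2 ∨ k = 3 ∨ k = 4 := by omega
    · intro y
      constructor
      · intro hy
        exact uc_unique h1 hy hzk
      · rintro rfl
        exact hzk
    · have hzp' : z ∈ pen (e t 14 5) := hzp
      rw [Pt.p5] at hzp'
      exact absurd hzp' (notMem_empty _)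
    · have hzp' : z ∈ pen (e t 14 6) := hzp
      rw [Pt.p6] at hzp'
      exact absurd hzp' (notMem_empty _)
    · have hzp' : z ∈ pen (e t 14 7) := hzp
      rw [Pt.p7] at hzp'
      exact absurd hzp' (notMem_empty _)
  · right
    obtain ⟨w, hw, hwn⟩ := exists_other_uc (y := e t 14 (3 + k)) h1
    have hlw : lev w = 14 := by
      have := lev_cov H hw
      omega
    have hd := StA_dcv_pos hzk hw
    have huc := StB_uc_pair H hzk hw hwn.symm
    have hiff : ∀ y, z ⋖ y ↔ y = e t 14 (3 + k) ∨ y = w := by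
      intro y
      rw [← mem_uc, huc, mem_insert, mem_singleton]
    by_cases e1 : w = e t 14 (3 + (k - 1))
    · by_cases hk1 : k = 1
      · exfalso
        subst hk1
        have e2 : w = e t 14 3 := e1
        have e3 := Pt.d34
        rw [e2, StB_dcv_comm] at hd
        have e4 : 1 ≤ dcv (e t 14 3) (e t 14 4) := hd
        omega
      · refine ⟨k - 1, by omega, by omega, fun y => ?_⟩
        rw [hiff, e1, show k - 1 + 1 = k by omega]
        exact or_comm
    · by_cases e2 : k < 4 ∧ w = e t 14 (3 + (k + 1))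
      · refine ⟨k, hk, by omega, fun y => ?_⟩
        rw [hiff, e2.2]
      · exfalso
        have h5 := la7_far K hJ h04 D hk hk4 hlw hwn e1 (fun h h' => e2 ⟨h, h'⟩)
        omega

/-- an element with one cover, as a mask -/
lemma mk_one {f : ℕ → ℕ → P} {z : P} {m a : ℕ} (hl : lev z = 15) (ha : a < 30)
    (hm : ∀ c < 30, m.testBit c = true ↔ c = a) (h : ∀ y, z ⋖ y ↔ y = Sg.ce f a) :
    Sg.Mk f z m := by
  refine ⟨hl, fun y => ?_⟩
  rw [h]
  constructor
  · rintro rfl
    exact ⟨a, ha, (hm a ha).2 rfl, rfl⟩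
  · rintro ⟨b, hb, hb2, rfl⟩
    rw [(hm b hb).1 hb2]

/-- an element with two covers, as a mask -/
lemma mk_two {f : ℕ → ℕ → P} {z : P} {m a b : ℕ} (hl : lev z = 15) (ha : a < 30) (hb : b < 30)
    (hm : ∀ c < 30, m.testBit c = true ↔ c = a ∨ c = b)
    (h : ∀ y, z ⋖ y ↔ y = Sg.ce f a ∨ y = Sg.ce f b) : Sg.Mk f z m := by
  refine ⟨hl, fun y => ?_⟩
  rw [h]
  constructor
  · rintro (rfl | rfl)
    · exact ⟨a, ha, (hm a ha).2 (Or.inl rfl), rfl⟩
    · exact ⟨b, hb, (hm b hb).2 (Or.inr rfl), rfl⟩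
  · rintro ⟨c, hc, hc2, rfl⟩
    rcases (hm c hc).1 hc2 with rfl | rfl
    · exact Or.inl rfl
    · exact Or.inr rfl

lemma bit_p : ∀ c < 30, (67108864 : ℕ).testBit c = true ↔ c = 26 := by decide +kernel

lemma bit_1 : ∀ c < 30, (201326592 : ℕ).testBit c = true ↔ c = 26 ∨ c = 27 := by decide +kernel

lemma bit_2 : ∀ c < 30, (402653184 : ℕ).testBit c = true ↔ c = 27 ∨ c = 28 := by decide +kernel

lemma bit_3 : ∀ c < 30, (805306368 : ℕ).testBit c = true ↔ c = 28 ∨ c = 29 := by decide +kernel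

/-- one common lower cover -/
lemma dcv_uniq {v w z z' : P} (h : dcv v w ≤ 1) (h1 : z ⋖ v) (h2 : z ⋖ w) (h3 : z' ⋖ v)
    (h4 : z' ⋖ w) : z = z' := by
  classical
  unfold dcv at h
  rw [card_le_one] at h
  exact h z (mem_filter.2 ⟨mem_univ _, h1, h2⟩) z' (mem_filter.2 ⟨mem_univ _, h3, h4⟩)

/-- two common lower covers -/
lemma dcv_two {v w : P} (h : dcv v w = 2) : ∃ z z', z ≠ z' ∧ z ⋖ v ∧ z ⋖ w ∧ z' ⋖ v ∧ z' ⋖ w ∧
    ∀ x, x ⋖ v → x ⋖ w → x = z ∨ x = z' := by
  classical
  unfold dcv at h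
  obtain ⟨z, z', h1, h2⟩ := card_eq_two.1 h
  have h3 : ∀ x, x ⋖ v ∧ x ⋖ w ↔ x = z ∨ x = z' := by
    intro x
    have h4 : x ∈ univ.filter (fun x => x ⋖ v ∧ x ⋖ w) ↔ x ∈ ({z, z'} : Finset P) := by rw [h2]
    rw [mem_filter, mem_insert, mem_singleton] at h4
    simpa using h4
  have a1 := (h3 z).2 (Or.inl rfl)
  have a2 := (h3 z').2 (Or.inr rfl)
  exact ⟨z, z', h1, a1.1, a1.2, a2.1, a2.2, fun x hx hx' => (h3 x).1 ⟨hx, hx'⟩⟩

end Pool.Agent.GaussPoset.Np

end

/-! From `Pool.Agent.W_448jb_h67.NpF` -/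

section

/-!
The near patterns of `La7` at `j = 14` (MP_448cb3_co, step B): the structures `JA`, `JB`
-/

namespace Pool.Agent.GaussPoset.Np

set_option linter.unusedSectionVars false

open Finset Polynomial Win Wd Cl

universe u

variable {P : Type u} [Fintype P] [PartialOrder P] [DecidableEq P] {r : ℕ}
  {lo hi : Tops P → ℕ → ℕ} {e : Tops P → ℕ → ℕ → P}

/-- **Step B**, the elements of level 15 below the elements `1, …, 4` of the row of `La7` -/
theorem la7_JAB (K : Sm.Ctx P r 14 lo hi e) (hr : 15 ≤ r) (hJ : Tv.JFB P)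
    (hA : ∀ t a, lo t 12 + 2 ≤ a → a ≤ hi t 12 → pen (e t 14 a) = ∅) {t : Tops P}
    (D : WordD 14 7 wa7 (lo t) (hi t)) :
    ∃ A : Finset P, (∀ x, x ∈ A ↔ ∃ k, 4 ≤ k ∧ k ≤ 7 ∧ x ⋖ e t 14 k) ∧
      ((∃ c, W7.JA (e t) A c) ∨ ∃ c c', W7.JB (e t) A c c') := by
  classical
  have H := K.gt.H
  have Pt := la7_pat K hr hJ hA D
  have S := la7_row K D
  have c26 : ∀ f : ℕ → ℕ → P, Sg.ce f 26 = f 14 4 := fun f => rfl
  have c27 : ∀ f : ℕ → ℕ → P, Sg.ce f 27 = f 14 5 := fun f => rfl
  have c28 : ∀ f : ℕ → ℕ → P, Sg.ce f 28 = f 14 6 := fun f => rfl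
  have c29 : ∀ f : ℕ → ℕ → P, Sg.ce f 29 = f 14 7 := fun f => rfl
  have hl : ∀ z k, 1 ≤ k → k ≤ 4 → z ⋖ e t 14 (3 + k) → lev z = 15 := by
    intro z k hk hk4 hz
    have h1 := lev_cov H hz
    rw [S.lev_x k hk4] at h1
    exact h1
  have hcov : ∀ z k, 4 ≤ k → k ≤ 7 → z ⋖ e t 14 k →
      (∀ y, z ⋖ y ↔ y = e t 14 4) ∨ (∀ y, z ⋖ y ↔ y = e t 14 4 ∨ y = e t 14 5) ∨
      (∀ y, z ⋖ y ↔ y = e t 14 5 ∨ y = e t 14 6) ∨
      (∀ y, z ⋖ y ↔ y = e t 14 6 ∨ y = e t 14 7) := by
    intro z k hk hk7 hz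
    obtain ⟨k', rfl⟩ : ∃ k', k = 3 + k' := ⟨k - 3, by omega⟩
    rcases la7_cov K hJ D Pt (k := k') (by omega) (by omega) hz with h | ⟨a, h1, h2, h⟩
    · exact Or.inl h
    · obtain rfl | rfl | rfl : a = 1 ∨ a = 2 ∨ a = 3 := by omega
      · exact Or.inr (Or.inl h)
      · exact Or.inr (Or.inr (Or.inl h))
      · exact Or.inr (Or.inr (Or.inr h))
  set A : Finset P := univ.filter (fun x => ∃ k, 4 ≤ k ∧ k ≤ 7 ∧ x ⋖ e t 14 k) with hAd
  have mA : ∀ x, x ∈ A ↔ ∃ k, 4 ≤ k ∧ k ≤ 7 ∧ x ⋖ e t 14 k := by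
    intro x
    rw [hAd, mem_filter]
    exact ⟨fun h => h.2, fun h => ⟨mem_univ _, h⟩⟩
  have hlA : ∀ x ∈ A, lev x = 15 := by
    intro x hx
    obtain ⟨k, h1, h2, h3⟩ := (mA x).1 hx
    exact hl x (k - 3) (by omega) (by omega) (by rw [show 3 + (k - 3) = k by omega]; exact h3)
  have hcA : ∀ x ∈ A, (∀ y, x ⋖ y ↔ y = e t 14 4) ∨ (∀ y, x ⋖ y ↔ y = e t 14 4 ∨ y = e t 14 5) ∨
      (∀ y, x ⋖ y ↔ y = e t 14 5 ∨ y = e t 14 6) ∨
      (∀ y, x ⋖ y ↔ y = e t 14 6 ∨ y = e t 14 7) := by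
    intro x hx
    obtain ⟨k, h1, h2, h3⟩ := (mA x).1 hx
    exact hcov x k h1 h2 h3
  have mkp : ∀ x, lev x = 15 → (∀ y, x ⋖ y ↔ y = e t 14 4) → Sg.Mk (e t) x 67108864 :=
    fun x h1 h2 => mk_one (a := 26) h1 (by norm_num) bit_p h2
  have mk1 : ∀ x, lev x = 15 → (∀ y, x ⋖ y ↔ y = e t 14 4 ∨ y = e t 14 5) →
      Sg.Mk (e t) x 201326592 :=
    fun x h1 h2 => mk_two (a := 26) (b := 27) h1 (by norm_num) (by norm_num) bit_1 h2
  have mk2 : ∀ x, lev x = 15 → (∀ y, x ⋖ y ↔ y = e t 14 5 ∨ y = e t 14 6) →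
      Sg.Mk (e t) x 402653184 :=
    fun x h1 h2 => mk_two (a := 27) (b := 28) h1 (by norm_num) (by norm_num) bit_2 h2
  have mk3 : ∀ x, lev x = 15 → (∀ y, x ⋖ y ↔ y = e t 14 6 ∨ y = e t 14 7) →
      Sg.Mk (e t) x 805306368 :=
    fun x h1 h2 => mk_two (a := 28) (b := 29) h1 (by norm_num) (by norm_num) bit_3 h2
  have all : ∀ x ∈ A, Sg.Mk (e t) x 67108864 ∨ Sg.Mk (e t) x 201326592 ∨
      Sg.Mk (e t) x 402653184 ∨ Sg.Mk (e t) x 805306368 := by
    intro x hx
    rcases hcA x hx with h | h | h | h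
    · exact Or.inl (mkp x (hlA x hx) h)
    · exact Or.inr (Or.inl (mk1 x (hlA x hx) h))
    · exact Or.inr (Or.inr (Or.inl (mk2 x (hlA x hx) h)))
    · exact Or.inr (Or.inr (Or.inr (mk3 x (hlA x hx) h)))
  -- the elements of the two row pairs are different
  have hne : ∀ a b, a ≤ 4 → b ≤ 4 → a ≠ b → e t 14 (3 + a) ≠ e t 14 (3 + b) :=
    fun a b ha hb hab h => hab (S.inj a b ha hb h)
  have n45 : e t 14 4 ≠ e t 14 5 := hne 1 2 (by omega) (by omega) (by omega)
  have n46 : e t 14 4 ≠ e t 14 6 := hne 1 3 (by omega) (by omega) (by omega)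
  have n47 : e t 14 4 ≠ e t 14 7 := hne 1 4 (by omega) (by omega) (by omega)
  have n56 : e t 14 5 ≠ e t 14 6 := hne 2 3 (by omega) (by omega) (by omega)
  have n57 : e t 14 5 ≠ e t 14 7 := hne 2 4 (by omega) (by omega) (by omega)
  have n67 : e t 14 6 ≠ e t 14 7 := hne 3 4 (by omega) (by omega) (by omega)
  -- the pendant
  obtain ⟨p, hp⟩ := card_eq_one.1 Pt.p4
  have hp1 : p ∈ pen (e t 14 4) := by
    rw [hp]
    exact mem_singleton_self p
  rw [mem_pen] at hp1
  have hpA : p ∈ A := (mA p).2 ⟨4, by omega, by omega, hp1.1⟩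
  have hpc : ∀ y, p ⋖ y ↔ y = e t 14 4 := fun y =>
    ⟨fun hy => uc_unique hp1.2 hy hp1.1, fun hy => hy ▸ hp1.1⟩
  have hpu : ∀ x, (∀ y, x ⋖ y ↔ y = e t 14 4) → x = p := by
    intro x hx
    have h1 : x ∈ pen (e t 14 4) := by
      rw [mem_pen]
      refine ⟨(hx _).2 rfl, ?_⟩
      rw [card_eq_one]
      refine ⟨e t 14 4, ?_⟩
      ext y
      rw [mem_uc, mem_singleton]
      exact hx y
    rw [hp, mem_singleton] at h1
    exact h1
  -- equal masks
  have same : ∀ x y m, Sg.Mk (e t) x m → Sg.Mk (e t) y m → ∀ w, x ⋖ w → y ⋖ w :=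
    fun x y m hx hy w hw => (hy.2 w).2 ((hx.2 w).1 hw)
  have pq : ∀ a b, a ≤ 4 → b ≤ 4 → a ≠ b → dcv (e t 14 (3 + a)) (e t 14 (3 + b)) ≠ 0 →
      ∃ z, z ⋖ e t 14 (3 + a) ∧ z ⋖ e t 14 (3 + b) := fun a b _ _ _ h =>
    StA_of_dcv (Nat.one_le_iff_ne_zero.2 h)
  refine ⟨A, mA, ?_⟩
  have uq : ∀ x ∈ A, ∀ y ∈ A, ∀ m, Sg.Mk (e t) x m → Sg.Mk (e t) y m →
      dcv (e t 14 4) (e t 14 5) ≤ 1 → dcv (e t 14 5) (e t 14 6) ≤ 1 →
      (x ⋖ e t 14 7 → dcv (e t 14 6) (e t 14 7) ≤ 1) → x = y := by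
    intro x hx y hy m hxm hym d1 d2 d3
    have s1 := same x y m hxm hym
    have s2 := same y x m hym hxm
    rcases hcA x hx with h | h | h | h
    · rw [hpu x h, hpu y fun w => ⟨fun hw => (h w).1 (s2 w hw), fun hw => s1 w ((h w).2 hw)⟩]
    · exact dcv_uniq d1 ((h _).2 (Or.inl rfl)) ((h _).2 (Or.inr rfl))
        (s1 _ ((h _).2 (Or.inl rfl))) (s1 _ ((h _).2 (Or.inr rfl)))
    · exact dcv_uniq d2 ((h _).2 (Or.inl rfl)) ((h _).2 (Or.inr rfl))
        (s1 _ ((h _).2 (Or.inl rfl))) (s1 _ ((h _).2 (Or.inr rfl)))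
    · exact dcv_uniq (d3 ((h _).2 (Or.inr rfl))) ((h _).2 (Or.inl rfl)) ((h _).2 (Or.inr rfl))
        (s1 _ ((h _).2 (Or.inl rfl))) (s1 _ ((h _).2 (Or.inr rfl)))
  have hmem : ∀ k z, 4 ≤ k → k ≤ 7 → z ⋖ e t 14 k → z ∈ A :=
    fun k z h1 h2 h3 => (mA z).2 ⟨k, h1, h2, h3⟩
  -- the elements below two neighbours
  have cv45 : ∀ z, z ⋖ e t 14 4 → z ⋖ e t 14 5 → ∀ y, z ⋖ y ↔ y = e t 14 4 ∨ y = e t 14 5 := by
    intro z h1 h2
    rcases hcA z (hmem 4 z (by omega) (by omega) h1) with h | h | h | h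
    · exact absurd ((h _).1 h2).symm n45
    · exact h
    · rcases (h _).1 h1 with h3 | h3
      · exact absurd h3 n45
      · exact absurd h3 n46
    · rcases (h _).1 h1 with h3 | h3
      · exact absurd h3 n46
      · exact absurd h3 n47
  have cv56 : ∀ z, z ⋖ e t 14 5 → z ⋖ e t 14 6 → ∀ y, z ⋖ y ↔ y = e t 14 5 ∨ y = e t 14 6 := by
    intro z h1 h2
    rcases hcA z (hmem 5 z (by omega) (by omega) h1) with h | h | h | h
    · exact absurd ((h _).1 h1).symm n45
    · rcases (h _).1 h2 with h3 | h3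
      · exact absurd h3.symm n46
      · exact absurd h3.symm n56
    · exact h
    · rcases (h _).1 h1 with h3 | h3
      · exact absurd h3 n56
      · exact absurd h3 n57
  have cv67 : ∀ z, z ⋖ e t 14 6 → z ⋖ e t 14 7 → ∀ y, z ⋖ y ↔ y = e t 14 6 ∨ y = e t 14 7 := by
    intro z h1 h2
    rcases hcA z (hmem 6 z (by omega) (by omega) h1) with h | h | h | h
    · exact absurd ((h _).1 h1).symm n46
    · rcases (h _).1 h1 with h3 | h3
      · exact absurd h3.symm n46
      · exact absurd h3.symm n56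
    · rcases (h _).1 h2 with h3 | h3
      · exact absurd h3.symm n57
      · exact absurd h3.symm n67
    · exact h
  rcases Pt.pat with ⟨d1, d2, d3⟩ | ⟨d1, d2, d3⟩ | ⟨d1, d2, d3⟩
  · -- `J`
    left
    obtain ⟨z2, g1, g2⟩ := StA_of_dcv (v := e t 14 5) (v' := e t 14 6) (by omega)
    obtain ⟨z3, g3, g4⟩ := StA_of_dcv (v := e t 14 6) (v' := e t 14 7) (by omega)
    have m2 := hmem 5 z2 (by omega) (by omega) g1
    have m3 := hmem 6 z3 (by omega) (by omega) g3
    exact ⟨z3, m3, mk3 z3 (hlA _ m3) (cv67 z3 g3 g4), ⟨p, hpA, mkp p (hlA _ hpA) hpc⟩,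
      ⟨z2, m2, mk2 z2 (hlA _ m2) (cv56 z2 g1 g2)⟩, all,
      fun x hx y hy m hxm hym => uq x hx y hy m hxm hym (by omega) (by omega) (fun _ => by omega)⟩
  · -- two elements below the last pair
    right
    obtain ⟨z1, g1, g2⟩ := StA_of_dcv (v := e t 14 4) (v' := e t 14 5) (by omega)
    obtain ⟨z, z', hzz, g3, g4, g5, g6, g7⟩ := dcv_two d3
    have m1 := hmem 4 z1 (by omega) (by omega) g1
    have m3 := hmem 6 z (by omega) (by omega) g3
    have m4 := hmem 6 z' (by omega) (by omega) g5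
    refine ⟨z, z', m3, m4, hzz, mk3 z (hlA _ m3) (cv67 z g3 g4),
      mk3 z' (hlA _ m4) (cv67 z' g5 g6), ⟨p, hpA, mkp p (hlA _ hpA) hpc⟩,
      ⟨z1, m1, mk1 z1 (hlA _ m1) (cv45 z1 g1 g2)⟩, ?_, ?_⟩
    · intro x hx
      rcases hcA x hx with h | h | h | h
      · exact Or.inl (mkp x (hlA x hx) h)
      · exact Or.inr (Or.inl (mk1 x (hlA x hx) h))
      · exfalso
        have h1 := StA_dcv_pos ((h _).2 (Or.inl rfl)) ((h _).2 (Or.inr rfl))
        omega
      · exact Or.inr (Or.inr (g7 x ((h _).2 (Or.inl rfl)) ((h _).2 (Or.inr rfl))))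
    · intro x hx y hy m hm hxm hym
      refine uq x hx y hy m hxm hym (by omega) (by omega) fun hx7 => ?_
      exfalso
      obtain ⟨b, hb, hb2, hb3⟩ := (hxm.2 _).1 hx7
      have h1 : b = 26 ∨ b = 27 := by
        rcases hm with rfl | rfl
        · exact Or.inl ((bit_p b hb).1 hb2)
        · exact (bit_1 b hb).1 hb2
      rcases h1 with rfl | rfl
      · exact n47 hb3
      · exact n57 hb3
  · left
    obtain ⟨z2, g1, g2⟩ := StA_of_dcv (v := e t 14 5) (v' := e t 14 6) (by omega)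
    obtain ⟨z3, g3, g4⟩ := StA_of_dcv (v := e t 14 6) (v' := e t 14 7) (by omega)
    have m2 := hmem 5 z2 (by omega) (by omega) g1
    have m3 := hmem 6 z3 (by omega) (by omega) g3
    exact ⟨z3, m3, mk3 z3 (hlA _ m3) (cv67 z3 g3 g4), ⟨p, hpA, mkp p (hlA _ hpA) hpc⟩,
      ⟨z2, m2, mk2 z2 (hlA _ m2) (cv56 z2 g1 g2)⟩, all,
      fun x hx y hy m hxm hym => uq x hx y hy m hxm hym (by omega) (by omega) (fun _ => by omega)⟩

end Pool.Agent.GaussPoset.Np

end

/-! From `Pool.Agent.W_448jb_h67.NpF2` -/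

section

/-!
The elements of level 15 of a component `La7` at `j = 14` (MP_448cb3_co, step B)
-/

namespace Pool.Agent.GaussPoset.Np

set_option linter.unusedSectionVars false

open Finset Win Wd Cl

universe u

variable {P : Type u} [Fintype P] [PartialOrder P] [DecidableEq P] {r : ℕ}
  {lo hi : Tops P → ℕ → ℕ} {e : Tops P → ℕ → ℕ → P}

lemma bit_0 : ∀ c < 30, (33554432 : ℕ).testBit c = true ↔ c = 25 := by decide +kernel

/-- the elements of level 15 below one component: below the elements `1, …, 4` of the row, or a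
pendant of the first -/
theorem la7_full (K : Sm.Ctx P r 14 lo hi e) {t : Tops P} (D : WordD 14 7 wa7 (lo t) (hi t))
    {A : Finset P} (mA : ∀ x, x ∈ A ↔ ∃ k, 4 ≤ k ∧ k ≤ 7 ∧ x ⋖ e t 14 k) :
    (∀ x ∈ A, lev x = 15) ∧ ∀ z, lev z = 15 → (∀ y, z ⋖ y → y ≤ (t : P)) →
      z ∈ A ∨ Sg.Mk (e t) z 33554432 := by
  have H := K.gt.H
  have S := la7_row K D
  constructor
  · intro x hx
    obtain ⟨k, h1, h2, h3⟩ := (mA x).1 hx
    have h4 := lev_cov H h3
    have h5 := S.lev_x (k - 3) (by omega)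
    rw [show 3 + (k - 3) = k by omega] at h5
    omega
  · intro z hz hc
    by_cases hA : z ∈ A
    · exact Or.inl hA
    · right
      have h0 : ∀ y, z ⋖ y → y = e t 14 3 := by
        intro y hy
        have hly : lev y = 14 := by
          have := lev_cov H hy
          omega
        obtain ⟨b, hb, hby⟩ := S.surj y hly (hc y hy)
        have h1 : e t 14 (3 + b) = y := hby
        by_cases hb0 : b = 0
        · subst hb0
          exact h1.symm
        · exfalso
          refine hA ((mA z).2 ⟨3 + b, by omega, by omega, ?_⟩)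
          rw [h1]
          exact hy
      have h1 : z ⋖ e t 14 3 := by
        rcases uc_card_cases H (x := z) (by omega) with h2 | h2
        · obtain ⟨v, hv⟩ := card_eq_one.1 h2
          have h3 : v ∈ uc z := by rw [hv]; exact mem_singleton_self v
          rw [mem_uc] at h3
          rw [← h0 v h3]
          exact h3
        · obtain ⟨v, hv, -⟩ := exists_other_uc (y := e t 14 3) h2
          rw [← h0 v hv]
          exact hv
      exact mk_one (a := 25) hz (by norm_num) bit_0 fun y => ⟨h0 y, fun h => by rw [h]; exact h1⟩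

end Pool.Agent.GaussPoset.Np

end

/-! From `Pool.Agent.W_448s7s_h5.TvC` -/

section

/-!
The component `E7` at level 14, window 7: its local data and the costs (MP_448cb3_co, S7,
`j = 14`; after `FxO`, `FxP` of helper94).
-/

namespace Pool.Agent.GaussPoset.Tv

set_option linter.unusedSectionVars false

open Polynomial Finset Cl Wd Cp Sg Cs F6

universe u

variable {P : Type u} [Fintype P] [PartialOrder P] [DecidableEq P] {r : ℕ} {v : P}
variable {t : Tops P} {lo hi : ℕ → ℕ} {e : ℕ → ℕ → P}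

/-- **The local data of `E7` at level 14.** -/
theorem exists_E7L7 (h : Win.GoodTo P r 14) (C : Comp 14 (t : P) lo hi e)
    (D : WordD 14 4 w7 lo hi) : ∃ θ, E7L7 t (c7 e 24) θ := by
  classical
  have H := h.H
  have hC := E7_cod14 D C H h.good
  have hst := E7_low D C
  have hl := E7_l14 D C
  generalize hve : c7 e 24 = v at hl
  have hlz : ∀ z, Pend z v → GaussPoset.lev z = 15 := fun z hz => lev15 H hl hz
  have hlw : ∀ w ∈ A16 v, GaussPoset.lev w = 16 := fun w hw => lev16 H hl hw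
  have hc15 : (A15 v).card ≤ 2 := card_low H fun w hw => (mem_A15.mp hw).1
  obtain hc | hc | hc : (A15 v).card = 0 ∨ (A15 v).card = 1 ∨ (A15 v).card = 2 := by omega
  · rw [Finset.card_eq_zero] at hc
    have hno : ∀ z, ¬ Pend z v := by
      intro z hz
      have := mem_A15.mpr hz
      rw [hc] at this
      exact absurd this (Finset.notMem_empty z)
    have hno' : ∀ w, w ∉ A16 v := by
      intro w hw
      obtain ⟨⟨y, hy⟩, h2⟩ := mem_A16.mp hw
      exact hno y (h2 y hy)
    have Dt := dat_of (v := v) (zs := []) List.nodup_nil (fun x => by simp [hno x]) []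
      List.nodup_nil (fun x => by simp [hno' x]) (fun _ => 0) (fun w hw => absurd hw (hno' w))
    exact case_one hC hve hst hlz hlw Dt (n1 := 0) (n2 := 0) rfl (by norm_num) rfl (by norm_num)
      (fun _ => rfl)
  · obtain ⟨z, hz⟩ := Finset.card_eq_one.mp hc
    have hp : ∀ x, Pend x v ↔ x = z := by
      intro x
      rw [← mem_A15, hz, mem_singleton]
    have hcov : ∀ w ∈ A16 v, ∀ y, w ⋖ y ↔ y = z := by
      intro w hw y
      obtain ⟨⟨y', hy'⟩, h2⟩ := mem_A16.mp hw
      constructor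
      · intro h3
        exact (hp y).mp (h2 y h3)
      · rintro rfl
        rw [← (hp y').mp (h2 y' hy')]
        exact hy'
    have Dt := dat_of (v := v) (zs := [z]) (List.nodup_singleton z)
      (fun x => by rw [List.mem_singleton]; exact (hp x).symm) (A16 v).toList
      (Finset.nodup_toList _) (fun x => Finset.mem_toList) (fun _ => 1) (by
        intro w hw y
        rw [hcov w hw y]
        constructor
        · rintro rfl
          exact ⟨0, by simp, by decide, rfl⟩
        · rintro ⟨j, hj, -, hj2⟩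
          have : j = 0 := by simpa using hj
          subst this
          exact hj2.symm)
    refine case_one hC hve hst hlz hlw Dt (n1 := 1) (n2 := (A16 v).card) rfl le_rfl ?_ ?_
      (fun h => absurd h (by norm_num))
    · rw [← Finset.length_toList, List.eq_replicate_iff]
      refine ⟨by rw [List.length_map], ?_⟩
      intro b hb
      obtain ⟨w, -, rfl⟩ := List.mem_map.mp hb
      rfl
    · exact card_low H (x := z) fun w hw => (hcov w hw z).mpr rfl
  · obtain ⟨y0, y1, hne, hz⟩ := Finset.card_eq_two.mp hc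
    -- the general statement
    have key : ∀ z0 z1 : P, z0 ≠ z1 → A15 v = {z0, z1} →
        ((A16 v).filter (fun w => ¬ w ⋖ z0 ∧ w ⋖ z1)).card ≤
          ((A16 v).filter (fun w => w ⋖ z0 ∧ ¬ w ⋖ z1)).card → ∃ θ, E7L7 t v θ := by
      intro z0 z1 hne hz hcard
      have hp : ∀ x, Pend x v ↔ x = z0 ∨ x = z1 := by
        intro x
        rw [← mem_A15, hz, mem_insert, mem_singleton]
      set W3 := (A16 v).filter (fun w => w ⋖ z0 ∧ w ⋖ z1) with hW3
      set W1 := (A16 v).filter (fun w => w ⋖ z0 ∧ ¬ w ⋖ z1) with hW1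
      set W2 := (A16 v).filter (fun w => ¬ w ⋖ z0 ∧ w ⋖ z1) with hW2
      have hcov : ∀ w ∈ A16 v, (∀ y, w ⋖ y → y = z0 ∨ y = z1) ∧ (w ⋖ z0 ∨ w ⋖ z1) := by
        intro w hw
        obtain ⟨⟨y, hy⟩, h2⟩ := mem_A16.mp hw
        refine ⟨fun y hy => (hp y).mp (h2 y hy), ?_⟩
        rcases (hp y).mp (h2 y hy) with rfl | rfl
        · exact Or.inl hy
        · exact Or.inr hy
      have hnd : (W3.toList ++ (W1.toList ++ W2.toList)).Nodup := by
        rw [List.nodup_append]
        refine ⟨W3.nodup_toList, ?_, ?_⟩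
        · rw [List.nodup_append]
          refine ⟨W1.nodup_toList, W2.nodup_toList, ?_⟩
          intro a ha b hb hab
          rw [Finset.mem_toList, mem_filter] at ha hb
          subst hab
          exact hb.2.1 ha.2.1
        · intro a ha b hb hab
          rw [Finset.mem_toList, mem_filter] at ha
          subst hab
          rw [List.mem_append, Finset.mem_toList, Finset.mem_toList, mem_filter,
            mem_filter] at hb
          rcases hb with hb | hb
          · exact hb.2.2 ha.2.2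
          · exact hb.2.1 ha.2.1
      have hmem : ∀ x, x ∈ W3.toList ++ (W1.toList ++ W2.toList) ↔ x ∈ A16 v := by
        intro x
        rw [List.mem_append, List.mem_append, Finset.mem_toList, Finset.mem_toList,
          Finset.mem_toList, mem_filter, mem_filter, mem_filter]
        constructor
        · rintro (h | h | h)
          · exact h.1
          · exact h.1
          · exact h.1
        · intro hx
          have := (hcov x hx).2
          by_cases h0 : x ⋖ z0 <;> by_cases h1 : x ⋖ z1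
          · exact Or.inl ⟨hx, h0, h1⟩
          · exact Or.inr (Or.inl ⟨hx, h0, h1⟩)
          · exact Or.inr (Or.inr ⟨hx, h0, h1⟩)
          · exact absurd this (by tauto)
      have Dt := dat_of (v := v) (zs := [z0, z1]) (by simp [hne])
        (fun x => by rw [hp x]; simp) (W3.toList ++ (W1.toList ++ W2.toList)) hnd hmem
        (fun w => if w ⋖ z0 then (if w ⋖ z1 then 3 else 1) else 2) (by
          intro w hw y
          obtain ⟨g1, g2⟩ := hcov w hw
          have e2 : [z0, z1].length = 2 := rfl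
          rw [e2]
          have q0 : ([z0, z1] : List P).getD 0 v = z0 := rfl
          have q1 : ([z0, z1] : List P).getD 1 v = z1 := rfl
          by_cases h0 : w ⋖ z0
          · by_cases h1 : w ⋖ z1
            · simp only [if_pos h0, if_pos h1]
              constructor
              · intro hy
                rcases g1 y hy with rfl | rfl
                · exact ⟨0, by norm_num, by decide, q0⟩
                · exact ⟨1, by norm_num, by decide, q1⟩
              · rintro ⟨j, hj, -, hj2⟩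
                obtain rfl | rfl : j = 0 ∨ j = 1 := by omega
                · rw [← hj2, q0]; exact h0
                · rw [← hj2, q1]; exact h1
            · simp only [if_pos h0, if_neg h1]
              constructor
              · intro hy
                rcases g1 y hy with rfl | rfl
                · exact ⟨0, by norm_num, by decide, q0⟩
                · exact absurd hy h1
              · rintro ⟨j, hj, hbit, hj2⟩
                obtain rfl | rfl : j = 0 ∨ j = 1 := by omega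
                · rw [← hj2, q0]; exact h0
                · exact absurd hbit (by decide)
          · have h1 : w ⋖ z1 := by tauto
            simp only [if_neg h0]
            constructor
            · intro hy
              rcases g1 y hy with rfl | rfl
              · exact absurd hy h0
              · exact ⟨1, by norm_num, by decide, q1⟩
            · rintro ⟨j, hj, hbit, hj2⟩
              obtain rfl | rfl : j = 0 ∨ j = 1 := by omega
              · exact absurd hbit (by decide)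
              · rw [← hj2, q1]; exact h1)
      have hms : (W3.toList ++ (W1.toList ++ W2.toList)).map
          (fun w => if w ⋖ z0 then (if w ⋖ z1 then 3 else 1) else 2) =
          List.replicate W3.card 3 ++ (List.replicate W1.card 1 ++ List.replicate W2.card 2) := by
        rw [List.map_append, List.map_append]
        refine congrArg₂ _ ?_ (congrArg₂ _ ?_ ?_)
        · rw [← Finset.length_toList, List.eq_replicate_iff]
          refine ⟨by rw [List.length_map], fun b hb => ?_⟩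
          obtain ⟨w, hw, rfl⟩ := List.mem_map.mp hb
          rw [Finset.mem_toList, mem_filter] at hw
          rw [if_pos hw.2.1, if_pos hw.2.2]
        · rw [← Finset.length_toList, List.eq_replicate_iff]
          refine ⟨by rw [List.length_map], fun b hb => ?_⟩
          obtain ⟨w, hw, rfl⟩ := List.mem_map.mp hb
          rw [Finset.mem_toList, mem_filter] at hw
          rw [if_pos hw.2.1, if_neg hw.2.2]
        · rw [← Finset.length_toList, List.eq_replicate_iff]
          refine ⟨by rw [List.length_map], fun b hb => ?_⟩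
          obtain ⟨w, hw, rfl⟩ := List.mem_map.mp hb
          rw [Finset.mem_toList, mem_filter] at hw
          rw [if_neg hw.2.1]
      have hc31 : W1.card + W3.card ≤ 2 := by
        rw [← Finset.card_union_of_disjoint]
        · refine card_low H (x := z0) fun w hw => ?_
          rw [mem_union, mem_filter, mem_filter] at hw
          rcases hw with hw | hw
          · exact hw.2.1
          · exact hw.2.1
        · rw [Finset.disjoint_left]
          intro w hw hw'
          rw [mem_filter] at hw hw'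
          exact hw.2.2 hw'.2.2
      rcases Nat.eq_zero_or_pos W3.card with h3 | h3
      · refine case_two hC hve hst hlz hlw Dt (a := W1.card) (b := W2.card) rfl (by omega) hcard ?_
        rw [hms, h3]
        rfl
      · exact case_com hC hve hst hlz hlw Dt (a := W1.card) (b := W2.card) (d := W3.card) rfl h3
          hc31 hcard hms
    rcases le_total ((A16 v).filter (fun w => ¬ w ⋖ y0 ∧ w ⋖ y1)).card
      ((A16 v).filter (fun w => w ⋖ y0 ∧ ¬ w ⋖ y1)).card with h4 | h4
    · exact key y0 y1 hne hz h4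
    · refine key y1 y0 hne.symm (by rw [hz, Finset.pair_comm]) ?_
      have e1 : (A16 v).filter (fun w => ¬ w ⋖ y1 ∧ w ⋖ y0) =
          (A16 v).filter (fun w => w ⋖ y0 ∧ ¬ w ⋖ y1) :=
        Finset.filter_congr fun w _ => and_comm
      have e2 : (A16 v).filter (fun w => w ⋖ y1 ∧ ¬ w ⋖ y0) =
          (A16 v).filter (fun w => ¬ w ⋖ y0 ∧ w ⋖ y1) :=
        Finset.filter_congr fun w _ => and_comm
      rw [e1, e2]
      exact h4

end Pool.Agent.GaussPoset.Tv

end

/-! From `Pool.Agent.W_448s7s_h5.TvG` -/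

section

/-!
The component `E7` at level 14, window 7, in the form of `WiA` of helper94 (MP_448cb3_co, S7,
`j = 14`; after `FxP` of helper94).
-/

namespace Pool.Agent.GaussPoset.Tv

set_option linter.unusedSectionVars false

open Polynomial Finset Cl Wd Cp Sg Cs F6

universe u

variable {P : Type u} [Fintype P] [PartialOrder P] [DecidableEq P] {r : ℕ} {v : P}
variable {t : Tops P} {lo hi : ℕ → ℕ} {e : ℕ → ℕ → P}

/-- a smaller energy -/
lemma locL_le {i b n0 n1 : ℕ} {N : Finset P} {θ : P → ℕ} {B : P → Prop}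
    (h : LocL i b n0 N θ B) (hn : n1 ≤ n0) : LocL i b n1 N θ B :=
  ⟨fun U h1 h2 h3 h4 n h5 => h.clean U h1 h2 h3 h4 n (by omega), h.lev, h.base, h.step, h.le⟩

/-- **The type of `E7`.** -/
theorem oth_E77 (h : Win.GoodTo P r 14) (C : Comp 14 (t : P) lo hi e) (D : WordD 14 4 w7 lo hi)
    {N : Tops P → Finset P} {θ : P → ℕ} (hN : N t = nE t (c7 e 24))
    (E : E7L7 t (c7 e 24) θ) : W7.Oth N t θ := by
  have H := h.H
  have hC := E7_cod14 D C H h.good
  have hst := E7_low D C
  have hl := E7_l14 D C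
  have hone : ∀ x, x ≤ (t : P) → GaussPoset.lev x = 14 → x = c7 e 24 :=
    fun x hx hxl => E7_one D C hx hxl
  have hvt : c7 e 24 ≤ (t : P) := (E7_le D C (by norm_num)).1
  have hprof := E7_prof hC
  have huc := E7_uc hC
  have hpc : ∀ x, Pend x (c7 e 24) → ct 7 5 x = 46 ∧ ct 7 6 x = 49 :=
    fun x hx => E7_pct7 hC (lev15 H hl hx) hx
  have hup : ∀ x ∈ lowPart 14 (t : P), ∀ y, x ≤ y → y ∈ lowPart 14 (t : P) := by
    intro x hx y hxy
    rw [mem_lowPart] at hx ⊢
    refine ⟨Cp.up_le H h.good t.2 hx.1 hx.2 hxy, ?_⟩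
    rcases eq_or_lt_of_le hxy with h | h
    · rw [← h]; exact hx.2
    · have := lev_strictAnti h; omega
  generalize c7 e 24 = v at *
  have hvlow : v ∈ lowPart 14 (t : P) := mem_lowPart.mpr ⟨hvt, hl.le⟩
  have hup15 : ∀ x, Pend x v → ∀ y, x ≤ y → y ∈ nE t v := by
    intro x hx y hxy
    rcases eq_or_lt_of_le hxy with h1 | h1
    · rw [← h1]
      exact mem_nE.mpr (Or.inr (Or.inl hx))
    · obtain ⟨w, hw, hwy⟩ := Hul.exists_cov h1
      rw [hx.2 w hw] at hwy
      exact mem_nE.mpr (Or.inl (hup v hvlow y hwy))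
  refine ⟨?_, ?_, ?_, ?_, ?_, ?_, ?_, ?_, ?_, ?_⟩
  · rw [hN]
    obtain ⟨B, h1⟩ := E.loc
    exact ⟨B, locL_le h1 (by norm_num)⟩
  · rw [hN]
    intro x hx
    exact mem_nE.mpr (Or.inl hx)
  · rw [hN]
    intro x hx
    rcases mem_nE.mp hx with hx | hx | hx
    · exact (mem_lowPart.mp hx).1
    · exact hx.1.le.trans hvt
    · obtain ⟨⟨y, hy⟩, h2⟩ := mem_A16.mp hx
      exact hy.le.trans ((h2 y hy).1.le.trans hvt)
  · rw [hN]
    intro x hx y hxy
    rcases mem_nE.mp hx with hx | hx | hx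
    · exact mem_nE.mpr (Or.inl (hup x hx y hxy))
    · exact hup15 x hx y hxy
    · rcases eq_or_lt_of_le hxy with h1 | h1
      · rw [← h1]
        exact mem_nE.mpr (Or.inr (Or.inr hx))
      · obtain ⟨w, hw, hwy⟩ := Hul.exists_cov h1
        exact hup15 w ((mem_A16.mp hx).2 w hw) y hwy
  · intro a b ha hb hal hbl
    rw [hone a ha hal, hone b hb hbl]
  · intro z w _ hw hwl hzw
    rw [hone w hw hwl] at hzw
    rw [hN]
    exact mem_nE.mpr (Or.inr (Or.inl hzw))
  · intro w hw hwl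
    rw [hone w hw hwl]
    exact ⟨hprof, E.th14, huc⟩
  · classical
    unfold cn
    refine (Finset.card_le_card (t := {c7 e 2}) ?_).trans (Finset.card_singleton _).le
    intro x hx
    obtain ⟨hx1, hx2⟩ := Finset.mem_filter.mp hx
    rw [mem_lv] at hx1
    obtain ⟨a, ha, rfl⟩ := (hst x).mp (mem_lowPart.mpr ⟨hx2, by omega⟩)
    have h2 : E7lv.getD a 0 = 2 := (hC.lev a ha).symm.trans hx1
    have h3 : ∀ a < 25, E7lv.getD a 0 = 2 → a = 2 := by decide +kernel
    rw [h3 a ha h2]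
    exact mem_singleton_self _
  · intro z hz x hx hxl hzx
    have hz' : z ∉ nE t v := by
      rw [← hN]
      exact mem_unnat.mp hz t
    rw [hN] at hx
    exact le_trans (by norm_num) (kap_E77 H hl hpc E hz' hx (by omega) hzx)
  · intro z hz x hx hxl hw
    have hz' : z ∉ nE t v := by
      rw [← hN]
      exact mem_unnat.mp hz t
    rw [hN] at hx
    exact tw_E7 H hl hz' hx (by omega) hw

/-- **`E7` at the window 7** -/
theorem exists_oth (h : Win.GoodTo P r 14) (C : Comp 14 (t : P) lo hi e)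
    (D : WordD 14 4 w7 lo hi) : ∃ (Nt : Finset P) (θ : P → ℕ), ∀ N : Tops P → Finset P,
      N t = Nt → W7.Oth N t θ := by
  obtain ⟨θ, E⟩ := exists_E7L7 h C D
  exact ⟨nE t (c7 e 24), θ, fun N hN => oth_E77 h C D hN E⟩

/-- the width of `E7` at the window 7 -/
lemma E7_b (C : Comp 14 (t : P) lo hi e) (D : WordD 14 4 w7 lo hi) : hi 7 - lo 7 + 1 = 2 := by
  obtain ⟨h1, h2⟩ := D.rows C
  rw [h1 7 (by omega), h2 7 (by omega)]
  decide +kernel

end Pool.Agent.GaussPoset.Tv

end

/-! From `Pool.Agent.W_448s7s_h5.TyA` -/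

section

/-!
The context at window 7, level 14, with the elements of level 15 below the strips `La7`
(MP_448cb3_co, S7, `j = 14`; after `FxQ`).  helper5.
-/

namespace Pool.Agent.GaussPoset.W7

set_option linter.unusedSectionVars false

open Polynomial Finset Wd Cl Cp

universe u

variable {P : Type u} [Fintype P] [PartialOrder P] [DecidableEq P] {r a n0 : ℕ}

section types

variable {t : Tops P} {lo hi : ℕ → ℕ} {e : ℕ → ℕ → P}

/-- light components -/
theorem tl_light (h : Win.GoodTo P r (2 * 7)) (C : Comp (2 * 7) (t : P) lo hi e)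
    (h7 : lo 7 = 0 ∧ hi 7 = 0) (h2 : lo 2 = 0 ∧ hi 2 = 0) :
    ∃ Nt θ, ∀ N : Tops P → Finset P, N t = Nt → TyL n0 N t (hi 7 - lo 7 + 1) θ := by
  classical
  refine ⟨_, _, fun N hN => TyL.light hN rfl (by omega) (only_low h) ⟨e 7 (lo 7), C.le_t 7 (lo 7)
    (by omega) le_rfl (C.lo_le 7 (by omega)), C.lev_e 7 (lo 7) (by omega) le_rfl
    (C.lo_le 7 (by omega))⟩ ?_ ?_⟩
  · rw [cn_comp C (by omega)]
    omega
  · rw [cn_comp C (by omega)]
    omega

/-- rectangle-like strips -/
theorem tl_rect (h : Win.GoodTo P r (2 * 7)) (C : Comp (2 * 7) (t : P) lo hi e)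
    (h1 : lo 1 = 0 ∧ hi 1 = 1) (S : RectShape (2 * 7) lo hi) :
    ∃ Nt θ, ∀ N : Tops P → Finset P, N t = Nt → TyL n0 N t (hi 7 - lo 7 + 1) θ := by
  have H := h.H
  have hg := h.good
  have hlt : lo 7 < hi 7 := by
    have g1 := C.lo_mono (l := 1) (d := 6) (by omega)
    have g2 := C.hi_mono (l := 1) (d := 6) (by omega)
    norm_num at g1 g2
    by_contra hcon
    have g3 := C.lo_le 7 (by omega)
    have g4 := shape_lo C S.lo (l := 7) (by omega) 7 (by omega)
    have g5 := shape_hi C S.hi (l := 7) (by omega) 7 (by omega)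
    have g6 := C.lo_le (7 + 7) (by omega)
    omega
  obtain ⟨Nc, co, h2, -⟩ := exists_rect C H hg H.gradedBelow S (i := 7) (by omega) hlt
  refine ⟨_, _, fun N hN => TyL.rect Nc co h2 hN rfl ?_⟩
  intro x z hxt hxl hx2 hzx honly
  exact rectShape_no_pendant (i := 13) h (by omega) t.2 C S hxl hxt hx2 hzx honly

/-- stair-like strips -/
theorem tl_stair (h : Win.GoodTo P r (2 * 7)) (C : Comp (2 * 7) (t : P) lo hi e)
    (S : StairShape (2 * 7) lo hi) :
    ∃ Nt θ, ∀ N : Tops P → Finset P, N t = Nt → TyL n0 N t (hi 7 - lo 7 + 1) θ := by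
  have H := h.H
  have hg := h.good
  obtain ⟨Nc, co, h1, -⟩ := exists_stair C H hg H.gradedBelow S (i := 7) (by omega)
  have hnop : NopT 7 t := by
    intro x z hxt hxl hx2 hzx honly
    have h2 := stairShape_pendant (i := 13) h (by omega) t.2 C S hxl hxt hx2 hzx honly
    have h3 := cell_lev C (x := x) hxt (by omega)
    omega
  have e0 := stair_lo (m := 7) C S
  have e1 := S.hi 7 (by omega)
  exact ⟨_, _, fun N hN => TyL.stair Nc co h1 hN rfl (by omega) hnop⟩

/-- `E7` -/
theorem tl_E7 (h : Win.GoodTo P r (2 * 7)) (C : Comp (2 * 7) (t : P) lo hi e)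
    (D : WordD (2 * 7) 4 w7 lo hi) :
    ∃ Nt θ, ∀ N : Tops P → Finset P, N t = Nt → TyL n0 N t (hi 7 - lo 7 + 1) θ := by
  obtain ⟨Nt, θ, h1⟩ := Tv.exists_oth h C D
  exact ⟨Nt, θ, fun N hN => TyL.oth (h1 N hN) (Tv.E7_b C D)⟩

/-- the quadric -/
theorem quad_data (h : Win.GoodTo P r (2 * 7)) (C : Comp (2 * 7) (t : P) lo hi e)
    (Q : QRows (2 * 7) 7 lo hi) :
    hi 7 - lo 7 + 1 = 2 ∧ NatTop 7 t 2 (lowPart (2 * 7) (t : P)) (fun _ => 0)
      (fun x => x ∈ lowPart (2 * 7) (t : P)) ∧ cn 2 (t : P) ≤ 1 ∧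
      (∀ x ≤ (t : P), lev x = 14 → Sg.Thin x) ∧
      ∀ x y, x ≤ (t : P) → y ≤ (t : P) → lev x = 14 → lev y = 14 → x = y := by
  classical
  have hQ : QInf 7 7 t := Q.inf (m := 7) C (by omega)
  have e1 := Q.at'
  have hup : ∀ x ∈ lowPart (2 * 7) (t : P), ∀ y, x ≤ y → y ∈ lowPart (2 * 7) (t : P) := by
    intro x hx y hxy
    rw [mem_lowPart] at hx ⊢
    refine ⟨Cp.up_le h.H h.good t.2 hx.1 hx.2 hxy, ?_⟩
    rcases eq_or_lt_of_le hxy with h | h
    · rw [← h]; exact hx.2
    · have := lev_strictAnti h; omega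
  have hN := natTop_quad (m := 7) (by omega) (dvd_W_Qd 7) hQ hup
  refine ⟨by omega, hN, ?_, ?_, fun x y hx hy hlx hly => hQ.unique hx hy hlx hly⟩
  · rw [hQ.cn 2 (by omega), if_neg (by omega)]
  · intro x hxt hl
    have hn : ∀ k, k ≤ 14 → nab k x = if k = 7 then 2 else 1 := by
      intro k hk
      rw [← hQ.cn k hk]
      unfold nab cn
      congr 1
      ext y
      rw [mem_filter, mem_filter, mem_lv]
      refine and_congr_right fun h1 => ⟨fun h2 => ?_, fun h2 => ?_⟩
      · exact Cp.up_le h.H h.good t.2 hxt hl.le h2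
      · exact hQ.bot x hxt hl y h2 (by omega)
    refine ⟨fun k hk1 hk2 => ?_, ?_⟩
    · rw [hn k hk2, if_neg (by omega)]
    · rw [hn 7 (by omega), if_pos rfl]

end types

section all

variable {lo hi : Tops P → ℕ → ℕ} {e : Tops P → ℕ → ℕ → P}

/-- no pendant below the last element of a quadric -/
theorem quad_pen (h : Win.GoodTo P r 14)
    (C : ∀ t : Tops P, Comp 14 (t : P) (lo t) (hi t) (e t)) (hS : ∀ t, Shape 14 (lo t) (hi t))
    {t0 : Tops P} (Q : QRows 14 7 (lo t0) (hi t0)) {x z : P} (hx : x ≤ (t0 : P))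
    (hl : lev x = 14) (hz : lev z = 15) : ¬ Pend z x := by
  classical
  have hex : ∀ t : Tops P, ∃ N θ B, Sg.Dat t (hi t 7 - lo t 7 + 1) (lo t) (hi t) (e t) N θ B ∧
      (t = t0 → ∀ x, θ x = 0) := by
    intro t
    by_cases ht : t = t0
    · subst ht
      obtain ⟨g1, g2, g3, g4, g5⟩ := quad_data h (C t) Q
      have h6 : Sg.Nt t 2 (lowPart (2 * 7) (t : P)) (fun _ => 0)
          (fun x => x ∈ lowPart (2 * 7) (t : P)) 26 :=
        ⟨g2, fun x hx => hx, fun x hx _ => (mem_lowPart.mp hx).2,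
          fun x hx hl => Or.inr ⟨rfl, g4 x hx hl⟩, by norm_num⟩
      rw [g1]
      exact ⟨_, _, _, ⟨h6.weak (by norm_num), Or.inl ⟨h6, fun x hx hl _ _ y hy hly =>
        g5 y x hy hx hly hl⟩⟩, fun _ _ => rfl⟩
    · obtain ⟨N, θ, B, h1⟩ := Sg.t7_shape h (C t) (hS t)
      exact ⟨N, θ, B, h1, fun h => absurd h ht⟩
  choose N θ B hT h0 using hex
  obtain ⟨-, -, -, g4, -⟩ := quad_data h (C t0) Q
  intro hp
  exact Tv.no_thin_of h C hS hT t0 x hx hl (h0 t0 rfl x) (g4 x hx hl) z hz hp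

/-- nothing of level 15 below a quadric -/
theorem quad_bare (h : Win.GoodTo P r 14)
    (C : ∀ t : Tops P, Comp 14 (t : P) (lo t) (hi t) (e t)) (hS : ∀ t, Shape 14 (lo t) (hi t))
    (hJ : Tv.JFB P) {t0 : Tops P} (Q : QRows 14 7 (lo t0) (hi t0)) {z : P} (hz : lev z = 15) :
    ¬ z ≤ (t0 : P) := by
  classical
  have H := h.H
  intro hzt
  obtain ⟨-, -, -, g4, g5⟩ := quad_data h (C t0) Q
  have hlt : z < (t0 : P) := lt_of_le_of_ne hzt (by
    intro h
    have := t0.2
    rw [← h] at this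
    omega)
  obtain ⟨x, hzx, hxt⟩ := Hul.exists_cov hlt
  have hl : lev x = 14 := by
    have := (H.covBy_iff.mp hzx).2
    omega
  by_cases hp : ∀ y, z ⋖ y → y = x
  · exact quad_pen h C hS Q hxt hl hz ⟨hzx, hp⟩
  push Not at hp
  obtain ⟨x', hzx', hne⟩ := hp
  have hl' : lev x' = 14 := by
    have := (H.covBy_iff.mp hzx').2
    omega
  have hxt' : ¬ x' ≤ (t0 : P) := fun h1 => hne (g5 x' x h1 hxt hl' hl)
  have hj : Hul.Jn z := ⟨t0, topOf x', t0.2, (topOf x').2, fun hh => hxt' (by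
    rw [hh]; exact le_topOf x'), hzt, hzx'.1.le.trans (le_topOf x')⟩
  obtain ⟨a, a', ⟨hc, -, hf⟩, hd⟩ := hJ z hz hj
  have hth := g4 x hxt hl
  have hx : x = a ∨ x = a' := by
    by_cases h1 : x = a
    · exact Or.inl h1
    · have h2 : a ≠ a' := fun hh => hc.ne (by rw [hh])
      exact uc_pair H hc.cov hc.cov' h2 hzx
  rcases hx with rfl | rfl
  · have := hf.2.2 7 (by norm_num)
    rw [hth.2] at this
    norm_num at this
  · have hm : mX 14 x = 5 := hd.1
    unfold mX at hm
    simp only [Finset.sum_range_succ, Finset.sum_range_zero] at hm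
    have e0 := hd.2.1
    unfold cX at e0
    simp only [Finset.sum_range_succ, Finset.sum_range_zero] at e0
    have k := hth.1
    rw [k 8 (by omega) (by omega), k 9 (by omega) (by omega), k 10 (by omega) (by omega),
      k 11 (by omega) (by omega), k 12 (by omega) (by omega), k 13 (by omega) (by omega),
      hth.2] at hm e0
    have g : ∀ l, l ≤ 14 → 1 ≤ nab l x := fun l hl2 => one_le_nab (by omega)
    have g0 := g 0 (by omega)
    have g1 := g 1 (by omega)
    have g2 := g 2 (by omega)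
    have g3 := g 3 (by omega)
    have g6 := g 4 (by omega)
    have g7 := g 5 (by omega)
    have g8 := g 6 (by omega)
    norm_num at hm e0
    omega

end all

end Pool.Agent.GaussPoset.W7

end

/-! From `Pool.Agent.W_448s7s_h5.TyB` -/

section

/-!
The context at window 7, level 14: the theorem (MP_448cb3_co, S7, `j = 14`).  helper5.
-/

namespace Pool.Agent.GaussPoset.W7

set_option linter.unusedSectionVars false

open Polynomial Finset Wd Cl Cp

universe u

variable {P : Type u} [Fintype P] [PartialOrder P] [DecidableEq P] {r n0 : ℕ}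
  {lo hi : Tops P → ℕ → ℕ} {e : Tops P → ℕ → ℕ → P}

/-- the data of the strips `La7` -/
structure Lh (n0 : ℕ) (t : P) (e : ℕ → ℕ → P) (A : Finset P) : Prop where
  pat : (∃ c, JA e A c) ∨ (n0 ≤ 31 ∧ ∃ c c', JB e A c c')
  full : ∀ z, lev z = 15 → (∀ y, z ⋖ y → y ≤ t) → z ∈ A ∨ Sg.Mk e z 33554432
  loc : ∃ θ, Sg.LocL 7 2 n0 (lowPart 14 t ∪ A) θ (fun x => x = Sg.ce e 29) ∧ ThA e A θ

/-- the elements of level 15 of a strip `La7` -/
lemma Lh.dat {t : P} {e : ℕ → ℕ → P} {A : Finset P} (L : Lh n0 t e A) : ∃ θ, LaT n0 e t A θ := by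
  obtain ⟨θ, h1, h2⟩ := L.loc
  refine ⟨θ, h1, h2, ?_, L.full, L.pat⟩
  intro x hx
  rcases L.pat with ⟨c, J⟩ | ⟨-, c, c', J⟩
  · exact J.all x hx
  · rcases J.all x hx with h | h | h | h
    · exact Or.inl h
    · exact Or.inr (Or.inl h)
    · rw [h]
      exact Or.inr (Or.inr (Or.inr J.hc))
    · rw [h]
      exact Or.inr (Or.inr (Or.inr J.hc'))

/-- the type of a strip -/
theorem tl_shape (h : Win.GoodTo P r 14)
    (C : ∀ t : Tops P, Comp 14 (t : P) (lo t) (hi t) (e t)) (hS : ∀ t, Shape 14 (lo t) (hi t))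
    (hJ : Tv.JFB P) {t : Tops P} (hD : ¬ WordD 14 7 wa7 (lo t) (hi t)) :
    ∃ Nt θ, ∀ N : Tops P → Finset P, N t = Nt → TyL n0 N t (hi t 7 - lo t 7 + 1) θ := by
  rcases hS t with h1 | ⟨h1, h2⟩ | ⟨h1, h2⟩ | ⟨h1, h2, h3⟩ | ⟨h1, h2⟩ | ⟨a, h0, h1, h2, h3, hN, h4⟩
  · exact tl_light h (C t) (h1 7 (by omega)) (h1 2 (by omega))
  · exact tl_rect h (C t) h1 h2
  · exact tl_stair h (C t) h2
  · omega
  · omega
  · have D : LateD 14 a (lo t) (hi t) := ⟨h0, h1, h2, h3, h4⟩
    rcases Nat.lt_or_ge 7 a with hma | hma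
    · exact tl_light h (C t) (D.h2 7 hma) (D.h2 2 (by omega))
    · rcases h4 with ⟨⟨g1, g2⟩, g3⟩ | g3
      · have hq := D.quad (C t) g3
        obtain rfl : a = 7 := by omega
        have Q : QRows 14 7 (lo t) (hi t) := ⟨D.h2, D.h3, by
          intro k hk hk2
          have := hq (k - 7) (by omega) (by omega)
          rwa [show 7 + (k - 7) = k by omega] at this⟩
        obtain ⟨q1, q2, q3, -, -⟩ := quad_data h (C t) Q
        refine ⟨lowPart (2 * 7) (t : P), fun _ => 0, fun N hN => TyL.bare hN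
          ⟨fun x => x ∈ lowPart (2 * 7) (t : P), ?_⟩ (fun z hz => quad_bare h C hS hJ Q hz) q3⟩
        rw [hN, q1]
        exact q2
      · obtain rfl | rfl | rfl | rfl | rfl : a = 3 ∨ a = 4 ∨ a = 5 ∨ a = 6 ∨ a = 7 := by omega
        · have := (wordD_three D (by omega)).2
          omega
        · exact tl_E7 h (C t) (wordD_four D (by omega) (by omega)).1
        · exact absurd word_length (Sg.late5_14 _ g3)
        · exact absurd word_length (Sg.late6_14 _ g3)
        · exact absurd ⟨D.h2, D.h3, Sg.late7_14 _ g3 (by rw [word_length])⟩ hD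

/-- **The context at window 7**, from the data of the strips `La7` -/
theorem exists_WL_of (K : Sm.Ctx P r 14 lo hi e) (hr : 15 ≤ r) (hJ : Tv.JFB P) (hn0 : n0 ≤ 51)
    (A : Tops P → Finset P)
    (hL : ∀ t : Tops P, WordD 14 7 wa7 (lo t) (hi t) → Lh n0 (t : P) (e t) (A t)) :
    ∃ N θ, WL r n0 N (fun t => hi t 7 - lo t 7 + 1) θ ∧ ∀ t : Tops P,
      WordD 14 7 wa7 (lo t) (hi t) → LaD n0 N (θ t) t (lo t) (hi t) (e t) (A t) := by
  classical
  have h := K.gt
  have C := K.comp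
  have hex : ∀ t : Tops P, ∃ (Nt : Finset P) (θ : P → ℕ), (∀ N : Tops P → Finset P, N t = Nt →
      TyL n0 N t (hi t 7 - lo t 7 + 1) θ) ∧ (WordD 14 7 wa7 (lo t) (hi t) →
      ∀ N : Tops P → Finset P, N t = Nt → LaD n0 N θ t (lo t) (hi t) (e t) (A t)) := by
    intro t
    by_cases hD : WordD 14 7 wa7 (lo t) (hi t)
    · obtain ⟨θ, hθ⟩ := (hL t hD).dat
      have hla : ∀ N : Tops P → Finset P, N t = lowPart (2 * 7) (t : P) ∪ A t →
          LaD n0 N θ t (lo t) (hi t) (e t) (A t) := fun N hN => ⟨C t, hD, hN, hθ⟩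
      have hb : hi t 7 - lo t 7 + 1 = 2 := by
        obtain ⟨h1, h2⟩ := hD.rows (C t)
        rw [h1 7 (by omega), h2 7 (by omega)]
        decide +kernel
      exact ⟨_, θ, fun N hN => TyL.la _ _ _ _ (hla N hN) hb, fun _ => hla⟩
    · obtain ⟨Nt, θ, h1⟩ := tl_shape (n0 := n0) h C K.shape hJ hD
      exact ⟨Nt, θ, h1, fun h => absurd h hD⟩
  choose N θ hT hT2 using hex
  refine ⟨N, θ, ⟨h, by omega, hn0, fun t => hT t N rfl, ?_⟩, fun t hD => hT2 t hD N rfl⟩
  rw [card_level h.H h.good C (i := 7) (by omega)]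

end Pool.Agent.GaussPoset.W7

end

/-! From `Pool.Agent.W_448s7s_h5.TyC` -/

section

/-!
The context at window 7, level 14, pattern `JA` (MP_448cb3_co, S7, `j = 14`).  helper5.
-/

namespace Pool.Agent.GaussPoset.W7

set_option linter.unusedSectionVars false

open Polynomial Finset Wd Cl Cp

universe u

variable {P : Type u} [Fintype P] [PartialOrder P] [DecidableEq P] {r n0 : ℕ}

/-- the data of a strip `La7`, pattern `JA` -/
theorem lh_JA {t : P} {lo hi : ℕ → ℕ} {e : ℕ → ℕ → P} (hgt : Win.GoodTo P r 14) (ht : lev t = 0)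
    (C : Comp 14 t lo hi e) (D : WordD 14 7 wa7 lo hi) (hn0 : n0 ≤ 51) {A : Finset P} {c : P}
    (J : JA e A c)
    (full : ∀ z, lev z = 15 → (∀ y, z ⋖ y → y ≤ t) → z ∈ A ∨ Sg.Mk e z 33554432) :
    Lh n0 t e A := by
  obtain ⟨θ, h1, h2⟩ := J.loc D C hgt ht
  exact ⟨Or.inl ⟨c, J⟩, full, θ, Tv.locL_le h1 hn0, h2⟩

variable {lo hi : Tops P → ℕ → ℕ} {e : Tops P → ℕ → ℕ → P}

/-- **The context at window 7**, all strips `La7` have the pattern `JA` -/
theorem exists_WL51 (K : Sm.Ctx P r 14 lo hi e) (hr : 15 ≤ r) (hJ : Tv.JFB P) (hn0 : n0 ≤ 51)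
    (A : Tops P → Finset P)
    (hpat : ∀ t : Tops P, WordD 14 7 wa7 (lo t) (hi t) → (∃ c, JA (e t) (A t) c) ∧
      ∀ z, lev z = 15 → (∀ y, z ⋖ y → y ≤ (t : P)) → z ∈ A t ∨ Sg.Mk (e t) z 33554432) :
    ∃ N θ, WL r n0 N (fun t => hi t 7 - lo t 7 + 1) θ ∧ ∀ t : Tops P,
      WordD 14 7 wa7 (lo t) (hi t) → LaD n0 N (θ t) t (lo t) (hi t) (e t) (A t) := by
  refine exists_WL_of K hr hJ hn0 A fun t D => ?_
  obtain ⟨⟨c, J⟩, h1⟩ := hpat t D
  exact lh_JA K.gt t.2 (K.comp t) D hn0 J h1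

end Pool.Agent.GaussPoset.W7

end

/-! From `Pool.Agent.W_448w7_h27.WhA` -/

section

/-!
Level 14, window 7 (MP_448cb3_co, S7, S8, `j = 14`): the profiles of the elements of level 15 of
the components which have at least two elements on level 7: an element of level 15 whose covers
are all in the component is straight, or it is dear (label 2: at least 21), or it is a pendant of
a thin element.
-/

namespace Pool.Agent.GaussPoset.W7

set_option linter.unusedSectionVars false

open Finset Wd Sm Cl Win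

universe u

variable {P : Type u} [Fintype P] [PartialOrder P] [DecidableEq P] {r : ℕ} {t : Tops P}
  {lo hi : ℕ → ℕ} {e : ℕ → ℕ → P}

/-- the number of the cells of level `k` above the cell `s` of level 14 -/
def nb (lo hi : ℕ → ℕ) (s k : ℕ) : ℕ := min (hi k) s + 1 - max (lo k) (s - (14 - k))

lemma card_cone (s k : ℕ) :
    ((Icc (lo k) (hi k)).filter (fun s' => s' ≤ s ∧ s ≤ s' + (14 - k))).card = nb lo hi s k := by
  have : (Icc (lo k) (hi k)).filter (fun s' => s' ≤ s ∧ s ≤ s' + (14 - k)) =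
      Icc (max (lo k) (s - (14 - k))) (min (hi k) s) := by
    ext s'
    simp only [mem_filter, mem_Icc, max_le_iff, le_min_iff]
    omega
  rw [this, Nat.card_Icc]
  rfl

/-- an element of level 15 with all its covers in the component is below `t` only -/
lemma mem_onlyB_of (h : GoodTo P r 14) {v : P} (hv : lev v = 15)
    (hvt : ∀ y, v ⋖ y → y ≤ (t : P)) : v ∈ onlyB t := by
  classical
  rw [mem_onlyB]
  intro s hs hvs
  have hlt : v < s := by
    rcases eq_or_lt_of_le hvs with h1 | h1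
    · rw [h1] at hv; omega
    · exact h1
  obtain ⟨y, hy1, hy2⟩ := exists_covBy_le_of_lt hlt
  have hly := (h.H.covBy_iff.1 hy1).2
  exact Cp.top_eq h.H h.good (z := y) (by omega) hs t.2 hy2 (hvt y hy1)

/-- the positions of an element of level 15 on level 14 are its covers -/
lemma posA_cov (h : GoodTo P r 14) (C : Cp.Comp 14 (t : P) lo hi e) {v : P} (hv : lev v = 15)
    {s : ℕ} (hs : s ∈ posA 14 lo hi e v) : v ⋖ e 14 s := by
  obtain ⟨⟨h1, h2⟩, h3⟩ := mem_posA.mp hs
  have h4 := C.lev_e 14 s le_rfl h1 h2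
  rcases eq_or_lt_of_le h3 with h5 | h5
  · rw [h5] at hv; omega
  · exact h.H.covBy_iff.2 ⟨h5, by omega⟩

lemma posA_ne (h : GoodTo P r 14) (C : Cp.Comp 14 (t : P) lo hi e) {v : P} (hv : lev v = 15)
    (hvt : ∀ y, v ⋖ y → y ≤ (t : P)) : (posA 14 lo hi e v).Nonempty := by
  obtain ⟨x, hx2, hx1⟩ := exists_above' (x := v) (j := 14) (by omega)
  have h1 : v < x := by
    rcases eq_or_lt_of_le hx2 with h1 | h1
    · rw [h1] at hv; omega
    · exact h1
  have h2 : v ⋖ x := h.H.covBy_iff.2 ⟨h1, by omega⟩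
  obtain ⟨s, g1, g2, g3⟩ := C.surj x (hvt x h2) (by omega)
  rw [hx1] at g1 g2 g3
  exact ⟨s, mem_posA.mpr ⟨⟨g1, g2⟩, by rw [g3]; exact hx2⟩⟩

/-- the profile above a position -/
lemma nab_ge (h : GoodTo P r 14) (C : Cp.Comp 14 (t : P) lo hi e) {v : P} (hv : lev v = 15)
    (hvt : ∀ y, v ⋖ y → y ≤ (t : P)) {s k : ℕ} (hs : s ∈ posA 14 lo hi e v) (hk : k ≤ 14) :
    nb lo hi s k ≤ nab k v := by
  classical
  rw [nab_pos h.H h.good C (mem_onlyB_of h hv hvt) (by omega) hk, ← card_cone]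
  refine card_le_card fun s' hs' => ?_
  rw [mem_filter] at hs' ⊢
  exact ⟨hs'.1, s, hs, hs'.2⟩

/-- the profile of a pendant -/
lemma nab_one (h : GoodTo P r 14) (C : Cp.Comp 14 (t : P) lo hi e) {v : P} (hv : lev v = 15)
    (hvt : ∀ y, v ⋖ y → y ≤ (t : P)) {s k : ℕ} (hs : posA 14 lo hi e v = {s}) (hk : k ≤ 14) :
    nab k v = nb lo hi s k := by
  classical
  rw [nab_pos h.H h.good C (mem_onlyB_of h hv hvt) (by omega) hk, ← card_cone, hs]
  congr 1
  refine filter_congr fun s' _ => ?_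
  simp

/-- the cost of the label 2 at the window 7 -/
lemma ct_ge {v : P} (hv : lev v = 15) {f : ℕ → ℕ} (hf : ∀ k, 8 ≤ k → k ≤ 14 → f k ≤ nab k v) :
    f 8 + 2 * (f 9 + f 10 + f 11 + f 12 + f 13 + f 14) + 2 ≤ ct 7 2 v := by
  classical
  have h0 : nab 15 v = 1 := by rw [← hv]; exact nab_self
  unfold ct
  rw [cst_eq, hv]
  simp only [Finset.sum_range_succ, Finset.sum_range_zero, h0]
  have h1 := hf 8 (by omega) (by omega)
  have h2 := hf 9 (by omega) (by omega)
  have h3 := hf 10 (by omega) (by omega)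
  have h4 := hf 11 (by omega) (by omega)
  have h5 := hf 12 (by omega) (by omega)
  have h6 := hf 13 (by omega) (by omega)
  have h7 := hf 14 (by omega) (by omega)
  norm_num
  omega

/-- the cost above one position -/
lemma ct_pos (h : GoodTo P r 14) (C : Cp.Comp 14 (t : P) lo hi e) {v : P} (hv : lev v = 15)
    (hvt : ∀ y, v ⋖ y → y ≤ (t : P)) {s : ℕ} (hs : s ∈ posA 14 lo hi e v) :
    nb lo hi s 8 + 2 * (nb lo hi s 9 + nb lo hi s 10 + nb lo hi s 11 + nb lo hi s 12 +
      nb lo hi s 13 + nb lo hi s 14) + 2 ≤ ct 7 2 v :=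
  ct_ge hv (f := nb lo hi s) fun _ _ hk => nab_ge h C hv hvt hs hk

/-- an element of level 15: straight or dear -/
def Sd (v : P) : Prop := (∀ l, 7 ≤ l → l ≤ 14 → nab l v = 1) ∨ 21 ≤ ct 7 2 v

lemma lo_back {L : ℕ → ℕ} (S : ∀ k, k < 14 → L (k + 1) = 0 ∨ L (k + 1) = L k + 1)
    (hm : ∀ k, k < 14 → L k ≤ L (k + 1)) : ∀ m, m ≤ 14 → L (14 - m) = L 14 - m := by
  intro m
  induction m with
  | zero => intro _; rfl
  | succ m ih =>
    intro hm'
    have h1 := ih (by omega)
    have h2 := S (14 - (m + 1)) (by omega)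
    have h3 := hm (14 - (m + 1)) (by omega)
    rw [show 14 - (m + 1) + 1 = 14 - m by omega] at h2 h3
    omega

lemma hi_back {L : ℕ → ℕ} (S : ∀ k, k < 14 → L (k + 1) = k + 1 ∨ L (k + 1) = L k)
    (hm : ∀ k, k < 14 → L (k + 1) ≤ L k + 1) (hle : ∀ k, k ≤ 14 → L k ≤ k) :
    ∀ m, m ≤ 14 → L (14 - m) = min (14 - m) (L 14) := by
  intro m
  induction m with
  | zero =>
    intro _
    have := hle 14 le_rfl
    simp only [Nat.sub_zero]
    omega
  | succ m ih =>
    intro hm'
    have h1 := ih (by omega)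
    have h2 := S (14 - (m + 1)) (by omega)
    have h3 := hm (14 - (m + 1)) (by omega)
    have h4 := hle (14 - (m + 1)) (by omega)
    rw [show 14 - (m + 1) + 1 = 14 - m by omega] at h2 h3
    omega

/-- rectangles -/
theorem sd_rect (h : GoodTo P r 14) (C : Cp.Comp 14 (t : P) lo hi e)
    (S : RectShape 14 lo hi) {v : P} (hv : lev v = 15) (hvt : ∀ y, v ⋖ y → y ≤ (t : P)) :
    Sd v := by
  classical
  have hlo : ∀ k, k ≤ 14 → lo k = lo 14 - (14 - k) := by
    intro k hk
    have := lo_back S.lo (fun k hk => by have := C.lo_step k hk; omega) (14 - k) (by omega)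
    rwa [show 14 - (14 - k) = k by omega] at this
  have hhi : ∀ k, k ≤ 14 → hi k = min k (hi 14) := by
    intro k hk
    have := hi_back S.hi (fun k hk => by have := C.hi_step k hk; omega) (fun k hk => C.hi_le hk) (14 - k)
      (by omega)
    rwa [show 14 - (14 - k) = k by omega] at this
  have hnb : ∀ s, lo 14 ≤ s → s ≤ hi 14 → ∀ k, k ≤ 14 → nb lo hi s k =
      min k s + 1 - (s - (14 - k)) := by
    intro s h1 h2 k hk
    unfold nb
    rw [hlo k hk, hhi k hk]
    omega
  by_cases hex : ∃ s ∈ posA 14 lo hi e v, 1 ≤ s ∧ s ≤ 13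
  · obtain ⟨s, hs, h1, h2⟩ := hex
    right
    have h3 := ct_pos h C hv hvt hs
    obtain ⟨⟨h4, h5⟩, -⟩ := mem_posA.mp hs
    rw [hnb s h4 h5 8 (by omega), hnb s h4 h5 9 (by omega), hnb s h4 h5 10 (by omega),
      hnb s h4 h5 11 (by omega), hnb s h4 h5 12 (by omega), hnb s h4 h5 13 (by omega),
      hnb s h4 h5 14 (by omega)] at h3
    omega
  · push Not at hex
    have hpos : ∀ s ∈ posA 14 lo hi e v, s = 0 ∨ s = 14 := by
      intro s hs
      obtain ⟨⟨h4, h5⟩, -⟩ := mem_posA.mp hs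
      have h6 := C.hi_le (k := 14) le_rfl
      have h7 := hex s hs
      omega
    by_cases hb : 0 ∈ posA 14 lo hi e v ∧ 14 ∈ posA 14 lo hi e v
    · right
      obtain ⟨⟨a4, a5⟩, -⟩ := mem_posA.mp hb.1
      obtain ⟨⟨b4, b5⟩, -⟩ := mem_posA.mp hb.2
      have h6 := C.hi_le (k := 14) le_rfl
      have h3 := ct_ge hv (f := fun _ => 2) (fun k hk hk' => by
        rw [nab_pos h.H h.good C (mem_onlyB_of h hv hvt) (by omega) hk']
        have h7 : ({0, k} : Finset ℕ) ⊆ (Icc (lo k) (hi k)).filter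
            (fun s' => ∃ s ∈ posA 14 lo hi e v, s' ≤ s ∧ s ≤ s' + (14 - k)) := by
          intro s' hs'
          rw [mem_insert, mem_singleton] at hs'
          rw [mem_filter, mem_Icc, hlo k hk', hhi k hk']
          rcases hs' with rfl | rfl
          · exact ⟨by omega, 0, hb.1, by omega⟩
          · exact ⟨by omega, 14, hb.2, by omega⟩
        have h8 := card_le_card h7
        rw [card_pair (by omega)] at h8
        exact h8)
      omega
    · left
      obtain ⟨s, hs⟩ := posA_ne h C hv hvt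
      have hone : posA 14 lo hi e v = {s} := by
        ext s'
        rw [mem_singleton]
        constructor
        · intro hs'
          have h1 := hpos s hs
          have h2 := hpos s' hs'
          by_contra hne
          refine hb ?_
          rcases h1 with rfl | rfl <;> rcases h2 with rfl | rfl
          · omega
          · exact ⟨hs, hs'⟩
          · exact ⟨hs', hs⟩
          · omega
        · rintro rfl
          exact hs
      intro l h1 h2
      obtain ⟨⟨h4, h5⟩, -⟩ := mem_posA.mp hs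
      rw [nab_one h C hv hvt hone h2, hnb s h4 h5 l h2]
      have := hpos s hs
      omega

/-- stairs -/
theorem sd_stair (h : GoodTo P r 14) (C : Cp.Comp 14 (t : P) lo hi e)
    (S : StairShape 14 lo hi) {v : P} (hv : lev v = 15) (hvt : ∀ y, v ⋖ y → y ≤ (t : P)) :
    Sd v := by
  classical
  have hlo : ∀ k, k ≤ 14 → lo k = lo 14 - (14 - k) := by
    intro k hk
    have := lo_back S.lo (fun k hk => by have := C.lo_step k hk; omega) (14 - k) (by omega)
    rwa [show 14 - (14 - k) = k by omega] at this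
  have hhi : ∀ k, k ≤ 14 → hi k = k / 2 := fun k hk => S.hi k hk
  have hnb : ∀ s, lo 14 ≤ s → s ≤ hi 14 → ∀ k, k ≤ 14 → nb lo hi s k =
      min (k / 2) s + 1 - (s - (14 - k)) := by
    intro s h1 h2 k hk
    unfold nb
    rw [hlo k hk, hhi k hk]
    omega
  by_cases hex : ∃ s ∈ posA 14 lo hi e v, 1 ≤ s
  · obtain ⟨s, hs, h1⟩ := hex
    right
    have h3 := ct_pos h C hv hvt hs
    obtain ⟨⟨h4, h5⟩, -⟩ := mem_posA.mp hs
    have h6 := hhi 14 le_rfl
    rw [hnb s h4 h5 8 (by omega), hnb s h4 h5 9 (by omega), hnb s h4 h5 10 (by omega),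
      hnb s h4 h5 11 (by omega), hnb s h4 h5 12 (by omega), hnb s h4 h5 13 (by omega),
      hnb s h4 h5 14 (by omega)] at h3
    omega
  · push Not at hex
    left
    have h0 : ∀ s ∈ posA 14 lo hi e v, s = 0 := fun s hs => by
      have := hex s hs
      omega
    obtain ⟨s, hs⟩ := posA_ne h C hv hvt
    have hone : posA 14 lo hi e v = {s} := by
      ext s'
      rw [mem_singleton]
      constructor
      · intro hs'
        rw [h0 s hs, h0 s' hs']
      · rintro rfl
        exact hs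
    intro l h1 h2
    obtain ⟨⟨h4, h5⟩, -⟩ := mem_posA.mp hs
    rw [nab_one h C hv hvt hone h2, hnb s h4 h5 l h2]
    have := h0 s hs
    omega

/-- the late words of level 14 with two elements on a level `a ≤ 7` -/
lemma lateW_len : ∀ a ∈ ([3, 4, 5, 6, 7] : List ℕ), ∀ w ∈ lateW a, w.length = 14 - a →
    (a = 4 ∧ w = w7.take 10) ∨ (a = 7 ∧ w = wa7) := by decide +kernel

/-- the number of the cells of level `k` above the cell `s` of level 14, from the word -/
def nbW (a : ℕ) (w : List Ltr) (s k : ℕ) : ℕ := nb (losW a w) (hisW a w) s k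

lemma e7_ct : ∀ s ∈ Icc (losW 4 w7 14) (hisW 4 w7 14), 19 ≤ nbW 4 w7 s 8 +
    2 * (nbW 4 w7 s 9 + nbW 4 w7 s 10 + nbW 4 w7 s 11 + nbW 4 w7 s 12 + nbW 4 w7 s 13 +
    nbW 4 w7 s 14) := by decide +kernel

lemma la7_ct : ∀ s ∈ Icc (losW 7 wa7 14) (hisW 7 wa7 14), s ≠ 7 → 19 ≤ nbW 7 wa7 s 8 +
    2 * (nbW 7 wa7 s 9 + nbW 7 wa7 s 10 + nbW 7 wa7 s 11 + nbW 7 wa7 s 12 + nbW 7 wa7 s 13 +
    nbW 7 wa7 s 14) := by decide +kernel

lemma nb_word {a : ℕ} {w : List Ltr} (D : WordD 14 a w lo hi) (C : Cp.Comp 14 (t : P) lo hi e)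
    {s k : ℕ} (hk : k ≤ 14) : nb lo hi s k = nbW a w s k := by
  obtain ⟨r1, r2⟩ := D.rows C
  unfold nbW nb
  rw [r1 k hk, r2 k hk]

/-- a pendant of a thin element -/
lemma pend_thin (h : GoodTo P r 14) (C : Cp.Comp 14 (t : P) lo hi e) {v : P} (hv : lev v = 15)
    (hvt : ∀ y, v ⋖ y → y ≤ (t : P)) {s : ℕ} (hs : posA 14 lo hi e v = {s})
    (h1 : ∀ k, 8 ≤ k → k ≤ 14 → nb lo hi s k = 1) (h2 : nb lo hi s 7 = 2) :
    Sg.Thin (e 14 s) ∧ Pend v (e 14 s) := by
  have hm : s ∈ posA 14 lo hi e v := by rw [hs]; exact mem_singleton_self s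
  have hp : Pend v (e 14 s) := by
    refine ⟨posA_cov h C hv hm, fun y hy => ?_⟩
    have hly := (h.H.covBy_iff.1 hy).2
    obtain ⟨s', g1, g2, g3⟩ := C.surj y (hvt y hy) (by omega)
    rw [show lev y = 14 by omega] at g1 g2 g3
    have : s' ∈ posA 14 lo hi e v := mem_posA.mpr ⟨⟨g1, g2⟩, by rw [g3]; exact hy.le⟩
    rw [hs, mem_singleton] at this
    rw [← g3, this]
  have hn : ∀ k, k ≤ 14 → nab k (e 14 s) = nb lo hi s k := fun k hk => by
    rw [← nab_pend hp (by omega), nab_one h C hv hvt hs hk]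
  refine ⟨⟨fun k hk hk' => ?_, ?_⟩, hp⟩
  · rw [hn k hk']; exact h1 k hk hk'
  · rw [hn 7 (by omega)]; exact h2

lemma la7_nb : (losW 7 wa7 14 = 3 ∧ hisW 7 wa7 14 = 7) ∧
    (∀ k ∈ Icc 8 14, nbW 7 wa7 7 k = 1) ∧ nbW 7 wa7 7 7 = 2 := by decide +kernel

end Pool.Agent.GaussPoset.W7

end

/-! From `Pool.Agent.W_448w7_h44.WhA` -/

section

/-!
Level 15 below a light component, window 7 (MP_448cb3_co): the finite check.
-/

namespace Pool.Agent.GaussPoset.W7h

open Finset Wd Cl

/-- the words of the late components at level 14 -/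
def Wds (a : ℕ) : List (List Ltr) :=
  (if 1 ≤ 14 - a ∧ 14 - a ≤ a then [Qw (14 - a)] else []) ++
    (lateW a).filter (fun w => w.length = 14 - a)

/-- the number of elements of level `k` above an element of level 15 which is below the elements
`s`, `s'` of level 14 -/
def nb2 (a : ℕ) (w : List Ltr) (s s' k : ℕ) : ℕ :=
  ((Icc (losW a w k) (hisW a w k)).filter
    (fun q => (q ≤ s ∧ s ≤ q + (14 - k)) ∨ (q ≤ s' ∧ s' ≤ q + (14 - k)))).card

/-- the profiles of the elements of level 15 -/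
def EpN (f : ℕ → ℕ) : Prop :=
  (∀ l ∈ Icc 7 14, f l = 1) ∨ (∃ l ∈ Icc 8 14, f l = 2 ∧ ∀ l' ∈ Icc 7 14, l' ≠ l → f l' = 1) ∨
    19 ≤ f 8 + 2 * (f 9 + f 10 + f 11 + f 12 + f 13 + f 14) + 2

instance (f : ℕ → ℕ) : Decidable (EpN f) := by unfold EpN; infer_instance

/-- only the level 9 has two elements -/
def E9N (f : ℕ → ℕ) : Prop := f 9 = 2 ∧ ∀ l' ∈ Icc 7 14, l' ≠ 9 → f l' = 1

instance (f : ℕ → ℕ) : Decidable (E9N f) := by unfold E9N; infer_instance

lemma low_words : ∀ a ∈ Icc 3 7, ∀ w ∈ Wds a, losW a w 7 ≠ hisW a w 7 := by decide +kernel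

lemma high_words : ∀ a ∈ Icc 8 14, ∀ w ∈ Wds a,
    ∀ s ∈ Icc (losW a w 14) (hisW a w 14), ∀ s' ∈ Icc (losW a w 14) (hisW a w 14),
      EpN (nb2 a w s s') ∧ (E9N (nb2 a w s s') → 9 ≤ a) ∧ (∀ l ∈ range 8, nb2 a w s s' l = 1) ∧
        1 ≤ nb2 a w s s' 9 := by decide +kernel

end Pool.Agent.GaussPoset.W7h

end

/-! From `Pool.Agent.W_448w7_h44.WhB` -/

section

/-!
The elements of level 15 below a light component, window 7 (MP_448cb3_co, S7, `j = 14`).
-/

namespace Pool.Agent.GaussPoset.W7h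

set_option linter.unusedSectionVars false

open Polynomial Finset Cl Dd Wd Win

universe u

variable {P : Type u} [Fintype P] [PartialOrder P] [DecidableEq P]
variable {r : ℕ} {t : Tops P} {lo hi : ℕ → ℕ} {e : ℕ → ℕ → P}

/-- all covers are below `t` -/
lemma only_of_cov (h : Win.GoodTo P r 14) {v : P} (hv : lev v = 15)
    (hvt : ∀ y, v ⋖ y → y ≤ (t : P)) : v ∈ onlyB t := by
  rw [mem_onlyB]
  intro s hs hvs
  have hne : v ≠ s := by rintro rfl; omega
  obtain ⟨y, hy, hys⟩ := Hul.exists_cov (lt_of_le_of_ne hvs hne)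
  have h1 := (h.H.covBy_iff.mp hy).2
  exact Cp.top_eq h.H h.good (z := y) (by omega) hs t.2 hys (hvt y hy)

/-- an element above `v` on every level -/
lemma anc (h : Win.GoodTo P r 14) {v : P} (hv : lev v = 15) (hx : v ∈ onlyB t) {k : ℕ}
    (hk : k ≤ 14) : ∃ y, v ≤ y ∧ y ≤ (t : P) ∧ lev y = k := by
  have ht : lev (t : P) = 0 := t.2
  obtain ⟨q, h1, h2, h3⟩ := exists_between h.H.gradedBelow (z := v) (s := (t : P)) (onlyB_le hx)
    (l := k) (by omega) (by omega)
  exact ⟨q, h1, h2, h3⟩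

/-- the positions above an element of level 15 -/
lemma pos_two (h : Win.GoodTo P r 14) (C : Cp.Comp 14 (t : P) lo hi e) {v : P} (hv : lev v = 15)
    (hx : v ∈ onlyB t) : ∃ s s', (lo 14 ≤ s ∧ s ≤ hi 14) ∧ (lo 14 ≤ s' ∧ s' ≤ hi 14) ∧
      Sm.posA 14 lo hi e v = {s, s'} := by
  classical
  have h1 := (Sm.pos_cond h (by norm_num) C hx (by omega) (by omega)).2 hv
  obtain ⟨y, h2, h3, h4⟩ := anc h hv hx (k := 14) le_rfl
  obtain ⟨s, a1, a2, a3⟩ := C.surj y h3 (by omega)
  rw [h4] at a1 a2 a3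
  have hs : s ∈ Sm.posA 14 lo hi e v := Sm.mem_posA.mpr ⟨⟨a1, a2⟩, by rw [a3]; exact h2⟩
  by_cases hall : ∀ s' ∈ Sm.posA 14 lo hi e v, s' = s
  · refine ⟨s, s, ⟨a1, a2⟩, ⟨a1, a2⟩, ?_⟩
    ext q
    rw [mem_insert, mem_singleton, or_self]
    exact ⟨hall q, fun hq => hq ▸ hs⟩
  · push Not at hall
    obtain ⟨s', hs', hne⟩ := hall
    refine ⟨s, s', ⟨a1, a2⟩, (Sm.mem_posA.mp hs').1, ?_⟩
    symm
    apply Finset.eq_of_subset_of_card_le
    · intro q hq
      rw [mem_insert, mem_singleton] at hq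
      rcases hq with rfl | rfl
      · exact hs
      · exact hs'
    · rw [Finset.card_pair (Ne.symm hne)]
      exact h1.1

/-- the numbers of elements above an element of level 15 -/
lemma nab_nb2 {a : ℕ} {w : List Ltr} (h : Win.GoodTo P r 14) (C : Cp.Comp 14 (t : P) lo hi e)
    (D : WordD 14 a w lo hi) {v : P} (hv : lev v = 15) (hx : v ∈ onlyB t) {s s' : ℕ}
    (hA : Sm.posA 14 lo hi e v = {s, s'}) {k : ℕ} (hk : k ≤ 14) :
    nab k v = nb2 a w s s' k := by
  classical
  rw [Sm.nab_pos h.H h.good C hx (by omega) hk]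
  obtain ⟨r1, r2⟩ := D.rows C
  unfold nb2
  rw [r1 k hk, r2 k hk, hA]
  congr 1
  refine Finset.filter_congr fun q _ => ?_
  constructor
  · rintro ⟨s1, g1, g2⟩
    rw [mem_insert, mem_singleton] at g1
    rcases g1 with rfl | rfl
    · exact Or.inl g2
    · exact Or.inr g2
  · rintro (g | g)
    · exact ⟨s, by simp, g⟩
    · exact ⟨s', by simp, g⟩

lemma ct_seven {v : P} (hv : lev v = 15) : ct 7 2 v =
    nab 8 v + 2 * (nab 9 v + nab 10 v + nab 11 v + nab 12 v + nab 13 v + nab 14 v) + 2 := by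
  rw [ct_top (m := 7) (k := 2) hv (by norm_num)]
  unfold vs
  simp only [Finset.sum_range_succ, Finset.sum_range_zero]
  norm_num
  ring

/-- the profile from the numbers -/
lemma ep_of {v : P} (hv : lev v = 15) {f : ℕ → ℕ} (hf : ∀ k, k ≤ 14 → nab k v = f k)
    (h79 : f 7 ≤ f 9) (h : EpN f) : W7.Ep v := by
  rcases h with h | ⟨l, hl, h1, h2⟩ | h
  · left
    intro l h1 h2
    rw [hf l h2]
    exact h l (mem_Icc.mpr ⟨h1, h2⟩)
  · right; left
    rw [mem_Icc] at hl
    refine ⟨l, hl.1, hl.2, by rw [hf l hl.2]; exact h1, fun l' h3 h4 h5 => ?_⟩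
    rw [hf l' h4]
    exact h2 l' (mem_Icc.mpr ⟨h3, h4⟩) h5
  · right; right; left
    rw [ct_seven hv, hf 8 (by norm_num), hf 9 (by norm_num), hf 10 (by norm_num),
      hf 11 (by norm_num), hf 12 (by norm_num), hf 13 (by norm_num), hf 14 (by norm_num),
      hf 7 (by norm_num)]
    exact ⟨h, h79⟩

lemma rect_wide (C : Cp.Comp 14 (t : P) lo hi e) (h1 : lo 1 = 0 ∧ hi 1 = 1)
    (S : RectShape 14 lo hi) (h7 : hi 7 = lo 7) : False := by
  have hh : ∀ k, 1 ≤ k → k ≤ 14 → 1 ≤ hi k := by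
    intro k hk
    induction k, hk using Nat.le_induction with
    | base => intro _; omega
    | succ k hk ih =>
      intro hk'
      have := C.hi_step k (by omega)
      have := ih (by omega)
      omega
  have hl : ∀ k, 1 ≤ k → k ≤ 14 → lo k + 1 ≤ k := by
    intro k hk
    induction k, hk using Nat.le_induction with
    | base => intro _; omega
    | succ k hk ih =>
      intro hk'
      have := C.lo_step k (by omega)
      have := ih (by omega)
      omega
  have g1 := hh 7 (by norm_num) (by norm_num)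
  have g2 := hl 7 (by norm_num) (by norm_num)
  have g3 : ∀ d, 7 + d ≤ 14 → lo (7 + d) = lo 7 + d ∧ hi (7 + d) = hi 7 := by
    intro d
    induction d with
    | zero => intro _; exact ⟨rfl, rfl⟩
    | succ d ih =>
      intro hd
      have e1 := ih (by omega)
      have e2 := S.lo (7 + d) (by omega)
      have e3 := S.hi (7 + d) (by omega)
      have e4 := C.lo_step (7 + d) (by omega)
      have e5 := C.hi_step (7 + d) (by omega)
      rw [show 7 + (d + 1) = 7 + d + 1 by omega]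
      omega
  have g4 := g3 7 (by norm_num)
  have g5 := C.lo_le 14 le_rfl
  rw [show 7 + 7 = 14 by norm_num] at g4
  omega

lemma stair_wide (C : Cp.Comp 14 (t : P) lo hi e) (S : StairShape 14 lo hi)
    (h7 : hi 7 = lo 7) : False := by
  have g1 := S.hi 7 (by norm_num)
  have g3 : ∀ d, 7 + d ≤ 14 → lo (7 + d) = lo 7 + d := by
    intro d
    induction d with
    | zero => intro _; rfl
    | succ d ih =>
      intro hd
      have e1 := ih (by omega)
      have e2 := S.lo (7 + d) (by omega)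
      have e4 := C.lo_step (7 + d) (by omega)
      rw [show 7 + (d + 1) = 7 + d + 1 by omega]
      omega
  have g4 := g3 7 (by norm_num)
  have g5 := C.lo_le 14 le_rfl
  have g6 := S.hi 14 le_rfl
  rw [show 7 + 7 = 14 by norm_num] at g4
  omega

/-- (H): the elements of level 15 below a light component -/
theorem ep_light (h : Win.GoodTo P r 14) (C : Cp.Comp 14 (t : P) lo hi e)
    (hS : Wd.Shape 14 lo hi) (h7 : hi 7 = lo 7) {v : P} (hv : lev v = 15)
    (hvt : ∀ y, v ⋖ y → y ≤ (t : P)) :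
    W7.Ep v ∧ (∀ l, l ≤ 7 → nab l v = 1) ∧
      (nab 9 v = 2 → (∀ l, 7 ≤ l → l ≤ 14 → l ≠ 9 → nab l v = 1) →
        ∀ x, x ≤ (t : P) → ¬ v ≤ x → 9 ≤ lev x) := by
  classical
  have hx := only_of_cov h hv hvt
  rcases hS with h0 | ⟨h1, h2⟩ | ⟨-, h2⟩ | ⟨h0, -, -⟩ | ⟨h0, -⟩ | ⟨a, h0, h1, h2, h3, hN, h4⟩
  · have key : ∀ k, k ≤ 14 → nab k v = 1 := by
      intro k hk
      obtain ⟨s, s', b1, b2, b3⟩ := pos_two h C hv hx
      have := h0 14 le_rfl
      have := h0 k hk
      rw [Sm.nab_pos h.H h.good C hx (by omega) hk, b3, Finset.card_eq_one]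
      refine ⟨0, ?_⟩
      ext q
      rw [mem_filter, mem_Icc, mem_singleton]
      constructor
      · rintro ⟨g1, -⟩
        omega
      · rintro rfl
        refine ⟨by omega, s, by simp, by omega, by omega⟩
    refine ⟨Or.inl fun l _ hl => key l hl, fun l hl => key l (by omega), fun h9 => ?_⟩
    have := key 9 (by norm_num)
    omega
  · exact (rect_wide C h1 h2 h7).elim
  · exact (stair_wide C h2 h7).elim
  · omega
  · omega
  · have D : WordD 14 a (Wd.word lo hi a (14 - a)) lo hi :=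
      ⟨h2, h3, by
        rw [List.take_of_length_le]
        unfold Wd.word
        simp⟩
    have hw : Wd.word lo hi a (14 - a) ∈ Wds a := by
      unfold Wds
      rw [List.mem_append]
      rcases h4 with ⟨g1, g2⟩ | g
      · left
        rw [if_pos g1, List.mem_singleton]
        exact g2
      · right
        rw [List.mem_filter]
        refine ⟨g, ?_⟩
        unfold Wd.word
        simp
    set w := Wd.word lo hi a (14 - a) with hwd
    obtain ⟨r1, r2⟩ := D.rows C
    rcases Nat.lt_or_ge a 8 with ha | ha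
    · exfalso
      apply low_words a (mem_Icc.mpr ⟨h0, by omega⟩) w hw
      rw [← r1 7 (by norm_num), ← r2 7 (by norm_num)]
      exact h7.symm
    · obtain ⟨s, s', b1, b2, b3⟩ := pos_two h C hv hx
      rw [r1 14 le_rfl, r2 14 le_rfl, ← mem_Icc] at b1 b2
      obtain ⟨c1, c2, c3, c4⟩ := high_words a (mem_Icc.mpr ⟨ha, h1⟩) w hw s b1 s' b2
      have hf : ∀ k, k ≤ 14 → nab k v = nb2 a w s s' k := fun k hk =>
        nab_nb2 h C D hv hx b3 hk
      refine ⟨ep_of hv hf ?_ c1, fun l hl => ?_, fun h9 h9' x hxt hvx => ?_⟩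
      · rw [c3 7 (by decide)]
        exact c4
      · rw [hf l (by omega)]
        exact c3 l (mem_range.mpr (by omega))
      · have ha9 : 9 ≤ a := c2 ⟨by rw [← hf 9 (by norm_num)]; exact h9, fun l' hl' hne => by
          rw [mem_Icc] at hl'
          rw [← hf l' hl'.2]
          exact h9' l' hl'.1 hl'.2 hne⟩
        by_contra hlt
        push Not at hlt
        apply hvx
        obtain ⟨y, g1, g2, g3⟩ := anc h hv hx (k := lev x) (by omega)
        obtain ⟨q, d1, d2, d3⟩ := C.surj x hxt (by omega)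
        obtain ⟨q', d1', d2', d3'⟩ := C.surj y g2 (by omega)
        have d4 := h2 (lev x) (by omega)
        rw [g3] at d1' d2' d3'
        have : q = q' := by omega
        rw [← d3, this, d3']
        exact g1

end Pool.Agent.GaussPoset.W7h

end

/-! From `Pool.Agent.W_448w7_h94.WiR` -/

section

/-!
The profiles of the elements of level 15 with all covers in one component (MP_448cb3_co, S7,
`j = 14`): the assembly of `ep_light` and of the cases of `sd_wide`.
-/

namespace Pool.Agent.GaussPoset.W7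

set_option linter.unusedSectionVars false

open Finset Wd Sm Cl Win

universe u

variable {P : Type u} [Fintype P] [PartialOrder P] [DecidableEq P] {r : ℕ}

section

variable {t : Tops P} {lo hi : ℕ → ℕ} {e : ℕ → ℕ → P}

/-- the components with at least two elements on level 7 -/
theorem sd_wide' (h : GoodTo P r 14) (C : Cp.Comp 14 (t : P) lo hi e) (hS : Wd.Shape 14 lo hi)
    (h7 : lo 7 ≠ hi 7) {v : P} (hv : lev v = 15) (hvt : ∀ y, v ⋖ y → y ≤ (t : P))
    (hQ : ¬ QRows 14 7 lo hi) (hLa : WordD 14 7 wa7 lo hi → ¬ Pend v (e 14 7)) : Sd v := by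
  classical
  rcases hS with g | ⟨-, g2⟩ | ⟨-, g2⟩ | ⟨g1, -, -⟩ | ⟨g1, -⟩ | ⟨a, g0, g1, g2, g3, hN, g4⟩
  · have := g 7 (by omega)
    omega
  · exact sd_rect h C g2 hv hvt
  · exact sd_stair h C g2 hv hvt
  · omega
  · omega
  · have ha : a ≤ 7 := by
      by_contra hcon
      have := g2 7 (by omega)
      omega
    have hpos : ∀ s', s' ∈ posA 14 lo hi e v → lo 14 ≤ s' ∧ s' ≤ hi 14 := fun s' hs' =>
      (mem_posA.mp hs').1
    have D : LateD 14 a lo hi := ⟨g0, g1, g2, g3, g4⟩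
    rcases g4 with ⟨⟨b1, b2⟩, b3⟩ | b3
    · exfalso
      have hq := D.quad C b3
      obtain rfl : a = 7 := by omega
      exact hQ ⟨D.h2, D.h3, by
        intro k hk hk2
        have := hq (k - 7) (by omega) (by omega)
        rwa [show 7 + (k - 7) = k by omega] at this⟩
    · obtain ⟨s, hs⟩ := posA_ne h C hv hvt
      rcases lateW_len a (by
        simp only [List.mem_cons, List.not_mem_nil, or_false]
        omega) _ b3 word_length with ⟨rfl, hw⟩ | ⟨rfl, hw⟩
      · have D : WordD 14 4 w7 lo hi := ⟨g2, g3, by rw [hw]⟩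
        obtain ⟨r1, r2⟩ := D.rows C
        right
        have h3 := ct_pos h C hv hvt hs
        have h4 := hpos s hs
        rw [r1 14 le_rfl, r2 14 le_rfl] at h4
        have h5 := e7_ct s (mem_Icc.mpr h4)
        rw [nb_word D C (by omega), nb_word D C (by omega), nb_word D C (by omega),
          nb_word D C (by omega), nb_word D C (by omega), nb_word D C (by omega),
          nb_word D C (by omega)] at h3
        omega
      · have D : WordD 14 7 wa7 lo hi := ⟨g2, g3, by rw [hw]; decide⟩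
        obtain ⟨r1, r2⟩ := D.rows C
        obtain ⟨⟨q1, q2⟩, q3, q4⟩ := la7_nb
        by_cases hex : ∃ s ∈ posA 14 lo hi e v, s ≠ 7
        · obtain ⟨s, hs, hne⟩ := hex
          right
          have h3 := ct_pos h C hv hvt hs
          have h4 := hpos s hs
          rw [r1 14 le_rfl, r2 14 le_rfl] at h4
          have h5 := la7_ct s (mem_Icc.mpr h4) hne
          rw [nb_word D C (by omega), nb_word D C (by omega), nb_word D C (by omega),
            nb_word D C (by omega), nb_word D C (by omega), nb_word D C (by omega),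
            nb_word D C (by omega)] at h3
          omega
        · push Not at hex
          have hone : posA 14 lo hi e v = {7} := by
            ext s'
            rw [mem_singleton]
            refine ⟨hex s', fun hs' => ?_⟩
            rw [hs', ← hex s hs]
            exact hs
          obtain ⟨b1, b2⟩ := pend_thin h C hv hvt hone
            (fun k hk hk' => by rw [nb_word D C hk']; exact q3 k (mem_Icc.mpr ⟨hk, hk'⟩))
            (by rw [nb_word D C (by omega)]; exact q4)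
          exact absurd b2 (hLa D)

end

variable {lo hi : Tops P → ℕ → ℕ} {e : Tops P → ℕ → ℕ → P}

/-- **the elements of level 15 with all covers in one component** -/
theorem e15 (K : Sm.Ctx P r 14 lo hi e) (hJ : Tv.JFB P) :
    ∀ v : P, lev v = 15 → (∀ y, v ⋖ y → y ≤ (topOf v : P)) → E15 v := by
  classical
  intro v hv hvt
  by_cases h7 : lo (topOf v) 7 = hi (topOf v) 7
  · obtain ⟨h1, h2, h3⟩ := W7h.ep_light K.gt (K.comp _) (K.shape _) h7.symm hv hvt
    have hcn : cn 7 (topOf v : P) = 1 := by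
      rw [cn_comp (K.comp _) (by norm_num)]
      omega
    rcases h1 with h | ⟨l, g1, g2, g3, g4⟩ | ⟨g1, g2⟩ | g
    · exact E15.str h
    · refine E15.one l g1 g2 g3 (fun l' hl' hne => ?_) hcn ?_
      · rcases Nat.lt_or_ge l' 7 with hl7 | hl7
        · exact h2 l' hl7.le
        · exact g4 l' hl7 hl' hne
      · rintro rfl x hx hlx hvx
        exact h3 g3 (fun l a b c => g4 l a b c) x hx hvx
    · exact E15.mid g1 g2
    · exact E15.big g
  · have hS := sd_wide' K.gt (K.comp _) (K.shape _) h7 hv hvt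
      (fun Q => quad_bare K.gt K.comp K.shape hJ Q hv (le_topOf v))
      (fun D hp => Tv.no_pen_last K.gt K.comp K.shape _ D hp)
    rcases hS with h | h
    · exact E15.str h
    · exact E15.big h

end Pool.Agent.GaussPoset.W7

end
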