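import Mathlib
import Pool.Agent.W_448zz_h61.Ns
import Pool.Agent.W_448zz_h61.M077
import Pool.Agent.W_448zz_h61.M102
import Pool.Agent.W_448zz_h61.M183

/-! From `Pool.Agent.W_448s7s_h5.SmJ8` -/

section

/-!
# S7 for `j = 8`: windows `0`, `1` (MP_448cb3_co)
-/

namespace Pool.Agent.GaussPoset.Sm

set_option linter.unusedSectionVars false

open Finset Wd

universe u

variable {P : Type u} [Fintype P] [PartialOrder P] [DecidableEq P] {r : ℕ}

/-- ends -/
def E8 : List (ℕ × ℕ × ℕ) :=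
    [(0, 0, 0), (1, 2, 1), (1, 3, 0), (1, 4, 0), (3, 9, 1), (6, 24, 1)]

/-- sides, one level deeper -/
def S8a : List (ℕ × ℕ × ℕ) :=
    [(0, 0, 0), (0, 0, 1), (1, 1, 0), (1, 1, 1), (1, 2, 0), (1, 3, 0), (1, 4, 0), (2, 3, 0),
    (2, 3, 1), (3, 6, 0), (3, 6, 1), (3, 9, 0), (4, 7, 1), (4, 10, 0), (4, 10, 1), (5, 12, 0),
    (5, 12, 1), (5, 15, 0), (6, 13, 1)]

/-- sides, two or more levels deeper -/
def S8b : List (ℕ × ℕ × ℕ) :=
    [(0, 0, 0), (0, 0, 1), (1, 1, 0), (1, 1, 1), (1, 1, 2), (1, 2, 0), (1, 3, 0), (1, 4, 0),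
    (2, 3, 0), (2, 3, 1), (2, 3, 2), (3, 6, 0), (3, 6, 1), (3, 9, 0), (4, 7, 1), (4, 7, 2),
    (4, 7, 3), (4, 10, 0), (4, 10, 1), (4, 10, 2), (5, 12, 0), (5, 12, 1), (5, 15, 0),
    (6, 13, 1), (6, 13, 2), (6, 13, 3)]

lemma chkE8 : ChkE 8 E8 := by decide +kernel

/-- caps -/
def cp8 (w : ℕ) : ℤ := if w = 0 then cap0 8 else ((8 * (8 - 1) / 2 : ℕ) : ℤ) - 1

/-- even noise -/
def ne8 (w : ℕ) (V : ℤ) : Bool := if w = 0 then false else nz 8 V

lemma bal8 {lo hi : Tops P → ℕ → ℕ} {e : Tops P → ℕ → ℕ → P} (K : Ctx P r 8 lo hi e)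
    (hJ : ∃ z : P, Hul.Jn z) : ∀ w ≤ 1, ∃ V, WinB P 8 w (cp8 w) ((fun _ _ => false) w) (ne8 w)
      ((fun _ => 0) w) V := by
  intro w hw
  have : w = 0 ∨ w = 1 := by omega
  rcases this with rfl | rfl
  · exact K.win0 hJ
  · exact K.win1 (by norm_num) chkE8 (by decide +kernel) (by decide +kernel) hJ

/-- lines with `g`, by `κ` -/
def L8 : List (List ℤ) :=
  [[0], [-4, -3, -2], [-8, -7, -6, -5, -4, 3], [-9, -1, 0, 1, 2, 3], [-13, -12, -11, -5, -4,
    -3, -2, -1, 0, 1, 2, 3], [-6, -4, -3, -2], [-24, -18, -10], [-28, -27, -26]]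

set_option maxRecDepth 100000 in
theorem tab8 : Tab 8 1 cp8 L8 E8 S8a S8b X0 := by
  refine ⟨by norm_num, chkE8, ?_, ?_, ?_, ?_, ?_, ?_, ?_, ?_, ?_, ?_⟩
  · decide +kernel
  · decide +kernel
  · decide +kernel
  · decide +kernel
  · decide +kernel
  · intro _ h
    decide +kernel
  · decide +kernel
  · decide +kernel
  · decide +kernel
  · decide +kernel

/-- the pairs of ends which are left -/
def R8 : List ((ℕ × ℕ × ℕ) × (ℕ × ℕ × ℕ)) :=
    [((1, 2, 1), (6, 24, 1)), ((3, 9, 1), (3, 9, 1)), ((3, 9, 1), (6, 24, 1)),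
    ((6, 24, 1), (1, 2, 1)), ((6, 24, 1), (3, 9, 1)), ((6, 24, 1), (6, 24, 1))]

lemma rest8 : rest 8 E8 X0 (ubd 8 1 cp8 (fun _ => 0) L8 (fun _ _ => false) ne8 200 3) =
    R8 := by
  decide +kernel

/-- **S7 for `j = 8`**, exclusion `X0`. -/
theorem left8 {lo hi : Tops P → ℕ → ℕ} {e : Tops P → ℕ → ℕ → P} (K : Ctx P r 8 lo hi e)
    {z x x' : P} (h : Cg z x x') (hl : lev z = 9) :
    ∃ s s', (s, s') ∈ R8 ∧ Dt 8 x s ∧ Dt 8 x' s' := by
  have hs : ∀ y : P, lev y = 8 → Sok 8 y := fun y hy => ⟨fun hf => by have := hf.1; omega,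
    fun h12 => by omega⟩
  obtain ⟨l1, l2⟩ := h.lev_eq K.gt.H
  obtain ⟨s, s', h1, h2, h3⟩ := K.left (noP_zero 8) tab8 (bal8 K ⟨z, h.jn⟩) 200 3 h hl
    (hs x (by omega)) (hs x' (by omega))
  rw [rest8] at h1
  exact ⟨s, s', h1, h2, h3⟩

/-- lines with `g`, by `κ` -/
def L8r : List (List ℤ) :=
  [[0], [-4, -3, -2], [-8, -7, -6, -5, 3], [-9, -1, 0, 1, 2, 3], [-13, -12, -5, -4, -3, -2, -1,
    0, 1, 2, 3], [-6, -4, -3, -2], [-24, -10], [-28, -27]]

set_option maxRecDepth 100000 in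
theorem tab8r : Tab 8 1 cp8 L8r E8 S8a S8b XRR := by
  refine ⟨by norm_num, chkE8, ?_, ?_, ?_, ?_, ?_, ?_, ?_, ?_, ?_, ?_⟩
  · decide +kernel
  · decide +kernel
  · decide +kernel
  · decide +kernel
  · decide +kernel
  · intro _ h
    decide +kernel
  · decide +kernel
  · decide +kernel
  · decide +kernel
  · decide +kernel

/-- the pairs of ends which are left -/
def R8r : List ((ℕ × ℕ × ℕ) × (ℕ × ℕ × ℕ)) :=
    []

lemma rest8r : rest 8 E8 XRR (ubd 8 1 cp8 (fun _ => 0) L8r (fun _ _ => false) ne8 200 4) =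
    R8r := by
  decide +kernel

/-- **S7 for `j = 8`**, exclusion `XRR`. -/
theorem left8r {lo hi : Tops P → ℕ → ℕ} {e : Tops P → ℕ → ℕ → P} (K : Ctx P r 8 lo hi e) (hN : NoP P 8 XRR)
    {z x x' : P} (h : Cg z x x') (hl : lev z = 9) :
    ∃ s s', (s, s') ∈ R8r ∧ Dt 8 x s ∧ Dt 8 x' s' := by
  have hs : ∀ y : P, lev y = 8 → Sok 8 y := fun y hy => ⟨fun hf => by have := hf.1; omega,
    fun h12 => by omega⟩
  obtain ⟨l1, l2⟩ := h.lev_eq K.gt.H
  obtain ⟨s, s', h1, h2, h3⟩ := K.left hN tab8r (bal8 K ⟨z, h.jn⟩) 200 4 h hl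
    (hs x (by omega)) (hs x' (by omega))
  rw [rest8r] at h1
  exact ⟨s, s', h1, h2, h3⟩

theorem no_join8r {lo hi : Tops P → ℕ → ℕ} {e : Tops P → ℕ → ℕ → P} (K : Ctx P r 8 lo hi e) (hN : NoP P 8 XRR)
    {z : P} (hl : lev z = 9) : ¬ Hul.Jn z := by
  intro hz
  obtain ⟨x, x', h⟩ := K.cross hz hl
  obtain ⟨s, s', h1, -, -⟩ := left8r K hN h hl
  exact absurd h1 List.not_mem_nil

end Pool.Agent.GaussPoset.Sm

end

/-! From `Pool.Agent.W_448j8_h67.JaM` -/

section

/-!
Level 8: ends of the joins of level 9 (MP_448cb3_co).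
-/

namespace Pool.Agent.GaussPoset.J8

set_option linter.unusedSectionVars false

open Polynomial Finset Dd Wd Cl

universe u

variable {P : Type u} [Fintype P] [PartialOrder P] [DecidableEq P] {r : ℕ}

/-- at most two covers of each element -/
lemma nab_double (H : Gr P r) {z : P} {k : ℕ} (hk : k + 1 ≤ lev z) :
    nab k z ≤ 2 * nab (k + 1) z := by
  classical
  have h1 : (lv P k).filter (fun y => z ≤ y) ⊆
      ((lv P (k + 1)).filter (fun y => z ≤ y)).biUnion (fun v => Win.uc v) := by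
    intro y hy
    rw [mem_filter, mem_lv] at hy
    have hlt : z < y := lt_of_le_of_ne hy.2 (by rintro rfl; omega)
    obtain ⟨v, hv1, hv2⟩ := exists_le_covBy_of_lt hlt
    rw [mem_biUnion]
    refine ⟨v, ?_, Win.mem_uc.mpr hv2⟩
    rw [mem_filter, mem_lv]
    have := (H.covBy_iff.mp hv2).2
    exact ⟨by omega, hv1⟩
  unfold nab
  refine (Finset.card_le_card h1).trans ((Finset.card_biUnion_le).trans ?_)
  refine (Finset.sum_le_card_nsmul _ _ 2 fun v _ => Win.uc_card_le H v).trans ?_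
  rw [smul_eq_mul, Nat.mul_comm]

/-- the sums of an end, by the levels -/
lemma dt_sums {x : P} {s : ℕ × ℕ × ℕ} (h : Sm.Dt 8 x s) :
    (nab 0 x : ℤ) + nab 1 x + nab 2 x + nab 3 x + nab 4 x + nab 5 x + nab 6 x + nab 7 x =
      s.1 + 8 ∧
    8 * (nab 0 x : ℤ) + 7 * nab 1 x + 6 * nab 2 x + 5 * nab 3 x + 4 * nab 4 x + 3 * nab 5 x +
      2 * nab 6 x + nab 7 x = s.2.1 + 36 ∧ nab 6 x = s.2.2 + 1 := by
  obtain ⟨h1, h2, h3⟩ := h
  unfold mX at h1
  unfold cX at h2
  simp only [Finset.sum_range_succ, Finset.sum_range_zero] at h1 h2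
  push_cast at h1 h2
  refine ⟨by linarith, by linarith, h3⟩

/-- the end with the data `(1, 2, 1)` -/
lemma dt_one {x : P} (hl : lev x = 8) (h : Sm.Dt 8 x (1, 2, 1)) :
    nab 4 x = 1 ∧ nab 5 x = 1 ∧ nab 6 x = 2 ∧ nab 7 x = 1 := by
  obtain ⟨h1, h2, h3⟩ := dt_sums h
  have q : ∀ k, k ≤ 8 → 1 ≤ nab k x := fun k hk => one_le_nab (by omega)
  have q0 := q 0 (by norm_num)
  have q1 := q 1 (by norm_num)
  have q2 := q 2 (by norm_num)
  have q3 := q 3 (by norm_num)
  have q4 := q 4 (by norm_num)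
  have q5 := q 5 (by norm_num)
  have q7 := q 7 (by norm_num)
  simp only at h1 h2 h3
  omega

/-- the end with the data `(3, 9, 1)` -/
lemma dt_three {x : P} (hl : lev x = 8) (h : Sm.Dt 8 x (3, 9, 1)) (h7 : nab 7 x = 1) :
    2 ≤ nab 5 x ∧ nab 6 x = 2 := by
  obtain ⟨h1, h2, h3⟩ := dt_sums h
  have q : ∀ k, k ≤ 8 → 1 ≤ nab k x := fun k hk => one_le_nab (by omega)
  have q0 := q 0 (by norm_num)
  have q1 := q 1 (by norm_num)
  have q2 := q 2 (by norm_num)
  have q3 := q 3 (by norm_num)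
  have q4 := q 4 (by norm_num)
  have q5 := q 5 (by norm_num)
  simp only at h1 h2 h3
  omega

/-- the end with the data `(6, 24, 1)` -/
lemma dt_six (H : Gr P r) {x : P} (hl : lev x = 8) (h : Sm.Dt 8 x (6, 24, 1))
    (h7 : nab 7 x = 1) : 2 ≤ nab 5 x ∧ nab 6 x = 2 := by
  obtain ⟨h1, h2, h3⟩ := dt_sums h
  have q : ∀ k, k ≤ 8 → 1 ≤ nab k x := fun k hk => one_le_nab (by omega)
  have q0 := q 0 (by norm_num)
  have q1 := q 1 (by norm_num)
  have q2 := q 2 (by norm_num)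
  have q3 := q 3 (by norm_num)
  have q4 := q 4 (by norm_num)
  have q5 := q 5 (by norm_num)
  have d4 := nab_double H (z := x) (k := 4) (by omega)
  have d3 := nab_double H (z := x) (k := 3) (by omega)
  norm_num at d3 d4
  simp only at h1 h2 h3
  omega

/-- the sides of a join of level 9; one of them is big -/
theorem sides8 {lo hi : Tops P → ℕ → ℕ} {e : Tops P → ℕ → ℕ → P} (K : Sm.Ctx P r 8 lo hi e)
    {z x x' : P} (h : Sm.Cg z x x') (hl : lev z = 9) :
    (nab 6 x = 2 ∧ nab 6 x' = 2 ∧ nab 7 x = 1 ∧ nab 7 x' = 1) ∧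
    ((2 ≤ nab 5 x ∧ 2 ≤ nab 5 x') ∨ (nab 4 x = 1 ∧ nab 5 x = 1 ∧ 2 ≤ nab 5 x') ∨
      (nab 4 x' = 1 ∧ nab 5 x' = 1 ∧ 2 ≤ nab 5 x)) := by
  have H := K.gt.H
  obtain ⟨l1, l2⟩ := h.lev_eq H
  have hx : lev x = 8 := by omega
  have hx' : lev x' = 8 := by omega
  obtain ⟨u1, u2⟩ := K.ends h hl
  rw [uc_card_nab H (by omega), hx] at u1
  rw [uc_card_nab H (by omega), hx'] at u2
  have u1' : nab 7 x = 1 := u1
  have u2' : nab 7 x' = 1 := u2
  obtain ⟨s, s', h1, h2, h3⟩ := Sm.left8 K h hl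
  unfold Sm.R8 at h1
  simp only [List.mem_cons, Prod.mk.injEq, List.not_mem_nil, or_false] at h1
  rcases h1 with ⟨e1, e2⟩ | ⟨e1, e2⟩ | ⟨e1, e2⟩ | ⟨e1, e2⟩ | ⟨e1, e2⟩ | ⟨e1, e2⟩
  · rw [e1] at h2
    rw [e2] at h3
    have a := dt_one hx h2
    have b := dt_six H hx' h3 u2'
    exact ⟨⟨a.2.2.1, b.2, u1', u2'⟩, Or.inr (Or.inl ⟨a.1, a.2.1, b.1⟩)⟩
  · rw [e1] at h2
    rw [e2] at h3
    have a := dt_three hx h2 u1'
    have b := dt_three hx' h3 u2'
    exact ⟨⟨a.2, b.2, u1', u2'⟩, Or.inl ⟨a.1, b.1⟩⟩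
  · rw [e1] at h2
    rw [e2] at h3
    have a := dt_three hx h2 u1'
    have b := dt_six H hx' h3 u2'
    exact ⟨⟨a.2, b.2, u1', u2'⟩, Or.inl ⟨a.1, b.1⟩⟩
  · rw [e1] at h2
    rw [e2] at h3
    have a := dt_six H hx h2 u1'
    have b := dt_one hx' h3
    exact ⟨⟨a.2, b.2.2.1, u1', u2'⟩, Or.inr (Or.inr ⟨b.1, b.2.1, a.1⟩)⟩
  · rw [e1] at h2
    rw [e2] at h3
    have a := dt_six H hx h2 u1'
    have b := dt_three hx' h3 u2'
    exact ⟨⟨a.2, b.2, u1', u2'⟩, Or.inl ⟨a.1, b.1⟩⟩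
  · rw [e1] at h2
    rw [e2] at h3
    have a := dt_six H hx h2 u1'
    have b := dt_six H hx' h3 u2'
    exact ⟨⟨a.2, b.2, u1', u2'⟩, Or.inl ⟨a.1, b.1⟩⟩

/-- the cost of an element of level 9 -/
lemma cst9 {h : P → ℕ} {z : P} (hl : lev z = 9) :
    cst 4 h z = min (h z) 1 * nab 5 z + min (h z) 2 * nab 6 z + min (h z) 3 * nab 7 z +
      min (h z) 4 * nab 8 z + min (h z) 5 := by
  have h9 : nab 9 z = 1 := by
    have := nab_self (z := z)
    rwa [hl] at this
  rw [cst_eq, hl]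
  simp only [Finset.sum_range_succ, Finset.sum_range_zero, h9]
  norm_num

/-! ### the context -/

/-- the context at level 8 -/
structure C8 (P : Type u) [Fintype P] [PartialOrder P] [DecidableEq P] (r : ℕ)
    (lo hi : Tops P → ℕ → ℕ) (e : Tops P → ℕ → ℕ → P) (w : Tops P → ℕ)
    (Y : Tops P → Finset P) (θ : Tops P → P → ℕ) (B : Tops P → P → Prop) : Prop where
  K : Sm.Ctx P r 8 lo hi e
  td : ∀ t, TD t (hi t 4 - lo t 4 + 1) (w t) (Y t) (θ t) (B t)

/-- the natural sets -/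
noncomputable def N8 (Y : Tops P → Finset P) (t : Tops P) : Finset P := lowPart 8 (t : P) ∪ Y t

/-- the thresholds -/
noncomputable def th8 (θ : Tops P → P → ℕ) (x : P) : ℕ := θ (topOf x) x

/-- the base elements -/
def B8 (Y : Tops P → Finset P) (B : Tops P → P → Prop) (x : P) : Prop :=
  x ∉ unnat (N8 Y) ∧ B (topOf x) x

/-- the orders -/
def b8 (lo hi : Tops P → ℕ → ℕ) (t : Tops P) : ℕ := hi t 4 - lo t 4 + 1

section

variable {lo hi : Tops P → ℕ → ℕ} {e : Tops P → ℕ → ℕ → P} {w : Tops P → ℕ}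
  {Y : Tops P → Finset P} {θ : Tops P → P → ℕ} {B : Tops P → P → Prop}

lemma low8 (Y : Tops P → Finset P) (t : Tops P) : lowPart 8 (t : P) ⊆ N8 Y t :=
  Finset.subset_union_left

lemma C8.sys (W : C8 P r lo hi e w Y θ B) : NatSys (N8 Y) where
  up := by
    intro t x hx y hxy
    unfold N8 at hx ⊢
    rw [mem_union] at hx ⊢
    rcases hx with hx | hx
    · exact Or.inl (lowPart_up W.K.gt.H W.K.gt.good t.2 hxy hx)
    · rcases eq_or_lt_of_le hxy with h | h
      · right; rw [← h]; exact hx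
      · left
        obtain ⟨v, hv, hvy⟩ := Hul.exists_cov h
        have h1 := (W.td t).Ycov x hx v hv
        have h2 := (W.td t).Ylev x hx
        have h3 := (W.K.gt.H.covBy_iff.mp hv).2
        exact lowPart_up W.K.gt.H W.K.gt.good t.2 hvy (mem_lowPart.mpr ⟨h1, by omega⟩)
  le_t := by
    intro t x hx
    unfold N8 at hx
    rw [mem_union] at hx
    rcases hx with hx | hx
    · exact (mem_lowPart.mp hx).1
    · have h2 := (W.td t).Ylev x hx
      have hlt : x < (topOf x : P) := lt_of_le_of_ne (le_topOf x) (by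
        intro h
        have h3 := (topOf x).2
        rw [← h] at h3
        omega)
      obtain ⟨v, hv, -⟩ := Hul.exists_cov hlt
      exact hv.1.le.trans ((W.td t).Ycov x hx v hv)

lemma C8.lev9 (W : C8 P r lo hi e w Y θ B) {x : P} (hx : x ∈ unnat (N8 Y)) : 8 < lev x := by
  by_contra hcon
  exact mem_unnat.mp hx (topOf x) (low8 Y _ (mem_lowPart.mpr ⟨le_topOf x, by omega⟩))

lemma C8.nat8 (W : C8 P r lo hi e w Y θ B) {x : P} (hx : lev x ≤ 8) : x ∉ unnat (N8 Y) :=
  fun h => by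
    have := W.lev9 h
    omega

/-- natural elements -/
lemma C8.nat_cases (W : C8 P r lo hi e w Y θ B) {x : P} (hx : x ∉ unnat (N8 Y)) :
    lev x ≤ 8 ∨ x ∈ Y (topOf x) := by
  have h1 : x ∈ N8 Y (topOf x) := W.sys.mem_iff.mpr ⟨hx, rfl⟩
  unfold N8 at h1
  rw [mem_union, mem_lowPart] at h1
  rcases h1 with h1 | h1
  · exact Or.inl h1.2
  · exact Or.inr h1

/-- the data of the components -/
lemma C8.data (W : C8 P r lo hi e w Y θ B) (t : Tops P) :
    CompDataL (unnat (N8 Y)) topOf t 4 (b8 lo hi t) (13 - w t) (th8 θ) (B8 Y B) := by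
  have HN := W.sys
  refine (W.td t).data (N8 Y) HN (low8 Y) rfl _ _ ?_ ?_
  · intro x hx
    unfold th8
    rw [HN.topOf_eq hx]
  · intro x hx
    unfold B8
    rw [HN.topOf_eq hx]
    exact and_iff_right (HN.mem_iff.mp hx).1

/-- **The ladder data.** -/
lemma C8.lad (W : C8 P r lo hi e w Y θ B) :
    Lad 4 12 (unnat (N8 Y)) (b8 lo hi) (th8 θ) (B8 Y B) where
  gr := W.K.gt.H.gradedBelow
  low := W.sys.lower
  lev := fun x hx => by
    have := W.lev9 hx
    omega
  cp := W.sys.cp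
  base := fun x hx h => h.1 hx
  data := fun t => CompDataL.of_le (W.data t) (by
    have := (W.td t).w_le
    omega)

lemma C8.sum_b (W : C8 P r lo hi e w Y θ B) : ∑ t, b8 lo hi t = (lv P 4).card :=
  (card_level W.K.gt.H W.K.gt.good W.K.comp (i := 4) (by norm_num)).symm

end

end Pool.Agent.GaussPoset.J8

end

/-! From `Pool.Agent.W_448j8_h67.JaN` -/

section

/-!
Level 8, window 4: the costs of the boundary elements (MP_448cb3_co).
-/

namespace Pool.Agent.GaussPoset.J8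

set_option linter.unusedSectionVars false

open Polynomial Finset Dd Wd Cl

universe u

variable {P : Type u} [Fintype P] [PartialOrder P] [DecidableEq P] {r : ℕ}

/-- the labels -/
noncomputable def h8 (Y : Tops P → Finset P) (θ : Tops P → P → ℕ) : P → ℕ :=
  hcan (unnat (N8 Y)) (th8 θ)

/-- the boundary elements -/
inductive Kd (lo hi : Tops P → ℕ → ℕ) (θ : Tops P → P → ℕ) (h : P → ℕ) (z : P) : Prop
  | far (hc : 13 ≤ cst 4 h z)
  | five (hh : h z = 1) (hc : cst 4 h z = 5) (h4 : nab 4 z = 2) (h5 : nab 5 z = 1)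
  | seven (hh : h z = 1) (hc : cst 4 h z = 7) (h4 : nab 4 z = 3) (h5 : nab 5 z = 2)
  | late (hh : h z = 2) (hc : cst 4 h z = 12) (h4 : nab 4 z = 2) (h6 : nab 6 z = 2)
  | cross (hh : h z = 1) (hc : cst 4 h z = 12) (h4 : nab 4 z = 4) (h5 : nab 5 z = 3)
  | cx (t : Tops P) (hh : h z = 1) (hx : IsCx t (b8 lo hi t) (θ t) z)

section

variable {lo hi : Tops P → ℕ → ℕ} {e : Tops P → ℕ → ℕ → P} {w : Tops P → ℕ}
  {Y : Tops P → Finset P} {θ : Tops P → P → ℕ} {B : Tops P → P → Prop}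

lemma cst_two {h : P → ℕ} {z : P} (hl : lev z = 9) (hh : 2 ≤ h z) :
    nab 5 z + 2 * nab 6 z + 2 * nab 7 z + 2 * nab 8 z + 2 ≤ cst 4 h z := by
  rw [cst9 hl]
  have e1 : min (h z) 1 = 1 := by omega
  have e2 : min (h z) 2 = 2 := by omega
  have e3 : 2 ≤ min (h z) 3 := by omega
  have e4 : 2 ≤ min (h z) 4 := by omega
  have e5 : 2 ≤ min (h z) 5 := by omega
  have f3 := Nat.mul_le_mul_right (nab 7 z) e3
  have f4 := Nat.mul_le_mul_right (nab 8 z) e4
  rw [e1, e2]
  omega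

lemma cst_four {h : P → ℕ} {z : P} (hl : lev z = 9) (hh : 4 ≤ h z) : 13 ≤ cst 4 h z := by
  rw [cst9 hl]
  have e1 : min (h z) 1 = 1 := by omega
  have e2 : min (h z) 2 = 2 := by omega
  have e3 : min (h z) 3 = 3 := by omega
  have e4 : min (h z) 4 = 4 := by omega
  have e5 : 4 ≤ min (h z) 5 := by omega
  have n5 := one_le_nab (z := z) (l := 5) (by omega)
  have n6 := one_le_nab (z := z) (l := 6) (by omega)
  have n7 := one_le_nab (z := z) (l := 7) (by omega)
  have n8 := one_le_nab (z := z) (l := 8) (by omega)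
  rw [e1, e2, e3, e4]
  omega

lemma cst_one {h : P → ℕ} {z : P} (hl : lev z = 9) (hh : h z = 1) :
    cst 4 h z = nab 5 z + nab 6 z + nab 7 z + nab 8 z + 1 := by
  rw [cst9 hl, hh]
  norm_num

lemma C8.top_of (W : C8 P r lo hi e w Y θ B) {t : Tops P} {x : P} (hx : x ≤ (t : P))
    (hl : lev x ≤ 8) : topOf x = t :=
  W.sys.topOf_eq (low8 Y t (mem_lowPart.mpr ⟨hx, hl⟩))

/-- the label is at most one more than the threshold of each cover -/
lemma C8.h_le (W : C8 P r lo hi e w Y θ B) {t : Tops P} {z x : P} (hzx : z ⋖ x)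
    (hx : x ≤ (t : P)) (hl : lev x ≤ 8) : h8 Y θ z ≤ θ t x + 1 := by
  have h1 := hcan_le (θ := th8 θ) (W.nat8 hl) hzx
  unfold th8 at h1
  rw [W.top_of hx hl] at h1
  exact h1

/-- **The costs of the boundary elements.** -/
theorem C8.kind (W : C8 P r lo hi e w Y θ B) {z : P} (hz : z ∈ bdR (unnat (N8 Y))) :
    Kd lo hi θ (h8 Y θ) z := by
  classical
  have H := W.K.gt.H
  have HN := W.sys
  obtain ⟨x, hx, hzx, hh⟩ := hcan_spec (θ := th8 θ) hz
  have hh' : h8 Y θ z = θ (topOf x) x + 1 := hh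
  have hzR := (mem_filter.mp hz).1
  have hz9 := W.lev9 hzR
  have hzl := (H.covBy_iff.mp hzx).2
  rcases W.nat_cases hx with h1 | h1
  · -- level 9
    have hlz : lev z = 9 := by omega
    have hlx : lev x = 8 := by omega
    have n5 := one_le_nab (z := z) (l := 5) (by omega)
    have n6 := one_le_nab (z := z) (l := 6) (by omega)
    have n7 := one_le_nab (z := z) (l := 7) (by omega)
    by_cases hp : ∀ y, z ⋖ y → y = x
    · -- pendants
      have hn : ∀ k, k ≤ 8 → nab k z = nab k x := fun k hk =>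
        nab_pend (⟨hzx, hp⟩ : Pend z x) (by omega)
      have n8 : nab 8 z = 1 := by
        rw [hn 8 le_rfl]
        have := nab_self (z := x)
        rwa [hlx] at this
      rcases (W.td (topOf x)).pend x z (le_topOf x) hlx hzx hp with h2 | ⟨h2, h3⟩ | ⟨h2, h3⟩
      · exact Kd.far (cst_four hlz (by omega))
      · have hh1 : h8 Y θ z = 1 := by rw [hh', h2]
        have hc := cst_one hlz hh1
        rcases h3 with ⟨g4, g5, g6, g7⟩ | ⟨g4, g5, g6, g7⟩
        · rw [← hn _ (by norm_num)] at g4 g5 g6 g7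
          exact Kd.seven hh1 (by omega) g4 g5
        · rw [← hn _ (by norm_num)] at g4 g5 g6 g7
          exact Kd.five hh1 (by omega) g4 g5
      · have hh2 : h8 Y θ z = 2 := by rw [hh', h2]
        rcases h3 with ⟨g4, g5, g6, g7⟩ | ⟨g6, g7⟩
        · rw [← hn _ (by norm_num)] at g4 g5 g6 g7
          refine Kd.late hh2 ?_ g4 g6
          rw [cst9 hlz, hh2, g5, g6, g7, n8]
          norm_num
        · rw [← hn _ (by norm_num)] at g6 g7
          have := cst_two hlz hh2.ge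
          exact Kd.far (by omega)
    push Not at hp
    obtain ⟨y, hzy, hyx⟩ := hp
    have hly := (H.covBy_iff.mp hzy).2
    have hly8 : lev y = 8 := by omega
    have n8 : 2 ≤ nab 8 z := two_le_nab hzx.1.le hzy.1.le hlx hly8 (Ne.symm hyx)
    by_cases ht : topOf x = topOf y
    · -- own elements
      have hyt : y ≤ (topOf x : P) := by rw [ht]; exact le_topOf y
      have hzY : z ∉ Y (topOf x) := fun h => mem_unnat.mp hzR (topOf x) (by
        unfold N8
        rw [mem_union]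
        exact Or.inr h)
      rcases (W.td (topOf x)).own x y z (Ne.symm hyx) (le_topOf x) hyt hlx hly8 hzx hzy hzY
        with h2 | ⟨h2, h3, h4⟩ | h2 | h2
      · exact Kd.far (cst_four hlz (by omega))
      · have := cst_two hlz (h := h8 Y θ) (z := z) (by omega)
        exact Kd.far (by omega)
      · have g5 := h2 5 le_rfl (by norm_num)
        have g6 := h2 6 (by norm_num) (by norm_num)
        have g7 := h2 7 (by norm_num) (by norm_num)
        rcases Nat.lt_or_ge (h8 Y θ z) 2 with h3 | h3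
        · have hh1 : h8 Y θ z = 1 := by omega
          have := cst_one hlz hh1
          exact Kd.far (by omega)
        · have := cst_two hlz h3
          exact Kd.far (by omega)
      · refine Kd.cx (topOf x) ?_ h2
        obtain ⟨Nc, co, F, S, C, hb, hF⟩ := h2
        have h3 := W.h_le C.zF (C.chart.le_t F C.F_mem) C.lev_F.le
        omega
    · -- joins
      have hon : ∀ v : P, lev v = 8 → v ∈ onlyB (topOf v) := fun v hv =>
        only_low W.K.gt v (le_topOf v) hv.le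
      have hcg : Sm.Cg z x y := Sm.Cg.mk' hzx hzy (hon x hlx) (hon y hly8) ht
      have hs : ∀ k, k < 9 → nab k z = nab k x + nab k y := fun k hk =>
        hcg.sum H (by omega)
      obtain ⟨⟨a6, b6, a7, b7⟩, hside⟩ := sides8 W.K hcg hlz
      obtain ⟨u1, u2⟩ := W.K.ends hcg hlz
      have s4 := hs 4 (by norm_num)
      have s5 := hs 5 (by norm_num)
      have s6 := hs 6 (by norm_num)
      have s7 := hs 7 (by norm_num)
      have o5 := one_le_nab (z := x) (l := 5) (by omega)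
      have o5' := one_le_nab (z := y) (l := 5) (by omega)
      rcases Nat.lt_or_ge (h8 Y θ z) 2 with h3 | h3
      swap
      · have := cst_two hlz h3
        exact Kd.far (by omega)
      have hh1 : h8 Y θ z = 1 := by omega
      have hx0 : θ (topOf x) x = 0 := by omega
      have hc := cst_one hlz hh1
      have n8' : nab 8 z = 2 := by
        rw [hs 8 (by norm_num)]
        have e1 := nab_self (z := x)
        have e2 := nab_self (z := y)
        rw [hlx] at e1
        rw [hly8] at e2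
        omega
      rcases hside with ⟨g1, g2⟩ | ⟨g1, g2, g3⟩ | ⟨g1, g2, g3⟩
      · exact Kd.far (by omega)
      · -- `x` is the small side: impossible
        exfalso
        rcases (W.td (topOf x)).ends x (le_topOf x) hlx hx0 u1 with h5 | h5
        · have := h5.1; omega
        · have := h5.1; omega
      · rcases (W.td (topOf x)).ends x (le_topOf x) hlx hx0 u1 with ⟨g4, g5, g6, g7⟩ | h5
        · exact Kd.cross hh1 (by omega) (by omega) (by omega)
        · have := h5.2.2.1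
          omega
  · -- level 10
    have hx9 := (W.td (topOf x)).Ylev x h1
    have hth := (W.td (topOf x)).Yth x h1
    have htw := (W.td (topOf x)).Ytwo x h1
    have hh2 : h8 Y θ z = 2 := by rw [hh', hth]
    refine Kd.far ?_
    have h2 := cst_ge (i := 4) (h := h8 Y θ) (z := z) (fun k => if k = 8 then 2 else 1)
      (fun k _ hk => by
        show (if k = 8 then 2 else 1) ≤ nab k z
        split_ifs with h3
        · rw [h3]; exact htw.trans (nab_mono hzx.1.le)
        · exact one_le_nab hk)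
    rw [hh2, hzl, hx9] at h2
    refine le_trans ?_ h2
    decide

end

end Pool.Agent.GaussPoset.J8

end

/-! From `Pool.Agent.W_448j8_h67.JaO` -/

section

/-!
Level 8, window 4: the first steps of the ladder (MP_448cb3_co).
-/

namespace Pool.Agent.GaussPoset.J8

set_option linter.unusedSectionVars false

open Polynomial Finset Dd Wd Cl

universe u

variable {P : Type u} [Fintype P] [PartialOrder P] [DecidableEq P] {r : ℕ}

/-- leading terms of one sign exclude the elements of a cost -/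
theorem Lad.step {i n0 : ℕ} {R : Finset P} {b : Tops P → ℕ} {θ : P → ℕ} {B : P → Prop}
    (L : Lad i n0 R b θ B) (hq : IsGaussian P) (hsum : ∑ t, b t = (lv P i).card)
    {n a : ℕ} (hn : n < n0) (hcost : ∀ z ∈ bdR R, n ≤ cst i (hcan R θ) z)
    (hLt : ∀ z ∈ bdR R, cst i (hcan R θ) z = n → 1 ≤ (lv P i).card ∧
      Lt i (hcan R θ) z = X ^ a * (1 + X) ^ ((lv P i).card - 1)) :
    ∀ z ∈ bdR R, cst i (hcan R θ) z ≠ n := by
  classical
  intro z hz hzn
  have h1 := L.farT.dvd_lead (n := n) hn hcost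
  rw [hsum] at h1
  have h2 := dvd_Z hq i n
  have h3 := dvd_sub h2 h1
  rw [sub_sub_cancel] at h3
  set S := (bdR R).filter (fun z => cst i (hcan R θ) z = n) with hS
  have hzS : z ∈ S := mem_filter.mpr ⟨hz, hzn⟩
  have h4 : Lv (lv P i).card (∑ z ∈ S, Lt i (hcan R θ) z) (∑ _z ∈ S, (-1) ^ a) := by
    refine Lv.sum S fun y hy => ?_
    obtain ⟨hy1, hy2⟩ := mem_filter.mp hy
    rw [(hLt y hy1 hy2).2]
    exact Lv.mono _ _
  have h5 := h4.eq_zero (hLt z hz hzn).1 h3
  rw [Finset.sum_const, nsmul_eq_mul] at h5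
  have h6 : (S.card : ℤ) ≠ 0 := by
    have := Finset.card_pos.mpr ⟨z, hzS⟩
    omega
  exact mul_ne_zero h6 (pow_ne_zero _ (by norm_num)) h5

section

variable {lo hi : Tops P → ℕ → ℕ} {e : Tops P → ℕ → ℕ → P} {w : Tops P → ℕ}
  {Y : Tops P → Finset P} {θ : Tops P → P → ℕ} {B : Tops P → P → Prop}

/-- the cost of a (C) element -/
lemma cx_cost (hgr : GradedBelow P) {t : Tops P} {b : ℕ} {θ : P → ℕ} {h : P → ℕ} {z : P}
    (h0 : h z = 1) (hx : IsCx t b θ z) : cst 4 h z = 11 := by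
  obtain ⟨Nc, co, F, S, C, -⟩ := hx
  have h1 := C.cst_eq hgr (by norm_num)
  have h2 : hh 4 = 1 := rfl
  rw [h2] at h1
  rw [cst_ct h0]
  have h3 : E0 4 = 11 := by decide +kernel
  rw [← h3]
  exact h1

lemma lt_one {h : P → ℕ} {z : P} {a b : ℕ} (hh : h z = 1) (h4 : nab 4 z = a + 1)
    (h5 : nab 5 z = a) : 1 ≤ (lv P 4).card ∧
      Lt 4 h z = X ^ (below P 4 + (a + 1)) * (1 + X) ^ ((lv P 4).card - 1) := by
  have hB : a + 1 ≤ (lv P 4).card := by
    have := nab_le z 4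
    omega
  refine ⟨by omega, ?_⟩
  unfold Lt
  rw [nst_one hh, hh, h4, h5]
  congr 2
  omega

/-- no pendants with the profile of a quadric or of `E7` -/
lemma C8.no5 (W : C8 P r lo hi e w Y θ B) : ∀ z ∈ bdR (unnat (N8 Y)), cst 4 (h8 Y θ) z ≠ 5 := by
  refine Lad.step W.lad W.K.gt.H.gauss W.sum_b (a := below P 4 + (1 + 1)) (by norm_num) ?_ ?_
  · intro z hz
    show 5 ≤ cst 4 (h8 Y θ) z
    rcases W.kind hz with h | ⟨-, h, -⟩ | ⟨-, h, -⟩ | ⟨-, h, -⟩ | ⟨-, h, -⟩ | ⟨t, g, h⟩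
    · omega
    · omega
    · omega
    · omega
    · omega
    · rw [cx_cost W.K.gt.H.gradedBelow g h]
      norm_num
  · intro z hz hc
    have hc' : cst 4 (h8 Y θ) z = 5 := hc
    rcases W.kind hz with h | ⟨g, h, h4, h5⟩ | ⟨-, h, -⟩ | ⟨-, h, -⟩ | ⟨-, h, -⟩ | ⟨t, g, h⟩
    · omega
    · exact lt_one (b := 0) g h4 h5
    · omega
    · omega
    · omega
    · rw [cx_cost W.K.gt.H.gradedBelow g h] at hc'
      omega

/-- no pendants below fold ends -/
lemma C8.no7 (W : C8 P r lo hi e w Y θ B) : ∀ z ∈ bdR (unnat (N8 Y)), cst 4 (h8 Y θ) z ≠ 7 := by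
  refine Lad.step W.lad W.K.gt.H.gauss W.sum_b (a := below P 4 + (2 + 1)) (by norm_num) ?_ ?_
  · intro z hz
    show 7 ≤ cst 4 (h8 Y θ) z
    have h0 := W.no5 z hz
    rcases W.kind hz with h | ⟨-, h, -⟩ | ⟨-, h, -⟩ | ⟨-, h, -⟩ | ⟨-, h, -⟩ | ⟨t, g, h⟩
    · omega
    · exact absurd h h0
    · omega
    · omega
    · omega
    · rw [cx_cost W.K.gt.H.gradedBelow g h]
      norm_num
  · intro z hz hc
    have hc' : cst 4 (h8 Y θ) z = 7 := hc
    rcases W.kind hz with h | ⟨-, h, -⟩ | ⟨g, h, h4, h5⟩ | ⟨-, h, -⟩ | ⟨-, h, -⟩ | ⟨t, g, h⟩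
    · omega
    · omega
    · exact lt_one (b := 0) g h4 h5
    · omega
    · omega
    · rw [cx_cost W.K.gt.H.gradedBelow g h] at hc'
      omega

/-- the remaining kinds -/
lemma C8.kind' (W : C8 P r lo hi e w Y θ B) {z : P} (hz : z ∈ bdR (unnat (N8 Y))) :
    13 ≤ cst 4 (h8 Y θ) z ∨
    (h8 Y θ z = 2 ∧ cst 4 (h8 Y θ) z = 12 ∧ nab 4 z = 2 ∧ nab 6 z = 2) ∨
    (h8 Y θ z = 1 ∧ cst 4 (h8 Y θ) z = 12 ∧ nab 4 z = 4 ∧ nab 5 z = 3) ∨
    (h8 Y θ z = 1 ∧ cst 4 (h8 Y θ) z = 11 ∧ ∃ t, IsCx t (b8 lo hi t) (θ t) z) := by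
  have h5 := W.no5 z hz
  have h7 := W.no7 z hz
  rcases W.kind hz with h | ⟨-, h, -⟩ | ⟨-, h, -⟩ | ⟨g, h, h4, h6⟩ | ⟨g, h, h4, h6⟩ | ⟨t, g, h⟩
  · exact Or.inl h
  · exact absurd h h5
  · exact absurd h h7
  · exact Or.inr (Or.inl ⟨g, h, h4, h6⟩)
  · exact Or.inr (Or.inr (Or.inl ⟨g, h, h4, h6⟩))
  · exact Or.inr (Or.inr (Or.inr ⟨g, cx_cost W.K.gt.H.gradedBelow g h, t, h⟩))

end

end Pool.Agent.GaussPoset.J8

end

/-! From `Pool.Agent.W_448j8_h67.JaP` -/

section

/-!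
Level 8, window 4: the energy 12 (MP_448cb3_co).
-/

namespace Pool.Agent.GaussPoset.J8

set_option linter.unusedSectionVars false

open Polynomial Finset Dd Wd Cl

universe u

variable {P : Type u} [Fintype P] [PartialOrder P] [DecidableEq P] {r : ℕ}

section

variable {lo hi : Tops P → ℕ → ℕ} {e : Tops P → ℕ → ℕ → P} {w : Tops P → ℕ}
  {Y : Tops P → Finset P} {θ : Tops P → P → ℕ} {B : Tops P → P → Prop}

/-- the elements with the same strict up-set -/
noncomputable def fam (R : Finset P) (z : P) : Finset P := by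
  classical exact (bdR R).filter (fun y => ∀ v, z < v ↔ y < v)

lemma mem_fam {R : Finset P} {z y : P} : y ∈ fam R z ↔ y ∈ bdR R ∧ ∀ v, z < v ↔ y < v := by
  classical
  unfold fam
  rw [mem_filter]

lemma fam_self {R : Finset P} {z : P} (hz : z ∈ bdR R) : z ∈ fam R z :=
  mem_fam.mpr ⟨hz, fun _ => Iff.rfl⟩

lemma fam_eq {R : Finset P} {z z' y : P} (h : y ∈ fam R z) (h' : y ∈ fam R z') :
    fam R z = fam R z' := by
  ext x
  rw [mem_fam, mem_fam]
  refine and_congr_right fun _ => ?_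
  constructor
  · intro h1 v
    rw [(mem_fam.mp h').2 v, ← (mem_fam.mp h).2 v]
    exact h1 v
  · intro h1 v
    rw [(mem_fam.mp h).2 v, ← (mem_fam.mp h').2 v]
    exact h1 v

/-- the elements of a family of (C) elements -/
lemma C8.fam_cx (W : C8 P r lo hi e w Y θ B) {z y : P} {t : Tops P}
    (hx : IsCx t (b8 lo hi t) (θ t) z) (hy : y ∈ fam (unnat (N8 Y)) z) :
    h8 Y θ y = 1 ∧ IsCx t (b8 lo hi t) (θ t) y := by
  obtain ⟨Nc, co, F, S, C, hb, hF⟩ := hx
  obtain ⟨hyR, hup⟩ := mem_fam.mp hy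
  have hyF := (cov_of_up hup).mp C.zF
  have hyS := (cov_of_up hup).mp C.zS
  have C' : CEl t Nc co 4 y F S := ⟨C.chart, C.strip, C.F_mem, C.S_mem, C.co_F, C.co_S, hyF,
    hyS, fun w hw => C.only w ((cov_of_up hup).mpr hw)⟩
  have h1 := W.h_le hyF (C.chart.le_t F C.F_mem) C.lev_F.le
  have h2 := W.lad.one_le hyR
  have h2' : 1 ≤ h8 Y θ y := h2
  exact ⟨by omega, Nc, co, F, S, C', hb, hF⟩

/-- a (C) element and another boundary element -/
lemma C8.pair (W : C8 P r lo hi e w Y θ B) {z z' : P} (hz : h8 Y θ z = 1)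
    {t : Tops P} (hx : IsCx t (b8 lo hi t) (θ t) z) (hz' : z' ∈ bdR (unnat (N8 Y)))
    (hne : z' ∉ fam (unnat (N8 Y)) z) :
    12 < ∑ x, max (ez 4 (h8 Y θ) z x) (ez 4 (h8 Y θ) z' x) := by
  classical
  have H := W.K.gt.H
  have hc := cx_cost H.gradedBelow hz hx
  obtain ⟨Nc, co, F, S, C, hb, hF⟩ := hx
  have hlz := C.lev_z H.gradedBelow
  have hlz' := W.lev9 (mem_filter.mp hz').1
  have hle : ¬ z ≤ z' := by
    intro h
    rcases eq_or_lt_of_le h with h1 | h1
    · apply hne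
      rw [← h1]
      exact mem_fam.mpr ⟨by rw [h1]; exact hz', fun _ => Iff.rfl⟩
    · have := lev_strictAnti h1
      omega
  have h0 : ez 4 (h8 Y θ) z z' = 0 := by
    unfold ez
    rw [if_neg hle]
  have h1 : ez 4 (h8 Y θ) z' z' = h8 Y θ z' := ez_self (W.lad.le_lev hz')
  have hone := W.lad.one_le hz'
  have hone' : 1 ≤ h8 Y θ z' := hone
  -- the sum
  have hsum : ∀ T : Finset P, (∀ x ∈ T, ¬ z ≤ x) →
      11 + ∑ x ∈ T, ez 4 (h8 Y θ) z' x ≤
        ∑ x, max (ez 4 (h8 Y θ) z x) (ez 4 (h8 Y θ) z' x) := by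
    intro T hT
    have e1 : cst 4 (h8 Y θ) z = ∑ x, ez 4 (h8 Y θ) z x := rfl
    rw [← hc, e1, ← Finset.sum_add_sum_compl T (fun x => max (ez 4 (h8 Y θ) z x) _),
      ← Finset.sum_add_sum_compl T (fun x => ez 4 (h8 Y θ) z x)]
    have e2 : ∑ x ∈ T, ez 4 (h8 Y θ) z x = 0 := by
      refine Finset.sum_eq_zero fun x hx => ?_
      unfold ez
      rw [if_neg (hT x hx)]
    have e3 : ∑ x ∈ Tᶜ, ez 4 (h8 Y θ) z x ≤
        ∑ x ∈ Tᶜ, max (ez 4 (h8 Y θ) z x) (ez 4 (h8 Y θ) z' x) :=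
      Finset.sum_le_sum fun x _ => le_max_left _ _
    have e4 : ∑ x ∈ T, ez 4 (h8 Y θ) z' x ≤
        ∑ x ∈ T, max (ez 4 (h8 Y θ) z x) (ez 4 (h8 Y θ) z' x) :=
      Finset.sum_le_sum fun x _ => le_max_right _ _
    omega
  rcases Nat.lt_or_ge (h8 Y θ z') 2 with h2 | h2
  swap
  · have h3 := hsum {z'} (fun x hx => by rw [mem_singleton.mp hx]; exact hle)
    rw [Finset.sum_singleton, h1] at h3
    omega
  have h3 : h8 Y θ z' = 1 := by omega
  -- a cover which is not above `z`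
  have hcov : ∃ y, z' ⋖ y ∧ ¬ z ≤ y ∧ 5 ≤ lev y := by
    by_contra hcon
    push Not at hcon
    obtain ⟨x, hx, hzx, hh⟩ := hcan_spec (θ := th8 θ) hz'
    have hh' : h8 Y θ z' = θ (topOf x) x + 1 := hh
    have hlx := (H.covBy_iff.mp hzx).2
    have hx8 : lev x = 8 := by
      rcases W.nat_cases hx with h4 | h4
      · omega
      · have := (W.td (topOf x)).Yth x h4
        omega
    have hly : ∀ y, z' ⋖ y → lev y = 8 := fun y hy => by
      have := (H.covBy_iff.mp hy).2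
      omega
    have hFS : ∀ y, z' ⋖ y → y = F ∨ y = S := by
      intro y hy
      have h5 : z ≤ y := by
        by_contra h6
        have := hcon y hy h6
        have := hly y hy
        omega
      have h6 : z < y := lt_of_le_of_ne h5 (by
        rintro rfl
        have := hly z hy
        omega)
      have hyl := hly y hy
      rcases C.lt_iff.mp h6 with h7 | h7
      · left
        rcases eq_or_lt_of_le h7 with h8 | h8
        · exact h8.symm
        · have := lev_strictAnti h8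
          have := C.lev_F
          omega
      · right
        rcases eq_or_lt_of_le h7 with h8 | h8
        · exact h8.symm
        · have := lev_strictAnti h8
          have := C.lev_S
          omega
    by_cases hp : ∀ y, z' ⋖ y → y = x
    · -- a pendant with label one
      have hn : ∀ k, k ≤ 8 → nab k z' = nab k x := fun k hk =>
        nab_pend (⟨hzx, hp⟩ : Pend z' x) (by omega)
      have hl9 : lev z' = 9 := by omega
      have n8 : nab 8 z' = 1 := by
        rw [hn 8 le_rfl]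
        have := nab_self (z := x)
        rwa [hx8] at this
      have hcz := cst_one hl9 h3
      have n5 := W.no5 z' hz'
      have n7 := W.no7 z' hz'
      rcases (W.td (topOf x)).pend x z' (le_topOf x) hx8 hzx hp with h5 | ⟨h5, h6⟩ | ⟨h5, h6⟩
      · omega
      · rcases h6 with ⟨g4, g5, g6, g7⟩ | ⟨g4, g5, g6, g7⟩
        · rw [← hn _ (by norm_num)] at g4 g5 g6 g7
          omega
        · rw [← hn _ (by norm_num)] at g4 g5 g6 g7
          omega
      · omega
    · -- the same covers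
      push Not at hp
      obtain ⟨y, hzy, hyx⟩ := hp
      apply hne
      rw [mem_fam]
      refine ⟨hz', ?_⟩
      have hFz : z' ⋖ F ∧ z' ⋖ S := by
        rcases hFS x hzx with h5 | h5 <;> rcases hFS y hzy with h6 | h6
        · exact absurd (h6.trans h5.symm) hyx
        · rw [h5] at hzx; rw [h6] at hzy; exact ⟨hzx, hzy⟩
        · rw [h5] at hzx; rw [h6] at hzy; exact ⟨hzy, hzx⟩
        · exact absurd (h6.trans h5.symm) hyx
      refine up_of_cov fun v => ?_
      constructor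
      · intro hv
        rcases C.only v hv with h5 | h5
        · rw [h5]; exact hFz.1
        · rw [h5]; exact hFz.2
      · intro hv
        rcases hFS v hv with h5 | h5
        · rw [h5]; exact C.zF
        · rw [h5]; exact C.zS
  obtain ⟨y, hy1, hy2, hy3⟩ := hcov
  have hyz : z' ≠ y := hy1.1.ne
  have h4 := hsum {z', y} (fun x hx => by
    rw [mem_insert, mem_singleton] at hx
    rcases hx with rfl | rfl
    · exact hle
    · exact hy2)
  rw [Finset.sum_pair hyz, h1] at h4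
  have h5 : ez 4 (h8 Y θ) z' y = 1 := by
    unfold ez
    rw [if_pos hy1.1.le, h3]
    omega
  omega

end

end Pool.Agent.GaussPoset.J8

end
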