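import Mathlib
import Pool.Agent.W_448zz_h61.Ns
import Pool.Agent.W_448zz_h61.M102
import Pool.Agent.W_448zz_h61.M132

/-! From `Pool.Agent.W_448jx_h67.WeB` -/

section

/-!
The windows `2`, `3` at `j = 10` with the component of the end `(5, 25, 0)`: covers
(MP_448cb3_co, HJoin10)
-/

namespace Pool.Agent.GaussPoset.Sm

set_option linter.unusedSectionVars false

open Polynomial Finset

universe u

variable {P : Type u} [Fintype P] [PartialOrder P] [DecidableEq P] {r j w K : ℕ}
  {N : Tops P → Finset P} {b : Tops P → ℕ} {θ : Tops P → P → ℕ}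

lemma We.bs (W : We r j w K N b θ) {x : P} (hx : x ∉ rA N) : Bs N θ x (bs N x) := by
  classical
  unfold GaussPoset.bs
  rcases not_mem_rA.mp hx with h | h
  · rw [if_neg (W.not_tw h)]
    exact ⟨h, rfl, W.thA_nat h, fun k => Or.inl rfl, fun v => Iff.rfl⟩
  · rw [if_pos h]
    have h1 := W.twSys.up x h
    refine ⟨W.twSys.nat x h, W.twSys.lev h, W.thA_tw h, fun k => ?_, h1⟩
    rcases Nat.lt_or_ge k (Pool.Agent.GaussPoset.lev x) with h2 | h2
    · exact Or.inl (nab_congr_up h1 h2)
    · exact Or.inr h2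

lemma We.hA_le (W : We r j w K N b θ) {z x : P} (hx : x ∉ rA N) (hzx : z ⋖ x) :
    hA N θ z ≤ θ (topOf (GaussPoset.bs N x)) (GaussPoset.bs N x) + 1 := by
  rw [← (W.bs hx).th]
  exact hcan_le hx hzx

lemma We.hA_spec (W : We r j w K N b θ) {z : P} (hz : z ∈ bdR (rA N)) :
    ∃ x, x ∉ rA N ∧ z ⋖ x ∧
      hA N θ z = θ (topOf (GaussPoset.bs N x)) (GaussPoset.bs N x) + 1 := by
  obtain ⟨x, h1, h2, h3⟩ := hcan_spec (θ := thA N θ) hz
  refine ⟨x, h1, h2, ?_⟩
  rw [← (W.bs h1).th]
  exact h3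

lemma We.bd_lev (W : We r j w K N b θ) {z : P} (hz : z ∈ bdR (rA N)) : j < lev z :=
  W.lt_lev (mem_rA.mp (mem_bdR.mp hz).1).1

/-- an element of the far set is not below two neighbours with a common cover -/
theorem We.no_adj (W : We r j w K N b θ) {z x x' p : P} (hz : z ∈ rA N) (hx : x ∉ unnat N)
    (hx' : x' ∉ unnat N) (hzx : z ⋖ x) (hzx' : z ⋖ x') (hne : x ≠ x') (hp : x ⋖ p)
    (hp' : x' ⋖ p) : False := by
  have H := W.gt.H
  have HN := W.natSys
  have hzu := (mem_rA.mp hz).1
  have hzt : ∀ y, y ∉ unnat N → ¬ ∀ v, y < v ↔ z < v := fun y hy h =>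
    (mem_rA.mp hz).2 (mem_twA.mpr ⟨hzu, y, hy, h⟩)
  have t1 := (W.up hx hp.1.le).2
  have t2 := (W.up hx' hp'.1.le).2
  have huni := uc_two_of H hzx hzx' hne
  have hxt : x ∈ N (topOf x) := HN.mem_iff.mpr ⟨hx, rfl⟩
  have hxt' : x' ∈ N (topOf x) := HN.mem_iff.mpr ⟨hx', by rw [← t2, t1]⟩
  have hzN := mem_unnat.mp hzu (topOf x)
  have hnat : ∀ y ∈ N (topOf x), y ∉ unnat N := fun y hy => (HN.mem_iff.mp hy).1
  have hle1 : x ≤ (topOf x : P) := le_topOf x
  have hle2 : x' ≤ (topOf x : P) := by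
    have h := le_topOf x'
    rw [← t2, t1] at h
    exact h
  generalize topOf x = t at hxt hxt' hzN hnat hle1 hle2
  rcases W.typ t with hTX | hE
  swap
  · have e1 := (H.covBy_iff.mp hzx).2
    have e2 := (H.covBy_iff.mp hzx').2
    have e3 := W.lt_lev hzu
    exact hne (hE.one x hle1 x' hle2 (hE.spec hxt (by omega)).1 (hE.spec hxt' (by omega)).1)
  rcases hTX with ⟨h1, h2, h3, h5⟩ | ⟨Nc, co, h0, h1, h2, h4⟩ |
    ⟨Nc, co, h0, h1, h2, h3, h4, h5'⟩
  · apply hzN
    rw [h1] at hxt hxt' ⊢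
    rw [mem_onlyB] at hxt hxt' ⊢
    intro s hs hzs
    have hzs' : z < s := lt_of_le_of_ne hzs (by
      intro h
      have := lev_strictAnti hzx.1
      rw [h] at this
      omega)
    obtain ⟨v, hv, hvs⟩ := Hul.exists_cov hzs'
    rcases huni v hv with h | h
    · exact hxt s hs (h ▸ hvs)
    · exact hxt' s hs (h ▸ hvs)
  · rw [h1] at hxt hxt' hzN
    rw [mem_natR] at hxt hxt'
    have hzN1 : z ∉ Nc := fun h => hzN (mem_natR.mpr (Or.inl h))
    have hzN2 : z ∉ junk (fun _ => True) Nc co := fun h => hzN (mem_natR.mpr (Or.inr (Or.inl h)))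
    have hzN3 : z ∉ junk (fun _ => True) Nc (swp co) :=
      fun h => hzN (mem_natR.mpr (Or.inr (Or.inr h)))
    have g1 := h0.one1
    have g2 := h0.one2
    -- both in one orientation
    have fin1 : (x ∈ Nc ∨ x ∈ junk (fun _ => True) Nc co) →
        (x' ∈ Nc ∨ x' ∈ junk (fun _ => True) Nc co) → False := by
      intro e1 e2
      rcases adj_core rowT_true (fun _ _ _ => trivial) h0.chart h0.max H g1 hzN1 e1 e2 hzx hzx' hne
        hp hp' with ⟨y, hy, h⟩ | h
      · exact hzt y (hnat y (by rw [h1]; exact mem_natR.mpr (Or.inl hy))) h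
      · exact hzN2 h
    have fin2 : (x ∈ Nc ∨ x ∈ junk (fun _ => True) Nc (swp co)) →
        (x' ∈ Nc ∨ x' ∈ junk (fun _ => True) Nc (swp co)) → False := by
      intro e1 e2
      rcases adj_core rowT_true (fun _ _ _ => trivial) h0.chart.swap h0.max.swap H g2 hzN1 e1 e2
        hzx hzx' hne hp hp' with ⟨y, hy, h⟩ | h
      · exact hzt y (hnat y (by rw [h1]; exact mem_natR.mpr (Or.inl hy))) h
      · exact hzN3 h
    -- no common cover across
    have across : ∀ (a c : P), a ∈ junk (fun _ => True) Nc co →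
        c ∈ junk (fun _ => True) Nc (swp co) → a ⋖ p → c ⋖ p → False := by
      intro a c ha hc hap hcp
      obtain ⟨x1, H1, hj⟩ := mem_junk.mp ha
      obtain ⟨x2, H2, hj2⟩ := mem_junk.mp hc
      have h2 : p ≤ x1 := by
        rcases (mem_jset.mp hj).2 p hap.1.le with h3 | h3
        · exact h3
        · rcases eq_or_lt_of_le h3 with h4 | h4
          · rw [h4]
          · exact absurd h4 (hap.2 (mem_jset.mp hj).1)
      exact junk_cross h0.chart g1 g2 H1 H2 hj2 (hcp.1.trans_le h2)
    rcases hxt with e | e | e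
    · rcases hxt' with e' | e' | e'
      · exact fin1 (Or.inl e) (Or.inl e')
      · exact fin1 (Or.inl e) (Or.inr e')
      · exact fin2 (Or.inl e) (Or.inr e')
    · rcases hxt' with e' | e' | e'
      · exact fin1 (Or.inr e) (Or.inl e')
      · exact fin1 (Or.inr e) (Or.inr e')
      · exact across x x' e e' hp hp'
    · rcases hxt' with e' | e' | e'
      · exact fin2 (Or.inr e) (Or.inl e')
      · exact across x' x e' e hp' hp
      · exact fin2 (Or.inr e) (Or.inr e')
  · rw [h1] at hxt hxt' hzN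
    rw [mem_natS] at hxt hxt'
    have hzN1 : z ∉ Nc := fun h => hzN (mem_natS.mpr (Or.inl h))
    have hzN2 : z ∉ junk (fun c => c.1 ≤ c.2) Nc co := fun h => hzN (mem_natS.mpr (Or.inr h))
    rcases adj_core rowT_shift (fun s c h => by simpa using h) h0.chart h0.max H (h0.one1 h4) hzN1
      hxt hxt' hzx hzx' hne hp hp' with ⟨y, hy, h⟩ | h
    · exact hzt y (hnat y (by rw [h1]; exact mem_natS.mpr (Or.inl hy))) h
    · exact hzN2 h

/-- two covers of the level `j` of an element of the far set have one cover each -/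
lemma We.near (W : We r j w K N b θ) {z x x' : P} (hz : z ∈ rA N) (hl : lev z = j + 1)
    (hzx : z ⋖ x) (hzx' : z ⋖ x') (hne : x ≠ x') :
    (Win.uc x).card = 1 ∧ (Win.uc x').card = 1 := by
  have hj := W.hj
  have H := W.gt.H
  obtain ⟨i, rfl⟩ : ∃ i, j = i + 1 := ⟨j - 1, by omega⟩
  rcases (Win.near_level' W.gt (by omega)).1 z x x' hl hzx hzx' hne with h | h
  · exfalso
    obtain ⟨p, hp, hp'⟩ := Win.StA_of_ucv (v := x) (v' := x') (by omega)
    have e1 := (H.covBy_iff.mp hzx).2
    have e2 := (H.covBy_iff.mp hzx').2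
    exact W.no_adj hz (W.low (by omega)) (W.low (by omega)) hzx hzx' hne hp hp'
  · exact ⟨h.1, h.2.1⟩

/-- three elements on the levels above -/
theorem We.row1_three (W : We r j w K N b θ) {z x x' : P} (hz : z ∈ rA N) (hx : x ∉ unnat N)
    (hx' : x' ∉ unnat N) (hzx : z ⋖ x) (hzx' : z ⋖ x') (hne : x ≠ x') (hR : Row1 j w N θ x)
    (hK : Str w N θ x' ∨ Row1 j w N θ x') {k : ℕ} (hk2 : 2 ≤ k) (hwk : w ≤ k) (hkx : k < lev x) :
    3 ≤ nab k z := by
  have H := W.gt.H
  have HN := W.natSys
  have hj := W.hj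
  have hw := W.hw
  have hlz := W.lt_lev (mem_rA.mp hz).1
  have e1 := (H.covBy_iff.mp hzx).2
  have e2 := (H.covBy_iff.mp hzx').2
  have hxt : x ∈ N (topOf x) := HN.mem_iff.mpr ⟨hx, rfl⟩
  have hxt' : x' ∈ N (topOf x') := HN.mem_iff.mpr ⟨hx', rfl⟩
  have hR3 : nab 3 x = 2 := hR.nab 3 hw (by omega)
  have hRt := hR.th
  by_cases htt : topOf x' = topOf x
  · have hno : ∀ p, x ⋖ p → ¬ x' ⋖ p := fun p hp hp' => W.no_adj hz hx hx' hzx hzx' hne hp hp'
    rw [htt] at hxt'
    have hth' : θ (topOf x) x' = lev x' - w ∨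
        (θ (topOf x) x' + 1 = lev x' - w ∧ nab 3 x' = 2) := by
      rcases hK with h | h
      · left
        rw [← htt]
        exact h.th
      · right
        rw [← htt]
        exact ⟨h.th, h.nab 3 hw (by omega)⟩
    generalize topOf x = t at hxt hxt' hRt hth'
    rcases W.typ t with hTX | hE
    swap
    · exfalso
      obtain ⟨k1, k2, k3, k4, -⟩ := hE.spec hxt (by omega)
      omega
    rcases hTX with ⟨h1, h2, h3, h5⟩ | ⟨Nc, co, h0, h1, h2, h4⟩ |
      ⟨Nc, co, h0, h1, h2, h3, h4, h5'⟩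
    · exfalso
      rw [h2] at hRt
      simp only at hRt
      omega
    · rw [h1] at hxt hxt'
      rw [h2] at hRt hth'
      obtain ⟨f1, f2, f3, f4⟩ := rect_row17 h0 hw hxt (by omega) hRt hR3
      have hxs' : (Side (fun _ => True) Nc co x' ∨ Side (fun _ => True) Nc (swp co) x') ∨
          (x' ∈ Nc ∧ ((co x').1 = 1 ∨ (co x').2 = 1)) := by
        rcases hth' with h | ⟨h, h'⟩
        · exact Or.inl (rect_str7 h0 hw hxt' (by omega) h)
        · obtain ⟨a1, a2, a3, a4⟩ := rect_row17 h0 hw hxt' (by omega) h h'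
          exact Or.inr ⟨a1, a4⟩
      rcases f4 with f4 | f4
      · refine other_side H h0.chart h0.one2 f1 hzx.1.le f4 f3 (by omega) hzx'.1.le hne ?_ hno hk2
          hkx
        rcases hxs' with (h | h) | h
        · exact Or.inl h
        · exact Or.inr (Or.inl h)
        · exact Or.inr (Or.inr h)
      · refine other_side H h0.chart.swap h0.one1 f1 hzx.1.le f4 f2 (by omega) hzx'.1.le hne ?_
          hno hk2 hkx
        rcases hxs' with (h | h) | h
        · exact Or.inr (Or.inl h)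
        · exact Or.inl h
        · exact Or.inr (Or.inr ⟨h.1, h.2.symm⟩)
    · exfalso
      rw [h1] at hxt hxt'
      rw [h2] at hRt hth'
      obtain ⟨f1, f2⟩ := stair_row17 h0 hw h4 hxt (by omega) hRt
      rcases hth' with h | ⟨h, h'⟩
      · have h6 := stair_str7 h0 hw h4 hxt' (by omega) h
        obtain ⟨a1, a2⟩ := h6.cell h0.chart f1 f2 (by omega)
        obtain ⟨p, hp, hcp⟩ := h0.chart.low x f1 (0, (co x).2) ⟨Nat.zero_le _, le_rfl⟩
          (Nat.zero_le _)
        refine hno p ?_ ?_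
        · rw [chart_cov h0.chart H f1 hp, hcp]
          exact Or.inl ⟨by simp only; omega, rfl⟩
        · rw [chart_cov h0.chart H a1 hp, hcp, a2]
          exact Or.inr ⟨rfl, rfl⟩
      · obtain ⟨a1, a2⟩ := stair_row17 h0 hw h4 hxt' (by omega) h
        have l1 := h0.chart.lev x f1
        have l2 := h0.chart.lev x' a1
        exact hne (h0.chart.inj x f1 x' a1 (Prod.ext (by omega) (by omega)))
  · have h3 := nab_join HN H.gradedBelow hxt hzx.1.le (topOf x').2 (fun h => htt (Subtype.ext h))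
      (hzx'.1.le.trans (le_topOf x')) (l := k) (by omega)
    have := hR.nab k hwk hkx
    omega

/-- straight natural elements -/
lemma We.str_nab (W : We r j w K N b θ) (L : Unq P w b) {x : P} (hx : x ∉ unnat N)
    (hS : Str w N θ x) (hl : j ≤ lev x) : nab w x = 1 := by
  classical
  have H := W.gt.H
  have HN := W.natSys
  have hg := W.gt.good
  have hj := W.hj
  have hw := W.hw
  have hxt : x ∈ N (topOf x) := HN.mem_iff.mpr ⟨hx, rfl⟩
  have hth := hS.th
  generalize topOf x = t at hxt hth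
  rcases W.typ t with hTX | hE
  swap
  · exfalso
    obtain ⟨k1, k2, k3, k4, -⟩ := hE.spec hxt (by omega)
    omega
  rcases hTX with ⟨g1, g2, g3, g5⟩ | ⟨Nc, co, h0, g1, g2, g4⟩ |
    ⟨Nc, co, h0, g1, g2, g3, g4, g5'⟩
  · rw [g1] at hxt
    refine le_antisymm ?_ (one_le_nab (by omega))
    unfold nab
    rw [Finset.card_le_one]
    intro y hy y' hy'
    rw [mem_filter, mem_lv] at hy hy'
    exact L t g3 y y' (onlyB_le (onlyB_up hxt hy.2)) (onlyB_le (onlyB_up hxt hy'.2)) hy.1 hy'.1
  · rw [g1] at hxt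
    rw [g2] at hth
    rcases rect_str7 h0 hw hxt (by omega) hth with h | h
    · exact h.nab_one rowT_true h0.chart H hg h0.strip h0.one1 (by omega) (by omega)
    · exact h.nab_one rowT_true h0.chart.swap H hg h0.strip h0.one2 (by omega) (by omega)
  · rw [g1] at hxt
    rw [g2] at hth
    have h := stair_str7 h0 hw g4 hxt (by omega) hth
    exact h.nab_one rowT_shift h0.chart H hg h0.strip (h0.one1 g4) (by omega) (by omega)

/-- thresholds of single-up elements of level `j` -/
lemma We.single_th (W : We r j w K N b θ) {x : P} (hx : x ∉ unnat N) (hl : lev x = j)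
    (h1 : (Win.uc x).card = 1)
    (hn : ¬ E6T j w (topOf x) (b (topOf x)) (N (topOf x)) (θ (topOf x))) :
    lev x ≤ θ (topOf x) x + 2 + w := by
  have H := W.gt.H
  have HN := W.natSys
  have hj := W.hj
  have hw := W.hw
  have hxt : x ∈ N (topOf x) := HN.mem_iff.mpr ⟨hx, rfl⟩
  generalize topOf x = t at hxt hn ⊢
  rcases (W.typ t).resolve_right hn with ⟨g1, g2, g3, g5⟩ | ⟨Nc, co, h0, g1, g2, g4⟩ |
    ⟨Nc, co, h0, g1, g2, g3, g4, g5'⟩
  · rw [g2]
    simp only
    omega
  · rw [g1] at hxt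
    by_cases hJ : x ∈ junk (fun _ => True) Nc co ∨ x ∈ junk (fun _ => True) Nc (swp co)
    · rw [g2]
      unfold thR
      rw [if_pos hJ]
      omega
    · have hxN : x ∈ Nc := by
        rw [mem_natR] at hxt
        rcases hxt with h | h | h
        · exact h
        · exact absurd (Or.inl h) hJ
        · exact absurd (Or.inr h) hJ
      have h2 := rect_th7 h0 hw hxN hJ (by omega)
      rw [g2]
      by_contra hcon
      have := chart_inner_uc h0.chart H hxN (by omega) (by omega)
      omega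
  · rw [g1] at hxt
    by_cases hJ : x ∈ junk (fun c => c.1 ≤ c.2) Nc co
    · rw [g2]
      unfold thS
      rw [if_pos hJ]
      omega
    · have hxN : x ∈ Nc := by
        rw [mem_natS] at hxt
        exact hxt.resolve_right hJ
      have h2 := stair_th7 h0 hw g4 hxN hJ (by omega)
      rw [g2]
      omega

end Pool.Agent.GaussPoset.Sm

end

/-! From `Pool.Agent.W_448jx_h67.WeC` -/

section

/-!
The windows `2`, `3` at `j = 10` with the component of the end `(5, 25, 0)`: straight covers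
(MP_448cb3_co, HJoin10)
-/

namespace Pool.Agent.GaussPoset.Sm

set_option linter.unusedSectionVars false

open Polynomial Finset

universe u

variable {P : Type u} [Fintype P] [PartialOrder P] [DecidableEq P] {r j w K0 K : ℕ}
  {N : Tops P → Finset P} {b : Tops P → ℕ} {θ : Tops P → P → ℕ} {XE XO : ℕ → Prop}

/-- a flat cheapest element below a cell of row `1` -/
theorem We.row1_outS (W : We r j w K0 N b θ)
    (hKK : 2 * K < 3 * (j + 1 - w) ^ 2 + 3 * (j + 1 - w)) {v : ℕ} {z : P} (hz : z ∈ bdR (rA N))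
    (hc : cst w (hA N θ) z = v) (hF : Flat j w N θ z) (hge : lev z ≤ hA N θ z + 1 + w) {x : P}
    (hzx : z ⋖ x) (hR : Row1 j w N θ x) : OutK j w K XE XO (hA N θ) z v := by
  classical
  have H := W.gt.H
  have hj := W.hj
  have hw := W.hw
  have hzR := (mem_bdR.mp hz).1
  have hlz := W.bd_lev hz
  have e1 := (H.covBy_iff.mp hzx).2
  have hx := (hF x hzx).1
  have hbs : GaussPoset.bs N x = x := by
    unfold GaussPoset.bs
    rw [if_neg (W.not_tw hx)]
  have hle := W.hA_le (not_mem_rA.mpr (Or.inl hx)) hzx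
  rw [hbs] at hle
  have hRt := hR.th
  obtain ⟨a, ha⟩ : ∃ a, lev x = w + a := ⟨lev x - w, by omega⟩
  have hha : hA N θ z = a := by omega
  have h1w := hR.one_le
  by_cases honly : ∀ y, z ⋖ y → y = x
  · -- a pendant
    have hlx : lev x ≠ j := fun h => hR.nopen h z hzx honly
    right
    refine ⟨?_, Or.inl ⟨?_, Or.inl ⟨h1w, Or.inr (Or.inl ⟨a - (j + 1 - w), Or.inl ?_⟩)⟩⟩⟩
    · rw [hha, ← ha, nab_only honly hzx (by omega), hR.nab w le_rfl (by omega),
        nab_only honly hzx (by omega), nab_self]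
    · rw [nst_eq, hha, Finset.sum_congr rfl (g := fun _ => 2)]
      · rw [Finset.sum_const, card_range]
        exact ⟨a, by simp only [smul_eq_mul]; ring⟩
      · intro k hk
        rw [mem_range] at hk
        rw [nab_only honly hzx (by omega), hR.nab _ (by omega) (by omega)]
    · rw [← hc, cst_only H.gradedBelow hzx honly, hha, cst_eq_ful (by omega),
        ful_two ha (fun k hk1 hk2 => hR.nab k hk1.le hk2)]
      rw [show j + 1 - w + (a - (j + 1 - w)) = a by omega, Nat.min_eq_left (by omega)]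
      ring
  · -- a pair
    push Not at honly
    obtain ⟨x', hzx', hne'⟩ := honly
    have hne : x ≠ x' := Ne.symm hne'
    have e2 := (H.covBy_iff.mp hzx').2
    have hx' := (hF x' hzx').1
    have hlx : lev x ≠ j := by
      intro h
      have := (W.near hzR (by omega) hzx hzx' hne).1
      have := hR.dbl
      omega
    left
    have h3 : ∀ k, 2 ≤ k → w ≤ k → k < lev x → 3 ≤ nab k z := fun k hk1 hk2 hk3 =>
      W.row1_three hzR hx hx' hzx hzx' hne hR (hF x' hzx').2 hk1 hk2 hk3
    have h4 : 2 ≤ nab (lev x) z := two_le_nab hzx.1.le hzx'.1.le rfl (by omega) hne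
    have h5 : ∑ n ∈ range a, n * 3 + a * 2 + a ≤ v := by
      rw [← hc, cst_shift (a := a + 1) (by omega), Finset.sum_range_succ
        (fun n => min (hA N θ z) n * nab (w + n) z), Finset.sum_range_succ
        (fun n => min (hA N θ z) n * nab (w + n) z), hha]
      refine Nat.add_le_add (Nat.add_le_add ?_ ?_) ?_
      · refine Finset.sum_le_sum fun n hn => ?_
        rw [mem_range] at hn
        rw [Nat.min_eq_right hn.le]
        rcases Nat.eq_zero_or_pos n with h0 | h0
        · subst h0; simp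
        · exact Nat.mul_le_mul_left _ (h3 _ (by omega) (by omega) (by omega))
      · rw [Nat.min_self, ← ha]
        exact Nat.mul_le_mul_left _ h4
      · rw [show w + (a + 1) = lev z by omega, nab_self, mul_one]
        exact Nat.le_min.mpr ⟨le_rfl, by omega⟩
    have h6 := Finset.sum_range_id_mul_two a
    rw [← Finset.sum_mul] at h5
    have hK := hKK
    have h7 : (j + 1 - w) ^ 2 ≤ a ^ 2 := Nat.pow_le_pow_left (by omega) 2
    have h8 : a * (a - 1) + a = a ^ 2 := by
      obtain ⟨c, rfl⟩ : ∃ c, a = c + 1 := ⟨a - 1, by omega⟩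
      rw [Nat.add_sub_cancel]
      ring
    omega

/-- straight covers below two tops -/
theorem We.cross_outS (W : We r j w K0 N b θ) (L : Unq P w b)
    (F : ∀ z x x' : P, Cg z x x' → j + 1 ≤ lev z → nab w x = 1 → ¬ Sok j x → K < ful w z)
    {v : ℕ} {z : P}
    (hz : z ∈ bdR (rA N)) (hh : hA N θ z = lev z - w) (hc : cst w (hA N θ) z = v) {x x' : P}
    (hx : x ∉ unnat N) (hx' : x' ∉ unnat N) (hS : Str w N θ x) (hS' : Str w N θ x')
    (hzx : z ⋖ x) (hzx' : z ⋖ x') (htt : topOf x ≠ topOf x') :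
    OutK j w K XE XO (hA N θ) z v := by
  classical
  have H := W.gt.H
  have HN := W.natSys
  have hj := W.hj
  have hw := W.hw
  have hlz := W.bd_lev hz
  have e1 := (H.covBy_iff.mp hzx).2
  have e2 := (H.covBy_iff.mp hzx').2
  have hxt : x ∈ N (topOf x) := HN.mem_iff.mpr ⟨hx, rfl⟩
  have hxt' : x' ∈ N (topOf x') := HN.mem_iff.mpr ⟨hx', rfl⟩
  have n1 := W.str_nab L hx hS (by omega)
  have n2 := W.str_nab L hx' hS' (by omega)
  have hv : v = ful w z := by
    rw [← hc]
    exact cst_eq_ful (by omega)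
  have C : Cg z x x' := Cg.mk' hzx hzx' (mem_onlyB.mpr fun s hs hxs => HN.top_eq hxt hs hxs)
    (mem_onlyB.mpr fun s hs hxs => HN.top_eq hxt' hs hxs) htt
  by_cases s1 : Sok j x
  · by_cases s2 : Sok j x'
    · right
      refine ⟨?_, Or.inr (Or.inr ⟨⟨x, x', C, s1, s2⟩, hv, hh⟩)⟩
      rw [nab_join_eq HN H hxt hxt' htt hzx hzx' (by omega), n1, n2, hh,
        show w + (lev z - w) = lev z by omega, nab_self]
    · left
      rw [hv]
      exact F z x' x C.symm (by omega) n2 s2
  · left
    rw [hv]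
    exact F z x x' C (by omega) n1 s1

/-- the own pair: two straight covers on the two sides of a rectangle-like component -/
theorem We.own_pairS (W : We r j w K0 N b θ) {v : ℕ}
    (hP : OnePen P j (fun t => 2 ≤ b t) ∨ v ≤ (j + 1 - w) ^ 2 + 5 * (j - w)) {z : P}
    (hz : z ∈ bdR (rA N)) (hh : hA N θ z = lev z - w) (hc : cst w (hA N θ) z = v) {t : Tops P}
    {c : ℕ} {Nc : Finset P} {co : P → ℕ × ℕ} (R : RectNat j w t c Nc co) {x x' : P}
    (hx : Side (fun _ => True) Nc co x) (hx' : Side (fun _ => True) Nc (swp co) x')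
    (hzx : z ⋖ x) (hzx' : z ⋖ x') (hxt : topOf x = topOf x') (hB : 2 ≤ b (topOf x)) :
    OutK j w K XE XO (hA N θ) z v := by
  classical
  have H := W.gt.H
  have hg := W.gt.good
  have hj := W.hj
  have hw := W.hw
  have hlz := W.bd_lev hz
  have hw1 : 1 ≤ w := by
    have := R.b_two
    have := R.b_le
    omega
  have e1 := (H.covBy_iff.mp hzx).2
  have e2 := (H.covBy_iff.mp hzx').2
  have hsum := fun {k : ℕ} (hk : 1 ≤ k) (hkz : k < lev z) =>
    nab_two_sides H R hx hx' hzx hzx' hk hkz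
  have n1 : ∀ k, k ≤ j → nab k x = 1 := fun k hk =>
    hx.nab_one rowT_true R.chart H hg R.strip R.one1 hk (by omega)
  have n2 : ∀ k, k ≤ j → nab k x' = 1 := fun k hk =>
    hx'.nab_one rowT_true R.chart.swap H hg R.strip R.one2 hk (by omega)
  -- the ancestors of level `j`
  have hpar : OnePen P j (fun t => 2 ≤ b t) → ∀ (a a' : P), 2 ≤ b (topOf a) →
      topOf a = topOf a' → j + 1 ≤ lev a → j + 1 ≤ lev a' →
      a ≤ (topOf a : P) → (∀ k, k ≤ j → nab k a = 1) → (∀ k, k ≤ j → nab k a' = 1) →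
      (∀ e e', a ≤ e → lev e = j → a' ≤ e' → lev e' = j → e ≠ e') →
      ∀ e p p' : P, a ≤ e → lev e = j → p ⋖ e → p' ⋖ e → (∀ y, p ⋖ y → y = e) →
      (∀ y, p' ⋖ y → y = e) → p = p' := by
    intro hP a a' hBa htt hla hla' _ h1 h2 hdis e p p' hae hle hp hp' ho ho'
    obtain ⟨e', f1, f2, f3⟩ := exists_between H.gradedBelow (z := a') (s := (topOf a' : P))
      (le_topOf a') (l := j) (by have := (topOf a').2; omega) (by omega)
    have g1 : ∀ k, k ≤ j → nab k e = 1 := fun k hk => by
      have := nab_mono (l := k) hae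
      have := one_le_nab (l := k) (z := e) (by omega)
      have := h1 k hk
      omega
    have g2 : ∀ k, k ≤ j → nab k e' = 1 := fun k hk => by
      have := nab_mono (l := k) f1
      have := one_le_nab (l := k) (z := e') (by omega)
      have := h2 k hk
      omega
    have t1 : topOf e = topOf a := by
      refine Subtype.ext (W.gt.top_eq (by omega) (topOf e).2 (topOf a).2 (le_topOf e) ?_)
      -- `e` is the only ancestor of level `j`
      obtain ⟨q, q1, q2, q3⟩ := exists_between H.gradedBelow (z := a) (s := (topOf a : P))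
        (le_topOf a) (l := j) (by have := (topOf a).2; omega) (by omega)
      by_cases hq : q = e
      · rw [← hq]; exact q2
      · have := two_le_nab (l := j) q1 hae q3 hle hq
        have := h1 j le_rfl
        omega
    have ht : topOf e = topOf e' := by
      have t2 : topOf e' = topOf a' :=
        Subtype.ext (W.gt.top_eq (by omega) (topOf e').2 (topOf a').2 (le_topOf e') f2)
      rw [t1, t2, htt]
    exact hP e e' p p' (by rw [t1]; exact hBa) hle f3 g1 g2 ht (hdis e e' hae hle f1 f3) hp hp' ho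
      ho'
  have hdis : ∀ e e', x ≤ e → lev e = j → x' ≤ e' → lev e' = j → e ≠ e' := by
    intro e e' he hle he' hle' hee
    have h3 := hsum (k := j) (by omega) (by omega)
    rw [n1 j le_rfl, n2 j le_rfl] at h3
    -- `nab j z = 2` but both ancestors are equal
    subst hee
    have h4 : 2 ≤ nab j z := by omega
    unfold nab at h4
    obtain ⟨q, hq, hqe⟩ := Finset.exists_mem_ne (by omega :
      1 < ((lv P j).filter (fun y => z ≤ y)).card) e
    rw [mem_filter, mem_lv] at hq
    have hlt : z < q := lt_of_le_of_ne hq.2 (by rintro rfl; omega)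
    obtain ⟨u, hu, huq⟩ := Hul.exists_cov hlt
    have hne : x ≠ x' := by
      rintro rfl
      have h5 := nab_only (z := z) (x := x) (k := j) ?_ hzx (by omega)
      · rw [h5, n1 j le_rfl] at h3
        omega
      · intro y hy
        by_contra hyx
        have h6 := two_le_nab (l := 1) (z := z) (x := x) (y := x)
        -- `x` is on both sides: impossible
        have h7 := hsum (k := lev x) (by omega) (by omega)
        rw [nab_self] at h7
        have h8 := hx.up R.chart (le_refl x)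
        obtain ⟨q1, r1, r2, r3⟩ := exists_between H.gradedBelow (z := x) (s := (topOf x : P))
          (le_topOf x) (l := 1) (by have := (topOf x).2; omega) (by omega)
        have s1 := hx.up R.chart r1
        have s2 := hx'.up R.chart.swap r1
        have hqN : q1 ∈ Nc := by
          rcases s1 with s | s
          · refine R.strip (mem_lowPart.mpr ⟨?_, by omega⟩)
            obtain ⟨x1, H1, hj1⟩ := mem_junk.mp s
            exact (mem_jset.mp hj1).1.le.trans (R.chart.le_t x1 H1.mem)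
          · exact s.1
        have hlq := R.chart.lev q1 hqN
        have u1 : (co q1).1 = 0 := by
          rcases s1 with s | s
          · exact (junk_fst R.chart R.one1 s hqN).2
          · exact s.2
        have u2 : (co q1).2 = 0 := by
          rcases s2 with s | s
          · exact (junk_swp_fst R.chart R.one2 s hqN).2
          · exact s.2
        omega
    rcases uc_two_of H hzx hzx' hne u hu with h | h
    · rw [h] at huq
      have := two_le_nab (l := j) huq he hq.1 hle hqe
      rw [n1 j le_rfl] at this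
      omega
    · rw [h] at huq
      have := two_le_nab (l := j) huq he' hq.1 hle hqe
      rw [n2 j le_rfl] at this
      omega
  -- numbers
  obtain ⟨c0, hc0⟩ : ∃ c0, lev z = w + c0 := ⟨lev z - w, by omega⟩
  obtain ⟨s, hs⟩ : ∃ s, c0 = j + 1 - w + s := ⟨c0 - (j + 1 - w), by omega⟩
  have hge2 : ∀ n, n < c0 → 2 ≤ nab (w + n) z := by
    intro n hn
    rw [hsum (k := w + n) (by omega) (by omega)]
    have := one_le_nab (l := w + n) (z := x) (by omega)
    have := one_le_nab (l := w + n) (z := x') (by omega)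
    omega
  have heq1 : ∀ n, n < c0 → (n < j + 1 - w ∨ c0 ≤ n + 1) → nab (w + n) z = 2 := by
    intro n hn hor
    rw [hsum (k := w + n) (by omega) (by omega)]
    rcases Nat.lt_or_ge (w + n) (j + 1) with h | h
    · rw [n1 _ (by omega), n2 _ (by omega)]
    · rw [show w + n = lev x by omega, nab_self, show lev x = lev x' by omega, nab_self]
  have heq2 : ∀ n, n < c0 → (n ≤ j + 1 - w ∨ c0 ≤ n + 1) → nab (w + n) z = 2 := by
    intro n hn hor
    by_cases hor' : n < j + 1 - w ∨ c0 ≤ n + 1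
    · exact heq1 n hn hor'
    rcases hP with hP | hP
    · rw [hsum (k := w + n) (by omega) (by omega)]
      have hk : w + n = j + 1 := by omega
      rw [hk]
      have a1 := hx.nab_succ rowT_true R.chart H hg R.strip R.one1 (by omega)
        (hpar hP x x' hB hxt (by omega) (by omega) (le_topOf x) n1 n2 hdis)
      have a2 := hx'.nab_succ rowT_true R.chart.swap H hg R.strip R.one2 (by omega)
        (hpar hP x' x (by rw [← hxt]; exact hB) hxt.symm (by omega) (by omega) (le_topOf x') n2 n1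
          (fun e e' q1 q2 q3 q4 => (hdis e' e q3 q4 q1 q2).symm))
      rw [a1, a2]
    · have hv : v = ful w z := by
        rw [← hc]
        exact cst_eq_ful (by omega)
      exact own_small (w := w) (j := j) (c := c0) (s := s) (fun n => nab (w + n) z) z (by omega) hc0
        hs (fun _ => rfl) hge2 heq1 (by rw [← hv]; exact hP) n hn
  obtain ⟨h5, E, h6, h7, h8, h9⟩ := own_arith (w := w) (j := j) (c := c0) (s := s)
    (fun n => nab (w + n) z) z (by omega) hw1 hc0 hs (fun _ => rfl) hge2 heq2 rfl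
  have hnst : nst w (hA N θ) z = 2 * c0 + ∑ n ∈ range c0, (nab (w + n) z - 2) := by
    rw [nst_eq, hh, show lev z - w = c0 by omega]
    exact h5
  have hv : v = ful w z := by
    rw [← hc]
    exact cst_eq_ful (by omega)
  set m := ∑ n ∈ range c0, (nab (w + n) z - 2) with hm
  right
  refine ⟨?_, ?_⟩
  · rw [hh, show w + (lev z - w) = lev z by omega, nab_self]
    exact heq2 0 (by omega) (by omega)
  · rcases Nat.eq_zero_or_pos m with h0 | h0
    · left
      rw [h0, add_zero] at hnst
      refine ⟨⟨c0, by rw [hnst]; ring⟩, Or.inl ⟨hw1, Or.inl ⟨s, ?_⟩⟩⟩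
      have h10 : E = 0 := by
        rw [h0, mul_zero] at h8
        omega
      rw [hv, h6, h10, add_zero]
    · have h3s := h9 h0
      rcases Nat.even_or_odd m with hme | hmo
      · left
        refine ⟨?_, Or.inl ⟨hw1, Or.inr (Or.inr ⟨s, m, E, h3s, h0, hme, by rw [hv, h6], h7, h8⟩)⟩⟩
        rw [hnst]
        exact (even_two_mul c0).add hme
      · right; left
        refine ⟨?_, Or.inl ⟨hw1, Or.inl ⟨s, m, E, h3s, h0, hmo, by rw [hv, h6], h7, h8⟩⟩⟩
        rw [hnst]
        exact (even_two_mul c0).add_odd hmo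

/-- straight covers below one top -/
theorem We.own_outS (W : We r j w K0 N b θ) {v : ℕ}
    (hP : OnePen P j (fun t => 2 ≤ b t) ∨ v ≤ (j + 1 - w) ^ 2 + 5 * (j - w)) {z : P}
    (hz : z ∈ bdR (rA N)) (hh : hA N θ z = lev z - w) (hc : cst w (hA N θ) z = v)
    (hF : ∀ x, z ⋖ x → x ∉ unnat N ∧ Str w N θ x) {t : Tops P}
    (ht : ∀ x, z ⋖ x → topOf x = t) : OutK j w K XE XO (hA N θ) z v := by
  classical
  have H := W.gt.H
  have HN := W.natSys
  have hj := W.hj
  have hw := W.hw
  have hlz := W.bd_lev hz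
  have hzu := (mem_rA.mp (mem_bdR.mp hz).1).1
  obtain ⟨x, hzx, -⟩ := Hul.exists_cov (w := z) (v := (topOf z : P))
    (lt_of_le_of_ne (le_topOf z) (by
      intro h
      have := (topOf z).2
      rw [← h] at this
      omega))
  have hzN := mem_unnat.mp hzu t
  have hin : ∀ x, z ⋖ x → x ∈ N t ∧ θ t x = lev x - w ∧ lev z = lev x + 1 := by
    intro x hx
    refine ⟨HN.mem_iff.mpr ⟨(hF x hx).1, ht x hx⟩, ?_, (H.covBy_iff.mp hx).2⟩
    rw [← ht x hx]
    exact (hF x hx).2.th
  have hxx := hin x hzx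
  rcases W.typ t with hTX | hE
  swap
  · exfalso
    obtain ⟨k1, k2, k3, k4, -⟩ := hE.spec hxx.1 (by omega)
    omega
  rcases hTX with ⟨g1, g2, g3, g5⟩ | ⟨Nc, co, h0, g1, g2, g4⟩ |
    ⟨Nc, co, h0, g1, g2, g3, g4, g5'⟩
  · exfalso
    apply hzN
    rw [g1, mem_onlyB]
    intro s hs hzs
    have hzs' : z < s := lt_of_le_of_ne hzs (by rintro rfl; omega)
    obtain ⟨u, hu, hus⟩ := Hul.exists_cov hzs'
    have h1 := (hin u hu).1
    rw [g1, mem_onlyB] at h1
    exact h1 s hs hus
  · rw [g1] at hzN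
    have hside : ∀ x, z ⋖ x → Side (fun _ => True) Nc co x ∨ Side (fun _ => True) Nc (swp co) x := by
      intro x hx
      obtain ⟨a1, a2, a3⟩ := hin x hx
      rw [g1] at a1
      rw [g2] at a2
      exact rect_str7 h0 hw a1 (by omega) a2
    by_cases honly : ∀ y, z ⋖ y → y = x
    · exfalso
      obtain ⟨a1, a2, a3, a4, a5⟩ := rect_pendant H h0 g1 hzu hxx.1 hzx honly
      rcases hside x hzx with h | h
      · rcases h with h | h
        · exact a2 h
        · have := h.2
          omega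
      · rcases h with h | h
        · exact a3 h
        · have := h.2
          rw [swp_fst] at this
          omega
    · push Not at honly
      obtain ⟨x', hzx', hne'⟩ := honly
      have hne : x ≠ x' := Ne.symm hne'
      have hxx' := hin x' hzx'
      have huni := uc_two_of H hzx hzx' hne
      have htt : topOf x = topOf x' := by rw [ht x hzx, ht x' hzx']
      rcases hside x hzx with h | h
      · rcases hside x' hzx' with h' | h'
        · exact absurd (mem_natR.mpr (Or.inr (Or.inl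
            (junk_of_sides rowT_true h0.chart h0.one1 h h' hne (by omega) huni hzx)))) hzN
        · exact W.own_pairS hP hz hh hc h0 h h' hzx hzx' htt (by rw [ht x hzx]; exact h0.b_two)
      · rcases hside x' hzx' with h' | h'
        · exact W.own_pairS hP hz hh hc h0 h' h hzx' hzx htt.symm
            (by rw [ht x' hzx']; exact h0.b_two)
        · exact absurd (mem_natR.mpr (Or.inr (Or.inr
            (junk_of_sides rowT_true h0.chart.swap h0.one2 h h' hne (by omega) huni hzx)))) hzN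
  · exfalso
    rw [g1] at hzN
    have hside : ∀ x, z ⋖ x → Side (fun c => c.1 ≤ c.2) Nc co x := by
      intro x hx
      obtain ⟨a1, a2, a3⟩ := hin x hx
      rw [g1] at a1
      rw [g2] at a2
      exact stair_str7 h0 hw g4 a1 (by omega) a2
    by_cases honly : ∀ y, z ⋖ y → y = x
    · obtain ⟨a1, a2, a3⟩ := stair_pendant H h0 (by omega) g1 hzu hxx.1 hzx honly
      rcases hside x hzx with h | h
      · exact a2 h
      · have := h.2
        omega
    · push Not at honly
      obtain ⟨x', hzx', hne'⟩ := honly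
      have hne : x ≠ x' := Ne.symm hne'
      have hxx' := hin x' hzx'
      have huni := uc_two_of H hzx hzx' hne
      exact hzN (mem_natS.mpr (Or.inr (junk_of_sides rowT_shift h0.chart (h0.one1 g4)
        (hside x hzx) (hside x' hzx') hne (by omega) huni hzx)))

end Pool.Agent.GaussPoset.Sm

end

/-! From `Pool.Agent.W_448jx_h67.WeD` -/

section

/-!
The windows `2`, `3` at `j = 10` with the component of the end `(5, 25, 0)`: the fold end
(MP_448cb3_co, HJoin10)
-/

namespace Pool.Agent.GaussPoset.Sm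

set_option linter.unusedSectionVars false

open Polynomial Finset

universe u

variable {P : Type u} [Fintype P] [PartialOrder P] [DecidableEq P] {r j w K : ℕ}
  {N : Tops P → Finset P} {b : Tops P → ℕ} {θ : Tops P → P → ℕ}

/-- an element below two elements of one component is not below the component of `(5, 25, 0)` -/
lemma We.not_E6 (W : We r j w K N b θ) {z f s : P} (hz : z ∈ rA N) (hlz : lev z = j + 1)
    (hzf : z ⋖ f) (hzs : z ⋖ s) (hne : f ≠ s) (htt : topOf f = topOf s) :
    ¬ E6T j w (topOf f) (b (topOf f)) (N (topOf f)) (θ (topOf f)) := by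
  intro hE
  have e1 := (W.gt.H.covBy_iff.mp hzf).2
  have e2 := (W.gt.H.covBy_iff.mp hzs).2
  refine hne (hE.one f (le_topOf f) s ?_ (by omega) (by omega))
  rw [htt]
  exact le_topOf s

/-- a deep element of level `j` with a sibling is a fold end -/
theorem We.fold_cell (W : We r j w K N b θ) (hw2 : 2 ≤ w) {z f s : P}
    (hz : z ∈ rA N) (hlz : lev z = j + 1) (hzf : z ⋖ f) (hzs : z ⋖ s) (hne : f ≠ s)
    (hth : θ (topOf f) f + 1 + w ≤ lev f)
    (hn : ¬ E6T j w (topOf f) (b (topOf f)) (N (topOf f)) (θ (topOf f))) : ∃ Nc co, FoldC j w N b θ f Nc co := by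
  have H := W.gt.H
  have HN := W.natSys
  have hj := W.hj
  have hw := W.hw
  have e1 := (H.covBy_iff.mp hzf).2
  have hlx : lev f = j := by omega
  have hx : f ∉ unnat N := W.low (by omega)
  have hn1 := (W.near hz hlz hzf hzs hne).1
  have hxt : f ∈ N (topOf f) := HN.mem_iff.mpr ⟨hx, rfl⟩
  generalize htt : topOf f = t at hxt hth hn
  have key : ∀ Nc co, StairNat j w t Nc co → N t = natS Nc co → θ t = thS w Nc co →
      b t = w / 2 + 1 → FoldC j w N b θ f Nc co := by
    intro Nc co h0 g1 g2 g3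
    rw [g1] at hxt
    rw [g2] at hth
    have hJ : f ∉ junk (fun c => c.1 ≤ c.2) Nc co := by
      intro h
      unfold thS at hth
      rw [if_pos h] at hth
      omega
    have hxN : f ∈ Nc := by
      rw [mem_natS] at hxt
      exact hxt.resolve_right hJ
    have hl := h0.chart.lev f hxN
    have hm : (co f).1 ≤ (co f).2 := h0.chart.mem f hxN
    have h2 := stair_th7 h0 hw hw2 hxN hJ (by omega)
    rcases Nat.lt_or_ge (co f).1 (co f).2 with hlt | hge
    · have h3 := stair_inner_uc h0.chart H hxN (by omega) hlt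
      omega
    · subst htt
      refine ⟨h0, g1, by rw [g3]; omega, hxN, by omega, by omega, by omega, ?_⟩
      rw [g2]
      omega
  rcases (W.typ t).resolve_right hn with ⟨g1, g2, g3, g5⟩ | ⟨Nc, co, h0, g1, g2, g4⟩ |
    ⟨Nc, co, h0, g1, g2, g3, g4, g5'⟩
  · exfalso
    rw [g2] at hth
    simp only at hth
    omega
  · exfalso
    rw [g1] at hxt
    rw [g2] at hth
    have hJ : ¬ (f ∈ junk (fun _ => True) Nc co ∨ f ∈ junk (fun _ => True) Nc (swp co)) := by
      intro h
      unfold thR at hth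
      rw [if_pos h] at hth
      omega
    have hxN : f ∈ Nc := by
      rw [mem_natR] at hxt
      rcases hxt with h | h | h
      · exact h
      · exact absurd (Or.inl h) hJ
      · exact absurd (Or.inr h) hJ
    have h2 := rect_th7 h0 hw hxN hJ (by omega)
    have h3 := chart_inner_uc h0.chart H hxN (by omega) (by omega)
    omega
  · exact ⟨Nc, co, key Nc co h0 g1 g2 g3⟩

/-- the second end of the stair -/
theorem We.fold_end (W : We r j w K N b θ) {z f s : P} {Nc : Finset P} {co : P → ℕ × ℕ}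
    (C : FoldC j w N b θ f Nc co)
    (hz : z ∈ rA N) (hlz : lev z = j + 1) (hzf : z ⋖ f) (hzs : z ⋖ s) (hne : f ≠ s)
    (htt : topOf f = topOf s) : s ∈ Nc ∧ (co s).1 = 0 ∧ (co s).2 = j := by
  have H := W.gt.H
  have hj := W.hj
  have e1 := (H.covBy_iff.mp hzs).2
  have hls : Pool.Agent.GaussPoset.lev s = j := by omega
  have hn1 := (W.near hz hlz hzf hzs hne).2
  have hsN : s ∈ Nc := by
    refine C.nat.strip (mem_lowPart.mpr ⟨?_, by omega⟩)
    rw [htt]
    exact le_topOf s
  have hl' := C.nat.chart.lev s hsN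
  have hm' : (co s).1 ≤ (co s).2 := C.nat.chart.mem s hsN
  have h10 : (co s).1 = 0 := by
    by_contra h11
    rcases Nat.lt_or_ge (co s).1 (co s).2 with h12 | h12
    · have := stair_inner_uc C.nat.chart H hsN (by omega) h12
      omega
    · refine hne (C.nat.chart.inj f C.mem s hsN (Prod.ext ?_ ?_))
      · rw [C.co1]; omega
      · rw [C.co2]; have := C.ev; omega
  exact ⟨hsN, h10, by omega⟩

/-- the canonical label below a fold end -/
theorem We.hA_fold (W : We r j w K N b θ) {z f s : P} {Nc : Finset P} {co : P → ℕ × ℕ}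
    (C : FoldC j w N b θ f Nc co)
    (hz : z ∈ rA N) (hlz : lev z = j + 1) (hzf : z ⋖ f) (hzs : z ⋖ s) (hne : f ≠ s)
    (htt : topOf f = topOf s) : hA N θ z = j - w - 1 := by
  have H := W.gt.H
  have hj := W.hj
  have e1 := (H.covBy_iff.mp hzf).2
  have hf : f ∉ unnat N := W.low (by omega)
  have hbd : z ∈ bdR (rA N) := mem_bdR.mpr ⟨hz, f, not_mem_rA.mpr (Or.inl hf), hzf⟩
  have hbs : ∀ y : P, y ∉ unnat N → GaussPoset.bs N y = y := by
    intro y hy
    unfold GaussPoset.bs
    rw [if_neg (W.not_tw hy)]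
  have hle := W.hA_le (not_mem_rA.mpr (Or.inl hf)) hzf
  rw [hbs f hf] at hle
  have hth := C.th
  obtain ⟨x0, f1, f2, f3⟩ := W.hA_spec hbd
  rcases cov_two H hzf hzs hne f2 with rfl | rfl
  · rw [hbs _ hf] at f3
    omega
  · have f4 := W.near hz hlz hzf hzs hne
    have f5 := (H.covBy_iff.mp hzs).2
    have hx0 : x0 ∉ unnat N := W.low (by omega)
    rw [hbs _ hx0] at f3
    have f6 := W.single_th hx0 (by omega) f4.2 (by
      rw [← htt]
      intro hE
      obtain ⟨k1, k2, k3, k4, -⟩ := hE.spec (W.natSys.mem_iff.mpr ⟨hf, rfl⟩) C.lev.ge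
      omega)
    omega

lemma NoCC.not_celE (h : NoCC P j) (W : We r j w K N b θ) (hw2 : 2 ≤ w) {z : P} :
    ¬ CEl j w N θ z := by
  rintro ⟨h1, h2, f, s, h3, h4, h5, h6, h7⟩
  obtain ⟨Nc, co, C⟩ := W.fold_cell hw2 h1 h2 h3 h4 h5 h7 (W.not_E6 h1 h2 h3 h4 h5 h6)
  refine h z f s h2 ⟨C.lev, C.ev, fun k hk => ?_⟩ h3 h4 h5.symm (W.near h1 h2 h3 h4 h5).2 h6
  have := C.nab hk
  omega

end Pool.Agent.GaussPoset.Sm

end

/-! From `Pool.Agent.W_448jx_h67.WeG` -/

section

/-!
The windows `2`, `3` at `j = 10` with the component of the end `(5, 25, 0)`: the far window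
theorem with the larger labels (MP_448cb3_co, HJoin10)
-/

namespace Pool.Agent.GaussPoset.Sm

set_option linter.unusedSectionVars false

open Polynomial Finset

universe u

variable {P : Type u} [Fintype P] [PartialOrder P] [DecidableEq P] {r j w K : ℕ}
  {N : Tops P → Finset P} {b : Tops P → ℕ} {θ : Tops P → P → ℕ}

/-- the part of the element below both ends of a stair -/
theorem We.bigC (W : We r j w K N b θ) (h10 : j = 10) (hw2 : 2 ≤ w) {n0 : ℕ} {g : P → ℕ}
    {x z : P} (hz : z ∈ unnat N \ twA N) (hzx : z ⋖ x) (hzC : CEl j w N θ z)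
    (hlt : hA N θ z ≤ g z) (hgz : g z < lev z - w)
    (hCc : n0 ≤ cst w (fun _ => lev z - w) z) (h3' : w = 3 → n0 ≤ 71 ∧
      82 ≤ cst w (fun _ => lev z - w) z) {m : ℕ}
    (hm : m + ∑ x ∈ unnat N \ twA N, g x ≤ n0) :
    (1 + X : ℤ[X]) ^ (b (topOf x)) ∣
      ZB (P := {y : P // y ∉ unnat N \ twA N ∧ topOf y = topOf x}) w ∅ 0
        (fun y => by classical exact ((unnat N \ twA N).filter (fun z => z ⋖ (y : P))).sup g) m := by
  classical
  have H := W.gt.H
  have HN := W.natSys
  have hj := W.hj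
  have hw := W.hw
  have hz' := hzC
  obtain ⟨h1, h2, f, s, h3, h4, h5, h6, h7⟩ := hz'
  obtain ⟨Nc, co, C⟩ := W.fold_cell hw2 h1 h2 h3 h4 h5 h7 (W.not_E6 h1 h2 h3 h4 h5 h6)
  have e1 := W.hA_fold C h1 h2 h3 h4 h5 h6
  obtain ⟨s1, s2, s3⟩ := W.fold_end C h1 h2 h3 h4 h5 h6
  have hlf := C.lev
  have hls : lev s = j := by
    have := C.nat.chart.lev s s1
    omega
  have htx : topOf x = topOf f := by
    rcases cov_two H h3 h4 h5 hzx with rfl | rfl
    · rfl
    · exact h6.symm
  have hbt : b (topOf x) = 2 := by rw [htx, C.hb]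
  rw [hbt]
  set k := g z with hk
  have hk1 : j - w - 1 ≤ k := by omega
  have hk2 : k ≤ j - w := by omega
  have hfull := cst_full_le H h3 h4 h5 (w := w) (k := k) (by omega)
  have hn0 : n0 ≤ F4.Efs w k f s + k + 4 := hCc.trans hfull
  have hsz : k ≤ ∑ x ∈ unnat N \ twA N, g x :=
    Finset.single_le_sum (f := g) (fun _ _ => Nat.zero_le _) hz
  have hp : ∀ x' y : P, x' ≤ y → (x' ∉ unnat N \ twA N ∧ topOf x' = topOf x) →
      (y ∉ unnat N \ twA N ∧ topOf y = topOf x) :=
    pg_part_up (W.twSys.lower HN.lower) (W.twSys.cp' HN.cp)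
  have hfR : f ∉ unnat N \ twA N := not_mem_rA.mpr (Or.inl (W.low (by omega)))
  have hsR : s ∉ unnat N \ twA N := not_mem_rA.mpr (Or.inl (W.low (by omega)))
  have hBf : k ≤ ((unnat N \ twA N).filter (fun z => z ⋖ f)).sup g :=
    Finset.le_sup (f := g) (mem_filter.mpr ⟨hz, h3⟩)
  have hBs : k ≤ ((unnat N \ twA N).filter (fun z => z ⋖ s)).sup g :=
    Finset.le_sup (f := g) (mem_filter.mpr ⟨hz, h4⟩)
  by_cases hw3 : w = 3
  · have h3'' := h3' hw3
    rw [F4.part_zero hp (i := w) (k := k) (f := f) (s := s) ⟨hfR, htx.symm⟩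
      ⟨hsR, h6.symm.trans htx.symm⟩ hBf hBs (by omega)]
    exact dvd_zero _
  by_cases hbigz : ∃ z' ∈ unnat N \ twA N, k < g z'
  · obtain ⟨z', hz', hk'⟩ := hbigz
    have hne' : z' ≠ z := by
      rintro rfl
      omega
    have h8 : g z + g z' ≤ ∑ x ∈ unnat N \ twA N, g x := by
      rw [← Finset.sum_pair (f := g) hne'.symm]
      refine Finset.sum_le_sum_of_subset ?_
      intro y hy
      rw [mem_insert, mem_singleton] at hy
      rcases hy with rfl | rfl
      · exact hz
      · exact hz'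
    rw [F4.part_zero hp (i := w) (k := k) (f := f) (s := s) ⟨hfR, htx.symm⟩
      ⟨hsR, h6.symm.trans htx.symm⟩ hBf hBs (by omega)]
    exact dvd_zero _
  · push Not at hbigz
    have hBle : ∀ y : P, ((unnat N \ twA N).filter (fun z => z ⋖ y)).sup g ≤ k := by
      intro y
      refine Finset.sup_le fun z' hz' => ?_
      exact hbigz z' (mem_filter.mp hz').1
    refine F4.part_two' H.gradedBelow hp (i := w) (k := k) (M := j / 2 + 1) (c0 := 4) (f := f) (s := s)
      ⟨hfR, htx.symm⟩ ⟨hsR, h6.symm.trans htx.symm⟩ (by omega) (by omega) ?_ (by omega)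
      (by omega) ?_ (fun y => hBle y) (le_antisymm (hBle f) hBf) (le_antisymm (hBle s) hBs)
      (by omega)
    · rintro y ⟨-, hy2⟩ hy3
      have hyN : y ∈ Nc := by
        refine C.nat.strip (mem_lowPart.mpr ⟨?_, by omega⟩)
        rw [← htx, ← hy2]
        exact le_topOf y
      have hly := C.nat.chart.lev y hyN
      have hmy : (co y).1 ≤ (co y).2 := C.nat.chart.mem y hyN
      rcases Nat.lt_or_ge (j / 2) (co y).2 with h9 | h9
      · right
        rw [C.nat.chart.le_iff s s1 y hyN, Prod.le_def, s2, s3]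
        constructor
        · omega
        · omega
      · left
        rw [C.nat.chart.le_iff f C.mem y hyN, Prod.le_def, C.co1, C.co2]
        constructor
        · omega
        · exact h9
    · intro y hy1 hy2
      have hyN := C.nat.chart.up f C.mem y hy1
      have a1 := (C.nat.chart.le_iff f C.mem y hyN).mp hy1
      have a2 := (C.nat.chart.le_iff s s1 y hyN).mp hy2
      rw [Prod.le_def, C.co1, C.co2] at a1
      rw [Prod.le_def, s2, s3] at a2
      have hly := C.nat.chart.lev y hyN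
      have := C.ev
      omega

/-- data of a pendant below a special cell -/
theorem We.penS (W : We r j w K N b θ) {z : P} (hz : PenS j w N b θ z) :
    hA N θ z = j - w ∧ lev z = j + 2 ∧ z ∈ bdR (rA N) := by
  obtain ⟨h1, x, h2, h3, h4, Nc, co, C⟩ := hz
  have H := W.gt.H
  have hj := W.hj
  have g6 := W.bs h2
  have e1 := (H.covBy_iff.mp h3).2
  have e2 := g6.lev
  have e3 := C.lev (by omega)
  have hbd : z ∈ bdR (rA N) := mem_bdR.mpr ⟨h1, x, h2, h3⟩
  obtain ⟨x0, f1, f2, f3⟩ := W.hA_spec hbd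
  have e4 := h4 x0 f2
  subst e4
  have := C.th
  exact ⟨by omega, by omega, hbd⟩

/-- the special cell of a pendant -/
theorem We.penS_cone (W : We r j w K N b θ) {x : P}
    (hs : Spc j w N b θ (GaussPoset.bs N x)) :
    b (topOf x) = 2 ∧ lev x = j + 1 ∧ (∃ co, F4.ConeAt x co (j - 1)) ∧
      ∀ y : P, topOf y = topOf x → lev y ≤ w + 2 → x ≤ y := by
  classical
  obtain ⟨Nc, co, C⟩ := hs
  have hj := W.hj
  have hw := W.hw
  have hw1 := W.hw1
  have hl := C.lev (by omega)
  by_cases ht : x ∈ twA N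
  · have hbs : GaussPoset.bs N x = twT N x := by
      unfold GaussPoset.bs
      rw [if_pos ht]
    rw [hbs] at C hl
    have h1 := W.twSys.cp x ht
    have hup := W.twSys.up x ht
    have T := W.twn ht
    have hne : twT N x ≠ x := T.ne
    have hll : lev (twT N x) = lev x := lev_eq_of_up hup
    refine ⟨by rw [← h1]; exact C.hb, by omega, ⟨_, C.cone.twin hne hup⟩, fun y hy hly => ?_⟩
    exact ((hup y).mp (C.above hw (by omega) (hy.trans h1.symm) hly)).le
  · have hbs : GaussPoset.bs N x = x := by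
      unfold GaussPoset.bs
      rw [if_neg ht]
    rw [hbs] at C hl
    exact ⟨C.hb, hl, ⟨co, C.cone⟩, fun y hy hly => (C.above hw (by omega) hy hly).le⟩

/-- the part of a pendant below a special cell -/
theorem We.bigS (W : We r j w K N b θ) (h7 : 7 ≤ j) {n0 : ℕ} {g : P → ℕ}
    {x z : P} (hz : z ∈ unnat N \ twA N) (hzx : z ⋖ x) (hzS : PenS j w N b θ z)
    (hgz : g z = j - w)
    (hCc : n0 ≤ cst w (fun _ => j - w + 1) z) {m : ℕ}
    (hm : m + ∑ x ∈ unnat N \ twA N, g x ≤ n0) :
    (1 + X : ℤ[X]) ^ (b (topOf x)) ∣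
      ZB (P := {y : P // y ∉ unnat N \ twA N ∧ topOf y = topOf x}) w ∅ 0
        (fun y => by classical exact ((unnat N \ twA N).filter (fun z => z ⋖ (y : P))).sup g) m := by
  classical
  have H := W.gt.H
  have HN := W.natSys
  have hj := W.hj
  have hw := W.hw
  obtain ⟨-, x1, h1, h2, h4, hs⟩ := hzS
  have hxx := h4 x hzx
  subst hxx
  obtain ⟨q1, q2, ⟨co, q3⟩, q4⟩ := W.penS_cone hs
  have e1 := (H.covBy_iff.mp hzx).2
  rw [q1]
  set k := j - w with hk
  have hn0 : n0 ≤ F4.Efs w k x x + k + 2 := by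
    rw [← cst_pen hzx h4 (by omega) (by omega)]
    exact hCc
  have hsz : k ≤ ∑ x ∈ unnat N \ twA N, g x := by
    rw [← hgz]
    exact Finset.single_le_sum (f := g) (fun _ _ => Nat.zero_le _) hz
  have hp : ∀ x' y : P, x' ≤ y → (x' ∉ unnat N \ twA N ∧ topOf x' = topOf x) →
      (y ∉ unnat N \ twA N ∧ topOf y = topOf x) :=
    pg_part_up (W.twSys.lower HN.lower) (W.twSys.cp' HN.cp)
  have hBx : k ≤ ((unnat N \ twA N).filter (fun z => z ⋖ x)).sup g := by
    rw [← hgz]
    exact Finset.le_sup (f := g) (mem_filter.mpr ⟨hz, hzx⟩)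
  by_cases hbigz : ∃ z' ∈ unnat N \ twA N, k < g z'
  · obtain ⟨z', hz', hk'⟩ := hbigz
    have hne' : z' ≠ z := by
      rintro rfl
      omega
    have h8 : g z + g z' ≤ ∑ x ∈ unnat N \ twA N, g x := by
      rw [← Finset.sum_pair (f := g) hne'.symm]
      refine Finset.sum_le_sum_of_subset ?_
      intro y hy
      rw [mem_insert, mem_singleton] at hy
      rcases hy with rfl | rfl
      · exact hz
      · exact hz'
    rw [F4.part_zero hp (i := w) (k := k) (f := x) (s := x) ⟨h1, rfl⟩ ⟨h1, rfl⟩ hBx hBx (by omega)]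
    exact dvd_zero _
  · push Not at hbigz
    have hBle : ∀ y : P, ((unnat N \ twA N).filter (fun z => z ⋖ y)).sup g ≤ k := by
      intro y
      refine Finset.sup_le fun z' hz' => ?_
      exact hbigz z' (mem_filter.mp hz').1
    exact F4.part_cone hp (i := w) (h := k) (x := x) ⟨h1, rfl⟩ q3 (by omega) (by omega) (by omega)
      (fun y hy hly => q4 y hy.2 hly) (fun y => hBle y) (le_antisymm (hBle x) hBx) (by omega)

/-- **The far window theorem with the larger labels.** -/
theorem We.farS (W : We r j w K N b θ) (h7 : 7 ≤ j) (h10 : j = 10) (hw2 : 2 ≤ w) (n0 : ℕ)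
    (h3' : ∀ z, CEl j w N θ z → w = 3 → n0 ≤ 71 ∧ 82 ≤ cst w (fun _ => lev z - w) z)
    (hcost : ∀ x ∈ twA N, n0 ≤ tcS j w N b θ x)
    (hbd : ∀ z ∈ bdR (rA N), n0 ≤ cst w (hS j w N b θ) z) :
    FarV P w (rA N) (lv P w).card (hS j w N b θ)
      (∑ x ∈ (twA N).filter (fun x => tcS j w N b θ x = n0), TmS j w N b θ x) n0 := by
  classical
  have H := W.gt.H
  have HN := W.natSys
  have hj := W.hj
  have hw := W.hw
  have F := W.farS0 h7 n0 hcost
  choose B hB using W.nt
  have hCl : ∀ z, CEl j w N θ z → hA N θ z = j - w - 1 ∧ lev z = j + 1 ∧ j % 2 = 0 := by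
    intro z hz
    obtain ⟨h1, h2, f, s, h3, h4, h5, h6, h7⟩ := hz
    obtain ⟨Nc, co, C⟩ := W.fold_cell hw2 h1 h2 h3 h4 h5 h7 (W.not_E6 h1 h2 h3 h4 h5 h6)
    exact ⟨W.hA_fold C h1 h2 h3 h4 h5 h6, h2, C.ev⟩
  have hspec : ∀ z, (PenS j w N b θ z ∧ hA N θ z = j - w ∧ lev z = j + 2 ∧
      hS j w N b θ z = j - w + 1) ∨
      (¬ PenS j w N b θ z ∧ (CEl j w N θ z ∧ j % 2 = 0) ∧ hA N θ z = j - w - 1 ∧
        lev z = j + 1 ∧ hS j w N b θ z = lev z - w) ∨ hS j w N b θ z = hA N θ z := by
    intro z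
    by_cases h1 : PenS j w N b θ z
    · obtain ⟨a1, a2, a3⟩ := W.penS h1
      exact Or.inl ⟨h1, a1, a2, by rw [hS_of h1, a1]⟩
    · right
      by_cases h2 : CEl j w N θ z
      · obtain ⟨a1, a2, a3⟩ := hCl z h2
        exact Or.inl ⟨h1, ⟨h2, a3⟩, a1, a2, by rw [hS_not h1, hC_of h2]⟩
      · exact Or.inr (by rw [hS_not h1, hC_not h2])
  have F' : FarV P w (unnat N \ twA N) (∑ t, b t)
      (hcan (unnat N \ twA N) (thX (twA N) (twT N) (fun x => θ (topOf x) x)))
      (∑ x ∈ (twA N).filter (fun x => tcS j w N b θ x = n0), TmS j w N b θ x) n0 := by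
    rw [W.sum_b]
    exact F
  have key := farV_big (B := B) hB W.twSys n0 (j - w - 1) F' (fun x hx => W.twn hx) ?_
    (hS j w N b θ) ?_ ?_ ?_ ?_
  · rw [W.sum_b] at key
    exact key
  · intro x hx
    have h1 := hcost x hx
    show n0 < tcst w (thA N θ) (twT N x, x) + (j - w - 1)
    by_cases hs : Spc j w N b θ (twT N x)
    · rw [W.tcS_spc hx hs] at h1
      omega
    · unfold tcS at h1
      rw [if_neg hs] at h1
      omega
  · intro z _
    show hA N θ z ≤ hS j w N b θ z
    rcases hspec z with ⟨-, h1, -, h2⟩ | ⟨-, -, h1, h3, h2⟩ | h1 <;> omega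
  · intro z _ hlt
    have hlt' : hA N θ z < hS j w N b θ z := hlt
    show j - w - 1 ≤ hA N θ z
    rcases hspec z with ⟨-, h1, -, h2⟩ | ⟨-, -, h1, h3, h2⟩ | h1 <;> omega
  · intro z hz
    have h0 : hA N θ z ≤ lev z - w := F.le_lev z hz
    rcases hspec z with ⟨-, h1, h3, h2⟩ | ⟨-, -, h1, h3, h2⟩ | h1 <;> omega
  · intro g g0 hg x z hx hz hzx hlt m hm
    have hzb : z ∈ bdR (unnat N \ twA N) := mem_bdR.mpr ⟨hz, x, hx, hzx⟩
    have hlt' : thA N θ x < g z := hlt
    have hle : hA N θ z ≤ thA N θ x + 1 := hcan_le hx hzx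
    have hgz := hg z hzb
    have hcz := hbd z hzb
    rw [cst_const w (hS j w N b θ) z] at hcz
    rcases hspec z with ⟨h0, h1, h3, h2⟩ | ⟨-, h0, h1, h3, h2⟩ | h1
    · rw [h2] at hcz hgz
      exact W.bigS (by omega) hz hzx h0 (by omega) hcz hm
    · rw [h2] at hcz hgz
      exact W.bigC h10 hw2 hz hzx h0.1 (by omega) hgz hcz (h3' z h0.1) hm
    · omega

end Pool.Agent.GaussPoset.Sm

end

/-! From `Pool.Agent.W_448jx_h67.WeH` -/

section

/-!
The windows `2`, `3` at `j = 10` with the component of the end `(5, 25, 0)`: outcomes of the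
cheapest class, with a set of pendants and twins which are natural (MP_448cb3_co, HJoin10)
-/

namespace Pool.Agent.GaussPoset.Sm

set_option linter.unusedSectionVars false

open Polynomial Finset

universe u

variable {P : Type u} [Fintype P] [PartialOrder P] [DecidableEq P] {r j w K0 K : ℕ}
  {N : Tops P → Finset P} {b : Tops P → ℕ} {θ : Tops P → P → ℕ} {XE XO : ℕ → Prop}

/-- the cheapest class without the set `Zf` and the twins `FT` -/
structure MnF (w : ℕ) (N : Tops P → Finset P) (Zf : Finset P) (FT : P → Prop) (hF tc : P → ℕ)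
    (v : ℕ) : Prop where
  bd : ∀ z ∈ bdR (rA N \ Zf), v ≤ cst w hF z
  tw : ∀ x ∈ twA N, ¬ FT x → v ≤ tc x

open Classical in
/-- a set `Zf` of pendants below the twins `FT` which are treated as natural -/
structure FS (P : Type u) [Fintype P] [PartialOrder P] [DecidableEq P] (j w K : ℕ)
    (N : Tops P → Finset P) (b : Tops P → ℕ) (θ : Tops P → P → ℕ) (Zf : Finset P)
    (FT : P → Prop) (hF : P → ℕ) : Prop where
  sub : Zf ⊆ rA N
  up : ∀ z ∈ Zf, ∃ x ∈ twA N, FT x ∧ z ⋖ x ∧ ∀ y, z ⋖ y → y = x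
  ft : ∀ x ∈ twA N, FT x → ¬ Row1 j w N θ (twT N x)
  eq : ∀ z ∈ bdR (rA N), z ∉ Zf → (∀ y ∈ Zf, ¬ z ⋖ y) → hF z = hS j w N b θ z
  pos : ∀ z ∈ bdR (rA N \ Zf), 1 ≤ hF z
  big : ∀ z ∈ bdR (rA N \ Zf), (∃ y ∈ Zf, z ⋖ y) → K < cst w hF z
  far : ∀ v, MnF w N Zf FT hF (tcS j w N b θ) v → v ≤ K →
    FarV P w (rA N \ Zf) (lv P w).card hF
      (∑ x ∈ (twA N).filter (fun x => ¬ FT x ∧ tcS j w N b θ x = v), TmS j w N b θ x) v

/-- the remaining inputs at window `w`, larger labels -/
structure LkF (P : Type u) [Fintype P] [PartialOrder P] [DecidableEq P] (j w K0 K : ℕ)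
    (N : Tops P → Finset P) (b : Tops P → ℕ) (θ : Tops P → P → ℕ) (XE XO : ℕ → Prop)
    (Zf : Finset P) (FT : P → Prop) : Prop where
  hK : 2 * K < 3 * (j + 1 - w) ^ 2 + 3 * (j + 1 - w)
  unq : Unq P w b
  nsk : ∀ z x x' : P, Cg z x x' → j + 1 ≤ lev z → nab w x = 1 → ¬ Sok j x → K < ful w z
  dj : ∀ (v : ℕ) (z x : P), z ∈ bdR (rA N) → cst w (hS j w N b θ) z = v →
    lev z = j + 1 → z ⋖ x → Dk j w K0 N θ x → OutK j w K XE XO (hS j w N b θ) z v
  dp : ∀ (v : ℕ) (z x : P), z ∈ bdR (rA N) → z ∉ Zf → (∀ y ∈ Zf, ¬ z ⋖ y) →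
    cst w (hS j w N b θ) z = v →
    x ∉ rA N → z ⋖ x → j + 1 ≤ lev x → Dk j w K0 N θ (GaussPoset.bs N x) →
    ¬ Row1 j w N θ (GaussPoset.bs N x) → OutK j w K XE XO (hS j w N b θ) z v
  dt : ∀ x ∈ twA N, ¬ FT x → Dk j w K0 N θ (twT N x) → ¬ Row1 j w N θ (twT N x) →
    OutT j w K XE XO N b θ x

/-- special cells are deep -/
lemma We.spc_deep (W : We r j w K0 N b θ) {x : P} (hx : x ∉ unnat N) (hs : Spc j w N b θ x) :
    Dk j w K0 N θ x := by
  obtain ⟨Nc, co, C⟩ := hs
  have hj := W.hj
  have hl := C.lev (by omega)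
  have hth := C.th
  rcases W.cases hx (by omega) with h | h | h
  · have := h.th
    omega
  · have := h.th
    omega
  · exact h

/-- the labels are the canonical ones without deep covers -/
lemma We.hS_eq (W : We r j w K0 N b θ) (hw2 : 2 ≤ w) {z : P}
    (hnd : ∀ x, x ∉ rA N → z ⋖ x → Dk j w K0 N θ (GaussPoset.bs N x) →
      Row1 j w N θ (GaussPoset.bs N x)) :
    hS j w N b θ z = hA N θ z := by
  have hp : ¬ PenS j w N b θ z := by
    rintro ⟨-, x, h1, h2, -, h4⟩
    have h5 := (hnd x h1 h2 (W.spc_deep (W.bs h1).nat h4)).th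
    obtain ⟨Nc, co, C⟩ := h4
    have hj := W.hj
    have := C.th
    have := C.lev (by omega)
    omega
  rw [hS_not hp]
  refine hC_not ?_
  rintro ⟨h1, h2, f, s, h3, h4, h5, h6, h7⟩
  have e1 := (W.gt.H.covBy_iff.mp h3).2
  have hj := W.hj
  have hf : f ∉ unnat N := W.low (by omega)
  have hbs : GaussPoset.bs N f = f := by
    unfold GaussPoset.bs
    rw [if_neg (W.not_tw hf)]
  obtain ⟨Nc, co, C⟩ := W.fold_cell hw2 h1 h2 h3 h4 h5 h7 (W.not_E6 h1 h2 h3 h4 h5 h6)
  have hth := C.th
  suffices h : Dk j w K0 N θ f by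
    have h8 := (hbs ▸ hnd f (not_mem_rA.mpr (Or.inl hf)) h3 (hbs.symm ▸ h)).th
    omega
  rcases W.cases hf (by omega) with h | h | h
  · have := h.th
    omega
  · have := h.th
    omega
  · exact h

/-- the labels are positive -/
lemma hS_posE (W : We r j w K0 N b θ) {z : P} (hz : z ∈ bdR (rA N)) : 1 ≤ hS j w N b θ z := by
  obtain ⟨x0, g1, g2, g3⟩ := W.hA_spec hz
  by_cases hp : PenS j w N b θ z
  · rw [hS_of hp]; omega
  · rw [hS_not hp]
    by_cases hc : CEl j w N θ z
    · rw [hC_of hc]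
      have h1 := W.bd_lev hz
      have := W.hj
      omega
    · rw [hC_not hc]; omega

/-- a cheapest boundary element without deep covers is flat -/
theorem We.flatS (W : We r j w K0 N b θ) (hw2 : 2 ≤ w) {Zf : Finset P} {FT : P → Prop}
    {hF : P → ℕ} (F : FS P j w K N b θ Zf FT hF) {v : ℕ}
    (M : MnF w N Zf FT hF (tcS j w N b θ) v) {z : P}
    (hz : z ∈ bdR (rA N)) (hzf : z ∉ Zf) (hzn : ∀ y ∈ Zf, ¬ z ⋖ y)
    (hc : cst w (hS j w N b θ) z = v)
    (hnd : ∀ x, x ∉ rA N → z ⋖ x → Dk j w K0 N θ (GaussPoset.bs N x) →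
      Row1 j w N θ (GaussPoset.bs N x)) :
    Flat j w N θ z ∧ lev z ≤ hA N θ z + 1 + w := by
  have H := W.gt.H.gradedBelow
  have hj := W.hj
  have hw := W.hw
  have hlz := W.bd_lev hz
  have hSA := W.hS_eq hw2 hnd
  have hc' : cst w (hA N θ) z = v := by
    rw [← hc, cst_const w (hA N θ) z, cst_const w (hS j w N b θ) z, hSA]
  have hkd : ∀ x, x ∉ rA N → z ⋖ x → Str w N θ (GaussPoset.bs N x) ∨
      Row1 j w N θ (GaussPoset.bs N x) := by
    intro x hx hzx
    have g6 := W.bs hx
    have e1 := H.lev_covBy hzx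
    have e3 := g6.lev
    rcases W.cases g6.nat (by omega) with h | h | h
    · exact Or.inl h
    · exact Or.inr h
    · exact Or.inr (hnd x hx hzx h)
  have hge : lev z ≤ hA N θ z + 1 + w := by
    obtain ⟨x0, g1, g2, g3⟩ := W.hA_spec hz
    have g7 := W.bs g1
    have e2 := H.lev_covBy g2
    have e4 := g7.lev
    rcases hkd x0 g1 g2 with h | h
    · have := h.th
      omega
    · have := h.th
      omega
  refine ⟨?_, hge⟩
  intro x hzx
  have hxR : x ∉ rA N := by
    obtain ⟨u, hu1, hu2⟩ := (mem_bdR.mp hz).2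
    have hz' : z ∈ bdR (rA N \ Zf) := mem_bdR.mpr ⟨mem_sdiff.mpr ⟨(mem_bdR.mp hz).1, hzf⟩, u,
      fun h => hu1 (mem_sdiff.mp h).1, hu2⟩
    have hFz := F.eq z hz hzf hzn
    intro hx
    refine no_cover_of_min (h := hF) H (fun x hx => ?_) M.bd F.pos hz' ?_
      (by omega) hzx (mem_sdiff.mpr ⟨hx, fun h => hzn x h hzx⟩)
    · have := W.lt_lev (mem_rA.mp (mem_sdiff.mp hx).1).1
      omega
    · rw [← hc, cst_const w hF z, cst_const w (hS j w N b θ) z, hFz]
  have hxt : x ∉ twA N := by
    intro hxt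
    have e1 := H.lev_covBy hzx
    obtain ⟨g1, g2⟩ := W.tw_cases hxt
    have hbs : GaussPoset.bs N x = twT N x := by
      unfold GaussPoset.bs
      rw [if_pos hxt]
    have g6 := W.bs hxR
    rw [hbs] at g6
    have hR : Row1 j w N θ (twT N x) := by
      rcases g2 with h | h
      · exact h
      · exact hbs ▸ hnd x hxR hzx (hbs.symm ▸ h)
    have hns : ¬ Spc j w N b θ (twT N x) := by
      rintro ⟨Nc, co, C⟩
      have := C.th
      have := C.lev (by omega)
      have := hR.th
      omega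
    obtain ⟨a, ha⟩ : ∃ a, lev x = w + a := ⟨lev x - w, by have := g6.lev; omega⟩
    have g7 := W.tcst_row1 hxt hR ha
    have g8 := M.tw x hxt (fun h => F.ft x hxt h hR)
    unfold tcS at g8
    rw [if_neg hns] at g8
    have g9 := cst_step (i := w) (h := hA N θ) H hzx (by omega)
    have g10 : ful w x = a ^ 2 := ful_two ha (fun k hk1 hk2 => by
      have := hR.nab k hk1.le (by rw [g6.lev]; exact hk2)
      rcases g6.nab k with h | h
      · rw [← h]; exact this
      · omega)
    rw [g10, hc'] at g9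
    have : a ≤ min (hA N θ z) (lev z - w) := by
      rw [Nat.le_min]
      omega
    omega
  rcases not_mem_rA.mp hxR with h | h
  · have hbs : GaussPoset.bs N x = x := by
      unfold GaussPoset.bs
      rw [if_neg hxt]
    have := hkd x hxR hzx
    rw [hbs] at this
    exact ⟨h, this⟩
  · exact absurd h hxt

/-- the outcomes for a cheapest boundary element -/
theorem We.outS (W : We r j w K0 N b θ) (hw2 : 2 ≤ w) {Zf : Finset P} {FT : P → Prop}
    {hF : P → ℕ} (F : FS P j w K N b θ Zf FT hF)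
    (L : LkF P j w K0 K N b θ XE XO Zf FT) {v : ℕ}
    (hP : OnePen P j (fun t => 2 ≤ b t) ∨ v ≤ (j + 1 - w) ^ 2 + 5 * (j - w))
    (M : MnF w N Zf FT hF (tcS j w N b θ) v) {z : P} (hz : z ∈ bdR (rA N)) (hzf : z ∉ Zf)
    (hzn : ∀ y ∈ Zf, ¬ z ⋖ y) (hc : cst w (hS j w N b θ) z = v) :
    OutK j w K XE XO (hS j w N b θ) z v := by
  classical
  have H := W.gt.H
  have hj := W.hj
  have hw := W.hw
  have hlz := W.bd_lev hz
  by_cases hd : ∃ x, x ∉ rA N ∧ z ⋖ x ∧ Dk j w K0 N θ (GaussPoset.bs N x) ∧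
      ¬ Row1 j w N θ (GaussPoset.bs N x)
  · obtain ⟨x, hx, hzx, hD, hnR⟩ := hd
    have e1 := (H.covBy_iff.mp hzx).2
    by_cases hl : j + 1 ≤ lev x
    · exact L.dp v z x hz hzf hzn hc hx hzx hl hD hnR
    · have hxu : x ∉ unnat N := W.low (by omega)
      have hbs : GaussPoset.bs N x = x := by
        unfold GaussPoset.bs
        rw [if_neg (W.not_tw hxu)]
      rw [hbs] at hD
      exact L.dj v z x hz hc (by omega) hzx hD
  · push Not at hd
    have hSA := W.hS_eq hw2 hd
    obtain ⟨hF, hge⟩ := W.flatS hw2 F M hz hzf hzn hc hd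
    have hc' : cst w (hA N θ) z = v := by
      rw [← hc, cst_const w (hA N θ) z, cst_const w (hS j w N b θ) z, hSA]
    refine outK_congr hSA.symm ?_
    by_cases hR : ∃ x, z ⋖ x ∧ Row1 j w N θ x
    · obtain ⟨x, hzx, hR⟩ := hR
      exact W.row1_outS L.hK hz hc' hF hge hzx hR
    · push Not at hR
      have hStr : ∀ x, z ⋖ x → x ∉ unnat N ∧ Str w N θ x := fun x hx =>
        ⟨(hF x hx).1, (hF x hx).2.resolve_right (hR x hx)⟩
      have hh : hA N θ z = lev z - w := by
        obtain ⟨x0, f1, f2, f3⟩ := W.hA_spec hz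
        obtain ⟨g1, g2⟩ := hStr x0 f2
        have hbs : GaussPoset.bs N x0 = x0 := by
          unfold GaussPoset.bs
          rw [if_neg (W.not_tw g1)]
        rw [hbs, g2.th] at f3
        have := (H.covBy_iff.mp f2).2
        omega
      by_cases hT : ∃ x x', z ⋖ x ∧ z ⋖ x' ∧ topOf x ≠ topOf x'
      · obtain ⟨x, x', h1, h2, h3⟩ := hT
        exact W.cross_outS L.unq L.nsk hz hh hc' (hStr x h1).1 (hStr x' h2).1 (hStr x h1).2
          (hStr x' h2).2 h1 h2 h3
      · push Not at hT
        obtain ⟨x, hzx, -⟩ := Hul.exists_cov (w := z) (v := (topOf z : P))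
          (lt_of_le_of_ne (le_topOf z) (by
            intro h
            have := (topOf z).2
            rw [← h] at this
            omega))
        exact W.own_outS hP hz hh hc' hStr (t := topOf x) fun x' hx' => hT x' x hx' hzx

/-- the outcome for the twins -/
theorem We.out_twS (W : We r j w K0 N b θ) {Zf : Finset P} {FT : P → Prop}
    (L : LkF P j w K0 K N b θ XE XO Zf FT) {x : P}
    (hx : x ∈ twA N) (hxf : ¬ FT x) : OutT j w K XE XO N b θ x := by
  classical
  have hj := W.hj
  have hw := W.hw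
  obtain ⟨hl, hk⟩ := W.tw_cases hx
  have hl2 := W.twSys.lev hx
  have hup := W.twSys.up x hx
  by_cases hnR : Row1 j w N θ (twT N x)
  swap
  · exact L.dt x hx hxf (hk.resolve_left hnR) hnR
  · clear hk
    have hk := hnR
    right
    have hns : ¬ Spc j w N b θ (twT N x) := by
      rintro ⟨Nc, co, C⟩
      have := C.th
      have := C.lev (by omega)
      have := hk.th
      omega
    have e0 : tcS j w N b θ x = tcst w (thA N θ) (twT N x, x) := by
      unfold tcS; rw [if_neg hns]
    have e0' : TmS j w N b θ x = Tm w (thA N θ) (twT N x, x) := by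
      unfold TmS; rw [if_neg hns]
    obtain ⟨a, ha⟩ : ∃ a, lev x = w + a := ⟨lev x - w, by omega⟩
    have h1 := W.tcst_row1 hx hk ha
    have hn : ∀ k, w ≤ k → k < lev x → nab k x = 2 := fun k h1 h2 => by
      rw [← nab_congr_up hup h2]
      exact hk.nab k h1 (by omega)
    have e1 : thA N θ (twT N x) = θ (topOf (twT N x)) (twT N x) :=
      W.thA_nat (W.twSys.nat x hx)
    have hth := hk.th
    refine ⟨lev x - w, ?_, ?_, Or.inl ⟨?_, Or.inl ⟨hk.one_le, Or.inr (Or.inl
      ⟨a - (j + 1 - w), Or.inr ?_⟩)⟩⟩⟩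
    · rw [e0', Tm_eq W.gt.H.gradedBelow (W.twn hx) (by simp only; omega)]
    · rw [hn w le_rfl (by omega), show w + (lev x - w) = lev x by omega, nab_self]
    · rw [nst_eq, Finset.sum_congr rfl (g := fun _ => 2)]
      · rw [Finset.sum_const, card_range]
        exact ⟨lev x - w, by simp only [smul_eq_mul]; ring⟩
      · intro k hk'
        rw [mem_range] at hk'
        exact hn _ (by omega) (by omega)
    · rw [e0, h1, show j + 1 - w + (a - (j + 1 - w)) = a by omega]
      ring

end Pool.Agent.GaussPoset.Sm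

end

/-! From `Pool.Agent.W_448jx_h67.WeI` -/

section

/-!
The windows `2`, `3` at `j = 10` with the component of the end `(5, 25, 0)`: the cheapest class
has both signs, and the balance (MP_448cb3_co, HJoin10)
-/

namespace Pool.Agent.GaussPoset.Sm

set_option linter.unusedSectionVars false

open Polynomial Finset

universe u

variable {P : Type u} [Fintype P] [PartialOrder P] [DecidableEq P] {r j w K0 K : ℕ}
  {N : Tops P → Finset P} {b : Tops P → ℕ} {θ : Tops P → P → ℕ} {XE XO : ℕ → Prop}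

/-- existence of the minimal value -/
lemma exists_minF {Zf : Finset P} {FT : P → Prop} {hF tc : P → ℕ}
    (hne : (bdR (rA N \ Zf)).Nonempty) :
    ∃ v, MnF w N Zf FT hF tc v ∧ ((∃ z ∈ bdR (rA N \ Zf), cst w hF z = v) ∨
      ∃ x ∈ twA N, ¬ FT x ∧ tc x = v) := by
  classical
  let A : Finset ℕ := (bdR (rA N \ Zf)).image (cst w hF) ∪
    ((twA N).filter (fun x => ¬ FT x)).image tc
  have hA : A.Nonempty := by
    obtain ⟨z, hz⟩ := hne
    exact ⟨_, mem_union_left _ (mem_image_of_mem _ hz)⟩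
  refine ⟨A.min' hA, ⟨fun z hz => A.min'_le _ (mem_union_left _ (mem_image_of_mem _ hz)),
    fun x hx hf => A.min'_le _ (mem_union_right _
      (mem_image_of_mem tc (mem_filter.mpr ⟨hx, hf⟩)))⟩, ?_⟩
  have := A.min'_mem hA
  rcases mem_union.mp this with h | h
  · obtain ⟨z, hz, h⟩ := mem_image.mp h
    exact Or.inl ⟨z, hz, h⟩
  · obtain ⟨x, hx, h⟩ := mem_image.mp h
    rw [mem_filter] at hx
    exact Or.inr ⟨x, hx.1, hx.2, h⟩

/-- **The cheapest class at window `w` has both signs.** -/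
theorem We.bothS (W : We r j w K0 N b θ)
    (hw2 : 2 ≤ w) {Zf : Finset P} {FT : P → Prop}
    {hF : P → ℕ} (F : FS P j w K N b θ Zf FT hF)
    (L : LkF P j w K0 K N b θ XE XO Zf FT) {v : ℕ}
    (hP : OnePen P j (fun t => 2 ≤ b t) ∨ v ≤ (j + 1 - w) ^ 2 + 5 * (j - w))
    (M : MnF w N Zf FT hF (tcS j w N b θ) v)
    (hex : (∃ z ∈ bdR (rA N \ Zf), cst w hF z = v) ∨
      ∃ x ∈ twA N, ¬ FT x ∧ tcS j w N b θ x = v) (hcap : v ≤ K) :
    ((∃ z x x' : P, Cg z x x' ∧ Sok j x ∧ Sok j x' ∧ ful w z = v ∧ nab w z = 2 ∧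
      Odd (nst w (fun z => lev z - w) z)) ∨ OdN j w v ∨ XO v) ∧
    ((∃ z x x' : P, Cg z x x' ∧ Sok j x ∧ Sok j x' ∧ ful w z = v ∧ nab w z = 2 ∧
      Even (nst w (fun z => lev z - w) z)) ∨ EvN j w v ∨ XE v) := by
  classical
  have H := W.gt.H
  have hj := W.hj
  have hw := W.hw
  set T1 := (bdR (rA N \ Zf)).filter (fun z => cst w hF z = v) with hT1
  set T2 := (twA N).filter (fun x => ¬ FT x ∧ tcS j w N b θ x = v) with hT2
  have hout2' : ∀ x : P, ∃ l : ℕ, x ∈ T2 → TmS j w N b θ x = Lt w (fun _ => l) x ∧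
      nab w x = nab (w + l) x + 1 ∧
      ((Even (nst w (fun _ => l) x) ∧ (EvN j w v ∨ XE v)) ∨
      (Odd (nst w (fun _ => l) x) ∧ (OdN j w v ∨ XO v))) := by
    intro x
    by_cases hx : x ∈ T2
    · have hx' := hx
      rw [hT2, mem_filter] at hx'
      have h1 := (W.out_twS L hx'.1 hx'.2.1).resolve_left (by rw [hx'.2.2]; omega)
      rw [hx'.2.2] at h1
      obtain ⟨l, h2⟩ := h1
      exact ⟨l, fun _ => h2⟩
    · exact ⟨0, fun h => absurd h hx⟩
  choose lb hlb using hout2'
  -- labels on the whole class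
  let hh : P → ℕ := fun z => if z ∈ twA N then lb z else hF z
  have hh1 : ∀ z ∈ twA N, hh z = lb z := fun z hz => if_pos hz
  have hh2 : ∀ z, z ∉ twA N → hh z = hF z := fun z hz => if_neg hz
  have hn1 : ∀ z ∈ T1, z ∉ twA N := by
    intro z hz
    rw [hT1, mem_filter] at hz
    exact (mem_rA.mp (mem_sdiff.mp (mem_bdR.mp hz.1).1).1).2
  have hm2 : ∀ z ∈ T2, z ∈ twA N := fun z hz => by
    rw [hT2, mem_filter] at hz
    exact hz.1
  have hdisj : Disjoint T1 T2 := by
    rw [Finset.disjoint_left]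
    intro z hz hz'
    exact hn1 z hz (hm2 z hz')
  have hout1 : ∀ z ∈ T1, nab w z = nab (w + hh z) z + 1 ∧
      ((Even (nst w hh z) ∧ (EvN j w v ∨ XE v)) ∨ (Odd (nst w hh z) ∧ (OdN j w v ∨ XO v)) ∨
      (∃ x x', Cg z x x' ∧ Sok j x ∧ Sok j x') ∧ v = ful w z ∧ hh z = lev z - w) := by
    intro z hz
    have hzt := hn1 z hz
    rw [hT1, mem_filter] at hz
    obtain ⟨hzR, u, hu1, hu2⟩ := mem_bdR.mp hz.1
    rw [mem_sdiff] at hzR
    have hzn : ∀ y ∈ Zf, ¬ z ⋖ y := by
      intro y hy hzy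
      have := F.big z hz.1 ⟨y, hy, hzy⟩
      omega
    have hub : u ∉ rA N := fun h => hu1 (mem_sdiff.mpr ⟨h, fun h' => hzn u h' hu2⟩)
    have hzb : z ∈ bdR (rA N) := mem_bdR.mpr ⟨hzR.1, u, hub, hu2⟩
    have hFz := F.eq z hzb hzR.2 hzn
    have hcz : cst w (hS j w N b θ) z = v := by
      rw [← hz.2, cst_const w hF z, cst_const w (hS j w N b θ) z, hFz]
    have h1 := W.outS hw2 F L hP M hzb hzR.2 hzn hcz
    have h2 : nst w hh z = nst w (hS j w N b θ) z := by
      rw [nst_eq, nst_eq, hh2 z hzt, hFz]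
    rw [h2, hh2 z hzt, hFz]
    exact h1.resolve_left (by omega)
  have hnst2 : ∀ x ∈ T2, nst w hh x = nst w (fun _ => lb x) x := fun x hx => by
    rw [nst_eq, nst_eq, hh1 x (hm2 x hx)]
  have hout2 : ∀ x ∈ T2, nab w x = nab (w + hh x) x + 1 ∧
      ((Even (nst w hh x) ∧ (EvN j w v ∨ XE v)) ∨
      (Odd (nst w hh x) ∧ (OdN j w v ∨ XO v))) := by
    intro x hx
    have h1 := (hlb x hx).2
    rw [hnst2 x hx, hh1 x (hm2 x hx)]
    exact h1
  -- the exact far window theorem
  have hd := (F.far v M hcap).lead M.bd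
  have hZ := dvd_Z H.gauss w v
  have hsum2 : ∑ x ∈ (twA N).filter (fun x => ¬ FT x ∧ tcS j w N b θ x = v), TmS j w N b θ x =
      ∑ x ∈ T2, Lt w hh x := by
    refine Finset.sum_congr rfl fun x hx => ?_
    rw [(hlb x hx).1]
    unfold Lt
    rw [hnst2 x hx, hh1 x (hm2 x hx)]
  have hsum1 : ∑ z ∈ (bdR (rA N \ Zf)).filter (fun z => cst w hF z = v),
      Lt w hF z = ∑ z ∈ T1, Lt w hh z := by
    refine Finset.sum_congr rfl fun z hz => ?_
    unfold Lt
    rw [nst_eq, nst_eq, hh2 z (hn1 z hz)]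
  rw [hsum2, hsum1, ← Finset.sum_union hdisj] at hd
  have hdrop : ∀ z ∈ T1 ∪ T2, nab w z = nab (w + hh z) z + 1 := by
    intro z hz
    rcases mem_union.mp hz with h | h
    · exact (hout1 z h).1
    · exact (hout2 z h).1
  have hTne : (T1 ∪ T2).Nonempty := by
    rcases hex with ⟨z, hz, h⟩ | ⟨x, hx, h0, h⟩
    · exact ⟨z, mem_union_left _ (mem_filter.mpr ⟨hz, h⟩)⟩
    · exact ⟨x, mem_union_right _ (mem_filter.mpr ⟨hx, h0, h⟩)⟩
  have hcard : 1 ≤ (lv P w).card := by
    obtain ⟨z, hz⟩ := hTne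
    have h1 := hdrop z hz
    have h2 := nab_le z w
    omega
  have hs := sign_sum_of_dvd (T1 ∪ T2) hZ hd (c0 := (lv P w).card - 1) (by omega) (by
    intro z hz
    have := hdrop z hz
    omega)
  rw [Finset.filter_true_of_mem (fun z hz => by
    have := hdrop z hz
    omega)] at hs
  obtain ⟨⟨z1, hz1, he⟩, z2, hz2, ho⟩ := both_signs _ _ hs hTne
  have hcls : ∀ z ∈ T1 ∪ T2, (Even (nst w hh z) ∧ (EvN j w v ∨ XE v)) ∨
      (Odd (nst w hh z) ∧ (OdN j w v ∨ XO v)) ∨
      (∃ x x', Cg z x x' ∧ Sok j x ∧ Sok j x') ∧ v = ful w z ∧ nab w z = 2 ∧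
        nst w hh z = nst w (fun z => lev z - w) z := by
    intro z hz
    rcases mem_union.mp hz with h | h
    · rcases (hout1 z h).2 with h1 | h1 | h1
      · exact Or.inl h1
      · exact Or.inr (Or.inl h1)
      · refine Or.inr (Or.inr ⟨h1.1, h1.2.1, ?_, ?_⟩)
        · have h2 := (hout1 z h).1
          have h3 : j < lev z := by
            rw [hT1, mem_filter] at h
            exact W.lt_lev (mem_rA.mp (mem_sdiff.mp (mem_bdR.mp h.1).1).1).1
          rw [h1.2.2, show w + (lev z - w) = lev z by omega, nab_self] at h2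
          exact h2
        · rw [nst_eq, nst_eq, h1.2.2]
    · rcases (hout2 z h).2 with h1 | h1
      · exact Or.inl h1
      · exact Or.inr (Or.inl h1)
  constructor
  · rcases hcls z2 hz2 with h | h | ⟨⟨x, x', h, s1, s2⟩, h1, h0, h2⟩
    · exact absurd h.1 (Nat.not_even_iff_odd.mpr ho)
    · exact Or.inr h.2
    · rw [h2] at ho
      exact Or.inl ⟨z2, x, x', h, s1, s2, h1.symm, h0, ho⟩
  · rcases hcls z1 hz1 with h | h | ⟨⟨x, x', h, s1, s2⟩, h1, h0, h2⟩
    · exact Or.inr h.2
    · exact absurd h.1 (Nat.not_odd_iff_even.mpr he)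
    · rw [h2] at he
      exact Or.inl ⟨z1, x, x', h, s1, s2, h1.symm, h0, he⟩

/-- **The balance at window `w`.** -/
theorem We.winBS (W : We r j w K0 N b θ)
    (hw2 : 2 ≤ w) {LE LO : List ℤ} {Zf : Finset P} {FT : P → Prop}
    {hF : P → ℕ} (F : FS P j w K N b θ Zf FT hF)
    (L : LkF P j w K0 K N b θ (XL (j + 1 - w) LE) (XL (j + 1 - w) LO) Zf FT) (h16 : j ≤ 16) {cT lb : ℤ}
    (hK : (K : ℤ) = ((j + 1 - w : ℕ) : ℤ) ^ 2 + cT) (hT : cT < 7 * ((j + 1 - w : ℕ) : ℤ) + 10)
    (hl0 : lb ≤ 0) (hlE : ∀ x ∈ LE, lb ≤ x) (hlO : ∀ x ∈ LO, lb ≤ x)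
    (hlow : ∀ z x x' : P, Cg z x x' → Sok j x → Sok j x' → j + 1 ≤ lev z →
      nab w z = 2 → ∀ k, k < w → nab k z = 2)
    (hmnx : ∀ v, MnF w N Zf FT hF (tcS j w N b θ) v → ∀ z x x' : P, Cg z x x' → Sok j x →
      Sok j x' → j + 1 ≤ lev z → (∀ k, k < w → nab k z = 2) ∨
      (v : ℤ) - ((j + 1 - w : ℕ) : ℤ) ^ 2 ≤ kapZ j z * (j - w) + gZ j z)
    (hPen : OnePen P j (fun t => 2 ≤ b t) ∨ ∃ z : P, Hul.Jn z ∧
      ful w z ≤ (j + 1 - w) ^ 2 + 5 * (j - w))
    (hJ : ∃ z : P, Hul.Jn z) :
    ∃ v, MnF w N Zf FT hF (tcS j w N b θ) v ∧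
      WinB P j w cT (fun V => LO.elem V) (fun V => nz ((j + 1 - w : ℕ) : ℤ) V || LE.elem V)
      lb ((v : ℤ) - ((j + 1 - w : ℕ) : ℤ) ^ 2) := by
  classical
  have HN := W.natSys
  have hj := W.hj
  have hw := W.hw
  have H := W.gt.H
  -- joins are in the far set
  have hjoin : ∀ z : P, Hul.Jn z → z ∈ rA N := by
    rintro z ⟨t1, t2, h1, h2, hne, hz1, hz2⟩
    have key : ∀ y, y ∉ unnat N → (y ≤ t1 → y ≤ t2 → False) := by
      intro y hy g1 g2
      have h3 : y ∈ N (topOf y) := HN.mem_iff.mpr ⟨hy, rfl⟩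
      exact hne ((HN.top_eq h3 h1 g1).trans (HN.top_eq h3 h2 g2).symm)
    have hzu : z ∈ unnat N := by
      by_contra hcon
      exact key z hcon hz1 hz2
    refine mem_rA.mpr ⟨hzu, fun h => ?_⟩
    obtain ⟨-, y, hy, hup⟩ := mem_twA.mp h
    have hl := W.lt_lev hzu
    refine key y hy ((hup t1).mpr ?_).le ((hup t2).mpr ?_).le
    · exact lt_of_le_of_ne hz1 (by rintro rfl; omega)
    · exact lt_of_le_of_ne hz2 (by rintro rfl; omega)
  have hpos : ∀ x ∈ rA N \ Zf, 0 < lev x := fun x hx => by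
    have := W.lt_lev (mem_rA.mp (mem_sdiff.mp hx).1).1
    omega
  have hjz : ∀ z : P, Hul.Jn z → z ∈ rA N \ Zf := by
    intro z hz
    refine mem_sdiff.mpr ⟨hjoin z hz, fun hzf => ?_⟩
    obtain ⟨x, hx, -, hzx, honly⟩ := F.up z hzf
    have hJx : Hul.Jn x := by
      obtain ⟨t1, t2, h1, h2, hne, hz1, hz2⟩ := hz
      have hl := W.lt_lev (mem_rA.mp (hjoin z ⟨t1, t2, h1, h2, hne, hz1, hz2⟩)).1
      have key : ∀ t : P, lev t = 0 → z ≤ t → x ≤ t := by
        intro t ht hzt
        have hlt : z < t := lt_of_le_of_ne hzt (by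
          intro h
          rw [← h] at ht
          omega)
        obtain ⟨u, hu, hut⟩ := Hul.exists_cov hlt
        rw [← honly u hu]
        exact hut
      exact ⟨t1, t2, h1, h2, hne, key t1 h1 hz1, key t2 h2 hz2⟩
    exact (mem_rA.mp (hjoin x hJx)).2 hx
  have hbd : (bdR (rA N \ Zf)).Nonempty := by
    obtain ⟨z, hz⟩ := hJ
    obtain ⟨z', hz', -⟩ := exists_bd_above hpos (hjz z hz)
    exact ⟨z', hz'⟩
  obtain ⟨v, M, hex⟩ := exists_minF (w := w) (N := N) (Zf := Zf) (FT := FT) (hF := hF)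
    (tc := tcS j w N b θ) hbd
  have hmin : ∀ z, Hul.Jn z → v ≤ ful w z := fun z hz => min_le_ful hpos M.bd (hjz z hz)
  have hPen' : OnePen P j (fun t => 2 ≤ b t) ∨ v ≤ (j + 1 - w) ^ 2 + 5 * (j - w) := by
    rcases hPen with h | ⟨z, hz, h⟩
    · exact Or.inl h
    · exact Or.inr ((hmin z hz).trans h)
  have hlev : ∀ z x x' : P, Cg z x x' → j + 1 ≤ lev z := by
    intro z x x' h
    by_contra hcon
    exact W.gt.no_join z (by omega) h.jn
  have hyc : ((j + 1 - w : ℕ) : ℤ) = (j : ℤ) + 1 - w := by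
    rw [Nat.cast_sub (by omega)]
    push_cast
    ring
  have hline : ∀ z x x' : P, Cg z x x' → (∀ k, k < w → nab k z = 2) →
      (ful w z : ℤ) = ((j + 1 - w : ℕ) : ℤ) ^ 2 + (kapZ j z * ((j : ℤ) - w) + gZ j z) := by
    intro z x x' h h2
    have hl := hlev z x x' h
    rw [hyc]
    exact ful_line (by omega) (by omega) h2
  have hpar : ∀ {z x x' : P}, Cg z x x' → (∀ k, k < w → nab k z = 2) →
      anc z = 2 * w + nst w (fun z => lev z - w) z := by
    intro z x x' h h2
    have hl := hlev z x x' h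
    unfold anc
    obtain ⟨c, hc⟩ : ∃ c, lev z = w + c := ⟨lev z - w, by omega⟩
    rw [nst_eq, hc, Finset.sum_range_add, Nat.add_sub_cancel_left,
      Finset.sum_congr rfl (g := fun _ => 2) (fun k hk => h2 k (by
        rw [mem_range] at hk
        omega)), Finset.sum_const, card_range, smul_eq_mul, Nat.mul_comm]
  have hkp : ∀ {z : P}, (Odd (anc z) → Odd (kapZ j z)) ∧ (Even (anc z) → Even (kapZ j z)) :=
    kap_parity
  refine ⟨v, M, ?_⟩
  have hmn : ∀ z x x' : P, Cg z x x' → Sok j x → Sok j x' →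
      (v : ℤ) - ((j + 1 - w : ℕ) : ℤ) ^ 2 ≤ kapZ j z * (j - w) + gZ j z := by
    intro z x x' h hs hs'
    rcases hmnx v M z x x' h hs hs' (hlev z x x' h) with h2 | h2
    · have h1 : (v : ℤ) ≤ ful w z := by exact_mod_cast hmin z h.jn
      rw [hline z x x' h h2] at h1
      linarith
    · exact h2
  by_cases hcap : K < v
  · have hcap' : (K : ℤ) < v := by exact_mod_cast hcap
    exact ⟨fun h => by linarith, hmn, fun h => by linarith, fun h => by linarith⟩
  have hcv : (v : ℤ) ≤ ((j + 1 - w : ℕ) : ℤ) ^ 2 + cT := by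
    rw [← hK]
    exact_mod_cast not_lt.mp hcap
  obtain ⟨ho, he⟩ := W.bothS hw2 F L hPen' M hex (not_lt.mp hcap)
  have hsq : ∀ z x x' : P, Cg z x x' → ful w z = v → 0 ≤ (v : ℤ) - ((j + 1 - w : ℕ) : ℤ) ^ 2 := by
    intro z x x' h he
    have hl := hlev z x x' h
    obtain ⟨c, hc⟩ : ∃ c, lev z = w + c := ⟨lev z - w, by omega⟩
    have h4 := ful_ge (w := w) (z := z) (c := c) (fun _ => 0) hc
      (fun n hn1 hn2 => h.two_le H (k := w + n) (by omega))
    simp only [mul_zero, Finset.sum_const_zero, add_zero] at h4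
    have h5 : (j + 1 - w) ^ 2 ≤ c ^ 2 := Nat.pow_le_pow_left (by omega) 2
    have h6 : (j + 1 - w) ^ 2 ≤ v := by rw [← he]; exact h5.trans h4
    have h7 : (((j + 1 - w) ^ 2 : ℕ) : ℤ) ≤ v := by exact_mod_cast h6
    push_cast at h7
    linarith
  have hnzpos : ∀ {V : ℤ}, nz ((j + 1 - w : ℕ) : ℤ) V = true → 0 ≤ V := by
    intro V hV
    unfold nz at hV
    rw [List.any_eq_true] at hV
    obtain ⟨t, -, ht⟩ := hV
    rw [decide_eq_true_eq] at ht
    have h1 : (0 : ℤ) ≤ t := Int.natCast_nonneg t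
    have h2 : (1 : ℤ) ≤ ((j + 1 - w : ℕ) : ℤ) := by
      have : 1 ≤ j + 1 - w := by omega
      exact_mod_cast this
    rcases ht with ht | ht | ht <;> nlinarith
  refine ⟨fun _ => ?_, hmn, fun _ => ?_, fun _ => ?_⟩
  · rcases ho with ⟨z, x, x', h1, h2, h3, h4, h0, h5⟩ | h | h
    · exact hl0.trans (hsq z x x' h1 h4)
    · exact (od_false h (by omega) h16 hcv hT).elim
    · exact hlO _ h
  · rcases ho with ⟨z, x, x', h1, h2, h3, h4, h0, h5⟩ | h | h
    · left
      have h6 := hlow z x x' h1 h2 h3 (hlev z x x' h1) h0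
      refine ⟨z, x, x', h1, h2, h3, hkp.1 (by
        rw [hpar h1 h6]
        exact (even_two_mul w).add_odd h5), ?_⟩
      have := hline z x x' h1 h6
      rw [h4] at this
      linarith
    · exact (od_false h (by omega) h16 hcv hT).elim
    · right
      exact List.elem_iff.mpr h
  · rcases he with ⟨z, x, x', h1, h2, h3, h4, h0, h5⟩ | h | h
    · left
      have h6 := hlow z x x' h1 h2 h3 (hlev z x x' h1) h0
      refine ⟨z, x, x', h1, h2, h3, hkp.2 (by
        rw [hpar h1 h6]
        exact (even_two_mul w).add h5), ?_⟩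
      have := hline z x x' h1 h6
      rw [h4] at this
      linarith
    · right
      rw [Bool.or_eq_true]
      exact Or.inl (ev_nz h (by omega) hcv hT)
    · right
      rw [Bool.or_eq_true]
      exact Or.inr (List.elem_iff.mpr h)

end Pool.Agent.GaussPoset.Sm

end

/-! From `Pool.Agent.W_448jx_h67.WeL` -/

section

/-!
The windows `2`, `3` at `j = 10` with the component of the end `(5, 25, 0)`: cheap cells and the
fold cell (MP_448cb3_co, HJoin10)
-/

namespace Pool.Agent.GaussPoset.Sm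

set_option linter.unusedSectionVars false

open Polynomial Finset W4 Cp

universe u

variable {P : Type u} [Fintype P] [PartialOrder P] [DecidableEq P] {r j w K0 K : ℕ}
  {N : Tops P → Finset P} {b : Tops P → ℕ} {θ : Tops P → P → ℕ} {XE XO : ℕ → Prop}

/-- the fold cell: its twins are natural, and so are the pendants below them -/
structure FCel (w K : ℕ) (N : Tops P → Finset P) (θ : Tops P → P → ℕ) (Zf : Finset P)
    (FT : P → Prop) (x : P) : Prop where
  th : θ (topOf x) x + 1 < lev x - w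
  ft : ∀ x' ∈ twA N, twT N x' = x → FT x'
  nop : ∀ x1, x1 ∉ rA N → GaussPoset.bs N x1 = x → ∀ z ∈ bdR (rA N), z ∉ Zf → z ⋖ x1 →
    ∃ y, z ⋖ y ∧ y ≠ x1
  two : K < C1 w θ x + (θ (topOf x) x + 1)
  nsp : θ (topOf x) x + w + 2 = lev x

/-- the classification of the deep cells -/
def CellsF (P : Type u) [Fintype P] [PartialOrder P] [DecidableEq P] (j w K0 K : ℕ)
    (N : Tops P → Finset P) (b : Tops P → ℕ) (θ : Tops P → P → ℕ) (XE XO : ℕ → Prop)
    (Zf : Finset P) (FT : P → Prop) : Prop :=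
  ∀ x : P, x ∉ unnat N → j + 1 ≤ lev x → Dk j w K0 N θ x → ¬ Row1 j w N θ x →
    K + 1 < C1 w θ x ∨ CheapN w K XE XO θ x ∨ (Spc j w N b θ x ∧ SpOKN j w K XE XO θ x) ∨
      NPen w K N θ x ∨ (¬ Spc j w N b θ x ∧ FCel w K N θ Zf FT x)

/-- an element which is not a twin -/
lemma We.bs_self (W : We r j w K0 N b θ) {x : P} (h : NTw (GaussPoset.bs N x)) :
    GaussPoset.bs N x = x := by
  by_cases hx : x ∈ twA N
  · exfalso
    have hbs : GaussPoset.bs N x = twT N x := by
      unfold GaussPoset.bs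
      rw [if_pos hx]
    rw [hbs] at h
    exact h x (W.twn hx).ne.symm (W.twSys.up x hx)
  · unfold GaussPoset.bs
    rw [if_neg hx]

/-- an element below a deep cell has a deep cover which defines its label -/
lemma We.deep_minN (W : We r j w K0 N b θ) {z : P} (hz : z ∈ bdR (rA N)) {x : P}
    (hx : x ∉ rA N) (hzx : z ⋖ x) (hlx : j + 1 ≤ lev x)
    (hD : Dk j w K0 N θ (GaussPoset.bs N x)) (hR : ¬ Row1 j w N θ (GaussPoset.bs N x)) :
    ∃ x1, x1 ∉ rA N ∧ z ⋖ x1 ∧ Dk j w K0 N θ (GaussPoset.bs N x1) ∧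
      ¬ Row1 j w N θ (GaussPoset.bs N x1) ∧
      hA N θ z = θ (topOf (GaussPoset.bs N x1)) (GaussPoset.bs N x1) + 1 := by
  have H := W.gt.H.gradedBelow
  obtain ⟨x0, g1, g2, g3⟩ := W.hA_spec hz
  have g4 := W.hA_le hx hzx
  have g5 := hD.th
  have g6 := W.bs hx
  have g7 := W.bs g1
  have e1 := H.lev_covBy hzx
  have e2 := H.lev_covBy g2
  have e3 := g6.lev
  have e4 := g7.lev
  have hj := W.hj
  have hw := W.hw
  by_cases hS : lev (GaussPoset.bs N x0) ≤
      θ (topOf (GaussPoset.bs N x0)) (GaussPoset.bs N x0) + 1 + w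
  · refine ⟨x, hx, hzx, hD, hR, ?_⟩
    omega
  · refine ⟨x0, g1, g2, ?_, ?_, g3⟩
    · rcases W.cases g7.nat (by omega) with h | h | h
      · have := h.th
        omega
      · have := h.th
        omega
      · exact h
    · intro h
      have := h.th
      omega

/-- **elements below a deep cell of level at least `j + 1`** -/
theorem We.dp_cellsN (W : We r j w K0 N b θ) (hw2 : 2 ≤ w) (hj6 : 6 ≤ j)
    {Zf : Finset P} {FT : P → Prop} (hC : CellsF P j w K0 K N b θ XE XO Zf FT) {v : ℕ} {z x : P}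
    (hz : z ∈ bdR (rA N)) (hzf : z ∉ Zf) (hc : cst w (hS j w N b θ) z = v) (hx : x ∉ rA N)
    (hzx : z ⋖ x) (hlx : j + 1 ≤ lev x)
    (hD : Dk j w K0 N θ (GaussPoset.bs N x)) (hR : ¬ Row1 j w N θ (GaussPoset.bs N x)) :
    OutG j w K XE XO (hS j w N b θ) z v := by
  classical
  have H := W.gt.H.gradedBelow
  have hj := W.hj
  have hw := W.hw
  obtain ⟨x1, h1, h2, h3, hR1, h4⟩ := W.deep_minN hz hx hzx hlx hD hR
  have g7 := W.bs h1
  have e1 := H.lev_covBy hzx
  have e2 := H.lev_covBy h2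
  have e4 := g7.lev
  have hth := h3.th
  have hcells := hC _ g7.nat (by omega) h3 hR1
  have hcg : ∀ L, cst w (fun _ => L) (GaussPoset.bs N x1) = cst w (fun _ => L) x1 := fun L =>
    cst_const_congr g7.lev g7.nab
  by_cases hp : PenS j w N b θ z
  · -- below a special cell
    obtain ⟨p1, p2, p3⟩ := W.penS hp
    obtain ⟨-, x2, q1, q2, q3, q4⟩ := hp
    have hpS : PenS j w N b θ z := ⟨(mem_bdR.mp hz).1, x2, q1, q2, q3, q4⟩
    have hx12 := q3 x1 h2
    subst hx12
    have hS1 := hS_of hpS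
    have hv : v = cst w (fun _ => j - w + 1) (GaussPoset.bs N x1) + (j - w + 1) := by
      rw [← hc, cst_const, hS1, p1, cst_only (h := fun _ => j - w + 1) H h2 q3, hcg,
        Nat.min_eq_left (by omega)]
    rcases hcells with h | h | ⟨-, h⟩ | h | h
    · left
      rw [hv]
      unfold C1 at h
      have h5 : θ (topOf (GaussPoset.bs N x1)) (GaussPoset.bs N x1) + 1 = j - w := by omega
      rw [h5] at h
      have h6 : cst w (fun _ => j - w) (GaussPoset.bs N x1) ≤
          cst w (fun _ => j - w + 1) (GaussPoset.bs N x1) := by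
        unfold cst ez
        refine Finset.sum_le_sum fun y _ => ?_
        split_ifs
        · simp only
          omega
        · exact le_rfl
      omega
    · exact absurd q4 (h.not_spc hw2 hw hj6)
    · rw [hv]
      refine h.pen.out ?_ ?_
      · refine nst_bs (by rw [hS1, p1]) g7.nab (by omega) fun k hk => ?_
        exact nab_only q3 h2 (by omega)
      · obtain ⟨Nc, co, C⟩ := q4
        have a1 := C.nab (by omega) (k := w) (by omega)
        rw [hS1, p1, nab_only q3 h2 (by omega), nab_only q3 h2 (by omega),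
          show w + (j - w + 1) = lev x1 by omega, nab_self]
        rcases g7.nab w with h6 | h6
        · omega
        · omega
    · exfalso
      have e9 := W.bs_self h.ntw
      obtain ⟨y, hy, hne⟩ := h.nop z hz (by rw [e9]; exact h2)
      rw [e9] at hne
      exact hne (q3 y hy)
    · exact absurd q4 h.1
  · -- the canonical label
    have hnc : ¬ CEl j w N θ z := by
      rintro ⟨-, h, -⟩
      omega
    have hS1 : hS j w N b θ z = θ (topOf (GaussPoset.bs N x1)) (GaussPoset.bs N x1) + 1 := by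
      rw [hS_not hp, hC_not hnc, h4]
    by_cases honly : ∀ y, z ⋖ y → y = x1
    · have hns : ¬ Spc j w N b θ (GaussPoset.bs N x1) := fun hs =>
        hp ⟨(mem_bdR.mp hz).1, x1, h1, h2, honly, hs⟩
      have hv : v = C1 w θ (GaussPoset.bs N x1) := by
        unfold C1
        rw [← hc, cst_const, hS1, cst_only (h := fun _ =>
          θ (topOf (GaussPoset.bs N x1)) (GaussPoset.bs N x1) + 1) H h2 honly, hcg,
          Nat.min_eq_left (by omega)]
      rcases hcells with h | h | ⟨h, -⟩ | h | h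
      · left
        omega
      · rw [hv]
        refine h.pen.out ?_ ?_
        · refine nst_bs hS1 g7.nab (by omega) fun k hk => ?_
          exact nab_only honly h2 (by omega)
        · have a1 := h.drop
          have a2 := h.th
          rw [hS1, nab_only honly h2 (by omega), nab_only honly h2 (by omega)]
          rcases g7.nab w with h6 | h6
          · rcases g7.nab (w + (θ (topOf (GaussPoset.bs N x1)) (GaussPoset.bs N x1) + 1)) with
              h7 | h7
            · omega
            · omega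
          · omega
      · exact absurd h hns
      · exfalso
        have e9 := W.bs_self h.ntw
        obtain ⟨y, hy, hne⟩ := h.nop z hz (by rw [e9]; exact h2)
        rw [e9] at hne
        exact hne (honly y hy)
      · exfalso
        obtain ⟨y, hy, hne⟩ := h.2.nop x1 h1 rfl z hz hzf h2
        exact hne (honly y hy)
    · push Not at honly
      obtain ⟨y, hy, hne⟩ := honly
      left
      have h5 := cst_two (w := w)
        (h := θ (topOf (GaussPoset.bs N x1)) (GaussPoset.bs N x1) + 1) H h2 hy (Ne.symm hne)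
        (by omega) (by omega)
      have h6 : C1 w θ (GaussPoset.bs N x1) +
          (θ (topOf (GaussPoset.bs N x1)) (GaussPoset.bs N x1) + 1) ≤ v := by
        rw [← hc, cst_const, hS1]
        unfold C1
        rw [hcg]
        exact h5
      rcases hcells with h | h | ⟨hs, h⟩ | h | h
      · omega
      · rcases h.two with h7 | ⟨h7, h8⟩
        · omega
        · have e9 := W.bs_self h7
          have h9 := h8 z y (by rw [e9]; exact h2) hy (by rw [e9]; exact hne)
          rw [← hS1, ← cst_const, hc] at h9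
          exact h9
      · have a1 := h.two
        obtain ⟨Nc, co, C⟩ := hs
        have a2 := C.th
        omega
      · rcases h.two with h7 | h8
        · omega
        · have e9 := W.bs_self h.ntw
          have h9 := h8 z y (by rw [e9]; exact h2) hy (by rw [e9]; exact hne)
          rw [← hS1, ← cst_const, hc] at h9
          exact h9
      · have a1 := h.2.two
        omega

/-- **the twins of deep cells** -/
theorem We.dt_cellsN (W : We r j w K0 N b θ) (hw2 : 2 ≤ w) (hj6 : 6 ≤ j)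
    {Zf : Finset P} {FT : P → Prop} (hC : CellsF P j w K0 K N b θ XE XO Zf FT) {x : P}
    (hx : x ∈ twA N) (hxf : ¬ FT x)
    (hD : Dk j w K0 N θ (twT N x)) (hR : ¬ Row1 j w N θ (twT N x)) :
    OutTG j w K XE XO N b θ x := by
  classical
  have H := W.gt.H.gradedBelow
  have hj := W.hj
  have hw := W.hw
  have hl := (W.tw_cases hx).1
  have T := W.twn hx
  have hup := W.twSys.up x hx
  have hll : lev (twT N x) = lev x := lev_eq_of_up hup
  have hnb : ∀ k, k < lev x → nab k (twT N x) = nab k x := fun k hk => nab_congr_up hup hk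
  have hth := hD.th
  have hnat := W.twSys.nat x hx
  have e1 : thA N θ (twT N x) = θ (topOf (twT N x)) (twT N x) := W.thA_nat hnat
  have hlv : j + 1 ≤ lev (twT N x) := by
    have := W.lt_lev (mem_twA.mp hx).1
    omega
  have e2 : tcst w (thA N θ) (twT N x, x) = C1 w θ (twT N x) - 1 := by
    rw [tcst_cst T]
    unfold C1
    simp only
    rw [e1]
    omega
  by_cases hs : Spc j w N b θ (twT N x)
  · have h1 : tcS j w N b θ x = tcst w (thA N θ) (twT N x, x) + 2 := W.tcS_spc hx hs
    have T' := W.twnS hx hs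
    rcases hC _ hnat hlv hD hR with h | h | ⟨-, h⟩ | h | h
    · left
      omega
    · exact absurd hs (h.not_spc hw2 hw hj6)
    · have h2 : tcS j w N b θ x = cst w (fun _ => j - w + 1) (twT N x) + (j - w) := by
        unfold tcS
        rw [if_pos hs, tcst_cst T']
      have h3 : TmS j w N b θ x = Lt w (fun _ => j - w + 1) x := by
        unfold TmS
        rw [if_pos hs, Tm_gen H T']
      obtain ⟨Nc, co, C⟩ := hs
      have hlC := C.lev (by omega)
      have a1 := C.nab (by omega) (k := w) (by omega)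
      have hn : nst w (fun _ => j - w + 1) x = nst w (fun _ => j - w + 1) (twT N x) := by
        rw [nst_eq, nst_eq]
        refine Finset.sum_congr rfl fun k hk => ?_
        rw [mem_range] at hk
        exact (hnb _ (by omega)).symm
      rcases h.twn with (h4 | h4 | h4) | h4
      · left
        omega
      · right
        refine ⟨j - w + 1, h3, ?_, Or.inl ⟨by rw [hn]; exact h4.1, by rw [h2]; exact h4.2⟩⟩
        rw [← hnb w (by omega), show w + (j - w + 1) = lev x by omega, nab_self]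
        omega
      · right
        refine ⟨j - w + 1, h3, ?_, Or.inr ⟨by rw [hn]; exact h4.1, by rw [h2]; exact h4.2⟩⟩
        rw [← hnb w (by omega), show w + (j - w + 1) = lev x by omega, nab_self]
        omega
      · exact absurd hup (h4 x T.ne.symm)
    · exact absurd hup (h.ntw x T.ne.symm)
    · exact absurd hs h.1
  · have h2 : tcS j w N b θ x = C1 w θ (twT N x) - 1 := by
      unfold tcS
      rw [if_neg hs, e2]
    rcases hC _ hnat hlv hD hR with h | h | ⟨h, -⟩ | h | h
    · left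
      omega
    · have h3 : TmS j w N b θ x = Lt w (fun _ => θ (topOf (twT N x)) (twT N x) + 1) x := by
        unfold TmS
        rw [if_neg hs, Tm_gen H T]
        simp only
        rw [e1]
      have a1 := h.drop
      have a2 := h.th
      have hn : nst w (fun _ => θ (topOf (twT N x)) (twT N x) + 1) x =
          nst w (fun _ => θ (topOf (twT N x)) (twT N x) + 1) (twT N x) := by
        rw [nst_eq, nst_eq]
        refine Finset.sum_congr rfl fun k hk => ?_
        rw [mem_range] at hk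
        exact (hnb _ (by omega)).symm
      rcases h.twn with (h4 | h4 | h4) | h4
      · left
        omega
      · right
        refine ⟨_, h3, ?_, Or.inl ⟨by rw [hn]; exact h4.1, by rw [h2]; exact h4.2⟩⟩
        rw [← hnb w (by omega), ← hnb (w + (θ (topOf (twT N x)) (twT N x) + 1)) (by omega)]
        exact a1
      · right
        refine ⟨_, h3, ?_, Or.inr ⟨by rw [hn]; exact h4.1, by rw [h2]; exact h4.2⟩⟩
        rw [← hnb w (by omega), ← hnb (w + (θ (topOf (twT N x)) (twT N x) + 1)) (by omega)]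
        exact a1
      · exact absurd hup (h4 x T.ne.symm)
    · exact absurd h hs
    · exact absurd hup (h.ntw x T.ne.symm)
    · exact absurd (h.2.ft x hx rfl) hxf

end Pool.Agent.GaussPoset.Sm

end

/-! From `Pool.Agent.W_448jx_h67.WeP` -/

section

/-!
The windows `2`, `3` at `j = 10` with the component of the end `(5, 25, 0)`: the strips
(MP_448cb3_co, HJoin10)
-/

namespace Pool.Agent.GaussPoset.Sm

set_option linter.unusedSectionVars false

open Finset Wd

universe u

variable {P : Type u} [Fintype P] [PartialOrder P] [DecidableEq P] {r w K0 : ℕ}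

section Late

variable {lo hi : ℕ → ℕ} {e : ℕ → ℕ → P} {t : Tops P}

lemma LateC.toD {lo hi : ℕ → ℕ} (h : LateC 10 lo hi 3) : LateD 10 3 lo hi where
  h0 := le_rfl
  h1 := by norm_num
  h2 := h.low
  h3 := h.at_a
  h4 := by
    right
    have h1 := h.word
    unfold wds at h1
    rw [if_neg (by norm_num), List.mem_append] at h1
    rcases h1 with h1 | h1
    · exact h1
    · norm_num at h1

lemma e6_num : ∀ k, k < 11 → ((Icc (Cl.losW 3 Cl.w6 k) (Cl.hisW 3 Cl.w6 k)).filter (fun s' =>
    s' ≤ Cl.losW 3 Cl.w6 10 ∧ Cl.losW 3 Cl.w6 10 ≤ s' + (10 - k))).card =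
      if 3 ≤ k ∧ k ≤ 7 then 2 else 1 := by
  decide +kernel

lemma e6_top : Cl.losW 3 Cl.w6 10 = Cl.hisW 3 Cl.w6 10 := by decide +kernel

/-- the component of the end `(5, 25, 0)` -/
theorem e6T_of (G : Win.GoodTo P r 10) (C : Cp.Comp 10 (t : P) lo hi e) (h : LateC 10 lo hi 3) :
    E6T 10 3 t (hi 3 - lo 3 + 1) (lowPart 10 (t : P)) (fun x => lev x - 6) := by
  classical
  obtain ⟨D, -⟩ := Cl.wordD_three h.toD (by norm_num)
  obtain ⟨r1, r2⟩ := D.rows C
  have H := G.H
  have e1 := h.at_a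
  have r10 := r1 10 le_rfl
  have s10 := r2 10 le_rfl
  have t10 := e6_top
  refine ⟨rfl, rfl, by omega, rfl, rfl, ?_, ?_⟩
  · intro x hx y hy hlx hly
    obtain ⟨s, a1, a2, a3⟩ := C.surj x hx (by omega)
    obtain ⟨s', b1, b2, b3⟩ := C.surj y hy (by omega)
    rw [hlx] at a1 a2 a3
    rw [hly] at b1 b2 b3
    rw [← a3, ← b3, show s = s' by omega]
  · intro x hx hlx k hk
    have ho : x ∈ onlyB t := only_of_le H G.good hx (by omega)
    rw [nab_pos H G.good C ho hlx.ge hk, ← e6_num k (by omega), ← r1 k hk, ← r2 k hk, ← r10]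
    congr 1
    refine Finset.filter_congr fun s' hs' => ?_
    have hpos : posA 10 lo hi e x = {lo 10} := by
      obtain ⟨s, a1, a2, a3⟩ := C.surj x hx (by omega)
      rw [hlx] at a1 a2 a3
      ext u
      rw [mem_posA, mem_singleton]
      constructor
      · intro h
        omega
      · rintro rfl
        exact ⟨⟨le_rfl, by omega⟩, by rw [← show s = lo 10 by omega, a3]⟩
    rw [hpos]
    simp only [mem_singleton, exists_eq_left]

end Late

variable {lo hi : Tops P → ℕ → ℕ} {e : Tops P → ℕ → ℕ → P}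

/-- **the strips at the windows `2`, `3`** -/
theorem Ctx.exists_we (K : Ctx P r 10 lo hi e) (hw : w = 2 ∨ w = 3)
    (hK : 2 * K0 < 3 * (10 + 1 - w) ^ 2 + 3 * (10 + 1 - w))
    (c1 : ∀ a ∈ Finset.Icc 2 ((10 + 1) / 2), K0 + 1 < stC w (10 + 1) a)
    (c2 : ∀ a ∈ Finset.Icc 2 (10 - 1), K0 + 1 < reC w (10 + 1) a) :
    ∃ (N : Tops P → Finset P) (θ : Tops P → P → ℕ),
      We r 10 w K0 N (fun t => hi t w - lo t w + 1) θ ∧
      Unq P w (fun t => hi t w - lo t w + 1) := by
  have H := K.gt.H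
  have key : ∀ t : Tops P, ∃ (M : Finset P) (ϑ : P → ℕ),
      (TypeX 10 w t (hi t w - lo t w + 1) M ϑ ∨ E6T 10 w t (hi t w - lo t w + 1) M ϑ) ∧
      ∃ B, NatTop w t (hi t w - lo t w + 1) M ϑ B := by
    intro t
    have hT : (lo t w = hi t w ∨ RectShape 10 (lo t) (hi t) ∨ StairShape 10 (lo t) (hi t) ∨
        StairShape 10 (fun k => k - hi t k) (fun k => k - lo t k)) ∨
        (w = 3 ∧ LateC 10 (lo t) (hi t) 3) := by
      rcases shape_cases (K.comp t) (by omega) (K.shape t) with h | h | ⟨a, h, h3⟩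
      · exact Or.inl (Or.inl (h w (by omega)))
      · exact Or.inl (Or.inr (by tauto))
      · have h4 := h3 (by norm_num)
        rcases Nat.lt_or_ge w a with h5 | h5
        · left; left
          rw [(h.low w h5).1, (h.low w h5).2]
        · right
          have h6 : a = 3 := by omega
          subst h6
          exact ⟨by omega, h⟩
    rcases hT with hT | ⟨rfl, hT⟩
    · obtain ⟨M, ϑ, h1, h2⟩ := exists_typeX K.gt (by omega) (K.comp t) (i := w) (by omega) hT
      exact ⟨M, ϑ, Or.inl h1, h2.natTop H.gradedBelow⟩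
    · refine ⟨_, _, Or.inr (e6T_of K.gt (K.comp t) hT), ?_⟩
      have e1 := hT.at_a
      rw [show hi t 3 - lo t 3 + 1 = 2 by omega]
      exact ⟨_, Cl.natTop_late3 hT.toD (K.comp t) H K.gt.good H.gradedBelow⟩
  choose N θ h1 h2 using key
  refine ⟨N, θ, ?_, ?_⟩
  · exact
      { gt := K.gt, hj := by omega, hw1 := by omega, hw := by omega, typ := h1, nt := h2
        sum_b := (card_level H K.gt.good K.comp (by omega)).symm
        hK := hK
        rdeep := fun C _ hx _ h1 h2 h3 h4 => rdeep_of (by omega) (by omega) c2 C hx h1 h2 h3 h4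
        sdeep := fun _ _ _ _ C _ hx _ h1 h3 h4 => sdeep_of (by omega) (by omega) c1 C hx h1 h3 h4 }
  · intro t ht x y hx hy hlx hly
    have e1 := (K.comp t).lo_le w (by omega)
    obtain ⟨s, a1, a2, a3⟩ := (K.comp t).surj x hx (by omega)
    obtain ⟨s', b1, b2, b3⟩ := (K.comp t).surj y hy (by omega)
    rw [hlx] at a1 a2 a3
    rw [hly] at b1 b2 b3
    simp only at ht
    rw [← a3, ← b3, show s = s' by omega]

/-- one pendant below the straight ends -/
theorem Ctx.onePenE (K : Ctx P r 10 lo hi e) (hw : w = 2 ∨ w = 3) :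
    OnePen P 10 (fun t => 2 ≤ hi t w - lo t w + 1) := by
  rcases K.pen_or with h | ⟨hodd, -⟩
  swap
  · norm_num at hodd
  intro y y' p p' hB hly hly' h1 h1' htt hne
  refine h y y' p p' ?_ hly hly' h1 h1' htt hne
  rcases shape_cases (K.comp (topOf y)) (by omega) (K.shape (topOf y)) with h | h | ⟨a, h, h3⟩
  · have := h w (by omega)
    omega
  · exact h
  · exfalso
    have h4 := h3 (by norm_num)
    rcases Nat.lt_or_ge w a with h5 | h5
    · have := h.low w h5
      omega
    · have h6 : a = 3 := by omega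
      subst h6
      refine hne ((e6T_of K.gt (K.comp (topOf y)) h).one y (le_topOf y) y' ?_ hly hly')
      rw [htt]
      exact le_topOf y'

/-- the number of elements above an element of a component -/
lemma Ctx.nab_le_b (K : Ctx P r 10 lo hi e) {x : P} (hx : lev x ≤ 10) (hw : w ≤ lev x) :
    nab w x ≤ hi (topOf x) w - lo (topOf x) w + 1 := by
  classical
  have C := K.comp (topOf x)
  have ho : x ∈ onlyB (topOf x) := only_of_le K.gt.H K.gt.good (le_topOf x) hx
  unfold nab
  have hsub : (lv P w).filter (x ≤ ·) ⊆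
      (Icc (lo (topOf x) w) (hi (topOf x) w)).image (e (topOf x) w) := by
    intro y hy
    rw [mem_filter, mem_lv] at hy
    obtain ⟨s', a1, a2, a3⟩ := C.surj y (onlyB_le (onlyB_up ho hy.2)) (by omega)
    rw [hy.1] at a1 a2 a3
    exact mem_image.mpr ⟨s', mem_Icc.mpr ⟨a1, a2⟩, a3⟩
  refine (Finset.card_le_card hsub).trans (Finset.card_image_le.trans ?_)
  rw [Nat.card_Icc]
  omega

end Pool.Agent.GaussPoset.Sm

end
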