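import Mathlib
import Pool.Agent.W_448zz_h61.Ns
import Pool.Agent.W_448zz_h61.M083
import Pool.Agent.W_448zz_h61.M103
import Pool.Agent.W_448zz_h61.M106
import Pool.Agent.W_448zz_h61.M133
import Pool.Agent.W_448zz_h61.M188

/-! From `Pool.Agent.W_448jx_h67.WeJ` -/

section

/-!
The windows `2`, `3` at `j = 10` with the component of the end `(5, 25, 0)`: elements of level
`j + 1` below a deep cell (MP_448cb3_co, HJoin10)
-/

namespace Pool.Agent.GaussPoset.Sm

set_option linter.unusedSectionVars false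

open Polynomial Finset W4

universe u

variable {P : Type u} [Fintype P] [PartialOrder P] [DecidableEq P] {r j w K0 K : ℕ}
  {N : Tops P → Finset P} {b : Tops P → ℕ} {θ : Tops P → P → ℕ} {XE XO : ℕ → Prop}

/-- elements of level `j + 1` below a deep cell, with fold joins; the cap of `W` is not used -/
theorem We.deep_jS (W : We r j w K0 N b θ) (hw2 : 2 ≤ w) (hj8 : 8 ≤ j)
    (hj2 : j % 2 = 0) {z : P} (hz : z ∈ bdR (rA N)) (hlz : lev z = j + 1)
    (hnE : ∀ y, z ⋖ y → ¬ E6T j w (topOf y) (b (topOf y)) (N (topOf y)) (θ (topOf y)))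
    {x : P} (hzx : z ⋖ x) (hD : Dk j w K0 N θ x) : K < cst w (hA N θ) z ∨
      (j % 2 = 0 ∧ cst w (hA N θ) z = foC w j ∧ nst w (hA N θ) z = foN w j ∧
        nab w z = nab (w + hA N θ z) z + 1 ∧ (∀ y, z ⋖ y → y = x) ∧ Fold j x) ∨
      ((∃ x', FJn j z x x') ∧ hA N θ z = j - w - 1) ∨ CEl j w N θ z := by
  classical
  have H := W.gt.H
  have HN := W.natSys
  have hj := W.hj
  have hw := W.hw
  have hzR := (mem_bdR.mp hz).1
  have hzu := (mem_rA.mp hzR).1
  have e1 := (H.covBy_iff.mp hzx).2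
  have hlx : lev x = j := by omega
  have hx : x ∉ unnat N := W.low (by omega)
  have hbs : GaussPoset.bs N x = x := by
    unfold GaussPoset.bs
    rw [if_neg (W.not_tw hx)]
  have hle := W.hA_le (not_mem_rA.mpr (Or.inl hx)) hzx
  rw [hbs] at hle
  have hth := hD.th
  have h1w := hD.one_le
  have hxt : x ∈ N (topOf x) := HN.mem_iff.mpr ⟨hx, rfl⟩
  have hxle : x ≤ (topOf x : P) := le_topOf x
  have hzN := mem_unnat.mp hzu (topOf x)
  have hnat : ∀ y ∈ N (topOf x), y ∉ unnat N := fun y hy => (HN.mem_iff.mp hy).1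
  have hzt : ∀ y, y ∉ unnat N → ¬ ∀ v, y < v ↔ z < v := fun y hy h =>
    (mem_rA.mp hzR).2 (mem_twA.mpr ⟨hzu, y, hy, h⟩)
  -- two covers have one cover each
  have hnear : (Win.uc x).card = 2 → ∀ y, z ⋖ y → y = x := by
    intro h2 y hy
    by_contra hne
    have := (W.near hzR hlz hzx hy (Ne.symm hne)).1
    omega
  -- the label of an element with one cover
  have hlab : (∀ y, z ⋖ y → y = x) → hA N θ z = θ (topOf x) x + 1 := by
    intro ho
    obtain ⟨x0, g1, g2, g3⟩ := W.hA_spec hz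
    rw [ho x0 g2, hbs] at g3
    exact g3
  have hthx : θ (topOf x) x = θ (topOf x) x := rfl
  have hth0 := hD.th
  have hnx := hnE x hzx
  generalize htt : topOf x = t at hxt hxle hzN hnat hle hth hlab hnx
  rcases (W.typ t).resolve_right hnx with ⟨g1, g2, g3, g5⟩ | ⟨Nc, co, h0, g1, g2, g4⟩ |
    ⟨Nc, co, h0, g1, g2, g3, g4, g5'⟩
  · exfalso
    rw [g2] at hth
    simp only at hth
    omega
  · exfalso
    rw [g1] at hxt
    rw [g2] at hth
    have hJ : ¬ (x ∈ junk (fun _ => True) Nc co ∨ x ∈ junk (fun _ => True) Nc (swp co)) := by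
      intro h
      unfold thR at hth
      rw [if_pos h] at hth
      omega
    have hxN : x ∈ Nc := by
      rw [mem_natR] at hxt
      rcases hxt with h | h | h
      · exact h
      · exact absurd (Or.inl h) hJ
      · exact absurd (Or.inr h) hJ
    have h2 := rect_th7 h0 hw hxN hJ (by omega)
    have h3 := chart_inner_uc h0.chart H hxN (by omega) (by omega)
    exact g4 x z hxle hlx h3 hzx (hnear h3)
  · rw [g1] at hxt hzN
    rw [g2] at hth
    have hJ : x ∉ junk (fun c => c.1 ≤ c.2) Nc co := by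
      intro h
      unfold thS at hth
      rw [if_pos h] at hth
      omega
    have hxN : x ∈ Nc := by
      rw [mem_natS] at hxt
      exact hxt.resolve_right hJ
    have hl := h0.chart.lev x hxN
    have hm : (co x).1 ≤ (co x).2 := h0.chart.mem x hxN
    have h2 := stair_th7 h0 hw g4 hxN hJ (by omega)
    have hzN1 : z ∉ Nc := fun h => hzN (mem_natS.mpr (Or.inl h))
    have h6 := cst_ge_cover (i := w) (h := hA N θ) H.gradedBelow hzx
    rcases Nat.lt_or_ge (co x).1 (co x).2 with hlt | hge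
    · -- a double
      have h3 := stair_inner_uc h0.chart H hxN (by omega) hlt
      have ho := hnear h3
      rcases g5' x z hxle hlx h3 hzx ho with h4 | h4
      · exfalso
        obtain ⟨y, hy, h⟩ := diag_twin h0.chart h0.max H hzN1 hxN hzx ho h4
        exact hzt y (hnat y (by rw [g1]; exact mem_natS.mpr (Or.inl hy))) h
      · exfalso
        omega
    · -- the fold end
      have hcc : (co x).2 = (co x).1 := by omega
      -- the label
      have hlb : hA N θ z + 1 = lev x - w := by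
        obtain ⟨x0, f1, f2, f3⟩ := W.hA_spec hz
        rw [g2] at hle
        by_cases hne : x0 = x
        · rw [hne, hbs, htt, g2] at f3
          omega
        · have f4 := W.near hzR hlz hzx f2 (Ne.symm hne)
          have f5 := (H.covBy_iff.mp f2).2
          have hx0 : x0 ∉ unnat N := W.low (by omega)
          have hbs0 : GaussPoset.bs N x0 = x0 := by
            unfold GaussPoset.bs
            rw [if_neg (W.not_tw hx0)]
          rw [hbs0] at f3
          have f6 := W.single_th hx0 (by omega) f4.2 (hnE x0 f2)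
          omega
      have h8 : min (hA N θ z) (lev z - w) = hA N θ z := Nat.min_eq_left (by omega)
      rw [h8] at h6
      have hA2 : (co x).1 = j / 2 := by omega
      have hlb' : hA N θ z = j - w - 1 := by omega
      have h7 := cst_stair (w := w) (L := j) (h := j - w - 1) h0.chart hxN hlx (by omega)
      rw [hA2, show j - j / 2 = j / 2 by omega] at h7
      have hnk : ∀ k, k ≤ j → nab k x + (k - j / 2) = min (k / 2) (j / 2) + 1 := by
        intro k hk
        have := stair_nab h0.chart hxN (k := k) (by omega)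
        rw [hA2, show (co x).2 = j / 2 by omega] at this
        exact this
      have hFo : Fold j x := ⟨hlx, hj2, fun k hk => by
        have := hnk k hk
        omega⟩
      by_cases ho : ∀ y, z ⋖ y → y = x
      · -- a pendant
        right; left
        have h9 := cst_only (i := w) (h := hA N θ) H.gradedBelow hzx ho
        rw [h8, hlb', h7] at h9
        have hns : nst w (hA N θ) z = foN w j := by
          rw [nst_eq, hlb']
          unfold foN
          refine Finset.sum_congr rfl fun n hn => ?_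
          rw [mem_range] at hn
          rw [nab_only ho hzx (by omega)]
          have := hnk (w + n) (by omega)
          omega
        refine ⟨hj2, by unfold foC; exact h9, hns, ?_, ho, hFo⟩
        rw [hlb', nab_only ho hzx (by omega), nab_only ho hzx (by omega)]
        have a1 := hnk w (by omega)
        have a2 := hnk (w + (j - w - 1)) (by omega)
        omega
      · -- a second cover
        right; right
        push Not at ho
        obtain ⟨x', hzx', hne'⟩ := ho
        have hne : x ≠ x' := Ne.symm hne'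
        have e2 := (H.covBy_iff.mp hzx').2
        have hx' : x' ∉ unnat N := W.low (by omega)
        by_cases hh : topOf x' = t
        · right
          exact ⟨hzR, hlz, x, x', hzx, hzx', hne, by rw [htt, hh], by omega⟩
        · left
          refine ⟨⟨x', Cg.mk' hzx hzx' (mem_onlyB.mpr fun s hs hxs => ?_)
            (mem_onlyB.mpr fun s hs hxs => ?_) ?_, hlz, hFo⟩, hlb'⟩
          · exact HN.top_eq (HN.mem_iff.mpr ⟨hx, rfl⟩) hs hxs
          · exact HN.top_eq (HN.mem_iff.mpr ⟨hx', rfl⟩) hs hxs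
          · rw [htt]
            exact fun h => hh h.symm

/-- the levels above an element below both ends of a stair -/
theorem We.cel_nab (W : We r j w K0 N b θ) (hw2 : 2 ≤ w) {z : P} (hz : CEl j w N θ z) :
    lev z = j + 1 ∧ j % 2 = 0 ∧ ∀ k, k ≤ j →
      nab k z = (min (k / 2) (j / 2) + 1 - (k - j / 2)) + (if j / 2 < k then 1 else 0) := by
  classical
  obtain ⟨h1, h2, f, s, h3, h4, h5, h6, h7⟩ := hz
  have H := W.gt.H
  obtain ⟨Nc, co, C⟩ := W.fold_cell hw2 h1 h2 h3 h4 h5 h7 (W.not_E6 h1 h2 h3 h4 h5 h6)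
  obtain ⟨s1, s2, s3⟩ := W.fold_end C h1 h2 h3 h4 h5 h6
  have hev := C.ev
  have hlf := C.lev
  have hls : lev s = j := by
    have := C.nat.chart.lev s s1
    omega
  refine ⟨h2, hev, fun k hk => ?_⟩
  have hnf := C.nab hk
  have hns : nab k s + (k - (co s).2) = min (k / 2) (co s).1 + 1 :=
    stair_nab C.nat.chart s1 (k := k) (by omega)
  rw [s2, s3] at hns
  have hns1 : nab k s = 1 := by omega
  have hset : (lv P k).filter (fun y => z ≤ y) =
      (lv P k).filter (fun y => f ≤ y) ∪ (lv P k).filter (fun y => s ≤ y) := by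
    ext y
    rw [mem_union, mem_filter, mem_filter, mem_filter, mem_lv]
    constructor
    · rintro ⟨hy, hzy⟩
      have hlt : z < y := lt_of_le_of_ne hzy (by rintro rfl; omega)
      obtain ⟨x, hx, hxy⟩ := Hul.exists_cov hlt
      rcases cov_two H h3 h4 h5 hx with rfl | rfl
      · exact Or.inl ⟨hy, hxy⟩
      · exact Or.inr ⟨hy, hxy⟩
    · rintro (⟨hy, h⟩ | ⟨hy, h⟩)
      · exact ⟨hy, h3.1.le.trans h⟩
      · exact ⟨hy, h4.1.le.trans h⟩
  have hcard : nab k z = ((lv P k).filter (fun y => f ≤ y) ∪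
      (lv P k).filter (fun y => s ≤ y)).card := by
    rw [← hset]
    unfold nab
    congr
  -- the element above `s`
  have hmem : ∀ y, y ∈ (lv P k).filter (fun y => s ≤ y) → (f ≤ y ↔ k ≤ j / 2) := by
    intro y hy
    rw [mem_filter, mem_lv] at hy
    have hyN := C.nat.chart.up s s1 y hy.2
    have a1 := (C.nat.chart.le_iff s s1 y hyN).mp hy.2
    rw [Prod.le_def, s2, s3] at a1
    have a2 := C.nat.chart.lev y hyN
    rw [C.nat.chart.le_iff f C.mem y hyN, Prod.le_def, C.co1, C.co2]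
    constructor
    · rintro ⟨-, h⟩
      omega
    · intro h
      constructor <;> omega
  have hcs : ((lv P k).filter (fun y => s ≤ y)).card = 1 := by
    rw [← hns1]
    unfold nab
    congr
  have hcf : ((lv P k).filter (fun y => f ≤ y)).card = nab k f := by
    unfold nab
    congr
  obtain ⟨y0, hy0⟩ := Finset.card_eq_one.mp hcs
  have hy0m : y0 ∈ (lv P k).filter (fun y => s ≤ y) := by rw [hy0]; exact mem_singleton_self _
  have h8 := hmem y0 hy0m
  rw [hcard, hy0]
  by_cases hk2 : k ≤ j / 2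
  · have h9 : (lv P k).filter (fun y => f ≤ y) ∪ {y0} = (lv P k).filter (fun y => f ≤ y) := by
      rw [union_eq_left, singleton_subset_iff, mem_filter]
      rw [mem_filter] at hy0m
      exact ⟨hy0m.1, h8.mpr hk2⟩
    rw [h9, hcf, if_neg (by omega)]
    omega
  · have h9 : y0 ∉ (lv P k).filter (fun y => f ≤ y) := by
      rw [mem_filter]
      exact fun h => hk2 (h8.mp h.2)
    rw [Finset.card_union_of_disjoint (by rw [disjoint_singleton_right]; exact h9), hcf,
      card_singleton, if_pos (by omega)]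
    omega

/-- the outcome of an element below both ends of a stair, with the full label -/
theorem We.cel_out (W : We r j w K0 N b θ) (hw2 : 2 ≤ w) (hj8 : 8 ≤ j) {z : P}
    (hz : CEl j w N θ z) {g : P → ℕ} (hg : g z = lev z - w)
    (hO : Okv K XE XO (ccN w j) (ccC w j)) : OutG j w K XE XO g z (cst w g z) := by
  obtain ⟨h1, h2, h3⟩ := W.cel_nab hw2 hz
  have hw := W.hw
  have e0 : g z = j + 1 - w := by omega
  have e1 : cst w g z = ccC w j := by
    rw [cst_const, e0, cst_shift (i := w) (h := fun _ => j + 1 - w) (a := j + 1 - w) (by omega),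
      Finset.sum_range_succ, show w + (j + 1 - w) = lev z by omega, nab_self, mul_one,
      Nat.min_self]
    unfold ccC
    rw [show j + 1 - w = j - w + 1 by omega]
    congr 1
    refine Finset.sum_congr rfl fun n hn => ?_
    rw [mem_range] at hn
    rw [Nat.min_eq_right (by omega), h3 (w + n) (by omega)]
    rfl
  have e2 : nst w g z = ccN w j := by
    rw [nst_eq, e0, show j + 1 - w = j - w + 1 by omega]
    unfold ccN
    refine Finset.sum_congr rfl fun n hn => ?_
    rw [mem_range] at hn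
    rw [h3 (w + n) (by omega)]
    rfl
  rw [e1]
  refine hO.out e2 ?_
  rw [e0, show w + (j + 1 - w) = lev z by omega, nab_self, h3 w (by omega), if_neg (by omega)]
  omega

/-- elements of level `j + 1` below the component of `(5, 25, 0)` -/
theorem We.deep_E (W : We r j w K0 N b θ) {z : P} (hz : z ∈ bdR (rA N)) (hlz : lev z = j + 1)
    {x : P} (hzx : z ⋖ x)
    (hE : E6T j w (topOf x) (b (topOf x)) (N (topOf x)) (θ (topOf x))) :
    hA N θ z = 5 ∧ ((∀ y, z ⋖ y → y = x) ∨ ∃ y, Cg z x y) := by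
  have H := W.gt.H
  have HN := W.natSys
  have hj := W.hj
  have hw := W.hw
  have e1 := (H.covBy_iff.mp hzx).2
  have hlx : lev x = j := by omega
  have hx : x ∉ unnat N := W.low (by omega)
  have hbs0 : ∀ y : P, lev y ≤ j → GaussPoset.bs N y = y := by
    intro y hy
    unfold GaussPoset.bs
    rw [if_neg (W.not_tw (W.low hy))]
  have hsp : ∀ y, y ∉ unnat N → lev y = j →
      E6T j w (topOf y) (b (topOf y)) (N (topOf y)) (θ (topOf y)) →
      θ (topOf y) y = 4 ∧ j = 10 ∧ w = 3 := by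
    intro y hy hly hEy
    obtain ⟨-, k2, k3, k4, -⟩ := hEy.spec (HN.mem_iff.mpr ⟨hy, rfl⟩) hly.ge
    exact ⟨k2, k3, k4⟩
  obtain ⟨q1, q2, q3⟩ := hsp x hx hlx hE
  have hle := W.hA_le (not_mem_rA.mpr (Or.inl hx)) hzx
  rw [hbs0 x hlx.le] at hle
  have hlab : hA N θ z = 5 := by
    obtain ⟨x0, f1, f2, f3⟩ := W.hA_spec hz
    have e2 := (H.covBy_iff.mp f2).2
    rw [hbs0 x0 (by omega)] at f3
    by_cases hne : x0 = x
    · rw [hne] at f3
      omega
    · have hx0 : x0 ∉ unnat N := W.low (by omega)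
      by_cases hE0 : E6T j w (topOf x0) (b (topOf x0)) (N (topOf x0)) (θ (topOf x0))
      · have := (hsp x0 hx0 (by omega) hE0).1
        omega
      · have f4 := W.near (mem_bdR.mp hz).1 hlz hzx f2 (Ne.symm hne)
        have f6 := W.single_th hx0 (by omega) f4.2 hE0
        omega
  refine ⟨hlab, ?_⟩
  by_cases ho : ∀ y, z ⋖ y → y = x
  · exact Or.inl ho
  · right
    push Not at ho
    obtain ⟨y, hzy, hne⟩ := ho
    have e2 := (H.covBy_iff.mp hzy).2
    have hy : y ∉ unnat N := W.low (by omega)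
    have htt : topOf y ≠ topOf x := by
      intro htt
      refine hne (hE.one y ?_ x (le_topOf x) (by omega) hlx)
      rw [← htt]
      exact le_topOf y
    refine ⟨y, Cg.mk' hzx hzy (mem_onlyB.mpr fun s hs hxs => ?_)
      (mem_onlyB.mpr fun s hs hxs => ?_) (Ne.symm htt)⟩
    · exact HN.top_eq (HN.mem_iff.mpr ⟨hx, rfl⟩) hs hxs
    · exact HN.top_eq (HN.mem_iff.mpr ⟨hy, rfl⟩) hs hxs

end Pool.Agent.GaussPoset.Sm

end

/-! From `Pool.Agent.W_448jx_h67.WeM` -/

section

/-!
The windows `2`, `3` at `j = 10` with the component of the end `(5, 25, 0)`: elements of level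
`11` below a deep cell, the outcomes (MP_448cb3_co, HJoin10)
-/

namespace Pool.Agent.GaussPoset.Sm

set_option linter.unusedSectionVars false

open Polynomial Finset W4 Cp

universe u

variable {P : Type u} [Fintype P] [PartialOrder P] [DecidableEq P] {r w K0 K : ℕ}
  {N : Tops P → Finset P} {b : Tops P → ℕ} {θ : Tops P → P → ℕ} {XE XO : ℕ → Prop}

/-- the numbers of elements above the end `(5, 25, 0)` -/
def E6P (x : P) : Prop :=
  lev x = 10 ∧ ∀ k, k ≤ 10 → nab k x = if 3 ≤ k ∧ k ≤ 7 then 2 else 1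

/-- an admissible element with the label `h` -/
def OkL (w K : ℕ) (XE XO : ℕ → Prop) (h : ℕ) (z : P) : Prop :=
  K < cst w (fun _ => h) z ∨ (nab w z = nab (w + h) z + 1 ∧
    Okv K XE XO (nst w (fun _ => h) z) (cst w (fun _ => h) z))

/-- the inputs at the level `11` -/
structure InE (P : Type u) [Fintype P] [PartialOrder P] [DecidableEq P] (w K : ℕ)
    (XE XO : ℕ → Prop) : Prop where
  hcc : NoCC P 10 ∨ Okv K XE XO (ccN w 10) (ccC w 10)
  hfj : ∀ z x x' : P, FJn 10 z x x' → OkL w K XE XO (10 - w - 1) z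
  hfp : (∀ z x : P, Fold 10 x → lev z = 11 → z ⋖ x → (∀ y, z ⋖ y → y = x) → False) ∨
    Okv K XE XO (foN w 10) (foC w 10)
  hej : w = 3 → ∀ z x x' : P, Cg z x x' → lev z = 11 → E6P x → OkL w K XE XO 5 z
  hep : w = 3 → (∀ z x : P, E6P x → lev z = 11 → z ⋖ x → (∀ y, z ⋖ y → y = x) → False) ∨
    Okv K XE XO 10 40

lemma OkL.out {h v : ℕ} {z : P} (H : OkL w K XE XO h z) {g : P → ℕ} (hg : g z = h)
    (hc : cst w g z = v) : OutG 10 w K XE XO g z v := by
  have e1 : cst w (fun _ => h) z = v := by rw [← hc, cst_const w g z, hg]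
  have e2 : nst w g z = nst w (fun _ => h) z := by rw [nst_eq, nst_eq, hg]
  rcases H with H | ⟨H1, H2⟩
  · left
    omega
  · rw [e1] at H2
    exact H2.out e2 (by rw [hg]; exact H1)

/-- the cost of a pendant below the end `(5, 25, 0)` -/
lemma E6P.pen (H : Gr P r) {x z : P} (hx : E6P x) (hl : lev z = 11) (hzx : z ⋖ x)
    (ho : ∀ y, z ⋖ y → y = x) : cst 3 (fun _ => 5) z = 40 ∧ nst 3 (fun _ => 5) z = 10 ∧
      nab 3 z = nab (3 + 5) z + 1 := by
  obtain ⟨h1, h2⟩ := hx
  have e : ∀ k, k ≤ 10 → nab k z = if 3 ≤ k ∧ k ≤ 7 then 2 else 1 := by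
    intro k hk
    rw [nab_only ho hzx (by omega), h2 k hk]
  have g3 := e 3 (by omega)
  have g4 := e 4 (by omega)
  have g5 := e 5 (by omega)
  have g6 := e 6 (by omega)
  have g7 := e 7 (by omega)
  have g8 := e 8 (by omega)
  have g9 := e 9 (by omega)
  have g10 := e 10 (by omega)
  norm_num at g3 g4 g5 g6 g7 g8 g9 g10
  refine ⟨?_, ?_, ?_⟩
  · rw [cst3e_11 hl, g4, g5, g6, g7, g8, g9, g10]
  · rw [nst3e_11 (z := z) (h := fun _ => 5) rfl, g3, g4, g5, g6, g7]
  · rw [g3, g8]

/-- **elements of level `11` below a deep cell** -/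
theorem We.dj_E (W : We r 10 w K0 N b θ) (hw2 : 2 ≤ w) (I : InE P w K XE XO) {v : ℕ} {z x : P}
    (hz : z ∈ bdR (rA N)) (hc : cst w (hS 10 w N b θ) z = v) (hlz : lev z = 11) (hzx : z ⋖ x)
    (hD : Dk 10 w K0 N θ x) : OutG 10 w K XE XO (hS 10 w N b θ) z v := by
  have H := W.gt.H
  have hp : ¬ PenS 10 w N b θ z := fun h => by
    have := (W.penS h).2.1
    omega
  by_cases hE : ∃ y, z ⋖ y ∧ E6T 10 w (topOf y) (b (topOf y)) (N (topOf y)) (θ (topOf y))
  · obtain ⟨y, hzy, hEy⟩ := hE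
    have hnc : ¬ CEl 10 w N θ z := by
      rintro ⟨h1, h2, f, s, h3, h4, h5, h6, h7⟩
      have hn := W.not_E6 h1 h2 h3 h4 h5 h6
      rcases cov_two H h3 h4 h5 hzy with rfl | rfl
      · exact hn hEy
      · rw [h6] at hn
        exact hn hEy
    have hS1 : hS 10 w N b θ z = hA N θ z := by rw [hS_not hp, hC_not hnc]
    have hcA : cst w (hA N θ) z = v := by
      rw [← hc, cst_const w (hA N θ) z, cst_const w (hS 10 w N b θ) z, hS1]
    refine outG_congr (h := hA N θ) hS1.symm ?_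
    obtain ⟨h5, h6⟩ := W.deep_E hz hlz hzy hEy
    have e1 := (H.covBy_iff.mp hzy).2
    have hw3 : w = 3 := hEy.w3
    have hyP : E6P y := ⟨by omega, fun k hk => hEy.pat y (le_topOf y) (by omega) k hk⟩
    rcases h6 with h6 | ⟨x', h6⟩
    · rcases I.hep hw3 with h7 | h7
      · exact (h7 z y hyP hlz hzy h6).elim
      · subst hw3
        obtain ⟨c1, c2, c3⟩ := hyP.pen H hlz hzy h6
        have e2 : nst 3 (hA N θ) z = 10 := by rw [← c2, nst_eq, nst_eq, h5]
        have e3 : v = 40 := by rw [← hcA, cst_const, h5, c1]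
        rw [e3]
        exact h7.out e2 (by rw [h5]; exact c3)
    · exact (I.hej hw3 z y x' h6 hlz hyP).out h5 hcA
  · push Not at hE
    by_cases hC : CEl 10 w N θ z
    · rcases I.hcc with h | h
      · exact absurd hC (h.not_celE W hw2)
      · rw [← hc]
        exact W.cel_out hw2 (by omega) hC (by rw [hS_not hp, hC_of hC]) h
    · have hS1 : hS 10 w N b θ z = hA N θ z := by rw [hS_not hp, hC_not hC]
      have hcA : cst w (hA N θ) z = v := by
        rw [← hc, cst_const w (hA N θ) z, cst_const w (hS 10 w N b θ) z, hS1]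
      refine outG_congr (h := hA N θ) hS1.symm ?_
      rcases W.deep_jS (K := K) hw2 (by omega) (by norm_num) hz hlz hE hzx hD with h |
        ⟨-, h2, h3, h4, h5, h6⟩ | ⟨⟨x', h1⟩, h2⟩ | h
      · left
        omega
      · rcases I.hfp with h7 | h7
        · exact (h7 z x h6 hlz hzx h5).elim
        · rw [← hcA, h2]
          exact h7.out h3 h4
      · exact (I.hfj z x x' h1).out h2 hcA
      · exact absurd h hC

/-- **the inputs at the window `w`** -/
theorem We.lkF (W : We r 10 w K0 N b θ) (hw2 : 2 ≤ w)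
    (hK : 2 * K < 3 * (10 + 1 - w) ^ 2 + 3 * (10 + 1 - w)) (hu : Unq P w b)
    (I : InE P w K XE XO) {Zf : Finset P} {FT : P → Prop}
    (C : CellsF P 10 w K0 K N b θ XE XO Zf FT) :
    LkF P 10 w K0 K N b θ XE XO Zf FT where
  hK := hK
  unq := hu
  nsk := fun z x x' h hl hn hns => by
    have hw := W.hw
    exact (nsk23' (by omega) (by omega) hn hns).elim
  dj := fun v z x hz hc hl hzx hD => (W.dj_E hw2 I hz hc hl hzx hD).toK
  dp := fun v z x hz hzf _ hc hx hzx hl hD hR =>
    (W.dp_cellsN hw2 (by omega) C hz hzf hc hx hzx hl hD hR).toK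
  dt := fun x hx hxf hD hR => (W.dt_cellsN hw2 (by omega) C hx hxf hD hR).toT

end Pool.Agent.GaussPoset.Sm

end

/-! From `Pool.Agent.W_448jx_h67.WeQ` -/

section

/-!
The windows `2`, `3` at `j = 10` with the component of the end `(5, 25, 0)`: the labels of the joins
of level `11` (MP_448cb3_co, HJoin10)
-/

namespace Pool.Agent.GaussPoset.Sm

set_option linter.unusedSectionVars false

open Finset Wd

universe u

variable {P : Type u} [Fintype P] [PartialOrder P] [DecidableEq P] {r w K0 K : ℕ}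
  {N : Tops P → Finset P} {b : Tops P → ℕ} {θ : Tops P → P → ℕ}

lemma fold_nab10 {x : P} (h : Fold 10 x) : nab 0 x = 1 ∧ nab 1 x = 1 ∧ nab 2 x = 2 ∧
    nab 3 x = 2 ∧ nab 4 x = 3 ∧ nab 5 x = 3 ∧ nab 6 x = 3 ∧ nab 7 x = 2 ∧ nab 8 x = 2 ∧
    nab 9 x = 1 ∧ nab 10 x = 1 := by
  have e := h.2.2
  have g0 := e 0 (by omega)
  have g1 := e 1 (by omega)
  have g2 := e 2 (by omega)
  have g3 := e 3 (by omega)
  have g4 := e 4 (by omega)
  have g5 := e 5 (by omega)
  have g6 := e 6 (by omega)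
  have g7 := e 7 (by omega)
  have g8 := e 8 (by omega)
  have g9 := e 9 (by omega)
  have g10 := e 10 (by omega)
  omega

lemma e6_nab10 {x : P} (h : E6P x) : nab 0 x = 1 ∧ nab 1 x = 1 ∧ nab 2 x = 1 ∧
    nab 3 x = 2 ∧ nab 4 x = 2 ∧ nab 5 x = 2 ∧ nab 6 x = 2 ∧ nab 7 x = 2 ∧ nab 8 x = 1 ∧
    nab 9 x = 1 ∧ nab 10 x = 1 := by
  have e := h.2
  have g0 := e 0 (by omega)
  have g1 := e 1 (by omega)
  have g2 := e 2 (by omega)
  have g3 := e 3 (by omega)
  have g4 := e 4 (by omega)
  have g5 := e 5 (by omega)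
  have g6 := e 6 (by omega)
  have g7 := e 7 (by omega)
  have g8 := e 8 (by omega)
  have g9 := e 9 (by omega)
  have g10 := e 10 (by omega)
  norm_num at g0 g1 g2 g3 g4 g5 g6 g7 g8 g9 g10
  omega

/-- the threshold of a fold end -/
theorem We.fold_th (W : We r 10 w K0 N b θ) (hw2 : 2 ≤ w) {x : P}
    (hb : nab w x ≤ b (topOf x)) (hF : Fold 10 x) : θ (topOf x) x + w + 2 = 10 := by
  have HN := W.natSys
  have hw := W.hw
  have hlx := hF.1
  obtain ⟨n0, n1, n2, n3, n4, n5, n6, n7, n8, n9, n10⟩ := fold_nab10 hF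
  have hx : x ∉ unnat N := W.low (by omega)
  have hxt : x ∈ N (topOf x) := HN.mem_iff.mpr ⟨hx, rfl⟩
  have hxle : x ≤ (topOf x : P) := le_topOf x
  have h2 : 2 ≤ nab w x := by
    have : w = 2 ∨ w = 3 := by omega
    rcases this with rfl | rfl <;> omega
  generalize htt : topOf x = t at hxt hxle hb
  rcases W.typ t with hT | hE
  swap
  · exfalso
    have := hE.pat x hxle hlx 4 (by omega)
    norm_num at this
    omega
  rcases hT with ⟨g1, g2, g3, g5⟩ | ⟨Nc, co, h0, g1, g2, g4⟩ | ⟨Nc, co, h0, g1, g2, g3, g4, g5'⟩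
  · omega
  · exfalso
    have hxN : x ∈ Nc := h0.strip (mem_lowPart.mpr ⟨hxle, by omega⟩)
    have hl := h0.chart.lev x hxN
    have a1 := rect_nab h0.chart hxN (k := 1) (by omega)
    have a4 := rect_nab h0.chart hxN (k := 4) (by omega)
    omega
  · have hxN : x ∈ Nc := h0.strip (mem_lowPart.mpr ⟨hxle, by omega⟩)
    have hl := h0.chart.lev x hxN
    have hm : (co x).1 ≤ (co x).2 := h0.chart.mem x hxN
    have a9 := stair_nab h0.chart hxN (k := 9) (by omega)
    have a4 := stair_nab h0.chart hxN (k := 4) (by omega)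
    have hJ : x ∉ junk (fun c => c.1 ≤ c.2) Nc co :=
      not_junk_above h0.chart hxN (by omega) le_rfl
    have h3 := stair_th7 h0 hw hw2 hxN hJ (by omega)
    rw [g2]
    omega

/-- the component of the end `(5, 25, 0)` -/
theorem We.e6_T (W : We r 10 3 K0 N b θ) {x : P} (hb : nab 3 x ≤ b (topOf x)) (hE : E6P x) :
    E6T 10 3 (topOf x) (b (topOf x)) (N (topOf x)) (θ (topOf x)) := by
  have HN := W.natSys
  have hlx := hE.1
  obtain ⟨n0, n1, n2, n3, n4, n5, n6, n7, n8, n9, n10⟩ := e6_nab10 hE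
  have hxle : x ≤ (topOf x : P) := le_topOf x
  generalize htt : topOf x = t at hxle hb
  rcases W.typ t with hT | hE
  swap
  · exact hE
  exfalso
  rcases hT with ⟨g1, g2, g3, g5⟩ | ⟨Nc, co, h0, g1, g2, g4⟩ | ⟨Nc, co, h0, g1, g2, g3, g4, g5'⟩
  · omega
  · have hxN : x ∈ Nc := h0.strip (mem_lowPart.mpr ⟨hxle, by omega⟩)
    have hl := h0.chart.lev x hxN
    have a1 := rect_nab h0.chart hxN (k := 1) (by omega)
    have a3 := rect_nab h0.chart hxN (k := 3) (by omega)
    omega
  · have hxN : x ∈ Nc := h0.strip (mem_lowPart.mpr ⟨hxle, by omega⟩)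
    have hl := h0.chart.lev x hxN
    have hm : (co x).1 ≤ (co x).2 := h0.chart.mem x hxN
    have a2 := stair_nab h0.chart hxN (k := 2) (by omega)
    have a3 := stair_nab h0.chart hxN (k := 3) (by omega)
    omega

/-- joins are in the far set -/
lemma We.join_rA (W : We r 10 w K0 N b θ) {z : P} (hz : Hul.Jn z) : z ∈ rA N := by
  have HN := W.natSys
  obtain ⟨t1, t2, h1, h2, hne, hz1, hz2⟩ := hz
  have key : ∀ y, y ∉ unnat N → (y ≤ t1 → y ≤ t2 → False) := by
    intro y hy g1 g2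
    have h3 : y ∈ N (topOf y) := HN.mem_iff.mpr ⟨hy, rfl⟩
    exact hne ((HN.top_eq h3 h1 g1).trans (HN.top_eq h3 h2 g2).symm)
  have hzu : z ∈ unnat N := by
    by_contra hcon
    exact key z hcon hz1 hz2
  refine mem_rA.mpr ⟨hzu, fun h => ?_⟩
  obtain ⟨-, y, hy, hup⟩ := mem_twA.mp h
  have hl := W.lt_lev hzu
  refine key y hy ((hup t1).mpr ?_).le ((hup t2).mpr ?_).le
  · exact lt_of_le_of_ne hz1 (by rintro rfl; omega)
  · exact lt_of_le_of_ne hz2 (by rintro rfl; omega)

/-- a join of level `11` is in the boundary of the far set, its label is the canonical one -/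
theorem We.join_bd (W : We r 10 w K0 N b θ) {z x x' : P} (h : Cg z x x') (hl : lev z = 11) :
    z ∈ bdR (rA N) ∧ hS 10 w N b θ z = hA N θ z ∧ hA N θ z ≤ θ (topOf x) x + 1 := by
  have H := W.gt.H
  have hzR := W.join_rA h.jn
  have e1 := (h.lev_eq H).1
  have hx : x ∉ unnat N := W.low (by omega)
  have hbs : GaussPoset.bs N x = x := by
    unfold GaussPoset.bs
    rw [if_neg (W.not_tw hx)]
  have hle := W.hA_le (not_mem_rA.mpr (Or.inl hx)) h.cov
  rw [hbs] at hle
  refine ⟨mem_bdR.mpr ⟨hzR, x, not_mem_rA.mpr (Or.inl hx), h.cov⟩, ?_, hle⟩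
  have hp : ¬ PenS 10 w N b θ z := fun h => by
    have := (W.penS h).2.1
    omega
  have hC : ¬ CEl 10 w N θ z := by
    rintro ⟨h1, h2, f, s, h3, h4, h5, h6, h7⟩
    have hne : x ≠ x' := by rintro rfl; exact h.ne rfl
    rcases cov_two H h3 h4 h5 h.cov with rfl | rfl <;>
      rcases cov_two H h3 h4 h5 h.cov' with rfl | rfl
    · exact h.ne rfl
    · exact h.ne h6
    · exact h.ne h6.symm
    · exact h.ne rfl
  rw [hS_not hp, hC_not hC]

/-- monotone in the label -/
lemma cst_mono_const {h k : ℕ} (hk : h ≤ k) {z : P} :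
    cst w (fun _ => h) z ≤ cst w (fun _ => k) z := by
  unfold cst ez
  refine Finset.sum_le_sum fun y _ => ?_
  split_ifs
  · simp only
    omega
  · exact le_rfl

/-- elements of level `11` of the boundary are not affected by the pendants of the fold -/
lemma FS.at11 (W : We r 10 w K0 N b θ) {Zf : Finset P} {FT : P → Prop} {hF : P → ℕ}
    (F : FS P 10 w K N b θ Zf FT hF) {z : P} (hz : z ∈ bdR (rA N)) (hl : lev z = 11) :
    z ∈ bdR (rA N \ Zf) ∧ hF z = hS 10 w N b θ z := by
  have H := W.gt.H.gradedBelow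
  have hZ : ∀ y ∈ Zf, 12 ≤ lev y := by
    intro y hy
    obtain ⟨x, hx, -, hyx, -⟩ := F.up y hy
    have e1 := H.lev_covBy hyx
    have := W.lt_lev (mem_twA.mp hx).1
    omega
  have h1 : z ∉ Zf := fun h => by
    have := hZ z h
    omega
  have h2 : ∀ y ∈ Zf, ¬ z ⋖ y := fun y hy hzy => by
    have := hZ y hy
    have e1 := H.lev_covBy hzy
    omega
  obtain ⟨hzR, u, hu, hzu⟩ := mem_bdR.mp hz
  exact ⟨mem_bdR.mpr ⟨mem_sdiff.mpr ⟨hzR, h1⟩, u, fun h => hu (mem_sdiff.mp h).1, hzu⟩,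
    F.eq z hz h1 h2⟩

/-- **the cost of a join bounds the cheapest class** -/
theorem We.mn_join (W : We r 10 w K0 N b θ) {Zf : Finset P} {FT : P → Prop} {hF : P → ℕ}
    (F : FS P 10 w K N b θ Zf FT hF) {v : ℕ} (M : MnF w N Zf FT hF (tcS 10 w N b θ) v)
    {z x x' : P} (h : Cg z x x') (hl : lev z = 11) {k : ℕ} (hk : θ (topOf x) x + 1 ≤ k) :
    v ≤ cst w (fun _ => k) z := by
  obtain ⟨h1, h2, h3⟩ := W.join_bd h hl
  obtain ⟨h4, h5⟩ := F.at11 W h1 hl
  have h6 := M.bd z h4
  rw [cst_const w hF z, h5, h2] at h6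
  exact h6.trans (cst_mono_const (by omega))

end Pool.Agent.GaussPoset.Sm

end

/-! From `Pool.Agent.W_448jx_h67.WeR` -/

section

/-!
The costs of the joins of level `11` at the fold end and at the end `(5, 25, 0)`
(MP_448cb3_co, HJoin10)
-/

namespace Pool.Agent.GaussPoset.Sm

set_option linter.unusedSectionVars false

open Finset Wd

universe u

variable {P : Type u} [Fintype P] [PartialOrder P] [DecidableEq P] {r w K0 K : ℕ}

/-- the numbers of elements above an end of a join of level `11` -/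
structure Sd (x : P) (s : ℕ × ℕ × ℕ) : Prop where
  n0 : nab 0 x = 1
  n1 : nab 1 x = 1
  n9 : nab 9 x = 1
  n10 : nab 10 x = 1
  l2 : 1 ≤ nab 2 x
  l3 : 1 ≤ nab 3 x
  l4 : 1 ≤ nab 4 x
  l5 : 1 ≤ nab 5 x
  l6 : 1 ≤ nab 6 x
  l7 : 1 ≤ nab 7 x
  l8 : 1 ≤ nab 8 x
  A : nab 2 x + nab 3 x + nab 4 x + nab 5 x + nab 6 x + nab 7 x + nab 8 x = s.1 + 7
  B : 8 * nab 2 x + 7 * nab 3 x + 6 * nab 4 x + 5 * nab 5 x + 4 * nab 6 x + 3 * nab 7 x +
    2 * nab 8 x = s.2.1 + 35
  G : nab 8 x = s.2.2 + 1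
  t : nab 2 x = 1 ∨ Fold 10 x

variable {lo hi : Tops P → ℕ → ℕ} {e : Tops P → ℕ → ℕ → P}

lemma sok11 {x : P} (hx : lev x = 10) : Sok 10 x :=
  ⟨fun hf => by have := hf.1; omega, fun h12 => by omega⟩

/-- the low levels of a side -/
lemma Ctx.low10 (K : Ctx P r 10 lo hi e) {z x x' : P} (h : Cg z x x') (hs : Sok 10 x) :
    nab 0 x = 1 ∧ nab 1 x = 1 ∧ (nab 2 x = 1 ∨ Fold 10 x) := by
  have hl := K.lev_ge h
  obtain ⟨l1, l2⟩ := h.lev_eq K.gt.H
  have hend : lev x = 10 → (Win.uc x).card = 1 := fun hh => (K.ends h (by omega)).1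
  rcases K.cases h.only (by omega) hend hs.1 with g | g | ⟨a, g, g3⟩
  · obtain ⟨n0, n1, -⟩ := fold_nab10 g
    exact ⟨n0, n1, Or.inr g⟩
  · exact ⟨g 0 (by omega), g 1 (by omega), Or.inl (g 2 (by omega))⟩
  · have h4 := g3 (by norm_num)
    have key : ∀ k, k < 3 → nab k x = 1 := by
      intro k hk
      obtain ⟨e1, e2⟩ := g.low k (by omega)
      exact nab_one_of_eq (K.comp (topOf x)) h.only (by omega) (by omega) (by rw [e1, e2])
    exact ⟨key 0 (by omega), key 1 (by omega), Or.inl (key 2 (by omega))⟩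

/-- the numbers of elements above an end -/
theorem Ctx.sd (K : Ctx P r 10 lo hi e) {z x x' : P} (h : Cg z x x') (hl : lev z = 11)
    {s : ℕ × ℕ × ℕ} (d : Dt 10 x s) : Sd x s := by
  have H := K.gt.H
  have e1 := (h.lev_eq H).1
  have hx : lev x = 10 := by omega
  obtain ⟨a0, a1, a2⟩ := K.low10 h (sok11 hx)
  obtain ⟨b1, b2, b3⟩ := side_ge H hx (K.ends h hl).1
  obtain ⟨c1, c2, c3⟩ := d.expl
  have l2 := b1 2 (by omega)
  have l3 := b1 3 (by omega)
  have l4 := b1 4 (by omega)
  have l5 := b1 5 (by omega)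
  have l6 := b1 6 (by omega)
  have l7 := b1 7 (by omega)
  have l8 := b1 8 (by omega)
  exact ⟨a0, a1, b2, b3, l2, l3, l4, l5, l6, l7, l8, by omega, by omega, c3, a2⟩

/-- the data of the end `(5, 25, 0)` -/
lemma Sd.e6 {x : P} {s : ℕ × ℕ × ℕ} (d : Sd x s) (hE : E6P x) : s = (5, 25, 0) := by
  obtain ⟨n0, n1, n2, n3, n4, n5, n6, n7, n8, n9, n10⟩ := e6_nab10 hE
  have a := d.A
  have b := d.B
  have g := d.G
  obtain ⟨s1, s2, s3⟩ := s
  simp only at a b g
  refine Prod.ext ?_ (Prod.ext ?_ ?_) <;> simp only <;> omega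

/-- the data of the fold end -/
lemma Sd.fold {x : P} {s : ℕ × ℕ × ℕ} (d : Sd x s) (hE : Fold 10 x) : s = (10, 50, 1) := by
  obtain ⟨n0, n1, n2, n3, n4, n5, n6, n7, n8, n9, n10⟩ := fold_nab10 hE
  have a := d.A
  have b := d.B
  have g := d.G
  obtain ⟨s1, s2, s3⟩ := s
  simp only at a b g
  refine Prod.ext ?_ (Prod.ext ?_ ?_) <;> simp only <;> omega

/-- a join at the end `(5, 25, 0)`, label `5` at the window `3` -/
theorem e6_join {z x x' : P} (hl : lev z = 11) (hs : ∀ k, k ≤ 10 → nab k z = nab k x + nab k x')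
    (hE : E6P x) {s : ℕ × ℕ × ℕ} (d : Sd x' s) :
    cst 3 (fun _ => 5) z + s.2.1 = 64 + 7 * s.1 + nab 2 x' ∧
    nst 3 (fun _ => 5) z + nab 2 x' + s.2.2 = 16 + s.1 ∧
    (nab 3 x' = s.2.2 + 1 → nab 3 z = nab (3 + 5) z + 1) := by
  obtain ⟨n0, n1, n2, n3, n4, n5, n6, n7, n8, n9, n10⟩ := e6_nab10 hE
  have a := d.A
  have b := d.B
  have g := d.G
  have d9 := d.n9
  have d10 := d.n10
  rw [cst3e_11 hl, nst3e_11 (z := z) (h := fun _ => 5) rfl, hs 3 (by omega), hs 4 (by omega),
    hs 5 (by omega), hs 6 (by omega), hs 7 (by omega), hs 8 (by omega), hs 9 (by omega),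
    hs 10 (by omega)]
  refine ⟨by omega, by omega, fun h => by omega⟩

/-- a join at the fold end, label `7` at the window `2` -/
theorem fo_join2 {z x x' : P} (hl : lev z = 11) (hs : ∀ k, k ≤ 10 → nab k z = nab k x + nab k x')
    (hE : Fold 10 x) {s : ℕ × ℕ × ℕ} (d : Sd x' s) :
    cst 2 (fun _ => 7) z + s.2.1 = 107 + 8 * s.1 ∧
    nst 2 (fun _ => 7) z = 24 + s.1 ∧
    (nab 2 x' = 1 → nab 2 z = nab (2 + 7) z + 1) := by
  obtain ⟨n0, n1, n2, n3, n4, n5, n6, n7, n8, n9, n10⟩ := fold_nab10 hE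
  have a := d.A
  have b := d.B
  have g := d.G
  have d9 := d.n9
  have d10 := d.n10
  rw [cst2_11 hl, nst2_11 (z := z) (h := fun _ => 7) rfl, hs 2 (by omega), hs 3 (by omega),
    hs 4 (by omega), hs 5 (by omega), hs 6 (by omega), hs 7 (by omega), hs 8 (by omega),
    hs 9 (by omega), hs 10 (by omega)]
  refine ⟨by omega, by omega, fun h => by omega⟩

/-- a join at the fold end, label `6` at the window `3` -/
theorem fo_join3 {z x x' : P} (hl : lev z = 11) (hs : ∀ k, k ≤ 10 → nab k z = nab k x + nab k x')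
    (hE : Fold 10 x) {s : ℕ × ℕ × ℕ} (d : Sd x' s) :
    cst 3 (fun _ => 6) z + s.2.1 = 80 + 7 * s.1 + nab 2 x' ∧
    nst 3 (fun _ => 6) z + nab 2 x' = 22 + s.1 ∧
    (nab 3 x' = 1 → nab 3 z = nab (3 + 6) z + 1) := by
  obtain ⟨n0, n1, n2, n3, n4, n5, n6, n7, n8, n9, n10⟩ := fold_nab10 hE
  have a := d.A
  have b := d.B
  have g := d.G
  have d9 := d.n9
  have d10 := d.n10
  rw [cst3_11 hl, nst3_11 (z := z) (h := fun _ => 6) rfl, hs 3 (by omega), hs 4 (by omega),
    hs 5 (by omega), hs 6 (by omega), hs 7 (by omega), hs 8 (by omega), hs 9 (by omega),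
    hs 10 (by omega)]
  refine ⟨by omega, by omega, fun h => by omega⟩

/-- the remaining pairs of ends -/
def HR (P : Type u) [Fintype P] [PartialOrder P] [DecidableEq P]
    (R : List ((ℕ × ℕ × ℕ) × (ℕ × ℕ × ℕ))) : Prop :=
  ∀ z x x' : P, Cg z x x' → lev z = 11 → ∃ s s', (s, s') ∈ R ∧ Dt 10 x s ∧ Dt 10 x' s'

lemma Dt.unq10 {x : P} {s s' : ℕ × ℕ × ℕ} (h : Dt 10 x s) (h' : Dt 10 x s') : s = s' := by
  obtain ⟨h1, h2, h3⟩ := h
  obtain ⟨h1', h2', h3'⟩ := h'
  rw [h1] at h1'
  rw [h2] at h2'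
  refine Prod.ext (by exact_mod_cast h1') (Prod.ext (by exact_mod_cast h2') (by omega))

lemma HR.noP {R : List ((ℕ × ℕ × ℕ) × (ℕ × ℕ × ℕ))} (h : HR P R) : NoP P 10 (XR R) := by
  intro z x x' hz hl s s' d d'
  obtain ⟨t, t', h1, h2, h3⟩ := h z x x' hz hl
  unfold XR
  rw [d.unq10 h2, d'.unq10 h3, Bool.not_eq_false', List.elem_iff]
  exact h1

/-- the other end of a join at the end `(5, 25, 0)` -/
lemma HR.e6 {R : List ((ℕ × ℕ × ℕ) × (ℕ × ℕ × ℕ))} (h : HR P R) (K : Ctx P r 10 lo hi e)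
    {z x x' : P} (hz : Cg z x x') (hl : lev z = 11) (hE : E6P x) :
    ∃ s', ((5, 25, 0), s') ∈ R ∧ Sd x' s' := by
  obtain ⟨s, s', h1, h2, h3⟩ := h z x x' hz hl
  rw [(K.sd hz hl h2).e6 hE] at h1
  exact ⟨s', h1, K.sd hz.symm hl h3⟩

/-- the other end of a join at the fold end -/
lemma HR.fold {R : List ((ℕ × ℕ × ℕ) × (ℕ × ℕ × ℕ))} (h : HR P R) (K : Ctx P r 10 lo hi e)
    {z x x' : P} (hz : Cg z x x') (hl : lev z = 11) (hE : Fold 10 x) :
    ∃ s', ((10, 50, 1), s') ∈ R ∧ Sd x' s' := by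
  obtain ⟨s, s', h1, h2, h3⟩ := h z x x' hz hl
  rw [(K.sd hz hl h2).fold hE] at h1
  exact ⟨s', h1, K.sd hz.symm hl h3⟩

end Pool.Agent.GaussPoset.Sm

end
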