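import Mathlib
import Pool.Agent.W_448zz_h61.Ns
import Pool.Agent.W_448zz_h61.M075
import Pool.Agent.W_448zz_h61.M122
import Pool.Agent.W_448zz_h61.M128
import Pool.Agent.W_448zz_h61.M183

/-! From `Pool.Agent.W_448j10_h67.JbF` -/

section

/-!
The strip `La5` at level 10 with elements of the levels 11 and 12: certificate for the window 5,
energies up to 32.
-/

namespace Pool.Agent.GaussPoset.J10

open Cl Dd Sg

/-- the up-sets -/
def Mbus : List ℕ := [268435455, 264241151, 260046847, 255852543, 251658239, 247463935, 243269631, 239075327, 234881023, 230686719, 226492415, 222298111, 218103807, 217055231, 213909503, 212860927, 209715199, 208666623, 205520895, 204472319, 203423743, 203161599, 202375167, 202244095, 202113023, 201981951, 201949183, 201326591, 197132287, 192937983, 188743679, 184549375, 180355071, 176160767, 171966463, 167772159, 163577855, 159383551, 155189247, 150994943, 149946367, 146800639, 145752063, 142606335, 141557759, 138412031, 137363455, 136314879, 136052735,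 135266303, 135135231, 135004159, 134873087, 134840319, 134217727, 130023423, 125829119, 121634815, 117440511, 113246207, 109051903, 104857599, 100663295, 96468991, 92274687, 88080383, 83886079, 82837503, 79691775, 78643199, 75497471, 74448895, 71303167, 70254591, 69206015, 68943871, 68157439, 68026367, 67895295, 67764223, 67731455, 67108863, 62914559, 58720255, 54525951, 54001663, 50331647, 46137343, 41943039, 37748735, 37224447, 33554431, 29360127, 25165823, 20971519, 20447231, 16777215, 15728639, 12582911, 11534335, 8388607, 7340031, 4194303, 3670015, 3145727, 2621439, 2555903, 2547711, 2097151, 1835007, 1572863, 1310719, 1048575, 917503, 786431, 655359, 622591, 524287, 458751, 450559, 393215, 327679, 319487, 311295, 303103, 301055, 300543, 300415, 262143, 196607, 188415, 131071, 98303, 65535, 57343, 49151, 40959, 38911, 38399, 38271, 32767, 24575, 16383, 12287, 8191, 6143, 5631, 5503, 4095, 2047, 1535, 1407, 1023, 511, 383, 255, 191, 127, 95, 63, 31, 15, 7, 3, 1, 0]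

/-- the covers -/
def Mbcv : List ℕ := [0, 1, 2, 4, 8, 16, 16, 32, 96, 384, 256, 1536, 1024, 2048, 6144, 4096, 24576, 49152, 32768, 65536, 196608, 393216, 2621440, 2621440, 3145728, 3145728, 524288, 524288]

/-- the levels -/
def Mblv : List ℕ := [0, 1, 2, 3, 4, 5, 5, 6, 6, 7, 7, 8, 8, 9, 9, 9, 10, 10, 10, 11, 11, 11, 12, 12, 12, 12, 12, 12]

/-- the cells above -/
def Mbum : List ℕ := [1, 3, 7, 15, 31, 63, 95, 191, 383, 1023, 1407, 4095, 5503, 12287, 24575, 38271, 98303, 188415, 300415, 622591, 1310719, 2547711, 7340031, 11534335, 20447231, 37224447, 67731455, 134840319]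

/-- the thresholds -/
def Mbth : List ℕ := [0, 0, 0, 0, 0, 0, 0, 1, 0, 1, 0, 1, 0, 2, 1, 0, 2, 1, 0, 2, 2, 1, 2, 2, 2, 2, 3, 3]

/-- the up-sets above the base: energy, code, `ℓ`, `M`, exponent, coefficient -/
def MbL : List Ent := [(32, false, 268435455, 13, 15, 227, 0), (32, false, 264241151, 13, 14, 207, 0), (32, false, 260046847, 13, 14, 207, 0), (32, false, 255852543, 13, 13, 188, 0), (32, false, 251658239, 13, 14, 207, 0), (32, false, 247463935, 13, 13, 188, 0), (32, false, 243269631, 13, 13, 188, 0), (32, false, 239075327, 13, 12, 170, 0), (32, false, 234881023, 13, 14, 207, 0), (32, false, 230686719, 13, 13, 188, 0), (32, false, 226492415, 13, 13, 188, 0), (32, false, 222298111, 13, 12, 170, 0), (32, false, 218103807, 13, 13, 188, 0), (32, false, 217055231, 13, 12, 170, 0), (32, false, 213909503, 13, 12, 170, 0), (32, false, 212860927, 13, 11, 153, 0), (32, false, 209715199, 13, 12, 170, 0), (32, false, 208666623, 13, 11, 153, 0), (32, false, 205520895, 13, 11, 153, 0), (32,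 false, 204472319, 13, 10, 137, 0), (32, false, 203423743, 13, 10, 137, 0), (32, false, 202375167, 13, 9, 122, 0), (32, false, 202244095, 13, 8, 108, 0), (32, false, 201326591, 13, 14, 207, 0), (32, false, 197132287, 13, 13, 188, 0), (32, false, 192937983, 13, 13, 188, 0), (32, false, 188743679, 13, 12, 170, 0), (32, false, 184549375, 13, 13, 188, 0), (32, false, 180355071, 13, 12, 170, 0), (32, false, 176160767, 13, 12, 170, 0), (32, false, 171966463, 13, 11, 153, 0), (32, false, 167772159, 13, 13, 188, 0), (32, false, 163577855, 13, 12, 170, 0), (32, false, 159383551, 13, 12, 170, 0), (32, false, 155189247, 13, 11, 153, 0), (32, false, 150994943, 13, 12, 170, 0), (32, false, 149946367, 13, 11, 153, 0), (32, false, 146800639, 13, 11, 153, 0), (32, false, 145752063, 13, 10, 137, 0), (32, false, 142606335, 13, 11, 153, 0), (32, false, 141557759, 13, 10, 137, 0), (32, false, 138412031, 13, 10, 137, 0), (32, false, 137363455, 13, 9, 122, 0), (32, false, 136314879, 13, 9, 122, 0), (32,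 false, 135266303, 13, 8, 108, 0), (32, false, 135135231, 13, 7, 95, 0), (32, false, 134217727, 13, 14, 207, 0), (32, false, 130023423, 13, 13, 188, 0), (32, false, 125829119, 13, 13, 188, 0), (32, false, 121634815, 13, 12, 170, 0), (32, false, 117440511, 13, 13, 188, 0), (32, false, 113246207, 13, 12, 170, 0), (32, false, 109051903, 13, 12, 170, 0), (32, false, 104857599, 13, 11, 153, 0), (32, false, 100663295, 13, 13, 188, 0), (32, false, 96468991, 13, 12, 170, 0), (32, false, 92274687, 13, 12, 170, 0), (32, false, 88080383, 13, 11, 153, 0), (32, false, 83886079, 13, 12, 170, 0), (32, false, 82837503, 13, 11, 153, 0), (32, false, 79691775, 13, 11, 153, 0), (32, false, 78643199, 13, 10, 137, 0), (32, false, 75497471, 13, 11, 153, 0), (32, false, 74448895, 13, 10, 137, 0), (32, false, 71303167, 13, 10, 137, 0), (32, false, 70254591, 13, 9, 122, 0), (32, false, 69206015, 13, 9, 122, 0), (32, false, 68157439, 13, 8, 108, 0), (32, false, 68026367, 13, 7, 95, 0), (32, false, 67108863, 13,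 13, 188, 0), (32, false, 62914559, 13, 12, 170, 0), (32, false, 58720255, 13, 12, 170, 0), (32, false, 54525951, 13, 11, 153, 0), (32, false, 54001663, 13, 10, 137, 0), (32, false, 50331647, 13, 12, 170, 0), (32, false, 46137343, 13, 11, 153, 0), (32, false, 41943039, 13, 11, 153, 0), (32, false, 37748735, 13, 10, 137, 0), (32, false, 37224447, 13, 9, 122, 0), (32, false, 33554431, 13, 12, 170, 0), (32, false, 29360127, 13, 11, 153, 0), (32, false, 25165823, 13, 11, 153, 0), (32, false, 20971519, 13, 10, 137, 0), (32, false, 20447231, 13, 9, 122, 0), (32, false, 16777215, 13, 11, 153, 0), (32, false, 15728639, 13, 10, 137, 0), (32, false, 12582911, 13, 10, 137, 0), (32, false, 11534335, 13, 9, 122, 0), (32, false, 8388607, 13, 10, 137, 0), (32, false, 7340031, 13, 9, 122, 0), (32, false, 4194303, 12, 10, 137, 0), (32, false, 3670015, 12, 9, 122, 0), (32, false, 3145727, 12, 9, 122, 0), (32, false, 2621439, 12, 8, 108, 0), (32, false, 2555903, 12, 7, 95, 0), (32, false, 2547711, 12,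 6, 83, 0), (32, false, 2097151, 12, 9, 122, 0), (32, false, 1572863, 12, 8, 108, 0), (32, false, 1048575, 12, 8, 108, 0), (32, false, 917503, 12, 7, 95, 0), (32, false, 524287, 11, 8, 108, 0), (32, false, 458751, 11, 7, 95, 0), (32, false, 450559, 11, 6, 83, 0), (32, false, 393215, 11, 7, 95, 0), (32, false, 327679, 11, 6, 83, 0), (32, false, 319487, 11, 5, 72, 0), (32, false, 311295, 11, 5, 72, 0), (32, false, 303103, 11, 4, 62, 0), (32, false, 301055, 11, 3, 53, 0), (32, false, 300543, 11, 2, 45, 0), (32, false, 300415, 11, 1, 38, 0)]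

theorem Mb_us : UsOK 28 (fun a => Mbcv.getD a 0) Mbus :=
  usOK_of_chk (by decide +kernel)

theorem Mb_pol1 : polG1 28 (2 ^ 120) 15 Mbus 5 (MbL.map Prod.snd) = true := by
  decide +kernel

theorem Mb_pol2 : polG2 28 (2 ^ 120) 15 Mbus (MbL.map Prod.snd) = true := by
  decide +kernel

theorem Mb_pol : polD 28 (2 ^ 120) 15 Mbus 5 (MbL.map Prod.snd) = true :=
  polD_of_fast Mb_pol1 Mb_pol2

theorem Mb_mst : mstC 28 15 5 (fun a => Mblv.getD a 0) Mbus 300415 MbL = true := by
  decide +kernel

theorem Mb_th : thChk 28 5 18 (fun a => Mblv.getD a 0) (fun a => Mbcv.getD a 0)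
    (fun a => Mbum.getD a 0) (fun a => Mbth.getD a 0) = true := by decide +kernel

theorem Mb_bm : bmC 28 5 18 300415 (fun a => Mblv.getD a 0)
    (fun a => Mbum.getD a 0) = true := by decide +kernel

end Pool.Agent.GaussPoset.J10

end

/-! From `Pool.Agent.W_448j10_h67.JbH` -/

section

/-!
The components at the window 5, level 10: data of one component; light components, quadric
(MP_448cb3_co).
-/

namespace Pool.Agent.GaussPoset.J10

set_option linter.unusedSectionVars false

open Polynomial Finset Dd Wd Cl J8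

universe u

variable {P : Type u} [Fintype P] [PartialOrder P] [DecidableEq P] {r : ℕ}
variable {t : Tops P} {lo hi : ℕ → ℕ} {e : ℕ → ℕ → P}

/-- the numbers of elements above `x` on the levels `0, …, 9` -/
def Pf (x : P) (p : List ℕ) : Prop := ∀ k < 10, nab k x = p.getD k 0

/-- the end of a quadric -/
def pQ : List ℕ := [1, 1, 1, 1, 1, 2, 1, 1, 1, 1]

/-- the end of `E7` -/
def pE7 : List ℕ := [1, 1, 1, 1, 2, 2, 2, 2, 2, 1]

/-- the end of `E6` -/
def pE6 : List ℕ := [1, 1, 1, 2, 2, 2, 2, 2, 1, 1]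

/-- the fold end -/
def pF : List ℕ := [1, 1, 2, 2, 3, 3, 3, 2, 2, 1]

/-- `z` covers exactly the fold end and the straight end of the stair `t` -/
def IsC (t : Tops P) (b : ℕ) (θ : P → ℕ) (z : P) : Prop :=
  ∃ Nc co F S, CEl (P := P) t Nc co 5 z F S ∧ b = 3 ∧ θ F = 1

/-- the ends of the level 10 -/
inductive En (θ : P → ℕ) (x : P) : Prop
  | far (h : 5 ≤ θ x) (hn : ∀ k ≤ 5, nab k x = 1)
  | q (h : θ x = 0) (hn : Pf x pQ)
  | e7 (h : θ x = 2) (hn : Pf x pE7)
  | e6 (h : θ x = 2) (hn : Pf x pE6)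
  | f (h : θ x = 1) (hn : Pf x pF)

/-- the own elements of the level 11 which are not natural -/
inductive Ow (K w : ℕ) (t : Tops P) (b : ℕ) (θ : P → ℕ) (z x : P) : Prop
  | far (hc : min K (w + 1) ≤ ct 5 (θ x + 1) z)
  | pend (hp : ∀ y, z ⋖ y → y = x)
      (he : (θ x = 0 ∧ Pf x pQ) ∨ (θ x = 1 ∧ Pf x pF) ∨ (θ x = 2 ∧ Pf x pE6))
  | cx (h : IsC t b θ z)

/-- a pendant of the level 12 below a pendant of the end of `E7` -/
def Cp7 (θ : P → ℕ) (z x : P) : Prop :=
  lev z = 12 ∧ (∀ y, z ⋖ y → y = x) ∧ θ x = 3 ∧ Pf x pE7 ∧ nab 10 x = 1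

/-- data of one component: natural set `S`, first pole below `K` at the energy `w` with the
value `ρ` (none if `w = K`) -/
structure TD (K : ℕ) (t : Tops P) (b w : ℕ) (ρ : ℤ) (S : Finset P) (θ : P → ℕ)
    (B : P → Prop) : Prop where
  b_one : 1 ≤ b
  w_pos : 1 ≤ w
  w_le : w ≤ K
  sg : w < K → (20 ≤ w ∧ w < 25 ∧ ρ < 0) ∨ (w = 27 ∧ 0 < ρ)
  up : ∀ x ∈ S, ∀ y, x ≤ y → y ∈ S
  le_t : ∀ x ∈ S, x ≤ (t : P)
  low : lowPart 10 (t : P) ⊆ S
  own : ∀ z x, lev z = 11 → z ∉ S → (∀ y, z ⋖ y → y ≤ (t : P)) → z ⋖ x →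
    (∀ y, z ⋖ y → θ x ≤ θ y) → Ow K w t b θ z x
  deep : ∀ z x, 12 ≤ lev z → z ∉ S → x ∈ S → z ⋖ x →
    min K (w + 1) ≤ ct 5 (θ x + 1) z ∨ Cp7 θ z x
  ends : ∀ x ≤ (t : P), lev x = 10 → (Win.uc x).card = 1 → En θ x
  data : ∀ N : Tops P → Finset P, NatSys N → (∀ s : Tops P, lowPart 10 (s : P) ⊆ N s) →
    N t = S → ∀ θ' B', (∀ x ∈ N t, θ' x = θ x) → (∀ x ∈ N t, (B' x ↔ B x)) →
    CompDataL (unnat N) topOf t 5 b w θ' B'
  pole : w < K → ∀ N : Tops P → Finset P, NatSys N → N t = S → ∀ f,
    (∀ n, exq n f = Z {x : {x : P // x ∉ unnat N} // topOf (x : P) = t} 5 n) → Pl w b ρ f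

/-- a smaller bound -/
theorem TD.mono {K K' : ℕ} {b w : ℕ} {ρ : ℤ} {S : Finset P} {θ : P → ℕ} {B : P → Prop}
    (T : TD K t b w ρ S θ B) (h : K' ≤ K) (h1 : 1 ≤ K') : TD K' t b (min w K') ρ S θ B where
  b_one := T.b_one
  w_pos := by have := T.w_pos; omega
  w_le := Nat.min_le_right _ _
  sg := fun hw => by
    have h2 : min w K' = w := by omega
    rw [h2]
    exact T.sg (by omega)
  up := T.up
  le_t := T.le_t
  low := T.low
  own := fun z x hl hz ho hzx hm => by
    rcases T.own z x hl hz ho hzx hm with hc | ⟨hp, he⟩ | hc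
    · exact Ow.far (le_trans (by omega) hc)
    · exact Ow.pend hp he
    · exact Ow.cx hc
  deep := fun z x hl hz hx hzx => by
    rcases T.deep z x hl hz hx hzx with hc | hc
    · exact Or.inl (le_trans (by omega) hc)
    · exact Or.inr hc
  ends := T.ends
  data := fun N HN hlow hN θ' B' hθ hB =>
    CompDataL.of_le (T.data N HN hlow hN θ' B' hθ hB) (Nat.min_le_left _ _)
  pole := fun hw => by
    have h2 : min w K' = w := by omega
    rw [h2]
    exact T.pole (by omega)

/-- the sets `onlyB` as natural sets -/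
lemma natSys_only : NatSys (fun s : Tops P => onlyB s) where
  up := fun _ _ hx _ hxy => onlyB_up hx hxy
  le_t := fun _ _ hx => onlyB_le hx

/-- one natural set is replaced -/
lemma natSys_updO {S : Finset P} (h1 : ∀ x ∈ S, ∀ y, x ≤ y → y ∈ S)
    (h2 : ∀ x ∈ S, x ≤ (t : P)) : NatSys (upd (fun s : Tops P => onlyB s) t S) where
  up := by
    intro s
    by_cases h : s = t
    · subst h
      rw [upd_self]
      exact h1
    · rw [upd_ne _ _ h]
      exact natSys_only.up s
  le_t := by
    intro s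
    by_cases h : s = t
    · subst h
      rw [upd_self]
      exact h2
    · rw [upd_ne _ _ h]
      exact natSys_only.le_t s

/-- an element outside with a natural cover -/
lemma unnat_updO {S : Finset P} (h2 : ∀ x ∈ S, x ≤ (t : P)) {z x : P} (hz : z ∉ S) (hx : x ∈ S)
    (hzx : z ≤ x) : z ∈ unnat (upd (fun s : Tops P => onlyB s) t S) := by
  rw [mem_unnat]
  intro s hs
  by_cases h : s = t
  · subst h
    rw [upd_self] at hs
    exact hz hs
  · rw [upd_ne _ _ h] at hs
    exact h (Subtype.ext (mem_onlyB.mp hs t t.2 (hzx.trans (h2 x hx))).symm)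

/-- all covers of an element of level 11 are below one top only: it is below this top only -/
lemma onlyB_eleven (h : Win.GoodTo P r 10) {z : P} (hl : lev z = 11)
    (ho : ∀ y, z ⋖ y → y ≤ (t : P)) : z ∈ onlyB t := by
  rw [mem_onlyB]
  intro s hs hzs
  have hlt : z < s := lt_of_le_of_ne hzs (by rintro rfl; omega)
  obtain ⟨y, hy, hys⟩ := Hul.exists_cov hlt
  have h1 := (h.H.covBy_iff.mp hy).2
  have h2 := only_low h y (ho y hy) (by omega)
  exact mem_onlyB.mp h2 s hs hys

/-- levels with one element -/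
lemma nab_single (C : Cp.Comp 10 (t : P) lo hi e) (h : Win.GoodTo P r 10) {x : P}
    (hx : x ≤ (t : P)) (hl : lev x = 10) {k : ℕ} (hk : k ≤ 10) (h1 : lo k = hi k) :
    nab k x = 1 := by
  classical
  refine le_antisymm ?_ (one_le_nab (by omega))
  unfold nab
  rw [Finset.card_le_one]
  intro a ha b hb
  rw [mem_filter, mem_lv] at ha hb
  have key : ∀ y : P, lev y = k ∧ x ≤ y → y = e k (lo k) := by
    intro y hy
    have hyt : y ≤ (t : P) := Cp.up_le h.H h.good t.2 hx hl.le hy.2
    obtain ⟨s, s1, s2, hs⟩ := C.surj y hyt (by omega)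
    rw [hy.1] at s1 s2 hs
    rw [← hs, show s = lo k by omega]
  rw [key a ha, key b hb]

/-- light components -/
theorem tdLight (h : Win.GoodTo P r 10) (C : Cp.Comp 10 (t : P) lo hi e)
    (h5 : ∀ k ≤ 5, lo k = hi k) : TD 33 t 1 33 0 (onlyB t) (fun x => lev x - 5)
      (fun _ => False) where
  b_one := le_rfl
  w_pos := by norm_num
  w_le := le_rfl
  sg := fun h => absurd h (by norm_num)
  up := fun x hx y hxy => onlyB_up hx hxy
  le_t := fun x hx => onlyB_le hx
  low := fun x hx => by
    rw [mem_lowPart] at hx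
    exact only_low h x hx.1 hx.2
  own := fun z x hl hz ho _ _ => absurd (onlyB_eleven h hl ho) hz
  deep := fun z x hl hz hx hzx => by
    left
    have hlz := (h.H.covBy_iff.mp hzx).2
    have h1 : ∃ s : P, lev s = 0 ∧ z ≤ s ∧ s ≠ t := by
      rw [mem_onlyB] at hz
      push Not at hz
      exact hz
    obtain ⟨s, hs1, hs2, hs3⟩ := h1
    have h2 := sq_le_cst (i := 5) (h := fun _ => lev x - 5 + 1) (z := z) (by omega)
      (by show lev x - 5 + 1 = lev z - 5; omega) (fun k _ hk =>
        two_le_nab_join natSys_only h.H.gradedBelow (t := t) hx hzx.1.le hs1 hs3 hs2 (by omega))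
    have h3 : 7 ^ 2 ≤ (lev z - 5) ^ 2 := Nat.pow_le_pow_left (by omega) 2
    have h4 : ct 5 (lev x - 5 + 1) z = cst 5 (fun _ => lev x - 5 + 1) z := rfl
    omega
  ends := fun x hx hl _ => En.far (by show 5 ≤ lev x - 5; omega)
    (fun k hk => nab_single C h hx hl (by omega) (h5 k hk))
  data := by
    intro N HN hlow hN θ' B' hθ hB
    have H := exists_light (t := t) C h.H h.good h.H.gradedBelow (i := 5) (by norm_num)
    refine compL_nat HN H (fun x hx => by rwa [hN] at hx) (fun x _ hx => absurd hx (by simp))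
      hθ hB 33
  pole := fun h => absurd h (by norm_num)

/-- the quadric -/
theorem tdQuad (h : Win.GoodTo P r 10) (C : Cp.Comp 10 (t : P) lo hi e)
    (Q : QRows 10 5 lo hi) : TD 33 t (hi 5 - lo 5 + 1) 33 0 (lowPart 10 (t : P)) (fun _ => 0)
      (fun x => x ∈ lowPart 10 (t : P)) := by
  classical
  have hQ : QInf 5 5 t := Q.inf (m := 5) C (by norm_num)
  have hup := low_up (t := t) (m := 5) h
  have hN := natTop_quad (by norm_num) (dvd_W_Qd 5) hQ (fun x hx y hxy => hup x y hxy hx)
  have h4 := Q.at'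
  have hb : hi 5 - lo 5 + 1 = 2 := by omega
  have hprof : ∀ x, x ≤ (t : P) → lev x = 10 → Pf x pQ := by
    intro x hx hl k hk
    have hpr := quad_prof hQ hx (by omega) hup (by norm_num)
    have h5 := hpr (10 - k) (by omega)
    rw [show 2 * 5 - (10 - k) = k by omega] at h5
    rw [h5]
    have h6 : ∀ k < 10, 1 + Fi.gD (List.replicate 5 0 ++ [1]) (10 - k) = pQ.getD k 0 := by
      decide +kernel
    exact h6 k hk
  rw [hb]
  constructor
  · norm_num
  · norm_num
  · exact le_rfl
  · exact fun h => absurd h (by norm_num)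
  · exact fun x hx y hxy => hup x y hxy hx
  · exact fun x hx => (mem_lowPart.mp hx).1
  · exact Finset.Subset.refl _
  · intro z x hl hz ho hzx _
    have hlx : lev x = 10 := by
      have := (h.H.covBy_iff.mp hzx).2
      omega
    refine Ow.pend ?_ (Or.inl ⟨rfl, hprof x (ho x hzx) hlx⟩)
    intro y hy
    have hly : lev y = 10 := by
      have := (h.H.covBy_iff.mp hy).2
      omega
    exact le_antisymm (hQ.bot y (ho y hy) (by omega) x (ho x hzx) (by omega))
      (hQ.bot x (ho x hzx) (by omega) y (ho y hy) (by omega))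
  · intro z x hl _ hx hzx
    have := (h.H.covBy_iff.mp hzx).2
    have := (mem_lowPart.mp hx).2
    omega
  · exact fun x hxt hl _ => En.q rfl (hprof x hxt hl)
  · intro N HN hlow hN' θ' B' hθ hB
    refine compL_nat HN hN ?_ ?_ hθ hB 33
    · intro x hx
      rw [hN'] at hx
      exact hx
    · intro x hx _
      rw [hN']
      exact hx
  · exact fun h => absurd h (by norm_num)

end Pool.Agent.GaussPoset.J10

end

/-! From `Pool.Agent.W_448j10_h67.JbI` -/

section

/-!
The components at the window 5, level 10: natural sets with twins of the level 11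
(MP_448cb3_co).
-/

namespace Pool.Agent.GaussPoset.J10

set_option linter.unusedSectionVars false

open Polynomial Finset Dd Wd Cl J8

universe u

variable {P : Type u} [Fintype P] [PartialOrder P] [DecidableEq P] {r : ℕ}
variable {t : Tops P}

/-- elements of the level 11 with the strict up-set of an element of `N'` -/
noncomputable def twS (N' : Finset P) : Finset P := by
  classical exact univ.filter (fun z => z ∉ N' ∧ lev z = 11 ∧ ∃ y ∈ N', ∀ w, z < w ↔ y < w)

lemma mem_twS {N' : Finset P} {z : P} :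
    z ∈ twS N' ↔ z ∉ N' ∧ lev z = 11 ∧ ∃ y ∈ N', ∀ w, z < w ↔ y < w := by
  classical
  unfold twS
  simp

/-- the partner of a twin -/
noncomputable def twF (N' : Finset P) (z : P) : P := by
  classical exact if h : ∃ y ∈ N', ∀ w, z < w ↔ y < w then h.choose else z

lemma twF_spec {N' : Finset P} {z : P} (hz : z ∈ twS N') :
    twF N' z ∈ N' ∧ ∀ w, z < w ↔ twF N' z < w := by
  have h := (mem_twS.mp hz).2.2
  unfold twF
  rw [dif_pos h]
  exact h.choose_spec

/-- the thresholds with twins -/
noncomputable def thT (N' : Finset P) (θ : P → ℕ) (x : P) : ℕ := by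
  classical exact if x ∈ twS N' then θ (twF N' x) else θ x

lemma thT_of {N' : Finset P} {θ : P → ℕ} {x : P} (h : x ∈ twS N') :
    thT N' θ x = θ (twF N' x) := if_pos h

lemma thT_not {N' : Finset P} {θ : P → ℕ} {x : P} (h : x ∉ twS N') : thT N' θ x = θ x := if_neg h

/-- elements with two elements on every level above each element below -/
structure FulL (N' : Finset P) (θ : P → ℕ) (x : P) : Prop where
  th : θ x = lev x - 5
  two : ∀ z, z ∉ N' → z ≤ x → ∀ k, 6 ≤ k → k ≤ lev x → 2 ≤ nab k z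
  tw : ∀ z, z ∉ N' → (∀ w, x < w ↔ z < w) → False

/-- **The data of a natural set with twins.** -/
theorem tdTw (h : Win.GoodTo P r 10) {N' : Finset P} {θ : P → ℕ} {B : P → Prop} {b : ℕ}
    (H : NatTop 5 t b N' θ B) (hb : 1 ≤ b) (hlow : lowPart 10 (t : P) ⊆ N')
    (hB : ∀ x ∈ N', B x → lev x ≤ 10) (hle : ∀ x ∈ N', θ x ≤ lev x - 5)
    (hk : ∀ x ∈ N', 11 ≤ lev x → FulL N' θ x ∨
      (1 ≤ θ x ∧ 34 ≤ ct 5 (θ x + 1) x + (θ x + 1)))
    (hown : ∀ z x, lev z = 11 → z ∉ N' → (∀ y ∈ N', ¬ ∀ w, z < w ↔ y < w) →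
      (∀ y, z ⋖ y → y ≤ (t : P)) → z ⋖ x → (∀ y, z ⋖ y → θ x ≤ θ y) → Ow 33 33 t b θ z x)
    (hends : ∀ x ≤ (t : P), lev x = 10 → (Win.uc x).card = 1 → En θ x) :
    TD 33 t b 33 0 (N' ∪ twS N') (thT N' θ) (fun x => x ∈ N' ∧ B x) := by
  classical
  have HG := h.H
  have hlT : ∀ z ∈ twS N', lev z = 11 := fun z hz => (mem_twS.mp hz).2.1
  have hnT : ∀ x, lev x ≤ 10 → x ∉ twS N' := fun x hx hT => by
    have := hlT x hT
    omega
  have hth10 : ∀ x, lev x = 10 → thT N' θ x = θ x := fun x hx => thT_not (hnT x hx.le)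
  have hTN : ∀ x ∈ N', x ∉ twS N' := fun x hx hT => (mem_twS.mp hT).1 hx
  -- a partner
  have hpart : ∀ z ∈ twS N', twF N' z ∈ N' ∧ lev (twF N' z) = 11 ∧
      1 ≤ θ (twF N' z) ∧ θ (twF N' z) ≤ 6 ∧
      34 ≤ ct 5 (θ (twF N' z) + 1) (twF N' z) + (θ (twF N' z) + 1) := by
    intro z hz
    obtain ⟨h1, h2⟩ := twF_spec hz
    have h3 : lev (twF N' z) = 11 := by
      rw [← hlT z hz]
      exact (lev_eq_of_up h2).symm
    have h4 := hle _ h1
    rcases hk _ h1 (by omega) with h5 | h5
    · exact (h5.tw z (mem_twS.mp hz).1 fun w => (h2 w).symm).elim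
    · exact ⟨h1, h3, h5.1, by omega, h5.2⟩
  have htop : ∀ z ∈ twS N', z ≤ (t : P) := by
    intro z hz
    have hlz := hlT z hz
    have hlt : z < (topOf z : P) := lt_of_le_of_ne (le_topOf z) (by
      intro h
      have h3 := (topOf z).2
      rw [← h] at h3
      omega)
    obtain ⟨v, hv, -⟩ := Hul.exists_cov hlt
    obtain ⟨h1, h2⟩ := twF_spec hz
    exact hv.1.le.trans (H.le_t v (H.up _ h1 v ((h2 v).mp hv.1).le))
  have hup : ∀ x ∈ N' ∪ twS N', ∀ y, x ≤ y → y ∈ N' ∪ twS N' := by
    intro x hx y hxy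
    rw [mem_union] at hx ⊢
    rcases hx with hx | hx
    · exact Or.inl (H.up x hx y hxy)
    · rcases eq_or_lt_of_le hxy with h1 | h1
      · rw [← h1]; exact Or.inr hx
      · obtain ⟨h2, h3⟩ := twF_spec hx
        exact Or.inl (H.up _ h2 y ((h3 y).mp h1).le)
  constructor
  · exact hb
  · norm_num
  · exact le_rfl
  · exact fun h => absurd h (by norm_num)
  · exact hup
  · intro x hx
    rw [mem_union] at hx
    rcases hx with hx | hx
    · exact H.le_t x hx
    · exact htop x hx
  · exact fun x hx => mem_union_left _ (hlow hx)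
  · -- own elements
    intro z x hl hz ho hzx hm
    rw [mem_union, not_or] at hz
    have hly : ∀ y, z ⋖ y → lev y = 10 := by
      intro y hy
      have := (HG.covBy_iff.mp hy).2
      omega
    have h1 := hown z x hl hz.1 (fun y hy hw => hz.2 (mem_twS.mpr ⟨hz.1, hl, y, hy, hw⟩)) ho hzx
      (fun y hy => by
        have := hm y hy
        rwa [hth10 x (hly x hzx), hth10 y (hly y hy)] at this)
    have hx := hth10 x (hly x hzx)
    rcases h1 with hc | ⟨hp, he⟩ | hc
    · exact Ow.far (by rw [hx]; exact hc)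
    · exact Ow.pend hp (by rw [hx]; exact he)
    · refine Ow.cx ?_
      obtain ⟨Nc, co, F, S, C, g1, g2⟩ := hc
      exact ⟨Nc, co, F, S, C, g1, by rw [hth10 F C.lev_F]; exact g2⟩
  · -- deep elements
    intro z x hl hz hx hzx
    left
    rw [mem_union, not_or] at hz
    have hlz := (HG.covBy_iff.mp hzx).2
    rw [mem_union] at hx
    have hcov : ∀ k, k ≤ lev z - 5 → ct 5 k x + k ≤ ct 5 k z := by
      intro k hk'
      have h7 := ct_cov (i := 5) (k := k) hzx.1
      rw [Nat.min_eq_left hk'] at h7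
      omega
    rcases hx with hx | hx
    · rw [thT_not (hTN x hx)]
      have h4 := hle x hx
      rcases hk x hx (by omega) with h5 | ⟨h5, h6⟩
      · have h2 := sq_le_cst (i := 5) (h := fun _ => lev x - 5 + 1) (z := z) (by omega)
          (by show lev x - 5 + 1 = lev z - 5; omega) (fun k hk1 hk2 =>
            h5.two z hz.1 hzx.1.le k (by omega) (by omega))
        have h3 : 7 ^ 2 ≤ (lev z - 5) ^ 2 := Nat.pow_le_pow_left (by omega) 2
        have h8 : ct 5 (lev x - 5 + 1) z = cst 5 (fun _ => lev x - 5 + 1) z := rfl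
        rw [h5.th]
        omega
      · have h7 := hcov (θ x + 1) (by omega)
        omega
    · rw [thT_of hx]
      obtain ⟨g1, g2, g3, g4, g5⟩ := hpart x hx
      have h7 := hcov (θ (twF N' x) + 1) (by omega)
      have h8 : ct 5 (θ (twF N' x) + 1) x = ct 5 (θ (twF N' x) + 1) (twF N' x) :=
        ct_congr_up (twF_spec hx).2
      omega
  · intro x hx hl hu
    have h1 := hth10 x hl
    rcases hends x hx hl hu with ⟨g, g'⟩ | ⟨g, g'⟩ | ⟨g, g'⟩ | ⟨g, g'⟩ | ⟨g, g'⟩
    · exact En.far (by rw [h1]; exact g) g'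
    · exact En.q (by rw [h1]; exact g) g'
    · exact En.e7 (by rw [h1]; exact g) g'
    · exact En.e6 (by rw [h1]; exact g) g'
    · exact En.f (by rw [h1]; exact g) g'
  · -- the data
    intro N HN hlowN hN θ' B' hθ hB'
    have hmem : ∀ x, x ∈ N t ↔ x ∈ N' ∨ x ∈ twS N' := by
      intro x
      rw [hN, mem_union]
    refine compL_twins HN (i := 5) (j := 10) (by norm_num) hlowN H (T := twS N') (θ := θ')
      (B := B') (tw := twF N') (n0 := 33) (fun x hx => (hmem x).mp hx)
      (fun y hy => ⟨(hmem y).mpr (Or.inr hy), (hmem _).mpr (Or.inl (hpart y hy).1)⟩)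
      (fun x hx hl => hlow (mem_lowPart.mpr ⟨hx, hl⟩)) (fun x hx _ => (hmem x).mpr (Or.inl hx))
      (fun x hx hxT => by rw [hθ x hx, thT_not hxT])
      (fun y hy => by rw [hθ y ((hmem y).mpr (Or.inr hy)), thT_of hy])
      (fun x hx hxT => ?_) (fun y hy hc => ?_) (θ0 := thT N' θ) (fun x hx => thT_not hx)
      (fun y hy => thT_of hy) ⟨?_, ?_, ?_, ?_, ?_⟩
    · rw [hB' x hx]
      exact and_iff_right (((hmem x).mp hx).resolve_right hxT)
    · exact (mem_twS.mp hy).1 ((hB' y ((hmem y).mpr (Or.inr hy))).mp hc).1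
    · exact fun y hy => (mem_twS.mp hy).1
    · exact fun y hy => (hpart y hy).1
    · exact fun y hy hc => (mem_twS.mp hy).1 hc.1
    · intro y hy
      obtain ⟨g1, g2, g3, g4, g5⟩ := hpart y hy
      have hy1 : twF N' y ∉ twS N' := hTN _ g1
      have h6 : ct 5 (θ (twF N' y) + 1) (twF N' y) ≤
          ∑ w, (if twF N' y ≤ w then lev w - 5 else 0) := by
        rw [ct_eq_sum]
        refine Finset.sum_le_sum fun w _ => ?_
        split_ifs
        · exact Nat.min_le_right _ _
        · exact le_rfl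
      have h7 := ct_succ 5 (θ (twF N' y) + 1) (twF N' y)
      rw [g2] at h7
      refine ⟨?_, fun w => ((twF_spec hy).2 w).symm, ?_, ?_, ?_, ?_, ?_⟩
      · intro hh
        exact (mem_twS.mp hy).1 (hh ▸ g1)
      · rw [thT_not hy1]; exact g3
      · rw [thT_not hy1, thT_of hy]
      · rw [thT_not hy1, g2]; omega
      · rw [thT_not hy1]; omega
      · rw [thT_not hy1]; omega
    · intro y hy
      rw [(hpart y hy).2.1]
      norm_num
  · exact fun h => absurd h (by norm_num)

end Pool.Agent.GaussPoset.J10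

end

/-! From `Pool.Agent.W_448j10_h67.JbJ` -/

section

/-!
The components at the window 5, level 10: rectangle-like components (MP_448cb3_co).
-/

namespace Pool.Agent.GaussPoset.J10

set_option linter.unusedSectionVars false

open Polynomial Finset Dd Wd Cl J8

universe u

variable {P : Type u} [Fintype P] [PartialOrder P] [DecidableEq P] {r : ℕ}
variable {t : Tops P} {lo hi : ℕ → ℕ} {e : ℕ → ℕ → P}

/-- the thresholds of a natural set are bounded -/
lemma natTop_le {N' : Finset P} {θ : P → ℕ} {B : P → Prop} {b : ℕ} (H : NatTop 5 t b N' θ B) :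
    ∀ x ∈ N', θ x ≤ lev x - 5 := by
  intro x hx
  have HM := natSys_updO (t := t) H.up H.le_t
  have hC := H.data _ HM (upd_self _ t N') θ (fun x => x ∈ N' ∧ B x) (fun _ _ => rfl)
    (fun x hx => ⟨fun h => h.2, fun h => ⟨hx, h⟩⟩)
  have h1 : x ∈ upd (fun s : Tops P => onlyB s) t N' t := by
    rw [upd_self]
    exact hx
  exact hC.le x (HM.mem_iff.mp h1).1 (HM.mem_iff.mp h1).2

/-- covers of an element of level 11 with the same strict up-set -/
lemma up_pair_eq (H : Gr P r) {z y x x' : P} (hzx : z ⋖ x) (hzx' : z ⋖ x') (hyx : y ⋖ x)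
    (hyx' : y ⋖ x') (hne : x ≠ x') : ∀ w, z < w ↔ y < w := by
  refine up_of_cov fun w => ?_
  constructor
  · intro hw
    rcases uc_pair H hzx hzx' hne hw with h1 | h1
    · rw [h1]; exact hyx
    · rw [h1]; exact hyx'
  · intro hw
    rcases uc_pair H hyx hyx' hne hw with h1 | h1
    · rw [h1]; exact hzx
    · rw [h1]; exact hzx'

/-- one or two covers -/
lemma cov_cases (H : Gr P r) {z x : P} (hzx : z ⋖ x) :
    (∀ y, z ⋖ y → y = x) ∨ ∃ x', z ⋖ x' ∧ x' ≠ x := by
  by_cases hp : ∀ y, z ⋖ y → y = x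
  · exact Or.inl hp
  · push Not at hp
    exact Or.inr hp

/-- two neighbours or two ends -/
lemma near11 (h : Win.GoodTo P r 10) {z x x' : P} (hl : lev z = 11) (hzx : z ⋖ x)
    (hzx' : z ⋖ x') (hne : x ≠ x') : (∃ p, x ⋖ p ∧ x' ⋖ p) ∨
      ((Win.uc x).card = 1 ∧ (Win.uc x').card = 1) := by
  rcases (Win.near_level' (i := 9) h (by norm_num)).1 z x x' (by omega) hzx hzx' hne with
    h6 | ⟨h6, h7, -⟩
  · left
    obtain ⟨u, hu1, hu2⟩ := Win.exists_of_ucv (v := x) (v' := x') (by rw [h6]; exact one_pos)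
    exact ⟨u, hu1, hu2⟩
  · exact Or.inr ⟨h6, h7⟩

/-- rectangle-like components -/
theorem tdRect (h : Win.GoodTo P r 10) (C : Cp.Comp 10 (t : P) lo hi e)
    (h1 : lo 1 = 0 ∧ hi 1 = 1) (S : RectShape 10 lo hi) :
    ∃ S θ B, TD 33 t (hi 5 - lo 5 + 1) 33 0 S θ B := by
  classical
  have H := h.H
  have hg := h.good
  have hlt : lo 5 < hi 5 := by
    have g1 := C.lo_mono (l := 1) (d := 4) (by norm_num)
    have g2 := C.hi_mono (l := 1) (d := 4) (by norm_num)
    norm_num at g1 g2
    by_contra hcon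
    have g3 := C.lo_le 5 (by norm_num)
    have g4 := shape_lo C S.lo (l := 5) (by omega) 5 (by norm_num)
    have g5 := shape_hi C S.hi (l := 5) (by omega) 5 (by norm_num)
    have g6 := C.lo_le (5 + 5) (by norm_num)
    omega
  obtain ⟨Nc, co, R, -⟩ := exists_rect C H hg H.gradedBelow S (i := 5) (by norm_num) hlt
  have hR := R.natTop H.gradedBelow (by norm_num)
  have hmem : ∀ x, x ≤ (t : P) → lev x = 10 → x ∈ Nc := fun x hx hl =>
    R.strip (mem_lowPart.mpr ⟨hx, hl.le⟩)
  have hb := R.b_le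
  have hb2 := R.b_two
  set b := hi 5 - lo 5 + 1 with hbe
  set N0 := upd (fun s : Tops P => onlyB s) t (natR Nc co) with hN0
  have HN := natSys_updO (t := t) hR.up hR.le_t
  have hNt : N0 t = natR Nc co := upd_self _ _ _
  have hun : ∀ {z x : P}, z ∉ natR Nc co → x ∈ natR Nc co → z ≤ x → z ∈ unnat N0 :=
    fun hz hx hzx => unnat_updO hR.le_t hz hx hzx
  -- straight elements
  have hstr : ∀ x ∈ Nc, x ∉ junk (fun _ => True) Nc co → x ∉ junk (fun _ => True) Nc (swp co) →
      thR 5 b Nc co x = ((co x).1 - (b - 1)) + ((co x).2 - 5) := by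
    intro x _ h1 h2
    unfold thR
    rw [if_neg (by push Not; exact ⟨h1, h2⟩)]
  have hjk : ∀ x ∈ Nc, thR 5 b Nc co x = lev x - 5 ∨
      thR 5 b Nc co x = ((co x).1 - (b - 1)) + ((co x).2 - 5) := by
    intro x _
    unfold thR
    split_ifs
    · exact Or.inl rfl
    · exact Or.inr rfl
  have hrow : b = 6 ∨ ∀ x ∈ Nc, (co x).1 ≤ b - 1 := R.rows
  -- no pendants
  have hnop : ∀ x z : P, z ∉ natR Nc co → x ≤ (t : P) → lev x = 10 → z ⋖ x →
      (∀ y, z ⋖ y → y = x) → False := by
    intro x z hz hxt hxl hzx honly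
    have hx := hmem x hxt hxl
    have h3 := rect_pendant H R hNt (hun hz (mem_natR.mpr (Or.inl hx)) hzx.1.le)
      (by rw [hNt]; exact mem_natR.mpr (Or.inl hx)) hzx honly
    exact rectShape_no_pendant (i := 9) h (by norm_num) t.2 C S hxl hxt
      (chart_inner_uc R.chart H hx h3.2.2.2.1 h3.2.2.2.2) hzx honly
  -- single-up elements
  have hend : ∀ x ∈ Nc, lev x = 10 → (Win.uc x).card = 1 → co x = (0, 10) ∨ co x = (10, 0) := by
    intro x hx hl hu
    have hlc := R.chart.lev x hx
    by_contra hcon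
    push Not at hcon
    have h3 : 1 ≤ (co x).1 := by
      by_contra h4
      exact hcon.1 (Prod.ext (by simp only; omega) (by simp only; omega))
    have h4 : 1 ≤ (co x).2 := by
      by_contra h4
      exact hcon.2 (Prod.ext (by simp only; omega) (by simp only; omega))
    have := chart_inner_uc R.chart H hx h3 h4
    omega
  have hendth : ∀ x ∈ Nc, co x = (0, 10) ∨ co x = (10, 0) → thR 5 b Nc co x = 5 := by
    intro x hx hc
    have hlc := R.chart.lev x hx
    rcases hjk x hx with h2 | h2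
    · rcases hc with hc | hc <;> rw [hc] at hlc <;> simp only at hlc <;> omega
    · rw [h2]
      rcases hc with hc | hc
      · rw [hc]
        simp only
        omega
      · rcases hrow with h3 | h3
        · rw [hc, h3]
          rfl
        · have := h3 x hx
          rw [hc] at this
          simp only at this
          omega
  refine ⟨_, _, _, tdTw h hR (by omega) (fun x hx => mem_natR.mpr (Or.inl (R.strip hx))) ?_
    (natTop_le hR) ?_ ?_ ?_⟩
  · rintro x - ⟨hx, hc⟩
    rw [R.chart.lev x hx, hc]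
    simp only
    omega
  · -- costs
    intro x hx hl
    have hF : (x ∈ junk (fun _ => True) Nc co ∨ x ∈ junk (fun _ => True) Nc (swp co) ∨
        (x ∈ Nc ∧ ((co x).1 = 0 ∨ (co x).2 = 0))) → thR 5 b Nc co x = lev x - 5 →
        FulL (natR Nc co) (thR 5 b Nc co) x := by
      intro h7 hth
      refine ⟨hth, ?_, ?_⟩
      · intro z hz hzx k hk hkx
        exact rect_two_le_nab H R hNt (hun hz hx hzx) hzx h7 (by omega) hkx
      · intro z hz hw
        have hxt : x < (topOf x : P) := lt_of_le_of_ne (le_topOf x) (by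
          intro h
          have h3 := (topOf x).2
          rw [← h] at h3
          omega)
        obtain ⟨u, hu, -⟩ := Hul.exists_cov hxt
        have huN : u ∈ natR Nc co := hR.up x hx u hu.1.le
        have hzU : z ∈ unnat N0 := hun hz huN ((hw u).mp hu.1).le
        rcases h7 with h' | h' | ⟨hxN, h'⟩
        · exact hz (mem_natR.mpr (Or.inr (Or.inl (junk_twin h' hw))))
        · exact hz (mem_natR.mpr (Or.inr (Or.inr (junk_twin h' hw))))
        · have hlx := R.chart.lev x hxN
          rcases h' with h7 | h7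
          · obtain ⟨u, hu, hcu⟩ := R.chart.low x hxN (0, (co x).2 - 1)
              ⟨Nat.zero_le _, Nat.sub_le _ _⟩ trivial
            refine straight_twin H R hNt hxN hu ?_ ?_ ?_ hzU hw
            · rw [hcu]
              exact Or.inr ⟨by simp only; omega, by simp only; omega⟩
            · intro y hy hp
              rw [hcu]
              rcases hp with hp | hp
              · omega
              · exact Prod.ext (by simp only; omega) (by simp only; omega)
            · rw [hcu]
              exact Or.inl rfl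
          · obtain ⟨u, hu, hcu⟩ := R.chart.low x hxN ((co x).1 - 1, 0)
              ⟨Nat.sub_le _ _, Nat.zero_le _⟩ trivial
            refine straight_twin H R hNt hxN hu ?_ ?_ ?_ hzU hw
            · rw [hcu]
              exact Or.inl ⟨by simp only; omega, by simp only; omega⟩
            · intro y hy hp
              rw [hcu]
              rcases hp with hp | hp
              · exact Prod.ext (by simp only; omega) (by simp only; omega)
              · omega
            · rw [hcu]
              exact Or.inr rfl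
    by_cases hJ : x ∈ junk (fun _ => True) Nc co ∨ x ∈ junk (fun _ => True) Nc (swp co)
    · left
      refine hF ?_ ?_
      · rcases hJ with h' | h'
        · exact Or.inl h'
        · exact Or.inr (Or.inl h')
      · unfold thR
        rw [if_pos hJ]
    · have hxN : x ∈ Nc := by
        rw [mem_natR] at hx
        rcases hx with h | h | h
        · exact h
        · exact absurd (Or.inl h) hJ
        · exact absurd (Or.inr h) hJ
      have hlx := R.chart.lev x hxN
      push Not at hJ
      have hth := hstr x hxN hJ.1 hJ.2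
      have hr := hrow.imp_right (fun h3 => h3 x hxN)
      by_cases h7 : (co x).1 = 0 ∨ (co x).2 = 0
      · left
        refine hF (Or.inr (Or.inr ⟨hxN, h7⟩)) ?_
        rw [hth]
        omega
      · right
        push Not at h7
        refine ⟨by rw [hth]; omega, ?_⟩
        have := kap_chart (m := 5) (k := thR 5 b Nc co x + 1) (by norm_num) R.chart hxN
          (by omega) (by omega) (by omega) (by rw [hth]; omega)
        omega
  · -- own elements
    intro z x hl hz hnt ho hzx _
    have hly : ∀ y, z ⋖ y → lev y = 10 := by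
      intro y hy
      have := (H.covBy_iff.mp hy).2
      omega
    have hx := hmem x (ho x hzx) (hly x hzx)
    rcases cov_cases H hzx with hp | ⟨x', hzx', hne⟩
    · exact (hnop x z hz (ho x hzx) (hly x hzx) hzx hp).elim
    · have hx' := hmem x' (ho x' hzx') (hly x' hzx')
      rcases near11 h hl hzx hzx' (Ne.symm hne) with ⟨p, hp1, hp2⟩ | ⟨u1, u2⟩
      · obtain ⟨y, hy, hyx, hyx'⟩ := near_chart H R.chart R.max (fun _ _ _ => trivial) hx hx'
          hp1 hp2 hzx hzx' (Ne.symm hne) (fun h => hz (mem_natR.mpr (Or.inl h)))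
        exact (hnt y (mem_natR.mpr (Or.inl hy))
          (up_pair_eq H hzx hzx' hyx hyx' (Ne.symm hne))).elim
      · refine Ow.far ?_
        have hc := hend x hx (hly x hzx) u1
        rw [hendth x hx hc]
        have h3 := sq_le_cst (i := 5) (h := fun _ => 5 + 1) (z := z) (by omega)
          (by show 5 + 1 = lev z - 5; omega) (fun k hk1 hk2 =>
            rect_two_le_nab H R hNt (hun hz (mem_natR.mpr (Or.inl hx)) hzx.1.le) hzx.1.le
              (Or.inr (Or.inr ⟨hx, by
                rcases hc with hc | hc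
                · left; rw [hc]
                · right; rw [hc]⟩)) (by omega) (by rw [hly x hzx]; omega))
        rw [hl] at h3
        have h4 : ct 5 (5 + 1) z = cst 5 (fun _ => 5 + 1) z := rfl
        rw [h4]
        exact le_trans (by norm_num) h3
  · -- ends
    intro x hxt hl hu
    have hx := hmem x hxt hl
    have hc := hend x hx hl hu
    refine En.far (hendth x hx hc).ge fun k hk => ?_
    have h3 := nab_chart R.chart hx k
    have hlx := R.chart.lev x hx
    have h4 := card_cellsAt_true (l := k) (p := co x) (by omega)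
    rw [← h3] at h4
    rcases hc with hc | hc
    · rw [hc] at h4
      simp only at h4
      omega
    · rw [hc] at h4
      simp only at h4
      omega

end Pool.Agent.GaussPoset.J10

end

/-! From `Pool.Agent.W_448j10_h67.JbL` -/

section

/-!
The components at the window 5, level 10: `E6` (MP_448cb3_co).
-/

namespace Pool.Agent.GaussPoset.J10

set_option linter.unusedSectionVars false

open Polynomial Finset Dd Wd Cl J8

universe u

variable {P : Type u} [Fintype P] [PartialOrder P] [DecidableEq P] {r : ℕ}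
variable {t : Tops P} {lo hi : ℕ → ℕ} {e : ℕ → ℕ → P}

/-- thresholds of `E6` at the window `5` -/
def E6t5 : ℕ → ℕ → ℕ := tab [] 8

theorem E6_th5 : thChk 16 5 13 (fun a => E6lv.getD a 0) (fun a => E6cv.getD a 0)
    (fun a => E6um.getD a 0) (fun a => E6t5 (E6lv.getD a 0) (E6sl.getD a 0)) = true := by
  decide +kernel

/-- `E6` at the window `5`, largest thresholds -/
theorem natTopC_E6_5 {j : ℕ} (D : WordD j 3 w6 lo hi) (C : Cp.Comp j (t : P) lo hi e)
    (H : Gr P r) (hg : ∀ l, l < j → Win.Good P l) (hj : 8 ≤ j) (hj' : j ≤ 10) :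
    NatTop 5 t 2 (lowPart j (t : P)) (thC lo hi e E6t5) (fun x => x = e 8 3) :=
  E6_strip.natTopC E6_us D C H hg hj' E6_th5 hj (by decide +kernel)
    (E6_clean D C H hg t.2 (i := 5) (by omega) (by omega) hj')

/-- the elements above a cell of the last row of a word -/
lemma nab_word10 {a : ℕ} {w : List Ltr} (D : WordD 10 a w lo hi)
    (C : Cp.Comp 10 (t : P) lo hi e) (h : Win.GoodTo P r 10) {s : ℕ} (h1 : losW a w 10 ≤ s)
    (h2 : s ≤ hisW a w 10) {p : List ℕ}
    (hc : ∀ l < 10, (upI (losW a w) (hisW a w) 10 s (10 - l)).2 + 1 -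
      (upI (losW a w) (hisW a w) 10 s (10 - l)).1 = p.getD l 0) : Pf (e 10 s) p := by
  intro l hl
  obtain ⟨r1, r2⟩ := D.rows C
  have h3 := nab_upI C h.H h.good t.2 (s := s) (by rw [r1 10 le_rfl]; exact h1)
    (by rw [r2 10 le_rfl]; exact h2) (m := 10 - l) (by omega)
  have h4 : upI lo hi 10 s (10 - l) = upI (losW a w) (hisW a w) 10 s (10 - l) := by
    have := upI_congr (L := losW a w) (H := hisW a w) (lo := lo) (hi := hi) (B := 0)
      (N := 10) (s := s) (fun n hn => by rw [Nat.zero_add]; exact (r1 n hn).symm)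
      (fun n hn => by rw [Nat.zero_add]; exact (r2 n hn).symm) (10 - l) (by omega)
    rw [this]
  rw [h4, hc l hl, show 10 - (10 - l) = l by omega] at h3
  exact h3

lemma E6_rows10 : losW 3 w6 10 = 3 ∧ hisW 3 w6 10 = 3 ∧ losW 3 w6 5 = 1 ∧ hisW 3 w6 5 = 2 := by
  decide +kernel

/-- `E6` -/
theorem tdE6 (h : Win.GoodTo P r 10) (C : Cp.Comp 10 (t : P) lo hi e)
    (D : WordD 10 3 w6 lo hi) : ∃ S θ B, TD 33 t (hi 5 - lo 5 + 1) 33 0 S θ B := by
  classical
  have hN := natTopC_E6_5 D C h.H h.good (by norm_num) (by norm_num)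
  obtain ⟨r1, r2⟩ := D.rows C
  obtain ⟨e1, e2, e3, e4⟩ := E6_rows10
  have hb : hi 5 - lo 5 + 1 = 2 := by
    rw [r1 5 (by norm_num), r2 5 (by norm_num), e3, e4]
  have hcell : ∀ x, x ≤ (t : P) → lev x = 10 → x = e 10 3 := by
    intro x hx hl
    obtain ⟨s, s1, s2, hs⟩ := C.surj x hx hl.le
    rw [hl] at s1 s2 hs
    rw [r1 10 le_rfl, e1] at s1
    rw [r2 10 le_rfl, e2] at s2
    rw [← hs, show s = 3 by omega]
  have hth : thC lo hi e E6t5 (e 10 3) = 2 := by
    rw [thC_e C E6t5 le_rfl (by rw [r1 10 le_rfl, e1]) (by rw [r2 10 le_rfl, e2])]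
    decide +kernel
  have hprof : Pf (e 10 3) pE6 := nab_word10 D C h (by rw [e1]) (by rw [e2]) (by decide +kernel)
  have hup := low_up (t := t) (m := 5) h
  rw [hb]
  refine ⟨lowPart 10 (t : P), thC lo hi e E6t5, fun x => x = e 8 3, ?_⟩
  constructor
  · norm_num
  · norm_num
  · exact le_rfl
  · exact fun h => absurd h (by norm_num)
  · exact fun x hx y hxy => hup x y hxy hx
  · exact fun x hx => (mem_lowPart.mp hx).1
  · exact Finset.Subset.refl _
  · intro z x hl hz ho hzx _
    have hly : ∀ y, z ⋖ y → lev y = 10 := by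
      intro y hy
      have := (h.H.covBy_iff.mp hy).2
      omega
    have hx := hcell x (ho x hzx) (hly x hzx)
    refine Ow.pend ?_ (Or.inr (Or.inr ?_))
    · intro y hy
      rw [hx, hcell y (ho y hy) (hly y hy)]
    · rw [hx]
      exact ⟨hth, hprof⟩
  · intro z x hl _ hx hzx
    have := (h.H.covBy_iff.mp hzx).2
    have := (mem_lowPart.mp hx).2
    omega
  · intro x hxt hl _
    rw [hcell x hxt hl]
    exact En.e6 hth hprof
  · intro N HN hlow hN' θ' B' hθ hB
    refine compL_nat HN hN ?_ ?_ hθ hB 33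
    · intro x hx
      rw [hN'] at hx
      exact hx
    · intro x hx _
      rw [hN']
      exact hx
  · exact fun h => absurd h (by norm_num)

end Pool.Agent.GaussPoset.J10

end

/-! From `Pool.Agent.W_448j10_h67.JbM` -/

section

/-!
The components at the window 5, level 10: coded components (MP_448cb3_co).
-/

namespace Pool.Agent.GaussPoset.J10

set_option linter.unusedSectionVars false

open Polynomial Finset Dd Wd Cl J8 Sg

universe u

variable {P : Type u} [Fintype P] [PartialOrder P] [DecidableEq P] {r : ℕ}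
variable {t : Tops P} {lo hi : ℕ → ℕ} {e : ℕ → ℕ → P}
variable {N J0 : ℕ} {cv lv um th : ℕ → ℕ} {c : ℕ → P} {Us : List ℕ} {L : List Ent}

/-- the check of the pole of the complete mask `J0` -/
def poleC (N i w β : ℕ) (ρ : ℤ) (lv : ℕ → ℕ) (Us : List ℕ) (L : List Ent) (J0 : ℕ) : Bool :=
  (L.any fun y => Nat.beq y.1 w && Nat.beq y.2.2.1 J0 &&
    decide (sgn y.2.2.2.1 y.2.2.2.2.1 i * sc y.2.1 y.2.2.2.2.2.2 = ρ * (-1) ^ β)) &&
  (Us.any fun J => Nat.beq J J0) &&
  decide (((range N).filter (fun a => J0.testBit a = true ∧ lv a < i)).card = β) &&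
  decide (((range N).filter (fun a => J0.testBit a = true ∧ lv a = i)).card = 2)

/-- the value of a complete coded set -/
theorem CodM.pole' (C : CodM N J0 cv lv c) (hU : UsOK N cv Us) {B i K bm w β : ℕ} {ρ : ℤ}
    (h : polD N B K Us i (L.map Prod.snd) = true) (hm : mstC N K i lv Us bm L = true)
    (hp : poleC N i w β ρ lv Us L J0 = true) {S : Finset P}
    (hS : ∀ y, y ∈ S ↔ ∃ a, J0.testBit a = true ∧ c a = y)
    {f : Polynomial (PowerSeries ℤ)} (hf : ∀ n, exq n f = Z {y : P // y ∈ S} i n) :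
    Pl w 2 ρ f := by
  unfold poleC at hp
  simp only [Bool.and_eq_true, decide_eq_true_eq] at hp
  obtain ⟨⟨⟨h1, h2⟩, h3⟩, h4⟩ := hp
  rw [List.any_eq_true] at h1 h2
  obtain ⟨y, hy, h5⟩ := h1
  simp only [Bool.and_eq_true, decide_eq_true_eq] at h5
  obtain ⟨⟨h5, h6⟩, h7⟩ := h5
  obtain ⟨J, hJ, h8⟩ := h2
  have h5 := Nat.eq_of_beq_eq_true h5
  have h6 := Nat.eq_of_beq_eq_true h6
  have h8 := Nat.eq_of_beq_eq_true h8
  have := C.pole hU h hm hy (by rw [h6, ← h8]; exact hJ) h6 hS h3 h4 h7 hf
  rwa [h5] at this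

lemma Cx.above {S : Finset P} (C : Cx N J0 cv lv c S) : ∀ x ∈ S, ∀ y, x ≤ y → y ∈ S := by
  intro x hx y hxy
  rw [C.mem] at hx ⊢
  obtain ⟨a, ha, rfl⟩ := hx
  exact C.cod.above ha hxy

/-- **The data of a coded component.** -/
theorem tdCx {S : Finset P} (C : Cx N J0 cv lv c S) (hU : UsOK N cv Us) {B K bm K0 w a0 β : ℕ}
    {ρ : ℤ} (hth : thChk N 5 a0 lv cv um th = true) (ha0 : J0.testBit a0 = true)
    (h : polD N B K Us 5 (L.map Prod.snd) = true) (hm : mstC N K 5 lv Us bm L = true)
    (hw : mskC L J0 w = true) (hbn : Sm bm J0) (hbm : bmC N 5 a0 bm lv um = true)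
    (hw1 : 1 ≤ w) (hwK : w ≤ K0)
    (hp : w < K0 → poleC N 5 w β ρ lv Us L J0 = true)
    (hsg : w < K0 → (20 ≤ w ∧ w < 25 ∧ ρ < 0) ∨ (w = 27 ∧ 0 < ρ))
    (hlow : lowPart 10 (t : P) ⊆ S) (hle : ∀ x ∈ S, x ≤ (t : P))
    (hown : ∀ z x, lev z = 11 → z ∉ S → (∀ y, z ⋖ y → y ≤ (t : P)) → z ⋖ x →
      (∀ y, z ⋖ y → thM N J0 c th x ≤ thM N J0 c th y) → Ow K0 w t 2 (thM N J0 c th) z x)
    (hdeep : ∀ z x, 12 ≤ lev z → z ∉ S → x ∈ S → z ⋖ x →
      min K0 (w + 1) ≤ ct 5 (thM N J0 c th x + 1) z ∨ Cp7 (thM N J0 c th) z x)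
    (hends : ∀ x ≤ (t : P), lev x = 10 → (Win.uc x).card = 1 → En (thM N J0 c th) x) :
    TD K0 t 2 w ρ S (thM N J0 c th) (fun x => x = c a0) where
  b_one := by norm_num
  w_pos := hw1
  w_le := hwK
  sg := hsg
  up := C.above
  le_t := hle
  low := hlow
  own := hown
  deep := hdeep
  ends := hends
  data := by
    intro M HM _ hM θ' B' hθ hB
    have hl := C.cod.locL hU hth ha0 C.mem h hm hw hbn hbm
    rw [← hM] at hl
    exact hl.data HM θ' B' hθ hB
  pole := by
    intro hwK' M HM hM f hf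
    refine C.cod.pole' hU h hm (hp hwK') C.mem (f := f) fun n => ?_
    rw [hf n]
    have hiso : {x : P // x ∈ S} ≃o {x : {x : P // x ∉ unnat M} // topOf (x : P) = t} :=
      isoPart HM t (Finset.Subset.refl _) S (fun x => by
        rw [hM]
        constructor
        · intro hx
          exact ⟨hx, (HM.mem_iff.mp (by rw [hM]; exact hx)).1⟩
        · exact fun hx => hx.1)
    rw [Z_iso hiso]

/-- masks with bits added -/
lemma sm_lor {I J k : ℕ} (h : Sm I J) : Sm I (Nat.lor J (2 ^ k)) := fun a ha =>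
  bit_lor.mpr (Or.inl (h a ha))

/-- cost of an element with the cover `x` and another element `y` above -/
lemma ct_two {i k : ℕ} {z x y : P} (hzx : z < x) (hzy : z < y) (hxy : ¬ x ≤ y)
    (hk : k ≤ lev z - i) : ct i k x + k + min k (lev y - i) ≤ ct i k z := by
  classical
  rw [ct_succ i k z, ct_eq_sum, Nat.min_eq_left hk]
  have h1 : (∑ w, if x ≤ w then min k (lev w - i) else 0) + min k (lev y - i) ≤
      ∑ w, if z < w then min k (lev w - i) else 0 := by
    rw [← Finset.add_sum_erase univ (fun w => if z < w then min k (lev w - i) else 0)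
      (mem_univ y), if_pos hzy, ← Finset.add_sum_erase univ
      (fun w => if x ≤ w then min k (lev w - i) else 0) (mem_univ y), if_neg hxy, zero_add,
      Nat.add_comm]
    refine Nat.add_le_add_left (Finset.sum_le_sum fun w _ => ?_) _
    by_cases hw : x ≤ w
    · rw [if_pos hw, if_pos (hzx.trans_le hw)]
    · rw [if_neg hw]
      exact Nat.zero_le _
  omega

/-- cost of an element with the cover `x` and two other elements above -/
lemma ct_three {i k : ℕ} {z x y v : P} (hzx : z < x) (hzy : z < y) (hyv : y < v)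
    (hxy : ¬ x ≤ y) (hxv : ¬ x ≤ v) (hk : k ≤ lev z - i) :
    ct i k x + k + min k (lev y - i) + min k (lev v - i) ≤ ct i k z := by
  classical
  rw [ct_succ i k z, ct_eq_sum, Nat.min_eq_left hk]
  have hne : y ≠ v := hyv.ne
  have h1 : (∑ w, if x ≤ w then min k (lev w - i) else 0) + min k (lev y - i) +
      min k (lev v - i) ≤ ∑ w, if z < w then min k (lev w - i) else 0 := by
    have hv : v ∈ univ.erase y := mem_erase.mpr ⟨hne.symm, mem_univ _⟩
    rw [← Finset.add_sum_erase univ (fun w => if z < w then min k (lev w - i) else 0)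
      (mem_univ y), if_pos hzy, ← Finset.add_sum_erase univ
      (fun w => if x ≤ w then min k (lev w - i) else 0) (mem_univ y), if_neg hxy, zero_add,
      ← Finset.add_sum_erase (univ.erase y) (fun w => if z < w then min k (lev w - i) else 0)
      hv, if_pos (hzy.trans hyv), ← Finset.add_sum_erase (univ.erase y)
      (fun w => if x ≤ w then min k (lev w - i) else 0) hv, if_neg hxv, zero_add]
    have h2 : (∑ w ∈ (univ.erase y).erase v, if x ≤ w then min k (lev w - i) else 0) ≤
        ∑ w ∈ (univ.erase y).erase v, if z < w then min k (lev w - i) else 0 := by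
      refine Finset.sum_le_sum fun w _ => ?_
      by_cases hw : x ≤ w
      · rw [if_pos hw, if_pos (hzx.trans_le hw)]
      · rw [if_neg hw]
        exact Nat.zero_le _
    omega
  omega

end Pool.Agent.GaussPoset.J10

end

/-! From `Pool.Agent.W_448j10_h67.JbN` -/

section

/-!
The components at the window 5, level 10: `E7` (MP_448cb3_co).
-/

namespace Pool.Agent.GaussPoset.J10

set_option linter.unusedSectionVars false

open Polynomial Finset Dd Wd Cl J8 Sg

universe u

variable {P : Type u} [Fintype P] [PartialOrder P] [DecidableEq P] {r : ℕ}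
variable {t : Tops P} {lo hi : ℕ → ℕ} {e : ℕ → ℕ → P}

section

variable {N J0 : ℕ} {cv lv um th : ℕ → ℕ} {c : ℕ → P} {Us : List ℕ}

/-- the mask of a cell from its covers -/
lemma CodM.cv_eq (C : CodM N J0 cv lv c) {a m : ℕ} (ha : J0.testBit a = true) (hm : Sm m J0)
    (hz : Cvs c m (c a)) : cv a = m := by
  have hs : Sm (cv a) J0 := sm_iff.mp (C.clo a ha)
  refine Nat.eq_of_testBit_eq fun b => ?_
  rw [Bool.eq_iff_iff]
  constructor
  · intro hb
    obtain ⟨d, hd, h1⟩ := (hz (c b)).mp ((C.cov a ha (c b)).mpr ⟨b, hs b hb, hb, rfl⟩)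
    rwa [← C.inj d (hm d hd) b (hs b hb) h1]
  · intro hb
    obtain ⟨d, hd, hd2, h1⟩ := (C.cov a ha (c b)).mp ((hz (c b)).mpr ⟨b, hb, rfl⟩)
    rwa [← C.inj d hd b (hm b hb) h1]

/-- one cover -/
lemma cvs_one {k : ℕ} {z : P} : Cvs c (2 ^ k) z ↔ ∀ y, z ⋖ y ↔ y = c k := by
  unfold Cvs
  refine forall_congr' fun y => ?_
  have : (∃ b, (2 ^ k).testBit b = true ∧ c b = y) ↔ y = c k := by
    constructor
    · rintro ⟨b, hb, rfl⟩
      by_cases h : k = b
      · rw [h]
      · rw [Nat.testBit_two_pow_of_ne h] at hb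
        exact absurd hb (by simp)
    · rintro rfl
      exact ⟨k, Nat.testBit_two_pow_self, rfl⟩
  rw [this]

/-- two covers -/
lemma cvs_two {k l : ℕ} {z : P} :
    Cvs c (Nat.lor (2 ^ k) (2 ^ l)) z ↔ ∀ y, z ⋖ y ↔ (y = c k ∨ y = c l) := by
  unfold Cvs
  refine forall_congr' fun y => ?_
  have : (∃ b, (Nat.lor (2 ^ k) (2 ^ l)).testBit b = true ∧ c b = y) ↔ (y = c k ∨ y = c l) := by
    constructor
    · rintro ⟨b, hb, rfl⟩
      rcases bit_lor.mp hb with h | h
      · by_cases h' : k = b
        · left; rw [h']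
        · rw [Nat.testBit_two_pow_of_ne h'] at h
          exact absurd h (by simp)
      · right; rw [h]
    · rintro (rfl | rfl)
      · exact ⟨k, bit_lor.mpr (Or.inl Nat.testBit_two_pow_self), rfl⟩
      · exact ⟨l, bit_lor.mpr (Or.inr rfl), rfl⟩
  rw [this]

/-- at most two more cells of one type, short form -/
theorem Cx.ins2' {S : Finset P} (C : Cx N J0 cv lv c S) {k k' m l : ℕ} (hk : k < N)
    (hk' : k' < N) (hne : k ≠ k') (hkJ : J0.testBit k = false) (hkJ' : J0.testBit k' = false)
    (hm : cv k = m) (hm' : cv k' = m) (hl : lv k = l) (hl' : lv k' = l) (hcv : Sm m J0)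
    {T : Finset P} (hT : T.card ≤ 2) (hTS : ∀ z ∈ T, z ∉ S)
    (hTc : ∀ z ∈ T, GaussPoset.lev z = l ∧ Cvs c m z) :
    ∃ (c' : ℕ → P) (J' : ℕ), (∀ a, J0.testBit a = true → c' a = c a) ∧
      Cx N J' cv lv c' (S ∪ T) ∧ (J' = J0 ∨ J' = Nat.lor J0 (2 ^ k) ∨
      J' = Nat.lor (Nat.lor J0 (2 ^ k)) (2 ^ k')) := by
  obtain ⟨c', J', h1, h2, h3⟩ := C.ins2 hk hk' hne hkJ hkJ' hm hm' hl hl' hcv hT hTS hTc
  refine ⟨c', J', h1, h2, ?_⟩
  rcases h3 with ⟨-, h3⟩ | ⟨z, -, h3, -⟩ | ⟨z, z', -, -, h3, -⟩
  · exact Or.inl h3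
  · exact Or.inr (Or.inl h3)
  · exact Or.inr (Or.inr h3)

/-- at most one more cell of one type, short form -/
theorem Cx.ins1' {S : Finset P} (C : Cx N J0 cv lv c S) {k m l : ℕ} (hk : k < N)
    (hkJ : J0.testBit k = false) (hm : cv k = m) (hl : lv k = l) (hcv : Sm m J0)
    {T : Finset P} (hT : T.card ≤ 1) (hTS : ∀ z ∈ T, z ∉ S)
    (hTc : ∀ z ∈ T, GaussPoset.lev z = l ∧ Cvs c m z) :
    ∃ (c' : ℕ → P) (J' : ℕ), (∀ a, J0.testBit a = true → c' a = c a) ∧
      Cx N J' cv lv c' (S ∪ T) ∧ (J' = J0 ∨ J' = Nat.lor J0 (2 ^ k)) := by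
  obtain ⟨c', J', h1, h2, h3⟩ := C.ins1 hk hkJ hm hl hcv hT hTS hTc
  refine ⟨c', J', h1, h2, ?_⟩
  rcases h3 with ⟨-, h3⟩ | ⟨z, -, h3, -⟩
  · exact Or.inl h3
  · exact Or.inr h3

/-- elements with the covers of a mask with a bit: at most two -/
lemma tyS_card (H : Gr P r) {m l k : ℕ} (hk : m.testBit k = true) : (tyS c m l).card ≤ 2 := by
  classical
  refine (Finset.card_le_card (t := Win.dc (c k)) fun y hy => ?_).trans (Win.dc_card_le H _)
  rw [Win.mem_dc]
  exact ((mem_tyS.mp hy).2 (c k)).mpr ⟨k, hk, rfl⟩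

/-- the cost above a cell -/
lemma CodM.ct_cell (C : CodM N J0 cv lv c) (hcv : ∀ a < N, cv a < 2 ^ a)
    (hum : ∀ a < N, um a = Nat.lor (2 ^ a) (orM um N (cv a))) {a : ℕ}
    (ha : J0.testBit a = true) (i k : ℕ) :
    ct i k (c a) = min k (lv a - i) + ∑ b ∈ (range N).filter
      (fun b => (orM um N (cv a)).testBit b = true ∧ J0.testBit b = true), min k (lv b - i) := by
  have h1 := C.ct_of hcv hum (z := c a) (m := cv a) (sm_iff.mp (C.clo a ha)) (fun y => by
    rw [C.cov a ha y]
    constructor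
    · rintro ⟨b, -, h2, h3⟩
      exact ⟨b, h2, h3⟩
    · rintro ⟨b, h2, h3⟩
      exact ⟨b, sm_iff.mp (C.clo a ha) b h2, h2, h3⟩) i k
  rw [h1, C.lev a ha]

end

/-- the cells of `E7` -/
def ce7 (e : ℕ → ℕ → P) (a : ℕ) : P := e (E7lv.getD a 0) (E7sl.getD a 0)

/-- the masks of `E7` with pendants and common children -/
def E7M : List ℕ := [524287, 1048575, 2097151, 2621439, 3145727, 4194303, 6815743, 7340031,
  8388607]

lemma E7M_chk : ∀ J ∈ E7M, mskC McL J (if J.testBit 20 then 27 else 33) = true ∧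
    (J.testBit 20 = true → poleC 23 5 27 6 1 (fun a => Mclv.getD a 0) Mcus McL J = true) ∧
    Nat.land 94207 J = 94207 ∧ Nat.land 524287 J = 524287 := by decide +kernel

lemma E7M_ct : ∀ J ∈ E7M, (∀ a ∈ [19, 20], min 4 (Mclv.getD a 0 - 5) +
      ∑ b ∈ (range 23).filter (fun b => (orM (fun a => Mcum.getD a 0) 23
        (Mccv.getD a 0)).testBit b = true ∧ J.testBit b = true), min 4 (Mclv.getD b 0 - 5) = 24) ∧
    (∀ a ∈ [21, 22], min 3 (Mclv.getD a 0 - 5) +
      ∑ b ∈ (range 23).filter (fun b => (orM (fun a => Mcum.getD a 0) 23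
        (Mccv.getD a 0)).testBit b = true ∧ J.testBit b = true),
        min 3 (Mclv.getD b 0 - 5) = 30) := by decide +kernel

lemma E7_rows10 : losW 4 w7 10 = 3 ∧ hisW 4 w7 10 = 4 ∧ losW 4 w7 9 = 3 ∧ hisW 4 w7 9 = 4 ∧
    losW 4 w7 8 = 2 ∧ hisW 4 w7 8 = 4 ∧ losW 4 w7 7 = 2 ∧ hisW 4 w7 7 = 3 ∧
    losW 4 w7 5 = 0 ∧ hisW 4 w7 5 = 1 := by decide +kernel

/-- the code of `E7` with elements of the level 11 -/
theorem E7_cx (h : Win.GoodTo P r 10) (C : Cp.Comp 10 (t : P) lo hi e)
    (D : WordD 10 4 w7 lo hi) : ∃ c J S, Cx 23 J (fun a => Mccv.getD a 0)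
      (fun a => Mclv.getD a 0) c S ∧ J ∈ E7M ∧ (∀ a < 19, c a = ce7 e a) ∧
      S = lowPart 10 (t : P) ∪ tyS c 131072 11 ∪ tyS c 393216 11 := by
  classical
  obtain ⟨r1, r2⟩ := D.rows C
  have hcod : Cod 19 (fun a => E7cv.getD a 0) (fun a => E7lv.getD a 0) (ce7 e) :=
    E7_strip.cod C h.H h.good t.2 (j := 10) (by norm_num) r1 r2
  have hle : ∀ a < 19, ce7 e a ∈ lowPart 10 (t : P) := by
    intro a ha
    have h3 := E7_strip.row a (by omega)
    have h4 : ∀ a < 19, E7lv.getD a 0 ≤ 10 := by decide +kernel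
    have h4 := h4 a ha
    rw [← r1 _ h4, ← r2 _ h4] at h3
    rw [mem_lowPart]
    unfold ce7
    rw [C.lev_e _ _ h4 h3.1 h3.2]
    exact ⟨C.le_t _ _ h4 h3.1 h3.2, h4⟩
  have C0 : Cx 23 (2 ^ 19 - 1) (fun a => Mccv.getD a 0) (fun a => Mclv.getD a 0) (ce7 e)
      (lowPart 10 (t : P)) := by
    refine Cx.ofCod (n := 19) hcod (by norm_num) (by decide +kernel) (by decide +kernel)
      (by decide +kernel) ?_
    intro x
    constructor
    · intro hx
      exact E7_strip.surj' C (j := 10) (by norm_num) r1 r2 hx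
    · rintro ⟨a, ha, rfl⟩
      exact hle a ha
  have hb19 : ∀ a, (524287 : ℕ).testBit a = true ↔ a < 19 := by
    intro a
    rw [show 524287 = 2 ^ 19 - 1 by norm_num, Nat.testBit_two_pow_sub_one]
    simp
  rw [show 2 ^ 19 - 1 = 524287 by norm_num] at C0
  have hS11 : ∀ {c : ℕ → P} {m : ℕ}, ∀ z ∈ tyS c m 11, z ∉ lowPart 10 (t : P) := by
    intro c m z hz hlow
    have h1 := (mem_tyS.mp hz).1
    have h2 := (mem_lowPart.mp hlow).2
    omega
  obtain ⟨c1, J1, a1, C1, j1⟩ := C0.ins2' (k := 19) (k' := 20) (m := 131072) (l := 11)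
    (by norm_num) (by norm_num) (by norm_num) (by decide) (by decide) (by decide +kernel)
    (by decide +kernel) (by decide +kernel) (by decide +kernel)
    (sm_iff.mp (by decide)) (T := tyS (ce7 e) 131072 11)
    (tyS_card h.H (k := 17) (by decide)) hS11 (fun z hz => mem_tyS.mp hz)
  have hJ1 : J1 ∈ [524287, 1048575, 2097151] := by
    rcases j1 with rfl | rfl | rfl <;> decide
  have hJ1b : ∀ J ∈ [524287, 1048575, 2097151], J.testBit 21 = false ∧ J.testBit 22 = false ∧
      Nat.land 524287 J = 524287 := by decide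
  obtain ⟨b1, b2, b3⟩ := hJ1b J1 hJ1
  have b3' := sm_iff.mp b3
  have hc1 : ∀ a < 19, c1 a = ce7 e a := fun a ha => a1 a ((hb19 a).mpr ha)
  obtain ⟨c2, J2, a2, C2, j2⟩ := C1.ins2' (k := 21) (k' := 22) (m := 393216) (l := 11)
    (by norm_num) (by norm_num) (by norm_num) b1 b2 (by decide +kernel)
    (by decide +kernel) (by decide +kernel) (by decide +kernel)
    ((sm_iff.mp (by decide)).trans b3') (T := tyS c1 393216 11)
    (tyS_card h.H (k := 17) (by decide)) (by
      intro z hz hz'
      rw [mem_union] at hz'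
      rcases hz' with hz' | hz'
      · exact hS11 z hz hz'
      · have e1 := (mem_tyS.mp hz).2
        have e2 := (mem_tyS.mp hz').2
        have e3 := (e1 (c1 18)).mpr ⟨18, by decide, rfl⟩
        obtain ⟨b, hb, hbc⟩ := (e2 (c1 18)).mp e3
        rw [hc1 18 (by norm_num)] at hbc
        have hb17 : b = 17 := by
          by_contra hne
          rw [show (131072 : ℕ) = 2 ^ 17 by norm_num, Nat.testBit_two_pow_of_ne
            (Ne.symm hne)] at hb
          exact absurd hb (by simp)
        rw [hb17] at hbc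
        have := hcod.inj 17 (by norm_num) 18 (by norm_num) hbc
        omega) (fun z hz => mem_tyS.mp hz)
  have hc2 : ∀ a < 19, c2 a = ce7 e a := fun a ha => by
    rw [a2 a (b3' a ((hb19 a).mpr ha)), hc1 a ha]
  refine ⟨c2, J2, _, C2, ?_, hc2, ?_⟩
  · rcases j1 with rfl | rfl | rfl <;> rcases j2 with rfl | rfl | rfl <;> decide
  · have hbit : ∀ m, m < 2 ^ 19 → ∀ a, m.testBit a = true → a < 19 := fun m hm a ha => by
      by_contra hcon
      rw [Nat.testBit_lt_two_pow (lt_of_lt_of_le hm (Nat.pow_le_pow_right (by norm_num)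
        (by omega)))] at ha
      exact absurd ha (by simp)
    rw [tyS_congr (c := ce7 e) (c' := c2) (m := 131072) (fun a ha => hc2 a
      (hbit _ (by norm_num) a ha)), tyS_congr (c := c1) (c' := c2) (m := 393216)
      (fun a ha => by
        have := hbit _ (by norm_num) a ha
        rw [hc2 a this, hc1 a this])]

end Pool.Agent.GaussPoset.J10

end

/-! From `Pool.Agent.W_448j10_h67.JbP` -/

section

/-!
The components at the window 5, level 10: data of `E7` (MP_448cb3_co).
-/

namespace Pool.Agent.GaussPoset.J10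

set_option linter.unusedSectionVars false

open Polynomial Finset Dd Wd Cl J8 Sg

universe u

variable {P : Type u} [Fintype P] [PartialOrder P] [DecidableEq P] {r : ℕ}
variable {t : Tops P} {lo hi : ℕ → ℕ} {e : ℕ → ℕ → P}

/-- cost of an element with the cover `x` -/
lemma ct_one {i k : ℕ} {z x : P} (hzx : z < x) (hk : k ≤ lev z - i) : ct i k x + k ≤ ct i k z := by
  classical
  rw [ct_succ i k z, ct_eq_sum, Nat.min_eq_left hk, Nat.add_comm]
  refine Nat.add_le_add_left (Finset.sum_le_sum fun w _ => ?_) _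
  by_cases hw : x ≤ w
  · rw [if_pos hw, if_pos (hzx.trans_le hw)]
  · rw [if_neg hw]
    exact Nat.zero_le _

/-- numbers above an element with one cover -/
lemma nab_one_cov {z x : P} (hx : ∀ y, z ⋖ y → y = x) (hzx : z ⋖ x) {k : ℕ} (hk : k < lev z) :
    nab k z = nab k x := by
  classical
  unfold nab
  congr 1
  ext y
  simp only [mem_filter, mem_lv]
  constructor
  · rintro ⟨h1, h2⟩
    refine ⟨h1, ?_⟩
    have h3 : z < y := lt_of_le_of_ne h2 (by rintro rfl; omega)
    obtain ⟨v, hv, hvy⟩ := Hul.exists_cov h3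
    rw [← hx v hv]
    exact hvy
  · rintro ⟨h1, h2⟩
    exact ⟨h1, hzx.le.trans h2⟩

/-- an element of the level 11 with covers in two cells -/
lemma one_of_two {z a b : P} (hz : ∃ y, z ⋖ y) (h : ∀ y, z ⋖ y → y = a ∨ y = b) :
    (∀ y, z ⋖ y ↔ y = a) ∨ (∀ y, z ⋖ y ↔ y = b) ∨ (∀ y, z ⋖ y ↔ (y = a ∨ y = b)) := by
  by_cases ha : z ⋖ a
  · by_cases hb : z ⋖ b
    · right; right
      intro y
      exact ⟨h y, by rintro (rfl | rfl) <;> assumption⟩
    · left
      intro y
      constructor
      · intro hy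
        rcases h y hy with h1 | h1
        · exact h1
        · rw [h1] at hy
          exact absurd hy hb
      · rintro rfl
        exact ha
  · right; left
    intro y
    constructor
    · intro hy
      rcases h y hy with h1 | h1
      · rw [h1] at hy
        exact absurd hy ha
      · exact h1
    · rintro rfl
      obtain ⟨v, hv⟩ := hz
      rcases h v hv with h1 | h1
      · rw [h1] at hv
        exact absurd hv ha
      · rwa [h1] at hv

/-- elements of positive level have covers -/
lemma cov_ex {z : P} (hz : 1 ≤ lev z) : ∃ y, z ⋖ y := by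
  have h1 : z < (topOf z : P) := lt_of_le_of_ne (le_topOf z) (by
    intro h
    have := (topOf z).2
    rw [← h] at this
    omega)
  obtain ⟨v, hv, -⟩ := Hul.exists_cov h1
  exact ⟨v, hv⟩

/-- the cells of a coded set -/
lemma Cx.cell {N J : ℕ} {cv lv : ℕ → ℕ} {c : ℕ → P} {S : Finset P} (C : Cx N J cv lv c S) {x : P}
    (hx : x ∈ S) : ∃ a < N, J.testBit a = true ∧ c a = x ∧ lev x = lv a := by
  obtain ⟨a, ha, rfl⟩ := (C.mem x).mp hx
  exact ⟨a, bit_lt C.cod.lt ha, ha, rfl, C.cod.lev a ha⟩

/-- the cells of one type -/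
lemma Cx.cell_ty {N J : ℕ} {cv lv : ℕ → ℕ} {c : ℕ → P} {S : Finset P} (C : Cx N J cv lv c S)
    {m l : ℕ} (hm : Sm m J) {x : P} (hx : x ∈ S) (hxt : x ∈ tyS c m l) :
    ∃ a < N, J.testBit a = true ∧ c a = x ∧ lv a = l ∧ cv a = m := by
  obtain ⟨a, h1, h2, rfl, h3⟩ := C.cell hx
  have h4 := mem_tyS.mp hxt
  exact ⟨a, h1, h2, rfl, by rw [← h3, h4.1], C.cod.cv_eq h2 hm h4.2⟩

lemma thChk_um {N i a0 : ℕ} {lv cv um th : ℕ → ℕ} (hth : thChk N i a0 lv cv um th = true) :
    ∀ a < N, um a = Nat.lor (2 ^ a) (orM um N (cv a)) := by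
  unfold thChk at hth
  simp only [Bool.and_eq_true, List.all_eq_true, List.mem_range, Bool.or_eq_true, ble_iff,
    beq_iff, Nat.blt_eq, Bool.not_eq_true'] at hth
  exact hth.1.1

/-- an inner element of the last row has two covers -/
lemma two_up (C : Cp.Comp 10 (t : P) lo hi e) {s : ℕ} (h1 : lo 10 ≤ s) (h2 : s ≤ hi 10)
    (h3 : lo 9 < s) (h4 : s ≤ hi 9) : (Win.uc (e 10 s)).card ≠ 1 := by
  intro hcon
  obtain ⟨q, hq⟩ := Finset.card_eq_one.mp hcon
  have c1 : e 10 s ⋖ e 9 s := (C.cov 9 s s (by norm_num) h1 h2 (by omega) h4).mpr (Or.inl rfl)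
  have c2 : e 10 s ⋖ e 9 (s - 1) := (C.cov 9 s (s - 1) (by norm_num) h1 h2 (by omega)
    (by omega)).mpr (Or.inr (by omega))
  rw [← Win.mem_uc, hq, mem_singleton] at c1 c2
  have := C.inj 9 s (s - 1) (by norm_num) (by omega) h4 (by omega) (by omega) (c1.trans c2.symm)
  omega

/-- the cells of the level `11` of `E7` -/
lemma E7_cells : ∀ a < 23, (Mclv.getD a 0 = 11 → Mccv.getD a 0 = 131072 → a = 19 ∨ a = 20) ∧
    (Mclv.getD a 0 = 11 → Mccv.getD a 0 = 393216 → a = 21 ∨ a = 22) := by decide +kernel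

/-- the data of the strip `E7` at the level 10 -/
theorem tdE7 (h : Win.GoodTo P r 10) (C : Cp.Comp 10 (t : P) lo hi e)
    (D : WordD 10 4 w7 lo hi) : ∃ w ρ S θ B, TD 33 t (hi 5 - lo 5 + 1) w ρ S θ B := by
  classical
  obtain ⟨c, J, S, C1, hJ, hc, hS⟩ := E7_cx h C D
  obtain ⟨m1, m2, m3, m4⟩ := E7M_chk J hJ
  obtain ⟨k1, k2⟩ := E7M_ct J hJ
  obtain ⟨r1, r2⟩ := D.rows C
  obtain ⟨e1, e2, e3, e4, e5, e6, e7, e8, e9, e10⟩ := E7_rows10
  have l10 : lo 10 = 3 := by rw [r1 10 le_rfl, e1]
  have u10 : hi 10 = 4 := by rw [r2 10 le_rfl, e2]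
  have l9 : lo 9 = 3 := by rw [r1 9 (by norm_num), e3]
  have u9 : hi 9 = 4 := by rw [r2 9 (by norm_num), e4]
  have l8 : lo 8 = 2 := by rw [r1 8 (by norm_num), e5]
  have u8 : hi 8 = 4 := by rw [r2 8 (by norm_num), e6]
  have l7 : lo 7 = 2 := by rw [r1 7 (by norm_num), e7]
  have u7 : hi 7 = 3 := by rw [r2 7 (by norm_num), e8]
  have hb : hi 5 - lo 5 + 1 = 2 := by
    rw [r1 5 (by norm_num), r2 5 (by norm_num), e9, e10]
  have m4' := sm_iff.mp m4
  have hbit : ∀ a < 19, J.testBit a = true := fun a ha => m4' a (by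
    rw [show 524287 = 2 ^ 19 - 1 by norm_num, Nat.testBit_two_pow_sub_one]
    simpa using ha)
  have c17 : c 17 = e 10 3 := hc 17 (by norm_num)
  have c18 : c 18 = e 10 4 := hc 18 (by norm_num)
  have hcell : ∀ x, x ≤ (t : P) → lev x = 10 → x = c 17 ∨ x = c 18 := by
    intro x hx hl
    obtain ⟨s, s1, s2, hs⟩ := C.surj x hx hl.le
    rw [hl] at s1 s2 hs
    rcases (show s = 3 ∨ s = 4 by omega) with h1 | h1
    · left; rw [c17, ← hs, h1]
    · right; rw [c18, ← hs, h1]
  have hUS := Mc_us
  have hct : ∀ a < 23, J.testBit a = true → ∀ k, ct 5 k (c a) = min k (Mclv.getD a 0 - 5) +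
      ∑ b ∈ (range 23).filter (fun b => (orM (fun a => Mcum.getD a 0) 23
        (Mccv.getD a 0)).testBit b = true ∧ J.testBit b = true),
        min k (Mclv.getD b 0 - 5) := fun a _ ha k =>
    C1.cod.ct_cell hUS.cv (thChk_um Mc_th) ha 5 k
  have hS1 : tyS c 131072 11 ⊆ S := by
    rw [hS]
    exact Finset.subset_union_right.trans Finset.subset_union_left
  have hS2 : tyS c 393216 11 ⊆ S := by
    rw [hS]
    exact Finset.subset_union_right
  have hSl : lowPart 10 (t : P) ⊆ S := by
    rw [hS]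
    exact Finset.subset_union_left.trans Finset.subset_union_left
  have hm17 : Sm 131072 J := by
    refine Sm.trans (sm_iff.mp (by decide)) m4'
  have hm18 : Sm 393216 J := by
    refine Sm.trans (sm_iff.mp (by decide)) m4'
  have q1 : ∀ x ∈ tyS c 131072 11, ∃ a, J.testBit a = true ∧ c a = x ∧ (a = 19 ∨ a = 20) := by
    intro x hx
    obtain ⟨a, h1, h2, h3, h4, h5⟩ := C1.cell_ty hm17 (hS1 hx) hx
    exact ⟨a, h2, h3, (E7_cells a h1).1 h4 h5⟩
  have q2 : ∀ x ∈ tyS c 393216 11, ∃ a, J.testBit a = true ∧ c a = x ∧ (a = 21 ∨ a = 22) := by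
    intro x hx
    obtain ⟨a, h1, h2, h3, h4, h5⟩ := C1.cell_ty hm18 (hS2 hx) hx
    exact ⟨a, h2, h3, (E7_cells a h1).2 h4 h5⟩
  -- thresholds and costs
  have t1 : ∀ x ∈ tyS c 131072 11, thM 23 J c (fun a => Mcth.getD a 0) x = 3 ∧
      ct 5 4 x = 24 := by
    intro x hx
    obtain ⟨a, h2, rfl, h3⟩ := q1 x hx
    rw [thM_c C1.cod _ h2, hct a (by omega) h2 4]
    refine ⟨?_, k1 a (by rcases h3 with rfl | rfl <;> simp)⟩
    rcases h3 with rfl | rfl <;> rfl
  have t2 : ∀ x ∈ tyS c 393216 11, thM 23 J c (fun a => Mcth.getD a 0) x = 2 ∧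
      ct 5 3 x = 30 := by
    intro x hx
    obtain ⟨a, h2, rfl, h3⟩ := q2 x hx
    rw [thM_c C1.cod _ h2, hct a (by omega) h2 3]
    refine ⟨?_, k2 a (by rcases h3 with rfl | rfl <;> simp)⟩
    rcases h3 with rfl | rfl <;> rfl
  have t17 : thM 23 J c (fun a => Mcth.getD a 0) (c 17) = 2 := by
    rw [thM_c C1.cod _ (hbit 17 (by norm_num))]
    rfl
  have hprof : Pf (c 17) pE7 := by
    rw [c17]
    exact nab_word10 D C h (by rw [e1]) (by rw [e2]; norm_num) (by decide +kernel)
  have hcovI : ∀ (m : ℕ) (z : P), Cvs c m z ↔ ∀ y, z ⋖ y ↔ ∃ b, m.testBit b = true ∧ c b = y :=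
    fun m z => Iff.rfl
  -- types of the elements of level 11
  have ty : ∀ z, lev z = 11 → (∀ y, z ⋖ y → y ≤ (t : P)) →
      z ∈ tyS c 131072 11 ∨ z ∈ tyS c 393216 11 := by
    intro z hl hz
    have hly : ∀ y, z ⋖ y → lev y = 10 := by
      intro y hy
      have := (h.H.covBy_iff.mp hy).2
      omega
    rcases one_of_two (cov_ex (z := z) (by omega)) (fun y hy => hcell y (hz y hy) (hly y hy))
      with h1 | h1 | h1
    · left
      rw [mem_tyS]
      exact ⟨hl, by rw [show (131072 : ℕ) = 2 ^ 17 by norm_num]; exact cvs_one.mpr h1⟩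
    · exfalso
      have hS9 := (Win.near_level' (i := 9) h (by norm_num)).2 t lo hi e t.2 C.toWin
      have hp : (Win.pen (e (9 + 1) 4)).card = 0 := by
        rcases hS9 with ⟨-, -, g⟩ | ⟨g, -, -⟩ | ⟨g, -, -⟩
        · exact g 4 (by omega) (by omega)
        · have := g.2.1
          norm_num at this
          omega
        · have := g.2.1
          norm_num at this
          omega
      have hz18 : z ∈ Win.pen (e (9 + 1) 4) := by
        rw [Win.mem_pen]
        refine ⟨?_, ?_⟩
        · show z ⋖ e 10 4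
          rw [← c18]
          exact (h1 _).mpr rfl
        · rw [Finset.card_eq_one]
          refine ⟨c 18, ?_⟩
          ext y
          rw [Win.mem_uc, mem_singleton]
          exact h1 y
      rw [Finset.card_eq_zero.mp hp] at hz18
      exact absurd hz18 (Finset.notMem_empty _)
    · right
      rw [mem_tyS]
      refine ⟨hl, ?_⟩
      rw [show (393216 : ℕ) = Nat.lor (2 ^ 18) (2 ^ 17) by decide]
      rw [cvs_two]
      intro y
      rw [h1 y, or_comm]
  have hle : ∀ x ∈ S, x ≤ (t : P) := by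
    intro x hx
    rw [hS, mem_union, mem_union] at hx
    have h17 : c 17 ≤ (t : P) := by
      rw [c17]
      exact C.le_t 10 3 le_rfl (by omega) (by omega)
    rcases hx with (hx | hx) | hx
    · exact (mem_lowPart.mp hx).1
    · exact (((mem_tyS.mp hx).2 (c 17)).mpr ⟨17, by decide, rfl⟩).le.trans h17
    · exact (((mem_tyS.mp hx).2 (c 17)).mpr ⟨17, by decide, rfl⟩).le.trans h17
  rw [hb]
  refine ⟨if J.testBit 20 then 27 else 33, 1, S, thM 23 J c (fun a => Mcth.getD a 0),
    fun x => x = c 16, ?_⟩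
  refine tdCx (β := 6) C1 hUS Mc_th (hbit 16 (by norm_num)) Mc_pol Mc_mst m1 (sm_iff.mp m3)
    Mc_bm (by split_ifs <;> norm_num) (by split_ifs <;> norm_num) ?_ ?_ hSl hle ?_ ?_ ?_
  · intro hlt
    have h20 : J.testBit 20 = true := by
      by_contra hcon
      rw [if_neg hcon] at hlt
      exact absurd hlt (by norm_num)
    rw [if_pos h20]
    exact m2 h20
  · intro hlt
    have h20 : J.testBit 20 = true := by
      by_contra hcon
      rw [if_neg hcon] at hlt
      exact absurd hlt (by norm_num)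
    rw [if_pos h20]
    exact Or.inr ⟨rfl, by norm_num⟩
  · intro z x hl hz ho _ _
    rcases ty z hl ho with h1 | h1
    · exact absurd (hS1 h1) hz
    · exact absurd (hS2 h1) hz
  · intro z x hl hz hx hzx
    have hlz := (h.H.covBy_iff.mp hzx).2
    have hx' : x ∈ tyS c 131072 11 ∨ x ∈ tyS c 393216 11 := by
      rw [hS, mem_union, mem_union] at hx
      rcases hx with (hx | hx) | hx
      · have := (mem_lowPart.mp hx).2
        omega
      · exact Or.inl hx
      · exact Or.inr hx
    have hlx : lev x = 11 := by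
      rcases hx' with h1 | h1
      · exact (mem_tyS.mp h1).1
      · exact (mem_tyS.mp h1).1
    rcases hx' with h1 | h1
    · obtain ⟨f1, f2⟩ := t1 x h1
      rw [f1]
      by_cases ho : ∀ y, z ⋖ y → y = x
      · right
        have hx17 : x ⋖ c 17 := ((mem_tyS.mp h1).2 (c 17)).mpr ⟨17, by decide, rfl⟩
        have hx17' : ∀ y, x ⋖ y → y = c 17 := by
          have h2 := (mem_tyS.mp h1).2
          rw [show (131072 : ℕ) = 2 ^ 17 by norm_num, cvs_one] at h2
          exact fun y hy => (h2 y).mp hy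
        have hl17 : lev (c 17) = 10 := C1.cod.lev 17 (hbit 17 (by norm_num))
        refine ⟨by omega, ho, f1, ?_, ?_⟩
        · intro k hk
          rw [nab_one_cov hx17' hx17 (by omega)]
          exact hprof k hk
        · rw [nab_one_cov hx17' hx17 (by omega)]
          have := nab_self (z := c 17)
          rwa [hl17] at this
      · left
        push Not at ho
        obtain ⟨y, hy, hyx⟩ := ho
        have hly : lev y = 11 := by
          have := (h.H.covBy_iff.mp hy).2
          omega
        have hxy : ¬ x ≤ y := by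
          intro hcon
          rcases eq_or_lt_of_le hcon with h2 | h2
          · exact hyx h2.symm
          · have := lev_strictAnti h2
            omega
        by_cases h2 : y ∈ tyS c 131072 11
        · have h20 : J.testBit 20 = true := by
            obtain ⟨a, a1, a2, a3⟩ := q1 x h1
            obtain ⟨b, b1, b2, b3⟩ := q1 y h2
            rcases a3 with rfl | rfl
            · rcases b3 with rfl | rfl
              · exact absurd (b2.symm.trans a2) hyx
              · exact b1
            · exact a1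
          rw [if_pos h20]
          have h3 := ct_two (i := 5) (k := 4) hzx.1 hy.1 hxy (by omega)
          rw [f2, hly] at h3
          norm_num at h3 ⊢
          omega
        · have h3 : ∃ v, y ⋖ v ∧ v ≠ c 17 := by
            by_contra hcon
            push Not at hcon
            refine h2 (mem_tyS.mpr ⟨hly, ?_⟩)
            rw [show (131072 : ℕ) = 2 ^ 17 by norm_num, cvs_one]
            intro v
            constructor
            · exact hcon v
            · rintro rfl
              obtain ⟨v, hv⟩ := cov_ex (z := y) (by omega)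
              rwa [hcon v hv] at hv
          obtain ⟨v, hv, hv17⟩ := h3
          have hlv : lev v = 10 := by
            have := (h.H.covBy_iff.mp hv).2
            omega
          have hxv : ¬ x ≤ v := by
            intro hcon
            have h4 : x ⋖ v := by
              rw [h.H.covBy_iff]
              exact ⟨lt_of_le_of_ne hcon (by rintro rfl; omega), by omega⟩
            obtain ⟨b, b1, b2⟩ := ((mem_tyS.mp h1).2 v).mp h4
            have b3 : b = 17 := by
              by_contra hne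
              rw [show (131072 : ℕ) = 2 ^ 17 by norm_num, Nat.testBit_two_pow_of_ne
                (Ne.symm hne)] at b1
              exact absurd b1 (by simp)
            rw [b3] at b2
            exact hv17 b2.symm
          have h5 := ct_three (i := 5) (k := 4) hzx.1 hy.1 hv.1 hxy hxv (by omega)
          rw [f2, hly, hlv] at h5
          norm_num at h5 ⊢
          split_ifs <;> omega
    · left
      obtain ⟨f1, f2⟩ := t2 x h1
      rw [f1]
      have h3 := ct_one (i := 5) (k := 3) hzx.1 (by omega)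
      rw [f2] at h3
      norm_num at h3 ⊢
      split_ifs <;> omega
  · intro x hx hl hu
    rcases hcell x hx hl with h1 | h1
    · rw [h1]
      exact En.e7 t17 hprof
    · exfalso
      rw [h1, c18] at hu
      exact two_up C (s := 4) (by omega) (by omega) (by omega) (by omega) hu

end Pool.Agent.GaussPoset.J10

end

/-! From `Pool.Agent.W_448j10_h67.JbQ` -/

section

/-!
The components at the window 5, level 10: coded sets closed under types (MP_448cb3_co).
-/

namespace Pool.Agent.GaussPoset.J10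

set_option linter.unusedSectionVars false

open Polynomial Finset Dd Wd Cl J8 Sg

universe u

variable {P : Type u} [Fintype P] [PartialOrder P] [DecidableEq P] {r : ℕ}
variable {t : Tops P} {lo hi : ℕ → ℕ} {e : ℕ → ℕ → P}
variable {N J : ℕ} {cv lv um th : ℕ → ℕ} {c : ℕ → P}

/-- one set of covers has one mask -/
lemma CodM.mask_inj (C : CodM N J cv lv c) {m m' : ℕ} (hm : Sm m J) (hm' : Sm m' J) {z : P}
    (h : Cvs c m z) (h' : Cvs c m' z) : m = m' := by
  refine Nat.eq_of_testBit_eq fun b => ?_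
  rw [Bool.eq_iff_iff]
  constructor
  · intro hb
    obtain ⟨d, hd, h1⟩ := (h' (c b)).mp ((h (c b)).mpr ⟨b, hb, rfl⟩)
    rwa [← C.inj d (hm' d hd) b (hm b hb) h1]
  · intro hb
    obtain ⟨d, hd, h1⟩ := (h (c b)).mp ((h' (c b)).mpr ⟨b, hb, rfl⟩)
    rwa [← C.inj d (hm d hd) b (hm' b hb) h1]

/-- a coded set with all elements of some types -/
structure Fx (T0 : Finset P) (N J : ℕ) (cv lv : ℕ → ℕ) (c : ℕ → P) (S : Finset P)
    (Ms : List (ℕ × ℕ)) : Prop where
  cx : Cx N J cv lv c S
  mem : ∀ z, z ∈ S ↔ z ∈ T0 ∨ ∃ p ∈ Ms, Sm p.1 J ∧ z ∈ tyS c p.1 p.2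

/-- one more type, at most two cells -/
theorem Fx.step2 {T0 S : Finset P} {Ms : List (ℕ × ℕ)} (F : Fx T0 N J cv lv c S Ms)
    {k k' m l : ℕ} (hk : k < N) (hk' : k' < N) (hne : k ≠ k') (hkJ : J.testBit k = false)
    (hkJ' : J.testBit k' = false) (hm : cv k = m) (hm' : cv k' = m) (hl : lv k = l)
    (hl' : lv k' = l) (hT : Sm m J → (tyS c m l).card ≤ 2) (hT0 : ∀ z ∈ T0, lev z ≠ l)
    (hnew : (m, l) ∉ Ms) (hmk : m.testBit k = false) (hmk' : m.testBit k' = false)
    (hMk : ∀ p ∈ Ms, p.1.testBit k = false ∧ p.1.testBit k' = false) :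
    ∃ (c' : ℕ → P) (J' : ℕ) (S' : Finset P), (∀ a, J.testBit a = true → c' a = c a) ∧
      Fx T0 N J' cv lv c' S' (Ms ++ [(m, l)]) ∧ (J' = J ∨ (Sm m J ∧ (J' = Nat.lor J (2 ^ k) ∨
      J' = Nat.lor (Nat.lor J (2 ^ k)) (2 ^ k')))) := by
  classical
  by_cases hs : Sm m J
  · have hdis : ∀ z ∈ tyS c m l, z ∉ S := by
      intro z hz hzS
      rcases (F.mem z).mp hzS with h1 | ⟨p, hp, h1, h2⟩
      · exact hT0 z h1 (mem_tyS.mp hz).1
      · have h3 := F.cx.cod.mask_inj hs h1 (mem_tyS.mp hz).2 (mem_tyS.mp h2).2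
        have h4 := (mem_tyS.mp hz).1.symm.trans (mem_tyS.mp h2).1
        refine hnew ?_
        rw [h3, h4]
        exact hp
    obtain ⟨c', J', h1, h2, h3⟩ := F.cx.ins2' hk hk' hne hkJ hkJ' hm hm' hl hl' hs (hT hs) hdis
      (fun z hz => mem_tyS.mp hz)
    have hJJ : Sm J J' := by
      rcases h3 with h3 | h3 | h3
      · rw [h3]; exact fun _ h => h
      · rw [h3]; exact sm_lor fun _ h => h
      · rw [h3]; exact sm_lor (sm_lor fun _ h => h)
    have hback : ∀ m', m'.testBit k = false → m'.testBit k' = false → Sm m' J' → Sm m' J := by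
      intro m' g1 g2 g3 a ha
      have g4 := g3 a ha
      have g5 : a ≠ k := by
        rintro rfl
        rw [ha] at g1
        exact absurd g1 (by simp)
      have g6 : a ≠ k' := by
        rintro rfl
        rw [ha] at g2
        exact absurd g2 (by simp)
      rcases h3 with h3 | h3 | h3
      · rwa [h3] at g4
      · rw [h3, bit_lor] at g4
        rcases g4 with g4 | g4
        · exact g4
        · exact absurd g4 g5
      · rw [h3, bit_lor, bit_lor] at g4
        rcases g4 with (g4 | g4) | g4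
        · exact g4
        · exact absurd g4 g5
        · exact absurd g4 g6
    refine ⟨c', J', _, h1, ⟨h2, ?_⟩, ?_⟩
    · intro z
      rw [mem_union, F.mem z]
      constructor
      · rintro ((h4 | ⟨p, hp, h4, h5⟩) | h4)
        · exact Or.inl h4
        · right
          refine ⟨p, List.mem_append_left _ hp, h4.trans hJJ, ?_⟩
          rw [tyS_congr (c := c) (fun a ha => h1 a (h4 a ha))]
          exact h5
        · right
          refine ⟨(m, l), List.mem_append_right _ (List.mem_singleton_self _),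
            hs.trans hJJ, ?_⟩
          show z ∈ tyS c' m l
          rw [tyS_congr (c := c) (fun a ha => h1 a (hs a ha))]
          exact h4
      · rintro (h4 | ⟨p, hp, h4, h5⟩)
        · exact Or.inl (Or.inl h4)
        · rcases List.mem_append.mp hp with h6 | h6
          · obtain ⟨g1, g2⟩ := hMk p h6
            have g3 := hback _ g1 g2 h4
            left; right
            refine ⟨p, h6, g3, ?_⟩
            rw [tyS_congr (c := c) (fun a ha => h1 a (g3 a ha))] at h5
            exact h5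
          · rw [List.mem_singleton] at h6
            subst h6
            right
            have h5' : z ∈ tyS c' m l := h5
            rw [tyS_congr (c := c) (fun a ha => h1 a (hs a ha))] at h5'
            exact h5'
    · rcases h3 with h3 | h3 | h3
      · exact Or.inl h3
      · exact Or.inr ⟨hs, Or.inl h3⟩
      · exact Or.inr ⟨hs, Or.inr h3⟩
  · refine ⟨c, J, S, fun _ _ => rfl, ⟨F.cx, ?_⟩, Or.inl rfl⟩
    intro z
    rw [F.mem z]
    constructor
    · rintro (h4 | ⟨p, hp, h4⟩)
      · exact Or.inl h4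
      · exact Or.inr ⟨p, List.mem_append_left _ hp, h4⟩
    · rintro (h4 | ⟨p, hp, h4⟩)
      · exact Or.inl h4
      · rcases List.mem_append.mp hp with h6 | h6
        · exact Or.inr ⟨p, h6, h4⟩
        · rw [List.mem_singleton] at h6
          subst h6
          exact absurd h4.1 hs

/-- one more type, at most one cell -/
theorem Fx.step1 {T0 S : Finset P} {Ms : List (ℕ × ℕ)} (F : Fx T0 N J cv lv c S Ms)
    {k m l : ℕ} (hk : k < N) (hkJ : J.testBit k = false) (hm : cv k = m) (hl : lv k = l)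
    (hT : Sm m J → (tyS c m l).card ≤ 1) (hT0 : ∀ z ∈ T0, lev z ≠ l)
    (hnew : (m, l) ∉ Ms) (hmk : m.testBit k = false) (hMk : ∀ p ∈ Ms, p.1.testBit k = false) :
    ∃ (c' : ℕ → P) (J' : ℕ) (S' : Finset P), (∀ a, J.testBit a = true → c' a = c a) ∧
      Fx T0 N J' cv lv c' S' (Ms ++ [(m, l)]) ∧ (J' = J ∨ (Sm m J ∧ J' = Nat.lor J (2 ^ k))) := by
  classical
  by_cases hs : Sm m J
  · have hdis : ∀ z ∈ tyS c m l, z ∉ S := by
      intro z hz hzS
      rcases (F.mem z).mp hzS with h1 | ⟨p, hp, h1, h2⟩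
      · exact hT0 z h1 (mem_tyS.mp hz).1
      · have h3 := F.cx.cod.mask_inj hs h1 (mem_tyS.mp hz).2 (mem_tyS.mp h2).2
        have h4 := (mem_tyS.mp hz).1.symm.trans (mem_tyS.mp h2).1
        refine hnew ?_
        rw [h3, h4]
        exact hp
    obtain ⟨c', J', h1, h2, h3⟩ := F.cx.ins1' hk hkJ hm hl hs (hT hs) hdis
      (fun z hz => mem_tyS.mp hz)
    have hJJ : Sm J J' := by
      rcases h3 with h3 | h3
      · rw [h3]; exact fun _ h => h
      · rw [h3]; exact sm_lor fun _ h => h
    have hback : ∀ m', m'.testBit k = false → Sm m' J' → Sm m' J := by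
      intro m' g1 g3 a ha
      have g4 := g3 a ha
      have g5 : a ≠ k := by
        rintro rfl
        rw [ha] at g1
        exact absurd g1 (by simp)
      rcases h3 with h3 | h3
      · rwa [h3] at g4
      · rw [h3, bit_lor] at g4
        rcases g4 with g4 | g4
        · exact g4
        · exact absurd g4 g5
    refine ⟨c', J', _, h1, ⟨h2, ?_⟩, ?_⟩
    · intro z
      rw [mem_union, F.mem z]
      constructor
      · rintro ((h4 | ⟨p, hp, h4, h5⟩) | h4)
        · exact Or.inl h4
        · right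
          refine ⟨p, List.mem_append_left _ hp, h4.trans hJJ, ?_⟩
          rw [tyS_congr (c := c) (fun a ha => h1 a (h4 a ha))]
          exact h5
        · right
          refine ⟨(m, l), List.mem_append_right _ (List.mem_singleton_self _),
            hs.trans hJJ, ?_⟩
          show z ∈ tyS c' m l
          rw [tyS_congr (c := c) (fun a ha => h1 a (hs a ha))]
          exact h4
      · rintro (h4 | ⟨p, hp, h4, h5⟩)
        · exact Or.inl (Or.inl h4)
        · rcases List.mem_append.mp hp with h6 | h6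
          · have g3 := hback _ (hMk p h6) h4
            left; right
            refine ⟨p, h6, g3, ?_⟩
            rw [tyS_congr (c := c) (fun a ha => h1 a (g3 a ha))] at h5
            exact h5
          · rw [List.mem_singleton] at h6
            subst h6
            right
            have h5' : z ∈ tyS c' m l := h5
            rw [tyS_congr (c := c) (fun a ha => h1 a (hs a ha))] at h5'
            exact h5'
    · rcases h3 with h3 | h3
      · exact Or.inl h3
      · exact Or.inr ⟨hs, h3⟩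
  · refine ⟨c, J, S, fun _ _ => rfl, ⟨F.cx, ?_⟩, Or.inl rfl⟩
    intro z
    rw [F.mem z]
    constructor
    · rintro (h4 | ⟨p, hp, h4⟩)
      · exact Or.inl h4
      · exact Or.inr ⟨p, List.mem_append_left _ hp, h4⟩
    · rintro (h4 | ⟨p, hp, h4⟩)
      · exact Or.inl h4
      · rcases List.mem_append.mp hp with h6 | h6
        · exact Or.inr ⟨p, h6, h4⟩
        · rw [List.mem_singleton] at h6
          subst h6
          exact absurd h4.1 hs

end Pool.Agent.GaussPoset.J10

end

/-! From `Pool.Agent.W_448j10_h67.JbT` -/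

section

/-!
The components at the window 5, level 10: the strip `La5` (MP_448cb3_co).
-/

namespace Pool.Agent.GaussPoset.J10

set_option linter.unusedSectionVars false

open Polynomial Finset Dd Wd Cl J8 Sg

universe u

variable {P : Type u} [Fintype P] [PartialOrder P] [DecidableEq P] {r : ℕ}
variable {t : Tops P} {lo hi : ℕ → ℕ} {e : ℕ → ℕ → P}

lemma La5_rows : losW 5 wa5 10 = 3 ∧ hisW 5 wa5 10 = 5 ∧ losW 5 wa5 9 = 2 ∧ hisW 5 wa5 9 = 4 ∧
    losW 5 wa5 8 = 2 ∧ hisW 5 wa5 8 = 3 ∧ losW 5 wa5 7 = 1 ∧ hisW 5 wa5 7 = 2 ∧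
    losW 5 wa5 5 = 0 ∧ hisW 5 wa5 5 = 1 := by decide +kernel

/-- the rows of `La5` -/
structure R5 (lo hi : ℕ → ℕ) : Prop where
  l10 : lo 10 = 3
  u10 : hi 10 = 5
  l9 : lo 9 = 2
  u9 : hi 9 = 4
  l8 : lo 8 = 2
  u8 : hi 8 = 3
  l7 : lo 7 = 1
  u7 : hi 7 = 2
  l5 : lo 5 = 0
  u5 : hi 5 = 1

lemma La5_r5 (C : Cp.Comp 10 (t : P) lo hi e) (D : WordD 10 5 wa5 lo hi) : R5 lo hi := by
  obtain ⟨r1, r2⟩ := D.rows C
  obtain ⟨e1, e2, e3, e4, e5, e6, e7, e8, e9, e10⟩ := La5_rows
  exact ⟨by rw [r1 10 le_rfl, e1], by rw [r2 10 le_rfl, e2], by rw [r1 9 (by norm_num), e3],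
    by rw [r2 9 (by norm_num), e4], by rw [r1 8 (by norm_num), e5],
    by rw [r2 8 (by norm_num), e6], by rw [r1 7 (by norm_num), e7],
    by rw [r2 7 (by norm_num), e8], by rw [r1 5 (by norm_num), e9],
    by rw [r2 5 (by norm_num), e10]⟩

/-- the last row of `La5` -/
lemma R5.cell (R : R5 lo hi) (C : Cp.Comp 10 (t : P) lo hi e) {x : P} (hx : x ≤ (t : P))
    (hl : lev x = 10) : x = e 10 3 ∨ x = e 10 4 ∨ x = e 10 5 := by
  obtain ⟨s, s1, s2, hs⟩ := C.surj x hx hl.le
  rw [hl] at s1 s2 hs
  have h1 := R.l10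
  have h2 := R.u10
  rcases (show s = 3 ∨ s = 4 ∨ s = 5 by omega) with h3 | h3 | h3
  · left; rw [← hs, h3]
  · right; left; rw [← hs, h3]
  · right; right; rw [← hs, h3]

/-- one pendant below the two doubles -/
lemma R5.pen (R : R5 lo hi) (h : Win.GoodTo P r 10) (C : Cp.Comp 10 (t : P) lo hi e) :
    (Win.pen (e 10 3)).card + (Win.pen (e 10 4)).card = 1 := by
  obtain ⟨l10, u10, l9, u9, l8, u8, l7, u7, -, -⟩ := R
  have hS := (Win.near_level' (i := 9) h (by norm_num)).2 t lo hi e t.2 C.toWin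
  have hL : Win.LCO lo hi 9 := ⟨by norm_num, by norm_num; omega, by norm_num; omega, by omega⟩
  rcases hS with ⟨g1, -, -⟩ | ⟨-, -, b, g1, g2⟩ | ⟨-, g1, -⟩
  · exact absurd hL g1
  · have k3 := g2 3 (by omega) (by omega)
    have k4 := g2 4 (by omega) (by omega)
    norm_num at k3 k4
    rw [k3, k4]
    rcases (show b = 3 ∨ b = 4 by omega) with rfl | rfl <;> norm_num
  · exact absurd hL g1

/-- the elements of the level 11 below the component only -/
lemma R5.ty (R : R5 lo hi) (h : Win.GoodTo P r 10) (C : Cp.Comp 10 (t : P) lo hi e) {z : P}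
    (hl : lev z = 11) (hz : ∀ y, z ⋖ y → y ≤ (t : P)) :
    (∀ y, z ⋖ y ↔ y = e 10 3) ∨ (∀ y, z ⋖ y ↔ y = e 10 4) ∨ (∀ y, z ⋖ y ↔ y = e 10 5) ∨
    (∀ y, z ⋖ y ↔ (y = e 10 3 ∨ y = e 10 4)) ∨ (∀ y, z ⋖ y ↔ (y = e 10 4 ∨ y = e 10 5)) := by
  have R' : R5 lo hi := R
  obtain ⟨l10, u10, l9, u9, l8, u8, l7, u7, -, -⟩ := R
  have hly : ∀ y, z ⋖ y → lev y = 10 := by
    intro y hy
    have := (h.H.covBy_iff.mp hy).2
    omega
  have hc : ∀ y, z ⋖ y → y = e 10 3 ∨ y = e 10 4 ∨ y = e 10 5 := fun y hy =>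
    R'.cell C (hz y hy) (hly y hy)
  have hne : ∀ a b, 3 ≤ a → a ≤ 5 → 3 ≤ b → b ≤ 5 → a ≠ b → e 10 a ≠ e 10 b :=
    fun a b a1 a2 b1 b2 hab hh =>
      hab (C.inj 10 a b le_rfl (by omega) (by omega) (by omega) (by omega) hh)
  have h35 : ¬ (z ⋖ e 10 3 ∧ z ⋖ e 10 5) := by
    rintro ⟨h3, h5⟩
    rcases (Win.near_level' (i := 9) h (by norm_num)).1 z (e 10 3) (e 10 5) (by omega) h3 h5
      (hne 3 5 (by norm_num) (by norm_num) (by norm_num) (by norm_num) (by norm_num)) with
      h6 | ⟨h6, -, -⟩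
    · obtain ⟨u, hu1, hu2⟩ := Win.exists_of_ucv (v := e 10 3) (v' := e 10 5)
        (by rw [h6]; exact one_pos)
      have hut : u ≤ (t : P) := Cp.up_le h.H h.good t.2 (hz _ h5) (hly _ h5).le hu2.1.le
      have hul : lev u = 9 := by
        have := (h.H.covBy_iff.mp hu2).2
        have := hly _ h5
        omega
      obtain ⟨s', s1', s2', hs'⟩ := C.surj u hut (by omega)
      rw [hul] at s1' s2' hs'
      rw [← hs'] at hu1 hu2
      have c1 := (C.cov 9 3 s' (by norm_num) (by show lo 10 ≤ 3; omega)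
        (by show 3 ≤ hi 10; omega) s1' s2').1 hu1
      have c2 := (C.cov 9 5 s' (by norm_num) (by show lo 10 ≤ 5; omega)
        (by show 5 ≤ hi 10; omega) s1' s2').1 hu2
      omega
    · exact two_up C (s := 3) (by omega) (by omega) (by omega) (by omega) h6
  by_cases h3 : z ⋖ e 10 3
  · have h5 : ¬ z ⋖ e 10 5 := fun h5 => h35 ⟨h3, h5⟩
    by_cases h4 : z ⋖ e 10 4
    · right; right; right; left
      intro y
      constructor
      · intro hy
        rcases hc y hy with rfl | rfl | rfl
        · exact Or.inl rfl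
        · exact Or.inr rfl
        · exact absurd hy h5
      · rintro (rfl | rfl) <;> assumption
    · left
      intro y
      constructor
      · intro hy
        rcases hc y hy with rfl | rfl | rfl
        · rfl
        · exact absurd hy h4
        · exact absurd hy h5
      · rintro rfl
        exact h3
  · right
    by_cases h4 : z ⋖ e 10 4
    · by_cases h5 : z ⋖ e 10 5
      · right; right; right
        intro y
        constructor
        · intro hy
          rcases hc y hy with rfl | rfl | rfl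
          · exact absurd hy h3
          · exact Or.inl rfl
          · exact Or.inr rfl
        · rintro (rfl | rfl) <;> assumption
      · left
        intro y
        constructor
        · intro hy
          rcases hc y hy with rfl | rfl | rfl
          · exact absurd hy h3
          · rfl
          · exact absurd hy h5
        · rintro rfl
          exact h4
    · right; left
      obtain ⟨v, hv⟩ := cov_ex (z := z) (by omega)
      have hv5 : v = e 10 5 := by
        rcases hc v hv with h6 | h6 | h6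
        · rw [h6] at hv
          exact absurd hv h3
        · rw [h6] at hv
          exact absurd hv h4
        · exact h6
      intro y
      constructor
      · intro hy
        rcases hc y hy with rfl | rfl | rfl
        · exact absurd hy h3
        · exact absurd hy h4
        · rfl
      · rintro rfl
        rwa [hv5] at hv

section Cards

variable {c : ℕ → P}

lemma R5.card3 (R : R5 lo hi) (h : Win.GoodTo P r 10) (C : Cp.Comp 10 (t : P) lo hi e)
    (h16 : c 16 = e 10 3) : (tyS c 65536 11).card ≤ 1 := by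
  have h1 : tyS c 65536 11 ⊆ Win.pen (e 10 3) := by
    intro z hz
    have h2 := (mem_tyS.mp hz).2
    rw [show (65536 : ℕ) = 2 ^ 16 by norm_num, cvs_one, h16] at h2
    rw [Win.mem_pen]
    refine ⟨(h2 _).mpr rfl, ?_⟩
    rw [Finset.card_eq_one]
    refine ⟨e 10 3, ?_⟩
    ext y
    rw [Win.mem_uc, mem_singleton]
    exact h2 y
  have h2 := Finset.card_le_card h1
  have h3 := R.pen h C
  omega

lemma R5.card4 (R : R5 lo hi) (h : Win.GoodTo P r 10) (C : Cp.Comp 10 (t : P) lo hi e)
    (h17 : c 17 = e 10 4) : (tyS c 131072 11).card ≤ 1 := by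
  have h1 : tyS c 131072 11 ⊆ Win.pen (e 10 4) := by
    intro z hz
    have h2 := (mem_tyS.mp hz).2
    rw [show (131072 : ℕ) = 2 ^ 17 by norm_num, cvs_one, h17] at h2
    rw [Win.mem_pen]
    refine ⟨(h2 _).mpr rfl, ?_⟩
    rw [Finset.card_eq_one]
    refine ⟨e 10 4, ?_⟩
    ext y
    rw [Win.mem_uc, mem_singleton]
    exact h2 y
  have h2 := Finset.card_le_card h1
  have h3 := R.pen h C
  omega

lemma R5.card34 (R : R5 lo hi) (h : Win.GoodTo P r 10) (C : Cp.Comp 10 (t : P) lo hi e)
    (h16 : c 16 = e 10 3) (h17 : c 17 = e 10 4) : (tyS c 196608 11).card ≤ 1 := by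
  classical
  have h0 : ∀ z ∈ tyS c 196608 11, ∀ y, z ⋖ y ↔ (y = e 10 3 ∨ y = e 10 4) := by
    intro z hz
    have h2 := (mem_tyS.mp hz).2
    rw [show (196608 : ℕ) = Nat.lor (2 ^ 16) (2 ^ 17) by decide, cvs_two, h16, h17] at h2
    exact h2
  have hne : e 10 3 ≠ e 10 4 := fun hh => by
    have := C.inj 10 3 4 le_rfl (by rw [R.l10]) (by rw [R.u10]; norm_num)
      (by rw [R.l10]; norm_num) (by rw [R.u10]; norm_num) hh
    omega
  have key : ∀ x, (x = e 10 3 ∨ x = e 10 4) → (Win.pen x).card = 1 →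
      (tyS c 196608 11).card ≤ 1 := by
    intro x hx hp
    have h1 : Disjoint (tyS c 196608 11) (Win.pen x) := by
      rw [Finset.disjoint_left]
      intro z hz hz'
      rw [Win.mem_pen] at hz'
      obtain ⟨q, hq⟩ := Finset.card_eq_one.mp hz'.2
      have a3 : e 10 3 ∈ Win.uc z := Win.mem_uc.mpr ((h0 z hz _).mpr (Or.inl rfl))
      have a4 : e 10 4 ∈ Win.uc z := Win.mem_uc.mpr ((h0 z hz _).mpr (Or.inr rfl))
      rw [hq, mem_singleton] at a3 a4
      exact hne (a3.trans a4.symm)
    have h2 : tyS c 196608 11 ∪ Win.pen x ⊆ Win.dc x := by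
      intro z hz
      rw [mem_union] at hz
      rw [Win.mem_dc]
      rcases hz with hz | hz
      · exact (h0 z hz x).mpr hx
      · exact (Win.mem_pen.mp hz).1
    have h3 := Finset.card_le_card h2
    rw [Finset.card_union_of_disjoint h1] at h3
    have h4 := Win.dc_card_le h.H x
    omega
  have h3 := R.pen h C
  rcases Nat.lt_or_ge 0 (Win.pen (e 10 3)).card with h4 | h4
  · exact key _ (Or.inl rfl) (by omega)
  · exact key _ (Or.inr rfl) (by omega)

end Cards

end Pool.Agent.GaussPoset.J10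

end

/-! From `Pool.Agent.W_448j10_h67.JbX` -/

section

/-!
Level 10, window 5: the context (MP_448cb3_co).
-/

namespace Pool.Agent.GaussPoset.J10

set_option linter.unusedSectionVars false

open Polynomial Finset Dd Wd Cl J8

universe u

variable {P : Type u} [Fintype P] [PartialOrder P] [DecidableEq P] {r : ℕ}

/-- the context at level 10 -/
structure C10 (P : Type u) [Fintype P] [PartialOrder P] [DecidableEq P] (r : ℕ)
    (lo hi : Tops P → ℕ → ℕ) (e : Tops P → ℕ → ℕ → P) (Kc : ℕ) (w : Tops P → ℕ)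
    (ρ : Tops P → ℤ) (S : Tops P → Finset P) (θ : Tops P → P → ℕ) (B : Tops P → P → Prop) :
    Prop where
  K : Sm.Ctx P r 10 lo hi e
  td : ∀ t, TD Kc t (hi t 5 - lo t 5 + 1) (w t) (ρ t) (S t) (θ t) (B t)

/-- the thresholds -/
noncomputable def th10 (θ : Tops P → P → ℕ) (x : P) : ℕ := θ (topOf x) x

/-- the base elements -/
def B10 (S : Tops P → Finset P) (B : Tops P → P → Prop) (x : P) : Prop :=
  x ∉ unnat S ∧ B (topOf x) x

/-- the orders -/
def b10 (lo hi : Tops P → ℕ → ℕ) (t : Tops P) : ℕ := hi t 5 - lo t 5 + 1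

/-- the labels -/
noncomputable def h10 (S : Tops P → Finset P) (θ : Tops P → P → ℕ) : P → ℕ :=
  hcan (unnat S) (th10 θ)

section

variable {lo hi : Tops P → ℕ → ℕ} {e : Tops P → ℕ → ℕ → P} {Kc : ℕ} {w : Tops P → ℕ}
  {ρ : Tops P → ℤ} {S : Tops P → Finset P} {θ : Tops P → P → ℕ} {B : Tops P → P → Prop}

lemma C10.sys (W : C10 P r lo hi e Kc w ρ S θ B) : NatSys S where
  up := fun t x hx y hxy => (W.td t).up x hx y hxy
  le_t := fun t x hx => (W.td t).le_t x hx

lemma C10.lev11 (W : C10 P r lo hi e Kc w ρ S θ B) {x : P} (hx : x ∈ unnat S) : 10 < lev x := by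
  by_contra hcon
  exact mem_unnat.mp hx (topOf x) ((W.td _).low (mem_lowPart.mpr ⟨le_topOf x, by omega⟩))

lemma C10.nat10 (W : C10 P r lo hi e Kc w ρ S θ B) {x : P} (hx : lev x ≤ 10) : x ∉ unnat S :=
  fun h => by
    have := W.lev11 h
    omega

/-- the data of the components -/
lemma C10.data (W : C10 P r lo hi e Kc w ρ S θ B) (t : Tops P) :
    CompDataL (unnat S) topOf t 5 (b10 lo hi t) (w t) (th10 θ) (B10 S B) := by
  have HN := W.sys
  refine (W.td t).data S HN (fun s => (W.td s).low) rfl _ _ ?_ ?_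
  · intro x hx
    unfold th10
    rw [HN.topOf_eq hx]
  · intro x hx
    unfold B10
    rw [HN.topOf_eq hx]
    exact and_iff_right (HN.mem_iff.mp hx).1

/-- **The ladder data.** -/
lemma C10.lad (W : C10 P r lo hi e Kc w ρ S θ B) {n : ℕ} (hn : ∀ t, n ≤ w t) :
    Lad 5 n (unnat S) (b10 lo hi) (th10 θ) (B10 S B) where
  gr := W.K.gt.H.gradedBelow
  low := W.sys.lower
  lev := fun x hx => by
    have := W.lev11 hx
    omega
  cp := W.sys.cp
  base := fun x hx h => h.1 hx
  data := fun t => CompDataL.of_le (W.data t) (hn t)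

lemma C10.sum_b (W : C10 P r lo hi e Kc w ρ S θ B) : ∑ t, b10 lo hi t = (lv P 5).card :=
  (card_level W.K.gt.H W.K.gt.good W.K.comp (i := 5) (by norm_num)).symm

lemma C10.top_of (W : C10 P r lo hi e Kc w ρ S θ B) {t : Tops P} {x : P} (hx : x ≤ (t : P))
    (hl : lev x ≤ 10) : topOf x = t :=
  W.sys.topOf_eq ((W.td t).low (mem_lowPart.mpr ⟨hx, hl⟩))

/-- the label is at most one more than the threshold of each cover -/
lemma C10.h_le (W : C10 P r lo hi e Kc w ρ S θ B) {t : Tops P} {z x : P} (hzx : z ⋖ x)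
    (hx : x ≤ (t : P)) (hl : lev x ≤ 10) : h10 S θ z ≤ θ t x + 1 := by
  have h1 := hcan_le (θ := th10 θ) (W.nat10 hl) hzx
  unfold th10 at h1
  rw [W.top_of hx hl] at h1
  exact h1

lemma C10.one_le (W : C10 P r lo hi e Kc w ρ S θ B) {z : P} (hz : z ∈ bdR (unnat S)) :
    1 ≤ h10 S θ z := by
  obtain ⟨x, -, -, hx⟩ := hcan_spec (θ := th10 θ) hz
  have : h10 S θ z = th10 θ x + 1 := hx
  omega

/-- the straight end has a large threshold -/
lemma IsC.two (W : C10 P r lo hi e Kc w ρ S θ B) {t : Tops P} {z : P}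
    (hz : z ∈ bdR (unnat S)) (hx : IsC t (b10 lo hi t) (θ t) z) : h10 S θ z = 2 := by
  classical
  obtain ⟨Nc, co, F, E, C, hb, hF⟩ := hx
  have H := W.K.gt.H
  have hlz := C.lev_z H.gradedBelow
  obtain ⟨x, hx, hzx, hh⟩ := hcan_spec (θ := th10 θ) hz
  have hh' : h10 S θ z = θ (topOf x) x + 1 := hh
  have hEt := C.chart.le_t E C.S_mem
  rcases C.only x hzx with h1 | h1
  · rw [h1, W.top_of (C.chart.le_t F C.F_mem) C.lev_F.le, hF] at hh'
    exact hh'
  · exfalso
    have hle := W.h_le C.zF (C.chart.le_t F C.F_mem) C.lev_F.le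
    rw [h1, W.top_of hEt C.lev_S.le] at hh'
    have hu : (Win.uc E).card = 1 := by
      rw [uc_card_nab H (by rw [C.lev_S]; norm_num), C.lev_S]
      exact C.nab_S (by norm_num)
    have n5 := C.nab_S (l := 5) (by norm_num)
    rcases (W.td t).ends E hEt C.lev_S hu with h2 | ⟨-, h3⟩ | ⟨-, h3⟩ | ⟨-, h3⟩ | ⟨-, h3⟩
    · omega
    all_goals
      have h4 := h3 5 (by norm_num)
      rw [n5] at h4
      revert h4
      decide

end

end Pool.Agent.GaussPoset.J10

end
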