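import Mathlib
import Pool.Agent.W_448zz_h61.Ns
import Pool.Agent.W_448zz_h61.M191
import Pool.Agent.W_448zz_h61.M192

/-! From `Pool.Agent.W_448j10_h67.JbR` -/

section

/-!
The components at the window 5, level 10: elements below the elements of the level 11
(MP_448cb3_co).
-/

namespace Pool.Agent.GaussPoset.J10

set_option linter.unusedSectionVars false

open Polynomial Finset Dd Wd Cl J8 Sg

universe u

variable {P : Type u} [Fintype P] [PartialOrder P] [DecidableEq P] {r : ℕ}
variable {t : Tops P} {lo hi : ℕ → ℕ} {e : ℕ → ℕ → P}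
variable {N J : ℕ} {cv lv um th : ℕ → ℕ} {c : ℕ → P}

/-- the sum over a mask -/
def wsum (k : ℕ) (lv : ℕ → ℕ) (M : ℕ) : ℕ → ℕ
  | 0 => 0
  | n + 1 => wsum k lv M n + bif M.testBit n then min k (lv n - 5) else 0

lemma wsum_eq (k : ℕ) (lv : ℕ → ℕ) (M n : ℕ) : wsum k lv M n =
    ∑ b ∈ (range n).filter (fun b => M.testBit b = true), min k (lv b - 5) := by
  induction n with
  | zero => rfl
  | succ n ih =>
    rw [Finset.sum_filter, Finset.sum_range_succ, ← Finset.sum_filter, ← ih]
    show wsum k lv M n + (bif M.testBit n then min k (lv n - 5) else 0) = _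
    cases M.testBit n <;> simp

/-- the cost of a cell -/
lemma CodM.ct_w (C : CodM N J cv lv c) (hcv : ∀ a < N, cv a < 2 ^ a)
    (hum : ∀ a < N, um a = Nat.lor (2 ^ a) (orM um N (cv a))) {a : ℕ}
    (ha : J.testBit a = true) (k : ℕ) :
    ct 5 k (c a) = wsum k lv (Nat.land (um a) J) N := by
  have haN := bit_lt C.lt ha
  rw [C.ct_cell hcv hum ha 5 k, wsum_eq]
  have h1 : (range N).filter (fun b => (Nat.land (um a) J).testBit b = true) =
      Insert.insert a ((range N).filter (fun b => (orM um N (cv a)).testBit b = true ∧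
        J.testBit b = true)) := by
    ext b
    have hbit : (Nat.land (um a) J).testBit b = ((um a).testBit b && J.testBit b) :=
      Nat.testBit_and _ _ _
    simp only [mem_filter, mem_range, mem_insert, hbit, Bool.and_eq_true]
    rw [hum a haN, show Nat.lor (2 ^ a) (orM um N (cv a)) = Nat.lor (orM um N (cv a)) (2 ^ a)
      from Nat.or_comm _ _]
    constructor
    · rintro ⟨h1, h2, h3⟩
      rcases bit_lor.mp h2 with h4 | h4
      · exact Or.inr ⟨h1, h4, h3⟩
      · exact Or.inl h4
    · rintro (rfl | ⟨h1, h2, h3⟩)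
      · exact ⟨haN, bit_lor.mpr (Or.inr rfl), ha⟩
      · exact ⟨h1, bit_lor.mpr (Or.inl h2), h3⟩
  rw [h1, Finset.sum_insert]
  intro hcon
  rw [mem_filter] at hcon
  have h2 := hcon.2.1
  rw [orM_testBit] at h2
  obtain ⟨b, hb, h3, h4⟩ := h2
  obtain ⟨h5, h6⟩ := C.cv_lt hcv ha h3
  have h7 := (C.le_iff hcv hum h6 ha).mpr h4
  have h8 : c a ⋖ c b := (C.cov a ha (c b)).mpr ⟨b, h6, h3, rfl⟩
  exact absurd h7 (not_le_of_gt h8.1)

/-- the cost of an element with one or two cells as covers -/
lemma CodM.ct_pair (C : CodM N J cv lv c) (hcv : ∀ a < N, cv a < 2 ^ a)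
    (hum : ∀ a < N, um a = Nat.lor (2 ^ a) (orM um N (cv a))) {a b : ℕ}
    (ha : J.testBit a = true) (hb : J.testBit b = true) {z : P}
    (hz : Cvs c (Nat.lor (2 ^ a) (2 ^ b)) z) (k : ℕ) :
    ct 5 k z = min k (GaussPoset.lev z - 5) +
      wsum k lv (Nat.land (Nat.lor (um a) (um b)) J) N := by
  have haN := bit_lt C.lt ha
  have hbN := bit_lt C.lt hb
  have hm : Sm (Nat.lor (2 ^ a) (2 ^ b)) J := by
    intro d hd
    rcases bit_lor.mp hd with h | h
    · by_cases h' : a = d
      · rw [← h']; exact ha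
      · rw [Nat.testBit_two_pow_of_ne h'] at h
        exact absurd h (by simp)
    · rw [h]; exact hb
  rw [C.ct_of hcv hum hm hz 5 k, wsum_eq]
  congr 1
  refine Finset.sum_congr ?_ fun _ _ => rfl
  ext d
  have hbit : (Nat.land (Nat.lor (um a) (um b)) J).testBit d =
      (((um a).testBit d || (um b).testBit d) && J.testBit d) := by
    have h1 : (Nat.land (Nat.lor (um a) (um b)) J).testBit d =
      ((Nat.lor (um a) (um b)).testBit d && J.testBit d) := Nat.testBit_and _ _ _
    have h2 : (Nat.lor (um a) (um b)).testBit d = ((um a).testBit d || (um b).testBit d) :=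
      Nat.testBit_or _ _ _
    rw [h1, h2]
  simp only [mem_filter, mem_range, hbit, Bool.and_eq_true, Bool.or_eq_true, orM_testBit]
  refine and_congr_right fun _ => and_congr_left fun _ => ?_
  constructor
  · rintro ⟨x, hx, h1, h2⟩
    rcases bit_lor.mp h1 with h | h
    · by_cases h' : a = x
      · left; rw [h']; exact h2
      · rw [Nat.testBit_two_pow_of_ne h'] at h
        exact absurd h (by simp)
    · right; rw [← h]; exact h2
  · rintro (h | h)
    · exact ⟨a, haN, bit_lor.mpr (Or.inl Nat.testBit_two_pow_self), h⟩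
    · exact ⟨b, hbN, bit_lor.mpr (Or.inr rfl), h⟩

/-- cost of an element with the cover `x`, another element `y` and a part above -/
lemma ct_join {i k : ℕ} {z x y v : P} (hzx : z < x) (hzy : z < y) (hyv : y < v)
    (hxy : ¬ x ≤ y) (hxv : ∀ w, v ≤ w → ¬ x ≤ w) (hk : k ≤ lev z - i) :
    ct i k x + k + min k (lev y - i) + ct i k v ≤ ct i k z := by
  classical
  rw [ct_succ i k z, ct_eq_sum, ct_eq_sum, Nat.min_eq_left hk]
  have h1 : (∑ w, if x ≤ w then min k (lev w - i) else 0) + (min k (lev y - i) +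
      ∑ w, if v ≤ w then min k (lev w - i) else 0) ≤
      ∑ w, if z < w then min k (lev w - i) else 0 := by
    have h2 : min k (lev y - i) = ∑ w, if y = w then min k (lev w - i) else 0 := by
      rw [Finset.sum_ite_eq]
      simp
    rw [h2, ← Finset.sum_add_distrib, ← Finset.sum_add_distrib]
    refine Finset.sum_le_sum fun w _ => ?_
    by_cases h3 : x ≤ w
    · have h4 : ¬ y = w := by
        rintro rfl
        exact hxy h3
      have h5 : ¬ v ≤ w := fun h => hxv w h h3
      rw [if_pos h3, if_neg h4, if_neg h5, if_pos (hzx.trans_le h3)]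
      omega
    · rw [if_neg h3]
      by_cases h4 : y = w
      · subst h4
        have h5 : ¬ v ≤ y := fun h => absurd (hyv.trans_le h) (lt_irrefl _)
        rw [if_pos rfl, if_neg h5, if_pos hzy]
        omega
      · rw [if_neg h4]
        by_cases h5 : v ≤ w
        · rw [if_pos h5, if_pos (hzy.trans (hyv.trans_le h5))]
          omega
        · rw [if_neg h5]
          omega
  omega

/-- the cost of an element of the level 10 -/
lemma ct_ten {v : P} (hv : lev v = 10) {k : ℕ} (hk : 2 ≤ k) : 9 ≤ ct 5 k v := by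
  have h1 := cst_ge (i := 5) (h := fun _ => k) (z := v) (fun _ => 1)
    (fun k _ hk => one_le_nab hk)
  rw [hv] at h1
  simp only [Finset.sum_range_succ, Finset.sum_range_zero, mul_one] at h1
  have h2 : ct 5 k v = cst 5 (fun _ => k) v := rfl
  rw [h2]
  omega

/-- the check of the costs of the elements below the level 11 -/
def dpC (N : ℕ) (lv um th : ℕ → ℕ) (Ms : List (ℕ × ℕ)) (Ex : List ℕ) (J b0 : ℕ) : Bool :=
  (List.range N).all fun a => !(J.testBit a) || (Nat.ble (lv a) 12 && Nat.ble (th a) 6 &&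
    (Nat.ble (lv a) 10 ||
      (Nat.beq (lv a) 12 && Nat.ble b0 (th a + 1 + wsum (th a + 1) lv (Nat.land (um a) J) N)) ||
      (Nat.beq (lv a) 11 && Nat.ble 1 (th a) &&
        Nat.ble b0 (th a + 12 + wsum (th a + 1) lv (Nat.land (um a) J) N) &&
        (List.range N).all fun b => !(J.testBit b) || !(Nat.beq (lv b) 11) ||
          (Ms.any fun p => Nat.beq p.1 (Nat.lor (2 ^ a) (2 ^ b)) && Nat.beq p.2 12) ||
          (Ex.any fun m => Nat.beq m (Nat.lor (2 ^ a) (2 ^ b))) ||
          Nat.ble b0 (th a + 1 +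
            wsum (th a + 1) lv (Nat.land (Nat.lor (um a) (um b)) J) N))))

/-- **The elements below the level 11.** -/
theorem deepFx {S : Finset P} {Ms : List (ℕ × ℕ)} {Ex : List ℕ} {b0 : ℕ} (h : Win.GoodTo P r 10)
    (F : Fx (lowPart 10 (t : P)) N J cv lv c S Ms) (hcv : ∀ a < N, cv a < 2 ^ a)
    (hum : ∀ a < N, um a = Nat.lor (2 ^ a) (orM um N (cv a)))
    (hchk : dpC N lv um th Ms Ex J b0 = true) (hle : ∀ x ∈ S, x ≤ (t : P))
    (hown : ∀ y, lev y = 11 → y ∉ S → ∃ v, y ⋖ v ∧ ¬ v ≤ (t : P))
    (hex : ∀ m ∈ Ex, ∀ z, lev z = 12 → Cvs c m z → Sm m J → False) :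
    ∀ z x, 12 ≤ lev z → z ∉ S → x ∈ S → z ⋖ x → b0 ≤ ct 5 (thM N J c th x + 1) z := by
  classical
  intro z x hz hzS hxS hzx
  obtain ⟨a, haN, ha, rfl, hla⟩ := F.cx.cell hxS
  have hlz := (h.H.covBy_iff.mp hzx).2
  unfold dpC at hchk
  rw [List.all_eq_true] at hchk
  have hc := hchk a (List.mem_range.mpr haN)
  rw [ha] at hc
  simp only [Bool.not_true, Bool.false_or, Bool.and_eq_true, Bool.or_eq_true, Nat.ble_eq,
    beq_iff, List.all_eq_true, List.mem_range] at hc
  obtain ⟨⟨h12, h6⟩, hc⟩ := hc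
  rw [thM_c F.cx.cod th ha]
  have hk : th a + 1 ≤ lev z - 5 := by omega
  rcases hc with (hc | ⟨hc1, hc2⟩) | ⟨⟨⟨hc1, hc2⟩, hc3⟩, hc4⟩
  · omega
  · have h1 := ct_one (i := 5) (k := th a + 1) hzx.1 hk
    rw [F.cx.cod.ct_w hcv hum ha] at h1
    omega
  · have hlz' : lev z = 12 := by omega
    by_cases hS : ∀ y, z ⋖ y → y ∈ S
    · -- all covers are cells
      have hb : ∃ b, J.testBit b = true ∧ lv b = 11 ∧ Cvs c (Nat.lor (2 ^ a) (2 ^ b)) z := by
        have h2 : (Win.uc z).card ≤ 2 := Win.uc_card_le h.H z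
        have h3 : c a ∈ Win.uc z := Win.mem_uc.mpr hzx
        by_cases h4 : ∃ y, z ⋖ y ∧ y ≠ c a
        · obtain ⟨y, hy, hne⟩ := h4
          obtain ⟨b, hbN, hb, rfl, hlb⟩ := F.cx.cell (hS y hy)
          have h5 : Win.uc z = {c a, c b} := by
            symm
            refine Finset.eq_of_subset_of_card_le ?_ ?_
            · intro w hw
              rw [mem_insert, mem_singleton] at hw
              rcases hw with rfl | rfl
              · exact h3
              · exact Win.mem_uc.mpr hy
            · rw [Finset.card_pair (Ne.symm hne)]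
              exact h2
          refine ⟨b, hb, ?_, ?_⟩
          · have := (h.H.covBy_iff.mp hy).2
            omega
          · rw [cvs_two]
            intro w
            rw [← Win.mem_uc, h5, mem_insert, mem_singleton]
        · push Not at h4
          refine ⟨a, ha, hc1, ?_⟩
          have h5 : Nat.lor (2 ^ a) (2 ^ a) = 2 ^ a := Nat.or_self _
          rw [h5, cvs_one]
          intro w
          constructor
          · exact h4 w
          · rintro rfl
            exact hzx
      obtain ⟨b, hb, hlb, hcvs⟩ := hb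
      have hm : Sm (Nat.lor (2 ^ a) (2 ^ b)) J := by
        intro d hd
        rcases bit_lor.mp hd with h | h
        · by_cases h' : a = d
          · rw [← h']; exact ha
          · rw [Nat.testBit_two_pow_of_ne h'] at h
            exact absurd h (by simp)
        · rw [h]; exact hb
      have hd := hc4 b (bit_lt F.cx.cod.lt hb)
      rw [hb, hlb, Nat.beq_refl] at hd
      simp only [Bool.not_true, Bool.false_eq_true, false_or] at hd
      rcases hd with (hd | hd) | hd
      · exfalso
        rw [List.any_eq_true] at hd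
        obtain ⟨p, hp, hpm⟩ := hd
        rw [Bool.and_eq_true] at hpm
        have e1 := Nat.eq_of_beq_eq_true hpm.1
        have e2 := Nat.eq_of_beq_eq_true hpm.2
        refine hzS ((F.mem z).mpr (Or.inr ⟨p, hp, by rw [e1]; exact hm, ?_⟩))
        rw [e1, e2, mem_tyS]
        exact ⟨hlz', hcvs⟩
      · exfalso
        rw [List.any_eq_true] at hd
        obtain ⟨m, hm', hmm⟩ := hd
        have e1 := Nat.eq_of_beq_eq_true hmm
        exact hex m hm' z hlz' (by rw [e1]; exact hcvs) (by rw [e1]; exact hm)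
      · rw [F.cx.cod.ct_pair hcv hum ha hb hcvs, Nat.min_eq_left hk]
        exact hd
    · -- another cover below another top
      push Not at hS
      obtain ⟨y, hy, hyS⟩ := hS
      have hly : lev y = 11 := by
        have := (h.H.covBy_iff.mp hy).2
        omega
      obtain ⟨v, hv, hvt⟩ := hown y hly hyS
      have hlv : lev v = 10 := by
        have := (h.H.covBy_iff.mp hv).2
        omega
      have hxy : ¬ c a ≤ y := fun hcon => hyS (F.cx.above _ hxS _ hcon)
      have hxv : ∀ w, v ≤ w → ¬ c a ≤ w := fun w hw hcon => by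
        have h1 := F.cx.above _ hxS _ hcon
        exact hvt (hw.trans (hle w h1))
      have h1 := ct_join (i := 5) (k := th a + 1) hzx.1 hy.1 hv.1 hxy hxv hk
      rw [F.cx.cod.ct_w hcv hum ha, hly] at h1
      have h2 := ct_ten hlv (k := th a + 1) (by omega)
      omega

end Pool.Agent.GaussPoset.J10

end

/-! From `Pool.Agent.W_448j10_h67.JbS` -/

section

/-!
The components at the window 5, level 10: the codes of `La5` (MP_448cb3_co).
-/

namespace Pool.Agent.GaussPoset.J10

set_option linter.unusedSectionVars false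

open Polynomial Finset Dd Wd Cl J8 Sg

universe u

variable {P : Type u} [Fintype P] [PartialOrder P] [DecidableEq P] {r : ℕ}
variable {t : Tops P} {lo hi : ℕ → ℕ} {e : ℕ → ℕ → P}

/-- one more cell over the masks with the bits of `m` -/
def nx1 (m k : ℕ) (Js : List ℕ) : List ℕ :=
  Js.flatMap fun J => bif Nat.beq (Nat.land m J) m then [J, Nat.lor J (2 ^ k)] else [J]

/-- at most two more cells over the masks with the bits of `m` -/
def nx2 (m k k' : ℕ) (Js : List ℕ) : List ℕ :=
  Js.flatMap fun J => bif Nat.beq (Nat.land m J) m then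
    [J, Nat.lor J (2 ^ k), Nat.lor (Nat.lor J (2 ^ k)) (2 ^ k')] else [J]

lemma mem_nx1 {m k J J' : ℕ} {Js : List ℕ} (hJ : J ∈ Js)
    (h : J' = J ∨ (Sm m J ∧ J' = Nat.lor J (2 ^ k))) : J' ∈ nx1 m k Js := by
  unfold nx1
  rw [List.mem_flatMap]
  refine ⟨J, hJ, ?_⟩
  rcases h with rfl | ⟨h1, rfl⟩
  · cases Nat.beq (Nat.land m J') m <;> simp
  · rw [← sm_iff] at h1
    rw [h1, Nat.beq_refl]
    simp

lemma mem_nx2 {m k k' J J' : ℕ} {Js : List ℕ} (hJ : J ∈ Js)
    (h : J' = J ∨ (Sm m J ∧ (J' = Nat.lor J (2 ^ k) ∨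
      J' = Nat.lor (Nat.lor J (2 ^ k)) (2 ^ k')))) : J' ∈ nx2 m k k' Js := by
  unfold nx2
  rw [List.mem_flatMap]
  refine ⟨J, hJ, ?_⟩
  rcases h with rfl | ⟨h1, h2⟩
  · cases Nat.beq (Nat.land m J') m <;> simp
  · rw [← sm_iff] at h1
    rw [h1, Nat.beq_refl]
    rcases h2 with rfl | rfl <;> simp

/-- the cells of `La5` -/
def ce5 (e : ℕ → ℕ → P) (a : ℕ) : P := e (La5lv.getD a 0) (La5sl.getD a 0)

/-- the masks of the first stage -/
def JA1 : List ℕ := nx1 65536 19 [524287]
def JA2 : List ℕ := nx1 131072 20 JA1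
def JA3 : List ℕ := nx1 196608 21 JA2
def JA4 : List ℕ := nx2 393216 22 23 JA3
def JA5 : List ℕ := nx2 4194304 24 25 JA4
def JA6 : List ℕ := nx2 8388608 26 27 JA5

/-- the masks of the second stage -/
def JB1 : List ℕ := nx1 65536 19 [524287]
def JB2 : List ℕ := nx1 196608 20 JB1
def JB3 : List ℕ := nx1 393216 21 JB2
def JB4 : List ℕ := nx2 2621440 22 23 JB3
def JB5 : List ℕ := nx2 3145728 24 25 JB4
def JB6 : List ℕ := nx2 524288 26 27 JB5

/-- the first pole of the first stage -/
def wA (J : ℕ) : ℕ :=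
  bif J.testBit 20 then 20 else bif J.testBit 23 then 23 else bif J.testBit 24 then 24 else 25

/-- its value -/
def rA (J : ℕ) : ℤ := bif J.testBit 20 then -1 else bif J.testBit 23 then -1 else
  bif J.testBit 25 then -2 else -1

/-- the types of the first stage -/
def MsA : List (ℕ × ℕ) := [(65536, 11), (131072, 11), (196608, 11), (393216, 11), (4194304, 12),
  (8388608, 12)]

/-- the types of the second stage -/
def MsB : List (ℕ × ℕ) := [(65536, 11), (196608, 11), (393216, 11), (2621440, 12), (3145728, 12),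
  (524288, 12)]

lemma JA_sm : ∀ J ∈ JA6, Nat.land 524287 J = 524287 ∧ Nat.land 300415 J = 300415 := by
  decide +kernel

lemma JA_chk : ∀ J ∈ JA6, mskC MaL J (wA J) = true ∧ Nat.ble 1 (wA J) = true ∧
    Nat.ble (wA J) 25 = true := by
  decide +kernel

lemma JA_pol : ∀ J ∈ JA6, (wA J < 25 →
    poleC 28 5 (wA J) 5 (rA J) (fun a => Malv.getD a 0) Maus MaL J = true) := by
  decide +kernel

lemma JA_dp : ∀ J ∈ JA6, dpC 28 (fun a => Malv.getD a 0) (fun a => Maum.getD a 0)
    (fun a => Math.getD a 0) MsA [] J (min 25 (wA J + 1)) = true := by decide +kernel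

lemma JB_sm : ∀ J ∈ JB6, Nat.land 524287 J = 524287 ∧ Nat.land 300415 J = 300415 := by
  decide +kernel

lemma JB_chk : ∀ J ∈ JB6, mskC MbL J 33 = true := by
  decide +kernel

lemma JB_dp : ∀ J ∈ JB6, dpC 28 (fun a => Mblv.getD a 0) (fun a => Mbum.getD a 0)
    (fun a => Mbth.getD a 0) MsB [2097152] J (min 33 (33 + 1)) = true := by decide +kernel

end Pool.Agent.GaussPoset.J10

end
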