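import Mathlib
import Pool.Agent.W_448zz_h61.Ns
import Pool.Agent.W_448zz_h61.M181
import Pool.Agent.W_448zz_h61.M187
import Pool.Agent.W_448zz_h61.M192

/-! From `Pool.Agent.W_448j10_h67.JbY` -/

section

/-!
Level 10, window 5: the boundary elements (MP_448cb3_co).
-/

namespace Pool.Agent.GaussPoset.J10

set_option linter.unusedSectionVars false

open Polynomial Finset Dd Wd Cl J8

universe u

variable {P : Type u} [Fintype P] [PartialOrder P] [DecidableEq P] {r : ℕ}

/-- a pendant of the level 11 below an end with the profile `p` -/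
structure Pn (p : List ℕ) (z x : P) : Prop where
  cov : z ⋖ x
  only : ∀ y, z ⋖ y → y = x
  lev : GaussPoset.lev z = 11
  levx : GaussPoset.lev x = 10
  pf : Pf x p

/-- the boundary elements -/
inductive Kd (Kc : ℕ) (lo hi : Tops P → ℕ → ℕ) (w : Tops P → ℕ) (θ : Tops P → P → ℕ)
    (h : P → ℕ) (z : P) : Prop
  | far (t : Tops P) (hc : min Kc (w t + 1) ≤ cst 5 h z)
  | q (x : P) (hp : Pn pQ z x) (hh : h z = 1)
  | f (x : P) (hp : Pn pF z x) (hh : h z = 2)
  | e6 (x : P) (hp : Pn pE6 z x) (hh : h z = 3)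
  | c7 (x : P) (hc : Cp7 (θ (topOf x)) z x) (hzx : z ⋖ x) (hh : h z = 4)
  | cx (t : Tops P) (hx : IsC t (b10 lo hi t) (θ t) z) (hh : h z = 2)
  | jn (x y : P) (hcg : Sm.Cg z x y) (hl : lev z = 11) (hh : h z = th10 θ x + 1)
      (hm : th10 θ x ≤ th10 θ y)

section

variable {lo hi : Tops P → ℕ → ℕ} {e : Tops P → ℕ → ℕ → P} {Kc : ℕ} {w : Tops P → ℕ}
  {ρ : Tops P → ℤ} {S : Tops P → Finset P} {θ : Tops P → P → ℕ} {B : Tops P → P → Prop}

/-- **The kinds of the boundary elements.** -/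
theorem C10.kind (W : C10 P r lo hi e Kc w ρ S θ B) {z : P} (hz : z ∈ bdR (unnat S)) :
    Kd Kc lo hi w θ (h10 S θ) z := by
  classical
  have H := W.K.gt.H
  have HN := W.sys
  obtain ⟨x, hx, hzx, hh⟩ := hcan_spec (θ := th10 θ) hz
  have hh' : h10 S θ z = θ (topOf x) x + 1 := hh
  have hzR := (mem_filter.mp hz).1
  have hz11 := W.lev11 hzR
  have hzl := (H.covBy_iff.mp hzx).2
  have hzS : z ∉ S (topOf x) := mem_unnat.mp hzR (topOf x)
  have hxS : x ∈ S (topOf x) := HN.mem_iff.mpr ⟨hx, rfl⟩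
  have hct : ct 5 (θ (topOf x) x + 1) z = cst 5 (h10 S θ) z := (cst_ct hh').symm
  rcases Nat.lt_or_ge 11 (lev z) with hl | hl
  · rcases (W.td (topOf x)).deep z x (by omega) hzS hxS hzx with h1 | h1
    · rw [hct] at h1
      exact Kd.far _ h1
    · exact Kd.c7 x h1 hzx (by rw [hh', h1.2.2.1])
  · have hlz : lev z = 11 := by omega
    have hlx : lev x = 10 := by omega
    have hly : ∀ y, z ⋖ y → lev y = 10 := fun y hy => by
      have := (H.covBy_iff.mp hy).2
      omega
    by_cases ho : ∀ y, z ⋖ y → y ≤ (topOf x : P)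
    · have hmin : ∀ y, z ⋖ y → θ (topOf x) x ≤ θ (topOf x) y := by
        intro y hy
        have h1 := W.h_le hy (ho y hy) (hly y hy).le
        omega
      rcases (W.td (topOf x)).own z x hlz hzS ho hzx hmin with h1 | ⟨h1, h2⟩ | h1
      · rw [hct] at h1
        exact Kd.far _ h1
      · rcases h2 with ⟨h3, h4⟩ | ⟨h3, h4⟩ | ⟨h3, h4⟩
        · exact Kd.q x ⟨hzx, h1, hlz, hlx, h4⟩ (by omega)
        · exact Kd.f x ⟨hzx, h1, hlz, hlx, h4⟩ (by omega)
        · exact Kd.e6 x ⟨hzx, h1, hlz, hlx, h4⟩ (by omega)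
      · exact Kd.cx _ h1 (IsC.two W hz h1)
    · push Not at ho
      obtain ⟨y, hy, hyt⟩ := ho
      have hne : topOf x ≠ topOf y := by
        intro h
        rw [h] at hyt
        exact hyt (le_topOf y)
      have hon : ∀ v : P, lev v = 10 → v ∈ onlyB (topOf v) := fun v hv =>
        only_low W.K.gt v (le_topOf v) hv.le
      have h1 := W.h_le hy (le_topOf y) (hly y hy).le
      refine Kd.jn x y (Sm.Cg.mk' hzx hy (hon x hlx) (hon y (hly y hy)) hne) hlz hh' ?_
      unfold th10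
      omega

/-! ### costs and leading terms -/

/-- the numbers above a pendant -/
lemma Pn.nab {p : List ℕ} {z x : P} (h : Pn p z x) {k : ℕ} (hk : k < 10) :
    nab k z = p.getD k 0 := by
  rw [nab_one_cov h.only h.cov (by rw [h.lev]; omega)]
  exact h.pf k hk

lemma Pn.nab10 {p : List ℕ} {z x : P} (h : Pn p z x) : GaussPoset.nab 10 z = 1 := by
  rw [nab_one_cov h.only h.cov (by rw [h.lev]; omega)]
  have := nab_self (z := x)
  rwa [h.levx] at this

/-- the cost of an element of the level 11 -/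
lemma cst11 {h : P → ℕ} {z : P} (hl : lev z = 11) :
    cst 5 h z = min (h z) 1 * nab 6 z + min (h z) 2 * nab 7 z + min (h z) 3 * nab 8 z +
      min (h z) 4 * nab 9 z + min (h z) 5 * nab 10 z + min (h z) 6 := by
  have h11 : nab 11 z = 1 := by
    have := nab_self (z := z)
    rwa [hl] at this
  rw [cst_eq, hl]
  simp only [Finset.sum_range_succ, Finset.sum_range_zero, h11]
  norm_num

lemma Pn.q_cost {z x : P} {h : P → ℕ} (hp : Pn pQ z x) (hh : h z = 1) : cst 5 h z = 6 := by
  rw [cst11 hp.lev, hh, hp.nab10, hp.nab (k := 6) (by norm_num), hp.nab (k := 7) (by norm_num),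
    hp.nab (k := 8) (by norm_num), hp.nab (k := 9) (by norm_num)]
  rfl

lemma Pn.f_cost {z x : P} {h : P → ℕ} (hp : Pn pF z x) (hh : h z = 2) : cst 5 h z = 17 := by
  rw [cst11 hp.lev, hh, hp.nab10, hp.nab (k := 6) (by norm_num), hp.nab (k := 7) (by norm_num),
    hp.nab (k := 8) (by norm_num), hp.nab (k := 9) (by norm_num)]
  rfl

lemma Pn.e6_cost {z x : P} {h : P → ℕ} (hp : Pn pE6 z x) (hh : h z = 3) : cst 5 h z = 18 := by
  rw [cst11 hp.lev, hh, hp.nab10, hp.nab (k := 6) (by norm_num), hp.nab (k := 7) (by norm_num),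
    hp.nab (k := 8) (by norm_num), hp.nab (k := 9) (by norm_num)]
  rfl

/-- the numbers above a pendant of a pendant of `E7` -/
lemma Cp7.nab {θ : P → ℕ} {z x : P} (h : Cp7 θ z x) (hzx : z ⋖ x) {k : ℕ} (hk : k < 10) :
    nab k z = pE7.getD k 0 := by
  rw [nab_one_cov h.2.1 hzx (by rw [h.1]; omega)]
  exact h.2.2.2.1 k hk

lemma Cp7.cost (H : Gr P r) {θ : P → ℕ} {z x : P} {h : P → ℕ} (hc : Cp7 θ z x) (hzx : z ⋖ x)
    (hh : h z = 4) : cst 5 h z = 28 := by
  have h12 : GaussPoset.nab 12 z = 1 := by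
    have := nab_self (z := z)
    rwa [hc.1] at this
  have hlx : lev x = 11 := by
    have h1 := (H.covBy_iff.mp hzx).2
    have h2 := hc.1
    omega
  have h11 : GaussPoset.nab 11 z = 1 := by
    rw [nab_one_cov hc.2.1 hzx (by rw [hc.1]; omega)]
    have := nab_self (z := x)
    rwa [hlx] at this
  have h10 : GaussPoset.nab 10 z = 1 := by
    rw [nab_one_cov hc.2.1 hzx (by rw [hc.1]; omega)]
    exact hc.2.2.2.2
  rw [cst_eq, hc.1]
  simp only [Finset.sum_range_succ, Finset.sum_range_zero, h12, h11, h10, hh]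
  rw [hc.nab hzx (k := 6) (by norm_num), hc.nab hzx (k := 7) (by norm_num),
    hc.nab hzx (k := 8) (by norm_num), hc.nab hzx (k := 9) (by norm_num)]
  norm_num [pE7]

/-- the leading term -/
lemma lt_lv {h : P → ℕ} {z : P} {s a b : ℕ} (hs : nst 5 h z = s) (ha : nab 5 z = a + 1)
    (hb : nab (5 + h z) z = a) (hB : b = s % 2) :
    Lv (lv P 5).card (Lt 5 h z) ((-1) ^ b * (-1) ^ below P 5) := by
  have hB' : nab 5 z ≤ (lv P 5).card := nab_le z 5
  unfold Lt
  rw [hs, ha, hb]
  have e1 : (lv P 5).card + a - (a + 1) = (lv P 5).card - 1 := by omega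
  have h1 := Lv.mono (lv P 5).card (below P 5 + s)
  have e2 : (-1 : ℤ) ^ (below P 5 + s) = (-1) ^ b * (-1) ^ below P 5 := by
    rw [pow_add, mul_comm]
    congr 1
    rw [hB, ← Nat.mod_add_div s 2]
    rw [pow_add, pow_mul]
    simp
  rw [e2] at h1
  rw [e1]
  exact h1

end

end Pool.Agent.GaussPoset.J10

end

/-! From `Pool.Agent.W_448j10_h67.JbZ` -/

section

/-!
Level 10, window 5: (C) elements and other boundary elements (MP_448cb3_co).
-/

namespace Pool.Agent.GaussPoset.J10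

set_option linter.unusedSectionVars false

open Polynomial Finset Dd Wd Cl J8

universe u

variable {P : Type u} [Fintype P] [PartialOrder P] [DecidableEq P] {r : ℕ}

/-- no boundary element which is a pendant with this profile -/
def NoPn (S : Tops P → Finset P) (p : List ℕ) : Prop :=
  ∀ z ∈ bdR (unnat S), ∀ x : P, ¬ Pn p z x

/-- the single elements of the level 10 of a stair -/
lemma cel_ends2 {t : Tops P} {Nc : Finset P} {co : P → ℕ × ℕ} {z F E : P}
    (C : CEl t Nc co 5 z F E) {x : P} (hx : x ≤ (t : P)) (hl : lev x = 10) (h9 : nab 9 x = 1) :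
    x = F ∨ x = E := by
  classical
  have hxN : x ∈ Nc := C.strip (mem_lowPart.mpr ⟨hx, by omega⟩)
  have h1 := C.chart.lev x hxN
  have h2 : (co x).1 ≤ (co x).2 := C.chart.mem x hxN
  rcases Nat.eq_zero_or_pos (co x).1 with h3 | h3
  · right
    refine C.chart.inj x hxN E C.S_mem ?_
    rw [C.co_S]
    exact Prod.ext h3 (by simp only; omega)
  · rcases Nat.lt_or_ge (co x).1 (co x).2 with h4 | h4
    · exfalso
      obtain ⟨y1, hy1, hc1⟩ := C.chart.low x hxN ((co x).1 - 1, (co x).2)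
        ⟨by simp only; omega, le_rfl⟩ (by simp only; omega)
      obtain ⟨y2, hy2, hc2⟩ := C.chart.low x hxN ((co x).1, (co x).2 - 1)
        ⟨le_rfl, by simp only; omega⟩ (by simp only; omega)
      have l1 := C.chart.lev y1 hy1
      have l2 := C.chart.lev y2 hy2
      rw [hc1] at l1
      rw [hc2] at l2
      simp only at l1 l2
      have a1 : x ≤ y1 := (C.chart.le_iff x hxN y1 hy1).mpr (by
        rw [hc1]
        exact ⟨by simp only; omega, le_rfl⟩)
      have a2 : x ≤ y2 := (C.chart.le_iff x hxN y2 hy2).mpr (by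
        rw [hc2]
        exact ⟨le_rfl, by simp only; omega⟩)
      have := two_le_nab (l := 9) a1 a2 (by omega) (by omega) (fun h => by
        rw [h] at hc1
        have h5 := congrArg Prod.fst (hc1.symm.trans hc2)
        simp only at h5
        omega)
      omega
    · left
      refine C.chart.inj x hxN F C.F_mem ?_
      rw [C.co_F]
      exact Prod.ext (by simp only; omega) (by simp only; omega)

/-- two (C) elements of one stair have the same covers -/
lemma cel_same {t : Tops P} {Nc Nc' : Finset P} {co co' : P → ℕ × ℕ} {z F E z' F' E' : P}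
    (C : CEl t Nc co 5 z F E) (C' : CEl t Nc' co' 5 z' F' E') : F' = F ∧ E' = E := by
  have f9 : nab 9 F' = 1 := C'.nab_F (u := 4) (by norm_num)
  have e9 : nab 9 E' = 1 := C'.nab_S (by norm_num)
  have f5 : nab 5 F' = 3 := C'.nab_F (u := 0) (by norm_num)
  have e5 : nab 5 E' = 1 := C'.nab_S (by norm_num)
  have g5 : nab 5 F = 3 := C.nab_F (u := 0) (by norm_num)
  have k5 : nab 5 E = 1 := C.nab_S (by norm_num)
  constructor
  · rcases cel_ends2 C (C'.chart.le_t F' C'.F_mem) C'.lev_F f9 with h | h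
    · exact h
    · rw [h] at f5
      omega
  · rcases cel_ends2 C (C'.chart.le_t E' C'.S_mem) C'.lev_S e9 with h | h
    · rw [h] at e5
      omega
    · exact h

section

variable {lo hi : Tops P → ℕ → ℕ} {e : Tops P → ℕ → ℕ → P} {Kc : ℕ} {w : Tops P → ℕ}
  {ρ : Tops P → ℤ} {S : Tops P → Finset P} {θ : Tops P → P → ℕ} {B : Tops P → P → Prop}

/-- the cost of a (C) element -/
lemma cx_cost (hgr : GradedBelow P) {t : Tops P} {b : ℕ} {θ : P → ℕ} {h : P → ℕ} {z : P}
    (h0 : h z = 2) (hx : IsC t b θ z) : cst 5 h z = 26 := by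
  obtain ⟨Nc, co, F, S, C, -⟩ := hx
  have h1 := C.cst_eq hgr (by norm_num)
  have h2 : hh 5 = 2 := rfl
  rw [h2] at h1
  rw [cst_ct h0]
  have h3 : E0 5 = 26 := by decide +kernel
  rw [← h3]
  exact h1

/-- the elements of a family of (C) elements -/
lemma C10.fam_cx (W : C10 P r lo hi e Kc w ρ S θ B) {z y : P} {t : Tops P}
    (hx : IsC t (b10 lo hi t) (θ t) z) (hy : y ∈ J8.fam (unnat S) z) :
    h10 S θ y = 2 ∧ IsC t (b10 lo hi t) (θ t) y := by
  obtain ⟨Nc, co, F, E, C, hb, hF⟩ := hx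
  obtain ⟨hyR, hup⟩ := J8.mem_fam.mp hy
  have hyF := (cov_of_up hup).mp C.zF
  have hyS := (cov_of_up hup).mp C.zS
  have C' : CEl t Nc co 5 y F E := ⟨C.chart, C.strip, C.F_mem, C.S_mem, C.co_F, C.co_S, hyF,
    hyS, fun w hw => C.only w ((cov_of_up hup).mpr hw)⟩
  have h1 : IsC t (b10 lo hi t) (θ t) y := ⟨Nc, co, F, E, C', hb, hF⟩
  exact ⟨IsC.two W hyR h1, h1⟩

/-- the elements above an element of another component -/
lemma other_sum (hgr : GradedBelow P) {h : P → ℕ} {z' v : P} (hv : lev v = 10) (hzv : z' < v)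
    (h1 : 1 ≤ h z') : 5 ≤ ∑ x, (by classical exact if v ≤ x then ez 5 h z' x else 0) := by
  classical
  have h2 : ct 5 1 v ≤ ∑ x, if v ≤ x then ez 5 h z' x else 0 := by
    rw [ct_eq_sum]
    refine Finset.sum_le_sum fun x _ => ?_
    by_cases h3 : v ≤ x
    · rw [if_pos h3, if_pos h3]
      unfold ez
      rw [if_pos (hzv.le.trans h3)]
      omega
    · rw [if_neg h3]
      exact Nat.zero_le _
  have h3 := cst_ge (i := 5) (h := fun _ => 1) (z := v) (fun _ => 1)
    (fun k _ hk => one_le_nab hk)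
  rw [hv] at h3
  simp only [Finset.sum_range_succ, Finset.sum_range_zero, mul_one] at h3
  have h4 : ct 5 1 v = cst 5 (fun _ => 1) v := rfl
  omega

/-- a (C) element and another boundary element -/
lemma C10.pair (W : C10 P r lo hi e Kc w ρ S θ B) {n : ℕ} (hn : n ≤ 31) (hK : n < Kc)
    (hw : ∀ t, n ≤ w t) (hno : 26 ≤ n → NoPn S pQ ∧ NoPn S pF ∧ NoPn S pE6) {z z' : P}
    {t : Tops P} (hz : h10 S θ z = 2)
    (hx : IsC t (b10 lo hi t) (θ t) z) (hz' : z' ∈ bdR (unnat S))
    (hne : z' ∉ J8.fam (unnat S) z) :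
    n < ∑ x, max (ez 5 (h10 S θ) z x) (ez 5 (h10 S θ) z' x) := by
  classical
  have H := W.K.gt.H
  have hc := cx_cost H.gradedBelow hz hx
  have hmax : cst 5 (h10 S θ) z ≤ ∑ x, max (ez 5 (h10 S θ) z x) (ez 5 (h10 S θ) z' x) :=
    Finset.sum_le_sum fun x _ => le_max_left _ _
  rcases Nat.lt_or_ge n 26 with h26 | h26
  · omega
  obtain ⟨n1, n2, n3⟩ := hno h26
  have hmax' : cst 5 (h10 S θ) z' ≤ ∑ x, max (ez 5 (h10 S θ) z x) (ez 5 (h10 S θ) z' x) :=
    Finset.sum_le_sum fun x _ => le_max_right _ _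
  have hx' := hx
  obtain ⟨Nc, co, F, E, C, hb, hF⟩ := hx
  have hlz : lev z = 11 := C.lev_z H.gradedBelow
  have hlz' := W.lev11 (mem_filter.mp hz').1
  have hle : ¬ z ≤ z' := by
    intro h
    rcases eq_or_lt_of_le h with h1 | h1
    · apply hne
      rw [← h1]
      exact J8.mem_fam.mpr ⟨by rw [h1]; exact hz', fun _ => Iff.rfl⟩
    · have := lev_strictAnti h1
      omega
  have hone := W.one_le hz'
  have hself : ez 5 (h10 S θ) z' z' = h10 S θ z' := ez_self ((W.lad hw).le_lev hz')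
  -- elements which are not above `z`
  have hsum : ∀ (T : P → Prop) (_ : DecidablePred T), (∀ x, T x → ¬ z ≤ x) →
      26 + ∑ x, (if T x then ez 5 (h10 S θ) z' x else 0) ≤
        ∑ x, max (ez 5 (h10 S θ) z x) (ez 5 (h10 S θ) z' x) := by
    intro T _ hT
    have e1 : cst 5 (h10 S θ) z = ∑ x, ez 5 (h10 S θ) z x := rfl
    rw [← hc, e1, ← Finset.sum_add_distrib]
    refine Finset.sum_le_sum fun x _ => ?_
    by_cases h1 : T x
    · have e2 : ez 5 (h10 S θ) z x = 0 := by
        unfold ez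
        rw [if_neg (hT x h1)]
      rw [if_pos h1, e2, zero_add]
      exact le_max_right _ _
    · rw [if_neg h1, add_zero]
      exact le_max_left _ _
  have hFt := C.chart.le_t F C.F_mem
  have hEt := C.chart.le_t E C.S_mem
  -- elements of other components
  have hoth : ∀ v, lev v = 10 → z' < v → ¬ v ≤ (t : P) → n < ∑ x,
      max (ez 5 (h10 S θ) z x) (ez 5 (h10 S θ) z' x) := by
    intro v hv hzv hvt
    have hnot : ∀ x, v ≤ x → ¬ z ≤ x := by
      intro x hvx hzx
      have hlx : lev x ≤ 10 := by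
        rcases eq_or_lt_of_le hvx with h1 | h1
        · rw [← h1]; omega
        · have := lev_strictAnti h1
          omega
      have hzx' : z < x := lt_of_le_of_ne hzx (by rintro rfl; omega)
      have hxt : x ≤ (t : P) := by
        rcases C.lt_iff.mp hzx' with h1 | h1
        · exact Cp.up_le H W.K.gt.good t.2 hFt C.lev_F.le h1
        · exact Cp.up_le H W.K.gt.good t.2 hEt C.lev_S.le h1
      exact hvt (hvx.trans hxt)
    have h1 := hsum (fun x => x = z' ∨ v ≤ x) (fun x => inferInstance) (by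
      rintro x (rfl | h)
      · exact hle
      · exact hnot x h)
    have h2 := other_sum H.gradedBelow hv hzv hone
    have h3 : h10 S θ z' + ∑ x, (if v ≤ x then ez 5 (h10 S θ) z' x else 0) ≤
        ∑ x, (if x = z' ∨ v ≤ x then ez 5 (h10 S θ) z' x else 0) := by
      have e3 : h10 S θ z' = ∑ x, (if x = z' then ez 5 (h10 S θ) z' x else 0) := by
        rw [Finset.sum_ite_eq' univ z', if_pos (mem_univ _), hself]
      rw [e3, ← Finset.sum_add_distrib]
      refine Finset.sum_le_sum fun x _ => ?_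
      by_cases h4 : x = z'
      · have h5 : ¬ v ≤ x := by
          rw [h4]
          exact not_le_of_gt hzv
        rw [if_pos h4, if_neg h5, if_pos (Or.inl h4), add_zero]
      · by_cases h5 : v ≤ x
        · rw [if_neg h4, if_pos h5, if_pos (Or.inr h5), zero_add]
        · rw [if_neg h4, if_neg h5]
          exact Nat.zero_le _
    omega
  rcases W.kind hz' with ⟨t', h1⟩ | ⟨x, h1, -⟩ | ⟨x, h1, -⟩ | ⟨x, h1, -⟩ | ⟨x, h1, h2, h3⟩ |
    ⟨t', h1, h2⟩ | ⟨x, y, h1, h2, h3, -⟩
  · have := hw t'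
    omega
  · exact absurd h1 (n1 z' hz' x)
  · exact absurd h1 (n2 z' hz' x)
  · exact absurd h1 (n3 z' hz' x)
  · have hlx : lev x = 11 := by
      have := (H.covBy_iff.mp h2).2
      have := h1.1
      omega
    have hzx : ¬ z ≤ x := by
      intro h4
      rcases eq_or_lt_of_le h4 with h5 | h5
      · subst h5
        -- `z` has two covers, `x` one
        have h6 := h1.2.2.2.2
        have h10 : 2 ≤ nab 10 z := two_le_nab (z := z) C.zF.1.le C.zS.1.le C.lev_F C.lev_S (by
          intro h7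
          have h8 : nab 5 F = 3 := C.nab_F (u := 0) (by norm_num)
          have h9 : nab 5 E = 1 := C.nab_S (by norm_num)
          rw [h7] at h8
          omega)
        omega
      · have := lev_strictAnti h5
        omega
    have h4 := hsum (fun y => y = z' ∨ y = x) (fun y => inferInstance) (by
      rintro y (rfl | rfl)
      · exact hle
      · exact hzx)
    have h5 : 8 ≤ ∑ y, (if y = z' ∨ y = x then ez 5 (h10 S θ) z' y else 0) := by
      have hzne : z' ≠ x := h2.1.ne
      rw [← Finset.sum_filter]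
      have e1 : (univ.filter (fun y => y = z' ∨ y = x)) = {z', x} := by
        ext y
        simp
      rw [e1, Finset.sum_pair hzne, hself, h3]
      have e2 : ez 5 (h10 S θ) z' x = 4 := by
        unfold ez
        rw [if_pos h2.1.le, h3, hlx]
        norm_num
      rw [e2]
    omega
  · obtain ⟨Nc', co', F', E', C', hb', hF'⟩ := h1
    by_cases htt : t' = t
    · subst htt
      exfalso
      obtain ⟨e1, e2⟩ := cel_same C C'
      subst e1
      subst e2
      apply hne
      rw [J8.mem_fam]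
      refine ⟨hz', up_of_cov fun v => ?_⟩
      constructor
      · intro hv
        rcases C.only v hv with h5 | h5
        · rw [h5]; exact C'.zF
        · rw [h5]; exact C'.zS
      · intro hv
        rcases C'.only v hv with h5 | h5
        · rw [h5]; exact C.zF
        · rw [h5]; exact C.zS
    · refine hoth F' C'.lev_F C'.zF.1 ?_
      intro h4
      exact htt ((W.top_of (C'.chart.le_t F' C'.F_mem) C'.lev_F.le).symm.trans
        (W.top_of h4 C'.lev_F.le))
  · have hlx : lev x = 10 := by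
      have := (H.covBy_iff.mp h1.cov).2
      omega
    have hly : lev y = 10 := by
      have := (H.covBy_iff.mp h1.cov').2
      omega
    by_cases h4 : x ≤ (t : P)
    · refine hoth y hly h1.cov'.1 ?_
      intro h5
      exact h1.ne ((W.top_of h4 hlx.le).trans (W.top_of h5 hly.le).symm)
    · exact hoth x hlx h1.cov.1 h4

end

end Pool.Agent.GaussPoset.J10

end

/-! From `Pool.Agent.W_448j10_h67.JcA` -/

section

/-!
Level 10, window 5: one step of the ladder (MP_448cb3_co).
-/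

namespace Pool.Agent.GaussPoset.J10

set_option linter.unusedSectionVars false

open Polynomial Finset Dd Wd Cl J8

universe u

variable {P : Type u} [Fintype P] [PartialOrder P] [DecidableEq P] {r : ℕ}

section

variable {lo hi : Tops P → ℕ → ℕ} {e : Tops P → ℕ → ℕ → P} {Kc : ℕ} {w : Tops P → ℕ}
  {ρ : Tops P → ℤ} {S : Tops P → Finset P} {θ : Tops P → P → ℕ} {B : Tops P → P → Prop}

/-- the (C) elements -/
noncomputable def CX (lo hi : Tops P → ℕ → ℕ) (S : Tops P → Finset P)
    (θ : Tops P → P → ℕ) : Finset P := by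
  classical exact (bdR (unnat S)).filter (fun z => h10 S θ z = 2 ∧
    ∃ t, IsC t (b10 lo hi t) (θ t) z)

lemma mem_CX {z : P} : z ∈ CX lo hi S θ ↔ z ∈ bdR (unnat S) ∧ h10 S θ z = 2 ∧
    ∃ t, IsC t (b10 lo hi t) (θ t) z := by
  classical
  unfold CX
  rw [mem_filter]

/-- **One step of the ladder.** -/
theorem C10.step (W : C10 P r lo hi e Kc w ρ S θ B) (hne : Nonempty (Tops P)) {n : ℕ}
    (hn5 : 5 ≤ n) (hn : n ≤ 30) (hK : n < Kc) (hw : ∀ t, n ≤ w t)
    (hno : 26 ≤ n → NoPn S pQ ∧ NoPn S pF ∧ NoPn S pE6) (σ : ℤ) (hσ : σ = 1 ∨ σ = -1)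
    (h30 : n = 30 → σ = 1) (v : P → ℤ)
    (hc : ∀ z ∈ bdR (unnat S), z ∉ CX lo hi S θ → n ≤ cst 5 (h10 S θ) z)
    (hv : ∀ z ∈ bdR (unnat S), z ∉ CX lo hi S θ → cst 5 (h10 S θ) z = n →
      Lv (lv P 5).card (Lt 5 (h10 S θ) z) (v z * (-1) ^ below P 5) ∧ 0 ≤ σ * v z)
    (hρ : ∀ t, w t = n → 0 < σ * ρ t) :
    (∀ t, n < w t) ∧
    (∀ z ∈ bdR (unnat S), z ∉ CX lo hi S θ → cst 5 (h10 S θ) z = n → v z = 0) ∧
    (n = 30 → CX lo hi S θ = ∅) := by
  classical
  have H := W.K.gt.H
  have hgr := H.gradedBelow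
  have L := W.lad hw
  set Fam : Finset (Finset P) := (CX lo hi S θ).image (J8.fam (unnat S)) with hFam
  have hFm : ∀ A ∈ Fam, ∃ z ∈ CX lo hi S θ, A = J8.fam (unnat S) z := by
    intro A hA
    rw [hFam, mem_image] at hA
    obtain ⟨z, h1, h2⟩ := hA
    exact ⟨z, h1, h2.symm⟩
  have hcx : ∀ z ∈ CX lo hi S θ, J8.fam (unnat S) z ∈ Fam := fun z hz =>
    mem_image_of_mem _ hz
  have hmem : ∀ z ∈ CX lo hi S θ, ∀ y ∈ J8.fam (unnat S) z, y ∈ CX lo hi S θ := by
    intro z hz y hy
    obtain ⟨h1, h2, t, h3⟩ := mem_CX.mp hz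
    obtain ⟨h4, h5⟩ := W.fam_cx h3 hy
    exact mem_CX.mpr ⟨(J8.mem_fam.mp hy).1, h4, t, h5⟩
  have hnoF : ∀ z, z ∈ bdR (unnat S) → (∀ A ∈ Fam, z ∉ A) → z ∉ CX lo hi S θ :=
    fun z hz h h' => h _ (hcx z h') (J8.fam_self hz)
  have hplus := L.plus0 (n := n) le_rfl Fam
    (by
      intro A hA z hz
      obtain ⟨y, -, rfl⟩ := hFm A hA
      exact (J8.mem_fam.mp hz).1)
    (fun z hz hno' => hc z hz (hnoF z hz hno'))
    (by
      intro A hA z hz z' hz' hne'
      obtain ⟨y, hy, rfl⟩ := hFm A hA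
      obtain ⟨-, h1, t, h2⟩ := mem_CX.mp hy
      obtain ⟨h3, h4⟩ := W.fam_cx h2 hz
      refine W.pair (by omega) hK hw hno h3 h4 hz' ?_
      rwa [← J8.fam_eq hz (J8.fam_self (J8.mem_fam.mp hz).1)])
    (by
      intro A hA A' hA' hne' z hz hz'
      obtain ⟨y, -, rfl⟩ := hFm A hA
      obtain ⟨y', -, rfl⟩ := hFm A' hA'
      exact hne' (J8.fam_eq hz hz'))
  rw [W.sum_b] at hplus
  -- the values
  have v0 : Lv (lv P 5).card (Z P 5 n) 0 := Lv.zero (dvd_Z H.gauss 5 n)
  have v1 : Lv (lv P 5).card (Z {x : P // x ∉ unnat S} 5 n)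
      ((∑ t, (if w t = n then ρ t else 0)) * (-1) ^ below P 5) := by
    refine L.nat_lv (by omega) (fun t => (W.td t).b_one) hne W.sum_b
      (fun t => if w t = n then ρ t else 0) ?_
    intro t
    rcases eq_or_lt_of_le (hw t) with h1 | h1
    · right
      intro f hf
      show Pl n (b10 lo hi t) (if w t = n then ρ t else 0) f
      rw [if_pos h1.symm]
      have h2 := (W.td t).pole (by omega) S W.sys rfl f hf
      rwa [← h1] at h2
    · left
      refine ⟨by
        show (if w t = n then ρ t else 0) = 0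
        rw [if_neg (by omega)], ?_⟩
      exact (W.data t).clean (unnat S) ⟨L.low, Subset.refl _, L.lev, L.base⟩ inferInstance n h1
  have v2 : ∀ A ∈ Fam, Lv (lv P 5).card (ZF 5 (h10 S θ) A n)
      ((if n = 30 then (A.card : ℤ) else 0) * (-1) ^ below P 5) := by
    intro A hA
    obtain ⟨z, hz, rfl⟩ := hFm A hA
    obtain ⟨h1, h2, t, h3⟩ := mem_CX.mp hz
    obtain ⟨Nc, co, F, E, C, hb, hF⟩ := h3
    have key := fam_poleT C (g := 2) (u := 1) (b := b10 lo hi) H W.sys
      (fun x hx => W.lev11 hx) (fun k hk => dvd_restL L W.sys t (by omega)) rfl le_rfl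
      (by norm_num) (by norm_num) hb (h := h10 S θ) (A := J8.fam (unnat S) z)
      (J8.fam_self h1) (fun y hy => (J8.mem_fam.mp hy).2)
      (fun y hy => (W.fam_cx ⟨Nc, co, F, E, C, hb, hF⟩ hy).1)
    have e1 : E0 5 + hh 5 ^ 2 = 30 := by decide +kernel
    rw [e1, W.sum_b] at key
    rcases eq_or_lt_of_le hn with hn' | hn'
    · rw [if_pos hn']
      have k2 := key.2
      rw [← hn'] at k2
      refine Lv.congr k2 ?_
      have e2 : ((J8.fam (unnat S) z).card : ℤ) * (-1) ^ below P 5 =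
          ∑ _y ∈ J8.fam (unnat S) z, (-1 : ℤ) ^ (below P 5 + (1 + 1) * 2) := by
        rw [Finset.sum_const, nsmul_eq_mul, pow_add]
        norm_num
      rw [e2]
      exact Lv.sum _ fun y _ => Lv.mono _ _
    · rw [if_neg (by omega), zero_mul]
      exact Lv.zero (key.1 n hn')
  set T := (bdR (unnat S)).filter (fun z => (∀ A ∈ Fam, z ∉ A) ∧
    cst 5 (hcan (unnat S) (th10 θ)) z = n) with hT
  have hTm : ∀ z ∈ T, z ∈ bdR (unnat S) ∧ z ∉ CX lo hi S θ ∧ cst 5 (h10 S θ) z = n := by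
    intro z hz
    rw [hT, mem_filter] at hz
    exact ⟨hz.1, hnoF z hz.1 hz.2.1, hz.2.2⟩
  have v3 : ∀ z ∈ T, Lv (lv P 5).card (Lt 5 (hcan (unnat S) (th10 θ)) z)
      (v z * (-1) ^ below P 5) := by
    intro z hz
    obtain ⟨h1, h2, h3⟩ := hTm z hz
    exact (hv z h1 h2 h3).1
  have v5 := (v1.add ((Lv.sum Fam v2).add (Lv.sum T v3)))
  have v6 := Lv.congr hplus v5
  have hB : 1 ≤ (lv P 5).card := by
    obtain ⟨t⟩ := hne
    rw [← W.sum_b]
    have h1 : b10 lo hi t ≤ ∑ t, b10 lo hi t :=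
      Finset.single_le_sum (f := b10 lo hi) (fun _ _ => Nat.zero_le _) (mem_univ t)
    have h2 : 1 ≤ b10 lo hi t := (W.td t).b_one
    omega
  have v7 := v6.eq_zero hB (dvd_Z H.gauss 5 n)
  rw [← Finset.sum_mul, ← Finset.sum_mul, ← add_mul, ← add_mul] at v7
  have v8 := (mul_eq_zero.mp v7).resolve_right (pow_ne_zero _ (by norm_num))
  have v9 : ∑ t, σ * (if w t = n then ρ t else 0) +
      (∑ A ∈ Fam, σ * (if n = 30 then (A.card : ℤ) else 0) + ∑ z ∈ T, σ * v z) = 0 := by
    rw [← Finset.mul_sum, ← Finset.mul_sum, ← Finset.mul_sum, ← mul_add, ← mul_add, v8,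
      mul_zero]
  have hσ0 : σ ≠ 0 := by rcases hσ with rfl | rfl <;> norm_num
  have p1 : ∀ t ∈ (univ : Finset (Tops P)), 0 ≤ σ * (if w t = n then ρ t else 0) := by
    intro t _
    split_ifs with h1
    · exact (hρ t h1).le
    · rw [mul_zero]
  have p2 : ∀ A ∈ Fam, 0 ≤ σ * (if n = 30 then (A.card : ℤ) else 0) := by
    intro A _
    split_ifs with h1
    · rw [h30 h1, one_mul]
      positivity
    · rw [mul_zero]
  have p3 : ∀ z ∈ T, 0 ≤ σ * v z := by
    intro z hz
    obtain ⟨h1, h2, h3⟩ := hTm z hz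
    exact (hv z h1 h2 h3).2
  have n1 := Finset.sum_nonneg p1
  have n2 := Finset.sum_nonneg p2
  have n3 := Finset.sum_nonneg p3
  have m1 : ∑ t, σ * (if w t = n then ρ t else 0) = 0 := by omega
  have m2 : ∑ A ∈ Fam, σ * (if n = 30 then (A.card : ℤ) else 0) = 0 := by omega
  have m3 : ∑ z ∈ T, σ * v z = 0 := by omega
  refine ⟨?_, ?_, ?_⟩
  · intro t
    rcases eq_or_lt_of_le (hw t) with h1 | h1
    · exfalso
      have h2 := (Finset.sum_eq_zero_iff_of_nonneg p1).mp m1 t (mem_univ t)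
      rw [if_pos h1.symm] at h2
      have := hρ t h1.symm
      omega
    · exact h1
  · intro z hz hzC hzn
    have hzT : z ∈ T := by
      rw [hT, mem_filter]
      refine ⟨hz, fun A hA hzA => ?_, hzn⟩
      obtain ⟨y, hy, rfl⟩ := hFm A hA
      exact hzC (hmem y hy z hzA)
    have h2 := (Finset.sum_eq_zero_iff_of_nonneg p3).mp m3 z hzT
    exact (mul_eq_zero.mp h2).resolve_left hσ0
  · intro hn30
    by_contra hcon
    obtain ⟨z, hz⟩ := Finset.nonempty_iff_ne_empty.mpr hcon
    have h2 := (Finset.sum_eq_zero_iff_of_nonneg p2).mp m2 _ (hcx z hz)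
    rw [if_pos hn30, h30 hn30, one_mul] at h2
    have h3 : 0 < (J8.fam (unnat S) z).card :=
      Finset.card_pos.mpr ⟨z, J8.fam_self (mem_CX.mp hz).1⟩
    have h4 : ((J8.fam (unnat S) z).card : ℤ) ≠ 0 := by exact_mod_cast h3.ne'
    exact h4 h2

end

end Pool.Agent.GaussPoset.J10

end
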