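import Mathlib
import Pool.Agent.W_448zz_h61.Ns
import Pool.Agent.W_448zz_h61.M125
import Pool.Agent.W_448zz_h61.M184
import Pool.Agent.W_448zz_h61.M193
import Pool.Agent.W_448zz_h61.M194

/-! From `Pool.Agent.W_448j10_h67.JbK` -/

section

/-!
The components at the window 5, level 10: stair-like components (MP_448cb3_co).
-/

namespace Pool.Agent.GaussPoset.J10

set_option linter.unusedSectionVars false

open Polynomial Finset Dd Wd Cl J8

universe u

variable {P : Type u} [Fintype P] [PartialOrder P] [DecidableEq P] {r : ℕ}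
variable {t : Tops P} {lo hi : ℕ → ℕ} {e : ℕ → ℕ → P}

/-- the profile of the fold end -/
lemma fold_prof10 {Nc : Finset P} {co : P → ℕ × ℕ}
    (C : Chart (t : P) (fun c => c.1 ≤ c.2) Nc co) {x : P} (hx : x ∈ Nc)
    (hc : co x = (5, 5)) : Pf x pF := by
  intro k hk
  have h3 := nab_chart C hx k
  have h4 := card_cellsAt_shift (l := k) (p := co x) (by rw [hc]) (by
    rw [hc]
    show k ≤ 5 + 5
    omega)
  rw [← h3, hc] at h4
  simp only at h4
  have h5 : ∀ k < 10, min (k / 2) 5 + 1 - (k - 5) = pF.getD k 0 := by decide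
  rw [← h5 k hk]
  omega

/-- no natural element below the fold end and the straight end -/
lemma stair_noC (H : Gr P r) {Nc : Finset P} {co : P → ℕ × ℕ}
    (C : Chart (t : P) (fun c => c.1 ≤ c.2) Nc co) {y F S : P} (hF : F ∈ Nc) (hS : S ∈ Nc)
    (hcF : co F = (5, 5)) (hcS : co S = (0, 10)) (hyF : y ⋖ F) (hyS : y ⋖ S)
    (hy : y ∈ natS Nc co) : False := by
  rcases mem_natS.mp hy with h1 | h1
  · have p1 := (chart_cov C H h1 hF).mp hyF
    have p2 := (chart_cov C H h1 hS).mp hyS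
    rw [hcF] at p1
    rw [hcS] at p2
    unfold Prd at p1 p2
    simp only at p1 p2
    omega
  · obtain ⟨x1, E1, hz⟩ := mem_junk.mp h1
    rcases (mem_jset.mp hz).2 F hyF.1.le with h2 | h2
    · have h3 := (C.le_iff F hF x1 E1.mem).mp h2
      have h4 := E1.lt F hF (by rw [hcF]; norm_num)
      have h5 : (co x1).2 ≤ (co F).2 := h3.2
      omega
    · have h3 := (C.le_iff x1 E1.mem F hF).mp h2
      have h4 : (co F).1 ≤ (co x1).1 := h3.1
      rw [hcF, E1.fst] at h4
      exact absurd h4 (by norm_num)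

lemma kapS_five : KapS 5 34 := by
  intro s c h1 h2 h3
  have h4 : ∀ s ≤ 5, 1 ≤ s → 34 ≤ ((s - 2 * (5 / 2)) + ((2 * 5 + 1 - s) - 5) + 1) +
      ∑ a ∈ range (s + 1), rowW true (fun k => min ((s - 2 * (5 / 2)) +
        ((2 * 5 + 1 - s) - 5) + 1) (k - 5)) (2 * 5 + 1 - s) (2 * 5 + 1) a := by
    decide +kernel
  obtain rfl : c = 2 * 5 + 1 - s := by omega
  exact h4 s h2 h1

/-- stair-like components -/
theorem tdStair (h : Win.GoodTo P r 10) (C : Cp.Comp 10 (t : P) lo hi e)
    (S : StairShape 10 lo hi) : ∃ S' θ B, TD 33 t (hi 5 - lo 5 + 1) 33 0 S' θ B ∧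
      (lo 10 = 0 → ∀ z, z ⋖ e 10 5 → z ⋖ e 10 0 → z ∉ S' ∧ IsC t (hi 5 - lo 5 + 1) θ z) := by
  classical
  have H := h.H
  have hg := h.good
  have e0 : lo 5 = 0 := by
    by_contra hcon
    have e1 := shape_lo C S.lo (l := 5) (by omega) 5 (by norm_num)
    have e2 := S.hi (5 + 5) (by norm_num)
    have e3 := C.lo_le (5 + 5) (by norm_num)
    omega
  have u5 := S.hi 5 (by norm_num)
  have u10 := S.hi 10 le_rfl
  norm_num at u5 u10
  have hb : hi 5 - lo 5 + 1 = 3 := by omega
  obtain ⟨Nc, co, R, hco⟩ := exists_stair' C H hg H.gradedBelow S (i := 5) (by norm_num) e0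
  have CC := R.chart
  have hR := R.natTop H.gradedBelow (by norm_num) (by norm_num)
  have h52 : 5 / 2 + 1 = 3 := by norm_num
  rw [h52] at hR
  have hmem : ∀ x, x ≤ (t : P) → lev x = 10 → x ∈ Nc := fun x hx hl =>
    R.strip (mem_lowPart.mpr ⟨hx, hl.le⟩)
  have hcl : ∀ x ∈ Nc, lev x = 10 → (co x).1 + (co x).2 = 10 ∧ (co x).1 ≤ (co x).2 := by
    intro x hx hl
    have h1 := CC.lev x hx
    exact ⟨by omega, CC.mem x hx⟩
  have hend : ∀ x ∈ Nc, lev x = 10 → (Win.uc x).card = 1 →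
      co x = (5, 5) ∨ co x = (0, 10) := by
    intro x hx hl hu1
    obtain ⟨h1, h2⟩ := hcl x hx hl
    by_contra hcon
    push Not at hcon
    have h3 : (co x).1 ≠ 5 := fun h4 => hcon.1 (Prod.ext h4 (by simp only; omega))
    have h4 : (co x).1 ≠ 0 := fun h4 => hcon.2 (Prod.ext h4 (by simp only; omega))
    have := chartS_inner_uc CC H hx (by omega) (by omega)
    omega
  have hnop : ∀ x z : P, x ≤ (t : P) → lev x = 10 → (Win.uc x).card = 2 → z ⋖ x →
      (∀ y, z ⋖ y → y = x) → False := by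
    intro x z hxt hxl hx2 hzx honly
    have h2 := stairShape_pendant (i := 9) h (by norm_num) t.2 C S hxl hxt hx2 hzx honly
    have h3 := cell_lev C (x := x) hxt (by omega)
    omega
  set N0 := upd (fun s : Tops P => onlyB s) t (natS Nc co) with hN0
  have HN := natSys_updO (t := t) hR.up hR.le_t
  have hNt : N0 t = natS Nc co := upd_self _ _ _
  have hun : ∀ {z x : P}, z ∉ natS Nc co → x ∈ natS Nc co → z ≤ x → z ∈ unnat N0 :=
    fun hz hx hzx => unnat_updO hR.le_t hz hx hzx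
  have hjk : ∀ x ∈ Nc, thS 5 Nc co x = lev x - 5 ∨
      thS 5 Nc co x = ((co x).1 - 4) + ((co x).2 - 5) := by
    intro x _
    unfold thS
    split_ifs
    · exact Or.inl rfl
    · exact Or.inr rfl
  have hnj : ∀ x ∈ Nc, x ∉ junk (fun c => c.1 ≤ c.2) Nc co →
      thS 5 Nc co x = ((co x).1 - 4) + ((co x).2 - 5) := by
    intro x _ h1
    unfold thS
    rw [if_neg h1]
  have hendth : ∀ x ∈ Nc, co x = (0, 10) → thS 5 Nc co x = 5 := by
    intro x hx hc
    have hlc := CC.lev x hx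
    rcases hjk x hx with h2 | h2
    · rw [hc] at hlc
      simp only at hlc
      omega
    · rw [h2, hc]
      rfl
  have hFth : ∀ x ∈ Nc, co x = (5, 5) → thS 5 Nc co x = 1 := by
    intro x hx hc
    rw [hnj x hx (not_junk CC hx (by rw [hc]; norm_num)), hc]
    rfl
  have TT : TD 33 t 3 33 0 (natS Nc co ∪ twS (natS Nc co)) (thT (natS Nc co) (thS 5 Nc co))
      (fun x => x ∈ natS Nc co ∧ (x ∈ Nc ∧ co x = (2 * (5 / 2), 5))) := by
    refine tdTw h hR (by norm_num) (fun x hx => mem_natS.mpr (Or.inl (R.strip hx))) ?_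
      (natTop_le hR) ?_ ?_ ?_
    · rintro x - ⟨hx, hc⟩
      rw [CC.lev x hx, hc]
      norm_num
    · -- costs
      intro x hx hl
      have hF : (x ∈ junk (fun c => c.1 ≤ c.2) Nc co ∨ (x ∈ Nc ∧ (co x).1 = 0)) →
          thS 5 Nc co x = lev x - 5 → FulL (natS Nc co) (thS 5 Nc co) x := by
        intro h7 hth
        refine ⟨hth, ?_, ?_⟩
        · intro z hz hzx k hk hkx
          exact stair_two_le_nab H R hNt (hun hz hx hzx) hzx h7 (by omega) hkx
        · intro z hz hw
          have hxt : x < (topOf x : P) := lt_of_le_of_ne (le_topOf x) (by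
            intro h
            have h3 := (topOf x).2
            rw [← h] at h3
            omega)
          obtain ⟨u, hu, -⟩ := Hul.exists_cov hxt
          have huN : u ∈ natS Nc co := hR.up x hx u hu.1.le
          have hzU : z ∈ unnat N0 := hun hz huN ((hw u).mp hu.1).le
          rcases h7 with h' | ⟨hxN, h'⟩
          · exact hz (mem_natS.mpr (Or.inr (junk_twin h' hw)))
          · have hlx := CC.lev x hxN
            obtain ⟨u, hu, hcu⟩ := CC.low x hxN (0, (co x).2 - 1)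
              ⟨Nat.zero_le _, Nat.sub_le _ _⟩ (Nat.zero_le _)
            refine straight_twinS H R (by norm_num) hNt hxN hu ?_ ?_ ?_ hzU hw
            · rw [hcu]
              exact Or.inr ⟨by simp only; omega, by simp only; omega⟩
            · intro y hy hp
              rw [hcu]
              rcases hp with hp | hp
              · omega
              · exact Prod.ext (by simp only; omega) (by simp only; omega)
            · rw [hcu]
      by_cases hJ : x ∈ junk (fun c => c.1 ≤ c.2) Nc co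
      · left
        refine hF (Or.inl hJ) ?_
        unfold thS
        rw [if_pos hJ]
      · have hxN : x ∈ Nc := by
          rw [mem_natS] at hx
          rcases hx with h | h
          · exact h
          · exact absurd h hJ
        have hlx := CC.lev x hxN
        have hcx : (co x).1 ≤ (co x).2 := CC.mem x hxN
        have hth := hnj x hxN hJ
        by_cases h7 : (co x).1 = 0
        · left
          refine hF (Or.inr ⟨hxN, h7⟩) ?_
          rw [hth]
          omega
        · right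
          refine ⟨by rw [hth]; omega, ?_⟩
          exact kap_chartG (m := 5) (k := thS 5 Nc co x + 1) kapS_five (by norm_num) CC hxN
            (by omega) (by omega) (by rw [hth])
    · -- own elements
      intro z x hl hz hnt ho hzx hm
      have hly : ∀ y, z ⋖ y → lev y = 10 := by
        intro y hy
        have := (H.covBy_iff.mp hy).2
        omega
      have hx := hmem x (ho x hzx) (hly x hzx)
      rcases cov_cases H hzx with hp | ⟨x', hzx', hne⟩
      · have h3 := stair_pendant H R (by norm_num) hNt (hun hz (mem_natS.mpr (Or.inl hx))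
          hzx.1.le) (by rw [hNt]; exact mem_natS.mpr (Or.inl hx)) hzx hp
        by_cases hu : (Win.uc x).card = 2
        · exact (hnop x z (ho x hzx) (hly x hzx) hu hzx hp).elim
        · have hu1 : (Win.uc x).card = 1 := by
            rcases Win.uc_card_cases H (x := x) (by rw [hly x hzx]; norm_num) with h4 | h4
            · exact h4
            · exact absurd h4 hu
          rcases hend x hx (hly x hzx) hu1 with hc | hc
          · exact Ow.pend hp (Or.inr (Or.inl ⟨hFth x hx hc, fold_prof10 CC hx hc⟩))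
          · have h4 := h3.2.2
            rw [hc] at h4
            exact absurd h4 (by norm_num)
      · have hx' := hmem x' (ho x' hzx') (hly x' hzx')
        rcases near11 h hl hzx hzx' (Ne.symm hne) with ⟨p, hp1, hp2⟩ | ⟨u1, u2⟩
        · obtain ⟨y, hy, hyx, hyx'⟩ := near_chart H CC R.max
            (fun s c (h : s + 1 ≤ c) => show s + 1 ≤ c + 1 by omega) hx hx'
            hp1 hp2 hzx hzx' (Ne.symm hne) (fun h => hz (mem_natS.mpr (Or.inl h)))
          exact (hnt y (mem_natS.mpr (Or.inl hy))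
            (up_pair_eq H hzx hzx' hyx hyx' (Ne.symm hne))).elim
        · refine Ow.cx ?_
          have key : ∀ a c : P, a ∈ Nc → c ∈ Nc → z ⋖ a → z ⋖ c → a ≠ c →
              co a = (5, 5) → (Win.uc c).card = 1 → IsC t 3 (thS 5 Nc co) z := by
            intro a c ha hc hza hzc hac hca huc
            have hcc : co c = (0, 10) := by
              rcases hend c hc (hly c hzc) huc with g | g
              · exact absurd (CC.inj a ha c hc (by rw [hca, g])) hac
              · exact g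
            exact ⟨Nc, co, a, c, ⟨CC, R.strip, ha, hc, hca, hcc, hza, hzc,
              fun y hy => uc_pair H hza hzc hac hy⟩, rfl, hFth a ha hca⟩
          rcases hend x hx (hly x hzx) u1 with hc | hc
          · exact key x x' hx hx' hzx hzx' (Ne.symm hne) hc u2
          · rcases hend x' hx' (hly x' hzx') u2 with hc' | hc'
            · exact key x' x hx' hx hzx' hzx hne hc' u1
            · exact absurd (CC.inj x' hx' x hx (by rw [hc', hc])) hne
    · -- ends
      intro x hxt hl hu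
      have hx := hmem x hxt hl
      rcases hend x hx hl hu with hc | hc
      · exact En.f (hFth x hx hc) (fold_prof10 CC hx hc)
      · refine En.far (hendth x hx hc).ge fun k hk => ?_
        have h3 := nab_chart CC hx k
        have h4 := card_cellsAt_shift (l := k) (p := co x) (CC.mem x hx) (by
          have := CC.lev x hx
          omega)
        rw [← h3, hc] at h4
        simp only at h4
        omega
  rw [hb]
  refine ⟨_, _, _, TT, ?_⟩
  intro h0 z hz5 hz0
  have m5 : e 10 5 ∈ lowPart 10 (t : P) := mem_lowPart.mpr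
    ⟨C.le_t 10 5 le_rfl (by omega) (by omega), (C.lev_e 10 5 le_rfl (by omega) (by omega)).le⟩
  have m0 : e 10 0 ∈ lowPart 10 (t : P) := mem_lowPart.mpr
    ⟨C.le_t 10 0 le_rfl (by omega) (by omega), (C.lev_e 10 0 le_rfl (by omega) (by omega)).le⟩
  have c5 : co (e 10 5) = (5, 5) := by
    rw [hco _ m5]
    unfold ccoord
    rw [scoord_e C (k := 10) (s := 5) le_rfl (by omega) (by omega),
      C.lev_e 10 5 le_rfl (by omega) (by omega)]
  have c0 : co (e 10 0) = (0, 10) := by
    rw [hco _ m0]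
    unfold ccoord
    rw [scoord_e C (k := 10) (s := 0) le_rfl (by omega) (by omega),
      C.lev_e 10 0 le_rfl (by omega) (by omega)]
  have hne : e 10 5 ≠ e 10 0 := by
    intro hh
    have := C.inj 10 5 0 le_rfl (by omega) (by omega) (by omega) (by omega) hh
    omega
  have hzN : z ∉ natS Nc co := fun hz =>
    stair_noC H CC (R.strip m5) (R.strip m0) c5 c0 hz5 hz0 hz
  refine ⟨?_, Nc, co, e 10 5, e 10 0, ⟨CC, R.strip, R.strip m5, R.strip m0, c5, c0, hz5, hz0,
      fun y hy => uc_pair H hz5 hz0 hne hy⟩, rfl, ?_⟩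
  · rw [mem_union, not_or]
    refine ⟨hzN, fun hT => ?_⟩
    obtain ⟨-, -, y, hy, hw⟩ := mem_twS.mp hT
    exact stair_noC H CC (R.strip m5) (R.strip m0) c5 c0 ((cov_of_up hw).mp hz5)
      ((cov_of_up hw).mp hz0) hy
  · rw [thT_not]
    · exact hFth _ (R.strip m5) c5
    · intro hT
      have h1 := (mem_twS.mp hT).2.1
      rw [C.lev_e 10 5 le_rfl (by omega) (by omega)] at h1
      omega

end Pool.Agent.GaussPoset.J10

end

/-! From `Pool.Agent.W_448j10_h67.JbU` -/

section

/-!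
The components at the window 5, level 10: codes of the strip `La5` (MP_448cb3_co).
-/

namespace Pool.Agent.GaussPoset.J10

set_option linter.unusedSectionVars false

open Polynomial Finset Dd Wd Cl J8 Sg

universe u

variable {P : Type u} [Fintype P] [PartialOrder P] [DecidableEq P] {r : ℕ}
variable {t : Tops P} {lo hi : ℕ → ℕ} {e : ℕ → ℕ → P}

lemma La5_lv10 : ∀ a < 19, La5lv.getD a 0 ≤ 10 := by decide +kernel

/-- the start of the codes -/
lemma La5_fx0 {cv lv : ℕ → ℕ} (hcv : ∀ a < 19, cv a = La5cv.getD a 0)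
    (hlv : ∀ a < 19, lv a = La5lv.getD a 0) (h3 : ∀ a < 19, cv a < 2 ^ a)
    (h : Win.GoodTo P r 10) (C : Cp.Comp 10 (t : P) lo hi e) (D : WordD 10 5 wa5 lo hi) :
    Fx (lowPart 10 (t : P)) 28 524287 cv lv (ce5 e) (lowPart 10 (t : P)) [] := by
  obtain ⟨r1, r2⟩ := D.rows C
  have hcod : Cod 19 (fun a => La5cv.getD a 0) (fun a => La5lv.getD a 0) (ce5 e) :=
    La5_strip.cod C h.H h.good t.2 (j := 10) (by norm_num) r1 r2
  have hle : ∀ a < 19, ce5 e a ∈ lowPart 10 (t : P) := by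
    intro a ha
    have h3 := La5_strip.row a (by omega)
    have h4 := La5_lv10 a ha
    rw [← r1 _ h4, ← r2 _ h4] at h3
    rw [mem_lowPart]
    unfold ce5
    rw [C.lev_e _ _ h4 h3.1 h3.2]
    exact ⟨C.le_t _ _ h4 h3.1 h3.2, h4⟩
  have C0 : Cx 28 (2 ^ 19 - 1) cv lv (ce5 e) (lowPart 10 (t : P)) := by
    refine Cx.ofCod (n := 19) hcod (by norm_num) hcv hlv h3 ?_
    intro x
    constructor
    · intro hx
      exact La5_strip.surj' C (j := 10) (by norm_num) r1 r2 hx
    · rintro ⟨a, ha, rfl⟩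
      exact hle a ha
  rw [show 2 ^ 19 - 1 = 524287 by norm_num] at C0
  refine ⟨C0, fun z => ?_⟩
  constructor
  · exact Or.inl
  · rintro (h1 | ⟨p, hp, -⟩)
    · exact h1
    · exact absurd hp (by simp)

lemma low_ne {l : ℕ} (hl : 10 < l) : ∀ z ∈ lowPart 10 (t : P), lev z ≠ l := by
  intro z hz
  have := (mem_lowPart.mp hz).2
  omega

lemma ce5_row (e : ℕ → ℕ → P) : ce5 e 16 = e 10 3 ∧ ce5 e 17 = e 10 4 ∧ ce5 e 18 = e 10 5 := by
  refine ⟨?_, ?_, ?_⟩ <;> rfl

lemma JA1_b : ∀ J ∈ JA1, J.testBit 20 = false ∧ Nat.land 524287 J = 524287 := by decide +kernel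
lemma JA2_b : ∀ J ∈ JA2, J.testBit 21 = false ∧ Nat.land 524287 J = 524287 := by decide +kernel
lemma JA3_b : ∀ J ∈ JA3, (J.testBit 22 = false ∧ J.testBit 23 = false) ∧
    Nat.land 524287 J = 524287 := by decide +kernel
lemma JA4_b : ∀ J ∈ JA4, (J.testBit 24 = false ∧ J.testBit 25 = false) ∧
    Nat.land 524287 J = 524287 := by decide +kernel
lemma JA5_b : ∀ J ∈ JA5, (J.testBit 26 = false ∧ J.testBit 27 = false) ∧
    Nat.land 524287 J = 524287 := by decide +kernel
lemma JB1_b : ∀ J ∈ JB1, J.testBit 20 = false ∧ Nat.land 524287 J = 524287 := by decide +kernel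
lemma JB2_b : ∀ J ∈ JB2, J.testBit 21 = false ∧ Nat.land 524287 J = 524287 := by decide +kernel
lemma JB3_b : ∀ J ∈ JB3, (J.testBit 22 = false ∧ J.testBit 23 = false) ∧
    Nat.land 524287 J = 524287 := by decide +kernel
lemma JB4_b : ∀ J ∈ JB4, (J.testBit 24 = false ∧ J.testBit 25 = false) ∧
    Nat.land 524287 J = 524287 := by decide +kernel
lemma JB5_b : ∀ J ∈ JB5, (J.testBit 26 = false ∧ J.testBit 27 = false) ∧
    Nat.land 524287 J = 524287 := by decide +kernel

lemma bit19 {J : ℕ} (hJ : Nat.land 524287 J = 524287) {a : ℕ} (ha : a < 19) :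
    J.testBit a = true := by
  refine sm_iff.mp hJ a ?_
  rw [show 524287 = 2 ^ 19 - 1 by norm_num, Nat.testBit_two_pow_sub_one]
  simpa using ha

/-- the code of the first stage -/
theorem La5_cxA (h : Win.GoodTo P r 10) (C : Cp.Comp 10 (t : P) lo hi e)
    (D : WordD 10 5 wa5 lo hi) : ∃ c J S, Fx (lowPart 10 (t : P)) 28 J (fun a => Macv.getD a 0)
      (fun a => Malv.getD a 0) c S MsA ∧ J ∈ JA6 ∧ (∀ a < 19, c a = ce5 e a) := by
  classical
  have R := La5_r5 C D
  obtain ⟨k16, k17, k18⟩ := ce5_row e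
  have F0 := La5_fx0 (cv := fun a => Macv.getD a 0) (lv := fun a => Malv.getD a 0)
    (by decide +kernel) (by decide +kernel) (by decide +kernel) h C D
  obtain ⟨c1, J1, S1, a1, F1, j1⟩ := F0.step1 (k := 19) (m := 65536) (l := 11) (by norm_num)
    (by decide) (by decide +kernel) (by decide +kernel) (fun _ => R.card3 h C k16)
    (low_ne (by norm_num)) (by decide) (by decide) (by decide)
  have m1 : J1 ∈ JA1 := mem_nx1 (by simp) j1
  obtain ⟨b1, b1'⟩ := JA1_b J1 m1
  have g1 : ∀ a < 19, c1 a = ce5 e a := fun a ha => a1 a (bit19 (by decide) ha)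
  obtain ⟨c2, J2, S2, a2, F2, j2⟩ := F1.step1 (k := 20) (m := 131072) (l := 11) (by norm_num)
    b1 (by decide +kernel) (by decide +kernel)
    (fun _ => R.card4 h C (by rw [g1 17 (by norm_num), k17]))
    (low_ne (by norm_num)) (by decide) (by decide) (by decide)
  have m2 : J2 ∈ JA2 := mem_nx1 m1 j2
  obtain ⟨b2, b2'⟩ := JA2_b J2 m2
  have g2 : ∀ a < 19, c2 a = ce5 e a := fun a ha => by rw [a2 a (bit19 b1' ha), g1 a ha]
  obtain ⟨c3, J3, S3, a3, F3, j3⟩ := F2.step1 (k := 21) (m := 196608) (l := 11) (by norm_num)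
    b2 (by decide +kernel) (by decide +kernel)
    (fun _ => R.card34 h C (by rw [g2 16 (by norm_num), k16])
      (by rw [g2 17 (by norm_num), k17]))
    (low_ne (by norm_num)) (by decide) (by decide) (by decide)
  have m3 : J3 ∈ JA3 := mem_nx1 m2 j3
  obtain ⟨b3, b3'⟩ := JA3_b J3 m3
  have g3 : ∀ a < 19, c3 a = ce5 e a := fun a ha => by rw [a3 a (bit19 b2' ha), g2 a ha]
  obtain ⟨c4, J4, S4, a4, F4, j4⟩ := F3.step2 (k := 22) (k' := 23) (m := 393216) (l := 11)
    (by norm_num) (by norm_num) (by norm_num) b3.1 b3.2 (by decide +kernel)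
    (by decide +kernel) (by decide +kernel) (by decide +kernel)
    (fun _ => tyS_card h.H (k := 17) (by decide))
    (low_ne (by norm_num)) (by decide) (by decide) (by decide) (by decide)
  have m4 : J4 ∈ JA4 := mem_nx2 m3 j4
  obtain ⟨b4, b4'⟩ := JA4_b J4 m4
  have g4 : ∀ a < 19, c4 a = ce5 e a := fun a ha => by rw [a4 a (bit19 b3' ha), g3 a ha]
  obtain ⟨c5, J5, S5, a5, F5, j5⟩ := F4.step2 (k := 24) (k' := 25) (m := 4194304) (l := 12)
    (by norm_num) (by norm_num) (by norm_num) b4.1 b4.2 (by decide +kernel)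
    (by decide +kernel) (by decide +kernel) (by decide +kernel)
    (fun _ => tyS_card h.H (k := 22) (by decide))
    (low_ne (by norm_num)) (by decide) (by decide) (by decide) (by decide)
  have m5 : J5 ∈ JA5 := mem_nx2 m4 j5
  obtain ⟨b5, b5'⟩ := JA5_b J5 m5
  have g5 : ∀ a < 19, c5 a = ce5 e a := fun a ha => by rw [a5 a (bit19 b4' ha), g4 a ha]
  obtain ⟨c6, J6, S6, a6, F6, j6⟩ := F5.step2 (k := 26) (k' := 27) (m := 8388608) (l := 12)
    (by norm_num) (by norm_num) (by norm_num) b5.1 b5.2 (by decide +kernel)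
    (by decide +kernel) (by decide +kernel) (by decide +kernel)
    (fun _ => tyS_card h.H (k := 23) (by decide))
    (low_ne (by norm_num)) (by decide) (by decide) (by decide) (by decide)
  have m6 : J6 ∈ JA6 := mem_nx2 m5 j6
  have g6 : ∀ a < 19, c6 a = ce5 e a := fun a ha => by rw [a6 a (bit19 b5' ha), g5 a ha]
  exact ⟨c6, J6, S6, F6, m6, g6⟩

/-- the elements excluded after the first stage -/
structure ExA (e : ℕ → ℕ → P) : Prop where
  n4 : ∀ z, lev z = 11 → (∀ y, z ⋖ y ↔ y = e 10 4) → False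
  n45 : ∀ z z', lev z = 11 → lev z' = 11 → (∀ y, z ⋖ y ↔ (y = e 10 4 ∨ y = e 10 5)) →
    (∀ y, z' ⋖ y ↔ (y = e 10 4 ∨ y = e 10 5)) → z = z'
  nA : ∀ z y, lev z = 12 → (∀ v, z ⋖ v ↔ v = y) → lev y = 11 →
    (∀ v, y ⋖ v ↔ (v = e 10 4 ∨ v = e 10 5)) → False

/-- the elements of the type `{4, 5}` -/
lemma ty45 {c : ℕ → P} {m : ℕ} (h17 : c 17 = e 10 4) (h18 : c 18 = e 10 5) (hm : m = 393216)
    {z : P} : Cvs c m z ↔ ∀ y, z ⋖ y ↔ (y = e 10 4 ∨ y = e 10 5) := by
  rw [hm, show (393216 : ℕ) = Nat.lor (2 ^ 17) (2 ^ 18) by decide, cvs_two, h17, h18]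

/-- the code of the second stage -/
theorem La5_cxB (h : Win.GoodTo P r 10) (C : Cp.Comp 10 (t : P) lo hi e)
    (D : WordD 10 5 wa5 lo hi) (E : ExA e) : ∃ c J S, Fx (lowPart 10 (t : P)) 28 J
      (fun a => Mbcv.getD a 0) (fun a => Mblv.getD a 0) c S MsB ∧ J ∈ JB6 ∧
      (∀ a < 19, c a = ce5 e a) := by
  classical
  have R := La5_r5 C D
  obtain ⟨k16, k17, k18⟩ := ce5_row e
  have F0 := La5_fx0 (cv := fun a => Mbcv.getD a 0) (lv := fun a => Mblv.getD a 0)
    (by decide +kernel) (by decide +kernel) (by decide +kernel) h C D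
  obtain ⟨c1, J1, S1, a1, F1, j1⟩ := F0.step1 (k := 19) (m := 65536) (l := 11) (by norm_num)
    (by decide) (by decide +kernel) (by decide +kernel) (fun _ => R.card3 h C k16)
    (low_ne (by norm_num)) (by decide) (by decide) (by decide)
  have m1 : J1 ∈ JB1 := mem_nx1 (by simp) j1
  obtain ⟨b1, b1'⟩ := JB1_b J1 m1
  have g1 : ∀ a < 19, c1 a = ce5 e a := fun a ha => a1 a (bit19 (by decide) ha)
  obtain ⟨c2, J2, S2, a2, F2, j2⟩ := F1.step1 (k := 20) (m := 196608) (l := 11) (by norm_num)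
    b1 (by decide +kernel) (by decide +kernel)
    (fun _ => R.card34 h C (by rw [g1 16 (by norm_num), k16])
      (by rw [g1 17 (by norm_num), k17]))
    (low_ne (by norm_num)) (by decide) (by decide) (by decide)
  have m2 : J2 ∈ JB2 := mem_nx1 m1 j2
  obtain ⟨b2, b2'⟩ := JB2_b J2 m2
  have g2 : ∀ a < 19, c2 a = ce5 e a := fun a ha => by rw [a2 a (bit19 b1' ha), g1 a ha]
  obtain ⟨c3, J3, S3, a3, F3, j3⟩ := F2.step1 (k := 21) (m := 393216) (l := 11) (by norm_num)
    b2 (by decide +kernel) (by decide +kernel)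
    (fun _ => by
      rw [Finset.card_le_one]
      intro z hz z' hz'
      have h17 : c2 17 = e 10 4 := by rw [g2 17 (by norm_num), k17]
      have h18 : c2 18 = e 10 5 := by rw [g2 18 (by norm_num), k18]
      exact E.n45 z z' (mem_tyS.mp hz).1 (mem_tyS.mp hz').1
        ((ty45 h17 h18 rfl).mp (mem_tyS.mp hz).2) ((ty45 h17 h18 rfl).mp (mem_tyS.mp hz').2))
    (low_ne (by norm_num)) (by decide) (by decide) (by decide)
  have m3 : J3 ∈ JB3 := mem_nx1 m2 j3
  obtain ⟨b3, b3'⟩ := JB3_b J3 m3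
  have g3 : ∀ a < 19, c3 a = ce5 e a := fun a ha => by rw [a3 a (bit19 b2' ha), g2 a ha]
  obtain ⟨c4, J4, S4, a4, F4, j4⟩ := F3.step2 (k := 22) (k' := 23) (m := 2621440) (l := 12)
    (by norm_num) (by norm_num) (by norm_num) b3.1 b3.2 (by decide +kernel)
    (by decide +kernel) (by decide +kernel) (by decide +kernel)
    (fun _ => tyS_card h.H (k := 19) (by decide))
    (low_ne (by norm_num)) (by decide) (by decide) (by decide) (by decide)
  have m4 : J4 ∈ JB4 := mem_nx2 m3 j4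
  obtain ⟨b4, b4'⟩ := JB4_b J4 m4
  have g4 : ∀ a < 19, c4 a = ce5 e a := fun a ha => by rw [a4 a (bit19 b3' ha), g3 a ha]
  obtain ⟨c5, J5, S5, a5, F5, j5⟩ := F4.step2 (k := 24) (k' := 25) (m := 3145728) (l := 12)
    (by norm_num) (by norm_num) (by norm_num) b4.1 b4.2 (by decide +kernel)
    (by decide +kernel) (by decide +kernel) (by decide +kernel)
    (fun _ => tyS_card h.H (k := 20) (by decide))
    (low_ne (by norm_num)) (by decide) (by decide) (by decide) (by decide)
  have m5 : J5 ∈ JB5 := mem_nx2 m4 j5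
  obtain ⟨b5, b5'⟩ := JB5_b J5 m5
  have g5 : ∀ a < 19, c5 a = ce5 e a := fun a ha => by rw [a5 a (bit19 b4' ha), g4 a ha]
  obtain ⟨c6, J6, S6, a6, F6, j6⟩ := F5.step2 (k := 26) (k' := 27) (m := 524288) (l := 12)
    (by norm_num) (by norm_num) (by norm_num) b5.1 b5.2 (by decide +kernel)
    (by decide +kernel) (by decide +kernel) (by decide +kernel)
    (fun _ => tyS_card h.H (k := 19) (by decide))
    (low_ne (by norm_num)) (by decide) (by decide) (by decide) (by decide)
  have m6 : J6 ∈ JB6 := mem_nx2 m5 j6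
  have g6 : ∀ a < 19, c6 a = ce5 e a := fun a ha => by rw [a6 a (bit19 b5' ha), g5 a ha]
  exact ⟨c6, J6, S6, F6, m6, g6⟩

end Pool.Agent.GaussPoset.J10

end

/-! From `Pool.Agent.W_448j10_h67.JbV` -/

section

/-!
The components at the window 5, level 10: data of the strip `La5` (MP_448cb3_co).
-/

namespace Pool.Agent.GaussPoset.J10

set_option linter.unusedSectionVars false

open Polynomial Finset Dd Wd Cl J8 Sg

universe u

variable {P : Type u} [Fintype P] [PartialOrder P] [DecidableEq P] {r : ℕ}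
variable {t : Tops P} {lo hi : ℕ → ℕ} {e : ℕ → ℕ → P}

/-- the cells are below the top -/
lemma Fx.le_t {T0 S : Finset P} {N J : ℕ} {cv lv : ℕ → ℕ} {c : ℕ → P} {Ms : List (ℕ × ℕ)}
    (F : Fx T0 N J cv lv c S Ms) {n : ℕ}
    (h1 : ∀ a < N, a < n ∨ (cv a).testBit 16 = true ∨ (cv a).testBit 17 = true ∨
      (cv a).testBit 19 = true ∨ (cv a).testBit 20 = true ∨ (cv a).testBit 21 = true ∨
      (cv a).testBit 22 = true ∨ (cv a).testBit 23 = true) (hcv : ∀ a < N, cv a < 2 ^ a)
    (h0 : ∀ a < n, J.testBit a = true → c a ≤ (t : P)) :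
    ∀ x ∈ S, x ≤ (t : P) := by
  have key : ∀ a, J.testBit a = true → c a ≤ (t : P) := by
    intro a
    induction a using Nat.strong_induction_on with
    | _ a ih =>
      intro ha
      have haN := bit_lt F.cx.cod.lt ha
      have fin : ∀ b, (cv a).testBit b = true → c a ≤ (t : P) := by
        intro b hb
        obtain ⟨h2, h3⟩ := F.cx.cod.cv_lt hcv ha hb
        exact ((F.cx.cod.cov a ha (c b)).mpr ⟨b, h3, hb, rfl⟩).le.trans (ih b h2 h3)
      rcases h1 a haN with h | h | h | h | h | h | h | h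
      · exact h0 a h ha
      all_goals exact fin _ h
  intro x hx
  obtain ⟨a, -, ha, rfl, -⟩ := F.cx.cell hx
  exact key a ha

/-- the end of `La5` -/
lemma La5_prof (h : Win.GoodTo P r 10) (C : Cp.Comp 10 (t : P) lo hi e)
    (D : WordD 10 5 wa5 lo hi) : Pf (e 10 5) pQ :=
  nab_word10 D C h (by decide +kernel) (by decide +kernel) (by decide +kernel)

lemma R5.end5 (R : R5 lo hi) (C : Cp.Comp 10 (t : P) lo hi e) {x : P} (hx : x ≤ (t : P))
    (hl : lev x = 10) (hu : (Win.uc x).card = 1) : x = e 10 5 := by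
  have g1 := R.l10
  have g2 := R.u10
  have g3 := R.l9
  have g4 := R.u9
  rcases R.cell C hx hl with h1 | h1 | h1
  · rw [h1] at hu
    exact absurd hu (two_up C (by omega) (by omega) (by omega) (by omega))
  · rw [h1] at hu
    exact absurd hu (two_up C (by omega) (by omega) (by omega) (by omega))
  · exact h1

/-- no pendant below the single end -/
def No5 (e : ℕ → ℕ → P) : Prop := ∀ z, lev z = 11 → (∀ y, z ⋖ y ↔ y = e 10 5) → False

lemma MA_cells : ∀ a < 28, (Malv.getD a 0 = 11 → Macv.getD a 0 = 131072 → a = 20) ∧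
    (Malv.getD a 0 = 11 → Macv.getD a 0 = 393216 → a = 22 ∨ a = 23) ∧
    (Macv.getD a 0 = 4194304 → a = 24 ∨ a = 25) := by decide +kernel

lemma JA_25 : ∀ J ∈ JA6, wA J = 25 → J.testBit 20 = false ∧ J.testBit 23 = false ∧
    J.testBit 24 = false ∧ J.testBit 25 = false := by decide +kernel

lemma MA_up : ∀ a < 28, a < 19 ∨ (Macv.getD a 0).testBit 16 = true ∨
    (Macv.getD a 0).testBit 17 = true ∨ (Macv.getD a 0).testBit 19 = true ∨
    (Macv.getD a 0).testBit 20 = true ∨ (Macv.getD a 0).testBit 21 = true ∨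
    (Macv.getD a 0).testBit 22 = true ∨ (Macv.getD a 0).testBit 23 = true := by decide +kernel

lemma MB_up : ∀ a < 28, a < 19 ∨ (Mbcv.getD a 0).testBit 16 = true ∨
    (Mbcv.getD a 0).testBit 17 = true ∨ (Mbcv.getD a 0).testBit 19 = true ∨
    (Mbcv.getD a 0).testBit 20 = true ∨ (Mbcv.getD a 0).testBit 21 = true ∨
    (Mbcv.getD a 0).testBit 22 = true ∨ (Mbcv.getD a 0).testBit 23 = true := by decide +kernel

lemma ce5_le (h : Win.GoodTo P r 10) (C : Cp.Comp 10 (t : P) lo hi e)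
    (D : WordD 10 5 wa5 lo hi) : ∀ a < 19, ce5 e a ≤ (t : P) := by
  obtain ⟨r1, r2⟩ := D.rows C
  intro a ha
  have h3 := La5_strip.row a (by omega)
  have h4 := La5_lv10 a ha
  rw [← r1 _ h4, ← r2 _ h4] at h3
  exact C.le_t _ _ h4 h3.1 h3.2

/-- the first stage -/
theorem tdLa5A (h : Win.GoodTo P r 10) (C : Cp.Comp 10 (t : P) lo hi e)
    (D : WordD 10 5 wa5 lo hi) (n5 : No5 e) :
    ∃ w ρ S θ B, TD 25 t (hi 5 - lo 5 + 1) w ρ S θ B ∧ (w = 25 → ExA e) := by
  classical
  obtain ⟨c, J, S, F, hJ, hc⟩ := La5_cxA h C D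
  have R := La5_r5 C D
  obtain ⟨k16, k17, k18⟩ := ce5_row e
  obtain ⟨s1, s2⟩ := JA_sm J hJ
  obtain ⟨m1, m2, m3⟩ := JA_chk J hJ
  have m2 := Nat.le_of_ble_eq_true m2
  have m3 := Nat.le_of_ble_eq_true m3
  have hb : hi 5 - lo 5 + 1 = 2 := by rw [R.u5, R.l5]
  have hbit : ∀ a < 19, J.testBit a = true := fun a ha => bit19 s1 ha
  have h16 : c 16 = e 10 3 := by rw [hc 16 (by norm_num), k16]
  have h17 : c 17 = e 10 4 := by rw [hc 17 (by norm_num), k17]
  have h18 : c 18 = e 10 5 := by rw [hc 18 (by norm_num), k18]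
  have hle := F.le_t (t := t) MA_up Ma_us.cv
    (fun a ha _ => by rw [hc a ha]; exact ce5_le h C D a ha)
  have hSl : lowPart 10 (t : P) ⊆ S := fun z hz => (F.mem z).mpr (Or.inl hz)
  have hSm : ∀ m, Nat.land m 524287 = m → Sm m J := fun m hm =>
    Sm.trans (sm_iff.mp hm) (sm_iff.mp s1)
  have hmem : ∀ p ∈ MsA, Sm p.1 J → ∀ z, z ∈ tyS c p.1 p.2 → z ∈ S := fun p hp hs z hz =>
    (F.mem z).mpr (Or.inr ⟨p, hp, hs, hz⟩)
  have i3 : ∀ z, lev z = 11 → (∀ y, z ⋖ y ↔ y = e 10 3) → z ∈ S := by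
    intro z hl hz
    refine hmem (65536, 11) (by decide) (hSm _ (by decide)) z (mem_tyS.mpr ⟨hl, ?_⟩)
    show Cvs c (2 ^ 16) z
    rw [cvs_one, h16]
    exact hz
  have i4 : ∀ z, lev z = 11 → (∀ y, z ⋖ y ↔ y = e 10 4) → z ∈ tyS c 131072 11 := by
    intro z hl hz
    refine mem_tyS.mpr ⟨hl, ?_⟩
    show Cvs c (2 ^ 17) z
    rw [cvs_one, h17]
    exact hz
  have i34 : ∀ z, lev z = 11 → (∀ y, z ⋖ y ↔ (y = e 10 3 ∨ y = e 10 4)) → z ∈ S := by
    intro z hl hz
    refine hmem (196608, 11) (by decide) (hSm _ (by decide)) z (mem_tyS.mpr ⟨hl, ?_⟩)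
    show Cvs c (Nat.lor (2 ^ 16) (2 ^ 17)) z
    rw [cvs_two, h16, h17]
    exact hz
  have i45 : ∀ z, lev z = 11 → (∀ y, z ⋖ y ↔ (y = e 10 4 ∨ y = e 10 5)) →
      z ∈ tyS c 393216 11 := fun z hl hz => mem_tyS.mpr ⟨hl, (ty45 h17 h18 rfl).mpr hz⟩
  have i4' : ∀ z ∈ tyS c 131072 11, z ∈ S := fun z hz =>
    hmem (131072, 11) (by decide) (hSm _ (by decide)) z hz
  have i45' : ∀ z ∈ tyS c 393216 11, z ∈ S := fun z hz =>
    hmem (393216, 11) (by decide) (hSm _ (by decide)) z hz
  have hown : ∀ y, lev y = 11 → y ∉ S → ∃ v, y ⋖ v ∧ ¬ v ≤ (t : P) := by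
    intro y hl hy
    by_contra hcon
    push Not at hcon
    rcases R.ty h C hl hcon with h1 | h1 | h1 | h1 | h1
    · exact hy (i3 y hl h1)
    · exact hy (i4' y (i4 y hl h1))
    · exact n5 y hl h1
    · exact hy (i34 y hl h1)
    · exact hy (i45' y (i45 y hl h1))
  have hdeep := deepFx h F Ma_us.cv (thChk_um Ma_th) (JA_dp J hJ) hle hown
    (fun m hm => absurd hm (by simp))
  rw [hb]
  refine ⟨wA J, rA J, S, thM 28 J c (fun a => Math.getD a 0), fun x => x = c 18, ?_, ?_⟩
  · refine tdCx (β := 5) F.cx Ma_us Ma_th (hbit 18 (by norm_num)) Ma_pol Ma_mst m1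
      (sm_iff.mp s2) Ma_bm m2 m3 (JA_pol J hJ) ?_ hSl hle ?_ ?_ ?_
    · intro hlt
      left
      revert hlt
      unfold wA rA
      cases J.testBit 20 <;> cases J.testBit 23 <;> cases J.testBit 24 <;>
        cases J.testBit 25 <;> norm_num
    · intro z x hl hz ho _ _
      obtain ⟨v, hv, hvt⟩ := hown z hl hz
      exact absurd (ho v hv) hvt
    · exact fun z x hl hz hx hzx => Or.inl (hdeep z x hl hz hx hzx)
    · intro x hx hl hu
      have h1 := R.end5 C hx hl hu
      rw [h1]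
      refine En.q ?_ (La5_prof h C D)
      rw [← h18, thM_c F.cx.cod _ (hbit 18 (by norm_num))]
      rfl
  · intro hw
    obtain ⟨b20, b23, b24, b25⟩ := JA_25 J hJ hw
    have nb : ∀ {a : ℕ}, J.testBit a = true → J.testBit a = false → False := by
      intro a h1 h2
      rw [h1] at h2
      exact absurd h2 (by simp)
    have c45 : ∀ z, z ∈ tyS c 393216 11 → J.testBit 22 = true ∧ z = c 22 := by
      intro z hz
      obtain ⟨a, a1, a2, rfl, a3, a4⟩ := F.cx.cell_ty (hSm 393216 (by decide)) (i45' z hz) hz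
      rcases (MA_cells a a1).2.1 a3 a4 with rfl | rfl
      · exact ⟨a2, rfl⟩
      · exact (nb a2 b23).elim
    refine ⟨?_, ?_, ?_⟩
    · intro z hl hz
      have h1 := i4 z hl hz
      obtain ⟨a, a1, a2, a3, a4, a5⟩ := F.cx.cell_ty (hSm 131072 (by decide)) (i4' z h1) h1
      obtain rfl := (MA_cells a a1).1 a4 a5
      exact nb a2 b20
    · intro z z' hl hl' hz hz'
      rw [(c45 z (i45 z hl hz)).2, (c45 z' (i45 z' hl' hz')).2]
    · intro z y hl hz hly hy
      obtain ⟨b22, rfl⟩ := c45 y (i45 y hly hy)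
      have hs : Sm 4194304 J := by
        intro d hd
        by_cases h' : 22 = d
        · rw [← h']; exact b22
        · rw [show (4194304 : ℕ) = 2 ^ 22 by norm_num, Nat.testBit_two_pow_of_ne h'] at hd
          exact absurd hd (by simp)
      have h1 : z ∈ tyS c 4194304 12 := by
        refine mem_tyS.mpr ⟨hl, ?_⟩
        show Cvs c (2 ^ 22) z
        rw [cvs_one]
        exact hz
      obtain ⟨a, a1, a2, a3, a4, a5⟩ := F.cx.cell_ty hs
        (hmem (4194304, 12) (by decide) hs z h1) h1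
      rcases (MA_cells a a1).2.2 a5 with rfl | rfl
      · exact nb a2 b24
      · exact nb a2 b25

/-- the second stage -/
theorem tdLa5B (h : Win.GoodTo P r 10) (C : Cp.Comp 10 (t : P) lo hi e)
    (D : WordD 10 5 wa5 lo hi) (n5 : No5 e) (E : ExA e) :
    ∃ S θ B, TD 33 t (hi 5 - lo 5 + 1) 33 0 S θ B := by
  classical
  obtain ⟨c, J, S, F, hJ, hc⟩ := La5_cxB h C D E
  have R := La5_r5 C D
  obtain ⟨k16, k17, k18⟩ := ce5_row e
  obtain ⟨s1, s2⟩ := JB_sm J hJ
  have m1 := JB_chk J hJ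
  have hb : hi 5 - lo 5 + 1 = 2 := by rw [R.u5, R.l5]
  have hbit : ∀ a < 19, J.testBit a = true := fun a ha => bit19 s1 ha
  have h16 : c 16 = e 10 3 := by rw [hc 16 (by norm_num), k16]
  have h17 : c 17 = e 10 4 := by rw [hc 17 (by norm_num), k17]
  have h18 : c 18 = e 10 5 := by rw [hc 18 (by norm_num), k18]
  have hle := F.le_t (t := t) MB_up Mb_us.cv
    (fun a ha _ => by rw [hc a ha]; exact ce5_le h C D a ha)
  have hSl : lowPart 10 (t : P) ⊆ S := fun z hz => (F.mem z).mpr (Or.inl hz)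
  have hSm : ∀ m, Nat.land m 524287 = m → Sm m J := fun m hm =>
    Sm.trans (sm_iff.mp hm) (sm_iff.mp s1)
  have hmem : ∀ p ∈ MsB, Sm p.1 J → ∀ z, z ∈ tyS c p.1 p.2 → z ∈ S := fun p hp hs z hz =>
    (F.mem z).mpr (Or.inr ⟨p, hp, hs, hz⟩)
  have hown : ∀ y, lev y = 11 → y ∉ S → ∃ v, y ⋖ v ∧ ¬ v ≤ (t : P) := by
    intro y hl hy
    by_contra hcon
    push Not at hcon
    rcases R.ty h C hl hcon with h1 | h1 | h1 | h1 | h1
    · refine hy (hmem (65536, 11) (by decide) (hSm _ (by decide)) y (mem_tyS.mpr ⟨hl, ?_⟩))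
      show Cvs c (2 ^ 16) y
      rw [cvs_one, h16]
      exact h1
    · exact E.n4 y hl h1
    · exact n5 y hl h1
    · refine hy (hmem (196608, 11) (by decide) (hSm _ (by decide)) y (mem_tyS.mpr ⟨hl, ?_⟩))
      show Cvs c (Nat.lor (2 ^ 16) (2 ^ 17)) y
      rw [cvs_two, h16, h17]
      exact h1
    · exact hy (hmem (393216, 11) (by decide) (hSm _ (by decide)) y
        (mem_tyS.mpr ⟨hl, (ty45 h17 h18 rfl).mpr h1⟩))
  have hdeep := deepFx h F Mb_us.cv (thChk_um Mb_th) (JB_dp J hJ) hle hown (by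
    intro m hm z hl hz hs
    rw [List.mem_singleton] at hm
    subst hm
    have b21 : J.testBit 21 = true := hs 21 (by decide)
    have h1 : ∀ v, z ⋖ v ↔ v = c 21 := by
      have h2 : Cvs c (2 ^ 21) z := hz
      rwa [cvs_one] at h2
    refine E.nA z (c 21) hl h1 (F.cx.cod.lev 21 b21) ?_
    have h2 : Cvs c 393216 (c 21) := by
      intro y
      rw [F.cx.cod.cov 21 b21 y]
      constructor
      · rintro ⟨b, -, g2, g3⟩
        exact ⟨b, g2, g3⟩
      · rintro ⟨b, g2, g3⟩
        exact ⟨b, hSm 393216 (by decide) b g2, g2, g3⟩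
    exact (ty45 h17 h18 rfl).mp h2)
  rw [hb]
  refine ⟨S, thM 28 J c (fun a => Mbth.getD a 0), fun x => x = c 18, ?_⟩
  refine tdCx (β := 5) F.cx Mb_us Mb_th (hbit 18 (by norm_num)) Mb_pol Mb_mst m1
    (sm_iff.mp s2) Mb_bm (by norm_num) le_rfl (fun h => absurd h (by norm_num))
    (fun h => absurd h (by norm_num)) hSl hle ?_ ?_ ?_
  · intro z x hl hz ho _ _
    obtain ⟨v, hv, hvt⟩ := hown z hl hz
    exact absurd (ho v hv) hvt
  · exact fun z x hl hz hx hzx => Or.inl (hdeep z x hl hz hx hzx)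
  · intro x hx hl hu
    have h1 := R.end5 C hx hl hu
    rw [h1]
    refine En.q ?_ (La5_prof h C D)
    rw [← h18, thM_c F.cx.cod _ (hbit 18 (by norm_num))]
    rfl

end Pool.Agent.GaussPoset.J10

end

/-! From `Pool.Agent.W_448j10_h67.JbW` -/

section

/-!
The components at the window 5, level 10: all components (MP_448cb3_co).
-/

namespace Pool.Agent.GaussPoset.J10

set_option linter.unusedSectionVars false

open Polynomial Finset Dd Wd Cl J8 Sg

universe u

variable {P : Type u} [Fintype P] [PartialOrder P] [DecidableEq P] {r : ℕ}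
variable {t : Tops P} {lo hi : ℕ → ℕ} {e : ℕ → ℕ → P}

lemma MA_msk0 : mskC MaL 524287 7 = true := by decide +kernel

lemma MA_own : ∀ p ∈ [(16, 16), (17, 17), (16, 17), (17, 18)], ∀ x ∈ [p.1, p.2],
    Math.getD x 0 + 1 ≤ 6 ∧ 7 ≤ Math.getD x 0 + 1 + wsum (Math.getD x 0 + 1)
      (fun a => Malv.getD a 0) (Nat.land (Nat.lor (Maum.getD p.1 0) (Maum.getD p.2 0)) 524287)
      28 := by decide +kernel

/-- the strip `La5` without elements of the level 11 -/
theorem tdLa5Z (h : Win.GoodTo P r 10) (C : Cp.Comp 10 (t : P) lo hi e)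
    (D : WordD 10 5 wa5 lo hi) :
    ∃ θ B, TD 7 t (hi 5 - lo 5 + 1) 7 0 (lowPart 10 (t : P)) θ B := by
  classical
  have R := La5_r5 C D
  obtain ⟨k16, k17, k18⟩ := ce5_row e
  have F := La5_fx0 (cv := fun a => Macv.getD a 0) (lv := fun a => Malv.getD a 0)
    (by decide +kernel) (by decide +kernel) (by decide +kernel) h C D
  have hb : hi 5 - lo 5 + 1 = 2 := by rw [R.u5, R.l5]
  have hbit : ∀ a < 19, (524287 : ℕ).testBit a = true := fun a ha => bit19 (by decide) ha
  have hcost : ∀ a b, (a, b) ∈ [(16, 16), (17, 17), (16, 17), (17, 18)] →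
      ∀ z, lev z = 11 → Cvs (ce5 e) (Nat.lor (2 ^ a) (2 ^ b)) z → ∀ x, z ⋖ x →
      7 ≤ ct 5 (thM 28 524287 (ce5 e) (fun a => Math.getD a 0) x + 1) z := by
    intro a b hab z hl hz x hx
    have hlt : a < 19 ∧ b < 19 := by
      simp only [List.mem_cons, Prod.mk.injEq, List.not_mem_nil, or_false] at hab
      omega
    have hxx : ∃ d ∈ [a, b], x = ce5 e d := by
      rcases (cvs_two.mp hz x).mp hx with h1 | h1
      · exact ⟨a, by simp, h1⟩
      · exact ⟨b, by simp, h1⟩
    obtain ⟨d, hd, rfl⟩ := hxx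
    have hd19 : d < 19 := by
      simp only [List.mem_cons, List.not_mem_nil, or_false] at hd
      rcases hd with rfl | rfl
      · exact hlt.1
      · exact hlt.2
    rw [thM_c F.cx.cod _ (hbit d hd19)]
    obtain ⟨g1, g2⟩ := MA_own (a, b) hab d hd
    rw [F.cx.cod.ct_pair Ma_us.cv (thChk_um Ma_th) (hbit a hlt.1) (hbit b hlt.2) hz, hl,
      Nat.min_eq_left (by omega)]
    exact g2
  have e1 : Nat.lor (2 ^ 16) (2 ^ 16) = 2 ^ 16 := Nat.or_self _
  have e2 : Nat.lor (2 ^ 17) (2 ^ 17) = 2 ^ 17 := Nat.or_self _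
  rw [hb]
  refine ⟨thM 28 524287 (ce5 e) (fun a => Math.getD a 0), fun x => x = ce5 e 18, ?_⟩
  refine tdCx (β := 5) F.cx Ma_us Ma_th (hbit 18 (by norm_num)) Ma_pol Ma_mst MA_msk0
    (sm_iff.mp (by decide)) Ma_bm (by norm_num) le_rfl (fun h => absurd h (by norm_num))
    (fun h => absurd h (by norm_num)) (Finset.Subset.refl _)
    (fun x hx => (mem_lowPart.mp hx).1) ?_ ?_ ?_
  · intro z x hl hz ho hzx _
    have hfar : ∀ a b, (a, b) ∈ [(16, 16), (17, 17), (16, 17), (17, 18)] →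
        Cvs (ce5 e) (Nat.lor (2 ^ a) (2 ^ b)) z →
        Ow 7 7 t 2 (thM 28 524287 (ce5 e) (fun a => Math.getD a 0)) z x := by
      intro a b hab hz
      refine Ow.far ?_
      have := hcost a b hab z hl hz x hzx
      omega
    rcases R.ty h C hl ho with h1 | h1 | h1 | h1 | h1
    · refine hfar 16 16 (by decide) ?_
      rw [e1, cvs_one, k16]
      exact h1
    · refine hfar 17 17 (by decide) ?_
      rw [e2, cvs_one, k17]
      exact h1
    · obtain rfl := (h1 x).mp hzx
      refine Ow.pend (fun y hy => (h1 y).mp hy) (Or.inl ⟨?_, La5_prof h C D⟩)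
      rw [← k18, thM_c F.cx.cod _ (hbit 18 (by norm_num))]
      rfl
    · refine hfar 16 17 (by decide) ?_
      rw [cvs_two, k16, k17]
      exact h1
    · refine hfar 17 18 (by decide) ?_
      rw [cvs_two, k17, k18]
      exact h1
  · intro z x hl _ hx hzx
    have := (h.H.covBy_iff.mp hzx).2
    have := (mem_lowPart.mp hx).2
    omega
  · intro x hx hl hu
    have h1 := R.end5 C hx hl hu
    rw [h1]
    refine En.q ?_ (La5_prof h C D)
    rw [← k18, thM_c F.cx.cod _ (hbit 18 (by norm_num))]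
    rfl

/-! ### all components -/

/-- the data of a component together with the special cases -/
def TDx (K : ℕ) (t : Tops P) (lo hi : ℕ → ℕ) (e : ℕ → ℕ → P) : Prop :=
  ∃ (w : ℕ) (ρ : ℤ) (S : Finset P) (θ : P → ℕ) (B : P → Prop),
    TD K t (hi 5 - lo 5 + 1) w ρ S θ B ∧
    (WordD 10 5 wa5 lo hi → (K = 25 → w = 25 → ExA e) ∧ (K = 7 → S = lowPart 10 (t : P))) ∧
    (StairShape 10 lo hi → lo 10 = 0 → ∀ z, z ⋖ e 10 5 → z ⋖ e 10 0 →
      z ∉ S ∧ IsC t (hi 5 - lo 5 + 1) θ z)

lemma TDx.of33 {K : ℕ} (hK : 1 ≤ K) (hK' : K ≤ 33) (hL : ¬ WordD 10 5 wa5 lo hi)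
    (hS : ¬ StairShape 10 lo hi)
    (T : ∃ w ρ S θ B, TD 33 t (hi 5 - lo 5 + 1) w ρ S θ B) : TDx K t lo hi e := by
  obtain ⟨w, ρ, S, θ, B, T⟩ := T
  exact ⟨_, ρ, S, θ, B, T.mono hK' hK, fun h => absurd h hL, fun h => absurd h hS⟩

/-- **the data of a component.** -/
theorem exists_td {K : ℕ} (hK : 1 ≤ K) (hK' : K ≤ 33) (h : Win.GoodTo P r 10)
    (C : Cp.Comp 10 (t : P) lo hi e) (S : Wd.Shape 10 lo hi) (hd : ¬ WordD 10 4 w4d lo hi)
    (hL : WordD 10 5 wa5 lo hi → ∃ w ρ S θ B, TD K t (hi 5 - lo 5 + 1) w ρ S θ B ∧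
      (K = 25 → w = 25 → ExA e) ∧ (K = 7 → S = lowPart 10 (t : P))) : TDx K t lo hi e := by
  have hnL : ∀ k, k < 5 → lo k < hi k → ¬ WordD 10 5 wa5 lo hi := by
    intro k hk hlt D
    have := D.trunk k hk
    omega
  rcases S with h1 | ⟨h1, h2⟩ | ⟨h0, h2⟩ | ⟨h0, h1, h2⟩ | ⟨h0, h1⟩ | ⟨a, h0, h1, h2, h3, hN, h4⟩
  · -- light
    have e5 := h1 5 (by norm_num)
    have hb : hi 5 - lo 5 + 1 = 1 := by omega
    refine TDx.of33 hK hK' ?_ ?_ ?_
    · intro D
      have := (La5_r5 C D).u10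
      have := (La5_r5 C D).l10
      have := h1 10 le_rfl
      omega
    · intro S
      have := S.hi 10 le_rfl
      have := h1 10 le_rfl
      omega
    · rw [hb]
      exact ⟨_, _, _, _, _, tdLight h C (fun k hk => by
        have := h1 k (by omega)
        omega)⟩
  · -- rectangle
    obtain ⟨S, θ, B, T⟩ := tdRect h C h1 h2
    refine TDx.of33 hK hK' (hnL 1 (by norm_num) (by omega)) ?_ ⟨_, _, _, _, _, T⟩
    intro S
    have := S.hi 1 (by norm_num)
    omega
  · -- stair
    obtain ⟨S', θ, B, T, hx⟩ := tdStair h C h2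
    refine ⟨_, 0, S', θ, B, T.mono hK' hK, fun D => ?_, fun _ => hx⟩
    have e1 := h2.hi 2 (by norm_num)
    have e2 := D.trunk 2 (by norm_num)
    omega
  · omega
  · omega
  · -- late
    have hns : ¬ StairShape 10 lo hi := by
      intro S
      have e1 := S.hi 2 (by norm_num)
      have e2 := h2 2 (by omega)
      omega
    have D : LateD 10 a lo hi := ⟨h0, h1, h2, h3, h4⟩
    rcases Nat.lt_or_ge a 6 with ha | ha
    · obtain rfl | rfl | rfl : a = 3 ∨ a = 4 ∨ a = 5 := by omega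
      · obtain ⟨W, -⟩ := wordD_three D (by norm_num)
        obtain ⟨S, θ, B, T⟩ := tdE6 h C W
        exact TDx.of33 hK hK' (hnL 3 (by norm_num) (by omega)) hns ⟨_, _, _, _, _, T⟩
      · rcases late_four D with W | W
        · exact TDx.of33 hK hK' (hnL 4 (by norm_num) (by omega)) hns (tdE7 h C W)
        · exact absurd W hd
      · rcases h4 with ⟨⟨g1, g2⟩, g3⟩ | g3
        · have hq := D.quad C g3
          have Q : QRows 10 5 lo hi := ⟨h2, h3, by
            intro k hk hk2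
            have := hq (k - 5) (by omega) (by omega)
            rwa [show 5 + (k - 5) = k by omega] at this⟩
          refine TDx.of33 hK hK' ?_ hns ⟨_, _, _, _, _, tdQuad h C Q⟩
          intro D'
          have e1 := (La5_r5 C D').u10
          have e2 := (La5_r5 C D').l10
          have e3 := Q.aft 10 (by norm_num) le_rfl
          omega
        · have W : WordD 10 5 wa5 lo hi :=
            ⟨D.h2, D.h3, late5_five _ g3 (by rw [word_length])⟩
          obtain ⟨w, ρ, S, θ, B, T, hE⟩ := hL W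
          exact ⟨w, ρ, S, θ, B, T, fun _ => hE, fun h => absurd h hns⟩
    · have e5 := h2 5 (by omega)
      have hb : hi 5 - lo 5 + 1 = 1 := by omega
      refine TDx.of33 hK hK' ?_ hns ?_
      · intro D'
        have := (La5_r5 C D').u5
        omega
      · rw [hb]
        exact ⟨_, _, _, _, _, tdLight h C (fun k hk => by
          have := h2 k (by omega)
          omega)⟩

end Pool.Agent.GaussPoset.J10

end

/-! From `Pool.Agent.W_448j10_h67.JcB` -/

section

/-!
Level 10, window 5: the steps of the ladder by kinds (MP_448cb3_co).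
-/

namespace Pool.Agent.GaussPoset.J10

set_option linter.unusedSectionVars false

open Polynomial Finset Dd Wd Cl J8

universe u

variable {P : Type u} [Fintype P] [PartialOrder P] [DecidableEq P] {r : ℕ}

section

variable {lo hi : Tops P → ℕ → ℕ} {e : Tops P → ℕ → ℕ → P} {Kc : ℕ} {w : Tops P → ℕ}
  {ρ : Tops P → ℤ} {S : Tops P → Finset P} {θ : Tops P → P → ℕ} {B : Tops P → P → Prop}

/-- no boundary element below a pendant of `E7` -/
def No7 (S : Tops P → Finset P) (θ : Tops P → P → ℕ) : Prop :=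
  ∀ z ∈ bdR (unnat S), ∀ x, z ⋖ x → ¬ Cp7 (θ (topOf x)) z x

/-- the label of a pendant below a quadric, a fold end, the end of `E6` -/
lemma C10.lbl (W : C10 P r lo hi e Kc w ρ S θ B) {z x : P} (hz : z ∈ bdR (unnat S)) :
    (Pn pQ z x → h10 S θ z = 1) ∧ (Pn pF z x → h10 S θ z = 2) ∧
      (Pn pE6 z x → h10 S θ z = 3) := by
  classical
  have H := W.K.gt.H
  have key : ∀ p, Pn p z x → h10 S θ z = θ (topOf x) x + 1 := by
    intro p h
    obtain ⟨y, hy, hzy, hh⟩ := hcan_spec (θ := th10 θ) hz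
    rw [h.only y hzy] at hh
    exact hh
  have hends : ∀ p, Pn p z x → p.getD 9 0 = 1 → En (θ (topOf x)) x := by
    intro p h h9
    refine (W.td (topOf x)).ends x (le_topOf x) h.levx ?_
    rw [uc_card_nab H (by rw [h.levx]; norm_num), h.levx]
    exact (h.pf 9 (by norm_num)).trans h9
  refine ⟨fun h => ?_, fun h => ?_, fun h => ?_⟩
  · rw [key _ h]
    rcases hends _ h (by decide) with ⟨-, h2⟩ | ⟨h1, -⟩ | ⟨-, h2⟩ | ⟨-, h2⟩ | ⟨-, h2⟩
    · have h3 := h2 5 le_rfl
      rw [h.pf 5 (by norm_num)] at h3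
      exact absurd h3 (by decide)
    · omega
    · have h3 := h2 4 (by norm_num)
      rw [h.pf 4 (by norm_num)] at h3
      exact absurd h3 (by decide)
    · have h3 := h2 4 (by norm_num)
      rw [h.pf 4 (by norm_num)] at h3
      exact absurd h3 (by decide)
    · have h3 := h2 4 (by norm_num)
      rw [h.pf 4 (by norm_num)] at h3
      exact absurd h3 (by decide)
  · rw [key _ h]
    rcases hends _ h (by decide) with ⟨-, h2⟩ | ⟨-, h2⟩ | ⟨-, h2⟩ | ⟨-, h2⟩ | ⟨h1, -⟩
    · have h3 := h2 5 le_rfl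
      rw [h.pf 5 (by norm_num)] at h3
      exact absurd h3 (by decide)
    · have h3 := h2 5 (by norm_num)
      rw [h.pf 5 (by norm_num)] at h3
      exact absurd h3 (by decide)
    · have h3 := h2 5 (by norm_num)
      rw [h.pf 5 (by norm_num)] at h3
      exact absurd h3 (by decide)
    · have h3 := h2 5 (by norm_num)
      rw [h.pf 5 (by norm_num)] at h3
      exact absurd h3 (by decide)
    · omega
  · rw [key _ h]
    rcases hends _ h (by decide) with ⟨-, h2⟩ | ⟨-, h2⟩ | ⟨-, h2⟩ | ⟨h1, -⟩ | ⟨-, h2⟩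
    · have h3 := h2 5 le_rfl
      rw [h.pf 5 (by norm_num)] at h3
      exact absurd h3 (by decide)
    · have h3 := h2 4 (by norm_num)
      rw [h.pf 4 (by norm_num)] at h3
      exact absurd h3 (by decide)
    · have h3 := h2 3 (by norm_num)
      rw [h.pf 3 (by norm_num)] at h3
      exact absurd h3 (by decide)
    · omega
    · have h3 := h2 5 (by norm_num)
      rw [h.pf 5 (by norm_num)] at h3
      exact absurd h3 (by decide)

/-- the values of the pendants -/
lemma C10.q_val {z x : P} {h : P → ℕ} (hp : Pn pQ z x) (hh : h z = 1) :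
    Lv (lv P 5).card (Lt 5 h z) (1 * (-1) ^ below P 5) := by
  have h1 : nst 5 h z = 2 := by
    rw [nst_eq, hh]
    simp only [Finset.sum_range_succ, Finset.sum_range_zero]
    rw [hp.nab (k := 5 + 0) (by norm_num)]
    rfl
  have := lt_lv (h := h) (z := z) (s := 2) (a := 1) (b := 0) h1
    ((hp.nab (k := 5) (by norm_num)).trans rfl)
    (by rw [hh]; exact (hp.nab (k := 5 + 1) (by norm_num)).trans rfl) rfl
  simpa using this

lemma C10.f_val {z x : P} {h : P → ℕ} (hp : Pn pF z x) (hh : h z = 2) :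
    Lv (lv P 5).card (Lt 5 h z) (1 * (-1) ^ below P 5) := by
  have h1 : nst 5 h z = 6 := by
    rw [nst_eq, hh]
    simp only [Finset.sum_range_succ, Finset.sum_range_zero]
    rw [hp.nab (k := 5 + 0) (by norm_num), hp.nab (k := 5 + 1) (by norm_num)]
    rfl
  have := lt_lv (h := h) (z := z) (s := 6) (a := 2) (b := 0) h1
    ((hp.nab (k := 5) (by norm_num)).trans rfl)
    (by rw [hh]; exact (hp.nab (k := 5 + 2) (by norm_num)).trans rfl) rfl
  simpa using this

lemma C10.e6_val {z x : P} {h : P → ℕ} (hp : Pn pE6 z x) (hh : h z = 3) :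
    Lv (lv P 5).card (Lt 5 h z) (1 * (-1) ^ below P 5) := by
  have h1 : nst 5 h z = 6 := by
    rw [nst_eq, hh]
    simp only [Finset.sum_range_succ, Finset.sum_range_zero]
    rw [hp.nab (k := 5 + 0) (by norm_num), hp.nab (k := 5 + 1) (by norm_num),
      hp.nab (k := 5 + 2) (by norm_num)]
    rfl
  have := lt_lv (h := h) (z := z) (s := 6) (a := 1) (b := 0) h1
    ((hp.nab (k := 5) (by norm_num)).trans rfl)
    (by rw [hh]; exact (hp.nab (k := 5 + 3) (by norm_num)).trans rfl) rfl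
  simpa using this

lemma C10.c7_val {θ : P → ℕ} {z x : P} {h : P → ℕ} (hc : Cp7 θ z x) (hzx : z ⋖ x)
    (hh : h z = 4) : Lv (lv P 5).card (Lt 5 h z) (1 * (-1) ^ below P 5) := by
  have h1 : nst 5 h z = 8 := by
    rw [nst_eq, hh]
    simp only [Finset.sum_range_succ, Finset.sum_range_zero]
    rw [hc.nab hzx (k := 5 + 0) (by norm_num), hc.nab hzx (k := 5 + 1) (by norm_num),
      hc.nab hzx (k := 5 + 2) (by norm_num), hc.nab hzx (k := 5 + 3) (by norm_num)]
    rfl
  have := lt_lv (h := h) (z := z) (s := 8) (a := 1) (b := 0) h1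
    ((hc.nab hzx (k := 5) (by norm_num)).trans rfl)
    (by rw [hh]; exact (hc.nab hzx (k := 5 + 4) (by norm_num)).trans rfl) rfl
  simpa using this

/-- the joins at the energy `n` -/
def JnOK (P : Type u) [Fintype P] [PartialOrder P] [DecidableEq P] (S : Tops P → Finset P)
    (θ : Tops P → P → ℕ) (n : ℕ) (σ : ℤ) : Prop :=
  ∀ z ∈ bdR (unnat S), ∀ x y, Sm.Cg z x y → lev z = 11 → h10 S θ z = th10 θ x + 1 →
    th10 θ x ≤ th10 θ y → n < cst 5 (h10 S θ) z ∨ (cst 5 (h10 S θ) z = n ∧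
      (Lv (lv P 5).card (Lt 5 (h10 S θ) z) 0 ∨
       Lv (lv P 5).card (Lt 5 (h10 S θ) z) (σ * (-1) ^ below P 5)))

/-- **One step of the ladder, by kinds.** -/
theorem C10.go (W : C10 P r lo hi e Kc w ρ S θ B) (hne : Nonempty (Tops P)) {n : ℕ}
    (hn5 : 5 ≤ n) (hn : n ≤ 30) (hK : n < Kc) (hw : ∀ t, n ≤ w t)
    (hQ : 6 < n → NoPn S pQ) (hF : 17 < n → NoPn S pF) (hE : 18 < n → NoPn S pE6)
    (h7 : 28 < n → No7 S θ) (σ : ℤ) (hσ : σ = 1 ∨ σ = -1)
    (hs : n = 6 ∨ n = 17 ∨ n = 18 ∨ n = 28 ∨ n = 30 → σ = 1) (hρ : ∀ t, w t = n → 0 < σ * ρ t)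
    (hJ : JnOK P S θ n σ) :
    (∀ t, n < w t) ∧ (n = 6 → NoPn S pQ) ∧ (n = 17 → NoPn S pF) ∧ (n = 18 → NoPn S pE6) ∧
    (n = 28 → No7 S θ) ∧ (n = 30 → CX lo hi S θ = ∅) ∧
    (∀ z ∈ bdR (unnat S), z ∉ CX lo hi S θ → cst 5 (h10 S θ) z = n →
      ¬ Lv (lv P 5).card (Lt 5 (h10 S θ) z) (σ * (-1) ^ below P 5)) := by
  classical
  have H := W.K.gt.H
  have hσσ : 0 ≤ σ * σ := by rcases hσ with rfl | rfl <;> norm_num
  have hσ0 : σ ≠ 0 := by rcases hσ with rfl | rfl <;> norm_num
  -- costs and values by kinds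
  have hkind : ∀ z ∈ bdR (unnat S), z ∉ CX lo hi S θ → n < cst 5 (h10 S θ) z ∨
      (cst 5 (h10 S θ) z = n ∧ (Lv (lv P 5).card (Lt 5 (h10 S θ) z) 0 ∨
       Lv (lv P 5).card (Lt 5 (h10 S θ) z) (σ * (-1) ^ below P 5))) := by
    intro z hz hzC
    rcases W.kind hz with ⟨t', h1⟩ | ⟨x, h1, h2⟩ | ⟨x, h1, h2⟩ | ⟨x, h1, h2⟩ |
      ⟨x, h1, h2, h3⟩ | ⟨t', h1, h2⟩ | ⟨x, y, h1, h2, h3, h4⟩
    · left
      have := hw t'
      omega
    · have hc := h1.q_cost h2
      rcases Nat.lt_trichotomy 6 n with h3 | h3 | h3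
      · exact absurd h1 (hQ h3 z hz x)
      · right
        rw [hs (Or.inl h3.symm)]
        exact ⟨by omega, Or.inr (C10.q_val h1 h2)⟩
      · left; omega
    · have hc := h1.f_cost h2
      rcases Nat.lt_trichotomy 17 n with h3 | h3 | h3
      · exact absurd h1 (hF h3 z hz x)
      · right
        rw [hs (by omega)]
        exact ⟨by omega, Or.inr (C10.f_val h1 h2)⟩
      · left; omega
    · have hc := h1.e6_cost h2
      rcases Nat.lt_trichotomy 18 n with h3 | h3 | h3
      · exact absurd h1 (hE h3 z hz x)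
      · right
        rw [hs (by omega)]
        exact ⟨by omega, Or.inr (C10.e6_val h1 h2)⟩
      · left; omega
    · have hc := h1.cost H h2 h3
      rcases Nat.lt_trichotomy 28 n with h4 | h4 | h4
      · exact absurd h1 (h7 h4 z hz x h2)
      · right
        rw [hs (by omega)]
        exact ⟨by omega, Or.inr (C10.c7_val h1 h2 h3)⟩
      · left; omega
    · exact absurd (mem_CX.mpr ⟨hz, h2, t', h1⟩) hzC
    · exact hJ z hz x y h1 h2 h3 h4
  set v : P → ℤ := fun z =>
    if Lv (lv P 5).card (Lt 5 (h10 S θ) z) (σ * (-1) ^ below P 5) then σ else 0 with hv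
  obtain ⟨a1, a2, a3⟩ := W.step hne hn5 hn hK hw
    (fun h => ⟨hQ (by omega), hF (by omega), hE (by omega)⟩) σ hσ (fun h => hs (by omega)) v
    (fun z hz hzC => by
      rcases hkind z hz hzC with h1 | h1
      · exact h1.le
      · exact h1.1.ge)
    (fun z hz hzC hzn => by
      have h0 : v z = if Lv (lv P 5).card (Lt 5 (h10 S θ) z) (σ * (-1) ^ below P 5) then σ
        else 0 := rfl
      by_cases h1 : Lv (lv P 5).card (Lt 5 (h10 S θ) z) (σ * (-1) ^ below P 5)
      · rw [if_pos h1] at h0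
        rw [h0]
        exact ⟨h1, hσσ⟩
      · rw [if_neg h1] at h0
        rw [h0, zero_mul, mul_zero]
        refine ⟨?_, le_rfl⟩
        rcases hkind z hz hzC with h2 | ⟨-, h2 | h2⟩
        · omega
        · exact h2
        · exact absurd h2 h1)
    hρ
  have a4 : ∀ z ∈ bdR (unnat S), z ∉ CX lo hi S θ → cst 5 (h10 S θ) z = n →
      ¬ Lv (lv P 5).card (Lt 5 (h10 S θ) z) (σ * (-1) ^ below P 5) := by
    intro z hz hzC hzn h1
    have h2 := a2 z hz hzC hzn
    rw [hv] at h2
    simp only [if_pos h1] at h2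
    exact hσ0 h2
  have hnC : ∀ p z x, Pn p z x → z ∉ CX lo hi S θ := by
    intro p z x hp hzC
    obtain ⟨-, -, t, Nc, co, F, E, C, -⟩ := mem_CX.mp hzC
    have e1 := hp.only F C.zF
    have e2 := hp.only E C.zS
    have h8 : nab 5 F = 3 := C.nab_F (u := 0) (by norm_num)
    have h9 : nab 5 E = 1 := C.nab_S (by norm_num)
    rw [e1] at h8
    rw [e2] at h9
    omega
  refine ⟨a1, ?_, ?_, ?_, ?_, a3, a4⟩
  · intro h6 z hz x hp
    have h1 := (W.lbl hz (x := x)).1 hp
    refine a4 z hz (hnC _ z x hp) (by rw [hp.q_cost h1, h6]) ?_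
    rw [hs (Or.inl h6)]
    exact C10.q_val hp h1
  · intro h6 z hz x hp
    have h1 := (W.lbl hz (x := x)).2.1 hp
    refine a4 z hz (hnC _ z x hp) (by rw [hp.f_cost h1, h6]) ?_
    rw [hs (by omega)]
    exact C10.f_val hp h1
  · intro h6 z hz x hp
    have h1 := (W.lbl hz (x := x)).2.2 hp
    refine a4 z hz (hnC _ z x hp) (by rw [hp.e6_cost h1, h6]) ?_
    rw [hs (by omega)]
    exact C10.e6_val hp h1
  · intro h6 z hz x hzx hc
    have h1 : h10 S θ z = 4 := by
      obtain ⟨y, hy, hzy, hh⟩ := hcan_spec (θ := th10 θ) hz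
      rw [hc.2.1 y hzy] at hh
      have h2 : h10 S θ z = θ (topOf x) x + 1 := hh
      rw [h2, hc.2.2.1]
    refine a4 z hz ?_ (by rw [hc.cost H hzx h1, h6]) ?_
    · intro hzC
      have := (mem_CX.mp hzC).2.1
      omega
    · rw [hs (by omega)]
      exact C10.c7_val hc hzx h1

end

end Pool.Agent.GaussPoset.J10

end

/-! From `Pool.Agent.W_448j10_h67.JcC` -/

section

/-!
Level 10, window 5: the ladder (MP_448cb3_co).
-/

namespace Pool.Agent.GaussPoset.J10

set_option linter.unusedSectionVars false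

open Polynomial Finset Dd Wd Cl J8

universe u

variable {P : Type u} [Fintype P] [PartialOrder P] [DecidableEq P] {r : ℕ}

/-- the sign of the poles -/
def sg (n : ℕ) : ℤ := if 20 ≤ n ∧ n < 25 then -1 else 1

section

variable {lo hi : Tops P → ℕ → ℕ} {e : Tops P → ℕ → ℕ → P} {Kc : ℕ} {w : Tops P → ℕ}
  {ρ : Tops P → ℤ} {S : Tops P → Finset P} {θ : Tops P → P → ℕ} {B : Tops P → P → Prop}

/-- what is known below the energy `n` -/
structure Inv (lo hi : Tops P → ℕ → ℕ) (w : Tops P → ℕ) (S : Tops P → Finset P)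
    (θ : Tops P → P → ℕ) (n : ℕ) : Prop where
  w_ge : ∀ t, n ≤ w t
  q : 6 < n → NoPn S pQ
  f : 17 < n → NoPn S pF
  e6 : 18 < n → NoPn S pE6
  c7 : 28 < n → No7 S θ
  cx : 30 < n → CX lo hi S θ = ∅

lemma sg_cases (n : ℕ) : sg n = 1 ∨ sg n = -1 := by
  unfold sg
  split_ifs
  · exact Or.inr rfl
  · exact Or.inl rfl

/-- **The ladder.** -/
theorem C10.ladder (W : C10 P r lo hi e Kc w ρ S θ B) (hne : Nonempty (Tops P)) {N : ℕ}
    (h5 : 5 ≤ N) (hN : N ≤ 31) (hNK : N ≤ Kc)
    (hJ : ∀ n, 5 ≤ n → n < N → (∀ t, n ≤ w t) → JnOK P S θ n (sg n)) :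
    Inv lo hi w S θ N := by
  have key : ∀ d, 5 + d ≤ N → Inv lo hi w S θ (5 + d) := by
    intro d
    induction d with
    | zero =>
      intro _
      refine ⟨fun t => ?_, fun h => ?_, fun h => ?_, fun h => ?_, fun h => ?_, fun h => ?_⟩
      · have h1 := (W.td t).w_le
        rcases Nat.lt_or_ge (w t) Kc with h2 | h2
        · rcases (W.td t).sg h2 with h3 | h3
          · omega
          · omega
        · omega
      all_goals omega
    | succ d ih =>
      intro hd
      have I := ih (by omega)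
      obtain ⟨a1, a2, a3, a4, a5, a6, -⟩ := W.go hne (n := 5 + d) (by omega) (by omega)
        (by omega) I.w_ge I.q I.f I.e6 I.c7 (sg (5 + d)) (sg_cases _)
        (by
          intro h
          unfold sg
          rw [if_neg (by omega)])
        (by
          intro t ht
          have h1 : w t < Kc := by omega
          unfold sg
          rcases (W.td t).sg h1 with ⟨h2, h3, h4⟩ | ⟨h2, h3⟩
          · rw [if_pos (by omega)]
            omega
          · rw [if_neg (by omega), one_mul]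
            exact h3)
        (hJ (5 + d) (by omega) (by omega) I.w_ge)
      refine ⟨fun t => ?_, fun h => ?_, fun h => ?_, fun h => ?_, fun h => ?_, fun h => ?_⟩
      · have := a1 t
        omega
      · rcases Nat.lt_or_ge 6 (5 + d) with h1 | h1
        · exact I.q h1
        · exact a2 (by omega)
      · rcases Nat.lt_or_ge 17 (5 + d) with h1 | h1
        · exact I.f h1
        · exact a3 (by omega)
      · rcases Nat.lt_or_ge 18 (5 + d) with h1 | h1
        · exact I.e6 h1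
        · exact a4 (by omega)
      · rcases Nat.lt_or_ge 28 (5 + d) with h1 | h1
        · exact I.c7 h1
        · exact a5 (by omega)
      · rcases Nat.lt_or_ge 30 (5 + d) with h1 | h1
        · exact I.cx h1
        · exact a6 (by omega)
  obtain ⟨d, rfl⟩ : ∃ d, N = 5 + d := ⟨N - 5, by omega⟩
  exact key d le_rfl

/-- no joins, nothing to check -/
lemma jnOK_of_no (hJ : ∀ z : P, lev z = 11 → ¬ Hul.Jn z) {n : ℕ} {σ : ℤ} : JnOK P S θ n σ :=
  fun z _ x y h hl _ _ => absurd h.jn (hJ z hl)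

end

/-- **The first stage: no pendant below the single end of `La5`.** -/
theorem no5_all {lo hi : Tops P → ℕ → ℕ} {e : Tops P → ℕ → ℕ → P} (K : Sm.Ctx P r 10 lo hi e)
    (hJ : ∀ (w : Tops P → ℕ) (ρ : Tops P → ℤ) (S : Tops P → Finset P) (θ : Tops P → P → ℕ)
      (B : Tops P → P → Prop), C10 P r lo hi e 7 w ρ S θ B → ∀ n, 5 ≤ n → n < 7 →
      (∀ t, n ≤ w t) → JnOK P S θ n (sg n)) (t : Tops P)
    (D : WordD 10 5 wa5 (lo t) (hi t)) : No5 (e t) := by
  have hd : ∀ t, ¬ WordD 10 4 w4d (lo t) (hi t) := no_w4d K.gt K.comp K.shape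
  choose w ρ S θ B hT hw hx using fun t : Tops P => exists_td (K := 7) (by norm_num)
    (by norm_num) K.gt (K.comp t) (K.shape t) (hd t) (fun W => by
      obtain ⟨θ, B, T⟩ := tdLa5Z K.gt (K.comp t) W
      exact ⟨_, _, _, _, _, T, fun h => absurd h (by norm_num), fun _ => rfl⟩)
  have W : C10 P r lo hi e 7 w ρ S θ B := ⟨K, hT⟩
  have I := W.ladder ⟨t⟩ (N := 7) (by norm_num) (by norm_num) le_rfl (hJ w ρ S θ B W)
  have H := K.gt.H
  intro z hl hz
  have R := La5_r5 (K.comp t) D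
  have hcov : z ⋖ e t 10 5 := (hz _).mpr rfl
  have hlx : lev (e t 10 5) = 10 := by
    have := (H.covBy_iff.mp hcov).2
    omega
  have hxt : e t 10 5 ≤ (t : P) := (K.comp t).le_t 10 5 le_rfl (by rw [R.l10]; norm_num)
    (by rw [R.u10])
  have hzR : z ∈ unnat S := by
    rw [mem_unnat]
    intro s hs
    have h1 := W.sys.topOf_eq (W.sys.up s z hs _ hcov.1.le)
    have h2 := W.top_of hxt hlx.le
    have h3 : s = t := h1.symm.trans h2
    subst h3
    rw [(hw s D).2 rfl, mem_lowPart] at hs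
    omega
  have hzb : z ∈ bdR (unnat S) := by
    classical
    unfold bdR
    rw [mem_filter]
    exact ⟨hzR, _, W.nat10 hlx.le, hcov⟩
  exact I.q (by norm_num) z hzb (e t 10 5) ⟨hcov, fun y hy => (hz y).mp hy, hl, hlx,
    La5_prof K.gt (K.comp t) D⟩

/-- **The second stage: the elements below `La5`.** -/
theorem exA_all {lo hi : Tops P → ℕ → ℕ} {e : Tops P → ℕ → ℕ → P} (K : Sm.Ctx P r 10 lo hi e)
    (h5 : ∀ t, WordD 10 5 wa5 (lo t) (hi t) → No5 (e t))
    (hJ : ∀ (w : Tops P → ℕ) (ρ : Tops P → ℤ) (S : Tops P → Finset P) (θ : Tops P → P → ℕ)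
      (B : Tops P → P → Prop), C10 P r lo hi e 25 w ρ S θ B → ∀ n, 5 ≤ n → n < 25 →
      (∀ t, n ≤ w t) → JnOK P S θ n (sg n)) (t : Tops P)
    (D : WordD 10 5 wa5 (lo t) (hi t)) : ExA (e t) := by
  have hd : ∀ t, ¬ WordD 10 4 w4d (lo t) (hi t) := no_w4d K.gt K.comp K.shape
  choose w ρ S θ B hT hw hx using fun t : Tops P => exists_td (K := 25) (by norm_num)
    (by norm_num) K.gt (K.comp t) (K.shape t) (hd t) (fun W => by
      obtain ⟨w, ρ, S, θ, B, T, hE⟩ := tdLa5A K.gt (K.comp t) W (h5 t W)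
      exact ⟨w, ρ, S, θ, B, T, fun _ => hE, fun h => absurd h (by norm_num)⟩)
  have W : C10 P r lo hi e 25 w ρ S θ B := ⟨K, hT⟩
  have I := W.ladder ⟨t⟩ (N := 25) (by norm_num) (by norm_num) le_rfl (hJ w ρ S θ B W)
  have h1 := I.w_ge t
  have h2 := (W.td t).w_le
  exact (hw t D).1 rfl (by omega)

/-- **The third stage: (C).** -/
theorem no_cx {lo hi : Tops P → ℕ → ℕ} {e : Tops P → ℕ → ℕ → P} (K : Sm.Ctx P r 10 lo hi e)
    (h5 : ∀ t, WordD 10 5 wa5 (lo t) (hi t) → No5 (e t) ∧ ExA (e t))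
    (hJ : ∀ (w : Tops P → ℕ) (ρ : Tops P → ℤ) (S : Tops P → Finset P) (θ : Tops P → P → ℕ)
      (B : Tops P → P → Prop), C10 P r lo hi e 33 w ρ S θ B → ∀ n, 5 ≤ n → n < 31 →
      (∀ t, n ≤ w t) → JnOK P S θ n (sg n)) (t : Tops P)
    (hS : StairShape 10 (lo t) (hi t)) (h0 : lo t 10 = 0) {z : P} (hz5 : z ⋖ e t 10 5)
    (hz0 : z ⋖ e t 10 0) : False := by
  have hd : ∀ t, ¬ WordD 10 4 w4d (lo t) (hi t) := no_w4d K.gt K.comp K.shape
  choose w ρ S θ B hT hw hx using fun t : Tops P => exists_td (K := 33) (by norm_num)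
    (by norm_num) K.gt (K.comp t) (K.shape t) (hd t) (fun W => by
      obtain ⟨S, θ, B, T⟩ := tdLa5B K.gt (K.comp t) W (h5 t W).1 (h5 t W).2
      exact ⟨_, _, _, _, _, T, fun h => absurd h (by norm_num),
        fun h => absurd h (by norm_num)⟩)
  have W : C10 P r lo hi e 33 w ρ S θ B := ⟨K, hT⟩
  have I := W.ladder ⟨t⟩ (N := 31) (by norm_num) (by norm_num) (by norm_num) (hJ w ρ S θ B W)
  have H := K.gt.H
  obtain ⟨hzS, hcx⟩ := hx t hS h0 z hz5 hz0
  have hcx' := hcx
  obtain ⟨Nc, co, F, E, C, hb, hF⟩ := hcx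
  have hFt := C.chart.le_t F C.F_mem
  have hzR : z ∈ unnat S := by
    rw [mem_unnat]
    intro s hs
    have h1 := W.sys.topOf_eq (W.sys.up s z hs F C.zF.1.le)
    have h2 := W.top_of hFt C.lev_F.le
    have h3 : s = t := h1.symm.trans h2
    subst h3
    exact hzS hs
  have hzb : z ∈ bdR (unnat S) := by
    classical
    unfold bdR
    rw [mem_filter]
    exact ⟨hzR, F, W.nat10 C.lev_F.le, C.zF⟩
  have h1 : z ∈ CX lo hi S θ := mem_CX.mpr ⟨hzb, IsC.two W hzb hcx', t, hcx'⟩
  rw [I.cx (by norm_num)] at h1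
  exact absurd h1 (Finset.notMem_empty _)

/-- **HCC for `m = 5`**: no joins of the level 11, no (C) at the level 10. -/
theorem level10 {lo hi : Tops P → ℕ → ℕ} {e : Tops P → ℕ → ℕ → P} (K : Sm.Ctx P r 10 lo hi e)
    (hJ : ∀ z : P, lev z = 11 → ¬ Hul.Jn z) (t : Tops P)
    (hS : StairShape 10 (lo t) (hi t)) (h0 : lo t 10 = 0) {z : P} (hz5 : z ⋖ e t 10 5)
    (hz0 : z ⋖ e t 10 0) : False := by
  have h5 := no5_all K (fun _ _ _ _ _ _ _ _ _ _ => jnOK_of_no hJ)
  have hA := exA_all K h5 (fun _ _ _ _ _ _ _ _ _ _ => jnOK_of_no hJ)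
  exact no_cx K (fun t D => ⟨h5 t D, hA t D⟩) (fun _ _ _ _ _ _ _ _ _ _ => jnOK_of_no hJ) t hS
    h0 hz5 hz0

end Pool.Agent.GaussPoset.J10

end
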