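import Mathlib
import Pool.Agent.W_448zz_h61.Ns
import Pool.Agent.W_448zz_h61.M195
import Pool.Agent.W_448zz_h61.M196

/-! From `Pool.Agent.W_448jx_h67.WfC` -/

section

/-!
Level 10, window 5: the ladder with joins of the level 11 (MP_448cb3_co, HJoin10)
-/

namespace Pool.Agent.GaussPoset.J10

set_option linter.unusedSectionVars false

open Polynomial Finset Dd Wd Cl J8

universe u

variable {P : Type u} [Fintype P] [PartialOrder P] [DecidableEq P] {r : ℕ}

/-- the costs of the joins -/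
def kc (p : (ℕ × ℕ × ℕ) × (ℕ × ℕ × ℕ)) : ℕ :=
  if p = ((1, 5, 0), (10, 50, 1)) then 15 else if p = ((10, 50, 1), (1, 2, 1)) then 28 else
  if p = ((10, 50, 1), (1, 3, 0)) then 28 else if p = ((10, 50, 1), (1, 4, 0)) then 27 else
  if p = ((10, 50, 1), (3, 9, 1)) then 31 else if p = ((10, 50, 1), (5, 20, 1)) then 31 else
  if p = ((10, 50, 1), (5, 25, 0)) then 29 else if p = ((10, 50, 1), (10, 50, 1)) then 32 else 33

lemma kc_le (p : (ℕ × ℕ × ℕ) × (ℕ × ℕ × ℕ)) : kc p ≤ 33 := by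
  unfold kc
  split_ifs <;> norm_num

lemma JK.kc_le {h : P → ℕ} {z : P} {s s' : ℕ × ℕ × ℕ} (k : JK h z s s') :
    kc (s, s') ≤ cst 5 h z := by
  have key : ∀ {p : (ℕ × ℕ × ℕ) × (ℕ × ℕ × ℕ)} {n m : ℕ}, kc p = n → m = n → kc p ≤ m :=
    fun h h' => by omega
  rcases k with ⟨-, hc, -, -, -⟩ | ⟨-, hc⟩ | ⟨-, hc⟩ | ⟨-, hc⟩ | ⟨-, hc⟩ | ⟨-, hc, -, -, -⟩ |
    ⟨-, hc, -, -, -⟩ | ⟨-, hc, -, -, -⟩ | ⟨-, -, hc⟩
  · exact key (by decide) hc
  · exact key (by decide) hc
  · exact key (by decide) hc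
  · exact key (by decide) hc
  · exact key (by decide) hc
  · exact key (by decide) hc
  · exact key (by decide) hc
  · exact key (by decide) hc
  · exact (J10.kc_le _).trans hc

section

variable {lo hi : Tops P → ℕ → ℕ} {e : Tops P → ℕ → ℕ → P} {Kc : ℕ} {w : Tops P → ℕ}
  {ρ : Tops P → ℤ} {S : Tops P → Finset P} {θ : Tops P → P → ℕ} {B : Tops P → P → Prop}
  {R : List ((ℕ × ℕ × ℕ) × (ℕ × ℕ × ℕ))}

/-- the joins cost more than `n` -/
lemma C10.jnok (W : C10 P r lo hi e Kc w ρ S θ B) (hR : Sm.HR P R) (hRB : ∀ p ∈ R, p ∈ Sm.RB)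
    {n : ℕ} {σ : ℤ} (hn : ∀ p ∈ R, n < kc p) : JnOK P S θ n σ := by
  intro z _ x y h hl hh hm
  obtain ⟨s, s', h1, -, -, k⟩ := W.jk hR hRB h hl hh hm
  have := hn _ h1
  have := k.kc_le
  left
  omega

/-- a join is a boundary element; its label -/
lemma C10.jn_min (W : C10 P r lo hi e Kc w ρ S θ B) {z x y : P} (h : Sm.Cg z x y)
    (hl : lev z = 11) : z ∈ bdR (unnat S) ∧ z ∉ CX lo hi S θ ∧
    ((h10 S θ z = th10 θ x + 1 ∧ th10 θ x ≤ th10 θ y) ∨
      (h10 S θ z = th10 θ y + 1 ∧ th10 θ y ≤ th10 θ x)) := by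
  classical
  have H := W.K.gt.H
  have l1 := (h.lev_eq H).1
  have l2 := (h.lev_eq H).2
  have hzR : z ∈ unnat S := by
    rw [mem_unnat]
    intro s hs
    exact h.ne ((W.sys.topOf_eq (W.sys.up s z hs _ h.cov.1.le)).trans
      (W.sys.topOf_eq (W.sys.up s z hs _ h.cov'.1.le)).symm)
  have hzb : z ∈ bdR (unnat S) := by
    unfold bdR
    rw [mem_filter]
    exact ⟨hzR, x, W.nat10 (by omega), h.cov⟩
  refine ⟨hzb, ?_, ?_⟩
  · intro hC
    obtain ⟨-, -, t, Nc, co, F, E, C, -⟩ := mem_CX.mp hC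
    have hFt := C.chart.le_t F C.F_mem
    have hEt := C.chart.le_t E C.S_mem
    have hx : topOf x = t := by
      rcases C.only x h.cov with h1 | h1
      · rw [h1]; exact W.top_of hFt C.lev_F.le
      · rw [h1]; exact W.top_of hEt C.lev_S.le
    have hy : topOf y = t := by
      rcases C.only y h.cov' with h1 | h1
      · rw [h1]; exact W.top_of hFt C.lev_F.le
      · rw [h1]; exact W.top_of hEt C.lev_S.le
    exact h.ne (hx.trans hy.symm)
  · obtain ⟨v, hv, hzv, hh⟩ := hcan_spec (θ := th10 θ) hzb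
    have hh' : h10 S θ z = th10 θ v + 1 := hh
    have hlex := W.h_le h.cov (le_topOf x) (by omega)
    have hley := W.h_le h.cov' (le_topOf y) (by omega)
    unfold th10 at hh' ⊢
    have hne : x ≠ y := fun h1 => h.ne (by rw [h1])
    rcases Sm.cov_two H h.cov h.cov' hne hzv with rfl | rfl
    · left
      exact ⟨hh', by omega⟩
    · right
      exact ⟨hh', by omega⟩

end

end Pool.Agent.GaussPoset.J10

end

/-! From `Pool.Agent.W_448jx_h67.WgA` -/

section

/-!
No element below both ends of a stair with a fold, `j = 10` (MP_448cb3_co, HJoin10)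
-/

namespace Pool.Agent.GaussPoset.Sm

set_option linter.unusedSectionVars false

open Finset Wd

universe u

variable {P : Type u} [Fintype P] [PartialOrder P] [DecidableEq P] {r : ℕ}
  {lo hi : Tops P → ℕ → ℕ} {e : Tops P → ℕ → ℕ → P} {R : List ((ℕ × ℕ × ℕ) × (ℕ × ℕ × ℕ))}

/-- no element below both ends of a stair with a fold, from its coordinates -/
theorem Ctx.noCC_of10 (K : Ctx P r 10 lo hi e)
    (hC : ∀ (t : Tops P) (z : P), StairShape 10 (lo t) (hi t) → lo t 10 = 0 → z ⋖ e t 10 5 →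
      z ⋖ e t 10 0 → False) : NoCC P 10 := by
  intro z x x' hz hf hzx hzx' hne hu htt
  have H := K.gt.H
  have hg := K.gt.good
  have hl := (H.covBy_iff.mp hzx).2
  have hl' := (H.covBy_iff.mp hzx').2
  have hlx : lev x = 10 := by omega
  have hlx' : lev x' = 10 := by omega
  have n2 := hf.2.2 2 (by omega)
  have hox : x ∈ onlyB (topOf x) := only_of_le H hg (le_topOf x) (by omega)
  have hux : (Win.uc x).card = 1 := by
    obtain ⟨-, -, -, -, -, -, -, -, -, n9, -⟩ := fold_nab10 hf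
    rw [uc_card_nab H (by omega), hlx]
    exact n9
  have C := K.comp (topOf x)
  rcases shape_cases C (by omega) (K.shape (topOf x)) with h | (h | h) | ⟨a, h, h3⟩
  · have := nab_one_of_eq C hox (k := 2) (by omega) (by omega) (h 2 (by omega))
    omega
  · rcases rect_dich' H (chart_rect C H hg h) (by omega) hox (by omega) with g | ⟨g1, g2⟩
    · have := g 2 (by omega)
      omega
    · have := g2 hlx
      omega
  · -- the stair
    have key : ∀ y : P, y ≤ (topOf x : P) → lev y = 10 → (Win.uc y).card = 1 →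
        y = e (topOf x) 10 5 ∨ (lo (topOf x) 10 = 0 ∧ y = e (topOf x) 10 0) := by
      intro y hy hly huy
      obtain ⟨s, a1, a2, a3⟩ := C.surj y hy (by omega)
      rw [hly] at a1 a2 a3
      have b1 := h.hi 10 (by omega)
      have b2 := h.hi 9 (by omega)
      have b3 := h.lo 9 (by omega)
      have b4 := C.lo_step 9 (by omega)
      have b5 := C.lo_le 9 (by omega)
      simp only [show 9 + 1 = 10 from rfl] at b3 b4
      by_cases hs : s = 5
      · left
        rw [← a3, hs]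
      · right
        by_cases hs2 : lo (topOf x) 9 + 1 ≤ s
        · exfalso
          have c1 := (C.cov 9 s s (by omega) (by simpa using a1) (by simpa using a2)
            (by omega) (by omega)).mpr (Or.inl rfl)
          have c2 := (C.cov 9 s (s - 1) (by omega) (by simpa using a1) (by simpa using a2)
            (by omega) (by omega)).mpr (Or.inr (by omega))
          simp only [show 9 + 1 = 10 from rfl, a3] at c1 c2
          have c3 : e (topOf x) 9 s ≠ e (topOf x) 9 (s - 1) := by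
            intro hh
            have := C.inj 9 s (s - 1) (by omega) (by omega) (by omega) (by omega) (by omega) hh
            omega
          have c4 := Finset.card_le_card (show ({e (topOf x) 9 s, e (topOf x) 9 (s - 1)} :
            Finset P) ⊆ Win.uc y from by
              intro q hq
              rw [Win.mem_uc]
              rw [mem_insert, mem_singleton] at hq
              rcases hq with rfl | rfl
              · exact c1
              · exact c2)
          rw [Finset.card_pair c3] at c4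
          omega
        · have hs3 : s = 0 := by omega
          subst hs3
          exact ⟨by omega, a3.symm⟩
    rcases key x (le_topOf x) hlx hux with g | ⟨g0, g⟩
    · rcases key x' (by rw [htt]; exact le_topOf x') hlx' hu with g' | ⟨g0', g'⟩
      · exact hne (g'.trans g.symm)
      · exact hC (topOf x) z h g0' (g ▸ hzx) (g' ▸ hzx')
    · rcases key x' (by rw [htt]; exact le_topOf x') hlx' hu with g' | ⟨g0', g'⟩
      · exact hC (topOf x) z h g0 (g' ▸ hzx') (g ▸ hzx)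
      · exact hne (g'.trans g.symm)
  · obtain ⟨e1, e2⟩ := h.low 2 (by have := h3 (by omega); omega)
    have := nab_one_of_eq C hox (k := 2) (by omega) (by omega) (by rw [e1, e2])
    omega

/-- **no element (C)**, if the joins cost at least `31` at the window `5` -/
theorem Ctx.noCC_10 (K : Ctx P r 10 lo hi e) (hR : HR P R) (hRB : ∀ p ∈ R, p ∈ RB)
    (h31 : ∀ p ∈ R, 31 ≤ J10.kc p) : NoCC P 10 := by
  refine K.noCC_of10 fun t z hS h0 hz5 hz0 => ?_
  have hJ : ∀ {Kc : ℕ} {w : Tops P → ℕ} {ρ : Tops P → ℤ} {S : Tops P → Finset P}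
      {θ : Tops P → P → ℕ} {B : Tops P → P → Prop}, J10.C10 P r lo hi e Kc w ρ S θ B →
      ∀ {n : ℕ} {σ : ℤ}, n < 31 → J10.JnOK P S θ n σ := fun W n σ hn =>
    W.jnok hR hRB (fun p hp => by
      have := h31 p hp
      omega)
  have h5 := J10.no5_all K (fun _ _ _ _ _ W n _ hn _ => hJ W (by omega))
  have hA := J10.exA_all K h5 (fun _ _ _ _ _ W n _ hn _ => hJ W (by omega))
  exact J10.no_cx K (fun t D => ⟨h5 t D, hA t D⟩) (fun _ _ _ _ _ W n _ hn _ => hJ W (by omega))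
    t hS h0 hz5 hz0

end Pool.Agent.GaussPoset.Sm

end

/-! From `Pool.Agent.W_448jx_h67.WfD` -/

section

/-!
Level 10, window 5: the pairs of ends `15|F` and `E6|F` (MP_448cb3_co, HJoin10)
-/

namespace Pool.Agent.GaussPoset.J10

set_option linter.unusedSectionVars false

open Polynomial Finset Dd Wd Cl J8

universe u

variable {P : Type u} [Fintype P] [PartialOrder P] [DecidableEq P] {r : ℕ}
  {R : List ((ℕ × ℕ × ℕ) × (ℕ × ℕ × ℕ))}

/-- the list without a pair -/
def dropP (R : List ((ℕ × ℕ × ℕ) × (ℕ × ℕ × ℕ))) (s s' : ℕ × ℕ × ℕ) :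
    List ((ℕ × ℕ × ℕ) × (ℕ × ℕ × ℕ)) :=
  R.filter fun p => !(p == (s, s') || p == (s', s))

lemma mem_dropP {s s' : ℕ × ℕ × ℕ} {p : (ℕ × ℕ × ℕ) × (ℕ × ℕ × ℕ)} :
    p ∈ dropP R s s' ↔ p ∈ R ∧ p ≠ (s, s') ∧ p ≠ (s', s) := by
  unfold dropP
  rw [List.mem_filter, Bool.not_eq_true', Bool.or_eq_false_iff, beq_eq_false_iff_ne,
    beq_eq_false_iff_ne]

/-- a pair is excluded -/
lemma hr_drop (H : Gr P r) (hR : Sm.HR P R) {s s' : ℕ × ℕ × ℕ}
    (h : ∀ z x y : P, Sm.Cg z x y → lev z = 11 → Sm.Dt 10 x s → Sm.Dt 10 y s' → False) :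
    Sm.HR P (dropP R s s') := by
  intro z x y hz hl
  obtain ⟨t, t', h1, h2, h3⟩ := hR z x y hz hl
  refine ⟨t, t', mem_dropP.mpr ⟨h1, ?_, ?_⟩, h2, h3⟩
  · intro h4
    rw [Prod.mk.injEq] at h4
    exact h z x y hz hl (h4.1 ▸ h2) (h4.2 ▸ h3)
  · intro h4
    rw [Prod.mk.injEq] at h4
    exact h z y x hz.symm hl (h4.2 ▸ h3) (h4.1 ▸ h2)

section

variable {lo hi : Tops P → ℕ → ℕ} {e : Tops P → ℕ → ℕ → P}

/-- data at the window `5` -/
lemma exists_c10 (K : Sm.Ctx P r 10 lo hi e) {Kc : ℕ} (hK1 : 1 ≤ Kc) (hK : Kc ≤ 33)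
    (h25 : Kc ≠ 25) (h7 : Kc ≠ 7) (hL : ∀ t, WordD 10 5 wa5 (lo t) (hi t) →
      ∃ w ρ S θ B, TD Kc t (hi t 5 - lo t 5 + 1) w ρ S θ B) :
    ∃ w ρ S θ B, C10 P r lo hi e Kc w ρ S θ B := by
  have hd : ∀ t, ¬ WordD 10 4 w4d (lo t) (hi t) := no_w4d K.gt K.comp K.shape
  choose w ρ S θ B hT hw hx using fun t : Tops P => exists_td (K := Kc) hK1 hK K.gt (K.comp t)
    (K.shape t) (hd t) (fun W => by
      obtain ⟨w, ρ, S, θ, B, T⟩ := hL t W
      exact ⟨w, ρ, S, θ, B, T, fun h => absurd h h25, fun h => absurd h h7⟩)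
  exact ⟨w, ρ, S, θ, B, K, hT⟩

lemma chkB15 : ∀ p ∈ Sm.RB, 15 ≤ kc p := by decide +kernel

/-- **the pair `15|F` is excluded** -/
theorem kill15 (K : Sm.Ctx P r 10 lo hi e) (hR : Sm.HR P Sm.RB) :
    Sm.HR P (dropP Sm.RB (1, 5, 0) (10, 50, 1)) := by
  classical
  have H := K.gt.H
  refine hr_drop H hR ?_
  intro z x y hz hl dx dy
  have h5 := no5_all K (fun w ρ S θ B W n hn hn7 _ => W.jnok hR (fun p hp => hp)
    (fun p hp => by have := chkB15 p hp; omega))
  obtain ⟨w, ρ, S, θ, B, W⟩ := exists_c10 K (Kc := 16) (by norm_num) (by norm_num)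
    (by norm_num) (by norm_num) (fun t D => by
      obtain ⟨w, ρ, S, θ, B, T, -⟩ := tdLa5A K.gt (K.comp t) D (h5 t D)
      exact ⟨_, _, _, _, _, T.mono (K' := 16) (by norm_num) (by norm_num)⟩)
  have hne : Nonempty (Tops P) := ⟨topOf x⟩
  have I := W.ladder hne (N := 15) (by norm_num) (by norm_num) (by norm_num)
    (fun n _ hn _ => W.jnok hR (fun p hp => hp) (fun p hp => by
      have := chkB15 p hp
      omega))
  obtain ⟨hzb, hzC, hor⟩ := W.jn_min hz hl
  -- the value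
  have hval : ∀ z, h10 S θ z = 1 → nst 5 (h10 S θ) z = 5 → nab 5 z = 5 → nab 6 z = 4 →
      Lv (lv P 5).card (Lt 5 (h10 S θ) z) (-1 * (-1) ^ below P 5) := by
    intro z h1 h2 h3 h4
    have := lt_lv (h := h10 S θ) (z := z) (s := 5) (a := 4) (b := 1) h2 h3 (by rw [h1]; exact h4)
      rfl
    simpa using this
  obtain ⟨-, -, -, -, -, -, a7⟩ := W.go hne (n := 15) (by norm_num) (by norm_num) (by norm_num)
    I.w_ge (fun h => I.q (by omega)) (fun h => by omega) (fun h => by omega)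
    (fun h => by omega) (-1) (Or.inr rfl) (fun h => by omega)
    (fun t ht => by
      rcases (W.td t).sg (by omega) with h1 | h1 <;> omega)
    (by
      intro z _ x y h hl hh hm
      obtain ⟨s, s', -, -, -, k⟩ := W.jk hR (fun p hp => hp) h hl hh hm
      rcases k with ⟨h1, hc, hn, g5, g6⟩ | ⟨-, hc⟩ | ⟨-, hc⟩ | ⟨-, hc⟩ | ⟨-, hc⟩ |
        ⟨-, hc, -, -, -⟩ | ⟨-, hc, -, -, -⟩ | ⟨-, hc, -, -, -⟩ | ⟨-, -, hc⟩
      · right
        exact ⟨hc, Or.inr (hval z h1 hn g5 g6)⟩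
      all_goals
        left
        omega)
  have fin : ∀ s s', JK (h10 S θ) z s s' →
      ((s = (1, 5, 0) ∧ s' = (10, 50, 1)) ∨ (s' = (1, 5, 0) ∧ s = (10, 50, 1))) → False := by
    intro s s' k hss
    rcases k with ⟨h1, hc, hn, g5, g6⟩ | ⟨-, hc⟩ | ⟨-, hc⟩ | ⟨-, hc⟩ | ⟨-, hc⟩ |
      ⟨-, hc, -, -, -⟩ | ⟨-, hc, -, -, -⟩ | ⟨-, hc, -, -, -⟩ | ⟨h1, h2, hc⟩
    · exact a7 z hzb hzC hc (hval z h1 hn g5 g6)
    · exact absurd hss (by decide)
    · exact absurd hss (by decide)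
    · exact absurd hss (by decide)
    · exact absurd hss (by decide)
    · exact absurd hss (by decide)
    · exact absurd hss (by decide)
    · exact absurd hss (by decide)
    · rcases hss with ⟨-, h3⟩ | ⟨-, h3⟩
      · exact h2 h3
      · exact h1 h3
  rcases hor with ⟨h1, h2⟩ | ⟨h1, h2⟩
  · obtain ⟨s, s', -, d, d', k⟩ := W.jk hR (fun p hp => hp) hz hl h1 h2
    exact fin s s' k (Or.inl ⟨d.unq10 dx, d'.unq10 dy⟩)
  · obtain ⟨s, s', -, d, d', k⟩ := W.jk hR (fun p hp => hp) hz.symm hl h1 h2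
    exact fin s s' k (Or.inr ⟨d'.unq10 dx, d.unq10 dy⟩)

/-- **The data at the window `5`, cap `33`**, if the pair `15|F` is excluded. -/
theorem exists_c33 (K : Sm.Ctx P r 10 lo hi e) (hR : Sm.HR P R) (hRB : ∀ p ∈ R, p ∈ Sm.RB)
    (h27 : ∀ p ∈ R, 27 ≤ kc p) : ∃ w ρ S θ B, C10 P r lo hi e 33 w ρ S θ B := by
  have h5 := no5_all K (fun w ρ S θ B W n hn hn7 _ => W.jnok hR hRB
    (fun p hp => by have := h27 p hp; omega))
  have hA := exA_all K h5 (fun w ρ S θ B W n hn hn25 _ => W.jnok hR hRB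
    (fun p hp => by have := h27 p hp; omega))
  exact exists_c10 K (by norm_num) (by norm_num) (by norm_num) (by norm_num) (fun t D => by
    obtain ⟨S, θ, B, T⟩ := tdLa5B K.gt (K.comp t) D (h5 t D) (hA t D)
    exact ⟨_, _, _, _, _, T⟩)

/-- **the pair `E6|F` is excluded** if the joins cost at least `29` -/
theorem killE6 (K : Sm.Ctx P r 10 lo hi e) (hR : Sm.HR P R) (hRB : ∀ p ∈ R, p ∈ Sm.RB)
    (h29 : ∀ p ∈ R, 29 ≤ kc p) :
    Sm.HR P (dropP R (5, 25, 0) (10, 50, 1)) := by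
  classical
  have H := K.gt.H
  refine hr_drop H hR ?_
  intro z x y hz hl dx dy
  obtain ⟨w, ρ, S, θ, B, W⟩ := exists_c33 K hR hRB (fun p hp => by have := h29 p hp; omega)
  have hne : Nonempty (Tops P) := ⟨topOf x⟩
  have I := W.ladder hne (N := 29) (by norm_num) (by norm_num) (by norm_num)
    (fun n _ hn _ => W.jnok hR hRB (fun p hp => by
      have := h29 p hp
      omega))
  obtain ⟨hzb, hzC, hor⟩ := W.jn_min hz hl
  have hval : ∀ z, h10 S θ z = 2 → nst 5 (h10 S θ) z = 10 → nab 5 z = 5 → nab 7 z = 4 →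
      Lv (lv P 5).card (Lt 5 (h10 S θ) z) (1 * (-1) ^ below P 5) := by
    intro z h1 h2 h3 h4
    have := lt_lv (h := h10 S θ) (z := z) (s := 10) (a := 4) (b := 0) h2 h3 (by rw [h1]; exact h4)
      rfl
    simpa using this
  obtain ⟨-, -, -, -, -, -, a7⟩ := W.go hne (n := 29) (by norm_num) (by norm_num) (by norm_num)
    I.w_ge (fun h => I.q (by omega)) (fun h => I.f (by omega)) (fun h => I.e6 (by omega))
    (fun h => I.c7 (by omega)) 1 (Or.inl rfl) (fun h => rfl)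
    (fun t ht => by
      rcases (W.td t).sg (by omega) with h1 | h1 <;> omega)
    (by
      intro z _ x y h hl hh hm
      obtain ⟨s, s', g, -, -, k⟩ := W.jk hR hRB h hl hh hm
      have g1 := h29 _ g
      rcases k with ⟨h1, hc, hn, g5, g6⟩ | ⟨-, hc⟩ | ⟨-, hc⟩ | ⟨-, hc⟩ | ⟨-, hc⟩ |
        ⟨-, hc, -, -, -⟩ | ⟨h1, hc, hn, g5, g7⟩ | ⟨-, hc, -, -, -⟩ | ⟨-, -, hc⟩
      · exact absurd g1 (by decide)
      · exact absurd g1 (by decide)
      · exact absurd g1 (by decide)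
      · exact absurd g1 (by decide)
      · left; omega
      · left; omega
      · right
        exact ⟨hc, Or.inr (hval z h1 hn g5 g7)⟩
      · left; omega
      · left; omega)
  have fin : ∀ s s', JK (h10 S θ) z s s' →
      ((s = (5, 25, 0) ∧ s' = (10, 50, 1)) ∨ (s' = (5, 25, 0) ∧ s = (10, 50, 1))) → False := by
    intro s s' k hss
    rcases k with ⟨h1, hc, hn, g5, g6⟩ | ⟨-, hc⟩ | ⟨-, hc⟩ | ⟨-, hc⟩ | ⟨-, hc⟩ |
      ⟨-, hc, -, -, -⟩ | ⟨h1, hc, hn, g5, g7⟩ | ⟨-, hc, -, -, -⟩ | ⟨h1, h2, hc⟩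
    · exact absurd hss (by decide)
    · exact absurd hss (by decide)
    · exact absurd hss (by decide)
    · exact absurd hss (by decide)
    · exact absurd hss (by decide)
    · exact absurd hss (by decide)
    · exact a7 z hzb hzC hc (hval z h1 hn g5 g7)
    · exact absurd hss (by decide)
    · rcases hss with ⟨-, h3⟩ | ⟨-, h3⟩
      · exact h2 h3
      · exact h1 h3
  rcases hor with ⟨h1, h2⟩ | ⟨h1, h2⟩
  · obtain ⟨s, s', -, d, d', k⟩ := W.jk hR hRB hz hl h1 h2
    exact fin s s' k (Or.inl ⟨d.unq10 dx, d'.unq10 dy⟩)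
  · obtain ⟨s, s', -, d, d', k⟩ := W.jk hR hRB hz.symm hl h1 h2
    exact fin s s' k (Or.inr ⟨d'.unq10 dx, d.unq10 dy⟩)

end

end Pool.Agent.GaussPoset.J10

end

/-! From `Pool.Agent.W_448jx_h67.WfE` -/

section

/-!
Level 10, window 5: the pairs of ends `E7|F` and `F|F`; no joins (MP_448cb3_co, HJoin10)
-/

namespace Pool.Agent.GaussPoset.J10

set_option linter.unusedSectionVars false

open Polynomial Finset Dd Wd Cl J8

universe u

variable {P : Type u} [Fintype P] [PartialOrder P] [DecidableEq P] {r : ℕ}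
  {R : List ((ℕ × ℕ × ℕ) × (ℕ × ℕ × ℕ))}

/-- equal terms do not cancel -/
lemma empty_of_sum {ι : Type*} {T : Finset ι} {f : ι → ℤ[X]} {a c B : ℕ}
    (hf : ∀ z ∈ T, f z = X ^ a * (1 + X) ^ c) (hc : c < B) (h : (1 + X : ℤ[X]) ^ B ∣ ∑ z ∈ T, f z) :
    T = ∅ := by
  rw [Finset.sum_congr rfl hf, Finset.sum_const, nsmul_eq_mul] at h
  obtain ⟨d, rfl⟩ : ∃ d, B = c + 1 + d := ⟨B - (c + 1), by omega⟩
  have h2 : (1 + X : ℤ[X]) ^ c * (1 + X) ∣ (1 + X) ^ c * ((T.card : ℤ[X]) * X ^ a) := by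
    rw [← pow_succ]
    refine (pow_dvd_pow _ (by omega)).trans (h.trans (dvd_of_eq ?_))
    ring
  obtain ⟨q, hq⟩ := (mul_dvd_mul_iff_left (one_add_X_pow_ne c)).mp h2
  have h3 := congrArg (eval (-1)) hq
  rw [eval_mul, eval_mul, eval_add, eval_one, eval_X, eval_pow, eval_X, add_neg_cancel,
    zero_mul, eval_natCast] at h3
  have h4 := (mul_eq_zero.mp h3).resolve_right (pow_ne_zero _ (by norm_num))
  exact Finset.card_eq_zero.mp (by exact_mod_cast h4)

section

variable {lo hi : Tops P → ℕ → ℕ} {e : Tops P → ℕ → ℕ → P} {Kc : ℕ} {w : Tops P → ℕ}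
  {ρ : Tops P → ℤ} {S : Tops P → Finset P} {θ : Tops P → P → ℕ} {B : Tops P → P → Prop}

/-- **the boundary elements of the least cost have no equal terms** -/
theorem C10.kill (W : C10 P r lo hi e 33 w ρ S θ B) (hw : ∀ t, 33 ≤ w t) {n : ℕ} (hn : n < 33)
    (hc : ∀ z ∈ bdR (unnat S), n ≤ cst 5 (h10 S θ) z) {a c : ℕ} (hc1 : 1 ≤ c)
    (hT : ∀ z ∈ bdR (unnat S), cst 5 (h10 S θ) z = n →
      nst 5 (h10 S θ) z = a ∧ nab 5 z = nab (5 + h10 S θ z) z + c) :
    ∀ z ∈ bdR (unnat S), cst 5 (h10 S θ) z ≠ n := by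
  classical
  have H := W.K.gt.H
  have L := W.lad hw
  have h1 := L.plus0 (n := n) hn.le ∅ (by simp) (fun z hz _ => hc z hz) (by simp) (by simp)
  have h2 := L.nat_low hn
  have h3 := dvd_Z H.gauss 5 n
  rw [W.sum_b] at h1 h2
  have h4 : (1 + X : ℤ[X]) ^ (lv P 5).card ∣
      ∑ z ∈ (bdR (unnat S)).filter (fun z => (∀ A ∈ (∅ : Finset (Finset P)), z ∉ A) ∧
        cst 5 (hcan (unnat S) (th10 θ)) z = n), Lt 5 (hcan (unnat S) (th10 θ)) z := by
    rw [Finset.sum_empty, zero_add] at h1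
    have h5 := dvd_sub (dvd_sub h3 h1) h2
    refine h5.trans (dvd_of_eq ?_)
    ring
  intro z hz hzn
  have hzB : c ≤ (lv P 5).card := by
    have h5 : nab 5 z ≤ (lv P 5).card := nab_le z 5
    have := (hT z hz hzn).2
    omega
  have h5 := empty_of_sum (a := below P 5 + a) (c := (lv P 5).card - c) (fun z' hz' => by
    rw [mem_filter] at hz'
    obtain ⟨h6, h7⟩ := hT z' hz'.1 hz'.2.2
    have h8 : nab 5 z' ≤ (lv P 5).card := nab_le z' 5
    have h9 : (lv P 5).card + nab (5 + h10 S θ z') z' - nab 5 z' = (lv P 5).card - c := by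
      omega
    unfold Lt
    rw [show hcan (unnat S) (th10 θ) = h10 S θ from rfl, h6, h9]) (by omega) h4
  have h6 : z ∈ (bdR (unnat S)).filter (fun z => (∀ A ∈ (∅ : Finset (Finset P)), z ∉ A) ∧
        cst 5 (hcan (unnat S) (th10 θ)) z = n) := by
    rw [mem_filter]
    exact ⟨hz, by simp, hzn⟩
  rw [h5] at h6
  exact absurd h6 (Finset.notMem_empty _)

/-- the boundary elements after the ladder -/
lemma C10.late (W : C10 P r lo hi e 33 w ρ S θ B) (I : Inv lo hi w S θ 31) (hR : Sm.HR P R)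
    (hRB : ∀ p ∈ R, p ∈ Sm.RB) {z : P} (hz : z ∈ bdR (unnat S)) :
    33 ≤ cst 5 (h10 S θ) z ∨ ∃ x y s s', Sm.Cg z x y ∧ lev z = 11 ∧ (s, s') ∈ R ∧
      Sm.Dt 10 x s ∧ Sm.Dt 10 y s' ∧ JK (h10 S θ) z s s' := by
  rcases W.kind hz with ⟨t, h1⟩ | ⟨x, h1, -⟩ | ⟨x, h1, -⟩ | ⟨x, h1, -⟩ | ⟨x, h1, h2, -⟩ |
    ⟨t, h1, h2⟩ | ⟨x, y, h1, h2, h3, h4⟩
  · left
    have h2 := I.w_ge t
    have h3 := (W.td t).w_le
    rcases Nat.lt_or_ge (w t) 33 with h4 | h4
    · rcases (W.td t).sg h4 with h5 | h5 <;> omega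
    · omega
  · exact absurd h1 (I.q (by norm_num) z hz x)
  · exact absurd h1 (I.f (by norm_num) z hz x)
  · exact absurd h1 (I.e6 (by norm_num) z hz x)
  · exact absurd h1 (I.c7 (by norm_num) z hz x h2)
  · exfalso
    have h3 : z ∈ CX lo hi S θ := mem_CX.mpr ⟨hz, h2, t, h1⟩
    rw [I.cx (by norm_num)] at h3
    exact absurd h3 (Finset.notMem_empty _)
  · right
    obtain ⟨s, s', g1, g2, g3, g4⟩ := W.jk hR hRB h1 h2 h3 h4
    exact ⟨x, y, s, s', h1, h2, g1, g2, g3, g4⟩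

/-- the last pairs of ends -/
def RL : List ((ℕ × ℕ × ℕ) × (ℕ × ℕ × ℕ)) :=
  [((5, 20, 1), (10, 50, 1)), ((10, 50, 1), (5, 20, 1)), ((10, 50, 1), (10, 50, 1))]

/-- **no joins** -/
theorem no_joins (K : Sm.Ctx P r 10 lo hi e) (hR : Sm.HR P RL) :
    ∀ z : P, lev z = 11 → ¬ Hul.Jn z := by
  classical
  have H := K.gt.H
  have hRB : ∀ p ∈ RL, p ∈ Sm.RB := by decide +kernel
  have hk : ∀ p ∈ RL, 31 ≤ kc p := by decide +kernel
  have hcg : ∀ z x y : P, Sm.Cg z x y → lev z = 11 → False := by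
    intro z0 x0 y0 hz0 hl0
    obtain ⟨w, ρ, S, θ, B, W⟩ := exists_c33 K hR hRB (fun p hp => by have := hk p hp; omega)
    have hne : Nonempty (Tops P) := ⟨topOf x0⟩
    have I := W.ladder hne (N := 31) (by norm_num) (by norm_num) (by norm_num)
      (fun n _ hn _ => W.jnok hR hRB (fun p hp => by
        have := hk p hp
        omega))
    have hw : ∀ t, 33 ≤ w t := by
      intro t
      have h2 := I.w_ge t
      by_contra h3
      rcases (W.td t).sg (by omega) with h5 | h5 <;> omega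
    have k31 : ∀ z ∈ bdR (unnat S), cst 5 (h10 S θ) z ≠ 31 := by
      refine W.kill hw (by norm_num) ?_ (a := 10) (c := 1) le_rfl ?_
      · intro z hz
        rcases W.late I hR hRB hz with h | ⟨x, y, s, s', -, -, h1, -, -, h2⟩
        · omega
        · have := hk _ h1
          have := h2.kc_le
          omega
      · intro z hz hzn
        rcases W.late I hR hRB hz with h | ⟨x, y, s, s', -, -, h1, -, -, h2⟩
        · omega
        · rcases h2 with ⟨-, hc, -, -, -⟩ | ⟨-, hc⟩ | ⟨-, hc⟩ | ⟨-, hc⟩ | ⟨-, hc⟩ |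
            ⟨h3, hc, hn, g5, g7⟩ | ⟨-, hc, -, -, -⟩ | ⟨-, hc, -, -, -⟩ | ⟨-, -, hc⟩
          · omega
          · omega
          · omega
          · omega
          · exact absurd h1 (by decide)
          · rw [h3]
            exact ⟨hn, by rw [g5, g7]⟩
          · omega
          · omega
          · omega
    have key : ∀ z ∈ bdR (unnat S), 33 ≤ cst 5 (h10 S θ) z ∨ (h10 S θ z = 2 ∧
        cst 5 (h10 S θ) z = 32 ∧ nst 5 (h10 S θ) z = 12 ∧ nab 5 z = 6 ∧ nab 7 z = 4) := by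
      intro z hz
      rcases W.late I hR hRB hz with h | ⟨x, y, s, s', -, -, h1, -, -, h2⟩
      · exact Or.inl h
      · rcases h2 with ⟨-, hc, -, -, -⟩ | ⟨-, hc⟩ | ⟨-, hc⟩ | ⟨-, hc⟩ | ⟨-, hc⟩ |
          ⟨-, hc, -, -, -⟩ | ⟨-, hc, -, -, -⟩ | ⟨h3, hc, hn, g5, g7⟩ | ⟨-, -, hc⟩
        · exact absurd h1 (by decide)
        · exact absurd h1 (by decide)
        · exact absurd h1 (by decide)
        · exact absurd h1 (by decide)
        · exact absurd h1 (by decide)
        · exact absurd hc (k31 z hz)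
        · exact absurd h1 (by decide)
        · exact Or.inr ⟨h3, hc, hn, g5, g7⟩
        · exact Or.inl hc
    have k32 : ∀ z ∈ bdR (unnat S), cst 5 (h10 S θ) z ≠ 32 := by
      refine W.kill hw (by norm_num) ?_ (a := 12) (c := 2) (by norm_num) ?_
      · intro z hz
        rcases key z hz with h | h <;> omega
      · intro z hz hzn
        rcases key z hz with h | ⟨h1, -, h3, h4, h5⟩
        · omega
        · rw [h1]
          exact ⟨h3, by rw [h4, h5]⟩
    -- the join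
    obtain ⟨hzb, -, hor⟩ := W.jn_min hz0 hl0
    have h33 : 33 ≤ cst 5 (h10 S θ) z0 := by
      rcases key z0 hzb with h | ⟨-, h, -⟩
      · exact h
      · exact absurd h (k32 z0 hzb)
    have fin : ∀ s s', (s, s') ∈ RL → JK (h10 S θ) z0 s s' → False := by
      intro s s' h1 k
      rcases k with ⟨-, hc, -, -, -⟩ | ⟨-, hc⟩ | ⟨-, hc⟩ | ⟨-, hc⟩ | ⟨-, hc⟩ |
          ⟨-, hc, -, -, -⟩ | ⟨-, hc, -, -, -⟩ | ⟨-, hc, -, -, -⟩ | ⟨h2, h3, -⟩
      · omega
      · omega
      · omega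
      · omega
      · omega
      · omega
      · omega
      · omega
      · unfold RL at h1
        simp only [List.mem_cons, Prod.mk.injEq, List.not_mem_nil, or_false] at h1
        rcases h1 with ⟨-, h4⟩ | ⟨h4, -⟩ | ⟨h4, -⟩
        · exact h3 h4
        · exact h2 h4
        · exact h2 h4
    rcases hor with ⟨h1, h2⟩ | ⟨h1, h2⟩
    · obtain ⟨s, s', g, -, -, k⟩ := W.jk hR hRB hz0 hl0 h1 h2
      exact fin s s' g k
    · obtain ⟨s, s', g, -, -, k⟩ := W.jk hR hRB hz0.symm hl0 h1 h2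
      exact fin s s' g k
  intro z hl hj
  obtain ⟨x, y, h⟩ := K.cross hj (by omega)
  exact hcg z x y h hl

end

end Pool.Agent.GaussPoset.J10

end
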