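import Mathlib
import Pool.Agent.W_448zz_h61.Ns
import Pool.Agent.W_448zz_h61.M189

/-! From `Pool.Agent.W_448jx_h67.WeS` -/

/-!
The windows `2`, `3` at `j = 10` with the component of the end `(5, 25, 0)`: the balances
(MP_448cb3_co, HJoin10)
-/

namespace Pool.Agent.GaussPoset.Sm

set_option linter.unusedSectionVars false

open Polynomial Finset Wd

universe u

variable {P : Type u} [Fintype P] [PartialOrder P] [DecidableEq P] {r w K0 Kc : ℕ}
  {N : Tops P → Finset P} {b : Tops P → ℕ} {θ : Tops P → P → ℕ}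

/-- the cost with the label `8` at the window `3`, level `11` -/
lemma cst3f_11 {z : P} (hl : lev z = 11) : cst 3 (fun _ => 8) z = nab 4 z + 2 * nab 5 z +
    3 * nab 6 z + 4 * nab 7 z + 5 * nab 8 z + 6 * nab 9 z + 7 * nab 10 z + 8 := by
  have h1 : nab 11 z = 1 := by rw [← hl]; exact nab_self
  rw [cst_eq, hl]
  simp only [Finset.sum_range_succ, Finset.sum_range_zero, h1]
  norm_num

/-- **no set `Zf`** -/
theorem We.fs0 (W : We r 10 w K0 N b θ) (hw2 : 2 ≤ w) (h3 : w = 3 → Kc ≤ 71 ∨ NoCC P 10) :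
    FS P 10 w Kc N b θ ∅ (fun _ => False) (hS 10 w N b θ) where
  sub := Finset.empty_subset _
  up := fun z hz => absurd hz (Finset.notMem_empty z)
  ft := fun _ _ h => h.elim
  eq := fun _ _ _ _ => rfl
  pos := fun z hz => by
    rw [Finset.sdiff_empty] at hz
    exact hS_posE W hz
  big := fun _ _ ⟨y, hy, _⟩ => absurd hy (Finset.notMem_empty y)
  far := by
    classical
    intro v M hv
    have h := W.farS (by omega) rfl hw2 v ?_ (fun x hx => M.tw x hx (fun h => h)) (fun z hz => by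
      refine M.bd z ?_
      rw [Finset.sdiff_empty]
      exact hz)
    · rw [Finset.sdiff_empty]
      convert h using 4
      simp
    · intro z hz hw3
      subst hw3
      rcases h3 rfl with h4 | h4
      · refine ⟨by omega, ?_⟩
        obtain ⟨h1, h2, h5⟩ := W.cel_nab hw2 hz
        have e4 := h5 4 (by omega)
        have e5 := h5 5 (by omega)
        have e6 := h5 6 (by omega)
        have e7 := h5 7 (by omega)
        have e8 := h5 8 (by omega)
        have e9 := h5 9 (by omega)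
        have e10 := h5 10 (by omega)
        norm_num at e4 e5 e6 e7 e8 e9 e10
        rw [h1, show 10 + 1 - 3 = 8 by norm_num, cst3f_11 h1]
        omega
      · exact absurd hz (h4.not_celE W hw2)

variable {lo hi : Tops P → ℕ → ℕ} {e : Tops P → ℕ → ℕ → P}

/-- the line of a join of level `11` at a fold end, window `3` -/
lemma Ctx.mnx (K : Ctx P r 10 lo hi e) {z x x' : P} (h : Cg z x x') (hl : lev z = 11) {v : ℕ}
    (hv : v ≤ cst 3 (fun _ => 6) z) :
    (v : ℤ) - (((10 + 1 - 3 : ℕ) : ℕ) : ℤ) ^ 2 ≤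
      kapZ 10 z * (((10 : ℕ) : ℤ) - ((3 : ℕ) : ℤ)) + gZ 10 z := by
  have H := K.gt.H
  have l1 := (h.lev_eq H).1
  have l2 := (h.lev_eq H).2
  obtain ⟨a0, a1, a2⟩ := K.low10 h (sok11 (by omega))
  obtain ⟨b0, b1, b2⟩ := K.low10 h.symm (sok11 (by omega))
  have c2 : nab 2 x ≤ 2 := by
    rcases a2 with h | h
    · omega
    · have := (fold_nab10 h).2.2.1
      omega
  have d2 : nab 2 x' ≤ 2 := by
    rcases b2 with h | h
    · omega
    · have := (fold_nab10 h).2.2.1
      omega
  have s0 := h.sums H hl 0 (by omega)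
  have s1 := h.sums H hl 1 (by omega)
  have s2 := h.sums H hl 2 (by omega)
  have s10 := h.sums H hl 10 (by omega)
  have e1 : nab 10 x = 1 := by rw [← show lev x = 10 by omega]; exact nab_self
  have e2 : nab 10 x' = 1 := by rw [← show lev x' = 10 by omega]; exact nab_self
  rw [cst3_11 hl] at hv
  obtain ⟨k1, k2⟩ := line_11 hl
  rw [k1, k2]
  have hz0 : (nab 0 z : ℤ) = 2 := by exact_mod_cast (by omega : nab 0 z = 2)
  have hz1 : (nab 1 z : ℤ) = 2 := by exact_mod_cast (by omega : nab 1 z = 2)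
  have hz2 : (nab 2 z : ℤ) ≤ 4 := by exact_mod_cast (by omega : nab 2 z ≤ 4)
  have hz10 : (nab 10 z : ℤ) = 2 := by exact_mod_cast (by omega : nab 10 z = 2)
  have hv' : (v : ℤ) ≤ nab 4 z + 2 * nab 5 z + 3 * nab 6 z + 4 * nab 7 z + 5 * nab 8 z +
      6 * nab 9 z + 6 * nab 10 z + 6 := by exact_mod_cast hv
  norm_num
  linarith

/-- **the balance at the windows `2`, `3`** -/
theorem Ctx.winE (K : Ctx P r 10 lo hi e) (hw : w = 2 ∨ w = 3)
    (W : We r 10 w K0 N (fun t => hi t w - lo t w + 1) θ)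
    (hu : Unq P w (fun t => hi t w - lo t w + 1)) {LE LO : List ℤ} {Zf : Finset P}
    {FT : P → Prop} {hF : P → ℕ}
    (F : FS P 10 w Kc N (fun t => hi t w - lo t w + 1) θ Zf FT hF)
    (I : InE P w Kc (XL (10 + 1 - w) LE) (XL (10 + 1 - w) LO))
    (C : CellsF P 10 w K0 Kc N (fun t => hi t w - lo t w + 1) θ (XL (10 + 1 - w) LE)
      (XL (10 + 1 - w) LO) Zf FT) {cT lb : ℤ}
    (hK : (Kc : ℤ) = ((10 + 1 - w : ℕ) : ℤ) ^ 2 + cT)
    (hK2 : 2 * Kc < 3 * (10 + 1 - w) ^ 2 + 3 * (10 + 1 - w))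
    (hT : cT < 7 * ((10 + 1 - w : ℕ) : ℤ) + 10)
    (hl0 : lb ≤ 0) (hlE : ∀ x ∈ LE, lb ≤ x) (hlO : ∀ x ∈ LO, lb ≤ x)
    (hJ : ∃ z : P, Hul.Jn z) :
    ∃ v, MnF w N Zf FT hF (tcS 10 w N (fun t => hi t w - lo t w + 1) θ) v ∧
      WinB P 10 w cT (fun V => LO.elem V) (fun V => nz ((10 + 1 - w : ℕ) : ℤ) V || LE.elem V)
      lb ((v : ℤ) - ((10 + 1 - w : ℕ) : ℤ) ^ 2) := by
  have H := K.gt.H
  have hw2 : 2 ≤ w := by omega
  have L := W.lkF hw2 hK2 hu I C
  refine W.winBS hw2 F L (by norm_num) hK hT hl0 hlE hlO ?_ ?_ (Or.inl (K.onePenE hw)) hJ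
  · intro z x x' h hs hs' hl h2 k hk
    obtain ⟨a0, a1, a2⟩ := K.low10 h hs
    obtain ⟨b0, b1, b2⟩ := K.low10 h.symm hs'
    have hk' : k = 0 ∨ k = 1 ∨ (k = 2 ∧ w = 3) := by omega
    rcases hk' with rfl | rfl | ⟨rfl, rfl⟩
    · rw [h.sum H (by omega)]
      omega
    · rw [h.sum H (by omega)]
      omega
    · rw [h.sum H (by omega)]
      rw [h.sum H (by omega)] at h2
      have l1 := (h.lev_eq H).1
      have l2 := (h.lev_eq H).2
      have e1 := one_le_nab (l := 3) (z := x) (by omega)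
      have e2 := one_le_nab (l := 3) (z := x') (by omega)
      rcases a2 with a2 | a2
      · rcases b2 with b2 | b2
        · omega
        · have := (fold_nab10 b2).2.2.2.1
          omega
      · have := (fold_nab10 a2).2.2.2.1
        omega
  · intro v M z x x' h hs hs' hl
    obtain ⟨a0, a1, a2⟩ := K.low10 h hs
    obtain ⟨b0, b1, b2⟩ := K.low10 h.symm hs'
    rcases hw with rfl | rfl
    · left
      intro k hk
      have hk' : k = 0 ∨ k = 1 := by omega
      rcases hk' with rfl | rfl <;> rw [h.sum H (by omega)] <;> omega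
    · have key : ∀ {y y' : P}, Cg z y y' → Fold 10 y →
          (v : ℤ) - (((10 + 1 - 3 : ℕ) : ℕ) : ℤ) ^ 2 ≤
            kapZ 10 z * (((10 : ℕ) : ℤ) - ((3 : ℕ) : ℤ)) + gZ 10 z := by
        intro y y' hy hf
        have l1 := (hy.lev_eq H).1
        have hly := hf.1
        have hlz : lev z = 11 := by omega
        have e1 := W.fold_th hw2 (K.nab_le_b (w := 3) (by omega) (by omega)) hf
        exact K.mnx hy hlz (W.mn_join F M hy hlz (by omega))
      rcases a2 with a2 | a2
      · rcases b2 with b2 | b2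
        · left
          intro k hk
          have hk' : k = 0 ∨ k = 1 ∨ k = 2 := by omega
          rcases hk' with rfl | rfl | rfl <;> rw [h.sum H (by omega)] <;> omega
        · right
          exact key h.symm b2
      · right
        exact key h a2

end Pool.Agent.GaussPoset.Sm
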