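import Mathlib
import Pool.Agent.W_448zz_h61.Ns
import Pool.Agent.W_448zz_h61.M189

/-! From `Pool.Agent.W_448jx_h67.WeU` -/

/-!
The ends of the joins of level `11`: the fold end and the end `(5, 25, 0)` from their data
(MP_448cb3_co, HJoin10)
-/

namespace Pool.Agent.GaussPoset.Sm

set_option linter.unusedSectionVars false

open Finset Wd

universe u

variable {P : Type u} [Fintype P] [PartialOrder P] [DecidableEq P] {r w K0 Kc y : ℕ}
  {lo hi : Tops P → ℕ → ℕ} {e : Tops P → ℕ → ℕ → P}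

set_option maxRecDepth 100000 in
lemma e6_chk : ∀ a ∈ range 11, 4 ≤ a → ∀ w ∈ wds 10 a, w.length = 10 - a →
    ∀ A ∈ (Icc (Wd.Lw w (w.length + 3)) (Wd.Hw w (w.length + 3))).powerset, A.Nonempty →
      condA 0 w A → (mA w A, dA w A, rhA w A) ≠ (5, 25, 0) := by
  decide +kernel

set_option maxRecDepth 100000 in
lemma fo_chk : ∀ a ∈ range 11, 3 ≤ a → ∀ w ∈ wds 10 a, w.length = 10 - a →
    ∀ A ∈ (Icc (Wd.Lw w (w.length + 3)) (Wd.Hw w (w.length + 3))).powerset, A.Nonempty →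
      condA 0 w A → (mA w A, dA w A, rhA w A) ≠ (10, 50, 1) := by
  decide +kernel

/-- the data of an end of a late component -/
lemma late_dt (G : Win.GoodTo P r 10) {t : Tops P} {lo hi : ℕ → ℕ} {e : ℕ → ℕ → P}
    (C : Cp.Comp 10 (t : P) lo hi e) {a : ℕ} (h : LateC 10 lo hi a) {x : P}
    (hx : x ∈ onlyB t) (hl : lev x = 10) (hend : (Win.uc x).card = 1) {s : ℕ × ℕ × ℕ}
    (d : Dt 10 x s) : ∃ w ∈ wds 10 a, w.length = 10 - a ∧
      ∃ A ∈ (Icc (Wd.Lw w (w.length + 3)) (Wd.Hw w (w.length + 3))).powerset, A.Nonempty ∧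
        condA 0 w A ∧ (mA w A, dA w A, rhA w A) = s := by
  obtain ⟨A, g1, g2, g3, g4, g5, -, g7⟩ := late_side G (by norm_num) C h.two h.le h.low h.at_a
    hx hl.ge (fun _ => hend) rfl
  refine ⟨_, h.word, by simp, A, g1, g2, g3 0 hl, ?_⟩
  obtain ⟨d1, d2, d3⟩ := d
  rw [g4] at d1
  rw [g5] at d2
  rw [g7] at d3
  exact Prod.ext (by exact_mod_cast d1) (Prod.ext (by exact_mod_cast d2) (by simp only; omega))

/-- the end `(5, 25, 0)` -/
theorem Ctx.e6_of (K : Ctx P r 10 lo hi e) {z x x' : P} (h : Cg z x x') (hl : lev z = 11)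
    (d : Dt 10 x (5, 25, 0)) : E6P x := by
  have hx : lev x = 10 := by
    have := (h.lev_eq K.gt.H).1
    omega
  have hend := (K.ends h hl).1
  have hf : ¬ Fatt 10 x := fun hf => by have := hf.1; omega
  rcases K.cases h.only (by omega) (fun _ => hend) hf with g | g | ⟨a, g, g3⟩
  · have := (K.sd h hl d).fold g
    norm_num at this
  · have := d.1
    rw [g.mX.1] at this
    norm_num at this
  · have h3 := g3 (by norm_num)
    rcases Nat.lt_or_ge 3 a with h4 | h4
    · exfalso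
      obtain ⟨w, hw, hwl, A, hA1, hA2, hA3, hA4⟩ := late_dt K.gt (K.comp _) g h.only hx hend d
      exact e6_chk a (mem_range.mpr (by have := g.le; omega)) h4 w hw hwl A hA1 hA2 hA3 hA4
    · have h5 : a = 3 := by omega
      subst h5
      exact ⟨hx, fun k hk => (e6T_of K.gt (K.comp _) g).pat x (le_topOf x) hx k hk⟩

/-- the fold end -/
theorem Ctx.fold_of (K : Ctx P r 10 lo hi e) {z x x' : P} (h : Cg z x x') (hl : lev z = 11)
    (d : Dt 10 x (10, 50, 1)) : Fold 10 x := by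
  have hx : lev x = 10 := by
    have := (h.lev_eq K.gt.H).1
    omega
  have hend := (K.ends h hl).1
  have hf : ¬ Fatt 10 x := fun hf => by have := hf.1; omega
  rcases K.cases h.only (by omega) (fun _ => hend) hf with g | g | ⟨a, g, g3⟩
  · exact g
  · have := d.1
    rw [g.mX.1] at this
    norm_num at this
  · exfalso
    have h3 := g3 (by norm_num)
    obtain ⟨w, hw, hwl, A, hA1, hA2, hA3, hA4⟩ := late_dt K.gt (K.comp _) g h.only hx hend d
    exact fo_chk a (mem_range.mpr (by have := g.le; omega)) h3 w hw hwl A hA1 hA2 hA3 hA4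

/-- the cheapest class is below the joins at the end `(5, 25, 0)` -/
theorem Ctx.mn_e6 (K : Ctx P r 10 lo hi e) {N : Tops P → Finset P} {θ : Tops P → P → ℕ}
    (W : We r 10 3 K0 N (fun t => hi t 3 - lo t 3 + 1) θ) {Zf : Finset P} {FT : P → Prop}
    {hF : P → ℕ} (F : FS P 10 3 Kc N (fun t => hi t 3 - lo t 3 + 1) θ Zf FT hF) {v : ℕ}
    (M : MnF 3 N Zf FT hF (tcS 10 3 N (fun t => hi t 3 - lo t 3 + 1) θ) v) {z x x' : P}
    (h : Cg z x x') (hl : lev z = 11) (hE : E6P x) {s : ℕ × ℕ × ℕ} (d : Sd x' s) :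
    v + s.2.1 ≤ 64 + 7 * s.1 + nab 2 x' := by
  have hlx := hE.1
  have hT := W.e6_T (K.nab_le_b (w := 3) (by omega) (by omega)) hE
  have hth : θ (topOf x) x = 4 := by
    rw [hT.hθ]
    simp only
    omega
  have h1 := W.mn_join F M h hl (k := 5) (by omega)
  obtain ⟨c1, -, -⟩ := e6_join hl (h.sums K.gt.H hl) hE d
  omega

/-- the cheapest class is below the joins at the fold end, window `3` -/
theorem Ctx.mn_fold3 (K : Ctx P r 10 lo hi e) {N : Tops P → Finset P} {θ : Tops P → P → ℕ}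
    (W : We r 10 3 K0 N (fun t => hi t 3 - lo t 3 + 1) θ) {Zf : Finset P} {FT : P → Prop}
    {hF : P → ℕ} (F : FS P 10 3 Kc N (fun t => hi t 3 - lo t 3 + 1) θ Zf FT hF) {v : ℕ}
    (M : MnF 3 N Zf FT hF (tcS 10 3 N (fun t => hi t 3 - lo t 3 + 1) θ) v) {z x x' : P}
    (h : Cg z x x') (hl : lev z = 11) (hE : Fold 10 x) {s : ℕ × ℕ × ℕ} (d : Sd x' s) :
    v + s.2.1 ≤ 80 + 7 * s.1 + nab 2 x' := by
  have hlx := hE.1
  have hT := W.fold_th (by norm_num) (K.nab_le_b (w := 3) (by omega) (by omega)) hE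
  have h1 := W.mn_join F M h hl (k := 6) (by omega)
  obtain ⟨c1, -, -⟩ := fo_join3 hl (h.sums K.gt.H hl) hE d
  omega

/-- the cheapest class is below the joins at the fold end, window `2` -/
theorem Ctx.mn_fold2 (K : Ctx P r 10 lo hi e) {N : Tops P → Finset P} {θ : Tops P → P → ℕ}
    (W : We r 10 2 K0 N (fun t => hi t 2 - lo t 2 + 1) θ) {Zf : Finset P} {FT : P → Prop}
    {hF : P → ℕ} (F : FS P 10 2 Kc N (fun t => hi t 2 - lo t 2 + 1) θ Zf FT hF) {v : ℕ}
    (M : MnF 2 N Zf FT hF (tcS 10 2 N (fun t => hi t 2 - lo t 2 + 1) θ) v) {z x x' : P}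
    (h : Cg z x x') (hl : lev z = 11) (hE : Fold 10 x) {s : ℕ × ℕ × ℕ} (d : Sd x' s) :
    v + s.2.1 ≤ 107 + 8 * s.1 := by
  have hlx := hE.1
  have hT := W.fold_th (by norm_num) (K.nab_le_b (w := 2) (by omega) (by omega)) hE
  have h1 := W.mn_join F M h hl (k := 7) (by omega)
  obtain ⟨c1, -, -⟩ := fo_join2 hl (h.sums K.gt.H hl) hE d
  omega

end Pool.Agent.GaussPoset.Sm
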