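import Mathlib
import Pool.Agent.W_448zz_h61.Ns
import Pool.Agent.W_448zz_h61.M121
import Pool.Agent.W_448zz_h61.M124
import Pool.Agent.W_448zz_h61.M136
import Pool.Agent.W_448zz_h61.M190
import Pool.Agent.W_448zz_h61.M198
import Pool.Agent.W_448zz_h61.M199
import Pool.Agent.W_448zz_h61.M200

/-! From `Pool.Agent.W_448jx_h67.WeV` -/

section

/-!
The windows `3`, cap `5`, and `2`, cap `20`: the pairs of ends which are left
(MP_448cb3_co, HJoin10)
-/

namespace Pool.Agent.GaussPoset.Sm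

set_option linter.unusedSectionVars false

open Finset Wd

universe u

variable {P : Type u} [Fintype P] [PartialOrder P] [DecidableEq P] {r : ℕ}
  {lo hi : Tops P → ℕ → ℕ} {e : Tops P → ℕ → ℕ → P}

lemma numA : NumC False False False 10 3 69 [-24, 4, 5] [-10] := by
  constructor <;> decide +kernel

lemma numB : NumC False False False 10 2 101 [] [-9] := by
  constructor <;> decide +kernel

/-- the trivial balance at the window `2` -/
lemma Ctx.triv2 (K : Ctx P r 10 lo hi e) : WinB P 10 2 (-1000) nf nf (-999) (-999) := by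
  have H := K.gt.H
  refine ⟨fun h => by norm_num at h, ?_, fun h => by norm_num at h, fun h => by norm_num at h⟩
  intro z x x' h hs hs'
  obtain ⟨a0, a1, -⟩ := K.low10 h hs
  obtain ⟨b0, b1, -⟩ := K.low10 h.symm hs'
  have hl := K.lev_ge h
  have h1 := ful_line (j := 10) (w := 2) (z := z) (by omega) (by omega) (fun k hk => by
    have hk' : k = 0 ∨ k = 1 := by omega
    rcases hk' with rfl | rfl <;> rw [h.sum H (by omega)] <;> omega)
  have h2 : (0 : ℤ) ≤ ful 2 z := Int.natCast_nonneg _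
  rw [h1] at h2
  norm_num at h2 ⊢
  linarith

/-- the balances at the windows `0`, `1` -/
lemma Ctx.win01 (K : Ctx P r 10 lo hi e) (hJ : ∃ z : P, Hul.Jn z) :
    ∃ V0 V1, WinB P 10 0 57 nf nf 0 V0 ∧ WinB P 10 1 44 nf (nz 10) 0 V1 := by
  obtain ⟨V0, h0⟩ := K.win0 hJ
  obtain ⟨V1, h1⟩ := K.win1 (by norm_num) chkE10 (by decide +kernel) (by decide +kernel) hJ
  refine ⟨V0, V1, ?_, ?_⟩
  · have e : cap0 10 = 57 := by decide +kernel
    rw [e] at h0
    exact h0
  · have e : ((10 * (10 - 1) / 2 : ℕ) : ℤ) - 1 = 44 := by decide +kernel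
    rw [e] at h1
    exact h1

/-- **the pairs of ends which are left after the window `3`, cap `5`** -/
theorem Ctx.hRA (K : Ctx P r 10 lo hi e) : HR P RA := by
  have hR : HR P R10 := fun z x x' h hl => left10 K h hl
  intro z x x' h hl
  have hJ : ∃ z : P, Hul.Jn z := ⟨z, h.jn⟩
  obtain ⟨V0, V1, B0, B1⟩ := K.win01 hJ
  obtain ⟨N, θ, W, hu⟩ := K.exists_we (w := 3) (K0 := 86) (Or.inr rfl) (by norm_num)
    (by decide +kernel) (by decide +kernel)
  have F := W.fs0 (Kc := 69) (by norm_num) (fun _ => Or.inl (by norm_num))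
  obtain ⟨v, M, B3⟩ := K.winE (Or.inr rfl) W hu F (inE_A K hR)
    (W.cellsC (by norm_num) (by norm_num) (by norm_num) numA (fun h => h.elim) (fun h => h.elim)
      (fun h => h.elim) (fun h => h.elim))
    (cT := 5) (lb := -64) (by norm_num) (by norm_num) (by norm_num) (by norm_num)
    (by decide) (by decide) hJ
  have hb := (K.boundsV (V := pk V0 V1 (-999) ((v : ℤ) - 64)) hR.noP tabA (nO := nOA) (nE := nEA)
    (lb := lbA) (fun w hw => by
      have hw' : w = 0 ∨ w = 1 ∨ w = 2 ∨ w = 3 := by omega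
      rcases hw' with rfl | rfl | rfl | rfl
      · exact B0
      · exact B1
      · exact K.triv2
      · exact B3) 200 2).2 3 le_rfl
  change (ubd 10 3 cpA lbA LA nOA nEA 200 2).getD 3 0 ≤ (v : ℤ) - 64 at hb
  rw [uA] at hb
  norm_num at hb
  have hv : 70 ≤ v := by omega
  obtain ⟨s, s', h1, d, d'⟩ := hR z x x' h hl
  refine ⟨s, s', ?_, d, d'⟩
  unfold RA
  rw [List.mem_filter]
  refine ⟨h1, ?_⟩
  have key : ∀ {y y' : P}, Cg z y y' → Dt 10 y (5, 25, 0) → ∀ s, Dt 10 y' s →
      s = (1, 3, 0) ∨ s = (1, 4, 0) → False := by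
    intro y y' hy hd s hs h3
    have sd := K.sd hy.symm hl hs
    have h4 := K.mn_e6 W F M hy hl (K.e6_of hy hl hd) sd
    have h5 := sd.nf (by rcases h3 with rfl | rfl <;> norm_num)
    rcases h3 with rfl | rfl <;> simp only at h4 <;> omega
  by_contra hcon
  rw [Bool.not_eq_true', Bool.not_eq_false] at hcon
  simp only [Bool.or_eq_true, beq_iff_eq, Prod.mk.injEq] at hcon
  rcases hcon with ((⟨h2, h3⟩ | ⟨h2, h3⟩) | ⟨h2, h3⟩) | ⟨h2, h3⟩
  · exact key h.symm (h3 ▸ d') s d (Or.inl h2)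
  · exact key h (h2 ▸ d) s' d' (Or.inl h3)
  · exact key h.symm (h3 ▸ d') s d (Or.inr h2)
  · exact key h (h2 ▸ d) s' d' (Or.inr h3)

end Pool.Agent.GaussPoset.Sm

end

/-! From `Pool.Agent.W_448jx_h67.WgB` -/

section

/-!
The windows `2`, caps `32` and `35` (MP_448cb3_co, HJoin10)
-/

namespace Pool.Agent.GaussPoset.Sm

set_option linter.unusedSectionVars false

open Finset Wd

universe u

variable {P : Type u} [Fintype P] [PartialOrder P] [DecidableEq P] {r w : ℕ}
  {lo hi : Tops P → ℕ → ℕ} {e : Tops P → ℕ → ℕ → P}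

/-- the twins of the cell `(5, 6)` and the pendants below them are treated as natural -/
def FoldP (P : Type u) [Fintype P] [PartialOrder P] [DecidableEq P] (r w Kc : ℕ)
    (b : Tops P → ℕ) : Prop :=
  ∀ (K0 : ℕ) (N : Tops P → Finset P) (θ : Tops P → P → ℕ), We r 10 w K0 N b θ → Unq P w b →
    ∃ (Zf : Finset P) (FT : P → Prop) (hF : P → ℕ), FS P 10 w Kc N b θ Zf FT hF ∧
      (∀ x' ∈ twA N, FoX 10 w N (twT N x') → FT x') ∧
      (∀ z ∈ rA N, ∀ x' ∈ twA N, FT x' → z ⋖ x' → (∀ y, z ⋖ y → y = x') → z ∈ Zf) ∧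
      (∀ x' ∈ twA N, FT x' → FoX 10 w N (twT N x'))

lemma FS.mono {K K' : ℕ} {N : Tops P → Finset P} {b : Tops P → ℕ} {θ : Tops P → P → ℕ}
    {Zf : Finset P} {FT : P → Prop} {hF : P → ℕ} (F : FS P 10 w K N b θ Zf FT hF)
    (h : K' ≤ K) : FS P 10 w K' N b θ Zf FT hF where
  sub := F.sub
  up := F.up
  ft := F.ft
  eq := F.eq
  pos := F.pos
  big := fun z hz hy => by
    have := F.big z hz hy
    omega
  far := fun v M hv => F.far v M (by omega)

lemma f_RC : ∀ p ∈ RC, p.1 = (10, 50, 1) → p.2 = (1, 2, 1) ∨ p.2 = (1, 3, 0) ∨ p.2 = (1, 4, 0) ∨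
    p.2 = (3, 9, 1) ∨ p.2 = (5, 20, 1) ∨ p.2 = (5, 25, 0) ∨ p.2 = (10, 50, 1) := by
  decide +kernel

/-- **the window `2`, cap `32`** -/
theorem inE_C (K : Ctx P r 10 lo hi e) (hR : HR P RC) :
    InE P 2 113 (XL (10 + 1 - 2) [24]) (XL (10 + 1 - 2) [-9, 30, 31, 32]) where
  hcc := Or.inr (by
    refine OkN.okv (y := 10 + 1 - 2) (LE := [24]) (LO := [-9, 30, 31, 32]) ?_
    decide +kernel)
  hfj := by
    rintro z x x' ⟨h, hl, hf⟩
    obtain ⟨s, h1, d⟩ := hR.fold K h hl hf
    obtain ⟨c1, c2, c3⟩ := fo_join2 hl (h.sums K.gt.H hl) hf d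
    have h2 := f_RC _ h1 rfl
    simp only at h2
    show OkL 2 113 _ _ 7 z
    rcases h2 with rfl | rfl | rfl | rfl | rfl | rfl | rfl
    · simp only at c1 c2
      refine okLe_of (c := 113) (n := 25) (by omega) (by omega)
        (Or.inr (c3 (d.nf (by norm_num)))) ?_
      decide +kernel
    · simp only at c1 c2
      refine okLe_of (c := 112) (n := 25) (by omega) (by omega)
        (Or.inr (c3 (d.nf (by norm_num)))) ?_
      decide +kernel
    · simp only at c1 c2
      refine okLe_of (c := 111) (n := 25) (by omega) (by omega)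
        (Or.inr (c3 (d.nf (by norm_num)))) ?_
      decide +kernel
    · left
      simp only at c1
      omega
    · left
      simp only at c1
      omega
    · left
      simp only at c1
      omega
    · left
      simp only at c1
      omega
  hfp := Or.inr (by
    refine OkN.okv (y := 10 + 1 - 2) (LE := [24]) (LO := [-9, 30, 31, 32]) ?_
    decide +kernel)
  hej := fun h => by norm_num at h
  hep := fun h => by norm_num at h

lemma f_RD : ∀ p ∈ RD, p.1 = (10, 50, 1) → p.2 = (3, 9, 1) ∨ p.2 = (5, 20, 1) ∨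
    p.2 = (5, 25, 0) ∨ p.2 = (10, 50, 1) := by
  decide +kernel

/-- **the window `2`, cap `35`** -/
theorem inE_D (K : Ctx P r 10 lo hi e) (hR : HR P RD) :
    InE P 2 116 (XL (10 + 1 - 2) [24, 34, 35]) (XL (10 + 1 - 2) [-9]) where
  hcc := Or.inr (by
    refine OkN.okv (y := 10 + 1 - 2) (LE := [24, 34, 35]) (LO := [-9]) ?_
    decide +kernel)
  hfj := by
    rintro z x x' ⟨h, hl, hf⟩
    obtain ⟨s, h1, d⟩ := hR.fold K h hl hf
    obtain ⟨c1, c2, c3⟩ := fo_join2 hl (h.sums K.gt.H hl) hf d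
    have h2 := f_RD _ h1 rfl
    simp only at h2
    show OkL 2 116 _ _ 7 z
    left
    rcases h2 with rfl | rfl | rfl | rfl <;> simp only at c1 <;> omega
  hfp := Or.inr (by
    refine OkN.okv (y := 10 + 1 - 2) (LE := [24, 34, 35]) (LO := [-9]) ?_
    decide +kernel)
  hej := fun h => by norm_num at h
  hep := fun h => by norm_num at h

lemma RC_cases : ∀ p ∈ RC, p ∈ RD ∨
    (p.1 = (10, 50, 1) ∧ (p.2 = (1, 2, 1) ∨ p.2 = (1, 3, 0) ∨ p.2 = (1, 4, 0))) ∨
    (p.2 = (10, 50, 1) ∧ (p.1 = (1, 2, 1) ∨ p.1 = (1, 3, 0) ∨ p.1 = (1, 4, 0))) := by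
  decide +kernel

/-- **the pairs of ends which are left after the window `2`, cap `32`** -/
theorem Ctx.hRD (K : Ctx P r 10 lo hi e) (hR : HR P RC)
    (hFP : FoldP P r 2 116 (fun t => hi t 2 - lo t 2 + 1)) : HR P RD := by
  intro z x x' h hl
  have hJ : ∃ z : P, Hul.Jn z := ⟨z, h.jn⟩
  obtain ⟨V0, V1, B0, B1⟩ := K.win01 hJ
  obtain ⟨N, θ, W, hu⟩ := K.exists_we (w := 2) (K0 := 110) (Or.inl rfl) (by norm_num)
    (by decide +kernel) (by decide +kernel)
  obtain ⟨Zf, FT, hF, F0, f1, f2, f3⟩ := hFP 110 N θ W hu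
  have F := F0.mono (K' := 113) (by norm_num)
  obtain ⟨v, M, B2⟩ := K.winE (Or.inl rfl) W hu F (inE_C K hR)
    (W.cellsC (by norm_num) (by norm_num) (by norm_num) numC (fun h => h.elim) (fun h => h.elim)
      (fun _ => f1) (fun _ => f2))
    (cT := 32) (lb := -81) (by norm_num) (by norm_num) (by norm_num) (by norm_num)
    (by decide) (by decide) hJ
  have hb := (K.boundsV (V := pk V0 V1 ((v : ℤ) - 81) 0) hR.noP tabC (nO := nOC) (nE := nEC)
    (lb := lbC) (fun w hw => by
      have hw' : w = 0 ∨ w = 1 ∨ w = 2 := by omega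
      rcases hw' with rfl | rfl | rfl
      · exact B0
      · exact B1
      · exact B2) 200 3).2 2 le_rfl
  change (ubd 10 2 cpC lbC LC nOC nEC 200 3).getD 2 0 ≤ (v : ℤ) - 81 at hb
  rw [uC] at hb
  norm_num at hb
  have hv : 114 ≤ v := by omega
  obtain ⟨s, s', h1, d, d'⟩ := hR z x x' h hl
  have key : ∀ {y y' : P}, Cg z y y' → Dt 10 y (10, 50, 1) → ∀ s, Dt 10 y' s →
      s = (1, 2, 1) ∨ s = (1, 3, 0) ∨ s = (1, 4, 0) → False := by
    intro y y' hy hd s hs h3
    have sd := K.sd hy.symm hl hs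
    have h4 := K.mn_fold2 W F M hy hl (K.fold_of hy hl hd) sd
    rcases h3 with rfl | rfl | rfl <;> simp only at h4 <;> omega
  rcases RC_cases _ h1 with h2 | ⟨h2, h3⟩ | ⟨h2, h3⟩
  · exact ⟨s, s', h2, d, d'⟩
  · exact (key h (h2 ▸ d) s' d' h3).elim
  · exact (key h.symm (h2 ▸ d') s d h3).elim

end Pool.Agent.GaussPoset.Sm

end

/-! From `Pool.Agent.W_448jx_h67.WgC` -/

section

/-!
The window `2`: twins of the cells `(2, 9)` and pendants below the cells `(2, 9)` of rectangles
(MP_448cb3_co, HJoin10)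
-/

namespace Pool.Agent.GaussPoset.Sm

set_option linter.unusedSectionVars false

open Finset Wd

universe u

variable {P : Type u} [Fintype P] [PartialOrder P] [DecidableEq P] {r w K0 Kc : ℕ}
  {N : Tops P → Finset P} {b : Tops P → ℕ} {θ : Tops P → P → ℕ}

lemma We.typ2 (W : We r 10 2 K0 N b θ) (t : Tops P) : TypeX 10 2 t (b t) (N t) (θ t) :=
  (W.typ t).resolve_right fun h => by
    have := h.w3
    omega

/-- natural elements at the window `2` which are not straight -/
lemma We.kind2 (W : We r 10 2 K0 N b θ) (L : Unq P 2 b) {y : P} (hy : y ∉ unnat N)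
    (hl : 10 ≤ lev y) (h2 : nab 2 y ≠ 1) :
    (∃ Nc co, RectNat 10 2 (topOf y) (b (topOf y)) Nc co ∧ y ∈ Nc ∧ 1 ≤ (co y).1 ∧
      1 ≤ (co y).2 ∧ θ (topOf y) y + min (min (co y).1 (co y).2) 2 = lev y - 2) ∨
    (∃ Nc co, StairNat 10 2 (topOf y) Nc co ∧ y ∈ Nc ∧ 1 ≤ (co y).1 ∧
      θ (topOf y) y + min (co y).1 2 = lev y - 2) := by
  have HN := W.natSys
  have hyt : y ∈ N (topOf y) := HN.mem_iff.mpr ⟨hy, rfl⟩
  have hth : θ (topOf y) y + 1 ≤ lev y - 2 := by
    rcases W.cases hy hl with h | h | h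
    · exact absurd (W.str_nab L hy h hl) h2
    · exact h.th.le
    · exact h.th
  generalize topOf y = t at hyt hth
  rcases W.typ2 t with ⟨g1, g2, g3, g5⟩ | ⟨Nc, co, h0, g1, g2, g4⟩ |
    ⟨Nc, co, h0, g1, g2, g3, g4, g5'⟩
  · exfalso
    rw [g2] at hth
    simp only at hth
    omega
  · left
    rw [g1] at hyt
    rw [g2] at hth
    have hJ : ¬ (y ∈ junk (fun _ => True) Nc co ∨ y ∈ junk (fun _ => True) Nc (swp co)) := by
      intro hJ
      unfold thR at hth
      rw [if_pos hJ] at hth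
      omega
    have hyN : y ∈ Nc := by
      rw [mem_natR] at hyt
      rcases hyt with h | h | h
      · exact h
      · exact absurd (Or.inl h) hJ
      · exact absurd (Or.inr h) hJ
    have h3 := rect_th7 h0 (by norm_num) hyN hJ (by omega)
    exact ⟨Nc, co, h0, hyN, by omega, by omega, by rw [g2]; exact h3⟩
  · right
    rw [g1] at hyt
    rw [g2] at hth
    have hJ : y ∉ junk (fun c => c.1 ≤ c.2) Nc co := by
      intro hJ
      unfold thS at hth
      rw [if_pos hJ] at hth
      omega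
    have hyN : y ∈ Nc := by
      rw [mem_natS] at hyt
      rcases hyt with h | h
      · exact h
      · exact absurd h hJ
    have h3 := stair_th7 h0 (by norm_num) g4 hyN hJ (by omega)
    exact ⟨Nc, co, h0, hyN, by omega, by rw [g2]; exact h3⟩

/-- natural elements which are not straight have different ancestors -/
lemma We.inj2 (W : We r 10 2 K0 N b θ) (L : Unq P 2 b) {x x' : P} (hx : x ∉ unnat N)
    (hx' : x' ∉ unnat N) (hup : ∀ u, x < u ↔ x' < u) (hl : 10 ≤ lev x) (h2 : nab 2 x ≠ 1) :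
    x = x' := by
  have HN := W.natSys
  have e0 : lev x = lev x' := lev_eq_of_up hup
  have hxt : x ∈ N (topOf x) := HN.mem_iff.mpr ⟨hx, rfl⟩
  have hxt' : x' ∈ N (topOf x') := HN.mem_iff.mpr ⟨hx', rfl⟩
  have hne : x ≠ (topOf x : P) := by
    intro h
    have h3 : lev (topOf x : P) = 0 := (topOf x).2
    rw [← h] at h3
    omega
  have htop : topOf x = topOf x' := by
    have h3 : x < (topOf x : P) := lt_of_le_of_ne (le_topOf x) hne
    have h4 : x' ≤ (topOf x : P) := ((hup _).mp h3).le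
    exact Subtype.ext (HN.top_eq hxt' (topOf x).2 h4)
  have h2' : nab 2 x' ≠ 1 := by
    rw [← nab_congr_up (x := x') (y := x) (fun v => hup v) (by omega)]
    exact h2
  have hth : ∀ y : P, y ∉ unnat N → 10 ≤ lev y → nab 2 y ≠ 1 →
      θ (topOf y) y + 1 ≤ lev y - 2 := by
    intro y hy hly hny
    rcases W.cases hy hly with h | h | h
    · exact absurd (W.str_nab L hy h hly) hny
    · exact h.th.le
    · exact h.th
  have t1 := hth x hx hl h2
  have t2 := hth x' hx' (by omega) h2'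
  rw [← htop] at t2 hxt'
  generalize topOf x = t at hxt hxt' t1 t2
  rcases W.typ2 t with ⟨g1, g2, g3, g5⟩ | ⟨Nc, co, h0, g1, g2, g4⟩ |
    ⟨Nc, co, h0, g1, g2, g3, g4, g5'⟩
  · exfalso
    rw [g2] at t1
    simp only at t1
    omega
  · have key : ∀ y : P, y ∈ N t → 7 ≤ lev y → θ t y + 1 ≤ lev y - 2 →
        y ∈ Nc ∧ 1 ≤ (co y).1 := by
      intro y hy hly hty
      rw [g1] at hy
      rw [g2] at hty
      by_cases hJ : y ∈ junk (fun _ => True) Nc co ∨ y ∈ junk (fun _ => True) Nc (swp co)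
      · exfalso
        unfold thR at hty
        rw [if_pos hJ] at hty
        omega
      · have hyN : y ∈ Nc := by
          rw [mem_natR] at hy
          rcases hy with h | h | h
          · exact h
          · exact absurd (Or.inl h) hJ
          · exact absurd (Or.inr h) hJ
        have := rect_th7 h0 (by norm_num) hyN hJ (by omega)
        exact ⟨hyN, by omega⟩
    obtain ⟨a1, a2⟩ := key x hxt (by omega) t1
    obtain ⟨b1, b2⟩ := key x' hxt' (by omega) t2
    exact chart_up_eq (fun _ _ _ => trivial) h0.chart a1 b1 hup a2 b2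
  · have key : ∀ y : P, y ∈ N t → 7 ≤ lev y → θ t y + 1 ≤ lev y - 2 →
        y ∈ Nc ∧ 1 ≤ (co y).1 := by
      intro y hy hly hty
      rw [g1] at hy
      rw [g2] at hty
      by_cases hJ : y ∈ junk (fun c => c.1 ≤ c.2) Nc co
      · exfalso
        unfold thS at hty
        rw [if_pos hJ] at hty
        omega
      · have hyN : y ∈ Nc := by
          rw [mem_natS] at hy
          rcases hy with h | h
          · exact h
          · exact absurd h hJ
        have := stair_th7 h0 (by norm_num) g4 hyN hJ (by omega)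
        exact ⟨hyN, by omega⟩
    obtain ⟨a1, a2⟩ := key x hxt (by omega) t1
    obtain ⟨b1, b2⟩ := key x' hxt' (by omega) t2
    exact chart_up_eq (fun a c h => by simp only at h ⊢; omega) h0.chart a1 b1 hup a2 b2

/-- the cost with the label `8` at the window `2`, level `11` -/
lemma cst2b_11 {z : P} (hl : lev z = 11) : cst 2 (fun _ => 8) z = nab 3 z + 2 * nab 4 z +
    3 * nab 5 z + 4 * nab 6 z + 5 * nab 7 z + 6 * nab 8 z + 7 * nab 9 z + 8 * nab 10 z + 8 := by
  have h1 : nab 11 z = 1 := by rw [← hl]; exact nab_self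
  rw [cst_eq, hl]
  simp only [Finset.sum_range_succ, Finset.sum_range_zero, h1]
  norm_num

/-- the cost with the label `9` at the window `2`, level `11` -/
lemma cst2c_11 {z : P} (hl : lev z = 11) : cst 2 (fun _ => 9) z = nab 3 z + 2 * nab 4 z +
    3 * nab 5 z + 4 * nab 6 z + 5 * nab 7 z + 6 * nab 8 z + 7 * nab 9 z + 8 * nab 10 z + 9 := by
  have h1 : nab 11 z = 1 := by rw [← hl]; exact nab_self
  rw [cst_eq, hl]
  simp only [Finset.sum_range_succ, Finset.sum_range_zero, h1]
  norm_num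

/-- the twins of the cells `(2, 9)` -/
lemma We.tw29 (W : We r 10 2 K0 N b θ) (L : Unq P 2 b) {y : P} (hy : y ∈ twA N)
    (hl : lev y = 11) (h2 : nab 2 y ≠ 1) (hp : ∀ k, 4 ≤ k → k ≤ 9 → nab k y = 3)
    (h10 : nab 10 y = 2) : tcS 10 2 N b θ y ≤ 116 ∧ ¬ FoX 10 2 N (twT N y) := by
  have T := W.twn hy
  have hup := W.twSys.up y hy
  have hnat := W.twSys.nat y hy
  have el : lev (twT N y) = 11 := (lev_eq_of_up hup).trans hl
  have en : ∀ k, k < 11 → nab k (twT N y) = nab k y := fun k hk =>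
    nab_congr_up hup (by rw [hl]; exact hk)
  have e2 := en 2 (by norm_num)
  have e3 := en 3 (by norm_num)
  have e4 := (en 4 (by norm_num)).trans (hp 4 le_rfl (by norm_num))
  have e5 := (en 5 (by norm_num)).trans (hp 5 (by norm_num) (by norm_num))
  have e6 := (en 6 (by norm_num)).trans (hp 6 (by norm_num) (by norm_num))
  have e7 := (en 7 (by norm_num)).trans (hp 7 (by norm_num) (by norm_num))
  have e8 := (en 8 (by norm_num)).trans (hp 8 (by norm_num) (by norm_num))
  have e9 := (en 9 (by norm_num)).trans (hp 9 (by norm_num) le_rfl)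
  have e10 := (en 10 (by norm_num)).trans h10
  refine ⟨?_, ?_⟩
  · by_cases hs : Spc 10 2 N b θ (twT N y)
    · have T' := W.twnS hy hs
      obtain ⟨Nc, co, C⟩ := hs
      unfold tcS
      rw [if_pos ⟨Nc, co, C⟩, tcst_cst T']
      simp only
      have h3 := stair_nab C.nat.chart C.mem (k := 3) (by omega)
      rw [C.co_eq] at h3
      simp only at h3
      rw [show (10 - 2 + 1) = 9 by norm_num, cst2c_11 el]
      omega
    · unfold tcS
      rw [if_neg hs, tcst_cst T]
      simp only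
      rw [W.thA_nat hnat]
      have h3 := W.kind2 L hnat (by omega) (by rw [e2]; exact h2)
      rcases h3 with ⟨Nc, co, h0, hN, a1, a2, a3⟩ | ⟨Nc, co, h0, hN, a1, a3⟩
      · have n5 := rect_nab h0.chart hN (k := 5) (by omega)
        have n3 := rect_nab h0.chart hN (k := 3) (by omega)
        have hlN := h0.chart.lev _ hN
        have h4 : θ (topOf (twT N y)) (twT N y) = 7 := by omega
        rw [h4, show (7 + 1) = 8 by norm_num, cst2b_11 el]
        omega
      · have n3 := stair_nab h0.chart hN (k := 3) (by omega)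
        have n5 := stair_nab h0.chart hN (k := 5) (by omega)
        have hlN := h0.chart.lev _ hN
        have hm : (co (twT N y)).1 ≤ (co (twT N y)).2 := h0.chart.mem _ hN
        have h4 : θ (topOf (twT N y)) (twT N y) = 7 := by omega
        rw [h4, show (7 + 1) = 8 by norm_num, cst2b_11 el]
        omega
  · rintro ⟨Nc, co, h0, h1, h3, h4, h5⟩
    have n9 := stair_nab h0.chart h3 (k := 9) (by omega)
    omega

end Pool.Agent.GaussPoset.Sm

end

/-! From `Pool.Agent.W_448jx_h67.WgD` -/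

section

/-!
The window `2`, cap `35`: no twins of the cells `(2, 9)`, no pendants below the cells `(2, 9)` of
rectangles (MP_448cb3_co, HJoin10)
-/

namespace Pool.Agent.GaussPoset.Sm

set_option linter.unusedSectionVars false

open Finset Wd

universe u

variable {P : Type u} [Fintype P] [PartialOrder P] [DecidableEq P] {r w K0 Kc : ℕ}
  {N : Tops P → Finset P} {b : Tops P → ℕ} {θ : Tops P → P → ℕ}
  {lo hi : Tops P → ℕ → ℕ} {e : Tops P → ℕ → ℕ → P}

/-- the cost is at most the one with the full label -/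
lemma cst_le_nine {h : P → ℕ} {z : P} (hl : lev z = 11) : cst 2 h z ≤ cst 2 (fun _ => 9) z := by
  unfold cst ez
  refine Finset.sum_le_sum fun y _ => ?_
  split_ifs with hy
  · have h1 : lev y ≤ 11 := by
      rcases eq_or_lt_of_le hy with h2 | h2
      · rw [← h2]; omega
      · have := lev_strictAnti h2
        omega
    simp only
    omega
  · exact le_rfl

/-- at most eight elements on the level `3` -/
lemma Ctx.nab3_le (K : Ctx P r 10 lo hi e) {y : P} (hl : lev y = 11) (h10 : nab 10 y = 2) :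
    nab 3 y ≤ 8 := by
  classical
  have H := K.gt.H
  have hc : (Win.uc y).card = 2 := by
    rw [uc_card_nab H (by omega), hl]
    exact h10
  obtain ⟨c1, c2, hne, he⟩ := Finset.card_eq_two.mp hc
  have hsub : (lv P 3).filter (y ≤ ·) ⊆
      (lv P 3).filter (c1 ≤ ·) ∪ (lv P 3).filter (c2 ≤ ·) := by
    intro u hu
    rw [mem_filter, mem_lv] at hu
    have hyu : y < u := lt_of_le_of_ne hu.2 (by rintro rfl; omega)
    obtain ⟨c, hc1, hc2⟩ := exists_covBy_le_of_lt hyu
    have h1 : c ∈ Win.uc y := Win.mem_uc.mpr hc1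
    rw [he, mem_insert, mem_singleton] at h1
    rw [mem_union, mem_filter, mem_filter, mem_lv]
    rcases h1 with rfl | rfl
    · exact Or.inl ⟨hu.1, hc2⟩
    · exact Or.inr ⟨hu.1, hc2⟩
  have h4 : ∀ c ∈ Win.uc y, nab 3 c ≤ 4 := by
    intro c hc
    have hcv := Win.mem_uc.mp hc
    have hlc := (H.covBy_iff.mp hcv).2
    have h5 := K.nab_le_b (x := c) (w := 3) (by omega) (by omega)
    have h6 := (K.comp (topOf c)).hi_le (k := 3) (by omega)
    omega
  have h5 := h4 c1 (by rw [he]; simp)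
  have h6 := h4 c2 (by rw [he]; simp)
  have h7 := (Finset.card_le_card hsub).trans (Finset.card_union_le _ _)
  have e1 : nab 3 y = ((lv P 3).filter (y ≤ ·)).card := rfl
  have e2 : nab 3 c1 = ((lv P 3).filter (c1 ≤ ·)).card := rfl
  have e3 : nab 3 c2 = ((lv P 3).filter (c2 ≤ ·)).card := rfl
  omega

/-- far elements of level `11` with three elements on the levels `4, …, 9` -/
lemma We.rA29 (W : We r 10 2 K0 N b θ) {Zf : Finset P} {FT : P → Prop} {hF : P → ℕ}
    (F : FS P 10 2 Kc N b θ Zf FT hF) {v : ℕ} (M : MnF 2 N Zf FT hF (tcS 10 2 N b θ) v)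
    {y : P} (hy : y ∈ rA N) (hl : lev y = 11) (hp : ∀ k, 4 ≤ k → k ≤ 9 → nab k y = 3)
    (h10 : nab 10 y = 2) (h3 : nab 3 y ≤ 8) : v ≤ 114 := by
  have H := W.gt.H
  have hc : (Win.uc y).card = 2 := by
    rw [uc_card_nab H (by omega), hl]
    exact h10
  obtain ⟨x, hx⟩ : (Win.uc y).Nonempty := Finset.card_pos.mp (by omega)
  have hyx := Win.mem_uc.mp hx
  have hlx := (H.covBy_iff.mp hyx).2
  have hbd : y ∈ bdR (rA N) :=
    mem_bdR.mpr ⟨hy, x, not_mem_rA.mpr (Or.inl (W.low (by omega))), hyx⟩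
  obtain ⟨g1, -⟩ := F.at11 W hbd hl
  have h4 := M.bd y g1
  have h5 := cst_le_nine (h := hF) hl
  have h6 := cst2c_11 hl
  have n4 := hp 4 le_rfl (by norm_num)
  have n5 := hp 5 (by norm_num) (by norm_num)
  have n6 := hp 6 (by norm_num) (by norm_num)
  have n7 := hp 7 (by norm_num) (by norm_num)
  have n8 := hp 8 (by norm_num) (by norm_num)
  have n9 := hp 9 (by norm_num) le_rfl
  omega

/-- **no twins of the cells `(2, 9)`** -/
theorem Ctx.noE2a (K : Ctx P r 10 lo hi e) (W : We r 10 2 K0 N b θ) (L : Unq P 2 b)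
    {Zf : Finset P} {FT : P → Prop} {hF : P → ℕ} (F : FS P 10 2 Kc N b θ Zf FT hF) {v : ℕ}
    (M : MnF 2 N Zf FT hF (tcS 10 2 N b θ) v)
    (f3 : ∀ x' ∈ twA N, FT x' → FoX 10 2 N (twT N x')) (hv : 117 ≤ v) : NoE2a P 10 := by
  have key : ∀ y : P, lev y = 11 → nab 2 y ≠ 1 → (∀ k, 4 ≤ k → k ≤ 9 → nab k y = 3) →
      nab 10 y = 2 → y ∈ unnat N → False := by
    intro y hl h2 hp h10 hy
    by_cases ht : y ∈ twA N
    · obtain ⟨h3, h4⟩ := W.tw29 L ht hl h2 hp h10
      have h5 := M.tw y ht (fun h => h4 (f3 y ht h))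
      omega
    · have := W.rA29 F M (mem_rA.mpr ⟨hy, ht⟩) hl hp h10 (K.nab3_le hl h10)
      omega
  intro x x' hne hl hup h2 hp h10
  have el : lev x = lev x' := lev_eq_of_up hup
  have en : ∀ k, k < 11 → nab k x' = nab k x := fun k hk =>
    (nab_congr_up (x := x') (y := x) (fun u => hup u) (by omega)).symm
  by_cases hx : x ∈ unnat N
  · exact key x hl h2 (fun k h4 h9 => hp k h4 (by omega)) h10 hx
  · by_cases hx' : x' ∈ unnat N
    · refine key x' (by omega) ?_ (fun k h4 h9 => ?_) ?_ hx'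
      · rw [en 2 (by norm_num)]; exact h2
      · rw [en k (by omega)]; exact hp k h4 (by omega)
      · rw [en 10 (by norm_num)]; exact h10
    · exact hne (W.inj2 L hx hx' hup (by omega) h2)

/-- **no pendants below the cells `(2, 9)` of rectangles** -/
theorem Ctx.noR2 (K : Ctx P r 10 lo hi e) (W : We r 10 2 K0 N b θ) (L : Unq P 2 b)
    {Zf : Finset P} {FT : P → Prop} {hF : P → ℕ} (F : FS P 10 2 Kc N b θ Zf FT hF) {v : ℕ}
    (M : MnF 2 N Zf FT hF (tcS 10 2 N b θ) v)
    (f3 : ∀ x' ∈ twA N, FT x' → FoX 10 2 N (twT N x')) (hv : 117 ≤ v) : NoR2 P 10 := by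
  intro z x hl hp h10 hzx honly
  have H := W.gt.H
  have hlz := (H.covBy_iff.mp hzx).2
  have n2 := hp 2 le_rfl (by norm_num)
  have n3 := hp 3 (by norm_num) (by norm_num)
  have n4 := hp 4 (by norm_num) (by norm_num)
  have n5 := hp 5 (by norm_num) (by norm_num)
  have n6 := hp 6 (by norm_num) (by norm_num)
  have n7 := hp 7 (by norm_num) (by norm_num)
  have n8 := hp 8 (by norm_num) (by norm_num)
  have n9 := hp 9 (by norm_num) (by norm_num)
  have hp' : ∀ k, 4 ≤ k → k ≤ 9 → nab k x = 3 := fun k h4 h9 => hp k (by omega) (by omega)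
  by_cases hx : x ∈ unnat N
  · by_cases ht : x ∈ twA N
    · obtain ⟨h3, h4⟩ := W.tw29 L ht hl (by omega) hp' h10
      have h5 := M.tw x ht (fun h => h4 (f3 x ht h))
      omega
    · have := W.rA29 F M (mem_rA.mpr ⟨hx, ht⟩) hl hp' h10 (by omega)
      omega
  -- `x` is natural
  have hxt : x ∉ twA N := fun h => hx (mem_twA.mp h).1
  have hxA : x ∉ rA N := not_mem_rA.mpr (Or.inl hx)
  have hth : θ (topOf x) x = 7 := by
    rcases W.kind2 L hx (by omega) (by omega) with ⟨Nc, co, h0, hN, a1, a2, a3⟩ |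
      ⟨Nc, co, h0, hN, a1, a3⟩
    · have m5 := rect_nab h0.chart hN (k := 5) (by omega)
      have hlN := h0.chart.lev _ hN
      omega
    · have m2 := stair_nab h0.chart hN (k := 2) (by omega)
      omega
  by_cases hz : z ∈ rA N
  · have hzf : z ∉ Zf := by
      intro h
      obtain ⟨y, hy, -, hzy, -⟩ := F.up z h
      rw [honly y hzy] at hy
      exact hxt hy
    have hzy : ∀ y ∈ Zf, ¬ z ⋖ y := by
      intro y hy h
      rw [honly y h] at hy
      exact hxA (F.sub hy)
    have hbd : z ∈ bdR (rA N) := mem_bdR.mpr ⟨hz, x, hxA, hzx⟩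
    have hbd' : z ∈ bdR (rA N \ Zf) := mem_bdR.mpr
      ⟨mem_sdiff.mpr ⟨hz, hzf⟩, x, fun h => hxA (mem_sdiff.mp h).1, hzx⟩
    have h1 := M.bd z hbd'
    have h2 := F.eq z hbd hzf hzy
    have hbs : GaussPoset.bs N x = x := by
      unfold GaussPoset.bs
      rw [if_neg hxt]
    have hp : ¬ PenS 10 2 N b θ z := by
      rintro ⟨-, y, -, hzy', -, Nc, co, C⟩
      rw [honly y hzy', hbs] at C
      have m2 := stair_nab C.nat.chart C.mem (k := 2) (by omega)
      rw [C.co_eq] at m2
      simp only at m2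
      omega
    have hC : ¬ CEl 10 2 N θ z := by
      rintro ⟨-, h, -⟩
      omega
    have h3 := W.hA_le hxA hzx
    rw [hbs, hth] at h3
    rw [hS_not hp, hC_not hC] at h2
    rw [cst_const, h2] at h1
    have h4 : cst 2 (fun _ => hA N θ z) z ≤ cst 2 (fun _ => 8) z := cst_mono_const h3
    have h5 := cst_only (i := 2) (h := fun _ => 8) H.gradedBelow hzx honly
    simp only at h5
    have h6 := cst2b_11 hl
    omega
  · -- `z` is natural or a twin
    obtain ⟨y, hy, hup⟩ : ∃ y, y ∉ unnat N ∧ ∀ u, y < u ↔ z < u := by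
      by_cases h : z ∈ unnat N
      · by_cases ht : z ∈ twA N
        · exact ⟨twT N z, W.twSys.nat z ht, W.twSys.up z ht⟩
        · exact absurd (mem_rA.mpr ⟨h, ht⟩) hz
      · exact ⟨z, h, fun u => Iff.rfl⟩
    have el : lev y = lev z := lev_eq_of_up hup
    have e2 : nab 2 y = 3 := by
      rw [nab_congr_up hup (by omega), nab_only honly hzx (by omega)]
      exact n2
    have huc : (Win.uc y).card ≤ 1 := by
      rw [Finset.card_le_one]
      intro a ha c hc
      rw [Win.mem_uc] at ha hc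
      rw [honly a ((cov_of_up hup).mp ha), honly c ((cov_of_up hup).mp hc)]
    rcases W.kind2 L hy (by omega) (by omega) with ⟨Nc, co, h0, hN, a1, a2, a3⟩ |
      ⟨Nc, co, h0, hN, a1, a3⟩
    · have h3 := chart_inner_uc h0.chart H hN (by omega) (by omega)
      omega
    · have m2 := stair_nab h0.chart hN (k := 2) (by omega)
      omega

/-- **the window `2`, cap `35`** -/
theorem Ctx.stepD (K : Ctx P r 10 lo hi e) (hR : HR P RD)
    (hFP : FoldP P r 2 116 (fun t => hi t 2 - lo t 2 + 1)) (hJ : ∃ z : P, Hul.Jn z) :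
    HR P RDD ∧ NoE2a P 10 ∧ NoR2 P 10 := by
  have H := K.gt.H
  obtain ⟨V0, V1, B0, B1⟩ := K.win01 hJ
  obtain ⟨N, θ, W, hu⟩ := K.exists_we (w := 2) (K0 := 110) (Or.inl rfl) (by norm_num)
    (by decide +kernel) (by decide +kernel)
  obtain ⟨Zf, FT, hF, F, f1, f2, f3⟩ := hFP 110 N θ W hu
  obtain ⟨v, M, B2⟩ := K.winE (Or.inl rfl) W hu F (inE_D K hR)
    (W.cellsC (by norm_num) (by norm_num) (by norm_num) numD (fun h => h.elim) (fun h => h.elim)
      (fun _ => f1) (fun _ => f2))
    (cT := 35) (lb := -81) (by norm_num) (by norm_num) (by norm_num) (by norm_num)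
    (by decide) (by decide) hJ
  have hB : ∀ w ≤ 2, WinB P 10 w (cpD w) (nOD w) (nED w) (lbD w)
      (pk V0 V1 ((v : ℤ) - 81) 0 w) := by
    intro w hw
    have hw' : w = 0 ∨ w = 1 ∨ w = 2 := by omega
    rcases hw' with rfl | rfl | rfl
    · exact B0
    · exact B1
    · exact B2
  have hb := (K.boundsV (V := pk V0 V1 ((v : ℤ) - 81) 0) hR.noP tabD (nO := nOD) (nE := nED)
    (lb := lbD) hB 200 3).2 2 le_rfl
  change (ubd 10 2 cpD lbD LD nOD nED 200 3).getD 2 0 ≤ (v : ℤ) - 81 at hb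
  rw [uD] at hb
  norm_num at hb
  have hv : 117 ≤ v := by omega
  refine ⟨?_, K.noE2a W hu F M f3 hv, K.noR2 W hu F M f3 hv⟩
  intro z x x' h hl
  have l1 := (h.lev_eq H).1
  have l2 := (h.lev_eq H).2
  obtain ⟨s, s', h1, d, d'⟩ := K.left2 (V := pk V0 V1 ((v : ℤ) - 81) 0) hR.noP tabD
    (nO := nOD) (nE := nED) (lb := lbD) hB 200 3 h hl (sok11 (by omega)) (sok11 (by omega))
  rw [uD] at h1
  exact ⟨s, s', restD _ h1, d, d'⟩

end Pool.Agent.GaussPoset.Sm

end

/-! From `Pool.Agent.W_448jx_h67.WeW` -/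

section

/-!
The pairs of ends which are left after the window `2`, cap `20` (MP_448cb3_co, HJoin10)
-/

namespace Pool.Agent.GaussPoset.Sm

set_option linter.unusedSectionVars false

open Finset Wd

universe u

variable {P : Type u} [Fintype P] [PartialOrder P] [DecidableEq P] {r : ℕ}
  {lo hi : Tops P → ℕ → ℕ} {e : Tops P → ℕ → ℕ → P}

/-- **the pairs of ends which are left after the window `2`, cap `20`** -/
theorem Ctx.hRB (K : Ctx P r 10 lo hi e) : HR P RB := by
  have hR0 : HR P R10 := fun z x x' h hl => left10 K h hl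
  have hR : HR P RA := K.hRA
  intro z x x' h hl
  have hJ : ∃ z : P, Hul.Jn z := ⟨z, h.jn⟩
  obtain ⟨V0, V1, B0, B1⟩ := K.win01 hJ
  obtain ⟨N, θ, W, hu⟩ := K.exists_we (w := 2) (K0 := 110) (Or.inl rfl) (by norm_num)
    (by decide +kernel) (by decide +kernel)
  have F := W.fs0 (Kc := 101) (by norm_num) (fun h => by norm_num at h)
  obtain ⟨v, M, B2⟩ := K.winE (Or.inl rfl) W hu F (inE_B K hR0)
    (W.cellsC (by norm_num) (by norm_num) (by norm_num) numB (fun h => h.elim) (fun h => h.elim)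
      (fun h => h.elim) (fun h => h.elim))
    (cT := 20) (lb := -81) (by norm_num) (by norm_num) (by norm_num) (by norm_num)
    (by decide) (by decide) hJ
  have l1 := (h.lev_eq K.gt.H).1
  have l2 := (h.lev_eq K.gt.H).2
  obtain ⟨s, s', h1, d, d'⟩ := K.left2 (V := pk V0 V1 ((v : ℤ) - 81) 0) hR.noP tabB
    (nO := nOB) (nE := nEB) (lb := lbB) (fun w hw => by
      have hw' : w = 0 ∨ w = 1 ∨ w = 2 := by omega
      rcases hw' with rfl | rfl | rfl
      · exact B0
      · exact B1
      · exact B2) 200 5 h hl (sok11 (by omega)) (sok11 (by omega))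
  rw [uB] at h1
  exact ⟨s, s', restB _ h1, d, d'⟩

end Pool.Agent.GaussPoset.Sm

end
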