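import Mathlib
import Pool.Agent.W_448zz_h61.Ns
import Pool.Agent.W_448zz_h61.M052
import Pool.Agent.W_448zz_h61.M188

/-! From `Pool.Agent.W_448f4_h70.JA` -/

section

/-!
Twins at a minimal place: the window polynomial of a poset with two minimal elements with the same
strict up-set, in terms of the poset with one of them placed below the other and the poset
without it (MP_448cb3_co, S7, even levels).
-/

namespace Pool.Agent.GaussPoset

set_option linter.unusedSectionVars false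

open Finset

universe u v

section Twin

variable {A : Type u} {B : Type v} [Fintype A] [PartialOrder A] [DecidableEq A]
  [Fintype B] [PartialOrder B] [DecidableEq B] {x x' : A}

open Classical in
/-- the order preserving maps of `B`, in terms of the order preserving maps of `A` -/
lemma U_chainT (f : A ≃ B)
    (hf : ∀ y z, f y ≤ f z ↔ y ≤ z ∨ (y = x' ∧ z = x)) (m : ℕ) :
    U B m = ∑ σ ∈ (univ : Finset (A → Fin (m + 1))).filter
      (fun σ : A → Fin (m + 1) => Monotone σ ∧ σ x' ≤ σ x),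
        (Polynomial.X : Polynomial ℤ) ^ (∑ y, (σ y : ℕ)) := by
  classical
  unfold U
  refine Finset.sum_bij' (fun σ _ y => σ (f y)) (fun τ _ z => τ (f.symm z)) ?_ ?_ ?_ ?_ ?_
  · intro σ hσ
    simp only [mem_filter, mem_univ, true_and] at hσ ⊢
    exact ⟨fun y z h => hσ ((hf y z).mpr (Or.inl h)), hσ ((hf x' x).mpr (Or.inr ⟨rfl, rfl⟩))⟩
  · intro τ hτ
    simp only [mem_filter, mem_univ, true_and] at hτ ⊢
    intro y z h
    obtain ⟨y, rfl⟩ := f.surjective y
    obtain ⟨z, rfl⟩ := f.surjective z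
    simp only [Equiv.symm_apply_apply]
    rcases (hf y z).mp h with h | ⟨rfl, rfl⟩
    · exact hτ.1 h
    · exact hτ.2
  · intro σ _
    funext z
    simp
  · intro τ _
    funext y
    simp
  · intro σ _
    congr 1
    exact (Equiv.sum_comp f (fun z => ((σ z : ℕ)))).symm

open Classical in
/-- the order preserving maps with `0` at a minimal element -/
lemma U_drop (hmx' : ∀ y, ¬ y < x') (m : ℕ) :
    U {y : A // y ≠ x'} m = ∑ σ ∈ (univ : Finset (A → Fin (m + 1))).filter
      (fun σ : A → Fin (m + 1) => Monotone σ ∧ σ x' = 0),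
        (Polynomial.X : Polynomial ℤ) ^ (∑ y, (σ y : ℕ)) := by
  classical
  unfold U
  refine Finset.sum_bij' (fun (σ : {y : A // y ≠ x'} → Fin (m + 1)) _ (y : A) =>
      (if h : y = x' then (0 : Fin (m + 1)) else σ ⟨y, h⟩ : Fin (m + 1)))
    (fun (τ : A → Fin (m + 1)) _ z => τ z) ?_ ?_ ?_ ?_ ?_
  · intro σ hσ
    rw [mem_filter] at hσ ⊢
    refine ⟨mem_univ _, fun y z h => ?_, dif_pos rfl⟩
    have hσ := hσ.2
    simp only
    by_cases hy : y = x'
    · rw [dif_pos hy]
      exact Fin.zero_le _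
    · by_cases hz : z = x'
      · exfalso
        exact hmx' y (lt_of_le_of_ne (hz ▸ h) hy)
      · rw [dif_neg hy, dif_neg hz]
        exact hσ h
  · intro τ hτ
    simp only [mem_filter, mem_univ, true_and] at hτ ⊢
    exact fun y z h => hτ.1 h
  · intro σ _
    funext z
    simp only
    rw [dif_neg z.2]
  · intro τ hτ
    rw [mem_filter] at hτ
    funext y
    simp only
    split_ifs with h
    · rw [h]
      exact hτ.2.2.symm
    · rfl
  · intro σ _
    congr 1
    rw [← Finset.add_sum_erase univ _ (mem_univ x')]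
    have h0 : (((if h : x' = x' then (0 : Fin (m + 1)) else σ ⟨x', h⟩ : Fin (m + 1))) : ℕ) = 0 := by
      rw [dif_pos rfl]
      rfl
    simp only at h0 ⊢
    rw [h0, zero_add]
    refine Finset.sum_bij' (fun z _ => (z : A))
      (fun z hz => ⟨z, (mem_erase.mp hz).1⟩) ?_ ?_ ?_ ?_ ?_
    · intro z _
      exact mem_erase.mpr ⟨z.2, mem_univ _⟩
    · intro _ _
      exact mem_univ _
    · intro _ _
      rfl
    · intro _ _
      rfl
    · intro z _
      rw [dif_neg z.2]

lemma sum_two_twin (hne : x ≠ x') (g : A → ℕ) :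
    ∑ y, g y = g x + (g x' + ∑ y ∈ (univ.erase x).erase x', g y) := by
  rw [← Finset.add_sum_erase univ _ (mem_univ x),
    ← Finset.add_sum_erase (univ.erase x) _ (mem_erase.mpr ⟨hne.symm, mem_univ x'⟩)]

open Classical in
/-- the swap -/
lemma U_swap (hne : x ≠ x') (hup : ∀ y, x < y ↔ x' < y) (hmx : ∀ y, ¬ y < x)
    (hmx' : ∀ y, ¬ y < x') (m : ℕ) :
    ∑ σ ∈ (univ : Finset (A → Fin (m + 1))).filter
      (fun σ : A → Fin (m + 1) => (Monotone σ ∧ σ x' ≤ σ x) ∧ ¬ σ x' = 0),
        (Polynomial.X : Polynomial ℤ) ^ (∑ y, (σ y : ℕ)) =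
    Polynomial.X * ∑ σ ∈ (univ : Finset (A → Fin (m + 1))).filter
      (fun σ : A → Fin (m + 1) => Monotone σ ∧ ¬ σ x' ≤ σ x),
        (Polynomial.X : Polynomial ℤ) ^ (∑ y, (σ y : ℕ)) := by
  classical
  rw [Finset.mul_sum]
  refine Finset.sum_bij' (fun (σ : A → Fin (m + 1)) _ (y : A) =>
      (if y = x then ⟨(σ x' : ℕ) - 1, by have := (σ x').2; omega⟩ else
        if y = x' then σ x else σ y : Fin (m + 1)))
    (fun (τ : A → Fin (m + 1)) hτ (y : A) =>
      (if y = x' then ⟨(τ x : ℕ) + 1, by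
        rw [mem_filter] at hτ
        have h1 := hτ.2.2
        rw [not_le, Fin.lt_def] at h1
        have := (τ x').2
        omega⟩ else
        if y = x then τ x' else τ y : Fin (m + 1))) ?_ ?_ ?_ ?_ ?_
  · intro σ hσ
    rw [mem_filter] at hσ ⊢
    obtain ⟨-, ⟨h1, h2⟩, h3⟩ := hσ
    have h3' : (σ x' : ℕ) ≠ 0 := fun h => h3 (Fin.ext h)
    rw [Fin.le_def] at h2
    refine ⟨mem_univ _, fun y z h => ?_, ?_⟩
    · simp only
      rcases eq_or_lt_of_le h with rfl | hlt
      · exact le_rfl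
      · have hz : z ≠ x := fun h' => hmx y (h' ▸ hlt)
        have hz' : z ≠ x' := fun h' => hmx' y (h' ▸ hlt)
        rw [if_neg hz, if_neg hz']
        by_cases hy : y = x
        · rw [if_pos hy]
          have h4 : x' < z := (hup z).mp (hy ▸ hlt)
          have h5 := h1 h4.le
          rw [Fin.le_def] at h5 ⊢
          simp only
          omega
        · rw [if_neg hy]
          by_cases hy' : y = x'
          · rw [if_pos hy']
            exact h1 ((hup z).mpr (hy' ▸ hlt)).le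
          · rw [if_neg hy']
            exact h1 h
    · beta_reduce
      rw [if_neg hne.symm, if_pos rfl, if_pos rfl, not_le, Fin.lt_def]
      simp only
      omega
  · intro τ hτ
    have hτ' := hτ
    rw [mem_filter] at hτ' ⊢
    obtain ⟨-, h1, h2⟩ := hτ'
    rw [not_le, Fin.lt_def] at h2
    refine ⟨mem_univ _, ⟨fun y z h => ?_, ?_⟩, ?_⟩
    · simp only
      rcases eq_or_lt_of_le h with rfl | hlt
      · exact le_rfl
      · have hz : z ≠ x := fun h' => hmx y (h' ▸ hlt)
        have hz' : z ≠ x' := fun h' => hmx' y (h' ▸ hlt)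
        rw [if_neg hz', if_neg hz]
        by_cases hy : y = x'
        · rw [if_pos hy]
          have h5 := h1 (hy ▸ hlt : x' < z).le
          rw [Fin.le_def] at h5 ⊢
          simp only
          omega
        · rw [if_neg hy]
          by_cases hy' : y = x
          · rw [if_pos hy']
            exact h1 ((hup z).mp (hy' ▸ hlt)).le
          · rw [if_neg hy']
            exact h1 h
    · beta_reduce
      rw [if_pos rfl, if_neg hne, if_pos rfl, Fin.le_def]
      simp only
      omega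
    · beta_reduce
      rw [if_pos rfl]
      intro h
      have h6 := congrArg Fin.val h
      simp only at h6
      have : ((0 : Fin (m + 1)) : ℕ) = 0 := rfl
      omega
  · intro σ hσ
    simp only [mem_filter, mem_univ, true_and] at hσ
    obtain ⟨⟨h1, h2⟩, h3⟩ := hσ
    have h3' : (σ x' : ℕ) ≠ 0 := fun h => h3 (Fin.ext h)
    funext y
    simp only
    by_cases hy : y = x'
    · rw [if_pos hy, hy]
      apply Fin.ext
      simp only [if_true]
      omega
    · rw [if_neg hy]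
      by_cases hy' : y = x
      · subst hy'
        simp only [if_true, if_neg hne.symm]
      · rw [if_neg hy', if_neg hy', if_neg hy]
  · intro τ hτ
    funext y
    simp only
    by_cases hy : y = x
    · rw [if_pos hy, hy]
      apply Fin.ext
      simp only [if_true]
      omega
    · rw [if_neg hy]
      by_cases hy' : y = x'
      · subst hy'
        simp only [if_true, if_neg hne]
      · rw [if_neg hy', if_neg hy', if_neg hy]
  · intro σ hσ
    simp only [mem_filter, mem_univ, true_and] at hσ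
    obtain ⟨⟨h1, h2⟩, h3⟩ := hσ
    have h3' : (σ x' : ℕ) ≠ 0 := fun h => h3 (Fin.ext h)
    rw [← pow_succ']
    congr 1
    rw [sum_two_twin hne, sum_two_twin hne]
    simp only [if_true, if_neg hne.symm]
    have h4 : ∑ y ∈ (univ.erase x).erase x', ((σ y : Fin (m + 1)) : ℕ) =
        ∑ y ∈ (univ.erase x).erase x', (((if y = x then ⟨(σ x' : ℕ) - 1, by
          have := (σ x').2; omega⟩ else if y = x' then σ x else σ y : Fin (m + 1))) : ℕ) := by
      refine Finset.sum_congr rfl fun y hy => ?_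
      have h5 := (mem_erase.mp hy).1
      have h6 := (mem_erase.mp (mem_erase.mp hy).2).1
      rw [if_neg h6, if_neg h5]
    rw [← h4]
    omega

/-- the recursion of the generating functions -/
lemma U_twin (hne : x ≠ x') (hup : ∀ y, x < y ↔ x' < y) (hmx : ∀ y, ¬ y < x)
    (hmx' : ∀ y, ¬ y < x') (f : A ≃ B)
    (hf : ∀ y z, f y ≤ f z ↔ y ≤ z ∨ (y = x' ∧ z = x)) (m : ℕ) :
    Polynomial.X * U A m = (1 + Polynomial.X) * U B m - U {y : A // y ≠ x'} m := by
  classical
  have h1 : U A m = U B m + ∑ σ ∈ (univ : Finset (A → Fin (m + 1))).filter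
      (fun σ : A → Fin (m + 1) => Monotone σ ∧ ¬ σ x' ≤ σ x),
        (Polynomial.X : Polynomial ℤ) ^ (∑ y, (σ y : ℕ)) := by
    rw [U_chainT f hf m]
    unfold U
    rw [← Finset.sum_filter_add_sum_filter_not _ (fun σ : A → Fin (m + 1) => σ x' ≤ σ x),
      Finset.filter_filter, Finset.filter_filter]
    refine congrArg₂ (· + ·) (Finset.sum_congr ?_ fun _ _ => rfl)
      (Finset.sum_congr ?_ fun _ _ => rfl)
    · ext σ
      simp only [Finset.mem_filter, Finset.mem_univ, true_and]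
    · ext σ
      simp only [Finset.mem_filter, Finset.mem_univ, true_and]
  have h2 : U B m = U {y : A // y ≠ x'} m + ∑ σ ∈ (univ : Finset (A → Fin (m + 1))).filter
      (fun σ : A → Fin (m + 1) => (Monotone σ ∧ σ x' ≤ σ x) ∧ ¬ σ x' = 0),
        (Polynomial.X : Polynomial ℤ) ^ (∑ y, (σ y : ℕ)) := by
    rw [U_chainT f hf m, U_drop hmx' m,
      ← Finset.sum_filter_add_sum_filter_not _ (fun σ : A → Fin (m + 1) => σ x' = 0),
      Finset.filter_filter, Finset.filter_filter]
    congr 1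
    refine Finset.sum_congr (Finset.filter_congr fun σ _ => ?_) (fun _ _ => rfl)
    constructor
    · rintro ⟨⟨h, -⟩, h'⟩
      exact ⟨h, h'⟩
    · rintro ⟨h, h'⟩
      exact ⟨⟨h, by rw [h']; exact Fin.zero_le _⟩, h'⟩
  rw [U_swap hne hup hmx hmx' m] at h2
  have h3 : Polynomial.X * (∑ σ ∈ (univ : Finset (A → Fin (m + 1))).filter
      (fun σ : A → Fin (m + 1) => Monotone σ ∧ ¬ σ x' ≤ σ x),
        (Polynomial.X : Polynomial ℤ) ^ (∑ y, (σ y : ℕ))) =
      Polynomial.X * (U A m - U B m) := by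
    rw [h1]
    ring
  rw [h3] at h2
  have h4 : Polynomial.X * U A m = Polynomial.X * (U A m - U B m) + Polynomial.X * U B m := by ring
  rw [h4]
  have h5 : Polynomial.X * (U A m - U B m) = U B m - U {y : A // y ≠ x'} m := by
    rw [eq_sub_iff_add_eq, add_comm]
    exact h2.symm
  rw [h5]
  ring

/-- the recursion of the window polynomials -/
theorem W_twin (hne : x ≠ x') (hup : ∀ y, x < y ↔ x' < y) (hmx : ∀ y, ¬ y < x)
    (hmx' : ∀ y, ¬ y < x') (f : A ≃ B)
    (hf : ∀ y z, f y ≤ f z ↔ y ≤ z ∨ (y = x' ∧ z = x)) (i : ℕ) :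
    Polynomial.C (PowerSeries.X : PowerSeries ℤ) * W A i =
      Polynomial.C (1 + PowerSeries.X : PowerSeries ℤ) * W B i -
        Polynomial.C ((PowerSeries.X : PowerSeries ℤ) ^ i) * W {y : A // y ≠ x'} i := by
  classical
  apply Polynomial.eq_of_infinite_eval_eq
  have hinj : Function.Injective (fun m : ℕ => -(PowerSeries.X : PowerSeries ℤ) ^ (i + m + 1)) := by
    intro a b hab
    simp only [neg_inj] at hab
    have := congrArg PowerSeries.order hab
    rw [PowerSeries.order_X_pow, PowerSeries.order_X_pow] at this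
    have h2 : i + a + 1 = i + b + 1 := by exact_mod_cast this
    omega
  refine Set.infinite_of_injective_forall_mem hinj fun m => ?_
  simp only [Set.mem_ofPred_eq]
  have hcB : Fintype.card B = Fintype.card A := (Fintype.card_congr f).symm
  have hcC : Fintype.card {y : A // y ≠ x'} + 1 = Fintype.card A := by
    rw [Fintype.card_subtype_compl (fun y => y = x'), Fintype.card_subtype_eq]
    have : 0 < Fintype.card A := Fintype.card_pos_iff.mpr ⟨x⟩
    omega
  rw [Polynomial.eval_sub, Polynomial.eval_mul, Polynomial.eval_mul, Polynomial.eval_mul,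
    Polynomial.eval_C, Polynomial.eval_C, Polynomial.eval_C, W_eval, W_eval, W_eval, hcB, ← hcC]
  have h1 := congrArg (fun g : Polynomial ℤ => (g : PowerSeries ℤ)) (U_twin hne hup hmx hmx' f hf m)
  simp only [Polynomial.coe_mul, Polynomial.coe_sub, Polynomial.coe_add, Polynomial.coe_X,
    Polynomial.coe_one] at h1
  have h2 : (PowerSeries.X : PowerSeries ℤ) ^ (i * (Fintype.card {y : A // y ≠ x'} + 1)) =
      PowerSeries.X ^ i * PowerSeries.X ^ (i * Fintype.card {y : A // y ≠ x'}) := by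
    rw [← pow_add]
    congr 1
    ring
  rw [h2]
  calc PowerSeries.X * (PowerSeries.X ^ i * PowerSeries.X ^ (i * Fintype.card {y : A // y ≠ x'}) *
        ((U A m : Polynomial ℤ) : PowerSeries ℤ))
      = PowerSeries.X ^ i * PowerSeries.X ^ (i * Fintype.card {y : A // y ≠ x'}) *
        (PowerSeries.X * ((U A m : Polynomial ℤ) : PowerSeries ℤ)) := by ring
    _ = PowerSeries.X ^ i * PowerSeries.X ^ (i * Fintype.card {y : A // y ≠ x'}) *
        ((1 + PowerSeries.X) * ((U B m : Polynomial ℤ) : PowerSeries ℤ) -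
          ((U {y : A // y ≠ x'} m : Polynomial ℤ) : PowerSeries ℤ)) := by rw [h1]
    _ = _ := by ring

/-- **Orders of a poset with two minimal twins.** -/
theorem dvd_W_twin (hne : x ≠ x') (hup : ∀ y, x < y ↔ x' < y) (hmx : ∀ y, ¬ y < x)
    (hmx' : ∀ y, ¬ y < x') (f : A ≃ B)
    (hf : ∀ y z, f y ≤ f z ↔ y ≤ z ∨ (y = x' ∧ z = x))
    {p : Polynomial (PowerSeries ℤ)} (hp : p.Monic) (i : ℕ) (hB : p ∣ W B i)
    (hC : p ∣ W {y : A // y ≠ x'} i) : p ∣ W A i := by
  have h1 : p ∣ Polynomial.C (PowerSeries.X : PowerSeries ℤ) * W A i := by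
    rw [W_twin hne hup hmx hmx' f hf i]
    exact dvd_sub (dvd_mul_of_dvd_right hB _) (dvd_mul_of_dvd_right hC _)
  rw [← Polynomial.modByMonic_eq_zero_iff_dvd hp] at h1 ⊢
  have h2 : (Polynomial.C (PowerSeries.X : PowerSeries ℤ) * W A i) %ₘ p =
      Polynomial.C (PowerSeries.X : PowerSeries ℤ) * (W A i %ₘ p) := by
    rw [← Polynomial.smul_eq_C_mul, ← Polynomial.smul_eq_C_mul, Polynomial.smul_modByMonic]
  rw [h2] at h1
  rcases mul_eq_zero.mp h1 with h | h
  · exfalso
    exact PowerSeries.X_ne_zero (Polynomial.C_eq_zero.mp h)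
  · exact h

end Twin

end Pool.Agent.GaussPoset

end

/-! From `Pool.Agent.W_448ft_h93.FtB` -/

section

/-!
Shifted shapes with a poset hung below the end of the first row and a twin of a minimal element
next to the diagonal.
-/

namespace Pool.Agent.GaussPoset

set_option linter.unusedSectionVars false

open Finset Polynomial

universe u

/-- a copy of a type (without order) -/
structure TwB (Q : Type u) : Type u where
  /-- the element -/
  val : Q
  deriving DecidableEq

/-- the equivalence with the copy -/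
def twEquiv (Q : Type u) : Q ≃ TwB Q where
  toFun := TwB.mk
  invFun := TwB.val
  left_inv _ := rfl
  right_inv _ := rfl

section Sub

variable {Q : Type u} [Fintype Q] [PartialOrder Q] [DecidableEq Q]

instance : Fintype (TwB Q) := Fintype.ofEquiv Q (twEquiv Q)

/-- the order in which `x'` is placed below `x` -/
@[reducible] def twOrder {x x' : Q} (hne : x ≠ x') (hm : ∀ y, ¬ y < x) (hm' : ∀ y, ¬ y < x')
    (hup : ∀ y, x < y ↔ x' < y) : PartialOrder (TwB Q) where
  le y z := y.val ≤ z.val ∨ (y.val = x' ∧ z.val = x)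
  le_refl y := Or.inl le_rfl
  le_trans := by
    rintro ⟨a⟩ ⟨b⟩ ⟨c⟩ h1 h2
    simp only at h1 h2 ⊢
    have hmin' : ∀ {y : Q}, y ≤ x' → y = x' := fun {y} h => by
      by_contra h1
      exact hm' y (lt_of_le_of_ne h h1)
    rcases h1 with h1 | ⟨h1, h1'⟩
    · rcases h2 with h2 | ⟨h2, h2'⟩
      · exact Or.inl (h1.trans h2)
      · subst h2
        exact Or.inr ⟨hmin' h1, h2'⟩
    · subst h1 h1'
      rcases h2 with h2 | ⟨h2, h2'⟩
      · rcases h2.eq_or_lt with h3 | h3
        · exact Or.inr ⟨rfl, h3.symm⟩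
        · exact Or.inl ((hup c).1 h3).le
      · exact (hne h2).elim
  le_antisymm := by
    rintro ⟨a⟩ ⟨b⟩ h1 h2
    simp only at h1 h2 ⊢
    have hmin' : ∀ {y : Q}, y ≤ x' → y = x' := fun {y} h => by
      by_contra h1
      exact hm' y (lt_of_le_of_ne h h1)
    rcases h1 with h1 | ⟨h1, h1'⟩
    · rcases h2 with h2 | ⟨h2, h2'⟩
      · rw [le_antisymm h1 h2]
      · subst h2 h2'
        exact (hne (hmin' h1)).elim
    · rcases h2 with h2 | ⟨h2, h2'⟩
      · subst h1 h1'
        exact (hne (hmin' h2)).elim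
      · subst h1 h1'
        exact (hne h2).elim

/-- order of the window polynomial of a shifted shape with a poset hung below the end `x1` of the
first row and a twin `x'` of the minimal element `x` in the cell `(m, m + 1)` -/
theorem shift_junk_dvd_twin (t1 : Q → Prop) [DecidablePred t1] (co : Q → ℕ × ℕ) (x1 x x' : Q)
    (hx11 : ¬ t1 x1) (hx1 : x1 ≠ x') (hne : x ≠ x') (hx : ¬ t1 x) (hx' : ¬ t1 x')
    (hm : ∀ y, ¬ y < x) (hm' : ∀ y, ¬ y < x') (hup : ∀ y, x < y ↔ x' < y) {m : ℕ}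
    (hco : co x = (m, m + 1)) (hlow1 : ∀ y z, y ≤ z → t1 z → t1 y)
    (hh1 : ∀ y z, t1 y → ¬ t1 z → z ≠ x' → (y ≤ z ↔ x1 ≤ z))
    (hinj : ∀ y z, ¬ t1 y → ¬ t1 z → y ≠ x' → z ≠ x' → co y = co z → y = z)
    (hge : ∀ y, ¬ t1 y → y ≠ x' → (co y).1 ≤ (co y).2)
    (hle : ∀ y z, ¬ t1 y → ¬ t1 z → y ≠ x' → z ≠ x' → (y ≤ z ↔ co z ≤ co y))
    (hdown : ∀ y, ¬ t1 y → y ≠ x' → ∀ c ≤ co y, c.1 ≤ c.2 → ∃ u, ¬ t1 u ∧ u ≠ x' ∧ co u = c)
    (hr1 : (∃ y, t1 y) → (co x1).1 = 0 ∧ ∀ y, ¬ t1 y → y ≠ x' → y ≠ x1 → (co y).2 < (co x1).2)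
    {i : ℕ} (hcell : ∃ y, ¬ t1 y ∧ y ≠ x' ∧ co y = (2 * (i / 2), i)) :
    (1 + Polynomial.X : Polynomial (PowerSeries ℤ)) ^ (i / 2 + 1) ∣ W Q i := by
  classical
  have hmin : ∀ {y : Q}, y ≤ x → y = x := fun {y} h => by
    by_contra h1
    exact hm y (lt_of_le_of_ne h h1)
  have hmin' : ∀ {y : Q}, y ≤ x' → y = x' := fun {y} h => by
    by_contra h1
    exact hm' y (lt_of_le_of_ne h h1)
  -- the cell `(m + 1, m + 1)` is free
  have hfree : ∀ y, ¬ t1 y → y ≠ x' → ¬ ((m + 1, m + 1) : ℕ × ℕ) ≤ co y := by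
    intro y hy hy' h
    have h1 : co x ≤ co y := by
      rw [hco]
      exact (show ((m, m + 1) : ℕ × ℕ) ≤ (m + 1, m + 1) from ⟨Nat.le_succ m, le_rfl⟩).trans h
    have h2 : y = x := hmin ((hle y x hy hx hy' hne).2 h1)
    rw [h2, hco] at h
    have h3 : m + 1 ≤ m := h.1
    omega
  let _ : PartialOrder (TwB Q) := twOrder hne hm hm' hup
  have leB : ∀ y z : TwB Q, y ≤ z ↔ (y.val ≤ z.val ∨ (y.val = x' ∧ z.val = x)) :=
    fun _ _ => Iff.rfl
  have hmon : ((1 + Polynomial.X : Polynomial (PowerSeries ℤ)) ^ (i / 2 + 1)).Monic := by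
    apply Polynomial.Monic.pow
    rw [add_comm]
    exact Polynomial.monic_X_add_C 1
  refine dvd_W_twin hne hup hm hm' (twEquiv Q) (fun y z => Iff.rfl) hmon i ?_ ?_
  · -- the poset with `x'` below `x`
    refine shift_junk_dvd (Q := TwB Q) (fun y => t1 y.val)
      (fun y => if y.val = x' then (m + 1, m + 1) else co y.val) ⟨x1⟩ hx11 ?_ ?_ ?_ ?_ ?_ ?_ ?_ ?_
    · rintro ⟨y⟩ ⟨z⟩ h hz
      rcases (leB _ _).1 h with h | ⟨_, h2⟩
      · exact hlow1 y z h hz
      · simp only at h2 hz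
        rw [h2] at hz
        exact (hx hz).elim
    · rintro ⟨y⟩ ⟨z⟩ hy hz
      simp only at hy hz
      rw [leB, leB]
      simp only
      have hyx : y ≠ x' := fun h => hx' (h ▸ hy)
      by_cases hzx : z = x'
      · subst hzx
        constructor
        · rintro (h | ⟨h, _⟩)
          · exact (hyx (hmin' h)).elim
          · exact (hyx h).elim
        · rintro (h | ⟨h, _⟩)
          · exact (hx1 (hmin' h)).elim
          · exact (hx1 h).elim
      · have := hh1 y z hy hz hzx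
        simp only [hyx, hx1, false_and, or_false]
        exact this
    · rintro ⟨y⟩ ⟨z⟩ hy hz h
      simp only at hy hz h
      by_cases hyx : y = x'
      · by_cases hzx : z = x'
        · rw [hyx, hzx]
        · rw [if_pos hyx, if_neg hzx] at h
          exact (hfree z hz hzx h.le).elim
      · by_cases hzx : z = x'
        · rw [if_neg hyx, if_pos hzx] at h
          exact (hfree y hy hyx h.ge).elim
        · rw [if_neg hyx, if_neg hzx] at h
          rw [hinj y z hy hz hyx hzx h]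
    · rintro ⟨y⟩ hy
      simp only at hy ⊢
      by_cases hyx : y = x'
      · rw [if_pos hyx]
      · rw [if_neg hyx]
        exact hge y hy hyx
    · rintro ⟨y⟩ ⟨z⟩ hy hz
      simp only at hy hz
      rw [leB]
      simp only
      by_cases hyx : y = x'
      · by_cases hzx : z = x'
        · subst hyx
          rw [hzx]
          simp
        · rw [if_pos hyx, if_neg hzx]
          subst hyx
          have h0 : (y ≤ z ∨ y = y ∧ z = x) ↔ x ≤ z := by
            constructor
            · rintro (h | ⟨_, h⟩)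
              · exact ((hup z).2 (lt_of_le_of_ne h (Ne.symm hzx))).le
              · exact h ▸ le_rfl
            · intro h
              rcases h.eq_or_lt with h | h
              · exact Or.inr ⟨rfl, h.symm⟩
              · exact Or.inl ((hup z).1 h).le
          rw [h0, hle x z hx hz hne hzx, hco]
          constructor
          · intro h
            exact h.trans (show ((m, m + 1) : ℕ × ℕ) ≤ (m + 1, m + 1) from ⟨Nat.le_succ m, le_rfl⟩)
          · intro h
            have h1 : (co z).1 ≤ m + 1 := h.1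
            have h2 : (co z).2 ≤ m + 1 := h.2
            have h3 := hge z hz hzx
            refine ⟨?_, h2⟩
            change (co z).1 ≤ m
            by_contra h4
            exact hfree z hz hzx ⟨by change m + 1 ≤ (co z).1; omega,
              by change m + 1 ≤ (co z).2; omega⟩
      · by_cases hzx : z = x'
        · rw [if_neg hyx, if_pos hzx]
          constructor
          · rintro (h | ⟨h, _⟩)
            · rw [hzx] at h
              exact (hyx (hmin' h)).elim
            · exact (hyx h).elim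
          · intro h
            exact (hfree y hy hyx h).elim
        · rw [if_neg hyx, if_neg hzx]
          simp only [hyx, false_and, or_false]
          exact hle y z hy hz hyx hzx
    · rintro ⟨y⟩ hy c hc hcc
      simp only at hy hc
      have key : ∀ u, ¬ t1 u → u ≠ x' → co u = c → ∃ y : TwB Q, ¬ t1 y.val ∧
          (if y.val = x' then (m + 1, m + 1) else co y.val) = c := by
        intro u h1 h2 h3
        exact ⟨⟨u⟩, h1, by simp only; rw [if_neg h2]; exact h3⟩
      by_cases hyx : y = x'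
      · rw [if_pos hyx] at hc
        by_cases h1 : c = (m + 1, m + 1)
        · exact ⟨⟨x'⟩, hx', by rw [if_pos rfl, h1]⟩
        · obtain ⟨u, h2, h3, h4⟩ := hdown x hx hne c (by
            rw [hco]
            have h5 : c.1 ≤ m + 1 := hc.1
            have h6 : c.2 ≤ m + 1 := hc.2
            refine ⟨?_, h6⟩
            change c.1 ≤ m
            by_contra h7
            apply h1
            apply Prod.ext
            · change c.1 = m + 1
              omega
            · change c.2 = m + 1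
              omega) hcc
          exact key u h2 h3 h4
      · rw [if_neg hyx] at hc
        obtain ⟨u, h2, h3, h4⟩ := hdown y hy hyx c hc hcc
        exact key u h2 h3 h4
    · rintro ⟨⟨y0⟩, hy0⟩
      simp only at hy0
      obtain ⟨h1, h2⟩ := hr1 ⟨y0, hy0⟩
      simp only
      rw [if_neg hx1]
      refine ⟨h1, ?_⟩
      rintro ⟨y⟩ hy hyy
      simp only at hy ⊢
      by_cases hyx : y = x'
      · rw [if_pos hyx]
        have hxx1 : x ≠ x1 := by
          intro h
          have h3 : y0 ≤ x := (hh1 y0 x hy0 hx hne).2 (h ▸ le_rfl)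
          exact hx (hmin h3 ▸ hy0)
        have := h2 x hx hne hxx1
        rw [hco] at this
        exact this
      · rw [if_neg hyx]
        exact h2 y hy hyx (fun h => hyy (by rw [h]))
    · obtain ⟨y, h1, h2, h3⟩ := hcell
      exact ⟨⟨y⟩, h1, by simp only; rw [if_neg h2]; exact h3⟩
  · -- the poset without `x'`
    refine shift_junk_dvd (Q := {y : Q // y ≠ x'}) (fun y => t1 y.1) (fun y => co y.1)
      ⟨x1, hx1⟩ hx11 ?_ ?_ ?_ ?_ ?_ ?_ ?_ ?_
    · exact fun y z h hz => hlow1 y.1 z.1 h hz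
    · exact fun y z hy hz => hh1 y.1 z.1 hy hz z.2
    · exact fun y z hy hz h => Subtype.ext (hinj y.1 z.1 hy hz y.2 z.2 h)
    · exact fun y hy => hge y.1 hy y.2
    · exact fun y z hy hz => hle y.1 z.1 hy hz y.2 z.2
    · intro y hy c hc hcc
      obtain ⟨u, h2, h3, h4⟩ := hdown y.1 hy y.2 c hc hcc
      exact ⟨⟨u, h3⟩, h2, h4⟩
    · rintro ⟨y0, hy0⟩
      obtain ⟨h1, h2⟩ := hr1 ⟨y0.1, hy0⟩
      exact ⟨h1, fun y hy hyy => h2 y.1 hy y.2 (fun h => hyy (Subtype.ext h))⟩
    · obtain ⟨y, h1, h2, h3⟩ := hcell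
      exact ⟨⟨y, h2⟩, h1, h3⟩

end Sub

end Pool.Agent.GaussPoset

end

/-! From `Pool.Agent.W_448f4_h70.JC` -/

section

/-!
The region which contains the cell `(m, m + 1)` of a stair-like component and its twin, both
minimal (MP_448cb3_co, S7).
-/

namespace Pool.Agent.GaussPoset

set_option linter.unusedSectionVars false

open Polynomial Finset

universe u

variable {P : Type u} [Fintype P] [PartialOrder P] [DecidableEq P]

section Fold

variable {i m : ℕ} {t : Tops P} {Nc : Finset P} {co : P → ℕ × ℕ} {x x' z : P}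

/-- the coordinates of a stair-like component with junk -/
theorem coordJ_stair (C : Chart (t : P) (fun c => c.1 ≤ c.2) Nc co) {M : Tops P → Finset P}
    (HM : NatSys M) (hM : M t = natS Nc co) :
    CoordJ (unnat M) topOf t (fun y => y ∈ junk (fun c => c.1 ≤ c.2) Nc co)
      (fun c => c.1 ≤ c.2) co := by
  have hmem : ∀ x, x ∉ unnat M → topOf x = t → x ∈ natS Nc co := fun x h1 h2 => by
    rw [← hM]; exact HM.mem_iff.mpr ⟨h1, h2⟩
  have hnJ : ∀ x, x ∉ unnat M → topOf x = t → x ∉ junk (fun c => c.1 ≤ c.2) Nc co → x ∈ Nc := by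
    intro x hx hk hJ
    rcases mem_natS.mp (hmem x hx hk) with h | h
    · exact h
    · exact absurd h hJ
  have hNM : ∀ x ∈ Nc, x ∉ unnat M ∧ topOf x = t := fun x hx =>
    HM.mem_iff.mp (by rw [hM]; exact mem_natS.mpr (Or.inl hx))
  constructor
  · intro x y hx hy hkx hky hJx hJy h
    exact C.inj x (hnJ x hx hkx hJx) y (hnJ y hy hky hJy) h
  · intro x y hx hy hkx hky hJx hJy
    exact C.le_iff x (hnJ x hx hkx hJx) y (hnJ y hy hky hJy)
  · intro x hx hk hJx
    exact C.mem x (hnJ x hx hk hJx)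
  · intro x hx hk hJx c hc hS
    have hxN := hnJ x hx hk hJx
    obtain ⟨y, hy, hcy⟩ := C.low x hxN c hc hS
    refine ⟨y, (hNM y hy).1, (hNM y hy).2, ?_, hcy⟩
    have hxy : x ≤ y := by
      rw [C.le_iff x hxN y hy, hcy]
      exact hc
    intro h
    obtain ⟨w, Hw, hyw⟩ := mem_junk.mp h
    exact hJx (mem_junk.mpr ⟨w, Hw, (Hw.tail C hxN (hxy.trans_lt (mem_jset.mp hyw).1)).2⟩)
  · intro x hx hk hJx
    exact C.lev x (hnJ x hx hk hJx)

/-- **The region which contains the cell `(m, m + 1)` and its twin, both minimal.** -/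
theorem FoldC.clean_both (F : FoldC i t Nc co m x x')
    {M : Tops P → Finset P} (HM : NatSys M) (hM : M t = natS Nc co)
    {D : Finset P} (hDl : ∀ a c, a ≤ c → c ∈ D → a ∈ D)
    (hDB : ∀ y ∈ D, ¬ (y ∈ Nc ∧ co y = (2 * (i / 2), i)))
    (hD : ∀ y ∈ unnat M, y ≠ x' → y ∈ D) (hx : x ∉ D) (hx' : x' ∉ D) (hx't : topOf x' = t)
    (hmx : ∀ y < x, y ∈ D) (hmx' : ∀ y < x', y ∈ D) [DecidableEq (Tops P)] :
    (1 + X : Polynomial (PowerSeries ℤ)) ^ (i / 2 + 1) ∣
      W {y : {y : P // y ∉ D} // topOf (y : P) = t} i := by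
  classical
  have C := F.chart
  have h2 := F.hi
  have h3 := F.him
  have hmem : ∀ x, x ∉ unnat M → topOf x = t → x ∈ natS Nc co := fun x h1 h2 => by
    rw [← hM]; exact HM.mem_iff.mpr ⟨h1, h2⟩
  have hNM : ∀ x ∈ Nc, x ∉ unnat M ∧ topOf x = t := fun x hx =>
    HM.mem_iff.mp (by rw [hM]; exact mem_natS.mpr (Or.inl hx))
  have hnN : ∀ y, y ∉ D → y ≠ x' → y ∉ unnat M := fun y h4 h5 h6 => h4 (hD y h6 h5)
  have H := coordJ_stair C HM hM
  obtain ⟨x0, hx0, hcx0⟩ := F.cell
  have h1 : ∃ y ∈ Nc, 1 ≤ (co y).1 := ⟨x0, hx0, by rw [hcx0]; simp only; omega⟩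
  obtain ⟨x1, J1, hx1, hr1⟩ := junk_data (S := fun c : ℕ × ℕ => c.1 ≤ c.2) (fun c hc => hc) C h1
      HM (J' := fun _ => False) (fun x => by rw [hM, mem_natS, or_false])
      (fun _ _ _ h => h.elim) (fun _ h => h.elim) (fun h => h)
  have hNJ : ∀ y ∈ Nc, 1 ≤ (co y).1 → y ∉ junk (fun c => c.1 ≤ c.2) Nc co := by
    intro y hy hc h
    obtain ⟨w, Hw, hxw⟩ := mem_junk.mp h
    have := (Hw.tail C hy (mem_jset.mp hxw).1).1
    omega
  have hxJ : x ∉ junk (fun c => c.1 ≤ c.2) Nc co := hNJ x F.mem (by rw [F.co_eq]; simp only; omega)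
  have hx'J : x' ∉ junk (fun c => c.1 ≤ c.2) Nc co := fun h => F.nN (mem_natS.mpr (Or.inr h))
  have hx0D : x0 ∉ D := fun h => hDB x0 h ⟨hx0, hcx0⟩
  have hx1x' : x1 ≠ x' := by
    intro h
    have h4 := hmem x1 hx1.1 hx1.2.1
    rw [h] at h4
    exact F.nN h4
  have hxx1 : (∃ y, y ∈ junk (fun c => c.1 ≤ c.2) Nc co) → ¬ x < x1 := by
    intro hex h
    have h4 := (hr1 hex).2 x (hNM x F.mem).1 (hNM x F.mem).2 hxJ (fun h => h) h.ne
    have hx1N : x1 ∈ Nc := C.up x F.mem x1 h.le
    have h5 := (C.le_iff x F.mem x1 hx1N).mp h.le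
    have h6 : (co x1).2 ≤ (co x).2 := h5.2
    omega
  have hlowJ : ∀ y z, y ∉ D → y ≤ z → z ∈ junk (fun c => c.1 ≤ c.2) Nc co →
      y ∈ junk (fun c => c.1 ≤ c.2) Nc co := by
    intro y z hyD hyz hz
    by_cases hyx : y = x'
    · exfalso
      subst hyx
      rcases eq_or_lt_of_le hyz with h | h
      · rw [h] at hx'J; exact hx'J hz
      · exact hxx1 ⟨z, hz⟩ (((F.up z).mpr h).trans (J1.mem z hz).2.2)
    · exact J1.low y z hyz (hnN y hyD hyx) hz
  -- the end
  obtain ⟨w1, hw1D, hw1t, hw1J, hw1x', hh1, hrr⟩ : ∃ w1 : P, w1 ∉ D ∧ topOf w1 = t ∧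
      w1 ∉ junk (fun c => c.1 ≤ c.2) Nc co ∧ w1 ≠ x' ∧
      (∀ y z, y ∉ D → z ∉ D → y ∈ junk (fun c => c.1 ≤ c.2) Nc co →
        z ∉ junk (fun c => c.1 ≤ c.2) Nc co → (y ≤ z ↔ w1 ≤ z)) ∧
      ((∃ y, y ∉ D ∧ y ∈ junk (fun c => c.1 ≤ c.2) Nc co) → (co w1).1 = 0 ∧
        ∀ y, y ∉ unnat M → topOf y = t → y ∉ junk (fun c => c.1 ≤ c.2) Nc co → y ≠ w1 →
          (co y).2 < (co w1).2) := by
    by_cases h4 : x1 ∈ D
    · have hno : ∀ y, y ∉ D → y ∉ junk (fun c => c.1 ≤ c.2) Nc co := by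
        intro y hy hJ
        exact hy (hDl _ _ (J1.mem _ hJ).2.2.le h4)
      exact ⟨x, hx, (hNM x F.mem).2, hxJ, F.ne, fun y z hy _ hJ _ => (hno y hy hJ).elim,
        fun ⟨y, hy, hJ⟩ => (hno y hy hJ).elim⟩
    · refine ⟨x1, h4, hx1.2.1, hx1.2.2.1, hx1x', ?_, ?_⟩
      · intro y z _ _ hJ hJz
        constructor
        · intro hxy
          exact (J1.anc _ _ hJ hxy).resolve_left hJz
        · intro hxy
          exact (J1.mem _ hJ).2.2.le.trans hxy
      · rintro ⟨y, -, hJ⟩
        obtain ⟨h5, h6⟩ := hr1 ⟨_, hJ⟩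
        exact ⟨h5, fun y hy hyt hyJ hne => h6 y hy hyt hyJ (fun h => h) hne⟩
  have hQ : ∀ y : {y : {y : P // y ∉ D} // topOf (y : P) = t},
      y ≠ ⟨⟨x', hx'⟩, hx't⟩ → y.1.1 ∉ unnat M := by
    intro y hy
    refine hnN _ y.1.2 (fun h => hy ?_)
    exact Subtype.ext (Subtype.ext h)
  refine shift_junk_dvd_twin (Q := {y : {y : P // y ∉ D} // topOf (y : P) = t})
    (fun y => y.1.1 ∈ junk (fun c => c.1 ≤ c.2) Nc co) (fun y => co y.1.1)
    ⟨⟨w1, hw1D⟩, hw1t⟩ ⟨⟨x, hx⟩, (hNM x F.mem).2⟩ ⟨⟨x', hx'⟩, hx't⟩ hw1J ?_ ?_ hxJ hx'J ?_ ?_ ?_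
    (m := m) F.co_eq ?_ ?_ ?_ ?_ ?_ ?_ ?_ ?_
  · intro h
    exact hw1x' (congrArg (fun y => y.1.1) h)
  · intro h
    exact F.ne (congrArg (fun y => y.1.1) h)
  · intro y h
    exact y.1.2 (hmx y.1.1 h)
  · intro y h
    exact y.1.2 (hmx' y.1.1 h)
  · intro y
    exact F.up y.1.1
  · intro y z hyz hz
    exact hlowJ y.1.1 z.1.1 y.1.2 hyz hz
  · intro y z hy hz _
    exact hh1 y.1.1 z.1.1 y.1.2 z.1.2 hy hz
  · intro y z hy hz hyx hzx h
    exact Subtype.ext (Subtype.ext (H.inj _ _ (hQ y hyx) (hQ z hzx) y.2 z.2 hy hz h))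
  · intro y hy hyx
    exact H.mem _ (hQ y hyx) y.2 hy
  · intro y z hy hz hyx hzx
    exact H.le_iff _ _ (hQ y hyx) (hQ z hzx) y.2 z.2 hy hz
  · intro y hy hyx c hc hcS
    obtain ⟨u, hu, hut, huJ, hcu⟩ := H.low _ (hQ y hyx) y.2 hy c hc hcS
    have huD : u ∉ D := by
      intro h
      refine y.1.2 (hDl _ u ?_ h)
      rw [H.le_iff _ u (hQ y hyx) hu y.2 hut hy huJ, hcu]
      exact hc
    refine ⟨⟨⟨u, huD⟩, hut⟩, huJ, fun h => ?_, hcu⟩
    have h5 : u = x' := congrArg (fun y => y.1.1) h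
    have h6 := hmem u hu hut
    rw [h5] at h6
    exact F.nN h6
  · rintro ⟨y, hy⟩
    obtain ⟨h5, h6⟩ := hrr ⟨y.1.1, y.1.2, hy⟩
    refine ⟨h5, fun y hy hyx hne => h6 y.1.1 (hQ y hyx) y.2 hy (fun h => hne ?_)⟩
    exact Subtype.ext (Subtype.ext h)
  · refine ⟨⟨⟨x0, hx0D⟩, (hNM x0 hx0).2⟩, hNJ x0 hx0 (by rw [hcx0]; simp only; omega), ?_, hcx0⟩
    intro h
    exact F.nNc ((congrArg (fun y => y.1.1) h : x0 = x') ▸ hx0)

end Fold

end Pool.Agent.GaussPoset

end

/-! From `Pool.Agent.W_448f4_h70.JD` -/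

section

/-!
Systems of natural sets with twins of the cells `(m, m + 1)` and elements which hang below these
twins: the regions of one part (MP_448cb3_co, S7).
-/

namespace Pool.Agent.GaussPoset

set_option linter.unusedSectionVars false

open Polynomial Finset

universe u

variable {P : Type u} [Fintype P] [PartialOrder P] [DecidableEq P]

/-- twins `Yf` of cells `(m, m + 1)` and the elements `Z` which hang below them -/
structure FoldSys (i : ℕ) (N : Tops P → Finset P) (b : Tops P → ℕ) (B : Tops P → P → Prop)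
    (Y Yf Z : Finset P) (τ π : P → P) : Prop where
  sub : Yf ⊆ Y
  fold : ∀ x' ∈ Yf, ∃ Nc co m, FoldC i (topOf x') Nc co m (τ x') x' ∧
    N (topOf x') = natS Nc co ∧ b (topOf x') = i / 2 + 1 ∧
    ∀ y, B (topOf x') y ↔ (y ∈ Nc ∧ co y = (2 * (i / 2), i))
  uniq : ∀ x ∈ Yf, ∀ y ∈ Yf, topOf x = topOf y → x = y
  penU : ∀ z ∈ Z, z ∈ unnat N
  penY : ∀ z ∈ Z, z ∉ Y
  penF : ∀ z ∈ Z, π z ∈ Yf
  pen : ∀ z ∈ Z, ∀ y, z < y ↔ π z ≤ y

section Sys

variable {i : ℕ} {N : Tops P → Finset P} {b : Tops P → ℕ} {θ : Tops P → P → ℕ}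
  {B : Tops P → P → Prop} {Y Yf Z : Finset P} {τ π : P → P}

/-- nothing unnatural above a twin -/
lemma TwSys.top_unnat (T : TwSys (unnat N) Y topOf τ) (HN : NatSys N) {x c : P} (hx : x ∈ Y)
    (hxc : x < c) : c ∉ unnat N := by
  intro h
  exact T.nat x hx (HN.lower _ c ((T.up x hx c).mpr hxc).le h)

/-- nothing unnatural above a pendant except its twin -/
lemma FoldSys.above (F : FoldSys i N b B Y Yf Z τ π) (T : TwSys (unnat N) Y topOf τ)
    (HN : NatSys N) {z c : P} (hz : z ∈ Z) (hzc : z < c) (hc : c ∈ unnat N) : c = π z := by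
  have h1 := (F.pen z hz c).mp hzc
  by_contra hne
  exact T.top_unnat HN (F.sub (F.penF z hz)) (lt_of_le_of_ne h1 (Ne.symm hne)) hc

lemma FoldSys.lt (F : FoldSys i N b B Y Yf Z τ π) {z : P} (hz : z ∈ Z) : z < π z :=
  (F.pen z hz _).mpr le_rfl

lemma topOf_of_up {x y : P} (HN : NatSys N) (hx : x ∉ unnat N) (hyx : ∀ s : P, y ≤ s → lev s = 0 → x ≤ s) :
    topOf y = topOf x := by
  have h1 : x ∈ N (topOf x) := HN.mem_iff.mpr ⟨hx, rfl⟩
  exact Subtype.ext (HN.top_eq h1 (topOf y).2 (hyx _ (le_topOf y) (topOf y).2))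

/-- the top of a pendant -/
lemma FoldSys.top_pen (F : FoldSys i N b B Y Yf Z τ π) (T : TwSys (unnat N) Y topOf τ)
    (HN : NatSys N) {z : P} (hz : z ∈ Z) : topOf z = topOf (π z) := by
  have hY := F.sub (F.penF z hz)
  rw [← T.cp _ hY]
  refine topOf_of_up HN (T.nat _ hY) (fun s hs hl => ?_)
  have h1 : z ≠ s := by
    rintro rfl
    have := lev_strictAnti (F.lt hz)
    omega
  have h2 := (F.pen z hz s).mp (lt_of_le_of_ne hs h1)
  have h3 : π z ≠ s := by
    rintro rfl
    obtain ⟨Nc, co, m, hF, -⟩ := F.fold _ (F.penF z hz)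
    have h4 := hF.lev_eq
    have h5 := hF.lev_x
    omega
  exact ((T.up _ hY s).mpr (lt_of_le_of_ne h2 h3)).le

/-- regions of a part -/
lemma dvd_region {D E : Finset P} {t : Tops P} [DecidableEq (Tops P)] {p : Polynomial (PowerSeries ℤ)}
    (h1 : ∀ y, topOf y = t → (y ∈ D ↔ y ∈ E))
    (h : p ∣ W {y : {y : P // y ∉ E} // topOf (y : P) = t} i) :
    p ∣ W {y : {y : P // y ∉ D} // topOf (y : P) = t} i := by
  let e : {y : {y : P // y ∉ D} // topOf (y : P) = t} ≃o
      {y : {y : P // y ∉ E} // topOf (y : P) = t} :=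
    { toFun := fun y => ⟨⟨y, fun h => y.1.2 ((h1 _ y.2).mpr h)⟩, y.2⟩
      invFun := fun y => ⟨⟨y, fun h => y.1.2 ((h1 _ y.2).mp h)⟩, y.2⟩
      left_inv := fun y => rfl
      right_inv := fun y => rfl
      map_rel_iff' := Iff.rfl }
  rw [W_iso e]
  exact h

/-- the far set without the twins of the cells `(m, m + 1)` and without the pendants -/
lemma FoldSys.lowerF (F : FoldSys i N b B Y Yf Z τ π) (T : TwSys (unnat N) Y topOf τ)
    (HN : NatSys N) : ∀ a c, a ≤ c → c ∈ (unnat N \ Yf) \ Z → a ∈ (unnat N \ Yf) \ Z := by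
  intro a c hac hc
  rw [mem_sdiff, mem_sdiff] at hc ⊢
  rcases eq_or_lt_of_le hac with h | h
  · rw [h]; exact hc
  · refine ⟨⟨HN.lower a c hac hc.1.1, fun h1 => ?_⟩, fun h1 => ?_⟩
    · exact T.top_unnat HN (F.sub h1) h hc.1.1
    · have h2 := F.above T HN h1 h hc.1.1
      exact hc.1.2 (h2 ▸ F.penF a h1)

/-- the twins of the other cells -/
lemma FoldSys.twF (F : FoldSys i N b B Y Yf Z τ π) (T : TwSys (unnat N) Y topOf τ) :
    TwSys ((unnat N \ Yf) \ Z) (Y \ Yf) topOf τ where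
  sub := by
    intro x hx
    rw [mem_sdiff] at hx
    rw [mem_sdiff, mem_sdiff]
    exact ⟨⟨T.sub hx.1, hx.2⟩, fun h => F.penY x h hx.1⟩
  nat := by
    intro x hx h
    rw [mem_sdiff, mem_sdiff] at h
    exact T.nat x (mem_sdiff.mp hx).1 h.1.1
  up := fun x hx => T.up x (mem_sdiff.mp hx).1
  inj := fun x hx y hy => T.inj x (mem_sdiff.mp hx).1 y (mem_sdiff.mp hy).1
  anti := fun x hx y hy => T.anti x (mem_sdiff.mp hx).1 y (mem_sdiff.mp hy).1
  cp := fun x hx => T.cp x (mem_sdiff.mp hx).1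

/-- **The regions of one part.** -/
theorem FoldSys.clean_part (F : FoldSys i N b B Y Yf Z τ π) (T : TwSys (unnat N) Y topOf τ)
    (hgr : GradedBelow P) (H : ∀ t, NatTop i t (b t) (N t) (θ t) (B t)) {D : Finset P}
    (hD : Good i ((unnat N \ Y) \ Z) (fun x => x ∉ unnat N ∧ B (topOf x) x) D) (t : Tops P)
    (hb : ∀ y ∈ Y, topOf y = t → τ y ∈ D ∨ y ∈ D ∨
      (y ∈ Yf ∧ (∀ a < τ y, a ∈ D) ∧ ∀ a < y, a ∈ D))
    (hbz : ∀ z1 ∈ Z, ∀ z2 ∈ Z, topOf z1 = t → z1 ≠ z2 → π z1 = π z2 → z1 ∈ D ∨ z2 ∈ D)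
    [DecidableEq (Tops P)] :
    (1 + X : Polynomial (PowerSeries ℤ)) ^ (b t) ∣
      W {y : {y : P // y ∉ D} // topOf (y : P) = t} i := by
  classical
  have HN := natSys_of_tops H
  have hRlev : ∀ x ∈ unnat N, i < lev x := by
    intro x hx
    by_contra hcon
    exact low_natural H (not_lt.mp hcon) hx
  obtain ⟨hDl, hDR, hDlev, hDB⟩ := hD
  -- the unnatural elements of the other parts
  set A : Finset P := (unnat N).filter (fun a => (a ∉ Y ∧ a ∉ Z) ∨ topOf a ≠ t) with hA
  have hmA : ∀ a, a ∈ A ↔ a ∈ unnat N ∧ ((a ∉ Y ∧ a ∉ Z) ∨ topOf a ≠ t) := by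
    intro a; rw [hA, mem_filter]
  have hAl : ∀ a c, a ≤ c → c ∈ A → a ∈ A := by
    intro a c hac hc
    rw [hmA] at hc ⊢
    rcases eq_or_lt_of_le hac with h | h
    · rw [h]; exact hc
    have haU := HN.lower a c hac hc.1
    refine ⟨haU, ?_⟩
    have haY : a ∉ Y := fun h1 => T.top_unnat HN h1 h hc.1
    by_cases haZ : a ∈ Z
    · right
      have h2 := F.above T HN haZ h hc.1
      rw [F.top_pen T HN haZ, ← h2]
      rcases hc.2 with h3 | h3
      · exact absurd (h2 ▸ F.sub (F.penF a haZ)) h3.1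
      · exact h3
    · exact Or.inl ⟨haY, haZ⟩
  have hAR : ∀ y, topOf y = t → y ∈ A → y ∈ D := by
    intro y hy h
    rw [hmA] at h
    rcases h.2 with h2 | h2
    · exact hDR (mem_sdiff.mpr ⟨mem_sdiff.mpr ⟨h.1, h2.1⟩, h2.2⟩)
    · exact absurd hy h2
  have hg1 : Good i (((unnat N \ Yf) \ Z) \ (Y \ Yf)) (fun x => x ∉ unnat N ∧ B (topOf x) x)
      (D ∪ A) := by
    refine ⟨?_, ?_, ?_, ?_⟩
    · intro a c hac hc
      rw [mem_union] at hc ⊢
      exact hc.imp (hDl a c hac) (hAl a c hac)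
    · intro a ha
      rw [mem_sdiff, mem_sdiff, mem_sdiff, mem_sdiff] at ha
      refine mem_union_left _ (hDR ?_)
      rw [mem_sdiff, mem_sdiff]
      exact ⟨⟨ha.1.1.1, fun h => ha.2 ⟨h, ha.1.1.2⟩⟩, ha.1.2⟩
    · intro a ha
      rw [mem_union] at ha
      rcases ha with ha | ha
      · exact hDlev a ha
      · exact hRlev a ((hmA a).mp ha).1
    · intro a ha
      rw [mem_union] at ha
      rcases ha with ha | ha
      · exact hDB a ha
      · exact fun h => h.1 ((hmA a).mp ha).1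
  refine dvd_region (E := D ∪ A) (fun y hy => ?_) ?_
  · rw [mem_union]
    exact ⟨fun h => Or.inl h, fun h => h.elim id (hAR y hy)⟩
  have hbr : Broken (pairsX (Y \ Yf) τ) (D ∪ A) := by
    intro s hs
    rw [mem_pairsX] at hs
    have h1 := mem_sdiff.mp hs.1
    rw [hs.2]
    by_cases h2 : topOf s.2 = t
    · rcases hb _ h1.1 h2 with h3 | h3 | h3
      · exact Or.inl (mem_union_left _ h3)
      · exact Or.inr (mem_union_left _ h3)
      · exact absurd h3.1 h1.2
    · exact Or.inr (mem_union_right _ ((hmA _).mpr ⟨T.sub h1.1, Or.inr h2⟩))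
  have TF := F.twF T
  refine TF.dvd_W (F.lowerF T HN) hg1 hbr ?_
  have hg2 := TF.good_exc (F.lowerF T HN) (fun x hx => hRlev x (by
    rw [mem_sdiff, mem_sdiff] at hx; exact hx.1.1)) (fun x hx h => h.1 (by
    rw [mem_sdiff, mem_sdiff] at hx; exact hx.1.1)) hg1
  set E : Finset P := exc (Y \ Yf) τ (D ∪ A) with hE
  have hmE : ∀ y, y ∈ unnat N → topOf y = t → y ∉ Y \ Yf → (y ∈ E ↔ y ∈ D) := by
    intro y hyU hyt hyY
    rw [hE, mem_exc]
    constructor
    · rintro (h | h)
      · exact (mem_union.mp h.1).elim id (hAR y hyt)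
      · exact absurd h hyY
    · intro h
      refine Or.inl ⟨mem_union_left _ h, fun w hw _ hwy => ?_⟩
      exact T.nat w (mem_sdiff.mp hw).1 (hwy ▸ hyU)
  obtain ⟨hEl, hER, hElev, hEB⟩ := hg2
  -- a lower set with more unnatural elements
  have hplus : ∀ Q : Finset P, Q ⊆ unnat N → (∀ a c, a ≤ c → c ∈ unnat N \ Q → a ∈ unnat N \ Q) →
      (∀ y ∈ unnat N, topOf y = t → y ∉ Q → y ∈ E) →
      (∀ a c, a ≤ c → c ∈ E ∪ (unnat N \ Q) → a ∈ E ∪ (unnat N \ Q)) ∧
      (∀ y ∈ E ∪ (unnat N \ Q), i < lev y) ∧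
      (∀ y ∈ E ∪ (unnat N \ Q), ¬ (y ∉ unnat N ∧ B (topOf y) y)) ∧
      (∀ y, topOf y = t → (y ∈ E ↔ y ∈ E ∪ (unnat N \ Q))) := by
    intro Q hQ hQl hQE
    refine ⟨?_, ?_, ?_, ?_⟩
    · intro a c hac hc
      rw [mem_union] at hc ⊢
      exact hc.imp (hEl a c hac) (hQl a c hac)
    · intro y hy
      rw [mem_union] at hy
      exact hy.elim (hElev y) (fun h => hRlev y (mem_sdiff.mp h).1)
    · intro y hy
      rw [mem_union] at hy
      exact hy.elim (hEB y) (fun h h2 => h2.1 (mem_sdiff.mp h).1)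
    · intro y hy
      rw [mem_union]
      refine ⟨Or.inl, fun h => h.elim id (fun h => ?_)⟩
      rw [mem_sdiff] at h
      exact hQE y h.1 hy h.2
  by_cases hcase : ∀ y ∈ unnat N, topOf y = t → y ∈ E
  · -- no unnatural element
    obtain ⟨p1, p2, p3, p4⟩ := hplus ∅ (Finset.empty_subset _) (fun a c hac hc => by
      rw [Finset.sdiff_empty] at hc ⊢
      exact HN.lower a c hac hc) (fun y hy hyt _ => hcase y hy hyt)
    refine dvd_region p4 ?_
    refine ((H t).data N HN rfl (fun x => θ (topOf x) x) (fun x => x ∉ unnat N ∧ B (topOf x) x)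
      ?_ ?_).clean _ ⟨p1, ?_, p2, p3⟩ inferInstance
    · intro x hx
      simp only [HN.topOf_eq hx]
    · intro x hx
      simp only [HN.topOf_eq hx, (HN.mem_iff.mp hx).1, not_false_eq_true, true_and]
    · rw [Finset.sdiff_empty]
      exact subset_union_right
  -- there is a twin
  obtain ⟨x', hx'f, hx't, hx'E⟩ : ∃ x' ∈ Yf, topOf x' = t ∧ x' ∉ E := by
    push Not at hcase
    obtain ⟨y, hyU, hyt, hyE⟩ := hcase
    by_cases hyF : y ∈ Yf
    · exact ⟨y, hyF, hyt, hyE⟩
    · have hyZ : y ∈ Z := by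
        by_contra hyZ
        exact hyE (hER (mem_sdiff.mpr ⟨mem_sdiff.mpr ⟨hyU, hyF⟩, hyZ⟩))
      exact ⟨π y, F.penF y hyZ, by rw [← F.top_pen T HN hyZ]; exact hyt,
        fun h => hyE (hEl _ _ (F.lt hyZ).le h)⟩
  have hx'Y := F.sub hx'f
  have hx'U := T.sub hx'Y
  have hx'n : x' ∉ Y \ Yf := fun h => (mem_sdiff.mp h).2 hx'f
  have hx'D : x' ∉ D := fun h => hx'E ((hmE x' hx'U hx't hx'n).mpr h)
  obtain ⟨Nc, co, m, hF, hN, hbt, hBt⟩ := F.fold x' hx'f
  rw [hx't] at hF hN hbt hBt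
  rw [hbt]
  -- a natural element has another twin
  have hone : ∀ w ∈ Y \ Yf, τ w ≠ τ x' := by
    intro w hw h
    have := T.inj w (mem_sdiff.mp hw).1 x' hx'Y h
    exact (mem_sdiff.mp hw).2 (this ▸ hx'f)
  have hxnat : τ x' ∉ unnat N := T.nat x' hx'Y
  have hxt : topOf (τ x') = t := by rw [T.cp x' hx'Y]; exact hx't
  have hxE : τ x' ∈ E ↔ τ x' ∈ D := by
    rw [hE, mem_exc]
    constructor
    · rintro (h | h)
      · exact (mem_union.mp h.1).elim id (hAR _ hxt)
      · exact absurd (T.sub (mem_sdiff.mp h).1) hxnat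
    · intro h
      exact Or.inl ⟨mem_union_left _ h, fun w hw _ => hone w hw⟩
  have hBE : ∀ y, y ∉ unnat N → (B (topOf y) y → topOf y = t → y ∈ Nc ∧ co y = (2 * (i / 2), i)) := by
    intro y _ h hy
    rw [hy] at h
    exact (hBt y).mp h
  have hNcn : ∀ y ∈ Nc, y ∉ unnat N ∧ topOf y = t := fun y hy =>
    HN.mem_iff.mp (by rw [hN]; exact mem_natS.mpr (Or.inl hy))
  have hbase : ∀ Q : Finset P, (∀ y ∈ Q, ¬ (y ∉ unnat N ∧ B (topOf y) y)) →
      ∀ y ∈ Q, ¬ (y ∈ Nc ∧ co y = (2 * (i / 2), i)) := by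
    intro Q hQ y hy h
    refine hQ y hy ⟨(hNcn y h.1).1, ?_⟩
    rw [(hNcn y h.1).2]
    exact (hBt y).mpr h
  have hlowx' : ∀ a c : P, a ≤ c → c ∈ unnat N \ {x'} → a ∈ unnat N \ {x'} := by
    intro a c hac hc
    rw [mem_sdiff, mem_singleton] at hc ⊢
    refine ⟨HN.lower a c hac hc.1, fun h => ?_⟩
    subst h
    rcases eq_or_lt_of_le hac with h | h
    · exact hc.2 h.symm
    · exact T.top_unnat HN hx'Y h hc.1
  by_cases hpen : ∃ z ∈ Z, π z = x' ∧ z ∉ E
  · -- a pendant
    obtain ⟨z, hz, hzx, hzE⟩ := hpen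
    have hzU := F.penU z hz
    have hzt : topOf z = t := by rw [F.top_pen T HN hz, hzx]; exact hx't
    have hzn : z ∉ Y \ Yf := fun h => F.penY z hz (mem_sdiff.mp h).1
    have hzD : z ∉ D := fun h => hzE ((hmE z hzU hzt hzn).mpr h)
    have hxD : τ x' ∈ D := by
      rcases hb x' hx'Y hx't with h | h | h
      · exact h
      · exact absurd h hx'D
      · exact absurd (h.2.2 z (hzx ▸ F.lt hz)) hzD
    obtain ⟨p1, p2, p3, p4⟩ := hplus {x', z} (by
        intro y hy
        rw [mem_insert, mem_singleton] at hy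
        rcases hy with rfl | rfl
        · exact hx'U
        · exact hzU) (by
        intro a c hac hc
        rw [mem_sdiff, mem_insert, mem_singleton, not_or] at hc ⊢
        have h1 := hlowx' a c hac (mem_sdiff.mpr ⟨hc.1, by rw [mem_singleton]; exact hc.2.1⟩)
        rw [mem_sdiff, mem_singleton] at h1
        refine ⟨h1.1, h1.2, fun h => ?_⟩
        subst h
        rcases eq_or_lt_of_le hac with h | h
        · exact hc.2.2 h.symm
        · exact hc.2.1 ((F.above T HN hz h hc.1).trans hzx)) (by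
        intro y hyU hyt hyQ
        rw [mem_insert, mem_singleton, not_or] at hyQ
        by_contra hyE
        have hyn : y ∉ Yf := fun h => hyQ.1 (F.uniq y h x' hx'f (hyt.trans hx't.symm))
        have hyZ : y ∈ Z := by
          by_contra hyZ
          exact hyE (hER (mem_sdiff.mpr ⟨mem_sdiff.mpr ⟨hyU, hyn⟩, hyZ⟩))
        have h1 : π y = x' := F.uniq _ (F.penF y hyZ) x' hx'f (by
          rw [← F.top_pen T HN hyZ]; exact hyt.trans hx't.symm)
        have hyn' : y ∉ Y \ Yf := fun h => F.penY y hyZ (mem_sdiff.mp h).1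
        have hyD : y ∉ D := fun h => hyE ((hmE y hyU hyt hyn').mpr h)
        rcases hbz y hyZ z hz hyt hyQ.2 (h1.trans hzx.symm) with h | h
        · exact hyD h
        · exact hzD h)
    refine dvd_region p4 ?_
    refine hF.clean_pen (z := z) hgr HN hN (fun y hy h => low_natural H hy h) hzU
      (fun y => by rw [← hzx]; exact F.pen z hz y) p1 p2 (hbase _ p3) ?_
      (mem_union_left _ (hxE.mpr hxD))
    intro y hy h1 h2
    exact mem_union_right _ (mem_sdiff.mpr ⟨hy, by
      rw [mem_insert, mem_singleton, not_or]; exact ⟨h1, h2⟩⟩)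
  · push Not at hpen
    obtain ⟨p1, p2, p3, p4⟩ := hplus {x'} (by
        intro y hy
        rw [mem_singleton] at hy
        rw [hy]; exact hx'U) hlowx' (by
        intro y hyU hyt hyQ
        rw [mem_singleton] at hyQ
        by_contra hyE
        have hyn : y ∉ Yf := fun h => hyQ (F.uniq y h x' hx'f (hyt.trans hx't.symm))
        have hyZ : y ∈ Z := by
          by_contra hyZ
          exact hyE (hER (mem_sdiff.mpr ⟨mem_sdiff.mpr ⟨hyU, hyn⟩, hyZ⟩))
        have h1 : π y = x' := F.uniq _ (F.penF y hyZ) x' hx'f (by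
          rw [← F.top_pen T HN hyZ]; exact hyt.trans hx't.symm)
        exact hyE (hpen y hyZ h1))
    refine dvd_region p4 ?_
    by_cases hxD : τ x' ∈ D
    · -- exchange
      have T1 : TwSys (unnat N) {x'} topOf τ :=
        { sub := by
            intro y hy
            rw [mem_singleton] at hy
            rw [hy]; exact hx'U
          nat := fun y hy => by
            rw [mem_singleton] at hy
            rw [hy]; exact hxnat
          up := fun y hy => by
            rw [mem_singleton] at hy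
            rw [hy]; exact T.up x' hx'Y
          inj := fun y hy w hw _ => by
            rw [mem_singleton] at hy hw
            rw [hy, hw]
          anti := fun y hy w hw => by
            rw [mem_singleton] at hy hw
            rw [hy, hw]; exact lt_irrefl _
          cp := fun y hy => by
            rw [mem_singleton] at hy
            rw [hy]; exact T.cp x' hx'Y }
      have hg3 : Good i (unnat N \ {x'}) (fun x => x ∉ unnat N ∧ B (topOf x) x)
          (E ∪ (unnat N \ {x'})) := ⟨p1, subset_union_right, p2, p3⟩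
      refine T1.dvd_W HN.lower hg3 ?_ ?_
      · intro s hs
        rw [mem_pairsX, mem_singleton] at hs
        left
        rw [hs.2, hs.1]
        exact mem_union_left _ (hxE.mpr hxD)
      · rw [← hbt]
        refine ((H t).data N HN rfl (fun x => θ (topOf x) x)
          (fun x => x ∉ unnat N ∧ B (topOf x) x) ?_ ?_).clean _
          (T1.good_exc HN.lower hRlev (fun x hx h => h.1 hx) hg3) inferInstance
        · intro x hx
          simp only [HN.topOf_eq hx]
        · intro x hx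
          simp only [HN.topOf_eq hx, (HN.mem_iff.mp hx).1, not_false_eq_true, true_and]
    · -- both
      have hmin : (∀ a < τ x', a ∈ D) ∧ ∀ a < x', a ∈ D := by
        rcases hb x' hx'Y hx't with h | h | h
        · exact absurd h hxD
        · exact absurd h hx'D
        · exact h.2
      refine hF.clean_both HN hN p1 (hbase _ p3) ?_ ?_ ?_ hx't ?_ ?_
      · intro y hy h1
        exact mem_union_right _ (mem_sdiff.mpr ⟨hy, by rw [mem_singleton]; exact h1⟩)
      · rw [mem_union, not_or]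
        exact ⟨fun h => hxD (hxE.mp h), fun h => hxnat (mem_sdiff.mp h).1⟩
      · rw [mem_union, not_or]
        exact ⟨hx'E, fun h => (mem_sdiff.mp h).2 (mem_singleton.mpr rfl)⟩
      · intro y hy
        have hyD := hmin.1 y hy
        refine mem_union_left _ ?_
        rw [hE, mem_exc]
        refine Or.inl ⟨mem_union_left _ hyD, fun w hw hwD hwy => hwD ?_⟩
        refine mem_union_left _ (hmin.1 w ?_)
        rw [← T.up w (mem_sdiff.mp hw).1, hwy]
        exact hy
      · intro y hy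
        have hyD := hmin.2 y hy
        refine mem_union_left _ ?_
        rw [hE, mem_exc]
        refine Or.inl ⟨mem_union_left _ hyD, fun w hw hwD hwy => hwD ?_⟩
        refine mem_union_left _ (hmin.2 w ?_)
        rw [← T.up w (mem_sdiff.mp hw).1, hwy]
        exact hy

end Sys

end Pool.Agent.GaussPoset

end

/-! From `Pool.Agent.W_448f4_h70.JE` -/

section

/-!
Systems with twins of the cells `(m, m + 1)`: the family of lower sets and the thresholds
(MP_448cb3_co, S7).
-/

namespace Pool.Agent.GaussPoset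

set_option linter.unusedSectionVars false

open Polynomial Finset

universe u

variable {P : Type u} [Fintype P] [PartialOrder P] [DecidableEq P]

/-- the thresholds with pendants -/
def thZ (Z : Finset P) (π : P → P) (th : P → ℕ) (x : P) : ℕ := if x ∈ Z then th (π x) + 1 else th x

lemma thZ_of {Z : Finset P} {π : P → P} {th : P → ℕ} {x : P} (h : x ∈ Z) :
    thZ Z π th x = th (π x) + 1 := if_pos h

lemma thZ_not {Z : Finset P} {π : P → P} {th : P → ℕ} {x : P} (h : x ∉ Z) :
    thZ Z π th x = th x := if_neg h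

/-- the pairs of pendants of one twin -/
def pairsZ (Z : Finset P) (π : P → P) : Finset (P × P) :=
  (Z ×ˢ Z).filter (fun t => t.1 ≠ t.2 ∧ π t.1 = π t.2)

lemma mem_pairsZ {Z : Finset P} {π : P → P} {t : P × P} :
    t ∈ pairsZ Z π ↔ (t.1 ∈ Z ∧ t.2 ∈ Z) ∧ t.1 ≠ t.2 ∧ π t.1 = π t.2 := by
  unfold pairsZ
  rw [mem_filter, mem_product]

section Sys

variable {i : ℕ} {N : Tops P → Finset P} {b : Tops P → ℕ} {θ : Tops P → P → ℕ}
  {B : Tops P → P → Prop} {Y Yf Z : Finset P} {τ π : P → P}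

/-- the far set `R⁺ = (unnat N \ Y) \ Z` is a lower set -/
lemma FoldSys.lower (F : FoldSys i N b B Y Yf Z τ π) (T : TwSys (unnat N) Y topOf τ)
    (HN : NatSys N) : ∀ a c, a ≤ c → c ∈ (unnat N \ Y) \ Z → a ∈ (unnat N \ Y) \ Z := by
  intro a c hac hc
  rw [mem_sdiff] at hc ⊢
  rcases eq_or_lt_of_le hac with h | h
  · rw [h]; exact hc
  · refine ⟨T.lower HN.lower a c hac hc.1, fun h1 => ?_⟩
    have hcU := (mem_sdiff.mp hc.1).1
    have h2 := F.above T HN h1 h hcU
    exact (mem_sdiff.mp hc.1).2 (h2 ▸ F.sub (F.penF a h1))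

/-- the parts -/
lemma FoldSys.cp (F : FoldSys i N b B Y Yf Z τ π) (T : TwSys (unnat N) Y topOf τ)
    (HN : NatSys N) : ∀ x y, x ≤ y → x ∉ (unnat N \ Y) \ Z → topOf x = topOf y := by
  intro x y hxy hx
  by_cases hxZ : x ∈ Z
  · rcases eq_or_lt_of_le hxy with h | h
    · rw [h]
    · rw [F.top_pen T HN hxZ]
      have hY := F.sub (F.penF x hxZ)
      refine T.cp' HN.cp _ y ((F.pen x hxZ y).mp h) (fun h2 => (mem_sdiff.mp h2).2 hY)
  · exact T.cp' HN.cp x y hxy (fun h => hx (mem_sdiff.mpr ⟨h, hxZ⟩))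

/-- component data with twins, without the elements `Z` -/
lemma compT_of (H : ∀ t, NatTop i t (b t) (N t) (θ t) (B t)) (T : TwSys (unnat N) Y topOf τ)
    (t : Tops P) : CompDataT (unnat N \ Y) topOf t i (b t) (thX Y τ (fun x => θ (topOf x) x))
      (fun x => x ∉ unnat N ∧ B (topOf x) x) (pairsX Y τ) := by
  have HN := natSys_of_tops H
  refine CompData.toTwins ((H t).data N HN rfl _ _ ?_ ?_) T HN.lower
    (fun x hx => by
      by_contra hcon
      exact low_natural H (not_lt.mp hcon) hx) (fun x hx h => h.1 hx)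
  · intro x hx
    simp only [HN.topOf_eq hx]
  · intro x hx
    simp only [HN.topOf_eq hx, (HN.mem_iff.mp hx).1, not_false_eq_true, true_and]

/-- the thresholds, zero on the far set -/
noncomputable def thPen (N : Tops P → Finset P) (θ : Tops P → P → ℕ) (Y Z : Finset P) (τ π : P → P)
    (x : P) : ℕ := by
  classical exact if x ∈ (unnat N \ Y) \ Z then 0 else thZ Z π (thX Y τ (fun x => θ (topOf x) x)) x

lemma thPen_of {x : P} (h : x ∉ (unnat N \ Y) \ Z) :
    thPen N θ Y Z τ π x = thZ Z π (thX Y τ (fun x => θ (topOf x) x)) x := by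
  unfold thPen
  exact if_neg h

lemma thPen_not {x : P} (h : 1 ≤ thPen N θ Y Z τ π x) : x ∉ (unnat N \ Y) \ Z := by
  intro h1
  unfold thPen at h
  rw [if_pos h1] at h
  omega

/-- the cover of a pendant -/
lemma FoldSys.cov (F : FoldSys i N b B Y Yf Z τ π) {z y : P} (hz : z ∈ Z) : z ⋖ y ↔ y = π z := by
  constructor
  · intro h
    have h1 := (F.pen z hz y).mp h.1
    rcases eq_or_lt_of_le h1 with h2 | h2
    · exact h2.symm
    · exact absurd h2 (h.2 (F.lt hz))
  · rintro rfl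
    exact ⟨F.lt hz, fun c h1 h2 => absurd ((F.pen z hz c).mp h1) (not_le_of_gt h2)⟩

lemma FoldSys.tw_not (F : FoldSys i N b B Y Yf Z τ π) {z : P} (hz : z ∈ Z) :
    π z ∉ Z ∧ π z ∈ Y ∧ π z ∉ (unnat N \ Y) \ Z := by
  have hY := F.sub (F.penF z hz)
  exact ⟨fun h => F.penY _ h hY, hY, fun h => (mem_sdiff.mp (mem_sdiff.mp h).1).2 hY⟩

/-- **The family of lower sets with the thresholds.** -/
theorem FoldSys.fam (F : FoldSys i N b B Y Yf Z τ π) (T : TwSys (unnat N) Y topOf τ)
    (hgr : GradedBelow P) (H : ∀ t, NatTop i t (b t) (N t) (θ t) (B t)) :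
    (∀ x, 1 ≤ thPen N θ Y Z τ π x → i < lev x) ∧ (∀ x, thPen N θ Y Z τ π x ≤ lev x - i) ∧
    (∀ D, Good i ((unnat N \ Y) \ Z) (fun x => x ∉ unnat N ∧ B (topOf x) x) D → ∀ x, x ∉ D →
      1 ≤ thPen N θ Y Z τ π x →
      Good i ((unnat N \ Y) \ Z) (fun x => x ∉ unnat N ∧ B (topOf x) x) (D ∪ dnf x)) ∧
    (∀ D, Good i ((unnat N \ Y) \ Z) (fun x => x ∉ unnat N ∧ B (topOf x) x) D → ∀ x, x ∉ D →
      1 ≤ thPen N θ Y Z τ π x → ∀ y ≤ x, y ∉ D → ∀ x', y ⋖ x' → ¬ x' ≤ x →
      thPen N θ Y Z τ π x ≤ thPen N θ Y Z τ π x' + 1) := by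
  have HN := natSys_of_tops H
  have HT := compT_of H T
  have hRlev : ∀ x ∈ unnat N, i < lev x := by
    intro x hx
    by_contra hcon
    exact low_natural H (not_lt.mp hcon) hx
  have hR1 : ∀ {x}, x ∉ (unnat N \ Y) \ Z → x ∉ Z → x ∉ unnat N \ Y := fun h1 h2 h3 =>
    h1 (mem_sdiff.mpr ⟨h3, h2⟩)
  have hlev : ∀ x, 1 ≤ thPen N θ Y Z τ π x → i < lev x := by
    intro x hx
    have h1 := thPen_not hx
    rw [thPen_of h1] at hx
    by_cases hxZ : x ∈ Z
    · exact hRlev x (F.penU x hxZ)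
    · rw [thZ_not hxZ] at hx
      exact (HT (topOf x)).lev x (hR1 h1 hxZ) rfl hx
  refine ⟨hlev, ?_, ?_, ?_⟩
  · intro x
    by_cases h1 : x ∈ (unnat N \ Y) \ Z
    · unfold thPen
      rw [if_pos h1]
      exact Nat.zero_le _
    · rw [thPen_of h1]
      by_cases hxZ : x ∈ Z
      · rw [thZ_of hxZ]
        have h2 := hgr.lev_covBy ((F.cov hxZ).mpr rfl)
        obtain ⟨-, h3, -⟩ := F.tw_not hxZ
        have h4 := (HT (topOf (π x))).le (π x) (fun h => (mem_sdiff.mp h).2 h3) rfl
        have h5 := hRlev _ (T.sub h3)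
        omega
      · rw [thZ_not hxZ]
        exact (HT (topOf x)).le x (hR1 h1 hxZ) rfl
  · intro D hD x hx hθx
    have h1 := thPen_not hθx
    have hlx := hlev x hθx
    refine ⟨?_, hD.2.1.trans subset_union_left, ?_, ?_⟩
    · intro a c hac hc
      rw [mem_union, mem_dnf] at hc ⊢
      rcases hc with hc | hc
      · exact Or.inl (hD.1 a c hac hc)
      · exact Or.inr (hac.trans hc)
    · intro a ha
      rw [mem_union, mem_dnf] at ha
      rcases ha with ha | ha
      · exact hD.2.2.1 a ha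
      · rcases eq_or_lt_of_le ha with h | h
        · rw [h]; exact hlx
        · have := lev_strictAnti h; omega
    · intro a ha
      rw [mem_union, mem_dnf] at ha
      rcases ha with ha | ha
      · exact hD.2.2.2 a ha
      · rintro ⟨h2, h3⟩
        have hxU : x ∉ unnat N := fun h => h2 (HN.lower a x ha h)
        have hxZ : x ∉ Z := fun h => hxU (F.penU x h)
        rw [thPen_of h1, thZ_not hxZ] at hθx
        exact (HT (topOf x)).base x (hR1 h1 hxZ) rfl hθx a ha
          (fun h => h2 (mem_sdiff.mp h).1) ⟨h2, h3⟩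
  · intro D hD x hx hθx y hyx hyD x' hyx' hx'x
    have h1 := thPen_not hθx
    have hyR : y ∉ (unnat N \ Y) \ Z := fun h => hyD (hD.2.1 h)
    have hx'R : x' ∉ (unnat N \ Y) \ Z := fun h => hyR (F.lower T HN y x' hyx'.1.le h)
    rw [thPen_of h1] at hθx ⊢
    rw [thPen_of hx'R]
    by_cases hyZ : y ∈ Z
    · have h2 := (F.cov hyZ).mp hyx'
      have hyx2 : y = x := by
        by_contra hne
        exact hx'x (h2 ▸ (F.pen y hyZ x).mp (lt_of_le_of_ne hyx hne))
      subst hyx2
      rw [thZ_of hyZ, h2, thZ_not (F.tw_not hyZ).1]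
    · have hyR1 := hR1 hyR hyZ
      have hx'Z : x' ∉ Z := by
        intro h
        apply hyR1
        refine mem_sdiff.mpr ⟨HN.lower y x' hyx'.1.le (F.penU x' h), fun h2 => ?_⟩
        exact T.top_unnat HN h2 hyx'.1 (F.penU x' h)
      have hxZ : x ∉ Z := by
        intro h
        rcases eq_or_lt_of_le hyx with h2 | h2
        · exact hyZ (h2 ▸ h)
        · apply hyR1
          refine mem_sdiff.mpr ⟨HN.lower y x hyx (F.penU x h), fun h3 => ?_⟩
          exact T.top_unnat HN h3 h2 (F.penU x h)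
      rw [thZ_not hxZ] at hθx ⊢
      rw [thZ_not hx'Z]
      exact (HT (topOf x)).step x (hR1 h1 hxZ) rfl hθx y hyx hyR1 x' (hR1 hx'R hx'Z) hyx' hx'x

/-- **The regions.** -/
theorem FoldSys.c0 (F : FoldSys i N b B Y Yf Z τ π) (T : TwSys (unnat N) Y topOf τ)
    (hgr : GradedBelow P) (H : ∀ t, NatTop i t (b t) (N t) (θ t) (B t)) {D : Finset P}
    (hD : Good i ((unnat N \ Y) \ Z) (fun x => x ∉ unnat N ∧ B (topOf x) x) D)
    (hb : ∀ y ∈ Y, τ y ∈ D ∨ y ∈ D ∨ (y ∈ Yf ∧ (∀ a < τ y, a ∈ D) ∧ ∀ a < y, a ∈ D))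
    (hbz : ∀ z1 ∈ Z, ∀ z2 ∈ Z, z1 ≠ z2 → π z1 = π z2 → z1 ∈ D ∨ z2 ∈ D) (n : ℕ) :
    (1 + X : ℤ[X]) ^ (∑ t, b t) ∣ ZB i D 0 0 n := by
  classical
  have HN := natSys_of_tops H
  rw [ZB_off hD.1 hD.2.2.1]
  refine dvd_Z_of_dvd_W ?_ n
  refine dvd_W_prod (fun x : {x : P // x ∉ D} => topOf (x : P)) ?_ i b fun t => ?_
  · intro x y hxy
    exact F.cp T HN x y hxy fun h => x.2 (hD.2.1 h)
  · exact F.clean_part T hgr H hD t (fun y hy _ => hb y hy) (fun z1 h1 z2 h2 _ => hbz z1 h1 z2 h2)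

end Sys

end Pool.Agent.GaussPoset

end

/-! From `Pool.Agent.W_448f4_h70.JF` -/

section

/-!
Two high labels on a cell `(m, m + 1)` and its twin are clean below the energy `M0 + θ + 2`: the
elements of higher level are peeled (MP_448cb3_co, S7).
-/

namespace Pool.Agent.GaussPoset

set_option linter.unusedSectionVars false

open Polynomial Finset

universe u

variable {P : Type u} [Fintype P] [PartialOrder P] [DecidableEq P]

section Cost

variable {i : ℕ} {D : Finset P} {g β e : P → ℕ} {F : Finset P}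

/-- labels above an element with a bound -/
lemma Cst.min_le (hC : Cst i D g β e F) {x y : P} (hx : x ∉ D) (hxy : x ≤ y) :
    min (β x) (lev y - i) ≤ e y := by
  obtain ⟨hV, -, hβ⟩ := hC
  by_cases hyF : y ∈ F
  · exact (min_le_right _ _).trans (sub_le_of_mem hV hyF)
  · have hxF : x ∉ F := fun h => hyF (hV.1 x y hxy h)
    have h1 := hβ x hx hxF
    have h2 := hV.2.2.1 x y hxy hxF hyF
    have h3 := rho_le i e y
    refine (min_le_left _ _).trans ?_
    omega

/-- no configuration of small energy -/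
lemma ZB_zero_of_cost (c : P → ℕ) (hc : ∀ y, c y = 0 ∨ ∃ x ≤ y, x ∉ D ∧
    c y ≤ min (β x) (lev y - i)) {n : ℕ} (hn : n < ∑ y, c y) : ZB i D g β n = 0 := by
  classical
  unfold ZB
  refine Finset.sum_eq_zero fun F _ => ?_
  rw [Finset.filter_eq_empty_iff.mpr, Finset.sum_empty]
  rintro e he hC
  rw [mem_piAntidiag] at he
  have h1 : ∑ y, c y ≤ ∑ y, e y := by
    refine Finset.sum_le_sum fun y _ => ?_
    rcases hc y with h | ⟨x, hxy, hx, h⟩
    · rw [h]; exact Nat.zero_le _
    · exact h.trans (hC.min_le hx hxy)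
  have h2 : ∑ y, e y = n := he.1
  omega

/-- no configuration of small energy above a pair of twins with high labels -/
lemma T_cost {x x' : P} {k : ℕ} (hup : ∀ u, x < u ↔ x' < u) (hx' : x' ∉ D)
    (hβ : k + 1 ≤ β x') (w : P → ℕ) (hw0 : ∀ u, x < u → w u = 0)
    (hw : ∀ y, w y = 0 ∨ ∃ x ≤ y, x ∉ D ∧ w y ≤ min (β x) (lev y - i)) {n : ℕ}
    (hn : n < ∑ u, (by classical exact if x < u then min (k + 1) (lev u - i) else 0) +
      ∑ u, w u) : ZB i D g β n = 0 := by
  classical
  refine ZB_zero_of_cost (fun u => (if x < u then min (k + 1) (lev u - i) else 0) + w u) ?_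
    (by rw [Finset.sum_add_distrib]; exact hn)
  intro u
  by_cases h : x < u
  · right
    refine ⟨x', ((hup u).mp h).le, hx', ?_⟩
    rw [if_pos h, hw0 u h, add_zero]
    exact min_le_min hβ le_rfl
  · rw [if_neg h, zero_add]
    exact hw u

lemma sum_four {x x' y c0 : P} (a a' K K' : ℕ) :
    ∑ u : P, ((if u = x then a else 0) + (if u = x' then a' else 0) + (if u = y then K else 0) +
      (if u = c0 then K' else 0)) = a + a' + K + K' := by
  rw [Finset.sum_add_distrib, Finset.sum_add_distrib, Finset.sum_add_distrib,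
    Finset.sum_ite_eq' univ x, Finset.sum_ite_eq' univ x', Finset.sum_ite_eq' univ y,
    Finset.sum_ite_eq' univ c0, if_pos (mem_univ _), if_pos (mem_univ _), if_pos (mem_univ _),
    if_pos (mem_univ _)]

end Cost

section Sys

variable {i : ℕ} {N : Tops P → Finset P} {b : Tops P → ℕ} {θ : Tops P → P → ℕ}
  {B : Tops P → P → Prop} {Y Yf Z : Finset P} {τ π : P → P}

/-- the least cost of a pair with high labels -/
noncomputable def cM (i k : ℕ) (x : P) : ℕ :=
  ∑ u, (by classical exact if x < u then min (k + 1) (lev u - i) else 0) + (2 * k + 1)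

/-- the hypotheses on the position of a twin of a cell `(m, m + 1)` -/
structure FoldPos (i : ℕ) (N : Tops P → Finset P) (θ : Tops P → P → ℕ) (B : Tops P → P → Prop)
    (Y Z : Finset P) (τ π : P → P) (k : ℕ) (x' : P) : Prop where
  th : thX Y τ (fun x => θ (topOf x) x) x' = k
  pos : 1 ≤ k
  lev : i + k + 2 ≤ Pool.Agent.GaussPoset.lev x'
  yl : ∀ y ∈ Y, Pool.Agent.GaussPoset.lev x' ≤ Pool.Agent.GaussPoset.lev y
  dc : ∀ c, x' ⋖ c → ∀ y, y ⋖ c → y = τ x' ∨ y = x'
  bl : ∀ y, y ∉ unnat N → B (topOf y) y →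
    Pool.Agent.GaussPoset.lev y < Pool.Agent.GaussPoset.lev x'
  low : ∀ y, Pool.Agent.GaussPoset.lev y + 1 = Pool.Agent.GaussPoset.lev x' →
    (k + 1) / 2 ≤ thPen N θ Y Z τ π y

/-- the end of the peeling: everything of level at least `lev x'` is frozen -/
theorem FoldSys.fold_end (F : FoldSys i N b B Y Yf Z τ π) (T : TwSys (unnat N) Y topOf τ)
    (hgr : GradedBelow P) (H : ∀ t, NatTop i t (b t) (N t) (θ t) (B t)) {x' : P} (hx' : x' ∈ Yf)
    {k : ℕ} (Q : FoldPos i N θ B Y Z τ π k x') {D : Finset P}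
    (hD : Good i ((unnat N \ Y) \ Z) (fun x => x ∉ unnat N ∧ B (topOf x) x) D)
    (hxD : τ x' ∉ D) (hx'D : x' ∉ D)
    (hall : ∀ y, lev x' ≤ lev y → y ≠ τ x' → y ≠ x' → y ∈ D) {β : P → ℕ} (h1 : β (τ x') = k)
    (h2 : β x' = k + 1) (h3 : ∀ c, lev c + 1 = lev x' → β c ≤ (k + 1) / 2)
    (h4 : ∀ c, lev c + 1 < lev x' → β c = 0) (n : ℕ) :
    (1 + X : ℤ[X]) ^ (∑ t, b t) ∣ ZB i D 0 β n := by
  classical
  have HN := natSys_of_tops H
  have hY := F.sub hx'
  have hup := T.up x' hY
  have hnat := T.nat x' hY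
  have hll : lev (τ x') = lev x' := lev_eq_of_up hup
  have hne : τ x' ≠ x' := fun h => hnat (by rw [h]; exact T.sub hY)
  obtain ⟨f1, f2, f3, f4⟩ := F.fam T hgr H
  have hQ := Q.lev
  have hk := Q.pos
  have hxR : τ x' ∉ (unnat N \ Y) \ Z := fun h => hnat (mem_sdiff.mp (mem_sdiff.mp h).1).1
  have hx'R : x' ∉ (unnat N \ Y) \ Z := fun h => (mem_sdiff.mp (mem_sdiff.mp h).1).2 hY
  have hx'Z : x' ∉ Z := fun h => F.penY x' h hY
  have hxZ : τ x' ∉ Z := fun h => hnat (F.penU _ h)
  have hxY : τ x' ∉ Y := fun h => hnat (T.sub h)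
  have ht' : thPen N θ Y Z τ π x' = k := by rw [thPen_of hx'R, thZ_not hx'Z]; exact Q.th
  have ht : thPen N θ Y Z τ π (τ x') = k := by
    rw [thPen_of hxR, thZ_not hxZ, thX_not hxY]
    have := Q.th
    rw [thX_of hY] at this
    exact this
  set DD : Set (Finset P) := {E | Good i ((unnat N \ Y) \ Z)
    (fun x => x ∉ unnat N ∧ B (topOf x) x) E ∧ D ⊆ E} with hDD
  have hb := dvd_ZB_bounds i ((1 + X : ℤ[X]) ^ (∑ t, b t)) DD (thPen N θ Y Z τ π)
    (fun E hE => hE.1.1) (fun E hE => hE.1.2.2.1) f1 (fun E hE n => F.c0 T hgr H hE.1 ?_ ?_ n)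
    (fun E hE x hx hθ => ⟨f3 E hE.1 x hx hθ, hE.2.trans subset_union_left⟩)
    (fun E hE x hx hθ y hyx hyE w hyw hwx => f4 E hE.1 x hx hθ y hyx hyE w hyw hwx)
  rotate_left
  · intro y hy
    by_cases hyx : y = x'
    · right; right
      rw [hyx]
      refine ⟨hx', fun a ha => hE.2 ?_, fun a ha => hE.2 ?_⟩
      · have := lev_strictAnti ha
        refine hall a (by omega) ha.ne ?_
        rintro rfl
        omega
      · have := lev_strictAnti ha
        refine hall a (by omega) ?_ ha.ne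
        rintro rfl
        omega
    · exact Or.inr (Or.inl (hE.2 (hall y (Q.yl y hy) (fun h => hxY (h ▸ hy)) hyx)))
  · intro z1 hz1 z2 _ _ _
    have e1 := lev_strictAnti (F.lt hz1)
    have e2 := Q.yl _ (F.sub (F.penF z1 hz1))
    refine Or.inl (hE.2 (hall z1 (by omega) ?_ ?_))
    · rintro rfl
      omega
    · rintro rfl
      omega
  -- the bounds `k, k` minus the frozen label `k` on `x'`
  have hβ1 : ∀ y, y ∉ D → Function.update β x' k y ≤ thPen N θ Y Z τ π y := by
    intro y hy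
    by_cases hyx' : y = x'
    · rw [hyx', Function.update_self, ht']
    rw [Function.update_of_ne hyx']
    by_cases hyx : y = τ x'
    · rw [hyx, h1, ht]
    · have hly : lev y < lev x' := by
        by_contra hcon
        exact hy (hall y (not_lt.mp hcon) hyx hyx')
      rcases Nat.lt_or_ge (lev y + 1) (lev x') with h | h
      · rw [h4 y h]; exact Nat.zero_le _
      · exact (h3 y (by omega)).trans (Q.low y (by omega))
  have hDi : D ∈ DD := ⟨hD, Subset.refl D⟩
  have hu : Function.update (Function.update β x' k) x' (k + 1) = β := by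
    rw [Function.update_idem, ← h2, Function.update_eq_self]
  have hlx' : i < lev x' := by omega
  have key := dvd_ZB_step_up (i := i) (g := 0) (Function.update β x' k) x' hx'D hlx'
    ((1 + X : ℤ[X]) ^ (∑ t, b t)) n (hb D hDi _ hβ1 n) ?_
  · rw [Function.update_self, hu] at key
    exact key
  · intro g' hG
    obtain ⟨g1, g2, g3, g4, g5⟩ := hG
    rw [Function.update_self] at g2
    have hE : D ∪ dnf x' ∈ DD := ⟨f3 D hD x' hx'D (by omega), subset_union_left⟩
    have hEm : ∀ y, y ∈ D ∪ dnf x' ↔ y ∈ D ∨ y = x' := by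
      intro y
      rw [mem_union, mem_dnf]
      constructor
      · rintro (h | h)
        · exact Or.inl h
        · rcases eq_or_lt_of_le h with h | h
          · exact Or.inr h
          · have := lev_strictAnti h
            refine Or.inl (hall y (by omega) ?_ h.ne)
            rintro rfl
            omega
      · rintro (h | h)
        · exact Or.inl h
        · exact Or.inr h.le
    refine dvd_ZB_shift _ hE.1.1 hE.1.2.2.1 g5 _ (fun n => ?_) n
    rw [ZB_redundant (β := Function.update β x' k)]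
    · refine hb _ hE _ (fun y hy => hβ1 y (fun h => hy (mem_union_left _ h))) n
    · intro y _
      exact le_bg _ _ _ y
    · intro y hy
      rw [hEm, not_or] at hy
      have hg0 : ∀ d ∈ D ∪ dnf x', d ≠ x' → g' d = 0 := by
        intro d hd hdx
        exact g1 d (((hEm d).mp hd).resolve_right hdx)
      by_cases hxy : x' ⋖ y
      · right
        refine ⟨τ x', ((hup y).mpr hxy.1).le, ?_, ?_⟩
        · rw [hEm]
          rintro (h | h)
          · exact hxD h
          · exact hne h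
        · rw [Function.update_of_ne hne, h1]
          refine bg_le ?_ ?_
          · rw [Function.update_of_ne hy.2]
            have h5 := hgr.lev_covBy hxy
            exact (h3 y (by omega)).trans (by omega)
          · intro d hd _
            by_cases hdx : d = x'
            · rw [hdx, g2]
            · rw [hg0 d hd hdx]; exact Nat.zero_le _
      · left
        refine bg_le le_rfl ?_
        intro d hd hdy
        by_cases hdx : d = x'
        · exact absurd (hdx ▸ hdy) hxy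
        · rw [hg0 d hd hdx]; exact Nat.zero_le _

/-- **Two high labels on a cell `(m, m + 1)` and its twin are clean below `M0 + k + 2`.** -/
theorem FoldSys.fold_T (F : FoldSys i N b B Y Yf Z τ π) (T : TwSys (unnat N) Y topOf τ)
    (hgr : GradedBelow P) (H : ∀ t, NatTop i t (b t) (N t) (θ t) (B t)) {x' : P} (hx' : x' ∈ Yf)
    {k : ℕ} (Q : FoldPos i N θ B Y Z τ π k x') :
    ∀ s : ℕ, ∀ D : Finset P, Good i ((unnat N \ Y) \ Z) (fun x => x ∉ unnat N ∧ B (topOf x) x) D →
      τ x' ∉ D → x' ∉ D →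
      (univ.filter (fun y => y ∉ D ∧ lev x' ≤ lev y ∧ y ≠ τ x' ∧ y ≠ x')).card = s →
      ∀ β : P → ℕ, β (τ x') = k → β x' = k + 1 → (∀ c, lev c + 1 = lev x' → β c ≤ (k + 1) / 2) →
      (∀ c, lev c + 1 < lev x' → β c = 0) → ∀ n < cM i k (τ x') + k + 2,
      (1 + X : ℤ[X]) ^ (∑ t, b t) ∣ ZB i D 0 β n := by
  classical
  have HN := natSys_of_tops H
  have hY := F.sub hx'
  have hup := T.up x' hY
  have hnat := T.nat x' hY
  have hll : lev (τ x') = lev x' := lev_eq_of_up hup
  have hne : τ x' ≠ x' := fun h => hnat (by rw [h]; exact T.sub hY)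
  have hQ := Q.lev
  have hk := Q.pos
  have hdc : ∀ c, τ x' < c ∨ x' < c → ∀ y, y ⋖ c → y = τ x' ∨ y = x' ∨ lev y < lev x' := by
    intro c hc y hyc
    have hc' : x' < c := hc.elim (fun h => (hup c).mp h) id
    have h1 := lev_strictAnti hc'
    have h2 := hgr.lev_covBy hyc
    by_cases h3 : lev c + 1 = lev x'
    · have h4 : x' ⋖ c := by
        refine ⟨hc', fun u hu1 hu2 => ?_⟩
        have := lev_strictAnti hu1
        have := lev_strictAnti hu2
        omega
      rcases Q.dc c h4 y hyc with h | h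
      · exact Or.inl h
      · exact Or.inr (Or.inl h)
    · right; right; omega
  intro s
  induction s using Nat.strong_induction_on with
  | _ s ih =>
  intro D hD hxD hx'D hs β h1 h2 h3 h4 n hn
  by_cases hex : ∃ y, y ∉ D ∧ lev x' ≤ lev y ∧ y ≠ τ x' ∧ y ≠ x'
  swap
  · push Not at hex
    refine F.fold_end T hgr H hx' Q hD hxD hx'D (fun y hy1 hy2 hy3 => ?_) h1 h2 h3 h4 n
    by_contra hcon
    exact hy3 (hex y hcon hy1 hy2)
  -- a minimal element to be peeled
  obtain ⟨y, hy⟩ := (univ.filter (fun y => y ∉ D ∧ lev x' ≤ lev y ∧ y ≠ τ x' ∧ y ≠ x')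
    ).exists_max_image (fun y => lev y) (by
      obtain ⟨y, hy⟩ := hex
      exact ⟨y, mem_filter.mpr ⟨mem_univ _, hy⟩⟩)
  obtain ⟨hy, hymax⟩ := hy
  obtain ⟨-, hyD, hyl, hyx, hyx'⟩ := mem_filter.mp hy
  have hymin : ∀ a < y, a ∈ D := by
    intro a ha
    by_contra haD
    have e1 := lev_strictAnti ha
    have e2 := hymax a (mem_filter.mpr ⟨mem_univ _, haD, by omega, by rintro rfl; omega,
      by rintro rfl; omega⟩)
    omega
  have hly : i < lev y := by omega
  have hEm : ∀ u, u ∈ D ∪ dnf y ↔ u ∈ D ∨ u = y := by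
    intro u
    rw [mem_union, mem_dnf]
    constructor
    · rintro (h | h)
      · exact Or.inl h
      · rcases eq_or_lt_of_le h with h | h
        · exact Or.inr h
        · exact Or.inl (hymin u h)
    · rintro (h | h)
      · exact Or.inl h
      · exact Or.inr h.le
  have hE : Good i ((unnat N \ Y) \ Z) (fun x => x ∉ unnat N ∧ B (topOf x) x) (D ∪ dnf y) := by
    refine ⟨?_, hD.2.1.trans subset_union_left, ?_, ?_⟩
    · intro a c hac hc
      rw [mem_union, mem_dnf] at hc ⊢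
      rcases hc with hc | hc
      · exact Or.inl (hD.1 a c hac hc)
      · exact Or.inr (hac.trans hc)
    · intro a ha
      rw [hEm] at ha
      rcases ha with ha | ha
      · exact hD.2.2.1 a ha
      · rw [ha]; exact hly
    · intro a ha
      rw [hEm] at ha
      rcases ha with ha | ha
      · exact hD.2.2.2 a ha
      · rw [ha]
        intro h
        have := Q.bl y h.1 h.2
        omega
  have hcard : (univ.filter (fun u => u ∉ D ∪ dnf y ∧ lev x' ≤ lev u ∧ u ≠ τ x' ∧ u ≠ x')).card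
      < s := by
    rw [← hs]
    apply Finset.card_lt_card
    rw [Finset.ssubset_iff_of_subset]
    · refine ⟨y, hy, ?_⟩
      rw [mem_filter]
      rintro ⟨-, h, -⟩
      exact h ((hEm y).mpr (Or.inr rfl))
    · intro u hu
      rw [mem_filter] at hu ⊢
      exact ⟨hu.1, fun h => hu.2.1 (mem_union_left _ h), hu.2.2⟩
  -- the cover of `y`
  obtain ⟨v, hv⟩ : ∃ v, y ⋖ v := by
    obtain ⟨v, hv, -⟩ := exists_lev_succ (x := y) (k := lev y - 1) (by omega)
    obtain ⟨u, hu, -⟩ := exists_covBy_le hv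
    exact ⟨u, hu⟩
  -- the least label which costs too much
  obtain ⟨K, hK1, hK2, hK3, hzero⟩ : ∃ K : ℕ, (y ⋖ τ x' → K ≤ k + 1) ∧ (y ⋖ x' → K ≤ k + 2) ∧
      (∀ c, y ⋖ c → lev c + 1 = lev x' → K ≤ (k + 1) / 2 + 1) ∧
      (∀ γ : P → ℕ, γ (τ x') = k → γ x' = k + 1 → K ≤ γ y →
        ∀ n < cM i k (τ x') + k + 2, ZB i D 0 γ n = 0) := by
    have hxy : ∀ u, τ x' < u → u ≠ τ x' ∧ u ≠ x' ∧ u ≠ y := by
      intro u hu
      have e1 := lev_strictAnti hu
      refine ⟨hu.ne', ?_, ?_⟩
      · rintro rfl; omega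
      · rintro rfl; omega
    by_cases hc : ∃ c0, y ⋖ c0 ∧ c0 ≠ τ x' ∧ c0 ≠ x'
    · obtain ⟨c0, hyc, hcx, hcx'⟩ := hc
      have hcy : c0 ≠ y := hyc.1.ne'
      have e1 := hgr.lev_covBy hyc
      refine ⟨(k + 1) / 2 + 1, fun _ => by omega, fun _ => by omega, fun _ _ _ => le_rfl, ?_⟩
      intro γ g1 g2 g3 n hn
      refine T_cost (x := τ x') (x' := x') (k := k) hup hx'D g2.ge
        (fun u => (if u = τ x' then k else 0) + (if u = x' then k + 1 else 0) +
          (if u = y then (k + 1) / 2 + 1 else 0) + (if u = c0 then (k + 1) / 2 + 1 else 0))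
        ?_ ?_ ?_
      · intro u hu
        obtain ⟨h5, h6, h7⟩ := hxy u hu
        have h8 : u ≠ c0 := by
          rintro rfl
          rcases hdc u (Or.inl hu) y hyc with h | h | h
          · exact hyx h
          · exact hyx' h
          · omega
        simp only [if_neg h5, if_neg h6, if_neg h7, if_neg h8]
      · intro u
        by_cases h5 : u = τ x'
        · right
          subst h5
          refine ⟨τ x', le_rfl, hxD, ?_⟩
          simp only [if_true, if_neg hne, if_neg hyx.symm, if_neg hcx.symm]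
          omega
        by_cases h6 : u = x'
        · right
          subst h6
          refine ⟨u, le_rfl, hx'D, ?_⟩
          simp only [if_true, if_neg hne.symm, if_neg hyx'.symm, if_neg hcx'.symm]
          omega
        by_cases h7 : u = y
        · right
          subst h7
          refine ⟨u, le_rfl, hyD, ?_⟩
          simp only [if_true, if_neg h5, if_neg h6, if_neg hcy.symm]
          omega
        by_cases h8 : u = c0
        · right
          subst h8
          refine ⟨y, hyc.1.le, hyD, ?_⟩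
          simp only [if_true, if_neg h5, if_neg h6, if_neg h7]
          omega
        · left
          simp only [if_neg h5, if_neg h6, if_neg h7, if_neg h8]
      · rw [sum_four]
        unfold cM at hn
        omega
    · push Not at hc
      by_cases hyx2 : y ⋖ τ x'
      · refine ⟨k + 1, fun _ => le_rfl, fun _ => by omega, ?_, ?_⟩
        · intro c hc1 hc2
          exfalso
          have h5 : lev c = lev x' := by
            by_cases h5 : c = τ x'
            · rw [h5]; exact hll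
            · rw [hc c hc1 h5]
          omega
        intro γ g1 g2 g3 n hn
        refine T_cost (x := τ x') (x' := x') (k := k) hup hx'D g2.ge
          (fun u => (if u = τ x' then k + 1 else 0) + (if u = x' then k + 1 else 0) +
            (if u = y then k + 1 else 0) + (if u = y then 0 else 0))
          ?_ ?_ ?_
        · intro u hu
          obtain ⟨h5, h6, h7⟩ := hxy u hu
          simp only [if_neg h5, if_neg h6, if_neg h7]
        · intro u
          by_cases h5 : u = τ x'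
          · right
            subst h5
            refine ⟨y, hyx2.1.le, hyD, ?_⟩
            simp only [if_true, if_neg hne, if_neg hyx.symm]
            omega
          by_cases h6 : u = x'
          · right
            subst h6
            refine ⟨u, le_rfl, hx'D, ?_⟩
            simp only [if_true, if_neg hne.symm, if_neg hyx'.symm]
            omega
          by_cases h7 : u = y
          · right
            subst h7
            refine ⟨u, le_rfl, hyD, ?_⟩
            simp only [if_true, if_neg h5, if_neg h6]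
            omega
          · left
            simp only [if_neg h5, if_neg h6, if_neg h7]
        · rw [sum_four]
          unfold cM at hn
          omega
      · have hvx : v = x' := hc v hv (fun h => hyx2 (h ▸ hv))
        subst hvx
        refine ⟨k + 2, fun h => absurd h hyx2, fun _ => le_rfl, ?_, ?_⟩
        · intro c hc1 hc2
          exfalso
          have h5 : c = v := hc c hc1 (fun h => hyx2 (h ▸ hc1))
          rw [h5] at hc2
          omega
        intro γ g1 g2 g3 n hn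
        refine T_cost (x := τ v) (x' := v) (k := k) hup hx'D g2.ge
          (fun u => (if u = τ v then k else 0) + (if u = v then k + 2 else 0) +
            (if u = y then k + 2 else 0) + (if u = y then 0 else 0))
          ?_ ?_ ?_
        · intro u hu
          obtain ⟨h5, h6, h7⟩ := hxy u hu
          simp only [if_neg h5, if_neg h6, if_neg h7]
        · intro u
          by_cases h5 : u = τ v
          · right
            subst h5
            refine ⟨τ v, le_rfl, hxD, ?_⟩
            simp only [if_true, if_neg hne, if_neg hyx.symm]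
            omega
          by_cases h6 : u = v
          · right
            subst h6
            refine ⟨y, hv.1.le, hyD, ?_⟩
            simp only [if_true, if_neg hne.symm, if_neg hyx'.symm]
            omega
          by_cases h7 : u = y
          · right
            subst h7
            refine ⟨u, le_rfl, hyD, ?_⟩
            simp only [if_true, if_neg h5, if_neg h6]
            omega
          · left
            simp only [if_neg h5, if_neg h6, if_neg h7]
        · rw [sum_four]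
          unfold cM at hn
          omega
  have inner : ∀ d : ℕ, ∀ γ : P → ℕ, γ (τ x') = k → γ x' = k + 1 →
      (∀ c, lev c + 1 = lev x' → γ c ≤ (k + 1) / 2) → (∀ c, lev c + 1 < lev x' → γ c = 0) →
      K ≤ γ y + d → ∀ n < cM i k (τ x') + k + 2, (1 + X : ℤ[X]) ^ (∑ t, b t) ∣ ZB i D 0 γ n := by
    intro d
    induction d with
    | zero =>
      intro γ g1 g2 _ _ g5 n hn
      rw [hzero γ g1 g2 g5 n hn]
      exact dvd_zero _
    | succ d ihd =>
      intro γ g1 g2 g3 g4 g5 n hn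
      by_cases hKy : K ≤ γ y
      · rw [hzero γ g1 g2 hKy n hn]
        exact dvd_zero _
      refine dvd_ZB_step_down γ y hyD hly _ n ?_ ?_
      · refine ihd _ ?_ ?_ ?_ ?_ ?_ n hn
        · rw [Function.update_of_ne hyx.symm]; exact g1
        · rw [Function.update_of_ne hyx'.symm]; exact g2
        · intro c hc
          rw [Function.update_of_ne (by rintro rfl; omega)]
          exact g3 c hc
        · intro c hc
          rw [Function.update_of_ne (by rintro rfl; omega)]
          exact g4 c hc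
        · rw [Function.update_self]; omega
      · intro g' hG
        obtain ⟨q1, q2, q3, q4, q5⟩ := hG
        have hg0 : ∀ d ∈ D ∪ dnf y, d ≠ y → g' d = 0 := by
          intro d hd hdx
          exact q1 d (((hEm d).mp hd).resolve_right hdx)
        refine dvd_ZB_shift_lt _ hE.1 hE.2.2.1 q5 _ (cM i k (τ x') + k + 2) (fun n hn => ?_) n hn
        have hbd : ∀ c m, γ c ≤ m → (y ⋖ c → γ y ≤ m) → bg (D ∪ dnf y) g' γ c ≤ m := by
          intro c m hc1 hc2
          refine bg_le hc1 fun d hd hdc => ?_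
          by_cases hdy : d = y
          · rw [hdy, q2]
            exact hc2 (hdy ▸ hdc)
          · rw [hg0 d hd hdy]; exact Nat.zero_le _
        refine ih _ hcard _ hE ?_ ?_ rfl _ ?_ ?_ ?_ ?_ n hn
        · rw [hEm, not_or]
          exact ⟨hxD, hyx.symm⟩
        · rw [hEm, not_or]
          exact ⟨hx'D, hyx'.symm⟩
        · refine le_antisymm (hbd _ _ g1.le fun h => ?_) (g1 ▸ le_bg _ _ _ _)
          have := hK1 h
          omega
        · refine le_antisymm (hbd _ _ g2.le fun h => ?_) (g2 ▸ le_bg _ _ _ _)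
          have := hK2 h
          omega
        · intro c hc
          refine hbd _ _ (g3 c hc) fun h => ?_
          have := hK3 c h hc
          omega
        · intro c hc
          refine Nat.le_zero.mp (hbd _ _ (g4 c hc).le fun h => ?_)
          exfalso
          have := hgr.lev_covBy h
          omega
  exact inner K β h1 h2 h3 h4 (by omega) n hn

end Sys

end Pool.Agent.GaussPoset

end

/-! From `Pool.Agent.W_448f4_h70.JH` -/

section

/-!
The far window theorem for systems with twins of the cells `(m, m + 1)`: these twins and the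
elements which hang below them do not contribute (MP_448cb3_co, S7).
-/

namespace Pool.Agent.GaussPoset

set_option linter.unusedSectionVars false

open Polynomial Finset

universe u

variable {P : Type u} [Fintype P] [PartialOrder P] [DecidableEq P]

open Classical in
/-- the twin lemma, exact form, with prescribed sums; the broken sets are clean up to `n0` only -/
theorem dvd_ZB_exactL (i : ℕ) (p : ℤ[X]) (n0 : ℕ) (ld : P × P → Prop) (V : P × P → ℤ[X]) (DD : Set (Finset P)) (θ : P → ℕ)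
    (Tw : Finset (P × P))
    (hlow : ∀ D ∈ DD, ∀ x y, x ≤ y → y ∈ D → x ∈ D) (hlev : ∀ D ∈ DD, ∀ x ∈ D, i < lev x)
    (hθ : ∀ x, 1 ≤ θ x → i < lev x) (hle : ∀ x, θ x ≤ lev x - i)
    (c0 : ∀ D ∈ DD, (∀ t ∈ Tw, t.1 ∈ D ∨ t.2 ∈ D) → ∀ n ≤ n0, p ∣ ZB i D 0 0 n)
    (c1 : ∀ D ∈ DD, ∀ x, x ∉ D → 1 ≤ θ x → D ∪ dnf x ∈ DD)
    (c2 : ∀ D ∈ DD, ∀ x, x ∉ D → 1 ≤ θ x → ∀ y ≤ x, y ∉ D → ∀ x', y ⋖ x' → ¬ x' ≤ x →
      θ x ≤ θ x' + 1)
    (hT : ∀ t ∈ Tw, Twn i θ t) (hanti : ∀ x x', (x, x') ∈ Tw → (x', x) ∉ Tw)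
    (hHT : ∀ t ∈ Tw, ∀ D ∈ DD, t.1 ∉ D → t.2 ∉ D → ∀ n < n0,
      p ∣ ZB i D 0 (st2 t.1 t.2 (θ t.1) (θ t.1 + 1)) n)
    (hV : ∀ t ∈ Tw, ∀ D ∈ DD, t.1 ∉ D → t.2 ∉ D →
      p ∣ ZB i D 0 (st2 t.1 t.2 (θ t.1) (θ t.1 + 1)) n0 - (if ld t then V t else 0))
    (hmin : ∀ t ∈ Tw, ∀ D ∈ DD, ∀ y < t.2, y ∈ D) :
    ∀ D ∈ DD, ∀ β : P → ℕ, (∀ x, x ∉ D → β x ≤ θ x) →
      p ∣ ZB i D 0 β n0 - tsumV i θ ld V Tw D β := by
  classical
  have hlt := dvd_ZB_bounds_twinsH i p n0 DD θ Tw hlow hlev hθ (fun D hD hb n hn => c0 D hD hb n hn.le)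
    c1 c2 (fun t ht => (hT t ht).toP) hHT hmin
  have outer : ∀ N : ℕ, ∀ D ∈ DD, (Dᶜ).card = N → ∀ β : P → ℕ, (∀ x, x ∉ D → β x ≤ θ x) →
      p ∣ ZB i D 0 β n0 - tsumV i θ ld V Tw D β := by
    intro N
    induction N using Nat.strong_induction_on with
    | _ N ihN =>
    intro D hDD hN
    have hsmall : ∀ x, x ∉ D → 1 ≤ θ x → ∀ β : P → ℕ, (∀ y, y ∉ D ∪ dnf x → β y ≤ θ y) →
        p ∣ ZB i (D ∪ dnf x) 0 β n0 - tsumV i θ ld V Tw (D ∪ dnf x) β := by
      intro x hx hθx β hβ
      refine ihN _ ?_ _ (c1 D hDD x hx hθx) rfl β hβ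
      rw [← hN]
      apply Finset.card_lt_card
      rw [Finset.compl_ssubset_compl]
      rw [Finset.ssubset_iff_of_subset subset_union_left]
      exact ⟨x, mem_union_right _ (mem_dnf.mpr le_rfl), hx⟩
    have base : p ∣ ZB i D 0 0 n0 - tsumV i θ ld V Tw D 0 := by
      by_cases hall : ∀ t ∈ Tw, t.1 ∈ D ∨ t.2 ∈ D
      · have h1 : tsumV i θ ld V Tw D 0 = 0 := by
          unfold tsumV
          rw [Finset.sum_eq_zero]
          intro t ht
          exfalso
          rw [mem_twsV] at ht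
          rcases hall t ht.1 with h | h
          · exact ht.2.1.1 h
          · exact ht.2.1.2 h
        rw [h1, sub_zero]
        exact c0 D hDD hall n0 le_rfl
      · push Not at hall
        obtain ⟨⟨x, x'⟩, ht, hx, hx'⟩ := hall
        have H := hT _ ht
        have hθx := H.one_le
        have heq := H.eq
        simp only at hθx heq hx hx'
        have hθx' : 1 ≤ θ x' := by omega
        have hDx := c1 D hDD x hx hθx
        have hDx' := c1 D hDD x' hx' hθx'
        have hin : ∀ E : Finset P, E = D ∪ dnf x ∨ E = D ∪ dnf x' → E ∈ DD := by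
          rintro E (rfl | rfl)
          · exact hDx
          · exact hDx'
        have hm : ∀ y < x', y ∈ D := hmin _ ht D hDD
        have h1 := twin_step_exactH (p := p) (n0 := n0) H (hθ x hθx) (hlev D hDD) (hlow D hDD) hx hx'
          hm (fun E hE => hlow E (hin E hE)) (fun E hE => hlev E (hin E hE))
          (c2 D hDD x hx hθx) (fun E hE => hlt E (hin E hE))
          (hV _ ht D hDD hx hx')
        have hx'x : ¬ x' ≤ x := fun h => by
          have h1 : x' < x := lt_of_le_of_ne h (fun h => H.ne h.symm)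
          exact lt_irrefl x ((H.up x).mpr h1)
        have h2 := hsmall x hx hθx (st2 x x' 0 1) (by
          intro y hy
          unfold st2
          split_ifs with h8 h9
          · exact Nat.zero_le _
          · rw [h9]; exact hθx'
          · exact Nat.zero_le _)
        have h3 := hsmall x' hx' hθx' 0 (fun _ _ => Nat.zero_le _)
        rw [tsumV_twin hT ht (hanti _ _ ht) hx hx' hm]
        have h4 := dvd_add (dvd_add h1 h2) h3
        refine h4.trans (dvd_of_eq ?_)
        ring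
    have inner : ∀ s : ℕ, ∀ β : P → ℕ, (∑ x ∈ Dᶜ, β x = s) → (∀ x, x ∉ D → β x ≤ θ x) →
        p ∣ ZB i D 0 β n0 - tsumV i θ ld V Tw D β := by
      intro s
      induction s with
      | zero =>
        intro β hβ _
        have h0 : ∀ x, x ∉ D → β x = 0 := by
          intro x hx
          rw [Finset.sum_eq_zero_iff] at hβ
          exact hβ x (by simpa using hx)
        rw [ZB_congr (g' := 0) (β' := 0) (fun _ _ => rfl) (fun x hx => by simpa using h0 x hx)]
        have h1 : tsumV i θ ld V Tw D β = tsumV i θ ld V Tw D 0 := by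
          unfold tsumV
          rw [twsV_congr (β' := 0) (fun x hx => by simpa using h0 x hx)]
        rw [h1]
        exact base
      | succ s ihs =>
        intro β hβ hbd
        obtain ⟨x0, hx0, hx0b⟩ : ∃ x0, x0 ∉ D ∧ 1 ≤ β x0 := by
          by_contra hcon
          push Not at hcon
          have : ∑ x ∈ Dᶜ, β x = 0 := Finset.sum_eq_zero fun x hx => by
            have := hcon x (by simpa using hx)
            omega
          omega
        let β' : P → ℕ := Function.update β x0 (β x0 - 1)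
        have hβ'x : β' x0 = β x0 - 1 := Function.update_self _ _ _
        have hβ'n : ∀ x, x ≠ x0 → β' x = β x := fun x hx => Function.update_of_ne hx _ _
        have hββ : β = Function.update β' x0 (β' x0 + 1) := by
          funext x
          by_cases hx : x = x0
          · subst hx
            rw [Function.update_self, hβ'x]; omega
          · rw [Function.update_of_ne hx, hβ'n x hx]
        have hle' : ∀ x, β' x ≤ β x := by
          intro x
          by_cases hx : x = x0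
          · subst hx; rw [hβ'x]; omega
          · rw [hβ'n x hx]
        have hθx0 : 1 ≤ θ x0 := hx0b.trans (hbd x0 hx0)
        have hsum : ∑ x ∈ Dᶜ, β' x = s := by
          have h1 : ∑ x ∈ Dᶜ, β x = ∑ x ∈ Dᶜ, β' x + 1 := by
            rw [← Finset.add_sum_erase Dᶜ β (by simpa using hx0 : x0 ∈ Dᶜ),
              ← Finset.add_sum_erase Dᶜ β' (by simpa using hx0 : x0 ∈ Dᶜ), hβ'x]
            have h2 : ∑ x ∈ Dᶜ.erase x0, β x = ∑ x ∈ Dᶜ.erase x0, β' x :=
              Finset.sum_congr rfl fun x hx => (hβ'n x (ne_of_mem_erase hx)).symm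
            omega
          omega
        have hD' := c1 D hDD x0 hx0 hθx0
        have hbx := hbd x0 hx0
        have h1 := step_mod (p := p) (n0 := n0) (β := β') hx0 (hθ x0 hθx0) (by
          intro g' hG hg0
          obtain ⟨g1, g2, g3, g4, g5⟩ := hG
          refine dvd_ZB_shift_pos β' (hlow _ hD') (hlev _ hD') g5 p n0 (fun n hn => ?_) hg0
          refine hlt _ hD' _ ?_ n hn
          intro x hx
          rw [mem_union, mem_dnf, not_or] at hx
          refine bg_le ((hle' x).trans (hbd x hx.1)) ?_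
          intro y hy hyx
          by_cases hyD : y ∈ D
          · rw [g1 y hyD]; exact Nat.zero_le _
          · have hyx0 : y ≤ x0 := by
              rcases mem_union.mp hy with h | h
              · exact absurd h hyD
              · exact mem_dnf.mp h
            have h1 := g3 y hyx0
            rw [hβ'x] at h1
            have h2 := c2 D hDD x0 hx0 hθx0 y hyx0 hyD x hyx hx.2
            omega)
        have h2 := tsumV_step (ld := ld) (V := V) hT (D := D) (β := β') hx0 (hθ x0 hθx0) (hle x0)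
          (by omega)
        have h3 := ihs β' hsum (fun x hx => (hle' x).trans (hbd x hx))
        rw [← hββ] at h1 h2
        rw [h2] at h3
        by_cases hc : β' x0 = 0 ∧ ∀ y ≤ x0, y ∉ D → β' y = 0
        · rw [if_pos hc] at h1 h3
          have h4 := hsmall x0 hx0 hθx0 β' (fun y hy => by
            rw [mem_union, not_or] at hy
            exact (hle' y).trans (hbd y hy.1))
          have h5 := dvd_sub (dvd_sub h3 h1) h4
          refine h5.trans (dvd_of_eq ?_)
          ring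
        · rw [if_neg hc, sub_zero] at h1
          rw [if_neg hc, add_zero] at h3
          have h5 := dvd_sub h3 h1
          refine h5.trans (dvd_of_eq ?_)
          ring
    intro β hbd
    exact inner _ β rfl hbd
  intro D hDD β hbd
  exact outer _ D hDD rfl β hbd

section Sys

variable {i : ℕ} {N : Tops P → Finset P} {b : Tops P → ℕ} {θ : Tops P → P → ℕ}
  {B : Tops P → P → Prop} {Y Yf Z : Finset P} {τ π : P → P}

/-- the pairs of twins of cells `(m, m + 1)` and the pairs of pendants -/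
def pairsF (Yf Z : Finset P) (τ π : P → P) : Finset (P × P) := pairsX Yf τ ∪ pairsZ Z π

/-- no energy below the cost of two high labels on two pendants -/
lemma FoldSys.pen_T (F : FoldSys i N b B Y Yf Z τ π) (T : TwSys (unnat N) Y topOf τ)
    (hgr : GradedBelow P) {z1 z2 : P} (hz1 : z1 ∈ Z) (hz2 : z2 ∈ Z) (hne : z1 ≠ z2)
    (hπ : π z1 = π z2) {k : ℕ} (hlev : i + k + 2 ≤ lev (π z1)) {D : Finset P} (h1 : z1 ∉ D)
    (h2 : z2 ∉ D) {n : ℕ} (hn : n < cM i k (τ (π z1)) + k + 2) :
    ZB i D 0 (st2 z1 z2 (k + 1) (k + 1 + 1)) n = 0 := by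
  classical
  have hY := F.sub (F.penF z1 hz1)
  have hup := T.up _ hY
  have e1 := hgr.lev_covBy ((F.cov hz1).mpr rfl)
  have e2 := hgr.lev_covBy ((F.cov hz2).mpr rfl)
  rw [← hπ] at e2
  have hs1 : st2 z1 z2 (k + 1) (k + 1 + 1) z1 = k + 1 := by unfold st2; rw [if_pos rfl]
  have hs2 : st2 z1 z2 (k + 1) (k + 1 + 1) z2 = k + 1 + 1 := by
    unfold st2; rw [if_neg hne.symm, if_pos rfl]
  have hlt1 := F.lt hz1
  have hlt2 : z2 < π z1 := by rw [hπ]; exact F.lt hz2
  refine ZB_zero_of_cost (fun u => (if τ (π z1) < u then min (k + 1) (lev u - i) else 0) +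
    ((if u = z1 then k + 1 else 0) + (if u = z2 then k + 2 else 0) +
      (if u = π z1 then k + 2 else 0) + (if u = π z1 then 0 else 0))) ?_ ?_
  · intro u
    by_cases h : τ (π z1) < u
    · right
      have h3 := (hup u).mp h
      have h4 : u ≠ z1 := fun h5 => lt_irrefl _ (hlt1.trans (h5 ▸ h3))
      have h5 : u ≠ z2 := fun h5 => lt_irrefl _ (hlt2.trans (h5 ▸ h3))
      have h6 : u ≠ π z1 := h3.ne'
      refine ⟨z2, (hlt2.trans h3).le, h2, ?_⟩
      rw [hs2]
      simp only [if_pos h, if_neg h4, if_neg h5, if_neg h6]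
      omega
    · by_cases h4 : u = z1
      · right
        subst h4
        refine ⟨u, le_rfl, h1, ?_⟩
        rw [hs1]
        simp only [if_neg h, if_true, if_neg hne, if_neg hlt1.ne]
        omega
      by_cases h5 : u = z2
      · right
        subst h5
        refine ⟨u, le_rfl, h2, ?_⟩
        rw [hs2]
        simp only [if_neg h, if_true, if_neg h4, if_neg hlt2.ne]
        omega
      by_cases h6 : u = π z1
      · right
        refine ⟨z2, by rw [h6]; exact hlt2.le, h2, ?_⟩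
        rw [hs2, h6]
        simp only [if_neg (h6 ▸ h), if_true, if_neg (h6 ▸ h4), if_neg (h6 ▸ h5)]
        omega
      · left
        simp only [if_neg h, if_neg h4, if_neg h5, if_neg h6]
  · rw [Finset.sum_add_distrib, sum_four]
    unfold cM at hn
    omega

/-- **The lower sets which break the other pairs are clean below `n1`.** -/
theorem FoldSys.cleanF (F : FoldSys i N b B Y Yf Z τ π) (T : TwSys (unnat N) Y topOf τ)
    (hgr : GradedBelow P) (H : ∀ t, NatTop i t (b t) (N t) (θ t) (B t)) {n1 : ℕ}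
    (hpos : ∀ x' ∈ Yf, ∃ k, FoldPos i N θ B Y Z τ π k x' ∧ n1 ≤ cM i k (τ x') + k + 2) :
    ∀ D, Good i ((unnat N \ Y) \ Z) (fun x => x ∉ unnat N ∧ B (topOf x) x) D →
      (∀ t ∈ pairsX (Y \ Yf) τ, t.1 ∈ D ∨ t.2 ∈ D) →
      ∀ β : P → ℕ, (∀ x, x ∉ D → β x ≤ thPen N θ Y Z τ π x) → ∀ n < n1,
      (1 + X : ℤ[X]) ^ (∑ t, b t) ∣ ZB i D 0 β n := by
  classical
  have HN := natSys_of_tops H
  obtain ⟨f1, f2, f3, f4⟩ := F.fam T hgr H
  -- the thresholds
  have hfold : ∀ x' ∈ Yf, ∀ k, FoldPos i N θ B Y Z τ π k x' →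
      thPen N θ Y Z τ π x' = k ∧ thPen N θ Y Z τ π (τ x') = k := by
    intro x' hx' k Q
    have hY := F.sub hx'
    have hnat := T.nat x' hY
    have hxR : τ x' ∉ (unnat N \ Y) \ Z := fun h => hnat (mem_sdiff.mp (mem_sdiff.mp h).1).1
    have hx'R : x' ∉ (unnat N \ Y) \ Z := fun h => (mem_sdiff.mp (mem_sdiff.mp h).1).2 hY
    have hx'Z : x' ∉ Z := fun h => F.penY x' h hY
    have hxZ : τ x' ∉ Z := fun h => hnat (F.penU _ h)
    have hxY : τ x' ∉ Y := fun h => hnat (T.sub h)
    refine ⟨by rw [thPen_of hx'R, thZ_not hx'Z]; exact Q.th, ?_⟩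
    rw [thPen_of hxR, thZ_not hxZ, thX_not hxY]
    have := Q.th
    rw [thX_of hY] at this
    exact this
  have hpenT : ∀ z ∈ Z, ∀ k, FoldPos i N θ B Y Z τ π k (π z) → thPen N θ Y Z τ π z = k + 1 := by
    intro z hz k Q
    have h1 : z ∉ (unnat N \ Y) \ Z := fun h => (mem_sdiff.mp h).2 hz
    rw [thPen_of h1, thZ_of hz, Q.th]
  have hup : ∀ z1 ∈ Z, ∀ z2 ∈ Z, π z1 = π z2 → ∀ y, z1 < y ↔ z2 < y := by
    intro z1 h1 z2 h2 h y
    rw [F.pen z1 h1, F.pen z2 h2, h]
  intro D hD hbr β hβ n hn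
  refine dvd_ZB_bounds_twinsR i ((1 + X : ℤ[X]) ^ (∑ t, b t)) n1
    {D | Good i ((unnat N \ Y) \ Z) (fun x => x ∉ unnat N ∧ B (topOf x) x) D ∧
      ∀ t ∈ pairsX (Y \ Yf) τ, t.1 ∈ D ∨ t.2 ∈ D} (thPen N θ Y Z τ π) (pairsF Yf Z τ π)
    (fun D hD => hD.1.1) (fun D hD => hD.1.2.2.1) f1 ?_ ?_ ?_ ?_ ?_ ?_ D ⟨hD, hbr⟩ β hβ n hn
  · intro D hD hb n _
    refine F.c0 T hgr H hD.1 ?_ ?_ n
    · intro y hy
      by_cases hyf : y ∈ Yf
      · rcases hb (τ y, y) (mem_union_left _ (mem_pairsX.mpr ⟨hyf, rfl⟩)) with h | h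
        · exact Or.inl h
        · exact Or.inr (Or.inl h)
      · rcases hD.2 (τ y, y) (mem_pairsX.mpr ⟨mem_sdiff.mpr ⟨hy, hyf⟩, rfl⟩) with h | h
        · exact Or.inl h
        · exact Or.inr (Or.inl h)
    · intro z1 h1 z2 h2 hne hπ
      exact hb (z1, z2) (mem_union_right _ (mem_pairsZ.mpr ⟨⟨h1, h2⟩, hne, hπ⟩))
  · intro D hD x hx hθ
    exact ⟨f3 D hD.1 x hx hθ, fun t ht => (hD.2 t ht).imp (fun h => mem_union_left _ h)
      (fun h => mem_union_left _ h)⟩
  · intro D hD x hx hθ y hyx hyD w hyw hwx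
    exact f4 D hD.1 x hx hθ y hyx hyD w hyw hwx
  · intro t ht
    rcases mem_union.mp ht with ht | ht
    · rw [mem_pairsX] at ht
      obtain ⟨k, Q, -⟩ := hpos t.2 ht.1
      obtain ⟨e1, e2⟩ := hfold t.2 ht.1 k Q
      have hY := F.sub ht.1
      refine ⟨fun h => T.nat t.2 hY ?_, ?_, ?_, ?_⟩
      · rw [← ht.2, h]; exact T.sub hY
      · rw [ht.2]; exact T.up t.2 hY
      · rw [ht.2, e2]; exact Q.pos
      · rw [ht.2, e1, e2]
    · rw [mem_pairsZ] at ht
      obtain ⟨k, Q, -⟩ := hpos _ (F.penF t.1 ht.1.1)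
      have e1 := hpenT t.1 ht.1.1 k Q
      have e2 := hpenT t.2 ht.1.2 k (ht.2.2 ▸ Q)
      exact ⟨ht.2.1, hup _ ht.1.1 _ ht.1.2 ht.2.2, by rw [e1]; omega, by rw [e1, e2]⟩
  · intro t ht D hD h1 h2 n hn
    rcases mem_union.mp ht with ht | ht
    · rw [mem_pairsX] at ht
      obtain ⟨k, Q, hk⟩ := hpos t.2 ht.1
      obtain ⟨e1, e2⟩ := hfold t.2 ht.1 k Q
      have hY := F.sub ht.1
      have hne : τ t.2 ≠ t.2 := fun h => T.nat t.2 hY (by rw [h]; exact T.sub hY)
      have hll : lev (τ t.2) = lev t.2 := lev_eq_of_up (T.up t.2 hY)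
      rw [ht.2] at h1 ⊢
      rw [e2]
      have hs : ∀ c, lev c < lev t.2 → st2 (τ t.2) t.2 k (k + 1) c = 0 := by
        intro c hc
        unfold st2
        rw [if_neg (by rintro rfl; omega), if_neg (by rintro rfl; omega)]
      refine F.fold_T T hgr H ht.1 Q _ D hD.1 h1 h2 rfl _ ?_ ?_ ?_ ?_ n (by omega)
      · unfold st2; rw [if_pos rfl]
      · unfold st2; rw [if_neg hne.symm, if_pos rfl]
      · intro c hc
        rw [hs c (by omega)]
        exact Nat.zero_le _
      · intro c hc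
        exact hs c (by omega)
    · rw [mem_pairsZ] at ht
      obtain ⟨k, Q, hk⟩ := hpos _ (F.penF t.1 ht.1.1)
      rw [hpenT t.1 ht.1.1 k Q,
        F.pen_T T hgr ht.1.1 ht.1.2 ht.2.1 ht.2.2 (k := k) Q.lev h1 h2 (by omega)]
      exact dvd_zero _
  · intro t ht D hD y hy
    rcases mem_union.mp ht with ht | ht
    · rw [mem_pairsX] at ht
      have hY := F.sub ht.1
      have hyU := HN.lower y _ hy.le (T.sub hY)
      have hyY : y ∉ Y := fun h => T.top_unnat HN h hy (T.sub hY)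
      by_cases hyZ : y ∈ Z
      · right
        have h1 := F.above T HN hyZ hy (T.sub hY)
        refine ⟨fun h => ?_, fun w hw => ?_⟩
        · rw [ht.2] at h
          have h2 : y ≠ τ t.2 := fun h3 => T.nat t.2 hY (h3 ▸ hyU)
          have h3 := (F.pen y hyZ _).mp (lt_of_le_of_ne h h2)
          rw [← h1] at h3
          have h4 : t.2 ≠ τ t.2 := fun h => T.nat t.2 hY (by rw [← h]; exact T.sub hY)
          have h5 := lev_strictAnti (lt_of_le_of_ne h3 h4)
          have h6 : lev (τ t.2) = lev t.2 := lev_eq_of_up (T.up t.2 hY)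
          omega
        · rw [(F.cov hyZ).mp hw, ← h1]
      · left
        exact hD.1.2.1 (mem_sdiff.mpr ⟨mem_sdiff.mpr ⟨hyU, hyY⟩, hyZ⟩)
    · left
      rw [mem_pairsZ] at ht
      have hU := F.penU _ ht.1.2
      refine hD.1.2.1 (mem_sdiff.mpr ⟨mem_sdiff.mpr ⟨HN.lower y _ hy.le hU, fun h => ?_⟩,
        fun h => ?_⟩)
      · exact T.top_unnat HN h hy hU
      · have h1 := F.above T HN h hy hU
        exact F.penY _ ht.1.2 (h1 ▸ F.sub (F.penF y h))

end Sys

end Pool.Agent.GaussPoset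

end

/-! From `Pool.Agent.W_448f4_h70.JI` -/

section

/-!
The far window theorem for systems with twins of the cells `(m, m + 1)` (MP_448cb3_co, S7).
-/

namespace Pool.Agent.GaussPoset

set_option linter.unusedSectionVars false

open Polynomial Finset

universe u

variable {P : Type u} [Fintype P] [PartialOrder P] [DecidableEq P]

section Sys

variable {i : ℕ} {N : Tops P → Finset P} {b : Tops P → ℕ} {θ : Tops P → P → ℕ}
  {B : Tops P → P → Prop} {Y Yf Z : Finset P} {τ π : P → P}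

/-- **The far window theorem without the twins of the cells `(m, m + 1)` and their pendants.** -/
theorem FoldSys.farV (F : FoldSys i N b B Y Yf Z τ π) (T : TwSys (unnat N) Y topOf τ)
    (hgr : GradedBelow P) (H : ∀ t, NatTop i t (b t) (N t) (θ t) (B t)) {n0 : ℕ}
    (hpos : ∀ x' ∈ Yf, ∃ k, FoldPos i N θ B Y Z τ π k x' ∧ n0 < cM i k (τ x') + k + 2)
    (htw : ∀ x ∈ Y, x ∉ Yf → Twn i (thX Y τ (fun x => θ (topOf x) x)) (τ x, x))
    (ld : P → Prop) (V : P → ℤ[X])
    (hHT : ∀ x ∈ Y, x ∉ Yf → ∀ D, Good i ((unnat N \ Y) \ Z)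
      (fun x => x ∉ unnat N ∧ B (topOf x) x) D → τ x ∉ D → x ∉ D → ∀ n < n0,
      (1 + X : ℤ[X]) ^ (∑ t, b t) ∣ ZB i D 0
        (st2 (τ x) x (thX Y τ (fun x => θ (topOf x) x) (τ x))
          (thX Y τ (fun x => θ (topOf x) x) (τ x) + 1)) n)
    (hV : ∀ x ∈ Y, x ∉ Yf → ∀ D, Good i ((unnat N \ Y) \ Z)
      (fun x => x ∉ unnat N ∧ B (topOf x) x) D → τ x ∉ D → x ∉ D →
      (1 + X : ℤ[X]) ^ (∑ t, b t) ∣ ZB i D 0
        (st2 (τ x) x (thX Y τ (fun x => θ (topOf x) x) (τ x))
          (thX Y τ (fun x => θ (topOf x) x) (τ x) + 1)) n0 -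
        (by classical exact if ld x then V x else 0)) :
    FarV P i ((unnat N \ Y) \ Z) (∑ t, b t)
      (hcan ((unnat N \ Y) \ Z) (thZ Z π (thX Y τ (fun x => θ (topOf x) x))))
      (∑ x ∈ (by classical exact (Y \ Yf).filter ld), V x) n0 := by
  classical
  have HN := natSys_of_tops H
  have hRlev : ∀ x ∈ (unnat N \ Y) \ Z, i < lev x := by
    intro x hx
    by_contra hcon
    exact low_natural H (not_lt.mp hcon) (mem_sdiff.mp (mem_sdiff.mp hx).1).1
  obtain ⟨f1, f2, f3, f4⟩ := F.fam T hgr H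
  have hR := F.lower T HN
  set Rp : Finset P := (unnat N \ Y) \ Z with hRp
  set θX : P → ℕ := thX Y τ (fun x => θ (topOf x) x) with hθX
  have hRR : Rp ∈ {D | Good i Rp (fun x => x ∉ unnat N ∧ B (topOf x) x) D} :=
    ⟨hR, Subset.refl _, hRlev, fun x hx h => h.1 (mem_sdiff.mp (mem_sdiff.mp hx).1).1⟩
  have hclean := F.cleanF T hgr H (n1 := n0 + 1) (fun x' hx' => by
    obtain ⟨k, Q, hk⟩ := hpos x' hx'
    exact ⟨k, Q, hk⟩)
  have c0 : ∀ D ∈ {D | Good i Rp (fun x => x ∉ unnat N ∧ B (topOf x) x) D},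
      (∀ t ∈ pairsX (Y \ Yf) τ, t.1 ∈ D ∨ t.2 ∈ D) → ∀ n ≤ n0,
      (1 + X : ℤ[X]) ^ (∑ t, b t) ∣ ZB i D 0 0 n := fun D hD hbr n hn =>
    hclean D hD hbr 0 (fun _ _ => Nat.zero_le _) n (by omega)
  -- the thresholds of the pairs
  have hth : ∀ x ∈ Y \ Yf, thPen N θ Y Z τ π (τ x) = θX (τ x) ∧ thPen N θ Y Z τ π x = θX x ∧
      (∀ y, τ x < y → thPen N θ Y Z τ π y = θX y) := by
    intro x hx
    have hxY := (mem_sdiff.mp hx).1
    have hnat := T.nat x hxY
    have key : ∀ y, y ∉ unnat N → thPen N θ Y Z τ π y = θX y := by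
      intro y hy
      rw [thPen_of (fun h => hy (mem_sdiff.mp (mem_sdiff.mp h).1).1),
        thZ_not (fun h => hy (F.penU _ h))]
    refine ⟨key _ hnat, ?_, fun y hy => key y (fun h => hnat (HN.lower _ y hy.le h))⟩
    rw [thPen_of (fun h => (mem_sdiff.mp (mem_sdiff.mp h).1).2 hxY), thZ_not (fun h => F.penY _ h hxY)]
  have hT : ∀ t ∈ pairsX (Y \ Yf) τ, Twn i (thPen N θ Y Z τ π) t := by
    intro t ht
    rw [mem_pairsX] at ht
    have h0 := mem_sdiff.mp ht.1
    have h2 := htw t.2 h0.1 h0.2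
    rw [← ht.2] at h2
    obtain ⟨e1, e2, e3⟩ := hth t.2 ht.1
    rw [← ht.2] at e1 e3
    refine ⟨h2.ne, h2.up, ?_, ?_, ?_, ?_⟩
    · rw [e1]; exact h2.one_le
    · rw [e1, e2]; exact h2.eq
    · rw [e1]; exact h2.lt
    · intro y hy
      rw [e1, e3 y hy]
      exact h2.mono y hy
  have hanti : ∀ x x', (x, x') ∈ pairsX (Y \ Yf) τ → (x', x) ∉ pairsX (Y \ Yf) τ := by
    intro x x' h1 h2
    rw [mem_pairsX] at h1 h2
    simp only at h1 h2
    exact T.nat x' (mem_sdiff.mp h1.1).1 (h1.2 ▸ T.sub (mem_sdiff.mp h2.1).1)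
  have hHT' : ∀ t ∈ pairsX (Y \ Yf) τ,
      ∀ D ∈ {D | Good i Rp (fun x => x ∉ unnat N ∧ B (topOf x) x) D}, t.1 ∉ D → t.2 ∉ D →
      ∀ n < n0, (1 + X : ℤ[X]) ^ (∑ t, b t) ∣ ZB i D 0
        (st2 t.1 t.2 (thPen N θ Y Z τ π t.1) (thPen N θ Y Z τ π t.1 + 1)) n := by
    intro t ht D hD h1 h2 n hn
    rw [mem_pairsX] at ht
    have h0 := mem_sdiff.mp ht.1
    obtain ⟨e1, e2, e3⟩ := hth t.2 ht.1
    rw [ht.2] at h1 ⊢
    rw [e1]
    exact hHT t.2 h0.1 h0.2 D hD h1 h2 n hn
  have hV' : ∀ t ∈ pairsX (Y \ Yf) τ,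
      ∀ D ∈ {D | Good i Rp (fun x => x ∉ unnat N ∧ B (topOf x) x) D}, t.1 ∉ D → t.2 ∉ D →
      (1 + X : ℤ[X]) ^ (∑ t, b t) ∣ ZB i D 0
        (st2 t.1 t.2 (thPen N θ Y Z τ π t.1) (thPen N θ Y Z τ π t.1 + 1)) n0 -
        (if ld t.2 then V t.2 else 0) := by
    intro t ht D hD h1 h2
    rw [mem_pairsX] at ht
    have h0 := mem_sdiff.mp ht.1
    obtain ⟨e1, e2, e3⟩ := hth t.2 ht.1
    rw [ht.2] at h1 ⊢
    rw [e1]
    exact hV t.2 h0.1 h0.2 D hD h1 h2
  have hmin : ∀ t ∈ pairsX (Y \ Yf) τ,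
      ∀ D ∈ {D | Good i Rp (fun x => x ∉ unnat N ∧ B (topOf x) x) D}, ∀ y < t.2, y ∈ D := by
    intro t ht D hD y hy
    rw [mem_pairsX] at ht
    have h0 := mem_sdiff.mp ht.1
    have hU := T.sub h0.1
    refine hD.2.1 (mem_sdiff.mpr ⟨mem_sdiff.mpr ⟨HN.lower y _ hy.le hU, fun h => ?_⟩, fun h => ?_⟩)
    · exact T.top_unnat HN h hy hU
    · have h1 := F.above T HN h hy hU
      exact h0.2 (h1 ▸ F.penF y h)
  have hlt := dvd_ZB_bounds_twinsH i _ n0
    {D | Good i Rp (fun x => x ∉ unnat N ∧ B (topOf x) x) D} (thPen N θ Y Z τ π)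
    (pairsX (Y \ Yf) τ) (fun D hD => hD.1) (fun D hD => hD.2.2.1) f1
    (fun D hD hb n hn => c0 D hD hb n hn.le) f3 f4 (fun t ht => (hT t ht).toP) hHT' hmin
  have hex := dvd_ZB_exactL i _ n0 (fun t => ld t.2) (fun t => V t.2)
    {D | Good i Rp (fun x => x ∉ unnat N ∧ B (topOf x) x) D} (thPen N θ Y Z τ π)
    (pairsX (Y \ Yf) τ) (fun D hD => hD.1) (fun D hD => hD.2.2.1) f1 f2 c0 f3 f4 hT hanti
    hHT' hV' hmin Rp hRR 0 (fun _ _ => Nat.zero_le _)
  refine ⟨hgr, hRlev, ?_, ?_, ?_, ?_⟩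
  · intro g hg0 hg hp
    refine dvd_ZB_shift_pos 0 hR hRlev hg0 _ n0 (fun n hn => ?_) hp
    refine hlt Rp hRR _ ?_ n hn
    intro x hx
    refine bg_le (Nat.zero_le _) fun y hy hyx => ?_
    rw [thPen_of hx, ← hθX]
    have h1 : y ∈ bdR Rp := mem_filter.mpr ⟨hy, x, hx, hyx⟩
    have h2 := hg y h1
    have h3 := hcan_le (θ := thZ Z π θX) hx hyx
    omega
  · have h1 : tsumV i (thPen N θ Y Z τ π) (fun t => ld t.2) (fun t => V t.2)
        (pairsX (Y \ Yf) τ) Rp 0 = ∑ x ∈ (Y \ Yf).filter ld, V x := by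
      have h2 : (pairsX (Y \ Yf) τ).filter (fun t => ld t.2) =
          ((Y \ Yf).filter ld).image (fun x => (τ x, x)) := by
        unfold pairsX
        rw [Finset.filter_image]
      have h3 : ∑ t ∈ (pairsX (Y \ Yf) τ).filter (fun t => ld t.2), V t.2 =
          ∑ x ∈ (Y \ Yf).filter ld, V x := by
        rw [h2, Finset.sum_image (by
          intro x _ y _ h
          exact (Prod.mk.inj h).2)]
      rw [← h3]
      unfold tsumV
      refine Finset.sum_congr ?_ (fun _ _ => rfl)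
      ext t
      rw [mem_twsV, mem_filter]
      constructor
      · exact fun h => ⟨h.1, h.2.2.1⟩
      · intro h
        refine ⟨h.1, ?_, h.2, fun _ _ => Nat.zero_le _⟩
        have h4 := (mem_pairsX.mp h.1)
        have h5 := mem_sdiff.mp h4.1
        refine ⟨fun h6 => ?_, fun h6 => ?_⟩
        · rw [h4.2] at h6
          exact T.nat _ h5.1 (mem_sdiff.mp (mem_sdiff.mp h6).1).1
        · exact (mem_sdiff.mp (mem_sdiff.mp h6).1).2 h5.1
    rw [h1] at hex
    exact hex
  · intro z hz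
    obtain ⟨x, -, -, hx⟩ := hcan_spec (θ := thZ Z π θX) hz
    omega
  · intro z hz
    obtain ⟨x, hxR, hzx, hx⟩ := hcan_spec (θ := thZ Z π θX) hz
    have h1 := hgr.lev_covBy hzx
    have h2 := f2 x
    rw [thPen_of hxR, ← hθX] at h2
    have h3 := hRlev z (mem_filter.mp hz).1
    omega

end Sys

end Pool.Agent.GaussPoset

end

/-! From `Pool.Agent.W_448f4_h70.JJ` -/

section

/-!
The factor of one part for systems with twins of the cells `(m, m + 1)` (MP_448cb3_co, S7).
-/

namespace Pool.Agent.GaussPoset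

set_option linter.unusedSectionVars false

open Polynomial Finset

universe u

variable {P : Type u} [Fintype P] [PartialOrder P] [DecidableEq P]

section Sys

variable {i : ℕ} {N : Tops P → Finset P} {b : Tops P → ℕ} {θ : Tops P → P → ℕ}
  {B : Tops P → P → Prop} {Y Yf Z : Finset P} {τ π : P → P}

/-- **The factor of one part.** -/
theorem FoldSys.factorE (F : FoldSys i N b B Y Yf Z τ π) (T : TwSys (unnat N) Y topOf τ)
    (hgr : GradedBelow P) (H : ∀ t, NatTop i t (b t) (N t) (θ t) (B t)) {n0 : ℕ}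
    (htw : ∀ x ∈ Y, TwinPair i (thPen N θ Y Z τ π) n0 (τ x) x)
    (htz : ∀ z1 ∈ Z, ∀ z2 ∈ Z, z1 ≠ z2 → π z1 = π z2 → TwinPair i (thPen N θ Y Z τ π) n0 z1 z2)
    {G : Finset P} (hG : Good i ((unnat N \ Y) \ Z) (fun x => x ∉ unnat N ∧ B (topOf x) x) G)
    (t : Tops P) (β : P → ℕ)
    (hβ : ∀ x, x ∉ G → topOf x = t → β x ≤ thPen N θ Y Z τ π x) {m : ℕ}
    (hm : m < n0) :
    (1 + X : ℤ[X]) ^ (b t) ∣
      ZB (P := {x : P // x ∉ G ∧ topOf x = t}) i ∅ 0 (fun x => β x) m := by
  classical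
  have HN := natSys_of_tops H
  obtain ⟨f1, f2, f3, f4⟩ := F.fam T hgr H
  have hR := hG.1
  have hcp : ∀ x y, x ≤ y → x ∉ G → topOf x = topOf y := fun x y hxy hx =>
    F.cp T HN x y hxy (fun h => hx (hG.2.1 h))
  have hup := pg_part_up (k := t) hR hcp
  have hl : ∀ y : {x : P // x ∉ G ∧ topOf x = t}, lev y = lev (y : P) :=
    lev_subtype (p := fun x => x ∉ G ∧ topOf x = t) hup
  have hTP : ∀ s ∈ pairsX Y τ ∪ pairsZ Z π, TwinPair i (thPen N θ Y Z τ π) n0 s.1 s.2 := by
    intro s hs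
    rcases mem_union.mp hs with h | h
    · rw [mem_pairsX] at h
      rw [h.2]
      exact htw s.2 h.1
    · rw [mem_pairsZ] at h
      exact htz _ h.1.1 _ h.1.2 h.2.1 h.2.2
  let DD : Set (Finset {x : P // x ∉ G ∧ topOf x = t}) :=
    {D | (∀ x y, x ≤ y → y ∈ D → x ∈ D) ∧ ∀ x ∈ D, i < lev (x : P) ∧
      ¬ ((x : P) ∉ unnat N ∧ B (topOf (x : P)) x)}
  let TwQ : Finset ({x : P // x ∉ G ∧ topOf x = t} × {x : P // x ∉ G ∧ topOf x = t}) :=
    univ.filter (fun s => ((s.1 : P), (s.2 : P)) ∈ pairsX Y τ ∪ pairsZ Z π)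
  have hTQ : ∀ s ∈ TwQ, TwinPair (P := {x : P // x ∉ G ∧ topOf x = t}) i
      (fun x => thPen N θ Y Z τ π x) n0 s.1 s.2 := fun s hs =>
    twinPair_part hR hcp (hTP _ (mem_filter.mp hs).2)
  refine dvd_ZB_bounds_twinsR (P := {x : P // x ∉ G ∧ topOf x = t}) i
    ((1 + X : ℤ[X]) ^ (b t)) n0 DD (fun x => thPen N θ Y Z τ π x) TwQ (fun D hD => hD.1)
    (fun D hD x hx => by rw [hl]; exact (hD.2 x hx).1) (fun x hx => by rw [hl]; exact f1 x hx)
    ?_ ?_ ?_ ?_ ?_ ?_
    ∅ ⟨fun x y _ h => absurd h (Finset.notMem_empty y), fun x h => absurd h (Finset.notMem_empty x)⟩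
    (fun x => β x) (fun x _ => hβ x x.2.1 x.2.2) m hm
  · intro D hD hbr n _
    rw [ZB_off hD.1 (fun x hx => by rw [hl]; exact (hD.2 x hx).1)]
    refine dvd_Z_of_dvd_W ?_ n
    let E : Finset P := G ∪ D.image Subtype.val
    have hE : ∀ x, x ∈ E ↔ (x ∈ G ∨ ∃ h : x ∉ G ∧ topOf x = t,
        (⟨x, h⟩ : {x : P // x ∉ G ∧ topOf x = t}) ∈ D) := by
      intro x
      simp only [E, mem_union, mem_image]
      refine or_congr Iff.rfl ?_
      constructor
      · rintro ⟨y, hy, rfl⟩
        exact ⟨y.2, hy⟩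
      · rintro ⟨h, hx⟩
        exact ⟨⟨x, h⟩, hx, rfl⟩
    have hgood : Good i ((unnat N \ Y) \ Z) (fun x => x ∉ unnat N ∧ B (topOf x) x) E := by
      refine ⟨?_, ?_, ?_, ?_⟩
      · intro x y hxy hy
        rw [hE] at hy ⊢
        rcases hy with hy | ⟨h, hy⟩
        · exact Or.inl (hR x y hxy hy)
        · by_cases hx : x ∈ G
          · exact Or.inl hx
          · have hxk : topOf x = t := (hcp x y hxy hx).trans h.2
            exact Or.inr ⟨⟨hx, hxk⟩, hD.1 ⟨x, hx, hxk⟩ ⟨y, h⟩ hxy hy⟩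
      · intro x hx
        rw [hE]
        exact Or.inl (hG.2.1 hx)
      · intro x hx
        rw [hE] at hx
        rcases hx with hx | ⟨h, hx⟩
        · exact hG.2.2.1 x hx
        · exact (hD.2 _ hx).1
      · intro x hx
        rw [hE] at hx
        rcases hx with hx | ⟨h, hx⟩
        · exact hG.2.2.2 x hx
        · exact (hD.2 _ hx).2
    have h1 := F.clean_part T hgr H hgood t (by
      intro y hy hyt
      have hxt : topOf (τ y) = t := (T.cp y hy).trans hyt
      by_cases hxR : τ y ∈ G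
      · exact Or.inl ((hE _).mpr (Or.inl hxR))
      by_cases hyR : y ∈ G
      · exact Or.inr (Or.inl ((hE _).mpr (Or.inl hyR)))
      rcases hbr (⟨τ y, hxR, hxt⟩, ⟨y, hyR, hyt⟩) (mem_filter.mpr ⟨mem_univ _,
        mem_union_left _ (mem_pairsX.mpr ⟨hy, rfl⟩)⟩) with h | h
      · exact Or.inl ((hE _).mpr (Or.inr ⟨_, h⟩))
      · exact Or.inr (Or.inl ((hE _).mpr (Or.inr ⟨_, h⟩)))) (by
      intro z1 h1 z2 h2 h3 h4 h5
      have e3 : topOf z2 = t := by
        rw [F.top_pen T HN h2, ← h5, ← F.top_pen T HN h1]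
        exact h3
      by_cases e1 : z1 ∈ G
      · exact Or.inl ((hE _).mpr (Or.inl e1))
      by_cases e2 : z2 ∈ G
      · exact Or.inr ((hE _).mpr (Or.inl e2))
      rcases hbr (⟨z1, e1, h3⟩, ⟨z2, e2, e3⟩) (mem_filter.mpr ⟨mem_univ _,
        mem_union_right _ (mem_pairsZ.mpr ⟨⟨h1, h2⟩, h4, h5⟩)⟩) with h | h
      · exact Or.inl ((hE _).mpr (Or.inr ⟨_, h⟩))
      · exact Or.inr ((hE _).mpr (Or.inr ⟨_, h⟩)))
    have hEk : ∀ x : P, topOf x = t → (x ∉ E ↔ ∃ h : x ∉ G ∧ topOf x = t,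
        (⟨x, h⟩ : {x : P // x ∉ G ∧ topOf x = t}) ∉ D) := by
      intro x hxk
      rw [hE]
      constructor
      · intro h
        have hxR : x ∉ G := fun h2 => h (Or.inl h2)
        exact ⟨⟨hxR, hxk⟩, fun h2 => h (Or.inr ⟨_, h2⟩)⟩
      · rintro ⟨h, h2⟩ (h3 | ⟨h3, h4⟩)
        · exact h.1 h3
        · exact h2 h4
    rw [W_iso (partIso hEk) i] at h1
    exact h1
  · intro D hD x hx hθx
    refine ⟨?_, ?_⟩
    · intro a c hac hc
      rw [mem_union, mem_dnf] at hc ⊢
      rcases hc with hc | hc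
      · exact Or.inl (hD.1 a c hac hc)
      · exact Or.inr (hac.trans hc)
    · intro a ha
      rw [mem_union, mem_dnf] at ha
      rcases ha with ha | ha
      · exact hD.2 a ha
      · have h1 := f3 G hG x x.2.1 hθx
        have h2 : (a : P) ∈ G ∪ dnf (x : P) := mem_union_right _ (mem_dnf.mpr ha)
        exact ⟨h1.2.2.1 a h2, h1.2.2.2 a h2⟩
  · intro D hD x hx hθx y hyx hyD x' hyx' hx'x
    refine f4 G hG x x.2.1 hθx y hyx y.2.1 x' ?_ (fun h => hx'x h)
    refine ⟨hyx'.1, fun z hz hzx' => ?_⟩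
    exact hyx'.2 (c := ⟨z, hup y z hz.le y.2⟩) hz hzx'
  · intro s hs
    have h1 := hTQ s hs
    exact ⟨h1.ne, h1.up, h1.one_le, h1.eq⟩
  · intro s hs D hD h1 h2 n hn
    have h3 := hTQ s hs
    rw [ZB_st2_eq_zero h3 (by have := h3.le; have := h3.one_le; omega) h1 h2 0 hn]
    exact dvd_zero _
  · intro s hs D _ y hy
    have hy' : (y : P) < (s.2 : P) := hy
    have hyRp : (y : P) ∉ (unnat N \ Y) \ Z := fun h => y.2.1 (hG.2.1 h)
    rcases mem_union.mp (mem_filter.mp hs).2 with h | h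
    · rw [mem_pairsX] at h
      simp only at h
      have hU := T.sub h.1
      have hyU := HN.lower (y : P) _ hy'.le hU
      have hyY : (y : P) ∉ Y := fun h3 => T.top_unnat HN h3 hy' hU
      have hyZ : (y : P) ∈ Z := by
        by_contra hyZ
        exact hyRp (mem_sdiff.mpr ⟨mem_sdiff.mpr ⟨hyU, hyY⟩, hyZ⟩)
      right
      have h1 := F.above T HN hyZ hy' hU
      refine ⟨fun h3 => ?_, fun w hw => ?_⟩
      · have h3' : (y : P) ≤ τ (s.2 : P) := by rw [← h.2]; exact h3
        have h4 : (y : P) ≠ τ (s.2 : P) := fun h5 => T.nat _ h.1 (h5 ▸ hyU)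
        have h5 := (F.pen _ hyZ _).mp (lt_of_le_of_ne h3' h4)
        rw [← h1] at h5
        have h6 : (s.2 : P) ≠ τ (s.2 : P) := fun h7 => T.nat _ h.1 (by rw [← h7]; exact hU)
        have h7 := lev_strictAnti (lt_of_le_of_ne h5 h6)
        have h8 : lev (τ (s.2 : P)) = lev (s.2 : P) := lev_eq_of_up (T.up _ h.1)
        omega
      · have h3 : (y : P) < (w : P) := hw.1
        have h4 := (F.pen _ hyZ _).mp h3
        rw [← h1] at h4
        by_contra hcon
        have h5 : s.2 < w := lt_of_le_of_ne h4 (fun h6 => hcon h6.ge)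
        exact hw.2 hy h5
    · exfalso
      rw [mem_pairsZ] at h
      simp only at h
      have hU := F.penU _ h.1.2
      refine hyRp (mem_sdiff.mpr ⟨mem_sdiff.mpr ⟨HN.lower (y : P) _ hy'.le hU, fun h3 => ?_⟩,
        fun h3 => ?_⟩)
      · exact T.top_unnat HN h3 hy' hU
      · have h1 := F.above T HN h3 hy' hU
        exact F.penY _ h.1.2 (h1 ▸ F.sub (F.penF _ h3))

/-- the far set is good -/
lemma FoldSys.goodR (F : FoldSys i N b B Y Yf Z τ π) (T : TwSys (unnat N) Y topOf τ)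
    (H : ∀ t, NatTop i t (b t) (N t) (θ t) (B t)) :
    Good i ((unnat N \ Y) \ Z) (fun x => x ∉ unnat N ∧ B (topOf x) x) ((unnat N \ Y) \ Z) := by
  refine ⟨F.lower T (natSys_of_tops H), Subset.refl _, fun x hx => ?_,
    fun x hx h => h.1 (mem_sdiff.mp (mem_sdiff.mp hx).1).1⟩
  by_contra hcon
  exact low_natural H (not_lt.mp hcon) (mem_sdiff.mp (mem_sdiff.mp hx).1).1

/-- **Larger labels**: in the parts with larger labels by `hbig`, in the other parts by the cost
of the twins -/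
theorem FoldSys.farV_big (F : FoldSys i N b B Y Yf Z τ π) (T : TwSys (unnat N) Y topOf τ)
    (hgr : GradedBelow P) (H : ∀ t, NatTop i t (b t) (N t) (θ t) (B t)) {n0 : ℕ} {S : ℤ[X]}
    (FV : FarV P i ((unnat N \ Y) \ Z) (∑ t, b t)
      (hcan ((unnat N \ Y) \ Z) (thZ Z π (thX Y τ (fun x => θ (topOf x) x)))) S n0)
    {k0 e0 n1 : ℕ} (hn1 : n0 < n1 + k0 + e0)
    (htw : ∀ x ∈ Y, TwinPair i (thPen N θ Y Z τ π) n1 (τ x) x)
    (htz : ∀ z1 ∈ Z, ∀ z2 ∈ Z, z1 ≠ z2 → π z1 = π z2 → TwinPair i (thPen N θ Y Z τ π) n1 z1 z2)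
    (h' : P → ℕ)
    (hle : ∀ z ∈ bdR ((unnat N \ Y) \ Z),
      hcan ((unnat N \ Y) \ Z) (thZ Z π (thX Y τ (fun x => θ (topOf x) x))) z ≤ h' z)
    (hk0 : ∀ z ∈ bdR ((unnat N \ Y) \ Z),
      hcan ((unnat N \ Y) \ Z) (thZ Z π (thX Y τ (fun x => θ (topOf x) x))) z < h' z →
      k0 ≤ hcan ((unnat N \ Y) \ Z) (thZ Z π (thX Y τ (fun x => θ (topOf x) x))) z ∧
      e0 ≤ hcan ((unnat N \ Y) \ Z) (thZ Z π (thX Y τ (fun x => θ (topOf x) x))) z ∧
      i + e0 < lev z)
    (hlev : ∀ z ∈ bdR ((unnat N \ Y) \ Z), h' z ≤ lev z - i)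
    (hbig : ∀ g : P → ℕ, (∀ x, x ∉ (unnat N \ Y) \ Z → g x = 0) →
      (∀ z ∈ bdR ((unnat N \ Y) \ Z), g z < h' z) → ∀ (x z : P), x ∉ (unnat N \ Y) \ Z →
      z ∈ (unnat N \ Y) \ Z → z ⋖ x →
      thPen N θ Y Z τ π x < g z → ∀ m,
      m + ∑ x ∈ (unnat N \ Y) \ Z, g x ≤ n0 → (1 + X : ℤ[X]) ^ (b (topOf x)) ∣
      ZB (P := {y : P // y ∉ (unnat N \ Y) \ Z ∧ topOf y = topOf x}) i ∅ 0
        (fun y => by classical exact (((unnat N \ Y) \ Z).filter (fun z => z ⋖ (y : P))).sup g) m) :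
    FarV P i ((unnat N \ Y) \ Z) (∑ t, b t) h' S n0 := by
  classical
  have HN := natSys_of_tops H
  have hR := F.lower T HN
  have hcp := F.cp T HN
  set Rp : Finset P := (unnat N \ Y) \ Z with hRp
  refine FV.raise hle hlev ?_
  rintro g g0 hg ⟨z0, hz0, hgz0⟩
  obtain ⟨hk, he, hl0⟩ := hk0 z0 hz0 (lt_of_le_of_lt hgz0 (hg z0 hz0))
  have hz0R := (mem_filter.mp hz0).1
  have hsum : hcan Rp (thZ Z π (thX Y τ (fun x => θ (topOf x) x))) z0 ≤ ∑ x ∈ Rp, g x :=
    hgz0.trans (Finset.single_le_sum (f := g) (fun _ _ => Nat.zero_le _) hz0R)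
  obtain ⟨x0, hx0R, hzx0, hx0⟩ := hcan_spec (θ := thZ Z π (thX Y τ (fun x => θ (topOf x) x))) hz0
  have hx0' : thPen N θ Y Z τ π x0 < g z0 := by
    rw [thPen_of hx0R]
    omega
  have hsum2 : ∑ x ∈ Rp, g x = ∑ x, g x :=
    Finset.sum_subset (subset_univ Rp) fun x _ hx => g0 x hx
  refine dvd_ZB_shift_at 0 hR FV.hlev g0 _ n0 (fun m hm => ?_)
  refine F4.zb_prod hR FV.hlev topOf hcp b (bg Rp g 0) (fun M hM => ?_)
  have hbg : ∀ y, bg Rp g 0 y = (Rp.filter (fun z => z ⋖ y)).sup g := by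
    intro y
    unfold bg
    exact max_eq_right (Nat.zero_le _)
  by_cases hM0 : M (topOf x0) < e0
  · left
    refine ⟨topOf x0, ?_⟩
    refine ZB_zero_of_cost (P := {x : P // x ∉ Rp ∧ topOf x = topOf x0})
      (fun y => if y = ⟨x0, hx0R, rfl⟩ then e0 else 0) ?_ ?_
    · intro y
      by_cases hy : y = ⟨x0, hx0R, rfl⟩
      · right
        refine ⟨y, le_rfl, Finset.notMem_empty _, ?_⟩
        rw [if_pos hy, hy]
        have h1 : g z0 ≤ bg Rp g 0 x0 := le_bg' 0 hz0R hzx0
        have h2 := hgr.lev_covBy hzx0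
        have h3 : lev (⟨x0, hx0R, rfl⟩ : {x : P // x ∉ Rp ∧ topOf x = topOf x0}) = lev x0 :=
          lev_subtype (p := fun x => x ∉ Rp ∧ topOf x = topOf x0) (pg_part_up hR hcp) _
        rw [h3]
        simp only
        omega
      · left
        rw [if_neg hy]
    · rw [Finset.sum_ite_eq' univ, if_pos (mem_univ _)]
      exact hM0
  · right
    intro t
    have hMt : M t ≤ m := by
      rw [← hM]
      exact Finset.single_le_sum (f := M) (fun _ _ => Nat.zero_le _) (mem_univ t)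
    by_cases hall : ∀ x, x ∉ Rp → topOf x = t → bg Rp g 0 x ≤ thPen N θ Y Z τ π x
    · have ht : t ≠ topOf x0 := by
        intro h
        have h1 := hall x0 hx0R h.symm
        have h2 : g z0 ≤ bg Rp g 0 x0 := le_bg' 0 hz0R hzx0
        omega
      have h3 : M t + M (topOf x0) ≤ m := by
        rw [← hM, ← Finset.sum_pair (f := M) ht]
        exact Finset.sum_le_sum_of_subset (Finset.subset_univ _)
      exact F.factorE T hgr H htw htz (F.goodR T H) t (bg Rp g 0) hall (by omega)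
    · push Not at hall
      obtain ⟨x, hx, hxt, hlt⟩ := hall
      rw [hbg, Finset.lt_sup_iff] at hlt
      obtain ⟨z, hz, hlt⟩ := hlt
      rw [mem_filter] at hz
      subst hxt
      have h4 := hbig g g0 hg x z hx hz.1 hz.2 hlt (M (topOf x)) (by omega)
      have h5 : (fun y : {y : P // y ∉ Rp ∧ topOf y = topOf x} => bg Rp g 0 (y : P)) =
          (fun y : {y : P // y ∉ Rp ∧ topOf y = topOf x} =>
            (Rp.filter (fun z => z ⋖ (y : P))).sup g) := by
        funext y
        exact hbg y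
      rw [h5]
      exact h4

end Sys

end Pool.Agent.GaussPoset

end

/-! From `Pool.Agent.W_448f4_h70.JK` -/

section

/-!
Special cells and their twins in systems with twins of the cells `(m, m + 1)` (MP_448cb3_co, S7).
-/

namespace Pool.Agent.GaussPoset

set_option linter.unusedSectionVars false

open Polynomial Finset

universe u

variable {P : Type u} [Fintype P] [PartialOrder P] [DecidableEq P]

section Sys

variable {i : ℕ} {N : Tops P → Finset P} {b : Tops P → ℕ} {θ : Tops P → P → ℕ}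
  {B : Tops P → P → Prop} {Y Yf Z : Finset P} {τ π : P → P}

open Classical in
/-- **One full bound at a special cell**: order `∑ b` for energies at most `2` above the least -/
theorem FoldSys.spec_one (F : FoldSys i N b B Y Yf Z τ π) (T0 : TwSys (unnat N) Y topOf τ)
    (hgr : GradedBelow P) (H : ∀ t, NatTop i t (b t) (N t) (θ t) (B t))
    (htw : ∀ x ∈ Y, TwinPair i (thPen N θ Y Z τ π) 3 (τ x) x)
    (htz : ∀ z1 ∈ Z, ∀ z2 ∈ Z, z1 ≠ z2 → π z1 = π z2 → TwinPair i (thPen N θ Y Z τ π) 3 z1 z2)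
    {E : Finset P}
    (hE : Good i ((unnat N \ Y) \ Z) (fun x => x ∉ unnat N ∧ B (topOf x) x) E) {h q : ℕ} {y : P} (hy : y ∉ E)
    {co : P → ℕ × ℕ} (C : F4.ConeAt y co q) (hih : i + h = q + 1) (hq : 6 ≤ q) (hh : 3 ≤ h)
    (hlow : ∀ z, z ∉ E → topOf z = topOf y → lev z ≤ i + 2 → y ≤ z) (hb : b (topOf y) = 2)
    {β : P → ℕ} (hβy : β y = h) (hβ : ∀ w, w ∉ E → β w ≤ h)
    (hβ0 : ∀ w, w ∉ E → topOf w ≠ topOf y → β w = 0)
    {m : ℕ} (hm : m ≤ F4.Efs i h y y + 2) :
    (1 + X : ℤ[X]) ^ (∑ k, b k) ∣ ZB i E 0 β m := by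
  have hElow := hE.1
  have hElev := hE.2.2.1
  have hcpE : ∀ x y, x ≤ y → x ∉ E → topOf x = topOf y := fun x y hxy hx =>
    F.cp T0 (natSys_of_tops H) x y hxy (fun h' => hx (hE.2.1 h'))
  have hp : ∀ x' z : P, x' ≤ z → (x' ∉ E ∧ topOf x' = topOf y) → (z ∉ E ∧ topOf z = topOf y) :=
    pg_part_up hElow hcpE
  refine F4.zb_prod hElow hElev topOf hcpE b β fun M hM => ?_
  by_cases hMy : M (topOf y) < F4.Efs i h y y
  · left
    refine ⟨topOf y, ?_⟩
    exact F4.part_zero hp (i := i) (k := h) (f := y) (s := y) ⟨hy, rfl⟩ ⟨hy, rfl⟩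
      (by simp only [hβy]; exact le_rfl) (by simp only [hβy]; exact le_rfl) hMy
  · right
    intro k
    by_cases hk : k = topOf y
    · subst hk
      rw [hb]
      have h1 : M (topOf y) ≤ m := by
        rw [← hM]
        exact Finset.single_le_sum (fun _ _ => Nat.zero_le _) (mem_univ _)
      exact F4.part_cone hp (x := y) ⟨hy, rfl⟩ C hih hq hh (fun z hz hlz => hlow z hz.1 hz.2 hlz)
        (fun z => hβ z z.2.1) (by simp only [hβy]) (h1.trans hm)
    · have h1 : M (topOf y) + M k ≤ m := by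
        rw [← hM, ← Finset.sum_pair (f := M) (Ne.symm hk)]
        exact Finset.sum_le_sum_of_subset (Finset.subset_univ _)
      refine F.factorE T0 hgr H htw htz hE k β (fun x hx hxk => ?_) (by omega)
      rw [hβ0 x hx (by rw [hxk]; exact hk)]
      exact Nat.zero_le _

open Classical in
/-- **The twins of a special cell**: the sums with the thresholds are the sums with the thresholds
one larger, for energies at most the cost of the latter. -/
theorem FoldSys.spec_twin (F : FoldSys i N b B Y Yf Z τ π) (T0 : TwSys (unnat N) Y topOf τ)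
    (hgr : GradedBelow P) (H : ∀ t, NatTop i t (b t) (N t) (θ t) (B t))
    (htw : ∀ x ∈ Y, TwinPair i (thPen N θ Y Z τ π) 3 (τ x) x)
    (htz : ∀ z1 ∈ Z, ∀ z2 ∈ Z, z1 ≠ z2 → π z1 = π z2 → TwinPair i (thPen N θ Y Z τ π) 3 z1 z2)
    {D : Finset P}
    (hD : Good i ((unnat N \ Y) \ Z) (fun x => x ∉ unnat N ∧ B (topOf x) x) D)
    {x x' : P} (T : Twn i (thPen N θ Y Z τ π) (x, x')) (hx : x ∉ D)
    (hx' : x' ∉ D) (hm' : ∀ y < x', y ∈ D) (hcx : topOf x' = topOf x)
    {h q : ℕ} (hθ : thPen N θ Y Z τ π x + 1 = h) (hlx : lev x = i + h + 1) (hih : i + h = q + 1) (hq : 6 ≤ q)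
    (hh : 3 ≤ h)
    {co co' : P → ℕ × ℕ} (C : F4.ConeAt x co q) (C' : F4.ConeAt x' co' q)
    (hlow : ∀ z, z ∉ D → topOf z = topOf x → lev z ≤ i + 2 → x < z)
    (hb : b (topOf x) = 2)
    {n : ℕ} (hn : n ≤ F4.Efs i h x x + h + 1) :
    (1 + X : ℤ[X]) ^ (∑ k, b k) ∣
      ZB i D 0 (st2 x x' (thPen N θ Y Z τ π x) (thPen N θ Y Z τ π x + 1)) n -
      ZB i D 0 (st2 x x' h (h + 1)) n := by
  obtain ⟨f1, f2, f3, f4⟩ := F.fam T0 hgr H
  have hup : ∀ y, x < y ↔ x' < y := T.up
  have hll : lev x = lev x' := lev_eq_of_up hup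
  have hne : x ≠ x' := T.ne
  have hθx : 1 ≤ thPen N θ Y Z τ π x := T.one_le
  have hθ' : thPen N θ Y Z τ π x' = thPen N θ Y Z τ π x := T.eq
  have hgood : ∀ E : Finset P, E = D ∪ dnf x ∨ E = D ∪ dnf x' →
      Good i ((unnat N \ Y) \ Z) (fun x => x ∉ unnat N ∧ B (topOf x) x) E := by
    rintro E (rfl | rfl)
    · exact f3 D hD x hx hθx
    · exact f3 D hD x' hx' (by omega)
  have hEeq : F4.Efs i h x x = F4.Efs i h x' x' := by
    unfold F4.Efs
    have e1 : univ.filter (fun y : P => x ≤ y ∨ x ≤ y) =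
        insert x (univ.filter (fun y : P => x < y)) := by
      ext y
      rw [mem_filter, mem_insert, mem_filter, or_self]
      constructor
      · rintro ⟨-, h⟩
        rcases eq_or_lt_of_le h with h | h
        · exact Or.inl h.symm
        · exact Or.inr ⟨mem_univ _, h⟩
      · rintro (h | ⟨-, h⟩)
        · exact ⟨mem_univ _, h.ge⟩
        · exact ⟨mem_univ _, h.le⟩
    have e2 : univ.filter (fun y : P => x' ≤ y ∨ x' ≤ y) =
        insert x' (univ.filter (fun y : P => x < y)) := by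
      ext y
      rw [mem_filter, mem_insert, mem_filter, or_self, hup]
      constructor
      · rintro ⟨-, h⟩
        rcases eq_or_lt_of_le h with h | h
        · exact Or.inl h.symm
        · exact Or.inr ⟨mem_univ _, h⟩
      · rintro (h | ⟨-, h⟩)
        · exact ⟨mem_univ _, h.ge⟩
        · exact ⟨mem_univ _, h.le⟩
    rw [e1, e2, Finset.sum_insert (by simp), Finset.sum_insert (by simp [hup]), hll]
  have key := F4.T_stepG (p := (1 + X : ℤ[X]) ^ (∑ k, b k)) (i := i) (D := D) (n := n)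
    (k := thPen N θ Y Z τ π x)
    hne hup (by omega) hx hx' hm' (fun E hE => (hgood E hE).1)
    (fun E hE => (hgood E hE).2.2.1) (fun w => topOf w = topOf x) (fun d hd hdD w hdw => by
      have hcp := F.cp T0 (natSys_of_tops H)
      have hdR : d ∉ (unnat N \ Y) \ Z := fun h' => hdD (hD.2.1 h')
      have e1 : topOf d = topOf x := by
        rcases hd with hd | hd
        · exact hcp d x hd hdR
        · exact (hcp d x' hd hdR).trans hcx
      exact (hcp d w hdw hdR).symm.trans e1) hθx ?_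
  · rw [hθ] at key
    rw [show thPen N θ Y Z τ π x + 2 = h + 1 by omega] at key
    rw [hθ]
    exact key
  · intro E hE y hy hyE β hβy hβ hβ0 m hmk
    rw [hθ] at hβy hβ
    have hDE : D ⊆ E := by
      rcases hE with rfl | rfl <;> exact subset_union_left
    have hEG := hgood E hE
    rcases hy with rfl | rfl
    · exact F.spec_one T0 hgr H htw htz hEG hyE C hih hq hh
        (fun z hz hcz hlz => (hlow z (fun h' => hz (hDE h')) hcz hlz).le) hb hβy hβ hβ0 (by omega)
    · exact F.spec_one T0 hgr H htw htz hEG hyE C' hih hq hh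
        (fun z hz hcz hlz => ((hup z).mp (hlow z (fun h' => hz (hDE h')) (hcz.trans hcx) hlz)).le)
        (by rw [hcx]; exact hb) hβy hβ
        (fun w hw hcw => hβ0 w hw (fun h' => hcw (h'.trans hcx.symm))) (by omega)

end Sys

end Pool.Agent.GaussPoset

end

/-! From `Pool.Agent.W_448f4_h70.JL` -/

section

/-!
The windows 2 and 3 of S7: the twins of the cells `(m, m + 1)` of the stairs and the elements which
hang below them (MP_448cb3_co)
-/

namespace Pool.Agent.GaussPoset.Sm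

set_option linter.unusedSectionVars false

open Polynomial Finset

universe u

variable {P : Type u} [Fintype P] [PartialOrder P] [DecidableEq P] {r j w : ℕ}
  {N : Tops P → Finset P} {b : Tops P → ℕ} {θ : Tops P → P → ℕ} {B : Tops P → P → Prop}

/-- twins of the cell `(j / 2, j / 2 + 1)` of a stair, seen from above -/
def Fc (j : ℕ) (x : P) : Prop := lev x = j + 1 ∧ nab (j - 1) x = 2 ∧ nab (j - 2) x = 3

/-- a type with its base elements -/
inductive TypB (j i : ℕ) (t : Tops P) (b : ℕ) (N : Finset P) (θ : P → ℕ) (B : P → Prop) : Prop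
  | light (h2 : θ = fun x => lev x - i) (hB : ∀ y, ¬ B y)
  | rect (Nc : Finset P) (co : P → ℕ × ℕ) (h0 : RectNat j i t b Nc co) (h1 : N = natR Nc co)
      (h2 : θ = thR i b Nc co) (hB : ∀ y, B y → (y ∈ Nc ∧ co y = (b - 1, i)))
  | stair (Nc : Finset P) (co : P → ℕ × ℕ) (h0 : StairNat j i t Nc co) (h1 : N = natS Nc co)
      (h2 : θ = thS i Nc co) (h3 : b = i / 2 + 1) (h5 : 2 ≤ i)
      (hB : ∀ y, B y ↔ (y ∈ Nc ∧ co y = (2 * (i / 2), i)))
  | low (hN : ∀ y ∈ N, lev y ≤ j)

lemma TypB.of_top {i : ℕ} {t : Tops P} {c : ℕ} {M : Finset P} {ϑ : P → ℕ}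
    (T : TopType j i t c M ϑ) (hgr : GradedBelow P) :
    ∃ B, TypB j i t c M ϑ B ∧ NatTop i t c M ϑ B := by
  rcases T with ⟨h1, h2, h3, h4, h5, h6⟩ | ⟨Nc, co, h0, h1, h2, h4⟩ |
    ⟨Nc, co, h0, h1, h2, h3, h4, h5⟩
  · refine ⟨fun _ => False, TypB.light h2 (fun _ h => h), ?_⟩
    rw [h1, h2, h3]
    exact natTop_light hgr (fun x hx hxi => h5 x hx (hxi.trans h4)) h6
  · refine ⟨_, TypB.rect Nc co h0 h1 h2 (fun _ h => h), ?_⟩
    rw [h1, h2]
    exact h0.natTop hgr h4
  · refine ⟨_, TypB.stair Nc co h0 h1 h2 h3 h5 (fun _ => Iff.rfl), ?_⟩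
    rw [h1, h2, h3]
    exact h0.natTop hgr h5 h4

lemma TypB.of_typeX {i : ℕ} {t : Tops P} {c : ℕ} {M : Finset P} {ϑ : P → ℕ}
    (T : TypeX j i t c M ϑ) (hgr : GradedBelow P) (hij : i ≤ j)
    (hex : ∃ x ≤ (t : P), lev x = i) :
    ∃ B, TypB j i t c M ϑ B ∧ NatTop i t c M ϑ B := by
  rcases T with ⟨h1, h2, h3, h5⟩ | ⟨Nc, co, h0, h1, h2, h4⟩ | ⟨Nc, co, h0, h1, h2, h3, h4, h5'⟩
  · refine ⟨fun _ => False, TypB.light h2 (fun _ h => h), ?_⟩
    rw [h1, h2, h3]
    exact natTop_light hgr (fun x hx hxi => h5 x hx (hxi.trans hij)) hex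
  · refine ⟨_, TypB.rect Nc co h0 h1 h2 (fun _ h => h), ?_⟩
    rw [h1, h2]
    exact h0.natTop hgr hij
  · refine ⟨_, TypB.stair Nc co h0 h1 h2 h3 h4 (fun _ => Iff.rfl), ?_⟩
    rw [h1, h2, h3]
    exact h0.natTop hgr h4 hij

/-- the data of a window -/
structure FdX (r j w : ℕ) (N : Tops P → Finset P) (b : Tops P → ℕ) (θ : Tops P → P → ℕ)
    (B : Tops P → P → Prop) : Prop where
  H : Gr P r
  h7 : 7 ≤ j
  hj : w + 5 ≤ j
  hw1 : 1 ≤ w
  hw : w ≤ 3
  typ : ∀ t, TypB j w t (b t) (N t) (θ t) (B t)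
  nt : ∀ t, NatTop w t (b t) (N t) (θ t) (B t)
  tws : TwSys (unnat N) (twA N) topOf (twT N)
  low : ∀ x, lev x ≤ j → x ∉ unnat N
  twn : ∀ x ∈ twA N, Twn w (thA N θ) (twT N x, x)
  le_th : ∀ y, y ∉ unnat N → j ≤ lev y → lev y ≤ θ (topOf y) y + w + 3
  sum_b : ∑ t, b t = (lv P w).card

namespace FdX

lemma natSys (W : FdX r j w N b θ B) : NatSys N := natSys_of_tops W.nt

lemma lt_lev (W : FdX r j w N b θ B) {x : P} (hx : x ∈ unnat N) : j < lev x := by
  by_contra hcon
  exact W.low x (not_lt.mp hcon) hx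

lemma up (W : FdX r j w N b θ B) {x y : P} (hx : x ∉ unnat N) (hxy : x ≤ y) :
    y ∉ unnat N ∧ topOf y = topOf x := by
  have HN := W.natSys
  exact ⟨fun h => hx (HN.lower x y hxy h), (HN.cp x y hxy hx).symm⟩

lemma not_tw (_W : FdX r j w N b θ B) {x : P} (hx : x ∉ unnat N) : x ∉ twA N :=
  fun h => hx (mem_twA.mp h).1

lemma thA_nat (W : FdX r j w N b θ B) {x : P} (hx : x ∉ unnat N) :
    thA N θ x = θ (topOf x) x := thX_not (W.not_tw hx)

lemma thA_tw (_W : FdX r j w N b θ B) {x : P} (hx : x ∈ twA N) :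
    thA N θ x = θ (topOf (twT N x)) (twT N x) := thX_of hx

/-- base elements have small level -/
lemma bl (W : FdX r j w N b θ B) {y : P} (hy : y ∉ unnat N) (hB : B (topOf y) y) : lev y ≤ j := by
  have hj := W.hj
  have hw := W.hw
  rcases W.typ (topOf y) with ⟨h2, h⟩ | ⟨Nc, co, h0, h1, h2, h⟩ | ⟨Nc, co, h0, h1, h2, h3, h4, h⟩ |
    h
  · exact absurd hB (h y)
  · obtain ⟨e1, e2⟩ := h y hB
    have e3 := h0.chart.lev y e1
    have e4 := h0.b_le
    rw [e2] at e3
    simp only at e3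
    omega
  · obtain ⟨e1, e2⟩ := (h y).mp hB
    have e3 := h0.chart.lev y e1
    rw [e2] at e3
    simp only at e3
    omega
  · exact h y (W.natSys.mem_iff.mpr ⟨hy, rfl⟩)

/-- the cell of a twin seen in the chart of a stair -/
lemma cell (W : FdX r j w N b θ B) {x : P} (hx : x ∈ twA N) (hF : Fc j x) {Nc : Finset P}
    {co : P → ℕ × ℕ} (h0 : StairNat j w (topOf x) Nc co) (h1 : N (topOf x) = natS Nc co)
    (h2 : θ (topOf x) = thS w Nc co) :
    twT N x ∈ Nc ∧ twT N x ∉ junk (fun c => c.1 ≤ c.2) Nc co ∧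
      co (twT N x) = (j / 2, j / 2 + 1) ∧ j % 2 = 0 := by
  have T := W.twn x hx
  have h7 := W.h7
  have hj := W.hj
  have hw := W.hw
  have hup : ∀ y, twT N x < y ↔ x < y := T.up
  have hll : lev (twT N x) = lev x := lev_eq_of_up hup
  have hnat := W.tws.nat x hx
  have hcp : topOf (twT N x) = topOf x := W.tws.cp x hx
  have e1 : thA N θ (twT N x) = θ (topOf x) (twT N x) := by rw [W.thA_nat hnat, hcp]
  have e2 : thA N θ (twT N x) + 1 ≤ lev (twT N x) - w := T.lt
  obtain ⟨f1, f2, f3⟩ := hF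
  have hm : twT N x ∈ natS Nc co := by
    rw [← h1, ← hcp]
    exact W.natSys.mem_iff.mpr ⟨hnat, rfl⟩
  have hJ : twT N x ∉ junk (fun c => c.1 ≤ c.2) Nc co := by
    intro h
    rw [e1, h2] at e2
    unfold thS at e2
    rw [if_pos h] at e2
    omega
  have hN : twT N x ∈ Nc := (mem_natS.mp hm).resolve_right hJ
  have g1 : nab (j - 1) (twT N x) = nab (j - 1) x := nab_congr_up hup (by omega)
  have g2 : nab (j - 2) (twT N x) = nab (j - 2) x := nab_congr_up hup (by omega)
  have g3 := stair_nab h0.chart hN (k := j - 1) (by omega)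
  have g4 := stair_nab h0.chart hN (k := j - 2) (by omega)
  have g5 := h0.chart.lev _ hN
  have g6 : (co (twT N x)).1 ≤ (co (twT N x)).2 := h0.chart.mem _ hN
  refine ⟨hN, hJ, Prod.ext ?_ ?_, ?_⟩
  · show (co (twT N x)).1 = j / 2
    omega
  · show (co (twT N x)).2 = j / 2 + 1
    omega
  · omega

/-- the top of a twin of a cell `(m, m + 1)` -/
lemma stair (W : FdX r j w N b θ B) {x : P} (hx : x ∈ twA N) (hF : Fc j x) :
    ∃ Nc co, StairNat j w (topOf x) Nc co ∧ N (topOf x) = natS Nc co ∧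
      θ (topOf x) = thS w Nc co ∧ b (topOf x) = w / 2 + 1 ∧ 2 ≤ w ∧
      ∀ y, B (topOf x) y ↔ (y ∈ Nc ∧ co y = (2 * (w / 2), w)) := by
  have T := W.twn x hx
  have h7 := W.h7
  have hj := W.hj
  have hw := W.hw
  have hup : ∀ y, twT N x < y ↔ x < y := T.up
  have hll : lev (twT N x) = lev x := lev_eq_of_up hup
  have hnat := W.tws.nat x hx
  have hcp : topOf (twT N x) = topOf x := W.tws.cp x hx
  have e1 : thA N θ (twT N x) = θ (topOf x) (twT N x) := by rw [W.thA_nat hnat, hcp]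
  have e2 : thA N θ (twT N x) + 1 ≤ lev (twT N x) - w := T.lt
  have hlx := W.lt_lev (W.tws.sub hx)
  have hm : twT N x ∈ N (topOf x) := by
    rw [← hcp]
    exact W.natSys.mem_iff.mpr ⟨hnat, rfl⟩
  rcases W.typ (topOf x) with ⟨h2, h⟩ | ⟨Nc, co, h0, h1, h2, h⟩ | ⟨Nc, co, h0, h1, h2, h3, h4, h⟩ |
    h
  · exfalso
    rw [e1, h2] at e2
    simp only at e2
    omega
  · exfalso
    have hJ : ¬ (twT N x ∈ junk (fun _ => True) Nc co ∨
        twT N x ∈ junk (fun _ => True) Nc (swp co)) := by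
      intro h'
      rw [e1, h2] at e2
      unfold thR at e2
      rw [if_pos h'] at e2
      omega
    have hN : twT N x ∈ Nc := by
      rw [h1, mem_natR] at hm
      rcases hm with h' | h' | h'
      · exact h'
      · exact absurd (Or.inl h') hJ
      · exact absurd (Or.inr h') hJ
    obtain ⟨f1, f2, f3⟩ := hF
    have g1 : nab (j - 1) (twT N x) = nab (j - 1) x := nab_congr_up hup (by omega)
    have g2 : nab (j - 2) (twT N x) = nab (j - 2) x := nab_congr_up hup (by omega)
    have g3 := rect_nab h0.chart hN (k := j - 1) (by omega)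
    have g4 := rect_nab h0.chart hN (k := j - 2) (by omega)
    have g5 := h0.chart.lev _ hN
    omega
  · exact ⟨Nc, co, h0, h1, h2, h3, h4, h⟩
  · exfalso
    have := h _ hm
    omega

/-- the threshold of a twin of a cell `(m, m + 1)` -/
lemma th_fold (W : FdX r j w N b θ B) {x : P} (hx : x ∈ twA N) (hF : Fc j x) :
    thA N θ x = j - w - 1 ∧ 2 ≤ w := by
  obtain ⟨Nc, co, h0, h1, h2, h3, h4, h5⟩ := W.stair hx hF
  obtain ⟨c1, c2, c3, c4⟩ := W.cell hx hF h0 h1 h2
  have h7 := W.h7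
  have hj := W.hj
  have hll : lev (twT N x) = lev x := lev_eq_of_up (W.tws.up x hx)
  have hl := hF.1
  have e1 := stair_th7 h0 W.hw h4 c1 c2 (by omega)
  have hcp : topOf (twT N x) = topOf x := W.tws.cp x hx
  rw [W.thA_tw hx, hcp, h2]
  rw [c3] at e1
  simp only at e1
  omega

open Classical in
/-- the twins of the cells `(m, m + 1)` -/
noncomputable def _root_.Pool.Agent.GaussPoset.Sm.yfA (j : ℕ) (N : Tops P → Finset P) : Finset P :=
  (twA N).filter (Fc j)

open Classical in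
/-- the elements which hang below these twins -/
noncomputable def _root_.Pool.Agent.GaussPoset.Sm.zfA (j : ℕ) (N : Tops P → Finset P) : Finset P :=
  (rA N).filter (fun z => ∃ x ∈ twA N, Fc j x ∧ ∀ y, z < y ↔ x ≤ y)

open Classical in
/-- the twin above a pendant -/
noncomputable def _root_.Pool.Agent.GaussPoset.Sm.piA (j : ℕ) (N : Tops P → Finset P) (z : P) : P :=
  if h : ∃ x ∈ twA N, Fc j x ∧ ∀ y, z < y ↔ x ≤ y then h.choose else z

lemma _root_.Pool.Agent.GaussPoset.Sm.mem_yfA {x : P} : x ∈ yfA j N ↔ x ∈ twA N ∧ Fc j x := by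
  classical
  unfold yfA
  rw [mem_filter]

lemma _root_.Pool.Agent.GaussPoset.Sm.mem_zfA {z : P} : z ∈ zfA j N ↔
    z ∈ rA N ∧ ∃ x ∈ twA N, Fc j x ∧ ∀ y, z < y ↔ x ≤ y := by
  classical
  unfold zfA
  rw [mem_filter]

lemma _root_.Pool.Agent.GaussPoset.Sm.piA_spec {z : P} (h : z ∈ zfA j N) :
    piA j N z ∈ twA N ∧ Fc j (piA j N z) ∧ ∀ y, z < y ↔ piA j N z ≤ y := by
  have h1 := (mem_zfA.mp h).2
  unfold piA
  rw [dif_pos h1]
  exact h1.choose_spec

/-- **the system of the twins of the cells `(m, m + 1)`** -/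
theorem sys (W : FdX r j w N b θ B) :
    FoldSys w N b B (twA N) (yfA j N) (zfA j N) (twT N) (piA j N) where
  sub := fun x hx => (mem_yfA.mp hx).1
  fold := by
    intro x hx
    obtain ⟨hx, hF⟩ := mem_yfA.mp hx
    obtain ⟨Nc, co, h0, h1, h2, h3, h4, h5⟩ := W.stair hx hF
    obtain ⟨c1, c2, c3, c4⟩ := W.cell hx hF h0 h1 h2
    have hj := W.hj
    have hw := W.hw
    refine ⟨Nc, co, j / 2, ⟨h0.chart, h4, by omega, h0.cell,
      low_of_strip h0.strip (by omega), c1, c3, ?_, W.tws.up x hx⟩, h1, h3, h5⟩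
    rw [← h1]
    exact mem_unnat.mp (W.tws.sub hx) _
  uniq := by
    intro x hx y hy hxy
    obtain ⟨hx, hF⟩ := mem_yfA.mp hx
    obtain ⟨hy, hG⟩ := mem_yfA.mp hy
    obtain ⟨Nc, co, h0, h1, h2, h3, h4, h5⟩ := W.stair hx hF
    obtain ⟨c1, c2, c3, c4⟩ := W.cell hx hF h0 h1 h2
    rw [hxy] at h0 h1 h2
    obtain ⟨d1, d2, d3, d4⟩ := W.cell hy hG h0 h1 h2
    exact W.tws.inj x hx y hy (h0.chart.inj _ c1 _ d1 (c3.trans d3.symm))
  penU := fun z hz => (mem_rA.mp (mem_zfA.mp hz).1).1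
  penY := fun z hz => (mem_rA.mp (mem_zfA.mp hz).1).2
  penF := fun z hz => mem_yfA.mpr ⟨(piA_spec hz).1, (piA_spec hz).2.1⟩
  pen := fun z hz => (piA_spec hz).2.2

lemma lev_pen (W : FdX r j w N b θ B) {z : P} (hz : z ∈ zfA j N) : lev z = j + 2 ∧ z ⋖ piA j N z := by
  obtain ⟨h1, h2, h3⟩ := piA_spec hz
  have h4 : z < piA j N z := (h3 _).mpr le_rfl
  have h5 : z ⋖ piA j N z := ⟨h4, fun y h6 h7 => absurd ((h3 y).mp h6) (not_le_of_gt h7)⟩
  have h6 := (W.H.covBy_iff.mp h5).2
  have h7 := h2.1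
  exact ⟨by omega, h5⟩

/-- thresholds of the natural elements and twins -/
lemma thPen_eq (_W : FdX r j w N b θ B) {x : P} (hx : x ∉ rA N) :
    thPen N θ (twA N) (zfA j N) (twT N) (piA j N) x = thA N θ x := by
  rw [thPen_of (fun h => hx (mem_sdiff.mp h).1), thZ_not (fun h => hx (mem_zfA.mp h).1)]

/-- thresholds of the pendants -/
lemma thPen_pen (W : FdX r j w N b θ B) {z : P} (hz : z ∈ zfA j N) :
    thPen N θ (twA N) (zfA j N) (twT N) (piA j N) z = j - w := by
  obtain ⟨h1, h2, h3⟩ := piA_spec hz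
  have h4 := (W.th_fold h1 h2).1
  have hj := W.hj
  rw [thPen_of (fun h => (mem_sdiff.mp h).2 hz)]
  unfold thZ
  rw [if_pos hz]
  have h5 : thX (twA N) (twT N) (fun x => θ (topOf x) x) (piA j N z) = j - w - 1 := h4
  omega

/-- **the position of the twins of the cells `(m, m + 1)`** -/
theorem pos (W : FdX r j w N b θ B) {x : P} (hx : x ∈ yfA j N) :
    FoldPos w N θ B (twA N) (zfA j N) (twT N) (piA j N) (j - w - 1) x := by
  obtain ⟨hx, hF⟩ := mem_yfA.mp hx
  obtain ⟨e1, e2⟩ := W.th_fold hx hF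
  have hj := W.hj
  have hl := hF.1
  refine ⟨e1, by omega, by omega, ?_, ?_, ?_, ?_⟩
  · intro y hy
    have := W.lt_lev (W.tws.sub hy)
    omega
  · intro c hc y hy
    by_contra hcon
    push Not at hcon
    have h1 : twT N x ⋖ c := (cov_of_up (W.tws.up x hx)).mpr hc
    have h2 : twT N x ≠ x := fun h => W.tws.nat x hx (by rw [h]; exact W.tws.sub hx)
    exact Win.dc_three W.H hy h1 hc hcon.1 hcon.2 h2
  · intro y hy hB
    have := W.bl hy hB
    omega
  · intro y hy
    have h1 := W.low y (by omega)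
    rw [W.thPen_eq (fun h => h1 (mem_rA.mp h).1), W.thA_nat h1]
    have := W.le_th y h1 (by omega)
    omega

end FdX

end Pool.Agent.GaussPoset.Sm

end

/-! From `Pool.Agent.W_448f4_h70.JM` -/

section

/-!
The windows 2 and 3 of S7: far data without the twins of the cells `(m, m + 1)` of the stairs and
their pendants (MP_448cb3_co)
-/

namespace Pool.Agent.GaussPoset.Sm

set_option linter.unusedSectionVars false

open Polynomial Finset

universe u

variable {P : Type u} [Fintype P] [PartialOrder P] [DecidableEq P] {r j w : ℕ}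
  {N : Tops P → Finset P} {b : Tops P → ℕ} {θ : Tops P → P → ℕ} {B : Tops P → P → Prop}

namespace FdX

lemma not_rA_tw (W : FdX r j w N b θ B) {x : P} (hx : x ∈ twA N) : twT N x ∉ rA N :=
  fun h => W.tws.nat x hx (mem_rA.mp h).1

lemma th_le (W : FdX r j w N b θ B) {y : P} (hy : y ∉ unnat N) :
    θ (topOf y) y ≤ lev y - w := by
  have h1 := (W.sys.fam W.tws W.H.gradedBelow W.nt).2.1 y
  rw [W.thPen_eq (fun h => hy (mem_rA.mp h).1), W.thA_nat hy] at h1
  exact h1

/-- the twins of the system -/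
lemma twnP (W : FdX r j w N b θ B) {x : P} (hx : x ∈ twA N) :
    Twn w (thPen N θ (twA N) (zfA j N) (twT N) (piA j N)) (twT N x, x) := by
  have T := W.twn x hx
  have e1 := W.thPen_eq (W.not_rA_tw hx)
  have e2 := W.thPen_eq (x := x) (fun h => (mem_rA.mp h).2 hx)
  have e3 : ∀ y, twT N x < y →
      thPen N θ (twA N) (zfA j N) (twT N) (piA j N) y = thA N θ y := fun y hy =>
    W.thPen_eq (fun h => (W.up (W.tws.nat x hx) hy.le).1 (mem_rA.mp h).1)
  refine ⟨T.ne, T.up, ?_, ?_, ?_, ?_⟩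
  · simp only
    rw [e1]; exact T.one_le
  · simp only
    rw [e1, e2]; exact T.eq
  · simp only
    rw [e1]; exact T.lt
  · intro y hy
    simp only at hy ⊢
    rw [e1, e3 y hy]
    exact T.mono y hy

lemma tcstP (W : FdX r j w N b θ B) {x : P} (hx : x ∈ twA N) :
    tcst w (thPen N θ (twA N) (zfA j N) (twT N) (piA j N)) (twT N x, x) =
      tcst w (thA N θ) (twT N x, x) := by
  have e1 := W.thPen_eq (W.not_rA_tw hx)
  rw [tcst_eq (W.twnP hx), tcst_eq (W.twn x hx)]
  simp only
  rw [e1]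

/-- the least cost of the twins of the cells `(m, m + 1)` -/
lemma cM_eq (W : FdX r j w N b θ B) {x : P} (hx : x ∈ twA N) (hF : Fc j x) :
    cM w (j - w - 1) (twT N x) = tcst w (thA N θ) (twT N x, x) := by
  have T := W.twn x hx
  have e1 : thA N θ (twT N x) = j - w - 1 := T.eq.symm.trans (W.th_fold hx hF).1
  rw [tcst_eq T]
  simp only
  rw [e1]
  rfl

/-- pairs of pendants -/
lemma twnZ (W : FdX r j w N b θ B) {z1 z2 : P} (h1 : z1 ∈ zfA j N) (h2 : z2 ∈ zfA j N)
    (hne : z1 ≠ z2) (h : piA j N z1 = piA j N z2) :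
    Twn w (thPen N θ (twA N) (zfA j N) (twT N) (piA j N)) (z1, z2) := by
  obtain ⟨a1, a2, a3⟩ := piA_spec h1
  obtain ⟨b1, b2, b3⟩ := piA_spec h2
  have e1 := W.thPen_pen h1
  have e2 := W.thPen_pen h2
  have hj := W.hj
  have hl := (W.lev_pen h1).1
  have hx := (W.th_fold a1 a2).1
  refine ⟨hne, fun y => ?_, ?_, ?_, ?_, ?_⟩
  · simp only
    rw [a3, b3, h]
  · simp only
    rw [e1]; omega
  · simp only
    rw [e1, e2]
  · simp only
    rw [e1, hl]
    omega
  · intro y hy
    simp only at hy ⊢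
    rw [e1]
    have hy' := (a3 y).mp hy
    rcases eq_or_lt_of_le hy' with h3 | h3
    · rw [← h3, W.thPen_eq (fun h => (mem_rA.mp h).2 a1)]
      omega
    · have h4 : twT N (piA j N z1) < y := (W.tws.up _ a1 y).mpr h3
      have h5 := (W.up (W.tws.nat _ a1) h4.le).1
      rw [W.thPen_eq (fun h => h5 (mem_rA.mp h).1), W.thA_nat h5]
      have h6 := W.th_le h5
      have h7 := lev_strictAnti h3
      have h8 := a2.1
      omega

lemma pair3 (W : FdX r j w N b θ B) {x : P} (hx : x ∈ twA N) :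
    TwinPair w (thPen N θ (twA N) (zfA j N) (twT N) (piA j N)) 3 (twT N x) x := by
  have h1 := W.twnP hx
  refine h1.pair ?_
  rw [tcst_eq h1]
  have := h1.one_le
  omega

lemma pairZ3 (W : FdX r j w N b θ B) {z1 z2 : P} (h1 : z1 ∈ zfA j N) (h2 : z2 ∈ zfA j N)
    (hne : z1 ≠ z2) (h : piA j N z1 = piA j N z2) :
    TwinPair w (thPen N θ (twA N) (zfA j N) (twT N) (piA j N)) 3 z1 z2 := by
  have h1 := W.twnZ h1 h2 hne h
  refine h1.pair ?_
  rw [tcst_eq h1]
  have := h1.one_le
  omega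

/-- elements below the other twins -/
lemma below (W : FdX r j w N b θ B) {x y : P} (hx : x ∈ twA N) (hF : ¬ Fc j x) (hy : y < x) :
    y ∈ (unnat N \ twA N) \ zfA j N := by
  have HN := W.natSys
  have hU := W.tws.sub hx
  refine mem_sdiff.mpr ⟨mem_sdiff.mpr ⟨HN.lower y _ hy.le hU, fun h => ?_⟩, fun h => ?_⟩
  · exact W.tws.top_unnat HN h hy hU
  · have h1 := W.sys.above W.tws HN h hy hU
    exact hF (h1 ▸ (piA_spec h).2.1)

/-- a special pair with the larger thresholds -/
lemma twnS (W : FdX r j w N b θ B) {x : P} (hx : x ∈ twA N)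
    (hs : Spc j w N b θ (twT N x)) : Twn w (fun _ => j - w) (twT N x, x) := by
  obtain ⟨Nc, co, C⟩ := hs
  have H := W.twn x hx
  have hj := W.hj
  have hl := C.lev (by omega)
  refine ⟨H.ne, H.up, ?_, rfl, ?_, fun _ _ => Nat.le_succ _⟩
  · show 1 ≤ j - w
    omega
  · show j - w + 1 ≤ lev (twT N x) - w
    omega

open Classical in
/-- the sums with two high labels -/
theorem key_tw (W : FdX r j w N b θ B) {n0 : ℕ} {x : P} (hx : x ∈ twA N) (hF : ¬ Fc j x)
    (hcost : n0 ≤ tcS j w N b θ x) {D : Finset P}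
    (hD : Good w ((unnat N \ twA N) \ zfA j N) (fun x => x ∉ unnat N ∧ B (topOf x) x) D)
    (h1 : twT N x ∉ D) (h2 : x ∉ D) {n : ℕ} (hn : n ≤ n0) :
    (1 + X : ℤ[X]) ^ (∑ t, b t) ∣ ZB w D 0
      (st2 (twT N x) x (thA N θ (twT N x)) (thA N θ (twT N x) + 1)) n -
      (if tcS j w N b θ x = n then TmS j w N b θ x else 0) := by
  have T := W.twn x hx
  have hj := W.hj
  have h7 := W.h7
  have hw := W.hw
  have hxn := W.tws.nat x hx
  have hup : ∀ y, twT N x < y ↔ x < y := W.tws.up x hx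
  have hll : lev (twT N x) = lev x := lev_eq_of_up hup
  have hl := W.lt_lev (W.tws.sub hx)
  have hDl : ∀ d ∈ D, w < lev d := hD.2.2.1
  have hupD : ∀ y, twT N x < y → y ∉ D := fun y hy hyD => h1 (hD.1 _ _ hy.le hyD)
  by_cases hs : Spc j w N b θ (twT N x)
  · have T' := W.twnS hx hs
    have hs' := hs
    obtain ⟨Nc, co, C⟩ := hs
    have hlC := C.lev (by omega)
    have e1 : thA N θ (twT N x) = θ (topOf (twT N x)) (twT N x) := W.thA_nat hxn
    have hth := C.th
    have e3 : tcS j w N b θ x = tcst w (fun _ => j - w) (twT N x, x) := by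
      unfold tcS
      rw [if_pos hs']
    have e4 : TmS j w N b θ x = Tm w (fun _ => j - w) (twT N x, x) := by
      unfold TmS
      rw [if_pos hs']
    have hlC2 : lev (twT N x) = w + (j - w) + 1 := by omega
    have e5 := F4.tcst_const T' hlC2
    have hne : twT N x ≠ x := T.ne
    have e6 := W.thPen_eq (W.not_rA_tw hx)
    have k1 := W.sys.spec_twin W.tws W.H.gradedBelow W.nt (fun x hx => W.pair3 hx)
      (fun z1 h1 z2 h2 h3 h4 => W.pairZ3 h1 h2 h3 h4) hD (W.twnP hx) h1 h2
      (fun y hy => hD.2.1 (W.below hx hF hy)) (W.tws.cp x hx).symm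
      (h := j - w) (q := j - 1) (by rw [e6, e1]; omega) hlC2 (by omega) (by omega) (by omega)
      C.cone (C.cone.twin hne hup)
      (fun z _ hcz hlz => C.above hw (by omega) hcz hlz) C.hb (n := n) (by omega)
    have k2 := ZB_st2_exact (D := D) T' (by omega) hDl h1 h2 hupD (n0 := n)
      (by rw [← e3]; omega)
    rw [e6] at k1
    rw [e3, e4, ← k2]
    exact k1
  · have e3 : tcS j w N b θ x = tcst w (thA N θ) (twT N x, x) := by
      unfold tcS
      rw [if_neg hs]
    have e4 : TmS j w N b θ x = Tm w (thA N θ) (twT N x, x) := by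
      unfold TmS
      rw [if_neg hs]
    have k2 := ZB_st2_exact (D := D) T (by omega) hDl h1 h2 hupD (n0 := n)
      (by rw [← e3]; omega)
    rw [e3, e4, k2, sub_self]
    exact dvd_zero _

/-- the labels of the system -/
noncomputable def _root_.Pool.Agent.GaussPoset.Sm.hRz (j : ℕ) (N : Tops P → Finset P)
    (θ : Tops P → P → ℕ) : P → ℕ :=
  hcan (rA N \ zfA j N) (thZ (zfA j N) (piA j N) (thA N θ))

/-- **The far window theorem without the twins of the cells `(m, m + 1)` and their pendants.** -/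
theorem farF0 (W : FdX r j w N b θ B) (n0 : ℕ)
    (hcost : ∀ x ∈ twA N, ¬ Fc j x → n0 ≤ tcS j w N b θ x)
    (hfold : ∀ x ∈ twA N, Fc j x → n0 < tcst w (thA N θ) (twT N x, x) + (j - w) + 1) :
    FarV P w (rA N \ zfA j N) (∑ t, b t) (hRz j N θ)
      (∑ x ∈ (by classical exact (twA N).filter (fun x => ¬ Fc j x ∧ tcS j w N b θ x = n0)),
        TmS j w N b θ x) n0 := by
  classical
  have hj := W.hj
  have F := W.sys.farV W.tws W.H.gradedBelow W.nt (n0 := n0) ?_ ?_
    (fun x => tcS j w N b θ x = n0) (fun x => TmS j w N b θ x) ?_ ?_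
  · have hs : (∑ x ∈ (twA N \ yfA j N).filter (fun x => tcS j w N b θ x = n0), TmS j w N b θ x) =
        ∑ x ∈ (twA N).filter (fun x => ¬ Fc j x ∧ tcS j w N b θ x = n0), TmS j w N b θ x := by
      refine Finset.sum_congr ?_ (fun _ _ => rfl)
      ext x
      rw [mem_filter, mem_filter, mem_sdiff, mem_yfA]
      tauto
    rw [← hs]
    convert F using 2
    · rfl
    · ext x
      simp only [mem_filter]
  · intro x hx
    have hx' := mem_yfA.mp hx
    refine ⟨j - w - 1, W.pos hx, ?_⟩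
    rw [W.cM_eq hx'.1 hx'.2]
    have := hfold x hx'.1 hx'.2
    omega
  · intro x hx _
    exact W.twn x hx
  · intro x hx hxf D hD h1 h2 n hn
    have hF : ¬ Fc j x := fun h => hxf (mem_yfA.mpr ⟨hx, h⟩)
    have hC := hcost x hx hF
    have k := W.key_tw hx hF hC hD h1 h2 hn.le
    rw [if_neg (by omega), sub_zero] at k
    exact k
  · intro x hx hxf D hD h1 h2
    have hF : ¬ Fc j x := fun h => hxf (mem_yfA.mpr ⟨hx, h⟩)
    have k := W.key_tw hx hF (hcost x hx hF) hD h1 h2 le_rfl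
    convert k

end FdX

end Pool.Agent.GaussPoset.Sm

end

/-! From `Pool.Agent.W_448f4_h70.JN` -/

section

/-!
The windows 2 and 3 of S7: the labels without the twins of the cells `(m, m + 1)` of the stairs and
their pendants (MP_448cb3_co)
-/

namespace Pool.Agent.GaussPoset.Sm

set_option linter.unusedSectionVars false

open Polynomial Finset

universe u

variable {P : Type u} [Fintype P] [PartialOrder P] [DecidableEq P] {r j w : ℕ}
  {N : Tops P → Finset P} {b : Tops P → ℕ} {θ : Tops P → P → ℕ} {B : Tops P → P → Prop}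

open Classical in
/-- the labels: as in the system below the pendants of the twins of the cells `(m, m + 1)` -/
noncomputable def hF (j w : ℕ) (N : Tops P → Finset P) (b : Tops P → ℕ) (θ : Tops P → P → ℕ)
    (z : P) : ℕ :=
  if ∃ y ∈ zfA j N, z ⋖ y then hRz j N θ z else hS j w N b θ z

lemma hF_adj {z : P} (h : ∃ y ∈ zfA j N, z ⋖ y) : hF j w N b θ z = hRz j N θ z := if_pos h

lemma hF_not {z : P} (h : ∀ y ∈ zfA j N, ¬ z ⋖ y) : hF j w N b θ z = hS j w N b θ z :=
  if_neg (by rintro ⟨y, hy, hz⟩; exact h y hy hz)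

/-- the labels agree away from the pendants -/
lemma hRz_eq {z : P} (h : ∀ y ∈ zfA j N, ¬ z ⋖ y) : hRz j N θ z = hA N θ z := by
  unfold hRz hA hcan
  congr 1
  ext t
  simp only [Set.mem_ofPred_eq]
  constructor
  · rintro ⟨x, hx, hzx, ht⟩
    have h1 : x ∉ zfA j N := fun h2 => h x h2 hzx
    have h2 : x ∉ rA N := fun h2 => hx (mem_sdiff.mpr ⟨h2, h1⟩)
    rw [thZ_not h1] at ht
    exact ⟨x, h2, hzx, ht⟩
  · rintro ⟨x, hx, hzx, ht⟩
    refine ⟨x, fun h2 => hx (mem_sdiff.mp h2).1, hzx, ?_⟩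
    rw [thZ_not (fun h2 => hx (mem_zfA.mp h2).1)]
    exact ht

namespace FdX

lemma bs (W : FdX r j w N b θ B) {x : P} (hx : x ∉ rA N) : Bs N θ x (GaussPoset.bs N x) := by
  classical
  unfold GaussPoset.bs
  rcases not_mem_rA.mp hx with h | h
  · rw [if_neg (W.not_tw h)]
    exact ⟨h, rfl, W.thA_nat h, fun k => Or.inl rfl, fun v => Iff.rfl⟩
  · rw [if_pos h]
    have h1 := W.tws.up x h
    refine ⟨W.tws.nat x h, W.tws.lev h, W.thA_tw h, fun k => ?_, h1⟩
    rcases Nat.lt_or_ge k (Pool.Agent.GaussPoset.lev x) with h2 | h2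
    · exact Or.inl (nab_congr_up h1 h2)
    · exact Or.inr h2

lemma hA_spec (W : FdX r j w N b θ B) {z : P} (hz : z ∈ bdR (rA N)) :
    ∃ x, x ∉ rA N ∧ z ⋖ x ∧
      hA N θ z = θ (topOf (GaussPoset.bs N x)) (GaussPoset.bs N x) + 1 := by
  obtain ⟨x, h1, h2, h3⟩ := hcan_spec (θ := thA N θ) hz
  refine ⟨x, h1, h2, ?_⟩
  rw [← (W.bs h1).th]
  exact h3

/-- data of a pendant below a special cell -/
theorem penS (W : FdX r j w N b θ B) {z : P} (hz : PenS j w N b θ z) :
    hA N θ z = j - w ∧ lev z = j + 2 ∧ z ∈ bdR (rA N) := by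
  obtain ⟨h1, x, h2, h3, h4, Nc, co, C⟩ := hz
  have H := W.H
  have hj := W.hj
  have g6 := W.bs h2
  have e1 := (H.covBy_iff.mp h3).2
  have e2 := g6.lev
  have e3 := C.lev (by omega)
  have hbd : z ∈ bdR (rA N) := mem_bdR.mpr ⟨h1, x, h2, h3⟩
  obtain ⟨x0, f1, f2, f3⟩ := W.hA_spec hbd
  have e4 := h4 x0 f2
  subst e4
  have := C.th
  exact ⟨by omega, by omega, hbd⟩

/-- the special cell of a pendant -/
theorem penS_cone (W : FdX r j w N b θ B) {x : P}
    (hs : Spc j w N b θ (GaussPoset.bs N x)) :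
    b (topOf x) = 2 ∧ lev x = j + 1 ∧ (∃ co, F4.ConeAt x co (j - 1)) ∧
      ∀ y : P, topOf y = topOf x → lev y ≤ w + 2 → x ≤ y := by
  classical
  obtain ⟨Nc, co, C⟩ := hs
  have hj := W.hj
  have hw := W.hw
  have hw1 := W.hw1
  have hl := C.lev (by omega)
  by_cases ht : x ∈ twA N
  · have hbs : GaussPoset.bs N x = twT N x := by
      unfold GaussPoset.bs
      rw [if_pos ht]
    rw [hbs] at C hl
    have h1 := W.tws.cp x ht
    have hup := W.tws.up x ht
    have T := W.twn x ht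
    have hne : twT N x ≠ x := T.ne
    have hll : lev (twT N x) = lev x := lev_eq_of_up hup
    refine ⟨by rw [← h1]; exact C.hb, by omega, ⟨_, C.cone.twin hne hup⟩, fun y hy hly => ?_⟩
    exact ((hup y).mp (C.above hw (by omega) (hy.trans h1.symm) hly)).le
  · have hbs : GaussPoset.bs N x = x := by
      unfold GaussPoset.bs
      rw [if_neg ht]
    rw [hbs] at C hl
    exact ⟨C.hb, hl, ⟨co, C.cone⟩, fun y hy hly => (C.above hw (by omega) hy hly).le⟩

/-- the parts are up-closed -/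
lemma part_up (W : FdX r j w N b θ B) (t : Tops P) :
    ∀ x' y : P, x' ≤ y → (x' ∉ (unnat N \ twA N) \ zfA j N ∧ topOf x' = t) →
      (y ∉ (unnat N \ twA N) \ zfA j N ∧ topOf y = t) :=
  pg_part_up (W.sys.lower W.tws W.natSys) (W.sys.cp W.tws W.natSys)

/-- the part of a pendant below a special cell -/
theorem bigS (W : FdX r j w N b θ B) {n0 : ℕ} {g : P → ℕ}
    {x z : P} (hz : z ∈ (unnat N \ twA N) \ zfA j N) (hzx : z ⋖ x) (hzS : PenS j w N b θ z)
    (hgz : g z = j - w)
    (hCc : n0 ≤ cst w (fun _ => j - w + 1) z) {m : ℕ}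
    (hm : m + ∑ x ∈ (unnat N \ twA N) \ zfA j N, g x ≤ n0) :
    (1 + X : ℤ[X]) ^ (b (topOf x)) ∣
      ZB (P := {y : P // y ∉ (unnat N \ twA N) \ zfA j N ∧ topOf y = topOf x}) w ∅ 0
        (fun y => by classical exact
          (((unnat N \ twA N) \ zfA j N).filter (fun z => z ⋖ (y : P))).sup g) m := by
  classical
  have H := W.H
  have h7 := W.h7
  have hj := W.hj
  have hw := W.hw
  obtain ⟨-, x1, h1, h2, h4, hs⟩ := hzS
  have hxx := h4 x hzx
  subst hxx
  obtain ⟨q1, q2, ⟨co, q3⟩, q4⟩ := W.penS_cone hs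
  have e1 := (H.covBy_iff.mp hzx).2
  have hxR : x ∉ (unnat N \ twA N) \ zfA j N := fun h => h1 (mem_sdiff.mp h).1
  rw [q1]
  set k := j - w with hk
  have hn0 : n0 ≤ F4.Efs w k x x + k + 2 := by
    rw [← cst_pen hzx h4 (by omega) (by omega)]
    exact hCc
  have hsz : k ≤ ∑ x ∈ (unnat N \ twA N) \ zfA j N, g x := by
    rw [← hgz]
    exact Finset.single_le_sum (f := g) (fun _ _ => Nat.zero_le _) hz
  have hp := W.part_up (topOf x)
  have hBx : k ≤ (((unnat N \ twA N) \ zfA j N).filter (fun z => z ⋖ x)).sup g := by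
    rw [← hgz]
    exact Finset.le_sup (f := g) (mem_filter.mpr ⟨hz, hzx⟩)
  by_cases hbigz : ∃ z' ∈ (unnat N \ twA N) \ zfA j N, k < g z'
  · obtain ⟨z', hz', hk'⟩ := hbigz
    have hne' : z' ≠ z := by
      rintro rfl
      omega
    have h8 : g z + g z' ≤ ∑ x ∈ (unnat N \ twA N) \ zfA j N, g x := by
      rw [← Finset.sum_pair (f := g) hne'.symm]
      refine Finset.sum_le_sum_of_subset ?_
      intro y hy
      rw [mem_insert, mem_singleton] at hy
      rcases hy with rfl | rfl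
      · exact hz
      · exact hz'
    rw [F4.part_zero hp (i := w) (k := k) (f := x) (s := x) ⟨hxR, rfl⟩ ⟨hxR, rfl⟩ hBx hBx
      (by omega)]
    exact dvd_zero _
  · push Not at hbigz
    have hBle : ∀ y : P, (((unnat N \ twA N) \ zfA j N).filter (fun z => z ⋖ y)).sup g ≤ k := by
      intro y
      refine Finset.sup_le fun z' hz' => ?_
      exact hbigz z' (mem_filter.mp hz').1
    exact F4.part_cone hp (i := w) (h := k) (x := x) ⟨hxR, rfl⟩ q3 (by omega) (by omega)
      (by omega) (fun y hy hly => q4 y hy.2 hly) (fun y => hBle y) (le_antisymm (hBle x) hBx)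
      (by omega)

/-- the pairs for the factors -/
lemma pairN (W : FdX r j w N b θ B) {n0 : ℕ}
    (hcost : ∀ x ∈ twA N, n0 ≤ tcst w (thA N θ) (twT N x, x) + (j - w)) {x : P}
    (hx : x ∈ twA N) :
    TwinPair w (thPen N θ (twA N) (zfA j N) (twT N) (piA j N)) (n0 - (j - w)) (twT N x) x := by
  refine (W.twnP hx).pair ?_
  rw [W.tcstP hx]
  have := hcost x hx
  omega

lemma pairZN (W : FdX r j w N b θ B) {n0 : ℕ}
    (hcost : ∀ x ∈ twA N, n0 ≤ tcst w (thA N θ) (twT N x, x) + (j - w)) {z1 z2 : P}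
    (h1 : z1 ∈ zfA j N) (h2 : z2 ∈ zfA j N) (hne : z1 ≠ z2) (h : piA j N z1 = piA j N z2) :
    TwinPair w (thPen N θ (twA N) (zfA j N) (twT N) (piA j N)) (n0 - (j - w)) z1 z2 := by
  classical
  have T := W.twnZ h1 h2 hne h
  obtain ⟨a1, a2, a3⟩ := piA_spec h1
  refine T.pair ?_
  have e0 := hcost _ a1
  have e1 := W.cM_eq a1 a2
  unfold cM at e1
  rw [tcst_eq T]
  simp only
  rw [W.thPen_pen h1]
  have hj := W.hj
  have e2 : ∑ u, (if twT N (piA j N z1) < u then min (j - w - 1 + 1) (lev u - w) else 0) ≤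
      ∑ u, (if z1 < u then min (j - w + 1) (lev u - w) else 0) := by
    refine Finset.sum_le_sum fun u _ => ?_
    by_cases h3 : twT N (piA j N z1) < u
    · have h4 : z1 < u := (a3 u).mpr ((W.tws.up _ a1 u).mp h3).le
      rw [if_pos h3, if_pos h4]
      omega
    · rw [if_neg h3]
      exact Nat.zero_le _
  omega

/-- the cost of an element below a pendant -/
theorem cost_adj (W : FdX r j w N b θ B) {z : P} (hz : z ∈ bdR (rA N \ zfA j N))
    (hadj : ∃ y ∈ zfA j N, z ⋖ y) :
    j - w ≤ hRz j N θ z ∧ lev z = j + 3 ∧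
      ∃ x ∈ twA N, Fc j x ∧ tcst w (thA N θ) (twT N x, x) + (j - w) + 1 ≤
        cst w (fun _ => hRz j N θ z) z := by
  classical
  obtain ⟨y, hy, hzy⟩ := hadj
  obtain ⟨a1, a2, a3⟩ := piA_spec hy
  obtain ⟨b1, b2⟩ := W.lev_pen hy
  have hj := W.hj
  have hw := W.hw
  have hlz := (W.H.covBy_iff.mp hzy).2
  -- the label
  have hlab : j - w ≤ hRz j N θ z := by
    obtain ⟨x, hx, hzx, he⟩ := hcan_spec (θ := thZ (zfA j N) (piA j N) (thA N θ)) hz
    have he' : hRz j N θ z = thZ (zfA j N) (piA j N) (thA N θ) x + 1 := he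
    have hlx := (W.H.covBy_iff.mp hzx).2
    rw [he']
    by_cases hxZ : x ∈ zfA j N
    · have h1 := W.thPen_pen hxZ
      rw [thPen_of (fun h => (mem_sdiff.mp h).2 hxZ)] at h1
      have h2 : thZ (zfA j N) (piA j N) (thA N θ) x = j - w := h1
      omega
    · have hxR : x ∉ rA N := fun h => hx (mem_sdiff.mpr ⟨h, hxZ⟩)
      rw [thZ_not hxZ]
      have g := W.bs hxR
      have h3 := g.th
      have h4 := g.lev
      have h5 := W.le_th _ g.nat (by omega)
      omega
  refine ⟨hlab, by omega, piA j N y, a1, a2, ?_⟩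
  have e1 := W.cM_eq a1 a2
  unfold cM at e1
  have hlx := a2.1
  have hyx : y < piA j N y := b2.1
  have hzx : z < piA j N y := hzy.1.trans hyx
  -- four parts
  have hsub : ({z, y, piA j N y} : Finset P) ∪ univ.filter (fun u => piA j N y < u) ⊆
      univ.filter (fun u => z ≤ u) := by
    intro u hu
    rw [mem_filter]
    refine ⟨mem_univ _, ?_⟩
    rw [mem_union, mem_insert, mem_insert, mem_singleton, mem_filter] at hu
    rcases hu with (rfl | rfl | rfl) | h
    · exact le_rfl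
    · exact hzy.1.le
    · exact hzx.le
    · exact (hzx.trans h.2).le
  have hdis : Disjoint ({z, y, piA j N y} : Finset P) (univ.filter (fun u => piA j N y < u)) := by
    rw [Finset.disjoint_left]
    intro u hu h
    rw [mem_insert, mem_insert, mem_singleton] at hu
    have h' := (mem_filter.mp h).2
    rcases hu with rfl | rfl | rfl
    · exact lt_irrefl _ (hzx.trans h')
    · exact lt_irrefl _ (hyx.trans h')
    · exact lt_irrefl _ h'
  have hc : cst w (fun _ => hRz j N θ z) z = ∑ u ∈ univ.filter (fun u : P => z ≤ u),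
      min (hRz j N θ z) (lev u - w) := by
    unfold cst ez
    rw [Finset.sum_filter]
  have h3 : ∑ u ∈ ({z, y, piA j N y} : Finset P) ∪ univ.filter (fun u => piA j N y < u),
      min (hRz j N θ z) (lev u - w) ≤ cst w (fun _ => hRz j N θ z) z := by
    rw [hc]
    exact Finset.sum_le_sum_of_subset hsub
  rw [Finset.sum_union hdis, Finset.sum_insert (by
    rw [mem_insert, mem_singleton]
    rintro (h | h)
    · exact hzy.1.ne h
    · exact hzx.ne h), Finset.sum_insert (by
    rw [mem_singleton]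
    exact hyx.ne), Finset.sum_singleton] at h3
  have h4 : ∑ u, (if twT N (piA j N y) < u then min (j - w - 1 + 1) (lev u - w) else 0) ≤
      ∑ u ∈ univ.filter (fun u => piA j N y < u), min (hRz j N θ z) (lev u - w) := by
    rw [Finset.sum_filter]
    refine Finset.sum_le_sum fun u _ => ?_
    by_cases h5 : twT N (piA j N y) < u
    · have h6 := (W.tws.up _ a1 u).mp h5
      rw [if_pos h5, if_pos h6]
      omega
    · rw [if_neg h5]
      exact Nat.zero_le _
  have m1 : j - w ≤ min (hRz j N θ z) (lev z - w) := by omega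
  have m2 : j - w ≤ min (hRz j N θ z) (lev y - w) := by omega
  have m3 : j - w ≤ min (hRz j N θ z) (lev (piA j N y) - w) := by omega
  omega

end FdX

end Pool.Agent.GaussPoset.Sm

end

/-! From `Pool.Agent.W_448f4_h70.JO` -/

section

/-!
The windows 2 and 3 of S7: the far window theorem without the twins of the cells `(m, m + 1)` of
the stairs and their pendants, larger labels (MP_448cb3_co)
-/

namespace Pool.Agent.GaussPoset.Sm

set_option linter.unusedSectionVars false

open Polynomial Finset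

universe u

variable {P : Type u} [Fintype P] [PartialOrder P] [DecidableEq P] {r j w : ℕ}
  {N : Tops P → Finset P} {b : Tops P → ℕ} {θ : Tops P → P → ℕ} {B : Tops P → P → Prop}

namespace FdX

/-- the cost of a special twin is larger by two -/
lemma tcS_spc (W : FdX r j w N b θ B) {x : P} (hx : x ∈ twA N)
    (hs : Spc j w N b θ (twT N x)) :
    tcS j w N b θ x = tcst w (thA N θ) (twT N x, x) + 2 := by
  classical
  have T' := W.twnS hx hs
  have T := W.twn x hx
  have hj := W.hj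
  unfold tcS
  rw [if_pos hs, tcst_eq T', tcst_eq T]
  obtain ⟨Nc, co, C⟩ := hs
  have hl := C.lev (by omega)
  have hth := C.th
  have e1 : thA N θ (twT N x) = θ (topOf (twT N x)) (twT N x) := W.thA_nat (W.tws.nat x hx)
  have e2 : ∑ y, (if (twT N x, x).1 < y then
      min ((fun _ => j - w) (twT N x, x).1 + 1) (lev y - w) else 0) =
      ∑ y, (if (twT N x, x).1 < y then min (thA N θ (twT N x, x).1 + 1) (lev y - w) else 0) := by
    refine Finset.sum_congr rfl fun y _ => ?_
    split_ifs with hy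
    · have h1 := lev_strictAnti hy
      simp only at h1 ⊢
      rw [e1]
      omega
    · rfl
  rw [e2]
  simp only
  rw [e1]
  omega

lemma tcS_le (W : FdX r j w N b θ B) {x : P} (hx : x ∈ twA N) :
    tcS j w N b θ x ≤ tcst w (thA N θ) (twT N x, x) + 2 := by
  classical
  by_cases hs : Spc j w N b θ (twT N x)
  · exact (W.tcS_spc hx hs).le
  · unfold tcS
    rw [if_neg hs]
    omega

/-- the labels -/
lemma hspec (W : FdX r j w N b θ B) (hcel : ∀ z, CEl j w N θ z → hA N θ z = j - w - 1) (z : P) :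
    (PenS j w N b θ z ∧ hA N θ z = j - w ∧ lev z = j + 2 ∧ hS j w N b θ z = j - w + 1) ∨
      (¬ PenS j w N b θ z ∧ CEl j w N θ z ∧ hA N θ z = j - w - 1 ∧
        lev z = j + 1 ∧ hS j w N b θ z = lev z - w) ∨ hS j w N b θ z = hA N θ z := by
  by_cases h1 : PenS j w N b θ z
  · obtain ⟨a1, a2, a3⟩ := W.penS h1
    exact Or.inl ⟨h1, a1, a2, by rw [hS_of h1, a1]⟩
  · right
    by_cases h2 : CEl j w N θ z
    · exact Or.inl ⟨h1, h2, hcel z h2, h2.2.1, by rw [hS_not h1, hC_of h2]⟩
    · exact Or.inr (by rw [hS_not h1, hC_not h2])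

/-- **The far window theorem without the twins of the cells `(m, m + 1)` and their pendants, with
the larger labels.** -/
theorem farF (W : FdX r j w N b θ B) (n0 : ℕ)
    (hcost : ∀ x ∈ twA N, ¬ Fc j x → n0 ≤ tcS j w N b θ x)
    (hfold : ∀ x ∈ twA N, Fc j x → n0 < tcst w (thA N θ) (twT N x, x) + (j - w) + 1)
    (hcel : ∀ z, CEl j w N θ z → hA N θ z = j - w - 1)
    (hbd : ∀ z ∈ bdR (rA N \ zfA j N), n0 ≤ cst w (hF j w N b θ) z)
    (hbigC : ∀ (g : P → ℕ) (x z : P), z ∈ (unnat N \ twA N) \ zfA j N → z ⋖ x →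
      CEl j w N θ z → hA N θ z ≤ g z → g z < lev z - w → n0 ≤ cst w (fun _ => lev z - w) z →
      ∀ m, m + ∑ x ∈ (unnat N \ twA N) \ zfA j N, g x ≤ n0 →
      (1 + X : ℤ[X]) ^ (b (topOf x)) ∣
        ZB (P := {y : P // y ∉ (unnat N \ twA N) \ zfA j N ∧ topOf y = topOf x}) w ∅ 0
        (fun y => by classical exact
          (((unnat N \ twA N) \ zfA j N).filter (fun z => z ⋖ (y : P))).sup g) m) :
    FarV P w (rA N \ zfA j N) (∑ t, b t) (hF j w N b θ)
      (∑ x ∈ (by classical exact (twA N).filter (fun x => ¬ Fc j x ∧ tcS j w N b θ x = n0)),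
        TmS j w N b θ x) n0 := by
  classical
  have hj := W.hj
  have hw1 := W.hw1
  have F := W.farF0 n0 hcost hfold
  have hsp := W.hspec hcel
  have hc : ∀ x ∈ twA N, n0 ≤ tcst w (thA N θ) (twT N x, x) + (j - w) := by
    intro x hx
    by_cases h : Fc j x
    · have := hfold x hx h
      omega
    · have h1 := hcost x hx h
      have h2 := W.tcS_le hx
      omega
  have hnb : ∀ z ∈ bdR (rA N \ zfA j N), (∀ y ∈ zfA j N, ¬ z ⋖ y) →
      hRz j N θ z = hA N θ z ∧ hF j w N b θ z = hS j w N b θ z := fun z _ h =>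
    ⟨hRz_eq h, hF_not h⟩
  refine W.sys.farV_big W.tws W.H.gradedBelow W.nt (n0 := n0) F (k0 := j - w - 1) (e0 := 2)
    (n1 := n0 - (j - w)) (by omega) (fun x hx => W.pairN hc hx)
    (fun z1 h1 z2 h2 h3 h4 => W.pairZN hc h1 h2 h3 h4) (hF j w N b θ) ?_ ?_ ?_ ?_
  · intro z hz
    show hRz j N θ z ≤ hF j w N b θ z
    by_cases h : ∃ y ∈ zfA j N, z ⋖ y
    · rw [hF_adj h]
    · push Not at h
      obtain ⟨e1, e2⟩ := hnb z hz h
      rw [e1, e2]
      rcases hsp z with ⟨-, h1, -, h2⟩ | ⟨-, -, h1, h3, h2⟩ | h1 <;> omega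
  · intro z hz hlt
    have hlt' : hRz j N θ z < hF j w N b θ z := hlt
    show j - w - 1 ≤ hRz j N θ z ∧ 2 ≤ hRz j N θ z ∧ w + 2 < lev z
    by_cases h : ∃ y ∈ zfA j N, z ⋖ y
    · rw [hF_adj h] at hlt'
      omega
    · push Not at h
      obtain ⟨e1, e2⟩ := hnb z hz h
      rw [e1, e2] at hlt'
      rw [e1]
      rcases hsp z with ⟨-, h1, h3, h2⟩ | ⟨-, -, h1, h3, h2⟩ | h1 <;> omega
  · intro z hz
    have h0 : hRz j N θ z ≤ lev z - w := F.le_lev z hz
    by_cases h : ∃ y ∈ zfA j N, z ⋖ y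
    · rw [hF_adj h]
      exact h0
    · push Not at h
      obtain ⟨e1, e2⟩ := hnb z hz h
      rw [e1] at h0
      rw [e2]
      rcases hsp z with ⟨-, h1, h3, h2⟩ | ⟨-, -, h1, h3, h2⟩ | h1 <;> omega
  · intro g g0 hg x z hx hz hzx hlt m hm
    have hzb : z ∈ bdR ((unnat N \ twA N) \ zfA j N) := mem_bdR.mpr ⟨hz, x, hx, hzx⟩
    have hgz := hg z hzb
    have hle : hRz j N θ z ≤ thZ (zfA j N) (piA j N) (thA N θ) x + 1 := hcan_le hx hzx
    rw [thPen_of hx] at hlt
    have hlt' : thZ (zfA j N) (piA j N) (thA N θ) x < g z := hlt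
    have hcz := hbd z hzb
    by_cases h : ∃ y ∈ zfA j N, z ⋖ y
    · rw [hF_adj h] at hgz
      omega
    · push Not at h
      obtain ⟨e1, e2⟩ := hnb z hzb h
      rw [e2] at hgz
      rw [e1] at hle
      rw [cst_const w (hF j w N b θ) z, e2] at hcz
      rcases hsp z with ⟨h0, h1, h3, h2⟩ | ⟨-, h0, h1, h3, h2⟩ | h1
      · rw [h2] at hcz hgz
        exact W.bigS hz hzx h0 (by omega) hcz hm
      · rw [h2] at hcz hgz
        exact hbigC g x z hz hzx h0 (by omega) hgz hcz m hm
      · omega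

end FdX

end Pool.Agent.GaussPoset.Sm

end

/-! From `Pool.Agent.W_448f4_h70.JP` -/

section

/-!
The windows 2 and 3 of S7 with a cap: the far window theorem without the twins of the cells
`(m, m + 1)` of the stairs and their pendants (MP_448cb3_co)
-/

namespace Pool.Agent.GaussPoset.Sm

set_option linter.unusedSectionVars false

open Polynomial Finset

universe u

variable {P : Type u} [Fintype P] [PartialOrder P] [DecidableEq P] {r j w K : ℕ}
  {N : Tops P → Finset P} {b : Tops P → ℕ} {θ : Tops P → P → ℕ} {B : Tops P → P → Prop}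

/-- the cost of the twins of the cells `(m, m + 1)` -/
def fcT (w j : ℕ) : ℕ := ∑ k ∈ range (j + 1), min (j - w) (k - w) * (k / 2 + 1 -
  (k - (j / 2 + 1))) + (2 * (j - w - 1) + 1)

namespace FdX

lemma nab_fold (W : FdX r j w N b θ B) {x : P} (hx : x ∈ twA N) (hF : Fc j x) {k : ℕ}
    (hk : k ≤ j) : nab k x = k / 2 + 1 - (k - (j / 2 + 1)) := by
  obtain ⟨Nc, co, h0, h1, h2, h3, h4, h5⟩ := W.stair hx hF
  obtain ⟨c1, c2, c3, c4⟩ := W.cell hx hF h0 h1 h2
  have hup : ∀ y, twT N x < y ↔ x < y := W.tws.up x hx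
  have hll : lev (twT N x) = lev x := lev_eq_of_up hup
  have hl := hF.1
  have e1 : nab k (twT N x) = nab k x := nab_congr_up hup (by omega)
  have e2 := stair_nab h0.chart c1 (k := k) (by omega)
  rw [c3] at e2
  simp only at e2
  have e3 := one_le_nab (l := k) (z := x) (by omega)
  omega

lemma cost_fold (W : FdX r j w N b θ B) {x : P} (hx : x ∈ twA N) (hF : Fc j x) :
    tcst w (thA N θ) (twT N x, x) = fcT w j := by
  have T := W.twn x hx
  have e1 : thA N θ (twT N x) = j - w - 1 := T.eq.symm.trans (W.th_fold hx hF).1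
  have hj := W.hj
  have hup : ∀ y, twT N x < y ↔ x < y := W.tws.up x hx
  have hll : lev (twT N x) = lev x := lev_eq_of_up hup
  have hl := hF.1
  rw [tcst_cst T]
  simp only
  rw [e1, cst_eq, show lev (twT N x) = j + 1 by omega, Finset.sum_range_succ]
  have e2 : nab (j + 1) (twT N x) = 1 := by
    rw [show j + 1 = lev (twT N x) by omega]
    exact nab_self
  have e3 : ∑ k ∈ range (j + 1), min (j - w - 1 + 1) (k - w) * nab k (twT N x) =
      ∑ k ∈ range (j + 1), min (j - w) (k - w) * (k / 2 + 1 - (k - (j / 2 + 1))) := by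
    refine Finset.sum_congr rfl fun k hk => ?_
    rw [mem_range] at hk
    rw [nab_congr_up hup (by omega), W.nab_fold hx hF (by omega), show j - w - 1 + 1 = j - w by
      omega]
  rw [e2, e3]
  unfold fcT
  have e4 : min (j - w - 1 + 1) (j + 1 - w) = j - w := by omega
  rw [e4]
  omega

/-- labels are positive -/
lemma hF_pos (W : FdX r j w N b θ B) (hcel : ∀ z, CEl j w N θ z → hA N θ z = j - w - 1) {z : P}
    (hz : z ∈ bdR (rA N \ zfA j N)) : 1 ≤ hF j w N b θ z := by
  have hj := W.hj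
  have h1 : 1 ≤ hRz j N θ z := by
    obtain ⟨x, -, -, hx⟩ := hcan_spec (θ := thZ (zfA j N) (piA j N) (thA N θ)) hz
    have : hRz j N θ z = thZ (zfA j N) (piA j N) (thA N θ) x + 1 := hx
    omega
  by_cases h : ∃ y ∈ zfA j N, z ⋖ y
  · rw [hF_adj h]
    exact h1
  · push Not at h
    rw [hRz_eq h] at h1
    rw [hF_not h]
    rcases W.hspec hcel z with ⟨-, h1, h3, h2⟩ | ⟨-, -, h1, h3, h2⟩ | h1 <;> omega

end FdX

/-- the windows of S7 have the data -/
theorem Wk.fdx (W : Wk r j w K N b θ) (h7 : 7 ≤ j) : ∃ B, FdX r j w N b θ B := by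
  choose B hB hN using fun t => TypB.of_top (W.top t) W.gt.H.gradedBelow
  refine ⟨B, W.gt.H, h7, W.hj, W.hw1, W.hw, hB, hN, W.twSys, fun x hx => W.low hx,
    fun x hx => W.twn hx, ?_, W.sum_b⟩
  intro y hy hly
  have := W.hj
  rcases W.cases hy hly with h | h | h
  · have := h.th
    omega
  · have := h.th
    omega
  · have := h.th3
    omega

/-- the label of the element below both ends of a stair -/
lemma Wk.hA_cel (W : Wk r j w K N b θ) (hw2 : 2 ≤ w) {z : P} (hz : CEl j w N θ z) :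
    hA N θ z = j - w - 1 := by
  obtain ⟨h1, h2, f, s, h3, h4, h5, h6, h7⟩ := hz
  obtain ⟨Nc, co, C⟩ := W.fold_cell hw2 h1 h2 h3 h4 h5 h7
  exact W.hA_fold C h1 h2 h3 h4 h5

/-- the part of the element below both ends of a stair -/
theorem Wk.bigCF (W : Wk r j w K N b θ) (h12 : 12 ≤ j) (hw2 : 2 ≤ w) {n0 : ℕ} {g : P → ℕ}
    {x z : P} (hz : z ∈ (unnat N \ twA N) \ zfA j N) (hzx : z ⋖ x) (hzC : CEl j w N θ z)
    (hlt : hA N θ z ≤ g z) (hgz : g z < lev z - w)
    (hCc : n0 ≤ cst w (fun _ => lev z - w) z) {m : ℕ}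
    (hm : m + ∑ x ∈ (unnat N \ twA N) \ zfA j N, g x ≤ n0) :
    (1 + X : ℤ[X]) ^ (b (topOf x)) ∣
      ZB (P := {y : P // y ∉ (unnat N \ twA N) \ zfA j N ∧ topOf y = topOf x}) w ∅ 0
        (fun y => by classical exact
          (((unnat N \ twA N) \ zfA j N).filter (fun z => z ⋖ (y : P))).sup g) m := by
  classical
  obtain ⟨B, W'⟩ := W.fdx (by omega)
  have H := W.gt.H
  have HN := W.natSys
  have hj := W.hj
  have hw := W.hw
  have hz' := hzC
  obtain ⟨h1, h2, f, s, h3, h4, h5, h6, h7⟩ := hz'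
  obtain ⟨Nc, co, C⟩ := W.fold_cell hw2 h1 h2 h3 h4 h5 h7
  have e1 := W.hA_fold C h1 h2 h3 h4 h5
  obtain ⟨s1, s2, s3⟩ := W.fold_end C h1 h2 h3 h4 h5 h6
  have hlf := C.lev
  have hls : lev s = j := by
    have := C.nat.chart.lev s s1
    omega
  have htx : topOf x = topOf f := by
    rcases cov_two H h3 h4 h5 hzx with rfl | rfl
    · rfl
    · exact h6.symm
  have hbt : b (topOf x) = 2 := by rw [htx, C.hb]
  rw [hbt]
  set k := g z with hk
  have hk1 : j - w - 1 ≤ k := by omega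
  have hk2 : k ≤ j - w := by omega
  have hn0 : n0 ≤ F4.Efs w k f s + k + 4 := hCc.trans (cst_full_le H h3 h4 h5 (by omega))
  have hsz : k ≤ ∑ x ∈ (unnat N \ twA N) \ zfA j N, g x :=
    Finset.single_le_sum (f := g) (fun _ _ => Nat.zero_le _) hz
  have hp := W'.part_up (topOf x)
  have hfR : f ∉ (unnat N \ twA N) \ zfA j N := fun h =>
    W.low (by omega) (mem_sdiff.mp (mem_sdiff.mp h).1).1
  have hsR : s ∉ (unnat N \ twA N) \ zfA j N := fun h =>
    W.low (by omega) (mem_sdiff.mp (mem_sdiff.mp h).1).1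
  have hBf : k ≤ (((unnat N \ twA N) \ zfA j N).filter (fun z => z ⋖ f)).sup g :=
    Finset.le_sup (f := g) (mem_filter.mpr ⟨hz, h3⟩)
  have hBs : k ≤ (((unnat N \ twA N) \ zfA j N).filter (fun z => z ⋖ s)).sup g :=
    Finset.le_sup (f := g) (mem_filter.mpr ⟨hz, h4⟩)
  by_cases hbigz : ∃ z' ∈ (unnat N \ twA N) \ zfA j N, k < g z'
  · obtain ⟨z', hz', hk'⟩ := hbigz
    have hne' : z' ≠ z := by
      rintro rfl
      omega
    have h8 : g z + g z' ≤ ∑ x ∈ (unnat N \ twA N) \ zfA j N, g x := by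
      rw [← Finset.sum_pair (f := g) hne'.symm]
      refine Finset.sum_le_sum_of_subset ?_
      intro y hy
      rw [mem_insert, mem_singleton] at hy
      rcases hy with rfl | rfl
      · exact hz
      · exact hz'
    rw [F4.part_zero hp (i := w) (k := k) (f := f) (s := s) ⟨hfR, htx.symm⟩
      ⟨hsR, h6.symm.trans htx.symm⟩ hBf hBs (by omega)]
    exact dvd_zero _
  · push Not at hbigz
    have hBle : ∀ y : P,
        (((unnat N \ twA N) \ zfA j N).filter (fun z => z ⋖ y)).sup g ≤ k := by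
      intro y
      refine Finset.sup_le fun z' hz' => ?_
      exact hbigz z' (mem_filter.mp hz').1
    refine F4.part_two hp (i := w) (k := k) (M := j / 2 + 1) (c0 := 4) (f := f) (s := s)
      ⟨hfR, htx.symm⟩ ⟨hsR, h6.symm.trans htx.symm⟩ (by omega) (by omega) ?_ (by omega)
      (by omega) ?_ (fun y => hBle y) (le_antisymm (hBle f) hBf) (le_antisymm (hBle s) hBs)
      (by omega)
    · rintro y ⟨-, hy2⟩ hy3
      have hyN : y ∈ Nc := by
        refine C.nat.strip (mem_lowPart.mpr ⟨?_, by omega⟩)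
        rw [← htx, ← hy2]
        exact le_topOf y
      have hly := C.nat.chart.lev y hyN
      have hmy : (co y).1 ≤ (co y).2 := C.nat.chart.mem y hyN
      rcases Nat.lt_or_ge (j / 2) (co y).2 with h9 | h9
      · right
        rw [C.nat.chart.le_iff s s1 y hyN, Prod.le_def, s2, s3]
        constructor
        · omega
        · omega
      · left
        rw [C.nat.chart.le_iff f C.mem y hyN, Prod.le_def, C.co1, C.co2]
        constructor
        · omega
        · exact h9
    · intro y hy1 hy2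
      have hyN := C.nat.chart.up f C.mem y hy1
      have a1 := (C.nat.chart.le_iff f C.mem y hyN).mp hy1
      have a2 := (C.nat.chart.le_iff s s1 y hyN).mp hy2
      rw [Prod.le_def, C.co1, C.co2] at a1
      rw [Prod.le_def, s2, s3] at a2
      have hly := C.nat.chart.lev y hyN
      have := C.ev
      omega

end Pool.Agent.GaussPoset.Sm

end

/-! From `Pool.Agent.W_448jx_h67.WhA` -/

section

/-!
The window `2` at `j = 10` without the twins of the cell `(5, 6)` and the pendants below them: the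
part of the element below both ends of a stair (MP_448cb3_co, HJoin10)
-/

namespace Pool.Agent.GaussPoset.Sm

set_option linter.unusedSectionVars false

open Polynomial Finset

universe u

variable {P : Type u} [Fintype P] [PartialOrder P] [DecidableEq P] {r j w K : ℕ}
  {N : Tops P → Finset P} {b : Tops P → ℕ} {θ : Tops P → P → ℕ} {B : Tops P → P → Prop}

/-- the label of the element below both ends of a stair -/
lemma We.hA_celA (W : We r j w K N b θ) (hw2 : 2 ≤ w) {z : P} (hz : CEl j w N θ z) :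
    hA N θ z = j - w - 1 := by
  obtain ⟨h1, h2, f, s, h3, h4, h5, h6, h7⟩ := hz
  obtain ⟨Nc, co, C⟩ := W.fold_cell hw2 h1 h2 h3 h4 h5 h7 (W.not_E6 h1 h2 h3 h4 h5 h6)
  exact W.hA_fold C h1 h2 h3 h4 h5 h6

/-- the part of the element below both ends of a stair -/
theorem We.bigCFa (W : We r 10 2 K N b θ) (W' : FdX r 10 2 N b θ B) {n0 : ℕ} {g : P → ℕ}
    {x z : P} (hz : z ∈ (unnat N \ twA N) \ zfA 10 N) (hzx : z ⋖ x) (hzC : CEl 10 2 N θ z)
    (hlt : hA N θ z ≤ g z) (hgz : g z < lev z - 2)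
    (hCc : n0 ≤ cst 2 (fun _ => lev z - 2) z) {m : ℕ}
    (hm : m + ∑ x ∈ (unnat N \ twA N) \ zfA 10 N, g x ≤ n0) :
    (1 + X : ℤ[X]) ^ (b (topOf x)) ∣
      ZB (P := {y : P // y ∉ (unnat N \ twA N) \ zfA 10 N ∧ topOf y = topOf x}) 2 ∅ 0
        (fun y => by classical exact
          (((unnat N \ twA N) \ zfA 10 N).filter (fun z => z ⋖ (y : P))).sup g) m := by
  classical
  have H := W.gt.H
  have HN := W.natSys
  have hz' := hzC
  obtain ⟨h1, h2, f, s, h3, h4, h5, h6, h7⟩ := hz'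
  obtain ⟨Nc, co, C⟩ := W.fold_cell le_rfl h1 h2 h3 h4 h5 h7 (W.not_E6 h1 h2 h3 h4 h5 h6)
  have e1 := W.hA_fold C h1 h2 h3 h4 h5 h6
  obtain ⟨s1, s2, s3⟩ := W.fold_end C h1 h2 h3 h4 h5 h6
  have hlf := C.lev
  have hls : lev s = 10 := by
    have := C.nat.chart.lev s s1
    omega
  have htx : topOf x = topOf f := by
    rcases cov_two H h3 h4 h5 hzx with rfl | rfl
    · rfl
    · exact h6.symm
  have hbt : b (topOf x) = 2 := by rw [htx, C.hb]
  rw [hbt]
  set k := g z with hk
  have hk1 : 10 - 2 - 1 ≤ k := by omega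
  have hk2 : k ≤ 10 - 2 := by omega
  have hn0 : n0 ≤ F4.Efs 2 k f s + k + 4 := hCc.trans (cst_full_le H h3 h4 h5 (by omega))
  have hsz : k ≤ ∑ x ∈ (unnat N \ twA N) \ zfA 10 N, g x :=
    Finset.single_le_sum (f := g) (fun _ _ => Nat.zero_le _) hz
  have hp := W'.part_up (topOf x)
  have hfR : f ∉ (unnat N \ twA N) \ zfA 10 N := fun h =>
    W.low (by omega) (mem_sdiff.mp (mem_sdiff.mp h).1).1
  have hsR : s ∉ (unnat N \ twA N) \ zfA 10 N := fun h =>
    W.low (by omega) (mem_sdiff.mp (mem_sdiff.mp h).1).1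
  have hBf : k ≤ (((unnat N \ twA N) \ zfA 10 N).filter (fun z => z ⋖ f)).sup g :=
    Finset.le_sup (f := g) (mem_filter.mpr ⟨hz, h3⟩)
  have hBs : k ≤ (((unnat N \ twA N) \ zfA 10 N).filter (fun z => z ⋖ s)).sup g :=
    Finset.le_sup (f := g) (mem_filter.mpr ⟨hz, h4⟩)
  by_cases hbigz : ∃ z' ∈ (unnat N \ twA N) \ zfA 10 N, k < g z'
  · obtain ⟨z', hz', hk'⟩ := hbigz
    have hne' : z' ≠ z := by
      rintro rfl
      omega
    have h8 : g z + g z' ≤ ∑ x ∈ (unnat N \ twA N) \ zfA 10 N, g x := by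
      rw [← Finset.sum_pair (f := g) hne'.symm]
      refine Finset.sum_le_sum_of_subset ?_
      intro y hy
      rw [mem_insert, mem_singleton] at hy
      rcases hy with rfl | rfl
      · exact hz
      · exact hz'
    rw [F4.part_zero hp (i := 2) (k := k) (f := f) (s := s) ⟨hfR, htx.symm⟩
      ⟨hsR, h6.symm.trans htx.symm⟩ hBf hBs (by omega)]
    exact dvd_zero _
  · push Not at hbigz
    have hBle : ∀ y : P,
        (((unnat N \ twA N) \ zfA 10 N).filter (fun z => z ⋖ y)).sup g ≤ k := by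
      intro y
      refine Finset.sup_le fun z' hz' => ?_
      exact hbigz z' (mem_filter.mp hz').1
    refine F4.part_two' H.gradedBelow hp (i := 2) (k := k) (M := 10 / 2 + 1) (c0 := 4) (f := f)
      (s := s) ⟨hfR, htx.symm⟩ ⟨hsR, h6.symm.trans htx.symm⟩ (by omega) (by omega) ?_ (by omega)
      (by omega) ?_ (fun y => hBle y) (le_antisymm (hBle f) hBf) (le_antisymm (hBle s) hBs)
      (by omega)
    · rintro y ⟨-, hy2⟩ hy3
      have hyN : y ∈ Nc := by
        refine C.nat.strip (mem_lowPart.mpr ⟨?_, by omega⟩)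
        rw [← htx, ← hy2]
        exact le_topOf y
      have hly := C.nat.chart.lev y hyN
      have hmy : (co y).1 ≤ (co y).2 := C.nat.chart.mem y hyN
      rcases Nat.lt_or_ge (10 / 2) (co y).2 with h9 | h9
      · right
        rw [C.nat.chart.le_iff s s1 y hyN, Prod.le_def, s2, s3]
        constructor
        · omega
        · omega
      · left
        rw [C.nat.chart.le_iff f C.mem y hyN, Prod.le_def, C.co1, C.co2]
        constructor
        · omega
        · exact h9
    · intro y hy1 hy2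
      have hyN := C.nat.chart.up f C.mem y hy1
      have a1 := (C.nat.chart.le_iff f C.mem y hyN).mp hy1
      have a2 := (C.nat.chart.le_iff s s1 y hyN).mp hy2
      rw [Prod.le_def, C.co1, C.co2] at a1
      rw [Prod.le_def, s2, s3] at a2
      have hly := C.nat.chart.lev y hyN
      have := C.ev
      omega

end Pool.Agent.GaussPoset.Sm

end

/-! From `Pool.Agent.W_448f4_h70.JQ` -/

section

/-!
The windows 2 and 3 of S7: the twins of the cells `(m, m + 1)` of the stairs and their pendants as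
natural elements (MP_448cb3_co)
-/

namespace Pool.Agent.GaussPoset.Sm

set_option linter.unusedSectionVars false

open Polynomial Finset

universe u

variable {P : Type u} [Fintype P] [PartialOrder P] [DecidableEq P] {r j w K Kc K0 : ℕ}
  {N : Tops P → Finset P} {b : Tops P → ℕ} {θ : Tops P → P → ℕ} {B : Tops P → P → Prop}

/-- the windows of S7 have the data -/
theorem We.fdx (W : We r j w K0 N b θ) (h7 : 7 ≤ j)
    (hex : ∀ t : Tops P, ∃ x ≤ (t : P), lev x = w) : ∃ B, FdX r j w N b θ B := by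
  have key : ∀ t, ∃ B, TypB j w t (b t) (N t) (θ t) B ∧ NatTop w t (b t) (N t) (θ t) B := by
    intro t
    have hj := W.hj
    rcases W.typ t with h | h
    · exact TypB.of_typeX h W.gt.H.gradedBelow (by omega) (hex t)
    · obtain ⟨B, hB⟩ := W.nt t
      refine ⟨B, TypB.low ?_, hB⟩
      rw [h.hN]
      exact fun y hy => (mem_lowPart.mp hy).2
  choose B hB hN using key
  refine ⟨B, W.gt.H, h7, W.hj, W.hw1, W.hw, hB, hN, W.twSys, fun x hx => W.low hx,
    fun x hx => W.twn hx, ?_, W.sum_b⟩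
  intro y hy hly
  have := W.hj
  rcases W.cases hy hly with h | h | h
  · have := h.th
    omega
  · have := h.th
    omega
  · have := h.th3
    omega

/-- **the twins of the cells `(m, m + 1)` and their pendants are natural** -/
theorem FdX.fs (W : FdX r j w N b θ B) (hcel : ∀ z, CEl j w N θ z → hA N θ z = j - w - 1)
    (hK : Kc ≤ fcT w j + (j - w))
    (hbigC : ∀ n0 ≤ Kc, ∀ (g : P → ℕ) (x z : P), z ∈ (unnat N \ twA N) \ zfA j N → z ⋖ x →
      CEl j w N θ z → hA N θ z ≤ g z → g z < lev z - w → n0 ≤ cst w (fun _ => lev z - w) z →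
      ∀ m, m + ∑ x ∈ (unnat N \ twA N) \ zfA j N, g x ≤ n0 →
      (1 + X : ℤ[X]) ^ (b (topOf x)) ∣
        ZB (P := {y : P // y ∉ (unnat N \ twA N) \ zfA j N ∧ topOf y = topOf x}) w ∅ 0
        (fun y => by classical exact
          (((unnat N \ twA N) \ zfA j N).filter (fun z => z ⋖ (y : P))).sup g) m) :
    FS P j w Kc N b θ (zfA j N) (Fc j) (hF j w N b θ) where
  sub := fun z hz => (mem_zfA.mp hz).1
  up := by
    intro z hz
    obtain ⟨a1, a2, a3⟩ := piA_spec hz
    obtain ⟨b1, b2⟩ := W.lev_pen hz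
    refine ⟨piA j N z, a1, a2, b2, fun y hy => ?_⟩
    have h1 := (a3 y).mp hy.1
    by_contra hne
    exact hy.2 b2.1 (lt_of_le_of_ne h1 (Ne.symm hne))
  ft := by
    intro x hx hxF hxR
    have hj := W.hj
    have hw := W.hw
    have h7 := W.h7
    have hl := hxF.1
    have hup : ∀ y, twT N x < y ↔ x < y := W.tws.up x hx
    have hll : lev (twT N x) = lev x := lev_eq_of_up hup
    have h1 := hxR.nab (j - 2) (by omega) (by omega)
    rw [nab_congr_up hup (by omega)] at h1
    have h2 := hxF.2.2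
    omega
  eq := fun z _ _ h => hF_not h
  pos := fun z hz => W.hF_pos hcel hz
  big := by
    intro z hz hadj
    obtain ⟨h1, h2, x, hx, hxF, h3⟩ := W.cost_adj hz hadj
    rw [W.cost_fold hx hxF] at h3
    rw [cst_const w (hF j w N b θ) z, hF_adj hadj]
    omega
  far := by
    classical
    intro v M hv
    have h := W.farF v M.tw (fun x hx hxF => by
      rw [W.cost_fold hx hxF]
      omega) hcel M.bd (hbigC v hv)
    rw [W.sum_b] at h
    convert h

/-- **`j = 10`** -/
theorem We.fsF (W : We r 10 w K0 N b θ) (hw2 : 2 ≤ w) (hCC : NoCC P 10)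
    (hex : ∀ t : Tops P, ∃ x ≤ (t : P), lev x = w) (hK : Kc ≤ fcT w 10 + (10 - w)) :
    FS P 10 w Kc N b θ (zfA 10 N) (Fc 10) (hF 10 w N b θ) := by
  obtain ⟨B, W'⟩ := W.fdx (by norm_num) hex
  exact W'.fs (fun z hz => absurd hz (hCC.not_celE W hw2)) hK
    (fun n0 _ g x z _ _ hz => absurd hz (hCC.not_celE W hw2))

lemma fcT_10_2 : fcT 2 10 + (10 - 2) = 119 := by decide +kernel

lemma fcT_10_3 : fcT 3 10 + (10 - 3) = 94 := by decide +kernel

end Pool.Agent.GaussPoset.Sm

end
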