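import Mathlib
import Pool.Agent.W_448zz_h61.Ns
import Pool.Agent.W_448zz_h61.M125
import Pool.Agent.W_448zz_h61.M126
import Pool.Agent.W_448zz_h61.M181
import Pool.Agent.W_448zz_h61.M184
import Pool.Agent.W_448zz_h61.M187
import Pool.Agent.W_448zz_h61.M205

/-! From `Pool.Agent.W_448j8_h67.JaQ` -/

section

/-!
Level 8, window 4: no flip word, no (C), no join with a fold end (MP_448cb3_co).
-/

namespace Pool.Agent.GaussPoset.J8

set_option linter.unusedSectionVars false

open Polynomial Finset Dd Wd Cl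

universe u

variable {P : Type u} [Fintype P] [PartialOrder P] [DecidableEq P] {r : ℕ}

section

variable {lo hi : Tops P → ℕ → ℕ} {e : Tops P → ℕ → ℕ → P} {w : Tops P → ℕ}
  {Y : Tops P → Finset P} {θ : Tops P → P → ℕ} {B : Tops P → P → Prop}

/-- the (C) elements -/
noncomputable def CX (lo hi : Tops P → ℕ → ℕ) (Y : Tops P → Finset P)
    (θ : Tops P → P → ℕ) : Finset P := by
  classical exact (bdR (unnat (N8 Y))).filter (fun z => h8 Y θ z = 1 ∧
    ∃ t, IsCx t (b8 lo hi t) (θ t) z)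

lemma mem_CX {z : P} : z ∈ CX lo hi Y θ ↔ z ∈ bdR (unnat (N8 Y)) ∧ h8 Y θ z = 1 ∧
    ∃ t, IsCx t (b8 lo hi t) (θ t) z := by
  classical
  unfold CX
  rw [mem_filter]

/-- **The energy 12.** -/
theorem C8.twelve (W : C8 P r lo hi e w Y θ B) (hne : Nonempty (Tops P)) :
    (∀ t, w t = 0) ∧ (∀ z ∈ bdR (unnat (N8 Y)), 13 ≤ cst 4 (h8 Y θ) z ∨
      (h8 Y θ z = 2 ∧ cst 4 (h8 Y θ) z = 12)) := by
  classical
  have H := W.K.gt.H
  have hgr := H.gradedBelow
  have L := W.lad
  set R := unnat (N8 Y) with hR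
  set h := h8 Y θ with hhe
  set Fam : Finset (Finset P) := (CX lo hi Y θ).image (fam R) with hFam
  have hFm : ∀ A ∈ Fam, ∃ z ∈ CX lo hi Y θ, A = fam R z := by
    intro A hA
    rw [hFam, mem_image] at hA
    obtain ⟨z, h1, h2⟩ := hA
    exact ⟨z, h1, h2.symm⟩
  have hcx : ∀ z ∈ CX lo hi Y θ, fam R z ∈ Fam := fun z hz => mem_image_of_mem _ hz
  have hmem : ∀ z ∈ CX lo hi Y θ, ∀ y ∈ fam R z, y ∈ CX lo hi Y θ := by
    intro z hz y hy
    obtain ⟨h1, h2, t, h3⟩ := mem_CX.mp hz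
    obtain ⟨h4, h5⟩ := W.fam_cx h3 hy
    exact mem_CX.mpr ⟨(mem_fam.mp hy).1, h4, t, h5⟩
  have hplus := L.plus0 (n := 12) le_rfl Fam
    (by
      intro A hA z hz
      obtain ⟨y, -, rfl⟩ := hFm A hA
      exact (mem_fam.mp hz).1)
    (by
      intro z hz hno
      show 12 ≤ cst 4 (h8 Y θ) z
      rcases W.kind' hz with h1 | ⟨-, h1, -⟩ | ⟨-, h1, -⟩ | ⟨h1, h2, t, h3⟩
      · omega
      · omega
      · omega
      · exfalso
        have h4 : z ∈ CX lo hi Y θ := mem_CX.mpr ⟨hz, h1, t, h3⟩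
        exact hno _ (hcx z h4) (fam_self hz))
    (by
      intro A hA z hz z' hz' hne'
      obtain ⟨y, hy, rfl⟩ := hFm A hA
      obtain ⟨-, h1, t, h2⟩ := mem_CX.mp hy
      obtain ⟨h3, h4⟩ := W.fam_cx h2 hz
      refine W.pair h3 h4 hz' ?_
      rwa [← fam_eq hz (fam_self (mem_fam.mp hz).1)])
    (by
      intro A hA A' hA' hne' z hz hz'
      obtain ⟨y, -, rfl⟩ := hFm A hA
      obtain ⟨y', -, rfl⟩ := hFm A' hA'
      exact hne' (fam_eq hz hz'))
  rw [W.sum_b] at hplus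
  -- the values
  have v0 : Lv (lv P 4).card (Z P 4 12) 0 := Lv.zero (dvd_Z H.gauss 4 12)
  have v1 : Lv (lv P 4).card (Z {x : P // x ∉ R} 4 12) ((∑ t, (w t : ℤ)) * (-1) ^ below P 4) := by
    refine L.nat_lv (by norm_num) (fun t => (W.td t).b_one) hne W.sum_b (fun t => (w t : ℤ)) ?_
    intro t
    have hw := (W.td t).w_le
    rcases (show w t = 0 ∨ w t = 1 by omega) with h1 | h1
    · left
      refine ⟨by rw [h1]; rfl, ?_⟩
      have hD := W.data t
      exact hD.clean R ⟨L.low, Subset.refl R, L.lev, L.base⟩ inferInstance 12 (by omega)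
    · right
      intro f hf
      rw [h1]
      exact (W.td t).full h1 (N8 Y) W.sys rfl f hf
  have v2 : ∀ A ∈ Fam, Lv (lv P 4).card (ZF 4 h A 12) ((A.card : ℤ) * (-1) ^ below P 4) := by
    intro A hA
    obtain ⟨z, hz, rfl⟩ := hFm A hA
    obtain ⟨h1, h2, t, h3⟩ := mem_CX.mp hz
    obtain ⟨Nc, co, F, S, C, hb, hF⟩ := h3
    have key := fam_poleT C (g := 2) (u := 0) (b := b8 lo hi) H W.sys (fun x hx => W.lev9 hx)
      (fun n hn => dvd_restL L W.sys t (by omega)) rfl (by norm_num) (by norm_num) (by norm_num)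
      hb (h := h) (A := fam R z) (fam_self h1) (fun y hy => (mem_fam.mp hy).2)
      (fun y hy => (W.fam_cx ⟨Nc, co, F, S, C, hb, hF⟩ hy).1)
    have k2 := key.2
    have e1 : E0 4 + hh 4 ^ 2 = 12 := by decide +kernel
    rw [e1, W.sum_b] at k2
    refine Lv.congr k2 ?_
    have e2 : ((fam R z).card : ℤ) * (-1) ^ below P 4 =
        ∑ _y ∈ fam R z, (-1 : ℤ) ^ (below P 4 + (0 + 1) * 2) := by
      rw [Finset.sum_const, nsmul_eq_mul, pow_add]
      norm_num
    rw [e2]
    exact Lv.sum _ fun y _ => Lv.mono _ _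
  set T := (bdR R).filter (fun z => (∀ A ∈ Fam, z ∉ A) ∧ cst 4 (hcan R (th8 θ)) z = 12) with hT
  have v3 : ∀ z ∈ T, Lv (lv P 4).card (Lt 4 (hcan R (th8 θ)) z)
      ((if nab 4 z = 4 then 1 else 0 : ℤ) * (-1) ^ below P 4) := by
    intro z hz
    rw [hT, mem_filter] at hz
    obtain ⟨hz1, -, hz3⟩ := hz
    have hz3' : cst 4 (h8 Y θ) z = 12 := hz3
    rcases W.kind' hz1 with h1 | ⟨h1, h2, h4, h6⟩ | ⟨h1, h2, h4, h5⟩ | ⟨-, h2, -⟩
    · omega
    · rw [if_neg (by omega), zero_mul]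
      refine Lv.zero ?_
      unfold Lt
      have h1' : hcan R (th8 θ) z = 2 := h1
      rw [h1', h4, show nab (4 + 2) z = 2 from h6, Nat.add_sub_cancel]
      exact dvd_mul_left _ _
    · rw [if_pos h4, one_mul]
      have h6 := (lt_one (b := 0) (h := hcan R (th8 θ)) (a := 3) h1 h4 h5).2
      rw [h6]
      have h7 := Lv.mono (lv P 4).card (below P 4 + (3 + 1))
      have h8 : (-1 : ℤ) ^ (below P 4 + (3 + 1)) = (-1) ^ below P 4 := by
        rw [pow_add]
        norm_num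
      rwa [h8] at h7
    · omega
  have v4 := ((v0.add (Lv.zero (p := 0) (dvd_zero _))))
  have v5 := (v1.add ((Lv.sum Fam v2).add (Lv.sum T v3)))
  have v6 := Lv.congr hplus v5
  have hB : 1 ≤ (lv P 4).card := by
    obtain ⟨t⟩ := hne
    rw [← W.sum_b]
    have h1 : b8 lo hi t ≤ ∑ t, b8 lo hi t :=
      Finset.single_le_sum (f := b8 lo hi) (fun _ _ => Nat.zero_le _) (mem_univ t)
    have h2 : 1 ≤ b8 lo hi t := (W.td t).b_one
    omega
  have v7 := v6.eq_zero hB (dvd_Z H.gauss 4 12)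
  rw [← Finset.sum_mul, ← Finset.sum_mul, ← add_mul, ← add_mul] at v7
  have v8 := (mul_eq_zero.mp v7).resolve_right (pow_ne_zero _ (by norm_num))
  have n1 : 0 ≤ ∑ t, (w t : ℤ) := Finset.sum_nonneg fun t _ => by positivity
  have n2 : 0 ≤ ∑ A ∈ Fam, (A.card : ℤ) := Finset.sum_nonneg fun t _ => by positivity
  have n3 : 0 ≤ ∑ z ∈ T, (if nab 4 z = 4 then 1 else 0 : ℤ) := Finset.sum_nonneg fun t _ => by
    split_ifs <;> norm_num
  have m1 : ∑ t, (w t : ℤ) = 0 := by omega
  have m2 : ∑ A ∈ Fam, (A.card : ℤ) = 0 := by omega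
  have m3 : ∑ z ∈ T, (if nab 4 z = 4 then 1 else 0 : ℤ) = 0 := by omega
  refine ⟨?_, ?_⟩
  · intro t
    have := (Finset.sum_eq_zero_iff_of_nonneg (fun t _ => by positivity)).mp m1 t (mem_univ t)
    exact_mod_cast this
  · intro z hz
    have hnoF : ∀ A ∈ Fam, z ∉ A := by
      intro A hA hzA
      have h1 := (Finset.sum_eq_zero_iff_of_nonneg (fun t _ => by positivity)).mp m2 A hA
      have h2 : 0 < A.card := Finset.card_pos.mpr ⟨z, hzA⟩
      have h3 : (A.card : ℤ) ≠ 0 := by exact_mod_cast h2.ne'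
      exact h3 h1
    rcases W.kind' hz with h1 | ⟨h1, h2, -⟩ | ⟨h1, h2, h4, h5⟩ | ⟨h1, h2, t, h3⟩
    · exact Or.inl h1
    · exact Or.inr ⟨h1, h2⟩
    · exfalso
      have h6 := (Finset.sum_eq_zero_iff_of_nonneg (fun t _ => by split_ifs <;> norm_num)).mp m3 z
        (by rw [hT, mem_filter]; exact ⟨hz, hnoF, h2⟩)
      rw [if_pos h4] at h6
      exact absurd h6 (by norm_num)
    · exfalso
      exact hnoF _ (hcx z (mem_CX.mpr ⟨hz, h1, t, h3⟩)) (fam_self hz)

end

end Pool.Agent.GaussPoset.J8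

end

/-! From `Pool.Agent.W_448j8_h67.JaR` -/

section

/-!
**Level 8**: no (C), no flip word, no join of level 9 (MP_448cb3_co).
-/

namespace Pool.Agent.GaussPoset.J8

set_option linter.unusedSectionVars false

open Polynomial Finset Dd Wd Cl

universe u

variable {P : Type u} [Fintype P] [PartialOrder P] [DecidableEq P] {r : ℕ}
variable {lo hi : Tops P → ℕ → ℕ} {e : Tops P → ℕ → ℕ → P}

/-- **There is no (C) element and no flip word at level 8.** -/
theorem level8 (K : Sm.Ctx P r 8 lo hi e) :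
    (∀ t, ¬ WordD 8 4 w8 (lo t) (hi t)) ∧
    (∀ t z, StairShape 8 (lo t) (hi t) → lo t 8 = 0 → z ⋖ e t 8 4 → z ⋖ e t 8 0 → False) := by
  choose w Y θ B hT hw hx using fun t : Tops P => exists_td K.gt (K.comp t) (K.shape t)
  have W : C8 P r lo hi e w Y θ B := ⟨K, hT⟩
  have key : ∀ t : Tops P, (∀ t, w t = 0) ∧
      (∀ z ∈ bdR (unnat (N8 Y)), 13 ≤ cst 4 (h8 Y θ) z ∨
      (h8 Y θ z = 2 ∧ cst 4 (h8 Y θ) z = 12)) := fun t => W.twelve ⟨t⟩
  constructor
  · intro t D
    have h1 := (key t).1 t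
    have h2 := hw t D
    omega
  · intro t z S h0 hz4 hz0
    obtain ⟨hzY, hcx⟩ := hx t S h0 z hz4 hz0
    obtain ⟨Nc, co, F, S', C, hb, hF⟩ := hcx
    have hgr := K.gt.H.gradedBelow
    have hlz := C.lev_z hgr
    have hFt := C.chart.le_t F C.F_mem
    have hzR : z ∈ unnat (N8 Y) := by
      rw [mem_unnat]
      intro s hs
      have h1 := W.sys.topOf_eq hs
      have h2 := W.sys.topOf_eq (W.sys.up s z hs F C.zF.1.le)
      have h3 := W.top_of hFt C.lev_F.le
      have h4 : s = t := h2.symm.trans h3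
      subst h4
      unfold N8 at hs
      rw [mem_union, mem_lowPart] at hs
      rcases hs with hs | hs
      · have := hs.2
        omega
      · exact hzY hs
    have hzb : z ∈ bdR (unnat (N8 Y)) := by
      classical
      unfold bdR
      rw [mem_filter]
      exact ⟨hzR, F, W.nat8 C.lev_F.le, C.zF⟩
    have h1 := W.h_le C.zF hFt C.lev_F.le
    have h2 := W.lad.one_le hzb
    have h2' : 1 ≤ h8 Y θ z := h2
    have hh1 : h8 Y θ z = 1 := by omega
    have hc := cx_cost hgr hh1 (⟨Nc, co, F, S', C, hb, hF⟩ : IsCx t _ (θ t) z)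
    rcases (key t).2 z hzb with h3 | h3
    · omega
    · omega

/-- the flip at the window 6 -/
lemma flip6 {t : Tops P} {lo hi : ℕ → ℕ} {e : ℕ → ℕ → P} (C : Cp.Comp 8 (t : P) lo hi e)
    (S : Wd.Shape 8 lo hi) (hw : ¬ WordD 8 4 w8 lo hi) : ¬ Win.Flip lo hi 6 := by
  rintro ⟨f1, f2⟩
  have s6 := C.lo_step 6 (by norm_num)
  have s7 := C.lo_step 7 (by norm_num)
  have s5 := C.lo_step 5 (by norm_num)
  have s4 := C.lo_step 4 (by norm_num)
  norm_num at s4 s5 s6 s7
  rcases S with h1 | ⟨h1, h2⟩ | ⟨h0, h2⟩ | ⟨h0, h1, h2⟩ | ⟨h0, h1⟩ | ⟨a, h0, h1, h2, h3, hN, h4⟩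
  · have := h1 6 (by norm_num)
    omega
  · -- rectangle
    rcases f2 with ⟨⟨-, g1, g2, -⟩, -⟩ | ⟨⟨-, g1, g2, -⟩, -⟩
    · norm_num at g1 g2
      have := shape_lo C h2.lo (l := 5) (by omega) 1 (by norm_num)
      norm_num at this
      omega
    · norm_num at g1 g2
      have e1 := C.hi_le (k := 4) (by norm_num)
      have := shape_hi C h2.hi (l := 5) (by omega) 1 (by norm_num)
      norm_num at this
      omega
  · -- stair
    rcases f2 with ⟨⟨-, g1, g2, -⟩, -⟩ | ⟨-, ⟨g1, g2, -⟩⟩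
    · norm_num at g1 g2
      have := shape_lo C h2.lo (l := 5) (by omega) 1 (by norm_num)
      norm_num at this
      omega
    · norm_num at g1 g2
      have := shape_lo C h2.lo (l := 7) (by omega) 1 (by norm_num)
      norm_num at this
      omega
  · omega
  · omega
  · have D : LateD 8 a lo hi := ⟨h0, h1, h2, h3, h4⟩
    rcases Nat.lt_or_ge a 5 with ha | ha
    · obtain rfl | rfl : a = 3 ∨ a = 4 := by omega
      · obtain ⟨W, -⟩ := wordD_three D (by norm_num)
        obtain ⟨r1, r2⟩ := W.rows C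
        have e1 : losW 3 w6 6 = 2 ∧ hisW 3 w6 6 = 3 := by decide +kernel
        rw [r1 6 (by norm_num), r2 6 (by norm_num), e1.1, e1.2] at f1
        omega
      · rcases h4 with ⟨g1, g2⟩ | g2
        · have hq := D.quad C g2 2 (by norm_num) (by norm_num)
          norm_num at hq
          omega
        · have hl : (word lo hi 4 (8 - 4)).length = 4 := by rw [word_length]
          rcases late8_words _ g2 hl with g3 | g3
          · exact hw ⟨h2, h3, by rw [g3]; rfl⟩
          · have W : WordD 8 4 w7 lo hi := ⟨h2, h3, g3⟩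
            obtain ⟨r1, r2⟩ := W.rows C
            have e1 : losW 4 w7 6 = 1 ∧ hisW 4 w7 6 = 2 := by decide +kernel
            rw [r1 6 (by norm_num), r2 6 (by norm_num), e1.1, e1.2] at f1
            omega
    · rcases Nat.lt_or_ge a 6 with ha6 | ha6
      · obtain rfl : a = 5 := by omega
        have t5 := C.hi_step 5 (by norm_num)
        norm_num at t5
        have t4 := h2 4 (by norm_num)
        -- the first letter
        rcases f2 with ⟨⟨-, g1, g2, -⟩, -⟩ | ⟨⟨-, g1, g2, -⟩, -⟩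
        · norm_num at g1 g2
          omega
        · norm_num at g1 g2
          omega
      · rcases Nat.lt_or_ge a 7 with ha7 | ha7
        · obtain rfl : a = 6 := by omega
          omega
        · have := h2 6 (by omega)
          omega

/-- **There is no join of level 9.** -/
theorem no_jn8 (K : Sm.Ctx P r 8 lo hi e) : ∀ z : P, lev z = 9 → ¬ Hul.Jn z := by
  intro z hl
  refine Sm.no_join8r K ?_ hl
  have hw := (level8 K).1
  have G : Win.GoodTo P r (6 + 2) := K.gt
  have hZ := Win.So.Z2_empty G (by norm_num) (fun t => ⟨lo t, hi t, e t, (K.comp t).toWin,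
    flip6 (K.comp t) (K.shape t) (hw t)⟩)
  intro z x x' hcg hlz s s' hs hs'
  have H := K.gt.H
  obtain ⟨l1, l2⟩ := hcg.lev_eq H
  obtain ⟨u1, u2⟩ := K.ends hcg hlz
  unfold Sm.XRR
  by_contra hcon
  rw [Bool.not_eq_false, Bool.and_eq_true, beq_iff_eq, beq_iff_eq] at hcon
  obtain ⟨y, hy⟩ := Finset.card_eq_one.mp u1
  obtain ⟨y', hy'⟩ := Finset.card_eq_one.mp u2
  have hne : x ≠ x' := by rintro rfl; exact hcg.ne rfl
  have hup : Win.uc z = {x, x'} := by
    ext v
    rw [Win.mem_uc, mem_insert, mem_singleton]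
    constructor
    · intro hv
      exact uc_pair H hcg.cov hcg.cov' hne hv
    · rintro (h | h)
      · rw [h]; exact hcg.cov
      · rw [h]; exact hcg.cov'
  have hcard : ∀ {x y : P} {s : ℕ × ℕ × ℕ}, lev x = 8 → Win.uc x = {y} → Sm.Dt 8 x s →
      s.2.2 = 1 → (Win.uc y).card = 2 := by
    intro x y s hx hxy hD hs1
    have h1 : x ⋖ y := by
      rw [← Win.mem_uc, hxy]
      exact mem_singleton_self y
    have h2 : Pend x y := ⟨h1, fun v hv => by
      rw [← Win.mem_uc, hxy, mem_singleton] at hv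
      exact hv⟩
    have h3 := (H.covBy_iff.mp h1).2
    have h4 : lev y = 7 := by omega
    rw [uc_card_nab H (by omega), h4, ← nab_pend h2 (by omega), hD.2.2, hs1]
  have hmem := Win.So.mem_Z2s_join G (by omega) hup hcg.ne hy hy'
    (hcard (by omega) hy hs hcon.1) (hcard (by omega) hy' hs' hcon.2)
  rw [hZ] at hmem
  exact absurd hmem (Finset.notMem_empty _)

end Pool.Agent.GaussPoset.J8

end

/-! From `Pool.Agent.W_448w6_h53.WcH` -/

section

/-!
The strip `La5`, pendants below the last cell.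
-/

namespace Pool.Agent.GaussPoset.W6

open Cl Dd Sg

/-- the up-sets -/
def Qhus : List ℕ := [134217727, 130023423, 125829119, 121634815, 121110527, 100663295, 96468991, 92274687, 88080383, 87556095, 67108863, 62914559, 58720255, 54525951, 54001663, 33554431, 29360127, 25165823, 20971519, 20447231, 16777215, 14680063, 14417919, 12582911, 10485759, 10223615, 8388607, 7340031, 6291455, 6029311, 5242879, 5111807, 4980735, 4849663, 4816895, 4194303, 3670015, 3145727, 2621439, 2555903, 2547711, 2097151, 1835007, 1572863, 1310719, 1048575, 917503, 786431, 655359, 622591, 524287, 458751, 450559, 393215, 327679, 319487, 311295, 303103, 301055, 300543, 300415, 262143, 196607, 188415, 131071, 98303, 65535, 57343, 49151, 40959, 38911, 38399, 38271, 32767, 24575, 16383, 12287, 8191, 6143, 5631, 5503, 4095, 2047, 1535, 1407, 1023, 511, 383, 255, 191, 127, 95, 63, 31, 15, 7, 3, 1, 0]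

/-- the covers -/
def Qhcv : List ℕ := [0, 1, 2, 4, 8, 16, 16, 32, 96, 384, 256, 1536, 1024, 2048, 6144, 4096, 24576, 49152, 32768, 65536, 196608, 393216, 524288, 1572864, 3145728, 16777216, 16777216]

/-- the levels -/
def Qhlv : List ℕ := [0, 1, 2, 3, 4, 5, 5, 6, 6, 7, 7, 8, 8, 9, 9, 9, 10, 10, 10, 11, 11, 11, 12, 12, 12, 13, 13]

/-- the cells above -/
def Qhum : List ℕ := [1, 3, 7, 15, 31, 63, 95, 191, 383, 1023, 1407, 4095, 5503, 12287, 24575, 38271, 98303, 188415, 300415, 622591, 1310719, 2547711, 4816895, 10223615, 20447231, 54001663, 87556095]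

/-- the thresholds -/
def Qhth : List ℕ := [0, 0, 0, 0, 0, 0, 0, 0, 0, 0, 0, 0, 0, 1, 0, 0, 1, 0, 0, 2, 1, 0, 3, 2, 1, 2, 2]

/-- the up-sets above the base: code, `ℓ`, `M`, exponent, coefficient -/
def QhL : List (ℕ × ℕ × ℕ × ℕ × ℕ) := [(134217727, 14, 13, 195, 0), (130023423, 14, 12, 176, 0), (125829119, 14, 12, 176, 0), (121634815, 14, 11, 158, 0), (121110527, 14, 10, 141, 0), (100663295, 14, 12, 176, 0), (96468991, 14, 11, 158, 0), (92274687, 14, 11, 158, 0), (88080383, 14, 10, 141, 0), (87556095, 14, 9, 125, 0), (67108863, 14, 12, 176, 0), (62914559, 14, 11, 158, 0), (58720255, 14, 11, 158, 0), (54525951, 14, 10, 141, 0), (54001663, 14, 9, 125, 0), (33554431, 13, 12, 176, 0), (29360127, 13, 11, 158, 0), (25165823, 13, 11, 158, 0), (20971519, 13, 10, 141, 0), (20447231, 13, 9, 125, 0), (16777215, 13, 11, 158, 0), (12582911, 13, 10, 141, 0), (8388607, 13, 10, 141, 0), (7340031, 13, 9, 125, 0), (4194303, 12, 10, 141, 0), (3670015, 12, 9,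 125, 0), (3145727, 12, 9, 125, 0), (2621439, 12, 8, 110, 0), (2555903, 12, 7, 96, 0), (2547711, 12, 6, 83, 0)]

/-- the complete up-sets -/
def QhF : List (ℕ × ℕ × ℕ × ℕ × ℕ) := []

theorem Qh_us : UsOK 27 (fun a => Qhcv.getD a 0) Qhus :=
  usOK_of_chk (by decide +kernel)

theorem Qh_pol1 : polF1 27 (2 ^ 100) 13 Qhus 6 (QhL ++ QhF) = true := by
  decide +kernel

theorem Qh_pol2 : polF2 27 (2 ^ 100) 13 Qhus (QhL ++ QhF) = true := by
  decide +kernel

theorem Qh_pol : polC 27 (2 ^ 100) 13 Qhus 6 (QhL ++ QhF) = true :=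
  polC_of_fast Qh_pol1 Qh_pol2

theorem Qh_low : lowC 27 13 6 27 (fun a => Qhlv.getD a 0) Qhus 2547711 QhL = true := by
  decide +kernel

theorem Qh_th : thChk 27 6 21 (fun a => Qhlv.getD a 0) (fun a => Qhcv.getD a 0)
    (fun a => Qhum.getD a 0) (fun a => Qhth.getD a 0) = true := by decide +kernel

theorem Qh_bm : bmC 27 6 21 2547711 (fun a => Qhlv.getD a 0)
    (fun a => Qhum.getD a 0) = true := by decide +kernel

end Pool.Agent.GaussPoset.W6

end

/-! From `Pool.Agent.W_448w6_h53.WdC` -/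

section

/-!
The components at the window 6, level 12: coded natural sets; `La5` (MP_448cb3_co, `j = 12`).
-/

namespace Pool.Agent.GaussPoset.W6

set_option linter.unusedSectionVars false

open Polynomial Finset Dd Wd Cl Sg

universe u

variable {P : Type u} [Fintype P] [PartialOrder P] [DecidableEq P] {r : ℕ}
variable {t : Tops P} {lo hi : ℕ → ℕ} {e : ℕ → ℕ → P}

/-- an enumeration of a set -/
lemma enum (A : Finset P) (p0 : P) : ∃ z : ℕ → P,
    (∀ a < A.card, ∀ b < A.card, z a = z b → a = b) ∧ ∀ x, x ∈ A ↔ ∃ k < A.card, z k = x := by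
  classical
  refine ⟨fun k => if h : k < A.card then (A.equivFin.symm ⟨k, h⟩ : P) else p0, ?_, ?_⟩
  · intro a ha b hb h
    simp only [ha, hb, dif_pos] at h
    have h1 := A.equivFin.symm.injective (Subtype.ext h)
    exact congrArg Fin.val h1
  · intro x
    constructor
    · intro hx
      refine ⟨(A.equivFin ⟨x, hx⟩ : ℕ), (A.equivFin ⟨x, hx⟩).2, ?_⟩
      simp
    · rintro ⟨k, hk, rfl⟩
      simp only [hk, dif_pos]
      exact (A.equivFin.symm ⟨k, hk⟩).2

/-- the cells and more elements -/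
def czg (n : ℕ) (c z : ℕ → P) (a : ℕ) : P := if a < n then c a else z (a - n)

lemma czg_lt {n : ℕ} {c z : ℕ → P} {a : ℕ} (ha : a < n) : czg n c z a = c a := if_pos ha

lemma czg_add {n : ℕ} {c z : ℕ → P} (k : ℕ) : czg n c z (n + k) = z k := by
  unfold czg
  rw [if_neg (by omega), Nat.add_sub_cancel_left]

lemma czg_mem {n K : ℕ} {c z : ℕ → P} {S A : Finset P} (hc : ∀ x, x ∈ S ↔ ∃ a < n, c a = x)
    (hA : ∀ x, x ∈ A ↔ ∃ k < K, z k = x) (x : P) :
    x ∈ S ∪ A ↔ ∃ a < n + K, czg n c z a = x := by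
  rw [mem_union, hA, hc]
  constructor
  · rintro (⟨a, ha, rfl⟩ | ⟨k, hk, rfl⟩)
    · exact ⟨a, by omega, czg_lt ha⟩
    · exact ⟨n + k, by omega, czg_add k⟩
  · rintro ⟨a, ha, rfl⟩
    by_cases h : a < n
    · exact Or.inl ⟨a, h, (czg_lt h).symm⟩
    · right
      refine ⟨a - n, by omega, ?_⟩
      unfold czg
      rw [if_neg h]

/-- orders from local data -/
lemma dt_loc {b n0 : ℕ} {Y : Finset P} {θ : P → ℕ} {B : P → Prop}
    (L : LocL 6 b n0 (lowPart 12 (t : P) ∪ Y) θ B) : DT n0 t b Y θ B := by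
  intro N HN hlow hN θ' B' hθ hB
  exact LocL.data (θ := θ) (B := B) (by rw [hN]; exact L) HN θ' B' hθ hB

/-- two elements above -/
lemma ct_pair {i k : ℕ} {z x x' : P} (hzx : z < x) (hzx' : z < x') (hn : ¬ x ≤ x') :
    min k (lev z - i) + min k (lev x' - i) + ct i k x ≤ ct i k z := by
  classical
  rw [ct_succ i k z, ct_eq_sum, Nat.add_assoc]
  refine Nat.add_le_add_left ?_ _
  have h1 : min k (lev x' - i) = ∑ y, (if y = x' then min k (lev y - i) else 0) := by
    rw [Finset.sum_ite_eq' univ x' (fun y => min k (lev y - i)), if_pos (mem_univ _)]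
  rw [h1, ← Finset.sum_add_distrib]
  refine Finset.sum_le_sum fun y _ => ?_
  by_cases hy : y = x'
  · subst hy
    rw [if_pos rfl, if_neg hn, if_pos hzx']
    omega
  · rw [if_neg hy, zero_add]
    by_cases hxy : x ≤ y
    · rw [if_pos hxy, if_pos (hzx.trans_le hxy)]
    · rw [if_neg hxy]
      exact Nat.zero_le _

section La5

/-- the cells of `La5` -/
def c5 (e : ℕ → ℕ → P) (a : ℕ) : P := e (La5lv.getD a 0) (La5sl.getD a 0)

lemma La5_cod (D : WordD 12 5 wa5 lo hi) (C : Cp.Comp 12 (t : P) lo hi e)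
    (h : Win.GoodTo P r 12) :
    Cod 25 (fun a => La5cv.getD a 0) (fun a => La5lv.getD a 0) (c5 e) := by
  obtain ⟨h1, h2⟩ := D.rows C
  exact La5_strip.cod C h.H h.good t.2 le_rfl h1 h2

lemma La5_low (D : WordD 12 5 wa5 lo hi) (C : Cp.Comp 12 (t : P) lo hi e) (x : P) :
    x ∈ lowPart 12 (t : P) ↔ ∃ a < 25, c5 e a = x := by
  obtain ⟨h1, h2⟩ := D.rows C
  constructor
  · exact fun hx => La5_strip.surj' C le_rfl h1 h2 hx
  · rintro ⟨a, ha, rfl⟩
    have h3 := La5_strip.row a ha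
    have h4 : La5lv.getD a 0 ≤ 12 := by
      have h : ∀ a < 25, La5lv.getD a 0 ≤ 12 := by decide +kernel
      exact h a ha
    rw [← h1 _ h4, ← h2 _ h4] at h3
    rw [mem_lowPart]
    exact ⟨C.le_t _ _ h4 h3.1 h3.2, (C.lev_e _ _ h4 h3.1 h3.2).le.trans h4⟩

/-- the pendants below an element -/
noncomputable def Pds (x : P) : Finset P := by
  classical exact univ.filter (fun z => Pend z x)

lemma mem_Pds {x z : P} : z ∈ Pds x ↔ Pend z x := by
  classical
  unfold Pds
  simp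

lemma Pds_card (H : Gr P r) (x : P) : (Pds x).card ≤ 2 := by
  refine (Finset.card_le_card (t := Win.dc x) fun y hy => ?_).trans (Win.dc_card_le H _)
  rw [Win.mem_dc]
  exact (mem_Pds.mp hy).1

/-- `La5` -/
theorem la5_ts (h : Win.GoodTo P r 12) (C : Cp.Comp 12 (t : P) lo hi e)
    (D : WordD 12 5 wa5 lo hi) :
    ∃ Y θ B, TB 28 True t (hi 6 - lo 6 + 1) Y θ ∧ DT 28 t (hi 6 - lo 6 + 1) Y θ B := by
  classical
  have H := h.H
  obtain ⟨r1, r2⟩ := D.rows C
  have e1 : losW 5 wa5 12 = 3 ∧ hisW 5 wa5 12 = 5 ∧ losW 5 wa5 6 + 1 = hisW 5 wa5 6 := by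
    decide +kernel
  have hb : hi 6 - lo 6 + 1 = 2 := by
    rw [r1 6 (by norm_num), r2 6 (by norm_num)]
    omega
  have l12 : lo 12 = 3 := by rw [r1 12 le_rfl, e1.1]
  have u12 : hi 12 = 5 := by rw [r2 12 le_rfl, e1.2.1]
  have hC := La5_cod D C h
  have hlow := La5_low D C
  have hK := Pds_card H (e 12 5)
  set A : Finset P := Pds (e 12 5) with hAdef
  obtain ⟨z, hinj, hA⟩ := enum A (t : P)
  set K := A.card with hKdef
  have hl5 : lev (e 12 5) = 12 := C.lev_e 12 5 le_rfl (by omega) (by omega)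
  have hlA : ∀ y ∈ A, lev y = 13 := by
    intro y hy
    have := (H.covBy_iff.mp (mem_Pds.mp hy).1).2
    omega
  have hzA : ∀ k < K, z k ∈ A := fun k hk => (hA _).mpr ⟨k, hk, rfl⟩
  have hcell : ∀ a < 3, c5 e (22 + a) = e 12 (3 + a) := by
    intro a ha
    obtain rfl | rfl | rfl : a = 0 ∨ a = 1 ∨ a = 2 := by omega
    · rfl
    · rfl
    · rfl
  have hcod : Cod (25 + K) (fun a => Qhcv.getD a 0) (fun a => Qhlv.getD a 0)
      (czg 25 (c5 e) z) := by
    have g3 : ∀ k < 2, Qhcv.getD (25 + k) 0 = 16777216 := by decide +kernel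
    have g4 : ∀ k < 2, Qhlv.getD (25 + k) 0 = 13 := by decide +kernel
    refine cod_append hC (cx := fun _ => 16777216) (lx := fun _ => 13) (by decide +kernel)
      (fun _ _ => by norm_num) (by decide +kernel) (by decide +kernel)
      (fun k hk => g3 k (by omega)) (fun k hk => g4 k (by omega)) hinj ?_ ?_ ?_
    · intro a ha b hb' hh
      have h2 := hlA _ (hzA b hb')
      rw [← hh, hC.lev a ha] at h2
      have h3 : ∀ a < 25, La5lv.getD a 0 ≤ 12 := by decide +kernel
      have := h3 a ha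
      omega
    · intro k hk y
      obtain ⟨g5, g6⟩ := mem_Pds.mp (hzA k hk)
      have g7 : c5 e 24 = e 12 5 := hcell 2 (by norm_num)
      constructor
      · intro hy
        exact ⟨24, by norm_num, by decide +kernel, by rw [g7, g6 y hy]⟩
      · rintro ⟨b, hb1, hb2, rfl⟩
        have h3 : ∀ b < 25, Nat.testBit 16777216 b = true → b = 24 := by decide +kernel
        rw [h3 b hb1 hb2, g7]
        exact g5
    · exact fun k hk => hlA _ (hzA k hk)
  have hS := czg_mem (n := 25) (K := K) (c := c5 e) (z := z) hlow hA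
  have hl : LocL 6 2 28 (lowPart 12 (t : P) ∪ A) (thI (25 + K) (czg 25 (c5 e) z)
      (fun a => Qhth.getD a 0)) (fun x => x = czg 25 (c5 e) z 21) :=
    cod_locL' hcod Qh_us (by omega) Qh_th (by omega) hS Qh_pol Qh_low
      (fun x hx => List.mem_append_left _ hx) Qh_bm
      (lt_of_lt_of_le (by norm_num) (Nat.pow_le_pow_right (by norm_num) (show 25 ≤ 25 + K by omega)))
  set θ := thI (25 + K) (czg 25 (c5 e) z) (fun a => Qhth.getD a 0) with hθdef
  have hth : ∀ a < 3, θ (e 12 (3 + a)) = 3 - a := by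
    intro a ha
    have h1 := thI_c hcod (fun a => Qhth.getD a 0) (a := 22 + a) (by omega)
    rw [czg_lt (by omega), hcell a ha] at h1
    rw [hθdef, h1]
    obtain rfl | rfl | rfl : a = 0 ∨ a = 1 ∨ a = 2 := by omega
    · decide +kernel
    · decide +kernel
    · decide +kernel
  have hthA : ∀ y ∈ A, θ y = 2 := by
    intro y hy
    obtain ⟨k, hk, rfl⟩ := (hA y).mp hy
    have h1 := thI_c hcod (fun a => Qhth.getD a 0) (a := 25 + k) (by omega)
    rw [czg_add] at h1
    rw [hθdef, h1]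
    have h3 : ∀ k < 2, Qhth.getD (25 + k) 0 = 2 := by decide +kernel
    exact h3 k (by omega)
  have hrow : ∀ x, x ≤ (t : P) → lev x = 12 → ∃ a < 3, x = e 12 (3 + a) := by
    intro x hx hl'
    obtain ⟨s, s1, s2, hs⟩ := C.surj x hx hl'.le
    rw [hl'] at s1 s2 hs
    exact ⟨s - 3, by omega, by rw [← hs, show 3 + (s - 3) = s by omega]⟩
  have hcost : ∀ a < 3, ∀ z : P, z ⋖ e 12 (3 + a) → a ≠ 2 →
      28 ≤ ct 6 (θ (e 12 (3 + a)) + 1) z := by
    intro a ha z' hz' hne
    rw [hth a ha]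
    have key : ∀ a < 3, a ≠ 2 → 28 ≤ min (3 - a + 1) 7 +
        ∑ l ∈ range 13, min (3 - a + 1) (l - 6) * Hc.nbw 5 wa5 (3 + a) l := by decide +kernel
    exact cell_cost D C h (by rw [e1.1]; omega) (by rw [e1.2.1]; omega) (key a ha hne) hz'
  have h24 : ct 6 2 (e 12 5) = 24 := by
    rw [Hc.ct_cell D C h.H h.good (by rw [e1.1]; norm_num) (by rw [e1.2.1])]
    decide +kernel
  refine ⟨A, θ, fun x => x = czg 25 (c5 e) z 21, ?_, ?_⟩
  · rw [hb]
    constructor
    · norm_num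
    · intro y hy
      have := hlA y hy
      omega
    · intro y hy v hyv
      rw [(mem_Pds.mp hy).2 v hyv, mem_union, mem_lowPart]
      exact Or.inl ⟨C.le_t 12 5 le_rfl (by omega) (by omega), hl5.le⟩
    · intro y hy z' hz' _
      rw [hthA y hy]
      have g1 := ct_cov (i := 6) (k := 2 + 1) hz'.1
      have g2 := ct_cov (i := 6) (k := 2 + 1) (mem_Pds.mp hy).1.1
      have g3 := ct_mono (i := 6) (le_refl (e 12 5)) (show 2 ≤ 2 + 1 by norm_num)
      have g4 := (H.covBy_iff.mp hz').2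
      rw [h24] at g3
      rw [hlA y hy] at g2 g4
      rw [g4] at g1
      omega
    · intro x z' hxt hl' hzx honly hzA'
      obtain ⟨a, ha, rfl⟩ := hrow x hxt hl'
      by_cases h2 : a = 2
      · subst h2
        exact absurd (mem_Pds.mpr ⟨hzx, honly⟩) hzA'
      · exact Or.inl (hcost a ha z' hzx h2)
    · intro x x' z' hne hxt hxt' hl' hl'' hzx hzx' _ _
      left
      obtain ⟨a, ha, rfl⟩ := hrow x hxt hl'
      by_cases h2 : a = 2
      · subst h2
        rw [hth 2 (by norm_num)]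
        have g1 := ct_pair (i := 6) (k := 2) hzx.1 hzx'.1 (fun hle => by
          rcases eq_or_lt_of_le hle with g | g
          · exact hne g
          · have := lev_strictAnti g
            omega)
        have g2 := (H.covBy_iff.mp hzx).2
        rw [hl''] at g1
        have g3 : lev z' = 13 := by omega
        rw [g3] at g1
        have g4 : ct 6 2 (e 12 (3 + 2)) = 24 := h24
        rw [g4] at g1
        show 28 ≤ ct 6 2 z'
        omega
      · exact hcost a ha z' hzx h2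
    · intro x hxt hl' _
      have := nab_le_row h C hxt hl'.le (l := 6) (by norm_num)
      refine ⟨fun h3 => by omega, fun h0 => ?_⟩
      obtain ⟨a, ha, rfl⟩ := hrow x hxt hl'
      rw [hth a ha] at h0
      omega
    · intro x hxt hl' _ _
      obtain ⟨a, ha, rfl⟩ := hrow x hxt hl'
      rw [hth a ha]
      obtain rfl | ha2 : a = 2 ∨ a < 2 := by omega
      · have g4 : ct 6 2 (e 12 (3 + 2)) = 24 := h24
        show 28 ≤ ct 6 2 (e 12 (3 + 2)) + 13
        omega
      · exact ct_three hl' (by omega)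
    · intro y hy x hp hl'
      have hxe : x = e 12 5 := ((mem_Pds.mp hy).2 x hp.1)
      have := nab_le_row h C (x := x) (by
        rw [hxe]
        exact C.le_t 12 5 le_rfl (by omega) (by omega)) hl'.le (l := 6) (by norm_num)
      omega
  · rw [hb]
    exact dt_loc hl

end La5

end Pool.Agent.GaussPoset.W6

end

/-! From `Pool.Agent.W_448w6_h53.WdD` -/

section

/-!
The components at the window 6, level 12: the elements below `La6` (MP_448cb3_co, `j = 12`).
-/

namespace Pool.Agent.GaussPoset.W6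

set_option linter.unusedSectionVars false
set_option synthInstance.maxSize 1000

open Polynomial Finset Dd Wd Cl Sg

universe u

variable {P : Type u} [Fintype P] [PartialOrder P] [DecidableEq P] {r : ℕ}
variable {t : Tops P} {lo hi : ℕ → ℕ} {e : ℕ → ℕ → P}

/-- the cells of `La6` -/
def c6 (e : ℕ → ℕ → P) (a : ℕ) : P := e (La6lv.getD a 0) (La6sl.getD a 0)

/-- the covers, 24 cells -/
def L6cv : List ℕ := [0, 1, 2, 4, 8, 16, 32, 32, 64, 192, 768, 512, 3072, 2048, 4096, 12288, 8192,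
  49152, 98304, 65536, 131072, 393216, 786432, 524288]

/-- the levels, 24 cells -/
def L6lv : List ℕ := [0, 1, 2, 3, 4, 5, 6, 6, 7, 7, 8, 8, 9, 9, 10, 10, 10, 11, 11, 11, 12, 12,
  12, 12]

/-- the cells above, 24 cells -/
def L6um : List ℕ := [1, 3, 7, 15, 31, 63, 127, 191, 383, 767, 2047, 2815, 8191, 11007, 24575,
  49151, 76543, 196607, 376831, 600831, 1245183, 2621439, 5095423, 8989439]

lemma La6_cod (D : WordD 12 6 wa6 lo hi) (C : Cp.Comp 12 (t : P) lo hi e)
    (h : Win.GoodTo P r 12) :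
    Cod 24 (fun a => L6cv.getD a 0) (fun a => L6lv.getD a 0) (c6 e) := by
  obtain ⟨h1, h2⟩ := D.rows C
  have key : Cod 24 (fun a => La6cv.getD a 0) (fun a => La6lv.getD a 0) (c6 e) :=
    La6_strip.cod C h.H h.good t.2 (by norm_num) h1 h2
  have e1 : ∀ a < 24, L6cv.getD a 0 = La6cv.getD a 0 := by decide +kernel
  have e2 : ∀ a < 24, L6lv.getD a 0 = La6lv.getD a 0 := by decide +kernel
  refine ⟨key.inj, fun a ha y => ?_, fun a ha => ?_⟩
  · rw [e1 a ha]
    exact key.cov a ha y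
  · rw [e2 a ha]
    exact key.lev a ha

lemma La6_low (D : WordD 12 6 wa6 lo hi) (C : Cp.Comp 12 (t : P) lo hi e) (x : P) :
    x ∈ lowPart 12 (t : P) ↔ ∃ a < 24, c6 e a = x := by
  obtain ⟨h1, h2⟩ := D.rows C
  constructor
  · exact fun hx => La6_strip.surj' C (by norm_num) h1 h2 hx
  · rintro ⟨a, ha, rfl⟩
    have h3 := La6_strip.row a (by omega)
    have h4 : La6lv.getD a 0 ≤ 12 := by
      have h : ∀ a < 24, La6lv.getD a 0 ≤ 12 := by decide +kernel
      exact h a ha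
    rw [← h1 _ h4, ← h2 _ h4] at h3
    rw [mem_lowPart]
    exact ⟨C.le_t _ _ h4 h3.1 h3.2, (C.lev_e _ _ h4 h3.1 h3.2).le.trans h4⟩

lemma L6_cv : ∀ a < 24, L6cv.getD a 0 < 2 ^ a := by decide +kernel

lemma L6_cv24 : ∀ a < 24, L6cv.getD a 0 < 2 ^ 24 := by decide +kernel

lemma L6_um : ∀ a < 24, L6um.getD a 0 = Nat.lor (2 ^ a)
    (orM (fun a => L6um.getD a 0) 24 (L6cv.getD a 0)) := by decide +kernel

lemma L6_lv12 : ∀ a < 24, L6lv.getD a 0 = 12 → 20 ≤ a := by decide +kernel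

lemma L6_lvle : ∀ a < 24, L6lv.getD a 0 ≤ 12 := by decide +kernel

lemma L6_lv20 : ∀ a < 24, 20 ≤ a → L6lv.getD a 0 = 12 := by decide +kernel

lemma L6_adj : ∀ a < 24, ∀ b < 24, 20 ≤ a → 20 ≤ b → a ≠ b →
    (∃ k < 24, (L6cv.getD a 0).testBit k = true ∧ (L6cv.getD b 0).testBit k = true) →
    b = a + 1 ∨ a = b + 1 := by decide +kernel

lemma L6_two : ∀ a < 24, 20 ≤ a → a ≠ 20 → a ≠ 23 → ∃ k < 24, ∃ k' < 24, k ≠ k' ∧
    (L6cv.getD a 0).testBit k = true ∧ (L6cv.getD a 0).testBit k' = true := by decide +kernel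

/-- the masks of the elements of level 13 -/
def msk : List ℕ := [8388608, 1048576, 12582912, 6291456, 3145728, 9437184]

lemma msk_two : ∀ a < 24, ∀ b < 24, 20 ≤ a → 20 ≤ b → a ≠ b →
    (b = a + 1 ∨ a = b + 1 ∨ (a = 20 ∧ b = 23) ∨ (a = 23 ∧ b = 20)) →
    Nat.lor (2 ^ a) (2 ^ b) ∈ msk := by decide +kernel

lemma c6_lev (D : WordD 12 6 wa6 lo hi) (C : Cp.Comp 12 (t : P) lo hi e)
    (h : Win.GoodTo P r 12) {a : ℕ} (ha : a < 24) : lev (c6 e a) = L6lv.getD a 0 :=
  (La6_cod D C h).lev a ha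

lemma c6_le (D : WordD 12 6 wa6 lo hi) (C : Cp.Comp 12 (t : P) lo hi e) {a : ℕ} (ha : a < 24) :
    c6 e a ≤ (t : P) :=
  (mem_lowPart.mp ((La6_low D C _).mpr ⟨a, ha, rfl⟩)).1

/-- there are no pendants below the inner cells -/
lemma La6_pen (D : WordD 12 6 wa6 lo hi) (C : Cp.Comp 12 (t : P) lo hi e)
    (h : Win.GoodTo P r 12) {a : ℕ} (ha : a = 21 ∨ a = 22) {z : P} (hz : z ⋖ c6 e a) :
    (Win.uc z).card ≠ 1 := by
  classical
  obtain ⟨r1, r2⟩ := D.rows C
  have e1 : losW 6 wa6 9 = 2 ∧ losW 6 wa6 10 = 2 ∧ losW 6 wa6 11 = 3 ∧ hisW 6 wa6 9 = 3 ∧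
      hisW 6 wa6 10 = 4 ∧ hisW 6 wa6 11 = 5 := by decide +kernel
  have l9 := r1 9 (by norm_num)
  have l10 := r1 10 (by norm_num)
  have l11 := r1 11 (by norm_num)
  have u9 := r2 9 (by norm_num)
  have u10 := r2 10 (by norm_num)
  have u11 := r2 11 (by norm_num)
  have key := (Win.near_level' (i := 11) h (by norm_num)).2 (t : P) lo hi e t.2 C.toWin
  have nL : ¬ Win.LCO lo hi 11 := by
    rintro ⟨-, g1, -⟩
    norm_num at g1
    omega
  have nR : ¬ Win.RCO lo hi 11 := by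
    rintro ⟨-, g1, -⟩
    norm_num at g1
    omega
  rcases key with ⟨-, -, g⟩ | ⟨g, -⟩ | ⟨g, -⟩
  · intro hc
    have hcard : (Win.pen (c6 e a)).card = 0 := by
      rcases ha with rfl | rfl
      · exact g 4 (by omega) (by omega)
      · exact g 5 (by omega) (by omega)
    rw [Finset.card_eq_zero] at hcard
    have hmem : z ∈ Win.pen (c6 e a) := by
      unfold Win.pen
      rw [mem_filter]
      exact ⟨mem_univ _, hz, hc⟩
    rw [hcard] at hmem
    exact absurd hmem (Finset.notMem_empty _)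
  · exact absurd g nL
  · exact absurd g nR

/-- the covers of `z` are the cells of the mask `m` -/
def Mk (e : ℕ → ℕ → P) (z : P) (m : ℕ) : Prop :=
  lev z = 13 ∧ ∀ y, z ⋖ y ↔ ∃ b < 24, m.testBit b = true ∧ c6 e b = y

/-- **The elements of level 13 below the strip only.** -/
theorem La6_msk (D : WordD 12 6 wa6 lo hi) (C : Cp.Comp 12 (t : P) lo hi e)
    (h : Win.GoodTo P r 12) {z : P} (hz : lev z = 13) (hzt : ∀ y, z ⋖ y → y ≤ (t : P)) :
    ∃ m ∈ msk, Mk e z m := by
  classical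
  have hC := La6_cod D C h
  have hlev : ∀ y, z ⋖ y → lev y = 12 := by
    intro y hy
    have := (h.H.covBy_iff.mp hy).2
    omega
  have hcell : ∀ y, z ⋖ y → ∃ a < 24, 20 ≤ a ∧ c6 e a = y := by
    intro y hy
    obtain ⟨a, ha, rfl⟩ := (La6_low D C y).mp (mem_lowPart.mpr ⟨hzt y hy, (hlev y hy).le⟩)
    refine ⟨a, ha, L6_lv12 a ha ?_, rfl⟩
    rw [← c6_lev D C h ha]
    exact hlev _ hy
  rcases Win.uc_card_cases h.H (x := z) (by omega) with h1 | h1
  · obtain ⟨y, hy⟩ := Finset.card_eq_one.mp h1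
    have hzy : ∀ y', z ⋖ y' ↔ y' = y := by
      intro y'
      rw [← Win.mem_uc, hy, mem_singleton]
    obtain ⟨a, ha, ha20, rfl⟩ := hcell y ((hzy y).mpr rfl)
    have ha2 : a = 20 ∨ a = 23 := by
      by_contra hcon
      push Not at hcon
      exact La6_pen D C h (a := a) (by omega) ((hzy _).mpr rfl) h1
    refine ⟨2 ^ a, by rcases ha2 with rfl | rfl <;> decide +kernel, hz, fun y' => ?_⟩
    rw [hzy]
    constructor
    · rintro rfl
      exact ⟨a, ha, Nat.testBit_two_pow_self, rfl⟩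
    · rintro ⟨b, hb, hbit, rfl⟩
      by_cases hab : a = b
      · rw [hab]
      · rw [Nat.testBit_two_pow_of_ne hab] at hbit
        exact absurd hbit (by simp)
  · obtain ⟨y, y', hne, hy⟩ := Finset.card_eq_two.mp h1
    have hzy : ∀ w, z ⋖ w ↔ w = y ∨ w = y' := by
      intro w
      rw [← Win.mem_uc, hy, mem_insert, mem_singleton]
    have c1 := (hzy y).mpr (Or.inl rfl)
    have c2 := (hzy y').mpr (Or.inr rfl)
    obtain ⟨a, ha, ha25, rfl⟩ := hcell y c1
    obtain ⟨b, hb, hb25, rfl⟩ := hcell y' c2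
    have hab : a ≠ b := fun h => hne (by rw [h])
    have hadj : b = a + 1 ∨ a = b + 1 ∨ (a = 20 ∧ b = 23) ∨ (a = 23 ∧ b = 20) := by
      rcases (Win.near_level' (i := 11) h (by norm_num)).1 z _ _ hz c1 c2 hne with
        h2 | ⟨h2, h3, -⟩
      · have h4 : 0 < ucv (c6 e a) (c6 e b) := by omega
        unfold ucv at h4
        obtain ⟨u, hu⟩ := Finset.card_pos.mp h4
        rw [mem_filter] at hu
        obtain ⟨k, hk, hk1, hk2⟩ := (hC.cov a ha u).mp hu.2.1
        obtain ⟨k', hk', hk3, hk4⟩ := (hC.cov b hb u).mp hu.2.2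
        have hkk : k' = k := hC.inj k' hk' k hk (hk4.trans hk2.symm)
        rw [hkk] at hk3
        rcases L6_adj a ha b hb ha25 hb25 hab ⟨k, hk, hk1, hk3⟩ with h5 | h5
        · exact Or.inl h5
        · exact Or.inr (Or.inl h5)
      · have key : ∀ d < 24, 20 ≤ d → (Win.uc (c6 e d)).card = 1 → d = 20 ∨ d = 23 := by
          intro d hd hd25 h4
          by_contra hcon
          push Not at hcon
          obtain ⟨k, hk, k', hk', hkk, b1, b2⟩ := L6_two d hd hd25 hcon.1 hcon.2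
          obtain ⟨w, hw⟩ := Finset.card_eq_one.mp h4
          have e1 : c6 e k ∈ Win.uc (c6 e d) := Win.mem_uc.mpr ((hC.cov d hd _).mpr
            ⟨k, hk, b1, rfl⟩)
          have e2 : c6 e k' ∈ Win.uc (c6 e d) := Win.mem_uc.mpr ((hC.cov d hd _).mpr
            ⟨k', hk', b2, rfl⟩)
          rw [hw, mem_singleton] at e1 e2
          exact hkk (hC.inj k hk k' hk' (e1.trans e2.symm))
        rcases key a ha ha25 h2 with h5 | h5 <;> rcases key b hb hb25 h3 with h6 | h6
        · omega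
        · exact Or.inr (Or.inr (Or.inl ⟨h5, h6⟩))
        · exact Or.inr (Or.inr (Or.inr ⟨h5, h6⟩))
        · omega
    refine ⟨Nat.lor (2 ^ a) (2 ^ b), msk_two a ha b hb ha25 hb25 hab hadj, hz, fun w => ?_⟩
    rw [hzy]
    have hbit : ∀ k, (Nat.lor (2 ^ a) (2 ^ b)).testBit k = true ↔ k = a ∨ k = b := by
      intro k
      have h5 : (Nat.lor (2 ^ a) (2 ^ b)).testBit k = ((2 ^ a).testBit k || (2 ^ b).testBit k) :=
        Nat.testBit_or _ _ _
      rw [h5, Bool.or_eq_true]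
      constructor
      · rintro (h | h)
        · left
          by_contra hne'
          rw [Nat.testBit_two_pow_of_ne (Ne.symm hne')] at h
          exact absurd h (by simp)
        · right
          by_contra hne'
          rw [Nat.testBit_two_pow_of_ne (Ne.symm hne')] at h
          exact absurd h (by simp)
      · rintro (rfl | rfl)
        · exact Or.inl Nat.testBit_two_pow_self
        · exact Or.inr Nat.testBit_two_pow_self
    constructor
    · rintro (rfl | rfl)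
      · exact ⟨a, ha, (hbit a).mpr (Or.inl rfl), rfl⟩
      · exact ⟨b, hb, (hbit b).mpr (Or.inr rfl), rfl⟩
    · rintro ⟨k, hk, hk2, rfl⟩
      rcases (hbit k).mp hk2 with rfl | rfl
      · exact Or.inl rfl
      · exact Or.inr rfl

/-- the cost of an element of level 13 -/
lemma La6_ct (D : WordD 12 6 wa6 lo hi) (C : Cp.Comp 12 (t : P) lo hi e)
    (h : Win.GoodTo P r 12) {z : P} {m : ℕ} (hm : Mk e z m) (k : ℕ) :
    ct 6 k z = min k 7 + ∑ b ∈ (range 24).filter
      (fun b => (orM (fun a => L6um.getD a 0) 24 m).testBit b = true),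
        min k (L6lv.getD b 0 - 6) := by
  rw [cod_ct (La6_cod D C h) L6_cv L6_um hm.2, hm.1]

lemma Mk.cov {z : P} {m b : ℕ} (h : Mk e z m) (hb : b < 24) (hbit : m.testBit b = true) :
    z ⋖ c6 e b := (h.2 _).mpr ⟨b, hb, hbit, rfl⟩

lemma Mk.ncov (D : WordD 12 6 wa6 lo hi) (C : Cp.Comp 12 (t : P) lo hi e)
    (hgt : Win.GoodTo P r 12) {z : P} {m b : ℕ} (h : Mk e z m) (hb : b < 24)
    (hbit : m.testBit b = false) : ¬ z ⋖ c6 e b := by
  intro hz
  obtain ⟨k, hk, h1, h2⟩ := (h.2 _).mp hz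
  rw [(La6_cod D C hgt).inj k hk b hb h2] at h1
  rw [h1] at hbit
  exact absurd hbit (by simp)

lemma Mk.ne (D : WordD 12 6 wa6 lo hi) (C : Cp.Comp 12 (t : P) lo hi e)
    (hgt : Win.GoodTo P r 12) {z z' : P} {m m' b : ℕ} (h : Mk e z m) (h' : Mk e z' m')
    (hb : b < 24) (h1 : m.testBit b = true) (h2 : m'.testBit b = false) : z ≠ z' := by
  rintro rfl
  exact h'.ncov D C hgt hb h2 (h.cov hb h1)

/-- the cost of the label one, two, three -/
lemma msk_cost2 : ∀ m ∈ msk, m.testBit 23 = false → (m = 1048576 ∨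
    26 ≤ min 2 7 + ∑ b ∈ (range 24).filter
      (fun b => (orM (fun a => L6um.getD a 0) 24 m).testBit b = true),
        min 2 (L6lv.getD b 0 - 6)) := by decide +kernel

/-- the elements with additional covers -/
theorem La6_ext (D : WordD 12 6 wa6 lo hi) (C : Cp.Comp 12 (t : P) lo hi e)
    (h : Win.GoodTo P r 12) {K : ℕ} {z : ℕ → P} {cx : ℕ → ℕ} {cvL lvL : List ℕ}
    (h1 : ∀ a < 24, cvL.getD a 0 = L6cv.getD a 0) (h2 : ∀ a < 24, lvL.getD a 0 = L6lv.getD a 0)
    (h3 : ∀ k < K, cvL.getD (24 + k) 0 = cx k) (h4 : ∀ k < K, lvL.getD (24 + k) 0 = 13)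
    (hx : ∀ k < K, cx k < 2 ^ 24) (hinj : ∀ a < K, ∀ b < K, z a = z b → a = b)
    (hz : ∀ k < K, Mk e (z k) (cx k)) :
    Cod (24 + K) (fun a => cvL.getD a 0) (fun a => lvL.getD a 0) (czg 24 (c6 e) z) := by
  refine cod_append (La6_cod D C h) L6_cv24 hx h1 h2 h3 h4 hinj ?_ (fun k hk => (hz k hk).2)
    (fun k hk => (hz k hk).1)
  intro a ha b hb hh
  have h5 := c6_lev D C h ha
  rw [hh, (hz b hb).1] at h5
  have := L6_lvle a ha
  omega

end Pool.Agent.GaussPoset.W6

end

/-! From `Pool.Agent.W_448w6_h53.WdE` -/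

section

/-!
The strip `La6` with elements of level 13: patterns up to the energy 23
(MP_448cb3_co, `j = 12`).
-/

namespace Pool.Agent.GaussPoset.W6

set_option linter.unusedSectionVars false
set_option synthInstance.maxSize 1000

open Polynomial Finset Dd Wd Cl Sg

universe u

variable {P : Type u} [Fintype P] [PartialOrder P] [DecidableEq P] {r : ℕ}
variable {t : Tops P} {lo hi : ℕ → ℕ} {e : ℕ → ℕ → P}

/-- the value of the component from the value of the natural set -/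
lemma pt_of {n0 b : ℕ} {ρ : ℤ} {Y : Finset P}
    (h : ∀ f : Polynomial (PowerSeries ℤ),
      (∀ n, exq n f = Z {y : P // y ∈ lowPart 12 (t : P) ∪ Y} 6 n) → Pl n0 b ρ f) :
    PT n0 t b ρ Y := by
  intro N HN _ hN
  right
  intro f hf
  refine h f fun n => ?_
  rw [hf n]
  have hiso : {x : P // x ∈ N t} ≃o {x : {x : P // x ∉ unnat N} // topOf (x : P) = t} :=
    { toFun := fun x => ⟨⟨x, (HN.mem_iff.mp x.2).1⟩, HN.topOf_eq x.2⟩
      invFun := fun x => ⟨x.1.1, HN.mem_iff.mpr ⟨x.1.2, x.2⟩⟩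
      left_inv := fun x => rfl
      right_inv := fun x => rfl
      map_rel_iff' := Iff.rfl }
  rw [← Z_iso hiso, hN]

/-- a code of an extended strip -/
structure Cd (t : Tops P) (e : ℕ → ℕ → P) (cvL lvL : List ℕ) (K : ℕ) (c : ℕ → P)
    (S : Finset P) : Prop where
  cod : Cod (24 + K) (fun a => cvL.getD a 0) (fun a => lvL.getD a 0) c
  cell : ∀ a < 24, c a = c6 e a
  mem : ∀ x, x ∈ S ↔ ∃ a < 24 + K, c a = x

/-- the code of the strip with elements of level 13 -/
theorem cd13 (D : WordD 12 6 wa6 lo hi) (C : Cp.Comp 12 (t : P) lo hi e)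
    (h : Win.GoodTo P r 12) {K : ℕ} {z : ℕ → P} {cx : ℕ → ℕ} {cvL lvL : List ℕ}
    (h1 : ∀ a < 24, cvL.getD a 0 = L6cv.getD a 0) (h2 : ∀ a < 24, lvL.getD a 0 = L6lv.getD a 0)
    (h3 : ∀ k < K, cvL.getD (24 + k) 0 = cx k) (h4 : ∀ k < K, lvL.getD (24 + k) 0 = 13)
    (hx : ∀ k < K, cx k < 2 ^ 24) (hinj : ∀ a < K, ∀ b < K, z a = z b → a = b)
    (hz : ∀ k < K, Mk e (z k) (cx k)) {A : Finset P} (hA : ∀ x, x ∈ A ↔ ∃ k < K, z k = x) :
    Cd t e cvL lvL K (czg 24 (c6 e) z) (lowPart 12 (t : P) ∪ A) :=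
  ⟨La6_ext D C h h1 h2 h3 h4 hx hinj hz, fun _ ha => czg_lt ha, czg_mem (La6_low D C) hA⟩

section Cd

variable {cvL lvL : List ℕ} {K : ℕ} {c : ℕ → P} {S : Finset P}

/-- local data from a certificate -/
theorem Cd.loc (W : Cd t e cvL lvL K c S) {N Kc n1 : ℕ} {Us umL thL : List ℕ}
    {L PL : List (ℕ × ℕ × ℕ × ℕ × ℕ)}
    (hus : UsOK N (fun a => cvL.getD a 0) Us) (hpol : polC N (2 ^ 100) Kc Us 6 PL = true)
    (hlow : lowC N Kc 6 n1 (fun a => lvL.getD a 0) Us 8989439 L = true)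
    (hsub : ∀ x ∈ L, x ∈ PL)
    (hth : thChk N 6 23 (fun a => lvL.getD a 0) (fun a => cvL.getD a 0)
      (fun a => umL.getD a 0) (fun a => thL.getD a 0) = true)
    (hbm : bmC N 6 23 8989439 (fun a => lvL.getD a 0) (fun a => umL.getD a 0) = true)
    (hN : 24 + K ≤ N) :
    LocL 6 2 (n1 + 1) S (thI (24 + K) c (fun a => thL.getD a 0)) (fun x => x = c6 e 23) := by
  have hl := cod_locL' W.cod hus hN hth (by omega) W.mem hpol hlow hsub hbm
    (lt_of_lt_of_le (by norm_num) (Nat.pow_le_pow_right (by norm_num)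
      (show 24 ≤ 24 + K by omega)))
  rw [W.cell 23 (by norm_num)] at hl
  exact hl

lemma Cd.th (W : Cd t e cvL lvL K c S) (thL : List ℕ) {a : ℕ} (ha : a < 24) :
    thI (24 + K) c (fun a => thL.getD a 0) (c6 e a) = thL.getD a 0 := by
  have h1 := thI_c W.cod (fun a => thL.getD a 0) (a := a) (by omega)
  rwa [W.cell a ha] at h1

/-- the value of the complete set -/
theorem Cd.val (W : Cd t e cvL lvL K c S) {N Kc n0 : ℕ} {Us : List ℕ}
    {PL F : List (ℕ × ℕ × ℕ × ℕ × ℕ)}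
    (hus : UsOK N (fun a => cvL.getD a 0) Us) (hpol : polC N (2 ^ 100) Kc Us 6 PL = true)
    (hsub : ∀ x ∈ F, x ∈ PL)
    (hnum : ∀ x ∈ F, numC N Kc 6 n0 (fun a => lvL.getD a 0) x = true)
    (hmem : ∀ x ∈ F, x.1 ∈ Us) (hN : 24 + K ≤ N) {x : ℕ × ℕ × ℕ × ℕ × ℕ} (hxF : x ∈ F)
    (hxJ : x.1 = 2 ^ (24 + K) - 1) (hs : sgn x.2.1 x.2.2.1 6 = 1)
    (h7 : ((range (24 + K)).filter (fun a => lvL.getD a 0 < 6)).card = 6)
    (h8 : ((range (24 + K)).filter (fun a => lvL.getD a 0 = 6)).card = 2)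
    {f : Polynomial (PowerSeries ℤ)} (hf : ∀ n, exq n f = Z {y : P // y ∈ S} 6 n) :
    Pl n0 2 (x.2.2.2.2 : ℤ) f := by
  obtain ⟨g1, g2⟩ := toS_full hxJ W.mem
  have h10 := cod_val W.cod hus hN hpol (hsub x hxF) (hmem x hxF) g2 (hnum x hxF)
  rw [g1, hs, one_mul] at h10
  obtain ⟨k1, k2⟩ := cod_low6 W.cod W.mem h7 h8
  exact pl_of_val h10 k1 k2 hf

/-- the negative value of the complete set -/
theorem Cd.valN (W : Cd t e cvL lvL K c S) {N Kc n0 : ℕ} {Us : List ℕ}
    {F : List (ℕ × ℕ × ℕ × ℕ × ℕ)}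
    (hus : UsOK N (fun a => cvL.getD a 0) Us) (hpol : polN N (2 ^ 100) Kc Us 6 F = true)
    (hnum : ∀ x ∈ F, numC N Kc 6 n0 (fun a => lvL.getD a 0) x = true)
    (hmem : ∀ x ∈ F, x.1 ∈ Us) (hN : 24 + K ≤ N) {x : ℕ × ℕ × ℕ × ℕ × ℕ} (hxF : x ∈ F)
    (hxJ : x.1 = 2 ^ (24 + K) - 1) (hs : sgn x.2.1 x.2.2.1 6 = 1)
    (h7 : ((range (24 + K)).filter (fun a => lvL.getD a 0 < 6)).card = 6)
    (h8 : ((range (24 + K)).filter (fun a => lvL.getD a 0 = 6)).card = 2)
    {f : Polynomial (PowerSeries ℤ)} (hf : ∀ n, exq n f = Z {y : P // y ∈ S} 6 n) :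
    Pl n0 2 (-(x.2.2.2.2 : ℤ)) f := by
  obtain ⟨g1, g2⟩ := toS_full hxJ W.mem
  have h10 := cod_valN W.cod hus hN hpol hxF (hmem x hxF) g2 (hnum x hxF)
  rw [g1, hs, one_mul] at h10
  obtain ⟨k1, k2⟩ := cod_low6 W.cod W.mem h7 h8
  exact pl_of_val h10 k1 k2 hf

/-- no value at the energy `n0` -/
theorem Cd.zero (W : Cd t e cvL lvL K c S) {n0 n1 : ℕ} {θ : P → ℕ} {B : P → Prop}
    (hl : LocL 6 2 n1 S θ B) (hn : n0 < n1)
    (h7 : ((range (24 + K)).filter (fun a => lvL.getD a 0 < 6)).card = 6)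
    (h8 : ((range (24 + K)).filter (fun a => lvL.getD a 0 = 6)).card = 2)
    {f : Polynomial (PowerSeries ℤ)} (hf : ∀ n, exq n f = Z {y : P // y ∈ S} 6 n) :
    Pl n0 2 0 f := by
  have hup : ∀ x ∈ S, ∀ y, x ≤ y → y ∈ S := by
    intro x hx y hxy
    rw [W.mem] at hx ⊢
    obtain ⟨a, ha, rfl⟩ := hx
    exact cod_above W.cod ha hxy
  have hcl := hl.clean S (Finset.Subset.refl _) hup (fun x hx _ => hx) (fun x hx _ => hx)
  obtain ⟨k1, k2⟩ := cod_low6 W.cod W.mem h7 h8
  have h0 : exq 0 f = X ^ 6 * (1 + X) ^ 2 := by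
    rw [hf, Z_zero, k1, k2]
  refine ⟨fun m hm => ?_, by norm_num, X ^ 6, 0, by rw [h0, mul_comm], ?_, ?_, ?_⟩
  · rw [hf]
    exact hcl m (by omega)
  · rw [eval_pow, eval_X]
    norm_num
  · rw [mul_zero, sub_zero, hf]
    exact hcl n0 hn
  · rw [eval_zero, zero_mul]

end Cd

/-- what is used about an extended strip: local data, the value at the energy 23, the thresholds
of the cells and of the other elements -/
structure Ext (t : Tops P) (e : ℕ → ℕ → P) (A : Finset P) (θ : P → ℕ) (ρ : ℤ) : Prop where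
  loc : LocL 6 2 23 (lowPart 12 (t : P) ∪ A) θ (fun x => x = c6 e 23)
  pl : ∀ f : Polynomial (PowerSeries ℤ),
    (∀ n, exq n f = Z {y : P // y ∈ lowPart 12 (t : P) ∪ A} 6 n) → Pl 23 2 ρ f
  zero : θ (c6 e 23) = 0
  one : ∀ a < 23, 20 ≤ a → 1 ≤ θ (c6 e a)
  ex : ∀ x ∈ A, ∃ m ∈ [12582912, 9437184, 1048576], Mk e x m ∧ 1 ≤ θ x ∧
    (m = 1048576 → 2 ≤ θ x)

section Pats

variable (D : WordD 12 6 wa6 lo hi) (C : Cp.Comp 12 (t : P) lo hi e) (h : Win.GoodTo P r 12)

include D C h in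
/-- elements below the first two cells only -/
theorem pat_a {K : ℕ} (hK : K ≤ 2) {z : ℕ → P} (hinj : ∀ a < K, ∀ b < K, z a = z b → a = b)
    (hz : ∀ k < K, Mk e (z k) 12582912) {A : Finset P} (hA : ∀ x, x ∈ A ↔ ∃ k < K, z k = x) :
    ∃ θ : P → ℕ, Ext t e A θ 0 ∧ 2 ≤ θ (c6 e 20) := by
  have g3 : ∀ k < 2, Qacv.getD (24 + k) 0 = 12582912 := by decide +kernel
  have g4 : ∀ k < 2, Qalv.getD (24 + k) 0 = 13 := by decide +kernel
  have W := cd13 D C h (K := K) (z := z) (cx := fun _ => 12582912) (cvL := Qacv)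
    (lvL := Qalv) (by decide +kernel) (by decide +kernel) (fun k hk => g3 k (by omega))
    (fun k hk => g4 k (by omega)) (fun _ _ => by norm_num) hinj hz hA
  have hl := W.loc Qa_us Qa_pol Qa_low (fun x hx => hx) Qa_th Qa_bm (by omega)
  have hth' : ∀ k < K, thI (24 + K) (czg 24 (c6 e) z) (fun a => Qath.getD a 0) (z k) =
      Qath.getD (24 + k) 0 := by
    intro k hk
    have h1 := thI_c W.cod (fun a => Qath.getD a 0) (a := 24 + k) (by omega)
    rwa [czg_add] at h1
  have h7 : ∀ K < 3, ((range (24 + K)).filter (fun a => Qalv.getD a 0 < 6)).card = 6 ∧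
      ((range (24 + K)).filter (fun a => Qalv.getD a 0 = 6)).card = 2 := by decide +kernel
  refine ⟨_, ⟨⟨fun U h1 h2 h3 h4 n hn => hl.clean U h1 h2 h3 h4 n (by omega), hl.lev, hl.base,
    hl.step, hl.le⟩, ?_, ?_, ?_, ?_⟩, ?_⟩
  · intro f hf
    exact W.zero hl (by norm_num) (h7 K (by omega)).1 (h7 K (by omega)).2 hf
  · rw [W.th Qath (by norm_num)]
    decide +kernel
  · intro a h1 h2
    rw [W.th Qath (by omega)]
    have h3 : ∀ a < 23, 20 ≤ a → 1 ≤ Qath.getD a 0 := by decide +kernel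
    exact h3 a h1 h2
  · intro x hx
    obtain ⟨k, hk, rfl⟩ := (hA x).mp hx
    refine ⟨12582912, by decide, hz k hk, ?_, fun h => absurd h (by norm_num)⟩
    rw [hth' k hk]
    have h3 : ∀ k < 2, 1 ≤ Qath.getD (24 + k) 0 := by decide +kernel
    exact h3 k (by omega)
  · rw [W.th Qath (by norm_num)]
    decide +kernel

include D C h in
/-- a pattern from a certificate -/
theorem pat_g {N Kc : ℕ} {Us cvL lvL umL thL : List ℕ} {L F : List (ℕ × ℕ × ℕ × ℕ × ℕ)}
    (hus : UsOK N (fun a => cvL.getD a 0) Us) (hpol : polC N (2 ^ 100) Kc Us 6 (L ++ F) = true)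
    (hlow : lowC N Kc 6 22 (fun a => lvL.getD a 0) Us 8989439 L = true)
    (hth : thChk N 6 23 (fun a => lvL.getD a 0) (fun a => cvL.getD a 0)
      (fun a => umL.getD a 0) (fun a => thL.getD a 0) = true)
    (hbm : bmC N 6 23 8989439 (fun a => lvL.getD a 0) (fun a => umL.getD a 0) = true)
    (hnum : ∀ x ∈ F, numC N Kc 6 23 (fun a => lvL.getD a 0) x = true)
    (hmem : ∀ x ∈ F, x.1 ∈ Us)
    (h1 : ∀ a < 24, cvL.getD a 0 = L6cv.getD a 0) (h2 : ∀ a < 24, lvL.getD a 0 = L6lv.getD a 0)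
    {K : ℕ} (hN : 24 + K ≤ N) {zf : ℕ → P} {cf : ℕ → ℕ}
    (h3 : ∀ k < K, cvL.getD (24 + k) 0 = cf k) (h4 : ∀ k < K, lvL.getD (24 + k) 0 = 13)
    (hx : ∀ k < K, cf k ∈ [12582912, 9437184, 1048576])
    (hinj : ∀ a < K, ∀ b < K, zf a = zf b → a = b)
    (hz : ∀ k < K, Mk e (zf k) (cf k)) {A : Finset P} (hA : ∀ x, x ∈ A ↔ ∃ k < K, zf k = x)
    (hthr : (∀ a < 23, 20 ≤ a → 1 ≤ thL.getD a 0) ∧ thL.getD 23 0 = 0 ∧
      ∀ k < K, 1 ≤ thL.getD (24 + k) 0 ∧ (cf k = 1048576 → 2 ≤ thL.getD (24 + k) 0))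
    {x : ℕ × ℕ × ℕ × ℕ × ℕ} (hxF : x ∈ F) (hxJ : x.1 = 2 ^ (24 + K) - 1)
    (hs : sgn x.2.1 x.2.2.1 6 = 1)
    (h7 : ((range (24 + K)).filter (fun a => lvL.getD a 0 < 6)).card = 6)
    (h8 : ((range (24 + K)).filter (fun a => lvL.getD a 0 = 6)).card = 2) :
    ∃ θ : P → ℕ, Ext t e A θ (x.2.2.2.2 : ℤ) := by
  have hx' : ∀ k < K, cf k < 2 ^ 24 := by
    intro k hk
    have h : ∀ m ∈ [12582912, 9437184, 1048576], m < 2 ^ 24 := by decide
    exact h _ (hx k hk)
  have W := cd13 D C h (K := K) (z := zf) (cx := cf) (cvL := cvL)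
    (lvL := lvL) h1 h2 h3 h4 hx' hinj hz hA
  have hl := W.loc hus hpol hlow (fun x hx => List.mem_append_left _ hx) hth hbm hN
  have hth' : ∀ k < K, thI (24 + K) (czg 24 (c6 e) zf) (fun a => thL.getD a 0) (zf k) =
      thL.getD (24 + k) 0 := by
    intro k hk
    have h1 := thI_c W.cod (fun a => thL.getD a 0) (a := 24 + k) (by omega)
    rwa [czg_add] at h1
  refine ⟨_, ⟨hl, ?_, ?_, ?_, ?_⟩⟩
  · intro f hf
    exact W.val hus hpol (fun x hx => List.mem_append_right _ hx) hnum hmem hN hxF hxJ hs h7 h8 hf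
  · rw [W.th thL (by norm_num)]
    exact hthr.2.1
  · intro a h1 h2
    rw [W.th thL (by omega)]
    exact hthr.1 a h1 h2
  · intro y hy
    obtain ⟨k, hk, rfl⟩ := (hA y).mp hy
    refine ⟨cf k, hx k hk, hz k hk, ?_, ?_⟩
    · rw [hth' k hk]
      exact (hthr.2.2 k hk).1
    · rw [hth' k hk]
      exact (hthr.2.2 k hk).2

include D C h in
/-- one element below the ends -/
theorem pat_b {z0 : P} (h0 : Mk e z0 9437184) {A : Finset P} (hA : ∀ x, x ∈ A ↔ x = z0) :
    ∃ θ : P → ℕ, Ext t e A θ 1 := by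
  obtain ⟨θ, hh⟩ := pat_g D C h Qb_us Qb_pol Qb_low Qb_th Qb_bm Qb_num Qb_mem
    (by decide +kernel) (by decide +kernel) (K := 1) (by norm_num)
    (zf := fun _ => z0)
    (cf := fun _ => 9437184) (by decide +kernel) (by decide +kernel) (by decide +kernel)
    (fun a ha b hb _ => by omega) (fun _ _ => h0) (A := A)
    (fun x => by rw [hA]; exact ⟨fun h => ⟨0, by norm_num, h.symm⟩, fun ⟨_, _, h⟩ => h.symm⟩)
    (by decide +kernel) (x := (33554431, 14, 11, 155, 1)) (by decide +kernel) (by norm_num)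
    (by decide +kernel) (by decide +kernel) (by decide +kernel)
  exact ⟨θ, hh⟩

include D C h in
/-- one element below the ends, one below the first two cells -/
theorem pat_c {z0 z1 : P} (h0 : Mk e z0 9437184) (h1 : Mk e z1 12582912) (hne : z0 ≠ z1)
    {A : Finset P} (hA : ∀ x, x ∈ A ↔ x = z0 ∨ x = z1) :
    ∃ θ : P → ℕ, Ext t e A θ 1 := by
  obtain ⟨θ, hh⟩ := pat_g D C h Qb_us Qb_pol Qb_low Qb_th Qb_bm Qb_num Qb_mem
    (by decide +kernel) (by decide +kernel) (K := 2) (by norm_num)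
    (zf := two z0 z1)
    (cf := fun k => if k = 0 then 9437184 else 12582912) (by decide +kernel)
    (by decide +kernel) (by decide +kernel)
    (two_inj hne) (two_all (p := fun (x : P) m => Mk e x m) h0 h1) (A := A)
    (fun x => by rw [hA]; exact Sg.two_mem (P := P))
    (by decide +kernel) (x := (67108863, 14, 12, 173, 1)) (by decide +kernel) (by norm_num)
    (by decide +kernel) (by decide +kernel) (by decide +kernel)
  exact ⟨θ, hh⟩

include D C h in
/-- one element below the ends, one pendant -/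
theorem pat_d {z0 z1 : P} (h0 : Mk e z0 9437184) (h1 : Mk e z1 1048576) (hne : z0 ≠ z1)
    {A : Finset P} (hA : ∀ x, x ∈ A ↔ x = z0 ∨ x = z1) :
    ∃ θ : P → ℕ, Ext t e A θ 1 := by
  obtain ⟨θ, hh⟩ := pat_g D C h Qc_us Qc_pol Qc_low Qc_th Qc_bm Qc_num Qc_mem
    (by decide +kernel) (by decide +kernel) (K := 2) (by norm_num)
    (zf := two z0 z1)
    (cf := fun k => if k = 0 then 9437184 else 1048576) (by decide +kernel)
    (by decide +kernel) (by decide +kernel)
    (two_inj hne) (two_all (p := fun (x : P) m => Mk e x m) h0 h1) (A := A)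
    (fun x => by rw [hA]; exact Sg.two_mem (P := P))
    (by decide +kernel) (x := (67108863, 14, 12, 173, 1)) (by decide +kernel) (by norm_num)
    (by decide +kernel) (by decide +kernel) (by decide +kernel)
  exact ⟨θ, hh⟩

include D C h in
/-- two elements below the ends -/
theorem pat_f {z0 z1 : P} (h0 : Mk e z0 9437184) (h1 : Mk e z1 9437184) (hne : z0 ≠ z1)
    {A : Finset P} (hA : ∀ x, x ∈ A ↔ x = z0 ∨ x = z1) :
    ∃ θ : P → ℕ, Ext t e A θ 2 := by
  obtain ⟨θ, hh⟩ := pat_g D C h Qd_us Qd_pol Qd_low Qd_th Qd_bm Qd_num Qd_mem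
    (by decide +kernel) (by decide +kernel) (K := 2) (by norm_num)
    (zf := two z0 z1)
    (cf := fun k => if k = 0 then 9437184 else 9437184) (by decide +kernel)
    (by decide +kernel) (by decide +kernel)
    (two_inj hne) (two_all (p := fun (x : P) m => Mk e x m) h0 h1) (A := A)
    (fun x => by rw [hA]; exact Sg.two_mem (P := P))
    (by decide +kernel) (x := (67108863, 14, 12, 173, 2)) (by decide +kernel) (by norm_num)
    (by decide +kernel) (by decide +kernel) (by decide +kernel)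
  exact ⟨θ, hh⟩

include D C h in
/-- one element below the ends, one pendant, one below the first two cells -/
theorem pat_h {z0 z1 z2 : P} (h0 : Mk e z0 9437184) (h1 : Mk e z1 1048576)
    (h2 : Mk e z2 12582912) (h01 : z0 ≠ z1) (h02 : z0 ≠ z2) (h12 : z1 ≠ z2)
    {A : Finset P} (hA : ∀ x, x ∈ A ↔ x = z0 ∨ x = z1 ∨ x = z2) :
    ∃ θ : P → ℕ, Ext t e A θ 1 := by
  obtain ⟨θ, hh⟩ := pat_g D C h Qc_us Qc_pol Qc_low Qc_th Qc_bm Qc_num Qc_mem
    (by decide +kernel) (by decide +kernel) (K := 3) (by norm_num)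
    (zf := three z0 z1 z2)
    (cf := fun k => if k = 0 then 9437184 else if k = 1 then 1048576 else 12582912)
    (by decide +kernel) (by decide +kernel) (by decide +kernel)
    (by
      intro i hi j hj h1
      obtain rfl | rfl | rfl : i = 0 ∨ i = 1 ∨ i = 2 := by omega
      · obtain rfl | rfl | rfl : j = 0 ∨ j = 1 ∨ j = 2 := by omega
        · rfl
        · exact absurd h1 h01
        · exact absurd h1 h02
      · obtain rfl | rfl | rfl : j = 0 ∨ j = 1 ∨ j = 2 := by omega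
        · exact absurd h1.symm h01
        · rfl
        · exact absurd h1 h12
      · obtain rfl | rfl | rfl : j = 0 ∨ j = 1 ∨ j = 2 := by omega
        · exact absurd h1.symm h02
        · exact absurd h1.symm h12
        · rfl)
    (by
      intro k hk
      obtain rfl | rfl | rfl : k = 0 ∨ k = 1 ∨ k = 2 := by omega
      · exact h0
      · exact h1
      · exact h2) (A := A)
    (by
      intro x
      rw [hA]
      constructor
      · rintro (h | h | h)
        · exact ⟨0, by norm_num, h.symm⟩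
        · exact ⟨1, by norm_num, h.symm⟩
        · exact ⟨2, by norm_num, h.symm⟩
      · rintro ⟨k, hk, h⟩
        obtain rfl | rfl | rfl : k = 0 ∨ k = 1 ∨ k = 2 := by omega
        · exact Or.inl h.symm
        · exact Or.inr (Or.inl h.symm)
        · exact Or.inr (Or.inr h.symm))
    (by decide +kernel) (x := (134217727, 14, 13, 192, 1)) (by decide +kernel) (by norm_num)
    (by decide +kernel) (by decide +kernel) (by decide +kernel)
  exact ⟨θ, hh⟩

end Pats

end Pool.Agent.GaussPoset.W6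

end

/-! From `Pool.Agent.W_448w6_h53.WdF` -/

section

/-!
The strip `La6` at the window 6, level 12, up to the energy 23 (MP_448cb3_co, `j = 12`).
-/

namespace Pool.Agent.GaussPoset.W6

set_option linter.unusedSectionVars false
set_option synthInstance.maxSize 1000

open Polynomial Finset Dd Wd Cl Sg

universe u

variable {P : Type u} [Fintype P] [PartialOrder P] [DecidableEq P] {r : ℕ}
variable {t : Tops P} {lo hi : ℕ → ℕ} {e : ℕ → ℕ → P}

/-- what is used about a component `La6` up to the energy 23 -/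
structure LaA (t : Tops P) (e : ℕ → ℕ → P) (A : Finset P) (θ : P → ℕ) (ρ : ℤ) : Prop where
  ext : Ext t e A θ ρ
  nonneg : 0 ≤ ρ
  pos : (∃ z, Mk e z 9437184) → 0 < ρ
  m01 : ∀ z, Mk e z 12582912 → z ∈ A
  m03 : ∀ z, Mk e z 9437184 → z ∈ A
  m3 : ∀ z, Mk e z 1048576 → z ∈ A ∨ 2 ≤ θ (c6 e 20)

section

variable (D : WordD 12 6 wa6 lo hi) (C : Cp.Comp 12 (t : P) lo hi e) (h : Win.GoodTo P r 12)

include D C h in
/-- **The data of a component `La6`.** -/
theorem laA : ∃ (A : Finset P) (θ : P → ℕ) (ρ : ℤ), LaA t e A θ ρ := by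
  classical
  have H := h.H
  by_cases h04 : ∃ z0, Mk e z0 9437184
  · obtain ⟨z0, h0⟩ := h04
    have c0 := h0.cov (b := 23) (by norm_num) (by decide +kernel)
    have d0 := h0.cov (b := 20) (by norm_num) (by decide +kernel)
    -- from a pattern to the data
    have fin : ∀ (A : Finset P) (ρ : ℤ), 0 < ρ → (∀ z, z ∈ A ↔ Mk e z 9437184 ∨
        Mk e z 1048576 ∨ Mk e z 12582912) → (∃ θ : P → ℕ, Ext t e A θ ρ) →
        ∃ (A : Finset P) (θ : P → ℕ) (ρ : ℤ), LaA t e A θ ρ := by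
      rintro A ρ hρ hA ⟨θ, E⟩
      exact ⟨A, θ, ρ, E, hρ.le, fun _ => hρ, fun z hz => (hA z).mpr (Or.inr (Or.inr hz)),
        fun z hz => (hA z).mpr (Or.inl hz), fun z hz => Or.inl ((hA z).mpr (Or.inr (Or.inl hz)))⟩
    by_cases h04' : ∃ z1, Mk e z1 9437184 ∧ z0 ≠ z1
    · obtain ⟨z1, h1, hne⟩ := h04'
      have c1 := h1.cov (b := 23) (by norm_num) (by decide +kernel)
      have d1 := h1.cov (b := 20) (by norm_num) (by decide +kernel)
      refine fin {z0, z1} 2 (by norm_num) ?_ (pat_f D C h h0 h1 hne fun x => by simp)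
      intro z
      rw [mem_insert, mem_singleton]
      constructor
      · rintro (rfl | rfl)
        · exact Or.inl h0
        · exact Or.inl h1
      · intro h
        by_contra hcon
        push Not at hcon
        rcases h with h | h | h
        · exact Win.dc_three H c0 c1 (h.cov (b := 23) (by norm_num) (by decide +kernel)) hne
            (Ne.symm hcon.1) (Ne.symm hcon.2)
        · exact Win.dc_three H d0 d1 (h.cov (b := 20) (by norm_num) (by decide +kernel)) hne
            (Ne.symm hcon.1) (Ne.symm hcon.2)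
        · exact Win.dc_three H c0 c1 (h.cov (b := 23) (by norm_num) (by decide +kernel)) hne
            (Ne.symm hcon.1) (Ne.symm hcon.2)
    · have u0 : ∀ z, Mk e z 9437184 → z = z0 := by
        intro z h
        by_contra hne
        exact h04' ⟨z, h, Ne.symm hne⟩
      have hA4 : ∀ z z', Mk e z 1048576 → Mk e z' 1048576 → z = z' := by
        intro z z' h1 h1'
        by_contra hne
        exact Win.dc_three H d0 (h1.cov (b := 20) (by norm_num) (by decide +kernel))
          (h1'.cov (b := 20) (by norm_num) (by decide +kernel))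
          (h0.ne D C h h1 (b := 23) (by norm_num) (by decide +kernel) (by decide +kernel))
          (h0.ne D C h h1' (b := 23) (by norm_num) (by decide +kernel) (by decide +kernel)) hne
      have hA1 : ∀ z z', Mk e z 12582912 → Mk e z' 12582912 → z = z' := by
        intro z z' h1 h1'
        by_contra hne
        exact Win.dc_three H c0 (h1.cov (b := 23) (by norm_num) (by decide +kernel))
          (h1'.cov (b := 23) (by norm_num) (by decide +kernel))
          (h0.ne D C h h1 (b := 20) (by norm_num) (by decide +kernel) (by decide +kernel))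
          (h0.ne D C h h1' (b := 20) (by norm_num) (by decide +kernel) (by decide +kernel)) hne
      by_cases h4 : ∃ z1, Mk e z1 1048576
      · obtain ⟨z1, h4⟩ := h4
        have n01 : z0 ≠ z1 := h0.ne D C h h4 (b := 23) (by norm_num) (by decide +kernel)
          (by decide +kernel)
        by_cases h1 : ∃ z2, Mk e z2 12582912
        · obtain ⟨z2, h1⟩ := h1
          have n02 : z0 ≠ z2 := h0.ne D C h h1 (b := 20) (by norm_num) (by decide +kernel)
            (by decide +kernel)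
          have n12 : z1 ≠ z2 := h4.ne D C h h1 (b := 20) (by norm_num) (by decide +kernel)
            (by decide +kernel)
          refine fin {z0, z1, z2} 1 (by norm_num) ?_
            (pat_h D C h h0 h4 h1 n01 n02 n12 fun x => by simp)
          intro z
          rw [mem_insert, mem_insert, mem_singleton]
          constructor
          · rintro (rfl | rfl | rfl)
            · exact Or.inl h0
            · exact Or.inr (Or.inl h4)
            · exact Or.inr (Or.inr h1)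
          · rintro (h | h | h)
            · exact Or.inl (u0 z h)
            · exact Or.inr (Or.inl (hA4 z z1 h h4))
            · exact Or.inr (Or.inr (hA1 z z2 h h1))
        · refine fin {z0, z1} 1 (by norm_num) ?_ (pat_d D C h h0 h4 n01 fun x => by simp)
          intro z
          rw [mem_insert, mem_singleton]
          constructor
          · rintro (rfl | rfl)
            · exact Or.inl h0
            · exact Or.inr (Or.inl h4)
          · rintro (h | h | h)
            · exact Or.inl (u0 z h)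
            · exact Or.inr (hA4 z z1 h h4)
            · exact absurd ⟨z, h⟩ h1
      · by_cases h1 : ∃ z2, Mk e z2 12582912
        · obtain ⟨z2, h1⟩ := h1
          have n02 : z0 ≠ z2 := h0.ne D C h h1 (b := 20) (by norm_num) (by decide +kernel)
            (by decide +kernel)
          refine fin {z0, z2} 1 (by norm_num) ?_ (pat_c D C h h0 h1 n02 fun x => by simp)
          intro z
          rw [mem_insert, mem_singleton]
          constructor
          · rintro (rfl | rfl)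
            · exact Or.inl h0
            · exact Or.inr (Or.inr h1)
          · rintro (h | h | h)
            · exact Or.inl (u0 z h)
            · exact absurd ⟨z, h⟩ h4
            · exact Or.inr (hA1 z z2 h h1)
        · refine fin {z0} 1 (by norm_num) ?_ (pat_b D C h h0 fun x => by simp)
          intro z
          rw [mem_singleton]
          constructor
          · rintro rfl
            exact Or.inl h0
          · rintro (h | h | h)
            · exact u0 z h
            · exact absurd ⟨z, h⟩ h4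
            · exact absurd ⟨z, h⟩ h1
  · -- no element below the ends
    obtain ⟨A, hA⟩ : ∃ A : Finset P, ∀ z, z ∈ A ↔ Mk e z 12582912 :=
      ⟨univ.filter (fun z => Mk e z 12582912), fun z => by simp⟩
    have hc : A.card ≤ 2 := by
      refine (Finset.card_le_card (t := Win.dc (c6 e 23)) fun y hy => ?_).trans
        (Win.dc_card_le H _)
      rw [Win.mem_dc]
      exact ((hA y).mp hy).cov (by norm_num) (by decide +kernel)
    obtain ⟨z, hinj, hz⟩ := enum A (t : P)
    obtain ⟨θ, E, h20⟩ := pat_a D C h hc hinj (fun k hk => (hA _).mp ((hz _).mpr ⟨k, hk, rfl⟩)) hz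
    exact ⟨A, θ, 0, E, le_rfl, fun h1 => absurd h1 h04, fun z hz => (hA z).mpr hz,
      fun z hz => absurd ⟨z, hz⟩ h04, fun _ _ => Or.inr h20⟩

/-- the costs of the elements of level 14 -/
lemma costA_chk : ∀ m ∈ [12582912, 9437184, 1048576], 24 ≤
    min (if m = 1048576 then 3 else 2) 8 + (min (if m = 1048576 then 3 else 2) 7 +
      ∑ b ∈ (range 24).filter (fun b => (orM (fun a => L6um.getD a 0) 24 m).testBit b = true),
        min (if m = 1048576 then 3 else 2) (L6lv.getD b 0 - 6)) := by decide +kernel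

lemma msk_cost3 : 24 ≤ min 3 7 + ∑ b ∈ (range 24).filter
      (fun b => (orM (fun a => L6um.getD a 0) 24 1048576).testBit b = true),
        min 3 (L6lv.getD b 0 - 6) := by decide +kernel

include D C h in
lemma La6_b : hi 6 - lo 6 + 1 = 2 := by
  obtain ⟨r1, r2⟩ := D.rows C
  have e1 : losW 6 wa6 6 + 1 = hisW 6 wa6 6 := by decide +kernel
  rw [r1 6 (by norm_num), r2 6 (by norm_num)]
  omega

include D C h in
/-- the profile of the first cell -/
lemma La6_prof : Qp (c6 e 23) := by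
  have e1 : losW 6 wa6 12 ≤ 6 ∧ 6 ≤ hisW 6 wa6 12 := by decide +kernel
  have q : ∀ l ≤ 12, nab l (c6 e 23) = Hc.nbw 6 wa6 6 l := fun l hl =>
    Hc.nab_cell D C h.H h.good e1.1 e1.2 hl
  refine ⟨?_, ?_, ?_, ?_, ?_, ?_⟩
  · rw [q 6 (by norm_num)]; decide +kernel
  · rw [q 7 (by norm_num)]; decide +kernel
  · rw [q 8 (by norm_num)]; decide +kernel
  · rw [q 9 (by norm_num)]; decide +kernel
  · rw [q 10 (by norm_num)]; decide +kernel
  · rw [q 11 (by norm_num)]; decide +kernel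

include D C h in
/-- the costs of the elements of level 13 below the strip: first cell excluded -/
lemma La6_cost2 {z : P} {m : ℕ} (hm : m ∈ msk) (hz : Mk e z m) (hb : m.testBit 23 = false)
    (h3 : m ≠ 1048576) : 26 ≤ ct 6 2 z := by
  rcases msk_cost2 m hm hb with h5 | h5
  · exact absurd h5 h3
  · rw [La6_ct D C h hz]
    exact h5

include D C h in
/-- `La6` up to the energy 23 -/
theorem la6A_ts (q : Prop) : ∃ (Y : Finset P) (θ : P → ℕ) (B : P → Prop) (ρ : ℤ),
    TS 24 23 q t (hi 6 - lo 6 + 1) ρ Y θ B ∧ 0 ≤ ρ ∧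
    ((∃ z, z ⋖ e 12 6 ∧ z ⋖ e 12 3) → 0 < ρ) := by
  classical
  have H := h.H
  obtain ⟨A, θ, ρ, L⟩ := laA D C h
  have E := L.ext
  have hb := La6_b D C h
  have hmsk : ∀ m ∈ [12582912, 9437184, 1048576], m ∈ msk := by decide +kernel
  -- the elements of level 13
  have key : ∀ z x, lev z = 13 → (∀ y, z ⋖ y → y ≤ (t : P)) → z ∉ A → z ⋖ x →
      24 ≤ ct 6 (θ x + 1) z ∨ (Pend z x ∧ x = c6 e 23) := by
    intro z x hlz hzt hzA hzx
    obtain ⟨m, hm, hmk⟩ := La6_msk D C h hlz hzt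
    obtain ⟨b, hb1, hb2, rfl⟩ := (hmk.2 x).mp hzx
    by_cases h23 : m.testBit 23 = true
    · have h1 : ∀ m ∈ msk, m.testBit 23 = true → m = 8388608 ∨ m = 12582912 ∨ m = 9437184 := by
        decide +kernel
      rcases h1 m hm h23 with rfl | rfl | rfl
      · right
        have h2 : ∀ b < 24, Nat.testBit 8388608 b = true → b = 23 := by decide +kernel
        rw [h2 b hb1 hb2]
        refine ⟨⟨hmk.cov (by norm_num) (by decide +kernel), fun y hy => ?_⟩, rfl⟩
        obtain ⟨b', hb1', hb2', rfl⟩ := (hmk.2 y).mp hy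
        rw [h2 b' hb1' hb2']
      · exact absurd (L.m01 z hmk) hzA
      · exact absurd (L.m03 z hmk) hzA
    · left
      have h23' : m.testBit 23 = false := by simpa using h23
      have hb20 : 20 ≤ b := by
        refine L6_lv12 b hb1 ?_
        rw [← c6_lev D C h hb1]
        have := (H.covBy_iff.mp hzx).2
        omega
      have hb23 : b < 23 := by
        have : b ≠ 23 := by
          rintro rfl
          exact h23 hb2
        omega
      have h1 := E.one b hb23 hb20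
      by_cases h3 : m = 1048576
      · subst h3
        rcases L.m3 z hmk with h4 | h4
        · exact absurd h4 hzA
        · have h2 : ∀ b < 24, Nat.testBit 1048576 b = true → b = 20 := by decide +kernel
          rw [h2 b hb1 hb2]
          have h5 := msk_cost3
          rw [← La6_ct D C h hmk 3] at h5
          exact h5.trans (ct_mono le_rfl (by omega))
      · have h5 := La6_cost2 D C h hm hmk h23' h3
        exact (by norm_num : 24 ≤ 26).trans (h5.trans (ct_mono le_rfl (by omega)))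
  refine ⟨A, θ, fun x => x = c6 e 23, ρ, ⟨?_, ?_, ?_⟩, L.nonneg, ?_⟩
  · rw [hb]
    constructor
    · norm_num
    · intro y hy
      obtain ⟨m, hm, hmk, -⟩ := E.ex y hy
      have := hmk.1
      omega
    · intro y hy v hyv
      obtain ⟨m, hm, hmk, -⟩ := E.ex y hy
      rw [mem_union]
      exact Or.inl ((La6_low D C v).mpr (by
        obtain ⟨b, hb1, -, hb3⟩ := (hmk.2 v).mp hyv
        exact ⟨b, hb1, hb3⟩))
    · intro y hy z hzy _
      obtain ⟨m, hm, hmk, h1, h2⟩ := E.ex y hy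
      have h3 := costA_chk m hm
      have h4 := La6_ct D C h hmk (if m = 1048576 then 3 else 2)
      rw [← h4] at h3
      have hlz := (H.covBy_iff.mp hzy).2
      have h5 := ct_cov (i := 6) (k := if m = 1048576 then 3 else 2) hzy.1
      rw [hlz, hmk.1] at h5
      have h6 : ct 6 (if m = 1048576 then 3 else 2) z ≤ ct 6 (θ y + 1) z := by
        refine ct_mono le_rfl ?_
        split_ifs with h
        · have := h2 h
          omega
        · omega
      omega
    · intro x z hxt hl hzx honly hzA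
      have hlz := (H.covBy_iff.mp hzx).2
      rcases key z x (by omega) (fun y hy => by rw [honly y hy]; exact hxt) hzA hzx with h1 | h1
      · exact Or.inl h1
      · right
        rw [h1.2]
        exact ⟨E.zero, Or.inr (La6_prof D C h)⟩
    · intro x x' z hne hxt hxt' hl hl' hzx hzx' hzA _
      have hlz := (H.covBy_iff.mp hzx).2
      rcases key z x (by omega) (fun y hy => by
        rcases uc_pair H hzx hzx' hne hy with h1 | h1
        · rw [h1]; exact hxt
        · rw [h1]; exact hxt') hzA hzx with h1 | h1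
      · exact Or.inl h1
      · exact absurd (h1.1.2 x' hzx').symm hne
    · intro x hxt hl _
      have := nab_le_row h C hxt hl.le (l := 6) (by norm_num)
      refine ⟨fun h3 => by omega, fun h0 => ?_⟩
      right
      obtain ⟨a, ha, rfl⟩ := (La6_low D C x).mp (mem_lowPart.mpr ⟨hxt, hl.le⟩)
      have h20 := L6_lv12 a ha (by rw [← c6_lev D C h ha]; exact hl)
      by_cases h23 : a = 23
      · rw [h23]
        exact La6_prof D C h
      · have := E.one a (by omega) h20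
        omega
    · intro x hxt hl _ h0
      exact ct_two hl (by omega)
    · intro y hy x hp hl
      obtain ⟨m, hm, hmk, -⟩ := E.ex y hy
      obtain ⟨b, hb1, -, hb3⟩ := (hmk.2 x).mp hp.1
      have := nab_le_row h C (x := x) (by
        rw [← hb3]
        exact c6_le D C hb1) hl.le (l := 6) (by norm_num)
      omega
  · rw [hb]
    exact dt_loc E.loc
  · rw [hb]
    exact pt_of E.pl
  · rintro ⟨z, hz6, hz3⟩
    refine L.pos ⟨z, ?_⟩
    have hl6 : lev (e 12 6) = 12 := by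
      have h1 := c6_lev D C h (a := 23) (by norm_num)
      rw [L6_lv20 23 (by norm_num) (by norm_num)] at h1
      exact h1
    have hl3 : lev (e 12 3) = 12 := by
      have h1 := c6_lev D C h (a := 20) (by norm_num)
      rw [L6_lv20 20 (by norm_num) (by norm_num)] at h1
      exact h1
    have hlz := (H.covBy_iff.mp hz6).2
    have hne : c6 e 23 ≠ c6 e 20 := fun hh => by
      have := (La6_cod D C h).inj 23 (by norm_num) 20 (by norm_num) hh
      omega
    obtain ⟨m, hm, hmk⟩ := La6_msk D C h (z := z) (by omega) (fun y hy => by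
      rcases uc_pair H (x := c6 e 23) (x' := c6 e 20) hz6 hz3 hne hy with h1 | h1
      · rw [h1]; exact c6_le D C (by norm_num)
      · rw [h1]; exact c6_le D C (by norm_num))
    have h1 : ∀ m ∈ msk, m.testBit 23 = true → m.testBit 20 = true → m = 9437184 := by
      decide +kernel
    have b23 : m.testBit 23 = true := by
      by_contra hcon
      exact hmk.ncov D C h (b := 23) (by norm_num) (by simpa using hcon) hz6
    have b20 : m.testBit 20 = true := by
      by_contra hcon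
      exact hmk.ncov D C h (b := 20) (by norm_num) (by simpa using hcon) hz3
    rw [h1 m hm b23 b20] at hmk
    exact hmk

end

end Pool.Agent.GaussPoset.W6

end

/-! From `Pool.Agent.W_448w6_h53.WdG` -/

section

/-!
The strip `La6` at the window 6, level 12, up to the energy 27: elements of the levels 13 and 14
(MP_448cb3_co, `j = 12`).
-/

namespace Pool.Agent.GaussPoset.W6

set_option linter.unusedSectionVars false
set_option synthInstance.maxSize 1000

open Polynomial Finset Dd Wd Cl Sg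

universe u

variable {P : Type u} [Fintype P] [PartialOrder P] [DecidableEq P] {r : ℕ}
variable {t : Tops P} {lo hi : ℕ → ℕ} {e : ℕ → ℕ → P}

/-- the code of the strip with elements of level 14 -/
theorem cd14 {cvL lvL : List ℕ} {K1 K2 : ℕ} {c1 v : ℕ → P} {S1 V : Finset P}
    (W : Cd t e cvL lvL K1 c1 S1) {cx : ℕ → ℕ}
    (hn : ∀ a < 24 + K1, cvL.getD a 0 < 2 ^ (24 + K1))
    (hx : ∀ k < K2, cx k < 2 ^ (24 + K1))
    (h3 : ∀ k < K2, cvL.getD (24 + K1 + k) 0 = cx k)
    (h4 : ∀ k < K2, lvL.getD (24 + K1 + k) 0 = 14)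
    (hl : ∀ a < 24 + K1, lvL.getD a 0 ≤ 13)
    (hinj : ∀ a < K2, ∀ b < K2, v a = v b → a = b)
    (hcov : ∀ k < K2, ∀ y, v k ⋖ y ↔ ∃ b < 24 + K1, (cx k).testBit b = true ∧ c1 b = y)
    (hlev : ∀ k < K2, lev (v k) = 14) (hV : ∀ x, x ∈ V ↔ ∃ k < K2, v k = x) :
    Cd t e cvL lvL (K1 + K2) (czg (24 + K1) c1 v) (S1 ∪ V) := by
  have key : Cod (24 + K1 + K2) (fun a => cvL.getD a 0) (fun a => lvL.getD a 0)
      (czg (24 + K1) c1 v) := by
    refine cod_append W.cod hn hx (fun _ _ => rfl) (fun _ _ => rfl) h3 h4 hinj ?_ hcov hlev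
    intro a ha b hb hh
    have h5 := W.cod.lev a ha
    rw [hh, hlev b hb] at h5
    have := hl a ha
    omega
  refine ⟨?_, ?_, ?_⟩
  · rw [← Nat.add_assoc]
    exact key
  · intro a ha
    rw [czg_lt (by omega)]
    exact W.cell a ha
  · intro x
    rw [← Nat.add_assoc]
    exact czg_mem W.mem hV x

/-- the pendants below the elements of a set -/
noncomputable def PdV (A : Finset P) : Finset P := by
  classical exact univ.filter (fun v => ∃ z ∈ A, Pend v z)

lemma mem_PdV {A : Finset P} {v : P} : v ∈ PdV A ↔ ∃ z ∈ A, Pend v z := by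
  classical
  unfold PdV
  simp

/-- local data, value at the energy 27, thresholds -/
structure ExtC (t : Tops P) (e : ℕ → ℕ → P) (A : Finset P) (θ : P → ℕ) (ρ : ℤ) : Prop where
  loc : LocL 6 2 27 (lowPart 12 (t : P) ∪ (A ∪ PdV A)) θ (fun x => x = c6 e 23)
  pl : ∀ f : Polynomial (PowerSeries ℤ),
    (∀ n, exq n f = Z {y : P // y ∈ lowPart 12 (t : P) ∪ (A ∪ PdV A)} 6 n) → Pl 27 2 ρ f
  cell : ∀ a < 24, 20 ≤ a → θ (c6 e a) = 23 - a
  ex : ∀ x ∈ A ∪ PdV A, 1 ≤ θ x

/-- thresholds from a code -/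
lemma Cd.thr {cvL lvL : List ℕ} {K : ℕ} {c : ℕ → P} {S : Finset P}
    (W : Cd t e cvL lvL K c S) (thL : List ℕ)
    (h1 : ∀ a < 24, 20 ≤ a → thL.getD a 0 = 23 - a) (h2 : ∀ k < K, 1 ≤ thL.getD (24 + k) 0) :
    (∀ a < 24, 20 ≤ a → thI (24 + K) c (fun a => thL.getD a 0) (c6 e a) = 23 - a) ∧
    ∀ x ∈ S, x ∉ lowPart 12 (t : P) → (∀ a < 24, c6 e a ∈ lowPart 12 (t : P)) →
      1 ≤ thI (24 + K) c (fun a => thL.getD a 0) x := by
  constructor
  · intro a ha h3
    rw [W.th thL ha]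
    exact h1 a ha h3
  · intro x hx hxn hlow
    obtain ⟨a, ha, rfl⟩ := (W.mem x).mp hx
    rw [thI_c W.cod (fun a => thL.getD a 0) ha]
    have h3 : 24 ≤ a := by
      by_contra hcon
      apply hxn
      rw [W.cell a (by omega)]
      exact hlow a (by omega)
    have h4 := h2 (a - 24) (by omega)
    rwa [show 24 + (a - 24) = a by omega] at h4

section

variable (D : WordD 12 6 wa6 lo hi) (C : Cp.Comp 12 (t : P) lo hi e) (h : Win.GoodTo P r 12)

include D C h in
/-- at most one element below the first two cells -/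
theorem patC_one {A : Finset P} (hA : ∀ z ∈ A, Mk e z 12582912) (hc : A.card ≤ 1) :
    ∃ θ : P → ℕ, ExtC t e A θ 0 := by
  classical
  have H := h.H
  obtain ⟨z, hinj, hz⟩ := enum A (t : P)
  set K := A.card with hK
  have hzA : ∀ k < K, z k ∈ A := fun k hk => (hz _).mpr ⟨k, hk, rfl⟩
  have g3 : ∀ k < 1, Qgcv.getD (24 + k) 0 = 12582912 := by decide +kernel
  have g4 : ∀ k < 1, Qglv.getD (24 + k) 0 = 13 := by decide +kernel
  have W := cd13 D C h (K := K) (z := z) (cx := fun _ => 12582912) (cvL := Qgcv)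
    (lvL := Qglv) (by decide +kernel) (by decide +kernel) (fun k hk => g3 k (by omega))
    (fun k hk => g4 k (by omega)) (fun _ _ => by norm_num) hinj (fun k hk => hA _ (hzA k hk)) hz
  have hlow : ∀ a < 24, c6 e a ∈ lowPart 12 (t : P) := fun a ha =>
    (La6_low D C _).mpr ⟨a, ha, rfl⟩
  -- the elements of level 14
  obtain ⟨v, hvinj, hv⟩ := enum (PdV A) (t : P)
  set K2 := (PdV A).card with hK2
  have hvV : ∀ k < K2, v k ∈ PdV A := fun k hk => (hv _).mpr ⟨k, hk, rfl⟩
  have hsingle : ∀ x ∈ PdV A, K = 1 ∧ Pend x (z 0) := by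
    intro x hx
    obtain ⟨y, hy, hxy⟩ := mem_PdV.mp hx
    obtain ⟨k, hk, rfl⟩ := (hz y).mp hy
    have hk0 : k = 0 := by omega
    subst hk0
    exact ⟨by omega, hxy⟩
  have hcard : K2 ≤ 2 := by
    by_cases h1 : K = 1
    · refine (Finset.card_le_card (t := Win.dc (z 0)) fun y hy => ?_).trans
        (Win.dc_card_le H _)
      rw [Win.mem_dc]
      exact (hsingle y hy).2.1
    · have : PdV A = ∅ := by
        rw [Finset.eq_empty_iff_forall_notMem]
        intro x hx
        exact h1 (hsingle x hx).1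
      rw [hK2, this, Finset.card_empty]
      norm_num
  have hK2K : 0 < K2 → K = 1 := fun h0 => (hsingle _ (hvV 0 h0)).1
  have q1 : ∀ k < 2, Qgcv.getD (25 + k) 0 = 16777216 := by decide +kernel
  have q2 : ∀ k < 2, Qglv.getD (25 + k) 0 = 14 := by decide +kernel
  have W2 : Cd t e Qgcv Qglv (K + K2) (czg (24 + K) (czg 24 (c6 e) z) v)
      (lowPart 12 (t : P) ∪ A ∪ PdV A) := by
    refine cd14 W (cx := fun _ => 16777216) ?_ ?_ ?_ ?_ ?_ hvinj ?_ ?_ hv
    · have : ∀ K < 2, ∀ a < 24 + K, Qgcv.getD a 0 < 2 ^ (24 + K) := by decide +kernel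
      exact this K (by omega)
    · intro k hk
      rw [hK2K (by omega)]
      norm_num
    · intro k hk
      rw [hK2K (by omega)]
      exact q1 k (by omega)
    · intro k hk
      rw [hK2K (by omega)]
      exact q2 k (by omega)
    · have : ∀ K < 2, ∀ a < 24 + K, Qglv.getD a 0 ≤ 13 := by decide +kernel
      exact this K (by omega)
    · intro k hk y
      have hK1 := hK2K (by omega)
      obtain ⟨-, g5, g6⟩ := hsingle _ (hvV k hk)
      have g7 : czg 24 (c6 e) z 24 = z 0 := czg_add 0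
      constructor
      · intro hy
        exact ⟨24, by omega, by decide +kernel, by rw [g7, g6 y hy]⟩
      · rintro ⟨b, hb1, hb2, rfl⟩
        have h3 : ∀ b < 25, Nat.testBit 16777216 b = true → b = 24 := by decide +kernel
        rw [h3 b (by omega) hb2, g7]
        exact g5
    · intro k hk
      have hK1 := hK2K (by omega)
      have g1 := (H.covBy_iff.mp (hsingle _ (hvV k hk)).2.1).2
      rw [(hA _ (hzA 0 (by omega))).1] at g1
      exact g1
  rw [Finset.union_assoc] at W2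
  have hl := W2.loc Qg_us Qg_pol Qg_low (fun x hx => List.mem_append_left _ hx) Qg_th Qg_bm
    (by omega)
  have t2 : ∀ K < 4, ∀ k < K, 1 ≤ Qgth.getD (24 + k) 0 := by decide +kernel
  obtain ⟨k1, k2⟩ := W2.thr Qgth (by decide +kernel) (t2 _ (by omega))
  have h7 : ∀ K < 4, ((range (24 + K)).filter (fun a => Qglv.getD a 0 < 6)).card = 6 ∧
      ((range (24 + K)).filter (fun a => Qglv.getD a 0 = 6)).card = 2 := by decide +kernel
  refine ⟨_, ⟨fun U h1 h2 h3 h4 n hn => hl.clean U h1 h2 h3 h4 n (by omega), hl.lev, hl.base,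
    hl.step, hl.le⟩, ?_, k1, ?_⟩
  · intro f hf
    exact W2.zero hl (by norm_num) (h7 _ (by omega)).1 (h7 _ (by omega)).2 hf
  · intro x hx
    refine k2 x (mem_union_right _ hx) ?_ hlow
    intro hxl
    have h1 := (mem_lowPart.mp hxl).2
    rcases mem_union.mp hx with hx | hx
    · have := (hA x hx).1
      omega
    · obtain ⟨y, hy, hxy⟩ := mem_PdV.mp hx
      have h2 := (H.covBy_iff.mp hxy.1).2
      have := (hA y hy).1
      omega

/-- the order of the pendants in the code -/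
def alt (a b : ℕ → P) (k : ℕ) : P := if k % 2 = 0 then a (k / 2) else b (k / 2)

include D C h in
/-- two elements below the first two cells, the numbers of the pendants differ by at most one -/
theorem patC_two {z0 z1 : P} (h0 : Mk e z0 12582912) (h1 : Mk e z1 12582912) (hne : z0 ≠ z1)
    {A : Finset P} (hA : ∀ x, x ∈ A ↔ x = z0 ∨ x = z1) (hpq : (Pds z1).card ≤ (Pds z0).card)
    (hpq' : (Pds z0).card ≤ (Pds z1).card + 1) : ∃ θ : P → ℕ, ExtC t e A θ (-1) := by
  classical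
  have H := h.H
  have W := cd13 D C h (K := 2) (z := two z0 z1) (cx := fun _ => 12582912) (cvL := Qecv)
    (lvL := Qelv) (by decide +kernel) (by decide +kernel) (by decide +kernel)
    (by decide +kernel) (fun _ _ => by norm_num) (two_inj hne) (fun k hk => by
      obtain rfl | rfl : k = 0 ∨ k = 1 := by omega
      · exact h0
      · exact h1) (A := A) (fun x => by rw [hA]; exact Sg.two_mem (P := P))
  have hlow : ∀ a < 24, c6 e a ∈ lowPart 12 (t : P) := fun a ha =>
    (La6_low D C _).mpr ⟨a, ha, rfl⟩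
  obtain ⟨a, ainj, ha⟩ := enum (Pds z0) (t : P)
  obtain ⟨b, binj, hb⟩ := enum (Pds z1) (t : P)
  have cp := Pds_card H z0
  set p := (Pds z0).card with hp
  set q := (Pds z1).card with hq
  have haP : ∀ k < p, Pend (a k) z0 := fun k hk => mem_Pds.mp ((ha _).mpr ⟨k, hk, rfl⟩)
  have hbP : ∀ k < q, Pend (b k) z1 := fun k hk => mem_Pds.mp ((hb _).mpr ⟨k, hk, rfl⟩)
  have hab : ∀ i < p, ∀ j < q, a i ≠ b j := by
    intro i hi j hj hh
    have h2 := haP i hi
    have h3 := hbP j hj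
    rw [← hh] at h3
    exact hne (h3.2 z0 h2.1)
  have hV : ∀ x, x ∈ PdV A ↔ ∃ k < p + q, alt a b k = x := by
    intro x
    rw [mem_PdV]
    constructor
    · rintro ⟨z, hz, hx⟩
      rcases (hA z).mp hz with rfl | rfl
      · obtain ⟨i, hi, rfl⟩ := (ha x).mp (mem_Pds.mpr hx)
        refine ⟨2 * i, by omega, ?_⟩
        unfold alt
        rw [if_pos (by omega), show 2 * i / 2 = i by omega]
      · obtain ⟨i, hi, rfl⟩ := (hb x).mp (mem_Pds.mpr hx)
        refine ⟨2 * i + 1, by omega, ?_⟩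
        unfold alt
        rw [if_neg (by omega), show (2 * i + 1) / 2 = i by omega]
    · rintro ⟨k, hk, rfl⟩
      unfold alt
      split_ifs with hk2
      · exact ⟨z0, (hA z0).mpr (Or.inl rfl), haP _ (by omega)⟩
      · exact ⟨z1, (hA z1).mpr (Or.inr rfl), hbP _ (by omega)⟩
  have W2 : Cd t e Qecv Qelv (2 + (p + q)) (czg (24 + 2) (czg 24 (c6 e) (two z0 z1)) (alt a b))
      (lowPart 12 (t : P) ∪ A ∪ PdV A) := by
    have q1 : ∀ k < 4, Qecv.getD (24 + 2 + k) 0 = if k % 2 = 0 then 16777216 else 33554432 := by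
      decide +kernel
    have q2 : ∀ k < 4, Qelv.getD (24 + 2 + k) 0 = 14 := by decide +kernel
    refine cd14 W (cx := fun k => if k % 2 = 0 then 16777216 else 33554432) (by decide +kernel)
      ?_ (fun k hk => q1 k (by omega)) (fun k hk => q2 k (by omega)) (by decide +kernel) ?_ ?_ ?_
      hV
    · intro k _
      show (if k % 2 = 0 then 16777216 else 33554432) < 2 ^ (24 + 2)
      split_ifs <;> norm_num
    · intro i hi j hj hh
      unfold alt at hh
      split_ifs at hh with c1 c2 c2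
      · have := ainj _ (by omega) _ (by omega) hh
        omega
      · exact absurd hh (hab _ (by omega) _ (by omega))
      · exact absurd hh.symm (hab _ (by omega) _ (by omega))
      · have := binj _ (by omega) _ (by omega) hh
        omega
    · intro k hk y
      have g24 : czg 24 (c6 e) (two z0 z1) 24 = z0 := czg_add 0
      have g25 : czg 24 (c6 e) (two z0 z1) 25 = z1 := czg_add 1
      unfold alt
      split_ifs with hk2
      · obtain ⟨g5, g6⟩ := haP (k / 2) (by omega)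
        constructor
        · intro hy
          exact ⟨24, by norm_num, by decide +kernel, by rw [g24, g6 y hy]⟩
        · rintro ⟨b, hb1, hb2, rfl⟩
          have h3 : ∀ b < 24 + 2, Nat.testBit 16777216 b = true → b = 24 := by decide +kernel
          rw [h3 b hb1 hb2, g24]
          exact g5
      · obtain ⟨g5, g6⟩ := hbP (k / 2) (by omega)
        constructor
        · intro hy
          exact ⟨25, by norm_num, by decide +kernel, by rw [g25, g6 y hy]⟩
        · rintro ⟨b, hb1, hb2, rfl⟩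
          have h3 : ∀ b < 24 + 2, Nat.testBit 33554432 b = true → b = 25 := by decide +kernel
          rw [h3 b hb1 hb2, g25]
          exact g5
    · intro k hk
      unfold alt
      split_ifs with hk2
      · have g1 := (H.covBy_iff.mp (haP (k / 2) (by omega)).1).2
        rw [h0.1] at g1
        exact g1
      · have g1 := (H.covBy_iff.mp (hbP (k / 2) (by omega)).1).2
        rw [h1.1] at g1
        exact g1
  rw [Finset.union_assoc] at W2
  have hl := W2.loc Qe_us Qe_pol Qe_low (fun x hx => hx) Qe_th Qe_bm (by omega)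
  have t2 : ∀ K < 7, ∀ k < K, 1 ≤ Qeth.getD (24 + k) 0 := by decide +kernel
  obtain ⟨k1, k2⟩ := W2.thr Qeth (by decide +kernel) (t2 _ (by omega))
  have h7 : ∀ K < 7, ((range (24 + K)).filter (fun a => Qelv.getD a 0 < 6)).card = 6 ∧
      ((range (24 + K)).filter (fun a => Qelv.getD a 0 = 6)).card = 2 := by decide +kernel
  have hF : ∀ K < 5, ∃ x ∈ QeF, x.1 = 2 ^ (24 + (2 + K)) - 1 ∧ sgn x.2.1 x.2.2.1 6 = 1 ∧
      x.2.2.2.2 = 1 := by decide +kernel
  obtain ⟨x, hxF, hxJ, hs, hx1⟩ := hF (p + q) (by omega)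
  refine ⟨_, hl, ?_, k1, ?_⟩
  · intro f hf
    have := W2.valN Qe_us Qe_neg Qe_num Qe_mem (by omega) hxF hxJ hs (h7 _ (by omega)).1
      (h7 _ (by omega)).2 hf
    rw [hx1] at this
    exact_mod_cast this
  · intro x hx
    refine k2 x (mem_union_right _ hx) ?_ hlow
    intro hxl
    have g1 := (mem_lowPart.mp hxl).2
    have hA13 : ∀ y ∈ A, lev y = 13 := by
      intro y hy
      rcases (hA y).mp hy with rfl | rfl
      · exact h0.1
      · exact h1.1
    rcases mem_union.mp hx with hx | hx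
    · have := hA13 x hx
      omega
    · obtain ⟨y, hy, hxy⟩ := mem_PdV.mp hx
      have h2 := (H.covBy_iff.mp hxy.1).2
      have := hA13 y hy
      omega

include D C h in
/-- two elements below the first two cells, two pendants below one of them -/
theorem patC_two' {z0 z1 : P} (h0 : Mk e z0 12582912) (h1 : Mk e z1 12582912) (hne : z0 ≠ z1)
    {A : Finset P} (hA : ∀ x, x ∈ A ↔ x = z0 ∨ x = z1) (hp2 : (Pds z0).card = 2)
    (hq0 : (Pds z1).card = 0) : ∃ θ : P → ℕ, ExtC t e A θ (-1) := by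
  classical
  have H := h.H
  have W := cd13 D C h (K := 2) (z := two z0 z1) (cx := fun _ => 12582912) (cvL := Qfcv)
    (lvL := Qflv) (by decide +kernel) (by decide +kernel) (by decide +kernel)
    (by decide +kernel) (fun _ _ => by norm_num) (two_inj hne) (fun k hk => by
      obtain rfl | rfl : k = 0 ∨ k = 1 := by omega
      · exact h0
      · exact h1) (A := A) (fun x => by rw [hA]; exact Sg.two_mem (P := P))
  have hlow : ∀ a < 24, c6 e a ∈ lowPart 12 (t : P) := fun a ha =>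
    (La6_low D C _).mpr ⟨a, ha, rfl⟩
  obtain ⟨a, ainj, ha⟩ := enum (Pds z0) (t : P)
  rw [hp2] at ainj ha
  have haP : ∀ k < 2, Pend (a k) z0 := fun k hk => mem_Pds.mp ((ha _).mpr ⟨k, hk, rfl⟩)
  rw [Finset.card_eq_zero] at hq0
  have hV : ∀ x, x ∈ PdV A ↔ ∃ k < 2, a k = x := by
    intro x
    rw [mem_PdV]
    constructor
    · rintro ⟨z, hz, hx⟩
      rcases (hA z).mp hz with rfl | rfl
      · exact (ha x).mp (mem_Pds.mpr hx)
      · have := mem_Pds.mpr hx
        rw [hq0] at this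
        exact absurd this (Finset.notMem_empty _)
    · rintro ⟨k, hk, rfl⟩
      exact ⟨z0, (hA z0).mpr (Or.inl rfl), haP _ hk⟩
  have W2 : Cd t e Qfcv Qflv (2 + 2) (czg (24 + 2) (czg 24 (c6 e) (two z0 z1)) a)
      (lowPart 12 (t : P) ∪ A ∪ PdV A) := by
    refine cd14 W (cx := fun k => 16777216) (by decide +kernel)
      (fun _ _ => by norm_num) (by decide +kernel) (by decide +kernel) (by decide +kernel)
      ainj ?_ ?_ hV
    · intro k hk y
      have g24 : czg 24 (c6 e) (two z0 z1) 24 = z0 := czg_add 0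
      obtain ⟨g5, g6⟩ := haP k hk
      constructor
      · intro hy
        exact ⟨24, by norm_num, by decide +kernel, by rw [g24, g6 y hy]⟩
      · rintro ⟨b, hb1, hb2, rfl⟩
        have h3 : ∀ b < 24 + 2, Nat.testBit 16777216 b = true → b = 24 := by decide +kernel
        rw [h3 b hb1 hb2, g24]
        exact g5
    · intro k hk
      have g1 := (H.covBy_iff.mp (haP k hk).1).2
      rw [h0.1] at g1
      exact g1
  rw [Finset.union_assoc] at W2
  have hl := W2.loc Qf_us Qf_pol Qf_low (fun x hx => hx) Qf_th Qf_bm (by norm_num)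
  obtain ⟨k1, k2⟩ := W2.thr Qfth (by decide +kernel) (by decide +kernel)
  refine ⟨_, hl, ?_, k1, ?_⟩
  · intro f hf
    have := W2.valN Qf_us Qf_neg Qf_num Qf_mem (by norm_num)
      (x := (268435455, 15, 13, 196, 1)) (by decide +kernel) (by norm_num) (by decide +kernel)
      (by decide +kernel) (by decide +kernel) hf
    exact_mod_cast this
  · intro x hx
    refine k2 x (mem_union_right _ hx) ?_ hlow
    intro hxl
    have g1 := (mem_lowPart.mp hxl).2
    have hA13 : ∀ y ∈ A, lev y = 13 := by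
      intro y hy
      rcases (hA y).mp hy with rfl | rfl
      · exact h0.1
      · exact h1.1
    rcases mem_union.mp hx with hx | hx
    · have := hA13 x hx
      omega
    · obtain ⟨y, hy, hxy⟩ := mem_PdV.mp hx
      have h2 := (H.covBy_iff.mp hxy.1).2
      have := hA13 y hy
      omega

include D C h in
/-- **The data of a component `La6` without elements below the ends.** -/
theorem laC {A : Finset P} (hA : ∀ z, z ∈ A ↔ Mk e z 12582912) :
    ∃ (θ : P → ℕ) (ρ : ℤ), ExtC t e A θ ρ ∧ ρ ≤ 0 ∧ (2 ≤ A.card → ρ < 0) := by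
  classical
  have H := h.H
  have hc : A.card ≤ 2 := by
    refine (Finset.card_le_card (t := Win.dc (c6 e 23)) fun y hy => ?_).trans
      (Win.dc_card_le H _)
    rw [Win.mem_dc]
    exact ((hA y).mp hy).cov (by norm_num) (by decide +kernel)
  rcases Nat.lt_or_ge A.card 2 with h1 | h1
  · obtain ⟨θ, E⟩ := patC_one D C h (fun z hz => (hA z).mp hz) (by omega)
    exact ⟨θ, 0, E, le_rfl, fun h => absurd h (by omega)⟩
  · obtain ⟨z0, z1, hne, hA2⟩ := Finset.card_eq_two.mp (le_antisymm hc h1)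
    have key : ∀ z0 z1 : P, z0 ≠ z1 → A = {z0, z1} → (Pds z1).card ≤ (Pds z0).card →
        ∃ θ : P → ℕ, ExtC t e A θ (-1) := by
      intro z0 z1 hne hA2 hpq
      have hm : ∀ x, x ∈ A ↔ x = z0 ∨ x = z1 := fun x => by rw [hA2]; simp
      have m0 := (hA z0).mp ((hm z0).mpr (Or.inl rfl))
      have m1 := (hA z1).mp ((hm z1).mpr (Or.inr rfl))
      by_cases h2 : (Pds z0).card ≤ (Pds z1).card + 1
      · exact patC_two D C h m0 m1 hne hm hpq h2
      · have := Pds_card H z0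
        exact patC_two' D C h m0 m1 hne hm (by omega) (by omega)
    rcases le_total (Pds z1).card (Pds z0).card with h2 | h2
    · obtain ⟨θ, E⟩ := key z0 z1 hne hA2 h2
      exact ⟨θ, -1, E, by norm_num, fun _ => by norm_num⟩
    · obtain ⟨θ, E⟩ := key z1 z0 (Ne.symm hne) (by rw [hA2, Finset.pair_comm]) h2
      exact ⟨θ, -1, E, by norm_num, fun _ => by norm_num⟩

end

end Pool.Agent.GaussPoset.W6

end

/-! From `Pool.Agent.W_448w6_h53.WdH` -/

section

/-!
The strip `La6` at the window 6, level 12, up to the energy 27: the costs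
(MP_448cb3_co, `j = 12`).
-/

namespace Pool.Agent.GaussPoset.W6

set_option linter.unusedSectionVars false
set_option synthInstance.maxSize 1000

open Polynomial Finset Dd Wd Cl Sg

universe u

variable {P : Type u} [Fintype P] [PartialOrder P] [DecidableEq P] {r : ℕ}
variable {t : Tops P} {lo hi : ℕ → ℕ} {e : ℕ → ℕ → P}

lemma costC_chk : ∀ m ∈ msk, m.testBit 23 = false → ∀ b < 24, m.testBit b = true →
    28 ≤ min (23 - b + 1) 7 + ∑ b' ∈ (range 24).filter
      (fun b' => (orM (fun a => L6um.getD a 0) 24 m).testBit b' = true),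
        min (23 - b + 1) (L6lv.getD b' 0 - 6) := by decide +kernel

lemma cost01_chk : min 2 7 + ∑ b ∈ (range 24).filter
      (fun b => (orM (fun a => L6um.getD a 0) 24 12582912).testBit b = true),
        min 2 (L6lv.getD b 0 - 6) = 24 := by decide +kernel

lemma msk_20 : ∀ m ∈ msk, ∀ b < 24, m.testBit b = true → 20 ≤ b := by decide +kernel

section

variable (D : WordD 12 6 wa6 lo hi) (C : Cp.Comp 12 (t : P) lo hi e) (h : Win.GoodTo P r 12)

include D C h in
/-- the mask from two covers -/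
lemma msk_of {z : P} {a b : ℕ} (ha : a < 24) (hb : b < 24) (hab : a ≠ b) (h20 : 20 ≤ a)
    (hza : z ⋖ c6 e a) (hzb : z ⋖ c6 e b) :
    ∃ m ∈ msk, Mk e z m ∧ m.testBit a = true ∧ m.testBit b = true := by
  have H := h.H
  have hla : lev (c6 e a) = 12 := by
    rw [c6_lev D C h ha]
    exact L6_lv20 a ha h20
  have hlz := (H.covBy_iff.mp hza).2
  have hne : c6 e a ≠ c6 e b := fun hh => hab ((La6_cod D C h).inj a ha b hb hh)
  obtain ⟨m, hm, hmk⟩ := La6_msk D C h (z := z) (by omega) (fun y hy => by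
    rcases uc_pair H hza hzb hne hy with h1 | h1
    · rw [h1]; exact c6_le D C ha
    · rw [h1]; exact c6_le D C hb)
  refine ⟨m, hm, hmk, ?_, ?_⟩
  · by_contra hcon
    exact hmk.ncov D C h ha (by simpa using hcon) hza
  · by_contra hcon
    exact hmk.ncov D C h hb (by simpa using hcon) hzb

include D C h in
/-- `La6` up to the energy 27 -/
theorem la6C_ts (q : Prop) (hno : ∀ z, z ⋖ e 12 6 → z ⋖ e 12 3 → False) :
    ∃ (Y : Finset P) (θ : P → ℕ) (B : P → Prop) (ρ : ℤ),
    TS 28 27 q t (hi 6 - lo 6 + 1) ρ Y θ B ∧ ρ ≤ 0 ∧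
    (∀ z z', z ≠ z' → z ⋖ e 12 6 → z ⋖ e 12 5 → z' ⋖ e 12 6 → z' ⋖ e 12 5 → ρ < 0) := by
  classical
  have H := h.H
  obtain ⟨A, hA⟩ : ∃ A : Finset P, ∀ z, z ∈ A ↔ Mk e z 12582912 :=
    ⟨univ.filter (fun z => Mk e z 12582912), fun z => by simp⟩
  obtain ⟨θ, ρ, E, hρ, hρ2⟩ := laC D C h hA
  have hb := La6_b D C h
  have hno' : ∀ z, ¬ Mk e z 9437184 := fun z hz =>
    hno z (hz.cov (b := 23) (by norm_num) (by decide +kernel))
      (hz.cov (b := 20) (by norm_num) (by decide +kernel))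
  have hA13 : ∀ y ∈ A, lev y = 13 := fun y hy => ((hA y).mp hy).1
  have hc24 : ∀ y ∈ A, ct 6 2 y = 24 := fun y hy => by
    rw [La6_ct D C h ((hA y).mp hy)]
    exact cost01_chk
  -- the elements of level 13
  have key : ∀ z x, lev z = 13 → (∀ y, z ⋖ y → y ≤ (t : P)) → z ∉ A → z ⋖ x →
      28 ≤ ct 6 (θ x + 1) z ∨ (Pend z x ∧ x = c6 e 23) := by
    intro z x hlz hzt hzA hzx
    obtain ⟨m, hm, hmk⟩ := La6_msk D C h hlz hzt
    obtain ⟨b, hb1, hb2, rfl⟩ := (hmk.2 x).mp hzx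
    by_cases h23 : m.testBit 23 = true
    · have h1 : ∀ m ∈ msk, m.testBit 23 = true → m = 8388608 ∨ m = 12582912 ∨ m = 9437184 := by
        decide +kernel
      rcases h1 m hm h23 with rfl | rfl | rfl
      · right
        have h2 : ∀ b < 24, Nat.testBit 8388608 b = true → b = 23 := by decide +kernel
        rw [h2 b hb1 hb2]
        refine ⟨⟨hmk.cov (by norm_num) (by decide +kernel), fun y hy => ?_⟩, rfl⟩
        obtain ⟨b', hb1', hb2', rfl⟩ := (hmk.2 y).mp hy
        rw [h2 b' hb1' hb2']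
      · exact absurd ((hA z).mpr hmk) hzA
      · exact absurd hmk (hno' z)
    · left
      have h23' : m.testBit 23 = false := by simpa using h23
      rw [E.cell b hb1 (msk_20 m hm b hb1 hb2), La6_ct D C h hmk]
      exact costC_chk m hm h23' b hb1 hb2
  refine ⟨A ∪ PdV A, θ, fun x => x = c6 e 23, ρ, ⟨?_, ?_, ?_⟩, hρ, ?_⟩
  · rw [hb]
    constructor
    · norm_num
    · intro y hy
      rcases mem_union.mp hy with hy | hy
      · have := hA13 y hy
        omega
      · obtain ⟨z, hz, hyz⟩ := mem_PdV.mp hy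
        have h1 := (H.covBy_iff.mp hyz.1).2
        have := hA13 z hz
        omega
    · intro y hy v hyv
      rw [mem_union]
      rcases mem_union.mp hy with hy | hy
      · left
        obtain ⟨b, hb1, -, hb3⟩ := (((hA y).mp hy).2 v).mp hyv
        exact (La6_low D C v).mpr ⟨b, hb1, hb3⟩
      · right
        obtain ⟨z, hz, hyz⟩ := mem_PdV.mp hy
        rw [hyz.2 v hyv]
        exact mem_union_left _ hz
    · intro y hy z hzy hzY
      have hθ := E.ex y hy
      have hmono : ct 6 2 z ≤ ct 6 (θ y + 1) z := ct_mono le_rfl (by omega)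
      have hlz := (H.covBy_iff.mp hzy).2
      rcases mem_union.mp hy with hy | hy
      · -- a second cover
        have hnp : ¬ Pend z y := fun hp => hzY (mem_union_right _ (mem_PdV.mpr ⟨y, hy, hp⟩))
        obtain ⟨y', hy', hne⟩ : ∃ y', z ⋖ y' ∧ y' ≠ y := by
          by_contra hcon
          push Not at hcon
          exact hnp ⟨hzy, hcon⟩
        have hly := hA13 y hy
        have hly' := (H.covBy_iff.mp hy').2
        have h1 := ct_pair (i := 6) (k := 2) hzy.1 hy'.1 (fun hle => by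
          rcases eq_or_lt_of_le hle with g | g
          · exact hne g.symm
          · have := lev_strictAnti g
            omega)
        rw [hc24 y hy, show lev z = 14 by omega, show lev y' = 13 by omega] at h1
        omega
      · obtain ⟨w, hw, hyw⟩ := mem_PdV.mp hy
        have h1 := ct_cov (i := 6) (k := 2) hzy.1
        have h2 := ct_cov (i := 6) (k := 2) hyw.1.1
        have hlw := hA13 w hw
        have hly := (H.covBy_iff.mp hyw.1).2
        rw [hc24 w hw, show lev y = 14 by omega] at h2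
        rw [show lev z = 15 by omega] at h1
        omega
    · intro x z hxt hl hzx honly hzY
      have hlz := (H.covBy_iff.mp hzx).2
      rcases key z x (by omega) (fun y hy => by rw [honly y hy]; exact hxt)
        (fun hzA => hzY (mem_union_left _ hzA)) hzx with h1 | h1
      · exact Or.inl h1
      · right
        rw [h1.2]
        exact ⟨by rw [E.cell 23 (by norm_num) (by norm_num)], Or.inr (La6_prof D C h)⟩
    · intro x x' z hne hxt hxt' hl hl' hzx hzx' hzY _
      have hlz := (H.covBy_iff.mp hzx).2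
      rcases key z x (by omega) (fun y hy => by
        rcases uc_pair H hzx hzx' hne hy with h1 | h1
        · rw [h1]; exact hxt
        · rw [h1]; exact hxt') (fun hzA => hzY (mem_union_left _ hzA)) hzx with h1 | h1
      · exact Or.inl h1
      · exact absurd (h1.1.2 x' hzx').symm hne
    · intro x hxt hl _
      have := nab_le_row h C hxt hl.le (l := 6) (by norm_num)
      refine ⟨fun h3 => by omega, fun h0 => ?_⟩
      right
      obtain ⟨a, ha, rfl⟩ := (La6_low D C x).mp (mem_lowPart.mpr ⟨hxt, hl.le⟩)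
      have h20 := L6_lv12 a ha (by rw [← c6_lev D C h ha]; exact hl)
      by_cases h23 : a = 23
      · rw [h23]
        exact La6_prof D C h
      · have := E.cell a ha h20
        omega
    · intro x hxt hl hu h0
      obtain ⟨a, ha, rfl⟩ := (La6_low D C x).mp (mem_lowPart.mpr ⟨hxt, hl.le⟩)
      have h20 := L6_lv12 a ha (by rw [← c6_lev D C h ha]; exact hl)
      rw [E.cell a ha h20] at h0 ⊢
      obtain rfl | ha2 : a = 22 ∨ a < 22 := by omega
      · exfalso
        obtain ⟨k, hk, k', hk', hne, b1, b2⟩ := L6_two 22 (by norm_num) (by norm_num)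
          (by norm_num) (by norm_num)
        have hc := (La6_cod D C h).cov 22 (by norm_num)
        have c1 := (hc (c6 e k)).mpr ⟨k, hk, b1, rfl⟩
        have c2 := (hc (c6 e k')).mpr ⟨k', hk', b2, rfl⟩
        obtain ⟨y, hy⟩ := Finset.card_eq_one.mp hu
        have m1 : c6 e k ∈ Win.uc (c6 e 22) := Win.mem_uc.mpr c1
        have m2 : c6 e k' ∈ Win.uc (c6 e 22) := Win.mem_uc.mpr c2
        rw [hy, mem_singleton] at m1 m2
        exact hne ((La6_cod D C h).inj k hk k' hk' (m1.trans m2.symm))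
      · exact ct_three hl (by omega)
    · intro y hy x hp hl
      have hxY : x ∈ lowPart 12 (t : P) := by
        rcases mem_union.mp hy with hy | hy
        · obtain ⟨b, hb1, -, hb3⟩ := (((hA y).mp hy).2 x).mp hp.1
          exact (La6_low D C x).mpr ⟨b, hb1, hb3⟩
        · obtain ⟨z, hz, hyz⟩ := mem_PdV.mp hy
          have h1 := hyz.2 x hp.1
          have h2 := hA13 z hz
          rw [← h1, hl] at h2
          omega
      have := nab_le_row h C (x := x) (mem_lowPart.mp hxY).1 hl.le (l := 6) (by norm_num)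
      omega
  · rw [hb]
    exact dt_loc E.loc
  · rw [hb]
    exact pt_of E.pl
  · intro z z' hne h6 h5 h6' h5'
    refine hρ2 ?_
    have hz : ∀ z, z ⋖ e 12 6 → z ⋖ e 12 5 → z ∈ A := by
      intro z h6 h5
      obtain ⟨m, hm, hmk, b1, b2⟩ := msk_of D C h (a := 23) (b := 22) (by norm_num)
        (by norm_num) (by norm_num) (by norm_num) h6 h5
      have h1 : ∀ m ∈ msk, m.testBit 23 = true → m.testBit 22 = true → m = 12582912 := by
        decide +kernel
      rw [h1 m hm b1 b2] at hmk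
      exact (hA z).mpr hmk
    have h1 : ({z, z'} : Finset P) ⊆ A := by
      intro x hx
      rw [mem_insert, mem_singleton] at hx
      rcases hx with rfl | rfl
      · exact hz _ h6 h5
      · exact hz _ h6' h5'
    have h2 := Finset.card_le_card h1
    rw [Finset.card_pair hne] at h2
    exact h2

end

end Pool.Agent.GaussPoset.W6

end

/-! From `Pool.Agent.W_448w6_h53.WeA` -/

section

/-!
Level 12, window 6: all components, the context (MP_448cb3_co, `j = 12`).
-/

namespace Pool.Agent.GaussPoset.W6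

set_option linter.unusedSectionVars false

open Polynomial Finset Dd Wd Cl

universe u

variable {P : Type u} [Fintype P] [PartialOrder P] [DecidableEq P] {r : ℕ}

section

variable {t : Tops P} {lo hi : ℕ → ℕ} {e : ℕ → ℕ → P}

/-- **the data of a component different from `La6`.** -/
theorem exists_com (h : Win.GoodTo P r 12) (C : Cp.Comp 12 (t : P) lo hi e)
    (S : Wd.Shape 12 lo hi) (hn : ¬ WordD 12 6 wa6 lo hi) :
    ∃ Y θ B, (TB 28 True t (hi 6 - lo 6 + 1) Y θ ∧ DT 28 t (hi 6 - lo 6 + 1) Y θ B) ∧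
      (StairShape 12 lo hi → lo 12 = 0 → ∀ z, z ⋖ e 12 6 → z ⋖ e 12 0 →
        z ∉ Y ∧ IsCx t (hi 6 - lo 6 + 1) θ z) := by
  rcases S with h1 | ⟨h1, h2⟩ | ⟨h0, h2⟩ | ⟨h0, h1, h2⟩ | ⟨h0, h1⟩ | ⟨a, h0, h1, h2, h3, hN, h4⟩
  · -- light
    have e6 := h1 6 (by norm_num)
    obtain ⟨g1, g2⟩ := light_ts (t := t) h C (by omega)
    rw [show hi 6 - lo 6 + 1 = 1 by omega]
    refine ⟨_, _, _, ⟨g1, g2⟩, fun S => ?_⟩
    have := S.hi 12 le_rfl
    have := h1 12 le_rfl
    omega
  · -- rectangle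
    obtain ⟨θ, B, T⟩ := rect_ts h C h1 h2
    refine ⟨∅, θ, B, T, fun S => ?_⟩
    have := S.hi 1 (by norm_num)
    omega
  · -- stair
    obtain ⟨Y, θ, B, T, hx⟩ := stair_ts h C h2
    exact ⟨Y, θ, B, T, fun _ => hx⟩
  · omega
  · omega
  · -- late
    have hns : StairShape 12 lo hi → False := by
      intro S
      have e1 := S.hi 2 (by norm_num)
      have e2 := h2 2 (by omega)
      omega
    have D : LateD 12 a lo hi := ⟨h0, h1, h2, h3, h4⟩
    rcases Nat.lt_or_ge 6 a with ha | ha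
    · have e6 := h2 6 ha
      obtain ⟨g1, g2⟩ := light_ts (t := t) h C (by omega)
      rw [show hi 6 - lo 6 + 1 = 1 by omega]
      exact ⟨_, _, _, ⟨g1, g2⟩, fun S => (hns S).elim⟩
    · rcases h4 with ⟨⟨g1, g2⟩, g3⟩ | g3
      · have hq := D.quad C g3
        obtain rfl : a = 6 := by omega
        obtain ⟨θ, B, T⟩ := quad_ts h C ⟨D.h2, D.h3, by
          intro k hk hk2
          have := hq (k - 6) (by omega) (by omega)
          rwa [show 6 + (k - 6) = k by omega] at this⟩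
        exact ⟨∅, θ, B, T, fun S => (hns S).elim⟩
      · have hlen : (word lo hi a (12 - a)).length = 12 - a := word_length
        obtain rfl | rfl | rfl | rfl : a = 3 ∨ a = 4 ∨ a = 5 ∨ a = 6 := by omega
        · exact absurd hlen (Hc.late12_3 _ g3)
        · obtain ⟨θ, B, T⟩ := e7_ts h C (⟨D.h2, D.h3, Hc.late12_4 _ g3 hlen⟩ :
            WordD 12 4 w7 lo hi)
          exact ⟨∅, θ, B, T, fun S => (hns S).elim⟩
        · obtain ⟨Y, θ, B, T⟩ := la5_ts h C (⟨D.h2, D.h3, Hc.late12_5 _ g3 hlen⟩ :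
            WordD 12 5 wa5 lo hi)
          exact ⟨Y, θ, B, T, fun S => (hns S).elim⟩
        · exact absurd (⟨D.h2, D.h3, Hc.late12_6 _ g3 hlen⟩ : WordD 12 6 wa6 lo hi) hn

end

/-! ### the context -/

/-- the context at level 12 -/
structure C12 (P : Type u) [Fintype P] [PartialOrder P] [DecidableEq P] (r : ℕ)
    (lo hi : Tops P → ℕ → ℕ) (e : Tops P → ℕ → ℕ → P) (T n0 : ℕ) (q : Prop) (ρ : Tops P → ℤ)
    (Y : Tops P → Finset P) (θ : Tops P → P → ℕ) (B : Tops P → P → Prop) : Prop where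
  K : Sm.Ctx P r 12 lo hi e
  ts : ∀ t, TS T n0 q t (hi t 6 - lo t 6 + 1) (ρ t) (Y t) (θ t) (B t)

/-- the natural sets -/
noncomputable def N12 (Y : Tops P → Finset P) (t : Tops P) : Finset P := lowPart 12 (t : P) ∪ Y t

/-- the thresholds -/
noncomputable def th12 (θ : Tops P → P → ℕ) (x : P) : ℕ := θ (topOf x) x

/-- the base elements -/
def B12 (Y : Tops P → Finset P) (B : Tops P → P → Prop) (x : P) : Prop :=
  x ∉ unnat (N12 Y) ∧ B (topOf x) x

/-- the orders -/
def b12 (lo hi : Tops P → ℕ → ℕ) (t : Tops P) : ℕ := hi t 6 - lo t 6 + 1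

/-- the labels -/
noncomputable def h12 (Y : Tops P → Finset P) (θ : Tops P → P → ℕ) : P → ℕ :=
  hcan (unnat (N12 Y)) (th12 θ)

section

variable {lo hi : Tops P → ℕ → ℕ} {e : Tops P → ℕ → ℕ → P} {T n0 : ℕ} {q : Prop}
  {ρ : Tops P → ℤ} {Y : Tops P → Finset P} {θ : Tops P → P → ℕ} {B : Tops P → P → Prop}

lemma low12 (Y : Tops P → Finset P) (t : Tops P) : lowPart 12 (t : P) ⊆ N12 Y t :=
  Finset.subset_union_left

lemma C12.sys (W : C12 P r lo hi e T n0 q ρ Y θ B) : NatSys (N12 Y) := by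
  have hup : ∀ t : Tops P, ∀ n, ∀ x ∈ N12 Y t, lev x ≤ n → x ≤ (t : P) ∧
      ∀ y, x ≤ y → y ∈ N12 Y t := by
    intro t n
    induction n with
    | zero =>
      intro x hx hl
      have hx12 : x ∈ lowPart 12 (t : P) := by
        rcases mem_union.mp hx with hx | hx
        · exact hx
        · have := (W.ts t).cost.Ylev x hx
          omega
      exact ⟨(mem_lowPart.mp hx12).1, fun y hxy => low12 Y t
        (lowPart_up W.K.gt.H W.K.gt.good t.2 hxy hx12)⟩
    | succ n ih =>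
      intro x hx hl
      rcases mem_union.mp hx with hx' | hx'
      · exact ⟨(mem_lowPart.mp hx').1, fun y hxy => low12 Y t
          (lowPart_up W.K.gt.H W.K.gt.good t.2 hxy hx')⟩
      · have h2 := (W.ts t).cost.Ylev x hx'
        have hcov : ∀ v, x ⋖ v → v ≤ (t : P) ∧ ∀ y, v ≤ y → y ∈ N12 Y t := by
          intro v hv
          have h3 := (W.K.gt.H.covBy_iff.mp hv).2
          exact ih v ((W.ts t).cost.Yup x hx' v hv) (by omega)
        have hlt : x < (topOf x : P) := lt_of_le_of_ne (le_topOf x) (by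
          intro h
          have h3 := (topOf x).2
          rw [← h] at h3
          omega)
        obtain ⟨v, hv, -⟩ := Hul.exists_cov hlt
        refine ⟨hv.1.le.trans (hcov v hv).1, fun y hxy => ?_⟩
        rcases eq_or_lt_of_le hxy with h | h
        · rw [← h]; exact hx
        · obtain ⟨v', hv', hvy⟩ := Hul.exists_cov h
          exact (hcov v' hv').2 y hvy
  exact ⟨fun t x hx y hxy => (hup t (lev x) x hx le_rfl).2 y hxy,
    fun t x hx => (hup t (lev x) x hx le_rfl).1⟩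

lemma C12.lev13 (_W : C12 P r lo hi e T n0 q ρ Y θ B) {x : P} (hx : x ∈ unnat (N12 Y)) :
    12 < lev x := unnat_lev12 (low12 Y) hx

lemma C12.nat12 (W : C12 P r lo hi e T n0 q ρ Y θ B) {x : P} (hx : lev x ≤ 12) :
    x ∉ unnat (N12 Y) := fun h => by
  have := W.lev13 h
  omega

/-- natural elements -/
lemma C12.nat_cases (W : C12 P r lo hi e T n0 q ρ Y θ B) {x : P} (hx : x ∉ unnat (N12 Y)) :
    lev x ≤ 12 ∨ x ∈ Y (topOf x) := by
  have h1 : x ∈ N12 Y (topOf x) := W.sys.mem_iff.mpr ⟨hx, rfl⟩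
  unfold N12 at h1
  rw [mem_union, mem_lowPart] at h1
  rcases h1 with h1 | h1
  · exact Or.inl h1.2
  · exact Or.inr h1

/-- **The ladder data.** -/
lemma C12.lad (W : C12 P r lo hi e T n0 q ρ Y θ B) :
    J8.Lad 6 n0 (unnat (N12 Y)) (b12 lo hi) (th12 θ) (B12 Y B) where
  gr := W.K.gt.H.gradedBelow
  low := W.sys.lower
  lev := fun x hx => by
    have := W.lev13 hx
    omega
  cp := W.sys.cp
  base := fun x hx h => h.1 hx
  data := fun t => by
    have HN := W.sys
    refine (W.ts t).data (N12 Y) HN (low12 Y) rfl _ _ ?_ ?_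
    · intro x hx
      unfold th12
      rw [HN.topOf_eq hx]
    · intro x hx
      unfold B12
      rw [HN.topOf_eq hx]
      exact and_iff_right (HN.mem_iff.mp hx).1

lemma C12.sum_b (W : C12 P r lo hi e T n0 q ρ Y θ B) : ∑ t, b12 lo hi t = (lv P 6).card :=
  (card_level W.K.gt.H W.K.gt.good W.K.comp (i := 6) (by norm_num)).symm

lemma C12.top_of (W : C12 P r lo hi e T n0 q ρ Y θ B) {t : Tops P} {x : P} (hx : x ≤ (t : P))
    (hl : lev x ≤ 12) : topOf x = t :=
  W.sys.topOf_eq (low12 Y t (mem_lowPart.mpr ⟨hx, hl⟩))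

/-- the label is at most one more than the threshold of each cover -/
lemma C12.h_le (W : C12 P r lo hi e T n0 q ρ Y θ B) {t : Tops P} {z x : P} (hzx : z ⋖ x)
    (hx : x ≤ (t : P)) (hl : lev x ≤ 12) : h12 Y θ z ≤ θ t x + 1 := by
  have h1 := hcan_le (θ := th12 θ) (W.nat12 hl) hzx
  unfold th12 at h1
  rw [W.top_of hx hl] at h1
  exact h1

/-- the sides of a join -/
structure Jo (Y : Tops P → Finset P) (θ : Tops P → P → ℕ) (z x x' : P) : Prop where
  cov : z ⋖ x
  cov' : z ⋖ x'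
  ne : topOf x ≠ topOf x'
  lz : lev z = 13
  lx : lev x = 12
  lx' : lev x' = 12
  lab : h12 Y θ z = θ (topOf x) x + 1
  le : h12 Y θ z ≤ θ (topOf x') x' + 1
  uc : (Win.uc x).card = 1
  uc' : (Win.uc x').card = 1
  sum : ∀ k, k ≤ 12 → nab k z = nab k x + nab k x'

/-- the boundary elements -/
inductive Kd (lo hi : Tops P → ℕ → ℕ) (T : ℕ) (q : Prop) (Y : Tops P → Finset P)
    (θ : Tops P → P → ℕ) (z : P) : Prop
  | far (hc : T ≤ cst 6 (h12 Y θ) z)
  | pen (x : P) (hp : Pend z x) (hh : h12 Y θ z = 1) (h0 : θ (topOf x) x = 0)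
      (hx : Fp x ∨ Qp x) (hl : lev x = 12)
  | jo (x x' : P) (hj : Jo Y θ z x x')
  | cx (t : Tops P) (hq : q) (hh : h12 Y θ z = 1) (hx : IsCx t (b12 lo hi t) (θ t) z)

/-- **The kinds of the boundary elements.** -/
theorem C12.kind (W : C12 P r lo hi e T n0 q ρ Y θ B) {z : P} (hz : z ∈ bdR (unnat (N12 Y))) :
    Kd lo hi T q Y θ z := by
  classical
  have H := W.K.gt.H
  have HN := W.sys
  obtain ⟨x, hx, hzx, hh⟩ := hcan_spec (θ := th12 θ) hz
  have hh' : h12 Y θ z = θ (topOf x) x + 1 := hh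
  have hzR := (mem_filter.mp hz).1
  have hz13 := W.lev13 hzR
  have hzl := (H.covBy_iff.mp hzx).2
  have hzY : z ∉ Y (topOf x) := fun h => mem_unnat.mp hzR (topOf x) (by
    unfold N12
    rw [mem_union]
    exact Or.inr h)
  rcases W.nat_cases hx with h1 | h1
  · -- level 13
    have hlz : lev z = 13 := by omega
    have hlx : lev x = 12 := by omega
    by_cases hp : ∀ y, z ⋖ y → y = x
    · -- pendants
      rcases (W.ts (topOf x)).cost.pend x z (le_topOf x) hlx hzx hp hzY with h2 | ⟨h2, h3⟩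
      · exact Kd.far (by rw [cst_ct hh']; exact h2)
      · exact Kd.pen x ⟨hzx, hp⟩ (by rw [hh', h2]) h2 h3 hlx
    push Not at hp
    obtain ⟨y, hzy, hyx⟩ := hp
    have hly := (H.covBy_iff.mp hzy).2
    have hly12 : lev y = 12 := by omega
    have hle : h12 Y θ z ≤ θ (topOf y) y + 1 := W.h_le hzy (le_topOf y) hly12.le
    by_cases ht : topOf x = topOf y
    · -- own elements
      have hyt : y ≤ (topOf x : P) := by rw [ht]; exact le_topOf y
      have hle' : θ (topOf x) x ≤ θ (topOf x) y := by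
        rw [← ht] at hle
        omega
      rcases (W.ts (topOf x)).cost.own x y z (Ne.symm hyx) (le_topOf x) hyt hlx hly12 hzx hzy hzY
        hle' with h2 | ⟨hq, h2⟩
      · exact Kd.far (by rw [cst_ct hh']; exact h2)
      · refine Kd.cx (topOf x) hq ?_ h2
        obtain ⟨Nc, co, F, S, C, hb, hF⟩ := h2
        have h3 := W.h_le C.zF (C.chart.le_t F C.F_mem) C.lev_F.le
        omega
    · -- joins
      have hon : ∀ v : P, lev v = 12 → v ∈ onlyB (topOf v) := fun v hv =>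
        only_low W.K.gt v (le_topOf v) hv.le
      have hcg : Sm.Cg z x y := Sm.Cg.mk' hzx hzy (hon x hlx) (hon y hly12) ht
      obtain ⟨u1, u2⟩ := W.K.ends hcg hlz
      exact Kd.jo x y ⟨hzx, hzy, ht, hlz, hlx, hly12, hh', hle, u1, u2,
        fun k hk => hcg.sum H (by omega)⟩
  · -- higher levels
    exact Kd.far (by rw [cst_ct hh']; exact (W.ts (topOf x)).cost.costY x h1 z hzx hzY)

end

end Pool.Agent.GaussPoset.W6

end

/-! From `Pool.Agent.W_448w6_h53.WeB` -/

section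

/-!
Level 12, window 6: the steps of the ladder (MP_448cb3_co, `j = 12`).
-/

namespace Pool.Agent.GaussPoset.W6

set_option linter.unusedSectionVars false

open Polynomial Finset Dd Wd Cl J8

universe u

variable {P : Type u} [Fintype P] [PartialOrder P] [DecidableEq P] {r : ℕ}

/-- **The values of one sign at one energy vanish.** -/
theorem kill {i n0 n B' : ℕ} {R : Finset P} {b : Tops P → ℕ} {θ : P → ℕ} {B : P → Prop}
    (L : Lad i n0 R b θ B) (hq : IsGaussian P) (hsum : ∑ t, b t = (lv P i).card)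
    (hn : n ≤ n0) (hB1 : 1 ≤ B') (hB' : B' ≤ (lv P i).card) (Fam : Finset (Finset P))
    (hFam : ∀ A ∈ Fam, ∀ z ∈ A, z ∈ bdR R)
    (hcost : ∀ z ∈ bdR R, (∀ A ∈ Fam, z ∉ A) → n ≤ cst i (hcan R θ) z)
    (hpair : ∀ A ∈ Fam, ∀ z ∈ A, ∀ z' ∈ bdR R, z' ∉ A →
      n < ∑ x, max (ez i (hcan R θ) z x) (ez i (hcan R θ) z' x))
    (hdis : ∀ A ∈ Fam, ∀ A' ∈ Fam, A ≠ A' → ∀ z ∈ A, z ∉ A') {s ν : ℤ} (hs : s ≠ 0)
    (hν : 0 ≤ ν) (hnat : Lv B' (Z {x : P // x ∉ R} i n) (ν * s)) (cA : Finset P → ℤ)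
    (hA : ∀ A ∈ Fam, 0 ≤ cA A ∧ Lv B' (ZF i (hcan R θ) A n) (cA A * s)) (cz : P → ℤ)
    (hz : ∀ z ∈ bdR R, (∀ A ∈ Fam, z ∉ A) → cst i (hcan R θ) z = n →
      0 ≤ cz z ∧ Lv B' (Lt i (hcan R θ) z) (cz z * s)) :
    ν = 0 ∧ (∀ A ∈ Fam, cA A = 0) ∧ ∀ z ∈ bdR R, (∀ A ∈ Fam, z ∉ A) →
      cst i (hcan R θ) z = n → cz z = 0 := by
  classical
  have hplus := L.plus0 hn Fam hFam hcost hpair hdis
  rw [hsum] at hplus
  have hplus' := (pow_dvd_pow _ hB').trans hplus
  set T := (bdR R).filter (fun z => (∀ A ∈ Fam, z ∉ A) ∧ cst i (hcan R θ) z = n) with hT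
  have hTm : ∀ z ∈ T, z ∈ bdR R ∧ (∀ A ∈ Fam, z ∉ A) ∧ cst i (hcan R θ) z = n := by
    intro z hz
    rw [hT, mem_filter] at hz
    exact hz
  have v5 := hnat.add ((Lv.sum Fam fun A hA' => (hA A hA').2).add
    (Lv.sum T fun z hz' => (hz z (hTm z hz').1 (hTm z hz').2.1 (hTm z hz').2.2).2))
  have v6 := Lv.congr hplus' v5
  have v7 := v6.eq_zero hB1 ((pow_dvd_pow _ hB').trans (dvd_Z hq i n))
  rw [← Finset.sum_mul, ← Finset.sum_mul, ← add_mul, ← add_mul] at v7
  have v8 := (mul_eq_zero.mp v7).resolve_right hs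
  have n2 : 0 ≤ ∑ A ∈ Fam, cA A := Finset.sum_nonneg fun A hA' => (hA A hA').1
  have n3 : 0 ≤ ∑ z ∈ T, cz z := Finset.sum_nonneg fun z hz' =>
    (hz z (hTm z hz').1 (hTm z hz').2.1 (hTm z hz').2.2).1
  have m2 : ∑ A ∈ Fam, cA A = 0 := by omega
  have m3 : ∑ z ∈ T, cz z = 0 := by omega
  refine ⟨by omega, ?_, ?_⟩
  · exact (Finset.sum_eq_zero_iff_of_nonneg fun A hA' => (hA A hA').1).mp m2
  · intro z h1 h2 h3
    exact (Finset.sum_eq_zero_iff_of_nonneg fun z hz' =>
      (hz z (hTm z hz').1 (hTm z hz').2.1 (hTm z hz').2.2).1).mp m3 z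
      (by rw [hT, mem_filter]; exact ⟨h1, h2, h3⟩)

/-- the leading term of the label one -/
lemma lt_h1 {h : P → ℕ} {z : P} (hh : h z = 1) : Lt 6 h z =
    X ^ (below P 6 + nab 6 z) * (1 + X) ^ ((lv P 6).card + nab 7 z - nab 6 z) := by
  unfold Lt
  rw [nst_one hh, hh]

lemma lv_lt {h : P → ℕ} {z : P} (hh : h z = 1) {B' : ℕ}
    (hB : B' + nab 6 z = (lv P 6).card + nab 7 z + 1) :
    Lv B' (Lt 6 h z) ((-1) ^ (below P 6 + nab 6 z)) := by
  have h1 := nab_le z 6
  rw [lt_h1 hh, show (lv P 6).card + nab 7 z - nab 6 z = B' - 1 by omega]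
  exact Lv.mono _ _

lemma lv_lt0 {h : P → ℕ} {z : P} (hh : h z = 1) {B' : ℕ}
    (hB : B' + nab 6 z ≤ (lv P 6).card + nab 7 z) : Lv B' (Lt 6 h z) 0 := by
  rw [lt_h1 hh]
  exact Lv.zero ((pow_dvd_pow _ (by omega)).trans (dvd_mul_left _ _))

/-- the cost of a (C) element -/
lemma cx_cost (hgr : GradedBelow P) {t : Tops P} {b : ℕ} {θ : P → ℕ} {h : P → ℕ} {z : P}
    (h0 : h z = 1) (hx : IsCx t b θ z) : cst 6 h z = 19 := by
  obtain ⟨Nc, co, F, S, C, -⟩ := hx
  have h1 := C.cst_eq hgr (by norm_num)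
  have h2 : hh 6 = 1 := rfl
  rw [h2] at h1
  rw [cst_ct h0]
  have h3 : E0 6 = 19 := by decide +kernel
  rw [← h3]
  exact h1

section

variable {lo hi : Tops P → ℕ → ℕ} {e : Tops P → ℕ → ℕ → P} {T n0 : ℕ} {q : Prop}
  {ρ : Tops P → ℤ} {Y : Tops P → Finset P} {θ : Tops P → P → ℕ} {B : Tops P → P → Prop}

/-- the (C) elements -/
noncomputable def CX (lo hi : Tops P → ℕ → ℕ) (Y : Tops P → Finset P)
    (θ : Tops P → P → ℕ) : Finset P := by
  classical exact (bdR (unnat (N12 Y))).filter (fun z => h12 Y θ z = 1 ∧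
    ∃ t, IsCx t (b12 lo hi t) (θ t) z)

lemma mem_CX {z : P} : z ∈ CX lo hi Y θ ↔ z ∈ bdR (unnat (N12 Y)) ∧ h12 Y θ z = 1 ∧
    ∃ t, IsCx t (b12 lo hi t) (θ t) z := by
  classical
  unfold CX
  rw [mem_filter]

/-- the families of the (C) elements -/
noncomputable def FX (lo hi : Tops P → ℕ → ℕ) (Y : Tops P → Finset P)
    (θ : Tops P → P → ℕ) : Finset (Finset P) := by
  classical exact (CX lo hi Y θ).image (J8.fam (unnat (N12 Y)))

lemma mem_FX {A : Finset P} : A ∈ FX lo hi Y θ ↔ ∃ z ∈ CX lo hi Y θ, J8.fam (unnat (N12 Y)) z = A := by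
  classical
  unfold FX
  rw [mem_image]

/-- the elements of a family of (C) elements -/
lemma C12.fam_cx (W : C12 P r lo hi e T n0 q ρ Y θ B) {z y : P} {t : Tops P}
    (hx : IsCx t (b12 lo hi t) (θ t) z) (hy : y ∈ J8.fam (unnat (N12 Y)) z) :
    h12 Y θ y = 1 ∧ IsCx t (b12 lo hi t) (θ t) y := by
  obtain ⟨Nc, co, F, S, C, hb, hF⟩ := hx
  obtain ⟨hyR, hup⟩ := J8.mem_fam.mp hy
  have hyF := (cov_of_up hup).mp C.zF
  have hyS := (cov_of_up hup).mp C.zS
  have C' : CEl t Nc co 6 y F S := ⟨C.chart, C.strip, C.F_mem, C.S_mem, C.co_F, C.co_S, hyF,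
    hyS, fun w hw => C.only w ((cov_of_up hup).mpr hw)⟩
  have h1 := W.h_le hyF (C.chart.le_t F C.F_mem) C.lev_F.le
  have h2 := W.lad.one_le hyR
  have h2' : 1 ≤ h12 Y θ y := h2
  exact ⟨by omega, Nc, co, F, S, C', hb, hF⟩

lemma C12.fam_sub (W : C12 P r lo hi e T n0 q ρ Y θ B) {A : Finset P} (hA : A ∈ FX lo hi Y θ)
    {z : P} (hz : z ∈ A) : z ∈ CX lo hi Y θ := by
  obtain ⟨y, hy, rfl⟩ := mem_FX.mp hA
  obtain ⟨-, -, t, h3⟩ := mem_CX.mp hy
  obtain ⟨h4, h5⟩ := W.fam_cx h3 hz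
  exact mem_CX.mpr ⟨(J8.mem_fam.mp hz).1, h4, t, h5⟩

lemma C12.not_fam (_W : C12 P r lo hi e T n0 q ρ Y θ B) {z : P}
    (hz : ∀ A ∈ FX lo hi Y θ, z ∉ A) : z ∉ CX lo hi Y θ := fun h =>
  hz _ (mem_FX.mpr ⟨z, h, rfl⟩) (J8.fam_self (mem_CX.mp h).1)

/-- a (C) element and another boundary element -/
lemma C12.pair (W : C12 P r lo hi e T n0 q ρ Y θ B)
    (h713 : ∀ z ∈ bdR (unnat (N12 Y)), cst 6 (h12 Y θ) z ≠ 7 ∧ cst 6 (h12 Y θ) z ≠ 13)
    (hT : 21 ≤ T) {z z' : P} (hzR : z ∈ unnat (N12 Y)) (hz : h12 Y θ z = 1)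
    {t : Tops P} (hx : IsCx t (b12 lo hi t) (θ t) z) (hz' : z' ∈ bdR (unnat (N12 Y)))
    (hne : z' ∉ J8.fam (unnat (N12 Y)) z) :
    20 < ∑ x, max (ez 6 (h12 Y θ) z x) (ez 6 (h12 Y θ) z' x) := by
  classical
  have H := W.K.gt.H
  have hc := cx_cost H.gradedBelow hz hx
  obtain ⟨Nc, co, F, S, C, hb, hF⟩ := hx
  have hlz := C.lev_z H.gradedBelow
  have hlz' := W.lev13 (mem_filter.mp hz').1
  have hle : ¬ z ≤ z' := by
    intro h
    rcases eq_or_lt_of_le h with h1 | h1
    · apply hne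
      rw [← h1]
      exact J8.mem_fam.mpr ⟨by rw [h1]; exact hz', fun _ => Iff.rfl⟩
    · have := lev_strictAnti h1
      omega
  have h0 : ez 6 (h12 Y θ) z z' = 0 := by
    unfold ez
    rw [if_neg hle]
  have h1 : ez 6 (h12 Y θ) z' z' = h12 Y θ z' := ez_self (W.lad.le_lev hz')
  have hone := W.lad.one_le hz'
  have hone' : 1 ≤ h12 Y θ z' := hone
  have hgen : cst 6 (h12 Y θ) z' ≤
      ∑ x, max (ez 6 (h12 Y θ) z x) (ez 6 (h12 Y θ) z' x) :=
    Finset.sum_le_sum fun x _ => le_max_right _ _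
  -- the sum
  have hsum : ∀ T : Finset P, (∀ x ∈ T, ¬ z ≤ x) →
      19 + ∑ x ∈ T, ez 6 (h12 Y θ) z' x ≤
        ∑ x, max (ez 6 (h12 Y θ) z x) (ez 6 (h12 Y θ) z' x) := by
    intro T hT
    have e1 : cst 6 (h12 Y θ) z = ∑ x, ez 6 (h12 Y θ) z x := rfl
    rw [← hc, e1, ← Finset.sum_add_sum_compl T (fun x => max (ez 6 (h12 Y θ) z x) _),
      ← Finset.sum_add_sum_compl T (fun x => ez 6 (h12 Y θ) z x)]
    have e2 : ∑ x ∈ T, ez 6 (h12 Y θ) z x = 0 := by
      refine Finset.sum_eq_zero fun x hx => ?_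
      unfold ez
      rw [if_neg (hT x hx)]
    have e3 : ∑ x ∈ Tᶜ, ez 6 (h12 Y θ) z x ≤
        ∑ x ∈ Tᶜ, max (ez 6 (h12 Y θ) z x) (ez 6 (h12 Y θ) z' x) :=
      Finset.sum_le_sum fun x _ => le_max_left _ _
    have e4 : ∑ x ∈ T, ez 6 (h12 Y θ) z' x ≤
        ∑ x ∈ T, max (ez 6 (h12 Y θ) z x) (ez 6 (h12 Y θ) z' x) :=
      Finset.sum_le_sum fun x _ => le_max_right _ _
    omega
  rcases Nat.lt_or_ge (h12 Y θ z') 2 with h2 | h2
  swap
  · have h3 := hsum {z'} (fun x hx => by rw [mem_singleton.mp hx]; exact hle)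
    rw [Finset.sum_singleton, h1] at h3
    omega
  have h3 : h12 Y θ z' = 1 := by omega
  by_cases hcost : 21 ≤ cst 6 (h12 Y θ) z'
  · omega
  -- a cover which is not above `z`
  have hcov : ∃ y, z' ⋖ y ∧ ¬ z ≤ y ∧ 7 ≤ lev y := by
    by_contra hcon
    push Not at hcon
    obtain ⟨x, hx, hzx, hh⟩ := hcan_spec (θ := th12 θ) hz'
    have hlx := (H.covBy_iff.mp hzx).2
    have hzx' : z ≤ x := by
      by_contra h6
      have := hcon x hzx h6
      omega
    have hx12 : lev x = 12 := by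
      have h4 : lev x ≤ 13 := by
        rcases eq_or_lt_of_le hzx' with h5 | h5
        · rw [← h5, hlz]
        · have := lev_strictAnti h5
          omega
      rcases Nat.lt_or_ge (lev x) 13 with h5 | h5
      · omega
      · exfalso
        have h6 : z = x := by
          rcases eq_or_lt_of_le hzx' with h7 | h7
          · exact h7
          · have := lev_strictAnti h7
            omega
        exact hx (by rw [← h6]; exact hzR)
    have hly : ∀ y, z' ⋖ y → lev y = 12 := fun y hy => by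
      have := (H.covBy_iff.mp hy).2
      omega
    have hFS : ∀ y, z' ⋖ y → y = F ∨ y = S := by
      intro y hy
      have h5 : z ≤ y := by
        by_contra h6
        have := hcon y hy h6
        have := hly y hy
        omega
      have h6 : z < y := lt_of_le_of_ne h5 (by
        rintro rfl
        have := hly z hy
        omega)
      have hyl := hly y hy
      rcases C.lt_iff.mp h6 with h7 | h7
      · left
        rcases eq_or_lt_of_le h7 with h8 | h8
        · exact h8.symm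
        · have := lev_strictAnti h8
          have := C.lev_F
          omega
      · right
        rcases eq_or_lt_of_le h7 with h8 | h8
        · exact h8.symm
        · have := lev_strictAnti h8
          have := C.lev_S
          omega
    by_cases hp : ∀ y, z' ⋖ y → y = x
    · -- a pendant with label one
      rcases W.kind hz' with h5 | ⟨x', hp', -, -, h6, h7⟩ | ⟨x', x'', hj⟩ | ⟨t', hq', h8, h9⟩
      · omega
      · have hn : ∀ k, k ≤ 12 → nab k z' = nab k x' := fun k hk => nab_pend hp' (by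
          have := (H.covBy_iff.mp hp'.1).2
          omega)
        have n12 : nab 12 z' = 1 := by
          rw [hn 12 le_rfl]
          have := nab_self (z := x')
          rwa [h7] at this
        have hl13 : lev z' = 13 := by omega
        have hct := ct_one13 hl13
        have h5 := h713 z' hz'
        rw [cst_ct h3] at h5
        rcases h6 with ⟨g6, g7, g8, g9, g10, g11⟩ | ⟨g6, g7, g8, g9, g10, g11⟩
        · rw [← hn _ (by norm_num)] at g6 g7 g8 g9 g10 g11
          omega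
        · rw [← hn _ (by norm_num)] at g6 g7 g8 g9 g10 g11
          omega
      · refine hj.ne ?_
        rw [hp x' hj.cov, hp x'' hj.cov']
      · obtain ⟨Nc', co', F', S', C', -⟩ := h9
        have e1 := hp F' C'.zF
        have e2 := hp S' C'.zS
        have e3 := C'.co_F
        have e4 := C'.co_S
        rw [e1] at e3
        rw [e2, e3] at e4
        exact absurd e4 (by decide)
    · -- the same covers
      push Not at hp
      obtain ⟨y, hzy, hyx⟩ := hp
      apply hne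
      rw [J8.mem_fam]
      refine ⟨hz', ?_⟩
      have hFz : z' ⋖ F ∧ z' ⋖ S := by
        rcases hFS x hzx with h5 | h5 <;> rcases hFS y hzy with h6 | h6
        · exact absurd (h6.trans h5.symm) hyx
        · rw [h5] at hzx; rw [h6] at hzy; exact ⟨hzx, hzy⟩
        · rw [h5] at hzx; rw [h6] at hzy; exact ⟨hzy, hzx⟩
        · exact absurd (h6.trans h5.symm) hyx
      refine up_of_cov fun v => ?_
      constructor
      · intro hv
        rcases C.only v hv with h5 | h5
        · rw [h5]; exact hFz.1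
        · rw [h5]; exact hFz.2
      · intro hv
        rcases hFS v hv with h5 | h5
        · rw [h5]; exact C.zF
        · rw [h5]; exact C.zS
  obtain ⟨y, hy1, hy2, hy3⟩ := hcov
  have hyz : z' ≠ y := hy1.1.ne
  have h4 := hsum {z', y} (fun x hx => by
    rw [mem_insert, mem_singleton] at hx
    rcases hx with rfl | rfl
    · exact hle
    · exact hy2)
  rw [Finset.sum_pair hyz, h1] at h4
  have h5 : ez 6 (h12 Y θ) z' y = 1 := by
    unfold ez
    rw [if_pos hy1.1.le, h3]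
    omega
  omega

end

end Pool.Agent.GaussPoset.W6

end

/-! From `Pool.Agent.W_448w6_h53.WeC` -/

section

/-!
Level 12, window 6: the energies below `n0`, the energies 20 and `n0` (MP_448cb3_co, `j = 12`).
-/

namespace Pool.Agent.GaussPoset.W6

set_option linter.unusedSectionVars false

open Polynomial Finset Dd Wd Cl J8

universe u

variable {P : Type u} [Fintype P] [PartialOrder P] [DecidableEq P] {r : ℕ}

section

variable {lo hi : Tops P → ℕ → ℕ} {e : Tops P → ℕ → ℕ → P} {T n0 : ℕ} {q : Prop}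
  {ρ : Tops P → ℤ} {Y : Tops P → Finset P} {θ : Tops P → P → ℕ} {B : Tops P → P → Prop}

/-- the families of the (C) elements at the energies up to 20 -/
theorem C12.famZ (W : C12 P r lo hi e T n0 q ρ Y θ B) (h2 : 2 ≤ n0) {A : Finset P}
    (hA : A ∈ FX lo hi Y θ) :
    (∀ n < 20, (1 + X : ℤ[X]) ^ (lv P 6).card ∣ ZF 6 (h12 Y θ) A n) ∧
      Lv (lv P 6).card (ZF 6 (h12 Y θ) A 20) ((A.card : ℤ) * (-1) ^ (below P 6 + 3)) := by
  classical
  have H := W.K.gt.H
  have L := W.lad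
  obtain ⟨z, hz, rfl⟩ := mem_FX.mp hA
  obtain ⟨h1, h2', t, h3⟩ := mem_CX.mp hz
  obtain ⟨Nc, co, F, S, C, hb, hF⟩ := h3
  have key := J8.fam_poleT C (g := 3) (u := 0) (b := b12 lo hi) H W.sys (fun x hx => W.lev13 hx)
    (fun n hn => J8.dvd_restL L W.sys t (by omega)) rfl (by norm_num) (by norm_num)
    (by norm_num) hb (h := h12 Y θ) (A := J8.fam (unnat (N12 Y)) z) (J8.fam_self h1)
    (fun y hy => (J8.mem_fam.mp hy).2)
    (fun y hy => (W.fam_cx ⟨Nc, co, F, S, C, hb, hF⟩ hy).1)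
  have e1 : E0 6 + hh 6 ^ 2 = 20 := by decide +kernel
  rw [e1, W.sum_b] at key
  refine ⟨key.1, Lv.congr key.2 ?_⟩
  have e2 : (((J8.fam (unnat (N12 Y)) z).card : ℕ) : ℤ) * (-1) ^ (below P 6 + 3) =
      ∑ _y ∈ J8.fam (unnat (N12 Y)) z, (-1 : ℤ) ^ (below P 6 + (0 + 1) * 3) := by
    rw [Finset.sum_const, nsmul_eq_mul]
  rw [e2]
  exact Lv.sum _ fun y _ => Lv.mono _ _

lemma C12.card_pos (W : C12 P r lo hi e T n0 q ρ Y θ B) (t : Tops P) : 1 ≤ (lv P 6).card := by
  rw [← W.sum_b]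
  have h1 : b12 lo hi t ≤ ∑ t, b12 lo hi t :=
    Finset.single_le_sum (f := b12 lo hi) (fun _ _ => Nat.zero_le _) (mem_univ t)
  have h2 : 1 ≤ b12 lo hi t := (W.ts t).cost.b_one
  omega

lemma C12.off (W : C12 P r lo hi e T n0 q ρ Y θ B) {z : P} (hz : z ∉ CX lo hi Y θ) :
    ∀ A ∈ FX lo hi Y θ, z ∉ A := fun _ hA hzA => hz (W.fam_sub hA hzA)

/-- one energy: the general form -/
theorem C12.gen (W : C12 P r lo hi e T n0 q ρ Y θ B) {n B' : ℕ} (hn : n ≤ n0)
    (hX : n < 19 ∨ (n ≤ 20 ∧ 21 ≤ T ∧ ∀ z ∈ bdR (unnat (N12 Y)),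
      cst 6 (h12 Y θ) z ≠ 7 ∧ cst 6 (h12 Y θ) z ≠ 13) ∨ CX lo hi Y θ = ∅)
    (hB1 : 1 ≤ B') (hB' : B' ≤ (lv P 6).card)
    (hcost : ∀ z ∈ bdR (unnat (N12 Y)), z ∉ CX lo hi Y θ → n ≤ cst 6 (h12 Y θ) z)
    {s ν : ℤ} (hs : s ≠ 0) (hν : 0 ≤ ν)
    (hnat : Lv B' (Z {x : P // x ∉ unnat (N12 Y)} 6 n) (ν * s)) (cA : Finset P → ℤ)
    (hA : ∀ A ∈ FX lo hi Y θ, 0 ≤ cA A ∧ Lv B' (ZF 6 (h12 Y θ) A n) (cA A * s)) (cz : P → ℕ)
    (hz : ∀ z ∈ bdR (unnat (N12 Y)), z ∉ CX lo hi Y θ → cst 6 (h12 Y θ) z = n →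
      Lv B' (Lt 6 (h12 Y θ) z) ((cz z : ℤ) * s)) :
    ν = 0 ∧ (∀ A ∈ FX lo hi Y θ, cA A = 0) ∧ ∀ z ∈ bdR (unnat (N12 Y)), z ∉ CX lo hi Y θ →
      cst 6 (h12 Y θ) z = n → cz z = 0 := by
  classical
  have hgr := W.K.gt.H.gradedBelow
  obtain ⟨k1, k2, k3⟩ := kill W.lad W.K.gt.H.gauss W.sum_b hn hB1 hB' (FX lo hi Y θ)
    (fun A hA z hz => (mem_CX.mp (W.fam_sub hA hz)).1)
    (fun z hz hno => hcost z hz (W.not_fam hno))
    (by
      intro A hA z hz z' hz' hne
      obtain ⟨hzb, hz1, t, hx⟩ := mem_CX.mp (W.fam_sub hA hz)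
      rcases hX with hX | ⟨hX, hT, h713⟩ | hX
      · have h1 := cx_cost hgr hz1 hx
        have h2 : cst 6 (h12 Y θ) z ≤
            ∑ x, max (ez 6 (h12 Y θ) z x) (ez 6 (h12 Y θ) z' x) :=
          Finset.sum_le_sum fun x _ => le_max_left _ _
        refine lt_of_lt_of_le ?_ h2
        omega
      · have h1 := W.pair h713 hT (mem_filter.mp hzb).1 hz1 hx hz' (by
          intro hcon
          apply hne
          obtain ⟨y, hy, rfl⟩ := mem_FX.mp hA
          rwa [J8.fam_eq hz (J8.fam_self hzb)])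
        exact lt_of_le_of_lt hX h1
      · have := W.fam_sub hA hz
        rw [hX] at this
        exact absurd this (Finset.notMem_empty _))
    (by
      intro A hA A' hA' hne' z hz hz'
      obtain ⟨y, -, rfl⟩ := mem_FX.mp hA
      obtain ⟨y', -, rfl⟩ := mem_FX.mp hA'
      exact hne' (J8.fam_eq hz hz'))
    hs hν hnat cA hA (fun z => (cz z : ℤ))
    (fun z hz' hno hc => ⟨by positivity, hz z hz' (W.not_fam hno) hc⟩)
  refine ⟨k1, k2, fun z hz1 hz2 hz3 => ?_⟩
  have := k3 z hz1 (W.off hz2) hz3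
  exact_mod_cast this

/-- **The energies below `n0`, different from 20.** -/
theorem C12.step (W : C12 P r lo hi e T n0 q ρ Y θ B) {n s B' : ℕ} (hn : n < n0) (h2 : 2 ≤ n0)
    (hX : n < 19 ∨ (n = 19 ∧ 21 ≤ T ∧ ∀ z ∈ bdR (unnat (N12 Y)),
      cst 6 (h12 Y θ) z ≠ 7 ∧ cst 6 (h12 Y θ) z ≠ 13) ∨ CX lo hi Y θ = ∅)
    (hB1 : 1 ≤ B') (hB' : B' ≤ (lv P 6).card)
    (hcost : ∀ z ∈ bdR (unnat (N12 Y)), z ∉ CX lo hi Y θ → n ≤ cst 6 (h12 Y θ) z)
    (cz : P → ℕ)
    (hz : ∀ z ∈ bdR (unnat (N12 Y)), z ∉ CX lo hi Y θ → cst 6 (h12 Y θ) z = n →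
      Lv B' (Lt 6 (h12 Y θ) z) ((cz z : ℤ) * (-1) ^ s)) :
    ∀ z ∈ bdR (unnat (N12 Y)), z ∉ CX lo hi Y θ → cst 6 (h12 Y θ) z = n → cz z = 0 := by
  have h1 := W.lad.nat_low hn
  rw [W.sum_b] at h1
  refine (W.gen hn.le ?_ hB1 hB' hcost (s := (-1) ^ s) (ν := 0)
    (pow_ne_zero _ (by norm_num)) le_rfl ?_ (fun _ => 0) ?_ cz hz).2.2
  · rcases hX with hX | ⟨hX, h3⟩ | hX
    · exact Or.inl hX
    · exact Or.inr (Or.inl ⟨by omega, h3⟩)
    · exact Or.inr (Or.inr hX)
  · rw [zero_mul]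
    exact Lv.zero ((pow_dvd_pow _ hB').trans h1)
  · intro A hA
    refine ⟨le_rfl, ?_⟩
    rw [zero_mul]
    have h20 : n < 20 := by
      rcases hX with hX | ⟨hX, h3⟩ | hX
      · omega
      · omega
      · obtain ⟨y, hy, -⟩ := mem_FX.mp hA
        rw [hX] at hy
        exact absurd hy (Finset.notMem_empty _)
    exact Lv.zero ((pow_dvd_pow _ hB').trans ((W.famZ h2 hA).1 n h20))

/-- **The energy 20.** -/
theorem C12.twenty (W : C12 P r lo hi e T n0 q ρ Y θ B) (hn : 20 < n0) (hT : 21 ≤ T)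
    (h713 : ∀ z ∈ bdR (unnat (N12 Y)), cst 6 (h12 Y θ) z ≠ 7 ∧ cst 6 (h12 Y θ) z ≠ 13)
    (hcost : ∀ z ∈ bdR (unnat (N12 Y)), z ∉ CX lo hi Y θ → 20 ≤ cst 6 (h12 Y θ) z)
    (cz : P → ℕ)
    (hz : ∀ z ∈ bdR (unnat (N12 Y)), z ∉ CX lo hi Y θ → cst 6 (h12 Y θ) z = 20 →
      Lv (lv P 6).card (Lt 6 (h12 Y θ) z) ((cz z : ℤ) * (-1) ^ (below P 6 + 3))) :
    CX lo hi Y θ = ∅ ∧ ∀ z ∈ bdR (unnat (N12 Y)), cst 6 (h12 Y θ) z = 20 → cz z = 0 := by
  classical
  rcases isEmpty_or_nonempty (Tops P) with he | ⟨⟨t⟩⟩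
  · have h0 : ∀ z : P, False := fun z => he.elim (topOf z)
    exact ⟨Finset.eq_empty_of_forall_notMem fun z _ => h0 z, fun z => (h0 z).elim⟩
  have h1 := W.lad.nat_low hn
  rw [W.sum_b] at h1
  obtain ⟨-, k2, k3⟩ := W.gen hn.le (Or.inr (Or.inl ⟨le_rfl, hT, h713⟩)) (W.card_pos t) le_rfl
    hcost (s := (-1) ^ (below P 6 + 3)) (ν := 0) (pow_ne_zero _ (by norm_num)) le_rfl
    (by rw [zero_mul]; exact Lv.zero h1) (fun A => (A.card : ℤ))
    (fun A hA => ⟨by positivity, (W.famZ (by omega) hA).2⟩) cz hz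
  have hX : CX lo hi Y θ = ∅ := by
    refine Finset.eq_empty_of_forall_notMem fun z hz' => ?_
    have h3 := k2 _ (mem_FX.mpr ⟨z, hz', rfl⟩)
    have h4 : 0 < (J8.fam (unnat (N12 Y)) z).card :=
      Finset.card_pos.mpr ⟨z, J8.fam_self (mem_CX.mp hz').1⟩
    omega
  refine ⟨hX, fun z h3 h4 => k3 z h3 ?_ h4⟩
  rw [hX]
  exact Finset.notMem_empty _

/-- **The energy `n0`.** -/
theorem C12.last (W : C12 P r lo hi e T n0 q ρ Y θ B) (h1 : 1 ≤ n0)
    (hX : CX lo hi Y θ = ∅) {σ : ℤ} (hσ : σ ≠ 0) (hρ : ∀ t, 0 ≤ σ * ρ t) (hσ1 : σ * σ = 1)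
    (hcost : ∀ z ∈ bdR (unnat (N12 Y)), n0 ≤ cst 6 (h12 Y θ) z) (cz : P → ℕ)
    (hz : ∀ z ∈ bdR (unnat (N12 Y)), cst 6 (h12 Y θ) z = n0 →
      Lv (lv P 6).card (Lt 6 (h12 Y θ) z) ((cz z : ℤ) * (σ * (-1) ^ below P 6))) :
    (∀ t, ρ t = 0) ∧ ∀ z ∈ bdR (unnat (N12 Y)), cst 6 (h12 Y θ) z = n0 → cz z = 0 := by
  classical
  rcases isEmpty_or_nonempty (Tops P) with he | ⟨⟨t⟩⟩
  · have h0 : ∀ z : P, False := fun z => he.elim (topOf z)
    exact ⟨fun t => he.elim t, fun z => (h0 z).elim⟩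
  have hnat := W.lad.nat_lv h1 (fun t => (W.ts t).cost.b_one) ⟨t⟩ W.sum_b ρ (fun t =>
    (W.ts t).pl (N12 Y) W.sys (low12 Y) rfl)
  have hν : 0 ≤ ∑ t, σ * ρ t := Finset.sum_nonneg fun t _ => hρ t
  obtain ⟨k1, -, k3⟩ := W.gen (n := n0) (B' := (lv P 6).card) le_rfl (Or.inr (Or.inr hX))
    (W.card_pos t) le_rfl (fun z h _ => hcost z h) (s := σ * (-1) ^ below P 6)
    (ν := ∑ t, σ * ρ t) (mul_ne_zero hσ (pow_ne_zero _ (by norm_num))) hν
    (by
      have e1 : (∑ t, σ * ρ t) * (σ * (-1) ^ below P 6) = (∑ t, ρ t) * (-1) ^ below P 6 := by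
        rw [← Finset.mul_sum]
        calc σ * (∑ t, ρ t) * (σ * (-1) ^ below P 6) =
            (σ * σ) * ((∑ t, ρ t) * (-1) ^ below P 6) := by ring
          _ = _ := by rw [hσ1, one_mul]
      rw [e1]
      exact hnat)
    (fun _ => 0)
    (by
      intro A hA
      obtain ⟨y, hy, -⟩ := mem_FX.mp hA
      rw [hX] at hy
      exact absurd hy (Finset.notMem_empty _)) cz (fun z h _ h3 => hz z h h3)
  refine ⟨fun t => ?_, fun z h3 h4 => k3 z h3 (by rw [hX]; exact Finset.notMem_empty _) h4⟩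
  have h2 := (Finset.sum_eq_zero_iff_of_nonneg (fun t _ => hρ t)).mp k1 t (mem_univ t)
  exact (mul_eq_zero.mp h2).resolve_left hσ

end

end Pool.Agent.GaussPoset.W6

end

/-! From `Pool.Agent.W_448w6_h53.WeD` -/

section

/-!
Level 12, window 6: the costs of the joins; the energies 7 and 13
(MP_448cb3_co, `j = 12`).
-/

namespace Pool.Agent.GaussPoset.W6

set_option linter.unusedSectionVars false

open Polynomial Finset Dd Wd Cl J8

universe u

variable {P : Type u} [Fintype P] [PartialOrder P] [DecidableEq P] {r : ℕ}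

/-- the cost of an element of level 13 with label one -/
noncomputable def S13 (z : P) : ℕ :=
  nab 7 z + nab 8 z + nab 9 z + nab 10 z + nab 11 z + nab 12 z + 1

lemma cst_S13 {h : P → ℕ} {z : P} (hh : h z = 1) (hl : lev z = 13) : cst 6 h z = S13 z := by
  rw [cst_ct hh]
  exact ct_one13 hl

/-- pendants below the fold end and below a quadric -/
lemma pen_cost {h : P → ℕ} {z x : P} (H : Gr P r) (hp : Pend z x) (hl : lev x = 12)
    (hh : h z = 1) : (Fp x → cst 6 h z = 13 ∧ nab 6 z = 4 ∧ nab 7 z = 3) ∧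
      (Qp x → cst 6 h z = 7 ∧ nab 6 z = 2 ∧ nab 7 z = 1) := by
  have hlz := (H.covBy_iff.mp hp.1).2
  have hn : ∀ k, k ≤ 12 → nab k z = nab k x := fun k hk => nab_pend hp (by omega)
  have n12 : nab 12 z = 1 := by
    rw [hn 12 le_rfl]
    have := nab_self (z := x)
    rwa [hl] at this
  have hct := cst_S13 (h := h) (z := z) hh (by omega)
  unfold S13 at hct
  constructor
  · rintro ⟨g6, g7, g8, g9, g10, g11⟩
    rw [← hn _ (by norm_num)] at g6 g7 g8 g9 g10 g11
    exact ⟨by omega, g6, g7⟩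
  · rintro ⟨g6, g7, g8, g9, g10, g11⟩
    rw [← hn _ (by norm_num)] at g6 g7 g8 g9 g10 g11
    exact ⟨by omega, g6, g7⟩

section

variable {lo hi : Tops P → ℕ → ℕ} {e : Tops P → ℕ → ℕ → P} {T n0 : ℕ} {q : Prop}
  {ρ : Tops P → ℤ} {Y : Tops P → Finset P} {θ : Tops P → P → ℕ} {B : Tops P → P → Prop}

/-- the cost of a join -/
lemma Jo.ct_le {z x x' : P} (hj : Jo Y θ z x x') (k : ℕ) :
    ct 6 k x + ct 6 k x' + min k 7 ≤ ct 6 k z := by
  have h13 : nab 13 z = 1 := by
    have := nab_self (z := z)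
    rwa [hj.lz] at this
  unfold ct
  rw [cst_eq, cst_eq, cst_eq, hj.lz, hj.lx, hj.lx']
  rw [Finset.sum_range_succ _ 13, h13, ← Finset.sum_add_distrib]
  norm_num
  refine Finset.sum_le_sum fun l hl => ?_
  rw [mem_range] at hl
  rw [hj.sum l (by omega), Nat.mul_add]

/-- joins with a label different from one -/
lemma C12.jo2 (W : C12 P r lo hi e T n0 q ρ Y θ B) {z x x' : P} (hj : Jo Y θ z x x')
    (hh : h12 Y θ z ≠ 1) : T ≤ cst 6 (h12 Y θ) z := by
  have h0 : θ (topOf x) x ≠ 0 := fun h => hh (by rw [hj.lab, h])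
  have h1 := (W.ts (topOf x)).cost.endc x (le_topOf x) hj.lx hj.uc h0
  have h2 := hj.ct_le (θ (topOf x) x + 1)
  have h3 := ct_two (k := θ (topOf x) x + 1) hj.lx' (by omega)
  rw [cst_ct hj.lab]
  have h4 : 2 ≤ min (θ (topOf x) x + 1) 7 := by omega
  omega

/-- **The kinds of the boundary elements with their costs.** -/
theorem C12.kd (W : C12 P r lo hi e T n0 q ρ Y θ B) {z : P} (hz : z ∈ bdR (unnat (N12 Y))) :
    T ≤ cst 6 (h12 Y θ) z ∨
    (h12 Y θ z = 1 ∧ cst 6 (h12 Y θ) z = 7 ∧ nab 6 z = 2 ∧ nab 7 z = 1) ∨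
    (h12 Y θ z = 1 ∧ cst 6 (h12 Y θ) z = 13 ∧ nab 6 z = 4 ∧ nab 7 z = 3) ∨
    (h12 Y θ z = 1 ∧ cst 6 (h12 Y θ) z = S13 z ∧
      ∃ x x', Jo Y θ z x x' ∧ (Fp x ∨ Qp x)) ∨
    (q ∧ z ∈ CX lo hi Y θ) := by
  rcases W.kind hz with h1 | ⟨x, hp, hh, h0, hx, hl⟩ | ⟨x, x', hj⟩ | ⟨t, hq, hh, hx⟩
  · exact Or.inl h1
  · rcases hx with hx | hx
    · obtain ⟨a, b, c⟩ := (pen_cost W.K.gt.H hp hl hh).1 hx
      exact Or.inr (Or.inr (Or.inl ⟨hh, a, b, c⟩))
    · obtain ⟨a, b, c⟩ := (pen_cost W.K.gt.H hp hl hh).2 hx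
      exact Or.inr (Or.inl ⟨hh, a, b, c⟩)
  · by_cases hh : h12 Y θ z = 1
    · right; right; right; left
      refine ⟨hh, cst_S13 hh hj.lz, x, x', hj, ?_⟩
      refine ((W.ts (topOf x)).cost.ends x (le_topOf x) hj.lx hj.uc).2 ?_
      have := hj.lab
      omega
    · exact Or.inl (W.jo2 hj hh)
  · exact Or.inr (Or.inr (Or.inr (Or.inr ⟨hq, mem_CX.mpr ⟨hz, hh, t, hx⟩⟩)))

/-- elements of cost 7 and 13 -/
theorem C12.no713 (W : C12 P r lo hi e T n0 q ρ Y θ B) (hn : 13 < n0) (hT : 14 ≤ T)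
    (hJ : ∀ z x x', Jo Y θ z x x' → h12 Y θ z = 1 → (Fp x ∨ Qp x) → 14 ≤ S13 z) :
    ∀ z ∈ bdR (unnat (N12 Y)), cst 6 (h12 Y θ) z ≠ 7 ∧ cst 6 (h12 Y θ) z ≠ 13 := by
  classical
  have hgr := W.K.gt.H.gradedBelow
  have hcx : ∀ z ∈ CX lo hi Y θ, cst 6 (h12 Y θ) z = 19 := by
    intro z hz
    obtain ⟨-, h1, t, h2⟩ := mem_CX.mp hz
    exact cx_cost hgr h1 h2
  -- the kinds
  have key : ∀ z ∈ bdR (unnat (N12 Y)), 14 ≤ cst 6 (h12 Y θ) z ∨
      (h12 Y θ z = 1 ∧ cst 6 (h12 Y θ) z = 7 ∧ nab 6 z = 2 ∧ nab 7 z = 1) ∨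
      (h12 Y θ z = 1 ∧ cst 6 (h12 Y θ) z = 13 ∧ nab 6 z = 4 ∧ nab 7 z = 3) := by
    intro z hz
    rcases W.kd hz with h1 | h1 | h1 | ⟨h1, h2, x, x', h3, h4⟩ | ⟨-, h1⟩
    · exact Or.inl (by omega)
    · exact Or.inr (Or.inl h1)
    · exact Or.inr (Or.inr h1)
    · have := hJ z x x' h3 h1 h4
      exact Or.inl (by omega)
    · have := hcx z h1
      exact Or.inl (by omega)
  have n7 : ∀ z ∈ bdR (unnat (N12 Y)), cst 6 (h12 Y θ) z ≠ 7 := by
    intro z hz h7
    have hzX : z ∉ CX lo hi Y θ := fun h => by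
      have := hcx z h
      omega
    refine absurd (W.step (n := 7) (s := below P 6 + 2) (by omega) (by omega)
      (Or.inl (by norm_num)) (W.card_pos (topOf z)) le_rfl ?_ (fun _ => 1) ?_ z hz hzX h7)
      one_ne_zero
    · intro y hy _
      rcases key y hy with h1 | ⟨-, h1, -⟩ | ⟨-, h1, -⟩ <;> omega
    · intro y hy _ hc
      rcases key y hy with h1 | ⟨h1, -, h2, h3⟩ | ⟨-, h1, -⟩
      · omega
      · have h4 := lv_lt (h := h12 Y θ) (z := y) h1 (B' := (lv P 6).card) (by omega)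
        rw [h2] at h4
        rw [Nat.cast_one, one_mul]
        exact h4
      · omega
  have n13 : ∀ z ∈ bdR (unnat (N12 Y)), cst 6 (h12 Y θ) z ≠ 13 := by
    intro z hz h13
    have hzX : z ∉ CX lo hi Y θ := fun h => by
      have := hcx z h
      omega
    refine absurd (W.step (n := 13) (s := below P 6 + 4) (by omega) (by omega)
      (Or.inl (by norm_num)) (W.card_pos (topOf z)) le_rfl ?_ (fun _ => 1) ?_ z hz hzX h13)
      one_ne_zero
    · intro y hy _
      have h0 := n7 y hy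
      rcases key y hy with h1 | ⟨-, h1, -⟩ | ⟨-, h1, -⟩ <;> omega
    · intro y hy _ hc
      rcases key y hy with h1 | ⟨-, h1, -⟩ | ⟨h1, -, h2, h3⟩
      · omega
      · omega
      · have h4 := lv_lt (h := h12 Y θ) (z := y) h1 (B' := (lv P 6).card) (by omega)
        rw [h2] at h4
        rw [Nat.cast_one, one_mul]
        exact h4
  exact fun z hz => ⟨n7 z hz, n13 z hz⟩

/-- the costs of joins with a fold end -/
lemma Jo.fold {z x x' : P} (hj : Jo Y θ z x x') (hx : Fp x) :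
    nab 7 z + 15 ≤ S13 z ∧ 5 ≤ nab 6 z ∧ 4 ≤ nab 7 z := by
  obtain ⟨g6, g7, g8, g9, g10, g11⟩ := hx
  have n12 : nab 12 x = 1 := by
    have := nab_self (z := x)
    rwa [hj.lx] at this
  have hn : ∀ k, k ≤ 12 → nab k x + 1 ≤ nab k z := fun k hk => by
    have h1 := one_le_nab (z := x') (l := k) (by rw [hj.lx']; exact hk)
    have h2 := hj.sum k hk
    omega
  have m6 := hn 6 (by norm_num)
  have m7 := hn 7 (by norm_num)
  have m8 := hn 8 (by norm_num)
  have m9 := hn 9 (by norm_num)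
  have m10 := hn 10 (by norm_num)
  have m11 := hn 11 (by norm_num)
  have m12 := hn 12 (by norm_num)
  unfold S13
  exact ⟨by omega, by omega, by omega⟩

/-- the covers of a join are in the boundary -/
lemma C12.jn_bd (W : C12 P r lo hi e T n0 q ρ Y θ B) {z x x' : P} (hl : lev z = 13)
    (hzx : z ⋖ x) (hzx' : z ⋖ x') (hne : topOf x ≠ topOf x') : z ∈ bdR (unnat (N12 Y)) := by
  classical
  have H := W.K.gt.H
  have l1 := (H.covBy_iff.mp hzx).2
  have l2 := (H.covBy_iff.mp hzx').2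
  have hzR : z ∈ unnat (N12 Y) := by
    rw [mem_unnat]
    intro s hs
    have h1 := W.sys.topOf_eq (W.sys.up s z hs x hzx.1.le)
    have h2 := W.sys.topOf_eq (W.sys.up s z hs x' hzx'.1.le)
    exact hne (h1.trans h2.symm)
  unfold bdR
  rw [mem_filter]
  exact ⟨hzR, x, W.nat12 (by omega), hzx⟩

/-- joins as boundary elements -/
lemma C12.jn_jo (W : C12 P r lo hi e T n0 q ρ Y θ B) {z x x' : P} (hl : lev z = 13)
    (hzx : z ⋖ x) (hzx' : z ⋖ x') (hne : topOf x ≠ topOf x') (h0 : θ (topOf x) x = 0) :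
    h12 Y θ z = 1 ∧ Jo Y θ z x x' := by
  have H := W.K.gt.H
  have l1 := (H.covBy_iff.mp hzx).2
  have l2 := (H.covBy_iff.mp hzx').2
  have hzb := W.jn_bd hl hzx hzx' hne
  have h1 := W.h_le hzx (le_topOf x) (by omega)
  have h1' := W.h_le hzx' (le_topOf x') (by omega)
  have h2 := W.lad.one_le hzb
  have h2' : 1 ≤ h12 Y θ z := h2
  have hh : h12 Y θ z = 1 := by omega
  have hon : ∀ v : P, lev v = 12 → v ∈ onlyB (topOf v) := fun v hv =>
    only_low W.K.gt v (le_topOf v) hv.le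
  have hcg : Sm.Cg z x x' := Sm.Cg.mk' hzx hzx' (hon x (by omega)) (hon x' (by omega)) hne
  obtain ⟨u1, u2⟩ := W.K.ends hcg hl
  exact ⟨hh, ⟨hzx, hzx', hne, hl, by omega, by omega, by omega, h1', u1, u2,
    fun k hk => hcg.sum H (by omega)⟩⟩

/-- (C) elements of a stair -/
lemma C12.cx_mem (W : C12 P r lo hi e T n0 q ρ Y θ B) {t : Tops P} {z : P} (hzY : z ∉ Y t)
    (hx : IsCx t (b12 lo hi t) (θ t) z) : z ∈ CX lo hi Y θ := by
  classical
  have hgr := W.K.gt.H.gradedBelow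
  obtain ⟨Nc, co, F, S', C, hb, hF⟩ := hx
  have hlz := C.lev_z hgr
  have hFt := C.chart.le_t F C.F_mem
  have hzR : z ∈ unnat (N12 Y) := by
    rw [mem_unnat]
    intro s hs
    have h2 := W.sys.topOf_eq (W.sys.up s z hs F C.zF.1.le)
    have h3 := W.top_of hFt C.lev_F.le
    have h4 : s = t := h2.symm.trans h3
    subst h4
    unfold N12 at hs
    rw [mem_union, mem_lowPart] at hs
    rcases hs with hs | hs
    · have := hs.2
      omega
    · exact hzY hs
  have hzb : z ∈ bdR (unnat (N12 Y)) := by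
    unfold bdR
    rw [mem_filter]
    exact ⟨hzR, F, W.nat12 C.lev_F.le, C.zF⟩
  have h1 := W.h_le C.zF hFt C.lev_F.le
  have h2 := W.lad.one_le hzb
  have h2' : 1 ≤ h12 Y θ z := h2
  exact mem_CX.mpr ⟨hzb, by omega, t, Nc, co, F, S', C, hb, hF⟩

end

end Pool.Agent.GaussPoset.W6

end

/-! From `Pool.Agent.W_448w6_h53.WeE` -/

section

/-!
**Level 12, window 6, up to the energy 20**: no (C), no pendant below a fold end, no joins
`(5, 4)` of cost at most 20 and `(6, 4)` of cost 19 (MP_448cb3_co, `j = 12`).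
-/

namespace Pool.Agent.GaussPoset.W6

set_option linter.unusedSectionVars false

open Polynomial Finset Dd Wd Cl J8

universe u

variable {P : Type u} [Fintype P] [PartialOrder P] [DecidableEq P] {r : ℕ}

/-- **the data of a component up to the energy 23.** -/
theorem exists_A {t : Tops P} {lo hi : ℕ → ℕ} {e : ℕ → ℕ → P} (h : Win.GoodTo P r 12)
    (C : Cp.Comp 12 (t : P) lo hi e) (S : Wd.Shape 12 lo hi) :
    ∃ Y θ B ρ, TS 24 23 True t (hi 6 - lo 6 + 1) ρ Y θ B ∧ 0 ≤ ρ ∧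
      (¬ WordD 12 6 wa6 lo hi → TB 28 True t (hi 6 - lo 6 + 1) Y θ ∧
        DT 28 t (hi 6 - lo 6 + 1) Y θ B) ∧
      (StairShape 12 lo hi → lo 12 = 0 → ∀ z, z ⋖ e 12 6 → z ⋖ e 12 0 →
        z ∉ Y ∧ IsCx t (hi 6 - lo 6 + 1) θ z) ∧
      (WordD 12 6 wa6 lo hi → (∃ z, z ⋖ e 12 6 ∧ z ⋖ e 12 3) → 0 < ρ) := by
  by_cases D : WordD 12 6 wa6 lo hi
  · obtain ⟨Y, θ, B, ρ, h1, h2, h3⟩ := la6A_ts D C h True
    refine ⟨Y, θ, B, ρ, h1, h2, fun hn => absurd D hn, fun S' => ?_, fun _ => h3⟩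
    have e1 := S'.hi 2 (by norm_num)
    have e2 := (D.trunk 2 (by norm_num)).2
    omega
  · obtain ⟨Y, θ, B, ⟨h1, h2⟩, h3⟩ := exists_com h C S D
    exact ⟨Y, θ, B, 0, TS.of h1 h2 (by norm_num) (by norm_num), le_rfl, fun _ => ⟨h1, h2⟩, h3,
      fun hD => absurd hD D⟩

section

variable {lo hi : Tops P → ℕ → ℕ} {e : Tops P → ℕ → ℕ → P} {T n0 : ℕ} {q : Prop}
  {ρ : Tops P → ℤ} {Y : Tops P → Finset P} {θ : Tops P → P → ℕ} {B : Tops P → P → Prop}

/-- the costs of the joins with `nab 6 = 5` -/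
lemma C12.jo5 (W : C12 P r lo hi e T n0 q ρ Y θ B) {z x x' : P} (hj : Jo Y θ z x x')
    (hx : Fp x ∨ Qp x) (h5 : nab 6 z = 5) : 19 ≤ S13 z ∧ (nab 7 z = 5 → 20 ≤ S13 z) := by
  rcases hx with hx | hx
  · have := hj.fold hx
    exact ⟨by omega, fun h => by omega⟩
  · exfalso
    have h1 := hj.sum 6 (by norm_num)
    have h2 := hx.1
    have h3 := ((W.ts (topOf x')).cost.ends x' (le_topOf x') hj.lx' hj.uc').1 (by omega)
    have h4 := h3.2.1
    omega

/-- **The energies 19 and 20.** -/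
theorem C12.upto20 (W : C12 P r lo hi e T n0 q ρ Y θ B) (hn : 20 < n0) (hT : 21 ≤ T)
    (hJ : ∀ z x x', Jo Y θ z x x' → (Fp x ∨ Qp x) → 21 ≤ S13 z ∨ (nab 6 z = 5 ∧ nab 7 z = 4) ∨
      (nab 6 z = 6 ∧ nab 7 z = 4 ∧ S13 z = 19) ∨ (nab 6 z = 5 ∧ nab 7 z = 5)) :
    (∀ z ∈ bdR (unnat (N12 Y)), cst 6 (h12 Y θ) z ≠ 7 ∧ cst 6 (h12 Y θ) z ≠ 13) ∧
    CX lo hi Y θ = ∅ ∧ ∀ z ∈ bdR (unnat (N12 Y)), h12 Y θ z = 1 →
      ¬ (nab 6 z = 5 ∧ nab 7 z = 4 ∧ cst 6 (h12 Y θ) z ≤ 20) ∧
      ¬ (nab 6 z = 6 ∧ nab 7 z = 4 ∧ cst 6 (h12 Y θ) z ≤ 20) := by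
  classical
  have h713 := W.no713 (by omega) (by omega) (by
    intro z x x' hj _ hx
    rcases hJ z x x' hj hx with h | ⟨h, -⟩ | ⟨-, -, h⟩ | ⟨h, -⟩
    · omega
    · have := W.jo5 hj hx h
      omega
    · omega
    · have := W.jo5 hj hx h
      omega)
  -- the kinds
  have key : ∀ z ∈ bdR (unnat (N12 Y)), z ∉ CX lo hi Y θ → 21 ≤ cst 6 (h12 Y θ) z ∨
      (h12 Y θ z = 1 ∧ 19 ≤ cst 6 (h12 Y θ) z ∧ nab 6 z = 5 ∧ nab 7 z = 4) ∨
      (h12 Y θ z = 1 ∧ cst 6 (h12 Y θ) z = 19 ∧ nab 6 z = 6 ∧ nab 7 z = 4) ∨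
      (h12 Y θ z = 1 ∧ 20 ≤ cst 6 (h12 Y θ) z ∧ nab 6 z = 5 ∧ nab 7 z = 5) := by
    intro z hz hX
    obtain ⟨n7, n13⟩ := h713 z hz
    rcases W.kd hz with h1 | ⟨-, h1, -⟩ | ⟨-, h1, -⟩ | ⟨h1, h2, x, x', hj, hx⟩ | ⟨-, h1⟩
    · exact Or.inl (by omega)
    · exact absurd h1 n7
    · exact absurd h1 n13
    · rcases hJ z x x' hj hx with h | ⟨h, h'⟩ | ⟨h, h', h3⟩ | ⟨h, h'⟩
      · exact Or.inl (by omega)
      · have := W.jo5 hj hx h
        exact Or.inr (Or.inl ⟨h1, by omega, h, h'⟩)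
      · exact Or.inr (Or.inr (Or.inl ⟨h1, by omega, h, h'⟩))
      · have := (W.jo5 hj hx h).2 h'
        exact Or.inr (Or.inr (Or.inr ⟨h1, by omega, h, h'⟩))
    · exact absurd h1 hX
  have hcost : ∀ z ∈ bdR (unnat (N12 Y)), z ∉ CX lo hi Y θ → 19 ≤ cst 6 (h12 Y θ) z := by
    intro z hz hX
    rcases key z hz hX with h1 | ⟨-, h1, -⟩ | ⟨-, h1, -⟩ | ⟨-, h1, -⟩ <;> omega
  have hCX : ∀ z ∈ CX lo hi Y θ, cst 6 (h12 Y θ) z = 19 ∧ nab 6 z = 4 := by
    intro z hz
    obtain ⟨-, h1, t, h2⟩ := mem_CX.mp hz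
    refine ⟨cx_cost W.K.gt.H.gradedBelow h1 h2, ?_⟩
    obtain ⟨Nc, co, F, S, C, -, -⟩ := h2
    have h3 := C.nab_z.1
    rw [h3]
    decide +kernel
  -- the joins (6, 4)
  have n64 : ∀ z ∈ bdR (unnat (N12 Y)), h12 Y θ z = 1 →
      ¬ (nab 6 z = 6 ∧ nab 7 z = 4 ∧ cst 6 (h12 Y θ) z ≤ 20) := by
    rintro z hz hh ⟨h6, h4, hc⟩
    have hX : z ∉ CX lo hi Y θ := fun h => by
      have := (hCX z h).2
      omega
    have h19 : cst 6 (h12 Y θ) z = 19 := by
      rcases key z hz hX with h1 | ⟨-, -, h1, -⟩ | ⟨-, h1, -⟩ | ⟨-, -, h1, -⟩ <;> omega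
    have hle := nab_le z 6
    have h3 := W.step (n := 19) (s := below P 6 + 6) (B' := (lv P 6).card - 1) (by omega)
      (by omega) (Or.inr (Or.inl ⟨rfl, hT, h713⟩)) (by omega) (by omega) hcost
      (fun z => if nab 6 z = 6 ∧ nab 7 z = 4 then 1 else 0) (by
        intro y hy hyX hc
        have hle := nab_le y 6
        rcases key y hy hyX with h1 | ⟨h1, -, h2, h3⟩ | ⟨h1, -, h2, h3⟩ | ⟨h1, -, h2, h3⟩
        · omega
        · rw [if_neg (by omega), Nat.cast_zero, zero_mul]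
          exact lv_lt0 h1 (by omega)
        · rw [if_pos ⟨h2, h3⟩, Nat.cast_one, one_mul]
          have h4 := lv_lt (h := h12 Y θ) (z := y) h1 (B' := (lv P 6).card - 1) (by omega)
          rwa [h2] at h4
        · rw [if_neg (by omega), Nat.cast_zero, zero_mul]
          exact lv_lt0 h1 (by omega)) z hz hX h19
    simp only [h6, h4, and_self, if_true] at h3
    exact absurd h3 one_ne_zero
  -- the joins (5, 4) of cost 19
  have n54 : ∀ z ∈ bdR (unnat (N12 Y)), z ∉ CX lo hi Y θ → cst 6 (h12 Y θ) z = 19 →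
      ¬ (nab 6 z = 5 ∧ nab 7 z = 4) := by
    rintro z hz hX hc ⟨h5, h4⟩
    have h3 := W.step (n := 19) (s := below P 6 + 5) (B' := (lv P 6).card) (by omega)
      (by omega) (Or.inr (Or.inl ⟨rfl, hT, h713⟩)) (W.card_pos (topOf z)) le_rfl hcost
      (fun z => if nab 6 z = 5 ∧ nab 7 z = 4 then 1 else 0) (by
        intro y hy hyX hc
        have hle := nab_le y 6
        rcases key y hy hyX with h1 | ⟨h1, -, h2, h3⟩ | ⟨h1, h1', h2, h3⟩ | ⟨h1, -, h2, h3⟩
        · omega
        · rw [if_pos ⟨h2, h3⟩, Nat.cast_one, one_mul]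
          have h4 := lv_lt (h := h12 Y θ) (z := y) h1 (B' := (lv P 6).card) (by omega)
          rwa [h2] at h4
        · exact absurd ⟨h2, h3, by omega⟩ (n64 y hy h1)
        · rw [if_neg (by omega), Nat.cast_zero, zero_mul]
          exact lv_lt0 h1 (by omega)) z hz hX hc
    simp only [h5, h4, and_self, if_true] at h3
    exact absurd h3 one_ne_zero
  -- the energy 20
  obtain ⟨k1, k2⟩ := W.twenty hn hT h713 (by
      intro z hz hX
      have h0 := hcost z hz hX
      by_contra hcon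
      have h19 : cst 6 (h12 Y θ) z = 19 := by omega
      rcases key z hz hX with h1 | ⟨-, -, h2, h3⟩ | ⟨h1, -, h2, h3⟩ | ⟨h1, h5, h2, h3⟩
      · omega
      · exact n54 z hz hX h19 ⟨h2, h3⟩
      · exact n64 z hz h1 ⟨h2, h3, by omega⟩
      · omega)
    (fun z => if nab 6 z = 5 ∧ nab 7 z = 4 then 1 else 0) (by
      intro y hy hyX hc
      have hle := nab_le y 6
      rcases key y hy hyX with h1 | ⟨h1, -, h2, h3⟩ | ⟨h1, h1', h2, h3⟩ | ⟨h1, -, h2, h3⟩
      · omega
      · rw [if_pos ⟨h2, h3⟩, Nat.cast_one, one_mul]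
        have h4 := lv_lt (h := h12 Y θ) (z := y) h1 (B' := (lv P 6).card) (by omega)
        rw [h2] at h4
        have h5 : (-1 : ℤ) ^ (below P 6 + 5) = (-1) ^ (below P 6 + 3) := by
          rw [pow_add, pow_add]
          norm_num
        rwa [h5] at h4
      · omega
      · rw [if_neg (by omega), Nat.cast_zero, zero_mul]
        exact lv_lt0 h1 (by omega))
  refine ⟨h713, k1, fun z hz hh => ⟨?_, n64 z hz hh⟩⟩
  rintro ⟨h5, h4, hc⟩
  have hX : z ∉ CX lo hi Y θ := by
    rw [k1]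
    exact Finset.notMem_empty _
  have h0 := hcost z hz hX
  rcases Nat.lt_or_ge (cst 6 (h12 Y θ) z) 20 with h1 | h1
  · exact n54 z hz hX (by omega) ⟨h5, h4⟩
  · have h2 := k2 z hz (by omega)
    simp only [h5, h4, and_self, if_true] at h2
    exact absurd h2 one_ne_zero

end

end Pool.Agent.GaussPoset.W6

end

/-! From `Pool.Agent.W_448w6_h53.WeF` -/

section

/-!
**Level 12, window 6**: `level12a` (no (C), no pendants below fold ends, no joins `(5, 4)`,
`(6, 4)` of small cost) and `level12` (no fold join, no `{03}`, no doubled `{01}`)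
(MP_448cb3_co, `j = 12`).
-/

namespace Pool.Agent.GaussPoset.W6

set_option linter.unusedSectionVars false

open Polynomial Finset Dd Wd Cl J8

universe u

variable {P : Type u} [Fintype P] [PartialOrder P] [DecidableEq P] {r : ℕ}
variable {lo hi : Tops P → ℕ → ℕ} {e : Tops P → ℕ → ℕ → P}

/-- **Level 12, window 6, up to the energy 20.** -/
theorem level12a (K : Sm.Ctx P r 12 lo hi e)
    (hJ1 : ∀ z x x' : P, lev z = 13 → z ⋖ x → z ⋖ x' → topOf x ≠ topOf x' →
      ((nab 6 x = 2 ∧ nab 7 x = 1) ∨ 3 ≤ nab 6 x) →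
      21 ≤ S13 z ∨ (nab 6 z = 5 ∧ nab 7 z = 4) ∨ (nab 6 z = 6 ∧ nab 7 z = 4 ∧ S13 z = 19) ∨
      (nab 6 z = 5 ∧ nab 7 z = 5)) :
    (∀ t z, StairShape 12 (lo t) (hi t) → lo t 12 = 0 → z ⋖ e t 12 6 → z ⋖ e t 12 0 → False) ∧
    (∀ z x : P, Pend z x → lev x = 12 → (Win.uc x).card = 1 → 3 ≤ nab 6 x → False) ∧
    (∀ z x x' : P, lev z = 13 → z ⋖ x → z ⋖ x' → topOf x ≠ topOf x' → 3 ≤ nab 6 x →
      ¬ (nab 6 z = 5 ∧ nab 7 z = 4 ∧ S13 z ≤ 20) ∧
      ¬ (nab 6 z = 6 ∧ nab 7 z = 4 ∧ S13 z ≤ 20)) := by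
  classical
  have H := K.gt.H
  choose Y θ B ρ hts hρ hcom hcx h03 using fun t : Tops P => exists_A K.gt (K.comp t) (K.shape t)
  have W : C12 P r lo hi e 24 23 True ρ Y θ B := ⟨K, hts⟩
  obtain ⟨h713, hX, hjn⟩ := W.upto20 (by norm_num) (by norm_num) (by
    intro z x x' hj hx
    refine hJ1 z x x' hj.lz hj.cov hj.cov' hj.ne ?_
    rcases hx with hx | hx
    · right
      have := hx.1
      omega
    · left
      exact ⟨hx.1, hx.2.1⟩)
  refine ⟨?_, ?_, ?_⟩
  · intro t z S h0 hz6 hz0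
    obtain ⟨hzY, hx⟩ := hcx t S h0 z hz6 hz0
    have h1 := W.cx_mem hzY hx
    rw [hX] at h1
    exact absurd h1 (Finset.notMem_empty _)
  · intro z x hp hl hu h3
    obtain ⟨h4, h5⟩ := ((W.ts (topOf x)).cost.ends x (le_topOf x) hl hu).1 h3
    have hlz := (H.covBy_iff.mp hp.1).2
    have hzR : z ∈ unnat (N12 Y) := by
      rw [mem_unnat]
      intro s hs
      have h6 : topOf x = s := W.sys.topOf_eq (W.sys.up s z hs x hp.1.1.le)
      unfold N12 at hs
      rw [mem_union, mem_lowPart] at hs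
      rcases hs with hs | hs
      · have := hs.2
        omega
      · have := (W.ts s).cost.Yp z hs x hp hl
        omega
    have hzb : z ∈ bdR (unnat (N12 Y)) := by
      unfold bdR
      rw [mem_filter]
      exact ⟨hzR, x, W.nat12 hl.le, hp.1⟩
    have h7 := W.h_le hp.1 (le_topOf x) hl.le
    have h8 := W.lad.one_le hzb
    have h8' : 1 ≤ h12 Y θ z := h8
    have h9 := ((pen_cost (h := h12 Y θ) H hp hl (by omega)).1 h5).1
    exact (h713 z hzb).2 h9
  · intro z x x' hlz hzx hzx' hne h3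
    have l1 := (H.covBy_iff.mp hzx).2
    have l2 := (H.covBy_iff.mp hzx').2
    have hon : ∀ v : P, lev v = 12 → v ∈ onlyB (topOf v) := fun v hv =>
      only_low K.gt v (le_topOf v) hv.le
    have hcg : Sm.Cg z x x' := Sm.Cg.mk' hzx hzx' (hon x (by omega)) (hon x' (by omega)) hne
    obtain ⟨u1, u2⟩ := K.ends hcg hlz
    obtain ⟨h4, h5⟩ := ((W.ts (topOf x)).cost.ends x (le_topOf x) (by omega) u1).1 h3
    obtain ⟨hh, hj⟩ := W.jn_jo hlz hzx hzx' hne h4
    have hzb := W.jn_bd hlz hzx hzx' hne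
    have h6 := hjn z hzb hh
    rwa [cst_S13 hh hlz] at h6

/-- **Level 12, window 6, the energies 23, 24, 25 and 27.** -/
theorem level12 (K : Sm.Ctx P r 12 lo hi e)
    (hJ2 : ∀ z x x' : P, lev z = 13 → z ⋖ x → z ⋖ x' → topOf x ≠ topOf x' →
      ((nab 6 x = 2 ∧ nab 7 x = 1) ∨ 3 ≤ nab 6 x) →
      (nab 6 z = 6 ∧ nab 7 z = 5 ∧ (S13 z = 23 ∨ S13 z = 24)) ∨
      (nab 6 z = 8 ∧ nab 7 z = 6 ∧ S13 z = 25)) :
    (∀ z x x' : P, lev z = 13 → z ⋖ x → z ⋖ x' → topOf x ≠ topOf x' →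
      ¬ ((nab 6 x = 2 ∧ nab 7 x = 1) ∨ 3 ≤ nab 6 x)) ∧
    (∀ t z, StairShape 12 (lo t) (hi t) → lo t 12 = 0 → z ⋖ e t 12 6 → z ⋖ e t 12 0 → False) ∧
    (∀ t z, WordD 12 6 wa6 (lo t) (hi t) → z ⋖ e t 12 6 → z ⋖ e t 12 3 → False) ∧
    (∀ t z z', WordD 12 6 wa6 (lo t) (hi t) → z ≠ z' → z ⋖ e t 12 6 → z ⋖ e t 12 5 →
      z' ⋖ e t 12 6 → z' ⋖ e t 12 5 → False) := by
  classical
  have H := K.gt.H
  choose Y θ B ρ hts hρ hcom hcx h03 using fun t : Tops P => exists_A K.gt (K.comp t) (K.shape t)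
  have W : C12 P r lo hi e 24 23 True ρ Y θ B := ⟨K, hts⟩
  -- the joins
  have hside : ∀ x : P, (Fp x ∨ Qp x) → ((nab 6 x = 2 ∧ nab 7 x = 1) ∨ 3 ≤ nab 6 x) := by
    intro x hx
    rcases hx with hx | hx
    · right
      have := hx.1
      omega
    · left
      exact ⟨hx.1, hx.2.1⟩
  obtain ⟨h713, hX, -⟩ := W.upto20 (by norm_num) (by norm_num) (by
    intro z x x' hj hx
    rcases hJ2 z x x' hj.lz hj.cov hj.cov' hj.ne (hside x hx) with ⟨-, -, h⟩ | ⟨-, -, h⟩
    · left
      omega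
    · left
      omega)
  -- the energy 23
  have key : ∀ z ∈ bdR (unnat (N12 Y)), 24 ≤ cst 6 (h12 Y θ) z ∨
      (h12 Y θ z = 1 ∧ nab 6 z = 6 ∧ nab 7 z = 5 ∧ cst 6 (h12 Y θ) z = 23) := by
    intro z hz
    obtain ⟨n7, n13⟩ := h713 z hz
    rcases W.kd hz with h1 | ⟨-, h1, -⟩ | ⟨-, h1, -⟩ | ⟨h1, h2, x, x', hj, hx⟩ | ⟨-, h1⟩
    · exact Or.inl h1
    · exact absurd h1 n7
    · exact absurd h1 n13
    · rcases hJ2 z x x' hj.lz hj.cov hj.cov' hj.ne (hside x hx) with ⟨a, b, h⟩ | ⟨a, b, h⟩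
      · rcases h with h | h
        · exact Or.inr ⟨h1, a, b, by omega⟩
        · exact Or.inl (by omega)
      · exact Or.inl (by omega)
    · rw [hX] at h1
      exact absurd h1 (Finset.notMem_empty _)
  obtain ⟨r1, r2⟩ := W.last (by norm_num) hX (σ := 1) one_ne_zero (fun t => by
      rw [one_mul]
      exact hρ t) (by norm_num)
    (fun z hz => by rcases key z hz with h1 | ⟨-, -, -, h1⟩ <;> omega)
    (fun _ => 1) (fun z hz hc => by
      rcases key z hz with h1 | ⟨h1, h2, h3, -⟩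
      · omega
      · have h4 := lv_lt (h := h12 Y θ) (z := z) h1 (B' := (lv P 6).card) (by omega)
        rw [h2] at h4
        have h5 : (-1 : ℤ) ^ (below P 6 + 6) = (-1) ^ below P 6 := by
          rw [pow_add]
          norm_num
        rw [h5] at h4
        rw [Nat.cast_one, one_mul, one_mul]
        exact h4)
  have hC : ∀ t z, StairShape 12 (lo t) (hi t) → lo t 12 = 0 → z ⋖ e t 12 6 → z ⋖ e t 12 0 →
      False := by
    intro t z S h0 hz6 hz0
    obtain ⟨hzY, hx⟩ := hcx t S h0 z hz6 hz0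
    have h1 := W.cx_mem hzY hx
    rw [hX] at h1
    exact absurd h1 (Finset.notMem_empty _)
  have hno : ∀ t z, WordD 12 6 wa6 (lo t) (hi t) → z ⋖ e t 12 6 → z ⋖ e t 12 3 → False := by
    intro t z D h6 h3
    have h1 := h03 t D ⟨z, h6, h3⟩
    rw [r1 t] at h1
    exact lt_irrefl _ h1
  -- the second ladder
  have hq : ∀ t z, z ∉ Y t → ¬ IsCx t (hi t 6 - lo t 6 + 1) (θ t) z := by
    intro t z hzY hx
    have h1 := W.cx_mem hzY hx
    rw [hX] at h1
    exact absurd h1 (Finset.notMem_empty _)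
  have hex : ∀ t : Tops P, ∃ Y θ B ρ, TS 28 27 False t (hi t 6 - lo t 6 + 1) ρ Y θ B ∧ ρ ≤ 0 ∧
      (WordD 12 6 wa6 (lo t) (hi t) → ∀ z z', z ≠ z' → z ⋖ e t 12 6 → z ⋖ e t 12 5 →
        z' ⋖ e t 12 6 → z' ⋖ e t 12 5 → ρ < 0) := by
    intro t
    by_cases D : WordD 12 6 wa6 (lo t) (hi t)
    · obtain ⟨Y, θ, B, ρ, g1, g2, g3⟩ := la6C_ts D (K.comp t) K.gt False (hno t · D)
      exact ⟨Y, θ, B, ρ, g1, g2, fun _ => g3⟩
    · obtain ⟨g1, g2⟩ := hcom t D
      exact ⟨Y t, θ t, B t, 0, TS.of (g1.noq (fun z hz _ => hq t z hz)) g2 le_rfl le_rfl, le_rfl,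
        fun hD => absurd hD D⟩
  choose Y' θ' B' ρ' hts' hρ' h01 using hex
  have W' : C12 P r lo hi e 28 27 False ρ' Y' θ' B' := ⟨K, hts'⟩
  obtain ⟨h713', hX', -⟩ := W'.upto20 (by norm_num) (by norm_num) (by
    intro z x x' hj hx
    rcases hJ2 z x x' hj.lz hj.cov hj.cov' hj.ne (hside x hx) with ⟨-, -, h⟩ | ⟨-, -, h⟩
    · left
      omega
    · left
      omega)
  have key' : ∀ z ∈ bdR (unnat (N12 Y')), 28 ≤ cst 6 (h12 Y' θ') z ∨
      (h12 Y' θ' z = 1 ∧ nab 6 z = 6 ∧ nab 7 z = 5 ∧ (cst 6 (h12 Y' θ') z = 23 ∨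
        cst 6 (h12 Y' θ') z = 24)) ∨
      (h12 Y' θ' z = 1 ∧ nab 6 z = 8 ∧ nab 7 z = 6 ∧ cst 6 (h12 Y' θ') z = 25) := by
    intro z hz
    obtain ⟨n7, n13⟩ := h713' z hz
    rcases W'.kd hz with h1 | ⟨-, h1, -⟩ | ⟨-, h1, -⟩ | ⟨h1, h2, x, x', hj, hx⟩ | ⟨h1, -⟩
    · exact Or.inl h1
    · exact absurd h1 n7
    · exact absurd h1 n13
    · rcases hJ2 z x x' hj.lz hj.cov hj.cov' hj.ne (hside x hx) with ⟨a, b, h⟩ | ⟨a, b, h⟩
      · exact Or.inr (Or.inl ⟨h1, a, b, by omega⟩)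
      · exact Or.inr (Or.inr ⟨h1, a, b, by omega⟩)
    · exact h1.elim
  have hX0 : ∀ z, z ∉ CX lo hi Y' θ' := by
    rw [hX']
    exact fun z => Finset.notMem_empty _
  -- the energies 23 and 24
  have h65 : ∀ n, n = 23 ∨ n = 24 → (∀ z ∈ bdR (unnat (N12 Y')), n ≤ cst 6 (h12 Y' θ') z) →
      ∀ z ∈ bdR (unnat (N12 Y')), cst 6 (h12 Y' θ') z ≠ n := by
    intro n hn hcost z hz hzn
    refine absurd (W'.step (n := n) (s := below P 6 + 6) (by omega) (by norm_num)
      (Or.inr (Or.inr hX')) (W'.card_pos (topOf z)) le_rfl (fun y hy _ => hcost y hy)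
      (fun _ => 1) ?_ z hz (hX0 z) hzn) one_ne_zero
    intro y hy _ hc
    rcases key' y hy with h1 | ⟨h1, h2, h3, -⟩ | ⟨-, -, -, h1⟩
    · omega
    · have h4 := lv_lt (h := h12 Y' θ') (z := y) h1 (B' := (lv P 6).card) (by omega)
      rw [h2] at h4
      rw [Nat.cast_one, one_mul]
      exact h4
    · omega
  have n23 := h65 23 (Or.inl rfl) (fun z hz => by
    rcases key' z hz with h1 | ⟨-, -, -, h1⟩ | ⟨-, -, -, h1⟩ <;> omega)
  have n24 := h65 24 (Or.inr rfl) (fun z hz => by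
    have := n23 z hz
    rcases key' z hz with h1 | ⟨-, -, -, h1⟩ | ⟨-, -, -, h1⟩ <;> omega)
  -- the energy 25
  have n25 : ∀ z ∈ bdR (unnat (N12 Y')), cst 6 (h12 Y' θ') z ≠ 25 := by
    intro z hz hzn
    have hz8 : nab 6 z = 8 := by
      rcases key' z hz with h1 | ⟨-, -, -, h1⟩ | ⟨-, h1, -⟩
      · omega
      · omega
      · exact h1
    have hle := nab_le z 6
    refine absurd (W'.step (n := 25) (s := below P 6 + 8) (B' := (lv P 6).card - 1)
      (by norm_num) (by norm_num)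
      (Or.inr (Or.inr hX')) (by omega) (by omega) (fun y hy _ => ?_)
      (fun _ => 1) ?_ z hz (hX0 z) hzn) one_ne_zero
    · have := n23 y hy
      have := n24 y hy
      rcases key' y hy with h1 | ⟨-, -, -, h1⟩ | ⟨-, -, -, h1⟩ <;> omega
    · intro y hy _ hc
      rcases key' y hy with h1 | ⟨-, -, -, h1⟩ | ⟨h1, h2, h3, -⟩
      · omega
      · omega
      · have hle := nab_le y 6
        have h4 := lv_lt (h := h12 Y' θ') (z := y) h1 (B' := (lv P 6).card - 1) (by omega)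
        rw [h2] at h4
        rw [Nat.cast_one, one_mul]
        exact h4
  have h28 : ∀ z ∈ bdR (unnat (N12 Y')), 28 ≤ cst 6 (h12 Y' θ') z := by
    intro z hz
    have h1 := n23 z hz
    have h2 := n24 z hz
    have h3 := n25 z hz
    rcases key' z hz with h4 | ⟨-, -, -, h4⟩ | ⟨-, -, -, h4⟩ <;> omega
  -- the energy 27
  obtain ⟨s1, -⟩ := W'.last (by norm_num) hX' (σ := -1) (by norm_num) (fun t => by
      have := hρ' t
      omega) (by norm_num) (fun z hz => (h28 z hz).trans' (by norm_num)) (fun _ => 0)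
    (fun z hz hc => by
      have := h28 z hz
      omega)
  refine ⟨?_, hC, hno, ?_⟩
  · intro z x x' hlz hzx hzx' hne hx
    have hzb := W'.jn_bd hlz hzx hzx' hne
    have l1 := (H.covBy_iff.mp hzx).2
    have l2 := (H.covBy_iff.mp hzx').2
    have hon : ∀ v : P, lev v = 12 → v ∈ onlyB (topOf v) := fun v hv =>
      only_low K.gt v (le_topOf v) hv.le
    have hcg : Sm.Cg z x x' := Sm.Cg.mk' hzx hzx' (hon x (by omega)) (hon x' (by omega)) hne
    obtain ⟨u1, u2⟩ := K.ends hcg hlz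
    have hj2 := hJ2 z x x' hlz hzx hzx' hne hx
    have hsum6 : nab 6 z = nab 6 x + nab 6 x' := hcg.sum H (by omega)
    -- a fold side
    have hfold : ∃ y y', z ⋖ y ∧ z ⋖ y' ∧ topOf y ≠ topOf y' ∧ lev y = 12 ∧
        (Win.uc y).card = 1 ∧ 3 ≤ nab 6 y := by
      rcases Nat.lt_or_ge (nab 6 x) 3 with h3 | h3
      · refine ⟨x', x, hzx', hzx, Ne.symm hne, by omega, u2, ?_⟩
        rcases hj2 with ⟨h4, -⟩ | ⟨h4, -⟩ <;> omega
      · exact ⟨x, x', hzx, hzx', hne, by omega, u1, h3⟩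
    obtain ⟨y, y', c1, c2, hne', hl, hu, h3⟩ := hfold
    have h4 := (((W'.ts (topOf y)).cost.ends y (le_topOf y) hl hu).1 h3).1
    obtain ⟨hh, -⟩ := W'.jn_jo hlz c1 c2 hne' h4
    have h5 := h28 z hzb
    rw [cst_S13 hh hlz] at h5
    rcases hj2 with ⟨-, -, h6⟩ | ⟨-, -, h6⟩ <;> omega
  · intro t z z' D hne h6 h5 h6' h5'
    have h1 := h01 t D z z' hne h6 h5 h6' h5'
    rw [s1 t] at h1
    exact lt_irrefl _ h1

end Pool.Agent.GaussPoset.W6

end

/-! From `Pool.Agent.W_448w6_h53.WeG` -/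

section

/-!
**Level 12 without joins of level 13** (case B): no (C) (input HCC at `m = 6`, no hypothesis on the
other components), no `{03}` and no doubled `{01}` in the strips `La6` (MP_448cb3_co).
-/

namespace Pool.Agent.GaussPoset.W6

set_option linter.unusedSectionVars false

open Polynomial Finset Dd Wd Cl J8

universe u

variable {P : Type u} [Fintype P] [PartialOrder P] [DecidableEq P] {r : ℕ}

/-- elements below two tops -/
lemma jn_of {z x x' : P} (hzx : z ⋖ x) (hzx' : z ⋖ x') (hne : topOf x ≠ topOf x') :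
    Hul.Jn z :=
  ⟨topOf x, topOf x', (topOf x).2, (topOf x').2, fun h => hne (Subtype.ext h),
    hzx.1.le.trans (le_topOf x), hzx'.1.le.trans (le_topOf x')⟩

section

variable (h : Win.GoodTo P r 12) {lo hi : Tops P → ℕ → ℕ} {e : Tops P → ℕ → ℕ → P}
  (C : ∀ t : Tops P, Cp.Comp 12 (t : P) (lo t) (hi t) (e t))
  (hS : ∀ t, Wd.Shape 12 (lo t) (hi t))
  (hnj : ∀ z : P, lev z = 13 → ¬ Hul.Jn z)

include h C hS hnj in
/-- **case B at level 12.** -/
theorem caseB :
    (∀ t z, StairShape 12 (lo t) (hi t) → lo t 12 = 0 → z ⋖ e t 12 6 → z ⋖ e t 12 0 → False) ∧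
    (∀ t z, WordD 12 6 wa6 (lo t) (hi t) → z ⋖ e t 12 6 → z ⋖ e t 12 3 → False) ∧
    (∀ t z z', WordD 12 6 wa6 (lo t) (hi t) → z ≠ z' → z ⋖ e t 12 6 → z ⋖ e t 12 5 →
      z' ⋖ e t 12 6 → z' ⋖ e t 12 5 → False) ∧
    (∀ z x : P, Pend z x → lev x = 12 → (Win.uc x).card = 1 → 3 ≤ nab 6 x → False) := by
  have K : Sm.Ctx P r 12 lo hi e := ⟨h, by norm_num, by norm_num, C, hS⟩
  obtain ⟨-, h2, h3, h4⟩ := level12 K fun z x x' hlz hzx hzx' hne _ =>
    absurd (jn_of hzx hzx' hne) (hnj z hlz)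
  obtain ⟨-, h5, -⟩ := level12a K fun z x x' hlz hzx hzx' hne _ =>
    absurd (jn_of hzx hzx' hne) (hnj z hlz)
  exact ⟨h2, h3, h4, h5⟩

end

/-- **there is no element (C) for `m = 6`**, no hypothesis on the other components -/
theorem no_cc_six (h : Win.GoodTo P r (2 * 6)) {lo hi : Tops P → ℕ → ℕ}
    {e : Tops P → ℕ → ℕ → P} (C : ∀ t : Tops P, Cp.Comp (2 * 6) (t : P) (lo t) (hi t) (e t))
    (hS : ∀ t, Wd.Shape (2 * 6) (lo t) (hi t))
    (hnj : ∀ z : P, lev z = 2 * 6 + 1 → ¬ Hul.Jn z) {t : Tops P} {z : P}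
    (S : StairShape (2 * 6) (lo t) (hi t)) (h0 : lo t (2 * 6) = 0)
    (hz1 : z ⋖ e t (2 * 6) 6) (hz2 : z ⋖ e t (2 * 6) 0) : False :=
  (caseB h C hS hnj).1 t z S h0 hz1 hz2

end Pool.Agent.GaussPoset.W6

end
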