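import Mathlib
import Pool.Agent.W_448zz_h61.Ns
import Pool.Agent.W_448zz_h61.M104

/-! From `Pool.Agent.W_448s7s_h5.TuB` -/

section

/-!
Order of the window polynomial at the window `i` of a shifted shape which contains the cell
`(i - 1, i - 1)` (MP_448cb3_co, S7, `j = 13`).
-/

namespace Pool.Agent.GaussPoset.Yg

set_option linter.unusedSectionVars false

open Finset

universe u

section shifted

variable {Q : Type u} [Fintype Q] [PartialOrder Q] [DecidableEq Q] {n w : ℕ}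

/-- the order of the window polynomial of a shifted shape -/
theorem shift_dvd_near {lam : Fin n → ℕ} (h : StrictAnti lam) (hn : ∀ s, lam s ≤ w)
    (e : Q ≃ {p : Fin n × Fin w // (p.2 : ℕ) < lam p.1})
    (he : ∀ x y : Q, x ≤ y ↔ leS (e y : Fin n × Fin w) (e x)) {i : ℕ} (hni : n ≤ i)
    (h1 : ∀ a, 1 ≤ lam a) (h2 : ∀ a : Fin n, i ≤ a + lam a) :
    (1 + Polynomial.X : Polynomial (PowerSeries ℤ)) ^ (n / 2) ∣ W Q i := by
  have hmon : ((1 + Polynomial.X : Polynomial (PowerSeries ℤ)) ^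
      (n / 2)).Monic := by
    apply Polynomial.Monic.pow
    rw [add_comm]
    exact Polynomial.monic_X_add_C 1
  set φ := algebraMap (PowerSeries ℤ) (FractionRing (PowerSeries ℤ)) with hφ
  have hφi : Function.Injective φ := IsFractionRing.injective _ _
  set q := φ qq with hqd
  have hq0 : q ≠ 0 := by
    rw [hqd, ne_eq, map_eq_zero_iff φ hφi]
    exact qq_ne
  have hq : ∀ j : ℕ, 1 - q ^ (j + 1) ≠ 0 := by
    intro j hj
    rw [hqd, ← map_pow, ← map_one φ, ← map_sub, map_eq_zero_iff φ hφi] at hj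
    have h1 := congrArg (PowerSeries.constantCoeff (R := ℤ)) hj
    simp at h1
  have : CharZero (FractionRing (PowerSeries ℤ)) := by
    refine ⟨fun a b hab => ?_⟩
    rw [← map_natCast φ, ← map_natCast φ] at hab
    have h1 := congrArg (PowerSeries.constantCoeff (R := ℤ)) (hφi hab)
    simpa using h1
  obtain ⟨P, hP⟩ := Psi_dvd_near hq0 hq hni h1 h2
  rw [← Polynomial.map_dvd_map φ hφi hmon]
  rw [Polynomial.map_pow, Polynomial.map_add, Polynomial.map_one, Polynomial.map_X]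
  set k := n / 2 with hk
  have key : Polynomial.C (q ^ (∑ b : Fin n, (n - 1 - b))) * (W Q i).map φ =
      Polynomial.C (q ^ (i * Fintype.card Q)) *
        ((1 + Polynomial.X) ^ k * P.comp (-Polynomial.X)) := by
    apply Polynomial.eq_of_infinite_eval_eq
    have hinj : Function.Injective (fun m : ℕ => φ (pt i m)) := by
      intro a b hab
      have hab2 := hφi hab
      unfold pt at hab2
      simp only [neg_inj] at hab2
      have := congrArg PowerSeries.order hab2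
      rw [PowerSeries.order_X_pow, PowerSeries.order_X_pow] at this
      have h2 : i + a + 1 = i + b + 1 := by exact_mod_cast this
      omega
    refine Set.infinite_of_injective_forall_mem hinj fun m => ?_
    simp only [Set.mem_setOf_eq]
    have h3 : (W Q i).eval (pt i m) = qq ^ (i * Fintype.card Q) *
        ((U Q m : Polynomial ℤ) : PowerSeries ℤ) := W_eval i m
    have h4 : ((W Q i).map φ).eval (φ (pt i m)) = φ ((W Q i).eval (pt i m)) := by
      rw [Polynomial.eval_map, Polynomial.eval₂_hom]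
    have h5 : φ (USg qq w m lam) = USg q w m lam := by
      unfold USg
      rw [map_sum]
      exact sum_congr rfl fun f _ => by rw [map_pow]
    have h6 : φ (pt i m) = -q ^ (m + i + 1) := by
      unfold pt
      rw [map_neg, map_pow, hqd, show i + m + 1 = m + i + 1 by ring]
    have h7 := USg_eq q w _ n m lam h hn le_rfl
    rw [Polynomial.eval_mul, Polynomial.eval_C, h4, h3, map_mul, map_pow, U_shift h e he m, h5,
      Polynomial.eval_mul, Polynomial.eval_C, Polynomial.eval_mul, Polynomial.eval_pow,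
      Polynomial.eval_add, Polynomial.eval_one, Polynomial.eval_X, Polynomial.eval_comp,
      Polynomial.eval_neg, Polynomial.eval_X, h6, neg_neg, ← sub_eq_add_neg]
    have h8 := hP m
    rw [← h7] at h8
    linear_combination (q ^ (i * Fintype.card Q)) * h8
  have hu : IsUnit (Polynomial.C (q ^ (∑ b : Fin n, (n - 1 - b)))) :=
    Polynomial.isUnit_C.2 (isUnit_iff_ne_zero.2 (pow_ne_zero _ hq0))
  rw [← hu.dvd_mul_left, key]
  exact Dvd.dvd.mul_left (Dvd.intro _ rfl) _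

/-- coordinates in a shifted shape (the greatest cell is `(0,0)`, cells `(a,c)` with `a ≤ c`): if
it contains the cell `(i - 1,i - 1)` then the window polynomial at `i` has order at least
`i / 2`. -/
theorem shift_dvd_diag (co : Q → ℕ × ℕ) (hinj : Function.Injective co)
    (hge : ∀ x, (co x).1 ≤ (co x).2) (hle : ∀ x y : Q, x ≤ y ↔ co y ≤ co x)
    (hlow : ∀ x : Q, ∀ c ≤ co x, c.1 ≤ c.2 → ∃ y, co y = c) {i : ℕ} (hi1 : 1 ≤ i)
    (hc : ∃ x, co x = (i - 1, i - 1)) :
    (1 + Polynomial.X : Polynomial (PowerSeries ℤ)) ^ (i / 2) ∣ W Q i := by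
  classical
  by_cases hbig : ∃ x, co x = (i, i)
  · exact (pow_dvd_pow _ (by omega)).trans (shift_dvd_cellg co hinj hge hle hlow hbig)
  obtain ⟨x0, hx0⟩ := hc
  set n := (univ : Finset Q).sup (fun x => (co x).1 + 1) with hn
  set w := (univ : Finset Q).sup (fun x => (co x).2 + 1) with hw
  have hn1 : ∀ x : Q, (co x).1 < n := fun x =>
    Nat.lt_of_succ_le (le_sup (f := fun x : Q => (co x).1 + 1) (mem_univ x))
  have hw1 : ∀ x : Q, (co x).2 < w := fun x =>
    Nat.lt_of_succ_le (le_sup (f := fun x : Q => (co x).2 + 1) (mem_univ x))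
  have hmax : ∃ x : Q, (co x).1 + 1 = n := by
    obtain ⟨x, -, hx⟩ := exists_mem_eq_sup (univ : Finset Q) ⟨x0, mem_univ _⟩
      (fun x => (co x).1 + 1)
    exact ⟨x, hx.symm⟩
  obtain ⟨xm, hxm⟩ := hmax
  let lam : Fin n → ℕ := fun s => ((range w).filter (fun c => ∃ x, co x = ((s : ℕ), (s : ℕ) + c))).card
  have hfil : ∀ s : Fin n, ∀ c : ℕ, (∃ x, co x = ((s : ℕ), (s : ℕ) + c)) ↔ c < lam s := by
    intro s c
    have h1 : ∀ c c' : ℕ, c' ≤ c → (∃ x, co x = ((s : ℕ), (s : ℕ) + c)) →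
        ∃ x, co x = ((s : ℕ), (s : ℕ) + c') := by
      rintro c c' hc ⟨x, hx⟩
      exact hlow x _ (by rw [hx]; exact ⟨le_rfl, by simp only; omega⟩) (by simp)
    constructor
    · intro h
      have h2 : range (c + 1) ⊆ (range w).filter (fun c => ∃ x, co x = ((s : ℕ), (s : ℕ) + c)) := by
        intro c' hc'
        rw [mem_range] at hc'
        obtain ⟨x, hx⟩ := h1 c c' (by omega) h
        rw [mem_filter, mem_range]
        refine ⟨?_, x, hx⟩
        have := hw1 x
        rw [hx] at this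
        simp only at this
        omega
      have h3 := card_le_card h2
      rw [card_range] at h3
      exact h3
    · intro h
      by_contra hcon
      have h2 : (range w).filter (fun c => ∃ x, co x = ((s : ℕ), (s : ℕ) + c)) ⊆ range c := by
        intro c' hc'
        rw [mem_filter] at hc'
        rw [mem_range]
        by_contra h3
        exact hcon (h1 c' c (by omega) hc'.2)
      have h3 := card_le_card h2
      rw [card_range] at h3
      have h4 : lam s ≤ c := h3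
      omega
  have hpos : ∀ s, 1 ≤ lam s := by
    intro s
    refine (hfil s 0).1 ?_
    refine hlow xm _ ?_ (by simp)
    have h1 := hge xm
    have h2 := s.2
    exact ⟨by simp only; omega, by simp only; omega⟩
  have hanti : StrictAnti lam := by
    intro s s' hs
    have h1 := hpos s'
    obtain ⟨x, hx⟩ := (hfil s' (lam s' - 1)).2 (by omega)
    have h2 : (s : ℕ) < s' := hs
    obtain ⟨y, hy⟩ := hlow x ((s : ℕ), (s : ℕ) + lam s') (by
      rw [hx]
      exact ⟨by simp only; omega, by simp only; omega⟩) (by simp)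
    exact (hfil s (lam s')).1 ⟨y, hy⟩
  have hlen : ∀ s, lam s ≤ w := by
    intro s
    have h1 := card_filter_le (range w) (fun c => ∃ x, co x = ((s : ℕ), (s : ℕ) + c))
    rw [card_range] at h1
    exact h1
  let toF : Q → {p : Fin n × Fin w // (p.2 : ℕ) < lam p.1} := fun x =>
    ⟨(⟨(co x).1, hn1 x⟩, ⟨(co x).2 - (co x).1, by have := hw1 x; omega⟩),
      (hfil ⟨(co x).1, hn1 x⟩ ((co x).2 - (co x).1)).1 ⟨x, by
        have := hge x
        refine Prod.ext rfl ?_
        simp only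
        omega⟩⟩
  have hbij : Function.Bijective toF := by
    constructor
    · intro x y hxy
      have h1 := congrArg (fun p => (p.1.1 : ℕ)) hxy
      have h2 := congrArg (fun p => (p.1.2 : ℕ)) hxy
      have h3 : (co x).1 = (co y).1 := h1
      have h4 : (co x).2 - (co x).1 = (co y).2 - (co y).1 := h2
      have h5 := hge x
      have h6 := hge y
      exact hinj (Prod.ext h3 (by omega))
    · rintro ⟨⟨s, c⟩, hp⟩
      obtain ⟨x, hx⟩ := (hfil s c).2 hp
      refine ⟨x, ?_⟩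
      apply Subtype.ext
      apply Prod.ext
      · apply Fin.ext
        change (co x).1 = s
        rw [hx]
      · apply Fin.ext
        change (co x).2 - (co x).1 = c
        rw [hx]
        simp
  have hn2 : n ≤ i := by
    by_contra hcon
    refine hbig ?_
    obtain ⟨y, hy⟩ := hlow xm (i, i) ⟨by simp only; omega, by
      have h1 := hge xm
      simp only
      omega⟩ le_rfl
    exact ⟨y, hy⟩
  have hn3 : i ≤ n := by
    have := hn1 x0
    rw [hx0] at this
    simp only at this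
    omega
  have hnn : n = i := by omega
  have h2 : ∀ a : Fin n, i ≤ a + lam a := by
    intro a
    have ha := a.2
    obtain ⟨y, hy⟩ := hlow x0 ((a : ℕ), i - 1) (by rw [hx0]; exact ⟨by simp only; omega, le_rfl⟩)
      (by simp only; omega)
    have h3 := (hfil a (i - 1 - a)).1 ⟨y, by
      rw [hy]
      refine Prod.ext rfl ?_
      simp only
      omega⟩
    omega
  refine (pow_dvd_pow _ (show i / 2 ≤ n / 2 by omega)).trans ?_
  exact shift_dvd_near hanti hlen (Equiv.ofBijective toF hbij) (by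
    intro x y
    rw [hle]
    have h5 := hge x
    have h6 := hge y
    constructor
    · intro h
      have h7 : (co y).1 ≤ (co x).1 := h.1
      have h8 : (co y).2 ≤ (co x).2 := h.2
      exact ⟨h7, by
        change (co y).1 + ((co y).2 - (co y).1) ≤ (co x).1 + ((co x).2 - (co x).1)
        omega⟩
    · intro h
      have h7 : (co y).1 ≤ (co x).1 := h.1
      have h8 : (co y).1 + ((co y).2 - (co y).1) ≤ (co x).1 + ((co x).2 - (co x).1) := h.2
      exact ⟨h7, by omega⟩) hn2 hpos h2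

end shifted

end Pool.Agent.GaussPoset.Yg

namespace Pool.Agent.GaussPoset

set_option linter.unusedSectionVars false

open Finset Yg

universe u v

section Sub

variable {Q : Type u} [Fintype Q] [PartialOrder Q] [DecidableEq Q]

/-- order of the window polynomial of a shifted shape with a poset hung below the end `x1` of the
first row -/
theorem shift_junk_dvd_diag (t1 : Q → Prop) [DecidablePred t1] (co : Q → ℕ × ℕ)
    (x1 : Q) (hx11 : ¬ t1 x1)
    (hlow1 : ∀ x y, x ≤ y → t1 y → t1 x)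
    (hh1 : ∀ x y, t1 x → ¬ t1 y → (x ≤ y ↔ x1 ≤ y))
    (hinj : ∀ x y, ¬ t1 x → ¬ t1 y → co x = co y → x = y)
    (hge : ∀ x, ¬ t1 x → (co x).1 ≤ (co x).2)
    (hle : ∀ x y, ¬ t1 x → ¬ t1 y → (x ≤ y ↔ co y ≤ co x))
    (hdown : ∀ x, ¬ t1 x → ∀ c ≤ co x, c.1 ≤ c.2 → ∃ y, ¬ t1 y ∧ co y = c)
    (hr1 : (∃ x, t1 x) → (co x1).1 = 0 ∧ ∀ y, ¬ t1 y → y ≠ x1 → (co y).2 < (co x1).2)
    {i : ℕ} (hi1 : 1 ≤ i)
    (hcell : ∃ x, ¬ t1 x ∧ co x = (i - 1, i - 1)) :
    (1 + Polynomial.X : Polynomial (PowerSeries ℤ)) ^ (i / 2) ∣ W Q i := by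
  classical
  refine dvd_W_of_hang' t1 x1 hx11 hlow1 hh1 fun a ha => ?_
  let co' : Hang {x : Q // ¬ t1 x} (Fin a)ᵒᵈ ⟨x1, hx11⟩ → ℕ × ℕ :=
    Sum.elim (fun x => co (x : Q)) (fun k => (0, (co x1).2 + 1 + (OrderDual.ofDual k).val))
  have hA : 0 < a → (co x1).1 = 0 ∧ ∀ y, ¬ t1 y → y ≠ x1 → (co y).2 < (co x1).2 := by
    intro h0
    rcases ha with h | h
    · omega
    · exact hr1 h
  have hA' : 0 < a → ∀ y, ¬ t1 y → (co y).2 ≤ (co x1).2 := by
    intro h0 y h1
    by_cases hy : y = x1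
    · rw [hy]
    · exact ((hA h0).2 y h1 hy).le
  refine shift_dvd_diag co' ?_ ?_ ?_ ?_ hi1 ?_
  · -- injective
    rintro (x | x) (y | y) hxy
    · have h := hinj x y x.2 y.2 hxy
      have h' : x = y := Subtype.ext h
      subst h'
      rfl
    · exfalso
      have h : co (x : Q) = (0, (co x1).2 + 1 + (OrderDual.ofDual y).val) := hxy
      have := hA' (by have := (OrderDual.ofDual y).2; omega) x x.2
      rw [h] at this
      simp only at this
      omega
    · exfalso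
      have h : co (y : Q) = (0, (co x1).2 + 1 + (OrderDual.ofDual x).val) := hxy.symm
      have := hA' (by have := (OrderDual.ofDual x).2; omega) y y.2
      rw [h] at this
      simp only at this
      omega
    · have h : ((0 : ℕ), (co x1).2 + 1 + (OrderDual.ofDual x).val) =
        (0, (co x1).2 + 1 + (OrderDual.ofDual y).val) := hxy
      have h' : x = y := by
        apply OrderDual.ofDual.injective
        apply Fin.ext
        have := (Prod.mk.injEq _ _ _ _ ▸ h).2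
        omega
      subst h'
      rfl
  · rintro (x | x)
    · exact hge x x.2
    · exact Nat.zero_le _
  · -- order
    rintro (x | x) (y | y)
    · exact hle x y x.2 y.2
    · constructor
      · intro h
        exact h.elim
      · intro h
        exfalso
        have h' : ((0 : ℕ), (co x1).2 + 1 + (OrderDual.ofDual y).val) ≤ co (x : Q) := h
        have := hA' (by have := (OrderDual.ofDual y).2; omega) x x.2
        have h3 := h'.2
        simp only at h3
        omega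
    · have h0 : 0 < a := by have := (OrderDual.ofDual x).2; omega
      have hl := hle x1 y hx11 y.2
      constructor
      · intro h
        have h1 : x1 ≤ (y : Q) := h
        have h2 := hl.mp h1
        refine ⟨?_, ?_⟩
        · have := h2.1
          rw [(hA h0).1] at this
          exact this
        · have := h2.2
          change (co (y : Q)).2 ≤ (co x1).2 + 1 + (OrderDual.ofDual x).val
          omega
      · intro h
        change x1 ≤ (y : Q)
        rw [hl]
        refine ⟨?_, hA' h0 y y.2⟩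
        rw [(hA h0).1]
        exact h.1
    · constructor
      · intro h
        refine ⟨le_rfl, ?_⟩
        have h1 : OrderDual.ofDual y ≤ OrderDual.ofDual x := h
        have h2 : (OrderDual.ofDual y).val ≤ (OrderDual.ofDual x).val := h1
        change (co x1).2 + 1 + (OrderDual.ofDual y).val ≤ (co x1).2 + 1 + (OrderDual.ofDual x).val
        omega
      · intro h
        have h2 : (co x1).2 + 1 + (OrderDual.ofDual y).val ≤
          (co x1).2 + 1 + (OrderDual.ofDual x).val := h.2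
        change OrderDual.ofDual y ≤ OrderDual.ofDual x
        rw [Fin.le_def]
        omega
  · -- lower set of cells
    have hcells : ∀ c : ℕ × ℕ, (∃ y, ¬ t1 y ∧ co y = c) → ∃ y, co' y = c := by
      rintro c ⟨y, hy1, hy3⟩
      exact ⟨Sum.inl ⟨y, hy1⟩, hy3⟩
    rintro (x | x) c hcx hcs
    · exact hcells c (hdown x x.2 c hcx hcs)
    · have h1 : c ≤ ((0 : ℕ), (co x1).2 + 1 + (OrderDual.ofDual x).val) := hcx
      have h0 : 0 < a := by have := (OrderDual.ofDual x).2; omega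
      obtain ⟨c1, c2⟩ := c
      have h2 : c1 ≤ 0 := h1.1
      have h3 : c2 ≤ (co x1).2 + 1 + (OrderDual.ofDual x).val := h1.2
      have h4 : c1 = 0 := by omega
      subst h4
      by_cases h5 : c2 ≤ (co x1).2
      · refine hcells _ (hdown x1 hx11 _ ⟨Nat.zero_le _, h5⟩ (Nat.zero_le _))
      · refine ⟨Sum.inr (OrderDual.toDual ⟨c2 - ((co x1).2 + 1), ?_⟩), ?_⟩
        · have := (OrderDual.ofDual x).2
          omega
        · change ((0 : ℕ), (co x1).2 + 1 + (c2 - ((co x1).2 + 1))) = (0, c2)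
          congr 1
          omega
  · obtain ⟨x, h1, h3⟩ := hcell
    exact ⟨Sum.inl ⟨x, h1⟩, h3⟩

end Sub

end Pool.Agent.GaussPoset

end

/-! From `Pool.Agent.W_448s7s_h5.TuC` -/

section

/-!
Stair-like components at window `4` with the base cell `(3, 3)`: order two, larger thresholds on
the third column (MP_448cb3_co, S7, `j = 13`).
-/

namespace Pool.Agent.GaussPoset

set_option linter.unusedSectionVars false

open Polynomial Finset

universe u

variable {P : Type u} [Fintype P] [PartialOrder P] [DecidableEq P]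

section Cells

variable {ι : Type*} {R : Finset P} {cp : P → ι} {k : ι} {S : ℕ × ℕ → Prop} {co : P → ℕ × ℕ}
  {i b α β α' β' : ℕ} {θ : P → ℕ} {B : P → Prop} {J1 J2 : P → Prop} {x1 x2 : P}

/-- component data from coordinates, the thresholds are the minimum of two distances -/
theorem compDataJ_cells2 (hgr : GradedBelow P) (hcp : ∀ x y, x ≤ y → x ∉ R → cp x = cp y)
    (h1 : Junk R cp k J1 x1) (h2 : Junk R cp k J2 x2)
    (H : CoordJ R cp k (fun x => J1 x ∨ J2 x) S co)
    (hB : ∀ x, x ∉ R → cp x = k → (B x ↔ ¬ (J1 x ∨ J2 x) ∧ co x = (α, β)))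
    (hθ : ∀ x, x ∉ R → cp x = k → ¬ (J1 x ∨ J2 x) →
      θ x = min (((co x).1 - α) + ((co x).2 - β)) (((co x).1 - α') + ((co x).2 - β')))
    (hθJ : ∀ x, J1 x ∨ J2 x → θ x = lev x - i)
    (hle : ∀ x, x ∉ R → cp x = k → ¬ (J1 x ∨ J2 x) →
      min (((co x).1 - α) + ((co x).2 - β)) (((co x).1 - α') + ((co x).2 - β')) ≤
        ((co x).1 + (co x).2) - i)
    (hθ1 : (∃ x, J1 x) → lev x1 - i ≤ θ x1) (hθ2 : (∃ x, J2 x) → lev x2 - i ≤ θ x2)
    (hclean : ∀ D, Good i R B D → ∀ _ : DecidableEq ι,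
      (1 + X : Polynomial (PowerSeries ℤ)) ^ b ∣ W {x : {x : P // x ∉ D} // cp (x : P) = k} i) :
    CompData R cp k i b θ B where
  clean := hclean
  lev := by
    intro x hx hk hx1
    by_cases hJ : J1 x ∨ J2 x
    · rw [hθJ x hJ] at hx1
      omega
    · rw [hθ x hx hk hJ] at hx1
      have h2 := hle x hx hk hJ
      rw [H.lev x hx hk hJ]
      omega
  base := by
    intro x hx hk hx1 y hyx hy hBy
    have hyk : cp y = k := by rw [hcp y x hyx hy]; exact hk
    obtain ⟨hyJ, hco⟩ := (hB y hy hyk).mp hBy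
    have hxJ : ¬ (J1 x ∨ J2 x) := by
      rintro (h | h)
      · exact hyJ (Or.inl (h1.low y x hyx hy h))
      · exact hyJ (Or.inr (h2.low y x hyx hy h))
    have h3 := (H.le_iff y x hy hx hyk hk hyJ hxJ).mp hyx
    rw [hco] at h3
    rw [hθ x hx hk hxJ] at hx1
    have h4 : (co x).1 ≤ α := h3.1
    have h5 : (co x).2 ≤ β := h3.2
    omega
  step := by
    intro x hx hk hx1 y hyx hy x' hx' hyx' hn
    have hyk : cp y = k := by rw [hcp y x hyx hy]; exact hk
    have hxk' : cp x' = k := by rw [← hcp y x' hyx'.1.le hy]; exact hyk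
    have h4 := hgr.lev_covBy hyx'
    have hlyx : lev x ≤ lev y := by
      rcases eq_or_lt_of_le hyx with h | h
      · rw [h]
      · exact (lev_strictAnti h).le
    -- junk case
    have key : ∀ (J : P → Prop) (z : P), Junk R cp k J z → (∀ x, J x → J1 x ∨ J2 x) →
        ((∃ x, J x) → lev z - i ≤ θ z) → J y → θ x ≤ θ x' + 1 := by
      intro J z hJ hJs hz hJy
      rcases hJ.anc y x hJy hyx with hJx | hzx
      · -- x is junk
        rw [hθJ x (hJs x hJx)]
        rcases hJ.anc y x' hJy hyx'.1.le with hJx' | hzx'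
        · rw [hθJ x' (hJs x' hJx')]
          omega
        · have hyz := (hJ.mem y hJy).2.2
          have hzx'' : z = x' := by
            by_contra hne
            exact hyx'.2 hyz (lt_of_le_of_ne hzx' hne)
          have := hz ⟨y, hJy⟩
          rw [hzx''] at this
          omega
      · exfalso
        rcases hJ.anc y x' hJy hyx'.1.le with hJx' | hzx'
        · exact hn ((hJ.mem x' hJx').2.2.le.trans hzx)
        · have hyz := (hJ.mem y hJy).2.2
          have hzx'' : z = x' := by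
            by_contra hne
            exact hyx'.2 hyz (lt_of_le_of_ne hzx' hne)
          exact hn (hzx'' ▸ hzx)
    by_cases hyJ : J1 y ∨ J2 y
    · rcases hyJ with h | h
      · exact key J1 x1 h1 (fun _ h => Or.inl h) hθ1 h
      · exact key J2 x2 h2 (fun _ h => Or.inr h) hθ2 h
    · have hxJ : ¬ (J1 x ∨ J2 x) := by
        rintro (h | h)
        · exact hyJ (Or.inl (h1.low y x hyx hy h))
        · exact hyJ (Or.inr (h2.low y x hyx hy h))
      have hxJ' : ¬ (J1 x' ∨ J2 x') := by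
        rintro (h | h)
        · exact hyJ (Or.inl (h1.low y x' hyx'.1.le hy h))
        · exact hyJ (Or.inr (h2.low y x' hyx'.1.le hy h))
      have h5 := (H.le_iff y x hy hx hyk hk hyJ hxJ).mp hyx
      have h3 := (H.le_iff y x' hy hx' hyk hxk' hyJ hxJ').mp hyx'.1.le
      rw [H.lev y hy hyk hyJ, H.lev x' hx' hxk' hxJ'] at h4
      have h6 : ¬ co x ≤ co x' := fun h => hn ((H.le_iff x' x hx' hx hxk' hk hxJ' hxJ).mpr h)
      have h6 : ¬ ((co x).1 ≤ (co x').1 ∧ (co x).2 ≤ (co x').2) := h6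
      have h7 : (co x).1 ≤ (co y).1 := h5.1
      have h8 : (co x).2 ≤ (co y).2 := h5.2
      have h9 : (co x').1 ≤ (co y).1 := h3.1
      have h10 : (co x').2 ≤ (co y).2 := h3.2
      rw [hθ x hx hk hxJ, hθ x' hx' hxk' hxJ']
      omega
  le := by
    intro x hx hk
    by_cases hJ : J1 x ∨ J2 x
    · rw [hθJ x hJ]
    · rw [hθ x hx hk hJ, H.lev x hx hk hJ]
      exact hle x hx hk hJ

/-- shifted shapes with junk below the end of the first row -/
theorem compDataJ_shifted_diag (hgr : GradedBelow P) (hcp : ∀ x y, x ≤ y → x ∉ R → cp x = cp y)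
    (h1 : Junk R cp k J1 x1)
    (hx1 : x1 ∉ R ∧ cp x1 = k ∧ ¬ J1 x1)
    (H : CoordJ R cp k J1 (fun c => c.1 ≤ c.2) co)
    (hr1 : (∃ x, J1 x) → (co x1).1 = 0 ∧
      ∀ y, y ∉ R → cp y = k → ¬ J1 y → y ≠ x1 → (co y).2 < (co x1).2)
    (hB : ∀ x, x ∉ R → cp x = k → (B x ↔ ¬ J1 x ∧ co x = (3, 3)))
    (hcell : ∃ x, x ∉ R ∧ cp x = k ∧ ¬ J1 x ∧ co x = (3, 3))
    (hθ : ∀ x, x ∉ R → cp x = k → ¬ J1 x →
      θ x = min (((co x).1 - 3) + ((co x).2 - 3)) (((co x).1 - 1) + ((co x).2 - 4)))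
    (hθJ : ∀ x, J1 x → θ x = lev x - 4) :
    CompData R cp k 4 2 θ B := by
  have hsimp : (fun x => J1 x ∨ J1 x) = J1 := by funext x; simp
  refine compDataJ_cells2 (J1 := J1) (J2 := J1) (x1 := x1) (x2 := x1) (S := fun c => c.1 ≤ c.2)
    (co := co) (α := 3) (β := 3) (α' := 1) (β' := 4) hgr hcp h1 h1 (by rw [hsimp]; exact H) ?_ ?_ ?_ ?_ ?_ ?_ ?_
  · intro x hx hk
    rw [or_self]
    exact hB x hx hk
  · intro x hx hk
    rw [or_self]
    exact hθ x hx hk
  · intro x
    rw [or_self]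
    exact hθJ x
  · intro x hx hk hJ
    rw [or_self] at hJ
    have := H.mem x hx hk hJ
    omega
  · intro hex
    rw [hθ x1 hx1.1 hx1.2.1 hx1.2.2, H.lev x1 hx1.1 hx1.2.1 hx1.2.2, (hr1 hex).1]
    omega
  · intro hex
    rw [hθ x1 hx1.1 hx1.2.1 hx1.2.2, H.lev x1 hx1.1 hx1.2.1 hx1.2.2, (hr1 hex).1]
    omega
  · intro D hD hdec
    classical
    have hR : ∀ x : {x : P // x ∉ D}, (x : P) ∉ R := fun x h => x.2 (hD.2.1 h)
    obtain ⟨z, hzD, hzk, hzJ, hzc⟩ := CoordJ.base_not_mem H hB hD hcell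
    obtain ⟨w1, hw1, -, hh1, hrr1⟩ := junk_end (J' := J1) h1 ⟨hx1.1, hx1.2.1, hx1.2.2, hx1.2.2⟩ hD
      (f := fun x => (co x).2) (g := fun x => (co x).1)
      (fun h => ⟨(hr1 h).1, fun y hy hyk hJ _ hne => (hr1 h).2 y hy hyk hJ hne⟩)
      ⟨⟨z, hzD⟩, hzk⟩ hzJ hzJ
    refine shift_junk_dvd_diag (i := 4) (Q := {x : {x : P // x ∉ D} // cp (x : P) = k})
      (fun x => J1 x.1.1) (fun x => co x.1.1) w1 hw1
      (fun x y hxy hy => h1.low _ _ hxy (hR _) hy) hh1 ?_ ?_ ?_ ?_ (fun h => ?_) (by norm_num) ?_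
    · intro x y hx hy hxy
      exact Subtype.ext (Subtype.ext (H.inj _ _ (hR _) (hR _) x.2 y.2 hx hy hxy))
    · intro x hx
      exact H.mem _ (hR _) x.2 hx
    · intro x y hx hy
      exact H.le_iff _ _ (hR _) (hR _) x.2 y.2 hx hy
    · intro x hx c hc hS
      obtain ⟨y, hy, hyk, hyJ, hcy⟩ := H.low _ (hR x.1) x.2 hx c hc hS
      have hyD : y ∉ D := by
        intro h
        refine x.1.2 (hD.1 _ y ?_ h)
        rw [H.le_iff _ y (hR _) hy x.2 hyk hx hyJ, hcy]
        exact hc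
      exact ⟨⟨⟨y, hyD⟩, hyk⟩, hyJ, hcy⟩
    · obtain ⟨h3, h4⟩ := hrr1 h
      exact ⟨h3, fun y hy hne => h4 y hy hy hne⟩
    · exact ⟨⟨⟨z, hzD⟩, hzk⟩, hzJ, hzc⟩

end Cells

section Stair

variable {t : Tops P} {N : Finset P} {co : P → ℕ × ℕ}

open Classical in
/-- the minimum of the distances to the cells `(3, 3)` and `(1, 4)` -/
noncomputable def thD (N : Finset P) (co : P → ℕ × ℕ) : P → ℕ := fun x =>
  if x ∈ junk (fun c => c.1 ≤ c.2) N co then lev x - 4 else
    min (((co x).1 - 3) + ((co x).2 - 3)) (((co x).1 - 1) + ((co x).2 - 4))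

/-- natural set of a stair-like component at window `4`, order two -/
theorem natTop_stair_diag (hgr : GradedBelow P) (C : Chart (t : P) (fun c => c.1 ≤ c.2) N co)
    (hcell : ∃ x ∈ N, co x = (3, 3)) (hlow : ∀ x, x ≤ (t : P) → lev x ≤ 4 → x ∈ N) :
    NatTop 4 t 2 (natS N co) (thD N co) (fun x => x ∈ N ∧ co x = (3, 3)) where
  up := natS_up C.up
  le_t := natS_le C.le_t
  low := fun x hx hxi => mem_natS.mpr (Or.inl (hlow x hx hxi))
  data := by
    intro M HM hM θ' B' hθ hB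
    obtain ⟨x0, hx0, hcx0⟩ := hcell
    have h1 : ∃ y ∈ N, 1 ≤ (co y).1 := ⟨x0, hx0, by rw [hcx0]; simp only; omega⟩
    have hmem : ∀ x, x ∉ unnat M → topOf x = t → x ∈ natS N co := fun x h1 h2 => by
      rw [← hM]; exact HM.mem_iff.mpr ⟨h1, h2⟩
    have hmem' : ∀ x, x ∈ natS N co → x ∉ unnat M ∧ topOf x = t := fun x h => by
      rw [← hM] at h; exact HM.mem_iff.mp h
    obtain ⟨x1, J1, hx1, hr1⟩ := junk_data (S := fun c : ℕ × ℕ => c.1 ≤ c.2) (fun c hc => hc) C h1
      HM (J' := fun _ => False) (fun x => by rw [hM, mem_natS, or_false])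
      (fun _ _ _ h => h.elim) (fun _ h => h.elim) (fun h => h)
    have hnJ : ∀ x, x ∉ unnat M → topOf x = t → x ∉ junk (fun c => c.1 ≤ c.2) N co → x ∈ N := by
      intro x hx hk hJ
      rcases mem_natS.mp (hmem x hx hk) with h | h
      · exact h
      · exact absurd h hJ
    have hNM : ∀ x ∈ N, x ∉ unnat M ∧ topOf x = t := fun x hx =>
      hmem' x (mem_natS.mpr (Or.inl hx))
    have hbase : ∀ x ∈ N, co x = (3, 3) → x ∉ junk (fun c => c.1 ≤ c.2) N co := by
      intro x hx hc h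
      obtain ⟨w, Hw, hxw⟩ := mem_junk.mp h
      have := (Hw.tail C hx (mem_jset.mp hxw).1).1
      rw [hc] at this
      simp only at this
      omega
    have H : CoordJ (unnat M) topOf t (fun x => x ∈ junk (fun c => c.1 ≤ c.2) N co)
        (fun c => c.1 ≤ c.2) co := by
      constructor
      · intro x y hx hy hkx hky hJx hJy h
        exact C.inj x (hnJ x hx hkx hJx) y (hnJ y hy hky hJy) h
      · intro x y hx hy hkx hky hJx hJy
        exact C.le_iff x (hnJ x hx hkx hJx) y (hnJ y hy hky hJy)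
      · intro x hx hk hJx
        exact C.mem x (hnJ x hx hk hJx)
      · intro x hx hk hJx c hc hS
        have hxN := hnJ x hx hk hJx
        obtain ⟨y, hy, hcy⟩ := C.low x hxN c hc hS
        refine ⟨y, (hNM y hy).1, (hNM y hy).2, ?_, hcy⟩
        have hxy : x ≤ y := by
          rw [C.le_iff x hxN y hy, hcy]
          exact hc
        intro h
        obtain ⟨w, Hw, hyw⟩ := mem_junk.mp h
        exact hJx (mem_junk.mpr ⟨w, Hw, (Hw.tail C hxN (hxy.trans_lt (mem_jset.mp hyw).1)).2⟩)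
      · intro x hx hk hJx
        exact C.lev x (hnJ x hx hk hJx)
    refine compDataJ_shifted_diag hgr HM.cp J1 ⟨hx1.1, hx1.2.1, hx1.2.2.1⟩ H ?_ ?_ ?_ ?_ ?_
    · intro hex
      obtain ⟨h3, h4⟩ := hr1 hex
      exact ⟨h3, fun y hy hk hJ hne => h4 y hy hk hJ (fun h => h) hne⟩
    · intro x hx hk
      rw [hB x (hmem x hx hk)]
      constructor
      · rintro ⟨h3, h4⟩
        exact ⟨hbase x h3 h4, h4⟩
      · rintro ⟨h3, h4⟩
        exact ⟨hnJ x hx hk h3, h4⟩
    · exact ⟨x0, (hNM x0 hx0).1, (hNM x0 hx0).2, hbase x0 hx0 hcx0, hcx0⟩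
    · intro x hx hk hJ
      rw [hθ x (hmem x hx hk)]
      unfold thD
      rw [if_neg hJ]
    · intro x hJ
      rw [hθ x (mem_natS.mpr (Or.inr hJ))]
      unfold thD
      rw [if_pos hJ]

end Stair

end Pool.Agent.GaussPoset

end

/-! From `Pool.Agent.W_448s7s_h5.TuE` -/

section

/-!
The components at window `4` with the coarse thresholds `thD` for the stairs (MP_448cb3_co, S7,
`j = 13`).
-/

namespace Pool.Agent.GaussPoset.Ec

set_option linter.unusedSectionVars false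

open Polynomial Finset Sm Wd Cp W4 Cl

universe u

variable {P : Type u} [Fintype P] [PartialOrder P] [DecidableEq P] {r j : ℕ}

/-- the types of the components at window `4` with the coarse thresholds `θ5` -/
inductive FineZ (j : ℕ) (t : Tops P) (lo hi : ℕ → ℕ) (e : ℕ → ℕ → P)
    (N : Finset P) (θ4 θ5 : P → ℕ) (b : ℕ) (Nf : Finset P) (θf : (ℕ → ℕ → ℕ) → P → ℕ)
    (d : Prop) : Prop
  | light (h1 : N = onlyB t) (h2 : θ4 = fun x => lev x - 4) (h3 : b = 1) (h4 : Nf = N)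
      (h5 : θf = fun _ => θ4) (h6 : ¬ d) (h7 : ∀ x, x ≤ (t : P) → lev x ≤ j → x ∈ onlyB t)
      (h9 : θ5 = θ4)
  | rect (c : ℕ) (Nc : Finset P) (co : P → ℕ × ℕ) (h0 : RectNat j 4 t c Nc co)
      (h1 : N = natR Nc co) (h2 : θ4 = thR 4 c Nc co) (h3 : b = c) (h4 : Nf = N)
      (h5 : θf = fun _ => θ4) (h6 : ¬ d) (h7 : lo 3 < hi 3) (h9 : θ5 = θ4)
  | e7 (h0 : WordD j 4 w7 lo hi) (h1 : N = onlyB t) (h2 : θ4 = fun x => lev x - 4) (h3 : b = 2)
      (h4 : Nf = lowPart j (t : P)) (h5 : θf = fun tb => thC lo hi e tb) (h6 : d)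
      (h7 : ∀ x, x ≤ (t : P) → lev x ≤ j → x ∈ onlyB t) (h8 : j ≤ 16) (h9 : θ5 = θ4)
  | stair (Nc : Finset P) (co : P → ℕ × ℕ) (h0 : StairNat j 4 t Nc co) (h1 : N = natS Nc co)
      (h2 : θ4 = thSg 2 4 Nc co) (h3 : b = 3) (h4 : Nf = N) (h5 : θf = fun _ => thS 4 Nc co)
      (h6 : d) (h9 : θ5 = thD Nc co)

section

variable {t : Tops P} {lo hi : ℕ → ℕ} {e : ℕ → ℕ → P} {N : Finset P} {θ4 θ5 : P → ℕ} {b : ℕ}
  {Nf : Finset P} {θf : (ℕ → ℕ → ℕ) → P → ℕ} {d : Prop}

theorem FineY.exists5 (F : FineY j t lo hi e N θ4 b Nf θf d) :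
    ∃ θ5, FineZ j t lo hi e N θ4 θ5 b Nf θf d := by
  rcases F with ⟨h1, h2, h3, h4, h5, h6, h7⟩ | ⟨c, Nc, co, h0, h1, h2, h3, h4, h5, h6, h7⟩ |
    ⟨h0, h1, h2, h3, h4, h5, h6, h7, h8⟩ | ⟨Nc, co, h0, h1, h2, h3, h4, h5, h6⟩
  · exact ⟨θ4, FineZ.light h1 h2 h3 h4 h5 h6 h7 rfl⟩
  · exact ⟨θ4, FineZ.rect c Nc co h0 h1 h2 h3 h4 h5 h6 h7 rfl⟩
  · exact ⟨θ4, FineZ.e7 h0 h1 h2 h3 h4 h5 h6 h7 h8 rfl⟩
  · exact ⟨thD Nc co, FineZ.stair Nc co h0 h1 h2 h3 h4 h5 h6 rfl⟩

lemma FineZ.old (F : FineZ j t lo hi e N θ4 θ5 b Nf θf d) :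
    FineY j t lo hi e N θ4 b Nf θf d := by
  rcases F with ⟨h1, h2, h3, h4, h5, h6, h7, h9⟩ | ⟨c, Nc, co, h0, h1, h2, h3, h4, h5, h6, h7, h9⟩ |
    ⟨h0, h1, h2, h3, h4, h5, h6, h7, h8, h9⟩ | ⟨Nc, co, h0, h1, h2, h3, h4, h5, h6, h9⟩
  · exact FineY.light h1 h2 h3 h4 h5 h6 h7
  · exact FineY.rect c Nc co h0 h1 h2 h3 h4 h5 h6 h7
  · exact FineY.e7 h0 h1 h2 h3 h4 h5 h6 h7 h8
  · exact FineY.stair Nc co h0 h1 h2 h3 h4 h5 h6

lemma FineZ.eq5 (F : FineZ j t lo hi e N θ4 θ5 b Nf θf d) (hd : ¬ d) : θ5 = θ4 := by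
  rcases F with ⟨h1, h2, h3, h4, h5, h6, h7, h9⟩ | ⟨c, Nc, co, h0, h1, h2, h3, h4, h5, h6, h7, h9⟩ |
    ⟨h0, h1, h2, h3, h4, h5, h6, h7, h8, h9⟩ | ⟨Nc, co, h0, h1, h2, h3, h4, h5, h6, h9⟩
  · exact h9
  · exact h9
  · exact h9
  · exact absurd h6 hd

lemma stair_diag_cell {Nc : Finset P} {co : P → ℕ × ℕ} (h0 : StairNat j 4 t Nc co) :
    ∃ x ∈ Nc, co x = (3, 3) := by
  obtain ⟨x, hx, hcx⟩ := h0.cell
  obtain ⟨y, hy, hcy⟩ := h0.chart.low x hx (3, 3)
    (by rw [hcx]; exact ⟨by simp only; omega, by simp only; omega⟩)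
    (by show 3 ≤ 3; omega)
  exact ⟨y, hy, hcy⟩

/-- the coarse natural system of a defect top -/
theorem FineZ.nat1 (F : FineZ j t lo hi e N θ4 θ5 b Nf θf d) (C : Comp j (t : P) lo hi e)
    (H : Gr P r) (hj : 8 ≤ j) (hd : d) : ∃ B, NatTop 4 t (b - 1) N θ5 B := by
  have hgr := H.gradedBelow
  rcases F with ⟨h1, h2, h3, h4, h5, h6, h7, h9⟩ | ⟨c, Nc, co, h0, h1, h2, h3, h4, h5, h6, h7, h9⟩ |
    ⟨h0, h1, h2, h3, h4, h5, h6, h7, h8, h9⟩ | ⟨Nc, co, h0, h1, h2, h3, h4, h5, h6, h9⟩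
  · exact absurd hd h6
  · exact absurd hd h6
  · subst h9
    exact (FineY.e7 h0 h1 h2 h3 h4 h5 h6 h7 h8).nat1 C H hj hd
  · subst h9 h1 h3
    exact ⟨_, natTop_stair_diag hgr h0.chart (stair_diag_cell h0)
      (low_of_strip h0.strip (by omega))⟩

/-- the values of the three thresholds of a stair -/
lemma th_stair {Nc : Finset P} {co : P → ℕ × ℕ} (h0 : StairNat j 4 t Nc co) {x : P}
    (hx : x ∈ Nc) (hJ : x ∉ junk (fun c => c.1 ≤ c.2) Nc co) :
    thS 4 Nc co x = ((co x).1 - 4) + ((co x).2 - 4) ∧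
    thSg 2 4 Nc co x = ((co x).1 - 2) + ((co x).2 - 4) ∧
    thD Nc co x = min (((co x).1 - 3) + ((co x).2 - 3)) (((co x).1 - 1) + ((co x).2 - 4)) := by
  unfold thS thSg thD
  rw [if_neg hJ, if_neg hJ, if_neg hJ]
  exact ⟨rfl, rfl, rfl⟩

/-- the fine thresholds are smaller -/
lemma FineZ.le1 (F : FineZ j t lo hi e N θ4 θ5 b Nf θf d) {tb : ℕ → ℕ → ℕ} (htb : TbOK tb)
    (x : P) : θf tb x ≤ θ5 x := by
  have G := F.old
  rcases F with ⟨h1, h2, h3, h4, h5, h6, h7, h9⟩ | ⟨c, Nc, co, h0, h1, h2, h3, h4, h5, h6, h7, h9⟩ |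
    ⟨h0, h1, h2, h3, h4, h5, h6, h7, h8, h9⟩ | ⟨Nc, co, h0, h1, h2, h3, h4, h5, h6, h9⟩
  · rw [h9]; exact G.le1 htb x
  · rw [h9]; exact G.le1 htb x
  · rw [h9]; exact G.le1 htb x
  · rw [h5, h9]
    show thS 4 Nc co x ≤ _
    unfold thS thD
    split_ifs
    · exact le_rfl
    · omega

/-- the new thresholds are larger, away from the low levels -/
lemma FineZ.ge (F : FineZ j t lo hi e N θ4 θ5 b Nf θf d) {x : P} (hx : x ∈ N)
    (hl : 7 ≤ lev x) : θ4 x ≤ θ5 x := by
  rcases F with ⟨h1, h2, h3, h4, h5, h6, h7, h9⟩ | ⟨c, Nc, co, h0, h1, h2, h3, h4, h5, h6, h7, h9⟩ |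
    ⟨h0, h1, h2, h3, h4, h5, h6, h7, h8, h9⟩ | ⟨Nc, co, h0, h1, h2, h3, h4, h5, h6, h9⟩
  · exact h9.ge x
  · exact h9.ge x
  · exact h9.ge x
  · rw [h2, h9]
    by_cases hJ : x ∈ junk (fun c => c.1 ≤ c.2) Nc co
    · unfold thSg thD
      rw [if_pos hJ, if_pos hJ]
    · have hxN : x ∈ Nc := by
        rw [h1, mem_natS] at hx
        exact hx.resolve_right hJ
      obtain ⟨-, e2, e3⟩ := th_stair h0 hxN hJ
      have e4 := h0.chart.lev x hxN
      have e5 : (co x).1 ≤ (co x).2 := h0.chart.mem x hxN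
      rw [e2, e3]
      omega

lemma FineZ.le2 (F : FineZ j t lo hi e N θ4 θ5 b Nf θf d) {tb : ℕ → ℕ → ℕ} (htb : TbOK tb)
    {x y : P} (hx : x ∈ N) (hx' : x ∉ Nf) (hxy : x ≤ y) : θf tb y ≤ θ5 x := by
  have G := F.old
  rcases F with ⟨h1, h2, h3, h4, h5, h6, h7, h9⟩ | ⟨c, Nc, co, h0, h1, h2, h3, h4, h5, h6, h7, h9⟩ |
    ⟨h0, h1, h2, h3, h4, h5, h6, h7, h8, h9⟩ | ⟨Nc, co, h0, h1, h2, h3, h4, h5, h6, h9⟩
  · rw [h9]; exact G.le2 htb hx hx' hxy
  · rw [h9]; exact G.le2 htb hx hx' hxy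
  · rw [h9]; exact G.le2 htb hx hx' hxy
  · exact absurd (h4 ▸ hx) hx'

end

/-- the cells with twins -/
inductive TwC (j : ℕ) (t : Tops P) (N : Finset P) (θ4 θ5 : P → ℕ) (y : P) : Prop
  | rect (c : ℕ) (Nc : Finset P) (co : P → ℕ × ℕ) (h0 : RectNat j 4 t c Nc co)
      (h1 : N = natR Nc co) (h2 : θ4 = thR 4 c Nc co) (h9 : θ5 = θ4) (hy : y ∈ Nc)
      (hJ : ¬ (y ∈ junk (fun _ => True) Nc co ∨ y ∈ junk (fun _ => True) Nc (swp co)))
      (ha : 1 ≤ (co y).1) (hc : 1 ≤ (co y).2)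
  | stair (Nc : Finset P) (co : P → ℕ × ℕ) (h0 : StairNat j 4 t Nc co) (h1 : N = natS Nc co)
      (h2 : θ4 = thSg 2 4 Nc co) (h9 : θ5 = thD Nc co) (hy : y ∈ Nc)
      (hJ : y ∉ junk (fun c => c.1 ≤ c.2) Nc co) (ha : 1 ≤ (co y).1)

variable {lo hi : Tops P → ℕ → ℕ} {e : Tops P → ℕ → ℕ → P} {N : Tops P → Finset P}
  {θ3 θ4 θ5 : Tops P → P → ℕ} {Nf : Tops P → Finset P} {θf : Tops P → (ℕ → ℕ → ℕ) → P → ℕ}
  {D : Tops P → Prop} {K3 : ℕ} {b : Tops P → ℕ}

/-- the twins are at inner cells of the rectangles and the stairs -/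
theorem tw_cell (W : Wk r j 3 K3 N b θ3) (hj : 8 ≤ j) {x : P} (hx : x ∈ twA N)
    {lo hi : ℕ → ℕ} {e : ℕ → ℕ → P} {b' : ℕ} {Nf : Finset P} {θf : (ℕ → ℕ → ℕ) → P → ℕ}
    {d : Prop} (F : FineZ j (topOf (twT N x)) lo hi e (N (topOf (twT N x)))
      (θ4 (topOf (twT N x))) (θ5 (topOf (twT N x))) b' Nf θf d) :
    TwC j (topOf (twT N x)) (N (topOf (twT N x))) (θ4 (topOf (twT N x)))
      (θ5 (topOf (twT N x))) (twT N x) := by
  have H := W.gt.H
  have HN := W.natSys
  obtain ⟨hxu, hex⟩ := mem_twA.mp hx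
  have h3 := twT_spec hex
  have hlt := W.lt_lev hxu
  have hll := W.twSys.lev hx
  have hyN : twT N x ∈ N (topOf (twT N x)) := HN.mem_iff.mpr ⟨h3.1, rfl⟩
  have htop : ∀ s, x ≤ (s : P) → lev (s : P) = 0 → twT N x ≤ (s : P) := by
    intro s hs hs0
    refine ((h3.2 s).mpr (lt_of_le_of_ne hs ?_)).le
    rintro rfl
    omega
  generalize twT N x = y at *
  generalize ht : topOf y = t at *
  rcases F with ⟨h1, h2, h3', h4, h5, h6, h7, h9⟩ |
    ⟨c, Nc, co, h0, h1, h2, h3', h4, h5, h6, h7, h9⟩ |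
    ⟨h0, h1, h2, h3', h4, h5, h6, h7, h8, h9⟩ | ⟨Nc, co, h0, h1, h2, h3', h4, h5, h6, h9⟩
  · exfalso
    have g1 : x ∉ onlyB t := by
      rw [← h1]
      exact mem_unnat.mp hxu t
    rw [mem_onlyB] at g1
    push Not at g1
    obtain ⟨s, hs1, hs2, hs3⟩ := g1
    exact hs3 (HN.top_eq hyN hs1 (htop s hs2 hs1))
  · by_cases hJ : y ∈ junk (fun _ => True) Nc co ∨ y ∈ junk (fun _ => True) Nc (swp co)
    · exfalso
      refine mem_unnat.mp hxu t ?_
      rw [h1, mem_natR]
      rcases hJ with h' | h'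
      · exact Or.inr (Or.inl (junk_twin h' h3.2))
      · exact Or.inr (Or.inr (junk_twin h' h3.2))
    · have hyc : y ∈ Nc := by
        rw [h1, mem_natR] at hyN
        rcases hyN with h | h | h
        · exact h
        · exact absurd (Or.inl h) hJ
        · exact absurd (Or.inr h) hJ
      have hl := h0.chart.lev y hyc
      refine TwC.rect c Nc co h0 h1 h2 h9 hyc hJ ?_ ?_
      · by_contra h7
        obtain ⟨u, hu, hcu⟩ := h0.chart.low y hyc (0, (co y).2 - 1)
          ⟨Nat.zero_le _, Nat.sub_le _ _⟩ trivial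
        refine straight_twin H h0 h1 hyc hu ?_ ?_ ?_ hxu h3.2
        · rw [hcu]
          exact Or.inr ⟨by simp only; omega, by simp only; omega⟩
        · intro y hy hp
          rw [hcu]
          rcases hp with hp | hp
          · omega
          · exact Prod.ext (by simp only; omega) (by simp only; omega)
        · rw [hcu]
          exact Or.inl rfl
      · by_contra h7
        obtain ⟨u, hu, hcu⟩ := h0.chart.low y hyc ((co y).1 - 1, 0)
          ⟨Nat.sub_le _ _, Nat.zero_le _⟩ trivial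
        refine straight_twin H h0 h1 hyc hu ?_ ?_ ?_ hxu h3.2
        · rw [hcu]
          exact Or.inl ⟨by simp only; omega, by simp only; omega⟩
        · intro y hy hp
          rw [hcu]
          rcases hp with hp | hp
          · exact Prod.ext (by simp only; omega) (by simp only; omega)
          · omega
        · rw [hcu]
          exact Or.inr rfl
  · exfalso
    have g1 : x ∉ onlyB t := by
      rw [← h1]
      exact mem_unnat.mp hxu t
    rw [mem_onlyB] at g1
    push Not at g1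
    obtain ⟨s, hs1, hs2, hs3⟩ := g1
    exact hs3 (HN.top_eq hyN hs1 (htop s hs2 hs1))
  · by_cases hJ : y ∈ junk (fun c => c.1 ≤ c.2) Nc co
    · exfalso
      refine mem_unnat.mp hxu t ?_
      rw [h1, mem_natS]
      exact Or.inr (junk_twin hJ h3.2)
    · have hyc : y ∈ Nc := by
        rw [h1, mem_natS] at hyN
        rcases hyN with h | h
        · exact h
        · exact absurd h hJ
      have hl := h0.chart.lev y hyc
      refine TwC.stair Nc co h0 h1 h2 h9 hyc hJ ?_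
      by_contra h7
      obtain ⟨u, hu, hcu⟩ := h0.chart.low y hyc (0, (co y).2 - 1)
        ⟨Nat.zero_le _, Nat.sub_le _ _⟩ (Nat.zero_le _)
      have g1 : y ⋖ u := by
        rw [chart_cov h0.chart H hyc hu, hcu]
        exact Or.inr ⟨by simp only; omega, by simp only; omega⟩
      have g2 : x ⋖ u := (cov_of_up h3.2).mp g1
      have g3 := stair_pendant H h0 (by omega) h1 hxu (x := u)
        (by rw [h1]; exact mem_natS.mpr (Or.inl hu)) g2 (by
        intro v hv
        have hv1 : y ⋖ v := (cov_of_up h3.2).mpr hv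
        have hvN := h0.chart.up y hyc v hv1.le
        refine h0.chart.inj v hvN u hu ?_
        rw [hcu]
        rcases (chart_cov h0.chart H hyc hvN).mp hv1 with hp | hp
        · omega
        · exact Prod.ext (by simp only; omega) (by simp only; omega))
      have g4 := g3.2.2
      rw [hcu] at g4
      simp only at g4
      omega

end Pool.Agent.GaussPoset.Ec

end

/-! From `Pool.Agent.W_448s7s_h5.TuF` -/

section

/-!
The inclusion-exclusion at window `4` with the coarse thresholds `thD` for the stairs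
(MP_448cb3_co, S7, `j = 13`).
-/

namespace Pool.Agent.GaussPoset.Ec

set_option linter.unusedSectionVars false

open Polynomial Finset Sm Wd Cp W4 Cl

universe u

variable {P : Type u} [Fintype P] [PartialOrder P] [DecidableEq P] {r j : ℕ}
  {lo hi : Tops P → ℕ → ℕ} {e : Tops P → ℕ → ℕ → P} {N : Tops P → Finset P}
  {θ3 θ4 θ5 : Tops P → P → ℕ} {Nf : Tops P → Finset P} {θf : Tops P → (ℕ → ℕ → ℕ) → P → ℕ}
  {D : Tops P → Prop} {K3 : ℕ} {b : Tops P → ℕ}

/-- the threshold of a cell with a twin -/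
lemma TwC.th {t : Tops P} {N : Finset P} {θ4 θ5 : P → ℕ} {y : P}
    (T : TwC j t N θ4 θ5 y) (hl : 9 ≤ lev y) :
    θ4 y ≤ θ5 y ∧ θ5 y + 1 ≤ lev y - 4 ∧ lev y - 4 ≤ θ5 y + 4 ∧ θ4 y + 1 ≤ lev y - 4 := by
  rcases T with ⟨c, Nc, co, h0, h1, h2, h9, hy, hJ, ha, hc⟩ |
    ⟨Nc, co, h0, h1, h2, h9, hy, hJ, ha⟩
  · have e1 := rect_th4 h0 hy hJ hl
    rw [h9, h2]
    omega
  · obtain ⟨-, e2, e3⟩ := th_stair h0 hy hJ
    have e4 := h0.chart.lev y hy
    have e5 : (co y).1 ≤ (co y).2 := h0.chart.mem y hy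
    rw [h2, h9, e2, e3]
    omega

/-- the thresholds above a cell with a twin -/
lemma TwC.mono {t : Tops P} {N : Finset P} {θ4 θ5 : P → ℕ} {y v : P}
    (T : TwC j t N θ4 θ5 y) (hv : y < v) : θ5 v ≤ θ5 y + 1 := by
  rcases T with ⟨c, Nc, co, h0, h1, h2, h9, hy, hJ, ha, hc⟩ |
    ⟨Nc, co, h0, h1, h2, h9, hy, hJ, ha⟩
  · have hvN := h0.chart.up y hy v hv.le
    have hy1 := not_junk_above h0.chart hy ha hv.le
    have hy2 := not_junk_above h0.chart.swap hy hc hv.le
    have hle := (h0.chart.le_iff y hy v hvN).mp hv.le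
    have hle1 : (co v).1 ≤ (co y).1 := hle.1
    have hle2 : (co v).2 ≤ (co y).2 := hle.2
    rw [h9, h2]
    unfold thR
    rw [if_neg (by rintro (h | h); exacts [hy1 h, hy2 h]), if_neg hJ]
    omega
  · have hvN := h0.chart.up y hy v hv.le
    have hy1 := not_junk_above h0.chart hy ha hv.le
    have hle := (h0.chart.le_iff y hy v hvN).mp hv.le
    have hle1 : (co v).1 ≤ (co y).1 := hle.1
    have hle2 : (co v).2 ≤ (co y).2 := hle.2
    obtain ⟨-, -, e3⟩ := th_stair h0 hy hJ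
    obtain ⟨-, -, e4⟩ := th_stair h0 hvN hy1
    rw [h9, e3, e4]
    omega

/-- the systems at window `4` -/
structure Fz (P : Type u) [Fintype P] [PartialOrder P] [DecidableEq P] (j : ℕ)
    (lo hi : Tops P → ℕ → ℕ) (e : Tops P → ℕ → ℕ → P) (N : Tops P → Finset P)
    (θ4 θ5 : Tops P → P → ℕ) (Nf : Tops P → Finset P) (θf : Tops P → (ℕ → ℕ → ℕ) → P → ℕ)
    (D : Tops P → Prop) : Prop where
  typ : ∀ t, FineZ j t (lo t) (hi t) (e t) (N t) (θ4 t) (θ5 t) (hi t 4 - lo t 4 + 1) (Nf t)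
    (θf t) (D t)
  sum : ∑ t, (hi t 4 - lo t 4 + 1) = (lv P 4).card

theorem Fs.exists5 (F : Fs P j lo hi e N θ4 Nf θf D) :
    ∃ θ5, Fz P j lo hi e N θ4 θ5 Nf θf D := by
  choose θ5 h using fun t => (F.typ t).exists5
  exact ⟨θ5, h, F.sum⟩

lemma Fz.fs (F : Fz P j lo hi e N θ4 θ5 Nf θf D) : Fs P j lo hi e N θ4 Nf θf D :=
  ⟨fun t => (F.typ t).old, F.sum⟩

lemma Fz.tw (F : Fz P j lo hi e N θ4 θ5 Nf θf D) (W : Wk r j 3 K3 N b θ3) (hj : 8 ≤ j) {x : P}
    (hx : x ∈ twA N) : TwC j (topOf (twT N x)) (N (topOf (twT N x))) (θ4 (topOf (twT N x)))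
      (θ5 (topOf (twT N x))) (twT N x) :=
  tw_cell W hj hx (F.typ _)

theorem Fz.twn (F : Fz P j lo hi e N θ4 θ5 Nf θf D) (W : Wk r j 3 K3 N b θ3) (hj : 9 ≤ j)
    {x : P} (hx : x ∈ twA N) : Twn 4 (thA N θ5) (twT N x, x) := by
  have h1 := mem_twA.mp hx
  have h3 := twT_spec h1.2
  have hlt := W.lt_lev h1.1
  have hll := W.twSys.lev hx
  have T := F.tw W (by omega) hx
  have e1 : thA N θ5 (twT N x) = θ5 (topOf (twT N x)) (twT N x) := thX_not (W.not_tw h3.1)
  have e2 : thA N θ5 x = θ5 (topOf (twT N x)) (twT N x) := thA_tw4 hx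
  obtain ⟨g1, g2, g3, g4⟩ := T.th (by omega)
  refine ⟨?_, h3.2, ?_, ?_, ?_, ?_⟩
  · intro h
    simp only at h
    exact h3.1 (by rw [h]; exact h1.1)
  · simp only
    rw [e1]
    omega
  · simp only
    rw [e1, e2]
  · simp only
    rw [e1]
    exact g2
  · intro y hy
    simp only at hy ⊢
    obtain ⟨k1, k2⟩ := W.up h3.1 hy.le
    have e3 : thA N θ5 y = θ5 (topOf (twT N x)) y := by
      have : thA N θ5 y = θ5 (topOf y) y := thX_not (W.not_tw k1)
      rw [this, k2]
    rw [e1, e3]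
    exact T.mono hy

lemma Fz.tS_eq (F : Fz P j lo hi e N θ4 θ5 Nf θf D) (tb : ℕ → ℕ → ℕ) :
    Ew.tS (fun t => θf t tb) θ5 (ED D) = θ5 := by
  funext t
  by_cases h : t ∈ ED D
  · rw [Ew.tS_of h]
  · rw [Ew.tS_not h]
    have hd : ¬ D t := fun h' => h (mem_ED.mpr h')
    rw [(F.typ t).eq5 hd]
    exact ((F.typ t).old.eq hd).2 tb

/-- the context with the thresholds `θ5` -/
theorem Fz.ew (F : Fz P j lo hi e N θ4 θ5 Nf θf D) (K : Ctx P r j lo hi e) (h9 : 9 ≤ j)
    (W : Wk r j 3 K3 N b θ3) :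
    Ew.EW 4 (ED D) Nf N (fun t => hi t 4 - lo t 4 + 1) (fun t => θf t E7t4) θ5 (twA N)
      (twT N) := by
  have H := K.gt.H
  have T := W.twSys
  have G := F.fs
  exact
  { gr := H.gradedBelow
    nat := fun t => (F.typ t).old.nat (K.comp t) H K.gt.good (by omega)
    nat1 := fun t ht => (F.typ t).nat1 (K.comp t) H (by omega) (mem_ED.mp ht)
    one := fun t ht => (F.typ t).old.one (mem_ED.mp ht)
    sub := fun t _ => (F.typ t).old.sub
    le1 := fun t _ x _ => (F.typ t).le1 tbOK_E7t4 x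
    le2 := fun t _ x hx hx' y _ hxy => (F.typ t).le2 tbOK_E7t4 hx hx' hxy
    tw := by
      rw [G.NS_eq]
      exact T
    twE := by
      intro x hx hE
      have h1 := T.nat x hx
      have h2 := T.cp x hx
      have h3 : twT N x ∈ N (topOf x) := W.natSys.mem_iff.mpr ⟨h1, h2⟩
      have hlt := W.lt_lev (mem_twA.mp hx).1
      have hll := T.lev hx
      have h4 := F.tw W (by omega) hx
      rw [h2] at h4
      obtain ⟨g1, g2, g3, g4⟩ := h4.th (by omega)
      refine ⟨(F.typ _).old.twin h3 g4, fun y hy => ?_⟩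
      exact ((F.typ _).old.up (mem_ED.mp hE) h3 g4 ((T.up x hx y).mpr hy.1)).trans g1
    twn := by
      intro x hx
      rw [F.tS_eq]
      exact F.twn W h9 hx }

lemma Fz.RS_eq (F : Fz P j lo hi e N θ4 θ5 Nf θf D) :
    Ew.RS (ED D) Nf N (twA N) (ED D) = rA N := F.fs.RS_eq

lemma Fz.thS_eq (F : Fz P j lo hi e N θ4 θ5 Nf θf D) (tb : ℕ → ℕ → ℕ) :
    Ew.thS (ED D) (fun t => θf t tb) θ5 (twA N) (twT N) (ED D) = thA N θ5 := by
  unfold Ew.thS
  rw [F.tS_eq tb, Ew.YS_self]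

lemma Fz.hS_eq (F : Fz P j lo hi e N θ4 θ5 Nf θf D) (tb : ℕ → ℕ → ℕ) :
    Ew.hS (ED D) Nf N (fun t => θf t tb) θ5 (twA N) (twT N) (ED D) = hA N θ5 := by
  unfold Ew.hS
  rw [F.RS_eq, F.thS_eq]

/-- the thresholds grow -/
lemma Fz.thA_le (F : Fz P j lo hi e N θ4 θ5 Nf θf D) (W : Wk r j 3 K3 N b θ3) (hj : 9 ≤ j)
    {x : P} (hx : x ∉ rA N) (hl : 7 ≤ lev x) : thA N θ4 x ≤ thA N θ5 x := by
  have HN := W.natSys
  rcases not_mem_rA.mp hx with h | h
  · have e1 : thA N θ4 x = θ4 (topOf x) x := thX_not (W.not_tw h)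
    have e2 : thA N θ5 x = θ5 (topOf x) x := thX_not (W.not_tw h)
    rw [e1, e2]
    exact (F.typ _).ge (HN.mem_iff.mpr ⟨h, rfl⟩) hl
  · have hlt := W.lt_lev (mem_twA.mp h).1
    have hll := W.twSys.lev h
    have T := F.tw W (by omega) h
    have e1 : thA N θ4 x = θ4 (topOf (twT N x)) (twT N x) := thA_tw4 h
    have e2 : thA N θ5 x = θ5 (topOf (twT N x)) (twT N x) := thA_tw4 h
    rw [e1, e2]
    exact (T.th (by omega)).1

/-- the labels grow -/
lemma Fz.hA_le (F : Fz P j lo hi e N θ4 θ5 Nf θf D) (W : Wk r j 3 K3 N b θ3) (hj : 9 ≤ j)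
    {z : P} (hz : z ∈ bdR (rA N)) : hA N θ4 z ≤ hA N θ5 z := by
  obtain ⟨x, h1, h2, h3⟩ := hcan_spec (θ := thA N θ5) hz
  have h4 : hA N θ4 z ≤ thA N θ4 x + 1 := hcan_le h1 h2
  have h5 : hA N θ5 z = thA N θ5 x + 1 := h3
  have h6 := W.lt_lev (mem_rA.mp (mem_bdR.mp hz).1).1
  have h7 := W.gt.H.gradedBelow.lev_covBy h2
  have h8 := F.thA_le W hj h1 (by omega)
  omega

/-- the costs grow with the label -/
lemma cst_mono_h {i : ℕ} {h h' : P → ℕ} {z : P} (hh : h z ≤ h' z) : cst i h z ≤ cst i h' z := by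
  unfold cst ez
  refine Finset.sum_le_sum fun x _ => ?_
  split_ifs
  · exact min_le_min hh le_rfl
  · exact le_rfl

lemma tcst_mono_th {i : ℕ} {θ θ' : P → ℕ} {t : P × P} (hh : θ t.1 ≤ θ' t.1) :
    tcst i θ t ≤ tcst i θ' t := by
  unfold tcst tez
  refine Finset.sum_le_sum fun x _ => ?_
  split_ifs
  · exact hh
  · omega
  · exact min_le_min (by omega) le_rfl
  · exact le_rfl

end Pool.Agent.GaussPoset.Ec

end

/-! From `Pool.Agent.W_448s7s_h5.TuG` -/

section

/-!
The energies of the defect tops at window `4`, thresholds `thD` for the stairs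
(MP_448cb3_co, S7, `j = 13`).
-/

namespace Pool.Agent.GaussPoset.Ec

set_option linter.unusedSectionVars false

open Polynomial Finset Sm Wd Cp W4 Cl

universe u

variable {P : Type u} [Fintype P] [PartialOrder P] [DecidableEq P] {r j : ℕ}
  {lo hi : Tops P → ℕ → ℕ} {e : Tops P → ℕ → ℕ → P} {N : Tops P → Finset P}
  {θ3 θ4 θ5 : Tops P → P → ℕ} {Nf : Tops P → Finset P} {θf : Tops P → (ℕ → ℕ → ℕ) → P → ℕ}
  {D : Tops P → Prop} {K3 : ℕ} {b : Tops P → ℕ}

/-- **The energy of a defect of a stair top.** -/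
theorem Fz.stair_defect0 (F : Fz P j lo hi e N θ4 θ5 Nf θf D) (W : Wk r j 3 K3 N b θ3)
    (hj : 12 ≤ j) {m : ℕ} {t : Tops P} {Nc : Finset P}
    {co : P → ℕ × ℕ} (h0 : StairNat j 4 t Nc co) (h1 : N t = natS Nc co)
    (h2' : θ4 t = thSg 2 4 Nc co)
    (hm : ∀ a ∈ Finset.Icc 1 (j / 2), m ≤ deC j a)
    {e : P → ℕ} {F' : Finset P} (hV : Vd 4 e F') {z x : P} (hzx : z ⋖ x)
    (hx : x ∈ natS Nc co) (hz : z ∉ natS Nc co) (he : thS 4 Nc co x < e z)
    (hr : z ∈ rA N → x ∉ junk (fun c => c.1 ≤ c.2) Nc co ∧ 1 ≤ (co x).1) :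
    m ≤ ∑ y ∈ natS Nc co, e y := by
  classical
  have H := W.gt.H
  have HN := W.natSys
  have e1 := (H.covBy_iff.mp hzx).2
  obtain ⟨hxu, hxt⟩ := HN.mem_iff.mp (show x ∈ N t by rw [h1]; exact hx)
  have hzu : z ∈ unnat N := by
    by_contra hcon
    apply hz
    rw [← h1]
    refine HN.mem_iff.mpr ⟨hcon, ?_⟩
    rw [← hxt]
    exact (W.up hcon hzx.1.le).2.symm
  have hlz := W.lt_lev hzu
  -- a cell of level `j`
  have key : ∀ x1 ∈ Nc, 1 ≤ (co x1).1 → j ≤ lev x1 → z ≤ x1 → thS 4 Nc co x1 < e z →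
      m ≤ ∑ y ∈ natS Nc co, e y := by
    intro x1 hx1 ha hl1 hzx1 he1
    have hl := h0.chart.lev x1 hx1
    have hmm : (co x1).1 ≤ (co x1).2 := h0.chart.mem x1 hx1
    obtain ⟨y, hy, hcy⟩ := h0.chart.low x1 hx1 (j - min (co x1).2 (j - 1), min (co x1).2 (j - 1))
      ⟨by simp only; omega, by simp only; omega⟩
      (show j - min (co x1).2 (j - 1) ≤ min (co x1).2 (j - 1) by omega)
    have hy1 : (co y).1 = j - min (co x1).2 (j - 1) := by rw [hcy]
    have hy2 : (co y).2 = min (co x1).2 (j - 1) := by rw [hcy]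
    have hly := h0.chart.lev y hy
    have hxy : x1 ≤ y := by
      rw [h0.chart.le_iff x1 hx1 y hy, hcy]
      exact ⟨by simp only; omega, by simp only; omega⟩
    have hJ1 : x1 ∉ junk (fun c => c.1 ≤ c.2) Nc co := not_junk_above h0.chart hx1 ha le_rfl
    have hJy : y ∉ junk (fun c => c.1 ≤ c.2) Nc co := not_junk_above h0.chart hx1 ha hxy
    have hth : thS 4 Nc co y ≤ thS 4 Nc co x1 := by
      unfold thS
      rw [if_neg hJ1, if_neg hJy]
      omega
    have hthy : thS 4 Nc co y + 1 = ((co y).1 - 4) + (j - (co y).1 - 4) + 1 := by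
      unfold thS
      rw [if_neg hJy, show (co y).2 = j - (co y).1 by omega]
    have h3 := cst_stair (w := 4) (L := j) (h := thS 4 Nc co y + 1) h0.chart hy (by omega)
      (by omega)
    have h4 := hm (co y).1 (by rw [Finset.mem_Icc]; omega)
    have h5 : deC j (co y).1 = cst 4 (fun _ => thS 4 Nc co y + 1) y := by
      rw [h3, hthy]
      rfl
    rw [h5] at h4
    refine h4.trans ?_
    have h6 : cst 4 (fun _ => thS 4 Nc co y + 1) y =
        ∑ v ∈ natS Nc co, ez 4 (fun _ => thS 4 Nc co y + 1) y v := by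
      unfold cst
      symm
      refine Finset.sum_subset (Finset.subset_univ _) fun v _ hv => ?_
      unfold ez
      rw [if_neg]
      intro hyv
      exact hv (mem_natS.mpr (Or.inl (h0.chart.up y hy v hyv)))
    rw [h6]
    refine Finset.sum_le_sum fun v _ => ?_
    refine le_trans ?_ (ez_le (i := 4) (h := fun _ => e z) hV (z := z) (by omega)
      (Or.inr le_rfl) v)
    unfold ez
    split_ifs with g1 g2
    · refine min_le_min ?_ le_rfl
      show thS 4 Nc co y + 1 ≤ e z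
      omega
    · exact absurd (hzx1.trans (hxy.trans g1)) g2
    · exact Nat.zero_le _
    · exact Nat.zero_le _
  by_cases hzR : z ∈ rA N
  · obtain ⟨hJ, ha⟩ := hr hzR
    have hxN : x ∈ Nc := by
      rw [mem_natS] at hx
      exact hx.resolve_right hJ
    exact key x hxN ha (by omega) hzx.1.le he
  · have hzT : z ∈ twA N := by
      by_contra hcon
      exact hzR (mem_rA.mpr ⟨hzu, hcon⟩)
    have h3 := twT_spec (mem_twA.mp hzT).2
    have hlev := W.twSys.lev hzT
    have T := F.tw W (by omega) hzT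
    have hth4 := (T.th (by omega)).2.2.2
    generalize twT N z = y0 at h3 hlev T hth4
    have hyx : y0 ⋖ x := (cov_of_up h3.2).mpr hzx
    have hty : topOf y0 = t := by
      rw [← hxt]
      exact (W.up h3.1 hyx.1.le).2.symm
    have hyN : y0 ∈ natS Nc co := by
      rw [← h1]
      exact HN.mem_iff.mpr ⟨h3.1, hty⟩
    rw [hty, h2'] at hth4
    have hJ : y0 ∉ junk (fun c => c.1 ≤ c.2) Nc co := by
      intro hJ
      unfold thSg at hth4
      rw [if_pos hJ] at hth4
      omega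
    have hy0 : y0 ∈ Nc := by
      rw [mem_natS] at hyN
      exact hyN.resolve_right hJ
    have h4 := stair_th4 h0 hy0 hJ (by omega)
    have hl := h0.chart.lev y0 hy0
    have hmm : (co y0).1 ≤ (co y0).2 := h0.chart.mem y0 hy0
    have hxN := h0.chart.up y0 hy0 x hyx.1.le
    have hmx : (co x).1 ≤ (co x).2 := h0.chart.mem x hxN
    have hcx := (chart_cov h0.chart H hy0 hxN).mp hyx
    unfold Prd at hcx
    rcases Nat.lt_or_ge (co y0).1 (co y0).2 with hlt | hge
    · obtain ⟨x1, hx1, hcx1⟩ := h0.chart.low y0 hy0 ((co y0).1, (co y0).2 - 1)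
        ⟨le_rfl, Nat.sub_le _ _⟩ (show (co y0).1 ≤ (co y0).2 - 1 by omega)
      have hl1 := h0.chart.lev x1 hx1
      have a1 : (co x1).1 = (co y0).1 := by rw [hcx1]
      have a2 : (co x1).2 = (co y0).2 - 1 := by rw [hcx1]
      have hyx1 : y0 < x1 := by
        refine lt_of_le_of_ne ((h0.chart.le_iff y0 hy0 x1 hx1).mpr ⟨by omega, by omega⟩) ?_
        rintro rfl
        omega
      refine key x1 hx1 (by omega) (by omega) ((h3.2 x1).mp hyx1).le ?_
      refine lt_of_le_of_lt ?_ he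
      have hJ1 : x1 ∉ junk (fun c => c.1 ≤ c.2) Nc co :=
        not_junk_above h0.chart hy0 (by omega) hyx1.le
      have hJx : x ∉ junk (fun c => c.1 ≤ c.2) Nc co :=
        not_junk_above h0.chart hy0 (by omega) hyx.1.le
      unfold thS
      rw [if_neg hJ1, if_neg hJx]
      omega
    · have hxl := h0.chart.lev x hxN
      exact key x hxN (by omega) (by omega) hzx.1.le he

/-- **At most one defect top is hit.** -/
theorem Fz.card_le0 (F : Fz P j lo hi e N θ4 θ5 Nf θf D) (K : Ctx P r j lo hi e) (h12 : 12 ≤ j)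
    (W : Wk r j 3 K3 N b θ3) {n m : ℕ} (hm : MinT E7t4 j m)
    (hS : ∀ a ∈ Finset.Icc 1 (j / 2), m ≤ deC j a) (hn : n < (1 + 1) * m)
    {e' : P → ℕ} {F' : Finset P} (hV : Vd 4 e' F') (hs : ∑ x, e' x = n)
    (hok : ∀ z ∈ rA N, ∀ x, x ∉ rA N → z ⋖ x → e' z ≤ thA N θ5 x ∨
      ∀ Nc co, StairNat j 4 (topOf x) Nc co → N (topOf x) = natS Nc co →
        x ∉ junk (fun c => c.1 ≤ c.2) Nc co ∧ 1 ≤ (co x).1) :
    (Ew.KE (ED D) Nf (fun t => θf t E7t4) e').card ≤ 1 := by
  classical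
  have H := K.gt.H
  have hg := K.gt.good
  refine Ew.card_KE_le (F.ew K (by omega) W).natSys hs (fun t ht => ?_) hn
  obtain ⟨htE, z, x, hzx, hx, hz, hlt⟩ := Ew.mem_KE.mp ht
  have htD := mem_ED.mp htE
  have e1 := (H.covBy_iff.mp hzx).2
  rcases F.typ t with ⟨h1, h2, h3, h4, h5, h6, h7, h9⟩ |
    ⟨c, Nc, co, h0, h1, h2, h3, h4, h5, h6, h7, h9⟩ |
    ⟨h0, h1, h2, h3, h4, h5, h6, h7, h8, h9⟩ | ⟨Nc, co, h0, h1, h2, h3, h4, h5, h6, h9⟩
  · exact absurd htD h6
  · exact absurd htD h6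
  · rw [h4] at hx hz
    obtain ⟨hxt, hxl⟩ := mem_lowPart.mp hx
    have hzl : j < lev z := by
      by_contra hcon
      exact hz (mem_lowPart.mpr ⟨hzx.1.le.trans hxt, by omega⟩)
    have hlx : lev x = j := by omega
    obtain ⟨s, a1, a2, a3⟩ := (K.comp t).surj x hxt (by omega)
    rw [hlx] at a1 a2 a3
    have hxB : x ∈ onlyB t := h7 x hxt hxl
    have hlow : ∀ x ∈ Nf t, ∀ y, x ≤ y → y ∈ Nf t := by
      rw [h4]
      intro x hx y hxy
      obtain ⟨g1, g2⟩ := mem_lowPart.mp hx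
      have g3 := lev_anti hxy
      exact mem_lowPart.mpr ⟨onlyB_le (onlyB_up (h7 x g1 g2) hxy), by omega⟩
    have hts : E7t4 j s < e' z := by
      rw [h5, ← a3] at hlt
      have h9 := thC_e (K.comp t) E7t4 le_rfl a1 a2
      simp only at hlt
      rwa [h9] at hlt
    have h10 := Ew.cst_le_sum hV hzx.1.le (by omega) (h := E7t4 j s + 1)
      (Or.inr (Nat.succ_le_of_lt hts)) (A := Nf t) (by rw [h4]; exact hx) hlow
    rw [← a3, Ew.cst_word h0 (K.comp t) H hg a1 a2 (by rw [a3]; exact hxB)] at h10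
    obtain ⟨r1, r2⟩ := h0.rows (K.comp t)
    refine le_trans (hm s (Finset.mem_Icc.mpr ⟨?_, ?_⟩)) h10
    · rw [← r1 j le_rfl]
      exact a1
    · rw [← r2 j le_rfl]
      exact a2
  · rw [h4, h1] at hx hz ⊢
    rw [h5] at hlt
    have hxN : x ∈ N t := by rw [h1]; exact hx
    obtain ⟨hxu, hxt⟩ := W.natSys.mem_iff.mp hxN
    have hlt' : thS 4 Nc co x < e' z := hlt
    refine F.stair_defect0 W h12 h0 h1 h2 hS hV hzx hx hz hlt' fun hzR => ?_
    have hxR : x ∉ rA N := fun h => hxu (mem_rA.mp h).1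
    rcases hok z hzR x hxR hzx with h10 | h10
    · have e2 : thA N θ5 x = θ5 (topOf x) x := thX_not (W.not_tw hxu)
      rw [e2, hxt, h9] at h10
      have hJ : x ∉ junk (fun c => c.1 ≤ c.2) Nc co := by
        intro hJ
        unfold thS at hlt'
        unfold thD at h10
        rw [if_pos hJ] at hlt' h10
        omega
      refine ⟨hJ, ?_⟩
      unfold thS at hlt'
      unfold thD at h10
      rw [if_neg hJ] at hlt' h10
      omega
    · exact h10 Nc co (by rw [hxt]; exact h0) (by rw [hxt]; exact h1)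

/-- **At most one defect top is hit.** -/
theorem Fz.card_le (F : Fz P j lo hi e N θ4 θ5 Nf θf D) (K : Ctx P r j lo hi e) (h12 : 12 ≤ j)
    (W : Wk r j 3 K3 N b θ3) {n m : ℕ} (hm : MinT E7t4 j m)
    (hS : ∀ a ∈ Finset.Icc 1 (j / 2), m ≤ deC j a) (hn : n < (1 + 1) * m)
    {e' : P → ℕ} {F' : Finset P} (hV : Vd 4 e' F') (hs : ∑ x, e' x = n)
    (hok : Ew.Ok (rA N) (thA N θ5) e') :
    (Ew.KE (ED D) Nf (fun t => θf t E7t4) e').card ≤ 1 :=
  F.card_le0 K h12 W hm hS hn hV hs fun z hz x hx hzx => Or.inl (hok z hz x hx hzx)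

lemma minT_13 : MinT E7t4 13 76 := by decide +kernel

theorem de_13 : ∀ a ∈ Finset.Icc 1 (13 / 2), 76 ≤ deC 13 a := by decide +kernel

end Pool.Agent.GaussPoset.Ec

end
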