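import Mathlib
import Pool.Agent.W_448zz_h61.Ns
import Pool.Agent.W_448zz_h61.M144
import Pool.Agent.W_448zz_h61.M207

/-! From `Pool.Agent.W_448s7s_h5.TuHb` -/

section

/-!
The equivalence for the inclusion-exclusion with larger labels at some pendants below the
defect tops (MP_448cb3_co, S7, flips).
-/

namespace Pool.Agent.GaussPoset.Ew

set_option linter.unusedSectionVars false

open Polynomial Finset

universe u

variable {P : Type u} [Fintype P] [PartialOrder P] [DecidableEq P]
variable {i : ℕ} {N N1 : Tops P → Finset P} {b : Tops P → ℕ} {θ θ1 : Tops P → P → ℕ}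
  {E S : Finset (Tops P)} {Y : Finset P} {τ : P → P} {Z : Finset P} {n : ℕ}

section

variable (W : EW i E N N1 b θ θ1 Y τ) (G : Fl i E N N1 b θ1 Y Z n)

include W G

/-- **The equivalence.** -/
theorem EW.okR_iff_S (hS : S ⊆ E) {e : P → ℕ} {F : Finset P} (hV : Vd i e F) :
    OkR Z S (RS E N N1 Y S) (thS E θ θ1 Y τ S) e ↔
      (OkR Z E (RS E N N1 Y E) (thS E θ θ1 Y τ E) e ∧ KE E N θ e ⊆ S) := by
  classical
  have HS := W.natSysS hS
  have HE := W.natSysS (Finset.Subset.refl E)
  have hsub := W.RS_sub hS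
  have hmono : ∀ z x1 x2 : P, z ∈ RS E N N1 Y S → x1 ∈ RS E N N1 Y S → x2 ∉ RS E N N1 Y S →
      z ≤ x1 → x1 ⋖ x2 → e x1 ≤ thS E θ θ1 Y τ S x2 → e z ≤ e x1 := by
    intro z x1 x2 hz h1 h2 hzx hc he
    have h3 := W.th_le hS h2
    have hl2 := W.gr.lev_covBy hc
    have hl1 := W.lev_RS hS x1 h1
    have hlz := W.lev_RS hS z hz
    have hx1F : x1 ∉ F := by
      intro hF
      have := sub_le_of_mem hV hF
      omega
    have hzF : z ∉ F := fun h => hx1F (hV.1 z x1 hzx h)
    have h4 := hV.2.2.1 z x1 hzx hzF hx1F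
    rw [rho_of_lt hlz, rho_of_lt hl1] at h4
    exact_mod_cast h4
  have hYE : ∀ x ∈ Y, x ∈ unnat (NS N N1 E) := fun x hx => W.tw.sub hx
  -- the larger labels below a natural element of a top outside `S`
  have hd0 : ∀ z x : P, z ⋖ x → topOf x ∉ S → dl Z S z = 0 := by
    intro z x hzx ht
    refine dl_not ?_
    rintro ⟨h1, x1, h2, h3⟩
    obtain ⟨x0, -, h4, -⟩ := G.cov z h1
    rw [h4 x1 h2, ← h4 x hzx] at h3
    exact ht h3
  have hd1 : ∀ z x : P, z ⋖ x → (topOf x ∉ E ∨ topOf x ∈ S) → dl Z E z ≤ dl Z S z := by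
    intro z x hzx ht
    by_cases h : z ∈ Z ∧ ∃ x, z ⋖ x ∧ topOf x ∈ E
    · obtain ⟨h1, x1, h2, h3⟩ := h
      obtain ⟨x0, -, h4, -⟩ := G.cov z h1
      have e1 : x1 = x := (h4 x1 h2).trans (h4 x hzx).symm
      rw [dl_of h1 hzx (ht.resolve_left (by rw [← e1]; exact not_not.mpr h3))]
      unfold dl
      split_ifs <;> omega
    · rw [dl_not h]
      exact Nat.zero_le _
  constructor
  · intro hok
    refine ⟨?_, ?_⟩
    · intro z hz x hx hzx
      have hzS := hsub hz
      by_cases hxS : x ∈ RS E N N1 Y S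
      · -- `x` is an own element of a top of `E \ S`
        have ht : topOf x ∈ E ∧ topOf x ∉ S := by
          by_contra hcon
          have ht' : topOf x ∉ E ∨ topOf x ∈ S := by
            by_cases h : topOf x ∈ E
            · exact Or.inr (by by_contra h'; exact hcon ⟨h, h'⟩)
            · exact Or.inl h
          obtain ⟨h1, h2⟩ := mem_sdiff.mp hxS
          rw [YS_iff W ht'] at h2
          refine hx (mem_sdiff.mpr ⟨?_, by rw [YS_self]; exact h2⟩)
          by_contra h3
          exact W.nat_of_not hS h3 ht' h1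
        refine le_trans ?_ (Nat.le_add_right _ _)
        by_cases hxY : x ∈ Y
        · -- a twin
          obtain ⟨g1, g2⟩ := W.twE x hxY ht.1
          have hlx := W.lev_RS hS x hxS
          have hlt : x < (topOf x : P) := by
            refine lt_of_le_of_ne (le_topOf x) fun h => ?_
            have h2 : lev (topOf x : P) = 0 := (topOf x).2
            rw [← h] at h2
            omega
          obtain ⟨y, hy, -⟩ := exists_covBy_le_of_lt hlt
          have hyN : y ∈ N (topOf x) :=
            W.natSys.up _ _ g1 y ((W.tw.up x hxY y).mpr hy.1).le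
          have hxN : x ∉ N (topOf x) := fun h => by
            have h1 := hYE x hxY
            refine mem_unnat.mp h1 (topOf x) ?_
            rw [NS_of ht.1]
            exact W.sub _ ht.1 h
          obtain ⟨f1, f2, f3⟩ := W.far_of_cov hS ht.1 ht.2 hy hyN hxN
          have h1 := hok x hxS y f2 hy
          have hty : topOf y = topOf x := W.natSys.topOf_eq hyN
          rw [hd0 x y hy (by rw [hty]; exact ht.2), add_zero] at h1
          have h2 := hmono z x y hzS hxS f2 hzx.1.le hy h1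
          rw [f3] at h1
          have h3 := g2 y hy
          have h4 : thS E θ θ1 Y τ E x = θ1 (topOf x) (τ x) := by
            unfold thS
            rw [YS_self, thX_of hxY, W.tw.cp x hxY, tS_of ht.1]
          rw [h4]
          omega
        · -- an element of the larger natural set
          have hxu : x ∉ unnat (NS N N1 E) := fun h =>
            hx (mem_sdiff.mpr ⟨h, by rw [YS_self]; exact hxY⟩)
          have hxN1 : x ∈ N1 (topOf x) := by
            have := HE.mem_iff.mpr ⟨hxu, rfl⟩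
            rwa [NS_of ht.1] at this
          have hxN : x ∉ N (topOf x) := fun h => by
            refine mem_unnat.mp (mem_sdiff.mp hxS).1 (topOf x) ?_
            rw [NS_not ht.2]
            exact h
          choose B hB using W.natS hS
          have htop0 : (topOf x : P) ∉ unnat (NS N N1 S) := by
            have h2 : lev (topOf x : P) = 0 := (topOf x).2
            exact low_natural hB (by omega)
          have hne : (topOf x : P) ∉ RS E N N1 Y S := fun h => htop0 (mem_sdiff.mp h).1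
          obtain ⟨x1, x2, f1, f2, f3, f4, f5⟩ := exists_exit hxS hne (le_topOf x)
          have hxx2 : x ≤ x2 := f1.trans f3.1.le
          have hx2E : x2 ∈ NS N N1 E (topOf x) :=
            HE.up _ x (HE.mem_iff.mpr ⟨hxu, rfl⟩) x2 hxx2
          have hx2u : x2 ∉ unnat (NS N N1 E) := (HE.mem_iff.mp hx2E).1
          have hx2S : x2 ∉ unnat (NS N N1 S) := by
            intro h
            refine f4 (mem_sdiff.mpr ⟨h, fun h' => hx2u (hYE x2 (mem_YS.mp h').1)⟩)
          have hx2N : x2 ∈ N (topOf x) := by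
            have h1 := HS.mem_iff.mpr ⟨hx2S, rfl⟩
            rw [(HE.mem_iff.mp hx2E).2, NS_not ht.2] at h1
            exact h1
          have hx1N : x1 ∉ N (topOf x) := fun h => by
            refine mem_unnat.mp (mem_sdiff.mp f2).1 (topOf x) ?_
            rw [NS_not ht.2]
            exact h
          obtain ⟨k1, k2, k3⟩ := W.far_of_cov hS ht.1 ht.2 f3 hx2N hx1N
          have h1 := hok x1 f2 x2 f4 f3
          have hty : topOf x2 = topOf x := (HE.mem_iff.mp hx2E).2
          rw [hd0 x1 x2 f3 (by rw [hty]; exact ht.2), add_zero] at h1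
          have h2 := hmono z x1 x2 hzS f2 f4 (hzx.1.le.trans f1) f3 h1
          rw [k3] at h1
          have h3 := W.le2 _ ht.1 x hxN1 hxN x2 hx2N hxx2
          have h4 : thS E θ θ1 Y τ E x = θ1 (topOf x) x := by
            unfold thS
            rw [YS_self, thX_not hxY, tS_of ht.1]
          rw [h4]
          omega
      · have h1 := hok z hzS x hxS hzx
        by_cases ht : topOf x ∉ E ∨ topOf x ∈ S
        · rw [W.thS_eq hS ht] at h1
          have := dl_mono (Z := Z) hS z
          omega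
        · push Not at ht
          rw [hd0 z x hzx ht.2, add_zero] at h1
          refine le_trans ?_ (Nat.le_add_right _ _)
          have hxYS : x ∉ YS E Y S := fun h => by
            rcases (mem_YS.mp h).2 with h | h
            · exact h ht.1
            · exact ht.2 h
          have hxu : x ∉ unnat (NS N N1 S) := fun h => hxS (mem_sdiff.mpr ⟨h, hxYS⟩)
          have hxN : x ∈ N (topOf x) := by
            have := HS.mem_iff.mpr ⟨hxu, rfl⟩
            rwa [NS_not ht.2] at this
          have hxY : x ∉ Y := fun h => by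
            refine mem_unnat.mp (hYE x h) (topOf x) ?_
            rw [NS_of ht.1]
            exact W.sub _ ht.1 hxN
          have h5 : thS E θ θ1 Y τ S x = θ (topOf x) x := by
            unfold thS
            rw [thX_not hxYS, tS_not ht.2]
          have h6 : thS E θ θ1 Y τ E x = θ1 (topOf x) x := by
            unfold thS
            rw [YS_self, thX_not hxY, tS_of ht.1]
          have h7 := W.le1 _ ht.1 x hxN
          rw [h5] at h1
          rw [h6]
          omega
    · intro t ht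
      obtain ⟨htE, z, x, hzx, hx, hz, hlt⟩ := mem_KE.mp ht
      by_contra htS
      obtain ⟨g1, g2, g3⟩ := W.far_of_cov hS htE htS hzx hx hz
      have h1 := hok z g1 x g2 hzx
      have hty : topOf x = t := W.natSys.topOf_eq hx
      rw [hd0 z x hzx (by rw [hty]; exact htS), add_zero] at h1
      omega
  · rintro ⟨hok, hK⟩ z hz x hx hzx
    by_cases ht : topOf x ∉ E ∨ topOf x ∈ S
    · rw [W.thS_eq hS ht]
      have hxE : x ∉ RS E N N1 Y E := fun h => hx (hsub h)
      have hzE : z ∈ RS E N N1 Y E := by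
        refine mem_sdiff.mpr ⟨?_, ?_⟩
        · by_contra hcon
          have h1 : topOf z = topOf x := HE.cp z x hzx.1.le hcon
          exact W.nat_of_not hS hcon (by rw [h1]; exact ht) (mem_sdiff.mp hz).1
        · rw [YS_self]
          intro hzY
          have h2 := W.tw.nat z hzY
          have h3 : τ z < x := (W.tw.up z hzY x).mpr hzx.1
          have h4 : topOf (τ z) = topOf x := HE.cp _ _ h3.le h2
          rw [W.tw.cp z hzY] at h4
          exact (mem_sdiff.mp hz).2 (mem_YS.mpr ⟨hzY, by rw [h4]; exact ht⟩)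
      have h1 := hok z hzE x hxE hzx
      have := hd1 z x hzx ht
      omega
    · push Not at ht
      refine le_trans ?_ (Nat.le_add_right _ _)
      have hxYS : x ∉ YS E Y S := fun h => by
        rcases (mem_YS.mp h).2 with h | h
        · exact h ht.1
        · exact ht.2 h
      have hxu : x ∉ unnat (NS N N1 S) := fun h => hx (mem_sdiff.mpr ⟨h, hxYS⟩)
      have hxN : x ∈ N (topOf x) := by
        have := HS.mem_iff.mpr ⟨hxu, rfl⟩
        rwa [NS_not ht.2] at this
      have hzN : z ∉ N (topOf x) := by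
        intro h
        refine mem_unnat.mp (mem_sdiff.mp hz).1 (topOf x) ?_
        rw [NS_not ht.2]
        exact h
      have h6 : thS E θ θ1 Y τ S x = θ (topOf x) x := by
        unfold thS
        rw [thX_not hxYS, tS_not ht.2]
      rw [h6]
      by_contra hcon
      push Not at hcon
      exact ht.2 (hK (mem_KE.mpr ⟨ht.1, z, x, hzx, hxN, hzN, hcon⟩))

end

end Pool.Agent.GaussPoset.Ew

end

/-! From `Pool.Agent.W_448s7s_h5.TuI` -/

section

/-!
The window theorem with larger labels at some pendants below the defect tops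
(MP_448cb3_co, S7, flips).
-/

namespace Pool.Agent.GaussPoset.Ew

set_option linter.unusedSectionVars false

open Polynomial Finset

universe u

variable {P : Type u} [Fintype P] [PartialOrder P] [DecidableEq P]
variable {i : ℕ} {N N1 : Tops P → Finset P} {b : Tops P → ℕ} {θ θ1 : Tops P → P → ℕ}
  {E S : Finset (Tops P)} {Y : Finset P} {τ : P → P} {Z : Finset P} {n : ℕ}

section

variable (W : EW i E N N1 b θ θ1 Y τ) (G : Fl i E N N1 b θ1 Y Z n)

include W G

/-- the larger labels are at most the level -/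
lemma EW.hR_bd (hS : S ⊆ E)
    (hcost : ∀ x ∈ Y, n < tcst i (thS E θ θ1 Y τ E) (τ x, x)) {z : P}
    (hz : z ∈ bdR (RS E N N1 Y S)) :
    1 ≤ hR Z E N N1 θ θ1 Y τ S z ∧ hR Z E N N1 θ θ1 Y τ S z ≤ lev z - i := by
  have H := W.farX hS n (fun x hx => (hcost x hx).le)
  have h1 : Ew.hS E N N1 θ θ1 Y τ S z ≤ lev z - i := H.le_lev z hz
  have h0 : 1 ≤ Ew.hS E N N1 θ θ1 Y τ S z := H.one_le z hz
  refine ⟨?_, ?_⟩
  · show 1 ≤ Ew.hS E N N1 θ θ1 Y τ S z + dl Z S z
    omega
  · show Ew.hS E N N1 θ θ1 Y τ S z + dl Z S z ≤ lev z - i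
    by_cases h : z ∈ Z ∧ ∃ x, z ⋖ x ∧ topOf x ∈ S
    · obtain ⟨h2, x, h3, h4⟩ := h
      rw [dl_of h2 h3 h4, W.hS_fl G hS h2 h3 h4]
      obtain ⟨x0, -, h5, -, -, -, h6, -⟩ := W.fl_cov G hS h2
      rw [h5 x h3]
      omega
    · rw [dl_not h]
      exact h1

/-- **The window theorem with larger labels at the flips.**  The least cost in the coarse system
is `n` and no configuration of energy `n` hits more than `d` tops of `E`. -/
theorem EW.signR {d : ℕ} (hB : ∑ t, b t = (lv P i).card)
    (hZ : (1 + X : ℤ[X]) ^ (lv P i).card ∣ GaussPoset.Z P i n)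
    (hcost : ∀ x ∈ Y, n < tcst i (thS E θ θ1 Y τ E) (τ x, x))
    (hmin : ∀ z ∈ bdR (RS E N N1 Y E), n ≤ cst i (hR Z E N N1 θ θ1 Y τ E) z)
    (hK : ∀ e F, Vd i e F → ∑ x, e x = n →
      OkR Z E (RS E N N1 Y E) (thS E θ θ1 Y τ E) e → (KE E N θ e).card ≤ d)
    {c0 : ℕ} (hc : c0 + d < (lv P i).card)
    (hle : ∀ z ∈ bdR (RS E N N1 Y E), cst i (hR Z E N N1 θ θ1 Y τ E) z = n →
      c0 + nab i z ≤ (lv P i).card + nab (i + hR Z E N N1 θ θ1 Y τ E z) z) :
    ∑ z ∈ (bdR (RS E N N1 Y E)).filter (fun z => cst i (hR Z E N N1 θ θ1 Y τ E) z = n ∧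
        c0 + nab i z = (lv P i).card + nab (i + hR Z E N N1 θ θ1 Y τ E z) z),
      (-1 : ℤ) ^ (nst i (hR Z E N N1 θ θ1 Y τ E) z) = 0 := by
  classical
  have hEE := Finset.Subset.refl E
  have key := far_ie_sign (i := i) (n := n) (d := d) (b := (lv P i).card - d)
    (fun e _ => OkR Z E (RS E N N1 Y E) (thS E θ θ1 Y τ E) e) (fun e _ => KE E N θ e) E
    (fun S => RS E N N1 Y S) (fun S => hR Z E N N1 θ θ1 Y τ S)
    (fun e F => by
      intro t ht
      exact (mem_KE.mp ht).1)
    (fun S hS hSd => by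
      refine dvd_trans (pow_dvd_pow _ ?_) (W.farR G hS hcost)
      have := W.sum_bS hS
      omega)
    (fun S hS _ e F hV _ => by
      rw [W.okR_iff G hS hV]
      exact W.okR_iff_S G hS hV)
    (dvd_trans (pow_dvd_pow _ (Nat.sub_le _ _)) hZ) W.gr (hR Z E N N1 θ θ1 Y τ E)
    ((bdR (RS E N N1 Y E)).filter (fun z => cst i (hR Z E N N1 θ θ1 Y τ E) z = n))
    (fun z hz => W.hR_bd G hEE hcost (mem_filter.mp hz).1)
    (fun z hz => (mem_filter.mp hz).2)
    (fun z hz F hV h => by
      have hz' := (mem_filter.mp hz).1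
      obtain ⟨x, hx, hzx, hx2⟩ := hcan_spec (θ := thS E θ θ1 Y τ E) hz'
      have h1 := h.1 z (mem_filter.mp hz').1 x hx hzx
      rw [ez_self (W.hR_bd G hEE hcost hz').2] at h1
      have h2 : Ew.hS E N N1 θ θ1 Y τ E z = thS E θ θ1 Y τ E x + 1 := hx2
      have h3 : hR Z E N N1 θ θ1 Y τ E z = Ew.hS E N N1 θ θ1 Y τ E z + dl Z E z := rfl
      omega)
    (fun e F hV hs hbad => by
      have hq : ¬ OkR Z E (RS E N N1 Y E) (thS E θ θ1 Y τ E) e := fun h =>
        hbad ⟨h, hK e F hV hs h⟩
      rw [← W.okR_iff G hEE hV] at hq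
      push Not at hq
      obtain ⟨z, hz, hd⟩ := hq
      have h4 : ∀ x, ez i (hR Z E N N1 θ θ1 Y τ E) z x ≤ e x :=
        ez_le hV (W.lev_RS hEE z (mem_filter.mp hz).1) hd
      have h6 : cst i (hR Z E N N1 θ θ1 Y τ E) z ≤ n := by
        rw [← hs]; exact Finset.sum_le_sum fun x _ => h4 x
      have h7 : cst i (hR Z E N N1 θ θ1 Y τ E) z = n := le_antisymm h6 (hmin z hz)
      refine ⟨z, mem_filter.mpr ⟨hz, h7⟩, ?_⟩
      funext x
      have h9 : ∑ x, ez i (hR Z E N N1 θ θ1 Y τ E) z x = ∑ x, e x := by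
        rw [hs]; exact h7
      exact ((Finset.sum_eq_sum_iff_of_le (fun x _ => h4 x)).mp h9 x (mem_univ x)).symm)
    (c0 := c0) (by omega)
    (fun z hz => hle z (mem_filter.mp hz).1 (mem_filter.mp hz).2)
  rw [Finset.filter_filter] at key
  exact key

end

end Pool.Agent.GaussPoset.Ew

end

/-! From `Pool.Agent.W_448s7s_h5.TuJ` -/

section

/-!
The cells of the flips and of the special twins at window `4`, `j = 13` (MP_448cb3_co, S7).
-/

namespace Pool.Agent.GaussPoset.Ec

set_option linter.unusedSectionVars false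

open Polynomial Finset Sm Wd Cp W4 Cl

universe u

variable {P : Type u} [Fintype P] [PartialOrder P] [DecidableEq P] {r : ℕ}

section

variable {t : Tops P} {lo hi : ℕ → ℕ} {e : ℕ → ℕ → P} {N : Finset P} {θ4 θ5 : P → ℕ}
  {Nf : Finset P} {θf : (ℕ → ℕ → ℕ) → P → ℕ} {d : Prop}

/-- the type of the top of a flip -/
theorem FineZ.flip (F : FineZ 13 t lo hi e N θ4 θ5 (hi 4 - lo 4 + 1) Nf θf d)
    (C : Comp 13 (t : P) lo hi e) {x : P} (hxt : x ≤ (t : P)) (hl : lev x = 13)
    (n3 : nab 3 x = 2) (n4 : nab 4 x = 3) (n8 : nab 8 x = 5) (n9 : nab 9 x = 4) :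
    d ∧ x ∈ N ∧ Nf = N ∧ hi 4 - lo 4 + 1 = 3 ∧ θ5 x = 7 ∧
      ∀ Nc co, StairNat 13 4 t Nc co → N = natS Nc co →
        x ∉ junk (fun c => c.1 ≤ c.2) Nc co ∧ 1 ≤ (co x).1 := by
  have key : ∀ Nc co, StairNat 13 4 t Nc co → x ∈ Nc ∧ (co x).1 = 5 ∧ (co x).2 = 8 ∧
      x ∉ junk (fun c => c.1 ≤ c.2) Nc co := by
    intro Nc co h0
    have hx : x ∈ Nc := h0.strip (mem_lowPart.mpr ⟨hxt, by omega⟩)
    have k1 := h0.chart.lev x hx
    have k2 : (co x).1 ≤ (co x).2 := h0.chart.mem x hx
    have k8 := stair_nab h0.chart hx (k := 8) (by omega)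
    have k9 := stair_nab h0.chart hx (k := 9) (by omega)
    rw [n8] at k8
    rw [n9] at k9
    refine ⟨hx, by omega, by omega, not_junk_above h0.chart hx (by omega) le_rfl⟩
  rcases F with ⟨h1, h2, h3, h4, h5, h6, h7, h9⟩ | ⟨c, Nc, co, h0, h1, h2, h3, h4, h5, h6, h7, h9⟩ |
    ⟨h0, h1, h2, h3, h4, h5, h6, h7, h8, h9⟩ | ⟨Nc, co, h0, h1, h2, h3, h4, h5, h6, h9⟩
  · exfalso
    have := nab_le_width C (h7 x hxt (by omega)) (k := 4) (by omega)
    omega
  · exfalso
    have hx : x ∈ Nc := h0.strip (mem_lowPart.mpr ⟨hxt, by omega⟩)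
    have k1 := h0.chart.lev x hx
    have k3 := rect_nab h0.chart hx (k := 3) (by omega)
    have k4 := rect_nab h0.chart hx (k := 4) (by omega)
    omega
  · exfalso
    have := nab_le_width C (h7 x hxt (by omega)) (k := 4) (by omega)
    omega
  · obtain ⟨a1, a2, a3, a4⟩ := key Nc co h0
    refine ⟨h6, by rw [h1]; exact mem_natS.mpr (Or.inl a1), h4, h3, ?_, ?_⟩
    · obtain ⟨-, -, e3⟩ := th_stair h0 a1 a4
      rw [h9, e3, a2, a3]
      rfl
    · intro Nc' co' h0' _
      obtain ⟨b1, b2, b3, b4⟩ := key Nc' co' h0'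
      exact ⟨b4, by omega⟩

/-- the thresholds of the special cells -/
theorem FineZ.spc_ge (F : FineZ 13 t lo hi e N θ4 θ5 (hi 4 - lo 4 + 1) Nf θf d) {x : P}
    (hx : x ∈ N) (hl : lev x = 14) (n3 : nab 3 x = 2) (n4 : nab 4 x = 3)
    (n10 : nab 10 x = 3) (n13 : nab 13 x = 2) : 9 ≤ θ5 x := by
  rcases F with ⟨h1, h2, h3, h4, h5, h6, h7, h9⟩ | ⟨c, Nc, co, h0, h1, h2, h3, h4, h5, h6, h7, h9⟩ |
    ⟨h0, h1, h2, h3, h4, h5, h6, h7, h8, h9⟩ | ⟨Nc, co, h0, h1, h2, h3, h4, h5, h6, h9⟩
  · rw [h9, h2]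
    show 9 ≤ lev x - 4
    omega
  · rw [h9, h2]
    unfold thR
    by_cases hJ : x ∈ junk (fun _ => True) Nc co ∨ x ∈ junk (fun _ => True) Nc (swp co)
    · rw [if_pos hJ]
      omega
    · exfalso
      rw [h1, mem_natR] at hx
      have hxN : x ∈ Nc := by
        rcases hx with hx | hx | hx
        · exact hx
        · exact absurd (Or.inl hx) hJ
        · exact absurd (Or.inr hx) hJ
      have k1 := h0.chart.lev x hxN
      have k3 := rect_nab h0.chart hxN (k := 3) (by omega)
      have k4 := rect_nab h0.chart hxN (k := 4) (by omega)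
      omega
  · rw [h9, h2]
    show 9 ≤ lev x - 4
    omega
  · by_cases hJ : x ∈ junk (fun c => c.1 ≤ c.2) Nc co
    · rw [h9]
      unfold thD
      rw [if_pos hJ]
      omega
    · rw [h1, mem_natS] at hx
      have hxN := hx.resolve_right hJ
      obtain ⟨-, -, e3⟩ := th_stair h0 hxN hJ
      have k1 := h0.chart.lev x hxN
      have k2 : (co x).1 ≤ (co x).2 := h0.chart.mem x hxN
      have k10 := stair_nab h0.chart hxN (k := 10) (by omega)
      have k13 := stair_nab h0.chart hxN (k := 13) (by omega)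
      rw [h9, e3]
      omega

end

variable {lo hi : Tops P → ℕ → ℕ} {e : Tops P → ℕ → ℕ → P} {N : Tops P → Finset P}
  {θ3 θ4 θ5 : Tops P → P → ℕ} {Nf : Tops P → Finset P} {θf : Tops P → (ℕ → ℕ → ℕ) → P → ℕ}
  {D : Tops P → Prop} {K3 : ℕ} {b : Tops P → ℕ}

/-- the numbers of a special cell of `j = 13` -/
lemma spc13 {x : P} (h : Spc 13 3 N b θ3 x) : lev x = 14 ∧ nab 3 x = 2 ∧ nab 4 x = 3 ∧
    nab 5 x = 3 ∧ nab 6 x = 3 ∧ nab 7 x = 3 ∧ nab 8 x = 3 ∧ nab 9 x = 3 ∧ nab 10 x = 3 ∧
    nab 11 x = 3 ∧ nab 12 x = 3 ∧ nab 13 x = 2 ∧ nab 14 x = 1 := by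
  obtain ⟨Nc, co, C⟩ := h
  have h0 := C.lev (by omega)
  have h3 := C.nab (by omega) (k := 3) (by omega)
  have h4 := C.nab (by omega) (k := 4) (by omega)
  have h5 := C.nab (by omega) (k := 5) (by omega)
  have h6 := C.nab (by omega) (k := 6) (by omega)
  have h7 := C.nab (by omega) (k := 7) (by omega)
  have h8 := C.nab (by omega) (k := 8) (by omega)
  have h9 := C.nab (by omega) (k := 9) (by omega)
  have h10 := C.nab (by omega) (k := 10) (by omega)
  have h11 := C.nab (by omega) (k := 11) (by omega)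
  have h12 := C.nab (by omega) (k := 12) (by omega)
  have h13 := C.nab (by omega) (k := 13) (by omega)
  have h14 := C.nab (by omega) (k := 14) (by omega)
  refine ⟨h0, ?_, ?_, ?_, ?_, ?_, ?_, ?_, ?_, ?_, ?_, ?_, ?_⟩ <;> omega

/-- the numbers of the cell above a flip -/
lemma flp13 {x : P} {Nc : Finset P} {co : P → ℕ × ℕ} (C : FlpC 13 3 N b θ3 x Nc co) :
    lev x = 13 ∧ nab 3 x = 2 ∧ nab 4 x = 3 ∧
    nab 5 x = 3 ∧ nab 6 x = 4 ∧ nab 7 x = 4 ∧ nab 8 x = 5 ∧ nab 9 x = 4 ∧ nab 10 x = 4 ∧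
    nab 11 x = 3 ∧ nab 12 x = 2 ∧ nab 13 x = 1 := by
  have h0 := C.lev (by omega)
  have h3 := C.nab (by omega) (k := 3) (by omega)
  have h4 := C.nab (by omega) (k := 4) (by omega)
  have h5 := C.nab (by omega) (k := 5) (by omega)
  have h6 := C.nab (by omega) (k := 6) (by omega)
  have h7 := C.nab (by omega) (k := 7) (by omega)
  have h8 := C.nab (by omega) (k := 8) (by omega)
  have h9 := C.nab (by omega) (k := 9) (by omega)
  have h10 := C.nab (by omega) (k := 10) (by omega)
  have h11 := C.nab (by omega) (k := 11) (by omega)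
  have h12 := C.nab (by omega) (k := 12) (by omega)
  have h13 := C.nab (by omega) (k := 13) (by omega)
  refine ⟨h0, ?_, ?_, ?_, ?_, ?_, ?_, ?_, ?_, ?_, ?_, ?_⟩ <;> omega

/-- the cost of a special cell with the label `10` -/
lemma spc13_cst {x : P} (h : Spc 13 3 N b θ3 x) : cst 4 (fun _ => 10) x = 136 := by
  obtain ⟨h0, h3, h4, h5, h6, h7, h8, h9, h10, h11, h12, h13, h14⟩ := spc13 h
  rw [cst_shift (i := 4) (a := 10) h0]
  simp only [Finset.sum_range_succ, Finset.sum_range_zero]
  norm_num [h4, h5, h6, h7, h8, h9, h10, h11, h12, h13, h14]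

/-- the cost of the cell above a flip with the label `9` -/
lemma flp13_cst {x : P} {Nc : Finset P} {co : P → ℕ × ℕ} (C : FlpC 13 3 N b θ3 x Nc co) :
    cst 4 (fun _ => 9) x = 133 := by
  obtain ⟨h0, h3, h4, h5, h6, h7, h8, h9, h10, h11, h12, h13⟩ := flp13 C
  rw [cst_shift (i := 4) (a := 9) h0]
  simp only [Finset.sum_range_succ, Finset.sum_range_zero]
  norm_num [h4, h5, h6, h7, h8, h9, h10, h11, h12, h13]

end Pool.Agent.GaussPoset.Ec

end

/-! From `Pool.Agent.W_448s7s_h5.TuK` -/

section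

/-!
The costs of the special cells and of the flips at window `4`, `j = 13` (MP_448cb3_co, S7).
-/

namespace Pool.Agent.GaussPoset.Ec

set_option linter.unusedSectionVars false

open Polynomial Finset Sm Wd Cp W4 Cl

universe u

variable {P : Type u} [Fintype P] [PartialOrder P] [DecidableEq P] {r : ℕ}
  {lo hi : Tops P → ℕ → ℕ} {e : Tops P → ℕ → ℕ → P} {N : Tops P → Finset P}
  {θ3 θ4 θ5 : Tops P → P → ℕ} {Nf : Tops P → Finset P} {θf : Tops P → (ℕ → ℕ → ℕ) → P → ℕ}
  {D : Tops P → Prop} {K3 : ℕ} {b : Tops P → ℕ}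

/-- the typing of the least costs at window `4`, small thresholds, `j = 13` -/
structure Nz5 (P : Type u) [Fintype P] [PartialOrder P] [DecidableEq P] (N : Tops P → Finset P)
    (b : Tops P → ℕ) (θ3 θ4 : Tops P → P → ℕ) : Prop where
  bd : ∀ z ∈ bdR (rA N), PenS 13 3 N b θ3 z ∨ PenF 13 3 N b θ3 z ∨ 145 ≤ cst 4 (hA N θ4) z
  tw : ∀ x ∈ twA N, Spc 13 3 N b θ3 (twT N x) ∨ 145 < tcst 4 (thA N θ4) (twT N x, x)
  eq : ∀ z ∈ bdR (rA N), cst 4 (hA N θ4) z = 145 → PenS 13 3 N b θ3 z ∨ PenF 13 3 N b θ3 z ∨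
    (hA N θ4 z = lev z - 4 ∧ 145 = ful 4 z ∧ ∃ x x', Cg z x x')

section

variable (F : Fz P 13 lo hi e N θ4 θ5 Nf θf D) (W : Wk r 13 3 K3 N b θ3)

include F W

lemma Fz.spc_th {x : P} (hx : x ∉ unnat N) (h : Spc 13 3 N b θ3 x) : 9 ≤ θ5 (topOf x) x := by
  obtain ⟨h0, h3, h4, -, -, -, -, -, h10, -, -, h13, -⟩ := spc13 h
  exact (F.typ (topOf x)).spc_ge (W.natSys.mem_iff.mpr ⟨hx, rfl⟩) h0 h3 h4 h10 h13

/-- the special twins -/
lemma Fz.spc_tw {x : P} (hx : x ∈ twA N) (h : Spc 13 3 N b θ3 (twT N x)) :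
    thA N θ5 (twT N x) = 9 ∧ lev (twT N x) = 14 ∧ tcst 4 (thA N θ5) (twT N x, x) = 145 := by
  have h1 := mem_twA.mp hx
  have h3 := twT_spec h1.2
  have h2 := F.spc_th W h3.1 h
  have h0 := (spc13 h).1
  have T := F.tw W (by omega) hx
  have e1 : thA N θ5 (twT N x) = θ5 (topOf (twT N x)) (twT N x) := thX_not (W.not_tw h3.1)
  obtain ⟨g1, g2, g3, g4⟩ := T.th (by omega)
  have e2 : thA N θ5 (twT N x) = 9 := by omega
  refine ⟨e2, h0, ?_⟩
  have e3 := tcst_cst (F.twn W (by omega) hx)
  simp only at e3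
  rw [e3, e2, spc13_cst h]

/-- the twins which are not special -/
lemma Fz.tcst_ge {x : P} (hx : x ∈ twA N) :
    tcst 4 (thA N θ4) (twT N x, x) ≤ tcst 4 (thA N θ5) (twT N x, x) := by
  have h1 := mem_twA.mp hx
  have h3 := twT_spec h1.2
  have hlt := W.lt_lev h1.1
  have hll := W.twSys.lev hx
  exact tcst_mono_th (F.thA_le W (by omega) (fun h => h3.1 (mem_rA.mp h).1) (by
    show 7 ≤ lev (twT N x)
    omega))

/-- the costs at least those with the small thresholds -/
lemma Fz.cst_ge {z : P} (hz : z ∈ bdR (rA N)) : cst 4 (hA N θ4) z ≤ cst 4 (hA N θ5) z :=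
  cst_mono_h (F.hA_le W (by omega) hz)

/-- the pendants below a special cell -/
lemma Fz.penS_ge {z : P} (hz : PenS 13 3 N b θ3 z) : 146 ≤ cst 4 (hA N θ5) z := by
  obtain ⟨p1, p2, p3⟩ := W.penS hz
  obtain ⟨h1, x, h2, h3, h4, h5⟩ := hz
  have H := W.gt.H.gradedBelow
  have e1 := H.lev_covBy h3
  have g7 := W.bs h2
  obtain ⟨x0, f1, f2, f3⟩ := hcan_spec (θ := thA N θ5) p3
  have e4 := h4 x0 f2
  subst e4
  have f3' : hA N θ5 z = thA N θ5 x0 + 1 := f3
  have hth : 9 ≤ thA N θ5 x0 := by
    rcases not_mem_rA.mp h2 with h | h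
    · have e5 : GaussPoset.bs N x0 = x0 := by
        unfold GaussPoset.bs
        rw [if_neg (W.not_tw h)]
      rw [e5] at h5
      have e2 : thA N θ5 x0 = θ5 (topOf x0) x0 := thX_not (W.not_tw h)
      rw [e2]
      exact F.spc_th W h h5
    · have e5 : GaussPoset.bs N x0 = twT N x0 := by
        unfold GaussPoset.bs
        rw [if_pos h]
      rw [e5] at h5
      have e2 : thA N θ5 x0 = θ5 (topOf (twT N x0)) (twT N x0) := thA_tw4 h
      rw [e2]
      exact F.spc_th W (twT_spec (mem_twA.mp h).2).1 h5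
  have h6 : cst 4 (fun _ => 10) z ≤ cst 4 (hA N θ5) z := by
    refine cst_mono_h ?_
    show 10 ≤ hA N θ5 z
    omega
  have h7 : cst 4 (fun _ => 10) x0 = 136 := by
    rw [← cst_const_congr g7.lev g7.nab]
    exact spc13_cst h5
  rw [cst_only (h := fun _ => 10) H h3 h4, h7, p2] at h6
  exact h6

/-- the flips: cell and label -/
lemma Fz.flp_cell (K : Ctx P r 13 lo hi e) {x : P} (hx : x ∉ unnat N) {Nc : Finset P}
    {co : P → ℕ × ℕ} (C : FlpC 13 3 N b θ3 x Nc co) :
    topOf x ∈ ED D ∧ x ∈ N (topOf x) ∧ Nf (topOf x) = N (topOf x) ∧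
      hi (topOf x) 4 - lo (topOf x) 4 + 1 = 3 ∧ θ5 (topOf x) x = 7 ∧
      ∀ Nc co, StairNat 13 4 (topOf x) Nc co → N (topOf x) = natS Nc co →
        x ∉ junk (fun c => c.1 ≤ c.2) Nc co ∧ 1 ≤ (co x).1 := by
  obtain ⟨h0, h3, h4, -, -, -, h8, h9, -, -, -, -⟩ := flp13 C
  obtain ⟨a1, a2, a3, a4, a5, a6⟩ := (F.typ (topOf x)).flip (K.comp (topOf x)) (le_topOf x) h0
    h3 h4 h8 h9
  exact ⟨mem_ED.mpr a1, a2, a3, a4, a5, a6⟩

end

end Pool.Agent.GaussPoset.Ec

end

/-! From `Pool.Agent.W_448s7s_h5.TuL` -/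

section

/-!
The flips at window `4`, `j = 13`: the larger labels (MP_448cb3_co, S7).
-/

namespace Pool.Agent.GaussPoset.Ec

set_option linter.unusedSectionVars false

open Polynomial Finset Sm Wd Cp W4 Cl

universe u

variable {P : Type u} [Fintype P] [PartialOrder P] [DecidableEq P] {r : ℕ}
  {lo hi : Tops P → ℕ → ℕ} {e : Tops P → ℕ → ℕ → P} {N : Tops P → Finset P}
  {θ3 θ4 θ5 : Tops P → P → ℕ} {Nf : Tops P → Finset P} {θf : Tops P → (ℕ → ℕ → ℕ) → P → ℕ}
  {D : Tops P → Prop} {K3 : ℕ} {b : Tops P → ℕ}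

open Classical in
/-- the flips -/
noncomputable def ZF (P : Type u) [Fintype P] [PartialOrder P] [DecidableEq P]
    (N : Tops P → Finset P) (b : Tops P → ℕ) (θ3 : Tops P → P → ℕ) : Finset P :=
  univ.filter (fun z => PenF 13 3 N b θ3 z)

lemma mem_ZF {z : P} : z ∈ ZF P N b θ3 ↔ PenF 13 3 N b θ3 z := by
  classical
  unfold ZF
  rw [mem_filter]
  exact ⟨fun h => h.2, fun h => ⟨mem_univ _, h⟩⟩

section

variable (F : Fz P 13 lo hi e N θ4 θ5 Nf θf D) (W : Wk r 13 3 K3 N b θ3)

include F W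

/-- the part of the top of a flip -/
theorem Fz.flp_big (K : Ctx P r 13 lo hi e) {S : Finset (Tops P)} (hS : S ⊆ ED D) {z x : P}
    (hz : PenF 13 3 N b θ3 z) (hzx : z ⋖ x) {g : P → ℕ} (hg : g z = 8) {m : ℕ}
    (hm : m + ∑ x ∈ Ew.RS (ED D) Nf N (twA N) S, g x ≤ 142) :
    (1 + X : ℤ[X]) ^ 2 ∣
      ZB (P := {y : P // y ∉ Ew.RS (ED D) Nf N (twA N) S ∧ topOf y = topOf x}) 4 ∅ 0
        (fun y => by
          classical exact ((Ew.RS (ED D) Nf N (twA N) S).filter (fun z => z ⋖ (y : P))).sup g)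
        m := by
  classical
  have WE := F.ew K (by omega) W
  obtain ⟨q1, q2, q3, -⟩ := W.penF hz
  obtain ⟨hzR, x1, h2, h4, Nc, co, C⟩ := hz
  have hxx := h4 x hzx
  subst hxx
  have hlx := (flp13 C).1
  have hx : x ∉ unnat N := W.low (by omega)
  have HS := WE.natSysS hS
  have HE := WE.natSysS (Finset.Subset.refl (ED D))
  have hzRE : z ∈ Ew.RS (ED D) Nf N (twA N) (ED D) := by rw [F.RS_eq]; exact hzR
  have hzS := WE.RS_sub hS hzRE
  have hxS : x ∉ Ew.RS (ED D) Nf N (twA N) S := by
    intro h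
    have h1 := WE.lev_RS hS x h
    have h5 := (F.flp_cell W K hx C)
    have h6 : x ∈ Nf (topOf x) := by rw [h5.2.2.1]; exact h5.2.1
    have h7 : x ∈ Ew.NS Nf N S (topOf x) := by
      by_cases hs : topOf x ∈ S
      · rw [Ew.NS_of hs]
        exact h5.2.1
      · rw [Ew.NS_not hs]
        exact h6
    exact mem_unnat.mp (mem_sdiff.mp h).1 _ h7
  set R := Ew.RS (ED D) Nf N (twA N) S with hR
  have hp : ∀ x' y : P, x' ≤ y → (x' ∉ R ∧ topOf x' = topOf x) → (y ∉ R ∧ topOf y = topOf x) :=
    pg_part_up ((WE.twS hS).lower HS.lower) ((WE.twS hS).cp' HS.cp)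
  have hE : cst 4 (fun _ => 8 + 1) z = F4.Efs 4 8 x x + 8 + 2 :=
    cst_pen hzx h4 (by omega) (by omega)
  have hC : cst 4 (fun _ => 8 + 1) z = 142 := by
    rw [cst_only (h := fun _ => 8 + 1) W.gt.H.gradedBelow hzx h4]
    have := flp13_cst C
    rw [show (8 + 1 : ℕ) = 9 from rfl, this, q2]
    rfl
  have hsz : 8 ≤ ∑ x ∈ R, g x := by
    rw [← hg]
    exact Finset.single_le_sum (f := g) (fun _ _ => Nat.zero_le _) hzS
  have hBx : 8 ≤ (R.filter (fun z => z ⋖ x)).sup g := by
    rw [← hg]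
    exact Finset.le_sup (f := g) (mem_filter.mpr ⟨hzS, hzx⟩)
  by_cases hbigz : ∃ z' ∈ R, 8 < g z'
  · obtain ⟨z', hz', hk'⟩ := hbigz
    have hne' : z' ≠ z := by
      rintro rfl
      omega
    have h8 : g z + g z' ≤ ∑ x ∈ R, g x := by
      rw [← Finset.sum_pair (f := g) hne'.symm]
      refine Finset.sum_le_sum_of_subset ?_
      intro y hy
      rw [mem_insert, mem_singleton] at hy
      rcases hy with rfl | rfl
      · exact hzS
      · exact hz'
    rw [F4.part_zero hp (i := 4) (k := 8) (f := x) (s := x) ⟨hxS, rfl⟩ ⟨hxS, rfl⟩ hBx hBx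
      (by omega)]
    exact dvd_zero _
  · push Not at hbigz
    have hBle : ∀ y : P, (R.filter (fun z => z ⋖ y)).sup g ≤ 8 := by
      intro y
      refine Finset.sup_le fun z' hz' => ?_
      exact hbigz z' (mem_filter.mp hz').1
    refine F4.part_coneG hp (i := 4) (h := 8) (A := 5) (x := x) ⟨hxS, rfl⟩ C.cone (by omega)
      (by omega) (by omega) (fun y hy hly => ?_) (fun y => hBle y)
      (le_antisymm (hBle x) hBx) (by omega)
    have hyN : y ∈ Nc := by
      refine C.nat.strip (mem_lowPart.mpr ⟨?_, by omega⟩)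
      rw [← hy.2]
      exact le_topOf y
    have h5 := C.nat.chart.lev y hyN
    have h6 : (co y).1 ≤ (co y).2 := C.nat.chart.mem y hyN
    rw [C.nat.chart.le_iff x C.mem y hyN, C.co_eq]
    exact ⟨by simp only; omega, by simp only; omega⟩

/-- the flips may have a larger label -/
theorem Fz.fl (K : Ctx P r 13 lo hi e) :
    Ew.Fl 4 (ED D) Nf N (fun t => hi t 4 - lo t 4 + 1) θ5 (twA N) (ZF P N b θ3) 142 where
  mem := by
    intro z hz
    rw [F.RS_eq]
    exact (mem_ZF.mp hz).1
  cov := by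
    intro z hz
    have hz' := mem_ZF.mp hz
    obtain ⟨q1, q2, q3, -⟩ := W.penF hz'
    obtain ⟨hzR, x, h2, h4, Nc, co, C⟩ := hz'
    have hlx := (flp13 C).1
    have hx : x ∉ unnat N := W.low (by omega)
    obtain ⟨a1, a2, a3, a4, a5, a6⟩ := F.flp_cell W K hx C
    exact ⟨x, h2, h4, a1, by rw [a3]; exact a2, by rw [a5]; omega⟩
  big := by
    intro S hS z hz x hzx ht g hg m hm
    have hz' := mem_ZF.mp hz
    obtain ⟨hzR, x1, h2, h4, Nc, co, C⟩ := hz'
    have hxx := h4 x hzx
    subst hxx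
    have hlx := (flp13 C).1
    have hx : x ∉ unnat N := W.low (by omega)
    obtain ⟨a1, a2, a3, a4, a5, a6⟩ := F.flp_cell W K hx C
    rw [a4]
    rw [a5] at hg
    exact F.flp_big W K hS (mem_ZF.mp hz) hzx hg hm

end

end Pool.Agent.GaussPoset.Ec

end

/-! From `Pool.Agent.W_448s7s_h5.TuM` -/

section

/-!
No flips at `j = 13`: window `4`, energy `142` (MP_448cb3_co, S7).
-/

namespace Pool.Agent.GaussPoset.Ec

set_option linter.unusedSectionVars false

open Polynomial Finset Sm Wd Cp W4 Cl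

universe u

variable {P : Type u} [Fintype P] [PartialOrder P] [DecidableEq P] {r : ℕ}
  {lo hi : Tops P → ℕ → ℕ} {e : Tops P → ℕ → ℕ → P} {N : Tops P → Finset P}
  {θ3 θ4 θ5 : Tops P → P → ℕ} {Nf : Tops P → Finset P} {θf : Tops P → (ℕ → ℕ → ℕ) → P → ℕ}
  {D : Tops P → Prop} {K3 : ℕ} {b : Tops P → ℕ}

section

variable (F : Fz P 13 lo hi e N θ4 θ5 Nf θf D) (W : Wk r 13 3 K3 N b θ3)

include F W

/-- the larger label of a flip, cost and numbers -/
lemma Fz.flp_lab (K : Ctx P r 13 lo hi e) {z : P} (hz : PenF 13 3 N b θ3 z) :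
    hA N θ5 z + Ew.dl (ZF P N b θ3) (ED D) z = 9 ∧ cst 4 (fun _ => 9) z = 142 ∧
      nab 4 z = 3 ∧ nab 13 z = 1 ∧ nst 4 (fun _ => 9) z = 32 := by
  obtain ⟨q1, q2, q3, -⟩ := W.penF hz
  have hz' := hz
  obtain ⟨hzR, x, h2, h4, Nc, co, C⟩ := hz
  obtain ⟨h0, n3, n4, n5, n6, n7, n8, n9, n10, n11, n12, n13⟩ := flp13 C
  have hx : x ∉ unnat N := W.low (by omega)
  obtain ⟨a1, a2, a3, a4, a5, a6⟩ := F.flp_cell W K hx C
  obtain ⟨x0, f1, f2, f3⟩ := hcan_spec (θ := thA N θ5) q3
  have e4 := h4 x0 f2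
  subst e4
  have f3' : hA N θ5 z = thA N θ5 x0 + 1 := f3
  have e2 : thA N θ5 x0 = θ5 (topOf x0) x0 := thX_not (W.not_tw hx)
  have hn : ∀ k, k ≤ 13 → nab k z = nab k x0 := fun k hk => nab_only h4 h2 (by omega)
  refine ⟨?_, ?_, ?_, ?_, ?_⟩
  · rw [Ew.dl_of (mem_ZF.mpr hz') h2 a1, f3', e2, a5]
  · rw [cst_only (h := fun _ => 9) W.gt.H.gradedBelow h2 h4, flp13_cst C, q2]
    rfl
  · rw [hn 4 (by omega), n4]
  · rw [hn 13 (by omega), n13]
  · rw [nst_eq]
    simp only [Finset.sum_range_succ, Finset.sum_range_zero]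
    norm_num [hn, n4, n5, n6, n7, n8, n9, n10, n11, n12]

/-- all other elements of the boundary cost at least `145` -/
lemma Fz.bd_ge (Q : Nz5 P N b θ3 θ4) {z : P} (hz : z ∈ bdR (rA N)) :
    PenF 13 3 N b θ3 z ∨ 145 ≤ cst 4 (hA N θ5) z := by
  rcases Q.bd z hz with h | h | h
  · have := F.penS_ge W h
    exact Or.inr (by omega)
  · exact Or.inl h
  · exact Or.inr (h.trans (F.cst_ge W hz))

/-- the twins cost at least `145` -/
lemma Fz.tw_ge (Q : Nz5 P N b θ3 θ4) {x : P} (hx : x ∈ twA N) :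
    145 ≤ tcst 4 (thA N θ5) (twT N x, x) := by
  rcases Q.tw x hx with h | h
  · exact (F.spc_tw W hx h).2.2.ge
  · exact h.le.trans (F.tcst_ge W hx)

/-- **No flips at `j = 13`.** -/
theorem Fz.no_flip (K : Ctx P r 13 lo hi e) (Q : Nz5 P N b θ3 θ4) (z : P) :
    ¬ PenF 13 3 N b θ3 z := by
  classical
  intro hz0
  have WE := F.ew K (by omega) W
  have G := F.fl W K
  have hR : Ew.hR (ZF P N b θ3) (ED D) Nf N (fun t => θf t E7t4) θ5 (twA N) (twT N) (ED D) =
      fun z => hA N θ5 z + Ew.dl (ZF P N b θ3) (ED D) z := by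
    funext z
    unfold Ew.hR
    rw [F.hS_eq]
  set h5 : P → ℕ := fun z => hA N θ5 z + Ew.dl (ZF P N b θ3) (ED D) z with hh5
  have hge : ∀ z, hA N θ5 z ≤ h5 z := fun z => Nat.le_add_right _ _
  have hcard : 3 ≤ (lv P 4).card := by
    have h1 := nab_le_card (P := P) 4 z
    have h2 := (F.flp_lab W K hz0).2.2.1
    omega
  have hflp : ∀ z, PenF 13 3 N b θ3 z → h5 z = 9 ∧ cst 4 h5 z = 142 := by
    intro z hz
    obtain ⟨g1, g2, -⟩ := F.flp_lab W K hz
    have g3 : h5 z = 9 := g1
    refine ⟨g3, ?_⟩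
    rw [cst_const, g3]
    exact g2
  have hbd : ∀ z ∈ bdR (rA N), PenF 13 3 N b θ3 z ∨ 145 ≤ cst 4 h5 z := by
    intro z hz
    rcases F.bd_ge W Q hz with h | h
    · exact Or.inl h
    · exact Or.inr (h.trans (cst_mono_h (hge z)))
  have key := WE.signR G (d := 1) F.sum (dvd_Z K.gt.H.gauss 4 142)
    (by
      rw [F.thS_eq]
      intro x hx
      have := F.tw_ge W Q hx
      omega)
    (by
      rw [F.RS_eq, hR]
      intro z hz
      rcases hbd z hz with h | h
      · exact (hflp z h).2.ge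
      · omega)
    (by
      rw [F.RS_eq, F.thS_eq]
      intro e' F' hV hs hok
      refine F.card_le0 K (by omega) W minT_13 de_13 (by omega) hV hs ?_
      intro z hz x hx hzx
      by_cases hf : PenF 13 3 N b θ3 z
      · right
        obtain ⟨-, x1, h2, h4, Nc, co, C⟩ := hf
        have hxx := h4 x hzx
        subst hxx
        have hlx := (flp13 C).1
        exact (F.flp_cell W K (W.low (by omega)) C).2.2.2.2.2
      · left
        have h1 := hok z hz x hx hzx
        rw [Ew.dl_not (fun h => hf (mem_ZF.mp h.1))] at h1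
        exact h1)
    (c0 := (lv P 4).card - 2) (by omega)
    (by
      rw [F.RS_eq, hR]
      intro z hz hc
      rcases hbd z hz with h | h
      · obtain ⟨g1, g2, g3, g4, -⟩ := F.flp_lab W K h
        rw [(hflp z h).1, g3, show 4 + 9 = 13 from rfl, g4]
        omega
      · omega)
  rw [F.RS_eq, hR] at key
  have h1 : ∀ z ∈ (bdR (rA N)).filter (fun z => cst 4 h5 z = 142 ∧
      (lv P 4).card - 2 + nab 4 z = (lv P 4).card + nab (4 + h5 z) z),
      (-1 : ℤ) ^ (nst 4 h5 z) = 1 := by
    intro z hz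
    rw [mem_filter] at hz
    rcases hbd z hz.1 with h | h
    · obtain ⟨g1, g2, g3, g4, g5⟩ := F.flp_lab W K h
      have g6 : nst 4 h5 z = 32 := by
        rw [← g5, nst_congr (h := h5) (h' := fun _ => 9) (hflp z h).1]
      rw [g6]
      norm_num
    · omega
  rw [Finset.sum_congr rfl h1, Finset.sum_const] at key
  have h2 : z ∈ (bdR (rA N)).filter (fun z => cst 4 h5 z = 142 ∧
      (lv P 4).card - 2 + nab 4 z = (lv P 4).card + nab (4 + h5 z) z) := by
    rw [mem_filter]
    obtain ⟨g1, g2, g3, g4, -⟩ := F.flp_lab W K hz0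
    refine ⟨(W.penF hz0).2.2.1, (hflp z hz0).2, ?_⟩
    rw [(hflp z hz0).1, g3, show 4 + 9 = 13 from rfl, g4]
    omega
  have h3 := Finset.card_pos.mpr ⟨z, h2⟩
  rw [nsmul_eq_mul, mul_one] at key
  have h4 : ((bdR (rA N)).filter (fun z => cst 4 h5 z = 142 ∧
      (lv P 4).card - 2 + nab 4 z = (lv P 4).card + nab (4 + h5 z) z)).card = 0 := by
    exact_mod_cast key
  omega

end

end Pool.Agent.GaussPoset.Ec

end

/-! From `Pool.Agent.W_448ft_h93.OnA` -/

section

/-!
# The windows `3`, `4` for `j` odd with pendants below special cells and flips as exceptions: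
numbers (MP_448cb3_co, S7, `j = 13`)
-/

namespace Pool.Agent.GaussPoset.W4

set_option linter.unusedSectionVars false

open Polynomial Finset Sm

universe u

variable {P : Type u} [Fintype P] [PartialOrder P] [DecidableEq P] {r j K V3 : ℕ}

/-- the numbers of the windows `3`, `4` for `j` odd, with exceptions: the cap `K` at window `4`,
the least raised cost `V3` at window `3` -/
structure NmO (j K V3 : ℕ) : Prop where
  hj : 12 ≤ j
  od : j % 2 = 1
  k3 : 2 * K < 3 * (j - 3) ^ 2 + 3 * (j - 3)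
  kk : K < (j - 3 + 3) ^ 2
  st1 : ∀ L ∈ Finset.Icc (j + 1) (j + 2), ∀ a ∈ Finset.Icc 2 (L / 2), SB j K V3 L a
  st3 : ∀ a ∈ Finset.Icc 2 ((j + 3) / 2), K + 1 < stC 4 (j + 3) a
  re1 : ∀ L ∈ Finset.Icc (j + 1) (j + 2), ∀ a ∈ Finset.Icc 2 (L - 2), RB j K V3 L a
  re3 : ∀ a ∈ Finset.Icc 2 (j + 1), K + 1 < reC 4 (j + 3) a
  fl3 : flC 3 j < V3
  sp : K < stC 4 (j + 1) 2 + (j - 4)
  fp : K < flC 4 j + (j - 5)
  own : ∀ t ∈ Finset.range 3, ∀ m ∈ Finset.range 3, (m = 0 ∨ t = 2) →
    (j - 3 + t) ^ 2 + (j - 3) * m ≤ K →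
      (if m = 0 then (j - 3 + t) ^ 2 else K) + (2 * (j - 3 + t) + 1 + m) < V3
  row : ∀ t ∈ Finset.range 3, (j - 3 + t) ^ 2 + (j - 3 + t) ≤ K + 1 →
    (j - 3 + t + 1) ^ 2 + (j - 3 + t + 1) ≤ V3 ∧
      ((j - 3 + t) ^ 2 + (j - 3 + t) ≤ K → (j - 3 + t + 1) ^ 2 + (j - 3 + t + 1) < V3)

theorem nmO_13 : NmO 13 (10 ^ 2 + 45) (11 ^ 2 + 55) := by
  constructor <;> decide +kernel

/-- deep cells of the stairs -/
theorem sdeepO (n : NmO j K V3) {t : P} {Nc : Finset P} {co : P → ℕ × ℕ}
    (C : Chart t (fun c => c.1 ≤ c.2) Nc co) {x : P}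
    (hx : x ∈ Nc) (h1 : 2 ≤ (co x).1) (hlx : j + 1 ≤ lev x) :
    K + 1 < cst 4 (fun _ => lev x - 4 - 1) x + (lev x - 4 - 1) ∨
    ((K < cst 4 (fun _ => lev x - 4 - 1) x + (lev x - 4 - 1) ∨
        cst 3 (fun _ => lev x - 3 - 1) x + (lev x - 3 - 1) < V3) ∧
      K < cst 4 (fun _ => lev x - 4 - 1) x + 3 * (lev x - 4 - 1) ∧
      cst 3 (fun _ => lev x - 3 - 1) x + (lev x - 3 - 1) ≤ V3 ∧
      ((co x).1 = (co x).2 ∨ (lev x = j + 1 ∧ (co x).2 ≠ (co x).1 + 2 ∧
        (co x).2 ≠ (co x).1 + 4))) := by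
  have hj := n.hj
  have hl := C.lev x hx
  have hm : (co x).1 ≤ (co x).2 := C.mem x hx
  rcases Nat.lt_or_ge (lev x) (j + 3) with hlt | hge
  · have e4 : stC 4 (lev x) (co x).1 = cst 4 (fun _ => lev x - 4 - 1) x + (lev x - 4 - 1) := by
      rw [cst_stair (w := 4) (h := lev x - 4 - 1) C hx rfl (by omega)]
      rfl
    have e3 : stC 3 (lev x) (co x).1 = cst 3 (fun _ => lev x - 3 - 1) x + (lev x - 3 - 1) := by
      rw [cst_stair (w := 3) (h := lev x - 3 - 1) C hx rfl (by omega)]
      rfl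
    have h := n.st1 (lev x) (by rw [Finset.mem_Icc]; omega) (co x).1
      (by rw [Finset.mem_Icc]; omega)
    unfold SB at h
    rw [e4, e3] at h
    rcases h with h | ⟨b1, b2, b3, b4⟩
    · exact Or.inl h
    · refine Or.inr ⟨b1, by omega, b3, ?_⟩
      omega
  · left
    obtain ⟨y, hy, hcy⟩ := C.low x hx (j + 3 - min (co x).2 (j + 1), min (co x).2 (j + 1))
      ⟨by simp only; omega, by simp only; omega⟩
      (show j + 3 - min (co x).2 (j + 1) ≤ min (co x).2 (j + 1) by omega)
    have hly := C.lev y hy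
    have hxy : x ≤ y := by
      rw [C.le_iff x hx y hy, hcy]
      exact ⟨by simp only; omega, by simp only; omega⟩
    have hy1 : (co y).1 = j + 3 - min (co x).2 (j + 1) := by rw [hcy]
    have hy2 : (co y).2 = min (co x).2 (j + 1) := by rw [hcy]
    have hly' : lev y = j + 3 := by omega
    have h2 := cst_up (w := 4) (h := lev x - 4 - 1) (h' := j + 3 - 4 - 1) hxy (by omega)
    have h3 := cst_stair (w := 4) (h := j + 3 - 4 - 1) C hy hly' (by omega)
    have h4 := n.st3 (co y).1 (by rw [Finset.mem_Icc]; omega)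
    unfold stC at h4
    rw [h3] at h2
    omega

/-- deep cells of the rectangles -/
theorem rdeepO (n : NmO j K V3) {t : P} {Nc : Finset P} {co : P → ℕ × ℕ}
    (C : Chart t (fun _ => True) Nc co) {x : P}
    (hx : x ∈ Nc) (h1 : 2 ≤ (co x).1) (h2 : 2 ≤ (co x).2) (hlx : j + 1 ≤ lev x) {h : ℕ}
    (hh : h + min (min (co x).1 (co x).2) 4 = lev x - 4 + 1) :
    K + 1 < cst 4 (fun _ => h) x + h ∨
    (h = lev x - 4 - 1 ∧ min (co x).1 (co x).2 = 2 ∧ (K < cst 4 (fun _ => h) x + h ∨
        cst 3 (fun _ => lev x - 3 - 1) x + (lev x - 3 - 1) < V3) ∧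
      K < cst 4 (fun _ => h) x + 3 * h ∧
      cst 3 (fun _ => lev x - 3 - 1) x + (lev x - 3 - 1) ≤ V3 ∧ lev x = j + 1) := by
  have hj := n.hj
  have hl := C.lev x hx
  have hsub : lev x - (co x).1 = (co x).2 := by omega
  have hhe : h = lev x - 4 + 1 - min (min (co x).1 (lev x - (co x).1)) 4 := by
    rw [hsub]; omega
  rcases Nat.lt_or_ge (lev x) (j + 3) with hlt | hge
  · have e4 : reC 4 (lev x) (co x).1 = cst 4 (fun _ => h) x + h := by
      rw [cst_rect (w := 4) (h := h) C hx rfl (by omega), hhe]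
      rfl
    have h' := n.re1 (lev x) (by rw [Finset.mem_Icc]; omega) (co x).1
      (by rw [Finset.mem_Icc]; omega)
    unfold RB at h'
    rw [e4] at h'
    rcases h' with h' | ⟨b0, b1, b2, b3, b4⟩
    · exact Or.inl h'
    · right
      rw [hsub] at b0
      have e3 : reC 3 (lev x) (co x).1 =
          cst 3 (fun _ => lev x - 3 - 1) x + (lev x - 3 - 1) := by
        rw [cst_rect (w := 3) (h := lev x - 3 - 1) C hx rfl (by omega)]
        unfold reC
        rw [hsub, b0, show lev x - 3 + 1 - min 2 3 = lev x - 3 - 1 by omega]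
      rw [e3] at b1 b3
      have hh' : h = lev x - 4 - 1 := by omega
      exact ⟨hh', b0, b1, by omega, b3, b4⟩
  · left
    obtain ⟨y, hy, hcy⟩ := C.low x hx (j + 3 - min (co x).2 (j + 1), min (co x).2 (j + 1))
      ⟨by simp only; omega, by simp only; omega⟩ trivial
    have hly := C.lev y hy
    have hxy : x ≤ y := by
      rw [C.le_iff x hx y hy, hcy]
      exact ⟨by simp only; omega, by simp only; omega⟩
    have hy1 : (co y).1 = j + 3 - min (co x).2 (j + 1) := by rw [hcy]
    have hy2 : (co y).2 = min (co x).2 (j + 1) := by rw [hcy]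
    have hly' : lev y = j + 3 := by omega
    have h3 := cst_up (w := 4) (h := h)
      (h' := j + 3 - 4 + 1 - min (min (co y).1 (j + 3 - (co y).1)) 4) hxy (by omega)
    have h4 := cst_rect (w := 4)
      (h := j + 3 - 4 + 1 - min (min (co y).1 (j + 3 - (co y).1)) 4) C hy hly' (by omega)
    have h5 := n.re3 (co y).1 (by rw [Finset.mem_Icc]; omega)
    unfold reC at h5
    rw [h4] at h3
    omega

/-- two more elements -/
lemma cst_add_two {w h h' : ℕ} {z y x : P} (hzx : z < x) (hzy : z < y) (hxy : ¬ x ≤ y)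
    (hh : h ≤ h') (hy : h + w ≤ lev y) :
    cst w (fun _ => h) x + 2 * h ≤ cst w (fun _ => h') z := by
  classical
  have e : ∀ (h : ℕ) (z v : P), ez w (fun _ => h) z v =
      if z ≤ v then min h (lev v - w) else 0 := fun _ _ _ => rfl
  have h1 : ∀ v : P, ez w (fun _ => h) x v + ((if v = y then h else 0) +
      (if v = z then h else 0)) ≤ ez w (fun _ => h') z v := by
    intro v
    rw [e, e]
    have hlz := lev_strictAnti hzy
    by_cases hvz : v = z
    · subst hvz
      rw [if_neg (not_le_of_gt hzx), if_neg hzy.ne, if_pos rfl, if_pos le_rfl, le_min_iff]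
      omega
    · by_cases hvy : v = y
      · subst hvy
        rw [if_neg hxy, if_pos rfl, if_neg hvz, if_pos hzy.le, le_min_iff]
        omega
      · rw [if_neg hvz, if_neg hvy]
        by_cases h2 : x ≤ v
        · rw [if_pos h2, if_pos (hzx.le.trans h2)]
          exact min_le_min hh le_rfl
        · rw [if_neg h2]
          exact Nat.zero_le _
  have h2 := Finset.sum_le_sum (s := univ) fun v (_ : v ∈ univ) => h1 v
  rw [Finset.sum_add_distrib, Finset.sum_add_distrib, Finset.sum_ite_eq', Finset.sum_ite_eq',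
    if_pos (mem_univ _), if_pos (mem_univ _)] at h2
  unfold cst
  omega

end Pool.Agent.GaussPoset.W4

end

/-! From `Pool.Agent.W_448ft_h93.OnB` -/

section

/-!
# The windows `3`, `4`, `j` odd, with exceptions: natural elements (MP_448cb3_co, S7, `j = 13`)
-/

namespace Pool.Agent.GaussPoset.W4

set_option linter.unusedSectionVars false

open Polynomial Finset Sm

universe u

variable {P : Type u} [Fintype P] [PartialOrder P] [DecidableEq P] {r j K3 K V3 : ℕ}
  {N : Tops P → Finset P} {b : Tops P → ℕ} {θ3 θ4 : Tops P → P → ℕ}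

/-- the windows `3` and `4`, `j` odd; `V3` is a lower bound for the costs at window `3`, except for
the pendants below special cells, the flips and the special twins -/
structure Y6 (r j K3 K V3 : ℕ) (N : Tops P → Finset P) (b : Tops P → ℕ)
    (θ3 θ4 : Tops P → P → ℕ) : Prop where
  W : Wk r j 3 K3 N b θ3
  typ : ∀ t, TypeY j t (N t) (θ3 t) (θ4 t)
  m3 : ∀ z ∈ bdR (rA N), PenS j 3 N b θ3 z ∨ PenF j 3 N b θ3 z ∨ V3 ≤ cst 3 (hA N θ3) z
  m3' : ∀ x ∈ twA N, Spc j 3 N b θ3 (twT N x) ∨ V3 ≤ tcst 3 (thA N θ3) (twT N x, x)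
  n : NmO j K V3

/-- pendants below the doubles of level `j` of a stair -/
lemma Y6.stair_pend (Y : Y6 r j K3 K V3 N b θ3 θ4) {t : Tops P} {Nc : Finset P}
    {co : P → ℕ × ℕ} (h0 : StairNat j 4 t Nc co)
    (h1 : N t = natS Nc co)
    (pen : ∀ x z, x ≤ (t : P) → lev x = j → (Win.uc x).card = 2 → z ⋖ x →
        (∀ y, z ⋖ y → y = x) → (co x).2 = (co x).1 + 1 ∨ (co x).2 = (co x).1 + 3)
    {x z : P} (hx : x ∈ Nc) (hlx : lev x = j) (hx2 : 1 ≤ (co x).1) (hlt : (co x).1 < (co x).2)
    (hz : z ∈ bdR (rA N)) (hzx : z ⋖ x) (ho : ∀ y, z ⋖ y → y = x) :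
    (co x).2 = (co x).1 + 3 := by
  have H := Y.W.gt.H
  have HN := Y.W.natSys
  have hzR := (mem_bdR.mp hz).1
  have hzu := (mem_rA.mp hzR).1
  have h3 := stair_inner_uc h0.chart H hx hx2 hlt
  rcases pen x z (h0.chart.le_t x hx) hlx h3 hzx ho with h4 | h4
  · exfalso
    have hzN1 : z ∉ Nc := fun h => mem_unnat.mp hzu t (by rw [h1]; exact mem_natS.mpr (Or.inl h))
    obtain ⟨y, hy, h⟩ := diag_twin h0.chart h0.max H hzN1 hx hzx ho h4
    refine (mem_rA.mp hzR).2 (mem_twA.mpr ⟨hzu, y, ?_, h⟩)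
    exact (HN.mem_iff.mp (show y ∈ N t by rw [h1]; exact mem_natS.mpr (Or.inl hy))).1
  · exact h4

/-- the kinds of natural elements of level at least `j`, both windows -/
theorem Y6.cases (Y : Y6 r j K3 K V3 N b θ3 θ4) {x : P} (hx : x ∉ unnat N) (hlx : j ≤ lev x) :
    (Str 3 N θ3 x ∧ Str 4 N θ4 x) ∨ (Row1 j 3 N θ3 x ∧ Row1 j 4 N θ4 x) ∨
      Dy j K V3 N θ3 θ4 x := by
  have W := Y.W
  have H := W.gt.H
  have HN := W.natSys
  have hxt : x ∈ N (topOf x) := HN.mem_iff.mpr ⟨hx, rfl⟩
  have hj := Y.n.hj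
  have hT := Y.typ (topOf x)
  generalize ht : topOf x = t at hxt hT
  rcases hT with ⟨h1, h2, h2', h5⟩ | ⟨c, Nc, co, h0, h0', h1, h2, h2', h4⟩ |
    ⟨Nc, co, h0, h0', h1, h2, h2', h5'⟩
  · left
    have htw : ∀ z ∈ unnat N, ¬ ∀ y, x < y ↔ z < y := by
      intro z hz h
      have h7 : z ∉ onlyB t := by
        rw [← h1]
        exact mem_unnat.mp hz t
      rw [mem_onlyB] at h7
      push Not at h7
      obtain ⟨s, hs1, hs2, hs3⟩ := h7
      have h7 := W.lt_lev hz
      have h8 : z < s := lt_of_le_of_ne hs2 (by rintro rfl; omega)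
      exact hs3 (HN.top_eq hxt hs1 ((h s).mpr h8).le)
    exact ⟨⟨by rw [ht, h2], htw⟩, ⟨by rw [ht, h2'], htw⟩⟩
  · have e1 := h0.b_two
    have e2 := h0.b_le
    have hxN' : x ∈ natR Nc co := by rw [← h1]; exact hxt
    by_cases hJ : x ∈ junk (fun _ => True) Nc co ∨ x ∈ junk (fun _ => True) Nc (swp co)
    · left
      have htw : ∀ z ∈ unnat N, ¬ ∀ y, x < y ↔ z < y := by
        intro z hz h
        refine mem_unnat.mp hz t ?_
        rw [h1, mem_natR]
        rcases hJ with h' | h'
        · exact Or.inr (Or.inl (junk_twin h' h))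
        · exact Or.inr (Or.inr (junk_twin h' h))
      refine ⟨⟨?_, htw⟩, ⟨?_, htw⟩⟩
      · rw [ht, h2]
        unfold thR
        rw [if_pos hJ]
      · rw [ht, h2']
        unfold thR
        rw [if_pos hJ]
    · have hxN : x ∈ Nc := by
        rw [mem_natR] at hxN'
        rcases hxN' with h | h | h
        · exact h
        · exact absurd (Or.inl h) hJ
        · exact absurd (Or.inr h) hJ
      have hl := h0.chart.lev x hxN
      have hth := rect_th4 h0 hxN hJ (by omega)
      have hth3 := rect_th7 h0' le_rfl hxN hJ (by omega)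
      -- thresholds above `x`
      have hmono : 1 ≤ (co x).1 → 1 ≤ (co x).2 → ∀ y, x < y →
          θ4 (topOf y) y ≤ θ4 t x + 1 ∧ θ3 (topOf y) y ≤ θ3 t x + 1 := by
        intro g1 g2 y hxy
        have hy := h0.chart.up x hxN y hxy.le
        have hyt : topOf y = t := by
          have := (W.up hx hxy.le).2
          rw [this, ht]
        have hy1 := not_junk_above h0.chart hxN g1 hxy.le
        have hy2 := not_junk_above h0.chart.swap hxN g2 hxy.le
        have hle := (h0.chart.le_iff x hxN y hy).mp hxy.le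
        have hle1 : (co y).1 ≤ (co x).1 := hle.1
        have hle2 : (co y).2 ≤ (co x).2 := hle.2
        rw [hyt, h2, h2']
        unfold thR
        rw [if_neg (by rintro (h | h); exacts [hy1 h, hy2 h]), if_neg hJ,
          if_neg (by rintro (h | h); exacts [hy1 h, hy2 h]), if_neg hJ]
        omega
      by_cases h7 : (co x).1 = 0 ∨ (co x).2 = 0
      · left
        have htw : ∀ z ∈ unnat N, ¬ ∀ y, x < y ↔ z < y := by
          intro z hz h
          rcases h7 with h7 | h7
          · obtain ⟨u, hu, hcu⟩ := h0.chart.low x hxN (0, (co x).2 - 1)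
              ⟨Nat.zero_le _, Nat.sub_le _ _⟩ trivial
            refine straight_twin H h0 h1 hxN hu ?_ ?_ ?_ hz h
            · rw [hcu]
              exact Or.inr ⟨by simp only; omega, by simp only; omega⟩
            · intro y hy hp
              rw [hcu]
              rcases hp with hp | hp
              · omega
              · exact Prod.ext (by simp only; omega) (by simp only; omega)
            · rw [hcu]
              exact Or.inl rfl
          · obtain ⟨u, hu, hcu⟩ := h0.chart.low x hxN ((co x).1 - 1, 0)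
              ⟨Nat.sub_le _ _, Nat.zero_le _⟩ trivial
            refine straight_twin H h0 h1 hxN hu ?_ ?_ ?_ hz h
            · rw [hcu]
              exact Or.inl ⟨by simp only; omega, by simp only; omega⟩
            · intro y hy hp
              rw [hcu]
              rcases hp with hp | hp
              · exact Prod.ext (by simp only; omega) (by simp only; omega)
              · omega
            · rw [hcu]
              exact Or.inr rfl
        refine ⟨⟨?_, htw⟩, ⟨?_, htw⟩⟩
        · rw [ht, h2]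
          omega
        · rw [ht, h2']
          omega
      · by_cases h8 : (co x).1 = 1 ∨ (co x).2 = 1
        · right; left
          have hd := chart_inner_uc h0.chart H hxN (by omega) (by omega)
          have hno : lev x = j → ∀ z, z ⋖ x → ¬ ∀ y, z ⋖ y → y = x := fun hlx z hz =>
            h4 x z (h0.chart.le_t x hxN) hlx hd hz
          have hnab : ∀ k, 3 ≤ k → k < lev x → nab k x = 2 := by
            intro k hk hkx
            have := rect_nab h0.chart hxN (k := k) (by omega)
            omega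
          refine ⟨⟨by omega, hd, hno, by rw [ht, h2]; omega, hnab, ?_⟩,
            ⟨by omega, hd, hno, by rw [ht, h2']; omega, fun k hk => hnab k (by omega), ?_⟩⟩
          · rw [ht]
            exact fun y hy => (hmono (by omega) (by omega) y hy).2
          · rw [ht]
            exact fun y hy => (hmono (by omega) (by omega) y hy).1
        · right; right
          refine ⟨?_, ?_, ?_, ?_⟩
          · rw [ht, h2']; omega
          · rw [ht, h2']; omega
          · rw [ht]
            exact fun y hy => (hmono (by omega) (by omega) y hy).1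
          · intro hlj
            rw [ht, h2']
            rcases rdeepO Y.n h0.chart hxN (by omega) (by omega) hlj
              (h := thR 4 c Nc co x + 1) (by omega) with h | ⟨a1, a2, a3, a4, a5, a6⟩
            · exact Or.inl h
            · right
              rw [a1] at a3 a4
              refine ⟨by rw [ht, h2']; exact a1, by rw [ht, h2]; omega, a3, a4, a5, Or.inr ?_⟩
              intro q hq z hz hzq ho
              have hqN := h0.chart.up x hxN q hq.1.le
              have hlq := (H.covBy_iff.mp hq).2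
              have hcq := (chart_cov h0.chart H hxN hqN).mp hq
              unfold Prd at hcq
              exact h4 q z (h0.chart.le_t q hqN) (by omega)
                (chart_inner_uc h0.chart H hqN (by omega) (by omega)) hzq ho
  · have hxN' : x ∈ natS Nc co := by rw [← h1]; exact hxt
    by_cases hJ : x ∈ junk (fun c => c.1 ≤ c.2) Nc co
    · left
      have htw : ∀ z ∈ unnat N, ¬ ∀ y, x < y ↔ z < y := by
        intro z hz h
        refine mem_unnat.mp hz t ?_
        rw [h1, mem_natS]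
        exact Or.inr (junk_twin hJ h)
      refine ⟨⟨?_, htw⟩, ⟨?_, htw⟩⟩
      · rw [ht, h2]
        unfold thS
        rw [if_pos hJ]
      · rw [ht, h2']
        unfold thSg
        rw [if_pos hJ]
    · have hxN : x ∈ Nc := by
        rw [mem_natS] at hxN'
        rcases hxN' with h | h
        · exact h
        · exact absurd h hJ
      have hl := h0.chart.lev x hxN
      have hm : (co x).1 ≤ (co x).2 := h0.chart.mem x hxN
      have hth := stair_th4 h0 hxN hJ (by omega)
      have hth3 := stair_th7 h0' le_rfl (by norm_num) hxN hJ (by omega)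
      have hmono : 1 ≤ (co x).1 → ∀ y, x < y →
          θ4 (topOf y) y ≤ θ4 t x + 1 ∧ θ3 (topOf y) y ≤ θ3 t x + 1 := by
        intro g1 y hxy
        have hy := h0.chart.up x hxN y hxy.le
        have hyt : topOf y = t := by
          have := (W.up hx hxy.le).2
          rw [this, ht]
        have hy1 := not_junk_above h0.chart hxN g1 hxy.le
        have hle := (h0.chart.le_iff x hxN y hy).mp hxy.le
        have hle1 : (co y).1 ≤ (co x).1 := hle.1
        have hle2 : (co y).2 ≤ (co x).2 := hle.2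
        rw [hyt, h2, h2']
        unfold thS thSg
        rw [if_neg hy1, if_neg hJ, if_neg hy1, if_neg hJ]
        omega
      rcases Nat.lt_or_ge (co x).1 1 with h7 | h7
      · left
        have htw : ∀ z ∈ unnat N, ¬ ∀ y, x < y ↔ z < y := by
          intro z hz h
          obtain ⟨u, hu, hcu⟩ := h0.chart.low x hxN (0, (co x).2 - 1)
            ⟨Nat.zero_le _, Nat.sub_le _ _⟩ (Nat.zero_le _)
          have g1 : x ⋖ u := by
            rw [chart_cov h0.chart H hxN hu, hcu]
            exact Or.inr ⟨by simp only; omega, by simp only; omega⟩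
          have g2 : z ⋖ u := (cov_of_up h).mp g1
          have g3 := stair_pendant H h0 (by omega) h1 hz (x := u)
            (by rw [h1]; exact mem_natS.mpr (Or.inl hu)) g2 (by
            intro y hy
            have hy1 : x ⋖ y := (cov_of_up h).mpr hy
            have hyN := h0.chart.up x hxN y hy1.le
            refine h0.chart.inj y hyN u hu ?_
            rw [hcu]
            rcases (chart_cov h0.chart H hxN hyN).mp hy1 with hp | hp
            · omega
            · exact Prod.ext (by simp only; omega) (by simp only; omega))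
          have g4 := g3.2.2
          rw [hcu] at g4
          simp only at g4
          omega
        refine ⟨⟨?_, htw⟩, ⟨?_, htw⟩⟩
        · rw [ht, h2]
          omega
        · rw [ht, h2']
          omega
      · rcases Nat.lt_or_ge (co x).1 2 with h8 | h8
        · right; left
          have hd := stair_inner_uc h0.chart H hxN h7 (by omega)
          have hno : lev x = j → ∀ z, z ⋖ x → ¬ ∀ y, z ⋖ y → y = x := by
            intro hlx z hz hon
            have := h5' x z (h0.chart.le_t x hxN) hlx hd hz hon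
            omega
          have hnab : ∀ k, 3 ≤ k → k < lev x → nab k x = 2 := by
            intro k hk hkx
            have := stair_nab h0.chart hxN (k := k) (by omega)
            omega
          refine ⟨⟨by omega, hd, hno, by rw [ht, h2]; omega, hnab, ?_⟩,
            ⟨by omega, hd, hno, by rw [ht, h2']; omega, fun k hk => hnab k (by omega), ?_⟩⟩
          · rw [ht]
            exact fun y hy => (hmono h7 y hy).2
          · rw [ht]
            exact fun y hy => (hmono h7 y hy).1
        · right; right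
          have ht4 : thSg 2 4 Nc co x + 1 = lev x - 4 - 1 := by omega
          refine ⟨?_, ?_, ?_, ?_⟩
          · rw [ht, h2']; omega
          · rw [ht, h2']; omega
          · rw [ht]
            exact fun y hy => (hmono h7 y hy).1
          · intro hlj
            rw [ht, h2', ht4]
            rcases sdeepO Y.n h0.chart hxN h8 hlj with h | ⟨a1, a2, a3, a4⟩
            · exact Or.inl h
            · right
              refine ⟨by rw [ht, h2']; exact ht4, by rw [ht, h2]; omega, a1, a2, a3, ?_⟩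
              rcases a4 with a4 | ⟨a4, a5, a6⟩
              · -- a cell of the diagonal
                left
                obtain ⟨p, hp, hcp⟩ := h0.chart.low x hxN ((co x).1 - 1, (co x).2)
                  ⟨Nat.sub_le _ _, le_rfl⟩ (show (co x).1 - 1 ≤ (co x).2 by omega)
                refine ⟨p, fun q hq => ?_⟩
                have hqN := h0.chart.up x hxN q hq.1.le
                have hmq : (co q).1 ≤ (co q).2 := h0.chart.mem q hqN
                have hcq := (chart_cov h0.chart H hxN hqN).mp hq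
                refine h0.chart.inj q hqN p hp ?_
                rw [hcp]
                rcases hcq with hcq | hcq
                · exact Prod.ext (by simp only; omega) (by simp only; omega)
                · omega
              · right
                intro q hq z hz hzq ho
                have hqN := h0.chart.up x hxN q hq.1.le
                have hmq : (co q).1 ≤ (co q).2 := h0.chart.mem q hqN
                have hlq := (H.covBy_iff.mp hq).2
                have hcq := (chart_cov h0.chart H hxN hqN).mp hq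
                unfold Prd at hcq
                have hlqN := h0.chart.lev q hqN
                have hod := Y.n.od
                have := Y.stair_pend h0 h1 h5' hqN (by omega) (by omega) (by omega) hz hzq ho
                omega

end Pool.Agent.GaussPoset.W4

end

/-! From `Pool.Agent.W_448ft_h93.OnC` -/

section

/-!
# The windows `3`, `4`, `j` odd, with exceptions: labels, twins, deep covers (MP_448cb3_co, S7,
`j = 13`)
-/

namespace Pool.Agent.GaussPoset.W4

set_option linter.unusedSectionVars false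

open Polynomial Finset Sm

universe u

variable {P : Type u} [Fintype P] [PartialOrder P] [DecidableEq P] {r j K3 K V3 : ℕ}
  {N : Tops P → Finset P} {b : Tops P → ℕ} {θ3 θ4 : Tops P → P → ℕ}

lemma Y6.thA_nat (Y : Y6 r j K3 K V3 N b θ3 θ4) {x : P} (hx : x ∉ unnat N) :
    thA N θ4 x = θ4 (topOf x) x := thX_not (Y.W.not_tw hx)

/-- twins are not straight -/
lemma Y6.tw_cases (Y : Y6 r j K3 K V3 N b θ3 θ4) {x : P} (hx : x ∈ twA N) :
    j < lev (twT N x) ∧ ((Row1 j 3 N θ3 (twT N x) ∧ Row1 j 4 N θ4 (twT N x)) ∨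
      Dy j K V3 N θ3 θ4 (twT N x)) := by
  have h1 := mem_twA.mp hx
  have h3 := twT_spec h1.2
  have h4 := Y.W.lt_lev h1.1
  have h5 := Y.W.twSys.lev hx
  refine ⟨by omega, ?_⟩
  rcases Y.cases h3.1 (by omega) with h | h
  · exact absurd h3.2 (h.1.tw x h1.1)
  · exact h

theorem Y6.twn (Y : Y6 r j K3 K V3 N b θ3 θ4) {x : P} (hx : x ∈ twA N) :
    Twn 4 (thA N θ4) (twT N x, x) := by
  have h1 := mem_twA.mp hx
  have h3 := twT_spec h1.2
  obtain ⟨hl, hk⟩ := Y.tw_cases hx
  have hj := Y.n.hj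
  have e1 : thA N θ4 (twT N x) = θ4 (topOf (twT N x)) (twT N x) := Y.thA_nat h3.1
  have e2 := thA_tw4 (θ4 := θ4) hx
  have hm : ∀ y, twT N x < y → θ4 (topOf y) y ≤ θ4 (topOf (twT N x)) (twT N x) + 1 := by
    rcases hk with h | h
    · exact h.2.mono
    · exact h.mono
  have ht : θ4 (topOf (twT N x)) (twT N x) + 1 ≤ lev (twT N x) - 4 ∧
      lev (twT N x) - 4 ≤ θ4 (topOf (twT N x)) (twT N x) + 4 := by
    rcases hk with h | h
    · have := h.2.th
      omega
    · have := h.th
      exact ⟨by omega, h.th4⟩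
  refine ⟨?_, h3.2, ?_, ?_, ?_, ?_⟩
  · intro h
    simp only at h
    exact h3.1 (by rw [h]; exact h1.1)
  · simp only
    rw [e1]
    omega
  · simp only
    rw [e1, e2]
  · simp only
    rw [e1]
    exact ht.1
  · intro y hy
    simp only at hy ⊢
    rw [e1, Y.thA_nat (Y.W.up h3.1 hy.le).1]
    exact hm y hy

/-- cost of the twins of cells of row `1` -/
lemma Y6.tcst_row1 (Y : Y6 r j K3 K V3 N b θ3 θ4) {x : P} (hx : x ∈ twA N)
    (hk : Row1 j 4 N θ4 (twT N x)) {a : ℕ} (ha : lev x = 4 + a) :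
    tcst 4 (thA N θ4) (twT N x, x) + 1 = a ^ 2 + a := by
  have h1 := mem_twA.mp hx
  have h3 := twT_spec h1.2
  have hl := Y.W.twSys.lev hx
  have e1 : thA N θ4 (twT N x) = θ4 (topOf (twT N x)) (twT N x) := Y.thA_nat h3.1
  have h4 := hk.th
  have h5 : thA N θ4 (twT N x) + 1 = a := by omega
  rw [tcst_cst (Y.twn hx)]
  simp only
  rw [h5, cst_eq_ful (by omega), ful_two (a := a) (by omega)
    fun k hk1 hk2 => hk.nab k hk1.le hk2]
  omega

/-- a twin of a cheap cell is special -/
lemma Y6.cheap_twin (Y : Y6 r j K3 K V3 N b θ3 θ4) {x : P} (hx : x ∈ twA N)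
    (hC : Ch K V3 N θ3 θ4 (twT N x)) : Spc j 3 N b θ3 (twT N x) := by
  have h1 := mem_twA.mp hx
  have h3 := twT_spec h1.2
  rcases Y.m3' x hx with h4 | h4
  · exact h4
  · exfalso
    have hl := (Y.tw_cases hx).1
    have hj := Y.n.hj
    rw [tcst_cst (Y.W.twn hx)] at h4
    simp only at h4
    rw [Y.W.thA_nat h3.1, hC.t3] at h4
    have h5 := hC.t3
    have h6 := hC.b3
    omega

/-- the cost of a special cell at window `4` -/
lemma Y6.spc_cst (Y : Y6 r j K3 K V3 N b θ3 θ4) {x : P} (hs : Spc j 3 N b θ3 x) :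
    lev x = j + 1 ∧ K < cst 4 (fun _ => j - 4) x + 2 * (j - 4) := by
  obtain ⟨Nc, co, C⟩ := hs
  have hj := Y.n.hj
  have hl := C.lev (by omega)
  refine ⟨hl, ?_⟩
  have h1 := Y.n.sp
  rw [cst_stair (w := 4) (L := j + 1) (h := j - 4) C.nat.chart C.mem hl (by omega), C.co_eq]
  unfold stC at h1
  rw [show j + 1 - 4 - 1 = j - 4 by omega] at h1
  simp only
  omega

/-- twins are expensive or special -/
theorem Y6.out_tw (Y : Y6 r j K3 K V3 N b θ3 θ4) {x : P} (hx : x ∈ twA N) :
    Spc j 3 N b θ3 (twT N x) ∨ K < tcst 4 (thA N θ4) (twT N x, x) := by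
  rcases Y.m3' x hx with h7 | h7
  · exact Or.inl h7
  right
  have hj := Y.n.hj
  have h1 := mem_twA.mp hx
  have h3 := twT_spec h1.2
  obtain ⟨hl, hk⟩ := Y.tw_cases hx
  have hl2 := Y.W.twSys.lev hx
  rcases hk with ⟨hk3, hk4⟩ | hD
  · obtain ⟨a, ha⟩ : ∃ a, lev x = 4 + a := ⟨lev x - 4, by omega⟩
    have h5 := Y.tcst_row1 hx hk4 ha
    have h6 := Y.W.tcst_row1 hx hk3 (a := a + 1) (by omega)
    by_contra hcon
    obtain ⟨t, ht⟩ : ∃ t, a = j - 3 + t := ⟨a - (j - 3), by omega⟩
    have h8 : t < 3 := by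
      by_contra h9
      have h10 : (j - 3 + 3) ^ 2 ≤ a ^ 2 := Nat.pow_le_pow_left (by omega) 2
      have := Y.n.kk
      omega
    have h9 := Y.n.row t (Finset.mem_range.mpr h8) (by rw [← ht]; omega)
    rw [← ht] at h9
    omega
  · have e1 : thA N θ4 (twT N x) = θ4 (topOf (twT N x)) (twT N x) := Y.thA_nat h3.1
    rcases hD.alt (by omega) with h | h
    · rw [tcst_cst (Y.twn hx)]
      simp only
      rw [e1]
      omega
    · exfalso
      rw [tcst_cst (Y.W.twn hx)] at h7
      simp only at h7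
      rw [Y.W.thA_nat h3.1, h.t3] at h7
      have h5 := h.t3
      have h6 := h.b3
      omega

/-- the natural element of an element off the far set, window `4` -/
lemma Y6.bs (Y : Y6 r j K3 K V3 N b θ3 θ4) {x : P} (hx : x ∉ rA N) :
    Bs N θ4 x (GaussPoset.bs N x) := by
  classical
  unfold GaussPoset.bs
  rcases not_mem_rA.mp hx with h | h
  · rw [if_neg (Y.W.not_tw h)]
    exact ⟨h, rfl, Y.thA_nat h, fun k => Or.inl rfl, fun v => Iff.rfl⟩
  · rw [if_pos h]
    have h1 := Y.W.twSys.up x h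
    refine ⟨Y.W.twSys.nat x h, Y.W.twSys.lev h, thA_tw4 h, fun k => ?_, h1⟩
    rcases Nat.lt_or_ge k (Pool.Agent.GaussPoset.lev x) with h2 | h2
    · exact Or.inl (nab_congr_up h1 h2)
    · exact Or.inr h2

lemma Y6.hA_le (Y : Y6 r j K3 K V3 N b θ3 θ4) {z x : P} (hx : x ∉ rA N) (hzx : z ⋖ x) :
    hA N θ4 z ≤ θ4 (topOf (GaussPoset.bs N x)) (GaussPoset.bs N x) + 1 := by
  rw [← (Y.bs hx).th]
  exact hcan_le hx hzx

lemma Y6.hA_spec (Y : Y6 r j K3 K V3 N b θ3 θ4) {z : P} (hz : z ∈ bdR (rA N)) :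
    ∃ x, x ∉ rA N ∧ z ⋖ x ∧
      hA N θ4 z = θ4 (topOf (GaussPoset.bs N x)) (GaussPoset.bs N x) + 1 := by
  obtain ⟨x, h1, h2, h3⟩ := hcan_spec (θ := thA N θ4) hz
  refine ⟨x, h1, h2, ?_⟩
  rw [← (Y.bs h1).th]
  exact h3

/-- elements below a cheap cell -/
theorem Y6.cheap_cover (Y : Y6 r j K3 K V3 N b θ3 θ4) {z x1 : P} (hz : z ∈ bdR (rA N))
    (hx1 : x1 ∉ unnat N) (hzx : z ⋖ x1) (hlx : j + 1 ≤ lev x1) (hC : Ch K V3 N θ3 θ4 x1)
    (he : hA N θ4 z = θ4 (topOf x1) x1 + 1) :
    PenS j 3 N b θ3 z ∨ PenF j 3 N b θ3 z ∨ K < cst 4 (hA N θ4) z := by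
  classical
  have W := Y.W
  have H := W.gt.H
  have hj := Y.n.hj
  have hzR := (mem_bdR.mp hz).1
  have e1 := (H.covBy_iff.mp hzx).2
  have hh := he.trans hC.t4
  by_cases hKc : K < cst 4 (fun _ => lev x1 - 4 - 1) x1 + (lev x1 - 4 - 1)
  · right; right
    have h6 := cst_ge_cover (i := 4) (h := hA N θ4) H.gradedBelow hzx
    rw [hh, Nat.min_eq_left (by omega)] at h6
    omega
  by_cases ho : ∀ q, z ⋖ q → q = x1
  · -- a pendant
    rcases hC.b1 with h | h
    · right; right
      have h9 := cst_only (i := 4) (h := hA N θ4) H.gradedBelow hzx ho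
      rw [h9, hh, Nat.min_eq_left (by omega)]
      exact h
    · rcases Y.m3 z hz with h10 | h10 | h10
      · exact Or.inl h10
      · exact Or.inr (Or.inl h10)
      exfalso
      obtain ⟨x0, g1, g2, g3⟩ := W.hA_spec hz
      have hbs : GaussPoset.bs N x1 = x1 := by
        unfold GaussPoset.bs
        rw [if_neg (W.not_tw hx1)]
      rw [ho x0 g2, hbs, hC.t3] at g3
      have h9 := cst_only (i := 3) (h := hA N θ3) H.gradedBelow hzx ho
      rw [h9, g3, Nat.min_eq_left (by omega)] at h10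
      omega
  · right; right
    push Not at ho
    obtain ⟨x2, hzx2, hne⟩ := ho
    have e2 := (H.covBy_iff.mp hzx2).2
    have hlx2 : lev x2 = lev x1 := by omega
    by_cases htwo : K < cst 4 (fun _ => lev x1 - 4 - 1) x1 + 2 * (lev x1 - 4 - 1)
    · have h6 := cst_add_two (w := 4) (h := lev x1 - 4 - 1) (h' := hA N θ4 z) hzx.1 hzx2.1
        (fun h => hne (by
          rcases eq_or_lt_of_le h with h | h
          · exact h.symm
          · have := lev_strictAnti h
            omega)) hh.ge (by omega)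
      rw [← cst_const 4 (hA N θ4) z] at h6
      omega
    by_cases hq : ∃ q, x2 ⋖ q ∧ ¬ x1 ≤ q
    · -- another element of the level above
      obtain ⟨q, hq1, hq2⟩ := hq
      have e3 := (H.covBy_iff.mp hq1).2
      obtain ⟨a, ha⟩ : ∃ a, lev x1 = 4 + (a + 1) := ⟨lev x1 - 5, by omega⟩
      have hha : hA N θ4 z = a := by omega
      have hmono : ∀ k, nab k x1 ≤ nab k z := fun k => nab_mono hzx.1.le
      have n1 : nab (4 + a) x1 + 1 ≤ nab (4 + a) z := by
        unfold nab
        have h11 : insert q ((lv P (4 + a)).filter (fun y => x1 ≤ y)) ⊆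
            (lv P (4 + a)).filter (fun y => z ≤ y) := by
          intro y hy
          rw [mem_insert, mem_filter, mem_lv] at hy
          rw [mem_filter, mem_lv]
          rcases hy with rfl | hy
          · exact ⟨by omega, hzx2.1.le.trans hq1.1.le⟩
          · exact ⟨hy.1, hzx.1.le.trans hy.2⟩
        have h12 := Finset.card_le_card h11
        rw [Finset.card_insert_of_notMem (by
          rw [mem_filter]
          exact fun h => hq2 h.2)] at h12
        exact h12
      have n2 : 2 ≤ nab (4 + (a + 1)) z :=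
        two_le_nab hzx.1.le hzx2.1.le (by omega) (by omega) (Ne.symm hne)
      have n3 : nab (4 + (a + 1)) x1 = 1 := by
        rw [← ha]
        exact nab_self
      have n4 : nab (4 + (a + 2)) z = 1 := by
        rw [show 4 + (a + 2) = lev z by omega]
        exact nab_self
      have h7 := hC.b2
      rw [show lev x1 - 4 - 1 = a by omega,
        cst_shift (i := 4) (a := a + 1) (h := fun _ => a) (x := x1) (by omega),
        Finset.sum_range_succ, Finset.sum_range_succ, n3] at h7
      rw [cst_shift (i := 4) (a := a + 2) (h := hA N θ4) (x := z) (by omega), hha,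
        Finset.sum_range_succ, Finset.sum_range_succ, Finset.sum_range_succ, n4]
      have h8 : ∑ n ∈ range a, min a n * nab (4 + n) x1 ≤
          ∑ n ∈ range a, min a n * nab (4 + n) z :=
        Finset.sum_le_sum fun n _ => Nat.mul_le_mul_left _ (hmono _)
      have m1 : min a (a + 1) = a := by omega
      have m2 : min a (a + 1 + 1) = a := by omega
      have m3 : min a (a + 2) = a := by omega
      rw [m1] at h7 ⊢
      rw [Nat.min_self] at h7 ⊢
      have h9 : a * (nab (4 + a) x1 + 1) ≤ a * nab (4 + a) z := Nat.mul_le_mul_left _ n1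
      have h10 : a * 2 ≤ a * nab (4 + (a + 1)) z := Nat.mul_le_mul_left _ n2
      rw [Nat.mul_add] at h9
      omega
    · exfalso
      push Not at hq
      have hq' : ∀ q, x2 ⋖ q → x1 ⋖ q := by
        intro q hq1
        have e3 := (H.covBy_iff.mp hq1).2
        refine H.covBy_iff.mpr ⟨lt_of_le_of_ne (hq q hq1) (fun h => ?_), by omega⟩
        have := congrArg lev h
        omega
      obtain ⟨q, hq1, -⟩ := Hul.exists_cov (w := x2) (v := (topOf x2 : P))
        (lt_of_le_of_ne (le_topOf x2) (by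
          intro h
          have := (topOf x2).2
          rw [← h] at this
          omega))
      by_cases hx2 : x2 ∈ unnat N
      · by_cases ht2 : x2 ∈ twA N
        · have h3 := twT_spec (mem_twA.mp ht2).2
          have hyq : twT N x2 ⋖ q := (cov_of_up h3.2).mpr hq1
          have hyx : twT N x2 = x1 := by
            by_contra hcon
            refine Win.dc_three H hq1 hyq (hq' q hq1) ?_ hne hcon
            intro h
            exact h3.1 (h ▸ hx2)
          have h5 := (Y.spc_cst (Y.cheap_twin ht2 (by rw [hyx]; exact hC)))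
          rw [hyx] at h5
          obtain ⟨h5, h6⟩ := h5
          rw [h5, show j + 1 - 4 - 1 = j - 4 by omega] at htwo
          exact htwo h6
        · have key : (∀ v, x1 < v ↔ x2 < v) → False := fun h =>
            ht2 (mem_twA.mpr ⟨hx2, x1, hx1, h⟩)
          rcases hC.b4 with ⟨p, hp⟩ | h4
          · have hqp : q = p := hp q (hq' q hq1)
            refine key (twin_of_single (x := p) (fun v => ⟨hp v, ?_⟩) (fun v => ⟨fun h =>
              hp v (hq' v h), ?_⟩))
            · rintro rfl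
              rw [← hqp]
              exact hq' q hq1
            · rintro rfl
              rw [← hqp]
              exact hq1
          · by_cases ho2 : ∀ y, x2 ⋖ y → y = q
            · have hqn : q ∉ rA N := not_mem_rA.mpr (Or.inl (W.up hx1 (hq' q hq1).1.le).1)
              exact h4 q (hq' q hq1) x2 (mem_bdR.mpr ⟨mem_rA.mpr ⟨hx2, ht2⟩, q, hqn, hq1⟩)
                hq1 ho2
            · push Not at ho2
              obtain ⟨q2, hq3, hq4⟩ := ho2
              exact key (twin_of_pair H (hq' q hq1) (hq' q2 hq3) hq1 hq3 (Ne.symm hq4))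
      · exact W.no_adj hzR hx1 hx2 hzx hzx2 (Ne.symm hne) (hq' q hq1) hq1

/-- a boundary element with a deep cover of level greater than `j` is expensive -/
theorem Y6.deep_cover (Y : Y6 r j K3 K V3 N b θ3 θ4) {z : P} (hz : z ∈ bdR (rA N)) {x : P}
    (hx : x ∉ rA N) (hzx : z ⋖ x) (hlx : j + 1 ≤ lev x)
    (hD : Dy j K V3 N θ3 θ4 (GaussPoset.bs N x)) :
    PenS j 3 N b θ3 z ∨ PenF j 3 N b θ3 z ∨ K < cst 4 (hA N θ4) z := by
  have H := Y.W.gt.H.gradedBelow
  have hj := Y.n.hj
  -- a deep cover which defines the label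
  obtain ⟨x1, h1, h2, h3, h4⟩ : ∃ x1, x1 ∉ rA N ∧ z ⋖ x1 ∧
      Dy j K V3 N θ3 θ4 (GaussPoset.bs N x1) ∧
      hA N θ4 z = θ4 (topOf (GaussPoset.bs N x1)) (GaussPoset.bs N x1) + 1 := by
    by_cases he : hA N θ4 z = θ4 (topOf (GaussPoset.bs N x)) (GaussPoset.bs N x) + 1
    · exact ⟨x, hx, hzx, hD, he⟩
    · obtain ⟨x0, g1, g2, g3⟩ := Y.hA_spec hz
      refine ⟨x0, g1, g2, ?_, g3⟩
      have g4 := Y.hA_le hx hzx
      have g5 := hD.th
      have g6 := Y.bs hx
      have g7 := Y.bs g1
      have e1 := H.lev_covBy hzx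
      have e2 := H.lev_covBy g2
      have e3 := g6.lev
      have e4 := g7.lev
      rcases Y.cases g7.nat (by omega) with h | h | h
      · have := h.2.th
        omega
      · have := h.2.th
        omega
      · exact h
  have g7 := Y.bs h1
  have e1 := H.lev_covBy hzx
  have e2 := H.lev_covBy h2
  have e4 := g7.lev
  rcases h3.alt (by omega) with h5 | h5
  · right; right
    have h6 := cst_ge_cover (i := 4) (h := hA N θ4) H h2
    rw [h4] at h6
    rw [← cst_const_congr g7.lev g7.nab] at h6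
    have h7 := h3.th
    rw [Nat.min_eq_left (by omega)] at h6
    omega
  · by_cases ht : x1 ∈ twA N
    · have hbs : GaussPoset.bs N x1 = twT N x1 := by
        unfold GaussPoset.bs
        rw [if_pos ht]
      have h9 := h5.t4
      rw [hbs] at h5
      have h8 := Y.cheap_twin ht h5
      rw [← hbs] at h8
      by_cases ho : ∀ y, z ⋖ y → y = x1
      · exact Or.inl ⟨(mem_bdR.mp hz).1, x1, h1, h2, ho, h8⟩
      · right; right
        push Not at ho
        obtain ⟨x2, hzx2, hne⟩ := ho
        have e5 := H.lev_covBy hzx2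
        obtain ⟨a1, a2⟩ := Y.spc_cst h8
        rw [cst_const_congr g7.lev g7.nab] at a2
        have h6 := cst_add_two (w := 4) (h := j - 4) (h' := hA N θ4 z) h2.1 hzx2.1
          (fun h => hne (by
            rcases eq_or_lt_of_le h with h | h
            · exact h.symm
            · have := lev_strictAnti h
              omega)) (by omega) (by omega)
        rw [← cst_const 4 (hA N θ4) z] at h6
        omega
    · have hbs : GaussPoset.bs N x1 = x1 := by
        unfold GaussPoset.bs
        rw [if_neg ht]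
      rw [hbs] at h5 h4
      exact Y.cheap_cover hz ((not_mem_rA.mp h1).resolve_right ht) h2 (by omega) h5 h4

end Pool.Agent.GaussPoset.W4

end

/-! From `Pool.Agent.W_448ft_h93.OnD` -/

section

/-!
# The windows `3`, `4`, `j` odd, with exceptions: flat elements, row `1` (MP_448cb3_co, S7,
`j = 13`)
-/

namespace Pool.Agent.GaussPoset.W4

set_option linter.unusedSectionVars false

open Polynomial Finset Sm

universe u

variable {P : Type u} [Fintype P] [PartialOrder P] [DecidableEq P] {r j K3 K V3 : ℕ}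
  {N : Tops P → Finset P} {b : Tops P → ℕ} {θ3 θ4 : Tops P → P → ℕ}

/-- minimality with exceptions -/
structure MnE (j : ℕ) (N : Tops P → Finset P) (b : Tops P → ℕ) (θ3 θ4 : Tops P → P → ℕ) (v : ℕ) :
    Prop where
  bd : ∀ z ∈ bdR (rA N), PenS j 3 N b θ3 z ∨ PenF j 3 N b θ3 z ∨ v ≤ cst 4 (hA N θ4) z
  tw : ∀ x ∈ twA N, Spc j 3 N b θ3 (twT N x) ∨ v ≤ tcst 4 (thA N θ4) (twT N x, x)

/-- elements below an exceptional pendant are expensive -/
lemma Y6.below_exc (Y : Y6 r j K3 K V3 N b θ3 θ4) {z z' : P} (hzz : z < z')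
    (hh : lev z ≤ hA N θ4 z + 1 + 4) (hE : PenS j 3 N b θ3 z' ∨ PenF j 3 N b θ3 z') :
    K < cst 4 (hA N θ4) z := by
  have H := Y.W.gt.H
  have hj := Y.n.hj
  have hlz := lev_strictAnti hzz
  rcases hE with ⟨h1, x, h2, h3, h4, h5⟩ | ⟨h1, x, h3, h4, Nc, co, C⟩
  · obtain ⟨a1, a2⟩ := Y.spc_cst h5
    have g7 := Y.bs h2
    have e1 := (H.covBy_iff.mp h3).2
    have e2 := g7.lev
    rw [cst_const_congr g7.lev g7.nab] at a2
    have h6 := cst_add_two (w := 4) (h := j - 4) (h' := hA N θ4 z) (hzz.trans h3.1) hzz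
      (not_le_of_gt h3.1) (by omega) (by omega)
    rw [← cst_const 4 (hA N θ4) z] at h6
    omega
  · have hl := C.lev (by omega)
    have e1 := (H.covBy_iff.mp h3).2
    have h6 := cst_add_two (w := 4) (h := j - 4 - 1) (h' := hA N θ4 z) (hzz.trans h3.1) hzz
      (not_le_of_gt h3.1) (by omega) (by omega)
    rw [← cst_const 4 (hA N θ4) z, cst_stair (w := 4) (L := j) (h := j - 4 - 1) C.nat.chart
      C.mem hl (by omega), C.co_eq] at h6
    have h7 := Y.n.fp
    unfold flC at h7
    have hod := Y.n.od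
    simp only at h6
    rw [show j - (j - 3) / 2 = (j + 3) / 2 by omega] at h6
    omega

/-- a cheapest boundary element without deep covers is flat -/
theorem Y6.flat (Y : Y6 r j K3 K V3 N b θ3 θ4) {v : ℕ} (M : MnE j N b θ3 θ4 v) (hv : v ≤ K)
    {z : P} (hz : z ∈ bdR (rA N)) (hc : cst 4 (hA N θ4) z = v)
    (hnd : ∀ x, x ∉ rA N → z ⋖ x → ¬ Dy j K V3 N θ3 θ4 (GaussPoset.bs N x)) :
    FlatY j N θ3 θ4 z ∧ lev z ≤ hA N θ4 z + 1 + 4 := by
  have H := Y.W.gt.H.gradedBelow
  have hj := Y.n.hj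
  have hlz := Y.W.bd_lev hz
  have hkd : ∀ x, x ∉ rA N → z ⋖ x →
      (Str 3 N θ3 (GaussPoset.bs N x) ∧ Str 4 N θ4 (GaussPoset.bs N x)) ∨
      (Row1 j 3 N θ3 (GaussPoset.bs N x) ∧ Row1 j 4 N θ4 (GaussPoset.bs N x)) := by
    intro x hx hzx
    have g6 := Y.bs hx
    have e1 := H.lev_covBy hzx
    have e3 := g6.lev
    rcases Y.cases g6.nat (by omega) with h | h | h
    · exact Or.inl h
    · exact Or.inr h
    · exact absurd h (hnd x hx hzx)
  have hge : lev z ≤ hA N θ4 z + 1 + 4 := by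
    obtain ⟨x0, g1, g2, g3⟩ := Y.hA_spec hz
    have g7 := Y.bs g1
    have e2 := H.lev_covBy g2
    have e4 := g7.lev
    rcases hkd x0 g1 g2 with h | h
    · have := h.2.th
      omega
    · have := h.2.th
      omega
  refine ⟨?_, hge⟩
  intro x hzx
  have hxR : x ∉ rA N := by
    intro hxR
    obtain ⟨z', hz', hle, -⟩ := exists_bd_above (fun x hx => by
      have := Y.W.lt_lev (mem_rA.mp hx).1
      omega) hxR
    have hzz : z < z' := lt_of_lt_of_le hzx.1 hle
    have hE : ¬ (PenS j 3 N b θ3 z' ∨ PenF j 3 N b θ3 z') := by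
      intro hE
      have := Y.below_exc hzz hge hE
      omega
    have h2 : v ≤ cst 4 (hA N θ4) z' := by
      rcases M.bd z' hz' with h | h | h
      · exact absurd (Or.inl h) hE
      · exact absurd (Or.inr h) hE
      · exact h
    have h3 := cst_step (i := 4) (h := hA N θ4) H hzx (by omega)
    have h4 := (cst_le_ful 4 (hA N θ4) z').trans (ful_anti 4 hle)
    have h5 : 1 ≤ min (hA N θ4 z) (lev z - 4) := by
      rw [Nat.le_min]
      omega
    omega
  have hxt : x ∉ twA N := by
    intro hxt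
    have e1 := H.lev_covBy hzx
    obtain ⟨g1, g2⟩ := Y.tw_cases hxt
    have hbs : GaussPoset.bs N x = twT N x := by
      unfold GaussPoset.bs
      rw [if_pos hxt]
    have g6 := Y.bs hxR
    rw [hbs] at g6
    have hR : Row1 j 4 N θ4 (twT N x) := by
      rcases g2 with h | h
      · exact h.2
      · exact absurd (hbs ▸ h) (hnd x hxR hzx)
    obtain ⟨a, ha⟩ : ∃ a, lev x = 4 + a := ⟨lev x - 4, by have := g6.lev; omega⟩
    have g7 := Y.tcst_row1 hxt hR ha
    have hR3 : Row1 j 3 N θ3 (twT N x) := by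
      rcases g2 with h | h
      · exact h.1
      · exact absurd (hbs ▸ h) (hnd x hxR hzx)
    have g8 := (M.tw x hxt).resolve_left (by
      rintro ⟨Nc, co, C⟩
      have := C.th
      have := C.lev (by omega)
      have := hR3.th
      omega)
    have g9 := cst_step (i := 4) (h := hA N θ4) H hzx (by omega)
    have g10 : ful 4 x = a ^ 2 := ful_two ha (fun k hk1 hk2 => by
      have := hR.nab k hk1.le (by rw [g6.lev]; exact hk2)
      rcases g6.nab k with h | h
      · rw [← h]; exact this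
      · omega)
    rw [g10, hc] at g9
    have : a ≤ min (hA N θ4 z) (lev z - 4) := by
      rw [Nat.le_min]
      omega
    omega
  rcases not_mem_rA.mp hxR with h | h
  · have hbs : GaussPoset.bs N x = x := by
      unfold GaussPoset.bs
      rw [if_neg hxt]
    have := hkd x hxR hzx
    rw [hbs] at this
    exact ⟨h, this⟩
  · exact absurd h hxt

/-- a flat element below a cell of row `1` is expensive -/
theorem Y6.row1_out (Y : Y6 r j K3 K V3 N b θ3 θ4) {z : P} (hz : z ∈ bdR (rA N))
    (hF : FlatY j N θ3 θ4 z) (hge : lev z ≤ hA N θ4 z + 1 + 4) {x : P}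
    (hzx : z ⋖ x) (hR3 : Row1 j 3 N θ3 x) (hR : Row1 j 4 N θ4 x) :
    PenS j 3 N b θ3 z ∨ PenF j 3 N b θ3 z ∨ K < cst 4 (hA N θ4) z := by
  classical
  have H := Y.W.gt.H
  have hj := Y.n.hj
  have hzR := (mem_bdR.mp hz).1
  have hlz := Y.W.bd_lev hz
  have e1 := (H.covBy_iff.mp hzx).2
  have hx := (hF x hzx).1
  have hbs : GaussPoset.bs N x = x := by
    unfold GaussPoset.bs
    rw [if_neg (Y.W.not_tw hx)]
  have hle := Y.hA_le (not_mem_rA.mpr (Or.inl hx)) hzx
  rw [hbs] at hle
  have hRt := hR.th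
  have hRt3 := hR3.th
  obtain ⟨a, ha⟩ : ∃ a, lev x = 4 + a := ⟨lev x - 4, by omega⟩
  have hha : hA N θ4 z = a := by omega
  by_cases honly : ∀ y, z ⋖ y → y = x
  · -- a pendant
    have hlx : lev x ≠ j := fun h => hR.nopen h z hzx honly
    have h3 : hA N θ3 z = a + 1 := by
      obtain ⟨x0, g1, g2, g3⟩ := Y.W.hA_spec hz
      rw [honly x0 g2, hbs] at g3
      omega
    have c4 : cst 4 (hA N θ4) z = a ^ 2 + a := by
      rw [cst_only H.gradedBelow hzx honly, hha, cst_eq_ful (by omega),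
        ful_two ha (fun k hk1 hk2 => hR.nab k hk1.le hk2), Nat.min_eq_left (by omega)]
    have c3 : cst 3 (hA N θ3) z = (a + 1) ^ 2 + (a + 1) := by
      rw [cst_only H.gradedBelow hzx honly, h3, cst_eq_ful (by omega),
        ful_two (a := a + 1) (by omega) (fun k hk1 hk2 => hR3.nab k hk1.le hk2),
        Nat.min_eq_left (by omega)]
    rcases Y.m3 z hz with h7 | h7 | h7
    · exact Or.inl h7
    · exact Or.inr (Or.inl h7)
    right; right
    rw [c3] at h7
    rw [c4]
    by_contra hcon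
    obtain ⟨t, ht⟩ : ∃ t, a = j - 3 + t := ⟨a - (j - 3), by omega⟩
    have h8 : t < 3 := by
      by_contra h9
      have h10 : (j - 3 + 3) ^ 2 ≤ a ^ 2 := Nat.pow_le_pow_left (by omega) 2
      have := Y.n.kk
      omega
    have h9 := Y.n.row t (Finset.mem_range.mpr h8) (by rw [← ht]; omega)
    rw [← ht] at h9
    have := h9.2 (by omega)
    omega
  · -- a pair
    right; right
    push Not at honly
    obtain ⟨x', hzx', hne'⟩ := honly
    have hne : x ≠ x' := Ne.symm hne'
    have e2 := (H.covBy_iff.mp hzx').2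
    have hx' := (hF x' hzx').1
    have hlx : lev x ≠ j := by
      intro h
      have := (Y.W.near hzR (by omega) hzx hzx' hne).1
      have := hR.dbl
      omega
    have hk' : Str 3 N θ3 x' ∨ Row1 j 3 N θ3 x' := (hF x' hzx').2.imp And.left And.left
    have h3 : ∀ k, 3 ≤ k → k < lev x → 3 ≤ nab k z := fun k hk1 hk3 =>
      Y.W.row1_three hzR hx hx' hzx hzx' hne hR3 hk' (by omega) hk1 hk3
    have h4 : 2 ≤ nab (lev x) z := two_le_nab hzx.1.le hzx'.1.le rfl (by omega) hne
    have h5 : ∑ n ∈ range a, n * 3 + a * 2 + a ≤ cst 4 (hA N θ4) z := by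
      rw [cst_shift (a := a + 1) (by omega), Finset.sum_range_succ
        (fun n => min (hA N θ4 z) n * nab (4 + n) z), Finset.sum_range_succ
        (fun n => min (hA N θ4 z) n * nab (4 + n) z), hha]
      refine Nat.add_le_add (Nat.add_le_add ?_ ?_) ?_
      · refine Finset.sum_le_sum fun n hn => ?_
        rw [mem_range] at hn
        rw [Nat.min_eq_right hn.le]
        exact Nat.mul_le_mul_left _ (h3 _ (by omega) (by omega))
      · rw [Nat.min_self, ← ha]
        exact Nat.mul_le_mul_left _ h4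
      · rw [show 4 + (a + 1) = lev z by omega, nab_self, mul_one]
        exact Nat.le_min.mpr ⟨le_rfl, by omega⟩
    have h6 := Finset.sum_range_id_mul_two a
    rw [← Finset.sum_mul] at h5
    have hK := Y.n.k3
    have h7 : (j - 3) ^ 2 ≤ a ^ 2 := Nat.pow_le_pow_left (by omega) 2
    have h8 : a * (a - 1) + a = a ^ 2 := by
      obtain ⟨c, rfl⟩ : ∃ c, a = c + 1 := ⟨a - 1, by omega⟩
      rw [Nat.add_sub_cancel]
      ring
    omega

end Pool.Agent.GaussPoset.W4

end

/-! From `Pool.Agent.W_448ft_h93.OnE` -/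

section

/-!
# The windows `3`, `4`, `j` odd, with exceptions: straight covers (MP_448cb3_co, S7, `j = 13`)
-/

namespace Pool.Agent.GaussPoset.W4

set_option linter.unusedSectionVars false

open Polynomial Finset Sm

universe u

variable {P : Type u} [Fintype P] [PartialOrder P] [DecidableEq P] {r j K3 K V3 : ℕ}
  {N : Tops P → Finset P} {b : Tops P → ℕ} {θ3 θ4 : Tops P → P → ℕ}

/-- the own pair: two straight covers on the two sides of a rectangle-like component -/
theorem Y6.own_pair (Y : Y6 r j K3 K V3 N b θ3 θ4) {z : P}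
    (hz : z ∈ bdR (rA N)) (hh : hA N θ4 z = lev z - 4) (hh3 : hA N θ3 z = lev z - 3) {t : Tops P}
    {c : ℕ} {Nc : Finset P} {co : P → ℕ × ℕ} (R : RectNat j 3 t c Nc co) {x x' : P}
    (hx : Side (fun _ => True) Nc co x) (hx' : Side (fun _ => True) Nc (swp co) x')
    (hzx : z ⋖ x) (hzx' : z ⋖ x') :
    PenS j 3 N b θ3 z ∨ PenF j 3 N b θ3 z ∨ K < cst 4 (hA N θ4) z := by
  classical
  have H := Y.W.gt.H
  have hg := Y.W.gt.good
  have hj := Y.n.hj
  have hlz := Y.W.bd_lev hz
  have e1 := (H.covBy_iff.mp hzx).2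
  have e2 := (H.covBy_iff.mp hzx').2
  have hsum := fun {k : ℕ} (hk : 1 ≤ k) (hkz : k < lev z) =>
    nab_two_sides H R hx hx' hzx hzx' hk hkz
  have n1 : ∀ k, k ≤ j → nab k x = 1 := fun k hk =>
    hx.nab_one rowT_true R.chart H hg R.strip R.one1 hk (by omega)
  have n2 : ∀ k, k ≤ j → nab k x' = 1 := fun k hk =>
    hx'.nab_one rowT_true R.chart.swap H hg R.strip R.one2 hk (by omega)
  obtain ⟨c0, hc0⟩ : ∃ c0, lev z = 4 + c0 := ⟨lev z - 4, by omega⟩
  obtain ⟨s, hs⟩ : ∃ s, c0 = j - 3 + s := ⟨c0 - (j - 3), by omega⟩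
  have hge2 : ∀ n, n < c0 → 2 ≤ nab (4 + n) z := by
    intro n hn
    rw [hsum (k := 4 + n) (by omega) (by omega)]
    have := one_le_nab (l := 4 + n) (z := x) (by omega)
    have := one_le_nab (l := 4 + n) (z := x') (by omega)
    omega
  have heq1 : ∀ n, n < c0 → (n < j - 3 ∨ c0 ≤ n + 1) → nab (4 + n) z = 2 := by
    intro n hn hor
    rw [hsum (k := 4 + n) (by omega) (by omega)]
    rcases Nat.lt_or_ge (4 + n) (j + 1) with h | h
    · rw [n1 _ (by omega), n2 _ (by omega)]
    · rw [show 4 + n = lev x by omega, nab_self, show lev x = lev x' by omega, nab_self]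
  obtain ⟨m, E, f1, f2, f3, f4, f5⟩ := pair_numbers (y := j - 3) (s := s) (c := c0)
    (fun n => nab (4 + n) z) hs hge2 heq1
  have hv : cst 4 (hA N θ4) z = ful 4 z := cst_eq_ful (by omega)
  have hv3 : cst 3 (hA N θ3) z = ful 3 z := cst_eq_ful (by omega)
  have h34 := ful_three_four hc0
  have h4 : ful 4 z = c0 ^ 2 + E := by
    have h := cst_shift (i := 4) (a := c0) (h := fun _ => c0) (x := z) hc0
    rw [cst_eq_ful (by omega), Finset.sum_range_succ, ← hc0, nab_self, mul_one,
      Nat.min_self] at h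
    rw [h, ← f1]
    congr 1
    refine Finset.sum_congr rfl fun n hn => ?_
    rw [mem_range] at hn
    rw [Nat.min_eq_right (by omega)]
  rw [Finset.sum_range_succ, f2, ← hc0, nab_self] at h34
  rcases Y.m3 z hz with h7 | h7 | h7
  · exact Or.inl h7
  · exact Or.inr (Or.inl h7)
  right; right
  rw [hv3, h34] at h7
  rw [hv]
  by_contra hcon
  have h8 : s < 3 := by
    by_contra h9
    have h10 : (j - 3 + 3) ^ 2 ≤ c0 ^ 2 := Nat.pow_le_pow_left (by omega) 2
    have := Y.n.kk
    omega
  have h9 : m < 3 := by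
    by_contra h9
    have hkk := Y.n.kk
    have h10 := f5 (by omega)
    have h11 : (j - 3 + 2) ^ 2 ≤ c0 ^ 2 := Nat.pow_le_pow_left (by omega) 2
    have h12 : (j - 3) * 3 ≤ (j - 3) * m := Nat.mul_le_mul_left _ (by omega)
    have h13 : (j - 3 + 3) ^ 2 = (j - 3 + 2) ^ 2 + (2 * (j - 3) + 5) := by ring
    omega
  have h10 := Y.n.own s (Finset.mem_range.mpr h8) m (Finset.mem_range.mpr h9) (by
    by_cases hm : m = 0
    · exact Or.inl hm
    · have := f5 hm
      exact Or.inr (by omega)) (by rw [← hs]; omega)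
  rw [← hs] at h10
  by_cases hm : m = 0
  · rw [if_pos hm] at h10
    have := f4 hm
    omega
  · rw [if_neg hm] at h10
    omega

/-- straight covers below one top -/
theorem Y6.own_out (Y : Y6 r j K3 K V3 N b θ3 θ4) {z : P}
    (hz : z ∈ bdR (rA N)) (hh : hA N θ4 z = lev z - 4) (hh3 : hA N θ3 z = lev z - 3)
    (hF : ∀ x, z ⋖ x → x ∉ unnat N ∧ Str 3 N θ3 x) {t : Tops P}
    (ht : ∀ x, z ⋖ x → topOf x = t) :
    PenS j 3 N b θ3 z ∨ PenF j 3 N b θ3 z ∨ K < cst 4 (hA N θ4) z := by
  classical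
  have H := Y.W.gt.H
  have HN := Y.W.natSys
  have hj := Y.n.hj
  have hlz := Y.W.bd_lev hz
  have hzu := (mem_rA.mp (mem_bdR.mp hz).1).1
  obtain ⟨x, hzx, -⟩ := Hul.exists_cov (w := z) (v := (topOf z : P))
    (lt_of_le_of_ne (le_topOf z) (by
      intro h
      have := (topOf z).2
      rw [← h] at this
      omega))
  have hzN := mem_unnat.mp hzu t
  have hin : ∀ x, z ⋖ x → x ∈ N t ∧ θ3 t x = lev x - 3 ∧ lev z = lev x + 1 := by
    intro x hx
    refine ⟨HN.mem_iff.mpr ⟨(hF x hx).1, ht x hx⟩, ?_, (H.covBy_iff.mp hx).2⟩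
    rw [← ht x hx]
    exact (hF x hx).2.th
  have hxx := hin x hzx
  rcases Y.typ t with ⟨g1, g2, g2', g5⟩ | ⟨c, Nc, co, h0, h0', g1, g2, g2', g4⟩ |
    ⟨Nc, co, h0, h0', g1, g2, g2', g5'⟩
  · exfalso
    apply hzN
    rw [g1, mem_onlyB]
    intro s hs hzs
    have hzs' : z < s := lt_of_le_of_ne hzs (by rintro rfl; omega)
    obtain ⟨u, hu, hus⟩ := Hul.exists_cov hzs'
    have h1 := (hin u hu).1
    rw [g1, mem_onlyB] at h1
    exact h1 s hs hus
  · rw [g1] at hzN
    have hside : ∀ x, z ⋖ x → Side (fun _ => True) Nc co x ∨ Side (fun _ => True) Nc (swp co) x := by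
      intro x hx
      obtain ⟨a1, a2, a3⟩ := hin x hx
      rw [g1] at a1
      rw [g2] at a2
      exact rect_str7 h0' le_rfl a1 (by omega) a2
    by_cases honly : ∀ y, z ⋖ y → y = x
    · exfalso
      obtain ⟨a1, a2, a3, a4, a5⟩ := rect_pendant H h0' g1 hzu hxx.1 hzx honly
      rcases hside x hzx with h | h
      · rcases h with h | h
        · exact a2 h
        · have := h.2
          omega
      · rcases h with h | h
        · exact a3 h
        · have := h.2
          rw [swp_fst] at this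
          omega
    · push Not at honly
      obtain ⟨x', hzx', hne'⟩ := honly
      have hne : x ≠ x' := Ne.symm hne'
      have hxx' := hin x' hzx'
      have huni := uc_two_of H hzx hzx' hne
      rcases hside x hzx with h | h
      · rcases hside x' hzx' with h' | h'
        · exact absurd (mem_natR.mpr (Or.inr (Or.inl
            (junk_of_sides rowT_true h0.chart h0.one1 h h' hne (by omega) huni hzx)))) hzN
        · exact Y.own_pair hz hh hh3 h0' h h' hzx hzx'
      · rcases hside x' hzx' with h' | h'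
        · exact Y.own_pair hz hh hh3 h0' h' h hzx' hzx
        · exact absurd (mem_natR.mpr (Or.inr (Or.inr
            (junk_of_sides rowT_true h0.chart.swap h0.one2 h h' hne (by omega) huni hzx)))) hzN
  · exfalso
    rw [g1] at hzN
    have hside : ∀ x, z ⋖ x → Side (fun c => c.1 ≤ c.2) Nc co x := by
      intro x hx
      obtain ⟨a1, a2, a3⟩ := hin x hx
      rw [g1] at a1
      rw [g2] at a2
      exact stair_str7 h0' le_rfl (by norm_num) a1 (by omega) a2
    by_cases honly : ∀ y, z ⋖ y → y = x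
    · obtain ⟨a1, a2, a3⟩ := stair_pendant H h0' (by omega) g1 hzu hxx.1 hzx honly
      rcases hside x hzx with h | h
      · exact a2 h
      · have := h.2
        omega
    · push Not at honly
      obtain ⟨x', hzx', hne'⟩ := honly
      have hne : x ≠ x' := Ne.symm hne'
      have hxx' := hin x' hzx'
      have huni := uc_two_of H hzx hzx' hne
      exact hzN (mem_natS.mpr (Or.inr (junk_of_sides rowT_shift h0.chart (h0'.one1 (by norm_num))
        (hside x hzx) (hside x' hzx') hne (by omega) huni hzx)))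

end Pool.Agent.GaussPoset.W4

end

/-! From `Pool.Agent.W_448ft_h93.OnF` -/

section

/-!
# The windows `3`, `4`, `j` odd, with exceptions: own noise (MP_448cb3_co, S7, `j = 13`)
-/

namespace Pool.Agent.GaussPoset.W4

set_option linter.unusedSectionVars false

open Polynomial Finset Sm

universe u

variable {P : Type u} [Fintype P] [PartialOrder P] [DecidableEq P] {r j K3 K V3 : ℕ}
  {N : Tops P → Finset P} {b : Tops P → ℕ} {θ3 θ4 : Tops P → P → ℕ}

/-- elements of level `j + 1` below a deep cell -/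
theorem Y6.deep_j (Y : Y6 r j K3 K V3 N b θ3 θ4)
    {z : P} (hz : z ∈ bdR (rA N)) (hlz : lev z = j + 1) {x : P} (hzx : z ⋖ x)
    (hD : Dy j K V3 N θ3 θ4 x) :
    PenS j 3 N b θ3 z ∨ PenF j 3 N b θ3 z ∨ K < cst 4 (hA N θ4) z := by
  classical
  have W := Y.W
  have H := W.gt.H
  have HN := W.natSys
  have hj := Y.n.hj
  have hod := Y.n.od
  have hzR := (mem_bdR.mp hz).1
  have e1 := (H.covBy_iff.mp hzx).2
  have hlx : lev x = j := by omega
  have hx : x ∉ unnat N := W.low (by omega)
  have hbs : GaussPoset.bs N x = x := by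
    unfold GaussPoset.bs
    rw [if_neg (W.not_tw hx)]
  have hth := hD.th
  have hxt : x ∈ N (topOf x) := HN.mem_iff.mpr ⟨hx, rfl⟩
  have hxle : x ≤ (topOf x : P) := le_topOf x
  -- two covers have one cover each
  have hnear : (Win.uc x).card = 2 → ∀ y, z ⋖ y → y = x := by
    intro h2 y hy
    by_contra hne
    have := (W.near hzR hlz hzx hy (Ne.symm hne)).1
    omega
  generalize htt : topOf x = t at hxt hxle hth
  rcases Y.typ t with ⟨g1, g2, g2', g5⟩ | ⟨c, Nc, co, h0, h0', g1, g2, g2', g4⟩ |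
    ⟨Nc, co, h0, h0', g1, g2, g2', g5'⟩
  · exfalso
    rw [g2'] at hth
    simp only at hth
    omega
  · exfalso
    rw [g1] at hxt
    rw [g2'] at hth
    have hJ : ¬ (x ∈ junk (fun _ => True) Nc co ∨ x ∈ junk (fun _ => True) Nc (swp co)) := by
      intro h
      unfold thR at hth
      rw [if_pos h] at hth
      omega
    have hxN : x ∈ Nc := by
      rw [mem_natR] at hxt
      rcases hxt with h | h | h
      · exact h
      · exact absurd (Or.inl h) hJ
      · exact absurd (Or.inr h) hJ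
    have h2 := rect_th4 h0 hxN hJ (by omega)
    have h3 := chart_inner_uc h0.chart H hxN (by omega) (by omega)
    exact g4 x z hxle hlx h3 hzx (hnear h3)
  · rw [g1] at hxt
    rw [g2'] at hth
    have hJ : x ∉ junk (fun c => c.1 ≤ c.2) Nc co := by
      intro h
      unfold thSg at hth
      rw [if_pos h] at hth
      omega
    have hxN : x ∈ Nc := by
      rw [mem_natS] at hxt
      exact hxt.resolve_right hJ
    have hl := h0.chart.lev x hxN
    have hm : (co x).1 ≤ (co x).2 := h0.chart.mem x hxN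
    have h2 := stair_th4 h0 hxN hJ (by omega)
    have h2' := stair_th7 h0' le_rfl (by norm_num) hxN hJ (by omega)
    have hlt : (co x).1 < (co x).2 := by omega
    -- a double
    have h3 := stair_inner_uc h0.chart H hxN (by omega) hlt
    have ho := hnear h3
    have h4 := Y.stair_pend h0 g1 g5' hxN hlx (by omega) hlt hz hzx ho
    rcases Y.m3 z hz with h10 | h10 | h10
    · exact Or.inl h10
    · exact Or.inr (Or.inl h10)
    exfalso
    obtain ⟨x0, f1, f2, f3⟩ := W.hA_spec hz
    rw [ho x0 f2, hbs, htt, g2] at f3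
    have hlb : hA N θ3 z = j - 3 - 1 := by omega
    have h7 := cst_stair (w := 3) (L := j) (h := j - 3 - 1) h0'.chart hxN hlx (by omega)
    rw [show (co x).1 = (j - 3) / 2 by omega, show j - (j - 3) / 2 = (j + 3) / 2 by omega] at h7
    have h9 := cst_only (i := 3) (h := hA N θ3) H.gradedBelow hzx ho
    rw [show min (hA N θ3 z) (lev z - 3) = hA N θ3 z by rw [hlb]; omega, hlb, h7] at h9
    rw [h9] at h10
    have h11 := Y.n.fl3
    unfold flC at h11
    omega

/-- **Own noise at window `4`.**  The cheapest boundary elements without the exceptions, if their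
cost is at most `K`, are joins with straight covers and the full label. -/
theorem Y6.min_join (Y : Y6 r j K3 K V3 N b θ3 θ4)
    {v : ℕ} (M : MnE j N b θ3 θ4 v) (hv : v ≤ K) {z : P} (hz : z ∈ bdR (rA N))
    (hc : cst 4 (hA N θ4) z = v) :
    PenS j 3 N b θ3 z ∨ PenF j 3 N b θ3 z ∨
    ((∀ x, z ⋖ x → x ∉ unnat N ∧ Str 3 N θ3 x ∧ Str 4 N θ4 x) ∧ hA N θ4 z = lev z - 4 ∧
      v = ful 4 z ∧ ∃ x x', Cg z x x') := by
  classical
  have W := Y.W
  have H := W.gt.H
  have HN := W.natSys
  have hj := Y.n.hj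
  have hlz := W.bd_lev hz
  by_cases hd : ∃ x, x ∉ rA N ∧ z ⋖ x ∧ Dy j K V3 N θ3 θ4 (GaussPoset.bs N x)
  · obtain ⟨x, hx, hzx, hD⟩ := hd
    have e1 := (H.covBy_iff.mp hzx).2
    by_cases hl : j + 1 ≤ lev x
    · rcases Y.deep_cover hz hx hzx hl hD with h | h | h
      · exact Or.inl h
      · exact Or.inr (Or.inl h)
      · omega
    · have hxu : x ∉ unnat N := W.low (by omega)
      have hbs : GaussPoset.bs N x = x := by
        unfold GaussPoset.bs
        rw [if_neg (W.not_tw hxu)]
      rw [hbs] at hD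
      rcases Y.deep_j hz (by omega) hzx hD with h | h | h
      · exact Or.inl h
      · exact Or.inr (Or.inl h)
      · omega
  · push Not at hd
    obtain ⟨hF, hge⟩ := Y.flat M hv hz hc hd
    by_cases hR : ∃ x, z ⋖ x ∧ Row1 j 3 N θ3 x ∧ Row1 j 4 N θ4 x
    · obtain ⟨x, hzx, hR3, hR4⟩ := hR
      rcases Y.row1_out hz hF hge hzx hR3 hR4 with h | h | h
      · exact Or.inl h
      · exact Or.inr (Or.inl h)
      · omega
    · push Not at hR
      have hS : ∀ x, z ⋖ x → x ∉ unnat N ∧ Str 3 N θ3 x ∧ Str 4 N θ4 x := fun x hx =>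
        ⟨(hF x hx).1, (hF x hx).2.resolve_right (fun h => hR x hx h.1 h.2)⟩
      have hh : hA N θ4 z = lev z - 4 := by
        obtain ⟨x0, f1, f2, f3⟩ := Y.hA_spec hz
        obtain ⟨g1, g2⟩ := hS x0 f2
        have hbs : GaussPoset.bs N x0 = x0 := by
          unfold GaussPoset.bs
          rw [if_neg (W.not_tw g1)]
        rw [hbs, g2.2.th] at f3
        have := (H.covBy_iff.mp f2).2
        omega
      have hh3 : hA N θ3 z = lev z - 3 := by
        obtain ⟨x0, f1, f2, f3⟩ := W.hA_spec hz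
        obtain ⟨g1, g2⟩ := hS x0 f2
        have hbs : GaussPoset.bs N x0 = x0 := by
          unfold GaussPoset.bs
          rw [if_neg (W.not_tw g1)]
        rw [hbs, g2.1.th] at f3
        have := (H.covBy_iff.mp f2).2
        omega
      by_cases hT : ∃ x x', z ⋖ x ∧ z ⋖ x' ∧ topOf x ≠ topOf x'
      · obtain ⟨x, x', h1, h2, h3⟩ := hT
        refine Or.inr (Or.inr ⟨hS, hh, ?_, x, x', ?_⟩)
        · rw [← hc]
          exact cst_eq_ful (by omega)
        · exact Cg.mk' h1 h2
            (mem_onlyB.mpr fun s hs hxs => HN.top_eq (HN.mem_iff.mpr ⟨(hS x h1).1, rfl⟩) hs hxs)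
            (mem_onlyB.mpr fun s hs hxs => HN.top_eq (HN.mem_iff.mpr ⟨(hS x' h2).1, rfl⟩) hs hxs)
            h3
      · push Not at hT
        obtain ⟨x, hzx, -⟩ := Hul.exists_cov (w := z) (v := (topOf z : P))
          (lt_of_le_of_ne (le_topOf z) (by
            intro h
            have := (topOf z).2
            rw [← h] at this
            omega))
        rcases Y.own_out hz hh hh3 (fun x hx => ⟨(hS x hx).1, (hS x hx).2.1⟩)
          (t := topOf x) (fun x' hx' => hT x' x hx' hzx) with h | h | h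
        · exact Or.inl h
        · exact Or.inr (Or.inl h)
        · omega

/-- **Own noise at window `4`** with exceptions. -/
theorem Y6.own_noise (Y : Y6 r j K3 K V3 N b θ3 θ4)
    {n : ℕ} (hn : n ≤ K) (hjn : ∀ z x x' : P, Cg z x x' → n ≤ ful 4 z) :
    (∀ z ∈ bdR (rA N), PenS j 3 N b θ3 z ∨ PenF j 3 N b θ3 z ∨ n ≤ cst 4 (hA N θ4) z) ∧
    (∀ x ∈ twA N, Spc j 3 N b θ3 (twT N x) ∨ n < tcst 4 (thA N θ4) (twT N x, x)) ∧
    (∀ z ∈ bdR (rA N), cst 4 (hA N θ4) z = n → PenS j 3 N b θ3 z ∨ PenF j 3 N b θ3 z ∨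
      ((∀ x, z ⋖ x → x ∉ unnat N ∧ Str 3 N θ3 x ∧ Str 4 N θ4 x) ∧ hA N θ4 z = lev z - 4 ∧
      n = ful 4 z ∧ ∃ x x', Cg z x x')) := by
  classical
  have htw : ∀ x ∈ twA N, Spc j 3 N b θ3 (twT N x) ∨ n < tcst 4 (thA N θ4) (twT N x, x) :=
    fun x hx => (Y.out_tw hx).imp id (fun h => hn.trans_lt h)
  have hbd : ∀ z ∈ bdR (rA N), PenS j 3 N b θ3 z ∨ PenF j 3 N b θ3 z ∨
      n ≤ cst 4 (hA N θ4) z := by
    by_contra hcon
    push Not at hcon
    obtain ⟨z0, g1, g2, g3, g4⟩ := hcon
    let B : Finset P := (bdR (rA N)).filter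
      (fun z => ¬ PenS j 3 N b θ3 z ∧ ¬ PenF j 3 N b θ3 z)
    obtain ⟨z1, hz1, hmin⟩ := B.exists_min_image (fun z => cst 4 (hA N θ4) z)
      ⟨z0, mem_filter.mpr ⟨g1, g2, g3⟩⟩
    obtain ⟨a1, a2, a3⟩ := mem_filter.mp hz1
    have h0 := hmin z0 (mem_filter.mpr ⟨g1, g2, g3⟩)
    have M : MnE j N b θ3 θ4 (cst 4 (hA N θ4) z1) := by
      refine ⟨fun z hz => ?_, fun x hx => ?_⟩
      · by_cases h1 : PenS j 3 N b θ3 z
        · exact Or.inl h1
        · by_cases h2 : PenF j 3 N b θ3 z
          · exact Or.inr (Or.inl h2)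
          · exact Or.inr (Or.inr (hmin z (mem_filter.mpr ⟨hz, h1, h2⟩)))
      · refine (htw x hx).imp id (fun h => ?_)
        omega
    rcases Y.min_join M (by omega) a1 rfl with h | h | ⟨-, -, h3, x, x', h4⟩
    · exact a2 h
    · exact a3 h
    · have := hjn z1 x x' h4
      omega
  exact ⟨hbd, htw, fun z hz hc => Y.min_join ⟨hbd, fun x hx => (htw x hx).imp id (fun h => h.le)⟩
    hn hz hc⟩

end Pool.Agent.GaussPoset.W4

namespace Pool.Agent.GaussPoset.Sm

set_option linter.unusedSectionVars false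

open Polynomial Finset W4

universe u

variable {P : Type u} [Fintype P] [PartialOrder P] [DecidableEq P] {r j : ℕ}
  {N : Tops P → Finset P} {θ3 θ4 : Tops P → P → ℕ}

/-- the data of the windows `3`, `4` with exceptions from the least raised cost at window `3` -/
theorem y6_of {lo hi : Tops P → ℕ → ℕ} {K3 K V3 V : ℕ}
    (S : Sy P j lo hi N θ3 θ4) (W : Wk r j 3 K3 N (fun t => hi t 3 - lo t 3 + 1) θ3)
    (M : MnT j 3 N (fun t => hi t 3 - lo t 3 + 1) θ3 V) (hV : V3 ≤ V) (n : NmO j K V3) :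
    Y6 r j K3 K V3 N (fun t => hi t 3 - lo t 3 + 1) θ3 θ4 where
  W := W
  typ := S.typ
  m3 := fun z hz => by
    by_cases h1 : PenS j 3 N (fun t => hi t 3 - lo t 3 + 1) θ3 z
    · exact Or.inl h1
    by_cases h2 : PenF j 3 N (fun t => hi t 3 - lo t 3 + 1) θ3 z
    · exact Or.inr (Or.inl h2)
    right; right
    have hcc : ¬ CEl j 3 N θ3 z := by
      rintro ⟨a1, a2, f, s, a3, a4, a5, a6, a7⟩
      obtain ⟨Nc, co, C⟩ := W.fold_cell (by norm_num) a1 a2 a3 a4 a5 a7
      have := C.ev
      have := n.od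
      omega
    have h3 := M.bd z hz
    rw [cst_const, hT_not h2, hS_not h1, hC_not hcc, ← cst_const] at h3
    exact hV.trans h3
  m3' := fun x hx => by
    by_cases h1 : Spc j 3 N (fun t => hi t 3 - lo t 3 + 1) θ3 (twT N x)
    · exact Or.inl h1
    · right
      have h2 := M.tw x hx
      unfold tcS at h2
      rw [if_neg h1] at h2
      exact hV.trans h2
  n := n

/-- **own noise at window `4`, `j = 13`** -/
theorem own13 {lo hi : Tops P → ℕ → ℕ} {K3 V n : ℕ}
    (S : Sy P 13 lo hi N θ3 θ4) (W : Wk r 13 3 K3 N (fun t => hi t 3 - lo t 3 + 1) θ3)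
    (M : MnT 13 3 N (fun t => hi t 3 - lo t 3 + 1) θ3 V) (hV : 11 ^ 2 + 55 ≤ V)
    (hn : n ≤ 10 ^ 2 + 45) (hjn : ∀ z x x' : P, Cg z x x' → n ≤ ful 4 z) :
    (∀ z ∈ bdR (rA N), PenS 13 3 N (fun t => hi t 3 - lo t 3 + 1) θ3 z ∨
      PenF 13 3 N (fun t => hi t 3 - lo t 3 + 1) θ3 z ∨ n ≤ cst 4 (hA N θ4) z) ∧
    (∀ x ∈ twA N, Spc 13 3 N (fun t => hi t 3 - lo t 3 + 1) θ3 (twT N x) ∨
      n < tcst 4 (thA N θ4) (twT N x, x)) ∧
    (∀ z ∈ bdR (rA N), cst 4 (hA N θ4) z = n →
      PenS 13 3 N (fun t => hi t 3 - lo t 3 + 1) θ3 z ∨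
      PenF 13 3 N (fun t => hi t 3 - lo t 3 + 1) θ3 z ∨
      ((∀ x, z ⋖ x → x ∉ unnat N ∧ Str 3 N θ3 x ∧ Str 4 N θ4 x) ∧ hA N θ4 z = lev z - 4 ∧
      n = ful 4 z ∧ ∃ x x', Cg z x x')) :=
  (y6_of S W M hV nmO_13).own_noise hn hjn

end Pool.Agent.GaussPoset.Sm

end
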