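import Mathlib
import Pool.Agent.W_448zz_h61.Ns
import Pool.Agent.W_448zz_h61.M129
import Pool.Agent.W_448zz_h61.M134
import Pool.Agent.W_448zz_h61.M136
import Pool.Agent.W_448zz_h61.M137
import Pool.Agent.W_448zz_h61.M144
import Pool.Agent.W_448zz_h61.M209

/-! From `Pool.Agent.W_448s7s_h5.SsC` -/

section

/-!
# Pendants of the level `j + 1` have no twins (MP_448cb3_co, S7)

By the near level theorem every double-up element of the level `j` has at most one pendant.
-/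

set_option autoImplicit false

namespace Pool.Agent.GaussPoset.Sm

set_option linter.unusedSectionVars false

open Finset Wd

universe u

variable {P : Type u} [Fintype P] [PartialOrder P] [DecidableEq P] {r j : ℕ}

/-- at most one pendant below an element with two upper covers -/
theorem pen_le_one (G : Win.GoodTo P r j) (hj : 2 ≤ j) {y : P} (hy : lev y = j)
    (hy2 : (Win.uc y).card = 2) : (Win.pen y).card ≤ 1 := by
  have G' : Win.GoodTo P r ((j - 1) + 1) := by
    rw [show j - 1 + 1 = j by omega]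
    exact G
  obtain ⟨t, ht, hyt⟩ := exists_above' (x := y) (j := 0) (Nat.zero_le _)
  obtain ⟨lo, hi, x, C⟩ := Win.comp_exists G' hyt
  obtain ⟨a, a1, a2, rfl⟩ := C.surj (j - 1 + 1) le_rfl y (by omega) ht
  have h1 := (C.uc_two G' hyt (k := j - 1) (by omega) a1 a2).1 hy2
  rcases (Win.near_level' G' (by omega)).2 t lo hi x hyt C with ⟨-, -, h2⟩ | ⟨-, -, b, -, h2⟩ |
    ⟨-, -, b, -, h2⟩
  · rw [h2 a h1.1 h1.2]
    exact Nat.zero_le _
  · rw [h2 a h1.1 h1.2]
    split_ifs <;> omega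
  · rw [h2 a h1.1 h1.2]
    split_ifs <;> omega

/-- two pendants below the same element with two upper covers are equal -/
theorem pend_unique (G : Win.GoodTo P r j) (hj : 2 ≤ j) {x x' y : P} (hy : lev y = j)
    (hy2 : (Win.uc y).card = 2) (hx : Win.uc x = {y}) (hx' : Win.uc x' = {y}) : x = x' := by
  have h1 := pen_le_one G hj hy hy2
  rw [card_le_one] at h1
  have m1 : x ⋖ y := by rw [← Win.mem_uc, hx]; exact mem_singleton_self _
  have m2 : x' ⋖ y := by rw [← Win.mem_uc, hx']; exact mem_singleton_self _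
  exact h1 x (Win.mem_pen.2 ⟨m1, by rw [hx, card_singleton]⟩) x'
    (Win.mem_pen.2 ⟨m2, by rw [hx', card_singleton]⟩)

/-- an element of the level `j + 1` with one element above it on the level `j` and two on the level
`j - 1` has no twin -/
theorem no_pend_tw (G : Win.GoodTo P r j) (hj : 2 ≤ j) {x x' : P} (hne : x ≠ x')
    (hl : lev x = j + 1) (hu : ∀ u, x < u ↔ x' < u) (h1 : nab j x = 1)
    (h2 : 2 ≤ nab (j - 1) x) : False := by
  have H := G.H
  have hl' : lev x' = j + 1 := by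
    have := lev_eq_of_up (x := x) (x' := x') hu
    omega
  have e1 := nab_uc H (z := x) (k := j) hl
  have e2 := nab_uc H (z := x') (k := j) hl'
  have e3 := nab_congr_up (x := x) (y := x') (fun v => (hu v).symm) (k := j) (by omega)
  obtain ⟨y, hy⟩ := card_eq_one.1 (by omega : (Win.uc x).card = 1)
  obtain ⟨y', hy'⟩ := card_eq_one.1 (by omega : (Win.uc x').card = 1)
  have m1 : x ⋖ y := by rw [← Win.mem_uc, hy]; exact mem_singleton_self _
  have ly := (H.covBy_iff.mp m1).2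
  have m2 : x' ⋖ y := H.covBy_iff.mpr ⟨(hu y).1 m1.1, by omega⟩
  have e4 : y = y' := by
    have := Win.mem_uc.2 m2
    rw [hy', mem_singleton] at this
    exact this
  subst e4
  have h3 : nab (j - 1) x = nab (j - 1) y := nab_only (fun v hv => by
    have := Win.mem_uc.2 hv
    rw [hy, mem_singleton] at this
    exact this) m1 (by omega)
  have h4 := nab_uc H (z := y) (k := j - 1) (by omega)
  have h5 := Win.uc_card_le H y
  exact hne (pend_unique G hj (by omega) (by omega) hy hy')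

end Pool.Agent.GaussPoset.Sm

end

/-! From `Pool.Agent.W_448s7_h27.EwV` -/

section

/-!
Products over the components with their energies, with one exceptional component
(MP_448cb3_co, S7, window `4`).
-/

namespace Pool.Agent.GaussPoset

set_option linter.unusedSectionVars false

open Polynomial Finset

universe u

variable {P : Type u} [Fintype P] [PartialOrder P] [DecidableEq P]
variable {ι : Type*} [Fintype ι] [DecidableEq ι]

/-- **Products over the components with their energies, with one exceptional component.** -/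
theorem pg_top {i n : ℕ} (hn1 : 1 ≤ n) {R : Finset P}
    (hR : ∀ x y, x ≤ y → y ∈ R → x ∈ R) (hRlev : ∀ x ∈ R, i < lev x) (cp : P → ι)
    (hcp : ∀ x y, x ≤ y → x ∉ R → cp x = cp y) (b b1 bz : ι → ℕ) (T : ℕ)
    (G : ι → (P → ℕ) → ℕ → Prop)
    (hG : ∀ k B B', (∀ x, x ∉ R → cp x = k → B x = B' x) → ∀ m, G k B m ↔ G k B' m)
    (hfac : ∀ k B m, m < n → G k B m → (1 + X : ℤ[X]) ^ (b k) ∣
      ZB (P := {x : P // x ∉ R ∧ cp x = k}) i ∅ 0 (fun x => B x) m)
    (htop : ∀ k, G k (fun _ => 0) n → (1 + X : ℤ[X]) ^ (b1 k) ∣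
      ZB (P := {x : P // x ∉ R ∧ cp x = k}) i ∅ 0 (fun _ => 0) n)
    (hzero : ∀ k, (1 + X : ℤ[X]) ^ (bz k) ∣
      ZB (P := {x : P // x ∉ R ∧ cp x = k}) i ∅ 0 (fun _ => 0) 0)
    (hT : T ≤ ∑ k, b k) (hT1 : ∀ k0, T ≤ b1 k0 + ∑ k ∈ univ.erase k0, bz k) :
    (1 + X : ℤ[X]) ^ T ∣ ZQ i n (fun e F => (∀ z ∈ R, z ∉ F) ∧
      ∀ k, G k (fun x => (by classical exact (R.filter (fun z => z ⋖ x)).sup e))
        (∑ x ∈ univ.filter (fun x => x ∉ R ∧ cp x = k), e x)) := by
  classical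
  set Q : (P → ℕ) → Finset P → Prop := fun e F => Vd i e F ∧ ((∀ z ∈ R, z ∉ F) ∧
      ∀ k, G k (fun x => (R.filter (fun z => z ⋖ x)).sup e)
        (∑ x ∈ univ.filter (fun x => x ∉ R ∧ cp x = k), e x)) with hQ
  have h0 : ZQ i n (fun e F => (∀ z ∈ R, z ∉ F) ∧
      ∀ k, G k (fun x => (by classical exact (R.filter (fun z => z ⋖ x)).sup e))
        (∑ x ∈ univ.filter (fun x => x ∉ R ∧ cp x = k), e x)) = SC Q n := by
    unfold ZQ SC
    refine Finset.sum_congr rfl fun F _ => ?_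
    refine Finset.sum_congr ?_ (fun _ _ => rfl)
    ext e
    simp only [mem_filter, hQ]
  rw [h0, SC_eq_cfg]
  -- the fibres
  let φ : Finset P × (P → ℕ) → (P → ℕ) × (ι → ℕ) := fun x => (lbl R x.2,
    fun k => ∑ y ∈ univ.filter (fun y => y ∉ R ∧ cp y = k), x.2 y)
  let s : Finset ((P → ℕ) × (ι → ℕ)) := (cfg Q n).image φ
  have h1 : ∑ x ∈ cfg Q n, (X : ℤ[X]) ^ x.1.card =
      ∑ y ∈ s, ∑ x ∈ (cfg Q n).filter (fun x => φ x = y), (X : ℤ[X]) ^ x.1.card :=
    (Finset.sum_fiberwise_of_maps_to (fun x hx => mem_image_of_mem φ hx) _).symm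
  rw [h1]
  refine Finset.dvd_sum fun y hy => ?_
  obtain ⟨⟨F0, e0⟩, hx0, hφ0⟩ := mem_image.mp hy
  rw [mem_cfg] at hx0
  obtain ⟨hs0, hV0, hF0, hG0⟩ := hx0
  simp only at hs0 hV0 hF0 hG0
  obtain ⟨g, M⟩ := y
  have hg0 : lbl R e0 = g := congrArg Prod.fst hφ0
  have hM0 : ∀ k, ∑ y ∈ univ.filter (fun y => y ∉ R ∧ cp y = k), e0 y = M k :=
    fun k => congrFun (congrArg Prod.snd hφ0) k
  have hgR : ∀ x ∈ R, e0 x = g x := by
    intro x hx
    rw [← hg0, lbl_of hx]
  have hsup : ∀ (e : P → ℕ), (∀ x ∈ R, e x = g x) → ∀ x,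
      (R.filter (fun z => z ⋖ x)).sup e = (R.filter (fun z => z ⋖ x)).sup g := by
    intro e he x
    refine Finset.sup_congr rfl fun z hz => ?_
    exact he z (mem_filter.mp hz).1
  have hmono : ∀ x ∈ R, ∀ y ∈ R, x ≤ y → g x ≤ g y := by
    intro x hx y hy hxy
    have h2 := hV0.2.2.1 x y hxy (hF0 x hx) (hF0 y hy)
    rw [rho_of_lt (hRlev x hx), rho_of_lt (hRlev y hy), hgR x hx, hgR y hy] at h2
    exact_mod_cast h2
  have hn : n = ∑ x ∈ R, g x + ∑ k, M k := by
    rw [← hs0, sum_parts R cp e0, Finset.sum_congr rfl hgR,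
      Finset.sum_congr rfl (fun k _ => hM0 k)]
  have hGk : ∀ k, G k (fun x => (R.filter (fun z => z ⋖ x)).sup g) (M k) := by
    intro k
    have h2 := hG0 k
    rw [hM0 k] at h2
    refine (hG k _ _ ?_ _).mp h2
    intro x _ _
    exact hsup e0 hgR x
  have h2 : ∑ x ∈ (cfg Q n).filter (fun x => φ x = (g, M)), (X : ℤ[X]) ^ x.1.card =
      SC (fun e F => (Vd i e F ∧ ∀ x ∈ R, x ∉ F ∧ e x = g x) ∧
        ∀ k, ∑ x ∈ univ.filter (fun x => x ∉ R ∧ cp x = k), e x = M k) n := by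
    rw [SC_eq_cfg]
    refine Finset.sum_congr ?_ (fun _ _ => rfl)
    ext ⟨F, e⟩
    rw [mem_filter, mem_cfg, mem_cfg]
    simp only [φ, Prod.mk.injEq, hQ]
    constructor
    · rintro ⟨⟨a1, a2, a3, a4⟩, a5, a6⟩
      refine ⟨a1, ⟨a2, fun x hx => ⟨a3 x hx, ?_⟩⟩, fun k => congrFun a6 k⟩
      rw [← a5, lbl_of hx]
    · rintro ⟨a1, ⟨a2, a3⟩, a4⟩
      refine ⟨⟨a1, a2, fun x hx => (a3 x hx).1, fun k => ?_⟩, ?_, funext fun k => a4 k⟩
      · rw [a4 k]
        refine (hG k _ _ ?_ _).mpr (hGk k)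
        intro x _ _
        exact hsup e (fun x hx => (a3 x hx).2) x
      · funext x
        by_cases hx : x ∈ R
        · rw [lbl_of hx]; exact (a3 x hx).2
        · rw [lbl_off hx, ← hg0, lbl_off hx]
  rw [h2, SC_parts R cp g (fun e F => Vd i e F ∧ ∀ x ∈ R, x ∉ F ∧ e x = g x)
    (fun k => Cst (P := {x : P // InPart R cp k x}) i ∅ 0
        (fun x => (R.filter (fun z => z ⋖ (x : P))).sup g))
    (fun e F => vd_parts_iff hR hRlev cp hcp g hmono e F) M n hn]
  have h4 : ∀ k, ZB (P := {x : P // x ∉ R ∧ cp x = k}) i ∅ 0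
      (fun x => (R.filter (fun z => z ⋖ (x : P))).sup g) (M k) =
      SC (Cst (P := {x : P // InPart R cp k x}) i ∅ 0
        (fun x => (R.filter (fun z => z ⋖ (x : P))).sup g)) (M k) := by
    intro k
    rw [ZB_eq_SC]
    rfl
  by_cases hex : ∃ k0, M k0 = n
  · obtain ⟨k0, hk0⟩ := hex
    have h5 : ∑ k, M k = M k0 + ∑ k ∈ univ.erase k0, M k :=
      (Finset.add_sum_erase _ _ (mem_univ k0)).symm
    have h6 : ∑ x ∈ R, g x = 0 := by omega
    have h7 : ∑ k ∈ univ.erase k0, M k = 0 := by omega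
    have hgz : ∀ x ∈ R, g x = 0 := fun x hx => by
      have := Finset.single_le_sum (f := g) (fun _ _ => Nat.zero_le _) hx
      omega
    have hMz : ∀ k, k ≠ k0 → M k = 0 := fun k hk => by
      have := Finset.single_le_sum (f := M) (fun _ _ => Nat.zero_le _)
        (mem_erase.mpr ⟨hk, mem_univ k⟩)
      omega
    have hsz : ∀ x : P, (R.filter (fun z => z ⋖ x)).sup g = 0 := fun x => by
      have : (R.filter (fun z => z ⋖ x)).sup g ≤ 0 :=
        Finset.sup_le fun z hz => (hgz z (mem_filter.mp hz).1).le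
      omega
    refine (pow_dvd_pow _ (hT1 k0)).trans ?_
    rw [← Finset.mul_prod_erase _ _ (mem_univ k0), pow_add]
    refine mul_dvd_mul ?_ ?_
    · rw [← h4 k0, hk0]
      have h8 := htop k0 (by
        have := hGk k0
        rw [hk0] at this
        exact (hG k0 _ _ (fun x _ _ => hsz x) _).mp this)
      have h9 : (fun x : {x : P // x ∉ R ∧ cp x = k0} =>
          (R.filter (fun z => z ⋖ (x : P))).sup g) = fun _ => 0 := funext fun x => hsz x
      rw [h9]
      exact h8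
    · rw [← Finset.prod_pow_eq_pow_sum]
      refine Finset.prod_dvd_prod_of_dvd _ _ fun k hk => ?_
      rw [← h4 k, hMz k (Finset.ne_of_mem_erase hk)]
      have h9 : (fun x : {x : P // x ∉ R ∧ cp x = k} =>
          (R.filter (fun z => z ⋖ (x : P))).sup g) = fun _ => 0 := funext fun x => hsz x
      rw [h9]
      exact hzero k
  · push Not at hex
    refine (pow_dvd_pow _ hT).trans ?_
    rw [← Finset.prod_pow_eq_pow_sum]
    refine Finset.prod_dvd_prod_of_dvd _ _ fun k _ => ?_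
    have hMn : M k < n := by
      have h5 : M k ≤ n := by
        rw [hn]
        exact le_trans (Finset.single_le_sum (fun _ _ => Nat.zero_le _) (mem_univ k))
          (Nat.le_add_left _ _)
      exact lt_of_le_of_ne h5 (hex k)
    have h3 := hfac k (fun x => (R.filter (fun z => z ⋖ x)).sup g) (M k) hMn (hGk k)
    rw [← h4]
    exact h3

/-- the factor of energy `0` -/
lemma dvd_ZB_zero {Q : Type u} [Fintype Q] [PartialOrder Q] [DecidableEq Q] (i : ℕ) {b : ℕ}
    (hb : b ≤ (lv Q i).card) : (1 + X : ℤ[X]) ^ b ∣ ZB (P := Q) i ∅ 0 (fun _ => 0) 0 := by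
  classical
  have h1 : ZB (P := Q) i ∅ 0 (fun _ => 0) 0 = Z Q i 0 := by
    rw [Z_eq_sum, Finset.sum_comm]
    unfold ZB
    refine Finset.sum_congr rfl fun F _ => ?_
    rw [← Finset.sum_filter]
    refine Finset.sum_congr ?_ (fun _ _ => rfl)
    ext e
    rw [mem_filter, mem_filter]
    refine and_congr_right fun _ => ?_
    unfold Cst
    constructor
    · exact fun h => h.1
    · exact fun h => ⟨h, fun x hx => absurd hx (Finset.notMem_empty x),
        fun x _ hx => by simpa using h.2.1 x hx⟩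
  rw [h1, Z_zero]
  exact dvd_mul_of_dvd_right (pow_dvd_pow _ hb) _

end Pool.Agent.GaussPoset

end

/-! From `Pool.Agent.W_448s7_h27.EwX` -/

section

/-!
Window `4`: divisibility of the sums with graded defects at the cost of the twins, of order one
less (MP_448cb3_co, S7).
-/

namespace Pool.Agent.GaussPoset.Ec

set_option linter.unusedSectionVars false

open Polynomial Finset Sm Wd Cp W4 Cl

universe u

variable {P : Type u} [Fintype P] [PartialOrder P] [DecidableEq P] {r j : ℕ}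
  {lo hi : Tops P → ℕ → ℕ} {e : Tops P → ℕ → ℕ → P} {N : Tops P → Finset P}
  {θ3 θ4 : Tops P → P → ℕ} {Nf : Tops P → Finset P} {θf : Tops P → (ℕ → ℕ → ℕ) → P → ℕ}
  {D : Tops P → Prop} {K3 K' V3 : ℕ} {b : Tops P → ℕ}

/-- the row of a component on a level -/
lemma card_row (K : Ctx P r j lo hi e) {i : ℕ} (hi' : i ≤ j) (t : Tops P) :
    ((lv P i).filter (fun x => topOf x = t)).card = hi t i - lo t i + 1 := by
  classical
  have H := K.gt.H
  have C := K.comp t
  have h1 : (lv P i).filter (fun x => topOf x = t) = (Icc (lo t i) (hi t i)).image (e t i) := by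
    ext x
    rw [mem_filter, mem_lv, mem_image]
    constructor
    · rintro ⟨h1, h2⟩
      have hxt : x ≤ (t : P) := by rw [← h2]; exact le_topOf x
      obtain ⟨s, h3, h4, h5⟩ := C.surj x hxt (by omega)
      rw [h1] at h3 h4 h5
      exact ⟨s, mem_Icc.mpr ⟨h3, h4⟩, h5⟩
    · rintro ⟨s, hs, rfl⟩
      rw [mem_Icc] at hs
      have hl := C.lev_e i s hi' hs.1 hs.2
      refine ⟨hl, ?_⟩
      exact Subtype.ext (top_eq H K.gt.good (by omega) (topOf _).2 t.2 (le_topOf _)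
        (C.le_t i s hi' hs.1 hs.2))
  have h2 := C.lo_le i hi'
  rw [h1, Finset.card_image_of_injOn, Nat.card_Icc]
  · omega
  · intro s hs s' hs' h
    rw [Finset.mem_coe, mem_Icc] at hs hs'
    exact C.inj i s s' hi' hs.1 hs.2 hs'.1 hs'.2 h

/-- the row of a part -/
lemma card_row_part (K : Ctx P r j lo hi e) {i : ℕ} (hi' : i ≤ j) {R : Finset P}
    (hR : ∀ x y, x ≤ y → y ∈ R → x ∈ R) (hRl : ∀ x ∈ R, i < lev x)
    (hcp : ∀ x y : P, x ≤ y → x ∉ R → topOf x = topOf y) (t : Tops P) :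
    (lv {x : P // x ∉ R ∧ topOf x = t} i).card = hi t i - lo t i + 1 := by
  classical
  have hup := pg_part_up (k := t) hR hcp
  rw [← card_row K hi' t]
  unfold lv
  rw [Finset.filter_filter, ← Finset.card_map (Function.Embedding.subtype _)]
  congr 1
  ext x
  rw [mem_map, mem_filter]
  constructor
  · rintro ⟨y, hy, rfl⟩
    rw [mem_filter, lev_subtype (p := fun x => x ∉ R ∧ topOf x = t) hup] at hy
    exact ⟨mem_univ _, hy.2, y.2.2⟩
  · rintro ⟨-, h1, h2⟩
    refine ⟨⟨x, fun h => by have := hRl x h; omega, h2⟩, ?_, rfl⟩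
    rw [mem_filter, lev_subtype (p := fun x => x ∉ R ∧ topOf x = t) hup]
    exact ⟨mem_univ _, h1⟩

/-- **Divisibility with graded defects, up to the cost of the twins.** -/
theorem Fs.graded_top (K : Ctx P r j lo hi e) (h12 : 12 ≤ j) (Y : Y4 r j K3 K' V3 N b θ3 θ4)
    (F : Fs P j lo hi e N θ4 Nf θf D) {tb : ℕ → ℕ → ℕ} (htb : TbOK tb) {n : ℕ} (hn1 : 1 ≤ n)
    {good : Tops P → (P → ℕ) → ℕ → Prop}
    (hloc : ∀ t ∈ ED D, ∀ B B' : P → ℕ, (∀ x ∈ Nf t, B x = B' x) → ∀ m, good t B m → good t B' m)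
    (hcap : ∀ t ∈ ED D, ∀ B m, good t B m → ∀ x ∈ Nf t, B x ≤ θf t tb x)
    (hgood : ∀ t ∈ ED D, ∀ B m, m ≤ n → good t B m → (∀ x ∈ Nf t, B x ≤ θf t E7t4 x) ∨
      (1 + X : ℤ[X]) ^ (hi t 4 - lo t 4 + 1) ∣
        ZB (P := {x : P // x ∈ Nf t}) 4 ∅ 0 (fun x => B x) m)
    (htw : ∀ x ∈ twA N, n ≤ tcst 4 (thA N θ4) (twT N x, x))
    (hdr : ∀ x ∈ twA N, tcst 4 (thA N θ4) (twT N x, x) = n →
      nab 4 x ≤ nab (4 + (thA N θ4 (twT N x) + 1)) x + 1)
    {S : Finset (Tops P)} (hS : S ⊆ ED D) (hS1 : S.card ≤ 1) :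
    (1 + X : ℤ[X]) ^ ((lv P 4).card - 1) ∣
      ZQ 4 n (fun e' _ => Ew.Ok (rA N) (thA N θ4) e' ∧ El.KG (ED D) Nf good e' ⊆ S) := by
  classical
  have W := F.ew K h12 Y
  have WL := F.el K h12 Y htb
  -- the allowed configurations
  have h1 : ZQ 4 n (fun e' (_ : Finset P) => Ew.Ok (rA N) (thA N θ4) e' ∧
      El.KG (ED D) Nf good e' ⊆ S) =
      ZQ 4 n (fun e' F' => (∀ z ∈ Ew.RS (ED D) Nf N (twA N) S, z ∉ F') ∧
        ∀ k, El.GS (ED D) Nf N (fun t => θf t tb) θ4 (twA N) (twT N) good S k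
          (fun x => (by classical exact
            ((Ew.RS (ED D) Nf N (twA N) S).filter (fun z => z ⋖ x)).sup e'))
          (∑ x ∈ univ.filter (fun x => x ∉ Ew.RS (ED D) Nf N (twA N) S ∧ topOf x = k), e' x)) := by
    refine ZQ_congr fun e' F' hV _ => ?_
    have h2 := WL.allowed_iff hS hloc hcap hV
    rw [F.RS_eq, F.thS_eq] at h2
    rw [← h2]
    unfold El.Allowed
    refine and_congr Iff.rfl (forall_congr' fun k => ?_)
    refine iff_of_eq ?_
    congr 1
  rw [h1]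
  have hsum : (lv P 4).card - S.card =
      ∑ t, Ew.bS (fun t => hi t 4 - lo t 4 + 1) S t := by
    have h2 := W.sum_bS hS
    have h3 := F.sum
    omega
  have hth : ∀ x : P, ¬ (topOf x ∈ ED D ∧ topOf x ∉ S) →
      Ew.thS (ED D) (fun t => θf t tb) θ4 (twA N) (twT N) S x =
      Ew.thS (ED D) (fun t => θf t E7t4) θ4 (twA N) (twT N) S x := by
    have key : ∀ y : P, ¬ (topOf y ∈ ED D ∧ topOf y ∉ S) →
        Ew.tS (fun t => θf t tb) θ4 S (topOf y) y =
        Ew.tS (fun t => θf t E7t4) θ4 S (topOf y) y := by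
      intro y hy
      by_cases hyS : topOf y ∈ S
      · rw [Ew.tS_of hyS, Ew.tS_of hyS]
      · rw [Ew.tS_not hyS, Ew.tS_not hyS]
        have hyD : topOf y ∉ ED D := fun h => hy ⟨h, hyS⟩
        have h5 := ((F.typ (topOf y)).eq (fun h' => hyD (mem_ED.mpr h'))).2
        show θf (topOf y) tb y = θf (topOf y) E7t4 y
        rw [h5 tb, h5 E7t4]
    intro x hx
    unfold Ew.thS
    by_cases hxY : x ∈ Ew.YS (ED D) (twA N) S
    · rw [thX_of hxY, thX_of hxY]
      refine key _ ?_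
      rw [(W.twS hS).cp x hxY]
      exact hx
    · rw [thX_not hxY, thX_not hxY]
      exact key _ hx
  have hthE : Ew.thS (ED D) (fun t => θf t E7t4) θ4 (twA N) (twT N) (ED D) = thA N θ4 :=
    F.thS_eq E7t4
  have hcost : ∀ x ∈ twA N, n ≤ tcst 4
      (Ew.thS (ED D) (fun t => θf t E7t4) θ4 (twA N) (twT N) (ED D)) (twT N x, x) := by
    intro x hx
    rw [hthE]
    exact htw x hx
  have hdr' : ∀ x ∈ twA N, tcst 4
      (Ew.thS (ED D) (fun t => θf t E7t4) θ4 (twA N) (twT N) (ED D)) (twT N x, x) = n →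
      nab 4 x ≤ nab (4 + (Ew.thS (ED D) (fun t => θf t E7t4) θ4 (twA N) (twT N) (ED D)
        (twT N x) + 1)) x + 1 := by
    intro x hx
    rw [hthE]
    exact hdr x hx
  have hcp := (W.twS hS).cp' (W.natSysS hS).cp
  have hrow : ∀ t : Tops P, (lv {x : P // x ∉ Ew.RS (ED D) Nf N (twA N) S ∧ topOf x = t} 4).card =
      hi t 4 - lo t 4 + 1 := fun t =>
    card_row_part K (by omega) (W.lower_RS hS) (W.lev_RS hS) hcp t
  refine pg_top (ι := Tops P) hn1 (W.lower_RS hS) (W.lev_RS hS) topOf hcp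
    (Ew.bS (fun t => hi t 4 - lo t 4 + 1) S) (fun t => hi t 4 - lo t 4 + 1 - 1)
    (fun t => hi t 4 - lo t 4 + 1) _ _ ?_ ?_ ?_ ?_ ?_ ?_
  · -- locality
    have hone : ∀ k, ∀ B B' : P → ℕ, (∀ x, x ∉ Ew.RS (ED D) Nf N (twA N) S → topOf x = k →
        B x = B' x) → ∀ m, El.GS (ED D) Nf N (fun t => θf t tb) θ4 (twA N) (twT N) good S k B m →
        El.GS (ED D) Nf N (fun t => θf t tb) θ4 (twA N) (twT N) good S k B' m := by
      intro k B B' hBB m hG
      refine ⟨fun hk => ?_, fun hk x hx hxk => ?_⟩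
      · refine hloc k hk.1 B B' (fun x hx => ?_) m (hG.1 hk)
        have h4 := (WL.part_iff hS hk.1 hk.2).mpr hx
        exact hBB x h4.1 h4.2
      · rw [← hBB x hx hxk]
        exact hG.2 hk x hx hxk
    intro k B B' hBB m
    exact ⟨hone k B B' hBB m, hone k B' B (fun x hx hk => (hBB x hx hk).symm) m⟩
  · -- the factors
    intro k B m hm hG
    by_cases hk : k ∈ ED D ∧ k ∉ S
    · rcases hgood k hk.1 B m hm.le (hG.1 hk) with h | h
      · refine W.factor hS n hcost k B (fun x hx hxk => ?_) m hm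
        have hxN := (WL.part_iff hS hk.1 hk.2).mp ⟨hx, hxk⟩
        have hxY : x ∉ Ew.YS (ED D) (twA N) S := by
          intro h'
          rcases (Ew.mem_YS.mp h').2 with h' | h'
          · exact h' (hxk ▸ hk.1)
          · exact hk.2 (hxk ▸ h')
        have h4 : Ew.thS (ED D) (fun t => θf t E7t4) θ4 (twA N) (twT N) S x = θf k E7t4 x := by
          unfold Ew.thS
          rw [thX_not hxY, hxk, Ew.tS_not hk.2]
        rw [h4]
        exact h x hxN
      · have hb : Ew.bS (fun t => hi t 4 - lo t 4 + 1) S k = hi k 4 - lo k 4 + 1 := if_neg hk.2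
        have h5 := gh_ZB_congr (P := P) (q := fun x => x ∈ Nf k)
          (fun x => WL.part_iff hS hk.1 hk.2) 4 B m
        rw [hb]
        exact h.trans (dvd_of_eq h5.symm)
    · refine W.factor hS n hcost k B (fun x hx hxk => ?_) m hm
      rw [← hth x (by rw [hxk]; exact hk)]
      exact hG.2 hk x hx hxk
  · -- the exceptional component
    intro k _
    exact W.factor_top hS n hcost hdr' k (by rw [hrow]; omega) (fun _ => 0)
      (fun _ _ _ => Nat.zero_le _) n le_rfl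
  · intro k
    exact dvd_ZB_zero 4 (by rw [hrow])
  · rw [← hsum]
    omega
  · intro k0
    have h3 := F.sum
    have h4 := Finset.add_sum_erase (univ : Finset (Tops P)) (fun t => hi t 4 - lo t 4 + 1)
      (mem_univ k0)
    omega

end Pool.Agent.GaussPoset.Ec

end

/-! From `Pool.Agent.W_448s7_h27.EwY` -/

section

/-!
Window `4`: elimination with own elements of drop one (MP_448cb3_co, S7).
-/

namespace Pool.Agent.GaussPoset.Ec

set_option linter.unusedSectionVars false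

open Polynomial Finset Sm Wd Cp W4 Cl

universe u

variable {P : Type u} [Fintype P] [PartialOrder P] [DecidableEq P] {r j : ℕ}
  {lo hi : Tops P → ℕ → ℕ} {e : Tops P → ℕ → ℕ → P} {N : Tops P → Finset P}
  {θ3 θ4 : Tops P → P → ℕ} {Nf : Tops P → Finset P} {θf : Tops P → (ℕ → ℕ → ℕ) → P → ℕ}
  {D : Tops P → Prop} {K3 K' V3 : ℕ} {b : Tops P → ℕ}

/-- the elements of the boundary and the twins at the energy `n`: nothing is cheaper, the twins of
cost `n` have drop at most one, and the elements of the boundary of cost `n` are straight joins,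
fold joins with the label `j - 5`, or own elements of drop at most one -/
structure OwnN (j n : ℕ) (N : Tops P → Finset P) (θ3 θ4 : Tops P → P → ℕ) : Prop where
  bd : ∀ z ∈ bdR (rA N), n ≤ cst 4 (hA N θ4) z
  tw : ∀ x ∈ twA N, n ≤ tcst 4 (thA N θ4) (twT N x, x)
  dr : ∀ x ∈ twA N, tcst 4 (thA N θ4) (twT N x, x) = n →
    nab 4 x ≤ nab (4 + (thA N θ4 (twT N x) + 1)) x + 1
  eq : ∀ z ∈ bdR (rA N), cst 4 (hA N θ4) z = n → SJn N θ3 θ4 z ∨
    ((∃ x x', FJn j z x x') ∧ hA N θ4 z = j - 5) ∨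
    (¬ Hul.Jn z ∧ nab 4 z ≤ nab (4 + hA N θ4 z) z + 1)

section Class

variable {n : ℕ}

lemma OwnN.fold_mem (O : OwnN j n N θ3 θ4) (F : Fs P j lo hi e N θ4 Nf θf D)
    (K : Ctx P r j lo hi e) (h12 : 12 ≤ j) (Y : Y4 r j K3 K' V3 N b θ3 θ4)
    {z x x' : P} (h : FJn j z x x') (hn : cst 4 (fun _ => j - 5) z = n) :
    z ∈ bdR (rA N) ∧ cst 4 (hA N θ4) z = n ∧ hA N θ4 z = j - 5 := by
  obtain ⟨h1, h2⟩ := F.fold_lab K h12 Y h
  have h3 : cst 4 (hA N θ4) z ≤ n := by
    rw [← hn]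
    exact cst_mono_lab h2
  have h4 := le_antisymm h3 (O.bd z h1)
  refine ⟨h1, h4, ?_⟩
  rcases O.eq z h1 h4 with h5 | h5 | h5
  · exfalso
    have h6 := h5.2.2.1
    have h7 := cst_lt_ful (z := z) (k := j - 5) (by have := h.2.1; omega)
    omega
  · exact h5.2
  · exact absurd h.1.jn h5.1

lemma OwnN.full_mem (O : OwnN j n N θ3 θ4) (Y : Y4 r j K3 K' V3 N b θ3 θ4) (h12 : 12 ≤ j)
    {z x x' : P} (h : Cg z x x') (hn : ful 4 z = n) :
    z ∈ bdR (rA N) ∧ cst 4 (hA N θ4) z = n ∧ hA N θ4 z = lev z - 4 := by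
  have hpos := rA_pos Y.W
  have hzR := join_mem_rA Y.W h.jn
  obtain ⟨z', hz', hle, -⟩ := exists_bd_above hpos hzR
  have hlz : j + 1 ≤ lev z := by
    by_contra hcon
    exact Y.W.gt.no_join z (by omega) h.jn
  have hzz : z = z' := by
    by_contra hne
    have e1 := ful_lt (w := 4) (lt_of_le_of_ne hle hne) (by omega)
    have e2 := O.bd z' hz'
    have e3 := cst_le_ful 4 (hA N θ4) z'
    omega
  subst hzz
  have hc : cst 4 (hA N θ4) z = n := le_antisymm (by rw [← hn]; exact cst_le_ful _ _ _)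
    (O.bd z hz')
  refine ⟨hz', hc, ?_⟩
  rcases O.eq z hz' hc with h5 | ⟨⟨y, y', h5⟩, h6⟩ | h5
  · exact h5.2.1
  · exfalso
    have h7 : cst 4 (hA N θ4) z = cst 4 (fun _ => j - 5) z := by
      unfold cst ez
      rw [h6]
    have h8 := cst_lt_ful (z := z) (k := j - 5) (by omega)
    omega
  · exact absurd h.jn h5.1

/-- **The class of the largest drop at window `4`**, with own elements of drop one. -/
theorem OwnN.class_par (O : OwnN j n N θ3 θ4) (F : Fs P j lo hi e N θ4 Nf θf D)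
    (K : Ctx P r j lo hi e) (h12 : 12 ≤ j) (Y : Y4 r j K3 K' V3 N b θ3 θ4) {p : ℕ}
    (hgen : ∀ c0 : ℕ, c0 + 1 < (lv P 4).card →
      (∀ z ∈ bdR (rA N), cst 4 (hA N θ4) z = n →
        c0 + nab 4 z ≤ (lv P 4).card + nab (4 + hA N θ4 z) z) →
      ∑ z ∈ (bdR (rA N)).filter (fun z => cst 4 (hA N θ4) z = n ∧
        c0 + nab 4 z = (lv P 4).card + nab (4 + hA N θ4 z) z),
        (-1 : ℤ) ^ (nst 4 (hA N θ4) z) = 0)
    (hp1 : ∀ z x x' : P, Cg z x x' → ful 4 z = n → 3 ≤ nab 4 z →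
      nst 4 (fun z => lev z - 4) z % 2 = p)
    (hp2 : ∀ z x x' : P, FJn j z x x' → cst 4 (fun _ => j - 5) z = n →
      2 + nab (j - 1) z ≤ nab 4 z → nst 4 (fun _ => j - 5) z % 2 = p) :
    (∀ z x x' : P, Cg z x x' → ful 4 z = n → nab 4 z ≤ 2) ∧
    (∀ z x x' : P, FJn j z x x' → cst 4 (fun _ => j - 5) z = n →
      nab 4 z ≤ 1 + nab (j - 1) z) := by
  classical
  -- the members of the classes of drop greater than one
  have key : ∀ z ∈ bdR (rA N), cst 4 (hA N θ4) z = n →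
      nab 4 z ≤ 1 + nab (4 + hA N θ4 z) z := by
    by_contra hcon
    push Not at hcon
    obtain ⟨z0, g1, g2, g3⟩ := hcon
    let M : Finset P := (bdR (rA N)).filter (fun z => cst 4 (hA N θ4) z = n)
    have hM : M.Nonempty := ⟨z0, mem_filter.mpr ⟨g1, g2⟩⟩
    obtain ⟨z1, hz1, hmax⟩ := M.exists_max_image (fun z => nab 4 z - nab (4 + hA N θ4 z) z) hM
    have hz1' := mem_filter.mp hz1
    have h2 := hmax z0 (mem_filter.mpr ⟨g1, g2⟩)
    have hL := nab_le_card (P := P) 4 z1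
    obtain ⟨c0, hc0⟩ : ∃ c0, c0 + (nab 4 z1 - nab (4 + hA N θ4 z1) z1) = (lv P 4).card :=
      ⟨(lv P 4).card - (nab 4 z1 - nab (4 + hA N θ4 z1) z1), by omega⟩
    have h3 := hgen c0 (by omega) (fun z hz hc => by
      have h4 := hmax z (mem_filter.mpr ⟨hz, hc⟩)
      omega)
    have hpar : ∀ z ∈ (bdR (rA N)).filter (fun z => cst 4 (hA N θ4) z = n ∧
        c0 + nab 4 z = (lv P 4).card + nab (4 + hA N θ4 z) z),
        (-1 : ℤ) ^ (nst 4 (hA N θ4) z) = (-1) ^ p := by
      intro z hz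
      rw [mem_filter] at hz
      obtain ⟨a1, a2, a3⟩ := hz
      have a4 : nst 4 (hA N θ4) z % 2 = p := by
        rcases O.eq z a1 a2 with a5 | ⟨⟨x, x', a5⟩, a6⟩ | a5
        · obtain ⟨b1, b2, b3, x, x', b4⟩ := a5
          have h4 := Y.W.bd_lev a1
          rw [b2, show 4 + (lev z - 4) = lev z by omega, nab_self] at a3
          rw [nst_congr (h := hA N θ4) (h' := fun z => lev z - 4) b2]
          exact hp1 z x x' b4 (by rw [← b3]; exact a2) (by omega)
        · rw [a6, show 4 + (j - 5) = j - 1 by omega] at a3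
          rw [nst_congr (h := hA N θ4) (h' := fun _ => j - 5) a6]
          refine hp2 z x x' a5 ?_ (by omega)
          rw [← a2]
          unfold cst ez
          rw [a6]
        · have := a5.2
          omega
      rw [← Nat.div_add_mod (nst 4 (hA N θ4) z) 2, a4, pow_add, pow_mul]
      norm_num
    rw [Finset.sum_congr rfl hpar, Finset.sum_const, nsmul_eq_mul] at h3
    have h5 : (0 : ℤ) < (((bdR (rA N)).filter (fun z => cst 4 (hA N θ4) z = n ∧
        c0 + nab 4 z = (lv P 4).card + nab (4 + hA N θ4 z) z)).card : ℤ) := by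
      have h6 : 0 < ((bdR (rA N)).filter (fun z => cst 4 (hA N θ4) z = n ∧
          c0 + nab 4 z = (lv P 4).card + nab (4 + hA N θ4 z) z)).card :=
        Finset.card_pos.mpr ⟨z1, mem_filter.mpr ⟨hz1'.1, hz1'.2, by omega⟩⟩
      exact_mod_cast h6
    rcases mul_eq_zero.mp h3 with h6 | h6
    · omega
    · exact absurd h6 (pow_ne_zero _ (by norm_num))
  refine ⟨fun z x x' h hn => ?_, fun z x x' h hn => ?_⟩
  · obtain ⟨a1, a2, a3⟩ := O.full_mem Y h12 h hn
    have h4 := Y.W.bd_lev a1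
    have h5 := key z a1 a2
    rw [a3, show 4 + (lev z - 4) = lev z by omega, nab_self] at h5
    exact h5
  · obtain ⟨a1, a2, a3⟩ := O.fold_mem F K h12 Y h hn
    have h5 := key z a1 a2
    rw [a3, show 4 + (j - 5) = j - 1 by omega] at h5
    exact h5

end Class

/-- **Elimination at window `4`**, with own elements of drop one. -/
theorem Fs.killN (F : Fs P j lo hi e N θ4 Nf θf D) (K : Ctx P r j lo hi e) (h12 : 12 ≤ j)
    (Y : Y4 r j K3 K' V3 N b θ3 θ4) {n : ℕ} (O : OwnN j n N θ3 θ4) (hFo : HnF P j n)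
    {good : Tops P → (P → ℕ) → ℕ → Prop} (hdv : HDv P n 1 N θ4 Nf D good)
    (hK : ∀ e' F', Vd 4 e' F' → ∑ x, e' x = n → Ew.Ok (rA N) (thA N θ4) e' →
      (El.KG (ED D) Nf good e').card ≤ 1) {p : ℕ}
    (hp : ∀ z x x' : P, Cg z x x' → ful 4 z = n → 3 ≤ nab 4 z →
      nst 4 (fun z => lev z - 4) z % 2 = p) :
    ∀ z x x' : P, Cg z x x' → ful 4 z = n → nab 4 z ≤ 2 :=
  (O.class_par F K h12 Y (p := p)
    (fun _ hc hle => F.gsum_gen K h12 Y hdv O.tw O.bd hK hc hle)
    hp (fun z x x' h hc _ => absurd hc (hFo z x x' h))).1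

/-- divisibility at the cost of the twins -/
theorem Fs.hdv_top (F : Fs P j lo hi e N θ4 Nf θf D) (K : Ctx P r j lo hi e) (h12 : 12 ≤ j)
    (Y : Y4 r j K3 K' V3 N b θ3 θ4) {tb : ℕ → ℕ → ℕ} (htb : TbOK tb) {n : ℕ} (hn1 : 1 ≤ n)
    {good : Tops P → (P → ℕ) → ℕ → Prop}
    (hloc : ∀ t ∈ ED D, ∀ β β' : P → ℕ, (∀ x ∈ Nf t, β x = β' x) → ∀ m, good t β m → good t β' m)
    (hcap : ∀ t ∈ ED D, ∀ β m, good t β m → ∀ x ∈ Nf t, β x ≤ θf t tb x)
    (hgood : ∀ t ∈ ED D, ∀ β m, m ≤ n → good t β m → (∀ x ∈ Nf t, β x ≤ θf t E7t4 x) ∨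
      (1 + X : ℤ[X]) ^ (hi t 4 - lo t 4 + 1) ∣
        ZB (P := {x : P // x ∈ Nf t}) 4 ∅ 0 (fun x => β x) m)
    (O : OwnN j n N θ3 θ4) : HDv P n 1 N θ4 Nf D good := fun _ hS hd =>
  F.graded_top K h12 Y htb hn1 hloc hcap hgood O.tw O.dr hS hd

/-- **Divisibility with the graded labels `Gd`**, at the cost of the twins. -/
theorem Fs.hdv_Gd_top (F : Fs P j lo hi e N θ4 Nf θf D) (K : Ctx P r j lo hi e) (h12 : 12 ≤ j)
    (Y : Y4 r j K3 K' V3 N b θ3 θ4) {tb : ℕ → ℕ → ℕ} {n p1 M : ℕ} (hn1 : 1 ≤ n)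
    (htb : TbOK tb) (hm : ∀ k s, k ≤ j → E7t4 k s ≤ tb k s)
    {c : ℕ} (hc : ∀ k s, k ≤ j → tb k s ≤ c) (hbf : HBF P j lo hi e c p1 M)
    (O : OwnN j n N θ3 θ4) :
    HDv P n 1 N θ4 Nf D (Gd j p1 M lo hi e Nf θf tb) := by
  refine F.hdv_top K h12 Y htb hn1 (fun t _ β β' h m hg => Gd.loc t β β' h m hg) ?_ ?_ O
  · intro t ht β m hg
    rcases hg with h1 | ⟨h1, h2, h3, h4⟩
    · exact F.cap (mem_ED.mp ht) hm h1
    · exact h2
  · intro t ht β m hmn hg
    rcases hg with h1 | ⟨h1, h2, h3, h4⟩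
    · exact Or.inl h1
    · right
      obtain ⟨k1, k2, k3, k4⟩ := F.word K (mem_ED.mp ht) h1
      rw [k3]
      refine ZB_part k1 β m (hbf t h1 _ (fun x => ?_) (fun x hx => ?_) m h4)
      · have := h2 x (by rw [k1]; exact x.2)
        rw [k2] at this
        exact this.trans (thC_le hc x.2)
      · exact h3 x (by rw [k1]; exact x.2) hx

/-- **Elimination at window `4`, `j = 15`**, with own elements of drop one. -/
theorem Fs.killN15 (F : Fs P 15 lo hi e N θ4 Nf θf D) (K : Ctx P r 15 lo hi e)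
    (Y : Y4 r 15 K3 K' V3 N b θ3 θ4) {n : ℕ} (hn1 : 1 ≤ n) (O : OwnN 15 n N θ3 θ4)
    (hE : n ≤ 214 ∨ (n ≤ 221 ∧ ¬ ∃ z, E2 15 lo hi e N Nf D z)) {p : ℕ}
    (hp : ∀ z x x' : P, Cg z x x' → ful 4 z = n → 3 ≤ nab 4 z →
      nst 4 (fun z => lev z - 4) z % 2 = p) :
    ∀ z x x' : P, Cg z x x' → ful 4 z = n → nab 4 z ≤ 2 := by
  obtain ⟨k1, k2, k3⟩ := cw15
  have H := K.gt.H
  have hg : ∀ l, l < 15 → Win.Good P l := fun l hl => K.gt.good l (by omega)
  obtain ⟨h1, h2, h3⟩ := tbj_ok (j := 15) (by omega)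
  have hNF : Sm.NF P 15 := nf_odd (by norm_num)
  exact F.killN K (by norm_num) Y O (hnF_nf hNF)
    (F.hdv_Gd_top K (by omega) Y hn1 h1 h2 h3
      (fun t hw B hB h5 m hm => bf15 hw (K.comp t) H hg t.2 hB h5 (by omega)) O)
    (fun e' F' hV hs hok => F.card_le_one K (by norm_num) Y row5_15 (cS := 121) de_15 k2
      (Or.inl rfl) k3 (by omega) (by omega) (by omega) (by
        rcases hE with h | h
        · exact Or.inr ⟨by omega, Or.inl (by omega)⟩
        · exact Or.inl h.2)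
      hV hs hok) hp

end Pool.Agent.GaussPoset.Ec

end

/-! From `Pool.Agent.W_448s7_h27.PhJ15` -/

section

/-!
S7 for `j = 15`: the windows `0, …, 4` (MP_448cb3_co).
-/

namespace Pool.Agent.GaussPoset.Sm

set_option linter.unusedSectionVars false

open Finset Wd Ec W4

universe u

variable {P : Type u} [Fintype P] [PartialOrder P] [DecidableEq P] {r : ℕ}

/-- ends -/
def Ef15 : List (ℕ × ℕ × ℕ × ℕ) :=
    [(0, 0, 0, 0), (1, 2, 1, 0), (1, 3, 0, 0), (1, 4, 0, 0), (1, 5, 0, 0), (1, 6, 0, 0),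
     (1, 7, 0, 0), (3, 9, 1, 0), (5, 20, 1, 0), (5, 25, 0, 0), (10, 70, 0, 1)]

/-- sides, one level deeper -/
def Sf15a : List (ℕ × ℕ × ℕ × ℕ) :=
    [(0, 0, 0, 0), (0, 0, 1, 0), (1, 1, 0, 0), (1, 1, 1, 0), (1, 2, 0, 0), (1, 3, 0, 0),
     (1, 4, 0, 0), (1, 5, 0, 0), (1, 6, 0, 0), (1, 7, 0, 0), (2, 3, 1, 0), (3, 6, 0, 0),
     (3, 6, 1, 0), (3, 9, 0, 0), (4, 7, 1, 0), (4, 10, 1, 0), (5, 12, 1, 0), (5, 15, 0, 0),
     (5, 15, 1, 0), (5, 20, 0, 0), (5, 25, 0, 0), (6, 13, 1, 0), (6, 16, 1, 0), (6, 21, 1, 0),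
     (7, 23, 1, 0), (7, 28, 1, 0), (8, 24, 1, 0), (8, 31, 0, 0), (8, 31, 1, 0), (9, 33, 0, 0),
     (10, 34, 1, 0), (10, 70, 0, 1)]

/-- sides, two or more levels deeper -/
def Sf15b : List (ℕ × ℕ × ℕ × ℕ) :=
    [(0, 0, 0, 0), (0, 0, 1, 0), (1, 1, 0, 0), (1, 1, 1, 0), (1, 1, 2, 0), (1, 2, 0, 0),
     (1, 3, 0, 0), (1, 4, 0, 0), (1, 5, 0, 0), (1, 6, 0, 0), (1, 7, 0, 0), (2, 3, 0, 0),
     (2, 3, 1, 0), (2, 3, 2, 0), (3, 6, 0, 0), (3, 6, 1, 0), (3, 9, 0, 0), (4, 7, 1, 0),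
     (4, 7, 2, 0), (4, 7, 3, 0), (4, 10, 0, 0), (4, 10, 1, 0), (4, 10, 2, 0), (5, 12, 0, 0),
     (5, 12, 1, 0), (5, 15, 0, 0), (5, 15, 1, 0), (5, 20, 0, 0), (5, 25, 0, 0), (6, 13, 1, 0),
     (6, 13, 2, 0), (6, 13, 3, 0), (6, 16, 1, 0), (6, 16, 2, 0), (6, 21, 0, 0), (6, 21, 1, 0),
     (7, 23, 0, 0), (7, 23, 1, 0), (7, 28, 0, 0), (7, 28, 1, 0), (8, 24, 1, 0), (8, 24, 2, 0),
     (8, 24, 3, 0), (8, 31, 0, 0), (8, 31, 1, 0), (9, 33, 0, 0), (10, 34, 1, 0),
     (10, 34, 2, 0), (10, 70, 0, 1), (11, 35, 1, 0), (11, 35, 2, 0), (11, 35, 3, 0),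
     (11, 35, 4, 0)]

lemma chkEf15 : ChkE4 15 Ef15 := by decide +kernel

lemma chkSf15a : ChkT4 15 Sf15a := by decide +kernel

lemma chkSf15b : ChkS4 15 Sf15b := by decide +kernel

/-- caps -/
def cf15 (w : ℕ) : ℤ :=
  if w = 3 then 84 else if w = 4 then 75 else cr15 w

/-- even noise -/
def nef15 (w : ℕ) (V : ℤ) : Bool :=
  if w = 3 then (nz ((15 + 1 - 3 : ℕ) : ℤ) V || ([76, 77] : List ℤ).elem V) else ner15 w V

/-- odd noise -/
def nof15 (w : ℕ) (V : ℤ) : Bool :=
  if w = 3 then ([73, 74, 78, 79] : List ℤ).elem V else nor15 w V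

/-- caps as a list -/
def cfl15 : List (ℕ × ℕ) := [(15, 122), (14, 104), (13, 87), (12, 84), (11, 75)]

lemma capf15 : CapL 15 4 cf15 cfl15 := by decide +kernel

/-- lines with `g + 300`, two elements above on the level `4` -/
def tAf15 : List (List ℕ) :=
  [[300], [293, 294, 295, 296, 297, 298], [286, 287, 288, 289, 290, 291, 292, 293, 294, 295,
   296, 303], [291, 296, 297, 298, 299, 300, 301, 302, 303], [284, 285, 286, 287, 288, 289, 290,
   291, 292, 293, 294, 295, 296, 297, 298, 299, 300, 301, 302, 303, 308], [275, 280, 294, 295,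
   296, 297, 298, 299, 300, 301, 302, 303, 304, 305, 306, 307, 308, 309], [268, 269, 270, 271,
   272, 273, 274, 275, 276, 277, 278, 282, 287, 288, 289, 290, 291, 292, 293, 294, 295, 296,
   297, 298, 299, 300, 301, 302, 303, 304, 305, 306, 307, 308, 309, 310, 315], [278, 283, 288,
   290, 291, 292, 293, 294, 295, 296, 297, 298, 299, 300, 301, 302, 303, 304, 305, 306, 307,
   308, 309, 310, 311, 312, 313, 314, 315, 316, 317], [266, 271, 272, 273, 274, 275, 276, 277,
   278, 279, 280, 281, 282, 283, 284, 285, 286, 287, 288, 289, 290, 291, 292, 293, 294, 295,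
   296, 297, 298, 299, 300, 301, 302], [277, 281, 282, 283, 284, 285, 286, 287], [250, 255, 260,
   269, 272], [], [], [], [], []]

/-- lines with `g + 300`, at least three elements above on the level `4` -/
def tBf15 : List (List ℕ) :=
  [[], [], [], [], [], [], [], [], [], [], [230], [223, 224, 225, 226, 227, 228], [233], [221,
   226, 227, 228, 229, 230, 231, 232], [], [205, 210]]

/-- lines -/
def LA15 : List (List ℤ) :=
  [[0], [-7, -6, -5, -4, -3, -2], [-14, -13, -12, -11, -10, -9, -8, -7, -6, -5, -4, 3], [-9, -4,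
   -3, -2, -1, 0, 1, 2, 3], [-16, -15, -14, -13, -12, -11, -10, -9, -8, -7, -6, -5, -4, -3, -2,
   -1, 0, 1, 2, 3, 8], [-25, -20, -6, -5, -4, -3, -2, -1, 0, 1, 2, 3, 4, 5, 6, 7, 8, 9], [-32,
   -31, -30, -29, -28, -27, -26, -25, -24, -23, -22, -18, -13, -12, -11, -10, -9, -8, -7, -6,
   -5, -4, -3, -2, -1, 0, 1, 2, 3, 4, 5, 6, 7, 8, 9, 10, 15], [-22, -17, -12, -10, -9, -8, -7,
   -6, -5, -4, -3, -2, -1, 0, 1, 2, 3, 4, 5, 6, 7, 8, 9, 10, 11, 12, 13, 14, 15, 16, 17], [-34,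
   -29, -28, -27, -26, -25, -24, -23, -22, -21, -20, -19, -18, -17, -16, -15, -14, -13, -12,
   -11, -10, -9, -8, -7, -6, -5, -4, -3, -2, -1, 0, 1, 2], [-23, -19, -18, -17, -16, -15, -14,
   -13], [-50, -45, -40, -31, -28], [], [], [], [], []]

/-- lines -/
def LB15 : List (List ℤ) :=
  [[], [], [], [], [], [], [], [], [], [], [-70], [-77, -76, -75, -74, -73, -72], [-67], [-79,
   -74, -73, -72, -71, -70, -69, -68], [], [-95, -90]]

lemma LA15_eq : LA15 = tabI tAf15 := by decide +kernel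

lemma LB15_eq : LB15 = tabI tBf15 := by decide +kernel

lemma ff15a : fst1F cfl15 tAf15 tBf15 Sf15a = true := by decide +kernel

lemma ff15b : fst2F cfl15 tAf15 tBf15 Sf15b = true := by decide +kernel

theorem tabf15 : TabF 15 4 cf15 LA15 LB15 Ef15 Sf15a Sf15b XN := by
  refine ⟨by norm_num, by norm_num, chkEf15, chkSf15a, chkSf15b, ?_, ?_, ?_, ?_, ?_, ?_, ?_, ?_⟩
  · decide +kernel
  · decide +kernel
  · decide +kernel
  · decide +kernel
  · decide +kernel
  · rw [LA15_eq, LB15_eq]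
    exact chk1F_of capf15 ff15a
  · rw [LA15_eq, LB15_eq]
    exact chk2F_of (by norm_num) capf15 ff15b
  · decide +kernel

/-- one round of the windows `0, …, 3` -/
def rd15 (XL u : List ℤ) : List ℤ :=
  rnds (aX LA15 LB15 XL ((15 : ℕ) : ℤ)) nof15 nef15 cf15 (odds LA15.length) (evens LA15.length)
    ((15 : ℕ) : ℤ) 250 4 24 u

lemma sw15_1 : rd15 [] ((List.range 4).map fun w => min (lwr15 w) (cf15 w + 1)) = [105, 98, 88, 77] := by
  decide +kernel

lemma sw15_2 : rd15 [64] [105, 98, 88, 77] = [105, 98, 88, 82] := by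
  decide +kernel

lemma sw15_3 : rd15 [69, 64] [105, 98, 88, 82] = [111, 103, 88, 85] := by
  decide +kernel

lemma nm_15_63 : Nm 15 (12 ^ 2 + 63) (13 ^ 2 + 76) := by
  constructor <;> decide +kernel

lemma rest15 : restF 15 Ef15 XN [111, 103, 88, 85] [75, 74, 73, 72, 70, 69, 64] = [((10, 70, 0), (10, 70, 0))] := by
  decide +kernel

/-- the own elements at the window `4` at the energy `208`, if the least raised cost at the window
`3` is at least `13 ^ 2 + 77` -/
def Q15 (P : Type u) [Fintype P] [PartialOrder P] [DecidableEq P] (N : Tops P → Finset P)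
    (θ3 θ4 : Tops P → P → ℕ) (V : ℕ) : Prop :=
  13 ^ 2 + 77 ≤ V → (∀ z x x' : P, Cg z x x' → 12 ^ 2 + 64 ≤ ful 4 z) →
    OwnN 15 (12 ^ 2 + 64) N θ3 θ4

section

variable {lo hi : Tops P → ℕ → ℕ} {e : Tops P → ℕ → ℕ → P}

/-- **S7 for `j = 15`**: there is no join of level `16`, if the window `3` balances up to `84`
with the own noise `73, 74, 78, 79` (odd), `76, 77` (even). -/
theorem noj15 (K : Ctx P r 15 lo hi e)
    (hW : W3Q P r 15 lo hi 84 (nof15 3) (nef15 3) 0 (13 ^ 2 + 76) (Q15 P))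
    {z x x' : P} (h : Cg z x x') (hl : lev z = 16) : False := by
  classical
  have hNF : NF P 15 := nf_odd (by norm_num)
  have hN := noP_XN (P := P) 15
  have T := tabf15
  have hJ : ∃ z : P, Hul.Jn z := ⟨z, h.jn⟩
  obtain ⟨N, θ3, θ4, Nf, θf, D, S, F⟩ := exists_fs K (by norm_num)
  obtain ⟨K3, v, v', V, M, q1, q2, W, hB, hV3, q3⟩ := W3Q.bals (cap := cf15) (nO := nof15)
    (nE := nef15) (lb := lwr15) hW S hJ
    (fun w hw => by
      have h0 := balr15 K hNF.noFo hJ w hw.le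
      have : w = 0 ∨ w = 1 ∨ w = 2 := by omega
      rcases this with rfl | rfl | rfl <;> exact h0)
  have sw : ∀ XL u u' : List ℤ, rd15 XL u = u' → StF P 15 V u XL → StF P 15 V u' XL :=
    fun XL u u' he s => he ▸ K.sweepF hN T hB s 250 24
  have cf : ¬ (15 % 2 = 0) := by norm_num
  have s0 := StF.start hB
  have s1 : StF P 15 V [105, 98, 88, 77] [] := sw _ _ _ sw15_1 s0
  have Y1 : Y4 r 15 K3 (12 ^ 2 + 63) (13 ^ 2 + 76) N _ θ3 θ4 :=
    y4_of S W M (s1.v3R hV3 q1 q2 (Or.inl (by norm_num)) (Or.inl (by norm_num))) nm_15_63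
  have hQ := q3 (s1.v3V hV3 (by norm_num))
  have s2 : StF P 15 V [105, 98, 88, 77] [64] :=
    K.stepF hN T hB s1 (T0 := 64) (p := 1) (hNF.foB _) (by decide +kernel) (by decide +kernel)
      (by decide +kernel) (by decide +kernel) (fun h => absurd h cf)
      (fun hj hp => F.killN15 K Y1 (by norm_num) (hQ hj) (Or.inl (by norm_num)) hp)
  have s3 : StF P 15 V [105, 98, 88, 82] [64] := sw _ _ _ sw15_2 s2
  have Y2 : Y4 r 15 K3 (12 ^ 2 + 71) (13 ^ 2 + 78) N _ θ3 θ4 :=
    y4_of S W M (s3.v3R hV3 q1 q2 (Or.inl (by norm_num)) (Or.inr (by norm_num))) nm_15_71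
  have s4 : StF P 15 V [105, 98, 88, 82] [69, 64] :=
    K.stepF hN T hB s3 (T0 := 69) (p := 1) (hNF.foB _) (by decide +kernel) (by decide +kernel)
      (by decide +kernel) (by decide +kernel) (fun h => absurd h cf)
      (fun hj hp => F.kill15 K Y2 hNF (by norm_num) (Or.inl (by norm_num)) hj hp)
  have s5 : StF P 15 V [111, 103, 88, 85] [69, 64] := sw _ _ _ sw15_3 s4
  have s6 : StF P 15 V [111, 103, 88, 85] [70, 69, 64] :=
    K.stepF hN T hB s5 (T0 := 70) (p := 1) (hNF.foB _) (by decide +kernel) (by decide +kernel)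
      (by decide +kernel) (by decide +kernel) (fun h => absurd h cf)
      (fun hj hp => F.kill15 K Y2 hNF (by norm_num) (Or.inl (by norm_num)) hj hp)
  have hj216 : ∀ z x x' : P, Cg z x x' → 216 ≤ ful 4 z :=
    K.costF hN T hB s6 (T0 := 72) (hNF.foB _) (by decide +kernel) (by decide +kernel)
      (by decide +kernel) (fun h => absurd h cf)
  have hE2 := F.no_E2_15 K Y2 hNF (by norm_num) hj216
  have Y3 : Y4 r 15 K3 (12 ^ 2 + 75) (13 ^ 2 + 81) N _ θ3 θ4 :=
    y4_of S W M (s6.v3R hV3 q1 q2 (Or.inl (by norm_num)) (Or.inr (by norm_num))) nm_15_75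
  have s7 : StF P 15 V [111, 103, 88, 85] [72, 70, 69, 64] :=
    K.stepF hN T hB s6 (T0 := 72) (p := 1) (hNF.foB _) (by decide +kernel) (by decide +kernel)
      (by decide +kernel) (by decide +kernel) (fun h => absurd h cf)
      (fun hj hp => F.kill15 K Y3 hNF (by norm_num) (Or.inr ⟨by norm_num, hE2⟩) hj hp)
  have s8 : StF P 15 V [111, 103, 88, 85] [73, 72, 70, 69, 64] :=
    K.stepF hN T hB s7 (T0 := 73) (p := 1) (hNF.foB _) (by decide +kernel) (by decide +kernel)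
      (by decide +kernel) (by decide +kernel) (fun h => absurd h cf)
      (fun hj hp => F.kill15 K Y3 hNF (by norm_num) (Or.inr ⟨by norm_num, hE2⟩) hj hp)
  have s9 : StF P 15 V [111, 103, 88, 85] [74, 73, 72, 70, 69, 64] :=
    K.stepF hN T hB s8 (T0 := 74) (p := 1) (hNF.foB _) (by decide +kernel) (by decide +kernel)
      (by decide +kernel) (by decide +kernel) (fun h => absurd h cf)
      (fun hj hp => F.kill15 K Y3 hNF (by norm_num) (Or.inr ⟨by norm_num, hE2⟩) hj hp)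
  have s10 : StF P 15 V [111, 103, 88, 85] [75, 74, 73, 72, 70, 69, 64] :=
    K.stepF hN T hB s9 (T0 := 75) (p := 1) (hNF.foB _) (by decide +kernel) (by decide +kernel)
      (by decide +kernel) (by decide +kernel) (fun h => absurd h cf)
      (fun hj hp => F.kill15 K Y3 hNF (by norm_num) (Or.inr ⟨by norm_num, hE2⟩) hj hp)
  obtain ⟨s, s', g1, g2, g3⟩ := K.leftS hN T hB s10 h hl (hNF.sok K.gt.H h hl)
    (hNF.sok K.gt.H h.symm hl)
  rw [rest15, List.mem_singleton, Prod.mk.injEq] at g1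
  obtain ⟨rfl, rfl⟩ := g1
  exact hE2 ⟨z, K.e2_of F row5_15 chkW15 (by norm_num) (by decide +kernel) h hl g2 g3⟩

end

end Pool.Agent.GaussPoset.Sm

end

/-! From `Pool.Agent.W_448s7_h27.PhK` -/

section

/-!
S7 for `j = 15, 16` (MP_448cb3_co): final forms.
-/

namespace Pool.Agent.GaussPoset.Sm

set_option linter.unusedSectionVars false

open Finset Wd Ec W4

universe u

variable {P : Type u} [Fintype P] [PartialOrder P] [DecidableEq P] {r j w : ℕ}

/-- more noise, smaller caps -/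
lemma WinB.mono {cp cp' : ℤ} {nO nE nO' nE' : ℤ → Bool} {lb lb' V : ℤ}
    (h : WinB P j w cp nO nE lb V) (hc : cp' ≤ cp) (hO : ∀ v ≤ cp', nO v = true → nO' v = true)
    (hE : ∀ v ≤ cp', nE v = true → nE' v = true) (hl : lb' ≤ lb) :
    WinB P j w cp' nO' nE' lb' V where
  lo := fun hV => hl.trans (h.lo (hV.trans hc))
  mn := h.mn
  od := fun hV => (h.od (hV.trans hc)).imp id (hO V hV)
  ev := fun hV => (h.ev (hV.trans hc)).imp id (hE V hV)

variable {lo hi : Tops P → ℕ → ℕ} {e : Tops P → ℕ → ℕ → P}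

/-- **S7 for `j = 15`** -/
theorem no_join15 (K : Ctx P r 15 lo hi e)
    (hW : W3Q P r 15 lo hi 84 (nof15 3) (nef15 3) 0 (13 ^ 2 + 76) (Q15 P))
    {z : P} (hl : lev z = 16) : ¬ Hul.Jn z := by
  intro hz
  obtain ⟨x, x', h⟩ := K.cross hz hl
  exact noj15 K hW h hl

end Pool.Agent.GaussPoset.Sm

end

/-! From `Pool.Agent.W_448f4_h70.IG` -/

section

/-!
# The windows `2`, `3` for `j = 11, 13` (MP_448cb3_co, S7)
-/

namespace Pool.Agent.GaussPoset.Sm

set_option linter.unusedSectionVars false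

open Finset Wd W4

universe u

variable {P : Type u} [Fintype P] [PartialOrder P] [DecidableEq P] {r j w : ℕ}
  {lo hi : Tops P → ℕ → ℕ} {e : Tops P → ℕ → ℕ → P}

lemma noPT_of {r j : ℕ} (H : Win.GoodTo P r j) (hj : 2 ≤ j) : NoPT P j :=
  fun _ _ hne hl hup h1 h2 => no_pend_tw H hj hne hl hup h1 h2

lemma okv_e {K y n u : ℕ} {LE LO : List ℤ} (h1 : n % 2 = 0) (h2 : ((u : ℤ) - (y : ℤ) ^ 2) ∈ LE) :
    Okv K (XL y LE) (XL y LO) n u := Or.inr (Or.inl ⟨Nat.even_iff.mpr h1, h2⟩)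

lemma okv_o {K y n u : ℕ} {LE LO : List ℤ} (h1 : n % 2 = 1) (h2 : ((u : ℤ) - (y : ℤ) ^ 2) ∈ LO) :
    Okv K (XL y LE) (XL y LO) n u := Or.inr (Or.inr ⟨Nat.odd_iff.mpr h1, h2⟩)

/-- no hooks -/
lemma hkT_nil {N : Tops P → Finset P} {b : Tops P → ℕ} {θ : Tops P → P → ℕ} {K y : ℕ} :
    HkT P j w K N b θ (XL y []) where
  br := fun _ _ _ _ _ _ _ h => absurd h (by simp [XL])
  bo := fun _ _ _ _ _ h => absurd h (by simp [XL])
  bt := fun _ _ _ _ _ _ h => absurd h (by simp [XL])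

/-- window `3` for `j = 11`, with flips -/
theorem winT3_11 (K : Ctx P r 11 lo hi e) (hJ : ∃ z : P, Hul.Jn z) :
    ∃ V, WinB P 11 3 40 (fun V => ([24, 36, 37] : List ℤ).elem V)
      (fun V => nz ((11 + 1 - 3 : ℕ) : ℤ) V || ([17, 34, 35] : List ℤ).elem V) 0 V := by
  obtain ⟨V, h⟩ := K.winT (nf_odd (by norm_num)).noFo (by norm_num) (by norm_num)
    (Or.inr ⟨rfl, by norm_num⟩) (c0 := 15) (cT := 40) (LE := [17, 34, 35]) (LO := [24, 36, 37])
    (BL := []) (lb := 0)
    chkEr11 (by decide +kernel) (by decide +kernel) (by decide +kernel) (by decide +kernel)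
    (by norm_num) (fun N b θ W => W.cellsF (by norm_num)
      (numF_11_3.mono (fun _ h => h) (fun v h => List.mem_cons_of_mem _ h)) (noPT_of K.gt (by norm_num)))
    (fun _ _ _ _ _ => hkT_nil)
    { hfl := fun _ => Or.inr (okv_o (by decide +kernel) (by decide +kernel))
      hcc := fun h => absurd h (by norm_num)
      hFo := fun h => absurd h (by norm_num)
      hfv := fun h => absurd h (by norm_num) }
    (by norm_num) (by norm_num) le_rfl (by decide) (by decide) hJ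
  exact ⟨V, h.mono le_rfl (fun v _ h => h) (fun v _ h => by simpa using h) le_rfl⟩

/-- window `2` for `j = 13`, with flips -/
theorem winT2_13 (K : Ctx P r 13 lo hi e) (hJ : ∃ z : P, Hul.Jn z) :
    ∃ V, WinB P 13 2 70 (fun V => ([64, 65, 66] : List ℤ).elem V)
      (fun V => nz ((13 + 1 - 2 : ℕ) : ℤ) V || ([68, 49] : List ℤ).elem V) 0 V := by
  obtain ⟨V, h⟩ := K.winT (nf_odd (by norm_num)).noFo (by norm_num) (by norm_num)
    (Or.inl rfl) (c0 := 47) (cT := 70) (LE := [68, 49]) (LO := [64, 65, 66])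
    (BL := []) (lb := 0)
    chkEr13 (by decide +kernel) (by decide +kernel) (by decide +kernel) (by decide +kernel)
    (by norm_num) (fun N b θ W => W.cellsF le_rfl
      (numF_13_2.mono (fun v h => List.mem_cons_of_mem _ h) (fun _ h => h)) (noPT_of K.gt (by norm_num)))
    (fun _ _ _ _ _ => hkT_nil)
    { hfl := fun _ => Or.inr (okv_e (by decide +kernel) (by decide +kernel))
      hcc := fun h => absurd h (by norm_num)
      hFo := fun h => absurd h (by norm_num)
      hfv := fun h => absurd h (by norm_num) }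
    (by norm_num) (by norm_num) le_rfl (by decide) (by decide) hJ
  exact ⟨V, h.mono le_rfl (fun v _ h => h) (fun v _ h => by simpa using h) le_rfl⟩

end Pool.Agent.GaussPoset.Sm

end

/-! From `Pool.Agent.W_448f4_h70.GY` -/

section

/-!
# The own noise at window `4` from the least raised cost at window `3`; `j = 15`
(MP_448cb3_co, S7)
-/

namespace Pool.Agent.GaussPoset.Sm

set_option linter.unusedSectionVars false

open Polynomial Finset W4 Cp Ec

universe u

variable {P : Type u} [Fintype P] [PartialOrder P] [DecidableEq P] {r j w K0 : ℕ}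
  {N : Tops P → Finset P} {b : Tops P → ℕ} {θ θ3 θ4 : Tops P → P → ℕ}

/-- own noise from the windows `3`, `4`, with exceptional twins -/
theorem own_of5 {K3 K V3 : ℕ} (Y : Y5 r j K3 K V3 N b θ3 θ4) (hno : HnO P j K)
    {n : ℕ} (hn : n ≤ K) (hjn : ∀ z x x' : P, Cg z x x' → n ≤ ful 4 z) :
    OwnN j n N θ3 θ4 := by
  obtain ⟨h1, h2, h3⟩ := Y.own_noise hno hn hjn
  refine ⟨h1, fun x hx => ?_, fun x hx h => ?_, fun z hz hc => ?_⟩
  · rcases h2 x hx with h | h
    · exact h.le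
    · exact h.1
  · rcases h2 x hx with h' | h'
    · omega
    · exact h'.2
  · exact Or.inl ⟨(h3 z hz hc).1, (h3 z hz hc).2.1, by
      rw [hc]; exact (h3 z hz hc).2.2.1, (h3 z hz hc).2.2.2⟩

/-- **own noise at window `4`** from the least raised cost `V` at window `3`; the special twins,
if there are any, cost `stC 4 (j + 1) 2 - 1` at the window `4` -/
theorem own_mnS {lo hi : Tops P → ℕ → ℕ} {K3 K V3 V n : ℕ}
    (S : Sy P j lo hi N θ3 θ4) (W : Wk r j 3 K3 N (fun t => hi t 3 - lo t 3 + 1) θ3)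
    (hcc : ∀ z, ¬ CEl j 3 N θ3 z) (hno : HnO P j K)
    (MS : MnS j 3 N (fun t => hi t 3 - lo t 3 + 1) θ3 V) (hV : V3 ≤ V)
    (hV3 : V3 ≤ stC 3 (j + 1) 2) (hs : K < stC 4 (j + 1) 2) (nm : Nm j K V3) (hn : n ≤ K)
    (hjn : ∀ z x x' : P, Cg z x x' → n ≤ ful 4 z) : OwnN j n N θ3 θ4 := by
  have Y : Y5 r j K3 K V3 N (fun t => hi t 3 - lo t 3 + 1) θ3 θ4 :=
    { W := W
      typ := S.typ
      m3 := fun z hz => by
        have := W.bd_of_mnS hcc MS hz
        omega
      m3' := fun x hx => by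
        by_cases hsp : Spc j 3 N (fun t => hi t 3 - lo t 3 + 1) θ3 (twT N x)
        · right
          obtain ⟨Nc, co, C⟩ := hsp
          have hj := nm.hj
          have hl := C.lev (by omega)
          have hth := C.th
          refine ⟨fun h => ?_, fun _ => ⟨?_, ?_⟩⟩
          · have := h.th
            omega
          · rw [hl, cst_stair (w := 4) (L := j + 1) (h := j + 1 - 4 - 1) C.nat.chart C.mem hl
              (by omega), C.co_eq]
            unfold stC at hs
            exact hs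
          · have h1 := C.nab (by omega) (k := 4) (by omega)
            have h2 := C.nab (by omega) (k := j) (by omega)
            rw [hl, Nat.add_sub_cancel]
            omega
        · left
          have h1 := MS.tw x hx
          unfold tcS at h1
          rw [if_neg hsp] at h1
          omega
      n := nm }
  exact own_of5 Y hno hn hjn

variable {lo hi : Tops P → ℕ → ℕ} {e : Tops P → ℕ → ℕ → P}

/-- **the window `3` for `j = 15`** -/
theorem Ctx.w3q15 (K : Ctx P r 15 lo hi e) :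
    W3Q P r 15 lo hi 84 (nof15 3) (nef15 3) 0 (13 ^ 2 + 76) (Q15 P) := by
  intro N θ3 θ4 S hJ
  obtain ⟨V, M, W, h⟩ := K.winSyN (by norm_num) S (c0 := 72) (cT := 84)
    (LE := [76, 77]) (LO := [73, 74, 78, 79]) (lb := 0)
    chkEr15 (by decide +kernel) (by decide +kernel) (by decide +kernel) (by decide +kernel)
    (by norm_num) (fun N b θ W => W.cellsS (by norm_num) numS_15_3)
    { hfl := fun _ => Or.inl (by decide +kernel)
      hcc := fun h => absurd h (by norm_num)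
      hFo := fun h => absurd h (by norm_num)
      hfv := fun h => absurd h (by norm_num) }
    (by norm_num) (by norm_num) le_rfl (by decide) (by decide) hJ
  have hcc : ∀ z, ¬ CEl 15 3 N θ3 z := fun z hz => by
    have := (W.cel_nab (by omega) hz).2.1
    omega
  obtain ⟨v, M', hex⟩ := exists_minK W (bdR_nonempty W hJ)
  obtain ⟨h1, h2⟩ := W.mn_of_mnS hcc M hex
  have e1 : stC 3 (15 + 1) 2 = 13 ^ 2 + 77 := by decide +kernel
  rw [e1] at h1 h2
  refine ⟨_, v, V, M', h1, h2, W, ?_, ?_⟩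
  · exact h.mono le_rfl (fun v _ h => h) (fun v _ h => h) le_rfl
  · intro hV hj
    exact own_mnS S W hcc (hnO_odd (by norm_num)) M hV (by rw [e1]) (by decide +kernel)
      nm_15_64 le_rfl hj

/-- **S7 for `j = 15`** -/
theorem Ctx.no_join15 (K : Ctx P r 15 lo hi e) {z : P} (hl : lev z = 16) : ¬ Hul.Jn z :=
  Sm.no_join15 K K.w3q15 hl

end Pool.Agent.GaussPoset.Sm

end
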