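import Mathlib
import Pool.Agent.W_448zz_h61.Ns
import Pool.Agent.W_448zz_h61.M138
import Pool.Agent.W_448zz_h61.M208
import Pool.Agent.W_448zz_h61.M210

/-! From `Pool.Agent.W_448s7s_h5.StA` -/

section

/-!
Level `11`: the fine natural system at window `4` (MP_448cb3_co, S7).
-/

namespace Pool.Agent.GaussPoset.Ec

set_option linter.unusedSectionVars false

open Polynomial Finset Sm Wd Cp W4 Cl

universe u

variable {P : Type u} [Fintype P] [PartialOrder P] [DecidableEq P] {r j : ℕ}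

section Exists

variable {t : Tops P} {lo hi : ℕ → ℕ} {e : ℕ → ℕ → P}

/-- every component of level `j ≥ 11` has a fine system at window `4` -/
theorem exists_fine (h : Win.GoodTo P r j) (hj : 11 ≤ j)
    (C : Comp j (t : P) lo hi e) (S : Shape j lo hi) :
    ∃ N θ4 Nf θf, ∃ d : Prop, FineY j t lo hi e N θ4 (hi 4 - lo 4 + 1) Nf θf d := by
  have H := h.H
  have hg := h.good
  have hlo := C.lo_le 3 (by omega)
  have hlo4 := C.lo_le 4 (by omega)
  have h5 : ∀ x, x ≤ (t : P) → lev x ≤ j → x ∈ onlyB t := by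
    intro x hx hxi
    rw [mem_onlyB]
    intro s hs hxs
    exact top_eq H hg hxi hs t.2 hxs hx
  have hls : lo 4 = lo 3 ∨ lo 4 = lo 3 + 1 := C.lo_step 3 (by omega)
  have hhs : hi 4 = hi 3 ∨ hi 4 = hi 3 + 1 := C.hi_step 3 (by omega)
  have hii : hi 3 ≤ 3 := C.hi_le (by omega)
  have hii4 : hi 4 ≤ 4 := C.hi_le (by omega)
  have hlight : lo 3 = hi 3 → lo 4 = hi 4 →
      ∃ N θ4 Nf θf, ∃ d : Prop, FineY j t lo hi e N θ4 (hi 4 - lo 4 + 1) Nf θf d := by
    intro e1 e2
    rw [e2, Nat.sub_self]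
    exact ⟨_, _, _, _, False, FineY.light rfl rfl rfl rfl rfl (fun h => h) h5⟩
  have hstair : ∀ {lo' hi' : ℕ → ℕ} {e' : ℕ → ℕ → P}, Comp j (t : P) lo' hi' e' →
      StairShape j lo' hi' → hi' 3 - lo' 3 = hi 3 - lo 3 → hi' 4 - lo' 4 = hi 4 - lo 4 →
      ∃ N θ4 Nf θf, ∃ d : Prop, FineY j t lo hi e N θ4 (hi 4 - lo 4 + 1) Nf θf d := by
    intro lo' hi' e' C' hT q3 q4
    have h2 : hi' 3 = 3 / 2 := hT.hi 3 (by omega)
    have h2' : hi' 4 = 4 / 2 := hT.hi 4 (by omega)
    have hls' : lo' 4 = lo' 3 ∨ lo' 4 = lo' 3 + 1 := C'.lo_step 3 (by omega)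
    have h0 : lo' 4 = 0 := by
      by_contra hcon
      have e1 := shape_lo C' hT.lo (l := 4) (by omega) 4 (by omega)
      have e2 := hT.hi (4 + 4) (by omega)
      have e3 := C'.lo_le (4 + 4) (by omega)
      omega
    obtain ⟨N, co, h1, -⟩ := exists_stair C' H hg H.gradedBelow hT (i := 4) (by omega)
    have hb4 : hi 4 - lo 4 + 1 = 3 := by omega
    exact ⟨_, _, _, _, True, FineY.stair N co h1 rfl rfl hb4 rfl rfl trivial⟩
  rcases shape_cases C (by omega) S with hs | (hT | hT) | ⟨a, hL, h3⟩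
  · exact hlight (hs 3 (by omega)) (hs 4 (by omega))
  · have f1 : lo 4 = 0 ∨ lo 4 = lo 3 + 1 := hT.lo 3 (by omega)
    have f2 : hi 4 = 4 ∨ hi 4 = hi 3 := hT.hi 3 (by omega)
    have f3 : lo 4 = 0 ∨ hi 4 = 4 := by
      by_contra hcon
      have e1 := shape_lo C hT.lo (l := 4) (by omega) 4 (by omega)
      have e2 := shape_hi C hT.hi (l := 4) (by omega) 4 (by omega)
      have e3 := C.lo_le (4 + 4) (by omega)
      omega
    by_cases hl : lo 3 = hi 3
    · exact hlight hl (by omega)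
    · have hlt : lo 3 < hi 3 := by omega
      obtain ⟨N, co, h1, -⟩ := exists_rect C H hg H.gradedBelow hT (i := 4) (by omega) (by omega)
      exact ⟨_, _, _, _, False,
        FineY.rect _ N co h1 rfl rfl rfl rfl rfl (fun h => h) hlt⟩
  · exact hstair C hT rfl rfl
  · have h4 := hL.four (by omega)
    have e3 := hL.low 3 (by omega)
    by_cases ha : a = 4
    · subst ha
      obtain ⟨D, hj16⟩ := wordD_four (lateD_of hL (by omega)) (by omega) (by omega)
      have hb : hi 4 - lo 4 + 1 = 2 := by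
        rw [hL.at_a.1, hL.at_a.2]
      rw [hb]
      exact ⟨_, _, _, _, True, FineY.e7 D rfl rfl rfl rfl rfl trivial h5 hj16⟩
    · have e4 := hL.low 4 (by omega)
      exact hlight (by rw [e3.1, e3.2]) (by rw [e4.1, e4.2])

end Exists

/-- lower bound of the cost at window `4` -/
lemma cst4_ge {h : P → ℕ} {z : P} (f : ℕ → ℕ) (m : ℕ) (hl : 12 ≤ lev z) (hh : m ≤ h z)
    (hf : ∀ k, 5 ≤ k → k ≤ 12 → f k ≤ nab k z) :
    ∑ k ∈ range 13, min m (k - 4) * f k ≤ cst 4 h z := by
  rw [cst_eq]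
  refine le_trans ?_ (Finset.sum_le_sum_of_subset (s := range 13) ?_)
  · refine Finset.sum_le_sum fun k hk => ?_
    rw [mem_range] at hk
    rcases Nat.lt_or_ge 4 k with h1 | h1
    · exact Nat.mul_le_mul (min_le_min_right _ hh) (hf k h1 (by omega))
    · have : k - 4 = 0 := by omega
      rw [this, Nat.min_zero, Nat.zero_mul]
      exact Nat.zero_le _
  · intro k hk
    rw [mem_range] at hk ⊢
    omega

/-- two elements above a cell of a rectangle -/
lemma two_cell_rect {t : P} {N : Finset P} {co : P → ℕ × ℕ} (C : Chart t (fun _ => True) N co)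
    {x : P} (hx : x ∈ N) (h1 : 1 ≤ (co x).1) (h2 : 1 ≤ (co x).2) (hl : 11 ≤ lev x) {k : ℕ}
    (hk5 : 5 ≤ k) (hk : k ≤ 10) : 2 ≤ nab k x := by
  have h3 := C.lev x hx
  rw [nab_chart C hx k]
  have h4 := card_cellsAt_true (l := k) (p := co x) (by omega)
  omega

/-- two elements above a cell of a stair -/
lemma two_cell_stair {t : P} {N : Finset P} {co : P → ℕ × ℕ}
    (C : Chart t (fun c => c.1 ≤ c.2) N co)
    {x : P} (hx : x ∈ N) (h1 : 1 ≤ (co x).1) (hl : 11 ≤ lev x) {k : ℕ}
    (hk5 : 5 ≤ k) (hk : k ≤ 10) : 2 ≤ nab k x := by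
  have h3 := C.lev x hx
  have h5 : (co x).1 ≤ (co x).2 := C.mem x hx
  rw [nab_chart C hx k]
  have h4 := card_cellsAt_shift (l := k) (p := co x) h5 (by omega)
  omega

/-- the kinds of unnatural elements at window `4`, level `11` -/
theorem FineY.kinds {t : Tops P} {lo hi : ℕ → ℕ} {e : ℕ → ℕ → P} {N : Finset P} {θ4 : P → ℕ}
    {b : ℕ} {Nf : Tops P → Finset P} {θf : (ℕ → ℕ → ℕ) → P → ℕ} {d : Prop}
    (F : FineY j t lo hi e N θ4 b (Nf t) θf d) (HN : NatSys Nf) (H : Gr P r)
    (C : Comp j (t : P) lo hi e) (hj : 11 ≤ j)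
    {z x : P} (hz : z ∈ unnat Nf) (hx : x ∈ Nf t) (hzx : z ⋖ x) (hl : 11 ≤ lev x) :
    (3 ≤ θf E7t4 x ∧ ∀ k, 5 ≤ k → k ≤ 10 → 2 ≤ nab k z) ∨
      (WordD j 4 w7 lo hi ∧ Nf t = lowPart j (t : P) ∧ θf E7t4 = thC lo hi e E7t4) := by
  rcases F with ⟨h1, h2, h3, h4, h5, h6, h7⟩ | ⟨c, Nc, co, h0, h1, h2, h3, h4, h5, h6⟩ |
    ⟨h0, h1, h2, h3, h4, h5, h6, h7, h8⟩ | ⟨Nc, co, h0, h1, h2, h3, h4, h5, h6⟩
  · left
    subst h5 h2
    refine ⟨by simp only; omega, fun k hk hk' => ?_⟩
    obtain ⟨s, hs, hst, hzs⟩ := light_private HN (by rw [h4, h1]) hz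
    have hzt : z ≤ (t : P) := hzx.le.trans (HN.le_t t x hx)
    exact two_le_nab_join HN H.gradedBelow hx hzx.le hs hst (hzs.resolve_right (fun h => h hzt))
      (by omega)
  · left
    have hb := h0.b_le
    have hNt : Nf t = natR Nc co := by rw [h4, h1]
    subst h5 h2
    have hJ : ∀ x, (x ∈ junk (fun _ => True) Nc co ∨ x ∈ junk (fun _ => True) Nc (swp co)) ∨
        ¬ (x ∈ junk (fun _ => True) Nc co ∨ x ∈ junk (fun _ => True) Nc (swp co)) :=
      fun x => em _
    rcases hJ x with hJx | hJx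
    · refine ⟨?_, fun k hk hk' => ?_⟩
      · show 3 ≤ thR 4 c Nc co x
        unfold thR
        rw [if_pos hJx]
        omega
      · exact rect_two_le_nab H h0 hNt hz hzx.le
          (hJx.elim Or.inl (fun h => Or.inr (Or.inl h))) (by omega) (by omega)
    · have hxN : x ∈ Nc := by
        rw [hNt, mem_natR] at hx
        rcases hx with h | h
        · exact h
        · exact absurd h hJx
      have hlx := h0.chart.lev x hxN
      refine ⟨?_, fun k hk hk' => ?_⟩
      · show 3 ≤ thR 4 c Nc co x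
        unfold thR
        rw [if_neg hJx]
        omega
      · by_cases hc : (co x).1 = 0 ∨ (co x).2 = 0
        · exact rect_two_le_nab H h0 hNt hz hzx.le (Or.inr (Or.inr ⟨hxN, hc⟩)) (by omega)
            (by omega)
        · push Not at hc
          exact (two_cell_rect h0.chart hxN (by omega) (by omega) hl hk hk').trans
            (nab_mono hzx.le)
  · right
    exact ⟨h0, h4, by rw [h5]⟩
  · left
    have hNt : Nf t = natS Nc co := by rw [h4, h1]
    subst h5
    by_cases hJx : x ∈ junk (fun c => c.1 ≤ c.2) Nc co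
    · refine ⟨?_, fun k hk hk' => ?_⟩
      · show 3 ≤ thS 4 Nc co x
        unfold thS
        rw [if_pos hJx]
        omega
      · exact stair_two_le_nab H h0 hNt hz hzx.le (Or.inl hJx) (by omega) (by omega)
    · have hxN : x ∈ Nc := by
        rw [hNt, mem_natS] at hx
        exact hx.resolve_right hJx
      have hlx := h0.chart.lev x hxN
      refine ⟨?_, fun k hk hk' => ?_⟩
      · show 3 ≤ thS 4 Nc co x
        unfold thS
        rw [if_neg hJx]
        omega
      · by_cases hc : (co x).1 = 0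
        · exact stair_two_le_nab H h0 hNt hz hzx.le (Or.inr ⟨hxN, hc⟩) (by omega) (by omega)
        · exact (two_cell_stair h0.chart hxN (by omega) hl hk hk').trans (nab_mono hzx.le)

end Pool.Agent.GaussPoset.Ec

end

/-! From `Pool.Agent.W_448s7s_h5.StB` -/

section

/-!
Level `11`: no element of level `12` is below the end `(5, 25)` of the `E7` strip alone
(MP_448cb3_co, S7).
-/

namespace Pool.Agent.GaussPoset.Ec

set_option linter.unusedSectionVars false

open Polynomial Finset Sm Wd Cp W4 Cl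

universe u

variable {P : Type u} [Fintype P] [PartialOrder P] [DecidableEq P] {r j : ℕ}

lemma row11 : losW 4 w7 11 = 3 ∧ hisW 4 w7 11 = 4 := by decide +kernel

lemma nb11_3 : ∀ k < 12, 4 ≤ k → Ew.nbW 4 w7 11 3 k = if k ≤ 8 then 2 else 1 := by
  decide +kernel

lemma nb11_4 : ∀ k < 12, 4 ≤ k → Ew.nbW 4 w7 11 4 k =
    if k ≤ 7 then 2 else if k = 8 then 3 else if k ≤ 10 then 2 else 1 := by
  decide +kernel

lemma th11 : E7t4 11 3 = 4 ∧ E7t4 11 4 = 3 := by decide +kernel

/-- above a pendant there is what is above its cover -/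
lemma nab_pend11 {z x : P} (hzx : z ⋖ x) (honly : ∀ y, z ⋖ y → y = x) {k : ℕ} (hk : k < lev z) :
    nab k z = nab k x := nab_only honly hzx hk

/-- **the cheapest unnatural elements at window `4`, level `11`**: cost `40`, the pendants below
the end `(5, 25)` -/
theorem cost11 {N : Tops P → Finset P} {θf : Tops P → (ℕ → ℕ → ℕ) → P → ℕ}
    {lo hi : Tops P → ℕ → ℕ} {e : Tops P → ℕ → ℕ → P} (H : Gr P r)
    (hg : ∀ l, l < 11 → Win.Good P l) (HN : NatSys N)
    (C : ∀ t : Tops P, Comp 11 (t : P) (lo t) (hi t) (e t))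
    (hlow : ∀ t : Tops P, ∀ x, x ≤ (t : P) → lev x ≤ 11 → x ∈ N t)
    (F : ∀ t, ∃ M θ4 b d, FineY 11 t (lo t) (hi t) (e t) M θ4 b (N t) (θf t) d)
    {z : P} (hz : z ∈ bdR (unnat N)) :
    40 < cst 4 (hcan (unnat N) (fun x => θf (topOf x) E7t4 x)) z ∨
      (hcan (unnat N) (fun x => θf (topOf x) E7t4 x) z = 5 ∧ lev z = 12 ∧
        cst 4 (hcan (unnat N) (fun x => θf (topOf x) E7t4 x)) z = 40 ∧
        ∀ k, 4 ≤ k → k ≤ 11 → nab k z = if k ≤ 8 then 2 else 1) := by
  classical
  obtain ⟨x, hxR, hzx, hh⟩ := hcan_spec (θ := fun x => θf (topOf x) E7t4 x) hz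
  set h := hcan (unnat N) (fun x => θf (topOf x) E7t4 x) with hdef
  have hzR := (mem_filter.mp hz).1
  have hxN : x ∈ N (topOf x) := HN.mem_iff.mpr ⟨hxR, rfl⟩
  have hlz := (H.covBy_iff.mp hzx).2
  have hl12 : 12 ≤ lev z := by
    by_contra hcon
    exact mem_unnat.mp hzR (topOf x)
      (hlow _ z (hzx.le.trans (HN.le_t _ x hxN)) (by omega))
  obtain ⟨M, θ4, b, d, F⟩ := F (topOf x)
  rcases F.kinds HN H (C (topOf x)) le_rfl hzR hxN hzx (by omega) with ⟨h1, h2⟩ | ⟨D, h1, h2⟩
  · left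
    have h3 := cst4_ge (h := h) (z := z) (fun k => if k ≤ 10 then 2 else 1) 4 hl12
      (by rw [hh]; omega) (by
        intro k hk hk'
        split_ifs with hc
        · exact h2 k hk hc
        · exact one_le_nab (by omega))
    exact lt_of_lt_of_le (by decide +kernel) h3
  · have hlx : lev x = 11 := by
      rw [h1, mem_lowPart] at hxN
      omega
    obtain ⟨r1, r2⟩ := D.rows (C (topOf x))
    obtain ⟨s, a1, a2, a3⟩ := (C (topOf x)).surj x (le_topOf x) hlx.le
    rw [hlx] at a1 a2 a3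
    have q1 := r1 11 le_rfl
    have q2 := r2 11 le_rfl
    rw [row11.1] at q1
    rw [row11.2] at q2
    have hxo : e (topOf x) 11 s ∈ onlyB (topOf x) := by
      rw [a3, mem_onlyB]
      intro v hv hxv
      exact top_eq H hg hlx.le hv (topOf x).2 hxv (le_topOf x)
    have hnb : ∀ k, k ≤ 11 → nab k x = Ew.nbW 4 w7 11 s k := by
      intro k hk
      have := Ew.nab_word D (C (topOf x)) H hg a1 a2 hxo hk
      rwa [a3] at this
    have hth : θf (topOf x) E7t4 x = E7t4 11 s := by
      rw [h2]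
      have h9 := thC_e (C (topOf x)) E7t4 le_rfl a1 a2
      rwa [a3] at h9
    rw [hth] at hh
    have hs : s = 3 ∨ s = 4 := by omega
    rcases hs with rfl | rfl
    · rw [th11.1] at hh
      by_cases honly : ∀ y, z ⋖ y → y = x
      · right
        have hnz : ∀ k, 4 ≤ k → k ≤ 11 → nab k z = if k ≤ 8 then 2 else 1 := by
          intro k hk hk'
          rw [nab_pend11 hzx honly (by omega), hnb k (by omega), nb11_3 k (by omega) hk]
        refine ⟨hh, by omega, ?_, hnz⟩
        have h12 : nab 12 z = 1 := by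
          have := nab_self (z := z)
          rwa [show lev z = 12 by omega] at this
        rw [cst_eq, hh, show lev z = 12 by omega]
        rw [Finset.sum_range_succ, h12, ← Finset.sum_subset
          (s₁ := (range 12).filter (fun k => 4 ≤ k)) (Finset.filter_subset _ _) (by
            intro k hk hk'
            rw [mem_filter, not_and] at hk'
            have h9 := hk' hk
            have : k - 4 = 0 := by omega
            rw [this, Nat.min_zero, Nat.zero_mul])]
        rw [Finset.sum_congr rfl (g := fun k => min (4 + 1) (k - 4) * (if k ≤ 8 then 2 else 1))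
          (by
            intro k hk
            rw [mem_filter, mem_range] at hk
            rw [hnz k hk.2 (by omega)])]
        decide +kernel
      · left
        push Not at honly
        obtain ⟨y, hy, hne⟩ := honly
        have hly := (H.covBy_iff.mp hy).2
        have h3 := cst4_ge (h := h) (z := z)
          (fun k => if k ≤ 8 then 2 else if k = 11 then 2 else 1) 5 hl12 (by omega) (by
            intro k hk hk'
            split_ifs with hc hc2
            · refine le_trans ?_ (nab_mono hzx.le)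
              rw [hnb k (by omega), nb11_3 k (by omega) (by omega), if_pos hc]
            · subst hc2
              exact two_le_nab hy.le hzx.le (by omega) hlx hne
            · exact one_le_nab (by omega))
        exact lt_of_lt_of_le (by decide +kernel) h3
    · left
      rw [th11.2] at hh
      have h3 := cst4_ge (h := h) (z := z)
        (fun k => if k ≤ 7 then 2 else if k = 8 then 3 else if k ≤ 10 then 2 else 1) 4 hl12
        (by omega) (by
          intro k hk hk'
          by_cases hk12 : k = 12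
          · subst hk12
            exact one_le_nab (by omega)
          · refine le_trans (le_of_eq ?_) (nab_mono hzx.le)
            rw [hnb k (by omega), nb11_4 k (by omega) (by omega)])
      exact lt_of_lt_of_le (by decide +kernel) h3

/-- **Level `11`: nothing of level `12` is below the end `(5, 25)` alone.** -/
theorem no_b_pend11 {lo hi : Tops P → ℕ → ℕ} {e : Tops P → ℕ → ℕ → P} (K : Ctx P r 11 lo hi e)
    {t : Tops P} (D : WordD 11 4 w7 (lo t) (hi t)) {z : P} (hz : z ⋖ e t 11 3)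
    (honly : ∀ y, z ⋖ y → y = e t 11 3) : False := by
  classical
  have H := K.gt.H
  have hg := K.gt.good
  have hgr := H.gradedBelow
  choose M θ4 N θf d F using fun s => exists_fine K.gt le_rfl (K.comp s) (K.shape s)
  choose B hB using fun s => (F s).nat (K.comp s) H hg (by omega)
  have FD := farData_of_tops hgr hB
  have HN := natSys_of_tops hB
  rw [← card_level H hg K.comp (i := 4) (by omega)] at FD
  have hlow : ∀ s : Tops P, ∀ x, x ≤ (s : P) → lev x ≤ 11 → x ∈ N s := by
    intro s x hx hl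
    rcases F s with ⟨h1, h2, h3, h4, h5, h6, h7⟩ | ⟨c, Nc, co, h0, h1, h2, h3, h4, h5, h6⟩ |
      ⟨h0, h1, h2, h3, h4, h5, h6, h7, h8⟩ | ⟨Nc, co, h0, h1, h2, h3, h4, h5, h6⟩
    · rw [h4, h1]
      exact h7 x hx hl
    · rw [h4, h1, mem_natR]
      exact Or.inl (h0.strip (mem_lowPart.mpr ⟨hx, hl⟩))
    · rw [h4]
      exact mem_lowPart.mpr ⟨hx, hl⟩
    · rw [h4, h1, mem_natS]
      exact Or.inl (h0.strip (mem_lowPart.mpr ⟨hx, hl⟩))
  have key := fun {z : P} (hz : z ∈ bdR (unnat N)) => cost11 (θf := θf) H hg HN K.comp hlow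
    (fun s => ⟨_, _, _, _, F s⟩) hz
  have hdvd := dvd_Z H.gauss 4 40
  have hcard : 1 ≤ (lv P 4).card := by
    obtain ⟨x, hx, hl⟩ := hex4 (K.comp t) (by omega)
    exact Finset.card_pos.mpr ⟨x, mem_lv.mpr hl⟩
  have hsum := FD.sign_sum (n := 40) (fun z hz => by
    rcases key hz with h1 | ⟨-, -, h1, -⟩ <;> omega) hdvd (c0 := (lv P 4).card - 1) (by omega)
    (by
      intro z hz hc
      rcases key hz with h1 | ⟨h1, h2, h3, h4⟩
      · omega
      · rw [h1, h4 4 le_rfl (by omega), h4 (4 + 5) (by omega) (by omega)]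
        norm_num
        omega)
  have hone : ∀ z ∈ (bdR (unnat N)).filter (fun z =>
      cst 4 (hcan (unnat N) (fun x => θf (topOf x) E7t4 x)) z = 40 ∧
      (lv P 4).card - 1 + nab 4 z = (lv P 4).card +
        nab (4 + hcan (unnat N) (fun x => θf (topOf x) E7t4 x) z) z),
      (-1 : ℤ) ^ (nst 4 (hcan (unnat N) (fun x => θf (topOf x) E7t4 x)) z) = 1 := by
    intro z hz
    rw [mem_filter] at hz
    rcases key hz.1 with h1 | ⟨h1, h2, h3, h4⟩
    · omega
    · rw [nst_eq, h1, Finset.sum_congr rfl (g := fun _ => 2) (by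
        intro k hk
        rw [mem_range] at hk
        rw [h4 (4 + k) (by omega) (by omega), if_pos (by omega)])]
      norm_num
  rw [Finset.sum_congr rfl hone, Finset.sum_const, nsmul_eq_mul, mul_one] at hsum
  have hempty : ((bdR (unnat N)).filter (fun z =>
      cst 4 (hcan (unnat N) (fun x => θf (topOf x) E7t4 x)) z = 40 ∧
      (lv P 4).card - 1 + nab 4 z = (lv P 4).card +
        nab (4 + hcan (unnat N) (fun x => θf (topOf x) E7t4 x) z) z)) = ∅ := by
    rw [← Finset.card_eq_zero]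
    exact_mod_cast hsum
  -- the pendant is in the set
  obtain ⟨r1, r2⟩ := D.rows (K.comp t)
  have q1 := r1 11 le_rfl
  have q2 := r2 11 le_rfl
  rw [row11.1] at q1
  rw [row11.2] at q2
  have hle := (K.comp t).le_t 11 3 le_rfl (by omega) (by omega)
  have hlx := (K.comp t).lev_e 11 3 le_rfl (by omega) (by omega)
  have hlz := (H.covBy_iff.mp hz).2
  have hxN : e t 11 3 ∈ N t := hlow t _ hle (by omega)
  have hNt : N t = lowPart 11 (t : P) ∧ θf t E7t4 = thC (lo t) (hi t) (e t) E7t4 := by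
    have h3 : lo t 3 = hi t 3 := by rw [(D.trunk 3 (by omega)).1, (D.trunk 3 (by omega)).2]
    have h4 := D.row
    rcases F t with ⟨h1, h2, h3', h4', h5, h6, h7⟩ | ⟨c, Nc, co, h0, h1, h2, h3', h4', h5, h6, h7⟩ |
      ⟨h0, h1, h2, h3', h4', h5, h6, h7, h8⟩ | ⟨Nc, co, h0, h1, h2, h3', h4', h5, h6⟩
    · omega
    · omega
    · exact ⟨h4', by rw [h5]⟩
    · omega
  have hzR : z ∈ unnat N := by
    rw [mem_unnat]
    intro s hzs
    have h1 := HN.top_eq hzs t.2 (hz.le.trans hle)
    have h2 : s = t := Subtype.ext h1.symm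
    rw [h2, hNt.1, mem_lowPart] at hzs
    omega
  have hxR : e t 11 3 ∉ unnat N := fun h => mem_unnat.mp h t hxN
  have hzb : z ∈ bdR (unnat N) := mem_filter.mpr ⟨hzR, _, hxR, hz⟩
  have htop : topOf (e t 11 3) = t := HN.topOf_eq hxN
  have hh : hcan (unnat N) (fun x => θf (topOf x) E7t4 x) z = 5 := by
    obtain ⟨x, -, hzx, hx⟩ := hcan_spec (θ := fun x => θf (topOf x) E7t4 x) hzb
    rw [hx, honly x hzx, htop, hNt.2, thC_e (K.comp t) E7t4 le_rfl (by omega) (by omega),
      th11.1]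
  have hxo : e t 11 3 ∈ onlyB t := by
    rw [mem_onlyB]
    intro v hv hxv
    exact top_eq H hg hlx.le hv t.2 hxv hle
  have hnz : ∀ k, 4 ≤ k → k ≤ 11 → nab k z = if k ≤ 8 then 2 else 1 := by
    intro k hk hk'
    rw [nab_pend11 hz honly (by omega), Ew.nab_word D (K.comp t) H hg (by omega) (by omega) hxo hk',
      nb11_3 k (by omega) hk]
  have hcst : cst 4 (hcan (unnat N) (fun x => θf (topOf x) E7t4 x)) z = 40 := by
    rcases key hzb with h1 | ⟨-, -, h1, -⟩
    · exfalso
      have h12 : nab 12 z = 1 := by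
        have := nab_self (z := z)
        rwa [show lev z = 12 by omega] at this
      have h13 : cst 4 (hcan (unnat N) (fun x => θf (topOf x) E7t4 x)) z = 40 := by
        rw [cst_eq, hh, show lev z = 12 by omega]
        rw [Finset.sum_range_succ, h12, ← Finset.sum_subset
          (s₁ := (range 12).filter (fun k => 4 ≤ k)) (Finset.filter_subset _ _) (by
            intro k hk hk'
            rw [mem_filter, not_and] at hk'
            have h9 := hk' hk
            have : k - 4 = 0 := by omega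
            rw [this, Nat.min_zero, Nat.zero_mul])]
        rw [Finset.sum_congr rfl (g := fun k => min 5 (k - 4) * (if k ≤ 8 then 2 else 1))
          (by
            intro k hk
            rw [mem_filter, mem_range] at hk
            rw [hnz k hk.2 (by omega)])]
        decide +kernel
      omega
    · exact h1
  have hmem : z ∈ (bdR (unnat N)).filter (fun z =>
      cst 4 (hcan (unnat N) (fun x => θf (topOf x) E7t4 x)) z = 40 ∧
      (lv P 4).card - 1 + nab 4 z = (lv P 4).card +
        nab (4 + hcan (unnat N) (fun x => θf (topOf x) E7t4 x) z) z) := by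
    rw [mem_filter]
    refine ⟨hzb, hcst, ?_⟩
    rw [hh, hnz 4 le_rfl (by omega), hnz (4 + 5) (by omega) (by omega)]
    norm_num
    omega
  rw [hempty] at hmem
  exact absurd hmem (Finset.notMem_empty z)

end Pool.Agent.GaussPoset.Ec

namespace Pool.Agent.GaussPoset.Sm

set_option linter.unusedSectionVars false

open Finset Wd Cl

universe u

variable {P : Type u} [Fintype P] [PartialOrder P] [DecidableEq P] {r : ℕ}
  {lo hi : Tops P → ℕ → ℕ} {e : Tops P → ℕ → ℕ → P}

/-- the data `(5, 25)` of a side of level `12` belong to `E7` only -/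
lemma chkW11 : ∀ a ∈ range (11 + 1), 2 ≤ a → ∀ w ∈ wds 11 a, w.length = 11 - a →
    ∀ A ∈ (Icc (Wd.Lw w (w.length + 3)) (Hw w (w.length + 3))).powerset, A.Nonempty →
      condA 1 w A → mA w A = 5 → dA w A = 25 → A.card - 1 = 0 → a = 4 ∧ w = w7.take 7 := by
  decide +kernel

lemma mX11_4 : ∑ k ∈ range 11, ((Ew.nbW 4 w7 11 4 k : ℤ) - 1) ≠ 5 := by decide +kernel

/-- **Level `11`: no join of level `13` has a side below the end `(5, 25)` alone.** -/
theorem Ctx.noSd11 (K : Ctx P r 11 lo hi e) : NoSd P 11 (5, 25, 0) := by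
  intro z x x' h hlz hm hc hn
  simp only at hm hc hn
  have H := K.gt.H
  have hg := K.gt.good
  obtain ⟨l1, l2⟩ := h.lev_eq H
  have hlx : lev x = 12 := by omega
  have hn1 : nab 11 x = 1 := by
    have : (nab 11 x : ℤ) = 1 := by push_cast at hn; omega
    exact_mod_cast this
  obtain ⟨y, hy⟩ : ∃ y, x ⋖ y := by
    obtain ⟨y, hxy, hly⟩ := exists_above' (x := x) (j := 11) (by omega)
    have hlt : x < y := lt_of_le_of_ne hxy (by rintro rfl; omega)
    obtain ⟨w, hw, -⟩ := Hul.exists_cov hlt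
    exact ⟨w, hw⟩
  have hly : lev y = 11 := by
    have := (H.covBy_iff.mp hy).2
    omega
  have honly : ∀ w, x ⋖ w → w = y := by
    intro w hw
    by_contra hne
    have hlw := (H.covBy_iff.mp hw).2
    have := two_le_nab (l := 11) hw.le hy.le (by omega) hly hne
    omega
  have hf : ¬ Fatt 11 x := by
    intro hf
    have h1 : (8 : ℤ) ≤ mX 11 x := by
      unfold GaussPoset.mX
      have h2 : ∑ k ∈ range 11, (if 2 ≤ k ∧ k ≤ 9 then (1 : ℤ) else 0) ≤
          ∑ k ∈ range 11, ((nab k x : ℤ) - 1) := by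
        refine Finset.sum_le_sum fun k hk => ?_
        rw [mem_range] at hk
        have h3 := one_le_nab (l := k) (z := x) (by omega)
        split_ifs with hc
        · have h4 := hf.2 k hc.1 (by omega)
          omega
        · omega
      refine le_trans (le_of_eq ?_) h2
      decide +kernel
    rw [hm] at h1
    norm_num at h1
  rcases K.cases h.only (by omega) (fun h => by omega) hf with h1 | h1 | ⟨a, h1, -⟩
  · have := h1.1
    omega
  · have h2 := h1.mX.1
    rw [hm] at h2
    norm_num at h2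
  · obtain ⟨A, g1, g2, g3, g4, g5, g6, -⟩ := late_side K.gt (by omega) (K.comp _) h1.two h1.le
      h1.low h1.at_a h.only (by omega) (fun h => by omega) rfl
    obtain ⟨q1, q2⟩ := chkW11 a (mem_range.mpr (by have := h1.le; omega)) h1.two _ h1.word
      (by simp) A g1 g2 (g3 1 (by omega)) (by rw [hm] at g4; exact_mod_cast g4.symm)
      (by rw [hc] at g5; exact_mod_cast g5.symm) (by
        rw [hn1] at g6
        have : ((A.card - 1 : ℕ) : ℤ) = 0 := by rw [← g6]; norm_num
        exact_mod_cast this)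
    subst q1
    have D : WordD 11 4 w7 (lo (topOf x)) (hi (topOf x)) := ⟨h1.low, h1.at_a, q2⟩
    have hyo := onlyB_up h.only hy.le
    obtain ⟨s, a1, a2, a3⟩ := (K.comp (topOf x)).surj y (onlyB_le hyo) hly.le
    rw [hly] at a1 a2 a3
    obtain ⟨r1, r2⟩ := D.rows (K.comp (topOf x))
    have q3 := r1 11 le_rfl
    have q4 := r2 11 le_rfl
    rw [Ec.row11.1] at q3
    rw [Ec.row11.2] at q4
    have hs : s = 3 ∨ s = 4 := by omega
    rcases hs with rfl | rfl
    · subst a3
      exact Ec.no_b_pend11 K D hy honly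
    · refine mX11_4 ?_
      rw [← Nat.cast_ofNat (n := 5), ← hm]
      unfold GaussPoset.mX
      refine Finset.sum_congr rfl fun k hk => ?_
      rw [mem_range] at hk
      rw [nab_only honly hy (by omega), ← a3,
        Ew.nab_word D (K.comp (topOf x)) H hg a1 a2 (by rw [a3]; exact hyo) hk.le]

end Pool.Agent.GaussPoset.Sm

end

/-! From `Pool.Agent.W_448s7_h27.PoF` -/

section

/-!
S7 for `j = 11` (MP_448cb3_co): the final form.
-/

namespace Pool.Agent.GaussPoset.Sm

set_option linter.unusedSectionVars false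

open Polynomial Finset W4 Cp Wd

universe u

variable {P : Type u} [Fintype P] [PartialOrder P] [DecidableEq P] {r j : ℕ}
  {lo hi : Tops P → ℕ → ℕ} {e : Tops P → ℕ → ℕ → P}

/-- **S7 for `j = 11`**, from the sides `(5, 25)` -/
theorem Ctx.no_join11b (K : Ctx P r 11 lo hi e) (hX : NoSd P 11 (5, 25, 0))
    {z : P} (hl : lev z = 12) : ¬ Hul.Jn z := by
  intro hz
  obtain ⟨x, x', h⟩ := K.cross hz hl
  exact no_cg11 K hX (fun hJ => winT3_11 K hJ) h hl

/-- **S7 for `j = 11`** -/
theorem Ctx.no_join11 (K : Ctx P r 11 lo hi e) {z : P} (hl : lev z = 12) : ¬ Hul.Jn z :=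
  K.no_join11b K.noSd11 hl

end Pool.Agent.GaussPoset.Sm

end

/-! From `Pool.Agent.W_448s7s_h5.TuN` -/

section

/-!
The cheap joins at window `4`, `j = 13`, have two ancestors on the level `4`
(MP_448cb3_co, S7).
-/

namespace Pool.Agent.GaussPoset.Sm

set_option linter.unusedSectionVars false

open Finset Wd

universe u

variable {P : Type u} [Fintype P] [PartialOrder P] [DecidableEq P] {r : ℕ}
  {lo hi : Tops P → ℕ → ℕ} {e : Tops P → ℕ → ℕ → P}

/-- the costs of the joins of level at least `15` -/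
lemma ful4_ge13 (H : Gr P r) {z x x' : P} (h : Cg z x x') (hl : 15 ≤ lev z) :
    (121 : ℤ) + ∑ k ∈ range 13, ((k - 4 : ℕ) : ℤ) * ((nab k x : ℤ) - 1) ≤ ful 4 z := by
  obtain ⟨l1, l2⟩ := h.lev_eq H
  have hs : ∀ k, k < lev z → (nab k x : ℤ) + 1 ≤ nab k z := fun k hk => by
    have h1 := one_le_nab (l := k) (z := x') (by omega)
    rw [h.sum H hk]
    push_cast
    have h1' : (1 : ℤ) ≤ nab k x' := by exact_mod_cast h1
    linarith
  have h1 : ∀ k, k < lev z → (1 : ℤ) ≤ nab k x := fun k hk => by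
    have h1 := one_le_nab (l := k) (z := x) (by omega)
    exact_mod_cast h1
  obtain ⟨c, hc⟩ : ∃ c, lev z = 13 + (2 + c) := ⟨lev z - 15, by omega⟩
  have e1 : (ful 4 z : ℤ) = ∑ k ∈ range (lev z), ((k - 4 : ℕ) : ℤ) * (nab k z : ℤ) +
      ((lev z - 4 : ℕ) : ℤ) := by
    rw [ful_eq_above]
    push_cast
    rfl
  have e2 : ∑ k ∈ range (lev z), ((k - 4 : ℕ) : ℤ) * ((nab k x : ℤ) + 1) ≤
      ∑ k ∈ range (lev z), ((k - 4 : ℕ) : ℤ) * (nab k z : ℤ) := by
    refine Finset.sum_le_sum fun k hk => ?_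
    rw [mem_range] at hk
    exact mul_le_mul_of_nonneg_left (hs k hk) (Nat.cast_nonneg _)
  rw [hc, Finset.sum_range_add] at e2
  have e3 : ∑ k ∈ range 13, ((k - 4 : ℕ) : ℤ) * ((nab k x : ℤ) + 1) =
      72 + ∑ k ∈ range 13, ((k - 4 : ℕ) : ℤ) * ((nab k x : ℤ) - 1) := by
    have e4 : ∑ k ∈ range 13, ((k - 4 : ℕ) : ℤ) * ((nab k x : ℤ) + 1) =
        ∑ k ∈ range 13, (((k - 4 : ℕ) : ℤ) * 2 + ((k - 4 : ℕ) : ℤ) * ((nab k x : ℤ) - 1)) :=
      Finset.sum_congr rfl fun k _ => by ring
    rw [e4, Finset.sum_add_distrib]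
    congr 1
  have e5 : (38 : ℤ) ≤ ∑ k ∈ range (2 + c), ((13 + k - 4 : ℕ) : ℤ) * ((nab (13 + k) x : ℤ) + 1) := by
    rw [Finset.sum_range_add]
    have g1 := h1 13 (by omega)
    have g2 := h1 14 (by omega)
    have g3 : (0 : ℤ) ≤ ∑ k ∈ range c, ((13 + (2 + k) - 4 : ℕ) : ℤ) *
        ((nab (13 + (2 + k)) x : ℤ) + 1) :=
      Finset.sum_nonneg fun k _ => mul_nonneg (Nat.cast_nonneg _) (by positivity)
    have g4 : ∑ k ∈ range 2, ((13 + k - 4 : ℕ) : ℤ) * ((nab (13 + k) x : ℤ) + 1) =
        9 * ((nab 13 x : ℤ) + 1) + 10 * ((nab 14 x : ℤ) + 1) := by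
      simp [Finset.sum_range_succ]
    rw [g4]
    linarith
  have e6 : (11 : ℤ) ≤ ((lev z - 4 : ℕ) : ℤ) := by
    have : 11 ≤ lev z - 4 := by omega
    exact_mod_cast this
  rw [e1, hc]
  rw [hc] at e6
  rw [e3] at e2
  linarith

/-- the word of the late components with `a = 4` -/
lemma e7_13 : ∀ w ∈ wds 13 4, w.length = 9 →
    ∀ A ∈ (Icc (Wd.Lw w (w.length + 3)) (Wd.Hw w (w.length + 3))).powerset, A.Nonempty →
      ¬ condA 0 w A ∧ mA w A = 10 ∧ dA w A = 50 := by
  decide +kernel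

/-- the sides of the cheap joins -/
theorem Ctx.side4_13 (K : Ctx P r 13 lo hi e) {z x x' : P} (h : Cg z x x')
    (hf : ful 4 z ≤ 145) : nab 4 x = 1 := by
  have H := K.gt.H
  obtain ⟨l1, l2⟩ := h.lev_eq H
  have hl := K.lev_ge h
  have hend : lev x = 13 → (Win.uc x).card = 1 := fun hh => (K.ends h (by omega)).1
  have hf' : (ful 4 z : ℤ) ≤ 145 := by exact_mod_cast hf
  by_cases hfat : Fatt 13 x
  · exfalso
    obtain ⟨f1, f2⟩ := hfat
    have h1 := ful4_ge13 H h (by omega)
    have h2 : (28 : ℤ) ≤ ∑ k ∈ range 13, ((k - 4 : ℕ) : ℤ) * ((nab k x : ℤ) - 1) := by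
      have h3 : ∑ k ∈ range 13, ((k - 4 : ℕ) : ℤ) * (if 4 < k ∧ k ≤ 11 then 1 else 0) ≤
          ∑ k ∈ range 13, ((k - 4 : ℕ) : ℤ) * ((nab k x : ℤ) - 1) := by
        refine Finset.sum_le_sum fun k hk => ?_
        rw [mem_range] at hk
        refine mul_le_mul_of_nonneg_left ?_ (Nat.cast_nonneg _)
        split_ifs with g
        · have := f2 k (by omega) (by omega)
          have g1 : (2 : ℤ) ≤ nab k x := by exact_mod_cast this
          linarith
        · have := one_le_nab (l := k) (z := x) (by omega)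
          have g1 : (1 : ℤ) ≤ nab k x := by exact_mod_cast this
          linarith
      have h4 : ∑ k ∈ range 13, ((k - 4 : ℕ) : ℤ) * (if 4 < k ∧ k ≤ 11 then 1 else 0) = 28 := by
        decide +kernel
      rw [h4] at h3
      exact h3
    linarith
  · rcases K.cases h.only (by omega) hend hfat with h1 | h1 | ⟨a, h1, -⟩
    · have := h1.2.1
      omega
    · exact h1 4 (by omega)
    · have h4 := h1.four (by omega)
      rcases Nat.lt_or_ge 4 a with ha | ha
      · obtain ⟨e1, e2⟩ := h1.low 4 ha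
        exact nab_one_of_eq (K.comp (topOf x)) h.only (by omega) (by omega) (by rw [e1, e2])
      · exfalso
        have ha4 : a = 4 := by omega
        subst ha4
        obtain ⟨A, g1, g2, g3, g4, g5, g6, -⟩ := late_side K.gt (by omega) (K.comp (topOf x))
          h1.two h1.le h1.low h1.at_a h.only (by omega) hend rfl
        have hw := h1.word
        have hwl : (word (lo (topOf x)) (hi (topOf x)) 4 (13 - 4)).length = 9 := by
          rw [word_length]
        obtain ⟨k1, k2, k3⟩ := e7_13 _ hw hwl A g1 g2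
        rcases Nat.lt_or_ge 13 (lev x) with hx | hx
        · have h5 := ful4_ge13 H h (by omega)
          rw [k2] at g4
          rw [k3] at g5
          have h6 : (40 : ℤ) ≤ ∑ k ∈ range 13, ((k - 4 : ℕ) : ℤ) * ((nab k x : ℤ) - 1) := by
            have h7 : ∑ k ∈ range 13, (9 * ((nab k x : ℤ) - 1) -
                ((nab k x : ℤ) - 1) * (((13 : ℕ) : ℤ) - k)) ≤
                ∑ k ∈ range 13, ((k - 4 : ℕ) : ℤ) * ((nab k x : ℤ) - 1) := by
              refine Finset.sum_le_sum fun k hk => ?_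
              rw [mem_range] at hk
              have := one_le_nab (l := k) (z := x) (by omega)
              have g1 : (1 : ℤ) ≤ nab k x := by exact_mod_cast this
              have g2 : (k : ℤ) - 4 ≤ ((k - 4 : ℕ) : ℤ) := by omega
              have g3 : (9 : ℤ) * ((nab k x : ℤ) - 1) - ((nab k x : ℤ) - 1) * (((13 : ℕ) : ℤ) - k) =
                  ((k : ℤ) - 4) * ((nab k x : ℤ) - 1) := by
                push_cast
                ring
              rw [g3]
              exact mul_le_mul_of_nonneg_right g2 (by linarith)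
            rw [Finset.sum_sub_distrib, ← Finset.mul_sum] at h7
            unfold mX at g4
            unfold cX at g5
            rw [g4, g5] at h7
            push_cast at h7
            linarith
          linarith
        · exact k1 (g3 0 (by omega))

/-- **the cheap joins have two ancestors on the level `4`** -/
theorem Ctx.nab4_13 (K : Ctx P r 13 lo hi e) {z x x' : P} (h : Cg z x x')
    (hf : ful 4 z ≤ 145) : nab 4 z = 2 := by
  have hl := K.lev_ge h
  rw [h.sum K.gt.H (by omega), K.side4_13 h hf, K.side4_13 h.symm hf]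

end Pool.Agent.GaussPoset.Sm

end

/-! From `Pool.Agent.W_448s7s_h5.TuO` -/

section

/-!
No special twins at `j = 13`: window `4`, energy `145`, class `3` (MP_448cb3_co, S7).
-/

namespace Pool.Agent.GaussPoset.Ec

set_option linter.unusedSectionVars false

open Polynomial Finset Sm Wd Cp W4 Cl

universe u

variable {P : Type u} [Fintype P] [PartialOrder P] [DecidableEq P] {r : ℕ}
  {lo hi : Tops P → ℕ → ℕ} {e : Tops P → ℕ → ℕ → P} {N : Tops P → Finset P}
  {θ3 θ4 θ5 : Tops P → P → ℕ} {Nf : Tops P → Finset P} {θf : Tops P → (ℕ → ℕ → ℕ) → P → ℕ}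
  {D : Tops P → Prop} {K3 : ℕ} {b : Tops P → ℕ}

section

variable (F : Fz P 13 lo hi e N θ4 θ5 Nf θf D) (W : Wk r 13 3 K3 N b θ3)

include F W

/-- the numbers of a special twin -/
lemma Fz.spc_num {x : P} (hx : x ∈ twA N) (h : Spc 13 3 N b θ3 (twT N x)) :
    lev x = 14 ∧ nab 4 x = 3 ∧ nst 4 (fun z => lev z - 4) x = 29 := by
  obtain ⟨h0, n3, n4, n5, n6, n7, n8, n9, n10, n11, n12, n13, n14⟩ := spc13 h
  have hll := W.twSys.lev hx
  have h3 := twT_spec (mem_twA.mp hx).2
  have hlx : lev x = 14 := by omega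
  have hn : ∀ k, k ≤ 13 → nab k x = nab k (twT N x) := fun k hk =>
    (nab_congr_up h3.2 (by omega)).symm
  refine ⟨hlx, by rw [hn 4 (by omega), n4], ?_⟩
  rw [nst_eq, show lev x - 4 = 10 by omega]
  simp only [Finset.sum_range_succ, Finset.sum_range_zero]
  norm_num [hn, n4, n5, n6, n7, n8, n9, n10, n11, n12, n13]

/-- the labels of the joins of cost `145` -/
lemma Fz.heq5 (K : Ctx P r 13 lo hi e) (Q : Nz5 P N b θ3 θ4) {z : P} (hz : z ∈ bdR (rA N))
    (hc : cst 4 (hA N θ5) z = 145) :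
    hA N θ5 z = lev z - 4 ∧ 145 = ful 4 z ∧ ∃ x x', Cg z x x' := by
  have h1 := F.cst_ge W hz
  have h2 : cst 4 (hA N θ4) z = 145 := by
    rcases Q.bd z hz with h | h | h
    · have := F.penS_ge W h
      omega
    · exact absurd h (F.no_flip W K Q z)
    · omega
  rcases Q.eq z hz h2 with h | h | ⟨h3, h4, h5⟩
  · have := F.penS_ge W h
    omega
  · exact absurd h (F.no_flip W K Q z)
  · refine ⟨?_, h4, h5⟩
    have HX := (F.ew K (by omega) W).farX (Finset.Subset.refl (ED D)) 145 (by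
      rw [F.thS_eq]
      exact fun x hx => F.tw_ge W Q hx)
    have h6 := HX.le_lev z (by rw [F.RS_eq]; exact hz)
    rw [F.hS_eq] at h6
    have h7 := F.hA_le W (by omega) hz
    omega

/-- **No special twins at `j = 13`.** -/
theorem Fz.no_spc (K : Ctx P r 13 lo hi e) (Q : Nz5 P N b θ3 θ4) {x0 : P} (hx0 : x0 ∈ twA N)
    (hs : Spc 13 3 N b θ3 (twT N x0)) : False := by
  classical
  have WE := F.ew K (by omega) W
  have hbd : ∀ z ∈ bdR (rA N), 145 ≤ cst 4 (hA N θ5) z := fun z hz =>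
    (F.bd_ge W Q hz).resolve_left (F.no_flip W K Q z)
  have htw : ∀ x ∈ twA N, tcst 4 (thA N θ5) (twT N x, x) = 145 → Spc 13 3 N b θ3 (twT N x) := by
    intro x hx hc
    rcases Q.tw x hx with h | h
    · exact h
    · have := F.tcst_ge W hx
      omega
  have hcard : 3 ≤ (lv P 4).card := by
    have h1 := nab_le_card (P := P) 4 x0
    have h2 := (F.spc_num W hx0 hs).2.1
    omega
  have h0 := F.spc_tw W hx0 hs
  set U : Finset P := (bdR (rA N)).filter (fun z => cst 4 (hA N θ5) z = 145) ∪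
    (twA N).filter (fun x => tcst 4 (thA N θ5) (twT N x, x) = 145) with hU
  have hmU : ∀ z, z ∈ U ↔ (z ∈ bdR (rA N) ∧ cst 4 (hA N θ5) z = 145) ∨
      (z ∈ twA N ∧ tcst 4 (thA N θ5) (twT N z, z) = 145) := by
    intro z
    rw [hU, mem_union, mem_filter, mem_filter]
  have hcl : ∀ z ∈ U, 4 ≤ lev z ∧ (nab 4 z = 2 ∨ (nab 4 z = 3 ∧
      nst 4 (fun z => lev z - 4) z = 29)) := by
    intro z hz
    rcases (hmU z).mp hz with ⟨h1, h2⟩ | ⟨h1, h2⟩
    · obtain ⟨-, h3, x, x', h4⟩ := F.heq5 W K Q h1 h2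
      have := K.lev_ge h4
      exact ⟨by omega, Or.inl (K.nab4_13 h4 h3.ge)⟩
    · obtain ⟨g1, g2, g3⟩ := F.spc_num W h1 (htw z h1 h2)
      exact ⟨by omega, Or.inr ⟨g2, g3⟩⟩
  have key := WE.sign_tw (n := 145) F.sum (dvd_Z K.gt.H.gauss 4 145)
    (by rw [F.thS_eq]; exact fun x hx => F.tw_ge W Q hx)
    (by
      rw [F.thS_eq]
      intro x hx hc
      obtain ⟨g1, g2, g3⟩ := F.spc_tw W hx (htw x hx hc)
      omega)
    (by rw [F.RS_eq, F.hS_eq]; exact hbd)
    (by
      rw [F.RS_eq, F.hS_eq]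
      exact fun z hz hc => (F.heq5 W K Q hz hc).1)
    (by
      rw [F.RS_eq, F.thS_eq]
      exact fun e' F' hV hs' hok => F.card_le K (by omega) W minT_13 de_13 (by omega) hV hs' hok)
    (U := U) (by
      rw [F.RS_eq, F.hS_eq, F.thS_eq]
      exact hmU)
    (c0 := (lv P 4).card - 2) (by omega)
    (by
      intro z hz
      obtain ⟨h1, h2⟩ := hcl z hz
      rw [show 4 + (lev z - 4) = lev z by omega, nab_self]
      omega)
  have h1 : ∀ z ∈ U.filter (fun z => (lv P 4).card - 2 + nab 4 z =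
      (lv P 4).card + nab (4 + (lev z - 4)) z), (-1 : ℤ) ^ (nst 4 (fun z => lev z - 4) z) = -1 := by
    intro z hz
    rw [mem_filter] at hz
    obtain ⟨h1, h2⟩ := hcl z hz.1
    have h3 := hz.2
    rw [show 4 + (lev z - 4) = lev z by omega, nab_self] at h3
    rcases h2 with h2 | ⟨h2, h4⟩
    · omega
    · rw [h4]
      norm_num
  rw [Finset.sum_congr rfl h1, Finset.sum_const] at key
  have h2 : x0 ∈ U.filter (fun z => (lv P 4).card - 2 + nab 4 z =
      (lv P 4).card + nab (4 + (lev z - 4)) z) := by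
    rw [mem_filter, hmU]
    obtain ⟨g1, g2, g3⟩ := F.spc_num W hx0 hs
    refine ⟨Or.inr ⟨hx0, h0.2.2⟩, ?_⟩
    rw [show 4 + (lev x0 - 4) = lev x0 by omega, nab_self, g2]
    omega
  have h3 := Finset.card_pos.mpr ⟨x0, h2⟩
  rw [nsmul_eq_mul, mul_neg, mul_one, neg_eq_zero] at key
  have h4 : (U.filter (fun z => (lv P 4).card - 2 + nab 4 z =
      (lv P 4).card + nab (4 + (lev z - 4)) z)).card = 0 := by
    exact_mod_cast key
  omega

end

end Pool.Agent.GaussPoset.Ec

end

/-! From `Pool.Agent.W_448s7_h27.PoJ13` -/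

section

/-!
S7 for `j = 13` (MP_448cb3_co): the windows `0, …, 3` with larger caps at the windows `2`, `3`,
in two phases.
-/

namespace Pool.Agent.GaussPoset.Sm

set_option linter.unusedSectionVars false

open Finset Wd

universe u

variable {P : Type u} [Fintype P] [PartialOrder P] [DecidableEq P] {r : ℕ}

lemma chkTr13 : ChkT 13 (Sr13a ++ []) := by decide +kernel

/-! ### the caps `63`, `52` -/

section

variable {lo hi : Tops P → ℕ → ℕ} {e : Tops P → ℕ → ℕ → P}

end

/-! ### the caps `64`, `60` -/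

/-- caps -/
def cq13 (w : ℕ) : ℤ := if w = 2 then 64 else if w = 3 then 60 else cr13 w

/-- even noise -/
def neq13 (w : ℕ) (V : ℤ) : Bool :=
  if w = 2 then (nz ((13 + 1 - 2 : ℕ) : ℤ) V || ([68, 49] : List ℤ).elem V)
  else if w = 3 then (nz ((13 + 1 - 3 : ℕ) : ℤ) V || ([55, 39, 54] : List ℤ).elem V)
  else ner13 w V

/-- odd noise -/
def noq13 (w : ℕ) (V : ℤ) : Bool :=
  if w = 2 then ([65, 66] : List ℤ).elem V
  else if w = 3 then ([56] : List ℤ).elem V
  else nor13 w V

/-- lower bounds -/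
def lwq13 (_ : ℕ) : ℤ := 0

/-- caps as a list -/
def clq13 : List (ℕ × ℕ) := [(13, 93), (12, 77), (11, 64), (10, 60)]

lemma capq13 : CapL 13 3 cq13 clq13 := by decide +kernel

/-- lines with `g + 300`, by `κ` -/
def tq13 : List (List ℕ) :=
  [[300], [294, 295, 296, 297, 298], [288, 289, 290, 291, 292, 293, 294, 295, 296, 303], [291,
   297, 298, 299, 300, 301, 302, 303], [285, 286, 287, 288, 289, 291, 292, 293, 294, 295, 296,
   297, 298, 299, 300, 301, 302, 303, 308], [275, 280, 294, 296, 297, 298, 299, 300, 301, 302,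
   303, 304, 305, 306, 307, 308, 309], [269, 270, 271, 272, 273, 274, 275, 276, 277, 278, 282,
   288, 289, 290, 291, 292, 293, 294, 295, 296, 297, 298, 299, 300, 301, 302, 303, 304, 305,
   306, 307, 308, 309, 310, 315], [278, 283, 288, 291, 292, 293, 294, 295, 296, 297, 298, 299,
   300, 301, 302], [266, 271, 272, 273, 274, 275, 276, 277, 278, 279, 280, 281, 282, 283, 284,
   285, 286, 287, 288, 289], [], [250, 255, 260]]

/-- lines with `g`, by `κ` -/
def Lq13 : List (List ℤ) :=
  [[0], [-6, -5, -4, -3, -2], [-12, -11, -10, -9, -8, -7, -6, -5, -4, 3], [-9, -3, -2, -1, 0, 1,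
   2, 3], [-15, -14, -13, -12, -11, -9, -8, -7, -6, -5, -4, -3, -2, -1, 0, 1, 2, 3, 8], [-25,
   -20, -6, -4, -3, -2, -1, 0, 1, 2, 3, 4, 5, 6, 7, 8, 9], [-31, -30, -29, -28, -27, -26, -25,
   -24, -23, -22, -18, -12, -11, -10, -9, -8, -7, -6, -5, -4, -3, -2, -1, 0, 1, 2, 3, 4, 5, 6,
   7, 8, 9, 10, 15], [-22, -17, -12, -9, -8, -7, -6, -5, -4, -3, -2, -1, 0, 1, 2], [-34, -29,
   -28, -27, -26, -25, -24, -23, -22, -21, -20, -19, -18, -17, -16, -15, -14, -13, -12, -11],
   [], [-50, -45, -40]]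

lemma Lq13_eq : Lq13 = tabI tq13 := by decide +kernel

lemma fq13a : fst1 clq13 tq13 Sr13a = true := by decide +kernel

lemma fq13b : fst2 clq13 tq13 Sr13b = true := by decide +kernel

theorem tabq13 : TabS 13 3 cq13 Lq13 Er13 Sr13a Sr13b [] X0 := by
  refine ⟨by norm_num, chkEr13, chkTr13, chkSr13b, ?_, ?_, ?_, ?_, ?_, ?_, ?_⟩
  · decide +kernel
  · decide +kernel
  · decide +kernel
  · decide +kernel
  · rw [Lq13_eq]
    exact chk1_of capq13 fq13a
  · rw [Lq13_eq]
    exact chk2_of (by norm_num) capq13 fq13b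
  · decide +kernel

lemma rndq13 : rnds (aT Lq13) noq13 neq13 cq13 (odds Lq13.length) (evens Lq13.length)
    ((13 : ℕ) : ℤ) 250 4 14 [0, 0, 0, 0] = [84, 77, 65, 61] := by decide +kernel

/-- the pairs of ends which are left -/
def Rq13 : List ((ℕ × ℕ × ℕ) × (ℕ × ℕ × ℕ)) :=
  []

lemma restq13 : rest 13 Er13 X0 [84, 77, 65, 61] = Rq13 := by decide +kernel

section

variable {lo hi : Tops P → ℕ → ℕ} {e : Tops P → ℕ → ℕ → P}

/-- the windows -/
lemma balq13 (K : Ctx P r 13 lo hi e) (hJ : ∃ z : P, Hul.Jn z) {V2 V3 : ℤ}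
    (h2 : WinB P 13 2 64 (fun V => ([65, 66] : List ℤ).elem V)
      (fun V => nz ((13 + 1 - 2 : ℕ) : ℤ) V || ([68, 49] : List ℤ).elem V) 0 V2)
    (h3 : WinB P 13 3 60 (fun V => ([56] : List ℤ).elem V)
      (fun V => nz ((13 + 1 - 3 : ℕ) : ℤ) V || ([55, 39, 54] : List ℤ).elem V) 0 V3) :
    ∃ V : ℕ → ℤ, V 2 = V2 ∧ V 3 = V3 ∧ Bals P 13 cq13 noq13 neq13 lwq13 V := by
  have hF : NoFo P 13 := (nf_odd (by norm_num)).noFo
  obtain ⟨V0, hV0⟩ := balr13 K hF hJ 0 (by norm_num)
  obtain ⟨V1, hV1⟩ := balr13 K hF hJ 1 (by norm_num)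
  refine ⟨fun w => if w = 0 then V0 else if w = 1 then V1 else if w = 2 then V2 else V3,
    rfl, rfl, fun w hw => ?_⟩
  have : w = 0 ∨ w = 1 ∨ w = 2 ∨ w = 3 := by omega
  rcases this with rfl | rfl | rfl | rfl
  · exact hV0
  · exact hV1
  · exact h2
  · exact h3

/-- **the bounds** -/
theorem pq13 (K : Ctx P r 13 lo hi e) {V : ℕ → ℤ}
    (hB : Bals P 13 cq13 noq13 neq13 lwq13 V) : Chk.Below 3 V [84, 77, 65, 61] := by
  have hN : NoP P 13 X0 := noP_zero 13
  have hF : NoFo P 13 := (nf_odd (by norm_num)).noFo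
  have h0 : Chk.Below 3 V [0, 0, 0, 0] := by
    have h5 := (StF.start hB).bel
    rwa [show ((List.range 4).map fun w => min (lwq13 w) (cq13 w + 1)) = [0, 0, 0, 0] by
      decide +kernel] at h5
  exact rndq13 ▸ K.sweepS hN hF (fun s hs => absurd hs List.not_mem_nil) tabq13 hB h0 250 14

/-- **the pairs of ends which are left** -/
theorem leftq13 (K : Ctx P r 13 lo hi e) {V : ℕ → ℤ}
    (hB : Bals P 13 cq13 noq13 neq13 lwq13 V) {z x x' : P} (h : Cg z x x')
    (hl : lev z = 14) : ∃ s s', (s, s') ∈ Rq13 ∧ Dt 13 x s ∧ Dt 13 x' s' := by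
  have H := K.gt.H
  have hF : NF P 13 := nf_odd (by norm_num)
  have h5 := K.leftS3 hF.noFo chkEr13 (by decide +kernel) (noP_zero (P := P) 13) hB (pq13 K hB)
    h hl (hF.sok H h hl) (hF.sok H h.symm hl)
  rwa [restq13] at h5

end

end Pool.Agent.GaussPoset.Sm

end

/-! From `Pool.Agent.W_448s7_h27.PpE` -/

section

/-!
# S7 for `j = 13` without twins of the cells `(2, 12)` (MP_448cb3_co)
-/

namespace Pool.Agent.GaussPoset.Sm

set_option linter.unusedSectionVars false

open Finset Wd W4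

universe u

variable {P : Type u} [Fintype P] [PartialOrder P] [DecidableEq P] {r : ℕ}
  {lo hi : Tops P → ℕ → ℕ} {e : Tops P → ℕ → ℕ → P}

/-- window `2` for `j = 13` without twins of the cells `(2, 12)` -/
theorem win2e_13 (K : Ctx P r 13 lo hi e) (hE : NoE2 P 13) (hJ : ∃ z : P, Hul.Jn z) :
    ∃ V, WinB P 13 2 64 (fun V => ([] : List ℤ).elem V)
      (fun V => nz ((13 + 1 - 2 : ℕ) : ℤ) V || ([49] : List ℤ).elem V) 0 V := by
  obtain ⟨V, h⟩ := K.winT (nf_odd (by norm_num)).noFo (by norm_num) (by norm_num)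
    (Or.inl rfl) (c0 := 47) (cT := 64) (LE := [49]) (LO := []) (BL := []) (lb := 0)
    chkEr13 (by decide +kernel) (by decide +kernel) (by decide +kernel) (by decide +kernel)
    (by norm_num) (fun N b θ W => W.cellsE (p := False) le_rfl (by norm_num)
      numE_13_2 (noPT_of K.gt (by norm_num)) hE (fun h => h.elim))
    (fun _ _ _ _ _ => hkT_nil)
    { hfl := fun _ => Or.inr (Or.inl (by decide +kernel))
      hcc := fun h => absurd h (by norm_num)
      hFo := fun h => absurd h (by norm_num)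
      hfv := fun h => absurd h (by norm_num) }
    (by norm_num) (by norm_num) le_rfl (by decide) (by decide) hJ
  exact ⟨V, h.mono le_rfl (fun v _ h => h) (fun v _ h => by simpa using h) le_rfl⟩

/-- window `3` for `j = 13` without twins of the cells `(2, 12)` -/
theorem win3e_13 (K : Ctx P r 13 lo hi e) (hE : NoE2 P 13) (hJ : ∃ z : P, Hul.Jn z) :
    ∃ V, WinB P 13 3 60 (fun V => ([56] : List ℤ).elem V)
      (fun V => nz ((13 + 1 - 3 : ℕ) : ℤ) V || ([55, 39, 54] : List ℤ).elem V) 0 V := by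
  obtain ⟨V, h⟩ := K.winT (nf_odd (by norm_num)).noFo (by norm_num) (by norm_num)
    (Or.inr ⟨rfl, by norm_num⟩) (c0 := 37) (cT := 60) (LE := [55, 39, 54]) (LO := [56])
    (BL := []) (lb := 0)
    chkEr13 (by decide +kernel) (by decide +kernel) (by decide +kernel) (by decide +kernel)
    (by norm_num) (fun N b θ W => W.cellsE (p := False) (by norm_num) (by norm_num)
      (numE_13_3.mono (fun v h => List.mem_cons_of_mem _ h) (fun _ h => h))
      (noPT_of K.gt (by norm_num)) hE (fun h => h.elim))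
    (fun _ _ _ _ _ => hkT_nil)
    { hfl := fun _ => Or.inr (okv_e (by decide +kernel) (by decide +kernel))
      hcc := fun h => absurd h (by norm_num)
      hFo := fun h => absurd h (by norm_num)
      hfv := fun h => absurd h (by norm_num) }
    (by norm_num) (by norm_num) le_rfl (by decide) (by decide) hJ
  exact ⟨V, h.mono le_rfl (fun v _ h => h) (fun v _ h => by simpa using h) le_rfl⟩

/-- **S7 for `j = 13`**, without twins of the cells `(2, 12)`: no joins of level `14`. -/
theorem no_join13e (K : Ctx P r 13 lo hi e) (hE : NoE2 P 13) {z : P} (hl : lev z = 14) :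
    ¬ Hul.Jn z := by
  intro hz
  obtain ⟨x, x', h⟩ := K.cross hz hl
  obtain ⟨V2, h2⟩ := win2e_13 K hE ⟨z, hz⟩
  obtain ⟨V3, h3⟩ := win3e_13 K hE ⟨z, hz⟩
  obtain ⟨V, -, -, hB⟩ := balq13 K ⟨z, hz⟩ (V2 := V2) (V3 := V3)
    (h2.mono le_rfl (fun v _ h => absurd h (by simp)) (fun v _ h => by
      simp only [Bool.or_eq_true, List.elem_eq_mem, decide_eq_true_eq, List.mem_cons,
        List.not_mem_nil, or_false] at h ⊢
      tauto) le_rfl) h3
  obtain ⟨s, s', h4, -⟩ := leftq13 K hB h hl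
  exact absurd h4 List.not_mem_nil

end Pool.Agent.GaussPoset.Sm

end

/-! From `Pool.Agent.W_448s7_h27.PpS13` -/

section

/-!
S7 for `j = 13` (MP_448cb3_co): the state from the windows `2`, `3` with the system of the
window `3`; all joins cost at least `145` at the window `4`.
-/

namespace Pool.Agent.GaussPoset.Sm

set_option linter.unusedSectionVars false

open Polynomial Finset W4 Cp

universe u

section

variable {P : Type u} [Fintype P] [PartialOrder P] [DecidableEq P] {r j w : ℕ}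
  {lo hi : Tops P → ℕ → ℕ} {e : Tops P → ℕ → ℕ → P}

/-- **the balance at the window `3` for the system, with the larger labels, including flips** -/
theorem Ctx.winSyT (K : Ctx P r j lo hi e) (h12 : 12 ≤ j) {N : Tops P → Finset P}
    {θ3 θ4 : Tops P → P → ℕ} (S : Sy P j lo hi N θ3 θ4) {c0 cT : ℕ}
    {LE LO BL : List ℤ} {lb : ℤ} {E : List (ℕ × ℕ × ℕ)} (hE : ChkE j E) (h0 : (0, 0, 0) ∈ E)
    (hb : j % 2 = 1 → ∀ s ∈ E, (s.1 : ℤ) * ((j : ℤ) - 3) - s.2.1 ≤ 5 * ((j : ℤ) - 3))
    (c1 : ∀ a ∈ Finset.Icc 2 ((j + 1) / 2), (j + 1 - 3) ^ 2 + c0 + 1 < stC 3 (j + 1) a)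
    (c2 : ∀ a ∈ Finset.Icc 2 (j - 1), (j + 1 - 3) ^ 2 + c0 + 1 < reC 3 (j + 1) a)
    (hc : c0 ≤ cT)
    (hcell : ∀ (N : Tops P → Finset P) (b : Tops P → ℕ) (θ : Tops P → P → ℕ),
      Wk r j 3 ((j + 1 - 3) ^ 2 + c0) N b θ →
      CellsN P j 3 ((j + 1 - 3) ^ 2 + c0) ((j + 1 - 3) ^ 2 + cT) N b θ
        (XL (j + 1 - 3) LE) (XL (j + 1 - 3) LO))
    (hk : ∀ (N : Tops P → Finset P) (b : Tops P → ℕ) (θ : Tops P → P → ℕ),
      Wk r j 3 ((j + 1 - 3) ^ 2 + c0) N b θ → Unq P 3 b →
      HkT P j 3 ((j + 1 - 3) ^ 2 + cT) N b θ (XL (j + 1 - 3) BL))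
    (I : InT P j 3 ((j + 1 - 3) ^ 2 + cT) (XL (j + 1 - 3) LE) (XL (j + 1 - 3) LO))
    (c6 : 2 * ((j + 1 - 3) ^ 2 + cT) < 3 * (j + 1 - 3) ^ 2 + 3 * (j + 1 - 3))
    (c7 : cT < 7 * (j + 1 - 3) + 10)
    (hl0 : lb ≤ 0) (hlE : ∀ x ∈ LE, lb ≤ x) (hlO : ∀ x ∈ LO, lb ≤ x)
    (hJ : ∃ z : P, Hul.Jn z) :
    ∃ v : ℕ, MnT j 3 N (fun t => hi t 3 - lo t 3 + 1) θ3 v ∧
      Wk r j 3 ((j + 1 - 3) ^ 2 + c0) N (fun t => hi t 3 - lo t 3 + 1) θ3 ∧
      WinB P j 3 cT (fun V => LO.elem V)
        (fun V => (nz ((j + 1 - 3 : ℕ) : ℤ) V && !(BL.elem V)) || LE.elem V)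
        lb ((v : ℤ) - ((j + 1 - 3 : ℕ) : ℤ) ^ 2) := by
  have H := K.gt.H
  have h16 := K.h16
  have W : Wk r j 3 ((j + 1 - 3) ^ 2 + c0) N (fun t => hi t 3 - lo t 3 + 1) θ3 :=
    { gt := K.gt, hj := by omega, hw1 := by omega, hw := by omega, typ := S.typ3, top := S.top3
      sum_b := S.sum3
      hK := by omega
      rdeep := fun C _ hx _ h1 h2 h3 h4 => rdeep_of (by omega) (by omega) c2 C hx h1 h2 h3 h4
      sdeep := fun _ _ _ _ C _ hx _ h1 h3 h4 => sdeep_of (by omega) (by omega) c1 C hx h1 h3 h4 }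
  have L := W.lkT (by omega) (by omega) c6 S.unq3 I (hcell _ _ _ W) (hk _ _ _ W S.unq3)
  have hlow : ∀ z x x' : P, Cg z x x' → Sok j x → Sok j x' → j + 1 ≤ lev z →
      ∀ k, k < 3 → nab k z = 2 := by
    intro z x x' h hs hs' hl k hk
    obtain ⟨l1, l2⟩ := h.lev_eq H
    have hend : lev x = j → (Win.uc x).card = 1 := fun hh => (K.ends h (by omega)).1
    have hend' : lev x' = j → (Win.uc x').card = 1 := fun hh => (K.ends h (by omega)).2
    rw [h.sum H (by omega), K.low_one h12 h.only (by omega) hend hs (by omega),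
      K.low_one h12 h.only' (by omega) hend' hs' (by omega)]
  have hpen : OnePen P j (fun t => 2 ≤ hi t 3 - lo t 3 + 1) ∨ ∃ z : P, Hul.Jn z ∧
      ful 3 z ≤ (j + 1 - 3) ^ 2 + 5 * (j - 3) := by
    rcases K.pen_or with h | ⟨hodd, z, x, x', h1, h2, h3, h4⟩
    · left
      intro e e' p p' hB
      refine h e e' p p' ?_
      rcases shape_cases (K.comp (topOf e)) (by omega) (K.shape (topOf e)) with h | h | ⟨a, h, h3⟩
      · have := h 3 (by omega)
        omega
      · exact h
      · have h4 := h.four (by omega)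
        have e1 := h.low 3 (by omega)
        omega
    · right
      have hs : Sok j x := ⟨fun hf => by
        have := hf.1
        have := (h1.lev_eq H).1
        omega, fun _ hf => by
        have := hf.2.1
        omega⟩
      have hs' : Sok j x' := ⟨fun hf => by
        have := hf.1
        have := (h1.lev_eq H).2
        omega, fun _ hf => by
        have := hf.2.1
        omega⟩
      exact ⟨z, h1.jn, K.cheap (w := 3) (by omega) hodd hE h0 (hb hodd) h1 h2 h3 h4
        (hlow z x x' h1 hs hs' h2.ge)⟩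
  obtain ⟨v, M, h⟩ := W.winBF (by omega) (fun _ => h12) (by omega) L h16 (cT := (cT : ℤ))
    (lb := lb) (by push_cast; ring) (by exact_mod_cast c7) hl0 hlE hlO hlow hpen hJ
  exact ⟨v, M, W, h⟩

end

variable {P : Type u} [Fintype P] [PartialOrder P] [DecidableEq P] {r : ℕ}
  {lo hi : Tops P → ℕ → ℕ} {e : Tops P → ℕ → ℕ → P}

/-- the window `3` for `j = 13`, for a given system -/
theorem Ctx.sys3T_13 (K : Ctx P r 13 lo hi e) {N : Tops P → Finset P}
    {θ3 θ4 : Tops P → P → ℕ} (S : Sy P 13 lo hi N θ3 θ4) (hJ : ∃ z : P, Hul.Jn z) :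
    ∃ v : ℕ, MnT 13 3 N (fun t => hi t 3 - lo t 3 + 1) θ3 v ∧
      Wk r 13 3 ((13 + 1 - 3) ^ 2 + 37) N (fun t => hi t 3 - lo t 3 + 1) θ3 ∧
      WinB P 13 3 60 (fun V => ([55, 56] : List ℤ).elem V)
        (fun V => nz ((13 + 1 - 3 : ℕ) : ℤ) V || ([55, 39, 53, 54] : List ℤ).elem V) 0
        ((v : ℤ) - ((13 + 1 - 3 : ℕ) : ℤ) ^ 2) := by
  obtain ⟨v, M, W, h⟩ := K.winSyT (by norm_num) S (c0 := 37) (cT := 60)
    (LE := [55, 39, 53, 54]) (LO := [55, 56]) (BL := []) (lb := 0)
    chkEr13 (by decide +kernel) (by decide +kernel) (by decide +kernel) (by decide +kernel)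
    (by norm_num) (fun N b θ W => W.cellsF (by norm_num)
      (numF_13_3.mono (fun v h => List.mem_cons_of_mem _ h) (fun _ h => h))
      (noPT_of K.gt (by norm_num)))
    (fun _ _ _ _ _ => hkT_nil)
    { hfl := fun _ => Or.inr (okv_e (by decide +kernel) (by decide +kernel))
      hcc := fun h => absurd h (by norm_num)
      hFo := fun h => absurd h (by norm_num)
      hfv := fun h => absurd h (by norm_num) }
    (by norm_num) (by norm_num) le_rfl (by decide) (by decide) hJ
  exact ⟨v, M, W, h.mono le_rfl (fun v _ h => h) (fun v _ h => by simpa using h) le_rfl⟩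

/-- caps -/
def cs13 (w : ℕ) : ℤ := if w = 2 then 70 else if w = 3 then 60 else if w = 4 then 44 else cr13 w

/-- even noise -/
def nes13 (w : ℕ) (V : ℤ) : Bool :=
  if w = 2 then (nz ((13 + 1 - 2 : ℕ) : ℤ) V || ([68, 49] : List ℤ).elem V)
  else if w = 3 then (nz ((13 + 1 - 3 : ℕ) : ℤ) V || ([55, 39, 53, 54] : List ℤ).elem V)
  else ner13 w V

/-- odd noise -/
def nos13 (w : ℕ) (V : ℤ) : Bool :=
  if w = 2 then ([64, 65, 66] : List ℤ).elem V
  else if w = 3 then ([55, 56] : List ℤ).elem V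
  else nor13 w V

/-- lower bounds -/
def lws13 (_ : ℕ) : ℤ := 0

/-- caps as a list -/
def cls13 : List (ℕ × ℕ) := [(13, 93), (12, 77), (11, 70), (10, 60)]

lemma caps13 : CapL 13 3 cs13 cls13 := by decide +kernel

/-- caps as a list -/
def cls13' : List (ℕ × ℕ) := [(13, 93), (12, 77), (11, 70), (10, 60), (9, 44)]

lemma caps13' : CapL 13 4 cs13 cls13' := by decide +kernel

/-- lines with `g + 300`, by `κ` -/
def ts13 : List (List ℕ) :=
  [[300], [294, 295, 296, 297, 298], [288, 289, 290, 291, 292, 293, 294, 295, 296, 303], [291,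
   297, 298, 299, 300, 301, 302, 303], [285, 286, 287, 288, 289, 291, 292, 293, 294, 295, 296,
   297, 298, 299, 300, 301, 302, 303, 308], [275, 280, 294, 296, 297, 298, 299, 300, 301, 302,
   303, 304, 305, 306, 307, 308, 309], [269, 270, 271, 272, 273, 274, 275, 276, 277, 278, 282,
   288, 289, 290, 291, 292, 293, 294, 295, 296, 297, 298, 299, 300, 301, 302, 303, 304, 305,
   306, 307, 308, 309, 310, 315], [278, 283, 288, 291, 292, 293, 294, 295, 296, 297, 298, 299,
   300, 301, 302], [266, 271, 272, 273, 274, 275, 276, 277, 278, 279, 280, 281, 282, 283, 284,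
   285, 286, 287, 288, 289], [], [250, 255, 260]]

/-- lines with `g`, by `κ` -/
def Ls13 : List (List ℤ) :=
  [[0], [-6, -5, -4, -3, -2], [-12, -11, -10, -9, -8, -7, -6, -5, -4, 3], [-9, -3, -2, -1, 0, 1,
   2, 3], [-15, -14, -13, -12, -11, -9, -8, -7, -6, -5, -4, -3, -2, -1, 0, 1, 2, 3, 8], [-25,
   -20, -6, -4, -3, -2, -1, 0, 1, 2, 3, 4, 5, 6, 7, 8, 9], [-31, -30, -29, -28, -27, -26, -25,
   -24, -23, -22, -18, -12, -11, -10, -9, -8, -7, -6, -5, -4, -3, -2, -1, 0, 1, 2, 3, 4, 5, 6,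
   7, 8, 9, 10, 15], [-22, -17, -12, -9, -8, -7, -6, -5, -4, -3, -2, -1, 0, 1, 2], [-34, -29,
   -28, -27, -26, -25, -24, -23, -22, -21, -20, -19, -18, -17, -16, -15, -14, -13, -12, -11],
   [], [-50, -45, -40]]

lemma Ls13_eq : Ls13 = tabI ts13 := by decide +kernel

lemma fs13a : fst1 cls13 ts13 Sr13a = true := by decide +kernel

lemma fs13b : fst2 cls13 ts13 Sr13b = true := by decide +kernel

lemma fs13a' : fst1 cls13' ts13 Sr13a = true := by decide +kernel

lemma fs13b' : fst2 cls13' ts13 Sr13b = true := by decide +kernel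

theorem tabs13 : TabS 13 3 cs13 Ls13 Er13 Sr13a Sr13b [] X0 := by
  refine ⟨by norm_num, chkEr13, chkTr13, chkSr13b, ?_, ?_, ?_, ?_, ?_, ?_, ?_⟩
  · decide +kernel
  · decide +kernel
  · decide +kernel
  · decide +kernel
  · rw [Ls13_eq]
    exact chk1_of caps13 fs13a
  · rw [Ls13_eq]
    exact chk2_of (by norm_num) caps13 fs13b
  · decide +kernel

theorem tabs13' : TabS 13 4 cs13 Ls13 Er13 Sr13a Sr13b [] X0 := by
  refine ⟨by norm_num, chkEr13, chkTr13, chkSr13b, ?_, ?_, ?_, ?_, ?_, ?_, ?_⟩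
  · decide +kernel
  · decide +kernel
  · decide +kernel
  · decide +kernel
  · rw [Ls13_eq]
    exact chk1_of caps13' fs13a'
  · rw [Ls13_eq]
    exact chk2_of (by norm_num) caps13' fs13b'
  · decide +kernel

lemma rnds13 : rnds (aT Ls13) nos13 nes13 cs13 (odds Ls13.length) (evens Ls13.length)
    ((13 : ℕ) : ℤ) 250 4 16 [0, 0, 0, 0] = [79, 72, 64, 55] := by decide +kernel

/-- the alive lines cost at least `45` at the window `4` -/
lemma lows13 : allT Ls13 (fun κ g => !(Chk.above κ g [79, 72, 64, 55] ((13 : ℕ) : ℤ)) ||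
    decide (45 ≤ κ * 9 + g)) = true := by decide +kernel

/-- **the state for `j = 13`**, for a given system: the larger labels of the window `3` give
least cost at least `11 ^ 2 + 55` -/
theorem ps13 (K : Ctx P r 13 lo hi e) (hJ : ∃ z : P, Hul.Jn z) {N : Tops P → Finset P}
    {θ3 θ4 : Tops P → P → ℕ} (S : Sy P 13 lo hi N θ3 θ4) :
    ∃ (V : ℕ → ℤ) (v : ℕ), Bals P 13 cs13 nos13 nes13 lws13 V ∧
      Chk.Below 3 V [79, 72, 64, 55] ∧ MnT 13 3 N (fun t => hi t 3 - lo t 3 + 1) θ3 v ∧
      Wk r 13 3 (11 ^ 2 + 37) N (fun t => hi t 3 - lo t 3 + 1) θ3 ∧ 11 ^ 2 + 55 ≤ v := by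
  have hN : NoP P 13 X0 := noP_zero 13
  have hF : NoFo P 13 := (nf_odd (by norm_num)).noFo
  obtain ⟨V0, hV0⟩ := balr13 K hF hJ 0 (by norm_num)
  obtain ⟨V1, hV1⟩ := balr13 K hF hJ 1 (by norm_num)
  obtain ⟨V2, h2⟩ := winT2_13 K hJ
  obtain ⟨v, M, W, h3⟩ := K.sys3T_13 S hJ
  have key : ∀ a b c d : ℤ, ∃ V : ℕ → ℤ, V 0 = a ∧ V 1 = b ∧ V 2 = c ∧ V 3 = d :=
    fun a b c d => ⟨fun w => if w = 0 then a else if w = 1 then b else if w = 2 then c else d,
      rfl, rfl, rfl, rfl⟩
  obtain ⟨V, e0, e1, e2, e3⟩ := key V0 V1 V2 ((v : ℤ) - ((13 + 1 - 3 : ℕ) : ℤ) ^ 2)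
  have hB : Bals P 13 cs13 nos13 nes13 lws13 V := by
    intro w hw
    have : w = 0 ∨ w = 1 ∨ w = 2 ∨ w = 3 := by omega
    rcases this with rfl | rfl | rfl | rfl
    · rw [e0]; exact hV0
    · rw [e1]; exact hV1
    · rw [e2]; exact h2
    · rw [e3]; exact h3
  have h0 : Chk.Below 3 V [0, 0, 0, 0] := by
    have h5 := (StF.start hB).bel
    rwa [show ((List.range 4).map fun w => min (lws13 w) (cs13 w + 1)) = [0, 0, 0, 0] by
      decide +kernel] at h5
  have h5 : Chk.Below 3 V [79, 72, 64, 55] := rnds13 ▸ K.sweepS hN hF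
    (fun s hs => absurd hs List.not_mem_nil) tabs13 hB h0 250 16
  refine ⟨V, v, hB, h5, M, W, ?_⟩
  have h1 := h5.2 3 le_rfl
  rw [e3] at h1
  simp only [List.getD_cons_succ, List.getD_cons_zero] at h1
  norm_num at h1
  omega

/-- **all joins cost at least `145` at the window `4`** -/
theorem low4_13 (K : Ctx P r 13 lo hi e) : ∀ z x x' : P, Cg z x x' → 145 ≤ ful 4 z := by
  intro z0 x0 x0' h0
  have hJ : ∃ z : P, Hul.Jn z := ⟨z0, h0.jn⟩
  have hN : NoP P 13 X0 := noP_zero 13
  have hNF : NF P 13 := nf_odd (by norm_num)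
  obtain ⟨N, θ3, θ4, S⟩ := exists_sy K (by norm_num)
  obtain ⟨V, v, hB, h5, -, -, -⟩ := ps13 K hJ S
  refine K.lowN (T := 45) (by norm_num) (hNF.foB _) (fun z x x' h hs hs' => ?_)
    (by decide +kernel) (fun h => absurd h (by norm_num)) z0 x0 x0' h0
  by_contra hcon
  rw [not_le] at hcon
  have hc : kapZ 13 z * (((13 : ℕ) : ℤ) - ((4 : ℕ) : ℤ)) + gZ 13 z ≤ cs13 4 := by
    have : cs13 4 = 44 := by decide +kernel
    rw [this]
    push_cast at hcon ⊢
    linarith
  have h6 := K.mem_tabS hN hNF.noFo (fun s hs => absurd hs List.not_mem_nil) tabs13' h hs hs'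
    (w := 4) le_rfl hc
  have h7 : Chk.above (kapZ 13 z) (gZ 13 z) [79, 72, 64, 55] ((13 : ℕ) : ℤ) = true := by
    refine Chk.above_of (W := 3) (v := V) _ _ fun w hw => ?_
    have hw' : w ≤ 3 := by
      have := h5.1
      omega
    exact (h5.2 w hw').trans ((hB w hw').mn z x x' h hs hs')
  have h8 := allT_spec lows13 h6
  simp only [h7, Bool.not_true, Bool.false_or, decide_eq_true_eq] at h8
  push_cast at hcon
  linarith

end Pool.Agent.GaussPoset.Sm

end

/-! From `Pool.Agent.W_448s7_h27.PpG` -/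

section

/-!
# `j = 13`: twins of the rectangle cell `(2, 12)` (MP_448cb3_co, S7)
-/

namespace Pool.Agent.GaussPoset.Sm

set_option linter.unusedSectionVars false

open Polynomial Finset W4 Cp

universe u

section

variable {P : Type u} [Fintype P] [PartialOrder P] [DecidableEq P] {r j w K0 : ℕ}
  {N : Tops P → Finset P} {b : Tops P → ℕ} {θ : Tops P → P → ℕ}

lemma cst_lt_fulw {z : P} {k : ℕ} (hk : k < lev z - w) : cst w (fun _ => k) z < ful w z := by
  obtain ⟨a, ha⟩ : ∃ a, lev z = w + a + 1 := ⟨lev z - w - 1, by omega⟩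
  have h1 : cst w (fun _ => k) z ≤ cst w (fun _ => lev z - w - 1) z := by
    rw [cst_shift (i := w) (a := a + 1) (h := fun _ => k) (by omega),
      cst_shift (i := w) (a := a + 1) (h := fun _ => lev z - w - 1) (by omega)]
    exact Finset.sum_le_sum fun n _ => Nat.mul_le_mul_right _ (by omega)
  have h2 : cst w (fun _ => lev z - w - 1) z + 1 ≤ cst w (fun _ => lev z - w) z := by
    rw [cst_shift (i := w) (a := a + 1) (h := fun _ => lev z - w - 1) (by omega),
      cst_shift (i := w) (a := a + 1) (h := fun _ => lev z - w) (by omega),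
      Finset.sum_range_succ, Finset.sum_range_succ _ (a + 1)]
    have h3 : nab (w + (a + 1)) z = 1 := by
      rw [show w + (a + 1) = lev z by omega]
      exact nab_self
    rw [h3, Finset.sum_congr rfl (g := fun n => min (lev z - w) n * nab (w + n) z) (fun n hn => by
      rw [mem_range] at hn
      rw [Nat.min_eq_right (by omega), Nat.min_eq_right (by omega)])]
    omega
  have h4 := cst_le_ful w (fun _ => lev z - w) z
  omega

/-- **a twin below a wide element bounds the least raised cost by its full cost** -/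
theorem Wk.twin_ful2 (W : Wk r j w K0 N b θ) (hw2 : 2 ≤ w) (L : Unq P w b) {v : ℕ}
    (M : MnT j w N b θ v) {x x' : P} (hne : x ≠ x') (hup : ∀ u, x < u ↔ x' < u)
    (hj : j < lev x) (h3 : 3 ≤ nab w x) : v + 3 ≤ ful w x + (lev x - w) := by
  have hj6 := W.hj
  have hw := W.hw
  have key : ∀ y : P, lev y = lev x → ful w y = ful w x → nab w y = nab w x → y ∈ unnat N →
      v + 3 ≤ ful w x + (lev x - w) := by
    intro y hly hfy hny hyu
    by_cases hyt : y ∈ twA N
    · have T := W.twn hyt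
      have e0 := W.twSys.up y hyt
      have el : lev (twT N y) = lev y := lev_eq_of_up e0
      have ef : ful w (twT N y) = ful w y := ful_congr_up e0
      have en : nab w (twT N y) = nab w y := nab_congr_up e0 (by omega)
      have hnat := W.twSys.nat y hyt
      have h5 := M.tw y hyt
      have hs : ¬ Spc j w N b θ (twT N y) := by
        rintro ⟨Nc, co, C⟩
        have h6 := stair_nab C.nat.chart C.mem (k := w) (by omega)
        rw [C.co_eq] at h6
        simp only at h6
        omega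
      unfold tcS at h5
      rw [if_neg hs, tcst_cst T] at h5
      simp only at h5
      rw [W.thA_nat hnat] at h5
      have hth : θ (topOf (twT N y)) (twT N y) + 2 ≤ lev (twT N y) - w := by
        rcases W.cases hnat (by omega) with h | h | h
        · exfalso
          have := W.str_nab L hnat h (by omega)
          omega
        · exfalso
          have := h.nab w le_rfl (by omega)
          omega
        · rcases W.dk_row1 hw2 hnat (by omega) h with h7 | h7
          · exfalso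
            have := h7.nab w le_rfl (by omega)
            omega
          · exact h7
      have h8 := cst_lt_fulw (w := w) (z := twT N y) (k := θ (topOf (twT N y)) (twT N y) + 1)
        (by omega)
      omega
    · have h4 : v ≤ ful w y := min_le_ful (rA_pos W) M.bd (mem_rA.mpr ⟨hyu, hyt⟩)
      omega
  by_cases hx : x ∈ unnat N
  · exact key x rfl rfl rfl hx
  · by_cases hx' : x' ∈ unnat N
    · have el : lev x = lev x' := lev_eq_of_up hup
      exact key x' el.symm (ful_congr_up fun u => (hup u).symm)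
        (nab_congr_up (fun u => (hup u).symm) (by omega)) hx'
    · exact absurd (W.nat_up_inj L hx hx' hup hj.le (by omega)) hne

end

variable {P : Type u} [Fintype P] [PartialOrder P] [DecidableEq P] {r j : ℕ}
  {lo hi : Tops P → ℕ → ℕ} {e : Tops P → ℕ → ℕ → P}

/-- the full cost at the window `3` -/
lemma ful_three13 {x : P} (hl : lev x = 13 + 1)
    (hn : ∀ k, 4 ≤ k → k + 1 ≤ 13 → nab k x = 3) (h2 : nab 13 x = 2) : ful 3 x = 166 := by
  have h3 : nab 14 x = 1 := by
    have := nab_self (z := x)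
    rwa [hl] at this
  unfold ful
  rw [hl]
  simp only [Finset.sum_range_succ, Finset.sum_range_zero, h3, h2, hn 4 (by norm_num) (by norm_num),
    hn 5 (by norm_num) (by norm_num), hn 6 (by norm_num) (by norm_num),
    hn 7 (by norm_num) (by norm_num), hn 8 (by norm_num) (by norm_num),
    hn 9 (by norm_num) (by norm_num), hn 10 (by norm_num) (by norm_num),
    hn 11 (by norm_num) (by norm_num), hn 12 (by norm_num) (by norm_num)]
  norm_num

/-- **no twins of the cells `(2, 12)`**, from those of the stairs -/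
theorem Ctx.noE2_13_of (K : Ctx P r 13 lo hi e) (hJ : ∃ z : P, Hul.Jn z)
    (hst : ∀ x x' : P, x ≠ x' → lev x = 14 → (∀ u, x < u ↔ x' < u) →
      (∀ k, 4 ≤ k → k + 1 ≤ 13 → nab k x = 3) → nab 13 x = 2 → nab 3 x = 2 → False) :
    NoE2 P 13 := by
  intro x x' hne hl hup h3 h2
  by_cases h5 : nab 3 x = 2
  · exact hst x x' hne hl hup h3 h2 h5
  · have h6 : 1 ≤ nab 3 x := one_le_nab (by omega)
    have h7 : nab 3 x ≠ 1 := by
      intro h
      have h4 := K.nab_one_two (x := x) (k := 3) (by norm_num) (by omega) h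
      have h5 := h3 4 le_rfl (by norm_num)
      rw [h5] at h4
      omega
    obtain ⟨N, θ3, θ4, S⟩ := exists_sy K (by norm_num)
    obtain ⟨V, v, -, -, M, W, hv⟩ := ps13 K hJ S
    have h8 := W.twin_ful2 (by norm_num) S.unq3 M hne hup (by omega) (by omega)
    have h9 := ful_three13 hl h3 h2
    omega

end Pool.Agent.GaussPoset.Sm

end

/-! From `Pool.Agent.W_448s7s_h5.TuP` -/

section

/-!
No twins of the cells `(2, 12)` at `j = 13` from the typing of the least costs at window `4`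
(MP_448cb3_co, S7).
-/

namespace Pool.Agent.GaussPoset.Ec

set_option linter.unusedSectionVars false

open Polynomial Finset Sm Wd Cp W4 Cl

universe u

variable {P : Type u} [Fintype P] [PartialOrder P] [DecidableEq P] {r : ℕ}
  {lo hi : Tops P → ℕ → ℕ} {e : Tops P → ℕ → ℕ → P} {N : Tops P → Finset P}
  {θ3 θ4 θ5 : Tops P → P → ℕ} {Nf : Tops P → Finset P} {θf : Tops P → (ℕ → ℕ → ℕ) → P → ℕ}
  {D : Tops P → Prop} {K3 : ℕ} {b : Tops P → ℕ}

/-- the cost of an element with the numbers of a special cell -/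
lemma cst_of_num {x : P} (hl : lev x = 14) (h3 : ∀ k, 4 ≤ k → k + 1 ≤ 13 → nab k x = 3)
    (h2 : nab 13 x = 2) : cst 4 (fun _ => 10) x = 136 ∧ ful 4 x = 136 := by
  have h14 : nab 14 x = 1 := by rw [← hl, nab_self]
  have e1 : cst 4 (fun _ => 10) x = 136 := by
    rw [cst_shift (i := 4) (a := 10) hl]
    simp only [Finset.sum_range_succ, Finset.sum_range_zero]
    norm_num [h3, h2, h14]
  refine ⟨e1, ?_⟩
  rw [ful_eq_above, hl]
  simp only [Finset.sum_range_succ, Finset.sum_range_zero]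
  norm_num [h3, h2]

section

variable (F : Fz P 13 lo hi e N θ4 θ5 Nf θf D) (W : Wk r 13 3 K3 N b θ3)

include F W

/-- no far element has the numbers of a special cell -/
theorem Fz.no_num (K : Ctx P r 13 lo hi e) (Q : Nz5 P N b θ3 θ4) {y : P} (hy : y ∈ unnat N)
    (hl : lev y = 14) (h3 : ∀ k, 4 ≤ k → k + 1 ≤ 13 → nab k y = 3) (h2 : nab 13 y = 2)
    (h5 : nab 3 y = 2) : False := by
  by_cases hyt : y ∈ twA N
  · have g3 := twT_spec (mem_twA.mp hyt).2
    have hn : ∀ k, k ≤ 13 → nab k (twT N y) = nab k y := fun k hk =>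
      nab_congr_up g3.2 (by omega)
    have hll := W.twSys.lev hyt
    have hlt : lev (twT N y) = 14 := by omega
    have h9 : 9 ≤ θ5 (topOf (twT N y)) (twT N y) :=
      (F.typ (topOf (twT N y))).spc_ge (W.natSys.mem_iff.mpr ⟨g3.1, rfl⟩) hlt
        (by rw [hn 3 (by omega), h5]) (by rw [hn 4 (by omega), h3 4 (by omega) (by omega)])
        (by rw [hn 10 (by omega), h3 10 (by omega) (by omega)])
        (by rw [hn 13 (by omega), h2])
    have T := F.tw W (by omega) hyt
    have e1 : thA N θ5 (twT N y) = θ5 (topOf (twT N y)) (twT N y) := thX_not (W.not_tw g3.1)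
    obtain ⟨k1, k2, k3, k4⟩ := T.th (by omega)
    have e2 : thA N θ5 (twT N y) = 9 := by omega
    have e3 := tcst_cst (F.twn W (by omega) hyt)
    simp only at e3
    rw [e2, (cst_of_num hlt (fun k hk hk' => by rw [hn k (by omega), h3 k hk hk'])
      (by rw [hn 13 (by omega), h2])).1] at e3
    rcases Q.tw y hyt with h | h
    · exact F.no_spc W K Q hyt h
    · have := F.tcst_ge W hyt
      omega
  · have hbd : ∀ z ∈ bdR (rA N), 145 ≤ cst 4 (hA N θ5) z := fun z hz =>
      (F.bd_ge W Q hz).resolve_left (F.no_flip W K Q z)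
    have h1 : 145 ≤ ful 4 y := min_le_ful (rA_pos W) hbd (mem_rA.mpr ⟨hy, hyt⟩)
    rw [(cst_of_num hl h3 h2).2] at h1
    omega

/-- **no twins with the numbers of a special cell** -/
theorem Fz.no_twin (K : Ctx P r 13 lo hi e) (Q : Nz5 P N b θ3 θ4) (L : Unq P 3 b) {x x' : P}
    (hne : x ≠ x') (hl : lev x = 14) (hup : ∀ u, x < u ↔ x' < u)
    (h3 : ∀ k, 4 ≤ k → k + 1 ≤ 13 → nab k x = 3) (h2 : nab 13 x = 2) (h5 : nab 3 x = 2) :
    False := by
  by_cases hx : x ∈ unnat N
  · exact F.no_num W K Q hx hl h3 h2 h5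
  · by_cases hx' : x' ∈ unnat N
    · have hll : lev x = lev x' := lev_eq_of_up hup
      have hn : ∀ k, k ≤ 13 → nab k x' = nab k x := fun k hk =>
        nab_congr_up (fun v => (hup v).symm) (by omega)
      exact F.no_num W K Q hx' (by omega)
        (fun k hk hk' => by rw [hn k (by omega), h3 k hk hk'])
        (by rw [hn 13 (by omega), h2]) (by rw [hn 3 (by omega), h5])
    · exact hne (W.nat_up_inj L hx hx' hup (by omega) (by omega))

end

/-- **No twins of the cells `(2, 12)` at `j = 13`**, from the typing at window `4`. -/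
theorem noE2_13_nz (K : Ctx P r 13 lo hi e) (hJ : ∃ z : P, Hul.Jn z)
    (hown : ∀ (N : Tops P → Finset P) (θ3 θ4 : Tops P → P → ℕ) (K3 V : ℕ),
      Sy P 13 lo hi N θ3 θ4 → Wk r 13 3 K3 N (fun t => hi t 3 - lo t 3 + 1) θ3 →
      MnT 13 3 N (fun t => hi t 3 - lo t 3 + 1) θ3 V → 11 ^ 2 + 55 ≤ V →
      (∀ z x x' : P, Cg z x x' → 145 ≤ ful 4 z) →
      Nz5 P N (fun t => hi t 3 - lo t 3 + 1) θ3 θ4) : NoE2 P 13 := by
  refine K.noE2_13_of hJ fun x x' hne hl hup h3 h2 h5 => ?_
  obtain ⟨N, θ3, θ4, Nf, θf, D, S, F0⟩ := exists_fs K (by norm_num)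
  obtain ⟨θ5, F⟩ := F0.exists5
  obtain ⟨V, v, hB, hb, M, W, hv⟩ := ps13 K hJ S
  exact F.no_twin W K (hown N θ3 θ4 _ v S W M hv (low4_13 K)) S.unq3 hne hl hup h3 h2 h5

end Pool.Agent.GaussPoset.Ec

end

/-! From `Pool.Agent.W_448s7s_h5.TuQ` -/

section

/-!
# S7 for `j = 13` (MP_448cb3_co): no joins of level `14`
-/

namespace Pool.Agent.GaussPoset.Ec

set_option linter.unusedSectionVars false

open Polynomial Finset Sm Wd Cp W4 Cl

universe u

variable {P : Type u} [Fintype P] [PartialOrder P] [DecidableEq P] {r : ℕ}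
  {lo hi : Tops P → ℕ → ℕ} {e : Tops P → ℕ → ℕ → P}

/-- **no twins of the cells `(2, 12)` at `j = 13`** -/
theorem noE2_13 (K : Ctx P r 13 lo hi e) (hJ : ∃ z : P, Hul.Jn z) : NoE2 P 13 :=
  noE2_13_nz K hJ fun N θ3 θ4 K3 V S W M hV hjn => by
    obtain ⟨h1, h2, h3⟩ := own13 S W M hV (n := 145) (by norm_num) hjn
    refine ⟨h1, h2, fun z hz hc => ?_⟩
    rcases h3 z hz hc with h | h | ⟨-, h, h', h''⟩
    · exact Or.inl h
    · exact Or.inr (Or.inl h)
    · exact Or.inr (Or.inr ⟨h, h', h''⟩)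

end Pool.Agent.GaussPoset.Ec

namespace Pool.Agent.GaussPoset.Sm

open Finset

universe u

variable {P : Type u} [Fintype P] [PartialOrder P] [DecidableEq P] {r : ℕ}
  {lo hi : Tops P → ℕ → ℕ} {e : Tops P → ℕ → ℕ → P}

/-- **S7 for `j = 13`: no joins of level `14`.** -/
theorem Ctx.no_join13 (K : Ctx P r 13 lo hi e) {z : P} (hl : lev z = 14) : ¬ Hul.Jn z :=
  fun hz => no_join13e K (Ec.noE2_13 K ⟨z, hz⟩) hl hz

end Pool.Agent.GaussPoset.Sm

end
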