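import Mathlib
import Pool.Agent.W_448zz_h61.Ns
import Pool.Agent.W_448zz_h61.M148
import Pool.Agent.W_448zz_h61.M158

/-! From `Pool.Agent.W_448j6_h22.KbA` -/

section

/-!
MP_448cb3_co, G2, case B, window `j`: the component with a lower and an upper unmatched double which share a site:
the coefficient (1,0) and the form without the hypothesis `w32 = 0`.
-/

namespace Pool.Agent.GaussPoset.Win.W4

set_option linter.unusedSectionVars false

open Finset
open Pool.Agent.GaussPoset.Win.So (IV IV_chi IV_Fe)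
open Pool.Agent.GaussPoset.Win.SO (LowD UppD val_gen PN vp con on)

universe u

variable {P : Type u} [Fintype P] [PartialOrder P] [DecidableEq P] {r i : ℕ}
variable {e f : P → ℕ} {psi : P → P} {C K : Finset P} {w v : P}

lemma coeff_one_xx_sq : PowerSeries.coeff 1 (xx ^ 2 : A) = -2 := by
  have h : (xx ^ 2 : A) = dd * (dd - 2) + 1 := by unfold xx; ring
  rw [h, map_add]
  have h1 : PowerSeries.coeff 1 (dd * (dd - 2) : A) = PowerSeries.coeff 0 (dd - 2 : A) := by
    unfold dd
    exact PowerSeries.coeff_succ_X_mul 0 _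
  rw [h1, map_sub]
  have h2 : PowerSeries.coeff 0 (dd : A) = 0 := by unfold dd; simp
  have h3 : PowerSeries.coeff 0 (2 : A) = 2 := by
    rw [PowerSeries.coeff_zero_eq_constantCoeff_apply]
    exact map_ofNat (PowerSeries.constantCoeff (R := ℤ)) 2
  have h4 : PowerSeries.coeff 1 (1 : A) = 0 := by
    rw [PowerSeries.coeff_one, if_neg one_ne_zero]
  rw [h2, h3, h4]
  norm_num

lemma coeff_one_xi : PowerSeries.coeff 1 (xi : A) = -1 := by
  unfold xi
  rw [map_neg, PowerSeries.coeff_mk]

/-- label one on a double near element, second coefficient -/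
lemma single_dbl (H : Gr P r) (hi : 1 ≤ i) (hi2 : i + 1 ≤ r) (hC : Part (i + 1) C) {x : P}
    (hx : x ∈ near P i) (hxC : x ∈ C) (h2 : (nz i x).card = 2) :
    lc (st i C).card 0 (tC i C (Pi.single x 1)) = if lev x = i + 1 then -2 else -1 := by
  have hir : i ≤ r := by omega
  have hS : Sc i (0 : P → ℕ) := fun x _ => rfl
  have hs : Spt C (0 : P → ℕ) := fun x _ => rfl
  obtain ⟨a1, a2, h1, h2', o0, c0⟩ := hS.val (C := C) H hi hi2
  have hT : x ∉ Tch i (0 : P → ℕ) := by
    rw [hS.tch H]; exact notMem_empty x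
  have hdis : Disjoint (AL i (0 : P → ℕ)) (AU i (0 : P → ℕ)) := by
    rw [h1]; exact disjoint_empty_left _
  have ht : tC i C (0 : P → ℕ) = dd ^ (st i C).card := by
    have D : LowD i (0 : P → ℕ) (∅ : Finset P) ∅ ∅ := SO.low_none H fun z hz => rfl
    have D' : UppD i (0 : P → ℕ) (∅ : Finset P) ∅ ∅ := SO.upp_none H hir fun z hz => rfl
    have e1 := D.AL_eq
    have e2 := D'.AU_eq
    unfold tC cw
    rw [e1, e2, if_pos (disjoint_empty_left _), if_pos ⟨D.adm, D'.adm⟩, D.aL_eq, D'.aU_eq,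
      D.pL_eq, D'.pU_eq, card_empty]
    simp
  have hk : kz i (0 : P → ℕ) x 1 = nz i x := kz_eq_iff.2 fun y _ => by
    show (0 : ℕ) < 1
    omega
  have hKO : KO i (0 : P → ℕ) x = ∅ ∧ KP i (0 : P → ℕ) x = ∅ := by
    unfold KO KP
    rw [h1, h2']
    exact ⟨ite_self _, ite_self _⟩
  have key := (add_near H hir hC hs hdis hx hxC hT rfl 1).2
    (by rw [hKO.2]; exact disjoint_empty_right _)
  rw [hKO.1, sdiff_empty, hk, h2, zero_add, ht] at key
  have hf : fz i (0 : P → ℕ) x 1 = if lev x = i + 1 then dd else xi * dd := by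
    unfold fz
    rw [if_pos hk]
  rw [hf] at key
  unfold lc
  rw [pow_zero, one_mul]
  have hsh : ∀ Y : A, PowerSeries.coeff (st i C).card Y =
      PowerSeries.coeff ((st i C).card + 1) (dd * Y : A) := by
    intro Y
    unfold dd
    exact (PowerSeries.coeff_succ_X_mul _ _).symm
  have hpo : ∀ Y : A, PowerSeries.coeff ((st i C).card + 1) (Y * dd ^ (st i C).card : A) =
      PowerSeries.coeff 1 Y := by
    intro Y
    rw [mul_comm, add_comm]
    unfold dd
    exact PowerSeries.coeff_X_pow_mul Y (st i C).card 1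
  rw [hsh]
  by_cases hl : lev x = i + 1
  · rw [if_pos hl] at key ⊢
    have hg : gz i x = xx := by unfold gz; rw [if_pos hl]
    rw [hg] at key
    have k2 : dd * tC i C (Pi.single x 1) = xx ^ 2 * dd ^ (st i C).card := by
      refine dd_cancel ?_
      linear_combination key
    rw [k2, hpo, coeff_one_xx_sq]
  · rw [if_neg hl] at key ⊢
    have hg : gz i x = 1 := by unfold gz; rw [if_neg hl]
    rw [hg] at key
    have k2 : dd * tC i C (Pi.single x 1) = xi * dd ^ (st i C).card := by
      refine dd_cancel ?_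
      linear_combination key
    rw [k2, hpo, coeff_one_xi]

section

variable (Q : K5 r i K psi C w v) {p q s : P} (hw : uc w = {p, q}) (hv : dc v = {q, s})
  (hpq : p ≠ q) (hqs : q ≠ s) (hps : p ≠ s)
include Q hw hv hpq hqs hps

/-- THE COEFFICIENT (1,0) -/
theorem K5.c1 : I2.c1 (st i C).card (ZS i C) = (st i C).card + Vc i K C - 3 := by
  classical
  obtain ⟨hw2, hv2, hq, hq'⟩ := Q.cards hw hv hpq hqs hps
  have hS : Sc i (0 : P → ℕ) := fun x _ => rfl
  have hs : Spt C (0 : P → ℕ) := fun x _ => rfl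
  obtain ⟨a1, a2, h1, h2, o0, c0⟩ := hS.val (C := C) Q.H Q.hi Q.hi2
  have h0 : I2.c1 (st i C).card (ZS i C) = lc (st i C).card 0 (ZC i C 1) := by
    unfold I2.c1 lc
    rw [coeff_ZS, pow_zero, one_mul]
  have hac : ∀ x : P, ∀ a, Ac i (0 : P → ℕ) x a := fun x a =>
    Or.inr (by rw [hS.tch Q.H]; exact notMem_empty x)
  have hsp : ∀ x ∈ C, Spt C (Pi.single x 1 : P → ℕ) := by
    intro x hx y hy
    rw [Pi.single_apply, if_neg]
    rintro rfl
    exact hy hx
  -- the labels on w and v
  have j1 : lc (st i C).card 0 (Jx i K psi C w v 0 0 1 0) = -1 := by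
    unfold Jx
    rw [if_pos ⟨hac _ _, hac _ _⟩, Pi.single_zero, add_zero, zero_add,
      JK_zero Q.H Q.hir Q.part (hsp v Q.vC),
      single_dbl Q.H Q.hi Q.hi2 Q.hC Q.nv Q.vC hv2, if_neg (by have := Q.lv0; omega)]
  have j2 : lc (st i C).card 0 (Jx i K psi C w v 0 1 0 0) = -2 := by
    unfold Jx
    rw [if_pos ⟨hac _ _, hac _ _⟩, Pi.single_zero, add_zero, zero_add,
      JK_zero Q.H Q.hir Q.part (hsp w Q.wC),
      single_dbl Q.H Q.hi Q.hi2 Q.hC Q.nw Q.wC hw2, if_pos Q.lw0]
  -- the matched near elements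
  have j3 : lc (st i C).card 0 (Jx i K psi C w v 0 0 0 1) = Vc i K C := by
    unfold Jx
    rw [if_pos ⟨hac _ _, hac _ _⟩, Pi.single_zero, Pi.single_zero, add_zero, zero_add]
    rw [JK_one Q.H Q.hi Q.hi2 Q.hM Q.hC hs (fun _ _ => rfl)
      (by rw [h1]; exact disjoint_empty_left _) o0, c0, mul_one,
      om_killed (e := (0 : P → ℕ)) Q.H Q.hi Q.hi2 Q.hM Q.hC (fun y _ => rfl)
        (fun x hx hn => absurd (hS.RK Q.H hx) hn), h1, h2, union_empty, sum_empty, add_zero]
    have : mm i K C (∅ : Finset P) = 0 := by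
      unfold mm
      rw [Nat.cast_eq_zero, card_eq_zero, filter_eq_empty_iff]
      rintro x hx ⟨hd, hsub⟩
      have := (dbL_nz hd).2
      rw [subset_empty.1 hsub] at this
      simp at this
    rw [this, sub_zero]
  -- the sites
  have j4 : ∑ e ∈ Co i K psi C 1, lc (st i C).card 0 (Jx i K psi C w v e 0 0 0) =
      (st i C).card := by
    have h4 : ∑ e ∈ (st i C).image (fun f => (Pi.single f 1 : P → ℕ)),
        lc (st i C).card 0 (Jx i K psi C w v e 0 0 0) =
        ∑ e ∈ Co i K psi C 1, lc (st i C).card 0 (Jx i K psi C w v e 0 0 0) := by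
      refine sum_subset ?_ ?_
      · intro e he
        obtain ⟨f, hf, rfl⟩ := mem_image.1 he
        have hf' := mem_st.1 hf
        have hSf : Sc i (Pi.single f 1 : P → ℕ) := by
          intro x hx
          rw [Pi.single_apply, if_neg]
          rintro rfl
          exact hx hf'.2
        refine mem_Co.2 ⟨?_, ?_, hSf.core Q.H⟩
        · simp
        · intro x hx
          rw [Pi.single_apply, if_neg]
          rintro rfl
          exact hx hf'.1
      · intro e he hn
        rcases Q.Co1_cases hw hv hpq hqs hps he with ⟨f, hf, rfl⟩ | hz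
        · exact absurd (mem_image.2 ⟨f, hf, rfl⟩) hn
        · rw [hz, lc_zero]
    rw [← h4, sum_image]
    · have : ∀ f ∈ st i C, lc (st i C).card 0
          (Jx i K psi C w v (Pi.single f 1 : P → ℕ) 0 0 0) = 1 := by
        intro f hf
        have hf' := mem_st.1 hf
        have hSf : Sc i (Pi.single f 1 : P → ℕ) := by
          intro x hx
          rw [Pi.single_apply, if_neg]
          rintro rfl
          exact hx hf'.2
        have hsf : Spt C (Pi.single f 1 : P → ℕ) := by
          intro x hx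
          rw [Pi.single_apply, if_neg]
          rintro rfl
          exact hx hf'.1
        rw [Q.Jx0 (hSf.core Q.H) hsf]
        exact (hSf.val (C := C) Q.H Q.hi Q.hi2).2.2.2.2.2
      rw [sum_congr rfl this]
      simp
    · intro f _ g _ hfg
      have := congrFun (show (Pi.single f 1 : P → ℕ) = Pi.single g 1 from hfg) f
      rw [Pi.single_eq_same, Pi.single_apply] at this
      by_contra hne
      rw [if_neg hne] at this
      omega
  rw [h0, Q.lc_ZC, sum_range_succ, sum_range_one]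
  have e1 : ∀ e : P → ℕ, ∑ p ∈ antidiagonal (1 - 0), ∑ t ∈ antidiagonal p.2,
      lc (st i C).card 0 (Jx i K psi C w v e p.1 t.1 t.2) =
      lc (st i C).card 0 (Jx i K psi C w v e 0 0 1) +
        (lc (st i C).card 0 (Jx i K psi C w v e 0 1 0) +
          lc (st i C).card 0 (Jx i K psi C w v e 1 0 0)) := fun e =>
    anti1 (fun a b m => lc (st i C).card 0 (Jx i K psi C w v e a b m))
  have e2 : ∀ e : P → ℕ, ∑ p ∈ antidiagonal (1 - 1), ∑ t ∈ antidiagonal p.2,
      lc (st i C).card 0 (Jx i K psi C w v e p.1 t.1 t.2) =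
      lc (st i C).card 0 (Jx i K psi C w v e 0 0 0) := fun e =>
    anti0 (fun a b m => lc (st i C).card 0 (Jx i K psi C w v e a b m))
  rw [sum_congr rfl fun e _ => e1 e, sum_congr rfl fun e _ => e2 e, j4, Co_zero Q.H,
    sum_singleton, j1, j2, j3]
  ring

/-- THE SUM over the pendants: `1 + w32` -/
theorem K5.w3 : I2.w3 (st i C).card (ZS i C) =
    ∑ z ∈ PN i C, vp i z * (Nx i w z - Nx i v z) - 1 := by
  rw [← Q.be3_raw hw hv hpq hqs hps]
  unfold I2.w3 lc
  rw [coeff_ZS]

/-- THE FORM of the component, `w32` free -/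
theorem K5.form_gen : I2.Q4 (st i C).card (ZS i C) =
      ∑ q ∈ M4 i C, vp i q.1 * vp i q.2 + 2 * ((Z4 i C).card - (T4 i C).card : ℤ) + 6 -
      2 * ∑ z ∈ Z4 i C, tz i z * (Nx i w z - Nx i v z) -
      ∑ z ∈ PN i C, vp i z * (ch i C z * (Nx i w z - Nx i v z) + 2 * (Mx i w z - Mx i v z)) -
      2 * ∑ z ∈ PN i C, vp i z * (Nx i w z * (dg i K C p + Ds i K C (sit i z) {p, q}) -
        Nx i v z * (dg i K C s + Ds i K C (sit i z) {q, s})) +
      2 * (dg i K C p + dg i K C s + dg i K C q - 2 * mm i K C {p, q}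
        - 2 * mm i K C {q, s} - mm i K C {p, s}) +
      2 * (∑ z ∈ PN i C, vp i z) *
        (dg i K C p - dg i K C s - mm i K C {p, q} + mm i K C {q, s}) +
      (dg i K C p - dg i K C s - mm i K C {p, q} + mm i K C {q, s}) ^ 2 +
      2 * I2.w3 (st i C).card (ZS i C) * (4 - dg i K C q) := by
  obtain ⟨hw2, hv2, hq, hq'⟩ := Q.cards hw hv hpq hqs hps
  have nw := Q.nzw hw hv hpq hqs hps
  have nv := Q.nzv hw hv hpq hqs hps
  have hb : 1 ≤ (st i C).card := by
    obtain ⟨l1, l2, l3⟩ := Q.lpq hw hv hpq hqs hps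
    obtain ⟨m1, m2, m3⟩ := Q.memC hw hv hpq hqs hps
    exact card_pos.2 ⟨p, mem_st.2 ⟨m1, l1⟩⟩
  unfold I2.Q4
  rw [Q.c1 hw hv hpq hqs hps, Q.w3 hw hv hpq hqs hps, Q.be4 hw hv hpq hqs hps,
    Q.be4_raw hw hv hpq hqs hps hb, Q.al2 hw hv hpq hqs hps]
  have e1 : ∑ z ∈ PN i C, vp i z * (Nx i w z * (1 + Dg i K C (sit i z ∪ nz i w)) -
      Nx i v z * (1 + Dg i K C (sit i z ∪ nz i v))) =
      (1 + Vc i K C + dg i K C q) * ∑ z ∈ PN i C, vp i z * (Nx i w z - Nx i v z) +
      ∑ z ∈ PN i C, vp i z * (Nx i w z * (dg i K C p + Ds i K C (sit i z) {p, q}) -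
        Nx i v z * (dg i K C s + Ds i K C (sit i z) {q, s})) := by
    rw [mul_sum, ← sum_add_distrib]
    refine sum_congr rfl fun z _ => ?_
    have a1 : Nx i w z * (1 + Dg i K C (sit i z ∪ nz i w)) =
        Nx i w z * (1 + (Vc i K C + (dg i K C p + dg i K C q) + Ds i K C (sit i z) {p, q})) := by
      unfold Nx
      by_cases h : Disjoint (nz i w) (sit i z)
      · rw [Dg_split Q hw hv hpq hqs hps h, nw, sum_pair hpq]
      · rw [if_neg h, zero_mul, zero_mul]
    have a2 : Nx i v z * (1 + Dg i K C (sit i z ∪ nz i v)) =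
        Nx i v z * (1 + (Vc i K C + (dg i K C q + dg i K C s) + Ds i K C (sit i z) {q, s})) := by
      unfold Nx
      by_cases h : Disjoint (nz i v) (sit i z)
      · rw [Dg_split Q hw hv hpq hqs hps h, nv, sum_pair hqs]
      · rw [if_neg h, zero_mul, zero_mul]
    rw [a1, a2]
    ring
  have e2 : ∑ z ∈ PN i C, vp i z * ((2 * ((st i C).card - 8) + ch i C z) *
      (Nx i w z - Nx i v z) + 2 * (Mx i w z - Mx i v z)) =
      2 * ((st i C).card - 8) * ∑ z ∈ PN i C, vp i z * (Nx i w z - Nx i v z) +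
      ∑ z ∈ PN i C, vp i z * (ch i C z * (Nx i w z - Nx i v z) + 2 * (Mx i w z - Mx i v z)) := by
    rw [mul_sum, ← sum_add_distrib]
    exact sum_congr rfl fun z _ => by ring
  have e3 := pairs_split i C
  rw [e1, e2]
  linear_combination e3

end

end Pool.Agent.GaussPoset.Win.W4

end

/-! From `Pool.Agent.W_448j6_h22.KbB` -/

section

/-!
MP_448cb3_co, G2, case B, window `j`: the pattern [DL] at the left end with `w32` free.  The proofs follow
helper15 (W_448kf_h15).
-/

namespace Pool.Agent.GaussPoset.Win.W4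

set_option linter.unusedSectionVars false

open Finset
open Pool.Agent.GaussPoset.Win.SO (PN vp con on mem_PN vp_PD vp_PU)

universe u

variable {P : Type u} [Fintype P] [PartialOrder P] [DecidableEq P] {r i : ℕ}
variable {psi : P → P} {C K : Finset P} {w v : P} {m : ℕ} {x : ℕ → P}

/-- the pattern [DL] at the left end, `w32` free -/
structure DLg (r i : ℕ) (K : Finset P) (psi : P → P) (C : Finset P) (w v : P) (m : ℕ) (x : ℕ → P) :
    Prop where
  W : PRow r i C m x
  Q : K5 r i K psi C w v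
  hm : 3 ≤ m
  hw : uc w = {x 0, x 1}
  hv : dc v = {x 1, x 2}
  dn : ∀ k l, k < l → l ≤ m → dcv (x k) (x l) =
    if l = k + 1 then (if k = 0 then 2 else if k = 1 then 0 else 1) else 0

/-- the logarithmic form of (4,2) plus (2,1) -/
noncomputable def Lv (i : ℕ) (C : Finset P) : ℤ :=
  I2.al 2 (st i C).card (ZS i C) + I2.Q4 (st i C).card (ZS i C)

/-- `w32` of a part -/
noncomputable def wv (i : ℕ) (C : Finset P) : ℤ := I2.w3 (st i C).card (ZS i C)

namespace DLg

variable (h : DLg r i K psi C w v m x)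
include h

lemma hd : ∀ k l, k < l → l ≤ m → l ≠ k + 1 → dcv (x k) (x l) = 0 := by
  intro k l h1 h2 h3
  rw [h.dn k l h1 h2, if_neg h3]

lemma nw : nz i w = ed x 0 := by
  rw [nz_low h.Q.lw0, h.hw]
  rfl

lemma nv : nz i v = ed x 1 := by
  rw [nz_upp h.Q.lv0, h.hv]
  rfl

lemma n01 : x 0 ≠ x 1 := h.W.ne (by omega) (by have := h.hm; omega) (by omega)
lemma n12 : x 1 ≠ x 2 := h.W.ne (by have := h.hm; omega) (by have := h.hm; omega) (by omega)
lemma n02 : x 0 ≠ x 2 := h.W.ne (by omega) (by have := h.hm; omega) (by omega)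

/-- `Nx` at an edge -/
lemma Nw {k : ℕ} (hk : k < m) : (if Disjoint (nz i w) (ed x k) then (1 : ℤ) else 0) =
    if 2 ≤ k then 1 else 0 := by
  have := h.hm
  have e : Disjoint (nz i w) (ed x k) ↔ 2 ≤ k := by
    rw [h.nw, h.W.disj_ed (by omega) hk]
    omega
  simp only [e]

lemma Nv {k : ℕ} (hk : k < m) : (if Disjoint (nz i v) (ed x k) then (1 : ℤ) else 0) =
    if 3 ≤ k then 1 else 0 := by
  have := h.hm
  have e : Disjoint (nz i v) (ed x k) ↔ 3 ≤ k := by
    rw [h.nv, h.W.disj_ed (by omega) hk]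
    omega
  simp only [e]

lemma Mw {k : ℕ} (hk : k < m) : (if (nz i w ∩ ed x k).card = 1 then (1 : ℤ) else 0) =
    if k = 1 then 1 else 0 := by
  have := h.hm
  have e : ((nz i w ∩ ed x k).card = 1) ↔ k = 1 := by
    rw [h.nw, h.W.inter_ed (by omega) hk]
    omega
  simp only [e]

lemma Mv {k : ℕ} (hk : k < m) : (if (nz i v ∩ ed x k).card = 1 then (1 : ℤ) else 0) =
    if k = 0 ∨ k = 2 then 1 else 0 := by
  have := h.hm
  have e : ((nz i v ∩ ed x k).card = 1) ↔ k = 0 ∨ k = 2 := by
    rw [h.nv, h.W.inter_ed (by omega) hk]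
    omega
  simp only [e]

/-- nothing over the lost pair -/
lemma DE1 : DE i C x 1 = ∅ := by
  classical
  have hm := h.hm
  rw [eq_empty_iff_forall_notMem]
  intro z hz
  obtain ⟨hzC, hz1, hz2⟩ := mem_DE.1 hz
  obtain ⟨-, y, -, -, -, -, -, hor⟩ := PN_dat h.W.H (C := C) (mem_PN.2 ⟨hzC, Or.inl hz1⟩)
  rcases hor with ⟨-, -, -, h4, h5, -⟩ | ⟨h3, -⟩
  · have ha : x 1 ∈ uc y := by
      rw [← h5, hz2]; exact (h.W.mem_ed (by omega) (by omega)).2 (Or.inl rfl)
    have hb : x 2 ∈ uc y := by
      rw [← h5, hz2]; exact (h.W.mem_ed (by omega) (by omega)).2 (Or.inr rfl)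
    have h3 := h.dn 1 2 (by omega) (by omega)
    rw [if_pos rfl, if_neg (by omega), if_pos rfl] at h3
    unfold dcv at h3
    rw [card_eq_zero, filter_eq_empty_iff] at h3
    exact h3 (mem_univ y) ⟨mem_uc.1 ha, mem_uc.1 hb⟩
  · have := lev_PU h3
    have := lev_PD hz1
    omega

lemma NE1 : NE i C x 1 = 0 := by
  unfold NE
  rw [h.DE1, h.W.ue_inner (by omega) h.hm]
  simp

/-- sums over the pendants -/
lemma sum_PN (f : P → ℤ) (g : Finset P → ℤ) : ∑ z ∈ PN i C, f z * g (sit i z) =
    ∑ k ∈ range m, (∑ z ∈ (PN i C).filter (fun z => sit i z = ed x k), f z) * g (ed x k) :=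
  h.W.group h.hd f g

lemma sum_vp_split : ∑ z ∈ PN i C, vp i z = NE i C x 0 + NE i C x 2 + ∑ k ∈ Ico 3 m, NE i C x k := by
  have e1 := h.sum_PN (fun z => vp i z) (fun _ => 1)
  simp only [mul_one] at e1
  rw [e1]
  simp only [← NE_eq]
  rw [range_split h.hm, h.NE1]
  ring

/-- `w32 = N_2 - 1` -/
lemma w3_eq : wv i C = NE i C x 2 - 1 := by
  have hm := h.hm
  unfold wv
  rw [h.Q.w3 h.hw h.hv h.n01 h.n12 h.n02]
  have e1 := h.sum_PN (fun z => vp i z) (fun T => (if Disjoint (nz i w) T then (1 : ℤ) else 0) -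
    (if Disjoint (nz i v) T then (1 : ℤ) else 0))
  have e2 : ∑ z ∈ PN i C, vp i z * ((if Disjoint (nz i w) (sit i z) then (1 : ℤ) else 0) -
    (if Disjoint (nz i v) (sit i z) then (1 : ℤ) else 0)) =
    ∑ z ∈ PN i C, vp i z * (Nx i w z - Nx i v z) := rfl
  rw [e2] at e1
  simp only [← NE_eq] at e1
  rw [sum_congr rfl (g := fun k => NE i C x k * ((if 2 ≤ k then 1 else 0) -
    (if 3 ≤ k then 1 else 0)))] at e1
  · rw [range_split hm] at e1
    have e3 : ∑ k ∈ Ico 3 m, NE i C x k * ((if 2 ≤ k then 1 else 0) -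
        (if 3 ≤ k then (1 : ℤ) else 0)) = 0 := by
      refine sum_eq_zero fun k hk => ?_
      rw [mem_Ico] at hk
      rw [if_pos (by omega), if_pos (by omega)]
      ring
    rw [e3] at e1
    norm_num at e1
    rw [e1]
  · intro k hk
    rw [mem_range] at hk
    rw [h.Nw hk, h.Nv hk]

/-- the children of the pendants -/
lemma sum_ch : ∑ z ∈ PN i C, vp i z * (ch i C z * (Nx i w z - Nx i v z)) = CH i C x 2 := by
  have hm := h.hm
  have e1 := h.sum_PN (fun z => vp i z * ch i C z)
    (fun T => (if Disjoint (nz i w) T then (1 : ℤ) else 0) -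
      (if Disjoint (nz i v) T then (1 : ℤ) else 0))
  have e2 : ∑ z ∈ PN i C, vp i z * (ch i C z * (Nx i w z - Nx i v z)) =
      ∑ z ∈ PN i C, vp i z * ch i C z * ((if Disjoint (nz i w) (sit i z) then (1 : ℤ) else 0) -
      (if Disjoint (nz i v) (sit i z) then (1 : ℤ) else 0)) := by
    refine sum_congr rfl fun z _ => ?_
    unfold Nx
    ring
  rw [e2, e1]
  have e0 : ∀ k, ∑ z ∈ (PN i C).filter (fun z => sit i z = ed x k), vp i z * ch i C z =
    CH i C x k := fun k => rfl
  simp only [e0]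
  rw [sum_congr rfl (g := fun k => CH i C x k * ((if 2 ≤ k then 1 else 0) -
    (if 3 ≤ k then 1 else 0)))]
  · rw [range_split hm]
    have e3 : ∑ k ∈ Ico 3 m, CH i C x k * ((if 2 ≤ k then 1 else 0) -
        (if 3 ≤ k then (1 : ℤ) else 0)) = 0 := by
      refine sum_eq_zero fun k hk => ?_
      rw [mem_Ico] at hk
      rw [if_pos (by omega), if_pos (by omega)]
      ring
    rw [e3]
    norm_num
  · intro k hk
    rw [mem_range] at hk
    rw [h.Nw hk, h.Nv hk]

/-- the pendants which meet a double in one site -/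
lemma sum_mx : ∑ z ∈ PN i C, vp i z * (Mx i w z - Mx i v z) = - NE i C x 0 - NE i C x 2 := by
  have hm := h.hm
  have e1 := h.sum_PN (fun z => vp i z)
    (fun T => (if (nz i w ∩ T).card = 1 then (1 : ℤ) else 0) -
      (if (nz i v ∩ T).card = 1 then (1 : ℤ) else 0))
  have e2 : ∑ z ∈ PN i C, vp i z * (Mx i w z - Mx i v z) =
      ∑ z ∈ PN i C, vp i z * ((if (nz i w ∩ sit i z).card = 1 then (1 : ℤ) else 0) -
      (if (nz i v ∩ sit i z).card = 1 then (1 : ℤ) else 0)) := rfl
  rw [e2, e1]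
  simp only [← NE_eq]
  rw [sum_congr rfl (g := fun k => NE i C x k * ((if k = 1 then 1 else 0) -
    (if k = 0 ∨ k = 2 then 1 else 0)))]
  · rw [range_split hm]
    have e3 : ∑ k ∈ Ico 3 m, NE i C x k * ((if k = 1 then 1 else 0) -
        (if k = 0 ∨ k = 2 then (1 : ℤ) else 0)) = 0 := by
      refine sum_eq_zero fun k hk => ?_
      rw [mem_Ico] at hk
      rw [if_neg (by omega), if_neg (by omega)]
      ring
    rw [e3, h.NE1]
    norm_num
    ring
  · intro k hk
    rw [mem_range] at hk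
    rw [h.Mw hk, h.Mv hk]

/-- matched lower doubles over a pair -/
lemma mmx {a b : ℕ} (hab : a < b) (hb : b ≤ m) : mm i K C {x a, x b} =
    if b = a + 1 then (if a = 1 then 0 else 1) else 0 := by
  have hm := h.hm
  rw [h.Q.mm_pair (h.W.mem a (by omega)) (h.W.lev_x a (by omega))
    (h.W.ne (by omega) hb (by omega)), h.dn a b hab hb]
  have e : (uc w = {x a, x b}) ↔ (a = 0 ∧ b = 1) := by
    rw [h.hw]
    constructor
    · intro h1
      have h2 : x a ∈ ({x 0, x 1} : Finset P) := by rw [h1]; exact mem_insert_self _ _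
      have h3 : x b ∈ ({x 0, x 1} : Finset P) := by
        rw [h1]; exact mem_insert_of_mem (mem_singleton_self _)
      rw [mem_insert, mem_singleton] at h2 h3
      rcases h2 with h2 | h2
      · have := h.W.inj _ _ (by omega) (by omega) h2
        rcases h3 with h3 | h3
        · have := h.W.inj _ _ (by omega) (by omega) h3
          omega
        · have := h.W.inj _ _ (by omega) (by omega) h3
          omega
      · have := h.W.inj _ _ (by omega) (by omega) h2
        rcases h3 with h3 | h3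
        · have := h.W.inj _ _ (by omega) (by omega) h3
          omega
        · have := h.W.inj _ _ (by omega) (by omega) h3
          omega
    · rintro ⟨rfl, rfl⟩
      rfl
  simp only [e]
  split_ifs <;> first | omega | contradiction

lemma mmx' {a b : ℕ} (hab : a < b) (hb : b ≤ m) : mm i K C {x b, x a} =
    if b = a + 1 then (if a = 1 then 0 else 1) else 0 := by
  rw [pair_comm]
  exact h.mmx hab hb

/-- no pendants at the ends of the doubled pair -/
lemma deg0 : (dc (x 0)).card = 2 := by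
  have hm := h.hm
  have h1 := h.W.deg (k := 0) (by omega)
  have h2 := h.W.dc_le (k := 0) (by omega)
  have h3 : dcv (x 0) (x 1) ≤ ∑ l ∈ (range (m + 1)).erase 0, dcv (x 0) (x l) :=
    single_le_sum (f := fun l => dcv (x 0) (x l)) (fun _ _ => Nat.zero_le _)
      (mem_erase.2 ⟨by omega, mem_range.2 (by omega)⟩)
  rw [h.dn 0 1 (by omega) (by omega), if_pos rfl, if_pos rfl] at h3
  omega

lemma dns {k l : ℕ} (hk : k ≤ m) (hl : l ≤ m) (hkl : k ≠ l) : dcv (x k) (x l) =
    if l = k + 1 then (if k = 0 then 2 else if k = 1 then 0 else 1) else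
      if k = l + 1 then (if l = 0 then 2 else if l = 1 then 0 else 1) else 0 := by
  rcases Nat.lt_or_gt_of_ne hkl with h1 | h1
  · rw [h.dn k l h1 hl]
    split_ifs <;> first | omega | contradiction
  · rw [kf_dcv_comm, h.dn l k h1 hk]
    split_ifs <;> first | omega | contradiction

lemma deg1 : (dc (x 1)).card = 2 := by
  have hm := h.hm
  have h1 := h.W.deg (k := 1) (by omega)
  have h2 := h.W.dc_le (k := 1) (by omega)
  have h3 : dcv (x 1) (x 0) ≤ ∑ l ∈ (range (m + 1)).erase 1, dcv (x 1) (x l) :=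
    single_le_sum (f := fun l => dcv (x 1) (x l)) (fun _ _ => Nat.zero_le _)
      (mem_erase.2 ⟨by omega, mem_range.2 (by omega)⟩)
  rw [h.dns (by omega) (by omega) (by omega)] at h3
  norm_num at h3
  omega

lemma deg2 : (dc (x 2)).card = 1 + (pen (x 2)).card := by
  have hm := h.hm
  have h1 := h.W.deg (k := 2) (by omega)
  rw [sum_eq_single 3] at h1
  · rw [h.dns (by omega) (by omega) (by omega)] at h1
    norm_num at h1
    omega
  · intro l hl hne
    rw [mem_erase, mem_range] at hl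
    rw [h.dns (by omega) (by omega) (Ne.symm hl.1)]
    split_ifs <;> first | omega | contradiction
  · intro h2
    exact absurd (mem_erase.2 ⟨by omega, mem_range.2 (by omega)⟩) h2

lemma deg3 (hm4 : 4 ≤ m) : (dc (x 3)).card = 2 := by
  have h1 := h.W.deg (k := 3) (by omega)
  have h2 := h.W.dc_le (k := 3) (by omega)
  have h3 : ∑ l ∈ ({2, 4} : Finset ℕ), dcv (x 3) (x l) ≤
      ∑ l ∈ (range (m + 1)).erase 3, dcv (x 3) (x l) := by
    refine sum_le_sum_of_subset ?_
    intro l hl
    rw [mem_insert, mem_singleton] at hl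
    rw [mem_erase, mem_range]
    omega
  rw [sum_pair (by omega), h.dns (by omega) (by omega) (by omega),
    h.dns (by omega) (by omega) (by omega)] at h3
  norm_num at h3
  omega

/-- the matched near elements at the sites -/
lemma dg0 : dg i K C (x 0) = (uc (x 0)).card + 1 := by
  have hm := h.hm
  rw [h.Q.dg_eq (h.W.mem 0 (by omega)) (h.W.lev_x 0 (by omega)), h.deg0, h.hw, h.hv,
    if_pos (mem_insert_self _ _), if_neg]
  · push_cast
    ring
  · rw [mem_insert, mem_singleton]
    rintro (h1 | h1)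
    · exact h.n01 h1
    · exact h.n02 h1

lemma dg1 : dg i K C (x 1) = 2 := by
  have hm := h.hm
  rw [h.Q.dg_eq (h.W.mem 1 (by omega)) (h.W.lev_x 1 (by omega)), h.deg1, h.hw, h.hv,
    h.W.uc_inner (by omega) (by omega),
    if_pos (mem_insert_of_mem (mem_singleton_self _)), if_pos (mem_insert_self _ _)]
  norm_num

lemma dg2 : dg i K C (x 2) = 2 + (pen (x 2)).card := by
  have hm := h.hm
  rw [h.Q.dg_eq (h.W.mem 2 (by omega)) (h.W.lev_x 2 (by omega)), h.deg2, h.hw, h.hv,
    h.W.uc_inner (by omega) (by omega), if_neg,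
    if_pos (mem_insert_of_mem (mem_singleton_self _))]
  · push_cast
    ring
  · rw [mem_insert, mem_singleton]
    rintro (h1 | h1)
    · exact h.n02 h1.symm
    · exact h.n12 h1.symm

lemma dg3 : dg i K C (x 3) = (dc (x 3)).card + (uc (x 3)).card := by
  have hm := h.hm
  rw [h.Q.dg_eq (h.W.mem 3 (by omega)) (h.W.lev_x 3 (by omega)), h.hw, h.hv, if_neg, if_neg]
  · ring
  · rw [mem_insert, mem_singleton]
    rintro (h1 | h1)
    · exact h.W.ne (by omega) (by omega) (by omega) h1
    · exact h.W.ne (by omega) (by omega) (by omega) h1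
  · rw [mem_insert, mem_singleton]
    rintro (h1 | h1)
    · exact h.W.ne (by omega) (by omega) (by omega) h1
    · exact h.W.ne (by omega) (by omega) (by omega) h1

/-- the weights of the pendants in the form -/
lemma Ds0 {k : ℕ} (h2 : 2 ≤ k) (hk : k < m) : Ds i K C (ed x k) {x 0, x 1} =
    dg i K C (x k) + dg i K C (x (k + 1)) - 2 := by
  have hm := h.hm
  have n : ∀ a b, a ≤ m → b ≤ m → a ≠ b → x a ≠ x b := fun a b ha hb hab => h.W.ne ha hb hab
  have e1 : mm i K C (ed x k ∪ {x 0, x 1}) = 2 := by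
    unfold ed
    rw [mm_four (n _ _ (by omega) (by omega) (by omega)) (n _ _ (by omega) (by omega) (by omega))
      (n _ _ (by omega) (by omega) (by omega)) (n _ _ (by omega) (by omega) (by omega))
      (n _ _ (by omega) (by omega) (by omega)) (n _ _ (by omega) (by omega) (by omega)),
      h.mmx (by omega) (by omega), h.mmx (by omega) (by omega), h.mmx' (by omega) (by omega),
      h.mmx' (by omega) (by omega), h.mmx' (by omega) (by omega), h.mmx' (by omega) (by omega)]
    split_ifs <;> first | omega | contradiction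
  unfold Ds
  rw [e1]
  have e2 : ed x k = {x k, x (k + 1)} := rfl
  rw [e2, sum_pair (n _ _ (by omega) (by omega) (by omega))]

lemma Ds1 {k : ℕ} (h2 : 3 ≤ k) (hk : k < m) : Ds i K C (ed x k) {x 1, x 2} =
    dg i K C (x k) + dg i K C (x (k + 1)) - 1 - (if k = 3 then 1 else 0) := by
  have hm := h.hm
  have n : ∀ a b, a ≤ m → b ≤ m → a ≠ b → x a ≠ x b := fun a b ha hb hab => h.W.ne ha hb hab
  have e1 : mm i K C (ed x k ∪ {x 1, x 2}) = 1 + (if k = 3 then 1 else 0) := by
    unfold ed
    rw [mm_four (n _ _ (by omega) (by omega) (by omega)) (n _ _ (by omega) (by omega) (by omega))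
      (n _ _ (by omega) (by omega) (by omega)) (n _ _ (by omega) (by omega) (by omega))
      (n _ _ (by omega) (by omega) (by omega)) (n _ _ (by omega) (by omega) (by omega)),
      h.mmx (by omega) (by omega), h.mmx (by omega) (by omega), h.mmx' (by omega) (by omega),
      h.mmx' (by omega) (by omega), h.mmx' (by omega) (by omega), h.mmx' (by omega) (by omega)]
    split_ifs <;> first | omega | contradiction
  unfold Ds
  rw [e1]
  have e2 : ed x k = {x k, x (k + 1)} := rfl
  rw [e2, sum_pair (n _ _ (by omega) (by omega) (by omega))]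
  ring

/-- the weighted sum of the form -/
lemma sum_big (hm4 : 4 ≤ m) :
    ∑ z ∈ PN i C, vp i z * (Nx i w z * (dg i K C (x 0) + Ds i K C (sit i z) {x 0, x 1}) -
        Nx i v z * (dg i K C (x 2) + Ds i K C (sit i z) {x 1, x 2})) =
      NE i C x 2 * (dg i K C (x 0) + dg i K C (x 2) + dg i K C (x 3) - 2) +
      (dg i K C (x 0) - dg i K C (x 2) - 1) * ∑ k ∈ Ico 3 m, NE i C x k + NE i C x 3 := by
  have hm := h.hm
  have e1 := h.sum_PN (fun z => vp i z)
    (fun T => (if Disjoint (nz i w) T then (1 : ℤ) else 0) *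
      (dg i K C (x 0) + Ds i K C T {x 0, x 1}) -
      (if Disjoint (nz i v) T then (1 : ℤ) else 0) * (dg i K C (x 2) + Ds i K C T {x 1, x 2}))
  have e2 : ∑ z ∈ PN i C, vp i z * (Nx i w z * (dg i K C (x 0) + Ds i K C (sit i z) {x 0, x 1}) -
        Nx i v z * (dg i K C (x 2) + Ds i K C (sit i z) {x 1, x 2})) =
      ∑ z ∈ PN i C, vp i z * ((if Disjoint (nz i w) (sit i z) then (1 : ℤ) else 0) *
      (dg i K C (x 0) + Ds i K C (sit i z) {x 0, x 1}) -
      (if Disjoint (nz i v) (sit i z) then (1 : ℤ) else 0) *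
        (dg i K C (x 2) + Ds i K C (sit i z) {x 1, x 2})) := rfl
  rw [e2, e1]
  simp only [← NE_eq]
  rw [range_split hm]
  have v0 : (if Disjoint (nz i w) (ed x 0) then (1 : ℤ) else 0) = 0 := by
    rw [h.Nw (by omega)]; norm_num
  have v1 : (if Disjoint (nz i w) (ed x 1) then (1 : ℤ) else 0) = 0 := by
    rw [h.Nw (by omega)]; norm_num
  have v2 : (if Disjoint (nz i w) (ed x 2) then (1 : ℤ) else 0) = 1 := by
    rw [h.Nw (by omega)]; norm_num
  have u0 : (if Disjoint (nz i v) (ed x 0) then (1 : ℤ) else 0) = 0 := by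
    rw [h.Nv (by omega)]; norm_num
  have u1 : (if Disjoint (nz i v) (ed x 1) then (1 : ℤ) else 0) = 0 := by
    rw [h.Nv (by omega)]; norm_num
  have u2 : (if Disjoint (nz i v) (ed x 2) then (1 : ℤ) else 0) = 0 := by
    rw [h.Nv (by omega)]; norm_num
  have e3 : ∑ k ∈ Ico 3 m, NE i C x k * ((if Disjoint (nz i w) (ed x k) then (1 : ℤ) else 0) *
      (dg i K C (x 0) + Ds i K C (ed x k) {x 0, x 1}) -
      (if Disjoint (nz i v) (ed x k) then (1 : ℤ) else 0) *
        (dg i K C (x 2) + Ds i K C (ed x k) {x 1, x 2})) =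
      (dg i K C (x 0) - dg i K C (x 2) - 1) * ∑ k ∈ Ico 3 m, NE i C x k + NE i C x 3 := by
    have e4 : ∀ k ∈ Ico 3 m, NE i C x k * ((if Disjoint (nz i w) (ed x k) then (1 : ℤ) else 0) *
        (dg i K C (x 0) + Ds i K C (ed x k) {x 0, x 1}) -
        (if Disjoint (nz i v) (ed x k) then (1 : ℤ) else 0) *
          (dg i K C (x 2) + Ds i K C (ed x k) {x 1, x 2})) =
        (dg i K C (x 0) - dg i K C (x 2) - 1) * NE i C x k +
          (if k = 3 then NE i C x k else 0) := by
      intro k hk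
      rw [mem_Ico] at hk
      rw [h.Nw hk.2, h.Nv hk.2, if_pos (by omega), if_pos (by omega), h.Ds0 (by omega) hk.2,
        h.Ds1 hk.1 hk.2]
      split_ifs <;> ring
    rw [sum_congr rfl e4, sum_add_distrib, ← mul_sum, sum_ite_eq',
      if_pos (mem_Ico.2 ⟨le_rfl, by omega⟩)]
  rw [e3, v0, v1, v2, u0, u1, u2, h.NE1, h.Ds0 le_rfl (by omega)]
  ring

end DLg

end Pool.Agent.GaussPoset.Win.W4

end
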