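import Mathlib
import Pool.Agent.W_448zz_h61.Ns
import Pool.Agent.W_448zz_h61.M157

/-! From `Pool.Agent.W_448kf_h15.KfE` -/

section

/-!
MP_448cb3_co, G2, case B, window `j`: `F` of a part with the pattern [DL]: the form with squares, bounds
and the cases of equality.  helper15.
-/

namespace Pool.Agent.GaussPoset.Win.W4

set_option linter.unusedSectionVars false

open Finset
open Pool.Agent.GaussPoset.Win.SO (PN vp con on mem_PN vp_PD vp_PU TD)

universe u

variable {P : Type u} [Fintype P] [PartialOrder P] [DecidableEq P] {r i : ℕ}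
variable {psi : P → P} {C K : Finset P} {w v : P} {m : ℕ} {x : ℕ → P}

/-! ### sums of neighbouring products -/

/-- meeting products and the sum of a sequence -/
def QS (a : ℕ → ℤ) (s t : ℕ) : ℤ :=
  ∑ k ∈ Ico s t, a k * ∑ l ∈ Ico s t, a l * (if k ≤ l + 1 ∧ l ≤ k + 1 then 1 else 0) +
    ∑ k ∈ Ico s t, a k

lemma QS_self (a : ℕ → ℤ) (s : ℕ) : QS a s s = 0 := by
  unfold QS
  simp

lemma QS_top (a : ℕ → ℤ) {s t : ℕ} (h : s ≤ t) : QS a s (t + 1) =
    QS a s t + (if s < t then 2 * a (t - 1) * a t else 0) + a t ^ 2 + a t := by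
  have e1 : ∀ b : ℕ → ℤ, (∀ k, b k = if k ≤ t + 1 ∧ t ≤ k + 1 then 1 else 0) →
      ∑ k ∈ Ico s t, a k * b k = if s < t then a (t - 1) else 0 := by
    intro b hb
    by_cases hst : s < t
    · rw [if_pos hst, sum_eq_single (t - 1)]
      · rw [hb, if_pos (by omega), mul_one]
      · intro k hk hne
        rw [mem_Ico] at hk
        rw [hb, if_neg (by omega), mul_zero]
      · intro h1
        exact absurd (mem_Ico.2 (by omega)) h1
    · rw [if_neg hst]
      have : s = t := by omega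
      rw [this, Ico_self, sum_empty]
  have e2 : ∑ k ∈ Ico s t, a k * (if k ≤ t + 1 ∧ t ≤ k + 1 then (1 : ℤ) else 0) =
      if s < t then a (t - 1) else 0 := e1 _ fun _ => rfl
  have e3 : ∑ k ∈ Ico s t, a k * (if t ≤ k + 1 ∧ k ≤ t + 1 then (1 : ℤ) else 0) =
      if s < t then a (t - 1) else 0 := by
    refine e1 _ fun k => ?_
    simp only [and_comm]
  unfold QS
  have e6 : ∑ k ∈ Ico s (t + 1), a k = ∑ k ∈ Ico s t, a k + a t := sum_Ico_succ_top h _
  rw [e6, sum_Ico_succ_top h]
  have e4 : ∀ k, ∑ l ∈ Ico s (t + 1), a l * (if k ≤ l + 1 ∧ l ≤ k + 1 then (1 : ℤ) else 0) =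
      ∑ l ∈ Ico s t, a l * (if k ≤ l + 1 ∧ l ≤ k + 1 then (1 : ℤ) else 0) +
        a t * (if k ≤ t + 1 ∧ t ≤ k + 1 then (1 : ℤ) else 0) := by
    intro k
    rw [sum_Ico_succ_top h]
  simp only [e4, mul_add, sum_add_distrib]
  have e5 : ∑ k ∈ Ico s t, a k * (a t * (if k ≤ t + 1 ∧ t ≤ k + 1 then (1 : ℤ) else 0)) =
      a t * if s < t then a (t - 1) else 0 := by
    rw [← e2, mul_sum]
    exact sum_congr rfl fun k _ => by ring
  rw [e5, e3]
  rw [if_pos (by omega : t ≤ t + 1 ∧ t ≤ t + 1)]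
  split_ifs <;> ring

lemma QS_bot (a : ℕ → ℤ) {s t : ℕ} (h : s < t) : QS a s t =
    a s ^ 2 + a s + (if s + 1 < t then 2 * a s * a (s + 1) else 0) + QS a (s + 1) t := by
  obtain ⟨n, rfl⟩ : ∃ n, t = s + 1 + n := ⟨t - (s + 1), by omega⟩
  induction n with
  | zero =>
    rw [add_zero, QS_top a le_rfl, QS_self, QS_self]
    norm_num
  | succ n ih =>
    have h1 := QS_top a (s := s) (t := s + 1 + n) (by omega)
    have h2 := QS_top a (s := s + 1) (t := s + 1 + n) (by omega)
    have h3 := ih (by omega)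
    have e : s + 1 + (n + 1) = s + 1 + n + 1 := by omega
    rw [e, h1, h2, h3]
    rcases Nat.eq_zero_or_pos n with rfl | hn
    · norm_num
      ring
    · rw [if_pos (by omega), if_pos (by omega), if_pos (by omega), if_pos (by omega)]
      ring

lemma sq_add_nonneg (g : ℤ) : 0 ≤ g ^ 2 + g := by
  rcases le_or_gt 0 g with h | h
  · positivity
  · nlinarith

/-- nonnegative sequences -/
lemma QS_pos (a : ℕ → ℤ) {s t : ℕ} (h : s ≤ t) (ha : ∀ k, s ≤ k → k < t → 0 ≤ a k) :
    (if s < t then a (t - 1) ^ 2 + a (t - 1) else 0) ≤ QS a s t := by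
  obtain ⟨n, rfl⟩ : ∃ n, t = s + n := ⟨t - s, by omega⟩
  induction n with
  | zero => rw [add_zero, if_neg (by omega), QS_self]
  | succ n ih =>
    have h1 := ih (by omega) fun k hk hk' => ha k hk (by omega)
    have h2 := QS_top a (s := s) (t := s + n) (by omega)
    have e : s + (n + 1) = s + n + 1 := by omega
    rw [e, if_pos (by omega), h2, show s + n + 1 - 1 = s + n by omega]
    have h3 : (0 : ℤ) ≤ if s < s + n then 2 * a (s + n - 1) * a (s + n) else 0 := by
      split_ifs with hc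
      · have := ha (s + n - 1) (by omega) (by omega)
        have := ha (s + n) (by omega) (by omega)
        positivity
      · exact le_rfl
    have h4 : 0 ≤ QS a s (s + n) := by
      refine le_trans ?_ h1
      split_ifs
      · exact sq_add_nonneg _
      · exact le_rfl
    linarith

/-- nonnegative but for the last member -/
lemma QS_nonneg (a : ℕ → ℤ) {s t : ℕ} (h : s ≤ t) (ha : ∀ k, s ≤ k → k + 1 < t → 0 ≤ a k) :
    0 ≤ QS a s t := by
  rcases Nat.eq_or_lt_of_le h with rfl | h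
  · rw [QS_self]
  obtain ⟨n, rfl⟩ : ∃ n, t = n + 1 := ⟨t - 1, by omega⟩
  have h1 := QS_pos a (s := s) (t := n) (by omega) fun k hk hk' => ha k hk (by omega)
  rw [QS_top a (by omega)]
  by_cases hc : s < n
  · rw [if_pos hc] at h1 ⊢
    have h2 := sq_add_nonneg (a (n - 1) + a n)
    nlinarith
  · rw [if_neg hc] at h1 ⊢
    have h2 := sq_add_nonneg (a n)
    linarith

end Pool.Agent.GaussPoset.Win.W4

end

/-! From `Pool.Agent.W_448p_h97.PbA` -/

section

/-!
MP_448cb3_co, G2, case B, window `j`: the contributions of a star and their orders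
(the statements of `W_448w4_h10` for a star in a larger set `K` of unmatched doubles, the same proofs:
written by a script from the files of helper10).  helper97.
-/

namespace Pool.Agent.GaussPoset.Win.Pb

set_option linter.unusedSectionVars false

open Finset W4
open Pool.Agent.GaussPoset.Win.So (IV IV_chi IV_Fe)
open Pool.Agent.GaussPoset.Win.SO (Sde Pen TD On kS tL tU sde_low sde_up kS_sum cheap_of)
open Pool.Agent.GaussPoset.Win.I2 (kd gu kl kn kr so cc fr KK KD lS uS mem_lS mem_uS kd_dc kd_uc gu_uc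
  gu_dc adm_low adm_up KD_low KD_up fr_low fr_up)

universe u

variable {P : Type u} [Fintype P] [PartialOrder P] [DecidableEq P] {r i : ℕ}
variable {e f : P → ℕ} {psi : P → P} {C K : Finset P} {w v : P}

/-- a component with at least two unmatched doubles, a lower one and an upper one -/
structure K5w (r i : ℕ) (K : Finset P) (psi : P → P) (C : Finset P) (w v : P) : Prop where
  H : Gr P r
  hi : 1 ≤ i
  hi2 : i + 1 ≤ r
  hM : Mat P i K psi
  hC : Part (i + 1) C
  wC : w ∈ C
  vC : v ∈ C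
  wK : w ∈ K
  vK : v ∈ K
  lw0 : lev w = i + 1
  lv0 : lev v + 1 = i
  nq : ∀ z ∈ C, lev z = i + 2 → ∀ x ∈ uc z, ∀ x' ∈ uc z, (uc x).card = 2 → (uc x').card = 2 →
    (uc x ∩ uc x').Nonempty
  nq' : ∀ z ∈ C, lev z + 2 = i → ∀ x ∈ dc z, ∀ x' ∈ dc z, (dc x).card = 2 → (dc x').card = 2 →
    (dc x ∩ dc x').Nonempty

lemma K5w.part (Q : K5w r i K psi C w v) : Part i C :=
  ⟨fun h1 h2 => Q.hC.up h1 h2, fun h1 h2 h3 => Q.hC.dn h1 (by omega) h3⟩

lemma K5w.hir (Q : K5w r i K psi C w v) : i ≤ r := by have := Q.hi2; omega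

lemma K5w.ne (Q : K5w r i K psi C w v) : w ≠ v := by
  have := Q.lw0
  have := Q.lv0
  rintro rfl
  omega

lemma K5w.nw (Q : K5w r i K psi C w v) : w ∈ near P i := mem_near.2 (Or.inl Q.lw0)

lemma K5w.nv (Q : K5w r i K psi C w v) : v ∈ near P i := mem_near.2 (Or.inr Q.lv0)

lemma Fe_add2 (Q : K5w r i K psi C w v) {a b : ℕ} (ha : Ac i e w a) (hb : Ac i e v b)
    (hw : w ∉ Tch i e → e w = 0) (hv : v ∉ Tch i e → e v = 0) (S : Finset P) :
    Fe i (e + Pi.single w a + Pi.single v b) S =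
      Fe i e S * (wt i e w a S * wt i e v b S) := by
  have hir := Q.hir
  have h1 : Fe i (e + Pi.single w a) S = Fe i e S * wt i e w a S := by
    rcases ha with h | h
    · rw [h, Pi.single_zero, add_zero, wt_zero Q.H hir Q.nw, mul_one]
    · exact Fe_add1 Q.H hir Q.nw h (hw h) a S
  have hT : Tch i (e + Pi.single w a) = Tch i e := Tch_add Q.H (single_far Q.nw a)
  have hwt : wt i (e + Pi.single w a) v b S = wt i e v b S := by
    refine So.wt_congr Q.H (fun y hy => ?_) Q.nv _ _
    rw [Pi.add_apply, single_far Q.nw a y, add_zero]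
    rw [mem_near]
    omega
  rcases hb with h | h
  · rw [h, Pi.single_zero, add_zero, wt_zero Q.H hir Q.nv, mul_one]
    exact h1
  · rw [Fe_add1 Q.H hir Q.nv (by rw [hT]; exact h) (by
      rw [Pi.add_apply, hv h, Pi.single_apply, if_neg Q.ne.symm, add_zero]) b S, h1, hwt, mul_assoc]

lemma JK_add2 (Q : K5w r i K psi C w v) {a b : ℕ} (ha : Ac i e w a) (hb : Ac i e v b)
    (hw : w ∉ Tch i e → e w = 0) (hv : v ∉ Tch i e → e v = 0) (m : ℕ) :
    JK i K psi C m (e + Pi.single w a + Pi.single v b) = IV (st i C) (fun S =>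
      Fe i e S * (wt i e w a S * (wt i e v b S * GK i K psi C e m S))) := by
  unfold JK
  congr 1
  funext S
  rw [Fe_add2 Q ha hb hw hv, add_assoc e, GK_add Q.H]
  · ring
  · intro x hx
    rw [Pi.add_apply, single_far Q.nw _ x hx, single_far Q.nv _ x hx]

lemma core_wv (Q : K5w r i K psi C w v) (hc : IsCore i ∅ (ps K psi) e) :
    (w ∉ Tch i e → e w = 0) ∧ (v ∉ Tch i e → e v = 0) :=
  ⟨fun h => hc w (mem_RK.1 (mem_RK_ps.2 (Or.inr ⟨Q.wK, Q.nw, Q.wC, h⟩))).1,
    fun h => hc v (mem_RK.1 (mem_RK_ps.2 (Or.inr ⟨Q.vK, Q.nv, Q.vC, h⟩))).1⟩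

/-- the abstract configuration of a core -/
theorem K5w.cf (Q : K5w r i K psi C w v) (hc : IsCore i ∅ (ps K psi) e) (hs : Spt C e)
    (hA : AdmL i e) (hB : AdmU i e) (hd : Disjoint (AL i e) (AU i e)) :
    Cf uc dc (tL (P := P) i) (tU i) (lv P i) (lS P i) (uS P i) e where
  s1 := sde_low Q.H i
  s2 := sde_up Q.H (by have := Q.hi2; omega)
  d1 := by
    rw [disjoint_left]
    intro x hx hx'
    rw [mem_lS] at hx
    rw [mem_lv] at hx'
    omega
  d2 := by
    rw [disjoint_left]
    intro x hx hx'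
    rw [mem_uS] at hx
    rw [mem_lv] at hx'
    omega
  d3 := by
    rw [disjoint_left]
    intro x hx hx'
    rw [mem_lS] at hx
    rw [mem_uS] at hx'
    omega
  adm1 := adm_low hA
  adm2 := adm_up hB
  dis := by rw [KD_low, KD_up]; exact hd
  core1 := by
    classical
    intro x hx ht he
    rw [mem_lS] at hx
    unfold tL at ht
    have hl : lev x = i + 1 := by omega
    have hn : x ∈ near P i := mem_near.2 (Or.inl hl)
    rcases core_nearK hc hn (notMem_empty x) he with h | ⟨h1, h2⟩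
    · left
      rw [mem_Tch] at h
      rcases h with ⟨-, z, hz, hz'⟩ | ⟨h3, -⟩
      · exact ⟨z, mem_dc.2 hz, hz'⟩
      · omega
    · by_cases hxK : x ∈ K
      · left
        unfold ps at h2
        rw [if_pos hxK, mem_Tch] at h2
        rcases h2 with ⟨-, z, hz, hz'⟩ | ⟨h3, -⟩
        · exact ⟨z, mem_dc.2 hz, hz'⟩
        · omega
      right
      unfold ps at h2
      rw [if_neg hxK] at h2
      have hd : x ∈ dbL P i := by
        rcases mem_union.1 h1 with h1 | h1
        · exact h1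
        · rw [mem_dbU] at h1; omega
      obtain ⟨g1, g2⟩ := Q.hM.low x hd hxK
      rw [mem_dbL] at hd
      rw [mem_dbU] at g1
      refine ⟨psi x, mem_uS.2 (by omega), by unfold tU; omega, g2, hd.2, ?_⟩
      rw [mem_Tch] at h2
      rcases h2 with ⟨h3, -⟩ | ⟨-, z, hz, hz'⟩
      · omega
      · exact ⟨z, mem_uc.2 hz, hz'⟩
  core2 := by
    classical
    intro x hx ht he
    rw [mem_uS] at hx
    unfold tU at ht
    have hl : lev x + 1 = i := by omega
    have hn : x ∈ near P i := mem_near.2 (Or.inr hl)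
    rcases core_nearK hc hn (notMem_empty x) he with h | ⟨h1, h2⟩
    · left
      rw [mem_Tch] at h
      rcases h with ⟨h3, -⟩ | ⟨-, z, hz, hz'⟩
      · omega
      · exact ⟨z, mem_uc.2 hz, hz'⟩
    · by_cases hxK : x ∈ K
      · left
        unfold ps at h2
        rw [if_pos hxK, mem_Tch] at h2
        rcases h2 with ⟨h3, -⟩ | ⟨-, z, hz, hz'⟩
        · omega
        · exact ⟨z, mem_uc.2 hz, hz'⟩
      right
      unfold ps at h2
      rw [if_neg hxK] at h2
      have hd : x ∈ dbU P i := by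
        rcases mem_union.1 h1 with h1 | h1
        · rw [mem_dbL] at h1; omega
        · exact h1
      obtain ⟨g1, g2⟩ := Q.hM.upp x hd hxK
      rw [mem_dbU] at hd
      rw [mem_dbL] at g1
      refine ⟨psi x, mem_lS.2 (by omega), by unfold tL; omega, g2, hd.2, ?_⟩
      rw [mem_Tch] at h2
      rcases h2 with ⟨-, z, hz, hz'⟩ | ⟨h3, -⟩
      · exact ⟨z, mem_dc.2 hz, hz'⟩
      · omega

/-- CLASSIFICATION -/
theorem K5w.cls (Q : K5w r i K psi C w v) (hc : IsCore i ∅ (ps K psi) e) (hs : Spt C e)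
    (hE : ∑ x, e x ≤ 4) : Cheap 1 i e ∨ (Cheap 2 i e ∧ L4 i e) := by
  by_cases hA : AdmL i e
  swap
  · exact Or.inl (Or.inl hA)
  by_cases hB : AdmU i e
  swap
  · exact Or.inl (Or.inr (Or.inl hB))
  by_cases hd : Disjoint (AL i e) (AU i e)
  swap
  · exact Or.inl (Or.inr (Or.inr (Or.inl hd)))
  have nq1 : NQ uc (tL (P := P) i) (lS P i) e := by
    intro w hw ht he x hx x' hx' h1 h2
    rw [mem_lS] at hw
    unfold tL at ht
    exact Q.nq w (mem_of_pos hs he) (by omega) x hx x' hx' h1 h2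
  have nq2 : NQ dc (tU (P := P) i) (uS P i) e := by
    intro w hw ht he x hx x' hx' h1 h2
    rw [mem_uS] at hw
    unfold tU at ht
    exact Q.nq' w (mem_of_pos hs he) (by omega) x hx x' hx' h1 h2
  rcases (Q.cf hc hs hA hB hd).classify hE nq1 nq2 with h | ⟨h1, h2⟩
  · exact Or.inl (cheap_of (by exact_mod_cast h))
  · exact Or.inr ⟨cheap_of (by exact_mod_cast h1), h2⟩

/-- CLASSIFICATION, energy at most two -/
theorem K5w.cls2 (Q : K5w r i K psi C w v) (hc : IsCore i ∅ (ps K psi) e) (hs : Spt C e)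
    (hE : ∑ x, e x ≤ 2) : Cheap 0 i e ∨ (Cheap 1 i e ∧ L2 i e) := by
  by_cases hA : AdmL i e
  swap
  · exact Or.inl (Or.inl hA)
  by_cases hB : AdmU i e
  swap
  · exact Or.inl (Or.inr (Or.inl hB))
  by_cases hd : Disjoint (AL i e) (AU i e)
  swap
  · exact Or.inl (Or.inr (Or.inr (Or.inl hd)))
  rcases (Q.cf hc hs hA hB hd).low2 hE with h | ⟨h1, h2⟩
  · exact Or.inl (SO.cheap_of (by exact_mod_cast h))
  · exact Or.inr ⟨SO.cheap_of (by exact_mod_cast h1), h2⟩

theorem K5w.cheap0 (Q : K5w r i K psi C w v) (hc : IsCore i ∅ (ps K psi) e) (hs : Spt C e)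
    (hE : ∑ x, e x < 2) : Cheap 0 i e := by
  rcases Q.cls2 hc hs hE.le with h | ⟨-, h⟩
  · exact h
  · have := h.energy Q.H
    omega

theorem K5w.cheap1 (Q : K5w r i K psi C w v) (hc : IsCore i ∅ (ps K psi) e) (hs : Spt C e)
    (hE : ∑ x, e x < 4) : Cheap 1 i e := by
  rcases Q.cls hc hs hE.le with h | ⟨-, h⟩
  · exact h
  · have := h.energy Q.H
    omega

/-! ### orders -/

/-- ORDER of a contribution -/
theorem K5w.Jx_od (Q : K5w r i K psi C w v) (hc : IsCore i ∅ (ps K psi) e) {k : ℕ}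
    (hk : Cheap k i e) (a b m : ℕ) :
    od (st i C).card (k + ind a + ind b) (Jx i K psi C w v e a b m) := by
  unfold Jx
  split_ifs with h
  · obtain ⟨hw, hv⟩ := core_wv Q hc
    rw [JK_add2 Q h.1 h.2 hw hv]
    apply od_of_Rk
    have h1 := Rk_mul (Rk_of_cheap hk) (Rk_mul (Rk_wt (e := e) Q.H Q.hi Q.hi2 Q.nw a)
      (Rk_mul (Rk_wt (e := e) Q.H Q.hi Q.hi2 Q.nv b) (GK_Rk Q.H Q.hi Q.hi2 Q.hM Q.hC e m)))
    rw [add_zero, ← add_assoc] at h1
    exact h1
  · exact od_zero _ _

/-- both labels positive and a common site without label: nothing -/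
theorem K5w.Jx_both (Q : K5w r i K psi C w v) (hc : IsCore i ∅ (ps K psi) e) {q : P}
    (hq : q ∈ uc w) (hq' : q ∈ dc v) (h0 : e q = 0) {a b : ℕ} (ha : a ≠ 0) (hb : b ≠ 0)
    (m : ℕ) : Jx i K psi C w v e a b m = 0 := by
  unfold Jx
  split_ifs with h
  · obtain ⟨hw, hv⟩ := core_wv Q hc
    rw [JK_add2 Q h.1 h.2 hw hv]
    unfold IV
    refine sum_eq_zero fun S _ => ?_
    have h1 : wt i e w a S * (wt i e v b S * GK i K psi C e m S) = 0 := by
      rw [wt_low Q.lw0, wt_upp Q.lv0]
      have q1 : q ∈ kz i e w a := mem_kz.2 ⟨by rw [nz_low Q.lw0]; exact hq, by omega⟩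
      have q2 : q ∈ kz i e v b := mem_kz.2 ⟨by rw [nz_upp Q.lv0]; exact hq', by omega⟩
      by_cases hS : q ∈ S
      · have : chi ∅ (kz i e v b) S = 0 := by
          unfold chi
          rw [if_neg]
          rintro ⟨-, h2⟩
          exact disjoint_left.1 h2 q2 hS
        rw [this]
        ring
      · have : chi (kz i e w a) ∅ S = 0 := by
          unfold chi
          rw [if_neg]
          rintro ⟨h2, -⟩
          exact hS (h2 q1)
        rw [this]
        ring
    show xx ^ S.card * (Fe i e S * (wt i e w a S * (wt i e v b S * GK i K psi C e m S))) = 0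
    rw [h1, mul_zero, mul_zero]
  · rfl

end Pool.Agent.GaussPoset.Win.Pb

end

/-! From `Pool.Agent.W_448p_h97.PbB` -/

section

/-!
MP_448cb3_co, G2, case B, window `j`: leading coefficients of the contributions with one label
(the statements of `W_448w4_h10` for a star in a larger set `K` of unmatched doubles, the same proofs:
written by a script from the files of helper10).  helper97.
-/

namespace Pool.Agent.GaussPoset.Win.Pb

set_option linter.unusedSectionVars false

open Finset W4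
open Pool.Agent.GaussPoset.Win.So (IV IV_chi IV_Fe)

universe u

variable {P : Type u} [Fintype P] [PartialOrder P] [DecidableEq P] {r i : ℕ}
variable {e f : P → ℕ} {psi : P → P} {C K : Finset P} {w v : P}

section

variable (Q : K5w r i K psi C w v)
include Q

lemma K5w.lc_J (hc : IsCore i ∅ (ps K psi) e) {k l a b : ℕ} (hk : Cheap k i e)
    (hl : k + ind a + ind b < l) (m : ℕ) :
    lc (st i C).card l (Jx i K psi C w v e a b m) = 0 :=
  lc_lt hl (Q.Jx_od hc hk a b m)

lemma K5w.Jx0 (hc : IsCore i ∅ (ps K psi) e) (hs : Spt C e) :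
    Jx i K psi C w v e 0 0 0 = tC i C e := by
  unfold Jx
  rw [if_pos ⟨Or.inl rfl, Or.inl rfl⟩, Pi.single_zero, Pi.single_zero, add_zero, add_zero,
    JK_zero Q.H Q.hir Q.part hs]

lemma K5w.Jx_zero (hc : IsCore i ∅ (ps K psi) e)
    (h : ¬ (AdmL i e ∧ AdmU i e ∧ Disjoint (AL i e) (AU i e))) (a b m : ℕ) :
    Jx i K psi C w v e a b m = 0 := by
  unfold Jx
  split_ifs with h1
  · obtain ⟨hw, hv⟩ := core_wv Q hc
    rw [JK_add2 Q h1.1 h1.2 hw hv]
    unfold IV
    refine sum_eq_zero fun S _ => ?_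
    show xx ^ S.card * (Fe i e S * _) = 0
    rw [Fe_zero h, zero_mul, mul_zero]
  · rfl

/-- a touched unmatched double: no type -/
lemma K5w.FG_touch {x : P} (hx : x ∈ near P i) (h2 : (nz i x).card = 2)
    (hadm : AdmL i e ∧ AdmU i e) (hT : x ∈ Tch i e) {a : ℕ}
    (hz : a = 1 ∨ ∀ y, lev y = i → e y = 0) : FG i e x a = 0 := by
  have hpos : 0 < e x := by
    by_contra h
    rw [mem_Tch] at hT
    rcases hT with ⟨h1, z, hz, hz'⟩ | ⟨h1, z, hz, hz'⟩
    · refine hadm.1 x (by omega) ⟨⟨z, hz, by omega⟩, ?_⟩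
      obtain ⟨y, hy⟩ := uc_nonempty Q.H (x := x) (by omega)
      exact ⟨y, mem_uc.1 hy, by omega⟩
    · refine hadm.2 x (by omega) ⟨⟨z, hz, by omega⟩, ?_⟩
      obtain ⟨y, hy⟩ := dc_nonempty Q.H (x := x) (by have := Q.hi2; omega)
      exact ⟨y, mem_dc.1 hy, by omega⟩
  -- a site with label zero is killed
  have key : ∀ y ∈ nz i x, e y = 0 → y ∈ AL i e ∪ AU i e := by
    intro y hy hy0
    have hl := nz_lev Q.H hx hy
    rw [mem_union, NormD_mem_AL, NormD_mem_AU]
    rcases mem_near.1 hx with h | h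
    · rw [nz_low h] at hy
      exact Or.inl ⟨hl, x, mem_uc.1 hy, by omega⟩
    · rw [nz_upp h] at hy
      exact Or.inr ⟨hl, x, mem_dc.1 hy, by omega⟩
  unfold FG
  rw [if_neg, if_neg]
  · rintro ⟨g1, g2, g3⟩
    obtain ⟨y, hy⟩ := card_eq_one.1 g1
    have hy1 : y ∈ kz i e x a := by rw [hy]; exact mem_singleton_self _
    obtain ⟨hy2, hy3⟩ := mem_kz.1 hy1
    have hy0 : e y = 0 := by
      rcases hz with h | h
      · omega
      · exact h y (nz_lev Q.H hx hy2)
    exact disjoint_left.1 g3 hy1 (key y hy2 hy0)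
  · rintro ⟨g1, g2⟩
    obtain ⟨y, hy⟩ : (nz i x).Nonempty := by rw [← card_pos]; omega
    have hy0 : e y = 0 := by
      rcases hz with h | h
      · have := g1 y hy
        omega
      · exact h y (nz_lev Q.H hx hy)
    exact disjoint_left.1 g2 hy (key y hy hy0)

/-- VALUE with a label on `w` -/
theorem K5w.val_w (hc : IsCore i ∅ (ps K psi) e) (hs : Spt C e) (h2 : (nz i w).card = 2)
    {k a : ℕ} (ha : a ≠ 0) (hz : a = 1 ∨ ∀ y, lev y = i → e y = 0)
    (ho : od (st i C).card k (tC i C e)) :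
    lc (st i C).card (k + 1) (Jx i K psi C w v e a 0 0) =
      FG i e w a * lc (st i C).card k (tC i C e) := by
  by_cases hadm : AdmL i e ∧ AdmU i e ∧ Disjoint (AL i e) (AU i e)
  swap
  · rw [Q.Jx_zero hc hadm, lc_zero, W4.tC_zero hadm, lc_zero, mul_zero]
  by_cases hT : w ∈ Tch i e
  · rw [Q.FG_touch Q.nw h2 ⟨hadm.1, hadm.2.1⟩ hT hz, zero_mul]
    unfold Jx
    rw [if_neg, lc_zero]
    rintro ⟨h | h, -⟩
    · exact ha h
    · exact h hT
  · have h0 : e w = 0 := (core_wv Q hc).1 hT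
    have h1 : Jx i K psi C w v e a 0 0 = tC i C (e + Pi.single w a) := by
      unfold Jx
      rw [if_pos ⟨Or.inr hT, Or.inl rfl⟩, Pi.single_zero, add_zero, JK_zero Q.H Q.hir Q.part]
      intro y hy
      rw [Pi.add_apply, hs y hy, Pi.single_apply, if_neg, add_zero]
      rintro rfl
      exact hy Q.wC
    rw [h1]
    have sg : sg1 i w = 1 := by unfold sg1; rw [if_pos Q.lw0]
    unfold FG
    by_cases hF : Fx i e w a
    · rw [if_pos hF, (val_F Q.H Q.hir Q.hC hs hadm.2.2 Q.nw Q.wC hT h0 h2 hF ho).2, sg]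
    · rw [if_neg hF]
      by_cases hG : Gx i e w a
      · rw [if_pos hG, (val_G Q.H Q.hir Q.hC hs hadm.2.2 Q.nw Q.wC hT h0 hG ho).2, sg]
      · rw [if_neg hG, zero_mul]
        exact lc_of_od (val_N Q.H Q.hir Q.hC hs hadm.2.2 Q.nw Q.wC hT h0 (by omega)
          (fun _ => hF) hG ho)

/-- VALUE with a label on `v` -/
theorem K5w.val_v (hc : IsCore i ∅ (ps K psi) e) (hs : Spt C e) (h2 : (nz i v).card = 2)
    {k a : ℕ} (ha : a ≠ 0) (hz : a = 1 ∨ ∀ y, lev y = i → e y = 0)
    (ho : od (st i C).card k (tC i C e)) :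
    lc (st i C).card (k + 1) (Jx i K psi C w v e 0 a 0) =
      - FG i e v a * lc (st i C).card k (tC i C e) := by
  by_cases hadm : AdmL i e ∧ AdmU i e ∧ Disjoint (AL i e) (AU i e)
  swap
  · rw [Q.Jx_zero hc hadm, lc_zero, W4.tC_zero hadm, lc_zero, mul_zero]
  by_cases hT : v ∈ Tch i e
  · rw [Q.FG_touch Q.nv h2 ⟨hadm.1, hadm.2.1⟩ hT hz, neg_zero, zero_mul]
    unfold Jx
    rw [if_neg, lc_zero]
    rintro ⟨-, h | h⟩
    · exact ha h
    · exact h hT
  · have h0 : e v = 0 := (core_wv Q hc).2 hT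
    have h1 : Jx i K psi C w v e 0 a 0 = tC i C (e + Pi.single v a) := by
      unfold Jx
      rw [if_pos ⟨Or.inl rfl, Or.inr hT⟩, Pi.single_zero, add_zero, JK_zero Q.H Q.hir Q.part]
      intro y hy
      rw [Pi.add_apply, hs y hy, Pi.single_apply, if_neg, add_zero]
      rintro rfl
      exact hy Q.vC
    rw [h1]
    have hl : ¬ lev v = i + 1 := by have := Q.lv0; omega
    have sg : sg1 i v = -1 := by unfold sg1; rw [if_neg hl]
    unfold FG
    by_cases hF : Fx i e v a
    · rw [if_pos hF, (val_F Q.H Q.hir Q.hC hs hadm.2.2 Q.nv Q.vC hT h0 h2 hF ho).2, sg]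
    · rw [if_neg hF]
      by_cases hG : Gx i e v a
      · rw [if_pos hG, (val_G Q.H Q.hir Q.hC hs hadm.2.2 Q.nv Q.vC hT h0 hG ho).2, sg]
      · rw [if_neg hG, neg_zero, zero_mul]
        exact lc_of_od (val_N Q.H Q.hir Q.hC hs hadm.2.2 Q.nv Q.vC hT h0 (by omega)
          (fun _ => hF) hG ho)

end

end Pool.Agent.GaussPoset.Win.Pb

end

/-! From `Pool.Agent.W_448p_h97.PbC` -/

section

/-!
MP_448cb3_co, G2, case B, window `j`: sums over the natural cores of energy two to four
(the statements of `W_448w4_h10` for a star in a larger set `K` of unmatched doubles, the same proofs: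
written by a script from the files of helper10).  helper97.
-/

namespace Pool.Agent.GaussPoset.Win.Pb

set_option linter.unusedSectionVars false

open Finset W4
open Pool.Agent.GaussPoset.Win.So (IV IV_chi IV_Fe)
open Pool.Agent.GaussPoset.Win.SO (Sde Pen TD On kS tL tU LowD UppD val_gen sde_low sde_up PN vp mem_PN
  num_PN NumG con mem_con self_con con_two_low con_two_upp con_cls con_disj on con_sub on_inj sit_PD
  sit_PU con_PD con_PU PD_data PU_data vp_PD vp_PU sit_ne nL nU BL BU mem_nL mem_nU cheap_of)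
open Pool.Agent.GaussPoset.Win.I2 (lS uS mem_lS mem_uS)
open Pool.Agent.GaussPoset.Win.SO (cheap_coeff)

universe u

variable {P : Type u} [Fintype P] [PartialOrder P] [DecidableEq P] {r i : ℕ}
variable {e f : P → ℕ} {psi : P → P} {C K : Finset P} {w v : P}

section

variable (Q : K5w r i K psi C w v)
include Q

/-- CLASSIFICATION, energy three -/
theorem K5w.cls3 (hc : IsCore i ∅ (ps K psi) e) (hs : Spt C e) (hE : ∑ x, e x = 3) :
    Cheap 0 i e ∨ ((∃ q ∈ I3 i C, m3 i q = e) ∨ ∃ z ∈ Z4 i C, mz i z = e) := by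
  by_cases hA : AdmL i e
  swap
  · exact Or.inl (Or.inl hA)
  by_cases hB : AdmU i e
  swap
  · exact Or.inl (Or.inr (Or.inl hB))
  by_cases hd : Disjoint (AL i e) (AU i e)
  swap
  · exact Or.inl (Or.inr (Or.inr (Or.inl hd)))
  have nq1 : NQ uc (tL (P := P) i) (lS P i) e := by
    intro w hw ht he x hx x' hx' h1 h2
    rw [mem_lS] at hw
    unfold tL at ht
    exact Q.nq w (mem_of_pos hs he) (by omega) x hx x' hx' h1 h2
  have nq2 : NQ dc (tU (P := P) i) (uS P i) e := by
    intro w hw ht he x hx x' hx' h1 h2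
    rw [mem_uS] at hw
    unfold tU at ht
    exact Q.nq' w (mem_of_pos hs he) (by omega) x hx x' hx' h1 h2
  rcases (Q.cf hc hs hA hB hd).low3 hE nq1 nq2 with h | ⟨-, h⟩
  · exact Or.inl (cheap_of (by exact_mod_cast h))
  · right
    rcases h with h | h | h | h
    · exact Or.inl (Q3_index Q.H hs h)
    · exact Or.inl (Q3_index' Q.H hs h)
    · exact Or.inr (T3_index Q.H hs h)
    · exact Or.inr (T3_index' Q.H hs h)
/-- SUMS over the cores of energy three -/
theorem K5w.sum3 (X : (P → ℕ) → ℤ)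
    (hX : ∀ e, Spt C e → Cheap 0 i e → X e = 0) :
    2 * ∑ e ∈ Co i K psi C 3, X e = ∑ q ∈ I3 i C, c3 i C q * X (m3 i q) +
      2 * ∑ z ∈ Z4 i C, X (mz i z) := by
  classical
  have H := Q.H
  have hir := Q.hir
  have sub1 : (I3 i C).image (m3 i) ∪ (Z4 i C).image (mz i) ⊆ Co i K psi C 3 := by
    intro e he
    rw [mem_union, mem_image, mem_image] at he
    rcases he with ⟨q, hq, rfl⟩ | ⟨z, hz, rfl⟩
    · exact mem_Co.2 ⟨m3_sum H hq, (m3_val H hir Q.hC hq).2.2.2.2.2.2, m3_core H hq⟩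
    · have := mz_val H hir Q.hC hz
      exact mem_Co.2 ⟨this.2.2.2.2.2.2.2.1, this.2.2.2.2.2.2.1, mz_core H hz⟩
  have h1 : ∑ e ∈ Co i K psi C 3, X e =
      ∑ e ∈ (I3 i C).image (m3 i) ∪ (Z4 i C).image (mz i), X e := by
    symm
    refine sum_subset sub1 ?_
    intro e he hne
    obtain ⟨g1, g2, g3⟩ := mem_Co.1 he
    rcases Q.cls3 g3 g2 g1 with h | h
    · exact hX e g2 h
    · exfalso
      apply hne
      rw [mem_union, mem_image, mem_image]
      exact h
  have hdis : Disjoint ((I3 i C).image (m3 i)) ((Z4 i C).image (mz i)) := by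
    rw [disjoint_left]
    intro e he he'
    rw [mem_image] at he he'
    obtain ⟨q, hq, rfl⟩ := he
    obtain ⟨z, hz, h⟩ := he'
    exact m3_ne_mz H hq hz h.symm
  rw [h1, sum_union hdis, mul_add]
  congr 1
  · have h2 : ∑ q ∈ I3 i C, c3 i C q * X (m3 i q) =
        ∑ e ∈ (I3 i C).image (m3 i), ∑ q ∈ (I3 i C).filter (fun q => m3 i q = e),
          c3 i C q * X (m3 i q) :=
      (Finset.sum_fiberwise_of_maps_to (fun q hq => mem_image_of_mem _ hq) _).symm
    rw [h2, mul_sum]
    refine sum_congr rfl fun e he => ?_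
    rw [mem_image] at he
    obtain ⟨q, hq, rfl⟩ := he
    by_cases hsib : q.2 ∈ PN i C ∧ q.2 ≠ q.1
    · obtain ⟨s1, s2⟩ := m3_swap H hq hsib.1 hsib.2
      have h3 : (I3 i C).filter (fun q' => m3 i q' = m3 i q) = {q, q.swap} := by
        ext q'
        rw [mem_filter, mem_insert, mem_singleton]
        constructor
        · rintro ⟨h3, h4⟩
          rcases m3_fib H hq h3 h4 with h | ⟨h, -⟩
          · exact Or.inl h
          · exact Or.inr h
        · rintro (rfl | rfl)
          · exact ⟨hq, rfl⟩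
          · exact ⟨s1, s2⟩
      have hne : q ≠ q.swap := by
        intro h
        exact hsib.2 (congrArg Prod.snd h)
      rw [h3, sum_pair hne, s2]
      have c1 : c3 i C q = 1 := by unfold c3; rw [if_pos hsib]
      have c2 : c3 i C q.swap = 1 := by
        unfold c3
        rw [if_pos]
        exact ⟨(mem_I3.1 hq).1, hsib.2.symm⟩
      rw [c1, c2]
      ring
    · have h3 : (I3 i C).filter (fun q' => m3 i q' = m3 i q) = {q} := by
        ext q'
        rw [mem_filter, mem_singleton]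
        constructor
        · rintro ⟨h3, h4⟩
          rcases m3_fib H hq h3 h4 with h | ⟨-, h⟩
          · exact h
          · exact absurd h hsib
        · rintro rfl
          exact ⟨hq, rfl⟩
      have c1 : c3 i C q = 2 := by unfold c3; rw [if_neg hsib]
      rw [h3, sum_singleton, c1]
  · rw [sum_image (fun a ha b hb h => mz_inj H ha hb h)]

/-- SUMS over the cores of energy two -/
theorem K5w.sum2 (X : (P → ℕ) → ℤ)
    (hX : ∀ e, Spt C e → Cheap 0 i e → IsCore i ∅ (ps K psi) e → ∑ x, e x = 2 → X e = 0) :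
    ∑ e ∈ Co i K psi C 2, X e = ∑ p ∈ PN i C, X (on (con i p)) := by
  classical
  have H := Q.H
  have h1 : ∑ e ∈ Co i K psi C 2, X e = ∑ e ∈ (PN i C).image (fun p => on (con i p)), X e := by
    symm
    refine sum_subset ?_ ?_
    · intro e he
      rw [mem_image] at he
      obtain ⟨p, hp, rfl⟩ := he
      exact mem_Co.2 ⟨(c2_value H Q.hi Q.hi2 Q.hC hp).1, c2_spt H Q.hC hp, c2_core H hp⟩
    · intro e he hne
      obtain ⟨g1, g2, g3⟩ := mem_Co.1 he
      rcases Q.cls2 g3 g2 g1.le with h | ⟨-, h⟩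
      · exact hX e g2 h g3 g1
      · exfalso
        apply hne
        rw [mem_image]
        exact L2_index H g2 h
  rw [h1, sum_image (fun a ha b hb h => c2_inj H ha hb h)]

end

/-- THE NATURAL CORES OF ENERGY FOUR -/
theorem K5w.sum4 (Q : K5w r i K psi C w v) (hb : 1 ≤ (st i C).card) :
    2 * ∑ e ∈ Co i K psi C 4, lc (st i C).card 2 (tC i C e) =
      ∑ q ∈ P4 i C, vp i q.1 * vp i q.2 - 2 * ((Z4 i C).card - (T4 i C).card : ℤ) := by
  classical
  have H := Q.H
  have hir := Q.hir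
  have h1 : ∑ e ∈ Co i K psi C 4, lc (st i C).card 2 (tC i C e) =
      ∑ e ∈ (P4 i C).image (c4 i) ∪ ((Z4 i C).image (cA i) ∪ (T4 i C).image (cB i)),
        lc (st i C).card 2 (tC i C e) := by
    symm
    refine sum_subset ?_ ?_
    · intro e he
      simp only [mem_union, mem_image] at he
      rcases he with ⟨q, hq, rfl⟩ | ⟨z, hz, rfl⟩ | ⟨z, hz, rfl⟩
      · have hv := c4_value H Q.hi Q.hi2 Q.hC hq
        exact mem_Co.2 ⟨hv.1, c4_spt H Q.hC hq, c4_core H hq⟩
      · have hv := cA_value H hir Q.hC hz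
        exact mem_Co.2 ⟨hv.1, cA_spt H Q.hC hz, cA_core H hz⟩
      · have hv := cB_value H hir Q.hC hz
        exact mem_Co.2 ⟨hv.1, cB_spt H Q.hC hz, cB_core H hz⟩
    · intro e he hne
      obtain ⟨g1, g2, g3⟩ := mem_Co.1 he
      rcases Q.cls g3 g2 g1.le with h | ⟨-, h⟩
      · exact cheap_coeff H Q.hC g2 h hb
      · exfalso
        apply hne
        simp only [mem_union, mem_image]
        rcases h with h | h | h | h | h | h | h
        · exact Or.inl (PP_index H g2 h)
        · exact Or.inl (PP_index' H g2 h)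
        · exact Or.inl (PQ_index H g2 h)
        · exact Or.inr (Or.inl (A4_index H g2 h))
        · exact Or.inr (Or.inl (A4_index' H g2 h))
        · exact Or.inr (Or.inr (B4_index H g2 h))
        · exact Or.inr (Or.inr (B4_index' H g2 h))
  rw [h1, sum_union, sum_union]
  rotate_left
  · rw [disjoint_left]
    intro e he he'
    rw [mem_image] at he he'
    obtain ⟨z, hz, rfl⟩ := he
    obtain ⟨z', hz', h⟩ := he'
    have h2 := cA_two (i := i) z
    rw [← h] at h2
    have h3 := on_le_one (con i z' ∪ cS i z') z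
    unfold cB at h2
    omega
  · rw [disjoint_union_right]
    constructor
    · rw [disjoint_left]
      intro e he he'
      rw [mem_image] at he he'
      obtain ⟨q, hq, rfl⟩ := he
      obtain ⟨z, hz, h⟩ := he'
      have h2 := cA_two (i := i) z
      rw [h] at h2
      have h3 := on_le_one (con i q.1 ∪ con i q.2) z
      unfold c4 at h2
      omega
    · rw [disjoint_left]
      intro e he he'
      rw [mem_image] at he he'
      obtain ⟨q, hq, rfl⟩ := he
      obtain ⟨z, hz, h⟩ := he'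
      obtain ⟨v, hv, hv2⟩ := cB_site H hz
      rw [h, c4_site H hq hv] at hv2
      omega
  have e1 := c4_sum H Q.hi Q.hi2 Q.hC
  have e2 : ∑ e ∈ (Z4 i C).image (cA i), lc (st i C).card 2 (tC i C e) =
      - ((Z4 i C).card : ℤ) := by
    have hv : ∀ z ∈ Z4 i C, lc (st i C).card 2 (tC i C (cA i z)) = -1 :=
      fun z hz => (cA_value H hir Q.hC hz).2
    rw [sum_image (fun a _ b _ h => cA_inj h), sum_congr rfl hv, sum_const]
    simp
  have e3 : ∑ e ∈ (T4 i C).image (cB i), lc (st i C).card 2 (tC i C e) =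
      ((T4 i C).card : ℤ) := by
    have hv : ∀ z ∈ T4 i C, lc (st i C).card 2 (tC i C (cB i z)) = 1 :=
      fun z hz => (cB_value H hir Q.hC hz).2
    rw [sum_image (fun a ha b hb h => cB_inj H ha hb h), sum_congr rfl hv, sum_const]
    simp
  rw [e2, e3]
  have e4 : ∑ e ∈ (P4 i C).image (c4 i), lc (st i C).card 2 (tC i C e) =
      ∑ e ∈ (P4 i C).image (c4 i), PowerSeries.coeff (st i C).card (dd ^ 2 * tC i C e : A) := rfl
  rw [e4]
  linarith

end Pool.Agent.GaussPoset.Win.Pb

end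

/-! From `Pool.Agent.W_448p_h97.PbD` -/

section

/-!
MP_448cb3_co, G2, case B, window `j`: pendants and a label of the star; both labels
(the statements of `W_448w4_h10` for a star in a larger set `K` of unmatched doubles, the same proofs:
written by a script from the files of helper10).  helper97.
-/

namespace Pool.Agent.GaussPoset.Win.Pb

set_option linter.unusedSectionVars false

open Finset W4
open Pool.Agent.GaussPoset.Win.So (IV IV_chi IV_Fe)
open Pool.Agent.GaussPoset.Win.SO (Sde Pen TD On kS tL tU LowD UppD val_gen sde_low sde_up PN vp mem_PN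
  num_PN NumG con mem_con self_con con_two_low con_two_upp con_cls con_disj on con_sub on_inj sit_PD
  sit_PU con_PD con_PU PD_data PU_data vp_PD vp_PU sit_ne nL nU BL BU mem_nL mem_nU cheap_of)
open Pool.Agent.GaussPoset.Win.I2 (lS uS mem_lS mem_uS)

universe u

variable {P : Type u} [Fintype P] [PartialOrder P] [DecidableEq P] {r i : ℕ}
variable {e f : P → ℕ} {psi : P → P} {C K : Finset P} {w v : P}

section

variable (Q : K5w r i K psi C w v)
include Q

/-- not of type F: no order two -/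
lemma K5w.pd_N_w {p : P} (hp : p ∈ PN i C) (h2 : (nz i w).card = 2)
    (hd : ¬ Disjoint (nz i w) (sit i p)) (m : ℕ) :
    lc (st i C).card 2 (Jx i K psi C w v (on (con i p)) 1 0 m) = 0 := by
  have H := Q.H
  obtain ⟨v1, v2, v3, v4, v5, v6⟩ := pd_val H Q.hi Q.hi2 Q.hC hp
  have hs := c2_spt H Q.hC hp
  have hc : IsCore i ∅ (ps K psi) (on (con i p)) := c2_core H hp
  have hk : Cheap 1 i (on (con i p)) :=
    Q.cheap1 hc hs (by rw [(c2_value H Q.hi Q.hi2 Q.hC hp).1]; omega)
  unfold Jx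
  split_ifs with h
  · obtain ⟨hw, hv⟩ := core_wv Q hc
    rw [JK_add2 Q h.1 h.2 hw hv]
    have hall : ∀ y ∈ nz i w, on (con i p) y < 1 := by
      intro y hy
      rw [pd_site H hp (nz_lev H Q.nw hy)]
      omega
    have hR := Rk_N H Q.nw (e := on (con i p)) (a := 1) (by omega) (fun _ hF => by
      have := hF.2
      rw [v4] at this
      exact hd this) (fun hG => by
      have := hG.1
      rw [kz_eq_iff.2 hall] at this
      omega) hk
    have h1 := Rk_mul hR (Rk_mul (Rk_wt (e := on (con i p)) Q.H Q.hi Q.hi2 Q.nv 0)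
      (GK_Rk Q.H Q.hi Q.hi2 Q.hM Q.hC (on (con i p)) m))
    rw [ind_zero, add_zero, add_zero] at h1
    have h3 : od (st i C).card 1 (IV (st i C) (fun S => Fe i (on (con i p)) S *
        (wt i (on (con i p)) w 1 S * (wt i (on (con i p)) v 0 S *
          GK i K psi C (on (con i p)) m S)))) := by
      apply od_of_Rk
      refine Rk_congr (fun S _ => ?_) h1
      ring
    exact lc_of_od h3
  · exact lc_zero _ _

lemma K5w.pd_N_v {p : P} (hp : p ∈ PN i C) (h2 : (nz i v).card = 2)
    (hd : ¬ Disjoint (nz i v) (sit i p)) (m : ℕ) :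
    lc (st i C).card 2 (Jx i K psi C w v (on (con i p)) 0 1 m) = 0 := by
  have H := Q.H
  obtain ⟨v1, v2, v3, v4, v5, v6⟩ := pd_val H Q.hi Q.hi2 Q.hC hp
  have hs := c2_spt H Q.hC hp
  have hc : IsCore i ∅ (ps K psi) (on (con i p)) := c2_core H hp
  have hk : Cheap 1 i (on (con i p)) :=
    Q.cheap1 hc hs (by rw [(c2_value H Q.hi Q.hi2 Q.hC hp).1]; omega)
  unfold Jx
  split_ifs with h
  · obtain ⟨hw, hv⟩ := core_wv Q hc
    rw [JK_add2 Q h.1 h.2 hw hv]
    have hall : ∀ y ∈ nz i v, on (con i p) y < 1 := by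
      intro y hy
      rw [pd_site H hp (nz_lev H Q.nv hy)]
      omega
    have hR := Rk_N H Q.nv (e := on (con i p)) (a := 1) (by omega) (fun _ hF => by
      have := hF.2
      rw [v4] at this
      exact hd this) (fun hG => by
      have := hG.1
      rw [kz_eq_iff.2 hall] at this
      omega) hk
    have h1 := Rk_mul hR (Rk_mul (Rk_wt (e := on (con i p)) Q.H Q.hi Q.hi2 Q.nw 0)
      (GK_Rk Q.H Q.hi Q.hi2 Q.hM Q.hC (on (con i p)) m))
    rw [ind_zero, add_zero, add_zero] at h1
    have h3 : od (st i C).card 1 (IV (st i C) (fun S => Fe i (on (con i p)) S *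
        (wt i (on (con i p)) w 0 S * (wt i (on (con i p)) v 1 S *
          GK i K psi C (on (con i p)) m S)))) := by
      apply od_of_Rk
      refine Rk_congr (fun S _ => ?_) h1
      ring
    exact lc_of_od h3
  · exact lc_zero _ _

/-- CONTRIBUTION of a core of energy two -/
theorem K5w.L2_val (hw2 : (nz i w).card = 2) (hv2 : (nz i v).card = 2) {q : P} (hq : q ∈ uc w)
    (hq' : q ∈ dc v) {p : P} (hp : p ∈ PN i C) :
    lc (st i C).card 2 (Jx i K psi C w v (on (con i p)) 0 1 1) +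
      lc (st i C).card 2 (Jx i K psi C w v (on (con i p)) 0 2 0) +
      lc (st i C).card 2 (Jx i K psi C w v (on (con i p)) 1 0 1) +
      lc (st i C).card 2 (Jx i K psi C w v (on (con i p)) 2 0 0) +
      lc (st i C).card 2 (Jx i K psi C w v (on (con i p)) 1 1 0) =
    vp i p * (Nx i w p * (1 + Dg i K C (sit i p ∪ nz i w)) -
      Nx i v p * (1 + Dg i K C (sit i p ∪ nz i v))) := by
  have H := Q.H
  obtain ⟨v1, v2, v3, v4, v5, v6⟩ := pd_val H Q.hi Q.hi2 Q.hC hp
  have hs := c2_spt H Q.hC hp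
  have hc : IsCore i ∅ (ps K psi) (on (con i p)) := c2_core H hp
  have hsite : ∀ y, lev y = i → on (con i p) y = 0 := fun y hy => pd_site H hp hy
  have lq : lev q = i := by
    have := lev_uc H hq
    have := Q.lw0
    omega
  have t1 := Q.val_w hc hs hw2 (two_ne_zero) (Or.inr hsite) v5
  have t2 := Q.val_v hc hs hv2 (two_ne_zero) (Or.inr hsite) v5
  rw [FG_pd H Q.hi Q.hi2 Q.hC hp Q.nw hw2 two_ne_zero, v6] at t1
  rw [FG_pd H Q.hi Q.hi2 Q.hC hp Q.nv hv2 two_ne_zero, v6] at t2
  have t3 : lc (st i C).card 2 (Jx i K psi C w v (on (con i p)) 1 1 0) = 0 := by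
    rw [Q.Jx_both hc hq hq' (hsite q lq) one_ne_zero one_ne_zero, lc_zero]
  have t4 : lc (st i C).card 2 (Jx i K psi C w v (on (con i p)) 1 0 1) =
      Nx i w p * (Dg i K C (sit i p ∪ nz i w) * vp i p) := by
    unfold Nx
    by_cases hd : Disjoint (nz i w) (sit i p)
    · have hT : w ∉ Tch i (on (con i p)) := by
        intro h
        have h5 := pd_tch H hp h
        rw [h5, disjoint_self] at hd
        have := (PN_dat H hp).2.choose_spec.2.2.2.1
        rw [hd] at this
        simp at this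
      have h0 := (core_wv Q hc).1 hT
      rw [if_pos hd, one_mul]
      unfold Jx
      rw [if_pos ⟨Or.inr hT, Or.inl rfl⟩, Pi.single_zero, add_zero,
        x_one H Q.hi Q.hi2 Q.hM Q.hC hp Q.nw Q.wC Q.wK hw2 hT h0 hd]
      unfold sg1
      rw [if_pos Q.lw0, one_mul]
    · rw [if_neg hd, zero_mul]
      exact Q.pd_N_w hp hw2 hd 1
  have t5 : lc (st i C).card 2 (Jx i K psi C w v (on (con i p)) 0 1 1) =
      - Nx i v p * (Dg i K C (sit i p ∪ nz i v) * vp i p) := by
    unfold Nx
    by_cases hd : Disjoint (nz i v) (sit i p)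
    · have hT : v ∉ Tch i (on (con i p)) := by
        intro h
        have h5 := pd_tch H hp h
        rw [h5, disjoint_self] at hd
        have := (PN_dat H hp).2.choose_spec.2.2.2.1
        rw [hd] at this
        simp at this
      have h0 := (core_wv Q hc).2 hT
      rw [if_pos hd]
      unfold Jx
      rw [if_pos ⟨Or.inl rfl, Or.inr hT⟩, Pi.single_zero, add_zero,
        x_one H Q.hi Q.hi2 Q.hM Q.hC hp Q.nv Q.vC Q.vK hv2 hT h0 hd]
      unfold sg1
      rw [if_neg (by have := Q.lv0; omega)]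
      ring
    · rw [if_neg hd, neg_zero, zero_mul]
      exact Q.pd_N_v hp hv2 hd 1
  rw [t3, t4, t5]
  have t1' : lc (st i C).card 2 (Jx i K psi C w v (on (con i p)) 2 0 0) = Nx i w p * vp i p := t1
  have t2' : lc (st i C).card 2 (Jx i K psi C w v (on (con i p)) 0 2 0) =
    - Nx i v p * vp i p := t2
  rw [t1', t2']
  ring

end

section

variable (Q : K5w r i K psi C w v) {p q s : P} (hw : uc w = {p, q}) (hv : dc v = {q, s})
  (hpq : p ≠ q) (hqs : q ≠ s) (hps : p ≠ s)
include Q hw hv hpq hqs hps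

lemma K5w.lpq : lev p = i ∧ lev q = i ∧ lev s = i := by
  have h1 := lev_uc Q.H (x := w) (v := p) (by rw [hw]; simp)
  have h2 := lev_uc Q.H (x := w) (v := q) (by rw [hw]; simp)
  have h3 := lev_dc Q.H (x := v) (v := s) (by rw [hv]; simp)
  have := Q.lw0
  have := Q.lv0
  omega

lemma K5w.nzw : nz i w = {p, q} := by rw [nz_low Q.lw0, hw]

lemma K5w.nzv : nz i v = {q, s} := by rw [nz_upp Q.lv0, hv]

lemma K5w.memC : p ∈ C ∧ q ∈ C ∧ s ∈ C := by
  refine ⟨Q.hC.up Q.wC (mem_uc.1 (by rw [hw]; simp)), Q.hC.up Q.wC (mem_uc.1 (by rw [hw]; simp)),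
    Q.hC.dn Q.vC (by have := Q.lv0; omega) (mem_dc.1 (by rw [hv]; simp))⟩

/-- after a label one on `w`: the configuration -/
lemma K5w.step_w (hS : Sc i e) (hs : Spt C e) (hq : 1 ≤ e q) {a : ℕ} :
    Spt C (e + Pi.single w a) ∧ w ∉ Tch i e ∧ e w = 0 ∧ v ∉ Tch i (e + Pi.single w a) ∧
      (e + Pi.single w a : P → ℕ) v = 0 ∧ AL i (e + Pi.single w a) = kz i e w a ∧
      AU i (e + Pi.single w a) = ∅ ∧ (∀ b, kz i (e + Pi.single w a) v b = kz i e v b) := by
  obtain ⟨l1, l2, l3⟩ := Q.lpq hw hv hpq hqs hps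
  obtain ⟨-, -, h1, h2, -, -⟩ := hS.val (C := C) Q.H Q.hi Q.hi2
  have hw0 : e w = 0 := hS w (by have := Q.lw0; omega)
  have hv0 : e v = 0 := hS v (by have := Q.lv0; omega)
  refine ⟨?_, ?_, hw0, ?_, ?_, ?_, ?_, ?_⟩
  · intro y hy
    rw [Pi.add_apply, hs y hy, Pi.single_apply, if_neg, add_zero]
    rintro rfl
    exact hy Q.wC
  · rw [hS.tch Q.H]; exact notMem_empty w
  · rw [Tch_add Q.H (single_far Q.nw a), hS.tch Q.H]; exact notMem_empty v
  · rw [Pi.add_apply, hv0, Pi.single_apply, if_neg Q.ne.symm, add_zero]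
  · rw [AL_low Q.H Q.lw0 hw0, h1, empty_union]
  · rw [AU_low Q.H Q.lw0 hw0, h2]
  · intro b
    exact kz_add Q.H Q.nw Q.nv

/-- label one on `w` and on `v`, labels on the sites -/
theorem K5w.both_11 (hS : Sc i e) (hs : Spt C e) (hq : 1 ≤ e q) :
    od (st i C).card 2 (tC i C (e + Pi.single w 1 + Pi.single v 1)) ∧
    lc (st i C).card 2 (tC i C (e + Pi.single w 1 + Pi.single v 1)) =
      if e p = 0 ∧ e s = 0 then -1 else 0 := by
  have H := Q.H
  have hir := Q.hir
  obtain ⟨l1, l2, l3⟩ := Q.lpq hw hv hpq hqs hps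
  obtain ⟨-, -, h1, h2, o0, c0⟩ := hS.val (C := C) Q.H Q.hi Q.hi2
  obtain ⟨s1, s2, s3, s4, s5, s6, s7, s8⟩ := Q.step_w hw hv hpq hqs hps hS hs hq (a := 1)
  have nw := Q.nzw hw hv hpq hqs hps
  have nv := Q.nzv hw hv hpq hqs hps
  have kw : kz i e w 1 = if e p = 0 then {p} else ∅ := by
    ext y
    rw [mem_kz, nw, mem_insert, mem_singleton]
    split_ifs with h
    · rw [mem_singleton]
      constructor
      · rintro ⟨rfl | rfl, g⟩
        · rfl
        · omega
      · rintro rfl
        exact ⟨Or.inl rfl, by omega⟩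
    · constructor
      · rintro ⟨rfl | rfl, g⟩ <;> omega
      · intro g
        exact absurd g (notMem_empty y)
  have kv : kz i e v 1 = if e s = 0 then {s} else ∅ := by
    ext y
    rw [mem_kz, nv, mem_insert, mem_singleton]
    split_ifs with h
    · rw [mem_singleton]
      constructor
      · rintro ⟨rfl | rfl, g⟩
        · omega
        · rfl
      · rintro rfl
        exact ⟨Or.inr rfl, by omega⟩
    · constructor
      · rintro ⟨rfl | rfl, g⟩ <;> omega
      · intro g
        exact absurd g (notMem_empty y)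
  have cw2 : (nz i w).card = 2 := by rw [nw, card_pair hpq]
  have cv2 : (nz i v).card = 2 := by rw [nv, card_pair hqs]
  have hdis : Disjoint (AL i e) (AU i e) := by rw [h1]; exact disjoint_empty_left _
  have hdis1 : Disjoint (AL i (e + Pi.single w 1)) (AU i (e + Pi.single w 1)) := by
    rw [s7]; exact disjoint_empty_right _
  have sgw : sg1 i w = 1 := by unfold sg1; rw [if_pos Q.lw0]
  have sgv : sg1 i v = -1 := by unfold sg1; rw [if_neg (by have := Q.lv0; omega)]
  by_cases hp0 : e p = 0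
  · rw [if_pos hp0] at kw
    have hG : Gx i e w 1 := ⟨by rw [kw, card_singleton], cw2, by
      rw [h1, h2, union_empty]; exact disjoint_empty_right _⟩
    obtain ⟨o1, c1⟩ := val_G H hir Q.hC hs hdis Q.nw Q.wC s2 s3 hG o0
    rw [sgw, c0] at c1
    by_cases hs0 : e s = 0
    · rw [if_pos hs0] at kv
      have hG2 : Gx i (e + Pi.single w 1) v 1 := by
        refine ⟨by rw [s8, kv, card_singleton], cv2, ?_⟩
        rw [s8, kv, s6, s7, kw, union_empty, disjoint_singleton]
        exact hps.symm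
      obtain ⟨o2, c2⟩ := val_G H hir Q.hC s1 hdis1 Q.nv Q.vC s4 s5 hG2 o1
      refine ⟨o2, ?_⟩
      rw [if_pos ⟨hp0, hs0⟩, c2, c1, sgv]
      norm_num
    · rw [if_neg hs0] at kv
      have o2 := val_N H hir Q.hC s1 hdis1 Q.nv Q.vC s4 s5 (a := 1) (by omega)
        (fun _ hF => by
          have := kz_eq_iff.2 hF.1
          rw [s8, kv] at this
          rw [← this] at cv2
          simp at cv2)
        (fun hG => by
          have := hG.1
          rw [s8, kv] at this
          simp at this) o1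
      refine ⟨od_succ o2, ?_⟩
      rw [if_neg (fun h => hs0 h.2)]
      exact lc_of_od o2
  · rw [if_neg hp0] at kw
    have o1 := val_N H hir Q.hC hs hdis Q.nw Q.wC s2 s3 (a := 1) (by omega)
        (fun _ hF => by
          have := kz_eq_iff.2 hF.1
          rw [kw] at this
          rw [← this] at cw2
          simp at cw2)
        (fun hG => by
          have := hG.1
          rw [kw] at this
          simp at this) o0
    rw [if_neg (fun h => hp0 h.1)]
    have o2 : od (st i C).card 1 (tC i C (e + Pi.single w 1 + Pi.single v 1)) := by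
      by_cases hs0 : e s = 0
      · rw [if_pos hs0] at kv
        have hG2 : Gx i (e + Pi.single w 1) v 1 := by
          refine ⟨by rw [s8, kv, card_singleton], cv2, ?_⟩
          rw [s8, kv, s6, s7, kw, union_empty]
          exact disjoint_empty_right _
        exact (val_G H hir Q.hC s1 hdis1 Q.nv Q.vC s4 s5 hG2 o1).1
      · rw [if_neg hs0] at kv
        exact od_succ (val_N H hir Q.hC s1 hdis1 Q.nv Q.vC s4 s5 (a := 1) (by omega)
          (fun _ hF => by
            have := kz_eq_iff.2 hF.1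
            rw [s8, kv] at this
            rw [← this] at cv2
            simp at cv2)
          (fun hG => by
            have := hG.1
            rw [s8, kv] at this
            simp at this) o1)
    exact ⟨od_succ o2, lc_of_od o2⟩

end

end Pool.Agent.GaussPoset.Win.Pb

end

/-! From `Pool.Agent.W_448p_h97.PbE` -/

section

/-!
MP_448cb3_co, G2, case B, window `j`: both labels of the star positive
(the statements of `W_448w4_h10` for a star in a larger set `K` of unmatched doubles, the same proofs: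
written by a script from the files of helper10).  helper97.
-/

namespace Pool.Agent.GaussPoset.Win.Pb

set_option linter.unusedSectionVars false

open Finset W4
open Pool.Agent.GaussPoset.Win.So (IV IV_chi IV_Fe)
open Pool.Agent.GaussPoset.Win.SO (LowD UppD val_gen PN vp con on)

universe u

variable {P : Type u} [Fintype P] [PartialOrder P] [DecidableEq P] {r i : ℕ}
variable {e f : P → ℕ} {psi : P → P} {C K : Finset P} {w v : P}

section

variable (Q : K5w r i K psi C w v) {p q s : P} (hw : uc w = {p, q}) (hv : dc v = {q, s})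
  (hpq : p ≠ q) (hqs : q ≠ s) (hps : p ≠ s)
include Q hw hv hpq hqs hps

/-- `Jx` of a configuration with labels on the sites -/
lemma K5w.Jx_Sc (hS : Sc i e) (a b m : ℕ) :
    Jx i K psi C w v e a b m = JK i K psi C m (e + Pi.single w a + Pi.single v b) := by
  unfold Jx
  rw [if_pos]
  refine ⟨Or.inr ?_, Or.inr ?_⟩
  · rw [hS.tch Q.H]; exact notMem_empty w
  · rw [hS.tch Q.H]; exact notMem_empty v

lemma K5w.spt2 (hs : Spt C e) (a b : ℕ) : Spt C (e + Pi.single w a + Pi.single v b) := by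
  intro y hy
  have h1 : y ≠ w := by
    rintro rfl
    exact hy Q.wC
  have h2 : y ≠ v := by
    rintro rfl
    exact hy Q.vC
  rw [Pi.add_apply, Pi.add_apply, hs y hy, Pi.single_apply, Pi.single_apply, if_neg h1, if_neg h2,
    add_zero, add_zero]

/-- `Jx` with no free label, labels on the sites -/
lemma K5w.Jx_Sc0 (hS : Sc i e) (hs : Spt C e) (a b : ℕ) :
    Jx i K psi C w v e a b 0 = tC i C (e + Pi.single w a + Pi.single v b) := by
  rw [Q.Jx_Sc hw hv hpq hqs hps hS, JK_zero Q.H Q.hir Q.part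
    (Q.spt2 hw hv hpq hqs hps hs a b)]

/-- the configuration with label one at the common site -/
lemma K5w.sgl : Sc i (Pi.single q 1 : P → ℕ) ∧ Spt C (Pi.single q 1 : P → ℕ) ∧
    (Pi.single q 1 : P → ℕ) q = 1 ∧ (Pi.single q 1 : P → ℕ) p = 0 ∧
    (Pi.single q 1 : P → ℕ) s = 0 ∧ ∀ y, (Pi.single q 1 : P → ℕ) y < 2 := by
  obtain ⟨l1, l2, l3⟩ := Q.lpq hw hv hpq hqs hps
  obtain ⟨m1, m2, m3⟩ := Q.memC hw hv hpq hqs hps
  refine ⟨?_, ?_, by simp, ?_, ?_, ?_⟩
  · intro x hx
    rw [Pi.single_apply, if_neg]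
    rintro rfl
    exact hx l2
  · intro x hx
    rw [Pi.single_apply, if_neg]
    rintro rfl
    exact hx m2
  · rw [Pi.single_apply, if_neg hpq]
  · rw [Pi.single_apply, if_neg hqs.symm]
  · intro y
    rw [Pi.single_apply]
    split_ifs <;> omega

/-- label one on `w`, two on `v` -/
theorem K5w.both_12 :
    od (st i C).card 2 (Jx i K psi C w v (Pi.single q 1) 1 2 0) ∧
    lc (st i C).card 2 (Jx i K psi C w v (Pi.single q 1) 1 2 0) = 1 := by
  have H := Q.H
  have hir := Q.hir
  obtain ⟨l1, l2, l3⟩ := Q.lpq hw hv hpq hqs hps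
  obtain ⟨hS, hs, eq1, ep, es, e2⟩ := Q.sgl hw hv hpq hqs hps
  obtain ⟨e, he⟩ : ∃ e : P → ℕ, e = Pi.single q 1 := ⟨_, rfl⟩
  rw [← he] at hS hs eq1 ep es e2 ⊢
  rw [Q.Jx_Sc0 hw hv hpq hqs hps hS hs]
  obtain ⟨-, -, h1, h2, o0, c0⟩ := hS.val (C := C) Q.H Q.hi Q.hi2
  obtain ⟨s1, s2, s3, s4, s5, s6, s7, s8⟩ := Q.step_w hw hv hpq hqs hps hS hs (by omega) (a := 1)
  have nw := Q.nzw hw hv hpq hqs hps
  have nv := Q.nzv hw hv hpq hqs hps
  have kw : kz i e w 1 = {p} := by
    ext y
    rw [mem_kz, nw, mem_insert, mem_singleton, mem_singleton]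
    constructor
    · rintro ⟨rfl | rfl, g⟩
      · rfl
      · omega
    · rintro rfl
      exact ⟨Or.inl rfl, by omega⟩
  have cw2 : (nz i w).card = 2 := by rw [nw, card_pair hpq]
  have cv2 : (nz i v).card = 2 := by rw [nv, card_pair hqs]
  have hdis : Disjoint (AL i e) (AU i e) := by rw [h1]; exact disjoint_empty_left _
  have hdis1 : Disjoint (AL i (e + Pi.single w 1)) (AU i (e + Pi.single w 1)) := by
    rw [s7]; exact disjoint_empty_right _
  have sgw : sg1 i w = 1 := by unfold sg1; rw [if_pos Q.lw0]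
  have sgv : sg1 i v = -1 := by unfold sg1; rw [if_neg (by have := Q.lv0; omega)]
  have hG : Gx i e w 1 := ⟨by rw [kw, card_singleton], cw2, by
    rw [h1, h2, union_empty]; exact disjoint_empty_right _⟩
  obtain ⟨o1, c1⟩ := val_G H hir Q.hC hs hdis Q.nw Q.wC s2 s3 hG o0
  rw [sgw, c0] at c1
  have hF : Fx i (e + Pi.single w 1) v 2 := by
    refine ⟨?_, ?_⟩
    · rw [← kz_eq_iff, s8, kz_eq_iff]
      intro y _
      exact e2 y
    · rw [s6, s7, kw, union_empty, nv, disjoint_singleton_right, mem_insert, mem_singleton]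
      rintro (h | h)
      · exact hpq h
      · exact hps h
  obtain ⟨o2, c2⟩ := val_F H hir Q.hC s1 hdis1 Q.nv Q.vC s4 s5 cv2 hF o1
  refine ⟨o2, ?_⟩
  rw [c2, c1, sgv]
  norm_num

/-- label two on `w`, one on `v` -/
theorem K5w.both_21 :
    od (st i C).card 2 (Jx i K psi C w v (Pi.single q 1) 2 1 0) ∧
    lc (st i C).card 2 (Jx i K psi C w v (Pi.single q 1) 2 1 0) = 1 := by
  have H := Q.H
  have hir := Q.hir
  obtain ⟨l1, l2, l3⟩ := Q.lpq hw hv hpq hqs hps
  obtain ⟨hS, hs, eq1, ep, es, e2⟩ := Q.sgl hw hv hpq hqs hps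
  obtain ⟨e, he⟩ : ∃ e : P → ℕ, e = Pi.single q 1 := ⟨_, rfl⟩
  rw [← he] at hS hs eq1 ep es e2 ⊢
  rw [Q.Jx_Sc0 hw hv hpq hqs hps hS hs]
  obtain ⟨-, -, h1, h2, o0, c0⟩ := hS.val (C := C) Q.H Q.hi Q.hi2
  obtain ⟨s1, s2, s3, s4, s5, s6, s7, s8⟩ := Q.step_w hw hv hpq hqs hps hS hs (by omega) (a := 2)
  have nw := Q.nzw hw hv hpq hqs hps
  have nv := Q.nzv hw hv hpq hqs hps
  have kv : kz i e v 1 = {s} := by
    ext y
    rw [mem_kz, nv, mem_insert, mem_singleton]
    constructor
    · rintro ⟨rfl | rfl, g⟩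
      · omega
      · rfl
    · rintro rfl
      exact ⟨Or.inr rfl, by omega⟩
  have kw : kz i e w 2 = {p, q} := by
    rw [← nw, kz_eq_iff]
    intro y _
    exact e2 y
  have cw2 : (nz i w).card = 2 := by rw [nw, card_pair hpq]
  have cv2 : (nz i v).card = 2 := by rw [nv, card_pair hqs]
  have hdis : Disjoint (AL i e) (AU i e) := by rw [h1]; exact disjoint_empty_left _
  have hdis1 : Disjoint (AL i (e + Pi.single w 2)) (AU i (e + Pi.single w 2)) := by
    rw [s7]; exact disjoint_empty_right _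
  have sgw : sg1 i w = 1 := by unfold sg1; rw [if_pos Q.lw0]
  have sgv : sg1 i v = -1 := by unfold sg1; rw [if_neg (by have := Q.lv0; omega)]
  have hF : Fx i e w 2 := ⟨fun y _ => e2 y, by
    rw [h1, h2, union_empty]; exact disjoint_empty_right _⟩
  obtain ⟨o1, c1⟩ := val_F H hir Q.hC hs hdis Q.nw Q.wC s2 s3 cw2 hF o0
  rw [sgw, c0] at c1
  have hG : Gx i (e + Pi.single w 2) v 1 := by
    refine ⟨by rw [s8, kv, card_singleton], cv2, ?_⟩
    rw [s8, kv, s6, s7, kw, union_empty, disjoint_singleton_left, mem_insert, mem_singleton]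
    rintro (h | h)
    · exact hps h.symm
    · exact hqs h.symm
  obtain ⟨o2, c2⟩ := val_G H hir Q.hC s1 hdis1 Q.nv Q.vC s4 s5 hG o1
  refine ⟨o2, ?_⟩
  rw [c2, c1, sgv]
  norm_num

/-- label one on `w`, `v` and a free near element -/
theorem K5w.both_111 :
    lc (st i C).card 2 (Jx i K psi C w v (Pi.single q 1) 1 1 1) =
      -(Vc i K C + dg i K C p + dg i K C s + 2 * dg i K C q - 2 * W4.mm i K C {p, q}
        - 2 * W4.mm i K C {q, s} - W4.mm i K C {p, s}) := by
  have H := Q.H
  have hir := Q.hir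
  obtain ⟨l1, l2, l3⟩ := Q.lpq hw hv hpq hqs hps
  obtain ⟨hS, hs, eq1, ep, es, e2⟩ := Q.sgl hw hv hpq hqs hps
  have ez : ∀ y, y ≠ q → (Pi.single q 1 : P → ℕ) y = 0 := by
    intro y hy
    rw [Pi.single_apply, if_neg hy]
  obtain ⟨e, he⟩ : ∃ e : P → ℕ, e = Pi.single q 1 := ⟨_, rfl⟩
  rw [← he] at hS hs eq1 ep es e2 ez ⊢
  rw [Q.Jx_Sc hw hv hpq hqs hps hS]
  obtain ⟨o2, c2⟩ := Q.both_11 hw hv hpq hqs hps hS hs (by omega)
  rw [if_pos ⟨ep, es⟩] at c2
  obtain ⟨-, -, h1, h2, -, -⟩ := hS.val (C := C) Q.H Q.hi Q.hi2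
  obtain ⟨s1, s2, s3, s4, s5, s6, s7, s8⟩ := Q.step_w hw hv hpq hqs hps hS hs (by omega) (a := 1)
  have nw := Q.nzw hw hv hpq hqs hps
  have nv := Q.nzv hw hv hpq hqs hps
  have kw : kz i e w 1 = {p} := by
    ext y
    rw [mem_kz, nw, mem_insert, mem_singleton, mem_singleton]
    constructor
    · rintro ⟨rfl | rfl, g⟩
      · rfl
      · omega
    · rintro rfl
      exact ⟨Or.inl rfl, by omega⟩
  have kv : kz i e v 1 = {s} := by
    ext y
    rw [mem_kz, nv, mem_insert, mem_singleton]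
    constructor
    · rintro ⟨rfl | rfl, g⟩
      · omega
      · rfl
    · rintro rfl
      exact ⟨Or.inr rfl, by omega⟩
  have aL : AL i (e + Pi.single w 1 + Pi.single v 1) = {p} := by
    rw [AL_upp H Q.lv0 s5, s6, kw]
  have aU : AU i (e + Pi.single w 1 + Pi.single v 1) = {s} := by
    rw [AU_upp H Q.lv0 s5, s7, s8, kv, empty_union]
  have hRK : RK i K psi C (e + Pi.single w 1 + Pi.single v 1) = RK i K psi C e := by
    rw [RK_add H (single_far Q.nv 1), RK_add H (single_far Q.nw 1)]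
  have hval : ∀ y, y ≠ w → y ≠ v → (e + Pi.single w 1 + Pi.single v 1 : P → ℕ) y = e y := by
    intro y h h'
    rw [Pi.add_apply, Pi.add_apply, Pi.single_apply, Pi.single_apply, if_neg h, if_neg h',
      add_zero, add_zero]
  have hlev : ∀ y, lev y = i → y ≠ w ∧ y ≠ v := by
    intro y hy
    have := Q.lw0
    have := Q.lv0
    constructor
    · rintro rfl; omega
    · rintro rfl; omega
  have hz0 : ∀ y ∈ RK i K psi C (e + Pi.single w 1 + Pi.single v 1),
      (e + Pi.single w 1 + Pi.single v 1 : P → ℕ) y = 0 := by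
    intro y hy
    rw [hRK] at hy
    have hyw : y ≠ w := by
      rintro rfl
      exact notMem_RK Q.wK hy
    have hyv : y ≠ v := by
      rintro rfl
      exact notMem_RK Q.vK hy
    rw [hval y hyw hyv]
    have := mem_near.1 (mem_Rst.1 (mem_RK.1 hy).1).1
    exact hS y (by omega)
  have hd : Disjoint (AL i (e + Pi.single w 1 + Pi.single v 1))
      (AU i (e + Pi.single w 1 + Pi.single v 1)) := by
    rw [aL, aU, disjoint_singleton]
    exact hps
  rw [JK_one H Q.hi Q.hi2 Q.hM Q.hC (Q.spt2 hw hv hpq hqs hps hs 1 1) hz0 hd o2,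
    om_pqs H Q.hi Q.hi2 Q.hM Q.hC hpq hps hqs, c2]
  · ring
  · obtain ⟨g1, g2⟩ := hlev q l2
    rw [hval q g1 g2]
    omega
  · intro y hy hyq
    obtain ⟨g1, g2⟩ := hlev y hy
    rw [hval y g1 g2]
    exact ez y hyq
  · rw [aL, aU]
    rfl
  · exact l2
  · rw [hRK]
    exact hS.RK H

end

end Pool.Agent.GaussPoset.Win.Pb

end
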