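import Mathlib
import Pool.Agent.W_448zz_h61.Ns
import Pool.Agent.W_448zz_h61.M158
import Pool.Agent.W_448zz_h61.M213

/-! From `Pool.Agent.W_448mp_h83.MpA` -/

section

/-! The matching polynomial of every piece of a level is one (MP_448cb3_co). -/

namespace Pool.Agent.GaussPoset.Mp

set_option linter.unusedSectionVars false

open Finset Win St Polynomial

universe u

variable {P : Type u} [Fintype P] [PartialOrder P] [DecidableEq P] {r i : ℕ}

/-- a set of elements of level `i` without defect to the other elements of the level -/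
structure Pce (P : Type u) [Fintype P] [PartialOrder P] [DecidableEq P] (i : ℕ) (W : Finset P) :
    Prop where
  sub : W ⊆ lv P i
  zero : ∀ u ∈ W, ∀ w, lev w = i → w ∉ W → Df i {u, w} = 0

/-- the matching polynomial of a piece is one -/
theorem mp_piece (H : Gr P r) (hi : i ≤ r) {W : Finset P} (h : Pce P i W) : mp (Df i) W = 1 := by
  refine mp_left (W := lv P i \ W) disjoint_sdiff ?_ ?_
  · intro u hu w hw
    rw [mem_sdiff, mem_lv] at hw
    exact h.zero u hu w hw.1 hw.2
  · rw [union_sdiff_of_subset h.sub]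
    exact EK.mp_lv H hi

/-- the signed number of double near elements with both sites in a piece vanishes -/
theorem piece_lin (H : Gr P r) (hi : i ≤ r) {W : Finset P} (h : Pce P i W) :
    ∑ u ∈ W, ∑ w ∈ W.erase u, Df i {u, w} = 0 := P2_eq_zero (mp_piece H hi h)

/-- a piece with two elements has no defect -/
theorem piece_pair (H : Gr P r) (hi : i ≤ r) {u w : P} (hne : u ≠ w) (h : Pce P i {u, w}) :
    Df i {u, w} = 0 := by
  have h1 := piece_lin H hi h
  rw [sum_pair hne, erase_insert (by simpa using hne), pair_comm u w,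
    erase_insert (by simpa using hne.symm), sum_singleton, sum_singleton, pair_comm w u] at h1
  omega

/-- the defect of a pair -/
lemma Df_val (H : Gr P r) {u w : P} (hu : lev u = i) (hne : u ≠ w) :
    Df i {u, w} = (dcv u w : ℤ) - ucv u w := Df_pair H hu hne

/-- an isolated pair has as many common lower covers as common upper covers -/
theorem pair_eq (H : Gr P r) (hi : i ≤ r) {u w : P} (hu : lev u = i) (hw : lev w = i)
    (hne : u ≠ w) (h : ∀ v, lev v = i → v ≠ u → v ≠ w → Df i {u, v} = 0 ∧ Df i {w, v} = 0) :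
    dcv u w = ucv u w := by
  have h1 : Pce P i {u, w} := by
    refine ⟨?_, ?_⟩
    · intro x hx
      rw [mem_insert, mem_singleton] at hx
      rw [mem_lv]
      rcases hx with rfl | rfl
      · exact hu
      · exact hw
    · intro x hx v hv hn
      rw [mem_insert, mem_singleton, not_or] at hn
      rw [mem_insert, mem_singleton] at hx
      rcases hx with rfl | rfl
      · exact (h v hv hn.1 hn.2).1
      · exact (h v hv hn.1 hn.2).2
  have h2 := piece_pair H hi hne h1
  rw [Df_val H hu hne] at h2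
  omega

end Pool.Agent.GaussPoset.Mp

end

/-! From `Pool.Agent.W_448kf_h15.KfD` -/

section

/-!
MP_448cb3_co, G2, case B, window `j`: doubles, children of the pendants, elements over three sites of a
part whose sites are a row.  helper15.
-/

namespace Pool.Agent.GaussPoset.Win.W4

set_option linter.unusedSectionVars false

open Finset
open Pool.Agent.GaussPoset.Win.SO (PN vp con on mem_PN vp_PD vp_PU TD)

universe u

variable {P : Type u} [Fintype P] [PartialOrder P] [DecidableEq P] {r i : ℕ}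
variable {psi : P → P} {C K : Finset P} {w v : P} {m : ℕ} {x : ℕ → P}

lemma uc_pen {y g : P} (h : g ∈ pen y) : uc g = {y} := by
  obtain ⟨h1, h2⟩ := mem_pen.1 h
  obtain ⟨s, hs⟩ := card_eq_one.1 h2
  have h3 := mem_uc.2 h1
  rw [hs, mem_singleton] at h3
  rw [hs, h3]

namespace PRow

variable (W : PRow r i C m x)
include W

/-- the children of a lower pendant -/
lemma ch_PD {z y : P} (hz : z ∈ PD P i) (hzC : z ∈ C)
    (hy : uc z = {y}) : ch i C z = 2 * (pen z).card + (pen y).card - 1 := by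
  classical
  have H := W.H
  obtain ⟨-, y', hcon, -, -, hs2, -, hor⟩ := PN_dat H (C := C) (mem_PN.2 ⟨hzC, Or.inl hz⟩)
  rcases hor with ⟨-, hlz, hly, h4, hsit, -, -⟩ | ⟨h3, -⟩
  swap
  · have := lev_PU h3
    have := lev_PD hz
    omega
  have hyy : y' = y := by
    rw [hy, singleton_inj] at h4
    exact h4.symm
  subst hyy
  have hyC : y' ∈ C := W.hC.up hzC (mem_uc.1 (by rw [h4]; exact mem_singleton_self y'))
  have e1 : Ch i C z = pen z ∪ (pen y').erase z := by
    ext g
    rw [mem_Ch, mem_union, mem_erase]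
    constructor
    · rintro ⟨hg, hcd, hne⟩
      rcases hcd with ⟨-, h2, h3⟩ | ⟨h1, -⟩
      · rw [hcon] at h3
        obtain ⟨s, hs⟩ : (uc g).Nonempty := by
          rcases uc_card_cases H (x := g) (by omega) with h | h
          · exact card_pos.1 (by omega)
          · exact card_pos.1 (by omega)
        have hs1 := h3 hs
        rw [mem_insert, mem_singleton] at hs1
        have hls := lev_uc H hs
        have hall : ∀ s' ∈ uc g, s' = s := by
          intro s' hs'
          have h5 := h3 hs'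
          rw [mem_insert, mem_singleton] at h5
          have h6 := lev_uc H hs'
          rcases hs1 with rfl | rfl <;> rcases h5 with rfl | rfl <;> first | rfl | omega
        have hcard : (uc g).card = 1 := by
          rw [card_eq_one]
          exact ⟨s, eq_singleton_iff_unique_mem.2 ⟨hs, hall⟩⟩
        rcases hs1 with rfl | rfl
        · exact Or.inl (mem_pen.2 ⟨mem_uc.1 hs, hcard⟩)
        · exact Or.inr ⟨hne, mem_pen.2 ⟨mem_uc.1 hs, hcard⟩⟩
      · omega
    · rintro (h1 | ⟨h1, h2⟩)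
      · have hl := lev_cov H (mem_pen.1 h1).1
        refine ⟨W.cl g z hzC (uc_pen h1), Or.inl ⟨by omega, by omega, ?_⟩, by rintro rfl; omega⟩
        rw [hcon, uc_pen h1]
        exact singleton_subset_iff.2 (mem_insert_self _ _)
      · have hl := lev_cov H (mem_pen.1 h2).1
        refine ⟨W.cl g y' hyC (uc_pen h2), Or.inl ⟨by omega, by omega, ?_⟩, h1⟩
        rw [hcon, uc_pen h2]
        exact singleton_subset_iff.2 (mem_insert_of_mem (mem_singleton_self _))
  have hd : Disjoint (pen z) ((pen y').erase z) := by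
    rw [disjoint_left]
    intro g h1 h2
    have h3 := lev_cov H (mem_pen.1 h1).1
    have h5 := lev_cov H (mem_pen.1 (mem_erase.1 h2).2).1
    omega
  have hzy : z ∈ pen y' := mem_pen.2 ⟨mem_uc.1 (by rw [h4]; exact mem_singleton_self y'),
    by rw [h4, card_singleton]⟩
  unfold ch
  rw [e1, sum_union hd, sum_congr (g := fun _ => (2 : ℤ)) (s₁ := pen z) rfl,
    sum_congr (g := fun _ => (1 : ℤ)) (s₁ := (pen y').erase z) rfl]
  · rw [sum_const, sum_const, card_erase_of_mem hzy]
    have := card_pos.2 ⟨z, hzy⟩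
    simp
    omega
  · intro g hg
    rw [mem_erase] at hg
    unfold c3
    rw [if_pos]
    refine ⟨mem_PN.2 ⟨W.cl g y' hyC (uc_pen hg.2), Or.inl (mem_PD.2 ?_)⟩, hg.1⟩
    have hl := lev_cov H (mem_pen.1 hg.2).1
    refine ⟨show lev g = i + 2 by omega, (mem_pen.1 hg.2).2, y', (mem_pen.1 hg.2).1, ?_⟩
    rw [← hsit]
    exact hs2
  · intro g hg
    have hl := lev_cov H (mem_pen.1 hg).1
    unfold c3
    rw [if_neg]
    rintro ⟨h1, -⟩
    rcases (mem_PN.1 h1).2 with h | h
    · have h5 : lev g = i + 2 := (lev_PD h).1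
      omega
    · have h5 : lev g + 2 = i := (lev_PU h).1
      omega

/-- the children are nonnegative -/
lemma ch_nonneg (z : P) : 0 ≤ ch i C z := by
  unfold ch
  refine sum_nonneg fun g _ => ?_
  unfold c3
  split_ifs <;> norm_num

lemma pen_le (z : P) : (pen z).card ≤ 2 := by
  classical
  have H := W.H
  by_cases h : (pen z).Nonempty
  · obtain ⟨g, hg⟩ := h
    have h2 : pen z ⊆ dc z := fun s hs => mem_dc.2 (mem_pen.1 hs).1
    have h3 := card_le_card h2
    rcases dc_card_cases H (mem_pen.1 hg).1 with h | h <;> omega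
  · rw [not_nonempty_iff_eq_empty] at h
    rw [h, card_empty]
    omega

/-- a lower double is over an edge -/
lemma lo_ed (hd : ∀ k l, k < l → l ≤ m → l ≠ k + 1 → dcv (x k) (x l) = 0) {y : P} (hyC : y ∈ C)
    (hly : lev y = i + 1) (hy2 : (uc y).card = 2) : ∃ k, k < m ∧ uc y = ed x k := by
  classical
  obtain ⟨a, b, hab, hs⟩ := card_eq_two.1 hy2
  have ha : a ∈ uc y := by rw [hs]; exact mem_insert_self _ _
  have hb : b ∈ uc y := by rw [hs]; exact mem_insert_of_mem (mem_singleton_self _)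
  have hla := lev_uc W.H ha
  have hlb := lev_uc W.H hb
  obtain ⟨k, hk, rfl⟩ := W.surj a (W.hC.up hyC (mem_uc.1 ha)) (by omega)
  obtain ⟨l, hl, rfl⟩ := W.surj b (W.hC.up hyC (mem_uc.1 hb)) (by omega)
  have hkl : k ≠ l := by
    rintro rfl
    exact hab rfl
  have key : ∀ k l, k < l → l ≤ m → x k ∈ uc y → x l ∈ uc y → l = k + 1 := by
    intro k l hkl hl h1 h2
    by_contra hne
    have h3 := hd k l hkl hl hne
    unfold dcv at h3
    rw [card_eq_zero, filter_eq_empty_iff] at h3
    exact h3 (mem_univ y) ⟨mem_uc.1 h1, mem_uc.1 h2⟩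
  rcases Nat.lt_or_gt_of_ne hkl with h | h
  · have := key k l h hl ha hb
    exact ⟨k, by omega, by rw [hs, this]; rfl⟩
  · have := key l k h hk hb ha
    exact ⟨l, by omega, by rw [hs, this, pair_comm]; rfl⟩

/-- an upper double is over an edge -/
lemma up_ed {y : P} (hyC : y ∈ C) (hly : lev y + 1 = i) (hy2 : (dc y).card = 2) :
    ∃ k, k < m ∧ dc y = ed x k := by
  classical
  obtain ⟨a, b, hab, hs⟩ := card_eq_two.1 hy2
  have ha : a ∈ dc y := by rw [hs]; exact mem_insert_self _ _
  have hb : b ∈ dc y := by rw [hs]; exact mem_insert_of_mem (mem_singleton_self _)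
  have hla := lev_cov W.H (mem_dc.1 ha)
  have hlb := lev_cov W.H (mem_dc.1 hb)
  obtain ⟨k, hk, rfl⟩ := W.surj a (W.hC.dn hyC (by omega) (mem_dc.1 ha)) (by omega)
  obtain ⟨l, hl, rfl⟩ := W.surj b (W.hC.dn hyC (by omega) (mem_dc.1 hb)) (by omega)
  have hkl : k ≠ l := by
    rintro rfl
    exact hab rfl
  have key : ∀ k l, k < l → l ≤ m → x k ∈ dc y → x l ∈ dc y → l = k + 1 := by
    intro k l hkl hl h1 h2
    by_contra hne
    have h3 := W.up k l hkl hl
    rw [if_neg hne] at h3
    unfold ucv at h3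
    rw [card_eq_zero, filter_eq_empty_iff] at h3
    exact h3 (mem_univ y) ⟨mem_dc.1 h1, mem_dc.1 h2⟩
  rcases Nat.lt_or_gt_of_ne hkl with h | h
  · have := key k l h hl ha hb
    exact ⟨k, by omega, by rw [hs, this]; rfl⟩
  · have := key l k h hk hb ha
    exact ⟨l, by omega, by rw [hs, this, pair_comm]; rfl⟩

/-- the upper double over an edge is unique -/
lemma up_uniq {k : ℕ} (hk : k < m) {u u' : P} (h1 : dc u = ed x k) (h2 : dc u' = ed x k) :
    u = u' := by
  classical
  have h3 := W.up k (k + 1) (by omega) (by omega)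
  rw [if_pos rfl] at h3
  unfold ucv at h3
  rw [card_eq_one] at h3
  obtain ⟨s, hs⟩ := h3
  have key : ∀ u, dc u = ed x k → u = s := by
    intro u hu
    have : u ∈ ({s} : Finset P) := by
      rw [← hs, mem_filter]
      refine ⟨mem_univ _, ?_, ?_⟩
      · rw [← mem_dc, hu]
        exact (W.mem_ed (by omega) hk).2 (Or.inl rfl)
      · rw [← mem_dc, hu]
        exact (W.mem_ed (by omega) hk).2 (Or.inr rfl)
    exact mem_singleton.1 this
  rw [key u h1, key u' h2]

/-- two edges with exactly one common site -/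
lemma ed_near {k l : ℕ} (hk : k < m) (hl : l < m) {s : P} (h1 : s ∈ ed x k) (h2 : s ∈ ed x l)
    (hne : ed x k ≠ ed x l) : l = k + 1 ∨ k = l + 1 := by
  have h3 : ¬ Disjoint (ed x k) (ed x l) := by
    rw [disjoint_left]
    exact fun h => h h1 h2
  rw [W.disj_ed hk hl] at h3
  have h4 : k ≠ l := by
    rintro rfl
    exact hne rfl
  omega

/-- a lower element over two doubles -/
lemma T_low (hd : ∀ k l, k < l → l ≤ m → l ≠ k + 1 → dcv (x k) (x l) = 0) {z : P}
    (hz : z ∈ T4 i C) (hl : i < lev z) : ∃ k y y', k + 2 ≤ m ∧ z ∈ C ∧ lev z = i + 2 ∧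
      y ≠ y' ∧ uc z = {y, y'} ∧ uc y = ed x k ∧ uc y' = ed x (k + 1) ∧
      sit i z = ed x k ∪ ed x (k + 1) := by
  classical
  have H := W.H
  rcases mem_T4.1 hz with ⟨h1, h2⟩ | ⟨h1, -⟩
  swap
  · have := (mem_ZU.1 h1).2.1
    omega
  obtain ⟨hzC, hlz, h3⟩ := mem_ZL.1 h1
  obtain ⟨a, b, s, T⟩ := T4_low H h1 h2
  have hsit : sit i z = uc a ∪ uc b := by
    rw [sit_low H (by omega)]
    ext q
    rw [mem_sts_iff H hlz, T.cw, mem_union]
    simp
  have haz : a ∈ uc z := by rw [T.cw]; exact mem_insert_self _ _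
  have hbz : b ∈ uc z := by rw [T.cw]; exact mem_insert_of_mem (mem_singleton_self _)
  have haC := W.hC.up hzC (mem_uc.1 haz)
  have hbC := W.hC.up hzC (mem_uc.1 hbz)
  have hla := lev_uc H haz
  have hlb := lev_uc H hbz
  obtain ⟨k, hk, ek⟩ := W.lo_ed hd haC (by omega) T.cx
  obtain ⟨l, hl', el⟩ := W.lo_ed hd hbC (by omega) T.cx'
  have hne : ed x k ≠ ed x l := by
    intro h
    have h5 : (uc a).card = 1 := by
      rw [card_eq_one]
      refine ⟨s, eq_singleton_iff_unique_mem.2 ⟨T.sx, fun q hq => T.only q hq ?_⟩⟩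
      rw [el, ← h, ← ek]
      exact hq
    have := T.cx
    omega
  rcases W.ed_near hk hl' (s := s) (ek ▸ T.sx) (el ▸ T.sx') hne with h | h
  · subst h
    exact ⟨k, a, b, by omega, hzC, hlz, T.ne, T.cw, ek, el, by rw [hsit, ek, el]⟩
  · subst h
    exact ⟨l, b, a, by omega, hzC, hlz, T.ne.symm, by rw [T.cw, pair_comm], el, ek,
      by rw [hsit, ek, el, union_comm]⟩

/-- an upper element over two doubles -/
lemma T_upp {z : P} (hz : z ∈ T4 i C) (hl : lev z < i) : ∃ k y y', k + 2 ≤ m ∧ z ∈ C ∧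
      lev z + 2 = i ∧ y ≠ y' ∧ dc z = {y, y'} ∧ dc y = ed x k ∧ dc y' = ed x (k + 1) ∧
      sit i z = ed x k ∪ ed x (k + 1) := by
  classical
  have H := W.H
  rcases mem_T4.1 hz with ⟨h1, h2⟩ | ⟨h1, h2⟩
  · have := (mem_ZL.1 h1).2.1
    omega
  obtain ⟨hzC, hlz, h3⟩ := mem_ZU.1 h1
  obtain ⟨a, b, s, T⟩ := T4_upp H h1 h2
  have hsit : sit i z = dc a ∪ dc b := by
    rw [sit_upp H (by omega)]
    ext q
    rw [mem_stD_iff H hlz, T.cw, mem_union]
    simp
  have haz : a ∈ dc z := by rw [T.cw]; exact mem_insert_self _ _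
  have hbz : b ∈ dc z := by rw [T.cw]; exact mem_insert_of_mem (mem_singleton_self _)
  have hla := lev_cov H (mem_dc.1 haz)
  have hlb := lev_cov H (mem_dc.1 hbz)
  have haC := W.hC.dn hzC (by omega) (mem_dc.1 haz)
  have hbC := W.hC.dn hzC (by omega) (mem_dc.1 hbz)
  obtain ⟨k, hk, ek⟩ := W.up_ed haC (by omega) T.cx
  obtain ⟨l, hl', el⟩ := W.up_ed hbC (by omega) T.cx'
  have hne : ed x k ≠ ed x l := by
    intro h
    have h5 : (dc a).card = 1 := by
      rw [card_eq_one]
      refine ⟨s, eq_singleton_iff_unique_mem.2 ⟨T.sx, fun q hq => T.only q hq ?_⟩⟩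
      rw [el, ← h, ← ek]
      exact hq
    have := T.cx
    omega
  rcases W.ed_near hk hl' (s := s) (ek ▸ T.sx) (el ▸ T.sx') hne with h | h
  · subst h
    exact ⟨k, a, b, by omega, hzC, hlz, T.ne, T.cw, ek, el, by rw [hsit, ek, el]⟩
  · subst h
    exact ⟨l, b, a, by omega, hzC, hlz, T.ne.symm, by rw [T.cw, pair_comm], el, ek,
      by rw [hsit, ek, el, union_comm]⟩

/-- the signed products of meeting pendants -/
lemma sum_M4_row (hd : ∀ k l, k < l → l ≤ m → l ≠ k + 1 → dcv (x k) (x l) = 0) :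
    ∑ q ∈ M4 i C, vp i q.1 * vp i q.2 = ∑ k ∈ range m, NE i C x k *
      ∑ l ∈ range m, NE i C x l * (if ¬ Disjoint (ed x k) (ed x l) then 1 else 0) := by
  classical
  rw [sum_M4]
  have e1 : ∀ p ∈ PN i C, (∑ q ∈ PN i C,
      if ¬ Disjoint (sit i p) (sit i q) then vp i p * vp i q else 0) =
      vp i p * ∑ l ∈ range m, NE i C x l *
        (if ¬ Disjoint (sit i p) (ed x l) then 1 else 0) := by
    intro p _
    have e2 := W.group hd (fun z => vp i z) (fun T => if ¬ Disjoint (sit i p) T then 1 else 0)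
    simp only [← NE_eq] at e2
    rw [← e2, mul_sum]
    refine sum_congr rfl fun q _ => ?_
    split_ifs <;> ring
  rw [sum_congr rfl e1]
  have e3 := W.group hd (fun z => vp i z) (fun T => ∑ l ∈ range m, NE i C x l *
        (if ¬ Disjoint T (ed x l) then 1 else 0))
  simp only [← NE_eq] at e3
  exact e3

end PRow

end Pool.Agent.GaussPoset.Win.W4

end

/-! From `Pool.Agent.W_448kf_h15.KfF` -/

section

/-!
MP_448cb3_co, G2, case B, window `j`: `F` of a part with the pattern [DL]: the form with squares, the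
elements over three sites, bounds.  helper15.
-/

namespace Pool.Agent.GaussPoset.Win.W4

set_option linter.unusedSectionVars false

open Finset
open Pool.Agent.GaussPoset.Win.SO (PN vp con on mem_PN vp_PD vp_PU TD)

universe u

variable {P : Type u} [Fintype P] [PartialOrder P] [DecidableEq P] {r i : ℕ}
variable {psi : P → P} {C K : Finset P} {w v : P} {m : ℕ} {x : ℕ → P}

/-- lower elements over the sites `x 2, x 3, x 4` and two doubles -/
noncomputable def TLs (i : ℕ) (C : Finset P) (x : ℕ → P) : Finset P :=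
  (T4 i C).filter (fun z => i < lev z ∧ sit i z = ed x 2 ∪ ed x 3)

/-- upper elements over the sites `x 2, x 3, x 4` and two doubles -/
noncomputable def TUs (i : ℕ) (C : Finset P) (x : ℕ → P) : Finset P :=
  (T4 i C).filter (fun z => lev z < i ∧ sit i z = ed x 2 ∪ ed x 3)

/-- the elements over three sites with a single cover -/
noncomputable def OCs (i : ℕ) (C : Finset P) (w v : P) : ℤ :=
  ∑ z ∈ Z4 i C \ T4 i C, (2 - 2 * (tz i z * (Nx i w z - Nx i v z)))

lemma tz_le (z : P) : tz i z * (Nx i w z - Nx i v z) ≤ 1 := by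
  unfold tz Nx
  split_ifs <;> norm_num

lemma OCs_nonneg : 0 ≤ OCs i C w v := by
  unfold OCs
  refine sum_nonneg fun z _ => ?_
  have := tz_le (i := i) (w := w) (v := v) z
  linarith

lemma Zs_split : Zs i C w v = OCs i C w v - 2 * ∑ z ∈ T4 i C, tz i z * (Nx i w z - Nx i v z) := by
  classical
  have h1 := T4_subset i C
  have h2 := card_sdiff_add_card_eq_card h1
  have h3 := sum_sdiff (f := fun z => tz i z * (Nx i w z - Nx i v z)) h1
  unfold Zs OCs
  rw [← h3, sum_sub_distrib, ← mul_sum]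
  rw [sum_const, nsmul_eq_mul]
  have h4 : ((Z4 i C).card : ℤ) = ((Z4 i C \ T4 i C).card : ℤ) + (T4 i C).card := by
    exact_mod_cast h2.symm
  rw [h4]
  ring

namespace DLr

variable (h : DLr r i K psi C w v m x)
include h

lemma sum_QS : ∑ p ∈ PN i C, vp i p + ∑ q ∈ M4 i C, vp i q.1 * vp i q.2 =
    QS (NE i C x) 0 m := by
  rw [h.W.sum_M4_row h.hd]
  have e1 := h.sum_PN (fun z => vp i z) (fun _ => 1)
  simp only [mul_one] at e1
  rw [e1]
  simp only [← NE_eq]
  unfold QS
  rw [← range_eq_Ico, add_comm]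
  congr 1
  refine sum_congr rfl fun k hk => ?_
  congr 1
  refine sum_congr rfl fun l hl => ?_
  rw [mem_range] at hk hl
  have e : (¬ Disjoint (ed x k) (ed x l)) ↔ (k ≤ l + 1 ∧ l ≤ k + 1) := by
    rw [h.W.disj_ed hk hl]
    omega
  simp only [e]

end DLr

end Pool.Agent.GaussPoset.Win.W4

end

/-! From `Pool.Agent.W_448kf_h15.KfG` -/

section

/-!
MP_448cb3_co, G2, case B, window `j`: `F` of a part with four sites and the pattern [DL].  helper15.
-/

namespace Pool.Agent.GaussPoset.Win.W4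

set_option linter.unusedSectionVars false

open Finset
open Pool.Agent.GaussPoset.Win.SO (PN vp con on mem_PN vp_PD vp_PU TD)

universe u

variable {P : Type u} [Fintype P] [PartialOrder P] [DecidableEq P] {r i : ℕ}
variable {psi : P → P} {C K : Finset P} {w v : P} {m : ℕ} {x : ℕ → P}

lemma PRow.card_st (W : PRow r i C m x) : (st i C).card = m + 1 := by
  have e : st i C = (range (m + 1)).image x := by
    ext y
    rw [mem_st, mem_image]
    constructor
    · rintro ⟨h1, h2⟩
      obtain ⟨k, hk, rfl⟩ := W.surj y h1 h2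
      exact ⟨k, mem_range.2 (by omega), rfl⟩
    · rintro ⟨k, hk, rfl⟩
      rw [mem_range] at hk
      exact ⟨W.mem k (by omega), W.lev_x k (by omega)⟩
  rw [e, card_image_of_injOn, card_range]
  intro k hk l hl hkl
  rw [coe_range, Set.mem_Iio] at hk hl
  exact W.inj k l (by omega) (by omega) hkl

lemma PRow.ed_sub (W : PRow r i C m x) {k : ℕ} (hk : k < m) : ed x k ⊆ st i C := by
  intro y hy
  unfold ed at hy
  rw [mem_insert, mem_singleton] at hy
  rw [mem_st]
  rcases hy with rfl | rfl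
  · exact ⟨W.mem k (by omega), W.lev_x k (by omega)⟩
  · exact ⟨W.mem (k + 1) (by omega), W.lev_x (k + 1) (by omega)⟩

lemma Z4_sites (H : Gr P r) (hC : Part (i + 1) C) {z : P} (hz : z ∈ Z4 i C) :
    (sit i z).card = 3 ∧ sit i z ⊆ st i C := by
  rcases Z4_cases hz with ⟨h1, h2, h3⟩ | ⟨h1, h2, h3⟩
  · refine ⟨?_, SO.sit_part H hC h1⟩
    rw [sit_low H (by omega)]
    rw [← card_sts] at h3
    exact h3
  · refine ⟨?_, SO.sit_part H hC h1⟩
    rw [sit_upp H (by omega)]
    rw [← card_stD] at h3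
    exact h3

namespace DLr

variable (h : DLr r i K psi C w v m x)
include h

lemma Z4_term3 (hm3 : m = 3) {z : P} (hz : z ∈ Z4 i C) : Nx i w z = 0 ∧ Nx i v z = 0 := by
  classical
  obtain ⟨h1, h2⟩ := Z4_sites h.W.H h.W.hC hz
  have h3 := h.W.card_st
  have key : ∀ k, k < m → ¬ Disjoint (ed x k) (sit i z) := by
    intro k hk hd
    have h4 : ed x k ∪ sit i z ⊆ st i C := union_subset (h.W.ed_sub hk) h2
    have h5 := card_le_card h4
    rw [card_union_of_disjoint hd, h.W.card_ed hk] at h5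
    omega
  constructor
  · unfold Nx
    rw [h.nw, if_neg (key 0 (by omega))]
  · unfold Nx
    rw [h.nv, if_neg (key 1 (by omega))]

lemma sum_big3 (hm3 : m = 3) :
    ∑ z ∈ PN i C, vp i z * (Nx i w z * (dg i K C (x 0) + Ds i K C (sit i z) {x 0, x 1}) -
        Nx i v z * (dg i K C (x 2) + Ds i K C (sit i z) {x 1, x 2})) =
      dg i K C (x 0) + dg i K C (x 2) + dg i K C (x 3) - 2 := by
  have e1 := h.sum_PN (fun z => vp i z)
    (fun T => (if Disjoint (nz i w) T then (1 : ℤ) else 0) *
      (dg i K C (x 0) + Ds i K C T {x 0, x 1}) -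
      (if Disjoint (nz i v) T then (1 : ℤ) else 0) * (dg i K C (x 2) + Ds i K C T {x 1, x 2}))
  have e2 : ∑ z ∈ PN i C, vp i z * (Nx i w z * (dg i K C (x 0) + Ds i K C (sit i z) {x 0, x 1}) -
        Nx i v z * (dg i K C (x 2) + Ds i K C (sit i z) {x 1, x 2})) =
      ∑ z ∈ PN i C, vp i z * ((if Disjoint (nz i w) (sit i z) then (1 : ℤ) else 0) *
      (dg i K C (x 0) + Ds i K C (sit i z) {x 0, x 1}) -
      (if Disjoint (nz i v) (sit i z) then (1 : ℤ) else 0) *
        (dg i K C (x 2) + Ds i K C (sit i z) {x 1, x 2})) := rfl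
  rw [e2, e1]
  simp only [← NE_eq]
  rw [range_split h.hm]
  have v0 : (if Disjoint (nz i w) (ed x 0) then (1 : ℤ) else 0) = 0 := by
    rw [h.Nw (by omega)]; norm_num
  have v2 : (if Disjoint (nz i w) (ed x 2) then (1 : ℤ) else 0) = 1 := by
    rw [h.Nw (by omega)]; norm_num
  have u0 : (if Disjoint (nz i v) (ed x 0) then (1 : ℤ) else 0) = 0 := by
    rw [h.Nv (by omega)]; norm_num
  have u2 : (if Disjoint (nz i v) (ed x 2) then (1 : ℤ) else 0) = 0 := by
    rw [h.Nv (by omega)]; norm_num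
  have e3 : Ico 3 m = ∅ := by rw [hm3]; rfl
  rw [e3, sum_empty, v0, v2, u0, u2, h.NE1, h.NE2, h.Ds0 le_rfl (by omega)]
  ring

lemma deg3' (hm3 : m = 3) : (dc (x 3)).card = 1 + (pen (x 3)).card := by
  have h1 := h.W.deg (k := 3) (by omega)
  rw [sum_eq_single 2] at h1
  · rw [h.dns (by omega) (by omega) (by omega)] at h1
    norm_num at h1
    omega
  · intro l hl hne
    rw [mem_erase, mem_range] at hl
    rw [h.dns (by omega) (by omega) (Ne.symm hl.1)]
    split_ifs <;> omega
  · intro h2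
    exact absurd (mem_erase.2 ⟨by omega, mem_range.2 (by omega)⟩) h2

/-- THE VALUE of `F`, four sites -/
theorem F_form3 (hm3 : m = 3) : Fv i C =
    (NE i C x 0 + (uc (x 0)).card - 1 - (pen (x 2)).card) ^ 2 +
    (NE i C x 0 + (uc (x 0)).card - 1 - (pen (x 2)).card) + 8 +
    2 * ((Z4 i C).card - (T4 i C).card : ℤ) - CH i C x 2 -
    2 * ((uc (x 3)).card - 1) - 2 * (pen (x 3)).card := by
  have hm := h.hm
  have g0 := h.dg0
  have g1 := h.dg1
  have g2 := h.dg2
  have g3 := h.dg3
  rw [h.deg3' hm3] at g3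
  have q1 := h.sum_QS
  rw [QS_bot _ (by omega), QS_bot _ (by omega), QS_bot _ (by omega)] at q1
  rw [if_pos (by omega), if_pos (by omega), if_neg (by omega), h.NE1, h.NE2] at q1
  have e3 : QS (NE i C x) (0 + 1 + 1 + 1) m = 0 := by
    rw [hm3]
    exact QS_self _ _
  rw [e3] at q1
  have q2 := h.sum_vp_split
  have e4 : Ico 3 m = ∅ := by rw [hm3]; rfl
  rw [h.NE2, e4, sum_empty] at q2
  have a1 := h.Q.al2 h.hw h.hv h.n01 h.n12 h.n02
  have a2 := h.Q.form h.hw h.hv h.n01 h.n12 h.n02 h.w32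
  have m1 : mm i K C {x 0, x 1} = 1 := by
    have := h.mmx (a := 0) (b := 1) (by omega) (by omega)
    norm_num at this
    exact this
  have m2 : mm i K C {x 1, x 2} = 0 := by
    have := h.mmx (a := 1) (b := 2) (by omega) (by omega)
    norm_num at this
    exact this
  have m3 : mm i K C {x 0, x 2} = 0 := by
    have := h.mmx (a := 0) (b := 2) (by omega) (by omega)
    norm_num at this
    exact this
  have s1 : ∑ z ∈ PN i C, vp i z * (ch i C z * (Nx i w z - Nx i v z) +
      2 * (Mx i w z - Mx i v z)) = CH i C x 2 + 2 * (- NE i C x 0 - 1) := by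
    rw [← h.sum_ch, ← h.sum_mx, mul_sum, ← sum_add_distrib]
    exact sum_congr rfl fun z _ => by ring
  have s2 : ∑ z ∈ Z4 i C, tz i z * (Nx i w z - Nx i v z) = 0 := by
    refine sum_eq_zero fun z hz => ?_
    obtain ⟨h1, h2⟩ := h.Z4_term3 hm3 hz
    rw [h1, h2]
    ring
  rw [s1, s2, h.sum_big3 hm3, m1, m2, m3, g0, g1, g2, g3] at a2
  rw [m1, m2, g0, g2] at a1
  unfold Fv
  rw [a2, a1, q2]
  rw [q2] at q1
  push_cast
  linear_combination q1

/-- the children of the pendants over `x 2, x 3` -/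
lemma CH2_le : CH i C x 2 ≤ ∑ a ∈ DE i C x 2, (2 * ((pen a).card : ℤ)) +
    (DE i C x 2).card * ((DE i C x 2).card - 1) := by
  classical
  have H := h.W.H
  have hm := h.hm
  unfold CH
  have e1 : (PN i C).filter (fun z => sit i z = ed x 2) = DE i C x 2 ∪ UE i C x 2 := by
    rw [PN_eq, filter_union]
    rfl
  have e2 : Disjoint (DE i C x 2) (UE i C x 2) := disjoint_filter_filter (DC_UC i C)
  rw [e1, sum_union e2]
  have e3 : ∑ z ∈ UE i C x 2, vp i z * ch i C z ≤ 0 := by
    refine sum_nonpos fun z hz => ?_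
    rw [vp_PU (mem_UE.1 hz).2.1]
    have := h.W.ch_nonneg (C := C) z
    linarith
  have e4 : ∑ z ∈ DE i C x 2, vp i z * ch i C z =
      ∑ a ∈ DE i C x 2, (2 * ((pen a).card : ℤ)) +
        (DE i C x 2).card * ((DE i C x 2).card - 1) := by
    have e5 : ∀ z ∈ DE i C x 2, vp i z * ch i C z =
        2 * ((pen z).card : ℤ) + ((DE i C x 2).card - 1) := by
      intro a ham
      obtain ⟨haC, haP, has⟩ := mem_DE.1 ham
      obtain ⟨-, y, -, -, -, -, -, hor⟩ := PN_dat H (C := C) (mem_PN.2 ⟨haC, Or.inl haP⟩)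
      rcases hor with ⟨-, hla, hly, h4, h5, -, -⟩ | ⟨h3, -⟩
      swap
      · have := lev_PU h3
        have := lev_PD haP
        omega
      have hyC : y ∈ C := h.W.hC.up haC (mem_uc.1 (by rw [h4]; exact mem_singleton_self y))
      have hye : uc y = ed x 2 := by rw [← h5, has]
      have hdcv := h.dn 2 3 (by omega) (by omega)
      rw [if_pos (by omega), if_neg (by omega), if_neg (by omega)] at hdcv
      unfold dcv at hdcv
      obtain ⟨s, hs⟩ := card_eq_one.1 hdcv
      have huniq : ∀ y', uc y' = ed x 2 → y' = s := by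
        intro y' hy'
        have : y' ∈ ({s} : Finset P) := by
          rw [← hs, mem_filter]
          refine ⟨mem_univ _, ?_, ?_⟩
          · rw [← mem_uc, hy']
            exact (h.W.mem_ed (by omega) (by omega)).2 (Or.inl rfl)
          · rw [← mem_uc, hy']
            exact (h.W.mem_ed (by omega) (by omega)).2 (Or.inr rfl)
        exact mem_singleton.1 this
      have hpy : pen y = DE i C x 2 := by
        ext g
        constructor
        · intro hg
          have hgu := uc_pen hg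
          have hgl := lev_cov H (mem_pen.1 hg).1
          have hgC := h.W.cl g y hyC hgu
          refine mem_DE.2 ⟨hgC, mem_PD.2 ⟨by omega, by rw [hgu, card_singleton], y,
            (mem_pen.1 hg).1, ?_⟩, ?_⟩
          · rw [hye]
            exact h.W.card_ed (by omega)
          · rw [SO.sit_PD H (by omega) hgu, hye]
        · intro hg
          obtain ⟨hgC, hgP, hgs⟩ := mem_DE.1 hg
          obtain ⟨-, y', -, -, -, -, -, hor'⟩ := PN_dat H (C := C) (mem_PN.2 ⟨hgC, Or.inl hgP⟩)
          rcases hor' with ⟨-, hlg, hly', g4, g5, -, -⟩ | ⟨g3, -⟩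
          swap
          · have := lev_PU g3
            have := lev_PD hgP
            omega
          have hye' : uc y' = ed x 2 := by rw [← g5, hgs]
          have hyy : y' = y := (huniq y' hye').trans (huniq y hye).symm
          subst hyy
          exact mem_pen.2 ⟨mem_uc.1 (by rw [g4]; exact mem_singleton_self y'),
            by rw [g4, card_singleton]⟩
      rw [vp_PD haP, h.W.ch_PD haP haC h4, hpy]
      ring
    rw [sum_congr rfl e5, sum_add_distrib, sum_const, nsmul_eq_mul]
  rw [e4]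
  linarith

lemma UE_le (k : ℕ) : (UE i C x k).card ≤ 1 :=
  (card_le_card (filter_subset _ _)).trans h.W.uc1

/-- the pendants over `x 2, x 3`: one lower, or two lower and one upper -/
lemma DE2_cases : ((DE i C x 2).card = 1 ∧ UE i C x 2 = ∅) ∨
    ((DE i C x 2).card = 2 ∧ (UE i C x 2).card = 1) := by
  have h1 := h.NE2
  have h2 := h.UE_le 2
  unfold NE at h1
  rcases Nat.eq_zero_or_pos (UE i C x 2).card with h3 | h3
  · left
    exact ⟨by omega, card_eq_zero.1 h3⟩
  · right
    omega

end DLr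

end Pool.Agent.GaussPoset.Win.W4

end

/-! From `Pool.Agent.W_448kf_h15.KfK` -/

section

/-!
MP_448cb3_co, G2, case B, window `j`: the value of `F` for a part with four sites and the pattern R (a
lost pair at the left end, a lower double over the two ends).  helper15.
-/

namespace Pool.Agent.GaussPoset.Win.W4

set_option linter.unusedSectionVars false

open Finset
open Pool.Agent.GaussPoset.Win.SO (PN vp con on mem_PN vp_PD vp_PU)

universe u

variable {P : Type u} [Fintype P] [PartialOrder P] [DecidableEq P] {r i : ℕ}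
variable {psi : P → P} {C K : Finset P} {w v : P} {x : ℕ → P}

/-- the pattern R with four sites, `w32 = 0`; the edge `3` is the pair of the two ends -/
structure Rr (r i : ℕ) (K : Finset P) (psi : P → P) (C : Finset P) (w v : P) (x : ℕ → P) :
    Prop where
  W : PRow r i C 3 x
  Q : K5 r i K psi C w v
  hx : x 4 = x 0
  hw : uc w = {x 3, x 0}
  hv : dc v = {x 0, x 1}
  dn : ∀ k l, k < l → l ≤ 3 → dcv (x k) (x l) =
    if l = k + 1 then (if k = 0 then 0 else 1) else (if k = 0 ∧ l = 3 then 1 else 0)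
  u0 : (uc (x 0)).card = 1
  u3 : (uc (x 3)).card = 1
  w32 : ∑ z ∈ PN i C, vp i z * (Nx i w z - Nx i v z) = 1

namespace Rr

variable (h : Rr r i K psi C w v x)
include h

lemma ne {a b : ℕ} (ha : a ≤ 3) (hb : b ≤ 3) (hab : a ≠ b) : x a ≠ x b := h.W.ne ha hb hab

lemma mem_ed {a k : ℕ} (ha : a ≤ 3) (hk : k < 4) :
    x a ∈ ed x k ↔ a = k ∨ a = k + 1 ∨ (k = 3 ∧ a = 0) := by
  by_cases h3 : k = 3
  · subst h3
    unfold ed
    rw [mem_insert, mem_singleton, show (3 : ℕ) + 1 = 4 by norm_num, h.hx]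
    constructor
    · rintro (h1 | h1)
      · exact Or.inl (h.W.inj _ _ ha (by omega) h1)
      · exact Or.inr (Or.inr ⟨rfl, h.W.inj _ _ ha (by omega) h1⟩)
    · rintro (h1 | h1 | ⟨-, h1⟩)
      · exact Or.inl (by rw [h1])
      · omega
      · exact Or.inr (by rw [h1])
  · rw [h.W.mem_ed ha (by omega)]
    omega

lemma ed3 : ed x 3 = {x 3, x 0} := by
  unfold ed
  rw [show (3 : ℕ) + 1 = 4 by norm_num, h.hx]

lemma card_ed {k : ℕ} (hk : k < 4) : (ed x k).card = 2 := by
  by_cases h3 : k = 3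
  · subst h3
    rw [h.ed3]
    exact card_pair (h.ne (by omega) (by omega) (by omega))
  · exact h.W.card_ed (by omega)

lemma ed_inj {k l : ℕ} (hk : k < 4) (hl : l < 4) (he : ed x k = ed x l) : k = l := by
  have a0 := h.mem_ed (a := 0) (by omega) hk
  have a1 := h.mem_ed (a := 1) (by omega) hk
  have a2 := h.mem_ed (a := 2) (by omega) hk
  have a3 := h.mem_ed (a := 3) (by omega) hk
  have b0 := h.mem_ed (a := 0) (by omega) hl
  have b1 := h.mem_ed (a := 1) (by omega) hl
  have b2 := h.mem_ed (a := 2) (by omega) hl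
  have b3 := h.mem_ed (a := 3) (by omega) hl
  rw [he] at a0 a1 a2 a3
  rw [a0] at b0
  rw [a1] at b1
  rw [a2] at b2
  rw [a3] at b3
  omega

/-- the site of an element of an edge -/
lemma of_ed {y : P} {k : ℕ} (hk : k < 4) (hy : y ∈ ed x k) : ∃ a, a ≤ 3 ∧ y = x a ∧
    (a = k ∨ a = k + 1 ∨ (k = 3 ∧ a = 0)) := by
  by_cases h3 : k = 3
  · subst h3
    rw [h.ed3, mem_insert, mem_singleton] at hy
    rcases hy with rfl | rfl
    · exact ⟨3, by omega, rfl, by omega⟩
    · exact ⟨0, by omega, rfl, by omega⟩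
  · unfold ed at hy
    rw [mem_insert, mem_singleton] at hy
    rcases hy with rfl | rfl
    · exact ⟨k, by omega, rfl, by omega⟩
    · exact ⟨k + 1, by omega, rfl, by omega⟩

lemma disj_ed {k l : ℕ} (hk : k < 4) (hl : l < 4) :
    Disjoint (ed x k) (ed x l) ↔ k + 2 = l ∨ l + 2 = k := by
  rw [disjoint_left]
  constructor
  · intro hd
    by_contra hcon
    have hex : ∃ a, a ≤ 3 ∧ (a = k ∨ a = k + 1 ∨ (k = 3 ∧ a = 0)) ∧
        (a = l ∨ a = l + 1 ∨ (l = 3 ∧ a = 0)) := by
      rcases Nat.lt_trichotomy k l with h1 | h1 | h1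
      · by_cases h2 : l = k + 1
        · exact ⟨l, by omega, by omega, by omega⟩
        · exact ⟨0, by omega, by omega, by omega⟩
      · exact ⟨k, by omega, by omega, by omega⟩
      · by_cases h2 : k = l + 1
        · exact ⟨k, by omega, by omega, by omega⟩
        · exact ⟨0, by omega, by omega, by omega⟩
    obtain ⟨a, ha, h1, h2⟩ := hex
    exact hd ((h.mem_ed ha hk).2 h1) ((h.mem_ed ha hl).2 h2)
  · intro hkl y h1 h2
    obtain ⟨a, ha, rfl, h3⟩ := h.of_ed hk h1
    rw [h.mem_ed ha hl] at h2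
    omega

lemma inter_ed {k l : ℕ} (hk : k < 4) (hl : l < 4) :
    ((ed x k ∩ ed x l).card = 1) ↔ (l = k + 1 ∨ k = l + 1 ∨ (k = 0 ∧ l = 3) ∨ (k = 3 ∧ l = 0)) := by
  classical
  constructor
  · intro h1
    by_contra hcon
    by_cases h2 : k = l
    · rw [h2, inter_self, h.card_ed hl] at h1
      omega
    · have h3 : Disjoint (ed x k) (ed x l) := (h.disj_ed hk hl).2 (by omega)
      rw [disjoint_iff_inter_eq_empty] at h3
      rw [h3, card_empty] at h1
      omega
  · intro h1
    have hnd : ¬ Disjoint (ed x k) (ed x l) := by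
      rw [h.disj_ed hk hl]
      omega
    have hpos : 0 < (ed x k ∩ ed x l).card := by
      rw [Nat.pos_iff_ne_zero]
      intro h2
      rw [card_eq_zero, ← disjoint_iff_inter_eq_empty] at h2
      exact hnd h2
    have hlt : (ed x k ∩ ed x l).card < 2 := by
      by_contra h2
      have h3 : ed x k ∩ ed x l = ed x k := by
        refine eq_of_subset_of_card_le inter_subset_left ?_
        rw [h.card_ed hk]
        omega
      have h4 : ed x k = ed x l := by
        refine eq_of_subset_of_card_le ?_ (by rw [h.card_ed hk, h.card_ed hl])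
        rw [← h3]
        exact inter_subset_right
      have := h.ed_inj hk hl h4
      omega
    omega

/-- a pair of sites with a common lower cover -/
lemma lo_pair {k l : ℕ} (hkl : k < l) (hl : l ≤ 3) {y : P} (h1 : x k ∈ uc y) (h2 : x l ∈ uc y) :
    (l = k + 1 ∧ k ≠ 0) ∨ (k = 0 ∧ l = 3) := by
  classical
  by_contra hcon
  have h3 := h.dn k l hkl hl
  have h4 : dcv (x k) (x l) = 0 := by
    rw [h3]
    split_ifs <;> omega
  unfold dcv at h4
  rw [card_eq_zero, filter_eq_empty_iff] at h4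
  exact h4 (mem_univ y) ⟨mem_uc.1 h1, mem_uc.1 h2⟩

lemma up_pair {k l : ℕ} (hkl : k < l) (hl : l ≤ 3) {y : P} (h1 : x k ∈ dc y) (h2 : x l ∈ dc y) :
    l = k + 1 := by
  classical
  by_contra hcon
  have h3 := h.W.up k l hkl hl
  rw [if_neg hcon] at h3
  unfold ucv at h3
  rw [card_eq_zero, filter_eq_empty_iff] at h3
  exact h3 (mem_univ y) ⟨mem_dc.1 h1, mem_dc.1 h2⟩

/-- the pendants are over edges -/
lemma pn_ed {z : P} (hz : z ∈ PN i C) : ∃ k, k < 4 ∧ sit i z = ed x k := by
  classical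
  have W := h.W
  obtain ⟨hzC, y, -, -, -, hs2, hsl, hor⟩ := PN_dat W.H hz
  obtain ⟨a, b, hab, hs⟩ := card_eq_two.1 hs2
  have hyC : y ∈ C := by
    rcases hor with ⟨-, h, h', h4, -⟩ | ⟨-, h, h', h4, -⟩
    · exact W.hC.up hzC (mem_uc.1 (by rw [h4]; exact mem_singleton_self y))
    · exact W.hC.dn hzC (by omega) (mem_dc.1 (by rw [h4]; exact mem_singleton_self y))
  have hin : ∀ c ∈ sit i z, c ∈ C := by
    intro c hc
    rcases hor with ⟨-, h, h', -, h5, -⟩ | ⟨-, h, h', -, h5, -⟩
    · rw [h5] at hc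
      exact W.hC.up hyC (mem_uc.1 hc)
    · rw [h5] at hc
      exact W.hC.dn hyC (by omega) (mem_dc.1 hc)
  have ha : a ∈ sit i z := by rw [hs]; exact mem_insert_self _ _
  have hb : b ∈ sit i z := by rw [hs]; exact mem_insert_of_mem (mem_singleton_self _)
  obtain ⟨k, hk, rfl⟩ := W.surj a (hin a ha) (hsl a ha)
  obtain ⟨l, hl, rfl⟩ := W.surj b (hin b hb) (hsl b hb)
  have hkl : k ≠ l := by
    rintro rfl
    exact hab rfl
  have key : ∀ k l, k < l → l ≤ 3 → x k ∈ sit i z → x l ∈ sit i z →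
      l = k + 1 ∨ (k = 0 ∧ l = 3) := by
    intro k l hkl hl h1 h2
    rcases hor with ⟨-, -, -, -, h5, -⟩ | ⟨-, -, -, -, h5, -⟩
    · rw [h5] at h1 h2
      rcases h.lo_pair hkl hl h1 h2 with h3 | h3
      · exact Or.inl h3.1
      · exact Or.inr h3
    · rw [h5] at h1 h2
      exact Or.inl (h.up_pair hkl hl h1 h2)
  have fin : ∀ k l, k < l → l ≤ 3 → sit i z = {x k, x l} → x k ∈ sit i z → x l ∈ sit i z →
      ∃ k, k < 4 ∧ sit i z = ed x k := by
    intro k l hkl hl hs h1 h2
    rcases key k l hkl hl h1 h2 with h3 | ⟨h3, h4⟩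
    · exact ⟨k, by omega, by rw [hs, h3]; rfl⟩
    · subst h3
      subst h4
      exact ⟨3, by omega, by rw [hs, h.ed3, pair_comm]⟩
  rcases Nat.lt_or_gt_of_ne hkl with h1 | h1
  · exact fin k l h1 hl hs ha hb
  · exact fin l k h1 hk (by rw [hs, pair_comm]) hb ha

/-- sums over the pendants, by edges -/
lemma group (f : P → ℤ) (g : Finset P → ℤ) : ∑ z ∈ PN i C, f z * g (sit i z) =
    ∑ k ∈ range 4, (∑ z ∈ (PN i C).filter (fun z => sit i z = ed x k), f z) * g (ed x k) := by
  classical
  have h1 : ∀ z ∈ PN i C, f z * g (sit i z) =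
      ∑ k ∈ range 4, if sit i z = ed x k then f z * g (ed x k) else 0 := by
    intro z hz
    obtain ⟨k, hk, hs⟩ := h.pn_ed hz
    rw [sum_eq_single k]
    · rw [if_pos hs, hs]
    · intro l hl hne
      rw [mem_range] at hl
      rw [if_neg]
      intro h1
      exact hne (h.ed_inj hl hk (h1.symm.trans hs))
    · intro h1
      exact absurd (mem_range.2 hk) h1
  rw [sum_congr rfl h1, sum_comm]
  refine sum_congr rfl fun k _ => ?_
  rw [← sum_filter, sum_mul]

lemma r4 (f : ℕ → ℤ) : ∑ k ∈ range 4, f k = f 0 + f 1 + f 2 + f 3 := by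
  rw [sum_range_succ, sum_range_succ, sum_range_succ, sum_range_one]

lemma nw : nz i w = ed x 3 := by
  rw [nz_low h.Q.lw0, h.hw, h.ed3]

lemma nv : nz i v = ed x 0 := by
  rw [nz_upp h.Q.lv0, h.hv]
  rfl

/-- nothing below the lost pair, nothing above the two ends -/
lemma DE0 : DE i C x 0 = ∅ := by
  classical
  rw [eq_empty_iff_forall_notMem]
  intro z hz
  obtain ⟨hzC, hz1, hz2⟩ := mem_DE.1 hz
  obtain ⟨-, y, -, -, -, -, -, hor⟩ := PN_dat h.W.H (C := C) (mem_PN.2 ⟨hzC, Or.inl hz1⟩)
  rcases hor with ⟨-, -, -, h4, h5, -⟩ | ⟨h3, -⟩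
  · have ha : x 0 ∈ uc y := by
      rw [← h5, hz2]; exact (h.mem_ed (by omega) (by omega)).2 (Or.inl rfl)
    have hb : x 1 ∈ uc y := by
      rw [← h5, hz2]; exact (h.mem_ed (by omega) (by omega)).2 (Or.inr (Or.inl rfl))
    have := h.lo_pair (by omega) (by omega) ha hb
    omega
  · have := lev_PU h3
    have := lev_PD hz1
    omega

lemma UE3 : UE i C x 3 = ∅ := by
  classical
  rw [eq_empty_iff_forall_notMem]
  intro z hz
  obtain ⟨hzC, hz1, hz2⟩ := mem_UE.1 hz
  obtain ⟨-, y, -, -, -, -, -, hor⟩ := PN_dat h.W.H (C := C) (mem_PN.2 ⟨hzC, Or.inr hz1⟩)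
  rcases hor with ⟨h3, -⟩ | ⟨-, -, -, h4, h5, -⟩
  · have := lev_PD h3
    have := lev_PU hz1
    omega
  · have ha : x 0 ∈ dc y := by
      rw [← h5, hz2]; exact (h.mem_ed (by omega) (by omega)).2 (Or.inr (Or.inr ⟨rfl, rfl⟩))
    have hb : x 3 ∈ dc y := by
      rw [← h5, hz2]; exact (h.mem_ed (by omega) (by omega)).2 (Or.inl rfl)
    have := h.up_pair (by omega) (by omega) ha hb
    omega

lemma UE1 : UE i C x 1 = ∅ := h.W.ue_inner (by omega) (by omega)

lemma NE0 : NE i C x 0 = - ((UE i C x 0).card : ℤ) := by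
  unfold NE
  rw [h.DE0, card_empty]
  push_cast
  ring

lemma NE1 : NE i C x 1 = ((DE i C x 1).card : ℤ) := by
  unfold NE
  rw [h.UE1, card_empty]
  push_cast
  ring

lemma NE3 : NE i C x 3 = ((DE i C x 3).card : ℤ) := by
  unfold NE
  rw [h.UE3, card_empty]
  push_cast
  ring

lemma Nw {k : ℕ} (hk : k < 4) : (if Disjoint (nz i w) (ed x k) then (1 : ℤ) else 0) =
    if k = 1 then 1 else 0 := by
  have e : Disjoint (nz i w) (ed x k) ↔ k = 1 := by
    rw [h.nw, h.disj_ed (by omega) hk]
    omega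
  simp only [e]

lemma Nv {k : ℕ} (hk : k < 4) : (if Disjoint (nz i v) (ed x k) then (1 : ℤ) else 0) =
    if k = 2 then 1 else 0 := by
  have e : Disjoint (nz i v) (ed x k) ↔ k = 2 := by
    rw [h.nv, h.disj_ed (by omega) hk]
    omega
  simp only [e]

lemma Mw {k : ℕ} (hk : k < 4) : (if (nz i w ∩ ed x k).card = 1 then (1 : ℤ) else 0) =
    if k = 0 ∨ k = 2 then 1 else 0 := by
  have e : ((nz i w ∩ ed x k).card = 1) ↔ k = 0 ∨ k = 2 := by
    rw [h.nw, h.inter_ed (by omega) hk]
    omega
  simp only [e]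

lemma Mv {k : ℕ} (hk : k < 4) : (if (nz i v ∩ ed x k).card = 1 then (1 : ℤ) else 0) =
    if k = 1 ∨ k = 3 then 1 else 0 := by
  have e : ((nz i v ∩ ed x k).card = 1) ↔ k = 1 ∨ k = 3 := by
    rw [h.nv, h.inter_ed (by omega) hk]
    omega
  simp only [e]

lemma sum_vp : ∑ z ∈ PN i C, vp i z = NE i C x 0 + NE i C x 1 + NE i C x 2 + NE i C x 3 := by
  have e1 := h.group (fun z => vp i z) (fun _ => 1)
  simp only [mul_one] at e1
  rw [e1]
  simp only [← NE_eq]
  exact h.r4 _

/-- `w32 = 0` -/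
lemma NE12 : NE i C x 1 - NE i C x 2 = 1 := by
  have e1 := h.group (fun z => vp i z) (fun T => (if Disjoint (nz i w) T then (1 : ℤ) else 0) -
    (if Disjoint (nz i v) T then (1 : ℤ) else 0))
  have e2 : ∑ z ∈ PN i C, vp i z * ((if Disjoint (nz i w) (sit i z) then (1 : ℤ) else 0) -
    (if Disjoint (nz i v) (sit i z) then (1 : ℤ) else 0)) = 1 := h.w32
  rw [e2] at e1
  simp only [← NE_eq] at e1
  rw [h.r4, h.Nw (by omega), h.Nw (by omega), h.Nw (by omega), h.Nw (by omega),
    h.Nv (by omega), h.Nv (by omega), h.Nv (by omega), h.Nv (by omega)] at e1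
  norm_num at e1
  linarith

lemma sum_ch : ∑ z ∈ PN i C, vp i z * (ch i C z * (Nx i w z - Nx i v z)) =
    CH i C x 1 - CH i C x 2 := by
  have e1 := h.group (fun z => vp i z * ch i C z)
    (fun T => (if Disjoint (nz i w) T then (1 : ℤ) else 0) -
      (if Disjoint (nz i v) T then (1 : ℤ) else 0))
  have e2 : ∑ z ∈ PN i C, vp i z * (ch i C z * (Nx i w z - Nx i v z)) =
      ∑ z ∈ PN i C, vp i z * ch i C z * ((if Disjoint (nz i w) (sit i z) then (1 : ℤ) else 0) -
      (if Disjoint (nz i v) (sit i z) then (1 : ℤ) else 0)) := by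
    refine sum_congr rfl fun z _ => ?_
    unfold Nx
    ring
  rw [e2, e1]
  have e0 : ∀ k, ∑ z ∈ (PN i C).filter (fun z => sit i z = ed x k), vp i z * ch i C z =
    CH i C x k := fun k => rfl
  simp only [e0]
  rw [h.r4, h.Nw (by omega), h.Nw (by omega), h.Nw (by omega), h.Nw (by omega),
    h.Nv (by omega), h.Nv (by omega), h.Nv (by omega), h.Nv (by omega)]
  norm_num
  ring

lemma sum_mx : ∑ z ∈ PN i C, vp i z * (Mx i w z - Mx i v z) =
    NE i C x 0 + NE i C x 2 - NE i C x 1 - NE i C x 3 := by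
  have e1 := h.group (fun z => vp i z)
    (fun T => (if (nz i w ∩ T).card = 1 then (1 : ℤ) else 0) -
      (if (nz i v ∩ T).card = 1 then (1 : ℤ) else 0))
  have e2 : ∑ z ∈ PN i C, vp i z * (Mx i w z - Mx i v z) =
      ∑ z ∈ PN i C, vp i z * ((if (nz i w ∩ sit i z).card = 1 then (1 : ℤ) else 0) -
      (if (nz i v ∩ sit i z).card = 1 then (1 : ℤ) else 0)) := rfl
  rw [e2, e1]
  simp only [← NE_eq]
  rw [h.r4, h.Mw (by omega), h.Mw (by omega), h.Mw (by omega), h.Mw (by omega),
    h.Mv (by omega), h.Mv (by omega), h.Mv (by omega), h.Mv (by omega)]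
  norm_num
  ring

/-- matched lower doubles over a pair -/
lemma mmx {a b : ℕ} (hab : a < b) (hb : b ≤ 3) : mm i K C {x a, x b} =
    if b = a + 1 ∧ a ≠ 0 then 1 else 0 := by
  rw [h.Q.mm_pair (h.W.mem a (by omega)) (h.W.lev_x a (by omega))
    (h.W.ne (by omega) hb (by omega)), h.dn a b hab hb]
  have e : (uc w = {x a, x b}) ↔ (a = 0 ∧ b = 3) := by
    rw [h.hw]
    constructor
    · intro h1
      have h2 : x a ∈ ({x 3, x 0} : Finset P) := by rw [h1]; exact mem_insert_self _ _
      have h3 : x b ∈ ({x 3, x 0} : Finset P) := by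
        rw [h1]; exact mem_insert_of_mem (mem_singleton_self _)
      rw [mem_insert, mem_singleton] at h2 h3
      rcases h2 with h2 | h2
      · have := h.W.inj _ _ (by omega) (by omega) h2
        rcases h3 with h3 | h3
        · have := h.W.inj _ _ (by omega) (by omega) h3
          omega
        · have := h.W.inj _ _ (by omega) (by omega) h3
          omega
      · have := h.W.inj _ _ (by omega) (by omega) h2
        rcases h3 with h3 | h3
        · have := h.W.inj _ _ (by omega) (by omega) h3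
          omega
        · have := h.W.inj _ _ (by omega) (by omega) h3
          omega
    · rintro ⟨rfl, rfl⟩
      rw [pair_comm]
  simp only [e]
  split_ifs <;> first | omega | contradiction | norm_num

lemma mmx' {a b : ℕ} (hab : a < b) (hb : b ≤ 3) : mm i K C {x b, x a} =
    if b = a + 1 ∧ a ≠ 0 then 1 else 0 := by
  rw [pair_comm]
  exact h.mmx hab hb

lemma dns {k l : ℕ} (hk : k ≤ 3) (hl : l ≤ 3) (hkl : k ≠ l) : dcv (x k) (x l) =
    if (l = k + 1 ∧ k ≠ 0) ∨ (k = l + 1 ∧ l ≠ 0) ∨ (k = 0 ∧ l = 3) ∨ (k = 3 ∧ l = 0)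
      then 1 else 0 := by
  rcases Nat.lt_or_gt_of_ne hkl with h1 | h1
  · rw [h.dn k l h1 hl]
    split_ifs <;> first | omega | contradiction
  · rw [kf_dcv_comm, h.dn l k h1 hk]
    split_ifs <;> first | omega | contradiction

lemma dsum {k : ℕ} (hk : k ≤ 3) : ∑ l ∈ (range (3 + 1)).erase k, dcv (x k) (x l) =
    if k ≤ 1 then 1 else 2 := by
  have e : ∑ l ∈ (range (3 + 1)).erase k, dcv (x k) (x l) = ∑ l ∈ (range (3 + 1)).erase k,
    if (l = k + 1 ∧ k ≠ 0) ∨ (k = l + 1 ∧ l ≠ 0) ∨ (k = 0 ∧ l = 3) ∨ (k = 3 ∧ l = 0)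
      then 1 else 0 := by
    refine sum_congr rfl fun l hl => ?_
    rw [mem_erase, mem_range] at hl
    exact h.dns hk (by omega) (Ne.symm hl.1)
  rw [e]
  have hk4 : k = 0 ∨ k = 1 ∨ k = 2 ∨ k = 3 := by omega
  rcases hk4 with rfl | rfl | rfl | rfl <;> decide

lemma deg0 : (dc (x 0)).card = 1 + (pen (x 0)).card := by
  have h1 := h.W.deg (k := 0) (by omega)
  rw [h.dsum (by omega)] at h1
  norm_num at h1
  omega

lemma deg1 : (dc (x 1)).card = 1 + (pen (x 1)).card := by
  have h1 := h.W.deg (k := 1) (by omega)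
  rw [h.dsum (by omega)] at h1
  norm_num at h1
  omega

lemma deg2 : (dc (x 2)).card = 2 := by
  have h1 := h.W.deg (k := 2) (by omega)
  have h2 := h.W.dc_le (k := 2) (by omega)
  rw [h.dsum (by omega)] at h1
  norm_num at h1
  omega

lemma deg3 : (dc (x 3)).card = 2 := by
  have h1 := h.W.deg (k := 3) (by omega)
  have h2 := h.W.dc_le (k := 3) (by omega)
  rw [h.dsum (by omega)] at h1
  norm_num at h1
  omega

lemma in_w {a : ℕ} (ha : a ≤ 3) : (x a ∈ uc w) ↔ (a = 3 ∨ a = 0) := by
  rw [h.hw, ← h.ed3, h.mem_ed ha (by omega)]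
  omega

lemma in_v {a : ℕ} (ha : a ≤ 3) : (x a ∈ dc v) ↔ (a = 0 ∨ a = 1) := by
  have e : dc v = ed x 0 := h.hv
  rw [e, h.mem_ed ha (by omega)]
  omega

lemma dgx {a : ℕ} (ha : a ≤ 3) : dg i K C (x a) = ((dc (x a)).card : ℤ) + (uc (x a)).card -
    (if a = 3 ∨ a = 0 then 1 else 0) - (if a = 0 ∨ a = 1 then 1 else 0) := by
  rw [h.Q.dg_eq (h.W.mem a ha) (h.W.lev_x a ha)]
  simp only [h.in_w ha, h.in_v ha]

lemma dg0 : dg i K C (x 0) = (pen (x 0)).card := by
  rw [h.dgx (by omega), h.deg0, h.u0]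
  norm_num

lemma dg1 : dg i K C (x 1) = 2 + (pen (x 1)).card := by
  rw [h.dgx (by omega), h.deg1, h.W.uc_inner (by omega) (by omega)]
  norm_num
  ring

lemma dg2 : dg i K C (x 2) = 4 := by
  rw [h.dgx (by omega), h.deg2, h.W.uc_inner (by omega) (by omega)]
  norm_num

lemma dg3 : dg i K C (x 3) = 2 := by
  rw [h.dgx (by omega), h.deg3, h.u3]
  norm_num

lemma Dsw : Ds i K C (ed x 1) {x 3, x 0} = 4 + (pen (x 1)).card := by
  have n : ∀ a b, a ≤ 3 → b ≤ 3 → a ≠ b → x a ≠ x b := fun a b ha hb hab => h.W.ne ha hb hab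
  have e1 : mm i K C (ed x 1 ∪ {x 3, x 0}) = 2 := by
    unfold ed
    rw [mm_four (n _ _ (by omega) (by omega) (by omega)) (n _ _ (by omega) (by omega) (by omega))
      (n _ _ (by omega) (by omega) (by omega)) (n _ _ (by omega) (by omega) (by omega))
      (n _ _ (by omega) (by omega) (by omega)) (n _ _ (by omega) (by omega) (by omega)),
      h.mmx (a := 1) (b := 1 + 1) (by omega) (by omega), h.mmx' (a := 0) (b := 3) (by omega) (by omega),
      h.mmx (a := 1) (b := 3) (by omega) (by omega), h.mmx' (a := 0) (b := 1) (by omega) (by omega),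
      h.mmx (a := 1 + 1) (b := 3) (by omega) (by omega),
      h.mmx' (a := 0) (b := 1 + 1) (by omega) (by omega)]
    norm_num
  unfold Ds
  rw [e1]
  have e2 : ed x 1 = {x 1, x 2} := rfl
  rw [e2, sum_pair (n _ _ (by omega) (by omega) (by omega)), h.dg1, h.dg2]
  ring

lemma Dsv : Ds i K C (ed x 2) {x 0, x 1} = 4 := by
  have n : ∀ a b, a ≤ 3 → b ≤ 3 → a ≠ b → x a ≠ x b := fun a b ha hb hab => h.W.ne ha hb hab
  have e1 : mm i K C (ed x 2 ∪ {x 0, x 1}) = 2 := by
    unfold ed
    rw [mm_four (n _ _ (by omega) (by omega) (by omega)) (n _ _ (by omega) (by omega) (by omega))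
      (n _ _ (by omega) (by omega) (by omega)) (n _ _ (by omega) (by omega) (by omega))
      (n _ _ (by omega) (by omega) (by omega)) (n _ _ (by omega) (by omega) (by omega)),
      h.mmx (a := 2) (b := 2 + 1) (by omega) (by omega), h.mmx (a := 0) (b := 1) (by omega) (by omega),
      h.mmx' (a := 0) (b := 2) (by omega) (by omega), h.mmx' (a := 1) (b := 2) (by omega) (by omega),
      h.mmx' (a := 0) (b := 2 + 1) (by omega) (by omega),
      h.mmx' (a := 1) (b := 2 + 1) (by omega) (by omega)]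
    norm_num
  unfold Ds
  rw [e1]
  have e2 : ed x 2 = {x 2, x 3} := rfl
  rw [e2, sum_pair (n _ _ (by omega) (by omega) (by omega)), h.dg2, h.dg3]
  ring

/-- the weighted sum of the form -/
lemma sum_big :
    ∑ z ∈ PN i C, vp i z * (Nx i w z * (dg i K C (x 3) + Ds i K C (sit i z) {x 3, x 0}) -
        Nx i v z * (dg i K C (x 1) + Ds i K C (sit i z) {x 0, x 1})) = 6 + (pen (x 1)).card := by
  have e1 := h.group (fun z => vp i z)
    (fun T => (if Disjoint (nz i w) T then (1 : ℤ) else 0) *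
      (dg i K C (x 3) + Ds i K C T {x 3, x 0}) -
      (if Disjoint (nz i v) T then (1 : ℤ) else 0) * (dg i K C (x 1) + Ds i K C T {x 0, x 1}))
  have e2 : ∑ z ∈ PN i C, vp i z * (Nx i w z * (dg i K C (x 3) + Ds i K C (sit i z) {x 3, x 0}) -
        Nx i v z * (dg i K C (x 1) + Ds i K C (sit i z) {x 0, x 1})) =
      ∑ z ∈ PN i C, vp i z * ((if Disjoint (nz i w) (sit i z) then (1 : ℤ) else 0) *
      (dg i K C (x 3) + Ds i K C (sit i z) {x 3, x 0}) -
      (if Disjoint (nz i v) (sit i z) then (1 : ℤ) else 0) *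
        (dg i K C (x 1) + Ds i K C (sit i z) {x 0, x 1})) := rfl
  rw [e2, e1]
  simp only [← NE_eq]
  rw [h.r4, h.Nw (by omega), h.Nw (by omega), h.Nw (by omega), h.Nw (by omega),
    h.Nv (by omega), h.Nv (by omega), h.Nv (by omega), h.Nv (by omega), h.Dsw, h.Dsv, h.dg1, h.dg3]
  have e3 := h.NE12
  norm_num
  linear_combination (6 + ((pen (x 1)).card : ℤ)) * e3

/-- meeting products -/
lemma sum_M4 : ∑ q ∈ M4 i C, vp i q.1 * vp i q.2 =
    (NE i C x 0 + NE i C x 1 + NE i C x 2 + NE i C x 3) ^ 2 - 2 * NE i C x 0 * NE i C x 2 -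
      2 * NE i C x 1 * NE i C x 3 := by
  classical
  rw [W4.sum_M4]
  have e1 : ∀ p ∈ PN i C, (∑ q ∈ PN i C,
      if ¬ Disjoint (sit i p) (sit i q) then vp i p * vp i q else 0) =
      vp i p * ∑ l ∈ range 4, NE i C x l *
        (if ¬ Disjoint (sit i p) (ed x l) then 1 else 0) := by
    intro p _
    have e2 := h.group (fun z => vp i z) (fun T => if ¬ Disjoint (sit i p) T then 1 else 0)
    simp only [← NE_eq] at e2
    rw [← e2, mul_sum]
    refine sum_congr rfl fun q _ => ?_
    split_ifs <;> ring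
  rw [sum_congr rfl e1]
  have e3 := h.group (fun z => vp i z) (fun T => ∑ l ∈ range 4, NE i C x l *
        (if ¬ Disjoint T (ed x l) then 1 else 0))
  simp only [← NE_eq] at e3
  rw [e3]
  have e4 : ∀ k, k < 4 → ∀ l, l < 4 → (if ¬ Disjoint (ed x k) (ed x l) then (1 : ℤ) else 0) =
      if k + 2 = l ∨ l + 2 = k then 0 else 1 := by
    intro k hk l hl
    have := h.disj_ed hk hl
    simp only [this]
    split_ifs <;> first | omega | contradiction | rfl
  rw [h.r4, h.r4, h.r4, h.r4, h.r4]
  rw [e4 0 (by omega) 0 (by omega), e4 0 (by omega) 1 (by omega), e4 0 (by omega) 2 (by omega),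
    e4 0 (by omega) 3 (by omega), e4 1 (by omega) 0 (by omega), e4 1 (by omega) 1 (by omega),
    e4 1 (by omega) 2 (by omega), e4 1 (by omega) 3 (by omega), e4 2 (by omega) 0 (by omega),
    e4 2 (by omega) 1 (by omega), e4 2 (by omega) 2 (by omega), e4 2 (by omega) 3 (by omega),
    e4 3 (by omega) 0 (by omega), e4 3 (by omega) 1 (by omega), e4 3 (by omega) 2 (by omega),
    e4 3 (by omega) 3 (by omega)]
  norm_num
  ring

/-- THE VALUE of `F` -/
theorem F_form : Fv i C =
    (NE i C x 0 + NE i C x 1 + NE i C x 2 + NE i C x 3) +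
    (NE i C x 0 + NE i C x 1 + NE i C x 2 + NE i C x 3) ^ 2 - 2 * NE i C x 0 * NE i C x 2 -
    2 * NE i C x 1 * NE i C x 3 -
    2 * (pen (x 1)).card * (NE i C x 0 + NE i C x 1 + NE i C x 2 + NE i C x 3) +
    (((pen (x 1)).card : ℤ) ^ 2 - (pen (x 1)).card) + 2 + 2 * (pen (x 0)).card +
    2 * ((Z4 i C).card - (T4 i C).card : ℤ) - CH i C x 1 + CH i C x 2 -
    2 * (NE i C x 0 + NE i C x 2 - NE i C x 1 - NE i C x 3) := by
  have n30 : x 3 ≠ x 0 := h.ne (by omega) (by omega) (by omega)
  have n01 : x 0 ≠ x 1 := h.ne (by omega) (by omega) (by omega)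
  have n31 : x 3 ≠ x 1 := h.ne (by omega) (by omega) (by omega)
  have a1 := h.Q.al2 h.hw h.hv n30 n01 n31
  have a2 := h.Q.form h.hw h.hv n30 n01 n31 h.w32
  have m1 : mm i K C {x 3, x 0} = 0 := by
    rw [h.mmx' (a := 0) (b := 3) (by omega) (by omega)]
    norm_num
  have m2 : mm i K C {x 0, x 1} = 0 := by
    rw [h.mmx (a := 0) (b := 1) (by omega) (by omega)]
    norm_num
  have m3 : mm i K C {x 3, x 1} = 0 := by
    rw [h.mmx' (a := 1) (b := 3) (by omega) (by omega)]
    norm_num
  have s1 : ∑ z ∈ PN i C, vp i z * (ch i C z * (Nx i w z - Nx i v z) +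
      2 * (Mx i w z - Mx i v z)) = CH i C x 1 - CH i C x 2 +
      2 * (NE i C x 0 + NE i C x 2 - NE i C x 1 - NE i C x 3) := by
    rw [← h.sum_ch, ← h.sum_mx, mul_sum, ← sum_add_distrib]
    exact sum_congr rfl fun z _ => by ring
  have s2 : ∑ z ∈ Z4 i C, tz i z * (Nx i w z - Nx i v z) = 0 := by
    refine sum_eq_zero fun z hz => ?_
    have h3 := h.W.card_st
    obtain ⟨h1, h2⟩ := Z4_sites h.W.H h.W.hC hz
    have key : ∀ T : Finset P, T ⊆ st i C → T.card = 2 → ¬ Disjoint T (sit i z) := by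
      intro T hT hT2 hd
      have h4 : T ∪ sit i z ⊆ st i C := union_subset hT h2
      have h5 := card_le_card h4
      rw [card_union_of_disjoint hd, hT2] at h5
      omega
    have g1 : Nx i w z = 0 := by
      unfold Nx
      rw [if_neg (key _ _ _)]
      · rw [h.nw, h.ed3]
        intro y hy
        rw [mem_insert, mem_singleton] at hy
        rw [mem_st]
        rcases hy with rfl | rfl
        · exact ⟨h.W.mem 3 (by omega), h.W.lev_x 3 (by omega)⟩
        · exact ⟨h.W.mem 0 (by omega), h.W.lev_x 0 (by omega)⟩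
      · rw [h.nw]
        exact h.card_ed (by omega)
    have g2 : Nx i v z = 0 := by
      unfold Nx
      rw [if_neg (key _ _ _)]
      · rw [h.nv]
        exact h.W.ed_sub (by omega)
      · rw [h.nv]
        exact h.card_ed (by omega)
    rw [g1, g2]
    ring
  rw [s1, s2, h.sum_big, m1, m2, m3, h.dg0, h.dg1, h.dg3, h.sum_M4, h.sum_vp] at a2
  rw [m1, m2, h.dg1, h.dg3, h.sum_vp] at a1
  unfold Fv
  rw [a2, a1]
  ring

end Rr

end Pool.Agent.GaussPoset.Win.W4

end

/-! From `Pool.Agent.W_448kf_h15.KfL` -/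

section

/-!
MP_448cb3_co, G2, case B, window `j`: bounds for `F` of a part with four sites and the pattern R.
helper15.
-/

namespace Pool.Agent.GaussPoset.Win.W4

set_option linter.unusedSectionVars false

open Finset
open Pool.Agent.GaussPoset.Win.SO (PN vp con on mem_PN vp_PD vp_PU)

universe u

variable {P : Type u} [Fintype P] [PartialOrder P] [DecidableEq P] {r i : ℕ}
variable {psi : P → P} {C K : Finset P} {w v : P} {m : ℕ} {x : ℕ → P}

namespace PRow

variable (W : PRow r i C m x)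
include W

/-- the children of an upper pendant -/
lemma ch_PU {z : P} (hz : z ∈ PU P i) (hzC : z ∈ C) :
    ch i C z ≤ 2 * (((uc z).filter (fun g => (dc g).card = 1)).card : ℤ) := by
  classical
  have H := W.H
  obtain ⟨-, y, hcon, -, -, hs2, -, hor⟩ := PN_dat H (C := C) (mem_PN.2 ⟨hzC, Or.inr hz⟩)
  rcases hor with ⟨h3, -⟩ | ⟨-, hlz, hly, h4, hsit, -, -⟩
  · have := lev_PD h3
    have := lev_PU hz
    omega
  have hsub : Ch i C z ⊆ (uc z).filter (fun g => (dc g).card = 1) := by
    intro g hg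
    rw [mem_Ch] at hg
    obtain ⟨hgC, hcd, hne⟩ := hg
    rcases hcd with ⟨h1, -⟩ | ⟨-, h2, h3⟩
    · omega
    rw [hcon] at h3
    -- `g` has a lower cover
    obtain ⟨s, hs⟩ : (dc g).Nonempty := by
      obtain ⟨q, hq, hql⟩ := H.exists_below (x := g) (j := i) (by omega) (by
        have := W.hi2; omega)
      obtain ⟨s, hs, -⟩ := exists_covBy_le_of_lt (show q < g from
        lt_of_le_of_ne hq (fun h => by rw [h] at hql; omega))
      obtain ⟨s', hs', -⟩ : ∃ s', s' ⋖ g ∧ q ≤ s' := by
        obtain ⟨s', h5, h6⟩ := exists_le_covBy_of_lt (show q < g from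
          lt_of_le_of_ne hq (fun h => by rw [h] at hql; omega))
        exact ⟨s', h6, h5⟩
      exact ⟨s', mem_dc.2 hs'⟩
    have hs1 := h3 hs
    rw [mem_insert, mem_singleton] at hs1
    have hls := lev_dc H hs
    have hall : ∀ s' ∈ dc g, s' = s := by
      intro s' hs'
      have h5 := h3 hs'
      rw [mem_insert, mem_singleton] at h5
      have h6 := lev_dc H hs'
      rcases hs1 with rfl | rfl <;> rcases h5 with rfl | rfl <;> first | rfl | omega
    have hdg : dc g = {s} := eq_singleton_iff_unique_mem.2 ⟨hs, hall⟩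
    rcases hs1 with rfl | rfl
    · rw [mem_filter]
      exact ⟨mem_uc.2 (mem_dc.1 hs), by rw [hdg, card_singleton]⟩
    · exfalso
      have h5 : g ∈ UC i C := mem_UC.2 ⟨hgC, mem_PU.2 ⟨by omega, by rw [hdg, card_singleton], s,
        mem_dc.1 hs, by rw [← hsit]; exact hs2⟩⟩
      have h6 : z ∈ UC i C := mem_UC.2 ⟨hzC, hz⟩
      exact hne (card_le_one.1 W.uc1 g h5 z h6)
  unfold ch
  calc ∑ g ∈ Ch i C z, c3 i C (z, g) ≤ ∑ _g ∈ Ch i C z, (2 : ℤ) := by
        refine sum_le_sum fun g _ => ?_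
        unfold c3
        split_ifs <;> norm_num
    _ = 2 * ((Ch i C z).card : ℤ) := by rw [sum_const, nsmul_eq_mul]; ring
    _ ≤ _ := by
        have := card_le_card hsub
        have h7 : ((Ch i C z).card : ℤ) ≤
          (((uc z).filter (fun g => (dc g).card = 1)).card : ℤ) := by exact_mod_cast this
        linarith

/-- the lower pendants over an edge are below its double -/
lemma DE_pen {k : ℕ} (hk : k < m) (h1 : dcv (x k) (x (k + 1)) = 1) :
    ∃ y, y ∈ C ∧ uc y = ed x k ∧ DE i C x k = pen y := by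
  classical
  have H := W.H
  have h1' := h1
  unfold dcv at h1'
  obtain ⟨s, hs⟩ := card_eq_one.1 h1'
  have hss : s ∈ univ.filter (fun y => y ⋖ x k ∧ y ⋖ x (k + 1)) := by
    rw [hs]; exact mem_singleton_self s
  rw [mem_filter] at hss
  have hls := lev_cov H hss.2.1
  have hlk := W.lev_x k (by omega)
  have hus : uc s = ed x k := StB_uc_pair H hss.2.1 hss.2.2 (W.ne (by omega) (by omega) (by omega))
  have hsC : s ∈ C := W.hC.dn (W.mem k (by omega)) (by omega) hss.2.1
  have huniq : ∀ y', uc y' = ed x k → y' = s := by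
    intro y' hy'
    have : y' ∈ ({s} : Finset P) := by
      rw [← hs, mem_filter]
      refine ⟨mem_univ _, ?_, ?_⟩
      · rw [← mem_uc, hy']
        exact (W.mem_ed (by omega) hk).2 (Or.inl rfl)
      · rw [← mem_uc, hy']
        exact (W.mem_ed (by omega) hk).2 (Or.inr rfl)
    exact mem_singleton.1 this
  refine ⟨s, hsC, hus, ?_⟩
  ext g
  constructor
  · intro hg
    obtain ⟨hgC, hgP, hgs⟩ := mem_DE.1 hg
    obtain ⟨-, y', -, -, -, -, -, hor'⟩ := PN_dat H (C := C) (mem_PN.2 ⟨hgC, Or.inl hgP⟩)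
    rcases hor' with ⟨-, hlg, hly', g4, g5, -, -⟩ | ⟨g3, -⟩
    swap
    · have := lev_PU g3
      have := lev_PD hgP
      omega
    have hye' : uc y' = ed x k := by rw [← g5, hgs]
    have hyy : y' = s := huniq y' hye'
    subst hyy
    exact mem_pen.2 ⟨mem_uc.1 (by rw [g4]; exact mem_singleton_self y'),
      by rw [g4, card_singleton]⟩
  · intro hg
    have hgu := uc_pen hg
    have hgl := lev_cov H (mem_pen.1 hg).1
    have hgC := W.cl g s hsC hgu
    refine mem_DE.2 ⟨hgC, mem_PD.2 ⟨by omega, by rw [hgu, card_singleton], s,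
      (mem_pen.1 hg).1, ?_⟩, ?_⟩
    · rw [hus]
      exact W.card_ed hk
    · rw [SO.sit_PD H (by omega) hgu, hus]

/-- the children of the lower pendants over an edge -/
lemma sum_DE {k : ℕ} (hk : k < m) (h1 : dcv (x k) (x (k + 1)) = 1) :
    ∑ z ∈ DE i C x k, vp i z * ch i C z = ∑ a ∈ DE i C x k, (2 * ((pen a).card : ℤ)) +
      (DE i C x k).card * ((DE i C x k).card - 1) := by
  classical
  obtain ⟨y, hyC, hy, hD⟩ := W.DE_pen hk h1
  have e5 : ∀ z ∈ DE i C x k, vp i z * ch i C z =
      2 * ((pen z).card : ℤ) + ((DE i C x k).card - 1) := by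
    intro a ham
    obtain ⟨haC, haP, has⟩ := mem_DE.1 ham
    have hap : a ∈ pen y := by rw [← hD]; exact ham
    rw [vp_PD haP, W.ch_PD haP haC (uc_pen hap), hD]
    ring
  rw [sum_congr rfl e5, sum_add_distrib, sum_const, nsmul_eq_mul]

/-- the children of the pendants over an edge -/
lemma CH_split (k : ℕ) : CH i C x k = ∑ z ∈ DE i C x k, vp i z * ch i C z +
    ∑ z ∈ UE i C x k, vp i z * ch i C z := by
  classical
  unfold CH
  have e1 : (PN i C).filter (fun z => sit i z = ed x k) = DE i C x k ∪ UE i C x k := by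
    rw [PN_eq, filter_union]
    rfl
  have e2 : Disjoint (DE i C x k) (UE i C x k) := disjoint_filter_filter (DC_UC i C)
  rw [e1, sum_union e2]

lemma UE_one (k : ℕ) : (UE i C x k).card ≤ 1 :=
  (card_le_card (filter_subset _ _)).trans W.uc1

/-- two pendants below the same double cannot both have two private children -/
lemma pen_two {y a b : P} (hab : a ≠ b) (ha : a ∈ pen y) (hb : b ∈ pen y) :
    (pen a).card + (pen b).card ≤ 3 := by
  classical
  have H := W.H
  by_contra hcon
  have ha2 := W.pen_le a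
  have hb2 := W.pen_le b
  have hpa : (pen a).card = 2 := by omega
  have hpb : (pen b).card = 2 := by omega
  have hla := lev_cov H (mem_pen.1 ha).1
  have hlb := lev_cov H (mem_pen.1 hb).1
  have hua := uc_pen ha
  have hub := uc_pen hb
  have hdc : ∀ a : P, (pen a).card = 2 → dc a = pen a := by
    intro a h2
    have h3 : pen a ⊆ dc a := fun s hs => mem_dc.2 (mem_pen.1 hs).1
    symm
    refine eq_of_subset_of_card_le h3 ?_
    obtain ⟨g, hg⟩ := card_pos.1 (show 0 < (pen a).card by omega)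
    rcases dc_card_cases H (mem_pen.1 hg).1 with h4 | h4 <;> omega
  have hno : ∀ a : P, (pen a).card = 2 → ∀ c : P, c ≠ a → dcv a c = 0 := by
    intro a h2 c hc
    unfold dcv
    rw [card_eq_zero, filter_eq_empty_iff]
    intro g _ hg
    have h3 : g ∈ pen a := by
      rw [← hdc a h2]
      exact mem_dc.2 hg.1
    have h4 := uc_pen h3
    have h5 := mem_uc.2 hg.2
    rw [h4, mem_singleton] at h5
    exact hc h5
  obtain ⟨g, hg⟩ := card_pos.1 (show 0 < (pen a).card by omega)
  have hlg := lev_cov H (mem_pen.1 hg).1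
  have hlr := H.lev_le g
  have hu0 : ∀ a : P, uc a = {y} → ∀ c : P, ucv a c ≠ 0 → c ⋖ y := by
    intro a h2 c hc
    unfold ucv at hc
    obtain ⟨s, hs⟩ := card_pos.1 (Nat.pos_of_ne_zero hc)
    rw [mem_filter] at hs
    have h3 := mem_uc.2 hs.2.1
    rw [h2, mem_singleton] at h3
    rw [← h3]
    exact hs.2.2
  have hdy : ∀ c : P, c ⋖ y → c = a ∨ c = b := by
    intro c hc
    by_contra h2
    push Not at h2
    have h3 : ({a, b, c} : Finset P) ⊆ dc y := by
      intro s hs
      rw [mem_insert, mem_insert, mem_singleton] at hs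
      rcases hs with rfl | rfl | rfl
      · exact mem_dc.2 (mem_pen.1 ha).1
      · exact mem_dc.2 (mem_pen.1 hb).1
      · exact mem_dc.2 hc
    have h4 := card_le_card h3
    rw [card_insert_of_notMem (by
      rw [mem_insert, mem_singleton]
      push Not
      exact ⟨hab, fun h5 => h2.1 h5.symm⟩), card_pair (fun h5 => h2.2 h5.symm)] at h4
    rcases dc_card_cases H hc with h5 | h5 <;> omega
  have key := Mp.pair_eq H (i := lev a) (by omega) rfl (by omega) hab (by
    intro c hlc hca hcb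
    constructor
    · rw [Mp.Df_val H rfl (Ne.symm hca), hno a hpa c hca]
      have : ucv a c = 0 := by
        by_contra h2
        rcases hdy c (hu0 a hua c h2) with h3 | h3
        · exact hca h3
        · exact hcb h3
      rw [this]
      rfl
    · rw [Mp.Df_val H (by omega) (Ne.symm hcb), hno b hpb c hcb]
      have : ucv b c = 0 := by
        by_contra h2
        rcases hdy c (hu0 b hub c h2) with h3 | h3
        · exact hca h3
        · exact hcb h3
      rw [this]
      rfl)
  rw [hno a hpa b (Ne.symm hab)] at key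
  have h2 : 0 < ucv a b := by
    unfold ucv
    refine card_pos.2 ⟨y, ?_⟩
    rw [mem_filter]
    exact ⟨mem_univ _, (mem_pen.1 ha).1, (mem_pen.1 hb).1⟩
  omega

/-- the private children of the pendants over an edge -/
lemma sum_pen_le {k : ℕ} (hk : k < m) (h1 : dcv (x k) (x (k + 1)) = 1) :
    (DE i C x k).card ≤ 2 ∧ (∑ a ∈ DE i C x k, ((pen a).card : ℤ)) ≤
      if (DE i C x k).card = 0 then 0 else if (DE i C x k).card = 1 then 2 else 3 := by
  classical
  obtain ⟨y, hyC, hy, hD⟩ := W.DE_pen hk h1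
  have h2 : (DE i C x k).card ≤ 2 := by
    rw [hD]
    exact W.pen_le y
  refine ⟨h2, ?_⟩
  have h3 : (DE i C x k).card = 0 ∨ (DE i C x k).card = 1 ∨ (DE i C x k).card = 2 := by omega
  rcases h3 with h3 | h3 | h3
  · rw [if_pos h3, card_eq_zero.1 h3, sum_empty]
  · rw [if_neg (by omega), if_pos h3]
    obtain ⟨a, ha⟩ := card_eq_one.1 h3
    rw [ha, sum_singleton]
    have := W.pen_le a
    omega
  · rw [if_neg (by omega), if_neg (by omega)]
    obtain ⟨a, b, hab, ha⟩ := card_eq_two.1 h3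
    have h4 : a ∈ pen y := by rw [← hD, ha]; exact mem_insert_self _ _
    have h5 : b ∈ pen y := by rw [← hD, ha]; exact mem_insert_of_mem (mem_singleton_self _)
    rw [ha, sum_pair hab]
    have := W.pen_two hab h4 h5
    omega

end PRow

namespace Rr

variable (h : Rr r i K psi C w v x)
include h

lemma dcv12 : dcv (x 1) (x (1 + 1)) = 1 := by
  have := h.dn 1 2 (by omega) (by omega)
  norm_num at this
  exact this

lemma dcv23 : dcv (x 2) (x (2 + 1)) = 1 := by
  have := h.dn 2 3 (by omega) (by omega)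
  norm_num at this
  exact this

lemma pen1_le : (pen (x 1)).card ≤ 1 := by
  have h1 := h.deg1
  have h2 := h.W.dc_le (k := 1) (by omega)
  omega

end Rr

end Pool.Agent.GaussPoset.Win.W4

end
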