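import Mathlib
import Pool.Agent.W_448zz_h61.Ns
import Pool.Agent.W_448zz_h61.M037
import Pool.Agent.W_448zz_h61.M074
import Pool.Agent.W_448zz_h61.M161
import Pool.Agent.W_448zz_h61.M212
import Pool.Agent.W_448zz_h61.M214

/-! From `Pool.Agent.W_448so_h39.FI` -/

section

/-!
# S9 (MP_448cb3_co): the total poset
-/

namespace Pool.Agent.GaussPoset.Win

set_option linter.unusedSectionVars false

open Finset
open Pool.Agent.GaussPoset.Win.I2 (Prof be bb VV)
open Pool.Agent.GaussPoset.Wd (SS Shape)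

universe u

variable {P : Type u} [Fintype P] [PartialOrder P] [DecidableEq P] {r i j : ℕ}
  {lo hi : ℕ → ℕ} {x : ℕ → ℕ → P} {S : Finset P}

/-- not closed -/
def Ncl (i : ℕ) (S : Finset P) : Prop :=
  ∀ w ∈ S, ∀ w' ∈ S, ∀ x x' : P, lev w = i + 2 → x ≠ x' → uc w = {x, x'} →
    uc w' = {x, x'} → (uc x).card = 2 → (uc x').card = 2 → w = w'

/-- not a flip -/
def Nfl (i : ℕ) (S : Finset P) : Prop :=
  ∀ p ∈ S, ∀ q ∈ S, p ∈ PD P i → q ∈ PU P i → sts i p = stD i q

/-- no join on the level `i + 2`: the tops separate the components -/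
lemma no_join_two (h : GoodTo P r (i + 1)) (hno : ∀ z : P, lev z = i + 2 → ¬ Hul.Jn z) {z : P}
    (hz : lev z ≤ i + 2) : ¬ Hul.Jn z := by
  rcases Nat.lt_or_ge (lev z) (i + 2) with h1 | h1
  · exact h.no_join z (by omega)
  · exact hno z (by omega)

lemma split_two (h : GoodTo P r (i + 1)) (hno : ∀ z : P, lev z = i + 2 → ¬ Hul.Jn z) :
    Split (i + 2) (topOf : P → Tops P) := by
  intro v y hvy hv
  refine Subtype.ext ?_
  exact Hul.top_unique (no_join_two h hno hv) (topOf v).2 (topOf y).2 (le_topOf v)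
    (hvy.le.trans (le_topOf y))

lemma mem_cext_two (h : GoodTo P r (i + 1)) (hno : ∀ z : P, lev z = i + 2 → ¬ Hul.Jn z)
    (t : Tops P) {y : P} (hy : lev y ≤ i + 2) :
    y ∈ cext (i + 2) (topOf : P → Tops P) t ↔ y ≤ (t : P) := by
  rw [mem_cext]
  constructor
  · intro h1
    have h2 := h1 y le_rfl hy
    rw [← h2]
    exact le_topOf y
  · intro h1 z hz hlz
    refine Subtype.ext ?_
    exact Hul.top_unique (no_join_two h hno hy) (topOf z).2 t.2 (hz.trans (le_topOf z)) h1

/-- the extended components -/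
lemma cm5_no (h : GoodTo P r (i + 1)) (hi1 : 1 ≤ i)
    (hno : ∀ z : P, lev z = i + 2 → ¬ Hul.Jn z) (t : Tops P)
    (C : Comp P (t : P) (i + 1) lo hi x) :
    Cm5 P r i (t : P) lo hi x (cext (i + 2) (topOf : P → Tops P) t) where
  g := h
  i1 := hi1
  ht := t.2
  C := C
  part := part_cext h.H (by omega) (split_two h hno) t
  hS := fun y hy => mem_cext_two h hno t hy

lemma Cm5.to6 {t : P} (K : Cm5 P r i t lo hi x S) (h1 : Ncl i S) (h2 : Nfl i S) :
    Cm6 P r i t lo hi x S := by
  refine ⟨K, ?_, ?_⟩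
  · intro a ha ha'
    rw [← card_dc_inter, card_le_one]
    intro w hw w' hw'
    rw [mem_inter, mem_dc, mem_dc] at hw hw'
    have f1 := K.C.lo_ge i (by omega)
    have f2 := K.C.hi_le i (by omega)
    have hl := K.C.lev_x (i + 1) le_rfl a (by omega) (by omega)
    have hne := K.C.inj (i + 1) le_rfl a (a + 1) (by omega) (by omega) (by omega)
    have l1 := lev_cov K.g.H hw.1
    have l2 := lev_cov K.g.H hw'.1
    have hat := K.C.le_t (i + 1) le_rfl a (by omega) (by omega)
    exact h1 w ((K.hS w (by omega)).2 (hw.1.le.trans hat)) w'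
      ((K.hS w' (by omega)).2 (hw'.1.le.trans hat)) _ _ (by omega) hne
      (StB_uc_pair K.g.H hw.1 hw.2 hne) (StB_uc_pair K.g.H hw'.1 hw'.2 hne)
      ((K.C.uc_two K.g K.ht (k := i) (by omega) (by omega) (by omega)).2 ⟨ha, by omega⟩)
      ((K.C.uc_two K.g K.ht (k := i) (by omega) (by omega) (by omega)).2 ⟨by omega, by omega⟩)
  · intro p hp hpt q hq hqt
    have l1 := lev_PD hp
    have l2 := lev_PU hq
    exact h2 p ((K.hS p (by omega)).2 hpt) q ((K.hS q (by omega)).2 hqt) hp hq

/-- the number of sites -/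
lemma Cm5.card_st {t : P} (K : Cm5 P r i t lo hi x S) : (st i S).card = hi i + 1 - lo i := by
  have h1 : st i S = (Icc (lo i) (hi i)).image (x i) := by
    ext v
    unfold st
    rw [mem_filter, mem_image]
    constructor
    · rintro ⟨h1, h2⟩
      obtain ⟨a, a1, a2, rfl⟩ := K.C.surj i (by omega) v h2 ((K.hS v (by omega)).1 h1)
      exact ⟨a, mem_Icc.2 ⟨a1, a2⟩, rfl⟩
    · rintro ⟨a, ha, rfl⟩
      rw [mem_Icc] at ha
      have hl := K.C.lev_x i (by omega) a ha.1 ha.2
      exact ⟨(K.hS _ (by omega)).2 (K.C.le_t i (by omega) a ha.1 ha.2), hl⟩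
  rw [h1, card_image_of_injOn, Nat.card_Icc]
  intro a ha b hb hab
  rw [mem_coe, mem_Icc] at ha hb
  exact K.C.inj' (by omega) ha.1 ha.2 hb.1 hb.2 hab

end Pool.Agent.GaussPoset.Win

end

/-! From `Pool.Agent.W_448so_h39.FJ` -/

section

/-!
# S9 (MP_448cb3_co): energy five of a component whose next level is arbitrary
-/

namespace Pool.Agent.GaussPoset.Win.SO

set_option linter.unusedSectionVars false

open Finset
open Pool.Agent.GaussPoset.Win.I2 (Prof be)

universe u

variable {P : Type u} [Fintype P] [PartialOrder P] [DecidableEq P] {r i : ℕ} {psi : P → P}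
  {C : Finset P}

/-- the value of (5,2) of a part -/
theorem PS5.five_gen (Q : PS5 r i psi C) (hb : 1 ≤ (st i C).card) :
    2 * I2.be 5 (st i C).card (ZS i C) =
      2 * (∑ q ∈ I5 i C, chg i C q.1 * vp i q.2) - ((O5 i C).card : ℤ) - 2 * (F5 i C).card := by
  classical
  have H := Q.H
  have hir : i ≤ r := by have := Q.hi2; omega
  rw [Q.be_five hb, D5_eq Q hb, sum_union, sum_union, sum_union]
  rotate_left
  · exact dis_6 Q.toPSO
  · rw [disjoint_union_right]
    exact ⟨dis_4, dis_5⟩
  · rw [disjoint_union_right, disjoint_union_right]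
    exact ⟨dis_1, dis_2 Q.toPSO, dis_3 H⟩
  have e1 : ∑ e ∈ (I5 i C).image (c5 i),
      PowerSeries.coeff (st i C).card (dd ^ 2 * tC i C e : A) =
      ∑ q ∈ I5 i C, chg i C q.1 * vp i q.2 := by
    rw [sum_image (fun a ha b hb h => c5_inj H hir ha hb h)]
    exact sum_congr rfl fun q hq => (I5_value H Q.hi Q.hi2 Q.hC hq).2
  have e2 : ∑ e ∈ (O5 i C).image (cA i),
      PowerSeries.coeff (st i C).card (dd ^ 2 * tC i C e : A) = - ((O5 i C).card : ℤ) := by
    rw [sum_image (fun a ha b hb h => cA_inj Q.toPSO ha hb h),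
      sum_congr rfl (g := fun _ => (-1 : ℤ)) fun q hq => (cA_value Q.toPSO hq).2, sum_const]
    simp
  have e3 : ∑ e ∈ (O5 i C).image (cB i),
      PowerSeries.coeff (st i C).card (dd ^ 2 * tC i C e : A) =
        (((O5 i C).image (cB i)).card : ℤ) := by
    rw [sum_congr rfl (g := fun _ => (1 : ℤ)), sum_const]
    · simp
    · intro e he
      rw [mem_image] at he
      obtain ⟨q, hq, rfl⟩ := he
      exact (cB_value Q.toPSO hq).2
  have e4 : ∑ e ∈ (F5 i C).image (cF i),
      PowerSeries.coeff (st i C).card (dd ^ 2 * tC i C e : A) = - ((F5 i C).card : ℤ) := by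
    rw [sum_image (fun a ha b hb h => cF_inj H ha hb h),
      sum_congr rfl (g := fun _ => (-1 : ℤ)) fun q hq => (cF_value Q.toPSO hq).2, sum_const]
    simp
  rw [e1, e2, e3, e4]
  have h2 := card_B (i := i) Q.toPSO
  have h3 : (2 : ℤ) * (((O5 i C).image (cB i)).card : ℤ) = ((O5 i C).card : ℤ) := by
    exact_mod_cast h2
  linarith

/-- the profile at energy five -/
theorem PS5.prof5 (Q : PS5 r i psi C) (hc : (C.filter (· ∈ PD P i)).card =
    (C.filter (· ∈ PU P i)).card) : Prof 3 5 (st i C).card (ZS i C) where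
  lo := by
    intro n hn
    rw [coeff_ZS]
    rcases Nat.eq_zero_or_pos n with rfl | h
    · rw [ZC_zero Q.H (by have := Q.hi2; omega)]
    · exact so_lo Q.toPSO hc h (by omega)
  mid := by
    intro n hn
    rw [coeff_ZS]
    have := dvd_up (k := 1) (Q.le_four (n := n) (by omega))
    rwa [pow_one] at this
  top := by
    rw [coeff_ZS]
    exact dvd_up Q.dvd5

end Pool.Agent.GaussPoset.Win.SO

namespace Pool.Agent.GaussPoset.Win

set_option linter.unusedSectionVars false

open Finset
open Pool.Agent.GaussPoset.Win.I2 (Prof be)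

universe u

variable {P : Type u} [Fintype P] [PartialOrder P] [DecidableEq P] {r i j : ℕ} {t : P}
  {lo hi : ℕ → ℕ} {x : ℕ → ℕ → P} {S : Finset P} {psi : P → P}

/-- equally many pendants below and above -/
lemma Cm5.card_PP (K : Cm5 P r i t lo hi x S) : (S.filter (· ∈ PD P i)).card =
    (S.filter (· ∈ PU P i)).card := by
  obtain ⟨-, hc2⟩ := indiv_21 K.g i le_rfl t K.ht
  have e1 : S.filter (· ∈ PD P i) = PDt i t := by
    ext z
    rw [mem_filter, mem_PDt]
    constructor
    · rintro ⟨h1, h2⟩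
      exact ⟨h2, (K.hS z (lev_PD h2).1.le).1 h1⟩
    · rintro ⟨h1, h2⟩
      exact ⟨(K.hS z (lev_PD h1).1.le).2 h2, h1⟩
  have e2 : S.filter (· ∈ PU P i) = PUt i t := by
    ext z
    rw [mem_filter, mem_PUt]
    constructor
    · rintro ⟨h1, h2⟩
      have := lev_PU h2
      exact ⟨h2, (K.hS z (by omega)).1 h1⟩
    · rintro ⟨h1, h2⟩
      have := lev_PU h1
      exact ⟨(K.hS z (by omega)).2 h2, h1⟩
  rw [e1, e2, hc2]

/-- a triple and an edge -/
lemma disj_Tr (C : Comp P t j lo hi x) (hij : i ≤ j) {a m : ℕ} (ha : lo i < a) (ha' : a < hi i)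
    (hm : lo i ≤ m) (hm' : m + 1 ≤ hi i) :
    Disjoint (Tr x i a) {x i m, x i (m + 1)} ↔ m + 2 < a ∨ a + 1 < m := by
  rw [disjoint_right]
  simp only [mem_insert, mem_singleton, forall_eq_or_imp, forall_eq]
  rw [mem_Tr C hij ha ha' hm (by omega), mem_Tr C hij ha ha' (by omega) hm']
  omega

/-- a flip: position of the two pendants -/
lemma Cm5.flip_pos (K : Cm5 P r i t lo hi x S) (hM : Mat P i ∅ psi) {p p' y u : P} (hp : p ∈ S)
    (hp' : p' ∈ S) (h1 : p ∈ PD P i) (h2 : p' ∈ PU P i) (h3 : uc p = {y}) (h4 : dc p' = {u}) :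
    u = psi y ∨
      (lo i + 2 ≤ hi i ∧ dc u = {x i (lo i), x i (lo i + 1)} ∧
        uc y = {x i (lo i + 1), x i (lo i + 2)}) ∨
      (lo i + 2 ≤ hi i ∧ dc u = {x i (hi i - 1), x i (hi i)} ∧
        uc y = {x i (hi i - 2), x i (hi i - 1)}) := by
  have hpt := (K.hS p (lev_PD h1).1.le).1 hp
  have l2 := lev_PU h2
  have hpt' := (K.hS p' (by omega)).1 hp'
  obtain ⟨a, a1, a2, a3, a4, a5⟩ := K.pen_edge h1 hpt h3
  obtain ⟨b1, b2, b3, b4⟩ := K.PU_sites h2 hpt' h4
  have hly : lev y = i + 1 := by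
    rw [a3]
    have f1 := K.C.lo_ge i (by omega)
    have f2 := K.C.hi_le i (by omega)
    exact K.C.lev_x (i + 1) le_rfl a (by omega) (by omega)
  have hy2 : (uc y).card = 2 := by
    rw [a5]
    exact card_pair (K.C.inj i (by omega) _ _ (by omega) (by omega) a2)
  have hS5 := (near_level' K.g K.i1).2 t lo hi x K.ht K.C
  rcases b4 with ⟨c1, c2⟩ | ⟨c1, c2⟩
  · rcases hS5 with ⟨g1, -, -⟩ | ⟨-, -, b, hb, g3⟩ | ⟨-, g2, -⟩
    · exact absurd c1 g1
    · have g4 := g3 a a1 a2
      have hab : a = b := by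
        by_contra hne
        rw [if_neg hne] at g4
        omega
      subst hab
      rcases hb with hb | ⟨hb, hb'⟩
      · left
        refine psi_eq_of K.g hM hly hy2 ?_
        rw [c2, a5, hb, Nat.add_sub_cancel]
      · right
        left
        refine ⟨by omega, c2, ?_⟩
        rw [a5, hb, show lo i + 2 - 1 = lo i + 1 by omega]
    · exact absurd c1 g2
  · rcases hS5 with ⟨-, g1, -⟩ | ⟨-, g2, -⟩ | ⟨-, -, b, hb, g3⟩
    · exact absurd c1 g1
    · exact absurd c1 g2
    · have g4 := g3 a a1 a2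
      have hab : a = b := by
        by_contra hne
        rw [if_neg hne] at g4
        omega
      subst hab
      rcases hb with hb | ⟨hb, hb'⟩
      · left
        refine psi_eq_of K.g hM hly hy2 ?_
        rw [c2, a5, hb]
      · right
        right
        refine ⟨by omega, c2, ?_⟩
        rw [a5, show hi i - 1 = a by omega, show hi i - 2 = a - 1 by omega]

/-- the charge of a triple: no hypothesis on closed pairs -/
lemma Cm5.chg_Tr (K : Cm5 P r i t lo hi x S) (no : ∀ z : P, lev z = i + 2 → ¬ Hul.Jn z) {a : ℕ}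
    (ha : lo i < a) (ha' : a < hi i) :
    ∑ z ∈ (ZL i S ∪ ZU i S).filter (fun z => sit i z = Tr x i a), chg i S z =
      1 - dcv (x (i + 1) a) (x (i + 1) (a + 1)) := by
  have h3 := card_Tr K.C (by omega) ha ha'
  have e1 : (FL i S).filter (fun z => sit i z = Tr x i a) = ∅ := by
    rw [filter_eq_empty_iff]
    intro w hw he
    obtain ⟨-, z, hz, hu⟩ := mem_FL.1 hw
    have := card_sts_PD K.g.H hz
    rw [← sit_FL K.g.H hz hu, he] at this
    omega
  have e2 : (FU' i S).filter (fun z => sit i z = Tr x i a) = ∅ := by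
    rw [filter_eq_empty_iff]
    intro w hw he
    obtain ⟨-, z, hz, hu⟩ := mem_FU'.1 hw
    have := card_stD_PU K.g.H hz
    rw [← sit_FU K.g.H hz hu, he] at this
    omega
  have h4 := sum_chg (S := S) (i := i) K.g.H (fun z => sit i z = Tr x i a)
  unfold Chs at h4
  rw [filter_union, filter_union, e1, e2, union_empty, union_empty,
    card_ZU_Tr K.C K.g K.ht K.hS ha ha', card_ZL_Tr K.C K.g K.i1 K.ht K.hS no ha ha',
    card_empty] at h4
  rw [h4]
  push_cast
  ring

/-- closed pairs over a triple -/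
lemma Cm5.closed_Tr (K : Cm5 P r i t lo hi x S) (no : ∀ z : P, lev z = i + 2 → ¬ Hul.Jn z) {a : ℕ}
    (ha : lo i < a) (ha' : a < hi i) :
    dcv (x (i + 1) a) (x (i + 1) (a + 1)) * dcv (x (i + 1) a) (x (i + 1) (a + 1)) -
      dcv (x (i + 1) a) (x (i + 1) (a + 1)) ≤ (SO.O5 i S).card := by
  have f1 := K.C.lo_ge i (by omega)
  have f2 := K.C.hi_le i (by omega)
  have hne := K.C.inj (i + 1) le_rfl a (a + 1) (by omega) (by omega) (by omega)
  rw [← card_ZL_Tr K.C K.g K.i1 K.ht K.hS no ha ha', ← offDiag_card]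
  refine card_le_card ?_
  intro q hq
  rw [mem_offDiag, mem_filter, mem_filter] at hq
  obtain ⟨⟨h1, h2⟩, ⟨h3, h4⟩, h5⟩ := hq
  have key : ∀ z ∈ ZL i S, sit i z = Tr x i a → uc z = {x (i + 1) a, x (i + 1) (a + 1)} := by
    intro z hz hs
    obtain ⟨b, b1, b2, b3, b4, b5⟩ := ZL_spec K.C K.g K.i1 K.ht K.hS no hz
    have := Tr_inj K.C (by omega) b1 b2 ha ha' (b3.symm.trans hs)
    subst this
    exact StB_uc_pair K.g.H b4 b5 hne
  exact SO.mem_O5.2 ⟨h1, h3, h5, (key _ h1 h2).trans (key _ h3 h4).symm⟩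

/-- the sum over the pairs (charge, pendant) of a flip -/
lemma Cm5.sum_I5_aux (K : Cm5 P r i t lo hi x S) (no : ∀ z : P, lev z = i + 2 → ¬ Hul.Jn z)
    {p p' : P} (hp : p ∈ PD P i) (hp' : p' ∈ PU P i) (hPN : SO.PN i S = {p, p'}) (hne : p ≠ p')
    {c : ℕ} (hc : ∀ a, lo i < a → a < hi i → (Disjoint (Tr x i a) (sit i p) ↔
      Disjoint (Tr x i a) (sit i p') ∧ a ≠ c)) (hc' : lo i < c → c < hi i →
      Disjoint (Tr x i c) (sit i p')) :
    (∑ q ∈ SO.I5 i S, chg i S q.1 * SO.vp i q.2 = 0) ∨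
      (lo i < c ∧ c < hi i ∧ ∑ q ∈ SO.I5 i S, chg i S q.1 * SO.vp i q.2 =
        (dcv (x (i + 1) c) (x (i + 1) (c + 1)) : ℤ) - 1) := by
  classical
  have hsum : ∑ q ∈ SO.I5 i S, chg i S q.1 * SO.vp i q.2 = ∑ w ∈ ZL i S ∪ ZU i S,
      ((if Disjoint (sit i w) (sit i p) then chg i S w else 0) -
        (if Disjoint (sit i w) (sit i p') then chg i S w else 0)) := by
    unfold SO.I5
    rw [sum_filter, sum_product]
    refine sum_congr rfl fun w _ => ?_
    rw [hPN, sum_pair hne]
    show (if Disjoint (sit i w) (sit i p) then chg i S w * SO.vp i p else 0) +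
      (if Disjoint (sit i w) (sit i p') then chg i S w * SO.vp i p' else 0) = _
    rw [SO.vp_PD hp, SO.vp_PU hp']
    split_ifs <;> ring
  have hTr : ∀ w ∈ ZL i S ∪ ZU i S, ∃ a, lo i < a ∧ a < hi i ∧ sit i w = Tr x i a := by
    intro w hw
    rcases mem_union.1 hw with hw | hw
    · obtain ⟨a, a1, a2, a3, -⟩ := ZL_spec K.C K.g K.i1 K.ht K.hS no hw
      exact ⟨a, a1, a2, a3⟩
    · obtain ⟨a, a1, a2, a3, -⟩ := ZU_spec K.C K.g K.ht K.hS hw
      exact ⟨a, a1, a2, a3⟩
  by_cases hr : lo i < c ∧ c < hi i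
  · right
    refine ⟨hr.1, hr.2, ?_⟩
    have h2 : ∀ w ∈ ZL i S ∪ ZU i S,
        ((if Disjoint (sit i w) (sit i p) then chg i S w else 0) -
          (if Disjoint (sit i w) (sit i p') then chg i S w else 0)) =
        - (if sit i w = Tr x i c then chg i S w else 0) := by
      intro w hw
      obtain ⟨a, a1, a2, a3⟩ := hTr w hw
      rw [a3]
      by_cases hac : a = c
      · subst hac
        rw [if_neg (fun h => ((hc a a1 a2).1 h).2 rfl), if_pos (hc' a1 a2), if_pos rfl]
        ring
      · rw [if_neg (fun h => hac (Tr_inj K.C (by omega) a1 a2 hr.1 hr.2 h))]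
        by_cases hd : Disjoint (Tr x i a) (sit i p')
        · rw [if_pos ((hc a a1 a2).2 ⟨hd, hac⟩), if_pos hd]
          ring
        · rw [if_neg (fun h => hd ((hc a a1 a2).1 h).1), if_neg hd]
          ring
    rw [hsum, sum_congr rfl h2, sum_neg_distrib, ← sum_filter, K.chg_Tr no hr.1 hr.2]
    ring
  · left
    rw [hsum]
    refine sum_eq_zero fun w hw => ?_
    obtain ⟨a, a1, a2, a3⟩ := hTr w hw
    have hac : a ≠ c := by
      rintro rfl
      exact hr ⟨a1, a2⟩
    rw [a3]
    by_cases hd : Disjoint (Tr x i a) (sit i p')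
    · rw [if_pos ((hc a a1 a2).2 ⟨hd, hac⟩), if_pos hd]
      ring
    · rw [if_neg (fun h => hd ((hc a a1 a2).1 h).1), if_neg hd]
      ring

/-- the sites of a flip -/
lemma Cm5.flip_sites (K : Cm5 P r i t lo hi x S) {p p' y u : P} (h1 : p ∈ PD P i)
    (h2 : p' ∈ PU P i) (h3 : uc p = {y}) (h4 : dc p' = {u})
    (hpos : (lo i + 2 ≤ hi i ∧ dc u = {x i (lo i), x i (lo i + 1)} ∧
        uc y = {x i (lo i + 1), x i (lo i + 2)}) ∨
      (lo i + 2 ≤ hi i ∧ dc u = {x i (hi i - 1), x i (hi i)} ∧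
        uc y = {x i (hi i - 2), x i (hi i - 1)})) :
    (sit i p ∩ sit i p').card = 1 ∧ ∃ c, (∀ a, lo i < a → a < hi i →
      (Disjoint (Tr x i a) (sit i p) ↔ Disjoint (Tr x i a) (sit i p') ∧ a ≠ c)) ∧
      (lo i < c → c < hi i → Disjoint (Tr x i c) (sit i p')) := by
  have l1 := lev_PD h1
  have l2 := lev_PU h2
  rw [sit_low K.g.H (by omega), sit_upp K.g.H (by omega), ClE_sts K.g.H l1.1 h3,
    ClE_stD K.g.H l2.1 h4]
  rcases hpos with ⟨hb, hu, hy⟩ | ⟨hb, hu, hy⟩
  · have n2 := K.C.inj i (by omega) (lo i) (lo i + 2) (by omega) (by omega) (by omega)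
    rw [hu, hy]
    constructor
    · rw [card_eq_one]
      refine ⟨x i (lo i + 1), ?_⟩
      ext v
      simp only [mem_inter, mem_insert, mem_singleton]
      constructor
      · rintro ⟨h5 | h5, h6 | h6⟩
        · exact h5
        · exact h5
        · rw [h5] at h6
          exact absurd h6.symm n2
        · exact h6
      · rintro rfl
        exact ⟨Or.inl rfl, Or.inr rfl⟩
    · refine ⟨lo i + 3, ?_, ?_⟩
      · intro a a1 a2
        rw [disj_Tr K.C (by omega) a1 a2 (by omega) (by omega),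
          disj_Tr K.C (by omega) a1 a2 (by omega) (by omega)]
        omega
      · intro c1 c2
        rw [disj_Tr K.C (by omega) c1 c2 (by omega) (by omega)]
        omega
  · obtain ⟨n, hn⟩ : ∃ n, hi i = n + 2 := ⟨hi i - 2, by omega⟩
    have n2 := K.C.inj i (by omega) (hi i - 2) (hi i) (by omega) (by omega) (by omega)
    rw [hu, hy]
    have e1 : hi i - 1 = n + 1 := by omega
    have e2 : hi i - 2 = n := by omega
    constructor
    · rw [card_eq_one]
      refine ⟨x i (hi i - 1), ?_⟩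
      ext v
      simp only [mem_inter, mem_insert, mem_singleton]
      constructor
      · rintro ⟨h5 | h5, h6 | h6⟩
        · exact h6
        · rw [h5] at h6
          exact absurd h6 n2
        · exact h5
        · exact h5
      · rintro rfl
        exact ⟨Or.inr rfl, Or.inl rfl⟩
    · rw [e1, e2, hn]
      refine ⟨n - 1, ?_, ?_⟩
      · intro a a1 a2
        rw [disj_Tr K.C (by omega) a1 (by omega) (by omega) (by omega),
          disj_Tr K.C (by omega) a1 (by omega) (by omega) (by omega)]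
        omega
      · intro c1 c2
        rw [disj_Tr K.C (by omega) c1 (by omega) (by omega) (by omega)]
        omega

/-- (5,2) of a component is at most zero, and zero only without closed pairs and flips -/
theorem Cm5.five (K : Cm5 P r i t lo hi x S) (no : ∀ z : P, lev z = i + 2 → ¬ Hul.Jn z)
    (hM : Mat P i ∅ psi) (hb : 1 ≤ (st i S).card) :
    I2.be 5 (st i S).card (ZS i S) ≤ 0 ∧
      (I2.be 5 (st i S).card (ZS i S) = 0 → SO.O5 i S = ∅ ∧ SO.F5 i S = ∅) := by
  classical
  have Q := K.ps5 hM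
  have H := K.g.H
  have hmain := Q.five_gen hb
  suffices hs : (∑ q ∈ SO.I5 i S, chg i S q.1 * SO.vp i q.2 = 0) ∨
      2 * (∑ q ∈ SO.I5 i S, chg i S q.1 * SO.vp i q.2) - ((SO.O5 i S).card : ℤ) -
        2 * (SO.F5 i S).card < 0 by
    rcases hs with hs | hs
    · rw [hs] at hmain
      constructor
      · omega
      · intro h0
        rw [h0] at hmain
        constructor
        · rw [← card_eq_zero]
          omega
        · rw [← card_eq_zero]
          omega
    · constructor
      · omega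
      · intro h0
        omega
  by_cases hp : ∃ p ∈ S, p ∈ PD P i
  swap
  · left
    have hI : SO.I5 i S = ∅ := by
      rw [eq_empty_iff_forall_notMem]
      intro q hq
      obtain ⟨h1, h2⟩ := SO.mem_PN.1 (SO.mem_I5.1 hq).2.1
      rcases h2 with h2 | h2
      · exact hp ⟨_, h1, h2⟩
      · have h3 := K.card_PP
        have h4 : 0 < (S.filter (· ∈ PU P i)).card := card_pos.2 ⟨_, mem_filter.2 ⟨h1, h2⟩⟩
        rw [← h3, card_pos] at h4
        obtain ⟨p, h5⟩ := h4
        rw [mem_filter] at h5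
        exact hp ⟨p, h5⟩
    rw [hI, sum_empty]
  obtain ⟨p, hpS, hp⟩ := hp
  obtain ⟨p', hpS', hp'⟩ : ∃ p' ∈ S, p' ∈ PU P i := by
    have h3 := K.card_PP
    have h4 : 0 < (S.filter (· ∈ PD P i)).card := card_pos.2 ⟨_, mem_filter.2 ⟨hpS, hp⟩⟩
    rw [h3, card_pos] at h4
    obtain ⟨p, h5⟩ := h4
    rw [mem_filter] at h5
    exact ⟨p, h5⟩
  obtain ⟨y, a1, a2, a3, a4, -⟩ := SO.PD_data H hp
  obtain ⟨u, b1, b2, b3, b4, -⟩ := SO.PU_data H hp'
  have hPN : SO.PN i S = {p, p'} := by
    ext z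
    rw [SO.mem_PN, mem_insert, mem_singleton]
    constructor
    · rintro ⟨h1, h2 | h2⟩
      · exact Or.inl (Q.pd z h1 p hpS h2 hp)
      · exact Or.inr (Q.pu z h1 p' hpS' h2 hp')
    · rintro (rfl | rfl)
      · exact ⟨hpS, Or.inl hp⟩
      · exact ⟨hpS', Or.inr hp'⟩
  have hne : p ≠ p' := by
    rintro rfl
    have := lev_PD hp
    have := lev_PU hp'
    omega
  rcases K.flip_pos hM hpS hpS' hp hp' a1 b1 with h | h
  · -- the same sites
    left
    have hs : sit i p = sit i p' := by
      rw [SO.sit_PD H a2 a1, SO.sit_PU H b2 b1, h]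
      have hdb : y ∈ dbL P i := by
        unfold dbL
        rw [mem_filter]
        exact ⟨mem_univ _, a3, a4⟩
      exact (hM.low y hdb (by simp)).2.symm
    unfold SO.I5
    rw [sum_filter, sum_product]
    apply sum_eq_zero
    intro w _
    rw [hPN, sum_pair hne]
    show (if Disjoint (sit i w) (sit i p) then chg i S w * SO.vp i p else 0) +
      (if Disjoint (sit i w) (sit i p') then chg i S w * SO.vp i p' else 0) = 0
    rw [hs, SO.vp_PD hp, SO.vp_PU hp']
    split_ifs <;> ring
  · -- a flip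
    right
    obtain ⟨h1, c, hc, hc'⟩ := K.flip_sites hp hp' a1 b1 h
    have hF : 1 ≤ (SO.F5 i S).card :=
      card_pos.2 ⟨(p, p'), SO.mem_F5.2 ⟨hpS, hp, hpS', hp', h1⟩⟩
    rcases K.sum_I5_aux no hp hp' hPN hne hc hc' with g | ⟨g1, g2, g3⟩
    · rw [g]
      omega
    · rw [g3]
      have g4 := K.closed_Tr no g1 g2
      set D := dcv (x (i + 1) c) (x (i + 1) (c + 1)) with hD
      have g5 : (D : ℤ) * D - D ≤ (SO.O5 i S).card := by
        have : D ≤ D * D := Nat.le_mul_self D
        zify [this] at g4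
        exact g4
      have g6 : (1 : ℤ) ≤ (SO.F5 i S).card := by exact_mod_cast hF
      nlinarith [sq_nonneg (2 * (D : ℤ) - 3)]

/-- no closed pair -/
lemma Cm5.ncl (K : Cm5 P r i t lo hi x S) (h : SO.O5 i S = ∅) : Ncl i S := by
  intro w hw w' hw' v v' hl hne h1 h2 h3 h4
  by_contra hww
  have m1 : w ⋖ v := by rw [← mem_uc, h1]; exact mem_insert_self _ _
  have m2 : w ⋖ v' := by rw [← mem_uc, h1]; exact mem_insert_of_mem (mem_singleton_self _)
  have m3 : w' ⋖ v := by rw [← mem_uc, h2]; exact mem_insert_self _ _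
  have l1 := lev_cov K.g.H m1
  have l3 := lev_cov K.g.H m3
  have hu : ucv v v' = 1 := by
    rcases (near_level' K.g K.i1).1 w v v' hl m1 m2 hne with g | ⟨g, -, -⟩
    · exact g
    · omega
  have key : ∀ z ∈ S, lev z = i + 2 → uc z = {v, v'} → z ∈ ZL i S := by
    intro z hz hlz hzu
    refine mem_ZL.2 ⟨hz, hlz, ?_⟩
    have h5 : sts i z = uc v ∪ uc v' := by
      ext s
      rw [mem_sts, mem_union]
      constructor
      · rintro ⟨g1, g2⟩
        obtain ⟨y, g3, g4⟩ := exists_covBy_le_of_lt g2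
        have g5 := lev_cov K.g.H g3
        obtain ⟨y', g6, g7⟩ := exists_covBy_le_of_lt (lt_of_le_of_ne g4 (by rintro rfl; omega))
        have g8 := lev_cov K.g.H g6
        have g9 : y' = s := by
          rcases eq_or_lt_of_le g7 with g | g
          · exact g
          · have := lev_strict K.g.H g
            omega
        subst g9
        rw [← mem_uc, hzu, mem_insert, mem_singleton] at g3
        rcases g3 with rfl | rfl
        · exact Or.inl (mem_uc.2 g6)
        · exact Or.inr (mem_uc.2 g6)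
      · rintro (g | g)
        · have g1 := mem_uc.1 g
          have g2 : z ⋖ v := by rw [← mem_uc, hzu]; exact mem_insert_self _ _
          have := lev_cov K.g.H g1
          exact ⟨by omega, g2.lt.trans g1.lt⟩
        · have g1 := mem_uc.1 g
          have g2 : z ⋖ v' := by
            rw [← mem_uc, hzu]; exact mem_insert_of_mem (mem_singleton_self _)
          have := lev_cov K.g.H g1
          have := lev_cov K.g.H m2
          exact ⟨by omega, g2.lt.trans g1.lt⟩
    have h6 := card_union_add_card_inter (uc v) (uc v')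
    rw [card_uc_inter, hu, h3, h4] at h6
    rw [← card_sts, h5]
    omega
  have : (w, w') ∈ SO.O5 i S := SO.mem_O5.2 ⟨key w hw hl h1, key w' hw' (by omega) h2, hww,
    h1.trans h2.symm⟩
  rw [h] at this
  exact absurd this (notMem_empty _)

/-- no flip -/
lemma Cm5.nfl (K : Cm5 P r i t lo hi x S) (hM : Mat P i ∅ psi) (h : SO.F5 i S = ∅) :
    Nfl i S := by
  intro p hp q hq h1 h2
  have H := K.g.H
  obtain ⟨y, a1, a2, a3, a4, -⟩ := SO.PD_data H h1
  obtain ⟨u, b1, b2, b3, b4, -⟩ := SO.PU_data H h2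
  rcases K.flip_pos hM hp hq h1 h2 a1 b1 with g | g
  · have hs : sit i p = sit i q := by
      rw [SO.sit_PD H a2 a1, SO.sit_PU H b2 b1, g]
      have hdb : y ∈ dbL P i := by
        unfold dbL
        rw [mem_filter]
        exact ⟨mem_univ _, a3, a4⟩
      exact (hM.low y hdb (by simp)).2.symm
    have l1 := lev_PD h1
    have l2 := lev_PU h2
    rw [sit_low H (by omega), sit_upp H (by omega)] at hs
    exact hs
  · obtain ⟨g1, -⟩ := K.flip_sites h1 h2 a1 b1 g
    have : (p, q) ∈ SO.F5 i S := SO.mem_F5.2 ⟨hp, h1, hq, h2, g1⟩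
    rw [h] at this
    exact absurd this (notMem_empty _)

end Pool.Agent.GaussPoset.Win

end

/-! From `Pool.Agent.W_448nf_h84.NfB` -/

section

/-!
MP_448cb3_co, G2, case B: the functional `F` of the natural parts of the window `j` is nonnegative
(helper84).
-/

namespace Pool.Agent.GaussPoset.EK

set_option linter.unusedSectionVars false

open Finset Win St Polynomial Wd Win.W4

universe u

variable {P : Type u} [Fintype P] [PartialOrder P] [DecidableEq P] {r i j : ℕ}

variable {K : Finset P} {psi : P → P}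

/-- the matched near elements of a natural part -/
lemma NJ.nat_K (h : NJ P r j) (R : Red P j K psi) {t : Tops P} (hn : NatT j (t : P)) :
    ∀ x ∈ cext (j + 1) (topOf : P → Tops P) t, x ∉ K := by
  intro x hx hxK
  have H := h.g.H
  have hD := R.sub hxK
  have hne := R.Df_ne hxK
  have hlx : lev x ≤ j + 1 := by
    rcases mem_union.1 hD with h1 | h1
    · exact (mem_dbL.1 h1).1.le
    · have := (mem_dbU.1 h1).1
      omega
  have hxt : x ≤ (t : P) := by
    have h1 := (mem_cext.1 hx) x le_rfl hlx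
    rw [← h1]
    exact le_topOf x
  obtain ⟨u, v, huv, hns⟩ := card_eq_two.1 (ns_card hD)
  have key : ∀ w ∈ ns j x, lev w = j ∧ w ≤ (t : P) := by
    intro w hw
    refine ⟨(kap_ns' H h.split hD hw).2, ?_⟩
    have h1 := (kap_ns' H h.split hD hw).1
    have h2 := (mem_cext.1 hx) x le_rfl hlx
    rw [h2] at h1
    rw [← h1]
    exact le_topOf w
  obtain ⟨hu1, hu2⟩ := key u (by rw [hns]; exact mem_insert_self _ _)
  obtain ⟨hv1, hv2⟩ := key v (by rw [hns]; exact mem_insert_of_mem (mem_singleton_self _))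
  apply hne
  rw [hns, Df_pair H hu1 huv, hn u v hu1 hv1 hu2 hv2 huv]
  simp

/-- a natural part has all near doubles matched -/
theorem NJ.nat4 (h : NJ P r j) (hj : 2 ≤ j) (R : Red P j K psi) {t : Tops P}
    (hn : NatT j (t : P)) : Nat4 r j K psi (cext (j + 1) (topOf : P → Tops P) t) where
  H := h.g.H
  hi := by omega
  hi2 := h.hr
  hM := R.mat
  hC := part_cext h.g.H le_rfl h.split t
  hK := NJ.nat_K h R hn
  nq := by
    intro w _ hlw x hx x' hx' h2 h2'
    rcases eq_or_ne x x' with rfl | hne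
    · rw [inter_self]
      exact card_pos.1 (by omega)
    · obtain ⟨v, hv, hv'⟩ := NJ.noQ h hj w hlw x hx x' hx' hne h2 h2'
      exact ⟨v, mem_inter.2 ⟨hv, hv'⟩⟩
  nq' := by
    classical
    intro w _ hlw x hx x' hx' h2 h2'
    rcases eq_or_ne x x' with rfl | hne
    · rw [inter_self]
      exact card_pos.1 (by omega)
    · by_contra h0
      rw [not_nonempty_iff_eq_empty, ← disjoint_iff_inter_eq_empty] at h0
      have h3 : dn j w ≤ 3 := by
        have h4 := dn_le_three h.g.H (k := lev w) (h.g.good (lev w + 1) (by omega)) rfl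
        rwa [hlw] at h4
      have h4 : dc x ∪ dc x' ⊆ stD j w := by
        intro v hv
        rw [mem_stD_iff h.g.H hlw]
        rcases mem_union.1 hv with hv | hv
        · exact ⟨x, hx, hv⟩
        · exact ⟨x', hx', hv⟩
      have h5 := card_le_card h4
      rw [card_union_of_disjoint h0, card_stD] at h5
      omega

/-- at most one upper pendant per part -/
theorem NJ.UC_le (h : NJ P r j) (hj : 2 ≤ j) (t : Tops P) :
    (UC j (cext (j + 1) (topOf : P → Tops P) t)).card ≤ 1 := by
  classical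
  obtain ⟨lo, hi, e, C⟩ := Cp.comp_exists h.g.H t.2 h.g.hr h.g.good
  obtain ⟨n, rfl⟩ : ∃ n, j = n + 2 := ⟨j - 2, by omega⟩
  have h1 : npd lo hi n ≤ 1 := (law_two h.g t.2 C (i := n) le_rfl).2
  have h2 : npu lo hi (n + 2) ≤ 1 := by
    unfold npu
    unfold npd at h1
    split_ifs with h3 h4 h4
    · exfalso
      obtain ⟨-, a1, a2, a3⟩ := h3
      obtain ⟨-, b1, b2, b3⟩ := h4
      have e1 := C.lo_le (n + 1) (by omega)
      have e2 : n + 2 - 1 = n + 1 := by omega
      have e3 : n + 2 - 2 = n := by omega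
      rw [e2, e3] at a1 b1
      rw [e2] at a2 b2
      rw [if_pos (show Wd.pdL lo hi n from ⟨a1, a2, by omega⟩),
        if_pos (show Wd.pdR lo hi n from ⟨b1, b2, by omega⟩)] at h1
      omega
    all_goals omega
  rw [npu_eq, ← C.card_PU h.g.H le_rfl] at h2
  refine (card_le_card ?_).trans h2
  intro p hp
  obtain ⟨h3, h4⟩ := mem_UC.1 hp
  rw [mem_filter]
  refine ⟨h4, ?_⟩
  have h5 := lev_PU h4
  have h6 := (mem_cext.1 h3) p le_rfl (by omega)
  rw [← h6]
  exact le_topOf p

lemma NJ.st_pos (h : NJ P r j) (t : Tops P) :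
    1 ≤ (st j (cext (j + 1) (topOf : P → Tops P) t)).card := by
  obtain ⟨lo, hi, e, C⟩ := Cp.comp_exists h.g.H t.2 h.g.hr h.g.good
  rw [h.cext_eq (i := j) (by omega) t, h.card_SS le_rfl C]
  have := C.lo_le j le_rfl
  omega

/-- the functional `F` of a part -/
noncomputable def Fn (i : ℕ) (C : Finset P) : ℤ :=
  I2.al 2 (st i C).card (ZS i C) + (I2.al 2 (st i C).card (ZS i C) ^ 2 -
    2 * I2.be 4 (st i C).card (ZS i C))

/-- `F ≥ 0` for the natural parts -/
theorem NJ.nat_F (h : NJ P r j) (hj : 2 ≤ j) {t : Tops P} (hn : NatT j (t : P)) :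
    0 ≤ Fn j (cext (j + 1) (topOf : P → Tops P) t) := by
  obtain ⟨K, psi, R⟩ := exists_red P j
  exact (NJ.nat4 h hj R hn).F_nonneg (NJ.st_pos h t) (NJ.UC_le h hj t)

end Pool.Agent.GaussPoset.EK

end

/-! From `Pool.Agent.W_448fin_h16.FnB` -/

section

/-!
# Final assembly (MP_448cb3_co): balance of the chains and no flips at the window `j - 2`

`S9_QQ`: the inner statement of `S9_all`.  `no_flip`, `chain_bal`: when no element of level `i + 3` is
below two maximal elements and all levels less than `i + 2` are good, no component has a flip at the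
window `i`, and the numbers of lower and upper chains of every component with at least three sites at
the window `i` are equal.
-/

namespace Pool.Agent.GaussPoset.Win

set_option linter.unusedSectionVars false

open Finset
open Pool.Agent.GaussPoset.Win.I2 (Prof be bb VV)
open Pool.Agent.GaussPoset.Wd (SS Shape)

universe u

variable {P : Type u} [Fintype P] [PartialOrder P] [DecidableEq P] {r i j : ℕ}
  {lo hi : ℕ → ℕ} {x : ℕ → ℕ → P} {S : Finset P}

/-- the inner statement of S9: not closed, not a flip, the form vanishes -/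
theorem S9_QQ (h : GoodTo P r (i + 1)) (hi1 : 1 ≤ i)
    (hno : ∀ z : P, lev z = i + 2 → ¬ Hul.Jn z)
    (hZ : ∀ v, lev v = i + 3 → v ∉ cuni (i + 2) (topOf : P → Tops P) → up (i + 1) v = 2 →
      up i v ≤ 3)
    (t : Tops P) (h3 : 3 ≤ (st i (cext (i + 2) (topOf : P → Tops P) t)).card) :
    Ncl i (cext (i + 2) (topOf : P → Tops P) t) ∧ Nfl i (cext (i + 2) (topOf : P → Tops P) t) ∧
      QQ i (cext (i + 2) (topOf : P → Tops P) t) ≤ 0 := by
  obtain ⟨psi, hM⟩ := good_mat h.H (h.good i (by omega))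
  have hcx : ∀ t : Tops P, ∃ lo hi e, Comp P (t : P) (i + 1) lo hi e :=
    fun t => comp_exists h t.2
  have hP : ∀ t : Tops P, Prof 3 5 (st i (cext (i + 2) (topOf : P → Tops P) t)).card
      (ZS i (cext (i + 2) (topOf : P → Tops P) t)) := by
    intro t
    obtain ⟨lo, hi, e, C⟩ := hcx t
    have K := cm5_no h hi1 hno t C
    exact (K.ps5 hM).prof5 K.card_PP
  have hfive : ∀ t : Tops P, 3 ≤ (st i (cext (i + 2) (topOf : P → Tops P) t)).card →
      be 5 (st i (cext (i + 2) (topOf : P → Tops P) t)).card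
        (ZS i (cext (i + 2) (topOf : P → Tops P) t)) ≤ 0 ∧
      (be 5 (st i (cext (i + 2) (topOf : P → Tops P) t)).card
        (ZS i (cext (i + 2) (topOf : P → Tops P) t)) = 0 →
        Ncl i (cext (i + 2) (topOf : P → Tops P) t) ∧
        Nfl i (cext (i + 2) (topOf : P → Tops P) t)) := by
    intro t h3
    obtain ⟨lo, hi, e, C⟩ := hcx t
    have K := cm5_no h hi1 hno t C
    obtain ⟨g1, g2⟩ := K.five hno hM (by omega)
    refine ⟨g1, fun h0 => ?_⟩
    obtain ⟨g3, g4⟩ := g2 h0
    exact ⟨K.ncl g3, K.nfl hM g4⟩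
  have hsix : ∀ t : Tops P, 3 ≤ (st i (cext (i + 2) (topOf : P → Tops P) t)).card →
      Ncl i (cext (i + 2) (topOf : P → Tops P) t) → Nfl i (cext (i + 2) (topOf : P → Tops P) t) →
      dd ^ (st i (cext (i + 2) (topOf : P → Tops P) t)).card ∣
        dd ^ 2 * PowerSeries.coeff 6 (ZS i (cext (i + 2) (topOf : P → Tops P) t)) ∧
      ∃ n : ℕ, (I2.al 3 (st i (cext (i + 2) (topOf : P → Tops P) t)).card
          (ZS i (cext (i + 2) (topOf : P → Tops P) t))) ^ 2 -
        2 * be 6 (st i (cext (i + 2) (topOf : P → Tops P) t)).card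
          (ZS i (cext (i + 2) (topOf : P → Tops P) t)) =
        QQ i (cext (i + 2) (topOf : P → Tops P) t) + 2 * (n : ℤ) := by
    intro t h3 h4 h5
    obtain ⟨lo, hi, e, C⟩ := hcx t
    have K := (cm5_no h hi1 hno t C).to6 h4 h5
    have Q := K.ps6 hM
    refine ⟨Q.top6, (SO.N1f i (cext (i + 2) (topOf : P → Tops P) t)).card +
      (SO.N5f i (cext (i + 2) (topOf : P → Tops P) t)).card, ?_⟩
    rw [Q.six' (by omega)]
    push_cast
    ring
  have hκ : Split (i + 2) (topOf : P → Tops P) := split_two h hno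
  have hb : 1 ≤ (lv P i).card := by
    obtain ⟨lo, hi, e, C'⟩ := hcx t
    have f1 := C'.lohi i (by omega)
    exact card_pos.2 ⟨e i (lo i), mem_lv.2 (C'.lev_x i (by omega) (lo i) le_rfl f1)⟩
  have hfive' : ∀ a ∈ univ.image (topOf : P → Tops P), 3 ≤ bb i (i + 2) topOf a →
      be 5 (bb i (i + 2) topOf a) (VV i (i + 2) topOf a) ≤ 0 := fun a _ h3 => (hfive a h3).1
  have h5 := So.five_zero h.H hi1 h.hr (h.good i (by omega)) hκ hb hZ (fun a _ => hP a) hfive'
  have hm : ∀ t : Tops P, t ∈ univ.image (topOf : P → Tops P) := Wd.mem_tops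
  have hnn : ∀ t : Tops P, 3 ≤ (st i (cext (i + 2) (topOf : P → Tops P) t)).card →
      Ncl i (cext (i + 2) (topOf : P → Tops P) t) ∧ Nfl i (cext (i + 2) (topOf : P → Tops P) t) ∧
      0 ≤ QQ i (cext (i + 2) (topOf : P → Tops P) t) := by
    intro t h3
    obtain ⟨g1, g2⟩ := (hfive t h3).2 (h5 t (hm t))
    obtain ⟨lo, hi, e, C⟩ := hcx t
    exact ⟨g1, g2, (((cm5_no h hi1 hno t C).to6 g1 g2).cmp hno).QQ_nonneg⟩
  obtain ⟨h6, -⟩ := So.six_zero h.H hi1 h.hr (h.good i (by omega)) hκ hb hZ (fun a _ => hP a)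
    (fun a _ h3 => (hsix a h3 (hnn a h3).1 (hnn a h3).2.1).1) hfive' (fun a _ h3 => by
      obtain ⟨g1, g2, g3⟩ := hnn a h3
      obtain ⟨-, n, g4⟩ := hsix a h3 g1 g2
      have g5 : (0 : ℤ) ≤ 2 * (n : ℤ) := by positivity
      show 2 * be 6 (st i (cext (i + 2) (topOf : P → Tops P) a)).card
          (ZS i (cext (i + 2) (topOf : P → Tops P) a)) ≤
        (I2.al 3 (st i (cext (i + 2) (topOf : P → Tops P) a)).card
          (ZS i (cext (i + 2) (topOf : P → Tops P) a))) ^ 2
      linarith)
  obtain ⟨g1, g2, g3⟩ := hnn t h3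
  obtain ⟨-, n, g4⟩ := hsix t h3 g1 g2
  have g6 : (I2.al 3 (st i (cext (i + 2) (topOf : P → Tops P) t)).card
      (ZS i (cext (i + 2) (topOf : P → Tops P) t))) ^ 2 =
      2 * be 6 (st i (cext (i + 2) (topOf : P → Tops P) t)).card
        (ZS i (cext (i + 2) (topOf : P → Tops P) t)) := h6 t (hm t)
  have g7 : (0 : ℤ) ≤ 2 * (n : ℤ) := by positivity
  exact ⟨g1, g2, by linarith⟩

section

variable (h : GoodTo P r (i + 2)) (hi1 : 1 ≤ i) (hno : ∀ z : P, lev z = i + 3 → ¬ Hul.Jn z)

include h hno in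
/-- without joins on the level `i + 3` the extended components contain the level `i + 3` -/
lemma mem_cuni_no {v : P} (hv : lev v = i + 3) : v ∈ cuni (i + 2) (topOf : P → Tops P) := by
  unfold cuni
  rw [mem_biUnion]
  refine ⟨topOf v, mem_image_of_mem _ (mem_univ v), ?_⟩
  rw [mem_cext]
  intro y hy _
  exact Subtype.ext (Hul.top_unique (hno v hv) (topOf y).2 (topOf v).2
    (hy.trans (le_topOf y)) (le_topOf v))

include h hi1 hno in
/-- without joins on the level `i + 3` there is no flip at the window `i` -/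
theorem no_flip {t : Tops P} (C : Comp P (t : P) (i + 2) lo hi x) : ¬ Flip lo hi i := by
  classical
  intro hf
  have h1 : So.Z2s i (topOf : P → Tops P) = ∅ := by
    rw [eq_empty_iff_forall_notMem]
    intro v hv
    obtain ⟨h2, h3, -⟩ := So.mem_Z2s.1 hv
    exact h3 (mem_cuni_no h hno h2)
  have h2 := So.Z2_card h hi1
  rw [h1, card_empty] at h2
  have h3 := (sum_eq_zero_iff.1 h2.symm) t (Wd.mem_tops t)
  have h4 := F5_flip h C t.2 hi1 le_rfl (S := SS i t)
    (fun y hy => (Wd.SS_ext h (by omega) t).mem y hy) hf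
  rw [card_eq_zero] at h3
  rw [h3] at h4
  exact absurd h4 (by simp)

include h hi1 hno in
/-- the numbers of the lower and upper chains are equal -/
theorem chain_bal {t : Tops P} (C : Comp P (t : P) (i + 2) lo hi x) (h3 : lo i + 2 ≤ hi i) :
    (FL i (SS i t)).card = (FU' i (SS i t)).card := by
  classical
  have h' : GoodTo P r (i + 1) := h.mono (by omega)
  have hno' : ∀ z : P, lev z = i + 2 → ¬ Hul.Jn z := fun z hz => h.no_join z (by omega)
  have hE : cext (i + 2) (topOf : P → Tops P) t = SS i t := Wd.cext_eq h (by omega) t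
  have K := cm5_no h' hi1 hno' t (C.mono (show i + 1 ≤ i + 2 by omega))
  have hcs := K.card_st
  obtain ⟨g1, g2, g3⟩ := S9_QQ h' hi1 hno' (fun v hv hv2 _ => absurd (mem_cuni_no h hno hv) hv2)
    t (by omega)
  have K' := (K.to6 g1 g2).cmp hno'
  obtain ⟨N, q1, -, q3⟩ := K'.QQ_eq
  have q4 : ∀ k ∈ Trs x lo hi i, phc i (cext (i + 2) (topOf : P → Tops P) t) k = 0 := by
    intro k hk
    unfold Trs at hk
    obtain ⟨a, ha, rfl⟩ := mem_image.1 hk
    rw [mem_Ioo] at ha
    rw [K'.phc_Tr ha.1 ha.2]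
    have f1 := C.lo_ge i (by omega)
    have f2 := C.hi_le i (by omega)
    have l1 := C.lev_x (i + 1) (by omega) a (by omega) (by omega)
    have l2 := C.lev_x (i + 1) (by omega) (a + 1) (by omega) (by omega)
    have hne := C.inj (i + 1) (by omega) a (a + 1) (by omega) (by omega) (by omega)
    have e1 := h.good (i + 1) (by omega) _ _ l1 l2 hne
    rw [C.ucv_eq h t.2 (show i + 1 ≤ i + 2 by omega) (by omega) (by omega) (by omega) (by omega)
      (by omega), if_pos (Or.inl rfl)] at e1
    rw [← e1]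
    norm_num
  have q5 : So.qf (Trs x lo hi i) (fun k l => ¬ Disjoint k l)
      (phc i (cext (i + 2) (topOf : P → Tops P) t)) = 0 := by
    unfold So.qf
    refine sum_eq_zero fun k hk => sum_eq_zero fun l _ => ?_
    rw [q4 k hk, zero_mul, ite_self]
  have q6 : ∑ k ∈ N, phc i (cext (i + 2) (topOf : P → Tops P) t) k = 0 :=
    sum_eq_zero fun k hk => q4 k (q1 hk)
  rw [q3, q5, q6, mul_zero, zero_add, zero_add] at g3
  have q7 : ((FL i (cext (i + 2) (topOf : P → Tops P) t)).card : ℤ) -
      (FU' i (cext (i + 2) (topOf : P → Tops P) t)).card = 0 := by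
    have := sq_nonneg (((FL i (cext (i + 2) (topOf : P → Tops P) t)).card : ℤ) -
      (FU' i (cext (i + 2) (topOf : P → Tops P) t)).card)
    exact pow_eq_zero_iff (two_ne_zero) |>.1 (le_antisymm g3 this)
  rw [hE] at q7
  omega

end

end Pool.Agent.GaussPoset.Win

end

/-! From `Pool.Agent.W_448kf_h15.KfH` -/

section

/-!
MP_448cb3_co, G2, case B, window `j`: the rows of case B and their patterns [DL] in the frame of
`KfB`, `KfC`; reversed rows; `F ≥ 0` for the closed patterns [DL].  helper15.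
-/

namespace Pool.Agent.GaussPoset.EK

set_option linter.unusedSectionVars false

open Finset Win St Polynomial Wd Win.W4
open Pool.Agent.GaussPoset.Win.SO (PN vp)

universe u

variable {P : Type u} [Fintype P] [PartialOrder P] [DecidableEq P] {r i j : ℕ}

variable {m : ℕ} {x : ℕ → P} {c : ℕ → ℤ} {β : ℤ} {t : Tops P}

variable {K : Finset P} {psi : P → P}

lemma PcPat_rev (h : PcPat m c β) : PcPat m (fun k => c (m - 1 - k)) β := by
  rcases h with ⟨h1, h2⟩ | ⟨h1, h2, h3, h4⟩ | ⟨h1, h2, h3, h4⟩ | ⟨h1, h2, h3, h4, h5⟩ |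
    ⟨h1, h2, h3, h4, h5⟩ | ⟨h1, h2, h3, h4, h5, h6, h7⟩ | ⟨h1, h2, h3, h4⟩ |
    ⟨h1, h2, h3, h4, h5, h6, h7⟩
  · exact Or.inl ⟨h1, fun k hk => h2 _ (by omega)⟩
  · refine Or.inr (Or.inr (Or.inl ⟨h1, h2, ?_, fun k hk => h4 _ (by omega) (by omega)⟩))
    show c (m - 1 - (m - 1)) = -1
    rw [Nat.sub_self]; exact h3
  · refine Or.inr (Or.inl ⟨h1, h2, ?_, fun k hk hk' => h4 _ (by omega)⟩)
    show c (m - 1 - 0) = -1
    rw [Nat.sub_zero]; exact h3
  · refine Or.inr (Or.inr (Or.inr (Or.inr (Or.inl ⟨h1, h2, ?_, ?_,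
      fun k hk => h5 _ (by omega) (by omega)⟩))))
    · show c (m - 1 - (m - 1)) = 1
      rw [Nat.sub_self]; exact h3
    · show c (m - 1 - (m - 2)) = -1
      rw [show m - 1 - (m - 2) = 1 by omega]; exact h4
  · refine Or.inr (Or.inr (Or.inr (Or.inl ⟨h1, h2, ?_, ?_, fun k hk hk' => h5 _ (by omega)⟩)))
    · show c (m - 1 - 0) = 1
      rw [Nat.sub_zero]; exact h3
    · show c (m - 1 - 1) = -1
      rw [show m - 1 - 1 = m - 2 by omega]; exact h4
  · refine Or.inr (Or.inr (Or.inr (Or.inr (Or.inr (Or.inl ⟨h1, h2, ?_, ?_, ?_, ?_,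
      fun k hk hk' => h7 _ (by omega) (by omega)⟩)))))
    · show c (m - 1 - 0) = 1
      rw [Nat.sub_zero]; exact h6
    · show c (m - 1 - 1) = -1
      rw [show m - 1 - 1 = m - 2 by omega]; exact h5
    · show c (m - 1 - (m - 2)) = -1
      rw [show m - 1 - (m - 2) = 1 by omega]; exact h4
    · show c (m - 1 - (m - 1)) = 1
      rw [Nat.sub_self]; exact h3
  · subst h1
    exact Or.inr (Or.inr (Or.inr (Or.inr (Or.inr (Or.inr (Or.inl ⟨rfl, h2, h4, h3⟩))))))
  · subst h1
    refine Or.inr (Or.inr (Or.inr (Or.inr (Or.inr (Or.inr (Or.inr ⟨rfl, h2, h6, h5, h4, h3, ?_⟩))))))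
    rcases h7 with ⟨a, b⟩ | ⟨a, b⟩
    · exact Or.inr ⟨b, a⟩
    · exact Or.inl ⟨b, a⟩

lemma kf_ucv_comm (a b : P) : ucv a b = ucv b a := by
  classical
  unfold ucv
  congr 1
  ext y
  simp only [mem_filter, mem_univ, true_and]
  exact and_comm

/-- the reversed row -/
theorem RowB.rev (B : RowB P j t m x c β) :
    RowB P j t m (fun k => x (m - k)) (fun k => c (m - 1 - k)) β where
  row :=
    { lev_x := fun k hk => B.row.lev_x _ (by omega)
      inj := fun k l hk hl h => by
        have := B.row.inj _ _ (by omega) (by omega) h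
        omega
      kap := fun k hk => B.row.kap _ (by omega)
      surj := fun v h1 h2 => by
        obtain ⟨k, hk, rfl⟩ := B.row.surj v h1 h2
        exact ⟨m - k, by omega, by show x (m - (m - k)) = x k; rw [show m - (m - k) = k by omega]⟩
      df := fun k l hkl hl => by
        show Df j {x (m - k), x (m - l)} = _
        rw [pair_comm, B.row.df (m - l) (m - k) (by omega) (by omega)]
        by_cases h : l = k + 1
        · subst h
          rw [if_pos (by omega), if_pos rfl]
          show c (m - (k + 1)) = c (m - 1 - k)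
          congr 1
          omega
        · rw [if_neg (by omega), if_neg h]
          by_cases h2 : k = 0 ∧ l = m
          · rw [if_pos (by omega), if_pos h2]
          · rw [if_neg (by omega), if_neg h2] }
  pat := PcPat_rev B.pat
  ends := fun h => by
    obtain ⟨h1, h2⟩ := B.ends h
    refine ⟨?_, ?_⟩
    · show (uc (x (m - 0))).card = 1
      rw [Nat.sub_zero]; exact h2
    · show (uc (x (m - m))).card = 1
      rw [Nat.sub_self]; exact h1
  lost := fun a h1 h2 h3 h4 => by
    refine B.lost (m - a) (by omega) (by omega) ?_ ?_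
    · have : m - a - 1 = m - 1 - a := by omega
      rw [this]; exact h4
    · have : m - a = m - 1 - (a - 1) := by omega
      rw [this]; exact h3
  pen0 := fun a h1 h2 => B.pen0 (m - a) (by omega) (by omega)
  len := B.len
  ucv_x := fun a b h1 h2 => by
    show ucv (x (m - a)) (x (m - b)) = _
    rw [kf_ucv_comm, B.ucv_x (m - b) (m - a) (by omega) (by omega)]
    by_cases h : b = a + 1
    · rw [if_pos (by omega), if_pos h]
    · rw [if_neg (by omega), if_neg h]
  pu := fun a h1 h2 u hu1 hu2 z hz => by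
    refine B.pu (m - (a + 1)) (by omega) (by omega) u hu2 ?_ z hz
    rw [show m - (a + 1) + 1 = m - a by omega]
    exact hu1

/-- common lower covers of two elements of the level above a row -/
lemma RowB.up1 (h : NJ P r j) (B : RowB P j t m x c β) (hj : 2 ≤ j) {u u' : P}
    (hu : u ∈ cext (j + 1) (topOf : P → Tops P) t) (hlu : lev u + 1 = j) (hlu' : lev u' + 1 = j)
    (hne : u ≠ u') : ucv u u' ≤ 1 := by
  classical
  have H := h.g.H
  rw [h.g.good (j - 1) (by omega) u u' (by omega) (by omega) hne]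
  unfold dcv
  rw [card_le_one]
  intro a ha b hb
  rw [mem_filter] at ha hb
  by_contra hab
  have hC := part_cext H (le_refl (j + 1)) h.split t
  have key : ∀ a, a ⋖ u → ∃ k, k ≤ m ∧ x k = a := by
    intro a ha
    have hla := lev_cov H ha
    have haC := hC.dn hu (by omega) ha
    exact B.row.surj a (by omega) ((mem_cext.1 haC) a le_rfl (by omega))
  obtain ⟨k, hk, rfl⟩ := key a ha.2.1
  obtain ⟨l, hl, rfl⟩ := key b hb.2.1
  have h2 : ({u, u'} : Finset P) ⊆ univ.filter (fun y => x k ⋖ y ∧ x l ⋖ y) := by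
    intro s hs
    rw [mem_insert, mem_singleton] at hs
    rw [mem_filter]
    rcases hs with rfl | rfl
    · exact ⟨mem_univ _, ha.2.1, hb.2.1⟩
    · exact ⟨mem_univ _, ha.2.2, hb.2.2⟩
  have h3 := card_le_card h2
  rw [card_pair hne] at h3
  have h4 : ucv (x k) (x l) ≤ 1 := by
    rcases Nat.lt_trichotomy k l with h5 | h5 | h5
    · rw [B.ucv_x k l h5 hl]
      split_ifs <;> omega
    · exact absurd (by rw [h5]) hab
    · rw [kf_ucv_comm, B.ucv_x l k h5 hk]
      split_ifs <;> omega
  unfold ucv at h4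
  have h5 : (univ.filter (fun y => x k ⋖ y ∧ x l ⋖ y)).card ≤ 1 := by convert h4
  omega

/-- a pendant above the upper double of an end pair is impossible if the end is closed -/
lemma RowB.closed (h : NJ P r j) (B : RowB P j t m x c β) (hj : 2 ≤ j) (hm : 2 ≤ m)
    (h0 : (uc (x 0)).card = 2) {u z : P} (hu : x 0 ⋖ u) (hu1 : x 1 ⋖ u) (hz : u ⋖ z) :
    (dc z).card = 2 := by
  classical
  have H := h.g.H
  have l0 := B.row.lev_x 0 (by omega)
  have l1 := B.row.lev_x 1 (by omega)
  have l2 := B.row.lev_x 2 (by omega)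
  have hlu := lev_cov H hu
  have hlz := lev_cov H hz
  rcases dc_card_cases H hz with hz1 | hz1
  swap
  · exact hz1
  exfalso
  have hC := part_cext H (le_refl (j + 1)) h.split t
  have huC : u ∈ cext (j + 1) (topOf : P → Tops P) t :=
    hC.up (mem_cext_of_le h.split (by omega) (B.row.kap 0 (by omega))) hu
  -- the other cover of `x 0`
  obtain ⟨u0, hu0, hne0⟩ := exists_other_uc (y := u) h0
  have hlu0 := lev_cov H hu0
  -- the next double
  have h12 := B.ucv_x 1 2 (by omega) hm
  rw [if_pos rfl] at h12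
  unfold ucv at h12
  obtain ⟨u2, hu2⟩ := card_pos.1 (show 0 < (univ.filter
    (fun y : P => x 1 ⋖ y ∧ x 2 ⋖ y)).card by omega)
  rw [mem_filter] at hu2
  have hlu2 := lev_cov H hu2.2.1
  have hne2 : u ≠ u2 := by
    rintro rfl
    have h02 := B.ucv_x 0 2 (by omega) hm
    rw [if_neg (by omega)] at h02
    unfold ucv at h02
    rw [card_eq_zero, filter_eq_empty_iff] at h02
    exact h02 (mem_univ u) ⟨hu, hu2.2.2⟩
  have hne02 : u0 ≠ u2 := by
    rintro rfl
    have h02 := B.ucv_x 0 2 (by omega) hm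
    rw [if_neg (by omega)] at h02
    unfold ucv at h02
    rw [card_eq_zero, filter_eq_empty_iff] at h02
    exact h02 (mem_univ u0) ⟨hu0, hu2.2.2⟩
  -- common upper covers
  have g1 := h.g.good (j - 1) (by omega) u u0 (by omega) (by omega) (Ne.symm hne0)
  have g2 := h.g.good (j - 1) (by omega) u u2 (by omega) (by omega) hne2
  have d1 : 0 < dcv u u0 := by
    unfold dcv
    exact card_pos.2 ⟨x 0, by rw [mem_filter]; exact ⟨mem_univ _, hu, hu0⟩⟩
  have d2 : 0 < dcv u u2 := by
    unfold dcv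
    exact card_pos.2 ⟨x 1, by rw [mem_filter]; exact ⟨mem_univ _, hu1, hu2.2.1⟩⟩
  rw [← g1] at d1
  rw [← g2] at d2
  unfold ucv at d1 d2
  obtain ⟨p, hp⟩ := card_pos.1 d1
  obtain ⟨q, hq⟩ := card_pos.1 d2
  rw [mem_filter] at hp hq
  have hzd : ∀ y, y ⋖ z → y = u := fun y hy => dc_unique hz1 hy hz
  have hpz : p ≠ z := by
    rintro rfl
    exact hne0 (hzd u0 hp.2.2)
  have hqz : q ≠ z := by
    rintro rfl
    exact hne2 (hzd u2 hq.2.2).symm
  have hpq : p = q := by
    by_contra hpq
    have h3 : ({p, q, z} : Finset P) ⊆ uc u := by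
      intro s hs
      rw [mem_insert, mem_insert, mem_singleton] at hs
      rcases hs with rfl | rfl | rfl
      · exact mem_uc.2 hp.2.1
      · exact mem_uc.2 hq.2.1
      · exact mem_uc.2 hz
    have h4 := card_le_card h3
    rw [card_insert_of_notMem (by
      rw [mem_insert, mem_singleton]
      push Not
      exact ⟨hpq, hpz⟩), card_pair hqz] at h4
    rcases uc_card_cases H (x := u) (by omega) with h5 | h5 <;> omega
  subst hpq
  exact dc_three H hp.2.1 hp.2.2 hq.2.2 (Ne.symm hne0) hne2 hne02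

/-- elements of level `j - 2` over three sites have double covers below -/
lemma RowB.zu (h : NJ P r j) (B : RowB P j t m x c β) (hj : 2 ≤ j) {z : P}
    (hz : z ∈ ZU j (cext (j + 1) (topOf : P → Tops P) t)) : ∀ u ∈ dc z, (dc u).card = 2 := by
  classical
  have H := h.g.H
  obtain ⟨hzC, hlz, h3⟩ := mem_ZU.1 hz
  obtain ⟨a, b, hab, hc⟩ := card_eq_two.1 (card_dc_of_dn H hlz h3)
  have k3 := dn_two H hlz hc
  rw [h3] at k3
  have k4 := card_union_add_card_inter (dc a) (dc b)
  have ha : a ∈ dc z := by rw [hc]; exact mem_insert_self _ _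
  have hb : b ∈ dc z := by rw [hc]; exact mem_insert_of_mem (mem_singleton_self _)
  have hla := lev_dc H ha
  have hlb := lev_dc H hb
  have g1 := h.g.good (j - 1) (by omega) a b (by omega) (by omega) hab
  have g2 := StA_ucv_pos (mem_dc.1 ha) (mem_dc.1 hb)
  rw [g1] at g2
  unfold dcv at g2
  obtain ⟨q, hq⟩ := card_pos.1 (show 0 < _ from g2)
  rw [mem_filter] at hq
  have h5 : 1 ≤ (dc a ∩ dc b).card :=
    card_pos.2 ⟨q, mem_inter.2 ⟨mem_dc.2 hq.2.1, mem_dc.2 hq.2.2⟩⟩
  have h6 := dc_card_cases H hq.2.1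
  have h7 := dc_card_cases H hq.2.2
  intro u hu
  rw [hc, mem_insert, mem_singleton] at hu
  rcases hu with rfl | rfl <;> omega

/-- THE FRAME for the rows of case B -/
theorem NJ.prow (h : NJ P r j) (hj : 2 ≤ j) (B : RowB P j t m x c β) (hm : 2 ≤ m) :
    PRow r j (cext (j + 1) (topOf : P → Tops P) t) m x where
  H := h.g.H
  hi := by omega
  hi2 := h.hr
  hC := part_cext h.g.H le_rfl h.split t
  lev_x := B.row.lev_x
  inj := B.row.inj
  mem := fun k hk => mem_cext_of_le h.split (by rw [B.row.lev_x k hk]; omega) (B.row.kap k hk)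
  surj := fun v hv hl => B.row.surj v hl ((mem_cext.1 hv) v le_rfl (by omega))
  up := B.ucv_x
  up1 := fun u hu u' _ hl hl' hne => B.up1 h hj hu hl hl' hne
  pu := B.pu
  uc1 := NJ.UC_le h hj t
  pen0 := B.pen0
  cl := fun g s hs hg => by
    have H := h.g.H
    rw [mem_cext] at hs ⊢
    intro y hy hl
    rcases eq_or_lt_of_le hy with rfl | hlt
    · have hgs : g ⋖ s := mem_uc.1 (by rw [hg]; exact mem_singleton_self s)
      have h1 := lev_cov H hgs
      have h2 := hs s le_rfl (by omega)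
      rw [← h2]
      exact h.split hgs hl
    · obtain ⟨s', hs', hs2⟩ := exists_covBy_le_of_lt hlt
      have h1 : s' = s := by
        have := mem_uc.2 hs'
        rw [hg, mem_singleton] at this
        exact this
      subst h1
      exact hs y hs2 hl
  zu := fun z hz => B.zu h hj hz
  e0 := fun h0 u hu hu1 z hz => B.closed h hj hm h0 hu hu1 hz
  em := fun h0 u hu hu1 z hz => by
    refine B.rev.closed h hj hm ?_ (u := u) ?_ ?_ hz
    · show (uc (x (m - 0))).card = 2
      rw [Nat.sub_zero]; exact h0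
    · show x (m - 0) ⋖ u
      rw [Nat.sub_zero]; exact hu1
    · exact hu

end Pool.Agent.GaussPoset.EK

end

/-! From `Pool.Agent.W_448kf_h15.KfI` -/

section

/-!
MP_448cb3_co, G2, case B, window `j`: the patterns [DL] of the rows of case B are in the frame `DLr`;
`F ≥ 0` for the closed ones.  helper15.
-/

namespace Pool.Agent.GaussPoset.EK

set_option linter.unusedSectionVars false

open Finset Win St Polynomial Wd Win.W4
open Pool.Agent.GaussPoset.Win.SO (PN vp)

universe u

variable {P : Type u} [Fintype P] [PartialOrder P] [DecidableEq P] {r i j : ℕ}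

variable {m : ℕ} {x : ℕ → P} {c : ℕ → ℤ} {β : ℤ} {t : Tops P}

variable {K : Finset P} {psi : P → P}

/-- common lower covers in a row of case B -/
lemma RowB.dcv_x (H : Gr P r) (B : RowB P j t m x c β) {k l : ℕ} (hkl : k < l) (hl : l ≤ m) :
    (dcv (x k) (x l) : ℤ) = if l = k + 1 then c k + 1 else if k = 0 ∧ l = m then β else 0 := by
  have h1 := B.row.df k l hkl hl
  have hne : x k ≠ x l := fun h => by
    have := B.row.inj k l (by omega) hl h
    omega
  rw [Df_pair H (B.row.lev_x k (by omega)) hne, B.ucv_x k l hkl hl] at h1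
  by_cases h2 : l = k + 1
  · rw [if_pos h2, if_pos h2] at h1
    rw [if_pos h2]
    push_cast at h1
    linarith
  · rw [if_neg h2, if_neg h2] at h1
    rw [if_neg h2]
    push_cast at h1
    linarith

/-- an unmatched lower double over a pair with a surplus -/
lemma Red.exL (R : Red P j K psi) {S : Finset P} (hS : Df j S = 1) :
    ∃ w, w ∈ K ∧ w ∈ dbL P j ∧ uc w = S := by
  have h1 := R.nL S
  rw [hS] at h1
  have h2 : 0 < (K ∩ CoreC_L j S).card := by
    have : max (1 : ℤ) 0 = 1 := by norm_num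
    omega
  obtain ⟨w, hw⟩ := card_pos.1 h2
  rw [mem_inter, mem_CoreC_L] at hw
  exact ⟨w, hw.1, hw.2.1, hw.2.2⟩

lemma Red.exU (R : Red P j K psi) {S : Finset P} (hS : Df j S = -1) :
    ∃ w, w ∈ K ∧ w ∈ dbU P j ∧ dc w = S := by
  have h1 := R.nU S
  rw [hS] at h1
  have h2 : 0 < (K ∩ CoreC_U j S).card := by
    have : max (-(-1) : ℤ) 0 = 1 := by norm_num
    omega
  obtain ⟨w, hw⟩ := card_pos.1 h2
  rw [mem_inter, mem_CoreC_U] at hw
  exact ⟨w, hw.1, hw.2.1, hw.2.2⟩

lemma Red.uniq (R : Red P j K psi) {S : Finset P} (hS : |Df j S| = 1) {y y' : P} (hy : y ∈ K)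
    (hy' : y' ∈ K) (e : ns j y = S) (e' : ns j y' = S) : y = y' := by
  have h1 := R.fib S
  rw [hS] at h1
  have h2 : (K.filter (fun x => ns j x = S)).card = 1 := by exact_mod_cast h1
  obtain ⟨w, hw⟩ := card_eq_one.1 h2
  have h3 : y ∈ K.filter (fun x => ns j x = S) := mem_filter.2 ⟨hy, e⟩
  have h4 : y' ∈ K.filter (fun x => ns j x = S) := mem_filter.2 ⟨hy', e'⟩
  rw [hw, mem_singleton] at h3 h4
  rw [h3, h4]

/-- the part of a row with exactly two unmatched doubles, a lower and an upper one -/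
theorem NJ.k5 (h : NJ P r j) (hj : 2 ≤ j) (R : Red P j K psi) (B : RowB P j t m x c β)
    {w v : P} {S S' : Finset P} (hS : Df j S = 1) (hS' : Df j S' = -1) (wK : w ∈ K) (vK : v ∈ K)
    (wd : w ∈ dbL P j) (vd : v ∈ dbU P j) (ew : uc w = S) (ev : dc v = S')
    {p q : ℕ} (hp : p ≤ m) (hq : q ≤ m) (hpS : x p ∈ S) (hqS : x q ∈ S')
    (hall : ∀ y ∈ K, topOf y = t → ns j y = S ∨ ns j y = S') :
    K5 r j K psi (cext (j + 1) (topOf : P → Tops P) t) w v := by
  classical
  have H := h.g.H
  have hC := part_cext H (le_refl (j + 1)) h.split t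
  have hxC : ∀ p, p ≤ m → x p ∈ cext (j + 1) (topOf : P → Tops P) t := fun p hp' =>
    mem_cext_of_le h.split (by rw [B.row.lev_x p hp']; omega) (B.row.kap p hp')
  have lw := (mem_dbL.1 wd).1
  have lv := (mem_dbU.1 vd).1
  refine ⟨H, by omega, h.hr, R.mat, hC, ?_, ?_, ?_, lw, lv, ?_, ?_⟩
  · intro y hy
    constructor
    · intro hyK
      have ht := kap_of_cext (R.sub hyK) hy
      rcases hall y hyK ht with e | e
      · exact Or.inl (R.uniq (by rw [hS, abs_one]) hyK wK e (by rw [ns_L wd, ew]))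
      · exact Or.inr (R.uniq (by rw [hS', abs_neg, abs_one]) hyK vK e (by rw [ns_U vd, ev]))
    · rintro (rfl | rfl) <;> assumption
  · exact hC.dn (hxC p hp) (by rw [B.row.lev_x p hp]; omega) (mem_uc.1 (by rw [ew]; exact hpS))
  · exact hC.up (hxC q hq) (mem_dc.1 (by rw [ev]; exact hqS))
  · intro z _ hz y hy y' hy' h2 h2'
    by_cases he : y = y'
    · subst he
      rw [inter_self]
      exact card_pos.1 (by omega)
    · obtain ⟨q, h3, h4⟩ := NJ.noQ h hj z hz y hy y' hy' he h2 h2'
      exact ⟨q, mem_inter.2 ⟨h3, h4⟩⟩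
  · intro z _ hz y hy y' hy' h2 h2'
    by_cases he : y = y'
    · subst he
      rw [inter_self]
      exact card_pos.1 (by omega)
    · have l1 := lev_dc H hy
      have l2 := lev_dc H hy'
      have g1 := h.g.good (j - 1) (by omega) y y' (by omega) (by omega) he
      have g2 := StA_ucv_pos (mem_dc.1 hy) (mem_dc.1 hy')
      rw [g1] at g2
      unfold dcv at g2
      obtain ⟨q, hq⟩ := card_pos.1 (show 0 < _ from g2)
      rw [mem_filter] at hq
      exact ⟨q, mem_inter.2 ⟨mem_dc.2 hq.2.1, mem_dc.2 hq.2.2⟩⟩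

/-- the pattern [DL] at the left end of a row of case B with `w3 = 0` -/
theorem NJ.dlr (h : NJ P r j) (hj : 2 ≤ j) (R : Red P j K psi) (B : RowB P j t m x c β)
    (hm : 3 ≤ m) (hβ : β = 0) (c0 : c 0 = 1) (c1 : c 1 = -1) (c2 : ∀ k, 2 ≤ k → k < m → c k = 0)
    (hw3 : I2.w3 (I2.bb j (j + 1) (topOf : P → Tops P) t)
      (I2.VV j (j + 1) (topOf : P → Tops P) t) = 0) :
    ∃ w v, DLr r j K psi (cext (j + 1) (topOf : P → Tops P) t) w v m x := by
  have H := h.g.H
  have W := NJ.prow h hj B (by omega)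
  have d0 : Df j {x 0, x 1} = 1 := by
    rw [B.row.df 0 1 (by omega) (by omega), if_pos rfl]
    exact c0
  have d1 : Df j {x 1, x 2} = -1 := by
    rw [B.row.df 1 2 (by omega) (by omega), if_pos rfl]
    exact c1
  obtain ⟨w, wK, wd, ew⟩ := R.exL d0
  obtain ⟨v, vK, vd, ev⟩ := R.exU d1
  have hall : ∀ y ∈ K, topOf y = t → ns j y = {x 0, x 1} ∨ ns j y = {x 1, x 2} := by
    intro y hyK ht
    obtain ⟨p, q, h3, h4, h5, h6⟩ := B.row.pair R H h.split hyK ht
    rcases h6 with ⟨h6, h7⟩ | ⟨-, -, -, h7⟩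
    · have hp2 : p = 0 ∨ p = 1 := by
        by_contra h8
        exact h7 (c2 p (by omega) (by omega))
      rcases hp2 with rfl | rfl
      · left; rw [h5, h6]
      · right; rw [h5, h6]
    · exact absurd hβ h7
  have Q : K5 r j K psi (cext (j + 1) (topOf : P → Tops P) t) w v :=
    NJ.k5 h hj R B d0 d1 wK vK wd vd ew ev (p := 0) (q := 1) (by omega) (by omega)
      (mem_insert_self _ _) (mem_insert_self _ _) hall
  refine ⟨w, v, W, Q, hm, ew, ev, ?_, ?_⟩
  · intro k l hkl hl
    have h1 := B.dcv_x H hkl hl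
    by_cases h2 : l = k + 1
    · rw [if_pos h2] at h1 ⊢
      by_cases h3 : k = 0
      · subst h3
        rw [c0] at h1
        rw [if_pos rfl]
        omega
      · rw [if_neg h3]
        by_cases h4 : k = 1
        · subst h4
          rw [c1] at h1
          rw [if_pos rfl]
          omega
        · rw [if_neg h4]
          rw [c2 k (by omega) (by omega)] at h1
          omega
    · rw [if_neg h2, hβ] at h1
      rw [if_neg h2]
      split_ifs at h1 <;> omega
  · have n01 : x 0 ≠ x 1 := W.ne (by omega) (by omega) (by omega)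
    have n12 : x 1 ≠ x 2 := W.ne (by omega) (by omega) (by omega)
    have n02 : x 0 ≠ x 2 := W.ne (by omega) (by omega) (by omega)
    have h1 := Q.be3_raw ew ev n01 n12 n02
    have h2 : I2.w3 (I2.bb j (j + 1) (topOf : P → Tops P) t)
        (I2.VV j (j + 1) (topOf : P → Tops P) t) =
        lc (st j (cext (j + 1) (topOf : P → Tops P) t)).card 2
          (ZC j (cext (j + 1) (topOf : P → Tops P) t) 3) := by
      unfold I2.w3 I2.bb I2.VV lc
      rw [coeff_ZS]
    rw [h2] at hw3
    rw [hw3] at h1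
    linarith

end Pool.Agent.GaussPoset.EK

end

/-! From `Pool.Agent.W_448kf_h15.KfJ` -/

section

/-!
MP_448cb3_co, G2, case B, window `j`: a row of case B in the coordinates of the strip; `F ≥ 0` for the
patterns [DL] with four sites.  helper15.
-/

namespace Pool.Agent.GaussPoset.EK

set_option linter.unusedSectionVars false

open Finset Win St Polynomial Wd Win.W4
open Pool.Agent.GaussPoset.Win.SO (PN vp)

universe u

variable {P : Type u} [Fintype P] [PartialOrder P] [DecidableEq P] {r i j : ℕ}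

variable {m : ℕ} {x : ℕ → P} {c : ℕ → ℤ} {β : ℤ} {t : Tops P}

variable {K : Finset P} {psi : P → P} {lo hi : ℕ → ℕ} {e : ℕ → ℕ → P}

/-- neighbours of a strip -/
lemma strip_near (h : NJ P r j) (hj : 2 ≤ j) (C : Cp.Comp j (t : P) lo hi e) {a b : ℕ}
    (ha : lo j ≤ a) (ha' : a ≤ hi j) (hb : lo j ≤ b) (hb' : b ≤ hi j)
    (hu : ucv (e j a) (e j b) ≠ 0) : a ≤ b + 1 ∧ b ≤ a + 1 := by
  classical
  obtain ⟨n, rfl⟩ : ∃ n, j = n + 1 := ⟨j - 1, by omega⟩
  unfold ucv at hu
  obtain ⟨y, hy⟩ := card_pos.1 (Nat.pos_of_ne_zero hu)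
  rw [mem_filter] at hy
  have hlv := C.lev_e (n + 1) a le_rfl ha ha'
  have hly := lev_cov h.g.H hy.2.1
  have hyt : y ≤ (t : P) := Cp.up_le h.g.H h.g.good t.2 (C.le_t (n + 1) a le_rfl ha ha')
    (by omega) hy.2.1.le
  obtain ⟨s, s1, s2, s3⟩ := C.surj y hyt (by omega)
  have hl : lev y = n := by omega
  rw [hl] at s1 s2 s3
  subst s3
  have c1 := (C.cov n a s (by omega) ha ha' s1 s2).1 hy.2.1
  have c2 := (C.cov n b s (by omega) hb hb' s1 s2).1 hy.2.2
  omega

/-- THE ROW IN COORDINATES: the row of the strip, or its reverse -/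
theorem RowB.orient (h : NJ P r j) (hj : 2 ≤ j) (B : RowB P j t m x c β)
    (C : Cp.Comp j (t : P) lo hi e) : hi j = lo j + m ∧
      ((∀ k, k ≤ m → x k = e j (lo j + k)) ∨ (∀ k, k ≤ m → x k = e j (hi j - k))) := by
  classical
  have hlohi := C.lo_le j le_rfl
  have htop : ∀ v : P, v ≤ (t : P) → lev v = j → topOf v = t := by
    intro v hv hl
    refine Subtype.ext ?_
    exact Hul.top_unique (h.nj (by omega)) (topOf v).2 t.2 (le_topOf v) hv
  have hex : ∀ k, ∃ s, k ≤ m → lo j ≤ s ∧ s ≤ hi j ∧ e j s = x k := by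
    intro k
    by_cases hk : k ≤ m
    · have hl := B.row.lev_x k hk
      have hle : x k ≤ (t : P) := by
        rw [← B.row.kap k hk]
        exact le_topOf (x k)
      obtain ⟨s, s1, s2, s3⟩ := C.surj (x k) hle (by omega)
      rw [hl] at s1 s2 s3
      exact ⟨s, fun _ => ⟨s1, s2, s3⟩⟩
    · exact ⟨0, fun h => absurd h hk⟩
  choose s hs using hex
  have hinj : ∀ k l, k ≤ m → l ≤ m → s k = s l → k = l := by
    intro k l hk hl hkl
    refine B.row.inj k l hk hl ?_
    rw [← (hs k hk).2.2, ← (hs l hl).2.2, hkl]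
  have hstep : ∀ k, k + 1 ≤ m → s (k + 1) = s k + 1 ∨ s k = s (k + 1) + 1 := by
    intro k hk
    have h1 := B.ucv_x k (k + 1) (by omega) hk
    rw [if_pos rfl, ← (hs k (by omega)).2.2, ← (hs (k + 1) hk).2.2] at h1
    have h2 := strip_near h hj C (hs k (by omega)).1 (hs k (by omega)).2.1 (hs (k + 1) hk).1
      (hs (k + 1) hk).2.1 (by omega)
    have h3 : s k ≠ s (k + 1) := fun h4 => by
      have := hinj _ _ (by omega) hk h4
      omega
    omega
  have hsurj : ∀ b, lo j ≤ b → b ≤ hi j → ∃ k, k ≤ m ∧ s k = b := by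
    intro b hb hb'
    have hl := C.lev_e j b le_rfl hb hb'
    obtain ⟨k, hk, hk2⟩ := B.row.surj (e j b) hl (htop _ (C.le_t j b le_rfl hb hb') hl)
    refine ⟨k, hk, ?_⟩
    have h1 := hs k hk
    exact C.inj j (s k) b le_rfl h1.1 h1.2.1 hb hb' (by rw [h1.2.2, hk2])
  rcases Nat.eq_zero_or_pos m with hm | hm
  · subst hm
    obtain ⟨k, hk, hk2⟩ := hsurj (lo j) le_rfl hlohi
    obtain ⟨l, hl, hl2⟩ := hsurj (hi j) hlohi le_rfl
    have hk0 : k = 0 := by omega
    have hl0 : l = 0 := by omega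
    subst hk0
    subst hl0
    refine ⟨by omega, Or.inl fun k hk => ?_⟩
    have hk0 : k = 0 := by omega
    subst hk0
    rw [← (hs 0 le_rfl).2.2, hk2, add_zero]
  rcases hstep 0 hm with h0 | h0
  · -- upwards
    have key : ∀ k, k + 1 ≤ m → s k = s 0 + k ∧ s (k + 1) = s 0 + (k + 1) := by
      intro k
      induction k with
      | zero => intro _; exact ⟨rfl, h0⟩
      | succ k ih =>
        intro hk
        obtain ⟨i1, i2⟩ := ih (by omega)
        refine ⟨i2, ?_⟩
        rcases hstep (k + 1) hk with h1 | h1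
        · omega
        · exfalso
          have : s k = s (k + 1 + 1) := by omega
          have := hinj _ _ (by omega) hk this
          omega
    have hall : ∀ k, k ≤ m → s k = s 0 + k := by
      intro k hk
      rcases Nat.eq_zero_or_pos k with rfl | hk0
      · rfl
      · have := (key (k - 1) (by omega)).2
        rw [show k - 1 + 1 = k by omega] at this
        exact this
    obtain ⟨k, hk, hk2⟩ := hsurj (lo j) le_rfl hlohi
    obtain ⟨l, hl, hl2⟩ := hsurj (hi j) hlohi le_rfl
    have a1 := hs 0 (by omega)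
    have a2 := hs m le_rfl
    have a3 := hall k hk
    have a4 := hall l hl
    have a5 := hall m le_rfl
    refine ⟨by omega, Or.inl fun q hq => ?_⟩
    rw [← (hs q hq).2.2, hall q hq, show s 0 = lo j by omega]
  · -- downwards
    have key : ∀ k, k + 1 ≤ m → s k + k = s 0 ∧ s (k + 1) + (k + 1) = s 0 := by
      intro k
      induction k with
      | zero => intro _; exact ⟨rfl, h0.symm⟩
      | succ k ih =>
        intro hk
        obtain ⟨i1, i2⟩ := ih (by omega)
        refine ⟨i2, ?_⟩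
        rcases hstep (k + 1) hk with h1 | h1
        · exfalso
          have : s k = s (k + 1 + 1) := by omega
          have := hinj _ _ (by omega) hk this
          omega
        · omega
    have hall : ∀ k, k ≤ m → s k + k = s 0 := by
      intro k hk
      rcases Nat.eq_zero_or_pos k with rfl | hk0
      · rfl
      · have := (key (k - 1) (by omega)).2
        rw [show k - 1 + 1 = k by omega] at this
        exact this
    obtain ⟨k, hk, hk2⟩ := hsurj (lo j) le_rfl hlohi
    obtain ⟨l, hl, hl2⟩ := hsurj (hi j) hlohi le_rfl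
    have a1 := hs 0 (by omega)
    have a2 := hs m le_rfl
    have a3 := hall k hk
    have a4 := hall l hl
    have a5 := hall m le_rfl
    refine ⟨by omega, Or.inr fun q hq => ?_⟩
    have a6 := hall q hq
    rw [← (hs q hq).2.2, show s q = hi j - q by omega]

/-- four sites, left end closed, an upper pendant over the right end double: no pendant below `x 2` -/
theorem NJ.pen_two_zero (h : NJ P r j) (hj : 2 ≤ j) (B : RowB P j t 3 x c β)
    (hcl : (uc (x 0)).card = 2) (hU : UE j (cext (j + 1) (topOf : P → Tops P) t) x 2 ≠ ∅) :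
    pen (x 2) = ∅ := by
  classical
  have H := h.g.H
  have W := NJ.prow h hj B (by omega)
  obtain ⟨lo, hi, e, C⟩ := Cp.comp_exists h.g.H t.2 h.g.hr h.g.good
  have hS := NJ.s5c h hj C
  obtain ⟨n, rfl⟩ : ∃ n, j = n + 2 := ⟨j - 2, by omega⟩
  rw [show n + 2 - 1 = n + 1 by omega] at hS
  obtain ⟨hlen, hor⟩ := B.orient h hj C
  have s1 := C.lo_step n (by omega)
  have s2 := C.lo_step (n + 1) (by omega)
  have s3 := C.hi_step n (by omega)
  have s4 := C.hi_step (n + 1) (by omega)
  have s5 := C.lo_le n (by omega)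
  have s6 := C.lo_le (n + 1) (by omega)
  rw [show n + 1 + 1 = n + 2 by omega] at s2 s4
  have cov' : ∀ s a, lo (n + 2) ≤ s → s ≤ hi (n + 2) → lo (n + 1) ≤ a → a ≤ hi (n + 1) →
      (e (n + 2) s ⋖ e (n + 1) a ↔ a = s ∨ a + 1 = s) := fun s a => C.cov (n + 1) s a (by omega)
  have dbl' : ∀ s, lo (n + 2) ≤ s → s ≤ hi (n + 2) →
      ((uc (e (n + 2) s)).card = 2 ↔ lo (n + 1) < s ∧ s ≤ hi (n + 1)) := fun s g1 g2 =>
    C.double_up H h.g.good t.2 (k := n + 1) (by omega) g1 g2
  -- the upper pendant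
  obtain ⟨z, hz⟩ := nonempty_iff_ne_empty.2 hU
  obtain ⟨hzC, hzP, hzs⟩ := mem_UE.1 hz
  obtain ⟨-, u, -, -, -, -, -, hu⟩ := PN_dat H (C := cext (n + 2 + 1) (topOf : P → Tops P) t)
    (SO.mem_PN.2 ⟨hzC, Or.inr hzP⟩)
  rcases hu with ⟨g1, -⟩ | ⟨-, hlz, hlu, hdz, hsu, -⟩
  · have := lev_PU hzP
    have := lev_PD g1
    omega
  have hux2 : x 2 ⋖ u := by
    rw [← mem_dc, ← hsu, hzs]
    exact (W.mem_ed (by omega) (by omega)).2 (Or.inl rfl)
  have hux3 : x 3 ⋖ u := by
    rw [← mem_dc, ← hsu, hzs]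
    exact (W.mem_ed (by omega) (by omega)).2 (Or.inr rfl)
  have huz : u ⋖ z := by rw [← mem_dc, hdz]; exact mem_singleton_self u
  have hx2t : x 2 ≤ (t : P) := by
    rw [← B.row.kap 2 (by omega)]
    exact le_topOf (x 2)
  have hut : u ≤ (t : P) := Cp.up_le H h.g.good t.2 hx2t
    (by have := B.row.lev_x 2 (by omega); omega) hux2.le
  have hzt : z ≤ (t : P) := Cp.up_le H h.g.good t.2 hut (by omega) huz.le
  obtain ⟨a, a1, a2, a3⟩ := C.surj u hut (by omega)
  obtain ⟨b, b1, b2, b3⟩ := C.surj z hzt (by omega)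
  have lu : lev u = n + 1 := by omega
  have lz : lev z = n := by omega
  rw [lu] at a1 a2 a3
  rw [lz] at b1 b2 b3
  subst a3
  subst b3
  have hzd := (C.single_down H (k := n) (by omega) b1 b2).1 (lev_PU hzP).2
  have hcz := (C.cov n a b (by omega) a1 a2 b1 b2).1 huz
  rcases hor with hor | hor
  · -- the row of the strip
    have h0 := hor 0 (by omega)
    have h2 := hor 2 (by omega)
    have h3 := hor 3 (by omega)
    rw [h0, dbl' _ (by omega) (by omega)] at hcl
    rw [h2] at hux2
    rw [h3] at hux3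
    have c2 := (cov' _ a (by omega) (by omega) a1 a2).1 hux2
    have c3 := (cov' _ a (by omega) (by omega) a1 a2).1 hux3
    rcases hS with ⟨-, -, hS⟩ | ⟨⟨q1, q2, q3, q4⟩, -, b', hb', hS⟩ | ⟨⟨q1, q2, q3, q4⟩, -⟩
    · have := hS (lo (n + 2) + 2) (by omega) (by omega)
      rw [h2]
      exact card_eq_zero.1 this
    · have := hS (lo (n + 2) + 2) (by omega) (by omega)
      rw [if_neg (by omega)] at this
      rw [h2]
      exact card_eq_zero.1 this
    · exfalso
      rw [show n + 1 - 1 = n by omega] at q3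
      omega
  · -- the reversed row
    have h0 := hor 0 (by omega)
    have h2 := hor 2 (by omega)
    have h3 := hor 3 (by omega)
    rw [h0, dbl' _ (by omega) (by omega)] at hcl
    rw [h2] at hux2
    rw [h3] at hux3
    have c2 := (cov' _ a (by omega) (by omega) a1 a2).1 hux2
    have c3 := (cov' _ a (by omega) (by omega) a1 a2).1 hux3
    rcases hS with ⟨-, -, hS⟩ | ⟨⟨q1, q2, q3, q4⟩, -⟩ | ⟨⟨q1, q2, q3, q4⟩, -, b', hb', hS⟩
    · have := hS (hi (n + 2) - 2) (by omega) (by omega)
      rw [h2]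
      exact card_eq_zero.1 this
    · exfalso
      rw [show n + 1 - 1 = n by omega] at q3
      omega
    · have := hS (hi (n + 2) - 2) (by omega) (by omega)
      rw [if_neg (by omega)] at this
      rw [h2]
      exact card_eq_zero.1 this

end Pool.Agent.GaussPoset.EK

end

/-! From `Pool.Agent.W_448kf_h15.KfM` -/

section

/-!
MP_448cb3_co, G2, case B, window `j`: the pattern R with four sites, `F ≥ 0`.  helper15.
-/

namespace Pool.Agent.GaussPoset.EK

set_option linter.unusedSectionVars false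

open Finset Win St Polynomial Wd Win.W4
open Pool.Agent.GaussPoset.Win.SO (PN vp)

universe u

variable {P : Type u} [Fintype P] [PartialOrder P] [DecidableEq P] {r i j : ℕ}

variable {m : ℕ} {x : ℕ → P} {c : ℕ → ℤ} {β : ℤ} {t : Tops P}

variable {K : Finset P} {psi : P → P} {lo hi : ℕ → ℕ} {e : ℕ → ℕ → P}

/-- a row depends only on its elements -/
theorem RowB.congr (B : RowB P j t m x c β) {x' : ℕ → P} (hx : ∀ k, k ≤ m → x' k = x k) :
    RowB P j t m x' c β where
  row :=
    { lev_x := fun k hk => by rw [hx k hk]; exact B.row.lev_x k hk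
      inj := fun k l hk hl h => by
        rw [hx k hk, hx l hl] at h
        exact B.row.inj k l hk hl h
      kap := fun k hk => by rw [hx k hk]; exact B.row.kap k hk
      surj := fun v h1 h2 => by
        obtain ⟨k, hk, hk2⟩ := B.row.surj v h1 h2
        exact ⟨k, hk, by rw [hx k hk]; exact hk2⟩
      df := fun k l hkl hl => by
        rw [hx k (by omega), hx l hl]
        exact B.row.df k l hkl hl }
  pat := B.pat
  ends := fun h => by
    rw [hx 0 (by omega), hx m le_rfl]
    exact B.ends h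
  lost := fun a h1 h2 h3 h4 => by
    rw [hx a (by omega)]
    exact B.lost a h1 h2 h3 h4
  pen0 := fun a h1 h2 => by
    rw [hx a (by omega)]
    exact B.pen0 a h1 h2
  len := B.len
  ucv_x := fun a b h1 h2 => by
    rw [hx a (by omega), hx b h2]
    exact B.ucv_x a b h1 h2
  pu := fun a h1 h2 u hu1 hu2 z hz => by
    rw [hx a (by omega)] at hu1
    rw [hx (a + 1) (by omega)] at hu2
    exact B.pu a h1 h2 u hu1 hu2 z hz

/-- the pattern R with four sites and `w3 = 0` in the frame `Rr` -/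
theorem NJ.rr (h : NJ P r j) (hj : 2 ≤ j) (R : Red P j K psi) (B : RowB P j t 3 x c β)
    (hβ : β = 1) (c0 : c 0 = -1) (c1 : c 1 = 0) (c2 : c 2 = 0)
    (hw3 : I2.w3 (I2.bb j (j + 1) (topOf : P → Tops P) t)
      (I2.VV j (j + 1) (topOf : P → Tops P) t) = 0) (hx : x 4 = x 0) :
    ∃ w v, Rr r j K psi (cext (j + 1) (topOf : P → Tops P) t) w v x := by
  have H := h.g.H
  have W := NJ.prow h hj B (by omega)
  have d0 : Df j {x 3, x 0} = 1 := by
    rw [pair_comm, B.row.df 0 3 (by omega) (by omega), if_neg (by omega), if_pos ⟨rfl, rfl⟩]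
    exact hβ
  have d1 : Df j {x 0, x 1} = -1 := by
    rw [B.row.df 0 1 (by omega) (by omega), if_pos rfl]
    exact c0
  obtain ⟨w, wK, wd, ew⟩ := R.exL d0
  obtain ⟨v, vK, vd, ev⟩ := R.exU d1
  have hall : ∀ y ∈ K, topOf y = t → ns j y = {x 3, x 0} ∨ ns j y = {x 0, x 1} := by
    intro y hyK ht
    obtain ⟨p, q, h3, h4, h5, h6⟩ := B.row.pair R H h.split hyK ht
    rcases h6 with ⟨h6, h7⟩ | ⟨h6, h8, -, -⟩
    · have hp : p = 0 := by
        have hp3 : p = 0 ∨ p = 1 ∨ p = 2 := by omega
        rcases hp3 with rfl | rfl | rfl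
        · rfl
        · exact absurd c1 h7
        · exact absurd c2 h7
      subst hp
      right; rw [h5, h6]
    · subst h6
      subst h8
      left; rw [h5, pair_comm]
  have Q : K5 r j K psi (cext (j + 1) (topOf : P → Tops P) t) w v :=
    NJ.k5 h hj R B d0 d1 wK vK wd vd ew ev (p := 3) (q := 0) (by omega) (by omega)
      (mem_insert_self _ _) (mem_insert_self _ _) hall
  have hends := B.ends (by rw [hβ]; norm_num)
  refine ⟨w, v, W, Q, hx, ew, ev, ?_, hends.1, hends.2, ?_⟩
  · intro k l hkl hl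
    have h1 := B.dcv_x H hkl hl
    by_cases h2 : l = k + 1
    · rw [if_pos h2] at h1 ⊢
      have hk3 : k = 0 ∨ k = 1 ∨ k = 2 := by omega
      rcases hk3 with rfl | rfl | rfl
      · rw [c0] at h1
        rw [if_pos rfl]
        omega
      · rw [c1] at h1
        rw [if_neg (by omega)]
        omega
      · rw [c2] at h1
        rw [if_neg (by omega)]
        omega
    · rw [if_neg h2, hβ] at h1
      rw [if_neg h2]
      split_ifs at h1 ⊢ <;> omega
  · have n30 : x 3 ≠ x 0 := W.ne (by omega) (by omega) (by omega)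
    have n01 : x 0 ≠ x 1 := W.ne (by omega) (by omega) (by omega)
    have n31 : x 3 ≠ x 1 := W.ne (by omega) (by omega) (by omega)
    have h1 := Q.be3_raw ew ev n30 n01 n31
    have h2 : I2.w3 (I2.bb j (j + 1) (topOf : P → Tops P) t)
        (I2.VV j (j + 1) (topOf : P → Tops P) t) =
        lc (st j (cext (j + 1) (topOf : P → Tops P) t)).card 2
          (ZC j (cext (j + 1) (topOf : P → Tops P) t) 3) := by
      unfold I2.w3 I2.bb I2.VV lc
      rw [coeff_ZS]
    rw [h2] at hw3
    rw [hw3] at h1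
    linarith

/-- the wide words: no letters `C O` on the left before ... with `C O` on the right, levels
`n - 1, n, n + 1, n + 2` -/
lemma wide_no {n : ℕ} (C : Cp.Comp (n + 2) (t : P) lo hi e) (S : Shape (n + 2) lo hi)
    (hw : hi (n + 2) = lo (n + 2) + 3) :
    ¬ (LCO lo hi (n + 1) ∧ hi (n + 1) = hi n ∧ hi (n + 2) = hi (n + 1) + 1) ∧
    ¬ (RCO lo hi (n + 1) ∧ lo (n + 1) = lo n + 1 ∧ lo (n + 2) = lo (n + 1) ∧
      hi (n + 2) = hi (n + 1) + 1) := by
  have hl : ∀ k, k < n + 2 → lo k ≤ lo (k + 1) ∧ lo (k + 1) ≤ lo k + 1 := by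
    intro k hk
    have := C.lo_step k hk
    omega
  have hh : ∀ k, k < n + 2 → hi k ≤ hi (k + 1) ∧ hi (k + 1) ≤ hi k + 1 := by
    intro k hk
    have := C.hi_step k hk
    omega
  unfold LCO RCO
  rw [show n + 1 - 1 = n by omega, show n + 1 - 2 = n - 1 by omega]
  rcases S with h | ⟨h1, h2⟩ | ⟨h1, h2⟩ | ⟨h1, h2, h3⟩ | ⟨h1, h2⟩ | ⟨a, h0, h1, h2, h3, hN, h4⟩
  · have := h (n + 2) le_rfl
    omega
  · constructor
    · rintro ⟨⟨g1, g2, g3, g4⟩, g5, g6⟩
      have e1 := h2.hi (n + 1) (by omega)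
      have e2 := C.hi_le (k := n) (by omega)
      rw [show n + 1 + 1 = n + 2 by omega] at e1
      omega
    · rintro ⟨⟨g1, g2, g3, g4⟩, g5, g6, g7⟩
      have e1 := h2.lo (n + 1) (by omega)
      rw [show n + 1 + 1 = n + 2 by omega] at e1
      omega
  · constructor
    · rintro ⟨⟨g1, g2, g3, g4⟩, g5, g6⟩
      have e1 := h2.lo n (by omega)
      omega
    · rintro ⟨⟨g1, g2, g3, g4⟩, g5, g6, g7⟩
      have e1 := h2.lo (n + 1) (by omega)
      rw [show n + 1 + 1 = n + 2 by omega] at e1
      omega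
  · have h5 : n + 2 = 3 := h1
    rw [h5] at hw
    omega
  · have h5 : n + 2 = 6 := h1
    rw [h5] at hw
    unfold F1 at h2
    omega
  · obtain ⟨d, hd⟩ : ∃ d, n + 2 = a + d := ⟨n + 2 - a, by omega⟩
    rw [show n + 2 - a = d by omega] at h4
    have key := late_wide h3 (fun k hk => hl k (by omega)) (fun k hk => hh k (by omega)) h4
      (by rw [← hd]; omega)
    rcases key with key | key | key | key | key <;> obtain ⟨hlen, hsp⟩ := word_spec key <;>
      simp only [List.length_cons, List.length_nil] at hlen <;> subst hlen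
    · obtain ⟨q1, q2⟩ := hsp 1 (by omega)
      simp only [List.getElem?_cons_succ, List.getElem?_cons_zero, OO, Option.map_some,
        Option.some.injEq] at q1 q2
      have q1' : ¬ lo (a + 1 + 1) ≠ lo (a + 1) := of_decide_eq_false q1.symm
      have q2' : hi (a + 1 + 1) ≠ hi (a + 1) := of_decide_eq_true q2.symm
      rw [show a + 1 + 1 = n + 1 by omega, show a + 1 = n by omega] at q1' q2'
      omega
    · obtain ⟨q1, q2⟩ := hsp 2 (by omega)
      obtain ⟨-, q3⟩ := hsp 1 (by omega)
      simp only [List.getElem?_cons_succ, List.getElem?_cons_zero, OO, CO, Option.map_some,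
        Option.some.injEq] at q1 q2 q3
      have q2' : hi (a + 2 + 1) ≠ hi (a + 2) := of_decide_eq_true q2.symm
      have q3' : hi (a + 1 + 1) ≠ hi (a + 1) := of_decide_eq_true q3.symm
      rw [show a + 2 + 1 = n + 1 by omega, show a + 2 = n by omega] at q2'
      rw [show a + 1 + 1 = n by omega, show a + 1 = n - 1 by omega] at q3'
      omega
    · obtain ⟨q1, q2⟩ := hsp 4 (by omega)
      obtain ⟨-, q3⟩ := hsp 3 (by omega)
      simp only [List.getElem?_cons_succ, List.getElem?_cons_zero, OO, CO, Option.map_some,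
        Option.some.injEq] at q1 q2 q3
      have q2' : hi (a + 4 + 1) ≠ hi (a + 4) := of_decide_eq_true q2.symm
      have q3' : hi (a + 3 + 1) ≠ hi (a + 3) := of_decide_eq_true q3.symm
      rw [show a + 4 + 1 = n + 1 by omega, show a + 4 = n by omega] at q2'
      rw [show a + 3 + 1 = n by omega, show a + 3 = n - 1 by omega] at q3'
      omega
    · obtain ⟨-, q2⟩ := hsp 6 (by omega)
      simp only [List.getElem?_cons_succ, List.getElem?_cons_zero, OC, Option.map_some,
        Option.some.injEq] at q2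
      have q2' : ¬ hi (a + 6 + 1) ≠ hi (a + 6) := of_decide_eq_false q2.symm
      rw [show a + 6 + 1 = n + 2 by omega, show a + 6 = n + 1 by omega] at q2'
      omega
    · obtain ⟨q1, q2⟩ := hsp 5 (by omega)
      simp only [List.getElem?_cons_succ, List.getElem?_cons_zero, OO, Option.map_some,
        Option.some.injEq] at q1 q2
      have q1' : ¬ lo (a + 5 + 1) ≠ lo (a + 5) := of_decide_eq_false q1.symm
      have q2' : hi (a + 5 + 1) ≠ hi (a + 5) := of_decide_eq_true q2.symm
      rw [show a + 5 + 1 = n + 1 by omega, show a + 5 = n by omega] at q1' q2'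
      omega

/-- four sites, both ends open, an upper pendant over the right end double: no pendant below `x 1` -/
theorem NJ.pen_one_zero (h : NJ P r j) (hj : 2 ≤ j) (B : RowB P j t 3 x c β) (hβ : β ≠ 0)
    (C : Cp.Comp j (t : P) lo hi e) (S : Shape j lo hi)
    (hU : UE j (cext (j + 1) (topOf : P → Tops P) t) x 2 ≠ ∅) : pen (x 1) = ∅ := by
  classical
  have H := h.g.H
  have W := NJ.prow h hj B (by omega)
  have hS := NJ.s5c h hj C
  obtain ⟨w0, w3⟩ := B.ends hβ
  obtain ⟨n, rfl⟩ : ∃ n, j = n + 2 := ⟨j - 2, by omega⟩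
  rw [show n + 2 - 1 = n + 1 by omega] at hS
  obtain ⟨hlen, hor⟩ := B.orient h hj C
  obtain ⟨no1, no2⟩ := wide_no C S hlen
  have s1 := C.lo_step n (by omega)
  have s2 := C.lo_step (n + 1) (by omega)
  have s3 := C.hi_step n (by omega)
  have s4 := C.hi_step (n + 1) (by omega)
  have s5 := C.lo_le n (by omega)
  have s6 := C.lo_le (n + 1) (by omega)
  rw [show n + 1 + 1 = n + 2 by omega] at s2 s4
  have cov' : ∀ s a, lo (n + 2) ≤ s → s ≤ hi (n + 2) → lo (n + 1) ≤ a → a ≤ hi (n + 1) →
      (e (n + 2) s ⋖ e (n + 1) a ↔ a = s ∨ a + 1 = s) := fun s a => C.cov (n + 1) s a (by omega)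
  have dbl' : ∀ s, lo (n + 2) ≤ s → s ≤ hi (n + 2) →
      ((uc (e (n + 2) s)).card = 2 ↔ lo (n + 1) < s ∧ s ≤ hi (n + 1)) := fun s g1 g2 =>
    C.double_up H h.g.good t.2 (k := n + 1) (by omega) g1 g2
  -- the upper pendant
  obtain ⟨z, hz⟩ := nonempty_iff_ne_empty.2 hU
  obtain ⟨hzC, hzP, hzs⟩ := mem_UE.1 hz
  obtain ⟨-, u, -, -, -, -, -, hu⟩ := PN_dat H (C := cext (n + 2 + 1) (topOf : P → Tops P) t)
    (SO.mem_PN.2 ⟨hzC, Or.inr hzP⟩)
  rcases hu with ⟨g1, -⟩ | ⟨-, hlz, hlu, hdz, hsu, -⟩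
  · have := lev_PU hzP
    have := lev_PD g1
    omega
  have hux2 : x 2 ⋖ u := by
    rw [← mem_dc, ← hsu, hzs]
    exact (W.mem_ed (by omega) (by omega)).2 (Or.inl rfl)
  have hux3 : x 3 ⋖ u := by
    rw [← mem_dc, ← hsu, hzs]
    exact (W.mem_ed (by omega) (by omega)).2 (Or.inr rfl)
  have huz : u ⋖ z := by rw [← mem_dc, hdz]; exact mem_singleton_self u
  have hx2t : x 2 ≤ (t : P) := by
    rw [← B.row.kap 2 (by omega)]
    exact le_topOf (x 2)
  have hut : u ≤ (t : P) := Cp.up_le H h.g.good t.2 hx2t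
    (by have := B.row.lev_x 2 (by omega); omega) hux2.le
  have hzt : z ≤ (t : P) := Cp.up_le H h.g.good t.2 hut (by omega) huz.le
  obtain ⟨a, a1, a2, a3⟩ := C.surj u hut (by omega)
  obtain ⟨b, b1, b2, b3⟩ := C.surj z hzt (by omega)
  have lu : lev u = n + 1 := by omega
  have lz : lev z = n := by omega
  rw [lu] at a1 a2 a3
  rw [lz] at b1 b2 b3
  subst a3
  subst b3
  have hzd := (C.single_down H (k := n) (by omega) b1 b2).1 (lev_PU hzP).2
  have hcz := (C.cov n a b (by omega) a1 a2 b1 b2).1 huz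
  rcases hor with hor | hor
  · -- the row of the strip
    have h0 := hor 0 (by omega)
    have h1 := hor 1 (by omega)
    have h2 := hor 2 (by omega)
    have h3 := hor 3 (by omega)
    have v0 := dbl' (lo (n + 2) + 0) (by omega) (by omega)
    have v3 := dbl' (lo (n + 2) + 3) (by omega) (by omega)
    rw [← h0, w0] at v0
    rw [← h3, w3] at v3
    rw [h2] at hux2
    rw [h3] at hux3
    have c2 := (cov' _ a (by omega) (by omega) a1 a2).1 hux2
    have c3 := (cov' _ a (by omega) (by omega) a1 a2).1 hux3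
    rcases hS with ⟨-, -, hS⟩ | ⟨q, -, b', hb', hS⟩ | ⟨⟨q1, q2, q3, q4⟩, -⟩
    · have := hS (lo (n + 2) + 1) (by omega) (by omega)
      rw [h1]
      exact card_eq_zero.1 this
    · exact absurd ⟨q, by omega, by omega⟩ no1
    · exfalso
      rw [show n + 1 - 1 = n by omega] at q3
      omega
  · -- the reversed row
    have h0 := hor 0 (by omega)
    have h1 := hor 1 (by omega)
    have h2 := hor 2 (by omega)
    have h3 := hor 3 (by omega)
    have v0 := dbl' (hi (n + 2) - 0) (by omega) (by omega)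
    have v3 := dbl' (hi (n + 2) - 3) (by omega) (by omega)
    rw [← h0, w0] at v0
    rw [← h3, w3] at v3
    rw [h2] at hux2
    rw [h3] at hux3
    have c2 := (cov' _ a (by omega) (by omega) a1 a2).1 hux2
    have c3 := (cov' _ a (by omega) (by omega) a1 a2).1 hux3
    rcases hS with ⟨-, -, hS⟩ | ⟨⟨q1, q2, q3, q4⟩, -⟩ | ⟨q, -, b', hb', hS⟩
    · have := hS (hi (n + 2) - 1) (by omega) (by omega)
      rw [h1]
      exact card_eq_zero.1 this
    · exfalso
      rw [show n + 1 - 1 = n by omega] at q3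
      omega
    · exact absurd ⟨q, by omega, by omega, by omega⟩ no2

end Pool.Agent.GaussPoset.EK

end

/-! From `Pool.Agent.W_448fg_h53.FgA` -/

section

/-!
MP_448cb3_co, G2, case B, window `j - 1`: the values (3,1), (5,2), (6,2) of a part without pendants
around the window (piece (g), fold rows).  helper53.
-/

namespace Pool.Agent.GaussPoset.Win

set_option linter.unusedSectionVars false

open Finset
open Pool.Agent.GaussPoset.Wd (NJ SS)

universe u

variable {P : Type u} [Fintype P] [PartialOrder P] [DecidableEq P] {r i j : ℕ} {t : P}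
  {lo hi : ℕ → ℕ} {x : ℕ → ℕ → P} {S : Finset P} {psi : P → P}

/-- no upper pendant: no pendants and no chains at all -/
lemma Cm5.no_pend (K : Cm5 P r i t lo hi x S) (hU : PUt i t = ∅) :
    (∀ p ∈ PD P i, p ∈ S → False) ∧ (∀ p ∈ PU P i, p ∈ S → False) ∧ FL i S = ∅ ∧ FU' i S = ∅ ∧
      SO.N5f i S = ∅ := by
  obtain ⟨hc1, hc2⟩ := indiv_21 K.g i le_rfl t K.ht
  have hD : PDt i t = ∅ := by
    rw [hU, card_empty] at hc2
    exact card_eq_zero.1 hc2
  have h1 : ∀ p ∈ PD P i, p ∈ S → False := by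
    intro p hp hpS
    have hl := lev_PD hp
    have : p ∈ PDt i t := mem_PDt.2 ⟨hp, (K.hS p (by omega)).1 hpS⟩
    rw [hD] at this
    exact absurd this (notMem_empty p)
  have h2 : ∀ p ∈ PU P i, p ∈ S → False := by
    intro p hp hpS
    have hl := lev_PU hp
    have : p ∈ PUt i t := mem_PUt.2 ⟨hp, (K.hS p (by omega)).1 hpS⟩
    rw [hU] at this
    exact absurd this (notMem_empty p)
  refine ⟨h1, h2, ?_, ?_, ?_⟩
  · rw [eq_empty_iff_forall_notMem]
    intro w hw
    obtain ⟨hwS, z, hz, hu⟩ := mem_FL.1 hw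
    have hzw : w ⋖ z := by
      rw [← mem_uc, hu]
      exact mem_singleton_self z
    exact h1 z hz (K.part.up hwS hzw)
  · rw [eq_empty_iff_forall_notMem]
    intro w hw
    obtain ⟨hwS, z, hz, hu⟩ := mem_FU'.1 hw
    have hl := lev_FU K.g.H hw
    have hzw : z ⋖ w := by
      rw [← mem_dc, hu]
      exact mem_singleton_self z
    exact h2 z hz (K.part.dn hwS (by omega) hzw)
  · rw [eq_empty_iff_forall_notMem]
    intro z hz
    obtain ⟨hzS, hz1 | hz1⟩ := SO.mem_N5f.1 hz
    · obtain ⟨hl, p, w, hp, hw, hu, -⟩ := hz1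
      have hzp : z ⋖ p := by
        rw [← mem_uc, hu]
        exact mem_insert_self _ _
      exact h1 p hp (K.part.up hzS hzp)
    · obtain ⟨hl, p, w, hp, hw, hu, -⟩ := hz1
      have hzp : p ⋖ z := by
        rw [← mem_dc, hu]
        exact mem_insert_self _ _
      exact h2 p hp (K.part.dn hzS (by omega) hzp)

/-- the sum of the charges: the sum over the triples -/
lemma Cm6.al3_eq (K : Cm6 P r i t lo hi x S) (no : ∀ z : P, lev z = i + 2 → ¬ Hul.Jn z)
    (hM : Mat P i ∅ psi) (hU : PUt i t = ∅) :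
    I2.al 3 (st i S).card (ZS i S) =
      ∑ a ∈ Ioo (lo i) (hi i), (1 - (dcv (x (i + 1) a) (x (i + 1) (a + 1)) : ℤ)) := by
  classical
  obtain ⟨-, -, h3, h4, -⟩ := K.toCm5.no_pend hU
  have K' := K.cmp no
  have h5 := sum_chg (S := S) K.g.H (i := i) (fun _ => True)
  simp only [filter_true] at h5
  rw [so_al3 (K.ps6 hM), ← h5]
  have hf : ∀ z ∈ Chs i S, sit i z ∈ Trs x lo hi i := by
    intro z hz
    unfold Chs at hz
    rw [h3, h4, union_empty, union_empty] at hz
    unfold Trs
    rw [mem_image]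
    rcases mem_union.1 hz with hz | hz
    · obtain ⟨a, a1, a2, a3, -⟩ := ZL_spec K.C K.g K.i1 K.ht K.hS no hz
      exact ⟨a, mem_Ioo.2 ⟨a1, a2⟩, a3.symm⟩
    · obtain ⟨a, a1, a2, a3, -⟩ := ZU_spec K.C K.g K.ht K.hS hz
      exact ⟨a, mem_Ioo.2 ⟨a1, a2⟩, a3.symm⟩
  rw [← sum_fiberwise_of_maps_to hf]
  show ∑ k ∈ Trs x lo hi i, phc i S k = _
  unfold Trs
  rw [sum_image]
  · refine sum_congr rfl fun a ha => ?_
    rw [mem_Ioo] at ha
    exact K'.phc_Tr ha.1 ha.2
  · intro a ha b hb hab
    rw [mem_coe, mem_Ioo] at ha hb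
    exact Tr_inj K.C (by omega) ha.1 ha.2 hb.1 hb.2 hab

/-- the quadratic form of the charges -/
lemma Cm6.QQ_form (K : Cm6 P r i t lo hi x S) (no : ∀ z : P, lev z = i + 2 → ¬ Hul.Jn z)
    (hU : PUt i t = ∅) :
    QQ i S = So.qf (Trs x lo hi i) (fun k l => ¬ Disjoint k l) (phc i S) := by
  obtain ⟨-, -, h3, h4, -⟩ := K.toCm5.no_pend hU
  obtain ⟨N, -, -, h5⟩ := (K.cmp no).QQ_eq
  rw [h5, h3, h4, card_empty]
  simp

/-- one lost pair, all the other pairs natural -/
lemma Cm6.QQ_one (K : Cm6 P r i t lo hi x S) (no : ∀ z : P, lev z = i + 2 → ¬ Hul.Jn z)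
    (hU : PUt i t = ∅) {b : ℕ} (hb : lo i < b) (hb' : b < hi i)
    (h : ∀ a, lo i < a → a < hi i → dcv (x (i + 1) a) (x (i + 1) (a + 1)) = if a = b then 0 else 1) :
    QQ i S = 1 := by
  classical
  rw [K.QQ_form no hU]
  have hph : ∀ a, lo i < a → a < hi i → phc i S (Tr x i a) = if a = b then 1 else 0 := by
    intro a ha ha'
    rw [(K.cmp no).phc_Tr ha ha', h a ha ha']
    split_ifs <;> norm_num
  have hT : Tr x i b ∈ Trs x lo hi i := mem_image_of_mem _ (mem_Ioo.2 ⟨hb, hb'⟩)
  have hz : ∀ k ∈ Trs x lo hi i, k ≠ Tr x i b → phc i S k = 0 := by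
    intro k hk hne
    obtain ⟨a, ha, rfl⟩ := mem_image.1 hk
    rw [mem_Ioo] at ha
    rw [hph a ha.1 ha.2, if_neg]
    rintro rfl
    exact hne rfl
  unfold So.qf
  rw [sum_eq_single (Tr x i b), sum_eq_single (Tr x i b)]
  · rw [if_pos ((K.cmp no).refl _ hT), hph b hb hb', if_pos rfl]
    norm_num
  · intro l hl hne
    rw [hz l hl hne]
    simp
  · intro hn
    exact absurd hT hn
  · intro k hk hne
    refine sum_eq_zero fun l hl => ?_
    rw [hz k hk hne]
    simp
  · intro hn
    exact absurd hT hn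

/-- (5,2) vanishes -/
lemma PS6_be5 (Q : SO.PS6 r i psi S) (hb : 1 ≤ (st i S).card) :
    I2.be 5 (st i S).card (ZS i S) = 0 := by
  unfold I2.be
  rw [coeff_ZS]
  obtain ⟨q, hq⟩ := Q.le_five (n := 5) le_rfl
  rw [hq, ← mul_assoc, ← pow_add, show 2 + ((st i S).card - 1) = (st i S).card + 1 by omega]
  unfold dd
  rw [PowerSeries.coeff_X_pow_mul', if_neg (by omega)]

end Pool.Agent.GaussPoset.Win

end

/-! From `Pool.Agent.W_448fg_h53.FgB` -/

section

/-!
MP_448cb3_co, G2, case B, window `j - 1`: the values (3,1), (5,2), (6,2) of a row with the pattern [DL]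
at a fold end (piece (g), fold rows).  Here `j = i + 1`.  helper53.
-/

namespace Pool.Agent.GaussPoset.EK

set_option linter.unusedSectionVars false

open Finset Win St Polynomial Wd Win.W4
open Pool.Agent.GaussPoset.Win.SO (PN vp mem_PN)

universe u

variable {P : Type u} [Fintype P] [PartialOrder P] [DecidableEq P] {r i : ℕ}

variable {m : ℕ} {x : ℕ → P} {c : ℕ → ℤ} {t : Tops P} {lo hi : ℕ → ℕ} {e : ℕ → ℕ → P}

/-- the pattern [DL] at a fold end, level `i + 1` -/
structure FoldDL (P : Type u) [Fintype P] [PartialOrder P] [DecidableEq P] (r i : ℕ) (t : Tops P)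
    (m : ℕ) (x : ℕ → P) (c : ℕ → ℤ) (lo hi : ℕ → ℕ) (e : ℕ → ℕ → P) : Prop where
  h : NJ P r (i + 1)
  hi1 : 1 ≤ i
  B : RowB P (i + 1) t m x c 0
  C : Cp.Comp (i + 1) (t : P) lo hi e
  S : StairShape (i + 1) lo hi
  ev : (i + 1) % 2 = 0
  hm : 3 ≤ m
  hx : x 0 = e (i + 1) ((i + 1) / 2)
  c0 : c 0 = 1
  c1 : c 1 = -1
  c2 : ∀ k, 2 ≤ k → k < m → c k = 0

namespace FoldDL

variable (F : FoldDL P r i t m x c lo hi e)
include F

/-- coordinates -/
lemma coord : hi i + 1 = hi (i + 1) ∧ hi (i + 1) = lo (i + 1) + m ∧ lo i ≤ lo (i + 1) ∧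
    lo (i + 1) ≤ lo i + 1 ∧ ∀ k, k ≤ m → x k = e (i + 1) (hi (i + 1) - k) := by
  have hj : 2 ≤ i + 1 := by have := F.hi1; omega
  have h1 := F.S.hi (i + 1) le_rfl
  have h2 := F.S.hi i (by omega)
  have h3 := F.C.lo_step i (by omega)
  have hev := F.ev
  have hm := F.hm
  obtain ⟨h4, h5⟩ := F.B.orient F.h hj F.C
  refine ⟨by omega, h4, by omega, by omega, ?_⟩
  rcases h5 with h5 | h5
  · exfalso
    have h6 := h5 0 (by omega)
    rw [F.hx, ← h1] at h6
    have := F.C.inj (i + 1) _ _ le_rfl (by omega) le_rfl (by omega) (by omega) h6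
    omega
  · exact h5

/-- the numbers of the common lower covers of the doubles -/
lemma dcv_e {a : ℕ} (ha : lo i < a) (ha' : a < hi i) :
    dcv (e (i + 1) a) (e (i + 1) (a + 1)) = if a = hi i - 1 then 0 else 1 := by
  obtain ⟨h1, h2, h3, h4, h5⟩ := F.coord
  have e1 : e (i + 1) a = x (hi i - a + 1) := by
    rw [h5 _ (by omega)]
    congr 1
    omega
  have e2 : e (i + 1) (a + 1) = x (hi i - a) := by
    rw [h5 _ (by omega)]
    congr 1
    omega
  rw [e1, e2, kf_dcv_comm]
  have h6 := F.B.dcv_x F.h.g.H (k := hi i - a) (l := hi i - a + 1) (by omega) (by omega)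
  rw [if_pos rfl] at h6
  by_cases h7 : a = hi i - 1
  · rw [if_pos h7]
    rw [show hi i - a = 1 by omega] at h6 ⊢
    rw [F.c1] at h6
    norm_num at h6
    exact h6
  · rw [if_neg h7]
    rw [F.c2 _ (by omega) (by omega)] at h6
    norm_num at h6
    exact h6

/-- no pendants around the window -/
lemma noPU : PUt i (t : P) = ∅ := by
  have W := F.C.toWin
  rw [eq_empty_iff_forall_notMem]
  intro p hp
  obtain ⟨hp1, hp2⟩ := mem_PUt.1 hp
  have hl := lev_PU hp1
  obtain ⟨k, rfl⟩ : ∃ k, i = k + 2 := ⟨i - 2, by omega⟩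
  have h1 := F.S.hi (k + 2) (by omega)
  have h2 := F.S.hi (k + 1) (by omega)
  have h3 := F.S.hi k (by omega)
  have h4 := F.S.lo (k + 1) (by omega)
  have h4' : lo (k + 2) = 0 ∨ lo (k + 2) = lo (k + 1) + 1 := h4
  have hev := F.ev
  obtain ⟨g1, g2⟩ := W.PU_cases F.h.g t.2 (by omega) hp1 hp2
  rcases g2 with ⟨g2, g3, -⟩ | ⟨g2, g3, -⟩ <;> omega

/-- the frame of the window `i` -/
lemma cm6 : Cm6 P r i (t : P) lo hi e (cext (i + 2) (topOf : P → Tops P) t) := by
  refine ⟨cm5_no F.h.g F.hi1 F.h.no t F.C.toWin, ?_, ?_⟩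
  · intro a ha ha'
    rw [F.dcv_e ha ha']
    split_ifs <;> norm_num
  · intro p _ _ q hq hqt
    exfalso
    have h1 : q ∈ PUt i (t : P) := mem_PUt.2 ⟨hq, hqt⟩
    rw [F.noPU] at h1
    exact absurd h1 (notMem_empty q)

lemma sites : 1 ≤ (st i (cext (i + 2) (topOf : P → Tops P) t)).card := by
  rw [F.cm6.card_st]
  have := F.C.lo_le i (by omega)
  omega

/-- (3,1) -/
theorem al3 : I2.al 3 (I2.bb i (i + 2) (topOf : P → Tops P) t)
    (I2.VV i (i + 2) (topOf : P → Tops P) t) = 1 := by
  obtain ⟨h1, h2, h3, h4, h5⟩ := F.coord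
  have hm := F.hm
  obtain ⟨psi, hM⟩ := good_mat F.h.g.H (F.h.g.good i (by omega))
  unfold I2.bb I2.VV
  rw [F.cm6.al3_eq F.h.no hM F.noPU, sum_eq_single (hi i - 1)]
  · rw [F.dcv_e (by omega) (by omega), if_pos rfl]
    norm_num
  · intro a ha hne
    rw [mem_Ioo] at ha
    rw [F.dcv_e ha.1 ha.2, if_neg hne]
    norm_num
  · intro hn
    exact absurd (mem_Ioo.2 ⟨by omega, by omega⟩) hn

/-- (5,2) -/
theorem be5 : I2.be 5 (I2.bb i (i + 2) (topOf : P → Tops P) t)
    (I2.VV i (i + 2) (topOf : P → Tops P) t) = 0 := by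
  obtain ⟨psi, hM⟩ := good_mat F.h.g.H (F.h.g.good i (by omega))
  exact PS6_be5 (F.cm6.ps6 hM) F.sites

/-- the form of the charges -/
theorem QQ_eq : Win.QQ i (cext (i + 2) (topOf : P → Tops P) t) = 1 := by
  obtain ⟨h1, h2, h3, h4, h5⟩ := F.coord
  have hm := F.hm
  exact F.cm6.QQ_one F.h.no F.noPU (b := hi i - 1) (by omega) (by omega)
    fun a ha ha' => F.dcv_e ha ha'

end FoldDL

end Pool.Agent.GaussPoset.EK

end

/-! From `Pool.Agent.W_448fg_h53.FgC` -/

section

/-!
MP_448cb3_co, G2, case B, windows `j - 1` and `j`: a row with the pattern [DL] at a fold end; the private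
children below the pair next to the lost pair.  Here `j = i + 1`.  helper53.
-/

namespace Pool.Agent.GaussPoset.EK

set_option linter.unusedSectionVars false

open Finset Win St Polynomial Wd Win.W4
open Pool.Agent.GaussPoset.Win.SO (PN vp mem_PN)

universe u

variable {P : Type u} [Fintype P] [PartialOrder P] [DecidableEq P] {r i j : ℕ}

variable {m : ℕ} {x : ℕ → P} {c : ℕ → ℤ} {β : ℤ} {t : Tops P} {lo hi : ℕ → ℕ} {e : ℕ → ℕ → P}

/-- `N_2 = 1 + w32` for a row with the pattern [DL] -/
theorem NJ.w3_NE (h : NJ P r j) (hj : 2 ≤ j) (B : RowB P j t m x c β)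
    (hm : 3 ≤ m) (hβ : β = 0) (c0 : c 0 = 1) (c1 : c 1 = -1)
    (c2 : ∀ k, 2 ≤ k → k < m → c k = 0) :
    NE j (cext (j + 1) (topOf : P → Tops P) t) x 2 =
      I2.w3 (I2.bb j (j + 1) (topOf : P → Tops P) t)
        (I2.VV j (j + 1) (topOf : P → Tops P) t) + 1 := by
  classical
  obtain ⟨K, psi, R⟩ := exists_red P j
  have H := h.g.H
  have W := NJ.prow h hj B (by omega)
  have d0 : Df j {x 0, x 1} = 1 := by
    rw [B.row.df 0 1 (by omega) (by omega), if_pos rfl]
    exact c0
  have d1 : Df j {x 1, x 2} = -1 := by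
    rw [B.row.df 1 2 (by omega) (by omega), if_pos rfl]
    exact c1
  obtain ⟨w, wK, wd, ew⟩ := R.exL d0
  obtain ⟨v, vK, vd, ev⟩ := R.exU d1
  have hall : ∀ y ∈ K, topOf y = t → ns j y = {x 0, x 1} ∨ ns j y = {x 1, x 2} := by
    intro y hyK ht
    obtain ⟨p, q, h3, h4, h5, h6⟩ := B.row.pair R H h.split hyK ht
    rcases h6 with ⟨h6, h7⟩ | ⟨-, -, -, h7⟩
    · have hp2 : p = 0 ∨ p = 1 := by
        by_contra h8
        exact h7 (c2 p (by omega) (by omega))
      rcases hp2 with rfl | rfl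
      · left; rw [h5, h6]
      · right; rw [h5, h6]
    · exact absurd hβ h7
  have Q : K5 r j K psi (cext (j + 1) (topOf : P → Tops P) t) w v :=
    NJ.k5 h hj R B d0 d1 wK vK wd vd ew ev (p := 0) (q := 1) (by omega) (by omega)
      (mem_insert_self _ _) (mem_insert_self _ _) hall
  have n01 : x 0 ≠ x 1 := W.ne (by omega) (by omega) (by omega)
  have n12 : x 1 ≠ x 2 := W.ne (by omega) (by omega) (by omega)
  have n02 : x 0 ≠ x 2 := W.ne (by omega) (by omega) (by omega)
  have h1 := Q.w3 ew ev n01 n12 n02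
  unfold I2.bb I2.VV
  rw [h1]
  have hd : ∀ k l, k < l → l ≤ m → l ≠ k + 1 → dcv (x k) (x l) = 0 := by
    intro k l hkl hl hne
    have h2 := B.dcv_x H hkl hl
    rw [if_neg hne, hβ] at h2
    split_ifs at h2 <;> exact_mod_cast h2
  have nw : nz j w = ed x 0 := by
    rw [nz_low Q.lw0, ew]
    rfl
  have nv : nz j v = ed x 1 := by
    rw [nz_upp Q.lv0, ev]
    rfl
  have e1 := W.group hd (fun z => vp j z) (fun T => (if Disjoint (nz j w) T then (1 : ℤ) else 0) -
    (if Disjoint (nz j v) T then (1 : ℤ) else 0))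
  have e2 : ∑ z ∈ PN j (cext (j + 1) (topOf : P → Tops P) t),
      vp j z * (Nx j w z - Nx j v z) = NE j (cext (j + 1) (topOf : P → Tops P) t) x 2 := by
    refine Eq.trans ?_ (e1.trans ?_)
    · rfl
    simp only [← NE_eq]
    rw [sum_eq_single 2]
    · rw [nw, nv, if_pos ((W.disj_ed (by omega) (by omega)).2 (by omega)),
        if_neg (fun h3 => by
          rw [W.disj_ed (by omega) (by omega)] at h3
          omega)]
      norm_num
    · intro k hk hne
      rw [mem_range] at hk
      have g1 : Disjoint (nz j w) (ed x k) ↔ 2 ≤ k := by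
        rw [nw, W.disj_ed (by omega) hk]
        omega
      have g2 : Disjoint (nz j v) (ed x k) ↔ 3 ≤ k := by
        rw [nv, W.disj_ed (by omega) hk]
        omega
      simp only [g1, g2]
      by_cases h3 : 3 ≤ k
      · rw [if_pos h3, if_pos (by omega)]
        ring
      · rw [if_neg h3, if_neg (by omega)]
        ring
    · intro hn
      exact absurd (mem_range.2 (by omega)) hn
  rw [e2]
  ring

namespace FoldDL

variable (F : FoldDL P r i t m x c lo hi e)
include F

/-- a private child of the join over `x 2`, `x 3`: it is below three sites of the window `i` -/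
lemma DE_sub (hw : lo i < lo (i + 1) ∨ 4 ≤ m) :
    DE (i + 1) (cext (i + 2) (topOf : P → Tops P) t) x 2 ⊆
      SO.N1f i (cext (i + 2) (topOf : P → Tops P) t) := by
  classical
  obtain ⟨h1, h2, h3, h4, h5⟩ := F.coord
  have hm := F.hm
  have H := F.h.g.H
  intro z hz
  obtain ⟨hzC, hz1, hz2⟩ := mem_DE.1 hz
  obtain ⟨hl, hc, y, hzy, hy2⟩ := mem_PD.1 hz1
  obtain ⟨y', hy'⟩ := card_eq_one.1 hc
  have hyy : y = y' := by
    rw [← mem_uc, hy', mem_singleton] at hzy
    exact hzy
  subst hyy
  have hs : uc y = ed x 2 := by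
    rw [← hz2, sit_low H (by omega), ClE_sts H hl hy']
  have e1 : x 2 = e (i + 1) (hi i - 2 + 1) := by
    rw [h5 _ (by omega)]
    congr 1
    omega
  have e2 : x 3 = e (i + 1) (hi i - 2) := by
    rw [h5 _ (by omega)]
    congr 1
    omega
  have m2 : y ⋖ x 2 := by
    rw [← mem_uc, hs]
    exact mem_insert_self _ _
  have m3 : y ⋖ x 3 := by
    rw [← mem_uc, hs]
    exact mem_insert_of_mem (mem_singleton_self _)
  rw [e1] at m2
  rw [e2] at m3
  have hZ := low_Tr F.C.toWin F.h.g t.2 F.cm6.hS (a := hi i - 2) (by omega) (by omega) m3 m2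
  exact SO.mem_N1f.2 ⟨hzC, Or.inl ⟨by omega, y, hZ.1, hy'⟩⟩

/-- THE NUMBER OF THE PRIVATE CHILDREN -/
theorem N1f_ge (hw : lo i < lo (i + 1) ∨ 4 ≤ m) :
    I2.w3 (I2.bb (i + 1) (i + 2) (topOf : P → Tops P) t)
      (I2.VV (i + 1) (i + 2) (topOf : P → Tops P) t) + 1 ≤
      (SO.N1f i (cext (i + 2) (topOf : P → Tops P) t)).card := by
  have hj : 2 ≤ i + 1 := by have := F.hi1; omega
  have h1 := NJ.w3_NE F.h hj F.B F.hm rfl F.c0 F.c1 F.c2
  rw [← h1]
  have h2 : (DE (i + 1) (cext (i + 1 + 1) (topOf : P → Tops P) t) x 2).card ≤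
      (SO.N1f i (cext (i + 2) (topOf : P → Tops P) t)).card := card_le_card (F.DE_sub hw)
  unfold NE
  omega

end FoldDL

end Pool.Agent.GaussPoset.EK

end

/-! From `Pool.Agent.W_448cl_h64.ClR` -/

section

/-!
MP_448cb3_co, G2, case B: the letters `C O` of a component with at least four elements on the level `j`
which is closed at one end.  helper64.
-/

namespace Pool.Agent.GaussPoset.Wd

set_option linter.unusedSectionVars false

open Finset

/-- the late word with a closed end -/
def W7 : List Ltr := [OC, CO, CO, OO, CO, OO, OC]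

lemma lateW_good (a : ℕ) : ∀ w ∈ lateW a, w.count OO < w.count CC + 2 ∨ w.getLast? = some OO ∨
    w = W7 := by
  intro w hw
  unfold lateW at hw
  simp only [List.mem_append] at hw
  rcases hw with ((((((hw | hw) | hw) | hw) | hw) | hw) | hw) | hw
  · revert w
    decide +kernel
  · split_ifs at hw
    · revert w
      decide +kernel
    · revert w
      decide +kernel
  all_goals
    split_ifs at hw
    · revert w
      decide +kernel
    · exact absurd hw List.not_mem_nil

universe u

variable {P : Type u} [PartialOrder P] [Fintype P] [DecidableEq P]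
variable {lo hi : ℕ → ℕ} {a d j : ℕ}

lemma word_count (hlo : ∀ k, k < a + d → lo (k + 1) = lo k ∨ lo (k + 1) = lo k + 1)
    (hhi : ∀ k, k < a + d → hi (k + 1) = hi k ∨ hi (k + 1) = hi k + 1) :
    hi (a + d) + (word lo hi a d).count CC + lo a = lo (a + d) + (word lo hi a d).count OO + hi a := by
  induction d with
  | zero =>
    have : word lo hi a 0 = [] := rfl
    rw [this]
    simp
    omega
  | succ d ih =>
    have h1 := ih (fun k hk => hlo k (by omega)) (fun k hk => hhi k (by omega))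
    have h2 := hlo (a + d) (by omega)
    have h3 := hhi (a + d) (by omega)
    rw [word_succ, List.count_append, List.count_append, show a + (d + 1) = a + d + 1 from rfl]
    rcases h2 with h2 | h2 <;> rcases h3 with h3 | h3
    · have e1 : decide (lo (a + d + 1) ≠ lo (a + d)) = false := by simp [h2]
      have e2 : decide (hi (a + d + 1) ≠ hi (a + d)) = false := by simp [h3]
      rw [e1, e2, show List.count CC [((false, false) : Ltr)] = 0 by decide,
        show List.count OO [((false, false) : Ltr)] = 0 by decide]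
      omega
    · have e1 : decide (lo (a + d + 1) ≠ lo (a + d)) = false := by simp [h2]
      have e2 : decide (hi (a + d + 1) ≠ hi (a + d)) = true := by simp [h3]
      rw [e1, e2, show List.count CC [((false, true) : Ltr)] = 0 by decide,
        show List.count OO [((false, true) : Ltr)] = 1 by decide]
      omega
    · have e1 : decide (lo (a + d + 1) ≠ lo (a + d)) = true := by simp [h2]
      have e2 : decide (hi (a + d + 1) ≠ hi (a + d)) = false := by simp [h3]
      rw [e1, e2, show List.count CC [((true, false) : Ltr)] = 1 by decide,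
        show List.count OO [((true, false) : Ltr)] = 0 by decide]
      omega
    · have e1 : decide (lo (a + d + 1) ≠ lo (a + d)) = true := by simp [h2]
      have e2 : decide (hi (a + d + 1) ≠ hi (a + d)) = true := by simp [h3]
      rw [e1, e2, show List.count CC [((true, true) : Ltr)] = 0 by decide,
        show List.count OO [((true, true) : Ltr)] = 0 by decide]
      omega

/-- the last letter -/
lemma word_last (hd : 1 ≤ d) (h : (word lo hi a d).getLast? = some OO) :
    lo (a + d) = lo (a + d - 1) ∧ hi (a + d) ≠ hi (a + d - 1) := by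
  obtain ⟨d, rfl⟩ : ∃ k, d = k + 1 := ⟨d - 1, by omega⟩
  rw [word_succ, List.getLast?_append, List.getLast?_singleton, Option.some_or] at h
  have h1 := Option.some.inj h
  unfold OO at h1
  rw [Prod.mk.injEq] at h1
  obtain ⟨h2, h3⟩ := h1
  rw [decide_eq_false_iff_not] at h2
  rw [decide_eq_true_iff] at h3
  rw [show a + (d + 1) - 1 = a + d by omega, show a + (d + 1) = a + d + 1 by omega]
  push Not at h2
  exact ⟨h2, h3⟩

/-- the quadric words have one element -/
lemma Qw_hi (hw : word lo hi a d = Qw d) (hd : 1 ≤ d)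
    (hhi : ∀ k, k < a + d → hi (k + 1) = hi k ∨ hi (k + 1) = hi k + 1) : hi (a + d) = hi a := by
  obtain ⟨w1, w2⟩ := word_spec hw
  have key : ∀ k, k < d → hi (a + k + 1) = hi (a + k) := by
    intro k hk
    have h1 := (w2 k hk).2
    have h2 : (Qw d)[k]?.map Prod.snd = some false := by
      unfold Qw
      rcases k with _ | k
      · rfl
      · rw [List.getElem?_cons_succ, List.getElem?_replicate, if_pos (by omega)]
        rfl
    rw [h2] at h1
    have h3 := of_decide_eq_false (Option.some.inj h1).symm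
    push Not at h3
    exact h3
  have : ∀ k, k ≤ d → hi (a + k) = hi a := by
    intro k
    induction k with
    | zero => intro _; rfl
    | succ k ih =>
      intro hk
      rw [← Nat.add_assoc, key k (by omega), ih (by omega)]
  exact this d le_rfl

/-- THE SHAPES: at least four elements on the level `j = n + 3`, one end closed: the letters `C O` on the
left only in one late word, on the right only in a stair -/
theorem cl_shape {n : ℕ} (S : Shape (n + 3) lo hi)
    (hlo : ∀ k, k < n + 3 → lo (k + 1) = lo k ∨ lo (k + 1) = lo k + 1)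
    (hhi : ∀ k, k < n + 3 → hi (k + 1) = hi k ∨ hi (k + 1) = hi k + 1)
    (hle : ∀ k, k ≤ n + 3 → hi k ≤ k)
    (hV : lo (n + 3) + 3 ≤ hi (n + 3))
    (hcl : lo (n + 3) = lo (n + 2) + 1 ∨ hi (n + 3) = hi (n + 2)) :
    (lo (n + 1) = lo n + 1 → lo (n + 2) = lo (n + 1) → ∃ a, 3 ≤ a ∧ a + 7 = n + 3 ∧
        (∀ k, k < a → lo k = 0 ∧ hi k = 0) ∧ (lo a = 0 ∧ hi a = 1) ∧
        word lo hi a 7 = W7) ∧
    (hi (n + 1) = hi n → hi (n + 2) = hi (n + 1) + 1 → hi (n + 3) = hi (n + 2) ∧
      (∀ k, n = k + 1 → hi (k + 1) = hi k + 1)) := by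
  rcases S with h | ⟨h1, h2⟩ | ⟨h0, h2⟩ | ⟨h0, h1, h2⟩ | ⟨h0, h1⟩ | ⟨a, h0, h1, h2, h3, hN, h4⟩
  · have := h (n + 3) le_rfl
    omega
  · constructor
    · intro g1 g2
      have g3 := h2.lo (n + 1) (by omega)
      have e1 : lo (n + 1 + 1) = lo (n + 2) := rfl
      omega
    · intro g1 g2
      have g3 := h2.hi (n + 1) (by omega)
      have g4 := hle n (by omega)
      have e1 : hi (n + 1 + 1) = hi (n + 2) := rfl
      omega
  · constructor
    · intro g1 g2
      have g3 := h2.lo (n + 1) (by omega)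
      have e1 : lo (n + 1 + 1) = lo (n + 2) := rfl
      omega
    · intro g1 g2
      have g3 := h2.hi (n + 1) (by omega)
      have g4 := h2.hi n (by omega)
      have g5 := h2.hi (n + 2) (by omega)
      have g6 := h2.hi (n + 3) (by omega)
      refine ⟨by omega, ?_⟩
      intro k hk
      subst hk
      have g7 := h2.hi k (by omega)
      omega
  · obtain rfl : n = 0 := by omega
    simp only [Nat.zero_add] at hV
    omega
  · obtain ⟨-, h1⟩ := h1
    obtain rfl : n = 3 := by omega
    simp only [show 3 + 3 = 6 from rfl] at hV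
    omega
  · have hcnt := word_count (a := a) (d := n + 3 - a) (lo := lo) (hi := hi)
      (fun k hk => hlo k (by omega)) (fun k hk => hhi k (by omega))
    rw [show a + (n + 3 - a) = n + 3 by omega] at hcnt
    rcases h4 with ⟨h5, h6⟩ | h4
    · exfalso
      have h7 := Qw_hi h6 (by omega) (fun k hk => hhi k (by omega))
      rw [show a + (n + 3 - a) = n + 3 by omega] at h7
      omega
    · rcases lateW_good a _ h4 with g | g | g
      · exfalso
        omega
      · exfalso
        rcases Nat.eq_zero_or_pos (n + 3 - a) with h5 | h5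
        · have : a = n + 3 := by omega
          rw [this] at h3
          omega
        · have h6 := word_last (by omega) g
          rw [show a + (n + 3 - a) = n + 3 by omega, show n + 3 - 1 = n + 2 by omega] at h6
          omega
      · obtain ⟨w1, w2⟩ := word_spec g
        have hl : W7.length = 7 := rfl
        rw [hl] at w1
        obtain rfl : n = a + 4 := by omega
        rw [w1] at g
        constructor
        · intro _ _
          exact ⟨a, h0, by omega, h2, h3, g⟩
        · intro g1 g2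
          exfalso
          have h5 := (w2 4 (by omega)).2
          rw [show W7[4]?.map Prod.snd = some true by decide] at h5
          have h6 := of_decide_eq_true (Option.some.inj h5).symm
          exact h6 g1

end Pool.Agent.GaussPoset.Wd

end

/-! From `Pool.Agent.W_448six_h74.SkE` -/

section

/-!
MP_448cb3_co, G2, case B, window `j`: a row with two stars at a fold end: the coordinates, one upper
pendant over the first pair (the arguments of helper53 `FgB`, `FgH`).  helper74.
-/

namespace Pool.Agent.GaussPoset.EK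

set_option linter.unusedSectionVars false

open Finset Win St Polynomial Wd Win.W4
open Pool.Agent.GaussPoset.Win.SO (PN vp mem_PN)
-- (open list not needed)

universe u

variable {P : Type u} [Fintype P] [PartialOrder P] [DecidableEq P] {r i j : ℕ}

variable {m : ℕ} {x : ℕ → P} {c : ℕ → ℤ} {β : ℤ} {t : Tops P} {lo hi : ℕ → ℕ} {e : ℕ → ℕ → P}

section fold

variable (h : NJ P r (i + 1)) (hi1 : 1 ≤ i) (B : RowB P (i + 1) t m x c β) (hm : 5 ≤ m)
  (C : Cp.Comp (i + 1) (t : P) lo hi e) (S : StairShape (i + 1) lo hi) (ev : (i + 1) % 2 = 0)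
  (hx : x 0 = e (i + 1) ((i + 1) / 2))

include h hi1 B hm C S ev hx

/-- coordinates -/
lemma six_coord : hi i + 1 = hi (i + 1) ∧ hi (i + 1) = lo (i + 1) + m ∧ lo i ≤ lo (i + 1) ∧
    lo (i + 1) ≤ lo i + 1 ∧ ∀ k, k ≤ m → x k = e (i + 1) (hi (i + 1) - k) := by
  have hj : 2 ≤ i + 1 := by omega
  have h1 := S.hi (i + 1) le_rfl
  have h2 := S.hi i (by omega)
  have h3 := C.lo_step i (by omega)
  obtain ⟨h4, h5⟩ := B.orient h hj C
  refine ⟨by omega, h4, by omega, by omega, ?_⟩
  rcases h5 with h5 | h5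
  · exfalso
    have h6 := h5 0 (by omega)
    rw [hx, ← h1] at h6
    have := C.inj (i + 1) _ _ le_rfl (by omega) le_rfl (by omega) (by omega) h6
    omega
  · exact h5

/-- the fold end has one upper cover -/
lemma six_uc0 : (uc (x 0)).card = 1 := by
  obtain ⟨f1, f2, f3, f4, hor⟩ := six_coord h hi1 B hm C S ev hx
  have hl : lev (x 0) = i + 1 := B.row.lev_x 0 (by omega)
  rcases uc_card_cases h.g.H (x := x 0) (by omega) with h1 | h1
  · exact h1
  · exfalso
    have h6 := C.double_up h.g.H h.g.good t.2 (k := i) (s := hi (i + 1)) (by omega)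
      (by omega) (by omega)
    have h7 := hor 0 (by omega)
    rw [Nat.sub_zero] at h7
    rw [h7] at h1
    have := h6.1 h1
    omega

/-- one upper pendant over the first pair -/
lemma six_UE0 : (UE (i + 1) (cext (i + 1 + 1) (topOf : P → Tops P) t) x 0).card = 1 := by
  classical
  obtain ⟨f1, f2, f3, f4, hor⟩ := six_coord h hi1 B hm C S ev hx
  obtain ⟨n, hn⟩ : ∃ n, i = n + 1 := ⟨i - 1, by omega⟩
  subst hn
  have H := h.g.H
  have W := NJ.prow h (by omega) B (by omega)
  have g0 := S.hi n (by omega)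
  have g1 := S.hi (n + 1) (by omega)
  have g2 := S.hi (n + 1 + 1) (by omega)
  have l0 := C.lo_le n (by omega)
  have l1 := C.lo_le (n + 1) (by omega)
  have l2 := C.lo_le (n + 1 + 1) (by omega)
  have hx0 := hor 0 (by omega)
  have hx1 := hor 1 (by omega)
  rw [Nat.sub_zero] at hx0
  have c0 : x 0 ⋖ e (n + 1) (hi (n + 1)) := by
    rw [hx0]
    exact (C.cov (n + 1) _ _ (by omega) (by omega) (by omega) (by omega) (by omega)).2 (by omega)
  have c1 : x 1 ⋖ e (n + 1) (hi (n + 1)) := by
    rw [hx1]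
    exact (C.cov (n + 1) _ _ (by omega) (by omega) (by omega) (by omega) (by omega)).2 (by omega)
  have c2 : e (n + 1) (hi (n + 1)) ⋖ e n (hi n) :=
    (C.cov n _ _ (by omega) (by omega) (by omega) (by omega) (by omega)).2 (by omega)
  have hne : x 0 ≠ x 1 := W.ne (by omega) (by omega) (by omega)
  have hdu : dc (e (n + 1) (hi (n + 1))) = {x 0, x 1} := by
    refine (eq_of_subset_of_card_le ?_ ?_).symm
    · intro y hy
      rw [mem_insert, mem_singleton] at hy
      rcases hy with rfl | rfl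
      · exact mem_dc.2 c0
      · exact mem_dc.2 c1
    · rw [card_pair hne]
      exact dc_card_le H _
  have hdz : (dc (e n (hi n))).card = 1 :=
    (C.single_down H (k := n) (by omega) (by omega) le_rfl).2 (by omega)
  obtain ⟨u, hu⟩ := card_eq_one.1 hdz
  have huu : u = e (n + 1) (hi (n + 1)) := by
    have := mem_dc.2 c2
    rw [hu, mem_singleton] at this
    exact this.symm
  subst huu
  have hlz : lev (e n (hi n)) = n := C.lev_e n _ (by omega) (by omega) le_rfl
  have hzt : e n (hi n) ≤ (t : P) := C.le_t n _ (by omega) (by omega) le_rfl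
  have hz : e n (hi n) ∈ UE (n + 1 + 1) (cext (n + 1 + 1 + 1) (topOf : P → Tops P) t) x 0 := by
    refine mem_UE.2 ⟨?_, mem_PU.2 ⟨by omega, hdz, _, c2, ?_⟩, ?_⟩
    · exact mem_cext_of_le h.split (by omega) (Hul.top_unique (h.nj (by omega)) (topOf _).2 t.2
        (le_topOf _) hzt |> Subtype.ext)
    · rw [hdu, card_pair hne]
    · rw [SO.sit_PU H (by omega) hu, hdu]
      rfl
  have h1 := W.UE_one (i := n + 1 + 1) (C := cext (n + 1 + 1 + 1) (topOf : P → Tops P) t) 0
  have h2 := card_pos.2 ⟨_, hz⟩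
  omega

end fold

end Pool.Agent.GaussPoset.EK

end
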