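import Mathlib
import Pool.Agent.W_448zz_h61.Ns
import Pool.Agent.W_448zz_h61.M043
import Pool.Agent.W_448zz_h61.M165
import Pool.Agent.W_448zz_h61.M168
import Pool.Agent.W_448zz_h61.M170
import Pool.Agent.W_448zz_h61.M215

/-! From `Pool.Agent.W_448fin_h16.FnC` -/

section

/-!
# Final assembly (MP_448cb3_co): the rotated rows which survive T6

`rotR_cases`: in case B (no element of level `j + 1` is below two maximal elements) a rotated row with
the data of T6 exists only in a stair-like component, `j` even, between the fold end and the open end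
(the element (C)).
-/

namespace Pool.Agent.GaussPoset.Win

set_option linter.unusedSectionVars false

open Finset
open Pool.Agent.GaussPoset.Wd (SS Shape Ltr OO CO OC CC word)

universe u

variable {P : Type u} [Fintype P] [PartialOrder P] [DecidableEq P] {r j : ℕ}
  {lo hi : ℕ → ℕ} {e : ℕ → ℕ → P}

/-- one step of a word -/
lemma step_val {f : ℕ → ℕ} {k : ℕ} (hs : f (k + 1) = f k ∨ f (k + 1) = f k + 1) {b : Bool}
    (h : some b = some (decide (f (k + 1) ≠ f k))) : f (k + 1) = f k + (if b then 1 else 0) := by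
  rw [Option.some.injEq] at h
  subst h
  by_cases h1 : f (k + 1) = f k
  · simp [h1]
  · rw [if_pos (by simpa using h1)]
    omega

/-- the values of the ends from the word -/
lemma word_vals {a d : ℕ} {w : List Ltr} (h : word lo hi a d = w)
    (hlo : ∀ k, k < a + d → lo (k + 1) = lo k ∨ lo (k + 1) = lo k + 1)
    (hhi : ∀ k, k < a + d → hi (k + 1) = hi k ∨ hi (k + 1) = hi k + 1) :
    d = w.length ∧ ∀ n b c, w[n]? = some (b, c) →
      lo (a + n + 1) = lo (a + n) + (if b then 1 else 0) ∧
      hi (a + n + 1) = hi (a + n) + (if c then 1 else 0) := by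
  obtain ⟨h1, h2⟩ := Wd.word_spec h
  refine ⟨h1, fun n b c hn => ?_⟩
  have hnd : n < d := by
    rw [h1]
    exact (List.getElem?_eq_some_iff.1 hn).1
  obtain ⟨q1, q2⟩ := h2 n hnd
  rw [hn] at q1 q2
  simp only [Option.map_some] at q1 q2
  exact ⟨step_val (hlo (a + n) (by omega)) q1, step_val (hhi (a + n) (by omega)) q2⟩

/-- the element (C) -/
def IsC (j : ℕ) (lo hi : ℕ → ℕ) (e : ℕ → ℕ → P) : Prop :=
  StairShape j lo hi ∧ Even j ∧ lo j = 0 ∧ 3 ≤ hi j ∧ ∃ z, z ⋖ e j (j / 2) ∧ z ⋖ e j 0

section cases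

variable {k : ℕ} (h : GoodTo P r (k + 2)) (hno : ∀ z : P, lev z = k + 3 → ¬ Hul.Jn z)

include h hno

/-- the word `OC CO CO OO CO OO`: the end with the letters C, O has a pendant -/
theorem no_rot_pend (hk : 1 ≤ k) {t : Tops P} (C : Comp P (t : P) (k + 2) lo hi e) {m : ℕ} {X : ℕ → P}
    (R : RotR P (k + 2) (t : P) m X) (hX : X m = e (k + 2) (lo (k + 2))) (h3 : lo k + 2 ≤ hi k)
    (hL : puL lo hi k) (hk3 : 3 ≤ k) (hL2 : lo (k - 2) = lo (k - 3) + 1)
    (hR : hi (k + 1) ≠ hi k) : False := by
  classical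
  have H := h.H
  have hm := R.hm
  have hb := chain_bal h hk hno C h3
  have hS : ∀ y, lev y ≤ k + 2 → (y ∈ SS k t ↔ y ≤ (t : P)) :=
    fun y hy => (Wd.SS_ext h (by omega) t).mem y hy
  have hU := C.card_FU h t.2 (i := k) (by omega) (S := SS k t) (fun y hy => hS y (by omega))
  have hpos : 0 < (FL k (SS k t)).card := by
    rw [hb, hU]
    unfold fuw
    rw [if_pos ⟨hk3, hL2, Or.inl hL⟩]
    omega
  obtain ⟨w, hw⟩ := card_pos.1 hpos
  obtain ⟨hwS, z, hz, hwz⟩ := mem_FL.1 hw
  have l1 := (lev_PD hz).1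
  have hwz' : w ⋖ z := by
    rw [← mem_uc, hwz]
    exact mem_singleton_self z
  have hPt := Wd.SS_part h (i := k) (k := k) (by omega) (by omega) t
  have hzS : z ∈ SS k t := hPt.up hwS hwz'
  have hzt : z ≤ (t : P) := (hS z (by omega)).1 hzS
  obtain ⟨c, c1, c2, rfl⟩ := C.surj (k + 2) le_rfl z (by omega) hzt
  have hc : c = lo (k + 2) := by
    rcases (C.mem_PD_iff h t.2 (i := k) le_rfl c1 c2).1 hz with ⟨g, -⟩ | ⟨-, g⟩
    · exact g
    · exact absurd g.1 hR
  subst hc
  rw [← hX] at hwz hwz'
  -- the other two lower covers of `X m`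
  have hl0 := R.row.lev_x 0 (by omega)
  have hlm := R.row.lev_x m le_rfl
  have hln := R.row.lev_x (m - 1) (by omega)
  have n0 : X 0 ≠ X m := fun q => by
    have := R.row.inj 0 m (by omega) le_rfl q
    omega
  have n1 : X (m - 1) ≠ X m := fun q => by
    have := R.row.inj (m - 1) m (by omega) le_rfl q
    omega
  have n2 : X 0 ≠ X (m - 1) := fun q => by
    have := R.row.inj 0 (m - 1) (by omega) (by omega) q
    omega
  have d0 : 1 ≤ dcv (X 0) (X m) := by
    have := R.new
    rw [Df_pair H hl0 n0] at this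
    omega
  have d1 : 1 ≤ dcv (X (m - 1)) (X m) := by
    have q := R.rest (m - 1) (by omega) (by omega)
    rw [show m - 1 + 1 = m by omega, Df_pair H hln n1] at q
    have q2 := R.row.ucv_x (m - 1) m (by omega) le_rfl (by omega)
    rw [if_pos (Or.inl (by omega))] at q2
    omega
  obtain ⟨z0, a0, b0⟩ := StA_of_dcv d0
  obtain ⟨z1, a1, b1⟩ := StA_of_dcv d1
  have m0 : z0 ≠ w := by
    rintro rfl
    have := mem_uc.2 a0
    rw [hwz, mem_singleton] at this
    exact n0 this
  have m1 : z1 ≠ w := by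
    rintro rfl
    have := mem_uc.2 a1
    rw [hwz, mem_singleton] at this
    exact n1 this
  have m2 : z0 ≠ z1 := by
    rintro rfl
    have h5 : ({X 0, X (m - 1), X m} : Finset P) ⊆ uc z0 := by
      intro v hv
      rw [mem_insert, mem_insert, mem_singleton] at hv
      rcases hv with rfl | rfl | rfl
      · exact mem_uc.2 a0
      · exact mem_uc.2 a1
      · exact mem_uc.2 b0
    have h6 := card_le_card h5
    have h7 := uc_card_le H z0
    rw [card_insert_of_notMem (by
      rw [mem_insert, mem_singleton, not_or]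
      exact ⟨n2, n0⟩), card_insert_of_notMem (by
      rw [mem_singleton]
      exact n1), card_singleton] at h6
    omega
  have h5 : ({w, z0, z1} : Finset P) ⊆ dc (X m) := by
    intro v hv
    rw [mem_insert, mem_insert, mem_singleton] at hv
    rcases hv with rfl | rfl | rfl
    · exact mem_dc.2 hwz'
    · exact mem_dc.2 b0
    · exact mem_dc.2 b1
  have h6 := card_le_card h5
  have h7 := dc_card_le H (X m)
  rw [card_insert_of_notMem (by
    rw [mem_insert, mem_singleton, not_or]
    exact ⟨m0.symm, m1.symm⟩), card_insert_of_notMem (by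
    rw [mem_singleton]
    exact m2), card_singleton] at h6
  omega

/-- the rotated rows in case B -/
theorem rotR_cases {t : Tops P} (C : Cp.Comp (k + 2) (t : P) lo hi e)
    (S : Wd.Shape (k + 2) lo hi) {m : ℕ} {X : ℕ → P} (R : RotR P (k + 2) (t : P) m X)
    (hU : T6N.thU (k + 2) {X (m - 1), X m} = 1) : IsC (k + 2) lo hi e := by
  classical
  have H := h.H
  have hm := R.hm
  have C' := C.toWin
  obtain ⟨hw, hl⟩ := R.letters h t.2 C' hU
  have i1 : k + 2 - 1 = k + 1 := by omega
  have i2 : k + 2 - 2 = k := by omega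
  have hL : ∀ {f g : ℕ → ℕ}, puL f g (k + 2) → f (k + 1) = f k + 1 ∧ f (k + 2) = f (k + 1) := by
    intro f g q
    unfold puL at q
    rw [i1, i2] at q
    exact ⟨q.2.1, q.2.2.1⟩
  have hR : ∀ {f g : ℕ → ℕ}, puR f g (k + 2) → g (k + 1) = g k ∧ g (k + 2) = g (k + 1) + 1 := by
    intro f g q
    unfold puR at q
    rw [i1, i2] at q
    exact ⟨q.2.1, q.2.2.1⟩
  have c0 := C.hi_le (k := k) (by omega)
  have c1 := C.lo_le k (by omega)
  rcases S with h1 | ⟨h1, h2⟩ | ⟨h0, h2⟩ | ⟨h0, h1, h2⟩ | ⟨h0, h1⟩ | ⟨a, h0, h1, h2, h3, hN, h4⟩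
  · have := h1 (k + 2) le_rfl
    omega
  · exfalso
    rcases hl with ⟨p, -⟩ | ⟨p, -⟩
    · obtain ⟨q1, q2⟩ := hR p
      have := h2.hi (k + 1) (by omega)
      rw [show k + 1 + 1 = k + 2 by omega] at this
      omega
    · obtain ⟨q1, q2⟩ := hL p
      have := h2.lo (k + 1) (by omega)
      rw [show k + 1 + 1 = k + 2 by omega] at this
      omega
  · rcases hl with ⟨p, x0, xm⟩ | ⟨p, -⟩
    · obtain ⟨q1, q2⟩ := hR p
      have e0 := h2.hi k (by omega)
      have e1 := h2.hi (k + 1) (by omega)
      have e2 := h2.hi (k + 2) le_rfl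
      have hev : Even (k + 2) := by
        rw [Nat.even_iff]
        omega
      have n0 : X 0 ≠ X m := fun q => by
        have := R.row.inj 0 m (by omega) le_rfl q
        omega
      have d0 : 1 ≤ dcv (X 0) (X m) := by
        have := R.new
        rw [Df_pair H (R.row.lev_x 0 (by omega)) n0] at this
        omega
      obtain ⟨z0, a0, b0⟩ := StA_of_dcv d0
      obtain ⟨-, -, u0, -⟩ := R.row.far 0 m (by omega) le_rfl (by omega)
      have hlo : lo (k + 2) = 0 := by
        rw [x0] at u0
        have glh : lo (k + 2) ≤ hi (k + 1 + 1) := by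
          show lo (k + 2) ≤ hi (k + 2)
          omega
        have g1 := (C'.uc_two h t.2 (k := k + 1) (by omega) (a := lo (k + 2)) le_rfl glh).not.1
          (by rw [u0]; omega)
        have g2 := C'.lo_le (k + 1) (by omega)
        have g3 := C'.lo_ge (k + 1) (by omega)
        have g4 := C'.hi_le (k + 1) (by omega)
        have g5 := h2.lo (k + 1) (by omega)
        rw [show k + 1 + 1 = k + 2 by omega] at g1 g2 g3 g4 g5
        omega
      refine ⟨h2, hev, hlo, by omega, z0, ?_, ?_⟩
      · rw [xm, e2] at b0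
        exact b0
      · rw [x0, hlo] at a0
        exact a0
    · exfalso
      obtain ⟨q1, q2⟩ := hL p
      have := h2.lo (k + 1) (by omega)
      rw [show k + 1 + 1 = k + 2 by omega] at this
      omega
  · exfalso
    have hk : k = 1 := by omega
    subst hk
    norm_num at hw
    omega
  · exfalso
    have hk : k = 4 := by omega
    subst hk
    obtain ⟨⟨-, -, -, -, -, -, g1⟩, -, -, -, -, -, -, g2⟩ := h1
    simp only [show 4 + 2 = 6 by norm_num] at hw
    omega
  · exfalso
    obtain ⟨d, hd⟩ : ∃ d, k + 2 = a + d := ⟨k + 2 - a, by omega⟩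
    have hda : k + 2 - a = d := by omega
    rw [hda] at h4
    have hlo : ∀ n, n < a + d → lo (n + 1) = lo n ∨ lo (n + 1) = lo n + 1 :=
      fun n hn => C.lo_step n (by omega)
    have hhi : ∀ n, n < a + d → hi (n + 1) = hi n ∨ hi (n + 1) = hi n + 1 :=
      fun n hn => C.hi_step n (by omega)
    have hwd := Wd.late_wide (lo := lo) (hi := hi) (a := a) (d := d) h3
      (fun n hn => by have := hlo n hn; omega) (fun n hn => by have := hhi n hn; omega) h4
      (by rw [← hd]; omega)
    rcases hwd with g | g | g | g | g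
    · obtain ⟨v0, v⟩ := word_vals g hlo hhi
      have v1 := v 0 false false rfl
      have v2 := v 1 false true rfl
      have v3 := v 2 false true rfl
      simp only [Bool.false_eq_true, if_false, if_true, List.length_cons, List.length_nil,
        Nat.add_zero, Nat.add_assoc, Nat.reduceAdd] at v0 v1 v2 v3
      have hk : k = a + 1 := by omega
      subst hk
      rcases hl with ⟨p, -⟩ | ⟨p, -⟩
      · obtain ⟨q1, q2⟩ := hR p
        simp only [Nat.add_assoc, Nat.reduceAdd] at q1 q2 hw
        omega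
      · obtain ⟨q1, q2⟩ := hL p
        simp only [Nat.add_assoc, Nat.reduceAdd] at q1 q2 hw
        omega
    · obtain ⟨v0, v⟩ := word_vals g hlo hhi
      have v1 := v 0 false false rfl
      have v2 := v 1 false true rfl
      have v3 := v 2 true true rfl
      have v4 := v 3 false true rfl
      simp only [Bool.false_eq_true, if_false, if_true, List.length_cons, List.length_nil,
        Nat.add_zero, Nat.add_assoc, Nat.reduceAdd] at v0 v1 v2 v3 v4
      have hk : k = a + 2 := by omega
      subst hk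
      refine no_flip h (by omega) hno C' ⟨?_, Or.inr ⟨?_, ?_⟩⟩
      · omega
      · unfold puR
        rw [show a + 2 - 1 = a + 1 by omega, show a + 2 - 2 = a by omega]
        refine ⟨by omega, by omega, by omega, by omega⟩
      · unfold pdL
        simp only [Nat.add_assoc, Nat.reduceAdd]
        refine ⟨by omega, by omega, by omega⟩
    · obtain ⟨v0, v⟩ := word_vals g hlo hhi
      have v1 := v 0 false false rfl
      have v2 := v 1 true true rfl
      have v3 := v 2 true true rfl
      have v4 := v 3 false true rfl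
      have v5 := v 4 true true rfl
      have v6 := v 5 false true rfl
      simp only [Bool.false_eq_true, if_false, if_true, List.length_cons, List.length_nil,
        Nat.add_zero, Nat.add_assoc, Nat.reduceAdd] at v0 v1 v2 v3 v4 v5 v6
      have hk : k = a + 4 := by omega
      subst hk
      rcases hl with ⟨p, -⟩ | ⟨p, -, p2, -⟩
      · obtain ⟨q1, q2⟩ := hR p
        simp only [Nat.add_assoc, Nat.reduceAdd] at q1 q2 hw
        omega
      · refine no_rot_pend h hno (by omega) C' R p2 (by omega) ?_ (by omega) ?_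
          (by simp only [Nat.add_assoc, Nat.reduceAdd]; omega)
        · unfold puL
          rw [show a + 4 - 1 = a + 3 by omega, show a + 4 - 2 = a + 2 by omega]
          refine ⟨by omega, by omega, by omega, by omega⟩
        · rw [show a + 4 - 2 = a + 2 by omega, show a + 4 - 3 = a + 1 by omega]
          omega
    · obtain ⟨v0, v⟩ := word_vals g hlo hhi
      have v1 := v 0 false false rfl
      have v2 := v 1 true true rfl
      have v3 := v 2 true true rfl
      have v4 := v 3 false true rfl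
      have v5 := v 4 true true rfl
      have v6 := v 5 false true rfl
      have v7 := v 6 false false rfl
      simp only [Bool.false_eq_true, if_false, if_true, List.length_cons, List.length_nil,
        Nat.add_zero, Nat.add_assoc, Nat.reduceAdd] at v0 v1 v2 v3 v4 v5 v6 v7
      have hk : k = a + 5 := by omega
      subst hk
      rcases hl with ⟨p, -⟩ | ⟨p, -⟩
      · obtain ⟨q1, q2⟩ := hR p
        simp only [Nat.add_assoc, Nat.reduceAdd] at q1 q2 hw
        omega
      · obtain ⟨q1, q2⟩ := hL p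
        simp only [Nat.add_assoc, Nat.reduceAdd] at q1 q2 hw
        omega
    · obtain ⟨v0, v⟩ := word_vals g hlo hhi
      have v1 := v 0 false false rfl
      have v2 := v 1 true true rfl
      have v3 := v 2 true true rfl
      have v4 := v 3 false true rfl
      have v5 := v 4 true true rfl
      have v6 := v 5 false true rfl
      have v7 := v 6 false true rfl
      simp only [Bool.false_eq_true, if_false, if_true, List.length_cons, List.length_nil,
        Nat.add_zero, Nat.add_assoc, Nat.reduceAdd] at v0 v1 v2 v3 v4 v5 v6 v7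
      have hk : k = a + 5 := by omega
      subst hk
      rcases hl with ⟨p, -⟩ | ⟨p, -⟩
      · obtain ⟨q1, q2⟩ := hR p
        simp only [Nat.add_assoc, Nat.reduceAdd] at q1 q2 hw
        omega
      · obtain ⟨q1, q2⟩ := hL p
        simp only [Nat.add_assoc, Nat.reduceAdd] at q1 q2 hw
        omega

end cases

end Pool.Agent.GaussPoset.Win

end

/-! From `Pool.Agent.W_448fin_h16.FnD` -/

section

/-!
# Final assembly (MP_448cb3_co), step B

`stepB`: a bad level `j` without elements of level `j + 1` below two maximal elements is impossible,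
from three named inputs:
* `HSh`: coordinates and shapes of the components (proved, `W_448wd_h84`);
* `HRow`: the rows of level `j` with at least four sites are natural or rotated without pendant
  at the second pair (`RowOK`);
* `HCC`: there is no element (C).
-/

namespace Pool.Agent.GaussPoset.Win

set_option linter.unusedSectionVars false

open Finset

universe u

/-- coordinates and shapes of all components -/
def HSh (P : Type u) [Fintype P] [PartialOrder P] [DecidableEq P] : Prop :=
  ∀ r j, GoodTo P r j → ∃ (lo hi : Tops P → ℕ → ℕ) (e : Tops P → ℕ → ℕ → P),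
    (∀ t : Tops P, Cp.Comp j (t : P) (lo t) (hi t) (e t)) ∧
      ∀ t : Tops P, Wd.Shape j (lo t) (hi t)

/-- INPUT of step A, the levels at most `18` -/
def HFin (P : Type u) [Fintype P] [PartialOrder P] [DecidableEq P] : Prop :=
  ∀ r j, j ≤ 18 → Bad P r j → ∀ z : P, lev z = j + 1 → ¬ Hul.Jn z

/-- INPUT of step B: the rows of level `j` -/
def HRow (P : Type u) [Fintype P] [PartialOrder P] [DecidableEq P] : Prop :=
  ∀ r i, 1 ≤ i → Bad P r (i + 1) → (∀ z : P, lev z = i + 2 → ¬ Hul.Jn z) →
    ∀ t : P, lev t = 0 → RowOK P (i + 1) t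

/-- INPUT of step B, the element (C) -/
def HCC (P : Type u) [Fintype P] [PartialOrder P] [DecidableEq P] : Prop :=
  ∀ r m, 2 ≤ m → Bad P r (2 * m) → (∀ z : P, lev z = 2 * m + 1 → ¬ Hul.Jn z) →
    ∀ (lo hi : Tops P → ℕ → ℕ) (e : Tops P → ℕ → ℕ → P),
      (∀ t : Tops P, Cp.Comp (2 * m) (t : P) (lo t) (hi t) (e t)) →
      (∀ t : Tops P, Wd.Shape (2 * m) (lo t) (hi t)) →
      (∀ t : Tops P, NatT (2 * m) (t : P) ∨ StairShape (2 * m) (lo t) (hi t)) →
      ∀ (t : Tops P) (z : P), StairShape (2 * m) (lo t) (hi t) → lo t (2 * m) = 0 →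
        z ⋖ e t (2 * m) m → z ⋖ e t (2 * m) 0 → False

variable {P : Type u} [Fintype P] [PartialOrder P] [DecidableEq P] {r j : ℕ}

/-- step B at the level `1` -/
lemma stepB_one (hB : Bad P r 1) (hno : ∀ z : P, lev z = 1 + 1 → ¬ Hul.Jn z) : False := by
  apply hB.bad
  have H := hB.gt.H
  refine T6_good hB.gt le_rfl hB.lt hno fun t ht => Or.inr ?_
  have h1 : St.wt0 1 t ⊆ dc t := by
    intro v hv
    rw [St.mem_wt0] at hv
    rw [mem_dc, H.covBy_iff]
    refine ⟨lt_of_le_of_ne hv.2 ?_, by omega⟩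
    rintro rfl
    omega
  have h2 := card_le_card h1
  have h3 := dc_card_le H t
  omega

/-- STEP B -/
theorem stepB (HS : HSh P) (HR : HRow P) (HC : HCC P) :
    ∀ r j, Bad P r j → (∀ z : P, lev z = j + 1 → ¬ Hul.Jn z) → False := by
  intro r j hB hno
  have h := hB.gt
  have hr := hB.lt
  have h1 := hB.one_le
  rcases Nat.lt_or_ge 1 j with hj | hj
  swap
  · obtain rfl : j = 1 := by omega
    exact stepB_one hB hno
  obtain ⟨k, rfl⟩ : ∃ k, j = k + 2 := ⟨j - 2, by omega⟩
  obtain ⟨lo, hi, e, hC, hS⟩ := HS r (k + 2) h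
  have hT : ∀ t : P, lev t = 0 → T6case P (k + 2) t := fun t ht =>
    case_row (i := k + 1) h (by omega) hr hno ht (HR r (k + 1) (by omega) hB hno t ht)
  have hc : ∀ t : Tops P, NatT (k + 2) (t : P) ∨ IsC (k + 2) (lo t) (hi t) (e t) := by
    intro t
    rcases T6_final h (by omega) hr hno hT t.2 with g | ⟨m, X, R, -, hU, -⟩
    · exact Or.inl g
    · exact Or.inr (rotR_cases h hno (hC t) (hS t) R hU)
  by_cases hall : ∀ t : Tops P, NatT (k + 2) (t : P)
  · exact hB.bad (T6_good h (by omega) hr hno fun t ht => Or.inl (hall ⟨t, ht⟩))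
  · push Not at hall
    obtain ⟨t, ht⟩ := hall
    obtain ⟨S, hev, hlo, hhi, z, hz1, hz2⟩ := (hc t).resolve_left ht
    obtain ⟨m, hm⟩ := hev
    have hm' : k + 2 = 2 * m := by omega
    have hm3 : 3 ≤ m := by
      have := S.hi (k + 2) le_rfl
      omega
    rw [show (k + 2) / 2 = m by omega] at hz1
    have hc' : ∀ t : Tops P, NatT (2 * m) (t : P) ∨ StairShape (2 * m) (lo t) (hi t) := by
      intro t
      rw [← hm']
      exact (hc t).imp_right fun g => g.1
    rw [hm'] at hz1 hz2 hlo S hB hno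
    have hC' : ∀ t : Tops P, Cp.Comp (2 * m) (t : P) (lo t) (hi t) (e t) := by
      intro t
      rw [← hm']
      exact hC t
    have hS' : ∀ t : Tops P, Wd.Shape (2 * m) (lo t) (hi t) := by
      intro t
      rw [← hm']
      exact hS t
    exact HC r m (by omega) hB (fun z hz => hno z (by omega)) lo hi e hC' hS' hc' t z S hlo hz1 hz2

end Pool.Agent.GaussPoset.Win

end

/-! From `Pool.Agent.W_448pn_h63.QcA` -/

section

/-!
# Flip parts: the words
(MP_448cb3_co, G2, window `j - 1`)

`nj_flip_narrow`: a flip at the window `j - 1` needs exactly two elements on the level `j - 2`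
(nothing hangs below an element of level `j` with three sites at the window `j - 2`).
-/

set_option autoImplicit false

namespace Pool.Agent.GaussPoset.Win.Pf

set_option linter.unusedSectionVars false

open Finset W4 Wd
open Pool.Agent.GaussPoset.Win.SO (con PN on mem_PN vp F5 mem_F5 PSO N1f mem_N1f)

universe u

variable {P : Type u} [Fintype P] [PartialOrder P] [DecidableEq P] {r j i : ℕ}
  {psi : P → P} {S : Finset P} {p y q u a s b : P} {lo hi : ℕ → ℕ} {e : ℕ → ℕ → P}

section nj

variable (h : NJ P r j) (hij : i + 1 = j) (hi1 : 1 ≤ i)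
include h hij hi1

/-- the row of level `j - 2` has two elements, the place of the pendant in the row of level `j` -/
theorem nj_flip_narrow (t : Tops P) (C : Cp.Comp (i + 1) (t : P) lo hi e)
    (F : Flp i (SS i t) p y q u a s b) : 2 ≤ i ∧ hi i = lo i + 2 ∧ lo (i - 1) = lo i ∧
      hi (i - 1) = lo i + 1 ∧ (ZU i (SS i t)).card = 1 ∧
    ((y = e (i + 1) (hi i) ∧ lo (i - 1) = lo (i - 2) + 1 ∧
        (Sg i (SS i t) b).card = (if lo (i + 1) = lo i then 1 else 0) ∧
        (Sg i (SS i t) a).card = (if hi (i + 1) = hi i + 1 then 1 else 0) ∧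
        (FU' i (SS i t)).card = if 3 ≤ i ∧ lo (i - 2) = lo (i - 3) + 1 then 1 else 0) ∨
      (y = e (i + 1) (lo i + 1) ∧ hi (i - 1) = hi (i - 2) ∧
        (Sg i (SS i t) b).card = (if hi (i + 1) = hi i + 1 then 1 else 0) ∧
        (Sg i (SS i t) a).card = (if lo (i + 1) = lo i then 1 else 0) ∧
        (FU' i (SS i t)).card = if 3 ≤ i ∧ hi (i - 3) = hi (i - 2) then 1 else 0)) := by
  classical
  obtain ⟨r1, r2, r3, -⟩ := nj_flip_row h hij hi1 t C F
  obtain ⟨psi, hM⟩ := good_mat h.g.H (h.g.good i (by omega))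
  have Q := nj_pso h hij hi1 hM t
  have g : GoodTo P r (i + 1) := by rw [hij]; exact h.g
  have W := C.toWin
  have hS : ∀ y, lev y ≤ i + 1 → (y ∈ SS i t ↔ y ≤ (t : P)) := fun y hy =>
    h.mem (by omega) t (by omega)
  obtain ⟨k, rfl⟩ : ∃ k, i = k + 2 := ⟨i - 2, by omega⟩
  obtain ⟨hV, hpos⟩ := flip_pos W g t.2 hS F rfl Q.hC
  have H := h.g.H
  have l1 : hi (k + 1) ≤ hi (k + 2) := W.hi_le (k + 1) (by omega)
  have l3 : hi (k + 2) ≤ hi (k + 1) + 1 := W.hi_ge (k + 1) (by omega)
  have l4 := W.hi_ge k (by omega)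
  have m1 : lo (k + 1) ≤ lo (k + 2) := W.lo_le (k + 1) (by omega)
  have m2 := W.lo_le k (by omega)
  have m3 : lo (k + 2) ≤ lo (k + 1) + 1 := W.lo_ge (k + 1) (by omega)
  have m4 := W.lo_ge k (by omega)
  have i1 : k + 2 - 1 = k + 1 := by omega
  have i2 : k + 2 - 2 = k := by omega
  have i3 : k + 2 - 3 = k - 1 := by omega
  have hL := sg_left W g t.2 hS hi1 (by omega)
  have hR := sg_right W g t.2 hS hi1 (by omega)
  rw [i1] at hL hR
  rw [i1, i2, i3]
  -- the place of `y`
  have hly := F.ly
  have hyt : y ≤ (t : P) := (hS y (by omega)).1 (F.yC Q.hC)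
  have haC : a ∈ SS (k + 2) t := Q.hC.up (F.yC Q.hC) F.ya
  have la := F.la
  have ls := F.ls
  have lb := F.lb
  have hsC := F.sC
  obtain ⟨ny, y1, y2, y3⟩ := W.surj (k + 2 + 1) (by omega) y (by omega) hyt
  obtain ⟨na, a1, a2, a3⟩ := W.surj (k + 2) (by omega) a la ((hS a (by omega)).1 haC)
  obtain ⟨ns, s1, s2, s3⟩ := W.surj (k + 2) (by omega) s ls ((hS s (by omega)).1 hsC)
  have ca := (W.cov (k + 2) (by omega) ny na y1 y2 a1 a2).1 (by rw [y3, a3]; exact F.ya)
  have cs := (W.cov (k + 2) (by omega) ny ns y1 y2 s1 s2).1 (by rw [y3, s3]; exact F.ys)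
  have nas : na ≠ ns := fun he => F.as (by rw [← a3, ← s3, he])
  -- nothing below an element with three sites
  have hlaw : ¬ (lo (k + 1) + 2 ≤ ny ∧ ny ≤ hi (k + 1)) := by
    intro hc
    obtain ⟨-, hN, -⟩ := h.law (i := k + 1) (by omega) (by omega) (by rw [← hij]; exact C)
    have hup : up (k + 1) y = 3 := by
      have := (W.up_three g t.2 (i := k + 1) (a := ny) (by omega) y1 y2).2 hc
      have e0 : e (k + 1 + 2) ny = y := y3
      rw [e0] at this
      exact this
    have hyS : y ∈ SS (k + 1) t := (h.mem (i := k + 1) (by omega) t (by omega)).2 hyt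
    have hpt : p ≤ (t : P) := by
      rcases lt_or_eq_of_le (show p ≤ y from F.py.le) with hh | hh
      · exact hh.le.trans hyt
      · rw [hh]; exact hyt
    have hlp := F.lp
    have hpS : p ∈ SS (k + 1) t := (h.mem (i := k + 1) (by omega) t (by omega)).2 hpt
    have : p ∈ N1f (k + 1) (SS (k + 1) t) := mem_N1f.2 ⟨hpS, Or.inl ⟨by omega, y,
      mem_ZL.2 ⟨hyS, by omega, hup⟩, F.cp⟩⟩
    rw [hN] at this
    exact notMem_empty p this
  refine ⟨r1, r2, ?_⟩
  rcases hpos with ⟨g1, g2, g3, g4, g5⟩ | ⟨g1, g2, g3, g4, g5⟩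
  · -- left case
    have hna : na = hi (k + 2) := by
      refine W.inj' (by omega) a1 a2 (by omega) le_rfl ?_
      rw [a3, g4]
    have hb : (ns : ℕ) ≠ lo (k + 2) := by
      intro he
      apply F.sb
      rw [← s3, he, g3]
    have hny : ny = hi (k + 2) := by omega
    have e4 : hi (k + 1) = lo (k + 2) + 1 := by omega
    have hU := fup_left W g t.2 hS rfl (by omega) g5 Q.hC
    refine ⟨g1, e4, r3, Or.inl ⟨by rw [← y3, hny], g2, ?_, ?_, ?_⟩⟩
    · rw [g3, hL, if_neg (show ¬ lo (k + 2) = lo (k + 1) + 1 by omega), add_zero]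
    · rw [g4, hR, if_neg (show ¬ hi (k + 1) = hi (k + 2) by omega), add_zero]
    · rw [FU_eq Q F, hU]
      refine if_congr ?_ rfl rfl
      constructor
      · rintro ⟨c1, c2⟩
        exact ⟨by omega, c2⟩
      · rintro ⟨c1, c2⟩
        exact ⟨by omega, c2⟩
  · have hna : na = lo (k + 2) := by
      refine W.inj' (by omega) a1 a2 le_rfl (by omega) ?_
      rw [a3, g4]
    have hb : (ns : ℕ) ≠ hi (k + 2) := by
      intro he
      apply F.sb
      rw [← s3, he, g3]
    have hny : ny = lo (k + 2) + 1 := by omega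
    have e4 : lo (k + 1) = lo (k + 2) := by omega
    have hU := fup_right W g t.2 hS rfl (by omega) g5 Q.hC
    refine ⟨e4, by omega, r3, Or.inr ⟨by rw [← y3, hny], g2, ?_, ?_, ?_⟩⟩
    · rw [g3, hR, if_neg (show ¬ hi (k + 1) = hi (k + 2) by omega), add_zero]
    · rw [g4, hL, if_neg (show ¬ lo (k + 2) = lo (k + 1) + 1 by omega), add_zero]
    · rw [FU_eq Q F, hU]
      refine if_congr ?_ rfl rfl
      constructor
      · rintro ⟨c1, c2⟩
        exact ⟨by omega, c2⟩
      · rintro ⟨c1, c2⟩
        exact ⟨by omega, c2⟩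

end nj

end Pool.Agent.GaussPoset.Win.Pf

end

/-! From `Pool.Agent.W_448pn_h63.QcB` -/

section

/-!
# Flip parts: the words
(MP_448cb3_co, G2, window `j - 1`)

The shapes with a flip at the window `j - 1`: the late words `[OC OO CO]`, `[OC OO OO]` (`j = a + 3`),
`[OC CO CO OO CC]` (`a = 4`, `j = 9`), the word `[OC CO CO OO CO]` (excluded by the degrees in the row of
level `j`) and the open stair with `j = 5` (excluded by `F5.NJ_no_flip5`).
-/

set_option autoImplicit false

namespace Pool.Agent.GaussPoset.Win.Pf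

set_option linter.unusedSectionVars false

open Finset W4 Wd

/-- number of closed letters on the left among the first `n` letters -/
def lsum (w : List Ltr) (n : ℕ) : ℕ := ((w.take n).filter (fun l => l.1)).length

/-- one plus the number of open letters on the right among the first `n` letters -/
def rsum (w : List Ltr) (n : ℕ) : ℕ := 1 + ((w.take n).filter (fun l => l.2)).length

/-- the condition on the word -/
def FlW (w : List Ltr) : Prop :=
  3 ≤ w.length ∧ rsum w (w.length - 1) = lsum w (w.length - 1) + 2 ∧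
    lsum w (w.length - 2) = lsum w (w.length - 1) ∧
    rsum w (w.length - 2) = lsum w (w.length - 1) + 1 ∧
    (lsum w (w.length - 2) = lsum w (w.length - 3) + 1 ∨
      rsum w (w.length - 2) = rsum w (w.length - 3))

instance (w : List Ltr) : Decidable (FlW w) := by unfold FlW; infer_instance

lemma lateW_FlW (a : ℕ) : ∀ w ∈ lateW a, FlW w → (w = [OC, OO, CO] ∨ w = [OC, OO, OO] ∨
    w = [OC, CO, CO, OO, CO] ∨ w = [OC, CO, CO, OO, Wd.CC]) := by
  unfold lateW
  split_ifs <;> first | omega | decide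

universe u

variable {P : Type u} [Fintype P] [PartialOrder P] [DecidableEq P] {r j i : ℕ}
  {lo hi : ℕ → ℕ} {e : ℕ → ℕ → P}

/-- the ends of the rows from the word -/
lemma rows_sum {a d : ℕ} {w : List Ltr} (h : word lo hi a d = w) (h3 : lo a = 0 ∧ hi a = 1)
    (hlo : ∀ k, k < a + d → lo (k + 1) = lo k ∨ lo (k + 1) = lo k + 1)
    (hhi : ∀ k, k < a + d → hi (k + 1) = hi k ∨ hi (k + 1) = hi k + 1) {n : ℕ} (hn : n ≤ d) :
    lo (a + n) = lsum w n ∧ hi (a + n) = rsum w n := by
  obtain ⟨h1, h2⟩ := Win.word_vals h hlo hhi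
  induction n with
  | zero =>
    unfold lsum rsum
    simp [h3.1, h3.2]
  | succ n ih =>
    obtain ⟨k1, k2⟩ := ih (by omega)
    have hlt : n < w.length := by omega
    obtain ⟨b, c, hbc⟩ : ∃ b c, w[n]? = some (b, c) := by
      rw [List.getElem?_eq_getElem hlt]
      exact ⟨_, _, rfl⟩
    obtain ⟨g1, g2⟩ := h2 n b c hbc
    have e1 : w.take (n + 1) = w.take n ++ [(b, c)] := by
      rw [List.take_succ, hbc]
      rfl
    rw [← add_assoc, g1, g2, k1, k2]
    unfold lsum rsum
    rw [e1, List.filter_append, List.filter_append, List.length_append, List.length_append]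
    cases b <;> cases c <;> simp <;> omega

lemma Qw_get {d n : ℕ} (hn : n < d) : ∃ b, (Qw d)[n]? = some (b, false) := by
  unfold Qw
  rcases n with _ | n
  · exact ⟨true, rfl⟩
  · refine ⟨false, ?_⟩
    rw [List.getElem?_cons_succ, List.getElem?_replicate, if_pos (by omega)]
    rfl

variable {psi : P → P} {p y q u a s b : P}

section nj

variable (h : NJ P r j) (hij : i + 1 = j) (hi1 : 1 ≤ i)
include h hij hi1

/-- THE WORDS WITH A FLIP, the numbers and the place of the pendant -/
theorem nj_flip_word (t : Tops P) (C : Cp.Comp (i + 1) (t : P) lo hi e) (S : Shape (i + 1) lo hi)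
    (F : Flp i (SS i t) p y q u a s b) :
    hi i = lo i + 2 ∧ (ZU i (SS i t)).card = 1 ∧
    ((y = e (i + 1) (lo i + 1) ∧ lo (i + 1) = lo i + 1 ∧ hi (i + 1) = lo i + 3 ∧
        (FU' i (SS i t)).card = 0 ∧ (Sg i (SS i t) a).card = 0 ∧ (Sg i (SS i t) b).card = 1) ∨
      (y = e (i + 1) (lo i + 1) ∧ lo (i + 1) = lo i ∧ hi (i + 1) = lo i + 3 ∧
        (FU' i (SS i t)).card = 0 ∧ (Sg i (SS i t) a).card = 1 ∧ (Sg i (SS i t) b).card = 1) ∨
      (y = e (i + 1) (lo i + 2) ∧ lo (i + 1) = lo i + 1 ∧ hi (i + 1) = lo i + 2 ∧ i = 8 ∧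
        (FU' i (SS i t)).card = 1 ∧ (Sg i (SS i t) a).card = 0 ∧ (Sg i (SS i t) b).card = 0) ∨
      (y = e (i + 1) (lo i + 2) ∧ lo (i + 1) = lo i + 1 ∧ hi (i + 1) = lo i + 3) ∨
      (StairShape (i + 1) lo hi ∧ i = 4 ∧ lo i = 0 ∧ y = e (i + 1) (lo i + 1))) := by
  classical
  obtain ⟨r1, r2, r3, r4, r5, r6⟩ := nj_flip_narrow h hij hi1 t C F
  refine ⟨r2, r5, ?_⟩
  have hle : ∀ k, k ≤ i + 1 → hi k ≤ k := by
    intro k
    induction k with
    | zero => intro _; rw [C.hi_zero]
    | succ k ih =>
      intro hk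
      have h1 := C.hi_step k (by omega)
      have h2 := ih (by omega)
      omega
  obtain ⟨m, rfl⟩ : ∃ m, i = m + 2 := ⟨i - 2, by omega⟩
  simp only [show m + 2 - 1 = m + 1 by omega, show m + 2 - 2 = m by omega,
    show m + 2 - 3 = m - 1 by omega] at r3 r4 r6
  rcases S with h1 | ⟨h1, h2⟩ | ⟨h0, h2⟩ | ⟨h0, h1, h2⟩ | ⟨h0, h1⟩ | ⟨a', h0, h1, h2, h3, hN, h4⟩
  · -- light
    have := h1 (m + 2) (by omega)
    omega
  · -- rect
    exfalso
    have g1 := h2.lo (m + 1) (by omega)
    have g2 := h2.hi (m + 1) (by omega)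
    have g3 := hle (m + 1) (by omega)
    have g4 := hle m (by omega)
    have g5 := h2.lo m (by omega)
    rw [show m + 1 + 1 = m + 2 from rfl] at g1 g2
    rcases r6 with ⟨-, k1, -⟩ | ⟨-, k1, -⟩
    · omega
    · omega
  · -- stair
    have g1 := h2.lo (m + 1) (by omega)
    have g2 := h2.hi (m + 2) (by omega)
    have g3 := h2.hi (m + 1) (by omega)
    have g4 := h2.hi m (by omega)
    have g5 := h2.lo m (by omega)
    rw [show m + 1 + 1 = m + 2 from rfl] at g1
    rcases r6 with ⟨-, k1, -⟩ | ⟨k0, k1, -⟩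
    · exfalso
      omega
    · exact Or.inr (Or.inr (Or.inr (Or.inr ⟨h2, by omega, by omega, k0⟩)))
  · exfalso
    have : m = 0 := by omega
    subst this
    have e1 : hi (0 + 2) = 1 := h2.2.1
    omega
  · exfalso
    obtain ⟨⟨-, -, -, -, -, k1, -⟩, ⟨-, -, -, -, -, k2, -⟩⟩ := h1
    have : m = 3 := by omega
    subst this
    have e1 : lo (3 + 2) = 1 := k1
    have e2 : hi (3 + 2) = 2 := k2
    omega
  · -- late
    have ha : a' ≤ m + 1 := by
      by_contra hcon
      rcases Nat.lt_or_ge (m + 2) a' with h5 | h5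
      · have := h2 (m + 2) h5
        omega
      · have e1 : a' = m + 2 := by omega
        rw [e1] at h3
        omega
    obtain ⟨d, hd⟩ : ∃ d, m + 2 + 1 = a' + d := ⟨m + 2 + 1 - a', by omega⟩
    have hd2 : m + 2 + 1 - a' = d := by omega
    rw [hd2] at h4
    have hlo : ∀ k, k < a' + d → lo (k + 1) = lo k ∨ lo (k + 1) = lo k + 1 := fun k hk =>
      C.lo_step k (by omega)
    have hhi : ∀ k, k < a' + d → hi (k + 1) = hi k ∨ hi (k + 1) = hi k + 1 := fun k hk =>
      C.hi_step k (by omega)
    rcases h4 with ⟨⟨q1, q2⟩, h4⟩ | h4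
    · exfalso
      obtain ⟨-, hv⟩ := Win.word_vals h4 hlo hhi
      obtain ⟨b', hb'⟩ := Qw_get (d := d) (n := d - 2) (by omega)
      have := (hv _ _ _ hb').2
      have e1 : a' + (d - 2) + 1 = m + 2 := by omega
      have e2 : a' + (d - 2) = m + 1 := by omega
      rw [e1, e2] at this
      simp at this
      omega
    · set w := word lo hi a' d with hw
      have hwl : w.length = d := by rw [hw]; simp
      have hs := fun n (hn : n ≤ d) => rows_sum (w := w) hw.symm h3 hlo hhi hn
      have e1 := hs (d - 1) (by omega)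
      have e2 := hs (d - 2) (by omega)
      have x1 : a' + (d - 1) = m + 2 := by omega
      have x2 : a' + (d - 2) = m + 1 := by omega
      rw [x1] at e1
      rw [x2] at e2
      have hd3 : 3 ≤ d := by
        by_contra hcon
        have hd' : d = 2 := by omega
        have x3 : m + 1 = a' := by omega
        have x4 := h2 m (by omega)
        rw [x3] at r3 r4 r6
        rcases r6 with ⟨-, k1, -⟩ | ⟨-, k1, -⟩
        · omega
        · omega
      have e3 := hs (d - 3) (by omega)
      have x3 : a' + (d - 3) = m := by omega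
      rw [x3] at e3
      have hF : FlW w := by
        unfold FlW
        rw [hwl]
        refine ⟨hd3, by omega, by omega, by omega, ?_⟩
        rcases r6 with ⟨-, k1, -⟩ | ⟨-, k1, -⟩
        · exact Or.inl (by omega)
        · exact Or.inr (by omega)
      have e0 := hs d le_rfl
      rw [← hd] at e0
      have x5 : m + 2 + 1 = m + 3 := rfl
      rcases lateW_FlW a' w h4 hF with hc | hc | hc | hc
      · -- OC OO CO
        have hdv : d = 3 := by rw [← hwl, hc]; rfl
        subst hdv
        have y1 := h2 (m - 1) (by omega)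
        rw [hc] at e0 e1 e2 e3
        simp [lsum, rsum, OC, OO, CO] at e0 e1 e2 e3
        left
        rcases r6 with ⟨-, k1, -⟩ | ⟨k0, k1, k2, k3, k4⟩
        · exfalso
          omega
        · refine ⟨k0, by omega, by omega, ?_, ?_, ?_⟩
          · rw [k4, if_neg]
            rintro ⟨-, c2⟩
            omega
          · rw [k3, if_neg (by omega)]
          · rw [k2, if_pos (by omega)]
      · -- OC OO OO
        have hdv : d = 3 := by rw [← hwl, hc]; rfl
        subst hdv
        have y1 := h2 (m - 1) (by omega)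
        rw [hc] at e0 e1 e2 e3
        simp [lsum, rsum, OC, OO] at e0 e1 e2 e3
        right; left
        rcases r6 with ⟨-, k1, -⟩ | ⟨k0, k1, k2, k3, k4⟩
        · exfalso
          omega
        · refine ⟨k0, by omega, by omega, ?_, ?_, ?_⟩
          · rw [k4, if_neg]
            rintro ⟨-, c2⟩
            omega
          · rw [k3, if_pos (by omega)]
          · rw [k2, if_pos (by omega)]
      · -- OC CO CO OO CO
        have hdv : d = 5 := by rw [← hwl, hc]; rfl
        subst hdv
        rw [hc] at e0 e1 e2 e3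
        simp [lsum, rsum, OC, OO, CO] at e0 e1 e2 e3
        right; right; right; left
        rcases r6 with ⟨k0, k1, -⟩ | ⟨-, k1, -⟩
        · refine ⟨by rw [k0, r2], by omega, by omega⟩
        · exfalso
          omega
      · -- OC CO CO OO CC
        have hdv : d = 5 := by rw [← hwl, hc]; rfl
        subst hdv
        have ha4 : a' = 4 := by
          by_contra hne
          rw [hc] at h4
          revert h4
          unfold lateW
          rw [if_neg (show ¬ a' = 4 from hne)]
          split_ifs <;> decide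
        have e4 := hs 1 (by omega)
        have x6 : a' + 1 = m - 1 := by omega
        rw [x6] at e4
        rw [hc] at e0 e1 e2 e3 e4
        simp [lsum, rsum, OC, OO, CO, Wd.CC] at e0 e1 e2 e3 e4
        right; right; left
        rcases r6 with ⟨k0, k1, k2, k3, k4⟩ | ⟨-, k1, -⟩
        · refine ⟨by rw [k0, r2], by omega, by omega, by omega, ?_, ?_, ?_⟩
          · rw [k4, if_pos ⟨by omega, by omega⟩]
          · rw [k3, if_neg (by omega)]
          · rw [k2, if_neg (by omega)]
        · exfalso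
          omega

end nj

end Pool.Agent.GaussPoset.Win.Pf

end

/-! From `Pool.Agent.W_448v8_h97.VaA` -/

section

/-!
MP_448cb3_co, G2, case B, `j = 8` (Step 0): the words.  At the window `7` an upper pendant pattern lives
only over the words below; the rows of the levels `4 .. 8` are explicit.  helper97.
-/

set_option autoImplicit false

namespace Pool.Agent.GaussPoset.Wd

open Win.Pf (lsum rsum rows_sum)

variable {lo hi : ℕ → ℕ}

/-- the two upper pendant patterns at the window `7` -/
def Pu7 (lo hi : ℕ → ℕ) : Prop :=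
  lo 7 < hi 7 ∧ ((lo 6 = lo 5 + 1 ∧ lo 7 = lo 6) ∨ (hi 6 = hi 5 ∧ hi 7 = hi 6 + 1))

/-- the list of the rows with an upper pendant pattern at the window `7` -/
def Tab7 (lo hi : ℕ → ℕ) : Prop :=
  -- `a = 5`, `[OC, OO, OO]`
  ((lo 4 = 0 ∧ hi 4 = 0 ∧ lo 5 = 0 ∧ hi 5 = 1 ∧ lo 6 = 0 ∧ hi 6 = 1 ∧ lo 7 = 0 ∧ hi 7 = 2 ∧
    lo 8 = 0 ∧ hi 8 = 3) ∨
  -- `a = 5`, `[OC, OO, CO]`
  (lo 4 = 0 ∧ hi 4 = 0 ∧ lo 5 = 0 ∧ hi 5 = 1 ∧ lo 6 = 0 ∧ hi 6 = 1 ∧ lo 7 = 0 ∧ hi 7 = 2 ∧
    lo 8 = 1 ∧ hi 8 = 3) ∨
  -- `a = 5`, `[OC, CO, CO]`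
  (lo 4 = 0 ∧ hi 4 = 0 ∧ lo 5 = 0 ∧ hi 5 = 1 ∧ lo 6 = 0 ∧ hi 6 = 1 ∧ lo 7 = 1 ∧ hi 7 = 2 ∧
    lo 8 = 2 ∧ hi 8 = 3) ∨
  -- `a = 7`
  (lo 4 = 0 ∧ hi 4 = 0 ∧ lo 5 = 0 ∧ hi 5 = 0 ∧ lo 6 = 0 ∧ hi 6 = 0 ∧ lo 7 = 0 ∧ hi 7 = 1 ∧
    lo 8 ≤ 1 ∧ 1 ≤ hi 8 ∧ hi 8 ≤ 2 ∧ (lo 8 = 1 → hi 8 = 1)) ∨
  -- `a = 3`, `[OC, CO, CO, OC, CC]`
  (lo 4 = 0 ∧ hi 4 = 1 ∧ lo 5 = 1 ∧ hi 5 = 2 ∧ lo 6 = 2 ∧ hi 6 = 3 ∧ lo 7 = 2 ∧ hi 7 = 3 ∧
    lo 8 = 3 ∧ hi 8 = 3))

/-- the late words of length five over `a = 3` -/
lemma late3 : ∀ w ∈ lateW 3, w.length = 5 → w = [OC, CO, CO, OC, CC] := by decide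

lemma late4 : ∀ w ∈ lateW 4, w.length = 4 → w = [OC, OO, CO, OO] ∨ w = [OC, CO, CO, OO] := by
  decide

lemma late5 : ∀ w ∈ lateW 5, w.length = 3 → w = [OC, OO, OO] ∨ w = [OC, OO, CO] ∨
    w = [OC, CO, CO] := by
  decide

lemma late6' : ∀ w ∈ lateW 6, w.length = 2 → w = [OC, OO] ∨ w = [OC, CO] := by decide

lemma late7 : ∀ w ∈ lateW 7, w.length = 1 → w = [OO] ∨ w = [OC] := by decide

/-- THE LIST -/
theorem tab7 (hlo : ∀ k, k < 8 → lo (k + 1) = lo k ∨ lo (k + 1) = lo k + 1)
    (hhi : ∀ k, k < 8 → hi (k + 1) = hi k ∨ hi (k + 1) = hi k + 1) (h0 : hi 0 = 0)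
    (S : Shape 8 lo hi) (hP : Pu7 lo hi) : Tab7 lo hi := by
  have hle : ∀ k, k ≤ 8 → hi k ≤ k := by
    intro k
    induction k with
    | zero => intro _; omega
    | succ k ih =>
      intro hk
      have h1 := hhi k (by omega)
      have h2 := ih (by omega)
      omega
  obtain ⟨hV, hP⟩ := hP
  rcases S with h1 | ⟨h1, h2⟩ | ⟨-, h2⟩ | ⟨h1, -, -⟩ | ⟨h1, -⟩ | ⟨a, a3, a8, h2, h3, hN, h4⟩
  · have := h1 7 (by omega)
    omega
  · exfalso
    have g1 := h2.lo 5 (by omega)
    have g2 := h2.lo 6 (by omega)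
    have g3 := h2.hi 5 (by omega)
    have g4 := h2.hi 6 (by omega)
    have g5 := hle 5 (by omega)
    simp only [Nat.reduceAdd] at g1 g2 g3 g4
    omega
  · exfalso
    have g1 := h2.lo 5 (by omega)
    have g2 := h2.lo 6 (by omega)
    have g3 := h2.hi 5 (by omega)
    have g4 := h2.hi 6 (by omega)
    simp only [Nat.reduceAdd] at g1 g2
    omega
  · omega
  · omega
  · -- late
    obtain ⟨d, hd⟩ : ∃ d, 8 = a + d := ⟨8 - a, by omega⟩
    have hd2 : 8 - a = d := by omega
    rw [hd2] at h4
    have hlo' : ∀ k, k < a + d → lo (k + 1) = lo k ∨ lo (k + 1) = lo k + 1 := fun k hk =>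
      hlo k (by omega)
    have hhi' : ∀ k, k < a + d → hi (k + 1) = hi k ∨ hi (k + 1) = hi k + 1 := fun k hk =>
      hhi k (by omega)
    rcases h4 with ⟨⟨q1, q2⟩, h4⟩ | h4
    · obtain ⟨-, hv⟩ := Win.word_vals h4 hlo' hhi'
      have v0 := hv 0 true false (by
        obtain ⟨n, rfl⟩ : ∃ n, d = n + 1 := ⟨d - 1, by omega⟩
        rfl)
      simp only [if_true, Bool.false_eq_true, if_false, Nat.add_zero] at v0
      rcases Nat.lt_or_ge a 7 with ha | ha
      · exfalso
        -- one element on the level seven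
        have e7 : ∀ n, n + 1 ≤ d → lo (a + n + 1) = 1 ∧ hi (a + n + 1) = 1 := by
          intro n
          induction n with
          | zero => intro _; rw [Nat.add_zero]; omega
          | succ n ih =>
            intro hn
            obtain ⟨k1, k2⟩ := ih (by omega)
            have v1 := hv (n + 1) false false (by
              obtain ⟨m, rfl⟩ : ∃ m, d = m + 1 := ⟨d - 1, by omega⟩
              unfold Qw
              rw [List.getElem?_cons_succ, List.getElem?_replicate, if_pos (by omega)]
              rfl)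
            simp only [Bool.false_eq_true, if_false, Nat.add_zero] at v1
            rw [show a + (n + 1) + 1 = a + (n + 1) + 1 from rfl, v1.1, v1.2, ← Nat.add_assoc, k1, k2]
            exact ⟨rfl, rfl⟩
        have := e7 (7 - a - 1) (by omega)
        rw [show a + (7 - a - 1) + 1 = 7 by omega] at this
        omega
      · obtain rfl : a = 7 := by omega
        have e4 := h2 4 (by omega)
        have e5 := h2 5 (by omega)
        have e6 := h2 6 (by omega)
        simp only [Nat.reduceAdd] at v0
        unfold Tab7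
        omega
    · have hwl : (word lo hi a d).length = d := by simp
      have hs := fun n (hn : n ≤ d) => rows_sum (w := word lo hi a d) rfl h3 hlo' hhi' hn
      obtain rfl | rfl | rfl | rfl | rfl | rfl :
        a = 3 ∨ a = 4 ∨ a = 5 ∨ a = 6 ∨ a = 7 ∨ a = 8 := by omega
      · obtain rfl : d = 5 := by omega
        have hw := late3 _ h4 hwl
        rw [hw] at hs
        have s1 := hs 1 (by omega)
        have s2 := hs 2 (by omega)
        have s3 := hs 3 (by omega)
        have s4 := hs 4 (by omega)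
        have s5 := hs 5 (by omega)
        simp only [Nat.reduceAdd] at s1 s2 s3 s4 s5
        have t1 : lsum [OC, CO, CO, OC, CC] 1 = 0 ∧ rsum [OC, CO, CO, OC, CC] 1 = 1 := by decide
        have t2 : lsum [OC, CO, CO, OC, CC] 2 = 1 ∧ rsum [OC, CO, CO, OC, CC] 2 = 2 := by decide
        have t3 : lsum [OC, CO, CO, OC, CC] 3 = 2 ∧ rsum [OC, CO, CO, OC, CC] 3 = 3 := by decide
        have t4 : lsum [OC, CO, CO, OC, CC] 4 = 2 ∧ rsum [OC, CO, CO, OC, CC] 4 = 3 := by decide
        have t5 : lsum [OC, CO, CO, OC, CC] 5 = 3 ∧ rsum [OC, CO, CO, OC, CC] 5 = 3 := by decide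
        unfold Tab7
        omega
      · exfalso
        obtain rfl : d = 4 := by omega
        rcases late4 _ h4 hwl with hw | hw
        · rw [hw] at hs
          have s1 := hs 1 (by omega)
          have s2 := hs 2 (by omega)
          have s3 := hs 3 (by omega)
          simp only [Nat.reduceAdd] at s1 s2 s3
          have t1 : lsum [OC, OO, CO, OO] 1 = 0 ∧ rsum [OC, OO, CO, OO] 1 = 1 := by decide
          have t2 : lsum [OC, OO, CO, OO] 2 = 0 ∧ rsum [OC, OO, CO, OO] 2 = 2 := by decide
          have t3 : lsum [OC, OO, CO, OO] 3 = 1 ∧ rsum [OC, OO, CO, OO] 3 = 3 := by decide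
          omega
        · rw [hw] at hs
          have s1 := hs 1 (by omega)
          have s2 := hs 2 (by omega)
          have s3 := hs 3 (by omega)
          simp only [Nat.reduceAdd] at s1 s2 s3
          have t1 : lsum [OC, CO, CO, OO] 1 = 0 ∧ rsum [OC, CO, CO, OO] 1 = 1 := by decide
          have t2 : lsum [OC, CO, CO, OO] 2 = 1 ∧ rsum [OC, CO, CO, OO] 2 = 2 := by decide
          have t3 : lsum [OC, CO, CO, OO] 3 = 2 ∧ rsum [OC, CO, CO, OO] 3 = 3 := by decide
          omega
      · obtain rfl : d = 3 := by omega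
        have e4 := h2 4 (by omega)
        rcases late5 _ h4 hwl with hw | hw | hw
        · rw [hw] at hs
          have s1 := hs 1 (by omega)
          have s2 := hs 2 (by omega)
          have s3 := hs 3 (by omega)
          simp only [Nat.reduceAdd] at s1 s2 s3
          have t1 : lsum [OC, OO, OO] 1 = 0 ∧ rsum [OC, OO, OO] 1 = 1 := by decide
          have t2 : lsum [OC, OO, OO] 2 = 0 ∧ rsum [OC, OO, OO] 2 = 2 := by decide
          have t3 : lsum [OC, OO, OO] 3 = 0 ∧ rsum [OC, OO, OO] 3 = 3 := by decide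
          unfold Tab7
          omega
        · rw [hw] at hs
          have s1 := hs 1 (by omega)
          have s2 := hs 2 (by omega)
          have s3 := hs 3 (by omega)
          simp only [Nat.reduceAdd] at s1 s2 s3
          have t1 : lsum [OC, OO, CO] 1 = 0 ∧ rsum [OC, OO, CO] 1 = 1 := by decide
          have t2 : lsum [OC, OO, CO] 2 = 0 ∧ rsum [OC, OO, CO] 2 = 2 := by decide
          have t3 : lsum [OC, OO, CO] 3 = 1 ∧ rsum [OC, OO, CO] 3 = 3 := by decide
          unfold Tab7
          omega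
        · rw [hw] at hs
          have s1 := hs 1 (by omega)
          have s2 := hs 2 (by omega)
          have s3 := hs 3 (by omega)
          simp only [Nat.reduceAdd] at s1 s2 s3
          have t1 : lsum [OC, CO, CO] 1 = 0 ∧ rsum [OC, CO, CO] 1 = 1 := by decide
          have t2 : lsum [OC, CO, CO] 2 = 1 ∧ rsum [OC, CO, CO] 2 = 2 := by decide
          have t3 : lsum [OC, CO, CO] 3 = 2 ∧ rsum [OC, CO, CO] 3 = 3 := by decide
          unfold Tab7
          omega
      · exfalso
        obtain rfl : d = 2 := by omega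
        have e5 := h2 5 (by omega)
        have v1 := hlo 6 (by omega)
        rcases late6' _ h4 hwl with hw | hw
        · rw [hw] at hs
          have s1 := hs 1 (by omega)
          simp only [Nat.reduceAdd] at s1
          have t1 : lsum [OC, OO] 1 = 0 ∧ rsum [OC, OO] 1 = 1 := by decide
          omega
        · rw [hw] at hs
          have s1 := hs 1 (by omega)
          simp only [Nat.reduceAdd] at s1
          have t1 : lsum [OC, CO] 1 = 0 ∧ rsum [OC, CO] 1 = 1 := by decide
          omega
      · obtain rfl : d = 1 := by omega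
        have e4 := h2 4 (by omega)
        have e5 := h2 5 (by omega)
        have e6 := h2 6 (by omega)
        rcases late7 _ h4 hwl with hw | hw
        · rw [hw] at hs
          have s1 := hs 1 (by omega)
          simp only [Nat.reduceAdd] at s1
          have t1 : lsum [OO] 1 = 0 ∧ rsum [OO] 1 = 2 := by decide
          unfold Tab7
          omega
        · rw [hw] at hs
          have s1 := hs 1 (by omega)
          simp only [Nat.reduceAdd] at s1
          have t1 : lsum [OC] 1 = 0 ∧ rsum [OC] 1 = 1 := by decide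
          unfold Tab7
          omega
      · exfalso
        have e7 := h2 7 (by omega)
        omega

end Pool.Agent.GaussPoset.Wd

end
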