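import Mathlib
import Pool.Agent.W_448zz_h61.Ns
import Pool.Agent.W_448zz_h61.M212
import Pool.Agent.W_448zz_h61.M214

/-! From `Pool.Agent.W_448j6_h22.KbD` -/

/-!
MP_448cb3_co, G2, case B, window `j`: the logarithmic form of a part with four sites and the pattern R (a
lost pair at the left end, a lower double over the two ends), `w32` free.  The proofs follow helper15
(W_448kf_h15).
-/

namespace Pool.Agent.GaussPoset.Win.W4

set_option linter.unusedSectionVars false

open Finset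
open Pool.Agent.GaussPoset.Win.SO (PN vp con on mem_PN vp_PD vp_PU)

universe u

variable {P : Type u} [Fintype P] [PartialOrder P] [DecidableEq P] {r i : ℕ}
variable {psi : P → P} {C K : Finset P} {w v : P} {x : ℕ → P}

/-- the pattern R with four sites, `w32` free; the edge `3` is the pair of the two ends -/
structure Rg (r i : ℕ) (K : Finset P) (psi : P → P) (C : Finset P) (w v : P) (x : ℕ → P) :
    Prop where
  W : PRow r i C 3 x
  Q : K5 r i K psi C w v
  hx : x 4 = x 0
  hw : uc w = {x 3, x 0}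
  hv : dc v = {x 0, x 1}
  dn : ∀ k l, k < l → l ≤ 3 → dcv (x k) (x l) =
    if l = k + 1 then (if k = 0 then 0 else 1) else (if k = 0 ∧ l = 3 then 1 else 0)
  u0 : (uc (x 0)).card = 1
  u3 : (uc (x 3)).card = 1

namespace Rg

variable (h : Rg r i K psi C w v x)
include h

lemma ne {a b : ℕ} (ha : a ≤ 3) (hb : b ≤ 3) (hab : a ≠ b) : x a ≠ x b := h.W.ne ha hb hab

lemma mem_ed {a k : ℕ} (ha : a ≤ 3) (hk : k < 4) :
    x a ∈ ed x k ↔ a = k ∨ a = k + 1 ∨ (k = 3 ∧ a = 0) := by
  by_cases h3 : k = 3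
  · subst h3
    unfold ed
    rw [mem_insert, mem_singleton, show (3 : ℕ) + 1 = 4 by norm_num, h.hx]
    constructor
    · rintro (h1 | h1)
      · exact Or.inl (h.W.inj _ _ ha (by omega) h1)
      · exact Or.inr (Or.inr ⟨rfl, h.W.inj _ _ ha (by omega) h1⟩)
    · rintro (h1 | h1 | ⟨-, h1⟩)
      · exact Or.inl (by rw [h1])
      · omega
      · exact Or.inr (by rw [h1])
  · rw [h.W.mem_ed ha (by omega)]
    omega

lemma ed3 : ed x 3 = {x 3, x 0} := by
  unfold ed
  rw [show (3 : ℕ) + 1 = 4 by norm_num, h.hx]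

lemma card_ed {k : ℕ} (hk : k < 4) : (ed x k).card = 2 := by
  by_cases h3 : k = 3
  · subst h3
    rw [h.ed3]
    exact card_pair (h.ne (by omega) (by omega) (by omega))
  · exact h.W.card_ed (by omega)

lemma ed_inj {k l : ℕ} (hk : k < 4) (hl : l < 4) (he : ed x k = ed x l) : k = l := by
  have a0 := h.mem_ed (a := 0) (by omega) hk
  have a1 := h.mem_ed (a := 1) (by omega) hk
  have a2 := h.mem_ed (a := 2) (by omega) hk
  have a3 := h.mem_ed (a := 3) (by omega) hk
  have b0 := h.mem_ed (a := 0) (by omega) hl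
  have b1 := h.mem_ed (a := 1) (by omega) hl
  have b2 := h.mem_ed (a := 2) (by omega) hl
  have b3 := h.mem_ed (a := 3) (by omega) hl
  rw [he] at a0 a1 a2 a3
  rw [a0] at b0
  rw [a1] at b1
  rw [a2] at b2
  rw [a3] at b3
  omega

/-- the site of an element of an edge -/
lemma of_ed {y : P} {k : ℕ} (hk : k < 4) (hy : y ∈ ed x k) : ∃ a, a ≤ 3 ∧ y = x a ∧
    (a = k ∨ a = k + 1 ∨ (k = 3 ∧ a = 0)) := by
  by_cases h3 : k = 3
  · subst h3
    rw [h.ed3, mem_insert, mem_singleton] at hy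
    rcases hy with rfl | rfl
    · exact ⟨3, by omega, rfl, by omega⟩
    · exact ⟨0, by omega, rfl, by omega⟩
  · unfold ed at hy
    rw [mem_insert, mem_singleton] at hy
    rcases hy with rfl | rfl
    · exact ⟨k, by omega, rfl, by omega⟩
    · exact ⟨k + 1, by omega, rfl, by omega⟩

lemma disj_ed {k l : ℕ} (hk : k < 4) (hl : l < 4) :
    Disjoint (ed x k) (ed x l) ↔ k + 2 = l ∨ l + 2 = k := by
  rw [disjoint_left]
  constructor
  · intro hd
    by_contra hcon
    have hex : ∃ a, a ≤ 3 ∧ (a = k ∨ a = k + 1 ∨ (k = 3 ∧ a = 0)) ∧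
        (a = l ∨ a = l + 1 ∨ (l = 3 ∧ a = 0)) := by
      rcases Nat.lt_trichotomy k l with h1 | h1 | h1
      · by_cases h2 : l = k + 1
        · exact ⟨l, by omega, by omega, by omega⟩
        · exact ⟨0, by omega, by omega, by omega⟩
      · exact ⟨k, by omega, by omega, by omega⟩
      · by_cases h2 : k = l + 1
        · exact ⟨k, by omega, by omega, by omega⟩
        · exact ⟨0, by omega, by omega, by omega⟩
    obtain ⟨a, ha, h1, h2⟩ := hex
    exact hd ((h.mem_ed ha hk).2 h1) ((h.mem_ed ha hl).2 h2)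
  · intro hkl y h1 h2
    obtain ⟨a, ha, rfl, h3⟩ := h.of_ed hk h1
    rw [h.mem_ed ha hl] at h2
    omega

lemma inter_ed {k l : ℕ} (hk : k < 4) (hl : l < 4) :
    ((ed x k ∩ ed x l).card = 1) ↔ (l = k + 1 ∨ k = l + 1 ∨ (k = 0 ∧ l = 3) ∨ (k = 3 ∧ l = 0)) := by
  classical
  constructor
  · intro h1
    by_contra hcon
    by_cases h2 : k = l
    · rw [h2, inter_self, h.card_ed hl] at h1
      omega
    · have h3 : Disjoint (ed x k) (ed x l) := (h.disj_ed hk hl).2 (by omega)
      rw [disjoint_iff_inter_eq_empty] at h3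
      rw [h3, card_empty] at h1
      omega
  · intro h1
    have hnd : ¬ Disjoint (ed x k) (ed x l) := by
      rw [h.disj_ed hk hl]
      omega
    have hpos : 0 < (ed x k ∩ ed x l).card := by
      rw [Nat.pos_iff_ne_zero]
      intro h2
      rw [card_eq_zero, ← disjoint_iff_inter_eq_empty] at h2
      exact hnd h2
    have hlt : (ed x k ∩ ed x l).card < 2 := by
      by_contra h2
      have h3 : ed x k ∩ ed x l = ed x k := by
        refine eq_of_subset_of_card_le inter_subset_left ?_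
        rw [h.card_ed hk]
        omega
      have h4 : ed x k = ed x l := by
        refine eq_of_subset_of_card_le ?_ (by rw [h.card_ed hk, h.card_ed hl])
        rw [← h3]
        exact inter_subset_right
      have := h.ed_inj hk hl h4
      omega
    omega

/-- a pair of sites with a common lower cover -/
lemma lo_pair {k l : ℕ} (hkl : k < l) (hl : l ≤ 3) {y : P} (h1 : x k ∈ uc y) (h2 : x l ∈ uc y) :
    (l = k + 1 ∧ k ≠ 0) ∨ (k = 0 ∧ l = 3) := by
  classical
  by_contra hcon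
  have h3 := h.dn k l hkl hl
  have h4 : dcv (x k) (x l) = 0 := by
    rw [h3]
    split_ifs <;> omega
  unfold dcv at h4
  rw [card_eq_zero, filter_eq_empty_iff] at h4
  exact h4 (mem_univ y) ⟨mem_uc.1 h1, mem_uc.1 h2⟩

lemma up_pair {k l : ℕ} (hkl : k < l) (hl : l ≤ 3) {y : P} (h1 : x k ∈ dc y) (h2 : x l ∈ dc y) :
    l = k + 1 := by
  classical
  by_contra hcon
  have h3 := h.W.up k l hkl hl
  rw [if_neg hcon] at h3
  unfold ucv at h3
  rw [card_eq_zero, filter_eq_empty_iff] at h3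
  exact h3 (mem_univ y) ⟨mem_dc.1 h1, mem_dc.1 h2⟩

/-- the pendants are over edges -/
lemma pn_ed {z : P} (hz : z ∈ PN i C) : ∃ k, k < 4 ∧ sit i z = ed x k := by
  classical
  have W := h.W
  obtain ⟨hzC, y, -, -, -, hs2, hsl, hor⟩ := PN_dat W.H hz
  obtain ⟨a, b, hab, hs⟩ := card_eq_two.1 hs2
  have hyC : y ∈ C := by
    rcases hor with ⟨-, h, h', h4, -⟩ | ⟨-, h, h', h4, -⟩
    · exact W.hC.up hzC (mem_uc.1 (by rw [h4]; exact mem_singleton_self y))
    · exact W.hC.dn hzC (by omega) (mem_dc.1 (by rw [h4]; exact mem_singleton_self y))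
  have hin : ∀ c ∈ sit i z, c ∈ C := by
    intro c hc
    rcases hor with ⟨-, h, h', -, h5, -⟩ | ⟨-, h, h', -, h5, -⟩
    · rw [h5] at hc
      exact W.hC.up hyC (mem_uc.1 hc)
    · rw [h5] at hc
      exact W.hC.dn hyC (by omega) (mem_dc.1 hc)
  have ha : a ∈ sit i z := by rw [hs]; exact mem_insert_self _ _
  have hb : b ∈ sit i z := by rw [hs]; exact mem_insert_of_mem (mem_singleton_self _)
  obtain ⟨k, hk, rfl⟩ := W.surj a (hin a ha) (hsl a ha)
  obtain ⟨l, hl, rfl⟩ := W.surj b (hin b hb) (hsl b hb)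
  have hkl : k ≠ l := by
    rintro rfl
    exact hab rfl
  have key : ∀ k l, k < l → l ≤ 3 → x k ∈ sit i z → x l ∈ sit i z →
      l = k + 1 ∨ (k = 0 ∧ l = 3) := by
    intro k l hkl hl h1 h2
    rcases hor with ⟨-, -, -, -, h5, -⟩ | ⟨-, -, -, -, h5, -⟩
    · rw [h5] at h1 h2
      rcases h.lo_pair hkl hl h1 h2 with h3 | h3
      · exact Or.inl h3.1
      · exact Or.inr h3
    · rw [h5] at h1 h2
      exact Or.inl (h.up_pair hkl hl h1 h2)
  have fin : ∀ k l, k < l → l ≤ 3 → sit i z = {x k, x l} → x k ∈ sit i z → x l ∈ sit i z →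
      ∃ k, k < 4 ∧ sit i z = ed x k := by
    intro k l hkl hl hs h1 h2
    rcases key k l hkl hl h1 h2 with h3 | ⟨h3, h4⟩
    · exact ⟨k, by omega, by rw [hs, h3]; rfl⟩
    · subst h3
      subst h4
      exact ⟨3, by omega, by rw [hs, h.ed3, pair_comm]⟩
  rcases Nat.lt_or_gt_of_ne hkl with h1 | h1
  · exact fin k l h1 hl hs ha hb
  · exact fin l k h1 hk (by rw [hs, pair_comm]) hb ha

/-- sums over the pendants, by edges -/
lemma group (f : P → ℤ) (g : Finset P → ℤ) : ∑ z ∈ PN i C, f z * g (sit i z) =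
    ∑ k ∈ range 4, (∑ z ∈ (PN i C).filter (fun z => sit i z = ed x k), f z) * g (ed x k) := by
  classical
  have h1 : ∀ z ∈ PN i C, f z * g (sit i z) =
      ∑ k ∈ range 4, if sit i z = ed x k then f z * g (ed x k) else 0 := by
    intro z hz
    obtain ⟨k, hk, hs⟩ := h.pn_ed hz
    rw [sum_eq_single k]
    · rw [if_pos hs, hs]
    · intro l hl hne
      rw [mem_range] at hl
      rw [if_neg]
      intro h1
      exact hne (h.ed_inj hl hk (h1.symm.trans hs))
    · intro h1
      exact absurd (mem_range.2 hk) h1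
  rw [sum_congr rfl h1, sum_comm]
  refine sum_congr rfl fun k _ => ?_
  rw [← sum_filter, sum_mul]

lemma r4 (f : ℕ → ℤ) : ∑ k ∈ range 4, f k = f 0 + f 1 + f 2 + f 3 := by
  rw [sum_range_succ, sum_range_succ, sum_range_succ, sum_range_one]

lemma nw : nz i w = ed x 3 := by
  rw [nz_low h.Q.lw0, h.hw, h.ed3]

lemma nv : nz i v = ed x 0 := by
  rw [nz_upp h.Q.lv0, h.hv]
  rfl

/-- nothing below the lost pair, nothing above the two ends -/
lemma DE0 : DE i C x 0 = ∅ := by
  classical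
  rw [eq_empty_iff_forall_notMem]
  intro z hz
  obtain ⟨hzC, hz1, hz2⟩ := mem_DE.1 hz
  obtain ⟨-, y, -, -, -, -, -, hor⟩ := PN_dat h.W.H (C := C) (mem_PN.2 ⟨hzC, Or.inl hz1⟩)
  rcases hor with ⟨-, -, -, h4, h5, -⟩ | ⟨h3, -⟩
  · have ha : x 0 ∈ uc y := by
      rw [← h5, hz2]; exact (h.mem_ed (by omega) (by omega)).2 (Or.inl rfl)
    have hb : x 1 ∈ uc y := by
      rw [← h5, hz2]; exact (h.mem_ed (by omega) (by omega)).2 (Or.inr (Or.inl rfl))
    have := h.lo_pair (by omega) (by omega) ha hb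
    omega
  · have := lev_PU h3
    have := lev_PD hz1
    omega

lemma UE3 : UE i C x 3 = ∅ := by
  classical
  rw [eq_empty_iff_forall_notMem]
  intro z hz
  obtain ⟨hzC, hz1, hz2⟩ := mem_UE.1 hz
  obtain ⟨-, y, -, -, -, -, -, hor⟩ := PN_dat h.W.H (C := C) (mem_PN.2 ⟨hzC, Or.inr hz1⟩)
  rcases hor with ⟨h3, -⟩ | ⟨-, -, -, h4, h5, -⟩
  · have := lev_PD h3
    have := lev_PU hz1
    omega
  · have ha : x 0 ∈ dc y := by
      rw [← h5, hz2]; exact (h.mem_ed (by omega) (by omega)).2 (Or.inr (Or.inr ⟨rfl, rfl⟩))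
    have hb : x 3 ∈ dc y := by
      rw [← h5, hz2]; exact (h.mem_ed (by omega) (by omega)).2 (Or.inl rfl)
    have := h.up_pair (by omega) (by omega) ha hb
    omega

lemma UE1 : UE i C x 1 = ∅ := h.W.ue_inner (by omega) (by omega)

lemma NE0 : NE i C x 0 = - ((UE i C x 0).card : ℤ) := by
  unfold NE
  rw [h.DE0, card_empty]
  push_cast
  ring

lemma NE1 : NE i C x 1 = ((DE i C x 1).card : ℤ) := by
  unfold NE
  rw [h.UE1, card_empty]
  push_cast
  ring

lemma NE3 : NE i C x 3 = ((DE i C x 3).card : ℤ) := by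
  unfold NE
  rw [h.UE3, card_empty]
  push_cast
  ring

lemma Nw {k : ℕ} (hk : k < 4) : (if Disjoint (nz i w) (ed x k) then (1 : ℤ) else 0) =
    if k = 1 then 1 else 0 := by
  have e : Disjoint (nz i w) (ed x k) ↔ k = 1 := by
    rw [h.nw, h.disj_ed (by omega) hk]
    omega
  simp only [e]

lemma Nv {k : ℕ} (hk : k < 4) : (if Disjoint (nz i v) (ed x k) then (1 : ℤ) else 0) =
    if k = 2 then 1 else 0 := by
  have e : Disjoint (nz i v) (ed x k) ↔ k = 2 := by
    rw [h.nv, h.disj_ed (by omega) hk]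
    omega
  simp only [e]

lemma Mw {k : ℕ} (hk : k < 4) : (if (nz i w ∩ ed x k).card = 1 then (1 : ℤ) else 0) =
    if k = 0 ∨ k = 2 then 1 else 0 := by
  have e : ((nz i w ∩ ed x k).card = 1) ↔ k = 0 ∨ k = 2 := by
    rw [h.nw, h.inter_ed (by omega) hk]
    omega
  simp only [e]

lemma Mv {k : ℕ} (hk : k < 4) : (if (nz i v ∩ ed x k).card = 1 then (1 : ℤ) else 0) =
    if k = 1 ∨ k = 3 then 1 else 0 := by
  have e : ((nz i v ∩ ed x k).card = 1) ↔ k = 1 ∨ k = 3 := by
    rw [h.nv, h.inter_ed (by omega) hk]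
    omega
  simp only [e]

lemma sum_vp : ∑ z ∈ PN i C, vp i z = NE i C x 0 + NE i C x 1 + NE i C x 2 + NE i C x 3 := by
  have e1 := h.group (fun z => vp i z) (fun _ => 1)
  simp only [mul_one] at e1
  rw [e1]
  simp only [← NE_eq]
  exact h.r4 _

/-- `w32 = N_1 - N_2 - 1` -/
lemma w3_eq : wv i C = NE i C x 1 - NE i C x 2 - 1 := by
  have n30 : x 3 ≠ x 0 := h.ne (by omega) (by omega) (by omega)
  have n01 : x 0 ≠ x 1 := h.ne (by omega) (by omega) (by omega)
  have n31 : x 3 ≠ x 1 := h.ne (by omega) (by omega) (by omega)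
  unfold wv
  rw [h.Q.w3 h.hw h.hv n30 n01 n31]
  have e1 := h.group (fun z => vp i z) (fun T => (if Disjoint (nz i w) T then (1 : ℤ) else 0) -
    (if Disjoint (nz i v) T then (1 : ℤ) else 0))
  have e2 : ∑ z ∈ PN i C, vp i z * ((if Disjoint (nz i w) (sit i z) then (1 : ℤ) else 0) -
    (if Disjoint (nz i v) (sit i z) then (1 : ℤ) else 0)) =
    ∑ z ∈ PN i C, vp i z * (Nx i w z - Nx i v z) := rfl
  rw [e2] at e1
  simp only [← NE_eq] at e1
  rw [h.r4, h.Nw (by omega), h.Nw (by omega), h.Nw (by omega), h.Nw (by omega),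
    h.Nv (by omega), h.Nv (by omega), h.Nv (by omega), h.Nv (by omega)] at e1
  norm_num at e1
  rw [e1]
  ring

lemma sum_ch : ∑ z ∈ PN i C, vp i z * (ch i C z * (Nx i w z - Nx i v z)) =
    CH i C x 1 - CH i C x 2 := by
  have e1 := h.group (fun z => vp i z * ch i C z)
    (fun T => (if Disjoint (nz i w) T then (1 : ℤ) else 0) -
      (if Disjoint (nz i v) T then (1 : ℤ) else 0))
  have e2 : ∑ z ∈ PN i C, vp i z * (ch i C z * (Nx i w z - Nx i v z)) =
      ∑ z ∈ PN i C, vp i z * ch i C z * ((if Disjoint (nz i w) (sit i z) then (1 : ℤ) else 0) -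
      (if Disjoint (nz i v) (sit i z) then (1 : ℤ) else 0)) := by
    refine sum_congr rfl fun z _ => ?_
    unfold Nx
    ring
  rw [e2, e1]
  have e0 : ∀ k, ∑ z ∈ (PN i C).filter (fun z => sit i z = ed x k), vp i z * ch i C z =
    CH i C x k := fun k => rfl
  simp only [e0]
  rw [h.r4, h.Nw (by omega), h.Nw (by omega), h.Nw (by omega), h.Nw (by omega),
    h.Nv (by omega), h.Nv (by omega), h.Nv (by omega), h.Nv (by omega)]
  norm_num
  ring

lemma sum_mx : ∑ z ∈ PN i C, vp i z * (Mx i w z - Mx i v z) =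
    NE i C x 0 + NE i C x 2 - NE i C x 1 - NE i C x 3 := by
  have e1 := h.group (fun z => vp i z)
    (fun T => (if (nz i w ∩ T).card = 1 then (1 : ℤ) else 0) -
      (if (nz i v ∩ T).card = 1 then (1 : ℤ) else 0))
  have e2 : ∑ z ∈ PN i C, vp i z * (Mx i w z - Mx i v z) =
      ∑ z ∈ PN i C, vp i z * ((if (nz i w ∩ sit i z).card = 1 then (1 : ℤ) else 0) -
      (if (nz i v ∩ sit i z).card = 1 then (1 : ℤ) else 0)) := rfl
  rw [e2, e1]
  simp only [← NE_eq]
  rw [h.r4, h.Mw (by omega), h.Mw (by omega), h.Mw (by omega), h.Mw (by omega),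
    h.Mv (by omega), h.Mv (by omega), h.Mv (by omega), h.Mv (by omega)]
  norm_num
  ring

/-- matched lower doubles over a pair -/
lemma mmx {a b : ℕ} (hab : a < b) (hb : b ≤ 3) : mm i K C {x a, x b} =
    if b = a + 1 ∧ a ≠ 0 then 1 else 0 := by
  rw [h.Q.mm_pair (h.W.mem a (by omega)) (h.W.lev_x a (by omega))
    (h.W.ne (by omega) hb (by omega)), h.dn a b hab hb]
  have e : (uc w = {x a, x b}) ↔ (a = 0 ∧ b = 3) := by
    rw [h.hw]
    constructor
    · intro h1
      have h2 : x a ∈ ({x 3, x 0} : Finset P) := by rw [h1]; exact mem_insert_self _ _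
      have h3 : x b ∈ ({x 3, x 0} : Finset P) := by
        rw [h1]; exact mem_insert_of_mem (mem_singleton_self _)
      rw [mem_insert, mem_singleton] at h2 h3
      rcases h2 with h2 | h2
      · have := h.W.inj _ _ (by omega) (by omega) h2
        rcases h3 with h3 | h3
        · have := h.W.inj _ _ (by omega) (by omega) h3
          omega
        · have := h.W.inj _ _ (by omega) (by omega) h3
          omega
      · have := h.W.inj _ _ (by omega) (by omega) h2
        rcases h3 with h3 | h3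
        · have := h.W.inj _ _ (by omega) (by omega) h3
          omega
        · have := h.W.inj _ _ (by omega) (by omega) h3
          omega
    · rintro ⟨rfl, rfl⟩
      rw [pair_comm]
  simp only [e]
  split_ifs <;> first | omega | contradiction | norm_num

lemma mmx' {a b : ℕ} (hab : a < b) (hb : b ≤ 3) : mm i K C {x b, x a} =
    if b = a + 1 ∧ a ≠ 0 then 1 else 0 := by
  rw [pair_comm]
  exact h.mmx hab hb

lemma dns {k l : ℕ} (hk : k ≤ 3) (hl : l ≤ 3) (hkl : k ≠ l) : dcv (x k) (x l) =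
    if (l = k + 1 ∧ k ≠ 0) ∨ (k = l + 1 ∧ l ≠ 0) ∨ (k = 0 ∧ l = 3) ∨ (k = 3 ∧ l = 0)
      then 1 else 0 := by
  rcases Nat.lt_or_gt_of_ne hkl with h1 | h1
  · rw [h.dn k l h1 hl]
    split_ifs <;> first | omega | contradiction
  · rw [kf_dcv_comm, h.dn l k h1 hk]
    split_ifs <;> first | omega | contradiction

lemma dsum {k : ℕ} (hk : k ≤ 3) : ∑ l ∈ (range (3 + 1)).erase k, dcv (x k) (x l) =
    if k ≤ 1 then 1 else 2 := by
  have e : ∑ l ∈ (range (3 + 1)).erase k, dcv (x k) (x l) = ∑ l ∈ (range (3 + 1)).erase k,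
    if (l = k + 1 ∧ k ≠ 0) ∨ (k = l + 1 ∧ l ≠ 0) ∨ (k = 0 ∧ l = 3) ∨ (k = 3 ∧ l = 0)
      then 1 else 0 := by
    refine sum_congr rfl fun l hl => ?_
    rw [mem_erase, mem_range] at hl
    exact h.dns hk (by omega) (Ne.symm hl.1)
  rw [e]
  have hk4 : k = 0 ∨ k = 1 ∨ k = 2 ∨ k = 3 := by omega
  rcases hk4 with rfl | rfl | rfl | rfl <;> decide

lemma deg0 : (dc (x 0)).card = 1 + (pen (x 0)).card := by
  have h1 := h.W.deg (k := 0) (by omega)
  rw [h.dsum (by omega)] at h1
  norm_num at h1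
  omega

lemma deg1 : (dc (x 1)).card = 1 + (pen (x 1)).card := by
  have h1 := h.W.deg (k := 1) (by omega)
  rw [h.dsum (by omega)] at h1
  norm_num at h1
  omega

lemma deg2 : (dc (x 2)).card = 2 := by
  have h1 := h.W.deg (k := 2) (by omega)
  have h2 := h.W.dc_le (k := 2) (by omega)
  rw [h.dsum (by omega)] at h1
  norm_num at h1
  omega

lemma deg3 : (dc (x 3)).card = 2 := by
  have h1 := h.W.deg (k := 3) (by omega)
  have h2 := h.W.dc_le (k := 3) (by omega)
  rw [h.dsum (by omega)] at h1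
  norm_num at h1
  omega

lemma in_w {a : ℕ} (ha : a ≤ 3) : (x a ∈ uc w) ↔ (a = 3 ∨ a = 0) := by
  rw [h.hw, ← h.ed3, h.mem_ed ha (by omega)]
  omega

lemma in_v {a : ℕ} (ha : a ≤ 3) : (x a ∈ dc v) ↔ (a = 0 ∨ a = 1) := by
  have e : dc v = ed x 0 := h.hv
  rw [e, h.mem_ed ha (by omega)]
  omega

lemma dgx {a : ℕ} (ha : a ≤ 3) : dg i K C (x a) = ((dc (x a)).card : ℤ) + (uc (x a)).card -
    (if a = 3 ∨ a = 0 then 1 else 0) - (if a = 0 ∨ a = 1 then 1 else 0) := by
  rw [h.Q.dg_eq (h.W.mem a ha) (h.W.lev_x a ha)]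
  simp only [h.in_w ha, h.in_v ha]

lemma dg0 : dg i K C (x 0) = (pen (x 0)).card := by
  rw [h.dgx (by omega), h.deg0, h.u0]
  norm_num

lemma dg1 : dg i K C (x 1) = 2 + (pen (x 1)).card := by
  rw [h.dgx (by omega), h.deg1, h.W.uc_inner (by omega) (by omega)]
  norm_num
  ring

lemma dg2 : dg i K C (x 2) = 4 := by
  rw [h.dgx (by omega), h.deg2, h.W.uc_inner (by omega) (by omega)]
  norm_num

lemma dg3 : dg i K C (x 3) = 2 := by
  rw [h.dgx (by omega), h.deg3, h.u3]
  norm_num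

lemma Dsw : Ds i K C (ed x 1) {x 3, x 0} = 4 + (pen (x 1)).card := by
  have n : ∀ a b, a ≤ 3 → b ≤ 3 → a ≠ b → x a ≠ x b := fun a b ha hb hab => h.W.ne ha hb hab
  have e1 : mm i K C (ed x 1 ∪ {x 3, x 0}) = 2 := by
    unfold ed
    rw [mm_four (n _ _ (by omega) (by omega) (by omega)) (n _ _ (by omega) (by omega) (by omega))
      (n _ _ (by omega) (by omega) (by omega)) (n _ _ (by omega) (by omega) (by omega))
      (n _ _ (by omega) (by omega) (by omega)) (n _ _ (by omega) (by omega) (by omega)),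
      h.mmx (a := 1) (b := 1 + 1) (by omega) (by omega), h.mmx' (a := 0) (b := 3) (by omega) (by omega),
      h.mmx (a := 1) (b := 3) (by omega) (by omega), h.mmx' (a := 0) (b := 1) (by omega) (by omega),
      h.mmx (a := 1 + 1) (b := 3) (by omega) (by omega),
      h.mmx' (a := 0) (b := 1 + 1) (by omega) (by omega)]
    norm_num
  unfold Ds
  rw [e1]
  have e2 : ed x 1 = {x 1, x 2} := rfl
  rw [e2, sum_pair (n _ _ (by omega) (by omega) (by omega)), h.dg1, h.dg2]
  ring

lemma Dsv : Ds i K C (ed x 2) {x 0, x 1} = 4 := by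
  have n : ∀ a b, a ≤ 3 → b ≤ 3 → a ≠ b → x a ≠ x b := fun a b ha hb hab => h.W.ne ha hb hab
  have e1 : mm i K C (ed x 2 ∪ {x 0, x 1}) = 2 := by
    unfold ed
    rw [mm_four (n _ _ (by omega) (by omega) (by omega)) (n _ _ (by omega) (by omega) (by omega))
      (n _ _ (by omega) (by omega) (by omega)) (n _ _ (by omega) (by omega) (by omega))
      (n _ _ (by omega) (by omega) (by omega)) (n _ _ (by omega) (by omega) (by omega)),
      h.mmx (a := 2) (b := 2 + 1) (by omega) (by omega), h.mmx (a := 0) (b := 1) (by omega) (by omega),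
      h.mmx' (a := 0) (b := 2) (by omega) (by omega), h.mmx' (a := 1) (b := 2) (by omega) (by omega),
      h.mmx' (a := 0) (b := 2 + 1) (by omega) (by omega),
      h.mmx' (a := 1) (b := 2 + 1) (by omega) (by omega)]
    norm_num
  unfold Ds
  rw [e1]
  have e2 : ed x 2 = {x 2, x 3} := rfl
  rw [e2, sum_pair (n _ _ (by omega) (by omega) (by omega)), h.dg2, h.dg3]
  ring

/-- the weighted sum of the form -/
lemma sum_big :
    ∑ z ∈ PN i C, vp i z * (Nx i w z * (dg i K C (x 3) + Ds i K C (sit i z) {x 3, x 0}) -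
        Nx i v z * (dg i K C (x 1) + Ds i K C (sit i z) {x 0, x 1})) =
      (6 + ((pen (x 1)).card : ℤ)) * (NE i C x 1 - NE i C x 2) := by
  have e1 := h.group (fun z => vp i z)
    (fun T => (if Disjoint (nz i w) T then (1 : ℤ) else 0) *
      (dg i K C (x 3) + Ds i K C T {x 3, x 0}) -
      (if Disjoint (nz i v) T then (1 : ℤ) else 0) * (dg i K C (x 1) + Ds i K C T {x 0, x 1}))
  have e2 : ∑ z ∈ PN i C, vp i z * (Nx i w z * (dg i K C (x 3) + Ds i K C (sit i z) {x 3, x 0}) -
        Nx i v z * (dg i K C (x 1) + Ds i K C (sit i z) {x 0, x 1})) =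
      ∑ z ∈ PN i C, vp i z * ((if Disjoint (nz i w) (sit i z) then (1 : ℤ) else 0) *
      (dg i K C (x 3) + Ds i K C (sit i z) {x 3, x 0}) -
      (if Disjoint (nz i v) (sit i z) then (1 : ℤ) else 0) *
        (dg i K C (x 1) + Ds i K C (sit i z) {x 0, x 1})) := rfl
  rw [e2, e1]
  simp only [← NE_eq]
  rw [h.r4, h.Nw (by omega), h.Nw (by omega), h.Nw (by omega), h.Nw (by omega),
    h.Nv (by omega), h.Nv (by omega), h.Nv (by omega), h.Nv (by omega), h.Dsw, h.Dsv, h.dg1, h.dg3]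
  norm_num
  ring

/-- meeting products -/
lemma sum_M4 : ∑ q ∈ M4 i C, vp i q.1 * vp i q.2 =
    (NE i C x 0 + NE i C x 1 + NE i C x 2 + NE i C x 3) ^ 2 - 2 * NE i C x 0 * NE i C x 2 -
      2 * NE i C x 1 * NE i C x 3 := by
  classical
  rw [W4.sum_M4]
  have e1 : ∀ p ∈ PN i C, (∑ q ∈ PN i C,
      if ¬ Disjoint (sit i p) (sit i q) then vp i p * vp i q else 0) =
      vp i p * ∑ l ∈ range 4, NE i C x l *
        (if ¬ Disjoint (sit i p) (ed x l) then 1 else 0) := by
    intro p _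
    have e2 := h.group (fun z => vp i z) (fun T => if ¬ Disjoint (sit i p) T then 1 else 0)
    simp only [← NE_eq] at e2
    rw [← e2, mul_sum]
    refine sum_congr rfl fun q _ => ?_
    split_ifs <;> ring
  rw [sum_congr rfl e1]
  have e3 := h.group (fun z => vp i z) (fun T => ∑ l ∈ range 4, NE i C x l *
        (if ¬ Disjoint T (ed x l) then 1 else 0))
  simp only [← NE_eq] at e3
  rw [e3]
  have e4 : ∀ k, k < 4 → ∀ l, l < 4 → (if ¬ Disjoint (ed x k) (ed x l) then (1 : ℤ) else 0) =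
      if k + 2 = l ∨ l + 2 = k then 0 else 1 := by
    intro k hk l hl
    have := h.disj_ed hk hl
    simp only [this]
    split_ifs <;> first | omega | contradiction | rfl
  rw [h.r4, h.r4, h.r4, h.r4, h.r4]
  rw [e4 0 (by omega) 0 (by omega), e4 0 (by omega) 1 (by omega), e4 0 (by omega) 2 (by omega),
    e4 0 (by omega) 3 (by omega), e4 1 (by omega) 0 (by omega), e4 1 (by omega) 1 (by omega),
    e4 1 (by omega) 2 (by omega), e4 1 (by omega) 3 (by omega), e4 2 (by omega) 0 (by omega),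
    e4 2 (by omega) 1 (by omega), e4 2 (by omega) 2 (by omega), e4 2 (by omega) 3 (by omega),
    e4 3 (by omega) 0 (by omega), e4 3 (by omega) 1 (by omega), e4 3 (by omega) 2 (by omega),
    e4 3 (by omega) 3 (by omega)]
  norm_num
  ring

/-- THE VALUE of the form -/
theorem L_form : Lv i C =
    (NE i C x 0 + NE i C x 1 + NE i C x 2 + NE i C x 3) +
    (NE i C x 0 + NE i C x 1 + NE i C x 2 + NE i C x 3) ^ 2 - 2 * NE i C x 0 * NE i C x 2 -
    2 * NE i C x 1 * NE i C x 3 -
    2 * (pen (x 1)).card * (NE i C x 0 + NE i C x 1 + NE i C x 2 + NE i C x 3) +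
    (((pen (x 1)).card : ℤ) ^ 2 - (pen (x 1)).card) + 2 + 2 * (pen (x 0)).card +
    2 * ((Z4 i C).card - (T4 i C).card : ℤ) - CH i C x 1 + CH i C x 2 -
    2 * (NE i C x 0 + NE i C x 2 - NE i C x 1 - NE i C x 3) -
    (NE i C x 1 - NE i C x 2 - 1) * (4 + 2 * (pen (x 0)).card + 2 * (pen (x 1)).card) := by
  have n30 : x 3 ≠ x 0 := h.ne (by omega) (by omega) (by omega)
  have n01 : x 0 ≠ x 1 := h.ne (by omega) (by omega) (by omega)
  have n31 : x 3 ≠ x 1 := h.ne (by omega) (by omega) (by omega)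
  have a1 := h.Q.al2 h.hw h.hv n30 n01 n31
  have a2 := h.Q.form_gen h.hw h.hv n30 n01 n31
  have w3 := h.w3_eq
  unfold wv at w3
  rw [w3] at a2
  have m1 : mm i K C {x 3, x 0} = 0 := by
    rw [h.mmx' (a := 0) (b := 3) (by omega) (by omega)]
    norm_num
  have m2 : mm i K C {x 0, x 1} = 0 := by
    rw [h.mmx (a := 0) (b := 1) (by omega) (by omega)]
    norm_num
  have m3 : mm i K C {x 3, x 1} = 0 := by
    rw [h.mmx' (a := 1) (b := 3) (by omega) (by omega)]
    norm_num
  have s1 : ∑ z ∈ PN i C, vp i z * (ch i C z * (Nx i w z - Nx i v z) +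
      2 * (Mx i w z - Mx i v z)) = CH i C x 1 - CH i C x 2 +
      2 * (NE i C x 0 + NE i C x 2 - NE i C x 1 - NE i C x 3) := by
    rw [← h.sum_ch, ← h.sum_mx, mul_sum, ← sum_add_distrib]
    exact sum_congr rfl fun z _ => by ring
  have s2 : ∑ z ∈ Z4 i C, tz i z * (Nx i w z - Nx i v z) = 0 := by
    refine sum_eq_zero fun z hz => ?_
    have h3 := h.W.card_st
    obtain ⟨h1, h2⟩ := Z4_sites h.W.H h.W.hC hz
    have key : ∀ T : Finset P, T ⊆ st i C → T.card = 2 → ¬ Disjoint T (sit i z) := by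
      intro T hT hT2 hd
      have h4 : T ∪ sit i z ⊆ st i C := union_subset hT h2
      have h5 := card_le_card h4
      rw [card_union_of_disjoint hd, hT2] at h5
      omega
    have g1 : Nx i w z = 0 := by
      unfold Nx
      rw [if_neg (key _ _ _)]
      · rw [h.nw, h.ed3]
        intro y hy
        rw [mem_insert, mem_singleton] at hy
        rw [mem_st]
        rcases hy with rfl | rfl
        · exact ⟨h.W.mem 3 (by omega), h.W.lev_x 3 (by omega)⟩
        · exact ⟨h.W.mem 0 (by omega), h.W.lev_x 0 (by omega)⟩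
      · rw [h.nw]
        exact h.card_ed (by omega)
    have g2 : Nx i v z = 0 := by
      unfold Nx
      rw [if_neg (key _ _ _)]
      · rw [h.nv]
        exact h.W.ed_sub (by omega)
      · rw [h.nv]
        exact h.card_ed (by omega)
    rw [g1, g2]
    ring
  rw [s1, s2, h.sum_big, m1, m2, m3, h.dg0, h.dg1, h.dg3, h.sum_M4, h.sum_vp] at a2
  rw [m1, m2, h.dg1, h.dg3, h.sum_vp] at a1
  unfold Lv
  rw [a2, a1]
  ring

end Rg

end Pool.Agent.GaussPoset.Win.W4
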