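import Mathlib
import Pool.Agent.W_448zz_h61.Ns
import Pool.Agent.W_448zz_h61.M217
import Pool.Agent.W_448zz_h61.M218

/-! From `Pool.Agent.W_448j6_h22.KbE` -/

/-!
MP_448cb3_co, G2, case B, window `j`: lower bounds for the functional of the parts with the patterns [DL]
and R, `w32` free.
-/

namespace Pool.Agent.GaussPoset.Win.W4

set_option linter.unusedSectionVars false

open Finset
open Pool.Agent.GaussPoset.Win.SO (PN vp con on mem_PN vp_PD vp_PU)

universe u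

variable {P : Type u} [Fintype P] [PartialOrder P] [DecidableEq P] {r i : ℕ}
variable {psi : P → P} {C K : Finset P} {w v : P} {m : ℕ} {x : ℕ → P}

/-- the functional of a part -/
noncomputable def Tv (i : ℕ) (C : Finset P) : ℤ := Lv i C + 2 * wv i C ^ 2 + 6 * wv i C

lemma sq_sub_nonneg (g : ℤ) : 0 ≤ g ^ 2 - g := by
  have := sq_add_nonneg (-g)
  nlinarith

namespace DLg

variable (h : DLg r i K psi C w v m x)
include h

lemma dcv2 : dcv (x 2) (x (2 + 1)) = 1 := by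
  have hm := h.hm
  have := h.dn 2 3 (by omega) (by omega)
  norm_num at this
  exact this

lemma CH2_num : ((DE i C x 2).card = 0 ∧ CH i C x 2 ≤ 0) ∨
    ((DE i C x 2).card = 1 ∧ CH i C x 2 ≤ 4) ∨ ((DE i C x 2).card = 2 ∧ CH i C x 2 ≤ 8) := by
  have hm := h.hm
  have h1 := h.CH2_le
  rw [← mul_sum] at h1
  obtain ⟨h2, h3⟩ := h.W.sum_pen_le (k := 2) (by omega) h.dcv2
  have h4 : (DE i C x 2).card = 0 ∨ (DE i C x 2).card = 1 ∨ (DE i C x 2).card = 2 := by omega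
  rcases h4 with h4 | h4 | h4 <;> rw [h4] at h1 h3 <;> norm_num at h1 h3
  · exact Or.inl ⟨h4, by linarith⟩
  · exact Or.inr (Or.inl ⟨h4, by linarith⟩)
  · exact Or.inr (Or.inr ⟨h4, by linarith⟩)

/-- the doubled end closed, at least five sites -/
theorem T_ge4 (hm4 : 4 ≤ m) (hn : (uc (x 0)).card = 2) (hl : 0 ≤ NE i C x (m - 1)) :
    0 ≤ Tv i C := by
  have hU := h.W.ue_zero (i := i) (C := C) (by omega) hn
  have hU2 := h.W.ue_inner (k := 2) (by omega) (by omega)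
  have h3 := h.TUs_le hm4
  have h4 := OCs_nonneg (i := i) (C := C) (w := w) (v := v)
  have h5 : 0 ≤ NE i C x 0 := by
    unfold NE
    rw [hU, card_empty]
    push_cast
    omega
  have hpos : ∀ k, 3 ≤ k → k < m → 0 ≤ NE i C x k := by
    intro k hk hk'
    rcases Nat.lt_or_ge (k + 1) m with h6 | h6
    · exact h.NE_nonneg (by omega) (by omega)
    · have : k = m - 1 := by omega
      rw [this]
      exact hl
  have p3 := hpos 3 le_rfl (by omega)
  have q1 := QS_bot (NE i C x) (s := 3) (t := m) (by omega)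
  have q2 := QS_nonneg (NE i C x) (s := 3 + 1) (t := m) (by omega)
    fun k hk hk' => hpos k (by omega) (by omega)
  have q3 : (0 : ℤ) ≤ if 3 + 1 < m then 2 * NE i C x 3 * NE i C x (3 + 1) else 0 := by
    split_ifs with h6
    · have := hpos (3 + 1) (by omega) h6
      positivity
    · exact le_rfl
  have q4 := sq_sub_nonneg (NE i C x 3)
  have e2 : NE i C x 2 = ((DE i C x 2).card : ℤ) := by
    unfold NE
    rw [hU2, card_empty]
    push_cast
    ring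
  unfold Tv
  rw [h.w3_eq, h.L_form hm4, h.Zs_eq hm4, hn, e2, q1]
  push_cast
  have t1 : ((TUs i C x).card : ℤ) ≤ 1 := by exact_mod_cast h3
  have t2 : (0 : ℤ) ≤ ((TLs i C x).card : ℤ) := by positivity
  have t3 : (0 : ℤ) ≤ NE i C x 0 ^ 2 := sq_nonneg _
  rcases h.CH2_num with ⟨d, c⟩ | ⟨d, c⟩ | ⟨d, c⟩ <;> rw [d] <;> push_cast <;> linarith

/-- four sites -/
theorem T_ge3 (hm3 : m = 3) (h3 : (uc (x 3)).card + (pen (x 3)).card ≤ 2)
    (hU : (UE i C x 2 = ∅ ∧ pen (x 2) = ∅) ∨ ((uc (x 3)).card + (pen (x 3)).card ≤ 1 ∧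
      (UE i C x 2 = ∅ ∨ pen (x 2) = ∅))) :
    2 * ((pen (x 2)).card : ℤ) ≤ Tv i C := by
  have g1 := h.deg2
  have g2 := h.W.dc_le (k := 2) (by omega)
  have g3 := h.W.UE_one (i := i) (C := C) 2
  have g4 := card_le_card (T4_subset i C)
  have g5 := sq_add_nonneg (NE i C x 0 + (uc (x 0)).card - 1 - (pen (x 2)).card)
  have e2 : NE i C x 2 = ((DE i C x 2).card : ℤ) - (UE i C x 2).card := rfl
  unfold Tv
  rw [h.w3_eq, h.L_form3 hm3, e2]
  obtain ⟨s, hs⟩ : ∃ s, s = (uc (x 3)).card := ⟨_, rfl⟩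
  obtain ⟨q, hq⟩ : ∃ q, q = (pen (x 3)).card := ⟨_, rfl⟩
  obtain ⟨p, hp⟩ : ∃ p, p = (pen (x 2)).card := ⟨_, rfl⟩
  obtain ⟨u, hu⟩ : ∃ u, u = (UE i C x 2).card := ⟨_, rfl⟩
  have hcase : (u = 0 ∧ p = 0) ∨ (s + q ≤ 1 ∧ (u = 0 ∨ p = 0)) := by
    rcases hU with ⟨a1, a2⟩ | ⟨a1, a2⟩
    · left
      exact ⟨by rw [hu, a1, card_empty], by rw [hp, a2, card_empty]⟩
    · right
      refine ⟨by omega, ?_⟩
      rcases a2 with a2 | a2
      · left; rw [hu, a2, card_empty]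
      · right; rw [hp, a2, card_empty]
  rw [← hs, ← hq] at h3
  rw [← hp] at g1 g5
  rw [← hu] at g3
  rw [← hs, ← hq, ← hp, ← hu]
  have hz : (0 : ℤ) ≤ (Z4 i C).card - (T4 i C).card := by
    have : ((T4 i C).card : ℤ) ≤ (Z4 i C).card := by exact_mod_cast g4
    linarith
  have hs0 : (0 : ℤ) ≤ s := by positivity
  have hq0 : (0 : ℤ) ≤ q := by positivity
  have hsq : (s : ℤ) + q ≤ 2 := by exact_mod_cast h3
  have hu' : u = 0 ∨ u = 1 := by omega
  have hp' : p = 0 ∨ p = 1 := by omega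
  rcases h.CH2_num with ⟨d, c⟩ | ⟨d, c⟩ | ⟨d, c⟩ <;> rw [d] <;>
    rcases hu' with rfl | rfl <;> rcases hp' with rfl | rfl <;>
    rcases hcase with ⟨a1, a2⟩ | ⟨a1, a2⟩ <;>
    first
    | omega
    | (have a3 : (s : ℤ) + q ≤ 1 := by exact_mod_cast a1
       push_cast at g5 ⊢
       linarith)
    | (push_cast at g5 ⊢
       linarith)

end DLg

namespace Rg

variable (h : Rg r i K psi C w v x)
include h

lemma dcv12 : dcv (x 1) (x (1 + 1)) = 1 := by
  have := h.dn 1 2 (by omega) (by omega)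
  norm_num at this
  exact this

lemma dcv23 : dcv (x 2) (x (2 + 1)) = 1 := by
  have := h.dn 2 3 (by omega) (by omega)
  norm_num at this
  exact this

/-- the pattern R: at least 2, and more if there is a pendant below the double of the two ends -/
theorem T_ge (hp1 : pen (x 1) = ∅) (hU : ∀ z ∈ UE i C x 2, ch i C z ≤ 0) :
    2 ≤ Tv i C ∧ (DE i C x 3 ≠ ∅ ∨ pen (x 0) ≠ ∅ → 3 ≤ Tv i C) := by
  classical
  have W := h.W
  have e0 := h.NE0
  have e1 := h.NE1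
  have e3 := h.NE3
  have c1 : CH i C x 1 ≤ ∑ a ∈ DE i C x 1, (2 * ((pen a).card : ℤ)) +
      (DE i C x 1).card * ((DE i C x 1).card - 1) := by
    rw [W.CH_split, W.sum_DE (by omega) h.dcv12, h.UE1, sum_empty, add_zero]
  rw [← mul_sum] at c1
  obtain ⟨b1, b2⟩ := W.sum_pen_le (k := 1) (by omega) h.dcv12
  obtain ⟨b3, -⟩ := W.sum_pen_le (k := 2) (by omega) h.dcv23
  have c2 : ((DE i C x 2).card : ℤ) * ((DE i C x 2).card - 1) ≤ CH i C x 2 := by
    rw [W.CH_split, W.sum_DE (by omega) h.dcv23]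
    have g1 : 0 ≤ ∑ a ∈ DE i C x 2, (2 * ((pen a).card : ℤ)) :=
      sum_nonneg fun a _ => by positivity
    have g2 : 0 ≤ ∑ z ∈ UE i C x 2, vp i z * ch i C z := by
      refine sum_nonneg fun z hz => ?_
      rw [vp_PU (mem_UE.1 hz).2.1]
      have := hU z hz
      linarith
    linarith
  have u2 := W.UE_one (i := i) (C := C) 2
  have u02 := W.ue_sum (i := i) (C := C) 0 2 (by omega) (by omega) (by omega)
  have h9 := card_le_card (T4_subset i C)
  have hp0 := h.deg0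
  have hp0' := W.dc_le (k := 0) (by omega)
  have e2 : NE i C x 2 = ((DE i C x 2).card : ℤ) - (UE i C x 2).card := rfl
  unfold Tv
  rw [h.w3_eq, h.L_form, hp1, card_empty]
  obtain ⟨n0, hn0⟩ : ∃ n, n = (UE i C x 0).card := ⟨_, rfl⟩
  obtain ⟨n1, hn1⟩ : ∃ n, n = (DE i C x 1).card := ⟨_, rfl⟩
  obtain ⟨n2, hn2⟩ : ∃ n, n = (DE i C x 2).card := ⟨_, rfl⟩
  obtain ⟨n2', hn2'⟩ : ∃ n, n = (UE i C x 2).card := ⟨_, rfl⟩
  obtain ⟨n3, hn3⟩ : ∃ n, n = (DE i C x 3).card := ⟨_, rfl⟩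
  obtain ⟨p0, hp⟩ : ∃ n, n = (pen (x 0)).card := ⟨_, rfl⟩
  have hne : DE i C x 3 ≠ ∅ ∨ pen (x 0) ≠ ∅ → 1 ≤ n3 ∨ 1 ≤ p0 := by
    rintro (h1 | h1)
    · left
      rw [hn3]
      exact Nat.one_le_iff_ne_zero.2 (fun h2 => h1 (card_eq_zero.1 h2))
    · right
      rw [hp]
      exact Nat.one_le_iff_ne_zero.2 (fun h2 => h1 (card_eq_zero.1 h2))
  rw [← hn0] at e0 u02
  rw [← hn1] at e1 c1 b1 b2
  rw [← hn2] at e2 b3 c2
  rw [← hn2'] at e2 u2 u02
  rw [← hn3] at e3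
  rw [← hp] at hp0 ⊢
  rw [e0, e1, e2, e3]
  have hz : (0 : ℤ) ≤ (Z4 i C).card - (T4 i C).card := by
    have : ((T4 i C).card : ℤ) ≤ (Z4 i C).card := by exact_mod_cast h9
    linarith
  have hb : (0 : ℤ) ≤ n3 := by positivity
  have hb2 : (0 : ℤ) ≤ (n3 : ℤ) ^ 2 := sq_nonneg _
  have q1 : n1 = 0 ∨ n1 = 1 ∨ n1 = 2 := by omega
  have q0 : n0 = 0 ∨ n0 = 1 := by omega
  have q2 : n2' = 0 ∨ n2' = 1 := by omega
  have q3 : n2 = 0 ∨ n2 = 1 ∨ n2 = 2 := by omega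
  have qp : p0 = 0 ∨ p0 = 1 := by omega
  have key : ∀ T : ℤ, (2 ≤ T ∧ (1 ≤ (n3 : ℤ) → 3 ≤ T) ∧ (1 ≤ p0 → 3 ≤ T)) →
      2 ≤ T ∧ (DE i C x 3 ≠ ∅ ∨ pen (x 0) ≠ ∅ → 3 ≤ T) := by
    intro T hT
    refine ⟨hT.1, fun h1 => ?_⟩
    rcases hne h1 with h2 | h2
    · exact hT.2.1 (by exact_mod_cast h2)
    · exact hT.2.2 h2
  apply key
  rcases q2 with rfl | rfl
  · rcases q1 with rfl | rfl | rfl <;> rcases q3 with rfl | rfl | rfl <;>
      rcases q0 with rfl | rfl <;> rcases qp with rfl | rfl <;>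
      norm_num at c1 c2 b2 <;>
      refine ⟨?_, fun hn => ?_, fun hq => ?_⟩ <;>
      first | omega | (norm_num; linarith) | linarith
  · have q0' : n0 = 0 := by omega
    subst q0'
    rcases q1 with rfl | rfl | rfl <;> rcases q3 with rfl | rfl | rfl <;>
      rcases qp with rfl | rfl <;>
      norm_num at c1 c2 b2 <;>
      refine ⟨?_, fun hn => ?_, fun hq => ?_⟩ <;>
      first | omega | (norm_num; linarith) | linarith

end Rg

end Pool.Agent.GaussPoset.Win.W4
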