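import Mathlib
import Pool.Agent.W_448zz_h61.Ns
import Pool.Agent.W_448zz_h61.M083
import Pool.Agent.W_448zz_h61.M219
import Pool.Agent.W_448zz_h61.M220

/-! From `Pool.Agent.W_448j6_h22.KcA` -/

section

/-!
MP_448cb3_co, G2, case B, window `j`: the triangle (three sites, two lower doubles over the two
outer sites, no lower double over the two edges): the frame.
-/

namespace Pool.Agent.GaussPoset.Win.W4

set_option linter.unusedSectionVars false

open Finset
open Pool.Agent.GaussPoset.Win.SO (LowD UppD val_gen)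

universe u

variable {P : Type u} [Fintype P] [PartialOrder P] [DecidableEq P] {r i : ℕ}
variable {e : P → ℕ} {C : Finset P} {x0 x1 x2 v1 v2 w w' p : P}

/-- the triangle -/
structure Tri (r i : ℕ) (C : Finset P) (x0 x1 x2 v1 v2 w w' p : P) : Prop where
  H : Gr P r
  hi : 1 ≤ i
  hi2 : i + 1 ≤ r
  hC : Part (i + 1) C
  l0 : lev x0 = i
  l1 : lev x1 = i
  l2 : lev x2 = i
  hst : st i C = {x0, x1, x2}
  n01 : x0 ≠ x1
  n02 : x0 ≠ x2
  n12 : x1 ≠ x2
  u0 : uc x0 = {v1}
  u1 : uc x1 = {v1, v2}
  u2 : uc x2 = {v2}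
  hv1 : dc v1 = {x0, x1}
  hv2 : dc v2 = {x1, x2}
  d0 : dc x0 = {w, w'}
  d1 : dc x1 = {p}
  d2 : dc x2 = {w, w'}
  hw : uc w = {x0, x2}
  hw' : uc w' = {x0, x2}
  hp : uc p = {x1}
  nw : w ≠ w'

namespace Tri

variable (T : Tri r i C x0 x1 x2 v1 v2 w w' p)
include T

/-- the other orientation -/
lemma rev : Tri r i C x2 x1 x0 v2 v1 w w' p where
  H := T.H
  hi := T.hi
  hi2 := T.hi2
  hC := T.hC
  l0 := T.l2
  l1 := T.l1
  l2 := T.l0
  hst := by
    rw [T.hst]
    ext z
    simp only [mem_insert, mem_singleton]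
    tauto
  n01 := T.n12.symm
  n02 := T.n02.symm
  n12 := T.n01.symm
  u0 := T.u2
  u1 := by rw [T.u1, pair_comm]
  u2 := T.u0
  hv1 := by rw [T.hv2, pair_comm]
  hv2 := by rw [T.hv1, pair_comm]
  d0 := T.d2
  d1 := T.d1
  d2 := T.d0
  hw := by rw [T.hw, pair_comm]
  hw' := by rw [T.hw', pair_comm]
  hp := T.hp
  nw := T.nw

/-- the doubles exchanged -/
lemma swap : Tri r i C x0 x1 x2 v1 v2 w' w p where
  H := T.H
  hi := T.hi
  hi2 := T.hi2
  hC := T.hC
  l0 := T.l0
  l1 := T.l1
  l2 := T.l2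
  hst := T.hst
  n01 := T.n01
  n02 := T.n02
  n12 := T.n12
  u0 := T.u0
  u1 := T.u1
  u2 := T.u2
  hv1 := T.hv1
  hv2 := T.hv2
  d0 := by rw [T.d0, pair_comm]
  d1 := T.d1
  d2 := by rw [T.d2, pair_comm]
  hw := T.hw'
  hw' := T.hw
  hp := T.hp
  nw := T.nw.symm

lemma hir : i ≤ r := by have := T.hi2; omega

lemma part : Part i C := ⟨fun h1 h2 => T.hC.up h1 h2, fun h1 h2 h3 => T.hC.dn h1 (by omega) h3⟩

lemma c_w0 : w ⋖ x0 := mem_uc.1 (by rw [T.hw]; simp)
lemma c_w2 : w ⋖ x2 := mem_uc.1 (by rw [T.hw]; simp)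
lemma c_w0' : w' ⋖ x0 := mem_uc.1 (by rw [T.hw']; simp)

lemma c_p : p ⋖ x1 := mem_uc.1 (by rw [T.hp]; simp)
lemma c_01 : x0 ⋖ v1 := mem_uc.1 (by rw [T.u0]; simp)
lemma c_11 : x1 ⋖ v1 := mem_uc.1 (by rw [T.u1]; simp)
lemma c_12 : x1 ⋖ v2 := mem_uc.1 (by rw [T.u1]; simp)
lemma c_22 : x2 ⋖ v2 := mem_uc.1 (by rw [T.u2]; simp)

lemma lw : lev w = i + 1 := by
  have := lev_cov T.H T.c_w0
  have := T.l0
  omega
lemma lw' : lev w' = i + 1 := T.swap.lw
lemma lp : lev p = i + 1 := by
  have := lev_cov T.H T.c_p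
  have := T.l1
  omega
lemma lv1 : lev v1 + 1 = i := by
  have := lev_cov T.H T.c_01
  have := T.l0
  omega
lemma lv2 : lev v2 + 1 = i := T.rev.lv1

lemma nv : v1 ≠ v2 := by
  rintro h
  have h1 : x0 ∈ dc v2 := by rw [← h]; exact mem_dc.2 T.c_01
  rw [T.hv2, mem_insert, mem_singleton] at h1
  rcases h1 with h1 | h1
  · exact T.n01 h1
  · exact T.n02 h1

lemma nwp : w ≠ p := by
  rintro h
  have h1 : x0 ∈ uc p := by rw [← h]; exact mem_uc.2 T.c_w0
  rw [T.hp, mem_singleton] at h1
  exact T.n01 h1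

lemma nwp' : w' ≠ p := T.swap.nwp

lemma mC0 : x0 ∈ C := (mem_st.1 (show x0 ∈ st i C by rw [T.hst]; simp)).1
lemma mC1 : x1 ∈ C := (mem_st.1 (show x1 ∈ st i C by rw [T.hst]; simp)).1
lemma mC2 : x2 ∈ C := (mem_st.1 (show x2 ∈ st i C by rw [T.hst]; simp)).1
lemma mV1 : v1 ∈ C := T.hC.up T.mC0 T.c_01
lemma mV2 : v2 ∈ C := T.hC.up T.mC2 T.c_22
lemma mW : w ∈ C := T.hC.dn T.mC0 (by have := T.l0; omega) T.c_w0
lemma mW' : w' ∈ C := T.swap.mW
lemma mP : p ∈ C := T.hC.dn T.mC1 (by have := T.l1; omega) T.c_p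

lemma card_st : (st i C).card = 3 := by
  rw [T.hst, card_insert_of_notMem, card_pair T.n12]
  rw [mem_insert, mem_singleton]
  push Not
  exact ⟨T.n01, T.n02⟩

/-- the near elements and the sites -/
lemma cases_C {z : P} (hz : z ∈ C) : z = x0 ∨ z = x1 ∨ z = x2 ∨ z = v1 ∨ z = v2 ∨ z = w ∨ z = w' ∨
    z = p ∨ i + 2 ≤ lev z ∨ lev z + 2 ≤ i := by
  have hsite : ∀ y ∈ C, lev y = i → y = x0 ∨ y = x1 ∨ y = x2 := by
    intro y hy hl
    have h1 : y ∈ st i C := mem_st.2 ⟨hy, hl⟩
    rw [T.hst] at h1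
    simpa using h1
  have hl : lev z = i ∨ lev z = i + 1 ∨ lev z + 1 = i ∨ i + 2 ≤ lev z ∨ lev z + 2 ≤ i := by omega
  rcases hl with hl | hl | hl | hl | hl
  · rcases hsite z hz hl with h | h | h <;> tauto
  · obtain ⟨y, hy⟩ := uc_nonempty T.H (x := z) (by omega)
    have h1 := lev_uc T.H hy
    have hyz : z ∈ dc y := mem_dc.2 (mem_uc.1 hy)
    rcases hsite y (T.hC.up hz (mem_uc.1 hy)) (by omega) with rfl | rfl | rfl
    · rw [T.d0] at hyz
      simp only [mem_insert, mem_singleton] at hyz
      tauto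
    · rw [T.d1] at hyz
      simp only [mem_singleton] at hyz
      tauto
    · rw [T.d2] at hyz
      simp only [mem_insert, mem_singleton] at hyz
      tauto
  · obtain ⟨y, hy⟩ := dc_nonempty T.H (x := z) (by have := T.hi2; omega)
    have hyz : z ∈ uc y := mem_uc.2 (mem_dc.1 hy)
    have h1 := lev_cov T.H (mem_dc.1 hy)
    rcases hsite y (T.hC.dn hz (by omega) (mem_dc.1 hy)) (by omega) with rfl | rfl | rfl
    · rw [T.u0] at hyz
      simp only [mem_singleton] at hyz
      tauto
    · rw [T.u1] at hyz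
      simp only [mem_insert, mem_singleton] at hyz
      tauto
    · rw [T.u2] at hyz
      simp only [mem_singleton] at hyz
      tauto
  · tauto
  · tauto

/-! ### killed and guarded elements -/

lemma FD0 : FD e x0 ↔ e x0 < e w ∨ e x0 < e w' := by
  constructor
  · rintro ⟨z, hz, hlt⟩
    have h1 : z ∈ dc x0 := mem_dc.2 hz
    rw [T.d0, mem_insert, mem_singleton] at h1
    rcases h1 with rfl | rfl
    · exact Or.inl hlt
    · exact Or.inr hlt
  · rintro (h | h)
    · exact ⟨w, T.c_w0, h⟩
    · exact ⟨w', T.c_w0', h⟩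

lemma FD1 : FD e x1 ↔ e x1 < e p := by
  constructor
  · rintro ⟨z, hz, hlt⟩
    have h1 : z ∈ dc x1 := mem_dc.2 hz
    rw [T.d1, mem_singleton] at h1
    rw [h1] at hlt
    exact hlt
  · intro h
    exact ⟨p, T.c_p, h⟩

lemma FD2 : FD e x2 ↔ e x2 < e w ∨ e x2 < e w' := T.rev.FD0

lemma FU0 : FU e x0 ↔ e x0 < e v1 := by
  constructor
  · rintro ⟨z, hz, hlt⟩
    have h1 : z ∈ uc x0 := mem_uc.2 hz
    rw [T.u0, mem_singleton] at h1
    rw [h1] at hlt
    exact hlt
  · intro h
    exact ⟨v1, T.c_01, h⟩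

lemma FU1 : FU e x1 ↔ e x1 < e v1 ∨ e x1 < e v2 := by
  constructor
  · rintro ⟨z, hz, hlt⟩
    have h1 : z ∈ uc x1 := mem_uc.2 hz
    rw [T.u1, mem_insert, mem_singleton] at h1
    rcases h1 with rfl | rfl
    · exact Or.inl hlt
    · exact Or.inr hlt
  · rintro (h | h)
    · exact ⟨v1, T.c_11, h⟩
    · exact ⟨v2, T.c_12, h⟩

lemma FU2 : FU e x2 ↔ e x2 < e v2 := T.rev.FU0

lemma GUw : GU e w ↔ e w ≤ e x0 ∨ e w ≤ e x2 := by
  constructor
  · rintro ⟨z, hz, hlt⟩
    have h1 : z ∈ uc w := mem_uc.2 hz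
    rw [T.hw, mem_insert, mem_singleton] at h1
    rcases h1 with rfl | rfl
    · exact Or.inl hlt
    · exact Or.inr hlt
  · rintro (h | h)
    · exact ⟨x0, T.c_w0, h⟩
    · exact ⟨x2, T.c_w2, h⟩

lemma GUw' : GU e w' ↔ e w' ≤ e x0 ∨ e w' ≤ e x2 := T.swap.GUw

lemma GUp : GU e p ↔ e p ≤ e x1 := by
  constructor
  · rintro ⟨z, hz, hlt⟩
    have h1 : z ∈ uc p := mem_uc.2 hz
    rw [T.hp, mem_singleton] at h1
    rw [h1] at hlt
    exact hlt
  · intro h
    exact ⟨x1, T.c_p, h⟩

lemma GD1 : GD e v1 ↔ e v1 ≤ e x0 ∨ e v1 ≤ e x1 := by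
  constructor
  · rintro ⟨z, hz, hlt⟩
    have h1 : z ∈ dc v1 := mem_dc.2 hz
    rw [T.hv1, mem_insert, mem_singleton] at h1
    rcases h1 with rfl | rfl
    · exact Or.inl hlt
    · exact Or.inr hlt
  · rintro (h | h)
    · exact ⟨x0, T.c_01, h⟩
    · exact ⟨x1, T.c_11, h⟩

lemma GD2 : GD e v2 ↔ e v2 ≤ e x1 ∨ e v2 ≤ e x2 := by
  rw [T.rev.GD1]
  tauto

/-- the killed sites -/
lemma card_AL (hs : Spt C e) : (AL i e).card = (if e x0 < e w ∨ e x0 < e w' then 1 else 0) +
    (if e x1 < e p then 1 else 0) + (if e x2 < e w ∨ e x2 < e w' then 1 else 0) := by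
  classical
  have h1 : AL i e = ({x0, x1, x2} : Finset P).filter (fun v => FD e v) := by
    ext z
    rw [mem_filter, ← T.hst]
    constructor
    · intro h
      exact ⟨AL_sub T.part hs h, ((NormD_mem_AL _ _ _).1 h).2⟩
    · rintro ⟨h2, h3⟩
      exact (NormD_mem_AL _ _ _).2 ⟨(mem_st.1 h2).2, h3⟩
  rw [h1, card_filter, sum_insert (by simp [T.n01, T.n02]), sum_pair T.n12]
  simp only [T.FD0, T.FD1, T.FD2]
  ring

lemma card_AU (hs : Spt C e) : (AU i e).card = (if e x0 < e v1 then 1 else 0) +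
    (if e x1 < e v1 ∨ e x1 < e v2 then 1 else 0) + (if e x2 < e v2 then 1 else 0) := by
  classical
  have h1 : AU i e = ({x0, x1, x2} : Finset P).filter (fun v => FU e v) := by
    ext z
    rw [mem_filter, ← T.hst]
    constructor
    · intro h
      exact ⟨AU_sub T.H T.part hs h, ((NormD_mem_AU _ _ _).1 h).2⟩
    · rintro ⟨h2, h3⟩
      exact (NormD_mem_AU _ _ _).2 ⟨(mem_st.1 h2).2, h3⟩
  rw [h1, card_filter, sum_insert (by simp [T.n01, T.n02]), sum_pair T.n12]
  simp only [T.FU0, T.FU1, T.FU2]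
  ring

/-- no site is killed from both sides -/
lemma disj (h : Disjoint (AL i e) (AU i e)) :
    ((e x0 < e w ∨ e x0 < e w') → e v1 ≤ e x0) ∧
    (e x1 < e p → e v1 ≤ e x1 ∧ e v2 ≤ e x1) ∧
    ((e x2 < e w ∨ e x2 < e w') → e v2 ≤ e x2) := by
  have key : ∀ s : P, lev s = i → FD e s → ¬ FU e s := fun s hl h1 h2 =>
    disjoint_left.1 h ((NormD_mem_AL _ _ _).2 ⟨hl, h1⟩) ((NormD_mem_AU _ _ _).2 ⟨hl, h2⟩)
  refine ⟨fun h1 => ?_, fun h1 => ?_, fun h1 => ?_⟩
  · have := key x0 T.l0 (T.FD0.2 h1)
    rw [T.FU0] at this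
    omega
  · have := key x1 T.l1 (T.FD1.2 h1)
    rw [T.FU1] at this
    omega
  · have := key x2 T.l2 (T.FD2.2 h1)
    rw [T.FU2] at this
    omega

/-- the energy of the near elements and the sites -/
lemma sum8 : ∑ z ∈ ({x0, x1, x2, v1, v2, w, w', p} : Finset P), e z =
    e x0 + e x1 + e x2 + e v1 + e v2 + e w + e w' + e p := by
  have hi := T.hi
  have l0 := T.l0
  have l1 := T.l1
  have l2 := T.l2
  have lw := T.lw
  have lw' := T.lw'
  have lp := T.lp
  have lv1 := T.lv1
  have lv2 := T.lv2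
  have q : ∀ {a b : P}, lev a ≠ lev b → a ≠ b := fun h h1 => h (by rw [h1])
  rw [sum_insert, sum_insert, sum_insert, sum_insert, sum_insert, sum_insert, sum_pair T.nwp']
  · ring
  · simp only [mem_insert, mem_singleton]
    push Not
    exact ⟨T.nw, T.nwp⟩
  · simp only [mem_insert, mem_singleton]
    push Not
    exact ⟨q (by omega), q (by omega), q (by omega)⟩
  · simp only [mem_insert, mem_singleton]
    push Not
    exact ⟨T.nv, q (by omega), q (by omega), q (by omega)⟩
  · simp only [mem_insert, mem_singleton]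
    push Not
    exact ⟨q (by omega), q (by omega), q (by omega), q (by omega), q (by omega)⟩
  · simp only [mem_insert, mem_singleton]
    push Not
    exact ⟨T.n12, q (by omega), q (by omega), q (by omega), q (by omega), q (by omega)⟩
  · simp only [mem_insert, mem_singleton]
    push Not
    exact ⟨T.n01, T.n02, q (by omega), q (by omega), q (by omega), q (by omega), q (by omega)⟩

/-- the energy with far elements -/
lemma energy {n : ℕ} (hE : ∑ z, e z = n) :
    e x0 + e x1 + e x2 + e v1 + e v2 + e w + e w' + e p ≤ n ∧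
    ∀ g : P, (i + 2 ≤ lev g ∨ lev g + 2 ≤ i) →
      e g + (e x0 + e x1 + e x2 + e v1 + e v2 + e w + e w' + e p) ≤ n := by
  have l0 := T.l0
  have l1 := T.l1
  have l2 := T.l2
  have lw := T.lw
  have lw' := T.lw'
  have lp := T.lp
  have lv1 := T.lv1
  have lv2 := T.lv2
  rw [← T.sum8, ← hE]
  refine ⟨sum_le_sum_of_subset (subset_univ _), fun g hg => ?_⟩
  rw [← sum_insert]
  · exact sum_le_sum_of_subset (subset_univ _)
  · simp only [mem_insert, mem_singleton]
    rintro (h | h | h | h | h | h | h | h) <;> rw [h] at hg <;> omega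

end Tri

end Pool.Agent.GaussPoset.Win.W4

end

/-! From `Pool.Agent.W_448j6_h22.KcB` -/

section

/-!
MP_448cb3_co, G2, case B, window `j`: configurations of energy at most four: sides without free
elements, values.
-/

namespace Pool.Agent.GaussPoset.Win.W4

set_option linter.unusedSectionVars false

open Finset
open Pool.Agent.GaussPoset.Win.SO (LowD UppD val_gen coef_units)

universe u

variable {P : Type u} [Fintype P] [PartialOrder P] [DecidableEq P] {r i : ℕ}
variable {e : P → ℕ} {C : Finset P} {x0 x1 x2 v1 v2 w w' p : P}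

/-! ### sides -/

/-- above an excited lower element all lower covers are excited -/
lemma lab_up (H : Gr P r) (hA : AdmL i e) {z y : P} (hzy : z ⋖ y) (hl : i < lev y)
    (hz : 1 ≤ e z) : 1 ≤ e y := by
  by_contra h0
  have h1 : e y = 0 := by omega
  obtain ⟨s, hs⟩ := uc_nonempty H (x := y) (by omega)
  exact hA y hl ⟨⟨z, hzy, by omega⟩, s, mem_uc.1 hs, by rw [h1]; exact Nat.zero_le _⟩

/-- below an excited upper element all upper elements are excited -/
lemma lab_dn (H : Gr P r) (hir : i ≤ r) (hA : AdmU i e) {z y : P} (hzy : z ⋖ y) (hl : lev z < i)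
    (hy : 1 ≤ e y) : 1 ≤ e z := by
  by_contra h0
  have h1 : e z = 0 := by omega
  obtain ⟨s, hs⟩ := dc_nonempty H (x := z) (by omega)
  exact hA z hl ⟨⟨y, hzy, by omega⟩, s, mem_dc.1 hs, by rw [h1]; exact Nat.zero_le _⟩

lemma sum_three {a b c : P} (hab : a ≠ b) (hac : a ≠ c) (hbc : b ≠ c) :
    e a + e b + e c ≤ ∑ z, e z := by
  have h1 : ∑ z ∈ ({a, b, c} : Finset P), e z = e a + e b + e c := by
    rw [sum_insert, sum_pair hbc, add_assoc]
    rw [mem_insert, mem_singleton]
    push Not
    exact ⟨hab, hac⟩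
  rw [← h1]
  exact sum_le_sum_of_subset (subset_univ _)

/-- no free lower element: all lower elements are unkilled and guarded -/
lemma low_zero (H : Gr P r) (hA : AdmL i e) (hp : pL i e = 0) (hE : ∑ z, e z ≤ 4) {z : P}
    (hz : i < lev z) : ¬ FD e z ∧ GU e z := by
  classical
  have key : ∀ y : P, i < lev y → ¬ FD e y → GU e y := by
    intro y hy h1
    by_contra h2
    unfold pL at hp
    rw [card_eq_zero, filter_eq_empty_iff] at hp
    exact hp (mem_univ y) ⟨hy, h1, h2⟩
  have h1 : ¬ FD e z := by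
    rintro ⟨z', hz', hlt⟩
    have h2 : 1 ≤ e z := lab_up H hA hz' hz (by omega)
    have l1 := lev_cov H hz'
    have h3 : ¬ FD e z' := by
      rintro ⟨z'', hz'', hlt'⟩
      have l2 := lev_cov H hz''
      have h4 := sum_three (e := e) (a := z) (b := z') (c := z'') (by rintro rfl; omega)
        (by rintro rfl; omega) (by rintro rfl; omega)
      omega
    obtain ⟨u, hu, hle⟩ := key z' (by omega) h3
    have l2 := lev_cov H hu
    have h4 := sum_three (e := e) (a := z) (b := z') (c := u) (by rintro rfl; omega)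
      (by rintro rfl; omega) (by rintro rfl; omega)
    omega
  exact ⟨h1, key z hz h1⟩

/-- no free upper element -/
lemma upp_zero (H : Gr P r) (hir : i ≤ r) (hA : AdmU i e) (hp : pU i e = 0) (hE : ∑ z, e z ≤ 4)
    {z : P} (hz : lev z < i) : ¬ FU e z ∧ GD e z := by
  classical
  have key : ∀ y : P, lev y < i → ¬ FU e y → GD e y := by
    intro y hy h1
    by_contra h2
    unfold pU at hp
    rw [card_eq_zero, filter_eq_empty_iff] at hp
    exact hp (mem_univ y) ⟨hy, h1, h2⟩
  have h1 : ¬ FU e z := by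
    rintro ⟨z', hz', hlt⟩
    have h2 : 1 ≤ e z := lab_dn H hir hA hz' hz (by omega)
    have l1 := lev_cov H hz'
    have h3 : ¬ FU e z' := by
      rintro ⟨z'', hz'', hlt'⟩
      have l2 := lev_cov H hz''
      have h4 := sum_three (e := e) (a := z) (b := z') (c := z'') (by rintro rfl; omega)
        (by rintro rfl; omega) (by rintro rfl; omega)
      omega
    obtain ⟨u, hu, hle⟩ := key z' (by omega) h3
    have l2 := lev_cov H hu
    have h4 := sum_three (e := e) (a := z) (b := z') (c := u) (by rintro rfl; omega)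
      (by rintro rfl; omega) (by rintro rfl; omega)
    omega
  exact ⟨h1, key z hz h1⟩

lemma aL_zero (h : ∀ z : P, i < lev z → ¬ FD e z) : aL i e = 0 := by
  classical
  unfold aL
  rw [card_eq_zero, filter_eq_empty_iff]
  rintro z - ⟨h1, h2⟩
  exact h z h1 h2

lemma aU_zero (h : ∀ z : P, lev z < i → ¬ FU e z) : aU i e = 0 := by
  classical
  unfold aU
  rw [card_eq_zero, filter_eq_empty_iff]
  rintro z - ⟨h1, h2⟩
  exact h z h1 h2

/-- two free lower elements -/
lemma two_low {a b : P} (hab : a ≠ b) (ha : i < lev a ∧ ¬ FD e a ∧ ¬ GU e a)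
    (hb : i < lev b ∧ ¬ FD e b ∧ ¬ GU e b) : 2 ≤ pL i e := by
  classical
  unfold pL
  have h1 : ({a, b} : Finset P) ⊆ univ.filter (fun z : P => i < lev z ∧ ¬ FD e z ∧ ¬ GU e z) := by
    intro z hz
    rw [mem_insert, mem_singleton] at hz
    rw [mem_filter]
    rcases hz with rfl | rfl
    · exact ⟨mem_univ _, ha⟩
    · exact ⟨mem_univ _, hb⟩
  have h2 := card_le_card h1
  rwa [card_pair hab] at h2

/-- two free upper elements -/
lemma two_upp {a b : P} (hab : a ≠ b) (ha : lev a < i ∧ ¬ FU e a ∧ ¬ GD e a)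
    (hb : lev b < i ∧ ¬ FU e b ∧ ¬ GD e b) : 2 ≤ pU i e := by
  classical
  unfold pU
  have h1 : ({a, b} : Finset P) ⊆ univ.filter (fun z : P => lev z < i ∧ ¬ FU e z ∧ ¬ GD e z) := by
    intro z hz
    rw [mem_insert, mem_singleton] at hz
    rw [mem_filter]
    rcases hz with rfl | rfl
    · exact ⟨mem_univ _, ha⟩
    · exact ⟨mem_univ _, hb⟩
  have h2 := card_le_card h1
  rwa [card_pair hab] at h2

/-! ### values -/

/-- the second value of a configuration -/
noncomputable def vl (i : ℕ) (C : Finset P) (e : P → ℕ) : ℤ :=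
  PowerSeries.coeff (st i C).card (dd ^ 2 * tC i C e : A)

/-- the values, three sites -/
lemma vl_cases (H : Gr P r) (hC : Part i C) (hs : Spt C e) (hb : (st i C).card = 3) :
    vl i C e = 0 ∨
    (AdmL i e ∧ AdmU i e ∧ Disjoint (AL i e) (AU i e) ∧
      (AL i e).card + (AU i e).card = pL i e + pU i e + 2 ∧
      vl i C e = (-1) ^ (aL i e + (AL i e).card + (aU i e + pU i e))) ∨
    (AdmL i e ∧ AdmU i e ∧ Disjoint (AL i e) (AU i e) ∧
      (AL i e).card + (AU i e).card = 3 ∧ pL i e = 0 ∧ pU i e = 0) := by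
  classical
  unfold vl
  by_cases hd : Disjoint (AL i e) (AU i e)
  · by_cases hA : AdmL i e ∧ AdmU i e
    · have s1 : AL i e ∪ AU i e ⊆ st i C := union_subset (AL_sub hC hs) (AU_sub H hC hs)
      have s2 := card_le_card s1
      rw [card_union_of_disjoint hd, hb] at s2
      obtain ⟨s, hs'⟩ : ∃ s, s = 3 - (AL i e).card - (AU i e).card := ⟨_, rfl⟩
      obtain ⟨k, hk⟩ : ∃ k, k = 2 + (pL i e + pU i e) + s := ⟨_, rfl⟩
      have ht : dd ^ 2 * tC i C e = dd ^ k *
          (xx ^ (aL i e + (AL i e).card) * xi ^ (aU i e + pU i e)) := by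
        unfold tC cw
        rw [if_pos hd, if_pos hA, hb, hk, ← hs']
        ring
      rw [ht, hb]
      rcases Nat.lt_trichotomy k 3 with h1 | h1 | h1
      · right; right
        exact ⟨hA.1, hA.2, hd, by omega, by omega, by omega⟩
      · right; left
        refine ⟨hA.1, hA.2, hd, by omega, ?_⟩
        rw [h1]
        exact coef_units _ _ _
      · left
        exact I2.coeff_zero_of_dvd (a := k) (dvd_mul_right _ _) h1
    · left
      have ht : tC i C e = 0 := by
        unfold tC cw
        rw [if_pos hd, if_neg hA, zero_mul]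
      rw [ht, mul_zero, map_zero]
  · left
    have ht : tC i C e = 0 := by
      unfold tC
      rw [if_neg hd]
    rw [ht, mul_zero, map_zero]

/-- the energy of a configuration of the part -/
lemma energy_C {n : ℕ} (he : e ∈ C.piAntidiag n) : Spt C e ∧ ∑ z, e z = n := by
  rw [mem_piAntidiag] at he
  have hs : Spt C e := by
    intro x hx
    by_contra h1
    exact hx (he.2 x h1)
  refine ⟨hs, ?_⟩
  rw [← he.1]
  symm
  exact sum_subset (subset_univ C) fun x _ hx => hs x hx

namespace Tri

variable (T : Tri r i C x0 x1 x2 v1 v2 w w' p)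
include T

/-- all killed sites without a free element are impossible -/
lemma no_three (hs : Spt C e) (hE : ∑ z, e z = 4) (hAL : AdmL i e) (hAU : AdmU i e)
    (hd : Disjoint (AL i e) (AU i e)) (h3 : (AL i e).card + (AU i e).card = 3)
    (pl : pL i e = 0) (pu : pU i e = 0) : False := by
  have g1 := (low_zero T.H hAL pl hE.le (z := w) (by have := T.lw; omega)).2
  have g2 := (low_zero T.H hAL pl hE.le (z := w') (by have := T.lw'; omega)).2
  have g3 := (low_zero T.H hAL pl hE.le (z := p) (by have := T.lp; omega)).2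
  have g4 := (upp_zero T.H T.hir hAU pu hE.le (z := v1) (by have := T.lv1; omega)).2
  have g5 := (upp_zero T.H T.hir hAU pu hE.le (z := v2) (by have := T.lv2; omega)).2
  rw [T.GUw] at g1
  rw [T.GUw'] at g2
  rw [T.GUp] at g3
  rw [T.GD1] at g4
  rw [T.GD2] at g5
  obtain ⟨d1, d2, d3⟩ := T.disj hd
  obtain ⟨en, -⟩ := T.energy hE
  rw [T.card_AL hs, T.card_AU hs] at h3
  split_ifs at h3 <;> omega

end Tri

end Pool.Agent.GaussPoset.Win.W4

end

/-! From `Pool.Agent.W_448j6_h22.KcC` -/

section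

/-!
MP_448cb3_co, G2, case B, window `j`: the triangle: the classification of the configurations of energy
four with positive value.
-/

namespace Pool.Agent.GaussPoset.Win.W4

set_option linter.unusedSectionVars false

open Finset
open Pool.Agent.GaussPoset.Win.SO (LowD UppD val_gen coef_units)

universe u

variable {P : Type u} [Fintype P] [PartialOrder P] [DecidableEq P] {r i : ℕ}
variable {e : P → ℕ} {C : Finset P} {x0 x1 x2 v1 v2 w w' p : P}

namespace Tri

variable (T : Tri r i C x0 x1 x2 v1 v2 w w' p)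
include T

/-- the energy with two far elements -/
lemma energy2 {n : ℕ} (hE : ∑ z, e z = n) {g g' : P} (hg : i + 2 ≤ lev g ∨ lev g + 2 ≤ i)
    (hg' : i + 2 ≤ lev g' ∨ lev g' + 2 ≤ i) (hne : g ≠ g') :
    e g + (e g' + (e x0 + e x1 + e x2 + e v1 + e v2 + e w + e w' + e p)) ≤ n := by
  have l0 := T.l0
  have l1 := T.l1
  have l2 := T.l2
  have lw := T.lw
  have lw' := T.lw'
  have lp := T.lp
  have lv1 := T.lv1
  have lv2 := T.lv2
  have h1 : g' ∉ ({x0, x1, x2, v1, v2, w, w', p} : Finset P) := by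
    simp only [mem_insert, mem_singleton]
    rintro (h | h | h | h | h | h | h | h) <;> rw [h] at hg' <;> omega
  have h2 : g ∉ insert g' ({x0, x1, x2, v1, v2, w, w', p} : Finset P) := by
    simp only [mem_insert, mem_singleton]
    rintro (h | h | h | h | h | h | h | h | h)
    · exact hne h
    all_goals
      rw [h] at hg
      omega
  rw [← T.sum8, ← hE, ← sum_insert h1, ← sum_insert h2]
  exact sum_le_sum_of_subset (subset_univ _)

/-- an excited far element if the near elements have less energy -/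
lemma exists_far (hs : Spt C e) {n : ℕ} (hE : ∑ z, e z = n)
    (h : e x0 + e x1 + e x2 + e v1 + e v2 + e w + e w' + e p < n) :
    ∃ g ∈ C, (i + 2 ≤ lev g ∨ lev g + 2 ≤ i) ∧ 1 ≤ e g := by
  by_contra hcon
  push Not at hcon
  have h1 : ∑ z ∈ ({x0, x1, x2, v1, v2, w, w', p} : Finset P), e z = ∑ z, e z := by
    refine sum_subset (subset_univ _) fun z _ hz => ?_
    by_cases hC : z ∈ C
    · simp only [mem_insert, mem_singleton] at hz
      have h2 := T.cases_C hC
      have h3 : i + 2 ≤ lev z ∨ lev z + 2 ≤ i := by tauto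
      have := hcon z hC h3
      omega
    · exact hs z hC
  rw [T.sum8, hE] at h1
  omega

/-- all the killed sites from below, one free lower element, no free upper element: an even number of
killed lower elements -/
lemma aL_two (hs : Spt C e) (hE : ∑ z, e z = 4) (hAL : AdmL i e) (hp : pL i e = 1)
    (h0 : e x0 < e w) (h1 : e x1 < e p) (h2 : e x2 < e w) : aL i e = 2 := by
  classical
  have H := T.H
  obtain ⟨en, en1⟩ := T.energy hE
  have lw := T.lw
  have lw' := T.lw'
  have lp := T.lp
  have lv1 := T.lv1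
  have lv2 := T.lv2
  have l0 := T.l0
  have l1 := T.l1
  have l2 := T.l2
  have gw : ¬ GU e w := by rw [T.GUw]; omega
  have gp : ¬ GU e p := by rw [T.GUp]; omega
  have hfd : FD e w ∨ FD e p := by
    by_contra h3
    push Not at h3
    have := two_low (e := e) (i := i) T.nwp ⟨by omega, h3.1, gw⟩ ⟨by omega, h3.2, gp⟩
    omega
  -- the far element
  obtain ⟨z, hz2, lz⟩ : ∃ z : P, 2 ≤ e z ∧ lev z = i + 2 := by
    rcases hfd with ⟨z, hz, hlt⟩ | ⟨z, hz, hlt⟩
    · have := lev_cov H hz
      exact ⟨z, by omega, by omega⟩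
    · have := lev_cov H hz
      exact ⟨z, by omega, by omega⟩
  have en2 := en1 z (Or.inl (by omega))
  have far0 : ∀ g : P, (i + 2 ≤ lev g ∨ lev g + 2 ≤ i) → g ≠ z → e g = 0 := by
    intro g hg hne
    have := T.energy2 hE hg (Or.inl (by omega : i + 2 ≤ lev z)) hne
    omega
  have hall : ∀ g : P, 2 ≤ e g → g = z := by
    intro g hg
    have hC : g ∈ C := by
      by_contra h3
      rw [hs g h3] at hg
      omega
    by_contra hne
    rcases T.cases_C hC with h | h | h | h | h | h | h | h | h | h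
    · rw [h] at hg; omega
    · rw [h] at hg; omega
    · rw [h] at hg; omega
    · rw [h] at hg; omega
    · rw [h] at hg; omega
    · rw [h] at hg; omega
    · rw [h] at hg; omega
    · rw [h] at hg; omega
    · rw [far0 g (Or.inl h) hne] at hg; omega
    · rw [far0 g (Or.inr h) hne] at hg; omega
  have fz : ¬ FD e z := by
    rintro ⟨z', hz', hlt⟩
    have := lev_cov H hz'
    have h3 := hall z' (by omega)
    rw [h3] at hlt
    omega
  have gz : ¬ GU e z := by
    rintro ⟨u, hu, hle⟩
    have := lev_cov H hu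
    have h3 := hall u (by omega)
    rw [h3] at this
    omega
  have hww : ∀ y : P, i < lev y → e y = 1 → FD e y → z ⋖ y := by
    rintro y - hy ⟨z', hz', hlt⟩
    have := hall z' (by omega)
    rwa [this] at hz'
  have zw : FD e w := by
    by_contra h3
    have := two_low (e := e) (i := i) (a := w) (b := z) (by rintro rfl; omega)
      ⟨by omega, h3, gw⟩ ⟨by omega, fz, gz⟩
    omega
  have zp : FD e p := by
    by_contra h3
    have := two_low (e := e) (i := i) (a := p) (b := z) (by rintro rfl; omega)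
      ⟨by omega, h3, gp⟩ ⟨by omega, fz, gz⟩
    omega
  have cw := hww w (by omega) (by omega) zw
  have cp := hww p (by omega) (by omega) zp
  have huz : ({w, p} : Finset P) = uc z := by
    apply eq_of_subset_of_card_le
    · intro s hs
      rw [mem_insert, mem_singleton] at hs
      rcases hs with rfl | rfl
      · exact mem_uc.2 cw
      · exact mem_uc.2 cp
    · rw [card_pair T.nwp]
      exact uc_card_le H z
  unfold aL
  have : univ.filter (fun z : P => i < lev z ∧ FD e z) = {w, p} := by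
    ext s
    rw [mem_filter]
    constructor
    · rintro ⟨-, h3, z', hz', hlt⟩
      have l3 := lev_cov H hz'
      have h4 : z' = z := by
        by_contra hne
        rw [far0 z' (Or.inl (by omega)) hne] at hlt
        omega
      rw [huz, ← h4]
      exact mem_uc.2 hz'
    · intro h3
      rw [mem_insert, mem_singleton] at h3
      rcases h3 with rfl | rfl
      · exact ⟨mem_univ _, by omega, zw⟩
      · exact ⟨mem_univ _, by omega, zp⟩
  rw [this, card_pair T.nwp]

/-- all the sites killed from above, one free upper element: an even number of killed upper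
elements -/
lemma aU_even (hs : Spt C e) (hE : ∑ z, e z = 4) (hAU : AdmU i e) (hp : pU i e = 1)
    (h0 : e x0 < e v1) (h2 : e x2 < e v2) : aU i e = 0 ∨ aU i e = 2 := by
  classical
  have H := T.H
  have hir := T.hir
  obtain ⟨en, en1⟩ := T.energy hE
  have lw := T.lw
  have lw' := T.lw'
  have lp := T.lp
  have lv1 := T.lv1
  have lv2 := T.lv2
  have l0 := T.l0
  have l1 := T.l1
  have l2 := T.l2
  by_cases hfu : ∀ z : P, lev z < i → ¬ FU e z
  · exact Or.inl (aU_zero hfu)
  right
  push Not at hfu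
  obtain ⟨u, hu, u', huu, hlt⟩ := hfu
  have lu := lev_cov H huu
  have hu1 : 1 ≤ e u := lab_dn H hir hAU huu hu (by omega)
  have en2 := en1 u' (Or.inr (by omega))
  have far0 : ∀ g : P, (i + 2 ≤ lev g ∨ lev g + 2 ≤ i) → g ≠ u' → e g = 0 := by
    intro g hg hne
    have := T.energy2 hE hg (Or.inr (by omega : lev u' + 2 ≤ i)) hne
    omega
  have hall : ∀ g : P, 2 ≤ e g → g = u' := by
    intro g hg
    have hC : g ∈ C := by
      by_contra h3
      rw [hs g h3] at hg
      omega
    by_contra hne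
    rcases T.cases_C hC with h | h | h | h | h | h | h | h | h | h
    · rw [h] at hg; omega
    · rw [h] at hg; omega
    · rw [h] at hg; omega
    · rw [h] at hg; omega
    · rw [h] at hg; omega
    · rw [h] at hg; omega
    · rw [h] at hg; omega
    · rw [h] at hg; omega
    · rw [far0 g (Or.inl h) hne] at hg; omega
    · rw [far0 g (Or.inr h) hne] at hg; omega
  have fz : ¬ FU e u' := by
    rintro ⟨z', hz', hlt'⟩
    have := lev_cov H hz'
    have h3 := hall z' (by omega)
    rw [h3] at hlt'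
    omega
  have gz : ¬ GD e u' := by
    rintro ⟨z', hz', hle⟩
    have := lev_cov H hz'
    have h3 := hall z' (by omega)
    rw [h3] at this
    omega
  have g1 : ¬ GD e v1 := by rw [T.GD1]; omega
  have g2 : ¬ GD e v2 := by rw [T.GD2]; omega
  have f1 : FU e v1 := by
    by_contra h3
    have := two_upp (e := e) (i := i) (a := v1) (b := u') (by rintro rfl; omega)
      ⟨by omega, h3, g1⟩ ⟨by omega, fz, gz⟩
    omega
  have f2 : FU e v2 := by
    by_contra h3
    have := two_upp (e := e) (i := i) (a := v2) (b := u') (by rintro rfl; omega)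
      ⟨by omega, h3, g2⟩ ⟨by omega, fz, gz⟩
    omega
  have hvv : ∀ y : P, e y = 1 → FU e y → y ⋖ u' := by
    rintro y hy ⟨z', hz', hlt'⟩
    have := hall z' (by omega)
    rwa [this] at hz'
  have c1 := hvv v1 (by omega) f1
  have c2 := hvv v2 (by omega) f2
  have hdu : ({v1, v2} : Finset P) = dc u' := by
    apply eq_of_subset_of_card_le
    · intro s hs
      rw [mem_insert, mem_singleton] at hs
      rcases hs with rfl | rfl
      · exact mem_dc.2 c1
      · exact mem_dc.2 c2
    · rw [card_pair T.nv]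
      exact dc_card_le H u'
  unfold aU
  have : univ.filter (fun z : P => lev z < i ∧ FU e z) = {v1, v2} := by
    ext s
    rw [mem_filter]
    constructor
    · rintro ⟨-, h3, z', hz', hlt'⟩
      have l3 := lev_cov H hz'
      have h4 : z' = u' := by
        by_contra hne
        rw [far0 z' (Or.inr (by omega)) hne] at hlt'
        omega
      rw [hdu, ← h4]
      exact mem_dc.2 hz'
    · intro h3
      rw [mem_insert, mem_singleton] at h3
      rcases h3 with rfl | rfl
      · exact ⟨mem_univ _, by omega, f1⟩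
      · exact ⟨mem_univ _, by omega, f2⟩
  rw [this, card_pair T.nv]

end Tri

end Pool.Agent.GaussPoset.Win.W4

end

/-! From `Pool.Agent.W_448j6_h22.KcE` -/

section

/-!
MP_448cb3_co, G2, case B, window `j`: the triangle: the configurations of energy four with positive
value.
-/

namespace Pool.Agent.GaussPoset.Win.W4

set_option linter.unusedSectionVars false

open Finset
open Pool.Agent.GaussPoset.Win.SO (LowD UppD val_gen coef_units)

universe u

variable {P : Type u} [Fintype P] [PartialOrder P] [DecidableEq P] {r i : ℕ}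
variable {e : P → ℕ} {C : Finset P} {x0 x1 x2 v1 v2 w w' p : P}

lemma even_of_pos {n : ℕ} (h : 0 < (-1 : ℤ) ^ n) : n % 2 = 0 := by
  rcases Nat.even_or_odd n with h1 | h1
  · exact Nat.even_iff.1 h1
  · rw [h1.neg_one_pow] at h
    omega

/-- the values of the near elements -/
def tup (e : P → ℕ) (x0 x1 x2 v1 v2 w w' p : P) : List ℕ :=
  tcd (e x0) (e x1) (e x2) (e v1) (e v2) (e w) (e w') (e p)

namespace Tri

variable (T : Tri r i C x0 x1 x2 v1 v2 w w' p)
include T

/-- the case of a far excited element -/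
lemma far_case (hs : Spt C e) (hE : ∑ z, e z = 4) (hAL : AdmL i e) (hAU : AdmU i e)
    (h : e x0 = 0 ∧ e x1 = 1 ∧ e x2 = 0 ∧ e v1 = 1 ∧ e v2 = 1 ∧ e w = 0 ∧ e w' = 0 ∧ e p = 0) :
    ∃ g ∈ uc v1 ∪ uc v2, e g = 1 ∧ ∀ z : P, z ≠ g → z ≠ x1 → z ≠ v1 → z ≠ v2 → e z = 0 := by
  have H := T.H
  have lw := T.lw
  have lw' := T.lw'
  have lp := T.lp
  have lv1 := T.lv1
  have lv2 := T.lv2
  have l0 := T.l0
  have l1 := T.l1
  have l2 := T.l2
  obtain ⟨g, hgC, hgf, hg1⟩ := T.exists_far hs hE (by omega)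
  obtain ⟨en, en1⟩ := T.energy hE
  have hg2 := en1 g hgf
  have hfar : ∀ z : P, (i + 2 ≤ lev z ∨ lev z + 2 ≤ i) → z ≠ g → e z = 0 := by
    intro z hz hne
    have := T.energy2 hE hz hgf hne
    omega
  have hall : ∀ z : P, z ≠ g → z ≠ x1 → z ≠ v1 → z ≠ v2 → e z = 0 := by
    intro z h1 h2 h3 h4
    by_cases hC : z ∈ C
    · rcases T.cases_C hC with h5 | h5 | h5 | h5 | h5 | h5 | h5 | h5 | h5 | h5
      · rw [h5]; omega
      · exact absurd h5 h2
      · rw [h5]; omega
      · exact absurd h5 h3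
      · exact absurd h5 h4
      · rw [h5]; omega
      · rw [h5]; omega
      · rw [h5]; omega
      · exact hfar z (Or.inl h5) h1
      · exact hfar z (Or.inr h5) h1
    · exact hs z hC
  refine ⟨g, ?_, by omega, hall⟩
  rcases hgf with hgl | hgu
  · exfalso
    obtain ⟨u, hu⟩ := uc_nonempty H (x := g) (by omega)
    have hl := lev_uc H hu
    have h1 := lab_up H hAL (mem_uc.1 hu) (by omega) hg1
    have h2 := hall u (by rintro rfl; omega) (by rintro rfl; omega) (by rintro rfl; omega)
      (by rintro rfl; omega)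
    omega
  · obtain ⟨u, hu⟩ := dc_nonempty H (x := g) (by have := T.hi2; omega)
    have hl := lev_cov H (mem_dc.1 hu)
    have h1 := lab_dn H T.hir hAU (mem_dc.1 hu) (by omega) hg1
    rw [mem_union]
    by_contra hcon
    push Not at hcon
    have h2 := hall u (by rintro rfl; omega) (by rintro rfl; omega)
      (by rintro rfl; exact hcon.1 (mem_uc.2 (mem_dc.1 hu)))
      (by rintro rfl; exact hcon.2 (mem_uc.2 (mem_dc.1 hu)))
    omega

/-- the configurations of energy four with positive value -/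
lemma pos_cases (he : e ∈ C.piAntidiag 4) (hv : 0 < vl i C e) :
    (tup e x0 x1 x2 v1 v2 w w' p ∈ tens ∧ ∀ g : P, (i + 2 ≤ lev g ∨ lev g + 2 ≤ i) → e g = 0) ∨
    (e x1 = 1 ∧ e v1 = 1 ∧ e v2 = 1 ∧
      ∃ g ∈ uc v1 ∪ uc v2, e g = 1 ∧ ∀ z : P, z ≠ g → z ≠ x1 → z ≠ v1 → z ≠ v2 → e z = 0) := by
  obtain ⟨hs, hE⟩ := energy_C he
  obtain ⟨en, en1⟩ := T.energy hE
  have lw := T.lw
  have lw' := T.lw'
  have lp := T.lp
  have lv1 := T.lv1
  have lv2 := T.lv2
  rcases vl_cases T.H T.part hs T.card_st with h | ⟨hAL, hAU, hd, hc, hv'⟩ |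
    ⟨hAL, hAU, hd, hc, pl, pu⟩
  · omega
  swap
  · exact (T.no_three hs hE hAL hAU hd hc pl pu).elim
  rw [hv'] at hv
  have hpar := even_of_pos hv
  have hdj := T.disj hd
  have hcL : (AL i e).card = tnL (e x0) (e x1) (e x2) (e w) (e w') (e p) := T.card_AL hs
  have hcU : (AU i e).card = tnU (e x0) (e x1) (e x2) (e v1) (e v2) := T.card_AU hs
  have hle : (AL i e).card + (AU i e).card ≤ 3 := by
    have s1 : AL i e ∪ AU i e ⊆ st i C :=
      union_subset (AL_sub T.part hs) (AU_sub T.H T.part hs)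
    have s2 := card_le_card s1
    rwa [card_union_of_disjoint hd, T.card_st] at s2
  have fin : tup e x0 x1 x2 v1 v2 w w' p ∈ tens →
      (tup e x0 x1 x2 v1 v2 w w' p ∈ tens ∧
        ∀ g : P, (i + 2 ≤ lev g ∨ lev g + 2 ≤ i) → e g = 0) := by
    intro h9
    refine ⟨h9, fun g hg => ?_⟩
    have h8 := tens_sum _ h9
    have := en1 g hg
    unfold tup tcd at h8
    simp only [List.sum_cons, List.sum_nil] at h8
    omega
  have hcase : (pL i e = 0 ∧ pU i e = 0) ∨ (pL i e = 1 ∧ pU i e = 0) ∨
      (pL i e = 0 ∧ pU i e = 1) := by omega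
  rcases hcase with ⟨pl, pu⟩ | ⟨pl, pu⟩ | ⟨pl, pu⟩
  · have hL := fun (z : P) (hz : i < lev z) => low_zero T.H hAL pl hE.le hz
    have hU := fun (z : P) (hz : lev z < i) => upp_zero T.H T.hir hAU pu hE.le hz
    have g1 := (hL w (by omega)).2
    have g2 := (hL w' (by omega)).2
    have g3 := (hL p (by omega)).2
    have g4 := (hU v1 (by omega)).2
    have g5 := (hU v2 (by omega)).2
    rw [T.GUw] at g1
    rw [T.GUw'] at g2
    rw [T.GUp] at g3
    rw [T.GD1] at g4
    rw [T.GD2] at g5
    have aL0 := aL_zero (i := i) (e := e) fun z hz => (hL z hz).1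
    have aU0 := aU_zero (i := i) (e := e) fun z hz => (hU z hz).1
    rw [aL0, aU0, pu] at hpar
    rw [pl, pu] at hc
    rcases tkey0 en hdj g1 g2 g3 g4 g5 (by omega) (by omega) with h | h
    · exact Or.inl (fin h)
    · right
      unfold tcd at h
      simp only [List.cons.injEq] at h
      obtain ⟨h0, h1, h2, h3, h4, h5, h6, h7, -⟩ := h
      exact ⟨h1, h3, h4, T.far_case hs hE hAL hAU ⟨h0, h1, h2, h3, h4, h5, h6, h7⟩⟩
  · have hU := fun (z : P) (hz : lev z < i) => upp_zero T.H T.hir hAU pu hE.le hz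
    have g4 := (hU v1 (by omega)).2
    have g5 := (hU v2 (by omega)).2
    rw [T.GD1] at g4
    rw [T.GD2] at g5
    have aU0 := aU_zero (i := i) (e := e) fun z hz => (hU z hz).1
    rw [aU0, pu] at hpar
    rw [pl, pu] at hc
    rcases tkey1 en hdj g4 g5 (by omega) with h | ⟨h1, h2, h3⟩
    · exact Or.inl (fin h)
    · exfalso
      rcases h3 with ⟨h3, h4⟩ | ⟨h3, h4⟩
      · have := T.aL_two hs hE hAL pl h3 h2 h4
        omega
      · have := T.swap.aL_two hs hE hAL pl h3 h2 h4
        omega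
  · have hL := fun (z : P) (hz : i < lev z) => low_zero T.H hAL pl hE.le hz
    have g1 := (hL w (by omega)).2
    have g2 := (hL w' (by omega)).2
    have g3 := (hL p (by omega)).2
    rw [T.GUw] at g1
    rw [T.GUw'] at g2
    rw [T.GUp] at g3
    have aL0 := aL_zero (i := i) (e := e) fun z hz => (hL z hz).1
    rw [aL0, pu] at hpar
    rw [pl, pu] at hc
    rcases tkey2 en hdj g1 g2 g3 (by omega) with h | ⟨h1, h2, h3⟩
    · exact Or.inl (fin h)
    · exfalso
      have := T.aU_even hs hE hAU pu h2 h3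
      omega

end Tri

end Pool.Agent.GaussPoset.Win.W4

end

/-! From `Pool.Agent.W_448j6_h22.KcF` -/

section

/-!
MP_448cb3_co, G2, case B, window `j`: the triangle: six configurations of energy four with value
minus one, the coefficient (4,2).
-/

namespace Pool.Agent.GaussPoset.Win.W4

set_option linter.unusedSectionVars false

open Finset
open Pool.Agent.GaussPoset.Win.SO (LowD UppD val_gen coef_units)

universe u

variable {P : Type u} [Fintype P] [PartialOrder P] [DecidableEq P] {r i : ℕ}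
variable {e : P → ℕ} {C : Finset P} {x0 x1 x2 v1 v2 w w' p : P}

/-- the configuration with given values at the near elements -/
def cfg (x0 x1 x2 v1 v2 w w' p : P) (l : List ℕ) : P → ℕ := fun z =>
  if z = x0 then l.getD 0 0 else if z = x1 then l.getD 1 0 else if z = x2 then l.getD 2 0 else
  if z = v1 then l.getD 3 0 else if z = v2 then l.getD 4 0 else if z = w then l.getD 5 0 else
  if z = w' then l.getD 6 0 else if z = p then l.getD 7 0 else 0

/-- six lists with value minus one -/
def negs : List (List ℕ) :=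
  [[0, 1, 0, 1, 2, 0, 0, 0], [0, 1, 0, 2, 1, 0, 0, 0], [2, 0, 0, 1, 0, 1, 0, 0],
    [2, 0, 0, 1, 0, 0, 1, 0], [0, 0, 2, 0, 1, 1, 0, 0], [0, 0, 2, 0, 1, 0, 1, 0]]

lemma negs_card : negs.toFinset.card = 6 := by decide +kernel

lemma vl_le_one (H : Gr P r) (hC : Part i C) (hs : Spt C e) (hb : (st i C).card = 3)
    (hn : ¬ (AdmL i e ∧ AdmU i e ∧ Disjoint (AL i e) (AU i e) ∧
      (AL i e).card + (AU i e).card = 3 ∧ pL i e = 0 ∧ pU i e = 0)) : vl i C e ≤ 1 := by
  rcases vl_cases H hC hs hb with h | ⟨-, -, -, -, h⟩ | h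
  · omega
  · rw [h]
    rcases neg_one_pow_eq_or ℤ (aL i e + (AL i e).card + (aU i e + pU i e)) with h1 | h1 <;>
      rw [h1] <;> norm_num
  · exact absurd h hn

namespace Tri

variable (T : Tri r i C x0 x1 x2 v1 v2 w w' p)
include T

/-- the first kind -/
lemma neg_one (h1 : e x1 = 1) (h2 : e v1 = 1) (h3 : e v2 = 2)
    (h0 : ∀ z, z ≠ x1 → z ≠ v1 → z ≠ v2 → e z = 0) : vl i C e = -1 := by
  classical
  have H := T.H
  have lw := T.lw
  have lw' := T.lw'
  have lp := T.lp
  have lv1 := T.lv1
  have lv2 := T.lv2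
  have l0 := T.l0
  have l1 := T.l1
  have l2 := T.l2
  have n01 := T.n01
  have n02 := T.n02
  have n12 := T.n12
  have nv := T.nv
  have hs : Spt C e := by
    intro z hz
    exact h0 z (fun h => hz (h ▸ T.mC1)) (fun h => hz (h ▸ T.mV1)) (fun h => hz (h ▸ T.mV2))
  have hx0 : e x0 = 0 := h0 x0 n01 (by rintro rfl; omega) (by rintro rfl; omega)
  have hx2 : e x2 = 0 := h0 x2 n12.symm (by rintro rfl; omega) (by rintro rfl; omega)
  have D : LowD i e (∅ : Finset P) ∅ ∅ := SO.low_none H fun z hz =>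
    h0 z (by rintro rfl; omega) (by rintro rfl; omega) (by rintro rfl; omega)
  have D' : UppD i e (∅ : Finset P) {v2} {x0, x1, x2} := by
    refine ⟨?_, ?_, ?_, ?_, ?_, ?_⟩
    · intro z hz
      constructor
      · rintro ⟨y, hy, hlt⟩
        have := lev_cov H hy
        rw [h0 y (by rintro rfl; omega) (by rintro rfl; omega) (by rintro rfl; omega)] at hlt
        omega
      · intro h'
        exact absurd h' (notMem_empty _)
    · intro z hz
      constructor
      · rintro ⟨y, hy, hlt⟩
        have hl := lev_cov H hy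
        by_cases g1 : y = v1
        · rw [g1] at hy
          have : z ∈ dc v1 := mem_dc.2 hy
          rw [T.hv1] at this
          simp only [mem_insert, mem_singleton] at this ⊢
          tauto
        by_cases g2 : y = v2
        · rw [g2] at hy
          have : z ∈ dc v2 := mem_dc.2 hy
          rw [T.hv2] at this
          simp only [mem_insert, mem_singleton] at this ⊢
          tauto
        rw [h0 y (by rintro rfl; omega) g1 g2] at hlt
        omega
      · intro h'
        rw [mem_insert, mem_insert, mem_singleton] at h'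
        rcases h' with rfl | rfl | rfl
        · exact ⟨v1, T.c_01, by omega⟩
        · exact ⟨v2, T.c_12, by omega⟩
        · exact ⟨v2, T.c_22, by omega⟩
    · intro z hz
      constructor
      · rintro ⟨y, hy, hle⟩
        have hl := lev_cov H hy
        refine ⟨notMem_empty _, ?_⟩
        intro h'
        rw [mem_singleton] at h'
        rw [h'] at hy hle
        have : y ∈ dc v2 := mem_dc.2 hy
        rw [T.hv2, mem_insert, mem_singleton] at this
        rcases this with rfl | rfl <;> omega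
      · rintro ⟨-, h'⟩
        rw [mem_singleton] at h'
        by_cases g1 : z = v1
        · rw [g1]
          exact ⟨x1, T.c_11, by omega⟩
        · obtain ⟨y, hy⟩ := dc_nonempty H (x := z) (by have := T.hi2; omega)
          refine ⟨y, mem_dc.1 hy, ?_⟩
          rw [h0 z (by rintro rfl; omega) g1 h']
          exact Nat.zero_le _
    · intro z hz
      exact absurd hz (notMem_empty _)
    · intro z hz
      rw [mem_singleton] at hz
      rw [hz]
      exact ⟨by omega, notMem_empty _⟩
    · intro z hz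
      rw [mem_insert, mem_insert, mem_singleton] at hz
      rcases hz with rfl | rfl | rfl <;> assumption
  have c3 : ({x0, x1, x2} : Finset P).card = 3 := by
    rw [← T.hst]
    exact T.card_st
  have key := (val_gen H T.hC hs D D' (disjoint_empty_left _) (k := 2)
    (by rw [c3, card_singleton, card_empty])).2
  unfold vl
  rw [key, card_singleton, card_empty]
  norm_num

/-- the second kind -/
lemma neg_two (h1 : e x0 = 2) (h2 : e v1 = 1) (h3 : e w = 1)
    (h0 : ∀ z, z ≠ x0 → z ≠ v1 → z ≠ w → e z = 0) : vl i C e = -1 := by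
  classical
  have H := T.H
  have lw := T.lw
  have lw' := T.lw'
  have lp := T.lp
  have lv1 := T.lv1
  have lv2 := T.lv2
  have l0 := T.l0
  have l1 := T.l1
  have l2 := T.l2
  have n01 := T.n01
  have n02 := T.n02
  have n12 := T.n12
  have nv := T.nv
  have hs : Spt C e := by
    intro z hz
    exact h0 z (fun h => hz (h ▸ T.mC0)) (fun h => hz (h ▸ T.mV1)) (fun h => hz (h ▸ T.mW))
  have hx1 : e x1 = 0 := h0 x1 n01.symm (by rintro rfl; omega) (by rintro rfl; omega)
  have hx2 : e x2 = 0 := h0 x2 n02.symm (by rintro rfl; omega) (by rintro rfl; omega)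
  have D : LowD i e (∅ : Finset P) ∅ {x2} := by
    refine ⟨?_, ?_, ?_, ?_, ?_, ?_⟩
    · intro z hz
      constructor
      · rintro ⟨y, hy, hlt⟩
        have := lev_cov H hy
        rw [h0 y (by rintro rfl; omega) (by rintro rfl; omega) (by rintro rfl; omega)] at hlt
        omega
      · intro h'
        exact absurd h' (notMem_empty _)
    · intro z hz
      rw [mem_singleton]
      constructor
      · rintro ⟨y, hy, hlt⟩
        have hl := lev_cov H hy
        by_cases g1 : y = w
        · rw [g1] at hy hlt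
          have : z ∈ uc w := mem_uc.2 hy
          rw [T.hw, mem_insert, mem_singleton] at this
          rcases this with h | h
          · rw [h] at hlt
            omega
          · exact h
        rw [h0 y (by rintro rfl; omega) (by rintro rfl; omega) g1] at hlt
        omega
      · rintro rfl
        exact ⟨w, T.c_w2, by omega⟩
    · intro z hz
      constructor
      · intro _
        exact ⟨notMem_empty _, notMem_empty _⟩
      · intro _
        by_cases g1 : z = w
        · rw [g1]
          exact ⟨x0, T.c_w0, by omega⟩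
        · obtain ⟨y, hy⟩ := uc_nonempty H (x := z) (by omega)
          refine ⟨y, mem_uc.1 hy, ?_⟩
          rw [h0 z (by rintro rfl; omega) (by rintro rfl; omega) g1]
          exact Nat.zero_le _
    · intro z hz
      exact absurd hz (notMem_empty _)
    · intro z hz
      exact absurd hz (notMem_empty _)
    · intro z hz
      rw [mem_singleton] at hz
      rw [hz]
      exact l2
  have D' : UppD i e (∅ : Finset P) ∅ {x1} := by
    refine ⟨?_, ?_, ?_, ?_, ?_, ?_⟩
    · intro z hz
      constructor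
      · rintro ⟨y, hy, hlt⟩
        have := lev_cov H hy
        rw [h0 y (by rintro rfl; omega) (by rintro rfl; omega) (by rintro rfl; omega)] at hlt
        omega
      · intro h'
        exact absurd h' (notMem_empty _)
    · intro z hz
      rw [mem_singleton]
      constructor
      · rintro ⟨y, hy, hlt⟩
        have hl := lev_cov H hy
        by_cases g1 : y = v1
        · rw [g1] at hy hlt
          have : z ∈ dc v1 := mem_dc.2 hy
          rw [T.hv1, mem_insert, mem_singleton] at this
          rcases this with h | h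
          · rw [h] at hlt
            omega
          · exact h
        rw [h0 y (by rintro rfl; omega) g1 (by rintro rfl; omega)] at hlt
        omega
      · rintro rfl
        exact ⟨v1, T.c_11, by omega⟩
    · intro z hz
      constructor
      · intro _
        exact ⟨notMem_empty _, notMem_empty _⟩
      · intro _
        by_cases g1 : z = v1
        · rw [g1]
          exact ⟨x0, T.c_01, by omega⟩
        · obtain ⟨y, hy⟩ := dc_nonempty H (x := z) (by have := T.hi2; omega)
          refine ⟨y, mem_dc.1 hy, ?_⟩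
          rw [h0 z (by rintro rfl; omega) g1 (by rintro rfl; omega)]
          exact Nat.zero_le _
    · intro z hz
      exact absurd hz (notMem_empty _)
    · intro z hz
      exact absurd hz (notMem_empty _)
    · intro z hz
      rw [mem_singleton] at hz
      rw [hz]
      exact l1
  have key := (val_gen H T.hC hs D D' (by rw [disjoint_singleton]; exact n12.symm) (k := 2)
    (by rw [card_singleton, card_singleton, card_empty])).2
  unfold vl
  rw [key, card_singleton, card_empty]
  norm_num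

/-- the values of the configuration of a list -/
lemma cfg_vals (l : List ℕ) : cfg x0 x1 x2 v1 v2 w w' p l x0 = l.getD 0 0 ∧
    cfg x0 x1 x2 v1 v2 w w' p l x1 = l.getD 1 0 ∧ cfg x0 x1 x2 v1 v2 w w' p l x2 = l.getD 2 0 ∧
    cfg x0 x1 x2 v1 v2 w w' p l v1 = l.getD 3 0 ∧ cfg x0 x1 x2 v1 v2 w w' p l v2 = l.getD 4 0 ∧
    cfg x0 x1 x2 v1 v2 w w' p l w = l.getD 5 0 ∧ cfg x0 x1 x2 v1 v2 w w' p l w' = l.getD 6 0 ∧
    cfg x0 x1 x2 v1 v2 w w' p l p = l.getD 7 0 := by
  have lw := T.lw
  have lw' := T.lw'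
  have lp := T.lp
  have lv1 := T.lv1
  have lv2 := T.lv2
  have l0 := T.l0
  have l1 := T.l1
  have l2 := T.l2
  have q : ∀ {a b : P}, lev a ≠ lev b → a ≠ b := fun h h1 => h (by rw [h1])
  have a1 : x1 ≠ x0 := T.n01.symm
  have a2 : x2 ≠ x0 := T.n02.symm
  have a3 : x2 ≠ x1 := T.n12.symm
  have b1 : v1 ≠ x0 := q (by omega)
  have b2 : v1 ≠ x1 := q (by omega)
  have b3 : v1 ≠ x2 := q (by omega)
  have c1 : v2 ≠ x0 := q (by omega)
  have c2 : v2 ≠ x1 := q (by omega)
  have c3 : v2 ≠ x2 := q (by omega)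
  have c4 : v2 ≠ v1 := T.nv.symm
  have d1 : w ≠ x0 := q (by omega)
  have d2 : w ≠ x1 := q (by omega)
  have d3 : w ≠ x2 := q (by omega)
  have d4 : w ≠ v1 := q (by omega)
  have d5 : w ≠ v2 := q (by omega)
  have e1 : w' ≠ x0 := q (by omega)
  have e2 : w' ≠ x1 := q (by omega)
  have e3 : w' ≠ x2 := q (by omega)
  have e4 : w' ≠ v1 := q (by omega)
  have e5 : w' ≠ v2 := q (by omega)
  have e6 : w' ≠ w := T.nw.symm
  have f1 : p ≠ x0 := q (by omega)
  have f2 : p ≠ x1 := q (by omega)
  have f3 : p ≠ x2 := q (by omega)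
  have f4 : p ≠ v1 := q (by omega)
  have f5 : p ≠ v2 := q (by omega)
  have f6 : p ≠ w := T.nwp.symm
  have f7 : p ≠ w' := T.nwp'.symm
  unfold cfg
  refine ⟨?_, ?_, ?_, ?_, ?_, ?_, ?_, ?_⟩
  · rw [if_pos rfl]
  · rw [if_neg a1, if_pos rfl]
  · rw [if_neg a2, if_neg a3, if_pos rfl]
  · rw [if_neg b1, if_neg b2, if_neg b3, if_pos rfl]
  · rw [if_neg c1, if_neg c2, if_neg c3, if_neg c4, if_pos rfl]
  · rw [if_neg d1, if_neg d2, if_neg d3, if_neg d4, if_neg d5, if_pos rfl]
  · rw [if_neg e1, if_neg e2, if_neg e3, if_neg e4, if_neg e5, if_neg e6, if_pos rfl]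
  · rw [if_neg f1, if_neg f2, if_neg f3, if_neg f4, if_neg f5, if_neg f6, if_neg f7, if_pos rfl]

omit T in
lemma cfg_zero (l : List ℕ) {z : P} (h : z ∉ ({x0, x1, x2, v1, v2, w, w', p} : Finset P)) :
    cfg x0 x1 x2 v1 v2 w w' p l z = 0 := by
  simp only [mem_insert, mem_singleton, not_or] at h
  obtain ⟨h1, h2, h3, h4, h5, h6, h7, h8⟩ := h
  unfold cfg
  rw [if_neg h1, if_neg h2, if_neg h3, if_neg h4, if_neg h5, if_neg h6, if_neg h7, if_neg h8]

lemma mem8 {z : P} (h : z ∈ ({x0, x1, x2, v1, v2, w, w', p} : Finset P)) : z ∈ C := by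
  simp only [mem_insert, mem_singleton] at h
  rcases h with rfl | rfl | rfl | rfl | rfl | rfl | rfl | rfl
  · exact T.mC0
  · exact T.mC1
  · exact T.mC2
  · exact T.mV1
  · exact T.mV2
  · exact T.mW
  · exact T.mW'
  · exact T.mP

/-- the configuration of a list is a configuration of the part -/
lemma cfg_mem {l : List ℕ} {n : ℕ}
    (hl : l.getD 0 0 + l.getD 1 0 + l.getD 2 0 + l.getD 3 0 + l.getD 4 0 + l.getD 5 0 +
      l.getD 6 0 + l.getD 7 0 = n) :
    cfg x0 x1 x2 v1 v2 w w' p l ∈ C.piAntidiag n := by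
  obtain ⟨h0, h1, h2, h3, h4, h5, h6, h7⟩ := T.cfg_vals l
  rw [mem_piAntidiag]
  constructor
  · have s1 : ({x0, x1, x2, v1, v2, w, w', p} : Finset P) ⊆ C := fun z hz => T.mem8 hz
    rw [← sum_subset s1 fun z _ hz => cfg_zero l hz, T.sum8, h0, h1, h2, h3, h4, h5, h6, h7, hl]
  · intro z hz
    by_contra hC
    exact hz (cfg_zero l fun h => hC (T.mem8 h))

lemma tup_cfg {l : List ℕ} (hl : l.length = 8) :
    tup (cfg x0 x1 x2 v1 v2 w w' p l) x0 x1 x2 v1 v2 w w' p = l := by
  obtain ⟨h0, h1, h2, h3, h4, h5, h6, h7⟩ := T.cfg_vals l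
  unfold tup tcd
  rw [h0, h1, h2, h3, h4, h5, h6, h7]
  rcases l with _ | ⟨a, l⟩
  · simp at hl
  rcases l with _ | ⟨b, l⟩
  · simp at hl
  rcases l with _ | ⟨c, l⟩
  · simp at hl
  rcases l with _ | ⟨d, l⟩
  · simp at hl
  rcases l with _ | ⟨e, l⟩
  · simp at hl
  rcases l with _ | ⟨f, l⟩
  · simp at hl
  rcases l with _ | ⟨g, l⟩
  · simp at hl
  rcases l with _ | ⟨k, l⟩
  · simp at hl
  have : l = [] := by
    have h : l.length = 0 := by
      simp only [List.length_cons] at hl
      omega
    exact List.length_eq_zero_iff.1 h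
  rw [this]
  rfl

/-- the six values -/
lemma vl_neg {l : List ℕ} (hl : l ∈ negs) : vl i C (cfg x0 x1 x2 v1 v2 w w' p l) = -1 := by
  obtain ⟨h0, h1, h2, h3, h4, h5, h6, h7⟩ := T.cfg_vals l
  have hz : ∀ z, z ∉ ({x0, x1, x2, v1, v2, w, w', p} : Finset P) →
      cfg x0 x1 x2 v1 v2 w w' p l z = 0 := fun z hz => cfg_zero l hz
  have key : ∀ z, z ≠ x0 ∧ z ≠ x1 ∧ z ≠ x2 ∧ z ≠ v1 ∧ z ≠ v2 ∧ z ≠ w ∧ z ≠ w' ∧ z ≠ p →
      cfg x0 x1 x2 v1 v2 w w' p l z = 0 := by
    intro z h
    refine hz z ?_
    simp only [mem_insert, mem_singleton]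
    tauto
  unfold negs at hl
  simp only [List.mem_cons, List.not_mem_nil, or_false] at hl
  rcases hl with hl | hl | hl | hl | hl | hl
  · rw [hl] at h0 h1 h2 h3 h4 h5 h6 h7 key ⊢
    refine T.neg_one h1 h3 h4 fun z g1 g2 g3 => ?_
    by_cases k1 : z = x0
    · rw [k1]; exact h0
    by_cases k2 : z = x2
    · rw [k2]; exact h2
    by_cases k3 : z = w
    · rw [k3]; exact h5
    by_cases k4 : z = w'
    · rw [k4]; exact h6
    by_cases k5 : z = p
    · rw [k5]; exact h7
    exact key z ⟨k1, g1, k2, g2, g3, k3, k4, k5⟩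
  · rw [hl] at h0 h1 h2 h3 h4 h5 h6 h7 key ⊢
    refine T.rev.neg_one h1 h4 h3 fun z g1 g2 g3 => ?_
    by_cases k1 : z = x0
    · rw [k1]; exact h0
    by_cases k2 : z = x2
    · rw [k2]; exact h2
    by_cases k3 : z = w
    · rw [k3]; exact h5
    by_cases k4 : z = w'
    · rw [k4]; exact h6
    by_cases k5 : z = p
    · rw [k5]; exact h7
    exact key z ⟨k1, g1, k2, g3, g2, k3, k4, k5⟩
  · rw [hl] at h0 h1 h2 h3 h4 h5 h6 h7 key ⊢
    refine T.neg_two h0 h3 h5 fun z g1 g2 g3 => ?_
    by_cases k1 : z = x1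
    · rw [k1]; exact h1
    by_cases k2 : z = x2
    · rw [k2]; exact h2
    by_cases k3 : z = v2
    · rw [k3]; exact h4
    by_cases k4 : z = w'
    · rw [k4]; exact h6
    by_cases k5 : z = p
    · rw [k5]; exact h7
    exact key z ⟨g1, k1, k2, g2, k3, g3, k4, k5⟩
  · rw [hl] at h0 h1 h2 h3 h4 h5 h6 h7 key ⊢
    refine T.swap.neg_two h0 h3 h6 fun z g1 g2 g3 => ?_
    by_cases k1 : z = x1
    · rw [k1]; exact h1
    by_cases k2 : z = x2
    · rw [k2]; exact h2
    by_cases k3 : z = v2
    · rw [k3]; exact h4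
    by_cases k4 : z = w
    · rw [k4]; exact h5
    by_cases k5 : z = p
    · rw [k5]; exact h7
    exact key z ⟨g1, k1, k2, g2, k3, k4, g3, k5⟩
  · rw [hl] at h0 h1 h2 h3 h4 h5 h6 h7 key ⊢
    refine T.rev.neg_two h2 h4 h5 fun z g1 g2 g3 => ?_
    by_cases k1 : z = x1
    · rw [k1]; exact h1
    by_cases k2 : z = x0
    · rw [k2]; exact h0
    by_cases k3 : z = v1
    · rw [k3]; exact h3
    by_cases k4 : z = w'
    · rw [k4]; exact h6
    by_cases k5 : z = p
    · rw [k5]; exact h7
    exact key z ⟨k2, k1, g1, k3, g2, g3, k4, k5⟩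
  · rw [hl] at h0 h1 h2 h3 h4 h5 h6 h7 key ⊢
    refine T.rev.swap.neg_two h2 h4 h6 fun z g1 g2 g3 => ?_
    by_cases k1 : z = x1
    · rw [k1]; exact h1
    by_cases k2 : z = x0
    · rw [k2]; exact h0
    by_cases k3 : z = v1
    · rw [k3]; exact h3
    by_cases k4 : z = w
    · rw [k4]; exact h5
    by_cases k5 : z = p
    · rw [k5]; exact h7
    exact key z ⟨k2, k1, g1, k3, g2, k4, g3, k5⟩

end Tri

end Pool.Agent.GaussPoset.Win.W4

end

/-! From `Pool.Agent.W_448j6_h22.KcG` -/

section

/-!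
MP_448cb3_co, G2, case B, window `j`: the triangle: the bound of the coefficient (4,2).
-/

namespace Pool.Agent.GaussPoset.Win.W4

set_option linter.unusedSectionVars false

open Finset
open Pool.Agent.GaussPoset.Win.SO (LowD UppD val_gen coef_units)

universe u

variable {P : Type u} [Fintype P] [PartialOrder P] [DecidableEq P] {r i : ℕ}
variable {e : P → ℕ} {C : Finset P} {x0 x1 x2 v1 v2 w w' p : P}

namespace Tri

variable (T : Tri r i C x0 x1 x2 v1 v2 w w' p)
include T

/-- at most fourteen configurations of positive value -/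
lemma card_pos : ((C.piAntidiag 4).filter (fun e => 0 < vl i C e)).card ≤ 14 := by
  classical
  obtain ⟨S1, hS1⟩ : ∃ S : Finset (P → ℕ), S = (C.piAntidiag 4).filter
    (fun e => tup e x0 x1 x2 v1 v2 w w' p ∈ tens ∧
      ∀ g : P, (i + 2 ≤ lev g ∨ lev g + 2 ≤ i) → e g = 0) := ⟨_, rfl⟩
  obtain ⟨S2, hS2⟩ : ∃ S : Finset (P → ℕ), S = (uc v1 ∪ uc v2).image
    (fun g z => if z = g ∨ z = x1 ∨ z = v1 ∨ z = v2 then 1 else 0) := ⟨_, rfl⟩
  have hsub : (C.piAntidiag 4).filter (fun e => 0 < vl i C e) ⊆ S1 ∪ S2 := by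
    intro e he
    rw [mem_filter] at he
    rw [mem_union]
    rcases T.pos_cases he.1 he.2 with h | ⟨h1, h2, h3, g, hg, hg1, h0⟩
    · left
      rw [hS1, mem_filter]
      exact ⟨he.1, h⟩
    · right
      rw [hS2, mem_image]
      refine ⟨g, hg, ?_⟩
      funext z
      by_cases k : z = g ∨ z = x1 ∨ z = v1 ∨ z = v2
      · rw [if_pos k]
        rcases k with rfl | rfl | rfl | rfl <;> omega
      · rw [if_neg k]
        push Not at k
        exact (h0 z k.1 k.2.1 k.2.2.1 k.2.2.2).symm
  have c1 : S1.card ≤ 10 := by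
    rw [← tens_card]
    refine card_le_card_of_injOn (fun e => tup e x0 x1 x2 v1 v2 w w' p) ?_ ?_
    · intro e he
      rw [hS1, mem_coe, mem_filter] at he
      exact mem_coe.2 (List.mem_toFinset.2 he.2.1)
    · intro e he e' he' hee
      rw [hS1, mem_coe, mem_filter] at he he'
      obtain ⟨s1, -⟩ := energy_C he.1
      obtain ⟨s2, -⟩ := energy_C he'.1
      simp only [tup, tcd, List.cons.injEq] at hee
      obtain ⟨g0, g1, g2, g3, g4, g5, g6, g7, -⟩ := hee
      funext z
      by_cases hC : z ∈ C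
      · rcases T.cases_C hC with h5 | h5 | h5 | h5 | h5 | h5 | h5 | h5 | h5 | h5
        · rw [h5]; exact g0
        · rw [h5]; exact g1
        · rw [h5]; exact g2
        · rw [h5]; exact g3
        · rw [h5]; exact g4
        · rw [h5]; exact g5
        · rw [h5]; exact g6
        · rw [h5]; exact g7
        · rw [he.2.2 z (Or.inl h5), he'.2.2 z (Or.inl h5)]
        · rw [he.2.2 z (Or.inr h5), he'.2.2 z (Or.inr h5)]
      · rw [s1 z hC, s2 z hC]
  have c2 : S2.card ≤ 4 := by
    rw [hS2]
    have h1 := card_image_le (s := uc v1 ∪ uc v2)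
      (f := fun g z => if z = g ∨ z = x1 ∨ z = v1 ∨ z = v2 then 1 else 0)
    have h2 := card_union_le (uc v1) (uc v2)
    have h3 := uc_card_le T.H v1
    have h4 := uc_card_le T.H v2
    omega
  have h1 := card_le_card hsub
  have h2 := card_union_le S1 S2
  omega

/-- THE SUM of the values -/
theorem sum_vl : ∑ e ∈ C.piAntidiag 4, vl i C e ≤ 8 := by
  classical
  obtain ⟨N, hN⟩ : ∃ S : Finset (P → ℕ), S = negs.toFinset.image
    (fun l => cfg x0 x1 x2 v1 v2 w w' p l) := ⟨_, rfl⟩
  have hlen : ∀ l ∈ negs, l.length = 8 := by decide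
  have hsum : ∀ l ∈ negs, l.getD 0 0 + l.getD 1 0 + l.getD 2 0 + l.getD 3 0 + l.getD 4 0 +
      l.getD 5 0 + l.getD 6 0 + l.getD 7 0 = 4 := by decide
  have hNA : N ⊆ C.piAntidiag 4 := by
    intro e he
    rw [hN, mem_image] at he
    obtain ⟨l, hl, rfl⟩ := he
    exact T.cfg_mem (hsum l (List.mem_toFinset.1 hl))
  have hNc : N.card = 6 := by
    rw [hN, card_image_of_injOn, negs_card]
    intro l hl l' hl' hll
    have h1 := T.tup_cfg (hlen l (List.mem_toFinset.1 (mem_coe.1 hl)))
    have h2 := T.tup_cfg (hlen l' (List.mem_toFinset.1 (mem_coe.1 hl')))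
    simp only at hll
    rw [← h1, ← h2, hll]
  have hNv : ∀ e ∈ N, vl i C e = -1 := by
    intro e he
    rw [hN, mem_image] at he
    obtain ⟨l, hl, rfl⟩ := he
    exact T.vl_neg (List.mem_toFinset.1 hl)
  have hpt : ∀ e ∈ C.piAntidiag 4,
      vl i C e ≤ (if 0 < vl i C e then 1 else 0) - (if e ∈ N then 1 else 0) := by
    intro e he
    obtain ⟨hs, hE⟩ := energy_C he
    by_cases h1 : e ∈ N
    · rw [hNv e h1, if_pos h1]
      norm_num
    · rw [if_neg h1, sub_zero]
      by_cases h2 : 0 < vl i C e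
      · rw [if_pos h2]
        exact vl_le_one T.H T.part hs T.card_st fun ⟨a1, a2, a3, a4, a5, a6⟩ =>
          T.no_three hs hE a1 a2 a3 a4 a5 a6
      · rw [if_neg h2]
        omega
  have h1 := sum_le_sum hpt
  rw [sum_sub_distrib, sum_boole, sum_boole] at h1
  have h2 : (C.piAntidiag 4).filter (fun e => e ∈ N) = N := by
    ext e
    rw [mem_filter]
    exact ⟨fun h => h.2, fun h => ⟨hNA h, h⟩⟩
  rw [h2, hNc] at h1
  have h3 := T.card_pos
  have h4 : (((C.piAntidiag 4).filter (fun e => 0 < vl i C e)).card : ℤ) ≤ 14 := by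
    exact_mod_cast h3
  push_cast at h1
  linarith

/-- the coefficient (4,2) -/
theorem be4 : I2.be 4 (st i C).card (ZS i C) ≤ 8 := by
  have h1 : I2.be 4 (st i C).card (ZS i C) = ∑ e ∈ C.piAntidiag 4, vl i C e := by
    unfold I2.be
    rw [coeff_ZS]
    unfold ZC
    rw [mul_sum, map_sum]
    rfl
  rw [h1]
  exact T.sum_vl

end Tri

end Pool.Agent.GaussPoset.Win.W4

end

/-! From `Pool.Agent.W_448j6_h22.KcH` -/

section

/-!
MP_448cb3_co, G2, case B, window `j`: the triangle: the coefficient (1,0).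
-/

namespace Pool.Agent.GaussPoset.Win.W4

set_option linter.unusedSectionVars false

open Finset
open Pool.Agent.GaussPoset.Win.SO (LowD UppD val_gen coef_units)

universe u

variable {P : Type u} [Fintype P] [PartialOrder P] [DecidableEq P] {r i : ℕ}
variable {e : P → ℕ} {C : Finset P} {x0 x1 x2 v1 v2 w w' p : P}

/-- the configurations of energy one -/
lemma piA_one (C : Finset P) : C.piAntidiag 1 = C.image (fun x => (Pi.single x 1 : P → ℕ)) := by
  classical
  ext l
  rw [mem_piAntidiag, mem_image]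
  constructor
  · rintro ⟨h5, h6⟩
    obtain ⟨v, hvN, hv⟩ : ∃ v ∈ C, l v ≠ 0 := by
      by_contra hcon
      push Not at hcon
      rw [Finset.sum_eq_zero (fun v hv => hcon v hv)] at h5
      omega
    have h7 := Finset.add_sum_erase C l hvN
    rw [h5] at h7
    refine ⟨v, hvN, ?_⟩
    funext w
    by_cases hwv : w = v
    · rw [hwv, Pi.single_eq_same]
      omega
    · rw [Pi.single_eq_of_ne hwv]
      by_cases hw : w ∈ C
      · have h8 : ∑ w ∈ C.erase v, l w = 0 := by omega
        have h9 := (Finset.sum_eq_zero_iff.1 h8) w (mem_erase.2 ⟨hwv, hw⟩)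
        exact h9.symm
      · by_contra h9
        exact hw (h6 w fun h => h9 h.symm)
  · rintro ⟨x, hx, rfl⟩
    constructor
    · rw [sum_pi_single', if_pos hx]
    · intro z hz
      by_contra hC
      apply hz
      rw [Pi.single_apply, if_neg]
      rintro rfl
      exact hC hx

namespace Tri

variable (T : Tri r i C x0 x1 x2 v1 v2 w w' p)
include T

/-- a label one on the pendant -/
lemma single_p : lc (st i C).card 0 (tC i C (Pi.single p 1)) = -1 := by
  have H := T.H
  have lp := T.lp
  have l1 := T.l1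
  have h0 : ∀ z, z ≠ p → (Pi.single p 1 : P → ℕ) z = 0 := fun z hz => Pi.single_eq_of_ne hz 1
  have h1 : (Pi.single p 1 : P → ℕ) p = 1 := Pi.single_eq_same p 1
  obtain ⟨e, he⟩ : ∃ e : P → ℕ, e = Pi.single p 1 := ⟨_, rfl⟩
  rw [← he] at h0 h1 ⊢
  have hs : Spt C e := by
    intro z hz
    exact h0 z (fun h => hz (h ▸ T.mP))
  have hx1 : e x1 = 0 := h0 x1 (by rintro rfl; omega)
  have D : LowD i e (∅ : Finset P) {p} {x1} := by
    refine ⟨?_, ?_, ?_, ?_, ?_, ?_⟩
    · intro z hz
      constructor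
      · rintro ⟨y, hy, hlt⟩
        have := lev_cov H hy
        rw [h0 y (by rintro rfl; omega)] at hlt
        omega
      · intro h'
        exact absurd h' (notMem_empty _)
    · intro z hz
      rw [mem_singleton]
      constructor
      · rintro ⟨y, hy, hlt⟩
        have hl := lev_cov H hy
        by_cases g1 : y = p
        · rw [g1] at hy hlt
          have : z ∈ uc p := mem_uc.2 hy
          rw [T.hp, mem_singleton] at this
          exact this
        rw [h0 y g1] at hlt
        omega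
      · rintro rfl
        exact ⟨p, T.c_p, by omega⟩
    · intro z hz
      constructor
      · rintro ⟨y, hy, hle⟩
        have hl := lev_cov H hy
        refine ⟨notMem_empty _, ?_⟩
        rw [mem_singleton]
        rintro rfl
        have : y ∈ uc z := mem_uc.2 hy
        rw [T.hp, mem_singleton] at this
        rw [this] at hle
        omega
      · rintro ⟨-, h'⟩
        rw [mem_singleton] at h'
        obtain ⟨y, hy⟩ := uc_nonempty H (x := z) (by omega)
        refine ⟨y, mem_uc.1 hy, ?_⟩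
        rw [h0 z h']
        exact Nat.zero_le _
    · intro z hz
      exact absurd hz (notMem_empty _)
    · intro z hz
      rw [mem_singleton] at hz
      rw [hz]
      exact ⟨by omega, notMem_empty _⟩
    · intro z hz
      rw [mem_singleton] at hz
      rw [hz]
      exact l1
  have D' : UppD i e (∅ : Finset P) ∅ ∅ := SO.upp_none H T.hir fun z hz =>
    h0 z (by rintro rfl; omega)
  have key := (val_gen H T.hC hs D D' (disjoint_empty_right _) (k := 0)
    (by rw [card_singleton, card_singleton, card_empty])).2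
  unfold lc
  rw [key, card_singleton, card_empty]
  norm_num

/-- a label one on a far element -/
lemma single_far {g : P} (hg : i + 2 ≤ lev g ∨ lev g + 2 ≤ i) :
    lc (st i C).card 0 (tC i C (Pi.single g 1)) = 0 := by
  have H := T.H
  have h0 : ∀ z, z ≠ g → (Pi.single g 1 : P → ℕ) z = 0 := fun z hz => Pi.single_eq_of_ne hz 1
  have h1 : (Pi.single g 1 : P → ℕ) g = 1 := Pi.single_eq_same g 1
  obtain ⟨e, he⟩ : ∃ e : P → ℕ, e = Pi.single g 1 := ⟨_, rfl⟩
  rw [← he] at h0 h1 ⊢
  have hA : ¬ (AdmL i e ∧ AdmU i e) := by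
    rintro ⟨hL, hU⟩
    rcases hg with hg | hg
    · obtain ⟨u, hu⟩ := uc_nonempty H (x := g) (by omega)
      have hl := lev_uc H hu
      have h2 := lab_up H hL (mem_uc.1 hu) (by omega) (by omega)
      rw [h0 u (by rintro rfl; omega)] at h2
      omega
    · obtain ⟨u, hu⟩ := dc_nonempty H (x := g) (by have := T.hi2; omega)
      have hl := lev_cov H (mem_dc.1 hu)
      have h2 := lab_dn H T.hir hU (mem_dc.1 hu) (by omega) (by omega)
      rw [h0 u (by rintro rfl; omega)] at h2
      omega
  have ht : tC i C e = 0 := by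
    unfold tC cw
    rw [if_neg hA, zero_mul]
    exact ite_self _
  unfold lc
  rw [ht, mul_zero, map_zero]

/-- a label one on a site -/
lemma single_site {s : P} (hl : lev s = i) :
    lc (st i C).card 0 (tC i C (Pi.single s 1)) = 1 := by
  have hS : Sc i (Pi.single s 1 : P → ℕ) := by
    intro x hx
    rw [Pi.single_apply, if_neg]
    rintro rfl
    exact hx hl
  exact (hS.val (C := C) T.H T.hi T.hi2).2.2.2.2.2

/-- THE COEFFICIENT (1,0) -/
theorem c1 : I2.c1 (st i C).card (ZS i C) = -4 := by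
  classical
  have h0 : I2.c1 (st i C).card (ZS i C) = lc (st i C).card 0 (ZC i C 1) := by
    unfold I2.c1 lc
    rw [coeff_ZS, pow_zero, one_mul]
  have h1 : lc (st i C).card 0 (ZC i C 1) =
      ∑ x ∈ C, lc (st i C).card 0 (tC i C (Pi.single x 1)) := by
    have h2 : ZC i C 1 = ∑ x ∈ C, tC i C (Pi.single x 1) := by
      unfold ZC
      rw [piA_one, sum_image]
      intro x _ y _ hxy
      have := congrFun (show (Pi.single x 1 : P → ℕ) = Pi.single y 1 from hxy) x
      rw [Pi.single_eq_same, Pi.single_apply] at this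
      by_contra hne
      rw [if_neg hne] at this
      omega
    rw [h2]
    unfold lc
    rw [mul_sum, map_sum]
  have hi := T.hi
  have l0 := T.l0
  have l1 := T.l1
  have l2 := T.l2
  have lw := T.lw
  have lw' := T.lw'
  have lp := T.lp
  have lv1 := T.lv1
  have lv2 := T.lv2
  have q : ∀ {a b : P}, lev a ≠ lev b → a ≠ b := fun h h1 => h (by rw [h1])
  have s1 : ({x0, x1, x2, v1, v2, w, w', p} : Finset P) ⊆ C := fun z hz => T.mem8 hz
  have h3 : ∑ x ∈ ({x0, x1, x2, v1, v2, w, w', p} : Finset P),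
      lc (st i C).card 0 (tC i C (Pi.single x 1)) =
      ∑ x ∈ C, lc (st i C).card 0 (tC i C (Pi.single x 1)) := by
    refine sum_subset s1 fun z hC hz => ?_
    simp only [mem_insert, mem_singleton] at hz
    have h2 := T.cases_C hC
    exact T.single_far (by tauto)
  have cw2 : (nz i w).card = 2 := by rw [nz_low lw, T.hw, card_pair T.n02]
  have cw2' : (nz i w').card = 2 := by rw [nz_low lw', T.hw', card_pair T.n02]
  have cv1 : (nz i v1).card = 2 := by rw [nz_upp lv1, T.hv1, card_pair T.n01]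
  have cv2 : (nz i v2).card = 2 := by rw [nz_upp lv2, T.hv2, card_pair T.n12]
  have e1 := single_dbl T.H T.hi T.hi2 T.hC (mem_near.2 (Or.inl lw)) T.mW cw2
  have e2 := single_dbl T.H T.hi T.hi2 T.hC (mem_near.2 (Or.inl lw')) T.mW' cw2'
  have e3 := single_dbl T.H T.hi T.hi2 T.hC (mem_near.2 (Or.inr lv1)) T.mV1 cv1
  have e4 := single_dbl T.H T.hi T.hi2 T.hC (mem_near.2 (Or.inr lv2)) T.mV2 cv2
  rw [if_pos lw] at e1
  rw [if_pos lw'] at e2
  rw [if_neg (by omega)] at e3
  rw [if_neg (by omega)] at e4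
  rw [h0, h1, ← h3, sum_insert, sum_insert, sum_insert, sum_insert, sum_insert, sum_insert,
    sum_pair T.nwp', e1, e2, e3, e4, T.single_site l0, T.single_site l1, T.single_site l2,
    T.single_p]
  · norm_num
  · simp only [mem_insert, mem_singleton]
    push Not
    exact ⟨T.nw, T.nwp⟩
  · simp only [mem_insert, mem_singleton]
    push Not
    exact ⟨q (by omega), q (by omega), q (by omega)⟩
  · simp only [mem_insert, mem_singleton]
    push Not
    exact ⟨T.nv, q (by omega), q (by omega), q (by omega)⟩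
  · simp only [mem_insert, mem_singleton]
    push Not
    exact ⟨q (by omega), q (by omega), q (by omega), q (by omega), q (by omega)⟩
  · simp only [mem_insert, mem_singleton]
    push Not
    exact ⟨T.n12, q (by omega), q (by omega), q (by omega), q (by omega), q (by omega)⟩
  · simp only [mem_insert, mem_singleton]
    push Not
    exact ⟨T.n01, T.n02, q (by omega), q (by omega), q (by omega), q (by omega), q (by omega)⟩

end Tri

end Pool.Agent.GaussPoset.Win.W4

end

/-! From `Pool.Agent.W_448j6_h22.KcI` -/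

section

/-!
MP_448cb3_co, G2, case B, window `j`: the triangle: the coefficient (3,2).
-/

namespace Pool.Agent.GaussPoset.EK

set_option linter.unusedSectionVars false

open Finset Win I2

universe u

variable {P : Type u} [Fintype P] [PartialOrder P] [DecidableEq P] {r i : ℕ}
variable {K : Finset P} {psi : P → P}

/-- an upper double whose sites have no lower double is in `K` -/
lemma Red.memU (R : Red P i K psi) {y : P} (hy : y ∈ dbU P i)
    (h0 : CoreC_L i (dc y) = ∅) : y ∈ K := by
  have h1 : y ∈ CoreC_U i (dc y) := mem_CoreC_U.2 ⟨hy, rfl⟩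
  have h2 := R.nU (dc y)
  unfold Df at h2
  rw [h0, card_empty] at h2
  have h3 : (K ∩ CoreC_U i (dc y)) = CoreC_U i (dc y) := by
    refine eq_of_subset_of_card_le inter_subset_right ?_
    have : (0 : ℤ) ≤ ((CoreC_U i (dc y)).card : ℤ) := Nat.cast_nonneg _
    push_cast at h2
    have h4 : ((K ∩ CoreC_U i (dc y)).card : ℤ) = ((CoreC_U i (dc y)).card : ℤ) := by
      rw [h2]
      rw [max_eq_left (by linarith)]
      ring
    have h5 : (K ∩ CoreC_U i (dc y)).card = (CoreC_U i (dc y)).card := by exact_mod_cast h4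
    omega
  rw [← h3] at h1
  exact (mem_inter.1 h1).1

/-- a lower double whose sites have no upper double is in `K` -/
lemma Red.memL (R : Red P i K psi) {y : P} (hy : y ∈ dbL P i)
    (h0 : CoreC_U i (uc y) = ∅) : y ∈ K := by
  have h1 : y ∈ CoreC_L i (uc y) := mem_CoreC_L.2 ⟨hy, rfl⟩
  have h2 := R.nL (uc y)
  unfold Df at h2
  rw [h0, card_empty] at h2
  have h3 : (K ∩ CoreC_L i (uc y)) = CoreC_L i (uc y) := by
    refine eq_of_subset_of_card_le inter_subset_right ?_
    have : (0 : ℤ) ≤ ((CoreC_L i (uc y)).card : ℤ) := Nat.cast_nonneg _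
    push_cast at h2
    have h4 : ((K ∩ CoreC_L i (uc y)).card : ℤ) = ((CoreC_L i (uc y)).card : ℤ) := by
      rw [h2]
      rw [max_eq_left (by linarith)]
      ring
    have h5 : (K ∩ CoreC_L i (uc y)).card = (CoreC_L i (uc y)).card := by exact_mod_cast h4
    omega
  rw [← h3] at h1
  exact (mem_inter.1 h1).1

end Pool.Agent.GaussPoset.EK

namespace Pool.Agent.GaussPoset.Win.W4

set_option linter.unusedSectionVars false

open Finset I2 K2

universe u

variable {P : Type u} [Fintype P] [PartialOrder P] [DecidableEq P] {r i : ℕ}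
variable {e : P → ℕ} {C : Finset P} {x0 x1 x2 v1 v2 w w' p : P}
variable {K : Finset P} {psi : P → P}

lemma card_int {a b c : P} (hac : a ≠ c) :
    ((({a, b} : Finset P) ∩ {b, c}).card = 1) := by
  have : (({a, b} : Finset P) ∩ {b, c}) = {b} := by
    ext z
    simp only [mem_inter, mem_insert, mem_singleton]
    constructor
    · rintro ⟨h1 | h1, h2 | h2⟩
      · exact h2
      · exact absurd (h1.symm.trans h2) hac
      · exact h1
      · exact h1
    · intro h
      exact ⟨Or.inr h, Or.inl h⟩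
  rw [this, card_singleton]

namespace Tri

section K

variable (T : Tri r i C x0 x1 x2 v1 v2 w w' p) (R : EK.Red P i K psi)
include T

lemma dw : w ∈ dbL P i := I2.mem_dbL'.2 ⟨T.lw, by rw [T.hw, card_pair T.n02]⟩
lemma dw' : w' ∈ dbL P i := T.swap.dw
lemma dv1 : v1 ∈ dbU P i := I2.mem_dbU'.2 ⟨T.lv1, by rw [T.hv1, card_pair T.n01]⟩
lemma dv2 : v2 ∈ dbU P i := T.rev.dv1

lemma nsw : ns i w = {x0, x2} := by rw [ns_L T.dw, T.hw]
lemma nsw' : ns i w' = {x0, x2} := T.swap.nsw
lemma nsv1 : ns i v1 = {x0, x1} := by rw [ns_U T.dv1, T.hv1]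
lemma nsv2 : ns i v2 = {x1, x2} := by rw [ns_U T.dv2, T.hv2]

include R

lemma Kw : w ∈ K := by
  refine R.memL T.dw ?_
  rw [eq_empty_iff_forall_notMem]
  intro y hy
  obtain ⟨h1, h2⟩ := mem_CoreC_U.1 hy
  rw [T.hw] at h2
  have h3 : x0 ∈ dc y := by rw [h2]; simp
  have h4 : y ∈ uc x0 := mem_uc.2 (mem_dc.1 h3)
  rw [T.u0, mem_singleton] at h4
  rw [h4, T.hv1] at h2
  have h5 : x1 ∈ ({x0, x2} : Finset P) := by rw [← h2]; simp
  rw [mem_insert, mem_singleton] at h5
  rcases h5 with h5 | h5
  · exact T.n01 h5.symm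
  · exact T.n12 h5

lemma Kw' : w' ∈ K := T.swap.Kw R

lemma Kv1 : v1 ∈ K := by
  refine R.memU T.dv1 ?_
  rw [eq_empty_iff_forall_notMem]
  intro y hy
  obtain ⟨h1, h2⟩ := mem_CoreC_L.1 hy
  rw [T.hv1] at h2
  have h3 : x1 ∈ uc y := by rw [h2]; simp
  have h4 : y ∈ dc x1 := mem_dc.2 (mem_uc.1 h3)
  rw [T.d1, mem_singleton] at h4
  rw [h4, T.hp] at h2
  have h5 : x0 ∈ ({x1} : Finset P) := by rw [h2]; simp
  rw [mem_singleton] at h5
  exact T.n01 h5

lemma Kv2 : v2 ∈ K := T.rev.Kv1 R

/-- the unmatched doubles -/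
lemma KD_eq : KD i K C = {v1, v2, w, w'} := by
  have l0 := T.l0
  have l1 := T.l1
  have l2 := T.l2
  have lw := T.lw
  have lw' := T.lw'
  have lp := T.lp
  have lv1 := T.lv1
  have lv2 := T.lv2
  ext k
  rw [K2.mem_KD]
  constructor
  · rintro ⟨-, hC, hd⟩
    have hpn : k ≠ p := by
      rintro rfl
      rcases mem_union.1 hd with h | h
      · have := (mem_dbL'.1 h).2
        rw [T.hp, card_singleton] at this
        omega
      · have := (mem_dbU'.1 h).1
        omega
    have hlev : lev k = i + 1 ∨ lev k + 1 = i := by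
      rcases mem_union.1 hd with h | h
      · exact Or.inl (mem_dbL'.1 h).1
      · exact Or.inr (mem_dbU'.1 h).1
    simp only [mem_insert, mem_singleton]
    rcases T.cases_C hC with h5 | h5 | h5 | h5 | h5 | h5 | h5 | h5 | h5 | h5
    · rw [h5] at hlev; omega
    · rw [h5] at hlev; omega
    · rw [h5] at hlev; omega
    · exact Or.inl h5
    · exact Or.inr (Or.inl h5)
    · exact Or.inr (Or.inr (Or.inl h5))
    · exact Or.inr (Or.inr (Or.inr h5))
    · exact absurd h5 hpn
    · omega
    · omega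
  · intro h
    simp only [mem_insert, mem_singleton] at h
    rcases h with rfl | rfl | rfl | rfl
    · exact ⟨T.Kv1 R, T.mV1, mem_union_right _ T.dv1⟩
    · exact ⟨T.Kv2 R, T.mV2, mem_union_right _ T.dv2⟩
    · exact ⟨T.Kw R, T.mW, mem_union_left _ T.dw⟩
    · exact ⟨T.Kw' R, T.mW', mem_union_left _ T.dw'⟩

/-- the pairs with one common site -/
lemma c1_eq (H : Gr P r) : K2.c1 i K C = -3 := by
  classical
  have lw := T.lw
  have lw' := T.lw'
  have lv1 := T.lv1
  have lv2 := T.lv2
  have hC := T.hC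
  obtain ⟨D, hD⟩ : ∃ D, D = KD i K C := ⟨_, rfl⟩
  have mD : ∀ k ∈ D, k ∈ K ∧ k ∈ C ∧ k ∈ dbL P i ∪ dbU P i ∧ (ns i k).card = 2 ∧
      ns i k ⊆ st i C := by
    intro k hk
    rw [hD, K2.mem_KD] at hk
    exact ⟨hk.1, hk.2.1, hk.2.2, ns_card hk.2.2, K2.ns_sub hC H hk.2.2 hk.2.1⟩
  have e1 : ∑ q ∈ D.offDiag.filter (fun q => (ns i q.1 ∩ ns i q.2).card = 1),
      sgn i q.1 * sgn i q.2 = 2 * K2.c1 i K C := by
    unfold K2.c1 I1
    rw [two_pairs, ← hD]
    refine Finset.sum_congr ?_ fun _ _ => rfl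
    ext q
    rw [mem_filter, mem_filter, mem_offDiag]
    refine and_congr_right fun h => ?_
    have : cm i C {q.1, q.2} = ns i q.1 ∩ ns i q.2 := by
      ext x
      unfold cm
      rw [mem_filter, mem_inter]
      constructor
      · rintro ⟨-, h4⟩
        exact ⟨h4 _ (by simp), h4 _ (by simp)⟩
      · rintro ⟨h4, h5⟩
        refine ⟨(mD _ h.1).2.2.2.2 h4, ?_⟩
        intro t ht
        rw [mem_insert, mem_singleton] at ht
        rcases ht with rfl | rfl <;> assumption
    rw [this]
  have e2 : ∑ q ∈ D.offDiag.filter (fun q => (ns i q.1 ∩ ns i q.2).card = 1),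
      sgn i q.1 * sgn i q.2 = ∑ k ∈ D, ∑ k' ∈ D,
        (if k ≠ k' ∧ (ns i k ∩ ns i k').card = 1 then sgn i k * sgn i k' else 0) := by
    rw [← Finset.sum_product', ← Finset.sum_filter]
    refine Finset.sum_congr ?_ fun _ _ => rfl
    ext q
    rw [mem_filter, mem_filter, mem_offDiag, mem_product]
    tauto
  have qne : ∀ {a b : P}, lev a ≠ lev b → a ≠ b := fun h h1 => h (by rw [h1])
  have n1 : v1 ≠ v2 := T.nv
  have n2 : v1 ≠ w := qne (by omega)
  have n3 : v1 ≠ w' := qne (by omega)
  have n4 : v2 ≠ w := qne (by omega)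
  have n5 : v2 ≠ w' := qne (by omega)
  have n6 : w ≠ w' := T.nw
  have s1 : sgn i v1 = -1 := EK.sgn_upp T.dv1
  have s2 : sgn i v2 = -1 := EK.sgn_upp T.dv2
  have s3 : sgn i w = 1 := EK.sgn_low T.dw
  have s4 : sgn i w' = 1 := EK.sgn_low T.dw'
  have c12 : (ns i v1 ∩ ns i v2).card = 1 := by
    rw [T.nsv1, T.nsv2]
    exact card_int T.n02
  have c1w : (ns i v1 ∩ ns i w).card = 1 := by
    rw [T.nsv1, T.nsw, pair_comm]
    exact card_int T.n12
  have c1w' : (ns i v1 ∩ ns i w').card = 1 := by
    rw [T.nsv1, T.nsw', pair_comm]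
    exact card_int T.n12
  have c2w : (ns i v2 ∩ ns i w).card = 1 := by
    rw [T.nsv2, T.nsw, pair_comm x0 x2]
    exact card_int T.n01.symm
  have c2w' : (ns i v2 ∩ ns i w').card = 1 := by
    rw [T.nsv2, T.nsw', pair_comm x0 x2]
    exact card_int T.n01.symm
  have cww : (ns i w ∩ ns i w').card = 2 := by
    rw [T.nsw, T.nsw', inter_self, card_pair T.n02]
  have c21 := c12
  rw [inter_comm] at c21
  have cw1 := c1w
  rw [inter_comm] at cw1
  have cw1' := c1w'
  rw [inter_comm] at cw1'
  have cw2 := c2w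
  rw [inter_comm] at cw2
  have cw2' := c2w'
  rw [inter_comm] at cw2'
  have cww' := cww
  rw [inter_comm] at cww'
  have hsum : ∀ f : P → ℤ, ∑ k ∈ ({v1, v2, w, w'} : Finset P), f k = f v1 + f v2 + f w + f w' := by
    intro f
    rw [sum_insert, sum_insert, sum_pair n6]
    · ring
    · simp only [mem_insert, mem_singleton]
      push Not
      exact ⟨n4, n5⟩
    · simp only [mem_insert, mem_singleton]
      push Not
      exact ⟨n1, n2, n3⟩
  have e3 : ∑ k ∈ D, ∑ k' ∈ D,
      (if k ≠ k' ∧ (ns i k ∩ ns i k').card = 1 then sgn i k * sgn i k' else 0) = -6 := by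
    rw [hD, T.KD_eq R, hsum, hsum, hsum, hsum, hsum, s1, s2, s3, s4]
    rw [if_neg (by simp), if_pos ⟨n1, c12⟩, if_pos ⟨n2, c1w⟩, if_pos ⟨n3, c1w'⟩,
      if_pos ⟨n1.symm, c21⟩, if_neg (by simp), if_pos ⟨n4, c2w⟩, if_pos ⟨n5, c2w'⟩,
      if_pos ⟨n2.symm, cw1⟩, if_pos ⟨n4.symm, cw2⟩, if_neg (by simp),
      if_neg (by rw [cww]; omega),
      if_pos ⟨n3.symm, cw1'⟩, if_pos ⟨n5.symm, cw2'⟩, if_neg (by rw [cww']; omega),
      if_neg (by simp)]
    norm_num
  rw [e2, e3] at e1
  linarith

/-- no contribution of the private children -/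
lemma c2_eq (H : Gr P r) : K2.c2 i K C = 0 := by
  classical
  have hC := T.hC
  have meet : ∀ S U : Finset P, S.card = 2 → U.card = 2 → S ⊆ st i C → U ⊆ st i C →
      1 ≤ (S ∩ U).card := by
    intro S U h1 h2 h3 h4
    have h5 := card_union_add_card_inter S U
    have h6 := card_le_card (union_subset h3 h4)
    rw [T.card_st] at h6
    omega
  unfold K2.c2
  rw [Finset.sum_eq_zero]
  rintro ⟨⟨z, y⟩, k⟩ ht
  exfalso
  rw [mem_I2'] at ht
  obtain ⟨g1, g2, g3, g4⟩ := ht
  have hyC := Pvt.mem_C hC g2 g1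
  obtain ⟨-, k1, k2⟩ := K2.mem_KD.1 g3
  have m1 := meet (ns i y) (ns i k) (ns_card g2.mem) (ns_card k2)
    (K2.ns_sub hC H g2.mem hyC) (K2.ns_sub hC H k2 k1)
  rw [disjoint_iff_inter_eq_empty.1 g4, card_empty] at m1
  omega

end K

/-- THE COEFFICIENT (3,2) -/
theorem w3_eq {ι : Type*} [DecidableEq ι] {κ : P → ι} {a : ι}
    (T : Tri r i (cext (i + 1) κ a) x0 x1 x2 v1 v2 w w' p) (hq : NoQ P (i + 2))
    (hg : ∀ m, m + 1 = i → Good P m) (hκ : Split (i + 1) κ) (R : EK.Red P i K psi) :
    wv i (cext (i + 1) κ a) = -3 := by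
  have hb : bb i (i + 1) κ a = 3 := T.card_st
  have h1 := w3_VV T.H T.hir hq hg hκ R.mat a
    (star_small T.H T.hir hκ R (Or.inl (by exact T.card_st.le))) (by rw [hb]; norm_num)
  rw [T.c1_eq R T.H, T.c2_eq R T.H] at h1
  unfold wv
  exact h1

/-- THE BOUND for the triangle -/
theorem Tv_ge {ι : Type*} [DecidableEq ι] {κ : P → ι} {a : ι}
    (T : Tri r i (cext (i + 1) κ a) x0 x1 x2 v1 v2 w w' p) (hq : NoQ P (i + 2))
    (hg : ∀ m, m + 1 = i → Good P m) (hκ : Split (i + 1) κ) (R : EK.Red P i K psi) :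
    6 ≤ Tv i (cext (i + 1) κ a) := by
  have h1 := T.w3_eq hq hg hκ R
  have h2 := T.c1
  have h3 := T.be4
  unfold Tv Lv I2.Q4
  have h4 : I2.w3 (st i (cext (i + 1) κ a)).card (ZS i (cext (i + 1) κ a)) = -3 := h1
  rw [h1, h2, h4]
  nlinarith [h3, sq_nonneg (2 * I2.al 2 (st i (cext (i + 1) κ a)).card
    (ZS i (cext (i + 1) κ a)) + 1)]

end Tri

end Pool.Agent.GaussPoset.Win.W4

end

/-! From `Pool.Agent.W_448j6_h22.KcL` -/

section

/-!
MP_448cb3_co, G2, case B, window `j`: the triangle: more configurations of value minus one, the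
coefficient (4,2) is at most two.
-/

namespace Pool.Agent.GaussPoset.Win.W4

set_option linter.unusedSectionVars false

open Finset
open Pool.Agent.GaussPoset.Win.SO (LowD UppD val_gen coef_units)

universe u

variable {P : Type u} [Fintype P] [PartialOrder P] [DecidableEq P] {r i : ℕ}
variable {e : P → ℕ} {C : Finset P} {x0 x1 x2 v1 v2 w w' p u : P}

/-- eight lists with value minus one -/
def negs8 : List (List ℕ) :=
  [[0, 1, 0, 1, 2, 0, 0, 0], [0, 1, 0, 2, 1, 0, 0, 0], [2, 0, 0, 1, 0, 1, 0, 0],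
    [2, 0, 0, 1, 0, 0, 1, 0], [0, 0, 2, 0, 1, 1, 0, 0], [0, 0, 2, 0, 1, 0, 1, 0],
    [1, 0, 0, 1, 0, 1, 1, 0], [0, 0, 1, 0, 1, 1, 1, 0]]

lemma negs8_card : negs8.toFinset.card = 8 := by decide +kernel

/-- a general lower labelling: the labels one on some lower elements, guarded, one killed site -/
lemma low_guard (H : Gr P r) {L : Finset P} {s s' : P} (hL : ∀ z ∈ L, lev z = i + 1)
    (hL1 : ∀ z ∈ L, uc z = {s, s'} ∧ e z = 1) (hne : L.Nonempty) (hs : lev s = i)
    (hs' : lev s' = i) (h1 : 1 ≤ e s) (h2 : e s' = 0)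
    (h0 : ∀ z, i < lev z → z ∉ L → e z = 0) : LowD i e (∅ : Finset P) ∅ {s'} := by
  have lab : ∀ z, i < lev z → e z ≤ 1 := by
    intro z hz
    by_cases h : z ∈ L
    · exact (hL1 z h).2.le
    · rw [h0 z hz h]; exact Nat.zero_le _
  have ss' : s ≠ s' := by rintro rfl; omega
  refine ⟨?_, ?_, ?_, ?_, ?_, ?_⟩
  · intro z hz
    constructor
    · rintro ⟨y, hy, hlt⟩
      have := lev_cov H hy
      rw [h0 y (by omega) (fun h => by have := hL y h; omega)] at hlt
      omega
    · intro h'
      exact absurd h' (notMem_empty _)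
  · intro z hz
    rw [mem_singleton]
    constructor
    · rintro ⟨y, hy, hlt⟩
      have hl := lev_cov H hy
      by_cases g1 : y ∈ L
      · have : z ∈ uc y := mem_uc.2 hy
        rw [(hL1 y g1).1, mem_insert, mem_singleton] at this
        rcases this with h | h
        · have := (hL1 y g1).2
          rw [h] at hlt
          omega
        · exact h
      · rw [h0 y (by omega) g1] at hlt
        omega
    · rintro rfl
      obtain ⟨y, hy⟩ := hne
      exact ⟨y, mem_uc.1 (by rw [(hL1 y hy).1]; simp), by rw [(hL1 y hy).2]; omega⟩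
  · intro z hz
    constructor
    · intro _
      exact ⟨notMem_empty _, notMem_empty _⟩
    · intro _
      by_cases g1 : z ∈ L
      · exact ⟨s, mem_uc.1 (by rw [(hL1 z g1).1]; simp), by rw [(hL1 z g1).2]; exact h1⟩
      · obtain ⟨y, hy⟩ := uc_nonempty H (x := z) (by omega)
        refine ⟨y, mem_uc.1 hy, ?_⟩
        rw [h0 z hz g1]
        exact Nat.zero_le _
  · intro z hz
    exact absurd hz (notMem_empty _)
  · intro z hz
    exact absurd hz (notMem_empty _)
  · intro z hz
    rw [mem_singleton] at hz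
    rw [hz]
    exact hs'

/-- an upper labelling: labels one on `v` and on a set of elements over `v` only, guarded -/
lemma upp_guard (H : Gr P r) (hir : i ≤ r) {v s s' : P} {U : Finset P} (hv : lev v + 1 = i)
    (hdv : dc v = {s, s'}) (hev : e v = 1) (h1 : 1 ≤ e s) (h2 : e s' = 0)
    (hU : ∀ z ∈ U, lev z + 2 = i ∧ dc z = {v} ∧ e z = 1)
    (h0 : ∀ z, lev z < i → z ≠ v → z ∉ U → e z = 0) : UppD i e (∅ : Finset P) ∅ {s'} := by
  have hls : lev s = i := by
    have : s ∈ dc v := by rw [hdv]; simp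
    have := lev_cov H (mem_dc.1 this)
    omega
  have hls' : lev s' = i := by
    have : s' ∈ dc v := by rw [hdv]; simp
    have := lev_cov H (mem_dc.1 this)
    omega
  refine ⟨?_, ?_, ?_, ?_, ?_, ?_⟩
  · intro z hz
    constructor
    · rintro ⟨y, hy, hlt⟩
      have hl := lev_cov H hy
      exfalso
      by_cases g1 : y ∈ U
      · obtain ⟨-, g3, g4⟩ := hU y g1
        have : z ∈ dc y := mem_dc.2 hy
        rw [g3, mem_singleton] at this
        rw [this] at hlt
        omega
      · by_cases g2 : y = v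
        · rw [g2] at hl
          omega
        · rw [h0 y (by omega) g2 g1] at hlt
          omega
    · intro h'
      exact absurd h' (notMem_empty _)
  · intro z hz
    rw [mem_singleton]
    constructor
    · rintro ⟨y, hy, hlt⟩
      have hl := lev_cov H hy
      by_cases g2 : y = v
      · rw [g2] at hy hlt
        have : z ∈ dc v := mem_dc.2 hy
        rw [hdv, mem_insert, mem_singleton] at this
        rcases this with h | h
        · rw [h] at hlt
          omega
        · exact h
      · rw [h0 y (by omega) g2 (fun h => by have := (hU y h).1; omega)] at hlt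
        omega
    · rintro rfl
      exact ⟨v, mem_dc.1 (by rw [hdv]; simp), by omega⟩
  · intro z hz
    constructor
    · intro _
      exact ⟨notMem_empty _, notMem_empty _⟩
    · intro _
      by_cases g1 : z ∈ U
      · obtain ⟨-, g3, g4⟩ := hU z g1
        exact ⟨v, mem_dc.1 (by rw [g3]; simp), by omega⟩
      by_cases g2 : z = v
      · rw [g2]
        exact ⟨s, mem_dc.1 (by rw [hdv]; simp), by omega⟩
      · obtain ⟨y, hy⟩ := dc_nonempty H (x := z) (by omega)
        refine ⟨y, mem_dc.1 hy, ?_⟩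
        rw [h0 z hz g2 g1]
        exact Nat.zero_le _
  · intro z hz
    exact absurd hz (notMem_empty _)
  · intro z hz
    exact absurd hz (notMem_empty _)
  · intro z hz
    rw [mem_singleton] at hz
    rw [hz]
    exact hls'

namespace Tri

variable (T : Tri r i C x0 x1 x2 v1 v2 w w' p)
include T

/-- the third kind: two lower doubles -/
lemma neg_three (h1 : e x0 = 1) (h2 : e v1 = 1) (h3 : e w = 1) (h4 : e w' = 1)
    (h0 : ∀ z, z ≠ x0 → z ≠ v1 → z ≠ w → z ≠ w' → e z = 0) : vl i C e = -1 := by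
  classical
  have H := T.H
  have lw := T.lw
  have lw' := T.lw'
  have lv1 := T.lv1
  have l0 := T.l0
  have l1 := T.l1
  have l2 := T.l2
  have hs : Spt C e := by
    intro z hz
    exact h0 z (fun h => hz (h ▸ T.mC0)) (fun h => hz (h ▸ T.mV1)) (fun h => hz (h ▸ T.mW))
      (fun h => hz (h ▸ T.mW'))
  have hx1 : e x1 = 0 := h0 x1 T.n01.symm (by rintro rfl; omega) (by rintro rfl; omega)
    (by rintro rfl; omega)
  have hx2 : e x2 = 0 := h0 x2 T.n02.symm (by rintro rfl; omega) (by rintro rfl; omega)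
    (by rintro rfl; omega)
  have D : LowD i e (∅ : Finset P) ∅ {x2} := by
    refine low_guard (L := {w, w'}) (s := x0) H ?_ ?_ ⟨w, by simp⟩ l0 l2 h1.ge hx2 ?_
    · intro z hz
      rw [mem_insert, mem_singleton] at hz
      rcases hz with rfl | rfl <;> assumption
    · intro z hz
      rw [mem_insert, mem_singleton] at hz
      rcases hz with rfl | rfl
      · exact ⟨T.hw, h3⟩
      · exact ⟨T.hw', h4⟩
    · intro z hz hn
      rw [mem_insert, mem_singleton] at hn
      push Not at hn
      exact h0 z (by rintro rfl; omega) (by rintro rfl; omega) hn.1 hn.2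
  have D' : UppD i e (∅ : Finset P) ∅ {x1} := by
    refine upp_guard (U := ∅) (s := x0) H T.hir lv1 T.hv1 h2 h1.ge hx1 ?_ ?_
    · intro z hz
      exact absurd hz (notMem_empty _)
    · intro z hz hn _
      exact h0 z (by rintro rfl; omega) hn (by rintro rfl; omega) (by rintro rfl; omega)
  have key := (val_gen H T.hC hs D D' (by rw [disjoint_singleton]; exact T.n12.symm) (k := 2)
    (by rw [card_singleton, card_singleton, card_empty])).2
  unfold vl
  rw [key, card_singleton, card_empty]
  norm_num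

/-- the fourth kind: an upper element over one of the doubles only -/
lemma neg_four (hu : dc u = {v1}) (h1 : e x0 = 1) (h2 : e v1 = 1) (h3 : e w = 1) (h4 : e u = 1)
    (h0 : ∀ z, z ≠ x0 → z ≠ v1 → z ≠ w → z ≠ u → e z = 0) : vl i C e = -1 := by
  classical
  have H := T.H
  have lw := T.lw
  have lv1 := T.lv1
  have l0 := T.l0
  have l1 := T.l1
  have l2 := T.l2
  have hvu : v1 ⋖ u := mem_dc.1 (by rw [hu]; simp)
  have lu := lev_cov H hvu
  have hs : Spt C e := by
    intro z hz
    exact h0 z (fun h => hz (h ▸ T.mC0)) (fun h => hz (h ▸ T.mV1)) (fun h => hz (h ▸ T.mW))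
      (fun h => hz (h ▸ T.hC.up T.mV1 hvu))
  have hx1 : e x1 = 0 := h0 x1 T.n01.symm (by rintro rfl; omega) (by rintro rfl; omega)
    (by rintro rfl; omega)
  have hx2 : e x2 = 0 := h0 x2 T.n02.symm (by rintro rfl; omega) (by rintro rfl; omega)
    (by rintro rfl; omega)
  have D : LowD i e (∅ : Finset P) ∅ {x2} := by
    refine low_guard (L := {w}) (s := x0) H ?_ ?_ ⟨w, by simp⟩ l0 l2 h1.ge hx2 ?_
    · intro z hz
      rw [mem_singleton] at hz
      rw [hz]
      exact lw
    · intro z hz
      rw [mem_singleton] at hz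
      rw [hz]
      exact ⟨T.hw, h3⟩
    · intro z hz hn
      rw [mem_singleton] at hn
      exact h0 z (by rintro rfl; omega) (by rintro rfl; omega) hn (by rintro rfl; omega)
  have D' : UppD i e (∅ : Finset P) ∅ {x1} := by
    refine upp_guard (U := {u}) (s := x0) H T.hir lv1 T.hv1 h2 h1.ge hx1 ?_ ?_
    · intro z hz
      rw [mem_singleton] at hz
      rw [hz]
      exact ⟨by omega, hu, h4⟩
    · intro z hz hn hn'
      rw [mem_singleton] at hn'
      exact h0 z (by rintro rfl; omega) hn (by rintro rfl; omega) hn'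
  have key := (val_gen H T.hC hs D D' (by rw [disjoint_singleton]; exact T.n12.symm) (k := 2)
    (by rw [card_singleton, card_singleton, card_empty])).2
  unfold vl
  rw [key, card_singleton, card_empty]
  norm_num

/-- the fifth kind: an upper element over both doubles -/
lemma neg_five (hu : dc u = {v1, v2}) (h1 : e v1 = 1) (h2 : e v2 = 1) (h3 : e u = 2)
    (h0 : ∀ z, z ≠ v1 → z ≠ v2 → z ≠ u → e z = 0) : vl i C e = -1 := by
  classical
  have H := T.H
  have lv1 := T.lv1
  have lv2 := T.lv2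
  have l0 := T.l0
  have l1 := T.l1
  have l2 := T.l2
  have hvu : v1 ⋖ u := mem_dc.1 (by rw [hu]; simp)
  have hvu' : v2 ⋖ u := mem_dc.1 (by rw [hu]; simp)
  have lu := lev_cov H hvu
  have hs : Spt C e := by
    intro z hz
    exact h0 z (fun h => hz (h ▸ T.mV1)) (fun h => hz (h ▸ T.mV2))
      (fun h => hz (h ▸ T.hC.up T.mV1 hvu))
  have hsite : ∀ z, lev z = i → e z = 0 := fun z hz =>
    h0 z (by rintro rfl; omega) (by rintro rfl; omega) (by rintro rfl; omega)
  have D : LowD i e (∅ : Finset P) ∅ ∅ := SO.low_none H fun z hz =>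
    h0 z (by rintro rfl; omega) (by rintro rfl; omega) (by rintro rfl; omega)
  have D' : UppD i e ({v1, v2} : Finset P) {u} {x0, x1, x2} := by
    refine ⟨?_, ?_, ?_, ?_, ?_, ?_⟩
    · intro z hz
      constructor
      · rintro ⟨y, hy, hlt⟩
        have := lev_cov H hy
        by_cases g1 : y = u
        · rw [g1] at hy
          rw [← hu]
          exact mem_dc.2 hy
        · rw [h0 y (by rintro rfl; omega) (by rintro rfl; omega) g1] at hlt
          omega
      · intro h'
        rw [mem_insert, mem_singleton] at h'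
        rcases h' with rfl | rfl
        · exact ⟨u, hvu, by omega⟩
        · exact ⟨u, hvu', by omega⟩
    · intro z hz
      constructor
      · rintro ⟨y, hy, hlt⟩
        have hl := lev_cov H hy
        by_cases g1 : y = v1
        · rw [g1] at hy
          have : z ∈ dc v1 := mem_dc.2 hy
          rw [T.hv1] at this
          simp only [mem_insert, mem_singleton] at this ⊢
          tauto
        by_cases g2 : y = v2
        · rw [g2] at hy
          have : z ∈ dc v2 := mem_dc.2 hy
          rw [T.hv2] at this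
          simp only [mem_insert, mem_singleton] at this ⊢
          tauto
        rw [h0 y g1 g2 (by rintro rfl; omega)] at hlt
        omega
      · intro h'
        rw [mem_insert, mem_insert, mem_singleton] at h'
        have h5 := hsite z hz
        rcases h' with rfl | rfl | rfl
        · exact ⟨v1, T.c_01, by omega⟩
        · exact ⟨v2, T.c_12, by omega⟩
        · exact ⟨v2, T.c_22, by omega⟩
    · intro z hz
      constructor
      · rintro ⟨y, hy, hle⟩
        have hl := lev_cov H hy
        refine ⟨?_, ?_⟩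
        · intro h'
          rw [mem_insert, mem_singleton] at h'
          rcases h' with rfl | rfl
          · rw [hsite y (by omega)] at hle
            omega
          · rw [hsite y (by omega)] at hle
            omega
        · intro h'
          rw [mem_singleton] at h'
          rw [h'] at hy hle
          have : y ∈ dc u := mem_dc.2 hy
          rw [hu, mem_insert, mem_singleton] at this
          rcases this with rfl | rfl <;> omega
      · rintro ⟨h', h''⟩
        rw [mem_singleton] at h''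
        rw [mem_insert, mem_singleton] at h'
        push Not at h'
        obtain ⟨y, hy⟩ := dc_nonempty H (x := z) (by have := T.hi2; omega)
        refine ⟨y, mem_dc.1 hy, ?_⟩
        rw [h0 z h'.1 h'.2 h'']
        exact Nat.zero_le _
    · intro z hz
      rw [mem_insert, mem_singleton] at hz
      rcases hz with rfl | rfl <;> omega
    · intro z hz
      rw [mem_singleton] at hz
      rw [hz]
      refine ⟨by omega, ?_⟩
      rw [mem_insert, mem_singleton]
      rintro (rfl | rfl) <;> omega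
    · intro z hz
      rw [mem_insert, mem_insert, mem_singleton] at hz
      rcases hz with rfl | rfl | rfl <;> assumption
  have c3 : ({x0, x1, x2} : Finset P).card = 3 := by
    rw [← T.hst]
    exact T.card_st
  have key := (val_gen H T.hC hs D D' (disjoint_empty_left _) (k := 2)
    (by rw [c3, card_singleton, card_empty])).2
  unfold vl
  rw [key, card_singleton, card_empty, card_pair T.nv]
  norm_num

end Tri

end Pool.Agent.GaussPoset.Win.W4

end

/-! From `Pool.Agent.W_448j6_h22.KcM` -/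

section

/-!
MP_448cb3_co, G2, case B, window `j`: the triangle: the coefficient (4,2) is at most two.
-/

namespace Pool.Agent.GaussPoset.Win.W4

set_option linter.unusedSectionVars false

open Finset
open Pool.Agent.GaussPoset.Win.SO (LowD UppD val_gen coef_units)

universe u

variable {P : Type u} [Fintype P] [PartialOrder P] [DecidableEq P] {r i : ℕ}
variable {e : P → ℕ} {C : Finset P} {x0 x1 x2 v1 v2 w w' p u : P}

/-- the configuration of an upper element -/
noncomputable def cfu (x0 x2 v1 v2 w : P) (u : P) : P → ℕ :=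
  if dc u = {v1, v2} then fun z => if z = u then 2 else if z = v1 ∨ z = v2 then 1 else 0
  else if dc u = {v1} then
    fun z => if z = u then 1 else if z = x0 ∨ z = v1 ∨ z = w then 1 else 0
  else fun z => if z = u then 1 else if z = x2 ∨ z = v2 ∨ z = w then 1 else 0

namespace Tri

variable (T : Tri r i C x0 x1 x2 v1 v2 w w' p)
include T

/-- the lower covers of an upper element -/
lemma dc_upp (hu : u ∈ uc v1 ∪ uc v2) :
    lev u + 2 = i ∧ u ∈ C ∧ (dc u = {v1, v2} ∨ dc u = {v1} ∨ dc u = {v2}) := by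
  have H := T.H
  have lv1 := T.lv1
  have lv2 := T.lv2
  have huC : u ∈ C := by
    rcases mem_union.1 hu with h | h
    · exact T.hC.up T.mV1 (mem_uc.1 h)
    · exact T.hC.up T.mV2 (mem_uc.1 h)
  have hlu : lev u + 2 = i := by
    rcases mem_union.1 hu with h | h
    · have := lev_cov H (mem_uc.1 h)
      omega
    · have := lev_cov H (mem_uc.1 h)
      omega
  refine ⟨hlu, huC, ?_⟩
  have hsub : dc u ⊆ {v1, v2} := by
    intro y hy
    have hl := lev_cov H (mem_dc.1 hy)
    have hyC := T.hC.dn huC (by omega) (mem_dc.1 hy)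
    have l0 := T.l0
    have l1 := T.l1
    have l2 := T.l2
    have lw := T.lw
    have lw' := T.lw'
    have lp := T.lp
    rw [mem_insert, mem_singleton]
    rcases T.cases_C hyC with h | h | h | h | h | h | h | h | h | h
    · rw [h] at hl; omega
    · rw [h] at hl; omega
    · rw [h] at hl; omega
    · exact Or.inl h
    · exact Or.inr h
    · rw [h] at hl; omega
    · rw [h] at hl; omega
    · rw [h] at hl; omega
    · omega
    · omega
  have hne : (dc u).Nonempty := by
    rcases mem_union.1 hu with h | h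
    · exact ⟨v1, mem_dc.2 (mem_uc.1 h)⟩
    · exact ⟨v2, mem_dc.2 (mem_uc.1 h)⟩
  by_cases a1 : v1 ∈ dc u
  · by_cases a2 : v2 ∈ dc u
    · left
      refine Finset.Subset.antisymm hsub ?_
      intro y hy
      rw [mem_insert, mem_singleton] at hy
      rcases hy with rfl | rfl <;> assumption
    · right; left
      ext y
      rw [mem_singleton]
      constructor
      · intro hy
        have := hsub hy
        rw [mem_insert, mem_singleton] at this
        rcases this with h | h
        · exact h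
        · rw [h] at hy
          exact absurd hy a2
      · rintro rfl
        exact a1
  · right; right
    obtain ⟨y0, hy0⟩ := hne
    have h2 : v2 ∈ dc u := by
      have := hsub hy0
      rw [mem_insert, mem_singleton] at this
      rcases this with h | h
      · rw [h] at hy0
        exact absurd hy0 a1
      · rw [← h]; exact hy0
    ext y
    rw [mem_singleton]
    constructor
    · intro hy
      have := hsub hy
      rw [mem_insert, mem_singleton] at this
      rcases this with h | h
      · rw [h] at hy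
        exact absurd hy a1
      · exact h
    · rintro rfl
      exact h2

/-- the eight values -/
lemma vl_neg8 {l : List ℕ} (hl : l ∈ negs8) : vl i C (cfg x0 x1 x2 v1 v2 w w' p l) = -1 := by
  by_cases h6 : l ∈ negs
  · exact T.vl_neg h6
  obtain ⟨h0, h1, h2, h3, h4, h5, h6', h7⟩ := T.cfg_vals l
  have key : ∀ z, z ≠ x0 ∧ z ≠ x1 ∧ z ≠ x2 ∧ z ≠ v1 ∧ z ≠ v2 ∧ z ≠ w ∧ z ≠ w' ∧ z ≠ p →
      cfg x0 x1 x2 v1 v2 w w' p l z = 0 := by
    intro z h
    refine cfg_zero l ?_
    simp only [mem_insert, mem_singleton]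
    tauto
  have hl2 : l = [1, 0, 0, 1, 0, 1, 1, 0] ∨ l = [0, 0, 1, 0, 1, 1, 1, 0] := by
    unfold negs8 at hl
    unfold negs at h6
    simp only [List.mem_cons, List.not_mem_nil, or_false] at hl h6
    tauto
  rcases hl2 with hl | hl
  · rw [hl] at h0 h1 h2 h3 h4 h5 h6' h7 key ⊢
    refine T.neg_three h0 h3 h5 h6' fun z g1 g2 g3 g4 => ?_
    by_cases k1 : z = x1
    · rw [k1]; exact h1
    by_cases k2 : z = x2
    · rw [k2]; exact h2
    by_cases k3 : z = v2
    · rw [k3]; exact h4
    by_cases k5 : z = p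
    · rw [k5]; exact h7
    exact key z ⟨g1, k1, k2, g2, k3, g3, g4, k5⟩
  · rw [hl] at h0 h1 h2 h3 h4 h5 h6' h7 key ⊢
    refine T.rev.neg_three h2 h4 h5 h6' fun z g1 g2 g3 g4 => ?_
    by_cases k1 : z = x1
    · rw [k1]; exact h1
    by_cases k2 : z = x0
    · rw [k2]; exact h0
    by_cases k3 : z = v1
    · rw [k3]; exact h3
    by_cases k5 : z = p
    · rw [k5]; exact h7
    exact key z ⟨k2, k1, g1, k3, g2, g3, g4, k5⟩

/-- the value of the configuration of an upper element -/
lemma vl_cfu (hu : u ∈ uc v1 ∪ uc v2) : vl i C (cfu x0 x2 v1 v2 w u) = -1 ∧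
    cfu x0 x2 v1 v2 w u ∈ C.piAntidiag 4 ∧ 1 ≤ cfu x0 x2 v1 v2 w u u ∧
    ∀ z, lev z + 2 = i → z ≠ u → cfu x0 x2 v1 v2 w u z = 0 := by
  classical
  obtain ⟨lu, huC, hdc⟩ := T.dc_upp hu
  have l0 := T.l0
  have l1 := T.l1
  have l2 := T.l2
  have lw := T.lw
  have lv1 := T.lv1
  have lv2 := T.lv2
  have q : ∀ {a b : P}, lev a ≠ lev b → a ≠ b := fun h h1 => h (by rw [h1])
  have n1 : v1 ≠ u := q (by omega)
  have n2 : v2 ≠ u := q (by omega)
  have n3 : x0 ≠ u := q (by omega)
  have n4 : x2 ≠ u := q (by omega)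
  have n5 : w ≠ u := q (by omega)
  have n6 : x0 ≠ v1 := q (by omega)
  have n7 : x0 ≠ w := q (by omega)
  have n8 : v1 ≠ w := q (by omega)
  have n9 : x2 ≠ v2 := q (by omega)
  have n10 : x2 ≠ w := q (by omega)
  have n11 : v2 ≠ w := q (by omega)
  have hv1v2 : ({v1} : Finset P) ≠ {v1, v2} := by
    intro h
    have : v2 ∈ ({v1} : Finset P) := by rw [h]; simp
    rw [mem_singleton] at this
    exact T.nv this.symm
  have hv2v2 : ({v2} : Finset P) ≠ {v1, v2} := by
    intro h
    have : v1 ∈ ({v2} : Finset P) := by rw [h]; simp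
    rw [mem_singleton] at this
    exact T.nv this
  have hv2v1 : ({v2} : Finset P) ≠ {v1} := by
    intro h
    have : v2 ∈ ({v1} : Finset P) := by rw [← h]; simp
    rw [mem_singleton] at this
    exact T.nv this.symm
  have four : ∀ (f : P → ℕ) (a b c d : P), a ≠ b → a ≠ c → a ≠ d → b ≠ c → b ≠ d → c ≠ d →
      a ∈ C → b ∈ C → c ∈ C → d ∈ C → f a + f b + f c + f d = 4 →
      (∀ z, z ≠ a → z ≠ b → z ≠ c → z ≠ d → f z = 0) → f ∈ C.piAntidiag 4 := by
    intro f a b c d ab ac ad bc bd cd ha hb hc hd hsum hz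
    rw [mem_piAntidiag]
    constructor
    · have s1 : ({a, b, c, d} : Finset P) ⊆ C := by
        intro z hz
        simp only [mem_insert, mem_singleton] at hz
        rcases hz with rfl | rfl | rfl | rfl <;> assumption
      rw [← sum_subset s1 fun z _ hz' => ?_, sum_insert, sum_insert, sum_pair cd, ← hsum]
      · ring
      · simp only [mem_insert, mem_singleton]
        push Not
        exact ⟨bc, bd⟩
      · simp only [mem_insert, mem_singleton]
        push Not
        exact ⟨ab, ac, ad⟩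
      · simp only [mem_insert, mem_singleton] at hz'
        push Not at hz'
        exact hz z hz'.1 hz'.2.1 hz'.2.2.1 hz'.2.2.2
    · intro z hz'
      by_contra hC
      refine hz' (hz z ?_ ?_ ?_ ?_)
      · rintro rfl; exact hC ha
      · rintro rfl; exact hC hb
      · rintro rfl; exact hC hc
      · rintro rfl; exact hC hd
  rcases hdc with hd | hd | hd
  · obtain ⟨f, hf⟩ : ∃ f, f = cfu x0 x2 v1 v2 w u := ⟨_, rfl⟩
    have hf' : f = fun z => if z = u then 2 else if z = v1 ∨ z = v2 then 1 else 0 := by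
      rw [hf]
      unfold cfu
      rw [if_pos hd]
    have f1 : f u = 2 := by rw [hf']; simp
    have f2 : f v1 = 1 := by rw [hf']; simp [n1]
    have f3 : f v2 = 1 := by rw [hf']; simp [n2]
    have fz : ∀ z, z ≠ v1 → z ≠ v2 → z ≠ u → f z = 0 := by
      intro z h1 h2 h3
      rw [hf']
      simp [h1, h2, h3]
    rw [← hf]
    refine ⟨T.neg_five hd f2 f3 f1 fz, ?_, by omega, ?_⟩
    · refine four f u v1 v2 x0 n1.symm n2.symm n3.symm T.nv n6.symm (q (by omega)) huC T.mV1 T.mV2
        T.mC0 ?_ fun z g1 g2 g3 _ => fz z g2 g3 g1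
      rw [f1, f2, f3, fz x0 n6 (q (by omega)) n3]
    · intro z hz hzu
      exact fz z (by rintro rfl; omega) (by rintro rfl; omega) hzu
  · obtain ⟨f, hf⟩ : ∃ f, f = cfu x0 x2 v1 v2 w u := ⟨_, rfl⟩
    have hf' : f = fun z => if z = u then 1 else if z = x0 ∨ z = v1 ∨ z = w then 1 else 0 := by
      rw [hf]
      unfold cfu
      rw [if_neg (by rw [hd]; exact hv1v2), if_pos hd]
    have f1 : f u = 1 := by rw [hf']; simp
    have f2 : f v1 = 1 := by rw [hf']; simp
    have f3 : f x0 = 1 := by rw [hf']; simp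
    have f4 : f w = 1 := by rw [hf']; simp
    have fz : ∀ z, z ≠ x0 → z ≠ v1 → z ≠ w → z ≠ u → f z = 0 := by
      intro z h1 h2 h3 h4
      rw [hf']
      simp [h1, h2, h3, h4]
    rw [← hf]
    refine ⟨T.neg_four hd f3 f2 f4 f1 fz, ?_, by omega, ?_⟩
    · refine four f u v1 x0 w n1.symm n3.symm n5.symm n6.symm n8 n7 huC T.mV1 T.mC0
        T.mW ?_ fun z g1 g2 g3 g4 => fz z g3 g2 g4 g1
      rw [f1, f2, f3, f4]
    · intro z hz hzu
      exact fz z (by rintro rfl; omega) (by rintro rfl; omega) (by rintro rfl; omega) hzu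
  · obtain ⟨f, hf⟩ : ∃ f, f = cfu x0 x2 v1 v2 w u := ⟨_, rfl⟩
    have hf' : f = fun z => if z = u then 1 else if z = x2 ∨ z = v2 ∨ z = w then 1 else 0 := by
      rw [hf]
      unfold cfu
      rw [if_neg (by rw [hd]; exact hv2v2), if_neg (by rw [hd]; exact hv2v1)]
    have f1 : f u = 1 := by rw [hf']; simp
    have f2 : f v2 = 1 := by rw [hf']; simp
    have f3 : f x2 = 1 := by rw [hf']; simp
    have f4 : f w = 1 := by rw [hf']; simp
    have fz : ∀ z, z ≠ x2 → z ≠ v2 → z ≠ w → z ≠ u → f z = 0 := by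
      intro z h1 h2 h3 h4
      rw [hf']
      simp [h1, h2, h3, h4]
    rw [← hf]
    refine ⟨T.rev.neg_four hd f3 f2 f4 f1 fz, ?_, by omega, ?_⟩
    · refine four f u v2 x2 w n2.symm n4.symm n5.symm n9.symm n11 n10 huC T.mV2 T.mC2
        T.mW ?_ fun z g1 g2 g3 g4 => fz z g3 g2 g4 g1
      rw [f1, f2, f3, f4]
    · intro z hz hzu
      exact fz z (by rintro rfl; omega) (by rintro rfl; omega) (by rintro rfl; omega) hzu

/-- the number of the configurations of positive value -/
lemma card_pos_le : ((C.piAntidiag 4).filter (fun e => 0 < vl i C e)).card ≤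
    10 + (uc v1 ∪ uc v2).card := by
  classical
  obtain ⟨S1, hS1⟩ : ∃ S : Finset (P → ℕ), S = (C.piAntidiag 4).filter
    (fun e => tup e x0 x1 x2 v1 v2 w w' p ∈ tens ∧
      ∀ g : P, (i + 2 ≤ lev g ∨ lev g + 2 ≤ i) → e g = 0) := ⟨_, rfl⟩
  obtain ⟨S2, hS2⟩ : ∃ S : Finset (P → ℕ), S = (uc v1 ∪ uc v2).image
    (fun g z => if z = g ∨ z = x1 ∨ z = v1 ∨ z = v2 then 1 else 0) := ⟨_, rfl⟩
  have hsub : (C.piAntidiag 4).filter (fun e => 0 < vl i C e) ⊆ S1 ∪ S2 := by
    intro e he
    rw [mem_filter] at he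
    rw [mem_union]
    rcases T.pos_cases he.1 he.2 with h | ⟨h1, h2, h3, g, hg, hg1, h0⟩
    · left
      rw [hS1, mem_filter]
      exact ⟨he.1, h⟩
    · right
      rw [hS2, mem_image]
      refine ⟨g, hg, ?_⟩
      funext z
      by_cases k : z = g ∨ z = x1 ∨ z = v1 ∨ z = v2
      · rw [if_pos k]
        rcases k with rfl | rfl | rfl | rfl <;> omega
      · rw [if_neg k]
        push Not at k
        exact (h0 z k.1 k.2.1 k.2.2.1 k.2.2.2).symm
  have c1 : S1.card ≤ 10 := by
    rw [← tens_card]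
    refine card_le_card_of_injOn (fun e => tup e x0 x1 x2 v1 v2 w w' p) ?_ ?_
    · intro e he
      rw [hS1, mem_coe, mem_filter] at he
      exact mem_coe.2 (List.mem_toFinset.2 he.2.1)
    · intro e he e' he' hee
      rw [hS1, mem_coe, mem_filter] at he he'
      obtain ⟨s1, -⟩ := energy_C he.1
      obtain ⟨s2, -⟩ := energy_C he'.1
      simp only [tup, tcd, List.cons.injEq] at hee
      obtain ⟨g0, g1, g2, g3, g4, g5, g6, g7, -⟩ := hee
      funext z
      by_cases hC : z ∈ C
      · rcases T.cases_C hC with h5 | h5 | h5 | h5 | h5 | h5 | h5 | h5 | h5 | h5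
        · rw [h5]; exact g0
        · rw [h5]; exact g1
        · rw [h5]; exact g2
        · rw [h5]; exact g3
        · rw [h5]; exact g4
        · rw [h5]; exact g5
        · rw [h5]; exact g6
        · rw [h5]; exact g7
        · rw [he.2.2 z (Or.inl h5), he'.2.2 z (Or.inl h5)]
        · rw [he.2.2 z (Or.inr h5), he'.2.2 z (Or.inr h5)]
      · rw [s1 z hC, s2 z hC]
  have c2 : S2.card ≤ (uc v1 ∪ uc v2).card := by
    rw [hS2]
    exact card_image_le
  have h1 := card_le_card hsub
  have h2 := card_union_le S1 S2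
  omega

/-- THE SUM of the values -/
theorem sum_vl_two : ∑ e ∈ C.piAntidiag 4, vl i C e ≤ 2 := by
  classical
  obtain ⟨N1, hN1⟩ : ∃ S : Finset (P → ℕ), S = negs8.toFinset.image
    (fun l => cfg x0 x1 x2 v1 v2 w w' p l) := ⟨_, rfl⟩
  obtain ⟨N2, hN2⟩ : ∃ S : Finset (P → ℕ), S = (uc v1 ∪ uc v2).image
    (fun u => cfu x0 x2 v1 v2 w u) := ⟨_, rfl⟩
  have hlen : ∀ l ∈ negs8, l.length = 8 := by decide
  have hsum : ∀ l ∈ negs8, l.getD 0 0 + l.getD 1 0 + l.getD 2 0 + l.getD 3 0 + l.getD 4 0 +
      l.getD 5 0 + l.getD 6 0 + l.getD 7 0 = 4 := by decide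
  have hc1 : N1.card = 8 := by
    rw [hN1, card_image_of_injOn, negs8_card]
    intro l hl l' hl' hll
    have h1 := T.tup_cfg (hlen l (List.mem_toFinset.1 (mem_coe.1 hl)))
    have h2 := T.tup_cfg (hlen l' (List.mem_toFinset.1 (mem_coe.1 hl')))
    simp only at hll
    rw [← h1, ← h2, hll]
  have hc2 : N2.card = (uc v1 ∪ uc v2).card := by
    rw [hN2, card_image_of_injOn]
    intro u hu u' hu' huu
    obtain ⟨-, -, a1, a2⟩ := T.vl_cfu (mem_coe.1 hu)
    obtain ⟨-, -, b1, b2⟩ := T.vl_cfu (mem_coe.1 hu')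
    simp only at huu
    by_contra hne
    have h1 := b2 u (T.dc_upp (mem_coe.1 hu)).1 hne
    rw [← huu] at h1
    omega
  have hdj : Disjoint N1 N2 := by
    rw [disjoint_left]
    intro e h1 h2
    rw [hN1, mem_image] at h1
    rw [hN2, mem_image] at h2
    obtain ⟨l, hl, rfl⟩ := h1
    obtain ⟨u, hu, h3⟩ := h2
    obtain ⟨-, -, a1, -⟩ := T.vl_cfu hu
    have h4 := T.dc_upp hu
    rw [h3] at a1
    have h5 : u ∉ ({x0, x1, x2, v1, v2, w, w', p} : Finset P) := by
      have hi := T.hi
      have l0 := T.l0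
      have l1 := T.l1
      have l2 := T.l2
      have lw := T.lw
      have lw' := T.lw'
      have lp := T.lp
      have lv1 := T.lv1
      have lv2 := T.lv2
      have lu := h4.1
      simp only [mem_insert, mem_singleton]
      rintro (h | h | h | h | h | h | h | h) <;> rw [h] at lu <;> omega
    rw [cfg_zero l h5] at a1
    omega
  obtain ⟨N, hN⟩ : ∃ N, N = N1 ∪ N2 := ⟨_, rfl⟩
  have hNc : N.card = 8 + (uc v1 ∪ uc v2).card := by
    rw [hN, card_union_of_disjoint hdj, hc1, hc2]
  have hNA : N ⊆ C.piAntidiag 4 := by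
    intro e he
    rw [hN, mem_union] at he
    rcases he with he | he
    · rw [hN1, mem_image] at he
      obtain ⟨l, hl, rfl⟩ := he
      exact T.cfg_mem (hsum l (List.mem_toFinset.1 hl))
    · rw [hN2, mem_image] at he
      obtain ⟨u, hu, rfl⟩ := he
      exact (T.vl_cfu hu).2.1
  have hNv : ∀ e ∈ N, vl i C e = -1 := by
    intro e he
    rw [hN, mem_union] at he
    rcases he with he | he
    · rw [hN1, mem_image] at he
      obtain ⟨l, hl, rfl⟩ := he
      exact T.vl_neg8 (List.mem_toFinset.1 hl)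
    · rw [hN2, mem_image] at he
      obtain ⟨u, hu, rfl⟩ := he
      exact (T.vl_cfu hu).1
  have hpt : ∀ e ∈ C.piAntidiag 4,
      vl i C e ≤ (if 0 < vl i C e then 1 else 0) - (if e ∈ N then 1 else 0) := by
    intro e he
    obtain ⟨hs, hE⟩ := energy_C he
    by_cases h1 : e ∈ N
    · rw [hNv e h1, if_pos h1]
      norm_num
    · rw [if_neg h1, sub_zero]
      by_cases h2 : 0 < vl i C e
      · rw [if_pos h2]
        exact vl_le_one T.H T.part hs T.card_st fun ⟨a1, a2, a3, a4, a5, a6⟩ =>
          T.no_three hs hE a1 a2 a3 a4 a5 a6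
      · rw [if_neg h2]
        omega
  have h1 := sum_le_sum hpt
  rw [sum_sub_distrib, sum_boole, sum_boole] at h1
  have h2 : (C.piAntidiag 4).filter (fun e => e ∈ N) = N := by
    ext e
    rw [mem_filter]
    exact ⟨fun h => h.2, fun h => ⟨hNA h, h⟩⟩
  rw [h2, hNc] at h1
  have h3 := T.card_pos_le
  have h4 : (((C.piAntidiag 4).filter (fun e => 0 < vl i C e)).card : ℤ) ≤
      10 + ((uc v1 ∪ uc v2).card : ℤ) := by
    exact_mod_cast h3
  push_cast at h1
  linarith

/-- the coefficient (4,2) -/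
theorem be4_two : I2.be 4 (st i C).card (ZS i C) ≤ 2 := by
  have h1 : I2.be 4 (st i C).card (ZS i C) = ∑ e ∈ C.piAntidiag 4, vl i C e := by
    unfold I2.be
    rw [coeff_ZS]
    unfold ZC
    rw [mul_sum, map_sum]
    rfl
  rw [h1]
  exact T.sum_vl_two

end Tri

/-- THE SECOND BOUND for the triangle -/
theorem Tri.own2 {ι : Type*} [DecidableEq ι] {κ : P → ι} {a : ι} {K : Finset P} {psi : P → P}
    (T : Tri r i (cext (i + 1) κ a) x0 x1 x2 v1 v2 w w' p) (hq : K2.NoQ P (i + 2))
    (hg : ∀ m, m + 1 = i → Good P m) (hκ : Split (i + 1) κ) (R : EK.Red P i K psi) :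
    1 ≤ - I2.al 2 (I2.bb i (i + 1) κ a) (I2.VV i (i + 1) κ a) +
      2 * I2.Q4 (I2.bb i (i + 1) κ a) (I2.VV i (i + 1) κ a) +
      13 * I2.w3 (I2.bb i (i + 1) κ a) (I2.VV i (i + 1) κ a) := by
  have h1 : I2.w3 (st i (cext (i + 1) κ a)).card (ZS i (cext (i + 1) κ a)) = -3 :=
    T.w3_eq hq hg hκ R
  have h2 := T.c1
  have h3 := T.be4_two
  unfold I2.Q4 I2.bb I2.VV
  rw [h1, h2]
  obtain ⟨A, hA⟩ : ∃ A, A = I2.al 2 (st i (cext (i + 1) κ a)).card (ZS i (cext (i + 1) κ a)) :=
    ⟨_, rfl⟩
  obtain ⟨B, hB⟩ : ∃ B, B = I2.be 4 (st i (cext (i + 1) κ a)).card (ZS i (cext (i + 1) κ a)) :=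
    ⟨_, rfl⟩
  rw [← hB] at h3 ⊢
  rw [← hA]
  have h4 : 0 ≤ A * (2 * A - 1) := by
    rcases le_or_gt A 0 with h | h
    · exact mul_nonneg_of_nonpos_of_nonpos h (by linarith)
    · exact mul_nonneg h.le (by linarith)
  linarith

end Pool.Agent.GaussPoset.Win.W4

end
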