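import Mathlib
import Pool.Agent.W_448zz_h61.Ns
import Pool.Agent.W_448zz_h61.M215
import Pool.Agent.W_448zz_h61.M219

/-! From `Pool.Agent.W_448j6_h22.KbF` -/

section

/-!
MP_448cb3_co, G2, case B, window `j`: the functional of a part with three sites and two unmatched doubles;
the patterns [DL] and R with three sites.
-/

namespace Pool.Agent.GaussPoset.Win.W4

set_option linter.unusedSectionVars false

open Finset
open Pool.Agent.GaussPoset.Win.SO (PN vp con on mem_PN vp_PD vp_PU)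

universe u

variable {P : Type u} [Fintype P] [PartialOrder P] [DecidableEq P] {r i : ℕ}
variable {psi : P → P} {C K : Finset P} {w v p q s : P} {x : ℕ → P}

lemma three_meet {S T U : Finset P} (hU : U.card = 3) (hS : S ⊆ U) (hT : T ⊆ U)
    (h : 4 ≤ S.card + T.card) : ¬ Disjoint S T := by
  intro hd
  have h1 := card_le_card (union_subset hS hT)
  rw [card_union_of_disjoint hd] at h1
  omega

lemma two_meet_one {S T U : Finset P} (hU : U.card = 3) (hS : S ⊆ U) (hT : T ⊆ U)
    (h2 : S.card = 2) (h2' : T.card = 2) : ((S ∩ T).card = 1) ↔ T ≠ S := by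
  have h0 := three_meet hU hS hT (by omega)
  constructor
  · rintro h1 rfl
    rw [inter_self] at h1
    omega
  · intro h1
    have h3 : 0 < (S ∩ T).card := by
      rw [Nat.pos_iff_ne_zero]
      intro h4
      rw [card_eq_zero, ← disjoint_iff_inter_eq_empty] at h4
      exact h0 h4
    by_contra h4
    have h5 : S ∩ T = T := by
      refine eq_of_subset_of_card_le inter_subset_right ?_
      omega
    have h6 : T ⊆ S := by rw [← h5]; exact inter_subset_left
    exact h1 (eq_of_subset_of_card_le h6 (by omega))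

section three

variable (Q : K5 r i K psi C w v) (hw : uc w = {p, q}) (hv : dc v = {q, s}) (hpq : p ≠ q)
  (hqs : q ≠ s) (hps : p ≠ s) (hst : st i C = {p, q, s})
include Q hw hv hpq hqs hps hst

lemma K5.three_card : (st i C).card = 3 := by
  rw [hst, card_insert_of_notMem, card_pair hqs]
  rw [mem_insert, mem_singleton]
  push Not
  exact ⟨hpq, hps⟩

lemma K5.three_w : nz i w ⊆ st i C ∧ (nz i w).card = 2 := by
  rw [nz_low Q.lw0, hw, hst]
  exact ⟨fun y hy => by
    rw [mem_insert, mem_singleton] at hy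
    rw [mem_insert, mem_insert, mem_singleton]
    tauto, card_pair hpq⟩

lemma K5.three_v : nz i v ⊆ st i C ∧ (nz i v).card = 2 := by
  rw [nz_upp Q.lv0, hv, hst]
  exact ⟨fun y hy => by
    rw [mem_insert, mem_singleton] at hy
    rw [mem_insert, mem_insert, mem_singleton]
    tauto, card_pair hqs⟩

lemma K5.three_N {z : P} (hz : z ∈ PN i C) : Nx i w z = 0 ∧ Nx i v z = 0 := by
  obtain ⟨hzC, y, -, -, -, hs2, -, -⟩ := PN_dat Q.H hz
  have h1 := SO.sit_part Q.H Q.hC hzC
  obtain ⟨w1, w2⟩ := Q.three_w hw hv hpq hqs hps hst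
  obtain ⟨v1, v2⟩ := Q.three_v hw hv hpq hqs hps hst
  have h3 := Q.three_card hw hv hpq hqs hps hst
  unfold Nx
  exact ⟨if_neg (three_meet h3 w1 h1 (by omega)), if_neg (three_meet h3 v1 h1 (by omega))⟩

lemma K5.three_Z {z : P} (hz : z ∈ Z4 i C) : Nx i w z = 0 ∧ Nx i v z = 0 := by
  obtain ⟨h1, h2⟩ := Z4_sites Q.H Q.hC hz
  obtain ⟨w1, w2⟩ := Q.three_w hw hv hpq hqs hps hst
  obtain ⟨v1, v2⟩ := Q.three_v hw hv hpq hqs hps hst
  have h3 := Q.three_card hw hv hpq hqs hps hst
  unfold Nx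
  exact ⟨if_neg (three_meet h3 w1 h2 (by omega)), if_neg (three_meet h3 v1 h2 (by omega))⟩

/-- `w32 = -1` -/
lemma K5.three_w3 : wv i C = -1 := by
  unfold wv
  rw [Q.w3 hw hv hpq hqs hps, sum_eq_zero]
  · ring
  · intro z hz
    obtain ⟨h1, h2⟩ := Q.three_N hw hv hpq hqs hps hst hz
    rw [h1, h2]
    ring

lemma K5.three_M4 : ∑ q ∈ M4 i C, vp i q.1 * vp i q.2 = (∑ z ∈ PN i C, vp i z) ^ 2 := by
  classical
  rw [sum_M4, sq, sum_mul_sum]
  refine sum_congr rfl fun z hz => sum_congr rfl fun z' hz' => ?_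
  obtain ⟨hzC, y, -, -, -, hs2, -, -⟩ := PN_dat Q.H hz
  obtain ⟨hzC', y', -, -, -, hs2', -, -⟩ := PN_dat Q.H hz'
  rw [if_pos (three_meet (Q.three_card hw hv hpq hqs hps hst) (SO.sit_part Q.H Q.hC hzC)
    (SO.sit_part Q.H Q.hC hzC') (by omega))]

lemma K5.three_mx : ∑ z ∈ PN i C, vp i z * (Mx i w z - Mx i v z) =
    ∑ z ∈ (PN i C).filter (fun z => sit i z = {q, s}), vp i z -
      ∑ z ∈ (PN i C).filter (fun z => sit i z = {p, q}), vp i z := by
  classical
  obtain ⟨w1, w2⟩ := Q.three_w hw hv hpq hqs hps hst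
  obtain ⟨v1, v2⟩ := Q.three_v hw hv hpq hqs hps hst
  have h3 := Q.three_card hw hv hpq hqs hps hst
  have ew : nz i w = {p, q} := by rw [nz_low Q.lw0, hw]
  have ev : nz i v = {q, s} := by rw [nz_upp Q.lv0, hv]
  rw [sum_filter, sum_filter, ← sum_sub_distrib]
  refine sum_congr rfl fun z hz => ?_
  obtain ⟨hzC, y, -, -, -, hs2, -, -⟩ := PN_dat Q.H hz
  have h1 := SO.sit_part Q.H Q.hC hzC
  have a1 := two_meet_one h3 w1 h1 w2 hs2
  have a2 := two_meet_one h3 v1 h1 v2 hs2
  unfold Mx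
  simp only [a1, a2]
  rw [ew, ev]
  split_ifs <;> first | (exfalso; tauto) | ring1

/-- THE VALUE of the functional, three sites -/
theorem K5.T_three : Tv i C =
    (∑ z ∈ PN i C, vp i z + (dg i K C p - dg i K C s - mm i K C {p, q} + mm i K C {q, s})) ^ 2 +
    (∑ z ∈ PN i C, vp i z + (dg i K C p - dg i K C s - mm i K C {p, q} + mm i K C {q, s})) +
    2 * ((Z4 i C).card - (T4 i C).card : ℤ) - 6 +
    2 * ∑ z ∈ (PN i C).filter (fun z => sit i z = {p, q}), vp i z -
    2 * ∑ z ∈ (PN i C).filter (fun z => sit i z = {q, s}), vp i z +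
    2 * (dg i K C p + dg i K C s + 2 * dg i K C q - 2 * mm i K C {p, q} - 2 * mm i K C {q, s} -
      mm i K C {p, s}) := by
  have a1 := Q.al2 hw hv hpq hqs hps
  have a2 := Q.form_gen hw hv hpq hqs hps
  have a3 := Q.three_w3 hw hv hpq hqs hps hst
  have a4 := Q.three_mx hw hv hpq hqs hps hst
  unfold wv at a3
  have s1 : ∑ z ∈ PN i C, vp i z * (ch i C z * (Nx i w z - Nx i v z) +
      2 * (Mx i w z - Mx i v z)) = 2 * ∑ z ∈ PN i C, vp i z * (Mx i w z - Mx i v z) := by
    rw [mul_sum]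
    refine sum_congr rfl fun z hz => ?_
    obtain ⟨h1, h2⟩ := Q.three_N hw hv hpq hqs hps hst hz
    rw [h1, h2]
    ring
  have s2 : ∑ z ∈ Z4 i C, tz i z * (Nx i w z - Nx i v z) = 0 := by
    refine sum_eq_zero fun z hz => ?_
    obtain ⟨h1, h2⟩ := Q.three_Z hw hv hpq hqs hps hst hz
    rw [h1, h2]
    ring
  have s3 : ∑ z ∈ PN i C, vp i z * (Nx i w z * (dg i K C p + Ds i K C (sit i z) {p, q}) -
        Nx i v z * (dg i K C s + Ds i K C (sit i z) {q, s})) = 0 := by
    refine sum_eq_zero fun z hz => ?_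
    obtain ⟨h1, h2⟩ := Q.three_N hw hv hpq hqs hps hst hz
    rw [h1, h2]
    ring
  rw [s1, s2, s3, a4, a3, Q.three_M4 hw hv hpq hqs hps hst] at a2
  unfold Tv Lv wv
  rw [a2, a1, a3]
  ring

/-- A LOWER BOUND -/
theorem K5.T_three_ge : - 6 +
    2 * ∑ z ∈ (PN i C).filter (fun z => sit i z = {p, q}), vp i z -
    2 * ∑ z ∈ (PN i C).filter (fun z => sit i z = {q, s}), vp i z +
    2 * (dg i K C p + dg i K C s + 2 * dg i K C q - 2 * mm i K C {p, q} - 2 * mm i K C {q, s} -
      mm i K C {p, s}) ≤ Tv i C := by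
  rw [Q.T_three hw hv hpq hqs hps hst]
  have h1 := sq_add_nonneg
    (∑ z ∈ PN i C, vp i z + (dg i K C p - dg i K C s - mm i K C {p, q} + mm i K C {q, s}))
  have h2 := card_le_card (T4_subset i C)
  have h3 : ((T4 i C).card : ℤ) ≤ (Z4 i C).card := by exact_mod_cast h2
  linarith

end three

end Pool.Agent.GaussPoset.Win.W4

end

/-! From `Pool.Agent.W_448j6_h22.KbG` -/

section

/-!
MP_448cb3_co, G2, case B, window `j`: the patterns [DL] and R with three sites.
-/

namespace Pool.Agent.GaussPoset.Win.W4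

set_option linter.unusedSectionVars false

open Finset
open Pool.Agent.GaussPoset.Win.SO (PN vp con on mem_PN vp_PD vp_PU)

universe u

variable {P : Type u} [Fintype P] [PartialOrder P] [DecidableEq P] {r i : ℕ}
variable {psi : P → P} {C K : Finset P} {w v p q s : P} {x : ℕ → P}

/-- no upper pendants over a pair without a common upper cover -/
lemma vp_nonneg (H : Gr P r) {a b : P} (h : ucv a b = 0) :
    0 ≤ ∑ z ∈ (PN i C).filter (fun z => sit i z = {a, b}), vp i z := by
  classical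
  refine sum_nonneg fun z hz => ?_
  rw [mem_filter] at hz
  obtain ⟨hzC, y, -, -, -, hs2, -, hor⟩ := PN_dat H hz.1
  rcases hor with ⟨-, -, -, -, -, h6, -⟩ | ⟨-, -, -, -, h5, -, -⟩
  · rw [h6]
    norm_num
  · exfalso
    rw [hz.2] at h5
    have h1 : a ∈ dc y := by rw [← h5]; exact mem_insert_self _ _
    have h2 : b ∈ dc y := by rw [← h5]; exact mem_insert_of_mem (mem_singleton_self _)
    have h3 := StA_ucv_pos (mem_dc.1 h1) (mem_dc.1 h2)
    omega

/-- no lower pendants over a pair without a common lower cover -/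
lemma vp_nonpos (H : Gr P r) {a b : P} (h : dcv a b = 0) :
    ∑ z ∈ (PN i C).filter (fun z => sit i z = {a, b}), vp i z ≤ 0 := by
  classical
  refine sum_nonpos fun z hz => ?_
  rw [mem_filter] at hz
  obtain ⟨hzC, y, -, -, -, hs2, -, hor⟩ := PN_dat H hz.1
  rcases hor with ⟨-, -, -, -, h5, -, -⟩ | ⟨-, -, -, -, -, h6, -⟩
  · exfalso
    rw [hz.2] at h5
    have h1 : a ∈ uc y := by rw [← h5]; exact mem_insert_self _ _
    have h2 : b ∈ uc y := by rw [← h5]; exact mem_insert_of_mem (mem_singleton_self _)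
    have h3 := StA_dcv_pos (mem_uc.1 h1) (mem_uc.1 h2)
    omega
  · rw [h6]
    norm_num

lemma PRow.st_three (W : PRow r i C 2 x) : st i C = {x 0, x 1, x 2} := by
  ext y
  rw [mem_st, mem_insert, mem_insert, mem_singleton]
  constructor
  · rintro ⟨h1, h2⟩
    obtain ⟨k, hk, rfl⟩ := W.surj y h1 h2
    have h3 : k = 0 ∨ k = 1 ∨ k = 2 := by omega
    rcases h3 with rfl | rfl | rfl
    · exact Or.inl rfl
    · exact Or.inr (Or.inl rfl)
    · exact Or.inr (Or.inr rfl)
  · rintro (rfl | rfl | rfl)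
    · exact ⟨W.mem 0 (by omega), W.lev_x 0 (by omega)⟩
    · exact ⟨W.mem 1 (by omega), W.lev_x 1 (by omega)⟩
    · exact ⟨W.mem 2 (by omega), W.lev_x 2 (by omega)⟩

lemma sum_er3 (f : ℕ → ℕ) : (∑ l ∈ (range (2 + 1)).erase 0, f l = f 1 + f 2) ∧
    (∑ l ∈ (range (2 + 1)).erase 1, f l = f 0 + f 2) ∧
    (∑ l ∈ (range (2 + 1)).erase 2, f l = f 0 + f 1) := by
  have e0 : (range (2 + 1)).erase 0 = {1, 2} := by decide
  have e1 : (range (2 + 1)).erase 1 = {0, 2} := by decide
  have e2 : (range (2 + 1)).erase 2 = {0, 1} := by decide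
  rw [e0, e1, e2, sum_pair (by omega), sum_pair (by omega), sum_pair (by omega)]
  exact ⟨rfl, rfl, rfl⟩

lemma pair_ne {a b c : P} (hac : a ≠ c) (hbc : b ≠ c) (d : P) : ({a, b} : Finset P) ≠ {c, d} := by
  intro h
  have h1 : c ∈ ({a, b} : Finset P) := by rw [h]; exact mem_insert_self _ _
  rw [mem_insert, mem_singleton] at h1
  rcases h1 with h1 | h1
  · exact hac h1.symm
  · exact hbc h1.symm

/-- the pattern [DL] with three sites -/
structure DL2 (r i : ℕ) (K : Finset P) (psi : P → P) (C : Finset P) (w v : P) (x : ℕ → P) :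
    Prop where
  W : PRow r i C 2 x
  Q : K5 r i K psi C w v
  hw : uc w = {x 0, x 1}
  hv : dc v = {x 1, x 2}
  d01 : dcv (x 0) (x 1) = 2
  d12 : dcv (x 1) (x 2) = 0
  d02 : dcv (x 0) (x 2) = 0

/-- the pattern R with three sites -/
structure R2 (r i : ℕ) (K : Finset P) (psi : P → P) (C : Finset P) (w v : P) (x : ℕ → P) :
    Prop where
  W : PRow r i C 2 x
  Q : K5 r i K psi C w v
  hw : uc w = {x 2, x 0}
  hv : dc v = {x 0, x 1}
  d01 : dcv (x 0) (x 1) = 0
  d12 : dcv (x 1) (x 2) = 1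
  d02 : dcv (x 0) (x 2) = 1
  u0 : (uc (x 0)).card = 1
  u2 : (uc (x 2)).card = 1

/-- the bound for [DL] -/
theorem DL2.T_ge (h : DL2 r i K psi C w v x) : 2 * ((pen (x 2)).card : ℤ) ≤ Tv i C := by
  have W := h.W
  have n01 : x 0 ≠ x 1 := W.ne (by omega) (by omega) (by omega)
  have n12 : x 1 ≠ x 2 := W.ne (by omega) (by omega) (by omega)
  have n02 : x 0 ≠ x 2 := W.ne (by omega) (by omega) (by omega)
  have key := h.Q.T_three_ge h.hw h.hv n01 n12 n02 W.st_three
  have d10 := kf_dcv_comm (x 1) (x 0)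
  have d21 := kf_dcv_comm (x 2) (x 1)
  have d20 := kf_dcv_comm (x 2) (x 0)
  rw [h.d01] at d10
  rw [h.d12] at d21
  rw [h.d02] at d20
  -- degrees
  have D0 := W.deg (k := 0) (by omega)
  have D1 := W.deg (k := 1) (by omega)
  have D2 := W.deg (k := 2) (by omega)
  rw [(sum_er3 _).1, h.d01, h.d02] at D0
  rw [(sum_er3 _).2.1, d10, h.d12] at D1
  rw [(sum_er3 _).2.2, d20, d21] at D2
  have L0 := W.dc_le (k := 0) (by omega)
  have L1 := W.dc_le (k := 1) (by omega)
  have U1 := W.uc_inner (k := 1) (by omega) (by omega)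
  have U0 := W.uc_le (k := 0) (by omega)
  have U2 := W.uc_le (k := 2) (by omega)
  have g0 := h.Q.dg_eq (W.mem 0 (by omega)) (W.lev_x 0 (by omega))
  have g1 := h.Q.dg_eq (W.mem 1 (by omega)) (W.lev_x 1 (by omega))
  have g2 := h.Q.dg_eq (W.mem 2 (by omega)) (W.lev_x 2 (by omega))
  rw [h.hw, h.hv, if_pos (mem_insert_self _ _), if_neg (by
    rw [mem_insert, mem_singleton]
    rintro (h1 | h1)
    · exact n01 h1
    · exact n02 h1)] at g0
  rw [h.hw, h.hv, if_pos (mem_insert_of_mem (mem_singleton_self _)),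
    if_pos (mem_insert_self _ _)] at g1
  rw [h.hw, h.hv, if_neg (by
    rw [mem_insert, mem_singleton]
    rintro (h1 | h1)
    · exact n02 h1.symm
    · exact n12 h1.symm), if_pos (mem_insert_of_mem (mem_singleton_self _))] at g2
  have m0 := h.Q.mm_pair (W.mem 0 (by omega)) (W.lev_x 0 (by omega)) n01
  have m1 := h.Q.mm_pair (W.mem 1 (by omega)) (W.lev_x 1 (by omega)) n12
  have m2 := h.Q.mm_pair (W.mem 0 (by omega)) (W.lev_x 0 (by omega)) n02
  rw [h.d01, if_pos h.hw] at m0
  rw [h.d12, h.hw, if_neg (by rw [pair_comm (x 1)]; exact pair_ne n02 n12 _)] at m1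
  rw [h.d02, h.hw, if_neg (by rw [pair_comm (x 0) (x 2)]; exact pair_ne n02 n12 _)] at m2
  rw [m0, m1, m2, g0, g1, g2] at key
  -- pendants
  have A : -1 ≤ ∑ z ∈ (PN i C).filter (fun z => sit i z = {x 0, x 1}), vp i z := by
    have h1 : NE i C x 0 = ∑ z ∈ (PN i C).filter (fun z => sit i z = {x 0, x 1}), vp i z :=
      NE_eq 0
    have h2 := W.UE_one (i := i) (C := C) 0
    rw [← h1]
    unfold NE
    omega
  have B := vp_nonpos (i := i) (C := C) W.H h.d12
  push_cast at key
  omega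

/-- the bound for R -/
theorem R2.T_ge (h : R2 r i K psi C w v x) : 2 * ((pen (x 1)).card : ℤ) ≤ Tv i C := by
  have W := h.W
  have n01 : x 0 ≠ x 1 := W.ne (by omega) (by omega) (by omega)
  have n12 : x 1 ≠ x 2 := W.ne (by omega) (by omega) (by omega)
  have n02 : x 0 ≠ x 2 := W.ne (by omega) (by omega) (by omega)
  have hst : st i C = {x 2, x 0, x 1} := by
    rw [W.st_three]
    ext y
    simp only [mem_insert, mem_singleton]
    tauto
  have key := h.Q.T_three_ge h.hw h.hv n02.symm n01 n12.symm hst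
  have d10 := kf_dcv_comm (x 1) (x 0)
  have d21 := kf_dcv_comm (x 2) (x 1)
  have d20 := kf_dcv_comm (x 2) (x 0)
  rw [h.d01] at d10
  rw [h.d12] at d21
  rw [h.d02] at d20
  have D0 := W.deg (k := 0) (by omega)
  have D1 := W.deg (k := 1) (by omega)
  have D2 := W.deg (k := 2) (by omega)
  rw [(sum_er3 _).1, h.d01, h.d02] at D0
  rw [(sum_er3 _).2.1, d10, h.d12] at D1
  rw [(sum_er3 _).2.2, d20, d21] at D2
  have L2 := W.dc_le (k := 2) (by omega)
  have U1 := W.uc_inner (k := 1) (by omega) (by omega)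
  have g0 := h.Q.dg_eq (W.mem 0 (by omega)) (W.lev_x 0 (by omega))
  have g1 := h.Q.dg_eq (W.mem 1 (by omega)) (W.lev_x 1 (by omega))
  have g2 := h.Q.dg_eq (W.mem 2 (by omega)) (W.lev_x 2 (by omega))
  rw [h.hw, h.hv, if_pos (mem_insert_of_mem (mem_singleton_self _)),
    if_pos (mem_insert_self _ _)] at g0
  rw [h.hw, h.hv, if_neg (by
    rw [mem_insert, mem_singleton]
    rintro (h1 | h1)
    · exact n12 h1
    · exact n01 h1.symm), if_pos (mem_insert_of_mem (mem_singleton_self _))] at g1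
  rw [h.hw, h.hv, if_pos (mem_insert_self _ _), if_neg (by
    rw [mem_insert, mem_singleton]
    rintro (h1 | h1)
    · exact n02 h1.symm
    · exact n12 h1.symm)] at g2
  have m0 := h.Q.mm_pair (W.mem 2 (by omega)) (W.lev_x 2 (by omega)) n02.symm
  have m1 := h.Q.mm_pair (W.mem 0 (by omega)) (W.lev_x 0 (by omega)) n01
  have m2 := h.Q.mm_pair (W.mem 2 (by omega)) (W.lev_x 2 (by omega)) n12.symm
  rw [d20, if_pos h.hw] at m0
  rw [h.d01, h.hw, if_neg (by rw [pair_comm (x 0) (x 1)]; exact pair_ne n12.symm n01 _)] at m1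
  rw [d21, h.hw, if_neg (by rw [pair_comm (x 2) (x 1)]; exact pair_ne n12.symm n01 _)] at m2
  rw [m0, m1, m2, g0, g1, g2, h.u0, h.u2] at key
  have hu : ucv (x 2) (x 0) = 0 := by
    rw [StB_ucv_comm, W.up 0 2 (by omega) (by omega), if_neg (by omega)]
  have A := vp_nonneg (i := i) (C := C) W.H hu
  have B := vp_nonpos (i := i) (C := C) W.H h.d01
  push_cast at key
  omega

end Pool.Agent.GaussPoset.Win.W4

end

/-! From `Pool.Agent.W_448j6_h22.KbH` -/

section

/-!
MP_448cb3_co, G2, case B, window `j`: the frames of the patterns [DL] and R for the rows of case B,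
`w32` free.
-/

namespace Pool.Agent.GaussPoset.EK

set_option linter.unusedSectionVars false

open Finset Win St Polynomial Wd Win.W4
open Pool.Agent.GaussPoset.Win.SO (PN vp)

universe u

variable {P : Type u} [Fintype P] [PartialOrder P] [DecidableEq P] {r i j : ℕ}

variable {m : ℕ} {x : ℕ → P} {c : ℕ → ℤ} {β : ℤ} {t : Tops P}

variable {K : Finset P} {psi : P → P}

/-- the pattern [DL] at the left end of a row of case B, at least four sites -/
theorem NJ.dlg (h : NJ P r j) (hj : 2 ≤ j) (R : Red P j K psi) (B : RowB P j t m x c β)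
    (hm : 3 ≤ m) (hβ : β = 0) (c0 : c 0 = 1) (c1 : c 1 = -1) (c2 : ∀ k, 2 ≤ k → k < m → c k = 0) :
    ∃ w v, DLg r j K psi (cext (j + 1) (topOf : P → Tops P) t) w v m x := by
  have H := h.g.H
  have W := NJ.prow h hj B (by omega)
  have d0 : Df j {x 0, x 1} = 1 := by
    rw [B.row.df 0 1 (by omega) (by omega), if_pos rfl]
    exact c0
  have d1 : Df j {x 1, x 2} = -1 := by
    rw [B.row.df 1 2 (by omega) (by omega), if_pos rfl]
    exact c1
  obtain ⟨w, wK, wd, ew⟩ := R.exL d0
  obtain ⟨v, vK, vd, ev⟩ := R.exU d1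
  have hall : ∀ y ∈ K, topOf y = t → ns j y = {x 0, x 1} ∨ ns j y = {x 1, x 2} := by
    intro y hyK ht
    obtain ⟨p, q, h3, h4, h5, h6⟩ := B.row.pair R H h.split hyK ht
    rcases h6 with ⟨h6, h7⟩ | ⟨-, -, -, h7⟩
    · have hp2 : p = 0 ∨ p = 1 := by
        by_contra h8
        exact h7 (c2 p (by omega) (by omega))
      rcases hp2 with rfl | rfl
      · left; rw [h5, h6]
      · right; rw [h5, h6]
    · exact absurd hβ h7
  have Q : K5 r j K psi (cext (j + 1) (topOf : P → Tops P) t) w v :=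
    NJ.k5 h hj R B d0 d1 wK vK wd vd ew ev (p := 0) (q := 1) (by omega) (by omega)
      (mem_insert_self _ _) (mem_insert_self _ _) hall
  refine ⟨w, v, W, Q, hm, ew, ev, ?_⟩
  intro k l hkl hl
  have h1 := B.dcv_x H hkl hl
  by_cases h2 : l = k + 1
  · rw [if_pos h2] at h1 ⊢
    by_cases h3 : k = 0
    · subst h3
      rw [c0] at h1
      rw [if_pos rfl]
      omega
    · rw [if_neg h3]
      by_cases h4 : k = 1
      · subst h4
        rw [c1] at h1
        rw [if_pos rfl]
        omega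
      · rw [if_neg h4]
        rw [c2 k (by omega) (by omega)] at h1
        omega
  · rw [if_neg h2, hβ] at h1
    rw [if_neg h2]
    split_ifs at h1 <;> omega

/-- the pattern R with four sites -/
theorem NJ.rg (h : NJ P r j) (hj : 2 ≤ j) (R : Red P j K psi) (B : RowB P j t 3 x c β)
    (hβ : β = 1) (c0 : c 0 = -1) (c1 : c 1 = 0) (c2 : c 2 = 0) (hx : x 4 = x 0) :
    ∃ w v, Rg r j K psi (cext (j + 1) (topOf : P → Tops P) t) w v x := by
  have H := h.g.H
  have W := NJ.prow h hj B (by omega)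
  have d0 : Df j {x 3, x 0} = 1 := by
    rw [pair_comm, B.row.df 0 3 (by omega) (by omega), if_neg (by omega), if_pos ⟨rfl, rfl⟩]
    exact hβ
  have d1 : Df j {x 0, x 1} = -1 := by
    rw [B.row.df 0 1 (by omega) (by omega), if_pos rfl]
    exact c0
  obtain ⟨w, wK, wd, ew⟩ := R.exL d0
  obtain ⟨v, vK, vd, ev⟩ := R.exU d1
  have hall : ∀ y ∈ K, topOf y = t → ns j y = {x 3, x 0} ∨ ns j y = {x 0, x 1} := by
    intro y hyK ht
    obtain ⟨p, q, h3, h4, h5, h6⟩ := B.row.pair R H h.split hyK ht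
    rcases h6 with ⟨h6, h7⟩ | ⟨h6, h8, -, -⟩
    · have hp : p = 0 := by
        have hp3 : p = 0 ∨ p = 1 ∨ p = 2 := by omega
        rcases hp3 with rfl | rfl | rfl
        · rfl
        · exact absurd c1 h7
        · exact absurd c2 h7
      subst hp
      right; rw [h5, h6]
    · subst h6
      subst h8
      left; rw [h5, pair_comm]
  have Q : K5 r j K psi (cext (j + 1) (topOf : P → Tops P) t) w v :=
    NJ.k5 h hj R B d0 d1 wK vK wd vd ew ev (p := 3) (q := 0) (by omega) (by omega)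
      (mem_insert_self _ _) (mem_insert_self _ _) hall
  have hends := B.ends (by rw [hβ]; norm_num)
  refine ⟨w, v, W, Q, hx, ew, ev, ?_, hends.1, hends.2⟩
  intro k l hkl hl
  have h1 := B.dcv_x H hkl hl
  by_cases h2 : l = k + 1
  · rw [if_pos h2] at h1 ⊢
    have hk3 : k = 0 ∨ k = 1 ∨ k = 2 := by omega
    rcases hk3 with rfl | rfl | rfl
    · rw [c0] at h1
      rw [if_pos rfl]
      omega
    · rw [c1] at h1
      rw [if_neg (by omega)]
      omega
    · rw [c2] at h1
      rw [if_neg (by omega)]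
      omega
  · rw [if_neg h2, hβ] at h1
    rw [if_neg h2]
    split_ifs at h1 ⊢ <;> omega

/-- the pattern [DL] with three sites -/
theorem NJ.dl2 (h : NJ P r j) (hj : 2 ≤ j) (R : Red P j K psi) (B : RowB P j t 2 x c β)
    (hβ : β = 0) (c0 : c 0 = 1) (c1 : c 1 = -1) :
    ∃ w v, DL2 r j K psi (cext (j + 1) (topOf : P → Tops P) t) w v x := by
  have H := h.g.H
  have W := NJ.prow h hj B (by omega)
  have d0 : Df j {x 0, x 1} = 1 := by
    rw [B.row.df 0 1 (by omega) (by omega), if_pos rfl]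
    exact c0
  have d1 : Df j {x 1, x 2} = -1 := by
    rw [B.row.df 1 2 (by omega) (by omega), if_pos rfl]
    exact c1
  obtain ⟨w, wK, wd, ew⟩ := R.exL d0
  obtain ⟨v, vK, vd, ev⟩ := R.exU d1
  have hall : ∀ y ∈ K, topOf y = t → ns j y = {x 0, x 1} ∨ ns j y = {x 1, x 2} := by
    intro y hyK ht
    obtain ⟨p, q, h3, h4, h5, h6⟩ := B.row.pair R H h.split hyK ht
    rcases h6 with ⟨h6, h7⟩ | ⟨-, -, -, h7⟩
    · have hp2 : p = 0 ∨ p = 1 := by omega
      rcases hp2 with rfl | rfl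
      · left; rw [h5, h6]
      · right; rw [h5, h6]
    · exact absurd hβ h7
  have Q : K5 r j K psi (cext (j + 1) (topOf : P → Tops P) t) w v :=
    NJ.k5 h hj R B d0 d1 wK vK wd vd ew ev (p := 0) (q := 1) (by omega) (by omega)
      (mem_insert_self _ _) (mem_insert_self _ _) hall
  have h01 := B.dcv_x H (k := 0) (l := 1) (by omega) (by omega)
  have h12 := B.dcv_x H (k := 1) (l := 2) (by omega) (by omega)
  have h02 := B.dcv_x H (k := 0) (l := 2) (by omega) (by omega)
  rw [if_pos rfl, c0] at h01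
  rw [if_pos rfl, c1] at h12
  rw [if_neg (by omega), if_pos ⟨rfl, rfl⟩, hβ] at h02
  exact ⟨w, v, W, Q, ew, ev, by omega, by omega, by omega⟩

/-- the pattern R with three sites -/
theorem NJ.r2 (h : NJ P r j) (hj : 2 ≤ j) (R : Red P j K psi) (B : RowB P j t 2 x c β)
    (hβ : β = 1) (c0 : c 0 = -1) (c1 : c 1 = 0) :
    ∃ w v, R2 r j K psi (cext (j + 1) (topOf : P → Tops P) t) w v x := by
  have H := h.g.H
  have W := NJ.prow h hj B (by omega)
  have d0 : Df j {x 2, x 0} = 1 := by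
    rw [pair_comm, B.row.df 0 2 (by omega) (by omega), if_neg (by omega), if_pos ⟨rfl, rfl⟩]
    exact hβ
  have d1 : Df j {x 0, x 1} = -1 := by
    rw [B.row.df 0 1 (by omega) (by omega), if_pos rfl]
    exact c0
  obtain ⟨w, wK, wd, ew⟩ := R.exL d0
  obtain ⟨v, vK, vd, ev⟩ := R.exU d1
  have hall : ∀ y ∈ K, topOf y = t → ns j y = {x 2, x 0} ∨ ns j y = {x 0, x 1} := by
    intro y hyK ht
    obtain ⟨p, q, h3, h4, h5, h6⟩ := B.row.pair R H h.split hyK ht
    rcases h6 with ⟨h6, h7⟩ | ⟨h6, h8, -, -⟩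
    · have hp : p = 0 := by
        have hp3 : p = 0 ∨ p = 1 := by omega
        rcases hp3 with rfl | rfl
        · rfl
        · exact absurd c1 h7
      subst hp
      right; rw [h5, h6]
    · subst h6
      subst h8
      left; rw [h5, pair_comm]
  have Q : K5 r j K psi (cext (j + 1) (topOf : P → Tops P) t) w v :=
    NJ.k5 h hj R B d0 d1 wK vK wd vd ew ev (p := 2) (q := 0) (by omega) (by omega)
      (mem_insert_self _ _) (mem_insert_self _ _) hall
  have hends := B.ends (by rw [hβ]; norm_num)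
  have h01 := B.dcv_x H (k := 0) (l := 1) (by omega) (by omega)
  have h12 := B.dcv_x H (k := 1) (l := 2) (by omega) (by omega)
  have h02 := B.dcv_x H (k := 0) (l := 2) (by omega) (by omega)
  rw [if_pos rfl, c0] at h01
  rw [if_pos rfl, c1] at h12
  rw [if_neg (by omega), if_pos ⟨rfl, rfl⟩, hβ] at h02
  exact ⟨w, v, W, Q, ew, ev, by omega, by omega, by omega, hends.1, hends.2⟩

end Pool.Agent.GaussPoset.EK

end
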