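import Mathlib
import Pool.Agent.W_448zz_h61.Ns
import Pool.Agent.W_448zz_h61.M158
import Pool.Agent.W_448zz_h61.M169
import Pool.Agent.W_448zz_h61.M213

/-! From `Pool.Agent.W_448p_h97.PbF` -/

section

/-!
MP_448cb3_co, G2, case B, window `j`: cores with a label at the centre of the star
(the statements of `W_448w4_h10` for a star in a larger set `K` of unmatched doubles, the same proofs:
written by a script from the files of helper10).  helper97.
-/

namespace Pool.Agent.GaussPoset.Win.Pb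

set_option linter.unusedSectionVars false

open Finset W4
open Pool.Agent.GaussPoset.Win.So (IV IV_chi IV_Fe)
open Pool.Agent.GaussPoset.Win.SO (LowD UppD val_gen PN vp con on)

universe u

variable {P : Type u} [Fintype P] [PartialOrder P] [DecidableEq P] {r i : ℕ}
variable {e f : P → ℕ} {psi : P → P} {C K : Finset P} {w v : P}

section

variable (Q : K5w r i K psi C w v) {p q s : P} (hw : uc w = {p, q}) (hv : dc v = {q, s})
  (hpq : p ≠ q) (hqs : q ≠ s) (hps : p ≠ s)
include Q hw hv hpq hqs hps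

lemma K5w.Co1_sum (X : (P → ℕ) → ℤ) (hX : ∀ e ∈ Co i K psi C 1, e q = 0 → X e = 0) :
    ∑ e ∈ Co i K psi C 1, X e = X (Pi.single q 1) := by
  obtain ⟨hS, hs, eq1, ep, es, e2⟩ := Q.sgl hw hv hpq hqs hps
  refine sum_eq_single _ ?_ ?_
  · intro e he hne
    apply hX e he
    obtain ⟨h1, h2, h3⟩ := mem_Co.1 he
    by_contra h0
    exact hne (W4.sum_one h1 (by omega))
  · intro h
    exfalso
    apply h
    refine mem_Co.2 ⟨?_, hs, hS.core Q.H⟩
    rw [sum_pi_single' q 1 univ]
    simp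

/-- `S1` of the fourth coefficient -/
theorem K5w.S1_4 : ∑ e ∈ Co i K psi C 1, (lc (st i C).card 2 (Jx i K psi C w v e 1 1 1) +
      lc (st i C).card 2 (Jx i K psi C w v e 1 2 0) +
      lc (st i C).card 2 (Jx i K psi C w v e 2 1 0)) =
    2 - (Vc i K C + dg i K C p + dg i K C s + 2 * dg i K C q - 2 * W4.mm i K C {p, q}
        - 2 * W4.mm i K C {q, s} - W4.mm i K C {p, s}) := by
  rw [Q.Co1_sum hw hv hpq hqs hps (fun e => (lc (st i C).card 2 (Jx i K psi C w v e 1 1 1) +
      lc (st i C).card 2 (Jx i K psi C w v e 1 2 0) +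
      lc (st i C).card 2 (Jx i K psi C w v e 2 1 0)))]
  · show lc (st i C).card 2 (Jx i K psi C w v (Pi.single q 1) 1 1 1) +
      lc (st i C).card 2 (Jx i K psi C w v (Pi.single q 1) 1 2 0) +
      lc (st i C).card 2 (Jx i K psi C w v (Pi.single q 1) 2 1 0) = _
    rw [Q.both_111 hw hv hpq hqs hps, (Q.both_12 hw hv hpq hqs hps).2,
      (Q.both_21 hw hv hpq hqs hps).2]
    ring
  · intro e he h0
    obtain ⟨h1, h2, h3⟩ := mem_Co.1 he
    have hq : q ∈ uc w := by rw [hw]; simp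
    have hq' : q ∈ dc v := by rw [hv]; simp
    show lc (st i C).card 2 (Jx i K psi C w v e 1 1 1) +
      lc (st i C).card 2 (Jx i K psi C w v e 1 2 0) +
      lc (st i C).card 2 (Jx i K psi C w v e 2 1 0) = 0
    rw [Q.Jx_both h3 hq hq' h0 one_ne_zero one_ne_zero,
      Q.Jx_both h3 hq hq' h0 one_ne_zero two_ne_zero,
      Q.Jx_both h3 hq hq' h0 two_ne_zero one_ne_zero, lc_zero]
    norm_num

/-- a core of energy two with a label at the common site: labels on the sites, or zero -/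
lemma K5w.Co2_cases (he : e ∈ Co i K psi C 2) (hq : 0 < e q) :
    (∃ f ∈ st i C, e = Pi.single q 1 + Pi.single f 1) ∨ ∀ a b m, Jx i K psi C w v e a b m = 0 := by
  obtain ⟨l1, l2, l3⟩ := Q.lpq hw hv hpq hqs hps
  obtain ⟨h1, h2, h3⟩ := mem_Co.1 he
  obtain ⟨f, hf⟩ := W4.sum_two h1 hq
  have hef : 0 < e f := by
    rw [hf, Pi.add_apply, Pi.single_eq_same]
    omega
  have hfC : f ∈ C := by
    by_contra h
    rw [h2 f h] at hef
    omega
  have ez : ∀ y, y ≠ q → y ≠ f → e y = 0 := by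
    intro y hy hy'
    rw [hf, Pi.add_apply, Pi.single_eq_of_ne hy, Pi.single_eq_of_ne hy', add_zero]
  by_cases hlf : lev f = i
  · exact Or.inl ⟨f, mem_st.2 ⟨hfC, hlf⟩, hf⟩
  right
  by_cases hlow : i + 2 ≤ lev f
  · refine Q.Jx_zero h3 fun h => W4.far_low Q.H hlow hef ?_ h.1
    intro y hy
    have := lev_uc Q.H hy
    refine ez y ?_ ?_
    · rintro rfl; omega
    · rintro rfl; omega
  by_cases hupp : lev f + 2 ≤ i
  · refine Q.Jx_zero h3 fun h => W4.far_upp Q.H Q.hir hupp hef ?_ h.2.1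
    intro y hy
    have := lev_dc Q.H hy
    refine ez y ?_ ?_
    · rintro rfl; omega
    · rintro rfl; omega
  exfalso
  have hn : f ∈ near P i := mem_near.2 (by omega)
  have ht : Tch i e = ∅ := by
    rw [eq_empty_iff_forall_notMem]
    intro x hx
    rw [mem_Tch] at hx
    rcases hx with ⟨g1, z, hz, hz'⟩ | ⟨g1, z, hz, hz'⟩
    · have hl := lev_cov Q.H hz
      have : e z = 0 := by
        refine ez z ?_ ?_
        · rintro rfl; omega
        · rintro rfl; omega
      omega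
    · have hl := lev_cov Q.H hz
      have : e z = 0 := by
        refine ez z ?_ ?_
        · rintro rfl; omega
        · rintro rfl; omega
      omega
  have : e f = 0 := by
    refine h3 f (mem_Rst.2 ⟨hn, notMem_empty f, ?_, ?_⟩)
    · rw [ht]; exact notMem_empty f
    · rintro ⟨-, g⟩
      rw [ht] at g
      exact notMem_empty _ g
  omega

/-- `S2` of the fourth coefficient, both doubles -/
theorem K5w.S2_both : ∑ e ∈ Co i K psi C 2, lc (st i C).card 2 (Jx i K psi C w v e 1 1 0) =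
    2 - ((st i C).card : ℤ) := by
  classical
  obtain ⟨l1, l2, l3⟩ := Q.lpq hw hv hpq hqs hps
  obtain ⟨m1, m2, m3⟩ := Q.memC hw hv hpq hqs hps
  have key : ∀ f ∈ st i C, Sc i (Pi.single q 1 + Pi.single f 1 : P → ℕ) ∧
      Spt C (Pi.single q 1 + Pi.single f 1 : P → ℕ) ∧
      ∑ x, (Pi.single q 1 + Pi.single f 1 : P → ℕ) x = 2 := by
    intro f hf
    obtain ⟨f1, f2⟩ := mem_st.1 hf
    refine ⟨?_, ?_, ?_⟩
    · intro x hx
      have g1 : x ≠ q := by rintro rfl; exact hx l2
      have g2 : x ≠ f := by rintro rfl; exact hx f2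
      rw [Pi.add_apply, Pi.single_eq_of_ne g1, Pi.single_eq_of_ne g2, add_zero]
    · intro x hx
      have g1 : x ≠ q := by rintro rfl; exact hx m2
      have g2 : x ≠ f := by rintro rfl; exact hx f1
      rw [Pi.add_apply, Pi.single_eq_of_ne g1, Pi.single_eq_of_ne g2, add_zero]
    · simp only [Pi.add_apply]
      rw [sum_add_distrib, sum_pi_single' q 1 univ, sum_pi_single' f 1 univ]
      simp
  have inj : ∀ f ∈ st i C, ∀ f' ∈ st i C,
      (Pi.single q 1 + Pi.single f 1 : P → ℕ) = Pi.single q 1 + Pi.single f' 1 → f = f' := by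
    intro f _ f' _ h
    have h' : (Pi.single f 1 : P → ℕ) = Pi.single f' 1 := add_left_cancel h
    by_contra hne
    have := congrFun h' f
    rw [Pi.single_eq_same, Pi.single_eq_of_ne hne] at this
    exact one_ne_zero this
  have e1 : ∑ e ∈ Co i K psi C 2, lc (st i C).card 2 (Jx i K psi C w v e 1 1 0) =
      ∑ e ∈ (st i C).image (fun f => (Pi.single q 1 + Pi.single f 1 : P → ℕ)),
        lc (st i C).card 2 (Jx i K psi C w v e 1 1 0) := by
    symm
    refine sum_subset ?_ ?_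
    · intro e he
      rw [mem_image] at he
      obtain ⟨f, hf, rfl⟩ := he
      obtain ⟨k1, k2, k3⟩ := key f hf
      exact mem_Co.2 ⟨k3, k2, k1.core Q.H⟩
    · intro e he hne
      by_cases hq0 : e q = 0
      · rw [Q.Jx_both (mem_Co.1 he).2.2 (by rw [hw]; simp) (by rw [hv]; simp) hq0 one_ne_zero
          one_ne_zero, lc_zero]
      · rcases Q.Co2_cases hw hv hpq hqs hps he (by omega) with ⟨f, hf, rfl⟩ | h
        · exact absurd (mem_image.2 ⟨f, hf, rfl⟩) hne
        · rw [h, lc_zero]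
  rw [e1, sum_image inj]
  have e2 : ∀ f ∈ st i C, lc (st i C).card 2
      (Jx i K psi C w v (Pi.single q 1 + Pi.single f 1 : P → ℕ) 1 1 0) =
      if f ∉ ({p, s} : Finset P) then -1 else 0 := by
    intro f hf
    obtain ⟨k1, k2, -⟩ := key f hf
    have hq1 : 1 ≤ (Pi.single q 1 + Pi.single f 1 : P → ℕ) q := by
      rw [Pi.add_apply, Pi.single_eq_same]
      omega
    rw [Q.Jx_Sc0 hw hv hpq hqs hps k1 k2, (Q.both_11 hw hv hpq hqs hps k1 k2 hq1).2]
    refine if_congr ?_ rfl rfl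
    rw [Pi.add_apply, Pi.add_apply, Pi.single_eq_of_ne hpq, Pi.single_eq_of_ne hqs.symm, zero_add,
      zero_add, Pi.single_apply, Pi.single_apply, mem_insert, mem_singleton]
    constructor
    · rintro ⟨g1, g2⟩ (h | h)
      · rw [if_pos h.symm] at g1
        exact one_ne_zero g1
      · rw [if_pos h.symm] at g2
        exact one_ne_zero g2
    · intro h
      push Not at h
      exact ⟨if_neg h.1.symm, if_neg h.2.symm⟩
  rw [sum_congr rfl e2, ← sum_filter, sum_const, nsmul_eq_mul]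
  have e3 : (st i C).filter (fun f => f ∉ ({p, s} : Finset P)) = st i C \ {p, s} := by
    ext f
    rw [mem_filter, mem_sdiff]
  have sub : ({p, s} : Finset P) ⊆ st i C := by
    intro y hy
    rw [mem_insert, mem_singleton] at hy
    rcases hy with rfl | rfl
    · exact mem_st.2 ⟨m1, l1⟩
    · exact mem_st.2 ⟨m3, l3⟩
  have e4 := card_sdiff_add_card_eq_card sub
  rw [card_pair hps] at e4
  rw [e3]
  have : ((st i C \ {p, s}).card : ℤ) + 2 = (st i C).card := by exact_mod_cast e4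
  linarith

end

end Pool.Agent.GaussPoset.Win.Pb

end

/-! From `Pool.Agent.W_448p_h97.PbG` -/

section

/-!
MP_448cb3_co, G2, case B, window `j`: the sums over the cores of energy one to three
(the statements of `W_448w4_h10` for a star in a larger set `K` of unmatched doubles, the same proofs:
written by a script from the files of helper10).  helper97.
-/

namespace Pool.Agent.GaussPoset.Win.Pb

set_option linter.unusedSectionVars false

open Finset W4
open Pool.Agent.GaussPoset.Win.So (IV IV_chi IV_Fe)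
open Pool.Agent.GaussPoset.Win.SO (LowD UppD val_gen PN vp con on con_two_low con_two_upp con_sub
  mem_PN)

universe u

variable {P : Type u} [Fintype P] [PartialOrder P] [DecidableEq P] {r i : ℕ}
variable {e f : P → ℕ} {psi : P → P} {C K : Finset P} {w v : P}

section

variable (Q : K5w r i K psi C w v)
include Q

/-- THE CORES OF ENERGY THREE -/
theorem K5w.S3 (hw2 : (nz i w).card = 2) (hv2 : (nz i v).card = 2) :
    2 * ∑ e ∈ Co i K psi C 3, (lc (st i C).card 2 (Jx i K psi C w v e 0 1 0) +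
      lc (st i C).card 2 (Jx i K psi C w v e 1 0 0)) =
    ∑ z ∈ PN i C, vp i z * ((2 * ((st i C).card - 8) + ch i C z) * (Nx i w z - Nx i v z) +
      2 * (Mx i w z - Mx i v z)) + 2 * ∑ z ∈ Z4 i C, tz i z * (Nx i w z - Nx i v z) := by
  have H := Q.H
  have hir := Q.hir
  obtain ⟨X, hX⟩ : ∃ X : (P → ℕ) → ℤ, X = fun e =>
      (FG i e w 1 - FG i e v 1) * lc (st i C).card 1 (tC i C e) := ⟨_, rfl⟩
  have h1 : ∑ e ∈ Co i K psi C 3, (lc (st i C).card 2 (Jx i K psi C w v e 0 1 0) +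
      lc (st i C).card 2 (Jx i K psi C w v e 1 0 0)) = ∑ e ∈ Co i K psi C 3, X e := by
    refine sum_congr rfl fun e he => ?_
    obtain ⟨g1, g2, g3⟩ := mem_Co.1 he
    have ho : od (st i C).card 1 (tC i C e) := by
      have := Q.Jx_od g3 (Q.cheap1 g3 g2 (by omega)) 0 0 0
      rw [Q.Jx0 g3 g2, ind_zero] at this
      exact this
    rw [Q.val_v g3 g2 hv2 one_ne_zero (Or.inl rfl) ho,
      Q.val_w g3 g2 hw2 one_ne_zero (Or.inl rfl) ho, hX]
    ring
  rw [h1, Q.sum3 X]
  · have h2 : ∑ q ∈ I3 i C, c3 i C q * X (m3 i q) = ∑ z ∈ PN i C,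
        vp i z * ((2 * ((st i C).card - 8) + ch i C z) * (Nx i w z - Nx i v z) +
      2 * (Mx i w z - Mx i v z)) := by
      rw [I3_sum H Q.hC]
      refine sum_congr rfl fun z hz => ?_
      obtain ⟨f1, -, -⟩ := fib_eq H Q.hC hz
      have hI : ∀ g, g ∈ st i C ∪ (con i z ∪ Ch i C z) → (z, g) ∈ I3 i C := by
        intro g hg
        rw [← f1, mem_Fb] at hg
        exact mem_I3.2 ⟨hz, hg.1, hg.2⟩
      have hv : ∀ g, (z, g) ∈ I3 i C → c3 i C (z, g) * X (m3 i (z, g)) =
          vp i z * (c3 i C (z, g) * (ep3 (sit i z) z g * FG i (m3 i (z, g)) w 1)) -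
          vp i z * (c3 i C (z, g) * (ep3 (sit i z) z g * FG i (m3 i (z, g)) v 1)) := by
        intro g hg
        have := (m3_val H hir Q.hC hg).2.2.2.2.2.1
        simp only at this
        rw [hX]
        simp only
        rw [this]
        ring
      rw [sum_congr rfl fun g hg => hv g (hI g (mem_union_left _ hg)),
        sum_congr rfl fun g hg => hv g (hI g (mem_union_right _ (mem_union_left _ hg))),
        sum_congr rfl fun g hg => hv g (hI g (mem_union_right _ (mem_union_right _ hg))),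
        sum_sub_distrib, sum_sub_distrib, sum_sub_distrib, ← mul_sum, ← mul_sum, ← mul_sum,
        ← mul_sum, ← mul_sum, ← mul_sum]
      have a1 := W4.fib_sum H hir Q.hC hz Q.nw Q.wC hw2
      have a2 := W4.fib_sum H hir Q.hC hz Q.nv Q.vC hv2
      linear_combination vp i z * a1 - vp i z * a2
    have h3 : ∑ z ∈ Z4 i C, X (mz i z) = ∑ z ∈ Z4 i C, tz i z * (Nx i w z - Nx i v z) := by
      refine sum_congr rfl fun z hz => ?_
      rw [hX]
      simp only
      rw [FG_mz H hir Q.hC hz Q.nw hw2, FG_mz H hir Q.hC hz Q.nv hv2,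
        (mz_val H hir Q.hC hz).2.2.2.2.2.1]
      ring
    rw [h2, h3]
  · intro e hs h
    rw [hX]
    simp only
    rw [cheap0_lc H Q.hC hs h, mul_zero]

end

section

variable (Q : K5w r i K psi C w v) {p q s : P} (hw : uc w = {p, q}) (hv : dc v = {q, s})
  (hpq : p ≠ q) (hqs : q ≠ s) (hps : p ≠ s)
include Q hw hv hpq hqs hps

lemma K5w.cards : (nz i w).card = 2 ∧ (nz i v).card = 2 ∧ q ∈ uc w ∧ q ∈ dc v := by
  refine ⟨?_, ?_, by rw [hw]; simp, by rw [hv]; simp⟩
  · rw [Q.nzw hw hv hpq hqs hps, card_pair hpq]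
  · rw [Q.nzv hw hv hpq hqs hps, card_pair hqs]

/-- THE CORES OF ENERGY TWO, fourth coefficient -/
theorem K5w.S2_4 : ∑ e ∈ Co i K psi C 2, (lc (st i C).card 2 (Jx i K psi C w v e 0 1 1) +
      lc (st i C).card 2 (Jx i K psi C w v e 0 2 0) +
      lc (st i C).card 2 (Jx i K psi C w v e 1 0 1) +
      lc (st i C).card 2 (Jx i K psi C w v e 2 0 0) +
      lc (st i C).card 2 (Jx i K psi C w v e 1 1 0)) =
    ∑ z ∈ PN i C, vp i z * (Nx i w z * (1 + Dg i K C (sit i z ∪ nz i w)) -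
      Nx i v z * (1 + Dg i K C (sit i z ∪ nz i v))) + (2 - ((st i C).card : ℤ)) := by
  obtain ⟨hw2, hv2, hq, hq'⟩ := Q.cards hw hv hpq hqs hps
  obtain ⟨l1, l2, l3⟩ := Q.lpq hw hv hpq hqs hps
  rw [sum_add_distrib, Q.S2_both hw hv hpq hqs hps]
  congr 1
  rw [Q.sum2 (fun e => lc (st i C).card 2 (Jx i K psi C w v e 0 1 1) +
      lc (st i C).card 2 (Jx i K psi C w v e 0 2 0) +
      lc (st i C).card 2 (Jx i K psi C w v e 1 0 1) +
      lc (st i C).card 2 (Jx i K psi C w v e 2 0 0))]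
  · refine sum_congr rfl fun z hz => ?_
    rw [← Q.L2_val hw2 hv2 hq hq' hz]
    have h0 : Jx i K psi C w v (on (con i z)) 1 1 0 = 0 :=
      Q.Jx_both (c2_core Q.H hz) hq hq' (pd_site Q.H hz l2) one_ne_zero one_ne_zero 0
    rw [h0, lc_zero, add_zero]
  · intro e _ h hc _
    show lc (st i C).card 2 (Jx i K psi C w v e 0 1 1) +
      lc (st i C).card 2 (Jx i K psi C w v e 0 2 0) +
      lc (st i C).card 2 (Jx i K psi C w v e 1 0 1) +
      lc (st i C).card 2 (Jx i K psi C w v e 2 0 0) = 0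
    rw [Q.lc_J hc h (by simp [ind]), Q.lc_J hc h (by simp [ind]), Q.lc_J hc h (by simp [ind]),
      Q.lc_J hc h (by simp [ind])]
    norm_num
/-- the empty core: configurations with one label -/
lemma K5w.zero_vals : lc (st i C).card 1 (Jx i K psi C w v 0 0 1 0) = -1 ∧
    lc (st i C).card 1 (Jx i K psi C w v 0 1 0 0) = 1 ∧
    lc (st i C).card 1 (Jx i K psi C w v 0 0 2 0) = -1 ∧
    lc (st i C).card 1 (Jx i K psi C w v 0 2 0 0) = 1 ∧
    lc (st i C).card 1 (Jx i K psi C w v 0 1 0 1) = Dg i K C {p, q} ∧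
    lc (st i C).card 1 (Jx i K psi C w v 0 0 1 1) = - Dg i K C {q, s} := by
  obtain ⟨hw2, hv2, hq, hq'⟩ := Q.cards hw hv hpq hqs hps
  have nw := Q.nzw hw hv hpq hqs hps
  have nv := Q.nzv hw hv hpq hqs hps
  have hS : Sc i (0 : P → ℕ) := fun x _ => rfl
  have hs : Spt C (0 : P → ℕ) := fun x _ => rfl
  obtain ⟨-, -, h1, h2, o0, c0⟩ := hS.val (C := C) Q.H Q.hi Q.hi2
  have hc : IsCore i ∅ (ps K psi) (0 : P → ℕ) := hS.core Q.H
  have hc' : IsCore i K psi (0 : P → ℕ) := hS.core Q.H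
  have hz : ∀ y, lev y = i → (0 : P → ℕ) y = 0 := fun y _ => rfl
  have fw : ∀ a, a ≠ 0 → FG i (0 : P → ℕ) w a = 1 := by
    intro a ha
    rw [hS.FG Q.H Q.hi Q.hi2 hpq nw, if_pos]
    simp only [Pi.zero_apply]
    omega
  have fv : ∀ a, a ≠ 0 → FG i (0 : P → ℕ) v a = 1 := by
    intro a ha
    rw [hS.FG Q.H Q.hi Q.hi2 hqs nv, if_pos]
    simp only [Pi.zero_apply]
    omega
  have hd0 : Disjoint (AL i (0 : P → ℕ)) (AU i (0 : P → ℕ)) := by
    rw [h1]; exact disjoint_empty_left _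
  have hR : ∀ y ∈ N0 i K C, y ∉ RK i K psi C (0 : P → ℕ) → y ∈ dbL P i ∪ dbU P i ∧
      nz i y ⊆ AL i (0 : P → ℕ) ∪ AU i (0 : P → ℕ) := by
    intro y hy h
    exact absurd (hS.RK Q.H hy) h
  have ht : ∀ x : P, x ∉ Tch i (0 : P → ℕ) := by
    intro x
    rw [hS.tch Q.H]
    exact notMem_empty x
  refine ⟨?_, ?_, ?_, ?_, ?_, ?_⟩
  · rw [Q.val_v hc hs hv2 one_ne_zero (Or.inl rfl) o0, c0, fv 1 one_ne_zero]
    norm_num
  · rw [Q.val_w hc hs hw2 one_ne_zero (Or.inl rfl) o0, c0, fw 1 one_ne_zero]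
    norm_num
  · rw [Q.val_v hc hs hv2 two_ne_zero (Or.inr hz) o0, c0, fv 2 two_ne_zero]
    norm_num
  · rw [Q.val_w hc hs hw2 two_ne_zero (Or.inr hz) o0, c0, fw 2 two_ne_zero]
    norm_num
  · rw [Q.Jx_Sc hw hv hpq hqs hps hS, Pi.single_zero, add_zero,
      x_one_gen Q.H Q.hi Q.hi2 Q.hM Q.hC hs hd0 o0 hz hc' hR Q.nw Q.wC Q.wK hw2 (ht w) rfl
        (by rw [h1, h2, union_empty]; exact disjoint_empty_right _), h1, h2, c0, nw]
    have : sg1 i w = 1 := by unfold sg1; rw [if_pos Q.lw0]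
    rw [this, empty_union, empty_union]
    ring
  · rw [Q.Jx_Sc hw hv hpq hqs hps hS, Pi.single_zero, add_zero,
      x_one_gen Q.H Q.hi Q.hi2 Q.hM Q.hC hs hd0 o0 hz hc' hR Q.nv Q.vC Q.vK hv2 (ht v) rfl
        (by rw [h1, h2, union_empty]; exact disjoint_empty_right _), h1, h2, c0, nv]
    have : sg1 i v = -1 := by unfold sg1; rw [if_neg (by have := Q.lv0; omega)]
    rw [this, empty_union, empty_union]
    ring
/-- a core of energy one: a label at a site, or zero -/
lemma K5w.Co1_cases (he : e ∈ Co i K psi C 1) :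
    (∃ f ∈ st i C, e = Pi.single f 1) ∨ ∀ a b m, Jx i K psi C w v e a b m = 0 := by
  obtain ⟨h1, h2, h3⟩ := mem_Co.1 he
  have hf : ∃ f, 0 < e f := by
    by_contra hc
    push Not at hc
    have : ∑ x, e x = 0 := sum_eq_zero fun x _ => by have := hc x; omega
    omega
  obtain ⟨f, hef⟩ := hf
  have hf := W4.sum_one h1 hef
  have hfC : f ∈ C := by
    by_contra h
    rw [h2 f h] at hef
    omega
  have ez : ∀ y, y ≠ f → e y = 0 := by
    intro y hy
    rw [hf, Pi.single_eq_of_ne hy]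
  by_cases hlf : lev f = i
  · exact Or.inl ⟨f, mem_st.2 ⟨hfC, hlf⟩, hf⟩
  right
  by_cases hlow : i + 2 ≤ lev f
  · refine Q.Jx_zero h3 fun h => W4.far_low Q.H hlow hef ?_ h.1
    intro y hy
    have := lev_uc Q.H hy
    refine ez y ?_
    rintro rfl; omega
  by_cases hupp : lev f + 2 ≤ i
  · refine Q.Jx_zero h3 fun h => W4.far_upp Q.H Q.hir hupp hef ?_ h.2.1
    intro y hy
    have := lev_dc Q.H hy
    refine ez y ?_
    rintro rfl; omega
  exfalso
  have hn : f ∈ near P i := mem_near.2 (by omega)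
  have ht : Tch i e = ∅ := by
    rw [eq_empty_iff_forall_notMem]
    intro x hx
    rw [mem_Tch] at hx
    rcases hx with ⟨g1, z, hz, hz'⟩ | ⟨g1, z, hz, hz'⟩
    · have hl := lev_cov Q.H hz
      have : e z = 0 := by
        refine ez z ?_
        rintro rfl; omega
      omega
    · have hl := lev_cov Q.H hz
      have : e z = 0 := by
        refine ez z ?_
        rintro rfl; omega
      omega
  have : e f = 0 := by
    refine h3 f (mem_Rst.2 ⟨hn, notMem_empty f, ?_, ?_⟩)
    · rw [ht]; exact notMem_empty f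
    · rintro ⟨-, g⟩
      rw [ht] at g
      exact notMem_empty _ g
  omega

/-- the cores of energy one, second coefficient -/
lemma K5w.S1_2 : ∑ e ∈ Co i K psi C 1, (lc (st i C).card 1 (Jx i K psi C w v e 0 1 0) +
      lc (st i C).card 1 (Jx i K psi C w v e 1 0 0)) = 0 := by
  classical
  obtain ⟨l1, l2, l3⟩ := Q.lpq hw hv hpq hqs hps
  obtain ⟨m1, m2, m3⟩ := Q.memC hw hv hpq hqs hps
  obtain ⟨hw2, hv2, hq, hq'⟩ := Q.cards hw hv hpq hqs hps
  have nw := Q.nzw hw hv hpq hqs hps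
  have nv := Q.nzv hw hv hpq hqs hps
  have key : ∀ f ∈ st i C, Sc i (Pi.single f 1 : P → ℕ) ∧ Spt C (Pi.single f 1 : P → ℕ) ∧
      ∑ x, (Pi.single f 1 : P → ℕ) x = 1 := by
    intro f hf
    obtain ⟨f1, f2⟩ := mem_st.1 hf
    refine ⟨?_, ?_, ?_⟩
    · intro x hx
      have g2 : x ≠ f := by rintro rfl; exact hx f2
      rw [Pi.single_eq_of_ne g2]
    · intro x hx
      have g2 : x ≠ f := by rintro rfl; exact hx f1
      rw [Pi.single_eq_of_ne g2]
    · rw [sum_pi_single' f 1 univ]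
      simp
  have inj : ∀ f ∈ st i C, ∀ f' ∈ st i C,
      (Pi.single f 1 : P → ℕ) = Pi.single f' 1 → f = f' := by
    intro f _ f' _ h
    by_contra hne
    have := congrFun h f
    rw [Pi.single_eq_same, Pi.single_eq_of_ne hne] at this
    exact one_ne_zero this
  have e1 : ∑ e ∈ Co i K psi C 1, (lc (st i C).card 1 (Jx i K psi C w v e 0 1 0) +
      lc (st i C).card 1 (Jx i K psi C w v e 1 0 0)) =
      ∑ e ∈ (st i C).image (fun f => (Pi.single f 1 : P → ℕ)),
        (lc (st i C).card 1 (Jx i K psi C w v e 0 1 0) +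
      lc (st i C).card 1 (Jx i K psi C w v e 1 0 0)) := by
    symm
    refine sum_subset ?_ ?_
    · intro e he
      rw [mem_image] at he
      obtain ⟨f, hf, rfl⟩ := he
      obtain ⟨k1, k2, k3⟩ := key f hf
      exact mem_Co.2 ⟨k3, k2, k1.core Q.H⟩
    · intro e he hne
      rcases Q.Co1_cases hw hv hpq hqs hps he with ⟨f, hf, rfl⟩ | h
      · exact absurd (mem_image.2 ⟨f, hf, rfl⟩) hne
      · rw [h, h, lc_zero]
        norm_num
  rw [e1, sum_image inj]
  have e2 : ∀ f ∈ st i C, lc (st i C).card 1 (Jx i K psi C w v (Pi.single f 1) 0 1 0) +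
      lc (st i C).card 1 (Jx i K psi C w v (Pi.single f 1) 1 0 0) =
      2 * (if f ∈ ({q, s} : Finset P) then 1 else 0) -
        2 * (if f ∈ ({p, q} : Finset P) then 1 else 0) := by
    intro f hf
    obtain ⟨k1, k2, -⟩ := key f hf
    obtain ⟨-, -, -, -, o0, c0⟩ := k1.val (C := C) Q.H Q.hi Q.hi2
    have hc : IsCore i ∅ (ps K psi) (Pi.single f 1 : P → ℕ) := k1.core Q.H
    rw [Q.val_v hc k2 hv2 one_ne_zero (Or.inl rfl) o0,
      Q.val_w hc k2 hw2 one_ne_zero (Or.inl rfl) o0, c0,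
      k1.FG Q.H Q.hi Q.hi2 hpq nw, k1.FG Q.H Q.hi Q.hi2 hqs nv]
    simp only [Pi.single_apply, mem_insert, mem_singleton]
    by_cases h1 : f = p
    · subst h1
      simp [hpq, hpq.symm, hps, hps.symm]
    · by_cases h2 : f = q
      · subst h2
        simp [hpq, hpq.symm, hqs, hqs.symm]
      · by_cases h3 : f = s
        · subst h3
          simp [hqs, hqs.symm, hps, hps.symm]
        · simp [h1, h2, h3, Ne.symm h1, Ne.symm h2, Ne.symm h3]
  rw [sum_congr rfl e2, sum_sub_distrib, ← mul_sum, ← mul_sum, ← sum_filter, ← sum_filter,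
    sum_const, sum_const]
  have e3 : ∀ a b : P, a ≠ b → a ∈ st i C → b ∈ st i C →
      ((st i C).filter (fun f => f ∈ ({a, b} : Finset P))).card = 2 := by
    intro a b hab ha hb
    have : (st i C).filter (fun f => f ∈ ({a, b} : Finset P)) = {a, b} := by
      ext y
      rw [mem_filter]
      constructor
      · exact fun h => h.2
      · intro h
        refine ⟨?_, h⟩
        rw [mem_insert, mem_singleton] at h
        rcases h with rfl | rfl <;> assumption
    rw [this, card_pair hab]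
  rw [e3 q s hqs (mem_st.2 ⟨m2, l2⟩) (mem_st.2 ⟨m3, l3⟩),
    e3 p q hpq (mem_st.2 ⟨m1, l1⟩) (mem_st.2 ⟨m2, l2⟩)]
  ring

end

end Pool.Agent.GaussPoset.Win.Pb

end

/-! From `Pool.Agent.W_448p_h97.PbH` -/

section

/-!
MP_448cb3_co, G2, case B, window `j`: the values of the window sums over the labels of one star
(the statements of `W_448w4_h10` for a star in a larger set `K` of unmatched doubles, the same proofs:
written by a script from the files of helper10).  helper97.
-/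

namespace Pool.Agent.GaussPoset.Win.Pb

set_option linter.unusedSectionVars false

open Finset W4
open Pool.Agent.GaussPoset.Win.So (IV IV_chi IV_Fe)
open Pool.Agent.GaussPoset.Win.SO (LowD UppD val_gen PN vp con on)

universe u

variable {P : Type u} [Fintype P] [PartialOrder P] [DecidableEq P] {r i : ℕ}
variable {e f : P → ℕ} {psi : P → P} {C K : Finset P} {w v : P}

/-- the window sum over the labels of one star only -/
noncomputable def ZW (i : ℕ) (K : Finset P) (psi : P → P) (C : Finset P) (w v : P) (n : ℕ) : A :=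
  ∑ q ∈ range (n + 1), ∑ e ∈ Co i K psi C q,
    ∑ p ∈ antidiagonal (n - q), ∑ t ∈ antidiagonal p.2, Jx i K psi C w v e p.1 t.1 t.2

section

variable (Q : K5w r i K psi C w v)
include Q

lemma K5w.ZC_split (n : ℕ) : ZW i K psi C w v n = ∑ q ∈ range (n + 1), ∑ e ∈ Co i K psi C q,
      ∑ p ∈ antidiagonal (n - q), ∑ t ∈ antidiagonal p.2,
        Jx i K psi C w v e p.1 t.1 t.2 := rfl

/-- the general form -/
lemma K5w.lc_ZC (n l : ℕ) : lc (st i C).card l (ZW i K psi C w v n) =
    ∑ q ∈ range (n + 1), ∑ e ∈ Co i K psi C q,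
      ∑ p ∈ antidiagonal (n - q), ∑ t ∈ antidiagonal p.2,
        lc (st i C).card l (Jx i K psi C w v e p.1 t.1 t.2) := by
  rw [Q.ZC_split n, lc_sum]
  refine sum_congr rfl fun q _ => ?_
  rw [lc_sum]
  refine sum_congr rfl fun e _ => ?_
  rw [lc_sum]
  refine sum_congr rfl fun p _ => ?_
  rw [lc_sum]

variable {q : P} (hq : q ∈ uc w) (hq' : q ∈ dc v)
include hq hq'

/-- THE ENERGY FOUR -/
theorem K5w.lc4 : lc (st i C).card 2 (ZW i K psi C w v 4) =
    ∑ e ∈ Co i K psi C 4, lc (st i C).card 2 (tC i C e) +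
    ∑ e ∈ Co i K psi C 3, (lc (st i C).card 2 (Jx i K psi C w v e 0 1 0) +
      lc (st i C).card 2 (Jx i K psi C w v e 1 0 0)) +
    ∑ e ∈ Co i K psi C 2, (lc (st i C).card 2 (Jx i K psi C w v e 0 1 1) +
      lc (st i C).card 2 (Jx i K psi C w v e 0 2 0) +
      lc (st i C).card 2 (Jx i K psi C w v e 1 0 1) +
      lc (st i C).card 2 (Jx i K psi C w v e 2 0 0) +
      lc (st i C).card 2 (Jx i K psi C w v e 1 1 0)) +
    ∑ e ∈ Co i K psi C 1, (lc (st i C).card 2 (Jx i K psi C w v e 1 1 1) +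
      lc (st i C).card 2 (Jx i K psi C w v e 1 2 0) +
      lc (st i C).card 2 (Jx i K psi C w v e 2 1 0)) := by
  rw [Q.lc_ZC, sum_range_succ, sum_range_succ, sum_range_succ, sum_range_succ, sum_range_one]
  have h0 : ∑ e ∈ Co i K psi C 0, ∑ p ∈ antidiagonal (4 - 0), ∑ t ∈ antidiagonal p.2,
        lc (st i C).card 2 (Jx i K psi C w v e p.1 t.1 t.2) = 0 := by
    refine sum_eq_zero fun e he => sum_eq_zero fun p _ => sum_eq_zero fun t _ => ?_
    obtain ⟨h1, h2, h3⟩ := mem_Co.1 he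
    have hk := Q.cheap0 h3 h2 (by omega)
    have h0 : e q = 0 := by
      rw [sum_eq_zero_iff] at h1
      exact h1 q (mem_univ q)
    by_cases ha : p.1 = 0
    · refine Q.lc_J h3 hk ?_ _
      rw [ha, ind_zero]
      unfold ind
      split_ifs <;> omega
    by_cases hb : t.1 = 0
    · refine Q.lc_J h3 hk ?_ _
      rw [hb, ind_zero]
      unfold ind
      split_ifs <;> omega
    rw [Q.Jx_both h3 hq hq' h0 ha hb, lc_zero]
  have h1 : ∀ e ∈ Co i K psi C 1, ∑ p ∈ antidiagonal (4 - 1), ∑ t ∈ antidiagonal p.2,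
        lc (st i C).card 2 (Jx i K psi C w v e p.1 t.1 t.2) =
      (lc (st i C).card 2 (Jx i K psi C w v e 1 1 1) +
      lc (st i C).card 2 (Jx i K psi C w v e 1 2 0) +
      lc (st i C).card 2 (Jx i K psi C w v e 2 1 0)) := by
    intro e he
    obtain ⟨h1, h2, h3⟩ := mem_Co.1 he
    have hk := Q.cheap0 h3 h2 (by omega)
    have hz : ∀ a b m : ℕ, a = 0 ∨ b = 0 →
        lc (st i C).card 2 (Jx i K psi C w v e a b m) = 0 := by
      intro a b m hab
      refine Q.lc_J h3 hk ?_ _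
      rcases hab with h | h
      · rw [h, ind_zero]; unfold ind; split_ifs <;> omega
      · rw [h, ind_zero]; unfold ind; split_ifs <;> omega
    rw [show 4 - 1 = 3 from rfl,
      anti3 (fun a b m => lc (st i C).card 2 (Jx i K psi C w v e a b m))]
    rw [hz 0 0 3 (Or.inl rfl), hz 0 1 2 (Or.inl rfl), hz 0 2 1 (Or.inl rfl),
      hz 0 3 0 (Or.inl rfl), hz 1 0 2 (Or.inr rfl), hz 2 0 1 (Or.inr rfl),
      hz 3 0 0 (Or.inr rfl)]
    ring
  have h2 : ∀ e ∈ Co i K psi C 2, ∑ p ∈ antidiagonal (4 - 2), ∑ t ∈ antidiagonal p.2,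
        lc (st i C).card 2 (Jx i K psi C w v e p.1 t.1 t.2) =
      (lc (st i C).card 2 (Jx i K psi C w v e 0 1 1) +
      lc (st i C).card 2 (Jx i K psi C w v e 0 2 0) +
      lc (st i C).card 2 (Jx i K psi C w v e 1 0 1) +
      lc (st i C).card 2 (Jx i K psi C w v e 2 0 0) +
      lc (st i C).card 2 (Jx i K psi C w v e 1 1 0)) := by
    intro e he
    obtain ⟨h1, h2, h3⟩ := mem_Co.1 he
    have hk := Q.cheap1 h3 h2 (by omega)
    rw [show 4 - 2 = 2 from rfl,
      anti2 (fun a b m => lc (st i C).card 2 (Jx i K psi C w v e a b m))]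
    rw [Q.lc_J h3 hk (a := 0) (b := 0) (by rw [ind_zero]; omega) 2]
    ring
  have h3 : ∀ e ∈ Co i K psi C 3, ∑ p ∈ antidiagonal (4 - 3), ∑ t ∈ antidiagonal p.2,
        lc (st i C).card 2 (Jx i K psi C w v e p.1 t.1 t.2) =
      (lc (st i C).card 2 (Jx i K psi C w v e 0 1 0) +
      lc (st i C).card 2 (Jx i K psi C w v e 1 0 0)) := by
    intro e he
    obtain ⟨h1, h2, h3⟩ := mem_Co.1 he
    have hk := Q.cheap1 h3 h2 (by omega)
    rw [show 4 - 3 = 1 from rfl,
      anti1 (fun a b m => lc (st i C).card 2 (Jx i K psi C w v e a b m))]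
    rw [Q.lc_J h3 hk (a := 0) (b := 0) (by rw [ind_zero]; omega) 1]
    ring
  have h4 : ∀ e ∈ Co i K psi C 4, ∑ p ∈ antidiagonal (4 - 4), ∑ t ∈ antidiagonal p.2,
        lc (st i C).card 2 (Jx i K psi C w v e p.1 t.1 t.2) =
      lc (st i C).card 2 (tC i C e) := by
    intro e he
    obtain ⟨h1, h2, h3⟩ := mem_Co.1 he
    rw [show 4 - 4 = 0 from rfl,
      anti0 (fun a b m => lc (st i C).card 2 (Jx i K psi C w v e a b m)), Q.Jx0 h3 h2]
  rw [h0, sum_congr rfl h1, sum_congr rfl h2, sum_congr rfl h3, sum_congr rfl h4]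
  ring

/-- THE ENERGY TWO -/
theorem K5w.lc2 : lc (st i C).card 1 (ZW i K psi C w v 2) =
    ∑ e ∈ Co i K psi C 2, lc (st i C).card 1 (tC i C e) +
    ∑ e ∈ Co i K psi C 1, (lc (st i C).card 1 (Jx i K psi C w v e 0 1 0) +
      lc (st i C).card 1 (Jx i K psi C w v e 1 0 0)) +
    ∑ e ∈ Co i K psi C 0, (lc (st i C).card 1 (Jx i K psi C w v e 0 1 1) +
      lc (st i C).card 1 (Jx i K psi C w v e 0 2 0) +
      lc (st i C).card 1 (Jx i K psi C w v e 1 0 1) +
      lc (st i C).card 1 (Jx i K psi C w v e 2 0 0)) := by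
  rw [Q.lc_ZC, sum_range_succ, sum_range_succ, sum_range_one]
  have h0 : ∀ e ∈ Co i K psi C 0, ∑ p ∈ antidiagonal (2 - 0), ∑ t ∈ antidiagonal p.2,
        lc (st i C).card 1 (Jx i K psi C w v e p.1 t.1 t.2) =
      (lc (st i C).card 1 (Jx i K psi C w v e 0 1 1) +
      lc (st i C).card 1 (Jx i K psi C w v e 0 2 0) +
      lc (st i C).card 1 (Jx i K psi C w v e 1 0 1) +
      lc (st i C).card 1 (Jx i K psi C w v e 2 0 0)) := by
    intro e he
    obtain ⟨h1, h2, h3⟩ := mem_Co.1 he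
    have hk := Q.cheap0 h3 h2 (by omega)
    have h0 : e q = 0 := by
      rw [sum_eq_zero_iff] at h1
      exact h1 q (mem_univ q)
    rw [show 2 - 0 = 2 from rfl,
      anti2 (fun a b m => lc (st i C).card 1 (Jx i K psi C w v e a b m))]
    rw [Q.lc_J h3 hk (a := 0) (b := 0) (by rw [ind_zero]; omega) 2,
      Q.Jx_both h3 hq hq' h0 one_ne_zero one_ne_zero 0, lc_zero]
    ring
  have h1 : ∀ e ∈ Co i K psi C 1, ∑ p ∈ antidiagonal (2 - 1), ∑ t ∈ antidiagonal p.2,
        lc (st i C).card 1 (Jx i K psi C w v e p.1 t.1 t.2) =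
      (lc (st i C).card 1 (Jx i K psi C w v e 0 1 0) +
      lc (st i C).card 1 (Jx i K psi C w v e 1 0 0)) := by
    intro e he
    obtain ⟨h1, h2, h3⟩ := mem_Co.1 he
    have hk := Q.cheap0 h3 h2 (by omega)
    rw [show 2 - 1 = 1 from rfl,
      anti1 (fun a b m => lc (st i C).card 1 (Jx i K psi C w v e a b m))]
    rw [Q.lc_J h3 hk (a := 0) (b := 0) (by rw [ind_zero]; omega) 1]
    ring
  have h2 : ∀ e ∈ Co i K psi C 2, ∑ p ∈ antidiagonal (2 - 2), ∑ t ∈ antidiagonal p.2,
        lc (st i C).card 1 (Jx i K psi C w v e p.1 t.1 t.2) =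
      lc (st i C).card 1 (tC i C e) := by
    intro e he
    obtain ⟨h1, h2, h3⟩ := mem_Co.1 he
    rw [show 2 - 2 = 0 from rfl,
      anti0 (fun a b m => lc (st i C).card 1 (Jx i K psi C w v e a b m)), Q.Jx0 h3 h2]
  rw [sum_congr rfl h0, sum_congr rfl h1, sum_congr rfl h2]
  ring

end

section

variable (Q : K5w r i K psi C w v) {p q s : P} (hw : uc w = {p, q}) (hv : dc v = {q, s})
  (hpq : p ≠ q) (hqs : q ≠ s) (hps : p ≠ s)
include Q hw hv hpq hqs hps

/-- THE FOURTH COEFFICIENT -/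
theorem K5w.be4_raw (hb : 1 ≤ (st i C).card) : 2 * lc (st i C).card 2 (ZW i K psi C w v 4) =
    (∑ q ∈ P4 i C, vp i q.1 * vp i q.2 - 2 * ((Z4 i C).card - (T4 i C).card : ℤ)) +
    (∑ z ∈ PN i C, vp i z * ((2 * ((st i C).card - 8) + ch i C z) * (Nx i w z - Nx i v z) +
      2 * (Mx i w z - Mx i v z)) + 2 * ∑ z ∈ Z4 i C, tz i z * (Nx i w z - Nx i v z)) +
    2 * (∑ z ∈ PN i C, vp i z * (Nx i w z * (1 + Dg i K C (sit i z ∪ nz i w)) -
      Nx i v z * (1 + Dg i K C (sit i z ∪ nz i v))) + (2 - ((st i C).card : ℤ))) +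
    2 * (2 - (Vc i K C + dg i K C p + dg i K C s + 2 * dg i K C q - 2 * W4.mm i K C {p, q}
        - 2 * W4.mm i K C {q, s} - W4.mm i K C {p, s})) := by
  obtain ⟨hw2, hv2, hq, hq'⟩ := Q.cards hw hv hpq hqs hps
  rw [Q.lc4 hq hq', Q.S2_4 hw hv hpq hqs hps, Q.S1_4 hw hv hpq hqs hps]
  linear_combination Q.sum4 hb + Q.S3 hw2 hv2

/-- THE SECOND COEFFICIENT -/
theorem K5w.al2_raw : lc (st i C).card 1 (ZW i K psi C w v 2) =
    ∑ z ∈ PN i C, vp i z + (dg i K C p - dg i K C s - W4.mm i K C {p, q} + W4.mm i K C {q, s}) := by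
  obtain ⟨hw2, hv2, hq, hq'⟩ := Q.cards hw hv hpq hqs hps
  obtain ⟨-, -, z3, z4, z5, z6⟩ := Q.zero_vals hw hv hpq hqs hps
  have e1 : ∑ e ∈ Co i K psi C 2, lc (st i C).card 1 (tC i C e) = ∑ z ∈ PN i C, vp i z := by
    rw [Q.sum2 (fun e => lc (st i C).card 1 (tC i C e))]
    · exact sum_congr rfl fun z hz => (pd_val Q.H Q.hi Q.hi2 Q.hC hz).2.2.2.2.2
    · intro e hs h _ _
      exact cheap0_lc Q.H Q.hC hs h
  rw [Q.lc2 hq hq', e1, Q.S1_2 hw hv hpq hqs hps, Co_zero Q.H, sum_singleton, z3, z4, z5, z6]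
  unfold Dg
  rw [sum_pair hpq, sum_pair hqs]
  ring

end

end Pool.Agent.GaussPoset.Win.Pb

end

/-! From `Pool.Agent.W_448p_h97.PbI` -/

section

/-!
MP_448cb3_co, G2, case B, window `j`: the window sum of a component with two stars in terms of the window
sums of the single stars.  helper97.
-/

namespace Pool.Agent.GaussPoset.Win.Pb

set_option linter.unusedSectionVars false

open Finset W4 Pa
open Pool.Agent.GaussPoset.Win.So (IV IV_chi IV_Fe)

universe u

variable {P : Type u} [Fintype P] [PartialOrder P] [DecidableEq P] {r i : ℕ}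
variable {e f : P → ℕ} {psi : P → P} {C K : Finset P} {w v w' v' : P}

/-! ### sums over antidiagonals -/

lemma an_assoc {M : Type*} [AddCommMonoid M] (N : ℕ) (F : ℕ → ℕ → ℕ → M) :
    ∑ p ∈ antidiagonal N, ∑ s ∈ antidiagonal p.1, F s.1 s.2 p.2 =
      ∑ p ∈ antidiagonal N, ∑ t ∈ antidiagonal p.2, F p.1 t.1 t.2 := by
  rw [Finset.sum_sigma', Finset.sum_sigma']
  refine Finset.sum_nbij'
    (fun x => (⟨(x.2.1, x.2.2 + x.1.2), (x.2.2, x.1.2)⟩ : (_ : ℕ × ℕ) × ℕ × ℕ))
    (fun x => (⟨(x.1.1 + x.2.1, x.2.2), (x.1.1, x.2.1)⟩ : (_ : ℕ × ℕ) × ℕ × ℕ)) ?_ ?_ ?_ ?_ ?_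
  · rintro ⟨⟨a, b⟩, ⟨c, d⟩⟩ h
    simp only [mem_sigma, HasAntidiagonal.mem_antidiagonal] at h ⊢
    exact ⟨by omega, trivial⟩
  · rintro ⟨⟨a, b⟩, ⟨c, d⟩⟩ h
    simp only [mem_sigma, HasAntidiagonal.mem_antidiagonal] at h ⊢
    exact ⟨by omega, trivial⟩
  · rintro ⟨⟨a, b⟩, ⟨c, d⟩⟩ h
    simp only [mem_sigma, HasAntidiagonal.mem_antidiagonal] at h
    obtain ⟨h1, h2⟩ := h
    subst h2
    rfl
  · rintro ⟨⟨a, b⟩, ⟨c, d⟩⟩ h
    simp only [mem_sigma, HasAntidiagonal.mem_antidiagonal] at h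
    obtain ⟨h1, h2⟩ := h
    subst h2
    rfl
  · rintro ⟨⟨a, b⟩, ⟨c, d⟩⟩ h
    rfl

lemma an_zero {M : Type*} [AddCommMonoid M] (N : ℕ) (F : ℕ → ℕ → M) :
    ∑ p ∈ antidiagonal N, F p.1 p.2 =
      F 0 N + ∑ p ∈ antidiagonal N, if p.1 ≠ 0 then F p.1 p.2 else 0 := by
  have h : (0, N) ∈ antidiagonal N := by rw [HasAntidiagonal.mem_antidiagonal]; omega
  rw [← add_sum_erase _ _ h, ← add_sum_erase _ (fun p => if p.1 ≠ 0 then F p.1 p.2 else 0) h,
    if_neg (by simp), zero_add]
  congr 1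
  refine sum_congr rfl fun p hp => ?_
  rw [mem_erase, HasAntidiagonal.mem_antidiagonal] at hp
  rw [if_pos]
  intro h0
  apply hp.1
  ext <;> simp <;> omega

/-- splitting of a triple sum -/
lemma tri_split (N : ℕ) (F : ℕ → ℕ → ℕ → A) :
    ∑ p ∈ antidiagonal N, ∑ t ∈ antidiagonal p.2, F p.1 t.1 t.2 =
      ∑ p ∈ antidiagonal N, F p.1 0 p.2 + ∑ t ∈ antidiagonal N, F 0 t.1 t.2 - F 0 0 N +
      ∑ p ∈ antidiagonal N, ∑ t ∈ antidiagonal p.2,
        if p.1 ≠ 0 ∧ t.1 ≠ 0 then F p.1 t.1 t.2 else 0 := by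
  have h1 : ∀ p ∈ antidiagonal N, ∑ t ∈ antidiagonal p.2, F p.1 t.1 t.2 =
      F p.1 0 p.2 + ∑ t ∈ antidiagonal p.2, if t.1 ≠ 0 then F p.1 t.1 t.2 else 0 :=
    fun p _ => an_zero p.2 (fun a b => F p.1 a b)
  rw [sum_congr rfl h1, sum_add_distrib,
    an_zero N (fun a b => ∑ t ∈ antidiagonal b, if t.1 ≠ 0 then F a t.1 t.2 else 0),
    an_zero N (fun a b => F 0 a b)]
  have h2 : ∀ p ∈ antidiagonal N, (if p.1 ≠ 0 then
      ∑ t ∈ antidiagonal p.2, (if t.1 ≠ 0 then F p.1 t.1 t.2 else 0) else 0) =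
      ∑ t ∈ antidiagonal p.2, if p.1 ≠ 0 ∧ t.1 ≠ 0 then F p.1 t.1 t.2 else 0 := by
    intro p _
    by_cases h : p.1 ≠ 0
    · rw [if_pos h]
      refine sum_congr rfl fun t _ => ?_
      by_cases h' : t.1 ≠ 0
      · rw [if_pos h', if_pos ⟨h, h'⟩]
      · rw [if_neg h', if_neg (fun h3 => h' h3.2)]
    · rw [if_neg h]
      symm
      refine sum_eq_zero fun t _ => ?_
      rw [if_neg (fun h3 => h h3.1)]
  rw [sum_congr rfl h2]
  ring

/-! ### the single stars -/

lemma tx0 (H : Gr P r) (hir : i ≤ r) {x : P} (hx : x ∈ near P i) (S : Finset P) :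
    tx i e x 0 S = 1 := by
  by_cases h : x ∈ Tch i e
  · rw [tx_tch h, if_pos rfl]
  · rw [tx_free h, wt_zero H hir hx]

lemma WW0 (H : Gr P r) (hir : i ≤ r) {x y : P} (hx : x ∈ near P i) (hy : y ∈ near P i)
    (S : Finset P) : WW i e x y 0 S = 1 := by
  unfold WW
  rw [an0 (fun p => tx i e x p.1 S * tx i e y p.2 S), tx0 H hir hx, tx0 H hir hy, mul_one]

section

variable (Q : K9 r i K psi C w v w' v')
include Q

/-- the first star -/
lemma k5L : K5w r i K psi C w v :=
  ⟨Q.H, Q.hi, Q.hi2, Q.hM, Q.hC, Q.wC, Q.vC, Q.wK, Q.vK, Q.lw, Q.lv, Q.nq, Q.nq'⟩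

/-- the second star -/
lemma k5R : K5w r i K psi C w' v' :=
  ⟨Q.H, Q.hi, Q.hi2, Q.hM, Q.hC, Q.wC', Q.vC', Q.wK', Q.vK', Q.lw', Q.lv', Q.nq, Q.nq'⟩

/-- no label on the second star -/
theorem J9_left (hc : IsCore i ∅ (ps K psi) e) (n m : ℕ) :
    J9 i K psi C w v w' v' e n 0 m = ∑ s ∈ antidiagonal n, Jx i K psi C w v e s.1 s.2 m := by
  classical
  have Q5 := k5L Q
  obtain ⟨hw, hv⟩ := core_wv Q5 hc
  have h1 : ∀ s ∈ antidiagonal n, Jx i K psi C w v e s.1 s.2 m =
      IV (st i C) (fun S => Fe i e S * (tx i e w s.1 S * (tx i e v s.2 S * GK i K psi C e m S))) := by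
    intro s _
    unfold Jx
    by_cases hac : Ac i e w s.1 ∧ Ac i e v s.2
    · rw [if_pos hac, JK_add2 Q5 hac.1 hac.2 hw hv]
      congr 1
      funext S
      have a1 : tx i e w s.1 S = wt i e w s.1 S := by
        rcases hac.1 with h | h
        · rw [h, tx0 Q.H Q.hir Q.nw, wt_zero Q.H Q.hir Q.nw]
        · exact tx_free h _ _
      have a2 : tx i e v s.2 S = wt i e v s.2 S := by
        rcases hac.2 with h | h
        · rw [h, tx0 Q.H Q.hir Q.nv, wt_zero Q.H Q.hir Q.nv]
        · exact tx_free h _ _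
      rw [a1, a2]
    · rw [if_neg hac]
      have h2 : (fun S => Fe i e S * (tx i e w s.1 S * (tx i e v s.2 S * GK i K psi C e m S))) =
          fun _ => (0 : A) := by
        funext S
        by_cases hw2 : Ac i e w s.1
        · have hv2 : ¬ Ac i e v s.2 := fun h => hac ⟨hw2, h⟩
          unfold Ac at hv2
          push Not at hv2
          rw [tx_tch hv2.2, if_neg hv2.1]
          ring
        · unfold Ac at hw2
          push Not at hw2
          rw [tx_tch hw2.2, if_neg hw2.1]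
          ring
      rw [h2]
      unfold IV
      exact (sum_eq_zero fun S _ => mul_zero _).symm
  rw [sum_congr rfl h1]
  unfold J9
  refine Eq.trans ?_ (W4.IV_sum _ (fun (s : ℕ × ℕ) S => Fe i e S * (tx i e w s.1 S *
    (tx i e v s.2 S * GK i K psi C e m S))))
  congr 1
  funext S
  rw [WW0 Q.H Q.hir Q.nw' Q.nv', one_mul]
  unfold WW
  rw [sum_mul, mul_sum]
  exact sum_congr rfl fun s _ => by ring

/-- no label on the first star -/
theorem J9_right (hc : IsCore i ∅ (ps K psi) e) (n m : ℕ) :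
    J9 i K psi C w v w' v' e 0 n m = ∑ s ∈ antidiagonal n, Jx i K psi C w' v' e s.1 s.2 m := by
  have Q' : K9 r i K psi C w' v' w v :=
    { toPaQ := Q.toPaQ
      hK := fun x hx => by rw [Q.hK x hx]; tauto
      wC := Q.wC'
      vC := Q.vC'
      wC' := Q.wC
      vC' := Q.vC
      lw := Q.lw'
      lv := Q.lv'
      lw' := Q.lw
      lv' := Q.lv
      nww := Q.nww.symm
      nvv := Q.nvv.symm }
  rw [J9_sym, J9_left Q' hc]

end

/-- the terms without labels on the stars -/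
noncomputable def Z00 (i : ℕ) (K : Finset P) (psi : P → P) (C : Finset P) (w v w' v' : P) (n : ℕ) :
    A := ∑ q ∈ range (n + 1), ∑ e ∈ Co i K psi C q, J9 i K psi C w v w' v' e 0 0 (n - q)

open Classical in
/-- the terms with labels on both stars -/
noncomputable def ZLR (i : ℕ) (K : Finset P) (psi : P → P) (C : Finset P) (w v w' v' : P) (n : ℕ) :
    A := ∑ q ∈ range (n + 1), ∑ e ∈ Co i K psi C q,
      ∑ p ∈ antidiagonal (n - q), ∑ t ∈ antidiagonal p.2,
        if p.1 ≠ 0 ∧ t.1 ≠ 0 then J9 i K psi C w v w' v' e p.1 t.1 t.2 else 0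

/-- THE WINDOW SUM of a component with two stars -/
theorem ZC_two (Q : K9 r i K psi C w v w' v') (n : ℕ) :
    ZC i C n = ZW i K psi C w v n + ZW i K psi C w' v' n - Z00 i K psi C w v w' v' n +
      ZLR i K psi C w v w' v' n := by
  rw [Q.ZC_split n]
  unfold ZW Z00 ZLR
  rw [← sum_add_distrib, ← sum_sub_distrib, ← sum_add_distrib]
  refine sum_congr rfl fun q _ => ?_
  rw [← sum_add_distrib, ← sum_sub_distrib, ← sum_add_distrib]
  refine sum_congr rfl fun e he => ?_
  obtain ⟨-, -, hc⟩ := mem_Co.1 he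
  rw [tri_split (n - q) (fun a b c => J9 i K psi C w v w' v' e a b c)]
  congr 1
  · congr 1
    congr 1
    · rw [← an_assoc (n - q) (fun a b c => Jx i K psi C w v e a b c)]
      exact sum_congr rfl fun p _ => J9_left Q hc p.1 p.2
    · rw [← an_assoc (n - q) (fun a b c => Jx i K psi C w' v' e a b c)]
      exact sum_congr rfl fun p _ => J9_right Q hc p.1 p.2

end Pool.Agent.GaussPoset.Win.Pb

end

/-! From `Pool.Agent.W_448p_h97.PbJ` -/

section

/-!
MP_448cb3_co, G2, case B, window `j`: sums over the subsets of the sites of functions with disjoint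
supports; the isolated star.  helper97.
-/

namespace Pool.Agent.GaussPoset.Win.Pb

set_option linter.unusedSectionVars false

open Finset W4 Pa
open Pool.Agent.GaussPoset.Win.So (IV IV_chi IV_Fe)

universe u

variable {P : Type u} [Fintype P] [PartialOrder P] [DecidableEq P] {r i : ℕ}
variable {e f : P → ℕ} {psi : P → P} {C K : Finset P} {w v w' v' : P}

/-- the function depends only on the elements of `U` -/
def Dp (U : Finset P) (g : Finset P → A) : Prop :=
  ∀ S S' : Finset P, (∀ y ∈ U, y ∈ S ↔ y ∈ S') → g S = g S'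

lemma Dp.mono {U U' : Finset P} {g : Finset P → A} (h : Dp U g) (hU : U ⊆ U') : Dp U' g :=
  fun S S' hS => h S S' fun y hy => hS y (hU hy)

lemma Dp.mul {U U' : Finset P} {g g' : Finset P → A} (h : Dp U g) (h' : Dp U' g') :
    Dp (U ∪ U') (fun S => g S * g' S) := by
  intro S S' hS
  show g S * g' S = g S' * g' S'
  rw [h S S' fun y hy => hS y (mem_union_left _ hy), h' S S' fun y hy => hS y (mem_union_right _ hy)]

lemma Dp.mul' {U : Finset P} {g g' : Finset P → A} (h : Dp U g) (h' : Dp U g') :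
    Dp U (fun S => g S * g' S) := by
  have := h.mul h'
  rwa [union_self] at this

lemma Dp_const (U : Finset P) (c : A) : Dp U (fun _ => c) := fun _ _ _ => rfl

lemma Dp_sum {ι : Type*} {U : Finset P} (s : Finset ι) {g : ι → Finset P → A}
    (h : ∀ t ∈ s, Dp U (g t)) : Dp U (fun S => ∑ t ∈ s, g t S) :=
  fun S S' hS => sum_congr rfl fun t ht => h t ht S S' hS

lemma Dp_prod {ι : Type*} {U : Finset P} (s : Finset ι) {g : ι → Finset P → A}
    (h : ∀ t ∈ s, Dp U (g t)) : Dp U (fun S => ∏ t ∈ s, g t S) :=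
  fun S S' hS => prod_congr rfl fun t ht => h t ht S S' hS

lemma Dp_chi (B D : Finset P) : Dp (B ∪ D) (chi B D) := by
  intro S S' hS
  have h1 : B ⊆ S ↔ B ⊆ S' := by
    constructor
    · intro h y hy
      exact (hS y (mem_union_left _ hy)).1 (h hy)
    · intro h y hy
      exact (hS y (mem_union_left _ hy)).2 (h hy)
  have h2 : Disjoint D S ↔ Disjoint D S' := by
    rw [disjoint_left, disjoint_left]
    constructor
    · intro h y hy hy'
      exact h hy ((hS y (mem_union_right _ hy)).2 hy')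
    · intro h y hy hy'
      exact h hy ((hS y (mem_union_right _ hy)).1 hy')
  unfold chi
  simp only [h1, h2]

lemma Dp_wt {x : P} (hx : x ∈ near P i) (a : ℕ) : Dp (nz i x) (wt i e x a) := by
  have hk : kz i e x a ⊆ nz i x := kz_sub
  rcases mem_near.1 hx with h | h
  · intro S S' hS
    rw [wt_low h, wt_low h, (Dp_chi (kz i e x a) ∅) S S' fun y hy => hS y (hk (by simpa using hy))]
  · intro S S' hS
    rw [wt_upp h, wt_upp h, (Dp_chi ∅ (kz i e x a)) S S' fun y hy => hS y (hk (by simpa using hy))]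

lemma Dp_tx {x : P} (hx : x ∈ near P i) (a : ℕ) : Dp (nz i x) (tx i e x a) := by
  by_cases hT : x ∈ Tch i e
  · intro S S' _
    rw [tx_tch hT, tx_tch hT]
  · intro S S' hS
    rw [tx_free hT, tx_free hT]
    exact Dp_wt hx a S S' hS

lemma Dp_WW {x y : P} (hx : x ∈ near P i) (hy : y ∈ near P i) (n : ℕ) :
    Dp (nz i x ∪ nz i y) (WW i e x y n) :=
  Dp_sum _ fun p _ => (Dp_tx hx p.1).mul (Dp_tx hy p.2)

lemma Dp_Fe (i : ℕ) (e : P → ℕ) : Dp (AL i e ∪ AU i e) (Fe i e) := by
  intro S S' hS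
  unfold Fe
  rw [Dp_chi (AL i e) (AU i e) S S' hS]

/-! ### disjoint supports -/

lemma IV_parts {V U U' : Finset P} {g h : Finset P → A} (hg : Dp U g) (hh : Dp U' h)
    (hd : Disjoint U U') : IV V (fun S => g S * h S) = IV (V ∩ U) g * IV (V \ U) h := by
  classical
  unfold IV
  rw [sum_mul_sum, ← sum_product']
  refine (Finset.sum_nbij' (fun p => p.1 ∪ p.2) (fun S => (S ∩ U, S \ U)) ?_ ?_ ?_ ?_ ?_).symm
  · rintro ⟨S1, S2⟩ hS
    rw [mem_product, mem_powerset, mem_powerset] at hS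
    rw [mem_powerset]
    exact union_subset (hS.1.trans inter_subset_left) (hS.2.trans sdiff_subset)
  · intro S hS
    rw [mem_powerset] at hS
    rw [mem_product, mem_powerset, mem_powerset]
    exact ⟨inter_subset_inter_right hS, sdiff_subset_sdiff hS le_rfl⟩
  · rintro ⟨S1, S2⟩ hS
    rw [mem_product, mem_powerset, mem_powerset] at hS
    obtain ⟨h1, h2⟩ := hS
    have h1' : ∀ y ∈ S1, y ∈ U := fun y hy => (mem_inter.1 (h1 hy)).2
    have h2' : ∀ y ∈ S2, y ∉ U := fun y hy => (mem_sdiff.1 (h2 hy)).2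
    refine Prod.ext ?_ ?_
    · ext y
      simp only [mem_inter, mem_union]
      constructor
      · rintro ⟨h3 | h3, h4⟩
        · exact h3
        · exact absurd h4 (h2' y h3)
      · exact fun h3 => ⟨Or.inl h3, h1' y h3⟩
    · ext y
      simp only [mem_sdiff, mem_union]
      constructor
      · rintro ⟨h3 | h3, h4⟩
        · exact absurd (h1' y h3) h4
        · exact h3
      · exact fun h3 => ⟨Or.inr h3, h2' y h3⟩
  · intro S _
    show S ∩ U ∪ S \ U = S
    rw [union_comm, sdiff_union_inter]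
  · rintro ⟨S1, S2⟩ hS
    rw [mem_product, mem_powerset, mem_powerset] at hS
    obtain ⟨h1, h2⟩ := hS
    have h1' : ∀ y ∈ S1, y ∈ U := fun y hy => (mem_inter.1 (h1 hy)).2
    have h2' : ∀ y ∈ S2, y ∉ U := fun y hy => (mem_sdiff.1 (h2 hy)).2
    have hdis : Disjoint S1 S2 := disjoint_left.2 fun y hy hy' => h2' y hy' (h1' y hy)
    have a1 : g (S1 ∪ S2) = g S1 := by
      refine hg _ _ fun y hy => ?_
      rw [mem_union]
      constructor
      · rintro (h | h)
        · exact h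
        · exact absurd hy (h2' y h)
      · exact Or.inl
    have a2 : h (S1 ∪ S2) = h S2 := by
      refine hh _ _ fun y hy => ?_
      rw [mem_union]
      constructor
      · rintro (h | h)
        · exact absurd hy (disjoint_left.1 hd (h1' y h))
        · exact h
      · exact Or.inr
    show xx ^ S1.card * g S1 * (xx ^ S2.card * h S2) =
      xx ^ (S1 ∪ S2).card * (g (S1 ∪ S2) * h (S1 ∪ S2))
    rw [a1, a2, card_union_of_disjoint hdis, pow_add]
    ring

lemma IV_one (V : Finset P) : IV V (fun _ => (1 : A)) = dd ^ V.card := by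
  have h := IV_chi (V := V) (B := ∅) (C := ∅) (empty_subset _) (empty_subset _)
  have h2 : chi (∅ : Finset P) ∅ = fun _ => (1 : A) := by
    funext S
    unfold chi
    rw [if_pos ⟨empty_subset _, disjoint_empty_left _⟩]
  rw [h2] at h
  rw [h]
  simp

/-- functions with disjoint supports -/
theorem IV_prod {V U U' : Finset P} {g h : Finset P → A} (hg : Dp U g) (hh : Dp U' h)
    (hd : Disjoint U U') : dd ^ V.card * IV V (fun S => g S * h S) = IV V g * IV V h := by
  have h1 := IV_parts (V := V) hg hh hd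
  have h2 := IV_parts (V := V) hg (Dp_const U' 1) hd
  have h3 := IV_parts (V := V) (Dp_const U 1) hh hd
  have h4 := IV_parts (V := V) (Dp_const U 1) (Dp_const U' 1) hd
  simp only [mul_one, one_mul] at h2 h3 h4
  rw [← IV_one V, h1, h2, h3, h4]
  ring

/-- orders and coefficients of a product -/
lemma prod_lc {b k l : ℕ} {X Y Z : A} (h : dd ^ b * X = Y * Z) (hY : od b k Y) (hZ : od b l Z) :
    od b (k + l) X ∧ lc b (k + l) X = lc b k Y * lc b l Z := by
  unfold od lc at *
  obtain ⟨Y', hY'⟩ := hY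
  obtain ⟨Z', hZ'⟩ := hZ
  have hX : dd ^ (k + l) * X = dd ^ b * (Y' * Z') := by
    have h1 : dd ^ b * (dd ^ (k + l) * X) = dd ^ b * (dd ^ b * (Y' * Z')) := by
      calc dd ^ b * (dd ^ (k + l) * X) = dd ^ k * dd ^ l * (dd ^ b * X) := by ring
        _ = (dd ^ k * Y) * (dd ^ l * Z) := by rw [h]; ring
        _ = dd ^ b * (dd ^ b * (Y' * Z')) := by rw [hY', hZ']; ring
    have hne : (dd : A) ^ b ≠ 0 := by
      unfold dd
      exact pow_ne_zero _ PowerSeries.X_ne_zero
    exact mul_left_cancel₀ hne h1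
  refine ⟨⟨_, hX⟩, ?_⟩
  rw [hX, hY', hZ']
  unfold dd
  rw [PowerSeries.coeff_X_pow_mul', PowerSeries.coeff_X_pow_mul', PowerSeries.coeff_X_pow_mul',
    if_pos le_rfl, if_pos le_rfl, if_pos le_rfl, Nat.sub_self]
  simp

/-! ### the isolated star -/

/-- the function of a star whose sites have no labels -/
noncomputable def IW (i : ℕ) (x y : P) (S : Finset P) : A :=
  dd * chi (nz i x) ∅ S + xi * dd * chi ∅ (nz i y) S

lemma Dp_IW (x y : P) : Dp (nz i x ∪ nz i y) (IW i x y) := by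
  intro S S' hS
  unfold IW
  rw [Dp_chi (nz i x) ∅ S S' fun z hz => hS z (mem_union_left _ (by simpa using hz)),
    Dp_chi ∅ (nz i y) S S' fun z hz => hS z (mem_union_right _ (by simpa using hz))]

lemma tx_iso (H : Gr P r) (hir : i ≤ r) {x : P} (hx : x ∈ near P i) (hT : x ∉ Tch i e)
    (h0 : ∀ z ∈ nz i x, e z = 0) {n : ℕ} (hn : n ≠ 0) (S : Finset P) : tx i e x n S =
      if lev x = i + 1 then dd * chi (nz i x) ∅ S else xi * dd * chi ∅ (nz i x) S := by
  have hk : kz i e x n = nz i x := by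
    rw [kz_eq_iff]
    intro z hz
    rw [h0 z hz]
    omega
  rw [tx_free hT]
  rcases mem_near.1 hx with h | h
  · rw [wt_low h, if_pos h, hk]
    unfold fz
    rw [if_pos hk, if_pos h]
  · rw [wt_upp h, if_neg (by omega), hk]
    unfold fz
    rw [if_pos hk, if_neg (by omega)]

lemma WW_iso (H : Gr P r) (hir : i ≤ r) {x y q : P} (hx : lev x = i + 1) (hy : lev y + 1 = i)
    (hq : q ∈ uc x) (hq' : q ∈ dc y) (hTx : x ∉ Tch i e) (hTy : y ∉ Tch i e)
    (h0 : ∀ z ∈ nz i x ∪ nz i y, e z = 0) {n : ℕ} (hn : n ≠ 0) (S : Finset P) :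
    WW i e x y n S = IW i x y S := by
  have hnx : x ∈ near P i := mem_near.2 (Or.inl hx)
  have hny : y ∈ near P i := mem_near.2 (Or.inr hy)
  have hqz : q ∈ nz i x := by rw [nz_low hx]; exact hq
  have hqz' : q ∈ nz i y := by rw [nz_upp hy]; exact hq'
  have heq : e q = 0 := h0 q (mem_union_left _ hqz)
  unfold WW
  have h1 : ∑ p ∈ antidiagonal n, tx i e x p.1 S * tx i e y p.2 S =
      ∑ p ∈ ({(0, n), (n, 0)} : Finset (ℕ × ℕ)), tx i e x p.1 S * tx i e y p.2 S := by
    symm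
    refine sum_subset ?_ ?_
    · intro p hp
      rw [mem_insert, mem_singleton] at hp
      rw [HasAntidiagonal.mem_antidiagonal]
      rcases hp with rfl | rfl <;> simp
    · rintro ⟨a, b⟩ hp hne
      rw [HasAntidiagonal.mem_antidiagonal] at hp
      rw [mem_insert, mem_singleton, not_or] at hne
      simp only at hp
      have ha : a ≠ 0 := by
        rintro rfl
        apply hne.1
        rw [Prod.mk.injEq]
        exact ⟨rfl, by omega⟩
      have hb : b ≠ 0 := by
        rintro rfl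
        apply hne.2
        rw [Prod.mk.injEq]
        exact ⟨by omega, rfl⟩
      have q1 : q ∈ kz i e x a := mem_kz.2 ⟨hqz, by omega⟩
      have q2 : q ∈ kz i e y b := mem_kz.2 ⟨hqz', by omega⟩
      show tx i e x a S * tx i e y b S = 0
      rw [tx_free hTx, tx_free hTy, wt_low hx, wt_upp hy]
      by_cases hS : q ∈ S
      · have : chi ∅ (kz i e y b) S = 0 := by
          unfold chi
          rw [if_neg]
          rintro ⟨-, h2⟩
          exact disjoint_left.1 h2 q2 hS
        rw [this]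
        ring
      · have : chi (kz i e x a) ∅ S = 0 := by
          unfold chi
          rw [if_neg]
          rintro ⟨h2, -⟩
          exact hS (h2 q1)
        rw [this]
        ring
  rw [h1, sum_pair (by rw [Ne, Prod.mk.injEq]; omega)]
  show tx i e x 0 S * tx i e y n S + tx i e x n S * tx i e y 0 S = _
  rw [tx0 H hir hnx, tx0 H hir hny, tx_iso H hir hnx hTx (fun z hz => h0 z (mem_union_left _ hz)) hn,
    tx_iso H hir hny hTy (fun z hz => h0 z (mem_union_right _ hz)) hn, if_pos hx, if_neg (by omega)]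
  unfold IW
  ring

/-- the isolated star has no deficits -/
lemma IW_od {x y : P} (hx : (nz i x).card = 2) (hy : (nz i y).card = 2) (sx : nz i x ⊆ st i C)
    (sy : nz i y ⊆ st i C) : od (st i C).card 0 (IV (st i C) (IW i x y)) := by
  have h1 := IV_chi (V := st i C) (B := nz i x) (C := ∅) sx (empty_subset _)
  have h2 := IV_chi (V := st i C) (B := ∅) (C := nz i y) (empty_subset _) sy
  rw [if_pos (disjoint_empty_right _), hx, card_empty] at h1
  rw [if_pos (disjoint_empty_left _), hy, card_empty] at h2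
  have hb : 2 ≤ (st i C).card := by rw [← hx]; exact card_le_card sx
  have h3 : IV (st i C) (IW i x y) = dd * IV (st i C) (chi (nz i x) ∅) +
      xi * dd * IV (st i C) (chi ∅ (nz i y)) := by
    unfold IV IW
    rw [mul_sum, mul_sum, ← sum_add_distrib]
    exact sum_congr rfl fun S _ => by ring
  have hdv : (dd : A) ∣ xx ^ 2 + xi := by
    have hxi : xi * xx = 1 := by rw [mul_comm]; exact xx_mul_xi
    refine ⟨xi * (xx ^ 2 - xx + 1), ?_⟩
    have hdd : (dd : A) = xx + 1 := by unfold xx; ring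
    rw [hdd]
    calc xx ^ 2 + xi = (xi * xx) * xx ^ 2 + xi := by rw [hxi, one_mul]
      _ = (xx + 1) * (xi * (xx ^ 2 - xx + 1)) := by ring
  unfold od
  rw [pow_zero, one_mul, h3, h1, h2]
  obtain ⟨Y, hY⟩ := hdv
  refine ⟨Y, ?_⟩
  obtain ⟨b, hb'⟩ : ∃ b, (st i C).card = b + 2 := ⟨_, (Nat.sub_add_cancel hb).symm⟩
  rw [hb']
  have e1 : b + 2 - 2 - 0 = b := by omega
  have e2 : b + 2 - 0 - 2 = b := by omega
  rw [e1, e2]
  calc dd * (xx ^ 2 * dd ^ b) + xi * dd * (xx ^ 0 * dd ^ b) = dd ^ (b + 1) * (xx ^ 2 + xi) := by ring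
    _ = dd ^ (b + 2) * Y := by rw [hY]; ring

end Pool.Agent.GaussPoset.Win.Pb

end

/-! From `Pool.Agent.W_448p_h97.PbK` -/

section

/-!
MP_448cb3_co, G2, case B, window `j`: splitting of the labellings of the free near elements by their sites.
helper97.
-/

namespace Pool.Agent.GaussPoset.Win.Pb

set_option linter.unusedSectionVars false

open Finset W4 Pa
open Pool.Agent.GaussPoset.Win.So (IV IV_chi IV_Fe)
open Pool.Agent.GaussPoset.Win.SO (LowD UppD)

universe u

variable {P : Type u} [Fintype P] [PartialOrder P] [DecidableEq P] {r i : ℕ}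
variable {e f : P → ℕ} {psi : P → P} {C K : Finset P} {w v w' v' : P}

/-- only labels on the sites: the configuration has the constant function one -/
lemma Sc_Fe (H : Gr P r) (hi : 1 ≤ i) (hi2 : i + 1 ≤ r) (h : Sc i e) (S : Finset P) :
    Fe i e S = 1 := by
  have hir : i ≤ r := by omega
  have D : LowD i e (∅ : Finset P) ∅ ∅ := SO.low_none H fun z hz => h z (by omega)
  have D' : UppD i e (∅ : Finset P) ∅ ∅ := SO.upp_none H hir fun z hz => h z (by omega)
  have e1 := D.AL_eq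
  have e2 := D'.AU_eq
  unfold Fe cw
  rw [e1, e2, if_pos ⟨D.adm, D'.adm⟩, D.aL_eq, D'.aU_eq, D.pL_eq, D'.pU_eq]
  unfold chi
  rw [if_pos ⟨empty_subset _, disjoint_empty_left _⟩]
  simp

/-- the sum over the labellings of a set of near elements -/
noncomputable def GS (i : ℕ) (e : P → ℕ) (T : Finset P) (m : ℕ) (S : Finset P) : A :=
  ∑ l ∈ T.piAntidiag m, ∏ x ∈ T, wt i e x (l x) S

lemma GS_coeff (T : Finset P) (m : ℕ) (S : Finset P) :
    GS i e T m S = PowerSeries.coeff m (GF (fun x a => wt i e x a S) T) := by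
  unfold GS GF
  rw [PowerSeries.coeff_mk]

lemma GS_union {T T' : Finset P} (h : Disjoint T T') (m : ℕ) (S : Finset P) :
    GS i e (T ∪ T') m S = ∑ p ∈ antidiagonal m, GS i e T p.1 S * GS i e T' p.2 S := by
  rw [GS_coeff, GF_prod, prod_union h, ← GF_prod, ← GF_prod, PowerSeries.coeff_mul]
  exact sum_congr rfl fun p _ => by rw [GS_coeff, GS_coeff]

lemma GS_zero (H : Gr P r) (hir : i ≤ r) {T : Finset P} (hT : T ⊆ near P i) (S : Finset P) :
    GS i e T 0 S = 1 := by
  unfold GS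
  rw [Finset.piAntidiag_zero, Finset.sum_singleton]
  refine Finset.prod_eq_one fun x hx => ?_
  show wt i e x ((0 : P → ℕ) x) S = 1
  rw [Pi.zero_apply]
  exact wt_zero H hir (hT hx) e S

lemma GS_Dp {T U : Finset P} (hT : T ⊆ near P i) (hU : ∀ x ∈ T, nz i x ⊆ U) (m : ℕ) :
    Dp U (GS i e T m) :=
  Dp_sum _ fun l _ => Dp_prod _ fun x hx => (Dp_wt (hT hx) (l x)).mono (hU x hx)

lemma wt_loc {x : P} (hx : x ∈ near P i) (h : ∀ z ∈ nz i x, e z = f z) (a : ℕ) (S : Finset P) :
    wt i e x a S = wt i f x a S := by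
  have hk : kz i e x a = kz i f x a := by
    ext z
    rw [mem_kz, mem_kz]
    constructor
    · rintro ⟨h1, h2⟩
      exact ⟨h1, by rw [← h z h1]; exact h2⟩
    · rintro ⟨h1, h2⟩
      exact ⟨h1, by rw [h z h1]; exact h2⟩
  have hf : fz i e x a = fz i f x a := by
    unfold fz
    rw [hk]
  rcases mem_near.1 hx with h1 | h1
  · rw [wt_low h1, wt_low h1, hk, hf]
  · rw [wt_upp h1, wt_upp h1, hk, hf]

lemma GS_loc {T U : Finset P} (hT : T ⊆ near P i) (hU : ∀ x ∈ T, nz i x ⊆ U)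
    (h : ∀ z ∈ U, e z = f z) (m : ℕ) (S : Finset P) : GS i e T m S = GS i f T m S := by
  unfold GS
  exact sum_congr rfl fun l _ => prod_congr rfl fun x hx =>
    wt_loc (hT hx) (fun z hz => h z (hU x hx hz)) _ _

/-- the matched element has the same sites -/
lemma psi_nz (hM : Mat P i K psi) {x : P} (hxK : x ∉ K) (hd : x ∈ dbL P i ∪ dbU P i) :
    nz i (psi x) = nz i x := by
  rcases mem_union.1 hd with h | h
  · obtain ⟨h1, h2⟩ := hM.low x h hxK
    rw [nz_low (mem_dbL.1 h).1, nz_upp (mem_dbU.1 h1).1, h2]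
  · obtain ⟨h1, h2⟩ := hM.upp x h hxK
    rw [nz_upp (mem_dbU.1 h).1, nz_low (mem_dbL.1 h1).1, h2]

open Classical in
/-- the free near elements with a property of their sites -/
noncomputable def RP (i : ℕ) (K : Finset P) (psi : P → P) (C : Finset P) (e : P → ℕ)
    (p : Finset P → Prop) : Finset P := (RK i K psi C e).filter (fun x => p (nz i x))

lemma mem_RP {p : Finset P → Prop} {x : P} :
    x ∈ RP i K psi C e p ↔ x ∈ RK i K psi C e ∧ p (nz i x) := by
  classical
  unfold RP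
  rw [mem_filter]

lemma RP_near (p : Finset P → Prop) : RP i K psi C e p ⊆ near P i :=
  fun _ hx => RK_near (mem_RP.1 hx).1

lemma GS_RP (H : Gr P r) (hi : 1 ≤ i) (hi2 : i + 1 ≤ r) (hM : Mat P i K psi)
    (hC : Part (i + 1) C) (p : Finset P → Prop) (m : ℕ) :
    Rk (lv P i) 0 (GS i e (RP i K psi C e p) m) := by
  refine rest_prod H hi hi2 hM e _ (RP_near p)
    (fun x hx => (mem_Rst.1 (mem_RK.1 (mem_RP.1 hx).1).1).2.1) (fun x hx hd => ?_) m
  rw [mem_RP, mem_RK] at hx
  rw [mem_RP, mem_RK]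
  have hxK := (mem_Rst.1 hx.1.1).2.1
  exact ⟨⟨psi_RstK hM hx.1.1 hd, psi_memK H hM hC hd hxK hx.1.2⟩, by
    rw [psi_nz hM hxK hd]; exact hx.2⟩

/-- splitting of the labellings by a property of the sites -/
lemma GK_RP (p : Finset P → Prop) (m : ℕ) (S : Finset P) :
    GK i K psi C e m S = ∑ t ∈ antidiagonal m,
      GS i e (RP i K psi C e p) t.1 S * GS i e (RP i K psi C e fun N => ¬ p N) t.2 S := by
  classical
  have h1 : RK i K psi C e = RP i K psi C e p ∪ RP i K psi C e fun N => ¬ p N := by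
    ext x
    rw [mem_union, mem_RP, mem_RP]
    tauto
  rw [← GS_union]
  · rw [← h1]
    rfl
  · rw [disjoint_left]
    intro x hx hx'
    exact (mem_RP.1 hx').2 (mem_RP.1 hx).2

lemma GS_RP2 (p q : Finset P → Prop) (m : ℕ) (S : Finset P) :
    GS i e (RP i K psi C e p) m S = ∑ t ∈ antidiagonal m,
      GS i e (RP i K psi C e fun N => p N ∧ q N) t.1 S *
        GS i e (RP i K psi C e fun N => p N ∧ ¬ q N) t.2 S := by
  classical
  have h1 : RP i K psi C e p = (RP i K psi C e fun N => p N ∧ q N) ∪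
      RP i K psi C e fun N => p N ∧ ¬ q N := by
    ext x
    rw [mem_union, mem_RP, mem_RP, mem_RP]
    tauto
  rw [← GS_union]
  · rw [← h1]
  · rw [disjoint_left]
    intro x hx hx'
    exact (mem_RP.1 hx').2.2 (mem_RP.1 hx).2.2

/-! ### the data of two stars which do not meet -/

/-- the two stars and the near elements which meet them have disjoint sites -/
structure Sep (i : ℕ) (C : Finset P) (w v w' v' : P) (U U' : Finset P) : Prop where
  sL : nz i w ∪ nz i v ⊆ U
  sR : nz i w' ∪ nz i v' ⊆ U'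
  hL : ∀ y ∈ near P i, y ∈ C → ¬ Disjoint (nz i y) (nz i w ∪ nz i v) → nz i y ⊆ U
  hR : ∀ y ∈ near P i, y ∈ C → ¬ Disjoint (nz i y) (nz i w' ∪ nz i v') → nz i y ⊆ U'
  hd : Disjoint U U'

lemma Sep.sym {U U' : Finset P} (h : Sep i C w v w' v' U U') : Sep i C w' v' w v U' U :=
  ⟨h.sR, h.sL, h.hR, h.hL, h.hd.symm⟩

section

variable {a b c a' b' c' : P} (Q : K9c r i K psi C w v w' v' a b c a' b' c')
include Q

lemma stR : nz i w' ⊆ st i C ∧ nz i v' ⊆ st i C := by
  constructor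
  · intro z hz
    exact mem_st.2 ⟨Q.part.up Q.wC' (mem_uc.1 (by rw [nz_low Q.lw'] at hz; exact hz)),
      nz_lev Q.H Q.nw' hz⟩
  · intro z hz
    exact mem_st.2 ⟨Q.hC.dn Q.vC' (by have := Q.lv'; omega)
      (mem_dc.1 (by rw [nz_upp Q.lv'] at hz; exact hz)), nz_lev Q.H Q.nv' hz⟩

/-- THE ISOLATED RIGHT STAR: product formula -/
theorem iso_R {U : Finset P} {G : Finset P → A} (hT : w' ∉ Tch i e ∧ v' ∉ Tch i e)
    (h0 : ∀ z ∈ nz i w' ∪ nz i v', e z = 0) {n1 n2 : ℕ} (hn : n2 ≠ 0) (hG : Dp U G)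
    (hU : Disjoint U (nz i w' ∪ nz i v')) (hF : Disjoint (AL i e ∪ AU i e) (nz i w' ∪ nz i v'))
    (hd : Disjoint (nz i w ∪ nz i v) (nz i w' ∪ nz i v')) :
    dd ^ (st i C).card * IV (st i C) (fun S => Fe i e S * (WW i e w v n1 S *
      (WW i e w' v' n2 S * G S))) =
      IV (st i C) (fun S => Fe i e S * (WW i e w v n1 S * G S)) * IV (st i C) (IW i w' v') := by
  have h1 : (fun S => Fe i e S * (WW i e w v n1 S * (WW i e w' v' n2 S * G S))) =
      fun S => (Fe i e S * (WW i e w v n1 S * G S)) * IW i w' v' S := by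
    funext S
    rw [WW_iso Q.H Q.hir Q.lw' Q.lv' Q.hb' Q.hb1' hT.1 hT.2 h0 hn]
    ring
  rw [h1]
  refine IV_prod (U := (AL i e ∪ AU i e) ∪ ((nz i w ∪ nz i v) ∪ U)) (U' := nz i w' ∪ nz i v')
    ((Dp_Fe i e).mul ((Dp_WW Q.nw Q.nv n1).mul hG)) (Dp_IW w' v') ?_
  exact disjoint_union_left.2 ⟨hF, disjoint_union_left.2 ⟨hd, hU⟩⟩

/-- THE ISOLATED LEFT STAR: product formula -/
theorem iso_L {U : Finset P} {G : Finset P → A} (hT : w ∉ Tch i e ∧ v ∉ Tch i e)
    (h0 : ∀ z ∈ nz i w ∪ nz i v, e z = 0) {n1 n2 : ℕ} (hn : n1 ≠ 0) (hG : Dp U G)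
    (hU : Disjoint U (nz i w ∪ nz i v)) (hF : Disjoint (AL i e ∪ AU i e) (nz i w ∪ nz i v))
    (hd : Disjoint (nz i w ∪ nz i v) (nz i w' ∪ nz i v')) :
    dd ^ (st i C).card * IV (st i C) (fun S => Fe i e S * (WW i e w v n1 S *
      (WW i e w' v' n2 S * G S))) =
      IV (st i C) (IW i w v) * IV (st i C) (fun S => Fe i e S * (WW i e w' v' n2 S * G S)) := by
  have h1 : (fun S => Fe i e S * (WW i e w v n1 S * (WW i e w' v' n2 S * G S))) =
      fun S => IW i w v S * (Fe i e S * (WW i e w' v' n2 S * G S)) := by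
    funext S
    rw [WW_iso Q.H Q.hir Q.lw Q.lv Q.hb Q.hb1 hT.1 hT.2 h0 hn]
    ring
  rw [h1]
  refine IV_prod (U := nz i w ∪ nz i v) (U' := (AL i e ∪ AU i e) ∪ ((nz i w' ∪ nz i v') ∪ U))
    (Dp_IW w v) ((Dp_Fe i e).mul ((Dp_WW Q.nw' Q.nv' n2).mul hG)) ?_
  exact disjoint_union_right.2 ⟨hF.symm, disjoint_union_right.2 ⟨hd, hU.symm⟩⟩

end

end Pool.Agent.GaussPoset.Win.Pb

end

/-! From `Pool.Agent.W_448p_h97.PbL` -/

section

/-!
MP_448cb3_co, G2, case B, window `j`: configurations with labels on the sites and on both stars.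
helper97.
-/

namespace Pool.Agent.GaussPoset.Win.Pb

set_option linter.unusedSectionVars false

open Finset W4 Pa
open Pool.Agent.GaussPoset.Win.So (IV IV_chi IV_Fe)
open Pool.Agent.GaussPoset.Win.SO (LowD UppD)

universe u

variable {P : Type u} [Fintype P] [PartialOrder P] [DecidableEq P] {r i : ℕ}
variable {e f : P → ℕ} {psi : P → P} {C K : Finset P} {w v w' v' : P}

lemma IV_add2 {V : Finset P} (g h : Finset P → A) :
    IV V (fun S => g S + h S) = IV V g + IV V h := by
  unfold IV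
  rw [← sum_add_distrib]
  exact sum_congr rfl fun S _ => by ring

/-- a property of the sites: they meet `L` -/
def mt (L : Finset P) : Finset P → Prop := fun N => ¬ Disjoint N L

/-- the leading coefficient of a star with one attached near element -/
noncomputable def qq (i : ℕ) (K : Finset P) (psi : P → P) (C : Finset P) (w v : P) : ℤ :=
  lc (st i C).card 1 (IV (st i C) (fun S => IW i w v S *
    GS i (0 : P → ℕ) (RP i K psi C 0 (mt (nz i w ∪ nz i v))) 1 S))

/-- the order zero coefficient of the isolated star -/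
noncomputable def oo (i : ℕ) (C : Finset P) (w v : P) : ℤ :=
  lc (st i C).card 0 (IV (st i C) (IW i w v))

lemma GS_off {T L : Finset P} (H : Gr P r) (hT : T ⊆ near P i) (h : ∀ x ∈ T, Disjoint (nz i x) L)
    (m : ℕ) : Dp (lv P i \ L) (GS i e T m) := by
  refine GS_Dp hT (fun x hx z hz => ?_) m
  rw [mem_sdiff, mem_lv]
  exact ⟨nz_lev H (hT hx) hz, fun h' => disjoint_left.1 (h x hx) hz h'⟩

section

variable {a b c a' b' c' : P} (Q : K9c r i K psi C w v w' v' a b c a' b' c')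
include Q

lemma cheapS (hS : Sc i e) : Cheap 0 i e := by
  obtain ⟨-, -, h1, h2, -⟩ := hS.val (C := C) Q.H Q.hi Q.hi2
  right; right; right
  rw [h1, h2]
  simp

lemma tchS (hS : Sc i e) (x : P) : x ∉ Tch i e := by
  rw [hS.tch Q.H]
  exact notMem_empty x

lemma AS (hS : Sc i e) : AL i e ∪ AU i e = ∅ := by
  obtain ⟨-, -, h1, h2, -⟩ := hS.val (C := C) Q.H Q.hi Q.hi2
  rw [h1, h2, union_empty]

lemma dLR' : Disjoint (nz i w ∪ nz i v) (nz i w' ∪ nz i v') := by
  rw [Q.nzw, Q.nzv, Q.nzw', Q.nzv']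
  have h := Q.nLR
  refine disjoint_of_subset_left ?_ (disjoint_of_subset_right ?_ h)
  · intro x hx
    simp only [mem_union, mem_insert, mem_singleton] at hx ⊢
    tauto
  · intro x hx
    simp only [mem_union, mem_insert, mem_singleton] at hx ⊢
    tauto

/-- the order of a configuration with labels on the left star -/
lemma odL {k : ℕ} (hk : Cheap k i e) {G : Finset P → A} (hG : Rk (lv P i) 0 G) (n : ℕ) :
    od (st i C).card (k + rk n (bt i e w v b))
      (IV (st i C) (fun S => Fe i e S * (WW i e w v n S * G S))) := by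
  apply od_of_Rk
  have h1 := Rk_mul (Rk_of_cheap hk) (Rk_mul (Rk_WW (e := e) Q.H Q.hi Q.hi2 Q.lw Q.lv Q.hb Q.hb1 n) hG)
  rw [add_zero] at h1
  exact h1

/-- the order of a configuration with labels on the right star -/
lemma odR {k : ℕ} (hk : Cheap k i e) {G : Finset P → A} (hG : Rk (lv P i) 0 G) (n : ℕ) :
    od (st i C).card (k + rk n (bt i e w' v' b'))
      (IV (st i C) (fun S => Fe i e S * (WW i e w' v' n S * G S))) := by
  apply od_of_Rk
  have h1 := Rk_mul (Rk_of_cheap hk)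
    (Rk_mul (Rk_WW (e := e) Q.H Q.hi Q.hi2 Q.lw' Q.lv' Q.hb' Q.hb1' n) hG)
  rw [add_zero] at h1
  exact h1

lemma IWR_od : od (st i C).card 0 (IV (st i C) (IW i w' v')) :=
  IW_od Q.w2' Q.v2' (stR Q).1 (stR Q).2

lemma IWL_od : od (st i C).card 0 (IV (st i C) (IW i w v)) :=
  IW_od Q.w2 Q.v2 (stR Q.sym).1 (stR Q.sym).2

lemma rk_le_one (n : ℕ) : rk n 0 ≤ 1 := by
  unfold rk
  split_ifs <;> omega

lemma bt_zero {x y q : P} (h : e q = 0) : bt i e x y q = 0 := by
  unfold bt
  rw [if_neg]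
  omega

lemma memL : a ∈ nz i w ∪ nz i v ∧ b ∈ nz i w ∪ nz i v ∧ c ∈ nz i w ∪ nz i v := by
  rw [Q.nzw, Q.nzv]
  simp

lemma memR : a' ∈ nz i w' ∪ nz i v' ∧ b' ∈ nz i w' ∪ nz i v' ∧ c' ∈ nz i w' ∪ nz i v' := by
  rw [Q.nzw', Q.nzv']
  simp

/-- the right star is isolated: the additional factor lives off the right star -/
lemma partR (hS : Sc i e) (h0 : ∀ z ∈ nz i w' ∪ nz i v', e z = 0) {n1 n2 : ℕ} (hn : n2 ≠ 0)
    {G : Finset P → A} (hG : Dp (lv P i \ (nz i w' ∪ nz i v')) G) (hR : Rk (lv P i) 0 G) :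
    od (st i C).card (rk n1 (bt i e w v b)) (IV (st i C) (fun S => Fe i e S * (WW i e w v n1 S *
      (WW i e w' v' n2 S * G S)))) ∧
    lc (st i C).card (rk n1 (bt i e w v b)) (IV (st i C) (fun S => Fe i e S * (WW i e w v n1 S *
      (WW i e w' v' n2 S * G S)))) =
      lc (st i C).card (rk n1 (bt i e w v b))
        (IV (st i C) (fun S => Fe i e S * (WW i e w v n1 S * G S))) * oo i C w' v' := by
  have h1 := iso_R Q ⟨tchS Q hS w', tchS Q hS v'⟩ h0 (n1 := n1) hn hG sdiff_disjoint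
    (by rw [AS Q hS]; exact disjoint_empty_left _) (dLR' Q)
  have h2 := odL Q (cheapS Q hS) hR n1
  rw [zero_add] at h2
  have h3 := prod_lc h1 h2 (IWR_od Q)
  rw [add_zero] at h3
  exact h3

/-- the left star is isolated -/
lemma partL (hS : Sc i e) (h0 : ∀ z ∈ nz i w ∪ nz i v, e z = 0) {n1 n2 : ℕ} (hn : n1 ≠ 0)
    {G : Finset P → A} (hG : Dp (lv P i \ (nz i w ∪ nz i v)) G) (hR : Rk (lv P i) 0 G) :
    od (st i C).card (rk n2 (bt i e w' v' b')) (IV (st i C) (fun S => Fe i e S *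
      (WW i e w v n1 S * (WW i e w' v' n2 S * G S)))) ∧
    lc (st i C).card (rk n2 (bt i e w' v' b')) (IV (st i C) (fun S => Fe i e S *
      (WW i e w v n1 S * (WW i e w' v' n2 S * G S)))) =
      oo i C w v * lc (st i C).card (rk n2 (bt i e w' v' b'))
        (IV (st i C) (fun S => Fe i e S * (WW i e w' v' n2 S * G S))) := by
  have h1 := iso_L Q ⟨tchS Q hS w, tchS Q hS v⟩ h0 (n2 := n2) hn hG sdiff_disjoint
    (by rw [AS Q hS]; exact disjoint_empty_left _) (dLR' Q)
  have h2 := odR Q (cheapS Q hS) hR n2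
  rw [zero_add] at h2
  have h3 := prod_lc h1 (IWL_od Q) h2
  rw [zero_add] at h3
  exact h3

/-- energy on both stars and nothing on the free elements -/
lemma J9_m0 (e : P → ℕ) (n1 n2 : ℕ) : J9 i K psi C w v w' v' e n1 n2 0 =
    IV (st i C) (fun S => Fe i e S * (WW i e w v n1 S * (WW i e w' v' n2 S * 1))) := by
  unfold J9
  congr 1
  funext S
  rw [GK_zero Q.H Q.hir]

lemma J9_m0L (e : P → ℕ) (n1 : ℕ) : J9 i K psi C w v w' v' e n1 0 0 =
    IV (st i C) (fun S => Fe i e S * (WW i e w v n1 S * 1)) := by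
  unfold J9
  congr 1
  funext S
  rw [GK_zero Q.H Q.hir, WW0 Q.H Q.hir Q.nw' Q.nv']
  ring

lemma J9_m0R (e : P → ℕ) (n2 : ℕ) : J9 i K psi C w v w' v' e 0 n2 0 =
    IV (st i C) (fun S => Fe i e S * (WW i e w' v' n2 S * 1)) := by
  unfold J9
  congr 1
  funext S
  rw [GK_zero Q.H Q.hir, WW0 Q.H Q.hir Q.nw Q.nv]
  ring

/-- SITES: labels on both stars, the right star is isolated -/
theorem J_iso_R (hS : Sc i e) (h0 : ∀ z ∈ nz i w' ∪ nz i v', e z = 0) (n1 : ℕ) {n2 : ℕ}
    (hn : n2 ≠ 0) : od (st i C).card (rk n1 (bt i e w v b)) (J9 i K psi C w v w' v' e n1 n2 0) ∧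
    lc (st i C).card (rk n1 (bt i e w v b)) (J9 i K psi C w v w' v' e n1 n2 0) =
      lc (st i C).card (rk n1 (bt i e w v b)) (J9 i K psi C w v w' v' e n1 0 0) * oo i C w' v' := by
  rw [J9_m0 Q, J9_m0L Q]
  exact partR Q hS h0 hn (Dp_const _ 1) (Rk_const _ 0 1)

/-- SITES: labels on both stars, the left star is isolated -/
theorem J_iso_L (hS : Sc i e) (h0 : ∀ z ∈ nz i w ∪ nz i v, e z = 0) (n2 : ℕ) {n1 : ℕ}
    (hn : n1 ≠ 0) : od (st i C).card (rk n2 (bt i e w' v' b')) (J9 i K psi C w v w' v' e n1 n2 0) ∧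
    lc (st i C).card (rk n2 (bt i e w' v' b')) (J9 i K psi C w v w' v' e n1 n2 0) =
      oo i C w v * lc (st i C).card (rk n2 (bt i e w' v' b'))
        (J9 i K psi C w v w' v' e 0 n2 0) := by
  rw [J9_m0 Q, J9_m0R Q]
  exact partL Q hS h0 hn (Dp_const _ 1) (Rk_const _ 0 1)

/-! ### one label on the free elements -/

/-- splitting by the right star -/
lemma J9_m1 (e : P → ℕ) (n1 n2 : ℕ) : J9 i K psi C w v w' v' e n1 n2 1 =
    IV (st i C) (fun S => Fe i e S * (WW i e w v n1 S * (WW i e w' v' n2 S *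
      GS i e (RP i K psi C e fun N => ¬ mt (nz i w' ∪ nz i v') N) 1 S))) +
    IV (st i C) (fun S => Fe i e S * (WW i e w v n1 S * (WW i e w' v' n2 S *
      GS i e (RP i K psi C e (mt (nz i w' ∪ nz i v'))) 1 S))) := by
  rw [← IV_add2]
  unfold J9
  congr 1
  funext S
  rw [GK_RP (mt (nz i w' ∪ nz i v')), an1 (fun t : ℕ × ℕ =>
    GS i e (RP i K psi C e (mt (nz i w' ∪ nz i v'))) t.1 S *
    GS i e (RP i K psi C e fun N => ¬ mt (nz i w' ∪ nz i v') N) t.2 S)]
  show _ * (_ * (_ * (GS i e (RP i K psi C e (mt (nz i w' ∪ nz i v'))) 0 S *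
    GS i e (RP i K psi C e fun N => ¬ mt (nz i w' ∪ nz i v') N) 1 S +
    GS i e (RP i K psi C e (mt (nz i w' ∪ nz i v'))) 1 S *
    GS i e (RP i K psi C e fun N => ¬ mt (nz i w' ∪ nz i v') N) 0 S))) = _
  rw [GS_zero Q.H Q.hir (RP_near _), GS_zero Q.H Q.hir (RP_near _)]
  ring

/-- the elements off the right star -/
lemma offR (e : P → ℕ) (m : ℕ) : Dp (lv P i \ (nz i w' ∪ nz i v'))
    (GS i e (RP i K psi C e fun N => ¬ mt (nz i w' ∪ nz i v') N) m) :=
  GS_off Q.H (RP_near _) (fun x hx => by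
    have := (mem_RP.1 hx).2
    unfold mt at this
    rwa [not_not] at this) m

variable {U U' : Finset P} (D : Sep i C w v w' v' U U')
include D

/-- the elements at the right star are off the left star -/
lemma atR (e : P → ℕ) (m : ℕ) : Dp (lv P i \ (nz i w ∪ nz i v))
    (GS i e (RP i K psi C e (mt (nz i w' ∪ nz i v'))) m) := by
  refine GS_off Q.H (RP_near _) (fun x hx => ?_) m
  have h1 := mem_RP.1 hx
  exact disjoint_of_subset_left (D.hR x (RK_near h1.1) (mem_RK.1 h1.1).2 h1.2)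
    (disjoint_of_subset_right D.sL D.hd.symm)

/-- no labels at the stars: one label on the free elements does not help -/
theorem J_m1_zero (hS : Sc i e) (h0 : ∀ z ∈ nz i w ∪ nz i v, e z = 0)
    (h0' : ∀ z ∈ nz i w' ∪ nz i v', e z = 0) {n1 n2 : ℕ} (hn1 : n1 ≠ 0) (hn2 : n2 ≠ 0) :
    lc (st i C).card 2 (J9 i K psi C w v w' v' e n1 n2 1) = 0 := by
  rw [J9_m1 Q, lc_add]
  have h1 := (partR Q hS h0' (n1 := n1) hn2 (offR Q e 1)
    (GS_RP Q.H Q.hi Q.hi2 Q.hM Q.hC _ 1)).1
  have h2 := (partL Q hS h0 (n2 := n2) hn1 (atR Q D e 1)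
    (GS_RP Q.H Q.hi Q.hi2 Q.hM Q.hC _ 1)).1
  rw [bt_zero Q (h0 b (memL Q).2.1)] at h1
  rw [bt_zero Q (h0' b' (memR Q).2.1)] at h2
  have := rk_le_one Q n1
  have := rk_le_one Q n2
  rw [lc_lt (by omega) h1, lc_lt (by omega) h2, add_zero]

/-- the right star with one attached near element; labels at the left star only -/
theorem J_m1_R (hS : Sc i e) (hs : Spt C e) (h0' : ∀ z ∈ U', e z = 0) :
    lc (st i C).card 2 (J9 i K psi C w v w' v' e 1 1 1) = DD i e w v * qq i K psi C w' v' := by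
  have h0'' : ∀ z ∈ nz i w' ∪ nz i v', e z = 0 := fun z hz => h0' z (D.sR hz)
  rw [J9_m1 Q, lc_add]
  have h1 := (partR Q hS h0'' (n1 := 1) one_ne_zero (offR Q e 1)
    (GS_RP Q.H Q.hi Q.hi2 Q.hM Q.hC _ 1)).1
  rw [show rk 1 (bt i e w v b) = 1 from rfl] at h1
  rw [lc_lt (by omega) h1, zero_add]
  have hT : RP i K psi C e (mt (nz i w' ∪ nz i v')) = RP i K psi C 0 (mt (nz i w' ∪ nz i v')) := by
    unfold RP RK Rst
    rw [hS.tch Q.H, (show Sc i (0 : P → ℕ) from fun _ _ => rfl).tch Q.H]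
  have hU : ∀ x ∈ RP i K psi C (0 : P → ℕ) (mt (nz i w' ∪ nz i v')), nz i x ⊆ U' := by
    intro x hx
    have h1 := mem_RP.1 hx
    exact D.hR x (RK_near h1.1) (mem_RK.1 h1.1).2 h1.2
  have h2 : (fun S => Fe i e S * (WW i e w v 1 S * (WW i e w' v' 1 S *
      GS i e (RP i K psi C e (mt (nz i w' ∪ nz i v'))) 1 S))) =
      fun S => (Fe i e S * (WW i e w v 1 S * 1)) * (IW i w' v' S *
        GS i (0 : P → ℕ) (RP i K psi C 0 (mt (nz i w' ∪ nz i v'))) 1 S) := by
    funext S
    rw [WW_iso Q.H Q.hir Q.lw' Q.lv' Q.hb' Q.hb1' (tchS Q hS w') (tchS Q hS v') h0'' one_ne_zero, hT,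
      GS_loc (f := (0 : P → ℕ)) (RP_near _) hU (fun z hz => h0' z hz)]
    ring
  have h3 := IV_prod (V := st i C) (U := nz i w ∪ nz i v) (U' := U')
    (g := fun S => Fe i e S * (WW i e w v 1 S * 1))
    (h := fun S => IW i w' v' S *
        GS i (0 : P → ℕ) (RP i K psi C 0 (mt (nz i w' ∪ nz i v'))) 1 S)
    (by
      intro S S' hSS
      show Fe i e S * (WW i e w v 1 S * 1) = Fe i e S' * (WW i e w v 1 S' * 1)
      rw [Sc_Fe Q.H Q.hi Q.hi2 hS, Sc_Fe Q.H Q.hi Q.hi2 hS, Dp_WW Q.nw Q.nv 1 S S' hSS])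
    (((Dp_IW w' v').mono D.sR).mul' (GS_Dp (RP_near _) hU 1))
    (disjoint_of_subset_left D.sL D.hd)
  have h4 := odL Q (cheapS Q hS) (Rk_const _ 0 1) 1 (e := e)
  rw [zero_add, show rk 1 (bt i e w v b) = 1 from rfl] at h4
  have h5 : od (st i C).card 1 (IV (st i C) (fun S => IW i w' v' S *
        GS i (0 : P → ℕ) (RP i K psi C 0 (mt (nz i w' ∪ nz i v'))) 1 S)) := by
    have hS0 : Sc i (0 : P → ℕ) := fun _ _ => rfl
    have h6 := odR Q (cheapS Q hS0)
      (GS_RP Q.H Q.hi Q.hi2 Q.hM Q.hC (e := (0 : P → ℕ)) (mt (nz i w' ∪ nz i v')) 1) 1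
    rw [zero_add, show rk 1 (bt i (0 : P → ℕ) w' v' b') = 1 from rfl] at h6
    have h7 : (fun S => Fe i (0 : P → ℕ) S * (WW i (0 : P → ℕ) w' v' 1 S *
        GS i (0 : P → ℕ) (RP i K psi C 0 (mt (nz i w' ∪ nz i v'))) 1 S)) = fun S => IW i w' v' S *
        GS i (0 : P → ℕ) (RP i K psi C 0 (mt (nz i w' ∪ nz i v'))) 1 S := by
      funext S
      rw [Sc_Fe Q.H Q.hi Q.hi2 hS0, WW_iso Q.H Q.hir Q.lw' Q.lv' Q.hb' Q.hb1' (tchS Q hS0 w')
        (tchS Q hS0 v') (fun _ _ => rfl) one_ne_zero, one_mul]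
    rw [h7] at h6
    exact h6
  rw [h2]
  have h6 := (prod_lc h3 h4 h5).2
  rw [show 1 + 1 = 2 from rfl] at h6
  rw [h6]
  unfold qq
  congr 1
  have h7 := Q.J100 (hS.core Q.H) hs (k := 0) (hS.val Q.H Q.hi Q.hi2).2.2.2.2.1
  rw [(hS.val (C := C) Q.H Q.hi Q.hi2).2.2.2.2.2, mul_one, J9_m0L Q] at h7
  exact h7

/-- the order of the right star with one attached near element -/
lemma qqR_od : od (st i C).card 1 (IV (st i C) (fun S => IW i w' v' S *
    GS i (0 : P → ℕ) (RP i K psi C 0 (mt (nz i w' ∪ nz i v'))) 1 S)) := by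
  have hS0 : Sc i (0 : P → ℕ) := fun _ _ => rfl
  have h6 := odR Q (cheapS Q hS0)
    (GS_RP Q.H Q.hi Q.hi2 Q.hM Q.hC (e := (0 : P → ℕ)) (mt (nz i w' ∪ nz i v')) 1) 1
  rw [zero_add, show rk 1 (bt i (0 : P → ℕ) w' v' b') = 1 from rfl] at h6
  have h7 : (fun S => Fe i (0 : P → ℕ) S * (WW i (0 : P → ℕ) w' v' 1 S *
      GS i (0 : P → ℕ) (RP i K psi C 0 (mt (nz i w' ∪ nz i v'))) 1 S)) = fun S => IW i w' v' S *
      GS i (0 : P → ℕ) (RP i K psi C 0 (mt (nz i w' ∪ nz i v'))) 1 S := by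
    funext S
    rw [Sc_Fe Q.H Q.hi Q.hi2 hS0, WW_iso Q.H Q.hir Q.lw' Q.lv' Q.hb' Q.hb1' (tchS Q hS0 w')
      (tchS Q hS0 v') (fun _ _ => rfl) one_ne_zero, one_mul]
  rw [h7] at h6
  exact h6

end

end Pool.Agent.GaussPoset.Win.Pb

end

/-! From `Pool.Agent.W_448p_h97.PbM` -/

section

/-!
MP_448cb3_co, G2, case B, window `j`: the empty core with labels on both stars and on the free elements.
helper97.
-/

namespace Pool.Agent.GaussPoset.Win.Pb

set_option linter.unusedSectionVars false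

open Finset W4 Pa
open Pool.Agent.GaussPoset.Win.So (IV IV_chi IV_Fe)
open Pool.Agent.GaussPoset.Win.SO (LowD UppD)

universe u

variable {P : Type u} [Fintype P] [PartialOrder P] [DecidableEq P] {r i : ℕ}
variable {e f : P → ℕ} {psi : P → P} {C K : Finset P} {w v w' v' : P}

section

variable {a b c a' b' c' : P} (Q : K9c r i K psi C w v w' v' a b c a' b' c')
include Q

/-- the value of the configurations of energy two of the right star alone -/
theorem L0_011 : lc (st i C).card 1 (J9 i K psi C w v w' v' (0 : P → ℕ) 0 1 1) =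
    qq i K psi C w' v' := by
  have hS0 : Sc i (0 : P → ℕ) := fun _ _ => rfl
  have h1 : J9 i K psi C w v w' v' (0 : P → ℕ) 0 1 1 =
      IV (st i C) (fun S => IW i w' v' S *
        GS i (0 : P → ℕ) (RP i K psi C 0 fun N => ¬ mt (nz i w' ∪ nz i v') N) 1 S) +
      IV (st i C) (fun S => IW i w' v' S *
        GS i (0 : P → ℕ) (RP i K psi C 0 (mt (nz i w' ∪ nz i v'))) 1 S) := by
    rw [J9_m1 Q]
    congr 1
    · congr 1
      funext S
      rw [Sc_Fe Q.H Q.hi Q.hi2 hS0, WW0 Q.H Q.hir Q.nw Q.nv, WW_iso Q.H Q.hir Q.lw' Q.lv' Q.hb' Q.hb1'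
        (tchS Q hS0 w') (tchS Q hS0 v') (fun _ _ => rfl) one_ne_zero]
      ring
    · congr 1
      funext S
      rw [Sc_Fe Q.H Q.hi Q.hi2 hS0, WW0 Q.H Q.hir Q.nw Q.nv, WW_iso Q.H Q.hir Q.lw' Q.lv' Q.hb' Q.hb1'
        (tchS Q hS0 w') (tchS Q hS0 v') (fun _ _ => rfl) one_ne_zero]
      ring
  rw [h1, lc_add]
  have h2 := IV_prod (V := st i C) (Dp_IW w' v') (offR Q (0 : P → ℕ) 1) disjoint_sdiff
  have h3 : od (st i C).card 0 (IV (st i C)
      (GS i (0 : P → ℕ) (RP i K psi C 0 fun N => ¬ mt (nz i w' ∪ nz i v') N) 1)) :=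
    od_of_Rk (GS_RP Q.H Q.hi Q.hi2 Q.hM Q.hC _ 1)
  have h4 := (prod_lc h2 (IWR_od Q) h3).1
  rw [lc_lt (by omega) h4, zero_add]
  rfl

variable {U U' : Finset P} (D : Sep i C w v w' v' U U')
include D

/-- energy two on the free elements -/
theorem L0_112 : lc (st i C).card 2 (J9 i K psi C w v w' v' (0 : P → ℕ) 1 1 2) =
    qq i K psi C w v * qq i K psi C w' v' := by
  have hS0 : Sc i (0 : P → ℕ) := fun _ _ => rfl
  obtain ⟨pL, hpL⟩ : ∃ pL, pL = mt (nz i w ∪ nz i v) := ⟨_, rfl⟩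
  obtain ⟨pR, hpR⟩ : ∃ pR, pR = mt (nz i w' ∪ nz i v') := ⟨_, rfl⟩
  have hset : (RP i K psi C (0 : P → ℕ) fun N => ¬ pR N ∧ pL N) = RP i K psi C (0 : P → ℕ) pL := by
    ext x
    rw [mem_RP, mem_RP]
    constructor
    · rintro ⟨h1, -, h2⟩
      exact ⟨h1, h2⟩
    · rintro ⟨h1, h2⟩
      refine ⟨h1, ?_, h2⟩
      rw [hpR]
      unfold mt
      rw [not_not]
      rw [hpL] at h2
      exact disjoint_of_subset_left (D.hL x (RK_near h1) (mem_RK.1 h1).2 h2)
        (disjoint_of_subset_right D.sR D.hd)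
  have g0 : ∀ (p : Finset P → Prop) (S : Finset P),
      GS i (0 : P → ℕ) (RP i K psi C (0 : P → ℕ) p) 0 S = 1 :=
    fun p S => GS_zero Q.H Q.hir (RP_near p) S
  have h1 : J9 i K psi C w v w' v' (0 : P → ℕ) 1 1 2 =
      IV (st i C) (fun S => Fe i (0 : P → ℕ) S * (WW i (0 : P → ℕ) w v 1 S *
        (WW i (0 : P → ℕ) w' v' 1 S * GS i (0 : P → ℕ) (RP i K psi C 0 fun N => ¬ pR N) 2 S))) +
      (IV (st i C) (fun S => Fe i (0 : P → ℕ) S * (WW i (0 : P → ℕ) w v 1 S *
        (WW i (0 : P → ℕ) w' v' 1 S * GS i (0 : P → ℕ) (RP i K psi C 0 pR) 2 S))) +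
      (IV (st i C) (fun S => Fe i (0 : P → ℕ) S * (WW i (0 : P → ℕ) w v 1 S *
        (WW i (0 : P → ℕ) w' v' 1 S * (GS i (0 : P → ℕ) (RP i K psi C 0 pR) 1 S *
          GS i (0 : P → ℕ) (RP i K psi C 0 fun N => ¬ pR N ∧ ¬ pL N) 1 S)))) +
      IV (st i C) (fun S => (IW i w v S * GS i (0 : P → ℕ) (RP i K psi C 0 pL) 1 S) *
        (IW i w' v' S * GS i (0 : P → ℕ) (RP i K psi C 0 pR) 1 S)))) := by
    rw [← IV_add2, ← IV_add2, ← IV_add2]
    unfold J9
    congr 1
    funext S
    have e1 := GK_RP (i := i) (K := K) (psi := psi) (C := C) (e := (0 : P → ℕ)) pR 2 S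
    rw [an2 (fun t : ℕ × ℕ => GS i 0 (RP i K psi C 0 pR) t.1 S *
      GS i 0 (RP i K psi C 0 fun N => ¬ pR N) t.2 S)] at e1
    have e2 := GS_RP2 (i := i) (K := K) (psi := psi) (C := C) (e := (0 : P → ℕ))
      (fun N => ¬ pR N) pL 1 S
    rw [an1 (fun t : ℕ × ℕ => GS i 0 (RP i K psi C 0 fun N => ¬ pR N ∧ pL N) t.1 S *
      GS i 0 (RP i K psi C 0 fun N => ¬ pR N ∧ ¬ pL N) t.2 S), hset] at e2
    simp only [g0] at e1 e2
    rw [e1, e2, Sc_Fe Q.H Q.hi Q.hi2 hS0, WW_iso Q.H Q.hir Q.lw' Q.lv' Q.hb' Q.hb1'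
        (tchS Q hS0 w') (tchS Q hS0 v') (fun _ _ => rfl) one_ne_zero,
        WW_iso Q.H Q.hir Q.lw Q.lv Q.hb Q.hb1
        (tchS Q hS0 w) (tchS Q hS0 v) (fun _ _ => rfl) one_ne_zero]
    ring
  have z1 := (partR Q hS0 (fun _ _ => rfl) (n1 := 1) one_ne_zero (offR Q (0 : P → ℕ) 2)
    (GS_RP Q.H Q.hi Q.hi2 Q.hM Q.hC _ 2)).1
  have z2 := (partL Q hS0 (fun _ _ => rfl) (n2 := 1) one_ne_zero (atR Q D (0 : P → ℕ) 2)
    (GS_RP Q.H Q.hi Q.hi2 Q.hM Q.hC _ 2)).1
  have z3 := (partL Q hS0 (fun _ _ => rfl) (n2 := 1) one_ne_zero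
    ((atR Q D (0 : P → ℕ) 1).mul' (g' := GS i (0 : P → ℕ)
      (RP i K psi C 0 fun N => ¬ mt (nz i w' ∪ nz i v') N ∧ ¬ mt (nz i w ∪ nz i v) N) 1)
      (GS_off Q.H (RP_near _) (fun x hx => by
        have := (mem_RP.1 hx).2.2
        unfold mt at this
        rwa [not_not] at this) 1))
    (Rk_mul (GS_RP Q.H Q.hi Q.hi2 Q.hM Q.hC _ 1) (GS_RP Q.H Q.hi Q.hi2 Q.hM Q.hC _ 1))).1
  rw [← hpR] at z1 z2 z3
  rw [← hpL] at z3
  rw [show rk 1 (bt i (0 : P → ℕ) w v b) = 1 from rfl] at z1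
  rw [show rk 1 (bt i (0 : P → ℕ) w' v' b') = 1 from rfl] at z2 z3
  have hU : ∀ x ∈ RP i K psi C (0 : P → ℕ) pL, nz i x ⊆ U := by
    intro x hx
    have h1 := mem_RP.1 hx
    rw [hpL] at h1
    exact D.hL x (RK_near h1.1) (mem_RK.1 h1.1).2 h1.2
  have hU' : ∀ x ∈ RP i K psi C (0 : P → ℕ) pR, nz i x ⊆ U' := by
    intro x hx
    have h1 := mem_RP.1 hx
    rw [hpR] at h1
    exact D.hR x (RK_near h1.1) (mem_RK.1 h1.1).2 h1.2
  have z4 := IV_prod (V := st i C)
    (((Dp_IW w v).mono D.sL).mul' (GS_Dp (e := (0 : P → ℕ)) (RP_near _) hU 1))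
    (((Dp_IW w' v').mono D.sR).mul' (GS_Dp (e := (0 : P → ℕ)) (RP_near _) hU' 1)) D.hd
  have oL := qqR_od Q.sym D.sym
  have oR := qqR_od Q D
  rw [← hpL] at oL
  rw [← hpR] at oR
  have z5 := (prod_lc z4 oL oR).2
  rw [show 1 + 1 = 2 from rfl] at z5
  rw [h1, lc_add, lc_add, lc_add, lc_lt (by omega) z1, lc_lt (by omega) z2, lc_lt (by omega) z3,
    z5, zero_add, zero_add, zero_add]
  unfold qq
  rw [← hpL, ← hpR]

/-- the empty core, nothing on the free elements -/
theorem L0_m0 {n1 n2 : ℕ} (hn2 : n2 ≠ 0) :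
    lc (st i C).card 2 (J9 i K psi C w v w' v' (0 : P → ℕ) n1 n2 0) = 0 := by
  have hS0 : Sc i (0 : P → ℕ) := fun _ _ => rfl
  have h := (J_iso_R Q hS0 (fun _ _ => rfl) n1 hn2).1
  rw [bt_zero Q rfl] at h
  exact lc_lt (by have := rk_le_one Q n1; omega) h

/-- the empty core, one label on the free elements -/
theorem L0_m1 {n1 n2 : ℕ} (hn1 : n1 ≠ 0) (hn2 : n2 ≠ 0) :
    lc (st i C).card 2 (J9 i K psi C w v w' v' (0 : P → ℕ) n1 n2 1) = 0 :=
  J_m1_zero Q D (fun _ _ => rfl) (fun _ _ => rfl) (fun _ _ => rfl) hn1 hn2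

end

end Pool.Agent.GaussPoset.Win.Pb

end

/-! From `Pool.Agent.W_448p_h97.PbN` -/

section

/-!
MP_448cb3_co, G2, case B, window `j`: natural cores of energy one and two with labels on both stars.
helper97.
-/

namespace Pool.Agent.GaussPoset.Win.Pb

set_option linter.unusedSectionVars false

open Finset W4 Pa
open Pool.Agent.GaussPoset.Win.So (IV IV_chi IV_Fe)
open Pool.Agent.GaussPoset.Win.SO (PN vp con on)

universe u

variable {P : Type u} [Fintype P] [PartialOrder P] [DecidableEq P] {r i : ℕ}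
variable {e f : P → ℕ} {psi : P → P} {C K : Finset P} {w v w' v' : P}

section

variable {a b c a' b' c' : P} (Q : K9c r i K psi C w v w' v' a b c a' b' c')
include Q

/-! ### energy one -/

/-- the sums over the cores of energy one -/
lemma Co1_st (X : (P → ℕ) → ℤ)
    (h1 : ∀ e, ¬ (AdmL i e ∧ AdmU i e ∧ Disjoint (AL i e) (AU i e)) → X e = 0) :
    ∑ e ∈ Co i K psi C 1, X e = ∑ y ∈ st i C, X (Pi.single y 1) := by
  classical
  have inj : ∀ f ∈ st i C, ∀ f' ∈ st i C,
      (Pi.single f 1 : P → ℕ) = Pi.single f' 1 → f = f' := by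
    intro f _ f' _ h
    by_contra hne
    have := congrFun h f
    rw [Pi.single_eq_same, Pi.single_eq_of_ne hne] at this
    exact one_ne_zero this
  rw [← sum_image (s := st i C) (g := fun y => (Pi.single y 1 : P → ℕ)) (f := X) inj]
  symm
  refine sum_subset ?_ ?_
  · intro e he
    rw [mem_image] at he
    obtain ⟨y, hy, rfl⟩ := he
    obtain ⟨h1, h2⟩ := mem_st.1 hy
    exact Q.co_b h2 h1 1
  · intro e he hn
    rcases Co_one Q.H Q.hi2 he with h | ⟨y, hy, hyC, rfl⟩
    · exact h1 e h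
    · exact absurd (mem_image.2 ⟨y, mem_st.2 ⟨hyC, hy⟩, rfl⟩) hn

/-- the sum of the differences of a star over the sites -/
lemma DD_sum : ∑ y ∈ st i C, DD i (Pi.single y 1 : P → ℕ) w v = 0 := by
  classical
  have hsub : ({a, b, c} : Finset P) ⊆ st i C := by
    intro y hy
    have h1 := memL Q
    have h2 := stR Q.sym
    rw [mem_insert, mem_insert, mem_singleton] at hy
    have : y ∈ nz i w ∪ nz i v := by
      rcases hy with rfl | rfl | rfl
      · exact h1.1
      · exact h1.2.1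
      · exact h1.2.2
    rcases mem_union.1 this with h | h
    · exact h2.1 h
    · exact h2.2 h
  rw [← sum_subset hsub]
  · have hb : b ∉ ({c} : Finset P) := by rw [mem_singleton]; exact Q.nbc
    have ha : a ∉ ({b, c} : Finset P) := by
      rw [mem_insert, mem_singleton, not_or]; exact ⟨Q.nab, Q.nac⟩
    rw [sum_insert ha, sum_insert hb, sum_singleton]
    have hl := Q.lb
    have la : lev a = i := nz_lev Q.H Q.nw (by rw [Q.nzw]; simp)
    have lc' : lev c = i := nz_lev Q.H Q.nv (by rw [Q.nzv]; simp)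
    rw [Q.DDs (Sc_single la 1), Q.DDs (Sc_single hl 1), Q.DDs (Sc_single lc' 1)]
    simp only [Pi.single_apply, Q.nab, Q.nab.symm, Q.nbc, Q.nbc.symm, Q.nac, Q.nac.symm, if_true,
      if_false]
    norm_num
  · intro y hy hn
    rw [mem_insert, mem_insert, mem_singleton, not_or, not_or] at hn
    refine Q.DD0 (Sc_single (mem_st.1 hy).2 1) ⟨?_, ?_, ?_⟩
    · rw [Pi.single_eq_of_ne (Ne.symm hn.1)]
    · rw [Pi.single_eq_of_ne (Ne.symm hn.2.1)]
    · rw [Pi.single_eq_of_ne (Ne.symm hn.2.2)]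

/-- ENERGY ONE, two on the left star, one on the right star -/
theorem S1_210 : ∑ e ∈ Co i K psi C 1, lc (st i C).card 2 (J9 i K psi C w v w' v' e 2 1 0) =
    - oo i C w' v' := by
  rw [Q.sum1 (fun e => lc (st i C).card 2 (J9 i K psi C w v w' v' e 2 1 0))
    (fun e h => by
      show lc (st i C).card 2 (J9 i K psi C w v w' v' e 2 1 0) = 0
      rw [Q.bad h, lc_zero])]
  · have hb := Q.sing b Q.lb Q.mC.2.1
    have hb' := Q.sing b' Q.lb' Q.mC'.2.1
    have n1 := memL Q
    have n1' := memR Q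
    have hd := dLR' Q
    -- the centre of the left star
    have e1 : lc (st i C).card 2 (J9 i K psi C w v w' v' (Pi.single b 1 : P → ℕ) 2 1 0) =
        - oo i C w' v' := by
      have h0 : ∀ z ∈ nz i w' ∪ nz i v', (Pi.single b 1 : P → ℕ) z = 0 := by
        intro z hz
        rw [Pi.single_apply, if_neg]
        rintro rfl
        exact disjoint_left.1 hd n1.2.1 hz
      have h := (J_iso_R Q hb.1 h0 2 one_ne_zero).2
      have hbt : bt i (Pi.single b 1 : P → ℕ) w v b = 1 := by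
        unfold bt
        rw [if_pos]
        refine ⟨?_, tchS Q hb.1 w, tchS Q hb.1 v⟩
        rw [Pi.single_eq_same]
      rw [hbt, show rk 2 1 = 2 from rfl] at h
      rw [h]
      have h2 := Q.J200 hb.2.2.1 hb.2.1 (k := 0) hb.2.2.2.1 (by rw [Pi.single_eq_same])
        (tchS Q hb.1 w) (tchS Q hb.1 v)
      rw [zero_add, hb.2.2.2.2.1, Q.PPb] at h2
      rw [h2]
      ring
    have e2 : lc (st i C).card 2 (J9 i K psi C w v w' v' (Pi.single b' 1 : P → ℕ) 2 1 0) = 0 := by
      have h0 : ∀ z ∈ nz i w ∪ nz i v, (Pi.single b' 1 : P → ℕ) z = 0 := by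
        intro z hz
        rw [Pi.single_apply, if_neg]
        rintro rfl
        exact disjoint_left.1 hd hz n1'.2.1
      have h := (J_iso_L Q hb'.1 h0 1 two_ne_zero).1
      rw [show rk 1 (bt i (Pi.single b' 1 : P → ℕ) w' v' b') = 1 from rfl] at h
      exact lc_lt (by omega) h
    show lc (st i C).card 2 (J9 i K psi C w v w' v' (Pi.single b 1 : P → ℕ) 2 1 0) +
      lc (st i C).card 2 (J9 i K psi C w v w' v' (Pi.single b' 1 : P → ℕ) 2 1 0) = _
    rw [e1, e2, add_zero]
  · intro y hy hyC hyb hyb'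
    have hs := Q.sing y hy hyC
    have hd := dLR' Q
    show lc (st i C).card 2 (J9 i K psi C w v w' v' (Pi.single y 1 : P → ℕ) 2 1 0) = 0
    by_cases hR : y ∈ nz i w' ∪ nz i v'
    · have h0 : ∀ z ∈ nz i w ∪ nz i v, (Pi.single y 1 : P → ℕ) z = 0 := by
        intro z hz
        rw [Pi.single_apply, if_neg]
        rintro rfl
        exact disjoint_left.1 hd hz hR
      have h := (J_iso_L Q hs.1 h0 1 two_ne_zero).1
      rw [show rk 1 (bt i (Pi.single y 1 : P → ℕ) w' v' b') = 1 from rfl] at h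
      exact lc_lt (by omega) h
    · have h0 : ∀ z ∈ nz i w' ∪ nz i v', (Pi.single y 1 : P → ℕ) z = 0 := by
        intro z hz
        rw [Pi.single_apply, if_neg]
        rintro rfl
        exact hR hz
      have h := (J_iso_R Q hs.1 h0 2 one_ne_zero).1
      rw [bt_zero Q (show (Pi.single y 1 : P → ℕ) b = 0 by
        rw [Pi.single_eq_of_ne (Ne.symm hyb)])] at h
      exact lc_lt (by rw [show rk 2 0 = 1 from rfl]; omega) h

variable {U U' : Finset P} (D : Sep i C w v w' v' U U')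
include D

/-- ENERGY ONE, one on each star and one on the free elements -/
theorem S1_111 : ∑ e ∈ Co i K psi C 1, lc (st i C).card 2 (J9 i K psi C w v w' v' e 1 1 1) = 0 := by
  rw [Co1_st Q (fun e => lc (st i C).card 2 (J9 i K psi C w v w' v' e 1 1 1))
    (fun e h => by
      show lc (st i C).card 2 (J9 i K psi C w v w' v' e 1 1 1) = 0
      rw [Q.bad h, lc_zero])]
  have key : ∀ y ∈ st i C,
      lc (st i C).card 2 (J9 i K psi C w v w' v' (Pi.single y 1 : P → ℕ) 1 1 1) =
      DD i (Pi.single y 1 : P → ℕ) w v * qq i K psi C w' v' +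
        DD i (Pi.single y 1 : P → ℕ) w' v' * qq i K psi C w v := by
    intro y hy
    obtain ⟨hyC, hyl⟩ := mem_st.1 hy
    have hs := Q.sing y hyl hyC
    have n1 := memL Q
    have n1' := memR Q
    by_cases hL : y ∈ nz i w ∪ nz i v
    · have h0 : ∀ z ∈ U', (Pi.single y 1 : P → ℕ) z = 0 := by
        intro z hz
        rw [Pi.single_apply, if_neg]
        rintro rfl
        exact disjoint_left.1 D.hd (D.sL hL) hz
      have h1 := J_m1_R Q D hs.1 hs.2.1 h0
      rw [h1, Q.DD0' hs.1 ⟨h0 _ (D.sR n1'.1), h0 _ (D.sR n1'.2.1), h0 _ (D.sR n1'.2.2)⟩,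
        zero_mul, add_zero]
    by_cases hR : y ∈ nz i w' ∪ nz i v'
    · have h0 : ∀ z ∈ U, (Pi.single y 1 : P → ℕ) z = 0 := by
        intro z hz
        rw [Pi.single_apply, if_neg]
        rintro rfl
        exact disjoint_left.1 D.hd hz (D.sR hR)
      have h1 := J_m1_R Q.sym D.sym hs.1 hs.2.1 h0
      rw [J9_sym, h1, Q.DD0 hs.1 ⟨h0 _ (D.sL n1.1), h0 _ (D.sL n1.2.1), h0 _ (D.sL n1.2.2)⟩,
        zero_mul, zero_add]
    · have h0 : ∀ z ∈ nz i w ∪ nz i v, (Pi.single y 1 : P → ℕ) z = 0 := by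
        intro z hz
        rw [Pi.single_apply, if_neg]
        rintro rfl
        exact hL hz
      have h0' : ∀ z ∈ nz i w' ∪ nz i v', (Pi.single y 1 : P → ℕ) z = 0 := by
        intro z hz
        rw [Pi.single_apply, if_neg]
        rintro rfl
        exact hR hz
      rw [J_m1_zero Q D hs.1 h0 h0' one_ne_zero one_ne_zero,
        Q.DD0 hs.1 ⟨h0 _ n1.1, h0 _ n1.2.1, h0 _ n1.2.2⟩,
        Q.DD0' hs.1 ⟨h0' _ n1'.1, h0' _ n1'.2.1, h0' _ n1'.2.2⟩]
      ring
  rw [sum_congr rfl key, sum_add_distrib, ← sum_mul, ← sum_mul, DD_sum Q, DD_sum Q.sym]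
  ring

end

end Pool.Agent.GaussPoset.Win.Pb

end

/-! From `Pool.Agent.W_448p_h97.PbO` -/

section

/-!
MP_448cb3_co, G2, case B, window `j`: natural cores of energy two with one label on each star.  helper97.
-/

namespace Pool.Agent.GaussPoset.Win.Pb

set_option linter.unusedSectionVars false

open Finset W4 Pa
open Pool.Agent.GaussPoset.Win.So (IV IV_chi IV_Fe)
open Pool.Agent.GaussPoset.Win.SO (PN vp con on)

universe u

variable {P : Type u} [Fintype P] [PartialOrder P] [DecidableEq P] {r i : ℕ}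
variable {e f : P → ℕ} {psi : P → P} {C K : Finset P} {w v w' v' : P}

/-- the element meets the sites `L` -/
def NL (i : ℕ) (L : Finset P) (f : P) : Prop := f ∈ L ∨ (f ∈ near P i ∧ ¬ Disjoint (nz i f) L)

lemma FG_one {x : P} {L : Finset P} (H : Gr P r) (hL : ∀ z ∈ L, lev z = i) (hx : nz i x ⊆ L)
    (h : ∀ f, NL i L f → e f = 0) : FG i e x 1 = 1 := by
  classical
  unfold FG
  rw [if_pos]
  refine ⟨fun z hz => ?_, ?_⟩
  · rw [h z (Or.inl (hx hz))]
    omega
  · rw [disjoint_left]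
    intro z hz hz'
    have h0 : e z = 0 := h z (Or.inl (hx hz))
    rw [mem_union] at hz'
    rcases hz' with h1 | h1
    · unfold AL at h1
      rw [mem_filter] at h1
      obtain ⟨y, hy, hy'⟩ := h1.2
      have hl := lev_cov H hy
      have hly := hL z (hx hz)
      have hn : y ∈ near P i := mem_near.2 (Or.inl (by omega))
      have : e y = 0 := by
        refine h y (Or.inr ⟨hn, fun hd => ?_⟩)
        refine disjoint_left.1 hd ?_ (hx hz)
        rw [nz_low (by omega)]
        exact mem_uc.2 hy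
      omega
    · unfold AU at h1
      rw [mem_filter] at h1
      obtain ⟨y, hy, hy'⟩ := h1.2
      have hl := lev_cov H hy
      have hly := hL z (hx hz)
      have hn : y ∈ near P i := mem_near.2 (Or.inr (by omega))
      have : e y = 0 := by
        refine h y (Or.inr ⟨hn, fun hd => ?_⟩)
        refine disjoint_left.1 hd ?_ (hx hz)
        rw [nz_upp (by omega)]
        exact mem_dc.2 hy
      omega

section

variable {a b c a' b' c' : P} (Q : K9c r i K psi C w v w' v' a b c a' b' c')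
include Q

lemma lvL {z : P} (hz : z ∈ nz i w ∪ nz i v) : lev z = i := by
  rcases mem_union.1 hz with h | h
  · exact nz_lev Q.H Q.nw h
  · exact nz_lev Q.H Q.nv h

lemma DD_L {L : Finset P} (hL : L = nz i w ∪ nz i v) (h : ∀ f, NL i L f → e f = 0) :
    DD i e w v = 0 := by
  have h1 : ∀ z ∈ L, lev z = i := fun z hz => lvL Q (by rw [← hL]; exact hz)
  unfold DD
  rw [FG_one Q.H h1 (by rw [hL]; exact subset_union_left) h,
    FG_one Q.H h1 (by rw [hL]; exact subset_union_right) h, sub_self]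

/-- a label at the left star and one at the right star: two sites -/
lemma two_sites {U U' : Finset P} (D : Sep i C w v w' v' U U') (he : e ∈ Co i K psi C 2)
    (hL : DD i e w v ≠ 0) (hR : DD i e w' v' ≠ 0) : ∃ y ∈ nz i w ∪ nz i v,
      ∃ y' ∈ nz i w' ∪ nz i v', e = Pi.single y 1 + Pi.single y' 1 := by
  classical
  obtain ⟨hE, hs, hc⟩ := mem_Co.1 he
  obtain ⟨f, hf, hef⟩ : ∃ f, NL i (nz i w ∪ nz i v) f ∧ e f ≠ 0 := by
    by_contra hcon
    push Not at hcon
    exact hL (DD_L Q rfl hcon)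
  obtain ⟨f', hf', hef'⟩ : ∃ f, NL i (nz i w' ∪ nz i v') f ∧ e f ≠ 0 := by
    by_contra hcon
    push Not at hcon
    exact hR (DD_L Q.sym rfl hcon)
  have hfC : f ∈ C := by
    by_contra h
    exact hef (hs f h)
  have hfC' : f' ∈ C := by
    by_contra h
    exact hef' (hs f' h)
  have lf : lev f = i ∨ f ∈ near P i := by
    rcases hf with h | h
    · exact Or.inl (lvL Q h)
    · exact Or.inr h.1
  have lf' : lev f' = i ∨ f' ∈ near P i := by
    rcases hf' with h | h
    · exact Or.inl (lvL Q.sym h)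
    · exact Or.inr h.1
  have hne : f ≠ f' := by
    rintro rfl
    rcases hf with h | h
    · rcases hf' with h' | h'
      · exact disjoint_left.1 D.hd (D.sL h) (D.sR h')
      · have := lvL Q h
        have := mem_near.1 h'.1
        omega
    · rcases hf' with h' | h'
      · have := lvL Q.sym h'
        have := mem_near.1 h.1
        omega
      · have h1 := D.hL f h.1 hfC h.2
        have h2 := D.hR f h.1 hfC h'.2
        apply h.2
        rw [disjoint_left]
        intro z hz _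
        exact disjoint_left.1 D.hd (h1 hz) (h2 hz)
  have heq := two_eq hne (by omega) (by omega) hE
  have hT : ∀ x, x ∉ Tch i e := by
    intro x hx
    rw [mem_Tch] at hx
    have key : ∀ z, 0 < e z → lev z = i ∨ z ∈ near P i := by
      intro z hz
      rw [heq, Pi.add_apply] at hz
      by_cases h1 : z = f
      · rw [h1]; exact lf
      · by_cases h2 : z = f'
        · rw [h2]; exact lf'
        · rw [Pi.single_eq_of_ne h1, Pi.single_eq_of_ne h2] at hz
          omega
    rcases hx with ⟨h1, z, hz, hz'⟩ | ⟨h1, z, hz, hz'⟩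
    · have hl := lev_cov Q.H hz
      rcases key z hz' with h | h
      · omega
      · have := mem_near.1 h
        omega
    · have hl := lev_cov Q.H hz
      rcases key z hz' with h | h
      · omega
      · have := mem_near.1 h
        omega
  have hcore : ∀ x ∈ near P i, e x = 0 := fun x hx =>
    hc x (mem_Rst.2 ⟨hx, notMem_empty x, hT x, fun h => hT _ h.2⟩)
  refine ⟨f, ?_, f', ?_, heq⟩
  · rcases hf with h | h
    · exact h
    · exact absurd (hcore f h.1) hef
  · rcases hf' with h | h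
    · exact h
    · exact absurd (hcore f' h.1) hef'

end

end Pool.Agent.GaussPoset.Win.Pb

end

/-! From `Pool.Agent.W_448p_h97.PbP` -/

section

/-!
MP_448cb3_co, G2, case B, window `j`: the sum over the natural cores of energy two with one label on each
star.  helper97.
-/

namespace Pool.Agent.GaussPoset.Win.Pb

set_option linter.unusedSectionVars false

open Finset W4 Pa
open Pool.Agent.GaussPoset.Win.So (IV IV_chi IV_Fe)
open Pool.Agent.GaussPoset.Win.SO (PN vp con on con_sub)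

universe u

variable {P : Type u} [Fintype P] [PartialOrder P] [DecidableEq P] {r i : ℕ}
variable {e f : P → ℕ} {psi : P → P} {C K : Finset P} {w v w' v' : P}

section

variable {a b c a' b' c' : P} (Q : K9c r i K psi C w v w' v' a b c a' b' c')
include Q

lemma DD_sum3 : ∑ y ∈ nz i w ∪ nz i v, DD i (Pi.single y 1 : P → ℕ) w v = 0 := by
  have h2 := stR Q.sym
  rw [← DD_sum Q]
  refine sum_subset (union_subset h2.1 h2.2) fun y hy hn => ?_
  have h1 := memL Q
  refine Q.DD0 (Sc_single (mem_st.1 hy).2 1) ⟨?_, ?_, ?_⟩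
  · rw [Pi.single_eq_of_ne]
    rintro rfl
    exact hn h1.1
  · rw [Pi.single_eq_of_ne]
    rintro rfl
    exact hn h1.2.1
  · rw [Pi.single_eq_of_ne]
    rintro rfl
    exact hn h1.2.2

lemma DD_two {y y' : P} (hy : lev y = i) (hy' : y' ∈ nz i w' ∪ nz i v') :
    DD i (Pi.single y 1 + Pi.single y' 1 : P → ℕ) w v = DD i (Pi.single y 1 : P → ℕ) w v := by
  have h1 := memL Q
  have hd := dLR' Q
  have l' := lvL Q.sym hy'
  have hz : ∀ z ∈ nz i w ∪ nz i v, (Pi.single y 1 + Pi.single y' 1 : P → ℕ) z =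
      (Pi.single y 1 : P → ℕ) z := by
    intro z hz
    rw [Pi.add_apply, Pi.single_eq_of_ne (M := fun _ => ℕ) (i := y') (i' := z), add_zero]
    rintro rfl
    exact disjoint_left.1 hd hz hy'
  rw [Q.DDs (Sc_add (Sc_single hy 1) (Sc_single l' 1)), Q.DDs (Sc_single hy 1), hz a h1.1,
    hz b h1.2.1, hz c h1.2.2]

/-- the value of a pendant away from the right star -/
lemma pend_R {p : P} (hp : p ∈ PN i C) (hd : Disjoint (sit i p) (nz i w' ∪ nz i v')) :
    lc (st i C).card 2 (J9 i K psi C w v w' v' (on (con i p)) 1 1 0) =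
      vp i p * NN i w v p * oo i C w' v' := by
  obtain ⟨-, -, -, hA, ho, hv⟩ := pd_val Q.H Q.hi Q.hi2 Q.hC hp
  have hc : IsCore i ∅ (ps K psi) (on (con i p)) := c2_core Q.H hp
  have hs := c2_spt Q.H Q.hC hp
  have hE := (c2_value Q.H Q.hi Q.hi2 Q.hC hp).1
  have hch : Cheap 1 i (on (con i p)) := (k5L Q.toK9).cheap1 hc hs (by omega)
  have hne : (nz i w').Nonempty ∧ (nz i v').Nonempty := by
    constructor
    · rw [← card_pos, Q.w2']; omega
    · rw [← card_pos, Q.v2']; omega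
  have hT : w' ∉ Tch i (on (con i p)) ∧ v' ∉ Tch i (on (con i p)) := by
    constructor
    · intro h
      have h1 := pd_tch Q.H hp h
      obtain ⟨z, hz⟩ := hne.1
      exact disjoint_left.1 hd (by rw [← h1]; exact hz) (mem_union_left _ hz)
    · intro h
      have h1 := pd_tch Q.H hp h
      obtain ⟨z, hz⟩ := hne.2
      exact disjoint_left.1 hd (by rw [← h1]; exact hz) (mem_union_right _ hz)
  have h0 : ∀ z ∈ nz i w' ∪ nz i v', on (con i p) z = 0 := fun z hz =>
    pd_site Q.H hp (lvL Q.sym hz)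
  have h1 := iso_R Q hT h0 (n1 := 1) one_ne_zero (Dp_const ∅ 1) (disjoint_empty_left _)
    (by rw [hA]; exact hd) (dLR' Q)
  rw [← J9_m0 Q, ← J9_m0L Q] at h1
  have h2 := odL Q hch (Rk_const (lv P i) 0 1) 1
  rw [show rk 1 (bt i (on (con i p)) w v b) = 1 from rfl, ← J9_m0L Q] at h2
  have h3 := (prod_lc h1 h2 (IWR_od Q)).2
  rw [add_zero, show 1 + 1 = 2 from rfl] at h3
  rw [h3]
  have h4 := Q.J100 hc hs ho
  rw [show 1 + 1 = 2 from rfl, hv, Q.DDp hp] at h4
  rw [h4]
  unfold oo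
  ring

lemma NN_zero {p : P} (hd : Disjoint (sit i p) (nz i w' ∪ nz i v')) : NN i w' v' p = 0 := by
  unfold NN Nx
  rw [if_pos (disjoint_of_subset_left subset_union_left hd.symm),
    if_pos (disjoint_of_subset_left subset_union_right hd.symm), sub_self]

variable {U U' : Finset P} (D : Sep i C w v w' v' U U')
include D

/-- the value of a pendant -/
lemma pend {p : P} (hp : p ∈ PN i C) :
    lc (st i C).card 2 (J9 i K psi C w v w' v' (on (con i p)) 1 1 0) =
      vp i p * NN i w v p * oo i C w' v' + vp i p * NN i w' v' p * oo i C w v := by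
  by_cases hd : Disjoint (sit i p) (nz i w' ∪ nz i v')
  · rw [pend_R Q hp hd, NN_zero Q hd]
    ring
  · have hd2 : Disjoint (sit i p) (nz i w ∪ nz i v) := by
      obtain ⟨hpC, y, hcon, hyn, hnz, hcard, hlev, hor⟩ := PN_dat Q.H hp
      have hl : lev p ≠ i := by rcases hor with ⟨-, h, -⟩ | ⟨-, h, -⟩ <;> omega
      have hyC : y ∈ C := con_sub Q.H Q.hC hpC hl (by rw [hcon]; simp)
      rw [← hnz] at hd ⊢
      exact disjoint_of_subset_left (D.hR y hyn hyC hd) (disjoint_of_subset_right D.sL D.hd.symm)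
    rw [J9_sym, pend_R Q.sym hp hd2, NN_zero Q.sym hd2]
    ring

/-- ENERGY TWO -/
theorem S2_110 : ∑ e ∈ Co i K psi C 2, lc (st i C).card 2 (J9 i K psi C w v w' v' e 1 1 0) =
    oo i C w' v' * ∑ p ∈ PN i C, vp i p * NN i w v p +
      oo i C w v * ∑ p ∈ PN i C, vp i p * NN i w' v' p := by
  classical
  obtain ⟨T, hT⟩ : ∃ T : Finset (P → ℕ), T = ((nz i w ∪ nz i v) ×ˢ (nz i w' ∪ nz i v')).image
      (fun q => (Pi.single q.1 1 + Pi.single q.2 1 : P → ℕ)) := ⟨_, rfl⟩
  have memT : ∀ e, e ∈ T ↔ ∃ y ∈ nz i w ∪ nz i v, ∃ y' ∈ nz i w' ∪ nz i v',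
      e = Pi.single y 1 + Pi.single y' 1 := by
    intro e
    rw [hT, mem_image]
    constructor
    · rintro ⟨⟨y, y'⟩, hq, rfl⟩
      rw [mem_product] at hq
      exact ⟨y, hq.1, y', hq.2, rfl⟩
    · rintro ⟨y, hy, y', hy', rfl⟩
      exact ⟨(y, y'), mem_product.2 ⟨hy, hy'⟩, rfl⟩
  have hst := stR Q.sym
  have hst' := stR Q
  have inC : ∀ y ∈ nz i w ∪ nz i v, y ∈ C := by
    intro y hy
    rcases mem_union.1 hy with h | h
    · exact (mem_st.1 (hst.1 h)).1
    · exact (mem_st.1 (hst.2 h)).1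
  have inC' : ∀ y ∈ nz i w' ∪ nz i v', y ∈ C := by
    intro y hy
    rcases mem_union.1 hy with h | h
    · exact (mem_st.1 (hst'.1 h)).1
    · exact (mem_st.1 (hst'.2 h)).1
  have TSc : ∀ e ∈ T, Sc i e ∧ Spt C e ∧ ∑ x, e x = 2 := by
    intro e he
    obtain ⟨y, hy, y', hy', rfl⟩ := (memT e).1 he
    have a1 := Q.sing y (lvL Q hy) (inC y hy)
    have a2 := Q.sing y' (lvL Q.sym hy') (inC' y' hy')
    refine ⟨Sc_add a1.1 a2.1, ?_, ?_⟩
    · intro x hx
      rw [Pi.add_apply, a1.2.1 x hx, a2.2.1 x hx]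
    · simp only [Pi.add_apply]
      rw [sum_add_distrib, sum_pi_single' y 1 univ, sum_pi_single' y' 1 univ]
      simp
  have Tsub : T ⊆ Co i K psi C 2 := by
    intro e he
    obtain ⟨h1, h2, h3⟩ := TSc e he
    exact mem_Co.2 ⟨h3, h2, h1.core Q.H⟩
  -- the sum over the pairs of sites
  have sT : ∑ e ∈ T, DD i e w v * DD i e w' v' = 0 := by
    rw [hT, sum_image, sum_product]
    · have key : ∀ y ∈ nz i w ∪ nz i v, ∑ y' ∈ nz i w' ∪ nz i v',
          DD i (Pi.single y 1 + Pi.single y' 1 : P → ℕ) w v *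
            DD i (Pi.single y 1 + Pi.single y' 1 : P → ℕ) w' v' =
          DD i (Pi.single y 1 : P → ℕ) w v *
            ∑ y' ∈ nz i w' ∪ nz i v', DD i (Pi.single y' 1 : P → ℕ) w' v' := by
        intro y hy
        rw [mul_sum]
        refine sum_congr rfl fun y' hy' => ?_
        rw [DD_two Q (lvL Q hy) hy', add_comm (Pi.single y 1 : P → ℕ) (Pi.single y' 1),
          DD_two Q.sym (lvL Q.sym hy') hy]
      refine (sum_congr rfl key).trans ?_
      rw [← sum_mul, DD_sum3 Q, zero_mul]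
    · rintro ⟨y, y'⟩ hq ⟨z, z'⟩ hq' h
      rw [mem_coe, mem_product] at hq hq'
      simp only at h hq hq'
      have hd := dLR' Q
      have n1 : y ≠ z' := fun h' => disjoint_left.1 hd hq.1 (by rw [h']; exact hq'.2)
      have n2 : z ≠ y' := fun h' => disjoint_left.1 hd hq'.1 (by rw [h']; exact hq.2)
      have e1 := congrFun h y
      have e2 := congrFun h y'
      rw [Pi.add_apply, Pi.add_apply, Pi.single_eq_same, Pi.single_eq_of_ne n1] at e1
      rw [Pi.add_apply, Pi.add_apply, Pi.single_eq_same,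
        Pi.single_eq_of_ne (M := fun _ => ℕ) (i := z) (i' := y') n2.symm] at e2
      have f1 : y = z := by
        by_contra hne
        rw [Pi.single_eq_of_ne hne] at e1
        omega
      have f2 : y' = z' := by
        by_contra hne
        rw [Pi.single_eq_of_ne hne] at e2
        omega
      rw [f1, f2]
  have h1 := Q.sum2 (fun e => lc (st i C).card 2 (J9 i K psi C w v w' v' e 1 1 0) -
    if e ∈ T then DD i e w v * DD i e w' v' else 0) (by
      intro e hs hch hc hE
      show lc (st i C).card 2 (J9 i K psi C w v w' v' e 1 1 0) -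
        (if e ∈ T then DD i e w v * DD i e w' v' else 0) = 0
      have ho : od (st i C).card 0 (tC i C e) := SO.dvd_up (SO.cheap_dvd Q.H Q.hC hs hch)
      have h2 := Q.J110 hc hs ho
      rw [zero_add] at h2
      rw [h2]
      by_cases hT : e ∈ T
      · rw [if_pos hT, ((TSc e hT).1.val (C := C) Q.H Q.hi Q.hi2).2.2.2.2.2]
        ring
      · rw [if_neg hT]
        by_cases hL : DD i e w v = 0
        · rw [hL]; ring
        by_cases hR : DD i e w' v' = 0
        · rw [hR]; ring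
        exact absurd ((memT e).2 (two_sites Q D (mem_Co.2 ⟨hE, hs, hc⟩) hL hR)) hT)
  rw [sum_sub_distrib] at h1
  have h2 : ∑ e ∈ Co i K psi C 2, (if e ∈ T then DD i e w v * DD i e w' v' else 0) = 0 := by
    rw [← sum_filter, (filter_mem_eq_inter : (Co i K psi C 2).filter (fun e => e ∈ T) = _),
      inter_eq_right.2 Tsub, sT]
  rw [h2, sub_zero] at h1
  rw [h1]
  have h3 : ∀ p ∈ PN i C, (fun e => lc (st i C).card 2 (J9 i K psi C w v w' v' e 1 1 0) -
      if e ∈ T then DD i e w v * DD i e w' v' else 0) (on (con i p)) =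
      vp i p * NN i w v p * oo i C w' v' + vp i p * NN i w' v' p * oo i C w v := by
    intro p hp
    have hnT : on (con i p) ∉ T := by
      intro h
      obtain ⟨y, hy, y', hy', h'⟩ := (memT _).1 h
      have h4 := congrFun h' y
      rw [pd_site Q.H hp (lvL Q hy), Pi.add_apply, Pi.single_eq_same] at h4
      omega
    show lc (st i C).card 2 (J9 i K psi C w v w' v' (on (con i p)) 1 1 0) -
      (if on (con i p) ∈ T then _ else 0) = _
    rw [if_neg hnT, sub_zero, pend Q D hp]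
  rw [sum_congr rfl h3, sum_add_distrib, ← sum_mul, ← sum_mul]
  ring

end

end Pool.Agent.GaussPoset.Win.Pb

end

/-! From `Pool.Agent.W_448p_h97.PbQ` -/

section

/-!
MP_448cb3_co, G2, case B, window `j`: THE VALUES (2,1) and (4,2) of a component with two stars.  helper97.
-/

namespace Pool.Agent.GaussPoset.Win.Pb

set_option linter.unusedSectionVars false

open Finset W4 Pa
open Pool.Agent.GaussPoset.Win.So (IV IV_chi IV_Fe)
open Pool.Agent.GaussPoset.Win.SO (PN vp con on con_sub)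

universe u

variable {P : Type u} [Fintype P] [PartialOrder P] [DecidableEq P] {r i : ℕ}
variable {e f : P → ℕ} {psi : P → P} {C K : Finset P} {w v w' v' : P}

lemma tri1 (g : ℕ → ℕ → ℕ → ℤ) : ∑ p ∈ antidiagonal 1, ∑ t ∈ antidiagonal p.2,
    (if p.1 ≠ 0 ∧ t.1 ≠ 0 then g p.1 t.1 t.2 else 0) = 0 := by
  simp [Finset.Nat.antidiagonal_succ]

lemma tri0 (g : ℕ → ℕ → ℕ → ℤ) : ∑ p ∈ antidiagonal 0, ∑ t ∈ antidiagonal p.2,
    (if p.1 ≠ 0 ∧ t.1 ≠ 0 then g p.1 t.1 t.2 else 0) = 0 := by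
  simp

lemma tri2 (g : ℕ → ℕ → ℕ → ℤ) : ∑ p ∈ antidiagonal 2, ∑ t ∈ antidiagonal p.2,
    (if p.1 ≠ 0 ∧ t.1 ≠ 0 then g p.1 t.1 t.2 else 0) = g 1 1 0 := by
  simp [Finset.Nat.antidiagonal_succ]

lemma tri3 (g : ℕ → ℕ → ℕ → ℤ) : ∑ p ∈ antidiagonal 3, ∑ t ∈ antidiagonal p.2,
    (if p.1 ≠ 0 ∧ t.1 ≠ 0 then g p.1 t.1 t.2 else 0) = g 1 1 1 + g 1 2 0 + g 2 1 0 := by
  simp [Finset.Nat.antidiagonal_succ]

lemma tri4 (g : ℕ → ℕ → ℕ → ℤ) : ∑ p ∈ antidiagonal 4, ∑ t ∈ antidiagonal p.2,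
    (if p.1 ≠ 0 ∧ t.1 ≠ 0 then g p.1 t.1 t.2 else 0) =
      g 1 1 2 + g 1 2 1 + g 1 3 0 + g 2 1 1 + g 2 2 0 + g 3 1 0 := by
  simp [Finset.Nat.antidiagonal_succ]
  ring

section

variable {a b c a' b' c' : P} (Q : K9c r i K psi C w v w' v' a b c a' b' c')
include Q

lemma lc_ZLR (n l : ℕ) : lc (st i C).card l (ZLR i K psi C w v w' v' n) =
    ∑ q ∈ range (n + 1), ∑ e ∈ Co i K psi C q, ∑ p ∈ antidiagonal (n - q),
      ∑ t ∈ antidiagonal p.2, if p.1 ≠ 0 ∧ t.1 ≠ 0 then
        lc (st i C).card l (J9 i K psi C w v w' v' e p.1 t.1 t.2) else 0 := by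
  unfold ZLR
  simp only [lc_sum]
  refine sum_congr rfl fun q _ => sum_congr rfl fun e _ => sum_congr rfl fun p _ =>
    sum_congr rfl fun t _ => ?_
  split_ifs
  · rfl
  · exact lc_zero _ _

/-- the mixed terms at (2,1) -/
theorem ZLR_two : lc (st i C).card 1 (ZLR i K psi C w v w' v' 2) = 0 := by
  rw [lc_ZLR Q, sum_range_succ, sum_range_succ, sum_range_one]
  have h0 : ∑ e ∈ Co i K psi C 0, ∑ p ∈ antidiagonal (2 - 0), ∑ t ∈ antidiagonal p.2,
      (if p.1 ≠ 0 ∧ t.1 ≠ 0 then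
        lc (st i C).card 1 (J9 i K psi C w v w' v' e p.1 t.1 t.2) else 0) = 0 := by
    rw [Co_zero Q.H, sum_singleton, Nat.sub_zero,
      tri2 (fun x y z => lc (st i C).card 1 (J9 i K psi C w v w' v' (0 : P → ℕ) x y z))]
    have hS0 : Sc i (0 : P → ℕ) := fun _ _ => rfl
    have h := (J_iso_R Q hS0 (fun _ _ => rfl) 1 one_ne_zero).2
    rw [show rk 1 (bt i (0 : P → ℕ) w v b) = 1 from rfl, Q.L0_100, zero_mul] at h
    exact h
  have h1 : ∑ e ∈ Co i K psi C 1, ∑ p ∈ antidiagonal (2 - 1), ∑ t ∈ antidiagonal p.2,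
      (if p.1 ≠ 0 ∧ t.1 ≠ 0 then
        lc (st i C).card 1 (J9 i K psi C w v w' v' e p.1 t.1 t.2) else 0) = 0 :=
    sum_eq_zero fun e _ => tri1 (fun x y z => lc (st i C).card 1 (J9 i K psi C w v w' v' e x y z))
  have h2 : ∑ e ∈ Co i K psi C 2, ∑ p ∈ antidiagonal (2 - 2), ∑ t ∈ antidiagonal p.2,
      (if p.1 ≠ 0 ∧ t.1 ≠ 0 then
        lc (st i C).card 1 (J9 i K psi C w v w' v' e p.1 t.1 t.2) else 0) = 0 :=
    sum_eq_zero fun e _ => tri0 (fun x y z => lc (st i C).card 1 (J9 i K psi C w v w' v' e x y z))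
  rw [h0, h1, h2]
  norm_num

/-- the terms without labels on the stars at (2,1) -/
theorem Z00_two : lc (st i C).card 1 (Z00 i K psi C w v w' v' 2) = ∑ p ∈ PN i C, vp i p := by
  have Q5 := k5L Q.toK9
  unfold Z00
  rw [lc_sum, sum_range_succ, sum_eq_zero, zero_add, lc_sum]
  · rw [Q.sum2 (fun e => lc (st i C).card 1 (J9 i K psi C w v w' v' e 0 0 (2 - 2)))]
    · refine sum_congr rfl fun p hp => ?_
      obtain ⟨-, -, -, hA, ho, hv⟩ := pd_val Q.H Q.hi Q.hi2 Q.hC hp
      have h := Q.J000 (c2_core Q.H hp) (c2_spt Q.H Q.hC hp) ho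
      rw [hv] at h
      exact h
    · intro e hs hch hc hE
      have ho : od (st i C).card 0 (tC i C e) := SO.dvd_up (SO.cheap_dvd Q.H Q.hC hs hch)
      have h := Q.J9_od hch Q.hb Q.hb1 Q.hb' Q.hb1' 0 0 0
      exact lc_lt (by unfold rk; simp) h
  · intro q hq
    rw [mem_range] at hq
    rw [lc_sum]
    refine sum_eq_zero fun e he => ?_
    obtain ⟨h1, h2, h3⟩ := mem_Co.1 he
    have h := Q.J9_od (Q5.cheap0 h3 h2 (by omega)) Q.hb Q.hb1 Q.hb' Q.hb1' 0 0 (2 - q)
    exact lc_lt (by unfold rk; simp) h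

/-- the terms without labels on the stars at (4,2) -/
theorem Z00_four (hb : 1 ≤ (st i C).card) : 2 * lc (st i C).card 2 (Z00 i K psi C w v w' v' 4) =
    ∑ q ∈ P4 i C, vp i q.1 * vp i q.2 - 2 * ((Z4 i C).card - (T4 i C).card : ℤ) := by
  have Q5 := k5L Q.toK9
  rw [← Q5.sum4 hb]
  congr 1
  unfold Z00
  rw [lc_sum, sum_range_succ, sum_eq_zero, zero_add, lc_sum]
  · refine sum_congr rfl fun e he => ?_
    obtain ⟨h1, h2, h3⟩ := mem_Co.1 he
    rw [Nat.sub_self, J9_m0L Q]
    have h4 : (fun S => Fe i e S * (WW i e w v 0 S * 1)) = Fe i e := by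
      funext S
      rw [WW0 Q.H Q.hir Q.nw Q.nv]
      ring
    rw [h4]
    exact congrArg (lc (st i C).card 2) (IV_Fe Q.H Q.part h2)
  · intro q hq
    rw [mem_range] at hq
    rw [lc_sum]
    refine sum_eq_zero fun e he => ?_
    obtain ⟨h1, h2, h3⟩ := mem_Co.1 he
    have h := Q.J9_od (Q5.cheap1 h3 h2 (by omega)) Q.hb Q.hb1 Q.hb' Q.hb1' 0 0 (4 - q)
    exact lc_lt (by unfold rk; simp) h

/-- the leading coefficient of a star with one attached near element -/
theorem qq_val : qq i K psi C w v = dg i K C a - dg i K C c - W4.mm i K C {a, b} +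
    W4.mm i K C {b, c} := by
  have hS0 : Sc i (0 : P → ℕ) := fun _ _ => rfl
  have Q5 := k5L Q.toK9
  have h1 := L0_011 Q.sym
  rw [← h1, J9_sym, J9_left Q.toK9 (hS0.core Q.H), an1, lc_add]
  obtain ⟨-, -, -, -, z5, z6⟩ := Q5.zero_vals Q.uw Q.dv Q.nab Q.nbc Q.nac
  show lc (st i C).card 1 (Jx i K psi C w v 0 0 1 1) + lc (st i C).card 1 (Jx i K psi C w v 0 1 0 1) = _
  rw [z5, z6]
  unfold Dg
  rw [sum_pair Q.nab, sum_pair Q.nbc]
  ring

variable {U U' : Finset P} (D : Sep i C w v w' v' U U')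
include D

/-- the mixed terms at (4,2) -/
theorem ZLR_four : lc (st i C).card 2 (ZLR i K psi C w v w' v' 4) =
    qq i K psi C w v * qq i K psi C w' v' +
      oo i C w' v' * (∑ p ∈ PN i C, vp i p * NN i w v p - 1) +
      oo i C w v * (∑ p ∈ PN i C, vp i p * NN i w' v' p - 1) := by
  rw [lc_ZLR Q, sum_range_succ, sum_range_succ, sum_range_succ, sum_range_succ, sum_range_one]
  have h0 : ∑ e ∈ Co i K psi C 0, ∑ p ∈ antidiagonal (4 - 0), ∑ t ∈ antidiagonal p.2,
      (if p.1 ≠ 0 ∧ t.1 ≠ 0 then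
        lc (st i C).card 2 (J9 i K psi C w v w' v' e p.1 t.1 t.2) else 0) =
      qq i K psi C w v * qq i K psi C w' v' := by
    rw [Co_zero Q.H, sum_singleton, Nat.sub_zero,
      tri4 (fun x y z => lc (st i C).card 2 (J9 i K psi C w v w' v' (0 : P → ℕ) x y z)),
      L0_112 Q D, L0_m1 Q D one_ne_zero two_ne_zero, L0_m1 Q D two_ne_zero one_ne_zero,
      L0_m0 Q D (by norm_num), L0_m0 Q D two_ne_zero, L0_m0 Q D one_ne_zero]
    ring
  have h1 : ∑ e ∈ Co i K psi C 1, ∑ p ∈ antidiagonal (4 - 1), ∑ t ∈ antidiagonal p.2,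
      (if p.1 ≠ 0 ∧ t.1 ≠ 0 then
        lc (st i C).card 2 (J9 i K psi C w v w' v' e p.1 t.1 t.2) else 0) =
      - oo i C w v - oo i C w' v' := by
    rw [sum_congr rfl fun e _ => tri3
      (fun x y z => lc (st i C).card 2 (J9 i K psi C w v w' v' e x y z)), sum_add_distrib,
      sum_add_distrib, S1_111 Q D, S1_210 Q]
    have h2 : ∑ e ∈ Co i K psi C 1, lc (st i C).card 2 (J9 i K psi C w v w' v' e 1 2 0) =
        - oo i C w v := by
      rw [← S1_210 Q.sym]
      exact sum_congr rfl fun e _ => by rw [J9_sym]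
    rw [h2]
    ring
  have h2 : ∑ e ∈ Co i K psi C 2, ∑ p ∈ antidiagonal (4 - 2), ∑ t ∈ antidiagonal p.2,
      (if p.1 ≠ 0 ∧ t.1 ≠ 0 then
        lc (st i C).card 2 (J9 i K psi C w v w' v' e p.1 t.1 t.2) else 0) =
      oo i C w' v' * ∑ p ∈ PN i C, vp i p * NN i w v p +
      oo i C w v * ∑ p ∈ PN i C, vp i p * NN i w' v' p := by
    rw [sum_congr rfl fun e _ => tri2
      (fun x y z => lc (st i C).card 2 (J9 i K psi C w v w' v' e x y z)), S2_110 Q D]
  have h3 : ∑ e ∈ Co i K psi C 3, ∑ p ∈ antidiagonal (4 - 3), ∑ t ∈ antidiagonal p.2,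
      (if p.1 ≠ 0 ∧ t.1 ≠ 0 then
        lc (st i C).card 2 (J9 i K psi C w v w' v' e p.1 t.1 t.2) else 0) = 0 :=
    sum_eq_zero fun e _ => tri1 (fun x y z => lc (st i C).card 2 (J9 i K psi C w v w' v' e x y z))
  have h4 : ∑ e ∈ Co i K psi C 4, ∑ p ∈ antidiagonal (4 - 4), ∑ t ∈ antidiagonal p.2,
      (if p.1 ≠ 0 ∧ t.1 ≠ 0 then
        lc (st i C).card 2 (J9 i K psi C w v w' v' e p.1 t.1 t.2) else 0) = 0 :=
    sum_eq_zero fun e _ => tri0 (fun x y z => lc (st i C).card 2 (J9 i K psi C w v w' v' e x y z))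
  rw [h0, h1, h2, h3, h4]
  ring

end

end Pool.Agent.GaussPoset.Win.Pb

end

/-! From `Pool.Agent.W_448six_h74.SiG` -/

section

/-!
MP_448cb3_co, G2, case B, window `j`: the sum over the natural cores of energy two with one label on each
star, when every pendant is disjoint from one of the stars (the proofs of helper97's `PbO`, `PbP`).
helper74.
-/

namespace Pool.Agent.GaussPoset.Win.Si

set_option linter.unusedSectionVars false

open Finset W4 Pa Pb
open Pool.Agent.GaussPoset.Win.So (IV IV_chi IV_Fe)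
open Pool.Agent.GaussPoset.Win.SO (PN vp con on con_sub mem_PN)

universe u

variable {P : Type u} [Fintype P] [PartialOrder P] [DecidableEq P] {r i : ℕ}
variable {e f : P → ℕ} {psi : P → P} {C K : Finset P} {w v w' v' : P}

/-- every pendant is disjoint from one of the two stars -/
def Wk (i : ℕ) (C : Finset P) (w v w' v' : P) : Prop := ∀ p ∈ PN i C,
  Disjoint (sit i p) (nz i w ∪ nz i v) ∨ Disjoint (sit i p) (nz i w' ∪ nz i v')

/-- a labelled far element below the window, next to a labelled near element -/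
lemma far_low (H : Gr P r) (hs : Spt C e) (hA : AdmL i e) {f g : P}
    (hf : f ∈ near P i) (h2 : (nz i f).card = 2)
    (he : e = Pi.single f 1 + Pi.single g 1) (hg : lev g = i + 2) :
    g ∈ PN i C ∧ sit i g = nz i f := by
  have hgf : g ≠ f := by
    rintro rfl
    have := mem_near.1 hf
    omega
  have eg : e g = 1 := by
    rw [he, Pi.add_apply, Pi.single_eq_same, Pi.single_eq_of_ne hgf]
  have hgC : g ∈ C := by
    by_contra h
    have := hs g h
    omega
  have hne : (uc g).Nonempty := uc_nonempty H (by omega)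
  have key : ∀ y ∈ uc g, y = f := by
    intro y hy
    by_contra hyf
    have hl := lev_cov H (mem_uc.1 hy)
    have hyg : y ≠ g := by
      rintro rfl
      omega
    have e0 : e y = 0 := by
      rw [he, Pi.add_apply, Pi.single_eq_of_ne hyf, Pi.single_eq_of_ne hyg, add_zero]
    obtain ⟨z, hz⟩ := uc_nonempty (x := y) H (by omega)
    exact hA y (by omega) ⟨⟨g, mem_uc.1 hy, by omega⟩, z, mem_uc.1 hz, by omega⟩
  have hu : uc g = {f} := by
    obtain ⟨y, hy⟩ := hne
    have := key y hy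
    subst this
    ext z
    rw [mem_singleton]
    exact ⟨key z, fun h => by rw [h]; exact hy⟩
  have hlf : lev f = i + 1 := by
    have := lev_cov H (mem_uc.1 (by rw [hu]; exact mem_singleton_self f : f ∈ uc g))
    omega
  have hp : g ∈ PN i C := by
    refine mem_PN.2 ⟨hgC, Or.inl (mem_PD.2 ⟨hg, by rw [hu, card_singleton], f, ?_, ?_⟩)⟩
    · exact mem_uc.1 (by rw [hu]; exact mem_singleton_self f)
    · rw [← nz_low hlf, h2]
  refine ⟨hp, ?_⟩
  obtain ⟨-, y, -, -, hnz, -, -, h⟩ := PN_dat H hp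
  rcases h with ⟨-, -, -, h3, -⟩ | ⟨-, h3, -⟩
  · rw [hu, singleton_inj] at h3
    rw [← hnz, h3]
  · omega

/-- a labelled far element above the window, next to a labelled near element -/
lemma far_upp (H : Gr P r) (hir : i ≤ r) (hs : Spt C e) (hA : AdmU i e)
    {f g : P} (hf : f ∈ near P i) (h2 : (nz i f).card = 2)
    (he : e = Pi.single f 1 + Pi.single g 1) (hg : lev g + 2 = i) :
    g ∈ PN i C ∧ sit i g = nz i f := by
  have hgf : g ≠ f := by
    rintro rfl
    have := mem_near.1 hf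
    omega
  have eg : e g = 1 := by
    rw [he, Pi.add_apply, Pi.single_eq_same, Pi.single_eq_of_ne hgf]
  have hgC : g ∈ C := by
    by_contra h
    have := hs g h
    omega
  have hne : (dc g).Nonempty := dc_nonempty H (by omega)
  have key : ∀ y ∈ dc g, y = f := by
    intro y hy
    by_contra hyf
    have hl := lev_cov H (mem_dc.1 hy)
    have hyg : y ≠ g := by
      rintro rfl
      omega
    have e0 : e y = 0 := by
      rw [he, Pi.add_apply, Pi.single_eq_of_ne hyf, Pi.single_eq_of_ne hyg, add_zero]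
    obtain ⟨z, hz⟩ := dc_nonempty (x := y) H (by omega)
    exact hA y (by omega) ⟨⟨g, mem_dc.1 hy, by omega⟩, z, mem_dc.1 hz, by omega⟩
  have hu : dc g = {f} := by
    obtain ⟨y, hy⟩ := hne
    have := key y hy
    subst this
    ext z
    rw [mem_singleton]
    exact ⟨key z, fun h => by rw [h]; exact hy⟩
  have hlf : lev f + 1 = i := by
    have := lev_cov H (mem_dc.1 (by rw [hu]; exact mem_singleton_self f : f ∈ dc g))
    omega
  have hp : g ∈ PN i C := by
    refine mem_PN.2 ⟨hgC, Or.inr (mem_PU.2 ⟨hg, by rw [hu, card_singleton], f, ?_, ?_⟩)⟩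
    · exact mem_dc.1 (by rw [hu]; exact mem_singleton_self f)
    · rw [← nz_upp hlf, h2]
  refine ⟨hp, ?_⟩
  obtain ⟨-, y, -, -, hnz, -, -, h⟩ := PN_dat H hp
  rcases h with ⟨-, h3, -⟩ | ⟨-, -, -, h3, -⟩
  · omega
  · rw [hu, singleton_inj] at h3
    rw [← hnz, h3]

section

variable {a b c a' b' c' : P} (Q : K9c r i K psi C w v w' v' a b c a' b' c')
include Q

/-- a label at the left star and one at the right star: two sites -/
lemma two_sites (D : Wk i C w v w' v') (he : e ∈ Co i K psi C 2) (hA : AdmL i e) (hB : AdmU i e)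
    (hL : DD i e w v ≠ 0) (hR : DD i e w' v' ≠ 0) : ∃ y ∈ nz i w ∪ nz i v,
      ∃ y' ∈ nz i w' ∪ nz i v', e = Pi.single y 1 + Pi.single y' 1 := by
  classical
  obtain ⟨hE, hs, hc⟩ := mem_Co.1 he
  have hdd := dLR' Q
  obtain ⟨f, hf, hef⟩ : ∃ f, NL i (nz i w ∪ nz i v) f ∧ e f ≠ 0 := by
    by_contra hcon
    push Not at hcon
    exact hL (DD_L Q rfl hcon)
  obtain ⟨f', hf', hef'⟩ : ∃ f, NL i (nz i w' ∪ nz i v') f ∧ e f ≠ 0 := by
    by_contra hcon
    push Not at hcon
    exact hR (DD_L Q.sym rfl hcon)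
  have lf : lev f = i ∨ f ∈ near P i := by
    rcases hf with h | h
    · exact Or.inl (lvL Q h)
    · exact Or.inr h.1
  have lf' : lev f' = i ∨ f' ∈ near P i := by
    rcases hf' with h | h
    · exact Or.inl (lvL Q.sym h)
    · exact Or.inr h.1
  -- if all labels are on sites and near elements, then no near element has a label
  have hall : (∀ z, 0 < e z → lev z = i ∨ z ∈ near P i) → ∀ x ∈ near P i, e x = 0 := by
    intro key
    have hT : ∀ x, x ∉ Tch i e := by
      intro x hx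
      rw [mem_Tch] at hx
      rcases hx with ⟨h1, z, hz, hz'⟩ | ⟨h1, z, hz, hz'⟩
      · have hl := lev_cov Q.H hz
        rcases key z hz' with h | h
        · omega
        · have := mem_near.1 h
          omega
      · have hl := lev_cov Q.H hz
        rcases key z hz' with h | h
        · omega
        · have := mem_near.1 h
          omega
    exact fun x hx => hc x (mem_Rst.2 ⟨hx, notMem_empty x, hT x, fun h => hT _ h.2⟩)
  have hne : f ≠ f' := by
    rintro rfl
    -- `f` is a near element at both stars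
    have hfn : f ∈ near P i ∧ ¬ Disjoint (nz i f) (nz i w ∪ nz i v) ∧
        ¬ Disjoint (nz i f) (nz i w' ∪ nz i v') := by
      rcases hf with h | h
      · rcases hf' with h' | h'
        · exact absurd h' (disjoint_left.1 hdd h)
        · have := lvL Q h
          have := mem_near.1 h'.1
          omega
      · rcases hf' with h' | h'
        · have := lvL Q.sym h'
          have := mem_near.1 h.1
          omega
        · exact ⟨h.1, h.2, h'.2⟩
    obtain ⟨n1, n2, n3⟩ := hfn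
    have hcard : (nz i f).card = 2 := by
      obtain ⟨y, hy, hy'⟩ := not_disjoint_iff.1 n2
      obtain ⟨z, hz, hz'⟩ := not_disjoint_iff.1 n3
      have hyz : y ≠ z := by
        rintro rfl
        exact disjoint_left.1 hdd hy' hz'
      have h1 : 2 ≤ (nz i f).card := by
        rw [← card_pair hyz]
        refine card_le_card ?_
        intro t ht
        rw [mem_insert, mem_singleton] at ht
        rcases ht with rfl | rfl
        · exact hy
        · exact hz
      have h2 : (nz i f).card ≤ 2 := by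
        rcases mem_near.1 n1 with h | h
        · rw [nz_low h]; exact uc_card_le Q.H f
        · rw [nz_upp h]; exact dc_card_le Q.H f
      omega
    -- a far element has a label
    obtain ⟨g, hg, hgl, hgn⟩ : ∃ g, 0 < e g ∧ lev g ≠ i ∧ g ∉ near P i := by
      by_contra hcon
      push Not at hcon
      refine hef (hall (fun z hz => ?_) f n1)
      by_cases h : lev z = i
      · exact Or.inl h
      · exact Or.inr (hcon z hz h)
    have hfg : f ≠ g := by
      rintro rfl
      exact hgn n1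
    have heq := two_eq hfg (by omega) (by omega) hE
    -- `f` is touched or its partner is
    have hg2 : lev g = i + 2 ∨ lev g + 2 = i := by
      by_contra hcon
      have hT : ∀ x, x ∉ Tch i e := by
        intro x hx
        rw [mem_Tch] at hx
        have key : ∀ z, 0 < e z → z = f ∨ z = g := by
          intro z hz
          rw [heq, Pi.add_apply] at hz
          by_cases h1 : z = f
          · exact Or.inl h1
          · by_cases h2 : z = g
            · exact Or.inr h2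
            · rw [Pi.single_eq_of_ne h1, Pi.single_eq_of_ne h2] at hz
              omega
        have hnf := mem_near.1 n1
        rcases hx with ⟨h1, z, hz, hz'⟩ | ⟨h1, z, hz, hz'⟩
        · have hl := lev_cov Q.H hz
          rcases key z hz' with rfl | rfl
          · omega
          · omega
        · have hl := lev_cov Q.H hz
          rcases key z hz' with rfl | rfl
          · omega
          · omega
      exact hef (hc f (mem_Rst.2 ⟨n1, notMem_empty f, hT f, fun h => hT _ h.2⟩))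
    have hend : g ∈ PN i C ∧ sit i g = nz i f := by
      rcases hg2 with h | h
      · exact far_low Q.H hs hA n1 hcard heq h
      · exact far_upp Q.H Q.hir hs hB n1 hcard heq h
    rcases D g hend.1 with h | h
    · exact n2 (by rw [← hend.2]; exact h)
    · exact n3 (by rw [← hend.2]; exact h)
  have heq := two_eq hne (by omega) (by omega) hE
  have hcore : ∀ x ∈ near P i, e x = 0 := by
    refine hall fun z hz => ?_
    rw [heq, Pi.add_apply] at hz
    by_cases h1 : z = f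
    · rw [h1]; exact lf
    · by_cases h2 : z = f'
      · rw [h2]; exact lf'
      · rw [Pi.single_eq_of_ne h1, Pi.single_eq_of_ne h2] at hz
        omega
  refine ⟨f, ?_, f', ?_, heq⟩
  · rcases hf with h | h
    · exact h
    · exact absurd (hcore f h.1) hef
  · rcases hf' with h | h
    · exact h
    · exact absurd (hcore f' h.1) hef'

variable (D : Wk i C w v w' v')
include D

/-- the value of a pendant -/
lemma pend {p : P} (hp : p ∈ PN i C) :
    lc (st i C).card 2 (J9 i K psi C w v w' v' (on (con i p)) 1 1 0) =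
      vp i p * NN i w v p * oo i C w' v' + vp i p * NN i w' v' p * oo i C w v := by
  by_cases hd : Disjoint (sit i p) (nz i w' ∪ nz i v')
  · rw [pend_R Q hp hd, NN_zero Q hd]
    ring
  · have hd2 : Disjoint (sit i p) (nz i w ∪ nz i v) := by
      rcases D p hp with h | h
      · exact h
      · exact absurd h hd
    rw [J9_sym, pend_R Q.sym hp hd2, NN_zero Q.sym hd2]
    ring

end

end Pool.Agent.GaussPoset.Win.Si

end
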