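import Mathlib
import Pool.Agent.W_448zz_h61.Ns
import Pool.Agent.W_448zz_h61.M170
import Pool.Agent.W_448zz_h61.M223

/-! From `Pool.Agent.W_448p_h97.PbS` -/

section

/-!
MP_448cb3_co, G2, case B, window `j`: THE PROFILE AND THE FORM of a component with two stars at the ends of
its path of sites: the two stars do not interact.  helper97.
-/

namespace Pool.Agent.GaussPoset.Win.Pb

set_option linter.unusedSectionVars false

open Finset W4 Pa
open Pool.Agent.GaussPoset.Win.SO (PN vp con on con_sub)

universe u

variable {P : Type u} [Fintype P] [PartialOrder P] [DecidableEq P] {r i : ℕ}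
variable {e f : P → ℕ} {psi : P → P} {C K : Finset P} {w v w' v' : P}

lemma lc_sub (b k : ℕ) (X Y : PowerSeries ℤ) : lc b k (X - Y) = lc b k X - lc b k Y := by
  unfold lc
  rw [mul_sub, map_sub]

section

variable {a b c a' b' c' : P} (Q : K9c r i K psi C w v w' v' a b c a' b' c')
include Q

lemma two_pos : 1 ≤ (st i C).card :=
  card_pos.2 ⟨a, (stR Q.sym).1 (by rw [Q.nzw]; simp)⟩

/-- THE VALUE (2,1) of a component with two stars -/
theorem two_al : lc (st i C).card 1 (ZC i C 2) = ∑ p ∈ PN i C, vp i p +
    (dg i K C a - dg i K C c - W4.mm i K C {a, b} + W4.mm i K C {b, c}) +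
    (dg i K C a' - dg i K C c' - W4.mm i K C {a', b'} + W4.mm i K C {b', c'}) := by
  have QL := k5L Q.toK9
  have QR := k5R Q.toK9
  rw [ZC_two Q.toK9, lc_add, lc_sub, lc_add, ZLR_two Q, Z00_two Q,
    QL.al2_raw Q.uw Q.dv Q.nab Q.nbc Q.nac, QR.al2_raw Q.uw' Q.dv' Q.nab' Q.nbc' Q.nac']
  ring

variable {U U' : Finset P} (D : Sep i C w v w' v' U U')
include D

end

section

variable {x : ℕ → P} {m : ℕ} (Q : K9x r i K psi C w v w' v' x m)
include Q

/-- the two stars are separated -/
theorem sep (h7 : 7 ≤ m) : Sep i C w v w' v' {x 0, x 1, x 2, x 3}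
    {x m, x (m - 1), x (m - 2), x (m - 3)} where
  sL := by
    rw [Q.n1, Q.n2]
    intro z hz
    simp only [mem_union, mem_insert, mem_singleton] at hz ⊢
    tauto
  sR := by
    have e1 : m - 1 + 1 = m := by omega
    have e2 : m - 2 + 1 = m - 1 := by omega
    rw [Q.n3, Q.n4, e1, e2]
    intro z hz
    simp only [mem_union, mem_insert, mem_singleton] at hz ⊢
    tauto
  hL := by
    intro y hy hyC hd
    have hm := Q.hm
    have hc := nz_card Q.H Q.hi Q.hi2 hy
    rw [not_disjoint_iff] at hd
    obtain ⟨z, hz, hz'⟩ := hd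
    rw [Q.n1, Q.n2] at hz'
    by_cases h1 : (nz i y).card = 2
    · obtain ⟨t, ht, e⟩ := Q.dbl y hyC hy h1
      rw [e] at hz ⊢
      simp only [mem_union, mem_insert, mem_singleton] at hz hz'
      have hk : ∃ k, k ≤ 2 ∧ z = x k := by
        rcases hz' with (h | h) | h | h
        · exact ⟨0, by omega, h⟩
        · exact ⟨1, by omega, h⟩
        · exact ⟨1, by omega, h⟩
        · exact ⟨2, by omega, h⟩
      obtain ⟨k, hk, e'⟩ := hk
      have : t ≤ 2 := by
        rcases hz with h | h
        · have := (Q.eq_iff (by omega) (by omega)).1 (h.symm.trans e')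
          omega
        · have := (Q.eq_iff (by omega) (by omega)).1 (h.symm.trans e')
          omega
      intro s hs
      have h3 : t = 0 ∨ t = 1 ∨ t = 2 := by omega
      simp only [mem_insert, mem_singleton] at hs ⊢
      rcases h3 with rfl | rfl | rfl
      · rcases hs with h | h
        · exact Or.inl h
        · exact Or.inr (Or.inl h)
      · rcases hs with h | h
        · exact Or.inr (Or.inl h)
        · exact Or.inr (Or.inr (Or.inl h))
      · rcases hs with h | h
        · exact Or.inr (Or.inr (Or.inl h))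
        · exact Or.inr (Or.inr (Or.inr h))
    · obtain ⟨s, hs⟩ := card_eq_one.1 (show (nz i y).card = 1 by omega)
      rw [hs, mem_singleton] at hz
      rw [hs, ← hz]
      intro s' hs'
      rw [mem_singleton] at hs'
      rw [hs']
      simp only [mem_union, mem_insert, mem_singleton] at hz' ⊢
      tauto
  hR := by
    intro y hy hyC hd
    have hm := Q.hm
    have hc := nz_card Q.H Q.hi Q.hi2 hy
    rw [not_disjoint_iff] at hd
    obtain ⟨z, hz, hz'⟩ := hd
    have e1 : m - 1 + 1 = m := by omega
    have e2 : m - 2 + 1 = m - 1 := by omega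
    rw [Q.n3, Q.n4, e1, e2] at hz'
    by_cases h1 : (nz i y).card = 2
    · obtain ⟨t, ht, e⟩ := Q.dbl y hyC hy h1
      rw [e] at hz ⊢
      simp only [mem_union, mem_insert, mem_singleton] at hz hz'
      have hk : ∃ k, m - 2 ≤ k ∧ k ≤ m ∧ z = x k := by
        rcases hz' with (h | h) | h | h
        · exact ⟨m - 1, by omega, by omega, h⟩
        · exact ⟨m, by omega, by omega, h⟩
        · exact ⟨m - 2, by omega, by omega, h⟩
        · exact ⟨m - 1, by omega, by omega, h⟩
      obtain ⟨k, hk, hk', e'⟩ := hk
      have h2 : t = m - 3 ∨ t = m - 2 ∨ t = m - 1 := by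
        rcases hz with h | h
        · have := (Q.eq_iff (by omega) (by omega)).1 (h.symm.trans e')
          omega
        · have := (Q.eq_iff (by omega) (by omega)).1 (h.symm.trans e')
          omega
      have e3 : m - 3 + 1 = m - 2 := by omega
      intro s hs
      rcases h2 with rfl | rfl | rfl
      · rw [e3] at hs
        simp only [mem_insert, mem_singleton] at hs ⊢
        tauto
      · rw [e2] at hs
        simp only [mem_insert, mem_singleton] at hs ⊢
        tauto
      · rw [e1] at hs
        simp only [mem_insert, mem_singleton] at hs ⊢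
        tauto
    · obtain ⟨s, hs⟩ := card_eq_one.1 (show (nz i y).card = 1 by omega)
      rw [hs, mem_singleton] at hz
      rw [hs, ← hz]
      intro s' hs'
      rw [mem_singleton] at hs'
      rw [hs']
      simp only [mem_union, mem_insert, mem_singleton] at hz' ⊢
      tauto
  hd := by
    rw [disjoint_left]
    intro z hz hz'
    simp only [mem_insert, mem_singleton] at hz hz'
    have hm := Q.hm
    have h1 : ∃ k, k ≤ 3 ∧ z = x k := by
      rcases hz with h | h | h | h
      · exact ⟨0, by omega, h⟩
      · exact ⟨1, by omega, h⟩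
      · exact ⟨2, by omega, h⟩
      · exact ⟨3, by omega, h⟩
    have h2 : ∃ k, m - 3 ≤ k ∧ k ≤ m ∧ z = x k := by
      rcases hz' with h | h | h | h
      · exact ⟨m, by omega, by omega, h⟩
      · exact ⟨m - 1, by omega, by omega, h⟩
      · exact ⟨m - 2, by omega, by omega, h⟩
      · exact ⟨m - 3, by omega, by omega, h⟩
    obtain ⟨k, hk, e⟩ := h1
    obtain ⟨l, hl, hl', e'⟩ := h2
    have := (Q.eq_iff (by omega) (by omega)).1 (e.symm.trans e')
    omega

/-- PROFILE of a component with two stars when `w32 = 0` -/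
theorem two_prof (h3 : I2.w3 (st i C).card (ZS i C) = 0) : I2.Prof 2 4 (st i C).card (ZS i C) := by
  have z0 := Q.z0
  have z1 := Q.z1
  have z2 := Q.z2
  have z3 : od (st i C).card 1 (ZC i C 3) := by
    refine od_pred Q.od3 ?_
    have : I2.w3 (st i C).card (ZS i C) = lc (st i C).card 2 (ZC i C 3) := by
      unfold I2.w3 lc
      rw [coeff_ZS]
    rw [← this, h3]
  have z4 := Q.z4 fun p hp => Q.NN0 hp
  refine ⟨?_, ?_, ?_⟩
  · intro n hn
    rw [coeff_ZS]
    have : n = 0 ∨ n = 1 := by omega
    rcases this with rfl | rfl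
    · unfold od at z0; rwa [pow_zero, one_mul] at z0
    · unfold od at z1; rwa [pow_zero, one_mul] at z1
  · intro n hn
    rw [coeff_ZS]
    have : n = 0 ∨ n = 1 ∨ n = 2 ∨ n = 3 := by omega
    rcases this with rfl | rfl | rfl | rfl
    · have := od_succ z0
      unfold od at this; rwa [pow_one] at this
    · have := od_succ z1
      unfold od at this; rwa [pow_one] at this
    · unfold od at z2; rwa [pow_one] at z2
    · unfold od at z3; rwa [pow_one] at z3
  · rw [coeff_ZS]
    exact z4

theorem two_eps : I2.eps (st i C).card (ZS i C) = 1 := by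
  unfold I2.eps
  rw [coeff_ZS, ZC_zero Q.H Q.hir C]
  unfold dd
  rw [PowerSeries.coeff_X_pow_self]

theorem K9x_al : I2.al 2 (st i C).card (ZS i C) = ∑ p ∈ PN i C, vp i p +
    (dg i K C (x 0) - dg i K C (x 2) - W4.mm i K C {x 0, x 1} + W4.mm i K C {x 1, x 2}) +
    (dg i K C (x m) - dg i K C (x (m - 2)) - W4.mm i K C {x m, x (m - 1)} +
      W4.mm i K C {x (m - 1), x (m - 2)}) := by
  have e1 : I2.al 2 (st i C).card (ZS i C) = lc (st i C).card 1 (ZC i C 2) := by
    unfold I2.al lc
    rw [coeff_ZS, pow_one]
  rw [e1]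
  exact two_al Q.toK9c

end

end Pool.Agent.GaussPoset.Win.Pb

end

/-! From `Pool.Agent.W_448p_h97.PbZ` -/

section

/-!
MP_448cb3_co, G2, case B, window `j`: `F` of a component with two stars, the statement for `NJ`.
helper97.
-/

namespace Pool.Agent.GaussPoset.EK

set_option linter.unusedSectionVars false

open Finset Win St Polynomial Wd

universe u

variable {P : Type u} [Fintype P] [PartialOrder P] [DecidableEq P] {r i j : ℕ}

variable {m : ℕ} {x : ℕ → P} {c : ℕ → ℤ} {β : ℤ} {t : Tops P}

variable {K : Finset P} {psi : P → P}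

section main

variable (h : NJ P r j) (hj : 2 ≤ j) (R : Red P j K psi)

include h hj R

/-- the profile of a component with two stars, if all the values (3,2) vanish -/
theorem NJ.pat6_prof (hw : I2.w3 (I2.bb j (j + 1) (topOf : P → Tops P) t)
      (I2.VV j (j + 1) (topOf : P → Tops P) t) = 0) (B : RowB P j t m x c β) (hp : Pat6 m c β) :
    I2.Prof 2 4 (I2.bb j (j + 1) (topOf : P → Tops P) t)
      (I2.VV j (j + 1) (topOf : P → Tops P) t) ∧
    I2.eps (I2.bb j (j + 1) (topOf : P → Tops P) t)
      (I2.VV j (j + 1) (topOf : P → Tops P) t) = 1 := by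
  obtain ⟨w, v, w', v', Q⟩ := Pa.exists_k9x h B hp hj R
  exact ⟨Pb.two_prof Q hw, Pb.two_eps Q⟩

end main

end Pool.Agent.GaussPoset.EK

end
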