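import Mathlib
import Pool.Agent.W_448zz_h61.Ns
import Pool.Agent.W_448zz_h61.M165
import Pool.Agent.W_448zz_h61.M212
import Pool.Agent.W_448zz_h61.M214
import Pool.Agent.W_448zz_h61.M224

/-! From `Pool.Agent.W_448p_h97.PbR` -/

section

/-!
MP_448cb3_co, G2, case B, window `j`: THE FORM of one star and of a component with two stars
(the statements of `W_448w4_h10` for a star in a larger set `K` of unmatched doubles, the same proofs:
written by a script from the files of helper10).  helper97.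
-/

namespace Pool.Agent.GaussPoset.Win.Pb

set_option linter.unusedSectionVars false

open Finset W4
open Pool.Agent.GaussPoset.Win.So (IV IV_chi IV_Fe)
open Pool.Agent.GaussPoset.Win.SO (LowD UppD val_gen PN vp con on)

universe u

variable {P : Type u} [Fintype P] [PartialOrder P] [DecidableEq P] {r i : ℕ}
variable {e f : P → ℕ} {psi : P → P} {C K : Finset P} {w v : P}

/-- the value of `al ^ 2 - 2 be` for one star -/
noncomputable def fW (i : ℕ) (K C : Finset P) (w v p q s : P) : ℤ :=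
      ∑ q ∈ M4 i C, vp i q.1 * vp i q.2 + 2 * ((Z4 i C).card - (T4 i C).card : ℤ) + 6 -
      2 * ∑ z ∈ Z4 i C, tz i z * (Nx i w z - Nx i v z) -
      ∑ z ∈ PN i C, vp i z * (ch i C z * (Nx i w z - Nx i v z) + 2 * (Mx i w z - Mx i v z)) -
      2 * ∑ z ∈ PN i C, vp i z * (Nx i w z * (dg i K C p + Ds i K C (sit i z) {p, q}) -
        Nx i v z * (dg i K C s + Ds i K C (sit i z) {q, s})) +
      2 * (dg i K C p + dg i K C s + dg i K C q - 2 * W4.mm i K C {p, q}
        - 2 * W4.mm i K C {q, s} - W4.mm i K C {p, s}) +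
      2 * (∑ z ∈ PN i C, vp i z) *
        (dg i K C p - dg i K C s - W4.mm i K C {p, q} + W4.mm i K C {q, s}) +
      (dg i K C p - dg i K C s - W4.mm i K C {p, q} + W4.mm i K C {q, s}) ^ 2

lemma Dg_split {T U : Finset P} (h : Disjoint U T) :
    Dg i K C (T ∪ U) = Vc i K C + ∑ y ∈ U, dg i K C y + Ds i K C T U := by
  unfold Dg Ds
  rw [sum_union h.symm]
  ring

section

variable (Q : K5w r i K psi C w v) {p q s : P} (hw : uc w = {p, q}) (hv : dc v = {q, s})
  (hpq : p ≠ q) (hqs : q ≠ s) (hps : p ≠ s)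
include Q hw hv hpq hqs hps

end

end Pool.Agent.GaussPoset.Win.Pb

end

/-! From `Pool.Agent.W_448p_h97.PbT` -/

section

/-!
MP_448cb3_co, G2, case B, window `j`: ONE END of the row of a component with the pattern [DL] at both ends
(the computations of helper15 in `W_448kf_h15/KfC` for a row with two such ends).  helper97.
-/

namespace Pool.Agent.GaussPoset.Win.Pb

set_option linter.unusedSectionVars false

open Finset W4 Pa
open Pool.Agent.GaussPoset.Win.SO (PN vp con on mem_PN vp_PD vp_PU)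

universe u

variable {P : Type u} [Fintype P] [PartialOrder P] [DecidableEq P] {r i : ℕ}
variable {psi : P → P} {C K : Finset P} {w v w' v' : P} {m : ℕ} {x : ℕ → P}

/-- the number of lower doubles over the edge `k` of a row with two ends [DL] -/
def dk (m k : ℕ) : ℕ := if k = 0 ∨ k + 1 = m then 2 else if k = 1 ∨ k + 2 = m then 0 else 1

/-- the pattern [DL] at both ends, `w32 = 0` -/
structure DLe (r i : ℕ) (K : Finset P) (C : Finset P) (w v w' v' : P) (m : ℕ) (x : ℕ → P) :
    Prop where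
  W : PRow r i C m x
  hm : 7 ≤ m
  hg : ∀ y ∈ C, lev y = i → dg i K C y = ((dc y).card : ℤ) + (uc y).card
    - (if y ∈ uc w then 1 else 0) - (if y ∈ dc v then 1 else 0)
    - (if y ∈ uc w' then 1 else 0) - (if y ∈ dc v' then 1 else 0)
  hmm : ∀ a b, a < b → b ≤ m → W4.mm i K C {x a, x b} = (dcv (x a) (x b) : ℤ)
    - (if a = 0 ∧ b = 1 then 1 else 0) - (if a + 1 = m ∧ b = m then 1 else 0)
  lw : lev w = i + 1
  lv : lev v + 1 = i
  hw : uc w = {x 0, x 1}
  hv : dc v = {x 1, x 2}
  hw' : uc w' = {x m, x (m - 1)}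
  hv' : dc v' = {x (m - 1), x (m - 2)}
  dn : ∀ k l, k < l → l ≤ m → dcv (x k) (x l) = if l = k + 1 then dk m k else 0
  n2 : NE i C x 2 = 1
  n2' : NE i C x (m - 3) = 1

namespace DLe

variable (h : DLe r i K C w v w' v' m x)
include h

end DLe

end Pool.Agent.GaussPoset.Win.Pb

end

/-! From `Pool.Agent.W_448six_h74.SiA` -/

section

/-!
MP_448cb3_co, G2, case B, window `j`, rows with two stars and few sites: evaluation of products of near
elements by lists of monomials.  helper74.
-/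

namespace Pool.Agent.GaussPoset.Win.Si

set_option linter.unusedSectionVars false

open Finset W4 Pa Pb
open Pool.Agent.GaussPoset.Win.So (IV IV_chi IV_Fe)

universe u

/-- a monomial: the powers of `dd` and `xi`, the killed sites below and above the window -/
structure Mo where
  p : ℕ
  s : ℕ
  a : Finset ℕ
  b : Finset ℕ
deriving DecidableEq

/-- product -/
def Mo.mul (t t' : Mo) : Mo := ⟨t.p + t'.p, t.s + t'.s, t.a ∪ t'.a, t.b ∪ t'.b⟩

/-- the coefficient of order two -/
def Mo.val (t : Mo) : ℤ :=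
  if Disjoint t.a t.b then
    (if t.a.card + t.b.card = t.p + 3 then (-1) ^ (t.a.card + t.s) * ((t.s : ℤ) - t.a.card)
    else if t.a.card + t.b.card = t.p + 2 then (-1) ^ (t.a.card + t.s) else 0)
  else 0

/-- the monomial lives on the sites `0, ..., m` and has at most three deficits -/
def Mo.ok (m : ℕ) (t : Mo) : Prop :=
  t.a ⊆ range (m + 1) ∧ t.b ⊆ range (m + 1) ∧ (Disjoint t.a t.b → t.a.card + t.b.card ≤ t.p + 3)

instance (m : ℕ) (t : Mo) : Decidable (t.ok m) := by unfold Mo.ok; infer_instance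

/-- products of two lists -/
def mulL (L L' : List Mo) : List Mo := L.flatMap fun t => L'.map fun t' => t.mul t'

/-- products of two entries of a list -/
def prL : List Mo → List Mo
  | [] => []
  | t :: l => l.map (fun t' => t.mul t') ++ prL l

/-- the value of a list -/
def valL (L : List Mo) : ℤ := (L.map Mo.val).sum

variable {P : Type u} [Fintype P] [PartialOrder P] [DecidableEq P] {r i : ℕ}
variable {x : ℕ → P} {m : ℕ}

/-- the function of a monomial -/
noncomputable def Mo.ev (x : ℕ → P) (t : Mo) (S : Finset P) : A :=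
  dd ^ t.p * xi ^ t.s * chi (t.a.image x) (t.b.image x) S

/-- the function of a list -/
noncomputable def evL (x : ℕ → P) (L : List Mo) (S : Finset P) : A :=
  (L.map fun t => t.ev x S).sum

lemma ev_mul (t t' : Mo) (S : Finset P) : (t.mul t').ev x S = t.ev x S * t'.ev x S := by
  unfold Mo.ev Mo.mul
  simp only
  rw [image_union, image_union, ← chi_mul, pow_add, pow_add]
  ring

lemma evL_nil (S : Finset P) : evL x [] S = 0 := rfl

lemma evL_cons (t : Mo) (L : List Mo) (S : Finset P) :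
    evL x (t :: L) S = t.ev x S + evL x L S := by
  unfold evL; simp

lemma evL_append (L L' : List Mo) (S : Finset P) :
    evL x (L ++ L') S = evL x L S + evL x L' S := by
  unfold evL; simp

lemma evL_map_mul (t : Mo) (L : List Mo) (S : Finset P) :
    evL x (L.map fun t' => t.mul t') S = t.ev x S * evL x L S := by
  induction L with
  | nil => simp [evL_nil]
  | cons a l ih => rw [List.map_cons, evL_cons, evL_cons, ih, ev_mul]; ring

lemma evL_mul (L L' : List Mo) (S : Finset P) :
    evL x (mulL L L') S = evL x L S * evL x L' S := by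
  induction L with
  | nil => simp [mulL, evL_nil]
  | cons a l ih =>
    have h : mulL (a :: l) L' = (L'.map fun t' => a.mul t') ++ mulL l L' := rfl
    rw [h, evL_append, evL_map_mul, evL_cons, ih]
    ring

/-! ### coefficients -/

lemma co1_mul (f g : A) : PowerSeries.coeff 1 (f * g) =
    PowerSeries.constantCoeff f * PowerSeries.coeff 1 g +
      PowerSeries.coeff 1 f * PowerSeries.constantCoeff g := by
  rw [PowerSeries.coeff_mul, Finset.Nat.antidiagonal_succ]
  simp

lemma co1_pow (f : A) (hf : PowerSeries.constantCoeff f = -1) (n : ℕ) :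
    PowerSeries.constantCoeff (f ^ n) = (-1) ^ n ∧
      PowerSeries.coeff 1 (f ^ n) = - ((-1) ^ n * (n : ℤ)) * PowerSeries.coeff 1 f := by
  induction n with
  | zero => simp
  | succ n ih =>
    refine ⟨by rw [map_pow, hf], ?_⟩
    rw [pow_succ, co1_mul, ih.1, ih.2, hf, pow_succ]
    push_cast
    ring

lemma co1_xx : PowerSeries.coeff 1 (xx : A) = 1 := by
  unfold xx dd
  rw [map_sub, PowerSeries.coeff_one_X, PowerSeries.coeff_one]
  norm_num

lemma co1_xi : PowerSeries.coeff 1 (xi : A) = -1 := by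
  unfold xi
  rw [map_neg, PowerSeries.coeff_mk]

/-- the coefficient of order two of a monomial -/
lemma lc_mono {b n k p s : ℕ} (hk : k ≤ b) (h3 : k ≤ p + 3) :
    lc b 2 (dd ^ p * xi ^ s * (xx ^ n * dd ^ (b - k))) =
      if k = p + 3 then (-1) ^ (n + s) * ((s : ℤ) - n)
      else if k = p + 2 then (-1) ^ (n + s) else 0 := by
  have h1 : (dd ^ 2 * (dd ^ p * xi ^ s * (xx ^ n * dd ^ (b - k))) : A) =
      PowerSeries.X ^ (2 + p + (b - k)) * (xi ^ s * xx ^ n) := by
    unfold dd
    ring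
  unfold lc
  rw [h1, PowerSeries.coeff_X_pow_mul']
  obtain ⟨a1, a2⟩ := co1_pow (xi : A) cc_xi s
  obtain ⟨b1, b2⟩ := co1_pow (xx : A) cc_xx n
  by_cases h : k = p + 3
  · rw [if_pos (by omega), if_pos h, show b - (2 + p + (b - k)) = 1 by omega, co1_mul, a1, a2, b1, b2,
      co1_xx, co1_xi, pow_add]
    ring
  · rw [if_neg h]
    by_cases h2 : k = p + 2
    · rw [if_pos (by omega), if_pos h2, show b - (2 + p + (b - k)) = 0 by omega,
        PowerSeries.coeff_zero_eq_constantCoeff_apply, map_mul, a1, b1, pow_add]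
      ring
    · rw [if_neg (by omega), if_neg h2]

variable (hx : ∀ k l, k ≤ m → l ≤ m → x k = x l → k = l)
include hx

lemma injOn_of {T : Finset ℕ} (hT : T ⊆ range (m + 1)) : Set.InjOn x T := by
  intro k hk l hl h
  have h1 := mem_range.1 (hT hk)
  have h2 := mem_range.1 (hT hl)
  exact hx k l (by omega) (by omega) h

lemma disj_image {S T : Finset ℕ} (hS : S ⊆ range (m + 1)) (hT : T ⊆ range (m + 1)) :
    Disjoint (S.image x) (T.image x) ↔ Disjoint S T := by
  rw [disjoint_left, disjoint_left]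
  constructor
  · intro h k hk hk'
    exact h (mem_image_of_mem x hk) (mem_image_of_mem x hk')
  · intro h y hy hy'
    rw [mem_image] at hy hy'
    obtain ⟨k, hk, rfl⟩ := hy
    obtain ⟨l, hl, h'⟩ := hy'
    have h1 := mem_range.1 (hS hk)
    have h2 := mem_range.1 (hT hl)
    have := hx l k (by omega) (by omega) h'
    subst this
    exact h hk hl

/-- THE VALUE of a monomial -/
lemma ev_val {V : Finset P} (hV : V = (range (m + 1)).image x) {t : Mo} (ht : t.ok m) :
    lc V.card 2 (IV V (t.ev x)) = t.val := by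
  obtain ⟨h1, h2, h3⟩ := ht
  have hVc : V.card = m + 1 := by
    rw [hV, card_image_of_injOn (injOn_of hx Subset.rfl), card_range]
  have hB : t.a.image x ⊆ V := by rw [hV]; exact image_subset_image h1
  have hD : t.b.image x ⊆ V := by rw [hV]; exact image_subset_image h2
  have e1 : IV V (t.ev x) = dd ^ t.p * xi ^ t.s * IV V (chi (t.a.image x) (t.b.image x)) :=
    IV_cmul _ _
  rw [e1, IV_chi hB hD]
  unfold Mo.val
  by_cases hd : Disjoint t.a t.b
  · rw [if_pos ((disj_image hx h1 h2).2 hd), if_pos hd]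
    rw [card_image_of_injOn (injOn_of hx h1), card_image_of_injOn (injOn_of hx h2)]
    have hc : t.a.card + t.b.card ≤ V.card := by
      rw [← card_union_of_disjoint hd, hVc, ← card_range (m + 1)]
      exact card_le_card (union_subset h1 h2)
    rw [Nat.sub_sub]
    exact lc_mono hc (h3 hd)
  · rw [if_neg (fun h => hd ((disj_image hx h1 h2).1 h)), if_neg hd, mul_zero, lc_zero]

/-- THE VALUE of a list -/
lemma evL_val {V : Finset P} (hV : V = (range (m + 1)).image x) {L : List Mo}
    (hL : ∀ t ∈ L, t.ok m) : lc V.card 2 (IV V (evL x L)) = valL L := by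
  induction L with
  | nil =>
    have : IV V (evL x []) = 0 := by
      unfold IV
      refine sum_eq_zero fun S _ => ?_
      rw [evL_nil, mul_zero]
    rw [this, lc_zero]
    rfl
  | cons a l ih =>
    have h1 : IV V (evL x (a :: l)) = IV V (a.ev x) + IV V (evL x l) := by
      rw [← IV_add2]
      rfl
    rw [h1, lc_add, ih fun t ht => hL t (List.mem_cons_of_mem _ ht),
      ev_val hx hV (hL a List.mem_cons_self)]
    unfold valL
    simp

end Pool.Agent.GaussPoset.Win.Si

end

/-! From `Pool.Agent.W_448six_h74.SiB` -/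

section

/-!
MP_448cb3_co, G2, case B, window `j`, rows with two stars and few sites: the near elements of a component
and their labellings as lists of monomials.  helper74.
-/

namespace Pool.Agent.GaussPoset.Win.Si

set_option linter.unusedSectionVars false

open Finset W4 Pa Pb
open Pool.Agent.GaussPoset.Win.So (IV IV_chi IV_Fe)

universe u

/-- the monomial of a near element with label one: `b` for an element below the window, `I` its sites,
`Y` the sites with label one -/
def wm (b : Bool) (I Y : Finset ℕ) : Mo :=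
  if b then ⟨if Disjoint I Y then 1 else 0, 0, I \ Y, ∅⟩
  else ⟨if Disjoint I Y then 1 else 0, if Disjoint I Y then 1 else 0, ∅, I \ Y⟩

lemma wm_t (I Y : Finset ℕ) : wm true I Y = ⟨if Disjoint I Y then 1 else 0, 0, I \ Y, ∅⟩ := rfl

lemma wm_f (I Y : Finset ℕ) : wm false I Y =
    ⟨if Disjoint I Y then 1 else 0, if Disjoint I Y then 1 else 0, ∅, I \ Y⟩ := rfl

/-- sums of products of two entries -/
def prs {M : Type*} [Semiring M] : List M → M
  | [] => 0
  | a :: l => a * l.sum + prs l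

/-- coefficients of a product -/
lemma co_list {M : Type*} [CommRing M] (L : List (ℕ → M)) (h0 : ∀ f ∈ L, f 0 = 1) :
    PowerSeries.coeff 0 (L.map PowerSeries.mk).prod = 1 ∧
      PowerSeries.coeff 1 (L.map PowerSeries.mk).prod = (L.map fun f => f 1).sum ∧
      PowerSeries.coeff 2 (L.map PowerSeries.mk).prod =
        (L.map fun f => f 2).sum + prs (L.map fun f => f 1) := by
  induction L with
  | nil =>
    refine ⟨by simp, ?_, ?_⟩
    · simp [PowerSeries.coeff_one]
    · simp [PowerSeries.coeff_one, prs]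
  | cons f l ih =>
    obtain ⟨i0, i1, i2⟩ := ih fun g hg => h0 g (List.mem_cons_of_mem _ hg)
    have hf := h0 f List.mem_cons_self
    simp only [List.map_cons, List.prod_cons, List.sum_cons, PowerSeries.coeff_mul]
    refine ⟨?_, ?_, ?_⟩
    · rw [an0 (fun p : ℕ × ℕ => PowerSeries.coeff p.1 (PowerSeries.mk f) *
        PowerSeries.coeff p.2 (l.map PowerSeries.mk).prod)]
      simp only [PowerSeries.coeff_mk]
      rw [i0, hf, one_mul]
    · rw [an1 (fun p : ℕ × ℕ => PowerSeries.coeff p.1 (PowerSeries.mk f) *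
        PowerSeries.coeff p.2 (l.map PowerSeries.mk).prod)]
      simp only [PowerSeries.coeff_mk]
      rw [i0, i1, hf]
      ring
    · rw [an2 (fun p : ℕ × ℕ => PowerSeries.coeff p.1 (PowerSeries.mk f) *
        PowerSeries.coeff p.2 (l.map PowerSeries.mk).prod)]
      simp only [PowerSeries.coeff_mk]
      rw [i0, i1, i2, hf]
      simp only [prs]
      ring

variable {P : Type u} [Fintype P] [PartialOrder P] [DecidableEq P] {r i : ℕ}
variable {e f : P → ℕ} {psi : P → P} {C K : Finset P} {w v w' v' : P}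
variable {x : ℕ → P} {m : ℕ}

lemma prs_ev (L : List Mo) (S : Finset P) :
    prs (L.map fun t => t.ev x S) = evL x (prL L) S := by
  induction L with
  | nil => rfl
  | cons a l ih =>
    show a.ev x S * (l.map fun t => t.ev x S).sum + prs (l.map fun t => t.ev x S) =
      evL x ((l.map fun t' => a.mul t') ++ prL l) S
    rw [ih, evL_append, evL_map_mul]
    rfl

lemma kz_wm {y : P} {I Y : Finset ℕ} (hI : nz i y = I.image x) (hm : ∀ k ∈ I, k ≤ m)
    (he : ∀ k, k ≤ m → e (x k) = if k ∈ Y then 1 else 0) : kz i e y 1 = (I \ Y).image x := by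
  ext v
  rw [mem_kz, hI, mem_image, mem_image]
  constructor
  · rintro ⟨⟨k, hk, rfl⟩, h⟩
    refine ⟨k, mem_sdiff.2 ⟨hk, fun hY => ?_⟩, rfl⟩
    rw [he k (hm k hk), if_pos hY] at h
    omega
  · rintro ⟨k, hk, rfl⟩
    rw [mem_sdiff] at hk
    refine ⟨⟨k, hk.1, rfl⟩, ?_⟩
    rw [he k (hm k hk.1), if_neg hk.2]
    omega

lemma fz_wm {y : P} {I Y : Finset ℕ} (hI : nz i y = I.image x) (hm : ∀ k ∈ I, k ≤ m)
    (he : ∀ k, k ≤ m → e (x k) = if k ∈ Y then 1 else 0) :
    fz i e y 1 = if Disjoint I Y then (if lev y = i + 1 then dd else xi * dd) else 1 := by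
  unfold fz
  by_cases hd : Disjoint I Y
  · rw [if_pos hd, if_pos]
    rw [kz_eq_iff, hI]
    intro v hv
    obtain ⟨k, hk, rfl⟩ := mem_image.1 hv
    rw [he k (hm k hk), if_neg (disjoint_left.1 hd hk)]
    omega
  · rw [if_neg hd, if_neg]
    intro h
    rw [kz_eq_iff, hI] at h
    apply hd
    rw [disjoint_left]
    intro k hk hY
    have := h _ (mem_image_of_mem x hk)
    rw [he k (hm k hk), if_pos hY] at this
    omega

/-- THE MONOMIAL of a near element with label one -/
lemma wt_wm {y : P} (hy : y ∈ near P i) {I Y : Finset ℕ} (hI : nz i y = I.image x)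
    (hm : ∀ k ∈ I, k ≤ m) (he : ∀ k, k ≤ m → e (x k) = if k ∈ Y then 1 else 0) (S : Finset P) :
    wt i e y 1 S = (wm (decide (lev y = i + 1)) I Y).ev x S := by
  rcases mem_near.1 hy with h | h
  · rw [wt_low h, kz_wm hI hm he, fz_wm hI hm he, if_pos h, decide_eq_true h, wm_t]
    unfold Mo.ev
    simp only [image_empty, pow_zero, mul_one]
    split_ifs
    · rw [pow_one]
    · rw [pow_zero]
  · have h' : ¬ lev y = i + 1 := by omega
    rw [wt_upp h, kz_wm hI hm he, fz_wm hI hm he, if_neg h', decide_eq_false h', wm_f]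
    unfold Mo.ev
    simp only [image_empty]
    split_ifs
    · rw [pow_one, pow_one, mul_comm (xi : A) dd]
    · rw [pow_zero, pow_zero, one_mul, one_mul, one_mul]

/-- all labels of a near element without labelled sites are alike -/
lemma wt_pos {y : P} (hy : y ∈ near P i) (h0 : ∀ v ∈ nz i y, e v = 0) {a : ℕ} (ha : a ≠ 0)
    (S : Finset P) : wt i e y a S = wt i e y 1 S := by
  have hk : ∀ n, 1 ≤ n → kz i e y n = nz i y := by
    intro n hn
    rw [kz_eq_iff]
    intro v hv
    rw [h0 v hv]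
    omega
  have hf : ∀ n, 1 ≤ n → fz i e y n = if lev y = i + 1 then dd else xi * dd := by
    intro n hn
    unfold fz
    rw [if_pos (hk n hn)]
  have ha' : 1 ≤ a := by omega
  rcases mem_near.1 hy with h | h
  · rw [wt_low h, wt_low h, hk a ha', hk 1 le_rfl, hf a ha', hf 1 le_rfl]
  · rw [wt_upp h, wt_upp h, hk a ha', hk 1 le_rfl, hf a ha', hf 1 le_rfl]

/-- the type of a near element: its side and the indices of its sites -/
noncomputable def ty (i : ℕ) (x : ℕ → P) (m : ℕ) (y : P) : Bool × Finset ℕ :=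
  (decide (lev y = i + 1), (range (m + 1)).filter fun k => x k ∈ nz i y)

lemma ty_le {y : P} : ∀ k ∈ (ty i x m y).2, k ≤ m := by
  intro k hk
  have := mem_range.1 (mem_filter.1 hk).1
  omega

/-- `x 0, ..., x m` are the sites of the component -/
structure Row (i : ℕ) (C : Finset P) (x : ℕ → P) (m : ℕ) : Prop where
  inj : ∀ k l, k ≤ m → l ≤ m → x k = x l → k = l
  st : st i C = (range (m + 1)).image x

lemma Row.nz (R : Row i C x m) (H : Gr P r) (hC : Part (i + 1) C) {y : P} (hy : y ∈ near P i)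
    (hyC : y ∈ C) : W4.nz i y = (ty i x m y).2.image x := by
  ext v
  rw [mem_image]
  constructor
  · intro hv
    have h1 := nz_st H hC hy hyC hv
    rw [R.st, mem_image] at h1
    obtain ⟨k, hk, rfl⟩ := h1
    exact ⟨k, mem_filter.2 ⟨hk, hv⟩, rfl⟩
  · rintro ⟨k, hk, rfl⟩
    exact (mem_filter.1 hk).2

/-- the free near elements of a configuration on the sites -/
lemma RK_N0 (hT : Tch i e = ∅) : RK i K psi C e = N0 i K C := by
  ext y
  rw [mem_RK, mem_Rst, mem_N0, hT]
  constructor
  · rintro ⟨⟨h1, h2, -, -⟩, h3⟩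
    exact ⟨h1, h3, h2⟩
  · rintro ⟨h1, h2, h3⟩
    exact ⟨⟨h1, h3, notMem_empty _, fun h => notMem_empty _ h.2⟩, h2⟩

variable (H : Gr P r) (hir : i ≤ r) (hC : Part (i + 1) C) (R : Row i C x m)
  {T : List (Bool × Finset ℕ)} (hT : (N0 i K C).val.map (ty i x m) = (T : Multiset (Bool × Finset ℕ)))
include H hir hC R hT

/-- one label on the free elements -/
lemma GK1 (hS : Sc i e) {Y : Finset ℕ} (he : ∀ k, k ≤ m → e (x k) = if k ∈ Y then 1 else 0)
    (S : Finset P) : GK i K psi C e 1 S = evL x (T.map fun t => wm t.1 t.2 Y) S := by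
  have h1 : GK i K psi C e 1 S =
      PowerSeries.coeff 1 (GF (fun y a => wt i e y a S) (N0 i K C)) := by
    unfold GK GF
    rw [RK_N0 (hS.tch H), PowerSeries.coeff_mk]
  have h2 : ∀ s : Finset P, (∀ y ∈ s, y ∈ near P i) →
      PowerSeries.constantCoeff (∏ y ∈ s, PowerSeries.mk fun a => wt i e y a S) = 1 ∧
      PowerSeries.coeff 1 (∏ y ∈ s, PowerSeries.mk fun a => wt i e y a S) =
        ∑ y ∈ s, wt i e y 1 S := by
    intro s hs
    classical
    induction s using Finset.induction_on with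
    | empty => simp [PowerSeries.coeff_one]
    | insert y s hy ih =>
      obtain ⟨a1, a2⟩ := ih fun z hz => hs z (mem_insert_of_mem hz)
      rw [prod_insert hy, sum_insert hy]
      have h0 : PowerSeries.constantCoeff (PowerSeries.mk fun a => wt i e y a S) = (1 : A) := by
        rw [← PowerSeries.coeff_zero_eq_constantCoeff_apply, PowerSeries.coeff_mk]
        exact wt_zero H hir (hs y (mem_insert_self _ _)) e S
      refine ⟨by rw [map_mul, h0, a1, one_mul], ?_⟩
      rw [PowerSeries.coeff_mul, an1 (fun p : ℕ × ℕ => PowerSeries.coeff p.1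
        (PowerSeries.mk fun a => wt i e y a S) * PowerSeries.coeff p.2
        (∏ y ∈ s, PowerSeries.mk fun a => wt i e y a S))]
      simp only
      rw [a2, PowerSeries.coeff_zero_eq_constantCoeff_apply,
        PowerSeries.coeff_zero_eq_constantCoeff_apply, a1, h0, PowerSeries.coeff_mk]
      ring
  rw [h1, GF_prod, (h2 _ fun y hy => (mem_N0.1 hy).1).2]
  have h3 : ∀ y ∈ N0 i K C, wt i e y 1 S = (wm (ty i x m y).1 (ty i x m y).2 Y).ev x S := by
    intro y hy
    obtain ⟨a1, a2, -⟩ := mem_N0.1 hy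
    exact wt_wm a1 (R.nz H hC a1 a2) ty_le he S
  rw [sum_congr rfl h3]
  have h4 : ∑ y ∈ N0 i K C, (wm (ty i x m y).1 (ty i x m y).2 Y).ev x S =
      (((N0 i K C).val.map (ty i x m)).map fun t => (wm t.1 t.2 Y).ev x S).sum := by
    rw [Multiset.map_map]
    rfl
  rw [h4, hT, Multiset.map_coe, Multiset.sum_coe]
  unfold evL
  rw [List.map_map]
  rfl

/-- two labels on the free elements -/
lemma GK2 (S : Finset P) : GK i K psi C (0 : P → ℕ) 2 S =
    evL x ((T.map fun t => wm t.1 t.2 ∅) ++ prL (T.map fun t => wm t.1 t.2 ∅)) S := by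
  have hS : Sc i (0 : P → ℕ) := fun _ _ => rfl
  have h1 : GK i K psi C (0 : P → ℕ) 2 S =
      PowerSeries.coeff 2 (GF (fun y a => wt i (0 : P → ℕ) y a S) (N0 i K C)) := by
    unfold GK GF
    rw [RK_N0 (hS.tch H), PowerSeries.coeff_mk]
  have h3 : ∀ y ∈ N0 i K C, (PowerSeries.mk fun a => wt i (0 : P → ℕ) y a S) =
      PowerSeries.mk ((fun t : Bool × Finset ℕ => fun a : ℕ =>
        if a = 0 then (1 : A) else (wm t.1 t.2 ∅).ev x S) (ty i x m y)) := by
    intro y hy
    obtain ⟨a1, a2, -⟩ := mem_N0.1 hy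
    congr 1
    funext a
    by_cases ha : a = 0
    · subst ha
      rw [wt_zero H hir a1]
      simp
    · rw [wt_pos (e := (0 : P → ℕ)) a1 (fun _ _ => rfl) ha]
      simp only [ha, if_false]
      exact wt_wm a1 (R.nz H hC a1 a2) ty_le (fun k _ => by simp) S
  have h4 : ∏ y ∈ N0 i K C, PowerSeries.mk ((fun t : Bool × Finset ℕ => fun a : ℕ =>
        if a = 0 then (1 : A) else (wm t.1 t.2 ∅).ev x S) (ty i x m y)) =
      (((N0 i K C).val.map (ty i x m)).map fun t => PowerSeries.mk
        (fun a : ℕ => if a = 0 then (1 : A) else (wm t.1 t.2 ∅).ev x S)).prod := by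
    rw [Multiset.map_map]
    rfl
  have h5 := co_list (T.map fun t => fun a : ℕ => if a = 0 then (1 : A) else (wm t.1 t.2 ∅).ev x S)
    (by
      intro g hg
      obtain ⟨t, -, rfl⟩ := List.mem_map.1 hg
      simp)
  rw [h1, GF_prod, prod_congr rfl h3, h4, hT, Multiset.map_coe, Multiset.prod_coe]
  have h6 := h5.2.2
  rw [List.map_map, List.map_map, List.map_map] at h6
  rw [evL_append, ← prs_ev]
  unfold evL
  rw [List.map_map]
  exact h6

end Pool.Agent.GaussPoset.Win.Si

end

/-! From `Pool.Agent.W_448six_h74.SiC` -/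

section

/-!
MP_448cb3_co, G2, case B, window `j`, rows with two stars and six or seven sites: the mixed terms with one
or two labels on the free near elements.  helper74.
-/

namespace Pool.Agent.GaussPoset.Win.Si

set_option linter.unusedSectionVars false

open Finset W4 Pa Pb
open Pool.Agent.GaussPoset.Win.So (IV IV_chi IV_Fe)

universe u

/-- the types of the matched near elements: both elements of the matched pairs over the edges in `E`, and
the single upper elements at the ends -/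
def TL (m : ℕ) (E : List ℕ) (a b : ℕ) : List (Bool × Finset ℕ) :=
  (E.flatMap fun k => [(true, {k, k + 1}), (false, {k, k + 1})]) ++
    (List.replicate a (false, {0}) ++ List.replicate b (false, {m}))

/-- the product of the two stars -/
def SL (m : ℕ) (Y : Finset ℕ) (L : List Mo) : List Mo :=
  mulL [wm false {1, 2} Y, wm true {0, 1} Y]
    (mulL [wm false {m - 1, m - 2} Y, wm true {m, m - 1} Y] L)

/-- energy zero on the core, one on each star, two on the free elements -/
def L112 (m : ℕ) (E : List ℕ) (a b : ℕ) : List Mo :=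
  SL m ∅ (((TL m E a b).map fun t => wm t.1 t.2 ∅) ++ prL ((TL m E a b).map fun t => wm t.1 t.2 ∅))

/-- a label on the site `y`, one label on each star, one on the free elements -/
def L111 (m : ℕ) (E : List ℕ) (a b y : ℕ) : List Mo :=
  SL m {y} ((TL m E a b).map fun t => wm t.1 t.2 {y})

/-! ### the numbers -/

lemma v5_11 : valL (L112 5 [0, 2, 4] 1 1) = -1 ∧ ∀ t ∈ L112 5 [0, 2, 4] 1 1, t.ok 5 := by
  decide +kernel
lemma v5_10 : valL (L112 5 [0, 2, 4] 1 0) = -2 ∧ ∀ t ∈ L112 5 [0, 2, 4] 1 0, t.ok 5 := by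
  decide +kernel
lemma v5_01 : valL (L112 5 [0, 2, 4] 0 1) = -2 ∧ ∀ t ∈ L112 5 [0, 2, 4] 0 1, t.ok 5 := by
  decide +kernel
lemma v5_00 : valL (L112 5 [0, 2, 4] 0 0) = -2 ∧ ∀ t ∈ L112 5 [0, 2, 4] 0 0, t.ok 5 := by
  decide +kernel
lemma v6_11 : valL (L112 6 [0, 2, 3, 5] 1 1) = -1 ∧ ∀ t ∈ L112 6 [0, 2, 3, 5] 1 1, t.ok 6 := by
  decide +kernel
lemma v6_10 : valL (L112 6 [0, 2, 3, 5] 1 0) = -1 ∧ ∀ t ∈ L112 6 [0, 2, 3, 5] 1 0, t.ok 6 := by
  decide +kernel
lemma v6_01 : valL (L112 6 [0, 2, 3, 5] 0 1) = -1 ∧ ∀ t ∈ L112 6 [0, 2, 3, 5] 0 1, t.ok 6 := by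
  decide +kernel
lemma v6_00 : valL (L112 6 [0, 2, 3, 5] 0 0) = 0 ∧ ∀ t ∈ L112 6 [0, 2, 3, 5] 0 0, t.ok 6 := by
  decide +kernel

lemma s5 : ∀ a ∈ range 2, ∀ b ∈ range 2,
    ∑ y ∈ range 6, valL (L111 5 [0, 2, 4] a b y) = 8 ∧
      ∀ y ∈ range 6, ∀ t ∈ L111 5 [0, 2, 4] a b y, t.ok 5 := by
  decide +kernel

lemma s6 : ∀ a ∈ range 2, ∀ b ∈ range 2,
    ∑ y ∈ range 7, valL (L111 6 [0, 2, 3, 5] a b y) = 0 ∧
      ∀ y ∈ range 7, ∀ t ∈ L111 6 [0, 2, 3, 5] a b y, t.ok 6 := by
  decide +kernel

/-- one label on each star and one on the free elements -/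
def L011 (m : ℕ) (E : List ℕ) (a b : ℕ) : List Mo :=
  SL m ∅ ((TL m E a b).map fun t => wm t.1 t.2 ∅)

lemma z5 : ∀ a ∈ range 2, ∀ b ∈ range 2, valL (L011 5 [0, 2, 4] a b) = -1 ∧
    ∀ t ∈ L011 5 [0, 2, 4] a b, t.ok 5 := by
  decide +kernel

lemma z6 : ∀ a ∈ range 2, ∀ b ∈ range 2, valL (L011 6 [0, 2, 3, 5] a b) = 0 ∧
    ∀ t ∈ L011 6 [0, 2, 3, 5] a b, t.ok 6 := by
  decide +kernel

variable {P : Type u} [Fintype P] [PartialOrder P] [DecidableEq P] {r i : ℕ}
variable {e f : P → ℕ} {psi : P → P} {C K : Finset P} {w v w' v' : P}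
variable {x : ℕ → P} {m : ℕ}

lemma WW1 (H : Gr P r) (hir : i ≤ r) {y z : P} (hy : y ∈ near P i) (hz : z ∈ near P i)
    (hT : Tch i e = ∅) (S : Finset P) :
    WW i e y z 1 S = wt i e z 1 S + wt i e y 1 S := by
  have h1 : ∀ q, q ∉ Tch i e := fun q => by rw [hT]; exact notMem_empty q
  unfold WW
  rw [an1 (fun p : ℕ × ℕ => tx i e y p.1 S * tx i e z p.2 S)]
  simp only
  rw [tx_free (h1 y), tx_free (h1 y), tx_free (h1 z), tx_free (h1 z), wt_zero H hir hy,
    wt_zero H hir hz]
  ring

section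

variable (Q : K9x r i K psi C w v w' v' x m)
include Q

lemma rowR (hs : ∀ y ∈ C, lev y = i → ∃ k, k ≤ m ∧ x k = y) (hmem : ∀ k, k ≤ m → x k ∈ C)
    (hl : ∀ k, k ≤ m → lev (x k) = i) : Row i C x m where
  inj := Q.inj
  st := by
    ext y
    rw [mem_st, mem_image]
    constructor
    · rintro ⟨h1, h2⟩
      obtain ⟨k, hk, rfl⟩ := hs y h1 h2
      exact ⟨k, mem_range.2 (by omega), rfl⟩
    · rintro ⟨k, hk, rfl⟩
      have := mem_range.1 hk
      exact ⟨hmem k (by omega), hl k (by omega)⟩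

/-- the two stars -/
lemma stars (hS : Sc i e) {Y : Finset ℕ} (he : ∀ k, k ≤ m → e (x k) = if k ∈ Y then 1 else 0)
    (L : List Mo) (S : Finset P) :
    WW i e w v 1 S * (WW i e w' v' 1 S * evL x L S) = evL x (SL m Y L) S := by
  have hm := Q.hm
  have hT := hS.tch Q.H
  have lw : lev w = i + 1 := Q.lw
  have lw' : lev w' = i + 1 := Q.lw'
  have lv : ¬ lev v = i + 1 := by have := Q.lv; omega
  have lv' : ¬ lev v' = i + 1 := by have := Q.lv'; omega
  have a1 := wt_wm (x := x) (m := m) Q.nw (I := {0, 1}) (Y := Y)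
    (by rw [Q.nzw]; simp [image_insert]) (by
      intro k hk; simp only [mem_insert, mem_singleton] at hk; omega) he S
  have a2 := wt_wm (x := x) (m := m) Q.nv (I := {1, 2}) (Y := Y)
    (by rw [Q.nzv]; simp [image_insert]) (by
      intro k hk; simp only [mem_insert, mem_singleton] at hk; omega) he S
  have a3 := wt_wm (x := x) (m := m) Q.nw' (I := {m, m - 1}) (Y := Y)
    (by rw [Q.nzw']; simp [image_insert]) (by
      intro k hk; simp only [mem_insert, mem_singleton] at hk; omega) he S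
  have a4 := wt_wm (x := x) (m := m) Q.nv' (I := {m - 1, m - 2}) (Y := Y)
    (by rw [Q.nzv']; simp [image_insert]) (by
      intro k hk; simp only [mem_insert, mem_singleton] at hk; omega) he S
  rw [WW1 Q.H Q.hir Q.nw Q.nv hT, WW1 Q.H Q.hir Q.nw' Q.nv' hT, a1, a2, a3, a4]
  unfold SL
  rw [evL_mul, evL_mul]
  simp only [evL_cons, evL_nil, add_zero, lw, lw', lv, lv', decide_true, decide_false]

variable {T : List (Bool × Finset ℕ)} (R : Row i C x m)
  (hT : (N0 i K C).val.map (ty i x m) = (T : Multiset (Bool × Finset ℕ)))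
include R hT

/-- energy zero on the core -/
lemma J112 : J9 i K psi C w v w' v' (0 : P → ℕ) 1 1 2 = IV (st i C) (evL x (SL m ∅
    ((T.map fun t => wm t.1 t.2 ∅) ++ prL (T.map fun t => wm t.1 t.2 ∅)))) := by
  have hS : Sc i (0 : P → ℕ) := fun _ _ => rfl
  unfold J9
  congr 1
  funext S
  rw [GK2 Q.H Q.hir Q.hC R hT, stars Q hS (Y := ∅) (fun k _ => by simp), Sc_Fe Q.H Q.hi Q.hi2 hS, one_mul]

/-- energy zero on the core, one label on the free elements -/
lemma J011 : J9 i K psi C w v w' v' (0 : P → ℕ) 1 1 1 = IV (st i C) (evL x (SL m ∅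
    (T.map fun t => wm t.1 t.2 ∅))) := by
  have hS : Sc i (0 : P → ℕ) := fun _ _ => rfl
  unfold J9
  congr 1
  funext S
  rw [GK1 Q.H Q.hir Q.hC R hT hS (Y := ∅) (fun k _ => by simp),
    stars Q hS (Y := ∅) (fun k _ => by simp), Sc_Fe Q.H Q.hi Q.hi2 hS, one_mul]

/-- a label on a site -/
lemma J111 {y : ℕ} (hy : y ≤ m) : J9 i K psi C w v w' v' (Pi.single (x y) 1 : P → ℕ) 1 1 1 =
    IV (st i C) (evL x (SL m {y} (T.map fun t => wm t.1 t.2 {y}))) := by
  have hl : lev (x y) = i := by
    have : x y ∈ st i C := by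
      rw [R.st]; exact mem_image_of_mem x (mem_range.2 (by omega))
    exact (mem_st.1 this).2
  have hS : Sc i (Pi.single (x y) 1 : P → ℕ) := Sc_single hl 1
  have he : ∀ k, k ≤ m → (Pi.single (x y) 1 : P → ℕ) (x k) =
      if k ∈ ({y} : Finset ℕ) then 1 else 0 := by
    intro k hk
    rw [Pi.single_apply]
    by_cases h : k = y
    · rw [if_pos (by rw [h]), if_pos (mem_singleton.2 h)]
    · rw [if_neg (fun h' => h (R.inj k y hk hy h')), if_neg (fun h' => h (mem_singleton.1 h'))]
  unfold J9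
  congr 1
  funext S
  rw [GK1 Q.H Q.hir Q.hC R hT hS he, stars Q hS he, Sc_Fe Q.H Q.hi Q.hi2 hS, one_mul]

/-- the sum over the cores of energy one -/
lemma sum111 (hL : ∀ y ∈ range (m + 1), ∀ t ∈ SL m {y} (T.map fun t => wm t.1 t.2 {y}), t.ok m) :
    ∑ e ∈ Co i K psi C 1, lc (st i C).card 2 (J9 i K psi C w v w' v' e 1 1 1) =
      ∑ y ∈ range (m + 1), valL (SL m {y} (T.map fun t => wm t.1 t.2 {y})) := by
  rw [Co1_st Q.toK9c (fun e => lc (st i C).card 2 (J9 i K psi C w v w' v' e 1 1 1))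
    (fun e h => by
      show lc (st i C).card 2 (J9 i K psi C w v w' v' e 1 1 1) = 0
      rw [Q.bad h, lc_zero])]
  rw [R.st, sum_image (fun k hk l hl h => injOn_of R.inj Subset.rfl hk hl h), ← R.st]
  refine sum_congr rfl fun y hy => ?_
  rw [J111 Q R hT (by have := mem_range.1 hy; omega)]
  exact evL_val R.inj R.st (hL y hy)

end

/-- SIX SITES: energy two on the free elements, and the labelled sites -/
theorem num5 (Q : K9x r i K psi C w v w' v' x 5) (R : Row i C x 5) {a b : ℕ} (ha : a < 2)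
    (hb : b < 2) (hT : (N0 i K C).val.map (ty i x 5) =
      (TL 5 [0, 2, 4] a b : Multiset (Bool × Finset ℕ))) :
    lc (st i C).card 2 (J9 i K psi C w v w' v' (0 : P → ℕ) 1 1 2) = (a : ℤ) * b - 2 ∧
    lc (st i C).card 2 (J9 i K psi C w v w' v' (0 : P → ℕ) 1 1 1) = -1 ∧
    ∑ e ∈ Co i K psi C 1, lc (st i C).card 2 (J9 i K psi C w v w' v' e 1 1 1) = 8 := by
  obtain ⟨h1, h2⟩ := s5 a (mem_range.2 ha) b (mem_range.2 hb)
  obtain ⟨h3, h4⟩ := z5 a (mem_range.2 ha) b (mem_range.2 hb)
  refine ⟨?_, (congrArg _ (J011 Q R hT)).trans ((evL_val R.inj R.st h4).trans h3), ?_⟩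
  · rw [J112 Q R hT]
    have key : ∀ {n : ℤ}, (valL (L112 5 [0, 2, 4] a b) = n ∧ ∀ t ∈ L112 5 [0, 2, 4] a b, t.ok 5) →
        lc (st i C).card 2 (IV (st i C) (evL x (L112 5 [0, 2, 4] a b))) = n := fun h => by
      rw [evL_val R.inj R.st h.2, h.1]
    obtain rfl | rfl : a = 0 ∨ a = 1 := by omega
    · obtain rfl | rfl : b = 0 ∨ b = 1 := by omega
      · exact (key v5_00).trans (by norm_num)
      · exact (key v5_01).trans (by norm_num)
    · obtain rfl | rfl : b = 0 ∨ b = 1 := by omega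
      · exact (key v5_10).trans (by norm_num)
      · exact (key v5_11).trans (by norm_num)
  · rw [sum111 Q R hT h2]
    exact h1

/-- SEVEN SITES -/
theorem num6 (Q : K9x r i K psi C w v w' v' x 6) (R : Row i C x 6) {a b : ℕ} (ha : a < 2)
    (hb : b < 2) (hT : (N0 i K C).val.map (ty i x 6) =
      (TL 6 [0, 2, 3, 5] a b : Multiset (Bool × Finset ℕ))) :
    lc (st i C).card 2 (J9 i K psi C w v w' v' (0 : P → ℕ) 1 1 2) = ((a : ℤ) - 1) * (b - 1) - 1 ∧
    lc (st i C).card 2 (J9 i K psi C w v w' v' (0 : P → ℕ) 1 1 1) = 0 ∧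
    ∑ e ∈ Co i K psi C 1, lc (st i C).card 2 (J9 i K psi C w v w' v' e 1 1 1) = 0 := by
  obtain ⟨h1, h2⟩ := s6 a (mem_range.2 ha) b (mem_range.2 hb)
  obtain ⟨h3, h4⟩ := z6 a (mem_range.2 ha) b (mem_range.2 hb)
  refine ⟨?_, (congrArg _ (J011 Q R hT)).trans ((evL_val R.inj R.st h4).trans h3), ?_⟩
  · rw [J112 Q R hT]
    have key : ∀ {n : ℤ}, (valL (L112 6 [0, 2, 3, 5] a b) = n ∧
        ∀ t ∈ L112 6 [0, 2, 3, 5] a b, t.ok 6) →
        lc (st i C).card 2 (IV (st i C) (evL x (L112 6 [0, 2, 3, 5] a b))) = n := fun h => by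
      rw [evL_val R.inj R.st h.2, h.1]
    obtain rfl | rfl : a = 0 ∨ a = 1 := by omega
    · obtain rfl | rfl : b = 0 ∨ b = 1 := by omega
      · exact (key v6_00).trans (by norm_num)
      · exact (key v6_01).trans (by norm_num)
    · obtain rfl | rfl : b = 0 ∨ b = 1 := by omega
      · exact (key v6_10).trans (by norm_num)
      · exact (key v6_11).trans (by norm_num)
  · rw [sum111 Q R hT h2]
    exact h1

end Pool.Agent.GaussPoset.Win.Si

end

/-! From `Pool.Agent.W_448six_h74.SiD` -/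

section

/-!
MP_448cb3_co, G2, case B, window `j`, rows with two stars: the matched near elements of the row.
helper74.
-/

namespace Pool.Agent.GaussPoset.Win.Si

set_option linter.unusedSectionVars false

open Finset W4 Pa Pb
open Pool.Agent.GaussPoset.Win.So (IV IV_chi IV_Fe)

universe u

variable {P : Type u} [Fintype P] [PartialOrder P] [DecidableEq P] {r i : ℕ}
variable {e f : P → ℕ} {psi : P → P} {C K : Finset P} {w v w' v' : P}
variable {x : ℕ → P} {m : ℕ}

/-- a row with two stars -/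
structure Two (r i : ℕ) (K : Finset P) (psi : P → P) (C : Finset P) (w v w' v' : P) (x : ℕ → P)
    (m : ℕ) : Prop where
  Q : K9x r i K psi C w v w' v' x m
  W : PRow r i C m x
  hd : ∀ k l, k < l → l ≤ m → dcv (x k) (x l) = if l = k + 1 then dk m k else 0

lemma dk_pos {k : ℕ} (h : 1 ≤ dk m k) (hm : 5 ≤ m) (hk : k < m) : k ≠ 1 ∧ k + 2 ≠ m := by
  unfold dk at h
  split_ifs at h with h1 h2
  · omega
  · omega
  · omega

lemma ty_of (R : Row i C x m) {y : P} {I : Finset ℕ} (h : nz i y = I.image x)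
    (hI : I ⊆ range (m + 1)) : (ty i x m y).2 = I := by
  ext k
  show k ∈ (range (m + 1)).filter (fun k => x k ∈ nz i y) ↔ k ∈ I
  rw [mem_filter, h, mem_image]
  constructor
  · rintro ⟨hk, l, hl, hx⟩
    have h1 := mem_range.1 hk
    have h2 := mem_range.1 (hI hl)
    rw [← R.inj l k (by omega) (by omega) hx]
    exact hl
  · intro hk
    exact ⟨hI hk, k, hk, rfl⟩

namespace Two

variable (B : Two r i K psi C w v w' v' x m)
include B

lemma row : Row i C x m := rowR B.Q (fun y h1 h2 => B.W.surj y h1 h2) B.W.mem B.W.lev_x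

lemma dns {k l : ℕ} (hk : k ≤ m) (hl : l ≤ m) (hkl : k ≠ l) : dcv (x k) (x l) =
    if l = k + 1 then dk m k else if k = l + 1 then dk m l else 0 := by
  rcases Nat.lt_or_gt_of_ne hkl with h1 | h1
  · rw [B.hd k l h1 hl]
    split_ifs <;> omega
  · rw [kf_dcv_comm, B.hd l k h1 hk]
    split_ifs <;> omega

lemma dc2 {k l : ℕ} (hk : k ≤ m) (hl : l ≤ m) (hkl : k ≠ l) (h2 : dcv (x k) (x l) = 2) :
    (dc (x k)).card = 2 ∧ (pen (x k)).card = 0 := by
  have h1 := B.W.deg hk
  have h4 := B.W.dc_le hk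
  have h3 : dcv (x k) (x l) ≤ ∑ l ∈ (range (m + 1)).erase k, dcv (x k) (x l) :=
    single_le_sum (f := fun l => dcv (x k) (x l)) (fun _ _ => Nat.zero_le _)
      (mem_erase.2 ⟨Ne.symm hkl, mem_range.2 (by omega)⟩)
  omega

lemma dc_end {k : ℕ} (hk : k ≤ m) (h : k ≤ 1 ∨ m ≤ k + 1) :
    (dc (x k)).card = 2 ∧ (pen (x k)).card = 0 := by
  have hm := B.Q.hm
  have e0 : dk m 0 = 2 := by unfold dk; rw [if_pos (Or.inl rfl)]
  have e1 : dk m (m - 1) = 2 := by unfold dk; rw [if_pos (Or.inr (by omega))]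
  by_cases h0 : k = 0
  · exact B.dc2 (l := 1) hk (by omega) (by omega) (by
      rw [B.dns hk (by omega) (by omega), if_pos (by omega), h0, e0])
  by_cases h1 : k = 1
  · exact B.dc2 (l := 0) hk (by omega) (by omega) (by
      rw [B.dns hk (by omega) (by omega), if_neg (by omega), if_pos (by omega), e0])
  by_cases h2 : k = m
  · exact B.dc2 (l := m - 1) hk (by omega) (by omega) (by
      rw [B.dns hk (by omega) (by omega), if_neg (by omega), if_pos (by omega), e1])
  · have h3 : k = m - 1 := by omega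
    exact B.dc2 (l := m) hk (by omega) (by omega) (by
      rw [B.dns hk (by omega) (by omega), if_pos (by omega), h3, e1])

lemma pen_zero {k : ℕ} (hk : k ≤ m) : pen (x k) = ∅ := by
  by_cases h : 2 ≤ k ∧ k + 2 ≤ m
  · exact B.W.pen0 k h.1 h.2
  · exact card_eq_zero.1 (B.dc_end hk (by omega)).2

/-- the lower near elements are doubles over the edges with a matched pair, or stars -/
lemma low {y : P} (hy : y ∈ C) (hl : lev y = i + 1) :
    ∃ k, k < m ∧ k ≠ 1 ∧ k + 2 ≠ m ∧ uc y = ed x k := by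
  classical
  have hm := B.Q.hm
  have hs : ∀ s ∈ uc y, ∃ k, k ≤ m ∧ x k = s := by
    intro s hs
    have h1 := mem_st.1 (nz_st B.W.H B.W.hC (mem_near.2 (Or.inl hl)) hy
      (by rw [nz_low hl]; exact hs))
    exact B.W.surj s h1.1 h1.2
  rcases uc_card_cases B.W.H (x := y) (by have := B.W.hi; omega) with h | h
  · obtain ⟨s, hs1⟩ := card_eq_one.1 h
    obtain ⟨k, hk, rfl⟩ := hs s (by rw [hs1]; exact mem_singleton_self s)
    have : y ∈ pen (x k) := mem_pen.2 ⟨mem_uc.1 (by rw [hs1]; exact mem_singleton_self _), h⟩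
    rw [B.pen_zero hk] at this
    exact absurd this (notMem_empty _)
  · obtain ⟨s, t, hst, he⟩ := card_eq_two.1 h
    obtain ⟨a, ha, rfl⟩ := hs s (by rw [he]; exact mem_insert_self _ _)
    obtain ⟨b, hb, rfl⟩ := hs t (by rw [he]; exact mem_insert_of_mem (mem_singleton_self _))
    have key : ∀ a b, a < b → b ≤ m → uc y = {x a, x b} →
        ∃ k, k < m ∧ k ≠ 1 ∧ k + 2 ≠ m ∧ uc y = ed x k := by
      intro a b hab hb he
      have h1 : 1 ≤ dcv (x a) (x b) := by
        unfold dcv
        rw [Nat.one_le_iff_ne_zero, ← Nat.pos_iff_ne_zero, card_pos]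
        refine ⟨y, mem_filter.2 ⟨mem_univ _, ?_, ?_⟩⟩
        · exact mem_uc.1 (by rw [he]; exact mem_insert_self _ _)
        · exact mem_uc.1 (by rw [he]; exact mem_insert_of_mem (mem_singleton_self _))
      rw [B.hd a b hab hb] at h1
      by_cases hb1 : b = a + 1
      · rw [if_pos hb1] at h1
        obtain ⟨h2, h3⟩ := dk_pos h1 hm (by omega)
        exact ⟨a, by omega, h2, h3, by rw [he, hb1]; rfl⟩
      · rw [if_neg hb1] at h1
        omega
    have hab : a ≠ b := fun h => hst (by rw [h])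
    rcases Nat.lt_or_gt_of_ne hab with h1 | h1
    · exact key a b h1 hb he
    · exact key b a h1 ha (by rw [he]; exact pair_comm _ _)

/-- the upper double over an edge -/
lemma upE {k : ℕ} (hk : k < m) : ∃ u, dc u = ed x k ∧ lev u + 1 = i := by
  classical
  have h1 : ucv (x k) (x (k + 1)) = 1 := by rw [B.W.up k (k + 1) (by omega) (by omega), if_pos rfl]
  unfold ucv at h1
  obtain ⟨u, hu⟩ := card_eq_one.1 h1
  have e1 : u ∈ univ.filter (fun y : P => x k ⋖ y ∧ x (k + 1) ⋖ y) := by
    rw [hu]; exact mem_singleton_self u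
  obtain ⟨-, e2, e3⟩ := mem_filter.1 e1
  have hlev := lev_cov B.W.H e2
  have hlx := B.W.lev_x k (by omega)
  refine ⟨u, ?_, by omega⟩
  symm
  refine eq_of_subset_of_card_le ?_ ?_
  · intro z hz
    unfold ed at hz
    rw [mem_insert, mem_singleton] at hz
    rcases hz with rfl | rfl
    · exact mem_dc.2 e2
    · exact mem_dc.2 e3
  · rw [B.W.card_ed hk]
    exact dc_card_le B.W.H u

/-- the upper near elements -/
lemma upp {y : P} (hy : y ∈ C) (hl : lev y + 1 = i) :
    (∃ k, k < m ∧ dc y = ed x k) ∨ dc y = {x 0} ∨ dc y = {x m} := by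
  classical
  have hm := B.Q.hm
  have hn : y ∈ near P i := mem_near.2 (Or.inr hl)
  have hs : ∀ s ∈ dc y, ∃ k, k ≤ m ∧ x k = s := by
    intro s hs
    have h1 := mem_st.1 (nz_st B.W.H B.W.hC hn hy (by rw [nz_upp hl]; exact hs))
    exact B.W.surj s h1.1 h1.2
  have hne : (dc y).Nonempty := dc_nonempty B.W.H (by have := B.W.hi2; omega)
  have hc := dc_card_le B.W.H y
  have hp := card_pos.2 hne
  rcases (by omega : (dc y).card = 1 ∨ (dc y).card = 2) with h | h
  · right
    obtain ⟨s, hs1⟩ := card_eq_one.1 h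
    obtain ⟨k, hk, rfl⟩ := hs s (by rw [hs1]; exact mem_singleton_self s)
    by_cases h0 : k = 0
    · left; rw [hs1, h0]
    by_cases h1 : k = m
    · right; rw [hs1, h1]
    · exfalso
      obtain ⟨u, hu, -⟩ := B.upE (k := k) (by omega)
      obtain ⟨u', hu', -⟩ := B.upE (k := k - 1) (by omega)
      have hux : x k ∈ dc u := by rw [hu]; unfold ed; exact mem_insert_self _ _
      have hux' : x k ∈ dc u' := by
        rw [hu']; unfold ed; rw [show k - 1 + 1 = k by omega]
        exact mem_insert_of_mem (mem_singleton_self _)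
      have n1 : u ≠ u' := by
        intro h2
        rw [h2, hu'] at hu
        have := B.W.ed_inj (by omega) (by omega) hu
        omega
      have c2 : ∀ k, k < m → (ed x k).card = 2 := fun k hk => B.W.card_ed hk
      have n2 : y ≠ u := by
        rintro rfl
        rw [hu, c2 k (by omega)] at h
        omega
      have n3 : y ≠ u' := by
        rintro rfl
        rw [hu', c2 (k - 1) (by omega)] at h
        omega
      have h3 : ({y, u, u'} : Finset P) ⊆ uc (x k) := by
        intro z hz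
        rw [mem_insert, mem_insert, mem_singleton] at hz
        rw [mem_uc]
        rcases hz with rfl | rfl | rfl
        · exact mem_dc.1 (by rw [hs1]; exact mem_singleton_self _)
        · exact mem_dc.1 hux
        · exact mem_dc.1 hux'
      have h4 := card_le_card h3
      rw [card_insert_of_notMem (by rw [mem_insert, mem_singleton]; tauto),
        card_pair n1] at h4
      have := uc_card_le B.W.H (x k)
      omega
  · left
    obtain ⟨s, t, hst, he⟩ := card_eq_two.1 h
    obtain ⟨a, ha, rfl⟩ := hs s (by rw [he]; exact mem_insert_self _ _)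
    obtain ⟨b, hb, rfl⟩ := hs t (by rw [he]; exact mem_insert_of_mem (mem_singleton_self _))
    have key : ∀ a b, a < b → b ≤ m → dc y = {x a, x b} → ∃ k, k < m ∧ dc y = ed x k := by
      intro a b hab hb he
      have h1 : 1 ≤ ucv (x a) (x b) := by
        unfold ucv
        rw [Nat.one_le_iff_ne_zero, ← Nat.pos_iff_ne_zero, card_pos]
        refine ⟨y, mem_filter.2 ⟨mem_univ _, ?_, ?_⟩⟩
        · exact mem_dc.1 (by rw [he]; exact mem_insert_self _ _)
        · exact mem_dc.1 (by rw [he]; exact mem_insert_of_mem (mem_singleton_self _))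
      rw [B.W.up a b hab hb] at h1
      by_cases hb1 : b = a + 1
      · exact ⟨a, by omega, by rw [he, hb1]; rfl⟩
      · rw [if_neg hb1] at h1
        omega
    have hab : a ≠ b := fun h => hst (by rw [h])
    rcases Nat.lt_or_gt_of_ne hab with h1 | h1
    · exact key a b h1 hb he
    · exact key b a h1 ha (by rw [he]; exact pair_comm _ _)

end Two

end Pool.Agent.GaussPoset.Win.Si

end

/-! From `Pool.Agent.W_448six_h74.SiE` -/

section

/-!
MP_448cb3_co, G2, case B, window `j`, rows with two stars: the types of the matched near elements.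
helper74.
-/

namespace Pool.Agent.GaussPoset.Win.Si

set_option linter.unusedSectionVars false

open Finset W4 Pa Pb
open Pool.Agent.GaussPoset.Win.So (IV IV_chi IV_Fe)

universe u

variable {P : Type u} [Fintype P] [PartialOrder P] [DecidableEq P] {r i : ℕ}
variable {e f : P → ℕ} {psi : P → P} {C K : Finset P} {w v w' v' : P}
variable {x : ℕ → P} {m : ℕ}

/-- the matched near elements of a type -/
noncomputable def FT (i : ℕ) (K C : Finset P) (x : ℕ → P) (m : ℕ) (t : Bool × Finset ℕ) :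
    Finset P := (N0 i K C).filter fun y => t = ty i x m y

lemma mem_FT {t : Bool × Finset ℕ} {y : P} :
    y ∈ FT i K C x m t ↔ y ∈ N0 i K C ∧ t = ty i x m y := by
  unfold FT
  rw [mem_filter]

lemma ed_image (k : ℕ) : ed x k = ({k, k + 1} : Finset ℕ).image x := by
  unfold ed
  rw [image_insert, image_singleton]

lemma card_idx (k : ℕ) : ({k, k + 1} : Finset ℕ).card = 2 := card_pair (by omega)

namespace Two

variable (B : Two r i K psi C w v w' v' x m)
include B

lemma nzI {y : P} (hy : y ∈ N0 i K C) : nz i y = (ty i x m y).2.image x := by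
  obtain ⟨h1, h2, -⟩ := mem_N0.1 hy
  exact B.row.nz B.W.H B.W.hC h1 h2

/-- lower types -/
lemma FT_low {k : ℕ} {y : P} (hk : k < m) : y ∈ FT i K C x m (true, {k, k + 1}) ↔
    y ∈ N0 i K C ∧ lev y = i + 1 ∧ nz i y = ed x k := by
  rw [mem_FT]
  constructor
  · rintro ⟨h1, h2⟩
    have h3 := B.nzI h1
    rw [← h2] at h3
    refine ⟨h1, ?_, by rw [h3, ed_image]⟩
    have h4 : true = decide (lev y = i + 1) := congrArg Prod.fst h2
    exact of_decide_eq_true h4.symm
  · rintro ⟨h1, h2, h3⟩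
    refine ⟨h1, Prod.ext ?_ ?_⟩
    · exact (decide_eq_true h2).symm
    · refine (ty_of B.row (I := {k, k + 1}) (by rw [h3, ed_image]) ?_).symm
      intro l hl
      rw [mem_insert, mem_singleton] at hl
      rw [mem_range]
      omega

/-- upper types -/
lemma FT_upp {I : Finset ℕ} (hI : I ⊆ range (m + 1)) {y : P} : y ∈ FT i K C x m (false, I) ↔
    y ∈ N0 i K C ∧ lev y + 1 = i ∧ nz i y = I.image x := by
  rw [mem_FT]
  constructor
  · rintro ⟨h1, h2⟩
    have h3 := B.nzI h1
    rw [← h2] at h3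
    refine ⟨h1, ?_, h3⟩
    have h4 : false = decide (lev y = i + 1) := congrArg Prod.fst h2
    have h5 := of_decide_eq_false h4.symm
    rcases mem_near.1 (mem_N0.1 h1).1 with h | h
    · exact absurd h h5
    · exact h
  · rintro ⟨h1, h2, h3⟩
    refine ⟨h1, Prod.ext ?_ ?_⟩
    · exact (decide_eq_false (by omega)).symm
    · exact (ty_of B.row h3 hI).symm

lemma idx_sub {k : ℕ} (hk : k < m) : ({k, k + 1} : Finset ℕ) ⊆ range (m + 1) := by
  intro l hl
  rw [mem_insert, mem_singleton] at hl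
  rw [mem_range]
  omega

lemma sing_sub {k : ℕ} (hk : k ≤ m) : ({k} : Finset ℕ) ⊆ range (m + 1) := by
  intro l hl
  rw [mem_singleton] at hl
  rw [mem_range]
  omega

/-- one matched lower double over an edge -/
lemma cardL {k : ℕ} (hk : k < m) (h1 : k ≠ 1) (h2 : k + 2 ≠ m) :
    (FT i K C x m (true, {k, k + 1})).card = 1 := by
  classical
  have hm := B.Q.hm
  have e1 : FT i K C x m (true, {k, k + 1}) =
      (N0 i K C).filter (fun z => z ∈ dbL P i ∧ nz i z ⊆ {x k, x (k + 1)}) := by
    ext y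
    rw [B.FT_low hk, mem_filter, mem_dbL]
    constructor
    · rintro ⟨a1, a2, a3⟩
      refine ⟨a1, ⟨a2, ?_⟩, by rw [a3]; exact Subset.rfl⟩
      rw [← nz_low a2, a3, B.W.card_ed hk]
    · rintro ⟨a1, ⟨a2, a3⟩, a4⟩
      refine ⟨a1, a2, eq_of_subset_of_card_le a4 ?_⟩
      rw [nz_low a2, a3]
      exact (B.W.card_ed hk).le
  have e2 := K9_mm B.Q.toK9 (B.W.mem k (by omega)) (B.W.lev_x k (by omega))
    (B.W.ne (a := k) (b := k + 1) (by omega) (by omega) (by omega))
  have e3 : (uc w = {x k, x (k + 1)}) ↔ k = 0 := by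
    rw [B.Q.uw]
    constructor
    · intro h
      exact (B.W.ed_inj (k := 0) (l := k) (by omega) hk h).symm
    · rintro rfl
      rfl
  have e4 : (uc w' = {x k, x (k + 1)}) ↔ k + 1 = m := by
    rw [B.Q.uw', pair_comm]
    constructor
    · intro h
      have h3 : ed x (m - 1) = ed x k := by
        unfold ed
        rw [show m - 1 + 1 = m by omega]
        exact h
      have := B.W.ed_inj (by omega) hk h3
      omega
    · intro h
      rw [show m - 1 = k by omega, ← h]
  have e5 : (FT i K C x m (true, {k, k + 1})).card = W4.mm i K C {x k, x (k + 1)} := by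
    rw [e1]
    rfl
  rw [e2, B.hd k (k + 1) (by omega) (by omega), if_pos rfl] at e5
  simp only [e3, e4] at e5
  unfold dk at e5
  by_cases h3 : k = 0
  · rw [if_pos (Or.inl h3), if_pos h3, if_neg (by omega)] at e5
    push_cast at e5
    omega
  · by_cases h4 : k + 1 = m
    · rw [if_pos (Or.inr h4), if_neg h3, if_pos h4] at e5
      push_cast at e5
      omega
    · rw [if_neg (by omega), if_neg (by omega), if_neg h3, if_neg h4] at e5
      push_cast at e5
      omega

/-- a matched upper double over an edge -/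
lemma cardU {k : ℕ} (hk : k < m) (h1 : k ≠ 1) (h2 : k + 2 ≠ m) :
    (FT i K C x m (false, {k, k + 1})).card = 1 := by
  classical
  have hM := B.Q.hM
  refine Eq.trans (card_nbij' psi psi ?_ ?_ ?_ ?_) (B.cardL hk h1 h2)
  · intro y hy
    obtain ⟨a1, a2, a3⟩ := (B.FT_upp (B.idx_sub hk)).1 hy
    obtain ⟨b1, b2, b3⟩ := mem_N0.1 a1
    have hd : y ∈ dbU P i := mem_dbU.2 ⟨a2, by
      rw [← nz_upp a2, a3, ← ed_image, B.W.card_ed hk]⟩
    obtain ⟨c1, c2⟩ := hM.upp y hd b3
    obtain ⟨d1, d2⟩ := hM.invol y (mem_union_right _ hd) b3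
    have c3 := (mem_dbL.1 c1).1
    refine (B.FT_low hk).2 ⟨mem_N0.2 ⟨mem_near.2 (Or.inl c3), ?_, d2⟩, c3, ?_⟩
    · exact psi_memK B.W.H hM B.W.hC (mem_union_right _ hd) b3 b2
    · rw [nz_low c3, c2, ← nz_upp a2, a3, ed_image]
  · intro y hy
    obtain ⟨a1, a2, a3⟩ := (B.FT_low hk).1 hy
    obtain ⟨b1, b2, b3⟩ := mem_N0.1 a1
    have hd : y ∈ dbL P i := mem_dbL.2 ⟨a2, by
      rw [← nz_low a2, a3, B.W.card_ed hk]⟩
    obtain ⟨c1, c2⟩ := hM.low y hd b3
    obtain ⟨d1, d2⟩ := hM.invol y (mem_union_left _ hd) b3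
    have c3 := (mem_dbU.1 c1).1
    refine (B.FT_upp (B.idx_sub hk)).2 ⟨mem_N0.2 ⟨mem_near.2 (Or.inr c3), ?_, d2⟩, c3, ?_⟩
    · exact psi_memK B.W.H hM B.W.hC (mem_union_left _ hd) b3 b2
    · rw [nz_upp c3, c2, ← nz_low a2, a3, ed_image]
  · intro y hy
    obtain ⟨a1, a2, a3⟩ := (B.FT_upp (B.idx_sub hk)).1 hy
    obtain ⟨b1, b2, b3⟩ := mem_N0.1 a1
    have hd : y ∈ dbU P i := mem_dbU.2 ⟨a2, by
      rw [← nz_upp a2, a3, ← ed_image, B.W.card_ed hk]⟩
    exact (hM.invol y (mem_union_right _ hd) b3).1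
  · intro y hy
    obtain ⟨a1, a2, a3⟩ := (B.FT_low hk).1 hy
    obtain ⟨b1, b2, b3⟩ := mem_N0.1 a1
    have hd : y ∈ dbL P i := mem_dbL.2 ⟨a2, by
      rw [← nz_low a2, a3, B.W.card_ed hk]⟩
    exact (hM.invol y (mem_union_left _ hd) b3).1

/-- the possible types -/
lemma types {y : P} (hy : y ∈ N0 i K C) :
    (∃ k, k < m ∧ k ≠ 1 ∧ k + 2 ≠ m ∧ (ty i x m y = (true, {k, k + 1}) ∨
      ty i x m y = (false, {k, k + 1}))) ∨
      ty i x m y = (false, {0}) ∨ ty i x m y = (false, {m}) := by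
  obtain ⟨a1, a2, a3⟩ := mem_N0.1 hy
  rcases mem_near.1 a1 with h | h
  · obtain ⟨k, h1, h2, h3, h4⟩ := B.low a2 h
    have h5 := (B.FT_low (y := y) h1).2 ⟨hy, h, by rw [nz_low h, h4]⟩
    exact Or.inl ⟨k, h1, h2, h3, Or.inl (mem_FT.1 h5).2.symm⟩
  · rcases B.upp a2 h with ⟨k, h1, h2⟩ | h1 | h1
    · have hd : y ∈ dbU P i := mem_dbU.2 ⟨h, by rw [h2, B.W.card_ed h1]⟩
      obtain ⟨c1, c2⟩ := B.Q.hM.upp y hd a3
      have c3 := (mem_dbL.1 c1).1
      obtain ⟨l, l1, l2, l3, l4⟩ := B.low
        (psi_memK B.W.H B.Q.hM B.W.hC (mem_union_right _ hd) a3 a2) c3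
      have hkl : k = l := B.W.ed_inj h1 l1 (by rw [← h2, ← c2, l4])
      subst hkl
      have h5 := (B.FT_upp (y := y) (B.idx_sub h1)).2
        ⟨hy, h, by rw [nz_upp h, h2, ed_image]⟩
      exact Or.inl ⟨k, h1, l2, l3, Or.inr (mem_FT.1 h5).2.symm⟩
    · have h5 := (B.FT_upp (y := y) (I := {0}) (B.sing_sub (by omega))).2
        ⟨hy, h, by rw [nz_upp h, h1, image_singleton]⟩
      exact Or.inr (Or.inl (mem_FT.1 h5).2.symm)
    · have h5 := (B.FT_upp (y := y) (I := {m}) (B.sing_sub (by omega))).2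
        ⟨hy, h, by rw [nz_upp h, h1, image_singleton]⟩
      exact Or.inr (Or.inr (mem_FT.1 h5).2.symm)

end Two

end Pool.Agent.GaussPoset.Win.Si

end

/-! From `Pool.Agent.W_448six_h74.SiF` -/

section

/-!
MP_448cb3_co, G2, case B, window `j`, rows with two stars and six or seven sites: the list of the types of
the matched near elements and the values of the mixed terms.  helper74.
-/

namespace Pool.Agent.GaussPoset.Win.Si

set_option linter.unusedSectionVars false

open Finset W4 Pa Pb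
open Pool.Agent.GaussPoset.Win.So (IV IV_chi IV_Fe)

universe u

variable {P : Type u} [Fintype P] [PartialOrder P] [DecidableEq P] {r i : ℕ}
variable {e f : P → ℕ} {psi : P → P} {C K : Finset P} {w v w' v' : P}
variable {x : ℕ → P} {m : ℕ}

lemma FT_disj {t t' : Bool × Finset ℕ} (h : t ≠ t') :
    Disjoint (FT i K C x m t) (FT i K C x m t') := by
  rw [disjoint_left]
  intro y hy hy'
  exact h ((mem_FT.1 hy).2.trans (mem_FT.1 hy').2.symm)

namespace Two

variable (B : Two r i K psi C w v w' v' x m)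
include B

/-- the single upper elements at an end `p` with the edge `q` -/
lemma cardS {p q : ℕ} (hp : p ≤ m) (hq : q < m) (hpq : p = q ∨ p = q + 1) (h1 : q ≠ 1)
    (h2 : q + 2 ≠ m) (hs : p = 0 ∨ p = m)
    (hd : dg i K C (x p) = (uc (x p)).card + 1) :
    (FT i K C x m (false, {p})).card + 1 = (uc (x p)).card := by
  classical
  have hm := B.Q.hm
  have e1 : (N0 i K C).filter (fun y => x p ∈ nz i y) =
      FT i K C x m (true, {q, q + 1}) ∪ (FT i K C x m (false, {q, q + 1}) ∪
        FT i K C x m (false, {p})) := by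
    ext y
    rw [mem_filter, mem_union, mem_union]
    constructor
    · rintro ⟨a1, a2⟩
      have mk : ∀ t, ty i x m y = t → y ∈ FT i K C x m t := fun t ht => mem_FT.2 ⟨a1, ht.symm⟩
      rcases B.types a1 with ⟨k, k1, k2, k3, h | h⟩ | h | h
      · have h3 := (B.FT_low k1).1 (mk _ h)
        rw [h3.2.2, B.W.mem_ed hp k1] at a2
        have : k = q := by omega
        subst this
        exact Or.inl (mk _ h)
      · have h3 := (B.FT_upp (B.idx_sub k1)).1 (mk _ h)
        rw [h3.2.2, ← ed_image, B.W.mem_ed hp k1] at a2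
        have : k = q := by omega
        subst this
        exact Or.inr (Or.inl (mk _ h))
      · have h3 := (B.FT_upp (B.sing_sub (by omega))).1 (mk _ h)
        rw [h3.2.2, image_singleton, mem_singleton] at a2
        have := B.W.inj p 0 hp (by omega) a2
        subst this
        exact Or.inr (Or.inr (mk _ h))
      · have h3 := (B.FT_upp (B.sing_sub (by omega))).1 (mk _ h)
        rw [h3.2.2, image_singleton, mem_singleton] at a2
        have := B.W.inj p m hp (by omega) a2
        subst this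
        exact Or.inr (Or.inr (mk _ h))
    · rintro (h | h | h)
      · have h3 := (B.FT_low hq).1 h
        exact ⟨h3.1, by rw [h3.2.2]; exact (B.W.mem_ed hp hq).2 (by omega)⟩
      · have h3 := (B.FT_upp (B.idx_sub hq)).1 h
        exact ⟨h3.1, by rw [h3.2.2, ← ed_image]; exact (B.W.mem_ed hp hq).2 (by omega)⟩
      · have h3 := (B.FT_upp (B.sing_sub hp)).1 h
        exact ⟨h3.1, by rw [h3.2.2, image_singleton]; exact mem_singleton_self _⟩
  have n1 : ((true, {q, q + 1}) : Bool × Finset ℕ) ≠ (false, {q, q + 1}) := fun h =>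
    Bool.noConfusion (congrArg Prod.fst h)
  have n2 : ((true, {q, q + 1}) : Bool × Finset ℕ) ≠ (false, {p}) := fun h =>
    Bool.noConfusion (congrArg Prod.fst h)
  have n3 : ((false, {q, q + 1}) : Bool × Finset ℕ) ≠ (false, {p}) := fun h => by
    have h3 := congrArg (fun t : Bool × Finset ℕ => t.2.card) h
    simp only [card_idx, card_singleton] at h3
    omega
  have e2 : (dg i K C (x p) : ℤ) = ((N0 i K C).filter (fun y => x p ∈ nz i y)).card := rfl
  rw [e1, card_union_of_disjoint (disjoint_union_right.2 ⟨FT_disj n1, FT_disj n2⟩),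
    card_union_of_disjoint (FT_disj n3), B.cardL hq h1 h2, B.cardU hq h1 h2, hd] at e2
  push_cast at e2
  omega

lemma cardS0 : (FT i K C x m (false, {0})).card + 1 = (uc (x 0)).card := by
  have hm := B.Q.hm
  refine B.cardS (q := 0) (by omega) (by omega) (by omega) (by omega) (by omega) (by omega) ?_
  rw [K9_dg B.Q.toK9 (B.W.mem 0 (by omega)) (B.W.lev_x 0 (by omega)),
    (B.dc_end (k := 0) (by omega) (by omega)).1, B.Q.uw, B.Q.dv, B.Q.uw', B.Q.dv',
    if_pos (mem_insert_self _ _), if_neg, if_neg, if_neg]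
  · push_cast
    ring
  all_goals
    rw [mem_insert, mem_singleton]
    rintro (h | h) <;> exact B.W.ne (by omega) (by omega) (by omega) h

lemma cardSm : (FT i K C x m (false, {m})).card + 1 = (uc (x m)).card := by
  have hm := B.Q.hm
  refine B.cardS (q := m - 1) (by omega) (by omega) (by omega) (by omega) (by omega) (by omega) ?_
  rw [K9_dg B.Q.toK9 (B.W.mem m (by omega)) (B.W.lev_x m (by omega)),
    (B.dc_end (k := m) (by omega) (by omega)).1, B.Q.uw, B.Q.dv, B.Q.uw', B.Q.dv',
    if_neg, if_neg, if_pos (mem_insert_self _ _), if_neg]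
  · push_cast
    ring
  all_goals
    rw [mem_insert, mem_singleton]
    rintro (h | h) <;> exact B.W.ne (by omega) (by omega) (by omega) h

/-- counting a type -/
lemma cnt (t : Bool × Finset ℕ) : ((N0 i K C).val.map (ty i x m)).count t =
    (FT i K C x m t).card := by
  rw [Multiset.count_map]
  unfold FT
  rfl

/-- no elements of other types -/
lemma cnt0 {t : Bool × Finset ℕ} (h1 : ∀ k, k < m → k ≠ 1 → k + 2 ≠ m →
    t ≠ (true, {k, k + 1}) ∧ t ≠ (false, {k, k + 1})) (h2 : t ≠ (false, {0}))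
    (h3 : t ≠ (false, {m})) : ((N0 i K C).val.map (ty i x m)).count t = 0 := by
  rw [Multiset.count_eq_zero]
  intro h
  obtain ⟨y, hy, rfl⟩ := Multiset.mem_map.1 h
  rcases B.types hy with ⟨k, k1, k2, k3, h | h⟩ | h | h
  · exact (h1 k k1 k2 k3).1 h
  · exact (h1 k k1 k2 k3).2 h
  · exact h2 h
  · exact h3 h

end Two

/-- the types of the pairs over the edges in `E` -/
def EL (E : List ℕ) : Multiset (Bool × Finset ℕ) :=
  ((E.flatMap fun k => [((true, {k, k + 1}) : Bool × Finset ℕ), (false, {k, k + 1})]) :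
    List (Bool × Finset ℕ))

lemma count_TL (m : ℕ) (E : List ℕ) (a b : ℕ) (t : Bool × Finset ℕ) :
    Multiset.count t (TL m E a b : Multiset (Bool × Finset ℕ)) =
      Multiset.count t (EL E) + ((if ((false, {0}) : Bool × Finset ℕ) = t then a else 0) +
          (if ((false, {m}) : Bool × Finset ℕ) = t then b else 0)) := by
  have h : (TL m E a b : Multiset (Bool × Finset ℕ)) =
      EL E + (Multiset.replicate a (false, {0}) + Multiset.replicate b (false, {m})) := by
    unfold TL EL
    rw [← Multiset.coe_add, ← Multiset.coe_add, Multiset.coe_replicate, Multiset.coe_replicate]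
  rw [h, Multiset.count_add, Multiset.count_add, Multiset.count_replicate,
    Multiset.count_replicate]

/-- SIX SITES -/
theorem Two.list5 (B : Two r i K psi C w v w' v' x 5) : (N0 i K C).val.map (ty i x 5) =
    (TL 5 [0, 2, 4] ((uc (x 0)).card - 1) ((uc (x 5)).card - 1) :
      Multiset (Bool × Finset ℕ)) := by
  have s0 := B.cardS0
  have sm := B.cardSm
  rw [Multiset.ext]
  intro t
  rw [count_TL]
  by_cases h : t ∈ [((true, {0, 1}) : Bool × Finset ℕ), (false, {0, 1}), (true, {2, 3}),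
    (false, {2, 3}), (true, {4, 5}), (false, {4, 5}), (false, {0}), (false, {5})]
  · simp only [List.mem_cons, List.not_mem_nil, or_false] at h
    rcases h with rfl | rfl | rfl | rfl | rfl | rfl | rfl | rfl
    · rw [B.cnt, B.cardL (k := 0) (by omega) (by omega) (by omega), if_neg (by decide),
        if_neg (by decide)]
      decide
    · rw [B.cnt, B.cardU (k := 0) (by omega) (by omega) (by omega), if_neg (by decide),
        if_neg (by decide)]
      decide
    · rw [B.cnt, B.cardL (k := 2) (by omega) (by omega) (by omega), if_neg (by decide),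
        if_neg (by decide)]
      decide
    · rw [B.cnt, B.cardU (k := 2) (by omega) (by omega) (by omega), if_neg (by decide),
        if_neg (by decide)]
      decide
    · rw [B.cnt, B.cardL (k := 4) (by omega) (by omega) (by omega), if_neg (by decide),
        if_neg (by decide)]
      decide
    · rw [B.cnt, B.cardU (k := 4) (by omega) (by omega) (by omega), if_neg (by decide),
        if_neg (by decide)]
      decide
    · rw [B.cnt, if_pos rfl, if_neg (by decide), add_zero]
      have : Multiset.count ((false, {0}) : Bool × Finset ℕ) (EL [0, 2, 4]) = 0 := by decide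
      omega
    · rw [B.cnt, if_neg (by decide), if_pos rfl, zero_add]
      have : Multiset.count ((false, {5}) : Bool × Finset ℕ) (EL [0, 2, 4]) = 0 := by decide
      omega
  · simp only [List.mem_cons, List.not_mem_nil, or_false, not_or] at h
    obtain ⟨g1, g2, g3, g4, g5, g6, g7, g8⟩ := h
    rw [B.cnt0 ?_ g7 g8, if_neg (Ne.symm g7), if_neg (Ne.symm g8), add_zero, add_zero,
      Multiset.count_eq_zero.2]
    · unfold EL
      rw [Multiset.mem_coe]
      simp only [List.flatMap_cons, List.flatMap_nil, List.mem_append, List.mem_cons,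
        List.not_mem_nil, or_false, not_or]
      exact ⟨⟨g1, g2⟩, ⟨g3, g4⟩, g5, g6⟩
    · intro k k1 k2 k3
      obtain rfl | rfl | rfl : k = 0 ∨ k = 2 ∨ k = 4 := by omega
      · exact ⟨g1, g2⟩
      · exact ⟨g3, g4⟩
      · exact ⟨g5, g6⟩

/-- SEVEN SITES -/
theorem Two.list6 (B : Two r i K psi C w v w' v' x 6) : (N0 i K C).val.map (ty i x 6) =
    (TL 6 [0, 2, 3, 5] ((uc (x 0)).card - 1) ((uc (x 6)).card - 1) :
      Multiset (Bool × Finset ℕ)) := by
  have s0 := B.cardS0
  have sm := B.cardSm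
  rw [Multiset.ext]
  intro t
  rw [count_TL]
  by_cases h : t ∈ [((true, {0, 1}) : Bool × Finset ℕ), (false, {0, 1}), (true, {2, 3}),
    (false, {2, 3}), (true, {3, 4}), (false, {3, 4}), (true, {5, 6}), (false, {5, 6}),
    (false, {0}), (false, {6})]
  · simp only [List.mem_cons, List.not_mem_nil, or_false] at h
    rcases h with rfl | rfl | rfl | rfl | rfl | rfl | rfl | rfl | rfl | rfl
    · rw [B.cnt, B.cardL (k := 0) (by omega) (by omega) (by omega), if_neg (by decide),
        if_neg (by decide)]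
      decide
    · rw [B.cnt, B.cardU (k := 0) (by omega) (by omega) (by omega), if_neg (by decide),
        if_neg (by decide)]
      decide
    · rw [B.cnt, B.cardL (k := 2) (by omega) (by omega) (by omega), if_neg (by decide),
        if_neg (by decide)]
      decide
    · rw [B.cnt, B.cardU (k := 2) (by omega) (by omega) (by omega), if_neg (by decide),
        if_neg (by decide)]
      decide
    · rw [B.cnt, B.cardL (k := 3) (by omega) (by omega) (by omega), if_neg (by decide),
        if_neg (by decide)]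
      decide
    · rw [B.cnt, B.cardU (k := 3) (by omega) (by omega) (by omega), if_neg (by decide),
        if_neg (by decide)]
      decide
    · rw [B.cnt, B.cardL (k := 5) (by omega) (by omega) (by omega), if_neg (by decide),
        if_neg (by decide)]
      decide
    · rw [B.cnt, B.cardU (k := 5) (by omega) (by omega) (by omega), if_neg (by decide),
        if_neg (by decide)]
      decide
    · rw [B.cnt, if_pos rfl, if_neg (by decide), add_zero]
      have : Multiset.count ((false, {0}) : Bool × Finset ℕ) (EL [0, 2, 3, 5]) = 0 := by decide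
      omega
    · rw [B.cnt, if_neg (by decide), if_pos rfl, zero_add]
      have : Multiset.count ((false, {6}) : Bool × Finset ℕ) (EL [0, 2, 3, 5]) = 0 := by decide
      omega
  · simp only [List.mem_cons, List.not_mem_nil, or_false, not_or] at h
    obtain ⟨g1, g2, g3, g4, g5, g6, g7, g8, g9, g10⟩ := h
    rw [B.cnt0 ?_ g9 g10, if_neg (Ne.symm g9), if_neg (Ne.symm g10), add_zero, add_zero,
      Multiset.count_eq_zero.2]
    · unfold EL
      rw [Multiset.mem_coe]
      simp only [List.flatMap_cons, List.flatMap_nil, List.mem_append, List.mem_cons,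
        List.not_mem_nil, or_false, not_or]
      exact ⟨⟨g1, g2⟩, ⟨g3, g4⟩, ⟨g5, g6⟩, g7, g8⟩
    · intro k k1 k2 k3
      obtain rfl | rfl | rfl | rfl : k = 0 ∨ k = 2 ∨ k = 3 ∨ k = 5 := by omega
      · exact ⟨g1, g2⟩
      · exact ⟨g3, g4⟩
      · exact ⟨g5, g6⟩
      · exact ⟨g7, g8⟩

end Pool.Agent.GaussPoset.Win.Si

end

/-! From `Pool.Agent.W_448six_h74.SiH` -/

section

/-!
MP_448cb3_co, G2, case B, window `j`: the mixed terms at (4,2) of a component with two stars, when every
pendant is disjoint from one of the stars (the proofs of helper97's `PbP`, `PbQ`).  helper74.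
-/

namespace Pool.Agent.GaussPoset.Win.Si

set_option linter.unusedSectionVars false

open Finset W4 Pa Pb
open Pool.Agent.GaussPoset.Win.So (IV IV_chi IV_Fe)
open Pool.Agent.GaussPoset.Win.SO (PN vp con on con_sub mem_PN)

universe u

variable {P : Type u} [Fintype P] [PartialOrder P] [DecidableEq P] {r i : ℕ}
variable {e f : P → ℕ} {psi : P → P} {C K : Finset P} {w v w' v' : P}

section

variable {a b c a' b' c' : P} (Q : K9c r i K psi C w v w' v' a b c a' b' c')
include Q

/-- the empty core, nothing on the free elements -/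
lemma L0m {n1 n2 : ℕ} (hn2 : n2 ≠ 0) :
    lc (st i C).card 2 (J9 i K psi C w v w' v' (0 : P → ℕ) n1 n2 0) = 0 := by
  have hS0 : Sc i (0 : P → ℕ) := fun _ _ => rfl
  have h := (J_iso_R Q hS0 (fun _ _ => rfl) n1 hn2).1
  rw [bt_zero Q rfl] at h
  exact lc_lt (by have := rk_le_one Q n1; omega) h

variable (D : Wk i C w v w' v')
include D

/-- ENERGY TWO -/
theorem S2_110 : ∑ e ∈ Co i K psi C 2, lc (st i C).card 2 (J9 i K psi C w v w' v' e 1 1 0) =
    oo i C w' v' * ∑ p ∈ PN i C, vp i p * NN i w v p +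
      oo i C w v * ∑ p ∈ PN i C, vp i p * NN i w' v' p := by
  classical
  obtain ⟨T, hT⟩ : ∃ T : Finset (P → ℕ), T = ((nz i w ∪ nz i v) ×ˢ (nz i w' ∪ nz i v')).image
      (fun q => (Pi.single q.1 1 + Pi.single q.2 1 : P → ℕ)) := ⟨_, rfl⟩
  have memT : ∀ e, e ∈ T ↔ ∃ y ∈ nz i w ∪ nz i v, ∃ y' ∈ nz i w' ∪ nz i v',
      e = Pi.single y 1 + Pi.single y' 1 := by
    intro e
    rw [hT, mem_image]
    constructor
    · rintro ⟨⟨y, y'⟩, hq, rfl⟩
      rw [mem_product] at hq
      exact ⟨y, hq.1, y', hq.2, rfl⟩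
    · rintro ⟨y, hy, y', hy', rfl⟩
      exact ⟨(y, y'), mem_product.2 ⟨hy, hy'⟩, rfl⟩
  have hst := stR Q.sym
  have hst' := stR Q
  have inC : ∀ y ∈ nz i w ∪ nz i v, y ∈ C := by
    intro y hy
    rcases mem_union.1 hy with h | h
    · exact (mem_st.1 (hst.1 h)).1
    · exact (mem_st.1 (hst.2 h)).1
  have inC' : ∀ y ∈ nz i w' ∪ nz i v', y ∈ C := by
    intro y hy
    rcases mem_union.1 hy with h | h
    · exact (mem_st.1 (hst'.1 h)).1
    · exact (mem_st.1 (hst'.2 h)).1
  have TSc : ∀ e ∈ T, Sc i e ∧ Spt C e ∧ ∑ x, e x = 2 := by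
    intro e he
    obtain ⟨y, hy, y', hy', rfl⟩ := (memT e).1 he
    have a1 := Q.sing y (lvL Q hy) (inC y hy)
    have a2 := Q.sing y' (lvL Q.sym hy') (inC' y' hy')
    refine ⟨Sc_add a1.1 a2.1, ?_, ?_⟩
    · intro x hx
      rw [Pi.add_apply, a1.2.1 x hx, a2.2.1 x hx]
    · simp only [Pi.add_apply]
      rw [sum_add_distrib, sum_pi_single' y 1 univ, sum_pi_single' y' 1 univ]
      simp
  have Tsub : T ⊆ Co i K psi C 2 := by
    intro e he
    obtain ⟨h1, h2, h3⟩ := TSc e he
    exact mem_Co.2 ⟨h3, h2, h1.core Q.H⟩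
  -- the sum over the pairs of sites
  have sT : ∑ e ∈ T, DD i e w v * DD i e w' v' = 0 := by
    rw [hT, sum_image, sum_product]
    · have key : ∀ y ∈ nz i w ∪ nz i v, ∑ y' ∈ nz i w' ∪ nz i v',
          DD i (Pi.single y 1 + Pi.single y' 1 : P → ℕ) w v *
            DD i (Pi.single y 1 + Pi.single y' 1 : P → ℕ) w' v' =
          DD i (Pi.single y 1 : P → ℕ) w v *
            ∑ y' ∈ nz i w' ∪ nz i v', DD i (Pi.single y' 1 : P → ℕ) w' v' := by
        intro y hy
        rw [mul_sum]
        refine sum_congr rfl fun y' hy' => ?_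
        rw [DD_two Q (lvL Q hy) hy', add_comm (Pi.single y 1 : P → ℕ) (Pi.single y' 1),
          DD_two Q.sym (lvL Q.sym hy') hy]
      refine (sum_congr rfl key).trans ?_
      rw [← sum_mul, DD_sum3 Q, zero_mul]
    · rintro ⟨y, y'⟩ hq ⟨z, z'⟩ hq' h
      rw [mem_coe, mem_product] at hq hq'
      simp only at h hq hq'
      have hd := dLR' Q
      have n1 : y ≠ z' := fun h' => disjoint_left.1 hd hq.1 (by rw [h']; exact hq'.2)
      have n2 : z ≠ y' := fun h' => disjoint_left.1 hd hq'.1 (by rw [h']; exact hq.2)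
      have e1 := congrFun h y
      have e2 := congrFun h y'
      rw [Pi.add_apply, Pi.add_apply, Pi.single_eq_same, Pi.single_eq_of_ne n1] at e1
      rw [Pi.add_apply, Pi.add_apply, Pi.single_eq_same,
        Pi.single_eq_of_ne (M := fun _ => ℕ) (i := z) (i' := y') n2.symm] at e2
      have f1 : y = z := by
        by_contra hne
        rw [Pi.single_eq_of_ne hne] at e1
        omega
      have f2 : y' = z' := by
        by_contra hne
        rw [Pi.single_eq_of_ne hne] at e2
        omega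
      rw [f1, f2]
  have h1 := Q.sum2 (fun e => lc (st i C).card 2 (J9 i K psi C w v w' v' e 1 1 0) -
    if e ∈ T then DD i e w v * DD i e w' v' else 0) (by
      intro e hs hch hc hE
      show lc (st i C).card 2 (J9 i K psi C w v w' v' e 1 1 0) -
        (if e ∈ T then DD i e w v * DD i e w' v' else 0) = 0
      have ho : od (st i C).card 0 (tC i C e) := SO.dvd_up (SO.cheap_dvd Q.H Q.hC hs hch)
      have h2 := Q.J110 hc hs ho
      rw [zero_add] at h2
      by_cases hT : e ∈ T
      · rw [h2, if_pos hT, ((TSc e hT).1.val (C := C) Q.H Q.hi Q.hi2).2.2.2.2.2]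
        ring
      · rw [if_neg hT]
        by_cases hadm : AdmL i e ∧ AdmU i e ∧ Disjoint (AL i e) (AU i e)
        · rw [h2]
          by_cases hL : DD i e w v = 0
          · rw [hL]; ring
          by_cases hR : DD i e w' v' = 0
          · rw [hR]; ring
          exact absurd ((memT e).2 (two_sites Q D (mem_Co.2 ⟨hE, hs, hc⟩) hadm.1 hadm.2.1 hL hR)) hT
        · rw [Q.bad hadm, lc_zero, sub_zero])
  rw [sum_sub_distrib] at h1
  have h2 : ∑ e ∈ Co i K psi C 2, (if e ∈ T then DD i e w v * DD i e w' v' else 0) = 0 := by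
    rw [← sum_filter, (filter_mem_eq_inter : (Co i K psi C 2).filter (fun e => e ∈ T) = _),
      inter_eq_right.2 Tsub, sT]
  rw [h2, sub_zero] at h1
  rw [h1]
  have h3 : ∀ p ∈ PN i C, (fun e => lc (st i C).card 2 (J9 i K psi C w v w' v' e 1 1 0) -
      if e ∈ T then DD i e w v * DD i e w' v' else 0) (on (con i p)) =
      vp i p * NN i w v p * oo i C w' v' + vp i p * NN i w' v' p * oo i C w v := by
    intro p hp
    have hnT : on (con i p) ∉ T := by
      intro h
      obtain ⟨y, hy, y', hy', h'⟩ := (memT _).1 h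
      have h4 := congrFun h' y
      rw [pd_site Q.H hp (lvL Q hy), Pi.add_apply, Pi.single_eq_same] at h4
      omega
    show lc (st i C).card 2 (J9 i K psi C w v w' v' (on (con i p)) 1 1 0) -
      (if on (con i p) ∈ T then _ else 0) = _
    rw [if_neg hnT, sub_zero, pend Q D hp]
  rw [sum_congr rfl h3, sum_add_distrib, ← sum_mul, ← sum_mul]
  ring

/-- THE MIXED TERMS at (4,2), in terms of the three numbers with labels on the free elements -/
theorem ZLR_gen : lc (st i C).card 2 (ZLR i K psi C w v w' v' 4) =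
    lc (st i C).card 2 (J9 i K psi C w v w' v' (0 : P → ℕ) 1 1 2) +
      2 * lc (st i C).card 2 (J9 i K psi C w v w' v' (0 : P → ℕ) 1 1 1) +
      ∑ e ∈ Co i K psi C 1, lc (st i C).card 2 (J9 i K psi C w v w' v' e 1 1 1) +
      oo i C w' v' * (∑ p ∈ PN i C, vp i p * NN i w v p - 1) +
      oo i C w v * (∑ p ∈ PN i C, vp i p * NN i w' v' p - 1) := by
  rw [lc_ZLR Q, sum_range_succ, sum_range_succ, sum_range_succ, sum_range_succ, sum_range_one]
  have h0 : ∑ e ∈ Co i K psi C 0, ∑ p ∈ antidiagonal (4 - 0), ∑ t ∈ antidiagonal p.2,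
      (if p.1 ≠ 0 ∧ t.1 ≠ 0 then
        lc (st i C).card 2 (J9 i K psi C w v w' v' e p.1 t.1 t.2) else 0) =
      lc (st i C).card 2 (J9 i K psi C w v w' v' (0 : P → ℕ) 1 1 2) +
      2 * lc (st i C).card 2 (J9 i K psi C w v w' v' (0 : P → ℕ) 1 1 1) := by
    rw [Co_zero Q.H, sum_singleton, Nat.sub_zero,
      tri4 (fun x y z => lc (st i C).card 2 (J9 i K psi C w v w' v' (0 : P → ℕ) x y z)),
      Q.J0_120, Q.J0_210, L0m Q (by norm_num), L0m Q two_ne_zero, L0m Q one_ne_zero]
    ring
  have h1 : ∑ e ∈ Co i K psi C 1, ∑ p ∈ antidiagonal (4 - 1), ∑ t ∈ antidiagonal p.2,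
      (if p.1 ≠ 0 ∧ t.1 ≠ 0 then
        lc (st i C).card 2 (J9 i K psi C w v w' v' e p.1 t.1 t.2) else 0) =
      ∑ e ∈ Co i K psi C 1, lc (st i C).card 2 (J9 i K psi C w v w' v' e 1 1 1)
        - oo i C w v - oo i C w' v' := by
    rw [sum_congr rfl fun e _ => tri3
      (fun x y z => lc (st i C).card 2 (J9 i K psi C w v w' v' e x y z)), sum_add_distrib,
      sum_add_distrib, S1_210 Q]
    have h2 : ∑ e ∈ Co i K psi C 1, lc (st i C).card 2 (J9 i K psi C w v w' v' e 1 2 0) =
        - oo i C w v := by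
      rw [← S1_210 Q.sym]
      exact sum_congr rfl fun e _ => by rw [J9_sym]
    rw [h2]
    ring
  have h2 : ∑ e ∈ Co i K psi C 2, ∑ p ∈ antidiagonal (4 - 2), ∑ t ∈ antidiagonal p.2,
      (if p.1 ≠ 0 ∧ t.1 ≠ 0 then
        lc (st i C).card 2 (J9 i K psi C w v w' v' e p.1 t.1 t.2) else 0) =
      oo i C w' v' * ∑ p ∈ PN i C, vp i p * NN i w v p +
      oo i C w v * ∑ p ∈ PN i C, vp i p * NN i w' v' p := by
    rw [sum_congr rfl fun e _ => tri2
      (fun x y z => lc (st i C).card 2 (J9 i K psi C w v w' v' e x y z)), S2_110 Q D]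
  have h3 : ∑ e ∈ Co i K psi C 3, ∑ p ∈ antidiagonal (4 - 3), ∑ t ∈ antidiagonal p.2,
      (if p.1 ≠ 0 ∧ t.1 ≠ 0 then
        lc (st i C).card 2 (J9 i K psi C w v w' v' e p.1 t.1 t.2) else 0) = 0 :=
    sum_eq_zero fun e _ => tri1 (fun x y z => lc (st i C).card 2 (J9 i K psi C w v w' v' e x y z))
  have h4 : ∑ e ∈ Co i K psi C 4, ∑ p ∈ antidiagonal (4 - 4), ∑ t ∈ antidiagonal p.2,
      (if p.1 ≠ 0 ∧ t.1 ≠ 0 then
        lc (st i C).card 2 (J9 i K psi C w v w' v' e p.1 t.1 t.2) else 0) = 0 :=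
    sum_eq_zero fun e _ => tri0 (fun x y z => lc (st i C).card 2 (J9 i K psi C w v w' v' e x y z))
  rw [h0, h1, h2, h3, h4]
  ring

end

end Pool.Agent.GaussPoset.Win.Si

end

/-! From `Pool.Agent.W_448six_h74.SiI` -/

section

/-!
MP_448cb3_co, G2, case B, window `j`: THE MIXED TERMS at (4,2) of a row with two stars, for every number of
sites.  helper74.
-/

namespace Pool.Agent.GaussPoset.Win.Si

set_option linter.unusedSectionVars false

open Finset W4 Pa Pb
open Pool.Agent.GaussPoset.Win.So (IV IV_chi IV_Fe)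
open Pool.Agent.GaussPoset.Win.SO (PN vp)

universe u

variable {P : Type u} [Fintype P] [PartialOrder P] [DecidableEq P] {r i : ℕ}
variable {e f : P → ℕ} {psi : P → P} {C K : Finset P} {w v w' v' : P}
variable {x : ℕ → P} {m : ℕ}

namespace Two

variable (B : Two r i K psi C w v w' v' x m)
include B

/-- every pendant is disjoint from one of the stars -/
lemma wk : Wk i C w v w' v' := by
  have hm := B.Q.hm
  intro p hp
  obtain ⟨t, ht, hs⟩ := B.Q.pn hp
  have hs' : sit i p = ed x t := hs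
  have eL : nz i w ∪ nz i v = ed x 0 ∪ ed x 1 := by
    rw [B.Q.nzw, B.Q.nzv]; rfl
  have eR : nz i w' ∪ nz i v' = ed x (m - 1) ∪ ed x (m - 2) := by
    rw [B.Q.nzw', B.Q.nzv']
    unfold ed
    rw [show m - 1 + 1 = m by omega, show m - 2 + 1 = m - 1 by omega, pair_comm (x m),
      pair_comm (x (m - 1)) (x (m - 2))]
  rw [eL, eR, hs', disjoint_union_right, disjoint_union_right, B.W.disj_ed ht (by omega),
    B.W.disj_ed ht (by omega), B.W.disj_ed ht (by omega), B.W.disj_ed ht (by omega)]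
  by_cases h : m = 5 ∧ t = 2
  · exact absurd (by rw [hs, h.2]) (B.Q.mid h.1 p hp)
  · omega

lemma dc_two : (dc (x 2)).card = 1 := by
  have hm := B.Q.hm
  have h1 := B.W.deg (k := 2) (by omega)
  rw [sum_eq_single 3] at h1
  · have e : dk m 2 = 1 := by unfold dk; rw [if_neg (by omega), if_neg (by omega)]
    rw [B.dns (by omega) (by omega) (by omega), if_pos (by omega), e,
      B.pen_zero (by omega), card_empty] at h1
    omega
  · intro l hl hne
    rw [mem_erase, mem_range] at hl
    rw [B.dns (by omega) (by omega) (Ne.symm hl.1)]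
    unfold dk
    split_ifs <;> omega
  · intro h2
    exact absurd (mem_erase.2 ⟨by omega, mem_range.2 (by omega)⟩) h2

lemma dc_two' : (dc (x (m - 2))).card = 1 := by
  have hm := B.Q.hm
  have h1 := B.W.deg (k := m - 2) (by omega)
  rw [sum_eq_single (m - 3)] at h1
  · have e : dk m (m - 3) = 1 := by unfold dk; rw [if_neg (by omega), if_neg (by omega)]
    rw [B.dns (by omega) (by omega) (by omega), if_neg (by omega), if_pos (by omega), e,
      B.pen_zero (by omega), card_empty] at h1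
    omega
  · intro l hl hne
    rw [mem_erase, mem_range] at hl
    rw [B.dns (by omega) (by omega) (Ne.symm hl.1)]
    unfold dk
    split_ifs <;> omega
  · intro h2
    exact absurd (mem_erase.2 ⟨by omega, mem_range.2 (by omega)⟩) h2

lemma mem4 {k : ℕ} (hk : k ≤ m) :
    (x k ∈ uc w ↔ k = 0 ∨ k = 1) ∧ (x k ∈ dc v ↔ k = 1 ∨ k = 2) ∧
      (x k ∈ uc w' ↔ k = m ∨ k = m - 1) ∧ (x k ∈ dc v' ↔ k = m - 1 ∨ k = m - 2) := by
  have hm := B.Q.hm
  have key : ∀ a b, a ≤ m → b ≤ m → (x k ∈ ({x a, x b} : Finset P) ↔ k = a ∨ k = b) := by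
    intro a b ha hb
    rw [mem_insert, mem_singleton]
    constructor
    · rintro (h | h)
      · exact Or.inl (B.W.inj k a hk ha h)
      · exact Or.inr (B.W.inj k b hk hb h)
    · rintro (h | h)
      · exact Or.inl (by rw [h])
      · exact Or.inr (by rw [h])
  rw [B.Q.uw, B.Q.dv, B.Q.uw', B.Q.dv']
  exact ⟨key 0 1 (by omega) (by omega), key 1 2 (by omega) (by omega),
    key m (m - 1) (by omega) (by omega), key (m - 1) (m - 2) (by omega) (by omega)⟩

lemma dgx {k : ℕ} (hk : k ≤ m) : dg i K C (x k) = ((dc (x k)).card : ℤ) + (uc (x k)).card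
      - (if k = 0 ∨ k = 1 then 1 else 0) - (if k = 1 ∨ k = 2 then 1 else 0)
      - (if k = m ∨ k = m - 1 then 1 else 0) - (if k = m - 1 ∨ k = m - 2 then 1 else 0) := by
  obtain ⟨h1, h2, h3, h4⟩ := B.mem4 hk
  rw [K9_dg B.Q.toK9 (B.W.mem k hk) (B.W.lev_x k hk)]
  simp only [h1, h2, h3, h4]

lemma mme {k : ℕ} (hk : k < m) : W4.mm i K C {x k, x (k + 1)} =
    if k = 1 ∨ k + 2 = m then 0 else 1 := by
  have hm := B.Q.hm
  rw [K9_mm B.Q.toK9 (B.W.mem k (by omega)) (B.W.lev_x k (by omega))
    (B.W.ne (a := k) (b := k + 1) (by omega) (by omega) (by omega))]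
  have e3 : (uc w = {x k, x (k + 1)}) ↔ k = 0 := by
    rw [B.Q.uw]
    constructor
    · intro h
      exact (B.W.ed_inj (k := 0) (l := k) (by omega) hk h).symm
    · rintro rfl
      rfl
  have e4 : (uc w' = {x k, x (k + 1)}) ↔ k + 1 = m := by
    rw [B.Q.uw', pair_comm]
    constructor
    · intro h
      have h3 : ed x (m - 1) = ed x k := by
        unfold ed
        rw [show m - 1 + 1 = m by omega]
        exact h
      have := B.W.ed_inj (by omega) hk h3
      omega
    · intro h
      rw [show m - 1 = k by omega, ← h]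
  rw [B.hd k (k + 1) (by omega) (by omega), if_pos rfl]
  simp only [e3, e4]
  unfold dk
  split_ifs <;> omega

/-- the value of the left star -/
lemma qqL : qq i K psi C w v = (uc (x 0)).card - 2 := by
  have hm := B.Q.hm
  rw [qq_val B.Q.toK9c, B.dgx (k := 0) (by omega), B.dgx (k := 2) (by omega), B.dc_two,
    (B.dc_end (k := 0) (by omega) (by omega)).1, B.W.uc_inner (k := 2) (by omega) (by omega),
    B.mme (k := 0) (by omega), B.mme (k := 1) (by omega)]
  rw [if_pos (by omega), if_neg (by omega), if_neg (by omega), if_neg (by omega),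
    if_neg (by omega), if_pos (by omega), if_neg (by omega), if_neg (by omega),
    if_neg (by omega), if_pos (by omega)]
  push_cast
  ring

/-- the value of the right star -/
lemma qqR : qq i K psi C w' v' = (uc (x m)).card - 2 := by
  have hm := B.Q.hm
  have e1 := B.mme (k := m - 1) (by omega)
  have e2 := B.mme (k := m - 2) (by omega)
  rw [show m - 1 + 1 = m by omega, pair_comm] at e1
  rw [show m - 2 + 1 = m - 1 by omega, pair_comm] at e2
  rw [qq_val B.Q.toK9c.sym, B.dgx (k := m) (by omega), B.dgx (k := m - 2) (by omega), B.dc_two',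
    (B.dc_end (k := m) (by omega) (by omega)).1,
    B.W.uc_inner (k := m - 2) (by omega) (by omega), e1, e2]
  rw [if_neg (by omega), if_neg (by omega), if_pos (by omega), if_neg (by omega),
    if_neg (by omega), if_neg (by omega), if_neg (by omega), if_pos (by omega),
    if_neg (by omega), if_pos (by omega)]
  push_cast
  ring

/-- the pendants -/
lemma sumN : ∑ p ∈ PN i C, vp i p * NN i w v p = Pa.dl i C x 2 ∧
    ∑ p ∈ PN i C, vp i p * NN i w' v' p = Pa.dl i C x (m - 3) := by
  unfold Pa.dl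
  constructor
  · exact sum_congr rfl fun p hp => by rw [B.Q.NL hp, mul_comm]
  · exact sum_congr rfl fun p hp => by rw [B.Q.NR hp, mul_comm]

end Two

/-- THE MIXED TERMS -/
theorem Two.hZ (B : Two r i K psi C w v w' v' x m) :
    lc (st i C).card 2 (ZLR i K psi C w v w' v' 4) =
      qq i K psi C w v * qq i K psi C w' v' +
        oo i C w' v' * (Pa.dl i C x 2 - 1) + oo i C w v * (Pa.dl i C x (m - 3) - 1) +
      (if m = 5 then ((uc (x 0)).card : ℤ) + (uc (x m)).card + 1 else
        if m = 6 then -1 else 0) := by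
  have hm := B.Q.hm
  obtain ⟨n1, n2⟩ := B.sumN
  have u0 := B.W.uc_le (k := 0) (by omega)
  have um := B.W.uc_le (k := m) (by omega)
  have c1 : (((uc (x 0)).card - 1 : ℕ) : ℤ) = (uc (x 0)).card - 1 := by omega
  have c2 : (((uc (x m)).card - 1 : ℕ) : ℤ) = (uc (x m)).card - 1 := by omega
  by_cases h5 : m = 5
  · subst h5
    obtain ⟨a1, a2, a3⟩ := num5 B.Q B.row (by omega) (by omega) B.list5
    rw [ZLR_gen B.Q.toK9c B.wk, a1, a2, a3, n1, n2, B.qqL, B.qqR, if_pos rfl, c1, c2]
    ring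
  · by_cases h6 : m = 6
    · subst h6
      obtain ⟨a1, a2, a3⟩ := num6 B.Q B.row (by omega) (by omega) B.list6
      rw [ZLR_gen B.Q.toK9c B.wk, a1, a2, a3, n1, n2, B.qqL, B.qqR, if_neg h5, if_pos rfl, c1, c2]
      ring
    · rw [if_neg h5, if_neg h6, ZLR_four B.Q.toK9c (sep B.Q (by omega)), n1, n2]
      ring

end Pool.Agent.GaussPoset.Win.Si

end

/-! From `Pool.Agent.W_448six_h74.SjA` -/

section

/-!
MP_448cb3_co, G2, case B, window `j`: the form of a component with two stars, `w32` free.  helper74.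
-/

namespace Pool.Agent.GaussPoset.Win.Si

set_option linter.unusedSectionVars false

open Finset W4 Pa Pb
open Pool.Agent.GaussPoset.Win.So (IV IV_chi IV_Fe)
open Pool.Agent.GaussPoset.Win.SO (PN vp con on)

universe u

variable {P : Type u} [Fintype P] [PartialOrder P] [DecidableEq P] {r i : ℕ}
variable {e f : P → ℕ} {psi : P → P} {C K : Finset P} {w v w' v' : P}
variable {x : ℕ → P} {m : ℕ}

section

variable (Q : K5w r i K psi C w v) {p q s : P} (hw : uc w = {p, q}) (hv : dc v = {q, s})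
  (hpq : p ≠ q) (hqs : q ≠ s) (hps : p ≠ s)
include Q hw hv hpq hqs hps

/-- THE FORM of one star, `w32` free -/
theorem form_s :
    lc (st i C).card 1 (ZW i K psi C w v 2) ^ 2 - 2 * lc (st i C).card 2 (ZW i K psi C w v 4) =
      fW i K C w v p q s + 2 * (∑ z ∈ PN i C, vp i z * (Nx i w z - Nx i v z) - 1) *
        (7 - dg i K C q - (st i C).card - Vc i K C) := by
  unfold fW
  obtain ⟨hw2, hv2, hq, hq'⟩ := Q.cards hw hv hpq hqs hps
  have nw := Q.nzw hw hv hpq hqs hps
  have nv := Q.nzv hw hv hpq hqs hps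
  have hb : 1 ≤ (st i C).card := by
    obtain ⟨l1, l2, l3⟩ := Q.lpq hw hv hpq hqs hps
    obtain ⟨m1, m2, m3⟩ := Q.memC hw hv hpq hqs hps
    exact card_pos.2 ⟨p, mem_st.2 ⟨m1, l1⟩⟩
  rw [Q.be4_raw hw hv hpq hqs hps hb, Q.al2_raw hw hv hpq hqs hps]
  have e1 : ∑ z ∈ PN i C, vp i z * (Nx i w z * (1 + Dg i K C (sit i z ∪ nz i w)) -
      Nx i v z * (1 + Dg i K C (sit i z ∪ nz i v))) =
      (1 + Vc i K C + dg i K C q) * ∑ z ∈ PN i C, vp i z * (Nx i w z - Nx i v z) +
      ∑ z ∈ PN i C, vp i z * (Nx i w z * (dg i K C p + Ds i K C (sit i z) {p, q}) -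
        Nx i v z * (dg i K C s + Ds i K C (sit i z) {q, s})) := by
    rw [mul_sum, ← sum_add_distrib]
    refine sum_congr rfl fun z _ => ?_
    have a1 : Nx i w z * (1 + Dg i K C (sit i z ∪ nz i w)) =
        Nx i w z * (1 + (Vc i K C + (dg i K C p + dg i K C q) + Ds i K C (sit i z) {p, q})) := by
      unfold Nx
      by_cases h : Disjoint (nz i w) (sit i z)
      · rw [Pb.Dg_split h, nw, sum_pair hpq]
      · rw [if_neg h, zero_mul, zero_mul]
    have a2 : Nx i v z * (1 + Dg i K C (sit i z ∪ nz i v)) =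
        Nx i v z * (1 + (Vc i K C + (dg i K C q + dg i K C s) + Ds i K C (sit i z) {q, s})) := by
      unfold Nx
      by_cases h : Disjoint (nz i v) (sit i z)
      · rw [Pb.Dg_split h, nv, sum_pair hqs]
      · rw [if_neg h, zero_mul, zero_mul]
    rw [a1, a2]
    ring
  have e2 : ∑ z ∈ PN i C, vp i z * ((2 * ((st i C).card - 8) + ch i C z) *
      (Nx i w z - Nx i v z) + 2 * (Mx i w z - Mx i v z)) =
      2 * ((st i C).card - 8) * ∑ z ∈ PN i C, vp i z * (Nx i w z - Nx i v z) +
      ∑ z ∈ PN i C, vp i z * (ch i C z * (Nx i w z - Nx i v z) + 2 * (Mx i w z - Mx i v z)) := by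
    rw [mul_sum, ← sum_add_distrib]
    exact sum_congr rfl fun z _ => by ring
  have e3 := pairs_split i C
  rw [e1, e2]
  linear_combination e3

end

section

variable {a b c a' b' c' : P} (Q : K9c r i K psi C w v w' v' a b c a' b' c')
include Q

/-- THE FORM of a component with two stars, from the mixed terms -/
theorem two_gen {cr : ℤ} (hZ : lc (st i C).card 2 (ZLR i K psi C w v w' v' 4) =
      qq i K psi C w v * qq i K psi C w' v' +
        oo i C w' v' * (∑ p ∈ PN i C, vp i p * NN i w v p - 1) +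
        oo i C w v * (∑ p ∈ PN i C, vp i p * NN i w' v' p - 1) + cr) :
    lc (st i C).card 1 (ZC i C 2) ^ 2 - 2 * lc (st i C).card 2 (ZC i C 4) =
      fW i K C w v a b c + fW i K C w' v' a' b' c' -
      (∑ q ∈ M4 i C, vp i q.1 * vp i q.2 + 2 * ((Z4 i C).card - (T4 i C).card : ℤ)) +
      2 * (∑ p ∈ PN i C, vp i p * NN i w v p - 1) *
        (7 - dg i K C b - (st i C).card - Vc i K C - oo i C w' v') +
      2 * (∑ p ∈ PN i C, vp i p * NN i w' v' p - 1) *
        (7 - dg i K C b' - (st i C).card - Vc i K C - oo i C w v) - 2 * cr := by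
  have QL := k5L Q.toK9
  have QR := k5R Q.toK9
  have fL := form_s QL Q.uw Q.dv Q.nab Q.nbc Q.nac
  have fR := form_s QR Q.uw' Q.dv' Q.nab' Q.nbc' Q.nac'
  have n1 : ∑ z ∈ PN i C, vp i z * (Nx i w z - Nx i v z) =
      ∑ p ∈ PN i C, vp i p * NN i w v p := rfl
  have n2 : ∑ z ∈ PN i C, vp i z * (Nx i w' z - Nx i v' z) =
      ∑ p ∈ PN i C, vp i p * NN i w' v' p := rfl
  rw [n1] at fL
  rw [n2] at fR
  have h4 := Z00_four Q (two_pos Q)
  have h5 := pairs_split i C
  have h6 := ZC_two Q.toK9 4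
  have h7 : lc (st i C).card 2 (ZC i C 4) = lc (st i C).card 2 (ZW i K psi C w v 4) +
      lc (st i C).card 2 (ZW i K psi C w' v' 4) -
      lc (st i C).card 2 (Z00 i K psi C w v w' v' 4) +
      lc (st i C).card 2 (ZLR i K psi C w v w' v' 4) := by
    rw [h6, lc_add, lc_sub, lc_add]
  rw [h7, hZ, two_al Q, qq_val Q, qq_val Q.sym]
  rw [QL.al2_raw Q.uw Q.dv Q.nab Q.nbc Q.nac] at fL
  rw [QR.al2_raw Q.uw' Q.dv' Q.nab' Q.nbc' Q.nac'] at fR
  linear_combination fL + fR + h4 - h5

end

end Pool.Agent.GaussPoset.Win.Si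

end

/-! From `Pool.Agent.W_448six_h74.SjB` -/

section

/-!
MP_448cb3_co, G2, case B, window `j`: the coefficient (1,0), `w32` and THE LOGARITHMIC FORM of a component
with two stars.  helper74.
-/

namespace Pool.Agent.GaussPoset.Win.Si

set_option linter.unusedSectionVars false

open Finset W4 Pa Pb
open Pool.Agent.GaussPoset.Win.So (IV IV_chi IV_Fe)
open Pool.Agent.GaussPoset.Win.SO (PN vp con on)

universe u

variable {P : Type u} [Fintype P] [PartialOrder P] [DecidableEq P] {r i : ℕ}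
variable {e f : P → ℕ} {psi : P → P} {C K : Finset P} {w v w' v' : P}
variable {x : ℕ → P} {m : ℕ}

section

variable {a b c a' b' c' : P} (Q : K9c r i K psi C w v w' v' a b c a' b' c')
include Q

/-- the order zero coefficient of the isolated star -/
theorem oo_val : oo i C w v = -3 := by
  have h2 := stR Q.sym
  have h1 := IV_chi (V := st i C) (B := nz i w) (C := ∅) h2.1 (empty_subset _)
  have h3 := IV_chi (V := st i C) (B := ∅) (C := nz i v) (empty_subset _) h2.2
  rw [if_pos (disjoint_empty_right _), Q.w2, card_empty, Nat.sub_zero] at h1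
  rw [if_pos (disjoint_empty_left _), Q.v2, card_empty, Nat.sub_zero, pow_zero, one_mul] at h3
  have hb : 2 ≤ (st i C).card := by rw [← Q.w2]; exact card_le_card h2.1
  have h4 : IV (st i C) (IW i w v) = PowerSeries.X ^ ((st i C).card - 1) * (xx ^ 2 + xi) := by
    have e1 : IV (st i C) (IW i w v) = dd * IV (st i C) (chi (nz i w) ∅) +
        xi * dd * IV (st i C) (chi ∅ (nz i v)) := by
      rw [← IV_cmul, ← IV_cmul, ← IV_add2]
      rfl
    have e2 : (dd : A) * dd ^ ((st i C).card - 2) = dd ^ ((st i C).card - 1) := by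
      rw [← pow_succ']
      congr 1
      omega
    rw [e1, h1, h3]
    have e3 : (dd * (xx ^ 2 * dd ^ ((st i C).card - 2)) + xi * dd * dd ^ ((st i C).card - 2) : A) =
        (dd * dd ^ ((st i C).card - 2)) * (xx ^ 2 + xi) := by ring
    rw [e3, e2]
    rfl
  unfold oo lc
  rw [pow_zero, one_mul, h4, PowerSeries.coeff_X_pow_mul', if_pos (by omega),
    show (st i C).card - ((st i C).card - 1) = 1 by omega, map_add, co1_xi,
    (co1_pow (xx : A) cc_xx 2).2, co1_xx]
  norm_num

/-- THE COEFFICIENT (1,0) -/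
theorem c1_two : I2.c1 (st i C).card (ZS i C) = (st i C).card + Vc i K C - 6 := by
  classical
  have hS : Sc i (0 : P → ℕ) := fun x _ => rfl
  have hs : Spt C (0 : P → ℕ) := fun x _ => rfl
  obtain ⟨a1, a2, h1, h2, o0, c0⟩ := hS.val (C := C) Q.H Q.hi Q.hi2
  have h0 : I2.c1 (st i C).card (ZS i C) = lc (st i C).card 0 (ZC i C 1) := by
    unfold I2.c1 lc
    rw [coeff_ZS, pow_zero, one_mul]
  -- the two stars
  have j1 : lc (st i C).card 0 (J9 i K psi C w v w' v' (0 : P → ℕ) 0 1 0) = -3 := by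
    rw [← oo_val Q.sym, J9_m0R Q]
    unfold oo
    congr 2
    funext S
    rw [Sc_Fe Q.H Q.hi Q.hi2 hS, WW_iso Q.H Q.hir Q.lw' Q.lv' Q.hb' Q.hb1'
        (tchS Q hS w') (tchS Q hS v') (fun _ _ => rfl) one_ne_zero, mul_one, one_mul]
  have j2 : lc (st i C).card 0 (J9 i K psi C w v w' v' (0 : P → ℕ) 1 0 0) = -3 := by
    rw [← oo_val Q, J9_m0L Q]
    unfold oo
    congr 2
    funext S
    rw [Sc_Fe Q.H Q.hi Q.hi2 hS, WW_iso Q.H Q.hir Q.lw Q.lv Q.hb Q.hb1
        (tchS Q hS w) (tchS Q hS v) (fun _ _ => rfl) one_ne_zero, mul_one, one_mul]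
  -- the matched near elements
  have j3 : lc (st i C).card 0 (J9 i K psi C w v w' v' (0 : P → ℕ) 0 0 1) = Vc i K C := by
    have e0 : J9 i K psi C w v w' v' (0 : P → ℕ) 0 0 1 = JK i K psi C 1 (0 : P → ℕ) := by
      unfold J9 JK
      congr 1
      funext S
      rw [WW0 Q.H Q.hir Q.nw Q.nv, WW0 Q.H Q.hir Q.nw' Q.nv', one_mul, one_mul]
    rw [e0, JK_one Q.H Q.hi Q.hi2 Q.hM Q.hC hs (fun _ _ => rfl)
      (by rw [h1]; exact disjoint_empty_left _) o0, c0, mul_one,
      om_killed (e := (0 : P → ℕ)) Q.H Q.hi Q.hi2 Q.hM Q.hC (fun y _ => rfl)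
        (fun x hx hn => absurd (by rw [RK_N0 (hS.tch Q.H)]; exact hx) hn), h1, h2, union_empty,
      sum_empty, add_zero]
    have : W4.mm i K C (∅ : Finset P) = 0 := by
      unfold W4.mm
      rw [Nat.cast_eq_zero, card_eq_zero, filter_eq_empty_iff]
      rintro x hx ⟨hd, hsub⟩
      have := (dbL_nz hd).2
      rw [subset_empty.1 hsub] at this
      simp at this
    rw [this, sub_zero]
  -- the sites
  have j4 : ∑ e ∈ Co i K psi C 1, lc (st i C).card 0 (J9 i K psi C w v w' v' e 0 0 0) =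
      (st i C).card := by
    rw [Co1_st Q (fun e => lc (st i C).card 0 (J9 i K psi C w v w' v' e 0 0 0))
      (fun e h => by
        show lc (st i C).card 0 (J9 i K psi C w v w' v' e 0 0 0) = 0
        rw [Q.bad h, lc_zero])]
    have : ∀ y ∈ st i C,
        lc (st i C).card 0 (J9 i K psi C w v w' v' (Pi.single y 1 : P → ℕ) 0 0 0) = 1 := by
      intro y hy
      obtain ⟨hyC, hyl⟩ := mem_st.1 hy
      obtain ⟨b1, b2, b3, b4, b5, -⟩ := Q.sing y hyl hyC
      rw [Q.J000 b3 b2 b4, b5]
    rw [sum_congr rfl this]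
    simp
  rw [h0, Q.ZC_split 1, sum_range_succ, sum_range_one, Co_zero Q.H, sum_singleton, Nat.sub_zero,
    Nat.sub_self]
  have e1 : ∀ e : P → ℕ, ∑ p ∈ antidiagonal 1, ∑ t ∈ antidiagonal p.2,
      J9 i K psi C w v w' v' e p.1 t.1 t.2 =
      J9 i K psi C w v w' v' e 0 0 1 + J9 i K psi C w v w' v' e 0 1 0 +
        J9 i K psi C w v w' v' e 1 0 0 := by
    intro e
    rw [an1 (fun p : ℕ × ℕ => ∑ t ∈ antidiagonal p.2, J9 i K psi C w v w' v' e p.1 t.1 t.2),
      an1 (fun t : ℕ × ℕ => J9 i K psi C w v w' v' e 0 t.1 t.2),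
      an0 (fun t : ℕ × ℕ => J9 i K psi C w v w' v' e 1 t.1 t.2)]
  have e2 : ∀ e : P → ℕ, ∑ p ∈ antidiagonal 0, ∑ t ∈ antidiagonal p.2,
      J9 i K psi C w v w' v' e p.1 t.1 t.2 = J9 i K psi C w v w' v' e 0 0 0 := by
    intro e
    rw [an0 (fun p : ℕ × ℕ => ∑ t ∈ antidiagonal p.2, J9 i K psi C w v w' v' e p.1 t.1 t.2),
      an0 (fun t : ℕ × ℕ => J9 i K psi C w v w' v' e 0 t.1 t.2)]
  rw [e1, sum_congr rfl fun e _ => e2 e, lc_add, lc_add, lc_add, lc_sum, j4, j1, j2, j3]
  ring

end

namespace Two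

variable (B : Two r i K psi C w v w' v' x m)
include B

/-- the mixed number of lower doubles -/
lemma MMv : Pa.MM i K C w v w' v' = if m = 5 then 1 else 0 := by
  have hm := B.Q.hm
  have h : lc (st i C).card 2 (J9 i K psi C w v w' v' (0 : P → ℕ) 1 1 1) =
    - Pa.MM i K C w v w' v' := B.Q.L0_111
  have u0 := B.W.uc_le (k := 0) (by omega)
  have um := B.W.uc_le (k := m) (by omega)
  by_cases h5 : m = 5
  · subst h5
    obtain ⟨a1, a2, a3⟩ := num5 B.Q B.row (by omega) (by omega) B.list5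
    rw [if_pos rfl]
    linarith
  · rw [if_neg h5]
    by_cases h6 : m = 6
    · subst h6
      obtain ⟨a1, a2, a3⟩ := num6 B.Q B.row (by omega) (by omega) B.list6
      linarith
    · have := L0_m1 B.Q.toK9c (sep B.Q (by omega)) one_ne_zero one_ne_zero
      linarith

/-- `w32` -/
lemma w3v : I2.w3 (st i C).card (ZS i C) = Pa.dl i C x 2 + Pa.dl i C x (m - 3) - 2 -
    (if m = 5 then 1 else 0) := by
  rw [B.Q.w3v, B.MMv]

end Two

end Pool.Agent.GaussPoset.Win.Si

end

/-! From `Pool.Agent.W_448six_h74.SjC` -/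

section

/-!
MP_448cb3_co, G2, case B, window `j`: ONE END of the row of a component with the pattern [DL] at both ends,
`w32` free and at least six sites (the computations of helper97's `PbT`).  helper74.
-/

namespace Pool.Agent.GaussPoset.Win.Si

set_option linter.unusedSectionVars false

open Finset W4 Pa Pb
open Pool.Agent.GaussPoset.Win.SO (PN vp con on mem_PN vp_PD vp_PU)

universe u

variable {P : Type u} [Fintype P] [PartialOrder P] [DecidableEq P] {r i : ℕ}
variable {psi : P → P} {C K : Finset P} {w v w' v' : P} {m : ℕ} {x : ℕ → P}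

/-- the pattern [DL] at both ends, `w32` free -/
structure DLt (r i : ℕ) (K : Finset P) (C : Finset P) (w v w' v' : P) (m : ℕ) (x : ℕ → P) :
    Prop where
  W : PRow r i C m x
  hm : 5 ≤ m
  hg : ∀ y ∈ C, lev y = i → dg i K C y = ((dc y).card : ℤ) + (uc y).card
    - (if y ∈ uc w then 1 else 0) - (if y ∈ dc v then 1 else 0)
    - (if y ∈ uc w' then 1 else 0) - (if y ∈ dc v' then 1 else 0)
  hmm : ∀ a b, a < b → b ≤ m → W4.mm i K C {x a, x b} = (dcv (x a) (x b) : ℤ)
    - (if a = 0 ∧ b = 1 then 1 else 0) - (if a + 1 = m ∧ b = m then 1 else 0)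
  lw : lev w = i + 1
  lv : lev v + 1 = i
  hw : uc w = {x 0, x 1}
  hv : dc v = {x 1, x 2}
  hw' : uc w' = {x m, x (m - 1)}
  hv' : dc v' = {x (m - 1), x (m - 2)}
  dn : ∀ k l, k < l → l ≤ m → dcv (x k) (x l) = if l = k + 1 then dk m k else 0
  n2 : m = 5 → NE i C x 2 = 0

namespace DLt

variable (h : DLt r i K C w v w' v' m x)
include h

lemma hd : ∀ k l, k < l → l ≤ m → l ≠ k + 1 → dcv (x k) (x l) = 0 := by
  intro k l h1 h2 h3
  rw [h.dn k l h1 h2, if_neg h3]

lemma nw : nz i w = ed x 0 := by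
  rw [nz_low h.lw, h.hw]
  rfl

lemma nv : nz i v = ed x 1 := by
  rw [nz_upp h.lv, h.hv]
  rfl

lemma n01 : x 0 ≠ x 1 := h.W.ne (by omega) (by have := h.hm; omega) (by omega)
lemma n12 : x 1 ≠ x 2 := h.W.ne (by have := h.hm; omega) (by have := h.hm; omega) (by omega)
lemma n02 : x 0 ≠ x 2 := h.W.ne (by omega) (by have := h.hm; omega) (by omega)

/-- `Nx` at an edge -/
lemma Nw {k : ℕ} (hk : k < m) : (if Disjoint (nz i w) (ed x k) then (1 : ℤ) else 0) =
    if 2 ≤ k then 1 else 0 := by
  have := h.hm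
  have e : Disjoint (nz i w) (ed x k) ↔ 2 ≤ k := by
    rw [h.nw, h.W.disj_ed (by omega) hk]
    omega
  simp only [e]

lemma Nv {k : ℕ} (hk : k < m) : (if Disjoint (nz i v) (ed x k) then (1 : ℤ) else 0) =
    if 3 ≤ k then 1 else 0 := by
  have := h.hm
  have e : Disjoint (nz i v) (ed x k) ↔ 3 ≤ k := by
    rw [h.nv, h.W.disj_ed (by omega) hk]
    omega
  simp only [e]

lemma Mw {k : ℕ} (hk : k < m) : (if (nz i w ∩ ed x k).card = 1 then (1 : ℤ) else 0) =
    if k = 1 then 1 else 0 := by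
  have := h.hm
  have e : ((nz i w ∩ ed x k).card = 1) ↔ k = 1 := by
    rw [h.nw, h.W.inter_ed (by omega) hk]
    omega
  simp only [e]

lemma Mv {k : ℕ} (hk : k < m) : (if (nz i v ∩ ed x k).card = 1 then (1 : ℤ) else 0) =
    if k = 0 ∨ k = 2 then 1 else 0 := by
  have := h.hm
  have e : ((nz i v ∩ ed x k).card = 1) ↔ k = 0 ∨ k = 2 := by
    rw [h.nv, h.W.inter_ed (by omega) hk]
    omega
  simp only [e]

/-- nothing over a lost pair -/
lemma DE_lost {k : ℕ} (hk : k < m) (h0 : dk m k = 0) : DE i C x k = ∅ := by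
  classical
  have hm := h.hm
  rw [eq_empty_iff_forall_notMem]
  intro z hz
  obtain ⟨hzC, hz1, hz2⟩ := mem_DE.1 hz
  obtain ⟨-, y, -, -, -, -, -, hor⟩ := PN_dat h.W.H (C := C) (mem_PN.2 ⟨hzC, Or.inl hz1⟩)
  rcases hor with ⟨-, -, -, h4, h5, -⟩ | ⟨h3, -⟩
  · have ha : x k ∈ uc y := by
      rw [← h5, hz2]; exact (h.W.mem_ed (by omega) (by omega)).2 (Or.inl rfl)
    have hb : x (k + 1) ∈ uc y := by
      rw [← h5, hz2]; exact (h.W.mem_ed (by omega) (by omega)).2 (Or.inr rfl)
    have h3 := h.dn k (k + 1) (by omega) (by omega)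
    rw [if_pos rfl, h0] at h3
    unfold dcv at h3
    rw [card_eq_zero, filter_eq_empty_iff] at h3
    exact h3 (mem_univ y) ⟨mem_uc.1 ha, mem_uc.1 hb⟩
  · have := lev_PU h3
    have := lev_PD hz1
    omega

lemma NE1 : NE i C x 1 = 0 := by
  have hm := h.hm
  unfold NE
  rw [h.DE_lost (by omega) (by unfold dk; rw [if_neg (by omega), if_pos (by omega)]),
    h.W.ue_inner (by omega) (by omega)]
  simp

/-- sums over the pendants -/
lemma sum_PN (f : P → ℤ) (g : Finset P → ℤ) : ∑ z ∈ PN i C, f z * g (sit i z) =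
    ∑ k ∈ range m, (∑ z ∈ (PN i C).filter (fun z => sit i z = ed x k), f z) * g (ed x k) :=
  h.W.group h.hd f g

lemma sum_vp : ∑ z ∈ PN i C, vp i z = ∑ k ∈ range m, NE i C x k := by
  have e1 := h.sum_PN (fun z => vp i z) (fun _ => 1)
  simp only [mul_one] at e1
  rw [e1]
  simp only [← NE_eq]

lemma sum_vp_split : ∑ z ∈ PN i C, vp i z =
    NE i C x 0 + NE i C x 2 + ∑ k ∈ Ico 3 m, NE i C x k := by
  have hm := h.hm
  rw [h.sum_vp, range_split (by omega), h.NE1]
  ring

/-- the children of the pendants -/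
lemma sum_ch : ∑ z ∈ PN i C, vp i z * (ch i C z * (Nx i w z - Nx i v z)) = CH i C x 2 := by
  have hm := h.hm
  have e1 := h.sum_PN (fun z => vp i z * ch i C z)
    (fun T => (if Disjoint (nz i w) T then (1 : ℤ) else 0) -
      (if Disjoint (nz i v) T then (1 : ℤ) else 0))
  have e2 : ∑ z ∈ PN i C, vp i z * (ch i C z * (Nx i w z - Nx i v z)) =
      ∑ z ∈ PN i C, vp i z * ch i C z * ((if Disjoint (nz i w) (sit i z) then (1 : ℤ) else 0) -
      (if Disjoint (nz i v) (sit i z) then (1 : ℤ) else 0)) := by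
    refine sum_congr rfl fun z _ => ?_
    unfold Nx
    ring
  rw [e2, e1]
  have e0 : ∀ k, ∑ z ∈ (PN i C).filter (fun z => sit i z = ed x k), vp i z * ch i C z =
    CH i C x k := fun k => rfl
  simp only [e0]
  rw [sum_congr rfl (g := fun k => CH i C x k * ((if 2 ≤ k then 1 else 0) -
    (if 3 ≤ k then 1 else 0)))]
  · rw [range_split (by omega)]
    have e3 : ∑ k ∈ Ico 3 m, CH i C x k * ((if 2 ≤ k then 1 else 0) -
        (if 3 ≤ k then (1 : ℤ) else 0)) = 0 := by
      refine sum_eq_zero fun k hk => ?_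
      rw [mem_Ico] at hk
      rw [if_pos (by omega), if_pos (by omega)]
      ring
    rw [e3]
    norm_num
  · intro k hk
    rw [mem_range] at hk
    rw [h.Nw hk, h.Nv hk]

/-- the pendants which meet a double in one site -/
lemma sum_mx : ∑ z ∈ PN i C, vp i z * (Mx i w z - Mx i v z) = - NE i C x 0 - NE i C x 2 := by
  have hm := h.hm
  have e1 := h.sum_PN (fun z => vp i z)
    (fun T => (if (nz i w ∩ T).card = 1 then (1 : ℤ) else 0) -
      (if (nz i v ∩ T).card = 1 then (1 : ℤ) else 0))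
  have e2 : ∑ z ∈ PN i C, vp i z * (Mx i w z - Mx i v z) =
      ∑ z ∈ PN i C, vp i z * ((if (nz i w ∩ sit i z).card = 1 then (1 : ℤ) else 0) -
      (if (nz i v ∩ sit i z).card = 1 then (1 : ℤ) else 0)) := rfl
  rw [e2, e1]
  simp only [← NE_eq]
  rw [sum_congr rfl (g := fun k => NE i C x k * ((if k = 1 then 1 else 0) -
    (if k = 0 ∨ k = 2 then 1 else 0)))]
  · rw [range_split (by omega)]
    have e3 : ∑ k ∈ Ico 3 m, NE i C x k * ((if k = 1 then 1 else 0) -
        (if k = 0 ∨ k = 2 then (1 : ℤ) else 0)) = 0 := by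
      refine sum_eq_zero fun k hk => ?_
      rw [mem_Ico] at hk
      rw [if_neg (by omega), if_neg (by omega)]
      ring
    rw [e3, h.NE1]
    norm_num
    ring
  · intro k hk
    rw [mem_range] at hk
    rw [h.Mw hk, h.Mv hk]

/-- matched lower doubles over a pair -/
lemma mmx {a b : ℕ} (hab : a < b) (hb : b ≤ m) : W4.mm i K C {x a, x b} =
    if b = a + 1 then (if a = 1 ∨ a + 2 = m then 0 else 1) else 0 := by
  have hm := h.hm
  rw [h.hmm a b hab hb, h.dn a b hab hb]
  unfold dk
  split_ifs <;> first | omega | contradiction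

lemma mmx' {a b : ℕ} (hab : a < b) (hb : b ≤ m) : W4.mm i K C {x b, x a} =
    if b = a + 1 then (if a = 1 ∨ a + 2 = m then 0 else 1) else 0 := by
  rw [pair_comm]
  exact h.mmx hab hb

lemma mm01 : W4.mm i K C {x 0, x 1} = 1 := by
  have hm := h.hm
  rw [h.mmx (by omega) (by omega), if_pos (by omega), if_neg (by omega)]

lemma mm12 : W4.mm i K C {x 1, x 2} = 0 := by
  have hm := h.hm
  rw [h.mmx (by omega) (by omega), if_pos (by omega), if_pos (by omega)]

lemma mme {k : ℕ} (h2 : 2 ≤ k) (hk : k < m) : W4.mm i K C {x k, x (k + 1)} =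
    if k + 2 = m then 0 else 1 := by
  rw [h.mmx (by omega) (by omega), if_pos rfl]
  by_cases e : k + 2 = m
  · rw [if_pos e, if_pos (Or.inr e)]
  · rw [if_neg e, if_neg (by omega)]

lemma mm0' {k : ℕ} (h2 : 2 ≤ k) (hk : k ≤ m) : W4.mm i K C {x k, x 0} = 0 := by
  rw [h.mmx' (by omega) (by omega), if_neg (by omega)]

lemma mm1' {k : ℕ} (h2 : 2 ≤ k) (hk : k ≤ m) : W4.mm i K C {x k, x 1} = 0 := by
  rw [h.mmx' (by omega) (by omega)]
  by_cases e : k = 1 + 1
  · rw [if_pos e, if_pos (Or.inl rfl)]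
  · rw [if_neg e]

lemma mm2' {k : ℕ} (h2 : 3 ≤ k) (hk : k ≤ m) : W4.mm i K C {x k, x 2} =
    if k = 3 then 1 else 0 := by
  have hm := h.hm
  rw [h.mmx' (by omega) (by omega)]
  by_cases e : k = 2 + 1
  · rw [if_pos e, if_neg (by omega), if_pos (by omega)]
  · rw [if_neg e, if_neg (by omega)]

lemma dns {k l : ℕ} (hk : k ≤ m) (hl : l ≤ m) (hkl : k ≠ l) : dcv (x k) (x l) =
    if l = k + 1 then dk m k else if k = l + 1 then dk m l else 0 := by
  rcases Nat.lt_or_gt_of_ne hkl with h1 | h1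
  · rw [h.dn k l h1 hl]
    split_ifs <;> first | omega | contradiction
  · rw [kf_dcv_comm, h.dn l k h1 hk]
    split_ifs <;> first | omega | contradiction

/-- no pendants at the ends of the doubled pair -/
lemma deg0 : (dc (x 0)).card = 2 := by
  have hm := h.hm
  have h1 := h.W.deg (k := 0) (by omega)
  have h2 := h.W.dc_le (k := 0) (by omega)
  have h3 : dcv (x 0) (x 1) ≤ ∑ l ∈ (range (m + 1)).erase 0, dcv (x 0) (x l) :=
    single_le_sum (f := fun l => dcv (x 0) (x l)) (fun _ _ => Nat.zero_le _)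
      (mem_erase.2 ⟨by omega, mem_range.2 (by omega)⟩)
  have e : dk m 0 = 2 := by unfold dk; rw [if_pos (Or.inl rfl)]
  rw [h.dn 0 1 (by omega) (by omega), if_pos rfl, e] at h3
  omega

lemma deg1 : (dc (x 1)).card = 2 := by
  have hm := h.hm
  have h1 := h.W.deg (k := 1) (by omega)
  have h2 := h.W.dc_le (k := 1) (by omega)
  have h3 : dcv (x 1) (x 0) ≤ ∑ l ∈ (range (m + 1)).erase 1, dcv (x 1) (x l) :=
    single_le_sum (f := fun l => dcv (x 1) (x l)) (fun _ _ => Nat.zero_le _)
      (mem_erase.2 ⟨by omega, mem_range.2 (by omega)⟩)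
  have e : dk m 0 = 2 := by unfold dk; rw [if_pos (Or.inl rfl)]
  rw [h.dns (by omega) (by omega) (by omega), if_neg (by omega), if_pos (by omega), e] at h3
  omega

lemma deg2 : (dc (x 2)).card = 1 := by
  have hm := h.hm
  have h1 := h.W.deg (k := 2) (by omega)
  rw [sum_eq_single 3] at h1
  · have e : dk m 2 = 1 := by unfold dk; rw [if_neg (by omega), if_neg (by omega)]
    rw [h.dns (by omega) (by omega) (by omega), if_pos (by omega), e,
      h.W.pen0 2 le_rfl (by omega), card_empty] at h1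
    omega
  · intro l hl hne
    rw [mem_erase, mem_range] at hl
    rw [h.dns (by omega) (by omega) (Ne.symm hl.1)]
    unfold dk
    split_ifs <;> first | omega | contradiction
  · intro h2
    exact absurd (mem_erase.2 ⟨by omega, mem_range.2 (by omega)⟩) h2

lemma deg3 (h6 : 6 ≤ m) : (dc (x 3)).card = 2 := by
  have hm := h.hm
  have h1 := h.W.deg (k := 3) (by omega)
  have h2 := h.W.dc_le (k := 3) (by omega)
  have h3 : ∑ l ∈ ({2, 4} : Finset ℕ), dcv (x 3) (x l) ≤
      ∑ l ∈ (range (m + 1)).erase 3, dcv (x 3) (x l) := by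
    refine sum_le_sum_of_subset ?_
    intro l hl
    rw [mem_insert, mem_singleton] at hl
    rw [mem_erase, mem_range]
    omega
  have e1 : dk m 2 = 1 := by unfold dk; rw [if_neg (by omega), if_neg (by omega)]
  have e2 : dk m 3 = 1 := by unfold dk; rw [if_neg (by omega), if_neg (by omega)]
  rw [sum_pair (by omega), h.dns (by omega) (by omega) (by omega),
    h.dns (by omega) (by omega) (by omega), if_neg (by omega), if_pos (by omega),
    if_pos (by omega), e1, e2] at h3
  omega

lemma nmem {k : ℕ} (hk : k + 2 < m) : x k ∉ uc w' ∧ x k ∉ dc v' := by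
  constructor
  · rw [h.hw', mem_insert, mem_singleton]
    rintro (h1 | h1)
    · exact h.W.ne (by omega) (by omega) (by omega) h1
    · exact h.W.ne (by omega) (by omega) (by omega) h1
  · rw [h.hv', mem_insert, mem_singleton]
    rintro (h1 | h1)
    · exact h.W.ne (by omega) (by omega) (by omega) h1
    · exact h.W.ne (by omega) (by omega) (by omega) h1

/-- the matched near elements at the sites -/
lemma dg0 : dg i K C (x 0) = (uc (x 0)).card + 1 := by
  have hm := h.hm
  have h2 := h.nmem (k := 0) (by omega)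
  rw [h.hg _ (h.W.mem 0 (by omega)) (h.W.lev_x 0 (by omega)), h.deg0, h.hw, h.hv,
    if_pos (mem_insert_self _ _), if_neg, if_neg h2.1, if_neg h2.2]
  · push_cast
    ring
  · rw [mem_insert, mem_singleton]
    rintro (h1 | h1)
    · exact h.n01 h1
    · exact h.n02 h1

lemma dg2 : dg i K C (x 2) = 2 := by
  have hm := h.hm
  have h2 := h.nmem (k := 2) (by omega)
  rw [h.hg _ (h.W.mem 2 (by omega)) (h.W.lev_x 2 (by omega)), h.deg2, h.hw, h.hv,
    h.W.uc_inner (by omega) (by omega), if_neg,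
    if_pos (mem_insert_of_mem (mem_singleton_self _)), if_neg h2.1, if_neg h2.2]
  · norm_num
  · rw [mem_insert, mem_singleton]
    rintro (h1 | h1)
    · exact h.n02 h1.symm
    · exact h.n12 h1.symm

lemma dg1 : dg i K C (x 1) = 2 := by
  have hm := h.hm
  have h2 := h.nmem (k := 1) (by omega)
  rw [h.hg _ (h.W.mem 1 (by omega)) (h.W.lev_x 1 (by omega)), h.deg1, h.hw, h.hv,
    h.W.uc_inner (by omega) (by omega),
    if_pos (mem_insert_of_mem (mem_singleton_self _)), if_pos (mem_insert_self _ _),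
    if_neg h2.1, if_neg h2.2]
  norm_num

lemma dg3 (h6 : 6 ≤ m) : dg i K C (x 3) = 4 := by
  have hm := h.hm
  have h2 := h.nmem (k := 3) (by omega)
  rw [h.hg _ (h.W.mem 3 (by omega)) (h.W.lev_x 3 (by omega)), h.deg3 h6, h.hw, h.hv,
    h.W.uc_inner (by omega) (by omega), if_neg, if_neg, if_neg h2.1, if_neg h2.2]
  · norm_num
  · rw [mem_insert, mem_singleton]
    rintro (h1 | h1)
    · exact h.W.ne (by omega) (by omega) (by omega) h1
    · exact h.W.ne (by omega) (by omega) (by omega) h1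
  · rw [mem_insert, mem_singleton]
    rintro (h1 | h1)
    · exact h.W.ne (by omega) (by omega) (by omega) h1
    · exact h.W.ne (by omega) (by omega) (by omega) h1

/-- the weights of the pendants in the form -/
lemma Ds0 {k : ℕ} (h2 : 2 ≤ k) (hk : k < m) : Ds i K C (ed x k) {x 0, x 1} =
    dg i K C (x k) + dg i K C (x (k + 1)) - 1 - (if k + 2 = m then 0 else 1) := by
  have hm := h.hm
  have n : ∀ a b, a ≤ m → b ≤ m → a ≠ b → x a ≠ x b := fun a b ha hb hab => h.W.ne ha hb hab
  have e1 : W4.mm i K C (ed x k ∪ {x 0, x 1}) = 1 + (if k + 2 = m then 0 else 1) := by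
    unfold ed
    rw [mm_four (n _ _ (by omega) (by omega) (by omega)) (n _ _ (by omega) (by omega) (by omega))
      (n _ _ (by omega) (by omega) (by omega)) (n _ _ (by omega) (by omega) (by omega))
      (n _ _ (by omega) (by omega) (by omega)) (n _ _ (by omega) (by omega) (by omega)),
      h.mme h2 hk, h.mm01, h.mm0' (by omega) (by omega), h.mm1' (by omega) (by omega),
      h.mm0' (by omega) (by omega), h.mm1' (by omega) (by omega)]
    ring
  unfold Ds
  rw [e1]
  have e2 : ed x k = {x k, x (k + 1)} := rfl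
  rw [e2, sum_pair (n _ _ (by omega) (by omega) (by omega))]
  ring

lemma Ds1 {k : ℕ} (h2 : 3 ≤ k) (hk : k < m) : Ds i K C (ed x k) {x 1, x 2} =
    dg i K C (x k) + dg i K C (x (k + 1)) - (if k + 2 = m then 0 else 1) -
      (if k = 3 then 1 else 0) := by
  have hm := h.hm
  have n : ∀ a b, a ≤ m → b ≤ m → a ≠ b → x a ≠ x b := fun a b ha hb hab => h.W.ne ha hb hab
  have e1 : W4.mm i K C (ed x k ∪ {x 1, x 2}) = (if k + 2 = m then 0 else 1) +
      (if k = 3 then 1 else 0) := by
    unfold ed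
    rw [mm_four (n _ _ (by omega) (by omega) (by omega)) (n _ _ (by omega) (by omega) (by omega))
      (n _ _ (by omega) (by omega) (by omega)) (n _ _ (by omega) (by omega) (by omega))
      (n _ _ (by omega) (by omega) (by omega)) (n _ _ (by omega) (by omega) (by omega)),
      h.mme (by omega) hk, h.mm12, h.mm1' (by omega) (by omega), h.mm2' h2 (by omega),
      h.mm1' (by omega) (by omega), h.mm2' (by omega) (by omega), if_neg (show ¬ k + 1 = 3 by omega)]
    ring
  unfold Ds
  rw [e1]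
  have e2 : ed x k = {x k, x (k + 1)} := rfl
  rw [e2, sum_pair (n _ _ (by omega) (by omega) (by omega))]
  ring

/-- the weighted sum of the form -/
lemma sum_big :
    ∑ z ∈ PN i C, vp i z * (Nx i w z * (dg i K C (x 0) + Ds i K C (sit i z) {x 0, x 1}) -
        Nx i v z * (dg i K C (x 2) + Ds i K C (sit i z) {x 1, x 2})) =
      NE i C x 2 * (dg i K C (x 0) + dg i K C (x 2) + dg i K C (x 3) - 2) +
      (dg i K C (x 0) - dg i K C (x 2) - 1) * ∑ k ∈ Ico 3 m, NE i C x k + NE i C x 3 := by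
  have hm := h.hm
  have e1 := h.sum_PN (fun z => vp i z)
    (fun T => (if Disjoint (nz i w) T then (1 : ℤ) else 0) *
      (dg i K C (x 0) + Ds i K C T {x 0, x 1}) -
      (if Disjoint (nz i v) T then (1 : ℤ) else 0) * (dg i K C (x 2) + Ds i K C T {x 1, x 2}))
  have e2 : ∑ z ∈ PN i C, vp i z * (Nx i w z * (dg i K C (x 0) + Ds i K C (sit i z) {x 0, x 1}) -
        Nx i v z * (dg i K C (x 2) + Ds i K C (sit i z) {x 1, x 2})) =
      ∑ z ∈ PN i C, vp i z * ((if Disjoint (nz i w) (sit i z) then (1 : ℤ) else 0) *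
      (dg i K C (x 0) + Ds i K C (sit i z) {x 0, x 1}) -
      (if Disjoint (nz i v) (sit i z) then (1 : ℤ) else 0) *
        (dg i K C (x 2) + Ds i K C (sit i z) {x 1, x 2})) := rfl
  rw [e2, e1]
  simp only [← NE_eq]
  rw [range_split (by omega)]
  have v0 : (if Disjoint (nz i w) (ed x 0) then (1 : ℤ) else 0) = 0 := by
    rw [h.Nw (by omega)]; norm_num
  have v1 : (if Disjoint (nz i w) (ed x 1) then (1 : ℤ) else 0) = 0 := by
    rw [h.Nw (by omega)]; norm_num
  have v2 : (if Disjoint (nz i w) (ed x 2) then (1 : ℤ) else 0) = 1 := by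
    rw [h.Nw (by omega)]; norm_num
  have u0 : (if Disjoint (nz i v) (ed x 0) then (1 : ℤ) else 0) = 0 := by
    rw [h.Nv (by omega)]; norm_num
  have u1 : (if Disjoint (nz i v) (ed x 1) then (1 : ℤ) else 0) = 0 := by
    rw [h.Nv (by omega)]; norm_num
  have u2 : (if Disjoint (nz i v) (ed x 2) then (1 : ℤ) else 0) = 0 := by
    rw [h.Nv (by omega)]; norm_num
  have e3 : ∑ k ∈ Ico 3 m, NE i C x k * ((if Disjoint (nz i w) (ed x k) then (1 : ℤ) else 0) *
      (dg i K C (x 0) + Ds i K C (ed x k) {x 0, x 1}) -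
      (if Disjoint (nz i v) (ed x k) then (1 : ℤ) else 0) *
        (dg i K C (x 2) + Ds i K C (ed x k) {x 1, x 2})) =
      (dg i K C (x 0) - dg i K C (x 2) - 1) * ∑ k ∈ Ico 3 m, NE i C x k + NE i C x 3 := by
    have e4 : ∀ k ∈ Ico 3 m, NE i C x k * ((if Disjoint (nz i w) (ed x k) then (1 : ℤ) else 0) *
        (dg i K C (x 0) + Ds i K C (ed x k) {x 0, x 1}) -
        (if Disjoint (nz i v) (ed x k) then (1 : ℤ) else 0) *
          (dg i K C (x 2) + Ds i K C (ed x k) {x 1, x 2})) =
        (dg i K C (x 0) - dg i K C (x 2) - 1) * NE i C x k +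
          (if k = 3 then NE i C x k else 0) := by
      intro k hk
      rw [mem_Ico] at hk
      rw [h.Nw hk.2, h.Nv hk.2, if_pos (by omega), if_pos (by omega), h.Ds0 (by omega) hk.2,
        h.Ds1 hk.1 hk.2]
      split_ifs <;> ring
    rw [sum_congr rfl e4, sum_add_distrib, ← mul_sum, sum_ite_eq',
      if_pos (mem_Ico.2 ⟨le_rfl, by omega⟩)]
  rw [e3, v0, v1, v2, u0, u1, u2, h.NE1, h.Ds0 le_rfl (by omega), if_neg (by omega)]
  ring

/-- THE VALUE of one end -/
theorem end_eq : (∑ p ∈ PN i C, vp i p +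
      (dg i K C (x 0) - dg i K C (x 2) - W4.mm i K C {x 0, x 1} + W4.mm i K C {x 1, x 2})) +
      fW i K C w v (x 0) (x 1) (x 2) = 2 * (((DC i C).card : ℤ) - (DU i C).card) +
    (D2 i C).card + 2 * (((uc (x 0)).card : ℤ) - 1) * NE i C x 0 - 2 * NE i C x 3
    - 12 * NE i C x 2 + ((uc (x 0)).card : ℤ) ^ 2 - (uc (x 0)).card + 14 + Zs i C w v
    - CH i C x 2 := by
  have hm := h.hm
  have g0 := h.dg0
  have g1 := h.dg1
  have g2 := h.dg2
  have g3 : NE i C x 2 * (dg i K C (x 3)) = NE i C x 2 * 4 := by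
    by_cases h5 : m = 5
    · rw [h.n2 h5, zero_mul, zero_mul]
    · rw [h.dg3 (by omega)]
  have q1 := num_form h.W.H h.W.uc1
  have q2 := h.sum_vp_split
  have m1 : W4.mm i K C {x 0, x 1} = 1 := by
    have := h.mmx (a := 0) (b := 1) (by omega) (by omega)
    rw [if_pos (by omega), if_neg (by omega)] at this
    exact this
  have m2 : W4.mm i K C {x 1, x 2} = 0 := by
    have := h.mmx (a := 1) (b := 2) (by omega) (by omega)
    rw [if_pos (by omega), if_pos (by omega)] at this
    exact this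
  have m3 : W4.mm i K C {x 0, x 2} = 0 := by
    have := h.mmx (a := 0) (b := 2) (by omega) (by omega)
    rw [if_neg (by omega)] at this
    exact this
  have s1 : ∑ z ∈ PN i C, vp i z * (ch i C z * (Nx i w z - Nx i v z) +
      2 * (Mx i w z - Mx i v z)) = CH i C x 2 + 2 * (- NE i C x 0 - NE i C x 2) := by
    rw [← h.sum_ch, ← h.sum_mx, mul_sum, ← sum_add_distrib]
    exact sum_congr rfl fun z _ => by ring
  unfold fW
  rw [s1, h.sum_big, m1, m2, m3, g0, g1, g2, q2]
  rw [q2] at q1
  unfold Zs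
  push_cast
  linear_combination q1 - 2 * g3

end DLt

end Pool.Agent.GaussPoset.Win.Si

end

/-! From `Pool.Agent.W_448six_h74.SjD` -/

section

/-!
MP_448cb3_co, G2, case B, window `j`: THE LOGARITHMIC FORM of a component with two stars, `w32` free.
helper74.
-/

namespace Pool.Agent.GaussPoset.Win.Si

set_option linter.unusedSectionVars false

open Finset W4 Pa Pb
open Pool.Agent.GaussPoset.Win.SO (PN vp con on mem_PN vp_PD vp_PU)

universe u

variable {P : Type u} [Fintype P] [PartialOrder P] [DecidableEq P] {r i : ℕ}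
variable {psi : P → P} {C K : Finset P} {w v w' v' : P} {m : ℕ} {x : ℕ → P}

/-- the mirror image -/
theorem DLt.mirror (h : DLt r i K C w v w' v' m x) (lw : lev w' = i + 1) (lv : lev v' + 1 = i)
    (n2 : m = 5 → NE i C x (m - 3) = 0) : DLt r i K C w' v' w v m (fun k => x (m - k)) := by
  have hm := h.hm
  refine ⟨prow_mirror h.W (by omega), hm, ?_, ?_, lw, lv, ?_, ?_, ?_, ?_, ?_, ?_⟩
  · intro y hy hl
    rw [h.hg y hy hl]
    ring
  · intro a b hab hb
    show W4.mm i K C {x (m - a), x (m - b)} = (dcv (x (m - a)) (x (m - b)) : ℤ) - _ - _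
    rw [pair_comm, h.hmm (m - b) (m - a) (by omega) (by omega), kf_dcv_comm]
    have e1 : (m - b = 0 ∧ m - a = 1) ↔ (a + 1 = m ∧ b = m) := by omega
    have e2 : (m - b + 1 = m ∧ m - a = m) ↔ (a = 0 ∧ b = 1) := by omega
    simp only [e1, e2]
    ring
  · show uc w' = {x (m - 0), x (m - 1)}
    rw [h.hw', Nat.sub_zero]
  · show dc v' = {x (m - 1), x (m - 2)}
    exact h.hv'
  · show uc w = {x (m - m), x (m - (m - 1))}
    rw [h.hw, show m - m = 0 by omega, show m - (m - 1) = 1 by omega]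
  · show dc v = {x (m - (m - 1)), x (m - (m - 2))}
    rw [h.hv, show m - (m - 1) = 1 by omega, show m - (m - 2) = 2 by omega]
  · intro k l hkl hl
    show dcv (x (m - k)) (x (m - l)) = _
    rw [kf_dcv_comm, h.dn (m - l) (m - k) (by omega) (by omega)]
    by_cases e : l = k + 1
    · rw [if_pos e, if_pos (by omega)]
      unfold dk
      split_ifs <;> omega
    · rw [if_neg e, if_neg (by omega)]
  · intro h5
    rw [NE_mirror (by omega), show m - 1 - 2 = m - 3 by omega]
    exact n2 h5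

theorem DLt.num_QS (h : DLt r i K C w v w' v' m x) :
    ∑ p ∈ PN i C, vp i p + ∑ q ∈ M4 i C, vp i q.1 * vp i q.2 = QS (NE i C x) 0 m := by
  rw [h.W.sum_M4_row h.hd, h.sum_vp]
  unfold QS
  rw [← range_eq_Ico, add_comm]
  congr 1
  refine sum_congr rfl fun k hk => ?_
  congr 1
  refine sum_congr rfl fun l hl => ?_
  rw [mem_range] at hk hl
  have e : (¬ Disjoint (ed x k) (ed x l)) ↔ (k ≤ l + 1 ∧ l ≤ k + 1) := by
    rw [h.W.disj_ed hk hl]
    omega
  simp only [e]

lemma dl_NE (k : ℕ) : Pa.dl i C x k = NE i C x k := by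
  rw [NE_eq]
  unfold Pa.dl chi' ed
  rw [sum_filter]
  exact sum_congr rfl fun p _ => by split_ifs <;> ring

/-- the value of one end of a row with two stars -/
noncomputable def Ew (i : ℕ) (C : Finset P) (x : ℕ → P) (w v : P) : ℤ :=
  2 * (((uc (x 0)).card : ℤ) - 1) * NE i C x 0 - 2 * NE i C x 3 - 8 * NE i C x 2 +
    ((uc (x 0)).card : ℤ) ^ 2 - (uc (x 0)).card + 10 -
    2 * ∑ z ∈ Z4 i C, tz i z * (Nx i w z - Nx i v z) - CH i C x 2

namespace Two

variable (B : Two r i K psi C w v w' v' x m)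
include B

/-- six sites: no pendant over the middle pair -/
lemma n5 (h5 : m = 5) : NE i C x 2 = 0 := by
  rw [NE_eq]
  refine sum_eq_zero fun p hp => ?_
  rw [mem_filter] at hp
  exact absurd hp.2 (B.Q.mid h5 p hp.1)

theorem toT : DLt r i K C w v w' v' m x := by
  have hm := B.Q.hm
  refine ⟨B.W, hm, fun y hy hl => K9_dg B.Q.toK9 hy hl, ?_, B.Q.lw, B.Q.lv, B.Q.uw, B.Q.dv, B.Q.uw',
    B.Q.dv', B.hd, B.n5⟩
  intro a b hab hb
  rw [K9_mm B.Q.toK9 (B.W.mem a (by omega)) (B.W.lev_x a (by omega))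
    (B.W.ne (by omega) hb (by omega))]
  have key : ∀ p q : ℕ, p < q → q ≤ m → (({x p, x q} : Finset P) = {x a, x b} ↔
      (a = p ∧ b = q)) := by
    intro p q hpq hq
    constructor
    · intro h1
      have h2 : x a ∈ ({x p, x q} : Finset P) := by rw [h1]; exact mem_insert_self _ _
      have h3 : x b ∈ ({x p, x q} : Finset P) := by
        rw [h1]; exact mem_insert_of_mem (mem_singleton_self _)
      rw [mem_insert, mem_singleton] at h2 h3
      rcases h2 with h2 | h2
      · have := B.W.inj _ _ (by omega) (by omega) h2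
        rcases h3 with h3 | h3
        · have := B.W.inj _ _ (by omega) (by omega) h3
          omega
        · have := B.W.inj _ _ (by omega) (by omega) h3
          omega
      · have := B.W.inj _ _ (by omega) (by omega) h2
        rcases h3 with h3 | h3
        · have := B.W.inj _ _ (by omega) (by omega) h3
          omega
        · have := B.W.inj _ _ (by omega) (by omega) h3
          omega
    · rintro ⟨rfl, rfl⟩
      rfl
  rw [B.Q.uw, B.Q.uw', pair_comm (x m) (x (m - 1))]
  simp only [key 0 1 (by omega) (by omega), key (m - 1) m (by omega) le_rfl]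
  have e1 : (a = m - 1 ∧ b = m) ↔ (a + 1 = m ∧ b = m) := by omega
  simp only [e1]

theorem toT' : DLt r i K C w' v' w v m (fun k => x (m - k)) :=
  B.toT.mirror B.Q.lw' B.Q.lv' fun h5 => by
    rw [show m - 3 = 2 by omega]
    exact B.n5 h5

/-- the vacuum of a row with six sites -/
lemma vc5 (h5 : m = 5) : Vc i K C = -7 - (uc (x 0)).card - (uc (x m)).card := by
  classical
  subst h5
  have hL := B.list5
  have u0 := B.W.uc_le (k := 0) (by omega)
  have um := B.W.uc_le (k := 5) (by omega)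
  obtain ⟨g, hg⟩ : ∃ g : Bool × Finset ℕ → ℤ, g = fun t =>
    if t.2.card = 2 then (if t.1 = true then -3 else 0) else -1 := ⟨_, rfl⟩
  have e1 : Vc i K C = ∑ y ∈ N0 i K C, g (ty i x 5 y) := by
    unfold Vc
    rw [sum_filter]
    refine sum_congr rfl fun y hy => ?_
    obtain ⟨a1, a2, a3⟩ := mem_N0.1 hy
    have hc : (ty i x 5 y).2.card = (nz i y).card := by
      rw [B.nzI hy, card_image_of_injOn]
      exact injOn_of B.row.inj (fun k hk => mem_range.2 (by have := ty_le k hk; omega))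
    rw [hg]
    simp only [hc]
    rcases mem_near.1 a1 with h | h
    · have hn : y ∉ dbU P i := fun hd => by have := (mem_dbU.1 hd).1; omega
      rw [if_pos hn]
      by_cases h2 : (nz i y).card = 2
      · rw [if_pos (mem_dbL.2 ⟨h, by rw [← nz_low h, h2]⟩), if_pos h2,
          if_pos (show (ty i x 5 y).1 = true from decide_eq_true h)]
      · rw [if_neg (fun hd => h2 (by rw [nz_low h]; exact (mem_dbL.1 hd).2)), if_neg h2]
    · by_cases h2 : (nz i y).card = 2
      · rw [if_neg (fun hd => hd (mem_dbU.2 ⟨h, by rw [← nz_upp h, h2]⟩)), if_pos h2,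
          if_neg (show ¬ (ty i x 5 y).1 = true from fun hd => by
            have := of_decide_eq_true hd
            omega)]
      · rw [if_pos (fun hd => h2 (by rw [nz_upp h]; exact (mem_dbU.1 hd).2)), if_neg h2,
          if_neg (fun hd => by have := (mem_dbL.1 hd).1; omega)]
  have e2 : ∑ y ∈ N0 i K C, g (ty i x 5 y) = (((N0 i K C).val.map (ty i x 5)).map g).sum := by
    rw [Multiset.map_map]
    rfl
  rw [e1, e2, hL, Multiset.map_coe, Multiset.sum_coe]
  unfold TL
  rw [List.map_append, List.map_append, List.sum_append, List.sum_append, List.map_replicate,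
    List.map_replicate, List.sum_replicate, List.sum_replicate]
  have g0 : g (false, {0}) = -1 := by rw [hg]; rfl
  have g5 : g (false, {5}) = -1 := by rw [hg]; rfl
  have ge : (List.map g (List.flatMap (fun k => [((true, {k, k + 1}) : Bool × Finset ℕ),
      (false, {k, k + 1})]) [0, 2, 4])).sum = -9 := by
    rw [hg]
    decide
  rw [g0, g5, ge]
  simp only [nsmul_eq_mul]
  have c1 : (((uc (x 0)).card - 1 : ℕ) : ℤ) = (uc (x 0)).card - 1 := by omega
  have c2 : (((uc (x 5)).card - 1 : ℕ) : ℤ) = (uc (x 5)).card - 1 := by omega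
  rw [c1, c2]
  ring

/-- THE FORM, `w32` free -/
theorem Q4_eq : I2.Q4 (st i C).card (ZS i C) =
      fW i K C w v (x 0) (x 1) (x 2) + fW i K C w' v' (x m) (x (m - 1)) (x (m - 2)) -
      ∑ q ∈ M4 i C, vp i q.1 * vp i q.2 + 4 * (NE i C x 2 + NE i C x (m - 3) - 2) +
      (if m = 5 then 12 else if m = 6 then 2 else 0) := by
  have hm := B.Q.hm
  have e1 : I2.al 2 (st i C).card (ZS i C) = lc (st i C).card 1 (ZC i C 2) := by
    unfold I2.al lc
    rw [coeff_ZS, pow_one]
  have e2 : I2.be 4 (st i C).card (ZS i C) = lc (st i C).card 2 (ZC i C 4) := by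
    unfold I2.be lc
    rw [coeff_ZS]
  obtain ⟨n1, n2⟩ := B.sumN
  have hZ := B.hZ
  have h1 : lc (st i C).card 2 (ZLR i K psi C w v w' v' 4) =
      qq i K psi C w v * qq i K psi C w' v' +
        oo i C w' v' * (∑ p ∈ PN i C, vp i p * NN i w v p - 1) +
        oo i C w v * (∑ p ∈ PN i C, vp i p * NN i w' v' p - 1) +
      (if m = 5 then ((uc (x 0)).card : ℤ) + (uc (x m)).card + 1 else
        if m = 6 then -1 else 0) := by
    rw [n1, n2]
    exact hZ
  have h2 := two_gen B.Q.toK9c h1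
  have z4 : (Z4 i C).card = (T4 i C).card := by
    congr 1
    exact Subset.antisymm (fun z hz => B.Q.zz z hz) (T4_subset i C)
  have hB : m = 5 → ((st i C).card : ℤ) = 6 := by
    intro h5
    rw [B.row.st, card_image_of_injOn (injOn_of B.row.inj Subset.rfl), card_range, h5]
    rfl
  have d1 : dg i K C (x 1) = 2 := by
    rw [B.dgx (by omega), (B.dc_end (k := 1) (by omega) (by omega)).1,
      B.W.uc_inner (k := 1) (by omega) (by omega), if_pos (by omega), if_pos (by omega),
      if_neg (by omega), if_neg (by omega)]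
    norm_num
  have d2 : dg i K C (x (m - 1)) = 2 := by
    rw [B.dgx (by omega), (B.dc_end (k := m - 1) (by omega) (by omega)).1,
      B.W.uc_inner (k := m - 1) (by omega) (by omega), if_neg (by omega), if_neg (by omega),
      if_pos (by omega), if_pos (by omega)]
    norm_num
  unfold I2.Q4
  rw [e1, e2, h2, n1, n2, c1_two B.Q.toK9c, B.w3v, oo_val B.Q.toK9c, oo_val B.Q.toK9c.sym, d1, d2,
    z4, dl_NE, dl_NE]
  by_cases h5 : m = 5
  · rw [if_pos h5, if_pos h5, if_pos h5, B.vc5 h5, hB h5]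
    ring
  · rw [if_neg h5, if_neg h5, if_neg h5]
    by_cases h6 : m = 6
    · rw [if_pos h6, if_pos h6]
      ring
    · rw [if_neg h6, if_neg h6]
      ring

/-- THE LOGARITHMIC FORM -/
theorem L_form : Lv i C = QS (NE i C x) 0 m + Ew i C x w v + Ew i C (fun k => x (m - k)) w' v' +
      (if m = 5 then 12 else if m = 6 then 2 else 0) := by
  have hm := B.Q.hm
  have f1 := B.toT.end_eq
  have f2 := B.toT'.end_eq
  have a1 := K9x_al B.Q
  have q1 := B.toT.num_QS
  have q2 := num_form B.W.H B.W.uc1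
  have z4 : (Z4 i C).card = (T4 i C).card := by
    congr 1
    exact Subset.antisymm (fun z hz => B.Q.zz z hz) (T4_subset i C)
  have n3 : NE i C (fun k => x (m - k)) 2 = NE i C x (m - 3) := by
    rw [NE_mirror (by omega), show m - 1 - 2 = m - 3 by omega]
  simp only [show m - 0 = m from rfl] at f2
  unfold Zs at f1 f2
  unfold Lv Ew
  simp only [show m - 0 = m from rfl]
  rw [B.Q4_eq, a1]
  rw [z4] at f1 f2
  rw [n3] at f2 ⊢
  linear_combination f1 + f2 - 2 * q2 + q1

end Two

end Pool.Agent.GaussPoset.Win.Si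

end

/-! From `Pool.Agent.W_448six_h74.SkA` -/

section

/-!
MP_448cb3_co, G2, case B, window `j`: ONE END of a component with two stars, the elements over three sites
and the children of the pendants (the arguments of helper97 `PbV` and helper22 `KbC`).  helper74.
-/

namespace Pool.Agent.GaussPoset.Win.Si

set_option linter.unusedSectionVars false

open Finset W4 Pa Pb
open Pool.Agent.GaussPoset.Win.SO (PN vp con on mem_PN vp_PD vp_PU)

universe u

variable {P : Type u} [Fintype P] [PartialOrder P] [DecidableEq P] {r i : ℕ}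
variable {psi : P → P} {C K : Finset P} {w v w' v' : P} {m : ℕ} {x : ℕ → P}

namespace DLt

variable (h : DLt r i K C w v w' v' m x)
include h

/-- an element over two doubles -/
lemma T_vals {z : P} {k : ℕ} (hk : k + 2 ≤ m) (hs : sit i z = ed x k ∪ ed x (k + 1)) :
    Nx i w z = (if 2 ≤ k then 1 else 0) ∧ Nx i v z = (if 3 ≤ k then 1 else 0) := by
  have hm := h.hm
  constructor
  · unfold Nx
    have e : Disjoint (nz i w) (sit i z) ↔ 2 ≤ k := by
      rw [hs, h.nw, disjoint_union_right, h.W.disj_ed (by omega) (by omega),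
        h.W.disj_ed (by omega) (by omega)]
      omega
    simp only [e]
  · unfold Nx
    have e : Disjoint (nz i v) (sit i z) ↔ 3 ≤ k := by
      rw [hs, h.nv, disjoint_union_right, h.W.disj_ed (by omega) (by omega),
        h.W.disj_ed (by omega) (by omega)]
      omega
    simp only [e]

lemma T_index {k l : ℕ} (hk : k + 2 ≤ m) (hl : l + 2 ≤ m)
    (hs : ed x k ∪ ed x (k + 1) = ed x l ∪ ed x (l + 1)) : k = l := by
  have key : ∀ k l, k + 2 ≤ m → l + 2 ≤ m → ed x k ∪ ed x (k + 1) = ed x l ∪ ed x (l + 1) →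
      l ≤ k ∧ k ≤ l + 2 := by
    intro k l hk hl hs
    have h1 : x k ∈ ed x l ∪ ed x (l + 1) := by
      rw [← hs]
      exact mem_union_left _ ((h.W.mem_ed (by omega) (by omega)).2 (Or.inl rfl))
    rw [mem_union, h.W.mem_ed (by omega) (by omega), h.W.mem_ed (by omega) (by omega)] at h1
    omega
  have h1 := key k l hk hl hs
  have h2 := key l k hl hk hs.symm
  omega

lemma T4_term {z : P} (hz : z ∈ T4 i C) :
    tz i z * (Nx i w z - Nx i v z) =
      (if lev z < i ∧ sit i z = ed x 2 ∪ ed x 3 then 1 else 0) -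
      (if i < lev z ∧ sit i z = ed x 2 ∪ ed x 3 then 1 else 0) := by
  have hm4 : 4 ≤ m := by have := h.hm; omega
  have hlz : i < lev z ∨ lev z < i := by
    rcases mem_Z4.1 (T4_sub hz) with h1 | h1
    · have := (mem_ZL.1 h1).2.1
      omega
    · have := (mem_ZU.1 h1).2.1
      omega
  rcases hlz with hl | hl
  · obtain ⟨k, y, y', hk, -, -, -, -, -, -, hs⟩ := h.W.T_low h.hd hz hl
    obtain ⟨v1, v2⟩ := h.T_vals hk hs
    have e : sit i z = ed x 2 ∪ ed x 3 ↔ k = 2 := by
      rw [hs]
      constructor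
      · intro h1
        exact h.T_index hk (by omega) h1
      · rintro rfl
        rfl
    rw [v1, v2]
    unfold tz
    rw [if_pos hl]
    simp only [e, hl, true_and, show ¬ lev z < i by omega, false_and, if_false]
    split_ifs <;> omega
  · obtain ⟨k, y, y', hk, -, -, -, -, -, -, hs⟩ := h.W.T_upp hz hl
    obtain ⟨v1, v2⟩ := h.T_vals hk hs
    have e : sit i z = ed x 2 ∪ ed x 3 ↔ k = 2 := by
      rw [hs]
      constructor
      · intro h1
        exact h.T_index hk (by omega) h1
      · rintro rfl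
        rfl
    rw [v1, v2]
    unfold tz
    rw [if_neg (by omega)]
    simp only [e, hl, true_and, show ¬ i < lev z by omega, false_and, if_false]
    split_ifs <;> omega

/-- the contribution of the elements over three sites -/
theorem Z_eq (hz : ∀ z ∈ Z4 i C, z ∈ T4 i C) :
    ∑ z ∈ Z4 i C, tz i z * (Nx i w z - Nx i v z) = (TUs i C x).card - ((TLs i C x).card : ℤ) := by
  classical
  have e : Z4 i C = T4 i C := Subset.antisymm (fun z h1 => hz z h1) (T4_subset i C)
  rw [e, sum_congr rfl fun z hz => h.T4_term hz, sum_sub_distrib]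
  unfold TLs TUs
  rw [card_filter, card_filter]
  push_cast
  ring

/-- at most one upper element over `x 2, x 3, x 4` -/
lemma TUs_le : (TUs i C x).card ≤ 1 := by
  classical
  have hm4 : 4 ≤ m := by have := h.hm; omega
  rw [card_le_one]
  intro z hz z' hz'
  unfold TUs at hz hz'
  rw [mem_filter] at hz hz'
  obtain ⟨k, y, y', hk, hzC, hlz, hne, huc, e1, e2, hs⟩ := h.W.T_upp hz.1 hz.2.1
  obtain ⟨l, q, q', hl, hzC', hlz', hne', huc', e1', e2', hs'⟩ := h.W.T_upp hz'.1 hz'.2.1
  have hk2 : k = 2 := h.T_index hk (by omega) (hs.symm.trans hz.2.2)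
  have hl2 : l = 2 := h.T_index hl (by omega) (hs'.symm.trans hz'.2.2)
  subst hk2
  subst hl2
  have g1 : q = y := h.W.up_uniq (by omega) e1' e1
  have g2 : q' = y' := h.W.up_uniq (by omega) e2' e2
  subst g1
  subst g2
  by_contra hzz
  have hlev : lev z < lev z + 1 := Nat.lt_succ_self _
  have hq : q ∈ dc z := by rw [huc]; exact mem_insert_self _ _
  have hq' : q' ∈ dc z := by rw [huc]; exact mem_insert_of_mem (mem_singleton_self _)
  have hp : q ∈ dc z' := by rw [huc']; exact mem_insert_self _ _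
  have hp' : q' ∈ dc z' := by rw [huc']; exact mem_insert_of_mem (mem_singleton_self _)
  have l1 := lev_cov h.W.H (mem_dc.1 hq)
  have l2 := lev_cov h.W.H (mem_dc.1 hq')
  have c1 := h.W.hC.dn hzC (by omega) (mem_dc.1 hq)
  have c2 := h.W.hC.dn hzC (by omega) (mem_dc.1 hq')
  have h5 := h.W.up1 q c1 q' c2 (by omega) (by omega) hne
  have h6 : ({z, z'} : Finset P) ⊆ univ.filter (fun y => q ⋖ y ∧ q' ⋖ y) := by
    intro s hs
    rw [mem_insert, mem_singleton] at hs
    rw [mem_filter]
    rcases hs with rfl | rfl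
    · exact ⟨mem_univ _, mem_dc.1 hq, mem_dc.1 hq'⟩
    · exact ⟨mem_univ _, mem_dc.1 hp, mem_dc.1 hp'⟩
  have h7 := card_le_card h6
  rw [card_pair hzz] at h7
  unfold ucv at h5
  have h8 : (univ.filter (fun y => q ⋖ y ∧ q' ⋖ y)).card ≤ 1 := by convert h5
  omega

lemma dcv2 : dcv (x 2) (x (2 + 1)) = 1 := by
  have hm := h.hm
  rw [h.dn 2 3 (by omega) (by omega), if_pos rfl]
  unfold dk
  rw [if_neg (by omega), if_neg (by omega)]

/-- the children of the pendants over `x 2, x 3` -/
lemma CH2_le : CH i C x 2 ≤ ∑ a ∈ DE i C x 2, (2 * ((pen a).card : ℤ)) +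
    (DE i C x 2).card * ((DE i C x 2).card - 1) := by
  classical
  have H := h.W.H
  have hm := h.hm
  unfold CH
  have e1 : (PN i C).filter (fun z => sit i z = ed x 2) = DE i C x 2 ∪ UE i C x 2 := by
    rw [PN_eq, filter_union]
    rfl
  have e2 : Disjoint (DE i C x 2) (UE i C x 2) := disjoint_filter_filter (DC_UC i C)
  rw [e1, sum_union e2]
  have e3 : ∑ z ∈ UE i C x 2, vp i z * ch i C z ≤ 0 := by
    refine sum_nonpos fun z hz => ?_
    rw [vp_PU (mem_UE.1 hz).2.1]
    have := h.W.ch_nonneg (C := C) z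
    linarith
  have e4 : ∑ z ∈ DE i C x 2, vp i z * ch i C z =
      ∑ a ∈ DE i C x 2, (2 * ((pen a).card : ℤ)) +
        (DE i C x 2).card * ((DE i C x 2).card - 1) := by
    have e5 : ∀ z ∈ DE i C x 2, vp i z * ch i C z =
        2 * ((pen z).card : ℤ) + ((DE i C x 2).card - 1) := by
      intro a ham
      obtain ⟨haC, haP, has⟩ := mem_DE.1 ham
      obtain ⟨-, y, -, -, -, -, -, hor⟩ := PN_dat H (C := C) (mem_PN.2 ⟨haC, Or.inl haP⟩)
      rcases hor with ⟨-, hla, hly, h4, h5, -, -⟩ | ⟨h3, -⟩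
      swap
      · have := lev_PU h3
        have := lev_PD haP
        omega
      have hyC : y ∈ C := h.W.hC.up haC (mem_uc.1 (by rw [h4]; exact mem_singleton_self y))
      have hye : uc y = ed x 2 := by rw [← h5, has]
      have hdcv := h.dcv2
      unfold dcv at hdcv
      obtain ⟨s, hs⟩ := card_eq_one.1 hdcv
      have huniq : ∀ y', uc y' = ed x 2 → y' = s := by
        intro y' hy'
        have : y' ∈ ({s} : Finset P) := by
          rw [← hs, mem_filter]
          refine ⟨mem_univ _, ?_, ?_⟩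
          · rw [← mem_uc, hy']
            exact (h.W.mem_ed (by omega) (by omega)).2 (Or.inl rfl)
          · rw [← mem_uc, hy']
            exact (h.W.mem_ed (by omega) (by omega)).2 (Or.inr rfl)
        exact mem_singleton.1 this
      have hpy : pen y = DE i C x 2 := by
        ext g
        constructor
        · intro hg
          have hgu := uc_pen hg
          have hgl := lev_cov H (mem_pen.1 hg).1
          have hgC := h.W.cl g y hyC hgu
          refine mem_DE.2 ⟨hgC, mem_PD.2 ⟨by omega, by rw [hgu, card_singleton], y,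
            (mem_pen.1 hg).1, ?_⟩, ?_⟩
          · rw [hye]
            exact h.W.card_ed (by omega)
          · rw [SO.sit_PD H (by omega) hgu, hye]
        · intro hg
          obtain ⟨hgC, hgP, hgs⟩ := mem_DE.1 hg
          obtain ⟨-, y', -, -, -, -, -, hor'⟩ := PN_dat H (C := C) (mem_PN.2 ⟨hgC, Or.inl hgP⟩)
          rcases hor' with ⟨-, hlg, hly', g4, g5, -, -⟩ | ⟨g3, -⟩
          swap
          · have := lev_PU g3
            have := lev_PD hgP
            omega
          have hye' : uc y' = ed x 2 := by rw [← g5, hgs]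
          have hyy : y' = y := (huniq y' hye').trans (huniq y hye).symm
          subst hyy
          exact mem_pen.2 ⟨mem_uc.1 (by rw [g4]; exact mem_singleton_self y'),
            by rw [g4, card_singleton]⟩
      rw [vp_PD haP, h.W.ch_PD haP haC h4, hpy]
      ring
    rw [sum_congr rfl e5, sum_add_distrib, sum_const, nsmul_eq_mul]
  rw [e4]
  linarith

lemma CH2_num : ((DE i C x 2).card = 0 ∧ CH i C x 2 ≤ 0) ∨
    ((DE i C x 2).card = 1 ∧ CH i C x 2 ≤ 4) ∨ ((DE i C x 2).card = 2 ∧ CH i C x 2 ≤ 8) := by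
  have hm := h.hm
  have h1 := h.CH2_le
  rw [← mul_sum] at h1
  obtain ⟨h2, h3⟩ := h.W.sum_pen_le (k := 2) (by omega) h.dcv2
  have h4 : (DE i C x 2).card = 0 ∨ (DE i C x 2).card = 1 ∨ (DE i C x 2).card = 2 := by omega
  rcases h4 with h4 | h4 | h4 <;> rw [h4] at h1 h3 <;> norm_num at h1 h3
  · exact Or.inl ⟨h4, by linarith⟩
  · exact Or.inr (Or.inl ⟨h4, by linarith⟩)
  · exact Or.inr (Or.inr ⟨h4, by linarith⟩)

lemma NE_in {k : ℕ} (h1 : 1 ≤ k) (h2 : k + 2 ≤ m) : NE i C x k = ((DE i C x k).card : ℤ) := by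
  unfold NE
  rw [h.W.ue_inner h1 h2, card_empty]
  push_cast
  ring

end DLt

end Pool.Agent.GaussPoset.Win.Si

end

/-! From `Pool.Agent.W_448six_h74.SkB` -/

section

/-!
MP_448cb3_co, G2, case B, window `j`: THE VALUE of a component with two stars: the formula.  helper74.
-/

namespace Pool.Agent.GaussPoset.Win.Si

set_option linter.unusedSectionVars false

open Finset W4 Pa Pb
open Pool.Agent.GaussPoset.Win.SO (PN vp con on mem_PN vp_PD vp_PU)

universe u

/-! ### numbers -/

lemma QS_sq (a : ℕ → ℤ) {s : ℕ} (n : ℕ) (ha : ∀ k, s ≤ k → k < s + n → 0 ≤ a k) :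
    ∑ k ∈ Ico s (s + n), (a k ^ 2 + a k) ≤ QS a s (s + n) := by
  induction n with
  | zero =>
    rw [add_zero, QS_self, Ico_self, sum_empty]
  | succ n ih =>
    have h1 := ih fun k hk hk' => ha k hk (by omega)
    rw [← add_assoc, sum_Ico_succ_top (by omega), QS_top a (by omega)]
    have h2 : 0 ≤ if s < s + n then 2 * a (s + n - 1) * a (s + n) else 0 := by
      split_ifs with h3
      · have g1 := ha (s + n - 1) (by omega) (by omega)
        have g2 := ha (s + n) (by omega) (by omega)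
        positivity
      · exact le_rfl
    linarith

/-- four bounds for the middle of the row -/
lemma QS_mid (a : ℕ → ℤ) {s t : ℕ} (h : s < t) (ha : ∀ k, s ≤ k → k < t → 0 ≤ a k) :
    ∑ k ∈ Ico s t, a k ≤ 2 * QS a s t ∧
      ∑ k ∈ Ico s t, a k + 4 * a s - 1 ≤ 2 * QS a s t ∧
      ∑ k ∈ Ico s t, a k + 4 * a (t - 1) - 1 ≤ 2 * QS a s t ∧
      ∑ k ∈ Ico s t, a k + 4 * a s + 4 * a (t - 1) - 6 ≤ 2 * QS a s t := by
  obtain ⟨n, rfl⟩ : ∃ n, t = s + n := ⟨t - s, by omega⟩
  have h1 := QS_sq a n ha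
  have g0 : ∀ k ∈ Ico s (s + n), (0 : ℤ) ≤ 2 * a k ^ 2 + a k := fun k hk => by
    have := ha k (mem_Ico.1 hk).1 (mem_Ico.1 hk).2
    positivity
  have e1 : ∑ k ∈ Ico s (s + n), (2 * a k ^ 2 + a k) =
      2 * ∑ k ∈ Ico s (s + n), (a k ^ 2 + a k) - ∑ k ∈ Ico s (s + n), a k := by
    rw [mul_sum, ← sum_sub_distrib]
    exact sum_congr rfl fun k _ => by ring
  have ms : s ∈ Ico s (s + n) := mem_Ico.2 ⟨le_rfl, h⟩
  have mt : s + n - 1 ∈ Ico s (s + n) := mem_Ico.2 ⟨by omega, by omega⟩
  have f0 := sum_nonneg g0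
  have f1 := single_le_sum g0 ms
  have f2 := single_le_sum g0 mt
  have key : ∀ b : ℤ, 4 * b - 1 ≤ 2 * b ^ 2 + b := by
    intro b
    have : 0 ≤ (2 * b - 1) * (b - 1) := by
      rcases le_or_gt b 0 with hb | hb
      · nlinarith
      · have : 1 ≤ b := hb
        nlinarith
    linarith
  refine ⟨by linarith, ?_, ?_, ?_⟩
  · have := key (a s)
    linarith
  · have := key (a (s + n - 1))
    linarith
  · rcases Nat.eq_or_lt_of_le (show 1 ≤ n by omega) with h2 | h2
    · subst h2
      have g2 : 8 * a s - 6 ≤ 2 * a s ^ 2 + a s := by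
        have : 0 ≤ (2 * a s - 3) * (a s - 2) := by
          rcases le_or_gt (a s) 1 with hb | hb
          · nlinarith
          · have : 2 ≤ a s := hb
            nlinarith
        linarith
      rw [Nat.add_sub_cancel]
      linarith
    · have f3 : (2 * a s ^ 2 + a s) + (2 * a (s + n - 1) ^ 2 + a (s + n - 1)) ≤
          ∑ k ∈ Ico s (s + n), (2 * a k ^ 2 + a k) := by
        have hsub : ({s, s + n - 1} : Finset ℕ) ⊆ Ico s (s + n) := by
          intro k hk
          rw [mem_insert, mem_singleton] at hk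
          rcases hk with rfl | rfl
          · exact ms
          · exact mt
        have := sum_le_sum_of_subset_of_nonneg hsub fun k hk _ => g0 k hk
        rwa [sum_pair (by omega)] at this
      have k1 := key (a s)
      have k2 := key (a (s + n - 1))
      linarith

variable {P : Type u} [Fintype P] [PartialOrder P] [DecidableEq P] {r i : ℕ}
variable {psi : P → P} {C K : Finset P} {w v w' v' : P} {m : ℕ} {x : ℕ → P}

/-! ### one end -/

/-- an end without the terms of the first edge -/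
noncomputable def Eo (i : ℕ) (C : Finset P) (x : ℕ → P) (w v : P) : ℤ :=
  10 - 2 * NE i C x 3 - 8 * NE i C x 2 -
    2 * ∑ z ∈ Z4 i C, tz i z * (Nx i w z - Nx i v z) - CH i C x 2

lemma Ew_eq : Ew i C x w v = 2 * (((uc (x 0)).card : ℤ) - 1) * NE i C x 0 +
    ((uc (x 0)).card : ℤ) ^ 2 - (uc (x 0)).card + Eo i C x w v := by
  unfold Ew Eo
  ring

/-- the three cases of an end -/
theorem DLt.Eo_cases (h : DLt r i K C w v w' v' m x) (hz : ∀ z ∈ Z4 i C, z ∈ T4 i C) :
    (NE i C x 2 = 0 ∧ 8 - 2 * NE i C x 3 ≤ Eo i C x w v) ∨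
    (NE i C x 2 = 1 ∧ -4 - 2 * NE i C x 3 ≤ Eo i C x w v) ∨
    (NE i C x 2 = 2 ∧ m ≠ 5 ∧ -16 - 2 * NE i C x 3 ≤ Eo i C x w v) := by
  have hm := h.hm
  have e1 := h.NE_in (k := 2) (by omega) (by omega)
  have e2 := h.Z_eq hz
  have e3 : ((TUs i C x).card : ℤ) ≤ 1 := by exact_mod_cast h.TUs_le
  have e4 : (0 : ℤ) ≤ ((TLs i C x).card : ℤ) := by positivity
  unfold Eo
  rw [e2, e1]
  rcases h.CH2_num with ⟨d, c⟩ | ⟨d, c⟩ | ⟨d, c⟩ <;> rw [d]
  · left
    exact ⟨by norm_num, by push_cast; linarith⟩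
  · right; left
    exact ⟨by norm_num, by push_cast; linarith⟩
  · right; right
    refine ⟨by norm_num, fun h5 => ?_, by push_cast; linarith⟩
    have := h.n2 h5
    rw [e1, d] at this
    norm_num at this

/-! ### the formula -/

/-- the window `j` part of the value, weights `-1, 2, 14, 2` -/
noncomputable def V2 (i : ℕ) (C : Finset P) : ℤ :=
  2 * Lv i C - 3 * I2.al 2 (st i C).card (ZS i C) + 14 * I2.w3 (st i C).card (ZS i C) +
    2 * (I2.w3 (st i C).card (ZS i C) ^ 2 - 2 * I2.w6 (st i C).card (ZS i C))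

/-- the terms of a first edge -/
def E0 (u n : ℤ) : ℤ := 2 * n ^ 2 + 2 * n + 4 * (u - 1) * n + 2 * (u ^ 2 - u) - 3 * n - 3 * (u - 2)

namespace Two

variable (B : Two r i K psi C w v w' v' x m)
include B

lemma N1 : NE i C x 1 = 0 := B.toT.NE1

lemma Nm2 : NE i C x (m - 2) = 0 := by
  have hm := B.Q.hm
  have := B.toT'.NE1
  rwa [NE_mirror (by omega), show m - 1 - 1 = m - 2 by omega] at this

lemma QS_split : QS (NE i C x) 0 m = NE i C x 0 ^ 2 + NE i C x 0 + NE i C x (m - 1) ^ 2 +
    NE i C x (m - 1) + QS (NE i C x) 2 (m - 2) := by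
  have hm := B.Q.hm
  have n1 := B.N1
  have n2 := B.Nm2
  obtain ⟨n, rfl⟩ : ∃ n, m = n + 2 := ⟨m - 2, by omega⟩
  have g1 : n + 2 - 2 = n := by omega
  have g2 : n + 2 - 1 = n + 1 := by omega
  rw [g1] at n2
  rw [g1, g2, QS_bot _ (by omega), QS_bot _ (by omega), QS_top _ (by omega), QS_top _ (by omega),
    if_pos (by omega), if_pos (by omega), if_pos (by omega), if_pos (by omega)]
  simp only [Nat.add_sub_cancel, zero_add]
  rw [n1, n2]
  ring

lemma sum_split : ∑ k ∈ range m, NE i C x k = NE i C x 0 + NE i C x (m - 1) +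
    ∑ k ∈ Ico 2 (m - 2), NE i C x k := by
  have hm := B.Q.hm
  have n1 := B.N1
  have n2 := B.Nm2
  obtain ⟨n, rfl⟩ : ∃ n, m = n + 2 := ⟨m - 2, by omega⟩
  have g1 : n + 2 - 2 = n := by omega
  have g2 : n + 2 - 1 = n + 1 := by omega
  rw [g1] at n2
  rw [g1, g2, range_eq_Ico, sum_eq_sum_Ico_succ_bot (by omega), sum_eq_sum_Ico_succ_bot (by omega),
    sum_Ico_succ_top (by omega), sum_Ico_succ_top (by omega)]
  simp only [zero_add, Nat.reduceAdd]
  rw [n1, n2]
  ring

/-- the coefficient (2,1) -/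
lemma al_eq : I2.al 2 (st i C).card (ZS i C) =
    ∑ k ∈ range m, NE i C x k + (uc (x 0)).card + (uc (x m)).card - 4 := by
  have hm := B.Q.hm
  have T := B.toT
  have T' := B.toT'
  have a1 := K9x_al B.Q
  have g0 := T.dg0
  have g2 := T.dg2
  have m1 := T.mm01
  have m2 := T.mm12
  have g0' := T'.dg0
  have g2' := T'.dg2
  have m1' := T'.mm01
  have m2' := T'.mm12
  simp only [show m - 0 = m from rfl] at g0' m1'
  rw [a1, T.sum_vp, g0, g2, m1, m2, g0', g2', m1', m2']
  ring

/-- THE FORMULA of the value -/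
theorem V2_eq : V2 i C = E0 (uc (x 0)).card (NE i C x 0) + E0 (uc (x m)).card (NE i C x (m - 1)) +
    (2 * QS (NE i C x) 2 (m - 2) - 3 * ∑ k ∈ Ico 2 (m - 2), NE i C x k) +
    2 * Eo i C x w v + 2 * Eo i C (fun k => x (m - k)) w' v' +
    2 * (if m = 5 then 12 else if m = 6 then 2 else 0) +
    14 * (NE i C x 2 + NE i C x (m - 3) - 2 - (if m = 5 then 1 else 0)) +
    2 * ((NE i C x 2 + NE i C x (m - 3) - 2 - (if m = 5 then 1 else 0)) ^ 2 -
      2 * ((if 7 ≤ m then NE i C x 2 * NE i C x (m - 3) else 0) -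
        (if 6 ≤ m then NE i C x (m - 3) else 0) - (if 6 ≤ m then NE i C x 2 else 0) + 1)) := by
  have hm := B.Q.hm
  have e1 := B.w3v
  have e2 := B.Q.w6v
  rw [dl_NE, dl_NE] at e1 e2
  have n0 : NE i C (fun k => x (m - k)) 0 = NE i C x (m - 1) := by
    rw [NE_mirror (by omega)]
    rfl
  unfold V2 E0
  rw [B.L_form, B.al_eq, e1, e2, Ew_eq, Ew_eq, B.QS_split, B.sum_split, n0]
  simp only [show m - 0 = m from rfl]
  ring

end Two

end Pool.Agent.GaussPoset.Win.Si

end

/-! From `Pool.Agent.W_448six_h74.SkC` -/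

section

/-!
MP_448cb3_co, G2, case B, window `j`: THE VALUE of a component with two stars: the bounds.  helper74.
-/

namespace Pool.Agent.GaussPoset.Win.Si

set_option linter.unusedSectionVars false

open Finset W4 Pa Pb
open Pool.Agent.GaussPoset.Win.SO (PN vp con on mem_PN vp_PD vp_PU)

universe u

variable {P : Type u} [Fintype P] [PartialOrder P] [DecidableEq P] {r i : ℕ}
variable {psi : P → P} {C K : Finset P} {w v w' v' : P} {m : ℕ} {x : ℕ → P}

/-- the number `d` of the pendants over the third pair and the bound `b` -/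
def Cs (d b : ℤ) : Prop := (d = 0 ∧ b = 8) ∨ (d = 1 ∧ b = -4) ∨ (d = 2 ∧ b = -16)

lemma QS_one (a : ℕ → ℤ) : QS a 2 3 = a 2 ^ 2 + a 2 := by
  rw [QS_bot a (by omega), if_neg (by omega), show QS a (2 + 1) 3 = 0 from QS_self a 3]
  ring

lemma QS_pair (a : ℕ → ℤ) : QS a 2 4 = a 2 ^ 2 + a 2 + 2 * a 2 * a 3 + (a 3 ^ 2 + a 3) := by
  rw [QS_bot a (by omega), if_pos (by omega), show QS a (2 + 1) 4 = QS a 3 4 from rfl,
    QS_bot a (by omega), if_neg (by omega), show QS a (3 + 1) 4 = 0 from QS_self a 4]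
  ring

lemma sum_one (a : ℕ → ℤ) : ∑ k ∈ Ico 2 3, a k = a 2 := by
  rw [show Ico 2 3 = {2} from rfl, sum_singleton]

lemma sum_two (a : ℕ → ℤ) : ∑ k ∈ Ico 2 4, a k = a 2 + a 3 := by
  rw [show Ico 2 4 = {2, 3} from rfl, sum_pair (by norm_num)]

lemma DLt.Eo_cs (h : DLt r i K C w v w' v' m x) (hz : ∀ z ∈ Z4 i C, z ∈ T4 i C) :
    ∃ b, Cs (NE i C x 2) b ∧ b - 2 * NE i C x 3 ≤ Eo i C x w v := by
  rcases h.Eo_cases hz with ⟨h1, h2⟩ | ⟨h1, h2⟩ | ⟨h1, -, h2⟩
  · exact ⟨8, Or.inl ⟨h1, rfl⟩, h2⟩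
  · exact ⟨-4, Or.inr (Or.inl ⟨h1, rfl⟩), h2⟩
  · exact ⟨-16, Or.inr (Or.inr ⟨h1, rfl⟩), h2⟩

namespace Two

variable (B : Two r i K psi C w v w' v' x m)
include B

lemma Eo_cs' : ∃ b, Cs (NE i C x (m - 3)) b ∧
    b - 2 * NE i C x (m - 4) ≤ Eo i C (fun k => x (m - k)) w' v' := by
  have hm := B.Q.hm
  obtain ⟨b, h1, h2⟩ := B.toT'.Eo_cs fun z hz => B.Q.zz z hz
  rw [NE_mirror (by omega), show m - 1 - 2 = m - 3 by omega] at h1
  rw [NE_mirror (by omega), show m - 1 - 3 = m - 4 by omega] at h2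
  exact ⟨b, h1, h2⟩

lemma NE_pos {k : ℕ} (h1 : 1 ≤ k) (h2 : k + 2 ≤ m) : 0 ≤ NE i C x k := by
  rw [B.toT.NE_in h1 h2]
  positivity

/-- the middle of a long row -/
lemma long (hm : 7 ≤ m) : QS (NE i C x) 2 (m - 2) = NE i C x 2 ^ 2 + NE i C x 2 +
      2 * NE i C x 2 * NE i C x 3 + QS (NE i C x) 3 (m - 3) +
      2 * NE i C x (m - 4) * NE i C x (m - 3) + NE i C x (m - 3) ^ 2 + NE i C x (m - 3) ∧
    ∑ k ∈ Ico 2 (m - 2), NE i C x k = NE i C x 2 + ∑ k ∈ Ico 3 (m - 3), NE i C x k +
      NE i C x (m - 3) := by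
  obtain ⟨n, rfl⟩ : ∃ n, m = n + 4 := ⟨m - 4, by omega⟩
  have g1 : n + 4 - 2 = n + 1 + 1 := by omega
  have g2 : n + 4 - 3 = n + 1 := by omega
  have g3 : n + 4 - 4 = n := by omega
  rw [g1, g2, g3]
  constructor
  · rw [QS_bot _ (by omega), QS_top _ (by omega), if_pos (by omega), if_pos (by omega)]
    simp only [Nat.add_sub_cancel, Nat.reduceAdd]
    ring
  · rw [sum_eq_sum_Ico_succ_bot (by omega), sum_Ico_succ_top (by omega)]
    simp only [Nat.reduceAdd]
    ring

/-- the value without the first edges -/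
noncomputable def Vr (i : ℕ) (C : Finset P) (x : ℕ → P) (m : ℕ) : ℤ :=
  V2 i C - E0 (uc (x 0)).card (NE i C x 0) - E0 (uc (x m)).card (NE i C x (m - 1))

/-- six sites -/
theorem five (hm : m = 5) : 28 ≤ Vr i C x m + 2 * ∑ k ∈ Ico 2 (m - 2), NE i C x k ∧
    I2.w3 (st i C).card (ZS i C) ≠ 0 := by
  obtain ⟨b, h1, h2⟩ := B.toT.Eo_cs fun z hz => B.Q.zz z hz
  obtain ⟨b', h1', h2'⟩ := B.Eo_cs'
  have e := B.V2_eq
  have n2 := B.n5 hm
  have n1 := B.N1
  have n3 := B.Nm2
  have e1 := B.w3v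
  rw [dl_NE, dl_NE] at e1
  subst hm
  simp only [show 5 - 2 = 3 from rfl, show 5 - 3 = 2 from rfl, show 5 - 4 = 1 from rfl] at e e1 h1' h2' n3 ⊢
  rw [sum_one, QS_one, n2] at e
  norm_num at e
  rw [n2] at e1
  norm_num at e1
  rw [n2] at h1 h1'
  rw [n3] at h2
  rw [n1] at h2'
  have hb : b = 8 := by
    rcases h1 with h | h | h
    · exact h.2
    · omega
    · omega
  have hb' : b' = 8 := by
    rcases h1' with h | h | h
    · exact h.2
    · omega
    · omega
  refine ⟨?_, by rw [e1]; norm_num⟩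
  unfold Vr
  rw [sum_one, n2, e]
  linarith

/-- seven sites -/
theorem six (hm : m = 6) : -6 ≤ Vr i C x m + 2 * ∑ k ∈ Ico 2 (m - 2), NE i C x k := by
  obtain ⟨b, h1, h2⟩ := B.toT.Eo_cs fun z hz => B.Q.zz z hz
  obtain ⟨b', h1', h2'⟩ := B.Eo_cs'
  have e := B.V2_eq
  subst hm
  simp only [show 6 - 2 = 4 from rfl, show 6 - 3 = 3 from rfl, show 6 - 4 = 2 from rfl] at e h1' h2' ⊢
  rw [sum_two, QS_pair] at e
  norm_num at e
  unfold Vr
  rw [sum_two, e]
  simp only [show 6 - 1 = 5 from rfl]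
  generalize NE i C x 2 = p at *
  generalize NE i C x 3 = q at *
  rcases h1 with ⟨rfl, rfl⟩ | ⟨rfl, rfl⟩ | ⟨rfl, rfl⟩ <;>
    rcases h1' with ⟨rfl, rfl⟩ | ⟨rfl, rfl⟩ | ⟨rfl, rfl⟩ <;> linarith

/-- at least eight sites -/
theorem seven (hm : 7 ≤ m) : -11 ≤ Vr i C x m + 2 * ∑ k ∈ Ico 2 (m - 2), NE i C x k ∨
    (-12 ≤ Vr i C x m + 2 * ∑ k ∈ Ico 2 (m - 2), NE i C x k ∧
      I2.w3 (st i C).card (ZS i C) ≠ 0) := by
  obtain ⟨b, h1, h2⟩ := B.toT.Eo_cs fun z hz => B.Q.zz z hz
  obtain ⟨b', h1', h2'⟩ := B.Eo_cs'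
  have e := B.V2_eq
  have e1 := B.w3v
  rw [dl_NE, dl_NE, if_neg (by omega)] at e1
  obtain ⟨l1, l2⟩ := B.long hm
  obtain ⟨q1, q2, q3, q4⟩ := QS_mid (NE i C x) (s := 3) (t := m - 3) (by omega)
    fun k hk hk' => B.NE_pos (by omega) (by omega)
  have p3 := B.NE_pos (k := 3) (by omega) (by omega)
  have p4 := B.NE_pos (k := m - 4) (by omega) (by omega)
  rw [show m - 3 - 1 = m - 4 by omega] at q3 q4
  rw [l1, l2, if_neg (by omega), if_neg (by omega), if_neg (by omega), if_pos (by omega),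
    if_pos (by omega), if_pos (by omega)] at e
  unfold Vr
  rw [l2, e, e1]
  generalize NE i C x 2 = p at *
  generalize NE i C x (m - 3) = q at *
  generalize NE i C x 3 = n at *
  generalize NE i C x (m - 4) = n' at *
  generalize QS (NE i C x) 3 (m - 3) = Q at *
  generalize ∑ k ∈ Ico 3 (m - 3), NE i C x k = S at *
  generalize E0 (uc (x 0)).card (NE i C x 0) = A0 at *
  generalize E0 (uc (x m)).card (NE i C x (m - 1)) = A1 at *
  rcases h1 with ⟨rfl, rfl⟩ | ⟨rfl, rfl⟩ | ⟨rfl, rfl⟩ <;>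
    rcases h1' with ⟨rfl, rfl⟩ | ⟨rfl, rfl⟩ | ⟨rfl, rfl⟩
  all_goals first
    | (left; linarith)
    | (right; refine ⟨by linarith, by norm_num⟩)

/-- THE LOWER BOUND -/
theorem Vlow : -11 ≤ Vr i C x m + 2 * ∑ k ∈ Ico 2 (m - 2), NE i C x k ∨
    (-12 ≤ Vr i C x m + 2 * ∑ k ∈ Ico 2 (m - 2), NE i C x k ∧
      I2.w3 (st i C).card (ZS i C) ≠ 0) := by
  have hm := B.Q.hm
  rcases Nat.lt_or_ge m 7 with h | h
  · rcases Nat.lt_or_ge m 6 with h' | h'
    · have := (B.five (by omega)).1
      left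
      linarith
    · have := B.six (by omega)
      left
      linarith
  · exact B.seven h

/-- both ends closed -/
theorem V2_closed (hn : (uc (x 0)).card = 2) (hn' : (uc (x m)).card = 2) {A : ℤ}
    (hA : 4 + 2 * ∑ k ∈ range m, NE i C x k ≤ A) :
    0 < A + V2 i C ∨ (0 ≤ A + V2 i C ∧ I2.w3 (st i C).card (ZS i C) ≠ 0) := by
  have hm := B.Q.hm
  have u0 : 0 ≤ NE i C x 0 := by
    unfold NE
    rw [B.W.ue_zero (by omega) hn, card_empty]
    push_cast
    omega
  have u1 : 0 ≤ NE i C x (m - 1) := by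
    unfold NE
    rw [B.W.ue_last (by omega) hn', card_empty]
    push_cast
    omega
  have h1 := B.Vlow
  have s1 := B.sum_split
  unfold Vr E0 at h1
  rw [hn, hn'] at h1
  push_cast at h1
  rw [s1] at hA
  have q0 := mul_nonneg u0 u0
  have q1 := mul_nonneg u1 u1
  rcases h1 with h1 | ⟨h1, h2⟩
  · left
    linarith
  · right
    exact ⟨by linarith, h2⟩

/-- one end closed, one upper pendant over the first pair of the other end -/
theorem V2_fold (hn : (uc (x 0)).card = 1) (hn' : (uc (x m)).card = 2)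
    (hU : (UE i C x 0).card = 1) {A : ℤ}
    (hA : 2 + 2 * (∑ k ∈ range m, NE i C x k - NE i C x 0) ≤ A) :
    -3 ≤ A + V2 i C ∧ (DE i C x 0 = ∅ →
      0 < A + V2 i C ∨ (0 ≤ A + V2 i C ∧ I2.w3 (st i C).card (ZS i C) ≠ 0)) := by
  have hm := B.Q.hm
  have e0 : NE i C x 0 = ((DE i C x 0).card : ℤ) - 1 := by
    unfold NE
    rw [hU]
    push_cast
    ring
  have u1 : 0 ≤ NE i C x (m - 1) := by
    unfold NE
    rw [B.W.ue_last (by omega) hn', card_empty]
    push_cast
    omega
  have h1 := B.Vlow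
  have s1 := B.sum_split
  unfold Vr E0 at h1
  rw [hn, hn'] at h1
  push_cast at h1
  rw [s1] at hA
  have q0 : 0 ≤ 2 * NE i C x 0 ^ 2 - NE i C x 0 := by
    rcases le_or_gt (NE i C x 0) 0 with h | h
    · nlinarith
    · have : 1 ≤ NE i C x 0 := h
      nlinarith
  have q1 := mul_nonneg u1 u1
  refine ⟨?_, fun hD => ?_⟩
  · rcases h1 with h1 | ⟨h1, -⟩ <;> linarith
  · rw [hD, card_empty] at e0
    push_cast at e0
    rw [e0] at h1 hA
    rcases h1 with h1 | ⟨h1, h2⟩
    · left
      linarith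
    · right
      exact ⟨by linarith, h2⟩

end Two

end Pool.Agent.GaussPoset.Win.Si

end
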