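import Mathlib
import Pool.Agent.W_448zz_h61.Ns
import Pool.Agent.W_448zz_h61.M165
import Pool.Agent.W_448zz_h61.M171
import Pool.Agent.W_448zz_h61.M215
import Pool.Agent.W_448zz_h61.M219
import Pool.Agent.W_448zz_h61.M220
import Pool.Agent.W_448zz_h61.M224

/-! From `Pool.Agent.W_448fin_h16.FnK` -/

section

/-!
# Final assembly (MP_448cb3_co): case B, the sum over the window `j`

If all the values (3,2) vanish and all `F` are nonnegative, then all `F` are zero, and the element `y`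
of a join of a double `y` and a single element is an exceptional double over the last edge of a
rotated row.
-/

namespace Pool.Agent.GaussPoset.EK

set_option linter.unusedSectionVars false

open Finset Win St Polynomial Wd Win.W4

universe u

variable {P : Type u} [Fintype P] [PartialOrder P] [DecidableEq P] {r i j : ℕ}

variable {m : ℕ} {x : ℕ → P} {c : ℕ → ℤ} {β : ℤ} {t : Tops P}

variable {K : Finset P} {psi : P → P}

/-- the value (3,2) of a component -/
noncomputable def v3 (j : ℕ) (t : Tops P) : ℤ :=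
  I2.w3 (I2.bb j (j + 1) (topOf : P → Tops P) t) (I2.VV j (j + 1) (topOf : P → Tops P) t)

/-- the functional `F` of a component -/
noncomputable def FF (j : ℕ) (t : Tops P) : ℤ := Fn j (cext (j + 1) (topOf : P → Tops P) t)

/-- (2a): all the values (3,2) vanish, and the two stars are far apart -/
structure W0 (P : Type u) [Fintype P] [PartialOrder P] [DecidableEq P] (j : ℕ) : Prop where
  w : ∀ t : Tops P, v3 j t = 0
  six : ∀ (t : Tops P) (m : ℕ) (x : ℕ → P) (c : ℕ → ℤ) (β : ℤ), RowB P j t m x c β → Pat6 m c β →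
    7 ≤ m ∧ Pa.dl j (cext (j + 1) (topOf : P → Tops P) t) x 2 = 1 ∧
      Pa.dl j (cext (j + 1) (topOf : P → Tops P) t) x (m - 3) = 1

/-- the value of the exceptional double -/
lemma RowB.sa_bad (h : NJ P r j) (R : Red P j K psi) (B : RowB P j t m x c β) (hm : 3 ≤ m)
    (c0 : c 0 = -1) (c1 : ∀ k, 1 ≤ k → k < m → c k = 0) :
    sa j (topOf : P → Tops P) K {x (m - 1), x m} t = -1 := by
  classical
  have H := h.g.H
  have W := B.row
  rw [sa_eq]
  have e : K.filter (fun k => topOf k = t ∧ Disjoint (ns j k) {x (m - 1), x m}) =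
      K.filter (fun k => ns j k = {x 0, x 1}) := by
    ext k
    rw [mem_filter, mem_filter]
    constructor
    · rintro ⟨hk, hkt, hd⟩
      refine ⟨hk, ?_⟩
      obtain ⟨p', q', f1, f2, f3, f4⟩ := W.pair R H h.split hk hkt
      rcases f4 with ⟨f5, f6⟩ | ⟨f5, f6, _, _⟩
      · have : p' = 0 := by
          by_contra h7
          exact f6 (c1 p' (by omega) (by omega))
        subst this
        rw [f3, f5]
      · exfalso
        rw [f3, f6, disjoint_left] at hd
        exact hd (a := x m) (by simp) (by simp)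
    · rintro ⟨hk, hns⟩
      refine ⟨hk, ?_, ?_⟩
      · have h1 := (kap_ns' H h.split (R.sub hk) (v := x 0) (by rw [hns]; simp)).1
        rw [← h1]
        exact W.kap 0 (by omega)
      · rw [hns, disjoint_left]
        intro v hv hv'
        rw [mem_insert, mem_singleton] at hv hv'
        rcases hv with rfl | rfl <;> rcases hv' with h8 | h8 <;>
          (have := W.inj _ _ (by omega) (by omega) h8; omega)
  rw [e, fib_K R.mat R.sub, W.df 0 1 (by omega) (by omega), if_pos rfl, c0]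

lemma sa_badR (h : NJ P r j) (R : Red P j K psi) {y : P} (hb : BadR P j y) :
    sa j (topOf : P → Tops P) K (uc y) (topOf y) = -1 := by
  obtain ⟨m, x, c, β, B, hm, -, ⟨c0, c1, e⟩ | ⟨c0, c1, e⟩⟩ := hb
  · rw [e]
    exact B.sa_bad h R hm c0 c1
  · rw [e]
    have h1 := B.rev.sa_bad h R hm (by show c (m - 1 - 0) = -1; rwa [Nat.sub_zero])
      (fun k k1 k2 => c1 (m - 1 - k) (by omega))
    rw [show m - (m - 1) = 1 by omega, Nat.sub_self, pair_comm] at h1
    exact h1

/-- every top is the component of itself -/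
lemma NJ.topOf_self (h : NJ P r j) (t : Tops P) : topOf (t : P) = t :=
  Subtype.ext (Hul.top_unique (h.nj (by have := t.2; omega)) (topOf (t : P)).2 t.2
    (le_topOf (t : P)) le_rfl)

lemma NJ.mem_img (h : NJ P r j) (t : Tops P) : t ∈ univ.image (topOf : P → Tops P) :=
  mem_image.2 ⟨(t : P), mem_univ _, NJ.topOf_self h t⟩

/-- the profile of a component -/
theorem NJ.prof (h : NJ P r j) (hj : 2 ≤ j) (hW : W0 P j) (t : Tops P) :
    I2.Prof 2 4 (I2.bb j (j + 1) (topOf : P → Tops P) t)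
      (I2.VV j (j + 1) (topOf : P → Tops P) t) := by
  have hjr : j ≤ r := by have := h.hr; omega
  obtain ⟨K, psi, R⟩ := exists_red P j
  obtain ⟨m, x, c, β, B⟩ := NJ.rowB h hj t
  rcases B.small h.g.H h.split with h1 | h1
  · exact (K2.prof_star h.g.H hjr (NJ.noQ h hj) (fun m hm => h.g.good m (by omega)) h.split R.mat
      R.sub (K2.star_small h.g.H hjr h.split R h1) (hW.w t)).p
  · exact (NJ.pat6_prof h hj R (hW.w t) B h1).1

/-- the weight of a join of a double and a single element -/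
lemma NJ.join_weight (h : NJ P r j) (hj : 2 ≤ j) (R : Red P j K psi) {z y v : P}
    (S : K2.SD j (topOf : P → Tops P) z y v) :
    0 ≤ 1 + (sa j (topOf : P → Tops P) K (uc y) (topOf y) +
      sa j (topOf : P → Tops P) K (uc v) (topOf v)) ∧
    (1 + (sa j (topOf : P → Tops P) K (uc y) (topOf y) +
      sa j (topOf : P → Tops P) K (uc v) (topOf v)) = 0 → BadR P j y) := by
  have hjr : j ≤ r := by have := h.hr; omega
  have h4 := NJ.sa_single h hj R (S.lv' h.g.H) S.cv
  by_cases hb : BadR P j y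
  · rw [sa_badR h R hb]
    exact ⟨by linarith, fun _ => hb⟩
  · have h1 := NJ.join_one h R S hj hb
    rw [K2.Ek_one_SD h.g.H hjr h.split R.mat R.sub S] at h1
    exact ⟨by linarith, fun h2 => by linarith⟩

/-- THE STATE after the sum: all `F = 0`, all joins of a double and a single element are exceptional -/
structure Z0 (P : Type u) [Fintype P] [PartialOrder P] [DecidableEq P] (j : ℕ) : Prop where
  w : W0 P j
  F : ∀ t : Tops P, FF j t = 0
  sd : ∀ z y v, K2.SD j (topOf : P → Tops P) z y v → z ∉ cuni (j + 1) (topOf : P → Tops P) →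
    BadR P j y

/-- THE SUM over the window `j` -/
theorem NJ.z0 (h : NJ P r j) (hj : 2 ≤ j) (hW : W0 P j) (hF : ∀ t : Tops P, 0 ≤ FF j t) :
    Z0 P j := by
  have hjr : j ≤ r := by have := h.hr; omega
  obtain ⟨K, psi, R⟩ := exists_red P j
  have key := K2.all_zero h.g.H hjr (NJ.noQ h hj) (fun m hm => h.g.good m (by omega)) h.split R.mat
    R.sub (fun t _ => NJ.prof h hj hW t) (fun t _ => hF t)
    (fun z y v S _ => (NJ.join_weight h hj R S).1)
  exact ⟨hW, fun t => key.1 t (NJ.mem_img h t),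
    fun z y v S hz => (NJ.join_weight h hj R S).2 (key.2 z y v S hz)⟩

/-- a component with at most three sites is natural -/
theorem NJ.nat_three (h : NJ P r j) (hj : 2 ≤ j) (hW : W0 P j) (B : RowB P j t m x c β)
    (hm : m ≤ 2) : NatT j (t : P) := by
  classical
  have hjr : j ≤ r := by have := h.hr; omega
  have H := h.g.H
  obtain ⟨K, psi, R⟩ := exists_red P j
  have hst : (st j (cext (j + 1) (topOf : P → Tops P) t)).card ≤ 3 := by
    have h5 : st j (cext (j + 1) (topOf : P → Tops P) t) ⊆ (range 3).image x := by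
      intro v hv
      rw [mem_sites h.split] at hv
      obtain ⟨k, hk, rfl⟩ := B.row.surj v hv.1 hv.2
      exact mem_image_of_mem x (mem_range.2 (by omega))
    have h6 := (card_le_card h5).trans card_image_le
    rwa [card_range] at h6
  have h0 := K2.three_natural H hjr (NJ.noQ h hj) (fun m hm => h.g.good m (by omega)) h.split R
    (a := t) hst (hW.w t)
  intro v v' hv hv' hvt hvt' hne
  have hD : Df j {v, v'} = 0 := by
    rw [← fib_K R.mat R.sub]
    refine sum_eq_zero fun k hk => ?_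
    rw [mem_filter] at hk
    exfalso
    have hkap := (kap_ns' H h.split (R.sub hk.1) (v := v) (by rw [hk.2]; simp)).1
    have htv : topOf v = t := (RowB.topOf_iff h hv).2 hvt
    have hl : lev k ≤ j + 1 := by
      rcases mem_union.1 (R.sub hk.1) with h1 | h1
      · exact (mem_dbL.1 h1).1.le
      · have := (mem_dbU.1 h1).1
        omega
    have hk2 : k ∈ K2.KD j K (cext (j + 1) (topOf : P → Tops P) t) := by
      rw [K2.mem_KD]
      exact ⟨hk.1, mem_cext_of_le h.split hl (hkap.symm.trans htv), R.sub hk.1⟩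
    rw [h0] at hk2
    exact absurd hk2 (notMem_empty k)
  rw [Df_pair H hv hne] at hD
  have : (dcv v v' : ℤ) = ucv v v' := by linarith
  exact_mod_cast this.symm

end Pool.Agent.GaussPoset.EK

end

/-! From `Pool.Agent.W_448j6_h22.KbI` -/

section

/-!
MP_448cb3_co, G2, case B, window `j`: the sum of the functionals of the parts and the weights of the
joins, `w32` free.
-/

namespace Pool.Agent.GaussPoset.EK

set_option linter.unusedSectionVars false

open Finset Win St Polynomial Wd Win.W4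

universe u

variable {P : Type u} [Fintype P] [PartialOrder P] [DecidableEq P] {r i j : ℕ}

variable {m : ℕ} {x : ℕ → P} {c : ℕ → ℤ} {β : ℤ} {t : Tops P}

variable {K : Finset P} {psi : P → P}

/-- the functional of a component -/
noncomputable def TT (j : ℕ) (t : Tops P) : ℤ :=
  I2.al 2 (I2.bb j (j + 1) (topOf : P → Tops P) t) (I2.VV j (j + 1) (topOf : P → Tops P) t) +
  I2.Q4 (I2.bb j (j + 1) (topOf : P → Tops P) t) (I2.VV j (j + 1) (topOf : P → Tops P) t) +
  6 * I2.w3 (I2.bb j (j + 1) (topOf : P → Tops P) t) (I2.VV j (j + 1) (topOf : P → Tops P) t) +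
  2 * (I2.w3 (I2.bb j (j + 1) (topOf : P → Tops P) t)
    (I2.VV j (j + 1) (topOf : P → Tops P) t) ^ 2 -
    2 * I2.w6 (I2.bb j (j + 1) (topOf : P → Tops P) t) (I2.VV j (j + 1) (topOf : P → Tops P) t))

/-- the weight of a join of a double and a single element -/
noncomputable def JW (j : ℕ) (K : Finset P) (z : P) : ℤ :=
  2 * (1 + Ek j K (K2.Tz z) 1 + 2 * Ek j K (K2.Tz z) 2 + 2 * Ek j K (K2.Tz z) 3)

/-- THE TOTAL -/
theorem NJ.total (h : NJ P r j) (hj : 2 ≤ j) (R : Red P j K psi) :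
    ∑ t ∈ univ.image (topOf : P → Tops P), TT j t +
      ∑ z ∈ K2.Z2 j (topOf : P → Tops P), JW j K z = 0 := by
  have hjr : j ≤ r := by have := h.hr; omega
  obtain ⟨h1, h2, h3⟩ := K2.four_two_gen h.g.H hjr (NJ.noQ h hj) (fun m hm => h.g.good m (by omega))
    h.split R.mat R.sub (fun a _ => NJ.PG h hj R a)
  have h4 := K2.six_four h.g.H hjr (NJ.noQ h hj) (fun m hm => h.g.good m (by omega))
    h.split R.mat R.sub (fun a _ => NJ.PG h hj R a)
  have h5 : ∑ z ∈ K2.Z2 j (topOf : P → Tops P), JW j K z =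
      2 * ∑ z ∈ K2.Z2 j (topOf : P → Tops P), (Ek j K (K2.Tz z) 1 + Ek j K (K2.Tz z) 0) +
      2 * (2 * ∑ z ∈ K2.Z2 j (topOf : P → Tops P), (Ek j K (K2.Tz z) 3 + Ek j K (K2.Tz z) 2)) := by
    rw [mul_sum, mul_sum, mul_sum, ← sum_add_distrib]
    refine sum_congr rfl fun z _ => ?_
    unfold JW
    rw [K2.Ek_zero R.sub]
    ring
  have h6 : ∑ t ∈ univ.image (topOf : P → Tops P), TT j t =
      ∑ t ∈ univ.image (topOf : P → Tops P), I2.al 2 (I2.bb j (j + 1) (topOf : P → Tops P) t)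
        (I2.VV j (j + 1) (topOf : P → Tops P) t) +
      ∑ t ∈ univ.image (topOf : P → Tops P), I2.Q4 (I2.bb j (j + 1) (topOf : P → Tops P) t)
        (I2.VV j (j + 1) (topOf : P → Tops P) t) +
      6 * ∑ t ∈ univ.image (topOf : P → Tops P), I2.w3 (I2.bb j (j + 1) (topOf : P → Tops P) t)
        (I2.VV j (j + 1) (topOf : P → Tops P) t) +
      2 * ∑ t ∈ univ.image (topOf : P → Tops P), (I2.w3 (I2.bb j (j + 1) (topOf : P → Tops P) t)
        (I2.VV j (j + 1) (topOf : P → Tops P) t) ^ 2 -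
        2 * I2.w6 (I2.bb j (j + 1) (topOf : P → Tops P) t)
          (I2.VV j (j + 1) (topOf : P → Tops P) t)) := by
    rw [mul_sum, mul_sum, ← sum_add_distrib, ← sum_add_distrib, ← sum_add_distrib]
    rfl
  rw [h6, h5, h1, h2, h3, h4]
  ring

/-- the functional of a small component -/
theorem NJ.TT_small (h : NJ P r j) (hj : 2 ≤ j) (R : Red P j K psi)
    (hs : Small j (topOf : P → Tops P) t) :
    TT j t = W4.Tv j (cext (j + 1) (topOf : P → Tops P) t) := by
  have hjr : j ≤ r := by have := h.hr; omega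
  have h2 := (K2.PG_star h.g.H hjr (NJ.noQ h hj) (fun m hm => h.g.good m (by omega)) h.split R.mat
      R.sub (K2.star_small h.g.H hjr h.split R hs)).2
  unfold TT
  rw [h2]
  unfold W4.Tv Lv wv I2.bb I2.VV
  ring

section join

variable (h : NJ P r j) (R : Red P j K psi) {z y v : P}
  (S : K2.SD j (topOf : P → Tops P) z y v)

include h R S

/-- a join which is not bad -/
theorem NJ.JW_good (hj : 2 ≤ j) (hbad : ¬ BadR P j y) : 2 ≤ JW j K z := by
  have h1 := NJ.join_one h R S hj hbad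
  have h2 := NJ.join_nonneg h R S hj (fun hb => absurd hb hbad)
  have h3 := h2 2 le_rfl
  have h4 := h2 3 (by norm_num)
  unfold JW
  linarith

/-- a bad join -/
theorem NJ.JW_bad (hj : 2 ≤ j) (hbad : BadR P j y) :
    JW j K z = - (2 * sa j (topOf : P → Tops P) K (uc v) (topOf v)) := by
  have hjr : j ≤ r := by have := h.hr; omega
  have h1 := K2.Ek_one_SD h.g.H hjr h.split R.mat R.sub S
  have hy : Small j (topOf : P → Tops P) (topOf y) := by
    obtain ⟨m, x, c, β, B, hm, hβ, -⟩ := id hbad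
    rcases B.small h.g.H h.split with h2 | h2
    · exact h2
    · exfalso
      have := h2.2.1
      omega
  obtain ⟨h2, h3⟩ := NJ.join_small h R S hj hy (NJ.join_v h R S hj)
  have h4 := h3 3 le_rfl
  have h5 := sa_badR h R hbad
  unfold JW
  rw [h1, h2, h4, h5]
  ring

end join

end Pool.Agent.GaussPoset.EK

end

/-! From `Pool.Agent.W_448j6_h22.KbJ` -/

section

/-!
MP_448cb3_co, G2, case B, window `j`: the bad joins are paid by the two parts.
-/

namespace Pool.Agent.GaussPoset.EK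

set_option linter.unusedSectionVars false

open Finset Win St Polynomial Wd Win.W4

universe u

variable {P : Type u} [Fintype P] [PartialOrder P] [DecidableEq P] {r i j : ℕ}

variable {m : ℕ} {x : ℕ → P} {c : ℕ → ℤ} {β : ℤ} {t : Tops P}

variable {K : Finset P} {psi : P → P} {Y V : P → P}

/-- a choice of the two upper covers of the joins -/
def YV (j : ℕ) (Y V : P → P) : Prop :=
  ∀ z ∈ K2.Z2 j (topOf : P → Tops P), K2.SD j (topOf : P → Tops P) z (Y z) (V z)

lemma exists_YV (P : Type u) [Fintype P] [PartialOrder P] [DecidableEq P] (j : ℕ) :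
    ∃ Y V : P → P, YV j Y V := by
  classical
  have h1 : ∀ z : P, ∃ p : P × P, z ∈ K2.Z2 j (topOf : P → Tops P) →
      K2.SD j (topOf : P → Tops P) z p.1 p.2 := by
    intro z
    by_cases hz : z ∈ K2.Z2 j (topOf : P → Tops P)
    · obtain ⟨-, y, v, S⟩ := K2.mem_Z2.1 hz
      exact ⟨(y, v), fun _ => S⟩
    · exact ⟨(z, z), fun h => absurd h hz⟩
  choose f hf using h1
  exact ⟨fun z => (f z).1, fun z => (f z).2, hf⟩

/-- the value of a single element -/
noncomputable def sz (j : ℕ) (K : Finset P) (V : P → P) (z : P) : ℤ :=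
  sa j (topOf : P → Tops P) K (uc (V z)) (topOf (V z))

open Classical in
/-- the joins which have to be paid -/
noncomputable def PZ (j : ℕ) (K : Finset P) (Y V : P → P) : Finset P :=
  (K2.Z2 j (topOf : P → Tops P)).filter (fun z => BadR P j (Y z) ∧ 1 ≤ sz j K V z)

lemma mem_PZ {z : P} : z ∈ PZ j K Y V ↔
    z ∈ K2.Z2 j (topOf : P → Tops P) ∧ BadR P j (Y z) ∧ 1 ≤ sz j K V z := by
  classical
  unfold PZ
  rw [mem_filter]

open Classical in
/-- the share of the part of the double element -/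
noncomputable def PA (j : ℕ) (K : Finset P) (Y V : P → P) (t : Tops P) : ℤ :=
  (((PZ j K Y V).filter (fun z => topOf (Y z) = t)).card : ℤ)

open Classical in
/-- the share of the part of the single element -/
noncomputable def PB (j : ℕ) (K : Finset P) (Y V : P → P) (t : Tops P) : ℤ :=
  ∑ z ∈ (PZ j K Y V).filter (fun z => topOf (V z) = t), (2 * sz j K V z - 1)

open Classical in
/-- a join after the payment -/
noncomputable def gz (j : ℕ) (K : Finset P) (Y V : P → P) (z : P) : ℤ :=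
  JW j K z + if BadR P j (Y z) ∧ 1 ≤ sz j K V z then 2 * sz j K V z else 0

lemma sum_PAB (hall : ∀ t : Tops P, t ∈ univ.image (topOf : P → Tops P)) :
    ∑ t ∈ univ.image (topOf : P → Tops P), (PA j K Y V t + PB j K Y V t) =
      ∑ z ∈ PZ j K Y V, 2 * sz j K V z := by
  classical
  rw [sum_add_distrib]
  have e1 : ∑ t ∈ univ.image (topOf : P → Tops P), PA j K Y V t = ∑ z ∈ PZ j K Y V, (1 : ℤ) := by
    rw [← sum_fiberwise_of_maps_to (t := univ.image (topOf : P → Tops P))
      (g := fun z => topOf (Y z)) (fun z _ => hall _)]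
    refine sum_congr rfl fun t _ => ?_
    unfold PA
    rw [sum_const, nsmul_eq_mul, mul_one]
  have e2 : ∑ t ∈ univ.image (topOf : P → Tops P), PB j K Y V t =
      ∑ z ∈ PZ j K Y V, (2 * sz j K V z - 1) := by
    rw [← sum_fiberwise_of_maps_to (t := univ.image (topOf : P → Tops P))
      (g := fun z => topOf (V z)) (fun z _ => hall _)]
    rfl
  rw [e1, e2, ← sum_add_distrib]
  refine sum_congr rfl fun z _ => ?_
  ring

section main

variable (h : NJ P r j) (hj : 2 ≤ j) (R : Red P j K psi) (hY : YV j Y V)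

include h hj R hY

lemma NJ.gz_nonneg {z : P} (hz : z ∈ K2.Z2 j (topOf : P → Tops P)) :
    0 ≤ gz j K Y V z ∧ (gz j K Y V z = 0 → BadR P j (Y z)) := by
  have S := hY z hz
  have h1 := NJ.sa_single h hj R (S.lv' h.g.H) S.cv
  unfold gz
  by_cases hb : BadR P j (Y z)
  · refine ⟨?_, fun _ => hb⟩
    rw [NJ.JW_bad h R S hj hb]
    unfold sz
    split_ifs with h2
    · linarith
    · have h3 : ¬ 1 ≤ sa j (topOf : P → Tops P) K (uc (V z)) (topOf (V z)) := fun h4 => h2 ⟨hb, h4⟩
      have h4 : sa j (topOf : P → Tops P) K (uc (V z)) (topOf (V z)) = 0 := by omega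
      rw [h4]
      norm_num
  · have h2 := NJ.JW_good h R S hj hb
    rw [if_neg (fun h3 => hb h3.1)]
    exact ⟨by linarith, fun h4 => by linarith⟩

/-- THE DISTRIBUTION: if every part pays its share, then it is exactly its share, and all joins are bad -/
theorem NJ.distr (own : ∀ t : Tops P, PA j K Y V t + PB j K Y V t ≤ TT j t) :
    (∀ t : Tops P, TT j t = PA j K Y V t + PB j K Y V t) ∧
    ∀ z ∈ K2.Z2 j (topOf : P → Tops P), BadR P j (Y z) := by
  classical
  have key := NJ.total h hj R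
  have h1 : ∑ z ∈ K2.Z2 j (topOf : P → Tops P), gz j K Y V z =
      ∑ z ∈ K2.Z2 j (topOf : P → Tops P), JW j K z + ∑ z ∈ PZ j K Y V, 2 * sz j K V z := by
    unfold gz
    rw [sum_add_distrib]
    congr 1
    unfold PZ
    rw [sum_filter]
  have h2 := sum_PAB (j := j) (K := K) (Y := Y) (V := V) (NJ.mem_img h)
  have h3 : ∑ t ∈ univ.image (topOf : P → Tops P), (TT j t - (PA j K Y V t + PB j K Y V t)) +
      ∑ z ∈ K2.Z2 j (topOf : P → Tops P), gz j K Y V z = 0 := by
    rw [sum_sub_distrib, h2, h1]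
    linarith
  have n1 : ∀ t ∈ univ.image (topOf : P → Tops P), 0 ≤ TT j t - (PA j K Y V t + PB j K Y V t) :=
    fun t _ => by linarith [own t]
  have n2 : ∀ z ∈ K2.Z2 j (topOf : P → Tops P), 0 ≤ gz j K Y V z :=
    fun z hz => (NJ.gz_nonneg h hj R hY hz).1
  have s1 := sum_nonneg n1
  have s2 := sum_nonneg n2
  have z1 := (sum_eq_zero_iff_of_nonneg n1).1 (by linarith)
  have z2 := (sum_eq_zero_iff_of_nonneg n2).1 (by linarith)
  refine ⟨fun t => ?_, fun z hz => (NJ.gz_nonneg h hj R hY hz).2 (z2 z hz)⟩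
  have := z1 t (NJ.mem_img h t)
  linarith

/-- the joins of a single element over a site -/
lemma NJ.PZ_V {z : P} (hz : z ∈ PZ j K Y V) (hV : topOf (V z) = t) (B : RowB P j t m x c β) :
    ∃ q, q ≤ m ∧ V z ∈ pen (x q) ∧ z ⋖ V z ∧
      sz j K V z = sa j (topOf : P → Tops P) K {x q} t := by
  classical
  have H := h.g.H
  obtain ⟨hz2, hb, h1⟩ := mem_PZ.1 hz
  have S := hY z hz2
  have hlv := S.lv' H
  obtain ⟨s, hs⟩ := card_eq_one.1 S.cv
  have hsv : s ∈ uc (V z) := by rw [hs]; exact mem_singleton_self _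
  have hls := lev_uc H hsv
  have hts : topOf (V z) = topOf s := h.split (mem_uc.1 hsv) (by omega)
  obtain ⟨q, hq, rfl⟩ := B.row.surj s (by omega) (hts.symm.trans hV)
  refine ⟨q, hq, ?_, mem_uc.1 S.mv, ?_⟩
  · rw [Win.mem_pen]
    exact ⟨mem_uc.1 hsv, S.cv⟩
  · unfold sz
    rw [hs, hV]

/-- the share of the part of the single element: nothing to pay -/
theorem NJ.PB_zero (B : RowB P j t m x c β)
    (h0 : ∀ q, q ≤ m → (pen (x q)).Nonempty → sa j (topOf : P → Tops P) K {x q} t ≤ 0) :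
    PB j K Y V t = 0 := by
  classical
  unfold PB
  rw [sum_eq_zero]
  intro z hz
  rw [mem_filter] at hz
  obtain ⟨q, hq, h1, -, h2⟩ := NJ.PZ_V h hj R hY hz.1 hz.2 B
  have h3 := (mem_PZ.1 hz.1).2.2
  rw [h2] at h3
  have := h0 q hq ⟨_, h1⟩
  omega

/-- the share of the part of the single element: one site -/
theorem NJ.PB_le (B : RowB P j t m x c β) {q0 : ℕ} {b : ℤ} (hb : 1 ≤ b)
    (h0 : ∀ q, q ≤ m → 1 ≤ sa j (topOf : P → Tops P) K {x q} t →
      q = q0 ∧ sa j (topOf : P → Tops P) K {x q} t = b) :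
    PB j K Y V t ≤ 2 * (2 * b - 1) * ((pen (x q0)).card : ℤ) := by
  classical
  have H := h.g.H
  have h1 : ∀ z ∈ (PZ j K Y V).filter (fun z => topOf (V z) = t),
      z ∈ (pen (x q0)).biUnion dc ∧ sz j K V z = b := by
    intro z hz
    rw [mem_filter] at hz
    obtain ⟨q, hq, h1, h4, h2⟩ := NJ.PZ_V h hj R hY hz.1 hz.2 B
    have h3 := (mem_PZ.1 hz.1).2.2
    rw [h2] at h3
    obtain ⟨e1, e2⟩ := h0 q hq h3
    subst e1
    exact ⟨mem_biUnion.2 ⟨V z, h1, mem_dc.2 h4⟩, h2.trans e2⟩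
  unfold PB
  rw [sum_congr rfl (g := fun _ => 2 * b - 1) (fun z hz => by rw [(h1 z hz).2]), sum_const,
    nsmul_eq_mul]
  have h2 : ((PZ j K Y V).filter (fun z => topOf (V z) = t)).card ≤ 2 * (pen (x q0)).card := by
    refine (card_le_card (fun z hz => (h1 z hz).1)).trans (card_biUnion_le.trans ?_)
    calc ∑ a ∈ pen (x q0), (dc a).card ≤ ∑ a ∈ pen (x q0), 2 :=
          sum_le_sum fun a _ => dc_card_le H a
      _ = 2 * (pen (x q0)).card := by rw [sum_const, smul_eq_mul, Nat.mul_comm]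
  have h3 : (((PZ j K Y V).filter (fun z => topOf (V z) = t)).card : ℤ) ≤
      2 * ((pen (x q0)).card : ℤ) := by exact_mod_cast h2
  have h4 : 0 ≤ 2 * b - 1 := by omega
  calc (((PZ j K Y V).filter (fun z => topOf (V z) = t)).card : ℤ) * (2 * b - 1)
      ≤ 2 * ((pen (x q0)).card : ℤ) * (2 * b - 1) := mul_le_mul_of_nonneg_right h3 h4
    _ = 2 * (2 * b - 1) * ((pen (x q0)).card : ℤ) := by ring

/-- the share of the part of the double element: no bad double -/
theorem NJ.PA_zero (h0 : ∀ y, BadR P j y → topOf y ≠ t) : PA j K Y V t = 0 := by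
  classical
  unfold PA
  rw [Nat.cast_eq_zero, card_eq_zero, filter_eq_empty_iff]
  intro z hz hzt
  exact h0 _ (mem_PZ.1 hz).2.1 hzt

/-- the share of the part of the double element: one bad double -/
theorem NJ.PA_le {y0 : P} (h0 : ∀ y, BadR P j y → topOf y = t → y ∈ dbL P j → y = y0) :
    PA j K Y V t ≤ 2 ∧ (PA j K Y V t = 2 → ∀ z, z ⋖ y0 → z ∈ K2.Z2 j (topOf : P → Tops P)) := by
  classical
  have H := h.g.H
  have h1 : (PZ j K Y V).filter (fun z => topOf (Y z) = t) ⊆ dc y0 := by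
    intro z hz
    rw [mem_filter] at hz
    obtain ⟨hz1, hb, h2⟩ := mem_PZ.1 hz.1
    have S := hY z hz1
    have h3 := h0 (Y z) hb hz.2 (mem_dbL.2 ⟨S.ly H, S.cy⟩)
    rw [← h3]
    exact mem_dc.2 (mem_uc.1 S.my)
  have h2 := card_le_card h1
  have h3 := dc_card_le H y0
  unfold PA
  refine ⟨by exact_mod_cast h2.trans h3, fun h4 z hz => ?_⟩
  have h4' : ((PZ j K Y V).filter (fun z => topOf (Y z) = t)).card = 2 := by exact_mod_cast h4
  have h5 : (PZ j K Y V).filter (fun z => topOf (Y z) = t) = dc y0 :=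
    eq_of_subset_of_card_le h1 (by omega)
  have h6 : z ∈ (PZ j K Y V).filter (fun z => topOf (Y z) = t) := by
    rw [h5]
    exact mem_dc.2 hz
  exact (mem_PZ.1 (mem_filter.1 h6).1).1

end main

end Pool.Agent.GaussPoset.EK

end

/-! From `Pool.Agent.W_448fin_h16.FnL` -/

section

/-!
# Final assembly (MP_448cb3_co): case B, the rows: `HRow` from named inputs

Every row with at least four sites of the bad level is natural, from the inputs
* `HCCu` : no element (C) (no hypothesis on the other components);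
* `HW0` : (2a), all the values (3,2) vanish;
* `HFold` : no [DL] at a fold end;
* `HLateF`, `HLate0` : the open rows of the late words;
* `HRT` : no closed [DL] with at least five sites, in the state `Z1` (all `F = 0`, no join of a double
  and a single element).
-/

namespace Pool.Agent.GaussPoset.EK

set_option linter.unusedSectionVars false

open Finset Win St Polynomial Wd Win.W4

universe u

/-- CASE B -/
structure CB (P : Type u) [Fintype P] [PartialOrder P] [DecidableEq P] (r j : ℕ) : Prop where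
  bad : Bad P r j
  no : ∀ z : P, lev z = j + 1 → ¬ Hul.Jn z

/-- the late components with at least four sites of level `j` -/
structure LateC (j a : ℕ) (lo hi : ℕ → ℕ) : Prop where
  ha : 3 ≤ a
  haj : a ≤ j
  one : ∀ k, k < a → lo k = 0 ∧ hi k = 0
  two : lo a = 0 ∧ hi a = 1
  wd : word lo hi a (j - a) = [OC, OO, OO] ∨ word lo hi a (j - a) = [OC, OO, CO, OO] ∨
    word lo hi a (j - a) = [OC, CO, CO, OO, CO, OO] ∨
    word lo hi a (j - a) = [OC, CO, CO, OO, CO, OO, OC] ∨
    word lo hi a (j - a) = [OC, CO, CO, OO, CO, OO, OO]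

section inputs

variable (P : Type u) [Fintype P] [PartialOrder P] [DecidableEq P]

/-- INPUT (A6): there is no element (C) -/
def HCCu : Prop :=
  ∀ r m, 3 ≤ m → CB P r (2 * m) → ∀ (lo hi : Tops P → ℕ → ℕ) (e : Tops P → ℕ → ℕ → P),
    (∀ t : Tops P, Cp.Comp (2 * m) (t : P) (lo t) (hi t) (e t)) →
    (∀ t : Tops P, Shape (2 * m) (lo t) (hi t)) →
    ∀ (t : Tops P) (z : P), StairShape (2 * m) (lo t) (hi t) → lo t (2 * m) = 0 →
      z ⋖ e t (2 * m) m → z ⋖ e t (2 * m) 0 → False

end inputs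

variable {P : Type u} [Fintype P] [PartialOrder P] [DecidableEq P] {r i j : ℕ}

variable {m : ℕ} {x : ℕ → P} {c : ℕ → ℤ} {β : ℤ} {t : Tops P}

variable {K : Finset P} {psi : P → P}

theorem CB.nj (h : CB P r j) : NJ P r j := ⟨h.bad.gt, h.bad.lt, h.no⟩

/-- a row without defects is natural -/
lemma RowB.natT (h : NJ P r j) (B : RowB P j t m x c β) (h0 : ∀ k, k < m → c k = 0)
    (hβ : β = 0) : NatT j (t : P) := by
  have H := h.g.H
  have key : ∀ a b, a < b → b ≤ m → ucv (x a) (x b) = dcv (x a) (x b) := by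
    intro a b hab hb
    have hne : x a ≠ x b := fun q => by
      have := B.row.inj a b (by omega) hb q
      omega
    have e1 := B.row.df a b hab hb
    rw [Df_pair H (B.row.lev_x a (by omega)) hne, hβ] at e1
    have e2 : (dcv (x a) (x b) : ℤ) - ucv (x a) (x b) = 0 := by
      rw [e1]
      split_ifs
      · exact h0 a (by omega)
      · rfl
      · rfl
    have : (ucv (x a) (x b) : ℤ) = dcv (x a) (x b) := by linarith
    exact_mod_cast this
  intro v v' hv hv' hvt hvt' hne
  obtain ⟨a, ha, rfl⟩ := B.row.surj v hv ((RowB.topOf_iff h hv).2 hvt)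
  obtain ⟨b, hb, rfl⟩ := B.row.surj v' hv' ((RowB.topOf_iff h hv').2 hvt')
  rcases Nat.lt_trichotomy a b with h1 | h1 | h1
  · exact key a b h1 hb
  · rw [h1] at hne
    exact absurd rfl hne
  · rw [StB_ucv_comm, StB_dcv_comm]
    exact key b a h1 ha

/-- a row with at least four sites is natural, or it has a double edge or a lost edge at the
beginning, after a reversal -/
lemma RowB.cases (h : NJ P r j) (B : RowB P j t m x c β) (hm : 3 ≤ m) :
    NatT j (t : P) ∨ ∃ (x' : ℕ → P) (c' : ℕ → ℤ), RowB P j t m x' c' β ∧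
      ((c' 0 = 1 ∧ c' 1 = -1 ∧ β = 0 ∧ ((∀ k, 2 ≤ k → k < m → c' k = 0) ∨ Pat6 m c' β)) ∨
        (β = 1 ∧ c' 0 = -1 ∧ ∀ k, 1 ≤ k → k < m → c' k = 0)) := by
  rcases B.pat with ⟨p1, p2⟩ | ⟨-, p1, p2, p3⟩ | ⟨-, p1, p2, p3⟩ | ⟨-, p1, p2, p3, p4⟩ |
    ⟨-, p1, p2, p3, p4⟩ | p1 | ⟨p1, -⟩ | p1
  · exact Or.inl (B.natT h p2 p1)
  · exact Or.inr ⟨x, c, B, Or.inr ⟨p1, p2, p3⟩⟩
  · refine Or.inr ⟨_, _, B.rev, Or.inr ⟨p1, ?_, fun k k1 k2 => ?_⟩⟩
    · show c (m - 1 - 0) = -1
      rwa [Nat.sub_zero]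
    · exact p3 (m - 1 - k) (by omega)
  · exact Or.inr ⟨x, c, B, Or.inl ⟨p2, p3, p1, Or.inl p4⟩⟩
  · refine Or.inr ⟨_, _, B.rev, Or.inl ⟨?_, ?_, p1, Or.inl fun k k1 k2 => ?_⟩⟩
    · show c (m - 1 - 0) = 1
      rwa [Nat.sub_zero]
    · show c (m - 1 - 1) = -1
      rwa [show m - 1 - 1 = m - 2 by omega]
    · exact p4 (m - 1 - k) (by omega)
  · exact Or.inr ⟨x, c, B, Or.inl ⟨p1.2.2.1, p1.2.2.2.1, p1.2.1, Or.inr p1⟩⟩
  · omega
  · exact (B.not8 p1).elim

/-- the two sites with a common lower double -/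
lemma RowB.low (h : NJ P r j) (B : RowB P j t m x c β) {a b : ℕ} (hab : a < b) (hb : b ≤ m)
    (h1 : 1 ≤ (dcv (x a) (x b) : ℤ)) : ∃ y, lev y = j + 1 ∧ y ≤ (t : P) ∧ y ⋖ x a ∧ y ⋖ x b := by
  classical
  have h2 : 0 < dcv (x a) (x b) := by exact_mod_cast h1
  unfold dcv at h2
  obtain ⟨y, hy⟩ := card_pos.1 h2
  rw [mem_filter] at hy
  have hl := lev_cov h.g.H hy.2.1
  have hx := B.row.lev_x a (by omega)
  refine ⟨y, by omega, ?_, hy.2.1, hy.2.2⟩
  have hxt : x a ≤ (t : P) := by
    rw [← B.row.kap a (by omega)]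
    exact le_topOf (x a)
  exact hy.2.1.le.trans hxt

/-- the length of a late row -/
lemma LateC.len {a : ℕ} {lo hi : ℕ → ℕ} {e : ℕ → ℕ → P} (hn : NJ P r j) (hj : 2 ≤ j)
    (L : LateC j a lo hi) (C : Cp.Comp j (t : P) lo hi e) (B : RowB P j t m x c β) : m ≤ 4 := by
  obtain ⟨hlen, -⟩ := B.orient hn hj C
  have h1 := L.two
  have h2 : ∀ d, a + d ≤ j → hi (a + d) ≤ 1 + d := by
    intro d
    induction d with
    | zero => intro _; rw [Nat.add_zero, h1.2]
    | succ d ih =>
      intro hd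
      have e1 := ih (by omega)
      have e2 := C.hi_step (a + d) (by omega)
      rw [show a + d + 1 = a + (d + 1) by omega] at e2
      omega
  -- count the letters
  have key : ∀ w : List Ltr, word lo hi a (j - a) = w → (wdt w : ℤ) ≤ 4 → m ≤ 4 := by
    intro w hw hw4
    have gen : ∀ n, n ≤ j - a → (hi (a + n) : ℤ) - lo (a + n) =
        1 + ((word lo hi a n).map (fun l => (if l.2 then (1 : ℤ) else 0) -
          if l.1 then 1 else 0)).sum := by
      intro n
      induction n with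
      | zero =>
        intro _
        simp [word, h1.1, h1.2]
      | succ n ih =>
        intro hn
        have e1 := ih (by omega)
        have e2 := C.lo_step (a + n) (by omega)
        have e3 := C.hi_step (a + n) (by omega)
        have e4 : word lo hi a (n + 1) = word lo hi a n ++
            [(decide (lo (a + n + 1) ≠ lo (a + n)), decide (hi (a + n + 1) ≠ hi (a + n)))] := by
          unfold word
          rw [List.range_succ, List.map_append]
          rfl
        rw [e4, List.map_append, List.sum_append]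
        simp only [List.map_cons, List.map_nil, List.sum_cons, List.sum_nil, add_zero,
          decide_eq_true_eq]
        rw [show a + (n + 1) = a + n + 1 by omega]
        split_ifs <;> omega
    have h3 := gen (j - a) le_rfl
    have haj := L.haj
    rw [show a + (j - a) = j by omega, hw] at h3
    unfold wdt at hw4
    rw [← h3] at hw4
    omega
  rcases L.wd with w | w | w | w | w <;> exact key _ w (by decide)

end Pool.Agent.GaussPoset.EK

end

/-! From `Pool.Agent.W_448fin_h16.FnQ` -/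

section

/-!
# Final assembly (MP_448cb3_co): case B, the window `j - 1`, `j`: THE FUNCTIONAL AND ITS LEAVES

`j = i + 1`.  The functional `Wsh` is `- L31 + 9 L52 - 2 L62 - 4 L83 - 6 L10,4 - w21 - 4 L42 + 13 w32`.
The joins of a double `y` and a single element `v` cost (once) `4 (1 + a + b) - 4 [N5s]`; a HEAVY join
(`a b ≠ 0`) pays `4 b` to the part of `v`, everything else goes to the part of `y`.
`Vt` is TWICE the value of a part with the shares of its pendants, without any join of a double and a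
single element.  The leaves `HNat`, `HClosed`, `HOpen3`, `HRing3`, `HFold`, `HTwo`, `HSix` are the lower
bounds of `Vt`; `HHeavy` is the class fact (L1').
-/

namespace Pool.Agent.GaussPoset.EK

set_option linter.unusedSectionVars false

open Finset Win St Polynomial Wd Win.W4

universe u

/-- the weights of the functional -/
def Wsh : Pn.Wt := ⟨-1, 9, 1, 4, 3, -1, 2, 13, 0⟩

section defs

variable (P : Type u) [Fintype P] [PartialOrder P] [DecidableEq P]

variable {P} in
/-- twice the value of a part with the shares of its pendants -/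
noncomputable def Vt (i : ℕ) (t : Tops P) : ℤ :=
  2 * Pn.own Wsh i (i + 1) t +
    ∑ p ∈ (PD P i).filter (fun p => (topOf p : Tops P) = t), Pn.shr Wsh i p

variable {P} in
/-- every join of a double and a single element at the part is light -/
def NoHeavy (j : ℕ) (K : Finset P) (t : Tops P) : Prop :=
  ∀ z y v : P, K2.SD j (topOf : P → Tops P) z y v → (topOf y = t ∨ topOf v = t) →
    sa j (topOf : P → Tops P) K (uc y) (topOf y) *
      sa j (topOf : P → Tops P) K (uc v) (topOf v) = 0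

/-- INPUT (L1'): a component (not the one with two stars) all of whose joins have `Ek 2 = 0` has (3,2)
equal to zero.  (For components without two stars `Ek 2 = a b`.) -/
def HHeavy : Prop :=
  ∀ (r j : ℕ) (K : Finset P) (psi : P → P), 2 ≤ j → CB P r j → Red P j K psi → ∀ t : Tops P,
    (∀ (m : ℕ) (x : ℕ → P) (c : ℕ → ℤ) (β : ℤ), RowB P j t m x c β → ¬ Pat6 m c β) →
    (∀ z y v : P, K2.SD j (topOf : P → Tops P) z y v → (topOf y = t ∨ topOf v = t) →
      Ek j K (K2.Tz z) 2 = 0) → v3 j t = 0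

/-- INPUT: natural rows (flips included, any number of sites) -/
def HNat : Prop :=
  ∀ (r i : ℕ) (t : Tops P) (m : ℕ) (x : ℕ → P) (c : ℕ → ℤ) (β : ℤ), 1 ≤ i → CB P r (i + 1) →
    RowB P (i + 1) t m x c β → β = 0 → (∀ k, k < m → c k = 0) → 0 ≤ Vt i t

/-- the pattern [DL] -/
def IsDL (m : ℕ) (c : ℕ → ℤ) (β : ℤ) : Prop :=
  β = 0 ∧ c 0 = 1 ∧ c 1 = -1 ∧ ∀ k, 2 ≤ k → k < m → c k = 0

/-- INPUT: [DL], at least four sites, the doubled end closed -/
def HClosed : Prop :=
  ∀ (r i : ℕ) (K : Finset P) (psi : P → P) (t : Tops P) (m : ℕ) (x : ℕ → P) (c : ℕ → ℤ) (β : ℤ)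
    (lo hi : ℕ → ℕ) (e : ℕ → ℕ → P), 1 ≤ i → CB P r (i + 1) → Red P (i + 1) K psi →
    RowB P (i + 1) t m x c β →
    Cp.Comp (i + 1) (t : P) lo hi e → Shape (i + 1) lo hi → 3 ≤ m → IsDL m c β →
    (uc (x 0)).card = 2 →
    (v3 (i + 1) t = 0 → 0 ≤ Vt i t ∧ (4 ≤ m → 0 < Vt i t)) ∧
      (v3 (i + 1) t ≠ 0 → -8 < Vt i t ∨ (-16 < Vt i t ∧ NoHeavy (i + 1) K t))

/-- INPUT: [DL], four sites, both ends single (the late words ending with OO), the doubled end at the
end `lo` -/
def HOpen3 : Prop :=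
  ∀ (r i : ℕ) (t : Tops P) (x : ℕ → P) (c : ℕ → ℤ) (β : ℤ) (lo hi : ℕ → ℕ)
    (e : ℕ → ℕ → P) (a : ℕ), 1 ≤ i → CB P r (i + 1) → RowB P (i + 1) t 3 x c β →
    Cp.Comp (i + 1) (t : P) lo hi e → Shape (i + 1) lo hi → LateC (i + 1) a lo hi → IsDL 3 c β →
    (uc (x 0)).card = 1 → (uc (x 3)).card = 1 →
    UE (i + 1) (cext (i + 1 + 1) (topOf : P → Tops P) t) x 2 = ∅ →
    (∀ k, k ≤ 3 → x k = e (i + 1) (lo (i + 1) + k)) →
    0 < Vt i t ∨ (-8 < Vt i t ∧ v3 (i + 1) t ≠ 0) ∨
      (-16 < Vt i t ∧ v3 (i + 1) t ≠ 0 ∧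
        ∃ z y v : P, K2.SD (i + 1) (topOf : P → Tops P) z y v ∧ topOf y = t ∧
          (∀ (K : Finset P) (psi : P → P), Red P (i + 1) K psi →
            sa (i + 1) (topOf : P → Tops P) K (uc y) (topOf y) = 0) ∧
          z ∉ So.N5s i (topOf : P → Tops P))

/-- INPUT: the rotated rows, four sites (the late words ending with OO), `w32` arbitrary -/
def HRing3 : Prop :=
  ∀ (r i : ℕ) (t : Tops P) (x : ℕ → P) (c : ℕ → ℤ) (β : ℤ) (lo hi : ℕ → ℕ)
    (e : ℕ → ℕ → P) (a : ℕ), 1 ≤ i → CB P r (i + 1) → RowB P (i + 1) t 3 x c β →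
    Cp.Comp (i + 1) (t : P) lo hi e → Shape (i + 1) lo hi → LateC (i + 1) a lo hi →
    β = 1 → c 0 = -1 → (∀ k, 1 ≤ k → k < 3 → c k = 0) →
    (uc (x 0)).card = 1 → (uc (x 3)).card = 1 → pen (x 0) ≠ ∅ →
    (∀ k, k ≤ 3 → x k = e (i + 1) (hi (i + 1) - k)) → 0 < Vt i t

/-- INPUT: [DL] at a fold end -/
def HFoldV : Prop :=
  ∀ (r i : ℕ) (K : Finset P) (psi : P → P) (t : Tops P) (m : ℕ) (x : ℕ → P) (c : ℕ → ℤ) (β : ℤ)
    (lo hi : ℕ → ℕ) (e : ℕ → ℕ → P), 1 ≤ i → CB P r (i + 1) → Red P (i + 1) K psi →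
    RowB P (i + 1) t m x c β → Cp.Comp (i + 1) (t : P) lo hi e → StairShape (i + 1) lo hi →
    (i + 1) % 2 = 0 → 3 ≤ m → x 0 = e (i + 1) ((i + 1) / 2) → IsDL m c β →
    0 < Vt i t ∨ (-16 < Vt i t ∧ v3 (i + 1) t ≠ 0 ∧ NoHeavy (i + 1) K t) ∨
      (-8 < Vt i t ∧ ∃ z y v : P, K2.SD (i + 1) (topOf : P → Tops P) z y v ∧ topOf y = t ∧
        sa (i + 1) (topOf : P → Tops P) K (uc y) (topOf y) = 0 ∧
        z ∉ So.N5s i (topOf : P → Tops P))

/-- INPUT: three sites with a defect -/
def HTwo : Prop :=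
  ∀ (r i : ℕ) (K : Finset P) (psi : P → P) (t : Tops P) (x : ℕ → P) (c : ℕ → ℤ) (β : ℤ),
    1 ≤ i → CB P r (i + 1) → Red P (i + 1) K psi → RowB P (i + 1) t 2 x c β →
    ¬ (β = 0 ∧ ∀ k, k < 2 → c k = 0) →
    v3 (i + 1) t ≠ 0 ∧ (-8 < Vt i t ∨ (-16 < Vt i t ∧ NoHeavy (i + 1) K t))

end defs

end Pool.Agent.GaussPoset.EK

end

/-! From `Pool.Agent.W_448fg_h53.FgG` -/

section

/-!
MP_448cb3_co, G2, case B, window `j`: the value `2 L - 3 w21 + 13 w32` of a row with the pattern [DL] at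
the left end (the weights `W#`).  helper53.
-/

namespace Pool.Agent.GaussPoset.Win.W4

set_option linter.unusedSectionVars false

open Finset

universe u

variable {P : Type u} [Fintype P] [PartialOrder P] [DecidableEq P] {r i : ℕ}
variable {psi : P → P} {C K : Finset P} {w v : P} {m : ℕ} {x : ℕ → P}

lemma two_sq_sub (a : ℤ) : 0 ≤ 2 * a ^ 2 - a := by
  rcases lt_or_ge 0 a with h | h <;> nlinarith

lemma QS_three (a : ℕ → ℤ) {s : ℕ} (n : ℕ) (ha : ∀ k, s ≤ k → k < s + n → 0 ≤ a k) :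
    3 * ∑ k ∈ Ico s (s + n), a k ≤ 2 * QS a s (s + n) := by
  induction n with
  | zero => simp [QS_self]
  | succ n ih =>
    have h1 := ih fun k hk hk' => ha k hk (by omega)
    have h2 := QS_top a (s := s) (t := s + n) (by omega)
    have h3 := ha (s + n) (by omega) (by omega)
    have h4 : (0 : ℤ) ≤ if s < s + n then 2 * a (s + n - 1) * a (s + n) else 0 := by
      split_ifs with h5
      · have := ha (s + n - 1) (by omega) (by omega)
        positivity
      · exact le_rfl
    have h5 := two_sq_sub (a (s + n))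
    rw [show s + (n + 1) = s + n + 1 by omega, h2, sum_Ico_succ_top (by omega)]
    linarith

lemma QS_three' (a : ℕ → ℤ) {s t : ℕ} (h : s ≤ t) (ha : ∀ k, s ≤ k → k < t → 0 ≤ a k) :
    3 * ∑ k ∈ Ico s t, a k ≤ 2 * QS a s t := by
  obtain ⟨n, rfl⟩ : ∃ n, t = s + n := ⟨t - s, by omega⟩
  exact QS_three a n ha

/-- with the term of the first index -/
lemma QS_three_first (a : ℕ → ℤ) {s t : ℕ} (h : s < t) (ha : ∀ k, s ≤ k → k < t → 0 ≤ a k) :
    3 * ∑ k ∈ Ico s t, a k + 4 * a s - 3 ≤ 2 * QS a s t := by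
  have h1 := QS_bot a h
  have h2 := QS_three' a (s := s + 1) (t := t) (by omega) fun k hk hk' => ha k (by omega) hk'
  have h4 : (0 : ℤ) ≤ if s + 1 < t then 2 * a s * a (s + 1) else 0 := by
    split_ifs with h5
    · have := ha s le_rfl h
      have := ha (s + 1) (by omega) h5
      positivity
    · exact le_rfl
  rw [h1, sum_eq_sum_Ico_succ_bot h]
  have h5 : 0 ≤ 2 * a s ^ 2 - 5 * a s + 3 := by
    have h6 : 0 ≤ (a s - 1) * (2 * a s - 3) := by
      rcases lt_or_ge (a s) 2 with h7 | h7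
      · have : a s - 1 ≤ 0 := by omega
        have : 2 * a s - 3 ≤ 0 := by omega
        nlinarith
      · have : 0 ≤ a s - 1 := by omega
        have : 0 ≤ 2 * a s - 3 := by omega
        positivity
    linarith
  linarith

namespace DLg

variable (h : DLg r i K psi C w v m x)
include h

/-- the coefficient (2,1) -/
theorem al2_form (hp : pen (x 2) = ∅) : I2.al 2 (st i C).card (ZS i C) =
    (NE i C x 0 + (uc (x 0)).card - 1) + (NE i C x 2 - 1) + ∑ k ∈ Ico 3 m, NE i C x k := by
  have hm := h.hm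
  have g0 := h.dg0
  have g2 := h.dg2
  have q2 := h.sum_vp_split
  have a1 := h.Q.al2 h.hw h.hv h.n01 h.n12 h.n02
  have m1 : mm i K C {x 0, x 1} = 1 := by
    have := h.mmx (a := 0) (b := 1) (by omega) (by omega)
    norm_num at this
    exact this
  have m2 : mm i K C {x 1, x 2} = 0 := by
    have := h.mmx (a := 1) (b := 2) (by omega) (by omega)
    norm_num at this
    exact this
  rw [hp, card_empty] at g2
  rw [m1, m2, g0, g2, q2] at a1
  rw [a1]
  push_cast
  ring

/-- the value at the weights `W#`, window `j` part: `2 L - 3 w21 + 13 w32` -/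
theorem sharp4 (hm4 : 4 ≤ m) (hl : 0 ≤ NE i C x (m - 1)) :
    ((DE i C x 2).card = 0 ∧ 3 ≤ 2 * Lv i C - 3 * I2.al 2 (st i C).card (ZS i C) + 13 * wv i C) ∨
    ((DE i C x 2).card = 1 ∧ 2 * (NE i C x 0 + (uc (x 0)).card - 1) ^ 2 -
      (NE i C x 0 + (uc (x 0)).card - 1) - 4 + 2 * OCs i C w v ≤
        2 * Lv i C - 3 * I2.al 2 (st i C).card (ZS i C) + 13 * wv i C) ∨
      (DE i C x 2).card = 2 := by
  have hU2 := h.W.ue_inner (k := 2) (by omega) (by omega)
  have h3 := h.TUs_le hm4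
  have h4 := OCs_nonneg (i := i) (C := C) (w := w) (v := v)
  have hpos : ∀ k, 3 ≤ k → k < m → 0 ≤ NE i C x k := by
    intro k hk hk'
    rcases Nat.lt_or_ge (k + 1) m with h6 | h6
    · exact h.NE_nonneg (by omega) (by omega)
    · have : k = m - 1 := by omega
      rw [this]
      exact hl
  have q1 := QS_three' (NE i C x) (s := 3) (t := m) (by omega) hpos
  have q2 := QS_three_first (NE i C x) (s := 3) (t := m) (by omega) hpos
  have e2 : NE i C x 2 = ((DE i C x 2).card : ℤ) := by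
    unfold NE
    rw [hU2, card_empty]
    push_cast
    ring
  have hp : pen (x 2) = ∅ := h.W.pen0 2 le_rfl (by omega)
  have t1 : ((TUs i C x).card : ℤ) ≤ 1 := by exact_mod_cast h3
  have t2 : (0 : ℤ) ≤ ((TLs i C x).card : ℤ) := by positivity
  have t3 := two_sq_sub (NE i C x 0 + (uc (x 0)).card - 1)
  rw [h.L_form hm4, h.Zs_eq hm4, h.al2_form hp, h.w3_eq, e2]
  rcases h.CH2_num with ⟨d, c⟩ | ⟨d, c⟩ | ⟨d, c⟩
  · refine Or.inl ⟨d, ?_⟩
    rw [d]
    push_cast
    linarith
  · refine Or.inr (Or.inl ⟨d, ?_⟩)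
    rw [d]
    push_cast
    linarith
  · exact Or.inr (Or.inr d)

/-- four sites: always positive -/
theorem sharp3 (hm3 : m = 3) (hU : UE i C x 2 = ∅) (hp : pen (x 2) = ∅)
    (h3 : (uc (x 3)).card + (pen (x 3)).card ≤ 2) :
    2 ≤ 2 * Lv i C - 3 * I2.al 2 (st i C).card (ZS i C) + 13 * wv i C := by
  have g4 := card_le_card (T4_subset i C)
  have g5 := two_sq_sub (NE i C x 0 + (uc (x 0)).card - 1)
  have e2 : NE i C x 2 = ((DE i C x 2).card : ℤ) := by
    unfold NE
    rw [hU, card_empty]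
    push_cast
    ring
  rw [h.L_form3 hm3, h.al2_form hp, h.w3_eq, e2, hp, card_empty]
  have hz : ((T4 i C).card : ℤ) ≤ (Z4 i C).card := by exact_mod_cast g4
  have hsq : ((uc (x 3)).card : ℤ) + (pen (x 3)).card ≤ 2 := by exact_mod_cast h3
  have e3 : ∑ k ∈ Ico 3 m, NE i C x k = 0 := by
    rw [hm3, Ico_self, sum_empty]
  rw [e3]
  rcases h.CH2_num with ⟨d, c⟩ | ⟨d, c⟩ | ⟨d, c⟩ <;> rw [d] <;> push_cast <;> linarith

end DLg

end Pool.Agent.GaussPoset.Win.W4

end

/-! From `Pool.Agent.W_448cl_h64.ClN` -/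

section

/-!
MP_448cb3_co, G2, case B, window `j`: the value of the functional `W#` (weights `- w21 - 4 L42 + 13 w32` of
the window `j`) of a row with the pattern [DL], the doubled end closed.  helper64.
-/

namespace Pool.Agent.GaussPoset.Win.W4

set_option linter.unusedSectionVars false

open Finset
open Pool.Agent.GaussPoset.Win.SO (PN vp con on mem_PN vp_PD vp_PU)

universe u

/-! ### a weighted form of neighbouring products -/

/-- `∑ (2 n² - n) + 4 ∑ n n'` -/
def RS (a : ℕ → ℤ) (s t : ℕ) : ℤ := 2 * QS a s t - 3 * ∑ k ∈ Ico s t, a k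

lemma RS_self (a : ℕ → ℤ) (s : ℕ) : RS a s s = 0 := by
  unfold RS
  rw [QS_self, Ico_self, sum_empty]
  ring

lemma RS_bot (a : ℕ → ℤ) {s t : ℕ} (h : s < t) : RS a s t =
    2 * a s ^ 2 - a s + (if s + 1 < t then 4 * a s * a (s + 1) else 0) + RS a (s + 1) t := by
  unfold RS
  rw [QS_bot a h, sum_eq_sum_Ico_succ_bot h]
  split_ifs <;> ring

lemma sq_two_sub (n : ℤ) : 0 ≤ 2 * n ^ 2 - n := by
  rcases le_or_gt n 0 with h | h
  · nlinarith
  · nlinarith

lemma rs_two {n n' : ℤ} (h : 0 ≤ n) (h' : -1 ≤ n') :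
    0 ≤ 2 * n ^ 2 - n + 4 * n * n' + (2 * n' ^ 2 - n') := by
  rcases eq_or_lt_of_le h' with h1 | h1
  · rw [← h1]
    rcases (by omega : n = 0 ∨ n = 1 ∨ 2 ≤ n) with h2 | h2 | h2
    · rw [h2]; norm_num
    · rw [h2]; norm_num
    · nlinarith
  · have h2 : 0 ≤ n' := by omega
    have h3 := sq_two_sub n
    have h4 := sq_two_sub n'
    have h5 : 0 ≤ n * n' := mul_nonneg h h2
    linarith

lemma RS_nonneg (a : ℕ → ℤ) {t : ℕ} : ∀ n s, s + n = t → (∀ k, s ≤ k → k + 1 < t → 0 ≤ a k) →
    (s < t → -1 ≤ a (t - 1)) → 0 ≤ RS a s t := by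
  intro n
  induction n with
  | zero =>
    intro s hs _ _
    rw [add_zero] at hs
    rw [hs, RS_self]
  | succ n ih =>
    intro s hs h0 hl
    have hst : s < t := by omega
    have hr := ih (s + 1) (by omega) (fun k hk hk' => h0 k (by omega) hk') (fun _ => hl hst)
    rw [RS_bot a hst]
    rcases Nat.lt_or_ge (s + 1) t with h1 | h1
    · rw [if_pos h1]
      have h2 := h0 s le_rfl h1
      rcases Nat.lt_or_ge (s + 2) t with h3 | h3
      · have h4 := h0 (s + 1) (by omega) (by omega)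
        have h5 := sq_two_sub (a s)
        have h6 : 0 ≤ a s * a (s + 1) := mul_nonneg h2 h4
        linarith
      · obtain rfl : t = s + 2 := by omega
        rw [RS_bot a (by omega : s + 1 < s + 2), if_neg (by omega), RS_self]
        have h4 := hl hst
        rw [show s + 2 - 1 = s + 1 by omega] at h4
        have := rs_two h2 h4
        linarith
    · rw [if_neg (by omega)]
      have h5 := sq_two_sub (a s)
      linarith

lemma RS_sub (a : ℕ → ℤ) {s t : ℕ} (hst : s < t) (h0 : ∀ k, s ≤ k → k + 1 < t → 0 ≤ a k)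
    (hl : -1 ≤ a (t - 1)) : -7 ≤ RS a s t - 4 * a s := by
  rw [RS_bot a hst]
  rcases Nat.lt_or_ge (s + 1) t with h1 | h1
  · rw [if_pos h1]
    have h2 := h0 s le_rfl h1
    rcases Nat.lt_or_ge (s + 2) t with h3 | h3
    · have h4 := h0 (s + 1) (by omega) (by omega)
      have h6 : 0 ≤ a s * a (s + 1) := mul_nonneg h2 h4
      have hr := RS_nonneg a (t - (s + 1)) (s + 1) (by omega) (fun k hk hk' => h0 k (by omega) hk')
        (fun _ => hl)
      nlinarith [sq_nonneg (4 * a s - 5)]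
    · obtain rfl : t = s + 2 := by omega
      rw [RS_bot a (by omega : s + 1 < s + 2), if_neg (by omega), RS_self]
      rw [show s + 2 - 1 = s + 1 by omega] at hl
      rcases eq_or_lt_of_le hl with h5 | h5
      · rw [← h5]
        rcases (by omega : a s = 0 ∨ a s = 1 ∨ a s = 2 ∨ a s = 3 ∨ 4 ≤ a s) with
          h6 | h6 | h6 | h6 | h6
        · rw [h6]; norm_num
        · rw [h6]; norm_num
        · rw [h6]; norm_num
        · rw [h6]; norm_num
        · nlinarith
      · have h7 : 0 ≤ a (s + 1) := by omega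
        have h8 : 0 ≤ a s * a (s + 1) := mul_nonneg h2 h7
        have h9 := sq_two_sub (a (s + 1))
        nlinarith [sq_nonneg (4 * a s - 5)]
  · rw [if_neg (by omega)]
    obtain rfl : t = s + 1 := by omega
    rw [RS_self]
    nlinarith [sq_nonneg (4 * a s - 5)]

lemma RS_add (a : ℕ → ℤ) {s t : ℕ} (hst : s < t) (h0 : ∀ k, s ≤ k → k + 1 < t → 0 ≤ a k)
    (hl : -1 ≤ a (t - 1)) : -1 ≤ RS a s t + 4 * a s := by
  rcases Nat.lt_or_ge (s + 1) t with h1 | h1
  · have h2 := h0 s le_rfl h1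
    have := RS_nonneg a (t - s) s (by omega) h0 (fun _ => hl)
    linarith
  · rw [RS_bot a hst, if_neg (by omega)]
    obtain rfl : t = s + 1 := by omega
    rw [RS_self]
    rw [Nat.add_sub_cancel] at hl
    rcases eq_or_lt_of_le hl with h2 | h2
    · rw [← h2]; norm_num
    · have : 0 ≤ a s := by omega
      nlinarith

variable {P : Type u} [Fintype P] [PartialOrder P] [DecidableEq P] {r i : ℕ}
variable {psi : P → P} {C K : Finset P} {w v : P} {m : ℕ} {x : ℕ → P}

/-- the value at the window `j` -/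
noncomputable def Ow (i : ℕ) (C : Finset P) : ℤ :=
  2 * Lv i C - 3 * I2.al 2 (st i C).card (ZS i C) + 13 * wv i C

namespace DLg

variable (h : DLg r i K psi C w v m x)
include h

/-- (2,1) of a row with the pattern [DL] -/
theorem al2_eq : I2.al 2 (st i C).card (ZS i C) =
    (NE i C x 0 + (uc (x 0)).card - 1 - (pen (x 2)).card) + NE i C x 2 - 1 +
      ∑ k ∈ Ico 3 m, NE i C x k := by
  have hm := h.hm
  have g0 := h.dg0
  have g2 := h.dg2
  have q2 := h.sum_vp_split
  have a1 := h.Q.al2 h.hw h.hv h.n01 h.n12 h.n02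
  have m1 : mm i K C {x 0, x 1} = 1 := by
    have := h.mmx (a := 0) (b := 1) (by omega) (by omega)
    norm_num at this
    exact this
  have m2 : mm i K C {x 1, x 2} = 0 := by
    have := h.mmx (a := 1) (b := 2) (by omega) (by omega)
    norm_num at this
    exact this
  rw [a1, q2, m1, m2, g0, g2]
  ring

/-- THE VALUE, at least five sites -/
theorem Ow_form4 (hm4 : 4 ≤ m) (hu : (uc (x 0)).card = 2) : Ow i C =
    2 * (NE i C x 0 + 1) ^ 2 - (NE i C x 0 + 1) + 2 * NE i C x 2 ^ 2 - 4 * NE i C x 2 + 10 +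
      4 * (NE i C x 2 - 1) * NE i C x 3 + RS (NE i C x) 3 m + 2 * Zs i C w v -
        2 * CH i C x 2 := by
  have hpen : (pen (x 2)).card = 0 := by rw [h.W.pen0 2 le_rfl (by omega), card_empty]
  unfold Ow RS
  rw [h.L_form hm4, h.al2_eq, h.w3_eq, hu, hpen]
  push_cast
  ring

/-- THE VALUE, four sites -/
theorem Ow_form3 (hm3 : m = 3) (hu : (uc (x 0)).card = 2) : Ow i C =
    2 * (NE i C x 0 + 1 - (pen (x 2)).card) ^ 2 - (NE i C x 0 + 1 - (pen (x 2)).card) + 10 +
      8 * (pen (x 2)).card + 2 * NE i C x 2 ^ 2 + 8 * NE i C x 2 -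
      4 * NE i C x 2 * ((uc (x 3)).card + 2 * (pen (x 2)).card + (pen (x 3)).card) +
      4 * ((Z4 i C).card - (T4 i C).card : ℤ) - 2 * CH i C x 2 := by
  have e3 : Ico 3 m = ∅ := by rw [hm3]; rfl
  unfold Ow
  rw [h.L_form3 hm3, h.al2_eq, h.w3_eq, hu, e3, sum_empty]
  push_cast
  ring

lemma NE0_nonneg (hu : (uc (x 0)).card = 2) : 0 ≤ NE i C x 0 := by
  have hm := h.hm
  unfold NE
  rw [h.W.ue_zero (i := i) (C := C) (by omega) hu, card_empty]
  push_cast
  omega

lemma NE0_sq (hu : (uc (x 0)).card = 2) : 1 ≤ 2 * (NE i C x 0 + 1) ^ 2 - (NE i C x 0 + 1) := by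
  have := h.NE0_nonneg hu
  nlinarith

/-- THE BOUNDS, at least five sites; `d` is the number of the private children of the double over
`x 2, x 3` -/
theorem Ow_ge4 (hm4 : 4 ≤ m) (hu : (uc (x 0)).card = 2) (hl : -1 ≤ NE i C x (m - 1)) {n : ℤ}
    (hn : 2 * n ≤ OCs i C w v) :
    ((DE i C x 2).card = 0 ∧ 4 * n ≤ Ow i C) ∨ ((DE i C x 2).card = 1 ∧ 4 * n - 3 ≤ Ow i C) ∨
      ((DE i C x 2).card = 2 ∧ 4 * n - 10 ≤ Ow i C) := by
  have hU2 := h.W.ue_inner (k := 2) (by omega) (by omega)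
  have h3 := h.TUs_le hm4
  have h5 := h.NE0_sq hu
  have hpos : ∀ k, 3 ≤ k → k + 1 < m → 0 ≤ NE i C x k := fun k hk hk' =>
    h.NE_nonneg (by omega) (by omega)
  have q1 := RS_nonneg (NE i C x) (t := m) (m - 3) 3 (by omega) hpos (fun _ => hl)
  have q2 := RS_sub (NE i C x) (s := 3) (t := m) (by omega) hpos hl
  have q3 := RS_add (NE i C x) (s := 3) (t := m) (by omega) hpos hl
  have e2 : NE i C x 2 = ((DE i C x 2).card : ℤ) := by
    unfold NE
    rw [hU2, card_empty]
    push_cast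
    ring
  rw [h.Ow_form4 hm4 hu, h.Zs_eq hm4, e2]
  have t1 : ((TUs i C x).card : ℤ) ≤ 1 := by exact_mod_cast h3
  have t2 : (0 : ℤ) ≤ ((TLs i C x).card : ℤ) := by positivity
  rcases h.CH2_num with ⟨d, c⟩ | ⟨d, c⟩ | ⟨d, c⟩
  · refine Or.inl ⟨d, ?_⟩
    rw [d]
    push_cast
    linarith
  · refine Or.inr (Or.inl ⟨d, ?_⟩)
    rw [d]
    push_cast
    linarith
  · refine Or.inr (Or.inr ⟨d, ?_⟩)
    rw [d]
    push_cast
    linarith

/-- four sites, no pendant below `x 2`, no upper pendant over the last pair -/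
theorem Ow_ge3 (hm3 : m = 3) (hu : (uc (x 0)).card = 2) (hU : UE i C x 2 = ∅)
    (hp : pen (x 2) = ∅) (h3 : (uc (x 3)).card + (pen (x 3)).card ≤ 3) {n : ℤ}
    (hn : n ≤ ((Z4 i C).card : ℤ) - (T4 i C).card) :
    ((DE i C x 2).card = 0 ∧ 11 + 4 * n ≤ Ow i C) ∨ ((DE i C x 2).card = 1 ∧ 1 + 4 * n ≤ Ow i C) ∨
      ((DE i C x 2).card = 2 ∧ -5 + 4 * n ≤ Ow i C) := by
  have h5 := h.NE0_sq hu
  have e2 : NE i C x 2 = ((DE i C x 2).card : ℤ) := by
    unfold NE
    rw [hU, card_empty]
    push_cast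
    ring
  rw [h.Ow_form3 hm3 hu, e2, hp, card_empty]
  have hsq : ((uc (x 3)).card : ℤ) + (pen (x 3)).card ≤ 3 := by exact_mod_cast h3
  rcases h.CH2_num with ⟨d, c⟩ | ⟨d, c⟩ | ⟨d, c⟩
  · refine Or.inl ⟨d, ?_⟩
    rw [d]
    push_cast
    linarith
  · refine Or.inr (Or.inl ⟨d, ?_⟩)
    rw [d]
    push_cast
    linarith
  · refine Or.inr (Or.inr ⟨d, ?_⟩)
    rw [d]
    push_cast
    linarith

end DLg

end Pool.Agent.GaussPoset.Win.W4

end
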