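import Mathlib
import Pool.Agent.W_448zz_h61.Ns
import Pool.Agent.W_448zz_h61.M181
import Pool.Agent.W_448zz_h61.M183
import Pool.Agent.W_448zz_h61.M227
import Pool.Agent.W_448zz_h61.M228

/-! From `Pool.Agent.W_448j6_h22.KaF` -/

section

/-!
Level 6, window 3: rectangle-like components, the costs (MP_448cb3_co, `j = 6`).
-/

namespace Pool.Agent.GaussPoset.J6

set_option linter.unusedSectionVars false

open Polynomial Finset Dd J8

universe u

variable {P : Type u} [Fintype P] [PartialOrder P] [DecidableEq P] {r : ℕ}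
variable {t : Tops P} {lo hi : ℕ → ℕ} {e : ℕ → ℕ → P}

/-- the cost grows with the label -/
lemma cK_le {k k' : ℕ} (h : k ≤ k') (z : P) : cK k z ≤ cK k' z := by
  unfold cK
  have h1 := Nat.mul_le_mul_right (nab 4 z) (show min k 1 ≤ min k' 1 by omega)
  have h2 := Nat.mul_le_mul_right (nab 5 z) (show min k 2 ≤ min k' 2 by omega)
  have h3 := Nat.mul_le_mul_right (nab 6 z) (show min k 3 ≤ min k' 3 by omega)
  have h4 := Nat.mul_le_mul_right (nab 7 z) (show min k 4 ≤ min k' 4 by omega)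
  omega

/-- lower bounds for the cost -/
lemma cK_ge {k : ℕ} {z : P} {a b c : ℕ} (hl : lev z = 7) (h4 : a ≤ nab 4 z) (h5 : b ≤ nab 5 z)
    (h6 : c ≤ nab 6 z) : min k 1 * a + min k 2 * b + min k 3 * c + min k 4 ≤ cK k z := by
  have h7 : nab 7 z = 1 := by
    have := nab_self (z := z)
    rwa [hl] at this
  unfold cK
  have g4 := Nat.mul_le_mul_left (min k 1) h4
  have g5 := Nat.mul_le_mul_left (min k 2) h5
  have g6 := Nat.mul_le_mul_left (min k 3) h6
  rw [h7]
  omega

/-- an element of level 7 has an element of each level above it -/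
lemma one7 {z : P} (hl : lev z = 7) : 1 ≤ nab 4 z ∧ 1 ≤ nab 5 z ∧ 1 ≤ nab 6 z :=
  ⟨one_le_nab (by omega), one_le_nab (by omega), one_le_nab (by omega)⟩

section

variable {b : ℕ} {Nc : Finset P} {co : P → ℕ × ℕ}

/-- thresholds on the level 6 -/
lemma thR6 {x : P} (hl : lev x = 6) : thR 3 b Nc co x = 3 ∨
    thR 3 b Nc co x = ((co x).1 - (b - 1)) + ((co x).2 - 3) := by
  unfold thR
  split_ifs with hj
  · left; omega
  · right; rfl

/-- above an element which is not below the cell `(3, 3)` -/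
lemma rect_extra6 (C : Chart (t : P) (fun _ => True) Nc co) {x x' : P} (hx : x ∈ Nc)
    (hx' : x' ∈ Nc) (hcx : co x = (3, 3)) (hlx' : lev x' = 6) (hne : x ≠ x') {l : ℕ}
    (h4 : 4 ≤ l) (h6 : l ≤ 6) : ∃ u, x' ≤ u ∧ lev u = l ∧ ¬ x ≤ u := by
  have hl := C.lev x' hx'
  have hne' : co x' ≠ (3, 3) := fun h => hne (C.inj x hx x' hx' (by rw [hcx, h]))
  have key : 4 ≤ (co x').1 ∨ 4 ≤ (co x').2 := by
    by_contra hcon
    push Not at hcon
    exact hne' (Prod.ext (by simp only; omega) (by simp only; omega))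
  rcases key with hk | hk
  · obtain ⟨u, hu, hcu⟩ := C.low x' hx' (min l (co x').1, l - min l (co x').1)
      ⟨by simp only; omega, by simp only; omega⟩ trivial
    refine ⟨u, ?_, ?_, ?_⟩
    · rw [C.le_iff x' hx' u hu, hcu]
      exact ⟨by simp only; omega, by simp only; omega⟩
    · rw [C.lev u hu, hcu]
      simp only
      omega
    · rw [C.le_iff x hx u hu, hcu, hcx]
      rintro ⟨h1, -⟩
      simp only at h1
      omega
  · obtain ⟨u, hu, hcu⟩ := C.low x' hx' (l - min l (co x').2, min l (co x').2)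
      ⟨by simp only; omega, by simp only; omega⟩ trivial
    refine ⟨u, ?_, ?_, ?_⟩
    · rw [C.le_iff x' hx' u hu, hcu]
      exact ⟨by simp only; omega, by simp only; omega⟩
    · rw [C.lev u hu, hcu]
      simp only
      omega
    · rw [C.le_iff x hx u hu, hcu, hcx]
      rintro ⟨-, h1⟩
      simp only at h1
      omega

/-- two different elements below the cell `(3, 3)` and another one -/
lemma rect_three (C : Chart (t : P) (fun _ => True) Nc co) {x y z : P} (hx : x ∈ Nc)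
    (hy : y ∈ Nc) (hcx : co x = (3, 3)) (hly : lev y = 6) (hne : x ≠ y) (hzx : z ⋖ x)
    (hzy : z ⋖ y) : 4 ≤ nab 4 z ∧ 3 ≤ nab 5 z ∧ 2 ≤ nab 6 z := by
  have key : ∀ l, 4 ≤ l → l ≤ 6 → nab l x + 1 ≤ nab l z := by
    intro l h4 h6
    obtain ⟨u, hu1, hu2, hu3⟩ := rect_extra6 C hx hy hcx hly hne h4 h6
    exact nab_extra hzx.1.le (hzy.1.le.trans hu1) hu2 hu3
  have c : ∀ l, 4 ≤ l → l ≤ 6 → nab l x + (l - 3) = min l 3 + 1 := by
    intro l h4 h6
    rw [nab_chart C hx l]
    have := card_cellsAt_true (l := l) (p := co x) (by rw [hcx]; simp only; omega)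
    rw [hcx] at this
    rw [hcx]
    exact this
  have k4 := key 4 le_rfl (by norm_num)
  have k5 := key 5 (by norm_num) (by norm_num)
  have k6 := key 6 (by norm_num) le_rfl
  have c4 := c 4 le_rfl (by norm_num)
  have c5 := c 5 (by norm_num) (by norm_num)
  have c6 := c 6 (by norm_num) le_rfl
  norm_num at c4 c5 c6
  omega

/-- a pendant of a rectangle-like component is below an end -/
lemma rect_pend (h : Wd.NJ P r 6) (C : Cp.Comp 6 (t : P) lo hi e) (S : RectShape 6 lo hi)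
    (R : RectNat 6 3 t b Nc co) {z x : P} (hx : x ≤ (t : P)) (hl : lev x = 6) (hp : Pend z x) :
    co x = (0, 6) ∨ co x = (6, 0) := by
  have hxN : x ∈ Nc := R.strip (mem_lowPart.mpr ⟨hx, hl.le⟩)
  have hlc := R.chart.lev x hxN
  by_cases h1 : 1 ≤ (co x).1 ∧ 1 ≤ (co x).2
  · exact (rectShape_no_pendant (i := 5) h.g (by norm_num) t.2 C S hl hx
      (chart_inner_uc R.chart h.g.H hxN h1.1 h1.2) hp.1 hp.2).elim
  · rcases Nat.eq_zero_or_pos (co x).1 with h2 | h2
    · exact Or.inl (Prod.ext h2 (by simp only; omega))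
    · have h3 : (co x).2 = 0 := by
        by_contra h4
        exact h1 ⟨h2, by omega⟩
      exact Or.inr (Prod.ext (by simp only; omega) h3)

/-- **the costs of a rectangle-like component.** -/
theorem rect_c7 (h : Wd.NJ P r 6) (C : Cp.Comp 6 (t : P) lo hi e) (S : RectShape 6 lo hi)
    (R : RectNat 6 3 t b Nc co) {z : P} (hz : z ≤ (t : P)) (hl : lev z = 7) {k : ℕ}
    (hk : ∃ x, z ⋖ x ∧ k = thR 3 b Nc co x + 1) :
    13 ≤ cK k z ∨ ((∃ x, Pend z x) ∧ 10 ≤ cK k z) ∨
      ((∃ F ∈ Nc, co F = (3, 3) ∧ z ⋖ F) ∧ 10 ≤ cK k z) := by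
  classical
  obtain ⟨x, hzx, rfl⟩ := hk
  obtain ⟨hxt, hxl, -⟩ := cov7 h C hz hl hzx
  have hxN : x ∈ Nc := R.strip (mem_lowPart.mpr ⟨hxt, hxl.le⟩)
  have hlc := R.chart.lev x hxN
  have hb := R.b_le
  have hb2 := R.b_two
  obtain ⟨o4, o5, o6⟩ := one7 hl
  by_cases hp : ∀ y, z ⋖ y → y = x
  · right; left
    refine ⟨⟨x, hzx, hp⟩, ?_⟩
    have h3 : 3 ≤ thR 3 b Nc co x := by
      have h4 := thR6 (b := b) (Nc := Nc) (co := co) hxl
      rcases rect_pend h C S R hxt hxl ⟨hzx, hp⟩ with h5 | h5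
      · rw [h5] at h4
        simp only at h4
        omega
      · rw [h5] at h4
        simp only at h4
        omega
    have h5 := cK_ge (k := 4) hl o4 o5 o6
    have h6 := cK_le (k := 4) (k' := thR 3 b Nc co x + 1) (by omega) z
    norm_num at h5
    omega
  push Not at hp
  obtain ⟨y, hzy, hyx⟩ := hp
  obtain ⟨hyt, hyl, -⟩ := cov7 h C hz hl hzy
  have hyN : y ∈ Nc := R.strip (mem_lowPart.mpr ⟨hyt, hyl.le⟩)
  have n6 : 2 ≤ nab 6 z := two_le_nab hzx.1.le hzy.1.le hxl hyl (Ne.symm hyx)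
  rcases Nat.lt_or_ge (thR 3 b Nc co x) 3 with h3 | h3
  swap
  · left
    have h5 := cK_ge (k := 4) hl o4 o5 n6
    have h6 := cK_le (k := 4) (k' := thR 3 b Nc co x + 1) (by omega) z
    norm_num at h5
    omega
  have h4 := (thR6 (b := b) (Nc := Nc) (co := co) hxl).resolve_left (by omega)
  have hin : 1 ≤ (co x).1 ∧ 1 ≤ (co x).2 := by omega
  have g4 : nab 4 x + (4 - (co x).2) = min 4 (co x).1 + 1 := by
    rw [nab_chart R.chart hxN 4]
    exact card_cellsAt_true (by omega)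
  have g5 : nab 5 x + (5 - (co x).2) = min 5 (co x).1 + 1 := by
    rw [nab_chart R.chart hxN 5]
    exact card_cellsAt_true (by omega)
  have m4 := nab_mono (l := 4) hzx.1.le
  have m5 := nab_mono (l := 5) hzx.1.le
  have h5 : thR 3 b Nc co x = 0 ∨ thR 3 b Nc co x = 1 ∨ thR 3 b Nc co x = 2 := by omega
  rcases h5 with h5 | h5 | h5
  · -- the cell `(3, 3)`
    right; right
    have hc : co x = (3, 3) := by
      rw [h5] at h4
      exact Prod.ext (by simp only; omega) (by simp only; omega)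
    obtain ⟨q4, q5, q6⟩ := rect_three R.chart hxN hyN hc hyl (Ne.symm hyx) hzx hzy
    refine ⟨⟨x, hxN, hc, hzx⟩, ?_⟩
    have h6 := cK_ge (k := thR 3 b Nc co x + 1) hl q4 q5 q6
    rw [h5] at h6 ⊢
    norm_num at h6 ⊢
    omega
  · left
    have h6 := cK_ge (k := thR 3 b Nc co x + 1) (a := 3) (b := 2) (c := 2) hl (by omega) (by omega)
      n6
    rw [h5] at h6 ⊢
    norm_num at h6 ⊢
    omega
  · left
    have h6 := cK_ge (k := thR 3 b Nc co x + 1) (a := 2) (b := 2) (c := 2) hl (by omega) (by omega)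
      n6
    rw [h5] at h6 ⊢
    norm_num at h6 ⊢
    omega

end

/-- the data `RectNat` -/
lemma exists_R6 (h : Wd.NJ P r 6) (C : Cp.Comp 6 (t : P) lo hi e)
    (h1 : lo 1 = 0 ∧ hi 1 = 1) (S : RectShape 6 lo hi) (hlt : lo 3 < hi 3) :
    ∃ Nc co, RectNat 6 3 t (hi 3 - lo 3 + 1) Nc co ∧
      ((∀ x ∈ lowPart 6 (t : P), co x = ccoord lo hi e x) ∨
        ∀ x ∈ lowPart 6 (t : P), co x = swp (ccoord lo hi e) x) :=
  exists_rect C h.g.H h.g.good h.g.H.gradedBelow S (i := 3) (by norm_num) hlt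

end Pool.Agent.GaussPoset.J6

end

/-! From `Pool.Agent.W_448j6_h22.KaG` -/

section

/-!
Level 6, window 3: rectangle-like components, second stage (MP_448cb3_co, `j = 6`).
-/

namespace Pool.Agent.GaussPoset.J6

set_option linter.unusedSectionVars false

open Polynomial Finset Dd J8

universe u

variable {P : Type u} [Fintype P] [PartialOrder P] [DecidableEq P] {r : ℕ}
variable {t : Tops P} {lo hi : ℕ → ℕ} {e : ℕ → ℕ → P}

/-- the natural elements of level 7: the pendants and the elements below the cell `(3, 3)` -/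
noncomputable def Yr (t : Tops P) (Nc : Finset P) (co : P → ℕ × ℕ) : Finset P := by
  classical exact univ.filter (fun y => y ≤ (t : P) ∧ lev y = 7 ∧
    ((∃ x, Pend y x) ∨ ∃ F ∈ Nc, co F = (3, 3) ∧ y ⋖ F))

lemma mem_Yr {Nc : Finset P} {co : P → ℕ × ℕ} {y : P} : y ∈ Yr t Nc co ↔ y ≤ (t : P) ∧
    lev y = 7 ∧ ((∃ x, Pend y x) ∨ ∃ F ∈ Nc, co F = (3, 3) ∧ y ⋖ F) := by
  classical
  unfold Yr
  simp

/-- the thresholds -/
noncomputable def thB (b : ℕ) (Nc : Finset P) (co : P → ℕ × ℕ) (x : P) : ℕ := by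
  classical exact if lev x = 7 ∧ x ∉ natR Nc co then 1 else thR 3 b Nc co x

section

variable {b : ℕ} {Nc : Finset P} {co : P → ℕ × ℕ}

lemma thB_nat {x : P} (hx : x ∈ natR Nc co) : thB b Nc co x = thR 3 b Nc co x := by
  unfold thB
  rw [if_neg fun h => h.2 hx]

lemma thB_low {x : P} (hx : lev x ≤ 6) : thB b Nc co x = thR 3 b Nc co x := by
  unfold thB
  rw [if_neg fun h => by omega]

/-- the thresholds of the elements of level 7 -/
lemma thR7 (hb : b ≤ 4) (C : Chart (t : P) (fun _ => True) Nc co) {y : P}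
    (hy : y ∈ natR Nc co) (hl : lev y = 7) : 1 ≤ thR 3 b Nc co y := by
  unfold thR
  split_ifs with hj
  · omega
  · have hyN : y ∈ Nc := by
      rcases mem_natR.mp hy with h1 | h1 | h1
      · exact h1
      · exact absurd (Or.inl h1) hj
      · exact absurd (Or.inr h1) hj
    have := C.lev y hyN
    omega

/-- a pendant is natural, with a high threshold -/
lemma pend_nat (h : Wd.NJ P r 6) (C : Cp.Comp 6 (t : P) lo hi e) (S : RectShape 6 lo hi)
    (R : RectNat 6 3 t b Nc co) {y x : P} (hy : y ≤ (t : P)) (hl : lev y = 7) (hp : Pend y x) :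
    y ∈ natR Nc co ∧ thR 3 b Nc co y = 4 := by
  classical
  have H := h.g.H
  obtain ⟨hxt, hxl, -⟩ := cov7 h C hy hl hp.1
  have hxN : x ∈ Nc := R.strip (mem_lowPart.mpr ⟨hxt, hxl.le⟩)
  have hb := R.b_le
  have hrow := R.rows
  have key : ∀ co' : P → ℕ × ℕ, Chart (t : P) (fun _ => True) Nc co' →
      MaxChart (fun _ => True) Nc co' → co' x = (0, 6) → y ∉ junk (fun _ => True) Nc co' →
      y ∈ Nc ∧ co' y = (0, 7) := by
    intro co' C' M' hcx hJ
    by_cases hyN : y ∈ Nc
    · refine ⟨hyN, ?_⟩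
      have h1 := (chart_cov C' H hyN hxN).mp hp.1
      rw [hcx] at h1
      unfold Prd at h1
      simp only at h1
      rcases h1 with h1 | h1
      · exfalso
        obtain ⟨v, hv, hcv⟩ := C'.low y hyN (1, 5) ⟨by simp only; omega, by simp only; omega⟩
          trivial
        have h2 : y ⋖ v := by
          rw [chart_cov C' H hyN hv, hcv]
          exact Or.inr ⟨by simp only; omega, by simp only; omega⟩
        have h3 := hp.2 v h2
        rw [h3, hcx] at hcv
        exact absurd hcv (by decide)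
      · exact Prod.ext (by simp only; omega) (by simp only; omega)
    · exact (row0_pendant rowS_true C' M' H hyN hJ hxN hp.1 hp.2 (by rw [hcx]) trivial).elim
  unfold thR
  by_cases hj : y ∈ junk (fun _ => True) Nc co ∨ y ∈ junk (fun _ => True) Nc (swp co)
  · rw [if_pos hj, hl]
    exact ⟨mem_natR.mpr (Or.inr hj), rfl⟩
  · rw [if_neg hj]
    push Not at hj
    rcases rect_pend h C S R hxt hxl hp with h5 | h5
    · obtain ⟨h6, h7⟩ := key co R.chart R.max h5 hj.1
      refine ⟨mem_natR.mpr (Or.inl h6), ?_⟩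
      rw [h7]
      simp only
      omega
    · have h5' : swp co x = (0, 6) := by
        unfold swp
        rw [h5]
      obtain ⟨h6, h7⟩ := key (swp co) R.chart.swap R.max.swap h5' hj.2
      refine ⟨mem_natR.mpr (Or.inl h6), ?_⟩
      have h8 : (co y).2 = 0 ∧ (co y).1 = 7 := by
        have h9 := h7
        unfold swp at h9
        rw [Prod.mk.injEq] at h9
        exact h9
      rw [h8.1, h8.2]
      rcases hrow with h9 | h9
      · omega
      · have := h9 y h6
        omega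

/-- the second cover of an element below the cell `(3, 3)` -/
lemma rect_G (h : Wd.NJ P r 6) (C : Cp.Comp 6 (t : P) lo hi e)
    (S : RectShape 6 lo hi) (R : RectNat 6 3 t b Nc co)
    (hco : (∀ x ∈ lowPart 6 (t : P), co x = ccoord lo hi e x) ∨
        ∀ x ∈ lowPart 6 (t : P), co x = swp (ccoord lo hi e) x) {y F : P} (hy : y ≤ (t : P))
    (hl : lev y = 7) (hF : F ∈ Nc) (hcF : co F = (3, 3)) (hyF : y ⋖ F) :
    ∃ G ∈ Nc, y ⋖ G ∧ lev G = 6 ∧ F ≠ G ∧ (co G = (2, 4) ∨ co G = (4, 2)) := by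
  classical
  have H := h.g.H
  have hFt := R.chart.le_t F hF
  have hFl : lev F = 6 := by
    have := R.chart.lev F hF
    rw [hcF] at this
    exact this
  have hF2 : (Win.uc F).card = 2 :=
    chart_inner_uc R.chart H hF (by rw [hcF]; norm_num) (by rw [hcF]; norm_num)
  have hcoe : ∀ s, lo 6 ≤ s → s ≤ hi 6 → co (e 6 s) = (s, 6 - s) ∨ co (e 6 s) = (6 - s, s) := by
    intro s s1 s2
    have hm : e 6 s ∈ lowPart 6 (t : P) := mem_lowPart.mpr ⟨C.le_t 6 s le_rfl s1 s2,
      (C.lev_e 6 s le_rfl s1 s2).le⟩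
    have h1 : ccoord lo hi e (e 6 s) = (s, 6 - s) := by
      unfold ccoord
      rw [scoord_e C le_rfl s1 s2, C.lev_e 6 s le_rfl s1 s2]
    rcases hco with h2 | h2
    · left
      rw [h2 _ hm, h1]
    · right
      rw [h2 _ hm]
      unfold swp
      rw [h1]
  rcases own7 h C hy hl with ⟨s, s1, s2, hp⟩ | ⟨a, c, a1, a2, a3, ha, hc, -, hac⟩
  · exfalso
    have h1 : F = e 6 s := hp.2 F hyF
    exact rectShape_no_pendant (i := 5) h.g (by norm_num) t.2 C S hFl hFt hF2 hyF
      (fun v hv => by rw [hp.2 v hv, h1])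
  · have hne : e 6 a ≠ e 6 c := fun hh => by
      have := C.inj 6 a c le_rfl a1 (by omega) (by omega) a3 hh
      omega
    have hla := C.lev_e 6 a le_rfl a1 (by omega)
    have hlc := C.lev_e 6 c le_rfl (by omega) a3
    have hma : e 6 a ∈ Nc := R.strip (mem_lowPart.mpr ⟨C.le_t 6 a le_rfl a1 (by omega), hla.le⟩)
    have hmc : e 6 c ∈ Nc := R.strip (mem_lowPart.mpr ⟨C.le_t 6 c le_rfl (by omega) a3, hlc.le⟩)
    have ca := hcoe a a1 (by omega)
    have cc := hcoe c (by omega) a3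
    rcases uc_pair H ha hc hne hyF with h1 | h1
    · rw [h1] at hcF hF2
      have ha3 : a = 3 := by
        rcases ca with g | g
        · rw [g, Prod.mk.injEq] at hcF; omega
        · rw [g, Prod.mk.injEq] at hcF; omega
      rcases hac with h2 | ⟨h2, -, h3, -⟩
      · refine ⟨e 6 c, hmc, hc, hlc, by rw [h1]; exact hne, ?_⟩
        have hc4 : c = 4 := by omega
        rw [hc4] at cc ⊢
        exact cc.symm
      · rw [h2] at hF2
        omega
    · rw [h1] at hcF hF2
      have hc3 : c = 3 := by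
        rcases cc with g | g
        · rw [g, Prod.mk.injEq] at hcF; omega
        · rw [g, Prod.mk.injEq] at hcF; omega
      rcases hac with h2 | ⟨-, h2, -, h3⟩
      · refine ⟨e 6 a, hma, ha, hla, by rw [h1]; exact hne.symm, ?_⟩
        have ha2 : a = 2 := by omega
        rw [ha2] at ca ⊢
        exact ca
      · rw [h2] at hF2
        omega

/-- the costs of a twin -/
lemma twin_sum {y1 : P} (hl : lev y1 = 7) (h4 : 4 ≤ nab 4 y1) (h5 : 3 ≤ nab 5 y1)
    (h6 : 2 ≤ nab 6 y1) :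
    (13 ≤ ∑ y, (by classical exact if y1 ≤ y then lev y - 3 else 0)) ∧
    (12 ≤ ∑ y, (by classical exact if y1 < y then min (1 + 1) (lev y - 3) else 0)) := by
  classical
  have hc : ∀ k, cst 3 (fun _ => k) y1 = cK k y1 := fun k => cst7 hl
  constructor
  · have h1 : cst 3 (fun _ => 4) y1 ≤ ∑ y, (if y1 ≤ y then lev y - 3 else 0) := by
      unfold cst
      refine Finset.sum_le_sum fun y _ => ?_
      unfold ez
      split_ifs with h
      · exact min_le_right _ _
      · exact le_rfl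
    rw [hc] at h1
    have h2 := cK_ge (k := 4) hl h4 h5 h6
    norm_num at h2
    refine le_trans ?_ h1
    omega
  · have h1 : cst 3 (fun _ => 2) y1 ≤
        ∑ y, (if y1 < y then min (1 + 1) (lev y - 3) else 0) + 2 := by
      unfold cst
      have e1 : ∑ x, ez 3 (fun _ => 2) y1 x =
          ∑ x ∈ univ.erase y1, ez 3 (fun _ => 2) y1 x + ez 3 (fun _ => 2) y1 y1 := by
        rw [Finset.sum_erase_add _ _ (mem_univ y1)]
      have e2 : ez 3 (fun _ => 2) y1 y1 = 2 := by
        unfold ez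
        rw [if_pos le_rfl, hl]
        norm_num
      rw [e1, e2]
      refine Nat.add_le_add_right ?_ 2
      refine le_trans (Finset.sum_le_sum (g := fun y => if y1 < y then min (1 + 1) (lev y - 3)
        else 0) fun y hy => ?_) (Finset.sum_le_univ_sum_of_nonneg fun _ => Nat.zero_le _)
      unfold ez
      by_cases h : y1 ≤ y
      · rw [if_pos h, if_pos (lt_of_le_of_ne h (Ne.symm (Finset.ne_of_mem_erase hy)))]
      · rw [if_neg h]
        exact Nat.zero_le _
    rw [hc] at h1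
    have h2 := cK_ge (k := 2) hl h4 h5 h6
    norm_num at h2
    have h3 : 14 ≤ cK 2 y1 := by omega
    have h4 := h3.trans h1
    exact Nat.le_of_add_le_add_right (b := 2) h4

end

end Pool.Agent.GaussPoset.J6

end

/-! From `Pool.Agent.W_448j6_h22.KaH` -/

section

/-!
Level 6, window 3: rectangle-like components, second stage, the data (MP_448cb3_co, `j = 6`).
-/

namespace Pool.Agent.GaussPoset.J6

set_option linter.unusedSectionVars false

open Polynomial Finset Dd J8

universe u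

variable {P : Type u} [Fintype P] [PartialOrder P] [DecidableEq P] {r : ℕ}
variable {t : Tops P} {lo hi : ℕ → ℕ} {e : ℕ → ℕ → P}
variable {b : ℕ} {Nc : Finset P} {co : P → ℕ × ℕ}

/-- an element of level 7 below the cell `(3, 3)` which is not natural has a natural twin -/
lemma rect_twin (h : Wd.NJ P r 6) (C : Cp.Comp 6 (t : P) lo hi e)
    (S : RectShape 6 lo hi) (R : RectNat 6 3 t b Nc co)
    (hco : (∀ x ∈ lowPart 6 (t : P), co x = ccoord lo hi e x) ∨
        ∀ x ∈ lowPart 6 (t : P), co x = swp (ccoord lo hi e) x) {y F : P} (hy : y ≤ (t : P))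
    (hl : lev y = 7) (hF : F ∈ Nc) (hcF : co F = (3, 3)) (hyF : y ⋖ F) (hyN : y ∉ natR Nc co) :
    ∃ y1 ∈ Nc, y1 ⋖ F ∧ y1 ≠ y ∧ lev y1 = 7 ∧ (∀ v, y1 < v ↔ y < v) ∧
      thR 3 b Nc co y1 = 1 ∧ 4 ≤ nab 4 y1 ∧ 3 ≤ nab 5 y1 ∧ 2 ≤ nab 6 y1 := by
  classical
  have H := h.g.H
  have C' := R.chart
  obtain ⟨G, hG, hyG, hGl, hFG, hcG⟩ := rect_G h C S R hco hy hl hF hcF hyF
  have hyNc : y ∉ Nc := fun h' => hyN (mem_natR.mpr (Or.inl h'))
  have hb4 : b = 4 := by
    have h1 := R.b_le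
    rcases R.rows with h2 | h2
    · omega
    · have h3 := h2 F hF
      rw [hcF] at h3
      simp only at h3
      omega
  have main : ∀ y1 ∈ Nc, (co y1 = (3, 4) ∨ co y1 = (4, 3)) → y1 ⋖ F → y1 ⋖ G → y1 ≠ y →
      lev y1 = 7 ∧ (∀ v, y1 < v ↔ y < v) ∧ thR 3 b Nc co y1 = 1 ∧ 4 ≤ nab 4 y1 ∧
      3 ≤ nab 5 y1 ∧ 2 ≤ nab 6 y1 := by
    intro y1 hy1 hc1 g1 g2 g3
    have hl1 : lev y1 = 7 := by
      have h0 := C'.lev y1 hy1
      rcases hc1 with h1 | h1 <;> rw [h1] at h0 <;> exact h0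
    refine ⟨hl1, ?_, ?_, rect_three C' hF hG hcF hGl hFG g1 g2⟩
    · refine up_of_cov fun w => ?_
      constructor
      · intro hw
        rcases uc_pair H g1 g2 hFG hw with h1 | h1
        · rw [h1]; exact hyF
        · rw [h1]; exact hyG
      · intro hw
        rcases uc_pair H hyF hyG hFG hw with h1 | h1
        · rw [h1]; exact g1
        · rw [h1]; exact g2
    · unfold thR
      have hj1 : y1 ∉ junk (fun _ => True) Nc co := not_junk C' hy1 (by
        rcases hc1 with h1 | h1 <;> rw [h1] <;> norm_num)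
      have hj2 : y1 ∉ junk (fun _ => True) Nc (swp co) := not_junk C'.swap hy1 (by
        rw [swp_fst]
        rcases hc1 with h1 | h1 <;> rw [h1] <;> norm_num)
      rw [if_neg (by rw [not_or]; exact ⟨hj1, hj2⟩), hb4]
      rcases hc1 with h1 | h1 <;> (rw [h1]; norm_num)
  rcases hcG with hcG | hcG
  · obtain ⟨y1, hy1, hc1, g1, g2, g3⟩ := max_pair C' R.max H hyNc hF hG hyF hyG
      (s := 2) (c := 3) hcF hcG trivial
    obtain ⟨m1, m2, m3, m4⟩ := main y1 hy1 (Or.inl hc1) g1 g2 g3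
    exact ⟨y1, hy1, g1, g3, m1, m2, m3, m4⟩
  · obtain ⟨y1, hy1, hc1, g1, g2, g3⟩ := max_pair C' R.max H hyNc hG hF hyG hyF
      (s := 3) (c := 2) hcG hcF trivial
    obtain ⟨m1, m2, m3, m4⟩ := main y1 hy1 (Or.inr hc1) g2 g1 g3
    exact ⟨y1, hy1, g2, g3, m1, m2, m3, m4⟩

/-- **The data, second stage.** -/
theorem rect_dataB (h : Wd.NJ P r 6) (C : Cp.Comp 6 (t : P) lo hi e)
    (S : RectShape 6 lo hi) (R : RectNat 6 3 t b Nc co)
    (hco : (∀ x ∈ lowPart 6 (t : P), co x = ccoord lo hi e x) ∨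
        ∀ x ∈ lowPart 6 (t : P), co x = swp (ccoord lo hi e) x) {N : Tops P → Finset P}
    (HN : NatSys N) (hlow : ∀ s : Tops P, lowPart 6 (s : P) ⊆ N s)
    (hN : N t = lowPart 6 (t : P) ∪ Yr t Nc co) {θ' : P → ℕ} {B' : P → Prop}
    (hθ : ∀ x ∈ N t, θ' x = thB b Nc co x)
    (hB : ∀ x ∈ N t, (B' x ↔ x ∈ Nc ∧ co x = (b - 1, 3))) :
    CompDataL (unnat N) topOf t 3 b 13 θ' B' := by
  classical
  have H := h.g.H
  have C' := R.chart
  have hR := R.natTop H.gradedBelow (by norm_num)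
  have hbase : ∀ x ∈ natR Nc co, (x ∈ Nc ∧ co x = (b - 1, 3)) → x ∈ N t := by
    rintro x - ⟨hx, hcx⟩
    rw [hN, mem_union, mem_lowPart]
    refine Or.inl ⟨C'.le_t x hx, ?_⟩
    rw [C'.lev x hx, hcx]
    have := R.b_le
    simp only
    omega
  have hN' : ∀ x, x ∈ N t ↔ x ∈ lowPart 6 (t : P) ∨ x ∈ Yr t Nc co := by
    intro x
    rw [hN, mem_union]
  have hlN : ∀ x ∈ lowPart 6 (t : P), x ∈ natR Nc co := fun x hx =>
    mem_natR.mpr (Or.inl (R.strip hx))
  by_cases hsub : ∀ y ∈ Yr t Nc co, y ∈ natR Nc co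
  · -- no additional element
    have hsub' : ∀ x ∈ N t, x ∈ natR Nc co := by
      intro x hx
      rcases (hN' x).mp hx with h1 | h1
      · exact hlN x h1
      · exact hsub x h1
    refine compL_nat HN hR hsub' hbase ?_ hB 13
    intro x hx
    rw [hθ x hx, thB_nat (hsub' x hx)]
  · -- one additional twin
    push Not at hsub
    obtain ⟨y2, hy2, hy2N⟩ := hsub
    obtain ⟨hy2t, hy2l, hy2c⟩ := mem_Yr.mp hy2
    rcases hy2c with ⟨x, hp⟩ | ⟨F, hF, hcF, hyF⟩
    · exact absurd (pend_nat h C S R hy2t hy2l hp).1 hy2N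
    obtain ⟨y1, hy1, g1, g2, g3, g4, g5, g6, g7, g8⟩ :=
      rect_twin h C S R hco hy2t hy2l hF hcF hyF hy2N
    have hy1R : y1 ∈ natR Nc co := mem_natR.mpr (Or.inl hy1)
    have hY1 : y1 ∈ Yr t Nc co := mem_Yr.mpr ⟨C'.le_t y1 hy1, g3, Or.inr ⟨F, hF, hcF, g1⟩⟩
    have hY2 : ∀ y ∈ Yr t Nc co, y ∈ natR Nc co ∨ y = y2 := by
      intro y hy
      obtain ⟨hyt, hyl, hyc⟩ := mem_Yr.mp hy
      rcases hyc with ⟨x, hp⟩ | ⟨F', hF', hcF', hyF'⟩
      · exact Or.inl (pend_nat h C S R hyt hyl hp).1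
      · have hFF : F' = F := C'.inj F' hF' F hF (by rw [hcF', hcF])
        rw [hFF] at hyF'
        by_contra hcon
        push Not at hcon
        exact Win.dc_three H hyF' g1 hyF (fun h' => hcon.1 (by rw [h']; exact hy1R)) hcon.2 g2
    refine compL_twin (y1 := y1) (y2 := y2) HN (by norm_num) hlow hR ?_ ?_ hbase ?_ ?_
      hy1R hy2N ?_ ?_ ?_ ?_ ?_ ?_
    · intro x hx
      rcases (hN' x).mp hx with h1 | h1
      · exact Or.inl (hlN x h1)
      · exact hY2 x h1
    · intro x hx hl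
      exact hlN x (mem_lowPart.mpr ⟨hx, hl⟩)
    · exact (hN' y1).mpr (Or.inr hY1)
    · exact (hN' y2).mpr (Or.inr hy2)
    · intro x hx hne
      rw [hθ x hx]
      rcases (hN' x).mp hx with h1 | h1
      · exact thB_low (mem_lowPart.mp h1).2
      · exact thB_nat ((hY2 x h1).resolve_right hne)
    · rw [hθ y2 ((hN' y2).mpr (Or.inr hy2))]
      unfold thB
      rw [if_pos ⟨hy2l, hy2N⟩]
    · intro x hx _
      exact hB x hx
    · intro h'
      have h1 := ((hB y2 ((hN' y2).mpr (Or.inr hy2))).mp h').1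
      exact hy2N (mem_natR.mpr (Or.inl h1))
    · have hts := twin_sum g3 g6 g7 g8
      refine ⟨g2, g4, ?_, ?_, ?_, ?_, ?_⟩
      · simp only [if_neg g2, g5]
        norm_num
      · simp only [if_neg g2, g5, if_true]
      · simp only [if_neg g2, g5, g3]
        norm_num
      · simp only [if_neg g2, g5]
        have := hts.1
        omega
      · simp only [if_neg g2, g5]
        have := hts.2
        omega
    · omega

/-- rectangle-like components, second stage -/
theorem tdRectB (h : Wd.NJ P r 6) (C : Cp.Comp 6 (t : P) lo hi e)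
    (h1 : lo 1 = 0 ∧ hi 1 = 1) (S : RectShape 6 lo hi) (hlt : lo 3 < hi 3) (G : ℕ → P → Prop) :
    ∃ Y θ B, TD6 t (hi 3 - lo 3 + 1) 13 13 Y θ B G := by
  classical
  obtain ⟨Nc, co, R, hco⟩ := exists_R6 h C h1 S hlt
  have H := h.g.H
  refine ⟨Yr t Nc co, thB (hi 3 - lo 3 + 1) Nc co,
    fun x => x ∈ Nc ∧ co x = (hi 3 - lo 3 + 1 - 1, 3), ?_⟩
  constructor
  · omega
  · exact fun y hy => (mem_Yr.mp hy).2.1
  · exact fun y hy => (mem_Yr.mp hy).1
  · intro z hz hl hzY k hk _
    left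
    obtain ⟨x, hzx, hkx⟩ := hk
    obtain ⟨hxt, hxl, -⟩ := cov7 h C hz hl hzx
    rw [thB_low hxl.le] at hkx
    rcases rect_c7 h C S R hz hl ⟨x, hzx, hkx⟩ with h2 | ⟨h2, -⟩ | ⟨h2, -⟩
    · exact h2
    · exact absurd (mem_Yr.mpr ⟨hz, hl, Or.inl h2⟩) hzY
    · exact absurd (mem_Yr.mpr ⟨hz, hl, Or.inr h2⟩) hzY
  · intro y hy
    obtain ⟨hyt, hyl, hyc⟩ := mem_Yr.mp hy
    obtain ⟨o4, o5, o6⟩ := one7 hyl
    rcases hyc with ⟨x, hp⟩ | ⟨F, hF, hcF, hyF⟩
    · obtain ⟨h2, h3⟩ := pend_nat h C S R hyt hyl hp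
      rw [thB_nat h2, h3]
      have h4 := cK_ge (k := 4 + 1) hyl o4 o5 o6
      norm_num at h4 ⊢
      omega
    · obtain ⟨G', hG, hyG, hGl, hFG, -⟩ := rect_G h C S R hco hyt hyl hF hcF hyF
      obtain ⟨q4, q5, q6⟩ := rect_three R.chart hF hG hcF hGl hFG hyF hyG
      have hone : 1 ≤ thB (hi 3 - lo 3 + 1) Nc co y := by
        by_cases hyN : y ∈ natR Nc co
        · rw [thB_nat hyN]
          exact thR7 (by have := R.b_le; omega) R.chart hyN hyl
        · unfold thB
          rw [if_pos ⟨hyl, hyN⟩]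
      have h4 := cK_ge (k := 2) hyl q4 q5 q6
      have h5 := cK_le (k := 2) (k' := thB (hi 3 - lo 3 + 1) Nc co y + 1) (by omega) y
      norm_num at h4
      have h6 : 2 ≤ min (thB (hi 3 - lo 3 + 1) Nc co y + 1) 5 := by omega
      omega
  · intro N HN hlow hN θ' B' hθ hB
    exact rect_dataB h C S R hco HN hlow hN hθ hB

end Pool.Agent.GaussPoset.J6

end

/-! From `Pool.Agent.W_448sd_h84.SdH` -/

section

/-!
# Window 2: the ladder below the energy of the cheapest twins (MP_448cb3_co)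
-/

namespace Pool.Agent.GaussPoset

set_option linter.unusedSectionVars false

open Polynomial Finset

universe u

variable {P : Type u} [Fintype P] [PartialOrder P] [DecidableEq P] {r j : ℕ}
  {N : Tops P → Finset P} {b : Tops P → ℕ} {θ : Tops P → P → ℕ}

/-- one sign, drop one: nothing -/
theorem W2.kill (W : W2 r j N b θ) {e s : ℕ} (he : e < j * (j - 1) - 1)
    (hge : ∀ z ∈ bdR (r2 j N), e ≤ cst 2 (h2 j N θ) z)
    (hT : ∀ z ∈ bdR (r2 j N), cst 2 (h2 j N θ) z = e → nab 2 z = 2 ∧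
      nab (2 + h2 j N θ z) z = 1 ∧ nst 2 (h2 j N θ) z = s) {z : P} (hz : z ∈ bdR (r2 j N))
    (hc : cst 2 (h2 j N θ) z = e) : False := by
  classical
  have hd := W.farT.dvd_lead (n := e) he hge
  have hZ := dvd_Z W.gt.H.gauss 2 e
  set T := (bdR (r2 j N)).filter (fun z => cst 2 (h2 j N θ) z = e) with hTdef
  have hTe : ∀ y ∈ T, nab 2 y = 2 ∧ nab (2 + h2 j N θ y) y = 1 ∧ nst 2 (h2 j N θ) y = s := by
    intro y hy
    rw [hTdef, mem_filter] at hy
    exact hT y hy.1 hy.2
  have hzT : z ∈ T := by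
    rw [hTdef, mem_filter]
    exact ⟨hz, hc⟩
  have hcard : 2 ≤ (lv P 2).card := by
    have h3 := (hTe z hzT).1
    have h4 := nab_le z 2
    omega
  have hs := sign_sum_of_dvd T hZ hd (c0 := (lv P 2).card - 1) (by omega) (by
    intro y hy
    obtain ⟨h3, h4, -⟩ := hTe y hy
    rw [h3, h4]
    omega)
  have hTf : T.filter (fun y => (lv P 2).card - 1 + nab 2 y =
      (lv P 2).card + nab (2 + h2 j N θ y) y) = T := by
    refine Finset.filter_true_of_mem fun y hy => ?_
    obtain ⟨h3, h4, -⟩ := hTe y hy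
    rw [h3, h4]
    omega
  rw [hTf, Finset.sum_congr rfl (g := fun _ => (-1 : ℤ) ^ s) (fun y hy => by
    rw [(hTe y hy).2.2])] at hs
  rw [Finset.sum_const, nsmul_eq_mul] at hs
  rcases mul_eq_zero.mp hs with h | h
  · have h' : T.card = 0 := by exact_mod_cast h
    rw [Finset.card_eq_zero] at h'
    rw [h'] at hzT
    exact absurd hzT (Finset.notMem_empty z)
  · exact absurd h (pow_ne_zero _ (by norm_num))

/-- the number of elements above the fold end -/
def nF2 (m k : ℕ) : ℕ := min (k / 2) m + 1 - (k - m)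

/-- labels and numbers of elements above for pendants of the fold end -/
lemma W2.pen_data (W : W2 r j N b θ) {z x : P} (hz : z ∈ r2 j N) (hl : lev z = j + 1)
    (hP : Pend z x) {Nc : Finset P} {co : P → ℕ × ℕ} {m : ℕ} (h : InS2sd j N θ x Nc co)
    (hcx : co x = (m, m)) (hjm : j = 2 * m) :
    h2 j N θ z = j - 3 ∧ (∀ k, k ≤ j → nab k z = nF2 m k) ∧
      cst 2 (h2 j N θ) z = ct 2 (j - 3) x + (j - 3) := by
  have hm := W.six
  have hlx : lev x = j := by
    have := (W.gt.H.covBy_iff.mp hP.1).2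
    omega
  have hth := h.th
  rw [hcx] at hth
  simp only at hth
  have h1 : h2 j N θ z = j - 3 := by
    rw [W.h2_eq hz hl hP.1 (fun y hy => by rw [hP.2 y hy])]
    omega
  have h2' : ∀ k, k ≤ j → nab k z = nF2 m k := by
    intro k hk
    rw [nab_pend hP (l := k) (by omega)]
    have h3 := stair_nab h.stair.chart h.mem (k := k) (by omega)
    rw [hcx] at h3
    simp only at h3
    unfold nF2
    omega
  refine ⟨h1, h2', ?_⟩
  rw [cst_eq, h1, hl, Finset.sum_range_succ, ← hl, nab_self, hl, mul_one,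
    Nat.min_eq_left (by omega)]
  congr 1
  unfold ct
  rw [cst_eq, hlx]
  refine Finset.sum_congr rfl fun k hk => ?_
  rw [mem_range] at hk
  rw [nab_pend hP (l := k) (by omega)]

/-- the label of an element below both ends of a stair -/
lemma W2.cc_lab (W : W2 r j N b θ) {z x x' : P} (hz : z ∈ r2 j N) (hl : lev z = j + 1)
    {Nc : Finset P} {co : P → ℕ × ℕ} {m : ℕ} (h : InS2sd j N θ x Nc co)
    (hcx : co x = (m, m)) (hjm : j = 2 * m) (hx' : x' ∈ Nc) (hcx' : co x' = (0, 2 * m))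
    (hzx : z ⋖ x) (hzx' : z ⋖ x') : h2 j N θ z = j - 3 := by
  have hm := W.six
  have H := W.gt.H
  have hne : x ≠ x' := by
    rintro rfl
    rw [hcx] at hcx'
    simp only [Prod.mk.injEq] at hcx'
    omega
  have hth := h.th
  rw [hcx] at hth
  simp only at hth
  have hlx' : lev x' = j := by
    have := (H.covBy_iff.mp hzx').2
    omega
  have hnb : nab 2 x' = 1 := by
    have h3 := stair_nab h.stair.chart hx' (k := 2) (by omega)
    rw [hcx'] at h3
    simp only at h3
    omega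
  have hth' : θ (topOf x') x' = j - 2 := by
    rcases W.cases (W.low hlx'.le) with h5 | ⟨Nc', co', h5⟩ | ⟨Nc', co', h5⟩
    · rw [h5.th, hlx']
    · exfalso
      have h6 := rect_nab h5.rect.chart h5.mem (k := 2) (by omega)
      have h7 := h5.rect.chart.lev _ h5.mem
      have h8 := h5.fst
      have h9 := h5.snd
      omega
    · exfalso
      have h6 := stair_nab h5.stair.chart h5.mem (k := 2) (by omega)
      have h7 := h5.stair.chart.lev _ h5.mem
      have h8 := h5.fst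
      have h9 : (co' x').1 ≤ (co' x').2 := h5.stair.chart.mem _ h5.mem
      omega
  rw [W.h2_eq hz hl hzx (fun y hy => by
    rcases uc_pair H hzx hzx' hne hy with e | e
    · rw [e]
    · rw [e, hth']
      omega)]
  omega

/-- the cost of an element below both ends of a stair -/
lemma W2.cc_cost (W : W2 r j N b θ) {z x x' : P} (hz : z ∈ r2 j N) (hl : lev z = j + 1)
    {Nc : Finset P} {co : P → ℕ × ℕ} {m : ℕ} (h : InS2sd j N θ x Nc co)
    (hcx : co x = (m, m)) (hjm : j = 2 * m) (hx' : x' ∈ Nc) (hcx' : co x' = (0, 2 * m))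
    (hzx : z ⋖ x) (hzx' : z ⋖ x') (h5 : 5 ≤ m) : j * (j - 1) ≤ cst 2 (h2 j N θ) z := by
  classical
  have hlab := W.cc_lab hz hl h hcx hjm hx' hcx' hzx hzx'
  have C := h.stair.chart
  -- numbers of elements above
  have hn1 : ∀ k, k ≤ 2 * m → nF2 m k ≤ nab k z := by
    intro k hk
    have h3 := stair_nab C h.mem (k := k) (by rw [C.lev x h.mem, hcx]; simp only; omega)
    rw [hcx] at h3
    simp only at h3
    have h4 := nab_mono (l := k) hzx.le
    unfold nF2
    omega
  have hn2 : ∀ k, m < k → k ≤ 2 * m → nF2 m k + 1 ≤ nab k z := by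
    intro k hk1 hk2
    obtain ⟨y, hy, hcy⟩ := C.low x' hx' (0, k) (by rw [hcx']; exact ⟨le_rfl, hk2⟩)
      (Nat.zero_le _)
    have hly : lev y = k := by
      rw [C.lev y hy, hcy]
      simp only
      omega
    have hx'y : x' ≤ y := by
      rw [C.le_iff x' hx' y hy, hcx', hcy]
      exact ⟨le_rfl, hk2⟩
    have hnxy : ¬ x ≤ y := by
      rw [C.le_iff x h.mem y hy, hcx, hcy]
      rintro ⟨-, h7⟩
      simp only at h7
      omega
    have h3 := stair_nab C h.mem (k := k) (by rw [C.lev x h.mem, hcx]; simp only; omega)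
    rw [hcx] at h3
    simp only at h3
    have h4 : nab k x + 1 ≤ nab k z := by
      unfold nab
      have hsub : insert y ((lv P k).filter (fun w => x ≤ w)) ⊆
          (lv P k).filter (fun w => z ≤ w) := by
        intro w hw
        rw [mem_insert] at hw
        rcases hw with rfl | hw
        · rw [mem_filter, mem_lv]
          exact ⟨hly, hzx'.le.trans hx'y⟩
        · rw [mem_filter] at hw ⊢
          exact ⟨hw.1, hzx.le.trans hw.2⟩
      have h5 := Finset.card_le_card hsub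
      rw [Finset.card_insert_of_notMem (by
        rw [mem_filter]
        exact fun h => hnxy h.2)] at h5
      exact h5
    unfold nF2
    omega
  obtain ⟨a, ha⟩ : ∃ a, j = a + 3 := ⟨j - 3, by omega⟩
  have hF : ∀ n, 1 ≤ n → n < a + 2 →
      1 + ind 1 (a + 2) n + ind 2 a n + ind 4 (a - 2) n ≤ nab (2 + n) z := by
    intro n hn3 hn4
    have h3 := hn1 (2 + n) (by omega)
    by_cases hk : m < 2 + n
    · have h4 := hn2 (2 + n) hk (by omega)
      unfold nF2 at h4
      unfold ind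
      split_ifs <;> omega
    · unfold nF2 at h3
      unfold ind
      split_ifs <;> omega
  have h6 := cst_ge_shift' (h := h2 j N θ) (fun n => 1 + ind 1 (a + 2) n + ind 2 a n +
    ind 4 (a - 2) n) (by omega : lev z = 2 + (a + 2)) (by omega) hF
  rw [sum_split4] at h6
  obtain ⟨c, rfl⟩ : ∃ c, a = c + 7 := ⟨a - 7, by omega⟩
  have g1 := Finset.sum_range_id_mul_two (c + 7 + 1)
  have g2 : ∑ n ∈ range (c + 7 + 1), n * ind 1 (c + 7 + 1) n ≤
      ∑ n ∈ range (c + 7 + 1), n * ind 1 (c + 7 + 2) n := by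
    refine Finset.sum_le_sum fun n hn => Nat.mul_le_mul_left _ ?_
    rw [mem_range] at hn
    unfold ind
    split_ifs <;> omega
  have g2' := sum_ind (s := 1) (a := c + 7 + 1) (m := c + 7 + 1) le_rfl
  have g3 := sum_ind (s := 2) (a := c + 7) (m := c + 7 + 1) (by omega)
  have g4 := sum_ind (s := 4) (a := c + 7 - 2) (m := c + 7 + 1) (by omega)
  have g5 : 2 ≤ 1 + ind 1 (c + 7 + 2) (c + 7 + 1) + ind 2 (c + 7) (c + 7 + 1) +
      ind 4 (c + 7 - 2) (c + 7 + 1) := by
    unfold ind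
    split_ifs <;> omega
  have g6 := Nat.mul_le_mul_left (c + 7) g5
  rw [show c + 7 - 2 = c + 5 by omega] at g4 h6
  rw [show c + 7 + 1 - 1 = c + 7 by omega] at g1 g2'
  rw [show c + 7 - 1 = c + 6 by omega] at g3
  rw [show c + 5 - 1 = c + 4 by omega] at g4
  rw [show c + 7 - 2 = c + 5 by omega] at g6
  simp only [mul_one, Nat.sub_self, mul_zero, add_zero] at h6 g1 g2'
  have e1 : (c + 7 + 1) * (c + 7) = c * c + 15 * c + 56 := by ring
  have e2 : (c + 7) * (c + 6) = c * c + 13 * c + 42 := by ring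
  have e3 : (c + 5) * (c + 4) = c * c + 9 * c + 20 := by ring
  have e4 : j * (j - 1) = c * c + 19 * c + 90 := by
    rw [ha, show c + 7 + 3 - 1 = c + 9 by omega]
    ring
  rw [e1] at g1 g2'
  rw [e2] at g3
  rw [e3] at g4
  rw [e4]
  norm_num at g3 g4
  omega

end Pool.Agent.GaussPoset

end

/-! From `Pool.Agent.W_448sd_h84.SdI` -/

section

/-!
# Window 2: all boundary elements are expensive; no twins of row 1 (MP_448cb3_co)
-/

namespace Pool.Agent.GaussPoset

set_option linter.unusedSectionVars false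

open Polynomial Finset

universe u

variable {P : Type u} [Fintype P] [PartialOrder P] [DecidableEq P] {r j : ℕ}
  {N : Tops P → Finset P} {b : Tops P → ℕ} {θ : Tops P → P → ℕ}

/-- the data of a pendant below the cell `(4, 4)`, `j = 7` -/
lemma sd_q7 {z u : P} {Nc : Finset P} {co : P → ℕ × ℕ} (hI : InS2sd j N θ u Nc co)
    (h44 : co u = (4, 4)) (hP : Pend z u) (h5 : h2 j N θ z = 5) (hlz : lev z = 9) :
    cst 2 (h2 j N θ) z = 37 ∧ nab 2 z = 2 ∧ nab (2 + h2 j N θ z) z = 1 ∧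
      nst 2 (h2 j N θ) z = 11 := by
  have C := hI.stair.chart
  have hlu : lev u = 8 := by
    have h1 := C.lev u hI.mem
    rw [h44] at h1
    exact h1
  have hn : ∀ k, k ≤ 8 → nab k z = min (k / 2) 4 + 1 - (k - 4) := by
    intro k hk
    rw [nab_pend hP (l := k) (by omega)]
    have h3 := stair_nab C hI.mem (k := k) (by omega)
    rw [h44] at h3
    simp only at h3
    omega
  refine ⟨?_, ?_, ?_, ?_⟩
  · rw [cst_eq, h5, hlz, Finset.sum_range_succ, ← hlz, nab_self, hlz]
    rw [Finset.sum_congr rfl (g := fun k => min 5 (k - 2) * (min (k / 2) 4 + 1 - (k - 4)))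
      (fun k hk => by rw [mem_range] at hk; rw [hn k (by omega)])]
    decide
  · rw [hn 2 (by omega)]
    decide
  · rw [h5, hn (2 + 5) (by omega)]
    decide
  · rw [nst_eq, h5]
    rw [Finset.sum_congr rfl (g := fun k => min ((2 + k) / 2) 4 + 1 - (2 + k - 4))
      (fun k hk => by rw [mem_range] at hk; rw [hn (2 + k) (by omega)])]
    decide

/-- the boundary elements of level at least `j + 2` are expensive -/
theorem W2.hi (W : W2 r j N b θ) {z : P} (hz : z ∈ bdR (r2 j N)) (hl : lev z ≠ j + 1) :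
    j * (j - 1) ≤ cst 2 (h2 j N θ) z := by
  classical
  rcases W.bd hz with h | h | ⟨h7, h5, u, Nc, co, hI, h44, hP⟩
  · exact absurd h hl
  · exact h
  · exfalso
    have H := W.gt.H
    have hlz : ∀ (z u : P) (Nc : Finset P) (co : P → ℕ × ℕ), InS2sd j N θ u Nc co →
        co u = (4, 4) → Pend z u → lev z = 9 := by
      intro z u Nc co hI h44 hP
      have h1 := hI.stair.chart.lev u hI.mem
      rw [h44] at h1
      have h2 := (H.covBy_iff.mp hP.1).2
      simp only at h1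
      omega
    have q := sd_q7 hI h44 hP h5 (hlz z u Nc co hI h44 hP)
    have hj : j * (j - 1) = 42 := by rw [h7]
    have hno : ∀ y ∈ bdR (r2 j N), lev y ≠ j + 1 := by
      intro y hy hly
      rcases W.class (mem_filter.mp hy).1 hly with ⟨x, ⟨Nc, co, m, -, -, hm⟩, -⟩ |
        ⟨x, x', Nc, co, m, -, -, hm, -⟩
      · omega
      · omega
    refine W.kill (e := 37) (s := 11) (by omega) ?_ ?_ hz q.1
    · intro y hy
      rcases W.bd hy with h | h | ⟨-, h5, u, Nc, co, hI, h44, hP⟩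
      · exact absurd h (hno y hy)
      · omega
      · exact (sd_q7 hI h44 hP h5 (hlz y u Nc co hI h44 hP)).1.ge
    · intro y hy hc
      rcases W.bd hy with h | h | ⟨-, h5, u, Nc, co, hI, h44, hP⟩
      · exact absurd h (hno y hy)
      · omega
      · exact (sd_q7 hI h44 hP h5 (hlz y u Nc co hI h44 hP)).2

/-- no element below both ends of a stair, on the levels 6 and 8 -/
def NoCc (j : ℕ) (N : Tops P → Finset P) (θ : Tops P → P → ℕ) : Prop :=
  j ≤ 8 → ∀ z : P, z ∈ r2 j N → lev z = j + 1 → ¬ Cc2 j N θ z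

/-- elements below both ends are expensive -/
lemma W2.cc_hi (W : W2 r j N b θ) (hC : NoCc j N θ) {z : P} (hz : z ∈ r2 j N)
    (hl : lev z = j + 1) (h : Cc2 j N θ z) : j * (j - 1) ≤ cst 2 (h2 j N θ) z := by
  by_cases hj : j ≤ 8
  · exact absurd h (hC hj z hz hl)
  · obtain ⟨x, x', Nc, co, m, h1, h2, h3, h4, h5, h6, h7⟩ := h
    exact W.cc_cost hz hl h1 h2 h3 h4 h5 h6 h7 (by omega)

/-- the numbers of elements above a pendant of the fold end -/
lemma W2.pen_num (W : W2 r j N b θ) {z x : P} (hz : z ∈ r2 j N) (hl : lev z = j + 1)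
    (hP : Pend z x) {Nc : Finset P} {co : P → ℕ × ℕ} {m : ℕ} (h : InS2sd j N θ x Nc co)
    (hcx : co x = (m, m)) (hjm : j = 2 * m) :
    cst 2 (h2 j N θ) z = cS m m (j - 3) + (j - 3) ∧ nab 2 z = 2 ∧
      nab (2 + h2 j N θ z) z = 1 ∧
      nst 2 (h2 j N θ) z = ∑ k ∈ range (j - 3), nF2 m (2 + k) := by
  have hm := W.six
  obtain ⟨p1, p2, p3⟩ := W.pen_data hz hl hP h hcx hjm
  refine ⟨?_, ?_, ?_, ?_⟩
  · rw [p3, sd_stair_ct h.stair.chart h.mem, hcx]
  · rw [p2 2 (by omega)]
    unfold nF2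
    omega
  · rw [p1, p2 (2 + (j - 3)) (by omega)]
    unfold nF2
    omega
  · rw [nst_eq, p1]
    refine Finset.sum_congr rfl fun k hk => ?_
    rw [mem_range] at hk
    rw [p2 (2 + k) (by omega)]

/-- no pendants below the fold end, small levels -/
theorem W2.no_penF (W : W2 r j N b θ) (hC : NoCc j N θ) {z x : P} (hz : z ∈ r2 j N)
    (hl : lev z = j + 1) (hF : Fold2 j N θ x) (hP : Pend z x) (hj : j ≤ 12) : False := by
  classical
  have hm6 := W.six
  obtain ⟨Nc, co, m, h, hcx, hjm⟩ := hF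
  have q := W.pen_num hz hl hP h hcx hjm
  have he : cS m m (j - 3) + (j - 3) < j * (j - 1) - 1 := by
    subst hjm
    have h3 : 3 ≤ m := by omega
    have h6 : m ≤ 6 := by omega
    clear * - h3 h6
    interval_cases m <;> decide
  refine W.kill (e := cS m m (j - 3) + (j - 3)) (s := ∑ k ∈ range (j - 3), nF2 m (2 + k)) he
    ?_ ?_ (W.mem_bd hz hl) q.1
  · intro y hy
    by_cases hly : lev y = j + 1
    · have hyr := (mem_filter.mp hy).1
      rcases W.class hyr hly with ⟨x', ⟨Nc', co', m', h', hcx', hjm'⟩, hP'⟩ | h'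
      · have hmm : m' = m := by omega
        subst hmm
        exact (W.pen_num hyr hly hP' h' hcx' hjm').1.ge
      · have := W.cc_hi hC hyr hly h'
        omega
    · have := W.hi hy hly
      omega
  · intro y hy hc
    by_cases hly : lev y = j + 1
    · have hyr := (mem_filter.mp hy).1
      rcases W.class hyr hly with ⟨x', ⟨Nc', co', m', h', hcx', hjm'⟩, hP'⟩ | h'
      · have hmm : m' = m := by omega
        subst hmm
        exact (W.pen_num hyr hly hP' h' hcx' hjm').2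
      · have := W.cc_hi hC hyr hly h'
        omega
    · have := W.hi hy hly
      omega

/-- all boundary elements are expensive -/
theorem W2.bd_E (W : W2 r j N b θ) (hC : NoCc j N θ) {z : P} (hz : z ∈ bdR (r2 j N)) :
    j * (j - 1) ≤ cst 2 (h2 j N θ) z := by
  classical
  by_cases hl : lev z = j + 1
  · have hzr := (mem_filter.mp hz).1
    rcases W.class hzr hl with ⟨x, hF, hP⟩ | h'
    · by_cases hj : j ≤ 12
      · exact (W.no_penF hC hzr hl hF hP hj).elim
      · obtain ⟨Nc, co, m, h, hcx, hjm⟩ := hF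
        obtain ⟨p1, p2, p3⟩ := W.pen_data hzr hl hP h hcx hjm
        have hlx : lev x = j := by
          have := (W.gt.H.covBy_iff.mp hP.1).2
          omega
        have h4 := sd_fold_deep h.stair.chart h.mem hcx (by omega)
        rw [hlx] at h4
        rw [p3]
        exact h4
    · exact W.cc_hi hC hzr hl h'
  · exact W.hi hz hl

/-- the cost of a twin of row 1 -/
lemma W2.row1_cost (W : W2 r j N b θ) {x : P} (hx : x ∈ twY j N)
    (h1 : θ (topOf (twT N x)) (twT N x) + 1 = j - 1) :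
    tcst 2 (sdT j N θ) (twT N x, x) + 1 + (j - 2) * (j - 1) =
      j * (j - 1) + ∑ k ∈ range (j + 1), (k - 2) * nab k (twT N x) := by
  have hm := W.six
  have hlev := W.tw_lev hx
  rw [W.tcst_eq hx, h1]
  unfold ct
  rw [cst_eq, hlev, Finset.sum_range_succ, ← hlev, nab_self, hlev]
  have h2 : ∑ k ∈ range (j + 1), min (j - 1) (k - 2) * nab k (twT N x) =
      ∑ k ∈ range (j + 1), (k - 2) * nab k (twT N x) := by
    refine Finset.sum_congr rfl fun k hk => ?_
    rw [mem_range] at hk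
    rw [Nat.min_eq_right (by omega)]
  rw [h2, Nat.min_eq_left (by omega)]
  obtain ⟨a, rfl⟩ : ∃ a, j = a + 2 := ⟨j - 2, by omega⟩
  rw [show a + 2 - 1 = a + 1 by omega] at h1 ⊢
  rw [show a + 2 - 2 = a by omega]
  have e1 : (a + 2) * (a + 1) = a * (a + 1) + 2 * (a + 1) := by ring
  rw [e1]
  omega

/-- **no twins of row 1** -/
theorem W2.no_row1 (W : W2 r j N b θ) (hC : NoCc j N θ) {x : P} (hx : x ∈ twY j N)
    (h1 : θ (topOf (twT N x)) (twT N x) + 1 = j - 1)
    (hn : ∀ k, 3 ≤ k → k ≤ j → nab k (twT N x) = 2) : False := by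
  classical
  have hj := W.six
  have T0 := W.twSys
  have hE := sum_two 2 (j - 2)
  rw [show 2 + (j - 2) + 1 = j + 1 by omega, show j - 2 + 1 = j - 1 by omega] at hE
  -- the cost
  have hcx : tcst 2 (sdT j N θ) (twT N x, x) = j * (j - 1) - 1 := by
    have h2 := W.row1_cost hx h1
    have h3 : ∑ k ∈ range (j + 1), (k - 2) * nab k (twT N x) =
        ∑ k ∈ range (j + 1), (k - 2) * 2 := by
      refine Finset.sum_congr rfl fun k hk => ?_
      rw [mem_range] at hk
      rcases Nat.lt_or_ge 2 k with h4 | h4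
      · rw [hn k (by omega) (by omega)]
      · rw [Nat.sub_eq_zero_of_le h4]
        simp
    rw [h3, hE] at h2
    omega
  have hd := W.farX.lead (fun z hz => by have := W.bd_E hC hz; omega)
  have hZ := dvd_Z W.gt.H.gauss 2 (j * (j - 1) - 1)
  have hjj : 1 ≤ j * (j - 1) := Nat.mul_pos (by omega) (by omega)
  have hB : (bdR (r2 j N)).filter (fun z => cst 2 (h2 j N θ) z = j * (j - 1) - 1) = ∅ := by
    rw [Finset.filter_eq_empty_iff]
    intro z hz h
    have := W.bd_E hC hz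
    omega
  rw [hB, Finset.sum_empty, zero_add] at hd
  set T := (twY j N).filter (fun x => tcst 2 (sdT j N θ) (twT N x, x) = j * (j - 1) - 1) with hT
  have hs : ∑ t ∈ (pairsX (twY j N) (twT N)).filter
      (fun t => tcst 2 (sdT j N θ) t = j * (j - 1) - 1), Tm 2 (sdT j N θ) t =
      ∑ x ∈ T, Lt 2 (fun x => sdT j N θ x + 1) x := by
    unfold pairsX
    rw [Finset.filter_image, Finset.sum_image]
    · refine Finset.sum_congr rfl fun y hy => ?_
      have hyY := (mem_filter.mp hy).1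
      rw [sd_Tm_eq W.gt.H.gradedBelow (W.twn hyY)]
      have e1 : sdT j N θ (twT N y) + 1 = sdT j N θ y + 1 := by
        have h5 := (W.twn hyY).eq
        have h6 : sdT j N θ y = sdT j N θ (twT N y) := h5
        rw [h6]
      show Lt 2 (fun _ => sdT j N θ (twT N y) + 1) y = Lt 2 (fun x => sdT j N θ x + 1) y
      rw [e1]
      rfl
    · intro a _ c _ h
      exact (Prod.ext_iff.mp h).2
  rw [hs] at hd
  -- the twins of `T`
  have hup : ∀ y ∈ twY j N, ∀ k, k ≤ j → nab k y = nab k (twT N y) := by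
    intro y hy k hk
    have hlev := W.tw_lev hy
    have hly := (mem_twY.mp hy).2.1
    refine le_antisymm ?_ ?_
    · exact nab_le_of_up (fun w => (T0.up y hy w).symm) (by omega)
    · exact nab_le_of_up (T0.up y hy) (by omega)
  have hlab : ∀ y ∈ twY j N, sdT j N θ y + 1 = θ (topOf (twT N y)) (twT N y) + 1 := by
    intro y hy
    have e1 : sdT j N θ y = θ (topOf (twT N y)) (twT N y) := thX_of hy
    rw [e1]
  have hTk : ∀ y ∈ T, nab 2 y = 2 ∧
      ((nab (2 + (sdT j N θ y + 1)) y = 1 ∧ nst 2 (fun x => sdT j N θ x + 1) y = 2 * (j - 1)) ∨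
        nab (2 + (sdT j N θ y + 1)) y = 2) := by
    intro y hy
    have hyY := (mem_filter.mp hy).1
    have hyc := (mem_filter.mp hy).2
    have hly := (mem_twY.mp hyY).2.1
    have hl := hlab y hyY
    rcases W.tw_kind hyY with ⟨k1, k2, k3, k4⟩ | ⟨k1, k2⟩ | ⟨k1, k2, k3, k4⟩
    · refine ⟨by rw [hup y hyY 2 (by omega)]; exact k3, Or.inl ⟨?_, ?_⟩⟩
      · rw [hl, k1, show 2 + (j - 1) = lev y by omega]
        exact nab_self
      · -- all numbers are two
        have h2 := W.row1_cost hyY k1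
        rw [hyc] at h2
        have hle : ∀ k ∈ range (j + 1), (k - 2) * 2 ≤ (k - 2) * nab k (twT N y) := by
          intro k hk
          rw [mem_range] at hk
          rcases Nat.lt_or_ge 2 k with h4 | h4
          · exact Nat.mul_le_mul_left _ (k2 k (by omega) (by omega))
          · rw [Nat.sub_eq_zero_of_le h4]
            simp
        have h3 : ∑ k ∈ range (j + 1), (k - 2) * 2 =
            ∑ k ∈ range (j + 1), (k - 2) * nab k (twT N y) := by
          rw [hE]
          omega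
        have h4 := (Finset.sum_eq_sum_iff_of_le hle).mp h3
        have h5 : ∀ k, 2 ≤ k → k ≤ j → nab k y = 2 := by
          intro k hk hk2
          rw [hup y hyY k hk2]
          rcases Nat.lt_or_ge 2 k with h6 | h6
          · have h7 := h4 k (by rw [mem_range]; omega)
            exact (Nat.eq_of_mul_eq_mul_left (by omega : 0 < k - 2) h7).symm
          · have : k = 2 := by omega
            rw [this]
            exact k3
        rw [nst_eq]
        rw [hl, k1, Finset.sum_congr rfl (g := fun _ => 2) (fun k hk => by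
          rw [mem_range] at hk
          exact h5 _ (by omega) (by omega)), Finset.sum_const, card_range, smul_eq_mul,
          Nat.mul_comm]
    · omega
    · refine ⟨by rw [hup y hyY 2 (by omega)]; exact k2, Or.inr ?_⟩
      rw [hl, k1, show 2 + (j - 2) = j by omega, hup y hyY j le_rfl]
      exact k3
  have hxT : x ∈ T := mem_filter.mpr ⟨hx, hcx⟩
  have hcard : 2 ≤ (lv P 2).card := by
    have h3 := (hTk x hxT).1
    have h4 := nab_le x 2
    omega
  have hs2 := sign_sum_of_dvd (h := fun x => sdT j N θ x + 1) T hZ hd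
    (c0 := (lv P 2).card - 1) (by omega) (by
    intro y hy
    obtain ⟨h3, h4⟩ := hTk y hy
    rcases h4 with ⟨h4, -⟩ | h4
    · rw [h3, h4]
      omega
    · rw [h3, h4]
      omega)
  rw [Finset.sum_congr rfl (g := fun _ => (1 : ℤ))] at hs2
  · rw [Finset.sum_const, nsmul_eq_mul, mul_one] at hs2
    have h0 : (T.filter (fun y => (lv P 2).card - 1 + nab 2 y =
      (lv P 2).card + nab (2 + (sdT j N θ y + 1)) y)).card = 0 := by exact_mod_cast hs2
    rw [Finset.card_eq_zero] at h0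
    have hmem : x ∈ T.filter (fun y => (lv P 2).card - 1 + nab 2 y =
        (lv P 2).card + nab (2 + (sdT j N θ y + 1)) y) := by
      rw [mem_filter]
      refine ⟨hxT, ?_⟩
      have hly := (mem_twY.mp hx).2.1
      rw [(hTk x hxT).1, hlab x hx, h1, show 2 + (j - 1) = lev x by omega, nab_self]
      omega
    rw [h0] at hmem
    exact absurd hmem (Finset.notMem_empty x)
  · intro y hy
    rw [mem_filter] at hy
    obtain ⟨h3, h4⟩ := hTk y hy.1
    have h5 := hy.2
    rw [h3] at h5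
    rcases h4 with ⟨h4, h6⟩ | h4
    · rw [h6, pow_mul]
      norm_num
    · rw [h4] at h5
      omega

end Pool.Agent.GaussPoset

end

/-! From `Pool.Agent.W_448sd_h84.SdJ` -/

section

/-!
# Window 2: the context from the strips; no doubles at the straight end of a stair (MP_448cb3_co)
-/

namespace Pool.Agent.GaussPoset

set_option linter.unusedSectionVars false

open Polynomial Finset

universe u

variable {P : Type u} [Fintype P] [PartialOrder P] [DecidableEq P] {r j : ℕ}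

open Cp

section One

variable {t : Tops P} {lo hi : ℕ → ℕ} {e : ℕ → ℕ → P}

/-- a double of the last level of a stair-like strip: only next to the diagonal is there a
pendant, at most one -/
theorem sd_stair_pen (h : Wd.NJ P r j) (hj : 6 ≤ j) (C : Comp j (t : P) lo hi e)
    (S : StairShape j lo hi) {x z : P} (hx : lev x = j) (hxt : x ≤ (t : P))
    (hx2 : (Win.uc x).card = 2) (hP : Pend z x) :
    (ccoord lo hi e x).2 = (ccoord lo hi e x).1 + 1 ∧ ∀ z', Pend z' x → z' = z := by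
  classical
  obtain ⟨n, rfl⟩ : ∃ n, j = n + 2 := ⟨j - 2, by omega⟩
  have H := h.g.H
  have hgo : Win.GoodTo P r ((n + 1) + 1) := h.g
  have C' : Comp ((n + 1) + 1) (t : P) lo hi e := C
  have S' : StairShape ((n + 1) + 1) lo hi := S
  obtain ⟨n1, n2⟩ := stairShape_co C' S'
  obtain ⟨s, h1, h2, h3⟩ := C.surj x hxt (by omega)
  rw [hx] at h1 h2 h3
  have hS := (Win.near_level' hgo (by omega)).2 t lo hi e t.2 C'.toWin
  have h4 := C'.toWin.uc_two hgo t.2 (k := n + 1) (by omega) h1 h2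
  have h3' : e (n + 1 + 1) s = x := h3
  rw [h3'] at h4
  have h5 := h4.mp hx2
  have hpen : ∀ w, Pend w x → w ∈ Win.pen (e (n + 1 + 1) s) := by
    intro w hw
    rw [Win.mem_pen, h3']
    refine ⟨hw.1, ?_⟩
    rw [Finset.card_eq_one]
    refine ⟨x, ?_⟩
    ext y
    rw [Win.mem_uc, mem_singleton]
    exact ⟨hw.2 y, fun h => h ▸ hw.1⟩
  have hne : (Win.pen (e (n + 1 + 1) s)).card ≠ 0 := by
    intro h0
    rw [Finset.card_eq_zero] at h0
    have := hpen z hP
    rw [h0] at this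
    exact absurd this (Finset.notMem_empty _)
  have hs : scoord lo hi e x = s := by
    have := scoord_e C (k := n + 2) (s := s) le_rfl h1 h2
    rw [h3] at this
    exact this
  have hcc : ccoord lo hi e x = (s, n + 2 - s) := by
    unfold ccoord
    rw [hs, hx]
  constructor
  · rcases stairShape_pendant hgo (by omega) t.2 C' S' hx hxt hx2 hP.1 hP.2 with h6 | h6
    · exact h6
    · exfalso
      rw [hcc] at h6
      simp only at h6
      have e1 := S.hi n (by omega)
      have e2 := S.lo n (by omega)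
      have e3 := S.lo (n + 1) (by omega)
      have e3' : lo (n + 2) = 0 ∨ lo (n + 2) = lo (n + 1) + 1 := e3
      have e4 := C.lo_step n (by omega)
      have e5 := C.lo_step (n + 1) (by omega)
      have e5' : lo (n + 2) = lo (n + 1) ∨ lo (n + 2) = lo (n + 1) + 1 := e5
      have h7 := h.pen_three (i := n) (by omega) le_rfl C (a := s) (by omega) (by omega)
      have h7' : Win.pen (e (n + 1 + 1) s) = ∅ := h7
      rw [h7'] at hne
      exact hne Finset.card_empty
  · have hone : (Win.pen (e (n + 1 + 1) s)).card = 1 := by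
      rcases hS with ⟨-, -, h8⟩ | ⟨h8, -⟩ | ⟨h8, -, b, hb, h9⟩
      · exact absurd (h8 s h5.1 h5.2) hne
      · exact absurd h8 n1
      · have h10 := h9 s h5.1 h5.2
        split_ifs at h10 with h11
        · exact h10
        · exact absurd h10 hne
    intro z' hP'
    obtain ⟨w, hw⟩ := Finset.card_eq_one.mp hone
    have e1 := hpen z hP
    have e2 := hpen z' hP'
    rw [hw, mem_singleton] at e1 e2
    rw [e1, e2]

/-- the types of one component at window 2 -/
inductive TyS2 (j : ℕ) (t : Tops P) (b : ℕ) (N : Finset P) (θ : P → ℕ) : Prop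
  | light (h1 : N = onlyB t) (h2 : θ = fun x => lev x - 2) (h3 : b = 1)
      (h6 : ∃ x ≤ (t : P), lev x = 2)
  | rect (Nc : Finset P) (co : P → ℕ × ℕ) (h0 : RectNat j 2 t b Nc co)
      (h1 : N = natR Nc co) (h2 : θ = thR 2 b Nc co)
      (pen : ∀ x z : P, x ≤ (t : P) → lev x = j → (Win.uc x).card = 2 → ¬ Pend z x)
      (nrt : ∀ z x x' : P, x ≤ (t : P) → lev z = j + 1 → z ⋖ x → z ⋖ x' → x ≠ x' →
        ucv x x' = 1)
  | stair (Nc : Finset P) (co : P → ℕ × ℕ) (h0 : StairNat j 2 t Nc co)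
      (h1 : N = natS Nc co) (h2 : θ = thS 2 Nc co) (h3 : b = 2)
      (pen : ∀ x z : P, x ≤ (t : P) → lev x = j → (Win.uc x).card = 2 → Pend z x →
        (co x).2 = (co x).1 + 1 ∧ ∀ z', Pend z' x → z' = z)

lemma TyS2.ty2 {N : Tops P → Finset P} {t : Tops P} {b : ℕ} {θ : P → ℕ}
    (h : TyS2 j t b (N t) θ) : Ty2 j N t b θ := by
  rcases h with ⟨h1, h2, h3, h6⟩ | ⟨Nc, co, h0, h1, h2, h3, h4⟩ | ⟨Nc, co, h0, h1, h2, h3, h4⟩
  · exact Ty2.light h1 h2 h3 h6
  · exact Ty2.rect Nc co h0 h1 h2 h3 h4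
  · exact Ty2.stair Nc co h0 h1 h2 h3 h4

/-- the data of a stair-like strip -/
def StI2 (j : ℕ) (t : Tops P) (lo hi : ℕ → ℕ) (e : ℕ → ℕ → P) (N : Finset P)
    (θ : P → ℕ) : Prop :=
  ∃ Nc co, StairNat j 2 t Nc co ∧ N = natS Nc co ∧ θ = thS 2 Nc co ∧
    ∀ x ∈ lowPart j (t : P), co x = ccoord lo hi e x

/-- the type of a strip -/
theorem sd_type (h : Wd.NJ P r j) (hj : 6 ≤ j) (C : Comp j (t : P) lo hi e)
    (hS : Wd.Shape j lo hi) (h6 : j = 6 → ¬ Wd.F1 lo hi)
    (hrot : RectShape j lo hi → lo 1 ≠ hi 1 → ∀ z x x' : P, x ≤ (t : P) → lev z = j + 1 →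
      z ⋖ x → z ⋖ x' → x ≠ x' → ucv x x' = 1) :
    ∃ N θ, TyS2 j t (hi 2 - lo 2 + 1) N θ ∧ (StairShape j lo hi → StI2 j t lo hi e N θ) := by
  have H := h.g.H
  have hg := h.g.good
  have hlight : lo 2 = hi 2 → TyS2 j t (hi 2 - lo 2 + 1) (onlyB t) (fun x => lev x - 2) := by
    intro h1
    exact TyS2.light rfl rfl (by omega)
      ⟨e 2 (lo 2), C.le_t 2 (lo 2) (by omega) le_rfl (C.lo_le 2 (by omega)),
        C.lev_e 2 (lo 2) (by omega) le_rfl (C.lo_le 2 (by omega))⟩
  by_cases S : StairShape j lo hi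
  · obtain ⟨Nc, co, h1, h1'⟩ := exists_stair C H hg H.gradedBelow S (i := 2) (by omega)
    refine ⟨_, _, TyS2.stair Nc co h1 rfl rfl ?_ ?_, fun _ => ⟨Nc, co, h1, rfl, rfl, h1'⟩⟩
    · have e1 := S.hi 2 (by omega)
      have h0 : lo 2 = 0 := by
        by_contra hcon
        have e1 := shape_lo C S.lo (l := 2) (by omega) 2 (by omega)
        have e2 := S.hi (2 + 2) (by omega)
        have e3 := C.lo_le (2 + 2) (by omega)
        omega
      omega
    · intro x z hxt hlx hx2 hP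
      obtain ⟨g1, g2⟩ := sd_stair_pen h hj C S hlx hxt hx2 hP
      rw [h1' x (mem_lowPart.mpr ⟨hxt, by omega⟩)]
      exact ⟨g1, g2⟩
  · suffices hs : ∃ N θ, TyS2 j t (hi 2 - lo 2 + 1) N θ by
      obtain ⟨N, θ, h1⟩ := hs
      exact ⟨N, θ, h1, fun h2 => absurd h2 S⟩
    rcases hS with h1 | ⟨h1, S'⟩ | ⟨h1, h2⟩ | ⟨h1, h2, h3⟩ | ⟨h1, h2⟩ | ⟨a, h0, h1, h2, h3, hN, h4⟩
    · have e1 := h1 2 (by omega)
      exact ⟨_, _, hlight (by omega)⟩
    · have hlt : lo 2 < hi 2 := by
        by_contra hcon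
        have g3 := C.lo_le 2 (by omega)
        have g1 := C.lo_mono (l := 1) (d := 1) (by omega)
        have g2 := C.hi_mono (l := 1) (d := 1) (by omega)
        rw [show 1 + 1 = 2 from rfl] at g1 g2
        have g4 := shape_lo C S'.lo (l := 2) (by omega) 2 (by omega)
        have g5 := shape_hi C S'.hi (l := 2) (by omega) 2 (by omega)
        have g6 := C.lo_le (2 + 2) (by omega)
        omega
      obtain ⟨Nc, co, h2, -⟩ := exists_rect C H hg H.gradedBelow S' (i := 2) (by omega) hlt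
      refine ⟨_, _, TyS2.rect Nc co h2 rfl rfl ?_ (hrot S' (by omega))⟩
      intro x z hxt hxl hx2 hP
      obtain ⟨i, rfl⟩ : ∃ i, j = i + 1 := ⟨j - 1, by omega⟩
      exact rectShape_no_pendant (i := i) h.g (by omega) t.2 C S' hxl hxt hx2 hP.1 hP.2
    · exact absurd h2 S
    · omega
    · exact absurd h2 (h6 h1)
    · have e1 := h2 2 (by omega)
      exact ⟨_, _, hlight (by omega)⟩

end One

section All

variable {lo hi : Tops P → ℕ → ℕ} {e : Tops P → ℕ → ℕ → P}

/-- the context -/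
theorem exists_W2 (h : Wd.NJ P r j) (hj : 6 ≤ j)
    (C : ∀ t : Tops P, Comp j (t : P) (lo t) (hi t) (e t))
    (hS : ∀ t, Wd.Shape j (lo t) (hi t)) (h6 : j = 6 → ∀ t, ¬ Wd.F1 (lo t) (hi t)) :
    ∃ N θ, W2 r j N (fun t => hi t 2 - lo t 2 + 1) θ ∧
      ∀ t, StairShape j (lo t) (hi t) → StI2 j t (lo t) (hi t) (e t) (N t) (θ t) := by
  classical
  have hT : ∀ t : Tops P, lo t 1 = hi t 1 ∨ RectShape j (lo t) (hi t) := by
    intro t
    rcases hS t with h1 | ⟨h1, S'⟩ | ⟨h1, h2⟩ | ⟨h1, h2, h3⟩ | ⟨h1, h2⟩ | ⟨a, h0, h1, h2, h3, hN, h4⟩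
    · left
      have e1 := h1 1 (by omega)
      omega
    · exact Or.inr S'
    · left
      have e1 := h2.hi 1 (by omega)
      have e2 := (C t).lo_le 1 (by omega)
      omega
    · omega
    · exact absurd h2 (h6 h1 t)
    · left
      have e1 := h2 1 (by omega)
      omega
  choose N θ hty hI using fun t => sd_type h hj (C t) (hS t) (fun q => h6 q t)
    (fun _ hne z x x' hxt hlz hzx hzx' hxx => rect_no_rotation h.g (by omega) h.no C hT hne hlz
      (hzx.1.le.trans hxt) hzx hzx' hxx)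
  refine ⟨N, θ, ⟨h.g, hj, fun t => (hty t).ty2, ?_, h.no⟩, hI⟩
  exact (card_level h.g.H h.g.good C (i := 2) (by omega)).symm

end All

end Pool.Agent.GaussPoset

end

/-! From `Pool.Agent.W_448sd_h84.SdK` -/

section

/-!
# No doubles at the straight end of a stair (MP_448cb3_co)
-/

namespace Pool.Agent.GaussPoset

set_option linter.unusedSectionVars false

open Polynomial Finset

universe u

variable {P : Type u} [Fintype P] [PartialOrder P] [DecidableEq P] {r j : ℕ}

open Cp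

section One

variable {t : Tops P} {lo hi : ℕ → ℕ} {e : ℕ → ℕ → P}

/-- the single-up elements of the last level of a stair -/
lemma sd_single (h : Win.GoodTo P r j) (hj : 6 ≤ j) (C : Comp j (t : P) lo hi e)
    (S : StairShape j lo hi) {x : P} (hx : lev x = j) (hxt : x ≤ (t : P))
    (h1 : (Win.uc x).card = 1) :
    (lo j = 0 ∧ x = e j 0) ∨ (j % 2 = 0 ∧ x = e j (j / 2)) := by
  obtain ⟨n, rfl⟩ : ∃ n, j = n + 1 := ⟨j - 1, by omega⟩
  obtain ⟨s, h2, h3, h4⟩ := C.surj x hxt (by omega)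
  rw [hx] at h2 h3 h4
  have h5 := C.toWin.uc_two h t.2 (k := n) (by omega) h2 h3
  rw [h4, h1] at h5
  have e1 := S.hi n (by omega)
  have e2 := S.hi (n + 1) le_rfl
  have e3 := S.lo n (by omega)
  have e4 := C.lo_step n (by omega)
  have h6 : ¬ (lo n < s ∧ s ≤ hi n) := fun h => absurd (h5.mpr h) (by norm_num)
  by_cases h7 : s ≤ hi n
  · left
    have h8 : s = 0 := by omega
    refine ⟨by omega, ?_⟩
    rw [← h4, h8]
  · right
    refine ⟨by omega, ?_⟩
    rw [← h4]
    congr 1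
    omega

end One

section All

variable {lo hi : Tops P → ℕ → ℕ} {e : Tops P → ℕ → ℕ → P}

/-- **No double at the straight end of a stair-like component.**  All levels less than `j` are
good, `6 ≤ j`, no element of level `j + 1` is below two maximal elements.  `hCC`: on the levels 6
and 8 no element of level `j + 1` is below both ends of a stair.  Then the single-up element of
level `j` at the straight end of a stair has at most one common lower cover with its
neighbour. -/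
theorem stair_dcv_straight (h : Wd.NJ P r j) (hj : 6 ≤ j)
    (C : ∀ t : Tops P, Comp j (t : P) (lo t) (hi t) (e t))
    (hS : ∀ t, Wd.Shape j (lo t) (hi t)) (h6 : j = 6 → ∀ t, ¬ Wd.F1 (lo t) (hi t))
    (hCC : j ≤ 8 → ∀ (t : Tops P) (z : P), StairShape j (lo t) (hi t) → lo t j = 0 →
      j % 2 = 0 → z ⋖ e t j (j / 2) → z ⋖ e t j 0 → False)
    {t : Tops P} (S : StairShape j (lo t) (hi t)) (h0 : lo t j = 0) {x' : P}
    (hne : x' ≠ e t j 0) (hu : ucv (e t j 0) x' = 1) : dcv (e t j 0) x' ≤ 1 := by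
  classical
  by_contra hcon
  obtain ⟨N, θ, W, hI⟩ := exists_W2 h hj C hS h6
  have H := h.g.H
  have HN := W.natSys
  have T := W.twSys
  -- no element below both ends
  have hNC : NoCc j N θ := by
    rintro hj8 z hz hl ⟨x, x', Nc, co, m, hIn, hcx, hjm, hx', hcx', hzx, hzx'⟩
    have Ch := hIn.stair.chart
    have hlx : lev x = j := by
      have := (H.covBy_iff.mp hzx).2
      omega
    have hlx' : lev x' = j := by
      have := (H.covBy_iff.mp hzx').2
      omega
    have hne : x ≠ x' := by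
      rintro rfl
      rw [hcx] at hcx'
      simp only [Prod.mk.injEq] at hcx'
      omega
    have ht : topOf x = topOf z := W.top_cov hl hzx
    have ht' : topOf x' = topOf z := W.top_cov hl hzx'
    have hxt : x ≤ (topOf z : P) := by rw [← ht]; exact le_topOf x
    have hxt' : x' ≤ (topOf z : P) := by rw [← ht']; exact le_topOf x'
    -- single-up, no common cover
    have hcov : ∀ y, x ⋖ y → co y = (m - 1, m) := by
      intro y hy
      have hyN := Ch.up _ hIn.mem y hy.1.le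
      have h9 : (co y).1 ≤ (co y).2 := Ch.mem y hyN
      have e := (chart_cov Ch H hIn.mem hyN).mp hy
      rw [hcx] at e
      rcases e with e | e
      · have e1 := e.1
        have e2 := e.2
        simp only at e1 e2
        exact Prod.ext (by simp only; omega) (by simp only; omega)
      · have e1 := e.1
        have e2 := e.2
        simp only at e1 e2
        omega
    have hcov' : ∀ y, x' ⋖ y → co y = (0, 2 * m - 1) := by
      intro y hy
      have hyN := Ch.up _ hx' y hy.1.le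
      have e := (chart_cov Ch H hx' hyN).mp hy
      rw [hcx'] at e
      rcases e with e | e
      · have e1 := e.1
        simp only at e1
        omega
      · have e1 := e.1
        have e2 := e.2
        simp only at e1 e2
        exact Prod.ext (by simp only; omega) (by simp only; omega)
    have hone : ∀ (w : P) (p : ℕ × ℕ), lev w = j → w ∈ Nc → (∀ y, w ⋖ y → co y = p) →
        (Win.uc w).card = 1 := by
      intro w p hlw hwN hp
      have hwt : w < (topOf w : P) := lt_of_le_of_ne (le_topOf w) (by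
        intro h
        have := (topOf w).2
        rw [← h] at this
        omega)
      obtain ⟨y, hy, -⟩ := Hul.exists_cov hwt
      rw [Finset.card_eq_one]
      refine ⟨y, ?_⟩
      ext v
      rw [Win.mem_uc, mem_singleton]
      constructor
      · intro hv
        refine Ch.inj v (Ch.up _ hwN v hv.1.le) y (Ch.up _ hwN y hy.1.le) ?_
        rw [hp v hv, hp y hy]
      · rintro rfl
        exact hy
    have hx1 := hone x _ hlx hIn.mem hcov
    have hx1' := hone x' _ hlx' hx' hcov'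
    have huc : ucv x x' = 0 := by
      unfold ucv
      rw [Finset.card_eq_zero, Finset.eq_empty_iff_forall_notMem]
      intro y hy
      rw [mem_filter] at hy
      have e1 := hcov y hy.2.1
      have e2 := hcov' y hy.2.2
      rw [e1, Prod.mk.injEq] at e2
      omega
    have hnb : nab 2 x = 2 := by
      have h3 := stair_nab Ch hIn.mem (k := 2) (by omega)
      rw [hcx] at h3
      simp only at h3
      omega
    -- levels with one element
    have hnl : lo (topOf z) 2 = hi (topOf z) 2 → False := by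
      intro hq
      have h3 : (lv P 2).filter (fun w => x ≤ w) ⊆ {e (topOf z) 2 (lo (topOf z) 2)} := by
        intro w hw
        rw [mem_filter, mem_lv] at hw
        rw [mem_singleton]
        have hwt : w ≤ (topOf z : P) := by
          have h4 : topOf w = topOf x := (HN.cp x w hw.2 (W.low hlx.le)).symm
          rw [← ht, ← h4]
          exact le_topOf w
        obtain ⟨s, s1, s2, s3⟩ := (C (topOf z)).surj w hwt (by omega)
        rw [hw.1] at s1 s2 s3
        rw [← s3]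
        congr 1
        omega
      have h4 := Finset.card_le_card h3
      rw [Finset.card_singleton] at h4
      unfold nab at hnb
      omega
    have htj : lo (topOf z) j ≠ hi (topOf z) j := by
      intro hq
      obtain ⟨s, s1, s2, s3⟩ := (C (topOf z)).surj x hxt (by omega)
      obtain ⟨s', s1', s2', s3'⟩ := (C (topOf z)).surj x' hxt' (by omega)
      rw [hlx] at s1 s2 s3
      rw [hlx'] at s1' s2' s3'
      apply hne
      rw [← s3, ← s3']
      congr 1
      omega
    by_cases S' : StairShape j (lo (topOf z)) (hi (topOf z))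
    · rcases sd_single h.g hj (C _) S' hlx hxt hx1 with ⟨a1, a2⟩ | ⟨a1, a2⟩
      · rcases sd_single h.g hj (C _) S' hlx' hxt' hx1' with ⟨b1, b2⟩ | ⟨b1, b2⟩
        · exact hne (a2.trans b2.symm)
        · exact hCC hj8 (topOf z) z S' a1 b1 (b2 ▸ hzx') (a2 ▸ hzx)
      · rcases sd_single h.g hj (C _) S' hlx' hxt' hx1' with ⟨b1, b2⟩ | ⟨b1, b2⟩
        · exact hCC hj8 (topOf z) z S' b1 a1 (a2 ▸ hzx) (b2 ▸ hzx')
        · exact hne (a2.trans b2.symm)
    · rcases hS (topOf z) with h1 | ⟨h1, S''⟩ | ⟨h1, h2⟩ | ⟨h1, h2, h3⟩ | ⟨h1, h2⟩ |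
        ⟨a, g0, h1, h2, h3, hN, h4⟩
      · have e1 := h1 2 (by omega)
        exact hnl (by omega)
      · have hT : ∀ t : Tops P, lo t 1 = hi t 1 ∨ RectShape j (lo t) (hi t) := by
          intro t
          rcases hS t with h1 | ⟨h1, S'⟩ | ⟨h1, h2⟩ | ⟨h1, h2, h3⟩ | ⟨h1, h2⟩ |
            ⟨a, h0, h1, h2, h3, hN, h4⟩
          · left
            have e1 := h1 1 (by omega)
            omega
          · exact Or.inr S'
          · left
            have e1 := h2.hi 1 (by omega)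
            have e2 := (C t).lo_le 1 (by omega)
            omega
          · omega
          · exact absurd h2 (h6 h1 t)
          · left
            have e1 := h2 1 (by omega)
            omega
        have := rect_no_rotation h.g (by omega) h.no C hT (t := topOf z) (by omega) hl
          (le_topOf z) hzx hzx' hne
        omega
      · exact S' h2
      · omega
      · exact h6 h1 _ h2
      · have e1 := h2 2 (by omega)
        exact hnl (by omega)
  -- the straight end
  obtain ⟨Nc, co, g0, g1, g2, g3⟩ := hI t S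
  have hhi := S.hi j le_rfl
  have hlx := (C t).lev_e j 0 le_rfl (by omega) (by omega)
  have hxt := (C t).le_t j 0 le_rfl (by omega) (by omega)
  set x := e t j 0 with hxdef
  have hxl : x ∈ lowPart j (t : P) := mem_lowPart.mpr ⟨hxt, hlx.le⟩
  have hxN : x ∈ Nc := g0.strip hxl
  have hcx : co x = (0, j) := by
    rw [g3 x hxl]
    unfold ccoord
    rw [hxdef, scoord_e (C t) (k := j) (s := 0) le_rfl (by omega) (by omega), ← hxdef, hlx]
    rfl
  obtain ⟨z, z', hz, hz', hzz⟩ := Finset.one_lt_card_iff.mp (not_le.mp hcon)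
  have hz2 : z ⋖ x ∧ z ⋖ x' := by simpa using hz
  have hz2' : z' ⋖ x ∧ z' ⋖ x' := by simpa using hz'
  have hlz : ∀ w : P, w ⋖ x → lev w = j + 1 := fun w hw => by
    have := (H.covBy_iff.mp hw).2
    omega
  have htop : ∀ w : P, w ⋖ x → topOf w = t := by
    intro w hw
    have h5 := W.top_cov (hlz w hw) hw
    have h7 : topOf x = t := HN.topOf_eq (by rw [g1]; exact mem_natS.mpr (Or.inl hxN))
    rw [← h5, h7]
  have hlx' : lev x' = j := by
    have := (H.covBy_iff.mp hz2.2).2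
    have := hlz z hz2.1
    omega
  have hxt' : x' ≤ (t : P) := by
    rw [← htop z hz2.1, ← W.top_cov (hlz z hz2.1) hz2.2]
    exact le_topOf x'
  have hxN' : x' ∈ Nc := g0.strip (mem_lowPart.mpr ⟨hxt', by omega⟩)
  have Ch := g0.chart
  -- natural elements below both
  have hcell : ∀ w : P, w ⋖ x → w ⋖ x' → w ∉ unnat N → topOf w = t →
      w ∈ Nc ∧ co w = (1, j) := by
    intro w hwx hwx' hw hwt
    have hwN := HN.mem_iff.mpr ⟨hw, hwt⟩
    rw [g1, mem_natS] at hwN
    have hJ : w ∉ junk (fun c => c.1 ≤ c.2) Nc co := by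
      intro hzJ
      have hcl := Ch.lev x hxN
      have hcl' := Ch.lev x' hxN'
      obtain ⟨x1, H1, hz1⟩ := mem_junk.mp hzJ
      rw [mem_jset] at hz1
      have h1 : ∀ y, w ⋖ y → y = x1 ∨ y < x1 := by
        intro y hy
        rcases hz1.2 y hy.1.le with h | h
        · exact eq_or_lt_of_le h
        · rcases eq_or_lt_of_le h with h | h
          · exact Or.inl h.symm
          · exact absurd h (hy.2 hz1.1)
      rcases h1 x hwx with h | h
      · rcases h1 x' hwx' with h' | h'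
        · exact hne (h'.trans h.symm)
        · have := lev_strictAnti h'
          rw [← h] at this
          omega
      · rcases h1 x' hwx' with h' | h'
        · have := lev_strictAnti h
          rw [← h'] at this
          omega
        · have e1 := (H1.tail Ch hxN h).1
          have e2 := (H1.tail Ch hxN' h').1
          exact hne (Ch.inj x' hxN' x hxN (Prod.ext (by omega) (by omega)))
    have hwc := hwN.resolve_right hJ
    refine ⟨hwc, ?_⟩
    have f1 := (chart_cov Ch H hwc hxN).mp hwx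
    have f2 := (chart_cov Ch H hwc hxN').mp hwx'
    have hcne : co x ≠ co x' := fun h => hne (Ch.inj x hxN x' hxN' h).symm
    have hcne' : ¬ ((co x).1 = (co x').1 ∧ (co x).2 = (co x').2) :=
      fun h => hcne (Prod.ext h.1 h.2)
    have hcl' := Ch.lev x' hxN'
    rw [hcx] at f1 hcne'
    unfold Prd at f1 f2
    simp only at f1 hcne'
    exact Prod.ext (by simp only; omega) (by simp only; omega)
  have hnr : ∀ w : P, w ⋖ x → w ⋖ x' → w ∉ r2 j N := fun w hwx hwx' hw =>
    W.near hw (hlz w hwx) hwx hwx' hne.symm hu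
  have htw : ∀ w : P, w ⋖ x → w ⋖ x' → w ∉ unnat N := by
    intro w hwx hwx' hwU
    have hY : w ∈ twY j N := by
      by_contra hY
      exact hnr w hwx hwx' (mem_sdiff.mpr ⟨hwU, hY⟩)
    have hy1 : twT N w ⋖ x := (T.cov hY).mpr hwx
    have hy2 : twT N w ⋖ x' := (T.cov hY).mpr hwx'
    have hyt : topOf (twT N w) = t := by rw [T.cp w hY]; exact htop w hwx
    obtain ⟨hyN, hcy⟩ := hcell _ hy1 hy2 (T.nat w hY) hyt
    refine W.no_row1 hNC hY ?_ ?_
    · rw [hyt, g2]
      unfold thS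
      rw [if_neg (sd_not_junk Ch hyN (by rw [hcy])), hcy]
      simp only
      omega
    · intro k hk hk2
      have h3 := stair_nab Ch hyN (k := k) (by rw [Ch.lev _ hyN, hcy]; simp only; omega)
      rw [hcy] at h3
      simp only at h3
      omega
  obtain ⟨a1, a2⟩ := hcell z hz2.1 hz2.2 (htw z hz2.1 hz2.2) (htop z hz2.1)
  obtain ⟨b1, b2⟩ := hcell z' hz2'.1 hz2'.2 (htw z' hz2'.1 hz2'.2) (htop z' hz2'.1)
  exact hzz (Ch.inj z a1 z' b1 (a2.trans b2.symm))

end All

end Pool.Agent.GaussPoset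

end

/-! From `Pool.Agent.W_448j6_h22.KaI` -/

section

/-!
Level 6, window 3: stair-like components (MP_448cb3_co, `j = 6`).
-/

namespace Pool.Agent.GaussPoset.J6

set_option linter.unusedSectionVars false

open Polynomial Finset Dd J8

universe u

variable {P : Type u} [Fintype P] [PartialOrder P] [DecidableEq P] {r : ℕ}
variable {t : Tops P} {lo hi : ℕ → ℕ} {e : ℕ → ℕ → P}

/-- no pendants below the fold end -/
lemma fold_pen (h : Wd.NJ P r 6) (C : Cp.Comp 6 (t : P) lo hi e) (S : StairShape 6 lo hi)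
    (h3 : lo 3 = 0) {z : P} (hz : Pend z (e 6 3)) : False := by
  classical
  have s0 := C.lo_step 2 (by norm_num)
  have s1 := C.lo_step 3 (by norm_num)
  have s2 := C.hi_step 2 (by norm_num)
  have e1 := S.hi 1 (by norm_num)
  have e2 := S.hi 2 (by norm_num)
  have e3 := S.hi 3 (by norm_num)
  have e4 := S.hi 4 (by norm_num)
  have e5 := S.hi 5 (by norm_num)
  have e6 := S.hi 6 (by norm_num)
  norm_num at s0 s1 s2 e1 e2 e3 e4 e5 e6
  have St : Wd.Stair lo hi 6 := ⟨S.lo, S.hi⟩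
  have hf : Wd.fuw lo hi 4 = 0 := by
    refine St.fuw_zero (by norm_num) (by norm_num) fun _ => ?_
    norm_num
    omega
  obtain ⟨-, hR, -⟩ := h.FL_eq (i := 4) (by norm_num) C
  obtain ⟨hF, -, -⟩ := h.law (i := 4) (by norm_num) (by norm_num) C
  have hpd : Win.pdR lo hi 4 := by
    refine ⟨?_, ?_, ?_⟩
    · norm_num
      omega
    · norm_num
      omega
    · omega
  have hF0 : Win.FL 4 (Wd.SS 4 t) = ∅ := by
    rw [← Finset.card_eq_zero, hF]
    exact hf
  have h1 := hR hpd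
  rw [hF0, show 4 + 2 = 6 from rfl, e6] at h1
  have h2 : Win.uc z = {e 6 3} := by
    ext v
    rw [Win.mem_uc, mem_singleton]
    exact ⟨fun hv => hz.2 v hv, fun hv => by rw [hv]; exact hz.1⟩
  exact absurd (h1 (Wd.mem_pen_of_uc h2)) (Finset.notMem_empty _)

section

variable {Nc : Finset P} {co : P → ℕ × ℕ}

/-- thresholds on the level 6 -/
lemma thS6 {x : P} (hl : lev x = 6) : thS 3 Nc co x = 3 ∨
    thS 3 Nc co x = ((co x).1 - 2) + ((co x).2 - 3) := by
  unfold thS
  split_ifs with hj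
  · left; omega
  · right; rfl

/-- the data of the strip -/
structure StR (t : Tops P) (lo hi : ℕ → ℕ) (e : ℕ → ℕ → P) (Nc : Finset P)
    (co : P → ℕ × ℕ) : Prop where
  S : StairShape 6 lo hi
  h3 : lo 3 = 0
  R : StairNat 6 3 t Nc co
  co_eq : ∀ x ∈ lowPart 6 (t : P), co x = ccoord lo hi e x

/-- the cell of an element of level 6 -/
lemma StR.mem (T : StR t lo hi e Nc co) {x : P} (hx : x ≤ (t : P)) (hl : lev x = 6) :
    x ∈ Nc ∧ (co x).1 + (co x).2 = 6 ∧ (co x).1 ≤ (co x).2 := by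
  have h1 : x ∈ Nc := T.R.strip (mem_lowPart.mpr ⟨hx, hl.le⟩)
  have h2 := T.R.chart.lev x h1
  exact ⟨h1, by omega, T.R.chart.mem x h1⟩

/-- a pendant of a stair is below the straight end -/
lemma StR.pend (T : StR t lo hi e Nc co) (h : Wd.NJ P r 6) (C : Cp.Comp 6 (t : P) lo hi e)
    {z x : P} (hx : x ≤ (t : P)) (hl : lev x = 6) (hp : Pend z x) : co x = (0, 6) := by
  classical
  have hm : x ∈ lowPart 6 (t : P) := mem_lowPart.mpr ⟨hx, hl.le⟩
  have h2 := Win.uc_card_le h.g.H x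
  have h1 : 1 ≤ (Win.uc x).card := by
    rw [Wd.uc_card_nab h.g.H (by omega)]
    exact one_le_nab (by omega)
  rcases (show (Win.uc x).card = 1 ∨ (Win.uc x).card = 2 by omega) with h3 | h3
  · rcases sd_single h.g le_rfl C T.S hl hx h3 with ⟨h4, h5⟩ | ⟨-, h5⟩
    · rw [T.co_eq x hm, h5]
      unfold ccoord
      have hh : (0 : ℕ) ≤ hi 6 := Nat.zero_le _
      rw [scoord_e C le_rfl (by omega) hh, C.lev_e 6 0 le_rfl (by omega) hh]
    · exfalso
      rw [h5] at hp
      exact fold_pen h C T.S T.h3 hp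
  · exfalso
    obtain ⟨h4, -⟩ := sd_stair_pen h le_rfl C T.S hl hx h3 hp
    rw [← T.co_eq x hm] at h4
    have := (T.mem hx hl).2.1
    omega

/-- **the costs of a stair-like component.** -/
theorem StR.c7 (T : StR t lo hi e Nc co) (h : Wd.NJ P r 6) (C : Cp.Comp 6 (t : P) lo hi e)
    {z : P} (hz : z ≤ (t : P)) (hl : lev z = 7) {k : ℕ}
    (hk : ∃ x, z ⋖ x ∧ k = thS 3 Nc co x + 1) :
    13 ≤ cK k z ∨ ((∃ x, Pend z x) ∧ 10 ≤ cK k z) := by
  classical
  obtain ⟨x, hzx, rfl⟩ := hk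
  obtain ⟨hxt, hxl, -⟩ := cov7 h C hz hl hzx
  obtain ⟨hxN, hlc, hS⟩ := T.mem hxt hxl
  have C' := T.R.chart
  obtain ⟨o4, o5, o6⟩ := one7 hl
  by_cases hp : ∀ y, z ⋖ y → y = x
  · right
    refine ⟨⟨x, hzx, hp⟩, ?_⟩
    have h3 : 3 ≤ thS 3 Nc co x := by
      have h4 := thS6 (Nc := Nc) (co := co) hxl
      rw [T.pend h C hxt hxl ⟨hzx, hp⟩] at h4
      simp only at h4
      omega
    have h5 := cK_ge (k := 4) hl o4 o5 o6
    have h6 := cK_le (k := 4) (k' := thS 3 Nc co x + 1) (by omega) z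
    norm_num at h5
    omega
  left
  push Not at hp
  obtain ⟨y, hzy, hyx⟩ := hp
  obtain ⟨hyt, hyl, -⟩ := cov7 h C hz hl hzy
  obtain ⟨hyN, hyc, hyS⟩ := T.mem hyt hyl
  have n6 : 2 ≤ nab 6 z := two_le_nab hzx.1.le hzy.1.le hxl hyl (Ne.symm hyx)
  rcases Nat.lt_or_ge (thS 3 Nc co x) 3 with h3 | h3
  swap
  · have h5 := cK_ge (k := 4) hl o4 o5 n6
    have h6 := cK_le (k := 4) (k' := thS 3 Nc co x + 1) (by omega) z
    norm_num at h5
    omega
  have h4 := (thS6 (Nc := Nc) (co := co) hxl).resolve_left (by omega)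
  have g4 : nab 4 x + (4 - (co x).2) = min (4 / 2) (co x).1 + 1 := by
    rw [nab_chart C' hxN 4]
    exact card_cellsAt_shift hS (by omega)
  have g5 : nab 5 x + (5 - (co x).2) = min (5 / 2) (co x).1 + 1 := by
    rw [nab_chart C' hxN 5]
    exact card_cellsAt_shift hS (by omega)
  norm_num at g4 g5
  have m4 := nab_mono (l := 4) hzx.1.le
  have m5 := nab_mono (l := 5) hzx.1.le
  have h5 : thS 3 Nc co x = 1 ∨ thS 3 Nc co x = 2 := by omega
  rcases h5 with h5 | h5
  · -- next to the fold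
    have h6 : 3 ≤ nab 4 z ∧ 2 ≤ nab 5 z := by
      rcases (show (co x).1 = 2 ∨ (co x).1 = 3 by omega) with h7 | h7
      · omega
      · -- the fold end
        have hc : co x = (3, 3) := Prod.ext h7 (by simp only; omega)
        have hcy : 4 ≤ (co y).2 := by
          by_contra hcon
          exact hyx (C'.inj y hyN x hxN (by
            rw [hc]
            exact Prod.ext (by simp only; omega) (by simp only; omega)))
        have key : ∀ l, 4 ≤ l → l ≤ 5 → nab l x + 1 ≤ nab l z := by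
          intro l l4 l5
          obtain ⟨u, hu, hcu⟩ := C'.low y hyN (l - min l (co y).2, min l (co y).2)
            ⟨by simp only; omega, by simp only; omega⟩ (by simp only; omega)
          refine nab_extra hzx.1.le (hzy.1.le.trans ((C'.le_iff y hyN u hu).mpr ?_)) ?_ ?_
          · rw [hcu]
            exact ⟨by simp only; omega, by simp only; omega⟩
          · rw [C'.lev u hu, hcu]
            simp only
            omega
          · rw [C'.le_iff x hxN u hu, hcu, hc]
            rintro ⟨-, h8⟩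
            simp only at h8
            omega
        have k4 := key 4 le_rfl (by norm_num)
        have k5 := key 5 (by norm_num) le_rfl
        omega
    have h7 := cK_ge (k := thS 3 Nc co x + 1) hl h6.1 h6.2 n6
    rw [h5] at h7 ⊢
    norm_num at h7 ⊢
    omega
  · have h7 := cK_ge (k := thS 3 Nc co x + 1) (a := 2) (b := 2) (c := 2) hl (by omega)
      (by omega) n6
    rw [h5] at h7 ⊢
    norm_num at h7 ⊢
    omega

/-- a pendant is natural, with a high threshold -/
lemma StR.pend_nat (T : StR t lo hi e Nc co) (h : Wd.NJ P r 6) (C : Cp.Comp 6 (t : P) lo hi e)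
    {y x : P} (hy : y ≤ (t : P)) (hl : lev y = 7) (hp : Pend y x) :
    y ∈ natS Nc co ∧ thS 3 Nc co y = 4 := by
  classical
  have H := h.g.H
  have C' := T.R.chart
  obtain ⟨hxt, hxl, -⟩ := cov7 h C hy hl hp.1
  obtain ⟨hxN, -, -⟩ := T.mem hxt hxl
  have hcx := T.pend h C hxt hxl hp
  unfold thS
  by_cases hj : y ∈ junk (fun c => c.1 ≤ c.2) Nc co
  · rw [if_pos hj, hl]
    exact ⟨mem_natS.mpr (Or.inr hj), rfl⟩
  · rw [if_neg hj]
    by_cases hyN : y ∈ Nc
    · refine ⟨mem_natS.mpr (Or.inl hyN), ?_⟩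
      have h1 := (chart_cov C' H hyN hxN).mp hp.1
      rw [hcx] at h1
      unfold Prd at h1
      simp only at h1
      rcases h1 with h1 | h1
      · exfalso
        obtain ⟨v, hv, hcv⟩ := C'.low y hyN (1, 5) ⟨by simp only; omega, by simp only; omega⟩
          (by norm_num)
        have h2 : y ⋖ v := by
          rw [chart_cov C' H hyN hv, hcv]
          exact Or.inr ⟨by simp only; omega, by simp only; omega⟩
        have h3 := hp.2 v h2
        rw [h3, hcx] at hcv
        exact absurd hcv (by decide)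
      · omega
    · exact (row0_pendant rowS_shift C' T.R.max H hyN hj hxN hp.1 hp.2 (by rw [hcx])
        (by rw [hcx]; norm_num)).elim

end

/-- the chart of a stair -/
lemma exists_StR (h : Wd.NJ P r 6) (C : Cp.Comp 6 (t : P) lo hi e) (S : StairShape 6 lo hi)
    (h3 : lo 3 = 0) : ∃ Nc co, StR t lo hi e Nc co := by
  obtain ⟨Nc, co, R, hco⟩ := exists_stair' C h.g.H h.g.good h.g.H.gradedBelow S (i := 3)
    (by norm_num) h3
  exact ⟨Nc, co, S, h3, R, hco⟩

/-- the pendants of level 7 -/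
noncomputable def Yp (t : Tops P) : Finset P := by
  classical exact univ.filter (fun y => y ≤ (t : P) ∧ lev y = 7 ∧ ∃ x, Pend y x)

lemma mem_Yp {y : P} : y ∈ Yp t ↔ y ≤ (t : P) ∧ lev y = 7 ∧ ∃ x, Pend y x := by
  classical
  unfold Yp
  simp

/-- **stair-like components**, both stages -/
theorem tdStair (h : Wd.NJ P r 6) (C : Cp.Comp 6 (t : P) lo hi e) (S : StairShape 6 lo hi)
    (h3 : lo 3 = 0) (n : ℕ) {m : ℕ} (hm : m ≤ 13) (G : ℕ → P → Prop) :
    ∃ Y θ B, TD6 t (hi 3 - lo 3 + 1) n m Y θ B G := by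
  classical
  obtain ⟨Nc, co, T⟩ := exists_StR h C S h3
  have H := h.g.H
  have hR := T.R.natTop H.gradedBelow (by norm_num) (by norm_num)
  have e3 := S.hi 3 (by norm_num)
  norm_num at e3
  have hsub : ∀ x, x ∈ lowPart 6 (t : P) ∪ Yp t → x ∈ natS Nc co := by
    intro x hx
    rcases mem_union.mp hx with hx | hx
    · exact mem_natS.mpr (Or.inl (T.R.strip hx))
    · obtain ⟨h1, h2, v, hv⟩ := mem_Yp.mp hx
      exact (T.pend_nat h C h1 h2 hv).1
  refine ⟨Yp t, thS 3 Nc co, fun x => x ∈ Nc ∧ co x = (2 * (3 / 2), 3), ?_⟩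
  constructor
  · omega
  · exact fun y hy => (mem_Yp.mp hy).2.1
  · exact fun y hy => (mem_Yp.mp hy).1
  · intro z hz hl hzY k hk _
    left
    rcases T.c7 h C hz hl hk with h2 | ⟨h2, -⟩
    · omega
    · exact absurd (mem_Yp.mpr ⟨hz, hl, h2⟩) hzY
  · intro y hy
    obtain ⟨hyt, hyl, x, hp⟩ := mem_Yp.mp hy
    obtain ⟨o4, o5, o6⟩ := one7 hyl
    rw [(T.pend_nat h C hyt hyl hp).2]
    have h4 := cK_ge (k := 4 + 1) hyl o4 o5 o6
    norm_num at h4 ⊢
    omega
  · intro N HN hlow hN θ' B' hθ hB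
    have h4 := compL_nat (n0 := n) HN hR (fun x hx => hsub x (by rw [← hN]; exact hx)) ?_ hθ hB
    · have h5 : hi 3 - lo 3 + 1 = 3 / 2 + 1 := by
        rw [e3, h3]
      rw [h5]
      exact h4
    · rintro x - ⟨hx, hcx⟩
      rw [hN, mem_union, mem_lowPart]
      refine Or.inl ⟨T.R.chart.le_t x hx, ?_⟩
      rw [T.R.chart.lev x hx, hcx]
      norm_num

end Pool.Agent.GaussPoset.J6

end

/-! From `Pool.Agent.W_448j6_h22.KaJ` -/

section

/-!
Level 6: the late words with two elements on the level 3, coded (MP_448cb3_co, `j = 6`).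
-/

namespace Pool.Agent.GaussPoset.J6

set_option linter.unusedSectionVars false

open Polynomial Finset Dd J8 J10 Wd Cl

universe u

/-- the words of level 6 -/
def wE : List Ltr := [OC, CO, CO]

/-- the words of level 6 -/
def wA : List Ltr := [OC, OO, CO]

/-- the words of level 6 -/
def wB : List Ltr := [OC, OO, OO]

lemma late6_words : ∀ w ∈ lateW 3, w.length = 3 → w = wE ∨ w = wA ∨ w = wB := by
  decide +kernel

/-! ### a coded strip, the cells in any order -/

/-- the check of a strip with `n` cells, levels at most `J` -/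
def stChk (n J : ℕ) (los his ll sl cv : ℕ → ℕ) : Bool :=
  ((List.range n).all fun a => (List.range n).all fun b => (cv a).testBit b ==
    (Nat.beq (ll b + 1) (ll a) && (Nat.beq (sl b) (sl a) || Nat.beq (sl b + 1) (sl a)))) &&
  ((List.range n).all fun a => (List.range n).all fun b =>
    !(Nat.beq (ll a) (ll b) && Nat.beq (sl a) (sl b)) || Nat.beq a b) &&
  ((List.range n).all fun a => Nat.ble (ll a) J && Nat.ble (los (ll a)) (sl a) &&
    Nat.ble (sl a) (his (ll a))) &&
  ((List.range (J + 1)).all fun k => (List.range (his k + 1)).all fun s => Nat.blt s (los k) ||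
    (List.range n).any fun a => Nat.beq (ll a) k && Nat.beq (sl a) s)

section

variable {P : Type u} [Fintype P] [PartialOrder P] [DecidableEq P]
variable {r j n : ℕ} {t : P} {lo hi : ℕ → ℕ} {e : ℕ → ℕ → P}
variable {los his ll sl cv : ℕ → ℕ}

/-- the strip of a component is coded -/
theorem st_cod (h : stChk n j los his ll sl cv = true) (C : Cp.Comp j t lo hi e) (H : Gr P r)
    (hg : ∀ l, l < j → Win.Good P l) (ht : lev t = 0)
    (hlo : ∀ k, k ≤ j → lo k = los k) (hhi : ∀ k, k ≤ j → hi k = his k) :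
    Cod n cv ll (fun a => e (ll a) (sl a)) ∧
      ∀ x, x ∈ lowPart j t ↔ ∃ a < n, e (ll a) (sl a) = x := by
  unfold stChk at h
  simp only [Bool.and_eq_true, List.all_eq_true, List.mem_range] at h
  obtain ⟨⟨⟨h1, h2⟩, h3⟩, h4⟩ := h
  have hlev : ∀ a < n, ll a ≤ j := fun a ha => ble_iff.mp (h3 a ha).1.1
  have hrow : ∀ a < n, lo (ll a) ≤ sl a ∧ sl a ≤ hi (ll a) := fun a ha => by
    rw [hlo _ (hlev a ha), hhi _ (hlev a ha)]
    exact ⟨ble_iff.mp (h3 a ha).1.2, ble_iff.mp (h3 a ha).2⟩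
  have hl : ∀ a < n, GaussPoset.lev (e (ll a) (sl a)) = ll a := fun a ha =>
    C.lev_e _ _ (hlev a ha) (hrow a ha).1 (hrow a ha).2
  have hcov : ∀ a < n, ∀ b < n, (cv a).testBit b = true ↔
      (ll b + 1 = ll a ∧ (sl b = sl a ∨ sl b + 1 = sl a)) := by
    intro a ha b hb
    have := h1 a ha b hb
    rw [beq_iff_eq] at this
    rw [this, Bool.and_eq_true, Bool.or_eq_true, beq_iff, beq_iff, beq_iff]
  have hsurj : ∀ k ≤ j, ∀ s, los k ≤ s → s ≤ his k → ∃ a < n, ll a = k ∧ sl a = s := by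
    intro k hk s hs1 hs2
    have := h4 k (by omega) s (by omega)
    rw [Bool.or_eq_true, List.any_eq_true] at this
    rcases this with h7 | ⟨a, ha, h7⟩
    · rw [Nat.blt_eq] at h7
      omega
    · rw [Bool.and_eq_true, beq_iff, beq_iff] at h7
      exact ⟨a, List.mem_range.mp ha, h7.1, h7.2⟩
  refine ⟨⟨?_, ?_, hl⟩, ?_⟩
  · intro a ha b hb hab
    have e1 : ll a = ll b := by
      rw [← hl a ha, ← hl b hb]
      exact congrArg GaussPoset.lev hab
    have h5 := hrow a ha
    have h6 := hrow b hb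
    have h7 := hlev b hb
    have e2 : sl a = sl b := by
      rw [e1] at h5
      refine C.inj (ll b) _ _ h7 h5.1 h5.2 h6.1 h6.2 ?_
      have hab' : e (ll a) (sl a) = e (ll b) (sl b) := hab
      rwa [e1] at hab'
    have := h2 a ha b hb
    rw [beq_iff.mpr e1, beq_iff.mpr e2] at this
    exact beq_iff.mp (by simpa using this)
  · intro a ha y
    have h5 := hrow a ha
    have h6 := hlev a ha
    constructor
    · intro hy
      have h0 : 1 ≤ ll a := by
        rw [← hl a ha]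
        have := lev_strictAnti hy.1
        omega
      obtain ⟨k, hk⟩ : ∃ k, ll a = k + 1 := ⟨ll a - 1, by omega⟩
      rw [hk] at hy h5
      obtain ⟨s', g1, g2, g3, g4⟩ := C.cov_up H hg ht (by omega) h5.1 h5.2 hy
      obtain ⟨b, hb, g5, g6⟩ := hsurj k (by omega) s' (by rw [← hlo k (by omega)]; exact g1)
        (by rw [← hhi k (by omega)]; exact g2)
      refine ⟨b, hb, ?_, ?_⟩
      · rw [hcov a ha b hb]
        omega
      · rw [g5, g6, g3]
    · rintro ⟨b, hb, g1, rfl⟩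
      rw [hcov a ha b hb] at g1
      have g2 := hrow b hb
      have g3 := C.cov (ll b) (sl a) (sl b) (by omega) (by rw [g1.1]; exact h5.1)
        (by rw [g1.1]; exact h5.2) g2.1 g2.2
      rw [g1.1] at g3
      exact g3.mpr g1.2
  · intro x
    constructor
    · intro hx
      rw [mem_lowPart] at hx
      obtain ⟨s, g1, g2, g3⟩ := C.surj x hx.1 hx.2
      obtain ⟨a, ha, g4, g5⟩ := hsurj (GaussPoset.lev x) hx.2 s (by rw [← hlo _ hx.2]; exact g1)
        (by rw [← hhi _ hx.2]; exact g2)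
      exact ⟨a, ha, by rw [g4, g5, g3]⟩
    · rintro ⟨a, ha, rfl⟩
      rw [mem_lowPart, hl a ha]
      exact ⟨C.le_t _ _ (hlev a ha) (hrow a ha).1 (hrow a ha).2, hlev a ha⟩

end

/-! ### the three words -/

/-- the levels of the cells -/
def Wlv : List ℕ := [0, 1, 2, 3, 3, 4, 4, 5, 5, 6, 6, 5, 6, 6]

/-- the coordinates of the cells -/
def Wsl : List ℕ := [0, 0, 0, 0, 1, 0, 1, 1, 2, 2, 3, 0, 1, 0]

/-- the covers of the cells -/
def Wcv : List ℕ := [0, 1, 2, 4, 4, 8, 24, 96, 64, 384, 256, 32, 2176, 2048]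

/-- the cells above -/
def Wum : List ℕ := [1, 3, 7, 15, 23, 47, 95, 255, 351, 1023, 1375, 2095, 6399, 10287]

/-- the left ends -/
def Wlo (n : ℕ) : List ℕ :=
  if n = 11 then [0, 0, 0, 0, 0, 1, 2] else if n = 13 then [0, 0, 0, 0, 0, 0, 1] else
    [0, 0, 0, 0, 0, 0, 0]

/-- the right ends -/
def Whi : List ℕ := [0, 0, 0, 1, 1, 2, 3]

/-- the rows of the word with `n` cells -/
structure Rw (n : ℕ) (lo hi : ℕ → ℕ) : Prop where
  hn : n = 11 ∨ n = 13 ∨ n = 14
  hlo : ∀ k, k ≤ 6 → lo k = (Wlo n).getD k 0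
  hhi : ∀ k, k ≤ 6 → hi k = Whi.getD k 0

/-- the cells -/
def cW {P : Type u} (e : ℕ → ℕ → P) (a : ℕ) : P := e (Wlv.getD a 0) (Wsl.getD a 0)

section

variable {P : Type u} [Fintype P] [PartialOrder P] [DecidableEq P]
variable {r n : ℕ} {t : Tops P} {lo hi : ℕ → ℕ} {e : ℕ → ℕ → P}

lemma rows_tab : ∀ p ∈ [(11, wE), (13, wA), (14, wB)], ∀ k < 7,
    losW 3 p.2 k = (Wlo p.1).getD k 0 ∧ hisW 3 p.2 k = Whi.getD k 0 := by decide +kernel

/-- the rows of a late word -/
theorem exists_rw (C : Cp.Comp 6 (t : P) lo hi e) (h2 : ∀ k, k < 3 → lo k = 0 ∧ hi k = 0)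
    (h3 : lo 3 = 0 ∧ hi 3 = 1) (h4 : word lo hi 3 (6 - 3) ∈ lateW 3) : ∃ n, Rw n lo hi := by
  have key : ∀ n w, (n, w) ∈ [(11, wE), (13, wA), (14, wB)] → word lo hi 3 (6 - 3) = w →
      ∃ n, Rw n lo hi := by
    intro n w hp hw
    have hl : w.length = 3 := by rw [← hw, word_length]
    have D : WordD 6 3 w lo hi := ⟨h2, h3, by rw [hw, show 6 - 3 = w.length by omega,
      List.take_length]⟩
    obtain ⟨r1, r2⟩ := D.rows C
    refine ⟨n, ?_, ?_, ?_⟩
    · simp only [List.mem_cons, Prod.mk.injEq, List.not_mem_nil, or_false] at hp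
      omega
    · intro k hk
      rw [r1 k hk]
      exact (rows_tab (n, w) hp k (by omega)).1
    · intro k hk
      rw [r2 k hk]
      exact (rows_tab (n, w) hp k (by omega)).2
  rcases late6_words _ h4 (by rw [word_length]) with h5 | h5 | h5
  · exact key 11 wE (by simp) h5
  · exact key 13 wA (by simp) h5
  · exact key 14 wB (by simp) h5

lemma st_tab : ∀ n ∈ [11, 13, 14], stChk n 6 (fun k => (Wlo n).getD k 0)
    (fun k => Whi.getD k 0) (fun a => Wlv.getD a 0) (fun a => Wsl.getD a 0)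
    (fun a => Wcv.getD a 0) = true := by decide +kernel

lemma Rw.mem (R : Rw n lo hi) : n ∈ [11, 13, 14] := by
  rcases R.hn with h | h | h <;> rw [h] <;> simp

/-- the strip is coded -/
theorem Rw.cod (R : Rw n lo hi) (h : Wd.NJ P r 6) (C : Cp.Comp 6 (t : P) lo hi e) :
    Cod n (fun a => Wcv.getD a 0) (fun a => Wlv.getD a 0) (cW e) ∧
      ∀ x, x ∈ lowPart 6 (t : P) ↔ ∃ a < n, cW e a = x :=
  st_cod (st_tab n R.mem) C h.g.H h.g.good t.2 R.hlo R.hhi

end

end Pool.Agent.GaussPoset.J6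

end

/-! From `Pool.Agent.W_448j6_h22.KaK` -/

section

/-!
Level 6: the elements of level 7 below a late word, their masks (MP_448cb3_co, `j = 6`).
-/

namespace Pool.Agent.GaussPoset.J6

set_option linter.unusedSectionVars false

open Polynomial Finset Dd J8 J10 Wd Cl

universe u

section

variable {P : Type u} [Fintype P] [PartialOrder P] [DecidableEq P]
variable {N J0 : ℕ} {cv lv um : ℕ → ℕ} {c : ℕ → P}

/-- the number of elements of a level above an element whose covers are coded -/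
theorem nab_of (C : CodM N J0 cv lv c) (hcv : ∀ a < N, cv a < 2 ^ a)
    (hum : ∀ a < N, um a = Nat.lor (2 ^ a) (orM um N (cv a))) {z : P} {m : ℕ}
    (hm : Sm m J0) (hz : Cvs c m z) {l : ℕ} (hl : l < GaussPoset.lev z) :
    nab l z = ((range N).filter (fun b => ((orM um N m).testBit b = true ∧
      J0.testBit b = true) ∧ lv b = l)).card := by
  classical
  have hlt : ∀ y, z < y ↔ ∃ b, ((orM um N m).testBit b = true ∧ J0.testBit b = true) ∧
      c b = y := by
    intro y
    constructor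
    · intro h
      obtain ⟨v, hv, hvy⟩ := Hul.exists_cov h
      obtain ⟨a, hab, rfl⟩ := (hz v).mp hv
      obtain ⟨b, hb, rfl⟩ := C.above (hm a hab) hvy
      exact ⟨b, ⟨(orM_testBit _ _ _ _).mpr ⟨a, bit_lt C.lt (hm a hab), hab,
        (C.le_iff hcv hum (hm a hab) hb).mp hvy⟩, hb⟩, rfl⟩
    · rintro ⟨b, ⟨hbit, hb⟩, rfl⟩
      obtain ⟨a, ha, hab, h1⟩ := (orM_testBit _ _ _ _).mp hbit
      exact ((hz (c a)).mpr ⟨a, hab, rfl⟩).lt.trans_le ((C.le_iff hcv hum (hm a hab) hb).mpr h1)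
  unfold nab
  symm
  refine Finset.card_bij (fun b _ => c b) ?_ ?_ ?_
  · intro b hb
    rw [mem_filter, mem_range] at hb
    rw [mem_filter, mem_lv, C.lev b hb.2.1.2]
    exact ⟨hb.2.2, ((hlt _).mpr ⟨b, hb.2.1, rfl⟩).le⟩
  · intro b hb b' hb' h
    rw [mem_filter, mem_range] at hb hb'
    exact C.inj b hb.2.1.2 b' hb'.2.1.2 h
  · intro y hy
    rw [mem_filter, mem_lv] at hy
    have hne : z < y := lt_of_le_of_ne hy.2 (by
      rintro rfl
      omega)
    obtain ⟨b, hb, rfl⟩ := (hlt y).mp hne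
    refine ⟨b, mem_filter.mpr ⟨mem_range.mpr (bit_lt C.lt hb.2), hb, ?_⟩, rfl⟩
    rw [← C.lev b hb.2]
    exact hy.1

end

/-- the number of cells of the level `l` above the cells of `μ` -/
def cn (n μ l : ℕ) : ℕ :=
  ((range 14).filter (fun b => ((orM (fun a => Wum.getD a 0) 14 μ).testBit b = true ∧
    (2 ^ n - 1).testBit b = true) ∧ Wlv.getD b 0 = l)).card

/-- the cost of an element of level 7 with the mask `μ` and the label `k` -/
def cc (k n μ : ℕ) : ℕ :=
  min k 1 * cn n μ 4 + min k 2 * cn n μ 5 + min k 3 * cn n μ 6 + min k 4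

/-- the masks of the possible elements of level 7 -/
def mL (n : ℕ) : List ℕ :=
  if n = 11 then [1024, 512, 1536] else if n = 13 then [1024, 512, 4096, 1536, 4608] else
    [1024, 512, 4096, 8192, 1536, 4608, 12288, 9216]

section

variable {P : Type u} [Fintype P] [PartialOrder P] [DecidableEq P]
variable {r n : ℕ} {t : Tops P} {lo hi : ℕ → ℕ} {e : ℕ → ℕ → P}

lemma W_lt : ∀ a < 14, Wcv.getD a 0 < 2 ^ a := by decide +kernel

lemma W_um : ∀ a < 14, Wum.getD a 0 =
    Nat.lor (2 ^ a) (orM (fun a => Wum.getD a 0) 14 (Wcv.getD a 0)) := by decide +kernel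

lemma Rw.le14 (R : Rw n lo hi) : n ≤ 14 := by
  rcases R.hn with h | h | h <;> omega

lemma Rw.ge11 (R : Rw n lo hi) : 11 ≤ n := by
  rcases R.hn with h | h | h <;> omega

/-- the code of the strip -/
theorem Rw.base (R : Rw n lo hi) (h : Wd.NJ P r 6) (C : Cp.Comp 6 (t : P) lo hi e) :
    CodM 14 (2 ^ n - 1) (fun a => Wcv.getD a 0) (fun a => Wlv.getD a 0) (cW e) := by
  obtain ⟨h1, h2⟩ := R.cod h C
  exact (Cx.ofCod h1 R.le14 (fun _ _ => rfl) (fun _ _ => rfl)
    (fun a ha => W_lt a (by have := R.le14; omega)) h2).cod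

lemma two_bit {n a : ℕ} : (2 ^ n - 1).testBit a = true ↔ a < n := by
  rw [Nat.testBit_two_pow_sub_one]
  simp

lemma sm_lt {μ n : ℕ} (h : μ < 2 ^ n) : Sm μ (2 ^ n - 1) := fun a ha =>
  two_bit.mpr (bit_lt h ha)

/-- the numbers of elements above an element with the mask `μ` -/
theorem Rw.nab (R : Rw n lo hi) (h : Wd.NJ P r 6) (C : Cp.Comp 6 (t : P) lo hi e) {z : P}
    {μ : ℕ} (hl : lev z = 7) (hμ : μ < 2 ^ n) (hz : Cvs (cW e) μ z) {l : ℕ} (h6 : l ≤ 6) :
    GaussPoset.nab l z = cn n μ l :=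
  nab_of (R.base h C) W_lt W_um (sm_lt hμ) hz (by omega)

/-- the cost of an element with the mask `μ` -/
theorem Rw.cost (R : Rw n lo hi) (h : Wd.NJ P r 6) (C : Cp.Comp 6 (t : P) lo hi e) {z : P}
    {μ : ℕ} (hl : lev z = 7) (hμ : μ < 2 ^ n) (hz : Cvs (cW e) μ z) (k : ℕ) :
    cK k z = cc k n μ := by
  have h7 : GaussPoset.nab 7 z = 1 := by
    have := nab_self (z := z)
    rwa [hl] at this
  unfold cK cc
  rw [R.nab h C hl hμ hz (by norm_num), R.nab h C hl hμ hz (by norm_num),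
    R.nab h C hl hμ hz le_rfl, h7, Nat.mul_one]

/-- the mask of a pendant -/
lemma cvs_one {z : P} {a : ℕ} (hz : Pend z (cW e a)) : Cvs (cW e) (2 ^ a) z := by
  intro y
  constructor
  · intro hy
    exact ⟨a, Nat.testBit_two_pow_self, (hz.2 y hy).symm⟩
  · rintro ⟨b, hb, rfl⟩
    have h5 : a = b := by
      by_contra hne
      rw [Nat.testBit_two_pow_of_ne hne] at hb
      exact absurd hb (by simp)
    rw [← h5]
    exact hz.1

/-- the mask of an element with two covers -/
lemma cvs_two {z : P} {a b : ℕ} (ha : z ⋖ cW e a) (hb : z ⋖ cW e b)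
    (h : ∀ y, z ⋖ y → y = cW e a ∨ y = cW e b) : Cvs (cW e) (Nat.lor (2 ^ a) (2 ^ b)) z := by
  intro y
  constructor
  · intro hy
    rcases h y hy with h1 | h1
    · exact ⟨a, bit_lor.mpr (Or.inl Nat.testBit_two_pow_self), h1.symm⟩
    · exact ⟨b, bit_lor.mpr (Or.inr rfl), h1.symm⟩
  · rintro ⟨d, hd, rfl⟩
    rcases bit_lor.mp hd with h1 | h1
    · have h5 : a = d := by
        by_contra hne
        rw [Nat.testBit_two_pow_of_ne hne] at h1
        exact absurd h1 (by simp)
      rw [← h5]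
      exact ha
    · rw [h1]
      exact hb

lemma cW13 : cW e 13 = e 6 0 := rfl

lemma cW12 : cW e 12 = e 6 1 := rfl

lemma cW9 : cW e 9 = e 6 2 := rfl

lemma cW10 : cW e 10 = e 6 3 := rfl

/-- the values of the rows -/
lemma Rw.vals (R : Rw n lo hi) : hi 5 = 2 ∧ hi 6 = 3 ∧ ((n = 11 ∧ lo 5 = 1 ∧ lo 6 = 2) ∨
    (n = 13 ∧ lo 5 = 0 ∧ lo 6 = 1) ∨ (n = 14 ∧ lo 5 = 0 ∧ lo 6 = 0)) := by
  refine ⟨R.hhi 5 (by norm_num), R.hhi 6 le_rfl, ?_⟩
  have l5 := R.hlo 5 (by norm_num)
  have l6 := R.hlo 6 le_rfl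
  rcases R.hn with h | h | h
  · left
    rw [h] at l5 l6
    exact ⟨h, l5, l6⟩
  · right; left
    rw [h] at l5 l6
    exact ⟨h, l5, l6⟩
  · right; right
    rw [h] at l5 l6
    exact ⟨h, l5, l6⟩

/-- **The masks of the elements of level 7.** -/
theorem Rw.mask (R : Rw n lo hi) (h : Wd.NJ P r 6) (C : Cp.Comp 6 (t : P) lo hi e) {z : P}
    (hz : z ≤ (t : P)) (hl : lev z = 7) : ∃ μ ∈ mL n, Cvs (cW e) μ z := by
  obtain ⟨v5, v6, hv⟩ := R.vals
  rcases own7 h C hz hl with ⟨s, s1, s2, hp⟩ | ⟨a, b, a1, a2, a3, ha, hb, hab, hc⟩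
  · have key : ∀ k, cW e k = e 6 s → Cvs (cW e) (2 ^ k) z := fun k hk => by
      rw [← hk] at hp
      exact cvs_one hp
    rcases (show s = 0 ∨ s = 1 ∨ s = 2 ∨ s = 3 by omega) with rfl | rfl | rfl | rfl
    · rcases hv with ⟨-, -, h6⟩ | ⟨-, -, h6⟩ | ⟨hn, -, h6⟩
      · omega
      · omega
      · exact ⟨8192, by rw [hn]; decide, key 13 cW13⟩
    · rcases hv with ⟨-, -, h6⟩ | ⟨hn, -, h6⟩ | ⟨hn, -, h6⟩
      · omega
      · exact ⟨4096, by rw [hn]; decide, key 12 cW12⟩
      · exact ⟨4096, by rw [hn]; decide, key 12 cW12⟩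
    · rcases hv with ⟨hn, -, h6⟩ | ⟨hn, -, h6⟩ | ⟨hn, -, h6⟩
      · exact ⟨512, by rw [hn]; decide, key 9 cW9⟩
      · exact ⟨512, by rw [hn]; decide, key 9 cW9⟩
      · exact ⟨512, by rw [hn]; decide, key 9 cW9⟩
    · rcases hv with ⟨hn, -, h6⟩ | ⟨hn, -, h6⟩ | ⟨hn, -, h6⟩
      · exact ⟨1024, by rw [hn]; decide, key 10 cW10⟩
      · exact ⟨1024, by rw [hn]; decide, key 10 cW10⟩
      · exact ⟨1024, by rw [hn]; decide, key 10 cW10⟩
  · have key : ∀ k k', cW e k = e 6 a → cW e k' = e 6 b →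
        Cvs (cW e) (Nat.lor (2 ^ k) (2 ^ k')) z := fun k k' hk hk' => by
      rw [← hk] at ha hab
      rw [← hk'] at hb hab
      exact cvs_two ha hb hab
    have h02 : ¬ (a = 0 ∧ b = 2) := by omega
    have h13 : ¬ (a = 1 ∧ b = 3) := by
      rintro ⟨rfl, rfl⟩
      rcases hc with hc | ⟨hc1, -, hc2, -⟩
      · omega
      · have h6 : lo 5 = 0 := by omega
        have h7 : (Win.uc (e 6 1)).card = 2 := double6 h C a1 (by omega) (by omega) (by omega)
        rw [← hc1] at hc2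
        omega
    rcases (show (a = 0 ∧ b = 1) ∨ (a = 1 ∧ b = 2) ∨ (a = 2 ∧ b = 3) ∨ (a = 0 ∧ b = 3) by omega)
      with ⟨rfl, rfl⟩ | ⟨rfl, rfl⟩ | ⟨rfl, rfl⟩ | ⟨rfl, rfl⟩
    · rcases hv with ⟨-, -, h6⟩ | ⟨-, -, h6⟩ | ⟨hn, -, h6⟩
      · omega
      · omega
      · exact ⟨12288, by rw [hn]; decide, key 13 12 cW13 cW12⟩
    · rcases hv with ⟨-, -, h6⟩ | ⟨hn, -, h6⟩ | ⟨hn, -, h6⟩
      · omega
      · exact ⟨4608, by rw [hn]; decide, key 12 9 cW12 cW9⟩
      · exact ⟨4608, by rw [hn]; decide, key 12 9 cW12 cW9⟩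
    · rcases hv with ⟨hn, -, h6⟩ | ⟨hn, -, h6⟩ | ⟨hn, -, h6⟩
      · exact ⟨1536, by rw [hn]; decide, key 9 10 cW9 cW10⟩
      · exact ⟨1536, by rw [hn]; decide, key 9 10 cW9 cW10⟩
      · exact ⟨1536, by rw [hn]; decide, key 9 10 cW9 cW10⟩
    · rcases hv with ⟨-, -, h6⟩ | ⟨-, -, h6⟩ | ⟨hn, -, h6⟩
      · omega
      · omega
      · exact ⟨9216, by rw [hn]; decide, key 13 10 cW13 cW10⟩

lemma mL_lt : ∀ n ∈ [11, 13, 14], ∀ μ ∈ mL n, μ < 2 ^ n := by decide +kernel

/-- the masks determine the elements above -/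
lemma cvs_inj (R : Rw n lo hi) (h : Wd.NJ P r 6) (C : Cp.Comp 6 (t : P) lo hi e) {z : P}
    {μ μ' : ℕ} (h1 : μ < 2 ^ n) (h2 : μ' < 2 ^ n) (hz : Cvs (cW e) μ z)
    (hz' : Cvs (cW e) μ' z) : μ = μ' := by
  have key : ∀ μ μ', μ < 2 ^ n → μ' < 2 ^ n → Cvs (cW e) μ z → Cvs (cW e) μ' z → ∀ a,
      μ.testBit a = true → μ'.testBit a = true := by
    intro μ μ' h1 h2 hz hz' a ha
    obtain ⟨b, hb, hab⟩ := (hz' _).mp ((hz _).mpr ⟨a, ha, rfl⟩)
    have := (R.base h C).inj b (sm_lt h2 b hb) a (sm_lt h1 a ha) hab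
    rw [← this]
    exact hb
  refine Nat.eq_of_testBit_eq fun a => ?_
  rw [Bool.eq_iff_iff]
  exact ⟨key μ μ' h1 h2 hz hz' a, key μ' μ h2 h1 hz' hz a⟩

end

end Pool.Agent.GaussPoset.J6

end

/-! From `Pool.Agent.W_448j6_h22.KaL` -/

section

/-!
Level 6: the words with elements of level 7, coded (MP_448cb3_co, `j = 6`).
-/

namespace Pool.Agent.GaussPoset.J6

set_option linter.unusedSectionVars false

open Polynomial Finset Dd J8 J10 Wd Cl Sg

universe u

section

variable {P : Type u} [Fintype P] [PartialOrder P] [DecidableEq P]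
variable {r n : ℕ} {t : Tops P} {lo hi : ℕ → ℕ} {e : ℕ → ℕ → P}

/-- the elements of level 7 with the mask `μ` -/
noncomputable def tY (n : ℕ) (e : ℕ → ℕ → P) (μ : ℕ) : Finset P := by
  classical exact univ.filter (fun z => lev z = 7 ∧ μ < 2 ^ n ∧ Cvs (cW e) μ z)

lemma mem_tY {μ : ℕ} {z : P} : z ∈ tY n e μ ↔ lev z = 7 ∧ μ < 2 ^ n ∧ Cvs (cW e) μ z := by
  classical
  unfold tY
  simp

lemma tY_card (H : Gr P r) {μ a : ℕ} (ha : μ.testBit a = true) : (tY n e μ).card ≤ 2 := by
  classical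
  refine (Finset.card_le_card ?_).trans (Win.dc_card_le H (cW e a))
  intro z hz
  rw [Win.mem_dc]
  exact ((mem_tY.mp hz).2.2 _).mpr ⟨a, ha, rfl⟩

/-- the natural elements of level 7 -/
noncomputable def YW (n : ℕ) (e : ℕ → ℕ → P) (m1 m2 m3 : ℕ) : Finset P :=
  tY n e m1 ∪ (tY n e m2 ∪ tY n e m3)

lemma mem_YW {m1 m2 m3 : ℕ} {z : P} : z ∈ YW n e m1 m2 m3 ↔ ∃ μ, (μ = m1 ∨ μ = m2 ∨ μ = m3) ∧
    z ∈ tY n e μ := by
  unfold YW
  rw [mem_union, mem_union]
  constructor
  · rintro (h | h | h)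
    · exact ⟨m1, Or.inl rfl, h⟩
    · exact ⟨m2, Or.inr (Or.inl rfl), h⟩
    · exact ⟨m3, Or.inr (Or.inr rfl), h⟩
  · rintro ⟨μ, rfl | rfl | rfl, h⟩
    · exact Or.inl h
    · exact Or.inr (Or.inl h)
    · exact Or.inr (Or.inr h)

/-- the code of a stage extends the code of the strip -/
structure Stg (cv lv : ℕ → ℕ) (m1 m2 m3 : ℕ) : Prop where
  cv0 : ∀ a < 14, cv a = Wcv.getD a 0
  lv0 : ∀ a < 14, lv a = Wlv.getD a 0
  c1 : cv 14 = m1 ∧ cv 15 = m1
  c2 : cv 16 = m2 ∧ cv 17 = m2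
  c3 : cv 18 = m3 ∧ cv 19 = m3
  l7 : lv 14 = 7 ∧ lv 15 = 7 ∧ lv 16 = 7 ∧ lv 17 = 7 ∧ lv 18 = 7 ∧ lv 19 = 7
  ne : m1 ≠ m2 ∧ m1 ≠ m3 ∧ m2 ≠ m3
  lt : m1 < 2 ^ 14 ∧ m2 < 2 ^ 14 ∧ m3 < 2 ^ 14
  ex : (∃ a, m1.testBit a = true) ∧ (∃ a, m2.testBit a = true) ∧ ∃ a, m3.testBit a = true

variable {cv lv um th : ℕ → ℕ} {m1 m2 m3 : ℕ}

/-- one type of cells is added -/
theorem insT {J : ℕ} {c : ℕ → P} {S : Finset P} (C : Cx 20 J cv lv c S) (H : Gr P r)
    (hJ : ∀ a < n, J.testBit a = true) (hc : ∀ a < n, c a = cW e a) {k k' μ : ℕ}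
    (hk : k < 20) (hk' : k' < 20) (hne : k ≠ k') (hkJ : J.testBit k = false)
    (hkJ' : J.testBit k' = false) (hm : cv k = μ) (hm' : cv k' = μ) (hl : lv k = 7)
    (hl' : lv k' = 7) (ha : ∃ a, μ.testBit a = true) (hS : ∀ z ∈ tY n e μ, z ∉ S) :
    ∃ (c' : ℕ → P) (J' : ℕ), (∀ a, J.testBit a = true → c' a = c a) ∧
      Cx 20 J' cv lv c' (S ∪ tY n e μ) ∧ (∀ a, J.testBit a = true → J'.testBit a = true) ∧
      ∀ a, J'.testBit a = true → J.testBit a = true ∨ a = k ∨ a = k' := by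
  classical
  by_cases hμ : μ < 2 ^ n
  · obtain ⟨a, ha⟩ := ha
    obtain ⟨c', J', h1, h2, h3⟩ := C.ins2 hk hk' hne hkJ hkJ' hm hm' hl hl'
      (fun a ha => hJ a (bit_lt hμ ha)) (T := tY n e μ) (tY_card H ha) hS
      (fun z hz => ⟨(mem_tY.mp hz).1, (mem_tY.mp hz).2.2.congr fun a ha => hc a (bit_lt hμ ha)⟩)
    refine ⟨c', J', h1, h2, ?_, ?_⟩
    · intro a ha
      rcases h3 with ⟨-, h3⟩ | ⟨z, -, h3, -⟩ | ⟨z, z', -, -, h3, -⟩
      · rw [h3]; exact ha
      · rw [h3]; exact bit_lor.mpr (Or.inl ha)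
      · rw [h3]; exact bit_lor.mpr (Or.inl (bit_lor.mpr (Or.inl ha)))
    · intro a ha
      rcases h3 with ⟨-, h3⟩ | ⟨z, -, h3, -⟩ | ⟨z, z', -, -, h3, -⟩
      · rw [h3] at ha
        exact Or.inl ha
      · rw [h3] at ha
        rcases bit_lor.mp ha with h4 | h4
        · exact Or.inl h4
        · exact Or.inr (Or.inl h4)
      · rw [h3] at ha
        rcases bit_lor.mp ha with h4 | h4
        · rcases bit_lor.mp h4 with h5 | h5
          · exact Or.inl h5
          · exact Or.inr (Or.inl h5)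
        · exact Or.inr (Or.inr h4)
  · have h1 : tY n e μ = ∅ := by
      rw [Finset.eq_empty_iff_forall_notMem]
      intro z hz
      exact hμ (mem_tY.mp hz).2.1
    refine ⟨c, J, fun _ _ => rfl, ?_, fun _ h => h, fun _ h => Or.inl h⟩
    rw [h1, Finset.union_empty]
    exact C

/-- **The code of a word with its natural elements of level 7.** -/
theorem exists_cx (T : Stg cv lv m1 m2 m3) (R : Rw n lo hi) (h : Wd.NJ P r 6)
    (C : Cp.Comp 6 (t : P) lo hi e) : ∃ (c : ℕ → P) (J : ℕ),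
      Cx 20 J cv lv c (lowPart 6 (t : P) ∪ YW n e m1 m2 m3) ∧
      (∀ a < n, J.testBit a = true ∧ c a = cW e a) ∧
      ∀ a, J.testBit a = true → a < n ∨ 14 ≤ a := by
  classical
  have hn := R.le14
  have hn' := R.ge11
  obtain ⟨h1, h2⟩ := R.cod h C
  have C0 : Cx 20 (2 ^ n - 1) cv lv (cW e) (lowPart 6 (t : P)) :=
    Cx.ofCod h1 (by omega) (fun a ha => T.cv0 a (by omega)) (fun a ha => T.lv0 a (by omega))
      (fun a ha => by rw [T.cv0 a (by omega)]; exact W_lt a (by omega)) h2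
  have f0 : ∀ k, n ≤ k → (2 ^ n - 1).testBit k = false := by
    intro k hk
    rw [Bool.eq_false_iff]
    intro hcon
    have := two_bit.mp hcon
    omega
  have hlow : ∀ μ, ∀ z ∈ tY n e μ, z ∉ lowPart 6 (t : P) := by
    intro μ z hz hz'
    have h3 := (mem_tY.mp hz).1
    have h4 := (mem_lowPart.mp hz').2
    omega
  have hdis : ∀ μ μ', μ ≠ μ' → ∀ z ∈ tY n e μ, z ∉ tY n e μ' := by
    intro μ μ' hne z hz hz'
    rw [mem_tY] at hz hz'
    exact hne (cvs_inj R h C hz.2.1 hz'.2.1 hz.2.2 hz'.2.2)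
  obtain ⟨c1, J1, g1, C1, k1, l1⟩ := insT C0 h.g.H (n := n) (e := e)
    (fun a ha => two_bit.mpr ha) (fun _ _ => rfl) (k := 14) (k' := 15) (by norm_num)
    (by norm_num) (by norm_num) (f0 _ (by omega)) (f0 _ (by omega)) T.c1.1 T.c1.2 T.l7.1
    T.l7.2.1 T.ex.1 (hlow m1)
  have f1 : ∀ k, 16 ≤ k → J1.testBit k = false := by
    intro k hk
    rw [Bool.eq_false_iff]
    intro hcon
    rcases l1 k hcon with h3 | h3 | h3
    · rw [f0 k (by omega)] at h3
      exact absurd h3 (by simp)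
    · omega
    · omega
  obtain ⟨c2, J2, g2, C2, k2, l2⟩ := insT C1 h.g.H (n := n) (e := e)
    (fun a ha => k1 a (two_bit.mpr ha)) (fun a ha => g1 a (two_bit.mpr ha)) (k := 16) (k' := 17)
    (by norm_num) (by norm_num) (by norm_num) (f1 _ (by omega)) (f1 _ (by omega)) T.c2.1 T.c2.2
    T.l7.2.2.1 T.l7.2.2.2.1 T.ex.2.1 (fun z hz => by
      rw [mem_union, not_or]
      exact ⟨hlow m2 z hz, hdis m2 m1 T.ne.1.symm z hz⟩)
  have f2 : ∀ k, 18 ≤ k → J2.testBit k = false := by
    intro k hk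
    rw [Bool.eq_false_iff]
    intro hcon
    rcases l2 k hcon with h3 | h3 | h3
    · rw [f1 k (by omega)] at h3
      exact absurd h3 (by simp)
    · omega
    · omega
  obtain ⟨c3, J3, g3, C3, k3, l3⟩ := insT C2 h.g.H (n := n) (e := e)
    (fun a ha => k2 a (k1 a (two_bit.mpr ha)))
    (fun a ha => (g2 a (k1 a (two_bit.mpr ha))).trans (g1 a (two_bit.mpr ha)))
    (k := 18) (k' := 19)
    (by norm_num) (by norm_num) (by norm_num) (f2 _ (by omega)) (f2 _ (by omega)) T.c3.1 T.c3.2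
    T.l7.2.2.2.2.1 T.l7.2.2.2.2.2 T.ex.2.2 (fun z hz => by
      rw [mem_union, mem_union, not_or, not_or]
      exact ⟨⟨hlow m3 z hz, hdis m3 m1 T.ne.2.1.symm z hz⟩, hdis m3 m2 T.ne.2.2.symm z hz⟩)
  refine ⟨c3, J3, ?_, ?_, ?_⟩
  · unfold YW
    rw [← Finset.union_assoc, ← Finset.union_assoc]
    exact C3
  · intro a ha
    have q := two_bit.mpr ha
    exact ⟨k3 a (k2 a (k1 a q)), (g3 a (k2 a (k1 a q))).trans ((g2 a (k1 a q)).trans (g1 a q))⟩
  · intro a ha
    rcases l3 a ha with h3 | h3 | h3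
    · rcases l2 a h3 with h4 | h4 | h4
      · rcases l1 a h4 with h5 | h5 | h5
        · exact Or.inl (two_bit.mp h5)
        · omega
        · omega
      · omega
      · omega
    · omega
    · omega

/-- the facts of a certificate -/
structure Cert (cv lv um th : ℕ → ℕ) (Us : List ℕ) (L : List Ent) (w : ℕ) : Prop where
  us : UsOK 20 cv Us
  pol : polD 20 (2 ^ 80) 12 Us 3 (L.map Prod.snd) = true
  mst : mstC 20 12 3 lv Us 1375 L = true
  th : thChk 20 3 10 lv cv um th = true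
  bm : bmC 20 3 10 1375 lv um = true
  rch : ∀ y ∈ L, w ≤ rch y

/-- the tables of the costs -/
structure Tab (cv th : ℕ → ℕ) (m1 m2 m3 m : ℕ) (bad : List ℕ) : Prop where
  t7 : ∀ n ∈ [11, 13, 14], ∀ μ ∈ mL n, (μ = m1 ∨ μ = m2 ∨ μ = m3) ∨ μ ∈ bad ∨
    ∀ b < 14, μ.testBit b = true → (∀ b' < 14, μ.testBit b' = true → th b ≤ th b') →
      m ≤ cc (th b + 1) n μ
  t8 : ∀ n ∈ [11, 13, 14], ∀ a < 20, 14 ≤ a → cv a < 2 ^ n →
    m ≤ cc (th a + 1) n (cv a) + min (th a + 1) 5

end

end Pool.Agent.GaussPoset.J6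

end

/-! From `Pool.Agent.W_448j6_h22.KaM` -/

section

/-!
Level 6: the data of the words (MP_448cb3_co, `j = 6`).
-/

namespace Pool.Agent.GaussPoset.J6

set_option linter.unusedSectionVars false

open Polynomial Finset Dd J8 J10 Wd Cl Sg

universe u

section

variable {P : Type u} [Fintype P] [PartialOrder P] [DecidableEq P]
variable {r n : ℕ} {t : Tops P} {lo hi : ℕ → ℕ} {e : ℕ → ℕ → P}
variable {cv lv um th : ℕ → ℕ} {m1 m2 m3 m w J : ℕ} {Us : List ℕ} {L : List Ent} {c : ℕ → P}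

/-- a word with its natural elements, coded -/
structure Cw (t : Tops P) (n : ℕ) (lo hi : ℕ → ℕ) (e : ℕ → ℕ → P) (cv lv : ℕ → ℕ)
    (m1 m2 m3 J : ℕ) (c : ℕ → P) : Prop where
  T : Stg cv lv m1 m2 m3
  R : Rw n lo hi
  C : Cp.Comp 6 (t : P) lo hi e
  D : Cx 20 J cv lv c (lowPart 6 (t : P) ∪ YW n e m1 m2 m3)
  bit : ∀ a < n, J.testBit a = true ∧ c a = cW e a
  lt : ∀ a, J.testBit a = true → a < n ∨ 14 ≤ a

lemma Wlv_le : ∀ a < 14, Wlv.getD a 0 ≤ 6 := by decide +kernel

lemma Cw.thc (W : Cw t n lo hi e cv lv m1 m2 m3 J c) {a : ℕ} (ha : a < n) :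
    thM 20 J c th (cW e a) = th a := by
  rw [← (W.bit a ha).2]
  exact thM_c W.D.cod th (W.bit a ha).1

/-- the cells are below the top -/
lemma Cw.cell_le (W : Cw t n lo hi e cv lv m1 m2 m3 J c) (h : Wd.NJ P r 6) {a : ℕ} (ha : a < n) :
    cW e a ≤ (t : P) ∧ lev (cW e a) ≤ 6 := by
  have h1 : cW e a ∈ lowPart 6 (t : P) := ((W.R.cod h W.C).2 _).mpr ⟨a, ha, rfl⟩
  exact mem_lowPart.mp h1

lemma Cw.Y_le (W : Cw t n lo hi e cv lv m1 m2 m3 J c) (h : Wd.NJ P r 6) {y : P}
    (hy : y ∈ YW n e m1 m2 m3) : lev y = 7 ∧ y ≤ (t : P) := by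
  obtain ⟨μ, hμ, hy'⟩ := mem_YW.mp hy
  obtain ⟨h1, h2, h3⟩ := mem_tY.mp hy'
  refine ⟨h1, ?_⟩
  have h4 : ∃ a, μ.testBit a = true := by
    rcases hμ with rfl | rfl | rfl
    · exact W.T.ex.1
    · exact W.T.ex.2.1
    · exact W.T.ex.2.2
  obtain ⟨a, ha⟩ := h4
  exact ((h3 _).mpr ⟨a, ha, rfl⟩).1.le.trans (W.cell_le h (bit_lt h2 ha)).1

/-- the cell of a natural element of level 7 -/
lemma Cw.code (W : Cw t n lo hi e cv lv m1 m2 m3 J c) (h : Wd.NJ P r 6) {y : P}
    (hy : y ∈ YW n e m1 m2 m3) : ∃ a, J.testBit a = true ∧ c a = y ∧ 14 ≤ a ∧ a < 20 ∧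
      cv a < 2 ^ n ∧ Cvs (cW e) (cv a) y := by
  have hn := W.R.le14
  obtain ⟨a, ha, rfl⟩ := (W.D.mem y).mp (mem_union_right _ hy)
  have hl := (W.Y_le h hy).1
  have h20 : a < 20 := bit_lt W.D.cod.lt ha
  have h14 : 14 ≤ a := by
    rcases W.lt a ha with h1 | h1
    · rw [W.D.cod.lev a ha, W.T.lv0 a (by omega)] at hl
      have := Wlv_le a (by omega)
      omega
    · exact h1
  have hcv : cv a < 2 ^ 14 := by
    have hT := W.T
    rcases (show a = 14 ∨ a = 15 ∨ a = 16 ∨ a = 17 ∨ a = 18 ∨ a = 19 by omega) with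
      rfl | rfl | rfl | rfl | rfl | rfl
    · rw [hT.c1.1]; exact hT.lt.1
    · rw [hT.c1.2]; exact hT.lt.1
    · rw [hT.c2.1]; exact hT.lt.2.1
    · rw [hT.c2.2]; exact hT.lt.2.1
    · rw [hT.c3.1]; exact hT.lt.2.2
    · rw [hT.c3.2]; exact hT.lt.2.2
  have hb : ∀ b, (cv a).testBit b = true → b < n := by
    intro b hb
    have h1 := bit_lt hcv hb
    rcases W.lt b (sm_iff.mp (W.D.cod.clo a ha) b hb) with h2 | h2
    · exact h2
    · omega
  refine ⟨a, ha, rfl, h14, h20, ?_, ?_⟩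
  · refine Nat.lt_pow_two_of_testBit _ fun i hi => ?_
    rw [Bool.eq_false_iff]
    intro hcon
    have := hb i hcon
    omega
  · intro y
    rw [W.D.cod.cov a ha y]
    constructor
    · rintro ⟨b, -, h2, rfl⟩
      exact ⟨b, h2, ((W.bit b (hb b h2)).2).symm⟩
    · rintro ⟨b, h2, rfl⟩
      exact ⟨b, (W.bit b (hb b h2)).1, h2, (W.bit b (hb b h2)).2⟩

/-- **The data of a word.** -/
theorem Cw.td (W : Cw t n lo hi e cv lv m1 m2 m3 J c) (h : Wd.NJ P r 6)
    (K : Cert cv lv um th Us L w) {bad : List ℕ} (A : Tab cv th m1 m2 m3 m bad)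
    {G : ℕ → P → Prop}
    (hG : ∀ z, z ≤ (t : P) → lev z = 7 → ∀ μ ∈ bad, μ < 2 ^ n → Cvs (cW e) μ z →
      ∀ b < 14, μ.testBit b = true → (∀ b' < 14, μ.testBit b' = true → th b ≤ th b') →
      G (th b + 1) z) :
    TD6 t (hi 3 - lo 3 + 1) w m (YW n e m1 m2 m3) (thM 20 J c th) (fun x => x = c 10) G := by
  have hn := W.R.le14
  have hn' := W.R.ge11
  have l3 : lo 3 = 0 := by
    have := W.R.hlo 3 (by norm_num)
    rw [this]
    rcases W.R.hn with h1 | h1 | h1 <;> rw [h1] <;> rfl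
  have h3 : hi 3 = 1 := W.R.hhi 3 (by norm_num)
  have hb : hi 3 - lo 3 + 1 = 2 := by omega
  rw [hb]
  constructor
  · norm_num
  · exact fun y hy => (W.Y_le h hy).1
  · exact fun y hy => (W.Y_le h hy).2
  · intro z hz hl hzY k hk hk'
    obtain ⟨μ, hμ, hc⟩ := W.R.mask h W.C hz hl
    have hlt := mL_lt n W.R.mem μ hμ
    obtain ⟨x, hzx, rfl⟩ := hk
    obtain ⟨b, hb', rfl⟩ := (hc x).mp hzx
    have hbn : b < n := bit_lt hlt hb'
    rw [W.thc hbn]
    have hmin : ∀ b' < 14, μ.testBit b' = true → th b ≤ th b' := by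
      intro b' _ hb2
      have := hk' (cW e b') ((hc _).mpr ⟨b', hb2, rfl⟩)
      rw [W.thc hbn, W.thc (bit_lt hlt hb2)] at this
      omega
    rcases A.t7 n W.R.mem μ hμ with h1 | h1 | h1
    · exact absurd (mem_YW.mpr ⟨μ, h1, mem_tY.mpr ⟨hl, hlt, hc⟩⟩) hzY
    · exact Or.inr (hG z hz hl μ h1 hlt hc b (by omega) hb' hmin)
    · left
      rw [W.R.cost h W.C hl hlt hc]
      exact h1 b (by omega) hb' hmin
  · intro y hy
    obtain ⟨a, ha, hay, h14, h20, hlt, hc⟩ := W.code h hy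
    have hl := (W.Y_le h hy).1
    rw [← hay, thM_c W.D.cod th ha, hay, W.R.cost h W.C hl hlt hc]
    exact A.t8 n W.R.mem a h20 h14 hlt
  · intro N HN _ hN θ' B' hθ hB
    have hL : LocL 3 2 w (N t) (thM 20 J c th) (fun x => x = c 10) := by
      rw [hN]
      refine W.D.cod.locL K.us K.th (W.bit 10 (by omega)).1 W.D.mem K.pol K.mst ?_ ?_ K.bm
      · unfold mskC
        rw [List.all_eq_true]
        intro y hy
        have h1 : Nat.ble w (rch y) = true := Nat.ble_eq.mpr (K.rch y hy)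
        rw [h1, Bool.or_true]
      · intro a ha
        exact (W.bit a (by have := bit_lt (show 1375 < 2 ^ 11 by norm_num) ha; omega)).1
    exact hL.data HN θ' B' hθ hB

/-- the value of an entry -/
def vl (y : Ent) : ℤ := sgn y.2.2.2.1 y.2.2.2.2.1 3 * sc y.2.1 y.2.2.2.2.2.2

/-- the tables of the values at the energy `k0` -/
structure Vt (lv : ℕ → ℕ) (L : List Ent) (k0 : ℕ) : Prop where
  v : ∀ y ∈ L, y.1 = k0 ∧ 0 ≤ vl y ∧
    (vl y = 0 → y.2.2.1.testBit 16 = false ∧ y.2.2.1.testBit 17 = false)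
  l2 : ∀ a < 20, lv a < 3 ↔ a < 3
  l3 : ∀ a < 20, lv a = 3 ↔ a = 3 ∨ a = 4

/-- **The value of a word.** -/
theorem Cw.val (W : Cw t n lo hi e cv lv m1 m2 m3 J c) (h : Wd.NJ P r 6)
    (K : Cert cv lv um th Us L w) {k0 : ℕ} (V : Vt lv L k0) :
    ∃ ρ : ℤ, ρ ≤ 0 ∧ (ρ = 0 → ∀ z, z ∉ tY n e m2) ∧
      ∀ N : Tops P → Finset P, NatSys N → N t = lowPart 6 (t : P) ∪ YW n e m1 m2 m3 →
      ∀ f : Polynomial (PowerSeries ℤ),
        (∀ k, exq k f = Z {x : {x : P // x ∉ unnat N} // topOf (x : P) = t} 3 k) →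
        Pl k0 2 ρ f := by
  classical
  have hn := W.R.le14
  have hn' := W.R.ge11
  have hup : Up (lowPart 6 (t : P) ∪ YW n e m1 m2 m3) := by
    intro x hx y hxy
    rw [W.D.mem] at hx ⊢
    obtain ⟨a, ha, rfl⟩ := hx
    exact W.D.cod.above ha hxy
  obtain ⟨J', h1, h2, h3⟩ := W.D.cod.exists_code K.us (fun x hx => (W.D.mem x).mp hx) hup
  have h4 : toS 20 c J = lowPart 6 (t : P) ∪ YW n e m1 m2 m3 := by
    ext x
    rw [W.D.mem, mem_toS]
    exact ⟨fun ⟨a, _, g1, g2⟩ => ⟨a, g1, g2⟩, fun ⟨a, g1, g2⟩ =>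
      ⟨a, bit_lt W.D.cod.lt g1, g1, g2⟩⟩
  have h5 : J' = J := W.D.cod.inj' h2 (fun _ g => g) (h3.trans h4.symm)
  rw [h5] at h1
  have h6 : Nat.land 1375 J = 1375 := by
    rw [sm_iff]
    intro a ha
    exact (W.bit a (by have := bit_lt (show 1375 < 2 ^ 11 by norm_num) ha; omega)).1
  have hmst := K.mst
  unfold mstC at hmst
  rw [Bool.and_eq_true, List.all_eq_true, List.all_eq_true] at hmst
  have h7 := hmst.2 J h1
  rw [h6, Nat.beq_refl] at h7
  have h8 : (L.any fun x => Nat.beq x.2.2.1 J) = true := by simpa using h7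
  rw [List.any_eq_true] at h8
  obtain ⟨y, hy, hyJ⟩ := h8
  have h9 : y.2.2.1 = J := Nat.eq_of_beq_eq_true hyJ
  obtain ⟨v1, v2, v3⟩ := V.v y hy
  have c7 : ((range 20).filter (fun a => J.testBit a = true ∧ lv a < 3)).card = 3 := by
    have : (range 20).filter (fun a => J.testBit a = true ∧ lv a < 3) = range 3 := by
      ext a
      rw [mem_filter, mem_range, mem_range]
      constructor
      · rintro ⟨g1, -, g3⟩
        exact (V.l2 a g1).mp g3
      · intro g
        exact ⟨by omega, (W.bit a (by omega)).1, (V.l2 a (by omega)).mpr g⟩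
    rw [this, card_range]
  have c8 : ((range 20).filter (fun a => J.testBit a = true ∧ lv a = 3)).card = 2 := by
    have : (range 20).filter (fun a => J.testBit a = true ∧ lv a = 3) = {3, 4} := by
      ext a
      rw [mem_filter, mem_range, mem_insert, mem_singleton]
      constructor
      · rintro ⟨g1, -, g3⟩
        exact (V.l3 a g1).mp g3
      · intro g
        exact ⟨by omega, (W.bit a (by omega)).1, (V.l3 a (by omega)).mpr g⟩
    rw [this]
    rfl
  refine ⟨- vl y, by omega, ?_, ?_⟩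
  · intro hρ z hz
    obtain ⟨g1, g2⟩ := v3 (by omega)
    rw [h9] at g1 g2
    have hY : z ∈ YW n e m1 m2 m3 := mem_YW.mpr ⟨m2, Or.inr (Or.inl rfl), hz⟩
    obtain ⟨a, ha, rfl, h14, h20, hlt, hc⟩ := W.code h hY
    rw [mem_tY] at hz
    have hcv := cvs_inj W.R h W.C hlt hz.2.1 hc hz.2.2
    have hT := W.T
    rcases (show a = 14 ∨ a = 15 ∨ a = 16 ∨ a = 17 ∨ a = 18 ∨ a = 19 by omega) with
      rfl | rfl | rfl | rfl | rfl | rfl
    · exact hT.ne.1 (hT.c1.1.symm.trans hcv)
    · exact hT.ne.1 (hT.c1.2.symm.trans hcv)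
    · rw [g1] at ha
      exact absurd ha (by simp)
    · rw [g2] at ha
      exact absurd ha (by simp)
    · exact hT.ne.2.2 (hcv.symm.trans hT.c3.1)
    · exact hT.ne.2.2 (hcv.symm.trans hT.c3.2)
  · intro N HN hN f hf
    have hU : ∀ x, x ∈ lowPart 6 (t : P) ∪ YW n e m1 m2 m3 ↔ x ∈ N t ∧ x ∉ unnat N := by
      intro x
      rw [← hN]
      exact ⟨fun g => ⟨g, fun g' => mem_unnat.mp g' t g⟩, fun g => g.1⟩
    have hiso := isoPart HN t (Finset.Subset.refl (unnat N)) _ hU
    have hf' : ∀ k, exq k f =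
        Z {y : P // y ∈ lowPart 6 (t : P) ∪ YW n e m1 m2 m3} 3 k := by
      intro k
      rw [hf k, Z_iso hiso]
    have := W.D.cod.pole K.us K.pol K.mst hy (by rw [h9]; exact h1) h9 W.D.mem c7 c8
      (ρ := - vl y) (by unfold vl; ring) hf'
    rwa [v1] at this

end

end Pool.Agent.GaussPoset.J6

end

/-! From `Pool.Agent.W_448j6_h22.KaN` -/

section

/-!
Level 6: the two certificates (MP_448cb3_co, `j = 6`).
-/

namespace Pool.Agent.GaussPoset.J6

set_option linter.unusedSectionVars false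

open Polynomial Finset Dd J8 J10 Wd Cl Sg

theorem stgA : Stg (fun a => Gacv.getD a 0) (fun a => Galv.getD a 0) 1536 9216 8192 where
  cv0 := by decide +kernel
  lv0 := by decide +kernel
  c1 := by decide +kernel
  c2 := by decide +kernel
  c3 := by decide +kernel
  l7 := by decide +kernel
  ne := by decide
  lt := by decide
  ex := ⟨⟨9, by decide⟩, ⟨10, by decide⟩, ⟨13, by decide⟩⟩

theorem stgB : Stg (fun a => Gbcv.getD a 0) (fun a => Gblv.getD a 0) 1536 512 8192 where
  cv0 := by decide +kernel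
  lv0 := by decide +kernel
  c1 := by decide +kernel
  c2 := by decide +kernel
  c3 := by decide +kernel
  l7 := by decide +kernel
  ne := by decide
  lt := by decide
  ex := ⟨⟨9, by decide⟩, ⟨9, by decide⟩, ⟨13, by decide⟩⟩

theorem certA : Cert (fun a => Gacv.getD a 0) (fun a => Galv.getD a 0) (fun a => Gaum.getD a 0)
    (fun a => Gath.getD a 0) Gaus GaL 8 where
  us := Ga_us
  pol := Ga_pol
  mst := Ga_mst
  th := Ga_th
  bm := Ga_bm
  rch := by decide +kernel

theorem certB : Cert (fun a => Gbcv.getD a 0) (fun a => Gblv.getD a 0) (fun a => Gbum.getD a 0)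
    (fun a => Gbth.getD a 0) Gbus GbL 13 where
  us := Gb_us
  pol := Gb_pol
  mst := Gb_mst
  th := Gb_th
  bm := Gb_bm
  rch := by decide +kernel

theorem tabA : Tab (fun a => Gacv.getD a 0) (fun a => Gath.getD a 0) 1536 9216 8192 9 [1024] where
  t7 := by decide +kernel
  t8 := by decide +kernel

theorem tabB : Tab (fun a => Gbcv.getD a 0) (fun a => Gbth.getD a 0) 1536 512 8192 13
    [1024, 9216, 4096] where
  t7 := by decide +kernel
  t8 := by decide +kernel

theorem vtA : Vt (fun a => Galv.getD a 0) GaL 8 where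
  v := by decide +kernel
  l2 := by decide +kernel
  l3 := by decide +kernel

end Pool.Agent.GaussPoset.J6

end

/-! From `Pool.Agent.W_448j6_h22.KaO` -/

section

/-!
Level 6: the data of every component, first stage (MP_448cb3_co, `j = 6`).
-/

namespace Pool.Agent.GaussPoset.J6

set_option linter.unusedSectionVars false

open Polynomial Finset Dd J8 J10 Wd Cl Sg

universe u

section

variable {P : Type u} [Fintype P] [PartialOrder P] [DecidableEq P] {r : ℕ}
variable {t : Tops P} {lo hi : ℕ → ℕ} {e : ℕ → ℕ → P}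

lemma TD6.weaken {b n m : ℕ} {Y : Finset P} {θ : P → ℕ} {B : P → Prop} {G : ℕ → P → Prop}
    (T : TD6 t b n m Y θ B G) {n' m' : ℕ} (hn : n' ≤ n) (hm : m' ≤ m) :
    TD6 t b n' m' Y θ B G where
  b_one := T.b_one
  Ylev := T.Ylev
  Yle := T.Yle
  c7 := by
    intro z hz hl hzY k hk hk'
    rcases T.c7 z hz hl hzY k hk hk' with h | h
    · exact Or.inl (hm.trans h)
    · exact Or.inr h
  c8 := fun y hy => hm.trans (T.c8 y hy)
  data := fun N HN hlow hN θ' B' hθ hB => CompDataL.of_le (T.data N HN hlow hN θ' B' hθ hB) hn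

/-- the order of the natural part -/
lemma TD6.dvd {b n m : ℕ} {Y : Finset P} {θ : P → ℕ} {B : P → Prop} {G : ℕ → P → Prop}
    (T : TD6 t b n m Y θ B G) {k : ℕ} (hk : k < n) {N : Tops P → Finset P} (HN : NatSys N)
    (hlow : ∀ s : Tops P, lowPart 6 (s : P) ⊆ N s) (hN : N t = lowPart 6 (t : P) ∪ Y) :
    (1 + X : ℤ[X]) ^ b ∣ Z {x : {x : P // x ∉ unnat N} // topOf (x : P) = t} 3 k := by
  classical
  have hD := T.data N HN hlow hN θ (fun x => x ∉ unnat N ∧ B x) (fun _ _ => rfl)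
    (fun x hx => ⟨fun h => h.2, fun h => ⟨fun h' => mem_unnat.mp h' t hx, h⟩⟩)
  refine hD.clean (unnat N) ⟨HN.lower, Subset.refl _, fun x hx => ?_, fun x hx h => h.1 hx⟩
    inferInstance k hk
  exact unnat_lev HN (j := 6) (by norm_num) hlow hx

/-- the elements of level 7 with the cost 4 -/
def GA (k : ℕ) (z : P) : Prop := k = 1 ∧ cK 1 z = 4 ∧ nab 3 z = 2 ∧ nab 4 z = 1

/-- the data of a component, first stage -/
structure DA (t : Tops P) (lo hi : ℕ → ℕ) (e : ℕ → ℕ → P) (Y : Finset P) (θ : P → ℕ)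
    (B : P → Prop) (ρ : ℤ) : Prop where
  td : TD6 t (hi 3 - lo 3 + 1) 8 9 Y θ B GA
  le : ρ ≤ 0
  val : ∀ N : Tops P → Finset P, NatSys N → (∀ s : Tops P, lowPart 6 (s : P) ⊆ N s) →
    N t = lowPart 6 (t : P) ∪ Y →
    (ρ = 0 ∧ (1 + X : ℤ[X]) ^ (hi 3 - lo 3 + 1) ∣
      Z {x : {x : P // x ∉ unnat N} // topOf (x : P) = t} 3 8) ∨
    ∀ f : Polynomial (PowerSeries ℤ),
      (∀ k, exq k f = Z {x : {x : P // x ∉ unnat N} // topOf (x : P) = t} 3 k) →
      Pl 8 (hi 3 - lo 3 + 1) ρ f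
  tail : ∀ n, Rw n lo hi → (∀ z ∈ Y, ¬ Pend z (e 6 3)) ∧ θ (e 6 3) = 0
  r03 : ρ = 0 → Rw 14 lo hi → ∀ z, lev z = 7 → ¬ Cvs (cW e) 9216 z
  quad : QRows 6 3 lo hi → Y = ∅ ∧ ∀ x, θ x = 0

/-- natural components -/
lemma DA.of_nat {Y : Finset P} {θ : P → ℕ} {B : P → Prop}
    (T : TD6 t (hi 3 - lo 3 + 1) 9 9 Y θ B GA) (hR : ∀ n, ¬ Rw n lo hi)
    (hQ : QRows 6 3 lo hi → Y = ∅ ∧ ∀ x, θ x = 0) : DA t lo hi e Y θ B 0 where
  td := T.weaken (by norm_num) le_rfl
  le := le_rfl
  val := fun N HN hlow hN => Or.inl ⟨rfl, T.dvd (by norm_num) HN hlow hN⟩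
  tail := fun n h => absurd h (hR n)
  r03 := fun _ h => absurd h (hR 14)
  quad := hQ

/-- a coded word exists -/
lemma exists_Cw {cv lv : ℕ → ℕ} {m1 m2 m3 n : ℕ} (T : Stg cv lv m1 m2 m3) (R : Rw n lo hi)
    (h : Wd.NJ P r 6) (C : Cp.Comp 6 (t : P) lo hi e) :
    ∃ J c, Cw t n lo hi e cv lv m1 m2 m3 J c := by
  obtain ⟨c, J, h1, h2, h3⟩ := exists_cx T R h C
  exact ⟨J, c, T, R, C, h1, h2, h3⟩

lemma Rw.l3 {n : ℕ} (R : Rw n lo hi) : lo 3 = 0 ∧ hi 3 = 1 := by
  constructor
  · rw [R.hlo 3 (by norm_num)]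
    rcases R.hn with h | h | h <;> rw [h] <;> rfl
  · exact R.hhi 3 (by norm_num)

lemma Rw.h2 {n : ℕ} (R : Rw n lo hi) : hi 1 = 0 ∧ hi 2 = 0 :=
  ⟨R.hhi 1 (by norm_num), R.hhi 2 (by norm_num)⟩

lemma Rw.unique {n n' : ℕ} (R : Rw n lo hi) (R' : Rw n' lo hi) : n = n' := by
  have h1 := R.vals
  have h2 := R'.vals
  omega

lemma Rw.not_quad {n : ℕ} (R : Rw n lo hi) (Q : QRows 6 3 lo hi) : False := by
  have h1 := R.vals
  have h2 := Q.aft 6 (by norm_num) le_rfl
  omega

/-- the words, first stage -/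
theorem DA.of_word (h : Wd.NJ P r 6) (C : Cp.Comp 6 (t : P) lo hi e) {n : ℕ}
    (R : Rw n lo hi) : ∃ Y θ B ρ, DA t lo hi e Y θ B ρ := by
  classical
  obtain ⟨J, c, W⟩ := exists_Cw stgA R h C
  have hn := R.le14
  have hn' := R.ge11
  obtain ⟨ρ, r1, r2, r3⟩ := W.val h certA vtA
  have hb : hi 3 - lo 3 + 1 = 2 := by
    have := R.l3
    omega
  refine ⟨YW n e 1536 9216 8192, thM 20 J c (fun a => Gath.getD a 0), fun x => x = c 10, ρ,
    ?_, r1, ?_, ?_, ?_, ?_⟩
  · refine W.td h certA tabA ?_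
    intro z hz hl μ hμ hlt hc b hb14 hb' hmin
    rw [List.mem_singleton] at hμ
    subst hμ
    have hb10 : b = 10 := by
      have h1 : (1024 : ℕ) = 2 ^ 10 := by norm_num
      rw [h1] at hb'
      by_contra hne
      rw [Nat.testBit_two_pow_of_ne (Ne.symm hne)] at hb'
      exact absurd hb' (by simp)
    subst hb10
    have c1 : ∀ n ∈ [11, 13, 14], cc 1 n 1024 = 4 ∧ cn n 1024 3 = 2 ∧ cn n 1024 4 = 1 := by
      decide +kernel
    obtain ⟨d1, d2, d3⟩ := c1 n R.mem
    refine ⟨rfl, ?_, ?_, ?_⟩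
    · rw [R.cost h C hl hlt hc, d1]
    · rw [R.nab h C hl hlt hc (by norm_num), d2]
    · rw [R.nab h C hl hlt hc (by norm_num), d3]
  · intro N HN _ hN
    right
    intro f hf
    rw [hb]
    exact r3 N HN hN f hf
  · intro n' R'
    obtain rfl := R.unique R'
    refine ⟨?_, ?_⟩
    · intro z hz hp
      obtain ⟨μ, hμ, hz'⟩ := mem_YW.mp hz
      obtain ⟨h1, h2, h3⟩ := mem_tY.mp hz'
      have h4 : Cvs (cW e) (2 ^ 10) z := cvs_one (a := 10) hp
      have h5 := cvs_inj R h C h2 (Nat.pow_lt_pow_right (by norm_num) (by omega)) h3 h4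
      omega
    · exact W.thc (a := 10) (th := fun a => Gath.getD a 0) (by omega)
  · intro hρ R' z hz hc
    obtain rfl := R.unique R'
    exact r2 hρ z (mem_tY.mpr ⟨hz, by norm_num, hc⟩)
  · intro Q
    exact (R.not_quad Q).elim

/-- **The data of every component, first stage.** -/
theorem exists_DA (h : Wd.NJ P r 6) (C : Cp.Comp 6 (t : P) lo hi e) (S : Wd.Shape 6 lo hi)
    (hF : ¬ Wd.F1 lo hi) : ∃ Y θ B ρ, DA t lo hi e Y θ B ρ := by
  classical
  have light : lo 3 = hi 3 → ∃ Y θ B ρ, DA t lo hi e Y θ B ρ := by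
    intro h3
    refine ⟨Y7 t, fun x => lev x - 3, fun _ => False, 0, DA.of_nat
      (tdLight h C h3 (by norm_num) GA) ?_ ?_⟩
    · intro n R
      have := R.l3
      omega
    · intro Q
      have := Q.at'
      omega
  rcases S with h1 | ⟨h1, h2⟩ | ⟨h0, h2⟩ | ⟨h0, -, -⟩ | ⟨-, h1⟩ | ⟨a, h0, h1, h2, h3, -, h4⟩
  · have e3 := h1 3 (by norm_num)
    exact light (by omega)
  · -- rectangle
    rcases Nat.lt_or_ge (lo 3) (hi 3) with hlt | hge
    · obtain ⟨Y, θ, B, T⟩ := tdRectB h C h1 h2 hlt GA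
      refine ⟨Y, θ, B, 0, DA.of_nat (T.weaken (by norm_num) (by norm_num)) ?_ ?_⟩
      · intro n R
        have := R.h2
        omega
      · intro Q
        have := Q.bel 1 (by norm_num)
        omega
    · have := C.lo_le 3 (by norm_num)
      exact light (by omega)
  · -- stair
    have e3 := h2.hi 3 (by norm_num)
    have e2 := h2.hi 2 (by norm_num)
    norm_num at e3 e2
    rcases Nat.eq_zero_or_pos (lo 3) with hz | hz
    · obtain ⟨Y, θ, B, T⟩ := tdStair h C h2 hz 9 (m := 9) (by norm_num) GA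
      refine ⟨Y, θ, B, 0, DA.of_nat T ?_ ?_⟩
      · intro n R
        have := R.h2
        omega
      · intro Q
        have := Q.bel 2 (by norm_num)
        omega
    · have := C.lo_le 3 (by norm_num)
      exact light (by omega)
  · omega
  · exact absurd h1 hF
  · -- late
    rcases Nat.lt_or_ge 3 a with ha | ha
    · have e3 := h2 3 ha
      exact light (by omega)
    · obtain rfl : a = 3 := by omega
      have D : LateD 6 3 lo hi := ⟨h0, h1, h2, h3, h4⟩
      rcases h4 with ⟨-, g2⟩ | g2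
      · have hq := D.quad C g2
        have Q : QRows 6 3 lo hi := ⟨h2, h3, by
          intro k hk hk2
          have := hq (k - 3) (by omega) (by omega)
          rwa [show 3 + (k - 3) = k by omega] at this⟩
        refine ⟨∅, fun _ => 0, _, 0, DA.of_nat (tdQuad h C Q (n := 9) (m := 9) (G := GA) ?_)
          ?_ ?_⟩
        · intro z _ _ k3 k4 k1
          exact Or.inr ⟨rfl, k1, k3, k4⟩
        · exact fun n R => R.not_quad Q
        · exact fun _ => ⟨rfl, fun _ => rfl⟩
      · obtain ⟨n, R⟩ := exists_rw C h2 h3 g2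
        exact DA.of_word h C R

end

end Pool.Agent.GaussPoset.J6

end

/-! From `Pool.Agent.W_448sd_h84.SdM` -/

section

/-!
# The straight ends of the components with two elements on level 2 (MP_448cb3_co), final form
-/

namespace Pool.Agent.GaussPoset

set_option linter.unusedSectionVars false

open Polynomial Finset

universe u

variable {P : Type u} [Fintype P] [PartialOrder P] [DecidableEq P] {r j : ℕ}

open Cp

variable {lo hi : Tops P → ℕ → ℕ} {e : Tops P → ℕ → ℕ → P}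

/-- the condition on the elements (C), levels 6 and 8 only -/
def NoCC (j : ℕ) (lo hi : Tops P → ℕ → ℕ) (e : Tops P → ℕ → ℕ → P) : Prop :=
  j ≤ 8 → ∀ (t : Tops P) (z : P), StairShape j (lo t) (hi t) → lo t j = 0 →
    j % 2 = 0 → z ⋖ e t j (j / 2) → z ⋖ e t j 0 → False

/-- **no double at the straight end of a stair** -/
theorem NJ_stair_S_end (h : Wd.NJ P r j) (hj : 6 ≤ j)
    (C : ∀ t : Tops P, Comp j (t : P) (lo t) (hi t) (e t))
    (hS : ∀ t, Wd.Shape j (lo t) (hi t)) (hCC : NoCC j lo hi e)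
    {t : Tops P} (S : StairShape j (lo t) (hi t)) (h0 : lo t j = 0) {x' : P}
    (hne : x' ≠ e t j 0) (hu : ucv (e t j 0) x' = 1) : dcv (e t j 0) x' ≤ 1 := by
  refine stair_dcv_straight h hj C hS ?_ hCC S h0 hne hu
  rintro rfl t
  exact NJ_no_six h C hS t

/-- strips at level 1 -/
lemma NJ_level_one (h : Wd.NJ P r j) (hj : 1 ≤ j)
    (C : ∀ t : Tops P, Comp j (t : P) (lo t) (hi t) (e t))
    (hS : ∀ t, Wd.Shape j (lo t) (hi t)) (t : Tops P) :
    lo t 1 = hi t 1 ∨ RectShape j (lo t) (hi t) := by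
  rcases hS t with h1 | ⟨h1, S'⟩ | ⟨h1, h2⟩ | ⟨h1, h2, h3⟩ | ⟨h1, h2⟩ | ⟨a, h0, h1, h2, h3, hN, h4⟩
  · left
    have e1 := h1 1 (by omega)
    omega
  · exact Or.inr S'
  · left
    have e1 := h2.hi 1 (by omega)
    have e2 := (C t).lo_le 1 (by omega)
    omega
  · omega
  · subst h1
    exact absurd h2 (NJ_no_six h C hS t)
  · left
    have e1 := h2 1 (by omega)
    omega

/-- **no double at the straight end of a rectangle** -/
theorem NJ_rect_S_end (h : Wd.NJ P r j) (hj : 2 ≤ j)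
    (C : ∀ t : Tops P, Comp j (t : P) (lo t) (hi t) (e t))
    (hS : ∀ t, Wd.Shape j (lo t) (hi t)) {t : Tops P} (ht : lo t 1 ≠ hi t 1) {x x' : P}
    (hx : lev x = j) (hxt : x ≤ (t : P)) (h1 : (Win.uc x).card = 1) (hne : x ≠ x') :
    dcv x x' ≤ 1 :=
  rect_dcv_straight h.g hj h.no C (NJ_level_one h (by omega) C hS) ht hx hxt h1 hne

end Pool.Agent.GaussPoset

end
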