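import Mathlib
import Pool.Agent.W_448zz_h61.Ns
import Pool.Agent.W_448zz_h61.M184
import Pool.Agent.W_448zz_h61.M187
import Pool.Agent.W_448zz_h61.M215
import Pool.Agent.W_448zz_h61.M229

/-! From `Pool.Agent.W_448j6_h22.KaP` -/

section

/-!
Level 6, window 3: no tail pendants, no join of the ends (MP_448cb3_co, `j = 6`).
-/

namespace Pool.Agent.GaussPoset.J6

set_option linter.unusedSectionVars false

open Polynomial Finset Dd J8 J10 Wd Cl Sg

universe u

section

variable {P : Type u} [Fintype P] [PartialOrder P] [DecidableEq P] {r : ℕ}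

/-- the elements excluded by the first stage -/
structure T1a (t : Tops P) (lo hi : ℕ → ℕ) (e : ℕ → ℕ → P) : Prop where
  tail : ∀ n, Rw n lo hi → ∀ z, ¬ Pend z (e 6 3)
  r03 : Rw 14 lo hi → ∀ z, lev z = 7 → ¬ Cvs (cW e) 9216 z
  quad : QRows 6 3 lo hi → ∀ z, z ≤ (t : P) → lev z = 7 → cK 1 z ≠ 4

/-- the leading term for the label 1 -/
lemma lt_one3 {h : P → ℕ} {z : P} (hh : h z = 1) (h3 : nab 3 z = 2) (h4 : nab 4 z = 1) :
    1 ≤ (lv P 3).card ∧
      Lt 3 h z = X ^ (below P 3 + 2) * (1 + X) ^ ((lv P 3).card - 1) := by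
  have hB : 2 ≤ (lv P 3).card := by
    have := nab_le z 3
    omega
  refine ⟨by omega, ?_⟩
  unfold Lt
  rw [nst_one hh, hh, h3, h4]
  congr 2

lemma cc_tail : ∀ n ∈ [11, 13, 14], cc 1 n 1024 = 4 := by decide +kernel

lemma lev7_of {t : Tops P} {lo hi : ℕ → ℕ} {e : ℕ → ℕ → P} (h : Wd.NJ P r 6)
    (C : Cp.Comp 6 (t : P) lo hi e) {s : ℕ} (s1 : lo 6 ≤ s) (s2 : s ≤ hi 6) {z : P}
    (hz : z ⋖ e 6 s) : lev z = 7 ∧ z ≤ (t : P) := by
  have h1 := (h.g.H.covBy_iff.mp hz).2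
  have h2 := C.lev_e 6 s le_rfl s1 s2
  exact ⟨by omega, hz.1.le.trans (C.le_t 6 s le_rfl s1 s2)⟩

/-- **The first stage.** -/
theorem stageA {lo hi : Tops P → ℕ → ℕ} {e : Tops P → ℕ → ℕ → P} (h : Wd.NJ P r 6)
    (C : ∀ t : Tops P, Cp.Comp 6 (t : P) (lo t) (hi t) (e t))
    (S : ∀ t, Wd.Shape 6 (lo t) (hi t)) (t : Tops P) : T1a t (lo t) (hi t) (e t) := by
  classical
  choose Y θ B ρ D using fun t => exists_DA h (C t) (S t) (NJ_no_six h C S t)
  have W : C6 P r 8 9 (fun t => hi t 3 - lo t 3 + 1) Y θ B GA :=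
    ⟨h, (card_level h.g.H h.g.good C (i := 3) (by norm_num)).symm, fun t => (D t).td⟩
  have L := W.lad
  have no4 : ∀ z ∈ bdR (unnat (N6 Y)), cst 3 (h6 Y θ) z ≠ 4 := by
    refine Lad.step L h.g.H.gauss W.sum_b (n := 4) (a := below P 3 + 2) (by norm_num) ?_ ?_
    · intro z hz
      show 4 ≤ cst 3 (h6 Y θ) z
      rcases W.kind hz with h1 | ⟨-, h1, h2, h3, -⟩
      · omega
      · rw [h1, h2, h3]
    · intro z hz hc
      have hc' : cst 3 (h6 Y θ) z = 4 := hc
      rcases W.kind hz with h1 | ⟨-, h1, h2, -, h4, h5⟩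
      · omega
      · exact lt_one3 h2 h4 h5
  have n9 : ∀ z ∈ bdR (unnat (N6 Y)), 9 ≤ cst 3 (h6 Y θ) z := by
    intro z hz
    rcases W.kind hz with h1 | ⟨-, h1, h2, h3, -⟩
    · exact h1
    · exfalso
      refine no4 z hz ?_
      rw [h1, h2, h3]
  have hplus := L.plus0 (n := 8) le_rfl ∅ (by simp)
    (fun z hz _ => by
      have := n9 z hz
      show 8 ≤ cst 3 (h6 Y θ) z
      omega) (by simp) (by simp)
  rw [Finset.sum_empty, zero_add, W.sum_b] at hplus
  have hT : (bdR (unnat (N6 Y))).filter (fun z => (∀ A ∈ (∅ : Finset (Finset P)), z ∉ A) ∧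
      cst 3 (hcan (unnat (N6 Y)) (th6 θ)) z = 8) = ∅ := by
    rw [Finset.filter_eq_empty_iff]
    rintro z hz ⟨-, hc⟩
    have h1 := n9 z hz
    have h2 : cst 3 (h6 Y θ) z = 8 := hc
    omega
  rw [hT, Finset.sum_empty, add_zero] at hplus
  have hv : Lv (lv P 3).card (Z {x : P // x ∉ unnat (N6 Y)} 3 8)
      ((∑ t, ρ t) * (-1) ^ below P 3) :=
    L.nat_lv (by norm_num) (fun t => (W.td t).b_one) ⟨t⟩ W.sum_b ρ
      (fun t => (D t).val (N6 Y) W.sys (low6 Y) rfl)
  have hB : 1 ≤ (lv P 3).card := by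
    rw [← W.sum_b]
    have h1 : hi t 3 - lo t 3 + 1 ≤ ∑ t, (hi t 3 - lo t 3 + 1) :=
      Finset.single_le_sum (f := fun t => hi t 3 - lo t 3 + 1) (fun _ _ => Nat.zero_le _)
        (mem_univ t)
    omega
  have v7 := (Lv.congr hplus hv).eq_zero hB (dvd_Z h.g.H.gauss 3 8)
  have v8 := (mul_eq_zero.mp v7).resolve_right (pow_ne_zero _ (by norm_num))
  have v9 := (Finset.sum_eq_zero_iff_of_nonpos (fun t _ => (D t).le)).mp v8 t (mem_univ t)
  have hlab : ∀ z x, z ⋖ x → x ≤ (t : P) → lev z = 7 → z ∉ Y t →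
      (∀ y, z ⋖ y → θ t y = 0) → cK 1 z = 4 → False := by
    intro z x hzx hxt hl hzY hθ h4
    obtain ⟨h1, -, y, h2, -, -, h3⟩ := W.mem_bd hzx hxt hl hzY
    rw [hθ y h2] at h3
    refine no4 z h1 ?_
    rw [cst7 hl, h3]
    exact h4
  refine ⟨?_, (D t).r03 v9, ?_⟩
  · intro n R z hz
    obtain ⟨v5, v6, hv⟩ := R.vals
    obtain ⟨hl, -⟩ := lev7_of h (C t) (s := 3) (by omega) (by omega) hz.1
    have hxt := (C t).le_t 6 3 le_rfl (by omega) (by omega)
    obtain ⟨h1, h2⟩ := (D t).tail n R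
    have hn' := R.ge11
    refine hlab z _ hz.1 hxt hl (fun h' => h1 z h' hz) (fun y hy => ?_) ?_
    · rw [hz.2 y hy]
      exact h2
    · have h3 : Cvs (cW (e t)) (2 ^ 10) z := cvs_one (a := 10) hz
      rw [R.cost h (C t) hl (Nat.pow_lt_pow_right (by norm_num) (by omega)) h3]
      exact cc_tail n R.mem
  · intro Q z hz hl h4
    obtain ⟨h1, h2⟩ := (D t).quad Q
    obtain ⟨x, hzx⟩ := ex_cov7 hl
    obtain ⟨hxt, -, -⟩ := cov7 h (C t) hz hl hzx
    exact hlab z x hzx hxt hl (by rw [h1]; exact Finset.notMem_empty _) (fun y _ => h2 y) h4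

end

end Pool.Agent.GaussPoset.J6

end

/-! From `Pool.Agent.W_448j6_h22.KaQ` -/

section

/-!
Level 6, window 3: no flips (MP_448cb3_co, `j = 6`).
-/

namespace Pool.Agent.GaussPoset.J6

set_option linter.unusedSectionVars false

open Polynomial Finset Dd J8 J10 Wd Cl Sg

universe u

section

variable {P : Type u} [Fintype P] [PartialOrder P] [DecidableEq P] {r : ℕ}
variable {t : Tops P} {lo hi : ℕ → ℕ} {e : ℕ → ℕ → P}

/-- the elements of level 7 with the cost 12 -/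
def GB (k : ℕ) (z : P) : Prop := k = 3 ∧ cK 3 z = 12 ∧ nab 3 z = 2 ∧ nab 4 z = 2 ∧
  nab 5 z = 2 ∧ nab 6 z = 1

/-- the data of a component, second stage -/
structure DB (t : Tops P) (lo hi : ℕ → ℕ) (e : ℕ → ℕ → P) (Y : Finset P) (θ : P → ℕ)
    (B : P → Prop) : Prop where
  td : TD6 t (hi 3 - lo 3 + 1) 13 13 Y θ B GB
  flip : ∀ n, Rw n lo hi → 13 ≤ n → (∀ z ∈ Y, ¬ Pend z (e 6 1)) ∧ θ (e 6 1) = 2

lemma pend_of_cvs {z : P} {a : ℕ} (hz : Cvs (cW e) (2 ^ a) z) : Pend z (cW e a) := by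
  refine ⟨(hz _).mpr ⟨a, Nat.testBit_two_pow_self, rfl⟩, fun y hy => ?_⟩
  obtain ⟨b, hb, rfl⟩ := (hz y).mp hy
  have h5 : a = b := by
    by_contra hne
    rw [Nat.testBit_two_pow_of_ne hne] at hb
    exact absurd hb (by simp)
  rw [h5]

lemma cc_flip : ∀ n ∈ [13, 14], cc 3 n 4096 = 12 ∧ cn n 4096 3 = 2 ∧ cn n 4096 4 = 2 ∧
    cn n 4096 5 = 2 ∧ cn n 4096 6 = 1 := by decide +kernel

lemma Rw.mem2 {n : ℕ} (R : Rw n lo hi) (h : 13 ≤ n) : n ∈ [13, 14] := by
  rcases R.hn with h1 | h1 | h1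
  · omega
  · rw [h1]; simp
  · rw [h1]; simp

/-- the words, second stage -/
theorem DB.of_word (h : Wd.NJ P r 6) (C : Cp.Comp 6 (t : P) lo hi e) (A : T1a t lo hi e) {n : ℕ}
    (R : Rw n lo hi) : ∃ Y θ B, DB t lo hi e Y θ B := by
  classical
  obtain ⟨J, c, W⟩ := exists_Cw stgB R h C
  have hn := R.le14
  have hn' := R.ge11
  refine ⟨YW n e 1536 512 8192, thM 20 J c (fun a => Gbth.getD a 0), fun x => x = c 10, ?_, ?_⟩
  · refine W.td h certB tabB ?_
    intro z hz hl μ hμ hlt hc b hb14 hb' hmin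
    simp only [List.mem_cons, List.not_mem_nil, or_false] at hμ
    rcases hμ with rfl | rfl | rfl
    · exact (A.tail n R z (pend_of_cvs (a := 10) hc)).elim
    · have h14 : n = 14 := by
        by_contra hne
        have : n ≤ 13 := by omega
        have h2 : 2 ^ n ≤ 2 ^ 13 := Nat.pow_le_pow_right (by norm_num) this
        omega
      subst h14
      exact (A.r03 R z hl hc).elim
    · have h13 : 13 ≤ n := by
        by_contra hne
        have : n ≤ 12 := by omega
        have h2 : 2 ^ n ≤ 2 ^ 12 := Nat.pow_le_pow_right (by norm_num) this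
        omega
      have hb10 : b = 12 := by
        have h1 : (4096 : ℕ) = 2 ^ 12 := by norm_num
        rw [h1] at hb'
        by_contra hne
        rw [Nat.testBit_two_pow_of_ne (Ne.symm hne)] at hb'
        exact absurd hb' (by simp)
      subst hb10
      obtain ⟨d1, d2, d3, d4, d5⟩ := cc_flip n (R.mem2 h13)
      refine ⟨rfl, ?_, ?_, ?_, ?_, ?_⟩
      · rw [R.cost h C hl hlt hc, d1]
      · rw [R.nab h C hl hlt hc (by norm_num), d2]
      · rw [R.nab h C hl hlt hc (by norm_num), d3]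
      · rw [R.nab h C hl hlt hc (by norm_num), d4]
      · rw [R.nab h C hl hlt hc (by norm_num), d5]
  · intro n' R' h13
    obtain rfl := R.unique R'
    refine ⟨?_, ?_⟩
    · intro z hz hp
      obtain ⟨μ, hμ, hz'⟩ := mem_YW.mp hz
      obtain ⟨h1, h2, h3⟩ := mem_tY.mp hz'
      have h4 : Cvs (cW e) (2 ^ 12) z := cvs_one (a := 12) hp
      have h5 := cvs_inj R h C h2 (Nat.pow_lt_pow_right (by norm_num) (by omega)) h3 h4
      omega
    · exact W.thc (a := 12) (th := fun a => Gbth.getD a 0) (by omega)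

/-- **The data of every component, second stage.** -/
theorem exists_DB (h : Wd.NJ P r 6) (C : Cp.Comp 6 (t : P) lo hi e) (S : Wd.Shape 6 lo hi)
    (hF : ¬ Wd.F1 lo hi) (A : T1a t lo hi e) : ∃ Y θ B, DB t lo hi e Y θ B := by
  classical
  have light : lo 3 = hi 3 → ∃ Y θ B, DB t lo hi e Y θ B := by
    intro h3
    refine ⟨Y7 t, fun x => lev x - 3, fun _ => False, tdLight h C h3 (by norm_num) GB, ?_⟩
    intro n R
    have := R.l3
    omega
  rcases S with h1 | ⟨h1, h2⟩ | ⟨h0, h2⟩ | ⟨h0, -, -⟩ | ⟨-, h1⟩ | ⟨a, h0, h1, h2, h3, -, h4⟩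
  · have e3 := h1 3 (by norm_num)
    exact light (by omega)
  · -- rectangle
    rcases Nat.lt_or_ge (lo 3) (hi 3) with hlt | hge
    · obtain ⟨Y, θ, B, T⟩ := tdRectB h C h1 h2 hlt GB
      refine ⟨Y, θ, B, T, ?_⟩
      intro n R
      have := R.h2
      omega
    · have := C.lo_le 3 (by norm_num)
      exact light (by omega)
  · -- stair
    have e3 := h2.hi 3 (by norm_num)
    have e2 := h2.hi 2 (by norm_num)
    norm_num at e3 e2
    rcases Nat.eq_zero_or_pos (lo 3) with hz | hz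
    · obtain ⟨Y, θ, B, T⟩ := tdStair h C h2 hz 13 (m := 13) le_rfl GB
      refine ⟨Y, θ, B, T, ?_⟩
      intro n R
      have := R.h2
      omega
    · have := C.lo_le 3 (by norm_num)
      exact light (by omega)
  · omega
  · exact absurd h1 hF
  · -- late
    rcases Nat.lt_or_ge 3 a with ha | ha
    · have e3 := h2 3 ha
      exact light (by omega)
    · obtain rfl : a = 3 := by omega
      have D : LateD 6 3 lo hi := ⟨h0, h1, h2, h3, h4⟩
      rcases h4 with ⟨-, g2⟩ | g2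
      · have hq := D.quad C g2
        have Q : QRows 6 3 lo hi := ⟨h2, h3, by
          intro k hk hk2
          have := hq (k - 3) (by omega) (by omega)
          rwa [show 3 + (k - 3) = k by omega] at this⟩
        refine ⟨∅, fun _ => 0, _, tdQuad h C Q (n := 13) (m := 13) (G := GB) ?_, ?_⟩
        · intro z hz hl _ _ k1
          exact (A.quad Q z hz hl k1).elim
        · exact fun n R => (R.not_quad Q).elim
      · obtain ⟨n, R⟩ := exists_rw C h2 h3 g2
        exact DB.of_word h C A R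

/-- the leading term for the label 3 -/
lemma lt_three3 {h : P → ℕ} {z : P} (hh : h z = 3) (h3 : nab 3 z = 2) (h4 : nab 4 z = 2)
    (h5 : nab 5 z = 2) (h6 : nab 6 z = 1) : 1 ≤ (lv P 3).card ∧
      Lt 3 h z = X ^ (below P 3 + 6) * (1 + X) ^ ((lv P 3).card - 1) := by
  have hB : 2 ≤ (lv P 3).card := by
    have := nab_le z 3
    omega
  refine ⟨by omega, ?_⟩
  have h1 : nst 3 h z = 6 := by
    rw [nst_eq, hh]
    simp only [Finset.sum_range_succ, Finset.sum_range_zero]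
    norm_num
    omega
  unfold Lt
  rw [h1, hh, h3, show nab (3 + 3) z = 1 from h6]
  congr 2

end

section

variable {P : Type u} [Fintype P] [PartialOrder P] [DecidableEq P] {r : ℕ}

/-- **The second stage.** -/
theorem stageB {lo hi : Tops P → ℕ → ℕ} {e : Tops P → ℕ → ℕ → P} (h : Wd.NJ P r 6)
    (C : ∀ t : Tops P, Cp.Comp 6 (t : P) (lo t) (hi t) (e t))
    (S : ∀ t, Wd.Shape 6 (lo t) (hi t)) (t : Tops P) {n : ℕ} (R : Rw n (lo t) (hi t))
    (hn : 13 ≤ n) : ∀ z, ¬ Pend z (e t 6 1) := by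
  classical
  choose Y θ B D using fun t => exists_DB h (C t) (S t) (NJ_no_six h C S t) (stageA h C S t)
  have W : C6 P r 13 13 (fun t => hi t 3 - lo t 3 + 1) Y θ B GB :=
    ⟨h, (card_level h.g.H h.g.good C (i := 3) (by norm_num)).symm, fun t => (D t).td⟩
  have L := W.lad
  have no12 : ∀ z ∈ bdR (unnat (N6 Y)), cst 3 (h6 Y θ) z ≠ 12 := by
    refine Lad.step L h.g.H.gauss W.sum_b (n := 12) (a := below P 3 + 6) (by norm_num) ?_ ?_
    · intro z hz
      show 12 ≤ cst 3 (h6 Y θ) z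
      rcases W.kind hz with h1 | ⟨-, h1, h2, h3, -⟩
      · omega
      · rw [h1, h2, h3]
    · intro z hz hc
      have hc' : cst 3 (h6 Y θ) z = 12 := hc
      rcases W.kind hz with h1 | ⟨-, h1, h2, -, h3, h4, h5, h6'⟩
      · omega
      · exact lt_three3 h2 h3 h4 h5 h6'
  intro z hz
  obtain ⟨v5, v6, hv⟩ := R.vals
  obtain ⟨hl, -⟩ := lev7_of h (C t) (s := 1) (by omega) (by omega) hz.1
  have hxt := (C t).le_t 6 1 le_rfl (by omega) (by omega)
  obtain ⟨h1, h2⟩ := (D t).flip n R hn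
  obtain ⟨g1, -, y, g2, -, -, g3⟩ := W.mem_bd hz.1 hxt hl (fun h' => h1 z h' hz)
  rw [hz.2 y g2, h2] at g3
  refine no12 z g1 ?_
  have h3 : Cvs (cW (e t)) (2 ^ 12) z := cvs_one (a := 12) hz
  rw [cst7 hl, g3, R.cost h (C t) hl (Nat.pow_lt_pow_right (by norm_num) (by omega)) h3]
  exact (cc_flip n (R.mem2 hn)).1

end

end Pool.Agent.GaussPoset.J6

end

/-! From `Pool.Agent.W_448j6_h22.KaR` -/

section

/-!
**Level 6, the late words with two elements on the level 3** (MP_448cb3_co, `j = 6`): no pendant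
below the end of the long chain, no element below both ends, no pendant below `(6, 1)`; nothing on
the level 7 below a quadric.
-/

namespace Pool.Agent.GaussPoset.J6

set_option linter.unusedSectionVars false

open Polynomial Finset Dd J8 J10 Wd Cl Sg

universe u

section

variable {P : Type u} [Fintype P] [PartialOrder P] [DecidableEq P] {r : ℕ}

/-- elements of level 7 below a quadric are pendants of cost 4 -/
lemma quad7 {t : Tops P} {lo hi : ℕ → ℕ} {e : ℕ → ℕ → P} (h : Wd.NJ P r 6)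
    (C : Cp.Comp 6 (t : P) lo hi e) (Q : QRows 6 3 lo hi) {z : P} (hz : z ≤ (t : P))
    (hl : lev z = 7) : cK 1 z = 4 := by
  classical
  have hQ : QInf 3 3 t := Q.inf (m := 3) C (by norm_num)
  have hup := low_up (t := t) (m := 3) h.g
  obtain ⟨x, hzx⟩ := ex_cov7 hl
  obtain ⟨hxt, hxl, -⟩ := cov7 h C hz hl hzx
  have hpend : Pend z x := by
    refine ⟨hzx, fun y hzy => ?_⟩
    obtain ⟨hyt, hyl, -⟩ := cov7 h C hz hl hzy
    exact le_antisymm (hQ.bot y hyt (by omega) x hxt (by omega))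
      (hQ.bot x hxt (by omega) y hyt (by omega))
  have hpr := quad_prof hQ hxt (by omega) hup (by norm_num)
  have q : ∀ l, 3 ≤ l → l ≤ 6 → nab l x = 1 + Fi.gD (List.replicate 3 0 ++ [1]) (6 - l) := by
    intro l h5 h6
    have := hpr (6 - l) (by omega)
    rw [show 2 * 3 - (6 - l) = l by omega] at this
    exact this
  have p4 : nab 4 x = 1 := by rw [q 4 (by norm_num) (by norm_num)]; rfl
  have p5 : nab 5 x = 1 := by rw [q 5 (by norm_num) (by norm_num)]; rfl
  have p6 : nab 6 x = 1 := by rw [q 6 (by norm_num) (by norm_num)]; rfl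
  have hn : ∀ k, k ≤ 6 → nab k z = nab k x := fun k hk => nab_pend hpend (by omega)
  have n7 : nab 7 z = 1 := by
    have := nab_self (z := z)
    rwa [hl] at this
  unfold cK
  rw [hn 4 (by norm_num), hn 5 (by norm_num), hn 6 le_rfl, n7, p4, p5, p6]
  norm_num

/-- the late shapes with two elements on the level 3 -/
lemma late3_cases {t : Tops P} {lo hi : ℕ → ℕ} {e : ℕ → ℕ → P}
    (C : Cp.Comp 6 (t : P) lo hi e) (S : Wd.Shape 6 lo hi) (hF : ¬ Wd.F1 lo hi)
    (h2 : hi 2 = 0) (h3 : lo 3 < hi 3) : QRows 6 3 lo hi ∨ ∃ n, Rw n lo hi := by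
  rcases S with h1 | ⟨h1, g2⟩ | ⟨h0, g2⟩ | ⟨h0, -, -⟩ | ⟨-, h1⟩ | ⟨a, h0, h1, g2, g3, -, h4⟩
  · have := h1 3 (by norm_num)
    omega
  · have := C.hi_step 1 (by norm_num)
    norm_num at this
    omega
  · have := g2.hi 2 (by norm_num)
    norm_num at this
    omega
  · omega
  · exact absurd h1 hF
  · rcases Nat.lt_or_ge 3 a with ha | ha
    · have := g2 3 ha
      omega
    · obtain rfl : a = 3 := by omega
      have D : LateD 6 3 lo hi := ⟨h0, h1, g2, g3, h4⟩
      rcases h4 with ⟨-, g4⟩ | g4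
      · left
        have hq := D.quad C g4
        refine ⟨g2, g3, ?_⟩
        intro k hk hk2
        have := hq (k - 3) (by omega) (by omega)
        rwa [show 3 + (k - 3) = k by omega] at this
      · exact Or.inr (exists_rw C g2 g3 g4)

/-- **Level 6, words with two elements on the level 3.** -/
theorem late6 {lo hi : Tops P → ℕ → ℕ} {e : Tops P → ℕ → ℕ → P} (h : Wd.NJ P r 6)
    (C : ∀ t : Tops P, Cp.Comp 6 (t : P) (lo t) (hi t) (e t))
    (S : ∀ t, Wd.Shape 6 (lo t) (hi t)) (t : Tops P) (h2 : hi t 2 = 0) (h3 : lo t 3 < hi t 3) :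
    (QRows 6 3 (lo t) (hi t) ∧ ∀ z, z ≤ (t : P) → lev z ≠ 7) ∨
    ((∃ n, Rw n (lo t) (hi t)) ∧ (∀ z, ¬ Pend z (e t 6 3)) ∧
      (lo t 6 = 0 → ∀ z, z ⋖ e t 6 0 → z ⋖ e t 6 3 → False) ∧
      (lo t 6 ≤ 1 → ∀ z, ¬ Pend z (e t 6 1))) := by
  classical
  have A := stageA h C S t
  rcases late3_cases (C t) (S t) (NJ_no_six h C S t) h2 h3 with Q | ⟨n, R⟩
  · left
    refine ⟨Q, fun z hz hl => ?_⟩
    exact A.quad Q z hz hl (quad7 h (C t) Q hz hl)
  · right
    obtain ⟨v5, v6, hv⟩ := R.vals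
    refine ⟨⟨n, R⟩, A.tail n R, ?_, ?_⟩
    · intro h0 z hz0 hz3
      obtain rfl : n = 14 := by omega
      obtain ⟨hl, hzt⟩ := lev7_of h (C t) (s := 3) (by omega) (by omega) hz3
      refine A.r03 R z hl ?_
      have h4 : Cvs (cW (e t)) (Nat.lor (2 ^ 13) (2 ^ 10)) z := by
        refine cvs_two (a := 13) (b := 10) hz0 hz3 fun y hy => ?_
        refine uc_pair h.g.H hz0 hz3 ?_ hy
        intro hh
        have := (C t).inj 6 0 3 le_rfl (by omega) (by omega) (by omega) (by omega) hh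
        omega
      exact h4
    · intro h0
      exact stageB h C S t R (by omega)

end

end Pool.Agent.GaussPoset.J6

end

/-! From `Pool.Agent.W_448j6_h22.KbN` -/

section

/-!
MP_448cb3_co, G2, case B, `j = 6`: the pattern [DL] with at least four sites, `w32` free.
-/

namespace Pool.Agent.GaussPoset.EK

set_option linter.unusedSectionVars false

open Finset Win St Polynomial Wd Win.W4

universe u

variable {P : Type u} [Fintype P] [PartialOrder P] [DecidableEq P] {r i j n : ℕ}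

variable {m m' : ℕ} {x x' : ℕ → P} {c c' : ℕ → ℤ} {β β' : ℤ} {t : Tops P}

variable {K : Finset P} {psi : P → P} {Y V : P → P} {w v : P}

section one

variable {lo hi : ℕ → ℕ} {e : ℕ → ℕ → P}

/-- an element with a single cover is a pendant -/
lemma pend_of {z y : P} (hz : z ∈ pen y) : Pend z y := by
  obtain ⟨hz1, hz2⟩ := Win.mem_pen.1 hz
  refine ⟨hz1, fun s hs => ?_⟩
  obtain ⟨s', hs'⟩ := card_eq_one.1 hz2
  have e1 : s ∈ uc z := mem_uc.2 hs
  have e2 : y ∈ uc z := mem_uc.2 hz1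
  rw [hs', mem_singleton] at e1 e2
  rw [e1, e2]

/-- the pendants of a stair of the level 6 are below its straight end -/
lemma stair_pen6 (h : NJ P r 6) (C : Cp.Comp 6 (t : P) lo hi e) (S : StairShape 6 lo hi)
    (h3 : lo 3 = 0) {s : ℕ} (s1 : lo 6 ≤ s) (s2 : s ≤ hi 6) (hs : s ≠ 0) :
    pen (e 6 s) = ∅ := by
  rw [eq_empty_iff_forall_notMem]
  intro z hz
  obtain ⟨Nc, co, T⟩ := J6.exists_StR h C S h3
  have hl := C.lev_e 6 s le_rfl s1 s2
  have ht := C.le_t 6 s le_rfl s1 s2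
  have h1 := T.pend h C ht hl (pend_of hz)
  rw [T.co_eq _ (mem_lowPart.mpr ⟨ht, hl.le⟩)] at h1
  unfold ccoord at h1
  rw [scoord_e C le_rfl s1 s2] at h1
  exact hs (Prod.ext_iff.1 h1).1

/-- the last site of a row has at most one pendant -/
lemma NJ.pen_last (h : NJ P r j) (hj : 2 ≤ j) (B : RowB P j t 3 x c β) (c2 : c 2 = 0) :
    (pen (x 3)).card ≤ 1 := by
  have W := NJ.prow h hj B (by omega)
  have h1 := W.deg (k := 3) le_rfl
  have h2 := W.dc_le (k := 3) le_rfl
  have h3 := B.dcv_x h.g.H (k := 2) (l := 3) (by omega) le_rfl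
  rw [if_pos rfl, c2] at h3
  have h4 : dcv (x 3) (x 2) ≤ ∑ l ∈ (range (3 + 1)).erase 3, dcv (x 3) (x l) :=
    single_le_sum (f := fun l => dcv (x 3) (x l)) (fun _ _ => Nat.zero_le _)
      (mem_erase.2 ⟨by omega, mem_range.2 (by omega)⟩)
  rw [kf_dcv_comm] at h4
  omega

end one

section all

variable {lo hi : Tops P → ℕ → ℕ} {e : Tops P → ℕ → ℕ → P}

/-- a double edge has two common children -/
lemma RowB.dd (h : NJ P r j) (B : RowB P j t m x c β) (hm : 1 ≤ m) (c0 : c 0 = 1) :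
    dcv (x 0) (x 1) = 2 := by
  have h3 := B.dcv_x h.g.H (k := 0) (l := 1) (by omega) hm
  rw [if_pos rfl, c0] at h3
  omega

/-- the values of a late row with at least four sites -/
lemma late6_vals (h : NJ P r 6) (C : ∀ t : Tops P, Cp.Comp 6 (t : P) (lo t) (hi t) (e t))
    (hS : ∀ t : Tops P, Shape 6 (lo t) (hi t)) (t : Tops P) {a : ℕ} (g0 : 3 ≤ a) (g1 : a ≤ 6)
    (g2 : ∀ k, k < a → lo t k = 0 ∧ hi t k = 0) (g3 : lo t a = 0 ∧ hi t a = 1)
    (g4 : ((1 ≤ 6 - a ∧ 6 - a ≤ a) ∧ word (lo t) (hi t) a (6 - a) = Qw (6 - a)) ∨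
      word (lo t) (hi t) a (6 - a) ∈ lateW a)
    (hw : lo t 6 + 3 ≤ hi t 6) :
    (∀ z, z ≤ (t : P) → lev z ≠ 7) ∨
    (lo t 4 = 0 ∧ hi t 4 = 1 ∧ lo t 5 = 0 ∧ hi t 5 = 2 ∧ lo t 6 = 0 ∧ hi t 6 = 3 ∧
      (∀ z, ¬ Pend z (e t 6 3)) ∧ (∀ z, z ⋖ e t 6 0 → z ⋖ e t 6 3 → False) ∧
      (∀ z, ¬ Pend z (e t 6 1))) := by
  classical
  have Ct := C t
  have hstep : ∀ k, k < a + (6 - a) → lo t k ≤ lo t (k + 1) ∧ lo t (k + 1) ≤ lo t k + 1 := by
    intro k hk
    have := Ct.lo_step k (by omega)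
    omega
  have hstep' : ∀ k, k < a + (6 - a) → hi t k ≤ hi t (k + 1) ∧ hi t (k + 1) ≤ hi t k + 1 := by
    intro k hk
    have := Ct.hi_step k (by omega)
    omega
  have key := late_wide g3 hstep hstep' g4 (by rw [show a + (6 - a) = 6 by omega]; omega)
  have ha : a = 3 := by
    have hl : (word (lo t) (hi t) a (6 - a)).length = 6 - a := by
      unfold word
      rw [List.length_map, List.length_range]
    rcases key with w | w | w | w | w <;> rw [w] at hl <;>
      simp only [List.length_cons, List.length_nil] at hl <;> omega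
  subst ha
  rcases J6.late6 h C hS t (g2 2 (by omega)).2 (by omega) with ⟨-, q⟩ | ⟨⟨n, R⟩, q1, q2, q3⟩
  · exact Or.inl q
  · right
    obtain ⟨v5, v6, hv⟩ := R.vals
    have hn : n = 14 := by omega
    subst hn
    have l5 : lo t 5 = 0 := by omega
    have l6 : lo t 6 = 0 := by omega
    have s1 := Ct.lo_step 4 (by omega)
    have s2 := Ct.lo_step 3 (by omega)
    have s3 := Ct.hi_step 4 (by omega)
    have s4 := Ct.hi_step 3 (by omega)
    have hh4 : hi t 4 = 1 := by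
      have := R.hhi 4 (by norm_num)
      rw [this]
      rfl
    norm_num at s1 s2
    exact ⟨by omega, hh4, l5, v5, l6, v6, q1, q2 l6, q3 (by omega)⟩

end all

end Pool.Agent.GaussPoset.EK

end
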