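import Mathlib
import Pool.Agent.W_448zz_h61.Ns
import Pool.Agent.W_448zz_h61.M037
import Pool.Agent.W_448zz_h61.M074
import Pool.Agent.W_448zz_h61.M115
import Pool.Agent.W_448zz_h61.M231

/-! From `Pool.Agent.W_448wd_h84.WdS` -/

section

/-!
# MP_448cb3_co, (E,1)(a) for the quadric rows: component form
-/

namespace Pool.Agent.GaussPoset.Win

set_option linter.unusedSectionVars false

open Finset

universe u

variable {P : Type u} [Fintype P] [PartialOrder P] [DecidableEq P] {r j a E : ℕ}
variable {t : P} {lo hi : ℕ → ℕ} {x : ℕ → ℕ → P}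

/-- the data of the chains of a component with quadric rows -/
lemma Comp.qd (C : Comp P t j lo hi x) (h : GoodTo P r j) (ht : lev t = 0)
    (ha : ∀ k, k < a → lo k = hi k) (hb : hi a = lo a + 1)
    (hone : ∀ k, 1 ≤ k → k < E → lo (a + k) = hi (a + k)) (hE : 2 ≤ E) (hEa : E ≤ a + 1)
    (hj : a + E ≤ j) {S : Finset P} (hS : ∀ y, lev y ≤ a + E → (y ∈ S ↔ y ≤ t))
    (hP : Part a S) :
    Wd.Qd r a E S (fun k => x k (lo k)) (x a (lo a)) (x a (lo a + 1)) := by
  have hr := h.hr
  have hl : ∀ k, k < a + E → k ≠ a → lo k = hi k := by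
    intro k h1 h2
    rcases Nat.lt_or_ge k a with h3 | h3
    · exact ha k h3
    · have := hone (k - a) (by omega) (by omega)
      rwa [show a + (k - a) = k by omega] at this
  have m0 : ∀ k b, k ≤ a + E → lo k ≤ b → b ≤ hi k → x k b ∈ S ∧ lev (x k b) = k := by
    intro k b h1 h2 h3
    have h4 := C.lev_x k (by omega) b h2 h3
    exact ⟨(hS _ (by omega)).2 (C.le_t k (by omega) b h2 h3), h4⟩
  refine ⟨h.H, by omega, hP, ?_, hE, hEa, ?_, ?_, ?_, ?_, ?_, ?_, ?_, ?_, ?_⟩
  · intro y z hz hyz hl
    have h1 := lev_cov h.H hyz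
    exact (hS y (by omega)).2 (hyz.le.trans ((hS z (by omega)).1 hz))
  · exact C.inj a (by omega) _ _ le_rfl (by omega) (by omega)
  · intro z hz hzl
    obtain ⟨b, b1, b2, rfl⟩ := C.surj a (by omega) z hzl ((hS z (by omega)).1 hz)
    rcases Nat.lt_or_ge (lo a) b with h1 | h1
    · right
      congr 1
      omega
    · left
      congr 1
      omega
  · exact (m0 a (lo a) (by omega) le_rfl (by omega)).1
  · exact (m0 a (lo a + 1) (by omega) (by omega) (by omega)).1
  · exact (m0 a (lo a) (by omega) le_rfl (by omega)).2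
  · exact (m0 a (lo a + 1) (by omega) (by omega) (by omega)).2
  · intro k h1 h2
    exact (m0 k (lo k) (by omega) le_rfl (C.lohi k (by omega))).1
  · intro k h1 h2
    exact (m0 k (lo k) (by omega) le_rfl (C.lohi k (by omega))).2
  · intro z hz h1 h2
    obtain ⟨b, b1, b2, h3⟩ := C.surj (lev z) (by omega) z rfl ((hS z (by omega)).1 hz)
    have h4 := hl (lev z) h1 h2
    have h5 : b = lo (lev z) := by omega
    rw [h5] at h3
    exact h3

/-- (E,1)(a) FOR QUADRIC ROWS, `2 ≤ E ≤ a + 1` -/
theorem Comp.al_quad (C : Comp P t j lo hi x) (h : GoodTo P r j) (ht : lev t = 0)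
    (ha : ∀ k, k < a → lo k = hi k) (hb : hi a = lo a + 1)
    (hone : ∀ k, 1 ≤ k → k < E → lo (a + k) = hi (a + k)) (hE : 2 ≤ E) (hEa : E ≤ a + 1)
    (hj : a + E ≤ j) {S : Finset P} (hS : ∀ y, lev y ≤ a + E → (y ∈ S ↔ y ≤ t))
    (hP : Part a S) :
    I2.al E 2 (ZS a S) = ((hi (a + E) + 1 - lo (a + E) : ℕ) : ℤ) - (if E ≤ a then 1 else 0) := by
  classical
  have Q := C.qd h ht ha hb hone hE hEa hj hS hP
  unfold I2.al
  rw [coeff_ZS]
  unfold dd
  rw [show (2 : ℕ) = 1 + 1 from rfl, PowerSeries.coeff_succ_X_mul]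
  have h1 := Q.c1_ZC
  rw [h1]
  have hs : S.filter (fun z => lev z = a + E) =
      (Finset.Icc (lo (a + E)) (hi (a + E))).image (x (a + E)) := by
    ext v
    rw [mem_filter, mem_image]
    constructor
    · rintro ⟨h1, h2⟩
      obtain ⟨b, b1, b2, rfl⟩ := C.surj (a + E) hj v h2 ((hS v (by omega)).1 h1)
      exact ⟨b, Finset.mem_Icc.2 ⟨b1, b2⟩, rfl⟩
    · rintro ⟨b, hb, rfl⟩
      rw [Finset.mem_Icc] at hb
      have hl := C.lev_x (a + E) hj b hb.1 hb.2
      exact ⟨(hS _ (by omega)).2 (C.le_t (a + E) hj b hb.1 hb.2), hl⟩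
  rw [hs, Finset.card_image_of_injOn, Nat.card_Icc]
  intro b hb c hc hbc
  rw [Finset.mem_coe, Finset.mem_Icc] at hb hc
  exact C.inj' hj hb.1 hb.2 hc.1 hc.2 hbc

end Pool.Agent.GaussPoset.Win

end

/-! From `Pool.Agent.W_448wd_h84.WdG` -/

section

/-!
# MP_448cb3_co, the late components with three or more elements at a window `j - E`, `E ≥ 4`

Known: `Laws3` at level `j`, `Laws` at level `j - 1`, and the identities (E',1) at level `j` for `E' < E`.
Then the component is `E7` and the window is `8`.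
-/

namespace Pool.Agent.GaussPoset.Wd

/-- the word `E7` -/
def E7 : List Ltr := [OC, CO, CO, OO, CC, OC, OC, CO, CC, OC, OC, OC]

/-- the check of the word `w` of length `d + 1` at the window `E` levels above the last one -/
def ChkE (A d : ℕ) (w : List Ltr) (E : ℕ) : Prop :=
  4 ≤ E → (∀ q ∈ badK A, q.1 < E → q.2 ≠ w) → Lw w (d + 4 - E) + 2 ≤ Hw w (d + 4 - E) →
    A = 4 ∧ d + 1 = E + 4 ∧ E ≤ 8 ∧ (w = E7.take (d + 1) ∨ (d = 7 ∧ w = E7.take 7 ++ [OO]))

instance (A d : ℕ) (w : List Ltr) (E : ℕ) : Decidable (ChkE A d w E) := by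
  unfold ChkE; infer_instance

/-- the check of the word `w` of length `d + 1` -/
def ChkW (A d : ℕ) (w : List Ltr) : Prop := NewA w → ∀ E, E < d + 2 → ChkE A d w E

instance (A d : ℕ) (w : List Ltr) : Decidable (ChkW A d w) := by
  unfold ChkW; infer_instance

/-- the check of the words of length `d + 1` -/
def Chk (A d : ℕ) : Prop := ∀ w ∈ tree A d, ∀ l ∈ [OO, CO, OC, CC], ChkW A d (w ++ [l])

instance (A d : ℕ) : Decidable (Chk A d) := by unfold Chk; infer_instance

lemma chk3 : ∀ d, d < 8 → Chk 3 d := by decide +kernel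
lemma chk4 : ∀ d, d < 13 → Chk 4 d := by decide +kernel
lemma chk5 : ∀ d, d < 8 → Chk 5 d := by decide +kernel
lemma chk6 : ∀ d, d < 8 → Chk 6 d := by decide +kernel
lemma chk7 : ∀ d, d < 8 → Chk 7 d := by decide +kernel
lemma chk8 : ∀ d, d < 8 → Chk 8 d := by decide +kernel

variable {lo hi : ℕ → ℕ} {j a d : ℕ}

lemma last_letter (p q : Bool) : (p, q) ∈ [OO, CO, OC, CC] := by
  cases p <;> cases q <;> decide

/-- the level `j` for the components of first double level `a ≥ 8`, `j - 1 ≥ a + 8`: rows of one element -/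
lemma quad_rows (h : Laws lo hi (j - 1)) (hN : NF lo hi j) (h0 : 8 ≤ a) (haj : a + 9 ≤ j)
    (h1 : ∀ k, k < a → lo k = hi k) (h2 : lo a < hi a) (hor : (word lo hi a (j - a)).head? ≠ some CO) :
    ∀ k, 1 ≤ k → a + k < j → lo (a + k) = hi (a + k) := by
  have hN' : NF lo hi (j - 1) := fun k hk => hN k (by omega)
  have hor' : (word lo hi a (j - 1 - a)).head? ≠ some CO := head_word (by omega) hor
  have h4 := h.mem_tree hN' (by omega) h1 h2 (A := 8) 8 (by omega) (Or.inr (by omega))
    (head_word (d := j - a) (by omega) hor)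
  rw [tree8', List.mem_singleton] at h4
  have hL := h.Lw_word hN' (by omega) h1 h2 (d := 8) (by omega)
  have hH := h.Hw_word hN' (by omega) h1 h2 (d := 8) (by omega)
  rw [h4] at hL hH
  have hr : ∀ k, 1 ≤ k → k ≤ 8 → lo (a + k) = 1 ∧ hi (a + k) = 1 := by
    intro k hk hk'
    have e1 := hL (k + 3) (by omega)
    have e2 := hH (k + 3) (by omega)
    rw [show a - 3 + (k + 3) = a + k by omega] at e1 e2
    rw [← e1, ← e2]
    interval_cases k <;> decide
  intro k hk hk'
  have h7 := h.quad (by omega) h1 h2 (fun k hk hk' => by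
    have := hr k hk (by omega)
    omega) (j - 1 - a) (by omega)
  exact (h7 k hk (by omega)).1

/-- THREE ELEMENTS AT THE WINDOW `j - E`, `E ≥ 4`: only `E7` at the window `8` -/
theorem late_b3 (h3 : Laws3 lo hi j) (h : Laws lo hi (j - 1)) (hN : NF lo hi j) (h0 : 3 ≤ a)
    (haj : a ≤ j) (h1 : ∀ k, k < a → lo k = hi k) (h2 : lo a < hi a)
    (hor : (word lo hi a (j - a)).head? ≠ some CO) {E : ℕ} (hE : 4 ≤ E) (hEj : E < j)
    (hbad : ∀ q ∈ badK a, q.1 < E → a + q.2.length = j → word lo hi a q.2.length ≠ q.2)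
    (hb : lo (j - E) + 2 ≤ hi (j - E)) :
    a = 4 ∧ j = 8 + E ∧ E ≤ 8 ∧ (word lo hi 4 (j - 4) = E7.take (j - 4) ∨
      (j = 12 ∧ word lo hi 4 8 = E7.take 7 ++ [OO])) := by
  have hat := h3.at_a hN haj (by omega) h1 h2
  have hia : a < j - E := by
    by_contra hc
    rcases Nat.lt_or_ge (j - E) a with h4 | h4
    · have := h1 _ h4
      omega
    · have h5 : j - E = a := by omega
      rw [h5] at hb
      omega
  obtain ⟨d, hd⟩ : ∃ d, j - a = d + 1 := ⟨j - a - 1, by omega⟩
  have hN' : NF lo hi (j - 1) := fun k hk => hN k (by omega)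
  have hor' : (word lo hi a d).head? ≠ some CO := head_word (d := j - a) (by omega) hor
  have hnew : NewA (word lo hi a (d + 1)) := by
    have := h3.new hN h0 h1 h2 (d := d + 1) (by omega) (by rw [← hd]; exact hor)
    exact this
  have hL := h3.Lw_word hN h0 h1 h2 (d := d + 1) (by omega)
  have hH := h3.Hw_word hN h0 h1 h2 (d := d + 1) (by omega)
  have e1 := hL (d + 4 - E) (by omega)
  have e2 := hH (d + 4 - E) (by omega)
  rw [show a - 3 + (d + 4 - E) = j - E by omega] at e1 e2
  rw [← e1, ← e2] at hb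
  have hlen : (word lo hi a (d + 1)).length = d + 1 := word_length
  -- the general conclusion from the check
  have key : ∀ A, (A = a ∨ (A = 8 ∧ d ≤ 8 ∧ 8 ≤ a)) → Chk A d →
      A = 4 ∧ d + 1 = E + 4 ∧ E ≤ 8 ∧ (word lo hi a (d + 1) = E7.take (d + 1) ∨
        (d = 7 ∧ word lo hi a (d + 1) = E7.take 7 ++ [OO])) := by
    intro A hA hC
    have hm := h.mem_tree hN' h0 h1 h2 (A := A) d (by omega) hA hor'
    rw [word_succ] at hnew hb ⊢
    refine hC _ hm _ (last_letter _ _) hnew E (by omega) hE ?_ hb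
    intro q hq hqE hqw
    have hq' : q ∈ badK a := by
      rcases hA with rfl | ⟨rfl, hA⟩
      · exact hq
      · rw [badK_large (a := a) (by omega)]
        exact hq
    have hl : q.2.length = d + 1 := by
      rw [hqw, List.length_append, word_length]
      rfl
    refine hbad q hq' hqE (by omega) ?_
    rw [hl, word_succ]
    exact hqw.symm
  -- `a < 8`
  have small : ∀ N, (∀ d, d < N → Chk a d) → tree a N = [] →
      a = 4 ∧ d + 1 = E + 4 ∧ E ≤ 8 ∧ (word lo hi a (d + 1) = E7.take (d + 1) ∨
        (d = 7 ∧ word lo hi a (d + 1) = E7.take 7 ++ [OO])) := by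
    intro N hN1 hN2
    rcases Nat.lt_or_ge d N with h5 | h5
    · exact key a (Or.inl rfl) (hN1 d h5)
    · have h6 := h.mem_tree hN' h0 h1 h2 (A := a) N (by omega) (Or.inl rfl)
        (head_word (d := j - a) (by omega) hor)
      rw [hN2] at h6
      simp at h6
  have fin : a = 4 ∧ d + 1 = E + 4 ∧ E ≤ 8 ∧ (word lo hi a (d + 1) = E7.take (d + 1) ∨
        (d = 7 ∧ word lo hi a (d + 1) = E7.take 7 ++ [OO])) := by
    rcases Nat.lt_or_ge a 8 with h8 | h8
    · obtain rfl | rfl | rfl | rfl | rfl : a = 3 ∨ a = 4 ∨ a = 5 ∨ a = 6 ∨ a = 7 := by omega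
      · exact small 8 chk3 tree3'
      · exact small 13 chk4 tree4'
      · exact small 8 chk5 tree5'
      · exact small 8 chk6 tree6'
      · exact small 8 chk7 tree7'
    · rcases Nat.lt_or_ge d 8 with h5 | h5
      · have := (key 8 (Or.inr (by omega)) (chk8 d h5)).1
        omega
      · have h6 := quad_rows h hN h8 (by omega) h1 h2 hor (j - E - a) (by omega) (by omega)
        rw [show a + (j - E - a) = j - E by omega] at h6
        omega
  obtain ⟨rfl, f2, f3, f4⟩ := fin
  refine ⟨rfl, by omega, f3, ?_⟩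
  rw [show j - 4 = d + 1 by omega]
  rcases f4 with f4 | ⟨f4, f5⟩
  · exact Or.inl f4
  · subst f4
    exact Or.inr ⟨by omega, f5⟩

/-- the check for `j = 16`, window `8` -/
lemma chk16 : ∀ w ∈ tree 8 7, ∀ l ∈ [OO, CO, OC, CC], NewA (w ++ [l]) → w = Qw 7 := by decide +kernel

lemma chk16' : ∀ w ∈ tree 4 11, Lw w 7 + 2 ≤ Hw w 7 := by decide +kernel

/-- `j = 16`, window `8`, two elements at the window: quadric rows -/
theorem late_16 (h3 : Laws3 lo hi 16) (h : Laws lo hi 15) (hN : NF lo hi 16) (h0 : 3 ≤ a)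
    (haj : a ≤ 16) (h1 : ∀ k, k < a → lo k = hi k) (h2 : lo a < hi a)
    (hor : (word lo hi a (16 - a)).head? ≠ some CO) (hb : hi 8 = lo 8 + 1) :
    a = 8 ∧ ∀ k, 1 ≤ k → k < 8 → lo (8 + k) = hi (8 + k) := by
  have hN' : NF lo hi 15 := fun k hk => hN k (by omega)
  have hia : a ≤ 8 := by
    by_contra hc
    have := h1 8 (by omega)
    omega
  have small : ∀ N, a + N ≤ 15 → tree a N = [] → False := by
    intro N hN1 hN2
    have h6 := h.mem_tree hN' h0 h1 h2 (A := a) N (by omega) (Or.inl rfl)
      (head_word (d := 16 - a) (by omega) hor)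
    rw [hN2] at h6
    simp at h6
  obtain rfl | rfl | rfl | rfl | rfl | rfl : a = 3 ∨ a = 4 ∨ a = 5 ∨ a = 6 ∨ a = 7 ∨ a = 8 := by omega
  · exact absurd (small 8 (by omega) tree3') id
  · exfalso
    have hm := h.mem_tree hN' h0 h1 h2 (A := 4) 11 (by omega) (Or.inl rfl)
      (head_word (d := 16 - 4) (by omega) hor)
    have hL := h.Lw_word hN' h0 h1 h2 (d := 11) (by omega) 7 (by omega)
    have hH := h.Hw_word hN' h0 h1 h2 (d := 11) (by omega) 7 (by omega)
    have := chk16' _ hm
    rw [hL, hH] at this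
    simp only [Nat.reduceSub, Nat.reduceAdd] at this
    omega
  · exact absurd (small 8 (by omega) tree5') id
  · exact absurd (small 8 (by omega) tree6') id
  · exact absurd (small 8 (by omega) tree7') id
  · refine ⟨rfl, ?_⟩
    have hm := h.mem_tree hN' h0 h1 h2 (A := 8) 7 (by omega) (Or.inl rfl)
      (head_word (d := 16 - 8) (by omega) hor)
    have hnew := h3.new hN h0 h1 h2 (d := 8) (by omega) hor
    rw [word_succ] at hnew
    have hw := chk16 _ hm _ (last_letter _ _) hnew
    have hL := h.Lw_word hN' h0 h1 h2 (d := 7) (by omega)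
    have hH := h.Hw_word hN' h0 h1 h2 (d := 7) (by omega)
    rw [hw] at hL hH
    intro k hk hk'
    have e1 := hL (k + 3) (by omega)
    have e2 := hH (k + 3) (by omega)
    rw [show 8 - 3 + (k + 3) = 8 + k by omega] at e1 e2
    rw [← e1, ← e2]
    interval_cases k <;> decide

end Pool.Agent.GaussPoset.Wd

end

/-! From `Pool.Agent.W_448wd_h84.WdL` -/

section

/-!
# MP_448cb3_co: the laws and the shapes of the components (S3, S4), from the values of the identities
-/

namespace Pool.Agent.GaussPoset.Wd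

set_option linter.unusedSectionVars false

open Finset Win Win.I2

universe u

variable {P : Type u} [Fintype P] [PartialOrder P] [DecidableEq P] {r j i E : ℕ}

/-- the component `E7` down to level `J` -/
def E7c (J : ℕ) (lo hi : ℕ → ℕ) : Prop :=
  (∀ k, k < 4 → lo k = 0 ∧ hi k = 0) ∧ (lo 4 = 0 ∧ hi 4 = 1) ∧
  (word lo hi 4 (J - 4) = E7.take (J - 4) ∨ (J = 12 ∧ word lo hi 4 8 = E7.take 7 ++ [OO]))

/-- INPUT: values for explicit words -/
structure EV (P : Type u) [Fintype P] [PartialOrder P] [DecidableEq P] (r : ℕ) : Prop where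
  be_E7 : ∀ {j : ℕ} {t : Tops P} {lo hi : ℕ → ℕ} {e : ℕ → ℕ → P}, GoodTo P r j →
    Cp.Comp j (t : P) lo hi e → 12 ≤ j → j ≤ 16 → E7c j lo hi →
    ∀ m, 5 ≤ m → m ≤ 2 * (j - 8) → m ≤ 14 → be m 3 (ZS 8 (SS 8 t)) = 0
  al_E7 : ∀ {t : Tops P} {lo hi : ℕ → ℕ} {e : ℕ → ℕ → P}, GoodTo P r 16 →
    Cp.Comp 16 (t : P) lo hi e → E7c 16 lo hi → I2.al 8 3 (ZS 8 (SS 8 t)) = 0
  al_bad : ∀ {j a : ℕ} {t : Tops P} {lo hi : ℕ → ℕ} {e : ℕ → ℕ → P}, GoodTo P r j →
    Cp.Comp j (t : P) lo hi e → 3 ≤ a → (∀ k, k < a → lo k = 0 ∧ hi k = 0) → lo a = 0 ∧ hi a = 1 →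
    ∀ q ∈ badK a, a + q.2.length = j → word lo hi a q.2.length = q.2 →
    I2.al q.1 (st (j - q.1) (SS (j - q.1) t)).card (ZS (j - q.1) (SS (j - q.1) t)) ≠ 0

lemma be_of_mid {m b : ℕ} {V : PowerSeries A} (h : dd ^ b ∣ dd * PowerSeries.coeff m V) :
    be m b V = 0 := by
  unfold be
  apply coeff_eq_zero_of_dvd
  rw [pow_succ', pow_two, mul_assoc]
  exact mul_dvd_mul_left _ h

lemma badK_len {a : ℕ} : ∀ q ∈ badK a, 4 ≤ q.1 ∧ q.1 ≤ q.2.length := by
  intro q hq
  unfold badK at hq
  simp only [List.mem_append] at hq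
  have aux : ∀ (c : Prop) [Decidable c] (L : List (ℕ × List Ltr)),
      (∀ q ∈ L, 4 ≤ q.1 ∧ q.1 ≤ q.2.length) → q ∈ (if c then L else []) → 4 ≤ q.1 ∧ q.1 ≤ q.2.length := by
    intro c _ L hL h
    split_ifs at h with hc
    · exact hL q h
    · simp at h
  rcases hq with ((((((h | h) | h) | h) | h) | h) | h) | h
  all_goals exact aux _ _ (by decide) h

/-- the top of level `J` has a representation with a known profile at the window `J - n`, `n ≥ 4` -/
lemma tri (I : SO P r) (V : EV P r) (h : GoodTo P r (j + 1)) {n : ℕ} (hn : 4 ≤ n) (hi1 : 1 ≤ i)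
    (hin : i + n = j + 1)
    (hL : ∀ (t : Tops P) lo hi e, Cp.Comp j (t : P) lo hi e → Laws lo hi j)
    (hc : ∀ m, 4 ≤ m → m < n → Cln P (j + 1 - m) m) (t : Tops P) :
    ∃ lo hi e, Cp.Comp (j + 1) (t : P) lo hi e ∧
      (Early (j + 1) lo hi ∨
      ((st i (SS i t)).card ≤ 1) ∨
      ((st i (SS i t)).card = 2 ∧ (j + 1 = 16 → i = 8 → 0 ≤ I2.al 8 2 (ZS 8 (SS 8 t)))) ∨
      (i = 8 ∧ (st i (SS i t)).card = 3 ∧ 12 ≤ j + 1 ∧ j + 1 ≤ 16 ∧ E7c (j + 1) lo hi)) := by
  have hr := h.hr
  obtain ⟨lo0, hi0, e0, C0⟩ := Cp.comp_exists h.H t.2 h.hr h.good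
  obtain ⟨lo, hi, e, C, hpre⟩ := exists_pre C0 (fun lo hi e C => laws3 I h C)
  have L3 := laws3 I h C
  have L := hL t lo hi e (C.mono (by omega))
  have hcard := card_SS h (show i ≤ j + 1 by omega) C
  refine ⟨lo, hi, e, C, ?_⟩
  rcases hpre with hl | ⟨-, hR⟩ | ⟨-, hR⟩ | ⟨h0, -, -⟩ | ⟨h0, hF⟩ | ⟨a, h0, h1, h2, h3, hN, h4⟩
  · have := hl i (by omega)
    right; left
    omega
  · exact Or.inl (Or.inl hR)
  · exact Or.inl (Or.inr (Or.inl hR))
  · omega
  · -- level 6
    right
    obtain ⟨⟨f0, f1, f2, f3, f4, f5, f6⟩, ⟨g0, g1, g2, g3, g4, g5, g6⟩⟩ := hF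
    obtain rfl | rfl : i = 1 ∨ i = 2 := by omega
    · left; omega
    · right; left
      refine ⟨by omega, fun h5 => by omega⟩
  · -- late
    have ha1 : ∀ k, k < a → lo k = hi k := fun k hk => by have := h2 k hk; omega
    have ha2 : lo a < hi a := by omega
    by_cases hb : lo i + 2 ≤ hi i
    · right; right; right
      have hbad : ∀ q ∈ badK a, q.1 < n → a + q.2.length = j + 1 → word lo hi a q.2.length ≠ q.2 := by
        intro q hq hqn hql hw
        refine V.al_bad h C h0 h2 h3 q hq hql hw ?_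
        exact al_of_dvd (hc q.1 (badK_len q hq).1 hqn t)
      have L' : Laws lo hi (j + 1 - 1) := L
      obtain ⟨rfl, k2, k3, k4⟩ := late_b3 L3 L' hN h0 h1 ha1 ha2 h4 hn (by omega) hbad
        (by rwa [show j + 1 - n = i by omega])
      obtain rfl : i = 8 := by omega
      refine ⟨rfl, ?_, by omega, by omega, h2, h3, k4⟩
      rw [hcard]
      have w1 := L3.Lw_word hN h0 ha1 ha2 (d := j + 1 - 4) (by omega) 7 (by omega)
      have w2 := L3.Hw_word hN h0 ha1 ha2 (d := j + 1 - 4) (by omega) 7 (by omega)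
      simp only [Nat.reduceSub, Nat.reduceAdd] at w1 w2
      rw [← w1, ← w2]
      rcases k4 with k4 | ⟨k5, k4⟩
      · rw [k4]
        have : 8 ≤ j + 1 - 4 ∧ j + 1 - 4 ≤ 12 := by omega
        generalize j + 1 - 4 = d at this ⊢
        obtain ⟨d1, d2⟩ := this
        interval_cases d <;> decide
      · rw [show j + 1 - 4 = 8 by omega, k4]
        decide
    · right
      rcases Nat.lt_or_ge (lo i) (hi i) with hb2 | hb2
      · right; left
        have hbe : hi i = lo i + 1 := by omega
        refine ⟨by omega, ?_⟩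
        intro h16 h8
        subst h8
        obtain rfl : j = 15 := by omega
        obtain ⟨rfl, hone⟩ := late_16 L3 L hN h0 h1 ha1 ha2 h4 hbe
        have hv := C.toWin.al_quad h t.2 ha1 hbe hone (by omega) (by omega) (by omega)
          (S := SS 8 t) (fun y hy => (SS_ext h (by omega) t).mem y (by omega))
          (SS_part h (by omega) (by omega) t)
        rw [hv, if_pos le_rfl]
        have hle := C.lo_le 16 le_rfl
        simp only [Nat.reduceAdd]
        have : 1 ≤ hi 16 + 1 - lo 16 := by omega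
        have h5 : (1 : ℤ) ≤ ((hi 16 + 1 - lo 16 : ℕ) : ℤ) := by exact_mod_cast this
        linarith
      · left
        omega

/-- one stage of the induction -/
lemma stage_step (I : SO P r) (V : EV P r) (h : GoodTo P r (j + 1)) {n : ℕ} (hn : 4 ≤ n)
    (hi1 : 1 ≤ i) (hin : i + n = j + 1)
    (hL : ∀ (t : Tops P) lo hi e, Cp.Comp j (t : P) lo hi e → Laws lo hi j)
    (hlow : ∀ m, 1 ≤ m → m < n → Cln P i m)
    (hc : ∀ m, 4 ≤ m → m < n → Cln P (j + 1 - m) m) : Cln P i n := by
  have hr := h.hr
  have hlo : ∀ t : Tops P, ∀ m, m < n → dd ^ (st i (SS i t)).card ∣ ZC i (SS i t) m := by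
    intro t m hm
    rcases Nat.eq_zero_or_pos m with rfl | h0
    · rw [ZC_zero h.H (by omega)]
    · exact hlow m h0 hm t
  have hP : ∀ t : Tops P, Part i (SS i t) := fun t => SS_part h (by omega) (by omega) t
  by_cases h88 : j + 1 = 16 ∧ i = 8
  · obtain ⟨h16, rfl⟩ := h88
    obtain rfl : n = 8 := by omega
    obtain rfl : j = 15 := by omega
    have hal : ∀ t : Tops P, 0 ≤ I2.al 8 (st 8 (SS 8 t)).card (ZS 8 (SS 8 t)) := by
      intro t
      obtain ⟨lo, hi, e, C, hh⟩ := tri I V h hn hi1 hin hL hc t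
      rcases hh with hh | hh | ⟨hh, hh2⟩ | ⟨-, hh, -, -, hh2⟩
      · exact (ec_al (SS_ext h (by omega) t) h.H (by omega) h.good C hh (by omega) (by omega)).ge
      · exact (al_zero_one h.H (hP t) hh 8).ge
      · rw [hh]
        exact hh2 rfl rfl
      · rw [hh]
        exact (V.al_E7 h C hh2).ge
    refine stage_first h (by omega) hin.le ?_ hal
    intro t
    obtain ⟨lo, hi, e, C, hh⟩ := tri I V h hn hi1 hin hL hc t
    rcases hh with hh | hh | ⟨hh, hh2⟩ | ⟨-, hh, -, -, hh2⟩
    · exact ec_prof (SS_ext h (by omega) t) h.H (by omega) h.good C hh (by omega) (by omega) (by omega)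
    · exact prof_small h.H (hP t) (by omega) (hlo t) _
    · exact prof_small h.H (hP t) (by omega) (hlo t) _
    · refine prof_three h.H (hP t) hh (hlo t) ?_
      intro m hm hm2
      obtain rfl : m = 8 := by omega
      rw [hh]
      exact V.be_E7 h C (by omega) (by omega) hh2 8 (by omega) (by omega) (by omega)
  · refine stage h (by omega) hin.le ?_ ?_
    · intro t
      obtain ⟨lo, hi, e, C, hh⟩ := tri I V h hn hi1 hin hL hc t
      rcases hh with hh | hh | ⟨hh, hh2⟩ | ⟨rfl, hh, h12, h16, hh2⟩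
      · exact ec_prof (SS_ext h (by omega) t) h.H (by omega) h.good C hh (by omega) (by omega) (by omega)
      · exact prof_small h.H (hP t) (by omega) (hlo t) _
      · exact prof_small h.H (hP t) (by omega) (hlo t) _
      · refine prof_three h.H (hP t) hh (hlo t) ?_
        intro m hm hm2
        rcases Nat.lt_or_ge m 5 with hm5 | hm5
        · have h1 := prof35 h.H (by omega) (show 8 + 2 ≤ j + 1 by omega)
            (fun m _ hm => h.good m (by omega)) (split_gt h) (mem_tops t)
          rw [bb_eq h (by omega), VV_eq h (by omega)] at h1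
          exact be_of_mid (h1.mid m (by omega))
        · rw [hh]
          exact V.be_E7 h C h12 h16 hh2 m hm5 (by omega) (by omega)
    · intro t
      obtain ⟨lo, hi, e, C, hh⟩ := tri I V h hn hi1 hin hL hc t
      rcases hh with hh | hh | ⟨hh, hh2⟩ | ⟨rfl, hh, h12, h16, hh2⟩
      · exact (ec_be (SS_ext h (by omega) t) h.H (by omega) h.good C hh (by omega) (by omega)).le
      · exact (be_zero_small h.H (hP t) (by omega) _).le
      · exact (be_zero_small h.H (hP t) (by omega) _).le
      · rw [hh]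
        exact (V.be_E7 h C h12 h16 hh2 _ (by omega) (by omega) (by omega)).le

/-- THE MAIN INDUCTION: all individual identities `(E,1)(i)`, `i + E ≤ j`, and all the laws -/
theorem main (I : SO P r) (V : EV P r) : ∀ {j : ℕ}, GoodTo P r j →
    (∀ i n, 1 ≤ i → 1 ≤ n → i + 2 ≤ j → i + n ≤ j → Cln P i n) ∧
    (∀ (t : Tops P) lo hi e, Cp.Comp j (t : P) lo hi e → Laws lo hi j) := by
  intro j
  induction j with
  | zero =>
    intro h
    refine ⟨fun i n _ _ h1 _ => by omega, fun t lo hi e C => ?_⟩
    exact ⟨laws3 I h C, fun a E _ _ h3 _ h5 _ => by omega, fun a w _ _ _ h3 h5 => by omega⟩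
  | succ j ih =>
    intro h
    obtain ⟨ihA, ihL⟩ := ih (h.mono (Nat.le_succ j))
    -- the last diagonal
    have diag : ∀ n, 4 ≤ n → n + 1 ≤ j + 1 → Cln P (j + 1 - n) n := by
      intro n
      induction n using Nat.strong_induction_on with
      | _ n ihn =>
        intro hn hnj
        refine stage_step I V h hn (by omega) (by omega) ihL (fun m hm1 hm2 => ?_)
          (fun m hm hm2 => ihn m hm2 hm (by omega))
        exact ihA _ m (by omega) hm1 (by omega) (by omega)
    have hA : ∀ i n, 1 ≤ i → 1 ≤ n → i + 2 ≤ j + 1 → i + n ≤ j + 1 → Cln P i n := by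
      intro i n hi hn h2 h3
      rcases Nat.lt_or_ge n 3 with h4 | h4
      · exact cln_two h h2 hn (by omega)
      rcases Nat.lt_or_ge n 4 with h5 | h5
      · obtain rfl : n = 3 := by omega
        exact cln_three I h hi h3
      rcases Nat.lt_or_ge (i + n) (j + 1) with h6 | h6
      · exact ihA i n hi hn (by omega) (by omega)
      · have := diag n h5 (by omega)
        rwa [show j + 1 - n = i by omega] at this
    refine ⟨hA, fun t lo hi e C => ?_⟩
    have L := ihL t lo hi e (C.mono (Nat.le_succ j))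
    refine ⟨laws3 I h C, ?_, ?_⟩
    · intro a E h1 h2 h3 h4 h5 h6
      rcases Nat.lt_or_ge (a + E) (j + 1) with h7 | h7
      · exact L.fq a E h1 h2 h3 h4 (by omega) h6
      rcases Nat.lt_or_ge (a + 1) E with h8 | h8
      · -- the same law one level earlier
        have := (L.fq a (a + 1) h1 h2 h3 (by omega) (by omega) (fun k hk hk' => h6 k hk (by omega))).1
        omega
      · have hba : hi a = lo a + 1 := by
          obtain ⟨b, rfl⟩ : ∃ b, a = b + 1 := ⟨a - 1, by omega⟩
          have e1 := h1 b (by omega)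
          have e2 := C.lo_step b (by omega)
          have e3 := C.hi_step b (by omega)
          omega
        have hr := h.hr
        have hv := C.toWin.al_quad h t.2 h1 hba h6 (by omega) h8 h5
          (S := SS a t) (fun y hy => (SS_ext h (by omega) t).mem y (by omega))
          (SS_part h (by omega) (by omega) t)
        have hc := card_SS h (show a ≤ j + 1 by omega) C
        have hz := al_of_dvd (hA a E (by omega) (by omega) (by omega) (by omega) t)
        rw [hc, show hi a + 1 - lo a = 2 by omega, hv] at hz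
        have hle := C.lo_le (a + E) (by omega)
        split_ifs at hz with h9
        · exact ⟨h9, by omega⟩
        · omega
    · intro a w hw h1 h2 h3 h4 h5
      rcases Nat.lt_or_ge (a + w.length) (j + 1) with h6 | h6
      · exact L.bad a w hw h1 h2 h3 (by omega) h5
      unfold badW at hw
      obtain ⟨q, hq, rfl⟩ := List.mem_map.1 hw
      have hq2 := badK_len q hq
      refine V.al_bad h C h3 h1 h2 q hq (by omega) h5 ?_
      exact al_of_dvd (hA _ q.1 (by omega) (by omega) (by omega) (by omega) t)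

/-- THE SHAPES (S3, S4): every component natural down to level `j` has one of the shapes -/
theorem shape_all (I : SO P r) (V : EV P r) (h : GoodTo P r j) (t : Tops P) :
    ∃ lo hi e, Cp.Comp j (t : P) lo hi e ∧ Shape j lo hi := by
  obtain ⟨lo, hi, e, C⟩ := Cp.comp_exists h.H t.2 h.hr h.good
  exact exists_shape C (fun lo hi e C => (main I V h).2 t lo hi e C)

/-- all individual identities -/
theorem cln_all (I : SO P r) (V : EV P r) (h : GoodTo P r j) {n : ℕ} (hi : 1 ≤ i) (hn : 1 ≤ n)
    (h2 : i + 2 ≤ j) (h3 : i + n ≤ j) : Cln P i n :=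
  (main I V h).1 i n hi hn h2 h3

end Pool.Agent.GaussPoset.Wd

end

/-! From `Pool.Agent.W_448nl_h15.NlD` -/

section

/-!
# MP_448cb3_co, case B: one stage of the individual identities at the last level, energy at least seven
-/

namespace Pool.Agent.GaussPoset.Nl

set_option linter.unusedSectionVars false

open Finset Win Cp Wd Win.I2

universe u

variable {P : Type u} [Fintype P] [PartialOrder P] [DecidableEq P] {r i j a n : ℕ}
variable {t : Tops P} {lo hi : ℕ → ℕ} {e : ℕ → ℕ → P}

/-- one stage, case B -/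
theorem NJ.stage (h : NJ P r j) (hn1 : 1 ≤ n) (hin : i + n = j + 1)
    (hp : ∀ t : Tops P, Prof n (2 * n) (st i (SS i t)).card (ZS i (SS i t)))
    (hneg : ∀ t : Tops P, be (2 * n) (st i (SS i t)).card (ZS i (SS i t)) ≤ 0) : Wd.Cln P i n := by
  have hr := h.hr
  intro t
  have h1 := individual (univ.image (topOf : P → Tops P)) hn1 (bb i (j + 1) topOf)
    (VV i (j + 1) topOf)
    (fun c _ => by rw [h.bb_eq (by omega), h.VV_eq (by omega)]; exact hp c)
    (fun c _ => eps_sq h.g.H (by omega) c)
    (tot_dvd h.g.H (by omega) (by omega) h.split (by omega))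
    (tot_dvd h.g.H (by omega) (by omega) h.split (by omega))
    (fun c _ => by
      rw [eps_VV h.g.H (by omega), one_mul, h.bb_eq (by omega), h.VV_eq (by omega)]
      exact hneg c) t (mem_tops t)
  rw [h.bb_eq (by omega), h.VV_eq (by omega), coeff_ZS] at h1
  exact h1

/-- clean profiles -/
lemma prof_of_all {S : Finset P} (h : ∀ m, m ≤ 2 * n → dd ^ (st i S).card ∣ ZC i S m) :
    Prof n (2 * n) (st i S).card (ZS i S) ∧ be (2 * n) (st i S).card (ZS i S) = 0 := by
  have h2 : ∀ m, m ≤ 2 * n → dd ^ (st i S).card ∣ dd * PowerSeries.coeff m (ZS i S) := by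
    intro m hm
    rw [coeff_ZS]
    exact Dvd.dvd.mul_left (h m hm) _
  refine ⟨⟨?_, fun m hm => h2 m hm.le, ?_⟩, be_of_mid (h2 _ le_rfl)⟩
  · intro m hm
    rw [coeff_ZS]
    exact h m (by omega)
  · rw [pow_two, mul_assoc]
    exact Dvd.dvd.mul_left (h2 _ le_rfl) _

section late

def B7 (a : ℕ) : Prop := ∀ w ∈ lateW a, ∀ m, m < 7 → m + 6 ≤ w.length →
  Hw w (m + 3) ≤ Lw w (m + 3) + 1 ∨ (a = 4 ∧ m = 4 ∧ 10 ≤ w.length ∧ w = E7.take w.length)

instance (a : ℕ) : Decidable (B7 a) := by unfold B7; infer_instance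

lemma B7_3 : B7 3 := by decide +kernel
lemma B7_4 : B7 4 := by decide +kernel
lemma B7_5 : B7 5 := by decide +kernel
lemma B7_6 : B7 6 := by decide +kernel
lemma B7_8 : B7 8 := by decide +kernel

/-- late components at the windows `i ≤ j - 6`: at most two sites, or `E7` -/
lemma late_b7 (C : Cp.Comp j (t : P) lo hi e) (D : LateD j a lo hi) (hn : 7 ≤ n)
    (hin : i + n = j + 1) : hi i ≤ lo i + 1 ∨
      (a = 4 ∧ i = 8 ∧ 14 ≤ j ∧ word lo hi 4 (j - 4) = E7.take (j - 4)) := by
  rcases Nat.lt_or_ge i a with h1 | h1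
  · left
    have := D.h2 i h1
    omega
  obtain ⟨m, rfl⟩ : ∃ m, i = a + m := ⟨i - a, by omega⟩
  have h3 := D.h0
  obtain ⟨e1, e2⟩ := Lw_of_trunk C D.h0 D.h1 D.h2 D.h3 (m + 3) (by omega)
  rw [show a - 3 + (m + 3) = a + m by omega] at e1 e2
  rcases D.h4 with ⟨h4, h5⟩ | h4
  · left
    rcases Nat.eq_zero_or_pos m with rfl | h6
    · have := D.h3
      rw [Nat.add_zero]
      omega
    · have := D.quad C h5 m h6 (by omega)
      omega
  · have key : B7 a → hi (a + m) ≤ lo (a + m) + 1 ∨
      (a = 4 ∧ a + m = 8 ∧ 14 ≤ j ∧ word lo hi 4 (j - 4) = E7.take (j - 4)) := by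
      intro hB
      have hl : (word lo hi a (j - a)).length = j - a := by
        unfold word
        rw [List.length_map, List.length_range]
      have hlen := late_len_all h4
      rw [hl] at hlen
      rcases hB _ h4 m (by omega) (by rw [hl]; omega) with h6 | ⟨rfl, rfl, h7, h8⟩
      · left
        omega
      · right
        rw [hl] at h7 h8
        exact ⟨rfl, rfl, by omega, h8⟩
    rcases Nat.lt_or_ge a 7 with h6 | h6
    · obtain rfl | rfl | rfl | rfl : a = 3 ∨ a = 4 ∨ a = 5 ∨ a = 6 := by omega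
      · exact key B7_3
      · exact key B7_4
      · exact key B7_5
      · exact key B7_6
    · have hB : B7 a := by
        intro w hw m hm hm2
        rw [lateW_large h6] at hw
        rcases B7_8 w hw m hm hm2 with h7 | ⟨h7, -⟩
        · exact Or.inl h7
        · exact absurd h7 (by omega)
      exact key hB

end late

end Pool.Agent.GaussPoset.Nl

end

/-! From `Pool.Agent.W_448nl_h15.NlF` -/

section

/-!
# MP_448cb3_co, case B: the identities `(E,1)(j + 1 - E)` for `E ≥ 7`, up to the values of `E7`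
-/

namespace Pool.Agent.GaussPoset.Nl

set_option linter.unusedSectionVars false

open Finset Win Cp Wd Win.I2

universe u

variable {P : Type u} [Fintype P] [PartialOrder P] [DecidableEq P] {r i j a n : ℕ}
variable {t : Tops P} {lo hi : ℕ → ℕ} {e : ℕ → ℕ → P}

/-- case B: everything above an element of level `≤ j + 1` of the component -/
lemma NJ.up_le (h : NJ P r j) {z y : P} {t : P} (ht : lev t = 0) (hz : lev z ≤ j + 1) (hzt : z ≤ t)
    (hzy : z ≤ y) : y ≤ t := by
  obtain ⟨s, hs, hs2⟩ := exists_above' (x := y) (j := 0) (Nat.zero_le _)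
  have : s = t := Hul.top_unique (h.nj hz) hs2 ht (hzy.trans hs) hzt
  rw [← this]
  exact hs

/-- the next level of a component which ends in one element with one pendant -/
lemma NJ.ext1 (h : NJ P r j) (C : Cp.Comp j (t : P) lo hi e) (h1 : lo j = hi j)
    (hp : (pen (e j (lo j))).card = 1) :
    ∃ e', Cp.Comp (j + 1) (t : P) (Function.update lo (j + 1) (lo j))
      (Function.update hi (j + 1) (lo j)) e' := by
  have hr := h.hr
  obtain ⟨z, hz⟩ := card_eq_one.1 hp
  have hzp : z ∈ pen (e j (lo j)) := by rw [hz]; exact mem_singleton_self z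
  have hl := C.lev_e j (lo j) le_rfl le_rfl h1.le
  have hle := C.le_t j (lo j) le_rfl le_rfl h1.le
  have hzc := (mem_pen.1 hzp).1
  have hlz := lev_cov h.g.H hzc
  refine ⟨_, Comp.extend h.g.H t.2 C (lo' := lo j) (hi' := lo j) (f := fun _ => z) (Or.inl rfl)
    (Or.inl h1) le_rfl (fun s _ _ => by rw [hlz, hl]) (fun s s' _ _ _ _ _ => by omega) ?_ ?_⟩
  · intro y hy hly
    refine ⟨lo j, le_rfl, le_rfl, ?_⟩
    have h3 : y ∈ pen (e j (lo j)) := by
      have h4 : ∀ w, y ⋖ w → w = e j (lo j) := by
        intro w hw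
        have hlw := lev_cov h.g.H hw
        have hwt := NJ.up_le h t.2 (by omega) hy hw.le
        obtain ⟨s, s1, s2, s3⟩ := C.surj w hwt (by omega)
        have e0 : lev w = j := by omega
        rw [e0] at s1 s2 s3
        have e1 : s = lo j := by omega
        rw [e1] at s3
        exact s3.symm
      have h5 : 1 ≤ (uc y).card := by
        rcases uc_card_cases h.g.H (x := y) (by omega) with h6 | h6 <;> omega
      obtain ⟨w, hw⟩ := card_pos.1 h5
      have hw' := mem_uc.1 hw
      have e1 := h4 w hw'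
      refine mem_pen.2 ⟨by rw [← e1]; exact hw', ?_⟩
      rcases uc_card_cases h.g.H (x := y) (by omega) with h6 | h6
      · exact h6
      · exfalso
        obtain ⟨v, hv, hne⟩ := exists_other_uc (y := w) h6
        exact hne ((h4 v hv).trans e1.symm)
    rw [hz, mem_singleton] at h3
    exact h3.symm
  · intro s s' h3 h4 h5 h6
    obtain rfl : s = lo j := by omega
    obtain rfl : s' = lo j := by omega
    constructor
    · exact fun _ => Or.inl rfl
    · exact fun _ => hzc

/-- the values of `E7` needed for one identity -/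
def E7V (P : Type u) [Fintype P] [PartialOrder P] [DecidableEq P] (j n : ℕ) : Prop :=
  ∀ {t : Tops P} {lo hi : ℕ → ℕ} {e : ℕ → ℕ → P}, Cp.Comp j (t : P) lo hi e → E7c j lo hi →
    ∀ m, 5 ≤ m → m ≤ 2 * n → be m 3 (ZS 8 (SS 8 t)) = 0

/-- CASE B, THE IDENTITIES `E ≥ 7` of the last level -/
theorem NJ.cln_ge7 (I : SO P r) (V : EV P r) (h : NJ P r j) (hn : 7 ≤ n) (hi1 : 1 ≤ i)
    (hin : i + n = j + 1) (hV : i = 8 → 14 ≤ j → E7V P j n) : Wd.Cln P i n := by
  have hr := h.hr
  have hlo : ∀ t : Tops P, ∀ m, m < n → dd ^ (st i (SS i t)).card ∣ ZC i (SS i t) m := by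
    intro t m hm
    rcases Nat.eq_zero_or_pos m with rfl | h0
    · rw [ZC_zero h.g.H (by omega)]
    · exact cln_all I V h.g hi1 h0 (by omega) (by omega) t
  have hP : ∀ t : Tops P, Part i (SS i t) := fun t => SS_part h.g (by omega) (by omega) t
  have small : ∀ t : Tops P, (st i (SS i t)).card ≤ 2 →
      Prof n (2 * n) (st i (SS i t)).card (ZS i (SS i t)) ∧
        be (2 * n) (st i (SS i t)).card (ZS i (SS i t)) = 0 :=
    fun t hb => ⟨prof_small h.g.H (hP t) hb (hlo t) _, be_zero_small h.g.H (hP t) hb _⟩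
  have main : ∀ t : Tops P, Prof n (2 * n) (st i (SS i t)).card (ZS i (SS i t)) ∧
        be (2 * n) (st i (SS i t)).card (ZS i (SS i t)) = 0 := by
    intro t
    obtain ⟨lo, hi, e, C, hS⟩ := shape_all I V h.g t
    have hcard := h.card_SS (show i ≤ j by omega) C
    rcases hS with hl | ⟨-, hR⟩ | ⟨-, hR⟩ | ⟨h0, -, -⟩ | ⟨h0, hF⟩ | ⟨a, h0, h1, h2, h3, hN, h4⟩
    · have := hl i (by omega)
      exact small t (by omega)
    · exact prof_of_all (fun m hm => NJ.early6 h C (Or.inl hR) (by omega) (by omega))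
    · exact prof_of_all (fun m hm => NJ.early6 h C (Or.inr (Or.inl hR)) (by omega) (by omega))
    · omega
    · omega
    · rcases late_b7 C ⟨h0, h1, h2, h3, h4⟩ hn hin with h5 | ⟨rfl, rfl, h5, h6⟩
      · exact small t (by omega)
      · have hE : E7c j lo hi := ⟨h2, h3, Or.inl h6⟩
        have hw : word lo hi 4 (j - 4) = E7.take (j - 4) := h6
        -- the number of sites
        have hcl : (st 8 (SS 8 t)).card = 3 := by
          obtain ⟨e1, e2⟩ := Lw_of_trunk C h0 h1 h2 h3 7 (by omega)
          rw [hcard]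
          simp only [Nat.reduceSub, Nat.reduceAdd] at e1 e2
          rw [← e1, ← e2, hw]
          have h7 : j - 4 ≤ 12 := by
            have h8 : E7.length = 12 := rfl
            have h9 : (word lo hi 4 (j - 4)).length = j - 4 := by
              unfold word
              rw [List.length_map, List.length_range]
            rw [hw, List.length_take, h8] at h9
            omega
          have h8 : 10 ≤ j - 4 := by omega
          generalize j - 4 = d at h7 h8 ⊢
          interval_cases d <;> decide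
        have hbe : ∀ m, 5 ≤ m → m ≤ 2 * n → be m 3 (ZS 8 (SS 8 t)) = 0 :=
          fun m h7 h8 => hV rfl h5 C hE m h7 h8
        refine ⟨prof_three h.g.H (hP t) hcl (hlo t) ?_, ?_⟩
        · intro m hm hm2
          rw [hcl]
          exact hbe m (by omega) (by omega)
        · rw [hcl]
          exact hbe _ (by omega) (by omega)
  exact NJ.stage h (by omega) hin (fun t => (main t).1) (fun t => (main t).2.le)

end Pool.Agent.GaussPoset.Nl

end

/-! From `Pool.Agent.W_448nl_h15.NlN` -/

section

/-!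
# MP_448cb3_co, case B: the first order value `(E,1)(a)` of the late components, `E = j + 1 - a`

`a` is the first level with two elements, `j` the last natural level, `E = j + 1 - a`. The elements
of level `j + 1` are seen by the window `a` at the energy `E` only through the elements whose cone is
a chain; such an element with both sites above it is a pendant of the end of the long chain.
-/

set_option autoImplicit false

namespace Pool.Agent.GaussPoset.Nl

set_option linter.unusedSectionVars false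

open Finset Win Cp Wd Win.I2 Win.Ev

universe u

variable {P : Type u} [Fintype P] [PartialOrder P] [DecidableEq P] {r i j a n E k : ℕ}
variable {S : Finset P}

lemma image_cone {z : P} : (cone i z).image lev = Finset.Ioc i (lev z) := by
  classical
  ext m
  rw [mem_image, Finset.mem_Ioc]
  constructor
  · rintro ⟨y, hy, rfl⟩
    rw [mem_cone] at hy
    refine ⟨hy.2, ?_⟩
    rcases eq_or_lt_of_le hy.1 with h8 | h8
    · rw [← h8]
    · have := lev_strictAnti h8
      omega
  · rintro ⟨h8, h9⟩
    obtain ⟨y, hy, hym⟩ := exists_above' (x := z) (j := m) h9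
    exact ⟨y, mem_cone.2 ⟨hy, by omega⟩, hym⟩

/-- one element above `z` on every level -/
lemma slim_uniq {z y y' : P} (h : z ∈ slim i k S) (h1 : z ≤ y) (h2 : z ≤ y') (h3 : i < lev y)
    (h4 : lev y = lev y') : y = y' := by
  classical
  rw [mem_slim] at h
  have hinj : Set.InjOn lev (cone i z : Set P) := by
    rw [← Finset.card_image_iff, image_cone, Nat.card_Ioc, h.2.2, h.2.1]
  exact hinj (mem_coe.2 (mem_cone.2 ⟨h1, h3⟩)) (mem_coe.2 (mem_cone.2 ⟨h2, by omega⟩)) h4

lemma up_le_st (hC : Part a S) {z : P} (hz : z ∈ S) : up a z ≤ (st a S).card := by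
  classical
  unfold up
  refine Finset.card_le_card fun v hv => ?_
  rw [mem_filter, mem_lv] at hv
  exact mem_st.2 ⟨Wd.up_closed hC hz hv.2.le, hv.1⟩

/-- the coefficient of `d` at the first energy which sees the level `a + E` -/
lemma c1_first (H : Gr P r) (har : a ≤ r) (hC : Part a S) (hE : 1 ≤ E) (h2 : (st a S).card = 2) :
    PowerSeries.coeff 1 (ZC a S E : A) = PowerSeries.coeff 1 (ZC a (cut (a + E) S) E : A) +
      (((slim a (a + E) S).filter (fun z => up a z = 2)).card : ℤ) := by
  classical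
  rw [ZC_first H har hC (show a < a + E by omega) (n := E) (by omega), if_pos (by omega), map_add]
  congr 1
  rw [map_sum, Finset.card_filter]
  push_cast
  refine Finset.sum_congr rfl fun z hz => ?_
  rw [h2]
  by_cases hu : up a z = 2
  · rw [if_pos hu, hu]
    rw [show (2 : ℕ) - 2 = 0 from rfl, Nat.add_zero, pow_one, pow_two, c1_mul, c1_mul, c0_mul,
      c0_xx, c1_xx, c0_dd, c1_dd]
    norm_num
  · rw [if_neg hu]
    have h3 : dd ^ 2 ∣ xx ^ up a z * dd ^ (1 + (2 - up a z)) := by
      have h4 := up_le_st hC (mem_slim.1 hz).1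
      rw [h2] at h4
      exact Dvd.dvd.mul_left (pow_dvd_pow dd (by omega)) _
    obtain ⟨w, hw⟩ := h3
    rw [hw, pow_two, c1_mul, c1_mul, c0_mul, c0_dd]
    simp

section comp

variable {t : Tops P} {lo hi : ℕ → ℕ} {e : ℕ → ℕ → P}

/-- the elements of level `j + 1` whose cone is a chain and covers both sites -/
theorem NJ.slim_pen (h : NJ P r j) (C : Cp.Comp j (t : P) lo hi e) (ha1 : 1 ≤ a) (haj : a + 1 ≤ j)
    (h0 : lo a = 0 ∧ hi a = 1) (h1 : lo (a + 1) = 0 ∧ hi (a + 1) = 1)
    (hO : ∀ k, a + 1 ≤ k → k < j → hi (k + 1) = hi k + 1)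
    (hlt : ∀ k, a + 1 ≤ k → k < j → lo k < hi k) :
    (slim a (j + 1) (SS a t)).filter (fun z => up a z = 2) = pen (e j (hi j)) := by
  classical
  have H := h.g.H
  have hg := h.g.good
  ext z
  rw [mem_filter, mem_pen]
  constructor
  · rintro ⟨hz, hu⟩
    obtain ⟨hz1, hz2, hz3⟩ := mem_slim.1 hz
    have hzt : z ≤ (t : P) := (h.mem (by omega) t (by omega)).1 hz1
    have upt : ∀ y, z ≤ y → y ≤ (t : P) := fun y hy => NJ.up_le h t.2 (by omega) hzt hy
    -- both sites are above
    have hs1 : z < e a 1 := by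
      have hsub : (lv P a).filter (fun v => z < v) ⊆ {e a 0, e a 1} := by
        intro v hv
        rw [mem_filter, mem_lv] at hv
        obtain ⟨s, s1, s2, s3⟩ := C.surj v (upt v hv.2.le) (by omega)
        rw [hv.1] at s1 s2 s3
        rw [mem_insert, mem_singleton, ← s3]
        obtain rfl | rfl : s = 0 ∨ s = 1 := by omega
        · exact Or.inl rfl
        · exact Or.inr rfl
      have hcard : ((lv P a).filter (fun v => z < v)).card = 2 := by
        rw [← hu]
        unfold up
        congr
      have heq := Finset.eq_of_subset_of_card_le hsub (by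
        rw [hcard]
        exact Finset.card_le_two)
      have h5 : e a 1 ∈ (lv P a).filter (fun v => z < v) := by
        rw [heq]
        simp
      exact (mem_filter.1 h5).2
    have key : ∀ d, a + 1 + d ≤ j → ∀ y, z ≤ y → lev y = a + 1 + d →
        y = e (a + 1 + d) (hi (a + 1 + d)) := by
      intro d
      induction d with
      | zero =>
        intro hd y hy hyl
        rw [Nat.add_zero] at hyl ⊢
        obtain ⟨w, hw1, hw2, hw3⟩ := exists_mid H hs1.le (k := a + 1)
          (by rw [C.lev_e a 1 (by omega) (by omega) (by omega)]; omega) (by omega)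
        have h5 := slim_uniq hz hy hw1 (by omega) (by omega)
        subst h5
        obtain ⟨s, s1, s2, s3⟩ := C.surj y (upt y hy) (by omega)
        rw [hyl] at s1 s2 s3
        rw [← s3] at hw2
        have h6 := (C.le_iff H hg t.2 (l := a) (s' := 1) (d := 1) (s := s) (by omega) (by omega)
          (by omega) s1 s2).1 hw2
        rw [← s3]
        congr 1
        omega
      | succ d ih =>
        intro hd y hy hyl
        obtain ⟨w, hw, hwl⟩ := exists_above' (x := y) (j := a + 1 + d) (by omega)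
        have h5 := ih (by omega) w (hy.trans hw) hwl
        obtain ⟨s, s1, s2, s3⟩ := C.surj y (upt y hy) (by omega)
        rw [hyl] at s1 s2 s3
        have h7 := C.lo_le (a + 1 + d) (by omega)
        have h8 := hlt (a + 1 + d) (by omega) (by omega)
        have h9 := C.hi_step (a + 1 + d) (by omega)
        rw [show a + 1 + (d + 1) = a + 1 + d + 1 by omega] at s1 s2 s3 ⊢
        rw [← s3, h5] at hw
        have h10 := (C.le_iff H hg t.2 (l := a + 1 + d) (s' := hi (a + 1 + d)) (d := 1) (s := s)
          (by omega) (by omega) (by omega) s1 s2).1 hw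
        have h11 : s ≠ hi (a + 1 + d) := by
          rintro rfl
          have h12 := (C.le_iff H hg t.2 (l := a + 1 + d) (s' := hi (a + 1 + d) - 1) (d := 1)
            (s := hi (a + 1 + d)) (by omega) (by omega) (by omega) s1 s2).2 (by omega)
          rw [s3] at h12
          have h13 := ih (by omega) _ (hy.trans h12)
            (C.lev_e _ _ (by omega) (by omega) (by omega))
          have := C.inj _ _ _ (by omega) (by omega) (by omega) (by omega) (by omega) h13
          omega
        rw [← s3]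
        congr 1
        omega
    have hj : ∀ y, z ⋖ y → y = e j (hi j) := by
      intro y hy
      have h5 := lev_cov H hy
      have h6 := key (j - (a + 1)) (by omega) y hy.le (by omega)
      rwa [show a + 1 + (j - (a + 1)) = j by omega] at h6
    obtain ⟨y, hy⟩ := uc_nonempty H (x := z) (by omega)
    have hy' := mem_uc.1 hy
    refine ⟨by rw [← hj y hy']; exact hy', ?_⟩
    rw [Finset.card_eq_one]
    refine ⟨e j (hi j), ?_⟩
    ext w
    rw [mem_uc, mem_singleton]
    exact ⟨hj w, fun hw => by rw [hw, ← hj y hy']; exact hy'⟩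
  · rintro ⟨hz1, hz2⟩
    have hl := C.lo_le j le_rfl
    have hlj := C.lev_e j (hi j) le_rfl hl le_rfl
    have hzl : lev z = j + 1 := by
      have := lev_cov H hz1
      omega
    have hzt : z ≤ (t : P) := hz1.le.trans (C.le_t j (hi j) le_rfl hl le_rfl)
    have key : ∀ d, a + 1 + d ≤ j → ∀ y, z ≤ y → lev y = j - d → y = e (j - d) (hi (j - d)) := by
      intro d
      induction d with
      | zero =>
        intro hd y hy hyl
        rw [Nat.sub_zero] at hyl ⊢
        have h5 : z ⋖ y := by
          rw [H.covBy_iff]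
          refine ⟨lt_of_le_of_ne hy ?_, by omega⟩
          rintro rfl
          omega
        rw [Finset.card_eq_one] at hz2
        obtain ⟨w, hw⟩ := hz2
        have h6 := mem_uc.2 h5
        have h7 := mem_uc.2 hz1
        rw [hw, mem_singleton] at h6 h7
        rw [h6, h7]
      | succ d ih =>
        intro hd y hy hyl
        obtain ⟨w, hw1, hw2, hw3⟩ := exists_mid H hy (k := j - d) (by omega) (by omega)
        have h5 := ih (by omega) w hw1 hw3
        set k := j - (d + 1) with hk
        have h6 : j - d = k + 1 := by omega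
        rw [h6] at h5 hw3
        have h7 := hO k (by omega) (by omega)
        have h8 := C.lo_le (k + 1) (by omega)
        have h9 : w ⋖ y := by
          rw [H.covBy_iff]
          refine ⟨lt_of_le_of_ne hw2 ?_, by omega⟩
          rintro rfl
          omega
        rw [h5] at h9
        obtain ⟨s', g1, g2, g3, g4⟩ := C.cov_up H hg t.2 (by omega) h8 le_rfl h9
        rw [g3]
        congr 1
        omega
    have keyk : ∀ k, a + 1 ≤ k → k ≤ j → ∀ y, z ≤ y → lev y = k → y = e k (hi k) := by
      intro k hk1 hk2 y hy hyl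
      have := key (j - k) (by omega) y hy (by omega)
      rwa [show j - (j - k) = k by omega] at this
    have hinj : Set.InjOn lev (cone a z : Set P) := by
      intro y hy y' hy' hyy
      rw [mem_coe, mem_cone] at hy hy'
      have hle : lev y ≤ j + 1 := by
        rcases eq_or_lt_of_le hy.1 with h8 | h8
        · rw [← h8, hzl]
        · have := lev_strictAnti h8
          omega
      rcases Nat.lt_or_ge j (lev y) with h5 | h5
      · have h6 : ∀ v, z ≤ v → lev v = j + 1 → v = z := by
          intro v hv hvl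
          by_contra hne
          have := lev_strictAnti (lt_of_le_of_ne hv (Ne.symm hne))
          omega
        rw [h6 y hy.1 (by omega), h6 y' hy'.1 (by omega)]
      · rw [keyk (lev y) (by omega) h5 y hy.1 rfl, keyk (lev y) (by omega) h5 y' hy'.1 hyy.symm]
    have hcard : (cone a z).card = j + 1 - a := by
      rw [← Finset.card_image_of_injOn hinj, image_cone, Nat.card_Ioc, hzl]
    refine ⟨mem_slim.2 ⟨(h.mem (by omega) t (by omega)).2 hzt, hzl, hcard⟩, ?_⟩
    -- the two sites
    have hw : z ≤ e (a + 1) 1 := by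
      obtain ⟨w, hw, hwl⟩ := exists_above' (x := z) (j := a + 1) (by omega)
      have := keyk (a + 1) le_rfl (by omega) w hw hwl
      rw [h1.2] at this
      rw [← this]
      exact hw
    have hup : (lv P a).filter (fun v => z < v) = {e a 0, e a 1} := by
      ext v
      rw [mem_filter, mem_lv, mem_insert, mem_singleton]
      constructor
      · rintro ⟨hv1, hv2⟩
        obtain ⟨w, hw1, hw2, hw3⟩ := exists_mid H hv2.le (k := a + 1) (by omega) (by omega)
        have h5 := keyk (a + 1) le_rfl (by omega) w hw1 hw3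
        rw [h1.2] at h5
        have h9 : w ⋖ v := by
          rw [H.covBy_iff]
          refine ⟨lt_of_le_of_ne hw2 ?_, by omega⟩
          rintro rfl
          omega
        rw [h5] at h9
        obtain ⟨s', g1, g2, g3, g4⟩ := C.cov_up H hg t.2 (by omega) (by omega) (by omega) h9
        rw [h0.1] at g1
        rw [h0.2] at g2
        obtain rfl | rfl : s' = 0 ∨ s' = 1 := by omega
        · exact Or.inl g3
        · exact Or.inr g3
      · intro hv
        have h5 : ∀ s, s ≤ 1 → lev (e a s) = a ∧ z < e a s := by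
          intro s hs
          have h6 := C.lev_e a s (by omega) (by omega) (by omega)
          have h7 := (C.le_iff H hg t.2 (l := a) (s' := s) (d := 1) (s := 1) (by omega) (by omega)
            (by omega) (by omega) (by omega)).2 (by omega)
          refine ⟨h6, lt_of_le_of_ne (hw.trans h7) ?_⟩
          rintro rfl
          omega
        rcases hv with rfl | rfl
        · exact h5 0 (by omega)
        · exact h5 1 le_rfl
    have hne : e a 0 ≠ e a 1 := by
      intro hh
      have := C.inj a 0 1 (by omega) (by omega) (by omega) (by omega) (by omega) hh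
      omega
    have h10 : up a z = ((lv P a).filter (fun v => z < v)).card := by
      unfold up
      congr
    rw [h10, hup, Finset.card_pair hne]

/-- the first order value `(E,1)(a)`, `E = j + 1 - a`: the natural part and the pendants at the end
of the long chain -/
theorem NJ.c1_late (h : NJ P r j) (C : Cp.Comp j (t : P) lo hi e) (ha1 : 1 ≤ a) (haj : a + 1 ≤ j)
    (hE : a + E = j + 1)
    (h0 : lo a = 0 ∧ hi a = 1) (h1 : lo (a + 1) = 0 ∧ hi (a + 1) = 1)
    (hO : ∀ k, a + 1 ≤ k → k < j → hi (k + 1) = hi k + 1)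
    (hlt : ∀ k, a + 1 ≤ k → k < j → lo k < hi k) :
    PowerSeries.coeff 1 (ZC a (SS a t) E : A) =
      PowerSeries.coeff 1 (∑ e ∈ (DR (SS a t) j).piAntidiag E, tC a (SS a t) e : A) +
        ((pen (e j (hi j))).card : ℤ) := by
  classical
  have hr := h.hr
  have hc : (st a (SS a t)).card = 2 := by
    rw [h.card_SS (by omega) C, h0.1, h0.2]
  rw [c1_first h.g.H (by omega) (SS_part h.g (by omega) (by omega) t) (by omega) hc, hE,
    NJ.slim_pen h C ha1 haj h0 h1 hO hlt]
  congr 2
  unfold ZC
  have h2 : cut (j + 1) (SS a t) = DR (SS a t) j := by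
    ext z
    rw [mem_cut, mem_DR]
    constructor
    · exact fun h => ⟨h.1, by omega⟩
    · exact fun h => ⟨h.1, by omega⟩
  rw [← h2]
  refine Finset.sum_congr rfl fun e _ => ?_
  unfold tC
  rw [st_cut (by omega)]

/-- the rows of a late component around the window `a` -/
lemma rows_late {los his : List ℕ} (hEa : E ≤ a) (h0 : ∀ k, k < a → lo k = 0 ∧ hi k = 0)
    (hz : ∀ k, k < E → los.getD k 0 = 0 ∧ his.getD k 0 = 0)
    (hv : ∀ m, m < E → lo (a + m) = los.getD (E + m) 0 ∧ hi (a + m) = his.getD (E + m) 0) :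
    Rows lo hi (a - E) 0 (2 * E) los his := by
  constructor
  · intro k hk
    rw [Nat.zero_add]
    rcases Nat.lt_or_ge k E with h1 | h1
    · rw [(hz k h1).1, (h0 _ (by omega)).1]
    · obtain ⟨m, rfl⟩ : ∃ m, k = E + m := ⟨k - E, by omega⟩
      rw [← (hv m (by omega)).1]
      congr 1
      omega
  · intro k hk
    rw [Nat.zero_add]
    rcases Nat.lt_or_ge k E with h1 | h1
    · rw [(hz k h1).2, (h0 _ (by omega)).2]
    · obtain ⟨m, rfl⟩ : ∃ m, k = E + m := ⟨k - E, by omega⟩
      rw [← (hv m (by omega)).2]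
      congr 1
      omega

/-- THE VALUE, `E ≤ a`, from the evaluation of the natural part -/
theorem NJ.pen_late (h : NJ P r j) (C : Cp.Comp j (t : P) lo hi e) (haj : a + 1 ≤ j)
    (hE : a + E = j + 1) (hEa : E ≤ a) (h32 : E < 32)
    (hz0 : ∀ k, k < a → lo k = 0 ∧ hi k = 0)
    (h0 : lo a = 0 ∧ hi a = 1) (h1 : lo (a + 1) = 0 ∧ hi (a + 1) = 1)
    (hO : ∀ k, a + 1 ≤ k → k < j → hi (k + 1) = hi k + 1)
    (hlt : ∀ k, a + 1 ≤ k → k < j → lo k < hi k) {los his : List ℕ}
    (hz : ∀ k, k < E → los.getD k 0 = 0 ∧ his.getD k 0 = 0)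
    (hv : ∀ m, m < E → lo (a + m) = los.getD (E + m) 0 ∧ hi (a + m) = his.getD (E + m) 0)
    (hok : okP los his (2 * E) E (mk los his (2 * E) E) = true)
    (hlb : lb0 (mk los his (2 * E) E) = true)
    (hev : ev 1 (mk los his (2 * E) E) 0 E 0 0 0 = -1) (hcl : Wd.Cln P a E) :
    (pen (e j (hi j))).card = 1 := by
  classical
  have hr := h.hr
  have L : LocN P r j (t : P) lo hi (fun k s => e k s) (SS a t) a (a - E) 0 (2 * E) E los his :=
    ⟨h.g.H, by omega, fun z y hz hzt hzy => NJ.up_le h t.2 (by omega) hzt hzy.le, C.toWin,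
      SS_part h.g (by omega) (by omega) t, fun z hz => h.mem (by omega) t (by omega),
      rows_late hEa hz0 hz hv, by omega, by omega, by omega⟩
  have e1 := L.eval_cut hok hlb (m := 1) (n := E) (J := j) (by omega) h32 (Or.inr le_rfl)
    (by omega)
  have e2 := NJ.c1_late h C (by omega) haj hE h0 h1 hO hlt
  have hc : (st a (SS a t)).card = 2 := by
    rw [h.card_SS (by omega) C, h0.1, h0.2]
  obtain ⟨w, hw⟩ := hcl t
  rw [hc] at hw
  have e3 : PowerSeries.coeff 1 (ZC a (SS a t) E : A) = 0 := by
    rw [hw, pow_two, c1_mul, c1_mul, c0_mul, c0_dd]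
    simp
  rw [e3, e1, hev] at e2
  omega

end comp

end Pool.Agent.GaussPoset.Nl

end

/-! From `Pool.Agent.W_448nl_h61.NlA` -/

section

/-!
MP_448cb3_co, G2: near laws of the last level.  helper61.

The junk lemma with the hypothesis that the far labels are at most one, labels above a label two.
-/

set_option autoImplicit false

namespace Pool.Agent.GaussPoset.Jk

set_option linter.unusedSectionVars false

open Finset Win

universe u

variable {P : Type u} [Fintype P] [PartialOrder P] [DecidableEq P] {r i ρ : ℕ} {e f : P → ℕ}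

/-- a configuration with far labels at most one is determined by its near part and its set of far
elements -/
lemma split_one (h1 : ∀ x : P, i + ρ < lev x → e x ≤ 1) :
    nr i ρ e + ind (jun i ρ e) = e := by
  ext x
  rw [Pi.add_apply]
  unfold nr ind
  by_cases h : lev x ≤ i + ρ
  · rw [if_pos h, if_neg, add_zero]
    intro h1
    have := (mem_jun.1 h1).1
    omega
  · rw [if_neg h, zero_add]
    have h2 : e x ≤ 1 := h1 x (by omega)
    by_cases h3 : e x = 0
    · rw [if_neg, h3]
      intro h4
      exact (mem_jun.1 h4).2 h3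
    · rw [if_pos (mem_jun.2 ⟨by omega, h3⟩)]
      omega

/-- a killed lower element has a large label -/
lemma lab_killed (H : Gr P r) (hA : AdmL i e) {y : P} (hy : i < lev y) (hk : FD e y) :
    lev y ≤ i + e y := by
  have S := sid_low H (P := P) i
  obtain ⟨n, hn⟩ : ∃ n, lev y - i = n + 1 := ⟨lev y - i - 1, by omega⟩
  have := (chain S (adm_low.1 hA) n y hy hn (fun h => hA y hy ⟨hk, gu_uc.1 h⟩)).1
  omega

/-- one step up from a label two -/
lemma two_up (H : Gr P r) (hA : AdmL i e) {x y : P} (hxy : x ⋖ y) (hy : i + 2 ≤ lev y)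
    (hx : 2 ≤ e x) : 2 ≤ e y := by
  by_cases h : e x ≤ e y
  · omega
  · have := lab_killed H hA (y := y) (by omega) ⟨x, hxy, by omega⟩
    omega

/-- all labels above a label two, at distance at least two, are at least two -/
theorem two_above (H : Gr P r) (hA : AdmL i e) {y : P} (hy : i + 2 ≤ lev y) :
    ∀ z, z ≤ y → 2 ≤ e z → 2 ≤ e y := by
  refine normb_induct (C := fun z => 2 ≤ e z → 2 ≤ e y) (fun h => h) ?_
  intro x z hxz hzy ih hx
  apply ih
  have h1 := lev_uc H (mem_uc.2 hxz)
  have h2 : lev y ≤ lev z := by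
    rcases eq_or_lt_of_le hzy with h | h
    · rw [h]
    · exact (lev_strictAnti h).le
  exact two_up H hA hxz (by omega) hx

end Pool.Agent.GaussPoset.Jk

end

/-! From `Pool.Agent.W_448nl_h15.NlQ` -/

section

/-!
# MP_448cb3_co: the junk lemma up to the energy `2 ρ + 2` for the coefficient of `d`, three sites

A far label two costs `2 ρ + 1` on the elements above it; with three sites such a configuration has
two factors `d`.
-/

set_option autoImplicit false

namespace Pool.Agent.GaussPoset.Jk

set_option linter.unusedSectionVars false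

open Finset Win

universe u

variable {P : Type u} [Fintype P] [PartialOrder P] [DecidableEq P] {r i ρ : ℕ} {e f : P → ℕ}

/-- THE JUNK LEMMA, the configurations with a far label two do not contribute to the coefficient -/
theorem junk_low3 (H : Gr P r) {C D : Finset P} (hC : Part i C) {n m : ℕ} (hρ : 1 ≤ ρ)
    (htwo : ∀ e ∈ C.piAntidiag n, (∃ x, i + ρ < lev x ∧ 2 ≤ e x) →
      PowerSeries.coeff m (tC i C e : A) = 0) (hDC : D ⊆ C) (hDJ : ∀ z ∈ D, lev z ≤ i + ρ)
    (hDc : ∀ e : P → ℕ, tC i C e ≠ 0 → ∑ x, e x ≤ n → ∀ z ∈ C, lev z ≤ i + ρ → e z ≠ 0 → z ∈ D)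
    (hX : ∀ X : Finset P, X ⊆ C → (∀ x ∈ X, lev x = i + ρ) → X.Nonempty → ∀ n', n' < n →
      PowerSeries.coeff m (∑ f ∈ D.piAntidiag n',
        (if (∀ x ∈ X, 1 ≤ f x) then tC i C f else 0) : A) = 0) :
    PowerSeries.coeff m (ZC i C n : A) = PowerSeries.coeff m (∑ f ∈ D.piAntidiag n, tC i C f) := by
  classical
  have S := sid_low H (P := P) i
  have hDf : ∀ {n' : ℕ} {f : P → ℕ}, f ∈ D.piAntidiag n' → ∀ x : P, i + ρ < lev x → f x = 0 := by
    intro n' f hf x hx
    exact (mem_pa'.1 hf).2 x fun h => by have := hDJ x h; omega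
  set B : Finset (P → ℕ) := (C.piAntidiag n).filter (fun e => ∀ x, i + ρ < lev x → e x ≤ 1)
    with hB
  have hZ : PowerSeries.coeff m (ZC i C n : A) = PowerSeries.coeff m (∑ e ∈ B, tC i C e : A) := by
    unfold ZC
    rw [map_sum, map_sum, hB]
    symm
    refine Finset.sum_subset (Finset.filter_subset _ _) ?_
    intro e he hne
    apply htwo e he
    by_contra h
    push Not at h
    exact hne (mem_filter.2 ⟨he, fun x hx => by have := h x hx; omega⟩)
  rw [hZ]
  -- group by the set of far elements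
  have hmaps : ∀ e ∈ B, jun i ρ e ∈ (C.filter (fun x => i + ρ < lev x)).powerset := by
    intro e he
    rw [hB, mem_filter] at he
    rw [mem_powerset]
    intro x hx
    rw [mem_jun] at hx
    rw [mem_filter]
    refine ⟨?_, hx.1⟩
    by_contra h
    exact hx.2 ((mem_pa'.1 he.1).2 x h)
  rw [← Finset.sum_fiberwise_of_maps_to hmaps]
  -- the fibre of `Y`
  have fib : ∀ Y ∈ (C.filter (fun x => i + ρ < lev x)).powerset,
      ∑ e ∈ B.filter (fun e => jun i ρ e = Y), tC i C e =
      if Y.card ≤ n then ∑ f ∈ D.piAntidiag (n - Y.card), tC i C (f + ind Y) else 0 := by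
    intro Y hY
    rw [mem_powerset] at hY
    have hY' : ∀ x ∈ Y, x ∈ C ∧ i + ρ < lev x := fun x hx => mem_filter.1 (hY hx)
    split_ifs with hcard
    · have hinj : Function.Injective (fun f : P → ℕ => f + ind Y) := fun f g hfg =>
        add_right_cancel hfg
      rw [← Finset.sum_image (s := D.piAntidiag (n - Y.card)) (g := fun f : P → ℕ => f + ind Y)
        (f := fun e => tC i C e) (fun _ _ _ _ h => hinj h)]
      symm
      refine Finset.sum_subset ?_ ?_
      · intro e he
        rw [mem_image] at he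
        obtain ⟨f, hf, rfl⟩ := he
        have hf2 := mem_pa'.1 hf
        rw [mem_filter, hB, mem_filter, mem_pa']
        refine ⟨⟨⟨?_, fun x hx => ?_⟩, ?_⟩, ?_⟩
        · simp only [Pi.add_apply, Finset.sum_add_distrib]
          rw [hf2.1, sum_ind]
          omega
        · rw [Pi.add_apply, hf2.2 x fun h => hx (hDC h)]
          unfold ind
          rw [if_neg fun h => hx (hY' x h).1]
        · intro x hx
          rw [Pi.add_apply, hDf hf x hx, zero_add]
          unfold ind
          split_ifs <;> omega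
        · ext x
          rw [mem_jun, Pi.add_apply]
          constructor
          · rintro ⟨h1, h2⟩
            rw [hDf hf x h1, zero_add] at h2
            unfold ind at h2
            by_contra h
            rw [if_neg h] at h2
            exact h2 rfl
          · intro h
            refine ⟨(hY' x h).2, ?_⟩
            unfold ind
            rw [if_pos h]
            omega
      · intro e he hne
        by_contra hc
        rw [mem_filter, hB, mem_filter] at he
        obtain ⟨⟨he1, he0⟩, he2⟩ := he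
        have he3 := mem_pa'.1 he1
        have hsp := split_one (ρ := ρ) he0
        rw [he2] at hsp
        refine hne (mem_image.2 ⟨nr i ρ e, ?_, hsp⟩)
        rw [mem_pa']
        constructor
        · have h1 : ∑ x, (nr i ρ e + ind Y) x = n := by rw [hsp]; exact he3.1
          simp only [Pi.add_apply, Finset.sum_add_distrib] at h1
          rw [sum_ind] at h1
          omega
        · intro x hx
          unfold nr
          split_ifs with h
          · by_contra h1
            have hxC : x ∈ C := by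
              by_contra h2
              exact h1 (he3.2 x h2)
            exact hx (hDc e hc he3.1.le x hxC h h1)
          · rfl
    · refine Finset.sum_eq_zero fun e he => ?_
      rw [mem_filter, hB, mem_filter] at he
      exfalso
      have h1 : Y.card ≤ ∑ x, e x := by
        rw [← sum_ind]
        refine Finset.sum_le_sum fun x _ => ?_
        unfold ind
        split_ifs with h
        · rw [← he.2, mem_jun] at h
          omega
        · exact Nat.zero_le _
      rw [(mem_pa'.1 he.1.1).1] at h1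
      exact hcard h1
  rw [Finset.sum_congr rfl fib, map_sum,
    Finset.sum_eq_single_of_mem ∅ (mem_powerset.2 (Finset.empty_subset _))]
  · rw [if_pos (by simp), card_empty, Nat.sub_zero]
    congr 1
  · intro Y hY hYne
    rw [mem_powerset] at hY
    have hY' : ∀ x ∈ Y, x ∈ C ∧ i + ρ < lev x := fun x hx => mem_filter.1 (hY hx)
    have hYn : Y.Nonempty := Finset.nonempty_iff_ne_empty.2 hYne
    split_ifs with hcard
    swap
    · exact map_zero _
    have hYc : 1 ≤ Y.card := card_pos.2 hYn
    set X : Finset P := univ.filter (fun w => lev w = i + ρ ∧ ∃ x ∈ Y, w ∈ uc x) with hXdef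
    have memX : ∀ w, w ∈ X ↔ lev w = i + ρ ∧ ∃ x ∈ Y, w ∈ uc x := fun w => by
      rw [hXdef]
      simp
    by_cases hcl : ∀ x ∈ Y, ∀ w ∈ uc x, i + ρ < lev w → w ∈ Y
    · have hval : ∀ f ∈ D.piAntidiag (n - Y.card), tC i C (f + ind Y) =
          if (∀ x ∈ X, 1 ≤ f x) then tC i C f else 0 := by
        intro f hf
        split_ifs with hc
        · exact tC_ind H C (hDf hf) (fun x hx => (hY' x hx).2) hcl
            (fun x hx w hw hl => hc w ((memX w).2 ⟨hl, x, hx, hw⟩)) hρ
        · refine tC_zero C fun hL => ?_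
          push Not at hc
          obtain ⟨w, hw, h0⟩ := hc
          obtain ⟨hl, x, hx, hwx⟩ := (memX w).1 hw
          have hxl := (hY' x hx).2
          refine ind_bad S (z := x) (by omega) (by omega) ?_ ⟨w, hwx, ?_⟩ (adm_low.1 hL)
          · rw [Pi.add_apply]
            unfold ind
            rw [if_pos hx]
            omega
          · rw [Pi.add_apply]
            unfold ind
            rw [if_neg]
            · omega
            · intro h
              have := (hY' w h).2
              omega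
      rw [Finset.sum_congr rfl hval]
      refine hX X ?_ ?_ ?_ _ (by omega)
      · intro w hw
        obtain ⟨hl, x, hx, hwx⟩ := (memX w).1 hw
        exact hC.up (hY' x hx).1 (mem_uc.1 hwx)
      · intro w hw
        exact ((memX w).1 hw).1
      · obtain ⟨z, hz, hzmin⟩ := Finset.exists_min_image Y (fun x => lev x) hYn
        have hzl := (hY' z hz).2
        obtain ⟨w, hw⟩ := uc_nonempty H (x := z) (by omega)
        have hwl := lev_uc H hw
        refine ⟨w, (memX w).2 ⟨?_, z, hz, hw⟩⟩
        by_contra h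
        have h1 := hcl z hz w hw (by omega)
        have h2 := hzmin w h1
        omega
    · push Not at hcl
      obtain ⟨x, hx, w, hw, hwl, hwY⟩ := hcl
      rw [Finset.sum_eq_zero, map_zero]
      intro f hf
      refine tC_zero C fun hL => ?_
      have hxl := (hY' x hx).2
      refine ind_bad S (z := x) (by omega) (by omega) ?_ ⟨w, hw, ?_⟩ (adm_low.1 hL)
      · rw [Pi.add_apply]
        unfold ind
        rw [if_pos hx]
        omega
      · rw [Pi.add_apply, hDf hf w hwl]
        unfold ind
        rw [if_neg hwY]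

/-- two factors `d` -/
lemma c1_two {C : Finset P} (g : P → A) {x y : P} (hx : x ∈ C) (hy : y ∈ C) (hxy : x ≠ y)
    (h1 : dd ∣ g x) (h2 : dd ∣ g y) : PowerSeries.coeff 1 (∏ z ∈ C, g z : A) = 0 := by
  classical
  rw [← Finset.mul_prod_erase C g hx, ← Finset.mul_prod_erase (C.erase x) g
    (mem_erase.2 ⟨Ne.symm hxy, hy⟩)]
  obtain ⟨a, ha⟩ := h1
  obtain ⟨b, hb⟩ := h2
  rw [ha, hb, show dd * a * (dd * b * ∏ z ∈ (C.erase x).erase y, g z) =
    dd * (dd * (a * (b * ∏ z ∈ (C.erase x).erase y, g z))) by ring,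
    Wd.c1_mul, Wd.c0_mul, Wd.c0_dd]
  simp

/-- a free lower element -/
lemma dd_low {z : P} (hz : i < lev z) (h1 : ¬ FD e z) (h2 : ¬ GU e z) : dd ∣ Ev.wP i e z := by
  rw [Wd.wP_low hz, if_neg h1, if_neg h2]

/-- an uncovered site -/
lemma dd_site {z : P} (hz : lev z = i) (h1 : ¬ FD e z) (h2 : ¬ FU e z) : dd ∣ Ev.wP i e z := by
  rw [Wd.wP_site hz, if_neg h1, if_neg h2]

/-- a free upper element -/
lemma dd_upp {z : P} (hz : lev z < i) (h1 : ¬ FU e z) (h2 : ¬ GD e z) : dd ∣ Ev.wP i e z := by
  rw [Wd.wP_upp hz, if_neg h1, if_neg h2]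
  exact dvd_mul_left _ _

/-- THREE SITES: a configuration with a far label two has two factors `d`. -/
theorem two_zero (H : Gr P r) (hir : i + 3 ≤ r) {C : Finset P} (hC : Part i C)
    (hb : (st i C).card = 3) (hρ : 2 ≤ ρ)
    (hno : ∀ w ∈ C, lev w = i + 3 → up (i + 2) w = 1 → up (i + 1) w = 1) {n : ℕ}
    (hn : n ≤ 2 * ρ + 2) (he : e ∈ C.piAntidiag n) {z : P} (hz : i + ρ < lev z) (hz2 : 2 ≤ e z) :
    PowerSeries.coeff 1 (tC i C e : A) = 0 := by
  classical
  by_contra hT0
  have hT : tC i C e ≠ 0 := fun h => hT0 (by rw [h, map_zero])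
  have hA := (Ev.adm_of_tC hT).1
  obtain ⟨hsum, hsup⟩ := mem_pa'.1 he
  have inC : ∀ x, e x ≠ 0 → x ∈ C := fun x hx => by
    by_contra h
    exact hx (hsup x h)
  have hspt : Spt C e := fun x hx => hsup x hx
  have hzC := inC z (by omega)
  have hK2 : ∀ y, z ≤ y → i + 2 ≤ lev y → 2 ≤ e y := fun y h1 h2 => two_above H hA h2 z h1 hz2
  have hK1 : ∀ y, z ≤ y → i < lev y → 1 ≤ e y := fun y h1 h2 => pos_above H hA h2 z h1 (by omega)
  -- the two parts of the cone
  set K2 := cone (i + 1) z with hK2d
  set K1 := (lv P (i + 1)).filter (fun y => z ≤ y) with hK1d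
  have m2 : ∀ y, y ∈ K2 ↔ z ≤ y ∧ i + 1 < lev y := fun y => mem_cone
  have m1 : ∀ y, y ∈ K1 ↔ lev y = i + 1 ∧ z ≤ y := fun y => by rw [hK1d, mem_filter, mem_lv]
  have hdis : Disjoint K2 K1 := by
    rw [Finset.disjoint_left]
    intro y h1 h2
    rw [m2] at h1
    rw [m1] at h2
    omega
  have s2 : 2 * K2.card ≤ ∑ y ∈ K2, e y := by
    rw [mul_comm, ← smul_eq_mul, ← Finset.sum_const]
    exact Finset.sum_le_sum fun y hy => hK2 y ((m2 y).1 hy).1 (by have := ((m2 y).1 hy).2; omega)
  have s1 : K1.card ≤ ∑ y ∈ K1, e y := by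
    rw [Finset.card_eq_sum_ones]
    exact Finset.sum_le_sum fun y hy => hK1 y ((m1 y).1 hy).2 (by have := ((m1 y).1 hy).1; omega)
  have s3 : ∑ y ∈ K2 ∪ K1, e y + ∑ y ∈ (K2 ∪ K1)ᶜ, e y = n := by
    rw [Finset.sum_add_sum_compl, hsum]
  rw [Finset.sum_union hdis] at s3
  have c2 : lev z - (i + 1) ≤ K2.card := card_cone_ge
  obtain ⟨z1, hz1, hz1l⟩ := exists_above' (x := z) (j := i + 1) (by omega)
  have c1 : 1 ≤ K1.card := card_pos.2 ⟨z1, (m1 z1).2 ⟨hz1l, hz1⟩⟩
  have hzl : lev z = i + ρ + 1 := by omega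
  have hslim : z ∈ slim (i + 1) (i + ρ + 1) C := mem_slim.2 ⟨hzC, hzl, by rw [← hK2d]; omega⟩
  have uniq : ∀ y y', z ≤ y → z ≤ y' → i + 1 < lev y → lev y = lev y' → y = y' :=
    fun y y' h1 h2 h3 h4 => Nl.slim_uniq hslim h1 h2 h3 h4
  -- one element of level `i + 1`
  have c1' : K1.card = 1 := by
    by_contra hne
    obtain ⟨w, hw, hwl⟩ := exists_above' (x := z) (j := i + 3) (by omega)
    have hwC := Wd.up_closed hC hzC hw
    have u2 : up (i + 2) w = 1 := by
      unfold up
      rw [Finset.card_eq_one]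
      obtain ⟨y, hy⟩ := uc_nonempty H (x := w) (by omega)
      have hy' := mem_uc.1 hy
      have hyl := lev_cov H hy'
      refine ⟨y, ?_⟩
      ext v
      rw [mem_filter, mem_lv, mem_singleton]
      constructor
      · rintro ⟨h1, h2⟩
        exact uniq v y (hw.trans h2.le) (hw.trans hy'.le) (by omega) (by omega)
      · rintro rfl
        exact ⟨by omega, hy'.lt⟩
    have u1 := hno w hwC hwl u2
    have hsub : K1 ⊆ (lv P (i + 1)).filter (fun v => w < v) := by
      intro y hy
      rw [m1] at hy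
      rw [mem_filter, mem_lv]
      refine ⟨hy.1, ?_⟩
      obtain ⟨v, hv1, hv2, hv3⟩ := exists_mid H hy.2 (k := i + 3) (by omega) (by omega)
      have := uniq v w hv1 hw (by omega) (by omega)
      subst this
      refine lt_of_le_of_ne hv2 ?_
      rintro rfl
      omega
    have h1 := Finset.card_le_card hsub
    have h2 : up (i + 1) w = ((lv P (i + 1)).filter (fun v => w < v)).card := by
      unfold up
      congr
    rw [← h2, u1] at h1
    omega
  have hz1u : ∀ y, z ≤ y → lev y = i + 1 → y = z1 := by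
    intro y h1 h2
    rw [Finset.card_eq_one] at c1'
    obtain ⟨q, hq⟩ := c1'
    have g1 := (m1 y).2 ⟨h2, h1⟩
    have g2 := (m1 z1).2 ⟨hz1l, hz1⟩
    rw [hq, mem_singleton] at g1 g2
    rw [g1, g2]
  -- outside the cone
  have hout : ∑ y ∈ (K2 ∪ K1)ᶜ, e y ≤ 1 := by omega
  have memK : ∀ y, y ∉ (K2 ∪ K1)ᶜ ↔ z ≤ y ∧ i < lev y := by
    intro y
    rw [mem_compl, not_not, mem_union, m2, m1]
    constructor
    · rintro (h | h)
      · exact ⟨h.1, by omega⟩
      · exact ⟨h.2, by omega⟩
    · rintro ⟨h1, h2⟩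
      rcases Nat.lt_or_ge (i + 1) (lev y) with h3 | h3
      · exact Or.inl ⟨h1, h3⟩
      · exact Or.inr ⟨by omega, h1⟩
  have o1 : ∀ y, ¬ (z ≤ y ∧ i < lev y) → e y ≤ 1 := by
    intro y hy
    rw [← memK, not_not] at hy
    exact (Finset.single_le_sum (f := e) (fun _ _ => Nat.zero_le _) hy).trans hout
  have o2 : ∀ y y', ¬ (z ≤ y ∧ i < lev y) → ¬ (z ≤ y' ∧ i < lev y') → y ≠ y' → 1 ≤ e y →
      e y' = 0 := by
    intro y y' hy hy' hne h1
    rw [← memK, not_not] at hy hy'
    have h2 : ∑ v ∈ ({y, y'} : Finset P), e v ≤ ∑ y ∈ (K2 ∪ K1)ᶜ, e y := by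
      refine Finset.sum_le_sum_of_subset ?_
      intro v hv
      rw [mem_insert, mem_singleton] at hv
      rcases hv with rfl | rfl
      · exact hy
      · exact hy'
    rw [Finset.sum_pair hne] at h2
    omega
  -- the maximal label of the cone
  obtain ⟨f0, hf0, hmax⟩ := Finset.exists_max_image (K2 ∪ K1) e ⟨z1, mem_union_right _
    ((m1 z1).2 ⟨hz1l, hz1⟩)⟩
  obtain ⟨f, hf, hmin⟩ := Finset.exists_min_image ((K2 ∪ K1).filter (fun y => e y = e f0))
    (fun y => lev y) ⟨f0, mem_filter.2 ⟨hf0, rfl⟩⟩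
  rw [mem_filter] at hf
  obtain ⟨hfK, hfe⟩ := hf
  have hfz : z ≤ f ∧ i < lev f := by
    rw [← memK, mem_compl, not_not]
    exact hfK
  have hzK : z ∈ K2 ∪ K1 := by
    have := (memK z).2 ⟨le_rfl, by omega⟩
    rwa [mem_compl, not_not] at this
  have hf2 : 2 ≤ e f := by
    rw [hfe]
    exact hz2.trans (hmax z hzK)
  have hfC := Wd.up_closed hC hzC hfz.1
  have hdf : dd ∣ Ev.wP i e f := by
    refine dd_low hfz.2 ?_ ?_
    · rintro ⟨y, hy, hlt⟩
      by_cases hyz : z ≤ y ∧ i < lev y
      · rw [← memK, mem_compl, not_not] at hyz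
        have := hmax y hyz
        omega
      · have := o1 y hyz
        omega
    · rintro ⟨y, hy, hle⟩
      have hyl := lev_cov H hy
      by_cases hyz : z ≤ y ∧ i < lev y
      · rw [← memK, mem_compl, not_not] at hyz
        have h1 := hmax y hyz
        have h2 := hmin y (mem_filter.2 ⟨hyz, by omega⟩)
        omega
      · have := o1 y hyz
        omega
  apply hT0
  rw [Ev.tC_prod H (by omega) hC hspt]
  by_cases hx0 : ∃ x0, lev x0 = i + 1 ∧ x0 ≠ z1 ∧ 1 ≤ e x0
  · obtain ⟨x0, hx0l, hx0n, hx0e⟩ := hx0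
    have hx0K : ¬ (z ≤ x0 ∧ i < lev x0) := fun h => hx0n (hz1u x0 h.1 hx0l)
    have h1 := o1 x0 hx0K
    refine c1_two (fun z => Ev.wP i e z) hfC (inC x0 (by omega)) ?_ hdf ?_
    · rintro rfl
      omega
    · refine dd_low (by omega) ?_ ?_
      · rintro ⟨y, hy, hlt⟩
        by_cases hyz : z ≤ y ∧ i < lev y
        · exact hx0K ⟨hyz.1.trans hy.le, by omega⟩
        · have := o1 y hyz
          omega
      · rintro ⟨y, hy, hle⟩
        have hyl := lev_cov H hy
        have hyz : ¬ (z ≤ y ∧ i < lev y) := fun h => by omega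
        have := o2 x0 y hx0K hyz (by rintro rfl; omega) hx0e
        omega
  · push Not at hx0
    -- a third site
    obtain ⟨s, hs, hsz⟩ : ∃ s ∈ st i C, ¬ z1 ⋖ s := by
      by_contra hcon
      push Not at hcon
      have hsub : st i C ⊆ uc z1 := fun s hs => mem_uc.2 (hcon s hs)
      have h1 := Finset.card_le_card hsub
      rw [hb] at h1
      rcases uc_card_cases H (x := z1) (by omega) with h2 | h2
      · omega
      · omega
    rw [mem_st] at hs
    have hsK : ¬ (z ≤ s ∧ i < lev s) := fun h => by omega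
    have hFD : ¬ FD e s := by
      rintro ⟨y, hy, hlt⟩
      have hyl := lev_cov H hy
      have h1 := hx0 y (by omega)
      by_cases hyz : y = z1
      · rw [hyz] at hy
        exact hsz hy
      · have := h1 hyz
        omega
    by_cases hFU : FU e s
    · obtain ⟨u, hu, hlt⟩ := hFU
      have hul := lev_cov H hu
      have huK : ¬ (z ≤ u ∧ i < lev u) := fun h => by omega
      have hu1 := o1 u huK
      refine c1_two (fun z => Ev.wP i e z) hfC (inC u (by omega)) ?_ hdf ?_
      · rintro rfl
        omega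
      · refine dd_upp (by omega) ?_ ?_
        · rintro ⟨v, hv, hlt2⟩
          have hvl := lev_cov H hv
          have := o1 v (fun h => by omega)
          omega
        · rintro ⟨v, hv, hle⟩
          have hvl := lev_cov H hv
          have := o2 u v huK (fun h => by omega) (by rintro rfl; omega) (by omega)
          omega
    · refine c1_two (fun z => Ev.wP i e z) hfC hs.1 ?_ hdf ?_
      · rintro rfl
        omega
      · exact dd_site hs.2 hFD hFU

end Pool.Agent.GaussPoset.Jk

end

/-! From `Pool.Agent.W_448nl_h15.NlR` (part 1) -/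

section

/-!
# MP_448cb3_co, case B: the late components with three sites at the window `j - 3`

`l3v4 : L3V P j 4`: the coefficients `(7, 2)`, `(8, 2)` of the four words of length 7 vanish.
-/

set_option autoImplicit false

namespace Pool.Agent.GaussPoset.Win.Ev

set_option linter.unusedSectionVars false

open Finset

universe u

variable {P : Type u} [Fintype P] [PartialOrder P] [DecidableEq P] {r i j : ℕ}
variable {C : Finset P} {t : P} {lo hi : ℕ → ℕ} {x : ℕ → ℕ → P} {base c0 R s : ℕ} {los his : List ℕ}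

/-- EVALUATION OF THE COEFFICIENT OF `d` of a component with three sites, `n ≤ 2 ρ + 2` -/
theorem Loc.eval_three (Lc : Loc P r j t lo hi x C i base c0 R s los his) {p : Prog}
    (hok : okP los his R s p = true) (h0 : lb0 p = true) {n : ℕ} (hn : n < 32)
    (hsR : s + 4 ≤ R) (hN : n ≤ 2 * (R - 1 - s) + 2) (htop : base = 0 ∨ n ≤ s)
    (hb : (st i C).card = 3)
    (hno : ∀ w ∈ C, lev w = i + 3 → up (i + 2) w = 1 → up (i + 1) w = 1)
    (hX : okXs los his R s 1 n = true) :
    PowerSeries.coeff 1 (ZC i C n : A) = ev 1 p 0 n 0 0 0 := by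
  classical
  have hi' := Lc.hi'
  have hj := Lc.hj
  have hr := Lc.h.hr
  have hJ : base + R = i + (R - 1 - s) + 1 := by omega
  rw [← Lc.eval_cut hok h0 (by omega) hn htop hJ]
  refine Jk.junk_low3 Lc.h.H Lc.part (by omega) ?_ (fun z hz => (mem_DR.1 hz).1)
    (fun z hz => (mem_DR.1 hz).2) (fun e _ _ z hz hl _ => mem_DR.2 ⟨hz, hl⟩) ?_
  · rintro e he ⟨z, hz, hz2⟩
    exact Jk.two_zero Lc.h.H (by omega) Lc.part hb (by omega) hno hN he hz hz2
  intro X hXC hXl hXn n' hn'
  have h1 := Lc.zeroX (X := X) (m := 1) (by omega) (by omega) (by omega) hJ (by omega) hX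
    (fun z hz => ⟨hXC hz, hXl z hz⟩) hXn hn'
  rw [← h1]

end Pool.Agent.GaussPoset.Win.Ev

namespace Pool.Agent.GaussPoset.Nl

set_option linter.unusedSectionVars false

open Finset Win Cp Wd Win.I2 Win.Ev

universe u

variable {P : Type u} [Fintype P] [PartialOrder P] [DecidableEq P] {r i j a n E k : ℕ}
variable {lo hi : ℕ → ℕ}

/-- the rows of the list are the rows of the word, `b` is the index of the level `a` -/
def WordL (w : List Ltr) (los his : List ℕ) (b : ℕ) : Prop :=
  (∀ k, k < b → los.getD k 0 = 0 ∧ his.getD k 0 = 0) ∧ los.getD b 0 = 0 ∧ his.getD b 0 = 1 ∧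
    ∀ m, m < w.length → ((w.getD m OO).1 = true → los.getD (b + m + 1) 0 = los.getD (b + m) 0 + 1) ∧
      ((w.getD m OO).1 = false → los.getD (b + m + 1) 0 = los.getD (b + m) 0) ∧
      ((w.getD m OO).2 = true → his.getD (b + m + 1) 0 = his.getD (b + m) 0 + 1) ∧
      ((w.getD m OO).2 = false → his.getD (b + m + 1) 0 = his.getD (b + m) 0)

instance (w : List Ltr) (los his : List ℕ) (b : ℕ) : Decidable (WordL w los his b) := by
  unfold WordL; infer_instance

section comp

variable {t : Tops P} {e : ℕ → ℕ → P}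

/-- the rows of a word -/
lemma word_rows (C : Cp.Comp j (t : P) lo hi e) {w : List Ltr} {los his : List ℕ} {b : ℕ}
    (hw : word lo hi a (j - a) = w) (haj : a ≤ j) (hba : b ≤ a)
    (hz : ∀ k, k < a → lo k = 0 ∧ hi k = 0) (h0 : lo a = 0 ∧ hi a = 1)
    (T : WordL w los his b) : Rows lo hi (a - b) 0 (b + w.length + 1) los his := by
  obtain ⟨t1, t2, t3, t4⟩ := T
  obtain ⟨w1, w2⟩ := Wd.word_spec hw
  have key : ∀ m, m ≤ w.length → lo (a + m) = los.getD (b + m) 0 ∧
      hi (a + m) = his.getD (b + m) 0 := by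
    intro m
    induction m with
    | zero =>
      intro _
      rw [Nat.add_zero, Nat.add_zero, t2, t3]
      exact h0
    | succ m ih =>
      intro hm
      obtain ⟨i1, i2⟩ := ih (by omega)
      obtain ⟨q1, q2⟩ := w2 m (by omega)
      have hmw : m < w.length := by omega
      obtain ⟨g1, g2, g3, g4⟩ := t4 m hmw
      have hget : w.getD m OO = w[m] := by
        rw [List.getD_eq_getElem?_getD, List.getElem?_eq_getElem hmw, Option.getD_some]
      rw [hget] at g1 g2 g3 g4
      rw [List.getElem?_eq_getElem hmw] at q1 q2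
      simp only [Option.map_some, Option.some.injEq] at q1 q2
      have s1 := C.lo_step (a + m) (by omega)
      have s2 := C.hi_step (a + m) (by omega)
      rw [← Nat.add_assoc, ← Nat.add_assoc]
      constructor
      · by_cases hb : w[m].1 = true
        · rw [g1 hb, ← i1]
          rw [hb] at q1
          have := of_decide_eq_true q1.symm
          omega
        · rw [Bool.not_eq_true] at hb
          rw [g2 hb, ← i1]
          rw [hb] at q1
          have := of_decide_eq_false q1.symm
          omega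
      · by_cases hb : w[m].2 = true
        · rw [g3 hb, ← i2]
          rw [hb] at q2
          have := of_decide_eq_true q2.symm
          omega
        · rw [Bool.not_eq_true] at hb
          rw [g4 hb, ← i2]
          rw [hb] at q2
          have := of_decide_eq_false q2.symm
          omega
  constructor
  · intro k hk
    rw [Nat.zero_add]
    rcases Nat.lt_or_ge k b with h1 | h1
    · rw [(t1 k h1).1, (hz _ (by omega)).1]
    · obtain ⟨m, rfl⟩ : ∃ m, k = b + m := ⟨k - b, by omega⟩
      rw [← (key m (by omega)).1]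
      congr 1
      omega
  · intro k hk
    rw [Nat.zero_add]
    rcases Nat.lt_or_ge k b with h1 | h1
    · rw [(t1 k h1).2, (hz _ (by omega)).2]
    · obtain ⟨m, rfl⟩ : ∃ m, k = b + m := ⟨k - b, by omega⟩
      rw [← (key m (by omega)).2]
      congr 1
      omega

/-- the number of elements of level `l` above a row element -/
lemma up_row (h : NJ P r j) (C : Cp.Comp j (t : P) lo hi e) {l d s : ℕ} (hd : 1 ≤ d)
    (hl : l + d ≤ j) (h1 : lo (l + d) ≤ s) (h2 : s ≤ hi (l + d)) :
    up l (e (l + d) s) =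
      ((Finset.Icc (lo l) (hi l)).filter (fun s' => s' ≤ s ∧ s ≤ s' + d)).card := by
  classical
  have hr := h.hr
  have hls := C.lev_e (l + d) s hl h1 h2
  have hset : (lv P l).filter (fun v => e (l + d) s < v) =
      ((Finset.Icc (lo l) (hi l)).filter (fun s' => s' ≤ s ∧ s ≤ s' + d)).image (e l) := by
    ext v
    rw [mem_filter, mem_lv, mem_image]
    constructor
    · rintro ⟨g1, g2⟩
      obtain ⟨s', k1, k2, k3⟩ := C.surj v (NJ.up_le h t.2 (by omega)
        (C.le_t (l + d) s hl h1 h2) g2.le) (by omega)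
      rw [g1] at k1 k2 k3
      refine ⟨s', ?_, k3⟩
      rw [mem_filter, Finset.mem_Icc]
      refine ⟨⟨k1, k2⟩, ?_⟩
      exact (C.le_iff h.g.H h.g.good t.2 k1 k2 hl h1 h2).1 (by rw [k3]; exact g2.le)
    · rintro ⟨s', g1, rfl⟩
      rw [mem_filter, Finset.mem_Icc] at g1
      have k1 := C.lev_e l s' (by omega) g1.1.1 g1.1.2
      refine ⟨k1, lt_of_le_of_ne
        ((C.le_iff h.g.H h.g.good t.2 g1.1.1 g1.1.2 hl h1 h2).2 g1.2) ?_⟩
      intro hh
      rw [hh] at hls
      omega
  have h10 : up l (e (l + d) s) = ((lv P l).filter (fun v => e (l + d) s < v)).card := by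
    unfold up
    congr
  rw [h10, hset, Finset.card_image_of_injOn]
  intro a ha b hb hab
  rw [mem_coe, mem_filter, Finset.mem_Icc] at ha hb
  exact C.inj l a b (by omega) ha.1.1 ha.1.2 hb.1.1 hb.1.2 hab

/-- a single child of an element with two covers does not exist, in lists: rows `p`, `q`, `s` (the
ends of three consecutive levels) -/
def NoS (l1 h1 l2 h2 l3 h3 : ℕ) : Prop :=
  ∀ s, l3 ≤ s → s ≤ h3 → ((Finset.Icc l2 h2).filter (fun s' => s' ≤ s ∧ s ≤ s' + 1)).card = 1 →
    ((Finset.Icc l1 h1).filter (fun s' => s' ≤ s ∧ s ≤ s' + 2)).card = 1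

lemma noS_of {l1 h1 l2 h2 l3 h3 : ℕ} (h : ∀ s, s < 32 → l3 ≤ s → s ≤ h3 →
    ((Finset.Icc l2 h2).filter (fun s' => s' ≤ s ∧ s ≤ s' + 1)).card = 1 →
    ((Finset.Icc l1 h1).filter (fun s' => s' ≤ s ∧ s ≤ s' + 2)).card = 1) (hb : h3 < 32) :
    NoS l1 h1 l2 h2 l3 h3 := fun s k1 k2 => h s (by omega) k1 k2

/-- everything the evaluator has to check for a word of length 7 -/
def Chk3 (w : List Ltr) (los his : List ℕ) : Prop :=
  w.length = 7 ∧ WordL w los his 4 ∧ okP los his 12 8 (mk los his 12 8) = true ∧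
    lb0 (mk los his 12 8) = true ∧ ev 1 (mk los his 12 8) 0 7 0 0 0 = 0 ∧
    ev 1 (mk los his 12 8) 0 8 0 0 0 = 0 ∧ okXs los his 12 8 1 8 = true ∧
    (his.getD 8 0 = los.getD 8 0 + 2) ∧ los.getD 8 0 ≤ his.getD 8 0 ∧
    NoS (los.getD 9 0) (his.getD 9 0) (los.getD 10 0) (his.getD 10 0) (los.getD 11 0)
      (his.getD 11 0)

/-- the values `(7, 2)`, `(8, 2)` at the window `a + 4` -/
theorem val_three (h : NJ P r j) (C : Cp.Comp j (t : P) lo hi e) (ha : 4 ≤ a) (haj : a + 7 = j)
    (hz : ∀ k, k < a → lo k = 0 ∧ hi k = 0) (h0 : lo a = 0 ∧ hi a = 1) {w : List Ltr}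
    {los his : List ℕ} (hw : word lo hi a (j - a) = w) (K : Chk3 w los his) {m : ℕ} (h7 : 7 ≤ m)
    (h8 : m ≤ 8) : be m 3 (ZS (a + 4) (SS (a + 4) t)) = 0 := by
  obtain ⟨k0, kw, k1, k2, k3, k4, k5, k6, k6', k7⟩ := K
  have hr := h.hr
  have hR := word_rows C hw (by omega) ha hz h0 kw
  rw [k0] at hR
  have L : Loc P r j (t : P) lo hi (fun k s => e k s) (SS (a + 4) t) (a + 4) (a - 4) 0 12 8 los his :=
    ⟨h.g, t.2, C.toWin, SS_part h.g (by omega) (by omega) t,
      fun z hz => h.mem (by omega) t (by omega), hR, by omega, by omega, by omega⟩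
  have v : ∀ q, q < 12 → lo (a - 4 + q) = los.getD q 0 ∧ hi (a - 4 + q) = his.getD q 0 := by
    intro q hq
    have e1 := hR.lo_eq q hq
    have e2 := hR.hi_eq q hq
    rw [Nat.zero_add] at e1 e2
    exact ⟨e1, e2⟩
  have v8 := v 8 (by omega)
  have v9 := v 9 (by omega)
  have v10 := v 10 (by omega)
  have v11 := v 11 (by omega)
  rw [show a - 4 + 8 = a + 4 by omega] at v8
  rw [show a - 4 + 9 = a + 4 + 1 by omega] at v9
  rw [show a - 4 + 10 = a + 4 + 2 by omega] at v10
  rw [show a - 4 + 11 = a + 4 + 3 by omega] at v11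
  have hb : (st (a + 4) (SS (a + 4) t)).card = 3 := by
    rw [h.card_SS (by omega) C]
    omega
  have hno : ∀ w ∈ SS (a + 4) t, lev w = a + 4 + 3 → up (a + 4 + 2) w = 1 →
      up (a + 4 + 1) w = 1 := by
    intro y hy hyl hu
    have hyt := (h.mem (by omega) t (by omega)).1 hy
    obtain ⟨s, s1, s2, s3⟩ := C.surj y hyt (by omega)
    rw [hyl] at s1 s2 s3
    rw [← s3] at hu ⊢
    rw [show a + 4 + 3 = a + 4 + 2 + 1 from rfl,
      up_row h C (l := a + 4 + 2) (d := 1) (s := s) le_rfl (by omega) s1 s2, v10.1, v10.2] at hu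
    rw [show a + 4 + 3 = a + 4 + 1 + 2 from rfl,
      up_row h C (l := a + 4 + 1) (d := 2) (s := s) (by omega) (by omega) s1 s2, v9.1, v9.2]
    exact k7 s (by omega) (by omega) hu
  have hX : ∀ q, q ≤ 8 → okXs los his 12 8 1 q = true := fun q hq => Ev.okXs_mono k5 hq
  rw [be_eq (by omega)]
  have e1 := L.eval_three k1 k2 (n := m) (by omega) (by omega) (by omega) (Or.inr (by omega)) hb hno
    (hX m h8)
  rw [show 3 - 2 = 1 from rfl, e1]
  obtain rfl | rfl : m = 7 ∨ m = 8 := by omega
  · exact k3
  · exact k4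

end comp
end Nl
end GaussPoset
end Agent
end Pool

end
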