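import Mathlib
import Pool.Agent.W_448zz_h61.Ns
import Pool.Agent.W_448zz_h61.M232

/-! From `Pool.Agent.W_448nl_h15.NlH` -/

section

/-!
# MP_448cb3_co: early shapes without pendants, distance three and four, energies up to `2 (J - i) + 2`
-/

namespace Pool.Agent.GaussPoset.Nl

set_option linter.unusedSectionVars false

open Polynomial Finset OrderDual

universe u

variable {Q : Type u} [Fintype Q] [PartialOrder Q] [DecidableEq Q]
variable {t : Q} {T : ℕ × ℕ → Prop} {co : Q → ℕ × ℕ} {i J p q n : ℕ}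

lemma three_le_nab {z y1 y2 y3 : Q} {l : ℕ} (h1 : z ≤ y1) (h2 : z ≤ y2) (h3 : z ≤ y3)
    (l1 : lev y1 = l) (l2 : lev y2 = l) (l3 : lev y3 = l) (n12 : y1 ≠ y2) (n13 : y1 ≠ y3)
    (n23 : y2 ≠ y3) : 3 ≤ nab l z := by
  classical
  have h0 : nab l z = ((lv Q l).filter (fun x => z ≤ x)).card := by
    unfold nab
    congr
  have h4 : ({y1, y2, y3} : Finset Q) ⊆ (lv Q l).filter (fun x => z ≤ x) := by
    intro y hy
    rw [mem_insert, mem_insert, mem_singleton] at hy
    rw [mem_filter, mem_lv]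
    rcases hy with rfl | rfl | rfl
    · exact ⟨l1, h1⟩
    · exact ⟨l2, h2⟩
    · exact ⟨l3, h3⟩
  have h5 := card_le_card h4
  rw [card_insert_of_notMem (by
    rw [mem_insert, mem_singleton]
    rintro (h | h)
    · exact n12 h
    · exact n13 h), card_pair n23] at h5
  omega

/-- a cell above -/
lemma cell_up (H : Tru t T co i J p q) {z x : Q} (hzx : z ≤ x) (hx : lev x ≤ J) {a b : ℕ}
    (ha : a ≤ (co x).1) (hb : b ≤ (co x).2) (hT : T (a, b)) :
    ∃ y, z ≤ y ∧ lev y = a + b ∧ co y = (a, b) := by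
  obtain ⟨y, hy, hcy⟩ := H.chart.low x (mem_loN.2 hx) (a, b) ⟨ha, hb⟩ hT
  refine ⟨y, hzx.trans ((H.chart.le_iff x (mem_loN.2 hx) y hy).2 ?_), ?_, hcy⟩
  · rw [hcy]
    exact ⟨ha, hb⟩
  · have := H.chart.lev y hy
    rw [hcy] at this
    exact this

/-- three cells above -/
lemma nab3 (H : Tru t T co i J p q) {z x1 x2 x3 : Q} (hz1 : z ≤ x1) (hz2 : z ≤ x2) (hz3 : z ≤ x3)
    (hx1 : lev x1 ≤ J) (hx2 : lev x2 ≤ J) (hx3 : lev x3 ≤ J) {l a1 b1 a2 b2 a3 b3 : ℕ}
    (e1 : a1 + b1 = l) (e2 : a2 + b2 = l) (e3 : a3 + b3 = l) (n12 : a1 ≠ a2) (n13 : a1 ≠ a3)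
    (n23 : a2 ≠ a3) (ha1 : a1 ≤ (co x1).1) (hb1 : b1 ≤ (co x1).2) (ha2 : a2 ≤ (co x2).1)
    (hb2 : b2 ≤ (co x2).2) (ha3 : a3 ≤ (co x3).1) (hb3 : b3 ≤ (co x3).2) (T1 : T (a1, b1))
    (T2 : T (a2, b2)) (T3 : T (a3, b3)) : 3 ≤ nab l z := by
  obtain ⟨y1, g1, g2, g3⟩ := cell_up H hz1 hx1 ha1 hb1 T1
  obtain ⟨y2, g4, g5, g6⟩ := cell_up H hz2 hx2 ha2 hb2 T2
  obtain ⟨y3, g7, g8, g9⟩ := cell_up H hz3 hx3 ha3 hb3 T3
  refine three_le_nab g1 g4 g7 (g2.trans e1) (g5.trans e2) (g8.trans e3) ?_ ?_ ?_
  · intro h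
    rw [h, g6, Prod.mk.injEq] at g3
    exact n12 g3.1.symm
  · intro h
    rw [h, g9, Prod.mk.injEq] at g3
    exact n13 g3.1.symm
  · intro h
    rw [h, g9, Prod.mk.injEq] at g6
    exact n23 g6.1.symm

/-- no pendants below the free elements -/
def NoPd (co : Q → ℕ × ℕ) (J p q : ℕ) : Prop :=
  ∀ z x : Q, lev z = J + 1 → z ⋖ x → (co x).1 < p → (co x).2 < q →
    (co x).1 + (co x).2 = J → ∃ x', z ⋖ x' ∧ x' ≠ x

/-- bounds of a double -/
def gD (m : ℕ) : ℕ := if m = 0 then 2 else 3
/-- bounds of a double -/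
def gE (m : ℕ) : ℕ := if m < 2 then 2 else 3

lemma sum_gD : ∀ L : ℕ, ∑ m ∈ range (L + 1), gD m = 3 * L + 2 := by
  intro L
  induction L with
  | zero => decide
  | succ L ih =>
    rw [Finset.sum_range_succ, ih]
    unfold gD
    rw [if_neg (by omega)]
    ring

lemma sum_gE : ∀ L : ℕ, ∑ m ∈ range (L + 2), gE m = 3 * L + 4 := by
  intro L
  induction L with
  | zero => decide
  | succ L ih =>
    rw [show L + 1 + 2 = (L + 2) + 1 by ring, Finset.sum_range_succ, ih]
    unfold gE
    rw [if_neg (by omega)]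
    ring

/-- a second cover: coordinates -/
lemma cover_co (H : Tru t T co i J p q) {z x x' : Q} (hzl : lev z = J + 1) (hzx : z ⋖ x)
    (hzx' : z ⋖ x') (hne : x' ≠ x) : lev x = J ∧ lev x' = J ∧ (co x).1 + (co x).2 = J ∧
      (co x').1 + (co x').2 = J ∧ (co x').1 ≠ (co x).1 := by
  have h1 := H.graded.lev_covBy hzx
  have h2 := H.graded.lev_covBy hzx'
  have h3 := H.chart.lev x (mem_loN.2 (by omega))
  have h4 := H.chart.lev x' (mem_loN.2 (by omega))
  refine ⟨by omega, by omega, by omega, by omega, fun h => ?_⟩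
  exact hne (H.chart.inj x' (mem_loN.2 (by omega)) x (mem_loN.2 (by omega))
    (Prod.ext h (by omega)))

/-- doubles in a rectangle -/
lemma dbl_rect (H : Tru t (fun _ => True) co i J p q) {z x x' : Q} (hzl : lev z = J + 1)
    (hzx : z ⋖ x) (hzx' : z ⋖ x') (hne : x' ≠ x) (hs : (co x).1 < p) (hc : (co x).2 < q) :
    ∀ m < J - i, gD m ≤ nab (J - m) z := by
  obtain ⟨l1, l2, s1, s2, hn⟩ := cover_co H hzl hzx hzx' hne
  have hiJ := H.hiJ
  have hp := H.hp
  have hq := H.hq
  intro m hm
  unfold gD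
  split_ifs with h0
  · exact two_le_nab hzx'.le hzx.le (by omega) (by omega) hne
  · rcases Nat.lt_or_ge m 2 with h1 | h1
    · obtain rfl : m = 1 := by omega
      have key : ∃ a3 b3, a3 + b3 = J - 1 ∧ a3 ≠ (co x).1 - 1 ∧ a3 ≠ (co x).1 ∧
          a3 ≤ (co x').1 ∧ b3 ≤ (co x').2 := by
        rcases Nat.lt_or_ge (co x').1 (co x).1 with h2 | h2
        · rcases Nat.eq_zero_or_pos (co x').1 with h3 | h3
          · exact ⟨0, J - 1, by omega, by omega, by omega, by omega, by omega⟩
          · exact ⟨(co x').1 - 1, (co x').2, by omega, by omega, by omega, by omega, by omega⟩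
        · rcases Nat.eq_zero_or_pos (co x').2 with h3 | h3
          · exact ⟨(co x').1 - 1, 0, by omega, by omega, by omega, by omega, by omega⟩
          · exact ⟨(co x').1, (co x').2 - 1, by omega, by omega, by omega, by omega, by omega⟩
      obtain ⟨a3, b3, k1, k2, k3, k4, k5⟩ := key
      exact nab3 H hzx.le hzx.le hzx'.le l1.le l1.le l2.le (a1 := (co x).1 - 1) (b1 := (co x).2)
        (a2 := (co x).1) (b2 := (co x).2 - 1) (a3 := a3) (b3 := b3) (by omega) (by omega) k1
        (by omega) (by omega) (by omega) (by omega) (by omega) (by omega) (by omega) k4 k5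
        trivial trivial trivial
    · refine le_trans ?_ (nab_mono hzx.le)
      exact nab_three H (by omega) (a := (co x).1 - 2) (b := (co x).2 - (m - 2)) (by omega)
        (by omega) (by omega) (by omega) trivial trivial trivial

/-- RECTANGLES without pendants -/
theorem rect_clean3 (H : Tru t (fun _ => True) co i J p q) (hr : i + 2 ≤ p + q)
    (hN : NoPd co J p q) (hn : n ≤ 2 * (J - i) + 2) :
    (1 + X : ℤ[X]) ^ (p + q - 1 - i) ∣ Z Q i n := by
  classical
  have hiJ := H.hiJ
  refine (H.farT (cln_rect2 H hr le_rfl)).dvd_of_lt (by omega) fun z hz => ?_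
  have hl := bd_lev' H hz
  rcases Nat.lt_or_ge (hcan (hiN Q J) (thJ J p q co) z) 2 with h2 | h2
  · have h1 : hcan (hiN Q J) (thJ J p q co) z = 1 := by
      obtain ⟨x, -, -, hx⟩ := hcan_spec (θ := thJ J p q co) hz
      omega
    obtain ⟨x, hzx, hxl, -, hs, hc, hsc⟩ := free_cover H hz h1
    obtain ⟨x', hzx', hne⟩ := hN z x hl hzx hs hc hsc
    have h3 := (cost_one (i := i) hl (by omega) h1 gD (dbl_rect H hl hzx hzx' hne hs hc)).1
    obtain ⟨L, hL⟩ : ∃ L, J - i = L + 1 := ⟨J - i - 1, by omega⟩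
    rw [hL, sum_gD] at h3
    omega
  · have := cost_label_rect H hz h2
    omega

/-- doubles in a staircase, even level -/
lemma dbl_even (H : Tru t (fun c => c.1 ≤ c.2) co i J (i + 1) q) {z x x' : Q}
    (hzl : lev z = J + 1) (hzx : z ⋖ x) (hzx' : z ⋖ x') (hne : x' ≠ x) (hc : (co x).2 < q)
    (hJ : 2 * (J / 2) = J) : ∀ m < J - i, gE m ≤ nab (J - m) z := by
  obtain ⟨l1, l2, s1, s2, hn⟩ := cover_co H hzl hzx hzx' hne
  have hiJ := H.hiJ
  have hq := H.hq
  have hge : (co x).1 ≤ (co x).2 := H.chart.mem x (mem_loN.2 l1.le)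
  have hge' : (co x').1 ≤ (co x').2 := H.chart.mem x' (mem_loN.2 l2.le)
  intro m hm
  rcases Nat.lt_or_ge (co x).1 (co x).2 with hf | hf
  · unfold gE
    split_ifs with h0
    · rcases Nat.eq_zero_or_pos m with rfl | h1
      · exact two_le_nab hzx'.le hzx.le (by omega) (by omega) hne
      · obtain rfl : m = 1 := by omega
        refine le_trans ?_ (nab_mono hzx.le)
        exact nab_two H (by omega) (a := (co x).1 - 1) (b := (co x).2) (a' := (co x).1)
          (b' := (co x).2 - 1) (by omega) (by omega) (by omega) (by omega) (by omega) (by omega)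
          (by omega) (by simp only; omega) (by simp only; omega)
    · refine le_trans ?_ (nab_mono hzx.le)
      exact nab_three H (by omega) (a := (co x).1 - m) (b := (co x).2) (by omega)
        (by omega) (by omega) (by omega) (by simp only; omega) (by simp only; omega)
        (by simp only; omega)
  · obtain ⟨n1, n2⟩ := fold_double H hzl hzx hzx' hne s1 (by omega) (by omega)
    unfold gE
    split_ifs with h0
    · rcases Nat.eq_zero_or_pos m with rfl | h1
      · exact n1
      · obtain rfl : m = 1 := by omega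
        exact n2
    · exact nab3 H hzx.le hzx.le hzx'.le l1.le l1.le l2.le (a1 := (co x).1 - m)
        (b1 := (co x).2) (a2 := (co x).1 - m + 1) (b2 := (co x).2 - 1)
        (a3 := min (co x').1 ((co x).1 - m - 1)) (b3 := J - m - min (co x').1 ((co x).1 - m - 1))
        (by omega) (by omega) (by omega) (by omega) (by omega) (by omega) (by omega) (by omega)
        (by omega) (by omega) (by omega) (by omega) (by simp only; omega) (by simp only; omega)
        (by simp only; omega)

/-- doubles in a staircase, odd level -/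
lemma dbl_odd (H : Tru t (fun c => c.1 ≤ c.2) co i J (i + 1) q) {z x x' : Q}
    (hzl : lev z = J + 1) (hzx : z ⋖ x) (hzx' : z ⋖ x') (hne : x' ≠ x) (hc : (co x).2 < q)
    (hJ : 2 * (J / 2) + 1 = J) : ∀ m < J - i, gD m ≤ nab (J - m) z := by
  obtain ⟨l1, l2, s1, s2, hn⟩ := cover_co H hzl hzx hzx' hne
  have hiJ := H.hiJ
  have hq := H.hq
  have hge : (co x).1 ≤ (co x).2 := H.chart.mem x (mem_loN.2 l1.le)
  have hge' : (co x').1 ≤ (co x').2 := H.chart.mem x' (mem_loN.2 l2.le)
  intro m hm
  unfold gD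
  split_ifs with h0
  · exact two_le_nab hzx'.le hzx.le (by omega) (by omega) hne
  rcases Nat.lt_or_ge ((co x).1 + 1) (co x).2 with hf | hf
  · rcases Nat.lt_or_ge m 2 with h1 | h1
    · obtain rfl : m = 1 := by omega
      rcases Nat.lt_or_ge (co x').1 (co x).1 with h2 | h2
      · exact nab3 H hzx.le hzx.le hzx'.le l1.le l1.le l2.le (a1 := (co x).1 - 1)
          (b1 := (co x).2) (a2 := (co x).1) (b2 := (co x).2 - 1)
          (a3 := min (co x').1 ((co x).1 - 2)) (b3 := J - 1 - min (co x').1 ((co x).1 - 2))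
          (by omega) (by omega) (by omega) (by omega) (by omega) (by omega) (by omega) (by omega)
          (by omega) (by omega) (by omega) (by omega) (by simp only; omega) (by simp only; omega)
          (by simp only; omega)
      · exact nab3 H hzx.le hzx.le hzx'.le l1.le l1.le l2.le (a1 := (co x).1 - 1)
          (b1 := (co x).2) (a2 := (co x).1) (b2 := (co x).2 - 1)
          (a3 := (co x').1) (b3 := (co x').2 - 1)
          (by omega) (by omega) (by omega) (by omega) (by omega) (by omega) (by omega) (by omega)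
          (by omega) (by omega) (by omega) (by omega) (by simp only; omega) (by simp only; omega)
          (by simp only; omega)
    · refine le_trans ?_ (nab_mono hzx.le)
      exact nab_three H (by omega) (a := (co x).1 - m) (b := (co x).2) (by omega)
        (by omega) (by omega) (by omega) (by simp only; omega) (by simp only; omega)
        (by simp only; omega)
  · exact nab3 H hzx.le hzx.le hzx'.le l1.le l1.le l2.le (a1 := (co x).1 - m)
      (b1 := (co x).2) (a2 := (co x).1 - m + 1) (b2 := (co x).2 - 1)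
      (a3 := min (co x').1 ((co x).1 - m - 1)) (b3 := J - m - min (co x').1 ((co x).1 - m - 1))
      (by omega) (by omega) (by omega) (by omega) (by omega) (by omega) (by omega) (by omega)
      (by omega) (by omega) (by omega) (by omega) (by simp only; omega) (by simp only; omega)
      (by simp only; omega)

/-- costs in a staircase of even level without pendants -/
lemma cost_even (H : Tru t (fun c => c.1 ≤ c.2) co i J (i + 1) q) (hN : NoPd co J (i + 1) q)
    (hJ : 2 * (J / 2) = J) {z : Q} (hz : z ∈ bdR (hiN Q J)) :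
    2 * (J - i) + 3 ≤ cst i (hS co i J q) z ∨ (hS co i J q z = 1 ∧
      3 * (J - i) - 1 ≤ cst i (hS co i J q) z) := by
  classical
  have hiJ := H.hiJ
  have hq := H.hq
  have hl := bd_lev' H hz
  rcases Nat.lt_or_ge (hS co i J q z) 2 with h2 | h2
  swap
  · exact Or.inl (cost_label_stair H hz h2)
  have h1 : hS co i J q z = 1 := by
    obtain ⟨x, -, -, hx⟩ := hcan_spec (θ := thJ J (i + 1) q co) hz
    change hcan (hiN Q J) (thJ J (i + 1) q co) z < 2 at h2
    change hcan (hiN Q J) (thJ J (i + 1) q co) z = 1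
    omega
  refine Or.inr ⟨h1, ?_⟩
  obtain ⟨x, hzx, hxl, -, hs, hc, hsc⟩ := free_cover H hz h1
  obtain ⟨x', hzx', hne⟩ := hN z x hl hzx hs hc hsc
  have h3 := (cost_one (i := i) hl (by omega) h1 gE (dbl_even H hl hzx hzx' hne hc hJ)).1
  obtain ⟨L, hL⟩ : ∃ L, J - i = L + 2 := ⟨J - i - 2, by omega⟩
  rw [hL, sum_gE] at h3
  omega

/-- STAIRCASES of even level without pendants, distance at least four -/
theorem even_clean4 (H : Tru t (fun c => c.1 ≤ c.2) co i J (i + 1) q) (hr : i + 2 ≤ 2 * q)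
    (h4 : i + 4 ≤ J) (hJ : 2 * (J / 2) = J) (hN : NoPd co J (i + 1) q)
    (hn : n ≤ 2 * (J - i) + 2) : (1 + X : ℤ[X]) ^ (i / 2 + q - i) ∣ Z Q i n := by
  classical
  refine (H.farT (cln_stair2 H hr le_rfl (Or.inr (Or.inl ⟨h4, hJ⟩)))).dvd_of_lt (by omega)
    fun z hz => ?_
  have := cost_even H hN hJ hz
  change n < cst i (hS co i J q) z
  omega

/-- STAIRCASES of even level without pendants, distance three -/
theorem even_clean3 (H : Tru t (fun c => c.1 ≤ c.2) co i J (i + 1) q) (hr : i + 2 ≤ 2 * q)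
    (h3 : J = i + 3) (hJ : 2 * (J / 2) = J) (hN : NoPd co J (i + 1) q)
    (hn : n ≤ 7) : (1 + X : ℤ[X]) ^ (i / 2 + q - i) ∣ Z Q i n := by
  classical
  refine (H.farT (cln_stair2 H hr (n0 := 8) (by omega) (Or.inr (Or.inr ⟨h3, hJ, le_rfl⟩)))).dvd_of_lt
    (by omega) fun z hz => ?_
  have := cost_even H hN hJ hz
  change n < cst i (hS co i J q) z
  omega

end Pool.Agent.GaussPoset.Nl

end

/-! From `Pool.Agent.W_448nl_h15.NlI` -/

section

/-!
# MP_448cb3_co: staircases of even level, distance three, energy eight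
-/

namespace Pool.Agent.GaussPoset.Nl

set_option linter.unusedSectionVars false

open Polynomial Finset OrderDual

universe u

variable {Q : Type u} [Fintype Q] [PartialOrder Q] [DecidableEq Q]
variable {t : Q} {T : ℕ × ℕ → Prop} {co : Q → ℕ × ℕ} {i J p q n : ℕ}

lemma nab_card (l : ℕ) (z : Q) [DecidablePred fun x : Q => z ≤ x] :
    nab l z = ((lv Q l).filter (fun x => z ≤ x)).card := by
  unfold nab
  congr

/-- the elements above `z` and above `x` -/
lemma nab_of_eq (hgr : GradedBelow Q) {z x : Q} (hzx : z ≤ x) {l0 : ℕ} (h0 : l0 ≤ lev x)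
    (h : nab l0 z ≤ nab l0 x) {l : ℕ} (hl : l ≤ l0) : nab l z ≤ nab l x := by
  classical
  rw [nab_card, nab_card] at h
  have h1 : (lv Q l0).filter (fun y => x ≤ y) ⊆ (lv Q l0).filter (fun y => z ≤ y) := by
    intro y hy
    rw [mem_filter] at hy ⊢
    exact ⟨hy.1, hzx.trans hy.2⟩
  have h2 := Finset.eq_of_subset_of_card_le h1 h
  rw [nab_card, nab_card]
  refine Finset.card_le_card fun y hy => ?_
  rw [mem_filter, mem_lv] at hy ⊢
  refine ⟨hy.1, ?_⟩
  obtain ⟨w, hw1, hw2, hw3⟩ := exists_between hgr hy.2 (l := l0) (by omega)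
    (h0.trans (lev_le_of_le hzx))
  have h3 : w ∈ (lv Q l0).filter (fun y => x ≤ y) := by
    rw [h2, mem_filter, mem_lv]
    exact ⟨hw3, hw1⟩
  rw [mem_filter] at h3
  exact h3.2.trans hw2

/-- the elements above `z` are above one of two elements -/
lemma nab_le_add (hgr : GradedBelow Q) {z x x' : Q} (hzx : z ≤ x) (hzx' : z ≤ x') (hx : lev x = J)
    (hx' : lev x' = J) (hne : x ≠ x') (h2 : nab J z ≤ 2) {l : ℕ} (hl : l ≤ J) :
    nab l z ≤ nab l x + nab l x' := by
  classical
  rw [nab_card l z, nab_card l x, nab_card l x']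
  refine le_trans (card_le_card ?_) (card_union_le _ _)
  intro y hy
  rw [mem_filter, mem_lv] at hy
  rw [mem_union, mem_filter, mem_filter, mem_lv]
  obtain ⟨w, hw1, hw2, hw3⟩ := exists_between hgr hy.2 (l := J) (by omega)
    (hx ▸ lev_le_of_le hzx)
  by_cases e1 : w = x
  · left
    rw [← e1]
    exact ⟨hy.1, hw2⟩
  · by_cases e2 : w = x'
    · right
      rw [← e2]
      exact ⟨hy.1, hw2⟩
    · exfalso
      have := three_le_nab hw1 hzx hzx' hw3 hx hx' e1 e2 hne
      omega

/-- the drop of a double at the exceptional energy -/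
lemma drop_even (H : Tru t (fun c => c.1 ≤ c.2) co i J (i + 1) q) {z x x' : Q}
    (hzl : lev z = J + 1) (hzx : z ⋖ x) (hzx' : z ⋖ x') (hne : x' ≠ x) (hc : (co x).2 < q)
    (hJ : 2 * (J / 2) = J) (h3 : J = i + 3) (hg : ∀ m < J - i, nab (J - m) z = gE m) :
    nab i z ≤ nab (i + 1) z + 1 := by
  obtain ⟨l1, l2, s1, s2, hn⟩ := cover_co H hzl hzx hzx' hne
  have hiJ := H.hiJ
  have hq := H.hq
  have hge : (co x).1 ≤ (co x).2 := H.chart.mem x (mem_loN.2 l1.le)
  have hge' : (co x').1 ≤ (co x').2 := H.chart.mem x' (mem_loN.2 l2.le)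
  have g0 := hg 0 (by omega)
  have g1 := hg 1 (by omega)
  have g2 := hg 2 (by omega)
  have e0 : gE 0 = 2 := rfl
  have e1 : gE 1 = 2 := rfl
  have e2 : gE 2 = 3 := rfl
  rw [Nat.sub_zero, e0] at g0
  rw [e1] at g1
  rw [e2, show J - 2 = i + 1 by omega] at g2
  rcases Nat.lt_or_ge (co x).1 (co x).2 with hf | hf
  · have k1 : 2 ≤ nab (J - 1) x := nab_two H (by omega) (a := (co x).1 - 1) (b := (co x).2)
      (a' := (co x).1) (b' := (co x).2 - 1) (by omega) (by omega) (by omega) (by omega) (by omega)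
      (by omega) (by omega) (by simp only; omega) (by simp only; omega)
    have k2 := nab_of_eq H.graded hzx.le (l0 := J - 1) (by omega) (by omega) (l := i) (by omega)
    have k3 := nab_upper H l1.le (l := i) (lo := (co x).1 - 3) (hi := (co x).1 + 1) (by
      intro a ha1 ha2 ha3 ha4
      omega)
    omega
  · rcases Nat.eq_zero_or_pos (co x').1 with hz0 | hz0
    · have k1 := nab_le_add H.graded hzx.le hzx'.le l1 l2 hne.symm g0.le (l := i) (by omega)
      have k2 := nab_upper H l1.le (l := i) (lo := (co x).1 - 3) (hi := (co x).1 - 1) (by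
        intro a ha1 ha2 ha3 ha4
        simp only at ha4
        omega)
      have k3 := nab_upper H l2.le (l := i) (lo := 0) (hi := 1) (by
        intro a ha1 ha2 ha3 ha4
        omega)
      omega
    · have k1 : 2 ≤ nab (J - 1) x' := nab_two H (by omega) (a := (co x').1 - 1) (b := (co x').2)
        (a' := (co x').1) (b' := (co x').2 - 1) (by omega) (by omega) (by omega) (by omega)
        (by omega) (by omega) (by omega) (by simp only; omega) (by simp only; omega)
      have k2 := nab_of_eq H.graded hzx'.le (l0 := J - 1) (by omega) (by omega) (l := i) (by omega)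
      have k3 := nab_upper H l2.le (l := i) (lo := (co x').1 - 3) (hi := (co x').1 + 1) (by
        intro a ha1 ha2 ha3 ha4
        omega)
      omega

/-- counts at the cell next to the fold -/
lemma fold_counts8 {S : Finset (ℕ × ℕ)} {i q s : ℕ} (hSge : ∀ c ∈ S, c.1 ≤ c.2)
    (hS : ∀ s' c', s' ≤ c' → c' < q → (s', c') ∈ S) (hs : s + 1 < q) (hi : i + 3 = 2 * s)
    (hq : q ≤ i + 1) (hr : i + 2 ≤ 2 * q) :
    (i / 2 + q - i - 1) + (S.filter (fun c' => c' ≤ (s, s + 1) ∧ c'.1 + c'.2 = i)).card ≤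
        (S.filter (fun c' => c'.1 + c'.2 = i)).card +
          (S.filter (fun c' => c' ≤ (s, s + 1) ∧ c'.1 + c'.2 = i + 1)).card := by
  classical
  have h1 : (S.filter (fun c' => c' ≤ (s, s + 1) ∧ c'.1 + c'.2 = i)).card ≤ 3 := by
    have h2 : S.filter (fun c' => c' ≤ (s, s + 1) ∧ c'.1 + c'.2 = i) ⊆
        {(s - 4, s + 1), (s - 3, s), (s - 2, s - 1)} := by
      intro p hp
      rw [mem_filter] at hp
      obtain ⟨h3, h4, h5⟩ := hp
      have h6 := hSge p h3
      have h7 : p.1 ≤ s := h4.1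
      have h8 : p.2 ≤ s + 1 := h4.2
      rw [mem_insert, mem_insert, mem_singleton]
      by_cases h9 : p.2 = s + 1
      · exact Or.inl (Prod.ext (by simp only; omega) h9)
      · by_cases h10 : p.2 = s
        · exact Or.inr (Or.inl (Prod.ext (by simp only; omega) h10))
        · exact Or.inr (Or.inr (Prod.ext (by simp only; omega) (by simp only; omega)))
    exact (card_le_card h2).trans (card_le_three)
  have h2 : 2 ≤ (S.filter (fun c' => c' ≤ (s, s + 1) ∧ c'.1 + c'.2 = i + 1)).card := by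
    have h3 : ({(s - 3, s + 1), (s - 2, s)} : Finset (ℕ × ℕ)) ⊆
        S.filter (fun c' => c' ≤ (s, s + 1) ∧ c'.1 + c'.2 = i + 1) := by
      intro p hp
      rw [mem_insert, mem_singleton] at hp
      rw [mem_filter]
      rcases hp with rfl | rfl
      · exact ⟨hS _ _ (by omega) hs, ⟨Nat.sub_le _ _, le_rfl⟩, by simp only; omega⟩
      · exact ⟨hS _ _ (by omega) (by omega), ⟨Nat.sub_le _ _, Nat.le_succ _⟩,
          by simp only; omega⟩
    have h4 := card_le_card h3
    rwa [card_pair (by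
      intro h
      have := congrArg Prod.snd h
      simp only at this
      omega)] at h4
  have h3 : i / 2 + q - i ≤ (S.filter (fun c' => c'.1 + c'.2 = i)).card := by
    have h4 : (range (i / 2 + q - i)).image (fun a => (i / 2 - a, i - (i / 2 - a))) ⊆
        S.filter (fun c' => c'.1 + c'.2 = i) := by
      intro p hp
      rw [mem_image] at hp
      obtain ⟨a, ha, rfl⟩ := hp
      rw [mem_range] at ha
      rw [mem_filter]
      exact ⟨hS _ _ (by omega) (by omega), by simp only; omega⟩
    have h5 := card_le_card h4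
    rwa [card_image_of_injOn, card_range] at h5
    intro a ha b hb hab
    rw [mem_coe, mem_range] at ha hb
    simp only [Prod.mk.injEq] at hab
    omega
  omega

/-- TRUNCATED STAIRCASES, distance three, even level, energy eight: order one less -/
theorem stair_trunc_exc8 {Q : Type u} [Fintype Q] [PartialOrder Q] [DecidableEq Q]
    (co : Q → ℕ × ℕ) (hinj : Function.Injective co) (hge : ∀ x, (co x).1 ≤ (co x).2)
    (hle : ∀ x y : Q, x ≤ y ↔ co y ≤ co x)
    (hlow : ∀ x : Q, ∀ c ≤ co x, c.1 ≤ c.2 → ∃ y, co y = c) {i q J : ℕ} (hq : q ≤ i + 1)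
    (hr : i + 2 ≤ 2 * q) (hiJ : J = i + 3) (hJ : 2 * (J / 2) = J)
    (hsub : q = i + 1 ∨ ∀ x, (co x).2 < q)
    (hbase : ∀ s c, s ≤ c → c < q → s + c ≤ J → ∃ x, co x = (s, c)) :
    (1 + X : ℤ[X]) ^ (i / 2 + q - i - 1) ∣ Z Q i 8 := by
  classical
  have key : ∀ S : Finset (ℕ × ℕ), (∀ c ∈ S, c.1 ≤ c.2) →
      (∀ c ∈ S, ∀ c' ≤ c, c'.1 ≤ c'.2 → c' ∈ S) →
      (∀ s' c', s' ≤ c' → c' < q → (s', c') ∈ S) → (∀ x, co x ∈ S) →
      (∀ c ∈ S, (∀ x, co x ≠ c) → c.1 ≤ c.2 ∧ c.2 < q) →
      (1 + X : ℤ[X]) ^ (i / 2 + q - i) ∣ Z (CelS S) i 8 →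
      (1 + X : ℤ[X]) ^ (i / 2 + q - i - 1) ∣ Z Q i 8 := by
    intro S hSge hSlow hS hsubS hadd hd
    refine dvd_complete co hinj hle hsubS (fun x c hc hcS => hlow x c hc (hSge c hcS))
      (cel_graded conn_shift hSge hSlow (lev_cel_shift hSge hSlow))
      (lev_cel_shift hSge hSlow) ?_ ((pow_dvd_pow _ (Nat.sub_le _ _)).trans hd)
    rintro ⟨s, c⟩ hc hno
    obtain ⟨h1, h1'⟩ := hadd _ hc hno
    simp only at h1 h1'
    have h2 : J < s + c := by
      by_contra hcon
      obtain ⟨x, hx⟩ := hbase s c h1 h1' (by omega)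
      exact hno x hx
    have h3 := cone_stair2 (n := 7) hS hq h1 h1' h2 (by omega) (by omega) (by
      unfold Exc
      omega)
    refine ⟨by simp only; omega, by omega, fun h4 => ?_⟩
    by_cases h5 : c = s + 1 ∧ s + c = J + 1
    · obtain ⟨h5, h6⟩ := h5
      subst h5
      exact fold_counts8 hSge hS h1' (by omega) hq hr
    · have h6 := cone_stair2 (n := 8) hS hq h1 h1' h2 (by omega) (by omega) (by
        unfold Exc
        omega)
      omega
  rcases hsub with hqi | hsub
  · set S : Finset (ℕ × ℕ) := univ.image co ∪ stc q with hSdef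
    have hmem : ∀ p, p ∈ S ↔ (∃ x, co x = p) ∨ p ∈ stc q := by
      intro p
      rw [hSdef, mem_union, mem_image]
      simp
    have hSge : ∀ c ∈ S, c.1 ≤ c.2 := by
      intro c hc
      rcases (hmem c).1 hc with ⟨x, rfl⟩ | h
      · exact hge x
      · exact stc_shift c h
    have hSlow : ∀ c ∈ S, ∀ c' ≤ c, c'.1 ≤ c'.2 → c' ∈ S := by
      intro c hc c' hc' hs
      rw [hmem] at hc ⊢
      rcases hc with ⟨x, rfl⟩ | h
      · exact Or.inl (hlow x c' hc' hs)
      · exact Or.inr (stc_low c h c' hc' hs)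
    refine key S hSge hSlow (fun s' c' h h' => (hmem _).2 (Or.inr (mem_stc.2 ⟨h, h'⟩)))
      (fun x => (hmem _).2 (Or.inl ⟨x, rfl⟩)) (fun c hc hno => ?_) ?_
    · rcases (hmem _).1 hc with ⟨x, hx⟩ | h
      · exact absurd hx (hno x)
      · exact mem_stc.1 h
    · refine dvd_Z_of_dvd_W ?_ 8
      have h1 := Yg.shift_dvd_cell (Q := CelS S) (i := i) cel cel_inj
        (fun x => hSge _ (cel_mem x))
        cel_le (fun x c hc hs => cel_surj (hSlow _ (cel_mem x) c hc hs))
        (cel_surj ((hmem _).2 (Or.inr (mem_stc.2 ⟨by simp only; omega, by simp only; omega⟩))))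
      rwa [show i / 2 + q - i = i / 2 + 1 by omega]
  · refine key (stc q) stc_shift stc_low (fun s' c' h h' => mem_stc.2 ⟨h, h'⟩)
      (fun x => mem_stc.2 ⟨hge x, hsub x⟩) (fun c hc _ => mem_stc.1 hc) ?_
    rw [show i / 2 + q - i = (2 * q - 2 - i) / 2 + 1 by omega]
    exact stair_full hq hr 8

/-- the exceptional energy, all lower sets -/
theorem cln_exc8 (H : Tru t (fun c => c.1 ≤ c.2) co i J (i + 1) q)
    (hr : i + 2 ≤ 2 * q) (h3 : J = i + 3) (hJ : 2 * (J / 2) = J) :
    Cln Q co i J (i + 1) q (i / 2 + q - i - 1) 9 := by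
  classical
  intro D hD hRD hDi hDθ n hn
  obtain ⟨h1, h2, h3', h4, h5⟩ := H.sub_facts hD hRD hDθ
  have hq := H.hq
  have hs : q = i + 1 ∨ ∀ x : {x : Q // x ∉ D}, (co (x : Q)).2 < q := by
    rcases H.qcl with h | h
    · exact Or.inl h
    · exact Or.inr fun x => h x (h1 x)
  by_cases hn8 : n = 8
  · subst hn8
    exact stair_trunc_exc8 (fun x : {x : Q // x ∉ D} => co (x : Q)) h2
      (fun x => H.chart.mem x (mem_loN.2 (h1 x))) h3' h4 H.hq hr h3 hJ hs
      (fun s c hsc hc hJ => h5 s c hsc (by omega) hc hJ)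
  · refine (pow_dvd_pow _ (Nat.sub_le _ _)).trans
      (stair_trunc2 (fun x : {x : Q // x ∉ D} => co (x : Q)) h2
      (fun x => H.chart.mem x (mem_loN.2 (h1 x))) h3' h4 H.hq hr H.hiJ hs
      (fun s c hsc hc hJ => h5 s c hsc (by omega) hc hJ) (by omega) ?_)
    intro s c hsc hc _ hE
    unfold Exc at hE
    omega

/-- STAIRCASES of even level without pendants, distance three, energy eight: order one less -/
theorem even_less8 (H : Tru t (fun c => c.1 ≤ c.2) co i J (i + 1) q) (hr : i + 2 ≤ 2 * q)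
    (h3 : J = i + 3) (hJ : 2 * (J / 2) = J) (hN : NoPd co J (i + 1) q) :
    (1 + X : ℤ[X]) ^ (i / 2 + q - i - 1) ∣ Z Q i 8 := by
  classical
  have hlv := H.lv_stair
  have hle : ∀ z ∈ bdR (hiN Q J), 8 ≤ cst i (hS co i J q) z := by
    intro z hz
    have := cost_even H hN hJ hz
    omega
  have hdrop : ∀ z ∈ (bdR (hiN Q J)).filter (fun z => cst i (hS co i J q) z = 8),
      (1 + X : ℤ[X]) ^ (i / 2 + q - i - 1) ∣ Lt i (hS co i J q) z := by
    intro z hz
    rw [mem_filter] at hz
    have hl := bd_lev' H hz.1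
    have h1 : hS co i J q z = 1 := by
      rcases cost_even H hN hJ hz.1 with h | h
      · omega
      · exact h.1
    obtain ⟨x, hzx, hxl, -, hs, hc, hsc⟩ := free_cover H hz.1 h1
    obtain ⟨x', hzx', hne⟩ := hN z x hl hzx hs hc hsc
    have hg := (cost_one (i := i) hl (by omega) h1 gE (dbl_even H hl hzx hzx' hne hc hJ)).2 (by
      rw [hz.2, h3, Nat.add_sub_cancel_left]
      decide)
    have h2 := drop_even H hl hzx hzx' hne hc hJ h3 hg
    unfold Lt
    refine Dvd.dvd.mul_left (pow_dvd_pow _ ?_) _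
    rw [h1]
    omega
  have hsum : (1 + X : ℤ[X]) ^ (i / 2 + q - i - 1) ∣
      ∑ z ∈ (bdR (hiN Q J)).filter (fun z => cst i (hS co i J q) z = 8), Lt i (hS co i J q) z :=
    dvd_sum hdrop
  have hmain := (H.farT (cln_exc8 H hr h3 hJ)).dvd_lead (n := 8) (by omega) hle
  have h3 := dvd_add hmain hsum
  rwa [sub_add_cancel] at h3

end Pool.Agent.GaussPoset.Nl

end

/-! From `Pool.Agent.W_448nl_h15.NlK` -/

section

/-!
# MP_448cb3_co: staircases of odd level, distances three and four
-/

namespace Pool.Agent.GaussPoset.Nl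

set_option linter.unusedSectionVars false

open Polynomial Finset OrderDual

universe u

variable {Q : Type u} [Fintype Q] [PartialOrder Q] [DecidableEq Q]
variable {t : Q} {T : ℕ × ℕ → Prop} {co : Q → ℕ × ℕ} {i J p q n : ℕ} {z0 xm : Q}

/-- the canonical labels -/
noncomputable abbrev hZ (co : Q → ℕ × ℕ) (i J q : ℕ) (z0 : Q) : Q → ℕ :=
  hcan (RZ J z0) (thZ i J q co z0)

lemma cst_congr {h h' : Q → ℕ} {z : Q} (e : h z = h' z) : cst i h z = cst i h' z := by
  unfold cst ez
  rw [e]

namespace Odd0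

variable (O : Odd0 t co i J q z0 xm)
include O

/-- the boundary: level `J + 1`, or a child of `z0` -/
lemma bd_cases {z : Q} (hz : z ∈ bdR (RZ J z0)) :
    (lev z = J + 1 ∧ z ≠ z0 ∧ z ∈ bdR (hiN Q J) ∧ hZ co i J q z0 z = hS co i J q z) ∨
      (lev z = J + 2 ∧ z ⋖ z0 ∧ hZ co i J q z0 z = 1) := by
  classical
  obtain ⟨hzR, x, hx, hzx⟩ := mem_filter.1 hz
  have hz2 := mem_RZ.1 hzR
  have h1 := O.H.graded.lev_covBy hzx
  have hlz := O.lz
  rcases not_RZ.1 hx with rfl | h2
  · right
    refine ⟨by omega, hzx, ?_⟩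
    have h3 := hcan_le (θ := thZ i J q co x) hx hzx
    obtain ⟨y, -, -, h4⟩ := hcan_spec (θ := thZ i J q co x) hz
    have h5 : thZ i J q co x x = 0 := by
      rw [thZ_out hx]
      unfold thE
      rw [O.cz]
      have := O.hq2
      have := O.H.hq
      simp only
      omega
    change hcan (RZ J x) (thZ i J q co x) z = 1
    omega
  · left
    refine ⟨by omega, hz2.1, mem_filter.2 ⟨mem_hiN.2 hz2.2, x, ?_, hzx⟩, ?_⟩
    · rw [mem_hiN]
      omega
    · change sInf _ = sInf _
      congr 1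
      ext s
      constructor
      · rintro ⟨y, hy, hzy, rfl⟩
        have h3 := O.H.graded.lev_covBy hzy
        refine ⟨y, ?_, hzy, ?_⟩
        · rw [mem_hiN]
          omega
        · rw [thZ_out hy, thJ_lo (by omega)]
      · rintro ⟨y, hy, hzy, rfl⟩
        have h3 := O.H.graded.lev_covBy hzy
        have hy2 : y ∉ RZ J z0 := not_RZ.2 (Or.inr (by omega))
        refine ⟨y, hy2, hzy, ?_⟩
        rw [thZ_out hy2, thJ_lo (by omega)]

/-- cost at level `J + 1` -/
lemma cost1 {z : Q} (hz : z ∈ bdR (hiN Q J)) (hne : z ≠ z0) :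
    2 * (J - i) + 3 ≤ cst i (hS co i J q) z ∨ 3 * (J - i) ≤ cst i (hS co i J q) z := by
  classical
  have hiJ := O.H.hiJ
  have hl := bd_lev' O.H hz
  rcases Nat.lt_or_ge (hS co i J q z) 2 with h2 | h2
  swap
  · exact Or.inl (cost_label_stair O.H hz h2)
  have h1 : hS co i J q z = 1 := by
    obtain ⟨x, -, -, hx⟩ := hcan_spec (θ := thJ J (i + 1) q co) hz
    change hcan (hiN Q J) (thJ J (i + 1) q co) z < 2 at h2
    change hcan (hiN Q J) (thJ J (i + 1) q co) z = 1
    omega
  right
  obtain ⟨x, hzx, hxl, -, hs, hc, hsc⟩ := free_cover O.H hz h1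
  obtain ⟨x', hzx', hne'⟩ := O.np z x hl hzx hc hsc hne
  have h3 := (cost_one (i := i) hl (by omega) h1 gD (dbl_odd O.H hl hzx hzx' hne' hc O.odd)).1
  obtain ⟨L, hL⟩ : ∃ L, J - i = L + 1 := ⟨J - i - 1, by omega⟩
  rw [hL, sum_gD] at h3
  omega

/-- the elements above `xm` -/
lemma nab_xm : nab J xm = 1 ∧ nab (J - 1) xm = 2 ∧ nab (J - 2) xm = 2 ∧
    3 ≤ nab (J - 3) xm ∧ (J = i + 3 → nab i xm = 3) ∧
    (J = i + 4 → nab (J - 3) xm = 3 ∧ nab i xm = 3) := by
  have hiJ := O.H.hiJ
  have hodd := O.odd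
  have hq := O.H.hq
  have hq2 := O.hq2
  have hcx := O.cx
  have hlx := O.lx
  have c1 : (co xm).1 = J / 2 := by rw [hcx]
  have c2 : (co xm).2 = J / 2 + 1 := by rw [hcx]
  have up : ∀ m lo hi, (∀ a, a ≤ J / 2 → a ≤ J - m → J - m - a ≤ J / 2 + 1 → a ≤ J - m - a →
      lo ≤ a ∧ a < hi) → nab (J - m) xm ≤ hi - lo := by
    intro m lo hi h
    refine nab_upper O.H hlx.le (lo := lo) (hi := hi) ?_
    intro a h1 h2 h3 h4
    rw [c1] at h1
    rw [c2] at h3
    exact h a h1 h2 h3 h4
  have u0 := up 0 (J / 2) (J / 2 + 1) (by intro a _ _ _ _; omega)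
  have u1 := up 1 (J / 2 - 1) (J / 2 + 1) (by intro a _ _ _ _; omega)
  have u2 := up 2 (J / 2 - 2) (J / 2) (by intro a _ _ _ _; omega)
  have u3 := up 3 (J / 2 - 3) (J / 2) (by intro a _ _ _ _; omega)
  have l0 : 1 ≤ nab J xm := one_le_nab hlx.ge
  have l1 : 2 ≤ nab (J - 1) xm := nab_two O.H hlx.le (a := J / 2 - 1) (b := J / 2 + 1)
    (a' := J / 2) (b' := J / 2) (by omega) (by omega) (by omega) (by omega) (by omega) (by omega)
    (by omega) (by simp only; omega) (by simp only; omega)
  have l2 : 2 ≤ nab (J - 2) xm := nab_two O.H hlx.le (a := J / 2 - 2) (b := J / 2 + 1)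
    (a' := J / 2 - 1) (b' := J / 2) (by omega) (by omega) (by omega) (by omega) (by omega)
    (by omega) (by omega) (by simp only; omega) (by simp only; omega)
  have l3 : 3 ≤ nab (J - 3) xm := nab_three O.H hlx.le (a := J / 2 - 3) (b := J / 2 + 1)
    (by omega) (by omega) (by omega) (by omega) (by simp only; omega) (by simp only; omega)
    (by simp only; omega)
  rw [Nat.sub_zero] at u0
  refine ⟨by omega, by omega, by omega, l3, ?_, ?_⟩
  · intro h
    rw [show J - 3 = i by omega] at u3 l3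
    omega
  · intro h
    have u4 := up 4 (J / 2 - 4) (J / 2 - 1) (by intro a _ _ _ _; omega)
    have l4 : 3 ≤ nab (J - 4) xm := nab_three O.H hlx.le (a := J / 2 - 4) (b := J / 2 + 1)
      (by omega) (by omega) (by omega) (by omega) (by simp only; omega) (by simp only; omega)
      (by simp only; omega)
    rw [show J - 4 = i by omega] at u4 l4
    exact ⟨by omega, by omega⟩

/-- the levels above an only child of `z0` -/
lemma nab_single {z : Q} (hz : lev z = J + 2) (hzz : z ⋖ z0) (h : nab (J + 1) z = 1) {l : ℕ}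
    (hl : l ≤ J) : nab l z = nab l xm := by
  have hlz := O.lz
  have h1 := nab_of_single O.H.graded hzz.le (by rw [hlz]; exact h) (l := l) (by omega)
  refine le_antisymm ?_ (nab_mono (hzz.le.trans O.zc.le))
  rw [h1]
  have h2 : nab J z0 ≤ nab J xm := by
    classical
    rw [nab_card, nab_card]
    refine card_le_card fun y hy => ?_
    rw [mem_filter, mem_lv] at hy ⊢
    refine ⟨hy.1, ?_⟩
    rcases O.above hy.2 with h3 | h3
    · rw [h3] at hy
      omega
    · exact h3
  exact nab_of_eq O.H.graded O.zc.le O.lx.ge h2 hl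

/-- cost of a child of `z0` -/
lemma cost2 {z : Q} (hz : lev z = J + 2) (hzz : z ⋖ z0) (h1 : hZ co i J q z0 z = 1) :
    cst i (hZ co i J q z0) z = 1 + (nab (J + 1) z + ∑ m ∈ range (J - i), nab (J - m) z) := by
  have hiJ := O.H.hiJ
  have h2 := cost_one_eq (i := i) (J := J + 1) (h := hZ co i J q z0) hz (by omega) h1
  rw [h2, show J + 1 - i = (J - i) + 1 by omega, Finset.sum_range_succ']
  rw [Nat.sub_zero, add_comm (nab (J + 1) z)]
  congr 2
  refine Finset.sum_congr rfl fun m _ => ?_
  congr 1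
  omega

/-- a second parent -/
lemma two_parents {z : Q} (hz : lev z = J + 2) (hzz : z ⋖ z0) (h : nab (J + 1) z ≠ 1) :
    2 ≤ nab (J + 1) z ∧ 2 ≤ nab J z := by
  classical
  have hlz := O.lz
  have h1 : 1 ≤ nab (J + 1) z := one_le_nab (by omega)
  have h3 : ∃ w, z ≤ w ∧ lev w = J + 1 ∧ w ≠ z0 := by
    by_contra hcon
    push Not at hcon
    apply h
    rw [nab_card, card_eq_one]
    refine ⟨z0, ?_⟩
    ext y
    rw [mem_filter, mem_lv, mem_singleton]
    exact ⟨fun h => hcon y h.2 h.1, fun h => by rw [h]; exact ⟨hlz, hzz.le⟩⟩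
  obtain ⟨w, w1, w2, w3⟩ := h3
  refine ⟨by omega, ?_⟩
  have hxz := hzz.le.trans O.zc.le
  have h4 : ∃ y, w ⋖ y ∧ y ≠ xm := by
    by_cases h5 : w ⋖ xm
    · obtain ⟨x', h6, h7⟩ := O.np w xm w2 h5 (by
        rw [O.cx]
        have := O.hq2
        simp only
        omega) (by
        rw [O.cx]
        have := O.odd
        simp only
        omega) w3
      exact ⟨x', h6, h7⟩
    · obtain ⟨y, hy, -⟩ := exists_lev_succ (x := w) (k := lev w - 1) (by omega)
      obtain ⟨y', hy', -⟩ := exists_covBy_le hy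
      exact ⟨y', hy', fun h6 => h5 (h6 ▸ hy')⟩
  obtain ⟨y, y1, y2⟩ := h4
  have h5 := O.H.graded.lev_covBy y1
  exact two_le_nab (w1.trans y1.le) hxz (by omega) O.lx y2

/-- children of `z0`: only one parent, or expensive -/
lemma cost2_cases {z : Q} (hz : lev z = J + 2) (hzz : z ⋖ z0) (h1 : hZ co i J q z0 z = 1)
    (h34 : J = i + 3 ∨ J = i + 4) :
    2 * (J - i) + 3 ≤ cst i (hZ co i J q z0) z ∨
      (nab (J + 1) z = 1 ∧ nab J z = 1 ∧ ((J = i + 3 ∧ cst i (hZ co i J q z0) z = 7 ∧
        nab i z = 3 ∧ nab (i + 1) z = 2) ∨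
        (J = i + 4 ∧ cst i (hZ co i J q z0) z = 10 ∧ nab i z = 3 ∧ nab (i + 1) z = 3))) := by
  have hc := O.cost2 hz hzz h1
  obtain ⟨x0, x1, x2, x3, x4, x5⟩ := O.nab_xm
  have hxz := hzz.le.trans O.zc.le
  by_cases h : nab (J + 1) z = 1
  · right
    have hs := fun l (hl : l ≤ J) => O.nab_single hz hzz h hl
    have s0 := hs J le_rfl
    have s1 := hs (J - 1) (by omega)
    have s2 := hs (J - 2) (by omega)
    have s3 := hs (J - 3) (by omega)
    have s4 := hs i (by omega)
    have s5 := hs (i + 1) (by omega)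
    refine ⟨h, by omega, ?_⟩
    rcases h34 with h2 | h2
    · left
      have x4' := x4 h2
      rw [show J - i = 3 by omega, Finset.sum_range_succ, Finset.sum_range_succ,
        Finset.sum_range_succ, Finset.sum_range_zero, Nat.sub_zero] at hc
      rw [show J - 2 = i + 1 by omega] at hc s2 x2
      exact ⟨h2, by omega, by omega, by omega⟩
    · right
      have x5' := x5 h2
      rw [show J - i = 4 by omega, Finset.sum_range_succ, Finset.sum_range_succ,
        Finset.sum_range_succ, Finset.sum_range_succ, Finset.sum_range_zero, Nat.sub_zero] at hc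
      rw [show J - 3 = i + 1 by omega] at hc s3 x5'
      exact ⟨h2, by omega, by omega, by omega⟩
  · left
    obtain ⟨n1, n2⟩ := O.two_parents hz hzz h
    have m1 : nab (J - 1) xm ≤ nab (J - 1) z := nab_mono hxz
    have m2 : nab (J - 2) xm ≤ nab (J - 2) z := nab_mono hxz
    have m3 : nab (J - 3) xm ≤ nab (J - 3) z := nab_mono hxz
    rcases h34 with h2 | h2
    · rw [show J - i = 3 by omega, Finset.sum_range_succ, Finset.sum_range_succ,
        Finset.sum_range_succ, Finset.sum_range_zero, Nat.sub_zero] at hc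
      omega
    · rw [show J - i = 4 by omega, Finset.sum_range_succ, Finset.sum_range_succ,
        Finset.sum_range_succ, Finset.sum_range_succ, Finset.sum_range_zero, Nat.sub_zero] at hc
      omega

/-- all costs -/
lemma cost_all {z : Q} (hz : z ∈ bdR (RZ J z0)) (h34 : J = i + 3 ∨ J = i + 4) :
    2 * (J - i) + 3 ≤ cst i (hZ co i J q z0) z ∨
      (lev z = J + 2 ∧ z ⋖ z0 ∧ hZ co i J q z0 z = 1 ∧
      nab (J + 1) z = 1 ∧ nab J z = 1 ∧ ((J = i + 3 ∧ cst i (hZ co i J q z0) z = 7 ∧
        nab i z = 3 ∧ nab (i + 1) z = 2) ∨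
        (J = i + 4 ∧ cst i (hZ co i J q z0) z = 10 ∧ nab i z = 3 ∧ nab (i + 1) z = 3))) := by
  rcases O.bd_cases hz with ⟨h1, h2, h3, h4⟩ | ⟨h1, h2, h3⟩
  · left
    have h5 := O.cost1 h3 h2
    rw [cst_congr (h' := hS co i J q) h4]
    omega
  · rcases O.cost2_cases h1 h2 h3 h34 with h4 | ⟨h4, h5, h6⟩
    · exact Or.inl h4
    · exact Or.inr ⟨h1, h2, h3, h4, h5, h6⟩

/-- STAIRCASES of odd level, order one less up to `2 (J - i) + 2` -/
theorem less (hT : Two Q) (hr : i + 2 ≤ 2 * q) (h34 : J = i + 3 ∨ J = i + 4) {n : ℕ}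
    (hn : n ≤ 2 * (J - i) + 2) : (1 + X : ℤ[X]) ^ (i / 2 + q - i - 1) ∣ Z Q i n := by
  classical
  have hlv := O.H.lv_stair
  have hF := O.farT (O.cln hr (n0 := n + 1) (by omega))
  rw [Z_split i (RZ J z0) (hZ co i J q z0) n]
  refine dvd_add ((pow_dvd_pow _ (Nat.sub_le _ _)).trans
    (dvd_ND hF.hlev _ n fun g h1 h2 => hF.clean g h1 h2 n (by omega))) ?_
  set Pd := (bdR (RZ J z0)).filter (fun z => cst i (hZ co i J q z0) z ≤ n) with hPd
  have hP : ∀ z ∈ Pd, lev z = J + 2 ∧ z ⋖ z0 ∧ hZ co i J q z0 z = 1 ∧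
      nab (J + 1) z = 1 ∧ nab J z = 1 ∧ ((J = i + 3 ∧ cst i (hZ co i J q z0) z = 7 ∧
        nab i z = 3 ∧ nab (i + 1) z = 2) ∨
        (J = i + 4 ∧ cst i (hZ co i J q z0) z = 10 ∧ nab i z = 3 ∧ nab (i + 1) z = 3)) := by
    intro z hz
    rw [hPd, mem_filter] at hz
    rcases O.cost_all hz.1 h34 with h | h
    · omega
    · exact h
  rw [DG_tm hF.hlev Pd (fun z hz => ⟨(mem_filter.1 hz).1, (hP z hz).2.2.1⟩) (fun z hz hz2 => by
    by_contra hcon
    exact hz2 (mem_filter.2 ⟨hz, by omega⟩))]
  have hK : ∀ z ∈ Pd, i / 2 + q - i - 1 ≤ (Pk i (ez i (hZ co i J q z0) z)).card := by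
    intro z hz
    obtain ⟨h0, -, h1, -, -, h3⟩ := hP z hz
    have h4 := pk_ez (i := i) (h := hZ co i J q z0) (z := z) O.H.graded (by omega) (by omega)
    rw [h1] at h4
    omega
  have hAdm : ∀ z ∈ Pd, Adm i (ez i (hZ co i J q z0) z) := by
    intro z hz
    obtain ⟨h0, -, h1, -⟩ := hP z hz
    exact adm_ez O.H.graded (by omega) (by omega)
  refine dvd_dangerous Pd ?_ ?_
  · intro z hz
    obtain ⟨h0, hzz, h1, hn1, hnJ, h3⟩ := hP z hz
    have hcn : cst i (hZ co i J q z0) z ≤ n := (mem_filter.1 hz).2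
    rcases Nat.eq_or_lt_of_le hcn with he | he
    · -- only the cheapest configuration
      refine dvd_sum fun e he2 => dvd_tmZ fun hA => ?_
      rw [mem_filter, mem_piAntidiag] at he2
      have h5 := fun x => ge_ez hA (show i < lev z by omega) h1 he2.2 x
      have h6 : ∑ x, ez i (hZ co i J q z0) z x = ∑ x, e x := by
        rw [he2.1.1]
        exact he
      have h7 : ez i (hZ co i J q z0) z = e := by
        funext x
        exact (Finset.sum_eq_sum_iff_of_le (fun x _ => h5 x)).1 h6 x (mem_univ x)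
      rw [← h7]
      exact hK z hz
    · have hn8 : n = cst i (hZ co i J q z0) z + 1 := by omega
      rw [sum_excite (by omega) h1 hn8]
      refine (pow_dvd_pow _ (hK z hz)).trans ?_
      exact dvd_sum_up1 hT (hAdm z hz) (no_mix O.H.graded (by omega) h1)
        (card_low_up2 O.H (by omega) h1 (hzz.le.trans O.zc.le) O.lx hnJ)
  · intro z hz z' hz' hne e he h1 h2
    refine dvd_tmZ fun hA => ?_
    obtain ⟨g0, gz, g1, -, -, g3⟩ := hP z hz
    obtain ⟨g0', gz', g1', -, -, g3'⟩ := hP z' hz'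
    have hcn : cst i (hZ co i J q z0) z ≤ n := (mem_filter.1 hz).2
    rw [mem_piAntidiag] at he
    have hge := fun x => ge_ez hA (show i < lev z by omega) g1 h1 x
    have h3 : ez i (hZ co i J q z0) z z' = 0 := by
      unfold ez
      rw [if_neg]
      intro h4
      have := lev_strictAnti (lt_of_le_of_ne h4 hne)
      omega
    rcases Nat.eq_or_lt_of_le hcn with he2 | he2
    · exfalso
      have h6 : ∑ x, ez i (hZ co i J q z0) z x = ∑ x, e x := by
        rw [he.1]
        exact he2
      have h7 := (Finset.sum_eq_sum_iff_of_le (fun x _ => hge x)).1 h6 z' (mem_univ z')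
      omega
    have hn8 : n = cst i (hZ co i J q z0) z + 1 := by omega
    obtain ⟨v, hv⟩ := exists_up1 (g := ez i (hZ co i J q z0) z) (e := e) hge (by
        rw [he.1, hn8]
        rfl)
    have hvz : v = z' := by
      by_contra hcon
      rw [hv] at h2
      unfold up1 at h2
      rw [h3, if_neg (fun h => hcon h.symm)] at h2
      omega
    subst hvz
    have hpk := fun x : Q => mem_pk_ez (x := x) O.H.graded (show i < lev z by omega) g1
    have hno : ∀ x, x ∈ Pk i (ez i (hZ co i J q z0) z) → lev x = J + 1 ∨ lev x = J + 3 →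
        False := by
      intro x hx hxl
      rcases (hpk x).1 hx with h3 | h3 <;> omega
    rw [hv] at hA ⊢
    rcases step_cases hT hA with h3 | ⟨-, h3 | h3 | h3 | h3⟩
    · exact (hK z hz).trans h3
    · exfalso
      obtain ⟨x, x', -, h4, -, h5, -⟩ := h3
      have := O.H.graded.lev_covBy h4
      exact hno x h5 (by omega)
    · exfalso
      obtain ⟨x, x', -, h4, -, h5, -⟩ := h3
      have := O.H.graded.lev_covBy h4
      exact hno x h5 (by omega)
    · exact absurd h3 (no_mix O.H.graded (show i < lev z by omega) g1 v hA).1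
    · exact absurd h3 (no_mix O.H.graded (show i < lev z by omega) g1 v hA).2

end Odd0

/-- staircases of odd level whose element next to the fold is not free -/
theorem odd_small (H : Tru t (fun c => c.1 ≤ c.2) co i J (i + 1) q) (hr : i + 2 ≤ 2 * q)
    (hJ : 2 * (J / 2) + 1 = J) (hq : q ≤ J / 2 + 1) {n : ℕ} (hn : n ≤ 2 * (J - i) + 2) :
    (1 + X : ℤ[X]) ^ (i / 2 + q - i) ∣ Z Q i n := by
  classical
  have hiJ := H.hiJ
  have hq1 := H.hq
  have hcl : Cln Q co i J (i + 1) q (i / 2 + q - i) (n + 1) := by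
    intro D hD hRD hDi hDθ n' hn'
    obtain ⟨h1, h2, h3, h4, h5⟩ := H.sub_facts hD hRD hDθ
    refine stair_trunc2 (fun x : {x : Q // x ∉ D} => co (x : Q)) h2
      (fun x => H.chart.mem x (mem_loN.2 (h1 x))) h3 h4 H.hq hr H.hiJ ?_
      (fun s c hsc hc hJ => h5 s c hsc (by omega) hc hJ) (by omega) ?_
    · rcases H.qcl with h | h
      · exact Or.inl h
      · exact Or.inr fun x => h x (h1 x)
    · intro s c hsc hc _ hE
      unfold Exc at hE
      omega
  refine (H.farT hcl).dvd_of_lt (by omega) fun z hz => ?_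
  have hl := bd_lev' H hz
  rcases Nat.lt_or_ge (hS co i J q z) 2 with h2 | h2
  swap
  · have h3 := cost_label_stair H hz h2
    change n < cst i (hS co i J q) z
    omega
  exfalso
  have h1 : hS co i J q z = 1 := by
    obtain ⟨x, -, -, hx⟩ := hcan_spec (θ := thJ J (i + 1) q co) hz
    change hcan (hiN Q J) (thJ J (i + 1) q co) z < 2 at h2
    change hcan (hiN Q J) (thJ J (i + 1) q co) z = 1
    omega
  obtain ⟨x, hzx, hxl, -, hs, hc, hsc⟩ := free_cover H hz h1
  have hge : (co x).1 ≤ (co x).2 := H.chart.mem x (mem_loN.2 hxl.le)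
  omega

end Pool.Agent.GaussPoset.Nl

end

/-! From `Pool.Agent.W_448nl_h15.NlL` -/

section

/-!
# MP_448cb3_co, case B: early components at the windows `j - 3`, `j - 4`, order one less up to
`2 (j - i) + 2`
-/

namespace Pool.Agent.GaussPoset.Nl

set_option linter.unusedSectionVars false

open Finset Win Cp Wd

universe u

section congr

variable {Q : Type u} [Fintype Q] [PartialOrder Q] [DecidableEq Q]

/-- only the coordinates down to level `J` matter -/
lemma tru_congr {t : Q} {T : ℕ × ℕ → Prop} {co co' : Q → ℕ × ℕ} {i J p q : ℕ}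
    (H : Tru t T co i J p q) (hc : ∀ x, lev x ≤ J → co' x = co x) : Tru t T co' i J p q where
  graded := H.graded
  chart := by
    have CH := H.chart
    have key : ∀ x, x ∈ loN Q J → co' x = co x := fun x hx => hc x (mem_loN.1 hx)
    refine ⟨CH.up, CH.le_t, ?_, ?_, ?_, ?_, ?_⟩
    · intro x hx y hy h
      rw [key x hx, key y hy] at h
      exact CH.inj x hx y hy h
    · intro x hx y hy
      rw [key x hx, key y hy]
      exact CH.le_iff x hx y hy
    · intro x hx
      rw [key x hx]
      exact CH.mem x hx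
    · intro x hx c h1 h2
      rw [key x hx] at h1
      obtain ⟨y, hy, hcy⟩ := CH.low x hx c h1 h2
      exact ⟨y, hy, by rw [key y hy]; exact hcy⟩
    · intro x hx
      rw [key x hx]
      exact CH.lev x hx
  hp := H.hp
  hq := H.hq
  hiJ := H.hiJ
  pcl := H.pcl.imp id (fun h x hx => by rw [hc x hx]; exact h x hx)
  qcl := H.qcl.imp id (fun h x hx => by rw [hc x hx]; exact h x hx)
  base := by
    intro s c h1 h2 h3 h4
    obtain ⟨x, hx, hcx⟩ := H.base s c h1 h2 h3 h4
    exact ⟨x, hx, by rw [hc x hx]; exact hcx⟩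

end congr

variable {P : Type u} [Fintype P] [PartialOrder P] [DecidableEq P] {r i j J n : ℕ} {S : Finset P}
variable {t : Tops P} {lo hi : ℕ → ℕ} {e : ℕ → ℕ → P}

/-- an element which is no pendant has another cover -/
lemma other_cover (E : Ext P i J (t : P) S) (H : Gr P r) (hJr : J + 1 ≤ r) {z x : PQ S}
    (hz : lev z = J + 1) (hzx : z ⋖ x) (hp : (z : P) ∉ pen (x : P)) : ∃ x', z ⋖ x' ∧ x' ≠ x := by
  classical
  have hzxP : (z : P) ⋖ (x : P) := (cov_PQ E.part).1 hzx
  have hlz : lev (z : P) = J + 1 := by rw [← lev_PQ E.part]; exact hz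
  have h7 : (Win.uc (z : P)).card ≠ 1 := fun h8 => hp (mem_pen.2 ⟨hzxP, h8⟩)
  have h8 : (Win.uc (z : P)).card = 2 := by
    rcases uc_card_cases H (x := (z : P)) (by omega) with h9 | h9
    · exact absurd h9 h7
    · exact h9
  obtain ⟨v, hv, hne⟩ := exists_other_uc (y := (x : P)) h8
  refine ⟨⟨v, part_up E.part z.2 hv.le⟩, (cov_PQ E.part).2 hv, ?_⟩
  intro h9
  exact hne (congrArg Subtype.val h9)

/-- the index of an element of the last row -/
lemma idx (E : Ext P i J (t : P) S) (C : Cp.Comp J (t : P) lo hi e) {x : PQ S} (hx : lev x = J) :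
    lo J ≤ (ccoord lo hi e (x : P)).1 ∧ (ccoord lo hi e (x : P)).1 ≤ hi J ∧
      e J (ccoord lo hi e (x : P)).1 = (x : P) := by
  have hlx : lev (x : P) = J := by rw [← lev_PQ E.part]; exact hx
  have hxt : (x : P) ≤ t := (E.mem x (by omega)).1 x.2
  obtain ⟨h1, h2, h3⟩ := scoord_spec C hxt (by omega)
  rw [hlx] at h1 h2 h3
  exact ⟨h1, h2, h3⟩

lemma not_LCO (hlo : ∀ k, k < j → lo (k + 1) = 0 ∨ lo (k + 1) = lo k + 1) :
    ¬ LCO lo hi (j - 1) := by
  rintro ⟨h1, h2, h3, -⟩
  have h4 := hlo (j - 1 - 1) (by omega)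
  rw [show j - 1 - 1 + 1 = j - 1 by omega] at h4
  omega

/-- RECTANGLES: no pendants below the doubles -/
lemma NJ.rect_pen (h : NJ P r j) (C : Cp.Comp j (t : P) lo hi e) (R : RectShape j lo hi)
    (hj : 2 ≤ j) {a : ℕ} (h1 : lo (j - 1) < a) (h2 : a ≤ hi (j - 1)) : pen (e j a) = ∅ := by
  have h3 := NJ.s5c h hj C
  have h4 := not_LCO (hi := hi) R.lo
  have h5 : ¬ RCO lo hi (j - 1) := by
    rintro ⟨g1, g2, g3, -⟩
    have g4 := R.hi (j - 1 - 1) (by omega)
    have g5 := C.hi_le (k := j - 1 - 2) (by omega)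
    rw [show j - 1 - 1 + 1 = j - 1 by omega] at g4
    omega
  rcases h3 with ⟨-, -, h6⟩ | ⟨h6, -⟩ | ⟨h6, -⟩
  · have := h6 a h1 h2
    rw [show j - 1 + 1 = j by omega] at this
    exact card_eq_zero.1 this
  · exact absurd h6 h4
  · exact absurd h6 h5

/-- RECTANGLES -/
theorem NJ.rect_clean (h : NJ P r j) (C : Cp.Comp j (t : P) lo hi e) (R : RectShape j lo hi)
    (h3 : i + 3 ≤ j) (hn : n ≤ 2 * (j - i) + 2) :
    dd ^ (st i (SS i t)).card ∣ ZC i (SS i t) n := by
  have E := SS_ext h.g (show i ≤ j by omega) t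
  have hr := h.hr
  have h1 := C.hi_le (k := i) (by omega)
  have h2 := C.lo_le i (by omega)
  refine dvd_ZC_of h.g.H (by omega) E.part ?_
  have hTr := tru_rect E h.g.H h.g.good C R h3
  have h4 := rect_clean3 (n := n) hTr (by omega) (by
    intro z x hz hzx hs hc hsc
    have hlx : lev x = j := by
      have := hTr.graded.lev_covBy hzx
      omega
    obtain ⟨k1, k2, k3⟩ := idx E C hlx
    refine other_cover E h.g.H hr hz hzx ?_
    rw [← k3]
    generalize (ccoord lo hi e (x : P)).1 = a at *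
    generalize (ccoord lo hi e (x : P)).2 = b at *
    have g1 := R.lo (j - 1) (by omega)
    have g2 := R.hi (j - 1) (by omega)
    have g3 := C.lo_step (j - 1) (by omega)
    rw [show j - 1 + 1 = j by omega] at g1 g2 g3
    have g4 := C.hi_step (j - 1) (by omega)
    rw [show j - 1 + 1 = j by omega] at g4
    rw [NJ.rect_pen h C R (by omega) (a := a) (by omega) (by omega)]
    exact notMem_empty _) hn
  rw [card_st_ext E C (by omega)]
  rwa [show hi i + 1 + (i - lo i + 1) - 1 - i = hi i + 1 - lo i by omega] at h4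

/-- STAIRCASES, even level: no pendants -/
lemma NJ.stair_pen_even (h : NJ P r j) (C : Cp.Comp j (t : P) lo hi e) (R : StairShape j lo hi)
    (hj : 2 ≤ j) (hev : 2 * (j / 2) = j) {a : ℕ} (h1 : lo (j - 1) < a) (h2 : a ≤ hi (j - 1)) :
    pen (e j a) = ∅ := by
  have h3 := NJ.s5c h hj C
  have h4 := not_LCO (hi := hi) R.lo
  have h5 : ¬ RCO lo hi (j - 1) := by
    rintro ⟨g1, g2, g3, -⟩
    have g4 := R.hi (j - 1 - 1) (by omega)
    have g5 := R.hi (j - 1 - 2) (by omega)
    omega
  rcases h3 with ⟨-, -, h6⟩ | ⟨h6, -⟩ | ⟨h6, -⟩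
  · have := h6 a h1 h2
    rw [show j - 1 + 1 = j by omega] at this
    exact card_eq_zero.1 this
  · exact absurd h6 h4
  · exact absurd h6 h5

/-- STAIRCASES, odd level: one pendant, below the element next to the fold -/
lemma NJ.stair_pen_odd (h : NJ P r j) (C : Cp.Comp j (t : P) lo hi e) (R : StairShape j lo hi)
    (hj : 7 ≤ j) (hod : 2 * (j / 2) + 1 = j) (hl : lo (j - 1) < j / 2) :
    (pen (e j (j / 2))).card = 1 ∧ ∀ a, lo (j - 1) < a → a < j / 2 → pen (e j a) = ∅ := by
  have h3 := NJ.s5c h (by omega) C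
  have h4 := not_LCO (hi := hi) R.lo
  have e1 := R.hi (j - 1) (by omega)
  have e2 := R.hi (j - 1 - 1) (by omega)
  have e3 := R.hi (j - 1 - 2) (by omega)
  have e4 := R.hi (j - 2) (by omega)
  have h5 : RCO lo hi (j - 1) := ⟨by omega, by omega, by omega, by omega⟩
  rcases h3 with ⟨-, h6, -⟩ | ⟨h6, -⟩ | ⟨-, -, b, hb, h6⟩
  · exact absurd h5 h6
  · exact absurd h6 h4
  · rw [show j - 1 + 1 = j by omega] at h6
    have hb2 : b = j / 2 := by
      rcases hb with hb | ⟨hb, hb'⟩
      · omega
      · exfalso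
        have g1 := R.lo (j - 2) (by omega)
        have g2 := C.lo_step (j - 2) (by omega)
        rw [show j - 2 + 1 = j - 1 by omega] at g1 g2
        have g3 := NJ.pen_three h (i := j - 2) (by omega) (by omega) C (a := b) (by omega) (by omega)
        rw [show j - 2 + 2 = j by omega] at g3
        have g4 := h6 b (by omega) (by omega)
        rw [if_pos rfl, g3, card_empty] at g4
        omega
    subst hb2
    refine ⟨?_, fun a h7 h8 => ?_⟩
    · have := h6 (j / 2) (by omega) (by omega)
      rwa [if_pos rfl] at this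
    · have := h6 a h7 (by omega)
      rw [if_neg (by omega)] at this
      exact card_eq_zero.1 this

/-- STAIRCASES -/
theorem NJ.stair_less (h : NJ P r j) (C : Cp.Comp j (t : P) lo hi e) (R : StairShape j lo hi)
    (h34 : j = i + 3 ∨ j = i + 4) (hn : n ≤ 2 * (j - i) + 2) :
    dd ^ ((st i (SS i t)).card - 1) ∣ ZC i (SS i t) n := by
  classical
  have E := SS_ext h.g (show i ≤ j by omega) t
  have hr := h.hr
  have h1 := R.hi i (by omega)
  have h2 := C.lo_le i (by omega)
  refine dvd_ZC_of h.g.H (by omega) E.part ?_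
  have hTr := tru_stair E h.g.H h.g.good C R (show i + 3 ≤ j by omega)
  rw [card_st_ext E C (by omega)]
  rw [show hi i + 1 - lo i - 1 = i / 2 + (i - lo i + 1) - i - 1 by omega]
  have hiJ := hTr.hiJ
  have g1 := R.lo (j - 1) (by omega)
  have g3 := C.lo_step (j - 1) (by omega)
  rw [show j - 1 + 1 = j by omega] at g1 g3
  have g5 := R.hi (j - 1) (by omega)
  have g6 := R.hi j le_rfl
  by_cases hev : 2 * (j / 2) = j
  · -- even level
    have hN : NoPd (fun x : PQ (SS i t) => ccoord lo hi e (x : P)) j (i + 1) (i - lo i + 1) := by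
      intro z x hz hzx hs hc hsc
      have hlx : lev x = j := by
        have := hTr.graded.lev_covBy hzx
        omega
      obtain ⟨k1, k2, k3⟩ := idx E C hlx
      refine other_cover E h.g.H hr hz hzx ?_
      rw [← k3]
      generalize (ccoord lo hi e (x : P)).1 = a at *
      generalize (ccoord lo hi e (x : P)).2 = b at *
      rcases Nat.lt_or_ge a (j / 2) with h5 | h5
      · rw [NJ.stair_pen_even h C R (by omega) hev (a := a) (by omega) (by omega)]
        exact notMem_empty _
      · have h6 : a = hi j := by omega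
        have h7 := NJ.fold_aux h C R (by omega) hev
        rw [h6, h7]
        exact notMem_empty _
    rcases h34 with h4 | h4
    · rcases Nat.lt_or_ge n 8 with h5 | h5
      · exact (pow_dvd_pow _ (Nat.sub_le _ _)).trans
          (even_clean3 hTr (by omega) h4 hev hN (by omega))
      · obtain rfl : n = 8 := by omega
        exact even_less8 hTr (by omega) h4 hev hN
    · exact (pow_dvd_pow _ (Nat.sub_le _ _)).trans
        (even_clean4 hTr (by omega) (by omega) hev hN (by omega))
  · -- odd level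
    have hod : 2 * (j / 2) + 1 = j := by omega
    rcases Nat.lt_or_ge (i - lo i + 1) (j / 2 + 2) with hq | hq
    · exact (pow_dvd_pow _ (Nat.sub_le _ _)).trans
        (odd_small hTr (by omega) hod (by omega) hn)
    · have hl : lo (j - 1) < j / 2 := by
        have s1 := C.lo_step i (by omega)
        have s2 := C.lo_step (i + 1) (by omega)
        have s3 := C.lo_step (i + 2) (by omega)
        rw [show i + 1 + 1 = i + 2 by omega] at s2
        rw [show i + 2 + 1 = i + 3 by omega] at s3
        rcases h34 with h4 | h4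
        · rw [show j - 1 = i + 2 by omega]
          omega
        · rw [show j - 1 = i + 3 by omega]
          omega
      obtain ⟨p1, p2⟩ := NJ.stair_pen_odd h C R (by omega) hod hl
      obtain ⟨z, hz⟩ := card_eq_one.1 p1
      have hzp : z ∈ pen (e j (j / 2)) := by rw [hz]; exact mem_singleton_self z
      have hlm := C.lev_e j (j / 2) le_rfl (by omega) (by omega)
      have hlt := C.le_t j (j / 2) le_rfl (by omega) (by omega)
      have hzc := (mem_pen.1 hzp).1
      have hlz : lev z = j + 1 := by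
        have := lev_cov h.g.H hzc
        omega
      have hzS : z ∈ SS i t := (h.mem (by omega) t (by omega)).2 (hzc.le.trans hlt)
      have hmS : e j (j / 2) ∈ SS i t := (h.mem (by omega) t (by omega)).2 hlt
      have hcm : ccoord lo hi e (e j (j / 2)) = (j / 2, j / 2 + 1) := by
        have k := scoord_spec C hlt (by omega)
        rw [hlm] at k
        have k4 := C.inj j _ (j / 2) le_rfl k.1 k.2.1 (by omega) (by omega) k.2.2
        unfold ccoord
        rw [k4, hlm]
        exact Prod.ext rfl (by simp only; omega)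
      set z0 : PQ (SS i t) := ⟨z, hzS⟩ with hz0
      set xm : PQ (SS i t) := ⟨e j (j / 2), hmS⟩ with hxm
      have hlz0 : lev z0 = j + 1 := by rw [lev_PQ E.part]; exact hlz
      have hlxm : lev xm = j := by rw [lev_PQ E.part]; exact hlm
      set co' : PQ (SS i t) → ℕ × ℕ :=
        Function.update (fun x : PQ (SS i t) => ccoord lo hi e (x : P)) z0
          (j / 2 + 1, j / 2 + 1) with hco
      have hagree : ∀ x : PQ (SS i t), lev x ≤ j → co' x = ccoord lo hi e (x : P) := by
        intro x hx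
        rw [hco, Function.update_of_ne]
        rintro rfl
        omega
      have O : Odd0 (topQ E) co' i j (i - lo i + 1) z0 xm := by
        refine ⟨tru_congr hTr hagree, hod, hq, hlxm, ?_, (cov_PQ E.part).2 hzc, ?_, ?_, ?_⟩
        · rw [hagree xm hlxm.le]
          exact hcm
        · intro x hx
          have h5 := (cov_PQ E.part).1 hx
          have h6 : (x : P) ∈ uc z := mem_uc.2 h5
          rw [pen_uc hzp, mem_singleton] at h6
          exact Subtype.ext h6
        · intro z' x hz' hzx hc hsc hne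
          have hlx : lev x = j := by
            have := hTr.graded.lev_covBy hzx
            omega
          rw [hagree x hlx.le] at hc hsc
          obtain ⟨k1, k2, k3⟩ := idx E C hlx
          refine other_cover E h.g.H hr hz' hzx ?_
          rw [← k3]
          generalize (ccoord lo hi e (x : P)).1 = a at *
          generalize (ccoord lo hi e (x : P)).2 = b at *
          rcases Nat.lt_or_ge a (j / 2) with h5 | h5
          · rw [p2 a (by omega) h5]
            exact notMem_empty _
          · have h6 : a = j / 2 := by omega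
            rw [h6, hz, mem_singleton]
            intro h7
            exact hne (Subtype.ext h7)
        · rw [hco, Function.update_self]
      exact O.less (two_PQ h.g.H E.part) (by omega) h34 hn

/-- CASE B, EARLY COMPONENTS at the windows `j - 3`, `j - 4`: order one less up to `2 (j - i) + 2` -/
theorem NJ.less34 (h : NJ P r j) (C : Cp.Comp j (t : P) lo hi e) (R : Early j lo hi)
    (h34 : j = i + 3 ∨ j = i + 4) (hn : n ≤ 2 * (j - i) + 2) :
    dd ^ ((st i (SS i t)).card - 1) ∣ ZC i (SS i t) n := by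
  rcases R with R | R | R
  · exact (pow_dvd_pow _ (Nat.sub_le _ _)).trans (NJ.rect_clean h C R (by omega) hn)
  · exact NJ.stair_less h C R h34 hn
  · exact NJ.stair_less h (comp_swap C) R h34 hn

end Pool.Agent.GaussPoset.Nl

end

/-! From `Pool.Agent.W_448nl_h15.NlM` -/

section

/-!
# MP_448cb3_co, case B: the identities `(4,1)(j - 3)` and `(5,1)(j - 4)`, up to the values of the late
components with three sites
-/

namespace Pool.Agent.GaussPoset.Nl

set_option linter.unusedSectionVars false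

open Finset Win Cp Wd Win.I2

universe u

variable {P : Type u} [Fintype P] [PartialOrder P] [DecidableEq P] {r i j a n : ℕ}
variable {t : Tops P} {lo hi : ℕ → ℕ} {e : ℕ → ℕ → P}

section late

def B45 (a n : ℕ) : Prop := ∀ w ∈ lateW a, ∀ m, m < 12 → m + n = w.length + 1 →
  Hw w (m + 3) ≤ Lw w (m + 3) + 1 ∨ (m = 4 ∧ Hw w (m + 3) = Lw w (m + 3) + 2 ∧ (n = 5 → a = 4))

instance (a n : ℕ) : Decidable (B45 a n) := by unfold B45; infer_instance

lemma B45_4 : B45 3 4 ∧ B45 4 4 ∧ B45 5 4 ∧ B45 6 4 ∧ B45 8 4 := by decide +kernel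
lemma B45_5 : B45 3 5 ∧ B45 4 5 ∧ B45 5 5 ∧ B45 6 5 ∧ B45 8 5 := by decide +kernel

/-- late components at the windows `j - 3`, `j - 4`: at most two sites, or three sites at `a + 4` -/
lemma late_b45 (C : Cp.Comp j (t : P) lo hi e) (D : LateD j a lo hi) (hn : n = 4 ∨ n = 5)
    (hin : i + n = j + 1) : hi i ≤ lo i + 1 ∨
      (i = a + 4 ∧ hi i = lo i + 2 ∧ (n = 5 → a = 4)) := by
  rcases Nat.lt_or_ge i a with h1 | h1
  · left
    have := D.h2 i h1
    omega
  obtain ⟨m, rfl⟩ : ∃ m, i = a + m := ⟨i - a, by omega⟩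
  have h3 := D.h0
  obtain ⟨e1, e2⟩ := Lw_of_trunk C D.h0 D.h1 D.h2 D.h3 (m + 3) (by omega)
  rw [show a - 3 + (m + 3) = a + m by omega] at e1 e2
  rcases D.h4 with ⟨h4, h5⟩ | h4
  · left
    rcases Nat.eq_zero_or_pos m with rfl | h6
    · have := D.h3
      rw [Nat.add_zero]
      omega
    · have := D.quad C h5 m h6 (by omega)
      omega
  · have key : B45 a n → hi (a + m) ≤ lo (a + m) + 1 ∨
      (a + m = a + 4 ∧ hi (a + m) = lo (a + m) + 2 ∧ (n = 5 → a = 4)) := by
      intro hB
      have hl : (word lo hi a (j - a)).length = j - a := by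
        unfold word
        rw [List.length_map, List.length_range]
      have hlen := late_len_all h4
      rw [hl] at hlen
      rcases hB _ h4 m (by omega) (by rw [hl]; omega) with h6 | ⟨rfl, h7, h8⟩
      · left
        omega
      · right
        exact ⟨rfl, by omega, h8⟩
    rcases Nat.lt_or_ge a 7 with h6 | h6
    · obtain rfl | rfl | rfl | rfl : a = 3 ∨ a = 4 ∨ a = 5 ∨ a = 6 := by omega
      · rcases hn with rfl | rfl
        · exact key B45_4.1
        · exact key B45_5.1
      · rcases hn with rfl | rfl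
        · exact key B45_4.2.1
        · exact key B45_5.2.1
      · rcases hn with rfl | rfl
        · exact key B45_4.2.2.1
        · exact key B45_5.2.2.1
      · rcases hn with rfl | rfl
        · exact key B45_4.2.2.2.1
        · exact key B45_5.2.2.2.1
    · have hB8 : B45 8 n := by
        rcases hn with rfl | rfl
        · exact B45_4.2.2.2.2
        · exact B45_5.2.2.2.2
      have hB : B45 a n := by
        intro w hw m hm hm2
        rw [lateW_large h6] at hw
        rcases hB8 w hw m hm hm2 with h7 | ⟨h7, h8, h9⟩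
        · exact Or.inl h7
        · exact Or.inr ⟨h7, h8, fun h => absurd (h9 h) (by omega)⟩
      exact key hB

end late

/-- the values of the late components with three sites: `m = 7, 8` for `n = 4`, `7 ≤ m ≤ 10` for
`n = 5` -/
def L3V (P : Type u) [Fintype P] [PartialOrder P] [DecidableEq P] (j n : ℕ) : Prop :=
  ∀ {a : ℕ} {t : Tops P} {lo hi : ℕ → ℕ} {e : ℕ → ℕ → P}, Cp.Comp j (t : P) lo hi e →
    LateD j a lo hi → a + 3 + n = j → hi (a + 4) = lo (a + 4) + 2 → (n = 5 → a = 4) →
    ∀ m, 7 ≤ m → m ≤ 2 * n → be m 3 (ZS (a + 4) (SS (a + 4) t)) = 0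

/-- CASE B, THE IDENTITIES `E = 4, 5` of the last level -/
theorem NJ.cln45 (I : SO P r) (V : EV P r) (h : NJ P r j) (hn : n = 4 ∨ n = 5) (hi1 : 1 ≤ i)
    (hin : i + n = j + 1) (hV : L3V P j n) : Wd.Cln P i n := by
  have hr := h.hr
  have hlo : ∀ t : Tops P, ∀ m, m < n → dd ^ (st i (SS i t)).card ∣ ZC i (SS i t) m := by
    intro t m hm
    rcases Nat.eq_zero_or_pos m with rfl | h0
    · rw [ZC_zero h.g.H (by omega)]
    · exact cln_all I V h.g hi1 h0 (by omega) (by omega) t
  have hP : ∀ t : Tops P, Part i (SS i t) := fun t => SS_part h.g (by omega) (by omega) t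
  have small : ∀ t : Tops P, (st i (SS i t)).card ≤ 2 →
      Prof n (2 * n) (st i (SS i t)).card (ZS i (SS i t)) ∧
        be (2 * n) (st i (SS i t)).card (ZS i (SS i t)) = 0 :=
    fun t hb => ⟨prof_small h.g.H (hP t) hb (hlo t) _, be_zero_small h.g.H (hP t) hb _⟩
  have early : ∀ (t : Tops P) lo hi e, Cp.Comp j (t : P) lo hi e → Early j lo hi →
      Prof n (2 * n) (st i (SS i t)).card (ZS i (SS i t)) ∧
        be (2 * n) (st i (SS i t)).card (ZS i (SS i t)) = 0 := by
    intro t lo hi e C R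
    have hless := fun m (hm : m ≤ 2 * n) => NJ.less34 (n := m) h C R
      (show j = i + 3 ∨ j = i + 4 by omega) (by omega)
    refine ⟨⟨?_, ?_, ?_⟩, ?_⟩
    · intro k hk
      rw [coeff_ZS]
      exact hlo t k hk
    · intro k hk
      rw [coeff_ZS]
      refine (pow_dvd_pow dd (show (st i (SS i t)).card ≤ 1 + ((st i (SS i t)).card - 1)
        by omega)).trans ?_
      rw [pow_add, pow_one]
      exact mul_dvd_mul_left _ (hless k hk.le)
    · rw [coeff_ZS]
      refine (pow_dvd_pow dd (show (st i (SS i t)).card ≤ 2 + ((st i (SS i t)).card - 1)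
        by omega)).trans ?_
      rw [pow_add]
      exact mul_dvd_mul_left _ (hless _ le_rfl)
    · refine be_of_mid ?_
      rw [coeff_ZS]
      refine (pow_dvd_pow dd (show (st i (SS i t)).card ≤ 1 + ((st i (SS i t)).card - 1)
        by omega)).trans ?_
      rw [pow_add, pow_one]
      exact mul_dvd_mul_left _ (hless _ le_rfl)
  have main : ∀ t : Tops P, Prof n (2 * n) (st i (SS i t)).card (ZS i (SS i t)) ∧
        be (2 * n) (st i (SS i t)).card (ZS i (SS i t)) = 0 := by
    intro t
    obtain ⟨lo, hi, e, C, hS⟩ := shape_all I V h.g t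
    have hcard := h.card_SS (show i ≤ j by omega) C
    rcases hS with hl | ⟨-, hR⟩ | ⟨-, hR⟩ | ⟨h0, -, -⟩ | ⟨h0, hF⟩ | ⟨a, h0, h1, h2, h3, hN, h4⟩
    · have := hl i (by omega)
      exact small t (by omega)
    · exact early t lo hi e C (Or.inl hR)
    · exact early t lo hi e C (Or.inr (Or.inl hR))
    · omega
    · obtain ⟨⟨f0, f1, f2, f3, f4, f5, f6⟩, ⟨g0, g1, g2, g3, g4, g5, g6⟩⟩ := hF
      obtain rfl | rfl : i = 2 ∨ i = 3 := by omega
      · exact small t (by omega)
      · exact small t (by omega)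
    · rcases late_b45 C ⟨h0, h1, h2, h3, h4⟩ hn hin with h5 | ⟨rfl, h5, h6⟩
      · exact small t (by omega)
      · have hcl : (st (a + 4) (SS (a + 4) t)).card = 3 := by
          rw [hcard]
          omega
        have hbe : ∀ m, n ≤ m → m ≤ 2 * n → be m 3 (ZS (a + 4) (SS (a + 4) t)) = 0 := by
          intro m h7 h8
          rcases Nat.lt_or_ge m 5 with hm5 | hm5
          · have k1 := prof35 h.g.H (by omega) (show a + 4 + 2 ≤ j by omega)
              (fun m _ hm => h.g.good m (by omega)) (split_gt h.g) (mem_tops t)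
            rw [bb_eq h.g (by omega), VV_eq h.g (by omega)] at k1
            rw [← hcl]
            exact be_of_mid (k1.mid m (by omega))
          rcases Nat.lt_or_ge m 7 with hm7 | hm7
          · obtain rfl | rfl : m = 5 ∨ m = 6 := by omega
            · have := h.be5_all hi1 (by omega) t
              rwa [hcl] at this
            · have k1 := (h.vals hi1 (by omega) C).2
              obtain ⟨-, k2, k3⟩ := h.law hi1 (by omega) C
              rw [hcl, k2, k3, card_empty] at k1
              rw [k1]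
              norm_num
          · exact hV C ⟨h0, h1, h2, h3, h4⟩ (by omega) h5 h6 m hm7 h8
        refine ⟨prof_three h.g.H (hP t) hcl (hlo t) ?_, ?_⟩
        · intro m hm hm2
          rw [hcl]
          exact hbe m (by omega) (by omega)
        · rw [hcl]
          exact hbe _ (by omega) (by omega)
  exact NJ.stage h (by omega) hin (fun t => (main t).1) (fun t => (main t).2.le)

end Pool.Agent.GaussPoset.Nl

end
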