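import Mathlib
import Pool.Agent.W_448zz_h61.Ns
import Pool.Agent.W_448zz_h61.M043
import Pool.Agent.W_448zz_h61.M215
import Pool.Agent.W_448zz_h61.M233
import Pool.Agent.W_448zz_h61.M235

/-! From `Pool.Agent.W_448nl_h15.NlG` -/

section

/-!
# MP_448cb3_co, case B: `(7,1)(j - 6)` on the last level
-/

set_option autoImplicit false

namespace Pool.Agent.GaussPoset.Nl

set_option linter.unusedSectionVars false

open Finset Win Cp Wd Win.I2 Win.Ev

universe u

variable {P : Type u} [Fintype P] [PartialOrder P] [DecidableEq P] {r i j a n : ℕ}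
variable {t : Tops P} {lo hi : ℕ → ℕ} {e : ℕ → ℕ → P}

/-- `E7` down to level 14, case B: the fifteenth level is natural -/
lemma NJ.e7_15 (h : NJ P r 14) (C : Cp.Comp 14 (t : P) lo hi e) (hE : E7c 14 lo hi) :
    ∃ e', Cp.Comp 15 (t : P) (Function.update lo 15 5) (Function.update hi 15 5) e' ∧
      Rows (Function.update lo 15 5) (Function.update hi 15 5) 0 0 16
        [0, 0, 0, 0, 0, 0, 1, 2, 2, 3, 3, 3, 4, 5, 5, 5]
        [0, 0, 0, 0, 1, 1, 2, 3, 4, 4, 4, 4, 5, 5, 5, 5] := by
  obtain ⟨g0, ⟨g1, g2⟩, -⟩ := id hE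
  have hw := hE.take (d := 10) (by omega) (by omega) (by omega)
  have key : Rows lo hi 0 0 15 [0, 0, 0, 0, 0, 0, 1, 2, 2, 3, 3, 3, 4, 5, 5]
      [0, 0, 0, 0, 1, 1, 2, 3, 4, 4, 4, 4, 5, 5, 5] :=
    rows_trunk (w := E7.take 10) (j := 14) (fun k hk => C.lo_step k hk) (fun k hk => C.hi_step k hk)
      (by show 4 + 10 ≤ 14; omega) hw g0 g1 g2 (by decide)
  have l9 := key.lo_eq 9 (by omega)
  have l10 := key.lo_eq 10 (by omega)
  have l11 := key.lo_eq 11 (by omega)
  have l12 := key.lo_eq 12 (by omega)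
  have l13 := key.lo_eq 13 (by omega)
  have l14 := key.lo_eq 14 (by omega)
  have h9 := key.hi_eq 9 (by omega)
  have h10 := key.hi_eq 10 (by omega)
  have h11 := key.hi_eq 11 (by omega)
  have h12 := key.hi_eq 12 (by omega)
  have h13 := key.hi_eq 13 (by omega)
  have h14 := key.hi_eq 14 (by omega)
  simp only [Nat.zero_add, List.getD_cons_succ, List.getD_cons_zero] at l9 l10 l11 l12 l13 l14 h9 h10 h11 h12 h13 h14
  have hpd : Wd.pdL lo hi 12 := by
    unfold Wd.pdL
    simp only [Nat.reduceAdd]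
    omega
  have hfu : Wd.fuw lo hi 12 = 1 := by
    unfold Wd.fuw
    rw [if_neg, if_pos]
    · unfold Wd.puR
      simp only [Nat.reduceSub]
      omega
    · simp only [Nat.reduceSub]
      rintro ⟨-, hh, -⟩
      omega
  have hl := (h.law (i := 12) (by omega) le_rfl C).1
  have h3 := NJ.FL_eq h (i := 12) le_rfl C
  have hp : (pen (e 14 (lo 14))).card = 1 := by
    rw [hfu] at hl
    rw [← hl]
    congr 1
    refine Subset.antisymm (h3.1 hpd) ?_
    intro z hz
    rcases h3.2.2 z hz with h4 | ⟨h4, -⟩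
    · exact h4.2
    · exfalso
      unfold Wd.pdR at h4
      simp only [Nat.reduceAdd] at h4
      omega
  obtain ⟨e', C'⟩ := NJ.ext1 h C (by omega) hp
  rw [l14] at C'
  refine ⟨e', C', ⟨?_, ?_⟩⟩
  · intro k hk
    rcases Nat.lt_or_ge k 15 with h5 | h5
    · have := key.lo_eq k h5
      rw [Function.update_of_ne (by omega), this]
      interval_cases k <;> rfl
    · obtain rfl : k = 15 := by omega
      rfl
  · intro k hk
    rcases Nat.lt_or_ge k 15 with h5 | h5
    · have := key.hi_eq k h5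
      rw [Function.update_of_ne (by omega), this]
      interval_cases k <;> rfl
    · obtain rfl : k = 15 := by omega
      rfl

/-- the values of `E7` at `(j, n) = (14, 7)` -/
theorem NJ.e7v (h : NJ P r 14) : E7V P 14 7 := by
  intro t lo hi e C hE m h5 hm
  rcases Nat.lt_or_ge m 13 with h6 | h6
  · exact EV_holds.be_E7 h.g C (by omega) (by omega) hE m h5 (by omega) (by omega)
  obtain ⟨e', C', hR⟩ := NJ.e7_15 h C hE
  have hr := h.hr
  have L : LocN P r 15 (t : P) (Function.update lo 15 5) (Function.update hi 15 5)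
      (fun k s => e' k s) (SS 8 t) 8 0 0 16 8 [0, 0, 0, 0, 0, 0, 1, 2, 2, 3, 3, 3, 4, 5, 5, 5]
      [0, 0, 0, 0, 1, 1, 2, 3, 4, 4, 4, 4, 5, 5, 5, 5] :=
    ⟨h.g.H, by omega, fun z y hz hzt hzy => NJ.up_le h t.2 (by omega) hzt hzy.le, C'.toWin,
      SS_part h.g (by omega) (by omega) t, fun z hz => h.mem (by omega) t (by omega), hR, rfl,
      by omega, by omega⟩
  have X13 := Ev.okXs_mono (N' := 13) E7_7_X (by omega)
  have e1 := L.be_all (b := 3) (n := 13) E7_7_ok.1 E7_7_ok.2 (by omega) (by omega) (by omega)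
    (by omega) (by omega) (Or.inl rfl) X13
  have e2 := L.be_all (b := 3) (n := 14) E7_7_ok.1 E7_7_ok.2 (by omega) (by omega) (by omega)
    (by omega) (by omega) (Or.inl rfl) E7_7_X
  obtain rfl | rfl : m = 13 ∨ m = 14 := by omega
  · exact e1.trans E7_7_13
  · exact e2.trans E7_7_14

/-- CASE B: `(7,1)(j - 6)` -/
theorem NJ.cln_seven (h : NJ P r j) (h7 : 7 ≤ j) : Wd.Cln P (j - 6) 7 := by
  refine NJ.cln_ge7 (SO_holds P r) EV_holds h le_rfl (by omega) (by omega) ?_
  intro h8 h14
  obtain rfl : j = 14 := by omega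
  exact NJ.e7v h

end Pool.Agent.GaussPoset.Nl

end

/-! From `Pool.Agent.W_448nl_h15.NlO` -/

section

/-!
# MP_448cb3_co, case B: the end of the long chain of a late component has exactly one pendant
-/

set_option autoImplicit false

namespace Pool.Agent.GaussPoset.Nl

set_option linter.unusedSectionVars false

open Finset Win Cp Wd Win.I2 Win.Ev

universe u

variable {P : Type u} [Fintype P] [PartialOrder P] [DecidableEq P] {r i j a n E k : ℕ}
variable {lo hi : ℕ → ℕ}

/-- the rows of the list are the rows of the word, the right end moves on the levels `≥ a + 1` -/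
def TailL (w : List Ltr) (los his : List ℕ) (E : ℕ) : Prop :=
  w.length + 1 = E ∧ (∀ k, k < E → los.getD k 0 = 0 ∧ his.getD k 0 = 0) ∧
    los.getD E 0 = 0 ∧ his.getD E 0 = 1 ∧ los.getD (E + 1) 0 = 0 ∧ his.getD (E + 1) 0 = 1 ∧
    ∀ m, m < w.length → ((w.getD m OO).1 = true → los.getD (E + m + 1) 0 = los.getD (E + m) 0 + 1) ∧
      ((w.getD m OO).1 = false → los.getD (E + m + 1) 0 = los.getD (E + m) 0) ∧
      ((w.getD m OO).2 = true → his.getD (E + m + 1) 0 = his.getD (E + m) 0 + 1) ∧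
      ((w.getD m OO).2 = false → his.getD (E + m + 1) 0 = his.getD (E + m) 0) ∧
      (1 ≤ m → (w.getD m OO).2 = true ∧ los.getD (E + m) 0 < his.getD (E + m) 0)

instance (w : List Ltr) (los his : List ℕ) (E : ℕ) : Decidable (TailL w los his E) := by
  unfold TailL; infer_instance

/-- everything the evaluator has to check -/
def TailV (w : List Ltr) (los his : List ℕ) (E : ℕ) : Prop :=
  TailL w los his E ∧ okP los his (2 * E) E (mk los his (2 * E) E) = true ∧
    lb0 (mk los his (2 * E) E) = true ∧ ev 1 (mk los his (2 * E) E) 0 E 0 0 0 = -1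

set_option maxRecDepth 100000 in
lemma tailV4 : TailV [OC, OO, OO] [0, 0, 0, 0, 0, 0, 0, 0] [0, 0, 0, 0, 1, 1, 2, 3] 4 := by
  refine ⟨by decide, ?_, ?_, ?_⟩ <;> decide +kernel

set_option maxRecDepth 100000 in
lemma tailV5 : TailV [OC, OO, CO, OO] [0, 0, 0, 0, 0, 0, 0, 0, 1, 1] [0, 0, 0, 0, 0, 1, 1, 2, 3, 4]
    5 := by
  refine ⟨by decide, ?_, ?_, ?_⟩ <;> decide +kernel

set_option maxRecDepth 100000 in
lemma tailV7 : TailV [OC, CO, CO, OO, CO, OO] [0, 0, 0, 0, 0, 0, 0, 0, 0, 1, 2, 2, 3, 3]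
    [0, 0, 0, 0, 0, 0, 0, 1, 1, 2, 3, 4, 5, 6] 7 := by
  refine ⟨by decide, ?_, ?_, ?_⟩ <;> decide +kernel

set_option maxRecDepth 100000 in
lemma tailV8 : TailV [OC, CO, CO, OO, CO, OO, OO]
    [0, 0, 0, 0, 0, 0, 0, 0, 0, 0, 1, 2, 2, 3, 3, 3]
    [0, 0, 0, 0, 0, 0, 0, 0, 1, 1, 2, 3, 4, 5, 6, 7] 8 := by
  refine ⟨by decide, ?_, ?_, ?_⟩ <;> decide +kernel

section comp

variable {t : Tops P} {e : ℕ → ℕ → P}

/-- the rows of a word -/
lemma tail_rows (C : Cp.Comp j (t : P) lo hi e) {w : List Ltr} {los his : List ℕ}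
    (hw : word lo hi a (j - a) = w) (haj : a ≤ j) (h0 : lo a = 0 ∧ hi a = 1)
    (T : TailL w los his E) :
    a + E = j + 1 ∧ ∀ m, m < E → lo (a + m) = los.getD (E + m) 0 ∧ hi (a + m) = his.getD (E + m) 0 := by
  obtain ⟨t1, t2, t3, t4, t5, t6, t7⟩ := T
  obtain ⟨w1, w2⟩ := Wd.word_spec hw
  have hE : a + E = j + 1 := by omega
  refine ⟨hE, ?_⟩
  intro m
  induction m with
  | zero =>
    intro _
    rw [Nat.add_zero, Nat.add_zero, t3, t4]
    exact h0
  | succ m ih =>
    intro hm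
    obtain ⟨i1, i2⟩ := ih (by omega)
    obtain ⟨q1, q2⟩ := w2 m (by omega)
    have hmw : m < w.length := by omega
    obtain ⟨g1, g2, g3, g4, -⟩ := t7 m hmw
    have hget : w.getD m OO = w[m] := by
      rw [List.getD_eq_getElem?_getD, List.getElem?_eq_getElem hmw, Option.getD_some]
    rw [hget] at g1 g2 g3 g4
    rw [List.getElem?_eq_getElem hmw] at q1 q2
    simp only [Option.map_some, Option.some.injEq] at q1 q2
    have s1 := C.lo_step (a + m) (by omega)
    have s2 := C.hi_step (a + m) (by omega)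
    rw [← Nat.add_assoc, ← Nat.add_assoc]
    constructor
    · by_cases hb : w[m].1 = true
      · rw [g1 hb, ← i1]
        rw [hb] at q1
        have := of_decide_eq_true q1.symm
        omega
      · rw [Bool.not_eq_true] at hb
        rw [g2 hb, ← i1]
        rw [hb] at q1
        have := of_decide_eq_false q1.symm
        omega
    · by_cases hb : w[m].2 = true
      · rw [g3 hb, ← i2]
        rw [hb] at q2
        have := of_decide_eq_true q2.symm
        omega
      · rw [Bool.not_eq_true] at hb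
        rw [g4 hb, ← i2]
        rw [hb] at q2
        have := of_decide_eq_false q2.symm
        omega

/-- THE END OF THE LONG CHAIN, from the cleanness `(E,1)(a)` -/
theorem NJ.pen_tail (h : NJ P r j) (C : Cp.Comp j (t : P) lo hi e) (haj : a + 1 ≤ j)
    (hz0 : ∀ k, k < a → lo k = 0 ∧ hi k = 0) (h0 : lo a = 0 ∧ hi a = 1) {w : List Ltr}
    {los his : List ℕ} (hw : word lo hi a (j - a) = w) (V : TailV w los his E) (hEa : E ≤ a)
    (h32 : E < 32) (hcl : Wd.Cln P a E) : (pen (e j (hi j))).card = 1 := by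
  obtain ⟨T, hok, hlb, hev⟩ := V
  obtain ⟨hE, hv⟩ := tail_rows C hw (by omega) h0 T
  obtain ⟨t1, t2, t3, t4, t5, t6, t7⟩ := T
  have h1 := hv 1 (by omega)
  rw [t5, t6] at h1
  refine NJ.pen_late h C haj hE hEa h32 hz0 h0 h1 ?_ ?_ t2 hv hok hlb hev hcl
  · intro k hk hkj
    obtain ⟨m, rfl⟩ : ∃ m, k = a + m := ⟨k - a, by omega⟩
    obtain ⟨-, -, g3, -, g5⟩ := t7 m (by omega)
    have e1 := hv m (by omega)
    have e2 := hv (m + 1) (by omega)
    rw [← Nat.add_assoc, ← Nat.add_assoc] at e2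
    rw [e2.2, e1.2]
    exact g3 (g5 (by omega)).1
  · intro k hk hkj
    obtain ⟨m, rfl⟩ : ∃ m, k = a + m := ⟨k - a, by omega⟩
    obtain ⟨-, -, g3, -, g5⟩ := t7 m (by omega)
    have e1 := hv m (by omega)
    rw [e1.1, e1.2]
    exact (g5 (by omega)).2

/-- the words of the late components with at least four sites, from `lateW` -/
lemma tail_len {w : List Ltr} (h3 : 3 ≤ a) (hw : w ∈ lateW a)
    (h4 : w = [OC, OO, OO] ∨ w = [OC, OO, CO, OO] ∨ w = [OC, CO, CO, OO, CO, OO] ∨
      w = [OC, CO, CO, OO, CO, OO, OO]) : w.length ≤ a := by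
  rcases h4 with rfl | rfl | rfl | rfl
  · exact h3
  · rcases Nat.lt_or_ge 3 a with h | h
    · exact h
    · obtain rfl : a = 3 := by omega
      exact absurd hw (by decide)
  · rcases Nat.lt_or_ge 5 a with h | h
    · exact h
    · obtain rfl | rfl | rfl : a = 3 ∨ a = 4 ∨ a = 5 := by omega
      · exact absurd hw (by decide)
      · exact absurd hw (by decide)
      · exact absurd hw (by decide)
  · rcases Nat.lt_or_ge 6 a with h | h
    · exact h
    · obtain rfl | rfl | rfl | rfl : a = 3 ∨ a = 4 ∨ a = 5 ∨ a = 6 := by omega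
      · exact absurd hw (by decide)
      · exact absurd hw (by decide)
      · exact absurd hw (by decide)
      · exact absurd hw (by decide)

/-- a component with one element on the levels `< a`, `3 ≤ a`, and two elements on level `a` is
late -/
lemma shape_late (S : Shape j lo hi) (h3 : 3 ≤ a) (haj : a ≤ j)
    (hz0 : ∀ k, k < a → lo k = 0 ∧ hi k = 0) (h0 : lo a = 0 ∧ hi a = 1) : LateD j a lo hi := by
  rcases S with hl | ⟨h1, -⟩ | ⟨-, hR⟩ | ⟨-, -, h2⟩ | ⟨-, hF⟩ | ⟨a', g0, g1, g2, g3, gN, g4⟩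
  · have := hl a haj
    omega
  · have := hz0 1 (by omega)
    omega
  · have := hz0 2 (by omega)
    have := hR.hi 2 (by omega)
    omega
  · have := hz0 2 (by omega)
    omega
  · obtain ⟨-, -, -, f2, -⟩ := hF
    have := hz0 2 (by omega)
    omega
  · obtain rfl : a' = a := by
      rcases Nat.lt_trichotomy a' a with h | h | h
      · have := hz0 a' h
        omega
      · exact h
      · have := g2 a h
        omega
    exact ⟨g0, g1, g2, g3, g4⟩

/-- THE INPUT `HTail`, from the values of the late components with three sites -/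
theorem NJ.htail (h : NJ P r j) (C : Cp.Comp j (t : P) lo hi e) (S : Shape j lo hi)
    (h3 : 3 ≤ a) (haj : a ≤ j) (hz0 : ∀ k, k < a → lo k = 0 ∧ hi k = 0) (h0 : lo a = 0 ∧ hi a = 1)
    (hw : word lo hi a (j - a) = [OC, OO, OO] ∨ word lo hi a (j - a) = [OC, OO, CO, OO] ∨
      word lo hi a (j - a) = [OC, CO, CO, OO, CO, OO] ∨
      word lo hi a (j - a) = [OC, CO, CO, OO, CO, OO, OO])
    (V4 : L3V P j 4) (V5 : j = 12 → L3V P j 5) (V8 : j = 15 → E7V P j 8) :
    j ≤ 2 * a ∧ (j + 1 ≤ 2 * a → (pen (e j (hi j))).card = 1) := by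
  have hr := h.hr
  have D := shape_late S h3 haj hz0 h0
  have hl : (word lo hi a (j - a)).length = j - a := by
    unfold word
    rw [List.length_map, List.length_range]
  have hmem : word lo hi a (j - a) ∈ lateW a := by
    rcases D.h4 with ⟨-, h4⟩ | h4
    · exfalso
      rw [h4] at hw
      unfold Qw at hw
      rcases hw with hw | hw | hw | hw <;> (rw [List.cons.injEq] at hw; exact absurd hw.1 (by decide))
    · exact h4
  have hlen := tail_len h3 hmem hw
  rw [hl] at hlen
  refine ⟨by omega, fun hj2 => ?_⟩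
  rcases hw with hw | hw | hw | hw
  · rw [hw] at hl
    simp only [List.length_cons, List.length_nil] at hl
    refine NJ.pen_tail h C (by omega) hz0 h0 hw tailV4 (by omega) (by omega) ?_
    exact NJ.cln45 (SO_holds P r) EV_holds h (Or.inl rfl) (by omega) (by omega) V4
  · rw [hw] at hl
    simp only [List.length_cons, List.length_nil] at hl
    refine NJ.pen_tail h C (by omega) hz0 h0 hw tailV5 (by omega) (by omega) ?_
    refine NJ.cln45 (SO_holds P r) EV_holds h (Or.inr rfl) (by omega) (by omega) ?_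
    intro a' t' lo' hi' e' C' D' h1 h2 h4 m h5 h6
    have h7 := h4 rfl
    exact V5 (by omega) C' D' h1 h2 h4 m h5 h6
  · rw [hw] at hl
    simp only [List.length_cons, List.length_nil] at hl
    refine NJ.pen_tail h C (by omega) hz0 h0 hw tailV7 (by omega) (by omega) ?_
    have := NJ.cln_seven h (by omega)
    rwa [show j - 6 = a by omega] at this
  · rw [hw] at hl
    simp only [List.length_cons, List.length_nil] at hl
    refine NJ.pen_tail h C (by omega) hz0 h0 hw tailV8 (by omega) (by omega) ?_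
    exact NJ.cln_ge7 (SO_holds P r) EV_holds h (by omega) (by omega) (by omega)
      (fun h5 _ => V8 (by omega))

end comp

end Pool.Agent.GaussPoset.Nl

end

/-! From `Pool.Agent.W_448nl_h15.NlU` -/

section

/-!
# MP_448cb3_co, case B: the values of `E7` at `(j, n) = (12, 5)`
-/

set_option autoImplicit false

namespace Pool.Agent.GaussPoset.Win.Ev

set_option maxRecDepth 100000

theorem E7w12_ok : okP [0, 0, 0, 0, 0, 0, 1, 2, 2, 3, 3, 3, 4] [0, 0, 0, 0, 1, 1, 2, 3, 4, 4, 4, 4, 5] 13 8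
    (mk [0, 0, 0, 0, 0, 0, 1, 2, 2, 3, 3, 3, 4] [0, 0, 0, 0, 1, 1, 2, 3, 4, 4, 4, 4, 5] 13 8) = true := by
  decide +kernel

theorem E7w12_lb : lb0 (mk [0, 0, 0, 0, 0, 0, 1, 2, 2, 3, 3, 3, 4]
    [0, 0, 0, 0, 1, 1, 2, 3, 4, 4, 4, 4, 5] 13 8) = true := by
  decide +kernel

theorem E7w12_7 : ev 1 (mk [0, 0, 0, 0, 0, 0, 1, 2, 2, 3, 3, 3, 4]
    [0, 0, 0, 0, 1, 1, 2, 3, 4, 4, 4, 4, 5] 13 8) 0 7 0 0 0 = 0 := by
  decide +kernel

theorem E7w12_8 : ev 1 (mk [0, 0, 0, 0, 0, 0, 1, 2, 2, 3, 3, 3, 4]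
    [0, 0, 0, 0, 1, 1, 2, 3, 4, 4, 4, 4, 5] 13 8) 0 8 0 0 0 = 0 := by
  decide +kernel

theorem E7w12_9 : ev 1 (mk [0, 0, 0, 0, 0, 0, 1, 2, 2, 3, 3, 3, 4]
    [0, 0, 0, 0, 1, 1, 2, 3, 4, 4, 4, 4, 5] 13 8) 0 9 0 0 0 = 0 := by
  decide +kernel

theorem E7w12_10 : ev 1 (mk [0, 0, 0, 0, 0, 0, 1, 2, 2, 3, 3, 3, 4]
    [0, 0, 0, 0, 1, 1, 2, 3, 4, 4, 4, 4, 5] 13 8) 0 10 0 0 0 = 0 := by
  decide +kernel

theorem E7w12_X : okXs [0, 0, 0, 0, 0, 0, 1, 2, 2, 3, 3, 3, 4]
    [0, 0, 0, 0, 1, 1, 2, 3, 4, 4, 4, 4, 5] 13 8 1 10 = true := by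
  decide +kernel

end Pool.Agent.GaussPoset.Win.Ev

namespace Pool.Agent.GaussPoset.Nl

set_option linter.unusedSectionVars false

open Finset Win Cp Wd Win.I2 Win.Ev

universe u

variable {P : Type u} [Fintype P] [PartialOrder P] [DecidableEq P] {r i j a n E k : ℕ}

lemma late4_eight : ∀ w ∈ lateW 4, w.length = 8 → w = [OC, CO, CO, OO, CC, OC, OC, CO] := by
  decide +kernel

/-- THE VALUES OF THE LATE COMPONENTS WITH THREE SITES, `j = 12`, `n = 5` -/
theorem NJ.l3v5 (h : NJ P r 12) : L3V P 12 5 := by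
  intro a t lo hi e C D haj hb ha4 m h7 h8
  obtain rfl := ha4 rfl
  have hr := h.hr
  have hl : (word lo hi 4 (12 - 4)).length = 8 := by
    unfold word
    rw [List.length_map, List.length_range]
  have hw : word lo hi 4 (12 - 4) = [OC, CO, CO, OO, CC, OC, OC, CO] := by
    rcases D.h4 with ⟨-, h4⟩ | h4
    · exfalso
      have := D.quad C h4 4 (by omega) (by omega)
      omega
    · exact late4_eight _ h4 hl
  have T : WordL [OC, CO, CO, OO, CC, OC, OC, CO] [0, 0, 0, 0, 0, 0, 1, 2, 2, 3, 3, 3, 4]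
      [0, 0, 0, 0, 1, 1, 2, 3, 4, 4, 4, 4, 5] 4 := by decide
  have hR := word_rows C hw (by omega) le_rfl D.h2 D.h3 T
  have L : Loc P r 12 (t : P) lo hi (fun k s => e k s) (SS 8 t) 8 0 0 13 8
      [0, 0, 0, 0, 0, 0, 1, 2, 2, 3, 3, 3, 4] [0, 0, 0, 0, 1, 1, 2, 3, 4, 4, 4, 4, 5] :=
    ⟨h.g, t.2, C.toWin, SS_part h.g (by omega) (by omega) t,
      fun z hz => h.mem (by omega) t (by omega), hR, by omega, by omega, by omega⟩
  have v : ∀ q, q < 13 → lo q = [0, 0, 0, 0, 0, 0, 1, 2, 2, 3, 3, 3, 4].getD q 0 ∧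
      hi q = [0, 0, 0, 0, 1, 1, 2, 3, 4, 4, 4, 4, 5].getD q 0 := by
    intro q hq
    have e1 := hR.lo_eq q hq
    have e2 := hR.hi_eq q hq
    rw [Nat.sub_self, Nat.zero_add, Nat.zero_add] at e1 e2
    exact ⟨e1, e2⟩
  have v8 := v 8 (by omega)
  have v9 := v 9 (by omega)
  have v10 := v 10 (by omega)
  have v11 := v 11 (by omega)
  have hb' : (st 8 (SS 8 t)).card = 3 := by
    rw [h.card_SS (by omega) C]
    rw [v8.1, v8.2]
    decide
  have hno : ∀ w ∈ SS 8 t, lev w = 8 + 3 → up (8 + 2) w = 1 → up (8 + 1) w = 1 := by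
    intro y hy hyl hu
    have hyt := (h.mem (by omega) t (by omega)).1 hy
    obtain ⟨s, s1, s2, s3⟩ := C.surj y hyt (by omega)
    rw [hyl] at s1 s2 s3
    rw [← s3] at hu ⊢
    rw [show 8 + 3 = 8 + 2 + 1 from rfl,
      up_row h C (l := 8 + 2) (d := 1) (s := s) le_rfl (by omega) s1 s2, v10.1, v10.2] at hu
    rw [show 8 + 3 = 8 + 1 + 2 from rfl,
      up_row h C (l := 8 + 1) (d := 2) (s := s) (by omega) (by omega) s1 s2, v9.1, v9.2]
    have k7 : NoS 3 4 3 4 3 4 := noS_of (by decide +kernel) (by decide)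
    rw [show 8 + 3 = 11 from rfl, v11.1] at s1
    rw [show 8 + 3 = 11 from rfl, v11.2] at s2
    exact k7 s s1 s2 hu
  have hX : ∀ q, q ≤ 10 → okXs [0, 0, 0, 0, 0, 0, 1, 2, 2, 3, 3, 3, 4]
      [0, 0, 0, 0, 1, 1, 2, 3, 4, 4, 4, 4, 5] 13 8 1 q = true := fun q hq => Ev.okXs_mono E7w12_X hq
  show be m 3 (ZS 8 (SS 8 t)) = 0
  rw [be_eq (by omega)]
  have e1 := L.eval_three E7w12_ok E7w12_lb (n := m) (by omega) (by omega) (by omega)
    (Or.inl rfl) hb' hno (hX m (by omega))
  rw [show 3 - 2 = 1 from rfl, e1]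
  obtain rfl | rfl | rfl | rfl : m = 7 ∨ m = 8 ∨ m = 9 ∨ m = 10 := by omega
  · exact E7w12_7
  · exact E7w12_8
  · exact E7w12_9
  · exact E7w12_10

end Pool.Agent.GaussPoset.Nl

end

/-! From `Pool.Agent.W_448nl_h15.NlW` -/

section

/-!
# MP_448cb3_co, case B: the rotated rows with three sites have a pendant
-/

set_option autoImplicit false

namespace Pool.Agent.GaussPoset.Nl

set_option linter.unusedSectionVars false

open Finset Win Cp Wd Win.I2 Win.Ev EK

universe u

variable {P : Type u} [Fintype P] [PartialOrder P] [DecidableEq P] {r i j a n E k : ℕ}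
variable {lo hi : ℕ → ℕ}

/-- (3,1) at the windows `i ≤ j - 2` -/
lemma NJ.al3_zero (h : NJ P r j) (hi1 : 1 ≤ i) (h3 : i + 2 ≤ j) (t : Tops P) :
    al 3 (st i (SS i t)).card (ZS i (SS i t)) = 0 := by
  obtain ⟨lo, hi, e, C⟩ := Cp.comp_exists h.g.H t.2 h.g.hr h.g.good
  obtain ⟨-, h2⟩ := Wd.NJ.vals h hi1 h3 C
  have h4 := Wd.NJ.al3_sq h hi1 h3 t
  have h5 : (0 : ℤ) ≤ (SO.N1f i (SS i t)).card := by positivity
  have h6 : (0 : ℤ) ≤ (SO.N5f i (SS i t)).card := by positivity
  have h7 := sq_nonneg (al 3 (st i (SS i t)).card (ZS i (SS i t)))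
  have h8 : (al 3 (st i (SS i t)).card (ZS i (SS i t))) ^ 2 = 0 := by
    rw [h4] at h7 ⊢
    linarith
  exact pow_eq_zero_iff (two_ne_zero) |>.1 h8

/-- all components are clean at energy 3 at the windows `i ≤ j - 2` -/
theorem NJ.cln3 (h : NJ P r j) (hi1 : 1 ≤ i) (h3 : i + 2 ≤ j) : Wd.Cln P i 3 := by
  intro t
  have hr := h.hr
  have h1 := prof35 h.g.H (by omega) (show i + 2 ≤ j + 1 by omega)
    (fun m _ hm => h.g.good m (by omega)) (Wd.NJ.split h) (mem_tops t)
  rw [Wd.NJ.bb_eq h (by omega), Wd.NJ.VV_eq h (by omega)] at h1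
  have h2 := al_zero (h1.mid 3 (by omega)) (NJ.al3_zero h hi1 h3 t)
  rwa [coeff_ZS] at h2

set_option maxRecDepth 100000 in
lemma tailV3 : TailV [OC, OO] [0, 0, 0, 0, 0, 0] [0, 0, 0, 1, 1, 2] 3 := by
  refine ⟨by decide, ?_, ?_, ?_⟩ <;> decide +kernel

set_option maxRecDepth 100000 in
lemma tailV5b : TailV [OC, CO, CO, OO] [0, 0, 0, 0, 0, 0, 0, 1, 2, 2]
    [0, 0, 0, 0, 0, 1, 1, 2, 3, 4] 5 := by
  refine ⟨by decide, ?_, ?_, ?_⟩ <;> decide +kernel

lemma lateW_two (a : ℕ) : ∀ w ∈ lateW a, wdt w = 2 → w.getLast? = some OO →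
    w = [OO] ∨ w = [OC, OO] ∨ w = [OC, CO, CO, OO] := by
  unfold lateW
  split_ifs <;> first | omega | decide

/-- the late words with three elements on the last level, last letter OO (helper5's proof) -/
lemma late_two {d : ℕ} (h3 : lo a = 0 ∧ hi a = 1)
    (hl : ∀ k, k < a + d → lo k ≤ lo (k + 1) ∧ lo (k + 1) ≤ lo k + 1)
    (hh : ∀ k, k < a + d → hi k ≤ hi (k + 1) ∧ hi (k + 1) ≤ hi k + 1)
    (h4 : ((1 ≤ d ∧ d ≤ a) ∧ word lo hi a d = Qw d) ∨ word lo hi a d ∈ lateW a)
    (hd : 1 ≤ d) (hw : hi (a + d) = lo (a + d) + 2) (e1 : lo (a + d) = lo (a + (d - 1)))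
    (e2 : hi (a + d) = hi (a + (d - 1)) + 1) :
    word lo hi a d = [OO] ∨ word lo hi a d = [OC, OO] ∨ word lo hi a d = [OC, CO, CO, OO] := by
  have gen : ∀ n, n ≤ d → (hi (a + n) : ℤ) - lo (a + n) =
      1 + ((word lo hi a n).map (fun l => (if l.2 then (1 : ℤ) else 0) -
        if l.1 then 1 else 0)).sum := by
    intro n
    induction n with
    | zero =>
      intro _
      simp [word, h3.1, h3.2]
    | succ n ih =>
      intro hn
      have e1 := ih (by omega)
      have e2 := hl (a + n) (by omega)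
      have e3 := hh (a + n) (by omega)
      have e4 : word lo hi a (n + 1) = word lo hi a n ++
          [(decide (lo (a + n + 1) ≠ lo (a + n)), decide (hi (a + n + 1) ≠ hi (a + n)))] := by
        unfold word
        rw [List.range_succ, List.map_append]
        rfl
      rw [e4, List.map_append, List.sum_append]
      simp only [List.map_cons, List.map_nil, List.sum_cons, List.sum_nil, add_zero,
        decide_eq_true_eq]
      rw [show a + (n + 1) = a + n + 1 by omega]
      split_ifs <;> omega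
  have key : wdt (word lo hi a d) = 2 := by
    unfold wdt
    rw [← gen d le_rfl]
    omega
  have last : (word lo hi a d).getLast? = some OO := by
    obtain ⟨n, rfl⟩ : ∃ n, d = n + 1 := ⟨d - 1, by omega⟩
    unfold word
    rw [List.range_succ, List.map_append, List.map_cons, List.map_nil, List.getLast?_concat]
    rw [show a + (n + 1) = a + n + 1 by omega, show a + (n + 1 - 1) = a + n by omega] at e1 e2
    have d1 : decide (lo (a + n + 1) ≠ lo (a + n)) = false := decide_eq_false (by simp [e1])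
    have d2 : decide (hi (a + n + 1) ≠ hi (a + n)) = true := decide_eq_true (by omega)
    rw [d1, d2]
    rfl
  rcases h4 with ⟨⟨h5, h6⟩, h7⟩ | h4
  · exfalso
    rw [h7] at key
    have g2 : ∀ n, 1 ≤ n → wdt (Qw n) = 0 := by
      intro n hn
      unfold wdt Qw
      rw [List.map_cons, List.map_replicate, List.sum_cons, List.sum_replicate]
      simp [Wd.CC, Wd.OC]
    rw [g2 d hd] at key
    norm_num at key
  · exact lateW_two a _ h4 key last

section comp

variable {t : Tops P} {e : ℕ → ℕ → P}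

/-- THE LATE COMPONENTS WITH THREE SITES, both ends open, have a pendant below the middle or below
the end of the long chain -/
theorem NJ.late_three (h : NJ P r j) (C : Cp.Comp j (t : P) lo hi e) (h8 : j ≠ 8)
    (h3 : 3 ≤ a) (haj : a ≤ j) (hz0 : ∀ k, k < a → lo k = 0 ∧ hi k = 0) (h0 : lo a = 0 ∧ hi a = 1)
    (hN : word lo hi a (j - a) ∈ lateW a)
    (hw : word lo hi a (j - a) = [OO] ∨ word lo hi a (j - a) = [OC, OO] ∨
      word lo hi a (j - a) = [OC, CO, CO, OO]) :
    (pen (e j (hi j))).card = 1 ∨ (pen (e j (lo j + 1))).card = 1 := by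
  have hr := h.hr
  have hl : (word lo hi a (j - a)).length = j - a := by
    unfold word
    rw [List.length_map, List.length_range]
  rcases hw with hw | hw | hw
  · right
    rw [hw] at hl
    simp only [List.length_cons, List.length_nil] at hl
    obtain ⟨w1, w2⟩ := Wd.word_spec hw
    obtain ⟨q1, q2⟩ := w2 0 (by omega)
    simp only [List.getElem?_cons_zero, Option.map_some, Option.some.injEq, Nat.add_zero] at q1 q2
    have q1' := of_decide_eq_false q1.symm
    have q2' := of_decide_eq_true q2.symm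
    have s1 := C.lo_step a (by omega)
    have s2 := C.hi_step a (by omega)
    have ej : j = a + 1 := by omega
    subst ej
    have z1 := hz0 (a - 1) (by omega)
    have z2 := hz0 (a - 2) (by omega)
    have lj : lo (a + 1) = 0 := by omega
    have hj : hi (a + 1) = 2 := by omega
    have hR : RCO lo hi (a + 1 - 1) := by
      rw [Nat.add_sub_cancel]
      refine ⟨by omega, by omega, by omega, by omega⟩
    have hL : ¬ LCO lo hi (a + 1 - 1) := by
      rw [Nat.add_sub_cancel]
      rintro ⟨-, g, -⟩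
      omega
    rcases NJ.s5c h (by omega) C with ⟨-, g, -⟩ | ⟨g, -⟩ | ⟨-, -, b, hb, hb2⟩
    · exact absurd hR g
    · exact absurd g hL
    · rw [Nat.add_sub_cancel] at hb hb2
      have hb1 : b = 1 := by omega
      have := hb2 1 (by omega) (by omega)
      rw [hb1, if_pos rfl] at this
      rw [lj]
      exact this
  · left
    rw [hw] at hl
    simp only [List.length_cons, List.length_nil] at hl
    refine NJ.pen_tail h C (by omega) hz0 h0 hw tailV3 (by omega) (by omega) ?_
    exact NJ.cln3 h (by omega) (by omega)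
  · left
    have ha5 : 5 ≤ a := by
      rw [hw] at hl hN
      simp only [List.length_cons, List.length_nil] at hl
      by_contra hc
      obtain rfl | rfl : a = 3 ∨ a = 4 := by omega
      · exact absurd hN (by decide)
      · omega
    rw [hw] at hl
    simp only [List.length_cons, List.length_nil] at hl
    refine NJ.pen_tail h C (by omega) hz0 h0 hw tailV5b (by omega) (by omega) ?_
    refine NJ.cln45 (SO_holds P r) EV_holds h (Or.inr rfl) (by omega) (by omega) ?_
    intro a' t' lo' hi' e' C' D' h1 h2 h4 m h5 h6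
    have h7 := h4 rfl
    obtain rfl : j = 12 := by omega
    exact NJ.l3v5 h C' D' h1 h2 h4 m h5 h6

end comp

end Pool.Agent.GaussPoset.Nl

namespace Pool.Agent.GaussPoset.EK

set_option linter.unusedSectionVars false

open Finset Win Cp Wd Win.W4

universe u

variable {P : Type u} [Fintype P] [PartialOrder P] [DecidableEq P] {r i j m : ℕ}
variable {x : ℕ → P} {c : ℕ → ℤ} {β : ℤ} {t : Tops P}

/-- strips at level 1 -/
lemma r3_level_one {lo hi : Tops P → ℕ → ℕ} {e : Tops P → ℕ → ℕ → P} (hj : 1 ≤ j)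
    (C : ∀ t : Tops P, Cp.Comp j (t : P) (lo t) (hi t) (e t))
    (hS : ∀ t, Wd.Shape j (lo t) (hi t)) (t : Tops P) :
    lo t 1 = hi t 1 ∨ RectShape j (lo t) (hi t) := by
  rcases hS t with h1 | ⟨h1, S'⟩ | ⟨h1, h2⟩ | ⟨h1, h2, h3⟩ | ⟨h1, h2⟩ | ⟨a, h0, h1, h2, h3, hN, h4⟩
  · left
    have e1 := h1 1 (by omega)
    omega
  · exact Or.inr S'
  · left
    have e1 := h2.hi 1 (by omega)
    have e2 := (C t).lo_le 1 (by omega)
    omega
  · omega
  · left
    obtain ⟨⟨-, l1, -⟩, -, k1, -⟩ := h2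
    omega
  · left
    have e1 := h2 1 (by omega)
    omega

/-- THE ROTATED ROWS WITH THREE SITES HAVE A PENDANT -/
theorem NJ.r3_pen (h : NJ P r j) (h5 : 5 ≤ j) (h8 : j ≠ 8) {lo hi : Tops P → ℕ → ℕ}
    {e : Tops P → ℕ → ℕ → P} (C : ∀ t : Tops P, Cp.Comp j (t : P) (lo t) (hi t) (e t))
    (hS : ∀ t : Tops P, Wd.Shape j (lo t) (hi t)) (B : RowB P j t 2 x c β) (hb : β ≠ 0) :
    pen (x 0) ≠ ∅ ∨ pen (x 1) ≠ ∅ ∨ pen (x 2) ≠ ∅ := by
  classical
  have H := h.g.H
  have hj : 2 ≤ j := by omega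
  obtain ⟨hlen, hor⟩ := B.orient h hj (C t)
  obtain ⟨f1, f2⟩ := B.ends hb
  have Ct := C t
  have sing : ∀ s, lo t j ≤ s → s ≤ hi t j → ((uc (e t j s)).card = 1 ↔
      s = lo t (j - 1) ∨ s = hi t (j - 1) + 1) := by
    intro s s1 s2
    have h1 := Ct.single_up H h.g.good t.2 (k := j - 1) (s := s) (by omega)
      (by rw [show j - 1 + 1 = j by omega]; exact s1) (by rw [show j - 1 + 1 = j by omega]; exact s2)
    rwa [show j - 1 + 1 = j by omega] at h1
  have hends : (uc (e t j (lo t j))).card = 1 ∧ (uc (e t j (hi t j))).card = 1 := by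
    rcases hor with hor | hor
    · rw [hor 0 (by omega), Nat.add_zero] at f1
      rw [hor 2 le_rfl, ← hlen] at f2
      exact ⟨f1, f2⟩
    · rw [hor 0 (by omega), Nat.sub_zero] at f1
      rw [hor 2 le_rfl, show hi t j - 2 = lo t j by omega] at f2
      exact ⟨f2, f1⟩
  have g1 := (sing _ le_rfl (by omega)).1 hends.1
  have g2 := (sing _ (by omega) le_rfl).1 hends.2
  obtain ⟨jj, ej⟩ : ∃ jj, j = jj + 1 := ⟨j - 1, by omega⟩
  have st1 := Ct.lo_step jj (by omega)
  have st2 := Ct.hi_step jj (by omega)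
  have st3 := Ct.lo_le jj (by omega)
  have e1 : lo t j = lo t (j - 1) := by
    rw [ej] at g1 hlen ⊢
    rw [Nat.add_sub_cancel] at g1 ⊢
    omega
  have e2 : hi t j = hi t (j - 1) + 1 := by
    rw [ej] at g2 hlen ⊢
    rw [Nat.add_sub_cancel] at g2 ⊢
    omega
  -- the conclusion from a pendant of the row
  have fin : ∀ s, lo t j ≤ s → s ≤ hi t j → (pen (e t j s)).card = 1 →
      pen (x 0) ≠ ∅ ∨ pen (x 1) ≠ ∅ ∨ pen (x 2) ≠ ∅ := by
    intro s s1 s2 s3
    have hne : pen (e t j s) ≠ ∅ := by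
      intro h0
      rw [h0, card_empty] at s3
      omega
    have hex : ∃ k, k ≤ 2 ∧ x k = e t j s := by
      rcases hor with hor | hor
      · exact ⟨s - lo t j, by omega, by rw [hor _ (by omega)]; congr 1; omega⟩
      · exact ⟨hi t j - s, by omega, by rw [hor _ (by omega)]; congr 1; omega⟩
    obtain ⟨k, hk, hk2⟩ := hex
    rw [← hk2] at hne
    obtain rfl | rfl | rfl : k = 0 ∨ k = 1 ∨ k = 2 := by omega
    · exact Or.inl hne
    · exact Or.inr (Or.inl hne)
    · exact Or.inr (Or.inr hne)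
  rcases hS t with g | ⟨g, S'⟩ | ⟨g, S⟩ | ⟨g, g', g''⟩ | ⟨g, g'⟩ |
    ⟨a, a0, a1, a2, a3, hN, a4⟩
  · exfalso
    have := g j le_rfl
    omega
  · -- rectangle
    exfalso
    have hne : x 0 ≠ x 2 := fun q => by
      have := B.row.inj 0 2 (by omega) le_rfl q
      omega
    have hd : dcv (x 0) (x 2) ≠ 0 := by
      intro hd
      have e3 := B.row.df 0 2 (by omega) le_rfl
      rw [Df_pair H (B.row.lev_x 0 (by omega)) hne, B.ucv_x 0 2 (by omega) le_rfl,
        if_neg (by omega), if_neg (by omega), if_pos ⟨rfl, rfl⟩, hd] at e3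
      apply hb
      rw [← e3]
      norm_num
    unfold dcv at hd
    have hd' : #{z : P | z ⋖ x 0 ∧ z ⋖ x 2} ≠ 0 := fun h0 => hd (by rw [h0])
    obtain ⟨y, hy⟩ := card_pos.1 (Nat.pos_of_ne_zero hd')
    rw [mem_filter] at hy
    have hl := lev_cov H hy.2.1
    have hx := B.row.lev_x 0 (by omega)
    have hxt : x 0 ≤ (t : P) := by
      rw [← B.row.kap 0 (by omega)]
      exact le_topOf (x 0)
    have h3 := rect_no_rotation h.g hj h.no C (r3_level_one (by omega) C hS) (t := t)
      (z := y) (x := x 0) (x' := x 2) (by omega) (by omega) (hy.2.1.le.trans hxt) hy.2.1 hy.2.2 hne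
    rw [B.ucv_x 0 2 (by omega) le_rfl, if_neg (by omega)] at h3
    omega
  · -- stair
    exfalso
    have s1 := S.hi j le_rfl
    have s2 := S.hi (j - 1) (by omega)
    have s3 := S.lo (j - 1) (by omega)
    rw [show j - 1 + 1 = j by omega] at s3
    omega
  · exfalso
    omega
  · exfalso
    subst g
    obtain ⟨⟨-, -, -, -, -, -, l6⟩, -, -, -, -, -, -, k6⟩ := g'
    omega
  · -- late
    have hstep : ∀ k, k < a + (j - a) → lo t k ≤ lo t (k + 1) ∧ lo t (k + 1) ≤ lo t k + 1 := by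
      intro k hk
      have := Ct.lo_step k (by omega)
      omega
    have hstep' : ∀ k, k < a + (j - a) → hi t k ≤ hi t (k + 1) ∧ hi t (k + 1) ≤ hi t k + 1 := by
      intro k hk
      have := Ct.hi_step k (by omega)
      omega
    have haj : a < j := by
      rcases Nat.lt_or_ge a j with h1 | h1
      · exact h1
      · have : a = j := by omega
        rw [this] at a3
        omega
    have key := Nl.late_two a3 hstep hstep' a4 (by omega)
      (by rw [show a + (j - a) = j by omega]; exact hlen)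
      (by rw [show a + (j - a) = j by omega, show a + (j - a - 1) = j - 1 by omega]; exact e1)
      (by rw [show a + (j - a) = j by omega, show a + (j - a - 1) = j - 1 by omega]; exact e2)
    have hmem : word (lo t) (hi t) a (j - a) ∈ lateW a := by
      rcases a4 with ⟨-, h4⟩ | h4
      · exfalso
        rw [h4] at key
        unfold Qw at key
        rcases key with hw | hw | hw <;>
          (rw [List.cons.injEq] at hw; exact absurd hw.1 (by decide))
      · exact h4
    rcases Nl.NJ.late_three h Ct h8 a0 (by omega) a2 a3 hmem key with h1 | h1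
    · exact fin _ (by omega) le_rfl h1
    · exact fin _ (by omega) (by omega) h1

end Pool.Agent.GaussPoset.EK

end
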