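import Mathlib
import Pool.Agent.W_448zz_h61.Ns
import Pool.Agent.W_448zz_h61.M232

/-! From `Pool.Agent.W_448nl_h15.NlR` (part 4) -/

/-!
# MP_448cb3_co, case B: the late components with three sites at the window `j - 3`

`l3v4 : L3V P j 4`: the coefficients `(7, 2)`, `(8, 2)` of the four words of length 7 vanish.
-/

set_option autoImplicit false

namespace Pool.Agent.GaussPoset.Win.Ev

set_option linter.unusedSectionVars false

open Finset

universe u

variable {P : Type u} [Fintype P] [PartialOrder P] [DecidableEq P] {r i j : ℕ}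
variable {C : Finset P} {t : P} {lo hi : ℕ → ℕ} {x : ℕ → ℕ → P} {base c0 R s : ℕ} {los his : List ℕ}

end Pool.Agent.GaussPoset.Win.Ev

namespace Pool.Agent.GaussPoset.Nl

set_option linter.unusedSectionVars false

open Finset Win Cp Wd Win.I2 Win.Ev

universe u

variable {P : Type u} [Fintype P] [PartialOrder P] [DecidableEq P] {r i j a n E k : ℕ}
variable {lo hi : ℕ → ℕ}

section comp

variable {t : Tops P} {e : ℕ → ℕ → P}

end comp

set_option maxRecDepth 100000 in
lemma chk_a6 : Chk3 [OC, CO, CO, OO, CO, OO, OC] [0, 0, 0, 0, 0, 0, 1, 2, 2, 3, 3, 3]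
    [0, 0, 0, 0, 1, 1, 2, 3, 4, 5, 6, 6] := by
  refine ⟨by decide, by decide, ?_, ?_, ?_, ?_, ?_, by decide, by decide, noS_of ?_ (by decide)⟩
  · decide +kernel
  · decide +kernel
  · decide +kernel
  · decide +kernel
  · decide +kernel
  · decide +kernel

end Nl
end GaussPoset
end Agent
end Pool
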