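import Mathlib
import Pool.Agent.W_448zz_h61.Ns
import Pool.Agent.W_448zz_h61.M215
import Pool.Agent.W_448zz_h61.M233
import Pool.Agent.W_448zz_h61.M235
import Pool.Agent.W_448zz_h61.M237
import Pool.Agent.W_448zz_h61.M238

/-! From `Pool.Agent.W_448nl_h15.NlP` -/

section

/-!
# MP_448cb3_co, case B: `E7` down to level 15: the sixteenth level is natural

The window 12 has two sites, the levels 13, 14, 15 have one element each: the value `(4,1)(12)` is
`#(level 16) - 1`.
-/

set_option autoImplicit false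

namespace Pool.Agent.GaussPoset.Nl

set_option linter.unusedSectionVars false

open Finset Win Cp Wd Win.I2 Win.Ev

universe u

variable {P : Type u} [Fintype P] [PartialOrder P] [DecidableEq P] {r i j a n E k : ℕ}
variable {t : Tops P} {lo hi : ℕ → ℕ} {e : ℕ → ℕ → P}

/-- two sites, one element on each of the levels `a + 1, …, j` -/
theorem NJ.slim_one (h : NJ P r j) (C : Cp.Comp j (t : P) lo hi e) (haj : a + 1 ≤ j)
    (h0 : hi a = lo a + 1) (hone : ∀ k, a + 1 ≤ k → k ≤ j → lo k = hi k) :
    (slim a (j + 1) (SS a t)).filter (fun z => up a z = 2) = pen (e j (hi j)) := by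
  classical
  have H := h.g.H
  have hg := h.g.good
  have keyk : ∀ z, z ≤ (t : P) → lev z = j + 1 → ∀ k, a + 1 ≤ k → k ≤ j → ∀ y, z ≤ y →
      lev y = k → y = e k (hi k) := by
    intro z hzt hzl k hk1 hk2 y hy hyl
    obtain ⟨s, s1, s2, s3⟩ := C.surj y (NJ.up_le h t.2 (by omega) hzt hy) (by omega)
    rw [hyl] at s1 s2 s3
    have := hone k hk1 hk2
    rw [← s3]
    congr 1
    omega
  have k1 := hone (a + 1) le_rfl (by omega)
  have q1 := C.lo_step a (by omega)
  have q2 := C.hi_step a (by omega)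
  have hne : e a (lo a) ≠ e a (hi a) := by
    intro hh
    have := C.inj a (lo a) (hi a) (by omega) le_rfl (by omega) (by omega) le_rfl hh
    omega
  have hsite : ∀ s, lo a ≤ s → s ≤ hi a → lev (e a s) = a ∧ e (a + 1) (hi (a + 1)) ⋖ e a s := by
    intro s s1 s2
    refine ⟨C.lev_e a s (by omega) s1 s2, ?_⟩
    rw [C.cov a (hi (a + 1)) s (by omega) (by omega) le_rfl s1 s2]
    omega
  ext z
  rw [mem_filter, mem_pen]
  constructor
  · rintro ⟨hz, hu⟩
    obtain ⟨hz1, hz2, hz3⟩ := mem_slim.1 hz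
    have hzt : z ≤ (t : P) := (h.mem (by omega) t (by omega)).1 hz1
    have hj : ∀ y, z ⋖ y → y = e j (hi j) := by
      intro y hy
      have h5 := lev_cov H hy
      exact keyk z hzt hz2 j (by omega) le_rfl y hy.le (by omega)
    obtain ⟨y, hy⟩ := uc_nonempty H (x := z) (by omega)
    have hy' := mem_uc.1 hy
    refine ⟨by rw [← hj y hy']; exact hy', ?_⟩
    rw [Finset.card_eq_one]
    refine ⟨e j (hi j), ?_⟩
    ext w
    rw [mem_uc, mem_singleton]
    exact ⟨hj w, fun hw => by rw [hw, ← hj y hy']; exact hy'⟩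
  · rintro ⟨hz1, hz2⟩
    have hl := C.lo_le j le_rfl
    have hlj := C.lev_e j (hi j) le_rfl hl le_rfl
    have hr := h.hr
    have hzl : lev z = j + 1 := by
      have := lev_cov H hz1
      omega
    have hzt : z ≤ (t : P) := hz1.le.trans (C.le_t j (hi j) le_rfl hl le_rfl)
    have key := keyk z hzt hzl
    have hinj : Set.InjOn lev (cone a z : Set P) := by
      intro y hy y' hy' hyy
      rw [mem_coe, mem_cone] at hy hy'
      have hle : lev y ≤ j + 1 := by
        rcases eq_or_lt_of_le hy.1 with h8 | h8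
        · rw [← h8, hzl]
        · have := lev_strictAnti h8
          omega
      rcases Nat.lt_or_ge j (lev y) with h5 | h5
      · have h6 : ∀ v, z ≤ v → lev v = j + 1 → v = z := by
          intro v hv hvl
          by_contra hne
          have := lev_strictAnti (lt_of_le_of_ne hv (Ne.symm hne))
          omega
        rw [h6 y hy.1 (by omega), h6 y' hy'.1 (by omega)]
      · rw [key (lev y) (by omega) h5 y hy.1 rfl, key (lev y) (by omega) h5 y' hy'.1 hyy.symm]
    have hcard : (cone a z).card = j + 1 - a := by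
      rw [← Finset.card_image_of_injOn hinj, image_cone, Nat.card_Ioc, hzl]
    refine ⟨mem_slim.2 ⟨(h.mem (by omega) t (by omega)).2 hzt, hzl, hcard⟩, ?_⟩
    have hw : z ≤ e (a + 1) (hi (a + 1)) := by
      obtain ⟨w, hw, hwl⟩ := exists_above' (x := z) (j := a + 1) (by omega)
      have := key (a + 1) le_rfl (by omega) w hw hwl
      rw [← this]
      exact hw
    have hup : (lv P a).filter (fun v => z < v) = {e a (lo a), e a (hi a)} := by
      ext v
      rw [mem_filter, mem_lv, mem_insert, mem_singleton]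
      constructor
      · rintro ⟨hv1, hv2⟩
        obtain ⟨s, s1, s2, s3⟩ := C.surj v (NJ.up_le h t.2 (by omega) hzt hv2.le) (by omega)
        rw [hv1] at s1 s2 s3
        rw [← s3]
        obtain rfl | rfl : s = lo a ∨ s = hi a := by omega
        · exact Or.inl rfl
        · exact Or.inr rfl
      · intro hv
        have h5 : ∀ s, lo a ≤ s → s ≤ hi a → lev (e a s) = a ∧ z < e a s := by
          intro s s1 s2
          obtain ⟨g1, g2⟩ := hsite s s1 s2
          exact ⟨g1, lt_of_le_of_lt hw g2.lt⟩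
        rcases hv with rfl | rfl
        · exact h5 _ le_rfl (by omega)
        · exact h5 _ (by omega) le_rfl
    have h10 : up a z = ((lv P a).filter (fun v => z < v)).card := by
      unfold up
      congr
    rw [h10, hup, Finset.card_pair hne]

set_option maxRecDepth 100000 in
lemma val12 : okP [2, 3, 3, 3, 4, 5, 5, 5] [4, 4, 4, 4, 5, 5, 5, 5] 8 4
      (mk [2, 3, 3, 3, 4, 5, 5, 5] [4, 4, 4, 4, 5, 5, 5, 5] 8 4) = true ∧
    lb0 (mk [2, 3, 3, 3, 4, 5, 5, 5] [4, 4, 4, 4, 5, 5, 5, 5] 8 4) = true ∧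
    ev 1 (mk [2, 3, 3, 3, 4, 5, 5, 5] [4, 4, 4, 4, 5, 5, 5, 5] 8 4) 0 4 0 0 0 = -1 := by
  refine ⟨?_, ?_, ?_⟩ <;> decide +kernel

/-- `E7` down to level 15, case B: the sixteenth level is natural -/
lemma NJ.e7_16 (h : NJ P r 15) (C : Cp.Comp 15 (t : P) lo hi e) (hE : E7c 15 lo hi)
    (hcl : Wd.Cln P 12 4) :
    ∃ e', Cp.Comp 16 (t : P) (Function.update lo 16 5) (Function.update hi 16 5) e' ∧
      Rows (Function.update lo 16 5) (Function.update hi 16 5) 0 0 17
        [0, 0, 0, 0, 0, 0, 1, 2, 2, 3, 3, 3, 4, 5, 5, 5, 5]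
        [0, 0, 0, 0, 1, 1, 2, 3, 4, 4, 4, 4, 5, 5, 5, 5, 5] := by
  classical
  have hr := h.hr
  obtain ⟨g0, ⟨g1, g2⟩, -⟩ := id hE
  have hw := hE.take (d := 11) (by omega) (by omega) (by omega)
  have key : Rows lo hi 0 0 16 [0, 0, 0, 0, 0, 0, 1, 2, 2, 3, 3, 3, 4, 5, 5, 5]
      [0, 0, 0, 0, 1, 1, 2, 3, 4, 4, 4, 4, 5, 5, 5, 5] :=
    rows_trunk (w := E7.take 11) (j := 15) (fun k hk => C.lo_step k hk) (fun k hk => C.hi_step k hk)
      (by show 4 + 11 ≤ 15; omega) hw g0 g1 g2 (by decide)
  have l12 := key.lo_eq 12 (by omega)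
  have l13 := key.lo_eq 13 (by omega)
  have l14 := key.lo_eq 14 (by omega)
  have l15 := key.lo_eq 15 (by omega)
  have h12 := key.hi_eq 12 (by omega)
  have h13 := key.hi_eq 13 (by omega)
  have h14 := key.hi_eq 14 (by omega)
  have h15 := key.hi_eq 15 (by omega)
  simp only [Nat.zero_add, List.getD_cons_succ, List.getD_cons_zero] at l12 l13 l14 l15 h12 h13 h14 h15
  have R : Rows lo hi 8 0 8 [2, 3, 3, 3, 4, 5, 5, 5] [4, 4, 4, 4, 5, 5, 5, 5] := by
    constructor
    · intro k hk
      have := key.lo_eq (8 + k) (by omega)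
      rw [Nat.zero_add] at this
      rw [this]
      interval_cases k <;> rfl
    · intro k hk
      have := key.hi_eq (8 + k) (by omega)
      rw [Nat.zero_add] at this
      rw [this]
      interval_cases k <;> rfl
  have L : LocN P r 15 (t : P) lo hi (fun k s => e k s) (SS 12 t) 12 8 0 8 4
      [2, 3, 3, 3, 4, 5, 5, 5] [4, 4, 4, 4, 5, 5, 5, 5] :=
    ⟨h.g.H, by omega, fun z y hz hzt hzy => NJ.up_le h t.2 (by omega) hzt hzy.le, C.toWin,
      SS_part h.g (by omega) (by omega) t, fun z hz => h.mem (by omega) t (by omega), R, rfl,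
      by omega, by omega⟩
  have e1 := L.eval_cut val12.1 val12.2.1 (m := 1) (n := 4) (J := 15) (by omega) (by omega)
    (Or.inr le_rfl) (by omega)
  rw [val12.2.2] at e1
  have hc : (st 12 (SS 12 t)).card = 2 := by
    rw [h.card_SS (by omega) C, l12, h12]
  have e2 := c1_first h.g.H (by omega) (SS_part h.g (by omega) (by omega) t) (E := 4) (by omega) hc
  rw [show 12 + 4 = 15 + 1 from rfl, NJ.slim_one h C (by omega) (by omega) (by
    intro k hk1 hk2
    interval_cases k <;> omega)] at e2
  have e3 : PowerSeries.coeff 1 (ZC 12 (cut (15 + 1) (SS 12 t)) 4 : A) =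
      PowerSeries.coeff 1 (∑ e ∈ (DR (SS 12 t) 15).piAntidiag 4, tC 12 (SS 12 t) e : A) := by
    congr 1
    unfold ZC
    have h2 : cut (15 + 1) (SS 12 t) = DR (SS 12 t) 15 := by
      ext z
      rw [mem_cut, mem_DR]
      constructor
      · exact fun h => ⟨h.1, by omega⟩
      · exact fun h => ⟨h.1, by omega⟩
    rw [← h2]
    refine Finset.sum_congr rfl fun e _ => ?_
    unfold tC
    rw [st_cut (by omega)]
  obtain ⟨w, hwd⟩ := hcl t
  rw [hc] at hwd
  have e4 : PowerSeries.coeff 1 (ZC 12 (SS 12 t) 4 : A) = 0 := by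
    rw [hwd, pow_two, c1_mul, c1_mul, c0_mul, c0_dd]
    simp
  rw [e4, e3, e1] at e2
  have hp : (pen (e 15 (lo 15))).card = 1 := by
    rw [l15, ← h15]
    omega
  obtain ⟨e', C'⟩ := NJ.ext1 h C (by omega) hp
  rw [l15] at C'
  refine ⟨e', C', ⟨?_, ?_⟩⟩
  · intro k hk
    rcases Nat.lt_or_ge k 16 with h5 | h5
    · have := key.lo_eq k h5
      rw [Function.update_of_ne (by omega), this]
      interval_cases k <;> rfl
    · obtain rfl : k = 16 := by omega
      rfl
  · intro k hk
    rcases Nat.lt_or_ge k 16 with h5 | h5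
    · have := key.hi_eq k h5
      rw [Function.update_of_ne (by omega), this]
      interval_cases k <;> rfl
    · obtain rfl : k = 16 := by omega
      rfl

end Pool.Agent.GaussPoset.Nl

end

/-! From `Pool.Agent.W_448nl_h15.NlR` (part 2) -/

section

/-!
# MP_448cb3_co, case B: the late components with three sites at the window `j - 3`

`l3v4 : L3V P j 4`: the coefficients `(7, 2)`, `(8, 2)` of the four words of length 7 vanish.
-/

set_option autoImplicit false

namespace Pool.Agent.GaussPoset.Win.Ev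

set_option linter.unusedSectionVars false

open Finset

universe u

variable {P : Type u} [Fintype P] [PartialOrder P] [DecidableEq P] {r i j : ℕ}
variable {C : Finset P} {t : P} {lo hi : ℕ → ℕ} {x : ℕ → ℕ → P} {base c0 R s : ℕ} {los his : List ℕ}

end Pool.Agent.GaussPoset.Win.Ev

namespace Pool.Agent.GaussPoset.Nl

set_option linter.unusedSectionVars false

open Finset Win Cp Wd Win.I2 Win.Ev

universe u

variable {P : Type u} [Fintype P] [PartialOrder P] [DecidableEq P] {r i j a n E k : ℕ}
variable {lo hi : ℕ → ℕ}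

section comp

variable {t : Tops P} {e : ℕ → ℕ → P}

end comp

set_option maxRecDepth 100000 in
lemma chk_a4 : Chk3 [OC, CO, CO, OO, CC, OC, OC] [0, 0, 0, 0, 0, 0, 1, 2, 2, 3, 3, 3]
    [0, 0, 0, 0, 1, 1, 2, 3, 4, 4, 4, 4] := by
  refine ⟨by decide, by decide, ?_, ?_, ?_, ?_, ?_, by decide, by decide, noS_of ?_ (by decide)⟩
  · decide +kernel
  · decide +kernel
  · decide +kernel
  · decide +kernel
  · decide +kernel
  · decide +kernel

end Nl
end GaussPoset
end Agent
end Pool

end

/-! From `Pool.Agent.W_448nl_h15.NlR` (part 3) -/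

section

/-!
# MP_448cb3_co, case B: the late components with three sites at the window `j - 3`

`l3v4 : L3V P j 4`: the coefficients `(7, 2)`, `(8, 2)` of the four words of length 7 vanish.
-/

set_option autoImplicit false

namespace Pool.Agent.GaussPoset.Win.Ev

set_option linter.unusedSectionVars false

open Finset

universe u

variable {P : Type u} [Fintype P] [PartialOrder P] [DecidableEq P] {r i j : ℕ}
variable {C : Finset P} {t : P} {lo hi : ℕ → ℕ} {x : ℕ → ℕ → P} {base c0 R s : ℕ} {los his : List ℕ}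

end Pool.Agent.GaussPoset.Win.Ev

namespace Pool.Agent.GaussPoset.Nl

set_option linter.unusedSectionVars false

open Finset Win Cp Wd Win.I2 Win.Ev

universe u

variable {P : Type u} [Fintype P] [PartialOrder P] [DecidableEq P] {r i j a n E k : ℕ}
variable {lo hi : ℕ → ℕ}

section comp

variable {t : Tops P} {e : ℕ → ℕ → P}

end comp

set_option maxRecDepth 100000 in
lemma chk_a5 : Chk3 [OC, CO, CO, OO, CO, OC, OC] [0, 0, 0, 0, 0, 0, 1, 2, 2, 3, 3, 3]
    [0, 0, 0, 0, 1, 1, 2, 3, 4, 5, 5, 5] := by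
  refine ⟨by decide, by decide, ?_, ?_, ?_, ?_, ?_, by decide, by decide, noS_of ?_ (by decide)⟩
  · decide +kernel
  · decide +kernel
  · decide +kernel
  · decide +kernel
  · decide +kernel
  · decide +kernel

end Nl
end GaussPoset
end Agent
end Pool

end

/-! From `Pool.Agent.W_448nl_h15.NlR` (part 6) -/

section

/-!
# MP_448cb3_co, case B: the late components with three sites at the window `j - 3`

`l3v4 : L3V P j 4`: the coefficients `(7, 2)`, `(8, 2)` of the four words of length 7 vanish.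
-/

set_option autoImplicit false

namespace Pool.Agent.GaussPoset.Win.Ev

set_option linter.unusedSectionVars false

open Finset

universe u

variable {P : Type u} [Fintype P] [PartialOrder P] [DecidableEq P] {r i j : ℕ}
variable {C : Finset P} {t : P} {lo hi : ℕ → ℕ} {x : ℕ → ℕ → P} {base c0 R s : ℕ} {los his : List ℕ}

end Pool.Agent.GaussPoset.Win.Ev

namespace Pool.Agent.GaussPoset.Nl

set_option linter.unusedSectionVars false

open Finset Win Cp Wd Win.I2 Win.Ev

universe u

variable {P : Type u} [Fintype P] [PartialOrder P] [DecidableEq P] {r i j a n E k : ℕ}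
variable {lo hi : ℕ → ℕ}

section comp

variable {t : Tops P} {e : ℕ → ℕ → P}

end comp

lemma late4_seven : ∀ w ∈ lateW 4, w.length = 7 → w = [OC, CO, CO, OO, CC, OC, OC] := by
  decide +kernel
lemma late5_seven : ∀ w ∈ lateW 5, w.length = 7 → w = [OC, CO, CO, OO, CO, OC, OC] := by
  decide +kernel
lemma late6_seven : ∀ w ∈ lateW 6, w.length = 7 → w = [OC, CO, CO, OO, CO, OO, OC] := by
  decide +kernel
lemma late8_seven : ∀ w ∈ lateW 8, w.length = 7 → w = [OC, CO, CO, OO, CO, OO, OO] := by
  decide +kernel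

/-- THE VALUES OF THE LATE COMPONENTS WITH THREE SITES, `n = 4` -/
theorem NJ.l3v4 (h : NJ P r j) : L3V P j 4 := by
  intro a t lo hi e C D haj hb _ m h7 h8
  have h3 := D.h0
  have h1 := D.h1
  have hl : (word lo hi a (j - a)).length = j - a := by
    unfold word
    rw [List.length_map, List.length_range]
  rcases D.h4 with ⟨-, h4⟩ | h4
  · exfalso
    have := D.quad C h4 4 (by omega) (by omega)
    omega
  · have h8' : m ≤ 8 := by omega
    rcases Nat.lt_or_ge a 7 with h6 | h6
    · obtain rfl | rfl | rfl | rfl : a = 3 ∨ a = 4 ∨ a = 5 ∨ a = 6 := by omega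
      · exfalso
        have hw := late3_seven _ h4 (by omega)
        obtain ⟨e1, e2⟩ := Lw_of_trunk C D.h0 D.h1 D.h2 D.h3 7 (by omega)
        rw [hw] at e1 e2
        have u1 : Lw [OC, CO, CO, OC, CC, OC, OC] 7 = 2 := by decide
        have u2 : Hw [OC, CO, CO, OC, CC, OC, OC] 7 = 3 := by decide
        rw [u1] at e1
        rw [u2] at e2
        simp only [Nat.reduceSub, Nat.reduceAdd] at e1 e2 hb
        omega
      · exact val_three h C (by omega) (by omega) D.h2 D.h3 (late4_seven _ h4 (by omega)) chk_a4 h7 h8'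
      · exact val_three h C (by omega) (by omega) D.h2 D.h3 (late5_seven _ h4 (by omega)) chk_a5 h7 h8'
      · exact val_three h C (by omega) (by omega) D.h2 D.h3 (late6_seven _ h4 (by omega)) chk_a6 h7 h8'
    · rw [lateW_large h6] at h4
      exact val_three h C (by omega) (by omega) D.h2 D.h3 (late8_seven _ h4 (by omega)) chk_a7 h7 h8'

end Nl
end GaussPoset
end Agent
end Pool

end

/-! From `Pool.Agent.W_448cl_h64.ClM` -/

section

/-!
MP_448cb3_co, G2, case B: the late word OC CO CO OO CO OO OC: nothing hangs below the open end of the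
level `j`.  The identity (4,1)(j - 3) of helper15; the window `j - 3` has three sites.  helper64.
-/

namespace Pool.Agent.GaussPoset.EK

set_option linter.unusedSectionVars false

open Finset Win St Polynomial Wd Nl

universe u

variable {P : Type u} [Fintype P] [PartialOrder P] [DecidableEq P] {r i j a : ℕ} {S : Finset P}

lemma cm_c2 : PowerSeries.coeff 2 (xx ^ 2 * dd ^ 2 : A) = 1 := by
  rw [mul_comm]
  unfold dd
  have h := PowerSeries.coeff_X_pow_mul (xx ^ 2 : A) 2 0
  rw [zero_add] at h
  rw [h, PowerSeries.coeff_zero_eq_constantCoeff, map_pow, cc_xx]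
  norm_num

lemma cm_c2' {v : A} (h : dd ^ 3 ∣ v) : PowerSeries.coeff 2 v = 0 := by
  obtain ⟨w, rfl⟩ := h
  unfold dd
  rw [PowerSeries.coeff_X_pow_mul']
  norm_num

/-- a chain meets at most two sites -/
lemma slim_up (H : Gr P r) {z : P} {k : ℕ} (hk : a + 1 ≤ k) (hz : z ∈ slim a k S) :
    up a z ≤ 2 := by
  classical
  have hzl := (mem_slim.1 hz).2.1
  obtain ⟨y, hy, hyl⟩ := exists_above' (x := z) (j := a + 1) (by omega)
  have h1 : (lv P a).filter (fun v => z < v) ⊆ uc y := by
    intro v hv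
    rw [mem_filter, mem_lv] at hv
    obtain ⟨w, hw1, hw2, hw3⟩ := exists_mid H hv.2.le (k := a + 1) (by omega) (by omega)
    have h5 := slim_uniq hz hy hw1 (by omega) (by omega)
    subst h5
    rw [mem_uc, H.covBy_iff]
    refine ⟨lt_of_le_of_ne hw2 ?_, by omega⟩
    rintro rfl
    omega
  have h2 : (uc y).card ≤ 2 := by
    rcases uc_card_cases H (x := y) (by omega) with h | h <;> omega
  unfold up
  refine le_trans (le_of_eq ?_) ((card_le_card h1).trans h2)
  congr

/-- the coefficient of `d ^ 2` at the first energy which sees the level `a + E`, three sites -/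
lemma c2_first (H : Gr P r) {E : ℕ} (har : a ≤ r) (hC : Part a S) (hE : 1 ≤ E)
    (h3 : (st a S).card = 3) :
    PowerSeries.coeff 2 (ZC a S E : A) = PowerSeries.coeff 2 (ZC a (cut (a + E) S) E : A) +
      (((slim a (a + E) S).filter (fun z => up a z = 2)).card : ℤ) := by
  classical
  rw [ZC_first H har hC (show a < a + E by omega) (n := E) (by omega), if_pos (by omega), map_add]
  congr 1
  rw [map_sum, Finset.card_filter]
  push_cast
  refine Finset.sum_congr rfl fun z hz => ?_
  rw [h3]
  by_cases hu : up a z = 2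
  · rw [if_pos hu, hu]
    exact cm_c2
  · rw [if_neg hu]
    have h4 := slim_up H (by omega) hz
    refine cm_c2' (Dvd.dvd.mul_left (pow_dvd_pow dd (by omega)) _)

section comp

variable {t : Tops P} {lo hi : ℕ → ℕ} {e : ℕ → ℕ → P}

/-- the elements below the open end of the level `j = a + 3`; letters C, O, O at this end -/
lemma pen_slim (h : NJ P r (a + 3)) (C : Cp.Comp (a + 3) (t : P) lo hi e)
    (h1 : lo (a + 1) = lo a + 1) (h2 : lo (a + 2) = lo (a + 1)) (h3 : lo (a + 3) = lo (a + 2))
    (h0 : lo a < hi a) :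
    pen (e (a + 3) (lo (a + 3))) ⊆ (slim a (a + 4) (SS a t)).filter (fun z => up a z = 2) := by
  classical
  have H := h.g.H
  have hg := h.g.good
  have f0 := C.lo_le (a + 1) (by omega)
  have f1 := C.lo_le (a + 2) (by omega)
  have f2 := C.lo_le (a + 3) (by omega)
  intro z hz
  rw [mem_pen] at hz
  obtain ⟨hz1, hz2⟩ := hz
  have hlj := C.lev_e (a + 3) (lo (a + 3)) le_rfl le_rfl f2
  have hzl : lev z = a + 4 := by
    have := lev_cov H hz1
    omega
  have hzt : z ≤ (t : P) := hz1.le.trans (C.le_t (a + 3) (lo (a + 3)) le_rfl le_rfl f2)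
  -- the chain
  have k3 : ∀ y, z ≤ y → lev y = a + 3 → y = e (a + 3) (lo (a + 3)) := by
    intro y hy hyl
    have h5 : z ⋖ y := by
      rw [H.covBy_iff]
      refine ⟨lt_of_le_of_ne hy ?_, by omega⟩
      rintro rfl
      omega
    rw [Finset.card_eq_one] at hz2
    obtain ⟨w, hw⟩ := hz2
    have h6 := mem_uc.2 h5
    have h7 := mem_uc.2 hz1
    rw [hw, mem_singleton] at h6 h7
    rw [h6, h7]
  have step : ∀ k, a + 1 ≤ k → k + 1 ≤ a + 3 → lo (k + 1) = lo k →
      (∀ y, z ≤ y → lev y = k + 1 → y = e (k + 1) (lo (k + 1))) →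
      ∀ y, z ≤ y → lev y = k → y = e k (lo k) := by
    intro k hk hk3 hlo ih y hy hyl
    obtain ⟨w, hw1, hw2, hw3⟩ := exists_mid H hy (k := k + 1) (by omega) (by omega)
    have h5 := ih w hw1 hw3
    have h8 := C.lo_le (k + 1) (by omega)
    have h9 : w ⋖ y := by
      rw [H.covBy_iff]
      refine ⟨lt_of_le_of_ne hw2 ?_, by omega⟩
      rintro rfl
      omega
    rw [h5] at h9
    obtain ⟨s', g1, g2, g3, g4⟩ := C.cov_up H hg t.2 (by omega) le_rfl h8 h9
    rw [g3]
    congr 1
    omega
  have k2 := step (a + 2) (by omega) (by omega) h3 k3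
  have k1 := step (a + 1) (by omega) (by omega) h2 k2
  have kk : ∀ k, a + 1 ≤ k → k ≤ a + 3 → ∀ y, z ≤ y → lev y = k → y = e k (lo k) := by
    intro k hk1 hk2 y hy hyl
    obtain rfl | rfl | rfl : k = a + 1 ∨ k = a + 2 ∨ k = a + 3 := by omega
    · exact k1 y hy hyl
    · exact k2 y hy hyl
    · exact k3 y hy hyl
  have hinj : Set.InjOn lev (cone a z : Set P) := by
    intro y hy y' hy' hyy
    rw [mem_coe, mem_cone] at hy hy'
    have hle : lev y ≤ a + 4 := by
      rcases eq_or_lt_of_le hy.1 with h8 | h8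
      · rw [← h8, hzl]
      · have := lev_strictAnti h8
        omega
    rcases Nat.lt_or_ge (a + 3) (lev y) with h5 | h5
    · have h6 : ∀ v, z ≤ v → lev v = a + 4 → v = z := by
        intro v hv hvl
        by_contra hne
        have := lev_strictAnti (lt_of_le_of_ne hv (Ne.symm hne))
        omega
      rw [h6 y hy.1 (by omega), h6 y' hy'.1 (by omega)]
    · rw [kk (lev y) (by omega) h5 y hy.1 rfl, kk (lev y) (by omega) h5 y' hy'.1 hyy.symm]
  have hcard : (cone a z).card = a + 4 - a := by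
    rw [← Finset.card_image_of_injOn hinj, image_cone, Nat.card_Ioc, hzl]
  rw [mem_filter]
  refine ⟨mem_slim.2 ⟨(h.mem (by omega) t (by omega)).2 hzt, hzl, hcard⟩, ?_⟩
  -- the two sites
  have hw : z ≤ e (a + 1) (lo (a + 1)) := by
    obtain ⟨w, hw, hwl⟩ := exists_above' (x := z) (j := a + 1) (by omega)
    rw [← k1 w hw hwl]
    exact hw
  have hup : (lv P a).filter (fun v => z < v) = {e a (lo a), e a (lo a + 1)} := by
    ext v
    rw [mem_filter, mem_lv, mem_insert, mem_singleton]
    constructor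
    · rintro ⟨hv1, hv2⟩
      obtain ⟨w, hw1, hw2, hw3⟩ := exists_mid H hv2.le (k := a + 1) (by omega) (by omega)
      have h5 := k1 w hw1 hw3
      have h9 : w ⋖ v := by
        rw [H.covBy_iff]
        refine ⟨lt_of_le_of_ne hw2 ?_, by omega⟩
        rintro rfl
        omega
      rw [h5] at h9
      obtain ⟨s', g1, g2, g3, g4⟩ := C.cov_up H hg t.2 (by omega) le_rfl f0 h9
      obtain rfl | rfl : s' = lo a ∨ s' = lo a + 1 := by omega
      · exact Or.inl g3
      · exact Or.inr g3
    · intro hv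
      have h5 : ∀ s, lo a ≤ s → s ≤ lo a + 1 → lev (e a s) = a ∧ z < e a s := by
        intro s hs hs'
        have h6 := C.lev_e a s (by omega) (by omega) (by omega)
        have h7 := (C.le_iff H hg t.2 (l := a) (s' := s) (d := 1) (s := lo (a + 1)) (by omega)
          (by omega) (by omega) (by omega) (by omega)).2 (by omega)
        refine ⟨h6, lt_of_le_of_ne (hw.trans h7) ?_⟩
        rintro rfl
        omega
      rcases hv with rfl | rfl
      · exact h5 _ le_rfl (by omega)
      · exact h5 _ (by omega) le_rfl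
  have hne : e a (lo a) ≠ e a (lo a + 1) := by
    intro hh
    have := C.inj a (lo a) (lo a + 1) (by omega) (by omega) (by omega) (by omega) (by omega) hh
    omega
  have h10 : up a z = ((lv P a).filter (fun v => z < v)).card := by
    unfold up
    congr
  rw [h10, hup, Finset.card_pair hne]

set_option maxRecDepth 100000 in
lemma lw7_ok : Win.Ev.okP [0, 0, 1, 2, 2, 3, 3, 3] [1, 1, 2, 3, 4, 5, 6, 6] 8 4
      (Win.Ev.mk [0, 0, 1, 2, 2, 3, 3, 3] [1, 1, 2, 3, 4, 5, 6, 6] 8 4) = true ∧
    Win.Ev.lb0 (Win.Ev.mk [0, 0, 1, 2, 2, 3, 3, 3] [1, 1, 2, 3, 4, 5, 6, 6] 8 4) = true ∧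
    Win.Ev.ev 2 (Win.Ev.mk [0, 0, 1, 2, 2, 3, 3, 3] [1, 1, 2, 3, 4, 5, 6, 6] 8 4) 0 4 0 0 0 = 0 := by
  refine ⟨?_, ?_, ?_⟩ <;> decide +kernel

open Win.Ev in
/-- THE OPEN END OF THE LATE WORD: nothing hangs below it -/
theorem NJ.pen_late7 (h : NJ P r j) (C : Cp.Comp j (t : P) lo hi e) (ha : 3 ≤ a) (haj : a + 7 = j)
    (hab : lo a = 0 ∧ hi a = 1) (hw : word lo hi a 7 = W7) : pen (e j (lo j)) = ∅ := by
  classical
  have hr := h.hr
  obtain ⟨w1, w2⟩ := Wd.word_spec hw
  have key : ∀ k b c, k < 7 → W7[k]? = some (b, c) →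
      lo (a + k + 1) = lo (a + k) + (if b then 1 else 0) ∧
        hi (a + k + 1) = hi (a + k) + (if c then 1 else 0) := by
    intro k b c hk hkw
    obtain ⟨q1, q2⟩ := w2 k hk
    rw [hkw] at q1 q2
    simp only [Option.map_some, Option.some.injEq] at q1 q2
    have s1 := C.lo_step (a + k) (by omega)
    have s2 := C.hi_step (a + k) (by omega)
    constructor
    · cases b
      · have := of_decide_eq_false q1.symm
        simp only [Bool.false_eq_true, if_false]
        omega
      · have := of_decide_eq_true q1.symm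
        simp only [if_true]
        omega
    · cases c
      · have := of_decide_eq_false q2.symm
        simp only [Bool.false_eq_true, if_false]
        omega
      · have := of_decide_eq_true q2.symm
        simp only [if_true]
        omega
  have v0 := key 0 false false (by omega) rfl
  have v1 := key 1 true true (by omega) rfl
  have v2 := key 2 true true (by omega) rfl
  have v3 := key 3 false true (by omega) rfl
  have v4 := key 4 true true (by omega) rfl
  have v5 := key 5 false true (by omega) rfl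
  have v6 := key 6 false false (by omega) rfl
  simp only [Bool.false_eq_true, if_false, if_true, add_zero] at v0 v1 v2 v3 v4 v5 v6
  have u0 : lo (a + 0) = 0 ∧ hi (a + 0) = 1 := hab
  have u1 : lo (a + 1) = 0 ∧ hi (a + 1) = 1 := by rw [v0.1, v0.2]; exact hab
  have u2 : lo (a + 2) = 1 ∧ hi (a + 2) = 2 :=
    ⟨by show lo (a + 1 + 1) = 1; omega, by show hi (a + 1 + 1) = 2; omega⟩
  have u3 : lo (a + 3) = 2 ∧ hi (a + 3) = 3 :=
    ⟨by show lo (a + 2 + 1) = 2; omega, by show hi (a + 2 + 1) = 3; omega⟩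
  have u4 : lo (a + 4) = 2 ∧ hi (a + 4) = 4 :=
    ⟨by show lo (a + 3 + 1) = 2; omega, by show hi (a + 3 + 1) = 4; omega⟩
  have u5 : lo (a + 5) = 3 ∧ hi (a + 5) = 5 :=
    ⟨by show lo (a + 4 + 1) = 3; omega, by show hi (a + 4 + 1) = 5; omega⟩
  have u6 : lo (a + 6) = 3 ∧ hi (a + 6) = 6 :=
    ⟨by show lo (a + 5 + 1) = 3; omega, by show hi (a + 5 + 1) = 6; omega⟩
  have u7 : lo (a + 7) = 3 ∧ hi (a + 7) = 6 :=
    ⟨by show lo (a + 6 + 1) = 3; omega, by show hi (a + 6 + 1) = 6; omega⟩
  clear v0 v1 v2 v3 v4 v5 v6 key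
  obtain rfl : j = a + 4 + 3 := by omega
  have hrows : Rows lo hi a 0 8 [0, 0, 1, 2, 2, 3, 3, 3] [1, 1, 2, 3, 4, 5, 6, 6] := by
    constructor
    · intro k hk
      obtain rfl | rfl | rfl | rfl | rfl | rfl | rfl | rfl :
        k = 0 ∨ k = 1 ∨ k = 2 ∨ k = 3 ∨ k = 4 ∨ k = 5 ∨ k = 6 ∨ k = 7 := by omega
      all_goals simp only [List.getD_cons_zero, List.getD_cons_succ]; omega
    · intro k hk
      obtain rfl | rfl | rfl | rfl | rfl | rfl | rfl | rfl :
        k = 0 ∨ k = 1 ∨ k = 2 ∨ k = 3 ∨ k = 4 ∨ k = 5 ∨ k = 6 ∨ k = 7 := by omega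
      all_goals simp only [List.getD_cons_zero, List.getD_cons_succ]; omega
  have Lc : LocN P r (a + 4 + 3) (t : P) lo hi (fun k s => e k s) (SS (a + 4) t) (a + 4) a 0 8 4
      [0, 0, 1, 2, 2, 3, 3, 3] [1, 1, 2, 3, 4, 5, 6, 6] :=
    ⟨h.g.H, by omega, fun z y hz hzt hzy => NJ.up_le h t.2 (by omega) hzt hzy.le, C.toWin,
      SS_part h.g (by omega) (by omega) t, fun z hz => h.mem (by omega) t (by omega),
      hrows, by omega, by omega, by omega⟩
  obtain ⟨w1, w2, w3⟩ := lw7_ok
  have e1 := Lc.eval_cut w1 w2 (m := 2) (n := 4) (J := a + 4 + 3) (by omega) (by omega)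
    (Or.inr le_rfl) (by omega)
  have hc : (st (a + 4) (SS (a + 4) t)).card = 3 := by
    rw [h.card_SS (by omega) C]
    omega
  have hcl : Wd.Cln P (a + 4) 4 :=
    NJ.cln45 (SO_holds P r) EV_holds h (Or.inl rfl) (by omega) (by omega) (NJ.l3v4 h)
  have e2 := c2_first h.g.H (a := a + 4) (E := 4) (by omega)
    (SS_part h.g (by omega) (by omega) t) (by omega) hc
  have e3 : PowerSeries.coeff 2 (ZC (a + 4) (SS (a + 4) t) 4 : A) = 0 := by
    have := hcl t
    rw [hc] at this
    exact cm_c2' this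
  have e4 : (ZC (a + 4) (cut (a + 4 + 4) (SS (a + 4) t)) 4 : A) =
      ∑ e ∈ (DR (SS (a + 4) t) (a + 4 + 3)).piAntidiag 4, tC (a + 4) (SS (a + 4) t) e := by
    unfold ZC
    have h2 : cut (a + 4 + 4) (SS (a + 4) t) = DR (SS (a + 4) t) (a + 4 + 3) := by
      ext z
      rw [mem_cut, mem_DR]
      constructor
      · exact fun h => ⟨h.1, by omega⟩
      · exact fun h => ⟨h.1, by omega⟩
    rw [← h2]
    refine Finset.sum_congr rfl fun e _ => ?_
    unfold tC
    rw [st_cut (by omega)]
  rw [e3, e4, e1, w3, zero_add] at e2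
  have e5 : ((slim (a + 4) (a + 4 + 4) (SS (a + 4) t)).filter (fun z => up (a + 4) z = 2)) = ∅ := by
    rw [← card_eq_zero]
    exact_mod_cast e2.symm
  have e6 := pen_slim h C (by show lo (a + 5) = lo (a + 4) + 1; omega)
    (by show lo (a + 6) = lo (a + 5); omega) (by show lo (a + 7) = lo (a + 6); omega) (by omega)
  rw [show a + 4 + 4 = a + 4 + 4 from rfl, e5, subset_empty] at e6
  exact e6

end comp

end Pool.Agent.GaussPoset.EK

end
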