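import Mathlib
import Pool.Agent.W_448zz_h61.Ns
import Pool.Agent.W_448zz_h61.M244

/-! From `Pool.Agent.W_448nl_h15.Nv15c1` -/

section

/-! Values of the word E7 at the window 8, level 16 natural (kernel evaluation, in pieces). -/

namespace Pool.Agent.GaussPoset.Win.Ev

set_option maxRecDepth 100000

/-- 63834 nodes -/
theorem E7q15_2a_0 : pcv 1 (tl (tl (mk [0, 0, 0, 0, 0, 0, 1, 2, 2, 3, 3, 3, 4, 5, 5, 5, 5] [0, 0, 0, 0, 1, 1, 2, 3, 4, 4, 4, 4, 5, 5, 5, 5, 5] 17 8))) (0 + 2 * 32 ^ 258) 291 (15 - 2) 0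
    [22] = true := by
  decide +kernel

/-- 78588 nodes -/
theorem E7q15_2a_1 : pcv 1 (tl (tl (mk [0, 0, 0, 0, 0, 0, 1, 2, 2, 3, 3, 3, 4, 5, 5, 5, 5] [0, 0, 0, 0, 1, 1, 2, 3, 4, 4, 4, 4, 5, 5, 5, 5, 5] 17 8))) (0 + 2 * 32 ^ 258) 291 (15 - 2) 1
    [-19] = true := by
  decide +kernel

/-- 88243 nodes -/
theorem E7q15_2a_2 : pcv 1 (tl (tl (mk [0, 0, 0, 0, 0, 0, 1, 2, 2, 3, 3, 3, 4, 5, 5, 5, 5] [0, 0, 0, 0, 1, 1, 2, 3, 4, 4, 4, 4, 5, 5, 5, 5, 5] 17 8))) (0 + 2 * 32 ^ 258) 291 (15 - 2) 2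
    [-3, 3] = true := by
  decide +kernel

/-- 60399 nodes -/
theorem E7q15_2a_3 : pcv 1 (tl (tl (mk [0, 0, 0, 0, 0, 0, 1, 2, 2, 3, 3, 3, 4, 5, 5, 5, 5] [0, 0, 0, 0, 1, 1, 2, 3, 4, 4, 4, 4, 5, 5, 5, 5, 5] 17 8))) (0 + 2 * 32 ^ 258) 291 (15 - 2) 4
    [1, 0, 0, 0, 0, 0, 0, 0, 0, 0] = true := by
  decide +kernel

theorem E7q15_2a : pcv 1 (tl (mk [0, 0, 0, 0, 0, 0, 1, 2, 2, 3, 3, 3, 4, 5, 5, 5, 5] [0, 0, 0, 0, 1, 1, 2, 3, 4, 4, 4, 4, 5, 5, 5, 5, 5] 17 8)) (0) 258 (15) 2 [4] = true := by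
  have h := pcv_app (pcv_app (pcv_app E7q15_2a_0 (by decide) E7q15_2a_1) (by decide) E7q15_2a_2) (by decide) E7q15_2a_3
  exact pcv_one E7_8_hd2 (c := [22, -19, -3, 3, 1, 0, 0, 0, 0, 0, 0, 0, 0, 0]) (by decide) h (by decide)

end Pool.Agent.GaussPoset.Win.Ev

end

/-! From `Pool.Agent.W_448nl_h15.Nv15c` -/

section

/-! Values of the word E7 at the window 8, level 16 natural (kernel evaluation, in pieces). -/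

namespace Pool.Agent.GaussPoset.Win.Ev

set_option maxRecDepth 100000

theorem E7q15_2 : pcs 1 (tl (mk [0, 0, 0, 0, 0, 0, 1, 2, 2, 3, 3, 3, 4, 5, 5, 5, 5] [0, 0, 0, 0, 1, 1, 2, 3, 4, 4, 4, 4, 5, 5, 5, 5, 5] 17 8)) 258 15 2
    [4, -4, -2, 0, 0, 0, 0, 0, 0, 0, 0, 0, 0, 0] = true := by
  have h := pcv_app E7q15_2a (by decide) E7q15_2b
  exact pcs_of h

end Pool.Agent.GaussPoset.Win.Ev

end
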