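import Mathlib
import Pool.Agent.W_448zz_h61.Ns
import Pool.Agent.W_448zz_h61.M069
import Pool.Agent.W_448zz_h61.M070

/-! From `Pool.Agent.W_448nl_h15.NvX` -/

/-! Values of the word E7 at the window 8, level 16 natural (kernel evaluation, in pieces). -/

namespace Pool.Agent.GaussPoset.Win.Ev

set_option maxRecDepth 100000

theorem E7_8_X14 : okXs [0, 0, 0, 0, 0, 0, 1, 2, 2, 3, 3, 3, 4, 5, 5, 5, 5]
    [0, 0, 0, 0, 1, 1, 2, 3, 4, 4, 4, 4, 5, 5, 5, 5, 5] 17 8 1 14 = true := by decide +kernel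

theorem E7_8_Xv14 : ev 1 (mkX [0, 0, 0, 0, 0, 0, 1, 2, 2, 3, 3, 3, 4, 5, 5, 5, 5]
    [0, 0, 0, 0, 1, 1, 2, 3, 4, 4, 4, 4, 5, 5, 5, 5, 5] 17 8 [517]) 0 14 0 0 0 = 0 := by
  decide +kernel

theorem E7_8_Xv15 : ev 1 (mkX [0, 0, 0, 0, 0, 0, 1, 2, 2, 3, 3, 3, 4, 5, 5, 5, 5]
    [0, 0, 0, 0, 1, 1, 2, 3, 4, 4, 4, 4, 5, 5, 5, 5, 5] 17 8 [517]) 0 15 0 0 0 = 0 := by
  decide +kernel

theorem E7_8_X : okXs [0, 0, 0, 0, 0, 0, 1, 2, 2, 3, 3, 3, 4, 5, 5, 5, 5]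
    [0, 0, 0, 0, 1, 1, 2, 3, 4, 4, 4, 4, 5, 5, 5, 5, 5] 17 8 1 16 = true := by
  refine okXs_split E7_8_Xr E7_8_X14 fun n h1 h2 => ?_
  obtain rfl | rfl : n = 14 ∨ n = 15 := by omega
  · exact E7_8_Xv14
  · exact E7_8_Xv15

end Pool.Agent.GaussPoset.Win.Ev
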