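import Mathlib
import Pool.Agent.W_448zz_h61.Ns
import Pool.Agent.W_448zz_h61.M219

/-! From `Pool.Agent.W_448win_h80.R3A` -/

/-!
# The rotated rows with four sites, window `j`: the own part of the functional
`W# = <-1, 9, 1, 4, 3, -1, 2, 13, 0>` (MP_448cb3_co, G2)

`2 Lv - 3 F2 + 13 w32 + 2 #DE 1` is at least `2`, for every value of `w32`, if there is a private child
below `x 0`.
-/

set_option autoImplicit false

namespace Pool.Agent.GaussPoset.Win.W4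

set_option linter.unusedSectionVars false

open Finset
open Pool.Agent.GaussPoset.Win.SO (PN vp con on mem_PN vp_PD vp_PU)

universe u

variable {P : Type u} [Fintype P] [PartialOrder P] [DecidableEq P] {r i : ℕ}
variable {psi : P → P} {C K : Finset P} {w v : P} {x : ℕ → P}

/-- the arithmetic -/
lemma R3A_ar (n0 n1 n2 n2' n3 p1 : ℕ) (c1 c2 z s : ℤ) (h0 : n0 + n2' ≤ 1) (h1 : n1 ≤ 2)
    (h2 : n2 ≤ 2) (hp : p1 ≤ 1) (hq : n2' = 1 → p1 = 0)
    (hc1 : c1 ≤ 2 * s + n1 * (n1 - 1)) (hs : s ≤ if n1 = 0 then 0 else if n1 = 1 then 2 else 3)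
    (hc2 : (n2 : ℤ) * (n2 - 1) ≤ c2) (hz : 0 ≤ z) :
    2 ≤ 2 * ((-(n0 : ℤ) + n1 + (n2 - n2') + n3) + (-(n0 : ℤ) + n1 + (n2 - n2') + n3) ^ 2 -
      2 * (-(n0 : ℤ)) * (n2 - n2') - 2 * n1 * n3 -
      2 * p1 * (-(n0 : ℤ) + n1 + (n2 - n2') + n3) + ((p1 : ℤ) ^ 2 - p1) + 2 + 2 * 1 +
      2 * z - c1 + c2 - 2 * (-(n0 : ℤ) + (n2 - n2') - n1 - n3) -
      (n1 - (n2 - n2') - 1) * (4 + 2 * 1 + 2 * p1)) -
      3 * ((-(n0 : ℤ) + n1 + (n2 - n2') + n3) - p1) + 13 * (n1 - (n2 - n2') - 1) + 2 * n1 := by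
  have q3 : n3 = 0 ∨ n3 = 1 ∨ 2 ≤ n3 := by omega
  have f3 : (4 : ℤ) * n3 - 4 ≤ (n3 : ℤ) ^ 2 := by nlinarith [sq_nonneg ((n3 : ℤ) - 2)]
  have q0 : (n0 = 0 ∧ n2' = 0) ∨ (n0 = 1 ∧ n2' = 0) ∨ (n0 = 0 ∧ n2' = 1 ∧ p1 = 0) := by omega
  have q1 : n1 = 0 ∨ n1 = 1 ∨ n1 = 2 := by omega
  have q2 : n2 = 0 ∨ n2 = 1 ∨ n2 = 2 := by omega
  have qp : p1 = 0 ∨ p1 = 1 := by omega
  rcases q0 with ⟨rfl, rfl⟩ | ⟨rfl, rfl⟩ | ⟨rfl, rfl, rfl⟩
  · rcases q1 with rfl | rfl | rfl <;> rcases q2 with rfl | rfl | rfl <;>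
      rcases qp with rfl | rfl <;> norm_num at hc1 hs hc2 ⊢ <;>
      rcases q3 with rfl | rfl | q3 <;> first | (norm_num; linarith) | linarith | nlinarith
  · rcases q1 with rfl | rfl | rfl <;> rcases q2 with rfl | rfl | rfl <;>
      rcases qp with rfl | rfl <;> norm_num at hc1 hs hc2 ⊢ <;>
      rcases q3 with rfl | rfl | q3 <;> first | (norm_num; linarith) | linarith | nlinarith
  · rcases q1 with rfl | rfl | rfl <;> rcases q2 with rfl | rfl | rfl <;>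
      norm_num at hc1 hs hc2 ⊢ <;>
      rcases q3 with rfl | rfl | q3 <;> first | (norm_num; linarith) | linarith | nlinarith

namespace Rg

variable (h : Rg r i K psi C w v x)
include h

/-- (2,1) -/
lemma al2_val : I2.al 2 (st i C).card (ZS i C) =
    NE i C x 0 + NE i C x 1 + NE i C x 2 + NE i C x 3 - (pen (x 1)).card := by
  have n30 : x 3 ≠ x 0 := h.ne (by omega) (by omega) (by omega)
  have n01 : x 0 ≠ x 1 := h.ne (by omega) (by omega) (by omega)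
  have n31 : x 3 ≠ x 1 := h.ne (by omega) (by omega) (by omega)
  have a1 := h.Q.al2 h.hw h.hv n30 n01 n31
  have m1 : mm i K C {x 3, x 0} = 0 := by
    rw [h.mmx' (a := 0) (b := 3) (by omega) (by omega)]
    norm_num
  have m2 : mm i K C {x 0, x 1} = 0 := by
    rw [h.mmx (a := 0) (b := 1) (by omega) (by omega)]
    norm_num
  rw [m1, m2, h.dg1, h.dg3, h.sum_vp] at a1
  rw [a1]
  ring

/-- THE OWN PART AT THE WINDOW `j` of a rotated row with four sites -/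
theorem own2_ge (hp0 : pen (x 0) ≠ ∅) (hp1 : UE i C x 2 ≠ ∅ → pen (x 1) = ∅)
    (hU : ∀ z ∈ UE i C x 2, ch i C z ≤ 0) :
    2 ≤ 2 * Lv i C - 3 * I2.al 2 (st i C).card (ZS i C) + 13 * wv i C +
      2 * ((DE i C x 1).card : ℤ) := by
  classical
  have W := h.W
  have c1 : CH i C x 1 ≤ 2 * ∑ a ∈ DE i C x 1, ((pen a).card : ℤ) +
      (DE i C x 1).card * ((DE i C x 1).card - 1) := by
    rw [W.CH_split, W.sum_DE (by omega) h.dcv12, h.UE1, sum_empty, add_zero, mul_sum]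
  obtain ⟨b1, b2⟩ := W.sum_pen_le (k := 1) (by omega) h.dcv12
  obtain ⟨b3, -⟩ := W.sum_pen_le (k := 2) (by omega) h.dcv23
  have c2 : ((DE i C x 2).card : ℤ) * ((DE i C x 2).card - 1) ≤ CH i C x 2 := by
    rw [W.CH_split, W.sum_DE (by omega) h.dcv23]
    have g1 : 0 ≤ ∑ a ∈ DE i C x 2, (2 * ((pen a).card : ℤ)) :=
      sum_nonneg fun a _ => by positivity
    have g2 : 0 ≤ ∑ z ∈ UE i C x 2, vp i z * ch i C z := by
      refine sum_nonneg fun z hz => ?_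
      rw [vp_PU (mem_UE.1 hz).2.1]
      have := hU z hz
      linarith
    linarith
  have u02 := W.ue_sum (i := i) (C := C) 0 2 (by omega) (by omega) (by omega)
  have h9 := card_le_card (T4_subset i C)
  have hp0' := W.dc_le (k := 0) (by omega)
  have hd0 := h.deg0
  have hd1 := h.deg1
  have hp1' := W.dc_le (k := 1) (by omega)
  have p0 : (pen (x 0)).card = 1 := by
    have := card_pos.2 (nonempty_iff_ne_empty.2 hp0)
    omega
  have e2 : NE i C x 2 = ((DE i C x 2).card : ℤ) - (UE i C x 2).card := rfl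
  have hz : (0 : ℤ) ≤ (Z4 i C).card - (T4 i C).card := by
    have : ((T4 i C).card : ℤ) ≤ (Z4 i C).card := by exact_mod_cast h9
    linarith
  have key := R3A_ar (UE i C x 0).card (DE i C x 1).card (DE i C x 2).card (UE i C x 2).card
    (DE i C x 3).card (pen (x 1)).card (CH i C x 1) (CH i C x 2)
    ((Z4 i C).card - (T4 i C).card) (∑ a ∈ DE i C x 1, ((pen a).card : ℤ)) u02 b1 b3 (by omega)
    (fun h1 => by
      rw [hp1 (fun h2 => by rw [h2, card_empty] at h1; omega), card_empty]) c1 b2 c2 hz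
  rw [h.w3_eq, h.L_form, h.al2_val, h.NE0, h.NE1, e2, h.NE3, p0]
  push_cast
  linarith

end Rg

end Pool.Agent.GaussPoset.Win.W4
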