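import Mathlib
import Pool.Agent.W_448zz_h61.Ns
import Pool.Agent.W_448zz_h61.M163
import Pool.Agent.W_448zz_h61.M215
import Pool.Agent.W_448zz_h61.M255

/-! From `Pool.Agent.W_448cl_h64.ClJ` -/

section

/-!
CLOSED PAIRS AT ENERGY SIX (MP_448cb3_co, G2): the values `be 5`, `be 6` of a part with closed pairs.
-/

set_option autoImplicit false

namespace Pool.Agent.GaussPoset.Win.SO

set_option linter.unusedSectionVars false

open Finset
open Pool.Agent.GaussPoset.Win.I2 (lS uS mem_lS mem_uS side0_low)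
open Pool.Agent.GaussPoset.Win.So (TogL TogU RefL RefU RefD TgP cf dk cf_three cf_five cf_six
  cf_one coeff_dd c0_units)
open Pool.Agent.GaussPoset.Win.Xg (rk)

universe u

variable {P : Type u} [Fintype P] [PartialOrder P] [DecidableEq P] {r i : ℕ} {psi : P → P}
  {e : P → ℕ} {C : Finset P} {w w' x x' s z : P}

/-- a cone of the index set has at most one element of level `i + 2` with two covers -/
lemma con_dbl (H : Gr P r) (hz : z ∈ Chs i C ∨ z ∈ N1f i C ∨ z ∈ N5f i C)
    (hw : w ∈ con i z) (hw' : w' ∈ con i z) (lw : lev w = i + 2) (lw' : lev w' = i + 2)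
    (cw : (uc w).card = 2) (cw' : (uc w').card = 2) : w = w' := by
  -- one element
  have key : ∃ v, ∀ y, y ∈ con i z → lev y = i + 2 → (uc y).card = 2 → y = v := by
    have up : lev z < i → ∃ v, ∀ y, y ∈ con i z → lev y = i + 2 → (uc y).card = 2 → y = v := by
      intro h
      refine ⟨z, fun y hy ly _ => ?_⟩
      have := (con_upp H h hy).1
      omega
    have one : ∀ q : P, lev q = i + 2 → ∀ y, y ∈ con i q → lev y = i + 2 → y = q := by
      intro q lq y hy ly
      rw [con_two_low H lq, mem_insert] at hy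
      rcases hy with h | h
      · exact h
      · have := lev_uc H h
        omega
    rcases hz with hz | hz | hz
    · rcases Chs_cases H hz with ⟨h, hl⟩ | ⟨h, hl⟩ | ⟨h, hl⟩ | ⟨h, hl⟩
      · exact ⟨z, fun y hy ly _ => one z hl y hy ly⟩
      · exact up (by omega)
      · obtain ⟨p, y0, g1, g2, g3, g4, g5, g6⟩ := FL_data H h
        refine ⟨p, fun y hy ly _ => ?_⟩
        rw [con_FL H hl g1 g2] at hy
        simp only [mem_insert, mem_singleton] at hy
        rcases hy with rfl | h | rfl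
        · omega
        · exact h
        · omega
      · exact up (by omega)
    · rcases N1f_lev H hz with ⟨k, v, hv, hv2⟩ | ⟨k, -⟩
      · refine ⟨v, fun y hy ly _ => ?_⟩
        rw [con_rec_low H (by omega), hv2, singleton_biUnion, mem_insert] at hy
        rcases hy with rfl | hy
        · omega
        · exact one v (mem_ZL.1 hv).2.1 y hy ly
      · exact up (by omega)
    · rcases N5f_lev H hz with ⟨k, p, v, h0, h2, h3, h4⟩ | ⟨k, -⟩
      · refine ⟨v, fun y hy ly cy => ?_⟩
        rw [con_rec_low H (by omega), h3, biUnion_insert, singleton_biUnion, mem_insert,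
          mem_union] at hy
        rcases hy with rfl | hy | hy
        · omega
        · have h5 := one p (lev_PD h0).1 y hy ly
          rw [h5, (lev_PD h0).2] at cy
          omega
        · exact one v (mem_ZL.1 h2).2.1 y hy ly
      · exact up (by omega)
  obtain ⟨v, hv⟩ := key
  rw [hv w hw lw cw, hv w' hw' lw' cw']

/-- no closed pair in a configuration of the index set -/
theorem Psi_noClo (H : Gr P r) (hir : i ≤ r) {T : Finset P} (hT : T ∈ Ix i C) :
    ¬ Clo uc (tL (P := P) i) (lS P i) (Psi i C T) := by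
  rintro ⟨w, w', x, x', mw, mw', tw, tw', hww, xx', cw, cw', c2, c2', ew, ew'⟩
  rw [mem_lS] at mw mw'
  unfold tL at tw tw'
  have lw : lev w = i + 2 := by omega
  have lw' : lev w' = i + 2 := by omega
  have hw := (Psi_pos H hT).1 ew
  have hw' := (Psi_pos H hT).1 ew'
  rw [mem_biUnion] at hw hw'
  obtain ⟨z, hz, hwz⟩ := hw
  obtain ⟨z', hz', hwz'⟩ := hw'
  obtain ⟨d1, d2⟩ := Ix_data H hT
  by_cases hzz : z = z'
  · subst hzz
    have hty : z ∈ Chs i C ∨ z ∈ N1f i C ∨ z ∈ N5f i C := by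
      rcases mem_Ix.1 hT with h | ⟨v, hv, rfl⟩
      · exact Or.inl ((mem_PR.1 h).1 hz)
      · rw [mem_singleton] at hz
        subst hz
        exact Or.inr hv
    exact hww (con_dbl H hty hwz hwz' lw lw' (by rw [cw, card_pair xx'])
      (by rw [cw', card_pair xx']))
  · have hd := d2 z hz z' hz' hzz
    have h1 := sit_sub H (by have := (d1 z hz).1; omega) hwz
    have h2 := sit_sub H (by have := (d1 z' hz').1; omega) hwz'
    have h3 : sit i w = sit i w' := by
      rw [sit_low H (by omega), sit_low H (by omega)]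
      ext v
      rw [mem_sts_iff H lw, mem_sts_iff H lw', cw, cw']
    obtain ⟨v, hv⟩ := sit_ne H hir (y := w) (by omega)
    exact disjoint_left.1 hd (h1 hv) (h2 (by rw [← h3]; exact hv))

/-- the configurations of the index set are leftover configurations -/
theorem PS7.Psi_LO6 (Q : PS7 r i psi C) (hb : 1 ≤ (st i C).card) {T : Finset P}
    (hT : T ∈ Ix i C) :
    LO6 uc dc (tL (P := P) i) (tU i) (lS P i) (uS P i) (Psi i C T) := by
  have hir : i ≤ r := by have := Q.hi2; omega
  obtain ⟨h1, h2⟩ := val_ne Q.toPSO hT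
  have hs := Psi_spt Q.H Q.hC hT
  rcases Q.cls hs (Psi_core Q.H hT) h1.le with h | ⟨-, h, w, s, ⟨x, x', a, b, G, -⟩ |
    ⟨x, x', a, b, G, -⟩⟩ | ⟨y, p, u, p', g1, g2, g3, D, R⟩ | h | h
  · exact absurd (cheap_coeff Q.H Q.hC hs h hb) h2
  · exact absurd G (Psi_noTogL Q.H hT)
  · exact absurd G (Psi_noTogU Q.H hT)
  · obtain ⟨k1, k2⟩ := Psi_noRef Q.H hir hT D
    rcases R with R | R
    · exact absurd R k1
    · exact absurd R k2
  · exact h.2.2.2.2
  · exact absurd h.1 (Psi_noClo Q.H hir hT)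

/-- sums over the leftover configurations of energy six -/
theorem PS7.sum_LO6 (Q : PS7 r i psi C) (hb : 1 ≤ (st i C).card) {M : Type*} [AddCommMonoid M]
    (f : (P → ℕ) → M) [DecidablePred (LO6 uc dc (tL (P := P) i) (tU i) (lS P i) (uS P i))] :
    ∑ e ∈ (C.piAntidiag 6).filter (LO6 uc dc (tL (P := P) i) (tU i) (lS P i) (uS P i)), f e =
      ∑ T ∈ Ix i C, f (Psi i C T) := by
  classical
  have hir : i ≤ r := by have := Q.hi2; omega
  have h1 : (C.piAntidiag 6).filter (LO6 uc dc (tL (P := P) i) (tU i) (lS P i) (uS P i)) =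
      (Ix i C).image (Psi i C) := by
    ext e
    rw [mem_filter, mem_image, mem_piA]
    constructor
    · rintro ⟨⟨g1, g2⟩, g3⟩
      exact LO6_index Q.toPSO g2 g3
    · rintro ⟨T, hT, rfl⟩
      exact ⟨⟨(val_ne Q.toPSO hT).1, Psi_spt Q.H Q.hC hT⟩, Q.Psi_LO6 hb hT⟩
  rw [h1, sum_image]
  intro T hT T' hT' h
  exact Psi_inj Q.H hir hT hT' h

/-- the environment number of a closed pair -/
noncomputable def envc (i : ℕ) (C : Finset P) (w : P) : ℤ :=
  (nLc i C w).card + (n2c i C w).card + (nUc i C w).card + (chc i C w).card - 2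

/-- the coefficient at the energy one -/
lemma cf_one_eq (H : Gr P r) (hir : i ≤ r) (hC : Part i C) (b : ℕ) :
    cf 1 b (ZS i C) = ∑ z ∈ C, PowerSeries.coeff b (tC i C (Pi.single z 1) : A) := by
  classical
  rw [cf_one, coeff_ZS, ← map_sum]
  congr 1
  unfold ZC
  rw [So.sum_pa_one]

/-- the coefficient of a difference with many factors -/
lemma be_of_dvd {V : PowerSeries A} {n b : ℕ} (hb : 1 ≤ b) {X : A}
    (h : dd ^ (b - 1) ∣ PowerSeries.coeff n V - X) :
    I2.be n b V = PowerSeries.coeff b (dd ^ 2 * X : A) := by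
  unfold I2.be
  rw [← sub_eq_zero, ← map_sub, ← mul_sub]
  apply I2.coeff_eq_zero_of_dvd
  have h1 := mul_dvd_mul_left (dd ^ 2) h
  rw [← pow_add] at h1
  exact (pow_dvd_pow dd (by omega)).trans h1

/-- the value of the labelling of type A -/
lemma CP.value (H : Gr P r) (hir : i ≤ r) (hC : Part (i + 1) C) (D : CP i w w' x x' s)
    (hw : w ∈ C) (hw' : w' ∈ C) :
    PowerSeries.coeff (st i C).card (dd ^ 2 * tC i C (Aw w) : A) = -1 := by
  classical
  have l := D.lv H
  have D1 : LowD i (Aw w) {x, x'} {w'} (uc x ∪ uc x') := by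
    have key := D.low H (f := Aw w) (X := ∅) (D.aw_w H) (by rw [D.aw_w' H]) (D.aw_x H)
      (D.aw_x' H) (fun y _ a1 a2 a3 a4 _ => D.aw_zero H a1 a2 a3 a4)
      (fun y hy => absurd hy (notMem_empty y)) (fun y hy => absurd hy (notMem_empty y))
      (fun v hv => D.aw_low H (D.T.site H hv).le) (fun y hy => absurd hy (notMem_empty y))
    simpa using key
  have D2 : UppD i (Aw w) ∅ ∅ ∅ := upp_none H hir fun y hy => D.aw_low H hy.le
  rw [coeff_tC2 H hC (D.aw_spt H hC hw hw') D1 D2 (disjoint_empty_right _) (by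
    rw [D.three]; simp), D.three, card_pair D.T.ne]
  norm_num

/-- THE VALUE OF (5,2) of a part with closed pairs -/
theorem PS7.be5 (Q : PS7 r i psi C) (hb : 1 ≤ (st i C).card) :
    I2.be 5 (st i C).card (ZS i C) = - ((CQ i C).card : ℤ) := by
  classical
  have H := Q.H
  have hir : i ≤ r := by have := Q.hi2; omega
  have h1 := Q.main5 (n := 5) le_rfl
  rw [la_five Q (tC i C), ← coeff_ZS] at h1
  rw [be_of_dvd hb h1, mul_sum, map_sum]
  rw [sum_congr rfl fun w hw => ?_, sum_const, nsmul_eq_mul, mul_neg_one]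
  obtain ⟨hwC, w', x, x', s, hwC', D⟩ := mem_CQ.1 hw
  exact D.value H hir Q.hC hwC hwC'

/-- THE VALUE OF (6,2) of a part with closed pairs -/
theorem PS7.be6 (Q : PS7 r i psi C) (hb : 1 ≤ (st i C).card) :
    I2.be 6 (st i C).card (ZS i C) =
      ∑ T ∈ PR i C, ∏ z ∈ T, chg i C z - (N1f i C).card - (N5f i C).card -
        (CQ i C).card * cf 1 (st i C).card (ZS i C) - ∑ w ∈ CQ i C, envc i C w := by
  classical
  have H := Q.H
  have hir : i ≤ r := by have := Q.hi2; omega
  have h0 := Q.main6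
  rw [← coeff_ZS] at h0
  rw [be_of_dvd hb h0, mul_add, map_add, mul_sum, map_sum, mul_sum, map_sum]
  have h1 : ∑ e ∈ (C.piAntidiag 6).filter
      (LO6 uc dc (tL (P := P) i) (tU i) (lS P i) (uS P i)),
        PowerSeries.coeff (st i C).card (dd ^ 2 * tC i C e : A) =
      ∑ T ∈ PR i C, ∏ z ∈ T, chg i C z - (N1f i C).card - (N5f i C).card := by
    rw [Q.sum_LO6 hb, sum_Ix H]
    have k1 : ∑ T ∈ PR i C, PowerSeries.coeff (st i C).card (dd ^ 2 * tC i C (Psi i C T) : A) =
        ∑ T ∈ PR i C, ∏ z ∈ T, chg i C z :=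
      sum_congr rfl fun T hT => (PR_value H Q.hi Q.hi2 Q.hC hT).2
    have k2 : ∑ z ∈ N1f i C, PowerSeries.coeff (st i C).card
        (dd ^ 2 * tC i C (Psi i C {z}) : A) = ∑ z ∈ N1f i C, (-1 : ℤ) :=
      sum_congr rfl fun z hz => (N1_value Q.toPSO hz).2
    have k3 : ∑ z ∈ N5f i C, PowerSeries.coeff (st i C).card
        (dd ^ 2 * tC i C (Psi i C {z}) : A) = ∑ z ∈ N5f i C, (-1 : ℤ) :=
      sum_congr rfl fun z hz => (N5_value H Q.hi Q.hi2 Q.hC hz).2
    rw [k1, k2, k3, sum_const, sum_const]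
    simp only [nsmul_eq_mul]
    ring
  have hT : cf 1 (st i C).card (ZS i C) = ∑ z ∈ C, unv i C z := cf_one_eq H hir Q.hC.pred _
  have h2 : ∑ w ∈ CQ i C, PowerSeries.coeff (st i C).card
      (dd ^ 2 * ∑ z ∈ C, tC i C (Aw w + Pi.single z 1) : A) =
      ∑ w ∈ CQ i C, (- cf 1 (st i C).card (ZS i C) - envc i C w) := by
    refine sum_congr rfl fun w hw => ?_
    obtain ⟨hwC, w', x, x', s, hwC', D⟩ := mem_CQ.1 hw
    have h3 := cl_sum H hir Q.hC Q.hM D hwC hwC'
    rw [mul_sum, map_sum, hT]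
    unfold envc
    have h4 : ∑ z ∈ C, PowerSeries.coeff (st i C).card
        (dd ^ 2 * tC i C (Aw w + Pi.single z 1) : A) = ∑ z ∈ C, phv i C w z := rfl
    rw [h4]
    linarith
  rw [h1, h2, sum_sub_distrib, sum_const, nsmul_eq_mul]
  ring

/-- THE SECOND ORDER IDENTITY of a part with closed pairs -/
theorem PS7.Q6 (Q : PS7 r i psi C) (hb : 1 ≤ (st i C).card)
    (h3 : I2.al 3 (st i C).card (ZS i C) = ∑ z ∈ Chs i C, chg i C z) :
    So.Q6 (st i C).card (ZS i C) =
      QQ i C + 2 * (N1f i C).card + 2 * (N5f i C).card + 2 * ∑ w ∈ CQ i C, envc i C w := by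
  have hir : i ≤ r := by have := Q.hi2; omega
  unfold So.Q6
  rw [cf_three, cf_five, cf_six, Q.be6 hb, Q.be5 hb, ← sq_QQ Q.H hir, h3]
  ring

end Pool.Agent.GaussPoset.Win.SO

end

/-! From `Pool.Agent.W_448cl_h64.ClK` -/

section

/-!
CLOSED PAIRS AT ENERGY SIX (MP_448cb3_co, G2): all parts without a flip in case B, window `j - 1`.
-/

set_option autoImplicit false

namespace Pool.Agent.GaussPoset.Win.Pn

set_option linter.unusedSectionVars false

open Finset W4 Wd
open Pool.Agent.GaussPoset.Win.SO (PS7 F5 CQ envc N1f N5f)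

universe u

variable {P : Type u} [Fintype P] [PartialOrder P] [DecidableEq P] {r j i : ℕ}
  {psi : P → P}

section nj

variable (h : NJ P r j) (hij : i + 1 = j) (hi1 : 1 ≤ i)
include h hij hi1

/-- the frame of a component -/
theorem nj_cm5 (t : Tops P) : ∃ lo hi e, Cp.Comp j (t : P) lo hi e ∧
    Cm5 P r i (t : P) lo hi e (SS i t) := by
  subst hij
  obtain ⟨lo, hi, e, Cm⟩ := Cp.comp_exists h.g.H t.2 h.g.hr h.g.good
  refine ⟨lo, hi, e, Cm, ?_⟩
  have K := cm5_no h.g hi1 h.no t Cm.toWin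
  rwa [show i + 2 = (i + 1) + 1 by omega, h.cext_eq (i := i) (by omega) t] at K

/-- every part without a flip -/
theorem nj_ps7 (hM : Mat P i ∅ psi) (t : Tops P) (hF : F5 i (SS i t) = ∅) :
    PS7 r i psi (SS i t) := by
  obtain ⟨lo, hi, e, Cm, K⟩ := nj_cm5 h hij hi1 t
  have Q := K.ps5 hM
  have hm := (nj_mtc h hij hi1 hM t hF).out
  refine ⟨Q.toPSO, Q.ncu, ?_, ?_⟩
  · intro p hp hpd
    rcases hm with hm | ⟨z, x, y, u, a1, a2, a3, a4, a5, a6, a7, a8, a9, a10, a11⟩
    · exact absurd hpd (hm p hp).1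
    · have e1 := a9 p hp hpd
      subst e1
      exact ⟨y, a5, x, a2, a4, by rw [a6, a11]⟩
  · intro p hp hpu
    rcases hm with hm | ⟨z, x, y, u, a1, a2, a3, a4, a5, a6, a7, a8, a9, a10, a11⟩
    · exact absurd hpu (hm p hp).2
    · have e1 := a10 p hp hpu
      subst e1
      refine ⟨u, a6, z, a1, a3, ?_⟩
      have hl := lev_uc h.g.H (x := z) (v := y) (by rw [a5]; simp)
      have hz := (mem_PD.1 a3).1
      have hdb : y ∈ dbL P i := mem_dbL.2 ⟨by omega, a8⟩
      have h1 := (hM.invol y (mem_union_left _ hdb) (notMem_empty y)).1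
      rw [a5, ← a11, h1]

/-- the total charge -/
theorem nj_chg (t : Tops P) (hF : F5 i (SS i t) = ∅) :
    I2.al 3 (st i (SS i t)).card (ZS i (SS i t)) = ∑ z ∈ Chs i (SS i t), chg i (SS i t) z := by
  classical
  rw [nj_al3 h hij hi1 t hF]
  have h5 := sum_chg (S := SS i t) h.g.H (i := i) (fun _ => True)
  simp only [filter_true] at h5
  rw [h5]
  ring

/-- THE SECOND ORDER VALUE of every part without a flip, case B, window `j - 1` -/
theorem nj_Q6 (t : Tops P) (hF : F5 i (SS i t) = ∅) :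
    So.Q6 (st i (SS i t)).card (ZS i (SS i t)) =
      QQ i (SS i t) + 2 * (N1f i (SS i t)).card + 2 * (N5f i (SS i t)).card +
        2 * ∑ w ∈ CQ i (SS i t), envc i (SS i t) w := by
  obtain ⟨psi, hM⟩ := good_mat h.g.H (h.g.good i (by omega))
  exact (nj_ps7 h hij hi1 hM t hF).Q6 (card_pos.2 (nj_st h hij t)) (nj_chg h hij hi1 t hF)

/-- THE (5,2) VALUE by the closed pairs -/
theorem nj_be5_CQ (t : Tops P) (hF : F5 i (SS i t) = ∅) :
    I2.be 5 (st i (SS i t)).card (ZS i (SS i t)) = - ((CQ i (SS i t)).card : ℤ) := by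
  obtain ⟨psi, hM⟩ := good_mat h.g.H (h.g.good i (by omega))
  exact (nj_ps7 h hij hi1 hM t hF).be5 (card_pos.2 (nj_st h hij t))

end nj

end Pool.Agent.GaussPoset.Win.Pn

end

/-! From `Pool.Agent.W_448cl_h64.ClL` -/

section

/-!
CLOSED PAIRS AT ENERGY SIX (MP_448cb3_co, G2): the environment of a closed pair in the coordinates of
the component.
-/

set_option autoImplicit false

namespace Pool.Agent.GaussPoset.Win.Pn

set_option linter.unusedSectionVars false

open Finset W4 Wd
open Pool.Agent.GaussPoset.Win.SO (PS7 F5 CQ envc N1f N5f CP mem_CQ nLc nUc n2c chc mem_nLc mem_nUc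
  mem_n2c mem_chc sit_td_low)

universe u

variable {P : Type u} [Fintype P] [PartialOrder P] [DecidableEq P] {r j i : ℕ}
  {psi : P → P} {t : P} {lo hi : ℕ → ℕ} {e : ℕ → ℕ → P} {S : Finset P} {w : P}

/-- the place of a closed pair in a component: the doubles are `e (i+1) (b+1)`, `e (i+1) (b+2)` -/
structure ClP (i : ℕ) (lo hi : ℕ → ℕ) (e : ℕ → ℕ → P) (w : P) (b : ℕ) : Prop where
  l1 : lo i ≤ b
  h1 : b + 2 ≤ hi i
  l2 : lo (i + 1) ≤ b + 1
  h2 : b + 2 ≤ hi (i + 1)
  uw : uc w = {e (i + 1) (b + 1), e (i + 1) (b + 2)}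
  sw : sit i w = {e i b, e i (b + 1), e i (b + 2)}
  lw : lev w = i + 2

section comp

variable (K : Cm5 P r i t lo hi e S) (C : Cp.Comp (i + 1) t lo hi e)
include K C

/-- elements of the part up to the level `i + 1` -/
lemma cl_mem {k a : ℕ} (hk : k ≤ i + 1) (h1 : lo k ≤ a) (h2 : a ≤ hi k) : e k a ∈ S :=
  (K.hS _ (by rw [C.lev_e k a hk h1 h2]; omega)).2 (C.le_t k a hk h1 h2)

lemma cl_surj {z : P} (hz : z ∈ S) (hl : lev z ≤ i + 1) :
    ∃ a, lo (lev z) ≤ a ∧ a ≤ hi (lev z) ∧ e (lev z) a = z :=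
  C.surj z ((K.hS z (by omega)).1 hz) hl

/-- the upper covers -/
lemma cl_uc {k a : ℕ} (hk : k ≤ i) (h1 : lo (k + 1) ≤ a) (h2 : a ≤ hi (k + 1)) {v : P} :
    v ∈ uc (e (k + 1) a) ↔ ∃ c, lo k ≤ c ∧ c ≤ hi k ∧ e k c = v ∧ (c = a ∨ c + 1 = a) := by
  have hm := cl_mem K C (k := k + 1) (by omega) h1 h2
  have hl := C.lev_e (k + 1) a (by omega) h1 h2
  rw [mem_uc]
  constructor
  · intro hv
    have lv1 := lev_cov K.g.H hv
    have hvS := K.part.up hm hv
    obtain ⟨c, c1, c2, c3⟩ := cl_surj K C hvS (by omega)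
    have lv2 : lev v = k := by omega
    rw [lv2] at c1 c2 c3
    refine ⟨c, c1, c2, c3, ?_⟩
    rw [← c3] at hv
    exact (C.cov k a c (by omega) h1 h2 c1 c2).1 hv
  · rintro ⟨c, c1, c2, rfl, c4⟩
    exact (C.cov k a c (by omega) h1 h2 c1 c2).2 c4

/-- a closed pair has a place -/
theorem cl_place (hw : w ∈ CQ i S) : ∃ b, ClP i lo hi e w b := by
  classical
  have H := K.g.H
  obtain ⟨hwS, w', x, x', s, hwS', D⟩ := mem_CQ.1 hw
  -- the ordered case
  have key : ∀ (x x' s : P), CP i w w' x x' s → ∀ a a' : ℕ, lo (i + 1) ≤ a → a < a' →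
      a' ≤ hi (i + 1) → e (i + 1) a = x → e (i + 1) a' = x' → ∃ b, ClP i lo hi e w b := by
    intro x x' s D a a' a1 a2 a3 hx hx'
    have l := D.lv H
    have s1 := (cl_uc K C (le_refl i) a1 (by omega)).1 (show s ∈ uc (e (i + 1) a) by
      rw [hx]; exact D.T.sx)
    have s2 := (cl_uc K C (le_refl i) (by omega) a3).1 (show s ∈ uc (e (i + 1) a') by
      rw [hx']; exact D.T.sx')
    obtain ⟨c, c1, c2, c3, c4⟩ := s1
    obtain ⟨c', c1', c2', c3', c4'⟩ := s2
    have hcc := C.inj i c c' (by omega) c1 c2 c1' c2' (by rw [c3, c3'])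
    subst hcc
    have ha : c = a := by omega
    have ha' : a' = a + 1 := by omega
    subst ha ha'
    -- two covers
    have hlo : lo i ≤ c - 1 ∧ 1 ≤ c := by
      by_contra hcon
      have h1 : uc (e (i + 1) c) ⊆ {e i c} := by
        intro v hv
        obtain ⟨d, d1, d2, d3, d4⟩ := (cl_uc K C (le_refl i) a1 (by omega)).1 hv
        have : d = c := by omega
        rw [mem_singleton, ← d3, this]
      have h2 := card_le_card h1
      rw [hx, D.T.cx, card_singleton] at h2
      omega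
    have hhi : c + 1 ≤ hi i := by
      by_contra hcon
      have h1 : uc (e (i + 1) (c + 1)) ⊆ {e i c} := by
        intro v hv
        obtain ⟨d, d1, d2, d3, d4⟩ := (cl_uc K C (le_refl i) (by omega) a3).1 hv
        have : d = c := by omega
        rw [mem_singleton, ← d3, this]
      have h2 := card_le_card h1
      rw [hx', D.T.cx', card_singleton] at h2
      omega
    obtain ⟨b, rfl⟩ : ∃ b, c = b + 1 := ⟨c - 1, by omega⟩
    refine ⟨b, by omega, by omega, by omega, by omega, ?_, ?_, l.1⟩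
    · rw [D.T.cw, ← hx, ← hx']
    · rw [sit_td_low H D.T, ← hx, ← hx']
      ext v
      rw [mem_union, cl_uc K C (le_refl i) a1 (by omega),
        cl_uc K C (le_refl i) (by omega) a3]
      simp only [mem_insert, mem_singleton]
      constructor
      · rintro (⟨d, d1, d2, rfl, rfl | d4⟩ | ⟨d, d1, d2, rfl, rfl | d4⟩)
        · tauto
        · have : d = b := by omega
          rw [this]; tauto
        · tauto
        · have : d = b + 1 := by omega
          rw [this]; tauto
      · rintro (rfl | rfl | rfl)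
        · exact Or.inl ⟨b, by omega, by omega, rfl, Or.inr rfl⟩
        · exact Or.inl ⟨b + 1, by omega, by omega, rfl, Or.inl rfl⟩
        · exact Or.inr ⟨b + 2, by omega, by omega, rfl, Or.inl rfl⟩
  obtain ⟨hxS, hxS'⟩ := D.mem H K.part hwS
  have l := D.lv H
  obtain ⟨a, a1, a2, a3⟩ := cl_surj K C hxS (by omega)
  obtain ⟨a', a1', a2', a3'⟩ := cl_surj K C hxS' (by omega)
  rw [l.2.2.1] at a1 a2 a3
  rw [l.2.2.2.1] at a1' a2' a3'
  rcases Nat.lt_trichotomy a a' with hlt | heq | hlt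
  · exact key x x' s D a a' a1 hlt a2' a3 a3'
  · exfalso
    subst heq
    exact D.T.ne (a3.symm.trans a3')
  · exact key x' x s D.symm a' a a1' hlt a2 a3' a3

/-- the near lower elements -/
theorem cl_nLc {b : ℕ} (B : ClP i lo hi e w b) :
    nLc i S w = ((Icc (lo (i + 1)) (hi (i + 1))).filter (fun a => b ≤ a ∧ a ≤ b + 3)).image
      (e (i + 1)) := by
  classical
  have b1 := B.l1
  have b2 := B.h1
  ext z
  rw [mem_nLc, mem_image, B.sw]
  constructor
  · rintro ⟨hz, hl, hd⟩
    obtain ⟨a, a1, a2, a3⟩ := cl_surj K C hz (by omega)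
    rw [hl] at a1 a2 a3
    refine ⟨a, ?_, a3⟩
    rw [mem_filter, mem_Icc]
    refine ⟨⟨a1, a2⟩, ?_⟩
    rw [not_disjoint_iff] at hd
    obtain ⟨v, hv, hv'⟩ := hd
    rw [← a3, cl_uc K C (le_refl i) a1 a2] at hv
    obtain ⟨c, c1, c2, c3, c4⟩ := hv
    simp only [mem_insert, mem_singleton] at hv'
    rcases hv' with hv' | hv' | hv'
    · have := C.inj i c b (by omega) c1 c2 (by omega) (by omega) (by rw [c3, hv'])
      omega
    · have := C.inj i c (b + 1) (by omega) c1 c2 (by omega) (by omega) (by rw [c3, hv'])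
      omega
    · have := C.inj i c (b + 2) (by omega) c1 c2 (by omega) (by omega) (by rw [c3, hv'])
      omega
  · rintro ⟨a, ha, rfl⟩
    rw [mem_filter, mem_Icc] at ha
    refine ⟨cl_mem K C le_rfl ha.1.1 ha.1.2, C.lev_e _ _ le_rfl ha.1.1 ha.1.2, ?_⟩
    rw [not_disjoint_iff]
    have h4 : a = b ∨ a = b + 1 ∨ a = b + 2 ∨ a = b + 3 := by omega
    rcases h4 with rfl | rfl | rfl | rfl
    · exact ⟨e i a, (cl_uc K C (le_refl i) ha.1.1 ha.1.2).2 ⟨a, by omega, by omega, rfl,
        Or.inl rfl⟩, by simp⟩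
    · exact ⟨e i (b + 1), (cl_uc K C (le_refl i) ha.1.1 ha.1.2).2 ⟨b + 1, by omega, by omega,
        rfl, Or.inl rfl⟩, by simp⟩
    · exact ⟨e i (b + 2), (cl_uc K C (le_refl i) ha.1.1 ha.1.2).2 ⟨b + 2, by omega, by omega,
        rfl, Or.inl rfl⟩, by simp⟩
    · exact ⟨e i (b + 2), (cl_uc K C (le_refl i) ha.1.1 ha.1.2).2 ⟨b + 2, by omega, by omega,
        rfl, Or.inr rfl⟩, by simp⟩

/-- the number of near lower elements -/
theorem cl_nLc_card {b : ℕ} (B : ClP i lo hi e w b) :
    (nLc i S w).card = 2 + (if lo (i + 1) ≤ b then 1 else 0) +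
      (if b + 3 ≤ hi (i + 1) then 1 else 0) := by
  classical
  have b3 := B.l2
  have b4 := B.h2
  rw [cl_nLc K C B, card_image_of_injOn]
  · have h1 : (Icc (lo (i + 1)) (hi (i + 1))).filter (fun a => b ≤ a ∧ a ≤ b + 3) =
        Icc (max (lo (i + 1)) b) (min (hi (i + 1)) (b + 3)) := by
      ext a
      rw [mem_filter, mem_Icc, mem_Icc]
      omega
    rw [h1, Nat.card_Icc]
    split_ifs <;> omega
  · intro a ha a' ha' h
    rw [mem_coe, mem_filter, mem_Icc] at ha ha'
    exact C.inj _ _ _ le_rfl ha.1.1 ha.1.2 ha'.1.1 ha'.1.2 h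

/-- the near upper elements -/
theorem cl_nUc {b k : ℕ} (hk : i = k + 1) (B : ClP i lo hi e w b) :
    nUc i S w = ((Icc (lo k) (hi k)).filter (fun a => b ≤ a + 1 ∧ a ≤ b + 2)).image (e k) := by
  classical
  have H := K.g.H
  have b1 := B.l1
  have b2 := B.h1
  subst hk
  ext z
  rw [mem_nUc, mem_image, B.sw]
  constructor
  · rintro ⟨hz, hl, hd⟩
    obtain ⟨a, a1, a2, a3⟩ := cl_surj K C hz (by omega)
    rw [show lev z = k by omega] at a1 a2 a3
    refine ⟨a, ?_, a3⟩
    rw [mem_filter, mem_Icc]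
    refine ⟨⟨a1, a2⟩, ?_⟩
    rw [not_disjoint_iff] at hd
    obtain ⟨v, hv, hv'⟩ := hd
    have hc : ∀ c, lo (k + 1) ≤ c → c ≤ hi (k + 1) → e (k + 1) c = v → a = c ∨ a + 1 = c := by
      intro c c1 c2 c3
      rw [mem_dc, ← a3, ← c3] at hv
      exact (C.cov k c a (by omega) c1 c2 a1 a2).1 hv
    simp only [mem_insert, mem_singleton] at hv'
    rcases hv' with hv' | hv' | hv'
    · have := hc b (by omega) (by omega) hv'.symm
      omega
    · have := hc (b + 1) (by omega) (by omega) hv'.symm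
      omega
    · have := hc (b + 2) (by omega) (by omega) hv'.symm
      omega
  · rintro ⟨a, ha, rfl⟩
    rw [mem_filter, mem_Icc] at ha
    refine ⟨cl_mem K C (by omega) ha.1.1 ha.1.2, ?_, ?_⟩
    · rw [C.lev_e _ _ (by omega) ha.1.1 ha.1.2]
    rw [not_disjoint_iff]
    have hc : ∀ c, lo (k + 1) ≤ c → c ≤ hi (k + 1) → (a = c ∨ a + 1 = c) →
        e (k + 1) c ∈ dc (e k a) := by
      intro c c1 c2 c3
      rw [mem_dc]
      exact (C.cov k c a (by omega) c1 c2 ha.1.1 ha.1.2).2 c3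
    have h4 : a + 1 = b ∨ a = b ∨ a = b + 1 ∨ a = b + 2 := by omega
    rcases h4 with h4 | h4 | h4 | h4
    · exact ⟨_, hc b (by omega) (by omega) (by omega), by simp⟩
    · exact ⟨_, hc b (by omega) (by omega) (by omega), by simp⟩
    · exact ⟨_, hc (b + 1) (by omega) (by omega) (by omega), by simp⟩
    · exact ⟨_, hc (b + 2) (by omega) (by omega) (by omega), by simp⟩

/-- the number of near upper elements -/
theorem cl_nUc_card {b k : ℕ} (hk : i = k + 1) (B : ClP i lo hi e w b) :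
    (nUc i S w).card = 2 + (if lo k < b then 1 else 0) + (if b + 2 ≤ hi k then 1 else 0) := by
  classical
  have b1 := B.l1
  have b2 := B.h1
  have hs := C.lo_step k (by omega)
  have hs' := C.hi_step k (by omega)
  subst hk
  rw [cl_nUc K C rfl B, card_image_of_injOn]
  · have h1 : (Icc (lo k) (hi k)).filter (fun a => b ≤ a + 1 ∧ a ≤ b + 2) =
        Icc (max (lo k) (b - 1)) (min (hi k) (b + 2)) := by
      ext a
      rw [mem_filter, mem_Icc, mem_Icc]
      omega
    rw [h1, Nat.card_Icc]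
    split_ifs <;> omega
  · intro a ha a' ha' h
    rw [mem_coe, mem_filter, mem_Icc] at ha ha'
    exact C.inj _ _ _ (by omega) ha.1.1 ha.1.2 ha'.1.1 ha'.1.2 h

/-- no third element with two sites above the pair, except over three sites -/
theorem cl_n2c {b : ℕ} (B : ClP i lo hi e w b) : n2c i S w = ∅ := by
  classical
  rw [eq_empty_iff_forall_notMem]
  intro z hz
  obtain ⟨hzS, hl, hn, hc, hsub⟩ := mem_n2c.1 hz
  obtain ⟨a, a1, a2, a3⟩ := cl_surj K C hzS (by omega)
  rw [hl] at a1 a2 a3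
  have b1 := B.l1
  have b2 := B.h1
  -- the two covers are `e i (a-1)` and `e i a`
  have hcov : ∀ v ∈ uc z, ∃ c, lo i ≤ c ∧ c ≤ hi i ∧ e i c = v ∧ (c = a ∨ c + 1 = a) := by
    intro v hv
    rw [← a3] at hv
    exact (cl_uc K C (le_refl i) a1 a2).1 hv
  have hin : ∀ c, lo i ≤ c → c ≤ hi i → (c = a ∨ c + 1 = a) → b ≤ c ∧ c ≤ b + 2 := by
    intro c c1 c2 c3
    have h1 : e i c ∈ uc z := by
      rw [← a3]
      exact (cl_uc K C (le_refl i) a1 a2).2 ⟨c, c1, c2, rfl, c3⟩
    have h2 := hsub h1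
    rw [B.sw] at h2
    simp only [mem_insert, mem_singleton] at h2
    rcases h2 with h2 | h2 | h2
    · have := C.inj i _ _ (by omega) c1 c2 (by omega) (by omega) h2
      omega
    · have := C.inj i _ _ (by omega) c1 c2 (by omega) (by omega) h2
      omega
    · have := C.inj i _ _ (by omega) c1 c2 (by omega) (by omega) h2
      omega
  obtain ⟨v, v', hne, hvv⟩ := card_eq_two.1 hc
  obtain ⟨c, c1, c2, c3, c4⟩ := hcov v (by rw [hvv]; simp)
  obtain ⟨c', c1', c2', c3', c4'⟩ := hcov v' (by rw [hvv]; simp)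
  have hcc : c ≠ c' := by
    rintro rfl
    exact hne (c3.symm.trans c3')
  have k1 := hin c c1 c2 c4
  have k2 := hin c' c1' c2' c4'
  apply hn
  rw [B.uw, mem_insert, mem_singleton, ← a3]
  have : a = b + 1 ∨ a = b + 2 := by omega
  rcases this with rfl | rfl
  · exact Or.inl rfl
  · exact Or.inr rfl

/-- THE ENVIRONMENT of a closed pair in coordinates -/
theorem cl_env {b k : ℕ} (hk : i = k + 1) (B : ClP i lo hi e w b) :
    envc i S w = 2 + (if lo (i + 1) ≤ b then 1 else 0) + (if b + 3 ≤ hi (i + 1) then 1 else 0) +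
      (if lo k < b then 1 else 0) + (if b + 2 ≤ hi k then 1 else 0) + (chc i S w).card := by
  unfold envc
  rw [cl_nLc_card K C B, cl_nUc_card K C hk B, cl_n2c K C B, card_empty]
  push_cast
  ring

/-- the bound for at least four sites -/
theorem cl_env_ge {b : ℕ} (h4 : lo i + 3 ≤ hi i) (B : ClP i lo hi e w b) :
    4 + ((chc i S w).card : ℤ) ≤ envc i S w := by
  have hi1 := K.i1
  obtain ⟨k, hk⟩ : ∃ k, i = k + 1 := ⟨i - 1, by omega⟩
  rw [cl_env K C hk B]
  have b1 := B.l1
  have b2 := B.h1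
  have hs := C.lo_step k (by omega)
  have hs' := C.hi_step k (by omega)
  have hs2 := C.lo_step i (by omega)
  have hs2' := C.hi_step i (by omega)
  rw [← hk] at hs hs'
  split_ifs <;> first | omega | linarith

end comp

section nj

variable (h : NJ P r j) (hij : i + 1 = j) (hi1 : 1 ≤ i)
include h hij hi1

/-- THE ENVIRONMENT of a closed pair, at least four sites -/
theorem nj_env_ge (t : Tops P) (h4 : 4 ≤ (st i (SS i t)).card) (hw : w ∈ CQ i (SS i t)) :
    4 + ((chc i (SS i t) w).card : ℤ) ≤ envc i (SS i t) w := by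
  obtain ⟨lo, hi, e, Cm, K⟩ := nj_cm5 h hij hi1 t
  subst hij
  obtain ⟨b, B⟩ := cl_place K Cm hw
  have hc := K.card_st
  have := B.l1
  have := B.h1
  exact cl_env_ge K Cm (by omega) B

end nj

end Pool.Agent.GaussPoset.Win.Pn

end
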