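import Mathlib
import Pool.Agent.W_448zz_h61.Ns
import Pool.Agent.W_448zz_h61.M166
import Pool.Agent.W_448zz_h61.M171
import Pool.Agent.W_448zz_h61.M256

/-! From `Pool.Agent.W_448win_h80.W1` -/

section

/-!
# INTERFACE of the window `j - 1` in case B (MP_448cb3_co, G2)

`i + 1 = j`, `S = SS i t` the part of the top `t`, `b = (st i S).card` its number of sites,
`V = ZS i S` its window series.  The five constants of a part are `I2.al 3 b V`, `I2.be 5 b V`,
`So.Q6 b V`, `T8.Q8 b V`, `T8.Q10 b V`.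

* `totals` : the five totals, unconditional;
* `vals_open` : the five constants of a part without twins and flips, any number of sites;
* `vals_big` : the constants (3,1), (5,2), (8,3), (10,4) of a part with at least four sites;
* `vals_small` : (8,3), (10,4) of a part with at most three sites, twins and flips allowed.
-/

set_option autoImplicit false

namespace Pool.Agent.GaussPoset.W1

set_option linter.unusedSectionVars false

open Finset Win
open Pool.Agent.GaussPoset.Wd (NJ SS)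
open Pool.Agent.GaussPoset.Win.I2 (bb VV)
open Pool.Agent.GaussPoset.Win.SO (N1f N5f mem_N5f F5 mem_F5 O5 mem_O5)
open Pool.Agent.GaussPoset.Win.Rd (NfC mem_NfC NfS ETs mem_ETs PrS)
open Pool.Agent.GaussPoset.Win.Pn (Tws mem_Tws)

universe u

variable {P : Type u} [Fintype P] [PartialOrder P] [DecidableEq P] {r j i : ℕ}

section nj

variable (h : NJ P r j) (hij : i + 1 = j) (hi1 : 1 ≤ i)
include h hij

lemma split : Split (i + 2) (topOf : P → Tops P) := by
  rw [show i + 2 = j + 1 by omega]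
  exact h.split

lemma SS_eq (t : Tops P) : cext (i + 2) (topOf : P → Tops P) t = SS i t := by
  rw [show i + 2 = j + 1 by omega]
  exact h.cext_eq (by omega) t

lemma bb_eq (t : Tops P) : bb i (i + 2) (topOf : P → Tops P) t = (st i (SS i t)).card := by
  rw [show i + 2 = j + 1 by omega]
  exact h.bb_eq (by omega) t

lemma VV_eq (t : Tops P) : VV i (i + 2) (topOf : P → Tops P) t = ZS i (SS i t) := by
  rw [show i + 2 = j + 1 by omega]
  exact h.VV_eq (by omega) t

include hi1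

/-- the inner joins over a pendant and a three-site element: the two descriptions agree -/
theorem nfc_eq (t : Tops P) : NfC i (SS i t) = N5f i (SS i t) := by
  classical
  have H := h.g.H
  have hT := h.noTT hij hi1
  have hC : Part (i + 1) (SS i t) := h.part (by omega) (by omega) t
  -- a three-site element below the window
  have site : ∀ {z : P}, lev z = i + 2 → sts i z = (uc z).biUnion uc := fun hz => Rd.sts_bi H hz
  ext a
  rw [mem_NfC, mem_N5f]
  constructor
  · rintro ⟨z, z2, w, w2, y, S⟩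
    obtain ⟨l1, l2, l3, l4, l5⟩ := S.lv H
    have ma := S.la
    have hzC : z ∈ SS i t := hC.up S.mc (mem_uc.1 (by rw [S.ua]; simp))
    have e1 : sts i z = uc w ∪ uc w2 := by
      rw [site l1, S.uz, biUnion_insert, singleton_biUnion]
    have e2 : sts i z2 = uc y := by
      rw [site l2, S.uz2, singleton_biUnion]
    have c1 := card_union_add_card_inter (uc w) (uc w2)
    have c2 := card_union_add_card_inter (uc w ∪ uc w2) (uc y)
    have s1 := S.cw
    have s2 := S.cw2
    have s3 := S.cy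
    have s4 := S.c5
    obtain ⟨x, hx1, hx2⟩ := hT z l1 w (by rw [S.uz]; simp) w2 (by rw [S.uz]; simp) S.ww s1
    have c3 : 1 ≤ (uc w ∩ uc w2).card := card_pos.2 ⟨x, mem_inter.2 ⟨hx1, hx2⟩⟩
    refine ⟨S.mc, Or.inl ⟨by omega, z2, z, ?_, ?_, by rw [S.ua, pair_comm], ?_⟩⟩
    · exact mem_PD.2 ⟨l2, by rw [S.uz2, card_singleton], y,
        mem_uc.1 (by rw [S.uz2]; simp), s3⟩
    · refine mem_ZL.2 ⟨hzC, l1, ?_⟩
      rw [← card_sts, e1]
      omega
    · rw [e1, e2, disjoint_comm, disjoint_iff_inter_eq_empty, ← card_eq_zero]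
      omega
  · rintro ⟨mc, ⟨hl, p, w, hp, hw, hu, hd⟩ | ⟨hl, p, w, hp, hw, hu, hd⟩⟩
    · obtain ⟨p1, p2, y0, p3, p4⟩ := mem_PD.1 hp
      obtain ⟨w1, w2, w3⟩ := mem_ZL.1 hw
      obtain ⟨y, hy⟩ := card_eq_one.1 p2
      have hyy : y0 = y := by
        rw [← mem_uc, hy, mem_singleton] at p3
        exact p3
      subst hyy
      have hc2 := card_uc_of_up H w2 w3
      obtain ⟨c, d, hcd, hcd2⟩ := card_eq_two.1 hc2
      have e1 : sts i w = uc c ∪ uc d := by
        rw [site w2, hcd2, biUnion_insert, singleton_biUnion]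
      have e2 : sts i p = uc y0 := by
        rw [site p1, hy, singleton_biUnion]
      have h3 : (uc c ∪ uc d).card = 3 := by rw [← e1, card_sts, w3]
      have c1 := card_union_add_card_inter (uc c) (uc d)
      have b1 := uc_card_le H c
      have b2 := uc_card_le H d
      have h7 : ∃ x, x ∈ uc c ∧ x ∈ uc d := by
        by_cases h8 : (uc c).card = 2
        · exact hT w w2 c (by rw [hcd2]; simp) d (by rw [hcd2]; simp) hcd h8
        · obtain ⟨x, hx1, hx2⟩ := hT w w2 d (by rw [hcd2]; simp) c (by rw [hcd2]; simp) hcd.symm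
            (by omega)
          exact ⟨x, hx2, hx1⟩
      obtain ⟨x, hx1, hx2⟩ := h7
      have c3 : 1 ≤ (uc c ∩ uc d).card := card_pos.2 ⟨x, mem_inter.2 ⟨hx1, hx2⟩⟩
      have la := lev_uc H (show p ∈ uc a by rw [hu]; simp)
      rw [e1, e2] at hd
      obtain ⟨s, hs⟩ := card_pos.1 (show 0 < (uc y0).card by omega)
      refine ⟨w, p, c, d, y0, mc, by omega, by rw [hu, pair_comm], hcd2, hy, ?_, hcd, ?_, ?_,
        by omega, by omega, p4, ?_⟩
      · rintro rfl
        omega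
      · rintro rfl
        exact disjoint_left.1 hd hs (mem_union_left _ hs)
      · rintro rfl
        exact disjoint_left.1 hd hs (mem_union_right _ hs)
      · rw [union_comm, card_union_of_disjoint hd]
        omega
    · exfalso
      obtain ⟨p1, p2, u0, p3, p4⟩ := mem_PU.1 hp
      obtain ⟨w1, w2, w3⟩ := mem_ZU.1 hw
      obtain ⟨u, hu0⟩ := card_eq_one.1 p2
      have huu : u0 = u := by
        rw [← mem_dc, hu0, mem_singleton] at p3
        exact p3
      subst huu
      have hne : p ≠ w := by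
        rintro rfl
        have h1 : stD i p = dc u0 := ClE_stD H p1 hu0
        rw [← card_stD, h1] at w3
        omega
      have m1 : p ⋖ a := mem_dc.1 (by rw [hu]; simp)
      have m2 : w ⋖ a := mem_dc.1 (by rw [hu]; simp)
      have hg : Win.Good P (i - 2) := h.g.good (i - 2) (by omega)
      have h1 := hg p w (by omega) (by omega) hne
      have h2 : 0 < ucv p w := by
        unfold ucv
        exact card_pos.2 ⟨a, mem_filter.2 ⟨mem_univ _, m1, m2⟩⟩
      rw [h1] at h2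
      unfold dcv at h2
      obtain ⟨v, hv⟩ := card_pos.1 h2
      rw [mem_filter] at hv
      have h3 : v = u0 := by
        have := mem_dc.2 hv.2.1
        rw [hu0, mem_singleton] at this
        exact this
      subst h3
      obtain ⟨s, hs⟩ := card_pos.1 (show 0 < (dc v).card by omega)
      have h4 : s ∈ stD i p := by
        rw [ClE_stD H p1 hu0]
        exact hs
      have h5 : s ∈ stD i w := (mem_stD_iff H w2).2 ⟨v, mem_dc.2 hv.2.2, hs⟩
      exact disjoint_left.1 hd h4 h5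

/-- inner joins over a pendant and a three-site element need five sites -/
theorem n5f_small (t : Tops P) (h4 : (st i (SS i t)).card ≤ 4) : N5f i (SS i t) = ∅ := by
  classical
  have H := h.g.H
  have hC : Part (i + 1) (SS i t) := h.part (by omega) (by omega) t
  rw [← nfc_eq h hij hi1, eq_empty_iff_forall_notMem]
  intro a ha
  obtain ⟨z, z2, w, w2, y, S⟩ := mem_NfC.1 ha
  obtain ⟨l1, l2, l3, l4, l5⟩ := S.lv H
  have up2 : ∀ {z : P}, z ∈ uc a → ∀ {w : P}, w ∈ uc z → lev w = i + 1 →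
      uc w ⊆ st i (SS i t) := by
    intro z hz w hw hl s hs
    have := lev_uc H hs
    exact mem_st.2 ⟨hC.up (hC.up (hC.up S.mc (mem_uc.1 hz)) (mem_uc.1 hw)) (mem_uc.1 hs),
      by omega⟩
  have h5 : uc w ∪ uc w2 ∪ uc y ⊆ st i (SS i t) := by
    refine union_subset (union_subset ?_ ?_) ?_
    · exact up2 (z := z) (by rw [S.ua]; simp) (by rw [S.uz]; simp) l3
    · exact up2 (z := z) (by rw [S.ua]; simp) (by rw [S.uz]; simp) l4
    · exact up2 (z := z2) (by rw [S.ua]; simp) (by rw [S.uz2]; simp) l5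
  have h6 := card_le_card h5
  rw [S.c5] at h6
  omega

/-- the charges of a part without a flip -/
theorem al3_chg (t : Tops P) (hF : F5 i (SS i t) = ∅) :
    I2.al 3 (st i (SS i t)).card (ZS i (SS i t)) = ∑ z ∈ Chs i (SS i t), chg i (SS i t) z := by
  classical
  have h1 := sum_chg (S := SS i t) h.g.H (i := i) (fun _ => True)
  simp only [filter_true] at h1
  rw [h1, Pn.nj_al3 h hij hi1 t hF]
  ring

/-- (6,2) of a part with (5,2) equal to zero -/
theorem q6_open (t : Tops P) (h5 : I2.be 5 (st i (SS i t)).card (ZS i (SS i t)) = 0) :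
    So.Q6 (st i (SS i t)).card (ZS i (SS i t)) =
      Win.QQ i (SS i t) + 2 * ((N1f i (SS i t)).card : ℤ) + 2 * ((N5f i (SS i t)).card : ℤ) := by
  have hs := SS_eq h hij t
  have hb := card_pos.2 (Pn.nj_st h hij t)
  subst hij
  obtain ⟨psi, hM⟩ := good_mat h.g.H (h.g.good i (by omega))
  obtain ⟨lo, hi, e, C⟩ := Cp.comp_exists h.g.H t.2 h.g.hr h.g.good
  have hno : ∀ z : P, lev z = i + 2 → ¬ Hul.Jn z := fun z hz => h.no z (by omega)
  have K := cm5_no h.g hi1 hno t C.toWin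
  rw [hs] at K
  obtain ⟨-, g2⟩ := K.five hno hM hb
  obtain ⟨g3, g4⟩ := g2 h5
  have Q := (K.to6 (K.ncl g3) (K.nfl hM g4)).ps6 hM
  have h6 := SO.PS6.six' Q hb
  unfold So.Q6
  rw [So.cf_three, So.cf_five, So.cf_six, h5, mul_zero, mul_zero, add_zero]
  exact h6

/-- THE CONSTANTS OF A PART WITH AT LEAST FOUR SITES, twins allowed -/
theorem vals_big (t : Tops P) (h4 : 4 ≤ (st i (SS i t)).card) :
    I2.al 3 (st i (SS i t)).card (ZS i (SS i t)) = ∑ z ∈ Chs i (SS i t), chg i (SS i t) z ∧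
    I2.be 5 (st i (SS i t)).card (ZS i (SS i t)) = -((Tws i (SS i t)).card : ℤ) ∧
    T8.Q8 (st i (SS i t)).card (ZS i (SS i t)) = ((ETs i (SS i t)).card : ℤ) -
      ∑ q ∈ Tws i (SS i t), ∑ z ∈ (Chs i (SS i t)).filter
        (fun z => ¬ Disjoint (sit i z) (sit i q.1)), chg i (SS i t) z ∧
    T8.Q10 (st i (SS i t)).card (ZS i (SS i t)) = ((Tws i (SS i t)).card : ℤ) ^ 2 -
      2 * ((PrS i (SS i t)).card : ℤ) - 2 * ((N5f i (SS i t)).card : ℤ) := by
  obtain ⟨lo, hi, e, C⟩ := Cp.comp_exists h.g.H t.2 h.g.hr h.g.good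
  have hc := h.card_SS (i := i) (by omega) C
  obtain ⟨-, h3, h5, h8, h10⟩ := h.vals4 hij hi1 C (by omega)
  rw [nfc_eq h hij hi1] at h10
  rw [T8.cg_cf (by omega), So.cf_three] at h3
  rw [T8.cg_cf (by omega), So.cf_five] at h5
  exact ⟨h3, h5, h8, h10⟩

/-- THE CONSTANTS (8,3), (10,4) OF A PART WITH AT MOST THREE SITES, twins and flips allowed -/
theorem vals_small (t : Tops P) (h3 : (st i (SS i t)).card ≤ 3) :
    I2.be 5 (st i (SS i t)).card (ZS i (SS i t)) =
      -((Tws i (SS i t)).card : ℤ) - ((F5 i (SS i t)).card : ℤ) ∧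
    T8.Q8 (st i (SS i t)).card (ZS i (SS i t)) =
      I2.al 3 (st i (SS i t)).card (ZS i (SS i t)) *
        (-((Tws i (SS i t)).card : ℤ) - ((F5 i (SS i t)).card : ℤ)) ∧
    T8.Q10 (st i (SS i t)).card (ZS i (SS i t)) =
      (((Tws i (SS i t)).card : ℤ) + ((F5 i (SS i t)).card : ℤ)) ^ 2 := by
  have h5 := Pn.nj_be5 h hij hi1 t
  refine ⟨h5, ?_, ?_⟩
  · rw [Pn.nj_Q8_small h hij t h3, h5]
  · rw [Pn.nj_Q10_small h hij t (by omega), h5]
    ring

/-- THE FIVE CONSTANTS OF A PART WITHOUT TWINS AND FLIPS, any number of sites -/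
theorem vals_open (t : Tops P) (hT : Tws i (SS i t) = ∅) (hF : F5 i (SS i t) = ∅) :
    I2.al 3 (st i (SS i t)).card (ZS i (SS i t)) = ∑ z ∈ Chs i (SS i t), chg i (SS i t) z ∧
    I2.be 5 (st i (SS i t)).card (ZS i (SS i t)) = 0 ∧
    So.Q6 (st i (SS i t)).card (ZS i (SS i t)) =
      Win.QQ i (SS i t) + 2 * ((N1f i (SS i t)).card : ℤ) + 2 * ((N5f i (SS i t)).card : ℤ) ∧
    T8.Q8 (st i (SS i t)).card (ZS i (SS i t)) = 0 ∧
    T8.Q10 (st i (SS i t)).card (ZS i (SS i t)) = -2 * ((N5f i (SS i t)).card : ℤ) := by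
  classical
  have h5 : I2.be 5 (st i (SS i t)).card (ZS i (SS i t)) = 0 := by
    rw [Pn.nj_be5 h hij hi1 t, hT, hF, card_empty]
    norm_num
  refine ⟨al3_chg h hij hi1 t hF, h5, q6_open h hij hi1 t h5, ?_⟩
  rcases Nat.lt_or_ge 3 (st i (SS i t)).card with h4 | h4
  · obtain ⟨-, -, h8, h10⟩ := vals_big h hij hi1 t h4
    have e1 : ETs i (SS i t) = ∅ := by
      obtain ⟨psi, hM⟩ := good_mat h.g.H (h.g.good i (by omega))
      rw [eq_empty_iff_forall_notMem]
      intro s hs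
      obtain ⟨p0, y0, S⟩ := mem_ETs.1 hs
      have h1 := (S.T.tws h.g.H)
      have h2 := mem_Tws.2 h1
      rw [hT] at h2
      exact absurd h2 (notMem_empty _)
    have e2 : PrS i (SS i t) = ∅ := by
      unfold PrS
      rw [hT]
      simp
    rw [hT, e1] at h8
    rw [hT, e2] at h10
    refine ⟨?_, ?_⟩
    · rw [h8]
      simp
    · rw [h10]
      simp
  · obtain ⟨-, h8, h10⟩ := vals_small h hij hi1 t h4
    rw [hT, hF] at h8 h10
    rw [h8, h10, n5f_small h hij hi1 t (by omega)]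
    simp

end nj

end Pool.Agent.GaussPoset.W1

end

/-! From `Pool.Agent.W_448rc_h10.RcC` -/

section

/-!
MP_448cb3_co, G2, case B, window `j - 1`: the coefficients (3,1), (5,2), (8,3), (10,4) of a
component with at least four sites in terms of the pattern `c` of its row.  helper10.
-/

namespace Pool.Agent.GaussPoset.Wd

set_option linter.unusedSectionVars false

open Finset Win Win.I2 Win.Rc EK

universe u

variable {P : Type u} [Fintype P] [PartialOrder P] [DecidableEq P] {r j i : ℕ}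
  {t : Tops P} {lo hi : ℕ → ℕ} {e : ℕ → ℕ → P} {m : ℕ} {x : ℕ → P} {c : ℕ → ℤ} {β : ℤ}

/-- the edges of the row between two double elements -/
noncomputable def Ed (x : ℕ → P) (m : ℕ) : Finset ℕ :=
  (range m).filter (fun k => (uc (x k)).card = 2 ∧ (uc (x (k + 1))).card = 2)

lemma mem_Ed {k : ℕ} : k ∈ Ed x m ↔ k < m ∧ (uc (x k)).card = 2 ∧ (uc (x (k + 1))).card = 2 := by
  unfold Ed
  rw [mem_filter, mem_range]

/-- the edges with twins -/
noncomputable def Et (x : ℕ → P) (m : ℕ) (c : ℕ → ℤ) : Finset ℕ := (Ed x m).filter (fun k => c k = 1)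

lemma mem_Et {k : ℕ} : k ∈ Et x m c ↔ k ∈ Ed x m ∧ c k = 1 := by
  unfold Et
  rw [mem_filter]

/-- the sites of an edge -/
noncomputable def se (x : ℕ → P) (k : ℕ) : Finset P := uc (x k) ∪ uc (x (k + 1))

/-- the numbering of the edges by the centres -/
structure Ori (i : ℕ) (lo hi : ℕ → ℕ) (e : ℕ → ℕ → P) (x : ℕ → P) (m : ℕ) (c : ℕ → ℤ)
    (ρ : ℕ → ℕ) : Prop where
  mem : ∀ k, k < m → (k ∈ Ed x m ↔ ρ k ∈ Ioo (lo i) (hi i))
  inj : ∀ k l, k < m → l < m → ρ k = ρ l → k = l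
  surj : ∀ a ∈ Ioo (lo i) (hi i), ∃ k, k < m ∧ ρ k = a
  dist : ∀ k l, k < m → l < m → ((ρ k ≤ ρ l + 2 ∧ ρ l ≤ ρ k + 2) ↔ (k ≤ l + 2 ∧ l ≤ k + 2))
  dv : ∀ k, k < m → (dv e i (ρ k) : ℤ) = 1 + c k
  tr : ∀ k, k ∈ Ed x m → Tr e i (ρ k) = se x k

section ori

variable {ρ : ℕ → ℕ} (O : Ori i lo hi e x m c ρ)
include O

lemma Ori.sum (f : ℕ → ℤ) (R : ℕ → Prop) [DecidablePred R] :
    ∑ a ∈ (Ioo (lo i) (hi i)).filter R, f a =
      ∑ k ∈ (Ed x m).filter (fun k => R (ρ k)), f (ρ k) := by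
  classical
  have h1 : (Ioo (lo i) (hi i)).filter R = ((Ed x m).filter (fun k => R (ρ k))).image ρ := by
    ext a
    rw [mem_filter, mem_image]
    constructor
    · rintro ⟨h2, h3⟩
      obtain ⟨k, hk, rfl⟩ := O.surj a h2
      exact ⟨k, mem_filter.2 ⟨(O.mem k hk).2 h2, h3⟩, rfl⟩
    · rintro ⟨k, hk, rfl⟩
      rw [mem_filter] at hk
      exact ⟨(O.mem k (mem_Ed.1 hk.1).1).1 hk.1, hk.2⟩
  rw [h1, sum_image]
  intro k hk l hl hkl
  rw [mem_coe, mem_filter, mem_Ed] at hk hl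
  exact O.inj k l hk.1.1 hl.1.1 hkl

lemma Ori.sum_D2 (f : ℕ → ℤ) : ∑ b ∈ D2 e lo hi i, f b = ∑ k ∈ Et x m c, f (ρ k) := by
  unfold D2 Et
  rw [O.sum f]
  refine sum_congr ?_ (fun _ _ => rfl)
  apply filter_congr
  intro k hk
  have := O.dv k (mem_Ed.1 hk).1
  constructor
  · intro h
    rw [h] at this
    push_cast at this
    linarith
  · intro h
    rw [h] at this
    have h2 : (Rc.dv e i (ρ k) : ℤ) = (2 : ℕ) := by rw [this]; norm_num
    exact_mod_cast h2

lemma Ori.card_D2 : ((D2 e lo hi i).card : ℤ) = (Et x m c).card := by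
  have := O.sum_D2 (fun _ => (1 : ℤ))
  simpa using this

/-- edges near `k` -/
lemma Ori.sum_Nb {k : ℕ} (hk : k ∈ Ed x m) :
    ∑ a ∈ Nb lo hi i (ρ k), (1 - (Rc.dv e i a : ℤ)) =
      - ∑ l ∈ (Ed x m).filter (fun l => l ≤ k + 2 ∧ k ≤ l + 2), c l := by
  unfold Nb
  rw [O.sum (fun a => (1 - (Rc.dv e i a : ℤ))), ← sum_neg_distrib]
  have h1 : (Ed x m).filter (fun l => ρ l ≤ ρ k + 2 ∧ ρ k ≤ ρ l + 2) =
      (Ed x m).filter (fun l => l ≤ k + 2 ∧ k ≤ l + 2) := by
    apply filter_congr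
    intro l hl
    exact O.dist l k (mem_Ed.1 hl).1 (mem_Ed.1 hk).1
  rw [h1]
  refine sum_congr rfl fun l hl => ?_
  rw [O.dv l (mem_Ed.1 (mem_filter.1 hl).1).1]
  ring

lemma Ori.sum_all : ∑ a ∈ Ioo (lo i) (hi i), (1 - (Rc.dv e i a : ℤ)) =
    - ∑ l ∈ Ed x m, c l := by
  have := O.sum (fun a => (1 - (Rc.dv e i a : ℤ))) (fun _ => True)
  simp only [filter_true] at this
  rw [this, ← sum_neg_distrib]
  refine sum_congr rfl fun l hl => ?_
  rw [O.dv l (mem_Ed.1 hl).1]
  ring

lemma Ori.card_D2n {k : ℕ} (hk : k ∈ Ed x m) : ((D2n e lo hi i (ρ k)).card : ℤ) =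
    ((Et x m c).filter (fun l => l ≤ k + 2 ∧ k ≤ l + 2)).card := by
  classical
  unfold D2n
  rw [card_filter, card_filter]
  push_cast
  rw [O.sum_D2 (fun a => if a ≤ ρ k + 2 ∧ ρ k ≤ a + 2 then (1 : ℤ) else 0)]
  refine sum_congr rfl fun l hl => ?_
  have h1 := O.dist l k (mem_Ed.1 (mem_Et.1 hl).1).1 (mem_Ed.1 hk).1
  by_cases h2 : l ≤ k + 2 ∧ k ≤ l + 2
  · rw [if_pos h2, if_pos (h1.2 h2)]
  · rw [if_neg h2, if_neg (fun h3 => h2 (h1.1 h3))]

end ori

section row

variable (h : NJ P r j) (hij : i + 1 = j) (hi1 : 1 ≤ i) (B : RowB P j t m x c β)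
include h hij hi1 B

omit h hij hi1 B in
lemma dcv_sym (a b : P) : dcv a b = dcv b a := by
  classical
  unfold dcv
  congr 1
  ext z
  simp only [mem_filter, mem_univ, true_and]
  tauto

/-- the edges of a row are numbered by the centres -/
theorem NJ.ori (C : Cp.Comp j (t : P) lo hi e) : ∃ ρ, Ori i lo hi e x m c ρ := by
  subst hij
  obtain ⟨hm, hor⟩ := B.orient h (by omega) C
  have W := C.toWin
  have l1 := C.lo_step i (by omega)
  have l2 := C.hi_step i (by omega)
  have hlh := C.lo_le (i + 1) le_rfl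
  have two : ∀ a, lo (i + 1) ≤ a → a ≤ hi (i + 1) →
      ((uc (e (i + 1) a)).card = 2 ↔ lo i < a ∧ a ≤ hi i) :=
    fun a h1 h2 => W.uc_two h.g t.2 (k := i) (by omega) h1 h2
  have ueq : ∀ a, lo i < a → a ≤ hi i → uc (e (i + 1) a) = {e i (a - 1), e i a} :=
    fun a h1 h2 => W.uc_eq h.g t.2 (k := i) (by omega) h1 h2
  have tre : ∀ a, lo i < a → a < hi i → uc (e (i + 1) a) ∪ uc (e (i + 1) (a + 1)) = Tr e i a := by
    intro a h1 h2
    rw [ueq a h1 h2.le, ueq (a + 1) (by omega) (by omega), Nat.add_sub_cancel]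
    unfold Tr
    ext v
    simp only [mem_union, mem_insert, mem_singleton]
    tauto
  have hdf : ∀ k, k < m → (dcv (x k) (x (k + 1)) : ℤ) = 1 + c k := by
    intro k hk
    have h1 := B.row.df k (k + 1) (by omega) (by omega)
    rw [if_pos rfl] at h1
    have hne : x k ≠ x (k + 1) := by
      intro h2
      have := B.row.inj k (k + 1) (by omega) (by omega) h2
      omega
    rw [Df_pair h.g.H (B.row.lev_x k (by omega)) hne, B.ucv_x k (k + 1) (by omega) (by omega),
      if_pos rfl] at h1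
    push_cast at h1
    linarith
  rcases hor with hx | hx
  · refine ⟨fun k => lo (i + 1) + k, ?_, ?_, ?_, ?_, ?_, ?_⟩
    · intro k hk
      rw [mem_Ed, mem_Ioo, hx k hk.le, hx (k + 1) (by omega), two _ (by omega) (by omega),
        two _ (by omega) (by omega)]
      constructor
      · rintro ⟨-, h1, h2⟩
        exact ⟨h1.1, by omega⟩
      · rintro ⟨h1, h2⟩
        exact ⟨hk, ⟨h1, by omega⟩, by omega, by omega⟩
    · intro k l _ _ hkl
      have hkl' : lo (i + 1) + k = lo (i + 1) + l := hkl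
      omega
    · intro a ha
      rw [mem_Ioo] at ha
      exact ⟨a - lo (i + 1), by omega, by show lo (i + 1) + (a - lo (i + 1)) = a; omega⟩
    · intro k l _ _
      show (lo (i + 1) + k ≤ lo (i + 1) + l + 2 ∧ lo (i + 1) + l ≤ lo (i + 1) + k + 2) ↔ _
      omega
    · intro k hk
      unfold Rc.dv
      rw [← hdf k hk, hx k hk.le, hx (k + 1) (by omega), ← add_assoc]
    · intro k hk
      have h1 := mem_Ed.1 hk
      rw [hx k h1.1.le, hx (k + 1) (by omega), two _ (by omega) (by omega),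
        two _ (by omega) (by omega)] at h1
      unfold se
      rw [hx k h1.1.le, hx (k + 1) (by omega), ← add_assoc]
      exact (tre _ (by omega) (by omega)).symm
  · refine ⟨fun k => hi (i + 1) - 1 - k, ?_, ?_, ?_, ?_, ?_, ?_⟩
    · intro k hk
      rw [mem_Ed, mem_Ioo, hx k hk.le, hx (k + 1) (by omega), two _ (by omega) (by omega),
        two _ (by omega) (by omega)]
      constructor
      · rintro ⟨-, h1, h2⟩
        exact ⟨by omega, by omega⟩
      · rintro ⟨h1, h2⟩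
        exact ⟨hk, ⟨by omega, by omega⟩, by omega, by omega⟩
    · intro k l hk hl hkl
      have hkl' : hi (i + 1) - 1 - k = hi (i + 1) - 1 - l := hkl
      omega
    · intro a ha
      rw [mem_Ioo] at ha
      exact ⟨hi (i + 1) - 1 - a, by omega, by
        show hi (i + 1) - 1 - (hi (i + 1) - 1 - a) = a
        omega⟩
    · intro k l hk hl
      show (hi (i + 1) - 1 - k ≤ hi (i + 1) - 1 - l + 2 ∧
        hi (i + 1) - 1 - l ≤ hi (i + 1) - 1 - k + 2) ↔ _
      omega
    · intro k hk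
      unfold Rc.dv
      rw [← hdf k hk, hx k hk.le, hx (k + 1) (by omega),
        show hi (i + 1) - 1 - k + 1 = hi (i + 1) - k by omega,
        show hi (i + 1) - (k + 1) = hi (i + 1) - 1 - k by omega, dcv_sym]
    · intro k hk
      have h1 := mem_Ed.1 hk
      rw [hx k h1.1.le, hx (k + 1) (by omega), two _ (by omega) (by omega),
        two _ (by omega) (by omega)] at h1
      unfold se
      rw [hx k h1.1.le, hx (k + 1) (by omega),
        show hi (i + 1) - (k + 1) = hi (i + 1) - 1 - k by omega,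
        show hi (i + 1) - k = hi (i + 1) - 1 - k + 1 by omega, union_comm]
      exact (tre _ (by omega) (by omega)).symm

open Classical in
/-- THE COEFFICIENTS OF A COMPONENT WITH AT LEAST FOUR SITES IN TERMS OF THE PATTERN OF ITS ROW -/
theorem NJ.rowc (h4 : 4 ≤ (st i (SS i t)).card) :
    T8.cg 3 (st i (SS i t)).card (ZS i (SS i t)) = - ∑ k ∈ Ed x m, c k +
      ((FL i (SS i t)).card : ℤ) - ((FU' i (SS i t)).card : ℤ) ∧
    T8.cg 5 (st i (SS i t)).card (ZS i (SS i t)) = - ((Et x m c).card : ℤ) ∧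
    T8.Q8 (st i (SS i t)).card (ZS i (SS i t)) = ((Rd.ETs i (SS i t)).card : ℤ) +
      ∑ k ∈ Et x m c, (∑ l ∈ (Ed x m).filter (fun l => l ≤ k + 2 ∧ k ≤ l + 2), c l -
        (((FL i (SS i t)).filter (fun z => ¬ Disjoint (sit i z) (se x k))).card : ℤ) +
        (((FU' i (SS i t)).filter (fun z => ¬ Disjoint (sit i z) (se x k))).card : ℤ)) ∧
    T8.Q10 (st i (SS i t)).card (ZS i (SS i t)) =
      ∑ k ∈ Et x m c, (((Et x m c).filter (fun l => l ≤ k + 2 ∧ k ≤ l + 2)).card : ℤ) -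
        2 * ((Rd.NfC i (SS i t)).card : ℤ) := by
  obtain ⟨lo, hi, e, C⟩ := Cp.comp_exists h.g.H t.2 h.g.hr h.g.good
  have hb : lo i + 3 ≤ hi i := by
    rw [h.card_SS (i := i) (by omega) C] at h4
    omega
  obtain ⟨ρ, O⟩ := h.ori hij hi1 B C
  obtain ⟨v3, v5, v8, v10⟩ := h.row4 hij hi1 C hb
  refine ⟨?_, ?_, ?_, ?_⟩
  · rw [v3, O.sum_all]
  · rw [v5, O.card_D2]
  · rw [v8, O.sum_D2 (fun b => ∑ a ∈ Nb lo hi i b, (1 - (Rc.dv e i a : ℤ)) +
        (((FL i (SS i t)).filter (fun z => ¬ Disjoint (sit i z) (Tr e i b))).card : ℤ) -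
        (((FU' i (SS i t)).filter (fun z => ¬ Disjoint (sit i z) (Tr e i b))).card : ℤ)),
      sub_eq_add_neg, ← sum_neg_distrib]
    congr 1
    refine sum_congr rfl fun k hk => ?_
    have hk' := (mem_Et.1 hk).1
    rw [O.sum_Nb hk', O.tr k hk']
    ring
  · rw [v10, O.sum_D2 (fun b => ((D2n e lo hi i b).card : ℤ))]
    congr 1
    exact sum_congr rfl fun k hk => O.card_D2n (mem_Et.1 hk).1

end row

end Pool.Agent.GaussPoset.Wd

end

/-! From `Pool.Agent.W_448rc_h10.RcD` -/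

section

/-!
MP_448cb3_co, G2, case B, window `j - 1`: the coefficients (3,1), (5,2), (8,3), (10,4) of the rows
of case B with at least four sites.  helper10.
-/

namespace Pool.Agent.GaussPoset.Wd

set_option linter.unusedSectionVars false

open Finset Win Win.I2 Win.Rc EK

universe u

variable {P : Type u} [Fintype P] [PartialOrder P] [DecidableEq P] {r j i : ℕ}
  {t : Tops P} {lo hi : ℕ → ℕ} {e : ℕ → ℕ → P} {m : ℕ} {x : ℕ → P} {c : ℕ → ℤ} {β : ℤ}

/-- the private children of the pendants minus those above, over the edge `k` -/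
noncomputable def fm (i : ℕ) (S : Finset P) (x : ℕ → P) (k : ℕ) : ℤ := by
  classical exact
  (((FL i S).filter (fun z => ¬ Disjoint (sit i z) (se x k))).card : ℤ) -
    (((FU' i S).filter (fun z => ¬ Disjoint (sit i z) (se x k))).card : ℤ)

/-- the private children of the pendants minus those above -/
noncomputable def fa (i : ℕ) (S : Finset P) : ℤ := ((FL i S).card : ℤ) - ((FU' i S).card : ℤ)

/-- the values of a part: A3, B5, Q8, Q10 -/
structure Vals (i : ℕ) (S : Finset P) (a b q8 q10 : ℤ) : Prop where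
  a3 : T8.cg 3 (st i S).card (ZS i S) = a
  b5 : T8.cg 5 (st i S).card (ZS i S) = b
  q8 : T8.Q8 (st i S).card (ZS i S) = q8
  q10 : T8.Q10 (st i S).card (ZS i S) = q10

section row

variable (h : NJ P r j) (hij : i + 1 = j) (hi1 : 1 ≤ i) (B : RowB P j t m x c β)
include h hij hi1 B

/-- inner elements are double; the number of sites -/
theorem NJ.inner : (∀ k, 0 < k → k < m → (uc (x k)).card = 2) ∧
    (1 ≤ m → (st i (SS i t)).card = m + ((uc (x 0)).card - 1) + ((uc (x m)).card - 1)) ∧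
    (∀ k, k ≤ m → (uc (x k)).card = 1 ∨ (uc (x k)).card = 2) := by
  subst hij
  obtain ⟨lo, hi, e, C⟩ := Cp.comp_exists h.g.H t.2 h.g.hr h.g.good
  obtain ⟨hm, hor⟩ := B.orient h (by omega) C
  have W := C.toWin
  have l1 : lo (i + 1) = lo i ∨ lo (i + 1) = lo i + 1 := C.lo_step i (by omega)
  have l2 : hi (i + 1) = hi i ∨ hi (i + 1) = hi i + 1 := C.hi_step i (by omega)
  have l3 := C.lo_le i (by omega)
  have two : ∀ a, lo (i + 1) ≤ a → a ≤ hi (i + 1) →
      ((uc (e (i + 1) a)).card = 2 ↔ lo i < a ∧ a ≤ hi i) :=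
    fun a h1 h2 => W.uc_two h.g t.2 (k := i) (by omega) h1 h2
  have one : ∀ a, lo (i + 1) ≤ a → a ≤ hi (i + 1) →
      ((uc (e (i + 1) a)).card = 1 ∨ (uc (e (i + 1) a)).card = 2) := by
    intro a h1 h2
    have h5 := C.lev_e (i + 1) a le_rfl h1 h2
    exact uc_card_cases h.g.H (x := e (i + 1) a) (by omega)
  have hV : (st i (SS i t)).card = hi i + 1 - lo i := h.card_SS (i := i) (by omega) C
  rcases hor with hx | hx
  · refine ⟨?_, ?_, ?_⟩
    · intro k h1 h2
      rw [hx k h2.le, two _ (by omega) (by omega)]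
      omega
    · intro hm1
      rw [hV, hx 0 (by omega), hx m le_rfl, add_zero]
      have a1 := two (lo (i + 1)) le_rfl (by omega)
      have a2 := two (lo (i + 1) + m) (by omega) (by omega)
      have b1 := one (lo (i + 1)) le_rfl (by omega)
      have b2 := one (lo (i + 1) + m) (by omega) (by omega)
      omega
    · intro k hk
      rw [hx k hk]
      exact one _ (by omega) (by omega)
  · refine ⟨?_, ?_, ?_⟩
    · intro k h1 h2
      rw [hx k h2.le, two _ (by omega) (by omega)]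
      omega
    · intro hm1
      rw [hV, hx 0 (by omega), hx m le_rfl, Nat.sub_zero]
      have a1 := two (hi (i + 1)) (by omega) le_rfl
      have a2 := two (hi (i + 1) - m) (by omega) (by omega)
      have b1 := one (hi (i + 1)) (by omega) le_rfl
      have b2 := one (hi (i + 1) - m) (by omega) (by omega)
      omega
    · intro k hk
      rw [hx k hk]
      exact one _ (by omega) (by omega)

/-- no twins: no (8,3) term -/
theorem NJ.vals0 (h4 : 4 ≤ (st i (SS i t)).card) (h0 : Et x m c = ∅) :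
    Vals i (SS i t) (- ∑ k ∈ Ed x m, c k + fa i (SS i t)) 0 0
      (- 2 * ((Rd.NfC i (SS i t)).card : ℤ)) := by
  obtain ⟨v3, v5, v8, v10⟩ := h.rowc hij hi1 B h4
  rw [h0] at v5 v8 v10
  rw [card_empty] at v5
  rw [sum_empty] at v8 v10
  have hE : Rd.ETs i (SS i t) = ∅ := by
    rw [eq_empty_iff_forall_notMem]
    intro s hs
    rw [Rd.mem_ETs] at hs
    obtain ⟨p0, y0, S⟩ := hs
    obtain ⟨lo, hi, e, C⟩ := Cp.comp_exists h.g.H t.2 h.g.hr h.g.good
    have hb : lo i + 3 ≤ hi i := by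
      rw [h.card_SS (i := i) (by omega) C] at h4
      omega
    obtain ⟨-, -, w5, -⟩ := h.vals4 hij hi1 C hb
    rw [w5] at v5
    have h6 : s.1 ∈ Pn.Tws i (SS i t) := Pn.mem_Tws.2 (S.T.tws h.g.H)
    have h7 := card_pos.2 ⟨_, h6⟩
    push_cast at v5
    omega
  rw [hE, card_empty] at v8
  refine ⟨?_, ?_, ?_, ?_⟩
  · rw [v3]
    unfold fa
    ring
  · rw [v5]
    simp
  · rw [v8]
    simp
  · rw [v10]
    ring

/-- the edges -/
lemma NJ.Ed_eq (hm : 2 ≤ m) : Ed x m = (range m).filter (fun k => (k = 0 → (uc (x 0)).card = 2) ∧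
    (k + 1 = m → (uc (x m)).card = 2)) := by
  obtain ⟨h1, -, -⟩ := h.inner hij hi1 B
  unfold Ed
  apply filter_congr
  intro k hk
  rw [mem_range] at hk
  constructor
  · rintro ⟨h2, h3⟩
    refine ⟨?_, ?_⟩
    · rintro rfl
      exact h2
    · intro h4
      rw [← h4]
      exact h3
  · rintro ⟨h2, h3⟩
    refine ⟨?_, ?_⟩
    · by_cases h4 : k = 0
      · rw [h4]
        exact h2 h4
      · exact h1 k (by omega) hk
    · by_cases h4 : k + 1 = m
      · rw [h4]
        exact h3 h4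
      · exact h1 (k + 1) (by omega) (by omega)

/-- natural rows -/
theorem NJ.vals_nat (h4 : 4 ≤ (st i (SS i t)).card) (hc : ∀ k, k < m → c k = 0) :
    Vals i (SS i t) (fa i (SS i t)) 0 0 (- 2 * ((Rd.NfC i (SS i t)).card : ℤ)) := by
  have h0 : Et x m c = ∅ := by
    unfold Et
    rw [filter_eq_empty_iff]
    intro k hk
    rw [hc k (mem_Ed.1 hk).1]
    norm_num
  have h1 := h.vals0 hij hi1 B h4 h0
  rw [sum_eq_zero (fun k hk => hc k (mem_Ed.1 hk).1)] at h1
  simpa using h1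

/-- [DL] at a closed end -/
theorem NJ.vals_closed (hm : 2 ≤ m) (h4 : 4 ≤ (st i (SS i t)).card) (c0 : c 0 = 1)
    (c1 : c 1 = -1) (hc : ∀ k, 2 ≤ k → k < m → c k = 0) (h0 : (uc (x 0)).card = 2) :
    Vals i (SS i t) (fa i (SS i t)) (-1) (((Rd.ETs i (SS i t)).card : ℤ) - fm i (SS i t) x 0)
      (1 - 2 * ((Rd.NfC i (SS i t)).card : ℤ)) := by
  classical
  obtain ⟨hin, hV, hcs⟩ := h.inner hij hi1 B
  obtain ⟨v3, v5, v8, v10⟩ := h.rowc hij hi1 B h4
  have hxm := hcs m le_rfl
  have n0 : 0 ∈ Ed x m := by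
    rw [mem_Ed]
    exact ⟨by omega, h0, hin 1 (by omega) (by omega)⟩
  have n1 : 1 ∈ Ed x m := by
    rw [mem_Ed]
    refine ⟨by omega, hin 1 (by omega) (by omega), ?_⟩
    by_cases h5 : m = 2
    · have h6 := hV (by omega)
      have h7 : (1 + 1 : ℕ) = m := by omega
      rw [h7]
      omega
    · exact hin 2 (by omega) (by omega)
  have hk : ∀ k ∈ Ed x m, c k = (if k = 0 then 1 else 0) + (if k = 1 then -1 else 0) := by
    intro k hk
    obtain ⟨a1, a2, a3⟩ := mem_Ed.1 hk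
    by_cases h6 : k = 0
    · rw [h6, c0]
      norm_num
    · by_cases h7 : k = 1
      · rw [h7, c1]
        norm_num
      · rw [if_neg h6, if_neg h7, hc k (by omega) a1]
        norm_num
  have hEt : Et x m c = {0} := by
    ext k
    rw [mem_Et, mem_singleton]
    constructor
    · rintro ⟨h5, h6⟩
      by_contra h7
      rw [hk k h5, if_neg h7] at h6
      split_ifs at h6 <;> omega
    · rintro rfl
      exact ⟨n0, c0⟩
  have s1 : ∑ k ∈ Ed x m, c k = 0 := by
    rw [sum_congr rfl hk, sum_add_distrib, sum_ite_eq' (Ed x m) 0, sum_ite_eq' (Ed x m) 1,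
      if_pos n0, if_pos n1]
    norm_num
  have s2 : ∑ l ∈ (Ed x m).filter (fun l => l ≤ 0 + 2 ∧ 0 ≤ l + 2), c l = 0 := by
    rw [sum_congr rfl (fun l hl => hk l (mem_filter.1 hl).1), sum_add_distrib,
      sum_ite_eq' _ 0, sum_ite_eq' _ 1, if_pos (mem_filter.2 ⟨n0, by omega, by omega⟩),
      if_pos (mem_filter.2 ⟨n1, by omega, by omega⟩)]
    norm_num
  rw [hEt] at v5 v8 v10
  rw [card_singleton] at v5
  rw [sum_singleton] at v8 v10
  refine ⟨?_, ?_, ?_, ?_⟩
  · rw [v3, s1]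
    unfold fa
    ring
  · rw [v5]
    norm_num
  · rw [v8, s2]
    unfold fm
    ring
  · rw [v10]
    have : ({0} : Finset ℕ).filter (fun l => l ≤ 0 + 2 ∧ 0 ≤ l + 2) = {0} := by
      rw [filter_eq_self]
      intro l hl
      rw [mem_singleton] at hl
      omega
    rw [this, card_singleton]
    norm_num

end row

end Pool.Agent.GaussPoset.Wd

end

/-! From `Pool.Agent.W_448rc_h10.RcE` -/

section

/-!
MP_448cb3_co, G2, case B, window `j - 1`: the coefficients (3,1), (5,2), (8,3), (10,4) of the rows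
with the pattern [DL .. LD].  helper10.
-/

namespace Pool.Agent.GaussPoset.Wd

set_option linter.unusedSectionVars false

open Finset Win Win.I2 Win.Rc EK

universe u

variable {P : Type u} [Fintype P] [PartialOrder P] [DecidableEq P] {r j i : ℕ}
  {t : Tops P} {lo hi : ℕ → ℕ} {e : ℕ → ℕ → P} {m : ℕ} {x : ℕ → P} {c : ℕ → ℤ} {β : ℤ}

section row

variable (h : NJ P r j) (hij : i + 1 = j) (hi1 : 1 ≤ i) (B : RowB P j t m x c β)
include h hij hi1 B

omit h hij hi1 B in
/-- the pattern as a sum of indicators -/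
lemma pat6_val (hp : Pat6 m c β) {k : ℕ} (hk : k < m) : c k = (if k = 0 then 1 else 0) +
    (if k = 1 then -1 else 0) + (if k = m - 2 then -1 else 0) + (if k = m - 1 then 1 else 0) := by
  obtain ⟨h5, -, c0, c1, c3, c4, hc⟩ := hp
  by_cases a0 : k = 0
  · rw [a0, c0, if_pos rfl, if_neg (by omega), if_neg (by omega), if_neg (by omega)]
    norm_num
  · by_cases a1 : k = 1
    · rw [a1, c1, if_neg (by omega), if_pos rfl, if_neg (by omega), if_neg (by omega)]
      norm_num
    · by_cases a2 : k = m - 2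
      · rw [a2, c3, if_neg (by omega), if_neg (by omega), if_pos rfl, if_neg (by omega)]
        norm_num
      · by_cases a3 : k = m - 1
        · rw [a3, c4, if_neg (by omega), if_neg (by omega), if_neg (by omega), if_pos rfl]
          norm_num
        · rw [if_neg a0, if_neg a1, if_neg a2, if_neg a3, hc k (by omega) (by omega)]
          norm_num

omit h hij hi1 B in
/-- sums of the pattern over sets of edges -/
lemma pat6_sum (hp : Pat6 m c β) {s : Finset ℕ} (hs : ∀ k ∈ s, k < m) :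
    ∑ k ∈ s, c k = (if 0 ∈ s then 1 else 0) + (if 1 ∈ s then -1 else 0) +
      (if m - 2 ∈ s then -1 else 0) + (if m - 1 ∈ s then 1 else 0) := by
  rw [sum_congr rfl (fun k hk => pat6_val hp (hs k hk)), sum_add_distrib, sum_add_distrib,
    sum_add_distrib, sum_ite_eq' s 0, sum_ite_eq' s 1, sum_ite_eq' s (m - 2),
    sum_ite_eq' s (m - 1)]

lemma NJ.inner_Ed (hm : 5 ≤ m) : (∀ k, 0 < k → k + 1 < m → k ∈ Ed x m) ∧
    (0 ∈ Ed x m ↔ (uc (x 0)).card = 2) ∧ (m - 1 ∈ Ed x m ↔ (uc (x m)).card = 2) := by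
  obtain ⟨h1, -, -⟩ := h.inner hij hi1 B
  refine ⟨fun k a b => mem_Ed.2 ⟨by omega, h1 k a (by omega), h1 (k + 1) (by omega) b⟩, ?_, ?_⟩
  · rw [mem_Ed]
    exact ⟨fun h => h.2.1, fun h => ⟨by omega, h, h1 1 (by omega) (by omega)⟩⟩
  · rw [mem_Ed, show m - 1 + 1 = m by omega]
    exact ⟨fun h => h.2.2, fun h => ⟨by omega, h1 (m - 1) (by omega) (by omega), h⟩⟩

/-- the twins of the pattern [DL .. LD] -/
lemma NJ.Et_six (hp : Pat6 m c β) : ∀ k, k ∈ Et x m c ↔ (k = 0 ∧ (uc (x 0)).card = 2) ∨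
    (k = m - 1 ∧ (uc (x m)).card = 2) := by
  have hm := hp.1
  obtain ⟨e1, e2, e3⟩ := h.inner_Ed hij hi1 B hm
  intro k
  rw [mem_Et]
  constructor
  · rintro ⟨h1, h2⟩
    have hk := (mem_Ed.1 h1).1
    rw [pat6_val hp hk] at h2
    by_cases a0 : k = 0
    · left
      refine ⟨a0, ?_⟩
      rw [← e2, ← a0]
      exact h1
    · by_cases a3 : k = m - 1
      · right
        refine ⟨a3, ?_⟩
        rw [← e3, ← a3]
        exact h1
      · rw [if_neg a0, if_neg a3] at h2
        split_ifs at h2 <;> omega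
  · rintro (⟨rfl, h1⟩ | ⟨rfl, h1⟩)
    · exact ⟨e2.2 h1, hp.2.2.1⟩
    · exact ⟨e3.2 h1, hp.2.2.2.2.2.1⟩

/-- [DL .. LD], both ends open -/
theorem NJ.vals6_open (h4 : 4 ≤ (st i (SS i t)).card) (hp : Pat6 m c β)
    (h0 : (uc (x 0)).card = 1) (hm1 : (uc (x m)).card = 1) :
    Vals i (SS i t) (2 + fa i (SS i t)) 0 0 (- 2 * ((Rd.NfC i (SS i t)).card : ℤ)) := by
  have hm := hp.1
  obtain ⟨e1, e2, e3⟩ := h.inner_Ed hij hi1 B hm
  have hEt : Et x m c = ∅ := by
    rw [eq_empty_iff_forall_notMem]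
    intro k hk
    rcases (h.Et_six hij hi1 B hp k).1 hk with h5 | h5 <;> omega
  have h1 := h.vals0 hij hi1 B h4 hEt
  have n0 : 0 ∉ Ed x m := by rw [e2]; omega
  have n3 : m - 1 ∉ Ed x m := by rw [e3]; omega
  rw [pat6_sum hp (fun k hk => (mem_Ed.1 hk).1), if_neg n0, if_neg n3,
    if_pos (e1 1 (by omega) (by omega)), if_pos (e1 (m - 2) (by omega) (by omega))] at h1
  have : -((0 : ℤ) + -1 + -1 + 0) + fa i (SS i t) = 2 + fa i (SS i t) := by ring
  rwa [this] at h1

/-- [DL .. LD], one closed end -/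
theorem NJ.vals6_one (h4 : 4 ≤ (st i (SS i t)).card) (hp : Pat6 m c β)
    (h0 : (uc (x 0)).card = 2) (hm1 : (uc (x m)).card = 1) :
    Vals i (SS i t) (1 + fa i (SS i t)) (-1) (((Rd.ETs i (SS i t)).card : ℤ) - fm i (SS i t) x 0)
      (1 - 2 * ((Rd.NfC i (SS i t)).card : ℤ)) := by
  classical
  have hm := hp.1
  obtain ⟨e1, e2, e3⟩ := h.inner_Ed hij hi1 B hm
  obtain ⟨v3, v5, v8, v10⟩ := h.rowc hij hi1 B h4
  have hEt : Et x m c = {0} := by
    ext k
    rw [h.Et_six hij hi1 B hp k, mem_singleton]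
    constructor
    · rintro (h5 | h5) <;> omega
    · rintro rfl
      exact Or.inl ⟨rfl, h0⟩
  have n0 : 0 ∈ Ed x m := e2.2 h0
  have n1 := e1 1 (by omega) (by omega)
  have n2 := e1 (m - 2) (by omega) (by omega)
  have n3 : m - 1 ∉ Ed x m := by rw [e3]; omega
  have s1 : ∑ k ∈ Ed x m, c k = -1 := by
    rw [pat6_sum hp (fun k hk => (mem_Ed.1 hk).1), if_pos n0, if_neg n3, if_pos n1, if_pos n2]
    norm_num
  have s2 : ∑ l ∈ (Ed x m).filter (fun l => l ≤ 0 + 2 ∧ 0 ≤ l + 2), c l = 0 := by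
    rw [pat6_sum hp (fun k hk => (mem_Ed.1 (mem_filter.1 hk).1).1),
      if_pos (mem_filter.2 ⟨n0, by omega, by omega⟩),
      if_pos (mem_filter.2 ⟨n1, by omega, by omega⟩),
      if_neg (fun h5 => by have := (mem_filter.1 h5).2; omega),
      if_neg (fun h5 => by have := (mem_filter.1 h5).2; omega)]
    norm_num
  rw [hEt] at v5 v8 v10
  rw [card_singleton] at v5
  rw [sum_singleton] at v8 v10
  refine ⟨?_, ?_, ?_, ?_⟩
  · rw [v3, s1]
    unfold fa
    ring
  · rw [v5]
    norm_num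
  · rw [v8, s2]
    unfold fm
    ring
  · rw [v10]
    have : ({0} : Finset ℕ).filter (fun l => l ≤ 0 + 2 ∧ 0 ≤ l + 2) = {0} := by
      rw [filter_eq_self]
      intro l hl
      rw [mem_singleton] at hl
      omega
    rw [this, card_singleton]
    norm_num

/-- [DL .. LD], both ends closed -/
theorem NJ.vals6_two (h4 : 4 ≤ (st i (SS i t)).card) (hp : Pat6 m c β)
    (h0 : (uc (x 0)).card = 2) (hm1 : (uc (x m)).card = 2) :
    Vals i (SS i t) (fa i (SS i t)) (-2) (((Rd.ETs i (SS i t)).card : ℤ) - fm i (SS i t) x 0 -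
      fm i (SS i t) x (m - 1)) (2 - 2 * ((Rd.NfC i (SS i t)).card : ℤ)) := by
  classical
  have hm := hp.1
  obtain ⟨e1, e2, e3⟩ := h.inner_Ed hij hi1 B hm
  obtain ⟨v3, v5, v8, v10⟩ := h.rowc hij hi1 B h4
  have hEt : Et x m c = {0, m - 1} := by
    ext k
    rw [h.Et_six hij hi1 B hp k, mem_insert, mem_singleton]
    constructor
    · rintro (h5 | h5)
      · exact Or.inl h5.1
      · exact Or.inr h5.1
    · rintro (rfl | rfl)
      · exact Or.inl ⟨rfl, h0⟩
      · exact Or.inr ⟨rfl, hm1⟩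
  have hne : (0 : ℕ) ≠ m - 1 := by omega
  have n0 : 0 ∈ Ed x m := e2.2 h0
  have n1 := e1 1 (by omega) (by omega)
  have n2 := e1 (m - 2) (by omega) (by omega)
  have n3 : m - 1 ∈ Ed x m := e3.2 hm1
  have s1 : ∑ k ∈ Ed x m, c k = 0 := by
    rw [pat6_sum hp (fun k hk => (mem_Ed.1 hk).1), if_pos n0, if_pos n3, if_pos n1, if_pos n2]
    norm_num
  have s2 : ∑ l ∈ (Ed x m).filter (fun l => l ≤ 0 + 2 ∧ 0 ≤ l + 2), c l = 0 := by
    rw [pat6_sum hp (fun k hk => (mem_Ed.1 (mem_filter.1 hk).1).1),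
      if_pos (mem_filter.2 ⟨n0, by omega, by omega⟩),
      if_pos (mem_filter.2 ⟨n1, by omega, by omega⟩),
      if_neg (fun h5 => by have := (mem_filter.1 h5).2; omega),
      if_neg (fun h5 => by have := (mem_filter.1 h5).2; omega)]
    norm_num
  have s3 : ∑ l ∈ (Ed x m).filter (fun l => l ≤ m - 1 + 2 ∧ m - 1 ≤ l + 2), c l = 0 := by
    rw [pat6_sum hp (fun k hk => (mem_Ed.1 (mem_filter.1 hk).1).1),
      if_neg (fun h5 => by have := (mem_filter.1 h5).2; omega),
      if_neg (fun h5 => by have := (mem_filter.1 h5).2; omega),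
      if_pos (mem_filter.2 ⟨n2, by omega, by omega⟩),
      if_pos (mem_filter.2 ⟨n3, by omega, by omega⟩)]
    norm_num
  rw [hEt] at v5 v8 v10
  rw [card_pair hne] at v5
  rw [Finset.sum_pair hne] at v8 v10
  refine ⟨?_, ?_, ?_, ?_⟩
  · rw [v3, s1]
    unfold fa
    ring
  · rw [v5]
    norm_num
  · rw [v8, s2, s3]
    unfold fm
    ring
  · rw [v10]
    have e4 : ({0, m - 1} : Finset ℕ).filter (fun l => l ≤ 0 + 2 ∧ 0 ≤ l + 2) = {0} := by
      ext l
      rw [mem_filter, mem_insert, mem_singleton, mem_singleton]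
      omega
    have e5 : ({0, m - 1} : Finset ℕ).filter (fun l => l ≤ m - 1 + 2 ∧ m - 1 ≤ l + 2) =
        {m - 1} := by
      ext l
      rw [mem_filter, mem_insert, mem_singleton]
      omega
    rw [e4, e5, card_singleton, card_singleton]
    norm_num

end row

end Pool.Agent.GaussPoset.Wd

end

/-! From `Pool.Agent.W_448rc_h10.RcF` -/

section

/-!
MP_448cb3_co, G2, case B, window `j - 1`: the pinned sums of a pendant in terms of the pattern of
its row.  helper10.
-/

namespace Pool.Agent.GaussPoset.Wd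

set_option linter.unusedSectionVars false

open Finset Win Win.I2 Win.Rc EK

universe u

variable {P : Type u} [Fintype P] [PartialOrder P] [DecidableEq P] {r j i : ℕ}
  {t : Tops P} {lo hi : ℕ → ℕ} {e : ℕ → ℕ → P} {m : ℕ} {x : ℕ → P} {c : ℕ → ℤ} {β : ℤ}

lemma cg3_al (b : ℕ) (V : PowerSeries A) : T8.cg 3 b V = I2.al 3 b V := by
  unfold T8.cg I2.al
  rw [show T8.kk 3 = 1 from rfl, pow_one]

lemma cg5_be (b : ℕ) (V : PowerSeries A) : T8.cg 5 b V = I2.be 5 b V := by
  unfold T8.cg I2.be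
  rw [show T8.kk 5 = 2 from rfl]

lemma Vals.al {S : Finset P} {a b q8 q10 : ℤ} (v : Vals i S a b q8 q10) :
    I2.al 3 (st i S).card (ZS i S) = a ∧ I2.be 5 (st i S).card (ZS i S) = b :=
  ⟨by rw [← cg3_al]; exact v.a3, by rw [← cg5_be]; exact v.b5⟩

section row

variable (h : NJ P r j) (hij : i + 1 = j) (hi1 : 1 ≤ i) (B : RowB P j t m x c β)
include h hij hi1 B

/-- an edge meets an element of the row -/
lemma NJ.meet_se {k l : ℕ} (hl : l < m) (hk : k ≤ m) :
    ¬ Disjoint (se x l) (uc (x k)) ↔ l ≤ k + 1 ∧ k ≤ l + 2 := by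
  classical
  have hsh : ∀ a b, a ≤ m → b ≤ m → ((∃ y, y ∈ uc (x a) ∧ y ∈ uc (x b)) ↔
      a ≤ b + 1 ∧ b ≤ a + 1) := by
    have key : ∀ a b, a < b → b ≤ m → ((∃ y, y ∈ uc (x a) ∧ y ∈ uc (x b)) ↔ b = a + 1) := by
      intro a b hab hb
      have h1 := B.ucv_x a b hab hb
      unfold ucv at h1
      constructor
      · rintro ⟨y, h2, h3⟩
        by_contra h4
        rw [if_neg h4, card_eq_zero, filter_eq_empty_iff] at h1
        exact h1 (mem_univ y) ⟨mem_uc.1 h2, mem_uc.1 h3⟩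
      · intro h4
        rw [if_pos h4] at h1
        obtain ⟨y, hy⟩ := card_pos.1 (by rw [h1]; norm_num :
          0 < (univ.filter (fun y => x a ⋖ y ∧ x b ⋖ y)).card)
        rw [mem_filter] at hy
        exact ⟨y, mem_uc.2 hy.2.1, mem_uc.2 hy.2.2⟩
    intro a b ha hb
    rcases lt_trichotomy a b with hab | hab | hab
    · rw [key a b hab hb]
      omega
    · subst hab
      have h1 := B.row.lev_x a ha
      obtain ⟨y, hy⟩ := uc_nonempty h.g.H (x := x a) (by omega)
      constructor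
      · intro _
        omega
      · intro _
        exact ⟨y, hy, hy⟩
    · have := key b a hab ha
      constructor
      · rintro ⟨y, h1, h2⟩
        have := this.1 ⟨y, h2, h1⟩
        omega
      · intro h1
        obtain ⟨y, h2, h3⟩ := this.2 (by omega)
        exact ⟨y, h3, h2⟩
  rw [not_disjoint_iff]
  unfold se
  constructor
  · rintro ⟨y, h1, h2⟩
    rcases mem_union.1 h1 with h3 | h3
    · have := (hsh l k (by omega) hk).1 ⟨y, h3, h2⟩
      omega
    · have := (hsh (l + 1) k (by omega) hk).1 ⟨y, h3, h2⟩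
      omega
  · intro h1
    by_cases h2 : k ≤ l + 1
    · obtain ⟨y, h3, h4⟩ := (hsh l k (by omega) hk).2 (by omega)
      exact ⟨y, mem_union_left _ h3, h4⟩
    · obtain ⟨y, h3, h4⟩ := (hsh (l + 1) k (by omega) hk).2 (by omega)
      exact ⟨y, mem_union_right _ h3, h4⟩

open Classical in
/-- the balance of the three-site elements whose sites satisfy a test -/
theorem NJ.bal_test (R : Finset P → Prop) [DecidablePred R] :
    (((ZL i (SS i t)).filter (fun z => R (sit i z))).card : ℤ) -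
      (((ZU i (SS i t)).filter (fun z => R (sit i z))).card : ℤ) =
      ∑ l ∈ (Ed x m).filter (fun l => R (se x l)), c l := by
  obtain ⟨lo, hi, e, C⟩ := Cp.comp_exists h.g.H t.2 h.g.hr h.g.good
  obtain ⟨ρ, O⟩ := h.ori hij hi1 B C
  subst hij
  have W := C.toWin
  have hS : ∀ y, lev y ≤ i + 2 → (y ∈ SS i t ↔ y ≤ (t : P)) :=
    fun y hy => h.mem (i := i) (by omega) t (by omega)
  have hno : ∀ z : P, lev z = i + 2 → ¬ Hul.Jn z := fun z hz => h.no z (by omega)
  have hU : (((ZU i (SS i t)).filter (fun z => R (sit i z))).card : ℤ) =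
      ∑ a ∈ (Ioo (lo i) (hi i)).filter (fun a => R (Tr e i a)), (1 : ℤ) := by
    have hmap : ∀ z ∈ (ZU i (SS i t)).filter (fun z => R (sit i z)),
        sit i z ∈ (Trs e lo hi i).filter R := by
      intro z hz
      rw [mem_filter] at hz
      obtain ⟨a, a1, a2, a3, -⟩ := ZU_spec W h.g t.2 hS hz.1
      rw [mem_filter]
      refine ⟨?_, hz.2⟩
      unfold Trs
      rw [mem_image]
      exact ⟨a, mem_Ioo.2 ⟨a1, a2⟩, a3.symm⟩
    rw [card_eq_sum_card_fiberwise hmap]
    push_cast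
    rw [sum_trs W (fun k => ((((ZU i (SS i t)).filter (fun z => R (sit i z))).filter
      (fun z => sit i z = k)).card : ℤ)) R]
    refine sum_congr rfl fun a ha => ?_
    rw [mem_filter, mem_Ioo] at ha
    have h1 : ((ZU i (SS i t)).filter (fun z => R (sit i z))).filter
        (fun z => sit i z = Tr e i a) = (ZU i (SS i t)).filter (fun z => sit i z = Tr e i a) := by
      ext z
      rw [mem_filter, mem_filter, mem_filter]
      constructor
      · rintro ⟨⟨h1, -⟩, h2⟩
        exact ⟨h1, h2⟩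
      · rintro ⟨h1, h2⟩
        exact ⟨⟨h1, by rw [h2]; exact ha.2⟩, h2⟩
    rw [h1, card_ZU_Tr W h.g t.2 hS ha.1.1 ha.1.2]
    norm_num
  have hL : (((ZL i (SS i t)).filter (fun z => R (sit i z))).card : ℤ) =
      ∑ a ∈ (Ioo (lo i) (hi i)).filter (fun a => R (Tr e i a)), (Rc.dv e i a : ℤ) := by
    have hmap : ∀ z ∈ (ZL i (SS i t)).filter (fun z => R (sit i z)),
        sit i z ∈ (Trs e lo hi i).filter R := by
      intro z hz
      rw [mem_filter] at hz
      obtain ⟨a, a1, a2, a3, -⟩ := ZL_spec W h.g hi1 t.2 hS hno hz.1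
      rw [mem_filter]
      refine ⟨?_, hz.2⟩
      unfold Trs
      rw [mem_image]
      exact ⟨a, mem_Ioo.2 ⟨a1, a2⟩, a3.symm⟩
    rw [card_eq_sum_card_fiberwise hmap]
    push_cast
    rw [sum_trs W (fun k => ((((ZL i (SS i t)).filter (fun z => R (sit i z))).filter
      (fun z => sit i z = k)).card : ℤ)) R]
    refine sum_congr rfl fun a ha => ?_
    rw [mem_filter, mem_Ioo] at ha
    have h1 : ((ZL i (SS i t)).filter (fun z => R (sit i z))).filter
        (fun z => sit i z = Tr e i a) = (ZL i (SS i t)).filter (fun z => sit i z = Tr e i a) := by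
      ext z
      rw [mem_filter, mem_filter, mem_filter]
      constructor
      · rintro ⟨⟨h1, -⟩, h2⟩
        exact ⟨h1, h2⟩
      · rintro ⟨h1, h2⟩
        exact ⟨⟨h1, by rw [h2]; exact ha.2⟩, h2⟩
    rw [h1, card_ZL_Tr W h.g hi1 t.2 hS hno ha.1.1 ha.1.2]
    rfl
  rw [hU, hL, ← sum_sub_distrib,
    O.sum (fun a => (Rc.dv e i a : ℤ) - 1) (fun a => R (Tr e i a))]
  have h2 : (Ed x m).filter (fun k => R (Tr e i (ρ k))) =
      (Ed x m).filter (fun l => R (se x l)) := by
    apply filter_congr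
    intro k hk
    rw [O.tr k hk]
  rw [h2]
  refine sum_congr rfl fun l hl => ?_
  rw [O.dv l (mem_Ed.1 (mem_filter.1 hl).1).1]
  ring

open Classical in
/-- the number of the twins whose sites satisfy a test -/
theorem NJ.tws_test (R : Finset P → Prop) [DecidablePred R] :
    (((Pn.Tws i (SS i t)).filter (fun q => R (sit i q.1))).card : ℤ) =
      (((Et x m c).filter (fun l => R (se x l))).card : ℤ) := by
  obtain ⟨lo, hi, e, C⟩ := Cp.comp_exists h.g.H t.2 h.g.hr h.g.good
  obtain ⟨ρ, O⟩ := h.ori hij hi1 B C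
  subst hij
  have W := C.toWin
  have hS : ∀ y, lev y ≤ i + 2 → (y ∈ SS i t ↔ y ≤ (t : P)) :=
    fun y hy => h.mem (i := i) (by omega) t (by omega)
  have hno : ∀ z : P, lev z = i + 2 → ¬ Hul.Jn z := fun z hz => h.no z (by omega)
  rw [card_filter, card_filter]
  push_cast
  rw [sum_tws W h.g hi1 t.2 hS hno (fun k => if R k then (1 : ℤ) else 0),
    O.sum_D2 (fun b => if R (Tr e i b) then (1 : ℤ) else 0)]
  refine sum_congr rfl fun k hk => ?_
  rw [O.tr k (mem_Et.1 hk).1]

/-- the part of a pendant below the row -/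
lemma NJ.top_pen {p : P} {k : ℕ} (hk : k ≤ m) (hp : p ⋖ x k) : topOf p = t := by
  have h1 := B.row.lev_x k hk
  have h2 := lev_cov h.g.H hp
  rw [← B.row.kap k hk]
  exact h.split hp (by omega)

open Classical in
/-- the pinned sum at the energy five of a pendant below `x k` -/
theorem NJ.net5c (h4 : 4 ≤ (st i (SS i t)).card) {p : P} {k : ℕ} (hk : k ≤ m)
    (up : uc p = {x k}) (hp : p ∈ PD P i) :
    Pn.rho i (topOf : P → Tops P) 5 p - I2.al 3 (st i (SS i t)).card (ZS i (SS i t)) =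
      ∑ l ∈ (Ed x m).filter (fun l => l ≤ k + 1 ∧ k ≤ l + 2), c l - fa i (SS i t) := by
  have ht : topOf p = t := h.top_pen hij hi1 B hk (mem_uc.1 (by rw [up]; simp))
  have h1 := Pn.nj_net5 h hij hi1 hp (by
    rw [ht]
    exact Pn.nj_F5_three h hij hi1 t (by omega))
  rw [ht] at h1
  rw [h1]
  have hs : sit i p = uc (x k) := Pn.sit_PDs h.g.H hp up
  have h2 := h.bal_test hij hi1 B (fun K => ¬ Disjoint K (sit i p))
  have h3 : (Ed x m).filter (fun l => ¬ Disjoint (se x l) (sit i p)) =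
      (Ed x m).filter (fun l => l ≤ k + 1 ∧ k ≤ l + 2) := by
    apply filter_congr
    intro l hl
    rw [hs]
    exact h.meet_se hij hi1 B (mem_Ed.1 hl).1 hk
  rw [h3] at h2
  unfold fa
  rw [← h2]
  ring

open Classical in
/-- the pinned sum at the energy seven of a pendant below `x k` -/
theorem NJ.net7c (h4 : 4 ≤ (st i (SS i t)).card) {p : P} {k : ℕ} (hk : k ≤ m)
    (up : uc p = {x k}) (hp : p ∈ PD P i) :
    Pn.rho i (topOf : P → Tops P) 7 p - I2.be 5 (st i (SS i t)).card (ZS i (SS i t)) =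
      (((Et x m c).filter (fun l => l ≤ k + 1 ∧ k ≤ l + 2)).card : ℤ) := by
  have ht : topOf p = t := h.top_pen hij hi1 B hk (mem_uc.1 (by rw [up]; simp))
  have h1 := Pn.nj_net7 h hij hi1 hp
  rw [ht, Pn.nj_F5_three h hij hi1 t (by omega), card_empty] at h1
  rw [h1]
  have hs : sit i p = uc (x k) := Pn.sit_PDs h.g.H hp up
  have h2 := h.tws_test hij hi1 B (fun K => ¬ Disjoint K (sit i p))
  have h3 : (Et x m c).filter (fun l => ¬ Disjoint (se x l) (sit i p)) =
      (Et x m c).filter (fun l => l ≤ k + 1 ∧ k ≤ l + 2) := by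
    apply filter_congr
    intro l hl
    rw [hs]
    exact h.meet_se hij hi1 B (mem_Ed.1 (mem_Et.1 hl).1).1 hk
  rw [h3] at h2
  rw [h2]
  simp

end row

end Pool.Agent.GaussPoset.Wd

end

/-! From `Pool.Agent.W_448rc_h10.RcG` -/

section

/-!
MP_448cb3_co, G2, case B, window `j - 1`: the quadratic form of the charges in terms of the
pattern of the row.  helper10.
-/

namespace Pool.Agent.GaussPoset.Wd

set_option linter.unusedSectionVars false

open Finset Win Win.I2 Win.Rc EK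

universe u

variable {P : Type u} [Fintype P] [PartialOrder P] [DecidableEq P] {r j i : ℕ}
  {t : Tops P} {lo hi : ℕ → ℕ} {e : ℕ → ℕ → P} {m : ℕ} {x : ℕ → P} {c : ℕ → ℤ} {β : ℤ}
  {S : Finset P}

/-- weighted sums of the charges -/
lemma chg_sum (H : Gr P r) (f : P → ℤ) : ∑ z ∈ Chs i S, chg i S z * f z =
    ∑ z ∈ ZU i S, f z + ∑ z ∈ FL i S, f z - ∑ z ∈ ZL i S, f z - ∑ z ∈ FU' i S, f z := by
  have d1 : Disjoint (ZL i S) (ZU i S) := by
    rw [disjoint_left]
    intro z h1 h2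
    have := (mem_ZL.1 h1).2.1
    have := (mem_ZU.1 h2).2.1
    omega
  have d2 : Disjoint (ZL i S ∪ ZU i S) (FL i S) := by
    rw [disjoint_left]
    intro z h1 h2
    have h3 := lev_FL H h2
    rcases mem_union.1 h1 with h1 | h1
    · have := (mem_ZL.1 h1).2.1
      omega
    · have := (mem_ZU.1 h1).2.1
      omega
  have d3 : Disjoint (ZL i S ∪ ZU i S ∪ FL i S) (FU' i S) := by
    rw [disjoint_left]
    intro z h1 h2
    have h3 := lev_FU H h2
    rcases mem_union.1 h1 with h1 | h1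
    · rcases mem_union.1 h1 with h1 | h1
      · have := (mem_ZL.1 h1).2.1
        omega
      · have := (mem_ZU.1 h1).2.1
        omega
    · have := lev_FL H h1
      omega
  have c1 : ∀ z ∈ ZL i S, chg i S z = -1 := by
    intro z hz
    unfold chg
    rw [if_neg]
    intro h1
    have h2 := (mem_ZL.1 hz).2.1
    rcases mem_union.1 h1 with h1 | h1
    · have := (mem_ZU.1 h1).2.1
      omega
    · have := lev_FL H h1
      omega
  have c2 : ∀ z ∈ ZU i S, chg i S z = 1 := by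
    intro z hz
    unfold chg
    rw [if_pos (mem_union_left _ hz)]
  have c3 : ∀ z ∈ FL i S, chg i S z = 1 := by
    intro z hz
    unfold chg
    rw [if_pos (mem_union_right _ hz)]
  have c4 : ∀ z ∈ FU' i S, chg i S z = -1 := by
    intro z hz
    unfold chg
    rw [if_neg]
    intro h1
    have h2 := lev_FU H hz
    rcases mem_union.1 h1 with h1 | h1
    · have := (mem_ZU.1 h1).2.1
      omega
    · have := lev_FL H h1
      omega
  unfold Chs
  rw [sum_union d3, sum_union d2, sum_union d1]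
  rw [sum_congr rfl (fun z hz => by rw [c1 z hz, neg_one_mul] : ∀ z ∈ ZL i S, chg i S z * f z = - f z),
    sum_congr rfl (fun z hz => by rw [c2 z hz, one_mul] : ∀ z ∈ ZU i S, chg i S z * f z = f z),
    sum_congr rfl (fun z hz => by rw [c3 z hz, one_mul] : ∀ z ∈ FL i S, chg i S z * f z = f z),
    sum_congr rfl (fun z hz => by rw [c4 z hz, neg_one_mul] : ∀ z ∈ FU' i S, chg i S z * f z = - f z),
    sum_neg_distrib, sum_neg_distrib]
  ring

section row

variable (h : NJ P r j) (hij : i + 1 = j) (hi1 : 1 ≤ i) (B : RowB P j t m x c β)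
include h hij hi1 B

/-- weighted sums over the three-site elements -/
theorem NJ.wt_sum (f : Finset P → ℤ) :
    ∑ z ∈ ZL i (SS i t), f (sit i z) - ∑ z ∈ ZU i (SS i t), f (sit i z) =
      ∑ l ∈ Ed x m, c l * f (se x l) := by
  classical
  obtain ⟨lo, hi, e, C⟩ := Cp.comp_exists h.g.H t.2 h.g.hr h.g.good
  obtain ⟨ρ, O⟩ := h.ori hij hi1 B C
  subst hij
  have W := C.toWin
  have hS : ∀ y, lev y ≤ i + 2 → (y ∈ SS i t ↔ y ≤ (t : P)) :=
    fun y hy => h.mem (i := i) (by omega) t (by omega)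
  have hno : ∀ z : P, lev z = i + 2 → ¬ Hul.Jn z := fun z hz => h.no z (by omega)
  have fib : ∀ (s : Finset P) (n : ℕ → ℕ), (∀ z ∈ s, sit i z ∈ Trs e lo hi i) →
      (∀ a, lo i < a → a < hi i → (s.filter (fun z => sit i z = Tr e i a)).card = n a) →
      ∑ z ∈ s, f (sit i z) = ∑ a ∈ Ioo (lo i) (hi i), (n a : ℤ) * f (Tr e i a) := by
    intro s n hmap hn
    rw [← sum_fiberwise_of_maps_to hmap]
    have h2 := sum_trs W (fun k => ∑ q ∈ s.filter (fun q => sit i q = k), f (sit i q))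
      (fun _ => True)
    simp only [filter_true] at h2
    rw [h2]
    refine sum_congr rfl fun a ha => ?_
    rw [mem_Ioo] at ha
    rw [sum_congr rfl (fun q hq => by rw [(mem_filter.1 hq).2]), sum_const, nsmul_eq_mul,
      hn a ha.1 ha.2]
  have hU := fib (ZU i (SS i t)) (fun _ => 1) (by
    intro z hz
    obtain ⟨a, a1, a2, a3, -⟩ := ZU_spec W h.g t.2 hS hz
    unfold Trs
    rw [mem_image]
    exact ⟨a, mem_Ioo.2 ⟨a1, a2⟩, a3.symm⟩) (fun a a1 a2 => card_ZU_Tr W h.g t.2 hS a1 a2)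
  have hL := fib (ZL i (SS i t)) (fun a => Rc.dv e i a) (by
    intro z hz
    obtain ⟨a, a1, a2, a3, -⟩ := ZL_spec W h.g hi1 t.2 hS hno hz
    unfold Trs
    rw [mem_image]
    exact ⟨a, mem_Ioo.2 ⟨a1, a2⟩, a3.symm⟩)
    (fun a a1 a2 => card_ZL_Tr W h.g hi1 t.2 hS hno a1 a2)
  rw [hU, hL, ← sum_sub_distrib]
  have h3 := O.sum (fun a => (Rc.dv e i a : ℤ) * f (Tr e i a) - ((1 : ℕ) : ℤ) * f (Tr e i a))
    (fun _ => True)
  simp only [filter_true] at h3
  rw [h3]
  refine sum_congr rfl fun l hl => ?_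
  rw [O.dv l (mem_Ed.1 hl).1, O.tr l hl]
  push_cast
  ring

/-- two edges meet -/
lemma NJ.meet_ee {k l : ℕ} (hl : l < m) (hk : k < m) :
    ¬ Disjoint (se x l) (se x k) ↔ l ≤ k + 2 ∧ k ≤ l + 2 := by
  have h1 := h.meet_se hij hi1 B hl (show k ≤ m by omega)
  have h2 := h.meet_se hij hi1 B hl (show k + 1 ≤ m by omega)
  have h3 : ¬ Disjoint (se x l) (se x k) ↔
      ¬ Disjoint (se x l) (uc (x k)) ∨ ¬ Disjoint (se x l) (uc (x (k + 1))) := by
    conv_lhs => rw [show se x k = uc (x k) ∪ uc (x (k + 1)) from rfl, disjoint_union_right]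
    tauto
  rw [h3, h1, h2]
  omega

/-- THE QUADRATIC FORM, no pendant -/
theorem NJ.QQ_none (h0 : FL i (SS i t) = ∅) (h1 : FU' i (SS i t) = ∅) : Win.QQ i (SS i t) =
    ∑ l ∈ Ed x m, ∑ k ∈ (Ed x m).filter (fun k => l ≤ k + 2 ∧ k ≤ l + 2), c l * c k := by
  classical
  have H := h.g.H
  have key : ∀ f : Finset P → ℤ, ∑ z ∈ Chs i (SS i t), chg i (SS i t) z * f (sit i z) =
      - ∑ l ∈ Ed x m, c l * f (se x l) := by
    intro f
    rw [chg_sum H (fun z => f (sit i z)), h0, h1, ← h.wt_sum hij hi1 B f, sum_empty]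
    ring
  unfold Win.QQ
  have e1 : ∀ z ∈ Chs i (SS i t), ∑ z' ∈ Chs i (SS i t),
      (if Disjoint (sit i z) (sit i z') then (0 : ℤ) else
        chg i (SS i t) z * chg i (SS i t) z') =
      chg i (SS i t) z * (- ∑ l ∈ Ed x m, c l *
        (if Disjoint (sit i z) (se x l) then (0 : ℤ) else 1)) := by
    intro z _
    rw [← key (fun K => if Disjoint (sit i z) K then (0 : ℤ) else 1), mul_sum]
    refine sum_congr rfl fun z' _ => ?_
    split_ifs
    · ring
    · ring
  rw [sum_congr rfl e1, key (fun K => - ∑ l ∈ Ed x m, c l *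
        (if Disjoint K (se x l) then (0 : ℤ) else 1)), ← sum_neg_distrib]
  refine sum_congr rfl fun l hl => ?_
  rw [sum_filter, mul_neg, neg_neg, mul_sum]
  refine sum_congr rfl fun k hk => ?_
  have h2 := h.meet_ee hij hi1 B (mem_Ed.1 hl).1 (mem_Ed.1 hk).1
  by_cases h3 : Disjoint (se x l) (se x k)
  · rw [if_pos h3, if_neg (fun h4 => (h2.2 h4) h3)]
    ring
  · rw [if_neg h3, if_pos (h2.1 h3)]
    ring

/-- THE QUADRATIC FORM, a pendant at the element `x q` -/
theorem NJ.QQ_pend {q : ℕ} (hq : q ≤ m)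
    (h0 : ∀ z, z ∈ FL i (SS i t) ∨ z ∈ FU' i (SS i t) → sit i z = uc (x q)) : Win.QQ i (SS i t) =
    ∑ l ∈ Ed x m, ∑ k ∈ (Ed x m).filter (fun k => l ≤ k + 2 ∧ k ≤ l + 2), c l * c k -
      2 * fa i (SS i t) * ∑ l ∈ (Ed x m).filter (fun l => l ≤ q + 1 ∧ q ≤ l + 2), c l +
        fa i (SS i t) ^ 2 := by
  classical
  have H := h.g.H
  have key : ∀ f : Finset P → ℤ, ∑ z ∈ Chs i (SS i t), chg i (SS i t) z * f (sit i z) =
      - ∑ l ∈ Ed x m, c l * f (se x l) + fa i (SS i t) * f (uc (x q)) := by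
    intro f
    rw [chg_sum H (fun z => f (sit i z)), ← h.wt_sum hij hi1 B f,
      sum_congr rfl (fun z hz => by rw [h0 z (Or.inl hz)] :
        ∀ z ∈ FL i (SS i t), f (sit i z) = f (uc (x q))),
      sum_congr rfl (fun z hz => by rw [h0 z (Or.inr hz)] :
        ∀ z ∈ FU' i (SS i t), f (sit i z) = f (uc (x q))), sum_const, sum_const,
      nsmul_eq_mul, nsmul_eq_mul]
    unfold fa
    ring
  have hne : ¬ Disjoint (uc (x q)) (uc (x q)) := by
    have h1 := B.row.lev_x q hq
    obtain ⟨y, hy⟩ := uc_nonempty h.g.H (x := x q) (by omega)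
    rw [not_disjoint_iff]
    exact ⟨y, hy, hy⟩
  unfold Win.QQ
  have e1 : ∀ z ∈ Chs i (SS i t), ∑ z' ∈ Chs i (SS i t),
      (if Disjoint (sit i z) (sit i z') then (0 : ℤ) else
        chg i (SS i t) z * chg i (SS i t) z') =
      chg i (SS i t) z * (- ∑ l ∈ Ed x m, c l *
        (if Disjoint (sit i z) (se x l) then (0 : ℤ) else 1) +
        fa i (SS i t) * (if Disjoint (sit i z) (uc (x q)) then (0 : ℤ) else 1)) := by
    intro z _
    rw [← key (fun K => if Disjoint (sit i z) K then (0 : ℤ) else 1), mul_sum]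
    refine sum_congr rfl fun z' _ => ?_
    split_ifs
    · ring
    · ring
  rw [sum_congr rfl e1, key (fun K => - ∑ l ∈ Ed x m, c l *
        (if Disjoint K (se x l) then (0 : ℤ) else 1) +
        fa i (SS i t) * (if Disjoint K (uc (x q)) then (0 : ℤ) else 1))]
  rw [if_neg hne]
  have s1 : ∑ l ∈ Ed x m, c l * (- ∑ k ∈ Ed x m, c k *
      (if Disjoint (se x l) (se x k) then (0 : ℤ) else 1) +
        fa i (SS i t) * (if Disjoint (se x l) (uc (x q)) then (0 : ℤ) else 1)) =
      - ∑ l ∈ Ed x m, ∑ k ∈ (Ed x m).filter (fun k => l ≤ k + 2 ∧ k ≤ l + 2), c l * c k +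
      fa i (SS i t) * ∑ l ∈ (Ed x m).filter (fun l => l ≤ q + 1 ∧ q ≤ l + 2), c l := by
    rw [← sum_neg_distrib, mul_sum, sum_filter, ← sum_add_distrib]
    refine sum_congr rfl fun l hl => ?_
    have t1 : ∑ k ∈ (Ed x m).filter (fun k => l ≤ k + 2 ∧ k ≤ l + 2), c l * c k =
        c l * ∑ k ∈ Ed x m, c k * (if Disjoint (se x l) (se x k) then (0 : ℤ) else 1) := by
      rw [sum_filter, mul_sum]
      refine sum_congr rfl fun k hk => ?_
      have h2 := h.meet_ee hij hi1 B (mem_Ed.1 hl).1 (mem_Ed.1 hk).1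
      by_cases h3 : Disjoint (se x l) (se x k)
      · rw [if_pos h3, if_neg (fun h4 => (h2.2 h4) h3)]
        ring
      · rw [if_neg h3, if_pos (h2.1 h3)]
        ring
    rw [t1]
    have h2 := h.meet_se hij hi1 B (mem_Ed.1 hl).1 hq
    by_cases h3 : Disjoint (se x l) (uc (x q))
    · rw [if_pos h3, if_neg (fun h4 => (h2.2 h4) h3)]
      ring
    · rw [if_neg h3, if_pos (h2.1 h3)]
      ring
  have s2 : ∑ l ∈ Ed x m, c l * (if Disjoint (uc (x q)) (se x l) then (0 : ℤ) else 1) =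
      ∑ l ∈ (Ed x m).filter (fun l => l ≤ q + 1 ∧ q ≤ l + 2), c l := by
    rw [sum_filter]
    refine sum_congr rfl fun l hl => ?_
    have h2 := h.meet_se hij hi1 B (mem_Ed.1 hl).1 hq
    rw [disjoint_comm] at h2
    by_cases h3 : Disjoint (uc (x q)) (se x l)
    · rw [if_pos h3, if_neg (fun h4 => (h2.2 h4) h3)]
      ring
    · rw [if_neg h3, if_pos (h2.1 h3)]
      ring
  rw [s1, s2]
  ring

end row

end Pool.Agent.GaussPoset.Wd

end

/-! From `Pool.Agent.W_448rc_h10.RcH` -/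

section

/-!
MP_448cb3_co, G2, case B, window `j - 1`: the quadratic form of the charges, closed values on
the natural, ring, fold, closed and two-sided rows.  helper10.
-/

namespace Pool.Agent.GaussPoset.Wd

set_option linter.unusedSectionVars false

open Finset Win Win.I2 Win.Rc EK

universe u

variable {P : Type u} [Fintype P] [PartialOrder P] [DecidableEq P] {r j i : ℕ}
  {t : Tops P} {lo hi : ℕ → ℕ} {e : ℕ → ℕ → P} {m : ℕ} {x : ℕ → P} {c : ℕ → ℤ} {β : ℤ}
  {S : Finset P}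

/-- sums of a pattern which is supported on the edges `0` and `1` -/
lemma two_sum {s : Finset ℕ} (hs : ∀ k ∈ s, k < m) (f : ℕ → ℤ)
    (hc : ∀ k, 2 ≤ k → k < m → c k = 0) :
    ∑ k ∈ s, c k * f k = (if 0 ∈ s then c 0 * f 0 else 0) + (if 1 ∈ s then c 1 * f 1 else 0) := by
  classical
  have h1 : ∀ k ∈ s, c k * f k = (if k = 0 then c 0 * f 0 else 0) +
      (if k = 1 then c 1 * f 1 else 0) := by
    intro k hk
    rcases Nat.lt_or_ge k 2 with h2 | h2
    · interval_cases k
      · simp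
      · simp
    · rw [hc k h2 (hs k hk), if_neg (by omega), if_neg (by omega)]
      ring
  rw [sum_congr rfl h1, sum_add_distrib, sum_ite_eq', sum_ite_eq']

/-- the quadratic sum of a pattern supported on the edges `0` and `1` -/
lemma quad01 (x : ℕ → P) (hc : ∀ k, 2 ≤ k → k < m → c k = 0) :
    ∑ l ∈ Ed x m, ∑ k ∈ (Ed x m).filter (fun k => l ≤ k + 2 ∧ k ≤ l + 2), c l * c k =
      ((if 0 ∈ Ed x m then c 0 else 0) + (if 1 ∈ Ed x m then c 1 else 0)) ^ 2 := by
  classical
  have h1 : ∀ l ∈ Ed x m, ∑ k ∈ (Ed x m).filter (fun k => l ≤ k + 2 ∧ k ≤ l + 2), c l * c k =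
      c l * ((if 0 ∈ Ed x m then c 0 else 0) + (if 1 ∈ Ed x m then c 1 else 0)) := by
    intro l hl
    rcases Nat.lt_or_ge l 2 with h2 | h2
    · rw [← mul_sum]
      congr 1
      have h3 := two_sum (s := (Ed x m).filter (fun k => l ≤ k + 2 ∧ k ≤ l + 2)) (c := c)
        (fun k hk => (mem_Ed.1 (mem_filter.1 hk).1).1) (fun _ => 1) hc
      simp only [mul_one] at h3
      rw [h3]
      have e0 : (0 ∈ (Ed x m).filter (fun k => l ≤ k + 2 ∧ k ≤ l + 2)) ↔ 0 ∈ Ed x m := by
        rw [mem_filter]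
        constructor
        · intro h
          exact h.1
        · intro h
          exact ⟨h, by omega, by omega⟩
      have e1 : (1 ∈ (Ed x m).filter (fun k => l ≤ k + 2 ∧ k ≤ l + 2)) ↔ 1 ∈ Ed x m := by
        rw [mem_filter]
        constructor
        · intro h
          exact h.1
        · intro h
          exact ⟨h, by omega, by omega⟩
      simp only [e0, e1]
    · rw [hc l h2 (mem_Ed.1 hl).1]
      simp
  rw [sum_congr rfl h1, ← sum_mul]
  have h3 := two_sum (s := Ed x m) (c := c) (fun k hk => (mem_Ed.1 hk).1) (fun _ => 1) hc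
  simp only [mul_one] at h3
  rw [h3]
  ring

/-- the sum of a pattern supported on the edges `0` and `1` near an element -/
lemma near01 (x : ℕ → P) (q : ℕ) (hc : ∀ k, 2 ≤ k → k < m → c k = 0) :
    ∑ l ∈ (Ed x m).filter (fun l => l ≤ q + 1 ∧ q ≤ l + 2), c l =
      (if 0 ∈ Ed x m ∧ q ≤ 2 then c 0 else 0) + (if 1 ∈ Ed x m ∧ q ≤ 3 then c 1 else 0) := by
  classical
  have h3 := two_sum (s := (Ed x m).filter (fun l => l ≤ q + 1 ∧ q ≤ l + 2)) (c := c)
    (fun k hk => (mem_Ed.1 (mem_filter.1 hk).1).1) (fun _ => 1) hc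
  simp only [mul_one] at h3
  rw [h3]
  have e0 : (0 ∈ (Ed x m).filter (fun l => l ≤ q + 1 ∧ q ≤ l + 2)) ↔ (0 ∈ Ed x m ∧ q ≤ 2) := by
    rw [mem_filter]
    constructor
    · intro h
      exact ⟨h.1, by omega⟩
    · intro h
      exact ⟨h.1, by omega, by omega⟩
  have e1 : (1 ∈ (Ed x m).filter (fun l => l ≤ q + 1 ∧ q ≤ l + 2)) ↔ (1 ∈ Ed x m ∧ q ≤ 3) := by
    rw [mem_filter]
    constructor
    · intro h
      exact ⟨h.1, by omega⟩
    · intro h
      exact ⟨h.1, by omega, by omega⟩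
  simp only [e0, e1]

section row

variable (h : NJ P r j) (hij : i + 1 = j) (hi1 : 1 ≤ i) (B : RowB P j t m x c β)
include h hij hi1 B

/-- THE QUADRATIC FORM of a row whose pattern lives on the edges `0` and `1`: no pendant -/
theorem NJ.QQ01_none (hc : ∀ k, 2 ≤ k → k < m → c k = 0)
    (h0 : FL i (SS i t) = ∅) (h1 : FU' i (SS i t) = ∅) : Win.QQ i (SS i t) =
      ((if 0 ∈ Ed x m then c 0 else 0) + (if 1 ∈ Ed x m then c 1 else 0)) ^ 2 := by
  rw [h.QQ_none hij hi1 B h0 h1, quad01 x hc]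

/-- THE QUADRATIC FORM of a row whose pattern lives on the edges `0` and `1`: a pendant -/
theorem NJ.QQ01_pend (hc : ∀ k, 2 ≤ k → k < m → c k = 0) {q : ℕ} (hq : q ≤ m)
    (h0 : ∀ z, z ∈ FL i (SS i t) ∨ z ∈ FU' i (SS i t) → sit i z = uc (x q)) :
    Win.QQ i (SS i t) =
      ((if 0 ∈ Ed x m then c 0 else 0) + (if 1 ∈ Ed x m then c 1 else 0)) ^ 2 -
      2 * fa i (SS i t) * ((if 0 ∈ Ed x m ∧ q ≤ 2 then c 0 else 0) +
        (if 1 ∈ Ed x m ∧ q ≤ 3 then c 1 else 0)) + fa i (SS i t) ^ 2 := by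
  rw [h.QQ_pend hij hi1 B hq h0, quad01 x hc, near01 x q hc]

/-- natural rows -/
theorem NJ.QQ_nat (hc : ∀ k, k < m → c k = 0) {q : ℕ} (hq : q ≤ m)
    (h0 : ∀ z, z ∈ FL i (SS i t) ∨ z ∈ FU' i (SS i t) → sit i z = uc (x q)) :
    Win.QQ i (SS i t) = fa i (SS i t) ^ 2 := by
  rw [h.QQ01_pend hij hi1 B (fun k _ hk => hc k hk) hq h0]
  have e0 : (if 0 ∈ Ed x m then c 0 else 0) = 0 := by
    split_ifs with h1
    · exact hc 0 (mem_Ed.1 h1).1
    · rfl
  have e1 : (if 1 ∈ Ed x m then c 1 else 0) = 0 := by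
    split_ifs with h1
    · exact hc 1 (mem_Ed.1 h1).1
    · rfl
  have e2 : (if 0 ∈ Ed x m ∧ q ≤ 2 then c 0 else 0) = 0 := by
    split_ifs with h1
    · exact hc 0 (mem_Ed.1 h1.1).1
    · rfl
  have e3 : (if 1 ∈ Ed x m ∧ q ≤ 3 then c 1 else 0) = 0 := by
    split_ifs with h1
    · exact hc 1 (mem_Ed.1 h1.1).1
    · rfl
  rw [e0, e1, e2, e3]
  ring

/-- closed rows -/
theorem NJ.QQ_closed (hm : 2 ≤ m) (h4 : 4 ≤ (st i (SS i t)).card) (c0 : c 0 = 1) (c1 : c 1 = -1)
    (hc : ∀ k, 2 ≤ k → k < m → c k = 0) (hu : (uc (x 0)).card = 2) {q : ℕ} (hq : q ≤ m)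
    (h0 : ∀ z, z ∈ FL i (SS i t) ∨ z ∈ FU' i (SS i t) → sit i z = uc (x q)) :
    Win.QQ i (SS i t) = 2 * (if q = 3 then fa i (SS i t) else 0) + fa i (SS i t) ^ 2 := by
  classical
  have hE := h.Ed_eq hij hi1 B hm
  obtain ⟨-, h2, h3⟩ := h.inner hij hi1 B
  have h4' := h2 (by omega)
  have hme : m = 2 → (uc (x m)).card = 2 := by
    intro h5
    rcases h3 m le_rfl with h6 | h6
    · omega
    · exact h6
  have n0 : 0 ∈ Ed x m := by
    rw [hE, mem_filter, mem_range]
    exact ⟨by omega, fun _ => hu, fun h5 => by omega⟩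
  have n1 : 1 ∈ Ed x m := by
    rw [hE, mem_filter, mem_range]
    exact ⟨by omega, fun h1 => by omega, fun h1 => hme (by omega)⟩
  rw [h.QQ01_pend hij hi1 B hc hq h0, if_pos n0, if_pos n1, c0, c1]
  by_cases h5 : q ≤ 2
  · rw [if_pos ⟨n0, h5⟩, if_pos ⟨n1, by omega⟩, if_neg (by omega)]
    ring
  · rw [if_neg (fun h6 => h5 h6.2)]
    by_cases h7 : q = 3
    · rw [if_pos ⟨n1, by omega⟩, if_pos h7]
      ring
    · rw [if_neg (fun h6 => by omega), if_neg h7]
      ring

/-- THE QUADRATIC FORM of the two-sided rows -/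
theorem NJ.QQ6 (hp : Pat6 m c β) {q : ℕ} (hq : q ≤ m)
    (h0 : ∀ z, z ∈ FL i (SS i t) ∨ z ∈ FU' i (SS i t) → sit i z = uc (x q)) :
    Win.QQ i (SS i t) =
      (if 0 ∈ Ed x m then 0 else 1) + (if m - 1 ∈ Ed x m then 0 else 1) + (if m = 5 then 2 else 0) -
      2 * fa i (SS i t) * ((if 0 ∈ Ed x m ∧ q ≤ 2 then 1 else 0) + (if q ≤ 3 then -1 else 0) +
        (if m ≤ q + 3 then -1 else 0) + (if m - 1 ∈ Ed x m ∧ m ≤ q + 2 then 1 else 0)) +
      fa i (SS i t) ^ 2 := by
  classical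
  have hm : 5 ≤ m := hp.1
  obtain ⟨i1, -, -⟩ := h.inner_Ed hij hi1 B hm
  have n1 := i1 1 (by omega) (by omega)
  have n2 := i1 (m - 2) (by omega) (by omega)
  have nx : ∀ l ∈ Ed x m, ∑ k ∈ (Ed x m).filter (fun k => l ≤ k + 2 ∧ k ≤ l + 2), c l * c k =
      c l * ((if 0 ∈ Ed x m ∧ l ≤ 2 then 1 else 0) + (if l ≤ 3 then -1 else 0) +
        (if m ≤ l + 4 then -1 else 0) + (if m - 1 ∈ Ed x m ∧ m ≤ l + 3 then 1 else 0)) := by
    intro l hl
    have hlm := (mem_Ed.1 hl).1
    rw [← mul_sum, pat6_sum hp (fun k hk => (mem_Ed.1 (mem_filter.1 hk).1).1)]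
    have e0 : (0 ∈ (Ed x m).filter (fun k => l ≤ k + 2 ∧ k ≤ l + 2)) ↔ (0 ∈ Ed x m ∧ l ≤ 2) := by
      rw [mem_filter]
      constructor
      · intro h
        exact ⟨h.1, by omega⟩
      · intro h
        exact ⟨h.1, by omega, by omega⟩
    have e1 : (1 ∈ (Ed x m).filter (fun k => l ≤ k + 2 ∧ k ≤ l + 2)) ↔ l ≤ 3 := by
      rw [mem_filter]
      constructor
      · intro h
        omega
      · intro h
        exact ⟨n1, by omega, by omega⟩
    have e2 : (m - 2 ∈ (Ed x m).filter (fun k => l ≤ k + 2 ∧ k ≤ l + 2)) ↔ m ≤ l + 4 := by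
      rw [mem_filter]
      constructor
      · intro h
        omega
      · intro h
        exact ⟨n2, by omega, by omega⟩
    have e3 : (m - 1 ∈ (Ed x m).filter (fun k => l ≤ k + 2 ∧ k ≤ l + 2)) ↔
        (m - 1 ∈ Ed x m ∧ m ≤ l + 3) := by
      rw [mem_filter]
      constructor
      · intro h
        exact ⟨h.1, by omega⟩
      · intro h
        exact ⟨h.1, by omega, by omega⟩
    simp only [e0, e1, e2, e3]
  have nq : ∑ l ∈ (Ed x m).filter (fun l => l ≤ q + 1 ∧ q ≤ l + 2), c l =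
      (if 0 ∈ Ed x m ∧ q ≤ 2 then 1 else 0) + (if q ≤ 3 then -1 else 0) +
        (if m ≤ q + 3 then -1 else 0) + (if m - 1 ∈ Ed x m ∧ m ≤ q + 2 then 1 else 0) := by
    rw [pat6_sum hp (fun k hk => (mem_Ed.1 (mem_filter.1 hk).1).1)]
    have e0 : (0 ∈ (Ed x m).filter (fun l => l ≤ q + 1 ∧ q ≤ l + 2)) ↔ (0 ∈ Ed x m ∧ q ≤ 2) := by
      rw [mem_filter]
      constructor
      · intro h
        exact ⟨h.1, by omega⟩
      · intro h
        exact ⟨h.1, by omega, by omega⟩
    have e1 : (1 ∈ (Ed x m).filter (fun l => l ≤ q + 1 ∧ q ≤ l + 2)) ↔ q ≤ 3 := by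
      rw [mem_filter]
      constructor
      · intro h
        omega
      · intro h
        exact ⟨n1, by omega, by omega⟩
    have e2 : (m - 2 ∈ (Ed x m).filter (fun l => l ≤ q + 1 ∧ q ≤ l + 2)) ↔ m ≤ q + 3 := by
      rw [mem_filter]
      constructor
      · intro h
        omega
      · intro h
        exact ⟨n2, by omega, by omega⟩
    have e3 : (m - 1 ∈ (Ed x m).filter (fun l => l ≤ q + 1 ∧ q ≤ l + 2)) ↔
        (m - 1 ∈ Ed x m ∧ m ≤ q + 2) := by
      rw [mem_filter]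
      constructor
      · intro h
        exact ⟨h.1, by omega⟩
      · intro h
        exact ⟨h.1, by omega, by omega⟩
    simp only [e0, e1, e2, e3]
  rw [h.QQ_pend hij hi1 B hq h0, nq, sum_congr rfl nx]
  have hQ : ∑ l ∈ Ed x m, c l * ((if 0 ∈ Ed x m ∧ l ≤ 2 then 1 else 0) +
        (if l ≤ 3 then -1 else 0) +
        (if m ≤ l + 4 then -1 else 0) + (if m - 1 ∈ Ed x m ∧ m ≤ l + 3 then 1 else 0)) =
      (if 0 ∈ Ed x m then 0 else 1) + (if m - 1 ∈ Ed x m then 0 else 1) +
        (if m = 5 then 2 else (0 : ℤ)) := by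
    have g : ∀ l ∈ Ed x m, ∀ w : ℤ, c l * w = (if l = 0 then w else 0) +
        (if l = 1 then -w else 0) + (if l = m - 2 then -w else 0) +
        (if l = m - 1 then w else 0) := by
      intro l hl w
      rw [pat6_val hp (mem_Ed.1 hl).1]
      split_ifs <;> ring
    rw [sum_congr rfl (fun l hl => g l hl _), sum_add_distrib, sum_add_distrib, sum_add_distrib,
      sum_ite_eq', sum_ite_eq', sum_ite_eq', sum_ite_eq', if_pos n1, if_pos n2]
    have c1 : ¬ (m ≤ 0 + 4) := by omega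
    have c2 : ¬ (m - 1 ∈ Ed x m ∧ m ≤ 0 + 3) := fun h => by omega
    have c3 : (0 : ℕ) ≤ 3 := by omega
    have c4 : (1 : ℕ) ≤ 3 := by omega
    have c5 : ¬ (m - 1 ∈ Ed x m ∧ m ≤ 1 + 3) := fun h => by omega
    have c6 : ¬ (0 ∈ Ed x m ∧ m - 2 ≤ 2) := fun h => by omega
    have c7 : m ≤ m - 2 + 4 := by omega
    have c8 : ¬ (0 ∈ Ed x m ∧ m - 1 ≤ 2) := fun h => by omega
    have c9 : m ≤ m - 1 + 4 := by omega
    have c10 : ¬ (m - 1 ≤ 3) := by omega
    have d1 : (0 ∈ Ed x m ∧ 0 ≤ 2) ↔ 0 ∈ Ed x m := ⟨fun h => h.1, fun h => ⟨h, by omega⟩⟩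
    have d2 : (0 ∈ Ed x m ∧ 1 ≤ 2) ↔ 0 ∈ Ed x m := ⟨fun h => h.1, fun h => ⟨h, by omega⟩⟩
    have d3 : (m - 1 ∈ Ed x m ∧ m ≤ m - 2 + 3) ↔ m - 1 ∈ Ed x m :=
      ⟨fun h => h.1, fun h => ⟨h, by omega⟩⟩
    have d4 : (m - 1 ∈ Ed x m ∧ m ≤ m - 1 + 3) ↔ m - 1 ∈ Ed x m :=
      ⟨fun h => h.1, fun h => ⟨h, by omega⟩⟩
    have d5 : (m ≤ 1 + 4) ↔ m = 5 := by omega
    have d6 : (m - 2 ≤ 3) ↔ m = 5 := by omega
    rw [if_neg c1, if_neg c2, if_pos c3, if_pos c4, if_neg c5, if_neg c6, if_pos c7, if_neg c8,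
      if_pos c9, if_neg c10]
    simp only [d1, d2, d3, d4, d5, d6]
    by_cases a5 : m = 5
    · rw [if_pos a5, if_pos a5]
      by_cases a0 : 0 ∈ Ed x m
      · rw [if_pos a0, if_pos a0, if_pos a0]
        by_cases a1 : m - 1 ∈ Ed x m
        · rw [if_pos a1, if_pos a1, if_pos a1]
          norm_num
        · rw [if_neg a1, if_neg a1, if_neg a1]
          norm_num
      · rw [if_neg a0, if_neg a0, if_neg a0]
        by_cases a1 : m - 1 ∈ Ed x m
        · rw [if_pos a1, if_pos a1, if_pos a1]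
          norm_num
        · rw [if_neg a1, if_neg a1, if_neg a1]
          norm_num
    · rw [if_neg a5, if_neg a5]
      by_cases a0 : 0 ∈ Ed x m
      · rw [if_pos a0, if_pos a0, if_pos a0]
        by_cases a1 : m - 1 ∈ Ed x m
        · rw [if_pos a1, if_pos a1, if_pos a1]
          norm_num
        · rw [if_neg a1, if_neg a1, if_neg a1]
          norm_num
      · rw [if_neg a0, if_neg a0, if_neg a0]
        by_cases a1 : m - 1 ∈ Ed x m
        · rw [if_pos a1, if_pos a1, if_pos a1]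
          norm_num
        · rw [if_neg a1, if_neg a1, if_neg a1]
          norm_num
  rw [hQ]

end row

end Pool.Agent.GaussPoset.Wd

end

/-! From `Pool.Agent.W_448rc_h10.RcI` -/

section

/-!
MP_448cb3_co, G2, case B, window `j - 1`: the part of a functional with free weights which
comes from the window `j - 1`, in row terms (components with at least four sites).  helper10.
-/

namespace Pool.Agent.GaussPoset.Wd

set_option linter.unusedSectionVars false

open Finset Win Win.I2 Win.Rc EK Win.Pn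
open Pool.Agent.GaussPoset.Win.SO (F5 N1f N5f CQ envc)

universe u

variable {P : Type u} [Fintype P] [PartialOrder P] [DecidableEq P] {r j i : ℕ}
  {t : Tops P} {lo hi : ℕ → ℕ} {e : ℕ → ℕ → P} {m : ℕ} {x : ℕ → P} {c : ℕ → ℤ} {β : ℤ}
  {S : Finset P}

/-- the contribution of the window `j - 1` to the own value of a part -/
noncomputable def own1 (W : Wt) (i : ℕ) (t : Tops P) : ℤ :=
  W.a3 * A3 i t + W.a5 * B5 i t + W.a6 * C6 i t + W.a8 * C8 i t + W.a10 * C10 i t

/-- the contribution of the window `j` to the own value of a part -/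
noncomputable def own2 (W : Wt) (j : ℕ) (t : Tops P) : ℤ :=
  W.f2 * F2 j t + W.f4 * F4 j t + W.f3 * F3 j t + W.f6 * F6 j t

lemma own_eq (W : Wt) (i j : ℕ) (t : Tops P) : own W i j t = own1 W i t + own2 W j t := by
  unfold own own1 own2
  ring

/-- the sum over the closed pairs in the second order value -/
noncomputable def cqs (i : ℕ) (S : Finset P) : ℤ := ∑ w ∈ CQ i S, envc i S w

/-- the inner 3-site elements: private and common -/
noncomputable def n1 (i : ℕ) (S : Finset P) : ℤ := ((N1f i S).card : ℤ)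

noncomputable def n5 (i : ℕ) (S : Finset P) : ℤ := ((N5f i S).card : ℤ)

section row

variable (h : NJ P r j) (hij : i + 1 = j) (hi1 : 1 ≤ i)
include h hij hi1

lemma NJ.C6_eq (h4 : 4 ≤ (st i (SS i t)).card) :
    C6 i t = Win.QQ i (SS i t) + 2 * n1 i (SS i t) + 2 * n5 i (SS i t) +
      2 * cqs i (SS i t) := by
  unfold C6 n1 n5 cqs
  exact nj_Q6 h hij hi1 t (nj_F5_three h hij hi1 t (by omega))

/-- no closed pair: no term -/
lemma NJ.cqs_zero (h4 : 4 ≤ (st i (SS i t)).card)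
    (h5 : I2.be 5 (st i (SS i t)).card (ZS i (SS i t)) = 0) : cqs i (SS i t) = 0 := by
  have h1 := nj_be5_CQ h hij hi1 t (nj_F5_three h hij hi1 t (by omega))
  rw [h5] at h1
  have h2 : (CQ i (SS i t)).card = 0 := by
    have : ((CQ i (SS i t)).card : ℤ) = 0 := by linarith
    exact_mod_cast this
  unfold cqs
  rw [card_eq_zero.1 h2, sum_empty]

lemma NJ.nfc (t : Tops P) : ((Rd.NfC i (SS i t)).card : ℤ) = n5 i (SS i t) := by
  unfold n5
  rw [W1.nfc_eq h hij hi1 t]

/-- from the values to the functional -/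
theorem NJ.own1_of (W : Wt) (h4 : 4 ≤ (st i (SS i t)).card) {a b q8 q10 Q : ℤ}
    (v : Vals i (SS i t) a b q8 q10) (hQ : Win.QQ i (SS i t) = Q) :
    own1 W i t = W.a3 * a + W.a5 * b +
      W.a6 * (Q + 2 * n1 i (SS i t) + 2 * n5 i (SS i t) + 2 * cqs i (SS i t)) +
        W.a8 * q8 + W.a10 * q10 := by
  obtain ⟨e3, e5⟩ := v.al
  have e6 := NJ.C6_eq h hij hi1 h4
  rw [hQ] at e6
  have e8 : C8 i t = q8 := v.q8
  have e10 : C10 i t = q10 := v.q10
  have f3 : A3 i t = a := e3
  have f5 : B5 i t = b := e5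
  unfold own1
  rw [e6, e8, e10, f3, f5]

variable (B : RowB P j t m x c β)
include B

/-- natural rows -/
theorem NJ.own1_nat (W : Wt) (h4 : 4 ≤ (st i (SS i t)).card) (hc : ∀ k, k < m → c k = 0) {q : ℕ}
    (hq : q ≤ m) (h0 : ∀ z, z ∈ FL i (SS i t) ∨ z ∈ FU' i (SS i t) → sit i z = uc (x q)) :
    own1 W i t = W.a3 * fa i (SS i t) +
      W.a6 * (fa i (SS i t) ^ 2 + 2 * n1 i (SS i t) + 2 * n5 i (SS i t)) -
        2 * W.a10 * n5 i (SS i t) := by
  have v := h.vals_nat hij hi1 B h4 hc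
  rw [NJ.own1_of h hij hi1 W h4 v (h.QQ_nat hij hi1 B hc hq h0), NJ.nfc h hij hi1 t,
    NJ.cqs_zero h hij hi1 h4 v.al.2]
  ring

/-- closed rows -/
theorem NJ.own1_closed (W : Wt) (hm : 2 ≤ m) (h4 : 4 ≤ (st i (SS i t)).card) (c0 : c 0 = 1)
    (c1 : c 1 = -1) (hc : ∀ k, 2 ≤ k → k < m → c k = 0) (hu : (uc (x 0)).card = 2) {q : ℕ}
    (hq : q ≤ m) (h0 : ∀ z, z ∈ FL i (SS i t) ∨ z ∈ FU' i (SS i t) → sit i z = uc (x q)) :
    own1 W i t = W.a3 * fa i (SS i t) - W.a5 +
      W.a6 * (2 * (if q = 3 then fa i (SS i t) else 0) + fa i (SS i t) ^ 2 +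
        2 * n1 i (SS i t) + 2 * n5 i (SS i t) + 2 * cqs i (SS i t)) +
      W.a8 * (((Rd.ETs i (SS i t)).card : ℤ) - fm i (SS i t) x 0) +
        W.a10 * (1 - 2 * n5 i (SS i t)) := by
  have v := h.vals_closed hij hi1 B hm h4 c0 c1 hc hu
  rw [NJ.nfc h hij hi1 t] at v
  rw [NJ.own1_of h hij hi1 W h4 v (h.QQ_closed hij hi1 B hm h4 c0 c1 hc hu hq h0)]
  ring

/-- the share of a pendant over `x k` in row terms -/
theorem NJ.shr_row (W : Wt) (h4 : 4 ≤ (st i (SS i t)).card) {p : P} {k : ℕ} (hk : k ≤ m)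
    (up : uc p = {x k}) (hp : p ∈ PD P i) :
    shr W i p = zc i (topOf : P → Tops P) p * (W.a5 + W.a10) -
      4 * W.a6 * zc i (topOf : P → Tops P) p * (kc p + nn i p - 3) -
      2 * W.a6 * ∑ z ∈ zs i (topOf : P → Tops P) p, kc z -
      2 * W.a8 * zc i (topOf : P → Tops P) p *
        (∑ l ∈ (Ed x m).filter (fun l => l ≤ k + 1 ∧ k ≤ l + 2), c l - fa i (SS i t)) -
      4 * W.a10 * zc i (topOf : P → Tops P) p *
        (((Et x m c).filter (fun l => l ≤ k + 1 ∧ k ≤ l + 2)).card : ℤ) +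
      (2 * W.a10 - W.a8) * (zc i (topOf : P → Tops P) p * (zc i (topOf : P → Tops P) p - 1)) -
      (W.a6 - W.a8 + W.a10) * ∑ z ∈ zs i (topOf : P → Tops P) p,
        ((tw i (topOf : P → Tops P) z).card : ℤ) := by
  have ht : topOf p = t := by
    have h1 : p ⋖ x k := by
      have : x k ∈ uc p := by
        rw [up]
        exact mem_singleton_self _
      exact (mem_uc).1 this
    exact h.top_pen hij hi1 B hk h1
  have e5 := h.net5c hij hi1 B h4 hk up hp
  have e7 := h.net7c hij hi1 B h4 hk up hp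
  unfold shr A3 B5
  rw [ht, e5, e7]

end row

end Pool.Agent.GaussPoset.Wd

end

/-! From `Pool.Agent.W_448cu_h16.CuC` -/

section

/-!
# The counting theorem in case B (MP_448cb3_co)

The light components with at most three sites and the value `-1` at the energy three are at most
four times as many as the components with two stars.
-/

namespace Pool.Agent.GaussPoset.EK

set_option linter.unusedSectionVars false

open Finset Win St Polynomial Wd

universe u

variable {P : Type u} [Fintype P] [PartialOrder P] [DecidableEq P] {r j : ℕ}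

variable {K : Finset P} {psi : P → P}

/-- a light component with at most three sites and the value `-1` at the energy three -/
def SL (j : ℕ) (K : Finset P) (t : Tops P) : Prop :=
  Pn.F3 j t = -1 ∧ (st j (cext (j + 1) (topOf : P → Tops P) t)).card ≤ 3 ∧
    ∀ z y v : P, K2.SD j (topOf : P → Tops P) z y v → topOf v = t →
      sa j (topOf : P → Tops P) K (uc v) (topOf v) = 0

/-- a component with two stars -/
def Is6 (j : ℕ) (t : Tops P) : Prop :=
  ∃ (m : ℕ) (x : ℕ → P) (c : ℕ → ℤ) (β : ℤ), RowB P j t m x c β ∧ Pat6 m c β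

lemma row_sites (h : NJ P r j) {t : Tops P} {m : ℕ} {x : ℕ → P} {c : ℕ → ℤ} {β : ℤ}
    (B : RowB P j t m x c β) :
    m + 1 ≤ (st j (cext (j + 1) (topOf : P → Tops P) t)).card := by
  classical
  have h1 : (range (m + 1)).image x ⊆ st j (cext (j + 1) (topOf : P → Tops P) t) := by
    intro v hv
    obtain ⟨k, hk, rfl⟩ := mem_image.1 hv
    rw [mem_range] at hk
    rw [mem_sites h.split]
    exact ⟨B.row.lev_x k (by omega), B.row.kap k (by omega)⟩
  have h2 := card_le_card h1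
  rw [card_image_of_injOn, card_range] at h2
  · exact h2
  · intro a ha b hb hab
    rw [mem_coe, mem_range] at ha hb
    exact B.row.inj a b (by omega) (by omega) hab

section main

variable (h : NJ P r j) (hj : 2 ≤ j) (R : Red P j K psi)

include h hj

/-- a component without two stars is small -/
lemma NJ.small_not6 {t : Tops P} (h6 : ¬ Is6 j t) : Small j (topOf : P → Tops P) t := by
  obtain ⟨m, x, c, β, B⟩ := NJ.rowB h hj t
  exact (B.small h.g.H h.split).resolve_right fun hp => h6 ⟨m, x, c, β, B, hp⟩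

include R

end main

end Pool.Agent.GaussPoset.EK

end
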