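import Mathlib
import Pool.Agent.W_448zz_h61.Ns
import Pool.Agent.W_448zz_h61.M075
import Pool.Agent.W_448zz_h61.M172
import Pool.Agent.W_448zz_h61.M257

/-! From `Pool.Agent.W_448s8f_h76.GqE` -/

section

/-!
# No joins of two ends with two sites two levels above (MP_448cb3_co, S7 / S8)

The rows of the components with a flip and with an element of `FU'`.
-/

set_option autoImplicit false

namespace Pool.Agent.GaussPoset.Gq

set_option linter.unusedSectionVars false

open Finset Win Wd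
open Pool.Agent.GaussPoset.Win.SO (F5 mem_F5)
open Pool.Agent.GaussPoset.Win.So (Z2s mem_Z2s)

universe u

variable {P : Type u} [Fintype P] [PartialOrder P] [DecidableEq P] {r i j : ℕ}

section row

variable {t : Tops P} {lo hi : ℕ → ℕ} {e : ℕ → ℕ → P}

/-- the rows of a component with a flip -/
lemma flip_row (h : GoodTo P r (i + 2)) (hi1 : 1 ≤ i) (C : Cp.Comp (i + 2) (t : P) lo hi e)
    (hF : F5 i (SS i t) ≠ ∅) : 2 ≤ i ∧ hi i = lo i + 2 ∧
      ((lo (i - 1) = lo i ∧ lo (i - 1) = lo (i - 2) + 1 ∧ hi (i + 1) = hi i ∧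
          hi (i + 2) = hi (i + 1) + 1) ∨
        (hi i = hi (i - 1) + 1 ∧ hi (i - 1) = hi (i - 2) ∧ lo (i + 1) = lo i + 1 ∧
          lo (i + 2) = lo (i + 1))) := by
  classical
  have N := nj_of h
  have H := h.H
  obtain ⟨⟨p, q⟩, hpq⟩ := nonempty_iff_ne_empty.2 hF
  obtain ⟨y, u, a, s, b, F⟩ := Pf.nj_flp N rfl hi1 t hpq
  obtain ⟨psi, hM⟩ := good_mat N.g.H (N.g.good i (by omega))
  have Q := Pf.nj_pso N rfl hi1 hM t
  have W := (C.mono (i := i + 1) (by omega)).toWin
  have hS : ∀ y, lev y ≤ i + 1 → (y ∈ SS i t ↔ y ≤ (t : P)) := fun y hy =>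
    N.mem (by omega) t (by omega)
  obtain ⟨k, hk⟩ : ∃ k, i = k + 2 := ⟨i - 2, by have := F.lq; omega⟩
  obtain ⟨hV, hpos⟩ := Pf.flip_pos W N.g t.2 hS F hk Q.hC
  have i1 : i - 1 = k + 1 := by omega
  have i2 : i - 2 = k := by omega
  have lp := F.lp
  have hp : p ≤ (t : P) := le_of_SS h F.mp (by omega)
  obtain ⟨n, s1, s2, s3⟩ := C.surj p hp (by omega)
  rw [lp] at s1 s2 s3
  have hpD := F.pD
  rw [← s3] at hpD
  have hm := (C.mem_PD H h.good t.2 (i := i) le_rfl s1 s2).1 hpD
  have ly := F.ly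
  have hyt : y ≤ (t : P) := le_of_SS h (F.yC Q.hC) (by omega)
  obtain ⟨m, m1, m2, m3⟩ := C.surj y hyt (by omega)
  rw [ly] at m1 m2 m3
  have hpy := F.py
  rw [← s3, ← m3] at hpy
  have c1 := (C.cov (i + 1) n m (by omega) s1 s2 m1 m2).1 hpy
  have hya := F.ya
  rw [← m3] at hya
  have l1 := C.lo_le i (by omega)
  have a1 := C.lo_step i (by omega)
  have a2 := C.lo_step (i + 1) (by omega)
  have a3 := C.hi_step i (by omega)
  have a4 := C.hi_step (i + 1) (by omega)
  have e1 : i + 1 + 1 = i + 2 := by omega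
  rw [e1] at a2 a4
  refine ⟨by omega, hV, ?_⟩
  rw [i1, i2]
  rcases hpos with ⟨g1, g2, g3, g4, g5⟩ | ⟨g1, g2, g3, g4, g5⟩
  · left
    rw [g4] at hya
    have c2 := (C.cov i m (hi i) (by omega) m1 m2 l1 le_rfl).1 hya
    omega
  · right
    rw [g4] at hya
    have c2 := (C.cov i m (lo i) (by omega) m1 m2 le_rfl l1).1 hya
    omega

/-- the rows of a component with an element of `FU'` -/
lemma fup_row (h : GoodTo P r (i + 2)) (hi3 : 3 ≤ i) (C : Cp.Comp (i + 2) (t : P) lo hi e)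
    (hF : FU' i (SS i t) ≠ ∅) :
    ∃ s', ((lo i = lo (i - 1) ∧ s' + 1 = lo (i - 1)) ∨ (s' = hi (i - 1) ∧ hi i = hi (i - 1) + 1)) ∧
      ((s' = lo (i - 2) ∧ lo (i - 2) = lo (i - 3) + 1) ∨
        (s' = hi (i - 2) ∧ hi (i - 2) = hi (i - 3))) := by
  classical
  obtain ⟨k, rfl⟩ : ∃ k, i = k + 3 := ⟨i - 3, by omega⟩
  have H := h.H
  obtain ⟨w, hw⟩ := nonempty_iff_ne_empty.2 hF
  obtain ⟨hwS, z, hz, hdc⟩ := mem_FU'.1 hw
  have hzw : z ⋖ w := by rw [← mem_dc, hdc]; exact mem_singleton_self _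
  have lz : lev z = k + 1 := by have := (mem_PU.1 hz).1; omega
  have lw : lev w = k := by have := lev_cov H hzw; omega
  have hwt : w ≤ (t : P) := le_of_SS h hwS (by omega)
  have hzt : z ≤ (t : P) := hzw.le.trans hwt
  obtain ⟨s, s1, s2, s3⟩ := C.surj w hwt (by omega)
  obtain ⟨s', t1, t2, t3⟩ := C.surj z hzt (by omega)
  rw [lw] at s1 s2 s3
  rw [lz] at t1 t2 t3
  rw [← t3] at hz hzw
  rw [← s3] at hzw
  have hzp := (C.mem_PU H (i := k + 1) (by omega) t1 t2).1 hz
  have hcv := (C.cov k s' s (by omega) t1 t2 s1 s2).1 hzw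
  have hsd := (C.single_down H (k := k) (by omega) s1 s2).1 (by rw [s3, hdc, card_singleton])
  have m1 := C.lo_step k (by omega)
  have m2 := C.hi_step k (by omega)
  have e1 : k + 3 - 1 = k + 1 + 1 := by omega
  have e2 : k + 3 - 2 = k + 1 := by omega
  have e3 : k + 3 - 3 = k := by omega
  have e4 : k + 1 + 2 = k + 3 := by omega
  rw [e4] at hzp
  refine ⟨s', ?_, ?_⟩
  · rw [e1]
    rcases hzp with ⟨a1, a2, a3⟩ | ⟨a1, a2, a3⟩
    · exact Or.inl ⟨a2, a1⟩
    · exact Or.inr ⟨a1, a2⟩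
  · rw [e2, e3]
    omega

/-- no ends with two sites in the rectangles -/
lemma rect_nPD (h : GoodTo P r (i + 2)) (C : Cp.Comp (i + 2) (t : P) lo hi e)
    (hR : RectShape (i + 2) lo hi) {p : P} (hp : p ≤ (t : P)) : p ∉ PD P i := by
  intro hpD
  have lp := (mem_PD.1 hpD).1
  obtain ⟨s, s1, s2, s3⟩ := C.surj p hp (by omega)
  rw [lp] at s1 s2 s3
  rw [← s3] at hpD
  have hm := (C.mem_PD h.H h.good t.2 (i := i) le_rfl s1 s2).1 hpD
  have a1 := C.lo_step i (by omega)
  have a2 := C.lo_step (i + 1) (by omega)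
  have a3 := C.hi_step i (by omega)
  have a4 := C.hi_step (i + 1) (by omega)
  have a5 := C.hi_le (k := i) (by omega)
  have r1 := hR.lo (i + 1) (by omega)
  have r2 := hR.hi (i + 1) (by omega)
  have r3 := hR.hi i (by omega)
  have e1 : i + 1 + 1 = i + 2 := by omega
  rw [e1] at a2 a4 r1 r2
  omega

/-- no flip in the stairs -/
lemma stair_F5 (h : GoodTo P r (i + 2)) (hi1 : 1 ≤ i) (C : Cp.Comp (i + 2) (t : P) lo hi e)
    (hR : StairShape (i + 2) lo hi) : F5 i (SS i t) = ∅ := by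
  by_contra hF
  obtain ⟨hi2, hV, hpos⟩ := flip_row h hi1 C hF
  obtain ⟨k, rfl⟩ : ∃ k, i = k + 2 := ⟨i - 2, by omega⟩
  have e1 : k + 2 - 1 = k + 1 := by omega
  have e2 : k + 2 - 2 = k := by omega
  have e3 : k + 1 + 1 = k + 2 := by omega
  have e4 : k + 2 + 1 + 1 = k + 2 + 2 := by omega
  rw [e1, e2] at hpos
  have r1 := hR.lo (k + 1) (by omega)
  have r2 := hR.lo (k + 2 + 1) (by omega)
  rw [e3] at r1
  rw [e4] at r2
  omega

/-- `FU'` is empty in the stairs -/
lemma stair_FU (h : GoodTo P r (i + 2)) (hi3 : 3 ≤ i) (C : Cp.Comp (i + 2) (t : P) lo hi e)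
    (hR : StairShape (i + 2) lo hi) : FU' i (SS i t) = ∅ := by
  by_contra hF
  obtain ⟨s', h1, h2⟩ := fup_row h hi3 C hF
  obtain ⟨k, rfl⟩ : ∃ k, i = k + 3 := ⟨i - 3, by omega⟩
  have e1 : k + 3 - 1 = k + 2 := by omega
  have e2 : k + 3 - 2 = k + 1 := by omega
  have e3 : k + 3 - 3 = k := by omega
  rw [e1] at h1
  rw [e2, e3] at h2
  have r1 := hR.lo (k + 2) (by omega)
  have r2 := hR.lo (k + 1) (by omega)
  have r3 := hR.lo k (by omega)
  have a1 := C.lo_step (k + 2) (by omega)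
  have a2 := C.lo_step (k + 1) (by omega)
  have a3 := C.lo_step k (by omega)
  have b0 := hR.hi k (by omega)
  have b1 := hR.hi (k + 1) (by omega)
  have b2 := hR.hi (k + 2) (by omega)
  have b3 := hR.hi (k + 3) (by omega)
  have c1 := C.lo_le (k + 2) (by omega)
  have c2 := C.lo_le (k + 1) (by omega)
  have e4 : k + 1 + 1 = k + 2 := by omega
  have e5 : k + 2 + 1 = k + 3 := by omega
  rw [e5] at r1 a1
  rw [e4] at r2 a2
  omega

end row

/-- the number of sites of an element with one cover -/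
lemma nab_uc (H : Gr P r) {p y : P} (lp : lev p = i + 2) (hy : uc p = {y}) :
    nab i p = (uc y).card := by
  classical
  have hpy : p ⋖ y := by rw [← mem_uc, hy]; exact mem_singleton_self _
  have ly : lev y = i + 1 := by have := lev_cov H hpy; omega
  unfold nab
  congr 1
  ext v
  rw [mem_filter, mem_lv, mem_uc]
  constructor
  · rintro ⟨lv, hv⟩
    have hlt : p < v := lt_of_le_of_ne hv (by rintro rfl; omega)
    obtain ⟨w, hw1, hw2⟩ := Hul.exists_cov hlt
    have : w ∈ uc p := mem_uc.2 hw1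
    rw [hy, mem_singleton] at this
    subst this
    exact H.covBy_iff.2 ⟨lt_of_le_of_ne hw2 (by rintro rfl; omega), by omega⟩
  · intro hv
    have := lev_cov H hv
    exact ⟨by omega, hpy.le.trans hv.le⟩

end Pool.Agent.GaussPoset.Gq

end

/-! From `Pool.Agent.W_448s8f_h76.GqF` -/

section

/-!
# No joins of two ends with two sites two levels above (MP_448cb3_co, S7 / S8)
-/

set_option autoImplicit false

namespace Pool.Agent.GaussPoset.Gq

set_option linter.unusedSectionVars false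

open Finset Win Wd
open Pool.Agent.GaussPoset.Win.SO (F5 mem_F5)
open Pool.Agent.GaussPoset.Win.So (Z2s mem_Z2s)

universe u

variable {P : Type u} [Fintype P] [PartialOrder P] [DecidableEq P] {r i j : ℕ}

/-- the word of a component with a flip -/
def flipW (w : List Ltr) : Prop :=
  Hw w (w.length + 1) = Lw w (w.length + 1) + 2 ∧
    ((Lw w w.length = Lw w (w.length + 1) ∧ Lw w w.length = Lw w (w.length - 1) + 1 ∧
        Hw w (w.length + 2) = Hw w (w.length + 1) ∧
        Hw w (w.length + 3) = Hw w (w.length + 2) + 1) ∨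
      (Hw w (w.length + 1) = Hw w w.length + 1 ∧ Hw w w.length = Hw w (w.length - 1) ∧
        Lw w (w.length + 2) = Lw w (w.length + 1) + 1 ∧
        Lw w (w.length + 3) = Lw w (w.length + 2)))

instance (w : List Ltr) : Decidable (flipW w) := by unfold flipW; infer_instance

/-- the word of a component with an element of `FU'` -/
def fupW (w : List Ltr) : Prop :=
  (((Lw w (w.length + 1) = Lw w w.length ∧ Lw w (w.length - 1) + 1 = Lw w w.length) ∨
      (Lw w (w.length - 1) = Hw w w.length ∧ Hw w (w.length + 1) = Hw w w.length + 1)) ∧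
    Lw w (w.length - 1) = Lw w (w.length - 2) + 1) ∨
  (((Lw w (w.length + 1) = Lw w w.length ∧ Hw w (w.length - 1) + 1 = Lw w w.length) ∨
      (Hw w (w.length - 1) = Hw w w.length ∧ Hw w (w.length + 1) = Hw w w.length + 1)) ∧
    Hw w (w.length - 1) = Hw w (w.length - 2))

instance (w : List Ltr) : Decidable (fupW w) := by unfold fupW; infer_instance

/-- the data of the ends with two sites in the components with a flip and with `FU'` -/
def ChkG (j : ℕ) (S SU : List (ℕ × ℕ × ℕ)) : Prop :=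
  ∀ a ∈ range (j + 1), 2 ≤ a → ∀ w ∈ Sm.wds j a, w.length = j - a →
    ∀ A ∈ (Icc (Lw w (w.length + 3)) (Hw w (w.length + 3))).powerset, A.Nonempty →
      Sm.condA 0 w A → Sm.rhA w A = 1 →
        (flipW w → (Sm.mA w A, Sm.dA w A, Sm.rhA w A) ∈ S) ∧
          (fupW w → (Sm.mA w A, Sm.dA w A, Sm.rhA w A) ∈ SU)

instance (j : ℕ) (S SU : List (ℕ × ℕ × ℕ)) : Decidable (ChkG j S SU) := by
  unfold ChkG; infer_instance

section row

variable {t : Tops P} {lo hi : ℕ → ℕ} {e : ℕ → ℕ → P} {a : ℕ}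

/-- the rows from the word -/
lemma row_word (C : Cp.Comp j (t : P) lo hi e) (h : Sm.LateC j lo hi a) {k : ℕ}
    (h1 : a ≤ k + 3) (h2 : k ≤ j) :
    Lw (word lo hi a (j - a)) (k + 3 - a) = lo k ∧ Hw (word lo hi a (j - a)) (k + 3 - a) = hi k := by
  have hle := h.le
  rcases Nat.lt_or_ge k a with hk | hk
  · obtain ⟨l1, l2⟩ := h.low k hk
    rw [l1, l2]
    unfold Lw Hw
    rw [show k + 3 - a - 3 = 0 by omega, if_pos (by omega)]
    simp
  · have e1 := lo_word (a := a) (d := j - a) C.lo_step h.at_a.1 (hi := hi) (by omega) (k - a)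
      (by omega)
    have e2 := hi_word (a := a) (d := j - a) C.hi_step h.at_a.2 (lo := lo) (by omega) (k - a)
      (by omega)
    rw [show k - a + 3 = k + 3 - a by omega, show a + (k - a) = k by omega] at e1 e2
    exact ⟨e1, e2⟩

end row

variable {lo hi : Tops P → ℕ → ℕ} {e : Tops P → ℕ → ℕ → P}

/-- the data of an end with two sites in a component with a flip or with `FU'` -/
theorem pd_dat (K : Sm.Ctx P r (i + 2) lo hi e) {S SU : List (ℕ × ℕ × ℕ)}
    (hc : ChkG (i + 2) S SU) {p : P} (hp : p ∈ PD P i) :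
    (F5 i (SS i (topOf p)) ≠ ∅ → ∃ s ∈ S, Sm.Dt (i + 2) p s) ∧
      (FU' i (SS i (topOf p)) ≠ ∅ → ∃ s ∈ SU, Sm.Dt (i + 2) p s) := by
  classical
  have h : GoodTo P r (i + 2) := K.gt
  have h5 := K.h5
  have C := K.comp (topOf p)
  have lp := (mem_PD.1 hp).1
  have hpt : p ≤ (topOf p : P) := le_topOf p
  rcases Sm.shape_cases C (by omega) (K.shape (topOf p)) with hs | hs | ⟨a, hl, -⟩
  · exfalso
    obtain ⟨s, s1, s2, s3⟩ := C.surj p hpt (by omega)
    rw [lp] at s1 s2 s3
    have hp' := hp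
    rw [← s3] at hp'
    have hm := (C.mem_PD h.H h.good (topOf p).2 (i := i) le_rfl s1 s2).1 hp'
    have a0 := hs i (by omega)
    have a1 := hs (i + 1) (by omega)
    have a3 := C.lo_step i (by omega)
    omega
  · rcases hs with hs | hs
    · exact absurd hp (rect_nPD h C hs hpt)
    · exact ⟨fun hF => absurd (stair_F5 h (by omega) C hs) hF,
        fun hF => absurd (stair_FU h (by omega) C hs) hF⟩
  · have hon : p ∈ onlyB (topOf p) := mem_onlyB.mpr fun s hs hps =>
      h.top_eq (x := p) (by omega) hs (topOf p).2 hps hpt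
    have hend : (Win.uc p).card = 1 := (mem_PD.1 hp).2.1
    obtain ⟨A, g1, g2, g3, g4, g5, -, g7⟩ := Sm.late_side h (by omega) C hl.two hl.le hl.low
      hl.at_a hon (by omega) (fun _ => hend) rfl
    have hwl : (word (lo (topOf p)) (hi (topOf p)) a (i + 2 - a)).length = i + 2 - a := by simp
    obtain ⟨y, hy⟩ := card_eq_one.1 hend
    have hn : nab i p = 2 := by
      rw [nab_uc h.H lp hy]
      obtain ⟨-, -, y', hy', h2⟩ := mem_PD.1 hp
      have : y' ∈ uc p := mem_uc.2 hy'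
      rw [hy, mem_singleton] at this
      rw [← this]
      exact h2
    have hrh : Sm.rhA (word (lo (topOf p)) (hi (topOf p)) a (i + 2 - a)) A = 1 := by
      rw [show i + 2 - 2 = i by omega, hn] at g7
      omega
    have hd : 2 ≤ i + 2 - a := by
      unfold Sm.rhA at hrh
      split_ifs at hrh with hd
      · rw [hwl] at hd
        exact hd
    have hchk := hc a (mem_range.mpr (by have := hl.le; omega)) hl.two _ hl.word hwl A g1 g2
      (g3 0 (by omega)) hrh
    have hD : Sm.Dt (i + 2) p (Sm.mA (word (lo (topOf p)) (hi (topOf p)) a (i + 2 - a)) A,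
        Sm.dA (word (lo (topOf p)) (hi (topOf p)) a (i + 2 - a)) A,
        Sm.rhA (word (lo (topOf p)) (hi (topOf p)) a (i + 2 - a)) A) := ⟨g4, g5, g7⟩
    have r0 := row_word C hl (k := i) (by omega) (by omega)
    have r1 := row_word C hl (k := i - 1) (by omega) (by omega)
    have r2 := row_word C hl (k := i - 2) (by omega) (by omega)
    have r3 := row_word C hl (k := i - 3) (by omega) (by omega)
    have r4 := row_word C hl (k := i + 1) (by omega) (by omega)
    have r5 := row_word C hl (k := i + 2) (by omega) (by omega)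
    rw [show i + 1 + 3 - a = i + 2 - a + 2 by omega] at r4
    rw [show i + 2 + 3 - a = i + 2 - a + 3 by omega] at r5
    rw [show i + 3 - a = i + 2 - a + 1 by omega] at r0
    rw [show i - 1 + 3 - a = i + 2 - a by omega] at r1
    rw [show i - 2 + 3 - a = i + 2 - a - 1 by omega] at r2
    rw [show i - 3 + 3 - a = i + 2 - a - 2 by omega] at r3
    refine ⟨fun hF => ⟨_, hchk.1 ?_, hD⟩, fun hF => ⟨_, hchk.2 ?_, hD⟩⟩
    · obtain ⟨-, hV, hpos⟩ := flip_row h (by omega) C hF
      unfold flipW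
      rw [hwl, r0.1, r0.2, r1.1, r1.2, r2.1, r2.2, r4.1, r4.2, r5.1, r5.2]
      exact ⟨hV, hpos⟩
    · obtain ⟨s', b1, b2⟩ := fup_row h (by omega) C hF
      unfold fupW
      rw [hwl, r0.1, r0.2, r1.1, r1.2, r2.1, r2.2, r3.1, r3.2]
      rcases b2 with ⟨b2, b3⟩ | ⟨b2, b3⟩
      · left
        refine ⟨?_, b3⟩
        rw [b2] at b1
        exact b1
      · right
        refine ⟨?_, b3⟩
        rw [b2] at b1
        exact b1

/-- NO JOINS of two ends with two sites two levels above -/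
theorem no_pdpd (K : Sm.Ctx P r j lo hi e) {S SU : List (ℕ × ℕ × ℕ)} (hc : ChkG j S SU)
    (hff : ∀ z x x' : P, Sm.Cg z x x' → lev z = j + 1 → ∀ s s', s ∈ S → (s' ∈ S ∨ s' ∈ SU) →
      Sm.Dt j x s → Sm.Dt j x' s' → False) :
    ∀ z x x' : P, Sm.Cg z x x' → lev z = j + 1 → nab (j - 2) x = 2 → nab (j - 2) x' = 2 →
      False := by
  classical
  have h5 := K.h5
  obtain ⟨i, rfl⟩ : ∃ i, j = i + 2 := ⟨j - 2, by omega⟩
  rw [show i + 2 - 2 = i by omega]
  have h : GoodTo P r (i + 2) := K.gt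
  have H := h.H
  have hκ : Split (i + 2) (topOf : P → Tops P) := Wd.split_gt h
  have hon : ∀ p : P, lev p = i + 2 → p ∈ onlyB (topOf p) := fun p lp =>
    mem_onlyB.mpr fun s hs hps => h.top_eq (x := p) (by omega) hs (topOf p).2 hps (le_topOf p)
  have hE : Z2s i (topOf : P → Tops P) = ∅ := by
    refine z2_empty h (by omega) (by omega) ?_
    intro z p q hz hu hne hF
    have pD := (Pn.Z2s_cov H hκ hz (w := p) (by rw [hu]; simp)).1
    have qD := (Pn.Z2s_cov H hκ hz (w := q) (by rw [hu]; simp)).1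
    have lp := (mem_PD.1 pD).1
    have lq := (mem_PD.1 qD).1
    have cp : z ⋖ p := mem_uc.1 (by rw [hu]; simp)
    have cq : z ⋖ q := mem_uc.1 (by rw [hu]; simp)
    obtain ⟨lz, -⟩ := mem_Z2s.1 hz
    have htop : topOf p ≠ topOf q := by
      obtain ⟨p1, p2, y, y', D⟩ := So.Z2s_ZD H hκ hz
      have hc1 := D.cov
      have hn := D.ne
      rw [hu] at hc1
      have q1 : p ∈ ({p1, p2} : Finset P) := by rw [← hc1]; simp
      have q2 : q ∈ ({p1, p2} : Finset P) := by rw [← hc1]; simp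
      rw [mem_insert, mem_singleton] at q1 q2
      rcases q1 with q1 | q1 <;> rcases q2 with q2 | q2
      · exact absurd (q1.trans q2.symm) hne
      · rw [q1, q2]; exact hn
      · rw [q1, q2]; exact hn.symm
      · exact absurd (q1.trans q2.symm) hne
    have hcg : Sm.Cg z p q := Sm.Cg.mk' cp cq (hon p lp) (hon q lq) htop
    obtain ⟨s, hs, hD⟩ := (pd_dat K hc pD).1 hF
    constructor
    · by_contra hF'
      obtain ⟨s', hs', hD'⟩ := (pd_dat K hc qD).1 hF'
      exact hff z p q hcg (by omega) s s' hs (Or.inl hs') hD hD'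
    · by_contra hF'
      obtain ⟨s', hs', hD'⟩ := (pd_dat K hc qD).2 hF'
      exact hff z p q hcg (by omega) s s' hs (Or.inr hs') hD hD'
  intro z x x' hz hlz n1 n2
  obtain ⟨u1, u2⟩ := K.ends hz hlz
  obtain ⟨l1, l2⟩ := hz.lev_eq H
  obtain ⟨y, hy⟩ := card_eq_one.1 u1
  obtain ⟨y', hy'⟩ := card_eq_one.1 u2
  have hne : x ≠ x' := by rintro rfl; exact hz.ne rfl
  have huz : uc z = {x, x'} := by
    ext w
    rw [mem_uc, mem_insert, mem_singleton]
    constructor
    · exact fun hw => uc_two_of H hz.cov hz.cov' hne _ hw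
    · rintro (rfl | rfl)
      · exact hz.cov
      · exact hz.cov'
  rw [nab_uc H (by omega) hy] at n1
  rw [nab_uc H (by omega) hy'] at n2
  have := So.mem_Z2s_join h (by omega) huz hz.ne hy hy' n1 n2
  rw [hE] at this
  exact notMem_empty _ this

end Pool.Agent.GaussPoset.Gq

end

/-! From `Pool.Agent.W_448s8f_h76.GqG` -/

section

/-!
# The tables for the flips and `FU'` (MP_448cb3_co, S7 / S8)
-/

set_option autoImplicit false

namespace Pool.Agent.GaussPoset.Gq

set_option maxRecDepth 100000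

lemma gq12 : ChkG 12 [(3, 9, 1)] [(5, 20, 1), (1, 2, 1)] := by decide +kernel

lemma gq14 : ChkG 14 [(3, 9, 1)] [(10, 60, 1), (5, 20, 1), (1, 2, 1)] := by decide +kernel

end Pool.Agent.GaussPoset.Gq

end

/-! From `Pool.Agent.W_448six_h76.PqA` -/

section

/-!
MP_448cb3_co, G2, case B, window `j - 1`: the part of a row with two stars (`Pat6`).  No element hangs
below an inner element or a closed end, so there are no pendants of the window; the contribution of the
window `j - 1` to a functional with free weights, for the three kinds of ends.  helper76.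
-/

namespace Pool.Agent.GaussPoset.Wd

set_option linter.unusedSectionVars false

open Finset Win Win.I2 Win.Rc EK Win.Pn Win.W4
open Pool.Agent.GaussPoset.Win.SO (F5 N1f N5f CQ envc chc mem_N1f mem_N5f)

universe u

variable {P : Type u} [Fintype P] [PartialOrder P] [DecidableEq P] {r j i : ℕ}
  {t : Tops P} {m : ℕ} {x : ℕ → P} {c : ℕ → ℤ} {β : ℤ}

section row

variable (h : NJ P r j) (hij : i + 1 = j) (hi1 : 1 ≤ i)

include h hij in
/-- no pendants: nothing at the window `j - 1` -/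
lemma NJ.np_vals (hN : ∀ q ∈ SS i t, q ∉ PD P i ∧ q ∉ PU P i) :
    FL i (SS i t) = ∅ ∧ FU' i (SS i t) = ∅ ∧
      (PD P i).filter (fun p => (topOf p : Tops P) = t) = ∅ := by
  classical
  have H := h.g.H
  refine ⟨?_, ?_, ?_⟩
  · rw [eq_empty_iff_forall_notMem]
    intro w hw
    rw [mem_FL] at hw
    obtain ⟨hw1, z, hz1, hz2⟩ := hw
    have hzw : w ⋖ z := by rw [← mem_uc, hz2]; simp
    have hz : z ∈ SS i t := (h.part (i := i) (k := j + 1) (by omega) (by omega) t).up hw1 hzw
    exact (hN z hz).1 hz1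
  · rw [eq_empty_iff_forall_notMem]
    intro w hw
    rw [mem_FU'] at hw
    obtain ⟨hw1, z, hz1, hz2⟩ := hw
    have lz := (mem_PU.1 hz1).1
    have hzw : z ⋖ w := by rw [← mem_dc, hz2]; simp
    have lw := lev_cov H hzw
    have hwt : w ≤ (t : P) := (h.mem (by omega) t (by omega)).1 hw1
    have hzS : z ∈ SS i t := (h.mem (by omega) t (by omega)).2 (hzw.le.trans hwt)
    exact (hN z hzS).2 hz1
  · rw [eq_empty_iff_forall_notMem]
    intro q hq
    rw [mem_filter] at hq
    obtain ⟨hq1, hq2⟩ := hq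
    have lq := (mem_PD.1 hq1).1
    exact (hN q ((h.mem (by omega) t (by omega)).2 (hq2 ▸ le_topOf q))).1 hq1

include h hij in
/-- no pendants: no joins with a pendant -/
lemma NJ.np_N5f (hN : ∀ q ∈ SS i t, q ∉ PD P i ∧ q ∉ PU P i) : N5f i (SS i t) = ∅ := by
  classical
  have H := h.g.H
  rw [eq_empty_iff_forall_notMem]
  intro z hz
  rw [mem_N5f] at hz
  obtain ⟨hzS, ⟨hl, p, w, hp, hw, hu, -⟩ | ⟨hl, p, w, hp, hw, hu, -⟩⟩ := hz
  · have hpz : z ⋖ p := by rw [← mem_uc, hu]; simp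
    exact (hN p ((h.part (i := i) (k := j + 1) (by omega) (by omega) t).up hzS hpz)).1 hp
  · have hpz : p ⋖ z := by rw [← mem_dc, hu]; simp
    have lp := lev_cov H hpz
    have hzt : z ≤ (t : P) := (h.mem (by omega) t (by omega)).1 hzS
    exact (hN p ((h.mem (by omega) t (by omega)).2 (hpz.le.trans hzt))).2 hp

include h hij in
/-- no pendants: no inner joins over a twin and a pendant -/
lemma NJ.np_ETs (hN : ∀ q ∈ SS i t, q ∉ PD P i ∧ q ∉ PU P i) : Rd.ETs i (SS i t) = ∅ := by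
  classical
  have H := h.g.H
  rw [eq_empty_iff_forall_notMem]
  intro s hs
  rw [Rd.mem_ETs] at hs
  obtain ⟨p0, y0, E⟩ := hs
  have hl := E.lv H
  have hcp : s.2 ⋖ p0 := mem_dc.1 E.cp
  have hp : p0 ∈ SS i t := (h.part (i := i) (k := j + 1) (by omega) (by omega) t).up E.mc hcp
  refine (hN p0 hp).1 ?_
  rw [mem_PD]
  refine ⟨hl.1, by rw [E.up, card_singleton], y0, ?_, E.cy⟩
  rw [← mem_uc, E.up]
  exact mem_singleton_self _

include h hij in
/-- no pendants below: no pendants above -/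
lemma NJ.np_PU (hN : ∀ q ∈ SS i t, q ∉ PD P i) : ∀ q ∈ SS i t, q ∉ PU P i := by
  classical
  intro q hq hqu
  have hone := indiv_21 h.g i (by omega) t t.2
  have lq := (mem_PU.1 hqu).1
  have hqt : q ≤ (t : P) := (h.mem (by omega) t (by omega)).1 hq
  have h1 : q ∈ PUt i (t : P) := mem_PUt.2 ⟨hqu, hqt⟩
  have h2 : 1 ≤ (PUt i (t : P)).card := card_pos.2 ⟨q, h1⟩
  have h3 : PDt i (t : P) = ∅ := by
    rw [eq_empty_iff_forall_notMem]
    intro p hp
    rw [mem_PDt] at hp
    have lp := (mem_PD.1 hp.1).1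
    exact hN p ((h.mem (by omega) t (by omega)).2 hp.2) hp.1
  rw [h3, card_empty] at hone
  omega

variable (B : RowB P j t m x c β) (hp : Pat6 m c β)
include h hij B hp

/-- THE PART OF A ROW WITH TWO STARS has no pendants of the window `j - 1` -/
theorem NJ.no_pend6 : ∀ q ∈ SS i t, q ∉ PD P i ∧ q ∉ PU P i := by
  classical
  have H := h.g.H
  have h1 : ∀ q ∈ SS i t, q ∉ PD P i := by
    intro q hq hqd
    obtain ⟨lq, cq, -⟩ := mem_PD.1 hqd
    rw [← h.cext_eq (i := i) (by omega) t] at hq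
    have h2 := Pa.paM_dbl h B hp (y := q) (by omega) hq
    omega
  exact fun q hq => ⟨h1 q hq, NJ.np_PU h hij h1 q hq⟩

/-- the number of sites -/
theorem NJ.sites6 (hi1 : 1 ≤ i) : (st i (SS i t)).card =
    m + ((uc (x 0)).card - 1) + ((uc (x m)).card - 1) ∧ 5 ≤ (st i (SS i t)).card := by
  obtain ⟨-, h2, -⟩ := h.inner hij hi1 B
  have := hp.1
  have := h2 (by omega)
  exact ⟨this, by omega⟩

/-- no pendants: the numbers -/
theorem NJ.zero6 : fa i (SS i t) = 0 ∧ (∀ k, fm i (SS i t) x k = 0) ∧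
    (Rd.ETs i (SS i t)).card = 0 ∧ n5 i (SS i t) = 0 := by
  classical
  have hN := NJ.no_pend6 h hij B hp
  obtain ⟨f1, f2, -⟩ := NJ.np_vals h hij hN
  refine ⟨?_, ?_, ?_, ?_⟩
  · unfold fa
    rw [f1, f2]
    simp
  · intro k
    unfold fm
    rw [f1, f2]
    simp
  · rw [NJ.np_ETs h hij hN, card_empty]
  · unfold n5
    rw [NJ.np_N5f h hij hN]
    simp

/-- the shares of the part vanish -/
theorem NJ.shr6 (W : Wt) :
    ∑ p ∈ (PD P i).filter (fun p => (topOf p : Tops P) = t), shr W i p = 0 := by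
  obtain ⟨-, -, f3⟩ := NJ.np_vals h hij (NJ.no_pend6 h hij B hp)
  rw [f3, sum_empty]

include hi1

/-- [DL .. LD], the closed end on the right -/
theorem NJ.vals6_one' (h4 : 4 ≤ (st i (SS i t)).card)
    (h0 : (uc (x 0)).card = 1) (hm1 : (uc (x m)).card = 2) :
    Vals i (SS i t) (1 + fa i (SS i t)) (-1)
      (((Rd.ETs i (SS i t)).card : ℤ) - fm i (SS i t) x (m - 1))
      (1 - 2 * ((Rd.NfC i (SS i t)).card : ℤ)) := by
  classical
  have hm := hp.1
  obtain ⟨e1, e2, e3⟩ := h.inner_Ed hij hi1 B hm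
  obtain ⟨v3, v5, v8, v10⟩ := h.rowc hij hi1 B h4
  have hEt : Et x m c = {m - 1} := by
    ext k
    rw [h.Et_six hij hi1 B hp k, mem_singleton]
    constructor
    · rintro (h5 | h5) <;> omega
    · rintro rfl
      exact Or.inr ⟨rfl, hm1⟩
  have n0 : 0 ∉ Ed x m := by rw [e2]; omega
  have n1 := e1 1 (by omega) (by omega)
  have n2 := e1 (m - 2) (by omega) (by omega)
  have n3 : m - 1 ∈ Ed x m := e3.2 hm1
  have s1 : ∑ k ∈ Ed x m, c k = -1 := by
    rw [pat6_sum hp (fun k hk => (Wd.mem_Ed.1 hk).1), if_neg n0, if_pos n3, if_pos n1, if_pos n2]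
    norm_num
  have s3 : ∑ l ∈ (Ed x m).filter (fun l => l ≤ m - 1 + 2 ∧ m - 1 ≤ l + 2), c l = 0 := by
    rw [pat6_sum hp (fun k hk => (Wd.mem_Ed.1 (mem_filter.1 hk).1).1),
      if_neg (fun h5 => by have := (mem_filter.1 h5).2; omega),
      if_neg (fun h5 => by have := (mem_filter.1 h5).2; omega),
      if_pos (mem_filter.2 ⟨n2, by omega, by omega⟩),
      if_pos (mem_filter.2 ⟨n3, by omega, by omega⟩)]
    norm_num
  rw [hEt] at v5 v8 v10
  rw [card_singleton] at v5
  rw [sum_singleton] at v8 v10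
  refine ⟨?_, ?_, ?_, ?_⟩
  · rw [v3, s1]
    unfold fa
    ring
  · rw [v5]
    norm_num
  · rw [v8, s3]
    unfold fm
    ring
  · rw [v10]
    have e5 : ({m - 1} : Finset ℕ).filter (fun l => l ≤ m - 1 + 2 ∧ m - 1 ≤ l + 2) =
        {m - 1} := by
      rw [filter_eq_self]
      intro l hl
      rw [mem_singleton] at hl
      omega
    rw [e5, card_singleton]
    norm_num

/-- the quadratic form -/
theorem NJ.QQ6_np : Win.QQ i (SS i t) = (if (uc (x 0)).card = 2 then 0 else 1) +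
    (if (uc (x m)).card = 2 then 0 else 1) + (if m = 5 then 2 else 0) := by
  classical
  obtain ⟨f1, f2, -⟩ := NJ.np_vals h hij (NJ.no_pend6 h hij B hp)
  obtain ⟨z1, -, -, -⟩ := NJ.zero6 h hij B hp
  obtain ⟨-, e2, e3⟩ := h.inner_Ed hij hi1 B hp.1
  rw [h.QQ6 hij hi1 B hp (q := 0) (by omega) (by
    intro z hz
    rw [f1, f2] at hz
    simp at hz), z1]
  simp only [e2, e3]
  ring

/-- THE WINDOW `j - 1`, both ends closed -/
theorem NJ.own1_six_two (W : Wt) (h0 : (uc (x 0)).card = 2) (hm1 : (uc (x m)).card = 2) :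
    own1 W i t = -2 * W.a5 + W.a6 * ((if m = 5 then 2 else 0) + 2 * n1 i (SS i t) +
      2 * cqs i (SS i t)) + 2 * W.a10 := by
  obtain ⟨-, h5⟩ := NJ.sites6 h hij B hp hi1
  obtain ⟨z1, z2, z3, z4⟩ := NJ.zero6 h hij B hp
  have v := h.vals6_two hij hi1 B (by omega) hp h0 hm1
  rw [NJ.nfc h hij hi1 t] at v
  rw [NJ.own1_of h hij hi1 W (by omega) v (NJ.QQ6_np h hij hi1 B hp), if_pos h0, if_pos hm1, z1,
    z2, z2, z3, z4]
  push_cast
  ring

/-- THE WINDOW `j - 1`, the left end closed -/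
theorem NJ.own1_six_left (W : Wt) (h0 : (uc (x 0)).card = 2) (hm1 : (uc (x m)).card = 1) :
    own1 W i t = W.a3 - W.a5 + W.a6 * (1 + (if m = 5 then 2 else 0) + 2 * n1 i (SS i t) +
      2 * cqs i (SS i t)) + W.a10 := by
  obtain ⟨-, h5⟩ := NJ.sites6 h hij B hp hi1
  obtain ⟨z1, z2, z3, z4⟩ := NJ.zero6 h hij B hp
  have v := h.vals6_one hij hi1 B (by omega) hp h0 hm1
  rw [NJ.nfc h hij hi1 t] at v
  rw [NJ.own1_of h hij hi1 W (by omega) v (NJ.QQ6_np h hij hi1 B hp), if_pos h0,
    if_neg (by omega), z1, z2, z3, z4]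
  push_cast
  ring

/-- THE WINDOW `j - 1`, the right end closed -/
theorem NJ.own1_six_right (W : Wt) (h0 : (uc (x 0)).card = 1) (hm1 : (uc (x m)).card = 2) :
    own1 W i t = W.a3 - W.a5 + W.a6 * (1 + (if m = 5 then 2 else 0) + 2 * n1 i (SS i t) +
      2 * cqs i (SS i t)) + W.a10 := by
  obtain ⟨-, h5⟩ := NJ.sites6 h hij B hp hi1
  obtain ⟨z1, z2, z3, z4⟩ := NJ.zero6 h hij B hp
  have v := NJ.vals6_one' h hij hi1 B hp (by omega) h0 hm1
  rw [NJ.nfc h hij hi1 t] at v
  rw [NJ.own1_of h hij hi1 W (by omega) v (NJ.QQ6_np h hij hi1 B hp), if_neg (by omega),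
    if_pos hm1, z1, z2, z3, z4]
  push_cast
  ring

end row

section cq

variable (h : NJ P r j) (hij : i + 1 = j) (hi1 : 1 ≤ i)
include h hij hi1

/-- the bound for the closed pairs, with the children of the closed twins -/
theorem NJ.cqs_ge4 (h4 : 4 ≤ (st i (SS i t)).card) : 4 * ((CQ i (SS i t)).card : ℤ) +
    ∑ w ∈ CQ i (SS i t), ((chc i (SS i t) w).card : ℤ) ≤ cqs i (SS i t) := by
  have h1 : ∑ w ∈ CQ i (SS i t), (4 + ((chc i (SS i t) w).card : ℤ)) ≤ cqs i (SS i t) :=
    sum_le_sum fun w hw => nj_env_ge h hij hi1 t h4 hw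
  rw [sum_add_distrib, sum_const, nsmul_eq_mul] at h1
  linarith

theorem NJ.card_CQ_of (h4 : 4 ≤ (st i (SS i t)).card) {a b q8 q10 : ℤ}
    (v : Vals i (SS i t) a b q8 q10) : ((CQ i (SS i t)).card : ℤ) = -b := by
  have h1 := nj_be5_CQ h hij hi1 t (nj_F5_three h hij hi1 t (by omega))
  rw [v.al.2] at h1
  linarith

end cq

section row

variable (h : NJ P r j) (hij : i + 1 = j) (hi1 : 1 ≤ i) (B : RowB P j t m x c β)
  (hp : Pat6 m c β)
include h hij hi1 B hp

/-- the number of closed pairs of a row with two stars -/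
theorem NJ.card_CQ6 : ((CQ i (SS i t)).card : ℤ) = (if (uc (x 0)).card = 2 then 1 else 0) +
    (if (uc (x m)).card = 2 then 1 else 0) := by
  obtain ⟨-, h5⟩ := NJ.sites6 h hij B hp hi1
  obtain ⟨-, -, h3⟩ := h.inner hij hi1 B
  rcases h3 0 (by omega) with h0 | h0 <;> rcases h3 m le_rfl with hm1 | hm1
  · rw [NJ.card_CQ_of h hij hi1 (by omega) (h.vals6_open hij hi1 B (by omega) hp h0 hm1),
      if_neg (by omega), if_neg (by omega)]
    norm_num
  · rw [NJ.card_CQ_of h hij hi1 (by omega) (NJ.vals6_one' h hij hi1 B hp (by omega) h0 hm1),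
      if_neg (by omega), if_pos hm1]
    norm_num
  · rw [NJ.card_CQ_of h hij hi1 (by omega) (h.vals6_one hij hi1 B (by omega) hp h0 hm1),
      if_pos h0, if_neg (by omega)]
    norm_num
  · rw [NJ.card_CQ_of h hij hi1 (by omega) (h.vals6_two hij hi1 B (by omega) hp h0 hm1),
      if_pos h0, if_pos hm1]
    norm_num

/-- THE CLOSED PAIRS of a row with two stars, with the children of the closed twins -/
theorem NJ.cqs_six : 4 * ((if (uc (x 0)).card = 2 then 1 else 0) +
    (if (uc (x m)).card = 2 then 1 else 0)) +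
    ∑ w ∈ CQ i (SS i t), ((chc i (SS i t) w).card : ℤ) ≤ cqs i (SS i t) := by
  obtain ⟨-, h5⟩ := NJ.sites6 h hij B hp hi1
  have h1 := NJ.cqs_ge4 (t := t) h hij hi1 (by omega)
  rw [NJ.card_CQ6 h hij hi1 B hp] at h1
  exact h1

theorem NJ.cqs_six_two (h0 : (uc (x 0)).card = 2) (hm1 : (uc (x m)).card = 2) :
    8 + ∑ w ∈ CQ i (SS i t), ((chc i (SS i t) w).card : ℤ) ≤ cqs i (SS i t) := by
  have h1 := NJ.cqs_six h hij hi1 B hp
  rw [if_pos h0, if_pos hm1] at h1
  linarith

theorem NJ.cqs_six_one (h0 : ((uc (x 0)).card = 2 ∧ (uc (x m)).card = 1) ∨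
    ((uc (x 0)).card = 1 ∧ (uc (x m)).card = 2)) :
    4 + ∑ w ∈ CQ i (SS i t), ((chc i (SS i t) w).card : ℤ) ≤ cqs i (SS i t) := by
  have h1 := NJ.cqs_six h hij hi1 B hp
  rcases h0 with ⟨a, b⟩ | ⟨a, b⟩
  · rw [if_pos a, if_neg (by omega)] at h1
    linarith
  · rw [if_neg (by omega), if_pos b] at h1
    linarith

end row

section de

variable (h : NJ P r j) (hij : i + 1 = j) (B : RowB P j t m x c β)
include h hij B

/-- a pendant of the window `j` over a full edge is private below a three-site element -/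
theorem NJ.DE_N1f {k : ℕ} (hk : k ∈ Ed x m) :
    DE j (cext (j + 1) (topOf : P → Tops P) t) x k ⊆ N1f i (SS i t) := by
  classical
  have H := h.g.H
  intro z hz
  obtain ⟨hzC, hzp, hs⟩ := mem_DE.1 hz
  obtain ⟨lz, cz, y, hzy, cy⟩ := mem_PD.1 hzp
  obtain ⟨hkm, c0, c1⟩ := Wd.mem_Ed.1 hk
  obtain ⟨y', hy'⟩ := card_eq_one.1 cz
  have hyy : y = y' := by
    have : y ∈ uc z := mem_uc.2 hzy
    rwa [hy', mem_singleton] at this
  subst hyy
  have ly := lev_cov H hzy
  have hsy : uc y = {x k, x (k + 1)} := by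
    rw [← Pn.sit_PDs H hzp hy', hs]
    rfl
  have hC := part_cext H (le_refl (j + 1)) h.split t
  have hyC : y ∈ cext (j + 1) (topOf : P → Tops P) t := hC.up hzC hzy
  have hyS : y ∈ SS i t := by
    rw [← h.cext_eq (i := i) (by omega) t]
    exact hyC
  have hzS : z ∈ SS i t := by
    rw [← h.cext_eq (i := i) (by omega) t]
    exact hzC
  have hup : up i y = 3 := by
    rw [← card_sts]
    have e1 : sts i y = uc (x k) ∪ uc (x (k + 1)) := by
      ext v
      rw [mem_sts_iff H (by omega), hsy, mem_union]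
      constructor
      · rintro ⟨w, hw, hv⟩
        rw [mem_insert, mem_singleton] at hw
        rcases hw with rfl | rfl
        · exact Or.inl hv
        · exact Or.inr hv
      · rintro (hv | hv)
        · exact ⟨x k, by simp, hv⟩
        · exact ⟨x (k + 1), by simp, hv⟩
    have e2 : (uc (x k) ∩ uc (x (k + 1))).card = 1 := by
      have h1 := B.ucv_x k (k + 1) (by omega) (by omega)
      rw [if_pos rfl] at h1
      unfold ucv at h1
      have e4 : uc (x k) ∩ uc (x (k + 1)) = univ.filter (fun v => x k ⋖ v ∧ x (k + 1) ⋖ v) := by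
        ext v
        rw [mem_inter, mem_uc, mem_uc, mem_filter]
        exact ⟨fun a => ⟨mem_univ _, a⟩, fun a => a.2⟩
      rw [e4]
      exact h1
    have e3 := card_union_add_card_inter (uc (x k)) (uc (x (k + 1)))
    rw [e1]
    omega
  rw [mem_N1f]
  exact ⟨hzS, Or.inl ⟨by omega, y, mem_ZL.2 ⟨hyS, by omega, hup⟩, hy'⟩⟩

/-- THE PENDANTS OF THE WINDOW `j` over full edges are counted by the private elements below the
three-site elements of the window `j - 1` -/
theorem NJ.DE_le_n1 :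
    ∑ k ∈ Ed x m, ((DE j (cext (j + 1) (topOf : P → Tops P) t) x k).card : ℤ) ≤
      n1 i (SS i t) := by
  classical
  have hdj : ∀ k ∈ Ed x m, ∀ l ∈ Ed x m, k ≠ l →
      Disjoint (DE j (cext (j + 1) (topOf : P → Tops P) t) x k)
        (DE j (cext (j + 1) (topOf : P → Tops P) t) x l) := by
    intro k hk l hl hne
    rw [disjoint_left]
    intro z hz hz'
    have e1 := (mem_DE.1 hz).2.2
    have e2 := (mem_DE.1 hz').2.2
    rw [e1] at e2
    have a1 := (Wd.mem_Ed.1 hk).1
    have a2 := (Wd.mem_Ed.1 hl).1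
    have b1 : x k ∈ ed x l := by
      rw [← e2]
      unfold ed
      simp
    have b2 : x (k + 1) ∈ ed x l := by
      rw [← e2]
      unfold ed
      simp
    unfold ed at b1 b2
    rw [mem_insert, mem_singleton] at b1 b2
    rcases b1 with b1 | b1
    · exact hne (B.row.inj k l (by omega) (by omega) b1)
    · have g1 := B.row.inj k (l + 1) (by omega) (by omega) b1
      rcases b2 with b2 | b2
      · have g2 := B.row.inj (k + 1) l (by omega) (by omega) b2
        omega
      · have g2 := B.row.inj (k + 1) (l + 1) (by omega) (by omega) b2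
        omega
  have h1 := card_le_card (biUnion_subset.2 (fun k hk => NJ.DE_N1f h hij B hk))
  rw [card_biUnion hdj] at h1
  unfold n1
  exact_mod_cast h1

end de

section six

variable (h : NJ P r j) (hij : i + 1 = j) (hi1 : 1 ≤ i) (B : RowB P j t m x c β)
  (hp : Pat6 m c β)
include h hij hi1 B hp

/-- THE WINDOW `j - 1`, both ends closed; for the weights of STEP 0 (`Wst`) and of the level eight
(`Wei`) the hypotheses on the weights are `rfl` -/
theorem NJ.own6_two (W : Wt) (w6 : W.a6 = 1) (w5 : W.a5 = W.a10 + 6) (h0 : (uc (x 0)).card = 2)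
    (hm1 : (uc (x m)).card = 2) : 4 + (if m = 5 then 2 else 0) +
      2 * ∑ k ∈ Ed x m, ((DE j (cext (j + 1) (topOf : P → Tops P) t) x k).card : ℤ) +
      2 * ∑ w ∈ CQ i (SS i t), ((chc i (SS i t) w).card : ℤ) ≤ own1 W i t := by
  have h1 := NJ.own1_six_two h hij hi1 B hp W h0 hm1
  have h2 := NJ.cqs_six_two h hij hi1 B hp h0 hm1
  have h3 := NJ.DE_le_n1 h hij B
  rw [w6, w5] at h1
  rw [h1]
  linarith

/-- THE WINDOW `j - 1`, one end closed -/
theorem NJ.own6_one (W : Wt) (w3 : W.a3 = -1) (w6 : W.a6 = 1) (w5 : W.a5 = W.a10 + 6)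
    (h0 : ((uc (x 0)).card = 2 ∧ (uc (x m)).card = 1) ∨
    ((uc (x 0)).card = 1 ∧ (uc (x m)).card = 2)) : 2 + (if m = 5 then 2 else 0) +
      2 * ∑ k ∈ Ed x m, ((DE j (cext (j + 1) (topOf : P → Tops P) t) x k).card : ℤ) +
      2 * ∑ w ∈ CQ i (SS i t), ((chc i (SS i t) w).card : ℤ) ≤ own1 W i t := by
  have h2 := NJ.cqs_six_one h hij hi1 B hp h0
  have h3 := NJ.DE_le_n1 h hij B
  have h1 : own1 W i t = W.a3 - W.a5 + W.a6 * (1 + (if m = 5 then 2 else 0) +
      2 * n1 i (SS i t) + 2 * cqs i (SS i t)) + W.a10 := by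
    rcases h0 with ⟨a, b⟩ | ⟨a, b⟩
    · exact NJ.own1_six_left h hij hi1 B hp W a b
    · exact NJ.own1_six_right h hij hi1 B hp W a b
  rw [w3, w6, w5] at h1
  rw [h1]
  linarith

end six

end Pool.Agent.GaussPoset.Wd

end
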