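import Mathlib
import Pool.Agent.W_448zz_h61.Ns
import Pool.Agent.W_448zz_h61.M138
import Pool.Agent.W_448zz_h61.M139
import Pool.Agent.W_448zz_h61.M142
import Pool.Agent.W_448zz_h61.M143
import Pool.Agent.W_448zz_h61.M173
import Pool.Agent.W_448zz_h61.M186
import Pool.Agent.W_448zz_h61.M210
import Pool.Agent.W_448zz_h61.M258

/-! From `Pool.Agent.W_448s7_h27.PpA` -/

section

/-!
# `j = 14`: no twins and no pendants of the cells `(2, 13)` (MP_448cb3_co, S7)
-/

namespace Pool.Agent.GaussPoset.Sm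

set_option linter.unusedSectionVars false

open Polynomial Finset W4 Cp

universe u

variable {P : Type u} [Fintype P] [PartialOrder P] [DecidableEq P] {r j : ℕ}
  {lo hi : Tops P → ℕ → ℕ} {e : Tops P → ℕ → ℕ → P}

/-- the state `pg14` with the system of the window `3` -/
theorem pg14S (K : Ctx P r 14 lo hi e) (hJ : ∃ z : P, Hul.Jn z) :
    ∃ (V : ℕ → ℤ) (N : Tops P → Finset P) (θ3 θ4 : Tops P → P → ℕ) (v : ℕ),
      Bals P 14 cg14 nog14 neg14 lwf14 V ∧ StF P 14 V [99, 91, 76, 75] [43] ∧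
      Sy P 14 lo hi N θ3 θ4 ∧ MnS 14 3 N (fun t => hi t 3 - lo t 3 + 1) θ3 v ∧
      Wk r 14 3 (12 ^ 2 + 63) N (fun t => hi t 3 - lo t 3 + 1) θ3 ∧ 12 ^ 2 + 75 ≤ v := by
  classical
  obtain ⟨N2, b2, θ2, v2, W2, L2, M2, B2⟩ := K.sys2_14 hJ
  obtain ⟨V, hV2, hB, s3⟩ := ph14 K hJ (V2 := (v2 : ℤ) - ((14 + 1 - 2 : ℕ) : ℤ) ^ 2) B2
  have hv2 : 13 ^ 2 + 76 ≤ v2 := by
    have h1 := s3.bel.2 2 (by norm_num)
    rw [hV2] at h1
    simp only [List.getD_cons_succ, List.getD_cons_zero] at h1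
    norm_num at h1
    omega
  obtain ⟨N, θ3, θ4, S⟩ := exists_sy K (by norm_num)
  obtain ⟨v, M3, W3, B3⟩ := K.sys3_14 S W2 L2 M2 hv2 hJ
  obtain ⟨V', hV'⟩ : ∃ V' : ℕ → ℤ, V' = fun w => if w = 3 then (v : ℤ) -
      ((14 + 1 - 3 : ℕ) : ℤ) ^ 2 else V w := ⟨_, rfl⟩
  have hB' : Bals P 14 cg14 nog14 neg14 lwf14 V' := by
    intro w hw
    have : w = 0 ∨ w = 1 ∨ w = 2 ∨ w = 3 := by omega
    rcases this with rfl | rfl | rfl | rfl
    · rw [hV']; exact hB 0 (by norm_num)
    · rw [hV']; exact hB 1 (by norm_num)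
    · rw [hV']; exact hB 2 (by norm_num)
    · rw [hV']; exact B3
  have s4 : StF P 14 V' [91, 84, 76, 0] [43] := by
    have h0 := (StF.start hB').bel.2 3 le_rfl
    have a0 := s3.bel.2 0 (by norm_num)
    have a1 := s3.bel.2 1 (by norm_num)
    have a2 := s3.bel.2 2 (by norm_num)
    refine ⟨⟨rfl, fun w hw => ?_⟩, s3.kill⟩
    have : w = 0 ∨ w = 1 ∨ w = 2 ∨ w = 3 := by omega
    rcases this with rfl | rfl | rfl | rfl
    · rw [hV']; exact a0
    · rw [hV']; exact a1
    · rw [hV']; exact a2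
    · exact h0
  have s5 : StF P 14 V' [99, 91, 76, 75] [43] :=
    sg14_1 ▸ K.sweepF (noP_XN (P := P) 14) tabg14 hB' s4 300 9
  refine ⟨V', N, θ3, θ4, v, hB', s5, S, M3, W3, ?_⟩
  have h1 := s5.bel.2 3 le_rfl
  rw [hV'] at h1
  simp only [List.getD_cons_succ, List.getD_cons_zero] at h1
  norm_num at h1
  omega

/-- **no twins and no pendants of the cells `(2, 13)`** -/
theorem Ctx.noEP2_14 (K : Ctx P r 14 lo hi e) (hJ : ∃ z : P, Hul.Jn z) :
    NoE2 P 14 ∧ NoP2 P 14 := by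
  obtain ⟨V, N, θ3, θ4, v, -, -, S, M, W, hv⟩ := pg14S K hJ
  have hn3 : ∀ x : P, lev x = 14 + 1 → (∀ k, 4 ≤ k → k + 1 ≤ 14 → nab k x = 3) →
      nab 3 x ≠ 1 := by
    intro x hl h3 h
    have h4 := K.nab_one_two (x := x) (k := 3) (by norm_num) (by omega) h
    have h5 := h3 4 le_rfl (by norm_num)
    rw [h5] at h4
    omega
  constructor
  · intro x x' hne hl hup h3 h2
    have h6 := W.twin_ful S.unq3 M hne hup (by omega) (hn3 x hl h3)
    have h7 := ful_three (x := x) (j := 14) rfl hl (fun k h1 h2 => h3 k h1 (by omega)) h2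
    omega
  · intro z x hl h3 h2 hzx honly
    have H := K.gt.H
    have e1 := (H.covBy_iff.mp hzx).2
    have h6 := W.pend_ful S.unq3 (by norm_num) M hzx (fun y hy => honly y hy) (by omega)
      (by rw [h3 6 (by norm_num) (by norm_num)]) (hn3 x hl h3)
    have h7 := ful_three (x := x) (j := 14) rfl hl (fun k h1 h2 => h3 k h1 (by omega)) h2
    omega

end Pool.Agent.GaussPoset.Sm

end

/-! From `Pool.Agent.W_448s7_h27.PpC` -/

section

/-!
# `j = 14`: the partners of the fold ends; window `4` with expensive fold joins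
(MP_448cb3_co, S7)
-/

namespace Pool.Agent.GaussPoset.Sm

set_option linter.unusedSectionVars false

open Polynomial Finset W4 Cp

universe u

variable {P : Type u} [Fintype P] [PartialOrder P] [DecidableEq P] {r j : ℕ}
  {lo hi : Tops P → ℕ → ℕ} {e : Tops P → ℕ → ℕ → P}

/-- an end with two elements above it on the level `2` is a fold end -/
theorem Ctx.fold_of_two (K : Ctx P r 14 lo hi e) {x : P} (hl : lev x = 14)
    (hu : (Win.uc x).card = 1) (h2 : nab 2 x = 2) : Fold 14 x := by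
  have hox := K.only (x := x) hl.le
  rcases K.cases hox hl.ge (fun _ => hu) (fun h => by have := h.1; omega) with h | h | ⟨a, h, h3⟩
  · exact h
  · have := h 2 (by omega)
    omega
  · obtain ⟨e1, e2⟩ := h.low 2 (by have := h3 (by omega); omega)
    have := nab_one_of_eq (K.comp (topOf x)) hox (k := 2) (by omega) (by omega) (by rw [e1, e2])
    omega

lemma prof_nab {x : P} {p : List ℕ} (h : Fi.Prof 7 x (Fi.gD p)) {k : ℕ} (hk : k ≤ 14) :
    nab k x = 1 + p.getD (14 - k) 0 := by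
  have h1 := h (14 - k) (by omega)
  rwa [show 2 * 7 - (14 - k) = k by omega] at h1

/-- the data from the profile -/
lemma prof_dt {x : P} {p : List ℕ} (h : Fi.Prof 7 x (Fi.gD p)) :
    Dt 14 x (∑ k ∈ range 14, p.getD (14 - k) 0, ∑ k ∈ range 14, p.getD (14 - k) 0 * (14 - k),
      p.getD 2 0) := by
  refine ⟨?_, ?_, ?_⟩
  · unfold mX
    push_cast
    refine Finset.sum_congr rfl fun k hk => ?_
    rw [mem_range] at hk
    rw [prof_nab h (by omega)]
    push_cast
    ring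
  · unfold cX
    push_cast
    refine Finset.sum_congr rfl fun k hk => ?_
    rw [mem_range] at hk
    rw [prof_nab h (by omega), Nat.cast_sub (by omega : k ≤ 14)]
    push_cast
    ring
  · rw [prof_nab h (by norm_num)]
    exact Nat.add_comm _ _

/-- the partners of the fold ends, without (C) -/
def EF14 : List (ℕ × ℕ × ℕ) := [(1, 5, 0), (3, 9, 1), (5, 20, 1), (5, 25, 0), (10, 60, 1)]

/-- **the partners of the fold ends** -/
theorem Ctx.foL14 (K : Ctx P r 14 lo hi e) (hr : 15 ≤ r) (hC : NoCC P 14) :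
    FoL P 14 EF14 := by
  have H := K.gt.H
  intro z x x' h
  obtain ⟨a1, a2, -⟩ := K.partner h
  have hF : Fi.Fd 7 x := ⟨h.2.2.1, h.2.2.uc H (by norm_num), by
    have := h.2.2.2.2 2 (by norm_num)
    omega⟩
  have h1 := (F6.level14 (P := P) K.gt hr K.comp K.shape (fun z x x' g1 g2 g3 g4 g5 g6 => by
    have hl := (H.covBy_iff.mp g5).2
    have hlx := g1.1
    exact hC z x x' (by omega) (K.fold_of_two (by omega) g1.2.1 g1.2.2) g5 g6 g4.symm g2
      g3.symm)).2 z x x' hF h.1.ne h.1.cov h.1.cov'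
  rcases h1 with h1 | ⟨p, hp, h1⟩
  · exact Or.inl (K.fold_of_two a1 a2 h1.2.2)
  · right
    refine ⟨_, ?_, prof_dt h1⟩
    revert hp
    have : ∀ q ∈ ([[0, 0, 1, 1, 1], [0, 0, 1, 1, 1, 1, 1], Fi.p5, [0, 0, 0, 0, 0, 1], F6.pE] :
        List (List ℕ)), ((∑ k ∈ range 14, q.getD (14 - k) 0,
          ∑ k ∈ range 14, q.getD (14 - k) 0 * (14 - k), q.getD 2 0) : ℕ × ℕ × ℕ) ∈ EF14 := by
      decide +kernel
    exact this p

/-- the costs of the fold joins at the window `4` -/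
theorem Ctx.foc14 (K : Ctx P r 14 lo hi e) (hr : 15 ≤ r) (hC : NoCC P 14) :
    FoB P 14 189 ∧ ∀ z x x' : P, FJn 14 z x x' → 188 ≤ cst 4 (fun _ => 14 - 5) z := by
  have key : ∀ z x x' : P, FJn 14 z x x' → 188 ≤ cst 4 (fun _ => 14 - 5) z := by
    intro z x x' h
    have h3 := K.fo_ge (by norm_num) le_rfl (K.foL14 hr hC) (n := 188) (by decide +kernel)
      (by decide +kernel) h
    exact_mod_cast h3
  refine ⟨fun z x x' hz hl hf => ?_, key⟩
  have h3 := key z x x' ⟨hz, hl, hf⟩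
  have h4 := Ec.cst_lt_ful (z := z) (k := 14 - 5) (by omega)
  omega

end Pool.Agent.GaussPoset.Sm

namespace Pool.Agent.GaussPoset.Ec

set_option linter.unusedSectionVars false

open Polynomial Finset Sm Wd Cp W4 Cl

universe u

variable {P : Type u} [Fintype P] [PartialOrder P] [DecidableEq P] {r j : ℕ}
  {lo hi : Tops P → ℕ → ℕ} {e : Tops P → ℕ → ℕ → P} {N : Tops P → Finset P}
  {θ3 θ4 : Tops P → P → ℕ} {Nf : Tops P → Finset P} {θf : Tops P → (ℕ → ℕ → ℕ) → P → ℕ}
  {D : Tops P → Prop} {K3 K' V3 : ℕ} {b : Tops P → ℕ}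

/-- **Elimination at window `4`**, all fold joins cost more. -/
theorem Fs.killE (F : Fs P j lo hi e N θ4 Nf θf D) (K : Ctx P r j lo hi e) (h12 : 12 ≤ j)
    (Y : Y4 r j K3 K' V3 N b θ3 θ4) (hfo3 : j % 2 = 0 → foC 3 j + foE 3 j < V3)
    {n d : ℕ} (hn : n ≤ K')
    (hFo : ∀ z x x' : P, FJn j z x x' → n < cst 4 (fun _ => j - 5) z)
    (hjn : ∀ z x x' : P, Cg z x x' → n ≤ ful 4 z)
    {good : Tops P → (P → ℕ) → ℕ → Prop} (hdv : HDv P n d N θ4 Nf D good)
    (hK : ∀ e' F', Vd 4 e' F' → ∑ x, e' x = n → Ew.Ok (rA N) (thA N θ4) e' →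
      (El.KG (ED D) Nf good e').card ≤ d) {p : ℕ}
    (hp : ∀ z x x' : P, Cg z x x' → ful 4 z = n → d + 2 ≤ nab 4 z →
      nst 4 (fun z => lev z - 4) z % 2 = p) :
    ∀ z x x' : P, Cg z x x' → ful 4 z = n → nab 4 z ≤ d + 1 := by
  obtain ⟨h1, h2, h3⟩ := Y.own_noiseF hfo3 hn hjn fun z x x' h => (hFo z x x' h).le
  have h3' : ∀ z ∈ bdR (rA N), cst 4 (hA N θ4) z = n → SJn N θ3 θ4 z := by
    intro z hz hc
    rcases h3 z hz hc with h | ⟨⟨x, x', h4⟩, h5⟩
    · exact h
    · exfalso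
      have h6 := hFo z x x' h4
      rw [cst_const, h5] at hc
      omega
  exact (F.class_par K h12 Y (d := d) (p := p) h1
    (fun z hz hc => Or.inl (h3' z hz hc))
    (fun c0 hc hle => F.gsum_gen K h12 Y hdv (fun x hx => (h2 x hx).le) h1 hK hc hle)
    hp (fun z x x' h hc _ => absurd hc (hFo z x x' h).ne')).1

/-- **Elimination at window `4`, `j = 14`**, costs at most `191`, all fold joins cost more. -/
theorem Fs.killE14 (F : Fs P 14 lo hi e N θ4 Nf θf D) (K : Ctx P r 14 lo hi e)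
    (Y : Y4 r 14 K3 K' V3 N b θ3 θ4) (hfo3 : foC 3 14 + foE 3 14 < V3)
    {n : ℕ} (hn : n ≤ K')
    (hFo : ∀ z x x' : P, FJn 14 z x x' → n < cst 4 (fun _ => 14 - 5) z) (h191 : n ≤ 191)
    (hjn : ∀ z x x' : P, Cg z x x' → n ≤ ful 4 z) {p : ℕ}
    (hp : ∀ z x x' : P, Cg z x x' → ful 4 z = n → 3 ≤ nab 4 z →
      nst 4 (fun z => lev z - 4) z % 2 = p) :
    ∀ z x x' : P, Cg z x x' → ful 4 z = n → nab 4 z ≤ 2 := by
  obtain ⟨k1, k2, k3⟩ := cw14
  exact F.killE K (by norm_num) Y (fun _ => hfo3) hn hFo hjn (d := 1)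
    (F.hdv14 K Y (fun x hx => hn.trans_lt (Y.out_tw hx)))
    (fun e' F' hV hs hok => F.card_le_one K (by norm_num) Y row5_14 (cS := 100) de_14 k2
      (Or.inl rfl) k3 (by omega) (by omega) (by omega) (Or.inr ⟨by omega, Or.inl (by omega)⟩)
      hV hs hok) hp

end Pool.Agent.GaussPoset.Ec

end

/-! From `Pool.Agent.W_448pg_h74.WuC` -/

section

/-!
# The windows `2`, `3` for `j = 14`, the cells `(2, 13)` without twins and pendants
(MP_448cb3_co, S7)
-/

namespace Pool.Agent.GaussPoset.Sm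

set_option linter.unusedSectionVars false

open Polynomial Finset W4 Cp

universe u

variable {P : Type u} [Fintype P] [PartialOrder P] [DecidableEq P] {r : ℕ}
  {lo hi : Tops P → ℕ → ℕ} {e : Tops P → ℕ → ℕ → P}

/-- no hooks -/
lemma hkS_nil {j w : ℕ} {N : Tops P → Finset P} {b : Tops P → ℕ} {θ : Tops P → P → ℕ} {K y : ℕ} :
    HkS P j w K N b θ (XL y []) where
  br := fun _ _ _ _ _ _ _ h => absurd h (by simp [XL])
  bo := fun _ _ _ _ _ h => absurd h (by simp [XL])
  bt := fun _ _ _ _ _ _ h => absurd h (by simp [XL])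

/-- the window `2` for `j = 14` up to `89`, with the system, from `NoE2`, `NoP2` -/
theorem Ctx.sys2e_14 (K : Ctx P r 14 lo hi e) (hE : NoE2 P 14) (hP : NoP2 P 14)
    (hJ : ∃ z : P, Hul.Jn z) :
    ∃ (N : Tops P → Finset P) (b : Tops P → ℕ) (θ : Tops P → P → ℕ) (v : ℕ),
      Wk r 14 2 (13 ^ 2 + 74) N b θ ∧ Unq P 2 b ∧ MnS 14 2 N b θ v ∧
      WinB P 14 2 89 (fun V => ([] : List ℤ).elem V)
        (fun V => nz ((14 + 1 - 2 : ℕ) : ℤ) V || ([24] : List ℤ).elem V) 0
        ((v : ℤ) - ((14 + 1 - 2 : ℕ) : ℤ) ^ 2) :=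
  K.winNs (fun h => absurd h (by norm_num)) (by norm_num) (by norm_num) (Or.inl rfl) (c0 := 74)
    (cT := 89) chkEr14 (by decide +kernel) (fun h => absurd h (by norm_num))
    (by decide +kernel) (by decide +kernel) (by norm_num)
    (fun N b θ W => W.cellsE le_rfl (by norm_num) (numE_14_2'.mono (by simp) (by simp))
      (noPT_of K.gt (by norm_num)) hE (fun _ => hP))
    { hfl := fun h => absurd h (by norm_num)
      hcc := fun _ => Or.inr (Or.inl (by decide +kernel))
      hFo := fun _ z x x' h => lt_of_lt_of_le (by decide +kernel)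
        (fjn_cost_ge1 K.gt.H h (by norm_num))
      hfv := fun _ => Or.inr (Or.inl ⟨by decide +kernel, by unfold XL; decide +kernel⟩) }
    (by norm_num) (by norm_num) le_rfl (by decide) (by decide) hJ

/-- the window `3` for `j = 14` up to `80`, with the system, from `NoE2`, `NoP2` -/
theorem Ctx.sys3e_14 (K : Ctx P r 14 lo hi e) (hE : NoE2 P 14) (hP : NoP2 P 14)
    {N : Tops P → Finset P} {θ3 θ4 : Tops P → P → ℕ}
    (S : Sy P 14 lo hi N θ3 θ4) (hJ : ∃ z : P, Hul.Jn z) :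
    ∃ V : ℕ, MnS 14 3 N (fun t => hi t 3 - lo t 3 + 1) θ3 V ∧
      Wk r 14 3 (12 ^ 2 + 63) N (fun t => hi t 3 - lo t 3 + 1) θ3 ∧
      WinB P 14 3 80 (fun V => ([75] : List ℤ).elem V)
        (fun V => (nz ((14 + 1 - 3 : ℕ) : ℤ) V && !(([] : List ℤ).elem V)) ||
          ([16] : List ℤ).elem V) 0 ((V : ℤ) - ((14 + 1 - 3 : ℕ) : ℤ) ^ 2) :=
  K.winSyH (by norm_num) S (c0 := 63) (cT := 80) chkEr14 (by decide +kernel)
    (fun h => absurd h (by norm_num)) (by decide +kernel) (by decide +kernel) (by norm_num)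
    (fun N b θ W => W.cellsE (by norm_num) (by norm_num) (numE_14_3'.mono (by simp) (by simp))
      (noPT_of K.gt (by norm_num)) hE (fun _ => hP))
    (fun N b θ W _ => hkS_nil)
    { hfl := fun h => absurd h (by norm_num)
      hcc := fun _ => Or.inr (Or.inr (Or.inr ⟨by decide +kernel, by unfold XL; decide +kernel⟩))
      hFo := fun _ z x x' h => lt_of_lt_of_le (by decide +kernel)
        (fjn_cost_ge1 K.gt.H h (by norm_num))
      hfv := fun _ => Or.inr (Or.inl ⟨by decide +kernel, by unfold XL; decide +kernel⟩) }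
    (by norm_num) (by norm_num) le_rfl (by decide) (by decide) hJ

end Pool.Agent.GaussPoset.Sm

end

/-! From `Pool.Agent.W_448s7_h27.PpK14` -/

section

/-!
S7, S8 for `j = 14`: the windows `1` up to `93`, `2` up to `89`, `3` up to `80`, `4` at `65`,
`66` and `67`: no joins of a fold end and an end `(1, 5, 0)` (MP_448cb3_co).
-/

namespace Pool.Agent.GaussPoset.Sm

set_option linter.unusedSectionVars false

open Finset Wd Ec W4

universe u

variable {P : Type u} [Fintype P] [PartialOrder P] [DecidableEq P] {r : ℕ}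

/-- caps -/
def ck14 (w : ℕ) : ℤ :=
  if w = 0 then cap0 14 else if w = 1 then 93
  else if w = 2 then 89 else if w = 3 then 80 else 67

/-- even noise -/
def nek14 (w : ℕ) (V : ℤ) : Bool :=
  if w = 0 then false else if w = 1 then (nz ((14 + 1 - 1 : ℕ) : ℤ) V || ([] : List ℤ).elem V)
  else if w = 2 then (nz ((14 + 1 - 2 : ℕ) : ℤ) V || ([24] : List ℤ).elem V)
  else ((nz ((14 + 1 - 3 : ℕ) : ℤ) V && !(([] : List ℤ).elem V)) ||
    ([16] : List ℤ).elem V)

/-- odd noise -/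
def nok14 (w : ℕ) (V : ℤ) : Bool :=
  if w = 0 then false else if w = 1 then ([] : List ℤ).elem V
  else if w = 2 then ([] : List ℤ).elem V else ([75] : List ℤ).elem V

/-- caps as a list -/
def ckl14 : List (ℕ × ℕ) := [(14, 107), (13, 93), (12, 89), (11, 80), (10, 67)]

lemma capk14 : CapL 14 4 ck14 ckl14 := by decide +kernel

/-- lines with `g + 300`, two elements above on the level `4` -/
def tAk14 : List (List ℕ) :=
  [[300], [293, 294, 295, 296, 297, 298], [286, 287, 288, 289, 290, 291, 292, 293, 294, 295,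
   296, 303], [291, 296, 297, 298, 299, 300, 301, 302, 303], [284, 285, 286, 287, 288, 289, 290,
   291, 292, 293, 294, 295, 296, 297, 298, 299, 300, 301, 302, 303, 308], [275, 280, 294, 295,
   296, 297, 298, 299, 300, 301, 302, 303, 304, 305, 306, 307, 308, 309], [268, 269, 270, 271,
   272, 273, 274, 275, 276, 277, 278, 282, 287, 288, 289, 290, 291, 292, 293, 294, 295, 296,
   297, 298, 299, 300, 301, 302, 303, 304, 305, 306, 307, 308, 309, 310, 315], [278, 283, 288,
   290, 291, 292, 293, 294, 295, 296, 297, 298, 299, 300, 301, 302, 303, 304, 305, 306, 307,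
   308, 309], [266, 271, 272, 273, 274, 275, 276, 277, 278, 279, 280, 281, 282, 283, 284, 285,
   286, 287, 288, 289, 290, 291, 292, 293, 294, 295], [277, 281], [250, 255, 260, 269], [], [],
   [], [], []]

/-- lines with `g + 300`, at least three elements above on the level `4` -/
def tBk14 : List (List ℕ) :=
  [[], [], [], [], [], [], [], [], [], [], [240], [233, 234, 235, 236, 237, 238], [243], [231,
   236, 237], [], [215]]

/-- lines -/
def LAk14 : List (List ℤ) :=
  [[0], [-7, -6, -5, -4, -3, -2], [-14, -13, -12, -11, -10, -9, -8, -7, -6, -5, -4, 3], [-9, -4,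
   -3, -2, -1, 0, 1, 2, 3], [-16, -15, -14, -13, -12, -11, -10, -9, -8, -7, -6, -5, -4, -3, -2,
   -1, 0, 1, 2, 3, 8], [-25, -20, -6, -5, -4, -3, -2, -1, 0, 1, 2, 3, 4, 5, 6, 7, 8, 9], [-32,
   -31, -30, -29, -28, -27, -26, -25, -24, -23, -22, -18, -13, -12, -11, -10, -9, -8, -7, -6,
   -5, -4, -3, -2, -1, 0, 1, 2, 3, 4, 5, 6, 7, 8, 9, 10, 15], [-22, -17, -12, -10, -9, -8, -7,
   -6, -5, -4, -3, -2, -1, 0, 1, 2, 3, 4, 5, 6, 7, 8, 9], [-34, -29, -28, -27, -26, -25, -24,
   -23, -22, -21, -20, -19, -18, -17, -16, -15, -14, -13, -12, -11, -10, -9, -8, -7, -6, -5],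
   [-23, -19], [-50, -45, -40, -31], [], [], [], [], []]

/-- lines -/
def LBk14 : List (List ℤ) :=
  [[], [], [], [], [], [], [], [], [], [], [-60], [-67, -66, -65, -64, -63, -62], [-57], [-69,
   -64, -63], [], [-85]]

lemma LAk14_eq : LAk14 = tabI tAk14 := by decide +kernel

lemma LBk14_eq : LBk14 = tabI tBk14 := by decide +kernel

lemma fk14a : fst1F ckl14 tAk14 tBk14 Sf14a = true := by decide +kernel

lemma fk14b : fst2F ckl14 tAk14 tBk14 Sf14b = true := by decide +kernel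

theorem tabk14 : TabF 14 4 ck14 LAk14 LBk14 Ef14 Sf14a Sf14b XN := by
  refine ⟨by norm_num, by norm_num, chkEf14, chkSf14a, chkSf14b, ?_, ?_, ?_, ?_, ?_, ?_, ?_, ?_⟩
  · decide +kernel
  · decide +kernel
  · decide +kernel
  · decide +kernel
  · decide +kernel
  · rw [LAk14_eq, LBk14_eq]
    exact chk1F_of capk14 fk14a
  · rw [LAk14_eq, LBk14_eq]
    exact chk2F_of (by norm_num) capk14 fk14b
  · decide +kernel

/-- rounds -/
def rk14 (n : ℕ) (XL : List ℤ) (u : List ℤ) : List ℤ :=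
  rnds (aX LAk14 LBk14 XL ((14 : ℕ) : ℤ)) nok14 nek14 ck14 (odds LAk14.length)
    (evens LAk14.length) ((14 : ℕ) : ℤ) 300 4 n u

/-- the windows `0, …, 3` -/
lemma sk14_1 : rk14 27 [43] [0, 0, 0, 0] = [105, 94, 89, 79] := by
  decide +kernel

/-- the windows `0, …, 3` -/
lemma sk14_2 : rk14 5 [66, 65, 43] [105, 94, 89, 79] = [106, 94, 90, 81] := by
  decide +kernel

lemma nmk14_65 : Nm 14 (11 ^ 2 + 65) (12 ^ 2 + 79) := by
  constructor <;> decide +kernel

lemma nmk14_66 : Nm 14 (11 ^ 2 + 66) (12 ^ 2 + 79) := by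
  constructor <;> decide +kernel

lemma nmk14_67 : Nm 14 (11 ^ 2 + 67) (12 ^ 2 + 79) := by
  constructor <;> decide +kernel

/-- the partners of the fold ends, without `(1, 5, 0)` -/
def EG14 : List (ℕ × ℕ × ℕ) := [(3, 9, 1), (5, 20, 1), (5, 25, 0), (10, 60, 1)]

/-- lower bounds -/
def lwk14 (_ : ℕ) : ℤ := 0

section

variable {lo hi : Tops P → ℕ → ℕ} {e : Tops P → ℕ → ℕ → P}

/-- **the state for `j = 14`** from the windows `1` up to `93`, `2` up to `89`, `3` up to `80`,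
`4` at `43`, `65`, `66`; there are no elements (C) -/
theorem phk14 (K : Ctx P r 14 lo hi e) (hr : 15 ≤ r) (hJ : ∃ z : P, Hul.Jn z) :
    NoCC P 14 ∧ ∃ V : ℕ → ℤ, Bals P 14 ck14 nok14 nek14 lwk14 V ∧
      StF P 14 V [106, 94, 90, 81] [66, 65, 43] ∧ FoL P 14 EG14 := by
  classical
  have hN := noP_XN (P := P) 14
  have T := tabk14
  obtain ⟨hE, hP⟩ := K.noEP2_14 hJ
  obtain ⟨Vg, -, sg⟩ := pg14 K hJ
  obtain ⟨N, θ3, θ4, Nf, θf, D, S, F⟩ := exists_fs K (by norm_num)
  obtain ⟨v, M, W, B3⟩ := K.sys3e_14 hE hP S hJ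
  obtain ⟨N2, b2, θ2, v2, -, -, -, B2⟩ := K.sys2e_14 hE hP hJ
  obtain ⟨V1, B1⟩ := K.win1e_14 hE hP hJ
  obtain ⟨V0, B0⟩ : ∃ V, WinB P 14 0 (ck14 0) (nok14 0) (nek14 0) (lwk14 0) V := K.win0 hJ
  have key : ∀ a b c d : ℤ, ∃ V : ℕ → ℤ, V 0 = a ∧ V 1 = b ∧ V 2 = c ∧ V 3 = d :=
    fun a b c d => ⟨fun w => if w = 0 then a else if w = 1 then b else if w = 2 then c else d,
      rfl, rfl, rfl, rfl⟩
  obtain ⟨V, hV0, hV1, hV2, hV3⟩ := key V0 V1 ((v2 : ℤ) - ((14 + 1 - 2 : ℕ) : ℤ) ^ 2)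
    ((v : ℤ) - ((14 + 1 - 3 : ℕ) : ℤ) ^ 2)
  have hB : Bals P 14 ck14 nok14 nek14 lwk14 V := by
    intro w hw
    have : w = 0 ∨ w = 1 ∨ w = 2 ∨ w = 3 := by omega
    rcases this with rfl | rfl | rfl | rfl
    · rw [hV0]; exact B0
    · rw [hV1]; exact B1
    · rw [hV2]; exact B2
    · rw [hV3]; exact B3
  have h0 : StF P 14 V [0, 0, 0, 0] [43] := by
    have h5 := (StF.start hB).bel
    rw [show ((List.range 4).map fun w => min (lwk14 w) (ck14 w + 1)) = [0, 0, 0, 0] by
      decide +kernel] at h5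
    exact ⟨h5, sg.kill⟩
  have s1 : StF P 14 V [105, 94, 89, 79] [43] := sk14_1 ▸ K.sweepF hN T hB h0 300 27
  have hv : 12 ^ 2 + 79 ≤ v := s1.v3 hV3 (by norm_num)
  have hC : NoCC P 14 := noCC_of_mnS W S.unq3 M (by omega)
  have hM : Mn 14 3 N θ3 v := W.mn_noE (by norm_num) M hE hP hC
  obtain ⟨hF1, hF2⟩ := K.foc14 hr hC
  have Y1 : Y4 r 14 (12 ^ 2 + 63) (11 ^ 2 + 65) (12 ^ 2 + 79) N _ θ3 θ4 :=
    y4_of S W hM hv nmk14_65
  have Y2 : Y4 r 14 (12 ^ 2 + 63) (11 ^ 2 + 66) (12 ^ 2 + 79) N _ θ3 θ4 :=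
    y4_of S W hM hv nmk14_66
  have s2 : StF P 14 V [105, 94, 89, 79] [65, 43] :=
    K.stepF hN T hB s1 (T0 := 65) (p := 1) (hF1.mono (by norm_num))
      (by decide +kernel) (by decide +kernel) (by decide +kernel) (by decide +kernel)
      (fun _ => by decide +kernel)
      (fun hj hp => F.killE14 K Y1 (by decide +kernel) (by norm_num)
        (fun z x x' h => lt_of_lt_of_le (by norm_num) (hF2 z x x' h)) (by norm_num) hj hp)
  have s3 : StF P 14 V [105, 94, 89, 79] [66, 65, 43] :=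
    K.stepF hN T hB s2 (T0 := 66) (p := 1) (hF1.mono (by norm_num))
      (by decide +kernel) (by decide +kernel) (by decide +kernel) (by decide +kernel)
      (fun _ => by decide +kernel)
      (fun hj hp => F.killE14 K Y2 (by decide +kernel) (by norm_num)
        (fun z x x' h => lt_of_lt_of_le (by norm_num) (hF2 z x x' h)) (by norm_num) hj hp)
  have s4 : StF P 14 V [106, 94, 90, 81] [66, 65, 43] := sk14_2 ▸ K.sweepF hN T hB s3 300 5
  have h189 : ∀ z x x' : P, Cg z x x' → (14 - 3) ^ 2 + 68 ≤ ful 4 z :=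
    K.costF hN T hB s4 (T0 := 68) (hF1.mono (by norm_num)) (by decide +kernel)
      (by decide +kernel) (by decide +kernel) (fun _ => by decide +kernel)
  have Y3 : Y4 r 14 (12 ^ 2 + 63) (11 ^ 2 + 67) (12 ^ 2 + 79) N _ θ3 θ4 :=
    y4_of S W hM hv nmk14_67
  obtain ⟨k1, k2, k3⟩ := cw14
  have hL := K.foL14 hr hC
  obtain ⟨-, g2⟩ := F.killF K (by norm_num) Y3 (fun _ => by decide +kernel)
    (n := 11 ^ 2 + 67) le_rfl (fun z x x' h => le_trans (by norm_num) (h189 z x x' h)) hL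
    (by decide +kernel) (by decide +kernel) (p := pFo 4 14 (1, 5, 0) % 2)
    (fun h => absurd h (by decide +kernel)) (by decide +kernel)
    (F.hdv14 K Y3 (fun x hx => Y3.out_tw hx))
    (fun e' F' hV hs hok => F.card_le_one K (by norm_num) Y3 row5_14 (cS := 100) de_14 k2
      (Or.inl rfl) k3 (by omega) (by omega) (by omega) (Or.inr ⟨by omega, Or.inl (by omega)⟩)
      hV hs hok)
    (fun z x x' h hc _ => by
      have := h189 z x x' h
      omega)
  exact ⟨hC, V, hB, s4, K.fo_elim (by norm_num) le_rfl hL g2 (by decide +kernel)⟩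

end

end Pool.Agent.GaussPoset.Sm

end

/-! From `Pool.Agent.W_448s7_h27.PpJ14` -/

section

/-!
S7 for `j = 14`: the windows `1` up to `93`, `2` up to `89`, `3` up to `80`, `4` at `65`, `66`
(MP_448cb3_co).
-/

namespace Pool.Agent.GaussPoset.Sm

set_option linter.unusedSectionVars false

open Finset Wd Ec W4

universe u

variable {P : Type u} [Fintype P] [PartialOrder P] [DecidableEq P] {r : ℕ}

/-- caps -/
def ch14 (w : ℕ) : ℤ :=
  if w = 0 then cap0 14 else if w = 1 then 93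
  else if w = 2 then 89 else if w = 3 then 80 else 66

/-- even noise -/
def neh14 (w : ℕ) (V : ℤ) : Bool :=
  if w = 0 then false else if w = 1 then (nz ((14 + 1 - 1 : ℕ) : ℤ) V || ([] : List ℤ).elem V)
  else if w = 2 then (nz ((14 + 1 - 2 : ℕ) : ℤ) V || ([24] : List ℤ).elem V)
  else ((nz ((14 + 1 - 3 : ℕ) : ℤ) V && !(([] : List ℤ).elem V)) ||
    ([16] : List ℤ).elem V)

/-- odd noise -/
def noh14 (w : ℕ) (V : ℤ) : Bool :=
  if w = 0 then false else if w = 1 then ([] : List ℤ).elem V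
  else if w = 2 then ([] : List ℤ).elem V else ([75] : List ℤ).elem V

/-- caps as a list -/
def chl14 : List (ℕ × ℕ) := [(14, 107), (13, 93), (12, 89), (11, 80), (10, 66)]

lemma caph14 : CapL 14 4 ch14 chl14 := by decide +kernel

/-- lines with `g + 300`, two elements above on the level `4` -/
def tAh14 : List (List ℕ) :=
  [[300], [293, 294, 295, 296, 297, 298], [286, 287, 288, 289, 290, 291, 292, 293, 294, 295,
   296, 303], [291, 296, 297, 298, 299, 300, 301, 302, 303], [284, 285, 286, 287, 288, 289, 290,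
   291, 292, 293, 294, 295, 296, 297, 298, 299, 300, 301, 302, 303, 308], [275, 280, 294, 295,
   296, 297, 298, 299, 300, 301, 302, 303, 304, 305, 306, 307, 308, 309], [268, 269, 270, 271,
   272, 273, 274, 275, 276, 277, 278, 282, 287, 288, 289, 290, 291, 292, 293, 294, 295, 296,
   297, 298, 299, 300, 301, 302, 303, 304, 305, 306, 307, 308, 309, 310, 315], [278, 283, 288,
   290, 291, 292, 293, 294, 295, 296, 297, 298, 299, 300, 301, 302, 303, 304, 305, 306, 307,
   308, 309], [266, 271, 272, 273, 274, 275, 276, 277, 278, 279, 280, 281, 282, 283, 284, 285,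
   286, 287, 288, 289, 290, 291, 292, 293, 294, 295], [277, 281], [250, 255, 260, 269], [], [],
   [], [], []]

/-- lines with `g + 300`, at least three elements above on the level `4` -/
def tBh14 : List (List ℕ) :=
  [[], [], [], [], [], [], [], [], [], [], [240], [233, 234, 235, 236, 237, 238], [243], [231,
   236, 237], [], [215]]

/-- lines -/
def LAh14 : List (List ℤ) :=
  [[0], [-7, -6, -5, -4, -3, -2], [-14, -13, -12, -11, -10, -9, -8, -7, -6, -5, -4, 3], [-9, -4,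
   -3, -2, -1, 0, 1, 2, 3], [-16, -15, -14, -13, -12, -11, -10, -9, -8, -7, -6, -5, -4, -3, -2,
   -1, 0, 1, 2, 3, 8], [-25, -20, -6, -5, -4, -3, -2, -1, 0, 1, 2, 3, 4, 5, 6, 7, 8, 9], [-32,
   -31, -30, -29, -28, -27, -26, -25, -24, -23, -22, -18, -13, -12, -11, -10, -9, -8, -7, -6,
   -5, -4, -3, -2, -1, 0, 1, 2, 3, 4, 5, 6, 7, 8, 9, 10, 15], [-22, -17, -12, -10, -9, -8, -7,
   -6, -5, -4, -3, -2, -1, 0, 1, 2, 3, 4, 5, 6, 7, 8, 9], [-34, -29, -28, -27, -26, -25, -24,
   -23, -22, -21, -20, -19, -18, -17, -16, -15, -14, -13, -12, -11, -10, -9, -8, -7, -6, -5],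
   [-23, -19], [-50, -45, -40, -31], [], [], [], [], []]

/-- lines -/
def LBh14 : List (List ℤ) :=
  [[], [], [], [], [], [], [], [], [], [], [-60], [-67, -66, -65, -64, -63, -62], [-57], [-69,
   -64, -63], [], [-85]]

lemma LAh14_eq : LAh14 = tabI tAh14 := by decide +kernel

lemma LBh14_eq : LBh14 = tabI tBh14 := by decide +kernel

lemma fh14a : fst1F chl14 tAh14 tBh14 Sf14a = true := by decide +kernel

lemma fh14b : fst2F chl14 tAh14 tBh14 Sf14b = true := by decide +kernel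

theorem tabh14 : TabF 14 4 ch14 LAh14 LBh14 Ef14 Sf14a Sf14b XN := by
  refine ⟨by norm_num, by norm_num, chkEf14, chkSf14a, chkSf14b, ?_, ?_, ?_, ?_, ?_, ?_, ?_, ?_⟩
  · decide +kernel
  · decide +kernel
  · decide +kernel
  · decide +kernel
  · decide +kernel
  · rw [LAh14_eq, LBh14_eq]
    exact chk1F_of caph14 fh14a
  · rw [LAh14_eq, LBh14_eq]
    exact chk2F_of (by norm_num) caph14 fh14b
  · decide +kernel

/-- rounds -/
def rh14 (n : ℕ) (XL : List ℤ) (u : List ℤ) : List ℤ :=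
  rnds (aX LAh14 LBh14 XL ((14 : ℕ) : ℤ)) noh14 neh14 ch14 (odds LAh14.length)
    (evens LAh14.length) ((14 : ℕ) : ℤ) 300 4 n u

/-- the windows `0, …, 3` -/
lemma sh14_1 : rh14 27 [43] [0, 0, 0, 0] = [105, 94, 89, 79] := by
  decide +kernel

/-- the windows `0, …, 3` -/
lemma sh14_2 : rh14 5 [66, 65, 43] [105, 94, 89, 79] = [106, 94, 90, 81] := by
  decide +kernel

/-- the pairs of ends which are left -/
def Rh14 : List ((ℕ × ℕ × ℕ) × (ℕ × ℕ × ℕ)) :=
    [((5, 20, 1), (10, 60, 1)), ((10, 60, 1), (5, 20, 1)), ((10, 60, 1), (10, 60, 1))]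

lemma resth14 : restF 14 Ef14 XN [106, 94, 90, 81] [66, 65, 43] = Rh14 := by
  decide +kernel

lemma nmh14_65 : Nm 14 (11 ^ 2 + 65) (12 ^ 2 + 79) := by
  constructor <;> decide +kernel

lemma nmh14_66 : Nm 14 (11 ^ 2 + 66) (12 ^ 2 + 79) := by
  constructor <;> decide +kernel

/-- lower bounds -/
def lwh14 (_ : ℕ) : ℤ := 0

section

variable {lo hi : Tops P → ℕ → ℕ} {e : Tops P → ℕ → ℕ → P}

/-- **the state for `j = 14`** from the windows `1` up to `93`, `2` up to `89`, `3` up to `80`,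
`4` at `43`, `65`, `66`; there are no elements (C) -/
theorem phh14 (K : Ctx P r 14 lo hi e) (hr : 15 ≤ r) (hJ : ∃ z : P, Hul.Jn z) :
    NoCC P 14 ∧ ∃ V : ℕ → ℤ, Bals P 14 ch14 noh14 neh14 lwh14 V ∧
      StF P 14 V [106, 94, 90, 81] [66, 65, 43] := by
  classical
  have hN := noP_XN (P := P) 14
  have T := tabh14
  obtain ⟨hE, hP⟩ := K.noEP2_14 hJ
  obtain ⟨Vg, -, sg⟩ := pg14 K hJ
  obtain ⟨N, θ3, θ4, Nf, θf, D, S, F⟩ := exists_fs K (by norm_num)
  obtain ⟨v, M, W, B3⟩ := K.sys3e_14 hE hP S hJ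
  obtain ⟨N2, b2, θ2, v2, -, -, -, B2⟩ := K.sys2e_14 hE hP hJ
  obtain ⟨V1, B1⟩ := K.win1e_14 hE hP hJ
  obtain ⟨V0, B0⟩ : ∃ V, WinB P 14 0 (ch14 0) (noh14 0) (neh14 0) (lwh14 0) V := K.win0 hJ
  have key : ∀ a b c d : ℤ, ∃ V : ℕ → ℤ, V 0 = a ∧ V 1 = b ∧ V 2 = c ∧ V 3 = d :=
    fun a b c d => ⟨fun w => if w = 0 then a else if w = 1 then b else if w = 2 then c else d,
      rfl, rfl, rfl, rfl⟩
  obtain ⟨V, hV0, hV1, hV2, hV3⟩ := key V0 V1 ((v2 : ℤ) - ((14 + 1 - 2 : ℕ) : ℤ) ^ 2)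
    ((v : ℤ) - ((14 + 1 - 3 : ℕ) : ℤ) ^ 2)
  have hB : Bals P 14 ch14 noh14 neh14 lwh14 V := by
    intro w hw
    have : w = 0 ∨ w = 1 ∨ w = 2 ∨ w = 3 := by omega
    rcases this with rfl | rfl | rfl | rfl
    · rw [hV0]; exact B0
    · rw [hV1]; exact B1
    · rw [hV2]; exact B2
    · rw [hV3]; exact B3
  have h0 : StF P 14 V [0, 0, 0, 0] [43] := by
    have h5 := (StF.start hB).bel
    rw [show ((List.range 4).map fun w => min (lwh14 w) (ch14 w + 1)) = [0, 0, 0, 0] by
      decide +kernel] at h5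
    exact ⟨h5, sg.kill⟩
  have s1 : StF P 14 V [105, 94, 89, 79] [43] := sh14_1 ▸ K.sweepF hN T hB h0 300 27
  have hv : 12 ^ 2 + 79 ≤ v := s1.v3 hV3 (by norm_num)
  have hC : NoCC P 14 := noCC_of_mnS W S.unq3 M (by omega)
  have hM : Mn 14 3 N θ3 v := W.mn_noE (by norm_num) M hE hP hC
  obtain ⟨hF1, hF2⟩ := K.foc14 hr hC
  have Y1 : Y4 r 14 (12 ^ 2 + 63) (11 ^ 2 + 65) (12 ^ 2 + 79) N _ θ3 θ4 :=
    y4_of S W hM hv nmh14_65
  have Y2 : Y4 r 14 (12 ^ 2 + 63) (11 ^ 2 + 66) (12 ^ 2 + 79) N _ θ3 θ4 :=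
    y4_of S W hM hv nmh14_66
  have s2 : StF P 14 V [105, 94, 89, 79] [65, 43] :=
    K.stepF hN T hB s1 (T0 := 65) (p := 1) (hF1.mono (by norm_num))
      (by decide +kernel) (by decide +kernel) (by decide +kernel) (by decide +kernel)
      (fun _ => by decide +kernel)
      (fun hj hp => F.killE14 K Y1 (by decide +kernel) (by norm_num)
        (fun z x x' h => lt_of_lt_of_le (by norm_num) (hF2 z x x' h)) (by norm_num) hj hp)
  have s3 : StF P 14 V [105, 94, 89, 79] [66, 65, 43] :=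
    K.stepF hN T hB s2 (T0 := 66) (p := 1) (hF1.mono (by norm_num))
      (by decide +kernel) (by decide +kernel) (by decide +kernel) (by decide +kernel)
      (fun _ => by decide +kernel)
      (fun hj hp => F.killE14 K Y2 (by decide +kernel) (by norm_num)
        (fun z x x' h => lt_of_lt_of_le (by norm_num) (hF2 z x x' h)) (by norm_num) hj hp)
  exact ⟨hC, V, hB, sh14_2 ▸ K.sweepF hN T hB s3 300 5⟩

/-- **S7 for `j = 14`**: the joins of level `15` without a fold end which are left. -/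
theorem lefth14 (K : Ctx P r 14 lo hi e) (hr : 15 ≤ r) {z x x' : P} (h : Cg z x x')
    (hl : lev z = 15) (hs : Sok 14 x) (hs' : Sok 14 x') :
    ∃ s s', (s, s') ∈ Rh14 ∧ Dt 14 x s ∧ Dt 14 x' s' := by
  obtain ⟨-, V, hB, s3⟩ := phh14 K hr ⟨z, h.jn⟩
  obtain ⟨s, s', g1, g2, g3⟩ := K.leftS (noP_XN (P := P) 14) tabh14 hB s3 h hl hs hs'
  rw [resth14] at g1
  exact ⟨s, s', g1, g2, g3⟩

end

end Pool.Agent.GaussPoset.Sm

end

/-! From `Pool.Agent.W_448s7_h27.PpD` -/

section

/-!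
# `j = 14`: the joins of level `15` (MP_448cb3_co, S7), from the joins of two ends with two
elements above on the level `12`
-/

namespace Pool.Agent.GaussPoset.Sm

set_option linter.unusedSectionVars false

open Finset Wd Ec W4

universe u

variable {P : Type u} [Fintype P] [PartialOrder P] [DecidableEq P] {r j : ℕ}
  {lo hi : Tops P → ℕ → ℕ} {e : Tops P → ℕ → ℕ → P}

/-- no join of two ends with two elements above on the level `j - 2` -/
def NoPD (P : Type u) [Fintype P] [PartialOrder P] [DecidableEq P] (j : ℕ) : Prop :=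
  ∀ z x x' : P, Cg z x x' → lev z = j + 1 → nab (j - 2) x = 2 → nab (j - 2) x' = 2 → False

lemma not_fold14 {x : P} {s : ℕ × ℕ × ℕ} (h : Dt 14 x s) (hs : s.1 ≠ 21) : ¬ Fold 14 x := by
  intro hf
  have h1 := h.1
  rw [hf.mX.1] at h1
  have h2 : (fm 14 : ℤ) = 21 := by decide +kernel
  rw [h2] at h1
  omega

/-- pairs which are not in the list -/
theorem Ctx.noPr14 (K : Ctx P r 14 lo hi e) (hr : 15 ≤ r) {s s' : ℕ × ℕ × ℕ}
    (h1 : s.1 ≠ 21) (h2 : s'.1 ≠ 21) (h : (s, s') ∉ Rh14) : NoPr P 14 s s' := by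
  intro z x x' hz hl d d'
  obtain ⟨l1, l2⟩ := hz.lev_eq K.gt.H
  have hs : Sok 14 x := ⟨fun hf => by have := hf.1; omega, fun _ => not_fold14 d h1⟩
  have hs' : Sok 14 x' := ⟨fun hf => by have := hf.1; omega, fun _ => not_fold14 d' h2⟩
  obtain ⟨t, t', h4, g, g'⟩ := lefth14 K hr hz hl hs hs'
  rw [g.uniq d, g'.uniq d'] at h4
  exact h h4

/-- **S7 for `j = 14`**: every join of level `15` has a fold end. -/
theorem foldj14' (K : Ctx P r 14 lo hi e) (hr : 15 ≤ r) (hPD : NoPD P 14)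
    {z x x' : P} (h : Cg z x x') (hl : lev z = 15) : Fold 14 x ∨ Fold 14 x' := by
  by_contra hcon
  rw [not_or] at hcon
  obtain ⟨l1, l2⟩ := h.lev_eq K.gt.H
  have hs : Sok 14 x := ⟨fun hf => by have := hf.1; omega, fun _ => hcon.1⟩
  have hs' : Sok 14 x' := ⟨fun hf => by have := hf.1; omega, fun _ => hcon.2⟩
  obtain ⟨s, s', h4, d, d'⟩ := lefth14 K hr h hl hs hs'
  have h5 : s.2.2 = 1 ∧ s'.2.2 = 1 := by
    revert h4
    have : ∀ p ∈ Rh14, p.1.2.2 = 1 ∧ p.2.2.2 = 1 := by decide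
    exact this (s, s')
  refine hPD z x x' h hl ?_ ?_
  · rw [d.2.2, h5.1]
  · rw [d'.2.2, h5.2]

end Pool.Agent.GaussPoset.Sm

end

/-! From `Pool.Agent.W_448s7_h27.PpL` -/

section

/-!
# `j = 14`: no joins of level `15` (MP_448cb3_co, S7, S8), from the joins of two ends with two
elements above on the level `12` and from the joins of a fold end and an end `(5, 25, 0)`
-/

namespace Pool.Agent.GaussPoset.Sm

set_option linter.unusedSectionVars false

open Finset Wd Ec W4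

universe u

variable {P : Type u} [Fintype P] [PartialOrder P] [DecidableEq P] {r j : ℕ}
  {lo hi : Tops P → ℕ → ℕ} {e : Tops P → ℕ → ℕ → P}

/-- no join of a fold end and an end `(5, 25, 0)` -/
def NoFB (P : Type u) [Fintype P] [PartialOrder P] [DecidableEq P] (j : ℕ) : Prop :=
  ∀ z x x' : P, FJn j z x x' → Dt j x' (5, 25, 0) → False

lemma fold_pd14 {x : P} (h : Fold 14 x) : nab (14 - 2) x = 2 := by
  have h1 := h.2.2 12 (by norm_num)
  show nab 12 x = 2
  omega

/-- **the fold joins for `j = 14`** -/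
theorem Ctx.no_fold14 (K : Ctx P r 14 lo hi e) (hr : 15 ≤ r) (hPD : NoPD P 14)
    (hFB : NoFB P 14) {z x x' : P} (h : Cg z x x') (hl : lev z = 15) (hf : Fold 14 x) :
    False := by
  obtain ⟨-, V, -, -, hL⟩ := phk14 K hr ⟨z, h.jn⟩
  have hF : FJn 14 z x x' := ⟨h, hl, hf⟩
  rcases hL z x x' hF with h1 | ⟨s, hs, h1⟩
  · exact hPD z x x' h hl (fold_pd14 hf) (fold_pd14 h1)
  · unfold EG14 at hs
    simp only [List.mem_cons, List.not_mem_nil, or_false] at hs
    rcases hs with rfl | rfl | rfl | rfl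
    · exact hPD z x x' h hl (fold_pd14 hf) h1.2.2
    · exact hPD z x x' h hl (fold_pd14 hf) h1.2.2
    · exact hFB z x x' hF h1
    · exact hPD z x x' h hl (fold_pd14 hf) h1.2.2

/-- **`j = 14`: no joins of level `15`** -/
theorem no_join14 (K : Ctx P r 14 lo hi e) (hr : 15 ≤ r) (hPD : NoPD P 14)
    (hFB : NoFB P 14) {z : P} (hl : lev z = 15) : ¬ Hul.Jn z := by
  intro hz
  obtain ⟨x, x', h⟩ := K.cross hz hl
  rcases foldj14' K hr hPD h hl with h1 | h1
  · exact K.no_fold14 hr hPD hFB h hl h1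
  · exact K.no_fold14 hr hPD hFB h.symm hl h1

end Pool.Agent.GaussPoset.Sm

end

/-! From `Pool.Agent.W_448s7_h27.PpM` -/

section

/-!
# `j = 14`: S7 without hypotheses (MP_448cb3_co)
-/

namespace Pool.Agent.GaussPoset.Sm

set_option linter.unusedSectionVars false

open Finset Wd Ec W4

universe u

variable {P : Type u} [Fintype P] [PartialOrder P] [DecidableEq P] {r : ℕ}
  {lo hi : Tops P → ℕ → ℕ} {e : Tops P → ℕ → ℕ → P}

/-- **no join of two ends with two elements above on the level `12`** -/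
theorem noPD14 (K : Ctx P r 14 lo hi e) : NoPD P 14 := by
  intro z x x' hz hl h1 h2
  have hr : 15 ≤ r := by
    have := K.gt.H.hr z
    omega
  refine Gq.no_pdpd K Gq.gq14 ?_ z x x' hz hl h1 h2
  intro z x x' hz hl s s' hs hs' d d'
  have e1 : s = (3, 9, 1) := by simpa using hs
  have e2 : s' = (3, 9, 1) ∨ s' = (10, 60, 1) ∨ s' = (5, 20, 1) ∨ s' = (1, 2, 1) := by
    rcases hs' with h | h
    · exact Or.inl (by simpa using h)
    · right
      simpa using h
  subst e1
  rcases e2 with rfl | rfl | rfl | rfl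
  · exact K.noPr14 hr (by norm_num) (by norm_num) (by decide) z x x' hz hl d d'
  · exact K.noPr14 hr (by norm_num) (by norm_num) (by decide) z x x' hz hl d d'
  · exact K.noPr14 hr (by norm_num) (by norm_num) (by decide) z x x' hz hl d d'
  · exact K.noPr14 hr (by norm_num) (by norm_num) (by decide) z x x' hz hl d d'

/-- **`j = 14`: no joins of level `15`**, from the joins of a fold end and an end
`(5, 25, 0)` -/
theorem no_join14F (K : Ctx P r 14 lo hi e) (hFB : NoFB P 14) {z : P} (hl : lev z = 15) :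
    ¬ Hul.Jn z := by
  have hr : 15 ≤ r := by
    have := K.gt.H.hr z
    omega
  exact no_join14 K hr (noPD14 K) hFB hl

end Pool.Agent.GaussPoset.Sm

end

/-! From `Pool.Agent.W_448w7_h15.WnC` -/

section

/-!
The joins of level 15 for `j = 14` (MP_448cb3_co, S7, window 7): `JFB P`, `JH P`.
-/

namespace Pool.Agent.GaussPoset.W7

set_option linter.unusedSectionVars false

open Finset Fi Wd

universe u

variable {P : Type u} [Fintype P] [PartialOrder P] [DecidableEq P] {r : ℕ}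
  {lo hi : Tops P → ℕ → ℕ} {e : Tops P → ℕ → ℕ → P}

/-- the joins of level 15 are joins of a fold end and an end `(5, 25, 0)` -/
theorem jfb (K : Sm.Ctx P r 14 lo hi e) (hr : 15 ≤ r) : Tv.JFB P := by
  intro z hl hz
  have hPD := Sm.noPD14 K
  obtain ⟨-, V, -, -, hL⟩ := Sm.phk14 K hr ⟨z, hz⟩
  have key : ∀ x x' : P, Sm.Cg z x x' → Sm.Fold 14 x →
      ∃ x x', W4.FJn 14 z x x' ∧ Sm.Dt 14 x' (5, 25, 0) := by
    intro x x' h hf
    have hF : W4.FJn 14 z x x' := ⟨h, hl, hf⟩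
    rcases hL z x x' hF with h1 | ⟨s, hs, h1⟩
    · exact (hPD z x x' h hl (Sm.fold_pd14 hf) (Sm.fold_pd14 h1)).elim
    · unfold Sm.EG14 at hs
      simp only [List.mem_cons, List.not_mem_nil, or_false] at hs
      rcases hs with rfl | rfl | rfl | rfl
      · exact (hPD z x x' h hl (Sm.fold_pd14 hf) h1.2.2).elim
      · exact (hPD z x x' h hl (Sm.fold_pd14 hf) h1.2.2).elim
      · exact ⟨x, x', hF, h1⟩
      · exact (hPD z x x' h hl (Sm.fold_pd14 hf) h1.2.2).elim
  obtain ⟨x, x', h⟩ := K.cross hz hl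
  rcases Sm.foldj14' K hr hPD h hl with h1 | h1
  · exact key x x' h h1
  · exact key x' x h.symm h1

/-- what is known about the elements of level 15 -/
theorem jh (K : Sm.Ctx P r 14 lo hi e) (hr : 15 ≤ r) (hJ : ∃ z : P, Hul.Jn z) : JH P :=
  jh_of K hr (Sm.phk14 K hr hJ).1 (jfb K hr)

end Pool.Agent.GaussPoset.W7

end

/-! From `Pool.Agent.W_448s8f_h76.FrG` -/

section

/-!
# The window `j - 2` with joins of level `j + 1` (MP_448cb3_co, S7): coordinates

If no join of level `j + 1` has two ends with two elements above on the level `j - 2` (`NoPD P j`), then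
the laws of the window `j - 2` hold for every component.
-/

namespace Pool.Agent.GaussPoset.Wd

set_option linter.unusedSectionVars false

open Finset Win Win.I2

universe u

variable {P : Type u} [Fintype P] [PartialOrder P] [DecidableEq P] {r j i k : ℕ}
  {t : Tops P} {lo hi : ℕ → ℕ} {e : ℕ → ℕ → P}

end Pool.Agent.GaussPoset.Wd

namespace Pool.Agent.GaussPoset.Sm

set_option linter.unusedSectionVars false

open Finset Wd Ec W4

universe u

variable {P : Type u} [Fintype P] [PartialOrder P] [DecidableEq P] {r j : ℕ}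
  {lo hi : Tops P → ℕ → ℕ} {e : Tops P → ℕ → ℕ → P}

/-- the elements above an end, two levels higher -/
lemma nab_two (H : Gr P r) {x u : P} {k : ℕ} (hl : lev x = k + 2) (hu : Win.uc x = {u}) :
    nab k x = (Win.uc u).card := by
  classical
  have hx : x ⋖ u := by
    rw [← Win.mem_uc, hu]
    exact mem_singleton_self u
  have h1 := (H.covBy_iff.mp hx).2
  unfold nab
  congr 1
  ext y
  rw [mem_filter, mem_lv, Win.mem_uc]
  constructor
  · rintro ⟨g1, g2⟩
    rcases Win.le_cases g2 with rfl | ⟨c, hc, hcy⟩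
    · omega
    · rw [hu, mem_singleton] at hc
      subst hc
      exact H.covBy_iff.mpr ⟨lt_of_le_of_ne hcy (by rintro rfl; omega), by omega⟩
  · intro g
    have := (H.covBy_iff.mp g).2
    exact ⟨by omega, hx.1.le.trans g.1.le⟩

/-- the data of a join of level `j + 1`, if no join has two ends with two elements above -/
theorem Ctx.gj (K : Ctx P r j lo hi e) (hr : j + 1 ≤ r) (hPD : NoPD P j) {i : ℕ}
    (hij : j = i + 2) : GJ P r i where
  g := by rw [← hij]; exact K.gt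
  hi1 := by have := K.h5; omega
  hr := by omega
  jn := by
    classical
    intro z hz hJ
    have H := K.gt.H
    have hl : lev z = j + 1 := by omega
    obtain ⟨x, x', hc⟩ := K.cross hJ hl
    obtain ⟨e1, e2⟩ := K.ends hc hl
    obtain ⟨l1, l2⟩ := hc.lev_eq H
    obtain ⟨u, hu⟩ := card_eq_one.1 e1
    obtain ⟨u', hu'⟩ := card_eq_one.1 e2
    have hne : x ≠ x' := by
      rintro rfl
      exact hc.ne rfl
    have n1 := nab_two H (k := i) (by omega) hu
    have n2 := nab_two H (k := i) (by omega) hu'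
    have c1 := Win.uc_card_le H u
    have c2 := Win.uc_card_le H u'
    have hx : x ⋖ u := by
      rw [← Win.mem_uc, hu]
      exact mem_singleton_self u
    have hx' : x' ⋖ u' := by
      rw [← Win.mem_uc, hu']
      exact mem_singleton_self u'
    have key : ∀ w : P, x ≤ w → x' ≤ w → False := by
      intro w h1 h2
      have g1 := mem_onlyB.mp hc.only (topOf w) (topOf w).2 (h1.trans (le_topOf w))
      have g2 := mem_onlyB.mp hc.only' (topOf w) (topOf w).2 (h2.trans (le_topOf w))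
      exact hc.ne (Subtype.ext (g1.symm.trans g2))
    refine ⟨x, x', u, u', ⟨hz, Win.StB_uc_pair H hc.cov hc.cov' hne, hu, hu', ?_, ?_, ?_⟩⟩
    · rintro rfl
      exact key u hx.1.le hx'.1.le
    · rw [disjoint_left]
      intro v hv hv'
      exact key v (hx.1.le.trans (Win.mem_uc.1 hv).1.le) (hx'.1.le.trans (Win.mem_uc.1 hv').1.le)
    · by_contra hcon
      refine hPD z x x' hc hl ?_ ?_
      · rw [show j - 2 = i by omega]
        omega
      · rw [show j - 2 = i by omega]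
        omega

end Pool.Agent.GaussPoset.Sm

end

/-! From `Pool.Agent.W_448s8f_h76.FrH` -/

section

/-!
# The window `12` with joins of level `15` (MP_448cb3_co, S7, `j = 14`)

`Sm.Ctx.gj14`: for `j = 14` every join of level `15` is a join of two ends with at most three elements
above on the level `12` (helper27's `noPD14`), so the laws of the window `12` hold for every component:
chain balance and nothing hangs below an element of level `14` over three elements of level `12`.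
-/

namespace Pool.Agent.GaussPoset.Sm

set_option linter.unusedSectionVars false

open Finset Wd Ec W4

universe u

variable {P : Type u} [Fintype P] [PartialOrder P] [DecidableEq P] {r j : ℕ}
  {lo hi : Tops P → ℕ → ℕ} {e : Tops P → ℕ → ℕ → P}

/-- **the window `12` for `j = 14`** -/
theorem Ctx.gj14 (K : Ctx P r 14 lo hi e) (hr : 15 ≤ r) : GJ P r 12 :=
  K.gj hr (noPD14 K) rfl

/-- **nothing hangs below an element of level `14` over three elements of level `12`** -/
theorem Ctx.pen_three14 (K : Ctx P r 14 lo hi e) (hr : 15 ≤ r) (t : Tops P) {a : ℕ}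
    (ha : lo t 12 + 2 ≤ a) (ha' : a ≤ hi t 12) : Win.pen (e t 14 a) = ∅ :=
  (K.gj14 hr).pen_three (K.comp t) ha ha'

end Pool.Agent.GaussPoset.Sm

end

/-! From `Pool.Agent.W_448jb_h67.NpG` -/

section

/-!
The near patterns of `La7` at `j = 14` (MP_448cb3_co, step B), without hypotheses: the form of the
joins of level 15 is `jfb14`, the pendants are `Ctx.pen_three14`
-/

namespace Pool.Agent.GaussPoset.Np

set_option linter.unusedSectionVars false

open Finset Wd Cl

universe u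

variable {P : Type u} [Fintype P] [PartialOrder P] [DecidableEq P] {r : ℕ}
  {lo hi : Tops P → ℕ → ℕ} {e : Tops P → ℕ → ℕ → P}

/-- **`j = 14`: every join of level `15` is a join of a fold end and an end `(5, 25, 0)`** -/
theorem jfb14 (K : Sm.Ctx P r 14 lo hi e) (hr : 15 ≤ r) : Tv.JFB P := by
  intro z hl hz
  obtain ⟨x, x', h⟩ := K.cross hz hl
  have hPD := Sm.noPD14 K
  have key : ∀ {x x' : P}, Sm.Cg z x x' → Sm.Fold 14 x →
      W4.FJn 14 z x x' ∧ Sm.Dt 14 x' (5, 25, 0) := by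
    intro x x' h hf
    obtain ⟨-, V, -, -, hL⟩ := Sm.phk14 K hr ⟨z, h.jn⟩
    have hF : W4.FJn 14 z x x' := ⟨h, hl, hf⟩
    rcases hL z x x' hF with h1 | ⟨s, hs, h1⟩
    · exact (hPD z x x' h hl (Sm.fold_pd14 hf) (Sm.fold_pd14 h1)).elim
    · unfold Sm.EG14 at hs
      simp only [List.mem_cons, List.not_mem_nil, or_false] at hs
      rcases hs with rfl | rfl | rfl | rfl
      · exact (hPD z x x' h hl (Sm.fold_pd14 hf) h1.2.2).elim
      · exact (hPD z x x' h hl (Sm.fold_pd14 hf) h1.2.2).elim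
      · exact ⟨hF, h1⟩
      · exact (hPD z x x' h hl (Sm.fold_pd14 hf) h1.2.2).elim
  rcases Sm.foldj14' K hr hPD h hl with h1 | h1
  · exact ⟨x, x', key h h1⟩
  · exact ⟨x', x, key h.symm h1⟩

/-- **Step B**, the elements of level 15 below the elements `1, …, 4` of the row of `La7` -/
theorem la7_JAB14 (K : Sm.Ctx P r 14 lo hi e) (hr : 15 ≤ r) {t : Tops P}
    (D : WordD 14 7 wa7 (lo t) (hi t)) :
    ∃ A : Finset P, (∀ x, x ∈ A ↔ ∃ k, 4 ≤ k ∧ k ≤ 7 ∧ x ⋖ e t 14 k) ∧
      ((∃ c, W7.JA (e t) A c) ∨ ∃ c c', W7.JB (e t) A c c') :=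
  la7_JAB K hr (jfb14 K hr) (fun t _ ha ha' => K.pen_three14 hr t ha ha') D

end Pool.Agent.GaussPoset.Np

end

/-! From `Pool.Agent.W_448jb_h67.NpH` -/

section

/-!
The near patterns of `La7` at `j = 14` (MP_448cb3_co, step B), the form for the window 7
-/

namespace Pool.Agent.GaussPoset.Np

set_option linter.unusedSectionVars false

open Finset Wd Cl

universe u

variable {P : Type u} [Fintype P] [PartialOrder P] [DecidableEq P] {r : ℕ}
  {lo hi : Tops P → ℕ → ℕ} {e : Tops P → ℕ → ℕ → P}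

/-- **the elements of level 15 of the components `La7` at `j = 14`** -/
theorem hpat14 (K : Sm.Ctx P r 14 lo hi e) (hr : 15 ≤ r) {t : Tops P}
    (D : WordD 14 7 wa7 (lo t) (hi t)) :
    ∃ A : Finset P, ((∃ c, W7.JA (e t) A c) ∨ ∃ c c', W7.JB (e t) A c c') ∧
      (∀ x ∈ A, lev x = 15) ∧ ∀ z, lev z = 15 → (∀ y, z ⋖ y → y ≤ (t : P)) →
        z ∈ A ∨ Sg.Mk (e t) z 33554432 := by
  obtain ⟨A, mA, h⟩ := la7_JAB14 K hr D
  exact ⟨A, h, la7_full K D mA⟩

end Pool.Agent.GaussPoset.Np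

end

/-! From `Pool.Agent.W_448w7_h94.WiQ` -/

section

/-!
No join of a fold end and an end `(5, 25, 0)` at level 15 (MP_448cb3_co, S7, `j = 14`): the
assembly.
-/

namespace Pool.Agent.GaussPoset.W7

set_option linter.unusedSectionVars false

open Polynomial Finset Fi Cl Dd Wd

universe u

variable {P : Type u} [Fintype P] [PartialOrder P] [DecidableEq P] {r : ℕ}
  {lo hi : Tops P → ℕ → ℕ} {e : Tops P → ℕ → ℕ → P}

/-- the assembly -/
theorem noFB_of (K : Sm.Ctx P r 14 lo hi e)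
    (hE : 15 ≤ r → Tv.JFB P → ∀ v : P, lev v = 15 → (∀ y, v ⋖ y → y ≤ (topOf v : P)) → E15 v)
    (hsp : ∀ (n0 : ℕ) (N : Tops P → Finset P) (b : Tops P → ℕ) (θ : Tops P → P → ℕ),
      WL r n0 N b θ → ∀ c : P, Ank n0 N θ c →
        Sp 7 n0 (r2 (2 * 7) N) (th2 N θ) (topOf c) c (Dn n0 N c)) :
    Sm.NoFB P 14 := by
  classical
  rintro z x x' ⟨hc, hl, hf⟩ -
  have hr : 15 ≤ r := by
    have := K.gt.H.hr z
    omega
  have hJF := jfb K hr
  have J := jh K hr ⟨z, hc.jn⟩
  have hE := hE hr hJF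
  have hpat : ∀ t : Tops P, ∃ A : Finset P, WordD 14 7 wa7 (lo t) (hi t) →
      ((∃ c, JA (e t) A c) ∨ ∃ c c', JB (e t) A c c') ∧
        ∀ z, lev z = 15 → (∀ y, z ⋖ y → y ≤ (t : P)) → z ∈ A ∨ Sg.Mk (e t) z 33554432 := by
    intro t
    by_cases D : WordD 14 7 wa7 (lo t) (hi t)
    · obtain ⟨A, h1, -, h3⟩ := Np.hpat14 K hr D
      exact ⟨A, fun _ => ⟨h1, h3⟩⟩
    · exact ⟨∅, fun h => absurd h D⟩
  choose A hA using hpat
  obtain ⟨N, θ, W, hW⟩ := exists_WL_of K hr hJF (n0 := 31) (by norm_num) A (by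
    intro t D
    obtain ⟨h1, h3⟩ := hA t D
    rcases h1 with ⟨c, J⟩ | ⟨c, c', J⟩
    · exact lh_JA K.gt t.2 (K.comp t) D (by norm_num) J h3
    · obtain ⟨θ, g1, g2, -⟩ := J.loc D (K.comp t) K.gt t.2
      exact ⟨Or.inr ⟨le_rfl, c, c', J⟩, h3, θ, g1, g2⟩)
  have hno : ∀ t : Tops P, WordD 14 7 wa7 (lo t) (hi t) → ∃ c, JA (e t) (A t) c := by
    intro t D
    rcases (hA t D).1 with h | h
    · exact h
    · exfalso
      refine W.no_JB J (W.l31 J hE (hsp 31 N _ θ W)) (fun t => by omega) t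
        ⟨?_, lo t, hi t, e t, A t, hW t D, h⟩
      obtain ⟨h1, h2⟩ := D.rows (K.comp t)
      show hi t 7 - lo t 7 + 1 = 2
      rw [h1 7 (by omega), h2 7 (by omega)]
      decide +kernel
  obtain ⟨N', θ', W', -⟩ := exists_WL51 K hr hJF (n0 := 51) le_rfl A
    (fun t D => ⟨hno t D, (hA t D).2⟩)
  have L := W'.lad J hE (hsp 51 N' _ θ' W')
  rcases J.hJ z x x' hl hc.cov hc.cov' hc.ne with ⟨h1, h2⟩ | ⟨h1, h2⟩
  · exact L.no_fb W' J hl h1 h2 hc.ne hc.cov hc.cov'
  · exact L.no_fb W' J hl h1 h2 hc.ne.symm hc.cov' hc.cov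

end Pool.Agent.GaussPoset.W7

end
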