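import Mathlib
import Pool.Agent.W_448zz_h61.Ns
import Pool.Agent.W_448zz_h61.M138
import Pool.Agent.W_448zz_h61.M139
import Pool.Agent.W_448zz_h61.M143
import Pool.Agent.W_448zz_h61.M203
import Pool.Agent.W_448zz_h61.M206
import Pool.Agent.W_448zz_h61.M210
import Pool.Agent.W_448zz_h61.M234
import Pool.Agent.W_448zz_h61.M258

/-! From `Pool.Agent.W_448s8f_h76.FmC` -/

section

/-!
# The window `1` and the own pair of level `j + 3` (MP_448cb3_co, S8)
-/

namespace Pool.Agent.GaussPoset.Sm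

set_option linter.unusedSectionVars false

open Polynomial Finset W4 Cp

universe u

variable {P : Type u} [Fintype P] [PartialOrder P] [DecidableEq P] {r j : ℕ}
  {lo hi : Tops P → ℕ → ℕ} {e : Tops P → ℕ → ℕ → P}

/-- **the balance at window `1`**; the bound on the ends is needed for odd `j` only -/
theorem Ctx.win1P (K : Ctx P r j lo hi e) (hj7 : 6 ≤ j) {E : List (ℕ × ℕ × ℕ)} (hE : ChkE j E)
    (h0 : (0, 0, 0) ∈ E)
    (hb : j % 2 = 1 → ∀ s ∈ E, (s.1 : ℤ) * ((j : ℤ) - 1) - s.2.1 ≤ 5 * ((j : ℤ) - 1))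
    (hJ : ∃ z : P, Hul.Jn z) :
    ∃ V, WinB P j 1 (((j * (j - 1) / 2 : ℕ) : ℤ) - 1) (fun _ => false) (nz j) 0 V ∧
      (4 * (j : ℤ) + 4 < V → ∀ z : P, lev z = j + 3 → ¬ OwP z) := by
  have H := K.gt.H
  have h16 := K.h16
  have hsh : ∀ t : Tops P, lo t 1 = hi t 1 ∨ RectShape j (lo t) (hi t) ∨
      StairShape j (lo t) (hi t) ∨ StairShape j (fun k => k - hi t k) (fun k => k - lo t k) := by
    intro t
    rcases shape_cases (K.comp t) (by omega) (K.shape t) with h | h | ⟨a, h, h3⟩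
    · exact Or.inl (h 1 (by omega))
    · exact Or.inr (by tauto)
    · left
      rw [(h.low 1 (by have := h.two; omega)).1, (h.low 1 (by have := h.two; omega)).2]
  obtain ⟨N, θ, t1, t2, hs, hu⟩ := K.types (w := 1) (by omega) hsh
  have hKc : 2 * K1 j < 3 * (j + 1 - 1) ^ 2 + 3 * (j + 1 - 1) := by
    unfold K1
    obtain ⟨i, rfl⟩ : ∃ i, j = i + 1 := ⟨j - 1, by omega⟩
    rw [show i + 1 - 1 = i by omega, show i + 1 + 1 - 1 = i + 1 by omega]
    have e1 : (i + 1) ^ 2 = i * i + 2 * i + 1 := by ring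
    have e2 : (i + 1) * i = i * i + i := by ring
    rw [e1, e2]
    omega
  have W : Wk r j 1 (K1 j) N (fun t => hi t 1 - lo t 1 + 1) θ :=
    { gt := K.gt, hj := hj7, hw1 := le_rfl, hw := by norm_num, typ := t1, top := t2, sum_b := hs
      hK := hKc
      rdeep := fun C _ hx _ h1 h2 h3 h4 => rect_deep1 C hj7 hx h1 h2 h3 h4
      sdeep := fun h => absurd h (by norm_num) }
  have L : Lk P j 1 (K1 j) N (fun t => hi t 1 - lo t 1 + 1) θ (XL (j + 1 - 1) [])
      (XL (j + 1 - 1) []) :=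
    { unq := hu
      nsk := fun z x x' h hl _ hn => nsk1 H hj7 h16 h hl hn
      dj := fun v z x hz _ hl hzx hD => (W.deep_j1 hz hl hzx hD).elim }
  have hy : ((j + 1 - 1 : ℕ) : ℤ) = j := by
    rw [Nat.add_sub_cancel]
  have hpen : OnePen P j (fun t => 2 ≤ hi t 1 - lo t 1 + 1) ∨ ∃ z : P, Hul.Jn z ∧
      ful 1 z ≤ (j + 1 - 1) ^ 2 + 5 * (j - 1) := by
    rcases K.pen_or with h | ⟨hodd, z, x, x', h1, h2, h3, h4⟩
    · left
      intro e e' p p' hB
      refine h e e' p p' ?_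
      rcases shape_cases (K.comp (topOf e)) (by omega) (K.shape (topOf e)) with h | h | ⟨a, h, h3⟩
      · have := h 1 (by omega)
        omega
      · exact h
      · have e1 := h.low 1 (by have := h.two; omega)
        omega
    · right
      refine ⟨z, h1.jn, K.cheap (by omega) hodd hE h0 (by exact_mod_cast hb hodd) h1 h2 h3 h4
        fun k hk => ?_⟩
      obtain rfl : k = 0 := by omega
      rw [h1.sum H (by omega), nab_zero_only h1.only, nab_zero_only h1.only']
  obtain ⟨v, M, hex⟩ := exists_minK W (bdR_nonempty W hJ)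
  have hV := winB_of W L h16 (cT := ((j * (j - 1) / 2 : ℕ) : ℤ) - 1) (lb := 0)
    (by rw [hy]; exact K1_cast hj7)
    (by
      rw [hy]
      have h1 : j * (j - 1) / 2 < 7 * j + 11 := by
        have h2 : j * (j - 1) ≤ j * 15 := Nat.mul_le_mul_left _ (by omega)
        omega
      have : ((j * (j - 1) / 2 : ℕ) : ℤ) < 7 * j + 11 := by exact_mod_cast h1
      linarith)
    le_rfl (fun x hx => absurd hx List.not_mem_nil) (fun x hx => absurd hx List.not_mem_nil)
    (fun z x x' h _ _ hl k hk => by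
      obtain rfl : k = 0 := by omega
      rw [h.sum H (by omega), nab_zero_only h.only, nab_zero_only h.only'])
    hpen M hex
  refine ⟨_, ⟨hV.lo, hV.mn, fun h => ?_, fun h => ?_⟩, fun h z hz hw => ?_⟩
  · rcases hV.od h with h' | h'
    · exact Or.inl h'
    · simp at h'
  · rcases hV.ev h with h' | h'
    · exact Or.inl h'
    · right
      rw [hy] at h'
      simpa using h'
  · rw [hy] at h
    have h1 := W.owp_min hu M (by omega) hw
    rw [hz, show j + 3 - 1 = j + 2 by omega] at h1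
    have h2 : (v : ℤ) ≤ ((j : ℤ) + 2) ^ 2 := by exact_mod_cast h1
    nlinarith

end Pool.Agent.GaussPoset.Sm

end

/-! From `Pool.Agent.W_448s8f_h76.FkH` -/

section

/-!
# Level `12` after window `6`, energies at most `20` (MP_448cb3_co, S8)
-/

namespace Pool.Agent.GaussPoset.Sm

set_option linter.unusedSectionVars false

open Finset Wd W4

universe u

variable {P : Type u} [Fintype P] [PartialOrder P] [DecidableEq P] {r j w : ℕ}
  {lo hi : Tops P → ℕ → ℕ} {e : Tops P → ℕ → ℕ → P}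

/-- **after the windows `0, …, 3` (naive) and window `6` up to energy `20`** -/
theorem Ctx.st2 (K : Ctx P r 12 lo hi e) :
    NoCC P 12 ∧ FoL P 12 [(1, 5, 0), (3, 9, 1), (5, 20, 1), (5, 25, 0), (8, 39, 1)] := by
  obtain ⟨h1, -, h3⟩ := W6.level12a K fun z x x' hz hzx hzx' hne hx => by
    have := K.hJ1 hz hzx hzx' hne hx
    unfold W6.S13
    exact this
  refine ⟨K.noCC_of h1, K.foL_20 fun z x x' hz hzx hzx' hne hx => ?_⟩
  obtain ⟨k1, k2⟩ := h3 z x x' hz hzx hzx' hne hx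
  unfold W6.S13 at k1 k2
  refine ⟨k1, fun h => k2 ⟨h.1, h.2.1, by have := h.2.2; omega⟩⟩

end Pool.Agent.GaussPoset.Sm

end

/-! From `Pool.Agent.W_448s8f_h76.FpB` -/

section

/-!
# S8 for `j = 12`: no own pair of level `15`; the balances without it (MP_448cb3_co)
-/

namespace Pool.Agent.GaussPoset.Sm

set_option linter.unusedSectionVars false

open Finset Wd Ec W4

universe u

variable {P : Type u} [Fintype P] [PartialOrder P] [DecidableEq P] {r : ℕ}
  {lo hi : Tops P → ℕ → ℕ} {e : Tops P → ℕ → ℕ → P}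

/-- fold joins above a bound -/
lemma Ctx.fo_gt {j w : ℕ} (K : Ctx P r j lo hi e) (h12 : 12 ≤ j) (hw : w ≤ 4)
    {EF : List (ℕ × ℕ × ℕ)} (hL : FoL P j EF) {n : ℕ} (h1 : (n : ℤ) + 1 ≤ cFF w j)
    (h2 : ∀ s ∈ EF, (n : ℤ) + 1 ≤ cF w j s) :
    ∀ z x x' : P, FJn j z x x' → n < cst w (fun _ => j - w - 1) z := by
  intro z x x' h
  have h3 := K.fo_ge h12 hw hL h1 h2 h
  have h4 : ((n + 1 : ℕ) : ℤ) ≤ (cst w (fun _ => j - w - 1) z : ℤ) := by
    push_cast
    exact h3
  exact_mod_cast h4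

/-- the inputs of the windows `2`, `3` -/
lemma Ctx.inS12 {w K' : ℕ} {XE XO : ℕ → Prop} (K : Ctx P r 12 lo hi e) (hw : w ≤ 4)
    (hCC : NoCC P 12) {EF : List (ℕ × ℕ × ℕ)} (hL : FoL P 12 EF)
    (h1 : (K' : ℤ) + 1 ≤ cFF w 12) (h2 : ∀ s ∈ EF, (K' : ℤ) + 1 ≤ cF w 12 s)
    (h3 : Okv K' XE XO (foN w 12) (foC w 12)) : InS P 12 w K' XE XO where
  hfl := fun h => absurd h (by norm_num)
  hcc := fun _ => Or.inl hCC
  hFo := fun _ => K.fo_gt le_rfl hw hL h1 h2
  hfv := fun _ => h3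

/-- the balances before the exclusion of the own pair of level `15` -/
theorem balg12 (K : Ctx P r 12 lo hi e) (hJ : ∃ z : P, Hul.Jn z) :
    ∃ V : ℕ → ℤ, Bals P 12 cg12 nog12 neg12 lwg12 V ∧
      (4 * ((12 : ℕ) : ℤ) + 4 < V 1 → ∀ z : P, lev z = 12 + 3 → ¬ OwP z) := by
  obtain ⟨hCC, hL⟩ := K.st2
  obtain ⟨V0, h0⟩ : ∃ V, WinB P 12 0 (cg12 0) (nog12 0) (neg12 0) (lwg12 0) V := K.win0 hJ
  obtain ⟨V1, h1, h1'⟩ := K.win1P (by norm_num) chkEr12 (by decide +kernel)
    (fun h => absurd h (by norm_num)) hJ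
  obtain ⟨V2, h2⟩ := K.winN (w := 2) (c0 := 51) (cT := 51) (LE := [2]) (LO := []) (lb := 0)
    (noFo_big le_rfl) (by norm_num) (fun _ => le_rfl) (Or.inl rfl) chkEr12 (by decide +kernel)
    (fun h => absurd h (by norm_num)) (by decide +kernel) (by decide +kernel) le_rfl
    (fun _ _ _ _ => Wk.cells_naive)
    (K.inS12 (by norm_num) hCC hL (by decide +kernel) (by decide +kernel)
      (Or.inr (Or.inl ⟨by decide +kernel, by unfold XL; decide +kernel⟩)))
    (by norm_num) (by norm_num) (by norm_num) (by decide +kernel) (by decide +kernel) hJ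
  obtain ⟨V3, h3⟩ := K.winN (w := 3) (c0 := 41) (cT := 41) (LE := [-2]) (LO := []) (lb := -2)
    (noFo_big le_rfl) (by norm_num) (fun _ => le_rfl) (Or.inr ⟨rfl, by norm_num⟩) chkEr12
    (by decide +kernel)
    (fun h => absurd h (by norm_num)) (by decide +kernel) (by decide +kernel) le_rfl
    (fun _ _ _ _ => Wk.cells_naive)
    (K.inS12 (by norm_num) hCC hL (by decide +kernel) (by decide +kernel)
      (Or.inr (Or.inl ⟨by decide +kernel, by unfold XL; decide +kernel⟩)))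
    (by norm_num) (by norm_num) (by norm_num) (by decide +kernel) (by decide +kernel) hJ
  refine ⟨fun w => if w = 0 then V0 else if w = 1 then V1 else if w = 2 then V2 else V3, ?_, h1'⟩
  intro w hw
  have : w = 0 ∨ w = 1 ∨ w = 2 ∨ w = 3 := by omega
  rcases this with rfl | rfl | rfl | rfl
  · exact h0
  · exact h1
  · exact h2
  · exact h3

/-- **no own pair of level `15`** -/
theorem noOwP12 (K : Ctx P r 12 lo hi e) (hJ : ∃ z : P, Hul.Jn z) :
    ∀ z : P, lev z = 12 + 3 → ¬ OwP z := by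
  obtain ⟨V, hB, h⟩ := balg12 K hJ
  have s1 : StF P 12 V [61, 55, 48, 40] [] :=
    swg12_1 ▸ K.sweepF (noP_XN (P := P) 12) tabg12 hB (StF.start hB) 300 12
  refine h ?_
  have h1 := s1.bel.2 1 (by norm_num)
  have h2 : (([61, 55, 48, 40] : List ℤ).getD 1 0) = 55 := rfl
  rw [h2] at h1
  push_cast
  linarith

end Pool.Agent.GaussPoset.Sm

end

/-! From `Pool.Agent.W_448s8f_h76.FpC` -/

section

/-!
# S8 for `j = 12`: no joins of two pendants, the fold joins with `(1, 5)` (MP_448cb3_co)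
-/

namespace Pool.Agent.GaussPoset.Sm

set_option linter.unusedSectionVars false

open Finset Wd Ec W4

universe u

variable {P : Type u} [Fintype P] [PartialOrder P] [DecidableEq P] {r : ℕ}
  {lo hi : Tops P → ℕ → ℕ} {e : Tops P → ℕ → ℕ → P}

/-- the balance at the window `3` -/
theorem w3_12b (K : Ctx P r 12 lo hi e) (hJ : ∃ z : P, Hul.Jn z) :
    W3R P r 12 lo hi (cg12 3) (nog12 3) (neh12 3) (lwg12 3) 143 := by
  obtain ⟨hCC, hL⟩ := K.st2
  exact K.w3RR (c0 := 41) (cT := 41) (LE := [-2]) (LO := []) (lb := -2)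
    le_rfl chkEr12 (by decide +kernel)
    (fun h => absurd h (by norm_num)) (by decide +kernel) (by decide +kernel) le_rfl
    (fun _ _ _ _ => Wk.cells_naive)
    (K.inS12 (by norm_num) hCC hL (by decide +kernel) (by decide +kernel)
      (Or.inr (Or.inl ⟨by decide +kernel, by unfold XL; decide +kernel⟩)))
    (fun _ => hCC) (noOwP12 K hJ)
    (by norm_num) (by norm_num) (by norm_num) (by decide +kernel) (by decide +kernel)

/-- the balances at the windows `0, 1, 2` -/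
theorem b3_12b (K : Ctx P r 12 lo hi e) (hJ : ∃ z : P, Hul.Jn z) :
    ∀ w < 3, ∃ V, WinB P 12 w (cg12 w) (nog12 w) (neh12 w) (lwg12 w) V := by
  obtain ⟨hCC, hL⟩ := K.st2
  intro w hw
  have : w = 0 ∨ w = 1 ∨ w = 2 := by omega
  rcases this with rfl | rfl | rfl
  · exact K.win0 hJ
  · obtain ⟨V1, h1, -⟩ := K.win1P (by norm_num) chkEr12 (by decide +kernel)
      (fun h => absurd h (by norm_num)) hJ
    exact ⟨V1, h1⟩
  · exact K.winR (w := 2) (c0 := 51) (cT := 51) (LE := [2]) (LO := []) (lb := 0)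
      (noFo_big le_rfl) (by norm_num) (fun _ => le_rfl) (Or.inl rfl) chkEr12 (by decide +kernel)
      (fun h => absurd h (by norm_num)) (by decide +kernel) (by decide +kernel) le_rfl
      (fun _ _ _ _ => Wk.cells_naive)
      (K.inS12 (by norm_num) hCC hL (by decide +kernel) (by decide +kernel)
        (Or.inr (Or.inl ⟨by decide +kernel, by unfold XL; decide +kernel⟩)))
      (by norm_num) (by norm_num) (by norm_num) (by decide +kernel) (by decide +kernel)
      (fun _ => hCC) (noOwP12 K hJ) hJ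

/-- the state without the own pair of level `15` -/
theorem bal3b (K : Ctx P r 12 lo hi e) (hJ : ∃ z : P, Hul.Jn z)
    {N : Tops P → Finset P} {θ3 θ4 : Tops P → P → ℕ} (S : Sy P 12 lo hi N θ3 θ4) :
    ∃ (K3 v v' : ℕ) (V : ℕ → ℤ), Mn 12 3 N θ3 v ∧ min v' 143 ≤ v ∧ (143 + 4 ≤ v' → v' ≤ v) ∧
      Wk r 12 3 K3 N (fun t => hi t 3 - lo t 3 + 1) θ3 ∧
      Bals P 12 cg12 nog12 neh12 lwg12 V ∧ V 3 = (v' : ℤ) - ((12 + 1 - 3 : ℕ) : ℤ) ^ 2 ∧
      StF P 12 V [66, 60, 52, 42] [] := by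
  obtain ⟨K3, v, v', V, M, q1, q2, W, hB, hV3⟩ := (w3_12b K hJ).bals S hJ (b3_12b K hJ)
  exact ⟨K3, v, v', V, M, q1, q2, W, hB, hV3,
    swg12_2 ▸ K.sweepF (noP_XN (P := P) 12) tabg12 hB (StF.start hB) 300 12⟩

/-- the data of the fold ends -/
lemma fold_dt12 {x : P} (hf : Fold 12 x) : mX 12 x = 15 := by
  have h1 := hf.mX.1
  rw [h1]
  decide +kernel

/-- the sides with few elements above them are no fold ends -/
lemma sok_of_dt {x : P} {s : ℕ × ℕ × ℕ} (hl : lev x = 12) (hs : Dt 12 x s) (h : s.1 ≠ 15) :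
    Sok 12 x := by
  refine ⟨fun hf => ?_, fun _ hf => ?_⟩
  · have := hf.1
    omega
  · have h1 := fold_dt12 hf
    have h2 := hs.1
    rw [h2] at h1
    exact h (by exact_mod_cast h1)

/-- **no joins of two ends with two elements above them on the level `10`** -/
theorem noPD12 (K : Ctx P r 12 lo hi e) : ∀ z x x' : P, Cg z x x' → lev z = 12 + 1 →
    nab (12 - 2) x = 2 → nab (12 - 2) x' = 2 → False := by
  refine Gq.no_pdpd K Gq.gq12 ?_
  intro z x x' hz hlz s s' hs hs' hD hD'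
  have H := K.gt.H
  obtain ⟨l1, l2⟩ := hz.lev_eq H
  obtain ⟨N, θ3, θ4, Nf, θf, D, S, F⟩ := exists_fs K (by norm_num)
  obtain ⟨K3, v, v', V, M, q1, q2, W, hB, hV3, hS⟩ := bal3b K ⟨z, hz.jn⟩ S
  have hs1 : s = (3, 9, 1) := by simpa using hs
  have hs2 : s' = (3, 9, 1) ∨ s' = (5, 20, 1) ∨ s' = (1, 2, 1) := by
    rcases hs' with h | h
    · exact Or.inl (by simpa using h)
    · exact Or.inr (by simpa using h)
  have k1 : Sok 12 x := sok_of_dt (by omega) hD (by rw [hs1]; norm_num)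
  have k2 : Sok 12 x' := by
    refine sok_of_dt (by omega) hD' ?_
    rcases hs2 with h | h | h <;> rw [h] <;> norm_num
  obtain ⟨p, p', g1, g2, g3⟩ := K.leftS (noP_XN (P := P) 12) tabg12 hB hS hz hlz k1 k2
  rw [restg12] at g1
  have e1 : p = s := by
    obtain ⟨a1, a2, a3⟩ := g2
    obtain ⟨b1, b2, b3⟩ := hD
    have c1 : p.1 = s.1 := by rw [a1] at b1; exact_mod_cast b1
    have c2 : p.2.1 = s.2.1 := by rw [a2] at b2; exact_mod_cast b2
    have c3 : p.2.2 = s.2.2 := by omega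
    exact Prod.ext c1 (Prod.ext c2 c3)
  have e2 : p' = s' := by
    obtain ⟨a1, a2, a3⟩ := g3
    obtain ⟨b1, b2, b3⟩ := hD'
    have c1 : p'.1 = s'.1 := by rw [a1] at b1; exact_mod_cast b1
    have c2 : p'.2.1 = s'.2.1 := by rw [a2] at b2; exact_mod_cast b2
    have c3 : p'.2.2 = s'.2.2 := by omega
    exact Prod.ext c1 (Prod.ext c2 c3)
  rw [e1, e2, hs1] at g1
  revert g1
  rcases hs2 with h | h | h <;> rw [h] <;> decide +kernel

/-- fold ends have two elements above them on the level `10` -/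
lemma fold_pd12 {x : P} (hf : Fold 12 x) : nab (12 - 2) x = 2 := by
  have := hf.2.2 10 (by norm_num)
  have e : 12 - 2 = 10 := by norm_num
  rw [e]
  omega

/-- **the partners of the fold ends** -/
theorem foL12b (K : Ctx P r 12 lo hi e) : FoL P 12 [(1, 5, 0), (5, 25, 0)] := by
  obtain ⟨-, hL⟩ := K.st2
  intro z x x' h
  have hpd : nab (12 - 2) x' ≠ 2 := fun h2 => noPD12 K z x x' h.1 h.2.1 (fold_pd12 h.2.2) h2
  rcases hL z x x' h with h1 | ⟨s, hs, hD⟩
  · exact absurd (fold_pd12 h1) hpd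
  · right
    have h3 := hD.2.2
    refine ⟨s, ?_, hD⟩
    simp only [List.mem_cons, List.not_mem_nil, or_false] at hs ⊢
    rcases hs with rfl | rfl | rfl | rfl | rfl
    · exact Or.inl rfl
    · exact absurd h3 hpd
    · exact absurd h3 hpd
    · exact Or.inr rfl
    · exact absurd h3 hpd

lemma nm12_113 : Nm 12 ((12 - 3) ^ 2 + 32) 142 := by constructor <;> decide +kernel

lemma low12_32 : lowC LAg12 LBg12 [] ((12 : ℕ) : ℤ) [66, 60, 52, 42] ((32 : ℕ) : ℤ) = true := by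
  decide +kernel

lemma par12_32 : parC LBg12 ((12 : ℕ) : ℤ) [66, 60, 52, 42] ((32 : ℕ) : ℤ) ((0 : ℕ) : ℤ) = true := by
  decide +kernel

/-- **the fold joins with `(1, 5)` are excluded** -/
theorem foL12c (K : Ctx P r 12 lo hi e) : FoL P 12 [(5, 25, 0)] := by
  classical
  by_cases hJ : ∃ z : P, Hul.Jn z
  swap
  · intro z x x' h
    exact absurd ⟨z, h.1.jn⟩ hJ
  have hL := foL12b K
  obtain ⟨N, θ3, θ4, Nf, θf, D, S, F⟩ := exists_fs K (by norm_num)
  obtain ⟨K3, v, v', V, M, q1, q2, W, hB, hV3, hS⟩ := bal3b K hJ S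
  have hv : 142 ≤ v := hS.v3R hV3 q1 q2 (Or.inl (by norm_num)) (Or.inl (by norm_num))
  have Y : Y4 r 12 K3 ((12 - 3) ^ 2 + 32) 142 N _ θ3 θ4 := y4_of S W M hv nm12_113
  have hFo : FoB P 12 ((12 - 3) ^ 2 + 32 + 1) := by
    intro z x x' hz hl hf
    have h3 := K.fo_ge (by norm_num) (by norm_num : 4 ≤ 4) hL (n := 113) (by decide +kernel)
      (by decide +kernel) (⟨hz, hl, hf⟩ : FJn 12 z x x')
    have h4 := Ec.cst_lt_ful (z := z) (k := 12 - 4 - 1) (by omega)
    have h5 : (113 : ℤ) ≤ (cst 4 (fun _ => 12 - 4 - 1) z : ℤ) := h3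
    have h6 : 113 ≤ cst 4 (fun _ => 12 - 4 - 1) z := by exact_mod_cast h5
    omega
  have hj := K.costF (noP_XN (P := P) 12) tabg12 hB hS (T0 := 32) (hFo.mono (Nat.le_succ _))
    (by decide +kernel) low12_32 (by decide +kernel) (fun _ => by decide +kernel)
  have hp : ∀ z x x' : P, Cg z x x' → ful 4 z = (12 - 3) ^ 2 + 32 → 3 ≤ nab 4 z →
      nst 4 (fun z => lev z - 4) z % 2 = 0 := by
    intro y w w' hy hfy h3
    obtain ⟨g1, g2, g3⟩ := K.sokN le_rfl hFo (by decide +kernel) (fun _ => by decide +kernel)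
      hy hfy
    have h4 := K.par4 le_rfl hy g1 g2
    have h5 := K.parV (noP_XN (P := P) 12) tabg12 hB hS (T0 := ((32 : ℕ) : ℤ)) (by decide +kernel)
      par12_32 hy g1 g2 g3 h3
    rw [h5] at h4
    exact_mod_cast h4
  have hk := (F.killF12 K Y (by norm_num) le_rfl (by norm_num) hj hL (by decide +kernel)
    (p := 0) (by decide +kernel) (F.hdv_Gd12 K Y (fun x hx => Y.out_tw hx)) hp).2
  have he : ([(1, 5, 0), (5, 25, 0)] : List (ℕ × ℕ × ℕ)).filter
      (fun s => decide (cF 4 12 s ≠ (((12 - 3) ^ 2 + 32 : ℕ) : ℤ))) = [(5, 25, 0)] := by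
    decide +kernel
  rw [he] at hk
  exact hk

end Pool.Agent.GaussPoset.Sm

end

/-! From `Pool.Agent.W_448s8f_h76.FpD` -/

section

/-!
# `j = 12`: the fold joins with `(5, 25)` at window `6`, energy `22` (MP_448cb3_co, S8)
-/

namespace Pool.Agent.GaussPoset.W6

set_option linter.unusedSectionVars false

open Polynomial Finset Dd Wd Cl J8

universe u

variable {P : Type u} [Fintype P] [PartialOrder P] [DecidableEq P] {r : ℕ}
variable {lo hi : Tops P → ℕ → ℕ} {e : Tops P → ℕ → ℕ → P}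

/-- **Level 12, window 6, the energy 22.** -/
theorem level12c (K : Sm.Ctx P r 12 lo hi e)
    (hJ3 : ∀ z x x' : P, lev z = 13 → z ⋖ x → z ⋖ x' → topOf x ≠ topOf x' →
      ((nab 6 x = 2 ∧ nab 7 x = 1) ∨ 3 ≤ nab 6 x) →
      nab 6 z = 6 ∧ nab 7 z = 5 ∧ S13 z = 22) :
    ∀ z x x' : P, lev z = 13 → z ⋖ x → z ⋖ x' → topOf x ≠ topOf x' → 3 ≤ nab 6 x → False := by
  classical
  have H := K.gt.H
  choose Y θ B ρ hts hρ hcom hcx h03 using fun t : Tops P => exists_A K.gt (K.comp t) (K.shape t)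
  have W : C12 P r lo hi e 24 23 True ρ Y θ B := ⟨K, hts⟩
  have hside : ∀ x : P, (Fp x ∨ Qp x) → ((nab 6 x = 2 ∧ nab 7 x = 1) ∨ 3 ≤ nab 6 x) := by
    intro x hx
    rcases hx with hx | hx
    · right
      have := hx.1
      omega
    · left
      exact ⟨hx.1, hx.2.1⟩
  obtain ⟨h713, hX, -⟩ := W.upto20 (by norm_num) (by norm_num) (by
    intro z x x' hj hx
    obtain ⟨-, -, h⟩ := hJ3 z x x' hj.lz hj.cov hj.cov' hj.ne (hside x hx)
    left
    omega)
  have key : ∀ z ∈ bdR (unnat (N12 Y)), 24 ≤ cst 6 (h12 Y θ) z ∨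
      (h12 Y θ z = 1 ∧ nab 6 z = 6 ∧ nab 7 z = 5 ∧ cst 6 (h12 Y θ) z = 22) := by
    intro z hz
    obtain ⟨n7, n13⟩ := h713 z hz
    rcases W.kd hz with h1 | ⟨-, h1, -⟩ | ⟨-, h1, -⟩ | ⟨h1, h2, x, x', hj, hx⟩ | ⟨-, h1⟩
    · exact Or.inl h1
    · exact absurd h1 n7
    · exact absurd h1 n13
    · obtain ⟨a, b, h⟩ := hJ3 z x x' hj.lz hj.cov hj.cov' hj.ne (hside x hx)
      exact Or.inr ⟨h1, a, b, by omega⟩
    · rw [hX] at h1
      exact absurd h1 (Finset.notMem_empty _)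
  have hX0 : ∀ z, z ∉ CX lo hi Y θ := by
    rw [hX]
    exact fun z => Finset.notMem_empty _
  have n22 : ∀ z ∈ bdR (unnat (N12 Y)), cst 6 (h12 Y θ) z ≠ 22 := by
    intro z hz hzn
    refine absurd (W.step (n := 22) (s := below P 6 + 6) (by norm_num) (by norm_num)
      (Or.inr (Or.inr hX)) (W.card_pos (topOf z)) le_rfl (fun y hy _ => ?_)
      (fun _ => 1) ?_ z hz (hX0 z) hzn) one_ne_zero
    · rcases key y hy with h1 | ⟨-, -, -, h1⟩ <;> omega
    · intro y hy _ hc
      rcases key y hy with h1 | ⟨h1, h2, h3, -⟩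
      · omega
      · have h4 := lv_lt (h := h12 Y θ) (z := y) h1 (B' := (lv P 6).card) (by omega)
        rw [h2] at h4
        rw [Nat.cast_one, one_mul]
        exact h4
  intro z x x' hlz hzx hzx' hne h3
  have l1 := (H.covBy_iff.mp hzx).2
  have l2 := (H.covBy_iff.mp hzx').2
  have hon : ∀ v : P, lev v = 12 → v ∈ onlyB (topOf v) := fun v hv =>
    only_low K.gt v (le_topOf v) hv.le
  have hcg : Sm.Cg z x x' := Sm.Cg.mk' hzx hzx' (hon x (by omega)) (hon x' (by omega)) hne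
  obtain ⟨u1, u2⟩ := K.ends hcg hlz
  have h4 := (((W.ts (topOf x)).cost.ends x (le_topOf x) (by omega) u1).1 h3).1
  obtain ⟨hh, hj⟩ := W.jn_jo hlz hzx hzx' hne h4
  have hzb := W.jn_bd hlz hzx hzx' hne
  have h5 := n22 z hzb
  rw [cst_S13 hh hlz] at h5
  exact h5 (hJ3 z x x' hlz hzx hzx' hne (Or.inr h3)).2.2

end Pool.Agent.GaussPoset.W6

namespace Pool.Agent.GaussPoset.Sm

set_option linter.unusedSectionVars false

open Finset Wd W4

universe u

variable {P : Type u} [Fintype P] [PartialOrder P] [DecidableEq P] {r j w : ℕ}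
  {lo hi : Tops P → ℕ → ℕ} {e : Tops P → ℕ → ℕ → P}

lemma p12_e : ∀ q ∈ P12, (q.1, q.2.1, q.2.2.1) ∈ ([(5, 25, 0)] : List (ℕ × ℕ × ℕ)) →
    q.2.2.2.1 = 1 ∧ q.2.2.2.2.1 = 1 ∧ q.2.2.2.2.2 = 3 := by
  decide +kernel

/-- **the hypothesis of window `6`, energy `22`** -/
theorem Ctx.hJ3 (K : Ctx P r 12 lo hi e) (hL : FoL P 12 [(5, 25, 0)])
    {z x x' : P} (hz : lev z = 13) (hzx : z ⋖ x)
    (hzx' : z ⋖ x') (hne : topOf x ≠ topOf x')
    (hx : (nab 6 x = 2 ∧ nab 7 x = 1) ∨ 3 ≤ nab 6 x) :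
    nab 6 z = 6 ∧ nab 7 z = 5 ∧
      nab 7 z + nab 8 z + nab 9 z + nab 10 z + nab 11 z + nab 12 z + 1 = 22 := by
  have H := K.gt.H
  have h := K.cg hz hzx hzx' hne
  have hl := (h.lev_eq H).1
  have hl' := (h.lev_eq H).2
  obtain ⟨u1, u2⟩ := K.ends h hz
  obtain ⟨s1, s2, s3⟩ := cg_sum H h hz
  have key : ∀ y y' : P, Cg z y y' → Fold 12 y → (Win.uc y').card = 1 → lev y' = 12 →
      nab 6 z = nab 6 y + nab 6 y' → nab 7 z = nab 7 y + nab 7 y' →
      nab 7 z + nab 8 z + nab 9 z + nab 10 z + nab 11 z + nab 12 z =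
        (nab 7 y + nab 8 y + nab 9 y + nab 10 y + nab 11 y + nab 12 y) +
        (nab 7 y' + nab 8 y' + nab 9 y' + nab 10 y' + nab 11 y' + nab 12 y') →
      nab 6 z = 6 ∧ nab 7 z = 5 ∧
      nab 7 z + nab 8 z + nab 9 z + nab 10 z + nab 11 z + nab 12 z + 1 = 22 := by
    intro y y' hy hf uy ly t1 t2 t3
    obtain ⟨f1, f2, f3⟩ := fold_n12 hf
    by_cases hf' : Fold 12 y'
    · exact (noPD12 K z y y' hy hz (fold_pd12 hf) (fold_pd12 hf')).elim
    rcases hL z y y' ⟨hy, hz, hf⟩ with hf'' | ⟨⟨m', c', b'⟩, g0, g0'⟩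
    · exact absurd hf'' hf'
    · obtain ⟨m, c, b, p, q, s, g1, g1', g2, g3, g4⟩ := K.endP hy.only' ly uy hf'
      obtain ⟨rfl, rfl, rfl⟩ := dt_uni g1' g0'
      have g5 := p12_e _ g1 g0
      simp only at g5
      omega
  by_cases hf : Fold 12 x
  · exact key x x' h hf u2 (by omega) s1 s2 s3
  by_cases hf' : Fold 12 x'
  · exact key x' x h.symm hf' u1 (by omega) (by omega) (by omega) (by omega)
  exfalso
  obtain ⟨s, s', g1, g2, g3⟩ := leftf12 K h hz hf hf'
  obtain ⟨m, c, b, p, q, t, k1, k2, k3, k4, k5⟩ := K.endP h.only (by omega) u1 hf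
  obtain ⟨m', c', b'⟩ := s
  obtain ⟨rfl, rfl, rfl⟩ := dt_uni k2 g2
  have g4 := p12_b _ g1 _ k1 rfl rfl
  simp only at g4
  omega

/-- **no fold joins at level `13`** -/
theorem nf12 (K : Ctx P r 12 lo hi e) : Sm.NF P 12 := by
  refine nf_of_six fun z x x' hz hzx hzx' hne hx => ?_
  refine W6.level12c K (fun z x x' hz hzx hzx' hne hx => ?_) z x x' hz hzx hzx' hne hx
  have := K.hJ3 (foL12c K) hz hzx hzx' hne hx
  unfold W6.S13
  exact this

end Pool.Agent.GaussPoset.Sm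

end

/-! From `Pool.Agent.W_448s8f_h76.FqA` -/

section

/-!
# S8 for `j = 12`: the tables after the fold joins are excluded (MP_448cb3_co)
-/

namespace Pool.Agent.GaussPoset.Sm

set_option linter.unusedSectionVars false

open Finset Wd Ec W4

universe u

variable {P : Type u} [Fintype P] [PartialOrder P] [DecidableEq P] {r : ℕ}

/-- the pairs with third entries `1`, `1` -/
def XPd (s s' : ℕ × ℕ × ℕ) : Bool := s.2.2 == 1 && s'.2.2 == 1

/-- the pairs with two elements above on level `10` on both sides are excluded -/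
theorem noP_XPd {lo hi : Tops P → ℕ → ℕ} {e : Tops P → ℕ → ℕ → P} (K : Ctx P r 12 lo hi e) :
    NoP P 12 XPd := by
  intro z x x' h hl s s' d d'
  unfold XPd
  rw [Bool.and_eq_false_iff]
  by_contra hcon
  push Not at hcon
  obtain ⟨h1, h2⟩ := hcon
  simp only [ne_eq, Bool.not_eq_false, beq_iff_eq] at h1 h2
  have d3 := d.2.2
  have d3' := d'.2.2
  exact noPD12 K z x x' h hl (by omega) (by omega)

/-- lines with `g + 300`, two elements above on the level `4` -/
def tAq12 : List (List ℕ) :=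
  [[300], [294, 295, 296, 297, 298], [288, 289, 290, 291, 292, 293, 294, 295, 303], [291, 297,
   298, 299, 300, 301, 302, 303], [285, 286, 287, 288, 291, 292, 293, 294, 295, 296, 297, 298,
   299, 300, 301, 302, 303, 308], [275, 280, 294, 296, 297, 298, 299, 300, 301, 302, 303, 304,
   305, 306, 307, 308, 309], [269, 270, 271, 272, 273, 274, 275, 276, 277, 288, 289, 290, 291,
   292, 293, 294, 295, 296, 297, 298, 299, 300, 301, 302, 303, 304, 305, 306, 307, 308], [278,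
   283, 288, 291, 292, 293, 294, 295, 296], [266, 272, 273, 274, 275, 276, 277, 278, 279, 280,
   281, 282, 283, 284], [], [250, 255], [], [], []]

/-- lines with `g + 300`, at least three elements above on the level `4` -/
def tBq12 : List (List ℕ) :=
  [[], [], [], [], [], [], [], [], [261], [255, 256, 257, 258], [264], [258], [], [236]]

/-- lines -/
def LAq12 : List (List ℤ) :=
  [[0], [-6, -5, -4, -3, -2], [-12, -11, -10, -9, -8, -7, -6, -5, 3], [-9, -3, -2, -1, 0, 1, 2,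
   3], [-15, -14, -13, -12, -9, -8, -7, -6, -5, -4, -3, -2, -1, 0, 1, 2, 3, 8], [-25, -20, -6,
   -4, -3, -2, -1, 0, 1, 2, 3, 4, 5, 6, 7, 8, 9], [-31, -30, -29, -28, -27, -26, -25, -24, -23,
   -12, -11, -10, -9, -8, -7, -6, -5, -4, -3, -2, -1, 0, 1, 2, 3, 4, 5, 6, 7, 8], [-22, -17,
   -12, -9, -8, -7, -6, -5, -4], [-34, -28, -27, -26, -25, -24, -23, -22, -21, -20, -19, -18,
   -17, -16], [], [-50, -45], [], [], []]

/-- lines -/
def LBq12 : List (List ℤ) :=
  [[], [], [], [], [], [], [], [], [-39], [-45, -44, -43, -42], [-36], [-42], [], [-64]]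

lemma LAq12_eq : LAq12 = tabI tAq12 := by decide +kernel

lemma LBq12_eq : LBq12 = tabI tBq12 := by decide +kernel

/-- caps -/
def cq12 (c1 c2 c3 : ℤ) (w : ℕ) : ℤ :=
  if w = 0 then cap0 12 else if w = 1 then c1 else if w = 2 then c2 else if w = 3 then c3 else 46

/-- even noise -/
def neq12 (L2 L3 : List ℤ) (w : ℕ) (V : ℤ) : Bool :=
  if w = 0 then false else if w = 1 then nz 12 V
  else if w = 2 then (nzP ((12 + 1 - 2 : ℕ) : ℤ) V || L2.elem V)
  else ((nz ((12 + 1 - 3 : ℕ) : ℤ) V && !(([44] : List ℤ).elem V)) || L3.elem V)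

/-- odd noise -/
def noq12 (L3 : List ℤ) (w : ℕ) (V : ℤ) : Bool :=
  if w = 0 then false else if w = 1 then false else if w = 2 then ([] : List ℤ).elem V
  else L3.elem V

/-- rounds -/
def rq12 (cap : ℕ → ℤ) (nO nE : ℕ → ℤ → Bool) (XL : List ℤ) (u : List ℤ) : List ℤ :=
  rnds (aX LAq12 LBq12 XL ((12 : ℕ) : ℤ)) nO nE cap (odds LAq12.length)
    (evens LAq12.length) ((12 : ℕ) : ℤ) 300 4 16 u

end Pool.Agent.GaussPoset.Sm

end

/-! From `Pool.Agent.W_448s8f_h76.FqB` -/

section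

/-!
# S8 for `j = 12`: the phases (MP_448cb3_co)
-/

namespace Pool.Agent.GaussPoset.Sm

set_option linter.unusedSectionVars false

open Finset Wd Ec W4

universe u

variable {P : Type u} [Fintype P] [PartialOrder P] [DecidableEq P] {r : ℕ}

/-- caps as a list -/
def clqa12 : List (ℕ × ℕ) := [(12, 80), (11, 65), (10, 52), (9, 45), (8, 46)]

lemma capqa12 : CapL 12 4 (cq12 65 52 45) clqa12 := by decide +kernel

lemma fqa12a : fst1F clqa12 tAq12 tBq12 Sf12x = true := by decide +kernel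

lemma fqa12b : fst2F clqa12 tAq12 tBq12 Sf12y = true := by decide +kernel

theorem tabqa12 : TabF 12 4 (cq12 65 52 45) LAq12 LBq12 Ef12x Sf12x Sf12y XPd := by
  refine ⟨by norm_num, by norm_num, chkEf12x, chkSf12x, chkSf12y, ?_, ?_, ?_, ?_, ?_, ?_, ?_, ?_⟩
  · decide +kernel
  · decide +kernel
  · decide +kernel
  · decide +kernel
  · decide +kernel
  · rw [LAq12_eq, LBq12_eq]
    exact chk1F_of capqa12 fqa12a
  · rw [LAq12_eq, LBq12_eq]
    exact chk2F_of (by norm_num) capqa12 fqa12b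
  · decide +kernel

lemma swqa12 : rq12 (cq12 65 52 45) (noq12 [43, 44]) (neq12 [2] [-2, 45]) []
    [0, 0, 0, -2] = [66, 60, 53, 46] := by
  decide +kernel

/-- caps as a list -/
def clqb12 : List (ℕ × ℕ) := [(12, 80), (11, 65), (10, 53), (9, 46), (8, 46)]

lemma capqb12 : CapL 12 4 (cq12 65 53 46) clqb12 := by decide +kernel

lemma fqb12a : fst1F clqb12 tAq12 tBq12 Sf12x = true := by decide +kernel

lemma fqb12b : fst2F clqb12 tAq12 tBq12 Sf12y = true := by decide +kernel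

theorem tabqb12 : TabF 12 4 (cq12 65 53 46) LAq12 LBq12 Ef12x Sf12x Sf12y XPd := by
  refine ⟨by norm_num, by norm_num, chkEf12x, chkSf12x, chkSf12y, ?_, ?_, ?_, ?_, ?_, ?_, ?_, ?_⟩
  · decide +kernel
  · decide +kernel
  · decide +kernel
  · decide +kernel
  · decide +kernel
  · rw [LAq12_eq, LBq12_eq]
    exact chk1F_of capqb12 fqb12a
  · rw [LAq12_eq, LBq12_eq]
    exact chk2F_of (by norm_num) capqb12 fqb12b
  · decide +kernel

lemma swqb12 : rq12 (cq12 65 53 46) (noq12 [44]) (neq12 [2] [-2, 46]) []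
    [0, 0, 0, -2] = [72, 65, 54, 47] := by
  decide +kernel

end Pool.Agent.GaussPoset.Sm

end

/-! From `Pool.Agent.W_448s8f_h76.FqC` -/

section

/-!
# S8 for `j = 12`: no twins of the cells `(2, 11)` (MP_448cb3_co)
-/

namespace Pool.Agent.GaussPoset.Sm

set_option linter.unusedSectionVars false

open Polynomial Finset Wd Ec W4 Cp

universe u

variable {P : Type u} [Fintype P] [PartialOrder P] [DecidableEq P] {r : ℕ}
  {lo hi : Tops P → ℕ → ℕ} {e : Tops P → ℕ → ℕ → P}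

section

variable {K0 : ℕ} {N : Tops P → Finset P} {b : Tops P → ℕ} {θ : Tops P → P → ℕ}

/-- no own elements of the cost `10 ^ 2 + 44` at the window `3` -/
theorem hk44 {K3 : ℕ} (hO : ∀ z : P, lev z = 12 + 3 → ¬ OwP z) (W : Wk r 12 3 K0 N b θ) :
    HkS P 12 3 K3 N b θ (XL (12 + 1 - 3) [44]) := by
  have hB : ∀ v, XL (12 + 1 - 3) [44] v → v = 144 := by
    intro v hv
    unfold XL at hv
    simp only [List.mem_singleton] at hv
    norm_num at hv
    omega
  refine ⟨?_, ?_, ?_⟩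
  · intro v a z x _ _ _ hv _ _ _ _ _ h
    have h1 := hB v hv
    have ha : a ≤ 12 := by
      by_contra hcon
      have : 13 ^ 2 ≤ a ^ 2 := Nat.pow_le_pow_left (by omega) 2
      omega
    interval_cases a <;> omega
  · intro v z _ hz hc hv _ hF ht hh
    have hv1 := hB v hv
    obtain ⟨x0, hx0, -⟩ := Hul.exists_cov (w := z) (v := (topOf z : P))
      (lt_of_le_of_ne (le_topOf z) (by
        intro h
        have h1 : lev (topOf z : P) = 0 := (topOf z).2
        have h2 := W.bd_lev hz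
        rw [← h] at h1
        omega))
    obtain ⟨h1, h2, h3, h4⟩ := W.own_owp hz hF (t := topOf x0) (fun x hx => ht x x0 hx hx0)
    have hlz := W.bd_lev hz
    have hful : ful 3 z = 144 := by
      rw [← hv1, ← hc]
      exact (cst_eq_ful (by omega)).symm
    obtain ⟨c, hcz⟩ : ∃ c, lev z = 3 + c := ⟨lev z - 3, by omega⟩
    have hlow : c ^ 2 ≤ ful 3 z := by
      have := ful_ge (w := 3) (z := z) (c := c) (fun _ => 0) hcz (fun n hn1 hn2 => h4 _ (by omega)
        (by omega))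
      simpa using this
    have hc12 : c ≤ 12 := by
      by_contra hcon
      have h5 : 13 ^ 2 ≤ c ^ 2 := Nat.pow_le_pow_left (by omega) 2
      omega
    by_cases h11 : c ≤ 11
    · have h5 : ful 3 z = c ^ 2 := ful_two hcz fun k hk1 hk2 => by
        rcases Nat.lt_or_ge k 13 with h6 | h6
        · exact h2 k (by omega) (by omega)
        · rw [show k = lev z - 1 by omega]
          exact h3
      have h6 : c ^ 2 ≤ 11 ^ 2 := Nat.pow_le_pow_left h11 2
      omega
    · have hc : c = 12 := by omega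
      subst hc
      have h5 : ful 3 z = ∑ k ∈ range (15 + 1), (k - 3) * nab k z := by
        unfold ful
        rw [hcz]
      have h6 : nab 15 z = 1 := by
        have := nab_self (z := z)
        rwa [hcz] at this
      have h7 : nab 14 z = 2 := by
        rw [hcz] at h3
        exact h3
      rw [h5] at hful
      simp only [Finset.sum_range_succ, Finset.sum_range_zero, h6, h7,
        h2 4 (by norm_num) (by norm_num),
        h2 5 (by norm_num) (by norm_num), h2 6 (by norm_num) (by norm_num),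
        h2 7 (by norm_num) (by norm_num), h2 8 (by norm_num) (by norm_num),
        h2 9 (by norm_num) (by norm_num), h2 10 (by norm_num) (by norm_num),
        h2 11 (by norm_num) (by norm_num), h2 12 (by norm_num) (by norm_num)] at hful
      have h13 : nab 13 z = 2 := by omega
      refine hO z hcz ⟨h1, fun l hl1 hl2 => ?_⟩
      rcases Nat.lt_or_ge l 13 with h8 | h8
      · exact h2 l hl1 (by omega)
      · have : l = 13 ∨ l = 14 := by omega
        rcases this with rfl | rfl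
        · exact h13
        · exact h7
  · intro v a x _ _ _ hv _ _ _ h
    have h1 := hB v hv
    have ha : a ≤ 12 := by
      by_contra hcon
      have : 13 ^ 2 ≤ a ^ 2 := Nat.pow_le_pow_left (by omega) 2
      omega
    interval_cases a <;> omega

end

/-- the inputs without fold joins -/
lemma Ctx.inNF12 {w K' : ℕ} {XE XO : ℕ → Prop} (K : Ctx P r 12 lo hi e)
    (h3 : Okv K' XE XO (foN w 12) (foC w 12)) : InS P 12 w K' XE XO where
  hfl := fun h => absurd h (by norm_num)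
  hcc := fun _ => Or.inl K.st2.1
  hFo := fun _ z x x' h => absurd h.2.2 (nf12 K z x x' h.1 h.2.1)
  hfv := fun _ => h3

theorem numSa12_3 : NumS 12 3 (10 ^ 2 + 45) [-2, 45] [43, 44] := by constructor <;> decide +kernel

theorem numSa12_2 : NumS 12 2 (11 ^ 2 + 52) [2] [] := by constructor <;> decide +kernel

/-- the window `3` up to `45` -/
theorem Ctx.sys3a_12 (K : Ctx P r 12 lo hi e) {N : Tops P → Finset P}
    {θ3 θ4 : Tops P → P → ℕ} (S : Sy P 12 lo hi N θ3 θ4) (hJ : ∃ z : P, Hul.Jn z) :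
    ∃ V : ℕ, MnS 12 3 N (fun t => hi t 3 - lo t 3 + 1) θ3 V ∧
      Wk r 12 3 (10 ^ 2 + 42) N (fun t => hi t 3 - lo t 3 + 1) θ3 ∧
      WinB P 12 3 45 (fun V => ([43, 44] : List ℤ).elem V)
        (fun V => (nz ((12 + 1 - 3 : ℕ) : ℤ) V && !(([44] : List ℤ).elem V)) ||
          ([-2, 45] : List ℤ).elem V) (-2) ((V : ℤ) - ((12 + 1 - 3 : ℕ) : ℤ) ^ 2) :=
  K.winSyH le_rfl S (c0 := 42) (cT := 45) chkEr12 (by decide +kernel)
    (fun h => absurd h (by norm_num)) (by decide +kernel) (by decide +kernel) (by norm_num)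
    (fun N b θ W => W.cellsS (by norm_num) numSa12_3)
    (fun N b θ W _ => hk44 (noOwP12 K hJ) W)
    (K.inNF12 (Or.inr (Or.inl ⟨by decide +kernel, by unfold XL; decide +kernel⟩)))
    (by norm_num) (by norm_num) (by norm_num) (by decide +kernel) (by decide +kernel) hJ

/-- the window `2` up to `52` -/
theorem Ctx.win2a_12 (K : Ctx P r 12 lo hi e) (hJ : ∃ z : P, Hul.Jn z) :
    ∃ V, WinB P 12 2 52 (fun V => ([] : List ℤ).elem V)
      (fun V => nzP ((12 + 1 - 2 : ℕ) : ℤ) V || ([2] : List ℤ).elem V) 0 V :=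
  K.winR (w := 2) (c0 := 51) (cT := 52) (LE := [2]) (LO := []) (lb := 0)
    (noFo_big le_rfl) (by norm_num) (fun _ => le_rfl) (Or.inl rfl) chkEr12 (by decide +kernel)
    (fun h => absurd h (by norm_num)) (by decide +kernel) (by decide +kernel) (by norm_num)
    (fun N b θ W => W.cellsS (by norm_num) numSa12_2)
    (K.inNF12 (Or.inr (Or.inl ⟨by decide +kernel, by unfold XL; decide +kernel⟩)))
    (by norm_num) (by norm_num) (by norm_num) (by decide +kernel) (by decide +kernel)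
    (fun _ => K.st2.1) (noOwP12 K hJ) hJ

/-- collecting the windows -/
lemma Ctx.bals12 (K : Ctx P r 12 lo hi e) (hJ : ∃ z : P, Hul.Jn z) {c2 c3 : ℤ}
    {L2 L3 O3 : List ℤ} {V3 : ℤ}
    (h2 : ∃ V, WinB P 12 2 c2 (fun V => ([] : List ℤ).elem V)
      (fun V => nzP ((12 + 1 - 2 : ℕ) : ℤ) V || L2.elem V) 0 V)
    (h3 : WinB P 12 3 c3 (fun V => O3.elem V)
      (fun V => (nz ((12 + 1 - 3 : ℕ) : ℤ) V && !(([44] : List ℤ).elem V)) || L3.elem V)
      (-2) V3) :
    ∃ V : ℕ → ℤ, V 3 = V3 ∧ Bals P 12 (cq12 65 c2 c3) (noq12 O3) (neq12 L2 L3) lwg12 V := by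
  obtain ⟨V0, h0⟩ : ∃ V, WinB P 12 0 (cap0 12) (fun _ => false) (fun _ => false) 0 V := K.win0 hJ
  obtain ⟨V1, h1, -⟩ := K.win1P (by norm_num) chkEr12 (by decide +kernel)
    (fun h => absurd h (by norm_num)) hJ
  obtain ⟨V2, h2'⟩ := h2
  refine ⟨fun w => if w = 0 then V0 else if w = 1 then V1 else if w = 2 then V2 else V3, rfl, ?_⟩
  intro w hw
  have : w = 0 ∨ w = 1 ∨ w = 2 ∨ w = 3 := by omega
  rcases this with rfl | rfl | rfl | rfl
  · exact h0
  · exact h1
  · exact h2'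
  · exact h3

/-- **phase A** -/
theorem phA12 (K : Ctx P r 12 lo hi e) (hJ : ∃ z : P, Hul.Jn z) :
    ∃ (N : Tops P → Finset P) (θ3 θ4 : Tops P → P → ℕ) (v : ℕ),
      Sy P 12 lo hi N θ3 θ4 ∧ MnS 12 3 N (fun t => hi t 3 - lo t 3 + 1) θ3 v ∧
      Wk r 12 3 (10 ^ 2 + 42) N (fun t => hi t 3 - lo t 3 + 1) θ3 ∧ 10 ^ 2 + 46 ≤ v := by
  obtain ⟨N, θ3, θ4, S⟩ := exists_sy K (by norm_num)
  obtain ⟨v, M, W, B3⟩ := K.sys3a_12 S hJ
  obtain ⟨V, hV3, hB⟩ := K.bals12 hJ (K.win2a_12 hJ) B3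
  have s1 : StF P 12 V [66, 60, 53, 46] [] :=
    swqa12 ▸ K.sweepF (noP_XPd K) tabqa12 hB (StF.start hB) 300 16
  exact ⟨N, θ3, θ4, v, S, M, W, s1.v3 hV3 (by norm_num)⟩

lemma ful_three12 {x : P} (hl : lev x = 12 + 1)
    (hn : ∀ k, 4 ≤ k → k + 1 ≤ 12 → nab k x = 3) (h2 : nab 12 x = 2) : ful 3 x = 136 := by
  have h3 : nab 13 x = 1 := by
    have := nab_self (z := x)
    rwa [hl] at this
  unfold ful
  rw [hl]
  simp only [Finset.sum_range_succ, Finset.sum_range_zero, h3, h2, hn 4 (by norm_num) (by norm_num),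
    hn 5 (by norm_num) (by norm_num), hn 6 (by norm_num) (by norm_num),
    hn 7 (by norm_num) (by norm_num), hn 8 (by norm_num) (by norm_num),
    hn 9 (by norm_num) (by norm_num), hn 10 (by norm_num) (by norm_num),
    hn 11 (by norm_num) (by norm_num)]
  norm_num

/-- two elements on the level `3` at least -/
lemma Ctx.nab3_12 (K : Ctx P r 12 lo hi e) {x : P} (hl : lev x = 12 + 1)
    (h3 : ∀ k, 4 ≤ k → k + 1 ≤ 12 → nab k x = 3) : nab 3 x ≠ 1 := by
  intro h
  have h4 := K.nab_one_two (x := x) (k := 3) (by norm_num) (by omega) h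
  have h5 := h3 4 le_rfl (by norm_num)
  rw [h5] at h4
  omega

/-- **no twins of the cells `(2, 11)`** -/
theorem noE2_12 (K : Ctx P r 12 lo hi e) (hJ : ∃ z : P, Hul.Jn z) : NoE2 P 12 := by
  obtain ⟨N, θ3, θ4, v, S, M, W, hv⟩ := phA12 K hJ
  intro x x' hne hl hup h3 h2
  have h6 := W.twin_ful S.unq3 M hne hup (by omega) (K.nab3_12 hl h3)
  have h7 := ful_three12 (x := x) hl h3 h2
  omega

end Pool.Agent.GaussPoset.Sm

end

/-! From `Pool.Agent.W_448s8f_h76.FqD` -/

section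

/-!
# S8 for `j = 12`: no pendants below the cells `(2, 11)` (MP_448cb3_co)
-/

namespace Pool.Agent.GaussPoset.Sm

set_option linter.unusedSectionVars false

open Polynomial Finset Wd Ec W4 Cp

universe u

variable {P : Type u} [Fintype P] [PartialOrder P] [DecidableEq P] {r : ℕ}
  {lo hi : Tops P → ℕ → ℕ} {e : Tops P → ℕ → ℕ → P}

theorem numEb12_3 : NumE False 12 3 (10 ^ 2 + 46) [-2, 46] [44] := by
  constructor <;> decide +kernel

theorem numEb12_2 : NumE False 12 2 (11 ^ 2 + 53) [2] [] := by constructor <;> decide +kernel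

/-- the window `3` up to `46` -/
theorem Ctx.sys3b_12 (K : Ctx P r 12 lo hi e) {N : Tops P → Finset P}
    {θ3 θ4 : Tops P → P → ℕ} (S : Sy P 12 lo hi N θ3 θ4) (hJ : ∃ z : P, Hul.Jn z) :
    ∃ V : ℕ, MnS 12 3 N (fun t => hi t 3 - lo t 3 + 1) θ3 V ∧
      Wk r 12 3 (10 ^ 2 + 42) N (fun t => hi t 3 - lo t 3 + 1) θ3 ∧
      WinB P 12 3 46 (fun V => ([44] : List ℤ).elem V)
        (fun V => (nz ((12 + 1 - 3 : ℕ) : ℤ) V && !(([44] : List ℤ).elem V)) ||
          ([-2, 46] : List ℤ).elem V) (-2) ((V : ℤ) - ((12 + 1 - 3 : ℕ) : ℤ) ^ 2) :=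
  K.winSyH le_rfl S (c0 := 42) (cT := 46) chkEr12 (by decide +kernel)
    (fun h => absurd h (by norm_num)) (by decide +kernel) (by decide +kernel) (by norm_num)
    (fun N b θ W => W.cellsE (p := False) (by norm_num) (by norm_num) numEb12_3
      (noPT_of K.gt (by norm_num)) (noE2_12 K hJ) (fun h => h.elim))
    (fun N b θ W _ => hk44 (noOwP12 K hJ) W)
    (K.inNF12 (Or.inr (Or.inl ⟨by decide +kernel, by unfold XL; decide +kernel⟩)))
    (by norm_num) (by norm_num) (by norm_num) (by decide +kernel) (by decide +kernel) hJ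

/-- the window `2` up to `53` -/
theorem Ctx.win2b_12 (K : Ctx P r 12 lo hi e) (hJ : ∃ z : P, Hul.Jn z) :
    ∃ V, WinB P 12 2 53 (fun V => ([] : List ℤ).elem V)
      (fun V => nzP ((12 + 1 - 2 : ℕ) : ℤ) V || ([2] : List ℤ).elem V) 0 V :=
  K.winR (w := 2) (c0 := 51) (cT := 53) (LE := [2]) (LO := []) (lb := 0)
    (noFo_big le_rfl) (by norm_num) (fun _ => le_rfl) (Or.inl rfl) chkEr12 (by decide +kernel)
    (fun h => absurd h (by norm_num)) (by decide +kernel) (by decide +kernel) (by norm_num)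
    (fun N b θ W => W.cellsE (p := False) le_rfl (by norm_num) numEb12_2
      (noPT_of K.gt (by norm_num)) (noE2_12 K hJ) (fun h => h.elim))
    (K.inNF12 (Or.inr (Or.inl ⟨by decide +kernel, by unfold XL; decide +kernel⟩)))
    (by norm_num) (by norm_num) (by norm_num) (by decide +kernel) (by decide +kernel)
    (fun _ => K.st2.1) (noOwP12 K hJ) hJ

/-- **phase B** -/
theorem phB12 (K : Ctx P r 12 lo hi e) (hJ : ∃ z : P, Hul.Jn z) :
    ∃ (N : Tops P → Finset P) (θ3 θ4 : Tops P → P → ℕ) (v : ℕ),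
      Sy P 12 lo hi N θ3 θ4 ∧ MnS 12 3 N (fun t => hi t 3 - lo t 3 + 1) θ3 v ∧
      Wk r 12 3 (10 ^ 2 + 42) N (fun t => hi t 3 - lo t 3 + 1) θ3 ∧ 10 ^ 2 + 47 ≤ v := by
  obtain ⟨N, θ3, θ4, S⟩ := exists_sy K (by norm_num)
  obtain ⟨v, M, W, B3⟩ := K.sys3b_12 S hJ
  obtain ⟨V, hV3, hB⟩ := K.bals12 hJ (K.win2b_12 hJ) B3
  have s1 : StF P 12 V [72, 65, 54, 47] [] :=
    swqb12 ▸ K.sweepF (noP_XPd K) tabqb12 hB (StF.start hB) 300 16
  exact ⟨N, θ3, θ4, v, S, M, W, s1.v3 hV3 (by norm_num)⟩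

section

variable {K0 : ℕ} {N : Tops P → Finset P} {b : Tops P → ℕ} {θ : Tops P → P → ℕ}

/-- the label of a pendant below a natural element of level `13` -/
lemma hS_pen12 (W : Wk r 12 3 K0 N b θ) (L : Unq P 3 b) {z x : P} (hx : x ∉ rA N) (hzx : z ⋖ x)
    (hl : lev x = 12 + 1) (h3 : nab 3 x ≠ 1) : hS 12 3 N b θ z ≤ 10 := by
  have H := W.gt.H
  have e1 := (H.covBy_iff.mp hzx).2
  by_cases hp : PenS 12 3 N b θ z
  · have := (W.penS hp).1
    rw [hS_of hp]
    omega
  · rw [hS_not hp, hC_not (fun h => by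
      have := h.2.1
      omega)]
    have h1 := W.hA_le hx hzx
    have g6 := W.bs hx
    have e2 := g6.lev
    have h2 : θ (topOf (GaussPoset.bs N x)) (GaussPoset.bs N x) + 1 ≤
        lev (GaussPoset.bs N x) - 3 := by
      rcases W.cases g6.nat (by omega) with h | h | h
      · exfalso
        have h5 := W.str_nab L g6.nat h (by omega)
        rcases g6.nab 3 with h6 | h6
        · rw [h5] at h6
          exact h3 h6.symm
        · omega
      · exact h.th.le
      · exact h.th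
    omega

end

/-- the cost is monotone in the label -/
lemma cst_mono_labw {w : ℕ} {z : P} {h h' : P → ℕ} (hh : h z ≤ h' z) :
    cst w h z ≤ cst w h' z := by
  unfold cst ez
  refine Finset.sum_le_sum fun x _ => ?_
  split_ifs
  · exact min_le_min hh le_rfl
  · exact le_rfl

/-- the raised cost of a pendant below a cell `(2, 11)` -/
lemma pen_three12 (H : Gr P r) {z x : P} (hzx : z ⋖ x) (honly : ∀ y, z ⋖ y → y = x)
    (hl : lev x = 12 + 1)
    (hn : ∀ k, 4 ≤ k → k + 1 ≤ 12 → nab k x = 3) (h2 : nab 12 x = 2) :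
    cst 3 (fun _ => 10) z = 146 := by
  have e1 := (H.covBy_iff.mp hzx).2
  have h3 : nab 13 x = 1 := by
    have := nab_self (z := x)
    rwa [hl] at this
  have h4 : nab 14 z = 1 := by
    have := nab_self (z := z)
    rwa [e1, hl] at this
  have hnz : ∀ k, k ≤ 13 → nab k z = nab k x := fun k hk => nab_only honly hzx (by omega)
  rw [cst_shift (i := 3) (a := 11) (by omega)]
  simp only [Finset.sum_range_succ, Finset.sum_range_zero, h4, hnz 3 (by norm_num),
    hnz 4 (by norm_num), hnz 5 (by norm_num), hnz 6 (by norm_num), hnz 7 (by norm_num),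
    hnz 8 (by norm_num), hnz 9 (by norm_num), hnz 10 (by norm_num), hnz 11 (by norm_num),
    hnz 12 (by norm_num), hnz 13 (by norm_num), h3, h2, hn 4 (by norm_num) (by norm_num),
    hn 5 (by norm_num) (by norm_num), hn 6 (by norm_num) (by norm_num),
    hn 7 (by norm_num) (by norm_num), hn 8 (by norm_num) (by norm_num),
    hn 9 (by norm_num) (by norm_num), hn 10 (by norm_num) (by norm_num),
    hn 11 (by norm_num) (by norm_num)]
  norm_num

/-- **no pendants below the cells `(2, 11)`** -/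
theorem noP2_12 (K : Ctx P r 12 lo hi e) (hJ : ∃ z : P, Hul.Jn z) : NoP2 P 12 := by
  obtain ⟨N, θ3, θ4, v, S, M, W, hv⟩ := phB12 K hJ
  intro z x hl h3 h2 hzx honly
  have H := K.gt.H
  have e1 := (H.covBy_iff.mp hzx).2
  have hn3 := K.nab3_12 hl h3
  have h7 := ful_three12 (x := x) hl h3 h2
  have hnz : ∀ k, k ≤ lev x → nab k z = nab k x := fun k hk => nab_only honly hzx (by omega)
  have hzr : z ∈ rA N := W.pend_far6 S.unq3 (by norm_num) hzx (fun y hy => honly y hy) (by omega)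
    (by rw [hnz 6 (by omega), h3 6 (by norm_num) (by norm_num)])
    (by rw [hnz 3 (by omega)]; exact hn3)
  by_cases hx : x ∈ rA N
  · have h4 : v ≤ ful 3 x := min_le_ful (rA_pos W) M.bd hx
    omega
  · have hbd : z ∈ bdR (rA N) := mem_bdR.mpr ⟨hzr, x, hx, hzx⟩
    have h5 := M.bd z hbd
    have h6 := hS_pen12 W S.unq3 hx hzx hl hn3
    have h8 := cst_mono_labw (w := 3) (z := z) (h := hS 12 3 N (fun t => hi t 3 - lo t 3 + 1) θ3)
      (h' := fun _ => 10) h6
    rw [pen_three12 H hzx honly hl h3 h2] at h8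
    omega

end Pool.Agent.GaussPoset.Sm

end

/-! From `Pool.Agent.W_448s8f_h76.FqE` -/

section

/-!
# S8 for `j = 12`: the last phase (MP_448cb3_co)
-/

namespace Pool.Agent.GaussPoset.Sm

set_option linter.unusedSectionVars false

open Polynomial Finset Wd Ec W4 Cp

universe u

variable {P : Type u} [Fintype P] [PartialOrder P] [DecidableEq P] {r : ℕ}
  {lo hi : Tops P → ℕ → ℕ} {e : Tops P → ℕ → ℕ → P}

/-- even noise -/
def net12 (w : ℕ) (V : ℤ) : Bool :=
  if w = 0 then false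
  else if w = 1 then (nz ((12 + 1 - 1 : ℕ) : ℤ) V || ([] : List ℤ).elem V)
  else if w = 2 then (nz ((12 + 1 - 2 : ℕ) : ℤ) V || ([2] : List ℤ).elem V)
  else (nz ((12 + 1 - 3 : ℕ) : ℤ) V || ([-2] : List ℤ).elem V)

/-- odd noise -/
def not12 (w : ℕ) (V : ℤ) : Bool := if w = 0 then false else ([] : List ℤ).elem V

/-- caps as a list -/
def clt12 : List (ℕ × ℕ) := [(12, 80), (11, 69), (10, 61), (9, 53), (8, 46)]

lemma capt12 : CapL 12 4 (cq12 69 61 53) clt12 := by decide +kernel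

lemma ft12a : fst1F clt12 tAq12 tBq12 Sf12x = true := by decide +kernel

lemma ft12b : fst2F clt12 tAq12 tBq12 Sf12y = true := by decide +kernel

theorem tabt12 : TabF 12 4 (cq12 69 61 53) LAq12 LBq12 Ef12x Sf12x Sf12y XPd := by
  refine ⟨by norm_num, by norm_num, chkEf12x, chkSf12x, chkSf12y, ?_, ?_, ?_, ?_, ?_, ?_, ?_, ?_⟩
  · decide +kernel
  · decide +kernel
  · decide +kernel
  · decide +kernel
  · decide +kernel
  · rw [LAq12_eq, LBq12_eq]
    exact chk1F_of capt12 ft12a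
  · rw [LAq12_eq, LBq12_eq]
    exact chk2F_of (by norm_num) capt12 ft12b
  · decide +kernel

lemma swt12 : rq12 (cq12 69 61 53) not12 net12 [] [0, 0, 0, -2] = [77, 70, 62, 54] := by
  decide +kernel

lemma restt12 : restF 12 Ef12x XPd [77, 70, 62, 54] [] = [] := by decide +kernel

/-- **no joins of level `13`**, from the windows `2` up to `61` and `3` up to `53` -/
theorem no_join12_of (K : Ctx P r 12 lo hi e)
    (h2 : NoE2 P 12 → NoP2 P 12 → (∃ z : P, Hul.Jn z) → ∃ V, WinB P 12 2 61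
      (fun V => ([] : List ℤ).elem V)
      (fun V => nz ((12 + 1 - 2 : ℕ) : ℤ) V || ([2] : List ℤ).elem V) 0 V)
    (h3 : NoE2 P 12 → NoP2 P 12 → (∃ z : P, Hul.Jn z) → ∃ V, WinB P 12 3 53
      (fun V => ([] : List ℤ).elem V)
      (fun V => nz ((12 + 1 - 3 : ℕ) : ℤ) V || ([-2] : List ℤ).elem V) (-2) V)
    {z : P} (hl : lev z = 13) : ¬ Hul.Jn z := by
  intro hz
  have H := K.gt.H
  have hJ : ∃ z : P, Hul.Jn z := ⟨z, hz⟩
  obtain ⟨x, x', h⟩ := K.cross hz hl
  have hE := noE2_12 K hJ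
  have hP := noP2_12 K hJ
  have hF : NF P 12 := nf12 K
  obtain ⟨V0, B0⟩ : ∃ V, WinB P 12 0 (cap0 12) (fun _ => false) (fun _ => false) 0 V := K.win0 hJ
  obtain ⟨V1, B1⟩ := K.win1e_12 hE hP hJ
  obtain ⟨V2, B2⟩ := h2 hE hP hJ
  obtain ⟨V3, B3⟩ := h3 hE hP hJ
  obtain ⟨V, hB⟩ : ∃ V, Bals P 12 (cq12 69 61 53) not12 net12 lwg12 V := by
    refine ⟨fun w => if w = 0 then V0 else if w = 1 then V1 else if w = 2 then V2 else V3, ?_⟩
    intro w hw
    have : w = 0 ∨ w = 1 ∨ w = 2 ∨ w = 3 := by omega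
    rcases this with rfl | rfl | rfl | rfl
    · exact B0
    · exact B1
    · exact B2
    · exact B3
  have s1 : StF P 12 V [77, 70, 62, 54] [] :=
    swt12 ▸ K.sweepF (noP_XPd K) tabt12 hB (StF.start hB) 300 16
  obtain ⟨p, p', g1, -, -⟩ := K.leftS (noP_XPd K) tabt12 hB s1 h hl (hF.sok H h hl)
    (hF.sok H h.symm hl)
  rw [restt12] at g1
  exact absurd g1 List.not_mem_nil

end Pool.Agent.GaussPoset.Sm

end

/-! From `Pool.Agent.W_448f4_h70.JR` -/

section

/-!
# The windows `2`, `3` for even `j` from `12` on, beyond the twins of the cells `(m, m + 1)`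
(MP_448cb3_co, S7)
-/

namespace Pool.Agent.GaussPoset.Sm

set_option linter.unusedSectionVars false

open Polynomial Finset W4 Cp Wd

universe u

variable {P : Type u} [Fintype P] [PartialOrder P] [DecidableEq P] {r j w K Kc K0 : ℕ}
  {N : Tops P → Finset P} {b : Tops P → ℕ} {θ : Tops P → P → ℕ} {XE XO : ℕ → Prop}

lemma Wk.toWe (W : Wk r j w K N b θ) : We r j w K N b θ where
  gt := W.gt
  hj := W.hj
  hw1 := W.hw1
  hw := W.hw
  typ := fun t => Or.inl (W.typ t)
  nt := fun t => (W.top t).natTop W.gt.H.gradedBelow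
  sum_b := W.sum_b
  hK := W.hK
  rdeep := W.rdeep
  sdeep := W.sdeep

/-- the twins of the cells `(m, m + 1)` and their pendants are natural -/
theorem Wk.fsK (W : Wk r j w K0 N b θ) (h12 : 12 ≤ j) (hw2 : 2 ≤ w)
    (hK : Kc ≤ fcT w j + (j - w)) : FS P j w Kc N b θ (zfA j N) (Fc j) (hF j w N b θ) := by
  obtain ⟨B, W'⟩ := W.fdx (by omega)
  exact W'.fs (fun z hz => W.hA_cel hw2 hz) hK
    (fun n0 _ g x z hz hzx hzC h1 h2 h3 m hm => W.bigCF h12 hw2 hz hzx hzC h1 h2 h3 hm)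

/-- the inputs at window `w` -/
theorem Wk.lkFK {Zf : Finset P} {FT : P → Prop} (W : Wk r j w K0 N b θ) (hw2 : 2 ≤ w)
    (h10 : 10 ≤ j) (hj2 : j % 2 = 0)
    (hK : 2 * K < 3 * (j + 1 - w) ^ 2 + 3 * (j + 1 - w)) (hu : Unq P w b)
    (hcc : NoCC P j ∨ Okv K XE XO (ccN w j) (ccC w j))
    (hFo : ∀ z x x' : P, FJn j z x x' → K < cst w (fun _ => j - w - 1) z)
    (hfv : Okv K XE XO (foN w j) (foC w j))
    (C : CellsF P j w K0 K N b θ XE XO Zf FT) :
    LkF P j w K0 K N b θ XE XO Zf FT where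
  hK := hK
  unq := hu
  nsk := fun z x x' h hl hn hns => by
    have hw := W.hw
    exact (nsk23' h10 (by omega) hn hns).elim
  dj := fun v z x hz hc hl hzx hD =>
    (W.dj_S hw2 (by omega) (fun h => by omega) (fun _ => hcc) (fun _ => hFo) (fun _ => hfv) hz hc
      hl hzx hD).toK
  dp := fun v z x hz hzf _ hc hx hzx hl hD hR =>
    (W.toWe.dp_cellsN hw2 (by omega) C hz hzf hc hx hzx hl hD hR).toK
  dt := fun x hx hxf hD hR => (W.toWe.dt_cellsN hw2 (by omega) C hx hxf hD hR).toT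

variable {lo hi : Tops P → ℕ → ℕ} {e : Tops P → ℕ → ℕ → P}

/-- **the balance at the windows `2`, `3` beyond the twins of the cells `(m, m + 1)`** -/
theorem Ctx.winFK (K : Ctx P r j lo hi e) (h12 : 12 ≤ j) (hj2 : j % 2 = 0)
    (hw : w = 2 ∨ w = 3) {c0 cT : ℕ} {LE LO : List ℤ} {lb : ℤ}
    (c1 : ∀ a ∈ Finset.Icc 2 ((j + 1) / 2), (j + 1 - w) ^ 2 + c0 + 1 < stC w (j + 1) a)
    (c2 : ∀ a ∈ Finset.Icc 2 (j - 1), (j + 1 - w) ^ 2 + c0 + 1 < reC w (j + 1) a)
    (hc : c0 ≤ cT) (hcF : (j + 1 - w) ^ 2 + cT ≤ fcT w j + (j - w))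
    (hcell : ∀ (N : Tops P → Finset P) (b : Tops P → ℕ) (θ : Tops P → P → ℕ),
      Wk r j w ((j + 1 - w) ^ 2 + c0) N b θ →
      CellsF P j w ((j + 1 - w) ^ 2 + c0) ((j + 1 - w) ^ 2 + cT) N b θ
        (XL (j + 1 - w) LE) (XL (j + 1 - w) LO) (zfA j N) (Fc j))
    (hcc : NoCC P j ∨ Okv ((j + 1 - w) ^ 2 + cT) (XL (j + 1 - w) LE) (XL (j + 1 - w) LO)
      (ccN w j) (ccC w j))
    (hFo : ∀ z x x' : P, FJn j z x x' →
      (j + 1 - w) ^ 2 + cT < cst w (fun _ => j - w - 1) z)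
    (hfv : Okv ((j + 1 - w) ^ 2 + cT) (XL (j + 1 - w) LE) (XL (j + 1 - w) LO)
      (foN w j) (foC w j))
    (c6 : 2 * ((j + 1 - w) ^ 2 + cT) < 3 * (j + 1 - w) ^ 2 + 3 * (j + 1 - w))
    (c7 : cT < 7 * (j + 1 - w) + 10)
    (hl0 : lb ≤ 0) (hlE : ∀ x ∈ LE, lb ≤ x) (hlO : ∀ x ∈ LO, lb ≤ x)
    (hJ : ∃ z : P, Hul.Jn z) :
    ∃ (N : Tops P → Finset P) (θ : Tops P → P → ℕ) (v : ℕ),
      Wk r j w ((j + 1 - w) ^ 2 + c0) N (fun t => hi t w - lo t w + 1) θ ∧
      MnF w N (zfA j N) (Fc j) (hF j w N (fun t => hi t w - lo t w + 1) θ)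
        (tcS j w N (fun t => hi t w - lo t w + 1) θ) v ∧
      WinB P j w cT (fun V => LO.elem V)
        (fun V => nz ((j + 1 - w : ℕ) : ℤ) V || LE.elem V) lb
        ((v : ℤ) - ((j + 1 - w : ℕ) : ℤ) ^ 2) := by
  have H := K.gt.H
  have h16 := K.h16
  have hFo' : NoFo P j := noFo_big h12
  have hwj : w = 2 ∨ (w = 3 ∧ 11 ≤ j) := by omega
  have hsh : ∀ t : Tops P, lo t w = hi t w ∨ RectShape j (lo t) (hi t) ∨
      StairShape j (lo t) (hi t) ∨ StairShape j (fun k => k - hi t k) (fun k => k - lo t k) := by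
    intro t
    rcases shape_cases (K.comp t) (by omega) (K.shape t) with h | h | ⟨a, h, h3⟩
    · exact Or.inl (h w (by omega))
    · exact Or.inr (by tauto)
    · left
      have h4 := h.lt (h3 (by omega)) hwj
      rw [(h.low w (by omega)).1, (h.low w (by omega)).2]
  obtain ⟨N, θ, t1, t2, hs, hu⟩ := K.types (w := w) (by omega) hsh
  have W : Wk r j w ((j + 1 - w) ^ 2 + c0) N (fun t => hi t w - lo t w + 1) θ :=
    { gt := K.gt, hj := by omega, hw1 := by omega, hw := by omega, typ := t1, top := t2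
      sum_b := hs
      hK := by omega
      rdeep := fun C _ hx _ h1 h2 h3 h4 => rdeep_of (by omega) (by omega) c2 C hx h1 h2 h3 h4
      sdeep := fun _ _ _ _ C _ hx _ h1 h3 h4 => sdeep_of (by omega) (by omega) c1 C hx h1 h3 h4 }
  have L := W.lkFK (by omega) (by omega) hj2 c6 hu hcc hFo hfv (hcell _ _ _ W)
  have F := W.fsK h12 (by omega) hcF
  have hlow : ∀ z x x' : P, Cg z x x' → Sok j x → Sok j x' → j + 1 ≤ lev z →
      ∀ k, k < w → nab k z = 2 := by
    intro z x x' h hs hs' hl k hk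
    rw [h.sum H (by omega), K.low_one' hFo' (by omega) hwj h hs hk,
      K.low_one' hFo' (by omega) hwj h.symm hs' hk]
  have hpen : OnePen P j (fun t => 2 ≤ hi t w - lo t w + 1) ∨ ∃ z : P, Hul.Jn z ∧
      ful w z ≤ (j + 1 - w) ^ 2 + 5 * (j - w) := by
    rcases K.pen_or with h | ⟨hodd, -⟩
    · left
      intro e e' p p' hB
      refine h e e' p p' ?_
      rcases shape_cases (K.comp (topOf e)) (by omega) (K.shape (topOf e)) with h | h | ⟨a, h, h3⟩
      · have := h w (by omega)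
        omega
      · exact h
      · have h4 := h.lt (h3 (by omega)) hwj
        have e1 := h.low w (by omega)
        omega
    · omega
  obtain ⟨v, M, h⟩ := W.toWe.winBS (by omega) F L h16 (cT := (cT : ℤ)) (lb := lb)
    (by push_cast; ring) (by exact_mod_cast c7) hl0 hlE hlO
    (fun z x x' h hs hs' hl _ => hlow z x x' h hs hs' hl)
    (fun v _ z x x' h hs hs' hl => Or.inl (hlow z x x' h hs hs' hl)) hpen hJ
  exact ⟨N, θ, v, W, M, h⟩

end Pool.Agent.GaussPoset.Sm

end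

/-! From `Pool.Agent.W_448f4_h70.JT` -/

section

/-!
# The windows `2`, `3` for `j = 12`, caps `61`, `53` (MP_448cb3_co, S7)
-/

namespace Pool.Agent.GaussPoset.Sm

set_option linter.unusedSectionVars false

open Finset Wd W4

universe u

variable {P : Type u} [Fintype P] [PartialOrder P] [DecidableEq P] {r j w : ℕ}
  {lo hi : Tops P → ℕ → ℕ} {e : Tops P → ℕ → ℕ → P}

/-- window `2` for `j = 12`, cap `61` -/
theorem Ctx.winFK2_12 (K : Ctx P r 12 lo hi e) (hE : NoE2 P 12) (hP : NoP2 P 12)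
    (hCC : NoCC P 12)
    (hNF : NF P 12) (hJ : ∃ z : P, Hul.Jn z) :
    ∃ V, WinB P 12 2 61 (fun V => ([] : List ℤ).elem V)
      (fun V => nz ((12 + 1 - 2 : ℕ) : ℤ) V || ([2] : List ℤ).elem V) 0 V := by
  obtain ⟨N, θ, v, -, -, h⟩ := K.winFK le_rfl (by norm_num) (Or.inl rfl) (c0 := 51) (cT := 61)
    (LE := [2]) (LO := []) (lb := 0)
    (by decide +kernel) (by decide +kernel) (by norm_num) (by decide +kernel)
    (fun N b θ W => W.toWe.cellsD le_rfl (by norm_num) (by norm_num) numD_12_2 hE hP) (Or.inl hCC)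
    (fun z x x' h => (hNF z x x' h.1 h.2.1 h.2.2).elim)
    (okv_e (by decide +kernel) (by decide +kernel)) (by norm_num) (by norm_num) le_rfl
    (by decide) (by decide) hJ
  exact ⟨_, h⟩

/-- window `3` for `j = 12`, cap `53` -/
theorem Ctx.winFK3_12 (K : Ctx P r 12 lo hi e) (hE : NoE2 P 12) (hP : NoP2 P 12)
    (hCC : NoCC P 12)
    (hNF : NF P 12) (hJ : ∃ z : P, Hul.Jn z) :
    ∃ V, WinB P 12 3 53 (fun V => ([] : List ℤ).elem V)
      (fun V => nz ((12 + 1 - 3 : ℕ) : ℤ) V || ([-2] : List ℤ).elem V) (-2) V := by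
  obtain ⟨N, θ, v, -, -, h⟩ := K.winFK le_rfl (by norm_num) (Or.inr rfl) (c0 := 42) (cT := 53)
    (LE := [-2]) (LO := []) (lb := -2)
    (by decide +kernel) (by decide +kernel) (by norm_num) (by decide +kernel)
    (fun N b θ W => W.toWe.cellsD (by norm_num) (by norm_num) (by norm_num) numD_12_3 hE hP)
    (Or.inl hCC)
    (fun z x x' h => (hNF z x x' h.1 h.2.1 h.2.2).elim)
    (okv_e (by decide +kernel) (by decide +kernel)) (by norm_num) (by norm_num) (by norm_num)
    (by decide) (by decide) hJ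
  exact ⟨_, h⟩

end Pool.Agent.GaussPoset.Sm

end

/-! From `Pool.Agent.W_448s8f_h76.FqF` -/

section

/-!
# S8 for `j = 12`: no joins of level `13` (MP_448cb3_co)
-/

namespace Pool.Agent.GaussPoset.Sm

set_option linter.unusedSectionVars false

open Finset

universe u

variable {P : Type u} [Fintype P] [PartialOrder P] [DecidableEq P] {r : ℕ}
  {lo hi : Tops P → ℕ → ℕ} {e : Tops P → ℕ → ℕ → P}

/-- **no joins of level `13`** -/
theorem Ctx.no_join12 (K : Ctx P r 12 lo hi e) {z : P} (hl : lev z = 13) : ¬ Hul.Jn z :=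
  no_join12_of K (fun hE hP hJ => K.winFK2_12 hE hP K.st2.1 (nf12 K) hJ)
    (fun hE hP hJ => K.winFK3_12 hE hP K.st2.1 (nf12 K) hJ) hl

end Pool.Agent.GaussPoset.Sm

end
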