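import Mathlib
import Pool.Agent.W_448zz_h61.Ns
import Pool.Agent.W_448zz_h61.M172
import Pool.Agent.W_448zz_h61.M257

/-! From `Pool.Agent.W_448win_h80.R3B` -/

section

/-!
# The rotated rows with four sites, window `j - 1` (MP_448cb3_co, G2)

`i + 1 = j`, the row `x 0 .. x 3` at the level `j`, no element below `{x 0, x 1}`, one element below
`{x 0, x 3}`; both ends have one upper cover, so there are three sites at the window `j - 1`.
-/

set_option autoImplicit false

namespace Pool.Agent.GaussPoset.R3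

set_option linter.unusedSectionVars false

open Finset Win St Wd Win.W4 EK
open Pool.Agent.GaussPoset.Win.Pn
open Pool.Agent.GaussPoset.Win.SO (N1f mem_N1f N5f F5 mem_F5)
open Pool.Agent.GaussPoset.Win.Rd (sts_bi)

universe u

variable {P : Type u} [Fintype P] [PartialOrder P] [DecidableEq P] {r j i : ℕ}
  {t : Tops P} {lo hi : ℕ → ℕ} {e : ℕ → ℕ → P} {x : ℕ → P} {c : ℕ → ℤ} {β : ℤ}

/-- the weights of helper16 -/
def wR : Wt := ⟨-1, 9, 1, 4, 3, -1, 2, 13, 0⟩

/-- the window `j` -/
lemma own2_R (j : ℕ) (t : Tops P) : own2 wR j t =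
    2 * Lv j (cext (j + 1) (topOf : P → Tops P) t) -
      3 * I2.al 2 (st j (cext (j + 1) (topOf : P → Tops P) t)).card
        (ZS j (cext (j + 1) (topOf : P → Tops P) t)) +
        13 * wv j (cext (j + 1) (topOf : P → Tops P) t) := by
  unfold own2 F2 F3 F4 F6 Lv wv I2.bb I2.VV
  simp only [wR]
  ring

section row

variable (h : NJ P r j) (hij : i + 1 = j) (hi1 : 1 ≤ i) (B : RowB P j t 3 x c β)
include h hij hi1 B

/-- the number of sites of the window `j - 1` -/
lemma three (u0 : (uc (x 0)).card = 1) (u3 : (uc (x 3)).card = 1) :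
    (st i (SS i t)).card = 3 := by
  obtain ⟨-, h2, -⟩ := h.inner hij hi1 B
  rw [h2 (by omega), u0, u3]

/-- the only inner edge with two double ends -/
lemma Ed_one (u0 : (uc (x 0)).card = 1) (u3 : (uc (x 3)).card = 1) {k : ℕ} (hk : k ∈ Ed x 3) :
    k = 1 := by
  obtain ⟨h1, h2, h3⟩ := mem_Ed.1 hk
  have hk3 : k = 0 ∨ k = 1 ∨ k = 2 := by omega
  rcases hk3 with rfl | rfl | rfl
  · omega
  · rfl
  · rw [show 2 + 1 = 3 by norm_num] at h3
    omega

/-- no twins -/
lemma tws_R (c1 : c 1 = 0) (u0 : (uc (x 0)).card = 1) (u3 : (uc (x 3)).card = 1) :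
    Tws i (SS i t) = ∅ := by
  classical
  have h1 := h.tws_test hij hi1 B (fun _ => True)
  simp only [filter_true] at h1
  have h2 : Et x 3 c = ∅ := by
    rw [eq_empty_iff_forall_notMem]
    intro k hk
    obtain ⟨k1, k2⟩ := mem_Et.1 hk
    rw [Ed_one h hij hi1 B u0 u3 k1, c1] at k2
    norm_num at k2
  rw [h2, card_empty] at h1
  exact card_eq_zero.1 (by exact_mod_cast h1)

/-- as many lower as upper elements over three sites -/
lemma bal_R (c1 : c 1 = 0) (u0 : (uc (x 0)).card = 1) (u3 : (uc (x 3)).card = 1)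
    (R : Finset P → Prop) [DecidablePred R] :
    (((ZL i (SS i t)).filter (fun z => R (sit i z))).card : ℤ) -
      (((ZU i (SS i t)).filter (fun z => R (sit i z))).card : ℤ) = 0 := by
  rw [h.bal_test hij hi1 B R]
  refine sum_eq_zero fun k hk => ?_
  rw [Ed_one h hij hi1 B u0 u3 (mem_filter.1 hk).1, c1]

/-- the own part of the window `j - 1` without a flip -/
lemma own1_open (c1 : c 1 = 0) (u0 : (uc (x 0)).card = 1) (u3 : (uc (x 3)).card = 1)
    (hF : F5 i (SS i t) = ∅) : 2 * ((N1f i (SS i t)).card : ℤ) ≤ own1 wR i t := by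
  have h3 := three h hij hi1 B u0 u3
  have hT := tws_R h hij hi1 B c1 u0 u3
  obtain ⟨-, v5, v6, v8, v10⟩ := W1.vals_open h hij hi1 t hT hF
  rw [nj_QQ_three h hij hi1 t (by omega) hF, nj_N5_three h hij hi1 t (by omega), card_empty] at v6
  rw [nj_N5_three h hij hi1 t (by omega), card_empty] at v10
  have e3 : A3 i t = I2.al 3 (st i (SS i t)).card (ZS i (SS i t)) := rfl
  have e5 : B5 i t = 0 := v5
  have e6 : C6 i t = _ := v6
  have e8 : C8 i t = 0 := v8
  have e10 : C10 i t = _ := v10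
  unfold own1
  rw [e5, e6, e8, e10, e3]
  simp only [wR]
  push_cast
  set a := I2.al 3 (st i (SS i t)).card (ZS i (SS i t))
  have h1 : 0 ≤ a * (a - 1) := by
    rcases le_or_gt a 0 with h2 | h2
    · exact mul_nonneg_of_nonpos_of_nonpos h2 (by linarith)
    · exact mul_nonneg (by linarith) (by linarith)
  nlinarith

/-- the private elements below the middle element with three sites -/
lemma DE_le : (DE j (cext (j + 1) (topOf : P → Tops P) t) x 1).card ≤ (N1f i (SS i t)).card := by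
  classical
  have H := h.g.H
  rw [h.cext_eq (i := i) (by omega) t]
  refine card_le_card fun z hz => ?_
  obtain ⟨z1, z2, z3⟩ := mem_DE.1 hz
  obtain ⟨l1, l2, y0, y1, y2⟩ := mem_PD.1 z2
  obtain ⟨y, hy⟩ := card_eq_one.1 l2
  have hyy : y0 = y := by
    rw [← mem_uc, hy, mem_singleton] at y1
    exact y1
  subst hyy
  have ly := lev_uc H (mem_uc.2 y1)
  have hs : uc y0 = {x 1, x 2} := by
    rw [← sit_PDs H z2 hy, z3]
    rfl
  have hyS : y0 ∈ SS i t := by
    have hC : Part (j + 1) (SS i t) := h.part (by omega) le_rfl t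
    exact hC.up z1 y1
  refine mem_N1f.2 ⟨z1, Or.inl ⟨by omega, y0, mem_ZL.2 ⟨hyS, by omega, ?_⟩, hy⟩⟩
  rw [← card_sts, sts_bi H (by omega), hs, biUnion_insert, singleton_biUnion]
  obtain ⟨g1, -, -⟩ := h.inner hij hi1 B
  have a1 := g1 1 (by omega) (by omega)
  have a2 := g1 2 (by omega) (by omega)
  have a3 := B.ucv_x 1 2 (by omega) (by omega)
  rw [if_pos rfl] at a3
  have a4 : (uc (x 1) ∩ uc (x 2)).card = ucv (x 1) (x 2) := by
    unfold ucv
    congr 1
    ext w
    rw [mem_inter, mem_uc, mem_uc, mem_filter]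
    simp
  rw [a3] at a4
  have a5 := card_union_add_card_inter (uc (x 1)) (uc (x 2))
  omega

/-- a pendant of the part is the private child of `x 1` -/
lemma pd_x1 (u0 : (uc (x 0)).card = 1) (u3 : (uc (x 3)).card = 1) (hp2 : pen (x 2) = ∅) {p : P}
    (hp : p ∈ PD P i) (ht : (topOf p : Tops P) = t) : uc p = {x 1} := by
  classical
  have H := h.g.H
  obtain ⟨l1, l2, y0, y1, y2⟩ := mem_PD.1 hp
  obtain ⟨y, hy⟩ := card_eq_one.1 l2
  have hyy : y0 = y := by
    rw [← mem_uc, hy, mem_singleton] at y1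
    exact y1
  subst hyy
  have ly := lev_uc H (mem_uc.2 y1)
  have hyt : (topOf y0 : Tops P) = t := by
    rw [← ht]
    exact (h.split y1 (by omega)).symm
  obtain ⟨k, hk, hxk⟩ := B.row.surj y0 (by omega) hyt
  have hk4 : k = 0 ∨ k = 1 ∨ k = 2 ∨ k = 3 := by omega
  rcases hk4 with rfl | rfl | rfl | rfl
  · rw [hxk] at u0; omega
  · rw [hy, hxk]
  · exfalso
    have : p ∈ pen (x 2) := mem_pen.2 ⟨by rw [hxk]; exact y1, l2⟩
    rw [hp2] at this
    exact absurd this (notMem_empty _)
  · rw [hxk] at u3; omega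

/-- no pendant: no share -/
lemma no_pd (u0 : (uc (x 0)).card = 1) (u3 : (uc (x 3)).card = 1) (hp1 : pen (x 1) = ∅)
    (hp2 : pen (x 2) = ∅) : (PD P i).filter (fun p => (topOf p : Tops P) = t) = ∅ := by
  classical
  rw [eq_empty_iff_forall_notMem]
  intro p hp
  obtain ⟨hp, ht⟩ := mem_filter.1 hp
  have h1 := pd_x1 h hij hi1 B u0 u3 hp2 hp ht
  have : p ∈ pen (x 1) := mem_pen.2 ⟨mem_uc.1 (by rw [h1]; exact mem_singleton_self _),
    (mem_PD.1 hp).2.1⟩
  rw [hp1] at this
  exact absurd this (notMem_empty _)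

end row

end Pool.Agent.GaussPoset.R3

end

/-! From `Pool.Agent.W_448win_h80.R3C` -/

section

/-!
# The rotated rows with four sites, window `j - 1`: the share of the pendant (MP_448cb3_co, G2)

The pendant of the part at the window `j - 1` exists only for the word OC OO OO.
-/

set_option autoImplicit false

namespace Pool.Agent.GaussPoset.R3

set_option linter.unusedSectionVars false

open Finset Win St Wd Win.W4 EK
open Pool.Agent.GaussPoset.Win.Pn
open Pool.Agent.GaussPoset.Win.Pf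
open Pool.Agent.GaussPoset.Win.SO (N1f mem_N1f N5f F5 mem_F5)
open Pool.Agent.GaussPoset.Win.Rd (sts_bi)

universe u

variable {P : Type u} [Fintype P] [PartialOrder P] [DecidableEq P] {r j i : ℕ}
  {t : Tops P} {lo hi : ℕ → ℕ} {e : ℕ → ℕ → P} {x : ℕ → P} {c : ℕ → ℤ} {β : ℤ}

/-- the values for the word OC OO OO -/
structure Oc (i : ℕ) (lo hi : ℕ → ℕ) : Prop where
  i5 : 5 ≤ i
  l0 : lo (i + 1) = 0
  h0 : hi (i + 1) = 3
  l1 : lo i = 0
  h1 : hi i = 2
  l2 : lo (i - 1) = 0
  h2 : hi (i - 1) = 1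
  l3 : lo (i - 2) = 0
  h3 : hi (i - 2) = 1
  l4 : lo (i - 3) = 0
  h4 : hi (i - 3) = 0

/-- the number of private children -/
lemma kc_le_two (H : Gr P r) (z : P) : kc z ≤ 2 := by
  have h1 : ks z ⊆ dc z := fun y hy => mem_dc.2 (mem_uc.1 (by
    rw [mem_ks.1 hy]; exact mem_singleton_self _))
  have h2 := card_le_card h1
  have h3 := dc_card_le H z
  unfold kc
  omega

lemma sum_kc_le (H : Gr P r) (i : ℕ) (p : P) :
    ∑ z ∈ zs i (topOf : P → Tops P) p, kc z ≤ 2 * zc i (topOf : P → Tops P) p := by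
  have h1 : ∑ z ∈ zs i (topOf : P → Tops P) p, kc z ≤
      ∑ _z ∈ zs i (topOf : P → Tops P) p, (2 : ℤ) := sum_le_sum fun z _ => kc_le_two H z
  rw [sum_const, nsmul_eq_mul] at h1
  unfold zc
  linarith

section row

variable (h : NJ P r j) (hij : i + 1 = j) (hi1 : 1 ≤ i) (B : RowB P j t 3 x c β)
include h hij hi1 B

/-- the sites of the pendant are the covers of `x 1` -/
lemma sit_p {p : P} (hp : p ∈ PD P i) (hu : uc p = {x 1}) : sit i p = uc (x 1) :=
  sit_PDs h.g.H hp hu

omit h hij hi1 in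
/-- a common cover of two elements of the row -/
lemma adj_x {k l : ℕ} (hkl : k < l) (hl : l ≤ 3) (hd : ¬ Disjoint (uc (x k)) (uc (x l))) :
    l = k + 1 := by
  classical
  by_contra hne
  have a3 := B.ucv_x k l hkl hl
  rw [if_neg hne] at a3
  rw [not_disjoint_iff] at hd
  obtain ⟨w, w1, w2⟩ := hd
  have h1 : w ∈ univ.filter (fun y => x k ⋖ y ∧ x l ⋖ y) :=
    mem_filter.2 ⟨mem_univ _, mem_uc.1 w1, mem_uc.1 w2⟩
  have h2 : (univ.filter (fun y => x k ⋖ y ∧ x l ⋖ y)).card = 0 := a3
  rw [card_eq_zero.1 h2] at h1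
  exact notMem_empty _ h1

/-- the near lower elements which meet the sites of the pendant -/
lemma nLp_le {p : P} (hp : p ∈ PD P i) (hu : uc p = {x 1}) (ht : (topOf p : Tops P) = t) :
    (nLp i p).card ≤ 3 := by
  classical
  have H := h.g.H
  have h1 : nLp i p ⊆ {x 0, x 1, x 2} := by
    intro w hw
    obtain ⟨w1, w2⟩ := mem_nLp.1 hw
    rw [sit_p h hij hi1 B hp hu] at w2
    have hwt : (topOf w : Tops P) = t := by
      rw [not_disjoint_iff] at w2
      obtain ⟨v, v1, v2⟩ := w2
      have e1 := h.split (mem_uc.1 v1) (by omega)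
      have e2 := h.split (mem_uc.1 v2) (by have := B.row.lev_x 1 (by omega); omega)
      have e3 := B.row.kap 1 (by omega)
      rw [e1, ← e2, e3]
    obtain ⟨k, hk, hwk⟩ := B.row.surj w (by omega) hwt
    have hk4 : k = 0 ∨ k = 1 ∨ k = 2 ∨ k = 3 := by omega
    rw [mem_insert, mem_insert, mem_singleton]
    rcases hk4 with rfl | rfl | rfl | rfl
    · exact Or.inl hwk.symm
    · exact Or.inr (Or.inl hwk.symm)
    · exact Or.inr (Or.inr hwk.symm)
    · exfalso
      rw [← hwk, disjoint_comm] at w2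
      have := adj_x B (k := 1) (l := 3) (by omega) le_rfl w2
      omega
  exact (card_le_card h1).trans card_le_three

/-- the near upper elements: at most two for the word OC OO OO -/
lemma nUp_le (C : Cp.Comp (i + 1) (t : P) lo hi e) (D : Oc i lo hi) {p : P} (hp : p ∈ PD P i)
    (hu : uc p = {x 1}) : (nUp i p).card ≤ 2 := by
  classical
  have H := h.g.H
  have d5 := D.i5
  have h1 : nUp i p ⊆ {e (i - 1) 0, e (i - 1) 1} := by
    intro w hw
    obtain ⟨w1, w2⟩ := mem_nUp.1 hw
    rw [sit_p h hij hi1 B hp hu, not_disjoint_iff] at w2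
    obtain ⟨v, v1, v2⟩ := w2
    have hvt : v ≤ (t : P) := by
      have e2 := h.split (mem_uc.1 v2) (by have := B.row.lev_x 1 (by omega); omega)
      have e3 := B.row.kap 1 (by omega)
      have e4 := le_topOf v
      rw [← e2, e3] at e4
      exact e4
    have hwt : w ≤ (t : P) := by
      refine Cp.up_le H (fun l hl => h.g.good l hl) t.2 hvt ?_ (mem_dc.1 v1).le
      have := lev_dc H v1
      omega
    obtain ⟨a, a1, a2, a3⟩ := C.surj w hwt (by omega)
    have lw : lev w = i - 1 := by omega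
    rw [lw] at a1 a2 a3
    rw [D.l2] at a1
    rw [D.h2] at a2
    rw [mem_insert, mem_singleton]
    have : a = 0 ∨ a = 1 := by omega
    rcases this with rfl | rfl
    · exact Or.inl a3.symm
    · exact Or.inr a3.symm
  exact (card_le_card h1).trans card_le_two

/-- the private children of the pendant -/
lemma kc_FL {p : P} (hp : p ∈ PD P i) (ht : (topOf p : Tops P) = t) :
    kc p ≤ ((FL i (SS i t)).card : ℤ) := by
  have hlp := (mem_PD.1 hp).1
  have hpS : p ∈ SS i t := (h.mem (by omega) t (by omega)).2 (by rw [← ht]; exact le_topOf p)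
  rw [nj_kc h hij hi1 t hpS hlp]
  have h1 : FLo (SS i t) p ⊆ FL i (SS i t) := by
    intro y hy
    obtain ⟨y1, y2⟩ := mem_FLo.1 hy
    exact mem_FL.2 ⟨y1, p, hp, y2⟩
  exact_mod_cast card_le_card h1

/-- the share of the pendant is nonnegative if there is no flip -/
lemma shr_open (C : Cp.Comp (i + 1) (t : P) lo hi e) (D : Oc i lo hi) (c1 : c 1 = 0)
    (u0 : (uc (x 0)).card = 1) (u3 : (uc (x 3)).card = 1) (hF : F5 i (SS i t) = ∅)
    {p : P} (hp : p ∈ PD P i) (ht : (topOf p : Tops P) = t) (hu : uc p = {x 1}) :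
    0 ≤ shr wR i p := by
  classical
  have H := h.g.H
  have d5 := D.i5
  have hb := bal_R h hij hi1 B c1 u0 u3 (fun T => ¬ Disjoint T (sit i p))
  have hT := tws_R h hij hi1 B c1 u0 u3
  have hk := kc_FL h hij hi1 B hp ht
  have n1 := nLp_le h hij hi1 B hp hu ht
  have n2 := nUp_le h hij hi1 B C D hp hu
  have hS := sum_kc_le H i p
  have g : GoodTo P r (i + 1) := by rw [hij]; exact h.g
  have hU : (FU' i (SS i t)).card = 0 := by
    rw [C.toWin.card_FU g t.2 (i := i) (by omega) (S := SS i t)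
      (fun y hy => h.mem (by omega) t (by omega))]
    unfold Win.fuw
    rw [D.l3, D.l4, D.h3, D.h4, if_neg (by omega), if_neg (by omega)]
  subst ht
  have e5 := nj_net5 h hij hi1 hp hF
  have e7 := nj_net7 h hij hi1 hp
  rw [hT, hF, filter_empty, card_empty] at e7
  have e5' : Pn.rho i (topOf : P → Tops P) 5 p - A3 i (topOf p) =
      - ((FL i (SS i (topOf p))).card : ℤ) := by
    unfold A3
    rw [e5, hU]
    have := hb
    push_cast
    linarith
  have e7' : Pn.rho i (topOf : P → Tops P) 7 p - B5 i (topOf p) = 0 := by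
    unfold B5
    rw [e7]
    norm_num
  have hnn : nn i p ≤ 5 := by
    unfold nn
    have n1' : ((nLp i p).card : ℤ) ≤ 3 := by exact_mod_cast n1
    have n2' : ((nUp i p).card : ℤ) ≤ 2 := by exact_mod_cast n2
    linarith
  have hz : 0 ≤ zc i (topOf : P → Tops P) p := by unfold zc; positivity
  have hz1 : 0 ≤ zc i (topOf : P → Tops P) p * (zc i (topOf : P → Tops P) p - 1) := by
    rcases Int.le_iff_eq_or_lt.1 hz with h1 | h1
    · rw [← h1]; norm_num
    · exact mul_nonneg hz (by linarith [Int.add_one_le_iff.2 h1])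
  have hFL : (0 : ℤ) ≤ ((FL i (SS i (topOf p))).card : ℤ) := by positivity
  unfold shr
  rw [e5', e7']
  simp only [wR]
  set Z := zc i (topOf : P → Tops P) p
  set F := ((FL i (SS i (topOf p))).card : ℤ)
  have k1 : Z * (kc p + nn i p) ≤ Z * (F + 5) := mul_le_mul_of_nonneg_left (by linarith) hz
  have k2 : 0 ≤ Z * F := mul_nonneg hz hFL
  nlinarith

/-- the part and the pendant at the window `j - 1` with a flip -/
lemma flip_val (C : Cp.Comp (i + 1) (t : P) lo hi e) (D : Oc i lo hi) (c1 : c 1 = 0)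
    (u0 : (uc (x 0)).card = 1) (u3 : (uc (x 3)).card = 1) {p y q u a s b : P}
    (ht : (topOf p : Tops P) = t) (F : Flp i (SS i t) p y q u a s b) :
    4 * ((N1f i (SS i t)).card : ℤ) ≤ 2 * own1 wR i t + shr wR i p := by
  classical
  have H := h.g.H
  have d5 := D.i5
  have hb := bal_R h hij hi1 B c1 u0 u3 (fun _ => True)
  simp only [filter_true] at hb
  obtain ⟨-, -, hZU, hrow⟩ := nj_flip_row h hij hi1 t C F
  rw [D.l0, D.l1, D.l2, D.l3, D.l4, D.h0, D.h1, D.h2, D.h3, D.h4] at hrow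
  rcases hrow with ⟨-, hh, -⟩ | ⟨-, -, r1, r2, r3⟩
  · omega
  rw [if_pos (by norm_num)] at r1
  rw [if_pos rfl, if_neg (by norm_num)] at r2
  rw [if_neg (by omega)] at r3
  have hA := nj_flip_al3 h hij hi1 t F
  rw [r1, r2, r3] at hA
  have hA' : A3 i t = ((FL i (SS i t)).card : ℤ) := by
    unfold A3
    rw [hA]
    push_cast
    linarith
  have hown := nj_flip_own h hij hi1 wR t F
  rw [own_eq, hA', r1, r2, r3] at hown
  have hS := sum_kc_le H i p
  have hz : 0 ≤ zc i (topOf : P → Tops P) p := by unfold zc; positivity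
  have hzk := nj_zc_kc h hij hi1 (p := p) F.lp
  have hkc := nj_kc h hij hi1 t F.mp F.lp
  obtain ⟨psi, hM⟩ := good_mat h.g.H (h.g.good i (by omega))
  have Q := nj_pso h hij hi1 hM t
  rw [← FL_eq Q F] at hkc
  have hN : (0 : ℤ) ≤ ((N1f i (SS i t)).card : ℤ) := by positivity
  subst ht
  have hshr := nj_flip_shr h hij hi1 wR F
  rw [hA', r2] at hshr
  rw [hshr]
  have ho : own1 wR i (topOf p) = ((FL i (SS i (topOf p))).card : ℤ) ^ 2 -
      3 * (FL i (SS i (topOf p))).card + 2 + 2 * (N1f i (SS i (topOf p))).card := by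
    unfold own2 at hown
    simp only [wR] at hown ⊢
    push_cast at hown
    linarith
  rw [ho]
  simp only [wR]
  rw [hkc] at hzk
  set Z := zc i (topOf : P → Tops P) p
  obtain ⟨k, hk⟩ : ∃ k, k = (FL i (SS i (topOf p))).card := ⟨_, rfl⟩
  rw [← hk] at hzk ⊢
  have hZ2 : Z ≤ 2 - k := by linarith
  push_cast
  have hk3 : k = 0 ∨ k = 1 ∨ k = 2 := by
    have : (k : ℤ) ≤ 2 := by linarith
    have : k ≤ 2 := by exact_mod_cast this
    omega
  rcases hk3 with rfl | rfl | rfl
  · push_cast at hZ2 ⊢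
    have hZ : Z = 0 ∨ Z = 1 ∨ Z = 2 := by omega
    rcases hZ with hZ | hZ | hZ <;> rw [hZ] at hS ⊢ <;> linarith
  · push_cast at hZ2 ⊢
    have hZ : Z = 0 ∨ Z = 1 := by omega
    rcases hZ with hZ | hZ <;> rw [hZ] at hS ⊢ <;> linarith
  · push_cast at hZ2 ⊢
    have hZ : Z = 0 := by omega
    rw [hZ] at hS ⊢
    linarith

end row

end Pool.Agent.GaussPoset.R3

end
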