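import Mathlib
import Pool.Agent.W_448zz_h61.Ns
import Pool.Agent.W_448zz_h61.M222
import Pool.Agent.W_448zz_h61.M253
import Pool.Agent.W_448zz_h61.M254
import Pool.Agent.W_448zz_h61.M261

/-! From `Pool.Agent.W_448win_h80.R3D` -/

/-!
# The rotated rows with four sites: the value is positive (MP_448cb3_co, G2)
-/

set_option autoImplicit false

namespace Pool.Agent.GaussPoset.R3

set_option linter.unusedSectionVars false

open Finset Win St Wd Win.W4 EK
open Pool.Agent.GaussPoset.Win.Pn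
open Pool.Agent.GaussPoset.Win.Pf
open Pool.Agent.GaussPoset.Win.SO (N1f mem_N1f N5f F5 mem_F5)
open Pool.Agent.GaussPoset.Win.Rd (sts_bi)

universe u

variable {P : Type u} [Fintype P] [PartialOrder P] [DecidableEq P] {r j i : ℕ}
  {t : Tops P} {lo hi : ℕ → ℕ} {e : ℕ → ℕ → P} {x : ℕ → P} {c : ℕ → ℤ} {β : ℤ}

/-- the window `j` -/
theorem own2_pos (h : NJ P r j) (hj : 2 ≤ j) (B : RowB P j t 3 x c β) (hβ : β = 1)
    (c0 : c 0 = -1) (c1 : c 1 = 0) (c2 : c 2 = 0) (C : Cp.Comp j (t : P) lo hi e)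
    (S : Shape j lo hi) (hp0 : pen (x 0) ≠ ∅) :
    2 ≤ own2 wR j t + 2 * ((DE j (cext (j + 1) (topOf : P → Tops P) t) x 1).card : ℤ) := by
  classical
  have hb : β ≠ 0 := by rw [hβ]; norm_num
  obtain ⟨K, psi, R⟩ := exists_red P j
  obtain ⟨x', hx'⟩ : ∃ x' : ℕ → P, x' = fun k => if k = 4 then x 0 else x k := ⟨_, rfl⟩
  have hxk : ∀ k, k ≤ 3 → x' k = x k := by
    intro k hk
    rw [hx']
    show (if k = 4 then x 0 else x k) = x k
    rw [if_neg (by omega)]
  have hx4 : x' 4 = x' 0 := by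
    rw [hxk 0 (by omega), hx']
    show (if 4 = 4 then x 0 else x 4) = x 0
    rw [if_pos rfl]
  have B' := B.congr hxk
  obtain ⟨w, v, D⟩ := NJ.rg h hj R B' hβ c0 c1 c2 hx4
  have hed : ∀ k, k ≤ 2 → ed x' k = ed x k := by
    intro k hk
    unfold ed
    rw [hxk k (by omega), hxk (k + 1) (by omega)]
  have hUE : UE j (cext (j + 1) (topOf : P → Tops P) t) x' 2 =
      UE j (cext (j + 1) (topOf : P → Tops P) t) x 2 := by
    unfold UE
    rw [hed 2 le_rfl]
  have hDE : DE j (cext (j + 1) (topOf : P → Tops P) t) x' 1 =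
      DE j (cext (j + 1) (topOf : P → Tops P) t) x 1 := by
    unfold DE
    rw [hed 1 (by omega)]
  have key := D.own2_ge (by rw [hxk 0 (by omega)]; exact hp0)
    (by
      rw [hUE, hxk 1 (by omega)]
      exact fun hU => NJ.pen_one_zero h hj B hb C S hU)
    (by
      intro z hz
      obtain ⟨hzC, hzP, -⟩ := mem_UE.1 hz
      have h1 := D.W.ch_PU hzP hzC
      rw [hUE] at hz
      rw [NJ.upen_zero h hj B C S hz, card_empty] at h1
      push_cast at h1
      linarith)
  rw [hDE] at key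
  rw [own2_R]
  linarith

/-- THE VALUE OF A ROTATED ROW WITH FOUR SITES: at least four (twice the value) -/
theorem vt_ge_four (h : NJ P r j) (hij : i + 1 = j) (hi1 : 1 ≤ i) (B : RowB P j t 3 x c β)
    (hβ : β = 1) (c0 : c 0 = -1) (c1 : c 1 = 0) (c2 : c 2 = 0)
    (C : Cp.Comp j (t : P) lo hi e) (S : Shape j lo hi) (u0 : (uc (x 0)).card = 1)
    (u3 : (uc (x 3)).card = 1) (hp0 : pen (x 0) ≠ ∅) (hp2 : pen (x 2) = ∅)
    (hD : pen (x 1) = ∅ ∨ Oc i lo hi) :
    4 ≤ 2 * own wR i j t + ∑ p ∈ (PD P i).filter (fun p => (topOf p : Tops P) = t),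
      shr wR i p := by
  classical
  have h2 := own2_pos h (by omega) B hβ c0 c1 c2 C S hp0
  have hDE := DE_le h hij hi1 B (t := t)
  have hDE' : ((DE j (cext (j + 1) (topOf : P → Tops P) t) x 1).card : ℤ) ≤
      ((N1f i (SS i t)).card : ℤ) := by exact_mod_cast hDE
  rw [own_eq]
  suffices hs : 4 * ((N1f i (SS i t)).card : ℤ) ≤ 2 * own1 wR i t +
      ∑ p ∈ (PD P i).filter (fun p => (topOf p : Tops P) = t), shr wR i p by linarith
  have hin : ∀ p ∈ (PD P i).filter (fun p => (topOf p : Tops P) = t),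
      p ∈ (SS i t).filter (· ∈ PD P i) := by
    intro p hp
    obtain ⟨hp1, hp3⟩ := mem_filter.1 hp
    have hlp := (mem_PD.1 hp1).1
    exact mem_filter.2 ⟨(h.mem (by omega) t (by omega)).2 (by rw [← hp3]; exact le_topOf p), hp1⟩
  have hnoF : (PD P i).filter (fun p => (topOf p : Tops P) = t) = ∅ → F5 i (SS i t) = ∅ := by
    intro he
    rw [eq_empty_iff_forall_notMem]
    intro q hq
    obtain ⟨q1, q2, -⟩ := mem_F5.1 hq
    have hlq := (mem_PD.1 q2).1
    have hqt : q.1 ≤ (t : P) := (h.mem (by omega) t (by omega)).1 q1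
    have : q.1 ∈ (PD P i).filter (fun p => (topOf p : Tops P) = t) := by
      refine mem_filter.2 ⟨q2, Subtype.ext ?_⟩
      exact Hul.top_unique (h.nj (z := q.1) (by omega)) (topOf q.1).2 t.2 (le_topOf q.1) hqt
    rw [he] at this
    exact absurd this (notMem_empty _)
  rcases eq_empty_or_nonempty ((PD P i).filter (fun p => (topOf p : Tops P) = t)) with he | hne
  · rw [he, sum_empty]
    have := own1_open h hij hi1 B c1 u0 u3 (hnoF he)
    linarith
  · obtain ⟨p, hp⟩ := hne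
    have hOc : Oc i lo hi := by
      rcases hD with hD | hD
      · exfalso
        rw [no_pd h hij hi1 B u0 u3 hD hp2] at hp
        exact absurd hp (notMem_empty _)
      · exact hD
    have hone : (PD P i).filter (fun p => (topOf p : Tops P) = t) = {p} := by
      obtain ⟨n1, -, -⟩ := nj_one h hij hi1 t
      rw [card_le_one] at n1
      refine eq_singleton_iff_unique_mem.2 ⟨hp, fun q hq => ?_⟩
      exact n1 q (hin q hq) p (hin p hp)
    rw [hone, sum_singleton]
    obtain ⟨hp1, hpt⟩ := mem_filter.1 hp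
    have hup := pd_x1 h hij hi1 B u0 u3 hp2 hp1 hpt
    subst hij
    by_cases hF : F5 i (SS i t) = ∅
    · have g1 := own1_open h rfl hi1 B c1 u0 u3 hF
      have g2 := shr_open h rfl hi1 B C hOc c1 u0 u3 hF hp1 hpt hup
      linarith
    · obtain ⟨⟨p', q⟩, hpq⟩ := nonempty_iff_ne_empty.2 hF
      obtain ⟨y, u, a, s, b, F⟩ := nj_flp h rfl hi1 t hpq
      have hp' : p' = p := by
        obtain ⟨n1, -, -⟩ := nj_one h rfl hi1 t
        rw [card_le_one] at n1
        exact n1 p' (mem_filter.2 ⟨F.mp, F.pD⟩) p (hin p hp)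
      subst hp'
      exact flip_val h rfl hi1 B C hOc c1 u0 u3 hpt F

/-- the pendant below `x 1` -/
lemma pen_x1 (h : NJ P r j) (hij : i + 1 = j) (hi1 : 1 ≤ i)
    (C : Cp.Comp j (t : P) lo hi e) (hlen : hi j = lo j + 3)
    (hor : ∀ k, k ≤ 3 → x k = e j (hi j - k)) (n1 : ¬ LCO lo hi i) (n2 : ¬ RCO lo hi i) :
    pen (x 1) = ∅ := by
  have f1 := C.lo_step i (by omega)
  have f2 := C.hi_step i (by omega)
  have S := NJ.s5c h (by omega) C
  subst hij
  rw [show i + 1 - 1 = i by omega] at S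
  rcases S with ⟨-, -, g⟩ | ⟨g, -⟩ | ⟨g, -⟩
  · have g1 := g (hi (i + 1) - 1) (by omega) (by omega)
    rw [hor 1 (by omega)]
    exact card_eq_zero.1 g1
  · exact absurd g n1
  · exact absurd g n2

end Pool.Agent.GaussPoset.R3
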