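import Mathlib
import Pool.Agent.W_448zz_h61.Ns
import Pool.Agent.W_448zz_h61.M222
import Pool.Agent.W_448zz_h61.M226
import Pool.Agent.W_448zz_h61.M232
import Pool.Agent.W_448zz_h61.M257

/-! From `Pool.Agent.W_448fg_h53.FgE` -/

section

/-!
MP_448cb3_co, G2, case B, windows `j - 1` and `j`: THE VALUE of a row with the pattern [DL] at a fold end,
general weights.  Here `j = i + 1`.  helper53.
-/

namespace Pool.Agent.GaussPoset.Win.W4

set_option linter.unusedSectionVars false

open Finset

universe u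

variable {P : Type u} [Fintype P] [PartialOrder P] [DecidableEq P] {r i : ℕ}
variable {psi : P → P} {C K : Finset P} {w v : P} {m : ℕ} {x : ℕ → P}

/-- THE FORM of the pattern [DL], at least five sites, any left end, no upper pendant over the last pair -/
theorem DLg.Lv_ge4 (h : DLg r i K psi C w v m x) (hm4 : 4 ≤ m) (hl : 0 ≤ NE i C x (m - 1)) :
    ((DE i C x 2).card = 0 ∧ 8 ≤ Lv i C) ∨ ((DE i C x 2).card = 1 ∧ -2 ≤ Lv i C) ∨
      ((DE i C x 2).card = 2 ∧ -10 ≤ Lv i C) := by
  have hU2 := h.W.ue_inner (k := 2) (by omega) (by omega)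
  have h3 := h.TUs_le hm4
  have h4 := OCs_nonneg (i := i) (C := C) (w := w) (v := v)
  have h5 := sq_add_nonneg (NE i C x 0 + (uc (x 0)).card - 1)
  have hpos : ∀ k, 3 ≤ k → k < m → 0 ≤ NE i C x k := by
    intro k hk hk'
    rcases Nat.lt_or_ge (k + 1) m with h6 | h6
    · exact h.NE_nonneg (by omega) (by omega)
    · have : k = m - 1 := by omega
      rw [this]
      exact hl
  have p3 := hpos 3 le_rfl (by omega)
  have q1 := QS_bot (NE i C x) (s := 3) (t := m) (by omega)
  have q2 := QS_nonneg (NE i C x) (s := 3 + 1) (t := m) (by omega)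
    fun k hk hk' => hpos k (by omega) (by omega)
  have q3 : (0 : ℤ) ≤ if 3 + 1 < m then 2 * NE i C x 3 * NE i C x (3 + 1) else 0 := by
    split_ifs with h6
    · have := hpos (3 + 1) (by omega) h6
      positivity
    · exact le_rfl
  have q4 := sq_sub_nonneg (NE i C x 3)
  have e2 : NE i C x 2 = ((DE i C x 2).card : ℤ) := by
    unfold NE
    rw [hU2, card_empty]
    push_cast
    ring
  rw [h.L_form hm4, h.Zs_eq hm4, e2, q1]
  have t1 : ((TUs i C x).card : ℤ) ≤ 1 := by exact_mod_cast h3
  have t2 : (0 : ℤ) ≤ ((TLs i C x).card : ℤ) := by positivity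
  rcases h.CH2_num with ⟨d, c⟩ | ⟨d, c⟩ | ⟨d, c⟩
  · refine Or.inl ⟨d, ?_⟩
    rw [d]
    push_cast
    linarith
  · refine Or.inr (Or.inl ⟨d, ?_⟩)
    rw [d]
    push_cast
    nlinarith [sq_nonneg (NE i C x 3)]
  · refine Or.inr (Or.inr ⟨d, ?_⟩)
    rw [d]
    push_cast
    nlinarith [sq_nonneg (NE i C x 3)]

/-- THE FORM of the pattern [DL], four sites -/
theorem DLg.Lv_ge3 (h : DLg r i K psi C w v m x) (hm3 : m = 3) (hU : UE i C x 2 = ∅)
    (hp : pen (x 2) = ∅) (h3 : (uc (x 3)).card + (pen (x 3)).card ≤ 2) :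
    ((DE i C x 2).card = 0 ∧ 10 ≤ Lv i C) ∨ ((DE i C x 2).card = 1 ∧ 2 ≤ Lv i C) ∨
      ((DE i C x 2).card = 2 ∧ -4 ≤ Lv i C) := by
  have g4 := card_le_card (T4_subset i C)
  have g5 := sq_add_nonneg (NE i C x 0 + (uc (x 0)).card - 1)
  have e2 : NE i C x 2 = ((DE i C x 2).card : ℤ) := by
    unfold NE
    rw [hU, card_empty]
    push_cast
    ring
  rw [h.L_form3 hm3, e2, hp, card_empty]
  have hz : ((T4 i C).card : ℤ) ≤ (Z4 i C).card := by exact_mod_cast g4
  have hsq : ((uc (x 3)).card : ℤ) + (pen (x 3)).card ≤ 2 := by exact_mod_cast h3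
  rcases h.CH2_num with ⟨d, c⟩ | ⟨d, c⟩ | ⟨d, c⟩
  · refine Or.inl ⟨d, ?_⟩
    rw [d]
    push_cast
    linarith
  · refine Or.inr (Or.inl ⟨d, ?_⟩)
    rw [d]
    push_cast
    linarith
  · refine Or.inr (Or.inr ⟨d, ?_⟩)
    rw [d]
    push_cast
    linarith

end Pool.Agent.GaussPoset.Win.W4

namespace Pool.Agent.GaussPoset.EK

set_option linter.unusedSectionVars false

open Finset Win St Polynomial Wd Win.W4
open Pool.Agent.GaussPoset.Win.SO (PN vp mem_PN)

universe u

variable {P : Type u} [Fintype P] [PartialOrder P] [DecidableEq P] {r i : ℕ}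

variable {m : ℕ} {x : ℕ → P} {c : ℕ → ℤ} {t : Tops P} {lo hi : ℕ → ℕ} {e : ℕ → ℕ → P}

namespace FoldDL

variable (F : FoldDL P r i t m x c lo hi e)
include F

/-- no upper pendant over the last pair -/
lemma UE_last : UE (i + 1) (cext (i + 1 + 1) (topOf : P → Tops P) t) x (m - 1) = ∅ := by
  classical
  obtain ⟨f1, f2, f3, f4, hor⟩ := F.coord
  obtain ⟨n, hn⟩ : ∃ n, i = n + 1 := ⟨i - 1, by have := F.hi1; omega⟩
  subst hn
  have h := F.h
  have H := h.g.H
  have C := F.C
  have B := F.B
  have hm := F.hm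
  have hj : 2 ≤ n + 1 + 1 := by omega
  have W := NJ.prow h hj B (by omega)
  have s1 := C.lo_step n (by omega)
  have s2 := C.lo_step (n + 1) (by omega)
  have s3 := C.hi_step n (by omega)
  have s4 := C.hi_step (n + 1) (by omega)
  have s5 := C.lo_le n (by omega)
  have s6 := C.lo_le (n + 1) (by omega)
  have hst : lo (n + 1 + 1) = 0 ∨ lo (n + 1 + 1) = lo (n + 1) + 1 := F.S.lo (n + 1) (by omega)
  rw [eq_empty_iff_forall_notMem]
  intro z hz
  obtain ⟨hzC, hzP, hzs⟩ := mem_UE.1 hz
  obtain ⟨-, u, -, -, -, -, -, hu⟩ := PN_dat H (C := cext (n + 1 + 1 + 1) (topOf : P → Tops P) t)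
    (SO.mem_PN.2 ⟨hzC, Or.inr hzP⟩)
  rcases hu with ⟨g1, -⟩ | ⟨-, hlz, hlu, hdz, hsu, -⟩
  · have := lev_PU hzP
    have := lev_PD g1
    omega
  have hux2 : x (m - 1) ⋖ u := by
    rw [← mem_dc, ← hsu, hzs]
    exact (W.mem_ed (by omega) (by omega)).2 (Or.inl rfl)
  have hux3 : x m ⋖ u := by
    rw [← mem_dc, ← hsu, hzs]
    exact (W.mem_ed (by omega) (by omega)).2 (Or.inr (by omega))
  have huz : u ⋖ z := by rw [← mem_dc, hdz]; exact mem_singleton_self u
  have hx2t : x m ≤ (t : P) := by
    rw [← B.row.kap m (by omega)]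
    exact le_topOf (x m)
  have hut : u ≤ (t : P) := Cp.up_le H h.g.good t.2 hx2t
    (by have := B.row.lev_x m (by omega); omega) hux3.le
  have hzt : z ≤ (t : P) := Cp.up_le H h.g.good t.2 hut (by omega) huz.le
  obtain ⟨a, a1, a2, a3⟩ := C.surj u hut (by omega)
  obtain ⟨b, b1, b2, b3⟩ := C.surj z hzt (by omega)
  have lu : lev u = n + 1 := by omega
  have lz : lev z = n := by omega
  rw [lu] at a1 a2 a3
  rw [lz] at b1 b2 b3
  subst a3
  subst b3
  have hzd := (C.single_down H (k := n) (by omega) b1 b2).1 (lev_PU hzP).2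
  have hcz := (C.cov n a b (by omega) a1 a2 b1 b2).1 huz
  have h2 := hor (m - 1) (by omega)
  have h3 := hor m le_rfl
  rw [h2] at hux2
  rw [h3] at hux3
  have c2 := (C.cov (n + 1) (hi (n + 1 + 1) - (m - 1)) a (by omega) (by omega) (by omega) a1 a2).1 hux2
  have c3 := (C.cov (n + 1) (hi (n + 1 + 1) - m) a (by omega) (by omega) (by omega) a1 a2).1 hux3
  omega

/-- no pendant below the doubles of the last row -/
lemma pen_dbl {a : ℕ} (ha : lo i < a) (ha' : a ≤ hi i) : pen (e (i + 1) a) = ∅ := by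
  have hj : 2 ≤ i + 1 := by have := F.hi1; omega
  have hS := NJ.s5c F.h hj F.C
  rw [Nat.add_sub_cancel] at hS
  have hev := F.ev
  rcases hS with ⟨-, -, hS⟩ | ⟨⟨q1, q2, q3, q4⟩, -⟩ | ⟨⟨q1, q2, q3, q4⟩, -⟩
  · exact card_eq_zero.1 (hS a ha ha')
  · exfalso
    have g1 := F.S.lo (i - 1) (by omega)
    rw [show i - 1 + 1 = i by omega] at g1
    omega
  · exfalso
    have g1 := F.S.hi (i - 1) (by omega)
    have g2 := F.S.hi (i - 2) (by omega)
    omega

/-- the frame of the pattern [DL] at the window `j` -/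
lemma dlg {K : Finset P} {psi : P → P} (R : Red P (i + 1) K psi) :
    ∃ w v, DLg r (i + 1) K psi (cext (i + 1 + 1) (topOf : P → Tops P) t) w v m x :=
  NJ.dlg F.h (by have := F.hi1; omega) R F.B F.hm rfl F.c0 F.c1 F.c2

/-- THE FORM at the window `j`: `N` is the number of the lower pendants over the third pair -/
theorem Lv_ge : (4 ≤ m → ((DE (i + 1) (cext (i + 1 + 1) (topOf : P → Tops P) t) x 2).card = 0 ∧
        8 ≤ Lv (i + 1) (cext (i + 1 + 1) (topOf : P → Tops P) t)) ∨
      ((DE (i + 1) (cext (i + 1 + 1) (topOf : P → Tops P) t) x 2).card = 1 ∧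
        -2 ≤ Lv (i + 1) (cext (i + 1 + 1) (topOf : P → Tops P) t)) ∨
      ((DE (i + 1) (cext (i + 1 + 1) (topOf : P → Tops P) t) x 2).card = 2 ∧
        -10 ≤ Lv (i + 1) (cext (i + 1 + 1) (topOf : P → Tops P) t))) ∧
    (m = 3 → ((DE (i + 1) (cext (i + 1 + 1) (topOf : P → Tops P) t) x 2).card = 0 ∧
        10 ≤ Lv (i + 1) (cext (i + 1 + 1) (topOf : P → Tops P) t)) ∨
      ((DE (i + 1) (cext (i + 1 + 1) (topOf : P → Tops P) t) x 2).card = 1 ∧
        2 ≤ Lv (i + 1) (cext (i + 1 + 1) (topOf : P → Tops P) t)) ∨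
      ((DE (i + 1) (cext (i + 1 + 1) (topOf : P → Tops P) t) x 2).card = 2 ∧
        -4 ≤ Lv (i + 1) (cext (i + 1 + 1) (topOf : P → Tops P) t))) ∧
    wv (i + 1) (cext (i + 1 + 1) (topOf : P → Tops P) t) =
      ((DE (i + 1) (cext (i + 1 + 1) (topOf : P → Tops P) t) x 2).card : ℤ) - 1 := by
  obtain ⟨K, psi, R⟩ := exists_red P (i + 1)
  obtain ⟨w, v, D⟩ := F.dlg R
  obtain ⟨f1, f2, f3, f4, hor⟩ := F.coord
  have hm := F.hm
  have hlast := F.UE_last
  have hU2 : UE (i + 1) (cext (i + 1 + 1) (topOf : P → Tops P) t) x 2 = ∅ := by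
    rcases Nat.lt_or_ge 3 m with h4 | h4
    · exact D.W.ue_inner (k := 2) (by omega) (by omega)
    · rw [show m - 1 = 2 by omega] at hlast
      exact hlast
  refine ⟨fun h4 => D.Lv_ge4 h4 ?_, fun h3 => ?_, ?_⟩
  · unfold NE
    rw [hlast, card_empty]
    push_cast
    omega
  · have hp2 : pen (x 2) = ∅ := by
      rw [hor 2 (by omega)]
      exact F.pen_dbl (by omega) (by omega)
    refine D.Lv_ge3 h3 hU2 hp2 ?_
    have g5 := D.W.dc_le (k := 3) (by omega)
    have g6 := D.deg3' h3
    rcases D.W.uc_le (k := 3) (by omega) with h1 | h1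
    · omega
    · have h6 := F.C.double_up F.h.g.H F.h.g.good t.2 (k := i) (s := hi (i + 1) - 3) (by omega)
        (by omega) (by omega)
      rw [← hor 3 (by omega)] at h6
      have h7 := h6.1 h1
      have hp3 : pen (x 3) = ∅ := by
        rw [hor 3 (by omega)]
        exact F.pen_dbl h7.1 h7.2
      rw [h1, hp3, card_empty]
  · rw [D.w3_eq]
    unfold NE
    rw [hU2, card_empty]
    push_cast
    ring

/-- the part is small -/
lemma small : Small (i + 1) (topOf : P → Tops P) t := by
  rcases F.B.small F.h.g.H F.h.split with h2 | h2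
  · exact h2
  · exfalso
    obtain ⟨h3, -, -, -, h4, -⟩ := h2
    rw [F.c2 (m - 2) (by omega) (by omega)] at h4
    norm_num at h4

/-- (6,4) vanishes -/
lemma w6 : I2.w6 (I2.bb (i + 1) (i + 1 + 1) (topOf : P → Tops P) t)
    (I2.VV (i + 1) (i + 1 + 1) (topOf : P → Tops P) t) = 0 := by
  obtain ⟨K, psi, R⟩ := exists_red P (i + 1)
  have h := F.h
  have hjr : i + 1 ≤ r := by have := h.hr; omega
  exact (K2.PG_star h.g.H hjr (NJ.noQ h (by have := F.hi1; omega))
    (fun m hm => h.g.good m (by omega)) h.split R.mat R.sub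
      (K2.star_small h.g.H hjr h.split R F.small)).2

end FoldDL

end Pool.Agent.GaussPoset.EK

end

/-! From `Pool.Agent.W_448fg_h53.FgF` -/

section

/-!
MP_448cb3_co, G2, case B, windows `j - 1` and `j`: THE VALUE of a row with the pattern [DL] at a fold end is
positive, general weights.  Here `j = i + 1`.  helper53.
-/

namespace Pool.Agent.GaussPoset.EK

set_option linter.unusedSectionVars false

open Finset Win St Polynomial Wd Win.W4
open Pool.Agent.GaussPoset.Win.SO (PN vp mem_PN)
open Pool.Agent.GaussPoset.Win.Pn (Wt own shr Lm A3 B5 C6 C8 C10 F2 F3 F4 F6)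

universe u

variable {P : Type u} [Fintype P] [PartialOrder P] [DecidableEq P] {r i : ℕ}

variable {m : ℕ} {x : ℕ → P} {c : ℕ → ℤ} {t : Tops P} {lo hi : ℕ → ℕ} {e : ℕ → ℕ → P}

/-- the conditions on the weights for the fold rows -/
structure FoldW (W : Wt) : Prop where
  f24 : W.f2 = W.f4
  f4 : 0 ≤ W.f4
  a6 : 0 ≤ W.a6
  c0 : 0 < W.a3 + W.a6 + 8 * W.f4 - W.f3 + W.f6
  c1 : 0 < W.a3 + 3 * W.a6 - 2 * W.f4
  c2 : 0 < W.a3 + 5 * W.a6 - 10 * W.f4 + W.f3 + W.f6
  d1 : 0 < W.a3 + W.a6 + 2 * W.f4
  d2 : 0 < W.a3 + W.a6 - 4 * W.f4 + W.f3 + W.f6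

namespace FoldDL

variable (F : FoldDL P r i t m x c lo hi e)
include F

/-- the five constants at the window `j - 1` -/
theorem win1 : A3 i t = 1 ∧ B5 i t = 0 ∧
    C6 i t = 1 + 2 * ((SO.N1f i (SS i t)).card : ℤ) ∧ C8 i t = 0 ∧ C10 i t = 0 := by
  have h := F.h
  have a3 := F.al3
  have b5 := F.be5
  have q := F.QQ_eq
  have n5 := (F.cm6.toCm5.no_pend F.noPU).2.2.2.2
  rw [W1.bb_eq h rfl, W1.VV_eq h rfl] at a3 b5
  rw [W1.SS_eq h rfl] at q n5
  have k5 := Pn.nj_be5 h rfl F.hi1 t
  rw [b5] at k5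
  have e1 : Pn.Tws i (SS i t) = ∅ := card_eq_zero.1 (by omega)
  have e2 : SO.F5 i (SS i t) = ∅ := card_eq_zero.1 (by omega)
  obtain ⟨-, -, g6, g8, g10⟩ := W1.vals_open h rfl F.hi1 t e1 e2
  rw [q, n5, card_empty] at g6
  rw [n5, card_empty] at g10
  refine ⟨a3, b5, ?_, g8, ?_⟩
  · unfold C6
    rw [g6]
    push_cast
    ring
  · unfold C10
    rw [g10]
    norm_num

/-- THE FORM OF THE VALUE -/
theorem own_form (W : Wt) (h24 : W.f2 = W.f4) : own W i (i + 1) t = W.a3 +
    W.a6 * (1 + 2 * ((SO.N1f i (SS i t)).card : ℤ)) +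
    W.f4 * Lv (i + 1) (cext (i + 1 + 1) (topOf : P → Tops P) t) +
    W.f3 * wv (i + 1) (cext (i + 1 + 1) (topOf : P → Tops P) t) +
    W.f6 * wv (i + 1) (cext (i + 1 + 1) (topOf : P → Tops P) t) ^ 2 := by
  obtain ⟨g3, g5, g6, g8, g10⟩ := F.win1
  have w6 := F.w6
  have e2 : F2 (i + 1) t + F4 (i + 1) t =
      Lv (i + 1) (cext (i + 1 + 1) (topOf : P → Tops P) t) := rfl
  have e3 : F3 (i + 1) t = wv (i + 1) (cext (i + 1 + 1) (topOf : P → Tops P) t) := rfl
  have e6 : F6 (i + 1) t = wv (i + 1) (cext (i + 1 + 1) (topOf : P → Tops P) t) ^ 2 := by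
    unfold F6
    rw [w6]
    unfold wv I2.bb I2.VV
    ring
  unfold own
  rw [g3, g5, g6, g8, g10, e3, e6, ← e2, h24]
  ring

/-- the lower bounds of the value, and the number `N` of the lower pendants over the third pair -/
theorem own_ge (W : Wt) (h24 : W.f2 = W.f4) (h4 : 0 ≤ W.f4) (h6 : 0 ≤ W.a6) :
    ((lo i < lo (i + 1) ∨ 4 ≤ m) ∧
      (W.a3 + W.a6 + 8 * W.f4 - W.f3 + W.f6 ≤ own W i (i + 1) t ∨
       W.a3 + 3 * W.a6 - 2 * W.f4 ≤ own W i (i + 1) t ∨
       W.a3 + 5 * W.a6 - 10 * W.f4 + W.f3 + W.f6 ≤ own W i (i + 1) t)) ∨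
    (m = 3 ∧ lo i = lo (i + 1) ∧
      (W.a3 + W.a6 + 10 * W.f4 - W.f3 + W.f6 ≤ own W i (i + 1) t ∨
       W.a3 + W.a6 + 2 * W.f4 ≤ own W i (i + 1) t ∨
       W.a3 + W.a6 - 4 * W.f4 + W.f3 + W.f6 ≤ own W i (i + 1) t)) := by
  obtain ⟨l4, l3, hw⟩ := F.Lv_ge
  obtain ⟨f1, f2, f3, f4, hor⟩ := F.coord
  have hm := F.hm
  have ho := F.own_form W h24
  have n0 : (0 : ℤ) ≤ (SO.N1f i (SS i t)).card := by positivity
  generalize Lv (i + 1) (cext (i + 1 + 1) (topOf : P → Tops P) t) = L at *
  have key : ∀ b : ℤ, b ≤ L → W.f4 * b ≤ W.f4 * L := fun b hb => mul_le_mul_of_nonneg_left hb h4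
  have a0 : ∀ b : ℤ, b ≤ (SO.N1f i (SS i t)).card → W.a6 * (1 + 2 * b) ≤
      W.a6 * (1 + 2 * ((SO.N1f i (SS i t)).card : ℤ)) := fun b hb =>
    mul_le_mul_of_nonneg_left (by linarith) h6
  by_cases hc : lo i < lo (i + 1) ∨ 4 ≤ m
  · refine Or.inl ⟨hc, ?_⟩
    have hn := F.N1f_ge hc
    have hn' : wv (i + 1) (cext (i + 1 + 1) (topOf : P → Tops P) t) + 1 ≤
        ((SO.N1f i (SS i t)).card : ℤ) := by
      rw [← W1.SS_eq F.h rfl]
      exact hn
    have hall : ((DE (i + 1) (cext (i + 1 + 1) (topOf : P → Tops P) t) x 2).card = 0 ∧ 8 ≤ L) ∨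
      ((DE (i + 1) (cext (i + 1 + 1) (topOf : P → Tops P) t) x 2).card = 1 ∧ -2 ≤ L) ∨
      ((DE (i + 1) (cext (i + 1 + 1) (topOf : P → Tops P) t) x 2).card = 2 ∧ -10 ≤ L) := by
      rcases Nat.lt_or_ge 3 m with h3 | h3
      · exact l4 h3
      · rcases l3 (by omega) with ⟨d, g⟩ | ⟨d, g⟩ | ⟨d, g⟩
        · exact Or.inl ⟨d, by linarith⟩
        · exact Or.inr (Or.inl ⟨d, by linarith⟩)
        · exact Or.inr (Or.inr ⟨d, by linarith⟩)
    rcases hall with ⟨d, g⟩ | ⟨d, g⟩ | ⟨d, g⟩
    · left
      rw [hw, d] at ho hn'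
      push_cast at ho hn'
      have := key _ g
      have := a0 0 (by linarith)
      linarith
    · right; left
      rw [hw, d] at ho hn'
      push_cast at ho hn'
      have := key _ g
      have := a0 1 (by linarith)
      linarith
    · right; right
      rw [hw, d] at ho hn'
      push_cast at ho hn'
      have := key _ g
      have := a0 2 (by linarith)
      linarith
  · refine Or.inr ⟨by omega, by omega, ?_⟩
    have := a0 0 n0
    rcases l3 (by omega) with ⟨d, g⟩ | ⟨d, g⟩ | ⟨d, g⟩
    · left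
      rw [hw, d] at ho
      push_cast at ho
      have := key _ g
      linarith
    · right; left
      rw [hw, d] at ho
      push_cast at ho
      have := key _ g
      linarith
    · right; right
      rw [hw, d] at ho
      push_cast at ho
      have := key _ g
      linarith

/-- no share of a pendant -/
lemma shr_zero (W : Wt) :
    ∑ p ∈ (PD P i).filter (fun p => (topOf p : Tops P) = t), shr W i p = 0 := by
  refine sum_eq_zero fun p hp => ?_
  exfalso
  rw [mem_filter] at hp
  have hl := lev_PD hp.1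
  have h1 : Split (i + 2) (topOf : P → Tops P) := W1.split F.h rfl
  exact (F.cm6.toCm5.no_pend F.noPU).1 p hp.1
    (mem_cext_of_le h1 (by omega) hp.2)

end FoldDL

/-- the weights of helper96 (no D word) -/
example : FoldW ⟨-20, 175, 20, 60, 25, 5, 5, 35, 16⟩ := by
  constructor <;> norm_num

/-- the weights V1 of helper96 -/
example : FoldW ⟨-16, 144, 16, 40, 24, 12, 12, 96, 25⟩ := by
  constructor <;> norm_num

end Pool.Agent.GaussPoset.EK

end

/-! From `Pool.Agent.W_448fg_h53.FgH` -/

section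

/-!
MP_448cb3_co, G2, case B, window `j`: a row with the pattern [DL] at a fold end, the twins over the first
two elements.  helper53.
-/

namespace Pool.Agent.GaussPoset.EK

set_option linter.unusedSectionVars false

open Finset Win St Polynomial Wd Win.W4
open Pool.Agent.GaussPoset.Win.SO (PN vp mem_PN)

universe u

variable {P : Type u} [Fintype P] [PartialOrder P] [DecidableEq P] {r i j : ℕ}

variable {m : ℕ} {x : ℕ → P} {c : ℕ → ℤ} {t : Tops P} {lo hi : ℕ → ℕ} {e : ℕ → ℕ → P}

namespace FoldDL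

variable (F : FoldDL P r i t m x c lo hi e)
include F

/-- the fold end has one upper cover -/
lemma uc0 : (uc (x 0)).card = 1 := by
  obtain ⟨f1, f2, f3, f4, hor⟩ := F.coord
  have hm := F.hm
  have hl : lev (x 0) = i + 1 := F.B.row.lev_x 0 (by omega)
  rcases uc_card_cases F.h.g.H (x := x 0) (by omega) with h1 | h1
  · exact h1
  · exfalso
    have h6 := F.C.double_up F.h.g.H F.h.g.good t.2 (k := i) (s := hi (i + 1)) (by omega)
      (by omega) (by omega)
    have h7 := hor 0 (by omega)
    rw [Nat.sub_zero] at h7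
    rw [h7] at h1
    have := h6.1 h1
    omega

/-- one upper pendant over the first pair -/
lemma UE0 : (UE (i + 1) (cext (i + 1 + 1) (topOf : P → Tops P) t) x 0).card = 1 := by
  classical
  obtain ⟨f1, f2, f3, f4, hor⟩ := F.coord
  have hev := F.ev
  have hi1 := F.hi1
  obtain ⟨n, hn⟩ : ∃ n, i = n + 1 := ⟨i - 1, by omega⟩
  subst hn
  have h := F.h
  have H := h.g.H
  have C := F.C
  have B := F.B
  have hm := F.hm
  have W := NJ.prow h (by omega) B (by omega)
  have g0 := F.S.hi n (by omega)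
  have g1 := F.S.hi (n + 1) (by omega)
  have g2 := F.S.hi (n + 1 + 1) (by omega)
  have l0 := C.lo_le n (by omega)
  have l1 := C.lo_le (n + 1) (by omega)
  have l2 := C.lo_le (n + 1 + 1) (by omega)
  have hx0 := hor 0 (by omega)
  have hx1 := hor 1 (by omega)
  rw [Nat.sub_zero] at hx0
  have c0 : x 0 ⋖ e (n + 1) (hi (n + 1)) := by
    rw [hx0]
    exact (C.cov (n + 1) _ _ (by omega) (by omega) (by omega) (by omega) (by omega)).2 (by omega)
  have c1 : x 1 ⋖ e (n + 1) (hi (n + 1)) := by
    rw [hx1]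
    exact (C.cov (n + 1) _ _ (by omega) (by omega) (by omega) (by omega) (by omega)).2 (by omega)
  have c2 : e (n + 1) (hi (n + 1)) ⋖ e n (hi n) :=
    (C.cov n _ _ (by omega) (by omega) (by omega) (by omega) (by omega)).2 (by omega)
  have hne : x 0 ≠ x 1 := W.ne (by omega) (by omega) (by omega)
  have hdu : dc (e (n + 1) (hi (n + 1))) = {x 0, x 1} := by
    refine (eq_of_subset_of_card_le ?_ ?_).symm
    · intro y hy
      rw [mem_insert, mem_singleton] at hy
      rcases hy with rfl | rfl
      · exact mem_dc.2 c0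
      · exact mem_dc.2 c1
    · rw [card_pair hne]
      exact dc_card_le H _
  have hdz : (dc (e n (hi n))).card = 1 :=
    (C.single_down H (k := n) (by omega) (by omega) le_rfl).2 (by omega)
  obtain ⟨u, hu⟩ := card_eq_one.1 hdz
  have huu : u = e (n + 1) (hi (n + 1)) := by
    have := mem_dc.2 c2
    rw [hu, mem_singleton] at this
    exact this.symm
  subst huu
  have hlz : lev (e n (hi n)) = n := C.lev_e n _ (by omega) (by omega) le_rfl
  have hzt : e n (hi n) ≤ (t : P) := C.le_t n _ (by omega) (by omega) le_rfl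
  have hz : e n (hi n) ∈ UE (n + 1 + 1) (cext (n + 1 + 1 + 1) (topOf : P → Tops P) t) x 0 := by
    refine mem_UE.2 ⟨?_, mem_PU.2 ⟨by omega, hdz, _, c2, ?_⟩, ?_⟩
    · exact mem_cext_of_le h.split (by omega) (Hul.top_unique (h.nj (by omega)) (topOf _).2 t.2
        (le_topOf _) hzt |> Subtype.ext)
    · rw [hdu, card_pair hne]
    · rw [SO.sit_PU H (by omega) hu, hdu]
      rfl
  have h1 := W.UE_one (i := n + 1 + 1) (C := cext (n + 1 + 1 + 1) (topOf : P → Tops P) t) 0
  have h2 := card_pos.2 ⟨_, hz⟩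
  omega

/-- the twins over the first two elements -/
lemma twins : ∃ a b : P, a ≠ b ∧ uc a = {x 0, x 1} ∧ uc b = {x 0, x 1} ∧ dc (x 0) = {a, b} ∧
    dc (x 1) = {a, b} := by
  classical
  obtain ⟨K, psi, R⟩ := exists_red P (i + 1)
  obtain ⟨w, v, D⟩ := F.dlg R
  have H := F.h.g.H
  have hm := F.hm
  have h1 := D.dn 0 1 (by omega) (by omega)
  rw [if_pos rfl, if_pos rfl] at h1
  have h2 := D.deg0
  have h3 := D.deg1
  unfold dcv at h1
  obtain ⟨a, b, hab, he⟩ := card_eq_two.1 h1
  have ma : a ⋖ x 0 ∧ a ⋖ x 1 := by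
    have : a ∈ ({a, b} : Finset P) := mem_insert_self _ _
    rw [← he, mem_filter] at this
    exact this.2
  have mb : b ⋖ x 0 ∧ b ⋖ x 1 := by
    have : b ∈ ({a, b} : Finset P) := mem_insert_of_mem (mem_singleton_self _)
    rw [← he, mem_filter] at this
    exact this.2
  have hne : x 0 ≠ x 1 := D.n01
  have key : ∀ y : P, y ⋖ x 0 → y ⋖ x 1 → uc y = {x 0, x 1} := by
    intro y h4 h5
    refine (eq_of_subset_of_card_le ?_ ?_).symm
    · intro s hs
      rw [mem_insert, mem_singleton] at hs
      rcases hs with rfl | rfl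
      · exact mem_uc.2 h4
      · exact mem_uc.2 h5
    · rw [card_pair hne]
      exact uc_card_le H _
  have key2 : ∀ s : P, (dc s).card = 2 → a ⋖ s → b ⋖ s → dc s = {a, b} := by
    intro s hs h4 h5
    refine (eq_of_subset_of_card_le ?_ ?_).symm
    · intro y hy
      rw [mem_insert, mem_singleton] at hy
      rcases hy with rfl | rfl
      · exact mem_dc.2 h4
      · exact mem_dc.2 h5
    · rw [card_pair hab, hs]
  exact ⟨a, b, hab, key a ma.1 ma.2, key b mb.1 mb.2, key2 _ h2 ma.1 mb.1, key2 _ h3 ma.2 mb.2⟩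

end FoldDL

end Pool.Agent.GaussPoset.EK

end

/-! From `Pool.Agent.W_448fg_h53.FgI` -/

section

/-!
MP_448cb3_co, G2, case B: a row with the pattern [DL] at a fold end: a private child of the twins over the
first two elements forces a light join below the twins, or an inner element over three sites.  helper53.
-/

namespace Pool.Agent.GaussPoset.EK

set_option linter.unusedSectionVars false

open Finset Win St Polynomial Wd Win.W4
open Pool.Agent.GaussPoset.Win.SO (PN vp mem_PN)

universe u

variable {P : Type u} [Fintype P] [PartialOrder P] [DecidableEq P] {r i j : ℕ}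

variable {m : ℕ} {x : ℕ → P} {c : ℕ → ℤ} {t : Tops P} {lo hi : ℕ → ℕ} {e : ℕ → ℕ → P}

variable {K : Finset P} {psi : P → P} {w v : P}

/-- an inner element over three sites with a single cover and a double over the first pair -/
lemma OCs_two (D : DLg r j K psi (cext (j + 1) (topOf : P → Tops P) t) w v m x) {q y s : P}
    (hq : q ∈ cext (j + 1) (topOf : P → Tops P) t) (hl : lev q = j + 2) (huq : uc q = {y, s})
    (hy : uc y = {x 0, x 1}) (hs : (uc s).card = 1) (hd : Disjoint (uc y) (uc s)) :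
    2 ≤ OCs j (cext (j + 1) (topOf : P → Tops P) t) w v := by
  classical
  have H := D.W.H
  have hst : sts j q = uc y ∪ uc s := by
    rw [Rd.sts_bi H hl, huq, biUnion_insert, singleton_biUnion]
  have hsit : sit j q = uc y ∪ uc s := by rw [sit_low H (by omega), hst]
  have hup : up j q = 3 := by
    rw [← card_sts, hst, card_union_of_disjoint hd, hs, hy, card_pair D.n01]
  have hZ : q ∈ Z4 j (cext (j + 1) (topOf : P → Tops P) t) :=
    mem_Z4.2 (Or.inl (mem_ZL.2 ⟨hq, hl, hup⟩))
  have hT : q ∉ T4 j (cext (j + 1) (topOf : P → Tops P) t) := by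
    intro h1
    rcases mem_T4.1 h1 with ⟨-, h2⟩ | ⟨h2, -⟩
    · have := h2 s (by rw [huq]; exact mem_insert_of_mem (mem_singleton_self _))
      omega
    · have := (mem_ZU.1 h2).2.1
      omega
  have hN : Nx j w q = 0 ∧ Nx j v q = 0 := by
    have h0 : x 0 ∈ sit j q := by
      rw [hsit, hy]
      exact mem_union_left _ (mem_insert_self _ _)
    have h1 : x 1 ∈ sit j q := by
      rw [hsit, hy]
      exact mem_union_left _ (mem_insert_of_mem (mem_singleton_self _))
    constructor
    · unfold Nx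
      rw [if_neg]
      intro hdis
      rw [D.nw] at hdis
      exact disjoint_left.1 hdis (mem_insert_self _ _) h0
    · unfold Nx
      rw [if_neg]
      intro hdis
      rw [D.nv] at hdis
      exact disjoint_left.1 hdis (mem_insert_self _ _) h1
  unfold OCs
  have h2 := single_le_sum (s := Z4 j (cext (j + 1) (topOf : P → Tops P) t) \
      T4 j (cext (j + 1) (topOf : P → Tops P) t))
    (f := fun z => (2 : ℤ) - 2 * (tz j z * (Nx j w z - Nx j v z)))
    (fun z _ => by
      have := tz_le (i := j) (w := w) (v := v) z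
      linarith) (mem_sdiff.2 ⟨hZ, hT⟩)
  refine le_trans ?_ h2
  show (2 : ℤ) ≤ 2 - 2 * (tz j q * (Nx j w q - Nx j v q))
  rw [hN.1, hN.2]
  norm_num

namespace FoldDL

variable (F : FoldDL P r i t m x c lo hi e)
include F

/-- a private child of the twins: a light join below the twins, or an inner element over three sites -/
theorem light (D : DLg r (i + 1) K psi (cext (i + 1 + 1) (topOf : P → Tops P) t) w v m x)
    (hDE : (DE (i + 1) (cext (i + 1 + 1) (topOf : P → Tops P) t) x 0).Nonempty) :
    2 ≤ OCs (i + 1) (cext (i + 1 + 1) (topOf : P → Tops P) t) w v ∨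
      ∃ z y s, K2.SD (i + 1) (topOf : P → Tops P) z y s ∧ topOf y = t ∧ uc y = {x 0, x 1} := by
  classical
  have h := F.h
  have H := h.g.H
  have hm := F.hm
  obtain ⟨a, b, hab, ua, ub, d0, d1⟩ := F.twins
  have hne : x 0 ≠ x 1 := D.n01
  have l0 : lev (x 0) = i + 1 := F.B.row.lev_x 0 (by omega)
  have la : lev a = i + 2 := by
    have := lev_uc H (show x 0 ∈ uc a by rw [ua]; exact mem_insert_self _ _)
    omega
  have lb : lev b = i + 2 := by
    have := lev_uc H (show x 0 ∈ uc b by rw [ub]; exact mem_insert_self _ _)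
    omega
  -- the private child
  obtain ⟨z, hz⟩ := hDE
  obtain ⟨hzC, hzP, hzs⟩ := mem_DE.1 hz
  obtain ⟨lz, hz1, y, hzy, hy2⟩ := mem_PD.1 hzP
  obtain ⟨y', hy'⟩ := card_eq_one.1 hz1
  have hyy : y = y' := by
    have := mem_uc.2 hzy
    rw [hy', mem_singleton] at this
    exact this
  subst hyy
  have huy : uc y = {x 0, x 1} := by
    rw [← SO.sit_PD H lz hy', hzs]
    rfl
  have hyab : y = a ∨ y = b := by
    have h1 : y ∈ dc (x 0) := mem_dc.2 (mem_uc.1 (by rw [huy]; exact mem_insert_self _ _))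
    rw [d0, mem_insert, mem_singleton] at h1
    exact h1
  -- the twins have at most one common child
  have hdab : dcv a b ≤ 1 := by
    unfold dcv
    have h1 : univ.filter (fun q => q ⋖ a ∧ q ⋖ b) ⊆ (dc y).erase z := by
      intro q hq
      rw [mem_filter] at hq
      rw [mem_erase, mem_dc]
      refine ⟨?_, ?_⟩
      · rintro rfl
        have e1 := mem_uc.2 hq.2.1
        have e2 := mem_uc.2 hq.2.2
        rw [hy', mem_singleton] at e1 e2
        exact hab (e1.trans e2.symm)
      · rcases hyab with rfl | rfl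
        · exact hq.2.1
        · exact hq.2.2
    have h2 := card_le_card h1
    rw [card_erase_of_mem (mem_dc.2 hzy)] at h2
    have h3 := dc_card_le H y
    omega
  have huab : ucv a b = 2 := by
    unfold ucv
    have h1 : univ.filter (fun q => a ⋖ q ∧ b ⋖ q) = {x 0, x 1} := by
      ext q
      rw [mem_filter, ← mem_uc, ← mem_uc, ua, ub]
      simp
    rw [h1, card_pair hne]
  have hDf : Df (i + 2) {a, b} ≠ 0 := by
    rw [Df_pair H la hab, huab]
    intro h1
    have : (dcv a b : ℤ) ≤ 1 := by exact_mod_cast hdab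
    push_cast at h1
    linarith
  -- the twins are not a piece
  have hp : ∃ u ∈ ({a, b} : Finset P), ∃ s, lev s = i + 2 ∧ s ∉ ({a, b} : Finset P) ∧
      dcv u s ≠ 0 := by
    by_contra hcon
    push Not at hcon
    refine hDf (Mp.piece_pair H (by have := h.hr; omega) hab ⟨?_, ?_⟩)
    · intro u hu
      rw [mem_insert, mem_singleton] at hu
      rcases hu with rfl | rfl
      · exact mem_lv.2 la
      · exact mem_lv.2 lb
    · intro u hu s hs hsn
      have h1 := hcon u hu s hs hsn
      have hlu : lev u = i + 2 ∧ uc u = {x 0, x 1} := by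
        rw [mem_insert, mem_singleton] at hu
        rcases hu with rfl | rfl
        · exact ⟨la, ua⟩
        · exact ⟨lb, ub⟩
      have hus : u ≠ s := by
        rintro rfl
        exact hsn hu
      have h2 : ucv u s = 0 := by
        unfold ucv
        rw [card_eq_zero, filter_eq_empty_iff]
        rintro q - ⟨h3, h4⟩
        rw [← mem_uc, hlu.2, mem_insert, mem_singleton] at h3
        rcases h3 with rfl | rfl
        · exact hsn (by rw [← d0]; exact mem_dc.2 h4)
        · exact hsn (by rw [← d1]; exact mem_dc.2 h4)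
      rw [Df_pair H hlu.1 hus, h1, h2]
      simp
  obtain ⟨u, hu, s, ls, hsn, hd⟩ := hp
  have hlu : lev u = i + 2 ∧ uc u = {x 0, x 1} ∧ u ∈ dc (x 0) := by
    refine ⟨?_, ?_, by rw [d0]; exact hu⟩
    · rw [mem_insert, mem_singleton] at hu
      rcases hu with rfl | rfl
      · exact la
      · exact lb
    · rw [mem_insert, mem_singleton] at hu
      rcases hu with rfl | rfl
      · exact ua
      · exact ub
  obtain ⟨lu, uu, du⟩ := hlu
  have hus : u ≠ s := by
    rintro rfl
    exact hsn hu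
  obtain ⟨q, hqu, hqs⟩ := StA_of_dcv (v := u) (v' := s) (by omega)
  have lq := lev_cov H hqu
  have hq : uc q = {u, s} := by
    refine (eq_of_subset_of_card_le ?_ ?_).symm
    · intro p hp
      rw [mem_insert, mem_singleton] at hp
      rcases hp with rfl | rfl
      · exact mem_uc.2 hqu
      · exact mem_uc.2 hqs
    · rw [card_pair hus]
      exact uc_card_le H _
  have hdis : Disjoint (uc u) (uc s) := by
    rw [disjoint_left]
    intro p hp1 hp2
    rw [uu, mem_insert, mem_singleton] at hp1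
    rcases hp1 with rfl | rfl
    · exact hsn (by rw [← d0]; exact mem_dc.2 (mem_uc.1 hp2))
    · exact hsn (by rw [← d1]; exact mem_dc.2 (mem_uc.1 hp2))
  have cu : (uc u).card = 2 := by rw [uu, card_pair hne]
  have cs : (uc s).card = 1 := by
    rcases uc_card_cases H (x := s) (by omega) with h1 | h1
    · exact h1
    · exfalso
      obtain ⟨p, hp1, hp2⟩ := NJ.noQ h (by have := F.hi1; omega) q (by omega) u
        (mem_uc.2 hqu) s (mem_uc.2 hqs) hus cu h1
      exact disjoint_left.1 hdis hp1 hp2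
  have tu : topOf u = t := by
    have h1 := h.split (x := u) (y := x 0) (mem_dc.1 du) (by omega)
    rw [h1]
    exact F.B.row.kap 0 (by omega)
  by_cases ts : topOf s = t
  · left
    refine OCs_two D (q := q) (y := u) (s := s) ?_ (by omega) hq uu cs hdis
    rw [mem_cext]
    intro p hp hlp
    rcases eq_or_lt_of_le hp with h1 | h1
    · rw [← h1] at hlp
      omega
    · obtain ⟨p', hp', hp2⟩ := Hul.exists_cov h1
      rw [← mem_uc, hq, mem_insert, mem_singleton] at hp'
      rcases hp' with rfl | rfl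
      · rw [← tu]
        exact (Split.le (l := i + 1 + 1) (κ := (topOf : P → Tops P)) h.split _ hp2 (by omega)).symm
      · rw [← ts]
        exact (Split.le (l := i + 1 + 1) (κ := (topOf : P → Tops P)) h.split _ hp2 (by omega)).symm
  · right
    exact ⟨q, u, s, ⟨by omega, hq, fun h1 => ts (by rw [← h1]; exact tu), cu, cs⟩, tu, uu⟩

end FoldDL

end Pool.Agent.GaussPoset.EK

end

/-! From `Pool.Agent.W_448fg_h53.FgJ` -/

section

/-!
MP_448cb3_co, G2, case B, windows `j - 1` and `j`: a row with the pattern [DL] at a fold end, the weights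
`<-1, 9, 1, 4, 3, -1, 2, 13, 0>`.  helper53.
-/

namespace Pool.Agent.GaussPoset.EK

set_option linter.unusedSectionVars false

open Finset Win St Polynomial Wd Win.W4
open Pool.Agent.GaussPoset.Win.SO (PN vp mem_PN)
open Pool.Agent.GaussPoset.Win.Pn (Wt own shr Lm A3 B5 C6 C8 C10 F2 F3 F4 F6)

universe u

variable {P : Type u} [Fintype P] [PartialOrder P] [DecidableEq P] {r i j : ℕ}

variable {m : ℕ} {x : ℕ → P} {c : ℕ → ℤ} {t : Tops P} {lo hi : ℕ → ℕ} {e : ℕ → ℕ → P}

variable {K : Finset P} {psi : P → P} {w v : P}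

/-- the signed numbers at a part with two unmatched elements -/
theorem fg_sa (h : NJ P r j) (R : Red P j K psi)
    (Q : K5 r j K psi (cext (j + 1) (topOf : P → Tops P) t) w v) (T : Finset P) :
    sa j (topOf : P → Tops P) K T t =
      (if Disjoint (uc w) T then 1 else 0) - (if Disjoint (dc v) T then 1 else 0) := by
  classical
  have lw := Q.lw0
  have lv := Q.lv0
  have wK : w ∈ K := (Q.hK w Q.wC).2 (Or.inl rfl)
  have vK : v ∈ K := (Q.hK v Q.vC).2 (Or.inr rfl)
  have wd : w ∈ dbL P j := by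
    rcases mem_union.1 (R.sub wK) with h1 | h1
    · exact h1
    · have := (mem_dbU.1 h1).1
      omega
  have vd : v ∈ dbU P j := by
    rcases mem_union.1 (R.sub vK) with h1 | h1
    · have := (mem_dbL.1 h1).1
      omega
    · exact h1
  have tw : topOf w = t := mem_cext.1 Q.wC w le_rfl (by omega)
  have tv : topOf v = t := mem_cext.1 Q.vC v le_rfl (by omega)
  have hne : w ≠ v := Q.ne
  rw [sa_eq]
  have e1 : K.filter (fun k => topOf k = t ∧ Disjoint (ns j k) T) =
      ({w, v} : Finset P).filter (fun k => Disjoint (ns j k) T) := by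
    ext k
    rw [mem_filter, mem_filter, mem_insert, mem_singleton]
    constructor
    · rintro ⟨h1, h2, h3⟩
      have hl : lev k ≤ j + 1 := by
        rcases mem_union.1 (R.sub h1) with h4 | h4
        · exact (mem_dbL.1 h4).1.le
        · have := (mem_dbU.1 h4).1
          omega
      exact ⟨(Q.hK k (mem_cext_of_le h.split hl h2)).1 h1, h3⟩
    · rintro ⟨h1 | h1, h2⟩
      · subst h1
        exact ⟨wK, tw, h2⟩
      · subst h1
        exact ⟨vK, tv, h2⟩
  rw [e1, sum_filter, sum_pair hne, sgn_low wd, sgn_upp vd, ns_L wd, ns_U vd]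
  split_ifs <;> norm_num

namespace FoldDL

variable (F : FoldDL P r i t m x c lo hi e)
include F

/-- THE FORM OF THE VALUE, all weights -/
theorem own_form' (W : Wt) : own W i (i + 1) t = W.a3 +
    W.a6 * (1 + 2 * ((SO.N1f i (SS i t)).card : ℤ)) +
    W.f4 * Lv (i + 1) (cext (i + 1 + 1) (topOf : P → Tops P) t) +
    (W.f2 - W.f4) * F2 (i + 1) t +
    W.f3 * wv (i + 1) (cext (i + 1 + 1) (topOf : P → Tops P) t) +
    W.f6 * wv (i + 1) (cext (i + 1 + 1) (topOf : P → Tops P) t) ^ 2 := by
  obtain ⟨g3, g5, g6, g8, g10⟩ := F.win1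
  have w6 := F.w6
  have e2 : F2 (i + 1) t + F4 (i + 1) t =
      Lv (i + 1) (cext (i + 1 + 1) (topOf : P → Tops P) t) := rfl
  have e3 : F3 (i + 1) t = wv (i + 1) (cext (i + 1 + 1) (topOf : P → Tops P) t) := rfl
  have e6 : F6 (i + 1) t = wv (i + 1) (cext (i + 1 + 1) (topOf : P → Tops P) t) ^ 2 := by
    unfold F6
    rw [w6]
    unfold wv I2.bb I2.VV
    ring
  unfold own
  rw [g3, g5, g6, g8, g10, e3, e6, ← e2]
  ring

/-- the value of a row with the pattern [DL] at a fold end -/
theorem own_sharp : own ⟨-1, 9, 1, 4, 3, -1, 2, 13, 0⟩ i (i + 1) t =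
    2 * ((SO.N1f i (SS i t)).card : ℤ) +
    (2 * Lv (i + 1) (cext (i + 1 + 1) (topOf : P → Tops P) t) -
      3 * I2.al 2 (st (i + 1) (cext (i + 1 + 1) (topOf : P → Tops P) t)).card
        (ZS (i + 1) (cext (i + 1 + 1) (topOf : P → Tops P) t)) +
      13 * wv (i + 1) (cext (i + 1 + 1) (topOf : P → Tops P) t)) := by
  rw [F.own_form']
  have e2 : F2 (i + 1) t = I2.al 2 (st (i + 1) (cext (i + 1 + 1) (topOf : P → Tops P) t)).card
        (ZS (i + 1) (cext (i + 1 + 1) (topOf : P → Tops P) t)) := rfl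
  rw [e2]
  ring

/-- an element over the first pair is not below five elements of the level `i` -/
lemma not_N5s {z y s : P} (S : K2.SD (i + 1) (topOf : P → Tops P) z y s)
    (hy : uc y = {x 0, x 1}) : z ∉ So.N5s i (topOf : P → Tops P) := by
  classical
  obtain ⟨K, psi, R⟩ := exists_red P (i + 1)
  obtain ⟨w, v, D⟩ := F.dlg R
  have H := F.h.g.H
  have hm := F.hm
  intro hz
  obtain ⟨-, -, -, h5⟩ := So.mem_N5s.1 hz
  have hD : So.CrV i (topOf : P → Tops P) z y s := ⟨S.lz, S.huc, S.hk⟩
  obtain ⟨q, hq⟩ := card_eq_one.1 S.cv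
  rw [So.up_eq] at h5
  have h6 : (lv P i).filter (fun p => z < p) ⊆ uc (x 1) ∪ uc q := by
    intro p hp
    rw [mem_filter, mem_lv] at hp
    obtain ⟨b, hb, hp2⟩ := (hD.mem0 H).1 hp
    rw [hy, hq, mem_union, mem_insert, mem_singleton, mem_singleton] at hb
    rw [mem_union]
    rcases hb with (rfl | rfl) | rfl
    · left
      -- the upper cover of the fold end
      have h7 := D.W.up 0 1 (by omega) (by omega)
      rw [if_pos rfl] at h7
      unfold ucv at h7
      obtain ⟨u, hu⟩ := card_pos.1 (by rw [h7]; norm_num)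
      rw [mem_filter] at hu
      obtain ⟨u', hu'⟩ := card_eq_one.1 F.uc0
      have h8 := mem_uc.2 hu.2.1
      rw [hu', mem_singleton] at h8 hp2
      rw [hp2, ← h8]
      exact mem_uc.2 hu.2.2
    · exact Or.inl hp2
    · exact Or.inr hp2
  have h7 := card_le_card h6
  have h8 := card_union_le (uc (x 1)) (uc q)
  have h9 := uc_card_le H (x 1)
  have h10 := uc_card_le H q
  omega

/-- THE THREE CASES of a row with the pattern [DL] at a fold end -/
theorem tri : 0 < own ⟨-1, 9, 1, 4, 3, -1, 2, 13, 0⟩ i (i + 1) t ∨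
    (-2 ≤ own ⟨-1, 9, 1, 4, 3, -1, 2, 13, 0⟩ i (i + 1) t ∧
      ∃ z y s, K2.SD (i + 1) (topOf : P → Tops P) z y s ∧ topOf y = t ∧ uc y = {x 0, x 1} ∧
        z ∉ So.N5s i (topOf : P → Tops P)) ∨
    (4 ≤ m ∧ (DE (i + 1) (cext (i + 1 + 1) (topOf : P → Tops P) t) x 2).card = 2) := by
  classical
  obtain ⟨K, psi, R⟩ := exists_red P (i + 1)
  obtain ⟨w, v, D⟩ := F.dlg R
  obtain ⟨f1, f2, f3, f4, hor⟩ := F.coord
  have hm := F.hm
  have ho := F.own_sharp
  have n0 : (0 : ℤ) ≤ (SO.N1f i (SS i t)).card := by positivity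
  have hlast := F.UE_last
  rcases Nat.lt_or_ge 3 m with h4 | h4
  · have hl : 0 ≤ NE (i + 1) (cext (i + 1 + 1) (topOf : P → Tops P) t) x (m - 1) := by
      unfold NE
      rw [hlast, card_empty]
      push_cast
      omega
    rcases D.sharp4 h4 hl with ⟨d, g⟩ | ⟨d, g⟩ | d
    · left
      rw [ho]
      linarith
    · -- one lower pendant over the third pair
      have hn := F.N1f_ge (Or.inr h4)
      have hn' : wv (i + 1) (cext (i + 1 + 1) (topOf : P → Tops P) t) + 1 ≤
          ((SO.N1f i (SS i t)).card : ℤ) := by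
        rw [← W1.SS_eq F.h rfl]
        exact hn
      rw [F.Lv_ge.2.2, d] at hn'
      push_cast at hn'
      rw [F.uc0] at g
      push_cast at g
      have hU := F.UE0
      have eN : NE (i + 1) (cext (i + 1 + 1) (topOf : P → Tops P) t) x 0 =
          ((DE (i + 1) (cext (i + 1 + 1) (topOf : P → Tops P) t) x 0).card : ℤ) - 1 := by
        unfold NE
        rw [hU]
        push_cast
        ring
      rw [eN] at g
      have hO := OCs_nonneg (i := i + 1) (C := cext (i + 1 + 1) (topOf : P → Tops P) t)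
        (w := w) (v := v)
      have g5 := two_sq_sub (((DE (i + 1) (cext (i + 1 + 1) (topOf : P → Tops P) t) x 0).card : ℤ) - 1)
      rcases Finset.eq_empty_or_nonempty
        (DE (i + 1) (cext (i + 1 + 1) (topOf : P → Tops P) t) x 0) with h0 | h0
      · left
        rw [h0, card_empty] at g
        push_cast at g
        rw [ho]
        linarith
      · rcases F.light D h0 with h5 | ⟨z, y, s, S, h5, h6⟩
        · left
          rw [ho]
          linarith
        · right; left
          refine ⟨?_, z, y, s, S, h5, h6, F.not_N5s S h6⟩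
          rw [ho]
          linarith
    · exact Or.inr (Or.inr ⟨h4, d⟩)
  · left
    have h3 : m = 3 := by omega
    have hp2 : pen (x 2) = ∅ := by
      rw [hor 2 (by omega)]
      exact F.pen_dbl (by omega) (by omega)
    have hU2 : UE (i + 1) (cext (i + 1 + 1) (topOf : P → Tops P) t) x 2 = ∅ := by
      rw [show m - 1 = 2 by omega] at hlast
      exact hlast
    have h5 : (uc (x 3)).card + (pen (x 3)).card ≤ 2 := by
      have g5 := D.W.dc_le (k := 3) (by omega)
      have g6 := D.deg3' h3
      rcases D.W.uc_le (k := 3) (by omega) with h1 | h1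
      · omega
      · have h6 := F.C.double_up F.h.g.H F.h.g.good t.2 (k := i) (s := hi (i + 1) - 3) (by omega)
          (by omega) (by omega)
        rw [← hor 3 (by omega)] at h6
        have h7 := h6.1 h1
        have hp3 : pen (x 3) = ∅ := by
          rw [hor 3 (by omega)]
          exact F.pen_dbl h7.1 h7.2
        rw [h1, hp3, card_empty]
    have h6 := D.sharp3 h3 hU2 hp2 h5
    rw [ho]
    linarith

/-- no pendant below the first three elements -/
lemma pen_first {k : ℕ} (hk : k ≤ 2) : pen (x k) = ∅ := by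
  classical
  obtain ⟨a, b, hab, ua, ub, d0, d1⟩ := F.twins
  obtain ⟨f1, f2, f3, f4, hor⟩ := F.coord
  have hm := F.hm
  obtain ⟨K, psi, R⟩ := exists_red P (i + 1)
  obtain ⟨w, v, D⟩ := F.dlg R
  have key : ∀ s : P, dc s = {a, b} → pen s = ∅ := by
    intro s hs
    rw [eq_empty_iff_forall_notMem]
    intro q hq
    obtain ⟨h1, h2⟩ := mem_pen.1 hq
    have h3 := mem_dc.2 h1
    rw [hs, mem_insert, mem_singleton] at h3
    rcases h3 with rfl | rfl
    · rw [ua, card_pair D.n01] at h2
      omega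
    · rw [ub, card_pair D.n01] at h2
      omega
  have hk3 : k = 0 ∨ k = 1 ∨ k = 2 := by omega
  rcases hk3 with rfl | rfl | rfl
  · exact key _ d0
  · exact key _ d1
  · rw [hor 2 (by omega)]
    exact F.pen_dbl (by omega) (by omega)

/-- NO HEAVY JOIN if the double over the third pair has two private children -/
theorem no_heavy (R : Red P (i + 1) K psi)
    (hN : (DE (i + 1) (cext (i + 1 + 1) (topOf : P → Tops P) t) x 2).card = 2)
    {z y s : P} (S : K2.SD (i + 1) (topOf : P → Tops P) z y s) :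
    (topOf y = t → sa (i + 1) (topOf : P → Tops P) K (uc y) (topOf y) = 0) ∧
    (topOf s = t → sa (i + 1) (topOf : P → Tops P) K (uc s) (topOf s) = 0) := by
  classical
  obtain ⟨w, v, D⟩ := F.dlg R
  have h := F.h
  have H := h.g.H
  have hm := F.hm
  have hC : ∀ p : P, p ∈ uc y ∨ p ∈ uc s → topOf p = topOf y ∨ topOf p = topOf s := by
    intro p hp
    rcases hp with hp | hp
    · exact Or.inl (h.split (mem_uc.1 hp) (by have := S.ly H; omega)).symm
    · exact Or.inr (h.split (mem_uc.1 hp) (by have := S.lv' H; omega)).symm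
  have hsite : ∀ p : P, lev p = i + 1 → topOf p = t → ∃ k, k ≤ m ∧ x k = p := by
    intro p hp ht
    exact D.W.surj p (mem_cext_of_le h.split (by omega) ht) hp
  refine ⟨fun hy => ?_, fun hs => ?_⟩
  · rw [hy, fg_sa h R D.Q, D.hw, D.hv]
    have ly := S.ly H
    obtain ⟨p, q, hpq, huy⟩ := card_eq_two.1 S.cy
    have mp : p ∈ uc y := by rw [huy]; exact mem_insert_self _ _
    have mq : q ∈ uc y := by rw [huy]; exact mem_insert_of_mem (mem_singleton_self _)
    have tp : topOf p = t := by
      rw [← hy]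
      exact (h.split (mem_uc.1 mp) (by omega)).symm
    have tq : topOf q = t := by
      rw [← hy]
      exact (h.split (mem_uc.1 mq) (by omega)).symm
    obtain ⟨k, hk, rfl⟩ := hsite p (by have := lev_uc H mp; omega) tp
    obtain ⟨l, hl, rfl⟩ := hsite q (by have := lev_uc H mq; omega) tq
    have hkl : k ≠ l := by
      rintro rfl
      exact hpq rfl
    obtain ⟨k, l, hk, hl, hkl, huy⟩ : ∃ k l, k ≤ m ∧ l ≤ m ∧ k < l ∧ uc y = {x k, x l} := by
      rcases Nat.lt_or_ge k l with h1 | h1
      · exact ⟨k, l, hk, hl, h1, huy⟩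
      · exact ⟨l, k, hl, hk, by omega, by rw [huy, pair_comm]⟩
    have hd : 1 ≤ dcv (x k) (x l) := by
      unfold dcv
      refine card_pos.2 ⟨y, mem_filter.2 ⟨mem_univ _, mem_uc.1 ?_, mem_uc.1 ?_⟩⟩
      · rw [huy]; exact mem_insert_self _ _
      · rw [huy]; exact mem_insert_of_mem (mem_singleton_self _)
    rw [D.dn k l hkl hl] at hd
    have hl1 : l = k + 1 := by
      by_contra hcon
      rw [if_neg hcon] at hd
      omega
    subst hl1
    rw [if_pos rfl] at hd
    have hk1 : k ≠ 1 := by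
      rintro rfl
      norm_num at hd
    have dis : ∀ a, a ≤ m → (Disjoint ({x a, x (a + 1)} : Finset P) (uc y) ↔ True) → True :=
      fun _ _ _ => trivial
    have hk3 : k = 0 ∨ k = 2 ∨ 3 ≤ k := by omega
    rcases hk3 with rfl | rfl | hk3
    · rw [if_neg, if_neg]
      · norm_num
      · rw [huy, disjoint_left]
        push Not
        exact ⟨x 1, mem_insert_self _ _, mem_insert_of_mem (mem_singleton_self _)⟩
      · rw [huy, disjoint_left]
        push Not
        exact ⟨x 0, mem_insert_self _ _, mem_insert_self _ _⟩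
    · -- the double over the third pair is full
      exfalso
      obtain ⟨a, b, hab, he⟩ := card_eq_two.1 hN
      have ma : a ∈ DE (i + 1) (cext (i + 1 + 1) (topOf : P → Tops P) t) x 2 := by
        rw [he]; exact mem_insert_self _ _
      have mb : b ∈ DE (i + 1) (cext (i + 1 + 1) (topOf : P → Tops P) t) x 2 := by
        rw [he]; exact mem_insert_of_mem (mem_singleton_self _)
      have key : ∀ a, a ∈ DE (i + 1) (cext (i + 1 + 1) (topOf : P → Tops P) t) x 2 →
          uc a = {y} := by
        intro a ha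
        obtain ⟨-, h1, h2⟩ := mem_DE.1 ha
        obtain ⟨l1, l2, y', h3, h4⟩ := mem_PD.1 h1
        obtain ⟨y'', h5⟩ := card_eq_one.1 l2
        have h6 : y' = y'' := by
          have := mem_uc.2 h3
          rw [h5, mem_singleton] at this
          exact this
        subst h6
        have h7 : uc y' = ed x 2 := by rw [← SO.sit_PD H l1 h5, h2]
        have h8 := D.dn 2 3 (by omega) (by omega)
        norm_num at h8
        unfold dcv at h8
        obtain ⟨y0, h9⟩ := card_eq_one.1 h8
        have e1 : y ∈ ({y0} : Finset P) := by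
          rw [← h9, mem_filter]
          refine ⟨mem_univ _, mem_uc.1 ?_, mem_uc.1 ?_⟩
          · rw [huy]; exact mem_insert_self _ _
          · rw [huy]; exact mem_insert_of_mem (mem_singleton_self _)
        have e2 : y' ∈ ({y0} : Finset P) := by
          rw [← h9, mem_filter]
          refine ⟨mem_univ _, mem_uc.1 ?_, mem_uc.1 ?_⟩
          · rw [h7]; exact mem_insert_self _ _
          · rw [h7]; exact mem_insert_of_mem (mem_singleton_self _)
        rw [mem_singleton] at e1 e2
        rw [h5, e1, e2]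
      have ua := key a ma
      have ub := key b mb
      have hsub : ({a, b, z} : Finset P) ⊆ dc y := by
        intro q hq
        rw [mem_insert, mem_insert, mem_singleton] at hq
        rcases hq with rfl | rfl | rfl
        · exact mem_dc.2 (mem_uc.1 (by rw [ua]; exact mem_singleton_self _))
        · exact mem_dc.2 (mem_uc.1 (by rw [ub]; exact mem_singleton_self _))
        · exact mem_dc.2 (mem_uc.1 S.my)
      have haz : a ≠ z := by
        rintro rfl
        have h1 := S.huc
        rw [ua] at h1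
        have h2 := S.ne
        have h3 : s ∈ ({y} : Finset P) := by
          rw [h1]; exact mem_insert_of_mem (mem_singleton_self _)
        exact h2 (mem_singleton.1 h3).symm
      have hbz : b ≠ z := by
        rintro rfl
        have h1 := S.huc
        rw [ub] at h1
        have h2 := S.ne
        have h3 : s ∈ ({y} : Finset P) := by
          rw [h1]; exact mem_insert_of_mem (mem_singleton_self _)
        exact h2 (mem_singleton.1 h3).symm
      have h1 := card_le_card hsub
      have h2 := dc_card_le H y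
      rw [card_insert_of_notMem, card_pair hbz] at h1
      · omega
      · rw [mem_insert, mem_singleton]
        push Not
        exact ⟨hab, haz⟩
    · have hne : ∀ a b, a ≤ m → b ≤ m → a ≠ b → x a ≠ x b := fun a b ha hb hab => D.W.ne ha hb hab
      have hd0 : Disjoint ({x 0, x 1} : Finset P) (uc y) := by
        rw [huy, disjoint_insert_left, disjoint_singleton_left, mem_insert, mem_singleton,
          mem_insert, mem_singleton]
        push Not
        exact ⟨⟨hne _ _ (by omega) (by omega) (by omega), hne _ _ (by omega) (by omega) (by omega)⟩,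
          hne _ _ (by omega) (by omega) (by omega), hne _ _ (by omega) (by omega) (by omega)⟩
      have hd1 : Disjoint ({x 1, x 2} : Finset P) (uc y) := by
        rw [huy, disjoint_insert_left, disjoint_singleton_left, mem_insert, mem_singleton,
          mem_insert, mem_singleton]
        push Not
        exact ⟨⟨hne _ _ (by omega) (by omega) (by omega), hne _ _ (by omega) (by omega) (by omega)⟩,
          hne _ _ (by omega) (by omega) (by omega), hne _ _ (by omega) (by omega) (by omega)⟩
      rw [if_pos hd0, if_pos hd1]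
      norm_num
  · rw [hs, fg_sa h R D.Q, D.hw, D.hv]
    have ls := S.lv' H
    obtain ⟨p, hus⟩ := card_eq_one.1 S.cv
    have mp : p ∈ uc s := by rw [hus]; exact mem_singleton_self _
    have tp : topOf p = t := by
      rw [← hs]
      exact (h.split (mem_uc.1 mp) (by omega)).symm
    obtain ⟨k, hk, rfl⟩ := hsite p (by have := lev_uc H mp; omega) tp
    have hk3 : 3 ≤ k := by
      by_contra hcon
      have h1 := F.pen_first (k := k) (by omega)
      have h2 : s ∈ pen (x k) := mem_pen.2 ⟨mem_uc.1 mp, S.cv⟩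
      rw [h1] at h2
      exact absurd h2 (notMem_empty _)
    have hne : ∀ a b, a ≤ m → b ≤ m → a ≠ b → x a ≠ x b := fun a b ha hb hab => D.W.ne ha hb hab
    rw [hus, if_pos, if_pos]
    · norm_num
    · rw [disjoint_singleton_right, mem_insert, mem_singleton]
      push Not
      exact ⟨hne _ _ (by omega) (by omega) (by omega), hne _ _ (by omega) (by omega) (by omega)⟩
    · rw [disjoint_singleton_right, mem_insert, mem_singleton]
      push Not
      exact ⟨hne _ _ (by omega) (by omega) (by omega), hne _ _ (by omega) (by omega) (by omega)⟩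

end FoldDL

end Pool.Agent.GaussPoset.EK

end
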