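import Mathlib
import Pool.Agent.W_448zz_h61.Ns
import Pool.Agent.W_448zz_h61.M171
import Pool.Agent.W_448zz_h61.M220
import Pool.Agent.W_448zz_h61.M222

/-! From `Pool.Agent.W_448s7s_h5.TwA` -/

section

/-!
MP_448cb3_co, G2, case B, window `j`: the rows with three sites: the value (3,2), the heavy joins.
helper5.
-/

namespace Pool.Agent.GaussPoset.EK

set_option linter.unusedSectionVars false

open Finset Win St Polynomial Wd Win.W4

universe u

variable {P : Type u} [Fintype P] [PartialOrder P] [DecidableEq P] {r i j : ℕ}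

variable {x : ℕ → P} {c : ℕ → ℤ} {β : ℤ} {t : Tops P}

variable {K : Finset P} {psi : P → P}

/-- a row with three sites and a defect has (3,2) different from zero -/
theorem NJ.w3_ne (h : NJ P r j) (hj : 2 ≤ j) (B : RowB P j t 2 x c β)
    (hd : ¬ (β = 0 ∧ ∀ k, k < 2 → c k = 0)) :
    I2.w3 (I2.bb j (j + 1) (topOf : P → Tops P) t) (I2.VV j (j + 1) (topOf : P → Tops P) t) ≠
      0 := by
  classical
  intro hw
  have hjr : j ≤ r := by have := h.hr; omega
  have H := h.g.H
  obtain ⟨K, psi, R⟩ := exists_red P j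
  have hst : (st j (cext (j + 1) (topOf : P → Tops P) t)).card ≤ 3 := by
    have h5 : st j (cext (j + 1) (topOf : P → Tops P) t) ⊆ (range 3).image x := by
      intro v hv
      rw [mem_sites h.split] at hv
      obtain ⟨k, hk, rfl⟩ := B.row.surj v hv.1 hv.2
      exact mem_image_of_mem x (mem_range.2 (by omega))
    have h6 := (card_le_card h5).trans card_image_le
    rwa [card_range] at h6
  have h0 := K2.three_natural H hjr (NJ.noQ h hj) (fun m hm => h.g.good m (by omega)) h.split R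
    (a := t) hst hw
  have key : ∀ a b, a < b → b ≤ 2 → Df j {x a, x b} = 0 := by
    intro a b hab hb
    rw [← fib_K R.mat R.sub]
    refine sum_eq_zero fun k hk => ?_
    rw [mem_filter] at hk
    exfalso
    have hkap := (kap_ns' H h.split (R.sub hk.1) (v := x a) (by rw [hk.2]; simp)).1
    have hl : lev k ≤ j + 1 := by
      rcases mem_union.1 (R.sub hk.1) with h1 | h1
      · exact (mem_dbL.1 h1).1.le
      · have := (mem_dbU.1 h1).1
        omega
    have hk2 : k ∈ K2.KD j K (cext (j + 1) (topOf : P → Tops P) t) := by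
      rw [K2.mem_KD]
      exact ⟨hk.1, mem_cext_of_le h.split hl (hkap.symm.trans (B.row.kap a (by omega))),
        R.sub hk.1⟩
    rw [h0] at hk2
    exact absurd hk2 (notMem_empty k)
  refine hd ⟨?_, fun k hk => ?_⟩
  · have e1 := B.row.df 0 2 (by omega) le_rfl
    rw [key 0 2 (by omega) le_rfl, if_neg (by omega), if_pos ⟨rfl, rfl⟩] at e1
    exact e1.symm
  · have e1 := B.row.df k (k + 1) (by omega) (by omega)
    rw [key k (k + 1) (by omega) (by omega), if_pos rfl] at e1
    exact e1.symm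

/-- the value over a site is the defect of the opposite edge -/
lemma NJ.sa_tri (h : NJ P r j) (R : Red P j K psi) (B : RowB P j t 2 x c β) {p q s : ℕ}
    (hp : p ≤ 2) (hq : q ≤ 2) (hs : s ≤ 2) (hpq : p < q) (hps : p ≠ s) (hqs : q ≠ s) :
    sa j (topOf : P → Tops P) K {x s} t = Df j {x p, x q} := by
  classical
  have H := h.g.H
  have W := B.row
  rw [sa_eq, ← fib_K R.mat R.sub]
  refine sum_congr ?_ fun _ _ => rfl
  ext k
  rw [mem_filter, mem_filter]
  constructor
  · rintro ⟨hk, hkt, hd⟩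
    refine ⟨hk, ?_⟩
    obtain ⟨p', q', f1, f2, f3, f4⟩ := W.pair R H h.split hk hkt
    rw [f3, disjoint_singleton_right, mem_insert, mem_singleton] at hd
    have h1 : s ≠ p' := fun q => hd (Or.inl (by rw [q]))
    have h2 : s ≠ q' := fun q => hd (Or.inr (by rw [q]))
    have h3 : p' = p ∧ q' = q := by omega
    rw [f3, h3.1, h3.2]
  · rintro ⟨hk, hns⟩
    refine ⟨hk, ?_, ?_⟩
    · have h1 := (kap_ns' H h.split (R.sub hk) (v := x p) (by rw [hns]; simp)).1
      rw [← h1]
      exact W.kap p hp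
    · rw [hns, disjoint_singleton_right, mem_insert, mem_singleton]
      rintro (h1 | h1)
      · exact hps (W.inj _ _ hs hp h1).symm
      · exact hqs (W.inj _ _ hs hq h1).symm

/-- the values over the three sites -/
lemma NJ.sa_three (h : NJ P r j) (R : Red P j K psi) (B : RowB P j t 2 x c β) :
    sa j (topOf : P → Tops P) K {x 0} t = c 1 ∧ sa j (topOf : P → Tops P) K {x 1} t = β ∧
      sa j (topOf : P → Tops P) K {x 2} t = c 0 := by
  refine ⟨?_, ?_, ?_⟩
  · rw [NJ.sa_tri h R B (p := 1) (q := 2) (s := 0) (by omega) le_rfl (by omega) (by omega)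
      (by omega) (by omega), B.row.df 1 2 (by omega) le_rfl, if_pos rfl]
  · rw [NJ.sa_tri h R B (p := 0) (q := 2) (s := 1) (by omega) le_rfl (by omega) (by omega)
      (by omega) (by omega), B.row.df 0 2 (by omega) le_rfl, if_neg (by omega),
      if_pos ⟨rfl, rfl⟩]
  · rw [NJ.sa_tri h R B (p := 0) (q := 1) (s := 2) (by omega) (by omega) (by omega) (by omega)
      (by omega) (by omega), B.row.df 0 1 (by omega) (by omega), if_pos rfl]

/-- a double over a row with three sites has the value zero -/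
lemma NJ.sa_dbl (h : NJ P r j) (R : Red P j K psi) (B : RowB P j t 2 x c β) {y : P}
    (hl : lev y = j + 1) (ht : topOf y = t) (h2 : (uc y).card = 2) :
    sa j (topOf : P → Tops P) K (uc y) (topOf y) = 0 := by
  classical
  have H := h.g.H
  have hU : ({x 0, x 1, x 2} : Finset P).card = 3 := by
    rw [card_insert_of_notMem, card_pair]
    · exact fun q => by
        have := B.row.inj 1 2 (by omega) le_rfl q
        omega
    · rw [mem_insert, mem_singleton]
      rintro (q | q)
      · have := B.row.inj 0 1 (by omega) (by omega) q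
        omega
      · have := B.row.inj 0 2 (by omega) le_rfl q
        omega
  have hsub : uc y ⊆ ({x 0, x 1, x 2} : Finset P) := by
    intro v hv
    have hlv := lev_uc H hv
    have hts : topOf y = topOf v := h.split (mem_uc.1 hv) (by omega)
    obtain ⟨q, hq, rfl⟩ := B.row.surj v (by omega) (hts.symm.trans ht)
    rw [mem_insert, mem_insert, mem_singleton]
    have h3 : q = 0 ∨ q = 1 ∨ q = 2 := by omega
    rcases h3 with rfl | rfl | rfl
    · exact Or.inl rfl
    · exact Or.inr (Or.inl rfl)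
    · exact Or.inr (Or.inr rfl)
  rw [ht]
  refine paO_sa_none fun k hk hkt hd => ?_
  obtain ⟨p, q, f1, f2, f3, -⟩ := B.row.pair R H h.split hk hkt
  refine three_meet hU (S := ns j k) (T := uc y) ?_ hsub ?_ hd
  · rw [f3]
    intro v hv
    rw [mem_insert, mem_singleton] at hv
    rw [mem_insert, mem_insert, mem_singleton]
    have hp3 : p = 0 ∨ p = 1 ∨ p = 2 := by omega
    have hq3 : q = 0 ∨ q = 1 ∨ q = 2 := by omega
    rcases hv with rfl | rfl
    · rcases hp3 with rfl | rfl | rfl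
      · exact Or.inl rfl
      · exact Or.inr (Or.inl rfl)
      · exact Or.inr (Or.inr rfl)
    · rcases hq3 with rfl | rfl | rfl
      · exact Or.inl rfl
      · exact Or.inr (Or.inl rfl)
      · exact Or.inr (Or.inr rfl)
  · rw [ns_card (R.sub hk), h2]

/-- NO HEAVY JOIN at a row with three sites, if there is no pendant below the sites with a positive
value -/
theorem NJ.noHeavy3 (h : NJ P r j) (hj : 2 ≤ j) (R : Red P j K psi) (B : RowB P j t 2 x c β)
    (h0 : 0 < c 1 → pen (x 0) = ∅) (h1 : 0 < β → pen (x 1) = ∅) (h2 : 0 < c 0 → pen (x 2) = ∅) :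
    ∀ z y v : P, K2.SD j (topOf : P → Tops P) z y v → (topOf y = t ∨ topOf v = t) →
      sa j (topOf : P → Tops P) K (uc y) (topOf y) *
        sa j (topOf : P → Tops P) K (uc v) (topOf v) = 0 := by
  classical
  intro z y v S hor
  have H := h.g.H
  rcases hor with ht | ht
  · rw [NJ.sa_dbl h R B (S.ly H) ht S.cy, zero_mul]
  · have hlv := S.lv' H
    have hpos := NJ.sa_single h hj R hlv S.cv
    obtain ⟨s, hs⟩ := card_eq_one.1 S.cv
    have hsv : s ∈ uc v := by rw [hs]; exact mem_singleton_self _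
    have hls := lev_uc H hsv
    have hts : topOf v = topOf s := h.split (mem_uc.1 hsv) (by omega)
    obtain ⟨q, hq, rfl⟩ := B.row.surj s (by omega) (hts.symm.trans ht)
    have hp : v ∈ pen (x q) := Win.mem_pen.2 ⟨mem_uc.1 hsv, S.cv⟩
    obtain ⟨s0, s1, s2⟩ := NJ.sa_three h R B
    rw [hs, ht] at hpos ⊢
    suffices hz : sa j (topOf : P → Tops P) K {x q} t = 0 by rw [hz, mul_zero]
    by_contra hne
    have hlt : 0 < sa j (topOf : P → Tops P) K {x q} t := lt_of_le_of_ne hpos (Ne.symm hne)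
    have h3 : q = 0 ∨ q = 1 ∨ q = 2 := by omega
    rcases h3 with rfl | rfl | rfl
    · rw [h0 (by rwa [s0] at hlt)] at hp
      exact notMem_empty _ hp
    · rw [h1 (by rwa [s1] at hlt)] at hp
      exact notMem_empty _ hp
    · rw [h2 (by rwa [s2] at hlt)] at hp
      exact notMem_empty _ hp

end Pool.Agent.GaussPoset.EK

end

/-! From `Pool.Agent.W_448s7s_h5.TwB` -/

section

/-!
MP_448cb3_co, G2, case B, window `j`: the contribution of the window `j` to the functional
`⟨-1, 9, 1, 4, 3, -1, 2, 13, 0⟩` for the patterns R and [DL] with three sites.  helper5.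
-/

namespace Pool.Agent.GaussPoset.Win.W4

set_option linter.unusedSectionVars false

open Finset
open Pool.Agent.GaussPoset.Win.SO (PN vp con on mem_PN vp_PD vp_PU)

universe u

variable {P : Type u} [Fintype P] [PartialOrder P] [DecidableEq P] {r i : ℕ}
variable {psi : P → P} {C K : Finset P} {w v p q s : P} {x : ℕ → P}

/-- the contribution of the window `j` -/
noncomputable def OwT (i : ℕ) (C : Finset P) : ℤ :=
  - I2.al 2 (st i C).card (ZS i C) + 2 * I2.Q4 (st i C).card (ZS i C) +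
    13 * I2.w3 (st i C).card (ZS i C)

lemma two_sq_sub_nonneg (u : ℤ) : 0 ≤ 2 * u ^ 2 - u := by
  rcases le_or_gt u 0 with h | h
  · nlinarith
  · nlinarith

/-- a lower bound, three sites, two unmatched elements -/
theorem K5.Ow_three (Q : K5 r i K psi C w v) (hw : uc w = {p, q}) (hv : dc v = {q, s})
    (hpq : p ≠ q) (hqs : q ≠ s) (hps : p ≠ s) (hst : st i C = {p, q, s}) :
    2 * (- 6 + 2 * ∑ z ∈ (PN i C).filter (fun z => sit i z = {p, q}), vp i z -
    2 * ∑ z ∈ (PN i C).filter (fun z => sit i z = {q, s}), vp i z +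
    2 * (dg i K C p + dg i K C s + 2 * dg i K C q - 2 * mm i K C {p, q} - 2 * mm i K C {q, s} -
      mm i K C {p, s})) - 5 ≤ OwT i C := by
  have key := Q.T_three hw hv hpq hqs hps hst
  have a1 := Q.al2 hw hv hpq hqs hps
  have a3 := Q.three_w3 hw hv hpq hqs hps hst
  have h2 := card_le_card (T4_subset i C)
  have h3 : ((T4 i C).card : ℤ) ≤ (Z4 i C).card := by exact_mod_cast h2
  unfold Tv Lv at key
  unfold wv at a3 key
  unfold OwT
  rw [a3] at key ⊢
  rw [← a1] at key
  have h4 := two_sq_sub_nonneg (I2.al 2 (st i C).card (ZS i C))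
  nlinarith

/-- the rest for [DL] -/
theorem DL2.rest_ge (h : DL2 r i K psi C w v x) {X : ℤ}
    (key : - 6 + 2 * ∑ z ∈ (PN i C).filter (fun z => sit i z = {x 0, x 1}), vp i z -
    2 * ∑ z ∈ (PN i C).filter (fun z => sit i z = {x 1, x 2}), vp i z +
    2 * (dg i K C (x 0) + dg i K C (x 2) + 2 * dg i K C (x 1) - 2 * mm i K C {x 0, x 1} -
      2 * mm i K C {x 1, x 2} - mm i K C {x 0, x 2}) ≤ X) :
    2 * ((pen (x 2)).card : ℤ) + 4 * ((uc (x 0)).card - 1) + 2 * ((uc (x 2)).card - 1) ≤ X := by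
  have W := h.W
  have n01 : x 0 ≠ x 1 := W.ne (by omega) (by omega) (by omega)
  have n12 : x 1 ≠ x 2 := W.ne (by omega) (by omega) (by omega)
  have n02 : x 0 ≠ x 2 := W.ne (by omega) (by omega) (by omega)
  have d10 := kf_dcv_comm (x 1) (x 0)
  have d21 := kf_dcv_comm (x 2) (x 1)
  have d20 := kf_dcv_comm (x 2) (x 0)
  rw [h.d01] at d10
  rw [h.d12] at d21
  rw [h.d02] at d20
  -- degrees
  have D0 := W.deg (k := 0) (by omega)
  have D1 := W.deg (k := 1) (by omega)
  have D2 := W.deg (k := 2) (by omega)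
  rw [(sum_er3 _).1, h.d01, h.d02] at D0
  rw [(sum_er3 _).2.1, d10, h.d12] at D1
  rw [(sum_er3 _).2.2, d20, d21] at D2
  have L0 := W.dc_le (k := 0) (by omega)
  have L1 := W.dc_le (k := 1) (by omega)
  have U1 := W.uc_inner (k := 1) (by omega) (by omega)
  have U0 := W.uc_le (k := 0) (by omega)
  have U2 := W.uc_le (k := 2) (by omega)
  have g0 := h.Q.dg_eq (W.mem 0 (by omega)) (W.lev_x 0 (by omega))
  have g1 := h.Q.dg_eq (W.mem 1 (by omega)) (W.lev_x 1 (by omega))
  have g2 := h.Q.dg_eq (W.mem 2 (by omega)) (W.lev_x 2 (by omega))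
  rw [h.hw, h.hv, if_pos (mem_insert_self _ _), if_neg (by
    rw [mem_insert, mem_singleton]
    rintro (h1 | h1)
    · exact n01 h1
    · exact n02 h1)] at g0
  rw [h.hw, h.hv, if_pos (mem_insert_of_mem (mem_singleton_self _)),
    if_pos (mem_insert_self _ _)] at g1
  rw [h.hw, h.hv, if_neg (by
    rw [mem_insert, mem_singleton]
    rintro (h1 | h1)
    · exact n02 h1.symm
    · exact n12 h1.symm), if_pos (mem_insert_of_mem (mem_singleton_self _))] at g2
  have m0 := h.Q.mm_pair (W.mem 0 (by omega)) (W.lev_x 0 (by omega)) n01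
  have m1 := h.Q.mm_pair (W.mem 1 (by omega)) (W.lev_x 1 (by omega)) n12
  have m2 := h.Q.mm_pair (W.mem 0 (by omega)) (W.lev_x 0 (by omega)) n02
  rw [h.d01, if_pos h.hw] at m0
  rw [h.d12, h.hw, if_neg (by rw [pair_comm (x 1)]; exact pair_ne n02 n12 _)] at m1
  rw [h.d02, h.hw, if_neg (by rw [pair_comm (x 0) (x 2)]; exact pair_ne n02 n12 _)] at m2
  rw [m0, m1, m2, g0, g1, g2] at key
  -- pendants
  have A : ((uc (x 0)).card : ℤ) - 2 ≤
      ∑ z ∈ (PN i C).filter (fun z => sit i z = {x 0, x 1}), vp i z := by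
    have h1 : NE i C x 0 = ∑ z ∈ (PN i C).filter (fun z => sit i z = {x 0, x 1}), vp i z :=
      NE_eq 0
    have h2 := W.UE_one (i := i) (C := C) 0
    rw [← h1]
    unfold NE
    rcases U0 with h3 | h3
    · omega
    · rw [W.ue_zero (i := i) (C := C) (by omega) h3, card_empty, h3]
      push_cast
      omega
  have B := vp_nonpos (i := i) (C := C) W.H h.d12
  push_cast at key
  omega

/-- [DL] with three sites -/
theorem DL2.Ow_ge (h : DL2 r i K psi C w v x) : 4 * ((pen (x 2)).card : ℤ) +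
    8 * ((uc (x 0)).card - 1) + 4 * ((uc (x 2)).card - 1) - 5 ≤ OwT i C := by
  have W := h.W
  have n01 : x 0 ≠ x 1 := W.ne (by omega) (by omega) (by omega)
  have n12 : x 1 ≠ x 2 := W.ne (by omega) (by omega) (by omega)
  have n02 : x 0 ≠ x 2 := W.ne (by omega) (by omega) (by omega)
  have k1 := h.Q.Ow_three h.hw h.hv n01 n12 n02 W.st_three
  have k2 := h.rest_ge le_rfl
  linarith

/-- the rest for R -/
theorem R2.rest_ge (h : R2 r i K psi C w v x) {X : ℤ}
    (key : - 6 + 2 * ∑ z ∈ (PN i C).filter (fun z => sit i z = {x 2, x 0}), vp i z -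
    2 * ∑ z ∈ (PN i C).filter (fun z => sit i z = {x 0, x 1}), vp i z +
    2 * (dg i K C (x 2) + dg i K C (x 1) + 2 * dg i K C (x 0) - 2 * mm i K C {x 2, x 0} -
      2 * mm i K C {x 0, x 1} - mm i K C {x 2, x 1}) ≤ X) : 2 * ((pen (x 1)).card : ℤ) ≤ X := by
  have W := h.W
  have n01 : x 0 ≠ x 1 := W.ne (by omega) (by omega) (by omega)
  have n12 : x 1 ≠ x 2 := W.ne (by omega) (by omega) (by omega)
  have n02 : x 0 ≠ x 2 := W.ne (by omega) (by omega) (by omega)
  have d10 := kf_dcv_comm (x 1) (x 0)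
  have d21 := kf_dcv_comm (x 2) (x 1)
  have d20 := kf_dcv_comm (x 2) (x 0)
  rw [h.d01] at d10
  rw [h.d12] at d21
  rw [h.d02] at d20
  have D0 := W.deg (k := 0) (by omega)
  have D1 := W.deg (k := 1) (by omega)
  have D2 := W.deg (k := 2) (by omega)
  rw [(sum_er3 _).1, h.d01, h.d02] at D0
  rw [(sum_er3 _).2.1, d10, h.d12] at D1
  rw [(sum_er3 _).2.2, d20, d21] at D2
  have L2 := W.dc_le (k := 2) (by omega)
  have U1 := W.uc_inner (k := 1) (by omega) (by omega)
  have g0 := h.Q.dg_eq (W.mem 0 (by omega)) (W.lev_x 0 (by omega))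
  have g1 := h.Q.dg_eq (W.mem 1 (by omega)) (W.lev_x 1 (by omega))
  have g2 := h.Q.dg_eq (W.mem 2 (by omega)) (W.lev_x 2 (by omega))
  rw [h.hw, h.hv, if_pos (mem_insert_of_mem (mem_singleton_self _)),
    if_pos (mem_insert_self _ _)] at g0
  rw [h.hw, h.hv, if_neg (by
    rw [mem_insert, mem_singleton]
    rintro (h1 | h1)
    · exact n12 h1
    · exact n01 h1.symm), if_pos (mem_insert_of_mem (mem_singleton_self _))] at g1
  rw [h.hw, h.hv, if_pos (mem_insert_self _ _), if_neg (by
    rw [mem_insert, mem_singleton]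
    rintro (h1 | h1)
    · exact n02 h1.symm
    · exact n12 h1.symm)] at g2
  have m0 := h.Q.mm_pair (W.mem 2 (by omega)) (W.lev_x 2 (by omega)) n02.symm
  have m1 := h.Q.mm_pair (W.mem 0 (by omega)) (W.lev_x 0 (by omega)) n01
  have m2 := h.Q.mm_pair (W.mem 2 (by omega)) (W.lev_x 2 (by omega)) n12.symm
  rw [d20, if_pos h.hw] at m0
  rw [h.d01, h.hw, if_neg (by rw [pair_comm (x 0) (x 1)]; exact pair_ne n12.symm n01 _)] at m1
  rw [d21, h.hw, if_neg (by rw [pair_comm (x 2) (x 1)]; exact pair_ne n12.symm n01 _)] at m2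
  rw [m0, m1, m2, g0, g1, g2, h.u0, h.u2] at key
  have hu : ucv (x 2) (x 0) = 0 := by
    rw [StB_ucv_comm, W.up 0 2 (by omega) (by omega), if_neg (by omega)]
  have A := vp_nonneg (i := i) (C := C) W.H hu
  have B := vp_nonpos (i := i) (C := C) W.H h.d01
  push_cast at key
  omega

/-- R with three sites -/
theorem R2.Ow_ge (h : R2 r i K psi C w v x) : 4 * ((pen (x 1)).card : ℤ) - 5 ≤ OwT i C := by
  have W := h.W
  have n01 : x 0 ≠ x 1 := W.ne (by omega) (by omega) (by omega)
  have n12 : x 1 ≠ x 2 := W.ne (by omega) (by omega) (by omega)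
  have n02 : x 0 ≠ x 2 := W.ne (by omega) (by omega) (by omega)
  have hst : st i C = {x 2, x 0, x 1} := by
    rw [W.st_three]
    ext y
    simp only [mem_insert, mem_singleton]
    tauto
  have k1 := h.Q.Ow_three h.hw h.hv n02.symm n01 n12.symm hst
  have k2 := h.rest_ge le_rfl
  linarith

end Pool.Agent.GaussPoset.Win.W4

end

/-! From `Pool.Agent.W_448s7s_h5.TwC` -/

section

/-!
MP_448cb3_co, G2, case B, window `j - 1`: the parts with two sites.  helper5.
-/

namespace Pool.Agent.GaussPoset.Tw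

set_option linter.unusedSectionVars false

open Finset Win Win.W4 Wd EK Win.Pn
open Pool.Agent.GaussPoset.Win.SO (PN vp mem_PN F5)
open Pool.Agent.GaussPoset.Win.So (N5s Z2s mem_Z2s)

universe u

variable {P : Type u} [Fintype P] [PartialOrder P] [DecidableEq P] {r j i : ℕ}
  {t : Tops P} {lo hi : ℕ → ℕ} {e : ℕ → ℕ → P} {x : ℕ → P} {c : ℕ → ℤ} {β : ℤ} {p : P}

section nj

variable (h : NJ P r j) (hij : i + 1 = j) (hi1 : 1 ≤ i)
include h hij hi1

/-- no far element with three sites -/
lemma two_Z4 (t : Tops P) (h2 : (st i (SS i t)).card ≤ 2) : Z4 i (SS i t) = ∅ := by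
  rw [eq_empty_iff_forall_notMem]
  intro z hz
  obtain ⟨h3, h4⟩ := Z4_sites h.g.H (h.part (by omega) (by omega) t) hz
  have := card_le_card h4
  omega

/-- the value (3,1) of a part with two sites -/
lemma two_A3 (t : Tops P) (h2 : (st i (SS i t)).card ≤ 2) :
    A3 i t = (FL i (SS i t)).card - (FU' i (SS i t)).card := by
  have hF := nj_F5_three h hij hi1 t (by omega)
  have h3 := nj_al3 h hij hi1 t hF
  have h4 := two_Z4 h hij hi1 t h2
  unfold Z4 at h4
  rw [union_eq_empty] at h4
  rw [h4.1, h4.2, card_empty] at h3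
  unfold A3
  rw [h3]
  push_cast
  ring

/-- the values of a part with two sites -/
lemma two_vals (t : Tops P) (h2 : (st i (SS i t)).card ≤ 2) :
    B5 i t = 0 ∧ C6 i t = A3 i t ^ 2 ∧ C8 i t = 0 ∧ C10 i t = 0 := by
  have h5 := nj_be5_small h hij t h2
  have h6 := nj_be6_small h hij t h2
  obtain ⟨h8, h10⟩ := nj_Q_two h hij t h2
  refine ⟨h5, ?_, h8, h10⟩
  unfold C6 So.Q6 A3
  rw [So.cf_three, So.cf_six, So.cf_five, h5, h6]
  ring

/-- the sites of a pendant of a part with two sites -/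
lemma two_sit (t : Tops P) (h2 : (st i (SS i t)).card ≤ 2) {q : P} (hq : q ∈ PN i (SS i t)) :
    sit i q = st i (SS i t) := by
  obtain ⟨psi, hM⟩ := good_mat h.g.H (h.g.good i (by omega))
  have F := nj_fr h hij hi1 hM t
  have h3 := (pn_two F hq).1
  have h4 := SO.sit_part h.g.H F.E.hC (mem_PN.1 hq).1
  exact eq_of_subset_of_card_le h4 (by omega)

/-- the crossing numbers of the pendant of a part with two sites -/
lemma two_rho (h2 : (st i (SS i (topOf p : Tops P))).card ≤ 2) (hp : p ∈ PD P i) :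
    Pn.rho i (topOf : P → Tops P) 5 p = 0 ∧ Pn.rho i (topOf : P → Tops P) 7 p = 0 := by
  classical
  have hpm := nj_mem h hij hi1 (mem_PD.1 hp).1
  have hpn : p ∈ PN i (SS i (topOf p)) := mem_PN.2 ⟨hpm, Or.inl hp⟩
  have h4 := two_Z4 h hij hi1 (topOf p) h2
  have hs := two_sit h hij hi1 (topOf p) h2 hpn
  constructor
  · rw [nj_rho5_PD h hij hi1 hp, sum_eq_zero, sum_eq_zero, add_zero]
    · intro q hq
      exfalso
      obtain ⟨h5, -, -, h6⟩ := mem_Ov.1 hq
      rw [hs, two_sit h hij hi1 (topOf p) h2 h5, inter_self] at h6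
      obtain ⟨psi, hM⟩ := good_mat h.g.H (h.g.good i (by omega))
      have h7 := (pn_two (nj_fr h hij hi1 hM (topOf p)) hpn).1
      rw [hs] at h7
      omega
    · intro z hz
      exfalso
      have h5 : z ∈ Z4 i (SS i (topOf p)) := (mem_filter.1 hz).1
      rw [h4] at h5
      exact notMem_empty z h5
  · rw [nj_rho7_PD h hij hi1 hp, neg_eq_zero, Nat.cast_eq_zero, card_eq_zero,
      filter_eq_empty_iff]
    intro q hq
    exfalso
    have h5 : q.1 ∈ Z4 i (SS i (topOf p)) := mem_union_left _ (mem_Tws.1 hq).zl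
    rw [h4] at h5
    exact notMem_empty _ h5

/-- the private children of the pendant -/
lemma two_kc (t : Tops P) (hp : p ∈ PD P i) (ht : topOf p = t) :
    ((FL i (SS i t)).card : ℤ) = kc p := by
  classical
  have H := h.g.H
  obtain ⟨n1, -, -⟩ := nj_one h hij hi1 t
  rw [card_le_one] at n1
  have lp := (mem_PD.1 hp).1
  have hpm : p ∈ SS i t := by
    rw [← ht]
    exact nj_mem h hij hi1 lp
  have hC : Part (i + 1) (SS i t) := h.part (by omega) (by omega) t
  unfold kc
  congr 2
  ext w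
  rw [mem_FL, mem_ks]
  constructor
  · rintro ⟨h1, z, hz, h2⟩
    have h3 : z ∈ SS i t := hC.up h1 (by rw [← mem_uc, h2]; exact mem_singleton_self _)
    rw [h2, n1 z (mem_filter.2 ⟨h3, hz⟩) p (mem_filter.2 ⟨hpm, hp⟩)]
  · intro hx
    refine ⟨?_, p, hp, hx⟩
    have hxp : w ⋖ p := by rw [← mem_uc, hx]; exact mem_singleton_self _
    have hlx := lev_cov H hxp
    rw [← h.cext_eq (i := i) (by omega) t, mem_cext] at hpm ⊢
    intro z hz hlz
    refine hpm z ?_ hlz
    have hne : w ≠ z := by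
      rintro rfl
      omega
    obtain ⟨w', hw1, hw2⟩ := Hul.exists_cov (lt_of_le_of_ne hz hne)
    have : w' ∈ uc w := mem_uc.2 hw1
    rw [hx, mem_singleton] at this
    rw [← this]
    exact hw2

/-- the children of a pendant: joins and private children -/
lemma zc_kc_le (p : P) : zc i (topOf : P → Tops P) p + kc p ≤ 2 := by
  classical
  have H := h.g.H
  have hκ : Split (i + 2) (topOf : P → Tops P) := by
    rw [show i + 2 = j + 1 by omega]
    exact h.split
  have h1 : zs i (topOf : P → Tops P) p ∪ ks p ⊆ dc p := by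
    intro z hz
    rcases mem_union.1 hz with k | k
    · exact mem_dc.2 (mem_uc.1 (mem_zs.1 k).2)
    · exact mem_dc.2 (mem_uc.1 (by rw [mem_ks.1 k]; exact mem_singleton_self _))
  have h2 : Disjoint (zs i (topOf : P → Tops P) p) (ks p) := by
    rw [disjoint_left]
    intro z hz hz'
    obtain ⟨p1, p2, y1, y2, D, hu, hne⟩ := Z2s_pair H hκ (mem_zs.1 hz).1
    have h3 := mem_ks.1 hz'
    rw [hu] at h3
    have := congrArg Finset.card h3
    rw [card_pair hne, card_singleton] at this
    omega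
  have h3 := card_le_card h1
  rw [card_union_of_disjoint h2] at h3
  have h4 := dc_card_le H p
  unfold zc kc
  omega

omit hij hi1 in
lemma kc_two (z : P) : kc z ≤ 2 := by
  have h1 : ks z ⊆ dc z := fun y hy =>
    mem_dc.2 (mem_uc.1 (by rw [mem_ks.1 hy]; exact mem_singleton_self _))
  have h2 := (card_le_card h1).trans (dc_card_le h.g.H z)
  unfold kc
  exact_mod_cast h2

omit hij hi1 in
lemma sum_kc_le (p : P) : ∑ z ∈ zs i (topOf : P → Tops P) p, kc z ≤
    2 * zc i (topOf : P → Tops P) p := by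
  have h1 := sum_le_card_nsmul (zs i (topOf : P → Tops P) p) kc 2 (fun z _ => kc_two h z)
  rw [nsmul_eq_mul] at h1
  unfold zc
  linarith

variable (C : Cp.Comp j (t : P) lo hi e)
include C

/-- an element of a narrow level -/
lemma narrow {k : ℕ} (hk : k ≤ j) (h1 : lo k = hi k) {w w' : P} (hw : w ≤ (t : P))
    (hw' : w' ≤ (t : P)) (hl : lev w = k) (hl' : lev w' = k) : w = w' := by
  obtain ⟨s, s1, s2, s3⟩ := C.surj w hw (by omega)
  obtain ⟨s', s4, s5, s6⟩ := C.surj w' hw' (by omega)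
  rw [hl] at s1 s2 s3
  rw [hl'] at s4 s5 s6
  rw [← s3, ← s6, show s = s' by omega]

/-- at most one element above an upper pendant, if the levels are narrow -/
lemma two_FU (hn : ∀ k, k < i → lo k = hi k) : (FU' i (SS i t)).card ≤ 1 := by
  classical
  have H := h.g.H
  rw [card_le_one]
  intro w hw w' hw'
  obtain ⟨h1, u, hu, h2⟩ := mem_FU'.1 hw
  obtain ⟨h1', u', hu', h2'⟩ := mem_FU'.1 hw'
  have l1 := lev_dc H (show u ∈ dc w by rw [h2]; exact mem_singleton_self _)
  have l1' := lev_dc H (show u' ∈ dc w' by rw [h2']; exact mem_singleton_self _)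
  have l2 := (mem_PU.1 hu).1
  have l2' := (mem_PU.1 hu').1
  have g1 := (h.mem (by omega) t (by omega)).1 h1
  have g1' := (h.mem (by omega) t (by omega)).1 h1'
  exact narrow h hij hi1 C (k := lev w) (by omega) (hn _ (by omega)) g1 g1' rfl (by omega)

/-- the near elements of the pendant -/
lemma two_nn (B : RowB P j t 2 x c β) (hn : lo (i - 1) = hi (i - 1)) (hp : p ∈ PD P i)
    (ht : topOf p = t) : nn i p ≤ 4 := by
  classical
  have H := h.g.H
  have lp := (mem_PD.1 hp).1
  have hpm : p ∈ SS i t := by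
    rw [← ht]
    exact nj_mem h hij hi1 lp
  have hsit : ∀ s ∈ sit i p, lev s = i ∧ s ≤ (t : P) := by
    intro s hs
    have h3 := mem_st.1 (SO.sit_part H (h.part (by omega) (by omega) t) hpm hs)
    exact ⟨h3.2, (h.mem (by omega) t (by omega)).1 h3.1⟩
  have hL : nLp i p ⊆ (range 3).image x := by
    intro w hw
    obtain ⟨hlw, hd⟩ := mem_nLp.1 hw
    obtain ⟨s, hs1, hs2⟩ := not_disjoint_iff.1 hd
    obtain ⟨hls, hst⟩ := hsit s hs2
    have h4 : w ≤ (t : P) := (mem_uc.1 hs1).le.trans hst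
    have h5 : topOf w = t := (RowB.topOf_iff h (by omega)).2 h4
    obtain ⟨k, hk, rfl⟩ := B.row.surj w (by omega) h5
    exact mem_image_of_mem x (mem_range.2 (by omega))
  have hL' : (nLp i p).card ≤ 3 := by
    have h6 := (card_le_card hL).trans card_image_le
    rwa [card_range] at h6
  have hU : (nUp i p).card ≤ 1 := by
    rw [card_le_one]
    intro w hw w' hw'
    obtain ⟨hlw, hd⟩ := mem_nUp.1 hw
    obtain ⟨hlw', hd'⟩ := mem_nUp.1 hw'
    obtain ⟨s, hs1, hs2⟩ := not_disjoint_iff.1 hd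
    obtain ⟨s', hs1', hs2'⟩ := not_disjoint_iff.1 hd'
    obtain ⟨hls, hst⟩ := hsit s hs2
    obtain ⟨hls', hst'⟩ := hsit s' hs2'
    have g1 := Cp.up_le H h.g.good t.2 hst (by omega) (mem_dc.1 hs1).le
    have g1' := Cp.up_le H h.g.good t.2 hst' (by omega) (mem_dc.1 hs1').le
    exact narrow h hij hi1 C (k := i - 1) (by omega) hn g1 g1' (by omega) (by omega)
  unfold nn
  have : ((nLp i p).card : ℤ) ≤ 3 := by exact_mod_cast hL'
  have : ((nUp i p).card : ℤ) ≤ 1 := by exact_mod_cast hU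
  linarith

end nj

end Pool.Agent.GaussPoset.Tw

end

/-! From `Pool.Agent.W_448s7s_h5.TwD` -/

section

/-!
MP_448cb3_co, G2, case B, window `j - 1`: the parts with two sites: the share, the shapes.  helper5.
-/

namespace Pool.Agent.GaussPoset.Tw

set_option linter.unusedSectionVars false

open Finset Win Win.W4 Wd EK Win.Pn
open Pool.Agent.GaussPoset.Win.SO (PN vp mem_PN F5)
open Pool.Agent.GaussPoset.Win.So (N5s Z2s mem_Z2s)

universe u

/-- the weights -/
def Ws : Wt := ⟨-1, 9, 1, 4, 3, -1, 2, 13, 0⟩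

section words

variable {lo hi : ℕ → ℕ} {a d : ℕ}

lemma lateW_two (a : ℕ) : ∀ w ∈ lateW a, wdt w = 2 → w.getLast? = some OO →
    w = [OO] ∨ w = [OC, OO] ∨ w = [OC, CO, CO, OO] := by
  unfold lateW
  split_ifs <;> first | omega | decide

/-- the late words with three elements on the last level, last letter OO -/
lemma late_two (h3 : lo a = 0 ∧ hi a = 1)
    (hl : ∀ k, k < a + d → lo k ≤ lo (k + 1) ∧ lo (k + 1) ≤ lo k + 1)
    (hh : ∀ k, k < a + d → hi k ≤ hi (k + 1) ∧ hi (k + 1) ≤ hi k + 1)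
    (h4 : ((1 ≤ d ∧ d ≤ a) ∧ word lo hi a d = Qw d) ∨ word lo hi a d ∈ lateW a)
    (hd : 1 ≤ d) (hw : hi (a + d) = lo (a + d) + 2) (e1 : lo (a + d) = lo (a + (d - 1)))
    (e2 : hi (a + d) = hi (a + (d - 1)) + 1) :
    word lo hi a d = [OO] ∨ word lo hi a d = [OC, OO] ∨ word lo hi a d = [OC, CO, CO, OO] := by
  have gen : ∀ n, n ≤ d → (hi (a + n) : ℤ) - lo (a + n) =
      1 + ((word lo hi a n).map (fun l => (if l.2 then (1 : ℤ) else 0) -
        if l.1 then 1 else 0)).sum := by
    intro n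
    induction n with
    | zero =>
      intro _
      simp [word, h3.1, h3.2]
    | succ n ih =>
      intro hn
      have e1 := ih (by omega)
      have e2 := hl (a + n) (by omega)
      have e3 := hh (a + n) (by omega)
      have e4 : word lo hi a (n + 1) = word lo hi a n ++
          [(decide (lo (a + n + 1) ≠ lo (a + n)), decide (hi (a + n + 1) ≠ hi (a + n)))] := by
        unfold word
        rw [List.range_succ, List.map_append]
        rfl
      rw [e4, List.map_append, List.sum_append]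
      simp only [List.map_cons, List.map_nil, List.sum_cons, List.sum_nil, add_zero,
        decide_eq_true_eq]
      rw [show a + (n + 1) = a + n + 1 by omega]
      split_ifs <;> omega
  have key : wdt (word lo hi a d) = 2 := by
    unfold wdt
    rw [← gen d le_rfl]
    omega
  have last : (word lo hi a d).getLast? = some OO := by
    obtain ⟨n, rfl⟩ : ∃ n, d = n + 1 := ⟨d - 1, by omega⟩
    unfold word
    rw [List.range_succ, List.map_append, List.map_cons, List.map_nil, List.getLast?_concat]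
    rw [show a + (n + 1) = a + n + 1 by omega, show a + (n + 1 - 1) = a + n by omega] at e1 e2
    have d1 : decide (lo (a + n + 1) ≠ lo (a + n)) = false := decide_eq_false (by simp [e1])
    have d2 : decide (hi (a + n + 1) ≠ hi (a + n)) = true := decide_eq_true (by omega)
    rw [d1, d2]
    rfl
  rcases h4 with ⟨⟨h5, h6⟩, h7⟩ | h4
  · exfalso
    rw [h7] at last
    have g2 : ∀ n, 1 ≤ n → wdt (Qw n) = 0 := by
      intro n hn
      unfold wdt Qw
      rw [List.map_cons, List.map_replicate, List.sum_cons, List.sum_replicate]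
      simp [Wd.CC, Wd.OC]
    rw [h7, g2 d hd] at key
    norm_num at key
  · exact lateW_two a _ h4 key last

/-- one step of a word -/
lemma wd_step {f : ℕ → ℕ} {k : ℕ} (hs : f (k + 1) = f k ∨ f (k + 1) = f k + 1) {b : Bool}
    (h : some b = some (decide (f (k + 1) ≠ f k))) : f (k + 1) = f k + (if b then 1 else 0) := by
  rw [Option.some.injEq] at h
  subst h
  by_cases h1 : f (k + 1) = f k
  · simp [h1]
  · rw [if_pos (by simpa using h1)]
    omega

/-- the values of the ends from the word -/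
lemma wd_vals {w : List Ltr} (h : word lo hi a d = w)
    (hlo : ∀ k, k < a + d → lo (k + 1) = lo k ∨ lo (k + 1) = lo k + 1)
    (hhi : ∀ k, k < a + d → hi (k + 1) = hi k ∨ hi (k + 1) = hi k + 1) :
    d = w.length ∧ ∀ n b c, w[n]? = some (b, c) →
      lo (a + n + 1) = lo (a + n) + (if b then 1 else 0) ∧
      hi (a + n + 1) = hi (a + n) + (if c then 1 else 0) := by
  obtain ⟨h1, h2⟩ := Wd.word_spec h
  refine ⟨h1, fun n b c hn => ?_⟩
  have hnd : n < d := by
    rw [h1]
    exact (List.getElem?_eq_some_iff.1 hn).1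
  obtain ⟨q1, q2⟩ := h2 n hnd
  rw [hn] at q1 q2
  simp only [Option.map_some] at q1 q2
  exact ⟨wd_step (hlo (a + n) (by omega)) q1, wd_step (hhi (a + n) (by omega)) q2⟩

end words

variable {P : Type u} [Fintype P] [PartialOrder P] [DecidableEq P] {r j i : ℕ}
  {t : Tops P} {lo hi : ℕ → ℕ} {e : ℕ → ℕ → P} {x : ℕ → P} {c : ℕ → ℤ} {β : ℤ} {p : P}

lemma two_arith {z k f : ℕ} {n S T : ℤ} (h1 : (z : ℤ) + k ≤ 2) (h2 : f ≤ 1) (h3 : n ≤ 4)
    (h4 : S ≤ 2 * z) : 0 ≤ 2 * (-1 * ((k : ℤ) - f) + 1 * ((k : ℤ) - f) ^ 2) +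
      ((z : ℤ) * (9 + 3) - 4 * 1 * z * (k + n - 3) - 2 * 1 * S - 2 * 4 * z * (0 - (k - f)) -
        4 * 3 * z * (0 - 0) + (2 * 3 - 4) * (z * (z - 1)) - (1 - 4 + 3) * T) := by
  have hz : z = 0 ∨ z = 1 ∨ z = 2 := by omega
  have hk : k = 0 ∨ k = 1 ∨ k = 2 := by omega
  have hf : f = 0 ∨ f = 1 := by omega
  rcases hz with rfl | rfl | rfl <;> rcases hk with rfl | rfl | rfl <;>
    rcases hf with rfl | rfl <;>
    simp only [Nat.cast_zero, Nat.cast_one, Nat.cast_ofNat] at h1 h4 ⊢ <;> linarith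

/-- the contribution of the window `j - 1` -/
noncomputable def own1 (W : Wt) (i : ℕ) (t : Tops P) : ℤ :=
  W.a3 * A3 i t + W.a5 * B5 i t + W.a6 * C6 i t + W.a8 * C8 i t + W.a10 * C10 i t

section nj

variable (h : NJ P r j) (hij : i + 1 = j) (hi1 : 1 ≤ i)
include h hij hi1

/-- THE WINDOW `j - 1` OF A PART WITH TWO SITES is nonnegative -/
theorem two_share (B : RowB P j t 2 x c β) (C : Cp.Comp j (t : P) lo hi e)
    (h2 : (st i (SS i t)).card ≤ 2)
    (hn : ∀ p ∈ PD P i, topOf p = t → ∀ k, k < i → lo k = hi k) :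
    0 ≤ 2 * own1 Ws i t + ∑ p ∈ (PD P i).filter (fun p => (topOf p : Tops P) = t),
      shr Ws i p := by
  classical
  obtain ⟨v5, v6, v8, v10⟩ := two_vals h hij hi1 t h2
  have v3 := two_A3 h hij hi1 t h2
  have e1 : own1 Ws i t = -1 * A3 i t + 1 * A3 i t ^ 2 := by
    unfold own1
    rw [v5, v6, v8, v10]
    show -1 * A3 i t + 9 * 0 + 1 * A3 i t ^ 2 + 4 * 0 + 3 * 0 = _
    ring
  rw [e1]
  by_cases hE : (PD P i).filter (fun p => (topOf p : Tops P) = t) = ∅
  · rw [hE, sum_empty, add_zero]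
    have := sq_sub_nonneg (A3 i t)
    linarith
  · obtain ⟨p, hp⟩ := nonempty_iff_ne_empty.2 hE
    have hE1 : (PD P i).filter (fun p => (topOf p : Tops P) = t) = {p} := by
      refine eq_singleton_iff_unique_mem.2 ⟨hp, fun q hq => ?_⟩
      rw [mem_filter] at hp hq
      exact nj_hone h hij hi1 q hq.1 p hp.1 (hq.2.trans hp.2.symm)
    rw [hE1, sum_singleton]
    obtain ⟨hp1, hp2⟩ := mem_filter.1 hp
    have hw := hn p hp1 hp2
    obtain ⟨r5, r7⟩ := two_rho h hij hi1 (p := p) (by rw [hp2]; exact h2) hp1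
    have f1 := two_FU h hij hi1 C hw
    have n1 := two_nn h hij hi1 C B (hw (i - 1) (by omega)) hp1 hp2
    have k1 := two_kc h hij hi1 t hp1 hp2
    have z1 := zc_kc_le h hij hi1 p
    have s1 := sum_kc_le (i := i) h p
    unfold shr
    rw [r5, r7, hp2, v5, v3]
    rw [← k1] at z1 ⊢
    exact two_arith z1 f1 n1 s1

/-- an upper pendant -/
lemma pu_of_pd (hp : p ∈ PD P i) (ht : topOf p = t) : ∃ u ∈ PU P i, u ≤ (t : P) := by
  classical
  obtain ⟨-, -, hb⟩ := nj_one h hij hi1 t
  have lp := (mem_PD.1 hp).1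
  have hpm : p ∈ (SS i t).filter (· ∈ PD P i) := by
    rw [mem_filter, ← ht]
    exact ⟨nj_mem h hij hi1 lp, hp⟩
  unfold Bal at hb
  have h1 := card_pos.2 ⟨p, hpm⟩
  rw [hb] at h1
  obtain ⟨u, hu⟩ := card_pos.1 h1
  rw [mem_filter] at hu
  have h2 := (mem_PU.1 hu.2).1
  exact ⟨u, hu.2, (h.mem (by omega) t (by omega)).1 hu.1⟩

/-- the element `e k s` has two lower covers -/
lemma two_dn (C : Cp.Comp j (t : P) lo hi e) {k s : ℕ} (hk : k < j) (s1 : lo k ≤ s)
    (s2 : s ≤ hi k) (s3 : lo (k + 1) ≤ s) (s4 : s + 1 ≤ hi (k + 1)) : 2 ≤ (dc (e k s)).card := by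
  classical
  have d1 := (C.cov k s s hk (by omega) (by omega) s1 s2).2 (Or.inl rfl)
  have d2 := (C.cov k (s + 1) s hk (by omega) (by omega) s1 s2).2 (Or.inr rfl)
  have hne : e (k + 1) s ≠ e (k + 1) (s + 1) := fun q => by
    have := C.inj (k + 1) _ _ (by omega) (by omega) (by omega) (by omega) (by omega) q
    omega
  rw [← card_pair hne]
  refine card_le_card fun w hw => ?_
  rw [mem_insert, mem_singleton] at hw
  rcases hw with rfl | rfl
  · exact mem_dc.2 d1
  · exact mem_dc.2 d2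

/-- the lower covers of `e k s` -/
lemma dn_cov (C : Cp.Comp j (t : P) lo hi e) {k s : ℕ} (hk : k < j) (s1 : lo k ≤ s)
    (s2 : s ≤ hi k) {w : P} (hw : w ⋖ e k s) :
    ∃ s', lo (k + 1) ≤ s' ∧ s' ≤ hi (k + 1) ∧ w = e (k + 1) s' ∧ (s' = s ∨ s' = s + 1) := by
  have H := h.g.H
  have h1 := lev_cov H hw
  rw [C.lev_e k s (by omega) s1 s2] at h1
  have h2 := hw.le.trans (C.le_t k s (by omega) s1 s2)
  obtain ⟨s', q1, q2, q3⟩ := C.surj w h2 (by omega)
  rw [show lev w = k + 1 by omega] at q1 q2 q3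
  rw [← q3] at hw
  have h3 := (C.cov k s' s hk q1 q2 s1 s2).1 hw
  exact ⟨s', q1, q2, q3.symm, by omega⟩

/-- THE SHAPES: a part with three sites at the level `j`, both ends open, with a pendant of the window
`j - 1` -/
theorem two_shape (C : Cp.Comp j (t : P) lo hi e) (hS : Shape j lo hi) (hV : hi j = lo j + 2)
    (hl : lo j = lo i) (hh : hi j = hi i + 1) (hp : p ∈ PD P i) (ht : topOf p = t) :
    ∀ k, k < i → lo k = hi k := by
  classical
  have H := h.g.H
  obtain ⟨u, hu, hut⟩ := pu_of_pd h hij hi1 hp ht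
  obtain ⟨lu, du, y, hyu, dy⟩ := mem_PU.1 hu
  obtain ⟨s, s1, s2, s3⟩ := C.surj u hut (by omega)
  have h00 := C.lo_zero
  have h01 := C.hi_zero
  subst hij
  rcases hS with g | ⟨g1, g2⟩ | ⟨g0, g2⟩ | ⟨g0, g1, g2⟩ | ⟨g0, g1⟩ | ⟨a, g0, g1, g2, g3, hN, g4⟩
  · have := g (i + 1) le_rfl
    omega
  · -- rectangle
    have e1 := g2.lo i (by omega)
    have e2 := g2.hi i (by omega)
    have : i = 1 := by omega
    subst this
    intro k hk
    obtain rfl : k = 0 := by omega
    omega
  · -- stair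
    exfalso
    have e1 := g2.lo i (by omega)
    have e2 := g2.hi (i + 1) (by omega)
    have e3 := g2.hi i (by omega)
    have : i = 3 := by omega
    subst this
    have lu1 : lev u = 1 := by omega
    rw [lu1] at s1 s2 s3
    have e4 := C.lo_step 2 (by omega)
    have e5 := C.lo_step 1 (by omega)
    have e6 := g2.hi 1 (by omega)
    have e7 := g2.hi 2 (by omega)
    norm_num at e1 e2 e3 e4 e5 e6 e7
    have k1 := two_dn h rfl hi1 C (k := 1) (s := s) (by omega) s1 s2 (by norm_num; omega)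
      (by norm_num; omega)
    rw [s3] at k1
    omega
  · -- three
    have : i = 2 := by omega
    subst this
    intro k hk
    have hk2 : k = 0 ∨ k = 1 := by omega
    rcases hk2 with rfl | rfl
    · omega
    · omega
  · exfalso
    have : i = 5 := by omega
    subst this
    unfold F1 at g1
    norm_num at hV
    omega
  · -- late
    obtain ⟨d, hd⟩ : ∃ d, i + 1 = a + d := ⟨i + 1 - a, by omega⟩
    rw [show i + 1 - a = d by omega] at g4
    have hd1 : 1 ≤ d := by
      by_contra h3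
      have : i + 1 = a := by omega
      rw [this] at hV
      omega
    have hst : ∀ k, k < a + d → lo k ≤ lo (k + 1) ∧ lo (k + 1) ≤ lo k + 1 := by
      intro k hk
      have := C.lo_step k (by omega)
      omega
    have hst' : ∀ k, k < a + d → hi k ≤ hi (k + 1) ∧ hi (k + 1) ≤ hi k + 1 := by
      intro k hk
      have := C.hi_step k (by omega)
      omega
    rw [hd] at hV
    have key := late_two g3 hst hst' g4 hd1 hV
      (by rw [← hd, show a + (d - 1) = i by omega]; exact hl)
      (by rw [← hd, show a + (d - 1) = i by omega]; exact hh)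
    rcases key with w | w | w
    all_goals
      obtain ⟨hd2, hv⟩ := wd_vals w (fun k hk => C.lo_step k (by omega))
        (fun k hk => C.hi_step k (by omega))
      simp only [List.length_cons, List.length_nil] at hd2
    · intro k hk
      have := g2 k (by omega)
      omega
    · exfalso
      obtain ⟨k, rfl⟩ : ∃ k, a = k + 1 := ⟨a - 1, by omega⟩
      have lu1 : lev u = k := by omega
      rw [lu1] at s1 s2 s3
      have := g2 k (by omega)
      have k1 := two_dn h rfl hi1 C (k := k) (s := s) (by omega) s1 s2 (by omega) (by omega)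
      rw [s3] at k1
      omega
    · exfalso
      have v0 := hv 0 false false rfl
      have v1 := hv 1 true true rfl
      have v2 := hv 2 true true rfl
      simp only [Bool.false_eq_true, if_false, if_true, add_zero] at v0 v1 v2
      have lu1 : lev u = a + 1 := by omega
      rw [lu1] at s1 s2 s3
      have v1' : lo (a + 2) = 1 ∧ hi (a + 2) = 2 := by
        have u1 : a + 1 + 1 = a + 2 := rfl
        rw [u1] at v1
        omega
      have v2' : lo (a + 3) = 2 ∧ hi (a + 3) = 3 := by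
        have u1 : a + 2 + 1 = a + 3 := rfl
        rw [u1] at v2
        omega
      have hs : s = 0 ∨ s = 1 := by omega
      rcases hs with rfl | rfl
      · rw [← s3] at hyu
        obtain ⟨s', q1, q2, q3, q4⟩ := dn_cov h rfl hi1 C (k := a + 1) (by omega) s1 s2 hyu
        rw [show a + 1 + 1 = a + 2 by omega] at q1 q2 q3
        obtain rfl : s' = 1 := by omega
        obtain ⟨w1, hw1, w2, hw2, hne⟩ := one_lt_card.1 (show 1 < (dc y).card by omega)
        rw [q3] at hw1 hw2
        obtain ⟨r1, p1, p2, p3, p4⟩ := dn_cov h rfl hi1 C (k := a + 2) (s := 1) (by omega)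
          (by omega) (by omega) (mem_dc.1 hw1)
        obtain ⟨r2, p5, p6, p7, p8⟩ := dn_cov h rfl hi1 C (k := a + 2) (s := 1) (by omega)
          (by omega) (by omega) (mem_dc.1 hw2)
        rw [show a + 2 + 1 = a + 3 by omega] at p1 p2 p3 p5 p6 p7
        apply hne
        rw [p3, p7, show r1 = r2 by omega]
      · have k1 := two_dn h rfl hi1 C (k := a + 1) (s := 1) (by omega) s1 s2
          (by rw [show a + 1 + 1 = a + 2 by omega]; omega)
          (by rw [show a + 1 + 1 = a + 2 by omega]; omega)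
        rw [s3] at k1
        omega

end nj

end Pool.Agent.GaussPoset.Tw

end

/-! From `Pool.Agent.W_448s7s_h5.TwE` -/

section

/-!
MP_448cb3_co, G2, case B, windows `j - 1` and `j`: the rows with three sites: R, and all the rows with
both ends open.  helper5.
-/

namespace Pool.Agent.GaussPoset.Tw

set_option linter.unusedSectionVars false

open Finset Win Win.W4 Wd EK Win.Pn
open Pool.Agent.GaussPoset.Win.SO (PN vp mem_PN F5)

universe u

variable {P : Type u} [Fintype P] [PartialOrder P] [DecidableEq P] {r j i : ℕ}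
  {t : Tops P} {lo hi : ℕ → ℕ} {e : ℕ → ℕ → P} {x : ℕ → P} {c : ℕ → ℤ} {β : ℤ} {p : P}
  {K : Finset P} {psi : P → P}

/-- twice the value of a part, without the joins of a double and a single element -/
noncomputable def Vs (i : ℕ) (t : Tops P) : ℤ :=
  2 * Pn.own Ws i (i + 1) t +
    ∑ p ∈ (PD P i).filter (fun p => (topOf p : Tops P) = t), Pn.shr Ws i p

/-- the contribution of the window `j - 1` -/
noncomputable def V1 (i : ℕ) (t : Tops P) : ℤ :=
  2 * own1 Ws i t + ∑ p ∈ (PD P i).filter (fun p => (topOf p : Tops P) = t), Pn.shr Ws i p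

lemma Vs_eq (i : ℕ) (t : Tops P) :
    Vs i t = V1 i t + 2 * OwT (i + 1) (cext (i + 1 + 1) (topOf : P → Tops P) t) := by
  have e1 : Pn.own Ws i (i + 1) t = own1 Ws i t +
      OwT (i + 1) (cext (i + 1 + 1) (topOf : P → Tops P) t) := by
    unfold Pn.own own1 OwT F2 F4 F3
    show _ + -1 * _ + 2 * _ + 13 * _ + 0 * _ = _
    unfold I2.bb I2.VV
    ring
  unfold Vs V1
  rw [e1]
  ring

section nj

variable (h : NJ P r j) (hij : i + 1 = j) (hi1 : 1 ≤ i)
include h hij hi1

/-- both ends open: the ends of the levels -/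
lemma open_ends (B : RowB P j t 2 x c β) (C : Cp.Comp j (t : P) lo hi e)
    (u0 : (uc (x 0)).card = 1) (u2 : (uc (x 2)).card = 1) :
    hi j = lo j + 2 ∧ lo j = lo i ∧ hi j = hi i + 1 := by
  have H := h.g.H
  obtain ⟨hlen, hor⟩ := B.orient h (by omega) C
  have sing : ∀ s, lo j ≤ s → s ≤ hi j → ((uc (e j s)).card = 1 ↔ s = lo i ∨ s = hi i + 1) := by
    intro s s1 s2
    subst hij
    exact C.single_up H h.g.good t.2 (k := i) (s := s) (by omega) s1 s2
  have e1 := C.lo_step i (by omega)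
  have e2 := C.hi_step i (by omega)
  have e3 := C.lo_le i (by omega)
  rw [hij] at e1 e2
  have k1 : (uc (e j (lo j))).card = 1 ∧ (uc (e j (hi j))).card = 1 := by
    rcases hor with hor | hor
    · have a0 := hor 0 (by omega)
      have a2 := hor 2 (by omega)
      rw [add_zero] at a0
      rw [a0] at u0
      rw [a2, ← hlen] at u2
      exact ⟨u0, u2⟩
    · have a0 := hor 0 (by omega)
      have a2 := hor 2 (by omega)
      rw [Nat.sub_zero] at a0
      rw [a0] at u0
      rw [a2, show hi j - 2 = lo j by omega] at u2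
      exact ⟨u2, u0⟩
  have k2 := (sing _ le_rfl (by omega)).1 k1.1
  have k3 := (sing _ (by omega) le_rfl).1 k1.2
  omega

/-- THE WINDOW `j - 1`: three sites, both ends open -/
theorem open_V1 (C : Cp.Comp j (t : P) lo hi e) (hS : Shape j lo hi) (B : RowB P j t 2 x c β)
    (u0 : (uc (x 0)).card = 1) (u2 : (uc (x 2)).card = 1) : 0 ≤ V1 i t := by
  obtain ⟨k1, k2, k3⟩ := open_ends h hij hi1 B C u0 u2
  have hc := h.card_SS (i := i) (by omega) C
  exact two_share h hij hi1 B C (by omega)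
    (fun p hp ht => two_shape h hij hi1 C hS k1 k2 k3 hp ht)

end nj

/-- three sites, both ends open -/
theorem open_Vs (h : NJ P r (i + 1)) (hi1 : 1 ≤ i) (C : Cp.Comp (i + 1) (t : P) lo hi e)
    (hS : Shape (i + 1) lo hi) (B : RowB P (i + 1) t 2 x c β) (u0 : (uc (x 0)).card = 1) (u2 : (uc (x 2)).card = 1) :
    2 * OwT (i + 1) (cext (i + 1 + 1) (topOf : P → Tops P) t) ≤ Vs i t := by
  rw [Vs_eq]
  have := open_V1 h rfl hi1 C hS B u0 u2
  linarith

/-- THE PATTERN R with three sites -/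
theorem r2_three (h : NJ P r (i + 1)) (hi1 : 1 ≤ i) (C : Cp.Comp (i + 1) (t : P) lo hi e)
    (hS : Shape (i + 1) lo hi) (R : Red P (i + 1) K psi) (B : RowB P (i + 1) t 2 x c β)
    (hβ : β = 1) (c0 : c 0 = -1) (c1 : c 1 = 0) :
    -8 < Vs i t ∨ -16 < Vs i t ∧ ∀ z y v : P, K2.SD (i + 1) (topOf : P → Tops P) z y v →
      (topOf y = t ∨ topOf v = t) → sa (i + 1) (topOf : P → Tops P) K (uc y) (topOf y) *
        sa (i + 1) (topOf : P → Tops P) K (uc v) (topOf v) = 0 := by
  obtain ⟨w, v, D⟩ := NJ.r2 h (by omega) R B hβ c0 c1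
  have h1 := D.Ow_ge
  have h2 := open_Vs h hi1 C hS B D.u0 D.u2
  by_cases hp : pen (x 1) = ∅
  · right
    rw [hp, card_empty] at h1
    exact ⟨by push_cast at h1; linarith,
      NJ.noHeavy3 h (by omega) R B (fun q => by omega) (fun _ => hp) (fun q => by omega)⟩
  · left
    have h3 : 1 ≤ (pen (x 1)).card := by
      rw [Nat.one_le_iff_ne_zero]
      exact fun q => hp (card_eq_zero.1 q)
    have h4 : (1 : ℤ) ≤ (pen (x 1)).card := by exact_mod_cast h3
    linarith

/-- [DL] with three sites, from the value of the window `j - 1` -/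
theorem dl2_three (h : NJ P r (i + 1)) (hi1 : 1 ≤ i) (C : Cp.Comp (i + 1) (t : P) lo hi e)
    (hS : Shape (i + 1) lo hi) (R : Red P (i + 1) K psi) (B : RowB P (i + 1) t 2 x c β)
    (hβ : β = 0) (c0 : c 0 = 1) (c1 : c 1 = -1)
    (hV : ¬ ((uc (x 0)).card = 1 ∧ (uc (x 2)).card = 1) → -13 ≤ V1 i t) :
    -8 < Vs i t ∨ -16 < Vs i t ∧ ∀ z y v : P, K2.SD (i + 1) (topOf : P → Tops P) z y v →
      (topOf y = t ∨ topOf v = t) → sa (i + 1) (topOf : P → Tops P) K (uc y) (topOf y) *
        sa (i + 1) (topOf : P → Tops P) K (uc v) (topOf v) = 0 := by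
  obtain ⟨w, v, D⟩ := NJ.dl2 h (by omega) R B hβ c0 c1
  have h1 := D.Ow_ge
  have h5 : -5 ≤ V1 i t + 8 * ((uc (x 0)).card - 1) + 8 * ((uc (x 2)).card - 1) := by
    by_cases hu : (uc (x 0)).card = 1 ∧ (uc (x 2)).card = 1
    · have := open_V1 h rfl hi1 C hS B hu.1 hu.2
      rw [hu.1, hu.2]
      norm_num
      linarith
    · have h6 := hV hu
      have h7 := D.W.uc_le (k := 0) (by omega)
      have h8 := D.W.uc_le (k := 2) (by omega)
      have h9 : (3 : ℤ) ≤ (uc (x 0)).card + (uc (x 2)).card := by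
        have : 3 ≤ (uc (x 0)).card + (uc (x 2)).card := by omega
        exact_mod_cast this
      linarith
  have h1' : (1 : ℤ) ≤ (uc (x 0)).card := by
    have := D.W.uc_le (k := 0) (by omega)
    have : 1 ≤ (uc (x 0)).card := by omega
    exact_mod_cast this
  have h6 := Vs_eq i t
  by_cases hp : pen (x 2) = ∅
  · right
    rw [hp, card_empty] at h1
    exact ⟨by push_cast at h1; linarith,
      NJ.noHeavy3 h (by omega) R B (fun q => by omega) (fun q => by omega) (fun _ => hp)⟩
  · left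
    have h3 : 1 ≤ (pen (x 2)).card := by
      rw [Nat.one_le_iff_ne_zero]
      exact fun q => hp (card_eq_zero.1 q)
    have h4 : (1 : ℤ) ≤ (pen (x 2)).card := by exact_mod_cast h3
    linarith

/-- THE TRIANGLE, from the value of the window `j` -/
theorem rr_three (h : NJ P r (i + 1)) (hi1 : 1 ≤ i) (C : Cp.Comp (i + 1) (t : P) lo hi e)
    (hS : Shape (i + 1) lo hi) (B : RowB P (i + 1) t 2 x c β) (hβ : β ≠ 0)
    (hO : -3 ≤ OwT (i + 1) (cext (i + 1 + 1) (topOf : P → Tops P) t)) : -8 < Vs i t := by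
  obtain ⟨u0, u2⟩ := B.ends hβ
  have := open_Vs h hi1 C hS B u0 u2
  linarith

/-- ALL THE ROWS WITH THREE SITES AND A DEFECT, from the triangle at the window `j` and the closed [DL]
at the window `j - 1` -/
theorem all_three (h : NJ P r (i + 1)) (hi1 : 1 ≤ i) (C : Cp.Comp (i + 1) (t : P) lo hi e)
    (hS : Shape (i + 1) lo hi) (R : Red P (i + 1) K psi) (B : RowB P (i + 1) t 2 x c β)
    (hd : ¬ (β = 0 ∧ ∀ k, k < 2 → c k = 0))
    (hT : ∀ (x : ℕ → P) (c : ℕ → ℤ), RowB P (i + 1) t 2 x c 2 → c 0 = -1 → c 1 = -1 →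
      -3 ≤ OwT (i + 1) (cext (i + 1 + 1) (topOf : P → Tops P) t))
    (hD : ∀ (x : ℕ → P) (c : ℕ → ℤ) (β : ℤ), RowB P (i + 1) t 2 x c β → β = 0 → c 0 = 1 →
      c 1 = -1 → ¬ ((uc (x 0)).card = 1 ∧ (uc (x 2)).card = 1) → -13 ≤ V1 i t) :
    I2.w3 (I2.bb (i + 1) (i + 1 + 1) (topOf : P → Tops P) t)
      (I2.VV (i + 1) (i + 1 + 1) (topOf : P → Tops P) t) ≠ 0 ∧
    (-8 < Vs i t ∨ -16 < Vs i t ∧ ∀ z y v : P, K2.SD (i + 1) (topOf : P → Tops P) z y v →
      (topOf y = t ∨ topOf v = t) → sa (i + 1) (topOf : P → Tops P) K (uc y) (topOf y) *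
        sa (i + 1) (topOf : P → Tops P) K (uc v) (topOf v) = 0) := by
  refine ⟨NJ.w3_ne h (by omega) B hd, ?_⟩
  rcases B.pat with p1 | ⟨-, p1, p2, p3⟩ | ⟨-, p1, p2, p3⟩ | ⟨-, p1, p2, p3, p4⟩ |
    ⟨-, p1, p2, p3, p4⟩ | p1 | ⟨-, p1, p2, p3⟩ | p1
  · exact absurd p1 hd
  · exact r2_three h hi1 C hS R B p1 p2 (p3 1 le_rfl (by omega))
  · exact r2_three h hi1 C hS R B.rev p1 p2 (p3 0 (by omega))
  · exact dl2_three h hi1 C hS R B p1 p2 p3 (hD x c β B p1 p2 p3)
  · exact dl2_three h hi1 C hS R B.rev p1 p2 p3 (hD _ _ β B.rev p1 p2 p3)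
  · have := p1.1
    omega
  · left
    refine rr_three h hi1 C hS B (by rw [p1]; norm_num) (hT x c (by rw [← p1]; exact B) p2 p3)
  · have := p1.1
    omega

end Pool.Agent.GaussPoset.Tw

end

/-! From `Pool.Agent.W_448s7s_h5.TwH` -/

section

/-!
MP_448cb3_co, G2, case B, STEP 0: the rows with three sites and the functional
`⟨-1, 9, 1, 4, 3, -1, 2, 14, 2⟩`.  helper5.
-/

namespace Pool.Agent.GaussPoset.Win.W4

set_option linter.unusedSectionVars false

open Finset
open Pool.Agent.GaussPoset.Win.SO (PN vp con on mem_PN vp_PD vp_PU)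

universe u

variable {P : Type u} [Fintype P] [PartialOrder P] [DecidableEq P] {r i : ℕ}
variable {psi : P → P} {C K : Finset P} {w v p q s : P} {x : ℕ → P}

/-- the rest for R -/
theorem R2.rest_ge2 (h : R2 r i K psi C w v x) {X : ℤ}
    (key : - 6 + 2 * ∑ z ∈ (PN i C).filter (fun z => sit i z = {x 2, x 0}), vp i z -
    2 * ∑ z ∈ (PN i C).filter (fun z => sit i z = {x 0, x 1}), vp i z +
    2 * (dg i K C (x 2) + dg i K C (x 1) + 2 * dg i K C (x 0) - 2 * mm i K C {x 2, x 0} -
      2 * mm i K C {x 0, x 1} - mm i K C {x 2, x 1}) ≤ X) : 4 * ((pen (x 0)).card : ℤ) + 2 * (pen (x 1)).card ≤ X := by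
  have W := h.W
  have n01 : x 0 ≠ x 1 := W.ne (by omega) (by omega) (by omega)
  have n12 : x 1 ≠ x 2 := W.ne (by omega) (by omega) (by omega)
  have n02 : x 0 ≠ x 2 := W.ne (by omega) (by omega) (by omega)
  have d10 := kf_dcv_comm (x 1) (x 0)
  have d21 := kf_dcv_comm (x 2) (x 1)
  have d20 := kf_dcv_comm (x 2) (x 0)
  rw [h.d01] at d10
  rw [h.d12] at d21
  rw [h.d02] at d20
  have D0 := W.deg (k := 0) (by omega)
  have D1 := W.deg (k := 1) (by omega)
  have D2 := W.deg (k := 2) (by omega)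
  rw [(sum_er3 _).1, h.d01, h.d02] at D0
  rw [(sum_er3 _).2.1, d10, h.d12] at D1
  rw [(sum_er3 _).2.2, d20, d21] at D2
  have L2 := W.dc_le (k := 2) (by omega)
  have U1 := W.uc_inner (k := 1) (by omega) (by omega)
  have g0 := h.Q.dg_eq (W.mem 0 (by omega)) (W.lev_x 0 (by omega))
  have g1 := h.Q.dg_eq (W.mem 1 (by omega)) (W.lev_x 1 (by omega))
  have g2 := h.Q.dg_eq (W.mem 2 (by omega)) (W.lev_x 2 (by omega))
  rw [h.hw, h.hv, if_pos (mem_insert_of_mem (mem_singleton_self _)),
    if_pos (mem_insert_self _ _)] at g0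
  rw [h.hw, h.hv, if_neg (by
    rw [mem_insert, mem_singleton]
    rintro (h1 | h1)
    · exact n12 h1
    · exact n01 h1.symm), if_pos (mem_insert_of_mem (mem_singleton_self _))] at g1
  rw [h.hw, h.hv, if_pos (mem_insert_self _ _), if_neg (by
    rw [mem_insert, mem_singleton]
    rintro (h1 | h1)
    · exact n02 h1.symm
    · exact n12 h1.symm)] at g2
  have m0 := h.Q.mm_pair (W.mem 2 (by omega)) (W.lev_x 2 (by omega)) n02.symm
  have m1 := h.Q.mm_pair (W.mem 0 (by omega)) (W.lev_x 0 (by omega)) n01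
  have m2 := h.Q.mm_pair (W.mem 2 (by omega)) (W.lev_x 2 (by omega)) n12.symm
  rw [d20, if_pos h.hw] at m0
  rw [h.d01, h.hw, if_neg (by rw [pair_comm (x 0) (x 1)]; exact pair_ne n12.symm n01 _)] at m1
  rw [d21, h.hw, if_neg (by rw [pair_comm (x 2) (x 1)]; exact pair_ne n12.symm n01 _)] at m2
  rw [m0, m1, m2, g0, g1, g2, h.u0, h.u2] at key
  have hu : ucv (x 2) (x 0) = 0 := by
    rw [StB_ucv_comm, W.up 0 2 (by omega) (by omega), if_neg (by omega)]
  have A := vp_nonneg (i := i) (C := C) W.H hu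
  have B := vp_nonpos (i := i) (C := C) W.H h.d01
  push_cast at key
  omega

/-- R with three sites -/
theorem R2.Ow_ge2 (h : R2 r i K psi C w v x) : 8 * ((pen (x 0)).card : ℤ) +
    4 * (pen (x 1)).card - 5 ≤ OwT i C := by
  have W := h.W
  have n01 : x 0 ≠ x 1 := W.ne (by omega) (by omega) (by omega)
  have n12 : x 1 ≠ x 2 := W.ne (by omega) (by omega) (by omega)
  have n02 : x 0 ≠ x 2 := W.ne (by omega) (by omega) (by omega)
  have hst : st i C = {x 2, x 0, x 1} := by
    rw [W.st_three]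
    ext y
    simp only [mem_insert, mem_singleton]
    tauto
  have k1 := h.Q.Ow_three h.hw h.hv n02.symm n01 n12.symm hst
  have k2 := h.rest_ge2 le_rfl
  linarith

end Pool.Agent.GaussPoset.Win.W4

end
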