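import Mathlib
import Pool.Agent.W_448zz_h61.Ns
import Pool.Agent.W_448zz_h61.M172
import Pool.Agent.W_448zz_h61.M216
import Pool.Agent.W_448zz_h61.M257

/-! From `Pool.Agent.W_448ft_h93.DtA` -/

section

/-!
MP_448cb3_co, G2, case B, window `j - 1`: the rows with three sites and the pattern [DL], a closed end.
Basic facts on the pendants of the part.
-/

set_option autoImplicit false

namespace Pool.Agent.GaussPoset.Wd

set_option linter.unusedSectionVars false

open Finset Win Win.I2 Win.Rc EK Win.Pn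
open Pool.Agent.GaussPoset.Win.SO (F5 mem_F5 N1f N5f CQ envc)

universe u

variable {P : Type u} [Fintype P] [PartialOrder P] [DecidableEq P] {r j i : ℕ}
  {t : Tops P} {lo hi : ℕ → ℕ} {e : ℕ → ℕ → P} {m : ℕ} {x : ℕ → P} {c : ℕ → ℤ} {β : ℤ}
  {S : Finset P} {p q w : P}

/-- no pendant below an element with two children which are doubles -/
lemma Dt_pen_empty (H : Gr P r) {w y y' : P} (hy : y ⋖ w) (hy' : y' ⋖ w) (hne : y ≠ y')
    (h1 : (uc y).card = 2) (h2 : (uc y').card = 2) : pen w = ∅ := by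
  rw [eq_empty_iff_forall_notMem]
  intro z hz
  obtain ⟨hz1, hz2⟩ := Win.mem_pen.1 hz
  refine Win.dc_three H hy hy' hz1 hne ?_ ?_
  · rintro rfl
    omega
  · rintro rfl
    omega

section row

variable (h : NJ P r j) (hij : i + 1 = j) (hi1 : 1 ≤ i) (B : RowB P j t m x c β)
include h hij hi1 B

lemma NJ.dt_x_mem {k : ℕ} (hk : k ≤ m) : x k ∈ SS i t := by
  have l := B.row.lev_x k hk
  rw [h.mem (by omega) t (by omega), ← B.row.kap k hk]
  exact le_topOf (x k)

/-- the elements of the level `j` of the part -/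
lemma NJ.dt_x_of {w : P} (hl : lev w = j) (hw : w ∈ SS i t) : ∃ k, k ≤ m ∧ x k = w := by
  refine B.row.surj w hl ?_
  rw [h.mem (by omega) t (by omega)] at hw
  exact Subtype.ext (Hul.top_unique (h.nj (by omega)) (topOf w).2 t.2 (le_topOf w) hw)

/-- a lower pendant of the part is below a double element of the row -/
lemma NJ.dt_pd_row {p : P} (hp : p ∈ PD P i) (hpt : (topOf p : Tops P) = t) :
    ∃ k, k ≤ m ∧ uc p = {x k} ∧ (uc (x k)).card = 2 ∧ p ∈ pen (x k) := by
  obtain ⟨h1, h2, w, h3, h4⟩ := mem_PD.1 hp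
  obtain ⟨a, ha⟩ := card_eq_one.1 h2
  have h5 : w = a := by
    have := mem_uc.2 h3
    rwa [ha, mem_singleton] at this
  subst h5
  have lw := lev_cov h.g.H h3
  have h6 : topOf p = (topOf w : Tops P) := h.split h3 (by omega)
  obtain ⟨k, hk, rfl⟩ := B.row.surj w (by omega) (by rw [← h6, hpt])
  exact ⟨k, hk, ha, h4, Win.mem_pen.2 ⟨h3, h2⟩⟩

end row

section dl

variable (h : NJ P r j) (hij : i + 1 = j) (hi1 : 1 ≤ i) (B : RowB P j t 2 x c β)
  (c0 : c 0 = 1) (c1 : c 1 = -1)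
include h hij hi1 B c0

/-- no pendants below the doubled pair -/
lemma NJ.dl_pen : pen (x 0) = ∅ ∧ pen (x 1) = ∅ := by
  classical
  have H := h.g.H
  have h2 := B.dcv_x H (k := 0) (l := 1) (by omega) (by omega)
  rw [if_pos rfl, c0] at h2
  have h3 : 1 < dcv (x 0) (x 1) := by
    have : (1 : ℤ) < (dcv (x 0) (x 1) : ℤ) := by rw [h2]; norm_num
    exact_mod_cast this
  unfold dcv at h3
  obtain ⟨y, hy, y', hy', hne⟩ := one_lt_card.1 h3
  rw [mem_filter] at hy hy'
  have n01 : x 0 ≠ x 1 := fun q => by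
    have := B.row.inj 0 1 (by omega) (by omega) q
    omega
  have two : ∀ y : P, y ⋖ x 0 → y ⋖ x 1 → (uc y).card = 2 := by
    intro y h1 h2
    have h3 : ({x 0, x 1} : Finset P) ⊆ uc y := by
      intro v hv
      rw [mem_insert, mem_singleton] at hv
      rcases hv with rfl | rfl
      · exact mem_uc.2 h1
      · exact mem_uc.2 h2
    have h4 := card_le_card h3
    rw [card_pair n01] at h4
    have := uc_card_le H y
    omega
  exact ⟨Dt_pen_empty H hy.2.1 hy'.2.1 hne (two y hy.2.1 hy.2.2) (two y' hy'.2.1 hy'.2.2),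
    Dt_pen_empty H hy.2.2 hy'.2.2 hne (two y hy.2.1 hy.2.2) (two y' hy'.2.1 hy'.2.2)⟩

/-- a lower pendant of the part is below `x 2` -/
lemma NJ.dl_pd {p : P} (hp : p ∈ PD P i) (hpt : (topOf p : Tops P) = t) :
    uc p = {x 2} ∧ (uc (x 2)).card = 2 := by
  obtain ⟨k, hk, h1, h2, h3⟩ := h.dt_pd_row hij hi1 B hp hpt
  obtain ⟨e0, e1⟩ := h.dl_pen hij hi1 B c0
  have h4 : k = 0 ∨ k = 1 ∨ k = 2 := by omega
  rcases h4 with rfl | rfl | rfl
  · rw [e0] at h3
    exact absurd h3 (notMem_empty _)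
  · rw [e1] at h3
    exact absurd h3 (notMem_empty _)
  · exact ⟨h1, h2⟩

/-- the sum of the shares -/
lemma NJ.dl_sum (f : P → ℤ) :
    (((∀ p ∈ PD P i, (topOf p : Tops P) ≠ t) ∧
      ∑ p ∈ (PD P i).filter (fun p => (topOf p : Tops P) = t), f p = 0)) ∨
    ∃ p, p ∈ PD P i ∧ (topOf p : Tops P) = t ∧ uc p = {x 2} ∧ (uc (x 2)).card = 2 ∧
      ∑ p ∈ (PD P i).filter (fun p => (topOf p : Tops P) = t), f p = f p := by
  classical
  by_cases hc : ∃ p, p ∈ PD P i ∧ (topOf p : Tops P) = t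
  · right
    obtain ⟨p, hp, hpt⟩ := hc
    obtain ⟨h1, h2⟩ := h.dl_pd hij hi1 B c0 hp hpt
    refine ⟨p, hp, hpt, h1, h2, ?_⟩
    have h3 : (PD P i).filter (fun p => (topOf p : Tops P) = t) = {p} := by
      ext q
      rw [mem_filter, mem_singleton]
      constructor
      · rintro ⟨h3, h4⟩
        exact Pn.nj_hone h hij hi1 q h3 p hp (h4.trans hpt.symm)
      · rintro rfl
        exact ⟨hp, hpt⟩
    rw [h3, sum_singleton]
  · left
    have h3 : ∀ p ∈ PD P i, (topOf p : Tops P) ≠ t := fun p hp hpt => hc ⟨p, hp, hpt⟩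
    refine ⟨h3, ?_⟩
    have h4 : (PD P i).filter (fun p => (topOf p : Tops P) = t) = ∅ :=
      filter_eq_empty_iff.2 (fun p hp => h3 p hp)
    rw [h4, Finset.sum_empty]

end dl

section mat

variable (h : NJ P r j) (hij : i + 1 = j) (hi1 : 1 ≤ i)
include h hij hi1

/-- no pendants below: no pendants at all -/
lemma NJ.dt_no_pn (t : Tops P) (h0 : ∀ p ∈ PD P i, (topOf p : Tops P) ≠ t) :
    F5 i (SS i t) = ∅ ∧ FL i (SS i t) = ∅ ∧ FU' i (SS i t) = ∅ := by
  classical
  have hD : ∀ z ∈ SS i t, z ∉ PD P i := by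
    intro z hz hzD
    refine h0 z hzD ?_
    have l := (mem_PD.1 hzD).1
    rw [h.mem (by omega) t (by omega)] at hz
    exact Subtype.ext (Hul.top_unique (h.nj (by omega)) (topOf z).2 t.2 (le_topOf z) hz)
  have hF : F5 i (SS i t) = ∅ := by
    rw [eq_empty_iff_forall_notMem]
    intro q hq
    obtain ⟨a1, a2, -⟩ := mem_F5.1 hq
    exact hD _ a1 a2
  have hU : ∀ z ∈ SS i t, z ∉ PU P i := by
    obtain ⟨psi, hM⟩ := good_mat h.g.H (h.g.good i (by omega))
    rcases (Pn.nj_mtc h hij hi1 hM t hF).out with hN | ⟨z, x, y, u, hzC, hxC, hzP, -⟩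
    · exact fun z hz => (hN z hz).2
    · exact absurd hzP (hD z hzC)
  have hP := Pn.nj_part h hij t
  refine ⟨hF, ?_, ?_⟩
  · rw [eq_empty_iff_forall_notMem]
    intro w hw
    obtain ⟨h1, z, h2, h3⟩ := mem_FL.1 hw
    exact hD z (hP.up h1 (mem_uc.1 (by rw [h3]; simp))) h2
  · rw [eq_empty_iff_forall_notMem]
    intro w hw
    obtain ⟨h1, z, h2, h3⟩ := mem_FU'.1 hw
    have l := lev_FU h.g.H hw
    have hz : z ⋖ w := mem_dc.1 (by rw [h3]; simp)
    have lz := lev_cov h.g.H hz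
    refine hU z ?_ h2
    rw [h.mem (by omega) t (by omega)] at h1 ⊢
    exact hz.le.trans h1

/-- the matched pendants of a part without flips -/
lemma NJ.dt_mat_pn (t : Tops P) (hF : F5 i (SS i t) = ∅) (hp : p ∈ PD P i)
    (hpt : (topOf p : Tops P) = t) {y : P} (hy : uc p = {y}) :
    ∃ q u, q ∈ SS i t ∧ q ∈ PU P i ∧ dc q = {u} ∧ dc u = uc y ∧
      (∀ z, z ∈ FL i (SS i t) ∨ z ∈ FU' i (SS i t) → sit i z = uc y) ∧
      FL i (SS i t) = FLo (SS i t) p ∧ FU' i (SS i t) ⊆ uc q := by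
  classical
  have H := h.g.H
  obtain ⟨psi, hM⟩ := good_mat h.g.H (h.g.good i (by omega))
  have hpC : p ∈ SS i t := by
    have := Pn.nj_mem h hij hi1 (mem_PD.1 hp).1
    rwa [hpt] at this
  have hP := Pn.nj_part h hij t
  rcases (Pn.nj_mtc h hij hi1 hM t hF).out with hN | ⟨z, q, y', u, hzC, hqC, hzP, hqP, hz, hq,
    huy, h2, hz1, hq1, -⟩
  · exact absurd hp (hN p hpC).1
  · have e1 := hz1 p hpC hp
    subst e1
    have e2 : y' = y := by
      rw [hz] at hy
      exact singleton_injective hy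
    subst e2
    refine ⟨q, u, hqC, hqP, hq, huy, ?_, ?_, ?_⟩
    · intro w hw
      rcases hw with hw | hw
      · obtain ⟨h3, z, h4, h5⟩ := mem_FL.1 hw
        have h6 := hz1 z (hP.up h3 (mem_uc.1 (by rw [h5]; simp))) h4
        subst h6
        rw [sit_FL H h4 h5, ← Pn.sit_PDs H h4 hz, sit_low H (by rw [(mem_PD.1 h4).1]; omega)]
      · obtain ⟨h3, z, h4, h5⟩ := mem_FU'.1 hw
        have l := lev_FU H hw
        have hzw : z ⋖ w := mem_dc.1 (by rw [h5]; simp)
        have lz := lev_cov H hzw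
        have hzC : z ∈ SS i t := by
          rw [h.mem (by omega) t (by omega)] at h3 ⊢
          exact hzw.le.trans h3
        have h6 := hq1 z hzC h4
        subst h6
        rw [sit_FU H h4 h5, ← huy, ← Pn.sit_PUs H h4 hq, sit_upp H (by omega)]
    · ext w
      rw [mem_FL, mem_FLo]
      constructor
      · rintro ⟨h3, z, h4, h5⟩
        have h6 := hz1 z (hP.up h3 (mem_uc.1 (by rw [h5]; simp))) h4
        subst h6
        exact ⟨h3, h5⟩
      · rintro ⟨h3, h4⟩
        exact ⟨h3, p, hp, h4⟩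
    · intro w hw
      obtain ⟨h3, z, h4, h5⟩ := mem_FU'.1 hw
      have l := lev_FU H hw
      have hzw : z ⋖ w := mem_dc.1 (by rw [h5]; simp)
      have lz := lev_cov H hzw
      have hzC : z ∈ SS i t := by
        rw [h.mem (by omega) t (by omega)] at h3 ⊢
        exact hzw.le.trans h3
      have h6 := hq1 z hzC h4
      subst h6
      exact mem_uc.2 hzw

/-- the numbers of the children -/
lemma NJ.dt_ch_bd (hp : p ∈ PD P i) :
    0 ≤ zc i (topOf : P → Tops P) p ∧ 0 ≤ kc p ∧ zc i (topOf : P → Tops P) p + kc p ≤ 2 ∧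
      0 ≤ ∑ z ∈ zs i (topOf : P → Tops P) p, kc z ∧
      ∑ z ∈ zs i (topOf : P → Tops P) p, kc z ≤ 2 * zc i (topOf : P → Tops P) p := by
  classical
  have h1 := Pf.nj_zc_kc h hij hi1 (mem_PD.1 hp).1
  refine ⟨?_, ?_, h1, ?_, ?_⟩
  · unfold zc
    positivity
  · unfold kc
    positivity
  · refine sum_nonneg fun z _ => ?_
    unfold kc
    positivity
  · have h2 : ∀ z ∈ zs i (topOf : P → Tops P) p, kc z ≤ 2 := by
      intro z _
      have h3 : ks z ⊆ dc z := by
        intro y hy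
        rw [mem_ks] at hy
        rw [mem_dc, ← mem_uc, hy]
        exact mem_singleton_self z
      have h4 := card_le_card h3
      have h5 := dc_card_le h.g.H z
      unfold kc
      exact_mod_cast h4.trans h5
    have h3 := sum_le_sum h2
    rw [sum_const, nsmul_eq_mul] at h3
    unfold zc
    linarith

/-- the private children of a pendant -/
lemma NJ.dt_fl_kc (hp : p ∈ PD P i) (hpt : (topOf p : Tops P) = t)
    (hFL : FL i (SS i t) = FLo (SS i t) p) : ((FL i (SS i t)).card : ℤ) = kc p := by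
  have hpC : p ∈ SS i t := by
    have := Pn.nj_mem h hij hi1 (mem_PD.1 hp).1
    rwa [hpt] at this
  rw [hFL, Pf.nj_kc h hij hi1 t hpC (mem_PD.1 hp).1]

end mat

end Pool.Agent.GaussPoset.Wd

end

/-! From `Pool.Agent.W_448ft_h93.DtB` -/

section

/-!
MP_448cb3_co, G2, case B, window `j - 1`: the rows with three sites and the pattern [DL], a closed end.
The near elements which meet the sites of the pendant; the edges; the balance.
-/

set_option autoImplicit false

namespace Pool.Agent.GaussPoset.Wd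

set_option linter.unusedSectionVars false

open Finset Win Win.I2 Win.Rc EK Win.Pn
open Pool.Agent.GaussPoset.Win.SO (F5 mem_F5 N1f N5f CQ envc)

universe u

variable {P : Type u} [Fintype P] [PartialOrder P] [DecidableEq P] {r j i : ℕ}
  {t : Tops P} {lo hi : ℕ → ℕ} {e : ℕ → ℕ → P} {m : ℕ} {x : ℕ → P} {c : ℕ → ℤ} {β : ℤ}
  {S : Finset P} {p q w : P}

/-- at most two upper near elements meet the sites of an upper pendant -/
lemma Dt_up (H : Gr P r) (C : Cp.Comp j (t : P) lo hi e) (hj : i ≤ j) {q u : P}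
    (hq : q ≤ (t : P)) (lq : lev q + 2 = i) (hqu : dc q = {u}) :
    ∃ u', ∀ w, w ≤ (t : P) → lev w + 1 = i → (∃ s, s ≤ (t : P) ∧ s ⋖ w ∧ s ⋖ u) →
      w = u ∨ w = u' := by
  obtain ⟨k, rfl⟩ : ∃ k, i = k + 2 := ⟨i - 2, by omega⟩
  have lqk : lev q = k := by omega
  obtain ⟨d, d1, d2, d3⟩ := C.surj q hq (by omega)
  rw [lqk] at d1 d2 d3
  subst d3
  have hu : u ⋖ e k d := by
    rw [← mem_dc, hqu]
    exact mem_singleton_self u
  have lu := lev_cov H hu
  have lu' : lev u = k + 1 := by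
    have := C.lev_e k d (by omega) d1 d2
    omega
  have hut : u ≤ (t : P) := hu.le.trans (C.le_t k d (by omega) d1 d2)
  obtain ⟨c', c1, c2, c3⟩ := C.surj u hut (by omega)
  rw [lu'] at c1 c2 c3
  subst c3
  have hcd := (C.cov k c' d (by omega) c1 c2 d1 d2).1 hu
  -- the other lower cover is missing
  have hmiss : ∀ a, lo (k + 1) ≤ a → a ≤ hi (k + 1) → d = a ∨ d + 1 = a → a = c' := by
    intro a a1 a2 ha
    have h1 : e (k + 1) a ∈ dc (e k d) := mem_dc.2 ((C.cov k a d (by omega) a1 a2 d1 d2).2 ha)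
    rw [hqu, mem_singleton] at h1
    exact C.inj (k + 1) a c' (by omega) a1 a2 c1 c2 h1
  have key : ∀ w, w ≤ (t : P) → lev w + 1 = k + 2 →
      (∃ s, s ≤ (t : P) ∧ s ⋖ w ∧ s ⋖ e (k + 1) c') →
      ∃ b, lo (k + 1) ≤ b ∧ b ≤ hi (k + 1) ∧ w = e (k + 1) b ∧ (b = c' ∨ b + 1 = c' ∨ b = c' + 1) := by
    rintro w hw lw ⟨s, hs, h1, h2⟩
    have lw' : lev w = k + 1 := by omega
    have ls := lev_cov H h1
    have ls' : lev s = k + 2 := by omega
    obtain ⟨b, b1, b2, b3⟩ := C.surj w hw (by omega)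
    rw [lw'] at b1 b2 b3
    subst b3
    obtain ⟨a, a1, a2, a3⟩ := C.surj s hs (by omega)
    rw [ls'] at a1 a2 a3
    subst a3
    have h3 := (C.cov (k + 1) a b (by omega) a1 a2 b1 b2).1 h1
    have h4 := (C.cov (k + 1) a c' (by omega) a1 a2 c1 c2).1 h2
    exact ⟨b, b1, b2, rfl, by omega⟩
  rcases hcd with h1 | h1
  · refine ⟨e (k + 1) (c' - 1), fun w hw lw hs => ?_⟩
    obtain ⟨b, b1, b2, rfl, hb⟩ := key w hw lw hs
    rcases hb with rfl | hb | hb
    · exact Or.inl rfl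
    · right
      rw [show c' - 1 = b by omega]
    · exfalso
      have := hmiss b b1 b2 (by omega)
      omega
  · refine ⟨e (k + 1) (c' + 1), fun w hw lw hs => ?_⟩
    obtain ⟨b, b1, b2, rfl, hb⟩ := key w hw lw hs
    rcases hb with rfl | hb | hb
    · exact Or.inl rfl
    · exfalso
      have := hmiss b b1 b2 (by omega)
      omega
    · right
      rw [hb]

section dl

variable (h : NJ P r j) (hij : i + 1 = j) (hi1 : 1 ≤ i) (B : RowB P j t 2 x c β)
include h hij hi1 B

/-- the sites of `x 0` and `x 2` are disjoint -/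
lemma NJ.dl_dis {s : P} (h0 : s ∈ uc (x 0)) (h2 : s ∈ uc (x 2)) : False := by
  have h3 := B.ucv_x 0 2 (by omega) le_rfl
  rw [if_neg (by omega)] at h3
  have h4 := StA_ucv_pos (mem_uc.1 h0) (mem_uc.1 h2)
  omega

/-- at most four near elements meet the sites of a matched pendant -/
lemma NJ.dl_nn {u : P} (hp : p ∈ PD P i) (hup : uc p = {x 2}) (hq : q ∈ SS i t)
    (hqU : q ∈ PU P i) (hdq : dc q = {u}) (hdu : dc u = uc (x 2)) : nn i p ≤ 4 := by
  classical
  have H := h.g.H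
  obtain ⟨lo, hi, e, C⟩ := Cp.comp_exists H t.2 h.g.hr h.g.good
  have l2 := B.row.lev_x 2 le_rfl
  have hx2 := h.dt_x_mem hij hi1 B (k := 2) le_rfl
  have hsit : sit i p = uc (x 2) := Pn.sit_PDs H hp hup
  have lq := (mem_PU.1 hqU).1
  have hsite : ∀ s ∈ uc (x 2), s ≤ (t : P) ∧ lev s = i ∧ s ∈ SS i t := by
    intro s hs
    have ls := lev_uc H hs
    have h1 : s ∈ SS i t := (Pn.nj_part h hij t).up hx2 (mem_uc.1 hs)
    exact ⟨(h.mem (by omega) t (by omega)).1 h1, by omega, h1⟩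
  -- lower near elements
  have hL : nLp i p ⊆ {x 1, x 2} := by
    intro w hw
    obtain ⟨lw, hd⟩ := mem_nLp.1 hw
    rw [hsit, not_disjoint_iff] at hd
    obtain ⟨s, s1, s2⟩ := hd
    obtain ⟨g1, g2, g3⟩ := hsite s s2
    have hwC : w ∈ SS i t := by
      refine (h.part (i := i) (k := i + 2) (by omega) (by omega) t).dn g3 (by omega) (mem_uc.1 s1)
    obtain ⟨k, hk, rfl⟩ := h.dt_x_of hij hi1 B (by omega) hwC
    have h4 : k = 0 ∨ k = 1 ∨ k = 2 := by omega
    rcases h4 with rfl | rfl | rfl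
    · exact absurd (h.dl_dis hij hi1 B s1 s2) id
    · simp
    · simp
  -- upper near elements
  obtain ⟨u', hu'⟩ := Dt_up H C (i := i) (by omega)
    ((h.mem (by omega) t (by omega)).1 hq) lq hdq
  have hU : nUp i p ⊆ {u, u'} := by
    intro w hw
    obtain ⟨lw, hd⟩ := mem_nUp.1 hw
    rw [hsit, not_disjoint_iff] at hd
    obtain ⟨s, s1, s2⟩ := hd
    obtain ⟨g1, g2, g3⟩ := hsite s s2
    have hwC : w ∈ SS i t := (Pn.nj_part h hij t).up g3 (mem_dc.1 s1)
    have hwt := (h.mem (by omega) t (by omega)).1 hwC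
    have h5 := hu' w hwt lw ⟨s, g1, mem_dc.1 s1, mem_dc.1 (by rw [hdu]; exact s2)⟩
    rw [mem_insert, mem_singleton]
    exact h5
  have c1 := (card_le_card hL).trans card_le_two
  have c2 := (card_le_card hU).trans card_le_two
  unfold nn
  have c1' : ((nLp i p).card : ℤ) ≤ 2 := by exact_mod_cast c1
  have c2' : ((nUp i p).card : ℤ) ≤ 2 := by exact_mod_cast c2
  linarith

/-- the edges -/
lemma NJ.dl_Ed (a1 : (uc (x 1)).card = 2) : Ed x 2 =
    (if (uc (x 0)).card = 2 then {0} else ∅) ∪ (if (uc (x 2)).card = 2 then {1} else ∅) := by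
  ext k
  rw [mem_Ed, mem_union]
  constructor
  · rintro ⟨h1, h2, h3⟩
    have h4 : k = 0 ∨ k = 1 := by omega
    rcases h4 with rfl | rfl
    · left
      rw [if_pos h2]
      simp
    · right
      rw [if_pos h3]
      simp
  · rintro (h1 | h1)
    · by_cases h2 : (uc (x 0)).card = 2
      · rw [if_pos h2, mem_singleton] at h1
        subst h1
        exact ⟨by omega, h2, a1⟩
      · rw [if_neg h2] at h1
        exact absurd h1 (notMem_empty _)
    · by_cases h2 : (uc (x 2)).card = 2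
      · rw [if_pos h2, mem_singleton] at h1
        subst h1
        exact ⟨by omega, a1, h2⟩
      · rw [if_neg h2] at h1
        exact absurd h1 (notMem_empty _)

/-- the balance of the three-site elements -/
lemma NJ.dl_bal : ((ZU i (SS i t)).card : ℤ) - ((ZL i (SS i t)).card : ℤ) =
    -∑ l ∈ Ed x 2, c l := by
  classical
  have h1 := h.bal_test hij hi1 B (fun _ => True)
  simp only [filter_true] at h1
  rw [← h1]
  ring

/-- the number of the twins -/
lemma NJ.dl_tws : ((Tws i (SS i t)).card : ℤ) = ((Et x 2 c).card : ℤ) := by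
  classical
  have h1 := h.tws_test hij hi1 B (fun _ => True)
  simp only [filter_true] at h1
  exact h1

end dl

end Pool.Agent.GaussPoset.Wd

end

/-! From `Pool.Agent.W_448ft_h93.DtC` -/

section

/-!
MP_448cb3_co, G2, case B, window `j - 1`: the rows with three sites and the pattern [DL], a closed end.
The values of the functional of helper16, no flip.
-/

set_option autoImplicit false

namespace Pool.Agent.GaussPoset.Wd

set_option linter.unusedSectionVars false

open Finset Win Win.I2 Win.Rc EK Win.Pn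
open Pool.Agent.GaussPoset.Win.SO (F5 mem_F5 N1f N5f CQ envc)

universe u

variable {P : Type u} [Fintype P] [PartialOrder P] [DecidableEq P] {r j i : ℕ}
  {t : Tops P} {lo hi : ℕ → ℕ} {e : ℕ → ℕ → P} {m : ℕ} {x : ℕ → P} {c : ℕ → ℤ} {β : ℤ}
  {S : Finset P} {p q w : P}

/-- the weights of the functional -/
noncomputable def W93 : Wt := ⟨-1, 9, 1, 4, 3, -1, 2, 13, 0⟩

lemma Dt_arith4 {z k f s n : ℤ} (z0 : 0 ≤ z) (k0 : 0 ≤ k) (f0 : 0 ≤ f) (f2 : f ≤ 2)
    (zk : z + k ≤ 2) (hs : s ≤ 2 * z) (hn : n ≤ 4) :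
    -12 ≤ 2 * ((k - f) ^ 2 - 5 * (k - f) + 2) + (12 * z - 4 * z * (k + n - 3) - 2 * s +
      8 * z * (k - f) - 12 * z + 2 * (z * (z - 1))) := by
  have z2 : z ≤ 2 := by linarith
  have k2 : k ≤ 2 := by linarith
  interval_cases z <;> interval_cases k <;> interval_cases f <;> linarith

lemma Dt_arith3 {z k f s n : ℤ} (z0 : 0 ≤ z) (k0 : 0 ≤ k) (f0 : 0 ≤ f) (f2 : f ≤ 2)
    (zk : z + k ≤ 2) (hs : s ≤ 2 * z) (hn : n ≤ 4) :
    0 ≤ 2 * ((1 + (k - f)) ^ 2 - (1 + (k - f))) + (12 * z - 4 * z * (k + n - 3) - 2 * s +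
      8 * z * (1 + (k - f)) + 2 * (z * (z - 1))) := by
  have z2 : z ≤ 2 := by linarith
  have k2 : k ≤ 2 := by linarith
  interval_cases z <;> interval_cases k <;> interval_cases f <;> linarith

lemma Dt_arithF {z k f s : ℤ} (z0 : 0 ≤ z) (k0 : 0 ≤ k) (f0 : 0 ≤ f) (f2 : f ≤ 2)
    (zk : z + k ≤ 2) (hs : s ≤ 2 * z) :
    -4 ≤ 2 * ((k - f) ^ 2 - 5 * (k - f) + 2 * (k + f)) + (12 * z - 4 * z * (k + 1) - 2 * s +
      8 * z * (1 + (k - f)) - 12 * z + 2 * (z * (z - 1))) := by
  have z2 : z ≤ 2 := by linarith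
  have k2 : k ≤ 2 := by linarith
  interval_cases z <;> interval_cases k <;> interval_cases f <;> linarith

section dl

variable (h : NJ P r j) (hij : i + 1 = j) (hi1 : 1 ≤ i) (B : RowB P j t 2 x c β)
  (c0 : c 0 = 1) (c1 : c 1 = -1)
include h hij hi1 B

lemma NJ.dl_mid : (uc (x 1)).card = 2 := (h.inner hij hi1 B).1 1 (by omega) (by omega)

lemma NJ.dl_st : (st i (SS i t)).card = 2 + ((uc (x 0)).card - 1) + ((uc (x 2)).card - 1) :=
  (h.inner hij hi1 B).2.1 (by omega)

include c0 c1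

/-- the twins of the closed rows -/
lemma NJ.dl_Et (a0 : (uc (x 0)).card = 2) : Et x 2 c = {0} := by
  ext k
  rw [mem_Et, h.dl_Ed hij hi1 B (h.dl_mid hij hi1 B), if_pos a0, mem_singleton]
  constructor
  · rintro ⟨h1, h2⟩
    rw [mem_union, mem_singleton] at h1
    rcases h1 with h1 | h1
    · exact h1
    · exfalso
      by_cases h3 : (uc (x 2)).card = 2
      · rw [if_pos h3, mem_singleton] at h1
        rw [h1, c1] at h2
        norm_num at h2
      · rw [if_neg h3] at h1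
        exact notMem_empty _ h1
  · rintro rfl
    exact ⟨by simp, c0⟩

lemma NJ.dl_Et' (a0 : (uc (x 0)).card ≠ 2) : Et x 2 c = ∅ := by
  rw [eq_empty_iff_forall_notMem]
  intro k hk
  rw [mem_Et, h.dl_Ed hij hi1 B (h.dl_mid hij hi1 B), if_neg a0, empty_union] at hk
  obtain ⟨h1, h2⟩ := hk
  by_cases h3 : (uc (x 2)).card = 2
  · rw [if_pos h3, mem_singleton] at h1
    rw [h1, c1] at h2
    norm_num at h2
  · rw [if_neg h3] at h1
    exact notMem_empty _ h1

/-- BOTH ENDS CLOSED -/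
theorem NJ.dl_four (a0 : (uc (x 0)).card = 2) (a2 : (uc (x 2)).card = 2) :
    -12 ≤ 2 * own1 W93 i t +
      ∑ p ∈ (PD P i).filter (fun p => (topOf p : Tops P) = t), shr W93 i p := by
  classical
  have H := h.g.H
  have a1 := h.dl_mid hij hi1 B
  have hst := h.dl_st hij hi1 B
  rw [a0, a2] at hst
  have h4 : 4 ≤ (st i (SS i t)).card := by omega
  have hc : ∀ k, 2 ≤ k → k < 2 → c k = 0 := fun k h1 h2 => absurd h1 (by omega)
  have hF : F5 i (SS i t) = ∅ := Pn.nj_F5_three h hij hi1 t (by omega)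
  -- the closed pair
  have hbe := (h.vals_closed hij hi1 B le_rfl h4 c0 c1 hc a0).al.2
  have hCQ : (CQ i (SS i t)).card = 1 := by
    have h1 := Pn.nj_be5_CQ h hij hi1 t hF
    rw [hbe] at h1
    have : ((CQ i (SS i t)).card : ℤ) = 1 := by linarith
    exact_mod_cast this
  have hcq : 4 ≤ cqs i (SS i t) := by
    unfold cqs
    have h1 : ∀ w ∈ CQ i (SS i t), (4 : ℤ) ≤ envc i (SS i t) w := by
      intro w hw
      have := Pn.nj_env_ge h hij hi1 t h4 hw
      have h2 : (0 : ℤ) ≤ ((Win.SO.chc i (SS i t) w).card : ℤ) := by positivity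
      linarith
    have h2 := sum_le_sum h1
    rw [sum_const, hCQ, one_smul] at h2
    exact h2
  have hn5 : n5 i (SS i t) = 0 := by
    unfold n5
    rw [W1.n5f_small h hij hi1 t (by omega), card_empty]
    rfl
  have hn1 : 0 ≤ n1 i (SS i t) := by
    unfold n1
    positivity
  have hE : (0 : ℤ) ≤ ((Rd.ETs i (SS i t)).card : ℤ) := by positivity
  rcases h.dl_sum hij hi1 B c0 (fun p => shr W93 i p) with ⟨hno, hsum⟩ |
    ⟨p, hp, hpt, hup, -, hsum⟩
  · rw [hsum]
    obtain ⟨-, f1, f2⟩ := h.dt_no_pn hij hi1 t hno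
    have e1 := h.own1_closed hij hi1 B W93 le_rfl h4 c0 c1 hc a0 (q := 2) le_rfl (by
      rintro z (hz | hz)
      · rw [f1] at hz
        exact absurd hz (notMem_empty _)
      · rw [f2] at hz
        exact absurd hz (notMem_empty _))
    have hfa : fa i (SS i t) = 0 := by
      unfold fa
      rw [f1, f2, card_empty]
      norm_num
    have hfm : fm i (SS i t) x 0 = 0 := by
      unfold fm
      rw [f1, f2, filter_empty, card_empty]
      norm_num
    rw [hfa, hfm, hn5, if_neg (by norm_num)] at e1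
    unfold W93 at e1 ⊢
    dsimp only at e1 ⊢
    rw [e1]
    linarith
  · rw [hsum]
    obtain ⟨q, u, hq, hqU, hdq, hdu, h0, hFL, hFU⟩ := h.dt_mat_pn hij hi1 t hF hp hpt hup
    have hnn := h.dl_nn hij hi1 B hp hup hq hqU hdq hdu
    have e1 := h.own1_closed hij hi1 B W93 le_rfl h4 c0 c1 hc a0 (q := 2) le_rfl h0
    have hk := h.dt_fl_kc hij hi1 hp hpt hFL
    have hfu : (FU' i (SS i t)).card ≤ 2 := (card_le_card hFU).trans (uc_card_le H q)
    have hfa : fa i (SS i t) = kc p - (FU' i (SS i t)).card := by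
      unfold fa
      rw [hk]
    have hmt : ¬ Disjoint (uc (x 2)) (se x 0) := by
      rw [disjoint_comm]
      exact (h.meet_se hij hi1 B (l := 0) (k := 2) (by omega) le_rfl).2 ⟨by omega, by omega⟩
    have hfm : fm i (SS i t) x 0 = fa i (SS i t) := by
      unfold fm fa
      rw [filter_true_of_mem, filter_true_of_mem]
      · intro z hz
        rw [h0 z (Or.inr hz)]
        exact hmt
      · intro z hz
        rw [h0 z (Or.inl hz)]
        exact hmt
    have e2 := h.shr_row hij hi1 B W93 h4 (k := 2) le_rfl hup hp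
    rw [near01 x 2 hc, h.dl_Ed hij hi1 B a1, if_pos a0, if_pos a2, if_pos (by simp),
      if_pos (by simp), c0, c1] at e2
    have hEt : (((Et x 2 c).filter (fun l => l ≤ 2 + 1 ∧ 2 ≤ l + 2)).card : ℤ) = 1 := by
      rw [h.dl_Et hij hi1 B c0 c1 a0]
      have : ({0} : Finset ℕ).filter (fun l => l ≤ 2 + 1 ∧ 2 ≤ l + 2) = {0} := by decide
      rw [this, card_singleton]
      norm_num
    rw [hEt] at e2
    obtain ⟨b1, b2, b3, b4, b5⟩ := h.dt_ch_bd hij hi1 hp
    rw [hfm, hn5, if_neg (by norm_num), hfa] at e1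
    rw [hfa] at e2
    have hfu' : ((FU' i (SS i t)).card : ℤ) ≤ 2 := by exact_mod_cast hfu
    have hfu0 : (0 : ℤ) ≤ ((FU' i (SS i t)).card : ℤ) := by positivity
    have key := Dt_arith4 b1 b2 hfu0 hfu' b3 b5 hnn
    unfold W93 at e1 e2 ⊢
    dsimp only at e1 e2 ⊢
    rw [e1, e2]
    linarith

end dl

end Pool.Agent.GaussPoset.Wd

end

/-! From `Pool.Agent.W_448ft_h93.DtD` -/

section

/-!
MP_448cb3_co, G2, case B, window `j - 1`: the rows with three sites and the pattern [DL], one closed end.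
-/

set_option autoImplicit false

namespace Pool.Agent.GaussPoset.Wd

set_option linter.unusedSectionVars false

open Finset Win Win.I2 Win.Rc EK Win.Pn
open Pool.Agent.GaussPoset.Win.SO (F5 mem_F5 N1f N5f CQ envc)

universe u

variable {P : Type u} [Fintype P] [PartialOrder P] [DecidableEq P] {r j i : ℕ}
  {t : Tops P} {lo hi : ℕ → ℕ} {e : ℕ → ℕ → P} {m : ℕ} {x : ℕ → P} {c : ℕ → ℤ} {β : ℤ}
  {S : Finset P} {p q w : P}

section dl

variable (h : NJ P r j) (hij : i + 1 = j) (hi1 : 1 ≤ i)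
include h hij hi1

/-- the environment number of a closed pair is nonnegative -/
lemma NJ.dt_env_nn (t : Tops P) {w : P} (hw : w ∈ CQ i (SS i t)) : 0 ≤ envc i (SS i t) w := by
  obtain ⟨lo, hi, e, C, K⟩ := Pn.nj_cm5 h hij hi1 t
  subst hij
  obtain ⟨b, Bb⟩ := Pn.cl_place K C hw
  rw [Pn.cl_env K C (k := i - 1) (by omega) Bb]
  positivity

variable (B : RowB P j t 2 x c β) (c0 : c 0 = 1) (c1 : c 1 = -1)
include B c0 c1

/-- CLOSED AT THE DOUBLED END -/
theorem NJ.dl_left (a0 : (uc (x 0)).card = 2) (a2 : (uc (x 2)).card = 1) :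
    0 ≤ 2 * own1 W93 i t +
      ∑ p ∈ (PD P i).filter (fun p => (topOf p : Tops P) = t), shr W93 i p := by
  classical
  have a1 := h.dl_mid hij hi1 B
  have hst := h.dl_st hij hi1 B
  rw [a0, a2] at hst
  have h3 : (st i (SS i t)).card ≤ 3 := by omega
  have hc : ∀ k, 2 ≤ k → k < 2 → c k = 0 := fun k h1 h2 => absurd h1 (by omega)
  rcases h.dl_sum hij hi1 B c0 (fun p => shr W93 i p) with ⟨hno, hsum⟩ | ⟨p, -, -, -, h2, -⟩
  · rw [hsum]
    obtain ⟨hF, f1, f2⟩ := h.dt_no_pn hij hi1 t hno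
    have hEd : Ed x 2 = {0} := by
      rw [h.dl_Ed hij hi1 B a1, if_pos a0, if_neg (by omega), union_empty]
    have hEt := h.dl_Et hij hi1 B c0 c1 a0
    have hbal := h.dl_bal hij hi1 B
    rw [hEd, sum_singleton, c0] at hbal
    have htw := h.dl_tws hij hi1 B
    rw [hEt, card_singleton] at htw
    have e3 := Pn.nj_al3 h hij hi1 t hF
    rw [f1, f2, card_empty] at e3
    obtain ⟨e5, e8, e10⟩ := W1.vals_small h hij hi1 t h3
    rw [hF, card_empty, htw] at e5 e8 e10
    have e6 := Pn.nj_Q6 h hij hi1 t hF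
    rw [h.QQ01_none hij hi1 B hc f1 f2, hEd, if_pos (by simp), if_neg (by simp), c0] at e6
    have hs : 0 ≤ ∑ w ∈ CQ i (SS i t), envc i (SS i t) w :=
      sum_nonneg fun w hw => h.dt_env_nn hij hi1 t hw
    have hn1 : (0 : ℤ) ≤ ((N1f i (SS i t)).card : ℤ) := by positivity
    have hn5 : (0 : ℤ) ≤ ((N5f i (SS i t)).card : ℤ) := by positivity
    have g3 : A3 i t = -1 := by
      unfold A3
      rw [e3]
      push_cast
      linarith
    have g5 : B5 i t = -1 := by
      unfold B5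
      rw [e5]
      norm_num
    have g6 : 1 ≤ C6 i t := by
      unfold C6
      rw [e6]
      linarith
    have g8 : C8 i t = 1 := by
      unfold C8
      rw [e8]
      unfold A3 at g3
      rw [g3]
      norm_num
    have g10 : C10 i t = 1 := by
      unfold C10
      rw [e10]
      norm_num
    unfold own1 W93
    dsimp only
    rw [g3, g5, g8, g10]
    linarith
  · omega

/-- closed at the other end: the values without the shares -/
lemma NJ.dl_rvals (a0 : (uc (x 0)).card = 1) (a2 : (uc (x 2)).card = 2)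
    (hF : F5 i (SS i t) = ∅)
    (h0 : ∀ z, z ∈ FL i (SS i t) ∨ z ∈ FU' i (SS i t) → sit i z = uc (x 2)) :
    (1 + fa i (SS i t)) ^ 2 - (1 + fa i (SS i t)) ≤ own1 W93 i t := by
  classical
  have a1 := h.dl_mid hij hi1 B
  have hst := h.dl_st hij hi1 B
  rw [a0, a2] at hst
  have hc : ∀ k, 2 ≤ k → k < 2 → c k = 0 := fun k h1 h2 => absurd h1 (by omega)
  have hEd : Ed x 2 = {1} := by
    rw [h.dl_Ed hij hi1 B a1, if_neg (by omega), if_pos a2, empty_union]
  have hEt := h.dl_Et' hij hi1 B c0 c1 (by omega)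
  have hbal := h.dl_bal hij hi1 B
  rw [hEd, sum_singleton, c1] at hbal
  have htw := h.dl_tws hij hi1 B
  rw [hEt, card_empty] at htw
  have htw' : Tws i (SS i t) = ∅ := by
    rw [← card_eq_zero]
    exact_mod_cast htw
  have e3 := Pn.nj_al3 h hij hi1 t hF
  obtain ⟨-, e5, e6, e8, e10⟩ := W1.vals_open h hij hi1 t htw' hF
  rw [W1.n5f_small h hij hi1 t (by omega), card_empty] at e6 e10
  rw [h.QQ01_pend hij hi1 B hc (q := 2) le_rfl h0, hEd, if_neg (by simp), if_pos (by simp),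
    if_neg (by simp), if_pos (by simp), c1] at e6
  have hn1 : (0 : ℤ) ≤ ((N1f i (SS i t)).card : ℤ) := by positivity
  have g3 : A3 i t = 1 + fa i (SS i t) := by
    unfold A3 fa
    rw [e3]
    linarith
  have g5 : B5 i t = 0 := e5
  have g6 : (1 + fa i (SS i t)) ^ 2 ≤ C6 i t := by
    unfold C6
    rw [e6]
    push_cast
    nlinarith
  have g8 : C8 i t = 0 := e8
  have g10 : C10 i t = 0 := by
    unfold C10
    rw [e10]
    norm_num
  unfold own1 W93
  dsimp only
  rw [g3, g5, g8, g10]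
  linarith

/-- CLOSED AT THE OTHER END, no flip -/
theorem NJ.dl_right (a0 : (uc (x 0)).card = 1) (a2 : (uc (x 2)).card = 2)
    (hF : F5 i (SS i t) = ∅) :
    0 ≤ 2 * own1 W93 i t +
      ∑ p ∈ (PD P i).filter (fun p => (topOf p : Tops P) = t), shr W93 i p := by
  classical
  have H := h.g.H
  have a1 := h.dl_mid hij hi1 B
  have hEd : Ed x 2 = {1} := by
    rw [h.dl_Ed hij hi1 B a1, if_neg (by omega), if_pos a2, empty_union]
  have hEt := h.dl_Et' hij hi1 B c0 c1 (by omega)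
  rcases h.dl_sum hij hi1 B c0 (fun p => shr W93 i p) with ⟨hno, hsum⟩ |
    ⟨p, hp, hpt, hup, -, hsum⟩
  · rw [hsum]
    obtain ⟨-, f1, f2⟩ := h.dt_no_pn hij hi1 t hno
    have e1 := h.dl_rvals hij hi1 B c0 c1 a0 a2 hF (by
      rintro z (hz | hz)
      · rw [f1] at hz
        exact absurd hz (notMem_empty _)
      · rw [f2] at hz
        exact absurd hz (notMem_empty _))
    have hfa : fa i (SS i t) = 0 := by
      unfold fa
      rw [f1, f2, card_empty]
      norm_num
    rw [hfa] at e1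
    linarith
  · rw [hsum]
    obtain ⟨q, u, hq, hqU, hdq, hdu, h0, hFL, hFU⟩ := h.dt_mat_pn hij hi1 t hF hp hpt hup
    have hnn := h.dl_nn hij hi1 B hp hup hq hqU hdq hdu
    have e1 := h.dl_rvals hij hi1 B c0 c1 a0 a2 hF h0
    have hk := h.dt_fl_kc hij hi1 hp hpt hFL
    have hfu : (FU' i (SS i t)).card ≤ 2 := (card_le_card hFU).trans (uc_card_le H q)
    have hfa : fa i (SS i t) = kc p - (FU' i (SS i t)).card := by
      unfold fa
      rw [hk]
    have hsit : sit i p = uc (x 2) := Pn.sit_PDs H hp hup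
    have e5 := Pn.nj_net5 h hij hi1 hp (by rw [hpt]; exact hF)
    have e7 := Pn.nj_net7 h hij hi1 hp
    rw [hpt] at e5 e7
    have hb := h.bal_test hij hi1 B (fun K => ¬ Disjoint K (sit i p))
    have ht := h.tws_test hij hi1 B (fun K => ¬ Disjoint K (sit i p))
    rw [hEd] at hb
    rw [hEt, filter_empty, card_empty] at ht
    have hmt : ¬ Disjoint (se x 1) (sit i p) := by
      rw [hsit]
      exact (h.meet_se hij hi1 B (l := 1) (k := 2) (by omega) le_rfl).2 ⟨by omega, by omega⟩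
    rw [filter_true_of_mem (s := ({1} : Finset ℕ)) (by
      intro l hl
      rw [mem_singleton] at hl
      rw [hl]
      exact hmt), sum_singleton, c1] at hb
    have e5' : Pn.rho i (topOf : P → Tops P) 5 p - A3 i t = -1 - fa i (SS i t) := by
      unfold A3 fa
      rw [e5]
      linarith
    have e7' : Pn.rho i (topOf : P → Tops P) 7 p - B5 i t = 0 := by
      unfold B5
      rw [e7, ht, hF, card_empty]
      norm_num
    obtain ⟨b1, b2, b3, b4, b5⟩ := h.dt_ch_bd hij hi1 hp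
    have e2 : shr W93 i p = 12 * zc i (topOf : P → Tops P) p -
        4 * zc i (topOf : P → Tops P) p * (kc p + nn i p - 3) -
        2 * ∑ z ∈ zs i (topOf : P → Tops P) p, kc z +
        8 * zc i (topOf : P → Tops P) p * (1 + fa i (SS i t)) +
        2 * (zc i (topOf : P → Tops P) p * (zc i (topOf : P → Tops P) p - 1)) := by
      unfold shr
      rw [hpt, e5', e7']
      unfold W93
      dsimp only
      ring
    have hfu' : ((FU' i (SS i t)).card : ℤ) ≤ 2 := by exact_mod_cast hfu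
    have hfu0 : (0 : ℤ) ≤ ((FU' i (SS i t)).card : ℤ) := by positivity
    have key := Dt_arith3 b1 b2 hfu0 hfu' b3 b5 hnn
    rw [hfa] at e1 e2
    rw [e2]
    linarith

end dl

end Pool.Agent.GaussPoset.Wd

end

/-! From `Pool.Agent.W_448ft_h93.DtE` -/

section

/-!
MP_448cb3_co, G2, case B, window `j - 1`: the rows with three sites and the pattern [DL], one closed end,
a flip; the theorem.
-/

set_option autoImplicit false

namespace Pool.Agent.GaussPoset.Wd

set_option linter.unusedSectionVars false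

open Finset Win Win.I2 Win.Rc EK Win.Pn
open Pool.Agent.GaussPoset.Win.SO (F5 mem_F5 N1f N5f CQ envc)
open Pool.Agent.GaussPoset.Win.Pf (Flp)

universe u

variable {P : Type u} [Fintype P] [PartialOrder P] [DecidableEq P] {r j i : ℕ}
  {t : Tops P} {lo hi : ℕ → ℕ} {e : ℕ → ℕ → P} {m : ℕ} {x : ℕ → P} {c : ℕ → ℤ} {β : ℤ}
  {S : Finset P} {p q w : P}

section dl

variable (h : NJ P r j) (hij : i + 1 = j) (hi1 : 1 ≤ i)
  (B : RowB P j t 2 x c β) (c0 : c 0 = 1) (c1 : c 1 = -1)
include h hij hi1 B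

/-- the single near elements of a flip -/
lemma NJ.dl_Sg {y u a s b : P} (F : Flp i (SS i t) p y q u a s b) (hy : y = x 2)
    (a0 : (uc (x 0)).card = 1) : (Pf.Sg i (SS i t) a).card = 0 ∧ (Pf.Sg i (SS i t) b).card = 1 := by
  classical
  subst hij
  subst hy
  have H := h.g.H
  obtain ⟨lo, hi, e, C⟩ := Cp.comp_exists H t.2 h.g.hr h.g.good
  have hm0 := h.dt_x_mem rfl hi1 B (k := 0) (by omega)
  have l0 := B.row.lev_x 0 (by omega)
  -- `x 0` is over `b`
  obtain ⟨v, hv⟩ := card_eq_one.1 a0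
  have hvu : v ∈ uc (x 0) := by rw [hv]; exact mem_singleton_self v
  have lv := lev_uc H hvu
  have hvS : v ∈ st i (SS i t) :=
    mem_st.2 ⟨(Pn.nj_part h rfl t).up hm0 (mem_uc.1 hvu), by omega⟩
  rw [F.st, mem_insert, mem_insert, mem_singleton] at hvS
  have hvb : v = b := by
    rcases hvS with h1 | h1 | h1
    · exfalso
      refine h.dl_dis rfl hi1 B hvu ?_
      rw [F.cy, h1]
      simp
    · exfalso
      refine h.dl_dis rfl hi1 B hvu ?_
      rw [F.cy, h1]
      simp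
    · exact h1
  subst hvb
  have hsg : 1 ≤ (Pf.Sg i (SS i t) v).card :=
    card_pos.2 ⟨x 0, Pf.mem_Sg.2 ⟨hm0, Or.inl ⟨l0, hv⟩⟩⟩
  obtain ⟨hlen, -⟩ := B.orient h (by omega) C
  obtain ⟨-, g1, -, -, -, g2 | g2⟩ := Pf.nj_flip_narrow h rfl hi1 t C F
  · obtain ⟨-, -, g3, g4, -⟩ := g2
    rw [g3] at hsg ⊢
    rw [g4]
    by_cases h1 : lo (i + 1) = lo i
    · rw [if_pos h1, if_neg (by omega)]
      exact ⟨rfl, rfl⟩
    · rw [if_neg h1] at hsg
      omega
  · obtain ⟨-, -, g3, g4, -⟩ := g2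
    rw [g3] at hsg ⊢
    rw [g4]
    by_cases h1 : hi (i + 1) = hi i + 1
    · rw [if_pos h1, if_neg (by omega)]
      exact ⟨rfl, rfl⟩
    · rw [if_neg h1] at hsg
      omega

include c0 c1

/-- CLOSED AT THE OTHER END, a flip -/
theorem NJ.dl_flip (a0 : (uc (x 0)).card = 1) (a2 : (uc (x 2)).card = 2)
    (hF : F5 i (SS i t) ≠ ∅) :
    -4 ≤ 2 * own1 W93 i t +
      ∑ p ∈ (PD P i).filter (fun p => (topOf p : Tops P) = t), shr W93 i p := by
  classical
  have H := h.g.H
  have a1 := h.dl_mid hij hi1 B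
  obtain ⟨⟨p, q⟩, hpq⟩ := nonempty_iff_ne_empty.2 hF
  obtain ⟨y, u, a, s, b, F⟩ := Pf.nj_flp h hij hi1 t hpq
  obtain ⟨f1, f2, f3, f4, -⟩ := mem_F5.1 hpq
  have hp : p ∈ PD P i := f2
  have hpt : (topOf p : Tops P) = t := by
    have l := (mem_PD.1 hp).1
    have hz : p ∈ SS i t := f1
    rw [h.mem (by omega) t (by omega)] at hz
    exact Subtype.ext (Hul.top_unique (h.nj (by omega)) (topOf p).2 t.2 (le_topOf p) hz)
  obtain ⟨hup, -⟩ := h.dl_pd hij hi1 B c0 hp hpt
  have hy : y = x 2 := by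
    have h1 := F.cp
    rw [hup] at h1
    exact (singleton_injective h1).symm
  obtain ⟨sa, sb⟩ := h.dl_Sg hij hi1 B F hy a0
  have hsum : ∑ p ∈ (PD P i).filter (fun p => (topOf p : Tops P) = t), shr W93 i p =
      shr W93 i p := by
    rcases h.dl_sum hij hi1 B c0 (fun p => shr W93 i p) with ⟨hno, -⟩ |
      ⟨p', hp', hpt', -, -, hsum⟩
    · exact absurd hpt (hno p hp)
    · rw [hsum, Pn.nj_hone h hij hi1 p' hp' p hp (hpt'.trans hpt.symm)]
  rw [hsum]
  -- the values
  have hbal := h.dl_bal hij hi1 B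
  have hEd : Ed x 2 = {1} := by
    rw [h.dl_Ed hij hi1 B a1, if_neg (by omega), if_pos a2, empty_union]
  rw [hEd, sum_singleton, c1] at hbal
  have hpC : p ∈ SS i t := f1
  obtain ⟨psi, hM⟩ := good_mat h.g.H (h.g.good i (by omega))
  have Q := Pf.nj_pso h hij hi1 hM t
  have hFL := Pf.FL_eq Q F
  have hFUe := Pf.FU_eq Q F
  have hkc : ((FL i (SS i t)).card : ℤ) = kc p := by
    rw [hFL, Pf.nj_kc h hij hi1 t hpC (mem_PD.1 hp).1]
  have hfu : (FU' i (SS i t)).card ≤ 2 := by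
    have h1 : FU' i (SS i t) ⊆ uc q := by
      intro w hw
      rw [hFUe, mem_FUp] at hw
      rw [mem_uc, ← mem_dc, hw.2]
      exact mem_singleton_self q
    exact (card_le_card h1).trans (uc_card_le H q)
  have e3 := Pf.nj_flip_al3 h hij hi1 t F
  have g3 : A3 i t = kc p - (FU' i (SS i t)).card := by
    unfold A3
    rw [e3, sa, sb, hkc]
    push_cast
    linarith
  have e1 := Pf.nj_flip_own h hij hi1 W93 t F
  rw [own_eq] at e1
  have e1' : own1 W93 i t = W93.a3 * A3 i t - W93.a5 + W93.a6 * (A3 i t ^ 2 + 4 +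
      2 * ((N1f i (SS i t)).card + (FL i (SS i t)).card + (FU' i (SS i t)).card +
          (Pf.Sg i (SS i t) a).card + (Pf.Sg i (SS i t) b).card)) - W93.a8 * A3 i t + W93.a10 := by
    unfold own2 at e1
    linarith
  have hn1 : (0 : ℤ) ≤ ((N1f i (SS i t)).card : ℤ) := by positivity
  have F' : Flp i (SS i (topOf p)) p y q u a s b := by rw [hpt]; exact F
  have e2 := Pf.nj_flip_shr h hij hi1 W93 F'
  rw [hpt, sa, hkc, g3] at e2
  rw [sa, sb, hkc, g3] at e1'
  obtain ⟨b1, b2, b3, b4, b5⟩ := h.dt_ch_bd hij hi1 hp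
  have hfu' : ((FU' i (SS i t)).card : ℤ) ≤ 2 := by exact_mod_cast hfu
  have hfu0 : (0 : ℤ) ≤ ((FU' i (SS i t)).card : ℤ) := by positivity
  have key := Dt_arithF b1 b2 hfu0 hfu' b3 b5
  unfold W93 at e1' e2 ⊢
  dsimp only at e1' e2 ⊢
  push_cast at e1' e2
  rw [e1', e2]
  linarith

/-- THE WINDOW `j - 1` OF THE PATTERN [DL] WITH THREE SITES, exactly one end closed -/
theorem NJ.dl_V1 (ha : (uc (x 0)).card + (uc (x 2)).card = 3) :
    -5 ≤ 2 * own1 W93 i t +
      ∑ p ∈ (PD P i).filter (fun p => (topOf p : Tops P) = t), shr W93 i p := by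
  obtain ⟨-, -, hk⟩ := h.inner hij hi1 B
  rcases hk 0 (by omega) with h0 | h0
  · have a2 : (uc (x 2)).card = 2 := by omega
    by_cases hF : F5 i (SS i t) = ∅
    · have := h.dl_right hij hi1 B c0 c1 h0 a2 hF
      linarith
    · have := h.dl_flip hij hi1 B c0 c1 h0 a2 hF
      linarith
  · have := h.dl_left hij hi1 B c0 c1 h0 (by omega)
    linarith

/-- THE WINDOW `j - 1` OF THE PATTERN [DL] WITH THREE SITES, at least one end closed -/
theorem NJ.dl_closed (ha : ¬ ((uc (x 0)).card = 1 ∧ (uc (x 2)).card = 1)) :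
    -12 ≤ 2 * own1 (⟨-1, 9, 1, 4, 3, -1, 2, 13, 0⟩ : Wt) i t +
      ∑ p ∈ (PD P i).filter (fun p => (topOf p : Tops P) = t),
        shr (⟨-1, 9, 1, 4, 3, -1, 2, 13, 0⟩ : Wt) i p := by
  obtain ⟨-, -, hk⟩ := h.inner hij hi1 B
  by_cases h4 : (uc (x 0)).card = 2 ∧ (uc (x 2)).card = 2
  · exact h.dl_four hij hi1 B c0 c1 h4.1 h4.2
  · have h5 : (uc (x 0)).card + (uc (x 2)).card = 3 := by
      rcases hk 0 (by omega) with h0 | h0 <;> rcases hk 2 (by omega) with h2 | h2
      · exact absurd ⟨h0, h2⟩ ha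
      · omega
      · omega
      · exact absurd ⟨h0, h2⟩ h4
    have := h.dl_V1 hij hi1 B c0 c1 h5
    unfold W93 at this
    linarith

end dl

end Pool.Agent.GaussPoset.Wd

end

/-! From `Pool.Agent.W_448e_h22.WeA` -/

section

/-!
MP_448cb3_co, G2, case B, STEP 0 at the level 8: the window `j - 1` of the rows with three sites and the
pattern [DL], at least one end closed; the functional `⟨-1, a, 1, 2, 1, 1, 1, 6, 2⟩`.  helper22.
-/

set_option autoImplicit false

namespace Pool.Agent.GaussPoset.Wd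

set_option linter.unusedSectionVars false

open Finset Win Win.I2 Win.Rc EK Win.Pn
open Pool.Agent.GaussPoset.Win.SO (F5 mem_F5 N1f N5f CQ envc)
open Pool.Agent.GaussPoset.Win.Pf (Flp)

universe u

variable {P : Type u} [Fintype P] [PartialOrder P] [DecidableEq P] {r j i : ℕ}
  {t : Tops P} {lo hi : ℕ → ℕ} {e : ℕ → ℕ → P} {m : ℕ} {x : ℕ → P} {c : ℕ → ℤ} {β : ℤ}
  {S : Finset P} {p q w : P} {a : ℤ}

/-- the weights of step 0 at the level 8, with the weight `a` of (5,2) -/
def Wa (a : ℤ) : Wt := ⟨-1, a, 1, 2, 1, 1, 1, 6, 2⟩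

/-- the contribution of the window `j - 1` -/
noncomputable def V1a (a : ℤ) (i : ℕ) (t : Tops P) : ℤ :=
  2 * own1 (Wa a) i t +
    ∑ p ∈ (PD P i).filter (fun p => (topOf p : Tops P) = t), shr (Wa a) i p

lemma We_arith4 {z k f s n : ℤ} (ha : 7 ≤ a) (z0 : 0 ≤ z) (k0 : 0 ≤ k) (f0 : 0 ≤ f) (f2 : f ≤ 2)
    (zk : z + k ≤ 2) (hs : s ≤ 2 * z) (hn : n ≤ 4) :
    10 - 2 * a ≤ 2 * ((k - f) ^ 2 - 3 * (k - f) + 9 - a) + (z * (a + 1) - 4 * z * (k + n - 3) -
      2 * s + 4 * z * (k - f) - 4 * z) := by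
  have z2 : z ≤ 2 := by linarith
  have k2 : k ≤ 2 := by linarith
  interval_cases z <;> interval_cases k <;> interval_cases f <;> linarith

lemma We_arith3 {z k f s n : ℤ} (ha : 7 ≤ a) (z0 : 0 ≤ z) (k0 : 0 ≤ k) (f0 : 0 ≤ f) (f2 : f ≤ 2)
    (zk : z + k ≤ 2) (hs : s ≤ 2 * z) (hn : n ≤ 4) :
    -4 ≤ 2 * ((1 + (k - f)) ^ 2 - (1 + (k - f))) + (z * (a + 1) - 4 * z * (k + n - 3) - 2 * s +
      4 * z * (1 + (k - f))) := by
  have z2 : z ≤ 2 := by linarith
  have k2 : k ≤ 2 := by linarith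
  interval_cases z <;> interval_cases k <;> interval_cases f <;> linarith

lemma We_arithF {z k f s : ℤ} (ha : 7 ≤ a) (z0 : 0 ≤ z) (k0 : 0 ≤ k) (f0 : 0 ≤ f) (f2 : f ≤ 2)
    (zk : z + k ≤ 2) (hs : s ≤ 2 * z) :
    14 - 2 * a ≤ 2 * ((k - f) ^ 2 - 3 * (k - f) + 7 - a + 2 * (k + f)) + (z * (a + 1) -
      4 * z * (k + 1) - 2 * s + 4 * z * (1 + (k - f)) - 4 * z) := by
  have z2 : z ≤ 2 := by linarith
  have k2 : k ≤ 2 := by linarith
  interval_cases z <;> interval_cases k <;> interval_cases f <;> linarith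

section dl

variable (h : NJ P r j) (hij : i + 1 = j) (hi1 : 1 ≤ i) (B : RowB P j t 2 x c β)
  (c0 : c 0 = 1) (c1 : c 1 = -1)
include h hij hi1 B c0 c1

/-- BOTH ENDS CLOSED -/
theorem NJ.we_four (ha : 7 ≤ a) (a0 : (uc (x 0)).card = 2) (a2 : (uc (x 2)).card = 2) :
    10 - 2 * a ≤ V1a a i t := by
  classical
  have H := h.g.H
  have a1 := h.dl_mid hij hi1 B
  have hst := h.dl_st hij hi1 B
  rw [a0, a2] at hst
  have h4 : 4 ≤ (st i (SS i t)).card := by omega
  have hc : ∀ k, 2 ≤ k → k < 2 → c k = 0 := fun k h1 h2 => absurd h1 (by omega)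
  have hF : F5 i (SS i t) = ∅ := Pn.nj_F5_three h hij hi1 t (by omega)
  -- the closed pair
  have hbe := (h.vals_closed hij hi1 B le_rfl h4 c0 c1 hc a0).al.2
  have hCQ : (CQ i (SS i t)).card = 1 := by
    have h1 := Pn.nj_be5_CQ h hij hi1 t hF
    rw [hbe] at h1
    have : ((CQ i (SS i t)).card : ℤ) = 1 := by linarith
    exact_mod_cast this
  have hcq : 4 ≤ cqs i (SS i t) := by
    unfold cqs
    have h1 : ∀ w ∈ CQ i (SS i t), (4 : ℤ) ≤ envc i (SS i t) w := by
      intro w hw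
      have := Pn.nj_env_ge h hij hi1 t h4 hw
      have h2 : (0 : ℤ) ≤ ((Win.SO.chc i (SS i t) w).card : ℤ) := by positivity
      linarith
    have h2 := sum_le_sum h1
    rw [sum_const, hCQ, one_smul] at h2
    exact h2
  have hn5 : n5 i (SS i t) = 0 := by
    unfold n5
    rw [W1.n5f_small h hij hi1 t (by omega), card_empty]
    rfl
  have hn1 : 0 ≤ n1 i (SS i t) := by
    unfold n1
    positivity
  have hE : (0 : ℤ) ≤ ((Rd.ETs i (SS i t)).card : ℤ) := by positivity
  unfold V1a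
  rcases h.dl_sum hij hi1 B c0 (fun p => shr (Wa a) i p) with ⟨hno, hsum⟩ |
    ⟨p, hp, hpt, hup, -, hsum⟩
  · rw [hsum]
    obtain ⟨-, f1, f2⟩ := h.dt_no_pn hij hi1 t hno
    have e1 := h.own1_closed hij hi1 B (Wa a) le_rfl h4 c0 c1 hc a0 (q := 2) le_rfl (by
      rintro z (hz | hz)
      · rw [f1] at hz
        exact absurd hz (notMem_empty _)
      · rw [f2] at hz
        exact absurd hz (notMem_empty _))
    have hfa : fa i (SS i t) = 0 := by
      unfold fa
      rw [f1, f2, card_empty]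
      norm_num
    have hfm : fm i (SS i t) x 0 = 0 := by
      unfold fm
      rw [f1, f2, filter_empty, card_empty]
      norm_num
    rw [hfa, hfm, hn5, if_neg (by norm_num)] at e1
    unfold Wa at e1 ⊢
    dsimp only at e1 ⊢
    rw [e1]
    linarith
  · rw [hsum]
    obtain ⟨q, u, hq, hqU, hdq, hdu, h0, hFL, hFU⟩ := h.dt_mat_pn hij hi1 t hF hp hpt hup
    have hnn := h.dl_nn hij hi1 B hp hup hq hqU hdq hdu
    have e1 := h.own1_closed hij hi1 B (Wa a) le_rfl h4 c0 c1 hc a0 (q := 2) le_rfl h0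
    have hk := h.dt_fl_kc hij hi1 hp hpt hFL
    have hfu : (FU' i (SS i t)).card ≤ 2 := (card_le_card hFU).trans (uc_card_le H q)
    have hfa : fa i (SS i t) = kc p - (FU' i (SS i t)).card := by
      unfold fa
      rw [hk]
    have hmt : ¬ Disjoint (uc (x 2)) (se x 0) := by
      rw [disjoint_comm]
      exact (h.meet_se hij hi1 B (l := 0) (k := 2) (by omega) le_rfl).2 ⟨by omega, by omega⟩
    have hfm : fm i (SS i t) x 0 = fa i (SS i t) := by
      unfold fm fa
      rw [filter_true_of_mem, filter_true_of_mem]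
      · intro z hz
        rw [h0 z (Or.inr hz)]
        exact hmt
      · intro z hz
        rw [h0 z (Or.inl hz)]
        exact hmt
    have e2 := h.shr_row hij hi1 B (Wa a) h4 (k := 2) le_rfl hup hp
    rw [near01 x 2 hc, h.dl_Ed hij hi1 B a1, if_pos a0, if_pos a2, if_pos (by simp),
      if_pos (by simp), c0, c1] at e2
    have hEt : (((Et x 2 c).filter (fun l => l ≤ 2 + 1 ∧ 2 ≤ l + 2)).card : ℤ) = 1 := by
      rw [h.dl_Et hij hi1 B c0 c1 a0]
      have : ({0} : Finset ℕ).filter (fun l => l ≤ 2 + 1 ∧ 2 ≤ l + 2) = {0} := by decide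
      rw [this, card_singleton]
      norm_num
    rw [hEt] at e2
    obtain ⟨b1, b2, b3, b4, b5⟩ := h.dt_ch_bd hij hi1 hp
    rw [hfm, hn5, if_neg (by norm_num), hfa] at e1
    rw [hfa] at e2
    have hfu' : ((FU' i (SS i t)).card : ℤ) ≤ 2 := by exact_mod_cast hfu
    have hfu0 : (0 : ℤ) ≤ ((FU' i (SS i t)).card : ℤ) := by positivity
    have key := We_arith4 ha b1 b2 hfu0 hfu' b3 b5 hnn
    unfold Wa at e1 e2 ⊢
    dsimp only at e1 e2 ⊢
    rw [e1, e2]
    linarith

/-- CLOSED AT THE DOUBLED END -/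
theorem NJ.we_left (a0 : (uc (x 0)).card = 2) (a2 : (uc (x 2)).card = 1) :
    10 - 2 * a ≤ V1a a i t := by
  classical
  have a1 := h.dl_mid hij hi1 B
  have hst := h.dl_st hij hi1 B
  rw [a0, a2] at hst
  have h3 : (st i (SS i t)).card ≤ 3 := by omega
  have hc : ∀ k, 2 ≤ k → k < 2 → c k = 0 := fun k h1 h2 => absurd h1 (by omega)
  unfold V1a
  rcases h.dl_sum hij hi1 B c0 (fun p => shr (Wa a) i p) with ⟨hno, hsum⟩ | ⟨p, -, -, -, h2, -⟩
  · rw [hsum]
    obtain ⟨hF, f1, f2⟩ := h.dt_no_pn hij hi1 t hno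
    have hEd : Ed x 2 = {0} := by
      rw [h.dl_Ed hij hi1 B a1, if_pos a0, if_neg (by omega), union_empty]
    have hEt := h.dl_Et hij hi1 B c0 c1 a0
    have hbal := h.dl_bal hij hi1 B
    rw [hEd, sum_singleton, c0] at hbal
    have htw := h.dl_tws hij hi1 B
    rw [hEt, card_singleton] at htw
    have e3 := Pn.nj_al3 h hij hi1 t hF
    rw [f1, f2, card_empty] at e3
    obtain ⟨e5, e8, e10⟩ := W1.vals_small h hij hi1 t h3
    rw [hF, card_empty, htw] at e5 e8 e10
    have e6 := Pn.nj_Q6 h hij hi1 t hF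
    rw [h.QQ01_none hij hi1 B hc f1 f2, hEd, if_pos (by simp), if_neg (by simp), c0] at e6
    have hs : 0 ≤ ∑ w ∈ CQ i (SS i t), envc i (SS i t) w :=
      sum_nonneg fun w hw => h.dt_env_nn hij hi1 t hw
    have hn1 : (0 : ℤ) ≤ ((N1f i (SS i t)).card : ℤ) := by positivity
    have hn5 : (0 : ℤ) ≤ ((N5f i (SS i t)).card : ℤ) := by positivity
    have g3 : A3 i t = -1 := by
      unfold A3
      rw [e3]
      push_cast
      linarith
    have g5 : B5 i t = -1 := by
      unfold B5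
      rw [e5]
      norm_num
    have g6 : 1 ≤ C6 i t := by
      unfold C6
      rw [e6]
      linarith
    have g8 : C8 i t = 1 := by
      unfold C8
      rw [e8]
      unfold A3 at g3
      rw [g3]
      norm_num
    have g10 : C10 i t = 1 := by
      unfold C10
      rw [e10]
      norm_num
    unfold own1 Wa
    dsimp only
    rw [g3, g5, g8, g10]
    linarith
  · omega

/-- closed at the other end: the values without the shares -/
lemma NJ.we_rvals (a0 : (uc (x 0)).card = 1) (a2 : (uc (x 2)).card = 2)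
    (hF : F5 i (SS i t) = ∅)
    (h0 : ∀ z, z ∈ FL i (SS i t) ∨ z ∈ FU' i (SS i t) → sit i z = uc (x 2)) :
    (1 + fa i (SS i t)) ^ 2 - (1 + fa i (SS i t)) ≤ own1 (Wa a) i t := by
  classical
  have a1 := h.dl_mid hij hi1 B
  have hst := h.dl_st hij hi1 B
  rw [a0, a2] at hst
  have hc : ∀ k, 2 ≤ k → k < 2 → c k = 0 := fun k h1 h2 => absurd h1 (by omega)
  have hEd : Ed x 2 = {1} := by
    rw [h.dl_Ed hij hi1 B a1, if_neg (by omega), if_pos a2, empty_union]
  have hEt := h.dl_Et' hij hi1 B c0 c1 (by omega)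
  have hbal := h.dl_bal hij hi1 B
  rw [hEd, sum_singleton, c1] at hbal
  have htw := h.dl_tws hij hi1 B
  rw [hEt, card_empty] at htw
  have htw' : Tws i (SS i t) = ∅ := by
    rw [← card_eq_zero]
    exact_mod_cast htw
  have e3 := Pn.nj_al3 h hij hi1 t hF
  obtain ⟨-, e5, e6, e8, e10⟩ := W1.vals_open h hij hi1 t htw' hF
  rw [W1.n5f_small h hij hi1 t (by omega), card_empty] at e6 e10
  rw [h.QQ01_pend hij hi1 B hc (q := 2) le_rfl h0, hEd, if_neg (by simp), if_pos (by simp),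
    if_neg (by simp), if_pos (by simp), c1] at e6
  have hn1 : (0 : ℤ) ≤ ((N1f i (SS i t)).card : ℤ) := by positivity
  have g3 : A3 i t = 1 + fa i (SS i t) := by
    unfold A3 fa
    rw [e3]
    linarith
  have g5 : B5 i t = 0 := e5
  have g6 : (1 + fa i (SS i t)) ^ 2 ≤ C6 i t := by
    unfold C6
    rw [e6]
    push_cast
    nlinarith
  have g8 : C8 i t = 0 := e8
  have g10 : C10 i t = 0 := by
    unfold C10
    rw [e10]
    norm_num
  unfold own1 Wa
  dsimp only
  rw [g3, g5, g8, g10]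
  linarith

/-- CLOSED AT THE OTHER END, no flip -/
theorem NJ.we_right (ha : 7 ≤ a) (a0 : (uc (x 0)).card = 1) (a2 : (uc (x 2)).card = 2)
    (hF : F5 i (SS i t) = ∅) : -4 ≤ V1a a i t := by
  classical
  have H := h.g.H
  have a1 := h.dl_mid hij hi1 B
  have hEd : Ed x 2 = {1} := by
    rw [h.dl_Ed hij hi1 B a1, if_neg (by omega), if_pos a2, empty_union]
  have hEt := h.dl_Et' hij hi1 B c0 c1 (by omega)
  unfold V1a
  rcases h.dl_sum hij hi1 B c0 (fun p => shr (Wa a) i p) with ⟨hno, hsum⟩ |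
    ⟨p, hp, hpt, hup, -, hsum⟩
  · rw [hsum]
    obtain ⟨-, f1, f2⟩ := h.dt_no_pn hij hi1 t hno
    have e1 := h.we_rvals (a := a) hij hi1 B c0 c1 a0 a2 hF (by
      rintro z (hz | hz)
      · rw [f1] at hz
        exact absurd hz (notMem_empty _)
      · rw [f2] at hz
        exact absurd hz (notMem_empty _))
    have hfa : fa i (SS i t) = 0 := by
      unfold fa
      rw [f1, f2, card_empty]
      norm_num
    rw [hfa] at e1
    linarith
  · rw [hsum]
    obtain ⟨q, u, hq, hqU, hdq, hdu, h0, hFL, hFU⟩ := h.dt_mat_pn hij hi1 t hF hp hpt hup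
    have hnn := h.dl_nn hij hi1 B hp hup hq hqU hdq hdu
    have e1 := h.we_rvals (a := a) hij hi1 B c0 c1 a0 a2 hF h0
    have hk := h.dt_fl_kc hij hi1 hp hpt hFL
    have hfu : (FU' i (SS i t)).card ≤ 2 := (card_le_card hFU).trans (uc_card_le H q)
    have hfa : fa i (SS i t) = kc p - (FU' i (SS i t)).card := by
      unfold fa
      rw [hk]
    have hsit : sit i p = uc (x 2) := Pn.sit_PDs H hp hup
    have e5 := Pn.nj_net5 h hij hi1 hp (by rw [hpt]; exact hF)
    have e7 := Pn.nj_net7 h hij hi1 hp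
    rw [hpt] at e5 e7
    have hb := h.bal_test hij hi1 B (fun K => ¬ Disjoint K (sit i p))
    have ht := h.tws_test hij hi1 B (fun K => ¬ Disjoint K (sit i p))
    rw [hEd] at hb
    rw [hEt, filter_empty, card_empty] at ht
    have hmt : ¬ Disjoint (se x 1) (sit i p) := by
      rw [hsit]
      exact (h.meet_se hij hi1 B (l := 1) (k := 2) (by omega) le_rfl).2 ⟨by omega, by omega⟩
    rw [filter_true_of_mem (s := ({1} : Finset ℕ)) (by
      intro l hl
      rw [mem_singleton] at hl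
      rw [hl]
      exact hmt), sum_singleton, c1] at hb
    have e5' : Pn.rho i (topOf : P → Tops P) 5 p - A3 i t = -1 - fa i (SS i t) := by
      unfold A3 fa
      rw [e5]
      linarith
    have e7' : Pn.rho i (topOf : P → Tops P) 7 p - B5 i t = 0 := by
      unfold B5
      rw [e7, ht, hF, card_empty]
      norm_num
    obtain ⟨b1, b2, b3, b4, b5⟩ := h.dt_ch_bd hij hi1 hp
    have e2 : shr (Wa a) i p = zc i (topOf : P → Tops P) p * (a + 1) -
        4 * zc i (topOf : P → Tops P) p * (kc p + nn i p - 3) -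
        2 * ∑ z ∈ zs i (topOf : P → Tops P) p, kc z +
        4 * zc i (topOf : P → Tops P) p * (1 + fa i (SS i t)) := by
      unfold shr
      rw [hpt, e5', e7']
      unfold Wa
      dsimp only
      ring
    have hfu' : ((FU' i (SS i t)).card : ℤ) ≤ 2 := by exact_mod_cast hfu
    have hfu0 : (0 : ℤ) ≤ ((FU' i (SS i t)).card : ℤ) := by positivity
    have key := We_arith3 ha b1 b2 hfu0 hfu' b3 b5 hnn
    rw [hfa] at e1 e2
    rw [e2]
    linarith

/-- CLOSED AT THE OTHER END, a flip -/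
theorem NJ.we_flip (ha : 7 ≤ a) (a0 : (uc (x 0)).card = 1) (a2 : (uc (x 2)).card = 2)
    (hF : F5 i (SS i t) ≠ ∅) : 14 - 2 * a ≤ V1a a i t := by
  classical
  have H := h.g.H
  have a1 := h.dl_mid hij hi1 B
  obtain ⟨⟨p, q⟩, hpq⟩ := nonempty_iff_ne_empty.2 hF
  obtain ⟨y, u, z', s, b, F⟩ := Pf.nj_flp h hij hi1 t hpq
  obtain ⟨f1, f2, f3, f4, -⟩ := mem_F5.1 hpq
  have hp : p ∈ PD P i := f2
  have hpt : (topOf p : Tops P) = t := by
    have l := (mem_PD.1 hp).1
    have hz : p ∈ SS i t := f1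
    rw [h.mem (by omega) t (by omega)] at hz
    exact Subtype.ext (Hul.top_unique (h.nj (by omega)) (topOf p).2 t.2 (le_topOf p) hz)
  obtain ⟨hup, -⟩ := h.dl_pd hij hi1 B c0 hp hpt
  have hy : y = x 2 := by
    have h1 := F.cp
    rw [hup] at h1
    exact (singleton_injective h1).symm
  obtain ⟨sa, sb⟩ := h.dl_Sg hij hi1 B F hy a0
  have hsum : ∑ p ∈ (PD P i).filter (fun p => (topOf p : Tops P) = t), shr (Wa a) i p =
      shr (Wa a) i p := by
    rcases h.dl_sum hij hi1 B c0 (fun p => shr (Wa a) i p) with ⟨hno, -⟩ |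
      ⟨p', hp', hpt', -, -, hsum⟩
    · exact absurd hpt (hno p hp)
    · rw [hsum, Pn.nj_hone h hij hi1 p' hp' p hp (hpt'.trans hpt.symm)]
  unfold V1a
  rw [hsum]
  -- the values
  have hbal := h.dl_bal hij hi1 B
  have hEd : Ed x 2 = {1} := by
    rw [h.dl_Ed hij hi1 B a1, if_neg (by omega), if_pos a2, empty_union]
  rw [hEd, sum_singleton, c1] at hbal
  have hpC : p ∈ SS i t := f1
  obtain ⟨psi, hM⟩ := good_mat h.g.H (h.g.good i (by omega))
  have Q := Pf.nj_pso h hij hi1 hM t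
  have hFL := Pf.FL_eq Q F
  have hFUe := Pf.FU_eq Q F
  have hkc : ((FL i (SS i t)).card : ℤ) = kc p := by
    rw [hFL, Pf.nj_kc h hij hi1 t hpC (mem_PD.1 hp).1]
  have hfu : (FU' i (SS i t)).card ≤ 2 := by
    have h1 : FU' i (SS i t) ⊆ uc q := by
      intro w hw
      rw [hFUe, mem_FUp] at hw
      rw [mem_uc, ← mem_dc, hw.2]
      exact mem_singleton_self q
    exact (card_le_card h1).trans (uc_card_le H q)
  have e3 := Pf.nj_flip_al3 h hij hi1 t F
  have g3 : A3 i t = kc p - (FU' i (SS i t)).card := by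
    unfold A3
    rw [e3, sa, sb, hkc]
    push_cast
    linarith
  have e1 := Pf.nj_flip_own h hij hi1 (Wa a) t F
  rw [own_eq] at e1
  have e1' : own1 (Wa a) i t = (Wa a).a3 * A3 i t - (Wa a).a5 + (Wa a).a6 * (A3 i t ^ 2 + 4 +
      2 * ((N1f i (SS i t)).card + (FL i (SS i t)).card + (FU' i (SS i t)).card +
          (Pf.Sg i (SS i t) z').card + (Pf.Sg i (SS i t) b).card)) - (Wa a).a8 * A3 i t +
        (Wa a).a10 := by
    unfold own2 at e1
    linarith
  have hn1 : (0 : ℤ) ≤ ((N1f i (SS i t)).card : ℤ) := by positivity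
  have F' : Flp i (SS i (topOf p)) p y q u z' s b := by rw [hpt]; exact F
  have e2 := Pf.nj_flip_shr h hij hi1 (Wa a) F'
  rw [hpt, sa, hkc, g3] at e2
  rw [sa, sb, hkc, g3] at e1'
  obtain ⟨b1, b2, b3, b4, b5⟩ := h.dt_ch_bd hij hi1 hp
  have hfu' : ((FU' i (SS i t)).card : ℤ) ≤ 2 := by exact_mod_cast hfu
  have hfu0 : (0 : ℤ) ≤ ((FU' i (SS i t)).card : ℤ) := by positivity
  have key := We_arithF ha b1 b2 hfu0 hfu' b3 b5
  unfold Wa at e1' e2 ⊢
  dsimp only at e1' e2 ⊢
  push_cast at e1' e2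
  rw [e1', e2]
  linarith

/-- THE WINDOW `j - 1` OF THE PATTERN [DL] WITH THREE SITES, at least one end closed -/
theorem NJ.we_closed (ha : 7 ≤ a) (hu : ¬ ((uc (x 0)).card = 1 ∧ (uc (x 2)).card = 1)) :
    10 - 2 * a ≤ V1a a i t := by
  obtain ⟨-, -, hk⟩ := h.inner hij hi1 B
  rcases hk 0 (by omega) with h0 | h0
  · have a2 : (uc (x 2)).card = 2 := by
      rcases hk 2 (by omega) with h2 | h2
      · exact absurd ⟨h0, h2⟩ hu
      · exact h2
    by_cases hF : F5 i (SS i t) = ∅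
    · have := h.we_right hij hi1 B c0 c1 ha h0 a2 hF
      linarith
    · have := h.we_flip hij hi1 B c0 c1 ha h0 a2 hF
      linarith
  · rcases hk 2 (by omega) with h2 | h2
    · exact h.we_left hij hi1 B c0 c1 h0 h2
    · exact h.we_four hij hi1 B c0 c1 ha h0 h2

end dl

end Pool.Agent.GaussPoset.Wd

end
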