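import Mathlib
import Pool.Agent.W_448zz_h61.Ns
import Pool.Agent.W_448zz_h61.M225
import Pool.Agent.W_448zz_h61.M258
import Pool.Agent.W_448zz_h61.M267

/-! From `Pool.Agent.W_448p_h97.PbW` -/

section

/-!
MP_448cb3_co, G2, case B, window `j`: the row data of a component with two stars of the row
classification.  helper97.
-/

namespace Pool.Agent.GaussPoset.Win.Pb

set_option linter.unusedSectionVars false

open Finset W4 Pa
open Pool.Agent.GaussPoset.Win.SO (PN vp con on mem_PN vp_PD vp_PU)
open Pool.Agent.GaussPoset.EK (Red RowB Row Pat6)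
open Pool.Agent.GaussPoset.St
open Pool.Agent.GaussPoset.Wd (NJ)

universe u

variable {P : Type u} [Fintype P] [PartialOrder P] [DecidableEq P] {r i j : ℕ}
variable {m : ℕ} {x : ℕ → P} {c : ℕ → ℤ} {β : ℤ} {t : Tops P}
variable {psi : P → P} {C K : Finset P} {w v w' v' : P}

lemma dl_NE {k : ℕ} : dl i C x k = NE i C x k := by
  rw [NE_eq]
  unfold dl chi' ed
  rw [sum_filter]
  exact sum_congr rfl fun p _ => by split_ifs <;> ring

section main

variable (h : NJ P r j) (B : RowB P j t m x c β) (hp : Pat6 m c β)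

include h B hp

/-- the lower doubles over the pairs of sites -/
lemma pat6_dcv (k l : ℕ) (hkl : k < l) (hl : l ≤ m) :
    dcv (x k) (x l) = if l = k + 1 then dk m k else 0 := by
  obtain ⟨hm, hb, c0, c1, c2, c3, c4⟩ := id hp
  have h1 := B.row.df k l hkl hl
  rw [Df_pair h.g.H (B.row.lev_x k (by omega))
    (paM_ne h B hp (by omega) hl (by omega)), B.ucv_x k l hkl hl] at h1
  by_cases e : l = k + 1
  · rw [if_pos e] at h1 ⊢
    rw [if_pos e] at h1
    push_cast at h1
    unfold dk
    by_cases e1 : k = 0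
    · rw [if_pos (Or.inl e1)]
      rw [e1, c0] at h1
      rw [e1]
      omega
    · by_cases e2 : k + 1 = m
      · rw [if_pos (Or.inr e2)]
        have : k = m - 1 := by omega
        rw [show c k = 1 by rw [this, c3]] at h1
        omega
      · rw [if_neg (by omega)]
        by_cases e3 : k = 1
        · rw [if_pos (Or.inl e3)]
          rw [show c k = -1 by rw [e3, c1]] at h1
          omega
        · by_cases e4 : k + 2 = m
          · rw [if_pos (Or.inr e4)]
            have : k = m - 2 := by omega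
            rw [show c k = -1 by rw [this, c2]] at h1
            omega
          · rw [if_neg (by omega)]
            rw [c4 k (by omega) (by omega)] at h1
            omega
  · rw [if_neg e] at h1 ⊢
    rw [if_neg e] at h1
    push_cast at h1
    by_cases e5 : k = 0 ∧ l = m
    · rw [if_pos e5, hb] at h1
      omega
    · rw [if_neg e5] at h1
      omega

end main

end Pool.Agent.GaussPoset.Win.Pb

end

/-! From `Pool.Agent.W_448six_h74.SkD` -/

section

/-!
MP_448cb3_co, G2, case B, window `j`: a row with two stars is a row of `Two`; the value `L + 6 w32 + 2 F6`.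
helper74.
-/

namespace Pool.Agent.GaussPoset.Win.Si

set_option linter.unusedSectionVars false

open Finset W4 Pa Pb
open Pool.Agent.GaussPoset.Win.SO (PN vp con on mem_PN vp_PD vp_PU)
open Pool.Agent.GaussPoset.EK (Red RowB Row Pat6)
open Pool.Agent.GaussPoset.St
open Pool.Agent.GaussPoset.Wd (NJ)

universe u

variable {P : Type u} [Fintype P] [PartialOrder P] [DecidableEq P] {r i j : ℕ}
variable {psi : P → P} {C K : Finset P} {w v w' v' : P} {m : ℕ} {x : ℕ → P}
variable {c : ℕ → ℤ} {β : ℤ} {t : Tops P}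

/-- the row of a component with two stars -/
theorem NJ_two (h : NJ P r j) (hj : 2 ≤ j) (R : Red P j K psi) (B : RowB P j t m x c β)
    (hp : Pat6 m c β) :
    ∃ w v w' v', Two r j K psi (cext (j + 1) (topOf : P → Tops P) t) w v w' v' x m := by
  obtain ⟨w, v, w', v', Q⟩ := exists_k9x h B hp hj R
  exact ⟨w, v, w', v', Q, EK.NJ.prow h hj B (by have := hp.1; omega), pat6_dcv h B hp⟩

/-- the mirror image of the pattern -/
lemma Pat6_rev (hp : Pat6 m c β) : Pat6 m (fun k => c (m - 1 - k)) β := by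
  obtain ⟨hm, hb, c0, c1, c2, c3, c4⟩ := hp
  refine ⟨hm, hb, ?_, ?_, ?_, ?_, ?_⟩
  · show c (m - 1 - 0) = 1
    rwa [Nat.sub_zero]
  · show c (m - 1 - 1) = -1
    rwa [show m - 1 - 1 = m - 2 by omega]
  · show c (m - 1 - (m - 2)) = -1
    rwa [show m - 1 - (m - 2) = 1 by omega]
  · show c (m - 1 - (m - 1)) = 1
    rwa [show m - 1 - (m - 1) = 0 by omega]
  · intro k h1 h2
    exact c4 _ (by omega) (by omega)

/-! ### the value `L + 6 w32 + 2 F6` -/

/-- the window `j` part of the value, weights `1, 1, 6, 2` -/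
noncomputable def T2 (i : ℕ) (C : Finset P) : ℤ :=
  Lv i C + 6 * I2.w3 (st i C).card (ZS i C) +
    2 * (I2.w3 (st i C).card (ZS i C) ^ 2 - 2 * I2.w6 (st i C).card (ZS i C))

/-- the terms of a first edge -/
def E1 (u n : ℤ) : ℤ := n ^ 2 + n + 2 * (u - 1) * n + (u ^ 2 - u)

/-- the value without the first edges -/
noncomputable def Tr (i : ℕ) (C : Finset P) (x : ℕ → P) (m : ℕ) : ℤ :=
  T2 i C - E1 (uc (x 0)).card (NE i C x 0) - E1 (uc (x m)).card (NE i C x (m - 1))

/-- the middle of the row -/
lemma QS_mid' (a : ℕ → ℤ) {s t : ℕ} (h : s < t) (ha : ∀ k, s ≤ k → k < t → 0 ≤ a k) :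
    0 ≤ QS a s t ∧ 2 * a s ≤ QS a s t ∧ 2 * a (t - 1) ≤ QS a s t ∧
      2 * a s + 2 * a (t - 1) - 2 ≤ QS a s t := by
  obtain ⟨n, rfl⟩ : ∃ n, t = s + n := ⟨t - s, by omega⟩
  have h1 := QS_sq a n ha
  have g0 : ∀ k ∈ Ico s (s + n), (0 : ℤ) ≤ a k ^ 2 + a k := fun k hk => by
    have := ha k (mem_Ico.1 hk).1 (mem_Ico.1 hk).2
    positivity
  have ms : s ∈ Ico s (s + n) := mem_Ico.2 ⟨le_rfl, h⟩
  have mt : s + n - 1 ∈ Ico s (s + n) := mem_Ico.2 ⟨by omega, by omega⟩
  have f0 := sum_nonneg g0
  have f1 := single_le_sum g0 ms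
  have f2 := single_le_sum g0 mt
  have key : ∀ b : ℤ, 0 ≤ b → 2 * b ≤ b ^ 2 + b := by
    intro b hb
    rcases le_or_gt b 0 with hb' | hb'
    · have : b = 0 := by omega
      subst this
      norm_num
    · have : 1 ≤ b := hb'
      nlinarith
  have p1 := ha s le_rfl h
  have p2 := ha (s + n - 1) (by omega) (by omega)
  refine ⟨by linarith, ?_, ?_, ?_⟩
  · have := key _ p1
    linarith
  · have := key _ p2
    linarith
  · rcases Nat.eq_or_lt_of_le (show 1 ≤ n by omega) with h2 | h2
    · subst h2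
      have g2 : 4 * a s - 2 ≤ a s ^ 2 + a s := by
        have : 0 ≤ (a s - 1) * (a s - 2) := by
          rcases le_or_gt (a s) 1 with hb | hb
          · nlinarith
          · have : 2 ≤ a s := hb
            nlinarith
        linarith
      rw [Nat.add_sub_cancel]
      linarith
    · have f3 : (a s ^ 2 + a s) + (a (s + n - 1) ^ 2 + a (s + n - 1)) ≤
          ∑ k ∈ Ico s (s + n), (a k ^ 2 + a k) := by
        have hsub : ({s, s + n - 1} : Finset ℕ) ⊆ Ico s (s + n) := by
          intro k hk
          rw [mem_insert, mem_singleton] at hk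
          rcases hk with rfl | rfl
          · exact ms
          · exact mt
        have := sum_le_sum_of_subset_of_nonneg hsub fun k hk _ => g0 k hk
        rwa [sum_pair (by omega)] at this
      have k1 := key _ p1
      have k2 := key _ p2
      linarith

namespace Two

variable (B : Two r i K psi C w v w' v' x m)
include B

/-- THE FORMULA -/
theorem T2_eq : Tr i C x m = QS (NE i C x) 2 (m - 2) + Eo i C x w v +
    Eo i C (fun k => x (m - k)) w' v' + (if m = 5 then 12 else if m = 6 then 2 else 0) +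
    6 * (NE i C x 2 + NE i C x (m - 3) - 2 - (if m = 5 then 1 else 0)) +
    2 * ((NE i C x 2 + NE i C x (m - 3) - 2 - (if m = 5 then 1 else 0)) ^ 2 -
      2 * ((if 7 ≤ m then NE i C x 2 * NE i C x (m - 3) else 0) -
        (if 6 ≤ m then NE i C x (m - 3) else 0) - (if 6 ≤ m then NE i C x 2 else 0) + 1)) := by
  have hm := B.Q.hm
  have e1 := B.w3v
  have e2 := B.Q.w6v
  rw [dl_NE, dl_NE] at e1 e2
  have n0 : NE i C (fun k => x (m - k)) 0 = NE i C x (m - 1) := by
    rw [NE_mirror (by omega)]
    rfl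
  unfold Tr T2 E1
  rw [B.L_form, e1, e2, Ew_eq, Ew_eq, B.QS_split, n0]
  simp only [show m - 0 = m from rfl]
  ring

theorem Tr_ge : -4 ≤ Tr i C x m ∧ 0 ≤ Tr i C x m + 2 * ∑ k ∈ Ico 2 (m - 2), NE i C x k := by
  have hm := B.Q.hm
  obtain ⟨b, h1, h2⟩ := B.toT.Eo_cs fun z hz => B.Q.zz z hz
  obtain ⟨b', h1', h2'⟩ := B.Eo_cs'
  have e := B.T2_eq
  rcases Nat.lt_or_ge m 7 with h | h
  · rcases Nat.lt_or_ge m 6 with h' | h'
    · have n2 := B.n5 (by omega)
      have n1 := B.N1
      have n3 := B.Nm2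
      have hm5 : m = 5 := by omega
      subst hm5
      simp only [show 5 - 2 = 3 from rfl, show 5 - 3 = 2 from rfl, show 5 - 4 = 1 from rfl]
        at e h1' h2' n3 ⊢
      rw [QS_one, n2] at e
      norm_num at e
      rw [n2] at h1 h1'
      rw [n3] at h2
      rw [n1] at h2'
      have hb : b = 8 := by
        rcases h1 with h | h | h
        · exact h.2
        · omega
        · omega
      have hb' : b' = 8 := by
        rcases h1' with h | h | h
        · exact h.2
        · omega
        · omega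
      rw [sum_one, n2]
      constructor <;> linarith
    · have hm6 : m = 6 := by omega
      subst hm6
      simp only [show 6 - 2 = 4 from rfl, show 6 - 3 = 3 from rfl, show 6 - 4 = 2 from rfl]
        at e h1' h2' ⊢
      rw [QS_pair] at e
      norm_num at e
      rw [sum_two, e]
      generalize NE i C x 2 = p at *
      generalize NE i C x 3 = q at *
      rcases h1 with ⟨rfl, rfl⟩ | ⟨rfl, rfl⟩ | ⟨rfl, rfl⟩ <;>
        rcases h1' with ⟨rfl, rfl⟩ | ⟨rfl, rfl⟩ | ⟨rfl, rfl⟩ <;> constructor <;> linarith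
  · obtain ⟨l1, l2⟩ := B.long h
    obtain ⟨q1, q2, q3, q4⟩ := QS_mid' (NE i C x) (s := 3) (t := m - 3) (by omega)
      fun k hk hk' => B.NE_pos (by omega) (by omega)
    have p3 := B.NE_pos (k := 3) (by omega) (by omega)
    have p4 := B.NE_pos (k := m - 4) (by omega) (by omega)
    have p5 : 0 ≤ ∑ k ∈ Ico 3 (m - 3), NE i C x k := sum_nonneg fun k hk => by
      rw [mem_Ico] at hk
      exact B.NE_pos (by omega) (by omega)
    rw [show m - 3 - 1 = m - 4 by omega] at q3 q4
    rw [l1, if_neg (by omega), if_neg (by omega), if_neg (by omega), if_pos (by omega),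
      if_pos (by omega), if_pos (by omega)] at e
    rw [l2, e]
    generalize NE i C x 2 = p at *
    generalize NE i C x (m - 3) = q at *
    generalize NE i C x 3 = n at *
    generalize NE i C x (m - 4) = n' at *
    generalize QS (NE i C x) 3 (m - 3) = Q at *
    generalize ∑ k ∈ Ico 3 (m - 3), NE i C x k = S at *
    rcases h1 with ⟨rfl, rfl⟩ | ⟨rfl, rfl⟩ | ⟨rfl, rfl⟩ <;>
      rcases h1' with ⟨rfl, rfl⟩ | ⟨rfl, rfl⟩ | ⟨rfl, rfl⟩ <;> constructor <;> linarith

/-- both ends closed -/
theorem T2_closed (hn : (uc (x 0)).card = 2) (hn' : (uc (x m)).card = 2) : 0 ≤ T2 i C := by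
  have hm := B.Q.hm
  have u0 : 0 ≤ NE i C x 0 := by
    unfold NE
    rw [B.W.ue_zero (by omega) hn, card_empty]
    push_cast
    omega
  have u1 : 0 ≤ NE i C x (m - 1) := by
    unfold NE
    rw [B.W.ue_last (by omega) hn', card_empty]
    push_cast
    omega
  have h1 := B.Tr_ge.1
  unfold Tr E1 at h1
  rw [hn, hn'] at h1
  push_cast at h1
  have q0 := mul_nonneg u0 u0
  have q1 := mul_nonneg u1 u1
  linarith

end Two

end Pool.Agent.GaussPoset.Win.Si

end

/-! From `Pool.Agent.W_448six_h74.SkF` -/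

section

/-!
MP_448cb3_co, G2, case B, window `j`: a row with two stars at a fold end: the twins over the first two
elements and the light join (the arguments of helper53 `FgH`, `FgI`, `FgJ`).  helper74.
-/

namespace Pool.Agent.GaussPoset.EK

set_option linter.unusedSectionVars false

open Finset Win St Polynomial Wd Win.W4
open Pool.Agent.GaussPoset.Win.SO (PN vp mem_PN)
open Pool.Agent.GaussPoset.Win.Si (DLt)

universe u

variable {P : Type u} [Fintype P] [PartialOrder P] [DecidableEq P] {r i j : ℕ}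

variable {m : ℕ} {x : ℕ → P} {c : ℕ → ℤ} {β : ℤ} {t : Tops P} {lo hi : ℕ → ℕ} {e : ℕ → ℕ → P}

variable {K : Finset P} {psi : P → P} {w v w' v' : P}

/-- the signed number of the unmatched doubles which do not meet the first pair -/
theorem six_sa (h : NJ P r j) (R : Red P j K psi)
    (B : Si.Two r j K psi (cext (j + 1) (topOf : P → Tops P) t) w v w' v' x m) :
    sa j (topOf : P → Tops P) K {x 0, x 1} t = 0 := by
  classical
  have hm := B.Q.hm
  have Q := B.Q
  have lw := Q.lw
  have lv := Q.lv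
  have lw' := Q.lw'
  have lv' := Q.lv'
  have wK := Q.toK9.wK
  have vK := Q.toK9.vK
  have wK' := Q.toK9.wK'
  have vK' := Q.toK9.vK'
  have low : ∀ y, y ∈ K → lev y = j + 1 → y ∈ dbL P j := by
    intro y hy hl
    rcases mem_union.1 (R.sub hy) with h1 | h1
    · exact h1
    · have := (mem_dbU.1 h1).1
      omega
  have upp : ∀ y, y ∈ K → lev y + 1 = j → y ∈ dbU P j := by
    intro y hy hl
    rcases mem_union.1 (R.sub hy) with h1 | h1
    · have := (mem_dbL.1 h1).1
      omega
    · exact h1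
  have tp : ∀ y, y ∈ cext (j + 1) (topOf : P → Tops P) t → lev y ≤ j + 1 → topOf y = t :=
    fun y hy hl => mem_cext.1 hy y le_rfl hl
  have ne1 : w' ≠ v' := by
    rintro h1
    rw [h1] at lw'
    omega
  rw [sa_eq]
  have e1 : K.filter (fun k => topOf k = t ∧ Disjoint (ns j k) {x 0, x 1}) =
      ({w', v'} : Finset P) := by
    ext k
    rw [mem_filter, mem_insert, mem_singleton]
    constructor
    · rintro ⟨h1, h2, h3⟩
      have hl : lev k ≤ j + 1 := by
        rcases mem_union.1 (R.sub h1) with h4 | h4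
        · exact (mem_dbL.1 h4).1.le
        · have := (mem_dbU.1 h4).1
          omega
      rcases (Q.hK k (mem_cext_of_le h.split hl h2)).1 h1 with h4 | h4 | h4 | h4
      · exfalso
        subst h4
        rw [ns_L (low _ wK lw), Q.uw] at h3
        exact disjoint_left.1 h3 (mem_insert_self _ _) (mem_insert_self _ _)
      · exfalso
        subst h4
        rw [ns_U (upp _ vK lv), Q.dv] at h3
        exact disjoint_left.1 h3 (mem_insert_self _ _) (mem_insert_of_mem (mem_singleton_self _))
      · exact Or.inl h4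
      · exact Or.inr h4
    · have key : ∀ p q, 2 ≤ p → 2 ≤ q → p ≤ m → q ≤ m →
          Disjoint ({x p, x q} : Finset P) {x 0, x 1} := by
        intro p q hp hq hp' hq'
        rw [disjoint_left]
        intro s hs hs'
        rw [mem_insert, mem_singleton] at hs hs'
        rcases hs with rfl | rfl <;> rcases hs' with h5 | h5 <;>
          (have := B.W.inj _ _ (by omega) (by omega) h5; omega)
      rintro (h1 | h1)
      · subst h1
        refine ⟨wK', tp _ Q.wC' (by omega), ?_⟩
        rw [ns_L (low _ wK' lw'), Q.uw']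
        exact key _ _ (by omega) (by omega) le_rfl (by omega)
      · subst h1
        refine ⟨vK', tp _ Q.vC' (by omega), ?_⟩
        rw [ns_U (upp _ vK' lv'), Q.dv']
        exact key _ _ (by omega) (by omega) (by omega) (by omega)
  rw [e1, sum_pair ne1, sgn_low (low _ wK' lw'), sgn_upp (upp _ vK' lv')]
  norm_num

/-- the twins over the first two elements -/
lemma six_twins (H : Gr P r) (D : DLt r j K (cext (j + 1) (topOf : P → Tops P) t) w v w' v' m x) :
    ∃ a b : P, a ≠ b ∧ uc a = {x 0, x 1} ∧ uc b = {x 0, x 1} ∧ dc (x 0) = {a, b} ∧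
      dc (x 1) = {a, b} := by
  classical
  have hm := D.hm
  have h1 := D.dn 0 1 (by omega) (by omega)
  rw [if_pos rfl] at h1
  have h0 : Win.Pb.dk m 0 = 2 := by
    unfold Win.Pb.dk
    rw [if_pos (Or.inl rfl)]
  rw [h0] at h1
  have h2 := D.deg0
  have h3 := D.deg1
  unfold dcv at h1
  obtain ⟨a, b, hab, he⟩ := card_eq_two.1 h1
  have ma : a ⋖ x 0 ∧ a ⋖ x 1 := by
    have : a ∈ ({a, b} : Finset P) := mem_insert_self _ _
    rw [← he, mem_filter] at this
    exact this.2
  have mb : b ⋖ x 0 ∧ b ⋖ x 1 := by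
    have : b ∈ ({a, b} : Finset P) := mem_insert_of_mem (mem_singleton_self _)
    rw [← he, mem_filter] at this
    exact this.2
  have hne : x 0 ≠ x 1 := D.n01
  have key : ∀ y : P, y ⋖ x 0 → y ⋖ x 1 → uc y = {x 0, x 1} := by
    intro y h4 h5
    refine (eq_of_subset_of_card_le ?_ ?_).symm
    · intro s hs
      rw [mem_insert, mem_singleton] at hs
      rcases hs with rfl | rfl
      · exact mem_uc.2 h4
      · exact mem_uc.2 h5
    · rw [card_pair hne]
      exact uc_card_le H _
  have key2 : ∀ s : P, (dc s).card = 2 → a ⋖ s → b ⋖ s → dc s = {a, b} := by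
    intro s hs h4 h5
    refine (eq_of_subset_of_card_le ?_ ?_).symm
    · intro y hy
      rw [mem_insert, mem_singleton] at hy
      rcases hy with rfl | rfl
      · exact mem_dc.2 h4
      · exact mem_dc.2 h5
    · rw [card_pair hab, hs]
  exact ⟨a, b, hab, key a ma.1 ma.2, key b mb.1 mb.2, key2 _ h2 ma.1 mb.1, key2 _ h3 ma.2 mb.2⟩

/-- an element over a double of the first pair and a single element: excluded -/
lemma six_no_inner (B : Si.Two r j K psi (cext (j + 1) (topOf : P → Tops P) t) w v w' v' x m)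
    {q y s : P} (hq : q ∈ cext (j + 1) (topOf : P → Tops P) t) (hl : lev q = j + 2)
    (huq : uc q = {y, s}) (hy : uc y = {x 0, x 1}) (hs : (uc s).card = 1)
    (hd : Disjoint (uc y) (uc s)) : False := by
  classical
  have H := B.W.H
  have hst : sts j q = uc y ∪ uc s := by
    ext p
    rw [mem_sts_iff H hl, huq, mem_union]
    constructor
    · rintro ⟨b, hb, hp⟩
      rw [mem_insert, mem_singleton] at hb
      rcases hb with rfl | rfl
      · exact Or.inl hp
      · exact Or.inr hp
    · rintro (hp | hp)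
      · exact ⟨y, mem_insert_self _ _, hp⟩
      · exact ⟨s, mem_insert_of_mem (mem_singleton_self _), hp⟩
  have hup : up j q = 3 := by
    rw [← card_sts, hst, card_union_of_disjoint hd, hs, hy, card_pair B.toT.n01]
  have hZ : q ∈ Z4 j (cext (j + 1) (topOf : P → Tops P) t) :=
    mem_Z4.2 (Or.inl (mem_ZL.2 ⟨hq, hl, hup⟩))
  rcases mem_T4.1 (B.Q.zz q hZ) with ⟨-, h2⟩ | ⟨h2, -⟩
  · have := h2 s (by rw [huq]; exact mem_insert_of_mem (mem_singleton_self _))
    omega
  · have := (mem_ZU.1 h2).2.1
    omega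

/-- a private child of the twins: a light join below the twins -/
theorem six_light (h : NJ P r (i + 1)) (hi1 : 1 ≤ i) (R : RowB P (i + 1) t m x c β)
    (B : Si.Two r (i + 1) K psi (cext (i + 1 + 1) (topOf : P → Tops P) t) w v w' v' x m)
    (hDE : (DE (i + 1) (cext (i + 1 + 1) (topOf : P → Tops P) t) x 0).Nonempty) :
    ∃ z y s, K2.SD (i + 1) (topOf : P → Tops P) z y s ∧ topOf y = t ∧ uc y = {x 0, x 1} := by
  classical
  have H := h.g.H
  have hm := B.Q.hm
  obtain ⟨a, b, hab, ua, ub, d0, d1⟩ := six_twins H B.toT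
  have hne : x 0 ≠ x 1 := B.toT.n01
  have l0 : lev (x 0) = i + 1 := R.row.lev_x 0 (by omega)
  have la : lev a = i + 2 := by
    have := lev_uc H (show x 0 ∈ uc a by rw [ua]; exact mem_insert_self _ _)
    omega
  have lb : lev b = i + 2 := by
    have := lev_uc H (show x 0 ∈ uc b by rw [ub]; exact mem_insert_self _ _)
    omega
  -- the private child
  obtain ⟨z, hz⟩ := hDE
  obtain ⟨hzC, hzP, hzs⟩ := mem_DE.1 hz
  obtain ⟨lz, hz1, y, hzy, hy2⟩ := mem_PD.1 hzP
  obtain ⟨y', hy'⟩ := card_eq_one.1 hz1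
  have hyy : y = y' := by
    have := mem_uc.2 hzy
    rw [hy', mem_singleton] at this
    exact this
  subst hyy
  have huy : uc y = {x 0, x 1} := by
    rw [← SO.sit_PD H lz hy', hzs]
    rfl
  have hyab : y = a ∨ y = b := by
    have h1 : y ∈ dc (x 0) := mem_dc.2 (mem_uc.1 (by rw [huy]; exact mem_insert_self _ _))
    rw [d0, mem_insert, mem_singleton] at h1
    exact h1
  -- the twins have at most one common child
  have hdab : dcv a b ≤ 1 := by
    unfold dcv
    have h1 : univ.filter (fun q => q ⋖ a ∧ q ⋖ b) ⊆ (dc y).erase z := by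
      intro q hq
      rw [mem_filter] at hq
      rw [mem_erase, mem_dc]
      refine ⟨?_, ?_⟩
      · rintro rfl
        have e1 := mem_uc.2 hq.2.1
        have e2 := mem_uc.2 hq.2.2
        rw [hy', mem_singleton] at e1 e2
        exact hab (e1.trans e2.symm)
      · rcases hyab with rfl | rfl
        · exact hq.2.1
        · exact hq.2.2
    have h2 := card_le_card h1
    rw [card_erase_of_mem (mem_dc.2 hzy)] at h2
    have h3 := dc_card_le H y
    omega
  have huab : ucv a b = 2 := by
    unfold ucv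
    have h1 : univ.filter (fun q => a ⋖ q ∧ b ⋖ q) = {x 0, x 1} := by
      ext q
      rw [mem_filter, ← mem_uc, ← mem_uc, ua, ub]
      simp
    rw [h1, card_pair hne]
  have hDf : Df (i + 2) {a, b} ≠ 0 := by
    rw [Df_pair H la hab, huab]
    intro h1
    have : (dcv a b : ℤ) ≤ 1 := by exact_mod_cast hdab
    push_cast at h1
    linarith
  -- the twins are not a piece
  have hp : ∃ u ∈ ({a, b} : Finset P), ∃ s, lev s = i + 2 ∧ s ∉ ({a, b} : Finset P) ∧
      dcv u s ≠ 0 := by
    by_contra hcon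
    push Not at hcon
    refine hDf (Mp.piece_pair H (by have := h.hr; omega) hab ⟨?_, ?_⟩)
    · intro u hu
      rw [mem_insert, mem_singleton] at hu
      rcases hu with rfl | rfl
      · exact mem_lv.2 la
      · exact mem_lv.2 lb
    · intro u hu s hs hsn
      have h1 := hcon u hu s hs hsn
      have hlu : lev u = i + 2 ∧ uc u = {x 0, x 1} := by
        rw [mem_insert, mem_singleton] at hu
        rcases hu with rfl | rfl
        · exact ⟨la, ua⟩
        · exact ⟨lb, ub⟩
      have hus : u ≠ s := by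
        rintro rfl
        exact hsn hu
      have h2 : ucv u s = 0 := by
        unfold ucv
        rw [card_eq_zero, filter_eq_empty_iff]
        rintro q - ⟨h3, h4⟩
        rw [← mem_uc, hlu.2, mem_insert, mem_singleton] at h3
        rcases h3 with rfl | rfl
        · exact hsn (by rw [← d0]; exact mem_dc.2 h4)
        · exact hsn (by rw [← d1]; exact mem_dc.2 h4)
      rw [Df_pair H hlu.1 hus, h1, h2]
      simp
  obtain ⟨u, hu, s, ls, hsn, hd⟩ := hp
  have hlu : lev u = i + 2 ∧ uc u = {x 0, x 1} ∧ u ∈ dc (x 0) := by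
    refine ⟨?_, ?_, by rw [d0]; exact hu⟩
    · rw [mem_insert, mem_singleton] at hu
      rcases hu with rfl | rfl
      · exact la
      · exact lb
    · rw [mem_insert, mem_singleton] at hu
      rcases hu with rfl | rfl
      · exact ua
      · exact ub
  obtain ⟨lu, uu, du⟩ := hlu
  have hus : u ≠ s := by
    rintro rfl
    exact hsn hu
  obtain ⟨q, hqu, hqs⟩ := StA_of_dcv (v := u) (v' := s) (by omega)
  have lq := lev_cov H hqu
  have hq : uc q = {u, s} := by
    refine (eq_of_subset_of_card_le ?_ ?_).symm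
    · intro p hp
      rw [mem_insert, mem_singleton] at hp
      rcases hp with rfl | rfl
      · exact mem_uc.2 hqu
      · exact mem_uc.2 hqs
    · rw [card_pair hus]
      exact uc_card_le H _
  have hdis : Disjoint (uc u) (uc s) := by
    rw [disjoint_left]
    intro p hp1 hp2
    rw [uu, mem_insert, mem_singleton] at hp1
    rcases hp1 with rfl | rfl
    · exact hsn (by rw [← d0]; exact mem_dc.2 (mem_uc.1 hp2))
    · exact hsn (by rw [← d1]; exact mem_dc.2 (mem_uc.1 hp2))
  have cu : (uc u).card = 2 := by rw [uu, card_pair hne]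
  have cs : (uc s).card = 1 := by
    rcases uc_card_cases H (x := s) (by omega) with h1 | h1
    · exact h1
    · exfalso
      obtain ⟨p, hp1, hp2⟩ := NJ.noQ h (by omega) q (by omega) u
        (mem_uc.2 hqu) s (mem_uc.2 hqs) hus cu h1
      exact disjoint_left.1 hdis hp1 hp2
  have tu : topOf u = t := by
    have h1 := h.split (x := u) (y := x 0) (mem_dc.1 du) (by omega)
    rw [h1]
    exact R.row.kap 0 (by omega)
  by_cases ts : topOf s = t
  · exfalso
    refine six_no_inner B (q := q) (y := u) (s := s) ?_ (by omega) hq uu cs hdis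
    rw [mem_cext]
    intro p hp hlp
    rcases eq_or_lt_of_le hp with h1 | h1
    · rw [← h1] at hlp
      omega
    · obtain ⟨p', hp', hp2⟩ := Hul.exists_cov h1
      rw [← mem_uc, hq, mem_insert, mem_singleton] at hp'
      rcases hp' with rfl | rfl
      · rw [← tu]
        exact (Split.le (l := i + 1 + 1) (κ := (topOf : P → Tops P)) h.split _ hp2 (by omega)).symm
      · rw [← ts]
        exact (Split.le (l := i + 1 + 1) (κ := (topOf : P → Tops P)) h.split _ hp2 (by omega)).symm
  · exact ⟨q, u, s, ⟨by omega, hq, fun h1 => ts (by rw [← h1]; exact tu), cu, cs⟩, tu, uu⟩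

/-- an element over the first pair is not below five elements of the level `i` -/
lemma six_N5s (H : Gr P r) (B : Si.Two r (i + 1) K psi
    (cext (i + 1 + 1) (topOf : P → Tops P) t) w v w' v' x m) (hu0 : (uc (x 0)).card = 1)
    {z y s : P} (S : K2.SD (i + 1) (topOf : P → Tops P) z y s)
    (hy : uc y = {x 0, x 1}) : z ∉ So.N5s i (topOf : P → Tops P) := by
  classical
  have D := B.toT
  have hm := D.hm
  intro hz
  obtain ⟨-, -, -, h5⟩ := So.mem_N5s.1 hz
  have hD : So.CrV i (topOf : P → Tops P) z y s := ⟨S.lz, S.huc, S.hk⟩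
  obtain ⟨q, hq⟩ := card_eq_one.1 S.cv
  rw [So.up_eq] at h5
  have h6 : (lv P i).filter (fun p => z < p) ⊆ uc (x 1) ∪ uc q := by
    intro p hp
    rw [mem_filter, mem_lv] at hp
    obtain ⟨b, hb, hp2⟩ := (hD.mem0 H).1 hp
    rw [hy, hq, mem_union, mem_insert, mem_singleton, mem_singleton] at hb
    rw [mem_union]
    rcases hb with (rfl | rfl) | rfl
    · left
      -- the upper cover of the fold end
      have h7 := D.W.up 0 1 (by omega) (by omega)
      rw [if_pos rfl] at h7
      unfold ucv at h7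
      obtain ⟨u, hu⟩ := card_pos.1 (by rw [h7]; norm_num)
      rw [mem_filter] at hu
      obtain ⟨u', hu'⟩ := card_eq_one.1 hu0
      have h8 := mem_uc.2 hu.2.1
      rw [hu', mem_singleton] at h8 hp2
      rw [hp2, ← h8]
      exact mem_uc.2 hu.2.2
    · exact Or.inl hp2
    · exact Or.inr hp2
  have h7 := card_le_card h6
  have h8 := card_union_le (uc (x 1)) (uc q)
  have h9 := uc_card_le H (x 1)
  have h10 := uc_card_le H q
  omega

end Pool.Agent.GaussPoset.EK

end

/-! From `Pool.Agent.W_448six_h74.SkG` -/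

section

/-!
MP_448cb3_co, G2, case B, windows `j - 1` and `j`: THE VALUE OF A ROW WITH TWO STARS, the weights of step 0
and the weights of the level eight.  Here `j = i + 1`.  helper74.
-/

namespace Pool.Agent.GaussPoset.EK

set_option linter.unusedSectionVars false

open Finset Win St Polynomial Wd Win.W4
open Pool.Agent.GaussPoset.Win.SO (PN vp mem_PN chc CQ)
open Pool.Agent.GaussPoset.Win.Si (DLt V2 T2)
open Pool.Agent.GaussPoset.Win.Pn (Wt own shr A3 B5 C6 C8 C10 F2 F3 F4 F6)

universe u

variable {P : Type u} [Fintype P] [PartialOrder P] [DecidableEq P] {r i j : ℕ}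

variable {m : ℕ} {x : ℕ → P} {c : ℕ → ℤ} {β : ℤ} {t : Tops P} {lo hi : ℕ → ℕ} {e : ℕ → ℕ → P}

variable {K : Finset P} {psi : P → P}

/-- the weights of step 0 -/
def w0 : Wt := ⟨-1, 9, 1, 4, 3, -1, 2, 14, 2⟩

lemma own2_w0 (j : ℕ) (t : Tops P) :
    own2 w0 j t = V2 j (cext (j + 1) (topOf : P → Tops P) t) := by
  have e1 : F2 j t = I2.al 2 (st j (cext (j + 1) (topOf : P → Tops P) t)).card
      (ZS j (cext (j + 1) (topOf : P → Tops P) t)) := rfl
  have e2 : F2 j t + F4 j t = Lv j (cext (j + 1) (topOf : P → Tops P) t) := rfl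
  have e3 : F3 j t = I2.w3 (st j (cext (j + 1) (topOf : P → Tops P) t)).card
      (ZS j (cext (j + 1) (topOf : P → Tops P) t)) := rfl
  have e4 : F6 j t = I2.w3 (st j (cext (j + 1) (topOf : P → Tops P) t)).card
      (ZS j (cext (j + 1) (topOf : P → Tops P) t)) ^ 2 -
      2 * I2.w6 (st j (cext (j + 1) (topOf : P → Tops P) t)).card
      (ZS j (cext (j + 1) (topOf : P → Tops P) t)) := rfl
  unfold own2 w0 V2
  rw [← e2, ← e1, ← e4, ← e3]
  ring

/-- the value with the shares -/
noncomputable def UU (W : Wt) (i : ℕ) (t : Tops P) : ℤ :=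
  2 * own W i (i + 1) t + ∑ p ∈ (PD P i).filter (fun p => (topOf p : Tops P) = t), shr W i p

section row

variable (h : NJ P r (i + 1)) (hi1 : 1 ≤ i) (B : RowB P (i + 1) t m x c β) (hp : Pat6 m c β)

include h B hp

lemma UU_w0 : UU w0 i t =
    2 * (own1 w0 i t + V2 (i + 1) (cext (i + 1 + 1) (topOf : P → Tops P) t)) := by
  unfold UU
  rw [NJ.shr6 h rfl B hp w0, own_eq, own2_w0]
  ring

include hi1

/-- the pendants over the full edges, both ends closed -/
lemma six_sum_two (h0 : (uc (x 0)).card = 2) (h1 : (uc (x m)).card = 2) :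
    ∑ k ∈ range m, NE (i + 1) (cext (i + 1 + 1) (topOf : P → Tops P) t) x k ≤
      ∑ k ∈ Ed x m, ((DE (i + 1) (cext (i + 1 + 1) (topOf : P → Tops P) t) x k).card : ℤ) := by
  have hm := hp.1
  have W := NJ.prow h (by omega) B (by omega)
  have hE : Ed x m = range m := by
    ext k
    rw [Wd.mem_Ed, mem_range]
    constructor
    · exact fun h => h.1
    · intro hk
      refine ⟨hk, ?_, ?_⟩
      · rcases Nat.eq_zero_or_pos k with h2 | h2
        · rw [h2]
          exact h0
        · exact W.uc_inner h2 hk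
      · rcases Nat.eq_or_lt_of_le (show k + 1 ≤ m by omega) with h2 | h2
        · rw [h2]
          exact h1
        · exact W.uc_inner (by omega) h2
  rw [hE]
  refine sum_le_sum fun k _ => ?_
  unfold NE
  have : (0 : ℤ) ≤ ((UE (i + 1) (cext (i + 1 + 1) (topOf : P → Tops P) t) x k).card : ℤ) := by
    positivity
  linarith

/-- the pendants over the full edges, the right end closed -/
lemma six_sum_one (h1 : (uc (x m)).card = 2) :
    ∑ k ∈ range m, NE (i + 1) (cext (i + 1 + 1) (topOf : P → Tops P) t) x k -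
      NE (i + 1) (cext (i + 1 + 1) (topOf : P → Tops P) t) x 0 ≤
      ∑ k ∈ Ed x m, ((DE (i + 1) (cext (i + 1 + 1) (topOf : P → Tops P) t) x k).card : ℤ) := by
  have hm := hp.1
  have W := NJ.prow h (by omega) B (by omega)
  have hE : Ico 1 m ⊆ Ed x m := by
    intro k hk
    rw [mem_Ico] at hk
    rw [Wd.mem_Ed]
    refine ⟨hk.2, W.uc_inner (by omega) hk.2, ?_⟩
    rcases Nat.eq_or_lt_of_le (show k + 1 ≤ m by omega) with h2 | h2
    · rw [h2]
      exact h1
    · exact W.uc_inner (by omega) h2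
  have e1 : ∑ k ∈ range m, NE (i + 1) (cext (i + 1 + 1) (topOf : P → Tops P) t) x k -
      NE (i + 1) (cext (i + 1 + 1) (topOf : P → Tops P) t) x 0 =
      ∑ k ∈ Ico 1 m, NE (i + 1) (cext (i + 1 + 1) (topOf : P → Tops P) t) x k := by
    rw [range_eq_Ico, sum_eq_sum_Ico_succ_bot (by omega)]
    ring
  rw [e1]
  refine le_trans (sum_le_sum (g := fun k =>
    ((DE (i + 1) (cext (i + 1 + 1) (topOf : P → Tops P) t) x k).card : ℤ)) fun k _ => ?_)
    (sum_le_sum_of_subset_of_nonneg hE fun k _ _ => by positivity)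
  unfold NE
  have : (0 : ℤ) ≤ ((UE (i + 1) (cext (i + 1 + 1) (topOf : P → Tops P) t) x k).card : ℤ) := by
    positivity
  linarith

/-- STEP 0, both ends closed -/
theorem six_closed (h0 : (uc (x 0)).card = 2) (h1 : (uc (x m)).card = 2) :
    0 < UU w0 i t ∨ (0 ≤ UU w0 i t ∧ F3 (i + 1) t ≠ 0) := by
  obtain ⟨K, psi, R⟩ := exists_red P (i + 1)
  obtain ⟨w, v, w', v', T⟩ := Si.NJ_two h (by omega) R B hp
  have h2 := NJ.own6_two h rfl hi1 B hp w0 rfl rfl h0 h1
  have h3 := six_sum_two h hi1 B hp h0 h1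
  have h4 : (0 : ℤ) ≤ ∑ w ∈ CQ i (SS i t), ((chc i (SS i t) w).card : ℤ) :=
    sum_nonneg fun _ _ => by positivity
  have h5 : (0 : ℤ) ≤ if m = 5 then 2 else 0 := by split_ifs <;> norm_num
  rw [UU_w0 h B hp]
  rcases T.V2_closed h0 h1 (A := own1 w0 i t) (by linarith) with h6 | ⟨h6, h7⟩
  · left
    linarith
  · right
    exact ⟨by linarith, h7⟩

/-- STEP 0, the left end is a fold end -/
theorem six_fold (R : Red P (i + 1) K psi) (h0 : (uc (x 0)).card = 1) (h1 : (uc (x m)).card = 2)
    (hU : (UE (i + 1) (cext (i + 1 + 1) (topOf : P → Tops P) t) x 0).card = 1) :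
    0 < UU w0 i t ∨ (0 ≤ UU w0 i t ∧ F3 (i + 1) t ≠ 0) ∨
      (-8 < UU w0 i t ∧ ∃ z y v : P, K2.SD (i + 1) (topOf : P → Tops P) z y v ∧ topOf y = t ∧
        sa (i + 1) (topOf : P → Tops P) K (uc y) (topOf y) = 0 ∧
        z ∉ So.N5s i (topOf : P → Tops P)) := by
  classical
  obtain ⟨w, v, w', v', T⟩ := Si.NJ_two h (by omega) R B hp
  have h2 := NJ.own6_one h rfl hi1 B hp w0 rfl rfl rfl (Or.inr ⟨h0, h1⟩)
  have h3 := six_sum_one h hi1 B hp h1
  have h4 : (0 : ℤ) ≤ ∑ w ∈ CQ i (SS i t), ((chc i (SS i t) w).card : ℤ) :=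
    sum_nonneg fun _ _ => by positivity
  have h5 : (0 : ℤ) ≤ if m = 5 then 2 else 0 := by split_ifs <;> norm_num
  obtain ⟨g1, g2⟩ := T.V2_fold h0 h1 hU (A := own1 w0 i t) (by linarith)
  rw [UU_w0 h B hp]
  by_cases hD : DE (i + 1) (cext (i + 1 + 1) (topOf : P → Tops P) t) x 0 = ∅
  · rcases g2 hD with h6 | ⟨h6, h7⟩
    · left
      linarith
    · right; left
      exact ⟨by linarith, h7⟩
  · right; right
    obtain ⟨z, y, s, S, ty, uy⟩ := six_light h hi1 B T (nonempty_iff_ne_empty.2 hD)
    refine ⟨by linarith, z, y, s, S, ty, ?_, six_N5s h.g.H T h0 S uy⟩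
    rw [uy, ty]
    exact six_sa h R T

end row

end Pool.Agent.GaussPoset.EK

end

/-! From `Pool.Agent.W_448six_h74.SkH` -/

section

/-!
MP_448cb3_co, G2, case B: THE ENDS of a row with two stars: closed, or one fold end.  helper74.
-/

namespace Pool.Agent.GaussPoset.EK

set_option linter.unusedSectionVars false

open Finset Win St Polynomial Wd Win.W4

universe u

variable {P : Type u} [Fintype P] [PartialOrder P] [DecidableEq P] {r i j : ℕ}

variable {m : ℕ} {x : ℕ → P} {c : ℕ → ℤ} {β : ℤ} {t : Tops P}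

variable {K : Finset P} {psi : P → P}

/-- THE ENDS of a row with two stars -/
theorem CB.six_ends (hC : HCCu P) (h : CB P r j) (hj : 2 ≤ j)
    {lo hi : Tops P → ℕ → ℕ} {e : Tops P → ℕ → ℕ → P}
    (C : ∀ t : Tops P, Cp.Comp j (t : P) (lo t) (hi t) (e t))
    (hS : ∀ t : Tops P, Shape j (lo t) (hi t)) (B : RowB P j t m x c β) (hp : Pat6 m c β) :
    ((uc (x 0)).card = 2 ∨ (StairShape j (lo t) (hi t) ∧ j % 2 = 0 ∧ x 0 = e t j (j / 2))) ∧
    ((uc (x m)).card = 2 ∨ (StairShape j (lo t) (hi t) ∧ j % 2 = 0 ∧ x m = e t j (j / 2))) := by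
  have hn := h.nj
  have h5 := hp.1
  constructor
  · rcases CB.shape2 hC h hj C hS B (by omega) with ⟨g1, -⟩ | ⟨a, L⟩
    · exact g1 hp.2.2.1
    · have := LateC.len hn hj L (C t) B
      omega
  · have hp' := Si.Pat6_rev hp
    rcases CB.shape2 hC h hj C hS B.rev (by omega) with ⟨g1, -⟩ | ⟨a, L⟩
    · exact g1 hp'.2.2.1
    · have := LateC.len hn hj L (C t) B
      omega

/-- THE ENDS of a row with two stars at a level below ten -/
theorem CB.six_ends8 (h : CB P r j) (hj : 2 ≤ j) (h10 : j < 10)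
    (B : RowB P j t m x c β) (hp : Pat6 m c β) :
    (uc (x 0)).card = 2 ∧ (uc (x m)).card = 2 := by
  classical
  have hn := h.nj
  obtain ⟨lo, hi, e, C, hS⟩ := hsh (P := P) r j hn.g
  have key : ∀ (x : ℕ → P) (c : ℕ → ℤ), RowB P j t m x c β → Pat6 m c β →
      (uc (x 0)).card = 2 := by
    intro x c B hp
    have h5 := hp.1
    have hdd : dcv (x 0) (x 1) = 2 := by
      have e1 := B.dcv_eq hn (a := 0) (b := 1) (by omega) (by omega)
      rw [if_pos rfl, if_neg (by omega), hp.2.2.1] at e1
      have : (dcv (x 0) (x 1) : ℤ) = 2 := by linarith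
      exact_mod_cast this
    have hone : (uc (x 0)).card ≠ 2 → (uc (x 0)).card = 1 := by
      intro h2
      have W := NJ.prow hn hj B (by omega)
      rcases W.uc_le (k := 0) (by omega) with h1 | h1
      · exact h1
      · exact absurd h1 h2
    have hx0t : x 0 ≤ (t : P) := by
      rw [← B.row.kap 0 (by omega)]
      exact le_topOf (x 0)
    have hx0 := B.row.lev_x 0 (by omega)
    obtain ⟨hlen, hor⟩ := B.orient hn hj (C t)
    rcases hS t with g1 | ⟨g1, S'⟩ | ⟨g1, S⟩ | ⟨g1, g2, g3⟩ | ⟨g1, g2⟩ |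
      ⟨a, g0, g1, g2, g3, hN, g4⟩
    · exfalso
      have := g1 j le_rfl
      omega
    · by_contra h2
      have h3 := NJ_rect_S_end hn hj C hS (t := t) (x := x 0) (x' := x 1) (by omega) hx0 hx0t
        (hone h2) (fun q => by
          have := B.row.inj 0 1 (by omega) (by omega) q
          omega)
      rw [hdd] at h3
      omega
    · exfalso
      have := S.hi j le_rfl
      omega
    · exfalso
      subst g1
      omega
    · subst g1
      exact absurd g2 (NJ_no_six hn C hS t)
    · exfalso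
      have Ct := C t
      have L : LateC j a (lo t) (hi t) := by
        refine ⟨g0, g1, g2, g3, ?_⟩
        have hstep : ∀ k, k < a + (j - a) → lo t k ≤ lo t (k + 1) ∧
            lo t (k + 1) ≤ lo t k + 1 := by
          intro k hk
          have := Ct.lo_step k (by omega)
          omega
        have hstep' : ∀ k, k < a + (j - a) → hi t k ≤ hi t (k + 1) ∧
            hi t (k + 1) ≤ hi t k + 1 := by
          intro k hk
          have := Ct.hi_step k (by omega)
          omega
        exact late_wide g3 hstep hstep' g4 (by rw [show a + (j - a) = j by omega]; omega)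
      have := LateC.len hn hj L Ct B
      omega
  refine ⟨key x c B hp, ?_⟩
  exact key _ _ B.rev (Si.Pat6_rev hp)

end Pool.Agent.GaussPoset.EK

end

/-! From `Pool.Agent.W_448six_h74.SkK` -/

section

/-!
MP_448cb3_co, G2, case B: the functional of a row with two stars at an odd level.  helper74.
-/

namespace Pool.Agent.GaussPoset.EK

set_option linter.unusedSectionVars false

open Finset Win St Polynomial Wd Win.W4

universe u

variable {P : Type u} [Fintype P] [PartialOrder P] [DecidableEq P] {r i j : ℕ}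

variable {m : ℕ} {x : ℕ → P} {c : ℕ → ℤ} {β : ℤ} {t : Tops P}

variable {K : Finset P} {psi : P → P}

/-- no pendant below a row with two stars -/
theorem NJ.six_pen (h : NJ P r j) (hj : 2 ≤ j) (B : RowB P j t m x c β) (hp : Pat6 m c β) {k : ℕ}
    (hk : k ≤ m) : pen (x k) = ∅ := by
  obtain ⟨K, psi, R⟩ := exists_red P j
  obtain ⟨w, v, w', v', T⟩ := Si.NJ_two h hj R B hp
  exact T.pen_zero hk

/-- both ends closed: `0 ≤ TT` -/
theorem NJ.six_TT (h : NJ P r j) (hj : 2 ≤ j) (B : RowB P j t m x c β) (hp : Pat6 m c β)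
    (h0 : (uc (x 0)).card = 2) (h1 : (uc (x m)).card = 2) : 0 ≤ TT j t := by
  obtain ⟨K, psi, R⟩ := exists_red P j
  obtain ⟨w, v, w', v', T⟩ := Si.NJ_two h hj R B hp
  have h2 := T.T2_closed h0 h1
  have e : TT j t = Si.T2 j (cext (j + 1) (topOf : P → Tops P) t) := by
    have e2 : Lv j (cext (j + 1) (topOf : P → Tops P) t) =
      I2.al 2 (I2.bb j (j + 1) (topOf : P → Tops P) t) (I2.VV j (j + 1) (topOf : P → Tops P) t) +
      I2.Q4 (I2.bb j (j + 1) (topOf : P → Tops P) t) (I2.VV j (j + 1) (topOf : P → Tops P) t) := rfl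
    unfold TT Si.T2
    rw [e2]
    rfl
  rw [e]
  exact h2

/-- odd levels: `0 ≤ TT` -/
theorem CB.six_TT (hC : HCCu P) (h : CB P r j) (hj : 2 ≤ j)
    {lo hi : Tops P → ℕ → ℕ} {e : Tops P → ℕ → ℕ → P}
    (C : ∀ t : Tops P, Cp.Comp j (t : P) (lo t) (hi t) (e t))
    (hS : ∀ t : Tops P, Shape j (lo t) (hi t)) (B : RowB P j t m x c β) (hp : Pat6 m c β)
    (ho : j % 2 = 1) : 0 ≤ TT j t := by
  obtain ⟨g0, g1⟩ := CB.six_ends hC h hj C hS B hp
  have h0 : (uc (x 0)).card = 2 := by
    rcases g0 with g | ⟨-, g, -⟩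
    · exact g
    · omega
  have h1 : (uc (x m)).card = 2 := by
    rcases g1 with g | ⟨-, g, -⟩
    · exact g
    · omega
  exact NJ.six_TT h.nj hj B hp h0 h1

end Pool.Agent.GaussPoset.EK

end
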