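import Mathlib
import Pool.Agent.W_448zz_h61.Ns
import Pool.Agent.W_448zz_h61.M262
import Pool.Agent.W_448zz_h61.M267

/-! From `Pool.Agent.W_448win_h80.R3E` -/

section

/-!
# The leaf HRing3 (MP_448cb3_co, G2)
-/

set_option autoImplicit false

namespace Pool.Agent.GaussPoset.EK

set_option linter.unusedSectionVars false

open Finset Win St Polynomial Wd Win.W4

universe u

variable {P : Type u} [Fintype P] [PartialOrder P] [DecidableEq P] {r i j : ℕ}
variable {x : ℕ → P} {c : ℕ → ℤ} {β : ℤ} {t : Tops P}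

/-- the word of the part with a rotated row with four sites -/
lemma r3_word {lo hi : ℕ → ℕ} {e : ℕ → ℕ → P} (h : NJ P r j) (hij : i + 1 = j) (hi1 : 1 ≤ i)
    (C : Cp.Comp j (t : P) lo hi e) (hlen : hi j = lo j + 3)
    (hor : ∀ k, k ≤ 3 → x k = e j (hi j - k)) {a : ℕ} (L : LateC j a lo hi)
    (u0 : (uc (x 0)).card = 1) : pen (x 1) = ∅ ∨ R3.Oc i lo hi := by
  classical
  have H := h.g.H
  have h3 := L.ha
  have hlo := fun k (hk : k < a + (j - a)) => C.lo_step k (by have := L.haj; omega)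
  have hhi := fun k (hk : k < a + (j - a)) => C.hi_step k (by have := L.haj; omega)
  rcases L.cases C with ⟨ja, w, p1, q1, p2, q2, p3, q3⟩ | ⟨ja, w, p1, q1, p2, q2, p3, q3⟩ |
    ⟨ja, w, p1, q1, p2, q2, p3, q3⟩ | ⟨ja, w, p1, q1, p2, q2, p3, q3, -, -⟩ |
    ⟨ja, w, p1, q1, p2, q2, p3, q3, -, -⟩
  · right
    subst ja
    obtain rfl : i = a + 2 := by omega
    have g1 := L.two
    have g2 := L.one (a - 1) (by omega)
    have e1 : a + 3 - 1 = a + 2 := by omega
    have e2 : a + 3 - 2 = a + 1 := by omega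
    rw [e1] at p2 q2
    rw [e2] at p3 q3
    refine ⟨by omega, p1, q1, p2, q2, ?_, ?_, ?_, ?_, ?_, ?_⟩
    · rw [show a + 2 - 1 = a + 1 by omega]; exact p3
    · rw [show a + 2 - 1 = a + 1 by omega]; exact q3
    · rw [show a + 2 - 2 = a by omega]; exact g1.1
    · rw [show a + 2 - 2 = a by omega]; exact g1.2
    · rw [show a + 2 - 3 = a - 1 by omega]; exact g2.1
    · rw [show a + 2 - 3 = a - 1 by omega]; exact g2.2
  · left
    obtain ⟨hd, hv⟩ := word_vals w hlo hhi
    have v1 := hv 1 false true rfl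
    simp only [Bool.false_eq_true, if_false, if_true, add_zero] at v1
    subst ja
    obtain rfl : i = a + 3 := by omega
    have e1 : a + 4 - 1 = a + 3 := by omega
    have e2 : a + 4 - 2 = a + 2 := by omega
    rw [e1] at p2 q2
    rw [e2] at p3 q3
    rw [show a + 1 + 1 = a + 2 by omega] at v1
    refine R3.pen_x1 h hij hi1 C hlen hor ?_ ?_
    · rintro ⟨-, k1, k2, -⟩
      rw [show a + 3 - 1 = a + 2 by omega] at k2
      omega
    · rintro ⟨-, k1, k2, -⟩
      rw [show a + 3 - 1 = a + 2 by omega, show a + 3 - 2 = a + 1 by omega] at k1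
      omega
  · left
    obtain ⟨hd, hv⟩ := word_vals w hlo hhi
    have v3 := hv 3 false true rfl
    simp only [Bool.false_eq_true, if_false, if_true, add_zero] at v3
    subst ja
    obtain rfl : i = a + 5 := by omega
    have e1 : a + 6 - 1 = a + 5 := by omega
    have e2 : a + 6 - 2 = a + 4 := by omega
    rw [e1] at p2 q2
    rw [e2] at p3 q3
    rw [show a + 3 + 1 = a + 4 by omega] at v3
    refine R3.pen_x1 h hij hi1 C hlen hor ?_ ?_
    · rintro ⟨-, k1, k2, -⟩
      rw [show a + 5 - 1 = a + 4 by omega] at k2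
      omega
    · rintro ⟨-, k1, k2, -⟩
      rw [show a + 5 - 1 = a + 4 by omega, show a + 5 - 2 = a + 3 by omega] at k1
      omega
  · exfalso
    have h1 := C.single_up H h.g.good t.2 (k := j - 1) (s := hi j) (by omega)
      (by rw [show j - 1 + 1 = j by omega]; omega) (by rw [show j - 1 + 1 = j by omega])
    rw [show j - 1 + 1 = j by omega] at h1
    rw [hor 0 (by omega), Nat.sub_zero] at u0
    have := h1.1 u0
    omega
  · exfalso
    omega

/-- THE ROTATED ROWS WITH FOUR SITES, strong form -/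
theorem ring3_ge_four (h : NJ P r (i + 1)) (hi1 : 1 ≤ i) (B : RowB P (i + 1) t 3 x c β)
    {lo hi : ℕ → ℕ} {e : ℕ → ℕ → P} {a : ℕ}
    (C : Cp.Comp (i + 1) (t : P) lo hi e) (S : Shape (i + 1) lo hi) (L : LateC (i + 1) a lo hi)
    (hβ : β = 1) (c0 : c 0 = -1) (c1 : ∀ k, 1 ≤ k → k < 3 → c k = 0)
    (u0 : (uc (x 0)).card = 1) (u3 : (uc (x 3)).card = 1) (hp0 : pen (x 0) ≠ ∅)
    (hor : ∀ k, k ≤ 3 → x k = e (i + 1) (hi (i + 1) - k)) : 4 ≤ Vt i t := by
  obtain ⟨hlen, -⟩ := B.orient h (by omega) C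
  have hp2 : pen (x 2) = ∅ := B.pen_mid h (k := 2) (by omega) (by omega)
    (c1 1 le_rfl (by omega)) (c1 2 (by omega) (by omega))
  exact R3.vt_ge_four h rfl hi1 B hβ c0 (c1 1 le_rfl (by omega)) (c1 2 (by omega) (by omega)) C S
    u0 u3 hp0 hp2 (r3_word h rfl hi1 C hlen hor L u0)

/-- THE LEAF `HRing3` -/
theorem hring3 (P : Type u) [Fintype P] [PartialOrder P] [DecidableEq P] : HRing3 P := by
  intro r i t x c β lo hi e a hi1 hC B C S L hβ c0 c1 u0 u3 hp0 hor
  have := ring3_ge_four hC.nj hi1 B C S L hβ c0 c1 u0 u3 hp0 hor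
  linarith

end Pool.Agent.GaussPoset.EK

end

/-! From `Pool.Agent.W_448op_h53.OeB` -/

section

/-!
MP_448cb3_co, G2, step 0: the leaf `HOpen3E`: [DL] with four sites, both ends single.
helper53.
-/

namespace Pool.Agent.GaussPoset.EK

set_option linter.unusedSectionVars false

open Finset Win St Polynomial Wd Win.W4

universe u

variable {P : Type u} [Fintype P] [PartialOrder P] [DecidableEq P] {r i j : ℕ}
variable {x : ℕ → P} {c : ℕ → ℤ} {β : ℤ} {t : Tops P}

/-- the pendant of the third site -/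
lemma open_word {lo hi : ℕ → ℕ} {e : ℕ → ℕ → P} (h : NJ P r (i + 1)) (hi1 : 1 ≤ i)
    (C : Cp.Comp (i + 1) (t : P) lo hi e) (hlen : hi (i + 1) = lo (i + 1) + 3)
    (hor : ∀ k, k ≤ 3 → x k = e (i + 1) (lo (i + 1) + k)) {a : ℕ} (L : LateC (i + 1) a lo hi)
    (u3 : (uc (x 3)).card = 1) : pen (x 2) = ∅ ∨ (R3.Oc i lo hi ∧ x 2 = e (i + 1) 2) := by
  have h1 := r3_word (x := fun k => x (3 - k)) h rfl hi1 C hlen (fun k hk => by
    show x (3 - k) = _
    rw [hor (3 - k) (by omega)]
    congr 1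
    omega) L u3
  rcases h1 with h1 | h1
  · exact Or.inl h1
  · right
    refine ⟨h1, ?_⟩
    rw [hor 2 (by omega)]
    congr 1
    have := h1.l0
    omega

end Pool.Agent.GaussPoset.EK

end
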