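import Mathlib
import Pool.Agent.W_448zz_h61.Ns
import Pool.Agent.W_448zz_h61.M171
import Pool.Agent.W_448zz_h61.M215

/-! From `Pool.Agent.W_448nf_h61.NJ` -/

section

/-!
MP_448cb3_co, G2, case B, Route T, block (N): the natural parts with `F = 0`: the polynomial `FS` is
`(1 - X)^m` and the orders are natural.  helper61.
-/

namespace Pool.Agent.GaussPoset.EK

set_option linter.unusedSectionVars false

open Finset Win St Polynomial Wd Win.W4
open Pool.Agent.GaussPoset.Win.SO (PN mem_PN sit_PD sit_PU vp vp_PD vp_PU)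

universe u

variable {P : Type u} [Fintype P] [PartialOrder P] [DecidableEq P] {r i j : ℕ}
variable {K : Finset P} {psi : P → P}

/-- the pendants of a natural part are over neighbouring sites, the upper ones at the ends -/
theorem pend_sites (h : NJ P r j) (hj : 2 ≤ j) {t : Tops P} (hn : NatT j (t : P)) {m : ℕ}
    {x : ℕ → P} {c : ℕ → ℤ} {β : ℤ} (R : RowB P j t m x c β) {p : P}
    (hp : p ∈ PN j (cext (j + 1) (topOf : P → Tops P) t)) :
    ∃ a, a + 1 ≤ m ∧ sit j p = {x a, x (a + 1)} ∧ (p ∈ PU P j → a = 0 ∨ a + 1 = m) := by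
  classical
  have H := h.g.H
  have hC : Part (j + 1) (cext (j + 1) (topOf : P → Tops P) t) := part_cext H le_rfl h.split t
  obtain ⟨hpC, hpn⟩ := mem_PN.1 hp
  -- two sites with a common upper cover
  have key : ∀ {s : Finset P} {u v : P}, u ≠ v → s = {u, v} →
      u ∈ cext (j + 1) (topOf : P → Tops P) t → v ∈ cext (j + 1) (topOf : P → Tops P) t →
      lev u = j → lev v = j → 0 < ucv u v → ∃ a, a + 1 ≤ m ∧ s = {x a, x (a + 1)} := by
    intro s u v huv hs hu hv lu lv' hcv
    have tu := (mem_cext.1 hu) u le_rfl (by omega)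
    have tv := (mem_cext.1 hv) v le_rfl (by omega)
    obtain ⟨k, hk, rfl⟩ := R.row.surj u lu tu
    obtain ⟨l, hl, rfl⟩ := R.row.surj v lv' tv
    have hkl : k ≠ l := by
      rintro rfl
      exact huv rfl
    rcases Nat.lt_or_gt_of_ne hkl with h1 | h1
    · rw [R.ucv_x k l h1 hl] at hcv
      split_ifs at hcv with h2
      · subst h2
        exact ⟨k, hl, hs⟩
      · omega
    · rw [show ucv (x k) (x l) = ucv (x l) (x k) by unfold ucv; congr 1; ext y; simp [and_comm], R.ucv_x l k h1 hk] at hcv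
      split_ifs at hcv with h2
      · subst h2
        exact ⟨l, hk, by rw [hs, pair_comm]⟩
      · omega
  rcases hpn with hpD | hpU
  · obtain ⟨lp, cp, w, hw, hw2⟩ := mem_PD.1 hpD
    obtain ⟨y, hy⟩ := card_eq_one.1 cp
    have hwy : w = y := by
      have h1 := mem_uc.2 hw
      rw [hy, mem_singleton] at h1
      exact h1
    subst hwy
    have lw := lev_uc H (mem_uc.2 hw)
    obtain ⟨u, v, huv, huc⟩ := card_eq_two.1 hw2
    have hu : w ⋖ u := mem_uc.1 (by rw [huc]; simp)
    have hv : w ⋖ v := mem_uc.1 (by rw [huc]; simp)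
    have lu := lev_uc H (mem_uc.2 hu)
    have lv' := lev_uc H (mem_uc.2 hv)
    have wC := hC.up hpC hw
    have uC := hC.up wC hu
    have vC := hC.up wC hv
    have tu := (mem_cext.1 uC) u le_rfl (by omega)
    have tv := (mem_cext.1 vC) v le_rfl (by omega)
    have hd : 0 < dcv u v := by
      unfold dcv
      rw [card_pos]
      exact ⟨w, by simp [hu, hv]⟩
    have hcv : 0 < ucv u v := by
      rw [hn u v (by omega) (by omega) (by rw [← tu]; exact le_topOf u)
        (by rw [← tv]; exact le_topOf v) huv]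
      exact hd
    obtain ⟨a, ha, hs⟩ := key huv (s := sit j p) (by rw [sit_PD H lp hy, huc]) uC vC (by omega)
      (by omega) hcv
    refine ⟨a, ha, hs, fun hU => ?_⟩
    have := (mem_PU.1 hU).1
    omega
  · obtain ⟨lp, cp, w, hw, hw2⟩ := mem_PU.1 hpU
    obtain ⟨y, hy⟩ := card_eq_one.1 cp
    have hwy : w = y := by
      have h1 := mem_dc.2 hw
      rw [hy, mem_singleton] at h1
      exact h1
    subst hwy
    have lw := lev_dc H (mem_dc.2 hw)
    obtain ⟨u, v, huv, huc⟩ := card_eq_two.1 hw2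
    have hu : u ⋖ w := mem_dc.1 (by rw [huc]; simp)
    have hv : v ⋖ w := mem_dc.1 (by rw [huc]; simp)
    have lu := lev_dc H (mem_dc.2 hu)
    have lv' := lev_dc H (mem_dc.2 hv)
    have wC := hC.dn hpC (by omega) hw
    have uC := hC.dn wC (by omega) hu
    have vC := hC.dn wC (by omega) hv
    have hcv : 0 < ucv u v := by
      unfold ucv
      rw [card_pos]
      exact ⟨w, by simp [hu, hv]⟩
    obtain ⟨a, ha, hs⟩ := key huv (s := sit j p) (by rw [sit_PU H lp hy, huc]) uC vC (by omega)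
      (by omega) hcv
    refine ⟨a, ha, hs, fun _ => ?_⟩
    by_contra hne
    have hdw : dc w = {x a, x (a + 1)} := by rw [← hs, sit_PU H lp hy]
    have h1 : x a ⋖ w := mem_dc.1 (by rw [hdw]; simp)
    have h2 : x (a + 1) ⋖ w := mem_dc.1 (by rw [hdw]; simp)
    have h3 := R.pu a (by omega) (by omega) w h1 h2 p hw
    omega

/-- two pairs of neighbouring sites -/
lemma pair_meet {m : ℕ} {x : ℕ → P} (inj : ∀ k l, k ≤ m → l ≤ m → x k = x l → k = l) {a b : ℕ}
    (ha : a + 1 ≤ m) (hb : b + 1 ≤ m) :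
    Disjoint ({x a, x (a + 1)} : Finset P) {x b, x (b + 1)} ↔ a ≠ b ∧ a + 1 ≠ b ∧ a ≠ b + 1 := by
  constructor
  · intro h
    rw [disjoint_left] at h
    refine ⟨?_, ?_, ?_⟩
    · rintro rfl
      exact h (show x a ∈ _ by simp) (by simp)
    · rintro rfl
      exact h (show x (a + 1) ∈ _ by simp) (by simp)
    · rintro rfl
      exact h (show x (b + 1) ∈ _ by simp) (by simp)
  · rintro ⟨h1, h2, h3⟩
    rw [disjoint_left]
    intro v hv hv'
    rw [mem_insert, mem_singleton] at hv hv'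
    rcases hv with hv | hv <;> rcases hv' with hv' | hv'
    · exact h1 (inj a b (by omega) (by omega) (hv.symm.trans hv'))
    · exact h3 (inj a (b + 1) (by omega) (by omega) (hv.symm.trans hv'))
    · exact h2 (inj (a + 1) b (by omega) (by omega) (hv.symm.trans hv'))
    · have := inj (a + 1) (b + 1) (by omega) (by omega) (hv.symm.trans hv')
      omega

end Pool.Agent.GaussPoset.EK

end

/-! From `Pool.Agent.W_448nv_h97.NvB` -/

section

/-!
MP_448cb3_co, G2, case B, window `j`: the natural parts.  The value `- F2 + 2 F4 + 13 F3` of the window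
`j` of a natural part is nonnegative.  helper97.
-/

set_option autoImplicit false

namespace Pool.Agent.GaussPoset.EK

set_option linter.unusedSectionVars false

open Finset Win St Polynomial Wd Win.W4 Win.Pn
open Pool.Agent.GaussPoset.Win.SO (PN mem_PN sit_PD sit_PU vp vp_PD vp_PU)

universe u

variable {P : Type u} [Fintype P] [PartialOrder P] [DecidableEq P] {r i j : ℕ}
variable {K : Finset P} {psi : P → P}

/-- the lower pendants of a natural part which meet the upper pendant have a common site -/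
theorem NJ.DU_site (h : NJ P r j) (hj : 2 ≤ j) {t : Tops P} (hn : NatT j (t : P)) :
    ∃ s : P, ∀ p ∈ DU j (cext (j + 1) (topOf : P → Tops P) t), s ∈ sit j p := by
  classical
  obtain ⟨m, x, c, β, R⟩ := NJ.rowB h hj t
  have hU1 := NJ.UC_le h hj t
  rcases (UC j (cext (j + 1) (topOf : P → Tops P) t)).eq_empty_or_nonempty with h0 | ⟨u, hu⟩
  · refine ⟨x 0, fun p hp => ?_⟩
    unfold DU at hp
    rw [mem_filter, h0] at hp
    obtain ⟨-, v, hv, -⟩ := hp
    exact absurd hv (notMem_empty _)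
  obtain ⟨huC, huU⟩ := mem_UC.1 hu
  obtain ⟨f, hf, hsf, hUf⟩ := pend_sites h hj hn R (mem_PN.2 ⟨huC, Or.inr huU⟩)
  have key : ∀ p ∈ DU j (cext (j + 1) (topOf : P → Tops P) t), ∃ a, a + 1 ≤ m ∧
      sit j p = {x a, x (a + 1)} ∧ (a = f ∨ a + 1 = f ∨ a = f + 1) := by
    intro p hp
    have hp' := DU_sub _ _ hp
    obtain ⟨hpC, hpD⟩ := mem_DC.1 hp'
    unfold DU at hp
    rw [mem_filter] at hp
    obtain ⟨-, v, hv, hmt⟩ := hp
    have hvu : v = u := card_le_one.1 hU1 v hv u hu
    subst hvu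
    obtain ⟨a, ha, hsa, -⟩ := pend_sites h hj hn R (mem_PN.2 ⟨hpC, Or.inl hpD⟩)
    refine ⟨a, ha, hsa, ?_⟩
    rw [hsa, hsf, pair_meet R.row.inj ha hf] at hmt
    by_contra hc
    apply hmt
    omega
  rcases hUf huU with h1 | h1
  · refine ⟨x 1, fun p hp => ?_⟩
    obtain ⟨a, ha, hsa, h2⟩ := key p hp
    rw [hsa, mem_insert, mem_singleton]
    rcases h2 with h2 | h2 | h2
    · right
      rw [show a + 1 = 1 by omega]
    · omega
    · left
      rw [show a = 1 by omega]
  · refine ⟨x f, fun p hp => ?_⟩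
    obtain ⟨a, ha, hsa, h2⟩ := key p hp
    rw [hsa, mem_insert, mem_singleton]
    rcases h2 with h2 | h2 | h2
    · left
      rw [h2]
    · right
      rw [h2]
    · omega

/-- the coefficient `w3` of a natural part is zero -/
theorem NJ.nat_F3 (h : NJ P r j) (hj : 2 ≤ j) {t : Tops P} (hn : NatT j (t : P)) :
    F3 j t = 0 := by
  obtain ⟨K, psi, R⟩ := exists_red P j
  have Q := NJ.nat4 h hj R hn
  have h2 := Q.prof.mid 3 (by norm_num)
  unfold F3 I2.w3
  apply I2.coeff_zero_of_dvd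
    (a := (st j (cext (j + 1) (topOf : P → Tops P) t)).card + 1) _ (by unfold I2.bb; omega)
  rw [pow_succ', pow_two, mul_assoc]
  exact mul_dvd_mul_left _ h2

/-- THE WINDOW `j` of a natural part in the numbers of the pendants -/
theorem NJ.nat_win (h : NJ P r j) (hj : 2 ≤ j) {t : Tops P} (hn : NatT j (t : P)) :
    F2 j t = ((DC j (cext (j + 1) (topOf : P → Tops P) t)).card : ℤ) -
      (UC j (cext (j + 1) (topOf : P → Tops P) t)).card ∧
    F2 j t + F4 j t = 2 * (((DC j (cext (j + 1) (topOf : P → Tops P) t)).card : ℤ) -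
        (DU j (cext (j + 1) (topOf : P → Tops P) t)).card) +
      (D2 j (cext (j + 1) (topOf : P → Tops P) t)).card +
      2 * ((Z4 j (cext (j + 1) (topOf : P → Tops P) t)).card -
        (T4 j (cext (j + 1) (topOf : P → Tops P) t)).card : ℤ) := by
  obtain ⟨K, psi, R⟩ := exists_red P j
  have Q := NJ.nat4 h hj R hn
  have hb := NJ.st_pos h t
  have hU := NJ.UC_le h hj t
  refine ⟨?_, ?_⟩
  · have h1 := Q.al2
    rw [sum_vp] at h1
    exact h1
  · have h1 := Q.F_eq hb hU
    have h3 := NJ.nat_F3 h hj hn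
    unfold F3 at h3
    unfold F2 F4 I2.Q4
    rw [h3, mul_zero, add_zero]
    exact h1

/-- no site over which no upper pendant sits: no lower pendant meets it -/
lemma DU_zero {C : Finset P} (h : UC j C = ∅) : DU j C = ∅ := by
  classical
  unfold DU
  rw [h]
  simp

/-- THE WINDOW `j` OF A NATURAL PART for the weights `-1, 2, 13`, strong form -/
theorem NJ.nat_own2s (h : NJ P r j) (hj : 2 ≤ j) {t : Tops P} (hn : NatT j (t : P)) :
    4 * (((Z4 j (cext (j + 1) (topOf : P → Tops P) t)).card : ℤ) -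
      (T4 j (cext (j + 1) (topOf : P → Tops P) t)).card) ≤
        -F2 j t + 2 * F4 j t + 13 * F3 j t := by
  classical
  obtain ⟨e1, e2⟩ := NJ.nat_win h hj hn
  have e3 := NJ.nat_F3 h hj hn
  have hU := NJ.UC_le h hj t
  obtain ⟨s, hs⟩ := NJ.DU_site h hj hn
  have hZ := DU_zero (j := j) (C := cext (j + 1) (topOf : P → Tops P) t)
  set C := cext (j + 1) (topOf : P → Tops P) t with hC
  have h1 := card_le_card (DU_sub j C)
  have h2 := card_le_card (T4_subset j C)
  -- the pairs of lower pendants over the common site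
  have h3 : (DU j C).card * (DU j C).card - (DU j C).card ≤ (D2 j C).card := by
    rw [← offDiag_card]
    refine card_le_card fun q hq => ?_
    obtain ⟨q1, q2, q3⟩ := mem_offDiag.1 hq
    unfold D2
    rw [mem_filter, mem_product]
    exact ⟨⟨DU_sub _ _ q1, DU_sub _ _ q2⟩, q3, not_disjoint_iff.2 ⟨s, hs _ q1, hs _ q2⟩⟩
  have h4 : (DU j C).card ≤ (DU j C).card * (DU j C).card := Nat.le_mul_self _
  have h5 : ((DU j C).card : ℤ) * (DU j C).card - (DU j C).card ≤ (D2 j C).card := by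
    have := (Nat.cast_le (α := ℤ)).2 h3
    rw [Nat.cast_sub h4] at this
    push_cast at this
    exact this
  have h6 : ((DU j C).card : ℤ) ≤ (DC j C).card := by exact_mod_cast h1
  have h7 : ((T4 j C).card : ℤ) ≤ (Z4 j C).card := by exact_mod_cast h2
  have h8 : (0 : ℤ) ≤ (DU j C).card := Nat.cast_nonneg _
  rw [e3]
  rcases Nat.eq_zero_or_pos (UC j C).card with g1 | g1
  · have g2 := hZ (card_eq_zero.1 g1)
    rw [g2, card_empty] at e2 h5
    rw [g1] at e1
    push_cast at e1 e2 h5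
    have h9 : (0 : ℤ) ≤ (DC j C).card := Nat.cast_nonneg _
    linarith
  · have g2 : (UC j C).card = 1 := by omega
    rw [g2] at e1
    push_cast at e1
    generalize ((DU j C).card : ℤ) = d at *
    generalize ((DC j C).card : ℤ) = dc at *
    generalize ((D2 j C).card : ℤ) = d2 at *
    have h9 : 0 ≤ (2 * d - 3) * (d - 1) := by
      rcases le_or_gt d 1 with k | k
      · rcases eq_or_lt_of_le k with k | k
        · rw [k]; norm_num
        · exact mul_nonneg_of_nonpos_of_nonpos (by linarith) (by linarith)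
      · exact mul_nonneg (by linarith) (by linarith)
    nlinarith

/-- THE WINDOW `j` OF A NATURAL PART IS NONNEGATIVE for the weights `-1, 2, 13` -/
theorem NJ.nat_own2 (h : NJ P r j) (hj : 2 ≤ j) {t : Tops P} (hn : NatT j (t : P)) :
    0 ≤ -F2 j t + 2 * F4 j t + 13 * F3 j t := by
  have h1 := NJ.nat_own2s h hj hn
  have h2 := card_le_card (T4_subset j (cext (j + 1) (topOf : P → Tops P) t))
  have h3 : ((T4 j (cext (j + 1) (topOf : P → Tops P) t)).card : ℤ) ≤
      (Z4 j (cext (j + 1) (topOf : P → Tops P) t)).card := by exact_mod_cast h2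
  linarith

end Pool.Agent.GaussPoset.EK

end

/-! From `Pool.Agent.W_448na_h84.NaB` -/

section

/-!
# MP_448cb3_co, case B: the pendant of a component with at least four sites at the window `j - 1`, in
coordinates; natural rows (helper84)
-/

namespace Pool.Agent.GaussPoset.Wd

set_option linter.unusedSectionVars false

open Finset Win Win.I2 Win.Rc EK Win.Pn

universe u

variable {P : Type u} [Fintype P] [PartialOrder P] [DecidableEq P] {r j i n : ℕ}
  {t : Tops P} {lo hi : ℕ → ℕ} {e : ℕ → ℕ → P} {m : ℕ} {x : ℕ → P} {c : ℕ → ℤ} {β : ℤ}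

/-- an element with two natural neighbours has no private child -/
lemma nat_two_nb (H : Gr P r) (hn : NatT j (t : P)) {y y1 y2 v1 v2 p : P} (ly : lev y = j)
    (ly1 : lev y1 = j) (ly2 : lev y2 = j) (hy : y ≤ (t : P)) (hy1 : y1 ≤ (t : P))
    (hy2 : y2 ≤ (t : P)) (n1 : y ≠ y1) (n2 : y ≠ y2) (n12 : y1 ≠ y2) (a1 : y ⋖ v1) (b1 : y1 ⋖ v1)
    (a2 : y ⋖ v2) (b2 : y2 ⋖ v2) (hp : uc p = {y}) : False := by
  classical
  have key : ∀ {y' v : P}, lev y' = j → y' ≤ (t : P) → y ≠ y' → y ⋖ v → y' ⋖ v →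
      ∃ z, z ⋖ y ∧ z ⋖ y' := by
    intro y' v l h1 h2 h3 h4
    have h5 : 1 ≤ ucv y y' := by
      rw [← card_uc_inter]
      exact card_pos.2 ⟨v, mem_inter.2 ⟨mem_uc.2 h3, mem_uc.2 h4⟩⟩
    rw [hn y y' ly l hy h1 h2, ← card_dc_inter] at h5
    obtain ⟨z, hz⟩ := card_pos.1 h5
    rw [mem_inter, mem_dc, mem_dc] at hz
    exact ⟨z, hz.1, hz.2⟩
  obtain ⟨z1, c1, d1⟩ := key ly1 hy1 n1 a1 b1
  obtain ⟨z2, c2, d2⟩ := key ly2 hy2 n2 a2 b2
  have hpy : p ⋖ y := by rw [← mem_uc, hp]; simp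
  have p1 : p ≠ z1 := by
    rintro rfl
    have h1 : y1 ∈ uc p := mem_uc.2 d1
    rw [hp, mem_singleton] at h1
    exact n1 h1.symm
  have p2 : p ≠ z2 := by
    rintro rfl
    have h1 : y2 ∈ uc p := mem_uc.2 d2
    rw [hp, mem_singleton] at h1
    exact n2 h1.symm
  have z12 : z1 ≠ z2 := by
    rintro rfl
    have h1 : ({y, y1, y2} : Finset P) ⊆ uc z1 := by
      intro q hq
      rw [mem_insert, mem_insert, mem_singleton] at hq
      rcases hq with rfl | rfl | rfl
      · exact mem_uc.2 c1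
      · exact mem_uc.2 d1
      · exact mem_uc.2 d2
    have h2 := card_le_card h1
    rw [card_eq_three.2 ⟨y, y1, y2, n1, n2, n12, rfl⟩] at h2
    have h3 := uc_card_le H z1
    omega
  have h1 : ({p, z1, z2} : Finset P) ⊆ dc y := by
    intro q hq
    rw [mem_insert, mem_insert, mem_singleton] at hq
    rcases hq with rfl | rfl | rfl
    · exact mem_dc.2 hpy
    · exact mem_dc.2 c1
    · exact mem_dc.2 c2
  have h2 := card_le_card h1
  rw [card_eq_three.2 ⟨p, z1, z2, p1, p2, z12, rfl⟩] at h2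
  have h3 := dc_card_le H y
  omega

/-- the pendant data in coordinates -/
structure PdC (i : ℕ) (t : Tops P) (lo hi : ℕ → ℕ) (e : ℕ → ℕ → P) (y p u : P) : Prop where
  mp : p ∈ SS i t
  pd : p ∈ PD P i
  pu : u ∈ PU P i
  up : uc p = {y}
  sp : sit i p = uc y
  su : sit i u = uc y
  low : ∀ q ∈ SS i t, q ∈ PD P i → q = p
  upp : ∀ q ∈ SS i t, q ∈ PU P i → q = u

section big

variable (h : NJ P r j) (hij : i + 1 = j) (hi1 : 1 ≤ i) (C : Cp.Comp j (t : P) lo hi e)
  (hb : lo i + 3 ≤ hi i)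
include h hij hi1 C hb

/-- no pendants, or one pendant below and one above, at the same end -/
theorem NJ.pd_coord : (∀ q ∈ SS i t, q ∉ PD P i ∧ q ∉ PU P i) ∨
    ∃ n, i = n + 2 ∧ ∃ y p u, PdC i t lo hi e y p u ∧
      ((lo (n + 1) = lo n + 1 ∧ lo (n + 2) = lo (n + 1) ∧ u = e n (lo n) ∧
        y = e (n + 3) (lo (n + 2) + 1) ∧
          uc y = {e (n + 2) (lo (n + 2)), e (n + 2) (lo (n + 2) + 1)}) ∨
      (hi (n + 1) = hi n ∧ hi (n + 2) = hi (n + 1) + 1 ∧ u = e n (hi n) ∧
        y = e (n + 3) (hi (n + 2)) ∧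
          uc y = {e (n + 2) (hi (n + 2) - 1), e (n + 2) (hi (n + 2))})) := by
  classical
  have H := h.g.H
  have W := C.toWin
  obtain ⟨psi, hM⟩ := good_mat h.g.H (h.g.good i (by omega))
  rcases h.dich hij hi1 C hb hM with hN | ⟨y, p, w, u, v, v', O⟩
  · exact Or.inl hN
  right
  have pD : p ∈ PD P i := by
    have l1 := O.F.ly
    have h1 : p ⋖ y := by rw [← mem_uc, O.F.up]; simp
    have l2 := lev_cov H h1
    rw [mem_PD]
    exact ⟨by omega, by rw [O.F.up, card_singleton], y, h1, by rw [O.F.uy, card_pair O.F.ne]⟩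
  have uU : u ∈ PU P i := by
    have l1 := O.F.lw
    have h1 : w ⋖ u := by rw [← mem_dc, O.F.du]; simp
    have l2 := lev_cov H h1
    rw [mem_PU]
    exact ⟨by omega, by rw [O.F.du, card_singleton], w, h1, by rw [O.F.dw, card_pair O.F.ne]⟩
  have lu := (mem_PU.1 uU).1
  have lp := (mem_PD.1 pD).1
  obtain ⟨n, rfl⟩ : ∃ n, i = n + 2 := ⟨lev u, by omega⟩
  obtain rfl : j = n + 3 := by omega
  have hut : u ≤ (t : P) := (h.mem (by omega) t (by omega)).1 O.mu
  have hyt : y ≤ (t : P) := (h.mem (by omega) t (by have := O.F.ly; omega)).1 O.my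
  have hsu : stD (n + 2) u = uc y := by
    rw [ClE_stD H (by omega) O.F.du, O.F.dw, O.F.uy]
  have e1 : sit (n + 2) p = uc y := by
    ext q
    rw [sit_low H (by omega), mem_sts_iff H lp, O.F.up]
    simp
  have e2 : sit (n + 2) u = uc y := by
    rw [sit_upp H (z := u) (by omega), hsu]
  refine ⟨n, rfl, y, p, u, ⟨O.mp, pD, uU, O.F.up, e1, e2, O.low, O.upp⟩, ?_⟩
  have ly := O.F.ly
  obtain ⟨a, a1, a2, rfl⟩ := W.surj (n + 3) le_rfl y (by omega) hyt
  obtain ⟨hw, hcase⟩ := W.PU_cases h.g t.2 (m := n) (by omega) uU hut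
  rw [hsu] at hcase
  have pos : ∀ b, lo (n + 2) ≤ b → b ≤ hi (n + 2) → e (n + 2) b ∈ uc (e (n + 3) a) →
      a = b ∨ a = b + 1 := by
    intro b b1 b2 hmem
    obtain ⟨b', c1, c2, c3, hbb⟩ := (W.uc_iff h.g t.2 (k := n + 2) (by omega) a1 a2).1
      (mem_uc.1 hmem)
    have : b' = b := by
      by_contra hne
      rcases Nat.lt_or_gt_of_ne hne with h1 | h1
      · exact W.inj (n + 2) (by omega) _ _ c1 h1 b2 hbb
      · exact W.inj (n + 2) (by omega) _ _ b1 h1 c2 hbb.symm
    omega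
  rcases hcase with ⟨k1, k2, k3, k4⟩ | ⟨k1, k2, k3, k4⟩
  · left
    have q1 := pos (lo (n + 2)) le_rfl (by omega) (by rw [k4]; simp)
    have q2 := pos (lo (n + 2) + 1) (by omega) (by omega) (by rw [k4]; simp)
    obtain rfl : a = lo (n + 2) + 1 := by omega
    exact ⟨k1, k2, k3, rfl, k4⟩
  · right
    have q1 := pos (hi (n + 2)) (by omega) le_rfl (by rw [k4]; simp)
    have q2 := pos (hi (n + 2) - 1) (by omega) (by omega) (by rw [k4]; simp)
    obtain rfl : a = hi (n + 2) := by omega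
    exact ⟨k1, k2, k3, rfl, k4⟩

end big

/-- the numbers of a pendant of a natural row -/
theorem NJ.pd_nat (h : NJ P r j) (hij : i + 1 = j) (hi1 : 1 ≤ i) (C : Cp.Comp j (t : P) lo hi e)
    (hb : lo i + 3 ≤ hi i) (hn : NatT j (t : P)) :
    (∀ q ∈ SS i t, q ∉ PD P i ∧ q ∉ PU P i) ∨
    ∃ y p u, PdC i t lo hi e y p u ∧ lev y = j ∧ y ≤ (t : P) ∧ (nLp i p).card ≤ 2 ∧
      (nUp i p).card ≤ 2 ∧ (FU' i (SS i t)).card ≤ 1 := by
  classical
  have H := h.g.H
  have W := C.toWin
  rcases h.pd_coord hij hi1 C hb with hN | ⟨n, rfl, y, p, u, D, hcase⟩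
  · exact Or.inl hN
  right
  obtain rfl : j = n + 3 := by omega
  have lp := (mem_PD.1 D.pd).1
  have lu := (mem_PU.1 D.pu).1
  have hpy : p ⋖ y := by rw [← mem_uc, D.up]; simp
  have ly : lev y = n + 3 := by have := lev_cov H hpy; omega
  have hyt : y ≤ (t : P) := by
    have h1 : y ∈ SS (n + 2) t := (h.part (i := n + 2) (k := n + 3 + 1) (by omega) (by omega) t).up
      D.mp hpy
    exact (h.mem (by omega) t (by omega)).1 h1
  refine ⟨y, p, u, D, ly, hyt, ?_⟩
  -- positions
  have eqe : ∀ k a b, k ≤ n + 3 → lo k ≤ a → a ≤ hi k → lo k ≤ b → b ≤ hi k → e k a = e k b →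
      a = b := by
    intro k a b hk a1 a2 b1 b2 hq
    by_contra hne
    rcases Nat.lt_or_gt_of_ne hne with h1 | h1
    · exact W.inj k hk _ _ a1 h1 b2 hq
    · exact W.inj k hk _ _ b1 h1 a2 hq.symm
  have s1 := W.lo_le (n + 2) (by omega)
  have s2 := W.lo_ge (n + 2) (by omega)
  have s3 := W.hi_le (n + 2) (by omega)
  have s4 := W.hi_ge (n + 2) (by omega)
  have r1 := W.lo_le (n + 1) (by omega)
  have r2 := W.lo_ge (n + 1) (by omega)
  have r3 := W.hi_le (n + 1) (by omega)
  have r4 := W.hi_ge (n + 1) (by omega)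
  have t1 := W.lo_le n (by omega)
  have t2 := W.lo_ge n (by omega)
  have t3 := W.hi_le n (by omega)
  have t4 := W.hi_ge n (by omega)
  simp only [show n + 1 + 1 = n + 2 from rfl, show n + 2 + 1 = n + 3 from rfl] at s1 s2 s3 s4 r1 r2 r3 r4
  -- lower near elements
  have low : ∀ w ∈ nLp (n + 2) p, ∃ a b, lo (n + 3) ≤ a ∧ a ≤ hi (n + 3) ∧ lo (n + 2) ≤ b ∧
      b ≤ hi (n + 2) ∧ (b = a ∨ b + 1 = a) ∧ w = e (n + 3) a ∧ e (n + 2) b ∈ uc y := by
    intro w hw
    rw [mem_nLp, D.sp, not_disjoint_iff] at hw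
    obtain ⟨lw, v, hv1, hv2⟩ := hw
    have lv := lev_uc H hv2
    have hvt : v ≤ (t : P) := by
      have h1 : v ∈ SS (n + 2) t := (h.part (i := n + 2) (k := n + 3 + 1) (by omega) (by omega)
        t).up ((h.mem (by omega) t (by omega)).2 hyt) (mem_uc.1 hv2)
      exact (h.mem (by omega) t (by omega)).1 h1
    obtain ⟨b, b1, b2, rfl⟩ := W.surj (n + 2) (by omega) v (by omega) hvt
    obtain ⟨a, a1, a2, a3, rfl⟩ := (W.dc_iff h.g t.2 (k := n + 2) (by omega) b1 b2).1
      (mem_uc.1 hv1)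
    exact ⟨a, b, a1, a2, b1, b2, a3, rfl, hv2⟩
  have upp : ∀ w ∈ nUp (n + 2) p, ∃ a b, lo (n + 1) ≤ a ∧ a ≤ hi (n + 1) ∧ lo (n + 2) ≤ b ∧
      b ≤ hi (n + 2) ∧ (a = b ∨ a + 1 = b) ∧ w = e (n + 1) a ∧ e (n + 2) b ∈ uc y := by
    intro w hw
    rw [mem_nUp, D.sp, not_disjoint_iff] at hw
    obtain ⟨lw, v, hv1, hv2⟩ := hw
    have lv := lev_uc H hv2
    have hvt : v ≤ (t : P) := by
      have h1 : v ∈ SS (n + 2) t := (h.part (i := n + 2) (k := n + 3 + 1) (by omega) (by omega)
        t).up ((h.mem (by omega) t (by omega)).2 hyt) (mem_uc.1 hv2)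
      exact (h.mem (by omega) t (by omega)).1 h1
    obtain ⟨b, b1, b2, rfl⟩ := W.surj (n + 2) (by omega) v (by omega) hvt
    obtain ⟨a, a1, a2, a3, rfl⟩ := (W.uc_iff h.g t.2 (k := n + 1) (by omega) b1 b2).1
      (mem_dc.1 hv1)
    exact ⟨a, b, a1, a2, b1, b2, a3, rfl, hv2⟩
  have fup : ∀ w ∈ FU' (n + 2) (SS (n + 2) t), ∃ k, n = k + 1 ∧ ∃ a, lo k ≤ a ∧ a ≤ hi k ∧
      w = e k a ∧ dc (e k a) = {u} := by
    intro w hw
    rw [mem_FU'] at hw
    obtain ⟨hw1, z, hz1, hz2⟩ := hw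
    have lz := (mem_PU.1 hz1).1
    have hzw : z ⋖ w := by rw [← mem_dc, hz2]; simp
    have lw := lev_cov H hzw
    have hwt : w ≤ (t : P) := (h.mem (by omega) t (by omega)).1 hw1
    have hzS : z ∈ SS (n + 2) t := (h.mem (by omega) t (by omega)).2 (hzw.le.trans hwt)
    obtain rfl := D.upp z hzS hz1
    obtain ⟨k, rfl⟩ : ∃ k, n = k + 1 := ⟨n - 1, by omega⟩
    obtain ⟨a, a1, a2, rfl⟩ := W.surj k (by omega) w (by omega) hwt
    exact ⟨k, rfl, a, a1, a2, rfl, hz2⟩
  have r1 : lo (n + 2 + 1) = lo (n + 3) := rfl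
  have r2 : hi (n + 2 + 1) = hi (n + 3) := rfl
  rcases hcase with ⟨c1, c2, c3, c4, c5⟩ | ⟨c1, c2, c3, c4, c5⟩
  · -- the left end
    have hlo : lo (n + 3) = lo (n + 2) + 1 := by
      by_contra hne
      have l0 : lo (n + 3) = lo (n + 2) := by omega
      subst c4
      refine nat_two_nb H hn (y1 := e (n + 3) (lo (n + 2))) (y2 := e (n + 3) (lo (n + 2) + 2))
        (v1 := e (n + 2) (lo (n + 2))) (v2 := e (n + 2) (lo (n + 2) + 1)) ly
        (W.lev_x _ le_rfl _ (by omega) (by omega)) (W.lev_x _ le_rfl _ (by omega) (by omega)) hyt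
        (W.le_t _ le_rfl _ (by omega) (by omega)) (W.le_t _ le_rfl _ (by omega) (by omega))
        ?_ ?_ ?_ ?_ ?_ ?_ ?_ D.up
      · intro hq
        have := eqe _ _ _ le_rfl (by omega) (by omega) (by omega) (by omega) hq
        omega
      · intro hq
        have := eqe _ _ _ le_rfl (by omega) (by omega) (by omega) (by omega) hq
        omega
      · intro hq
        have := eqe _ _ _ le_rfl (by omega) (by omega) (by omega) (by omega) hq
        omega
      · rw [← mem_uc, c5]; simp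
      · exact (W.cov (n + 2) (by omega) _ _ (by omega) (by omega) le_rfl (by omega)).2 (Or.inl rfl)
      · rw [← mem_uc, c5]; simp
      · exact (W.cov (n + 2) (by omega) _ _ (by omega) (by omega) (by omega) (by omega)).2
          (Or.inr rfl)
    have bb : ∀ b, lo (n + 2) ≤ b → b ≤ hi (n + 2) → e (n + 2) b ∈ uc y →
        b = lo (n + 2) ∨ b = lo (n + 2) + 1 := by
      intro b b1 b2 hb'
      rw [c5, mem_insert, mem_singleton] at hb'
      rcases hb' with hb' | hb'
      · left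
        exact eqe _ _ _ (by omega) b1 b2 (by omega) (by omega) hb'
      · right
        exact eqe _ _ _ (by omega) b1 b2 (by omega) (by omega) hb'
    refine ⟨?_, ?_, ?_⟩
    · refine (card_le_card (t := {e (n + 3) (lo (n + 2) + 1), e (n + 3) (lo (n + 2) + 2)})
        fun w hw => ?_).trans card_le_two
      obtain ⟨a, b, a1, a2, b1, b2, b3, rfl, b4⟩ := low w hw
      have b5 := bb b b1 b2 b4
      rw [mem_insert, mem_singleton]
      rcases (show a = lo (n + 2) + 1 ∨ a = lo (n + 2) + 2 by omega) with h1 | h1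
      · left; rw [h1]
      · right; rw [h1]
    · refine (card_le_card (t := {e (n + 1) (lo (n + 2)), e (n + 1) (lo (n + 2) + 1)})
        fun w hw => ?_).trans card_le_two
      obtain ⟨a, b, a1, a2, b1, b2, b3, rfl, b4⟩ := upp w hw
      have b5 := bb b b1 b2 b4
      rw [mem_insert, mem_singleton]
      rcases (show a = lo (n + 2) ∨ a = lo (n + 2) + 1 by omega) with h1 | h1
      · left; rw [h1]
      · right; rw [h1]
    · rw [card_le_one]
      intro w hw w' hw'
      obtain ⟨k, hk, a, a1, a2, rfl, a3⟩ := fup w hw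
      subst hk
      obtain ⟨k', hk', a', a1', a2', rfl, a3'⟩ := fup w' hw'
      obtain rfl : k' = k := by omega
      have key : ∀ a, lo k' ≤ a → a ≤ hi k' → dc (e k' a) = {u} → a + 1 = lo (k' + 1) := by
        intro a a1 a2 a3
        have h1 : u ⋖ e k' a := by rw [← mem_dc, a3]; simp
        obtain ⟨b, b1, b2, b3, b4⟩ := (W.dc_iff h.g t.2 (k := k') (by omega) a1 a2).1 h1
        rw [c3] at b4
        have b5 := eqe _ _ _ (by omega) b1 b2 (by omega) (by omega) b4
        by_contra hne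
        have h2 : e (k' + 1) (a + 1) ⋖ e k' a :=
          (W.cov k' (by omega) _ _ (by omega) (by omega) a1 a2).2 (Or.inr rfl)
        rw [← mem_dc, a3, mem_singleton, c3] at h2
        have := eqe _ _ _ (by omega) (by omega) (by omega) (by omega) (by omega) h2
        omega
      have q1 := key a a1 a2 a3
      have q2 := key a' a1' a2' a3'
      rw [show a = a' by omega]
  · -- the right end
    have hhi : hi (n + 3) = hi (n + 2) := by
      by_contra hne
      have l0 : hi (n + 3) = hi (n + 2) + 1 := by omega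
      subst c4
      refine nat_two_nb H hn (y1 := e (n + 3) (hi (n + 2) - 1)) (y2 := e (n + 3) (hi (n + 2) + 1))
        (v1 := e (n + 2) (hi (n + 2) - 1)) (v2 := e (n + 2) (hi (n + 2))) ly
        (W.lev_x _ le_rfl _ (by omega) (by omega)) (W.lev_x _ le_rfl _ (by omega) (by omega)) hyt
        (W.le_t _ le_rfl _ (by omega) (by omega)) (W.le_t _ le_rfl _ (by omega) (by omega))
        ?_ ?_ ?_ ?_ ?_ ?_ ?_ D.up
      · intro hq
        have := eqe _ _ _ le_rfl (by omega) (by omega) (by omega) (by omega) hq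
        omega
      · intro hq
        have := eqe _ _ _ le_rfl (by omega) (by omega) (by omega) (by omega) hq
        omega
      · intro hq
        have := eqe _ _ _ le_rfl (by omega) (by omega) (by omega) (by omega) hq
        omega
      · rw [← mem_uc, c5]; simp
      · exact (W.cov (n + 2) (by omega) _ _ (by omega) (by omega) (by omega) (by omega)).2
          (Or.inl rfl)
      · rw [← mem_uc, c5]; simp
      · exact (W.cov (n + 2) (by omega) _ _ (by omega) (by omega) (by omega) (by omega)).2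
          (Or.inr rfl)
    have bb : ∀ b, lo (n + 2) ≤ b → b ≤ hi (n + 2) → e (n + 2) b ∈ uc y →
        b + 1 = hi (n + 2) ∨ b = hi (n + 2) := by
      intro b b1 b2 hb'
      rw [c5, mem_insert, mem_singleton] at hb'
      rcases hb' with hb' | hb'
      · left
        have := eqe _ _ _ (by omega) b1 b2 (by omega) (by omega) hb'
        omega
      · right
        exact eqe _ _ _ (by omega) b1 b2 (by omega) (by omega) hb'
    refine ⟨?_, ?_, ?_⟩
    · refine (card_le_card (t := {e (n + 3) (hi (n + 2) - 1), e (n + 3) (hi (n + 2))})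
        fun w hw => ?_).trans card_le_two
      obtain ⟨a, b, a1, a2, b1, b2, b3, rfl, b4⟩ := low w hw
      have b5 := bb b b1 b2 b4
      rw [mem_insert, mem_singleton]
      rcases (show a = hi (n + 2) - 1 ∨ a = hi (n + 2) by omega) with h1 | h1
      · left; rw [h1]
      · right; rw [h1]
    · refine (card_le_card (t := {e (n + 1) (hi (n + 2) - 1), e (n + 1) (hi (n + 2) - 2)})
        fun w hw => ?_).trans card_le_two
      obtain ⟨a, b, a1, a2, b1, b2, b3, rfl, b4⟩ := upp w hw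
      have b5 := bb b b1 b2 b4
      rw [mem_insert, mem_singleton]
      rcases (show a = hi (n + 2) - 1 ∨ a = hi (n + 2) - 2 by omega) with h1 | h1
      · left; rw [h1]
      · right; rw [h1]
    · rw [card_le_one]
      intro w hw w' hw'
      obtain ⟨k, hk, a, a1, a2, rfl, a3⟩ := fup w hw
      subst hk
      obtain ⟨k', hk', a', a1', a2', rfl, a3'⟩ := fup w' hw'
      obtain rfl : k' = k := by omega
      have key : ∀ a, lo k' ≤ a → a ≤ hi k' → dc (e k' a) = {u} → a = hi (k' + 1) := by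
        intro a a1 a2 a3
        have h1 : u ⋖ e k' a := by rw [← mem_dc, a3]; simp
        obtain ⟨b, b1, b2, b3, b4⟩ := (W.dc_iff h.g t.2 (k := k') (by omega) a1 a2).1 h1
        rw [c3] at b4
        have b5 := eqe _ _ _ (by omega) b1 b2 (by omega) (by omega) b4
        by_contra hne
        have h2 : e (k' + 1) a ⋖ e k' a :=
          (W.cov k' (by omega) _ _ (by omega) (by omega) a1 a2).2 (Or.inl rfl)
        rw [← mem_dc, a3, mem_singleton, c3] at h2
        have := eqe _ _ _ (by omega) (by omega) (by omega) (by omega) (by omega) h2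
        omega
      have q1 := key a a1 a2 a3
      have q2 := key a' a1' a2' a3'
      rw [show a = a' by omega]

end Pool.Agent.GaussPoset.Wd

end

/-! From `Pool.Agent.W_448cl_h64.ClS` -/

section

/-!
MP_448cb3_co, G2, case B, windows `j - 1` and `j`: the pendant of a row with the pattern [DL], the doubled end
closed.  helper64.
-/

namespace Pool.Agent.GaussPoset.Wd

set_option linter.unusedSectionVars false

open Finset Win Win.I2 Win.Rc EK Win.Pn

universe u

variable {P : Type u} [Fintype P] [PartialOrder P] [DecidableEq P] {r j i n : ℕ}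
  {t : Tops P} {lo hi : ℕ → ℕ} {e : ℕ → ℕ → P} {m : ℕ} {x : ℕ → P} {c : ℕ → ℤ} {β : ℤ}

section near

variable (h : NJ P r (n + 3)) (C : Cp.Comp (n + 3) (t : P) lo hi e)
include h C

lemma NJ.nr_eq {k a b : ℕ} (hk : k ≤ n + 3) (a1 : lo k ≤ a) (a2 : a ≤ hi k) (b1 : lo k ≤ b)
    (b2 : b ≤ hi k) (hq : e k a = e k b) : a = b := by
  have W := C.toWin
  by_contra hne
  rcases Nat.lt_or_gt_of_ne hne with h1 | h1
  · exact W.inj k hk _ _ a1 h1 b2 hq
  · exact W.inj k hk _ _ b1 h1 a2 hq.symm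

/-- the near elements above -/
lemma NJ.near_up {y p : P} (ly : lev y = n + 3) (hyt : y ≤ (t : P))
    (sp : sit (n + 2) p = uc y) : ∀ w ∈ nUp (n + 2) p, ∃ a b, lo (n + 1) ≤ a ∧ a ≤ hi (n + 1) ∧
      lo (n + 2) ≤ b ∧ b ≤ hi (n + 2) ∧ (a = b ∨ a + 1 = b) ∧ w = e (n + 1) a ∧
        e (n + 2) b ∈ uc y := by
  have H := h.g.H
  have W := C.toWin
  intro w hw
  rw [mem_nUp, sp, not_disjoint_iff] at hw
  obtain ⟨lw, v, hv1, hv2⟩ := hw
  have lv := lev_uc H hv2
  have hvt : v ≤ (t : P) := by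
    have h1 : v ∈ SS (n + 2) t := (h.part (i := n + 2) (k := n + 3 + 1) (by omega) (by omega)
      t).up ((h.mem (by omega) t (by omega)).2 hyt) (mem_uc.1 hv2)
    exact (h.mem (by omega) t (by omega)).1 h1
  obtain ⟨b, b1, b2, rfl⟩ := W.surj (n + 2) (by omega) v (by omega) hvt
  obtain ⟨a, a1, a2, a3, rfl⟩ := (W.uc_iff h.g t.2 (k := n + 1) (by omega) b1 b2).1
    (mem_dc.1 hv1)
  exact ⟨a, b, a1, a2, b1, b2, a3, rfl, hv2⟩

/-- the near elements below -/
lemma NJ.near_low {y p : P} (ly : lev y = n + 3) (hyt : y ≤ (t : P))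
    (sp : sit (n + 2) p = uc y) : ∀ w ∈ nLp (n + 2) p, ∃ a b, lo (n + 3) ≤ a ∧ a ≤ hi (n + 3) ∧
      lo (n + 2) ≤ b ∧ b ≤ hi (n + 2) ∧ (b = a ∨ b + 1 = a) ∧ w = e (n + 3) a ∧
        e (n + 2) b ∈ uc y := by
  have H := h.g.H
  have W := C.toWin
  intro w hw
  rw [mem_nLp, sp, not_disjoint_iff] at hw
  obtain ⟨lw, v, hv1, hv2⟩ := hw
  have lv := lev_uc H hv2
  have hvt : v ≤ (t : P) := by
    have h1 : v ∈ SS (n + 2) t := (h.part (i := n + 2) (k := n + 3 + 1) (by omega) (by omega)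
      t).up ((h.mem (by omega) t (by omega)).2 hyt) (mem_uc.1 hv2)
    exact (h.mem (by omega) t (by omega)).1 h1
  obtain ⟨b, b1, b2, rfl⟩ := W.surj (n + 2) (by omega) v (by omega) hvt
  obtain ⟨a, a1, a2, a3, rfl⟩ := (W.dc_iff h.g t.2 (k := n + 2) (by omega) b1 b2).1
    (mem_uc.1 hv1)
  exact ⟨a, b, a1, a2, b1, b2, a3, rfl, hv2⟩

/-- the chains above -/
lemma NJ.fup_coord {y p u : P} (D : PdC (n + 2) t lo hi e y p u) :
    ∀ w ∈ FU' (n + 2) (SS (n + 2) t), ∃ k, n = k + 1 ∧ ∃ a, lo k ≤ a ∧ a ≤ hi k ∧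
      w = e k a ∧ dc (e k a) = {u} := by
  have H := h.g.H
  have W := C.toWin
  intro w hw
  rw [mem_FU'] at hw
  obtain ⟨hw1, z, hz1, hz2⟩ := hw
  have lz := (mem_PU.1 hz1).1
  have hzw : z ⋖ w := by rw [← mem_dc, hz2]; simp
  have lw := lev_cov H hzw
  have hwt : w ≤ (t : P) := (h.mem (by omega) t (by omega)).1 hw1
  have hzS : z ∈ SS (n + 2) t := (h.mem (by omega) t (by omega)).2 (hzw.le.trans hwt)
  obtain rfl := D.upp z hzS hz1
  obtain ⟨k, rfl⟩ : ∃ k, n = k + 1 := ⟨n - 1, by omega⟩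
  obtain ⟨a, a1, a2, rfl⟩ := W.surj k (by omega) w (by omega) hwt
  exact ⟨k, rfl, a, a1, a2, rfl, hz2⟩

/-- the left end: no chain above -/
lemma NJ.fup_left {y p u : P} (D : PdC (n + 2) t lo hi e y p u) (hb : lo (n + 2) + 3 ≤ hi (n + 2))
    (hu : u = e n (lo n)) (hk : ∀ k, n = k + 1 → lo (k + 1) = lo k) :
    FU' (n + 2) (SS (n + 2) t) = ∅ := by
  have W := C.toWin
  rw [eq_empty_iff_forall_notMem]
  intro w hw
  obtain ⟨k, rfl, a, a1, a2, rfl, a3⟩ := h.fup_coord C D w hw
  have h0 := hk k rfl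
  have h1 : u ⋖ e k a := by rw [← mem_dc, a3]; simp
  obtain ⟨b, b1, b2, b3, b4⟩ := (W.dc_iff h.g t.2 (k := k) (by omega) a1 a2).1 h1
  have f4 := C.lo_le (k + 1) (by omega)
  have s1 : lo (k + 1 + 1) = lo (k + 1) ∨ lo (k + 1 + 1) = lo (k + 1) + 1 :=
    C.lo_step (k + 1) (by omega)
  have s2 : lo (k + 1 + 2) = lo (k + 1 + 1) ∨ lo (k + 1 + 2) = lo (k + 1 + 1) + 1 :=
    C.lo_step (k + 2) (by omega)
  have s3 : hi (k + 1 + 1) = hi (k + 1) ∨ hi (k + 1 + 1) = hi (k + 1) + 1 :=
    C.hi_step (k + 1) (by omega)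
  have s4 : hi (k + 1 + 2) = hi (k + 1 + 1) ∨ hi (k + 1 + 2) = hi (k + 1 + 1) + 1 :=
    C.hi_step (k + 2) (by omega)
  rw [hu] at b4
  have b5 := h.nr_eq C (by omega) (le_refl (lo (k + 1))) f4 b1 b2 b4.symm
  have h2 : a + 1 ≤ hi (k + 1) := by omega
  have h3 : e (k + 1) (a + 1) ⋖ e k a :=
    (W.cov k (by omega) _ _ (by omega) h2 a1 a2).2 (Or.inr rfl)
  rw [← mem_dc, a3, mem_singleton, hu] at h3
  have := h.nr_eq C (by omega) (by omega) h2 (le_refl (lo (k + 1))) f4 h3
  omega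

/-- the right end: no chain above -/
lemma NJ.fup_right {y p u : P} (D : PdC (n + 2) t lo hi e y p u) (hb : lo (n + 2) + 3 ≤ hi (n + 2))
    (hu : u = e n (hi n)) (hk : ∀ k, n = k + 1 → hi (k + 1) = hi k + 1) :
    FU' (n + 2) (SS (n + 2) t) = ∅ := by
  have W := C.toWin
  rw [eq_empty_iff_forall_notMem]
  intro w hw
  obtain ⟨k, rfl, a, a1, a2, rfl, a3⟩ := h.fup_coord C D w hw
  have h0 := hk k rfl
  have h1 : u ⋖ e k a := by rw [← mem_dc, a3]; simp
  obtain ⟨b, b1, b2, b3, b4⟩ := (W.dc_iff h.g t.2 (k := k) (by omega) a1 a2).1 h1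
  have f4 := C.lo_le (k + 1) (by omega)
  have s1 : lo (k + 1 + 1) = lo (k + 1) ∨ lo (k + 1 + 1) = lo (k + 1) + 1 :=
    C.lo_step (k + 1) (by omega)
  have s2 : lo (k + 1 + 2) = lo (k + 1 + 1) ∨ lo (k + 1 + 2) = lo (k + 1 + 1) + 1 :=
    C.lo_step (k + 2) (by omega)
  have s3 : hi (k + 1 + 1) = hi (k + 1) ∨ hi (k + 1 + 1) = hi (k + 1) + 1 :=
    C.hi_step (k + 1) (by omega)
  have s4 : hi (k + 1 + 2) = hi (k + 1 + 1) ∨ hi (k + 1 + 2) = hi (k + 1 + 1) + 1 :=
    C.hi_step (k + 2) (by omega)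
  rw [hu] at b4
  have b5 := h.nr_eq C (by omega) f4 (le_refl (hi (k + 1))) b1 b2 b4.symm
  have h2 : lo (k + 1) ≤ a := by omega
  have h3 : e (k + 1) a ⋖ e k a :=
    (W.cov k (by omega) _ _ h2 (by omega) a1 a2).2 (Or.inl rfl)
  rw [← mem_dc, a3, mem_singleton, hu] at h3
  have := h.nr_eq C (by omega) h2 (by omega) f4 (le_refl (hi (k + 1))) h3
  omega

/-- the near elements of the pendant at the right end, closed -/
lemma NJ.near_right {y p : P} (ly : lev y = n + 3) (hyt : y ≤ (t : P)) (sp : sit (n + 2) p = uc y)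
    (hb : lo (n + 2) + 3 ≤ hi (n + 2)) (c2 : hi (n + 2) = hi (n + 1) + 1)
    (c5 : uc y = {e (n + 2) (hi (n + 2) - 1), e (n + 2) (hi (n + 2))})
    (hh : hi (n + 3) = hi (n + 2)) : (nLp (n + 2) p).card ≤ 2 ∧ (nUp (n + 2) p).card ≤ 2 := by
  have bb : ∀ b, lo (n + 2) ≤ b → b ≤ hi (n + 2) → e (n + 2) b ∈ uc y →
      b + 1 = hi (n + 2) ∨ b = hi (n + 2) := by
    intro b b1 b2 hb'
    rw [c5, mem_insert, mem_singleton] at hb'
    rcases hb' with hb' | hb'
    · left
      have := h.nr_eq C (by omega) b1 b2 (by omega) (by omega) hb'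
      omega
    · right
      exact h.nr_eq C (by omega) b1 b2 (by omega) (by omega) hb'
  constructor
  · refine (card_le_card (t := {e (n + 3) (hi (n + 2) - 1), e (n + 3) (hi (n + 2))})
      fun w hw => ?_).trans card_le_two
    obtain ⟨a, b, a1, a2, b1, b2, b3, rfl, b4⟩ := h.near_low C ly hyt sp w hw
    have b5 := bb b b1 b2 b4
    rw [mem_insert, mem_singleton]
    rcases (show a = hi (n + 2) - 1 ∨ a = hi (n + 2) by omega) with h1 | h1
    · left; rw [h1]
    · right; rw [h1]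
  · refine (card_le_card (t := {e (n + 1) (hi (n + 2) - 1), e (n + 1) (hi (n + 2) - 2)})
      fun w hw => ?_).trans card_le_two
    obtain ⟨a, b, a1, a2, b1, b2, b3, rfl, b4⟩ := h.near_up C ly hyt sp w hw
    have b5 := bb b b1 b2 b4
    rw [mem_insert, mem_singleton]
    rcases (show a = hi (n + 2) - 1 ∨ a = hi (n + 2) - 2 by omega) with h1 | h1
    · left; rw [h1]
    · right; rw [h1]

/-- the near elements of the pendant at the left end, open -/
lemma NJ.near_left {y p : P} (ly : lev y = n + 3) (hyt : y ≤ (t : P)) (sp : sit (n + 2) p = uc y)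
    (hb : lo (n + 2) + 3 ≤ hi (n + 2)) (c2 : lo (n + 2) = lo (n + 1))
    (c5 : uc y = {e (n + 2) (lo (n + 2)), e (n + 2) (lo (n + 2) + 1)}) :
    (nLp (n + 2) p).card ≤ 3 ∧ (nUp (n + 2) p).card ≤ 2 := by
  have bb : ∀ b, lo (n + 2) ≤ b → b ≤ hi (n + 2) → e (n + 2) b ∈ uc y →
      b = lo (n + 2) ∨ b = lo (n + 2) + 1 := by
    intro b b1 b2 hb'
    rw [c5, mem_insert, mem_singleton] at hb'
    rcases hb' with hb' | hb'
    · left
      exact h.nr_eq C (by omega) b1 b2 (by omega) (by omega) hb'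
    · right
      exact h.nr_eq C (by omega) b1 b2 (by omega) (by omega) hb'
  constructor
  · refine (card_le_card (t := {e (n + 3) (lo (n + 2)), e (n + 3) (lo (n + 2) + 1),
      e (n + 3) (lo (n + 2) + 2)}) fun w hw => ?_).trans card_le_three
    obtain ⟨a, b, a1, a2, b1, b2, b3, rfl, b4⟩ := h.near_low C ly hyt sp w hw
    have b5 := bb b b1 b2 b4
    rw [mem_insert, mem_insert, mem_singleton]
    rcases (show a = lo (n + 2) ∨ a = lo (n + 2) + 1 ∨ a = lo (n + 2) + 2 by omega) with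
      h1 | h1 | h1
    · left; rw [h1]
    · right; left; rw [h1]
    · right; right; rw [h1]
  · refine (card_le_card (t := {e (n + 1) (lo (n + 2)), e (n + 1) (lo (n + 2) + 1)})
      fun w hw => ?_).trans card_le_two
    obtain ⟨a, b, a1, a2, b1, b2, b3, rfl, b4⟩ := h.near_up C ly hyt sp w hw
    have b5 := bb b b1 b2 b4
    rw [mem_insert, mem_singleton]
    rcases (show a = lo (n + 2) ∨ a = lo (n + 2) + 1 by omega) with h1 | h1
    · left; rw [h1]
    · right; rw [h1]

end near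

end Pool.Agent.GaussPoset.Wd

end
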