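import Mathlib
import Pool.Agent.W_448zz_h61.Ns
import Pool.Agent.W_448zz_h61.M222
import Pool.Agent.W_448zz_h61.M226
import Pool.Agent.W_448zz_h61.M257
import Pool.Agent.W_448zz_h61.M270

/-! From `Pool.Agent.W_448j6_h22.KbK` -/

section

/-!
MP_448cb3_co, G2, case B, window `j`: the values of the sites, the bad doubles of a part.
-/

namespace Pool.Agent.GaussPoset.EK

set_option linter.unusedSectionVars false

open Finset Win St Polynomial Wd Win.W4

universe u

variable {P : Type u} [Fintype P] [PartialOrder P] [DecidableEq P] {r i j : ℕ}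

variable {m m' : ℕ} {x x' : ℕ → P} {c c' : ℕ → ℤ} {β β' : ℤ} {t : Tops P}

variable {K : Finset P} {psi : P → P} {Y V : P → P} {w v : P}

/-- a row without defects is natural -/
lemma RowB.nat_of (h : NJ P r j) (B : RowB P j t m x c β) (h0 : ∀ k, k < m → c k = 0)
    (hβ : β = 0) : NatT j (t : P) := by
  have H := h.g.H
  have key : ∀ a b, a < b → b ≤ m → ucv (x a) (x b) = dcv (x a) (x b) := by
    intro a b hab hb
    have hne : x a ≠ x b := fun q => by
      have := B.row.inj a b (by omega) hb q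
      omega
    have e1 := B.row.df a b hab hb
    rw [Df_pair H (B.row.lev_x a (by omega)) hne, hβ] at e1
    have e2 : (dcv (x a) (x b) : ℤ) - ucv (x a) (x b) = 0 := by
      rw [e1]
      split_ifs
      · exact h0 a (by omega)
      · rfl
      · rfl
    have : (ucv (x a) (x b) : ℤ) = dcv (x a) (x b) := by linarith
    exact_mod_cast this
  intro v v' hv hv' hvt hvt' hne
  obtain ⟨a, ha, rfl⟩ := B.row.surj v hv ((RowB.topOf_iff h hv).2 hvt)
  obtain ⟨b, hb, rfl⟩ := B.row.surj v' hv' ((RowB.topOf_iff h hv').2 hvt')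
  rcases Nat.lt_trichotomy a b with h1 | h1 | h1
  · exact key a b h1 hb
  · rw [h1] at hne
    exact absurd rfl hne
  · rw [StB_ucv_comm, StB_dcv_comm]
    exact key b a h1 ha

/-- two descriptions of the same row -/
theorem RowB.same (h : NJ P r j) (hj : 2 ≤ j) (B : RowB P j t m x c β)
    (B' : RowB P j t m' x' c' β') :
    m' = m ∧ ((∀ k, k ≤ m → x' k = x k) ∨ (∀ k, k ≤ m → x' k = x (m - k))) ∧
      (2 ≤ m → β' = β) := by
  classical
  obtain ⟨lo, hi, e, C⟩ := Cp.comp_exists h.g.H t.2 h.g.hr h.g.good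
  obtain ⟨h1, h2⟩ := B.orient h hj C
  obtain ⟨h3, h4⟩ := B'.orient h hj C
  have hm : m' = m := by omega
  subst hm
  have hor : (∀ k, k ≤ m' → x' k = x k) ∨ (∀ k, k ≤ m' → x' k = x (m' - k)) := by
    rcases h2 with h2 | h2 <;> rcases h4 with h4 | h4
    · left
      intro k hk
      rw [h4 k hk, h2 k hk]
    · right
      intro k hk
      rw [h4 k hk, h2 (m' - k) (by omega), show lo j + (m' - k) = hi j - k by omega]
    · right
      intro k hk
      rw [h4 k hk, h2 (m' - k) (by omega), show hi j - (m' - k) = lo j + k by omega]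
    · left
      intro k hk
      rw [h4 k hk, h2 k hk]
  refine ⟨rfl, hor, fun hm2 => ?_⟩
  have e1 := B.row.df 0 m' (by omega) le_rfl
  have e2 := B'.row.df 0 m' (by omega) le_rfl
  rw [if_neg (by omega), if_pos ⟨rfl, rfl⟩] at e1 e2
  rw [← e1, ← e2]
  rcases hor with h5 | h5
  · rw [h5 0 (by omega), h5 m' le_rfl]
  · rw [h5 0 (by omega), h5 m' le_rfl, Nat.sub_zero, Nat.sub_self, pair_comm]

/-- the bad doubles are in the rotated rows with at least four sites -/
theorem RowB.bad (h : NJ P r j) (hj : 2 ≤ j) (B : RowB P j t m x c β) {y : P}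
    (hy : BadR P j y) (ht : topOf y = t) : 3 ≤ m ∧ β = 1 := by
  obtain ⟨m', x', c', β', B', h3, hb, -⟩ := hy
  rw [ht] at B'
  obtain ⟨h1, -, h2⟩ := B.same h hj B'
  have := h2 (by omega)
  exact ⟨by omega, by rw [← this, hb]⟩

/-- the values in a part with two unmatched elements -/
theorem sa_K5 (h : NJ P r j) (R : Red P j K psi)
    (Q : K5 r j K psi (cext (j + 1) (topOf : P → Tops P) t) w v) (T : Finset P) :
    sa j (topOf : P → Tops P) K T t =
      (if Disjoint (uc w) T then 1 else 0) - (if Disjoint (dc v) T then 1 else 0) := by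
  classical
  have lw := Q.lw0
  have lv := Q.lv0
  have wK : w ∈ K := (Q.hK w Q.wC).2 (Or.inl rfl)
  have vK : v ∈ K := (Q.hK v Q.vC).2 (Or.inr rfl)
  have wd : w ∈ dbL P j := by
    rcases mem_union.1 (R.sub wK) with h1 | h1
    · exact h1
    · have := (mem_dbU.1 h1).1
      omega
  have vd : v ∈ dbU P j := by
    rcases mem_union.1 (R.sub vK) with h1 | h1
    · have := (mem_dbL.1 h1).1
      omega
    · exact h1
  have tw : topOf w = t := mem_cext.1 Q.wC w le_rfl (by omega)
  have tv : topOf v = t := mem_cext.1 Q.vC v le_rfl (by omega)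
  have hne : w ≠ v := Q.ne
  rw [sa_eq]
  have e1 : K.filter (fun k => topOf k = t ∧ Disjoint (ns j k) T) =
      ({w, v} : Finset P).filter (fun k => Disjoint (ns j k) T) := by
    ext k
    rw [mem_filter, mem_filter, mem_insert, mem_singleton]
    constructor
    · rintro ⟨h1, h2, h3⟩
      have hl : lev k ≤ j + 1 := by
        rcases mem_union.1 (R.sub h1) with h4 | h4
        · exact (mem_dbL.1 h4).1.le
        · have := (mem_dbU.1 h4).1
          omega
      exact ⟨(Q.hK k (mem_cext_of_le h.split hl h2)).1 h1, h3⟩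
    · rintro ⟨h1 | h1, h2⟩
      · subst h1
        exact ⟨wK, tw, h2⟩
      · subst h1
        exact ⟨vK, tv, h2⟩
  rw [e1, sum_filter, sum_pair hne, sgn_low wd, sgn_upp vd, ns_L wd, ns_U vd]
  split_ifs <;> norm_num

/-- a natural part has the values 0 -/
lemma sa_nat (h : NJ P r j) (R : Red P j K psi) (hn : NatT j (t : P)) (T : Finset P) :
    sa j (topOf : P → Tops P) K T t = 0 := by
  refine paO_sa_none fun k hk ht => ?_
  exfalso
  have hl : lev k ≤ j + 1 := by
    rcases mem_union.1 (R.sub hk) with h4 | h4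
    · exact (mem_dbL.1 h4).1.le
    · have := (mem_dbU.1 h4).1
      omega
  exact NJ.nat_K h R hn k (mem_cext_of_le h.split hl ht) hk

lemma dis_pair {a b q : P} : Disjoint ({a, b} : Finset P) {q} ↔ q ≠ a ∧ q ≠ b := by
  rw [disjoint_singleton_right, mem_insert, mem_singleton]
  tauto

section own

variable (h : NJ P r j) (hj : 2 ≤ j) (R : Red P j K psi) (hY : YV j Y V)

include h hj R hY

/-- a natural part -/
theorem NJ.own_nat (B : RowB P j t m x c β) (h0 : ∀ k, k < m → c k = 0) (hb : β = 0) :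
    PA j K Y V t + PB j K Y V t ≤ TT j t := by
  classical
  have hjr : j ≤ r := by have := h.hr; omega
  have hn := B.nat_of h h0 hb
  have a1 : PA j K Y V t = 0 := NJ.PA_zero h hj R hY fun y hy ht => by
    have := (B.bad h hj hy ht).2
    omega
  have a2 : PB j K Y V t = 0 := NJ.PB_zero h hj R hY B fun q _ _ => by rw [sa_nat h R hn]
  have Q := NJ.nat4 h hj R hn
  have hs : Small j (topOf : P → Tops P) t := by
    rcases B.small h.g.H h.split with h2 | h2
    · exact h2
    · exfalso
      obtain ⟨h3, -, h4, -⟩ := h2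
      rw [h0 0 (by omega)] at h4
      norm_num at h4
  have hw : wv j (cext (j + 1) (topOf : P → Tops P) t) = 0 := by
    unfold wv I2.w3
    have h2 := Q.prof.mid 3 (by norm_num)
    apply I2.coeff_zero_of_dvd
      (a := (st j (cext (j + 1) (topOf : P → Tops P) t)).card + 1) _ (by omega)
    rw [pow_succ', pow_two, mul_assoc]
    exact mul_dvd_mul_left _ h2
  have hF := NJ.nat_F h hj hn
  rw [a1, a2, NJ.TT_small h hj R hs]
  unfold W4.Tv Lv I2.Q4
  unfold Fn at hF
  have hw' := hw
  unfold wv at hw'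
  rw [hw, hw']
  linarith

/-- the pattern [DL] with three sites -/
theorem NJ.own_dl2 (B : RowB P j t 2 x c β) (hβ : β = 0) (c0 : c 0 = 1) (c1 : c 1 = -1) :
    PA j K Y V t + PB j K Y V t ≤ TT j t := by
  classical
  obtain ⟨w, v, D⟩ := NJ.dl2 h hj R B hβ c0 c1
  have W := D.W
  have n02 : x 0 ≠ x 2 := W.ne (by omega) (by omega) (by omega)
  have n01 : x 0 ≠ x 1 := W.ne (by omega) (by omega) (by omega)
  have n12 : x 1 ≠ x 2 := W.ne (by omega) (by omega) (by omega)
  have a1 : PA j K Y V t = 0 := NJ.PA_zero h hj R hY fun y hy ht => by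
    have := (B.bad h hj hy ht).2
    omega
  have a2 := NJ.PB_le h hj R hY B (q0 := 2) (b := 1) le_rfl fun q hq hq1 => by
    have hq3 : q = 0 ∨ q = 1 ∨ q = 2 := by omega
    rw [sa_K5 h R D.Q, D.hw, D.hv] at hq1 ⊢
    rcases hq3 with rfl | rfl | rfl
    · rw [if_neg (by rw [dis_pair]; tauto), if_pos (by rw [dis_pair]; exact ⟨n01, n02⟩)] at hq1
      norm_num at hq1
    · rw [if_neg (by rw [dis_pair]; tauto), if_neg (by rw [dis_pair]; tauto)] at hq1
      norm_num at hq1
    · rw [if_pos (by rw [dis_pair]; exact ⟨n02.symm, n12.symm⟩), if_neg (by rw [dis_pair]; tauto)]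
      exact ⟨rfl, by norm_num⟩
  have hs : Small j (topOf : P → Tops P) t := by
    rcases B.small h.g.H h.split with h2 | h2
    · exact h2
    · have := h2.1
      omega
  have := D.T_ge
  rw [a1, NJ.TT_small h hj R hs]
  linarith

/-- the pattern R with three sites -/
theorem NJ.own_r2 (B : RowB P j t 2 x c β) (hβ : β = 1) (c0 : c 0 = -1) (c1 : c 1 = 0) :
    PA j K Y V t + PB j K Y V t ≤ TT j t := by
  classical
  obtain ⟨w, v, D⟩ := NJ.r2 h hj R B hβ c0 c1
  have W := D.W
  have n02 : x 0 ≠ x 2 := W.ne (by omega) (by omega) (by omega)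
  have n01 : x 0 ≠ x 1 := W.ne (by omega) (by omega) (by omega)
  have n12 : x 1 ≠ x 2 := W.ne (by omega) (by omega) (by omega)
  have a1 : PA j K Y V t = 0 := NJ.PA_zero h hj R hY fun y hy ht => by
    have := (B.bad h hj hy ht).1
    omega
  have a2 := NJ.PB_le h hj R hY B (q0 := 1) (b := 1) le_rfl fun q hq hq1 => by
    have hq3 : q = 0 ∨ q = 1 ∨ q = 2 := by omega
    rw [sa_K5 h R D.Q, D.hw, D.hv] at hq1 ⊢
    rcases hq3 with rfl | rfl | rfl
    · rw [if_neg (by rw [dis_pair]; tauto), if_neg (by rw [dis_pair]; tauto)] at hq1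
      norm_num at hq1
    · rw [if_pos (by rw [dis_pair]; exact ⟨n12, n01.symm⟩), if_neg (by rw [dis_pair]; tauto)]
      exact ⟨rfl, by norm_num⟩
    · rw [if_neg (by rw [dis_pair]; tauto),
        if_pos (by rw [dis_pair]; exact ⟨n02.symm, n12.symm⟩)] at hq1
      norm_num at hq1
  have hs : Small j (topOf : P → Tops P) t := by
    rcases B.small h.g.H h.split with h2 | h2
    · exact h2
    · have := h2.1
      omega
  have := D.T_ge
  rw [a1, NJ.TT_small h hj R hs]
  linarith

/-- the pattern [DL], at least four sites -/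
theorem NJ.own_dl (B : RowB P j t m x c β) (hm : 3 ≤ m) (hβ : β = 0) (c0 : c 0 = 1)
    (c1 : c 1 = -1) (c2 : ∀ k, 2 ≤ k → k < m → c k = 0)
    (hT : 2 * ((pen (x 2)).card : ℤ) ≤ W4.Tv j (cext (j + 1) (topOf : P → Tops P) t)) :
    PA j K Y V t + PB j K Y V t ≤ TT j t := by
  classical
  obtain ⟨w, v, D⟩ := NJ.dlg h hj R B hm hβ c0 c1 c2
  have W := D.W
  have hne : ∀ k l, k ≤ m → l ≤ m → k ≠ l → x k ≠ x l := fun k l hk hl hkl =>
    W.ne hk hl hkl
  have a1 : PA j K Y V t = 0 := NJ.PA_zero h hj R hY fun y hy ht => by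
    have := (B.bad h hj hy ht).2
    omega
  have a2 := NJ.PB_le h hj R hY B (q0 := 2) (b := 1) le_rfl fun q hq hq1 => by
    rw [sa_K5 h R D.Q, D.hw, D.hv] at hq1 ⊢
    have hq3 : q = 0 ∨ q = 1 ∨ q = 2 ∨ 3 ≤ q := by omega
    rcases hq3 with rfl | rfl | rfl | hq3
    · rw [if_neg (by rw [dis_pair]; tauto), if_pos (by
        rw [dis_pair]
        exact ⟨hne 0 1 (by omega) (by omega) (by omega), hne 0 2 (by omega) (by omega) (by omega)⟩)]
        at hq1
      norm_num at hq1
    · rw [if_neg (by rw [dis_pair]; tauto), if_neg (by rw [dis_pair]; tauto)] at hq1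
      norm_num at hq1
    · rw [if_pos (by
        rw [dis_pair]
        exact ⟨hne 2 0 (by omega) (by omega) (by omega), hne 2 1 (by omega) (by omega) (by omega)⟩),
        if_neg (by rw [dis_pair]; tauto)]
      exact ⟨rfl, by norm_num⟩
    · rw [if_pos (by
        rw [dis_pair]
        exact ⟨hne q 0 hq (by omega) (by omega), hne q 1 hq (by omega) (by omega)⟩),
        if_pos (by
        rw [dis_pair]
        exact ⟨hne q 1 hq (by omega) (by omega), hne q 2 hq (by omega) (by omega)⟩)] at hq1
      norm_num at hq1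
  have hs : Small j (topOf : P → Tops P) t := by
    rcases B.small h.g.H h.split with h2 | h2
    · exact h2
    · exfalso
      obtain ⟨h3, -, -, -, h4, -⟩ := h2
      rw [c2 (m - 2) (by omega) (by omega)] at h4
      norm_num at h4
  rw [a1, NJ.TT_small h hj R hs]
  linarith

end own

end Pool.Agent.GaussPoset.EK

end

/-! From `Pool.Agent.W_448na_h84.NaA` -/

section

/-!
# MP_448cb3_co, case B: the joins of a pendant and a three-site element inside a part (window `j - 1`)
are counted by `|Z4| - |T4|` at the window `j` (helper84)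
-/

set_option autoImplicit false

namespace Pool.Agent.GaussPoset.EK

set_option linter.unusedSectionVars false

open Finset Win St Polynomial Wd Win.W4

universe u

variable {P : Type u} [Fintype P] [PartialOrder P] [DecidableEq P] {r i j : ℕ}

/-- the joins of a pendant and a three-site element inside a part, window `j - 1` -/
lemma NJ.n5_le (h : NJ P r j) (hij : i + 1 = j) (hi1 : 1 ≤ i) (t : Tops P) :
    ((SO.N5f i (SS i t)).card : ℤ) ≤
      ((Z4 j (SS j t)).card : ℤ) - (T4 j (SS j t)).card := by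
  classical
  have H := h.g.H
  have hSS : SS i t = SS j t := by
    rw [← h.cext_eq (i := i) (by omega) t, ← h.cext_eq (i := j) (by omega) t]
  rw [← W1.nfc_eq h hij hi1 t]
  have h1 : Rd.NfC i (SS i t) ⊆ Z4 j (SS j t) \ T4 j (SS j t) := by
    intro a ha
    rw [Rd.mem_NfC] at ha
    obtain ⟨z, z2, w, w2, y, S⟩ := ha
    obtain ⟨l1, l2, l3, l4, l5⟩ := S.lv H
    have la : lev a = j + 2 := by
      have := lev_uc H (show z ∈ uc a by rw [S.ua]; simp)
      omega
    have hZL : a ∈ ZL j (SS j t) := by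
      refine mem_ZL.2 ⟨by rw [← hSS]; exact S.mc, la, ?_⟩
      rw [up_two H la S.ua, S.uz, S.uz2]
      rw [show ({w, w2} ∪ {y} : Finset P) = {w, w2, y} by
        ext q
        simp only [mem_union, mem_insert, mem_singleton]
        tauto]
      exact card_eq_three.2 ⟨w, w2, y, S.ww, S.yw.symm, S.yw2.symm, rfl⟩
    rw [mem_sdiff]
    refine ⟨mem_Z4.2 (Or.inl hZL), fun hT => ?_⟩
    rcases mem_T4.1 hT with ⟨-, h3⟩ | ⟨h3, -⟩
    · have := h3 z2 (by rw [S.ua]; simp)
      rw [S.uz2, card_singleton] at this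
      omega
    · have := (mem_ZU.1 h3).2.1
      omega
  have h2 := card_le_card h1
  rw [card_sdiff_of_subset (T4_subset j (SS j t))] at h2
  have h3 := card_le_card (T4_subset j (SS j t))
  omega

end Pool.Agent.GaussPoset.EK

end

/-! From `Pool.Agent.W_448na_h84.NaC` -/

section

/-!
# MP_448cb3_co, case B: natural rows with at least four sites for the functional
`<-1, 9, 1, 4, 3, -1, 2, 13, 0>` (helper84)
-/

namespace Pool.Agent.GaussPoset.Wd

set_option linter.unusedSectionVars false

open Finset Win Win.I2 Win.Rc EK Win.Pn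
open Pool.Agent.GaussPoset.Win.So (Z2s mem_Z2s)

universe u

variable {P : Type u} [Fintype P] [PartialOrder P] [DecidableEq P] {r j i : ℕ}
  {t : Tops P} {m : ℕ} {x : ℕ → P} {c : ℕ → ℤ} {β : ℤ}

/-- at most two elements below -/
lemma kc_le (H : Gr P r) (z : P) : kc z ≤ 2 := by
  classical
  unfold kc
  have h1 : (ks z).card ≤ 2 := by
    refine (card_le_card (t := dc z) fun w hw => ?_).trans (dc_card_le H z)
    rw [mem_ks] at hw
    rw [mem_dc, ← mem_uc, hw]
    exact mem_singleton_self z
  exact_mod_cast h1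

/-- the chains and the joins of a pendant -/
lemma NJ.ks_zs_le (h : NJ P r j) (hij : i + 1 = j) (p : P) :
    kc p + zc i (topOf : P → Tops P) p ≤ 2 := by
  classical
  subst hij
  have H := h.g.H
  have hd : Disjoint (ks p) (zs i (topOf : P → Tops P) p) := by
    rw [Finset.disjoint_left]
    intro w hw1 hw2
    rw [mem_ks] at hw1
    obtain ⟨p1, p2, y, y', D, hu, hne⟩ := Z2s_pair H h.split (mem_zs.1 hw2).1
    rw [hw1] at hu
    have h1 := congrArg Finset.card hu
    rw [card_singleton, card_pair hne] at h1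
    omega
  have h1 : (ks p).card + (zs i (topOf : P → Tops P) p).card ≤ 2 := by
    rw [← card_union_of_disjoint hd]
    refine (card_le_card (t := dc p) fun w hw => ?_).trans (dc_card_le H p)
    rw [mem_union] at hw
    rcases hw with hw | hw
    · rw [mem_ks] at hw
      rw [mem_dc, ← mem_uc, hw]
      exact mem_singleton_self p
    · rw [mem_dc]
      exact mem_uc.1 (mem_zs.1 hw).2
  unfold kc zc
  exact_mod_cast h1

/-- the arithmetic of a pendant of a natural row -/
lemma nat_num {z k U n s : ℤ} (hz : 0 ≤ z) (hk : 0 ≤ k) (hU0 : 0 ≤ U) (hU : U ≤ 1)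
    (hkz : k + z ≤ 2) (hn : n ≤ 4) (hs : s ≤ 2 * z) :
    0 ≤ 2 * ((k - U) ^ 2 - (k - U)) +
      (24 * z - 4 * z * (k + n) - 2 * s + 8 * z * (k - U) + 2 * (z * (z - 1))) := by
  have h1 : z ≤ 2 := by omega
  have h2 : k ≤ 2 := by omega
  interval_cases z <;> interval_cases k <;> interval_cases U <;> omega

section big

variable (h : NJ P r j) (hij : i + 1 = j) (hi1 : 1 ≤ i) (B : RowB P j t m x c β)
include h hij hi1 B

/-- natural rows with at least four sites -/
theorem NJ.nat_big (hβ : β = 0) (hc : ∀ k, k < m → c k = 0) (h4 : 4 ≤ (st i (SS i t)).card) :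
    0 ≤ 2 * own ⟨-1, 9, 1, 4, 3, -1, 2, 13, 0⟩ i j t +
      ∑ p ∈ (PD P i).filter (fun p => (topOf p : Tops P) = t),
        shr ⟨-1, 9, 1, 4, 3, -1, 2, 13, 0⟩ i p := by
  classical
  have H := h.g.H
  have hn : NatT j (t : P) := RowB.nat_of h B hc hβ
  obtain ⟨lo, hi, e, C⟩ := Cp.comp_exists h.g.H t.2 h.g.hr h.g.good
  have hcard := h.card_SS (i := i) (by omega) C
  have hb : lo i + 3 ≤ hi i := by omega
  have o2 := EK.NJ.nat_own2s h (by omega) hn
  rw [h.cext_eq (i := j) (by omega) t] at o2
  have o5 := EK.NJ.n5_le h hij hi1 t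
  have e2 : own2 ⟨-1, 9, 1, 4, 3, -1, 2, 13, 0⟩ j t = - Pn.F2 j t + 2 * Pn.F4 j t + 13 * Pn.F3 j t := by
    unfold own2
    ring
  have n1_0 : 0 ≤ n1 i (SS i t) := by
    unfold n1
    exact Int.natCast_nonneg _
  have key : ∀ q, q ≤ m → (∀ z, z ∈ FL i (SS i t) ∨ z ∈ FU' i (SS i t) → sit i z = uc (x q)) →
      fa i (SS i t) ^ 2 - fa i (SS i t) ≤ own ⟨-1, 9, 1, 4, 3, -1, 2, 13, 0⟩ i j t := by
    intro q hq h0
    have o1 := h.own1_nat hij hi1 B ⟨-1, 9, 1, 4, 3, -1, 2, 13, 0⟩ h4 hc hq h0
    rw [own_eq, o1, e2]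
    unfold n5
    simp only
    linarith
  rcases h.pd_nat hij hi1 C hb hn with hN | ⟨y, p, u, D, ly, hyt, np, nu, fu⟩
  · have f1 : FL i (SS i t) = ∅ := by
      rw [eq_empty_iff_forall_notMem]
      intro w hw
      rw [mem_FL] at hw
      obtain ⟨hw1, z, hz1, hz2⟩ := hw
      have hzw : w ⋖ z := by rw [← mem_uc, hz2]; simp
      have hz : z ∈ SS i t := (h.part (i := i) (k := j + 1) (by omega) (by omega) t).up hw1 hzw
      exact (hN z hz).1 hz1
    have f2 : FU' i (SS i t) = ∅ := by
      rw [eq_empty_iff_forall_notMem]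
      intro w hw
      rw [mem_FU'] at hw
      obtain ⟨hw1, z, hz1, hz2⟩ := hw
      have lz := (mem_PU.1 hz1).1
      have hzw : z ⋖ w := by rw [← mem_dc, hz2]; simp
      have lw := lev_cov H hzw
      have hwt : w ≤ (t : P) := (h.mem (by omega) t (by omega)).1 hw1
      have hzS : z ∈ SS i t := (h.mem (by omega) t (by omega)).2 (hzw.le.trans hwt)
      exact (hN z hzS).2 hz1
    have k1 := key 0 (Nat.zero_le _) (by
      intro z hz
      rw [f1, f2] at hz
      simp at hz)
    have k2 : fa i (SS i t) = 0 := by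
      unfold fa
      rw [f1, f2]
      simp
    have k3 : (PD P i).filter (fun p => (topOf p : Tops P) = t) = ∅ := by
      rw [eq_empty_iff_forall_notMem]
      intro q hq
      rw [mem_filter] at hq
      obtain ⟨hq1, hq2⟩ := hq
      have lq := (mem_PD.1 hq1).1
      exact (hN q ((h.mem (by omega) t (by omega)).2 (hq2 ▸ le_topOf q))).1 hq1
    rw [k3, sum_empty]
    rw [k2] at k1
    linarith
  · obtain ⟨q, hq, rfl⟩ := B.row.surj y ly (by
      refine Subtype.ext ?_
      exact Hul.top_unique (h.nj (by omega)) (topOf y).2 t.2 (le_topOf y) hyt)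
    have lp := (mem_PD.1 D.pd).1
    have lu := (mem_PU.1 D.pu).1
    have fl : FL i (SS i t) = ks p := by
      ext w
      rw [mem_FL, mem_ks]
      constructor
      · rintro ⟨hw1, z, hz1, hz2⟩
        have hzw : w ⋖ z := by rw [← mem_uc, hz2]; simp
        have hz : z ∈ SS i t := (h.part (i := i) (k := j + 1) (by omega) (by omega) t).up hw1 hzw
        rw [hz2, D.low z hz hz1]
      · intro hw
        refine ⟨?_, p, D.pd, hw⟩
        have hwp : w ⋖ p := by rw [← mem_uc, hw]; simp
        have lw := lev_cov H hwp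
        have hp := D.mp
        unfold SS at hp ⊢
        rw [mem_cext] at hp ⊢
        intro v hv hlv
        refine hp v ?_ hlv
        rcases eq_or_lt_of_le hv with rfl | hv'
        · omega
        · obtain ⟨v', q1, q2⟩ := exists_covBy_le_of_lt hv'
          rw [← mem_uc, hw, mem_singleton] at q1
          rwa [← q1]
    have h0 : ∀ z, z ∈ FL i (SS i t) ∨ z ∈ FU' i (SS i t) → sit i z = uc (x q) := by
      intro z hz
      rcases hz with hz | hz
      · rw [fl, mem_ks] at hz
        rw [sit_FL H D.pd hz, ← D.sp, sit_low H (by omega)]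
      · rw [mem_FU'] at hz
        obtain ⟨hw1, v, hz1, hz2⟩ := hz
        have lz := (mem_PU.1 hz1).1
        have hzw : v ⋖ z := by rw [← mem_dc, hz2]; simp
        have lw := lev_cov H hzw
        have hwt : z ≤ (t : P) := (h.mem (by omega) t (by omega)).1 hw1
        have hzS : v ∈ SS i t := (h.mem (by omega) t (by omega)).2 (hzw.le.trans hwt)
        obtain rfl := D.upp v hzS hz1
        rw [sit_FU H D.pu hz2, ← D.su, sit_upp H (by omega)]
    have k1 := key q hq h0
    have k3 : (PD P i).filter (fun p => (topOf p : Tops P) = t) = {p} := by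
      ext w
      rw [mem_filter, mem_singleton]
      constructor
      · rintro ⟨hq1, hq2⟩
        have lq := (mem_PD.1 hq1).1
        exact D.low w ((h.mem (by omega) t (by omega)).2 (hq2 ▸ le_topOf w)) hq1
      · rintro rfl
        refine ⟨D.pd, ?_⟩
        have hwt : w ≤ (t : P) := (h.mem (by omega) t (by omega)).1 D.mp
        refine Subtype.ext ?_
        exact Hul.top_unique (h.nj (by omega)) (topOf w).2 t.2 (le_topOf w) hwt
    rw [k3, sum_singleton]
    have s1 := h.shr_row hij hi1 B ⟨-1, 9, 1, 4, 3, -1, 2, 13, 0⟩ h4 hq D.up D.pd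
    have s2 : ∑ l ∈ (Ed x m).filter (fun l => l ≤ q + 1 ∧ q ≤ l + 2), c l = 0 := by
      refine Finset.sum_eq_zero fun l hl => ?_
      rw [mem_filter, mem_Ed] at hl
      exact hc l hl.1.1
    have s3 : ((Et x m c).filter (fun l => l ≤ q + 1 ∧ q ≤ l + 2)) = ∅ := by
      rw [eq_empty_iff_forall_notMem]
      intro l hl
      rw [mem_filter, mem_Et, mem_Ed] at hl
      have h1 := hc l hl.1.1.1
      rw [hl.1.2] at h1
      exact one_ne_zero h1
    have s4 : ∑ z ∈ zs i (topOf : P → Tops P) p, kc z ≤ 2 * zc i (topOf : P → Tops P) p := by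
      have h1 : ∑ z ∈ zs i (topOf : P → Tops P) p, kc z ≤ ∑ _z ∈ zs i (topOf : P → Tops P) p, 2 :=
        Finset.sum_le_sum fun z _ => kc_le H z
      rw [sum_const, nsmul_eq_mul] at h1
      unfold zc
      linarith
    have s5 := h.ks_zs_le hij p
    have s6 : fa i (SS i t) = kc p - (FU' i (SS i t)).card := by
      unfold fa kc
      rw [fl]
    have s7 : nn i p ≤ 4 := by
      unfold nn
      have h1 : ((nLp i p).card : ℤ) ≤ 2 := by exact_mod_cast np
      have h2 : ((nUp i p).card : ℤ) ≤ 2 := by exact_mod_cast nu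
      linarith
    have s8 : ((FU' i (SS i t)).card : ℤ) ≤ 1 := by exact_mod_cast fu
    have s9 : 0 ≤ zc i (topOf : P → Tops P) p := by
      unfold zc
      exact Int.natCast_nonneg _
    have s10 : 0 ≤ kc p := by
      unfold kc
      exact Int.natCast_nonneg _
    have N := nat_num s9 s10 (Int.natCast_nonneg (FU' i (SS i t)).card) s8 s5 s7 s4
    rw [s1, s2, s3, card_empty]
    rw [← s6] at N
    push_cast
    linarith

end big

end Pool.Agent.GaussPoset.Wd

end
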