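import Mathlib
import Pool.Agent.W_448zz_h61.Ns
import Pool.Agent.W_448zz_h61.M143
import Pool.Agent.W_448zz_h61.M145
import Pool.Agent.W_448zz_h61.M180
import Pool.Agent.W_448zz_h61.M267
import Pool.Agent.W_448zz_h61.M271

/-! From `Pool.Agent.W_448fin_h16.FnH` -/

section

/-!
# Final assembly (MP_448cb3_co): step A for the levels at most `18`

The levels `j ≤ 7`, `j = 9`, `j = 17`, `j = 18` are done, `j = 16` from the seventh step.
-/

namespace Pool.Agent.GaussPoset.Win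

set_option linter.unusedSectionVars false

open Finset

universe u

/-- INPUT: step A for `j = 8` and `j = 10, .., 15` -/
def HJoin (P : Type u) [Fintype P] [PartialOrder P] [DecidableEq P] : Prop :=
  ∀ r j, (j = 8 ∨ (10 ≤ j ∧ j ≤ 15)) → Bad P r j → ∀ z : P, lev z = j + 1 → ¬ Hul.Jn z

/-- INPUT: the seventh step for `j = 16` -/
def HS7 (P : Type u) [Fintype P] [PartialOrder P] [DecidableEq P] : Prop :=
  ∀ r, Bad P r 16 → Fi.S7F P 8

variable {P : Type u} [Fintype P] [PartialOrder P] [DecidableEq P] {r j : ℕ}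

theorem hfin (h1 : HJoin P) (h2 : HS7 P) : HFin P := by
  intro r j hj hB z hz
  have hj1 := hB.one_le
  have hcase : j ≤ 4 ∨ j = 5 ∨ j = 6 ∨ j = 7 ∨ j = 9 ∨ (j = 8 ∨ (10 ≤ j ∧ j ≤ 15)) ∨ j = 16 ∨
      j = 17 ∨ j = 18 := by omega
  obtain ⟨lo, hi, e, hC, hS⟩ := hsh (P := P) r j hB.gt
  rcases hcase with h | h | h | h | h | h | h | h | h
  · exact Sm.no_join_le4 hB.gt hj1 h hC hS hz
  · subst h
    exact Sm.no_join5 ⟨hB.gt, by norm_num, by norm_num, hC, hS⟩ hz
  · subst h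
    exact Sm.no_join6w ⟨hB.gt, by norm_num, by norm_num, hC, hS⟩ hz
  · subst h
    exact Sm.no_join7w ⟨hB.gt, by norm_num, by norm_num, hC, hS⟩ hz
  · subst h
    exact Sm.no_join9 ⟨hB.gt, by norm_num, by norm_num, hC, hS⟩ hz
  · exact h1 r j h hB z hz
  · subst h
    exact Fi.no_jn16 hB.gt hB.lt hC hS (h2 r hB) z hz
  · subst h
    exact Fi.no_jn17 hB.gt hC hS z hz
  · subst h
    exact Fi.no_jn18 hB.gt hB.lt hC hS z hz

end Pool.Agent.GaussPoset.Win

end

/-! From `Pool.Agent.W_448fin_h16.FnI` -/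

section

/-!
# Final assembly (MP_448cb3_co): the inputs which are left

* `HJoin10`: step A for `j = 10, .., 15`;
* `HS7`: the seventh step for `j = 16`;
* `HCC7`: no element (C) for `m = 3, 5, 6, 7`;
* `HRow`: the rows of step B.
-/

namespace Pool.Agent.GaussPoset.Win

set_option linter.unusedSectionVars false

open Finset

universe u

/-- INPUT: step A for `j = 10, .., 15` -/
def HJoin10 (P : Type u) [Fintype P] [PartialOrder P] [DecidableEq P] : Prop :=
  ∀ r j, 10 ≤ j → j ≤ 15 → Bad P r j → ∀ z : P, lev z = j + 1 → ¬ Hul.Jn z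

/-- INPUT: step B, the element (C) for `m = 3, 5, 6, 7` -/
def HCC7 (P : Type u) [Fintype P] [PartialOrder P] [DecidableEq P] : Prop :=
  ∀ r m, (m = 3 ∨ m = 5 ∨ m = 6 ∨ m = 7) → Bad P r (2 * m) →
    (∀ z : P, lev z = 2 * m + 1 → ¬ Hul.Jn z) →
    ∀ (lo hi : Tops P → ℕ → ℕ) (e : Tops P → ℕ → ℕ → P),
      (∀ t : Tops P, Cp.Comp (2 * m) (t : P) (lo t) (hi t) (e t)) →
      (∀ t : Tops P, Wd.Shape (2 * m) (lo t) (hi t)) →
      (∀ t : Tops P, NatT (2 * m) (t : P) ∨ StairShape (2 * m) (lo t) (hi t)) →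
      ∀ (t : Tops P) (z : P), StairShape (2 * m) (lo t) (hi t) → lo t (2 * m) = 0 →
        z ⋖ e t (2 * m) m → z ⋖ e t (2 * m) 0 → False

variable {P : Type u} [Fintype P] [PartialOrder P] [DecidableEq P] {r j : ℕ}

theorem hjoin (h : HJoin10 P) : HJoin P := by
  intro r j hj hB
  rcases hj with rfl | hj
  · obtain ⟨lo, hi, e, hC, hS⟩ := hsh (P := P) r 8 hB.gt
    exact J8.no_jn8 ⟨hB.gt, by norm_num, by norm_num, hC, hS⟩
  · exact h r j hj.1 hj.2 hB

theorem hcc8 (HC : HCC7 P) : HCC8 P := by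
  intro r m h3 h8 hB hno lo hi e hC hS hT t z S h0 hz1 hz2
  have hcase : (m = 3 ∨ m = 5 ∨ m = 6 ∨ m = 7) ∨ m = 4 ∨ m = 8 := by omega
  rcases hcase with h | h | h
  · exact HC r m h hB hno lo hi e hC hS hT t z S h0 hz1 hz2
  · subst h
    exact (J8.level8 ⟨hB.gt, by norm_num, by norm_num, hC, hS⟩).2 t z S h0 hz1 hz2
  · subst h
    exact Fi.no_cc_eight hB.gt hB.lt hC hS hno S h0 hz1 hz2

/-- THE THEOREM from the inputs which are left -/
theorem distrib_of_inputs2 (hG : IsGaussian P) (hc : (SimpleGraph.hasse P).Connected)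
    (h1 : HJoin10 P) (h2 : HS7 P) (h3 : HCC7 P) (h4 : HRow P) : IsDistribLatticeOrder P :=
  distrib_of_inputs hG hc (hfin (hjoin h1) h2) h4 (hcc8 h3)

end Pool.Agent.GaussPoset.Win

end

/-! From `Pool.Agent.W_448fin_h16.FnJ` -/

section

/-!
# Final assembly (MP_448cb3_co): `m = 6` and `m = 7` of the element (C) plugged in
-/

namespace Pool.Agent.GaussPoset.Win

set_option linter.unusedSectionVars false

open Finset

universe u

/-- INPUT: step B, the element (C) for `m = 3, 5` -/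
def HCC5 (P : Type u) [Fintype P] [PartialOrder P] [DecidableEq P] : Prop :=
  ∀ r m, (m = 3 ∨ m = 5) → Bad P r (2 * m) →
    (∀ z : P, lev z = 2 * m + 1 → ¬ Hul.Jn z) →
    ∀ (lo hi : Tops P → ℕ → ℕ) (e : Tops P → ℕ → ℕ → P),
      (∀ t : Tops P, Cp.Comp (2 * m) (t : P) (lo t) (hi t) (e t)) →
      (∀ t : Tops P, Wd.Shape (2 * m) (lo t) (hi t)) →
      (∀ t : Tops P, NatT (2 * m) (t : P) ∨ StairShape (2 * m) (lo t) (hi t)) →
      ∀ (t : Tops P) (z : P), StairShape (2 * m) (lo t) (hi t) → lo t (2 * m) = 0 →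
        z ⋖ e t (2 * m) m → z ⋖ e t (2 * m) 0 → False

variable {P : Type u} [Fintype P] [PartialOrder P] [DecidableEq P] {r j : ℕ}

theorem hcc7 (HC : HCC5 P) : HCC7 P := by
  intro r m hm hB hno lo hi e hC hS hT t z S h0 hz1 hz2
  have hcase : (m = 3 ∨ m = 5) ∨ m = 6 ∨ m = 7 := by omega
  rcases hcase with h | h | h
  · exact HC r m h hB hno lo hi e hC hS hT t z S h0 hz1 hz2
  · subst h
    exact Hc.no_cc_six hB.gt hC hS hT hno S h0 hz1 hz2
  · subst h
    exact Cs.no_cc_seven hB.gt hC hS hT hno S h0 hz1 hz2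

/-- THE THEOREM from the inputs which are left -/
theorem distrib_of_inputs3 (hG : IsGaussian P) (hc : (SimpleGraph.hasse P).Connected)
    (h1 : HJoin10 P) (h2 : HS7 P) (h3 : HCC5 P) (h4 : HRow P) : IsDistribLatticeOrder P :=
  distrib_of_inputs2 hG hc h1 h2 (hcc7 h3) h4

end Pool.Agent.GaussPoset.Win

end

/-! From `Pool.Agent.W_448fin_h16.FnM` -/

section

/-!
# Final assembly (MP_448cb3_co): case B: `HRow` from the named inputs of `FnL`
-/

namespace Pool.Agent.GaussPoset.EK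

set_option linter.unusedSectionVars false

open Finset Win St Polynomial Wd Win.W4

universe u

variable {P : Type u} [Fintype P] [PartialOrder P] [DecidableEq P] {r i j : ℕ}

variable {m : ℕ} {x : ℕ → P} {c : ℕ → ℤ} {β : ℤ} {t : Tops P}

variable {K : Finset P} {psi : P → P}

/-- the element (C) of `FnJ` from `HCCu` -/
theorem hcc5 (hC : HCCu P) : HCC5 P := by
  intro r m hm hB hno lo hi e C hS hT t z S h0 hz1 hz2
  exact hC r m (by omega) ⟨hB, hno⟩ lo hi e C hS t z S h0 hz1 hz2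

end Pool.Agent.GaussPoset.EK

end

/-! From `Pool.Agent.W_448fin_h16.FnP` -/

section

/-!
# Final assembly (MP_448cb3_co): case B, `HRow` in the form of the window `j - 1` route

`HRow` from
* `HCCu` : no element (C);
* `HWin1` : the output of the window `j - 1`: all the values (3,2) vanish, no closed [DL] with at
  least five sites, no [DL] at a fold end;
* `HTail` : the near law at the end of the long chain of a late word.
-/

namespace Pool.Agent.GaussPoset.EK

set_option linter.unusedSectionVars false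

open Finset Win St Polynomial Wd Win.W4

universe u

section defs

variable (P : Type u) [Fintype P] [PartialOrder P] [DecidableEq P]

/-- no closed [DL] with at least five sites -/
def ClosedOK (j : ℕ) : Prop :=
  ∀ (t : Tops P) (m : ℕ) (x : ℕ → P) (c : ℕ → ℤ) (β : ℤ), RowB P j t m x c β → 4 ≤ m →
    c 0 = 1 → (uc (x 0)).card = 2 → False

/-- no [DL] at a fold end -/
def FoldOK (j : ℕ) : Prop :=
  ∀ (t : Tops P) (m : ℕ) (x : ℕ → P) (c : ℕ → ℤ) (β : ℤ) (lo hi : ℕ → ℕ) (e : ℕ → ℕ → P),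
    RowB P j t m x c β → Cp.Comp j (t : P) lo hi e → StairShape j lo hi → j % 2 = 0 → 3 ≤ m →
    x 0 = e j (j / 2) → c 0 = 1 → False

/-- INPUT: the output of the window `j - 1` -/
def HWin1 : Prop :=
  ∀ r j, 2 ≤ j → CB P r j → (∀ t : Tops P, v3 j t = 0) ∧ ClosedOK P j ∧ FoldOK P j

end defs

variable {P : Type u} [Fintype P] [PartialOrder P] [DecidableEq P] {r i j : ℕ}

variable {m : ℕ} {x : ℕ → P} {c : ℕ → ℤ} {β : ℤ} {t : Tops P}

/-- the shape of a component with a defect: closed at the double edge, or late -/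
theorem CB.shape1 (hC : HCCu P) (hFo : FoldOK P j) (h : CB P r j) (hj : 2 ≤ j)
    {lo hi : Tops P → ℕ → ℕ} {e : Tops P → ℕ → ℕ → P}
    (C : ∀ t : Tops P, Cp.Comp j (t : P) (lo t) (hi t) (e t))
    (hS : ∀ t : Tops P, Shape j (lo t) (hi t)) (B : RowB P j t m x c β) (hm : 3 ≤ m) :
    ((c 0 = 1 → (uc (x 0)).card = 2) ∧ β ≠ 1) ∨ ∃ a, LateC j a (lo t) (hi t) := by
  classical
  have hn := h.nj
  have H := hn.g.H
  have hdf := B.row.df
  -- the double edge
  have hdd : c 0 = 1 → dcv (x 0) (x 1) = 2 := by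
    intro h0
    have e1 := B.dcv_eq hn (a := 0) (b := 1) (by omega) (by omega)
    rw [if_pos rfl, if_neg (by omega), h0] at e1
    have : (dcv (x 0) (x 1) : ℤ) = 2 := by linarith
    exact_mod_cast this
  -- the new pair
  have hnew : β = 1 → ∃ y, lev y = j + 1 ∧ y ≤ (t : P) ∧ y ⋖ x 0 ∧ y ⋖ x m := by
    intro h1
    refine B.low hn (by omega) le_rfl ?_
    rw [B.dcv_eq hn (by omega) le_rfl, if_neg (by omega), if_pos ⟨rfl, rfl, by omega⟩, h1]
    norm_num
  have hone : (uc (x 0)).card ≠ 2 → (uc (x 0)).card = 1 := by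
    intro h2
    have W := NJ.prow hn hj B (by omega)
    rcases W.uc_le (k := 0) (by omega) with h1 | h1
    · exact h1
    · exact absurd h1 h2
  have hx0t : x 0 ≤ (t : P) := by
    rw [← B.row.kap 0 (by omega)]
    exact le_topOf (x 0)
  have hxmt : x m ≤ (t : P) := by
    rw [← B.row.kap m le_rfl]
    exact le_topOf (x m)
  have hx0 := B.row.lev_x 0 (by omega)
  have hxm := B.row.lev_x m le_rfl
  obtain ⟨hlen, hor⟩ := B.orient hn hj (C t)
  rcases hS t with g1 | ⟨g1, S'⟩ | ⟨g1, S⟩ | ⟨g1, g2, g3⟩ | ⟨g1, g2⟩ | ⟨a, g0, g1, g2, g3, hN, g4⟩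
  · exfalso
    have := g1 j le_rfl
    omega
  · -- rectangle
    left
    refine ⟨fun h0 => ?_, fun h1 => ?_⟩
    · by_contra h2
      have h3 := NJ_rect_S_end hn hj C hS (t := t) (x := x 0) (x' := x 1) (by omega) hx0 hx0t
        (hone h2) (fun q => by
          have := B.row.inj 0 1 (by omega) (by omega) q
          omega)
      rw [hdd h0] at h3
      omega
    · obtain ⟨y, hy1, hy2, hy3, hy4⟩ := hnew h1
      have h3 := rect_no_rotation hn.g hj hn.no C (NJ_level_one hn (by omega) C hS) (t := t)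
        (z := y) (x := x 0) (x' := x m) (by omega) hy1 hy2 hy3 hy4 (fun q => by
          have := B.row.inj 0 m (by omega) le_rfl q
          omega)
      rw [B.ucv_x 0 m (by omega) le_rfl, if_neg (by omega)] at h3
      omega
  · -- stair
    left
    have hhj := S.hi j le_rfl
    have hj6 : 6 ≤ j := by omega
    have hcc : ∀ z : P, lo t j = 0 → j % 2 = 0 → z ⋖ e t j (j / 2) → z ⋖ e t j 0 → False := by
      intro z z0 z1 z2 z3
      obtain ⟨n, rfl⟩ : ∃ n, j = 2 * n := ⟨j / 2, by omega⟩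
      rw [show 2 * n / 2 = n by omega] at z2
      exact hC r n (by omega) h lo hi e C hS t z S z0 z2 z3
    have hNo : NoCC j lo hi e := by
      intro _ t' z S' z0 z1 z2 z3
      obtain ⟨n, rfl⟩ : ∃ n, j = 2 * n := ⟨j / 2, by omega⟩
      rw [show 2 * n / 2 = n by omega] at z2
      exact hC r n (by omega) h lo hi e C hS t' z S' z0 z2 z3
    refine ⟨fun h0 => ?_, fun h1 => ?_⟩
    · by_contra h2
      rcases sd_single hn.g hj6 (C t) S hx0 hx0t (hone h2) with ⟨a1, a2⟩ | ⟨a1, a2⟩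
      · have hu := B.ucv_x 0 1 (by omega) (by omega)
        rw [if_pos rfl] at hu
        have hd := hdd h0
        have hne : x 1 ≠ x 0 := fun q => by
          have := B.row.inj 1 0 (by omega) (by omega) q
          omega
        rw [a2] at hu hd hne
        have h3 := NJ_stair_S_end hn hj6 C hS hNo S a1 hne hu
        omega
      · exact hFo t m x c β (lo t) (hi t) (e t) B (C t) S a1 hm a2 h0
    · obtain ⟨y, hy1, hy2, hy3, hy4⟩ := hnew h1
      have hne : x 0 ≠ x m := fun q => by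
        have := B.row.inj 0 m (by omega) le_rfl q
        omega
      obtain ⟨f1, f2⟩ := B.ends (by rw [h1]; norm_num)
      rcases sd_single hn.g hj6 (C t) S hx0 hx0t f1 with ⟨a1, a2⟩ | ⟨a1, a2⟩ <;>
        rcases sd_single hn.g hj6 (C t) S hxm hxmt f2 with ⟨b1, b2⟩ | ⟨b1, b2⟩
      · exact hne (a2.trans b2.symm)
      · exact hcc y a1 b1 (by rw [← b2]; exact hy4) (by rw [← a2]; exact hy3)
      · exact hcc y b1 a1 (by rw [← a2]; exact hy3) (by rw [← b2]; exact hy4)
      · exact hne (a2.trans b2.symm)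
  · exfalso
    subst g1
    omega
  · subst g1
    exact absurd g2 (NJ_no_six hn C hS t)
  · right
    have Ct := C t
    refine ⟨a, g0, g1, g2, g3, ?_⟩
    have hstep : ∀ k, k < a + (j - a) → lo t k ≤ lo t (k + 1) ∧ lo t (k + 1) ≤ lo t k + 1 := by
      intro k hk
      have := Ct.lo_step k (by omega)
      omega
    have hstep' : ∀ k, k < a + (j - a) → hi t k ≤ hi t (k + 1) ∧ hi t (k + 1) ≤ hi t k + 1 := by
      intro k hk
      have := Ct.hi_step k (by omega)
      omega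
    exact late_wide g3 hstep hstep' g4 (by rw [show a + (j - a) = j by omega]; omega)

/-- the pattern with two double edges does not occur -/
theorem CB.no_pat6 (hC : HCCu P) (hcl : ClosedOK P j) (hFo : FoldOK P j) (h : CB P r j)
    (hj : 2 ≤ j) (B : RowB P j t m x c β) (hp : Pat6 m c β) : False := by
  have hn := h.nj
  obtain ⟨lo, hi, e, C, hS⟩ := hsh (P := P) r j hn.g
  have h5 := hp.1
  rcases CB.shape1 hC hFo h hj C hS B (by omega) with ⟨h3, -⟩ | ⟨a, L⟩
  · exact hcl t m x c β B (by omega) hp.2.2.1 (h3 hp.2.2.1)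
  · have := LateC.len hn hj L (C t) B
    omega

/-- (2a) -/
theorem CB.w0 (hC : HCCu P) (hv : ∀ t : Tops P, v3 j t = 0) (hcl : ClosedOK P j)
    (hFo : FoldOK P j) (h : CB P r j) (hj : 2 ≤ j) : W0 P j :=
  ⟨hv, fun _ _ _ _ _ B hp => (CB.no_pat6 hC hcl hFo h hj B hp).elim⟩

/-- every component is natural or has `F > 0` -/
theorem CB.nat_or (hC : HCCu P) (hT : HTail P) (hv : ∀ t : Tops P, v3 j t = 0)
    (hcl : ClosedOK P j) (hFo : FoldOK P j) (h : CB P r j) (hj : 2 ≤ j) (t : Tops P) :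
    NatT j (t : P) ∨ 2 ≤ FF j t := by
  classical
  have hn := h.nj
  have hW := CB.w0 hC hv hcl hFo h hj
  obtain ⟨lo, hi, e, C, hS⟩ := hsh (P := P) r j hn.g
  obtain ⟨m, x, c, β, B⟩ := NJ.rowB hn hj t
  rcases Nat.lt_or_ge m 3 with hm | hm
  · exact Or.inl (NJ.nat_three hn hj hW B (by omega))
  rcases B.cases hn hm with h1 | ⟨x', c', B', h1⟩
  · exact Or.inl h1
  right
  have hd : Dft m c' β := by
    rcases h1 with ⟨c0, c1, hb, h2 | h2⟩ | ⟨hb, c0, c1⟩
    · exact Or.inl ⟨c0, c1, hb, h2⟩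
    · exact (CB.no_pat6 hC hcl hFo h hj B' h2).elim
    · exact Or.inr ⟨hb, c0, c1⟩
  rcases CB.shape1 hC hFo h hj C hS B' hm with ⟨g1, g2⟩ | ⟨a, L⟩
  · rcases hd with ⟨c0, c1, hb, h2⟩ | ⟨hb, -⟩
    · rcases Nat.lt_or_ge m 4 with hm4 | hm4
      · obtain rfl : m = 3 := by omega
        exact NJ.F_dl3_pos hn hj B' hb c0 c1 (h2 2 le_rfl (by omega)) (C t) (hS t) (hv t) (g1 c0)
      · exact (hcl t m x' c' β B' hm4 c0 (g1 c0)).elim
    · exact absurd hb g2
  · exact late_pos hT h hj C hS B' hm L (hv t) hd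

/-- ALL THE COMPONENTS ARE NATURAL -/
theorem CB.all_nat (hC : HCCu P) (hW : HWin1 P) (hT : HTail P) (h : CB P r j) (hj : 2 ≤ j)
    (t : Tops P) : NatT j (t : P) := by
  have hn := h.nj
  obtain ⟨hv, hcl, hFo⟩ := hW r j hj h
  have hW0 := CB.w0 hC hv hcl hFo h hj
  have hZ := NJ.z0 hn hj hW0 (fun t => by
    rcases CB.nat_or hC hT hv hcl hFo h hj t with h1 | h1
    · exact NJ.nat_F hn hj h1
    · omega)
  rcases CB.nat_or hC hT hv hcl hFo h hj t with h1 | h1
  · exact h1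
  · have := hZ.F t
    omega

/-- the defects of a natural component vanish -/
lemma RowB.nat_zero (h : NJ P r j) (B : RowB P j t m x c β) (hN : NatT j (t : P)) :
    (∀ k, k < m → c k = 0) ∧ (2 ≤ m → β = 0) := by
  have H := h.g.H
  have key : ∀ a b, a < b → b ≤ m → (dcv (x a) (x b) : ℤ) = ucv (x a) (x b) := by
    intro a b hab hb
    have hne : x a ≠ x b := fun q => by
      have := B.row.inj a b (by omega) hb q
      omega
    have ha := B.row.lev_x a (by omega)
    have hbl := B.row.lev_x b hb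
    have := hN (x a) (x b) ha hbl ((RowB.topOf_iff h ha).1 (B.row.kap a (by omega)))
      ((RowB.topOf_iff h hbl).1 (B.row.kap b hb)) hne
    exact_mod_cast this.symm
  constructor
  · intro k hk
    have e1 := key k (k + 1) (by omega) (by omega)
    rw [B.dcv_eq h (by omega) (by omega), B.ucv_x k (k + 1) (by omega) (by omega), if_pos rfl,
      if_neg (by omega), if_pos rfl] at e1
    push_cast at e1
    linarith
  · intro hm
    have e1 := key 0 m (by omega) le_rfl
    rw [B.dcv_eq h (by omega) le_rfl, B.ucv_x 0 m (by omega) le_rfl, if_neg (by omega),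
      if_pos ⟨rfl, rfl, by omega⟩, if_neg (by omega)] at e1
    push_cast at e1
    linarith

/-- `HRow` FROM THE WINDOW `j - 1` -/
theorem hrow1 (hC : HCCu P) (hW : HWin1 P) (hT : HTail P) : HRow P := by
  intro r i hi1 hB hno t ht
  have h : CB P r (i + 1) := ⟨hB, hno⟩
  have hj : 2 ≤ i + 1 := by omega
  refine rowOK_of h.nj hj ⟨t, ht⟩ fun m x c β B hm => ?_
  obtain ⟨g1, g2⟩ := B.nat_zero h.nj (CB.all_nat hC hW hT h hj ⟨t, ht⟩)
  have g3 := g1 0 (by omega)
  have g4 := g1 (m - 1) (by omega)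
  have g5 := g2 (by omega)
  refine ⟨by omega, by omega, fun hb => ?_, fun hb => ?_⟩ <;>
    (rw [g5] at hb; norm_num at hb)

/-- step A for `j = 16` -/
theorem hs7 : HS7 P := by
  intro r hB
  obtain ⟨lo, hi, e, C, hS⟩ := hsh (P := P) r 16 hB.gt
  exact Fi.s7f16 hB.gt hB.lt C hS

/-- THE THEOREM from the inputs which are left -/
theorem distrib_of_inputs5 (hG : IsGaussian P) (hc : (SimpleGraph.hasse P).Connected)
    (h1 : HJoin10 P) (h3 : HCC3 P) (hW : HWin1 P) (hT : HTail P) : IsDistribLatticeOrder P :=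
  distrib_of_inputs3 hG hc h1 hs7 (hcc5 (hccu h3)) (hrow1 (hccu h3) hW hT)

end Pool.Agent.GaussPoset.EK

end

/-! From `Pool.Agent.W_448kr_h10.KrA` -/

section

/-!
MP_448cb3_co, G2, case B, window `j`: the values of the rows with the patterns [DL] and R (three and
four sites) at the window `j`, in a form which serves every functional.  helper10.
-/

namespace Pool.Agent.GaussPoset.Win.W4

set_option linter.unusedSectionVars false

open Finset
open Pool.Agent.GaussPoset.Win.SO (PN vp con on mem_PN vp_PD vp_PU)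

universe u

variable {P : Type u} [Fintype P] [PartialOrder P] [DecidableEq P] {r i : ℕ}
variable {psi : P → P} {C K : Finset P} {w v : P} {m : ℕ} {x : ℕ → P}

/-- [DL], four sites, no upper pendant over the last double -/
theorem DLg.L_low3 (h : DLg r i K psi C w v m x) (hm3 : m = 3) (hU : UE i C x 2 = ∅) :
    ∃ n : ℕ, n ≤ 2 ∧ (DE i C x 2).card = n ∧ wv i C = n - 1 ∧
      10 + 4 * ((pen (x 2)).card : ℤ) + (n : ℤ) ^ 2 - 5 * n -
        2 * n * ((uc (x 3)).card + 2 * (pen (x 2)).card + (pen (x 3)).card) ≤ Lv i C := by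
  have g4 := card_le_card (T4_subset i C)
  have g5 := sq_add_nonneg (NE i C x 0 + (uc (x 0)).card - 1 - (pen (x 2)).card)
  have e2 : NE i C x 2 = ((DE i C x 2).card : ℤ) := by
    unfold NE
    rw [hU, card_empty]
    push_cast
    ring
  have hz : (0 : ℤ) ≤ (Z4 i C).card - (T4 i C).card := by
    have : ((T4 i C).card : ℤ) ≤ (Z4 i C).card := by exact_mod_cast g4
    linarith
  have e3 := h.L_form3 hm3
  have e4 := h.w3_eq
  rw [e2] at e3 e4
  rcases h.CH2_num with ⟨d, c⟩ | ⟨d, c⟩ | ⟨d, c⟩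
  · refine ⟨0, by omega, d, by rw [e4, d], ?_⟩
    rw [e3, d]
    push_cast
    linarith
  · refine ⟨1, by omega, d, by rw [e4, d], ?_⟩
    rw [e3, d]
    push_cast
    linarith
  · refine ⟨2, by omega, d, by rw [e4, d], ?_⟩
    rw [e3, d]
    push_cast
    linarith

end Pool.Agent.GaussPoset.Win.W4

namespace Pool.Agent.GaussPoset.EK

set_option linter.unusedSectionVars false

open Finset Win St Wd Win.W4

universe u

variable {P : Type u} [Fintype P] [PartialOrder P] [DecidableEq P] {r i j : ℕ}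
variable {m : ℕ} {x : ℕ → P} {c : ℕ → ℤ} {β : ℤ} {t : Tops P}
variable {K : Finset P} {psi : P → P}

lemma F24_eq (j : ℕ) (t : Tops P) : Pn.F2 j t + Pn.F4 j t =
    Lv j (cext (j + 1) (topOf : P → Tops P) t) := rfl

lemma F3_eq (j : ℕ) (t : Tops P) : Pn.F3 j t =
    wv j (cext (j + 1) (topOf : P → Tops P) t) := rfl

/-- the value at the energy six of a small row -/
lemma NJ.F6_small (h : NJ P r j) (hj : 2 ≤ j) (R : Red P j K psi)
    (hs : Small j (topOf : P → Tops P) t) :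
    Pn.F6 j t = wv j (cext (j + 1) (topOf : P → Tops P) t) ^ 2 := by
  have hjr : j ≤ r := by have := h.hr; omega
  have h2 := (K2.PG_star h.g.H hjr (NJ.noQ h hj) (fun m hm => h.g.good m (by omega)) h.split R.mat
      R.sub (K2.star_small h.g.H hjr h.split R hs)).2
  unfold Pn.F6
  rw [h2]
  unfold wv I2.bb I2.VV
  ring

section rows

variable (h : NJ P r j) (hj : 2 ≤ j)
include h hj

/-- rows with three sites are small -/
lemma NJ.small_two (B : RowB P j t 2 x c β) : Small j (topOf : P → Tops P) t := by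
  rcases B.small h.g.H h.split with h2 | h2
  · exact h2
  · have := h2.1
    omega

/-- [DL] with three sites -/
theorem NJ.val_dl2 (B : RowB P j t 2 x c β) (hβ : β = 0) (c0 : c 0 = 1) (c1 : c 1 = -1) :
    Pn.F3 j t = -1 ∧ Pn.F6 j t = 1 ∧
      4 + 2 * ((pen (x 2)).card : ℤ) ≤ Pn.F2 j t + Pn.F4 j t := by
  obtain ⟨K, psi, R⟩ := exists_red P j
  obtain ⟨w, v, D⟩ := NJ.dl2 h hj R B hβ c0 c1
  have W := D.W
  have n02 : x 0 ≠ x 2 := W.ne (by omega) (by omega) (by omega)
  have n01 : x 0 ≠ x 1 := W.ne (by omega) (by omega) (by omega)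
  have n12 : x 1 ≠ x 2 := W.ne (by omega) (by omega) (by omega)
  have h3 := D.Q.three_w3 D.hw D.hv n01 n12 n02 W.st_three
  have h6 := NJ.F6_small h hj R (NJ.small_two h hj B)
  have hT := D.T_ge
  rw [F24_eq, F3_eq, h6, h3]
  unfold W4.Tv at hT
  rw [h3] at hT
  refine ⟨rfl, by norm_num, ?_⟩
  linarith

/-- R with three sites -/
theorem NJ.val_r2 (B : RowB P j t 2 x c β) (hβ : β = 1) (c0 : c 0 = -1) (c1 : c 1 = 0) :
    Pn.F3 j t = -1 ∧ Pn.F6 j t = 1 ∧
      4 + 2 * ((pen (x 1)).card : ℤ) ≤ Pn.F2 j t + Pn.F4 j t := by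
  obtain ⟨K, psi, R⟩ := exists_red P j
  obtain ⟨w, v, D⟩ := NJ.r2 h hj R B hβ c0 c1
  have W := D.W
  have n02 : x 0 ≠ x 2 := W.ne (by omega) (by omega) (by omega)
  have n01 : x 0 ≠ x 1 := W.ne (by omega) (by omega) (by omega)
  have n12 : x 1 ≠ x 2 := W.ne (by omega) (by omega) (by omega)
  have hst : st j (cext (j + 1) (topOf : P → Tops P) t) = {x 2, x 0, x 1} := by
    rw [W.st_three]
    ext y
    simp only [mem_insert, mem_singleton]
    tauto
  have h3 := D.Q.three_w3 D.hw D.hv (Ne.symm n02) n01 (Ne.symm n12) hst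
  have h6 := NJ.F6_small h hj R (NJ.small_two h hj B)
  have hT := D.T_ge
  rw [F24_eq, F3_eq, h6, h3]
  unfold W4.Tv at hT
  rw [h3] at hT
  refine ⟨rfl, by norm_num, ?_⟩
  linarith

/-- [DL] with at least four sites is small -/
lemma NJ.small_dl (B : RowB P j t m x c β) (c2 : ∀ k, 2 ≤ k → k < m → c k = 0) :
    Small j (topOf : P → Tops P) t := by
  rcases B.small h.g.H h.split with h2 | h2
  · exact h2
  · exfalso
    obtain ⟨h3, -, -, -, h4, -⟩ := h2
    rw [c2 (m - 2) (by omega) (by omega)] at h4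
    norm_num at h4

end rows

end Pool.Agent.GaussPoset.EK

end

/-! From `Pool.Agent.W_448st0_h96.SzA` -/

section

/-!
# Final assembly (MP_448cb3_co): STEP 0, no component with two stars: THE CHARGES

`j = i + 1`.  The functional `Wst` is `- L31 + 9 L52 - 2 L62 - 4 L83 - 6 L10,4 - w21 - 4 L42 + 14 w32 +
2 (w32 ^ 2 - 2 w64)`.  A join of a double and a single element costs (twice)
`8 (1 + Ek 1 + Ek 2 + Ek 3) - 8 [N5s] ≥ 0`; everything goes to the part of the double element.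
-/

namespace Pool.Agent.GaussPoset.EK

set_option linter.unusedSectionVars false

open Finset Win St Polynomial Wd Win.W4

universe u

/-- the weights of step 0 -/
def Wst : Pn.Wt := ⟨-1, 9, 1, 4, 3, -1, 2, 14, 2⟩

section defs

variable {P : Type u} [Fintype P] [PartialOrder P] [DecidableEq P]

/-- twice the value of a part with the shares of its pendants, weights of step 0 -/
noncomputable def Ut (i : ℕ) (t : Tops P) : ℤ :=
  2 * Pn.own Wst i (i + 1) t +
    ∑ p ∈ (PD P i).filter (fun p => (topOf p : Tops P) = t), Pn.shr Wst i p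

/-- the value of a part whose component is small -/
noncomputable def Qt (i : ℕ) (t : Tops P) : ℤ :=
  Vt i t + 2 * v3 (i + 1) t + 4 * v3 (i + 1) t ^ 2

/-- a light join at a double of the part -/
def LightJ (i : ℕ) (K : Finset P) (t : Tops P) : Prop :=
  ∃ z y v : P, K2.SD (i + 1) (topOf : P → Tops P) z y v ∧ topOf y = t ∧
    sa (i + 1) (topOf : P → Tops P) K (uc y) (topOf y) = 0 ∧
    z ∉ So.N5s i (topOf : P → Tops P)

/-- the bound of the leaves of step 0 -/
def Q0 (i : ℕ) (K : Finset P) (t : Tops P) : Prop :=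
  0 ≤ Qt i t ∨ (-8 ≤ Qt i t ∧ LightJ i K t)

end defs

variable {P : Type u} [Fintype P] [PartialOrder P] [DecidableEq P] {r i j : ℕ}

variable {m : ℕ} {x : ℕ → P} {c : ℕ → ℤ} {β : ℤ} {t : Tops P}

variable {K : Finset P} {psi : P → P} {Y V : P → P}

lemma Ut_eq (i : ℕ) (t : Tops P) :
    Ut i t = Vt i t + 2 * v3 (i + 1) t + 4 * Pn.F6 (i + 1) t := by
  have e1 : ∀ p : P, Pn.shr Wst i p = Pn.shr Wsh i p := fun p => rfl
  have e2 : v3 (i + 1) t = Pn.F3 (i + 1) t := rfl
  unfold Ut Vt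
  rw [Finset.sum_congr rfl (fun p _ => e1 p), e2]
  unfold Pn.own Wst Wsh
  ring

lemma NJ.Ut_small (h : NJ P r (i + 1)) (hi1 : 1 ≤ i) (R : Red P (i + 1) K psi)
    (hs : Small (i + 1) (topOf : P → Tops P) t) : Ut i t = Qt i t := by
  have e2 : wv (i + 1) (cext (i + 1 + 1) (topOf : P → Tops P) t) = v3 (i + 1) t := rfl
  rw [Ut_eq, NJ.F6_small h (by omega) R hs, e2]
  rfl

open Classical in
/-- the shares of a join -/
noncomputable def g0 (i : ℕ) (K : Finset P) (Y : P → P) (z q : P) : ℤ :=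
  if q = Y z then Pn.cst Wst i (i + 1) K z else 0

open Classical in
/-- the sum of the shares at a part -/
noncomputable def G0 (i : ℕ) (K : Finset P) (Y : P → P) (t : Tops P) : ℤ :=
  ∑ z ∈ K2.Z2 (i + 1) (topOf : P → Tops P),
    ∑ q ∈ (uc z).filter (fun q => (topOf q : Tops P) = t), g0 i K Y z q

lemma Lm_g0 (t : Tops P) : Pn.Lm Wst (g0 i K Y) i (i + 1) t = Ut i t + G0 i K Y t := rfl

/-- the sum of the shares -/
lemma YW.sum_g0 (hY : YW (i + 1) Y V) {z : P} (hz : z ∈ K2.Z2 (i + 1) (topOf : P → Tops P)) :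
    ∑ q ∈ uc z, g0 i K Y z q = Pn.cst Wst i (i + 1) K z := by
  classical
  have S := hY z hz
  rw [S.huc, sum_pair S.ne]
  unfold g0
  rw [if_pos rfl, if_neg S.ne.symm, add_zero]

section main

variable (h : NJ P r (i + 1)) (hi1 : 1 ≤ i) (R : Red P (i + 1) K psi)

include h R

/-- the cost -/
lemma NJ.cst0_val {z : P} : Pn.cst Wst i (i + 1) K z =
    8 * (1 + Ek (i + 1) K (K2.Tz z) 1) + 8 * (Ek (i + 1) K (K2.Tz z) 3 + Ek (i + 1) K (K2.Tz z) 2) -
      (if z ∈ So.N5s i (topOf : P → Tops P) then 8 else 0) := by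
  classical
  unfold Pn.cst Pn.e1 Pn.e23 Wst
  by_cases hz : z ∈ So.N5s i (topOf : P → Tops P)
  · rw [if_pos hz, if_pos hz]
    ring
  · rw [if_neg hz, if_neg hz]
    ring

include hi1 in
/-- every join has a nonnegative cost, a light join of a double outside `N5s` at least eight -/
lemma NJ.cst0_bounds {z y v : P} (S : K2.SD (i + 1) (topOf : P → Tops P) z y v) :
    0 ≤ Pn.cst Wst i (i + 1) K z ∧
      (sa (i + 1) (topOf : P → Tops P) K (uc y) (topOf y) = 0 →
        z ∉ So.N5s i (topOf : P → Tops P) → 8 ≤ Pn.cst Wst i (i + 1) K z) := by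
  classical
  have hj : 2 ≤ i + 1 := by omega
  have hjr : i + 1 ≤ r := by have := h.hr; omega
  have h1 := K2.Ek_one_SD h.g.H hjr h.split R.mat R.sub S
  have hb := NJ.sa_single h hj R (S.lv' h.g.H) S.cv
  have hcst := NJ.cst0_val (i := i) h R (z := z)
  obtain ⟨m, x, c, β, B⟩ := NJ.rowB h hj (topOf y)
  by_cases hp : Pat6 m c β
  · have h3 := NJ.join_six h R S hj B hp
    have e1 := h3 1
    have e2 := h3 2
    have e3 := h3 3
    refine ⟨?_, fun _ hn => ?_⟩
    · rw [hcst]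
      split_ifs <;> linarith
    · rw [hcst, if_neg hn]
      linarith
  · have hy : Small (i + 1) (topOf : P → Tops P) (topOf y) :=
      (B.small h.g.H h.split).resolve_right hp
    obtain ⟨h2, h3⟩ := NJ.join_small h R S hj hy (NJ.join_v h R S hj)
    rw [h1, h2, h3 3 le_rfl] at hcst
    generalize sa (i + 1) (topOf : P → Tops P) K (uc v) (topOf v) = b at *
    by_cases hbad : BadR P (i + 1) y
    · have ha := sa_badR h R hbad
      have hn := NJ.bad_N5s h S hbad
      rw [ha] at hcst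
      refine ⟨?_, fun q => ?_⟩
      · rw [hcst, if_neg hn]
        linarith
      · rw [ha] at q
        norm_num at q
    · have ha := B.sa_double h R hp (paO_y h S) rfl hbad
      generalize sa (i + 1) (topOf : P → Tops P) K (uc y) (topOf y) = a at *
      refine ⟨?_, fun q hn => ?_⟩
      · have hab := mul_nonneg ha hb
        rw [hcst]
        split_ifs <;> linarith
      · rw [hcst, q, if_neg hn]
        linarith

variable (hY : YW (i + 1) Y V)

include hi1 hY

lemma NJ.g0_nonneg {z q : P} (hz2 : z ∈ K2.Z2 (i + 1) (topOf : P → Tops P)) :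
    0 ≤ g0 i K Y z q := by
  classical
  unfold g0
  split_ifs
  · exact (NJ.cst0_bounds h hi1 R (hY z hz2)).1
  · exact le_rfl

lemma NJ.G0_nonneg (t : Tops P) : 0 ≤ G0 i K Y t := by
  classical
  unfold G0
  exact sum_nonneg fun z hz => sum_nonneg fun q _ => NJ.g0_nonneg h hi1 R hY hz

/-- the gain of a light join -/
theorem NJ.G0_light (hl : LightJ i K t) : 8 ≤ G0 i K Y t := by
  classical
  obtain ⟨z, y, v, S, rfl, ha, hn⟩ := hl
  have hz2 := NJ.sd_Z2 h S
  obtain ⟨rfl, rfl⟩ := hY.uniq hz2 S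
  have h1 := (NJ.cst0_bounds h hi1 R (hY z hz2)).2 ha hn
  have h2 : g0 i K Y z (Y z) = Pn.cst Wst i (i + 1) K z := by
    unfold g0
    rw [if_pos rfl]
  have h3 : g0 i K Y z (Y z) ≤
      ∑ q ∈ (uc z).filter (fun q => (topOf q : Tops P) = topOf (Y z)), g0 i K Y z q :=
    single_le_sum (f := fun q => g0 i K Y z q) (fun q _ => NJ.g0_nonneg h hi1 R hY hz2)
      (mem_filter.2 ⟨S.my, rfl⟩)
  have h4 : ∑ q ∈ (uc z).filter (fun q => (topOf q : Tops P) = topOf (Y z)), g0 i K Y z q ≤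
      G0 i K Y (topOf (Y z)) :=
    single_le_sum (f := fun z' => ∑ q ∈ (uc z').filter
      (fun q => (topOf q : Tops P) = topOf (Y z)), g0 i K Y z' q)
      (fun z' hz => sum_nonneg fun q _ => NJ.g0_nonneg h hi1 R hY hz) hz2
  linarith

/-- the value of a part -/
theorem NJ.Q0_nonneg (h6 : ∀ (m : ℕ) (x : ℕ → P) (c : ℕ → ℤ) (β : ℤ),
    RowB P (i + 1) t m x c β → ¬ Pat6 m c β) (hQ : Q0 i K t) : 0 ≤ Ut i t + G0 i K Y t := by
  obtain ⟨m, x, c, β, B⟩ := NJ.rowB h (show 2 ≤ i + 1 by omega) t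
  have hs : Small (i + 1) (topOf : P → Tops P) t :=
    (B.small h.g.H h.split).resolve_right (h6 m x c β B)
  rw [NJ.Ut_small h hi1 R hs]
  rcases hQ with h1 | ⟨h1, h2⟩
  · have := NJ.G0_nonneg h hi1 R hY t
    linarith
  · have := NJ.G0_light h hi1 R hY h2
    linarith

end main

end Pool.Agent.GaussPoset.EK

end

/-! From `Pool.Agent.W_448L1_h63.LaH` -/

section

/-!
Components without a heavy join at the window j (MP_448cb3_co, case B): the value (3,2) vanishes,
if there is no component with two stars.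
-/

namespace Pool.Agent.GaussPoset.EK

set_option linter.unusedSectionVars false

open Finset Win St Polynomial Wd

universe u

variable {P : Type u} [Fintype P] [PartialOrder P] [DecidableEq P] {r i j : ℕ}

variable {ι : Type*} [DecidableEq ι] {κ : P → ι}

variable {K : Finset P} {psi : P → P}

/-- unmatched elements with the same sites are on the same side of the window -/
lemma Red.sgn_ns (R : Red P i K psi) {x y : P} (hx : x ∈ K) (hy : y ∈ K)
    (hxy : ns i x = ns i y) : sgn i x = sgn i y := by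
  rcases mem_union.1 (R.sub hx) with h1 | h1 <;> rcases mem_union.1 (R.sub hy) with h2 | h2
  · rw [sgn_low h1, sgn_low h2]
  · rw [ns_L h1, ns_U h2] at hxy
    exact absurd hxy (R.inv hx hy h1 h2)
  · rw [ns_U h1, ns_L h2] at hxy
    exact absurd hxy.symm (R.inv hy hx h2 h1)
  · rw [sgn_upp h1, sgn_upp h2]

/-- THE UNMATCHED ELEMENTS AWAY FROM `F`, if their signed number is zero -/
theorem Red.fr_sa (R : Red P i K psi) (H : Gr P r) (hi : i ≤ r) (hκ : Split (i + 1) κ) {a : ι}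
    (hs : Small i κ a) {F : Finset P} (hF : F ⊆ st i (cext (i + 1) κ a)) (hne : F.Nonempty)
    (h : sa i κ K F a = 0) : K2.Fr i κ K a F := by
  classical
  by_cases h0 : ∀ k ∈ K, κ k = a → ¬ Disjoint (ns i k) F
  · exact Or.inl h0
  right
  push Not at h0
  obtain ⟨k0, hk0, ha0, hd0⟩ := h0
  rw [sa_eq] at h
  obtain ⟨S, hS⟩ : ∃ S : Finset P, S = K.filter (fun x => κ x = a ∧ Disjoint (ns i x) F) :=
    ⟨_, rfl⟩
  have mS : ∀ {x : P}, x ∈ S ↔ x ∈ K ∧ κ x = a ∧ Disjoint (ns i x) F := by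
    intro x
    rw [hS, mem_filter]
  rw [← hS] at h
  have hk0S : k0 ∈ S := mS.2 ⟨hk0, ha0, hd0⟩
  -- an element of each sign
  have hpos : ∃ k ∈ S, sgn i k = 1 := by
    by_contra hc
    push Not at hc
    have h1 : ∀ x ∈ S, sgn i x = -1 := fun x hx =>
      (sgn_cases (R.sub (mS.1 hx).1)).resolve_left (hc x hx)
    rw [Finset.sum_congr rfl h1, Finset.sum_const, nsmul_eq_mul] at h
    have h2 := card_pos.2 ⟨k0, hk0S⟩
    omega
  have hneg : ∃ k ∈ S, sgn i k = -1 := by
    by_contra hc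
    push Not at hc
    have h1 : ∀ x ∈ S, sgn i x = 1 := fun x hx =>
      (sgn_cases (R.sub (mS.1 hx).1)).resolve_right (hc x hx)
    rw [Finset.sum_congr rfl h1, Finset.sum_const, nsmul_eq_mul] at h
    have h2 := card_pos.2 ⟨k0, hk0S⟩
    omega
  obtain ⟨k1, h1S, h1⟩ := hpos
  obtain ⟨k2, h2S, h2⟩ := hneg
  obtain ⟨k1K, k1a, k1d⟩ := mS.1 h1S
  obtain ⟨k2K, k2a, k2d⟩ := mS.1 h2S
  have hk1 : k1 ∈ dbL P i := by
    rcases mem_union.1 (R.sub k1K) with h3 | h3
    · exact h3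
    · rw [sgn_upp h3] at h1
      omega
  have hk2 : k2 ∈ dbU P i := by
    rcases mem_union.1 (R.sub k2K) with h3 | h3
    · rw [sgn_low h3] at h2
      omega
    · exact h3
  have hne12 : k1 ≠ k2 := by
    rintro rfl
    omega
  -- exactly two unmatched elements
  have hcard : (K.filter (fun x => κ x = a)).card ≤ 2 := by
    have hcc := R.card_comp H hκ a
    rcases hs with hs | hs
    · exfalso
      -- three sites: the elements away from `F` have the same sites
      have e1 := ns_sites H hκ (R.sub k1K) k1a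
      have e2 := ns_sites H hκ (R.sub k2K) k2a
      have c1 := ns_card (R.sub k1K)
      have c2 := ns_card (R.sub k2K)
      have hF1 := card_pos.2 hne
      have u1 := card_le_card (union_subset e1 hF)
      have u2 := card_le_card (union_subset (union_subset e1 e2) hF)
      rw [card_union_of_disjoint k1d] at u1
      rw [card_union_of_disjoint (disjoint_union_left.2 ⟨k1d, k2d⟩)] at u2
      have h3 : ns i k1 = ns i k2 := by
        have h4 : (ns i k1 ∪ ns i k2).card ≤ 2 := by omega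
        have h5 : ns i k1 = ns i k1 ∪ ns i k2 :=
          eq_of_subset_of_card_le subset_union_left (by omega)
        have h6 : ns i k2 = ns i k1 ∪ ns i k2 :=
          eq_of_subset_of_card_le subset_union_right (by omega)
        rw [h5]
        exact h6.symm
      have := R.sgn_ns k1K k2K h3
      omega
    · have h3 : ((K.filter (fun x => κ x = a)).card : ℤ) ≤ 2 := by
        rw [hcc]
        exact hs
      exact_mod_cast h3
  refine ⟨k1, k2, ⟨hk1, k1K, hk2, k2K, by rw [k1a, k2a], ?_⟩, k1a, k1d, k2d⟩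
  intro x hx hxa
  by_contra hc
  push Not at hc
  have h3 : ({x, k1, k2} : Finset P) ⊆ K.filter (fun x => κ x = a) := by
    intro y hy
    rw [mem_insert, mem_insert, mem_singleton] at hy
    rw [mem_filter]
    rcases hy with rfl | rfl | rfl
    · exact ⟨hx, by rw [hxa, k1a]⟩
    · exact ⟨k1K, k1a⟩
    · exact ⟨k2K, k2a⟩
  have h4 := card_le_card h3
  rw [card_insert_of_notMem, card_pair hne12] at h4
  · omega
  · rw [mem_insert, mem_singleton, not_or]
    exact hc

section main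

variable (h : NJ P r j) (hj : 2 ≤ j) (R : Red P j K psi) (h6 : No6 P j)

include h hj R h6

/-- THE VALUES (3,2) AND (6,4) OF A COMPONENT WHOSE JOINS ARE ALL LIGHT, without components with
two stars -/
theorem NJ.light_zero (t : Tops P)
    (hl : ∀ z y v, K2.SD j (topOf : P → Tops P) z y v → (topOf y = t ∨ topOf v = t) →
      sa j (topOf : P → Tops P) K (uc y) (topOf y) *
        sa j (topOf : P → Tops P) K (uc v) (topOf v) = 0) :
    I2.w3 (I2.bb j (j + 1) (topOf : P → Tops P) t)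
      (I2.VV j (j + 1) (topOf : P → Tops P) t) = 0 := by
  classical
  have hjr : j ≤ r := by have := h.hr; omega
  have hsm := NJ.small_all h hj h6
  have hst : ∀ t : Tops P, K2.Star j (cext (j + 1) (topOf : P → Tops P) t) K :=
    fun t => K2.star_small h.g.H hjr h.split R (hsm t)
  have himg : univ.image (topOf : P → Tops P) = (univ : Finset (Tops P)) := by
    ext t
    simp only [mem_univ, iff_true]
    refine mem_image.2 ⟨(t : P), mem_univ _, ?_⟩
    exact Subtype.ext (Hul.top_unique (h.nj (by have := t.2; omega)) (topOf (t : P)).2 t.2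
      (le_topOf (t : P)) le_rfl)
  have hsite : ∀ {x w : P}, lev w = j + 1 → x ∈ uc w →
      x ∈ st j (cext (j + 1) (topOf : P → Tops P) (topOf w)) := by
    intro x w hw hx
    have hl := lev_uc h.g.H hx
    rw [mem_sites h.split]
    exact ⟨by omega, (h.split (mem_uc.1 hx) (by omega)).symm⟩
  have hLt : K2.Lt j (topOf : P → Tops P) K {t} := by
    intro z y v S hne
    have ht : topOf y = t ∨ topOf v = t := by
      by_contra hc
      push Not at hc
      apply hne
      rw [mem_singleton, mem_singleton]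
      exact ⟨fun h => absurd h hc.1, fun h => absurd h hc.2⟩
    have hly := S.ly h.g.H
    have hlv := S.lv' h.g.H
    rcases mul_eq_zero.1 (hl z y v S ht) with h1 | h1
    · left
      refine R.fr_sa h.g.H hjr h.split (hsm _) (fun x hx => hsite hly hx) ?_ h1
      rw [← card_pos, S.cy]
      norm_num
    · right
      refine R.fr_sa h.g.H hjr h.split (hsm _) (fun x hx => hsite hlv hx) ?_ h1
      rw [← card_pos, S.cv]
      norm_num
  have h1 := K2.side_unit_light h.g.H hjr (NJ.noQ h hj) (fun m hm => h.g.good m (by omega))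
    h.split R.mat R.sub hst (T0 := {t}) (T1 := univ.erase t)
    (by rw [himg]; ext x; simp only [mem_union, mem_singleton, mem_erase, mem_univ]; tauto)
    (by rw [disjoint_singleton_left]; exact notMem_erase _ _) hLt
  have h2 : K2.eT (j + 1) (topOf : P → Tops P) {t} = cext (j + 1) (topOf : P → Tops P) t := by
    ext x
    rw [K2.mem_eT, mem_cext]
    simp only [mem_singleton]
  rw [h2] at h1
  exact K2.w3_of_ini h1

end main

end Pool.Agent.GaussPoset.EK

end

/-! From `Pool.Agent.W_448fin_h16.FnU` -/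

section

/-!
# Final assembly (MP_448cb3_co): case B, the window `j - 1`, `j`: `HHeavy` FROM STEP 0

STEP 0 is `HNo6`: there is no component with two stars.  Then the class fact (L1') is
`NJ.light_zero` (helper63).
-/

namespace Pool.Agent.GaussPoset.EK

set_option linter.unusedSectionVars false

open Finset Win St Polynomial Wd Win.W4

universe u

variable (P : Type u) [Fintype P] [PartialOrder P] [DecidableEq P]

/-- INPUT (STEP 0): there is no component with two stars -/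
def HNo6 : Prop := ∀ r j : ℕ, 2 ≤ j → CB P r j → No6 P j

variable {P}

/-- (L1') from STEP 0 -/
theorem hheavy_of_no6 (h6 : HNo6 P) : HHeavy P := by
  intro r j K psi hj hc R t _ hl
  obtain ⟨i, rfl⟩ : ∃ i, j = i + 1 := ⟨j - 1, by omega⟩
  have hn := hc.nj
  have hN := h6 r (i + 1) hj hc
  refine NJ.light_zero hn hj R hN t ?_
  intro z y v S ht
  obtain ⟨-, -, hd⟩ := NJ.join_data hn (by omega) R S
  have hE := hl z y v S ht
  rcases hd with ⟨⟨m, x, c, β, B, hp⟩, -⟩ | ⟨-, h2, -⟩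
  · exact absurd hp (hN _ m x c β B)
  · rw [h2] at hE
    exact hE

end Pool.Agent.GaussPoset.EK

end

/-! From `Pool.Agent.W_448fin_h16.FnT` -/

section

/-!
# Final assembly (MP_448cb3_co): case B, the window `j - 1`, `j`: `HWin1` FROM THE LEAVES
-/

namespace Pool.Agent.GaussPoset.EK

set_option linter.unusedSectionVars false

open Finset Win St Polynomial Wd Win.W4

universe u

/-- THE INPUTS OF THE WINDOW -/
structure Leaves (P : Type u) [Fintype P] [PartialOrder P] [DecidableEq P] : Prop where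
  no6 : HNo6 P
  nat : HNat P
  closed : HClosed P
  open3 : HOpen3 P
  ring3 : HRing3 P
  fold : HFoldV P
  two : HTwo P

variable {P : Type u} [Fintype P] [PartialOrder P] [DecidableEq P] {r i j : ℕ}

variable {m : ℕ} {x : ℕ → P} {c : ℕ → ℤ} {β : ℤ} {t : Tops P}

variable {K : Finset P} {psi : P → P} {Y V : P → P}

/-- the value of a part -/
noncomputable def Lt (i : ℕ) (K : Finset P) (Y V : P → P) (t : Tops P) : ℤ :=
  Vt i t + Gt i K Y V t

/-- a level above a nonempty level -/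
lemma NJ.lv_pos (h : NJ P r (i + 1)) (hi1 : 1 ≤ i) (t : Tops P) : 1 ≤ (lv P i).card := by
  obtain ⟨m, x, c, β, B⟩ := NJ.rowB h (by omega) t
  have h1 := B.row.lev_x 0 (by omega)
  obtain ⟨u, hu⟩ := uc_nonempty h.g.H (x := x 0) (by omega)
  have h2 := lev_uc h.g.H hu
  exact card_pos.2 ⟨u, mem_lv.2 (by omega)⟩

section main

variable (hL : Leaves P) (h : CB P r (i + 1)) (hi1 : 1 ≤ i)
  (R : Red P (i + 1) K psi) (hY : YW (i + 1) Y V)

include hL h hi1 R hY

/-- the double edge at a closed end -/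
lemma CB.lt_closed (B : RowB P (i + 1) t m x c β) (hm : 3 ≤ m) (hd : IsDL m c β)
    (h6 : ∀ (m : ℕ) (x : ℕ → P) (c : ℕ → ℤ) (β : ℤ), RowB P (i + 1) t m x c β → ¬ Pat6 m c β)
    (hcl : (uc (x 0)).card = 2) {lo hi : Tops P → ℕ → ℕ}
    {e : Tops P → ℕ → ℕ → P} (C : ∀ t : Tops P, Cp.Comp (i + 1) (t : P) (lo t) (hi t) (e t))
    (hS : ∀ t : Tops P, Shape (i + 1) (lo t) (hi t)) :
    0 ≤ Lt i K Y V t ∧ (v3 (i + 1) t ≠ 0 → 0 < Lt i K Y V t) ∧ (4 ≤ m → 0 < Lt i K Y V t) := by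
  obtain ⟨a1, a2⟩ := hL.closed r i K psi t m x c β (lo t) (hi t) (e t) hi1 h R B (C t) (hS t) hm
    hd hcl
  have h2 := NJ.Gt_nonneg h.nj hi1 R hY t
  have hb := B.not_bad h.nj (by omega) (Or.inl (by rw [hd.1]; norm_num))
  unfold Lt
  by_cases hv : v3 (i + 1) t = 0
  · obtain ⟨b1, b2⟩ := a1 hv
    refine ⟨by linarith, fun q => absurd hv q, fun hm4 => ?_⟩
    have := b2 hm4
    linarith
  · obtain ⟨g1, g2⟩ := NJ.gain h.nj hi1 R hY h (hheavy_of_no6 hL.no6) h6 hb hv
    have h3 : 0 < Vt i t + Gt i K Y V t := by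
      rcases a2 hv with h4 | ⟨h4, h5⟩
      · linarith
      · have := g2 h5
        linarith
    exact ⟨h3.le, fun _ => h3, fun _ => h3⟩

/-- the double edge at a fold end -/
lemma CB.lt_fold (B : RowB P (i + 1) t m x c β) (hm : 3 ≤ m) (hd : IsDL m c β)
    (h6 : ∀ (m : ℕ) (x : ℕ → P) (c : ℕ → ℤ) (β : ℤ), RowB P (i + 1) t m x c β → ¬ Pat6 m c β)
    {lo hi : ℕ → ℕ} {e : ℕ → ℕ → P} (C : Cp.Comp (i + 1) (t : P) lo hi e)
    (hS : StairShape (i + 1) lo hi) (h0 : (i + 1) % 2 = 0) (hx : x 0 = e (i + 1) ((i + 1) / 2)) :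
    0 < Lt i K Y V t := by
  have h2 := NJ.Gt_nonneg h.nj hi1 R hY t
  have hb := B.not_bad h.nj (by omega) (Or.inl (by rw [hd.1]; norm_num))
  unfold Lt
  rcases hL.fold r i K psi t m x c β lo hi e hi1 h R B C hS h0 hm hx hd with h1 | ⟨h1, h3, h4⟩ |
    ⟨h1, z, y, v, S, h3, h4, h5⟩
  · linarith
  · have := (NJ.gain h.nj hi1 R hY h (hheavy_of_no6 hL.no6) h6 hb h3).2 h4
    linarith
  · have := NJ.gain_light h.nj hi1 R hY S h3 h6 hb h4 h5
    linarith

/-- EVERY PART -/
theorem CB.lt_all (hC : HCCu P) (hT : HTail P) {lo hi : Tops P → ℕ → ℕ}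
    {e : Tops P → ℕ → ℕ → P} (C : ∀ t : Tops P, Cp.Comp (i + 1) (t : P) (lo t) (hi t) (e t))
    (hS : ∀ t : Tops P, Shape (i + 1) (lo t) (hi t)) (t : Tops P) :
    0 ≤ Lt i K Y V t ∧ (v3 (i + 1) t ≠ 0 → 0 < Lt i K Y V t) := by
  classical
  have hn := h.nj
  have hG := NJ.Gt_nonneg hn hi1 R hY t
  have h6 := hL.no6 r (i + 1) (by omega) h t
  -- a natural row
  have natc : ∀ (m : ℕ) (x : ℕ → P) (c : ℕ → ℤ) (β : ℤ), RowB P (i + 1) t m x c β → β = 0 →
      (∀ k, k < m → c k = 0) → 0 ≤ Lt i K Y V t ∧ (v3 (i + 1) t ≠ 0 → 0 < Lt i K Y V t) := by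
    intro m x c β B hβ hc
    have h1 := hL.nat r i t m x c β hi1 h B hβ hc
    have hb := B.not_bad hn (by omega) (Or.inl (by rw [hβ]; norm_num))
    unfold Lt
    refine ⟨by linarith, fun hv => ?_⟩
    have := (NJ.gain hn hi1 R hY h (hheavy_of_no6 hL.no6) h6 hb hv).1
    linarith
  obtain ⟨m, x, c, β, B⟩ := NJ.rowB hn (by omega) t
  rcases Nat.lt_or_ge m 3 with hm | hm
  · by_cases hnat : β = 0 ∧ ∀ k, k < m → c k = 0
    · exact natc m x c β B hnat.1 hnat.2
    have hm2 : m = 2 := by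
      rcases B.pat with ⟨p1, p2⟩ | ⟨p0, -⟩ | ⟨p0, -⟩ | ⟨p0, -⟩ | ⟨p0, -⟩ | ⟨p0, -⟩ | ⟨p0, -⟩ | ⟨p0, -⟩
      · exact absurd ⟨p1, p2⟩ hnat
      all_goals omega
    subst hm2
    obtain ⟨hv, hV⟩ := hL.two r i K psi t x c β hi1 h R B hnat
    have hb := B.not_bad hn (by omega) (Or.inr (by norm_num))
    obtain ⟨g1, g2⟩ := NJ.gain hn hi1 R hY h (hheavy_of_no6 hL.no6) h6 hb hv
    have h1 : 0 < Lt i K Y V t := by
      unfold Lt
      rcases hV with hV | ⟨hV, hN⟩
      · linarith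
      · have := g2 hN
        linarith
    exact ⟨h1.le, fun _ => h1⟩
  rcases B.cases hn hm with hN | ⟨x', c', B', hB'⟩
  · obtain ⟨g1, g2⟩ := B.nat_zero hn hN
    exact natc m x c β B (g2 (by omega)) g1
  have hd : Dft m c' β := by
    rcases hB' with ⟨c0, c1, hb, h2 | h2⟩ | ⟨hb, c0, c1⟩
    · exact Or.inl ⟨c0, c1, hb, h2⟩
    · exact absurd h2 (h6 m x' c' β B')
    · exact Or.inr ⟨hb, c0, c1⟩
  rcases CB.shape2 hC h (by omega) C hS B' hm with ⟨g1, g2⟩ | ⟨a, L⟩
  · rcases hd with ⟨c0, c1, hb, h2⟩ | ⟨hb, -⟩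
    · have hI : IsDL m c' β := ⟨hb, c0, c1, h2⟩
      rcases g1 c0 with g3 | ⟨S, g4, g5⟩
      · obtain ⟨k1, k2, -⟩ := CB.lt_closed hL h hi1 R hY B' hm hI h6 g3 C hS
        exact ⟨k1, k2⟩
      · have := CB.lt_fold hL h hi1 R hY B' hm hI h6 (C t) S g4 g5
        exact ⟨this.le, fun _ => this⟩
    · exact absurd hb g2
  · rcases late_class hT h (by omega) C hS B' hm L hd with ⟨hI, g3⟩ | ⟨hI, hm3, g1, g2, g3, g4⟩ |
      ⟨hm3, hb, c0, c1, hp, hr⟩
    · obtain ⟨k1, k2, -⟩ := CB.lt_closed hL h hi1 R hY B' hm hI h6 g3 C hS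
      exact ⟨k1, k2⟩
    · subst hm3
      have hb := B'.not_bad hn (by omega) (Or.inl (by rw [hI.1]; norm_num))
      have h3 : 0 < Vt i t + Gt i K Y V t := by
        rcases hL.open3 r i t x' c' β (lo t) (hi t) (e t) a hi1 h B' (C t) (hS t) L hI g1 g2 g3 g4
          with a1 | ⟨a1, hv⟩ | ⟨a1, hv, z, y, v, S, k1, k2, k3⟩
        · linarith
        · have := (NJ.gain hn hi1 R hY h (hheavy_of_no6 hL.no6) h6 hb hv).1
          linarith
        · have := NJ.gain_both hn hi1 R hY h (hheavy_of_no6 hL.no6) h6 hb hv S k1 (k2 K psi R) k3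
          linarith
      exact ⟨h3.le, fun _ => h3⟩
    · subst hm3
      obtain ⟨f1, f2⟩ := B'.ends (by rw [hb]; norm_num)
      have h1 := hL.ring3 r i t x' c' β (lo t) (hi t) (e t) a hi1 h B' (C t) (hS t) L hb c0 c1
        f1 f2 hp hr
      have h3 : 0 < Lt i K Y V t := by
        unfold Lt
        linarith
      exact ⟨h3.le, fun _ => h3⟩

end main

/-- THE WINDOW `j - 1`, `j` -/
theorem hwin1 (hC : HCCu P) (hT : HTail P) (hL : Leaves P) : HWin1 P := by
  classical
  intro r j hj h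
  obtain ⟨i, rfl⟩ : ∃ i, j = i + 1 := ⟨j - 1, by omega⟩
  have hi1 : 1 ≤ i := by omega
  have hn := h.nj
  obtain ⟨lo, hi, e, C, hS⟩ := hsh (P := P) r (i + 1) hn.g
  obtain ⟨K, psi, R⟩ := exists_red P (i + 1)
  obtain ⟨Y, V, hY⟩ := exists_YW P (i + 1)
  rcases isEmpty_or_nonempty (Tops P) with hE | ⟨⟨t0⟩⟩
  · exact ⟨fun t => (hE.false t).elim, fun t => (hE.false t).elim, fun t => (hE.false t).elim⟩
  have hz : ∀ t : Tops P, Lt i K Y V t = 0 := by
    have h8 : (0 : ℤ) ≤ Wsh.a8 := by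
      unfold Wsh
      norm_num
    have h9 := (Pn.nj_end hn rfl hi1 (NJ.lv_pos hn hi1 t0) R Wsh h8 (gj i K Y V)
      (fun z hz => (hY.sum_gj hz).le)
      (fun t => (CB.lt_all hL h hi1 R hY hC hT C hS t).1)).1
    exact h9
  have hv : ∀ t : Tops P, v3 (i + 1) t = 0 := by
    intro t
    by_contra h1
    have h2 := (CB.lt_all hL h hi1 R hY hC hT C hS t).2 h1
    rw [hz t] at h2
    exact lt_irrefl _ h2
  have h6 := hL.no6 r (i + 1) (by omega) h
  refine ⟨hv, ?_, ?_⟩
  · intro t m x c β B hm c0 hcl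
    rcases B.isDL hn (by omega) c0 with hI | hI
    · have h2 := (CB.lt_closed hL h hi1 R hY B (by omega) hI (h6 t) hcl C hS).2.2 hm
      rw [hz t] at h2
      exact lt_irrefl _ h2
    · exact h6 t m x c β B hI
  · intro t m x c β lo' hi' e' B C' S' h2 hm hx c0
    rcases B.isDL hn (by omega) c0 with hI | hI
    · have h2 := CB.lt_fold hL h hi1 R hY B (by omega) hI (h6 t) C' S' h2 hx
      rw [hz t] at h2
      exact lt_irrefl _ h2
    · exact h6 t m x c β B hI

/-- THE THEOREM from the inputs which are left -/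
theorem distrib_of_inputs6 (hG : IsGaussian P) (hc : (SimpleGraph.hasse P).Connected)
    (h1 : HJoin10 P) (h3 : HCC3 P) (hT : HTail P) (hL : Leaves P) : IsDistribLatticeOrder P :=
  distrib_of_inputs5 hG hc h1 h3 (hwin1 (hccu h3) hT hL) hT

end Pool.Agent.GaussPoset.EK

end

/-! From `Pool.Agent.W_448st0_h96.SzB` -/

section

/-!
# Final assembly (MP_448cb3_co): STEP 0, no component with two stars: THE LEAVES AND THE END
-/

namespace Pool.Agent.GaussPoset.EK

set_option linter.unusedSectionVars false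

open Finset Win St Polynomial Wd Win.W4

universe u

section defs

variable (P : Type u) [Fintype P] [PartialOrder P] [DecidableEq P]

/-- INPUT of step 0: [DL], at least four sites, the doubled end closed -/
def HClosedQ : Prop :=
  ∀ (r i : ℕ) (K : Finset P) (psi : P → P) (t : Tops P) (m : ℕ) (x : ℕ → P) (c : ℕ → ℤ) (β : ℤ)
    (lo hi : ℕ → ℕ) (e : ℕ → ℕ → P), 5 ≤ i + 1 → i + 1 ≠ 8 → i + 1 ≠ 13 → CB P r (i + 1) →
    Red P (i + 1) K psi → RowB P (i + 1) t m x c β → Cp.Comp (i + 1) (t : P) lo hi e →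
    Shape (i + 1) lo hi → 3 ≤ m → IsDL m c β → (uc (x 0)).card = 2 → Q0 i K t

/-- INPUT of step 0: [DL], four sites, both ends single (the late words ending with OO) -/
def HOpen3Q : Prop :=
  ∀ (r i : ℕ) (K : Finset P) (psi : P → P) (t : Tops P) (x : ℕ → P) (c : ℕ → ℤ) (β : ℤ)
    (lo hi : ℕ → ℕ) (e : ℕ → ℕ → P) (a : ℕ), 5 ≤ i + 1 → i + 1 ≠ 8 → CB P r (i + 1) →
    Red P (i + 1) K psi → RowB P (i + 1) t 3 x c β → Cp.Comp (i + 1) (t : P) lo hi e →
    Shape (i + 1) lo hi → LateC (i + 1) a lo hi → IsDL 3 c β → (uc (x 0)).card = 1 →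
    (uc (x 3)).card = 1 → UE (i + 1) (cext (i + 1 + 1) (topOf : P → Tops P) t) x 2 = ∅ →
    (∀ k, k ≤ 3 → x k = e (i + 1) (lo (i + 1) + k)) → Q0 i K t

/-- INPUT of step 0: [DL] at a fold end -/
def HFoldQ : Prop :=
  ∀ (r i : ℕ) (K : Finset P) (psi : P → P) (t : Tops P) (m : ℕ) (x : ℕ → P) (c : ℕ → ℤ) (β : ℤ)
    (lo hi : ℕ → ℕ) (e : ℕ → ℕ → P), 1 ≤ i → CB P r (i + 1) → Red P (i + 1) K psi →
    RowB P (i + 1) t m x c β → Cp.Comp (i + 1) (t : P) lo hi e → StairShape (i + 1) lo hi →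
    (i + 1) % 2 = 0 → 3 ≤ m → x 0 = e (i + 1) ((i + 1) / 2) → IsDL m c β → Q0 i K t

/-- INPUT of step 0: three sites with a defect -/
def HTwoQ : Prop :=
  ∀ (r i : ℕ) (K : Finset P) (psi : P → P) (t : Tops P) (x : ℕ → P) (c : ℕ → ℤ) (β : ℤ)
    (lo hi : Tops P → ℕ → ℕ) (e : Tops P → ℕ → ℕ → P), 5 ≤ i + 1 → i + 1 ≠ 8 → HCCu P →
    HTail P → CB P r (i + 1) → Red P (i + 1) K psi →
    (∀ t : Tops P, Cp.Comp (i + 1) (t : P) (lo t) (hi t) (e t)) →
    (∀ t : Tops P, Shape (i + 1) (lo t) (hi t)) → RowB P (i + 1) t 2 x c β →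
    ¬ (β = 0 ∧ ∀ k, k < 2 → c k = 0) → Q0 i K t

/-- INPUT of step 0: two stars -/
def HSixQ : Prop :=
  ∀ (r i : ℕ) (K : Finset P) (psi : P → P) (t : Tops P) (m : ℕ) (x : ℕ → P) (c : ℕ → ℤ) (β : ℤ)
    (lo hi : Tops P → ℕ → ℕ) (e : Tops P → ℕ → ℕ → P), 5 ≤ i + 1 → i + 1 ≠ 8 → HCCu P →
    HTail P → CB P r (i + 1) → Red P (i + 1) K psi →
    (∀ t : Tops P, Cp.Comp (i + 1) (t : P) (lo t) (hi t) (e t)) →
    (∀ t : Tops P, Shape (i + 1) (lo t) (hi t)) → RowB P (i + 1) t m x c β → Pat6 m c β →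
    0 < Ut i t ∨ (0 ≤ Ut i t ∧ v3 (i + 1) t ≠ 0) ∨ (-8 < Ut i t ∧ LightJ i K t)

/-- THE INPUTS OF STEP 0 -/
structure Leaves0 : Prop where
  nat : HNat P
  closed : HClosedQ P
  open3 : HOpen3Q P
  ring3 : HRing3 P
  fold : HFoldQ P
  two : HTwoQ P
  six : HSixQ P

end defs

variable {P : Type u} [Fintype P] [PartialOrder P] [DecidableEq P] {r i j : ℕ}

variable {m : ℕ} {x : ℕ → P} {c : ℕ → ℤ} {β : ℤ} {t : Tops P}

variable {K : Finset P} {psi : P → P} {Y V : P → P}

lemma q_nonneg (v : ℤ) : 0 ≤ 2 * v + 4 * v ^ 2 := by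
  rcases lt_or_ge v 0 with h | h
  · nlinarith
  · positivity

lemma Q0_of_Vt (h : 0 ≤ Vt i t) : Q0 i K t := by
  left
  unfold Qt
  have := q_nonneg (v3 (i + 1) t)
  linarith

section main

variable (hL : Leaves0 P) (h : CB P r (i + 1)) (h5 : 5 ≤ i + 1) (h8 : i + 1 ≠ 8)
  (h13 : i + 1 ≠ 13) (R : Red P (i + 1) K psi)

include hL h h5 h8 h13 R

/-- EVERY PART WITHOUT TWO STARS -/
theorem CB.q0_all (hC : HCCu P) (hT : HTail P) {lo hi : Tops P → ℕ → ℕ}
    {e : Tops P → ℕ → ℕ → P} (C : ∀ t : Tops P, Cp.Comp (i + 1) (t : P) (lo t) (hi t) (e t))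
    (hS : ∀ t : Tops P, Shape (i + 1) (lo t) (hi t)) (t : Tops P)
    (h6 : ∀ (m : ℕ) (x : ℕ → P) (c : ℕ → ℤ) (β : ℤ),
      RowB P (i + 1) t m x c β → ¬ Pat6 m c β) : Q0 i K t := by
  classical
  have hn := h.nj
  have hi1 : 1 ≤ i := by omega
  have natc : ∀ (m : ℕ) (x : ℕ → P) (c : ℕ → ℤ) (β : ℤ), RowB P (i + 1) t m x c β → β = 0 →
      (∀ k, k < m → c k = 0) → Q0 i K t := fun m x c β B hβ hc =>
    Q0_of_Vt (hL.nat r i t m x c β hi1 h B hβ hc)
  obtain ⟨m, x, c, β, B⟩ := NJ.rowB hn (by omega) t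
  rcases Nat.lt_or_ge m 3 with hm | hm
  · by_cases hnat : β = 0 ∧ ∀ k, k < m → c k = 0
    · exact natc m x c β B hnat.1 hnat.2
    have hm2 : m = 2 := by
      rcases B.pat with ⟨p1, p2⟩ | ⟨p0, -⟩ | ⟨p0, -⟩ | ⟨p0, -⟩ | ⟨p0, -⟩ | ⟨p0, -⟩ | ⟨p0, -⟩ | ⟨p0, -⟩
      · exact absurd ⟨p1, p2⟩ hnat
      all_goals omega
    subst hm2
    exact hL.two r i K psi t x c β lo hi e h5 h8 hC hT h R C hS B hnat
  rcases B.cases hn hm with hN | ⟨x', c', B', hB'⟩
  · obtain ⟨g1, g2⟩ := B.nat_zero hn hN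
    exact natc m x c β B (g2 (by omega)) g1
  have hd : Dft m c' β := by
    rcases hB' with ⟨c0, c1, hb, h2 | h2⟩ | ⟨hb, c0, c1⟩
    · exact Or.inl ⟨c0, c1, hb, h2⟩
    · exact absurd h2 (h6 m x' c' β B')
    · exact Or.inr ⟨hb, c0, c1⟩
  rcases CB.shape2 hC h (by omega) C hS B' hm with ⟨g1, g2⟩ | ⟨a, L⟩
  · rcases hd with ⟨c0, c1, hb, h2⟩ | ⟨hb, -⟩
    · have hI : IsDL m c' β := ⟨hb, c0, c1, h2⟩
      rcases g1 c0 with g3 | ⟨S, g4, g5⟩
      · exact hL.closed r i K psi t m x' c' β (lo t) (hi t) (e t) h5 h8 h13 h R B' (C t)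
          (hS t) hm hI g3
      · exact hL.fold r i K psi t m x' c' β (lo t) (hi t) (e t) hi1 h R B' (C t) S g4 hm g5 hI
    · exact absurd hb g2
  · rcases late_class hT h (by omega) C hS B' hm L hd with ⟨hI, g3⟩ | ⟨hI, hm3, g1, g2, g3, g4⟩ |
      ⟨hm3, hb, c0, c1, hp, hr⟩
    · exact hL.closed r i K psi t m x' c' β (lo t) (hi t) (e t) h5 h8 h13 h R B' (C t)
          (hS t) hm hI g3
    · subst hm3
      exact hL.open3 r i K psi t x' c' β (lo t) (hi t) (e t) a h5 h8 h R B' (C t) (hS t) L hI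
        g1 g2 g3 g4
    · subst hm3
      obtain ⟨f1, f2⟩ := B'.ends (by rw [hb]; norm_num)
      exact Q0_of_Vt (hL.ring3 r i t x' c' β (lo t) (hi t) (e t) a hi1 h B' (C t) (hS t) L hb c0 c1
        f1 f2 hp hr).le

omit h8 h13 in
/-- A ROTATED ROW has a positive value -/
theorem CB.ring_pos (hC : HCCu P) (hT : HTail P) {lo hi : Tops P → ℕ → ℕ}
    {e : Tops P → ℕ → ℕ → P} (C : ∀ t : Tops P, Cp.Comp (i + 1) (t : P) (lo t) (hi t) (e t))
    (hS : ∀ t : Tops P, Shape (i + 1) (lo t) (hi t)) (B : RowB P (i + 1) t m x c β)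
    (hm : 3 ≤ m) (hb1 : β = 1) : 0 < Qt i t := by
  classical
  have hn := h.nj
  have hi1 : 1 ≤ i := by omega
  rcases B.cases hn hm with hN | ⟨x', c', B', hB'⟩
  · obtain ⟨g1, g2⟩ := B.nat_zero hn hN
    have := g2 (by omega)
    omega
  have hd : Dft m c' β := by
    rcases hB' with ⟨c0, c1, hb, h2 | h2⟩ | ⟨hb, c0, c1⟩
    · exact Or.inl ⟨c0, c1, hb, h2⟩
    · omega
    · exact Or.inr ⟨hb, c0, c1⟩
  rcases CB.shape2 hC h (by omega) C hS B' hm with ⟨g1, g2⟩ | ⟨a, L⟩
  · exact absurd hb1 g2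
  · rcases late_class hT h (by omega) C hS B' hm L hd with ⟨hI, g3⟩ | ⟨hI, hm3, g1, g2, g3, g4⟩ |
      ⟨hm3, hb, c0, c1, hp, hr⟩
    · have := hI.1
      omega
    · have := hI.1
      omega
    · subst hm3
      obtain ⟨f1, f2⟩ := B'.ends (by rw [hb]; norm_num)
      have h1 := hL.ring3 r i t x' c' β (lo t) (hi t) (e t) a hi1 h B' (C t) (hS t) L hb c0 c1
        f1 f2 hp hr
      have h2 := q_nonneg (v3 (i + 1) t)
      unfold Qt
      linarith

end main

/-- a row with two stars has at least six sites -/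
lemma RowB.six_le (h : NJ P r j) (hj : 2 ≤ j) (B : RowB P j t m x c β) (hp : Pat6 m c β) :
    5 ≤ j := by
  obtain ⟨lo, hi, e, C⟩ := Cp.comp_exists h.g.H t.2 h.g.hr h.g.good
  obtain ⟨l1, -⟩ := B.orient h hj C
  have h1 : ∀ k, k ≤ j → hi k ≤ k := by
    intro k
    induction k with
    | zero => exact fun _ => C.hi_zero.le
    | succ k ih =>
      intro hk
      have := ih (by omega)
      have := C.hi_step k (by omega)
      omega
  have h2 := h1 j le_rfl
  have h3 := hp.1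
  omega

/-- STEP 0: no component with two stars -/
theorem no6_of (hC : HCCu P) (hT : HTail P) (hL : Leaves0 P) :
    ∀ r j, 2 ≤ j → j ≠ 8 → j ≠ 13 → CB P r j → No6 P j := by
  classical
  intro r j hj h8 h13 h t m x c β B hp
  have h5 := B.six_le h.nj hj hp
  obtain ⟨i, rfl⟩ : ∃ i, j = i + 1 := ⟨j - 1, by omega⟩
  have hi1 : 1 ≤ i := by omega
  have hn := h.nj
  obtain ⟨lo, hi, e, C, hS⟩ := hsh (P := P) r (i + 1) hn.g
  obtain ⟨K, psi, R⟩ := exists_red P (i + 1)
  obtain ⟨Y, V, hY⟩ := exists_YW P (i + 1)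
  have six : ∀ (t : Tops P) (m : ℕ) (x : ℕ → P) (c : ℕ → ℤ) (β : ℤ),
      RowB P (i + 1) t m x c β → Pat6 m c β →
      0 < Ut i t + G0 i K Y t ∨ (0 ≤ Ut i t + G0 i K Y t ∧ v3 (i + 1) t ≠ 0) := by
    intro t m x c β B hp
    have h2 := NJ.G0_nonneg hn hi1 R hY t
    rcases hL.six r i K psi t m x c β lo hi e h5 h8 hC hT h R C hS B hp with
      h1 | ⟨h1, h3⟩ | ⟨h1, h3⟩
    · left
      linarith
    · right
      exact ⟨by linarith, h3⟩
    · left
      have := NJ.G0_light hn hi1 R hY h3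
      linarith
  have hpos : ∀ t : Tops P, 0 ≤ Ut i t + G0 i K Y t := by
    intro t
    by_cases h6 : ∀ (m : ℕ) (x : ℕ → P) (c : ℕ → ℤ) (β : ℤ),
        RowB P (i + 1) t m x c β → ¬ Pat6 m c β
    · exact NJ.Q0_nonneg hn hi1 R hY h6 (CB.q0_all hL h h5 h8 h13 R hC hT C hS t h6)
    · push Not at h6
      obtain ⟨m, x, c, β, B, hp⟩ := h6
      rcases six t m x c β B hp with h1 | ⟨h1, -⟩
      · exact h1.le
      · exact h1
  have ha8 : (0 : ℤ) ≤ Wst.a8 := by
    unfold Wst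
    norm_num
  have hz : ∀ t : Tops P, Ut i t + G0 i K Y t = 0 := fun t => by
    have := (Pn.nj_end hn rfl hi1 (NJ.lv_pos hn hi1 t) R Wst ha8 (g0 i K Y)
      (fun z hz => (hY.sum_g0 hz).le) hpos).1 t
    rwa [Lm_g0] at this
  -- no bad double
  have hbad : ∀ y : P, ¬ BadR P (i + 1) y := by
    rintro y ⟨m', x', c', β', B', hm', hb', -⟩
    have h1 := CB.ring_pos hL h h5 R hC hT C hS B' hm' hb'
    have h2 := NJ.G0_nonneg hn hi1 R hY (topOf y)
    have hs : Small (i + 1) (topOf : P → Tops P) (topOf y) := by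
      rcases B'.small h.nj.g.H h.nj.split with h3 | h3
      · exact h3
      · have := h3.2.1
        omega
    have h3 := hz (topOf y)
    rw [NJ.Ut_small hn hi1 R hs] at h3
    linarith
  rcases six t m x c β B hp with h1 | ⟨-, h1⟩
  · have := hz t
    linarith
  · have h2 := ((NJ.w3_zero (K := K) (psi := psi) hn (by omega) R
      (fun z y v _ _ hb => absurd hb (hbad y))).1 t).1
    exact h1 h2

end Pool.Agent.GaussPoset.EK

end

/-! From `Pool.Agent.W_448st0_h96.SzC` -/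

section

/-!
# Final assembly (MP_448cb3_co): STEP 0 at the level 8: THE CHARGES

`j = i + 1`.  The functional `Wei` is `- L31 + 7 L52 - 2 L62 - 2 L83 - 2 L10,4 + w21 - 2 L42 + 6 w32 +
2 (w32 ^ 2 - 2 w64)`.  A join of a double and a single element costs (twice)
`4 (1 + Ek 1 + 2 Ek 2 + 2 Ek 3)`; everything goes to the part of the double element, but a bad join
with `b = sz ≥ 1` is paid by the two parts: `4` and `4 (b - 1)`.
-/

namespace Pool.Agent.GaussPoset.EK

set_option linter.unusedSectionVars false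

open Finset Win St Polynomial Wd Win.W4

universe u

/-- the weights of step 0 at the level 8 -/
def Wei : Pn.Wt := ⟨-1, 7, 1, 2, 1, 1, 1, 6, 2⟩

section defs

variable {P : Type u} [Fintype P] [PartialOrder P] [DecidableEq P]

/-- twice the value of a part with the shares of its pendants, weights of step 0 at the level 8 -/
noncomputable def Ue (i : ℕ) (t : Tops P) : ℤ :=
  2 * Pn.own Wei i (i + 1) t +
    ∑ p ∈ (PD P i).filter (fun p => (topOf p : Tops P) = t), Pn.shr Wei i p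

/-- a join at a double of the part which is not bad -/
def GoodJ (j : ℕ) (t : Tops P) : Prop :=
  ∃ z y v : P, K2.SD j (topOf : P → Tops P) z y v ∧ topOf y = t ∧ ¬ BadR P j y

open Classical in
/-- the share of the part of the single element (only at a triangle) -/
noncomputable def PC (j : ℕ) (K : Finset P) (Y V : P → P) (t : Tops P) : ℤ :=
  ∑ z ∈ (PZ j K Y V).filter (fun z => topOf (V z) = t), (sz j K V z - 1)

/-- the bound of the leaves of step 0 at the level 8 -/
def Qe (i : ℕ) (K : Finset P) (Y V : P → P) (t : Tops P) : Prop :=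
  4 * (PA (i + 1) K Y V t + PC (i + 1) K Y V t) ≤ Ue i t ∨
    (4 * (PA (i + 1) K Y V t + PC (i + 1) K Y V t) ≤ Ue i t + 4 ∧ GoodJ (i + 1) t)

end defs

variable {P : Type u} [Fintype P] [PartialOrder P] [DecidableEq P] {r i j : ℕ}

variable {m : ℕ} {x : ℕ → P} {c : ℕ → ℤ} {β : ℤ} {t : Tops P}

variable {K : Finset P} {psi : P → P} {Y V : P → P}

open Classical in
/-- the payment of the part of the single element -/
noncomputable def pe (i : ℕ) (K : Finset P) (Y V : P → P) (z : P) : ℤ :=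
  if z ∈ PZ (i + 1) K Y V then 4 * (sz (i + 1) K V z - 1) else 0

open Classical in
/-- the shares of a join -/
noncomputable def ge (i : ℕ) (K : Finset P) (Y V : P → P) (z q : P) : ℤ :=
  if q = Y z then Pn.cst Wei i (i + 1) K z + pe i K Y V z else
    if q = V z then - pe i K Y V z else 0

open Classical in
/-- the sum of the shares at a part -/
noncomputable def Ge (i : ℕ) (K : Finset P) (Y V : P → P) (t : Tops P) : ℤ :=
  ∑ z ∈ K2.Z2 (i + 1) (topOf : P → Tops P),
    ∑ q ∈ (uc z).filter (fun q => (topOf q : Tops P) = t), ge i K Y V z q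

/-- the sum of the shares -/
lemma YW.sum_ge (hY : YW (i + 1) Y V) {z : P} (hz : z ∈ K2.Z2 (i + 1) (topOf : P → Tops P)) :
    ∑ q ∈ uc z, ge i K Y V z q = Pn.cst Wei i (i + 1) K z := by
  classical
  have S := hY z hz
  rw [S.huc, sum_pair S.ne]
  unfold ge
  rw [if_pos rfl, if_neg S.ne.symm, if_pos rfl]
  ring

/-- the cost -/
lemma cste_val {z : P} :
    Pn.cst Wei i (i + 1) K z = 2 * JW (i + 1) K z := by
  classical
  unfold Pn.cst Pn.e1 Pn.e23 Wei JW
  split_ifs <;> ring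

open Classical in
/-- the sum of the shares at a part, join by join -/
lemma YW.Ge_eq (hY : YW (i + 1) Y V) (t : Tops P) : Ge i K Y V t =
    ∑ z ∈ K2.Z2 (i + 1) (topOf : P → Tops P),
      ((if topOf (Y z) = t then Pn.cst Wei i (i + 1) K z + pe i K Y V z else 0) +
        (if topOf (V z) = t then - pe i K Y V z else 0)) := by
  unfold Ge
  refine sum_congr rfl fun z hz => ?_
  have S := hY z hz
  rw [S.huc, sum_filter, sum_pair S.ne]
  unfold ge
  rw [if_pos rfl, if_neg S.ne.symm, if_pos rfl]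

section main

variable (h : NJ P r (i + 1)) (hi1 : 1 ≤ i) (R : Red P (i + 1) K psi) (hY : YW (i + 1) Y V)

include h hi1 R hY

/-- the share of the part of the double element -/
lemma NJ.ge_double {z : P} (hz : z ∈ K2.Z2 (i + 1) (topOf : P → Tops P)) :
    (- (if z ∈ PZ (i + 1) K Y V then 4 else 0) ≤ Pn.cst Wei i (i + 1) K z + pe i K Y V z) ∧
      (¬ BadR P (i + 1) (Y z) → 4 ≤ Pn.cst Wei i (i + 1) K z + pe i K Y V z) := by
  classical
  have S := hY z hz
  have h1 := NJ.sa_single h (by omega) R (S.lv' h.g.H) S.cv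
  have hc : Pn.cst Wei i (i + 1) K z = 2 * JW (i + 1) K z := cste_val
  unfold pe
  by_cases hb : BadR P (i + 1) (Y z)
  · refine ⟨?_, fun q => absurd hb q⟩
    have h2 := NJ.JW_bad h R S (by omega) hb
    by_cases hp : z ∈ PZ (i + 1) K Y V
    · rw [if_pos hp, if_pos hp, hc, h2]
      unfold sz
      linarith
    · rw [if_neg hp, if_neg hp, hc, h2]
      have h3 : ¬ 1 ≤ sz (i + 1) K V z := fun q => hp (mem_PZ.2 ⟨hz, hb, q⟩)
      unfold sz at h3
      linarith
  · have hp : z ∉ PZ (i + 1) K Y V := fun q => hb (mem_PZ.1 q).2.1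
    have h2 := NJ.JW_good h R S (by omega) hb
    rw [if_neg hp, if_neg hp, hc]
    refine ⟨by linarith, fun _ => by linarith⟩

/-- the shares at a part -/
lemma NJ.Ge_ge (t : Tops P) :
    - (4 * (PA (i + 1) K Y V t + PC (i + 1) K Y V t)) ≤ Ge i K Y V t ∧
      (GoodJ (i + 1) t →
        4 - 4 * (PA (i + 1) K Y V t + PC (i + 1) K Y V t) ≤ Ge i K Y V t) := by
  classical
  have e0 : PZ (i + 1) K Y V = (K2.Z2 (i + 1) (topOf : P → Tops P)).filter
      (fun z => z ∈ PZ (i + 1) K Y V) := by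
    ext z
    rw [mem_filter]
    exact ⟨fun q => ⟨(mem_PZ.1 q).1, q⟩, fun q => q.2⟩
  have e1 : PA (i + 1) K Y V t = ∑ z ∈ K2.Z2 (i + 1) (topOf : P → Tops P),
      (if z ∈ PZ (i + 1) K Y V then (if topOf (Y z) = t then (1 : ℤ) else 0) else 0) := by
    rw [← sum_filter, ← e0]
    unfold PA
    rw [card_filter]
    push_cast
    rfl
  have e2 : PC (i + 1) K Y V t = ∑ z ∈ K2.Z2 (i + 1) (topOf : P → Tops P),
      (if z ∈ PZ (i + 1) K Y V then
        (if topOf (V z) = t then sz (i + 1) K V z - 1 else 0) else 0) := by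
    rw [← sum_filter, ← e0]
    unfold PC
    rw [sum_filter]
  have key : Ge i K Y V t + 4 * (PA (i + 1) K Y V t + PC (i + 1) K Y V t) =
      ∑ z ∈ K2.Z2 (i + 1) (topOf : P → Tops P),
        (if topOf (Y z) = t then Pn.cst Wei i (i + 1) K z + pe i K Y V z +
          (if z ∈ PZ (i + 1) K Y V then 4 else 0) else 0) := by
    rw [hY.Ge_eq, e1, e2, ← sum_add_distrib, mul_sum, ← sum_add_distrib]
    refine sum_congr rfl fun z hz => ?_
    unfold pe
    split_ifs <;> ring
  have hnn : ∀ z ∈ K2.Z2 (i + 1) (topOf : P → Tops P), (0 : ℤ) ≤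
      (if topOf (Y z) = t then Pn.cst Wei i (i + 1) K z + pe i K Y V z +
          (if z ∈ PZ (i + 1) K Y V then 4 else 0) else 0) := by
    intro z hz
    have := (NJ.ge_double h hi1 R hY hz).1
    split_ifs
    · rename_i q1 q2
      rw [if_pos q2] at this
      linarith
    · rename_i q1 q2
      rw [if_neg q2] at this
      linarith
    · exact le_rfl
  refine ⟨by have := sum_nonneg hnn; linarith, ?_⟩
  rintro ⟨z, y, v, S, rfl, hb⟩
  have hz2 := NJ.sd_Z2 h S
  obtain ⟨rfl, rfl⟩ := hY.uniq hz2 S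
  have h1 := single_le_sum (f := fun z' => (if topOf (Y z') = topOf (Y z) then
    Pn.cst Wei i (i + 1) K z' + pe i K Y V z' +
      (if z' ∈ PZ (i + 1) K Y V then (4 : ℤ) else 0) else 0)) hnn hz2
  have h2 := (NJ.ge_double h hi1 R hY hz2).2 hb
  have h3 : z ∉ PZ (i + 1) K Y V := fun q => hb (mem_PZ.1 q).2.1
  simp only [if_true] at h1
  rw [if_neg h3] at h1
  linarith

/-- a part without bad doubles whose single elements have values at most one pays nothing -/
theorem NJ.pay_zero (B : RowB P (i + 1) t m x c β) (hb : m ≤ 2 ∨ β = 0)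
    (hs : ∀ q, q ≤ m → (pen (x q)).Nonempty → sa (i + 1) (topOf : P → Tops P) K {x q} t ≤ 1) :
    PA (i + 1) K Y V t = 0 ∧ PC (i + 1) K Y V t = 0 := by
  classical
  constructor
  · refine NJ.PA_zero h (by omega) R hY fun y hy ht => ?_
    have := B.bad h (by omega) hy ht
    omega
  · unfold PC
    refine sum_eq_zero fun z hz => ?_
    rw [mem_filter] at hz
    obtain ⟨q, hq, h1, -, h2⟩ := NJ.PZ_V h (by omega) R hY hz.1 hz.2 B
    have h3 := (mem_PZ.1 hz.1).2.2
    have := hs q hq ⟨_, h1⟩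
    omega

end main

end Pool.Agent.GaussPoset.EK

end

/-! From `Pool.Agent.W_448st0_h96.SzE` -/

section

/-!
# Final assembly (MP_448cb3_co): STEP 0 at the level 8, WITH COUNTING: THE CHARGES

`j = i + 1`.  The functional `Wea` is `- L31 + 7 L52 - 2 L62 - 2 L83 - 2 L10,4 + w21 - 2 L42 + 7 w32 +
w32 ^ 2 - 2 w64`.  A join of a double and a single element costs (twice) `4 (1 + a) (1 + b) ≥ 0`;
everything goes to the part of the double element, a bad join costs nothing.
-/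

namespace Pool.Agent.GaussPoset.EK

set_option linter.unusedSectionVars false

open Finset Win St Polynomial Wd Win.W4

universe u

/-- the weights of step 0 at the level 8, with counting -/
def Wea : Pn.Wt := ⟨-1, 7, 1, 2, 1, 1, 1, 7, 1⟩

section defs

variable {P : Type u} [Fintype P] [PartialOrder P] [DecidableEq P]

/-- twice the value of a part with the shares of its pendants -/
noncomputable def Ua (i : ℕ) (t : Tops P) : ℤ :=
  2 * Pn.own Wea i (i + 1) t +
    ∑ p ∈ (PD P i).filter (fun p => (topOf p : Tops P) = t), Pn.shr Wea i p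

/-- the joins at the single elements of the part are light -/
def OwnL (j : ℕ) (K : Finset P) (t : Tops P) : Prop :=
  ∀ z y v : P, K2.SD j (topOf : P → Tops P) z y v → topOf v = t →
    sa j (topOf : P → Tops P) K (uc v) (topOf v) = 0

/-- THE COUNTED PARTS: three sites, value (3,2) equal to minus one, light joins -/
def Sz (j : ℕ) (K : Finset P) (t : Tops P) : Prop :=
  Pn.F3 j t = -1 ∧ (st j (cext (j + 1) (topOf : P → Tops P) t)).card ≤ 3 ∧ OwnL j K t

/-- a part with two stars -/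
def Six (j : ℕ) (t : Tops P) : Prop :=
  ∃ (m : ℕ) (x : ℕ → P) (c : ℕ → ℤ) (β : ℤ), RowB P j t m x c β ∧ Pat6 m c β

/-- the bound of the leaves of step 0 at the level 8 -/
def Qa (i : ℕ) (K : Finset P) (t : Tops P) : Prop :=
  0 ≤ Ua i t ∨ (-4 ≤ Ua i t ∧ (GoodJ (i + 1) t ∨ Sz (i + 1) K t))

end defs

variable {P : Type u} [Fintype P] [PartialOrder P] [DecidableEq P] {r i j : ℕ}

variable {m : ℕ} {x : ℕ → P} {c : ℕ → ℤ} {β : ℤ} {t : Tops P}

variable {K : Finset P} {psi : P → P} {Y V : P → P}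

open Classical in
/-- the shares of a join -/
noncomputable def ga (i : ℕ) (K : Finset P) (Y : P → P) (z q : P) : ℤ :=
  if q = Y z then Pn.cst Wea i (i + 1) K z else 0

open Classical in
/-- the sum of the shares at a part -/
noncomputable def Ga (i : ℕ) (K : Finset P) (Y : P → P) (t : Tops P) : ℤ :=
  ∑ z ∈ K2.Z2 (i + 1) (topOf : P → Tops P),
    ∑ q ∈ (uc z).filter (fun q => (topOf q : Tops P) = t), ga i K Y z q

lemma Lm_ga (t : Tops P) : Pn.Lm Wea (ga i K Y) i (i + 1) t = Ua i t + Ga i K Y t := rfl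

/-- the sum of the shares -/
lemma YW.sum_ga (hY : YW (i + 1) Y V) {z : P} (hz : z ∈ K2.Z2 (i + 1) (topOf : P → Tops P)) :
    ∑ q ∈ uc z, ga i K Y z q = Pn.cst Wea i (i + 1) K z := by
  classical
  have S := hY z hz
  rw [S.huc, sum_pair S.ne]
  unfold ga
  rw [if_pos rfl, if_neg S.ne.symm, add_zero]

/-- the cost -/
lemma csta_val {z : P} : Pn.cst Wea i (i + 1) K z =
    4 * (1 + Ek (i + 1) K (K2.Tz z) 1) +
      4 * (Ek (i + 1) K (K2.Tz z) 3 + Ek (i + 1) K (K2.Tz z) 2) := by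
  classical
  unfold Pn.cst Pn.e1 Pn.e23 Wea
  split_ifs <;> ring

section main

variable (h : NJ P r (i + 1)) (hi1 : 1 ≤ i) (R : Red P (i + 1) K psi)

include h R hi1

/-- every join has a nonnegative cost, a join of a double which is not bad at least four -/
lemma NJ.csta_bounds {z y v : P} (S : K2.SD (i + 1) (topOf : P → Tops P) z y v) :
    0 ≤ Pn.cst Wea i (i + 1) K z ∧ (¬ BadR P (i + 1) y → 4 ≤ Pn.cst Wea i (i + 1) K z) := by
  classical
  have hj : 2 ≤ i + 1 := by omega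
  have hjr : i + 1 ≤ r := by have := h.hr; omega
  have h1 := K2.Ek_one_SD h.g.H hjr h.split R.mat R.sub S
  have hb := NJ.sa_single h hj R (S.lv' h.g.H) S.cv
  have hcst : Pn.cst Wea i (i + 1) K z = 4 * (1 + Ek (i + 1) K (K2.Tz z) 1) +
      4 * (Ek (i + 1) K (K2.Tz z) 3 + Ek (i + 1) K (K2.Tz z) 2) := csta_val
  obtain ⟨m, x, c, β, B⟩ := NJ.rowB h hj (topOf y)
  by_cases hp : Pat6 m c β
  · have h3 := NJ.join_six h R S hj B hp
    have e1 := h3 1
    have e2 := h3 2
    have e3 := h3 3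
    refine ⟨?_, fun _ => ?_⟩
    · rw [hcst]
      linarith
    · rw [hcst]
      linarith
  · have hy : Small (i + 1) (topOf : P → Tops P) (topOf y) :=
      (B.small h.g.H h.split).resolve_right hp
    obtain ⟨h2, h3⟩ := NJ.join_small h R S hj hy (NJ.join_v h R S hj)
    rw [h1, h2, h3 3 le_rfl] at hcst
    generalize sa (i + 1) (topOf : P → Tops P) K (uc v) (topOf v) = b at *
    by_cases hbad : BadR P (i + 1) y
    · have ha := sa_badR h R hbad
      rw [ha] at hcst
      refine ⟨?_, fun q => absurd hbad q⟩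
      rw [hcst]
      linarith
    · have ha := B.sa_double h R hp (paO_y h S) rfl hbad
      generalize sa (i + 1) (topOf : P → Tops P) K (uc y) (topOf y) = a at *
      have hab := mul_nonneg ha hb
      refine ⟨?_, fun _ => ?_⟩
      · rw [hcst]
        linarith
      · rw [hcst]
        linarith

variable (hY : YW (i + 1) Y V)

include hY

lemma NJ.ga_nonneg {z q : P} (hz2 : z ∈ K2.Z2 (i + 1) (topOf : P → Tops P)) :
    0 ≤ ga i K Y z q := by
  classical
  unfold ga
  split_ifs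
  · exact (NJ.csta_bounds h hi1 R (hY z hz2)).1
  · exact le_rfl

lemma NJ.Ga_nonneg (t : Tops P) : 0 ≤ Ga i K Y t := by
  classical
  unfold Ga
  exact sum_nonneg fun z hz => sum_nonneg fun q _ => NJ.ga_nonneg h hi1 R hY hz

/-- the gain of a good join -/
theorem NJ.Ga_good (hl : GoodJ (i + 1) t) : 4 ≤ Ga i K Y t := by
  classical
  obtain ⟨z, y, v, S, rfl, ha⟩ := hl
  have hz2 := NJ.sd_Z2 h S
  obtain ⟨rfl, rfl⟩ := hY.uniq hz2 S
  have h1 := (NJ.csta_bounds h hi1 R (hY z hz2)).2 ha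
  have h2 : ga i K Y z (Y z) = Pn.cst Wea i (i + 1) K z := by
    unfold ga
    rw [if_pos rfl]
  have h3 : ga i K Y z (Y z) ≤
      ∑ q ∈ (uc z).filter (fun q => (topOf q : Tops P) = topOf (Y z)), ga i K Y z q :=
    single_le_sum (f := fun q => ga i K Y z q) (fun q _ => NJ.ga_nonneg h hi1 R hY hz2)
      (mem_filter.2 ⟨S.my, rfl⟩)
  have h4 : ∑ q ∈ (uc z).filter (fun q => (topOf q : Tops P) = topOf (Y z)), ga i K Y z q ≤
      Ga i K Y (topOf (Y z)) :=
    single_le_sum (f := fun z' => ∑ q ∈ (uc z').filter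
      (fun q => (topOf q : Tops P) = topOf (Y z)), ga i K Y z' q)
      (fun z' hz => sum_nonneg fun q _ => NJ.ga_nonneg h hi1 R hY hz) hz2
  linarith

/-- the value of a part -/
theorem NJ.Qa_nonneg (hQ : Qa i K t) :
    0 ≤ Ua i t + Ga i K Y t ∨ (-4 ≤ Ua i t + Ga i K Y t ∧ Sz (i + 1) K t) := by
  have h0 := NJ.Ga_nonneg h hi1 R hY t
  rcases hQ with h1 | ⟨h1, h2 | h2⟩
  · left
    linarith
  · left
    have := NJ.Ga_good h hi1 R hY h2
    linarith
  · right
    exact ⟨by linarith, h2⟩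

/-- THE COUNT: no part with two stars -/
theorem NJ.no_six (hc : ∀ A B : Finset (Tops P), (∀ t ∈ A, Sz (i + 1) K t) →
      (∀ t, Six (i + 1) t → t ∈ B) → (∀ t ∈ B, Six (i + 1) t) → A.card ≤ 4 * B.card)
    (h6 : ∀ t : Tops P, Six (i + 1) t → 20 ≤ Ua i t)
    (hQ : ∀ t : Tops P, ¬ Six (i + 1) t → Qa i K t) (t : Tops P) : ¬ Six (i + 1) t := by
  classical
  intro ht
  obtain ⟨A, hA⟩ : ∃ A : Finset (Tops P), A = univ.filter (fun t => Sz (i + 1) K t) := ⟨_, rfl⟩
  obtain ⟨B, hB⟩ : ∃ B : Finset (Tops P), B = univ.filter (fun t => Six (i + 1) t) := ⟨_, rfl⟩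
  have mA : ∀ t, t ∈ A ↔ Sz (i + 1) K t := fun t => by rw [hA, mem_filter]; simp
  have mB : ∀ t, t ∈ B ↔ Six (i + 1) t := fun t => by rw [hB, mem_filter]; simp
  have hcard := hc A B (fun t q => (mA t).1 q) (fun t q => (mB t).2 q) (fun t q => (mB t).1 q)
  obtain ⟨X, hX⟩ : ∃ X : Tops P → ℤ, ∀ t, X t =
      (if t ∈ A then 4 else 0) - (if t ∈ B then 16 else 0) := ⟨_, fun _ => rfl⟩
  have hsum : ∑ t : Tops P, X t ≤ 0 := by
    have e1 : ∑ t : Tops P, X t = 4 * (A.card : ℤ) - 16 * (B.card : ℤ) := by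
      rw [Finset.sum_congr rfl (fun t _ => hX t), sum_sub_distrib, ← sum_filter, ← sum_filter,
        sum_const, sum_const, filter_univ_mem, filter_univ_mem, nsmul_eq_mul, nsmul_eq_mul]
      ring
    have e2 : (A.card : ℤ) ≤ 4 * (B.card : ℤ) := by exact_mod_cast hcard
    linarith
  have hGn := fun t => NJ.Ga_nonneg h hi1 R hY t
  have hpos : ∀ t : Tops P, 0 ≤ Pn.Lm Wea (ga i K Y) i (i + 1) t + X t := by
    intro t
    rw [Lm_ga, hX t]
    by_cases hb : Six (i + 1) t
    · have e1 := h6 t hb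
      have e2 := hGn t
      rw [if_pos ((mB t).2 hb)]
      split_ifs <;> linarith
    · rw [if_neg (fun q => hb ((mB t).1 q))]
      rcases NJ.Qa_nonneg h hi1 R hY (hQ t hb) with e1 | ⟨e1, e2⟩
      · split_ifs <;> linarith
      · rw [if_pos ((mA t).2 e2)]
        linarith
  have ha8 : (0 : ℤ) ≤ Wea.a8 := by
    unfold Wea
    norm_num
  have hz := (Pn.nj_endX h rfl hi1 (NJ.lv_pos h hi1 t) R Wea ha8 (ga i K Y) X hsum
    (fun z hz => (hY.sum_ga hz).le) hpos).1 t
  rw [Lm_ga, hX t, if_pos ((mB t).2 ht)] at hz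
  have e1 := h6 t ht
  have e2 := hGn t
  split_ifs at hz <;> linarith

end main

end Pool.Agent.GaussPoset.EK

end

/-! From `Pool.Agent.W_448st0_h96.SzF` -/

section

/-!
# Final assembly (MP_448cb3_co): STEP 0 at the level 8, WITH COUNTING: THE LEAVES AND THE END
-/

namespace Pool.Agent.GaussPoset.EK

set_option linter.unusedSectionVars false

open Finset Win St Polynomial Wd Win.W4

universe u

section defs

variable (P : Type u) [Fintype P] [PartialOrder P] [DecidableEq P]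

/-- INPUT of step 0, level 8: naturals -/
def HNatA : Prop :=
  ∀ (r i : ℕ) (t : Tops P) (m : ℕ) (x : ℕ → P) (c : ℕ → ℤ) (β : ℤ), i + 1 = 8 →
    CB P r (i + 1) → RowB P (i + 1) t m x c β → β = 0 → (∀ k, k < m → c k = 0) → 0 ≤ Ua i t

/-- INPUT of step 0, level 8: [DL], at least four sites, the doubled end closed -/
def HClosedA : Prop :=
  ∀ (r i : ℕ) (K : Finset P) (psi : P → P) (t : Tops P) (m : ℕ) (x : ℕ → P) (c : ℕ → ℤ) (β : ℤ)
    (lo hi : ℕ → ℕ) (e : ℕ → ℕ → P), i + 1 = 8 → CB P r (i + 1) →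
    Red P (i + 1) K psi → RowB P (i + 1) t m x c β → Cp.Comp (i + 1) (t : P) lo hi e →
    Shape (i + 1) lo hi → 3 ≤ m → IsDL m c β → (uc (x 0)).card = 2 →
    0 ≤ Ua i t ∨ (-4 ≤ Ua i t ∧ GoodJ (i + 1) t)

/-- INPUT of step 0, level 8: [DL], at least four sites, at a fold end -/
def HFoldA : Prop :=
  ∀ (r i : ℕ) (t : Tops P) (m : ℕ) (x : ℕ → P) (c : ℕ → ℤ)
    (lo hi : ℕ → ℕ) (e : ℕ → ℕ → P), i + 1 = 8 → FoldDL P r i t m x c lo hi e →
    0 ≤ Ua i t ∨ (-4 ≤ Ua i t ∧ GoodJ (i + 1) t)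

/-- INPUT of step 0, level 8: [DL], four sites, both ends single (the late words ending with OO) -/
def HOpen3A : Prop :=
  ∀ (r i : ℕ) (K : Finset P) (psi : P → P) (t : Tops P) (x : ℕ → P) (c : ℕ → ℤ) (β : ℤ)
    (lo hi : ℕ → ℕ) (e : ℕ → ℕ → P) (a : ℕ), i + 1 = 8 → CB P r (i + 1) →
    Red P (i + 1) K psi → RowB P (i + 1) t 3 x c β → Cp.Comp (i + 1) (t : P) lo hi e →
    Shape (i + 1) lo hi → LateC (i + 1) a lo hi → IsDL 3 c β → (uc (x 0)).card = 1 →
    (uc (x 3)).card = 1 → UE (i + 1) (cext (i + 1 + 1) (topOf : P → Tops P) t) x 2 = ∅ →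
    (∀ k, k ≤ 3 → x k = e (i + 1) (lo (i + 1) + k)) →
    0 ≤ Ua i t ∨ (-4 ≤ Ua i t ∧ GoodJ (i + 1) t)

/-- INPUT of step 0, level 8: the rotated rows with four sites -/
def HRing3A : Prop :=
  ∀ (r i : ℕ) (K : Finset P) (psi : P → P) (t : Tops P) (x : ℕ → P) (c : ℕ → ℤ)
    (β : ℤ) (lo hi : ℕ → ℕ) (e : ℕ → ℕ → P) (a : ℕ), i + 1 = 8 → CB P r (i + 1) →
    Red P (i + 1) K psi → RowB P (i + 1) t 3 x c β →
    Cp.Comp (i + 1) (t : P) lo hi e → Shape (i + 1) lo hi → LateC (i + 1) a lo hi →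
    β = 1 → c 0 = -1 → (∀ k, 1 ≤ k → k < 3 → c k = 0) → (uc (x 0)).card = 1 →
    (uc (x 3)).card = 1 → pen (x 0) ≠ ∅ → (∀ k, k ≤ 3 → x k = e (i + 1) (hi (i + 1) - k)) →
    0 ≤ Ua i t ∨ (-4 ≤ Ua i t ∧ GoodJ (i + 1) t)

/-- INPUT of step 0, level 8: three sites with a defect -/
def HTwoA : Prop :=
  ∀ (r i : ℕ) (K : Finset P) (psi : P → P) (t : Tops P) (x : ℕ → P) (c : ℕ → ℤ)
    (β : ℤ) (lo hi : Tops P → ℕ → ℕ) (e : Tops P → ℕ → ℕ → P), i + 1 = 8 → HCCu P →
    HTail P → CB P r (i + 1) → Red P (i + 1) K psi →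
    (∀ t : Tops P, Cp.Comp (i + 1) (t : P) (lo t) (hi t) (e t)) →
    (∀ t : Tops P, Shape (i + 1) (lo t) (hi t)) → RowB P (i + 1) t 2 x c β →
    ¬ (β = 0 ∧ ∀ k, k < 2 → c k = 0) → Qa i K t

/-- INPUT of step 0, level 8: two stars -/
def HSixA : Prop :=
  ∀ (r i : ℕ) (t : Tops P) (m : ℕ) (x : ℕ → P) (c : ℕ → ℤ) (β : ℤ), i + 1 = 8 →
    CB P r (i + 1) → RowB P (i + 1) t m x c β → Pat6 m c β → 20 ≤ Ua i t

/-- INPUT of step 0: THE COUNT -/
def HCount : Prop :=
  ∀ (r j : ℕ) (K : Finset P) (psi : P → P), 2 ≤ j → NJ P r j → Red P j K psi →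
    ∀ A B : Finset (Tops P), (∀ t ∈ A, Sz j K t) → (∀ t, Six j t → t ∈ B) →
      (∀ t ∈ B, Six j t) → A.card ≤ 4 * B.card

/-- THE INPUTS OF STEP 0 AT THE LEVEL 8 -/
structure LeavesA : Prop where
  nat : HNatA P
  closed : HClosedA P
  fold : HFoldA P
  open3 : HOpen3A P
  ring3 : HRing3A P
  two : HTwoA P
  six : HSixA P
  count : HCount P

end defs

variable {P : Type u} [Fintype P] [PartialOrder P] [DecidableEq P] {r i j : ℕ}

variable {m : ℕ} {x : ℕ → P} {c : ℕ → ℤ} {β : ℤ} {t : Tops P}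

variable {K : Finset P} {psi : P → P} {Y V : P → P}

lemma Qa_of (h1 : 0 ≤ Ua i t ∨ (-4 ≤ Ua i t ∧ GoodJ (i + 1) t)) : Qa i K t := by
  rcases h1 with h1 | ⟨h1, h2⟩
  · exact Or.inl h1
  · exact Or.inr ⟨h1, Or.inl h2⟩

section main

variable (hL : LeavesA P) (h : CB P r (i + 1)) (h8 : i + 1 = 8)
  (R : Red P (i + 1) K psi)

include hL h h8 R

/-- EVERY PART WITHOUT TWO STARS -/
theorem CB.qa_all (hC : HCCu P) (hT : HTail P) {lo hi : Tops P → ℕ → ℕ}
    {e : Tops P → ℕ → ℕ → P} (C : ∀ t : Tops P, Cp.Comp (i + 1) (t : P) (lo t) (hi t) (e t))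
    (hS : ∀ t : Tops P, Shape (i + 1) (lo t) (hi t)) (t : Tops P)
    (h6 : ¬ Six (i + 1) t) : Qa i K t := by
  classical
  have hn := h.nj
  have hi1 : 1 ≤ i := by omega
  have natc : ∀ (m : ℕ) (x : ℕ → P) (c : ℕ → ℤ) (β : ℤ), RowB P (i + 1) t m x c β → β = 0 →
      (∀ k, k < m → c k = 0) → Qa i K t := fun m x c β B hβ hc =>
    Or.inl (hL.nat r i t m x c β h8 h B hβ hc)
  obtain ⟨m, x, c, β, B⟩ := NJ.rowB hn (by omega) t
  rcases Nat.lt_or_ge m 3 with hm | hm
  · by_cases hnat : β = 0 ∧ ∀ k, k < m → c k = 0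
    · exact natc m x c β B hnat.1 hnat.2
    have hm2 : m = 2 := by
      rcases B.pat with ⟨p1, p2⟩ | ⟨p0, -⟩ | ⟨p0, -⟩ | ⟨p0, -⟩ | ⟨p0, -⟩ | ⟨p0, -⟩ | ⟨p0, -⟩ | ⟨p0, -⟩
      · exact absurd ⟨p1, p2⟩ hnat
      all_goals omega
    subst hm2
    exact hL.two r i K psi t x c β lo hi e h8 hC hT h R C hS B hnat
  rcases B.cases hn hm with hN | ⟨x', c', B', hB'⟩
  · obtain ⟨g1, g2⟩ := B.nat_zero hn hN
    exact natc m x c β B (g2 (by omega)) g1
  have hd : Dft m c' β := by
    rcases hB' with ⟨c0, c1, hb, h2 | h2⟩ | ⟨hb, c0, c1⟩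
    · exact Or.inl ⟨c0, c1, hb, h2⟩
    · exact absurd ⟨m, x', c', β, B', h2⟩ h6
    · exact Or.inr ⟨hb, c0, c1⟩
  rcases CB.shape2 hC h (by omega) C hS B' hm with ⟨g1, g2⟩ | ⟨a, L⟩
  · rcases hd with ⟨c0, c1, hb, h2⟩ | ⟨hb, -⟩
    · have hI : IsDL m c' β := ⟨hb, c0, c1, h2⟩
      rcases g1 c0 with g3 | ⟨S, g4, g5⟩
      · exact Qa_of (hL.closed r i K psi t m x' c' β (lo t) (hi t) (e t)
          h8 h R B' (C t) (hS t) hm hI g3)
      · subst hb
        have F : FoldDL P r i t m x' c' (lo t) (hi t) (e t) :=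
          ⟨hn, hi1, B', C t, S, g4, hm, g5, c0, c1, h2⟩
        exact Qa_of (hL.fold r i t m x' c' (lo t) (hi t) (e t) h8 F)
    · exact absurd hb g2
  · rcases late_class hT h (by omega) C hS B' hm L hd with ⟨hI, g3⟩ | ⟨hI, hm3, g1, g2, g3, g4⟩ |
      ⟨hm3, hb, c0, c1, hp, hr⟩
    · exact Qa_of (hL.closed r i K psi t m x' c' β (lo t) (hi t) (e t) h8 h R B' (C t) (hS t)
        hm hI g3)
    · subst hm3
      exact Qa_of (hL.open3 r i K psi t x' c' β (lo t) (hi t) (e t) a h8 h R B' (C t) (hS t) L hI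
          g1 g2 g3 g4)
    · subst hm3
      obtain ⟨f1, f2⟩ := B'.ends (by rw [hb]; norm_num)
      exact Qa_of (hL.ring3 r i K psi t x' c' β (lo t) (hi t) (e t) a h8 h R B' (C t) (hS t)
        L hb c0 c1 f1 f2 hp hr)

end main

/-- STEP 0 at the level 8: no component with two stars -/
theorem no6_count (hC : HCCu P) (hT : HTail P) (hL : LeavesA P) :
    ∀ r j, j = 8 → CB P r j → No6 P j := by
  classical
  intro r j h8 h t m x c β B hp
  obtain ⟨i, rfl⟩ : ∃ i, j = i + 1 := ⟨j - 1, by omega⟩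
  have hi1 : 1 ≤ i := by omega
  have hn := h.nj
  obtain ⟨lo, hi, e, C, hS⟩ := hsh (P := P) r (i + 1) hn.g
  obtain ⟨K, psi, R⟩ := exists_red P (i + 1)
  obtain ⟨Y, V, hY⟩ := exists_YW P (i + 1)
  exact NJ.no_six hn hi1 R hY (hL.count r (i + 1) K psi (by omega) hn R)
    (fun t ⟨m, x, c, β, B, hp⟩ => hL.six r i t m x c β h8 h B hp)
    (fun t h6 => CB.qa_all hL h h8 R hC hT C hS t h6) t ⟨m, x, c, β, B, hp⟩

/-- STEP 0 -/
theorem hno6_count (hC : HCCu P) (hT : HTail P) (hL : Leaves0 P) (hE : LeavesA P)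
    (h13 : ∀ r j : ℕ, j = 13 → CB P r j → No6 P j) :
    ∀ r j : ℕ, 2 ≤ j → CB P r j → No6 P j := by
  intro r j hj h
  by_cases h8 : j = 8
  · exact no6_count hC hT hE r j h8 h
  by_cases h1 : j = 13
  · exact h13 r j h1 h
  exact no6_of hC hT hL r j hj h8 h1 h

end Pool.Agent.GaussPoset.EK

end
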