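import Mathlib
import Pool.Agent.W_448zz_h61.Ns
import Pool.Agent.W_448zz_h61.M221
import Pool.Agent.W_448zz_h61.M230
import Pool.Agent.W_448zz_h61.M271

/-! From `Pool.Agent.W_448j6_h22.KbL` -/

section

/-!
MP_448cb3_co, G2, case B, window `j`: the pattern R with four sites and no pendant over its second
site: the share and the contradiction.
-/

namespace Pool.Agent.GaussPoset.EK

set_option linter.unusedSectionVars false

open Finset Win St Polynomial Wd Win.W4

universe u

variable {P : Type u} [Fintype P] [PartialOrder P] [DecidableEq P] {r i j : ℕ}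

variable {m m' : ℕ} {x x' : ℕ → P} {c c' : ℕ → ℤ} {β β' : ℤ} {t : Tops P}

variable {K : Finset P} {psi : P → P} {Y V : P → P} {w v : P}

lemma dis_pair2 {a b p q : P} : Disjoint ({a, b} : Finset P) {p, q} ↔
    (p ≠ a ∧ p ≠ b) ∧ q ≠ a ∧ q ≠ b := by
  rw [disjoint_right]
  constructor
  · intro h1
    have h2 := h1 (a := p) (by simp)
    have h3 := h1 (a := q) (by simp)
    rw [mem_insert, mem_singleton] at h2 h3
    tauto
  · rintro ⟨⟨h1, h2⟩, h3, h4⟩ s hs
    rw [mem_insert, mem_singleton] at hs ⊢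
    rcases hs with rfl | rfl
    · tauto
    · tauto

/-- the bad double of the pattern R with four sites -/
lemma NJ.bad_uniq (h : NJ P r j) (R : Red P j K psi) (B : RowB P j t 3 x c β) (hβ : β = 1)
    (c0 : c 0 = -1) (D : Rg r j K psi (cext (j + 1) (topOf : P → Tops P) t) w v x) :
    ∃ y0, y0 ⋖ x 2 ∧ y0 ⋖ x 3 ∧ (∀ y, y ⋖ x 2 → y ⋖ x 3 → y = y0) ∧
      ∀ y, BadR P j y → topOf y = t → y ∈ dbL P j → y = y0 := by
  classical
  have H := h.g.H
  have hne : ∀ k l, k ≤ 3 → l ≤ 3 → k ≠ l → x k ≠ x l := fun k l hk hl hkl => D.W.ne hk hl hkl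
  have h1 : dcv (x 2) (x 3) = 1 := by
    have := D.dn 2 3 (by omega) le_rfl
    rw [if_pos rfl, if_neg (by omega)] at this
    exact this
  unfold dcv at h1
  obtain ⟨y0, hy0⟩ := card_eq_one.1 h1
  have hm0 : y0 ⋖ x 2 ∧ y0 ⋖ x 3 := by
    have h2 : y0 ∈ univ.filter (fun z => z ⋖ x 2 ∧ z ⋖ x 3) := by
      rw [hy0]; exact mem_singleton_self _
    rw [mem_filter] at h2
    exact h2.2
  refine ⟨y0, hm0.1, hm0.2, fun y g1 g2 => ?_, fun y hb ht hy => ?_⟩
  · have h2 : y ∈ univ.filter (fun z => z ⋖ x 2 ∧ z ⋖ x 3) := by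
      rw [mem_filter]
      exact ⟨mem_univ _, g1, g2⟩
    rw [hy0, mem_singleton] at h2
    exact h2
  obtain ⟨p, q, hpq, hq, he, hc⟩ := B.dbL_pair H h.split hy ht
  have h2 := sa_badR h R hb
  rw [ht, sa_K5 h R D.Q, he, D.hw, D.hv] at h2
  have hcase : (p = 1 ∧ q = 2) ∨ (p = 2 ∧ q = 3) ∨ (p = 0 ∧ q = 3) := by
    rcases hc with ⟨g1, g2⟩ | ⟨g1, g2, g3, -⟩
    · have : p ≠ 0 := by
        rintro rfl
        rw [c0] at g2
        norm_num at g2
      omega
    · omega
  rcases hcase with ⟨rfl, rfl⟩ | ⟨rfl, rfl⟩ | ⟨rfl, rfl⟩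
  · rw [if_pos (by
      rw [dis_pair2]
      exact ⟨⟨hne 1 3 (by omega) (by omega) (by omega), hne 1 0 (by omega) (by omega) (by omega)⟩,
        hne 2 3 (by omega) (by omega) (by omega), hne 2 0 (by omega) (by omega) (by omega)⟩),
      if_neg (by rw [dis_pair2]; tauto)] at h2
    norm_num at h2
  · have h3 : y ∈ univ.filter (fun z => z ⋖ x 2 ∧ z ⋖ x 3) := by
      rw [mem_filter]
      refine ⟨mem_univ _, mem_uc.1 ?_, mem_uc.1 ?_⟩
      · rw [he]; exact mem_insert_self _ _
      · rw [he]; exact mem_insert_of_mem (mem_singleton_self _)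
    rw [hy0, mem_singleton] at h3
    exact h3
  · rw [if_neg (by rw [dis_pair2]; tauto), if_neg (by rw [dis_pair2]; tauto)] at h2
    norm_num at h2

section own

variable (h : NJ P r j) (hj : 2 ≤ j) (R : Red P j K psi) (hY : YV j Y V)

include h hj R hY

lemma NJ.PB_r3 (B : RowB P j t 3 x c β) (hp1 : pen (x 1) = ∅)
    (D : Rg r j K psi (cext (j + 1) (topOf : P → Tops P) t) w v x) : PB j K Y V t = 0 := by
  classical
  have hne : ∀ k l, k ≤ 3 → l ≤ 3 → k ≠ l → x k ≠ x l := fun k l hk hl hkl => D.W.ne hk hl hkl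
  refine NJ.PB_zero h hj R hY B fun q hq hpe => ?_
  have hq4 : q = 0 ∨ q = 1 ∨ q = 2 ∨ q = 3 := by omega
  rw [sa_K5 h R D.Q, D.hw, D.hv]
  rcases hq4 with rfl | rfl | rfl | rfl
  · rw [if_neg (by rw [dis_pair]; tauto), if_neg (by rw [dis_pair]; tauto)]
    norm_num
  · rw [hp1] at hpe
    exact absurd hpe not_nonempty_empty
  · rw [if_pos (by
      rw [dis_pair]
      exact ⟨hne 2 3 (by omega) (by omega) (by omega), hne 2 0 (by omega) (by omega) (by omega)⟩),
      if_pos (by
      rw [dis_pair]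
      exact ⟨hne 2 0 (by omega) (by omega) (by omega), hne 2 1 (by omega) (by omega) (by omega)⟩)]
    norm_num
  · rw [if_neg (by rw [dis_pair]; tauto), if_pos (by
      rw [dis_pair]
      exact ⟨hne 3 0 (by omega) (by omega) (by omega), hne 3 1 (by omega) (by omega) (by omega)⟩)]
    norm_num

/-- the pattern R with four sites: the share -/
theorem NJ.own_r3 (B : RowB P j t 3 x c β) (hβ : β = 1) (c0 : c 0 = -1) (c1 : c 1 = 0)
    (c2 : c 2 = 0) (hx : x 4 = x 0) (hp1 : pen (x 1) = ∅)
    (hU : ∀ z ∈ UE j (cext (j + 1) (topOf : P → Tops P) t) x 2,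
      ch j (cext (j + 1) (topOf : P → Tops P) t) z ≤ 0) :
    PA j K Y V t + PB j K Y V t ≤ TT j t := by
  classical
  obtain ⟨w, v, D⟩ := NJ.rg h hj R B hβ c0 c1 c2 hx
  obtain ⟨y0, -, -, -, h0⟩ := NJ.bad_uniq h R B hβ c0 D
  have a1 := (NJ.PA_le h hj R hY h0).1
  have a2 := NJ.PB_r3 h hj R hY B hp1 D
  have a3 := (D.T_ge hp1 hU).1
  have hs : Small j (topOf : P → Tops P) t := by
    rcases B.small h.g.H h.split with h2 | h2
    · exact h2
    · have := h2.1
      omega
  rw [a2, NJ.TT_small h hj R hs]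
  linarith

/-- the pattern R with four sites cannot pay exactly its share if all the joins are bad -/
theorem NJ.r3_false (B : RowB P j t 3 x c β) (hβ : β = 1) (c0 : c 0 = -1) (c1 : c 1 = 0)
    (c2 : c 2 = 0) (hx : x 4 = x 0) (hp1 : pen (x 1) = ∅)
    (hU : ∀ z ∈ UE j (cext (j + 1) (topOf : P → Tops P) t) x 2,
      ch j (cext (j + 1) (topOf : P → Tops P) t) z ≤ 0)
    (hE : TT j t = PA j K Y V t + PB j K Y V t)
    (hall : ∀ z ∈ K2.Z2 j (topOf : P → Tops P), BadR P j (Y z)) : False := by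
  classical
  have H := h.g.H
  obtain ⟨w, v, D⟩ := NJ.rg h hj R B hβ c0 c1 c2 hx
  have W := D.W
  have hne : ∀ k l, k ≤ 3 → l ≤ 3 → k ≠ l → x k ≠ x l := fun k l hk hl hkl => D.W.ne hk hl hkl
  obtain ⟨y0, y2, y3, hu0, h0⟩ := NJ.bad_uniq h R B hβ c0 D
  obtain ⟨a1, a1'⟩ := NJ.PA_le h hj R hY h0
  have a2 := NJ.PB_r3 h hj R hY B hp1 D
  obtain ⟨a3, a4⟩ := D.T_ge hp1 hU
  have hs : Small j (topOf : P → Tops P) t := by
    rcases B.small H h.split with h2 | h2
    · exact h2
    · have := h2.1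
      omega
  rw [a2, NJ.TT_small h hj R hs, add_zero] at hE
  have b1 : PA j K Y V t = 2 := by linarith
  have b2 := a1' b1
  have b3 : ¬ (DE j (cext (j + 1) (topOf : P → Tops P) t) x 3 ≠ ∅ ∨ pen (x 0) ≠ ∅) := by
    intro h1
    have := a4 h1
    linarith
  push Not at b3
  obtain ⟨b3, b4⟩ := b3
  -- a child of `w`
  have lw := D.Q.lw0
  have wt : topOf w = t := mem_cext.1 D.Q.wC w le_rfl (by omega)
  have w2 : (uc w).card = 2 := by
    rw [D.hw, card_pair (hne 3 0 (by omega) (by omega) (by omega))]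
  have hr2 : j + 2 ≤ r := by
    have hpos : (0 : ℤ) < PA j K Y V t := by rw [b1]; norm_num
    unfold PA at hpos
    have h1 : 0 < ((PZ j K Y V).filter (fun z => topOf (Y z) = t)).card := by exact_mod_cast hpos
    obtain ⟨z, hz⟩ := card_pos.1 h1
    have h2 := (hY z (mem_PZ.1 (mem_filter.1 hz).1).1).lz
    have h3 := H.lev_le z
    omega
  obtain ⟨z, hz⟩ := dc_nonempty H (x := w) (by omega)
  have hzw : z ⋖ w := mem_dc.1 hz
  have lz := lev_cov H hzw
  have hwz : w ∈ uc z := mem_uc.2 hzw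
  -- `w` is the only cover
  by_cases h1 : (uc z).card = 1
  · obtain ⟨w', hw'⟩ := card_eq_one.1 h1
    have h2 : w' = w := by
      rw [hw', mem_singleton] at hwz
      exact hwz.symm
    subst h2
    have h3 : z ∈ DE j (cext (j + 1) (topOf : P → Tops P) t) x 3 := by
      rw [mem_DE]
      refine ⟨?_, ?_, ?_⟩
      · exact W.cl z w' D.Q.wC hw'
      · rw [Win.mem_PD]
        exact ⟨by omega, h1, w', hzw, w2⟩
      · rw [Win.SO.sit_PD H (by omega) hw', D.hw]
        unfold ed
        rw [show 3 + 1 = 4 by rfl, hx]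
    rw [b3] at h3
    exact notMem_empty _ h3
  · -- two covers
    have h2 : (uc z).card = 2 := by
      have e1 := uc_card_le H z
      have e2 : 0 < (uc z).card := card_pos.2 ⟨w, hwz⟩
      omega
    obtain ⟨y', hy', hne'⟩ : ∃ y' ∈ uc z, y' ≠ w := by
      obtain ⟨a, b, hab, he⟩ := card_eq_two.1 h2
      rcases eq_or_ne a w with h3 | h3
      · exact ⟨b, by rw [he]; simp, fun h4 => hab (h3.trans h4.symm)⟩
      · exact ⟨a, by rw [he]; simp, h3⟩
    have huz : uc z = {w, y'} := by
      symm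
      apply eq_of_subset_of_card_le
      · intro s hs
        rw [mem_insert, mem_singleton] at hs
        rcases hs with rfl | rfl
        · exact hwz
        · exact hy'
      · rw [card_pair hne'.symm, h2]
    have ly' : lev y' = j + 1 := by
      have := lev_uc H hy'
      omega
    have hu1 : (uc y').card = 1 ∨ (uc y').card = 2 := by
      have e1 := uc_card_le H y'
      have e2 : (uc y').card ≠ 0 := by
        intro e2
        have hvt' : y' < (topOf y' : P) := lt_of_le_of_ne (le_topOf y') (by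
          intro h2
          have := (topOf y').2
          rw [← h2] at this
          omega)
        obtain ⟨s, hs, -⟩ := Hul.exists_cov hvt'
        have h3 : s ∈ uc y' := mem_uc.2 hs
        rw [card_eq_zero.1 e2] at h3
        exact absurd h3 (notMem_empty s)
      omega
    have hlw : lev w ≤ j + 1 := by omega
    rcases hu1 with hu1 | hu1
    · by_cases ht : topOf y' = t
      · -- a single element of the part
        obtain ⟨s, hs⟩ := card_eq_one.1 hu1
        have hsy : s ∈ uc y' := by rw [hs]; exact mem_singleton_self _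
        have ls := lev_uc H hsy
        have hts : topOf y' = topOf s := h.split (mem_uc.1 hsy) (by omega)
        obtain ⟨q, hq, rfl⟩ := B.row.surj s (by omega) (hts.symm.trans ht)
        have hyp : y' ∈ pen (x q) := by
          rw [Win.mem_pen]
          exact ⟨mem_uc.1 hsy, hu1⟩
        have hq4 : q = 0 ∨ q = 1 ∨ q = 2 ∨ q = 3 := by omega
        rcases hq4 with rfl | rfl | rfl | rfl
        · rw [b4] at hyp
          exact notMem_empty _ hyp
        · rw [hp1] at hyp
          exact notMem_empty _ hyp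
        · have e1 := W.deg (k := 2) (by omega)
          rw [D.dsum (by omega), D.deg2] at e1
          norm_num at e1
          rw [e1] at hyp
          exact notMem_empty _ hyp
        · have e1 := W.deg (k := 3) (by omega)
          rw [D.dsum (by omega), D.deg3] at e1
          norm_num at e1
          rw [e1] at hyp
          exact notMem_empty _ hyp
      · -- a join with another part
        have hS : K2.SD j (topOf : P → Tops P) z w y' :=
          ⟨by omega, huz, by rw [wt]; exact fun h => ht h.symm, w2, hu1⟩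
        have hz2 : z ∈ K2.Z2 j (topOf : P → Tops P) := by
          rw [K2.mem_Z2]
          refine ⟨fun h3 => ?_, w, y', hS⟩
          unfold cuni at h3
          rw [mem_biUnion] at h3
          obtain ⟨b, -, hb⟩ := h3
          have e1 := mem_cext.1 hb w hzw.le (by omega)
          have e2 := mem_cext.1 hb y' (mem_uc.1 hy').le (by omega)
          exact ht (by rw [e2, ← e1, wt])
        have hb := hall z hz2
        have hS' := hY z hz2
        have hYw : Y z = w := by
          have e1 := hS'.my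
          rw [huz, mem_insert, mem_singleton] at e1
          rcases e1 with e1 | e1
          · exact e1
          · have := hS'.cy
            rw [e1] at this
            omega
        rw [hYw] at hb
        have e3 := h0 w hb wt (mem_dbL.2 ⟨lw, w2⟩)
        have e4 : x 2 ∈ uc w := by rw [e3]; exact mem_uc.2 y2
        rw [D.in_w (by omega)] at e4
        omega
    · -- two doubles
      obtain ⟨s, hs, hs'⟩ := NJ.noQ h hj z (by omega) w hwz y' hy' hne'.symm w2 hu1
      have e1 := h.split (mem_uc.1 hs) (by omega)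
      have e2 := h.split (mem_uc.1 hs') (by omega)
      have ht : topOf y' = t := by rw [e2, ← e1, wt]
      obtain ⟨p, q, hpq, hq, he, hc⟩ := B.dbL_pair H h.split (mem_dbL.2 ⟨ly', hu1⟩) ht
      have hcase : (p = 1 ∧ q = 2) ∨ (p = 2 ∧ q = 3) ∨ (p = 0 ∧ q = 3) := by
        rcases hc with ⟨g1, g2⟩ | ⟨g1, g2, g3, -⟩
        · have : p ≠ 0 := by
            rintro rfl
            rw [c0] at g2
            norm_num at g2
          omega
        · omega
      rcases hcase with ⟨rfl, rfl⟩ | ⟨rfl, rfl⟩ | ⟨rfl, rfl⟩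
      · rw [he, mem_insert, mem_singleton] at hs'
        rcases hs' with rfl | rfl
        · have := (D.in_w (by omega)).1 hs
          omega
        · have := (D.in_w (by omega)).1 hs
          omega
      · have g1 : y' ⋖ x 2 := mem_uc.1 (by rw [he]; simp)
        have g2 : y' ⋖ x 3 := mem_uc.1 (by rw [he]; simp)
        have g3 := hu0 y' g1 g2
        have hz2 := b2 z (by rw [← g3]; exact mem_uc.1 hy')
        have hS' := hY z hz2
        have e3 := hS'.mv
        have e4 := hS'.cv
        rw [huz, mem_insert, mem_singleton] at e3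
        rcases e3 with e3 | e3
        · rw [e3] at e4
          omega
        · rw [e3] at e4
          omega
      · have g0 := D.dn 0 3 (by omega) le_rfl
        norm_num at g0
        unfold dcv at g0
        have g1 : w ∈ univ.filter (fun z => z ⋖ x 0 ∧ z ⋖ x 3) := by
          rw [mem_filter]
          exact ⟨mem_univ _, mem_uc.1 ((D.in_w (by omega)).2 (Or.inr rfl)),
            mem_uc.1 ((D.in_w (by omega)).2 (Or.inl rfl))⟩
        have g2 : y' ∈ univ.filter (fun z => z ⋖ x 0 ∧ z ⋖ x 3) := by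
          rw [mem_filter]
          exact ⟨mem_univ _, mem_uc.1 (by rw [he]; simp), mem_uc.1 (by rw [he]; simp)⟩
        exact hne' (card_le_one.1 g0.le y' g2 w g1)

end own

end Pool.Agent.GaussPoset.EK

end

/-! From `Pool.Agent.W_448j6_h22.KbM` -/

section

/-!
MP_448cb3_co, G2, case B, window `j`: the upper pendants of a row in coordinates; the rows of the
rectangles and the stairs of the level 6.
-/

namespace Pool.Agent.GaussPoset.EK

set_option linter.unusedSectionVars false

open Finset Win St Polynomial Wd Win.W4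

universe u

variable {P : Type u} [Fintype P] [PartialOrder P] [DecidableEq P] {r i j n : ℕ}

variable {m m' : ℕ} {x x' : ℕ → P} {c c' : ℕ → ℤ} {β β' : ℤ} {t : Tops P}

variable {K : Finset P} {psi : P → P} {Y V : P → P} {w v : P}

variable {lo hi : ℕ → ℕ} {e : ℕ → ℕ → P}

/-- an upper pendant over an edge, in coordinates -/
theorem UE_coord (h : NJ P r (n + 2)) (B : RowB P (n + 2) t m x c β) (hm : 2 ≤ m)
    (C : Cp.Comp (n + 2) (t : P) lo hi e) {k : ℕ} (hk : k < m) {z : P}
    (hz : z ∈ UE (n + 2) (cext (n + 2 + 1) (topOf : P → Tops P) t) x k) :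
    ∃ a b, z = e n b ∧ lo n ≤ b ∧ b ≤ hi n ∧ lo (n + 2) ≤ a ∧ a + 1 ≤ hi (n + 2) ∧
      ((lo (n + 1) = lo n + 1 ∧ a = lo (n + 1) ∧ b = lo n) ∨
        (hi (n + 1) = hi n ∧ a = hi (n + 1) ∧ b = hi n)) ∧
      ((x k = e (n + 2) a ∧ x (k + 1) = e (n + 2) (a + 1)) ∨
        (x k = e (n + 2) (a + 1) ∧ x (k + 1) = e (n + 2) a)) := by
  classical
  have H := h.g.H
  have W := NJ.prow h (by omega) B hm
  have s1 := C.lo_step n (by omega)
  have s3 := C.hi_step n (by omega)
  have s5 := C.lo_le n (by omega)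
  have s6 := C.lo_le (n + 1) (by omega)
  have cov' : ∀ s a, lo (n + 2) ≤ s → s ≤ hi (n + 2) → lo (n + 1) ≤ a → a ≤ hi (n + 1) →
      (e (n + 2) s ⋖ e (n + 1) a ↔ a = s ∨ a + 1 = s) := fun s a => C.cov (n + 1) s a (by omega)
  obtain ⟨hzC, hzP, hzs⟩ := mem_UE.1 hz
  obtain ⟨-, u, -, -, -, -, -, hu⟩ := PN_dat H (C := cext (n + 2 + 1) (topOf : P → Tops P) t)
    (SO.mem_PN.2 ⟨hzC, Or.inr hzP⟩)
  rcases hu with ⟨g1, -⟩ | ⟨-, hlz, hlu, hdz, hsu, -⟩
  · have := lev_PU hzP
    have := lev_PD g1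
    omega
  have hux2 : x k ⋖ u := by
    rw [← mem_dc, ← hsu, hzs]
    exact (W.mem_ed (by omega) (by omega)).2 (Or.inl rfl)
  have hux3 : x (k + 1) ⋖ u := by
    rw [← mem_dc, ← hsu, hzs]
    exact (W.mem_ed (by omega) (by omega)).2 (Or.inr rfl)
  have huz : u ⋖ z := by rw [← mem_dc, hdz]; exact mem_singleton_self u
  have hxt : ∀ l, l ≤ m → x l ≤ (t : P) := by
    intro l hl
    rw [← B.row.kap l hl]
    exact le_topOf (x l)
  have hut : u ≤ (t : P) := Cp.up_le H h.g.good t.2 (hxt k (by omega))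
    (by have := B.row.lev_x k (by omega); omega) hux2.le
  have hzt : z ≤ (t : P) := Cp.up_le H h.g.good t.2 hut (by omega) huz.le
  obtain ⟨a, a1, a2, a3⟩ := C.surj u hut (by omega)
  obtain ⟨b, b1, b2, b3⟩ := C.surj z hzt (by omega)
  obtain ⟨s, q1, q2, q3⟩ := C.surj (x k) (hxt k (by omega))
    (by have := B.row.lev_x k (by omega); omega)
  obtain ⟨s', q1', q2', q3'⟩ := C.surj (x (k + 1)) (hxt (k + 1) (by omega))
    (by have := B.row.lev_x (k + 1) (by omega); omega)
  rw [B.row.lev_x k (by omega)] at q1 q2 q3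
  rw [B.row.lev_x (k + 1) (by omega)] at q1' q2' q3'
  have lu : lev u = n + 1 := by omega
  have lz : lev z = n := by omega
  rw [lu] at a1 a2 a3
  rw [lz] at b1 b2 b3
  subst a3
  subst b3
  have hss : s ≠ s' := by
    rintro rfl
    have := W.ne (a := k) (b := k + 1) (by omega) (by omega) (by omega)
    exact this (q3.symm.trans q3')
  have hzd := (C.single_down H (k := n) (by omega) b1 b2).1 (lev_PU hzP).2
  have hcz := (C.cov n a b (by omega) a1 a2 b1 b2).1 huz
  rw [← q3] at hux2
  rw [← q3'] at hux3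
  have c2 := (cov' s a q1 q2 a1 a2).1 hux2
  have c3 := (cov' s' a q1' q2' a1 a2).1 hux3
  refine ⟨a, b, rfl, b1, b2, by omega, by omega, by omega, ?_⟩
  have hs2 : (s = a ∧ s' = a + 1) ∨ (s = a + 1 ∧ s' = a) := by omega
  rcases hs2 with ⟨g1, g2⟩ | ⟨g1, g2⟩
  · left
    rw [← q3, ← q3', g1, g2]
    exact ⟨rfl, rfl⟩
  · right
    rw [← q3, ← q3', g1, g2]
    exact ⟨rfl, rfl⟩

/-- no upper pendants over the edges of a rectangle -/
theorem rect_UE (h : NJ P r (n + 2)) (B : RowB P (n + 2) t m x c β) (hm : 2 ≤ m)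
    (C : Cp.Comp (n + 2) (t : P) lo hi e) (S : RectShape (n + 2) lo hi) {k : ℕ} (hk : k < m) :
    UE (n + 2) (cext (n + 2 + 1) (topOf : P → Tops P) t) x k = ∅ := by
  rw [eq_empty_iff_forall_notMem]
  intro z hz
  obtain ⟨a, b, -, b1, b2, a1, a2, h1, -⟩ := UE_coord h B hm C hk hz
  have s1 := C.lo_step n (by omega)
  have s2 : lo (n + 1 + 1) = lo (n + 1) ∨ lo (n + 1 + 1) = lo (n + 1) + 1 := C.lo_step (n + 1) (by omega)
  have s3 := C.hi_step n (by omega)
  have s4 : hi (n + 1 + 1) = hi (n + 1) ∨ hi (n + 1 + 1) = hi (n + 1) + 1 := C.hi_step (n + 1) (by omega)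
  have e1 : lo (n + 1 + 1) = 0 ∨ lo (n + 1 + 1) = lo (n + 1) + 1 := S.lo (n + 1) (by omega)
  have e2 : hi (n + 1 + 1) = n + 1 + 1 ∨ hi (n + 1 + 1) = hi (n + 1) := S.hi (n + 1) (by omega)
  have e3 := C.hi_le (k := n) (by omega)
  rw [show n + 1 + 1 = n + 2 by omega] at s2 s4 e1 e2
  omega

/-- no pendants below the doubles of a rectangle -/
lemma rect_pen2 (h : NJ P r (n + 1)) (hn : 1 ≤ n) (C : Cp.Comp (n + 1) (t : P) lo hi e)
    (S : RectShape (n + 1) lo hi) {y : P} (hy : lev y = n + 1) (hyt : y ≤ (t : P))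
    (h2 : (uc y).card = 2) : pen y = ∅ := by
  rw [eq_empty_iff_forall_notMem]
  intro z hz
  obtain ⟨hz1, hz2⟩ := Win.mem_pen.1 hz
  refine rectShape_no_pendant h.g hn t.2 C S hy hyt h2 hz1 fun s hs => ?_
  obtain ⟨s', hs'⟩ := card_eq_one.1 hz2
  have e1 : s ∈ uc z := mem_uc.2 hs
  have e2 : y ∈ uc z := mem_uc.2 hz1
  rw [hs', mem_singleton] at e1 e2
  rw [e1, e2]

end Pool.Agent.GaussPoset.EK

end

/-! From `Pool.Agent.W_448j6_h22.KbO` -/

section

/-!
MP_448cb3_co, G2, case B, `j = 6`: the rows with at least four sites, `w32` free.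
-/

namespace Pool.Agent.GaussPoset.EK

set_option linter.unusedSectionVars false

open Finset Win St Polynomial Wd Win.W4

universe u

variable {P : Type u} [Fintype P] [PartialOrder P] [DecidableEq P] {r i j n : ℕ}

variable {m m' : ℕ} {x x' : ℕ → P} {c c' : ℕ → ℤ} {β β' : ℤ} {t : Tops P}

variable {K : Finset P} {psi : P → P} {Y V : P → P} {w v : P}

section all

variable {lo hi : Tops P → ℕ → ℕ} {e : Tops P → ℕ → ℕ → P}

/-- the new pair of a rotated row -/
lemma RowB.new (h : NJ P r j) (B : RowB P j t m x c β) (hm : 2 ≤ m) (hβ : β = 1) :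
    ∃ y, lev y = j + 1 ∧ y ≤ (t : P) ∧ y ⋖ x 0 ∧ y ⋖ x m := by
  classical
  have h1 := B.dcv_x h.g.H (k := 0) (l := m) (by omega) le_rfl
  rw [if_neg (by omega), if_pos ⟨rfl, rfl⟩, hβ] at h1
  have h2 : 0 < dcv (x 0) (x m) := by omega
  unfold dcv at h2
  obtain ⟨y, hy⟩ := card_pos.1 h2
  rw [mem_filter] at hy
  have hl := lev_cov h.g.H hy.2.1
  have hx := B.row.lev_x 0 (by omega)
  refine ⟨y, by omega, ?_, hy.2.1, hy.2.2⟩
  have hxt : x 0 ≤ (t : P) := by
    rw [← B.row.kap 0 (by omega)]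
    exact le_topOf (x 0)
  exact hy.2.1.le.trans hxt

/-- THE ROTATED ROWS OF THE LEVEL 6 -/
theorem r6 (h : NJ P r 6) (C : ∀ t : Tops P, Cp.Comp 6 (t : P) (lo t) (hi t) (e t))
    (hS : ∀ t : Tops P, Shape 6 (lo t) (hi t)) (B : RowB P 6 t m x c β) (hm : 3 ≤ m)
    (hβ : β = 1) :
    m = 3 ∧ pen (x 1) = ∅ ∧ ∀ z ∈ UE 6 (cext (6 + 1) (topOf : P → Tops P) t) x 2,
      ch 6 (cext (6 + 1) (topOf : P → Tops P) t) z ≤ 0 := by
  classical
  have H := h.g.H
  have Ct := C t
  have W := NJ.prow h (by omega) B (by omega)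
  obtain ⟨y, hy1, hy2, hy3, hy4⟩ := B.new h (by omega) hβ
  obtain ⟨hlen, hor⟩ := B.orient h (by omega) (C t)
  have hne : x 0 ≠ x m := fun q => by
    have := B.row.inj 0 m (by omega) le_rfl q
    omega
  rcases hS t with g1 | ⟨g1, S'⟩ | ⟨g1, S⟩ | ⟨g1, g2, g3⟩ | ⟨g1, g2⟩ | ⟨a, g0, g1, g2, g3, hN, g4⟩
  · exfalso
    have := g1 6 le_rfl
    omega
  · exfalso
    have h3 := rect_no_rotation h.g (by omega) h.no C (NJ_level_one h (by omega) C hS) (t := t)
      (z := y) (x := x 0) (x' := x m) (by omega) hy1 hy2 hy3 hy4 hne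
    rw [B.ucv_x 0 m (by omega) le_rfl, if_neg (by omega)] at h3
    omega
  · have e3 := S.hi 3 (by omega)
    have e4 := S.hi 4 (by omega)
    have e5 := S.hi 5 (by omega)
    have e6 := S.hi 6 (by omega)
    norm_num at e3 e4 e5 e6
    have hm3 : m = 3 := by omega
    subst hm3
    have l6 : lo t 6 = 0 := by omega
    have s1 := Ct.lo_step 5 (by omega)
    have s2 := Ct.lo_step 4 (by omega)
    have s3 := Ct.lo_step 3 (by omega)
    norm_num at s1 s2 s3
    have l5 : lo t 5 = 0 := by omega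
    have l4 : lo t 4 = 0 := by omega
    have l3 : lo t 3 = 0 := by omega
    rcases hor with hor | hor
    · refine ⟨rfl, ?_, ?_⟩
      · rw [hor 1 (by omega), l6]
        exact stair_pen6 h Ct S l3 (by omega) (by omega) (by omega)
      · intro z hz
        obtain ⟨hzC, hzP, -⟩ := mem_UE.1 hz
        obtain ⟨a, b, hb, b1, b2, a1, a2, h1, -⟩ := UE_coord (n := 4) h B (by omega) Ct
          (k := 2) (by omega) hz
        norm_num at a1 a2 h1
        have hb2 : b = 2 := by omega
        subst hb2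
        have h2 := W.ch_PU hzP hzC
        have h3 : (uc z).filter (fun g => (dc g).card = 1) = ∅ := by
          rw [filter_eq_empty_iff]
          intro g hg hg1
          have lz : lev z = 4 := by rw [hb]; exact Ct.lev_e 4 2 (by omega) (by omega) (by omega)
          have zt : z ≤ (t : P) := by rw [hb]; exact Ct.le_t 4 2 (by omega) (by omega) (by omega)
          have lg := lev_uc H hg
          have hgt : g ≤ (t : P) := Cp.up_le H h.g.good t.2 zt (by omega) (mem_uc.1 hg).le
          obtain ⟨q, q1, q2, q3⟩ := Ct.surj g hgt (by omega)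
          have lg' : lev g = 3 := by omega
          rw [lg'] at q1 q2 q3
          subst q3
          subst hb
          have c1 := (Ct.cov 3 2 q (by omega) (by omega) (by omega) q1 q2).1 (mem_uc.1 hg)
          have c2 := (Ct.single_down H (k := 3) (by omega) q1 q2).1 hg1
          norm_num at c2
          omega
        rw [h3, card_empty] at h2
        norm_num at h2
        exact h2
    · refine ⟨rfl, ?_, ?_⟩
      · rw [hor 1 (by omega), e6]
        exact stair_pen6 h Ct S l3 (by omega) (by omega) (by omega)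
      · intro z hz
        exfalso
        obtain ⟨a, b, hb, b1, b2, a1, a2, h1, h5⟩ := UE_coord (n := 4) h B (by omega) Ct
          (k := 2) (by omega) hz
        norm_num at a1 a2 h1 h5
        have ha2 : a = 2 := by omega
        subst ha2
        rw [hor 2 (by omega), hor 3 (by omega), e6] at h5
        rcases h5 with ⟨h5, -⟩ | ⟨h5, -⟩
        · have := Ct.inj 6 _ _ le_rfl (by omega) (by omega) (by omega) (by omega) h5
          omega
        · have := Ct.inj 6 _ _ le_rfl (by omega) (by omega) (by omega) (by omega) h5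
          omega
  · omega
  · exact absurd g2 (NJ_no_six h C hS t)
  · exfalso
    rcases late6_vals h C hS t g0 g1 g2 g3 g4 (by omega) with q | ⟨-, -, -, -, l6, e6, -, q, -⟩
    · exact q y hy2 hy1
    · have hm3 : m = 3 := by omega
      subst hm3
      rcases hor with hor | hor
      · rw [hor 0 (by omega), l6] at hy3
        rw [hor 3 (by omega), l6] at hy4
        exact q y hy3 hy4
      · rw [hor 0 (by omega), e6] at hy3
        rw [hor 3 (by omega), e6] at hy4
        exact q y hy4 hy3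

/-- THE ROWS WITH A DOUBLE EDGE OF THE LEVEL 6 -/
theorem dl6 (h : NJ P r 6) (C : ∀ t : Tops P, Cp.Comp 6 (t : P) (lo t) (hi t) (e t))
    (hS : ∀ t : Tops P, Shape 6 (lo t) (hi t)) (R : Red P 6 K psi) (B : RowB P 6 t m x c β)
    (hm : 3 ≤ m) (hβ : β = 0) (c0 : c 0 = 1) (c1 : c 1 = -1)
    (c2 : ∀ k, 2 ≤ k → k < m → c k = 0) :
    2 * ((pen (x 2)).card : ℤ) ≤ W4.Tv 6 (cext (6 + 1) (topOf : P → Tops P) t) := by
  classical
  have H := h.g.H
  have Ct := C t
  have W := NJ.prow h (by omega) B (by omega)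
  obtain ⟨w, v, D⟩ := NJ.dlg h (by omega) R B hm hβ c0 c1 c2
  obtain ⟨hlen, hor⟩ := B.orient h (by omega) (C t)
  have hne : x 0 ≠ x 1 := fun q => by
    have := B.row.inj 0 1 (by omega) (by omega) q
    omega
  have hdd := B.dd h (by omega) c0
  have hxt : ∀ l, l ≤ m → x l ≤ (t : P) := by
    intro l hl
    rw [← B.row.kap l hl]
    exact le_topOf (x l)
  rcases hS t with g1 | ⟨g1, S'⟩ | ⟨g1, S⟩ | ⟨g1, g2, g3⟩ | ⟨g1, g2⟩ | ⟨a, g0, g1, g2, g3, hN, g4⟩
  · exfalso
    have := g1 6 le_rfl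
    omega
  · -- rectangle
    have hcl : (uc (x 0)).card = 2 := by
      rcases W.uc_le (k := 0) (by omega) with h1 | h1
      · exfalso
        have h3 := NJ_rect_S_end h (by omega) C hS (t := t) (x := x 0) (x' := x 1) (by omega)
          (B.row.lev_x 0 (by omega)) (hxt 0 (by omega)) h1 hne
        rw [hdd] at h3
        omega
      · exact h1
    have hUE : ∀ k, k < m → UE 6 (cext (6 + 1) (topOf : P → Tops P) t) x k = ∅ := fun k hk =>
      rect_UE (n := 4) h B (by omega) Ct S' hk
    have hp2 : pen (x 2) = ∅ := rect_pen2 (n := 5) h (by omega) Ct S' (B.row.lev_x 2 (by omega))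
      (hxt 2 (by omega)) (W.uc_inner (by omega) (by omega))
    rcases Nat.lt_or_ge m 4 with hm4 | hm4
    · obtain rfl : m = 3 := by omega
      refine D.T_ge3 rfl ?_ (Or.inl ⟨hUE 2 (by omega), hp2⟩)
      rcases W.uc_le (k := 3) le_rfl with h1 | h1
      · have := NJ.pen_last h (by omega) B (c2 2 le_rfl (by omega))
        omega
      · rw [rect_pen2 (n := 5) h (by omega) Ct S' (B.row.lev_x 3 le_rfl) (hxt 3 le_rfl) h1,
          card_empty]
        omega
    · rw [hp2, card_empty]
      have := D.T_ge4 hm4 hcl (by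
        unfold NE
        rw [hUE (m - 1) (by omega), card_empty]
        push_cast
        omega)
      push_cast
      linarith
  · -- stair
    have e3 := S.hi 3 (by omega)
    have e4 := S.hi 4 (by omega)
    have e5 := S.hi 5 (by omega)
    have e6 := S.hi 6 (by omega)
    norm_num at e3 e4 e5 e6
    have hm3 : m = 3 := by omega
    subst hm3
    have l6 : lo t 6 = 0 := by omega
    have s1 := Ct.lo_step 5 (by omega)
    have s2 := Ct.lo_step 4 (by omega)
    have s3 := Ct.lo_step 3 (by omega)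
    norm_num at s1 s2 s3
    have l5 : lo t 5 = 0 := by omega
    have l4 : lo t 4 = 0 := by omega
    have l3 : lo t 3 = 0 := by omega
    have hcl : ∀ s, s ≤ 3 → s = 0 ∨ s = 3 → (uc (e t 6 s)).card = 1 := by
      intro s hs hs'
      have h1 := Ct.double_up H h.g.good t.2 (k := 5) (s := s) (by omega)
        (by norm_num; omega) (by norm_num; omega)
      norm_num at h1
      rcases uc_card_cases H (x := e t 6 s) (by
        rw [Ct.lev_e 6 s le_rfl (by omega) (by omega)]; omega) with h2 | h2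
      · exact h2
      · exfalso
        have := h1.1 h2
        omega
    rcases hor with hor | hor
    · have h3 : (uc (x 3)).card = 1 := by
        rw [hor 3 le_rfl, l6]
        exact hcl 3 le_rfl (Or.inr rfl)
      have p3 : pen (x 3) = ∅ := by
        rw [hor 3 le_rfl, l6]
        exact stair_pen6 h Ct S l3 (by omega) (by omega) (by omega)
      have p2 : pen (x 2) = ∅ := by
        rw [hor 2 (by omega), l6]
        exact stair_pen6 h Ct S l3 (by omega) (by omega) (by omega)
      exact D.T_ge3 rfl (by rw [h3, p3, card_empty]; omega)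
        (Or.inr ⟨by rw [h3, p3, card_empty], Or.inr p2⟩)
    · have h3 : (uc (x 3)).card = 1 := by
        rw [hor 3 le_rfl, e6]
        exact hcl 0 (by omega) (Or.inl rfl)
      have p3 := NJ.pen_last h (by omega) B (c2 2 le_rfl (by omega))
      have p2 : pen (x 2) = ∅ := by
        rw [hor 2 (by omega), e6]
        exact stair_pen6 h Ct S l3 (by omega) (by omega) (by omega)
      have hUE : UE 6 (cext (6 + 1) (topOf : P → Tops P) t) x 2 = ∅ := by
        rw [eq_empty_iff_forall_notMem]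
        intro z hz
        obtain ⟨a, b, hb, b1, b2, a1, a2, h1, h5⟩ := UE_coord (n := 4) h B (by omega) Ct
          (k := 2) (by omega) hz
        norm_num at a1 a2 h1 h5
        have ha2 : a = 2 := by omega
        subst ha2
        rw [hor 2 (by omega), hor 3 (by omega), e6] at h5
        rcases h5 with ⟨h5, -⟩ | ⟨h5, -⟩
        · have := Ct.inj 6 _ _ le_rfl (by omega) (by omega) (by omega) (by omega) h5
          omega
        · have := Ct.inj 6 _ _ le_rfl (by omega) (by omega) (by omega) (by omega) h5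
          omega
      exact D.T_ge3 rfl (by omega) (Or.inl ⟨hUE, p2⟩)
  · omega
  · exact absurd g2 (NJ_no_six h C hS t)
  · -- late
    rcases late6_vals h C hS t g0 g1 g2 g3 g4 (by omega) with
      q | ⟨l4, e4, l5, e5, l6, e6, q1, -, q2⟩
    · exfalso
      have wt : topOf w = t := mem_cext.1 D.Q.wC w le_rfl (by have := D.Q.lw0; omega)
      have := le_topOf w
      rw [wt] at this
      exact q w this D.Q.lw0
    · have hm3 : m = 3 := by omega
      subst hm3
      have hp : ∀ y : P, (∀ z : P, ¬ Pend z y) → pen y = ∅ := by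
        intro y hy
        rw [eq_empty_iff_forall_notMem]
        exact fun z hz => hy z (pend_of hz)
      have hcl : ∀ s, s ≤ 3 → s = 0 ∨ s = 3 → (uc (e t 6 s)).card = 1 := by
        intro s hs hs'
        have h1 := Ct.double_up H h.g.good t.2 (k := 5) (s := s) (by omega)
          (by norm_num; omega) (by norm_num; omega)
        norm_num at h1
        rcases uc_card_cases H (x := e t 6 s) (by
          rw [Ct.lev_e 6 s le_rfl (by omega) (by omega)]; omega) with h2 | h2
        · exact h2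
        · exfalso
          have := h1.1 h2
          omega
      have hUE : UE 6 (cext (6 + 1) (topOf : P → Tops P) t) x 2 = ∅ := by
        rw [eq_empty_iff_forall_notMem]
        intro z hz
        obtain ⟨a, b, hb, b1, b2, a1, a2, h1, h5⟩ := UE_coord (n := 4) h B (by omega) Ct
          (k := 2) (by omega) hz
        norm_num at a1 a2 h1
        omega
      rcases hor with hor | hor
      · have h3 : (uc (x 3)).card = 1 := by
          rw [hor 3 le_rfl, l6]
          exact hcl 3 le_rfl (Or.inr rfl)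
        have p3 : pen (x 3) = ∅ := by
          rw [hor 3 le_rfl, l6]
          exact hp _ q1
        exact D.T_ge3 rfl (by rw [h3, p3, card_empty]; omega)
          (Or.inr ⟨by rw [h3, p3, card_empty], Or.inl hUE⟩)
      · have h3 : (uc (x 3)).card = 1 := by
          rw [hor 3 le_rfl, e6]
          exact hcl 0 (by omega) (Or.inl rfl)
        have p3 := NJ.pen_last h (by omega) B (c2 2 le_rfl (by omega))
        have p2 : pen (x 2) = ∅ := by
          rw [hor 2 (by omega), e6]
          exact hp _ q2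
        exact D.T_ge3 rfl (by omega) (Or.inl ⟨hUE, p2⟩)

end all

end Pool.Agent.GaussPoset.EK

end

/-! From `Pool.Agent.W_448j6_h22.KbP` -/

section

/-!
MP_448cb3_co, G2, case B, `j = 6`: no element (C), from the bound for the triangle.
-/

namespace Pool.Agent.GaussPoset.EK

set_option linter.unusedSectionVars false

open Finset Win St Polynomial Wd Win.W4

universe u

variable {P : Type u} [Fintype P] [PartialOrder P] [DecidableEq P] {r i j n : ℕ}

variable {m m' : ℕ} {x x' : ℕ → P} {c c' : ℕ → ℤ} {β β' : ℤ} {t : Tops P}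

variable {K : Finset P} {psi : P → P} {Y V : P → P} {w v : P}

/-- the value of a triangle over the site opposite to an edge -/
lemma tri_sa (h : NJ P r j) (R : Red P j K psi) (B : RowB P j t 2 x c β) {p q s : ℕ} (hp : p ≤ 2)
    (hq : q ≤ 2) (hs : s ≤ 2) (hpq : p < q) (hps : p ≠ s) (hqs : q ≠ s) :
    sa j (topOf : P → Tops P) K {x s} t = Df j {x p, x q} := by
  classical
  have H := h.g.H
  have W := B.row
  rw [sa_eq, ← fib_K R.mat R.sub]
  refine sum_congr ?_ fun _ _ => rfl
  ext k
  rw [mem_filter, mem_filter]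
  constructor
  · rintro ⟨hk, hkt, hd⟩
    refine ⟨hk, ?_⟩
    obtain ⟨p', q', f1, f2, f3, f4⟩ := W.pair R H h.split hk hkt
    rw [f3, disjoint_singleton_right, mem_insert, mem_singleton] at hd
    have h1 : s ≠ p' := fun q => hd (Or.inl (by rw [q]))
    have h2 : s ≠ q' := fun q => hd (Or.inr (by rw [q]))
    have h3 : p' = p ∧ q' = q := by omega
    rw [f3, h3.1, h3.2]
  · rintro ⟨hk, hns⟩
    refine ⟨hk, ?_, ?_⟩
    · have h1 := (kap_ns' H h.split (R.sub hk) (v := x p) (by rw [hns]; simp)).1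
      rw [← h1]
      exact W.kap p hp
    · rw [hns, disjoint_singleton_right, mem_insert, mem_singleton]
      rintro (h1 | h1)
      · exact hps (W.inj _ _ hs hp h1).symm
      · exact hqs (W.inj _ _ hs hq h1).symm

section own

variable (h : NJ P r j) (hj : 2 ≤ j) (R : Red P j K psi) (hY : YV j Y V)

include h hj R hY

/-- the triangle: the share -/
theorem NJ.own_tri (B : RowB P j t 2 x c β) (hβ : β = 2) (c0 : c 0 = -1) (c1 : c 1 = -1)
    (hT : 6 ≤ TT j t) : PA j K Y V t + PB j K Y V t ≤ TT j t := by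
  classical
  have a1 : PA j K Y V t = 0 := NJ.PA_zero h hj R hY fun y hy ht => by
    have := (B.bad h hj hy ht).1
    omega
  have s0 : sa j (topOf : P → Tops P) K {x 0} t = -1 := by
    rw [tri_sa h R B (p := 1) (q := 2) (s := 0) (by omega) le_rfl (by omega) (by omega)
      (by omega) (by omega), B.row.df 1 2 (by omega) le_rfl, if_pos rfl, c1]
  have s1 : sa j (topOf : P → Tops P) K {x 1} t = 2 := by
    rw [tri_sa h R B (p := 0) (q := 2) (s := 1) (by omega) le_rfl (by omega) (by omega)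
      (by omega) (by omega), B.row.df 0 2 (by omega) le_rfl, if_neg (by omega),
      if_pos ⟨rfl, rfl⟩, hβ]
  have s2 : sa j (topOf : P → Tops P) K {x 2} t = -1 := by
    rw [tri_sa h R B (p := 0) (q := 1) (s := 2) (by omega) (by omega) (by omega) (by omega)
      (by omega) (by omega), B.row.df 0 1 (by omega) (by omega), if_pos rfl, c0]
  have a2 := NJ.PB_le h hj R hY B (q0 := 1) (b := 2) (by norm_num) fun q hq hq1 => by
    have hq3 : q = 0 ∨ q = 1 ∨ q = 2 := by omega
    rcases hq3 with rfl | rfl | rfl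
    · rw [s0] at hq1
      norm_num at hq1
    · exact ⟨rfl, s1⟩
    · rw [s2] at hq1
      norm_num at hq1
  have h1 := B.lost 1 (by omega) (by omega) c0 c1
  rw [h1] at a2
  norm_num at a2
  linarith

end own

/-- closing the row to a cycle -/
lemma exists_cyc (x : ℕ → P) : ∃ x' : ℕ → P, (∀ k, k ≤ 3 → x' k = x k) ∧ x' 4 = x' 0 := by
  refine ⟨fun k => if k = 4 then x 0 else x k, fun k hk => ?_, ?_⟩
  · show (if k = 4 then x 0 else x k) = x k
    rw [if_neg (by omega)]
  · show (if 4 = 4 then x 0 else x 4) = (if 0 = 4 then x 0 else x 0)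
    rw [if_pos rfl, if_neg (by omega)]

lemma UE_cyc {C : Finset P} (hx : ∀ k, k ≤ 3 → x' k = x k) : UE j C x' 2 = UE j C x 2 := by
  have hed : ed x' 2 = ed x 2 := by
    unfold ed
    rw [hx 2 (by omega), hx (2 + 1) (by omega)]
  unfold UE
  rw [hed]

section six

variable {lo hi : Tops P → ℕ → ℕ} {e : Tops P → ℕ → ℕ → P}

/-- two double edges at the level 6 are impossible -/
lemma no_pat6 (h : NJ P r 6) (C : ∀ t : Tops P, Cp.Comp 6 (t : P) (lo t) (hi t) (e t))
    (hS : ∀ t : Tops P, Shape 6 (lo t) (hi t)) (B : RowB P 6 t m x c β) (hp : Pat6 m c β) :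
    False := by
  classical
  have H := h.g.H
  have Ct := C t
  obtain ⟨hm, hβ, c0, c1, c2, c3, -⟩ := hp
  obtain ⟨hlen, hor⟩ := B.orient h (by omega) (C t)
  have hh := Ct.hi_le (k := 6) le_rfl
  have hxt : ∀ l, l ≤ m → x l ≤ (t : P) := by
    intro l hl
    rw [← B.row.kap l hl]
    exact le_topOf (x l)
  rcases hS t with g1 | ⟨g1, S'⟩ | ⟨g1, S⟩ | ⟨g1, g2, g3⟩ | ⟨g1, g2⟩ | ⟨a, g0, g1, g2, g3, hN, g4⟩
  · have := g1 6 le_rfl
    omega
  · -- the ends are closed
    have key : ∀ {x : ℕ → P} {c : ℕ → ℤ}, RowB P 6 t m x c β → c 0 = 1 → (uc (x 0)).card = 2 := by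
      intro x c B c0
      have W := NJ.prow h (by omega) B (by omega)
      rcases W.uc_le (k := 0) (by omega) with h1 | h1
      · exfalso
        have hne : x 0 ≠ x 1 := fun q => by
          have := B.row.inj 0 1 (by omega) (by omega) q
          omega
        have h3 := NJ_rect_S_end h (by omega) C hS (t := t) (x := x 0) (x' := x 1) (by omega)
          (B.row.lev_x 0 (by omega)) (by
            rw [← B.row.kap 0 (by omega)]
            exact le_topOf (x 0)) h1 hne
        rw [B.dd h (by omega) c0] at h3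
        omega
      · exact h1
    have k0 := key B c0
    have k1 := key B.rev (by
      show c (m - 1 - 0) = 1
      rw [Nat.sub_zero]
      exact c3)
    simp only [Nat.sub_zero] at k1
    have hd : ∀ s, lo t 6 ≤ s → s ≤ hi t 6 → (uc (e t 6 s)).card = 2 → lo t 5 < s ∧ s ≤ hi t 5 :=
      fun s q1 q2 => (Ct.double_up H h.g.good t.2 (k := 5) (by omega) q1 q2).1
    have hh5 := Ct.hi_le (k := 5) (by omega)
    have e1 := Ct.lo_step 5 (by omega)
    have e2 := Ct.hi_step 5 (by omega)
    norm_num at e1 e2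
    rcases hor with hor | hor
    · rw [hor 0 (by omega)] at k0
      rw [hor m le_rfl] at k1
      have f0 := hd _ (by omega) (by omega) k0
      have f1 := hd _ (by omega) (by omega) k1
      omega
    · rw [hor 0 (by omega)] at k0
      rw [hor m le_rfl] at k1
      have f0 := hd _ (by omega) (by omega) k0
      have f1 := hd _ (by omega) (by omega) k1
      omega
  · have := S.hi 6 (by omega)
    norm_num at this
    omega
  · omega
  · exact absurd g2 (NJ_no_six h C hS t)
  · rcases late6_vals h C hS t g0 g1 g2 g3 g4 (by omega) with q | ⟨-, -, -, -, l6, e6, -⟩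
    · obtain ⟨K, psi, R⟩ := exists_red P 6
      obtain ⟨w, hw1, hw2, hw3⟩ := R.exL (S := {x 0, x 1}) (by
        rw [B.row.df 0 1 (by omega) (by omega), if_pos rfl, c0])
      have hl := (mem_dbL.1 hw2).1
      have h1 : w ⋖ x 0 := mem_uc.1 (by rw [hw3]; simp)
      exact q w (h1.le.trans (hxt 0 (by omega))) hl
    · omega

/-- every part pays its share -/
theorem own6 (h : NJ P r 6) (C : ∀ t : Tops P, Cp.Comp 6 (t : P) (lo t) (hi t) (e t))
    (hS : ∀ t : Tops P, Shape 6 (lo t) (hi t)) (R : Red P 6 K psi) (hY : YV 6 Y V)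
    (hTri : ∀ (t : Tops P) (x : ℕ → P) (c : ℕ → ℤ), RowB P 6 t 2 x c 2 → c 0 = -1 → c 1 = -1 →
      6 ≤ TT 6 t) (t : Tops P) : PA 6 K Y V t + PB 6 K Y V t ≤ TT 6 t := by
  have hj : 2 ≤ 6 := by omega
  obtain ⟨m, x, c, β, B⟩ := NJ.rowB h hj t
  -- the two oriented patterns
  have keyR : ∀ {x : ℕ → P} {c : ℕ → ℤ}, RowB P 6 t m x c β → 2 ≤ m → β = 1 → c 0 = -1 →
      (∀ k, 1 ≤ k → k < m → c k = 0) → PA 6 K Y V t + PB 6 K Y V t ≤ TT 6 t := by
    intro x c B hm hβ c0 c1
    rcases Nat.lt_or_ge m 3 with hm3 | hm3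
    · obtain rfl : m = 2 := by omega
      exact NJ.own_r2 h hj R hY B hβ c0 (c1 1 le_rfl (by omega))
    · obtain ⟨hm', hp, hU⟩ := r6 h C hS B hm3 hβ
      subst hm'
      obtain ⟨x', hx, hx4⟩ := exists_cyc x
      have B' := B.congr hx
      refine NJ.own_r3 h hj R hY B' hβ c0 (c1 1 le_rfl (by omega)) (c1 2 (by omega) (by omega)) hx4
        (by rw [hx 1 (by omega)]; exact hp) ?_
      rw [UE_cyc hx]
      exact hU
  have keyD : ∀ {x : ℕ → P} {c : ℕ → ℤ}, RowB P 6 t m x c β → 2 ≤ m → β = 0 → c 0 = 1 →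
      c 1 = -1 → (∀ k, 2 ≤ k → k < m → c k = 0) →
      PA 6 K Y V t + PB 6 K Y V t ≤ TT 6 t := by
    intro x c B hm hβ c0 c1 c2
    rcases Nat.lt_or_ge m 3 with hm3 | hm3
    · obtain rfl : m = 2 := by omega
      exact NJ.own_dl2 h hj R hY B hβ c0 c1
    · exact NJ.own_dl h hj R hY B hm3 hβ c0 c1 c2 (dl6 h C hS R B hm3 hβ c0 c1 c2)
  rcases B.pat with ⟨p1, p2⟩ | ⟨p0, p1, p2, p3⟩ | ⟨p0, p1, p2, p3⟩ | ⟨p0, p1, p2, p3, p4⟩ |
    ⟨p0, p1, p2, p3, p4⟩ | p1 | ⟨p0, p1, p2, p3⟩ | p1
  · exact NJ.own_nat h hj R hY B p2 p1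
  · exact keyR B p0 p1 p2 p3
  · refine keyR B.rev p0 p1 ?_ fun k k1 k2 => ?_
    · show c (m - 1 - 0) = -1
      rwa [Nat.sub_zero]
    · exact p3 (m - 1 - k) (by omega)
  · exact keyD B p0 p1 p2 p3 p4
  · refine keyD B.rev p0 p1 ?_ ?_ fun k k1 k2 => ?_
    · show c (m - 1 - 0) = 1
      rwa [Nat.sub_zero]
    · show c (m - 1 - 1) = -1
      rwa [show m - 1 - 1 = m - 2 by omega]
    · exact p4 (m - 1 - k) (by omega)
  · exact (no_pat6 h C hS B p1).elim
  · subst p0
    have hT := hTri t x c (by rw [← p1]; exact B) p2 p3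
    exact NJ.own_tri h hj R hY B p1 p2 p3 hT
  · exact (B.not8 p1).elim

/-- NO ELEMENT (C) OF THE LEVEL 7, from the bound for the triangles -/
theorem no_cc_of_tri (h : NJ P r 6) (C : ∀ t : Tops P, Cp.Comp 6 (t : P) (lo t) (hi t) (e t))
    (hS : ∀ t : Tops P, Shape 6 (lo t) (hi t))
    (hTri : ∀ (t : Tops P) (x : ℕ → P) (c : ℕ → ℤ), RowB P 6 t 2 x c 2 → c 0 = -1 → c 1 = -1 →
      6 ≤ TT 6 t)
    (t : Tops P) {z : P} (S : StairShape 6 (lo t) (hi t)) (l6 : lo t 6 = 0)
    (z3 : z ⋖ e t 6 3) (z0 : z ⋖ e t 6 0) : False := by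
  classical
  have hj : 2 ≤ 6 := by omega
  obtain ⟨K, psi, R⟩ := exists_red P 6
  obtain ⟨Y, V, hY⟩ := exists_YV P 6
  obtain ⟨d1, d2⟩ := NJ.distr h hj R hY (own6 h C hS R hY hTri)
  obtain ⟨m, x, c, β, B⟩ := NJ.rowB h hj t
  obtain ⟨hlen, hor⟩ := B.orient h hj (C t)
  have e6 := S.hi 6 le_rfl
  norm_num at e6
  obtain rfl : m = 3 := by omega
  have hpos : 0 < dcv (x 0) (x 3) := by
    unfold dcv
    rw [card_pos]
    refine ⟨z, ?_⟩
    rw [mem_filter]
    rcases hor with hor | hor
    · rw [hor 0 (by omega), hor 3 le_rfl, l6]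
      exact ⟨mem_univ _, z0, z3⟩
    · rw [hor 0 (by omega), hor 3 le_rfl, e6]
      exact ⟨mem_univ _, z3, z0⟩
  have h1 := B.dcv_x h.g.H (k := 0) (l := 3) (by omega) le_rfl
  rw [if_neg (by omega), if_pos ⟨rfl, rfl⟩] at h1
  have keyR : ∀ {x : ℕ → P} {c : ℕ → ℤ}, RowB P 6 t 3 x c β → β = 1 → c 0 = -1 →
      (∀ k, 1 ≤ k → k < 3 → c k = 0) → False := by
    intro x c B hβ c0 c1
    obtain ⟨-, hp, hU⟩ := r6 h C hS B le_rfl hβ
    obtain ⟨x', hx, hx4⟩ := exists_cyc x
    have B' := B.congr hx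
    refine NJ.r3_false h hj R hY B' hβ c0 (c1 1 le_rfl (by omega)) (c1 2 (by omega) (by omega)) hx4
      (by rw [hx 1 (by omega)]; exact hp) ?_ (d1 t) d2
    rw [UE_cyc hx]
    exact hU
  rcases B.pat with ⟨p1, p2⟩ | ⟨p0, p1, p2, p3⟩ | ⟨p0, p1, p2, p3⟩ | ⟨p0, p1, p2, p3, p4⟩ |
    ⟨p0, p1, p2, p3, p4⟩ | p1 | ⟨p0, p1, p2, p3⟩ | p1
  · omega
  · exact keyR B p1 p2 p3
  · refine keyR B.rev p1 ?_ fun k k1 k2 => ?_
    · show c (3 - 1 - 0) = -1
      exact p2
    · exact p3 (3 - 1 - k) (by omega)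
  · omega
  · omega
  · exact no_pat6 h C hS B p1
  · omega
  · exact B.not8 p1

end six

end Pool.Agent.GaussPoset.EK

end

/-! From `Pool.Agent.W_448j6_h22.KcJ` -/

section

/-!
MP_448cb3_co, G2, case B, window `j`: the frame of the triangle, the bound of its functional; no
element (C) at `j = 6`.
-/

namespace Pool.Agent.GaussPoset.EK

set_option linter.unusedSectionVars false

open Finset Win St Polynomial Wd Win.W4
open Pool.Agent.GaussPoset.Win.SO (PN vp)

universe u

variable {P : Type u} [Fintype P] [PartialOrder P] [DecidableEq P] {r i j : ℕ}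

variable {m : ℕ} {x : ℕ → P} {c : ℕ → ℤ} {β : ℤ} {t : Tops P}

variable {K : Finset P} {psi : P → P}

/-- the frame of the triangle -/
theorem NJ.tri (h : NJ P r j) (hj : 2 ≤ j) (B : RowB P j t 2 x c 2) (c0 : c 0 = -1)
    (c1 : c 1 = -1) : ∃ v1 v2 w w' p,
      W4.Tri r j (cext (j + 1) (topOf : P → Tops P) t) (x 0) (x 1) (x 2) v1 v2 w w' p := by
  classical
  have H := h.g.H
  have W := NJ.prow h hj B (by omega)
  have h01 := B.dcv_x H (k := 0) (l := 1) (by omega) (by omega)
  have h12 := B.dcv_x H (k := 1) (l := 2) (by omega) (by omega)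
  have h02 := B.dcv_x H (k := 0) (l := 2) (by omega) (by omega)
  rw [if_pos rfl, c0] at h01
  rw [if_pos rfl, c1] at h12
  rw [if_neg (by omega), if_pos ⟨rfl, rfl⟩] at h02
  have u01 := B.ucv_x 0 1 (by omega) (by omega)
  have u12 := B.ucv_x 1 2 (by omega) (by omega)
  have u02 := B.ucv_x 0 2 (by omega) (by omega)
  rw [if_pos rfl] at u01 u12
  rw [if_neg (by omega)] at u02
  obtain ⟨e0, e2⟩ := B.ends (by norm_num)
  have lost := B.lost 1 (by omega) (by omega) c0 c1
  have n01 : x 0 ≠ x 1 := fun q => by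
    have := W.inj 0 1 (by omega) (by omega) q
    omega
  have n12 : x 1 ≠ x 2 := fun q => by
    have := W.inj 1 2 (by omega) (by omega) q
    omega
  have n02 : x 0 ≠ x 2 := fun q => by
    have := W.inj 0 2 (by omega) (by omega) q
    omega
  -- the upper doubles
  obtain ⟨v1, hv1⟩ : ∃ v, v ∈ univ.filter (fun y => x 0 ⋖ y ∧ x 1 ⋖ y) := by
    apply card_pos.1
    unfold ucv at u01
    omega
  obtain ⟨v2, hv2⟩ : ∃ v, v ∈ univ.filter (fun y => x 1 ⋖ y ∧ x 2 ⋖ y) := by
    apply card_pos.1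
    unfold ucv at u12
    omega
  rw [mem_filter] at hv1 hv2
  obtain ⟨-, a1, a2⟩ := hv1
  obtain ⟨-, b1, b2⟩ := hv2
  have nv : v1 ≠ v2 := by
    rintro rfl
    have : v1 ∈ univ.filter (fun y => x 0 ⋖ y ∧ x 2 ⋖ y) := mem_filter.2 ⟨mem_univ _, a1, b2⟩
    have h1 := card_pos.2 ⟨v1, this⟩
    unfold ucv at u02
    omega
  have hu0 : uc (x 0) = {v1} := by
    obtain ⟨y, hy⟩ := card_eq_one.1 e0
    have : v1 ∈ uc (x 0) := mem_uc.2 a1
    rw [hy, mem_singleton] at this
    rw [hy, this]
  have hu2 : uc (x 2) = {v2} := by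
    obtain ⟨y, hy⟩ := card_eq_one.1 e2
    have : v2 ∈ uc (x 2) := mem_uc.2 b2
    rw [hy, mem_singleton] at this
    rw [hy, this]
  have hu1 : uc (x 1) = {v1, v2} := by
    symm
    apply eq_of_subset_of_card_le
    · intro y hy
      rw [mem_insert, mem_singleton] at hy
      rcases hy with rfl | rfl
      · exact mem_uc.2 a2
      · exact mem_uc.2 b1
    · rw [card_pair nv]
      exact uc_card_le H (x 1)
  have hd1 : dc v1 = {x 0, x 1} := by
    symm
    apply eq_of_subset_of_card_le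
    · intro y hy
      rw [mem_insert, mem_singleton] at hy
      rcases hy with rfl | rfl
      · exact mem_dc.2 a1
      · exact mem_dc.2 a2
    · rw [card_pair n01]
      exact dc_card_le H v1
  have hd2 : dc v2 = {x 1, x 2} := by
    symm
    apply eq_of_subset_of_card_le
    · intro y hy
      rw [mem_insert, mem_singleton] at hy
      rcases hy with rfl | rfl
      · exact mem_dc.2 b1
      · exact mem_dc.2 b2
    · rw [card_pair n12]
      exact dc_card_le H v2
  -- the lower doubles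
  obtain ⟨w, w', nw, hww⟩ : ∃ w w', w ≠ w' ∧ univ.filter (fun y => y ⋖ x 0 ∧ y ⋖ x 2) = {w, w'} := by
    apply card_eq_two.1
    unfold dcv at h02
    omega
  have hw : w ⋖ x 0 ∧ w ⋖ x 2 := by
    have : w ∈ univ.filter (fun y => y ⋖ x 0 ∧ y ⋖ x 2) := by rw [hww]; simp
    exact (mem_filter.1 this).2
  have hw' : w' ⋖ x 0 ∧ w' ⋖ x 2 := by
    have : w' ∈ univ.filter (fun y => y ⋖ x 0 ∧ y ⋖ x 2) := by rw [hww]; simp
    exact (mem_filter.1 this).2
  have hc0 : dc (x 0) = {w, w'} := by
    symm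
    apply eq_of_subset_of_card_le
    · intro y hy
      rw [mem_insert, mem_singleton] at hy
      rcases hy with rfl | rfl
      · exact mem_dc.2 hw.1
      · exact mem_dc.2 hw'.1
    · rw [card_pair nw]
      exact dc_card_le H (x 0)
  have hc2 : dc (x 2) = {w, w'} := by
    symm
    apply eq_of_subset_of_card_le
    · intro y hy
      rw [mem_insert, mem_singleton] at hy
      rcases hy with rfl | rfl
      · exact mem_dc.2 hw.2
      · exact mem_dc.2 hw'.2
    · rw [card_pair nw]
      exact dc_card_le H (x 2)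
  have huw : uc w = {x 0, x 2} := by
    symm
    apply eq_of_subset_of_card_le
    · intro y hy
      rw [mem_insert, mem_singleton] at hy
      rcases hy with rfl | rfl
      · exact mem_uc.2 hw.1
      · exact mem_uc.2 hw.2
    · rw [card_pair n02]
      exact uc_card_le H w
  have huw' : uc w' = {x 0, x 2} := by
    symm
    apply eq_of_subset_of_card_le
    · intro y hy
      rw [mem_insert, mem_singleton] at hy
      rcases hy with rfl | rfl
      · exact mem_uc.2 hw'.1
      · exact mem_uc.2 hw'.2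
    · rw [card_pair n02]
      exact uc_card_le H w'
  -- the pendant
  obtain ⟨p, hp⟩ := card_eq_one.1 lost
  have hup : uc p = {x 1} := by
    have hpm : p ∈ pen (x 1) := by rw [hp]; exact mem_singleton_self _
    obtain ⟨q1, q2⟩ := mem_pen.1 hpm
    obtain ⟨y, hy⟩ := card_eq_one.1 q2
    have := mem_uc.2 q1
    rw [hy, mem_singleton] at this
    rw [hy, this]
  have hlj : ∀ k, k ≤ 2 → lev (x k) = j := fun k hk => W.lev_x k hk
  have hdp : dc (x 1) = {p} := by
    ext z
    rw [mem_singleton]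
    constructor
    · intro hz
      have hz1 := mem_dc.1 hz
      have hle : x 1 ∈ uc z := mem_uc.2 hz1
      have hc := uc_card_le H z
      have hpos := card_pos.2 ⟨x 1, hle⟩
      rcases Nat.lt_or_ge (uc z).card 2 with h1 | h1
      · obtain ⟨y, hy⟩ := card_eq_one.1 (by omega : (uc z).card = 1)
        rw [hy, mem_singleton] at hle
        rw [← hle] at hy
        have h3 : z ∈ pen (x 1) := mem_pen.2 ⟨hz1, by rw [hy, card_singleton]⟩
        rwa [hp, mem_singleton] at h3
      · exfalso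
        obtain ⟨y, hy, hyn⟩ := exists_mem_ne (by omega : 1 < (uc z).card) (x 1)
        have hzC : z ∈ cext (j + 1) (topOf : P → Tops P) t :=
          W.hC.dn (W.mem 1 (by omega)) (by rw [hlj 1 (by omega)]; omega) hz1
        have hyC := W.hC.up hzC (mem_uc.1 hy)
        have l1 := lev_cov H hz1
        have l2 := lev_uc H hy
        have l3 := hlj 1 (by omega)
        obtain ⟨k, hk, rfl⟩ := W.surj y hyC (by omega)
        have hk3 : k = 0 ∨ k = 1 ∨ k = 2 := by omega
        rcases hk3 with rfl | rfl | rfl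
        · have : z ∈ univ.filter (fun y => y ⋖ x 0 ∧ y ⋖ x 1) :=
            mem_filter.2 ⟨mem_univ _, mem_uc.1 hy, hz1⟩
          have h1 := card_pos.2 ⟨z, this⟩
          unfold dcv at h01
          omega
        · exact hyn rfl
        · have : z ∈ univ.filter (fun y => y ⋖ x 1 ∧ y ⋖ x 2) :=
            mem_filter.2 ⟨mem_univ _, hz1, mem_uc.1 hy⟩
          have h1 := card_pos.2 ⟨z, this⟩
          unfold dcv at h12
          omega
    · rintro rfl
      exact mem_dc.2 (mem_uc.1 (by rw [hup]; simp))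
  refine ⟨v1, v2, w, w', p, ?_⟩
  exact {
    H := H
    hi := W.hi
    hi2 := W.hi2
    hC := W.hC
    l0 := hlj 0 (by omega)
    l1 := hlj 1 (by omega)
    l2 := hlj 2 (by omega)
    hst := by
      ext v
      rw [mem_st]
      simp only [mem_insert, mem_singleton]
      constructor
      · rintro ⟨h1, h2⟩
        obtain ⟨k, hk, rfl⟩ := W.surj v h1 h2
        have hk3 : k = 0 ∨ k = 1 ∨ k = 2 := by omega
        rcases hk3 with rfl | rfl | rfl <;> tauto
      · rintro (rfl | rfl | rfl)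
        · exact ⟨W.mem 0 (by omega), hlj 0 (by omega)⟩
        · exact ⟨W.mem 1 (by omega), hlj 1 (by omega)⟩
        · exact ⟨W.mem 2 (by omega), hlj 2 (by omega)⟩
    n01 := n01
    n02 := n02
    n12 := n12
    u0 := hu0
    u1 := hu1
    u2 := hu2
    hv1 := hd1
    hv2 := hd2
    d0 := hc0
    d1 := hdp
    d2 := hc2
    hw := huw
    hw' := huw'
    hp := hup
    nw := nw }

/-- THE BOUND OF THE TRIANGLE -/
theorem NJ.tri_bound (h : NJ P r j) (hj : 2 ≤ j) (B : RowB P j t 2 x c 2) (c0 : c 0 = -1)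
    (c1 : c 1 = -1) : 6 ≤ TT j t := by
  obtain ⟨K, psi, R⟩ := exists_red P j
  obtain ⟨v1, v2, w, w', p, T⟩ := NJ.tri h hj B c0 c1
  rw [NJ.TT_small h hj R (Or.inl T.card_st.le)]
  exact T.Tv_ge (NJ.noQ h hj) (fun m hm => h.g.good m (by omega)) h.split R

/-- NO ELEMENT (C) OF THE LEVEL 7 -/
theorem no_cc_six {lo hi : Tops P → ℕ → ℕ} {e : Tops P → ℕ → ℕ → P}
    (h : NJ P r 6) (C : ∀ t : Tops P, Cp.Comp 6 (t : P) (lo t) (hi t) (e t))
    (hS : ∀ t : Tops P, Shape 6 (lo t) (hi t)) (t : Tops P) {z : P}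
    (S : StairShape 6 (lo t) (hi t)) (l6 : lo t 6 = 0)
    (z3 : z ⋖ e t 6 3) (z0 : z ⋖ e t 6 0) : False :=
  no_cc_of_tri h C hS (fun _ _ _ B c0 c1 => NJ.tri_bound h (by omega) B c0 c1) t S l6 z3 z0

end Pool.Agent.GaussPoset.EK

end

/-! From `Pool.Agent.W_448j6_h22.KcK` -/

section

/-!
MP_448cb3_co, G2, case B, `j = 6`: no element (C), in the form of the final assembly.
-/

namespace Pool.Agent.GaussPoset.EK

set_option linter.unusedSectionVars false

open Finset Win St Polynomial Wd Win.W4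

universe u

/-- NO ELEMENT (C) OF THE LEVEL 7, in the form of the final assembly -/
theorem hcc3_nj (P : Type u) [Fintype P] [PartialOrder P] [DecidableEq P] :
    ∀ r, NJ P r (2 * 3) → ∀ (lo hi : Tops P → ℕ → ℕ) (e : Tops P → ℕ → ℕ → P),
    (∀ t : Tops P, Cp.Comp (2 * 3) (t : P) (lo t) (hi t) (e t)) →
    (∀ t : Tops P, Shape (2 * 3) (lo t) (hi t)) →
    ∀ (t : Tops P) (z : P), StairShape (2 * 3) (lo t) (hi t) → lo t (2 * 3) = 0 →
      z ⋖ e t (2 * 3) 3 → z ⋖ e t (2 * 3) 0 → False :=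
  fun _ h _ _ _ C hS t _ S h0 h1 h2 => no_cc_six h C hS t S h0 h1 h2

end Pool.Agent.GaussPoset.EK

end

/-! From `Pool.Agent.W_448j6_h22.KcN` -/

section

/-!
MP_448cb3_co, G2, case B, window `j`: the triangle: the functional `- F2 + 2 F4 + 13 F3`.
-/

namespace Pool.Agent.GaussPoset.EK

set_option linter.unusedSectionVars false

open Finset Win St Polynomial Wd Win.W4

universe u

variable {P : Type u} [Fintype P] [PartialOrder P] [DecidableEq P] {r j : ℕ}
variable {x : ℕ → P} {c : ℕ → ℤ} {t : Tops P}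

/-- THE SECOND BOUND OF THE TRIANGLE -/
theorem NJ.tri_own2 (h : NJ P r j) (hj : 2 ≤ j) (B : RowB P j t 2 x c 2) (c0 : c 0 = -1)
    (c1 : c 1 = -1) :
    1 ≤ - I2.al 2 (I2.bb j (j + 1) (topOf : P → Tops P) t)
        (I2.VV j (j + 1) (topOf : P → Tops P) t) +
      2 * I2.Q4 (I2.bb j (j + 1) (topOf : P → Tops P) t)
        (I2.VV j (j + 1) (topOf : P → Tops P) t) +
      13 * I2.w3 (I2.bb j (j + 1) (topOf : P → Tops P) t)
        (I2.VV j (j + 1) (topOf : P → Tops P) t) := by
  obtain ⟨K, psi, R⟩ := exists_red P j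
  obtain ⟨v1, v2, w, w', p, T⟩ := NJ.tri h hj B c0 c1
  exact T.own2 (NJ.noQ h hj) (fun m hm => h.g.good m (by omega)) h.split R

/-- (3,2) of the triangle -/
theorem NJ.tri_w3 (h : NJ P r j) (hj : 2 ≤ j) (B : RowB P j t 2 x c 2) (c0 : c 0 = -1)
    (c1 : c 1 = -1) : I2.w3 (I2.bb j (j + 1) (topOf : P → Tops P) t)
        (I2.VV j (j + 1) (topOf : P → Tops P) t) = -3 := by
  obtain ⟨K, psi, R⟩ := exists_red P j
  obtain ⟨v1, v2, w, w', p, T⟩ := NJ.tri h hj B c0 c1
  exact T.w3_eq (NJ.noQ h hj) (fun m hm => h.g.good m (by omega)) h.split R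

end Pool.Agent.GaussPoset.EK

end
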