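import Mathlib
import Pool.Agent.W_448zz_h61.Ns
import Pool.Agent.W_448zz_h61.M236
import Pool.Agent.W_448zz_h61.M239
import Pool.Agent.W_448zz_h61.M241
import Pool.Agent.W_448zz_h61.M243
import Pool.Agent.W_448zz_h61.M245
import Pool.Agent.W_448zz_h61.M246
import Pool.Agent.W_448zz_h61.M247
import Pool.Agent.W_448zz_h61.M248
import Pool.Agent.W_448zz_h61.M249
import Pool.Agent.W_448zz_h61.M250
import Pool.Agent.W_448zz_h61.M251
import Pool.Agent.W_448zz_h61.M252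
import Pool.Agent.W_448zz_h61.M268
import Pool.Agent.W_448zz_h61.M269
import Pool.Agent.W_448zz_h61.M272
import Pool.Agent.W_448zz_h61.M273

/-! From `Pool.Agent.W_448nl_h15.NlS` -/

section

/-!
# MP_448cb3_co, case B: the values of `E7` at `(j, n) = (15, 8)`
-/

set_option autoImplicit false

namespace Pool.Agent.GaussPoset.Win.Ev

set_option linter.unusedSectionVars false

open Finset

lemma sum_getD (c : List ℤ) : ∑ k ∈ Finset.range c.length, c.getD k 0 = c.sum := by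
  induction c with
  | nil => simp
  | cons a c ih =>
    rw [List.length_cons, Finset.sum_range_succ', List.sum_cons]
    simp only [List.getD_cons_succ, List.getD_cons_zero]
    rw [ih, add_comm]

/-- one splitting step -/
lemma split_sum {m x : ℕ} {p : Prog} {v b : ℕ} (h : hd0 x p = true) (c : List ℤ)
    (hc : c.length = b + 1)
    (hk : ∀ k, k < b + 1 → ev m (tl p) (v + k * 32 ^ x) (b - k) 0 0 0 = c.getD k 0) :
    ev m p v b 0 0 0 = c.sum := by
  rw [ev_split h, ← sum_getD, hc]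
  exact Finset.sum_congr rfl fun k hk' => hk k (Finset.mem_range.1 hk')

theorem E7q15 : ev 1 (mk [0, 0, 0, 0, 0, 0, 1, 2, 2, 3, 3, 3, 4, 5, 5, 5, 5]
    [0, 0, 0, 0, 1, 1, 2, 3, 4, 4, 4, 4, 5, 5, 5, 5, 5] 17 8) 0 15 0 0 0 = 0 := by
  rw [split_sum (b := 15) E7_8_hd [2, 0, 4, -4, -2, 0, 0, 0, 0, 0, 0, 0, 0, 0, 0, 0] rfl]
  · decide
  · intro k hk
    rw [Nat.zero_add]
    rcases Nat.lt_or_ge k 2 with h | h
    · obtain rfl | rfl : k = 0 ∨ k = 1 := by omega
      · have := pcs_get E7q15_0 (k := 0) (by decide)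
        rw [Nat.zero_add] at this
        exact this.trans (by decide)
      · have := pcs_get E7q15_1 (k := 0) (by decide)
        rw [Nat.add_zero] at this
        exact this.trans (by decide)
    · obtain ⟨k', rfl⟩ : ∃ k', k = 2 + k' := ⟨k - 2, by omega⟩
      refine (pcs_get E7q15_2 (k := k')
        (by simp only [List.length_cons, List.length_nil]; omega)).trans ?_
      rw [show 2 + k' = k' + 1 + 1 by omega, List.getD_cons_succ, List.getD_cons_succ]

theorem E7q16_k0 : ev 1 (tl (mk [0, 0, 0, 0, 0, 0, 1, 2, 2, 3, 3, 3, 4, 5, 5, 5, 5]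
    [0, 0, 0, 0, 1, 1, 2, 3, 4, 4, 4, 4, 5, 5, 5, 5, 5] 17 8)) (0 * 32 ^ 258) 16 0 0 0 = 0 := by
  rw [Nat.zero_mul, split_sum (b := 16) E7_8_hd2 [0, -2, -80, -75, 56, 56, 28, 12, 4, 1, 0, 0, 0, 0, 0, 0, 0] rfl]
  · decide
  · intro k hk
    rcases Nat.lt_or_ge k 2 with h | h
    · obtain rfl | rfl : k = 0 ∨ k = 1 := by omega
      · have := pcv_get E7q16_00 (k := 0) (by decide)
        rw [Nat.add_zero 0] at this
        exact this.trans (by decide)
      · have := pcv_get E7q16_01 (k := 0) (by decide)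
        rw [Nat.add_zero 1] at this
        exact this.trans (by decide)
    · obtain ⟨k', rfl⟩ : ∃ k', k = 2 + k' := ⟨k - 2, by omega⟩
      refine (pcv_get E7q16_02 (k := k')
        (by simp only [List.length_cons, List.length_nil]; omega)).trans ?_
      rw [show 2 + k' = k' + 1 + 1 by omega, List.getD_cons_succ, List.getD_cons_succ]

theorem E7q16_k1 : ev 1 (tl (mk [0, 0, 0, 0, 0, 0, 1, 2, 2, 3, 3, 3, 4, 5, 5, 5, 5]
    [0, 0, 0, 0, 1, 1, 2, 3, 4, 4, 4, 4, 5, 5, 5, 5, 5] 17 8)) (1 * 32 ^ 258) 15 0 0 0 = 2 := by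
  rw [split_sum (b := 15) E7_8_hd2 [3, -2, -20, 3, 13, 4, 1, 0, 0, 0, 0, 0, 0, 0, 0, 0] rfl]
  · decide
  · intro k hk
    rcases Nat.lt_or_ge k 2 with h | h
    · obtain rfl | rfl : k = 0 ∨ k = 1 := by omega
      · have := pcv_get E7q16_10 (k := 0) (by decide)
        rw [Nat.add_zero 0] at this
        exact this.trans (by decide)
      · have := pcv_get E7q16_11 (k := 0) (by decide)
        rw [Nat.add_zero 1] at this
        exact this.trans (by decide)
    · obtain ⟨k', rfl⟩ : ∃ k', k = 2 + k' := ⟨k - 2, by omega⟩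
      refine (pcv_get E7q16_12 (k := k')
        (by simp only [List.length_cons, List.length_nil]; omega)).trans ?_
      rw [show 2 + k' = k' + 1 + 1 by omega, List.getD_cons_succ, List.getD_cons_succ]

theorem E7q16_k2 : ev 1 (tl (mk [0, 0, 0, 0, 0, 0, 1, 2, 2, 3, 3, 3, 4, 5, 5, 5, 5]
    [0, 0, 0, 0, 1, 1, 2, 3, 4, 4, 4, 4, 5, 5, 5, 5, 5] 17 8)) (2 * 32 ^ 258) 14 0 0 0 = 12 := by
  rw [split_sum (b := 14) E7_8_hd2 [37, -29, -4, 4, 3, 1, 0, 0, 0, 0, 0, 0, 0, 0, 0] rfl]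
  · decide
  · intro k hk
    rcases Nat.lt_or_ge k 1 with h | h
    · obtain rfl : k = 0 := by omega
      have := pcv_get E7q16_20 (k := 0) (by decide)
      rw [Nat.add_zero 0] at this
      exact this.trans (by decide)
    · obtain ⟨k', rfl⟩ : ∃ k', k = 1 + k' := ⟨k - 1, by omega⟩
      refine (pcv_get E7q16_21 (k := k')
        (by simp only [List.length_cons, List.length_nil]; omega)).trans ?_
      rw [show 1 + k' = k' + 1 by omega, List.getD_cons_succ]

theorem E7q16 : ev 1 (mk [0, 0, 0, 0, 0, 0, 1, 2, 2, 3, 3, 3, 4, 5, 5, 5, 5]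
    [0, 0, 0, 0, 1, 1, 2, 3, 4, 4, 4, 4, 5, 5, 5, 5, 5] 17 8) 0 16 0 0 0 = 0 := by
  rw [split_sum (b := 16) E7_8_hd [0, 2, 12, -8, -4, -2, 0, 0, 0, 0, 0, 0, 0, 0, 0, 0, 0] rfl]
  · decide
  · intro k hk
    rw [Nat.zero_add]
    rcases Nat.lt_or_ge k 3 with h | h
    · obtain rfl | rfl | rfl : k = 0 ∨ k = 1 ∨ k = 2 := by omega
      · exact E7q16_k0.trans (by decide)
      · exact E7q16_k1.trans (by decide)
      · exact E7q16_k2.trans (by decide)
    rcases Nat.lt_or_ge k 5 with h' | h'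
    · obtain ⟨k', rfl⟩ : ∃ k', k = 3 + k' := ⟨k - 3, by omega⟩
      refine (pcs_get E7q16_3 (k := k')
        (by simp only [List.length_cons, List.length_nil]; omega)).trans ?_
      obtain rfl | rfl : k' = 0 ∨ k' = 1 := by omega
      · decide
      · decide
    · obtain ⟨k', rfl⟩ : ∃ k', k = 5 + k' := ⟨k - 5, by omega⟩
      refine (pcs_get E7q16_5 (k := k')
        (by simp only [List.length_cons, List.length_nil]; omega)).trans ?_
      rw [show 5 + k' = k' + 1 + 1 + 1 + 1 + 1 by omega, List.getD_cons_succ, List.getD_cons_succ,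
        List.getD_cons_succ, List.getD_cons_succ, List.getD_cons_succ]

end Pool.Agent.GaussPoset.Win.Ev

namespace Pool.Agent.GaussPoset.Nl

set_option linter.unusedSectionVars false

open Finset Win Cp Wd Win.I2 Win.Ev

universe u

variable {P : Type u} [Fintype P] [PartialOrder P] [DecidableEq P] {r i j a n E k : ℕ}

/-- the values of `E7` at `(j, n) = (15, 8)` -/
theorem NJ.e7v8 (h : NJ P r 15) : E7V P 15 8 := by
  intro t lo hi e C hE m h5 hm
  rcases Nat.lt_or_ge m 15 with h6 | h6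
  · exact EV_holds.be_E7 h.g C (by omega) (by omega) hE m h5 (by omega) (by omega)
  have hcl : Wd.Cln P 12 4 :=
    NJ.cln45 (SO_holds P r) EV_holds h (Or.inl rfl) (by omega) rfl (NJ.l3v4 h)
  obtain ⟨e', C', hR⟩ := NJ.e7_16 h C hE hcl
  have hr := h.hr
  have L : LocN P r 16 (t : P) (Function.update lo 16 5) (Function.update hi 16 5)
      (fun k s => e' k s) (SS 8 t) 8 0 0 17 8
      [0, 0, 0, 0, 0, 0, 1, 2, 2, 3, 3, 3, 4, 5, 5, 5, 5]
      [0, 0, 0, 0, 1, 1, 2, 3, 4, 4, 4, 4, 5, 5, 5, 5, 5] :=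
    ⟨h.g.H, by omega, fun z y hz hzt hzy => NJ.up_le h t.2 (by omega) hzt hzy.le, C'.toWin,
      SS_part h.g (by omega) (by omega) t, fun z hz => h.mem (by omega) t (by omega), hR, rfl,
      by omega, by omega⟩
  have X15 := Ev.okXs_mono (N' := 15) E7_8_X (by omega)
  obtain rfl | rfl : m = 15 ∨ m = 16 := by omega
  · exact (L.be_all (b := 3) (n := 15) E7_8_okb.1 E7_8_okb.2 (by omega) (by omega) (by omega)
      (by omega) (by omega) (Or.inl rfl) X15).trans E7q15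
  · exact (L.be_all (b := 3) (n := 16) E7_8_okb.1 E7_8_okb.2 (by omega) (by omega) (by omega)
      (by omega) (by omega) (Or.inl rfl) E7_8_X).trans E7q16

end Pool.Agent.GaussPoset.Nl

end

/-! From `Pool.Agent.W_448nl_h15.NlV` -/

section

/-!
# MP_448cb3_co, case B: the input `HTail` of the final assembly
-/

set_option autoImplicit false

namespace Pool.Agent.GaussPoset.EK

set_option linter.unusedSectionVars false

open Finset Win Cp Wd

universe u

/-- THE INPUT (near laws of the last level) -/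
theorem HTail_holds (P : Type u) [Fintype P] [PartialOrder P] [DecidableEq P] : HTail P := by
  intro r j h hj lo hi e C S t a L hne
  have hw : word (lo t) (hi t) a (j - a) = [OC, OO, OO] ∨
      word (lo t) (hi t) a (j - a) = [OC, OO, CO, OO] ∨
      word (lo t) (hi t) a (j - a) = [OC, CO, CO, OO, CO, OO] ∨
      word (lo t) (hi t) a (j - a) = [OC, CO, CO, OO, CO, OO, OO] := by
    rcases L.wd with w | w | w | w | w
    · exact Or.inl w
    · exact Or.inr (Or.inl w)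
    · exact Or.inr (Or.inr (Or.inl w))
    · exact absurd w hne
    · exact Or.inr (Or.inr (Or.inr w))
  obtain ⟨h1, h2⟩ := Nl.NJ.htail h (C t) (S t) L.ha L.haj L.one L.two hw (Nl.NJ.l3v4 h)
    (by rintro rfl; exact Nl.NJ.l3v5 h) (by rintro rfl; exact Nl.NJ.e7v8 h)
  refine ⟨h1, fun h3 => ?_⟩
  have h4 := h2 h3
  rw [← card_pos]
  omega

end Pool.Agent.GaussPoset.EK

end

/-! From `Pool.Agent.W_448six_h74.SkI` -/

section

/-!
MP_448cb3_co, G2, case B: THE LEAF `HSixQ` OF STEP 0.  helper74.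
-/

namespace Pool.Agent.GaussPoset.EK

set_option linter.unusedSectionVars false

open Finset Win St Polynomial Wd Win.W4

universe u

variable {P : Type u} [Fintype P] [PartialOrder P] [DecidableEq P] {r i j : ℕ}

variable {m : ℕ} {x : ℕ → P} {c : ℕ → ℤ} {β : ℤ} {t : Tops P}

variable {K : Finset P} {psi : P → P}

lemma Ut_UU (i : ℕ) (t : Tops P) : Ut i t = UU w0 i t := rfl

/-- THE LEAF OF THE ROWS WITH TWO STARS -/
theorem hsixq : HSixQ P := by
  intro r i K psi t m x c β lo hi e h5 h8 hC hT h R C hS B hp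
  have hn := h.nj
  have hi1 : 1 ≤ i := by omega
  have hm := hp.1
  rw [Ut_UU]
  obtain ⟨g0, g1⟩ := CB.six_ends hC h (by omega) C hS B hp
  rcases g0 with g0 | ⟨S, ev, hx⟩
  · rcases g1 with g1 | ⟨S, ev, hx⟩
    · rcases six_closed hn hi1 B hp g0 g1 with q | q
      · exact Or.inl q
      · exact Or.inr (Or.inl q)
    · have B' := B.rev
      have hp' := Si.Pat6_rev hp
      have u0 := six_uc0 hn hi1 B' hm (C t) S ev hx
      have uE := six_UE0 hn hi1 B' hm (C t) S ev hx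
      exact six_fold hn hi1 B' hp' R u0 (by
        show (uc (x (m - m))).card = 2
        rwa [Nat.sub_self]) uE
  · have u0 := six_uc0 hn hi1 B hm (C t) S ev hx
    have uE := six_UE0 hn hi1 B hm (C t) S ev hx
    rcases g1 with g1 | ⟨-, -, hx'⟩
    · exact six_fold hn hi1 B hp R u0 g1 uE
    · exfalso
      have := B.row.inj 0 m (by omega) le_rfl (hx.trans hx'.symm)
      omega

end Pool.Agent.GaussPoset.EK

end

/-! From `Pool.Agent.W_448st0_h96.SzD` -/

section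

/-!
# Final assembly (MP_448cb3_co): STEP 0 at the level 8: THE LEAVES AND THE END
-/

namespace Pool.Agent.GaussPoset.EK

set_option linter.unusedSectionVars false

open Finset Win St Polynomial Wd Win.W4

universe u

section pay

variable {P : Type u} [Fintype P] [PartialOrder P] [DecidableEq P] {r i j : ℕ}

variable {m : ℕ} {x : ℕ → P} {c : ℕ → ℤ} {β : ℤ} {t : Tops P}

variable {K : Finset P} {psi : P → P} {Y V : P → P}

variable (h : NJ P r (i + 1)) (hi1 : 1 ≤ i) (R : Red P (i + 1) K psi) (hY : YW (i + 1) Y V)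

include h hi1 R hY

/-- a natural part pays nothing -/
theorem NJ.pay_nat (B : RowB P (i + 1) t m x c β) (h0 : ∀ k, k < m → c k = 0) (hb : β = 0) :
    PA (i + 1) K Y V t = 0 ∧ PC (i + 1) K Y V t = 0 :=
  NJ.pay_zero h hi1 R hY B (Or.inr hb) fun q _ _ => by
    rw [sa_nat h R (B.nat_of h h0 hb)]
    norm_num

/-- the pattern [DL] with at least four sites pays nothing -/
theorem NJ.pay_dl (B : RowB P (i + 1) t m x c β) (hm : 3 ≤ m) (hd : IsDL m c β) :
    PA (i + 1) K Y V t = 0 ∧ PC (i + 1) K Y V t = 0 := by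
  refine NJ.pay_zero h hi1 R hY B (Or.inr hd.1) fun q _ _ => ?_
  obtain ⟨w, v, D⟩ := NJ.dlg h (by omega) R B hm hd.1 hd.2.1 hd.2.2.1 hd.2.2.2
  rw [sa_K5 h R D.Q]
  split_ifs <;> norm_num

/-- the pattern R with four sites: the part pays at most for two joins at its bad double -/
theorem NJ.pay_ring (B : RowB P (i + 1) t 3 x c β) (hβ : β = 1) (c0 : c 0 = -1) (c1 : c 1 = 0)
    (c2 : c 2 = 0) :
    PC (i + 1) K Y V t = 0 ∧ PA (i + 1) K Y V t ≤ 2 ∧
      (PA (i + 1) K Y V t = 2 → ∃ y0, y0 ⋖ x 2 ∧ y0 ⋖ x 3 ∧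
        ∀ z, z ⋖ y0 → z ∈ K2.Z2 (i + 1) (topOf : P → Tops P)) := by
  obtain ⟨x', hx'⟩ : ∃ x' : ℕ → P, x' = fun k => if k = 4 then x 0 else x k := ⟨_, rfl⟩
  have hxk : ∀ k, k ≤ 3 → x' k = x k := by
    intro k hk
    rw [hx']
    show (if k = 4 then x 0 else x k) = x k
    rw [if_neg (by omega)]
  have hx4 : x' 4 = x' 0 := by
    rw [hxk 0 (by omega), hx']
    show (if 4 = 4 then x 0 else x 4) = x 0
    rw [if_pos rfl]
  have B' := B.congr hxk
  obtain ⟨w, v, D⟩ := NJ.rg h (by omega) R B' hβ c0 c1 c2 hx4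
  obtain ⟨y0, g1, g2, -, h0⟩ := NJ.bad_uniq h R B' hβ c0 D
  obtain ⟨a1, a2⟩ := NJ.PA_le h (by omega) R hY h0
  rw [hxk 2 (by omega)] at g1
  rw [hxk 3 (by omega)] at g2
  refine ⟨?_, a1, fun q => ⟨y0, g1, g2, a2 q⟩⟩
  unfold PC
  refine sum_eq_zero fun z hz => ?_
  rw [mem_filter] at hz
  obtain ⟨q, hq, h1, -, h2⟩ := NJ.PZ_V h (by omega) R hY hz.1 hz.2 B'
  have h3 := (mem_PZ.1 hz.1).2.2
  rw [sa_K5 h R D.Q] at h2
  have h4 : sz (i + 1) K V z ≤ 1 := by
    rw [h2]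
    split_ifs <;> norm_num
  omega

end pay

section defs

variable (P : Type u) [Fintype P] [PartialOrder P] [DecidableEq P]

/-- INPUT of step 0, level 8: naturals -/
def HNatE : Prop :=
  ∀ (r i : ℕ) (t : Tops P) (m : ℕ) (x : ℕ → P) (c : ℕ → ℤ) (β : ℤ), i + 1 = 8 →
    CB P r (i + 1) → RowB P (i + 1) t m x c β → β = 0 → (∀ k, k < m → c k = 0) → 0 ≤ Ue i t

/-- INPUT of step 0, level 8: [DL], at least four sites, the doubled end closed -/
def HClosedE : Prop :=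
  ∀ (r i : ℕ) (K : Finset P) (psi : P → P) (t : Tops P) (m : ℕ) (x : ℕ → P) (c : ℕ → ℤ) (β : ℤ)
    (lo hi : ℕ → ℕ) (e : ℕ → ℕ → P), i + 1 = 8 → CB P r (i + 1) →
    Red P (i + 1) K psi → RowB P (i + 1) t m x c β → Cp.Comp (i + 1) (t : P) lo hi e →
    Shape (i + 1) lo hi → 3 ≤ m → IsDL m c β → (uc (x 0)).card = 2 →
    0 ≤ Ue i t ∨ (-4 ≤ Ue i t ∧ GoodJ (i + 1) t)

/-- INPUT of step 0, level 8: [DL], four sites, both ends single (the late words ending with OO) -/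
def HOpen3E : Prop :=
  ∀ (r i : ℕ) (K : Finset P) (psi : P → P) (t : Tops P) (x : ℕ → P) (c : ℕ → ℤ) (β : ℤ)
    (lo hi : ℕ → ℕ) (e : ℕ → ℕ → P) (a : ℕ), i + 1 = 8 → CB P r (i + 1) →
    Red P (i + 1) K psi → RowB P (i + 1) t 3 x c β → Cp.Comp (i + 1) (t : P) lo hi e →
    Shape (i + 1) lo hi → LateC (i + 1) a lo hi → IsDL 3 c β → (uc (x 0)).card = 1 →
    (uc (x 3)).card = 1 → UE (i + 1) (cext (i + 1 + 1) (topOf : P → Tops P) t) x 2 = ∅ →
    (∀ k, k ≤ 3 → x k = e (i + 1) (lo (i + 1) + k)) →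
    0 ≤ Ue i t ∨ (-4 ≤ Ue i t ∧ GoodJ (i + 1) t)

/-- INPUT of step 0, level 8: the rotated rows with four sites (for `pay_ring`: four times the
number of the joins to be paid) -/
def HRing3E : Prop :=
  ∀ (r i : ℕ) (K : Finset P) (psi : P → P) (Y V : P → P) (t : Tops P) (x : ℕ → P) (c : ℕ → ℤ)
    (β : ℤ) (lo hi : ℕ → ℕ) (e : ℕ → ℕ → P) (a : ℕ), i + 1 = 8 → CB P r (i + 1) →
    Red P (i + 1) K psi → YW (i + 1) Y V → RowB P (i + 1) t 3 x c β →
    Cp.Comp (i + 1) (t : P) lo hi e → Shape (i + 1) lo hi → LateC (i + 1) a lo hi →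
    β = 1 → c 0 = -1 → (∀ k, 1 ≤ k → k < 3 → c k = 0) → (uc (x 0)).card = 1 →
    (uc (x 3)).card = 1 → pen (x 0) ≠ ∅ → (∀ k, k ≤ 3 → x k = e (i + 1) (hi (i + 1) - k)) →
    4 * PA (i + 1) K Y V t ≤ Ue i t ∨
      (4 * PA (i + 1) K Y V t ≤ Ue i t + 4 ∧ GoodJ (i + 1) t)

/-- INPUT of step 0, level 8: three sites with a defect -/
def HTwoE : Prop :=
  ∀ (r i : ℕ) (K : Finset P) (psi : P → P) (Y V : P → P) (t : Tops P) (x : ℕ → P) (c : ℕ → ℤ)
    (β : ℤ) (lo hi : Tops P → ℕ → ℕ) (e : Tops P → ℕ → ℕ → P), i + 1 = 8 → HCCu P →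
    HTail P → CB P r (i + 1) → Red P (i + 1) K psi → YW (i + 1) Y V →
    (∀ t : Tops P, Cp.Comp (i + 1) (t : P) (lo t) (hi t) (e t)) →
    (∀ t : Tops P, Shape (i + 1) (lo t) (hi t)) → RowB P (i + 1) t 2 x c β →
    ¬ (β = 0 ∧ ∀ k, k < 2 → c k = 0) → Qe i K Y V t

/-- INPUT of step 0, level 8: two stars -/
def HSixE : Prop :=
  ∀ (r i : ℕ) (K : Finset P) (psi : P → P) (Y V : P → P) (t : Tops P) (m : ℕ) (x : ℕ → P)
    (c : ℕ → ℤ) (β : ℤ) (lo hi : ℕ → ℕ) (e : ℕ → ℕ → P), i + 1 = 8 → CB P r (i + 1) →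
    Red P (i + 1) K psi → YW (i + 1) Y V → RowB P (i + 1) t m x c β →
    Cp.Comp (i + 1) (t : P) lo hi e → Shape (i + 1) lo hi → Pat6 m c β →
    4 * PC (i + 1) K Y V t < Ue i t

/-- THE INPUTS OF STEP 0 AT THE LEVEL 8 -/
structure LeavesE : Prop where
  nat : HNatE P
  closed : HClosedE P
  open3 : HOpen3E P
  ring3 : HRing3E P
  two : HTwoE P
  six : HSixE P

end defs

variable {P : Type u} [Fintype P] [PartialOrder P] [DecidableEq P] {r i j : ℕ}

variable {m : ℕ} {x : ℕ → P} {c : ℕ → ℤ} {β : ℤ} {t : Tops P}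

variable {K : Finset P} {psi : P → P} {Y V : P → P}

section main

variable (hL : LeavesE P) (h : CB P r (i + 1)) (h8 : i + 1 = 8)
  (R : Red P (i + 1) K psi) (hY : YW (i + 1) Y V)

include hL h h8 R hY

end main

end Pool.Agent.GaussPoset.EK

end

/-! From `Pool.Agent.W_448n13_h16.NtA` -/

section

/-!
MP_448cb3_co, G2, step 0 at the level 13: THE TWO IDENTITIES and the bound of a part.  helper16.

`j = i + 1`.  `S1 t = Ut i t + G0 i K Y t` (weights `Wst`) has total at most zero and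
`S2 t = 2 * TT (i + 1) t + Ge i K Y V t` has total zero.  Every part gets `5 * S1 + 4 * S2`.
-/

namespace Pool.Agent.GaussPoset.EK

set_option linter.unusedSectionVars false

open Finset Win St Polynomial Wd Win.W4

universe u

section defs

variable {P : Type u} [Fintype P] [PartialOrder P] [DecidableEq P]

/-- the value of a part for the two identities -/
noncomputable def S5 (i : ℕ) (K : Finset P) (Y V : P → P) (t : Tops P) : ℤ :=
  5 * (Ut i t + G0 i K Y t) + 4 * (2 * TT (i + 1) t + Ge i K Y V t)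

/-- the lower bound without the joins -/
noncomputable def R5 (i : ℕ) (K : Finset P) (Y V : P → P) (t : Tops P) : ℤ :=
  5 * Ut i t + 8 * TT (i + 1) t - 16 * (PA (i + 1) K Y V t + PC (i + 1) K Y V t)

/-- the bound of the leaves -/
def Q5 (i : ℕ) (K : Finset P) (Y V : P → P) (t : Tops P) : Prop :=
  0 ≤ R5 i K Y V t ∨ (-56 ≤ R5 i K Y V t ∧ LightJ i K t)

end defs

variable {P : Type u} [Fintype P] [PartialOrder P] [DecidableEq P] {r i j : ℕ}

variable {m : ℕ} {x : ℕ → P} {c : ℕ → ℤ} {β : ℤ} {t : Tops P}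

variable {K : Finset P} {psi : P → P} {Y V : P → P}

section main

variable (h : NJ P r (i + 1)) (hi1 : 1 ≤ i) (R : Red P (i + 1) K psi) (hY : YW (i + 1) Y V)

include h hi1 R hY

/-- the first identity: the total is at most zero -/
theorem NJ.sum_first (t0 : Tops P) : ∑ t : Tops P, (Ut i t + G0 i K Y t) ≤ 0 := by
  classical
  have h1 := Pn.nj_total h rfl hi1 (NJ.lv_pos h hi1 t0) R Wst
  have h2 := Pn.sum_Lm (i := i) (j := i + 1) Wst (g0 i K Y)
  have h3 : ∑ z ∈ K2.Z2 (i + 1) (topOf : P → Tops P), ∑ y ∈ uc z, g0 i K Y z y =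
      ∑ z ∈ K2.Z2 (i + 1) (topOf : P → Tops P), Pn.cst Wst i (i + 1) K z :=
    Finset.sum_congr rfl fun z hz => hY.sum_g0 hz
  have h4 : ∑ t : Tops P, Pn.Lm Wst (g0 i K Y) i (i + 1) t =
      ∑ t : Tops P, (Ut i t + G0 i K Y t) := Finset.sum_congr rfl fun t _ => Lm_g0 t
  have h5 : ∑ z ∈ Pn.mx (P := P) i, Pn.Wn i (topOf : P → Tops P) 3 z ≤ 0 :=
    Finset.sum_nonpos fun z hz => Pn.nj_mixed8 h rfl hi1 hz
  have h6 : (0 : ℤ) ≤ Wst.a8 := by
    unfold Wst
    norm_num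
  have h7 := mul_nonpos_of_nonneg_of_nonpos h6 h5
  rw [h3] at h2
  rw [← h4, h2]
  linarith

/-- the second identity: the total is zero -/
theorem NJ.sum_second : ∑ t : Tops P, (2 * TT (i + 1) t + Ge i K Y V t) = 0 := by
  classical
  have h1 := NJ.total h (by omega) R
  rw [Pn.nj_image h] at h1
  have h2 : ∑ t : Tops P, Ge i K Y V t =
      ∑ z ∈ K2.Z2 (i + 1) (topOf : P → Tops P), ∑ q ∈ uc z, ge i K Y V z q :=
    Pn.sum_Xt (K2.Z2 (i + 1) (topOf : P → Tops P)) (ge i K Y V)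
  have h3 : ∑ z ∈ K2.Z2 (i + 1) (topOf : P → Tops P), ∑ q ∈ uc z, ge i K Y V z q =
      2 * ∑ z ∈ K2.Z2 (i + 1) (topOf : P → Tops P), JW (i + 1) K z := by
    rw [mul_sum]
    refine Finset.sum_congr rfl fun z hz => ?_
    rw [hY.sum_ge hz]
    exact cste_val
  rw [sum_add_distrib, ← mul_sum, h2, h3]
  linarith

/-- THE TOTAL of the two identities -/
theorem NJ.sum_S5 (t0 : Tops P) : ∑ t : Tops P, S5 i K Y V t ≤ 0 := by
  have h1 := NJ.sum_first h hi1 R hY t0
  have h2 := NJ.sum_second h hi1 R hY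
  have h3 : ∑ t : Tops P, S5 i K Y V t = 5 * ∑ t : Tops P, (Ut i t + G0 i K Y t) +
      4 * ∑ t : Tops P, (2 * TT (i + 1) t + Ge i K Y V t) := by
    rw [mul_sum, mul_sum, ← sum_add_distrib]
    rfl
  rw [h3, h2]
  linarith

/-- THE END: if every part is nonnegative then every part is zero -/
theorem NJ.S5_zero (hpos : ∀ t : Tops P, 0 ≤ S5 i K Y V t) (t : Tops P) : S5 i K Y V t = 0 := by
  have h1 := NJ.sum_S5 h hi1 R hY t
  have h2 := Finset.sum_nonneg (fun (t : Tops P) (_ : t ∈ (univ : Finset (Tops P))) => hpos t)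
  exact (Finset.sum_eq_zero_iff_of_nonneg (fun t _ => hpos t)).1 (le_antisymm h1 h2) t (mem_univ t)

/-- the joins only help -/
theorem NJ.S5_ge (t : Tops P) : R5 i K Y V t ≤ S5 i K Y V t := by
  have h1 := NJ.G0_nonneg h hi1 R hY t
  have h2 := (NJ.Ge_ge h hi1 R hY t).1
  unfold R5 S5
  linarith

/-- a light join is not bad -/
theorem NJ.light_good (hl : LightJ i K t) : GoodJ (i + 1) t := by
  obtain ⟨z, y, v, S, ht, ha, -⟩ := hl
  refine ⟨z, y, v, S, ht, fun hb => ?_⟩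
  have := sa_badR h R hb
  omega

/-- the gain of a light join -/
theorem NJ.S5_light (hl : LightJ i K t) : R5 i K Y V t + 56 ≤ S5 i K Y V t := by
  have h1 := NJ.G0_light h hi1 R hY hl
  have h2 := (NJ.Ge_ge h hi1 R hY t).2 (NJ.light_good h hi1 R hY hl)
  unfold R5 S5
  linarith

/-- the value of a part -/
theorem NJ.Q5_nonneg (hQ : Q5 i K Y V t) : 0 ≤ S5 i K Y V t := by
  rcases hQ with h1 | ⟨h1, h2⟩
  · exact h1.trans (NJ.S5_ge h hi1 R hY t)
  · have := NJ.S5_light h hi1 R hY h2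
    linarith

/-- a small part which pays nothing -/
theorem NJ.Q5_of_Q0 (h6 : ∀ (m : ℕ) (x : ℕ → P) (c : ℕ → ℤ) (β : ℤ),
    RowB P (i + 1) t m x c β → ¬ Pat6 m c β) (hQ : Q0 i K t)
    (hp : 2 * (PA (i + 1) K Y V t + PC (i + 1) K Y V t) ≤ TT (i + 1) t) : Q5 i K Y V t := by
  obtain ⟨m, x, c, β, B⟩ := NJ.rowB h (show 2 ≤ i + 1 by omega) t
  have hs : Small (i + 1) (topOf : P → Tops P) t :=
    (B.small h.g.H h.split).resolve_right (h6 m x c β B)
  unfold Q5 R5
  rw [NJ.Ut_small h hi1 R hs]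
  rcases hQ with h1 | ⟨h1, h2⟩
  · left
    linarith
  · right
    exact ⟨by linarith, h2⟩

end main

end Pool.Agent.GaussPoset.EK

end

/-! From `Pool.Agent.W_448n13_h16.NtB` -/

section

/-!
MP_448cb3_co, G2, step 0 at the level 13: THE LEAVES AND THE END.  helper16.
-/

namespace Pool.Agent.GaussPoset.EK

set_option linter.unusedSectionVars false

open Finset Win St Polynomial Wd Win.W4

universe u

section defs

variable (P : Type u) [Fintype P] [PartialOrder P] [DecidableEq P]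

/-- INPUT of the level 13: naturals -/
def HNatT : Prop :=
  ∀ (r i : ℕ) (t : Tops P) (m : ℕ) (x : ℕ → P) (c : ℕ → ℤ) (β : ℤ), i + 1 = 13 →
    CB P r (i + 1) → RowB P (i + 1) t m x c β → β = 0 → (∀ k, k < m → c k = 0) →
    0 ≤ TT (i + 1) t

/-- INPUT of the level 13: [DL], at least four sites, the doubled end closed -/
def HClosedT : Prop :=
  ∀ (r i : ℕ) (K : Finset P) (psi : P → P) (t : Tops P) (m : ℕ) (x : ℕ → P) (c : ℕ → ℤ) (β : ℤ)
    (lo hi : ℕ → ℕ) (e : ℕ → ℕ → P), i + 1 = 13 → CB P r (i + 1) →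
    Red P (i + 1) K psi → RowB P (i + 1) t m x c β → Cp.Comp (i + 1) (t : P) lo hi e →
    Shape (i + 1) lo hi → 3 ≤ m → IsDL m c β → (uc (x 0)).card = 2 →
    0 ≤ 5 * Ut i t + 8 * TT (i + 1) t ∨
      (-56 ≤ 5 * Ut i t + 8 * TT (i + 1) t ∧ LightJ i K t)

/-- INPUT of the level 13: [DL], four sites, both ends single (the late words ending with OO) -/
def HOpen3T : Prop :=
  ∀ (r i : ℕ) (t : Tops P) (x : ℕ → P) (c : ℕ → ℤ) (β : ℤ)
    (lo hi : ℕ → ℕ) (e : ℕ → ℕ → P) (a : ℕ), i + 1 = 13 → CB P r (i + 1) →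
    RowB P (i + 1) t 3 x c β → Cp.Comp (i + 1) (t : P) lo hi e →
    Shape (i + 1) lo hi → LateC (i + 1) a lo hi → IsDL 3 c β → (uc (x 0)).card = 1 →
    (uc (x 3)).card = 1 → UE (i + 1) (cext (i + 1 + 1) (topOf : P → Tops P) t) x 2 = ∅ →
    (∀ k, k ≤ 3 → x k = e (i + 1) (lo (i + 1) + k)) → 0 ≤ TT (i + 1) t

/-- INPUT of the level 13: the rotated rows with four sites -/
def HRing3T : Prop :=
  ∀ (r i : ℕ) (t : Tops P) (x : ℕ → P) (c : ℕ → ℤ)
    (β : ℤ) (lo hi : ℕ → ℕ) (e : ℕ → ℕ → P) (a : ℕ), i + 1 = 13 → CB P r (i + 1) →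
    RowB P (i + 1) t 3 x c β →
    Cp.Comp (i + 1) (t : P) lo hi e → Shape (i + 1) lo hi → LateC (i + 1) a lo hi →
    β = 1 → c 0 = -1 → (∀ k, 1 ≤ k → k < 3 → c k = 0) → (uc (x 0)).card = 1 →
    (uc (x 3)).card = 1 → pen (x 0) ≠ ∅ → (∀ k, k ≤ 3 → x k = e (i + 1) (hi (i + 1) - k)) →
    4 ≤ Vt i t ∧ 2 ≤ TT (i + 1) t

/-- INPUT of the level 13: three sites with a defect -/
def HTwoT : Prop :=
  ∀ (r i : ℕ) (K : Finset P) (psi : P → P) (Y V : P → P) (t : Tops P) (x : ℕ → P) (c : ℕ → ℤ)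
    (β : ℤ), i + 1 = 13 → CB P r (i + 1) → Red P (i + 1) K psi → YW (i + 1) Y V →
    RowB P (i + 1) t 2 x c β → ¬ (β = 0 ∧ ∀ k, k < 2 → c k = 0) →
    2 * (PA (i + 1) K Y V t + PC (i + 1) K Y V t) ≤ TT (i + 1) t

/-- INPUT of the level 13: two stars -/
def HSixT : Prop :=
  ∀ (r i : ℕ) (K : Finset P) (psi : P → P) (Y V : P → P) (t : Tops P) (m : ℕ) (x : ℕ → P)
    (c : ℕ → ℤ) (β : ℤ) (lo hi : Tops P → ℕ → ℕ) (e : Tops P → ℕ → ℕ → P), i + 1 = 13 → HCCu P →
    HTail P → CB P r (i + 1) → Red P (i + 1) K psi → YW (i + 1) Y V →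
    (∀ t : Tops P, Cp.Comp (i + 1) (t : P) (lo t) (hi t) (e t)) →
    (∀ t : Tops P, Shape (i + 1) (lo t) (hi t)) → RowB P (i + 1) t m x c β → Pat6 m c β →
    0 < R5 i K Y V t ∨ (0 ≤ R5 i K Y V t ∧ v3 (i + 1) t ≠ 0) ∨
      (-40 < R5 i K Y V t ∧ LightJ i K t)

/-- THE INPUTS OF THE LEVEL 13 -/
structure Leaves13 : Prop where
  nat : HNatT P
  closed : HClosedT P
  open3 : HOpen3T P
  ring3 : HRing3T P
  two : HTwoT P
  six : HSixT P

end defs

variable {P : Type u} [Fintype P] [PartialOrder P] [DecidableEq P] {r i j : ℕ}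

variable {m : ℕ} {x : ℕ → P} {c : ℕ → ℤ} {β : ℤ} {t : Tops P}

variable {K : Finset P} {psi : P → P} {Y V : P → P}

section main

variable (hL : Leaves0 P) (hM : Leaves13 P) (h : CB P r (i + 1)) (h13 : i + 1 = 13)
  (R : Red P (i + 1) K psi) (hY : YW (i + 1) Y V)

include hL hM h h13 R hY

/-- A ROTATED ROW has a positive value -/
theorem CB.ring5_pos (hC : HCCu P) (hT : HTail P) {lo hi : Tops P → ℕ → ℕ}
    {e : Tops P → ℕ → ℕ → P} (C : ∀ t : Tops P, Cp.Comp (i + 1) (t : P) (lo t) (hi t) (e t))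
    (hS : ∀ t : Tops P, Shape (i + 1) (lo t) (hi t)) (B : RowB P (i + 1) t m x c β)
    (hm : 3 ≤ m) (hb1 : β = 1) : 0 < R5 i K Y V t := by
  classical
  have hn := h.nj
  have hi1 : 1 ≤ i := by omega
  rcases B.cases hn hm with hN | ⟨x', c', B', hB'⟩
  · obtain ⟨g1, g2⟩ := B.nat_zero hn hN
    have := g2 (by omega)
    omega
  have hd : Dft m c' β := by
    rcases hB' with ⟨c0, c1, hb, h2 | h2⟩ | ⟨hb, c0, c1⟩
    · exact Or.inl ⟨c0, c1, hb, h2⟩
    · omega
    · exact Or.inr ⟨hb, c0, c1⟩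
  rcases CB.shape2 hC h (by omega) C hS B' hm with ⟨g1, g2⟩ | ⟨a, L⟩
  · exact absurd hb1 g2
  · rcases late_class hT h (by omega) C hS B' hm L hd with ⟨hI, g3⟩ | ⟨hI, hm3, g1, g2, g3, g4⟩ |
      ⟨hm3, hb, c0, c1, hp, hr⟩
    · have := hI.1
      omega
    · have := hI.1
      omega
    · subst hm3
      obtain ⟨f1, f2⟩ := B'.ends (by rw [hb]; norm_num)
      obtain ⟨h1, h2⟩ := hM.ring3 r i t x' c' β (lo t) (hi t) (e t) a h13 h B' (C t) (hS t) L hb
        c0 c1 f1 f2 hp hr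
      obtain ⟨h3, h4, -⟩ := NJ.pay_ring hn hi1 R hY B' hb c0 (c1 1 le_rfl (by omega))
        (c1 2 (by omega) (by omega))
      have hs : Small (i + 1) (topOf : P → Tops P) t := by
        rcases B'.small hn.g.H hn.split with q | q
        · exact q
        · have := q.2.1
          omega
      have h5 := q_nonneg (v3 (i + 1) t)
      unfold R5
      rw [NJ.Ut_small hn hi1 R hs, h3]
      unfold Qt
      linarith

/-- EVERY PART WITHOUT TWO STARS -/
theorem CB.q5_all (hC : HCCu P) (hT : HTail P) {lo hi : Tops P → ℕ → ℕ}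
    {e : Tops P → ℕ → ℕ → P} (C : ∀ t : Tops P, Cp.Comp (i + 1) (t : P) (lo t) (hi t) (e t))
    (hS : ∀ t : Tops P, Shape (i + 1) (lo t) (hi t)) (t : Tops P)
    (h6 : ∀ (m : ℕ) (x : ℕ → P) (c : ℕ → ℤ) (β : ℤ),
      RowB P (i + 1) t m x c β → ¬ Pat6 m c β) : Q5 i K Y V t := by
  classical
  have hn := h.nj
  have hi1 : 1 ≤ i := by omega
  have free : Q0 i K t → (PA (i + 1) K Y V t = 0 ∧ PC (i + 1) K Y V t = 0) →
      0 ≤ TT (i + 1) t → Q5 i K Y V t := fun q1 q2 q3 =>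
    NJ.Q5_of_Q0 hn hi1 R hY h6 q1 (by rw [q2.1, q2.2]; linarith)
  have natc : ∀ (m : ℕ) (x : ℕ → P) (c : ℕ → ℤ) (β : ℤ), RowB P (i + 1) t m x c β → β = 0 →
      (∀ k, k < m → c k = 0) → Q5 i K Y V t := fun m x c β B hβ hc =>
    free (Q0_of_Vt (hL.nat r i t m x c β hi1 h B hβ hc)) (NJ.pay_nat hn hi1 R hY B hc hβ)
      (hM.nat r i t m x c β h13 h B hβ hc)
  have clo : ∀ (m : ℕ) (x : ℕ → P) (c : ℕ → ℤ) (β : ℤ), RowB P (i + 1) t m x c β → 3 ≤ m →
      IsDL m c β → (uc (x 0)).card = 2 → Q5 i K Y V t := by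
    intro m x c β B hm hI hu
    obtain ⟨q1, q2⟩ := NJ.pay_dl hn hi1 R hY B hm hI
    unfold Q5 R5
    rw [q1, q2]
    rcases hM.closed r i K psi t m x c β (lo t) (hi t) (e t) h13 h R B (C t) (hS t) hm hI hu with
      h1 | ⟨h1, h2⟩
    · left
      linarith
    · right
      exact ⟨by linarith, h2⟩
  obtain ⟨m, x, c, β, B⟩ := NJ.rowB hn (by omega) t
  rcases Nat.lt_or_ge m 3 with hm | hm
  · by_cases hnat : β = 0 ∧ ∀ k, k < m → c k = 0
    · exact natc m x c β B hnat.1 hnat.2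
    have hm2 : m = 2 := by
      rcases B.pat with ⟨p1, p2⟩ | ⟨p0, -⟩ | ⟨p0, -⟩ | ⟨p0, -⟩ | ⟨p0, -⟩ | ⟨p0, -⟩ | ⟨p0, -⟩ | ⟨p0, -⟩
      · exact absurd ⟨p1, p2⟩ hnat
      all_goals omega
    subst hm2
    refine NJ.Q5_of_Q0 hn hi1 R hY h6
      (hL.two r i K psi t x c β lo hi e (by omega) (by omega) hC hT h R C hS B hnat) ?_
    exact hM.two r i K psi Y V t x c β h13 h R hY B hnat
  rcases B.cases hn hm with hN | ⟨x', c', B', hB'⟩
  · obtain ⟨g1, g2⟩ := B.nat_zero hn hN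
    exact natc m x c β B (g2 (by omega)) g1
  have hd : Dft m c' β := by
    rcases hB' with ⟨c0, c1, hb, h2 | h2⟩ | ⟨hb, c0, c1⟩
    · exact Or.inl ⟨c0, c1, hb, h2⟩
    · exact absurd h2 (h6 m x' c' β B')
    · exact Or.inr ⟨hb, c0, c1⟩
  rcases CB.shape2 hC h (by omega) C hS B' hm with ⟨g1, g2⟩ | ⟨a, L⟩
  · rcases hd with ⟨c0, c1, hb, h2⟩ | ⟨hb, -⟩
    · have hI : IsDL m c' β := ⟨hb, c0, c1, h2⟩
      rcases g1 c0 with g3 | ⟨S, g4, g5⟩
      · exact clo m x' c' β B' hm hI g3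
      · exfalso
        omega
    · exact absurd hb g2
  · rcases late_class hT h (by omega) C hS B' hm L hd with ⟨hI, g3⟩ | ⟨hI, hm3, g1, g2, g3, g4⟩ |
      ⟨hm3, hb, c0, c1, hp, hr⟩
    · exact clo m x' c' β B' hm hI g3
    · subst hm3
      exact free (hL.open3 r i K psi t x' c' β (lo t) (hi t) (e t) a (by omega) (by omega) h R B'
        (C t) (hS t) L hI g1 g2 g3 g4) (NJ.pay_dl hn hi1 R hY B' hm hI)
        (hM.open3 r i t x' c' β (lo t) (hi t) (e t) a h13 h B' (C t) (hS t) L hI g1 g2 g3 g4)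
    · left
      exact (CB.ring5_pos hL hM h h13 R hY hC hT C hS B' hm hb).le

end main

/-- STEP 0 at the level 13: no component with two stars -/
theorem no6_thirteen (hC : HCCu P) (hT : HTail P) (hL : Leaves0 P) (hM : Leaves13 P) :
    ∀ r j, j = 13 → CB P r j → No6 P j := by
  classical
  intro r j h13 h t m x c β B hp
  obtain ⟨i, rfl⟩ : ∃ i, j = i + 1 := ⟨j - 1, by omega⟩
  have hi1 : 1 ≤ i := by omega
  have hn := h.nj
  obtain ⟨lo, hi, e, C, hS⟩ := hsh (P := P) r (i + 1) hn.g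
  obtain ⟨K, psi, R⟩ := exists_red P (i + 1)
  obtain ⟨Y, V, hY⟩ := exists_YW P (i + 1)
  have six : ∀ (t : Tops P) (m : ℕ) (x : ℕ → P) (c : ℕ → ℤ) (β : ℤ),
      RowB P (i + 1) t m x c β → Pat6 m c β →
      0 < S5 i K Y V t ∨ (0 ≤ S5 i K Y V t ∧ v3 (i + 1) t ≠ 0) := by
    intro t m x c β B hp
    have h2 := NJ.S5_ge hn hi1 R hY t
    rcases hM.six r i K psi Y V t m x c β lo hi e h13 hC hT h R hY C hS B hp with
      h1 | ⟨h1, h3⟩ | ⟨h1, h3⟩
    · left
      linarith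
    · right
      exact ⟨by linarith, h3⟩
    · left
      have := NJ.S5_light hn hi1 R hY h3
      linarith
  have hpos : ∀ t : Tops P, 0 ≤ S5 i K Y V t := by
    intro t
    by_cases h6 : ∀ (m : ℕ) (x : ℕ → P) (c : ℕ → ℤ) (β : ℤ),
        RowB P (i + 1) t m x c β → ¬ Pat6 m c β
    · exact NJ.Q5_nonneg hn hi1 R hY (CB.q5_all hL hM h h13 R hY hC hT C hS t h6)
    · push Not at h6
      obtain ⟨m, x, c, β, B, hp⟩ := h6
      rcases six t m x c β B hp with h1 | ⟨h1, -⟩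
      · exact h1.le
      · exact h1
  have hz : ∀ t : Tops P, S5 i K Y V t = 0 := NJ.S5_zero hn hi1 R hY hpos
  -- no bad double
  have hbad : ∀ y : P, ¬ BadR P (i + 1) y := by
    rintro y ⟨m', x', c', β', B', hm', hb', -⟩
    have h1 := CB.ring5_pos hL hM h h13 R hY hC hT C hS B' hm' hb'
    have h2 := NJ.S5_ge hn hi1 R hY (topOf y)
    have h3 := hz (topOf y)
    linarith
  rcases six t m x c β B hp with h1 | ⟨-, h1⟩
  · have := hz t
    linarith
  · have h2 := ((NJ.w3_zero (K := K) (psi := psi) hn (by omega) R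
      (fun z y v _ _ hb => absurd hb (hbad y))).1 t).1
    exact h1 h2

end Pool.Agent.GaussPoset.EK

end

/-! From `Pool.Agent.W_448n13_h53.NtR` -/

section

/-!
# MP_448cb3_co, case B, `j = 13`: the functional `TT` of the window `j` of a rotated row with four sites
is at least two (helper53)
-/

namespace Pool.Agent.GaussPoset.Win.W4

set_option linter.unusedSectionVars false

open Finset
open Pool.Agent.GaussPoset.Win.SO (PN vp con on mem_PN vp_PD vp_PU)

universe u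

variable {P : Type u} [Fintype P] [PartialOrder P] [DecidableEq P] {r i : ℕ}
variable {psi : P → P} {C K : Finset P} {w v : P} {x : ℕ → P}

/-- the arithmetic -/
lemma R3t_ar (n0 n1 n2 n2' n3 p1 : ℕ) (c1 c2 z s : ℤ) (h0 : n0 + n2' ≤ 1) (h1 : n1 ≤ 2)
    (h2 : n2 ≤ 2) (hp : p1 ≤ 1) (hq : n2' = 1 → p1 = 0)
    (hc1 : c1 ≤ 2 * s + n1 * (n1 - 1)) (hs : s ≤ if n1 = 0 then 0 else if n1 = 1 then 2 else 3)
    (hc2 : (n2 : ℤ) * (n2 - 1) ≤ c2) (hz : 0 ≤ z) :
    2 ≤ ((-(n0 : ℤ) + n1 + (n2 - n2') + n3) + (-(n0 : ℤ) + n1 + (n2 - n2') + n3) ^ 2 -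
      2 * (-(n0 : ℤ)) * (n2 - n2') - 2 * n1 * n3 -
      2 * p1 * (-(n0 : ℤ) + n1 + (n2 - n2') + n3) + ((p1 : ℤ) ^ 2 - p1) + 2 + 2 * 1 +
      2 * z - c1 + c2 - 2 * (-(n0 : ℤ) + (n2 - n2') - n1 - n3) -
      (n1 - (n2 - n2') - 1) * (4 + 2 * 1 + 2 * p1)) +
      6 * ((n1 : ℤ) - (n2 - n2') - 1) + 2 * ((n1 : ℤ) - (n2 - n2') - 1) ^ 2 := by
  have q3 : n3 = 0 ∨ n3 = 1 ∨ 2 ≤ n3 := by omega
  have f3 : (4 : ℤ) * n3 - 4 ≤ (n3 : ℤ) ^ 2 := by nlinarith [sq_nonneg ((n3 : ℤ) - 2)]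
  have q0 : (n0 = 0 ∧ n2' = 0) ∨ (n0 = 1 ∧ n2' = 0) ∨ (n0 = 0 ∧ n2' = 1 ∧ p1 = 0) := by omega
  have q1 : n1 = 0 ∨ n1 = 1 ∨ n1 = 2 := by omega
  have q2 : n2 = 0 ∨ n2 = 1 ∨ n2 = 2 := by omega
  have qp : p1 = 0 ∨ p1 = 1 := by omega
  rcases q0 with ⟨rfl, rfl⟩ | ⟨rfl, rfl⟩ | ⟨rfl, rfl, rfl⟩
  · rcases q1 with rfl | rfl | rfl <;> rcases q2 with rfl | rfl | rfl <;>
      rcases qp with rfl | rfl <;> norm_num at hc1 hs hc2 ⊢ <;>
      rcases q3 with rfl | rfl | q3 <;> (norm_num; linarith)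
  · rcases q1 with rfl | rfl | rfl <;> rcases q2 with rfl | rfl | rfl <;>
      rcases qp with rfl | rfl <;> norm_num at hc1 hs hc2 ⊢ <;>
      rcases q3 with rfl | rfl | q3 <;> (norm_num; linarith)
  · rcases q1 with rfl | rfl | rfl <;> rcases q2 with rfl | rfl | rfl <;>
      norm_num at hc1 hs hc2 ⊢ <;>
      rcases q3 with rfl | rfl | q3 <;> (norm_num; linarith)

/-- THE FUNCTIONAL OF THE WINDOW `j` of a rotated row with four sites -/
theorem Rg.Tt_ge (h : Rg r i K psi C w v x) (hp0 : pen (x 0) ≠ ∅)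
    (hp1 : UE i C x 2 ≠ ∅ → pen (x 1) = ∅) (hU : ∀ z ∈ UE i C x 2, ch i C z ≤ 0) :
    2 ≤ Lv i C + 6 * wv i C + 2 * wv i C ^ 2 := by
  classical
  have W := h.W
  have c1 : CH i C x 1 ≤ 2 * ∑ a ∈ DE i C x 1, ((pen a).card : ℤ) +
      (DE i C x 1).card * ((DE i C x 1).card - 1) := by
    rw [W.CH_split, W.sum_DE (by omega) h.dcv12, h.UE1, Finset.sum_empty, add_zero, mul_sum]
  obtain ⟨b1, b2⟩ := W.sum_pen_le (k := 1) (by omega) h.dcv12
  obtain ⟨b3, -⟩ := W.sum_pen_le (k := 2) (by omega) h.dcv23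
  have c2 : ((DE i C x 2).card : ℤ) * ((DE i C x 2).card - 1) ≤ CH i C x 2 := by
    rw [W.CH_split, W.sum_DE (by omega) h.dcv23]
    have g1 : 0 ≤ ∑ a ∈ DE i C x 2, (2 * ((pen a).card : ℤ)) :=
      sum_nonneg fun a _ => by positivity
    have g2 : 0 ≤ ∑ z ∈ UE i C x 2, vp i z * ch i C z := by
      refine sum_nonneg fun z hz => ?_
      rw [vp_PU (mem_UE.1 hz).2.1]
      have := hU z hz
      linarith
    linarith
  have u02 := W.ue_sum (i := i) (C := C) 0 2 (by omega) (by omega) (by omega)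
  have h9 := card_le_card (T4_subset i C)
  have hp0' := W.dc_le (k := 0) (by omega)
  have hd0 := h.deg0
  have hd1 := h.deg1
  have hp1' := W.dc_le (k := 1) (by omega)
  have p0 : (pen (x 0)).card = 1 := by
    have := card_pos.2 (nonempty_iff_ne_empty.2 hp0)
    omega
  have e2 : NE i C x 2 = ((DE i C x 2).card : ℤ) - (UE i C x 2).card := rfl
  have hz : (0 : ℤ) ≤ (Z4 i C).card - (T4 i C).card := by
    have : ((T4 i C).card : ℤ) ≤ (Z4 i C).card := by exact_mod_cast h9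
    linarith
  have key := R3t_ar (UE i C x 0).card (DE i C x 1).card (DE i C x 2).card (UE i C x 2).card
    (DE i C x 3).card (pen (x 1)).card (CH i C x 1) (CH i C x 2)
    ((Z4 i C).card - (T4 i C).card) (∑ a ∈ DE i C x 1, ((pen a).card : ℤ)) u02 b1 b3 (by omega)
    (fun h1 => by
      rw [hp1 (fun h2 => by rw [h2, card_empty] at h1; omega), card_empty]) c1 b2 c2 hz
  rw [h.w3_eq, h.L_form, h.NE0, h.NE1, e2, h.NE3, p0]
  push_cast
  linarith

end Pool.Agent.GaussPoset.Win.W4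

namespace Pool.Agent.GaussPoset.EK

set_option linter.unusedSectionVars false

open Finset Win St Polynomial Wd Win.W4

universe u

variable {P : Type u} [Fintype P] [PartialOrder P] [DecidableEq P] {r i j : ℕ}

variable {x : ℕ → P} {c : ℕ → ℤ} {β : ℤ} {t : Tops P} {lo hi : ℕ → ℕ} {e : ℕ → ℕ → P}

/-- a rotated row with four sites: `TT` is at least two -/
theorem NJ.ring_TT (h : NJ P r j) (hj : 2 ≤ j) (B : RowB P j t 3 x c β) (hβ : β = 1)
    (c0 : c 0 = -1) (c1 : c 1 = 0) (c2 : c 2 = 0) (C : Cp.Comp j (t : P) lo hi e)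
    (S : Shape j lo hi) (hp0 : pen (x 0) ≠ ∅) : 2 ≤ TT j t := by
  classical
  have hb : β ≠ 0 := by rw [hβ]; norm_num
  obtain ⟨K, psi, R⟩ := exists_red P j
  obtain ⟨x', hx'⟩ : ∃ x' : ℕ → P, x' = fun k => if k = 4 then x 0 else x k := ⟨_, rfl⟩
  have hxk : ∀ k, k ≤ 3 → x' k = x k := by
    intro k hk
    rw [hx']
    show (if k = 4 then x 0 else x k) = x k
    rw [if_neg (by omega)]
  have hx4 : x' 4 = x' 0 := by
    rw [hxk 0 (by omega), hx']
    show (if 4 = 4 then x 0 else x 4) = x 0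
    rw [if_pos rfl]
  have B' := B.congr hxk
  obtain ⟨w, v, D⟩ := NJ.rg h hj R B' hβ c0 c1 c2 hx4
  have hed : ∀ k, k ≤ 2 → ed x' k = ed x k := by
    intro k hk
    unfold ed
    rw [hxk k (by omega), hxk (k + 1) (by omega)]
  have hUE : UE j (cext (j + 1) (topOf : P → Tops P) t) x' 2 =
      UE j (cext (j + 1) (topOf : P → Tops P) t) x 2 := by
    unfold UE
    rw [hed 2 le_rfl]
  have key := D.Tt_ge (by rw [hxk 0 (by omega)]; exact hp0)
    (by
      rw [hUE, hxk 1 (by omega)]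
      exact fun hU => NJ.pen_one_zero h hj B hb C S hU)
    (by
      intro z hz
      obtain ⟨hzC, hzP, -⟩ := mem_UE.1 hz
      have h1 := D.W.ch_PU hzP hzC
      rw [hUE] at hz
      rw [NJ.upen_zero h hj B C S hz, card_empty] at h1
      push_cast at h1
      linarith)
  have hsm : Small j (topOf : P → Tops P) t := by
    refine (B.small h.g.H h.split).resolve_right fun hp => ?_
    have := hp.1
    omega
  rw [NJ.TT_small h hj R hsm]
  unfold W4.Tv
  linarith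

end Pool.Agent.GaussPoset.EK

end

/-! From `Pool.Agent.W_448n13_h53.NtO` -/

section

/-!
# MP_448cb3_co, case B, `j = 13`: the functional `TT` of the window `j` is nonnegative for the rows [DL]
with four sites and two single ends, and for the natural parts (helper53)
-/

namespace Pool.Agent.GaussPoset.EK

set_option linter.unusedSectionVars false

open Finset Win St Polynomial Wd Win.W4

universe u

variable {P : Type u} [Fintype P] [PartialOrder P] [DecidableEq P] {r i j : ℕ}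

variable {m : ℕ} {x : ℕ → P} {c : ℕ → ℤ} {β : ℤ} {t : Tops P}

/-- [DL] with four sites, two single ends: `TT` is nonnegative -/
theorem NJ.open3_TT (h : NJ P r j) (hj : 2 ≤ j) (B : RowB P j t 3 x c β) (hβ : β = 0)
    (c0 : c 0 = 1) (c1 : c 1 = -1) (c2 : c 2 = 0) (u3 : (uc (x 3)).card = 1)
    (hU : UE j (cext (j + 1) (topOf : P → Tops P) t) x 2 = ∅) : 0 ≤ TT j t := by
  classical
  obtain ⟨K, psi, R⟩ := exists_red P j
  have hc : ∀ k, 2 ≤ k → k < 3 → c k = 0 := fun k h1 h2 => by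
    obtain rfl : k = 2 := by omega
    exact c2
  obtain ⟨w, v, D⟩ := NJ.dlg h hj R B le_rfl hβ c0 c1 hc
  obtain ⟨n, h1, h2, h3, h4⟩ := D.L_low3 rfl hU
  have hs := NJ.small_dl h hj B hc
  have g2 := D.deg2
  have g3 := D.deg3' rfl
  have b2 := D.W.dc_le (k := 2) (by omega)
  have b3 := D.W.dc_le (k := 3) (by omega)
  have q2 : (pen (x 2)).card = 0 ∨ (pen (x 2)).card = 1 := by omega
  have q3 : (pen (x 3)).card = 0 ∨ (pen (x 3)).card = 1 := by omega
  rw [NJ.TT_small h hj R hs]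
  unfold W4.Tv
  rw [h3]
  rw [u3] at h4
  have hn : n = 0 ∨ n = 1 ∨ n = 2 := by omega
  rcases q2 with q2 | q2 <;> rw [q2] at h4 <;> rcases q3 with q3 | q3 <;> rw [q3] at h4 <;>
    rcases hn with rfl | rfl | rfl <;> push_cast at h4 ⊢ <;> linarith

/-- natural parts: `TT` is nonnegative -/
theorem NJ.nat_TT (h : NJ P r j) (hj : 2 ≤ j) (B : RowB P j t m x c β)
    (h0 : ∀ k, k < m → c k = 0) (hb : β = 0) : 0 ≤ TT j t := by
  classical
  obtain ⟨K, psi, R⟩ := exists_red P j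
  have hn := B.nat_of h h0 hb
  have Q := NJ.nat4 h hj R hn
  have hs : Small j (topOf : P → Tops P) t := by
    rcases B.small h.g.H h.split with h2 | h2
    · exact h2
    · exfalso
      obtain ⟨h3, -, h4, -⟩ := h2
      rw [h0 0 (by omega)] at h4
      norm_num at h4
  have hw : wv j (cext (j + 1) (topOf : P → Tops P) t) = 0 := by
    unfold wv I2.w3
    have h2 := Q.prof.mid 3 (by norm_num)
    apply I2.coeff_zero_of_dvd
      (a := (st j (cext (j + 1) (topOf : P → Tops P) t)).card + 1) _ (by omega)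
    rw [pow_succ', pow_two, mul_assoc]
    exact mul_dvd_mul_left _ h2
  have hF := NJ.nat_F h hj hn
  rw [NJ.TT_small h hj R hs]
  unfold W4.Tv Lv I2.Q4
  unfold Fn at hF
  have hw' := hw
  unfold wv at hw'
  rw [hw, hw']
  linarith

end Pool.Agent.GaussPoset.EK

end

/-! From `Pool.Agent.W_448n13_h53.NtW` -/

section

/-!
# MP_448cb3_co, case B, `j = 13`: the leaves HNatT, HOpen3T, HRing3T (helper53)
-/

namespace Pool.Agent.GaussPoset.EK

set_option linter.unusedSectionVars false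

open Finset Win St Polynomial Wd Win.W4

universe u

/-- the leaf HNatT -/
theorem hnatT (P : Type u) [Fintype P] [PartialOrder P] [DecidableEq P] : HNatT P := by
  intro r i t m x c β h13 hC B hβ hc
  exact NJ.nat_TT hC.nj (by omega) B hc hβ

/-- the leaf HOpen3T -/
theorem hopen3T (P : Type u) [Fintype P] [PartialOrder P] [DecidableEq P] : HOpen3T P := by
  intro r i t x c β lo hi e a h13 hC B C S L hI u0 u3 hU hor
  obtain ⟨hb, c0, c1, hc⟩ := hI
  exact NJ.open3_TT hC.nj (by omega) B hb c0 c1 (hc 2 le_rfl (by omega)) u3 hU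

/-- the leaf HRing3T -/
theorem hring3T (P : Type u) [Fintype P] [PartialOrder P] [DecidableEq P] : HRing3T P := by
  intro r i t x c β lo hi e a h13 hC B C S L hβ c0 c1 u0 u3 hp0 hor
  exact ⟨ring3_ge_four hC.nj (by omega) B C S L hβ c0 c1 u0 u3 hp0 hor,
    NJ.ring_TT hC.nj (by omega) B hβ c0 (c1 1 le_rfl (by omega)) (c1 2 (by omega) (by omega))
      C S hp0⟩

end Pool.Agent.GaussPoset.EK

end

/-! From `Pool.Agent.W_448six_h74.SkM` -/

section

/-!
MP_448cb3_co, G2, case B, step 0 at the level 13: a row with two stars, weights `5 W1 + 4 TT`.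
helper74.
-/

namespace Pool.Agent.GaussPoset.EK

set_option linter.unusedSectionVars false

open Finset Win St Polynomial Wd Win.W4

universe u

variable {P : Type u} [Fintype P] [PartialOrder P] [DecidableEq P] {r i j : ℕ}

variable {m : ℕ} {x : ℕ → P} {c : ℕ → ℤ} {β : ℤ} {t : Tops P}

variable {K : Finset P} {psi : P → P} {Y V : P → P}

/-- a part with two stars pays nothing -/
theorem NJ.pay_six (h : NJ P r (i + 1)) (hi1 : 1 ≤ i) (R : Red P (i + 1) K psi)
    (hY : YW (i + 1) Y V) (B : RowB P (i + 1) t m x c β) (hp : Pat6 m c β) :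
    PA (i + 1) K Y V t = 0 ∧ PC (i + 1) K Y V t = 0 :=
  NJ.pay_zero h hi1 R hY B (Or.inr hp.2.1) fun q hq hn => by
    rw [NJ.six_pen h (by omega) B hp hq] at hn
    exact absurd hn Finset.not_nonempty_empty

/-- A PART WITH TWO STARS at an odd level, weights `5 W1 + 4 TT` -/
theorem CB.six13 (hC : HCCu P) (hT : HTail P) (h : CB P r (i + 1)) (h5 : 5 ≤ i + 1)
    (ho : (i + 1) % 2 = 1) (R : Red P (i + 1) K psi) (hY : YW (i + 1) Y V)
    {lo hi : Tops P → ℕ → ℕ} {e : Tops P → ℕ → ℕ → P}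
    (C : ∀ t : Tops P, Cp.Comp (i + 1) (t : P) (lo t) (hi t) (e t))
    (hS : ∀ t : Tops P, Shape (i + 1) (lo t) (hi t)) (B : RowB P (i + 1) t m x c β)
    (hp : Pat6 m c β) :
    0 < 5 * Ut i t + 8 * TT (i + 1) t - 16 * (PA (i + 1) K Y V t + PC (i + 1) K Y V t) ∨
      (0 ≤ 5 * Ut i t + 8 * TT (i + 1) t - 16 * (PA (i + 1) K Y V t + PC (i + 1) K Y V t) ∧
        v3 (i + 1) t ≠ 0) ∨
      (-40 < 5 * Ut i t + 8 * TT (i + 1) t - 16 * (PA (i + 1) K Y V t + PC (i + 1) K Y V t) ∧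
        LightJ i K t) := by
  obtain ⟨p1, p2⟩ := NJ.pay_six h.nj (by omega) R hY B hp
  have h1 := CB.six_TT hC h (by omega) C hS B hp ho
  rw [p1, p2]
  rcases hsixq r i K psi t m x c β lo hi e h5 (by omega) hC hT h R C hS B hp with
    h2 | ⟨h2, h3⟩ | ⟨h2, h3⟩
  · left
    linarith
  · right
    left
    exact ⟨by linarith, h3⟩
  · right
    right
    exact ⟨by linarith, h3⟩

end Pool.Agent.GaussPoset.EK

end
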