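import Mathlib
import Pool.Agent.W_448zz_h61.Ns
import Pool.Agent.W_448zz_h61.M172
import Pool.Agent.W_448zz_h61.M181
import Pool.Agent.W_448zz_h61.M216
import Pool.Agent.W_448zz_h61.M270

/-! From `Pool.Agent.W_448f5_h53.F5B` -/

section

/-!
# No flip at the level 5: window 2, energy 12, the contradiction (MP_448cb3_co)
-/

namespace Pool.Agent.GaussPoset.F5

set_option linter.unusedSectionVars false

open Polynomial Finset Cp

universe u

variable {P : Type u} [Fintype P] [PartialOrder P] [DecidableEq P] {r : ℕ}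
  {N : Tops P → Finset P} {b : Tops P → ℕ} {θ : Tops P → P → ℕ}

/-- the numbers of a special element -/
lemma V5.fl_num (W : V5 r N b θ) {z : P} (hz : z ∈ bdR (unnat N)) (hl : lev z = 6)
    (hF : Fl N θ z) :
    cst 2 (hcan (unnat N) (fun x => θ (topOf x) x)) z = 12 ∧ nab 2 z = 2 ∧
      nab (2 + hcan (unnat N) (fun x => θ (topOf x) x) z) z = 1 ∧
      nst 2 (hcan (unnat N) (fun x => θ (topOf x) x)) z = 6 := by
  classical
  have H := W.gt.H
  obtain ⟨u, hu, hzu, hh⟩ := hcan_spec (θ := fun x => θ (topOf x) x) hz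
  obtain ⟨Nc, co, h0, h2, h1, y, hy, hcy, hP⟩ := hF
  have huy : u = y := hP.2 u hzu
  subst huy
  have hlc := h0.chart.lev u hy
  rw [hcy] at hlc
  simp only at hlc
  have htu : topOf u = topOf z := (W.topOf_eq (x := z) (hzu.1.le.trans (le_topOf u))
    (by omega)).symm
  have hth : θ (topOf u) u = 2 := by
    rw [htu, h2]
    unfold thS
    rw [if_neg (sd_not_junk h0.chart hy (by rw [hcy])), hcy]
    rfl
  have hlab : hcan (unnat N) (fun x => θ (topOf x) x) z = 3 := by
    rw [hh, hth]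
  have hn : ∀ k, k ≤ 5 → nab k z = min (k / 2) 1 + 1 - (k - 4) := by
    intro k hk
    rw [nab_pend hP (l := k) (by omega)]
    have h3 := stair_nab h0.chart hy (k := k) (by omega)
    rw [hcy] at h3
    simp only at h3
    omega
  refine ⟨?_, ?_, ?_, ?_⟩
  · rw [cst_eq, hlab, hl, Finset.sum_range_succ, ← hl, nab_self, hl]
    rw [Finset.sum_congr rfl (g := fun k => min 3 (k - 2) * (min (k / 2) 1 + 1 - (k - 4)))
      (fun k hk => by rw [mem_range] at hk; rw [hn k (by omega)])]
    decide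
  · rw [hn 2 (by omega)]
    decide
  · rw [hlab, hn (2 + 3) (by omega)]
    decide
  · rw [nst_eq, hlab]
    rw [Finset.sum_congr rfl (g := fun k => min ((2 + k) / 2) 1 + 1 - (2 + k - 4))
      (fun k hk => by rw [mem_range] at hk; rw [hn (2 + k) (by omega)])]
    decide

/-- all boundary elements are expensive or special -/
theorem V5.bd (W : V5 r N b θ) {z : P} (hz : z ∈ bdR (unnat N)) :
    12 < cst 2 (hcan (unnat N) (fun x => θ (topOf x) x)) z ∨ (lev z = 6 ∧ Fl N θ z) := by
  classical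
  have H := W.gt.H
  have hzR : z ∈ unnat N := (mem_filter.mp hz).1
  obtain ⟨u, hu, hzu, hh⟩ := hcan_spec (θ := fun x => θ (topOf x) x) hz
  have hlu := (H.covBy_iff.mp hzu).2
  have hz5 : 5 < lev z := by
    by_contra hcon
    exact W.low (not_lt.mp hcon) hzR
  rcases Nat.lt_or_ge 6 (lev z) with hl | hl
  · left
    have h5 := W.far.le_lev z hz
    rcases W.cases hu (by omega) with ⟨h1, h2⟩ | ⟨h1, h2, h3⟩
    · have h3 := sq_le_cst (i := 2) (h := hcan (unnat N) (fun x => θ (topOf x) x)) (z := z)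
        (by omega) (by rw [hh, h1]; omega) (by
          intro k hk hk2
          exact h2 z hzR hzu.le k (by omega) (by omega))
      refine lt_of_lt_of_le ?_ h3
      have : 5 * 5 ≤ (lev z - 2) ^ 2 := by
        rw [pow_two]
        exact Nat.mul_le_mul (by omega) (by omega)
      omega
    · have h7 := ct_cov (i := 2) (k := hcan (unnat N) (fun x => θ (topOf x) x) z) hzu.1
      rw [Nat.min_eq_left h5] at h7
      have h8 := sd_ct3 (u := u) (by omega) h2 h3
      have h9 := ct_mono (i := 2) (le_refl u)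
        (show 3 ≤ hcan (unnat N) (fun x => θ (topOf x) x) z by rw [hh]; exact h1)
      rw [cst_ct (k := hcan (unnat N) (fun x => θ (topOf x) x) z) rfl]
      rw [hh] at h7 h9 ⊢
      omega
  · rcases W.six hz (by omega) with h | h
    · exact Or.inl h
    · exact Or.inr ⟨by omega, h⟩

/-- no special element -/
theorem V5.kill (W : V5 r N b θ) {z : P} (hz : z ∈ bdR (unnat N)) (hl : lev z = 6)
    (hF : Fl N θ z) : False := by
  classical
  have H := W.gt.H
  set hf := hcan (unnat N) (fun x => θ (topOf x) x) with hhf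
  have hge : ∀ y ∈ bdR (unnat N), 12 ≤ cst 2 hf y := by
    intro y hy
    rcases W.bd hy with h | ⟨h, h'⟩
    · exact h.le
    · exact (W.fl_num hy h h').1.ge
  have hd := W.far.dvd_lead (n := 12) hge
  have hZ := dvd_Z W.gt.H.gauss 2 12
  set T := (bdR (unnat N)).filter (fun y => cst 2 hf y = 12) with hTdef
  have hTe : ∀ y ∈ T, nab 2 y = 2 ∧ nab (2 + hf y) y = 1 ∧ nst 2 hf y = 6 := by
    intro y hy
    rw [hTdef, mem_filter] at hy
    rcases W.bd hy.1 with h | ⟨h, h'⟩
    · rw [← hhf] at h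
      omega
    · exact (W.fl_num hy.1 h h').2
  have hzT : z ∈ T := by
    rw [hTdef, mem_filter]
    exact ⟨hz, (W.fl_num hz hl hF).1⟩
  have hcard : 2 ≤ (lv P 2).card := by
    have h3 := (hTe z hzT).1
    have h4 := nab_le z 2
    omega
  have hs := sign_sum_of_dvd (h := hf) T hZ hd (c0 := (lv P 2).card - 1) (by omega) (by
    intro y hy
    obtain ⟨h3, h4, -⟩ := hTe y hy
    rw [h3, h4]
    omega)
  have hTf : T.filter (fun y => (lv P 2).card - 1 + nab 2 y =
      (lv P 2).card + nab (2 + hf y) y) = T := by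
    refine Finset.filter_true_of_mem fun y hy => ?_
    obtain ⟨h3, h4, -⟩ := hTe y hy
    rw [h3, h4]
    omega
  rw [hTf, Finset.sum_congr rfl (g := fun _ => (1 : ℤ)) (fun y hy => by
    rw [(hTe y hy).2.2]
    norm_num)] at hs
  rw [Finset.sum_const, nsmul_eq_mul, mul_one] at hs
  have h' : T.card = 0 := by exact_mod_cast hs
  rw [Finset.card_eq_zero] at h'
  rw [h'] at hzT
  exact absurd hzT (Finset.notMem_empty z)

section One

variable {t : Tops P} {lo hi : ℕ → ℕ} {e : ℕ → ℕ → P}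

/-- pendants below the doubles of a stair -/
theorem stair_pen5 (h : Win.GoodTo P r 5) (C : Comp 5 (t : P) lo hi e)
    (S : StairShape 5 lo hi) {x z : P} (hx : lev x = 5) (hxt : x ≤ (t : P))
    (hx2 : (Win.uc x).card = 2) (hP : Pend z x) :
    ((ccoord lo hi e x).2 = (ccoord lo hi e x).1 + 1 ∨
      (ccoord lo hi e x).2 = (ccoord lo hi e x).1 + 3) ∧ ∀ z', Pend z' x → z' = z := by
  classical
  have H := h.H
  have hgo : Win.GoodTo P r ((3 + 1) + 1) := h
  have C' : Comp ((3 + 1) + 1) (t : P) lo hi e := C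
  have S' : StairShape ((3 + 1) + 1) lo hi := S
  obtain ⟨n1, n2⟩ := stairShape_co C' S'
  obtain ⟨s, h1, h2, h3⟩ := C.surj x hxt (by omega)
  rw [hx] at h1 h2 h3
  have hS := (Win.near_level' hgo (by omega)).2 t lo hi e t.2 C'.toWin
  have h4 := C'.toWin.uc_two hgo t.2 (k := 3 + 1) (by omega) h1 h2
  have h3' : e (3 + 1 + 1) s = x := h3
  rw [h3'] at h4
  have h5 := h4.mp hx2
  have hpen : ∀ w, Pend w x → w ∈ Win.pen (e (3 + 1 + 1) s) := by
    intro w hw
    rw [Win.mem_pen, h3']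
    refine ⟨hw.1, ?_⟩
    rw [Finset.card_eq_one]
    refine ⟨x, ?_⟩
    ext y
    rw [Win.mem_uc, mem_singleton]
    exact ⟨hw.2 y, fun h => h ▸ hw.1⟩
  have hne : (Win.pen (e (3 + 1 + 1) s)).card ≠ 0 := by
    intro h0
    rw [Finset.card_eq_zero] at h0
    have := hpen z hP
    rw [h0] at this
    exact absurd this (Finset.notMem_empty _)
  refine ⟨stairShape_pendant hgo (by omega) t.2 C' S' hx hxt hx2 hP.1 hP.2, ?_⟩
  have hone : (Win.pen (e (3 + 1 + 1) s)).card = 1 := by
    rcases hS with ⟨-, -, h8⟩ | ⟨h8, -⟩ | ⟨h8, -, b, hb, h9⟩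
    · exact absurd (h8 s h5.1 h5.2) hne
    · exact absurd h8 n1
    · have h10 := h9 s h5.1 h5.2
      split_ifs at h10 with h11
      · exact h10
      · exact absurd h10 hne
  intro z' hP'
  obtain ⟨w, hw⟩ := Finset.card_eq_one.mp hone
  have e1 := hpen z hP
  have e2 := hpen z' hP'
  rw [hw, mem_singleton] at e1 e2
  rw [e1, e2]

/-- the type of a strip -/
theorem type5 (h : Win.GoodTo P r 5) (C : Comp 5 (t : P) lo hi e) (hS : Wd.Shape 5 lo hi) :
    ∃ M θ, (∀ N : Tops P → Finset P, N t = M → Ty5 N t (hi 2 - lo 2 + 1) θ) ∧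
      (StairShape 5 lo hi → ∃ Nc co, StairNat 5 2 t Nc co ∧ M = natS Nc co ∧ θ = thS 2 Nc co ∧
        ∀ x ∈ lowPart 5 (t : P), co x = ccoord lo hi e x) := by
  have H := h.H
  have hg := h.good
  by_cases S : StairShape 5 lo hi
  · obtain ⟨Nc, co, h1, h1'⟩ := exists_stair C H hg H.gradedBelow S (i := 2) (by omega)
    refine ⟨natS Nc co, _, fun N hN => Ty5.stair Nc co h1 hN rfl ?_ ?_,
      fun _ => ⟨Nc, co, h1, rfl, rfl, h1'⟩⟩
    · have e1 := S.hi 2 (by omega)
      have h0 : lo 2 = 0 := by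
        by_contra hcon
        have e1 := shape_lo C S.lo (l := 2) (by omega) 2 (by omega)
        have e2 := S.hi (2 + 2) (by omega)
        have e3 := C.lo_le (2 + 2) (by omega)
        omega
      omega
    · intro x z hxt hlx hx2 hP
      obtain ⟨g1, g2⟩ := stair_pen5 h C S hlx hxt hx2 hP
      rw [h1' x (mem_lowPart.mpr ⟨hxt, by omega⟩)]
      exact ⟨g1, g2⟩
  · suffices hs : ∃ M θ, ∀ N : Tops P → Finset P, N t = M → Ty5 N t (hi 2 - lo 2 + 1) θ by
      obtain ⟨M, θ, h1⟩ := hs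
      exact ⟨M, θ, h1, fun h2 => absurd h2 S⟩
    have hlight : lo 2 = hi 2 → ∃ M θ, ∀ N : Tops P → Finset P, N t = M →
        Ty5 N t (hi 2 - lo 2 + 1) θ := by
      intro h1
      refine ⟨onlyB t, fun x => lev x - 2, fun N hN => Ty5.light hN rfl (by omega) ?_⟩
      exact ⟨e 2 (lo 2), C.le_t 2 (lo 2) (by omega) le_rfl (C.lo_le 2 (by omega)),
        C.lev_e 2 (lo 2) (by omega) le_rfl (C.lo_le 2 (by omega))⟩
    rcases hS with h1 | ⟨h1, S'⟩ | ⟨h1, h2⟩ | ⟨h1, h2, h3⟩ | ⟨h1, h2⟩ | ⟨a, h0, h1, h2, h3, hN, h4⟩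
    · have e1 := h1 2 (by omega)
      exact hlight (by omega)
    · have hlt : lo 2 < hi 2 := by
        by_contra hcon
        have g3 := C.lo_le 2 (by omega)
        have g1 := C.lo_mono (l := 1) (d := 1) (by omega)
        have g2 := C.hi_mono (l := 1) (d := 1) (by omega)
        rw [show 1 + 1 = 2 from rfl] at g1 g2
        have g4 := shape_lo C S'.lo (l := 2) (by omega) 2 (by omega)
        have g5 := shape_hi C S'.hi (l := 2) (by omega) 2 (by omega)
        have g6 := C.lo_le (2 + 2) (by omega)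
        omega
      obtain ⟨Nc, co, h2, -⟩ := exists_rect C H hg H.gradedBelow S' (i := 2) (by omega) hlt
      refine ⟨natR Nc co, _, fun N hN => Ty5.rect Nc co h2 hN rfl ?_⟩
      intro x z hxt hxl hx2 hP
      exact rectShape_no_pendant (i := 4) h (by omega) t.2 C S' hxl hxt hx2 hP.1 hP.2
    · exact absurd h2 S
    · omega
    · omega
    · have e1 := h2 2 (by omega)
      exact hlight (by omega)

end One

section All

variable {lo hi : Tops P → ℕ → ℕ} {e : Tops P → ℕ → ℕ → P}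

/-- **No flip at the level 5.** No join on the level 6; then no element of the level 6 covers only
the element `(1, 4)` of a stair-like component. -/
theorem NJ_no_flip5 (h : Wd.NJ P r 5) (C : ∀ t : Tops P, Comp 5 (t : P) (lo t) (hi t) (e t))
    (hS : ∀ t, Wd.Shape 5 (lo t) (hi t)) (t : Tops P) (S : StairShape 5 (lo t) (hi t)) {z : P}
    (h1 : lo t 5 ≤ 1) (hP : Pend z (e t 5 1)) : False := by
  classical
  choose M θ hty hSt using fun t => type5 h.g (C t) (hS t)
  have W : V5 r M (fun t => hi t 2 - lo t 2 + 1) θ :=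
    ⟨h.g, fun t => hty t M rfl, (card_level h.g.H h.g.good C (i := 2) (by omega)).symm, h.no⟩
  have H := h.g.H
  obtain ⟨Nc, co, g0, g1, g2, g3⟩ := hSt t S
  have e5 := S.hi 5 le_rfl
  norm_num at e5
  have hlx : lev (e t 5 1) = 5 := (C t).lev_e 5 1 le_rfl h1 (by omega)
  have hxt := (C t).le_t 5 1 le_rfl h1 (by omega)
  have hlz : lev z = 6 := by
    have := (H.covBy_iff.mp hP.1).2
    omega
  have hxl : e t 5 1 ∈ lowPart 5 (t : P) := mem_lowPart.mpr ⟨hxt, hlx.le⟩
  have hcx : co (e t 5 1) = (1, 4) := by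
    rw [g3 _ hxl]
    unfold ccoord
    rw [scoord_e (C t) (k := 5) (s := 1) le_rfl h1 (by omega), hlx]
  have htz : topOf z = t := W.topOf_eq (hP.1.1.le.trans hxt) (by omega)
  have hxN : e t 5 1 ∈ Nc := g0.strip hxl
  have hzn : z ∉ M t := by
    intro hz
    rw [g1, mem_natS] at hz
    rcases hz with hz | hz
    · -- a chart element has the other cover as well
      have hcz := (chart_cov g0.chart H hz hxN).mp hP.1
      rw [hcx] at hcz
      have hmz : (co z).1 ≤ (co z).2 := g0.chart.mem z hz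
      have hinner : (Win.uc z).card = 2 := by
        refine chartS_inner_uc g0.chart H hz ?_ ?_
        · unfold Prd at hcz
          simp only at hcz
          omega
        · unfold Prd at hcz
          simp only at hcz
          omega
      have huc : Win.uc z = {e t 5 1} := by
        ext y
        rw [Win.mem_uc, mem_singleton]
        exact ⟨hP.2 y, fun h => h ▸ hP.1⟩
      rw [huc, card_singleton] at hinner
      omega
    · obtain ⟨x1, H1, hz1⟩ := mem_junk.mp hz
      obtain ⟨hlt, hall⟩ := mem_jset.mp hz1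
      have hlt1 := H1.lt _ hxN (by rw [hcx])
      rcases hall _ hP.1.1.le with h2 | h2
      · have h3 := (g0.chart.le_iff _ hxN _ H1.mem).mp h2
        have h4 : (co x1).2 ≤ (co (e t 5 1)).2 := h3.2
        omega
      · have h3 := (g0.chart.le_iff _ H1.mem _ hxN).mp h2
        have h4 : (co (e t 5 1)).1 ≤ (co x1).1 := h3.1
        rw [hcx, H1.fst] at h4
        omega
  have hzU : z ∈ unnat M := by
    by_contra hn
    exact hzn (W.natSys.mem_iff.mpr ⟨hn, htz⟩)
  have hbd : z ∈ bdR (unnat M) := mem_filter.mpr ⟨hzU, e t 5 1, W.low hlx.le, hP.1⟩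
  exact W.kill hbd hlz ⟨Nc, co, by rw [htz]; exact g0, by rw [htz]; exact g2,
    by rw [htz]; exact g1, e t 5 1, hxN, hcx, hP⟩

end All

end Pool.Agent.GaussPoset.F5

end

/-! From `Pool.Agent.W_448pn_h63.QcC` -/

section

/-!
# Flip parts: the value of a natural part with a flip
(MP_448cb3_co, G2, window `j - 1`)
-/

set_option autoImplicit false

namespace Pool.Agent.GaussPoset.Win.Pf

set_option linter.unusedSectionVars false

open Finset W4 Wd
open Pool.Agent.GaussPoset.Win.Pn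
open Pool.Agent.GaussPoset.Win.SO (con PN on mem_PN vp F5 mem_F5 PSO N1f mem_N1f)

universe u

variable {P : Type u} [Fintype P] [PartialOrder P] [DecidableEq P] {r j i : ℕ}
  {psi : P → P} {S : Finset P} {p y q u a s b : P} {lo hi : ℕ → ℕ} {e : ℕ → ℕ → P}

/-- a common lower cover of two elements with a common upper cover in a natural component -/
lemma nat_dcv {t : P} (hn : NatT j t) {y x v : P} (ly : lev y = j) (lx : lev x = j)
    (hy : y ≤ t) (hx : x ≤ t) (hne : y ≠ x) (h1 : y ⋖ v) (h2 : x ⋖ v) :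
    ∃ w, w ⋖ y ∧ w ⋖ x := by
  classical
  have h3 := hn y x ly lx hy hx hne
  have h4 : 0 < ucv y x := by
    unfold ucv
    exact card_pos.2 ⟨v, by rw [mem_filter]; exact ⟨mem_univ v, h1, h2⟩⟩
  rw [h3] at h4
  unfold dcv at h4
  obtain ⟨w, hw⟩ := card_pos.1 h4
  rw [mem_filter] at hw
  exact ⟨w, hw.2⟩

/-- no pendant below an inner element of a natural component -/
lemma nat_inner (H : Gr P r) {t : P} (hn : NatT j t) {y x x' v v' p : P} (ly : lev y = j)
    (lx : lev x = j) (lx' : lev x' = j) (hy : y ≤ t) (hx : x ≤ t) (hx' : x' ≤ t) (h1 : y ≠ x)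
    (h2 : y ≠ x') (h3 : x ≠ x') (c1 : y ⋖ v) (c2 : x ⋖ v) (c3 : y ⋖ v') (c4 : x' ⋖ v')
    (hp : uc p = {y}) : False := by
  classical
  obtain ⟨w, w1, w2⟩ := nat_dcv hn ly lx hy hx h1 c1 c2
  obtain ⟨w', w3, w4⟩ := nat_dcv hn ly lx' hy hx' h2 c3 c4
  have hpy : p ⋖ y := by rw [← mem_uc, hp]; exact mem_singleton_self _
  have n1 : p ≠ w := by
    rintro rfl
    rw [← mem_uc, hp, mem_singleton] at w2
    exact h1 w2.symm
  have n2 : p ≠ w' := by
    rintro rfl
    rw [← mem_uc, hp, mem_singleton] at w4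
    exact h2 w4.symm
  have n3 : w ≠ w' := by
    rintro rfl
    have h4 : ({y, x, x'} : Finset P) ⊆ uc w := by
      intro z hz
      rw [mem_insert, mem_insert, mem_singleton] at hz
      rw [mem_uc]
      rcases hz with rfl | rfl | rfl <;> assumption
    have h5 := card_le_card h4
    rw [card_insert_of_notMem, card_pair h3] at h5
    · have := uc_card_le H w
      omega
    · rw [mem_insert, mem_singleton]
      rintro (h6 | h6)
      · exact h1 h6
      · exact h2 h6
  have h4 : ({p, w, w'} : Finset P) ⊆ dc y := by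
    intro z hz
    rw [mem_insert, mem_insert, mem_singleton] at hz
    rw [mem_dc]
    rcases hz with rfl | rfl | rfl <;> assumption
  have h5 := card_le_card h4
  rw [card_insert_of_notMem, card_pair n3] at h5
  · have := dc_card_le H y
    omega
  · rw [mem_insert, mem_singleton]
    rintro (h6 | h6)
    · exact n1 h6
    · exact n2 h6

/-- the arithmetic of a flip row -/
lemma flip_arith {L k z N S w A sk zs' : ℤ} (hL : 1 ≤ L) (hk : 0 ≤ k) (hz : 0 ≤ z)
    (hzk : z + k ≤ 2) (hN : 0 ≤ N) (hS : S ≤ 2 * z) (hw : 0 ≤ w) (hA : A = k - L)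
    (h1 : sk = -A - 9 + (A ^ 2 + 4 + 2 * (N + k + 1)) - 4 * A + 3 + w)
    (h2 : zs' = z * 12 - 4 * z * (k + 1) - 2 * S + 8 * z * (1 + A) - 12 * z +
      2 * (z * (z - 1))) : 0 ≤ 2 * sk + zs' := by
  subst hA
  rw [h1, h2]
  have q1 : z = 0 ∨ z = 1 ∨ z = 2 := by omega
  have q2 : k = 0 ∨ k = 1 ∨ k = 2 := by omega
  have q3 : 0 ≤ (L - 1) * (L - 2) := by
    rcases eq_or_lt_of_le hL with e1 | e1
    · rw [← e1]; norm_num
    · exact mul_nonneg (by omega) (by omega)
  rcases q1 with rfl | rfl | rfl <;> rcases q2 with rfl | rfl | rfl <;>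
    first | omega | nlinarith

section nj

variable (h : NJ P r j) (hij : i + 1 = j) (hi1 : 1 ≤ i)
include h hij hi1

/-- an element below three sites -/
lemma nat_ZL (t : Tops P) (hn : NatT j (t : P)) (C : Cp.Comp (i + 1) (t : P) lo hi e)
    (h3 : (st i (SS i t)).card = 3) (hl : hi i = lo i + 2) (h1 : lo (i + 1) ≤ lo i + 1)
    (h2 : lo i + 2 ≤ hi (i + 1)) : 1 ≤ (ZL i (SS i t)).card := by
  classical
  have H := h.g.H
  have hC : Part (i + 1) (SS i t) := h.part (by omega) (by omega) t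
  have l1 : lev (e (i + 1) (lo i + 1)) = i + 1 := C.lev_e _ _ le_rfl h1 (by omega)
  have l2 : lev (e (i + 1) (lo i + 2)) = i + 1 := C.lev_e _ _ le_rfl (by omega) h2
  have t1 : e (i + 1) (lo i + 1) ≤ (t : P) := C.le_t _ _ le_rfl h1 (by omega)
  have t2 : e (i + 1) (lo i + 2) ≤ (t : P) := C.le_t _ _ le_rfl (by omega) h2
  have hne : e (i + 1) (lo i + 1) ≠ e (i + 1) (lo i + 2) := by
    intro he
    have := C.inj (i + 1) _ _ le_rfl h1 (by omega) (by omega) h2 he
    omega
  have cv : ∀ s s', lo (i + 1) ≤ s → s ≤ hi (i + 1) → lo i ≤ s' → s' ≤ hi i →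
      (s' = s ∨ s' + 1 = s) → e (i + 1) s ⋖ e i s' := fun s s' a1 a2 a3 a4 a5 =>
    (C.cov i s s' (by omega) a1 a2 a3 a4).2 a5
  have c0 := cv (lo i + 1) (lo i) h1 (by omega) le_rfl (by omega) (Or.inr rfl)
  have c1 := cv (lo i + 1) (lo i + 1) h1 (by omega) (by omega) (by omega) (Or.inl rfl)
  have c2 := cv (lo i + 2) (lo i + 1) (by omega) h2 (by omega) (by omega) (Or.inr rfl)
  have c3 := cv (lo i + 2) (lo i + 2) (by omega) h2 (by omega) (by omega) (Or.inl rfl)
  obtain ⟨w, w1, w2⟩ := nat_dcv hn (by omega) (by omega) t1 t2 hne c1 c2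
  have lw := lev_cov H w1
  have huc : uc w = {e (i + 1) (lo i + 1), e (i + 1) (lo i + 2)} := by
    symm
    apply Finset.eq_of_subset_of_card_le
    · intro z hz
      rw [mem_insert, mem_singleton] at hz
      rw [mem_uc]
      rcases hz with rfl | rfl <;> assumption
    · rw [card_pair hne]
      exact uc_card_le H w
  have hwS : w ∈ SS i t := (h.mem (by omega) t (by omega)).2 (w1.le.trans t1)
  refine card_pos.2 ⟨w, mem_ZL.2 ⟨hwS, by omega, ?_⟩⟩
  rw [up_two H (by omega) huc]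
  -- all the sites
  have inj : ∀ s s', lo i ≤ s → s ≤ hi i → lo i ≤ s' → s' ≤ hi i → e i s = e i s' → s = s' :=
    fun s s' a1 a2 a3 a4 he => C.inj i s s' (by omega) a1 a2 a3 a4 he
  have m1 : ({e i (lo i), e i (lo i + 1), e i (lo i + 2)} : Finset P) ⊆
      uc (e (i + 1) (lo i + 1)) ∪ uc (e (i + 1) (lo i + 2)) := by
    intro z hz
    rw [mem_insert, mem_insert, mem_singleton] at hz
    rw [mem_union, mem_uc, mem_uc]
    rcases hz with rfl | rfl | rfl
    · exact Or.inl c0
    · exact Or.inl c1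
    · exact Or.inr c3
  have m2 : uc (e (i + 1) (lo i + 1)) ∪ uc (e (i + 1) (lo i + 2)) ⊆ st i (SS i t) := by
    intro z hz
    rw [mem_union, mem_uc, mem_uc] at hz
    rw [Win.mem_st]
    rcases hz with hz | hz
    · have := lev_cov H hz
      exact ⟨hC.up ((h.mem (i := i) (by omega) t (by omega)).2 t1) hz, by omega⟩
    · have := lev_cov H hz
      exact ⟨hC.up ((h.mem (i := i) (by omega) t (by omega)).2 t2) hz, by omega⟩
  have k1 := card_le_card m1
  have k2 := card_le_card m2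
  rw [card_insert_of_notMem, card_pair] at k1
  · omega
  · intro he
    have := inj _ _ (by omega) (by omega) (by omega) (by omega) he
    omega
  · rw [mem_insert, mem_singleton]
    rintro (he | he)
    · have := inj _ _ (by omega) (by omega) (by omega) (by omega) he
      omega
    · have := inj _ _ (by omega) (by omega) (by omega) (by omega) he
      omega

/-- THE VALUE of a natural part with a flip (twice): it is nonnegative -/
theorem nat_flip {lo hi : Tops P → ℕ → ℕ} {e : Tops P → ℕ → ℕ → P}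
    (C : ∀ t : Tops P, Cp.Comp (i + 1) (t : P) (lo t) (hi t) (e t))
    (hS : ∀ t : Tops P, Shape (i + 1) (lo t) (hi t)) {t : Tops P}
    (hn : NatT j (t : P)) (hF : F5 i (SS i t) ≠ ∅) :
    0 ≤ 2 * own ⟨-1, 9, 1, 4, 3, -1, 2, 13, 0⟩ i j t +
      ∑ p ∈ (PD P i).filter (fun p => (topOf p : Tops P) = t),
        shr ⟨-1, 9, 1, 4, 3, -1, 2, 13, 0⟩ i p := by
  classical
  have H := h.g.H
  have hC : Part (i + 1) (SS i t) := h.part (by omega) (by omega) t
  obtain ⟨⟨p, q⟩, hpq⟩ := nonempty_iff_ne_empty.2 hF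
  obtain ⟨y, u, a, s, b, F⟩ := nj_flp h hij hi1 t hpq
  have Cm := C t
  obtain ⟨w1, w2, w3⟩ := nj_flip_word h hij hi1 t Cm (hS t) F
  have hlh := Cm.toWin.lohi (i + 1) le_rfl
  have inj : ∀ s s', lo t (i + 1) ≤ s → s ≤ hi t (i + 1) → lo t (i + 1) ≤ s' →
      s' ≤ hi t (i + 1) → s ≠ s' → e t (i + 1) s ≠ e t (i + 1) s' :=
    fun s s' a1 a2 a3 a4 hne he => hne (Cm.inj (i + 1) s s' le_rfl a1 a2 a3 a4 he)
  have cv : ∀ s s', lo t (i + 1) ≤ s → s ≤ hi t (i + 1) → lo t i ≤ s' → s' ≤ hi t i →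
      (s' = s ∨ s' + 1 = s) → e t (i + 1) s ⋖ e t i s' := fun s s' a1 a2 a3 a4 a5 =>
    (Cm.cov i s s' (by omega) a1 a2 a3 a4).2 a5
  -- the pendant is not inner
  have inner : ∀ n, lo t (i + 1) + 1 ≤ n → n + 1 ≤ hi t (i + 1) → lo t i + 1 ≤ n →
      n ≤ hi t i → y ≠ e t (i + 1) n := by
    intro n n1 n2 n3 n4 hy
    obtain ⟨m, rfl⟩ : ∃ m, n = m + 1 := ⟨n - 1, by omega⟩
    have hc := F.cp
    rw [hy] at hc
    exact nat_inner (j := j) H hn (y := e t (i + 1) (m + 1)) (x := e t (i + 1) m)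
      (x' := e t (i + 1) (m + 2)) (v := e t i m) (v' := e t i (m + 1)) (p := p)
      (by rw [Cm.lev_e _ _ le_rfl (by omega) (by omega)]; exact hij)
      (by rw [Cm.lev_e _ _ le_rfl (by omega) (by omega)]; exact hij)
      (by rw [Cm.lev_e _ _ le_rfl (by omega) (by omega)]; exact hij)
      (Cm.le_t _ _ le_rfl (by omega) (by omega)) (Cm.le_t _ _ le_rfl (by omega) (by omega))
      (Cm.le_t _ _ le_rfl (by omega) (by omega))
      (inj _ _ (by omega) (by omega) (by omega) (by omega) (by omega))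
      (inj _ _ (by omega) (by omega) (by omega) (by omega) (by omega))
      (inj _ _ (by omega) (by omega) (by omega) (by omega) (by omega))
      (cv _ _ (by omega) (by omega) (by omega) (by omega) (Or.inr rfl))
      (cv _ _ (by omega) (by omega) (by omega) (by omega) (Or.inl rfl))
      (cv _ _ (by omega) (by omega) (by omega) (by omega) (Or.inl rfl))
      (cv _ _ (by omega) (by omega) (by omega) (by omega) (Or.inr rfl)) hc
  have key : lo t (i + 1) ≤ lo t i + 1 ∧ lo t i + 2 ≤ hi t (i + 1) ∧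
      (FU' i (SS i t)).card + (Sg i (SS i t) b).card = 1 ∧ (Sg i (SS i t) a).card = 0 := by
    rcases w3 with ⟨-, k1, k2, k3, k4, k5⟩ | ⟨k0, k1, k2, -⟩ | ⟨-, k1, k2, -, k3, k4, k5⟩ |
      ⟨k0, k1, k2⟩ | ⟨k0, k1, k2, k3⟩
    · omega
    · exact (inner _ (by omega) (by omega) (by omega) (by omega) k0).elim
    · omega
    · exact (inner _ (by omega) (by omega) (by omega) (by omega) k0).elim
    · exfalso
      have e1 := Cm.hi_step i (by omega)
      have e2 := Cm.lo_step i (by omega)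
      rcases Nat.eq_zero_or_pos (lo t (i + 1)) with e3 | e3
      · exact inner _ (by omega) (by omega) (by omega) (by omega) k3
      · subst k1
        have hj : j = 5 := by omega
        subst hj
        have e5 : lo t 5 ≤ 1 := by
          show lo t (4 + 1) ≤ 1
          omega
        refine F5.NJ_no_flip5 h C hS t k0 (z := p) e5 ?_
        have e4 : y = e t 5 1 := by rw [k3, k2]
        rw [← e4]
        refine ⟨F.py, fun z hz => ?_⟩
        have := mem_uc.2 hz
        rw [F.cp, mem_singleton] at this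
        exact this
  obtain ⟨g1, g2, g3, g4⟩ := key
  have hZL := nat_ZL h hij hi1 t hn Cm F.b3 w1 g1 g2
  have hw := EK.NJ.nat_own2 h (by omega) hn
  have hal := nj_flip_al3 h hij hi1 t F
  have hown := nj_flip_own h hij hi1 ⟨-1, 9, 1, 4, 3, -1, 2, 13, 0⟩ t F
  obtain ⟨psi, hM⟩ := good_mat h.g.H (h.g.good i (by omega))
  have Q := nj_pso h hij hi1 hM t
  have hpt : (topOf p : Tops P) = t := by
    have h1 := (h.mem (i := i) (by omega) t (y := p) (by rw [F.lp]; omega)).1 F.mp
    exact Subtype.ext (Hul.top_unique (h.nj (by rw [F.lp]; omega)) (topOf p).2 t.2 (le_topOf p) h1)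
  have hone : (PD P i).filter (fun p => (topOf p : Tops P) = t) = {p} := by
    rw [eq_singleton_iff_unique_mem]
    refine ⟨mem_filter.2 ⟨F.pD, hpt⟩, fun q hq => ?_⟩
    obtain ⟨hqD, hqt⟩ := mem_filter.1 hq
    exact nj_hone h hij hi1 q hqD p F.pD (by rw [hqt, hpt])
  have hshr := nj_flip_shr h hij hi1 ⟨-1, 9, 1, 4, 3, -1, 2, 13, 0⟩ (p := p) (by
    rw [hpt]; exact F)
  have hk := nj_kc h hij hi1 t F.mp F.lp
  have hzk := nj_zc_kc h hij hi1 F.lp
  have hSs : ∑ z ∈ zs i (topOf : P → Tops P) p, kc z ≤ 2 * zc i (topOf : P → Tops P) p := by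
    have h1 : ∀ z ∈ zs i (topOf : P → Tops P) p, kc z ≤ 2 := by
      intro z _
      have h2 : ks z ⊆ dc z := fun y hy => mem_dc.2 (mem_uc.1 (by rw [mem_ks.1 hy]; simp))
      have h3 := (card_le_card h2).trans (dc_card_le H z)
      unfold kc
      exact_mod_cast h3
    have h2 := Finset.sum_le_sum h1
    rw [sum_const, nsmul_eq_mul] at h2
    unfold zc
    linarith
  rw [hone, sum_singleton]
  rw [hpt] at hshr
  rw [← FL_eq Q F] at hk
  have hA : A3 i t = kc p - (ZL i (SS i t)).card := by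
    unfold A3
    rw [hal, w2, g4, hk]
    have : ((FU' i (SS i t)).card : ℤ) + (Sg i (SS i t) b).card = 1 := by exact_mod_cast g3
    push_cast
    linarith
  have hg3 : ((FU' i (SS i t)).card : ℤ) + (Sg i (SS i t) b).card = 1 := by exact_mod_cast g3
  refine flip_arith (L := (ZL i (SS i t)).card) (k := kc p)
    (z := zc i (topOf : P → Tops P) p) (N := (N1f i (SS i t)).card)
    (S := ∑ z ∈ zs i (topOf : P → Tops P) p, kc z)
    (w := -F2 j t + 2 * F4 j t + 13 * F3 j t) (A := A3 i t) (by exact_mod_cast hZL)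
    (Nat.cast_nonneg _) (Nat.cast_nonneg _) hzk (Nat.cast_nonneg _) hSs hw hA ?_ ?_
  · rw [hown, hk, g4]
    push_cast
    linear_combination 2 * hg3
  · rw [hshr, hk, g4]
    push_cast
    ring

end nj

end Pool.Agent.GaussPoset.Win.Pf

end

/-! From `Pool.Agent.W_448pn_h63.QcD` -/

section

/-!
# Flip parts: the value of a natural part with a flip for arbitrary weights, and for the weights of
step 0 at the level 8 (MP_448cb3_co, G2, window `j - 1`)
-/

set_option autoImplicit false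

namespace Pool.Agent.GaussPoset.Win.Pf

set_option linter.unusedSectionVars false

open Finset W4 Wd
open Pool.Agent.GaussPoset.Win.Pn
open Pool.Agent.GaussPoset.Win.SO (con PN on mem_PN vp F5 mem_F5 PSO N1f mem_N1f)

universe u

variable {P : Type u} [Fintype P] [PartialOrder P] [DecidableEq P] {r j i : ℕ}
  {psi : P → P} {S : Finset P} {p y q u a s b : P} {lo hi : ℕ → ℕ} {e : ℕ → ℕ → P}

section nj

variable (h : NJ P r j) (hij : i + 1 = j) (hi1 : 1 ≤ i)
include h hij hi1

/-- THE VALUE of a natural part with a flip (twice) for arbitrary weights -/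
theorem nat_flip_gen (W : Wt) {lo hi : Tops P → ℕ → ℕ} {e : Tops P → ℕ → ℕ → P}
    (C : ∀ t : Tops P, Cp.Comp (i + 1) (t : P) (lo t) (hi t) (e t))
    (hS : ∀ t : Tops P, Shape (i + 1) (lo t) (hi t)) {t : Tops P}
    (hn : NatT j (t : P)) (hF : F5 i (SS i t) ≠ ∅) :
    ∃ L k N z S T : ℤ, 1 ≤ L ∧ 0 ≤ k ∧ 0 ≤ N ∧ 0 ≤ z ∧ z + k ≤ 2 ∧ S ≤ 2 * z ∧ 0 ≤ T ∧
    2 * own W i j t + ∑ p ∈ (PD P i).filter (fun p => (topOf p : Tops P) = t), shr W i p =
      2 * (W.a3 * (k - L) - W.a5 + W.a6 * ((k - L) ^ 2 + 4 + 2 * (N + k + 1)) -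
        W.a8 * (k - L) + W.a10 + W.f2 * F2 j t + W.f4 * F4 j t + W.f3 * F3 j t +
        W.f6 * F6 j t) +
      (z * (W.a5 + W.a10) - 4 * W.a6 * z * (k + 1) - 2 * W.a6 * S +
        2 * W.a8 * z * (1 + (k - L)) - 4 * W.a10 * z +
        (2 * W.a10 - W.a8) * (z * (z - 1)) - (W.a6 - W.a8 + W.a10) * T) := by
  classical
  have H := h.g.H
  have hC : Part (i + 1) (SS i t) := h.part (by omega) (by omega) t
  obtain ⟨⟨p, q⟩, hpq⟩ := nonempty_iff_ne_empty.2 hF
  obtain ⟨y, u, a, s, b, F⟩ := nj_flp h hij hi1 t hpq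
  have Cm := C t
  obtain ⟨w1, w2, w3⟩ := nj_flip_word h hij hi1 t Cm (hS t) F
  have hlh := Cm.toWin.lohi (i + 1) le_rfl
  have inj : ∀ s s', lo t (i + 1) ≤ s → s ≤ hi t (i + 1) → lo t (i + 1) ≤ s' →
      s' ≤ hi t (i + 1) → s ≠ s' → e t (i + 1) s ≠ e t (i + 1) s' :=
    fun s s' a1 a2 a3 a4 hne he => hne (Cm.inj (i + 1) s s' le_rfl a1 a2 a3 a4 he)
  have cv : ∀ s s', lo t (i + 1) ≤ s → s ≤ hi t (i + 1) → lo t i ≤ s' → s' ≤ hi t i →
      (s' = s ∨ s' + 1 = s) → e t (i + 1) s ⋖ e t i s' := fun s s' a1 a2 a3 a4 a5 =>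
    (Cm.cov i s s' (by omega) a1 a2 a3 a4).2 a5
  -- the pendant is not inner
  have inner : ∀ n, lo t (i + 1) + 1 ≤ n → n + 1 ≤ hi t (i + 1) → lo t i + 1 ≤ n →
      n ≤ hi t i → y ≠ e t (i + 1) n := by
    intro n n1 n2 n3 n4 hy
    obtain ⟨m, rfl⟩ : ∃ m, n = m + 1 := ⟨n - 1, by omega⟩
    have hc := F.cp
    rw [hy] at hc
    exact nat_inner (j := j) H hn (y := e t (i + 1) (m + 1)) (x := e t (i + 1) m)
      (x' := e t (i + 1) (m + 2)) (v := e t i m) (v' := e t i (m + 1)) (p := p)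
      (by rw [Cm.lev_e _ _ le_rfl (by omega) (by omega)]; exact hij)
      (by rw [Cm.lev_e _ _ le_rfl (by omega) (by omega)]; exact hij)
      (by rw [Cm.lev_e _ _ le_rfl (by omega) (by omega)]; exact hij)
      (Cm.le_t _ _ le_rfl (by omega) (by omega)) (Cm.le_t _ _ le_rfl (by omega) (by omega))
      (Cm.le_t _ _ le_rfl (by omega) (by omega))
      (inj _ _ (by omega) (by omega) (by omega) (by omega) (by omega))
      (inj _ _ (by omega) (by omega) (by omega) (by omega) (by omega))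
      (inj _ _ (by omega) (by omega) (by omega) (by omega) (by omega))
      (cv _ _ (by omega) (by omega) (by omega) (by omega) (Or.inr rfl))
      (cv _ _ (by omega) (by omega) (by omega) (by omega) (Or.inl rfl))
      (cv _ _ (by omega) (by omega) (by omega) (by omega) (Or.inl rfl))
      (cv _ _ (by omega) (by omega) (by omega) (by omega) (Or.inr rfl)) hc
  have key : lo t (i + 1) ≤ lo t i + 1 ∧ lo t i + 2 ≤ hi t (i + 1) ∧
      (FU' i (SS i t)).card + (Sg i (SS i t) b).card = 1 ∧ (Sg i (SS i t) a).card = 0 := by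
    rcases w3 with ⟨-, k1, k2, k3, k4, k5⟩ | ⟨k0, k1, k2, -⟩ | ⟨-, k1, k2, -, k3, k4, k5⟩ |
      ⟨k0, k1, k2⟩ | ⟨k0, k1, k2, k3⟩
    · omega
    · exact (inner _ (by omega) (by omega) (by omega) (by omega) k0).elim
    · omega
    · exact (inner _ (by omega) (by omega) (by omega) (by omega) k0).elim
    · exfalso
      have e1 := Cm.hi_step i (by omega)
      have e2 := Cm.lo_step i (by omega)
      rcases Nat.eq_zero_or_pos (lo t (i + 1)) with e3 | e3
      · exact inner _ (by omega) (by omega) (by omega) (by omega) k3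
      · subst k1
        have hj : j = 5 := by omega
        subst hj
        have e5 : lo t 5 ≤ 1 := by
          show lo t (4 + 1) ≤ 1
          omega
        refine F5.NJ_no_flip5 h C hS t k0 (z := p) e5 ?_
        have e4 : y = e t 5 1 := by rw [k3, k2]
        rw [← e4]
        refine ⟨F.py, fun z hz => ?_⟩
        have := mem_uc.2 hz
        rw [F.cp, mem_singleton] at this
        exact this
  obtain ⟨g1, g2, g3, g4⟩ := key
  have hZL := nat_ZL h hij hi1 t hn Cm F.b3 w1 g1 g2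
  have hal := nj_flip_al3 h hij hi1 t F
  have hown := nj_flip_own h hij hi1 W t F
  obtain ⟨psi, hM⟩ := good_mat h.g.H (h.g.good i (by omega))
  have Q := nj_pso h hij hi1 hM t
  have hpt : (topOf p : Tops P) = t := by
    have h1 := (h.mem (i := i) (by omega) t (y := p) (by rw [F.lp]; omega)).1 F.mp
    exact Subtype.ext (Hul.top_unique (h.nj (by rw [F.lp]; omega)) (topOf p).2 t.2 (le_topOf p) h1)
  have hone : (PD P i).filter (fun p => (topOf p : Tops P) = t) = {p} := by
    rw [eq_singleton_iff_unique_mem]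
    refine ⟨mem_filter.2 ⟨F.pD, hpt⟩, fun q hq => ?_⟩
    obtain ⟨hqD, hqt⟩ := mem_filter.1 hq
    exact nj_hone h hij hi1 q hqD p F.pD (by rw [hqt, hpt])
  have hshr := nj_flip_shr h hij hi1 W (p := p) (by
    rw [hpt]; exact F)
  have hk := nj_kc h hij hi1 t F.mp F.lp
  have hzk := nj_zc_kc h hij hi1 F.lp
  have hSs : ∑ z ∈ zs i (topOf : P → Tops P) p, kc z ≤ 2 * zc i (topOf : P → Tops P) p := by
    have h1 : ∀ z ∈ zs i (topOf : P → Tops P) p, kc z ≤ 2 := by
      intro z _
      have h2 : ks z ⊆ dc z := fun y hy => mem_dc.2 (mem_uc.1 (by rw [mem_ks.1 hy]; simp))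
      have h3 := (card_le_card h2).trans (dc_card_le H z)
      unfold kc
      exact_mod_cast h3
    have h2 := Finset.sum_le_sum h1
    rw [sum_const, nsmul_eq_mul] at h2
    unfold zc
    linarith
  rw [hone, sum_singleton]
  rw [hpt] at hshr
  rw [← FL_eq Q F] at hk
  have hA : A3 i t = kc p - (ZL i (SS i t)).card := by
    unfold A3
    rw [hal, w2, g4, hk]
    have : ((FU' i (SS i t)).card : ℤ) + (Sg i (SS i t) b).card = 1 := by exact_mod_cast g3
    push_cast
    linarith
  have hg3 : ((FU' i (SS i t)).card : ℤ) + (Sg i (SS i t) b).card = 1 := by exact_mod_cast g3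
  refine ⟨(ZL i (SS i t)).card, kc p, (N1f i (SS i t)).card, zc i (topOf : P → Tops P) p,
    ∑ z ∈ zs i (topOf : P → Tops P) p, kc z,
    ∑ z ∈ zs i (topOf : P → Tops P) p, ((tw i (topOf : P → Tops P) z).card : ℤ),
    by exact_mod_cast hZL, Nat.cast_nonneg _, Nat.cast_nonneg _, Nat.cast_nonneg _, hzk, hSs,
    Finset.sum_nonneg fun _ _ => Nat.cast_nonneg _, ?_⟩
  have hg4 : ((Sg i (SS i t) a).card : ℤ) = 0 := by exact_mod_cast g4
  rw [hown, hshr, hA, hk, hg4]
  linear_combination 4 * W.a6 * hg3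

/-- THE VALUE of a natural part with a flip (twice), step 0 at the level 8: it is nonnegative -/
theorem nat_flip8 {lo hi : Tops P → ℕ → ℕ} {e : Tops P → ℕ → ℕ → P}
    (C : ∀ t : Tops P, Cp.Comp (i + 1) (t : P) (lo t) (hi t) (e t))
    (hS : ∀ t : Tops P, Shape (i + 1) (lo t) (hi t)) {t : Tops P}
    (hn : NatT j (t : P)) (hF : F5 i (SS i t) ≠ ∅) :
    0 ≤ 2 * own ⟨-1, 7, 1, 2, 1, 1, 1, 6, 2⟩ i j t +
      ∑ p ∈ (PD P i).filter (fun p => (topOf p : Tops P) = t),
        shr ⟨-1, 7, 1, 2, 1, 1, 1, 6, 2⟩ i p := by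
  classical
  obtain ⟨L, k, N, z, S, T, k1, k2, k3, k4, k5, k6, k7, k8⟩ :=
    nat_flip_gen h hij hi1 ⟨-1, 7, 1, 2, 1, 1, 1, 6, 2⟩ C hS hn hF
  have e3 := EK.NJ.nat_F3 h (by omega) hn
  obtain ⟨-, e2⟩ := EK.NJ.nat_win h (by omega) hn
  have g1 := card_le_card (W4.DU_sub j (cext (j + 1) (topOf : P → Tops P) t))
  have g2 := card_le_card (W4.T4_subset j (cext (j + 1) (topOf : P → Tops P) t))
  obtain ⟨K, psi, R⟩ := EK.exists_red P j
  have e6 := (EK.NJ.w3_sq h (by omega) R t).1
  have e6' : 0 ≤ Pn.F6 j t := e6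
  have g1' : (((W4.DU j (cext (j + 1) (topOf : P → Tops P) t)).card : ℕ) : ℤ) ≤
    (W4.DC j (cext (j + 1) (topOf : P → Tops P) t)).card := by exact_mod_cast g1
  have g2' : (((W4.T4 j (cext (j + 1) (topOf : P → Tops P) t)).card : ℕ) : ℤ) ≤
    (W4.Z4 j (cext (j + 1) (topOf : P → Tops P) t)).card := by exact_mod_cast g2
  have g3' : (0 : ℤ) ≤ (W4.D2 j (cext (j + 1) (topOf : P → Tops P) t)).card :=
    Int.natCast_nonneg _
  have hw : 0 ≤ F2 j t + F4 j t + 2 * F6 j t := by linarith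
  rw [k8]
  simp only
  rw [e3]
  have q1 : z = 0 ∨ z = 1 ∨ z = 2 := by omega
  have q2 : k = 0 ∨ k = 1 ∨ k = 2 := by omega
  have q3 : 0 ≤ L * (L - 1) := mul_nonneg (by omega) (by omega)
  rcases q1 with rfl | rfl | rfl <;> rcases q2 with rfl | rfl | rfl <;>
    first | omega | nlinarith

end nj

end Pool.Agent.GaussPoset.Win.Pf

end
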