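import Mathlib
import Pool.Agent.W_448zz_h61.Ns
import Pool.Agent.W_448zz_h61.M222
import Pool.Agent.W_448zz_h61.M226
import Pool.Agent.W_448zz_h61.M257
import Pool.Agent.W_448zz_h61.M270

/-! From `Pool.Agent.W_448cl_h64.ClO` -/

section

/-!
MP_448cb3_co, G2, case B, windows `j - 1` and `j`: a row with the pattern [DL], the doubled end closed
(`uc (x 0)` has two elements), at least four sites; the own value.  Here `j = i + 1`.  helper64.
-/

namespace Pool.Agent.GaussPoset.EK

set_option linter.unusedSectionVars false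

open Finset Win St Polynomial Wd Win.W4 Win.Rc Win.Pn
open Pool.Agent.GaussPoset.Win.SO (PN vp mem_PN N1f mem_N1f N5f CQ envc chc)

universe u

variable {P : Type u} [Fintype P] [PartialOrder P] [DecidableEq P] {r i j : ℕ}

variable {m : ℕ} {x : ℕ → P} {c : ℕ → ℤ} {β : ℤ} {t : Tops P} {lo hi : ℕ → ℕ} {e : ℕ → ℕ → P}

/-- a row with the pattern [DL], the doubled end closed -/
structure ClDL (P : Type u) [Fintype P] [PartialOrder P] [DecidableEq P] (r i : ℕ) (t : Tops P)
    (m : ℕ) (x : ℕ → P) (c : ℕ → ℤ) (lo hi : ℕ → ℕ) (e : ℕ → ℕ → P) : Prop where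
  h : NJ P r (i + 1)
  hi1 : 1 ≤ i
  B : RowB P (i + 1) t m x c 0
  C : Cp.Comp (i + 1) (t : P) lo hi e
  hm : 3 ≤ m
  hu : (uc (x 0)).card = 2
  c0 : c 0 = 1
  c1 : c 1 = -1
  c2 : ∀ k, 2 ≤ k → k < m → c k = 0

namespace ClDL

variable (F : ClDL P r i t m x c lo hi e)
include F

/-- coordinates -/
lemma coord : hi (i + 1) = lo (i + 1) + m ∧
    ((lo (i + 1) = lo i + 1 ∧ ∀ k, k ≤ m → x k = e (i + 1) (lo (i + 1) + k)) ∨
      (hi (i + 1) = hi i ∧ ∀ k, k ≤ m → x k = e (i + 1) (hi (i + 1) - k))) := by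
  have hj : 2 ≤ i + 1 := by have := F.hi1; omega
  have h3 := F.C.lo_step i (by omega)
  have h4 := F.C.hi_step i (by omega)
  have hm := F.hm
  obtain ⟨h5, h6⟩ := F.B.orient F.h hj F.C
  have hu := F.hu
  refine ⟨h5, ?_⟩
  rcases h6 with h6 | h6
  · left
    have h7 := F.C.double_up F.h.g.H F.h.g.good t.2 (k := i) (s := lo (i + 1)) (by omega)
      le_rfl (by omega)
    have h8 := h6 0 (by omega)
    rw [Nat.add_zero] at h8
    rw [h8] at hu
    have := h7.1 hu
    exact ⟨by omega, h6⟩
  · right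
    have h7 := F.C.double_up F.h.g.H F.h.g.good t.2 (k := i) (s := hi (i + 1)) (by omega)
      (by omega) le_rfl
    have h8 := h6 0 (by omega)
    rw [Nat.sub_zero] at h8
    rw [h8] at hu
    have := h7.1 hu
    exact ⟨by omega, h6⟩

lemma sites4 : 4 ≤ (st i (SS i t)).card := by
  obtain ⟨-, h1, -⟩ := NJ.inner F.h rfl F.hi1 F.B
  have hm := F.hm
  have hu := F.hu
  rw [h1 (by omega)]
  omega

lemma big : lo i + 3 ≤ hi i := by
  have h1 := F.sites4
  rw [F.h.card_SS (by omega) F.C] at h1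
  have := F.C.lo_le i (by omega)
  omega

/-- the frame of the pattern [DL] at the window `j` -/
lemma dlg {K : Finset P} {psi : P → P} (R : Red P (i + 1) K psi) :
    ∃ w v, DLg r (i + 1) K psi (cext (i + 1 + 1) (topOf : P → Tops P) t) w v m x :=
  NJ.dlg F.h (by have := F.hi1; omega) R F.B F.hm rfl F.c0 F.c1 F.c2

/-- THE OWN VALUE: the two windows -/
theorem own_split : own ⟨-1, 9, 1, 4, 3, -1, 2, 13, 0⟩ i (i + 1) t =
    own1 ⟨-1, 9, 1, 4, 3, -1, 2, 13, 0⟩ i t +
      Ow (i + 1) (cext (i + 1 + 1) (topOf : P → Tops P) t) := by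
  have e2 : F2 (i + 1) t = I2.al 2 (st (i + 1) (cext (i + 1 + 1) (topOf : P → Tops P) t)).card
        (ZS (i + 1) (cext (i + 1 + 1) (topOf : P → Tops P) t)) := rfl
  have e3 : F2 (i + 1) t + F4 (i + 1) t =
      Lv (i + 1) (cext (i + 1 + 1) (topOf : P → Tops P) t) := rfl
  have e4 : F3 (i + 1) t = wv (i + 1) (cext (i + 1 + 1) (topOf : P → Tops P) t) := rfl
  rw [own_eq]
  congr 1
  unfold own2 Ow
  rw [← e3, ← e4, ← e2]
  ring

/-- the closed pair -/
lemma cqs_ge : 4 ≤ cqs i (SS i t) := by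
  classical
  have h4 := F.sites4
  have hm := F.hm
  have v := NJ.vals_closed F.h rfl F.hi1 F.B (by omega) h4 F.c0 F.c1 F.c2 F.hu
  have h5 := Pn.nj_be5_CQ F.h rfl F.hi1 t (Pn.nj_F5_three F.h rfl F.hi1 t (by omega))
  rw [v.al.2] at h5
  have h6 : (CQ i (SS i t)).card = 1 := by omega
  obtain ⟨w, hw⟩ := card_eq_one.1 h6
  have h7 := Pn.nj_env_ge F.h rfl F.hi1 t h4 (w := w) (by rw [hw]; exact mem_singleton_self w)
  unfold cqs
  rw [hw, sum_singleton]
  have := h7
  have h8 := Int.natCast_nonneg (chc i (SS i t) w).card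
  linarith

/-- a private child of the double over `x 2`, `x 3` is below three sites of the window `j - 1` -/
lemma DE_sub (h4 : 4 ≤ m) :
    DE (i + 1) (cext (i + 1 + 1) (topOf : P → Tops P) t) x 2 ⊆ N1f i (SS i t) := by
  classical
  obtain ⟨h1, h2⟩ := F.coord
  have H := F.h.g.H
  have hSS : cext (i + 1 + 1) (topOf : P → Tops P) t = SS i t := F.h.cext_eq (by omega) t
  have s3 := F.C.lo_step i (by omega)
  have s4 := F.C.hi_step i (by omega)
  intro z hz
  obtain ⟨hzC, hz1, hz2⟩ := mem_DE.1 hz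
  obtain ⟨hl, hc, y, hzy, hy2⟩ := mem_PD.1 hz1
  obtain ⟨y', hy'⟩ := card_eq_one.1 hc
  have hyy : y = y' := by
    rw [← mem_uc, hy', mem_singleton] at hzy
    exact hzy
  subst hyy
  have hs : uc y = ed x 2 := by
    rw [← hz2, sit_low H (by omega), ClE_sts H hl hy']
  have m2 : y ⋖ x 2 := by
    rw [← mem_uc, hs]
    exact mem_insert_self _ _
  have m3 : y ⋖ x 3 := by
    rw [← mem_uc, hs]
    exact mem_insert_of_mem (mem_singleton_self _)
  have hS : ∀ y, lev y ≤ i + 2 → (y ∈ SS i t ↔ y ≤ (t : P)) := fun y hy =>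
    F.h.mem (by omega) t hy
  rw [hSS] at hzC
  rcases h2 with ⟨h3, h5⟩ | ⟨h3, h5⟩
  · have e1 := h5 2 (by omega)
    have e2 := h5 3 (by omega)
    rw [e1] at m2
    rw [e2] at m3
    have hZ := low_Tr F.C.toWin F.h.g t.2 hS (a := lo (i + 1) + 2) (by omega) (by omega) m2 m3
    exact mem_N1f.2 ⟨hzC, Or.inl ⟨by omega, y, hZ.1, hy'⟩⟩
  · have e1 : x 2 = e (i + 1) (hi (i + 1) - 3 + 1) := by
      rw [h5 2 (by omega)]
      congr 1
      omega
    have e2 := h5 3 (by omega)
    rw [e1] at m2
    rw [e2] at m3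
    have hZ := low_Tr F.C.toWin F.h.g t.2 hS (a := hi (i + 1) - 3) (by omega) (by omega) m3 m2
    exact mem_N1f.2 ⟨hzC, Or.inl ⟨by omega, y, hZ.1, hy'⟩⟩

lemma n1_ge (h4 : 4 ≤ m) :
    ((DE (i + 1) (cext (i + 1 + 1) (topOf : P → Tops P) t) x 2).card : ℤ) ≤ n1 i (SS i t) := by
  unfold n1
  exact_mod_cast card_le_card (F.DE_sub h4)

lemma n1_nonneg : 0 ≤ n1 i (SS i t) := by
  unfold n1
  positivity

end ClDL

end Pool.Agent.GaussPoset.EK

end

/-! From `Pool.Agent.W_448cl_h64.ClP` -/

section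

/-!
MP_448cb3_co, G2, case B, windows `j - 1` and `j`: a row with the pattern [DL], the doubled end closed: no
pendant below `x 0`, `x 1`; the joins of a pendant and a double inside the part.  Here `j = i + 1`.
helper64.
-/

namespace Pool.Agent.GaussPoset.EK

set_option linter.unusedSectionVars false

open Finset Win St Polynomial Wd Win.W4 Win.Rc Win.Pn
open Pool.Agent.GaussPoset.Win.SO (PN vp mem_PN N1f mem_N1f N5f CQ envc chc)

universe u

variable {P : Type u} [Fintype P] [PartialOrder P] [DecidableEq P] {r i j : ℕ}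

variable {m : ℕ} {x : ℕ → P} {c : ℕ → ℤ} {β : ℤ} {t : Tops P} {lo hi : ℕ → ℕ} {e : ℕ → ℕ → P}

variable {K : Finset P} {psi : P → P} {w v : P}

/-- the twins over the first two elements -/
lemma dl_twins (D : DLg r j K psi (cext (j + 1) (topOf : P → Tops P) t) w v m x) :
    ∃ a b : P, a ≠ b ∧ uc a = {x 0, x 1} ∧ uc b = {x 0, x 1} ∧ dc (x 0) = {a, b} ∧
      dc (x 1) = {a, b} := by
  classical
  have H := D.W.H
  have hm := D.hm
  have h1 := D.dn 0 1 (by omega) (by omega)
  rw [if_pos rfl, if_pos rfl] at h1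
  have h2 := D.deg0
  have h3 := D.deg1
  unfold dcv at h1
  obtain ⟨a, b, hab, he⟩ := card_eq_two.1 h1
  have ma : a ⋖ x 0 ∧ a ⋖ x 1 := by
    have : a ∈ ({a, b} : Finset P) := mem_insert_self _ _
    rw [← he, mem_filter] at this
    exact this.2
  have mb : b ⋖ x 0 ∧ b ⋖ x 1 := by
    have : b ∈ ({a, b} : Finset P) := mem_insert_of_mem (mem_singleton_self _)
    rw [← he, mem_filter] at this
    exact this.2
  have hne : x 0 ≠ x 1 := D.n01
  have key : ∀ y : P, y ⋖ x 0 → y ⋖ x 1 → uc y = {x 0, x 1} := by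
    intro y h4 h5
    refine (eq_of_subset_of_card_le ?_ ?_).symm
    · intro s hs
      rw [mem_insert, mem_singleton] at hs
      rcases hs with rfl | rfl
      · exact mem_uc.2 h4
      · exact mem_uc.2 h5
    · rw [card_pair hne]
      exact uc_card_le H _
  have key2 : ∀ s : P, (dc s).card = 2 → a ⋖ s → b ⋖ s → dc s = {a, b} := by
    intro s hs h4 h5
    refine (eq_of_subset_of_card_le ?_ ?_).symm
    · intro y hy
      rw [mem_insert, mem_singleton] at hy
      rcases hy with rfl | rfl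
      · exact mem_dc.2 h4
      · exact mem_dc.2 h5
    · rw [card_pair hab, hs]
  exact ⟨a, b, hab, key a ma.1 ma.2, key b mb.1 mb.2, key2 _ h2 ma.1 mb.1, key2 _ h3 ma.2 mb.2⟩

/-- no pendant below the first two elements -/
lemma dl_pen01 (D : DLg r j K psi (cext (j + 1) (topOf : P → Tops P) t) w v m x) {k : ℕ}
    (hk : k ≤ 1) : pen (x k) = ∅ := by
  classical
  obtain ⟨a, b, hab, ua, ub, d0, d1⟩ := dl_twins D
  have key : ∀ s : P, dc s = {a, b} → pen s = ∅ := by
    intro s hs
    rw [eq_empty_iff_forall_notMem]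
    intro q hq
    obtain ⟨h1, h2⟩ := mem_pen.1 hq
    have h3 := mem_dc.2 h1
    rw [hs, mem_insert, mem_singleton] at h3
    rcases h3 with rfl | rfl
    · rw [ua, card_pair D.n01] at h2
      omega
    · rw [ub, card_pair D.n01] at h2
      omega
  have hk3 : k = 0 ∨ k = 1 := by omega
  rcases hk3 with rfl | rfl
  · exact key _ d0
  · exact key _ d1

/-- every double is over two neighbours -/
lemma dl_double (h : NJ P r j)
    (D : DLg r j K psi (cext (j + 1) (topOf : P → Tops P) t) w v m x) {y : P}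
    (hl : lev y = j + 1) (hy : (uc y).card = 2) (ht : topOf y = t) :
    ∃ k, k < m ∧ k ≠ 1 ∧ uc y = {x k, x (k + 1)} := by
  classical
  have H := D.W.H
  obtain ⟨p, q, hpq, huy⟩ := card_eq_two.1 hy
  have mp : p ∈ uc y := by rw [huy]; exact mem_insert_self _ _
  have mq : q ∈ uc y := by rw [huy]; exact mem_insert_of_mem (mem_singleton_self _)
  have tp : topOf p = t := by
    rw [← ht]
    exact (h.split (mem_uc.1 mp) (by omega)).symm
  have tq : topOf q = t := by
    rw [← ht]
    exact (h.split (mem_uc.1 mq) (by omega)).symm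
  have hsite : ∀ p : P, lev p = j → topOf p = t → ∃ k, k ≤ m ∧ x k = p := by
    intro p hp ht
    exact D.W.surj p (mem_cext_of_le h.split (by omega) ht) hp
  obtain ⟨k, hk, rfl⟩ := hsite p (by have := lev_uc H mp; omega) tp
  obtain ⟨l, hl, rfl⟩ := hsite q (by have := lev_uc H mq; omega) tq
  have hkl : k ≠ l := by
    rintro rfl
    exact hpq rfl
  obtain ⟨k, l, hk, hl, hkl, huy⟩ : ∃ k l, k ≤ m ∧ l ≤ m ∧ k < l ∧ uc y = {x k, x l} := by
    rcases Nat.lt_or_ge k l with h1 | h1
    · exact ⟨k, l, hk, hl, h1, huy⟩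
    · exact ⟨l, k, hl, hk, by omega, by rw [huy, pair_comm]⟩
  have hd : 1 ≤ dcv (x k) (x l) := by
    unfold dcv
    refine card_pos.2 ⟨y, mem_filter.2 ⟨mem_univ _, mem_uc.1 ?_, mem_uc.1 ?_⟩⟩
    · rw [huy]; exact mem_insert_self _ _
    · rw [huy]; exact mem_insert_of_mem (mem_singleton_self _)
  rw [D.dn k l hkl hl] at hd
  have hl1 : l = k + 1 := by
    by_contra hcon
    rw [if_neg hcon] at hd
    omega
  subst hl1
  refine ⟨k, by omega, ?_, huy⟩
  rintro rfl
  rw [if_pos rfl] at hd
  norm_num at hd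

namespace ClDL

variable (F : ClDL P r i t m x c lo hi e)
include F

/-- the joins of a pendant and a double inside the part, at least five sites -/
lemma n5_le4 (D : DLg r (i + 1) K psi (cext (i + 1 + 1) (topOf : P → Tops P) t) w v m x) :
    2 * n5 i (SS i t) ≤ OCs (i + 1) (cext (i + 1 + 1) (topOf : P → Tops P) t) w v := by
  classical
  have h := F.h
  have H := h.g.H
  have hm := F.hm
  have hSS : SS i t = cext (i + 1 + 1) (topOf : P → Tops P) t := (h.cext_eq (by omega) t).symm
  unfold n5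
  rw [← W1.nfc_eq h rfl F.hi1 t]
  have top_eq : ∀ {y z : P}, z ∈ cext (i + 1 + 1) (topOf : P → Tops P) t → z ≤ y →
      lev y ≤ i + 1 + 1 → topOf y = t := by
    intro y z hz hzy hl
    exact mem_cext.1 hz y hzy hl
  have key : ∀ a ∈ Rd.NfC i (SS i t), a ∈ Z4 (i + 1) (cext (i + 1 + 1) (topOf : P → Tops P) t) \
      T4 (i + 1) (cext (i + 1 + 1) (topOf : P → Tops P) t) ∧
      (2 : ℤ) ≤ 2 - 2 * (tz (i + 1) a * (Nx (i + 1) w a - Nx (i + 1) v a)) := by
    intro a ha
    rw [Rd.mem_NfC] at ha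
    obtain ⟨z, z2, p, p2, y, S⟩ := ha
    obtain ⟨l1, l2, l3, l4, l5⟩ := S.lv H
    have haC : a ∈ cext (i + 1 + 1) (topOf : P → Tops P) t := by rw [← hSS]; exact S.mc
    have la : lev a = i + 1 + 2 := by
      have := lev_uc H (show z ∈ uc a by rw [S.ua]; simp)
      omega
    have hsts : up (i + 1) a = 3 := by
      rw [up_two H la S.ua, S.uz, S.uz2]
      rw [show ({p, p2} ∪ {y} : Finset P) = {p, p2, y} by
        ext q
        simp only [mem_union, mem_insert, mem_singleton]
        tauto]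
      exact card_eq_three.2 ⟨p, p2, y, S.ww, S.yw.symm, S.yw2.symm, rfl⟩
    have hZL : a ∈ ZL (i + 1) (cext (i + 1 + 1) (topOf : P → Tops P) t) :=
      mem_ZL.2 ⟨haC, la, hsts⟩
    refine ⟨?_, ?_⟩
    · rw [mem_sdiff]
      refine ⟨mem_Z4.2 (Or.inl hZL), fun hT => ?_⟩
      rcases mem_T4.1 hT with ⟨-, h3⟩ | ⟨h3, -⟩
      · have := h3 z2 (by rw [S.ua]; simp)
        rw [S.uz2, card_singleton] at this
        omega
      · have := (mem_ZU.1 h3).2.1
        omega
    · have hsit : sit (i + 1) a = uc z ∪ uc z2 := by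
        rw [sit_low H (by omega), Rd.sts_bi H la, S.ua, biUnion_insert, singleton_biUnion]
      have htz : tz (i + 1) a = -1 := by
        unfold tz
        rw [if_pos (by omega)]
      have az : a ⋖ z := mem_uc.1 (by rw [S.ua]; simp)
      have az2 : a ⋖ z2 := mem_uc.1 (by rw [S.ua]; simp)
      have lz : lev z = i + 1 + 1 := by have := lev_cov H az; omega
      have lz2 : lev z2 = i + 1 + 1 := by have := lev_cov H az2; omega
      have tz1 : topOf z = t := top_eq haC az.le (by omega)
      have tz2 : topOf z2 = t := top_eq haC az2.le (by omega)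
      have cz : (uc z).card = 2 := by rw [S.uz, card_pair S.ww]
      obtain ⟨k, hk, hk1, huz⟩ := dl_double h D lz cz tz1
      have hy0 : x 0 ∉ uc z2 := by
        intro h1
        have h2 := dl_pen01 D (k := 0) (by omega)
        have h3 : z2 ∈ pen (x 0) := mem_pen.2 ⟨mem_uc.1 h1, by rw [S.uz2, card_singleton]⟩
        rw [h2] at h3
        exact absurd h3 (notMem_empty _)
      have hle : Nx (i + 1) v a ≤ Nx (i + 1) w a := by
        unfold Nx
        have e0 : ed x 0 = ({x 0, x 1} : Finset P) := rfl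
        have e1 : ed x 1 = ({x 1, x 2} : Finset P) := rfl
        rw [D.nw, D.nv, hsit, e0, e1]
        by_cases hd : Disjoint ({x 1, x 2} : Finset P) (uc z ∪ uc z2)
        · rw [if_pos hd, if_pos]
          rw [disjoint_left] at hd ⊢
          intro q hq hq2
          rw [mem_insert, mem_singleton] at hq
          rcases hq with rfl | rfl
          · rw [mem_union] at hq2
            rcases hq2 with hq2 | hq2
            · have hk0 : k = 0 := by
                rw [huz, mem_insert, mem_singleton] at hq2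
                by_contra hk0
                rcases hq2 with hq2 | hq2
                · exact D.W.ne (a := 0) (b := k) (by omega) (by omega) (by omega) hq2
                · exact D.W.ne (a := 0) (b := k + 1) (by omega) (by omega) (by omega) hq2
              subst hk0
              refine hd (mem_insert_self _ _) (mem_union_left _ ?_)
              rw [huz]
              exact mem_insert_of_mem (mem_singleton_self _)
            · exact hy0 hq2
          · exact hd (mem_insert_self _ _) hq2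
        · rw [if_neg hd]
          split_ifs <;> norm_num
      rw [htz]
      linarith
  have h1 : ∑ a ∈ Rd.NfC i (SS i t), (2 : ℤ) ≤ ∑ a ∈ Rd.NfC i (SS i t),
      (2 - 2 * (tz (i + 1) a * (Nx (i + 1) w a - Nx (i + 1) v a))) :=
    Finset.sum_le_sum fun a ha => (key a ha).2
  have h2 : ∑ a ∈ Rd.NfC i (SS i t), (2 - 2 * (tz (i + 1) a * (Nx (i + 1) w a - Nx (i + 1) v a))) ≤
      ∑ a ∈ Z4 (i + 1) (cext (i + 1 + 1) (topOf : P → Tops P) t) \
        T4 (i + 1) (cext (i + 1 + 1) (topOf : P → Tops P) t),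
          (2 - 2 * (tz (i + 1) a * (Nx (i + 1) w a - Nx (i + 1) v a))) := by
    refine Finset.sum_le_sum_of_subset_of_nonneg (fun a ha => (key a ha).1) fun a _ _ => ?_
    have := tz_le (i := i + 1) (w := w) (v := v) a
    linarith
  rw [sum_const, nsmul_eq_mul] at h1
  unfold OCs
  linarith

end ClDL

end Pool.Agent.GaussPoset.EK

end

/-! From `Pool.Agent.W_448cl_h64.ClT` -/

section

/-!
MP_448cb3_co, G2, case B, windows `j - 1` and `j`: a row with the pattern [DL], the doubled end closed: the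
three cases of the pendants.  helper64.
-/

namespace Pool.Agent.GaussPoset.EK

set_option linter.unusedSectionVars false

open Finset Win St Polynomial Wd Win.W4 Win.Rc Win.Pn
open Pool.Agent.GaussPoset.Win.SO (PN vp mem_PN N1f mem_N1f N5f CQ envc chc)

universe u

variable {P : Type u} [Fintype P] [PartialOrder P] [DecidableEq P] {r i j : ℕ}

variable {m : ℕ} {x : ℕ → P} {c : ℕ → ℤ} {β : ℤ} {t : Tops P} {lo hi : ℕ → ℕ} {e : ℕ → ℕ → P}

variable {K : Finset P} {psi : P → P} {w v : P}

namespace ClDL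

variable (F : ClDL P r i t m x c lo hi e)
include F

lemma pen01 {k : ℕ} (hk : k ≤ 1) : pen (x k) = ∅ := by
  obtain ⟨K, psi, R⟩ := exists_red P (i + 1)
  obtain ⟨w, v, D⟩ := F.dlg R
  exact dl_pen01 D hk

/-- THE PENDANTS: none; one below the other end, closed; one below the second last element in one late
word -/
theorem pend_cases (S : Shape (i + 1) lo hi) :
    (∀ q ∈ SS i t, q ∉ PD P i ∧ q ∉ PU P i) ∨
    (∃ p u, PdC i t lo hi e (x m) p u ∧ (uc (x m)).card = 2 ∧ FU' i (SS i t) = ∅ ∧ nn i p ≤ 4) ∨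
    (∃ p u, PdC i t lo hi e (x 2) p u ∧ m = 3 ∧ FU' i (SS i t) = ∅ ∧ nn i p ≤ 5 ∧
      (∀ k, k ≤ 3 → x k = e (i + 1) (hi (i + 1) - k)) ∧
      ∃ a, 3 ≤ a ∧ a + 7 = i + 1 ∧ (∀ k, k < a → lo k = 0 ∧ hi k = 0) ∧ (lo a = 0 ∧ hi a = 1) ∧
        word lo hi a 7 = W7) := by
  classical
  have h := F.h
  have H := h.g.H
  have C := F.C
  have hm := F.hm
  have hb := F.big
  obtain ⟨hV, hor⟩ := F.coord
  rcases h.pd_coord rfl F.hi1 C hb with hN | ⟨n, hn, y, p, u, D, hcase⟩
  · exact Or.inl hN
  right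
  subst hn
  have lp := (mem_PD.1 D.pd).1
  have hpy : p ⋖ y := by rw [← mem_uc, D.up]; simp
  have ly : lev y = n + 3 := by have := lev_cov H hpy; omega
  have hyt : y ≤ (t : P) := by
    have h1 : y ∈ SS (n + 2) t := (h.part (i := n + 2) (k := n + 3 + 1) (by omega) (by omega) t).up
      D.mp hpy
    exact (h.mem (by omega) t (by omega)).1 h1
  have e1 : lo (n + 2 + 1) = lo (n + 3) := rfl
  have e2 : hi (n + 2 + 1) = hi (n + 3) := rfl
  rw [e1, e2] at hV hor
  obtain ⟨q1, q2⟩ := cl_shape (n := n) S (fun k hk => C.lo_step k (by omega))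
    (fun k hk => C.hi_step k (by omega)) (fun k hk => C.hi_le (by omega)) (by omega) (by omega)
  rcases hcase with ⟨c1, c2, c3, c4, c5⟩ | ⟨c1, c2, c3, c4, c5⟩
  · right
    obtain ⟨a, a1, a2, a3, a4, a5⟩ := q1 c1 c2
    obtain ⟨w1, w2⟩ := word_spec a5
    obtain rfl : n = a + 4 := by omega
    have f6 : lo (a + 7) = lo (a + 6) := by
      have h5 := (w2 6 (by omega)).1
      rw [show W7[6]?.map Prod.fst = some false by decide] at h5
      have h6 := of_decide_eq_false (Option.some.inj h5).symm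
      push Not at h6
      exact h6
    have f3 : lo (a + 4) = lo (a + 3) := by
      have h5 := (w2 3 (by omega)).1
      rw [show W7[3]?.map Prod.fst = some false by decide] at h5
      have h6 := of_decide_eq_false (Option.some.inj h5).symm
      push Not at h6
      exact h6
    have hcnt := word_count (a := a) (d := 7) (lo := lo) (hi := hi)
      (fun k hk => C.lo_step k (by omega)) (fun k hk => C.hi_step k (by omega))
    rw [a5, show W7.count Wd.CC = 0 by decide, show W7.count Wd.OO = 2 by decide] at hcnt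
    have g1 : lo (a + 4 + 3) = lo (a + 7) := rfl
    have g2 : hi (a + 4 + 3) = hi (a + 7) := rfl
    have g3 : lo (a + 4 + 2) = lo (a + 6) := rfl
    rw [g1, g2] at hV hor
    rcases hor with ⟨o1, o2⟩ | ⟨o1, o2⟩
    · exfalso
      omega
    · have hm3 : m = 3 := by omega
      subst hm3
      have hx2 : y = x 2 := by
        rw [c4, o2 2 (by omega)]
        show e (a + 4 + 3) _ = e (a + 4 + 2 + 1) _
        congr 1
        show lo (a + 4 + 2) + 1 = hi (a + 4 + 2 + 1) - 2
        have g4 : hi (a + 4 + 2 + 1) = hi (a + 7) := rfl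
        omega
      have n1 := h.near_left C ly hyt D.sp hb c2 c5
      have n2 := h.fup_left C D hb c3 (by
        intro k hk
        obtain rfl : k = a + 3 := by omega
        exact f3)
      rw [hx2] at D
      refine ⟨p, u, D, rfl, n2, ?_, o2, a, a1, a2, a3, a4, a5⟩
      unfold nn
      have k1 : ((nLp (a + 4 + 2) p).card : ℤ) ≤ 3 := by exact_mod_cast n1.1
      have k2 : ((nUp (a + 4 + 2) p).card : ℤ) ≤ 2 := by exact_mod_cast n1.2
      linarith
  · obtain ⟨q3, q4⟩ := q2 c1 c2
    rcases hor with ⟨o1, o2⟩ | ⟨o1, o2⟩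
    · left
      have hxm : y = x m := by
        rw [c4, o2 m le_rfl, ← q3]
        show e (n + 3) _ = e (n + 2 + 1) _
        congr 1
      have n1 := h.near_right C ly hyt D.sp hb c2 c5 q3
      have n2 := h.fup_right C D hb c3 q4
      have hcard : (uc y).card = 2 := by
        rw [c5, card_pair]
        intro hq
        have := h.nr_eq C (by omega) (by omega) (by omega) (by omega) le_rfl hq
        omega
      rw [hxm] at D hcard
      refine ⟨p, u, D, hcard, n2, ?_⟩
      unfold nn
      have k1 : ((nLp (n + 2) p).card : ℤ) ≤ 2 := by exact_mod_cast n1.1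
      have k2 : ((nUp (n + 2) p).card : ℤ) ≤ 2 := by exact_mod_cast n1.2
      linarith
    · exfalso
      have hx0 : y = x 0 := by
        rw [c4, o2 0 (by omega), ← q3]
        rfl
      have h1 : p ∈ pen (x 0) := by
        rw [← hx0]
        exact mem_pen.2 ⟨hpy, by rw [D.up, card_singleton]⟩
      rw [F.pen01 (k := 0) (by omega)] at h1
      exact absurd h1 (notMem_empty _)

end ClDL

end Pool.Agent.GaussPoset.EK

end
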