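import Mathlib
import Pool.Agent.W_448zz_h61.Ns
import Pool.Agent.W_448zz_h61.M253
import Pool.Agent.W_448zz_h61.M271
import Pool.Agent.W_448zz_h61.M276

/-! From `Pool.Agent.W_448cl_h64.ClU` -/

section

/-!
MP_448cb3_co, G2, case B, windows `j - 1` and `j`: a row with the pattern [DL], the doubled end closed: the
own value and the share of the pendant.  helper64.
-/

namespace Pool.Agent.GaussPoset.EK

set_option linter.unusedSectionVars false

open Finset Win St Polynomial Wd Win.W4 Win.Rc Win.Pn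
open Pool.Agent.GaussPoset.Win.SO (PN vp mem_PN N1f mem_N1f N5f CQ envc chc)

universe u

variable {P : Type u} [Fintype P] [PartialOrder P] [DecidableEq P] {r i j : ℕ}

variable {m : ℕ} {x : ℕ → P} {c : ℕ → ℤ} {β : ℤ} {t : Tops P} {lo hi : ℕ → ℕ} {e : ℕ → ℕ → P}

variable {K : Finset P} {psi : P → P} {w v : P}

/-- the part at the window `j` -/
noncomputable abbrev Cx (i : ℕ) (t : Tops P) : Finset P := cext (i + 1 + 1) (topOf : P → Tops P) t

namespace ClDL

variable (F : ClDL P r i t m x c lo hi e)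
include F

/-- THE OWN VALUE -/
theorem own_ge {q : ℕ} (hq : q ≤ m)
    (h0 : ∀ z, z ∈ FL i (SS i t) ∨ z ∈ FU' i (SS i t) → sit i z = uc (x q)) :
    2 - fa i (SS i t) + fa i (SS i t) ^ 2 + 2 * (if q = 3 then fa i (SS i t) else 0) -
      4 * fm i (SS i t) x 0 + 2 * n1 i (SS i t) - 4 * n5 i (SS i t) + Ow (i + 1) (Cx i t) ≤
        own ⟨-1, 9, 1, 4, 3, -1, 2, 13, 0⟩ i (i + 1) t := by
  have h4 := F.sites4
  have hm := F.hm
  have o1 := NJ.own1_closed F.h rfl F.hi1 F.B ⟨-1, 9, 1, 4, 3, -1, 2, 13, 0⟩ (by omega) h4 F.c0 F.c1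
    F.c2 F.hu hq h0
  have hc := F.cqs_ge
  have he := Int.natCast_nonneg (Rd.ETs i (SS i t)).card
  rw [F.own_split, o1]
  simp only
  linarith

/-- no pendants: nothing at the window `j - 1` -/
lemma none_vals (hN : ∀ q ∈ SS i t, q ∉ PD P i ∧ q ∉ PU P i) :
    FL i (SS i t) = ∅ ∧ FU' i (SS i t) = ∅ ∧
      (PD P i).filter (fun p => (topOf p : Tops P) = t) = ∅ := by
  classical
  have h := F.h
  have H := h.g.H
  refine ⟨?_, ?_, ?_⟩
  · rw [eq_empty_iff_forall_notMem]
    intro w hw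
    rw [mem_FL] at hw
    obtain ⟨hw1, z, hz1, hz2⟩ := hw
    have hzw : w ⋖ z := by rw [← mem_uc, hz2]; simp
    have hz : z ∈ SS i t := (h.part (i := i) (k := i + 1 + 1) (by omega) (by omega) t).up hw1 hzw
    exact (hN z hz).1 hz1
  · rw [eq_empty_iff_forall_notMem]
    intro w hw
    rw [mem_FU'] at hw
    obtain ⟨hw1, z, hz1, hz2⟩ := hw
    have lz := (mem_PU.1 hz1).1
    have hzw : z ⋖ w := by rw [← mem_dc, hz2]; simp
    have lw := lev_cov H hzw
    have hwt : w ≤ (t : P) := (h.mem (by omega) t (by omega)).1 hw1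
    have hzS : z ∈ SS i t := (h.mem (by omega) t (by omega)).2 (hzw.le.trans hwt)
    exact (hN z hzS).2 hz1
  · rw [eq_empty_iff_forall_notMem]
    intro q hq
    rw [mem_filter] at hq
    obtain ⟨hq1, hq2⟩ := hq
    have lq := (mem_PD.1 hq1).1
    exact (hN q ((h.mem (by omega) t (by omega)).2 (hq2 ▸ le_topOf q))).1 hq1

/-- one pendant below `x q` -/
lemma one_vals {p u : P} {q : ℕ} (D : PdC i t lo hi e (x q) p u) :
    FL i (SS i t) = ks p ∧
      (∀ z, z ∈ FL i (SS i t) ∨ z ∈ FU' i (SS i t) → sit i z = uc (x q)) ∧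
      (PD P i).filter (fun p => (topOf p : Tops P) = t) = {p} := by
  classical
  have h := F.h
  have H := h.g.H
  have lp := (mem_PD.1 D.pd).1
  have lu := (mem_PU.1 D.pu).1
  have fl : FL i (SS i t) = ks p := by
    ext w
    rw [mem_FL, mem_ks]
    constructor
    · rintro ⟨hw1, z, hz1, hz2⟩
      have hzw : w ⋖ z := by rw [← mem_uc, hz2]; simp
      have hz : z ∈ SS i t := (h.part (i := i) (k := i + 1 + 1) (by omega) (by omega) t).up hw1 hzw
      rw [hz2, D.low z hz hz1]
    · intro hw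
      refine ⟨?_, p, D.pd, hw⟩
      have hwp : w ⋖ p := by rw [← mem_uc, hw]; simp
      have lw := lev_cov H hwp
      have hp := D.mp
      unfold SS at hp ⊢
      rw [mem_cext] at hp ⊢
      intro v hv hlv
      refine hp v ?_ hlv
      rcases eq_or_lt_of_le hv with rfl | hv'
      · omega
      · obtain ⟨v', q1, q2⟩ := exists_covBy_le_of_lt hv'
        rw [← mem_uc, hw, mem_singleton] at q1
        rwa [← q1]
  refine ⟨fl, ?_, ?_⟩
  · intro z hz
    rcases hz with hz | hz
    · rw [fl, mem_ks] at hz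
      rw [sit_FL H D.pd hz, ← D.sp, sit_low H (by omega)]
    · rw [mem_FU'] at hz
      obtain ⟨hw1, v, hz1, hz2⟩ := hz
      have lz := (mem_PU.1 hz1).1
      have hzw : v ⋖ z := by rw [← mem_dc, hz2]; simp
      have lw := lev_cov H hzw
      have hwt : z ≤ (t : P) := (h.mem (by omega) t (by omega)).1 hw1
      have hzS : v ∈ SS i t := (h.mem (by omega) t (by omega)).2 (hzw.le.trans hwt)
      obtain rfl := D.upp v hzS hz1
      rw [sit_FU H D.pu hz2, ← D.su, sit_upp H (by omega)]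
  · ext w
    rw [mem_filter, mem_singleton]
    constructor
    · rintro ⟨hq1, hq2⟩
      have lq := (mem_PD.1 hq1).1
      exact D.low w ((h.mem (by omega) t (by omega)).2 (hq2 ▸ le_topOf w)) hq1
    · rintro rfl
      refine ⟨D.pd, ?_⟩
      have hwt : w ≤ (t : P) := (h.mem (by omega) t (by omega)).1 D.mp
      refine Subtype.ext ?_
      exact Hul.top_unique (h.nj (by omega)) (topOf w).2 t.2 (le_topOf w) hwt

/-- the numbers of the pendant -/
lemma pd_num (p : P) : 0 ≤ kc p ∧ 0 ≤ zc i (topOf : P → Tops P) p ∧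
    kc p + zc i (topOf : P → Tops P) p ≤ 2 ∧
    ∑ z ∈ zs i (topOf : P → Tops P) p, kc z ≤ 2 * zc i (topOf : P → Tops P) p := by
  refine ⟨?_, ?_, F.h.ks_zs_le rfl p, ?_⟩
  · unfold kc
    exact Int.natCast_nonneg _
  · unfold zc
    exact Int.natCast_nonneg _
  · have h1 : ∑ z ∈ zs i (topOf : P → Tops P) p, kc z ≤ ∑ _z ∈ zs i (topOf : P → Tops P) p, 2 :=
      Finset.sum_le_sum fun z _ => kc_le F.h.g.H z
    rw [sum_const, nsmul_eq_mul] at h1
    unfold zc
    linarith

/-- the share of the pendant below the closed other end is not negative -/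
theorem shr_closed {p u : P} (D : PdC i t lo hi e (x m) p u) (hU : FU' i (SS i t) = ∅)
    (hn : nn i p ≤ 4) : 0 ≤ shr ⟨-1, 9, 1, 4, 3, -1, 2, 13, 0⟩ i p := by
  classical
  have h4 := F.sites4
  have hm := F.hm
  obtain ⟨fl, -, -⟩ := F.one_vals D
  obtain ⟨k0, z0, kz, ks2⟩ := F.pd_num p
  have s1 := F.h.shr_row rfl F.hi1 F.B ⟨-1, 9, 1, 4, 3, -1, 2, 13, 0⟩ h4 (le_refl m) D.up D.pd
  have s6 : fa i (SS i t) = kc p := by
    unfold fa kc
    rw [fl, hU, card_empty]
    push_cast
    ring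
  have s2 : ∑ l ∈ (Ed x m).filter (fun l => l ≤ m + 1 ∧ m ≤ l + 2), c l ≤ 0 := by
    refine Finset.sum_nonpos fun l hl => ?_
    rw [mem_filter, Wd.mem_Ed] at hl
    obtain ⟨⟨l1, -, -⟩, l2, l3⟩ := hl
    rcases (by omega : l = 1 ∨ 2 ≤ l) with rfl | h5
    · rw [F.c1]
      norm_num
    · rw [F.c2 l h5 l1]
  have s3 : ((Et x m c).filter (fun l => l ≤ m + 1 ∧ m ≤ l + 2)) = ∅ := by
    rw [eq_empty_iff_forall_notMem]
    intro l hl
    rw [mem_filter, mem_Et, Wd.mem_Ed] at hl
    obtain ⟨⟨⟨l1, -, -⟩, l4⟩, l2, l3⟩ := hl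
    rcases (by omega : l = 1 ∨ 2 ≤ l) with rfl | h5
    · rw [F.c1] at l4
      norm_num at l4
    · rw [F.c2 l h5 l1] at l4
      norm_num at l4
  rw [s1, s3, card_empty, s6]
  simp only
  push_cast
  generalize ∑ l ∈ (Ed x m).filter (fun l => l ≤ m + 1 ∧ m ≤ l + 2), c l = s at s2 ⊢
  generalize ∑ z ∈ zs i (topOf : P → Tops P) p, kc z = kk at ks2 ⊢
  generalize zc i (topOf : P → Tops P) p = z at z0 kz ks2 ⊢
  generalize kc p = k at k0 kz ⊢
  generalize nn i p = n at hn ⊢
  have h1 : z ≤ 2 := by omega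
  have h2 : k ≤ 2 := by omega
  interval_cases z <;> interval_cases k <;> omega

/-- the share of the pendant below `x 2` -/
theorem shr_late {p u : P} (D : PdC i t lo hi e (x 2) p u) (hm3 : m = 3)
    (hU : FU' i (SS i t) = ∅) (hn : nn i p ≤ 5) :
    (kc p + zc i (topOf : P → Tops P) p ≤ 1 → -12 ≤ 2 * (kc p ^ 2 - 5 * kc p) +
      shr ⟨-1, 9, 1, 4, 3, -1, 2, 13, 0⟩ i p) ∧
    -20 ≤ 2 * (kc p ^ 2 - 5 * kc p) + shr ⟨-1, 9, 1, 4, 3, -1, 2, 13, 0⟩ i p := by
  classical
  have h4 := F.sites4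
  have hm := F.hm
  subst hm3
  obtain ⟨fl, -, -⟩ := F.one_vals D
  obtain ⟨k0, z0, kz, ks2⟩ := F.pd_num p
  obtain ⟨hin, -, -⟩ := NJ.inner F.h rfl F.hi1 F.B
  have s1 := F.h.shr_row rfl F.hi1 F.B ⟨-1, 9, 1, 4, 3, -1, 2, 13, 0⟩ h4 (k := 2) (by omega) D.up
    D.pd
  have s6 : fa i (SS i t) = kc p := by
    unfold fa kc
    rw [fl, hU, card_empty]
    push_cast
    ring
  have s2 : ∑ l ∈ (Ed x 3).filter (fun l => l ≤ 2 + 1 ∧ 2 ≤ l + 2), c l = 0 := by
    have h5 : ∑ l ∈ (Ed x 3).filter (fun l => l ≤ 2 + 1 ∧ 2 ≤ l + 2), c l =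
        ∑ l ∈ ({0, 1} : Finset ℕ), c l := by
      symm
      refine Finset.sum_subset ?_ ?_
      · intro l hl
        rw [mem_insert, mem_singleton] at hl
        rcases hl with rfl | rfl
        · rw [mem_filter, Wd.mem_Ed]
          exact ⟨⟨by omega, F.hu, hin 1 (by omega) (by omega)⟩, by omega, by omega⟩
        · rw [mem_filter, Wd.mem_Ed]
          exact ⟨⟨by omega, hin 1 (by omega) (by omega), hin 2 (by omega) (by omega)⟩, by omega,
            by omega⟩
      · intro l hl hn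
        rw [mem_filter, Wd.mem_Ed] at hl
        rw [mem_insert, mem_singleton] at hn
        push Not at hn
        exact F.c2 l (by omega) hl.1.1
    rw [h5, sum_pair (by norm_num), F.c0, F.c1]
    norm_num
  have s3 : ((((Et x 3 c).filter (fun l => l ≤ 2 + 1 ∧ 2 ≤ l + 2)).card : ℕ) : ℤ) ≤ 1 := by
    have h5 : ((Et x 3 c).filter (fun l => l ≤ 2 + 1 ∧ 2 ≤ l + 2)) ⊆ {0} := by
      intro l hl
      rw [mem_filter, mem_Et, Wd.mem_Ed] at hl
      obtain ⟨⟨⟨l1, -, -⟩, l4⟩, l2, l3⟩ := hl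
      rw [mem_singleton]
      by_contra hne
      rcases (by omega : l = 1 ∨ 2 ≤ l) with rfl | h5
      · rw [F.c1] at l4
        norm_num at l4
      · rw [F.c2 l h5 l1] at l4
        norm_num at l4
    have h6 := card_le_card h5
    rw [card_singleton] at h6
    exact_mod_cast h6
  rw [s1, s2, s6]
  simp only
  have s5 := Int.natCast_nonneg ((Et x 3 c).filter (fun l => l ≤ 2 + 1 ∧ 2 ≤ l + 2)).card
  generalize (((Et x 3 c).filter (fun l => l ≤ 2 + 1 ∧ 2 ≤ l + 2)).card : ℤ) = E at s3 s5 ⊢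
  generalize ∑ z ∈ zs i (topOf : P → Tops P) p, kc z = kk at ks2 ⊢
  generalize zc i (topOf : P → Tops P) p = z at z0 kz ks2 ⊢
  generalize kc p = k at k0 kz ⊢
  generalize nn i p = n at hn ⊢
  have h1 : z ≤ 2 := by omega
  have h2 : k ≤ 2 := by omega
  constructor
  · intro h3
    interval_cases z <;> interval_cases k <;> omega
  · interval_cases z <;> interval_cases k <;> omega

end ClDL

end Pool.Agent.GaussPoset.EK

end

/-! From `Pool.Agent.W_448cl_h64.ClV` -/

section

/-!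
MP_448cb3_co, G2, case B, windows `j - 1` and `j`: a row with the pattern [DL], the doubled end closed: the
value of the window `j`.  helper64.
-/

namespace Pool.Agent.GaussPoset.Win.W4

set_option linter.unusedSectionVars false

open Finset
open Pool.Agent.GaussPoset.Win.SO (PN vp con on mem_PN vp_PD vp_PU)

universe u

variable {P : Type u} [Fintype P] [PartialOrder P] [DecidableEq P] {r i : ℕ}
variable {psi : P → P} {C K : Finset P} {w v : P} {m : ℕ} {x : ℕ → P}

namespace DLg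

variable (h : DLg r i K psi C w v m x)
include h

/-- four sites, one upper pendant over the last pair -/
theorem Ow_ge3U' (hm3 : m = 3) (hu : (uc (x 0)).card = 2) (hU : (UE i C x 2).card = 1)
    (hp : pen (x 2) = ∅) (h3 : (uc (x 3)).card + (pen (x 3)).card ≤ 1) {n : ℤ}
    (hn : n ≤ ((Z4 i C).card : ℤ) - (T4 i C).card) : 1 + 4 * n ≤ Ow i C := by
  have h5 := h.NE0_sq hu
  have e2 : NE i C x 2 = ((DE i C x 2).card : ℤ) - 1 := by
    unfold NE
    rw [hU]
    push_cast
    ring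
  rw [h.Ow_form3 hm3 hu, e2, hp, card_empty]
  have hsq : ((uc (x 3)).card : ℤ) + (pen (x 3)).card ≤ 1 := by exact_mod_cast h3
  have hs0 : (0 : ℤ) ≤ (uc (x 3)).card := by positivity
  have hq0 : (0 : ℤ) ≤ (pen (x 3)).card := by positivity
  rcases h.CH2_num with ⟨d, c⟩ | ⟨d, c⟩ | ⟨d, c⟩ <;> rw [d] <;> push_cast <;> linarith

/-- four sites, one pendant below `x 2`, the other end open and without pendants -/
theorem Ow_ge3B' (hm3 : m = 3) (hu : (uc (x 0)).card = 2) (hU : UE i C x 2 = ∅)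
    (hp : (pen (x 2)).card = 1) (h3 : (uc (x 3)).card = 1) (hp3 : pen (x 3) = ∅) {n : ℤ}
    (hn : n ≤ ((Z4 i C).card : ℤ) - (T4 i C).card) :
    ((DE i C x 2).card = 0 ∧ 18 + 4 * n ≤ Ow i C) ∨
      ((DE i C x 2).card = 1 ∧ 8 + 4 * n ≤ Ow i C) ∨
      ((DE i C x 2).card = 2 ∧ 2 + 4 * n ≤ Ow i C) := by
  have h5 := sq_two_sub (NE i C x 0)
  have e2 : NE i C x 2 = ((DE i C x 2).card : ℤ) := by
    unfold NE
    rw [hU, card_empty]
    push_cast
    ring
  rw [h.Ow_form3 hm3 hu, e2, hp, h3, hp3, card_empty]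
  rcases h.CH2_num with ⟨d, c⟩ | ⟨d, c⟩ | ⟨d, c⟩
  · refine Or.inl ⟨d, ?_⟩
    rw [d]
    push_cast
    linarith
  · refine Or.inr (Or.inl ⟨d, ?_⟩)
    rw [d]
    push_cast
    linarith
  · refine Or.inr (Or.inr ⟨d, ?_⟩)
    rw [d]
    push_cast
    linarith

end DLg

end Pool.Agent.GaussPoset.Win.W4

namespace Pool.Agent.GaussPoset.EK

set_option linter.unusedSectionVars false

open Finset Win St Polynomial Wd Win.W4 Win.Rc Win.Pn
open Pool.Agent.GaussPoset.Win.SO (PN vp mem_PN N1f mem_N1f N5f CQ envc chc)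

universe u

variable {P : Type u} [Fintype P] [PartialOrder P] [DecidableEq P] {r i j : ℕ}

variable {m : ℕ} {x : ℕ → P} {c : ℕ → ℤ} {β : ℤ} {t : Tops P} {lo hi : ℕ → ℕ} {e : ℕ → ℕ → P}

variable {K : Finset P} {psi : P → P} {w v : P}

namespace ClDL

variable (F : ClDL P r i t m x c lo hi e)
include F

lemma n5_le3 : n5 i (SS i t) ≤
    ((Z4 (i + 1) (Cx i t)).card : ℤ) - (T4 (i + 1) (Cx i t)).card := by
  have h1 := NJ.n5_le F.h rfl F.hi1 t
  have h2 : Cx i t = SS (i + 1) t := F.h.cext_eq (i := i + 1) (by omega) t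
  rw [h2]
  exact h1

/-- `w32` -/
lemma w3 : wv (i + 1) (Cx i t) = NE (i + 1) (Cx i t) x 2 - 1 := by
  obtain ⟨K, psi, R⟩ := exists_red P (i + 1)
  obtain ⟨w, v, D⟩ := F.dlg R
  exact D.w3_eq

/-- THE TWO WINDOWS, at least five sites -/
theorem win4 (h4 : 4 ≤ m) : wv (i + 1) (Cx i t) = ((DE (i + 1) (Cx i t) x 2).card : ℤ) - 1 ∧
    (((DE (i + 1) (Cx i t) x 2).card = 0 ∧ 0 ≤ 2 * n1 i (SS i t) - 4 * n5 i (SS i t) +
        Ow (i + 1) (Cx i t)) ∨
      ((DE (i + 1) (Cx i t) x 2).card = 1 ∧ -1 ≤ 2 * n1 i (SS i t) - 4 * n5 i (SS i t) +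
        Ow (i + 1) (Cx i t)) ∨
      ((DE (i + 1) (Cx i t) x 2).card = 2 ∧ -6 ≤ 2 * n1 i (SS i t) - 4 * n5 i (SS i t) +
        Ow (i + 1) (Cx i t))) := by
  obtain ⟨K, psi, R⟩ := exists_red P (i + 1)
  obtain ⟨w, v, D⟩ := F.dlg R
  have hU := D.W.ue_inner (k := 2) (by omega) (by omega)
  have hw := F.w3
  unfold NE at hw
  rw [hU, card_empty] at hw
  push_cast at hw
  refine ⟨by linarith, ?_⟩
  have hn := F.n1_ge h4
  have h5 := F.n5_le4 D
  have hl : -1 ≤ NE (i + 1) (Cx i t) x (m - 1) := by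
    unfold NE
    have := D.W.UE_one (i := i + 1) (C := Cx i t) (m - 1)
    have h6 : ((UE (i + 1) (Cx i t) x (m - 1)).card : ℤ) ≤ 1 := by exact_mod_cast this
    have h7 := Int.natCast_nonneg (DE (i + 1) (Cx i t) x (m - 1)).card
    linarith
  rcases D.Ow_ge4 h4 F.hu hl h5 with ⟨d, g⟩ | ⟨d, g⟩ | ⟨d, g⟩
  · refine Or.inl ⟨d, ?_⟩
    have := F.n1_nonneg
    linarith
  · refine Or.inr (Or.inl ⟨d, ?_⟩)
    rw [d] at hn
    push_cast at hn
    linarith
  · refine Or.inr (Or.inr ⟨d, ?_⟩)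
    rw [d] at hn
    push_cast at hn
    linarith

/-- THE TWO WINDOWS, four sites, no pendant below `x 2` -/
theorem win3 (S : Shape (i + 1) lo hi) (hm3 : m = 3) (hp : pen (x 2) = ∅)
    (h3 : (uc (x 3)).card = 2 → (pen (x 3)).card ≤ 1) :
    (1 ≤ 2 * n1 i (SS i t) - 4 * n5 i (SS i t) + Ow (i + 1) (Cx i t)) ∨
    (wv (i + 1) (Cx i t) = 1 ∧ (DE (i + 1) (Cx i t) x 2).card = 2 ∧
      -5 ≤ 2 * n1 i (SS i t) - 4 * n5 i (SS i t) + Ow (i + 1) (Cx i t)) := by
  obtain ⟨K, psi, R⟩ := exists_red P (i + 1)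
  obtain ⟨w, v, D⟩ := F.dlg R
  have hn := F.n5_le3
  have h1 := F.n1_nonneg
  subst hm3
  by_cases hU : UE (i + 1) (Cx i t) x 2 = ∅
  · have h4 : (uc (x 3)).card + (pen (x 3)).card ≤ 3 := by
      have h5 := D.W.pen_le (x 3)
      rcases D.W.uc_le (k := 3) (by omega) with h6 | h6
      · omega
      · have := h3 h6
        omega
    have hw := F.w3
    unfold NE at hw
    rw [hU, card_empty] at hw
    push_cast at hw
    rcases D.Ow_ge3 rfl F.hu hU hp h4 hn with ⟨d, g⟩ | ⟨d, g⟩ | ⟨d, g⟩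
    · left
      linarith
    · left
      linarith
    · right
      rw [d] at hw
      push_cast at hw
      exact ⟨by linarith, d, by linarith⟩
  · left
    have hj : 2 ≤ i + 1 := by have := F.hi1; omega
    have h5 := NJ.pen_three_zero F.h hj F.B F.hu F.C S hU
    have h6 : (UE (i + 1) (Cx i t) x 2).card = 1 := by
      have h7 := D.W.UE_one (i := i + 1) (C := Cx i t) 2
      have h8 := card_pos.2 (nonempty_iff_ne_empty.2 hU)
      omega
    have h7 : (uc (x 3)).card + (pen (x 3)).card ≤ 1 := by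
      rw [h5, card_empty]
      rcases D.W.uc_le (k := 3) (by omega) with h8 | h8
      · omega
      · exfalso
        exact hU (D.W.ue_last (by omega) h8)
    have h8 := D.Ow_ge3U' rfl F.hu h6 hp h7 hn
    linarith

end ClDL

end Pool.Agent.GaussPoset.EK

end

/-! From `Pool.Agent.W_448cl_h64.CmA` -/

section

/-!
MP_448cb3_co, G2, case B: a row with the pattern [DL], the doubled end closed: an upper pendant over the last
pair; then nothing hangs below the last element.  helper64.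
-/

namespace Pool.Agent.GaussPoset.EK

set_option linter.unusedSectionVars false

open Finset Win St Polynomial Wd Win.W4 Win.Rc Win.Pn
open Pool.Agent.GaussPoset.Win.SO (PN vp mem_PN N1f mem_N1f N5f CQ envc chc)

universe u

variable {P : Type u} [Fintype P] [PartialOrder P] [DecidableEq P] {r i j : ℕ}

variable {m : ℕ} {x : ℕ → P} {c : ℕ → ℤ} {β : ℤ} {t : Tops P} {lo hi : ℕ → ℕ} {e : ℕ → ℕ → P}

variable {K : Finset P} {psi : P → P} {w v : P}

/-- the wide words with a closed end and the letters `C O` at the other end: nothing far above -/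
lemma wide_fuw3 {n : ℕ} (C : Cp.Comp (n + 2) (t : P) lo hi e) (S : Shape (n + 2) lo hi)
    (hw : lo (n + 2) + 3 ≤ hi (n + 2)) :
    (lo (n + 2) = lo (n + 1) + 1 → hi (n + 1) = hi n → hi (n + 2) = hi (n + 1) + 1 →
      Wd.fuw lo hi n = 0) ∧
    ¬ (hi (n + 2) = hi (n + 1) ∧ lo (n + 1) = lo n + 1 ∧ lo (n + 2) = lo (n + 1)) := by
  have hl : ∀ k, k < n + 2 → lo k ≤ lo (k + 1) ∧ lo (k + 1) ≤ lo k + 1 := by
    intro k hk
    have := C.lo_step k hk
    omega
  have hh : ∀ k, k < n + 2 → hi k ≤ hi (k + 1) ∧ hi (k + 1) ≤ hi k + 1 := by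
    intro k hk
    have := C.hi_step k hk
    omega
  rcases S with h | ⟨h1, h2⟩ | ⟨h1, h2⟩ | ⟨h1, h2, h3⟩ | ⟨h1, h2⟩ | ⟨a, h0, h1, h2, h3, hN, h4⟩
  · have := h (n + 2) le_rfl
    omega
  · have e1 := h2.hi (n + 1) (by omega)
    have e2 := C.hi_le (k := n) (by omega)
    have e3 := h2.lo (n + 1) (by omega)
    rw [show n + 1 + 1 = n + 2 by omega] at e1 e3
    constructor
    · intros
      omega
    · omega
  · have e4 := h2.lo (n + 1) (by omega)
    rw [show n + 1 + 1 = n + 2 by omega] at e4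
    constructor
    · intro g1 g2 g3
      have e1 := h2.hi n (by omega)
      have e2 := h2.hi (n + 1) (by omega)
      have e3 := h2.hi (n + 2) (by omega)
      have St' : Stair lo hi (n + 2) := ⟨fun k hk => h2.lo k hk, h2.hi⟩
      refine St'.fuw_zero (by omega) (by omega) (fun h4 => ?_)
      have s1 := hl (n + 1) (by omega)
      have s2 := hl n (by omega)
      have s3 := hl (n - 1) (by omega)
      have s4 := hl (n - 2) (by omega)
      have s5 := hh (n - 1) (by omega)
      have s6 := hh (n - 2) (by omega)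
      rw [show n - 1 + 1 = n by omega] at s3 s5
      rw [show n - 2 + 1 = n - 1 by omega] at s4 s6
      omega
    · omega
  · have h5 : n + 2 = 3 := h1
    rw [h5] at hw
    omega
  · have h5 : n + 2 = 6 := h1
    rw [h5] at hw
    unfold F1 at h2
    omega
  · have hlo : ∀ k, k < a + (n + 2 - a) → lo (k + 1) = lo k ∨ lo (k + 1) = lo k + 1 :=
      fun k hk => C.lo_step k (by omega)
    have hhi : ∀ k, k < a + (n + 2 - a) → hi (k + 1) = hi k ∨ hi (k + 1) = hi k + 1 :=
      fun k hk => C.hi_step k (by omega)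
    have hcnt := word_count (a := a) (d := n + 2 - a) (lo := lo) (hi := hi) hlo hhi
    rw [show a + (n + 2 - a) = n + 2 by omega] at hcnt
    rcases h4 with ⟨h5, h6⟩ | h4
    · exfalso
      have h7 := Qw_hi h6 (by omega) hhi
      rw [show a + (n + 2 - a) = n + 2 by omega] at h7
      omega
    · rcases lateW_good a _ h4 with g | g | g
      · exfalso
        omega
      · rcases Nat.eq_zero_or_pos (n + 2 - a) with h5 | h5
        · exfalso
          have : a = n + 2 := by omega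
          rw [this] at h3
          omega
        · have h6 := word_last (by omega) g
          rw [show a + (n + 2 - a) = n + 2 by omega, show n + 2 - 1 = n + 1 by omega] at h6
          constructor
          · intro g1
            omega
          · omega
      · obtain ⟨w1, w2⟩ := word_spec g
        have hl7 : W7.length = 7 := rfl
        rw [hl7] at w1
        obtain rfl : n = a + 5 := by omega
        have f6 : lo (a + 6 + 1) = lo (a + 6) := by
          have h5 := (w2 6 (by omega)).1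
          rw [show W7[6]?.map Prod.fst = some false by decide] at h5
          have h6 := of_decide_eq_false (Option.some.inj h5).symm
          push Not at h6
          exact h6
        have f5 : lo (a + 5 + 1) = lo (a + 5) := by
          have h5 := (w2 5 (by omega)).1
          rw [show W7[5]?.map Prod.fst = some false by decide] at h5
          have h6 := of_decide_eq_false (Option.some.inj h5).symm
          push Not at h6
          exact h6
        constructor
        · intro g1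
          have e1 : lo (a + 5 + 2) = lo (a + 6 + 1) := rfl
          have e2 : lo (a + 5 + 1) = lo (a + 6) := rfl
          omega
        · omega

namespace ClDL

variable (F : ClDL P r i t m x c lo hi e)
include F

/-- the letters at the last pair -/
lemma letters {n : ℕ} (hn : i + 1 = n + 2) {z : P} (hz : z ∈ UE (i + 1) (Cx i t) x (m - 1)) :
    ((∀ k, k ≤ m → x k = e (i + 1) (lo (i + 1) + k)) ∧ lo (n + 2) = lo (n + 1) + 1 ∧
        hi (n + 1) = hi n ∧ hi (n + 2) = hi (n + 1) + 1) ∨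
      ((∀ k, k ≤ m → x k = e (i + 1) (hi (i + 1) - k)) ∧ hi (n + 2) = hi (n + 1) ∧
        lo (n + 1) = lo n + 1 ∧ lo (n + 2) = lo (n + 1)) := by
  classical
  obtain rfl : i = n + 1 := by omega
  have h := F.h
  have H := h.g.H
  have C := F.C
  have B := F.B
  have hm := F.hm
  have W := NJ.prow h (by omega) B (by omega)
  obtain ⟨hlen, hor⟩ := F.coord
  have s1 := C.lo_step n (by omega)
  have s2 := C.lo_step (n + 1) (by omega)
  have s3 := C.hi_step n (by omega)
  have s4 := C.hi_step (n + 1) (by omega)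
  have s5 := C.lo_le n (by omega)
  have s6 := C.lo_le (n + 1) (by omega)
  have e1 : lo (n + 1 + 1) = lo (n + 2) := rfl
  have e2 : hi (n + 1 + 1) = hi (n + 2) := rfl
  rw [e1, e2] at hlen hor
  rw [e1] at s2
  rw [e2] at s4
  have cov' : ∀ s a, lo (n + 2) ≤ s → s ≤ hi (n + 2) → lo (n + 1) ≤ a → a ≤ hi (n + 1) →
      (e (n + 2) s ⋖ e (n + 1) a ↔ a = s ∨ a + 1 = s) := fun s a => C.cov (n + 1) s a (by omega)
  obtain ⟨hzC, hzP, hzs⟩ := mem_UE.1 hz
  obtain ⟨-, u, -, -, -, -, -, hu⟩ := PN_dat H (C := Cx (n + 1) t)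
    (SO.mem_PN.2 ⟨hzC, Or.inr hzP⟩)
  rcases hu with ⟨g1, -⟩ | ⟨-, hlz, hlu, hdz, hsu, -⟩
  · have := lev_PU hzP
    have := lev_PD g1
    omega
  have hux2 : x (m - 1) ⋖ u := by
    rw [← mem_dc, ← hsu, hzs]
    exact (W.mem_ed (by omega) (by omega)).2 (Or.inl rfl)
  have hux3 : x m ⋖ u := by
    rw [← mem_dc, ← hsu, hzs]
    exact (W.mem_ed (by omega) (by omega)).2 (Or.inr (by omega))
  have huz : u ⋖ z := by rw [← mem_dc, hdz]; exact mem_singleton_self u
  have hx2t : x m ≤ (t : P) := by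
    rw [← B.row.kap m (by omega)]
    exact le_topOf (x m)
  have hut : u ≤ (t : P) := Cp.up_le H h.g.good t.2 hx2t
    (by have := B.row.lev_x m (by omega); omega) hux3.le
  have hzt : z ≤ (t : P) := Cp.up_le H h.g.good t.2 hut (by omega) huz.le
  obtain ⟨a, a1, a2, a3⟩ := C.surj u hut (by omega)
  obtain ⟨b, b1, b2, b3⟩ := C.surj z hzt (by omega)
  have lu : lev u = n + 1 := by omega
  have lz : lev z = n := by omega
  rw [lu] at a1 a2 a3
  rw [lz] at b1 b2 b3
  subst a3
  subst b3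
  have hzd := (C.single_down H (k := n) (by omega) b1 b2).1 (lev_PU hzP).2
  have hcz := (C.cov n a b (by omega) a1 a2 b1 b2).1 huz
  rcases hor with ⟨o1, hor⟩ | ⟨o1, hor⟩
  · left
    have h2 := hor (m - 1) (by omega)
    have h3 := hor m le_rfl
    rw [h2] at hux2
    rw [h3] at hux3
    have c2 := (cov' _ a (by omega) (by omega) a1 a2).1 hux2
    have c3 := (cov' _ a (by omega) (by omega) a1 a2).1 hux3
    exact ⟨hor, o1, by omega, by omega⟩
  · right
    have h2 := hor (m - 1) (by omega)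
    have h3 := hor m le_rfl
    rw [h2] at hux2
    rw [h3] at hux3
    have c2 := (cov' _ a (by omega) (by omega) a1 a2).1 hux2
    have c3 := (cov' _ a (by omega) (by omega) a1 a2).1 hux3
    exact ⟨hor, o1, by omega, by omega⟩

/-- an upper pendant over the last pair: nothing hangs below the last element -/
theorem pen_last (S : Shape (i + 1) lo hi) (hU : UE (i + 1) (Cx i t) x (m - 1) ≠ ∅) :
    pen (x m) = ∅ := by
  classical
  have h := F.h
  have C := F.C
  have hm := F.hm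
  obtain ⟨n, hn⟩ : ∃ n, i + 1 = n + 2 := ⟨i - 1, by have := F.hi1; omega⟩
  obtain ⟨z, hz⟩ := nonempty_iff_ne_empty.2 hU
  have hor := F.letters hn hz
  obtain rfl : i = n + 1 := by omega
  obtain ⟨hlen, -⟩ := F.coord
  have e1 : lo (n + 1 + 1) = lo (n + 2) := rfl
  have e2 : hi (n + 1 + 1) = hi (n + 2) := rfl
  rw [e1, e2] at hlen
  obtain ⟨w1, w2⟩ := wide_fuw3 C S (by omega)
  rcases hor with ⟨hor, q0, q1, q2⟩ | ⟨-, q0, q1, q2⟩
  · have h3 := hor m le_rfl
    have hf := w1 q0 q1 q2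
    have hb := F.big
    have s1 := C.lo_step n (by omega)
    have s3 := C.hi_step n (by omega)
    have hn1 : 1 ≤ n := by
      have f1 := C.hi_le (k := n + 1) (by omega)
      omega
    have hc := NJ.chain h (i := n) hn1 le_rfl C (by omega)
    rw [hf] at hc
    have hpd : Wd.pdR lo hi n := ⟨q1, q2, by omega⟩
    rw [if_pos hpd] at hc
    have e3 : e (n + 1 + 1) = e (n + 2) := rfl
    rw [h3, e1, ← hlen, e3]
    exact card_eq_zero.1 (by omega)
  · exact absurd ⟨q0, q1, q2⟩ w2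

end ClDL

end Pool.Agent.GaussPoset.EK

end
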