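import Mathlib
import Pool.Agent.W_448zz_h61.Ns
import Pool.Agent.W_448zz_h61.M239
import Pool.Agent.W_448zz_h61.M263
import Pool.Agent.W_448zz_h61.M277

/-! From `Pool.Agent.W_448cl_h64.ClQ` -/

section

/-!
MP_448cb3_co, G2, case B, windows `j - 1` and `j`: a row with the pattern [DL], the doubled end closed: no
heavy join if the double over `x 2`, `x 3` has two private children and nothing is joined below `x 2`.
helper64.
-/

namespace Pool.Agent.GaussPoset.EK

set_option linter.unusedSectionVars false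

open Finset Win St Polynomial Wd Win.W4 Win.Rc Win.Pn
open Pool.Agent.GaussPoset.Win.SO (PN vp mem_PN N1f mem_N1f N5f CQ envc chc)

universe u

variable {P : Type u} [Fintype P] [PartialOrder P] [DecidableEq P] {r i j : ℕ}

variable {m : ℕ} {x : ℕ → P} {c : ℕ → ℤ} {β : ℤ} {t : Tops P} {lo hi : ℕ → ℕ} {e : ℕ → ℕ → P}

variable {K : Finset P} {psi : P → P} {w v : P}

/-- NO HEAVY JOIN if the double over the third pair has two private children -/
theorem dl_no_heavy (h : NJ P r j) (R : Red P j K psi)
    (D : DLg r j K psi (cext (j + 1) (topOf : P → Tops P) t) w v m x)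
    (hN : (DE j (cext (j + 1) (topOf : P → Tops P) t) x 2).card = 2)
    (hp : ∀ z y s : P, K2.SD j (topOf : P → Tops P) z y s → s ∉ pen (x 2))
    {z y s : P} (S : K2.SD j (topOf : P → Tops P) z y s) :
    (topOf y = t → sa j (topOf : P → Tops P) K (uc y) (topOf y) = 0) ∧
    (topOf s = t → sa j (topOf : P → Tops P) K (uc s) (topOf s) = 0) := by
  classical
  have H := h.g.H
  have hm := D.hm
  have hne : ∀ a b, a ≤ m → b ≤ m → a ≠ b → x a ≠ x b := fun a b ha hb hab => D.W.ne ha hb hab
  refine ⟨fun hy => ?_, fun hs => ?_⟩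
  · rw [hy, fg_sa h R D.Q, D.hw, D.hv]
    have ly := S.ly H
    obtain ⟨k, hk, hk1, huy⟩ := dl_double h D (y := y) (by omega) S.cy hy
    have hk3 : k = 0 ∨ k = 2 ∨ 3 ≤ k := by omega
    rcases hk3 with rfl | rfl | hk3
    · rw [if_neg, if_neg]
      · norm_num
      · rw [huy, disjoint_left]
        push Not
        exact ⟨x 1, mem_insert_self _ _, mem_insert_of_mem (mem_singleton_self _)⟩
      · rw [huy, disjoint_left]
        push Not
        exact ⟨x 0, mem_insert_self _ _, mem_insert_self _ _⟩
    · -- the double over the third pair is full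
      exfalso
      obtain ⟨a, b, hab, he⟩ := card_eq_two.1 hN
      have ma : a ∈ DE j (cext (j + 1) (topOf : P → Tops P) t) x 2 := by
        rw [he]; exact mem_insert_self _ _
      have mb : b ∈ DE j (cext (j + 1) (topOf : P → Tops P) t) x 2 := by
        rw [he]; exact mem_insert_of_mem (mem_singleton_self _)
      have key : ∀ a, a ∈ DE j (cext (j + 1) (topOf : P → Tops P) t) x 2 → uc a = {y} := by
        intro a ha
        obtain ⟨-, h1, h2⟩ := mem_DE.1 ha
        obtain ⟨l1, l2, y', h3, h4⟩ := mem_PD.1 h1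
        obtain ⟨y'', h5⟩ := card_eq_one.1 l2
        have h6 : y' = y'' := by
          have := mem_uc.2 h3
          rw [h5, mem_singleton] at this
          exact this
        subst h6
        have h7 : uc y' = ed x 2 := by rw [← SO.sit_PD H l1 h5, h2]
        have h8 := D.dn 2 3 (by omega) (by omega)
        norm_num at h8
        unfold dcv at h8
        obtain ⟨y0, h9⟩ := card_eq_one.1 h8
        have e1 : y ∈ ({y0} : Finset P) := by
          rw [← h9, mem_filter]
          refine ⟨mem_univ _, mem_uc.1 ?_, mem_uc.1 ?_⟩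
          · rw [huy]; exact mem_insert_self _ _
          · rw [huy]; exact mem_insert_of_mem (mem_singleton_self _)
        have e2 : y' ∈ ({y0} : Finset P) := by
          rw [← h9, mem_filter]
          refine ⟨mem_univ _, mem_uc.1 ?_, mem_uc.1 ?_⟩
          · rw [h7]; exact mem_insert_self _ _
          · rw [h7]; exact mem_insert_of_mem (mem_singleton_self _)
        rw [mem_singleton] at e1 e2
        rw [h5, e1, e2]
      have ua := key a ma
      have ub := key b mb
      have hsub : ({a, b, z} : Finset P) ⊆ dc y := by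
        intro q hq
        rw [mem_insert, mem_insert, mem_singleton] at hq
        rcases hq with rfl | rfl | rfl
        · exact mem_dc.2 (mem_uc.1 (by rw [ua]; exact mem_singleton_self _))
        · exact mem_dc.2 (mem_uc.1 (by rw [ub]; exact mem_singleton_self _))
        · exact mem_dc.2 (mem_uc.1 S.my)
      have haz : a ≠ z := by
        rintro rfl
        have h1 := S.huc
        rw [ua] at h1
        have h2 := S.ne
        have h3 : s ∈ ({y} : Finset P) := by
          rw [h1]; exact mem_insert_of_mem (mem_singleton_self _)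
        exact h2 (mem_singleton.1 h3).symm
      have hbz : b ≠ z := by
        rintro rfl
        have h1 := S.huc
        rw [ub] at h1
        have h2 := S.ne
        have h3 : s ∈ ({y} : Finset P) := by
          rw [h1]; exact mem_insert_of_mem (mem_singleton_self _)
        exact h2 (mem_singleton.1 h3).symm
      have h1 := card_le_card hsub
      have h2 := dc_card_le H y
      rw [card_insert_of_notMem, card_pair hbz] at h1
      · omega
      · rw [mem_insert, mem_singleton]
        push Not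
        exact ⟨hab, haz⟩
    · have hd0 : Disjoint ({x 0, x 1} : Finset P) (uc y) := by
        rw [huy, disjoint_insert_left, disjoint_singleton_left, mem_insert, mem_singleton,
          mem_insert, mem_singleton]
        push Not
        exact ⟨⟨hne _ _ (by omega) (by omega) (by omega), hne _ _ (by omega) (by omega) (by omega)⟩,
          hne _ _ (by omega) (by omega) (by omega), hne _ _ (by omega) (by omega) (by omega)⟩
      have hd1 : Disjoint ({x 1, x 2} : Finset P) (uc y) := by
        rw [huy, disjoint_insert_left, disjoint_singleton_left, mem_insert, mem_singleton,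
          mem_insert, mem_singleton]
        push Not
        exact ⟨⟨hne _ _ (by omega) (by omega) (by omega), hne _ _ (by omega) (by omega) (by omega)⟩,
          hne _ _ (by omega) (by omega) (by omega), hne _ _ (by omega) (by omega) (by omega)⟩
      rw [if_pos hd0, if_pos hd1]
      norm_num
  · rw [hs, fg_sa h R D.Q, D.hw, D.hv]
    have ls := S.lv' H
    obtain ⟨p, hus⟩ := card_eq_one.1 S.cv
    have mp : p ∈ uc s := by rw [hus]; exact mem_singleton_self _
    have tp : topOf p = t := by
      rw [← hs]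
      exact (h.split (mem_uc.1 mp) (by omega)).symm
    obtain ⟨k, hk, rfl⟩ : ∃ k, k ≤ m ∧ x k = p :=
      D.W.surj p (mem_cext_of_le h.split (by have := lev_uc H mp; omega) tp)
        (by have := lev_uc H mp; omega)
    have hmem : s ∈ pen (x k) := mem_pen.2 ⟨mem_uc.1 mp, S.cv⟩
    have hk3 : 3 ≤ k := by
      by_contra hcon
      rcases (by omega : k ≤ 1 ∨ k = 2) with h1 | h1
      · rw [dl_pen01 D h1] at hmem
        exact absurd hmem (notMem_empty _)
      · subst h1
        exact hp z y s S hmem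
    rw [hus, if_pos, if_pos]
    · norm_num
    · rw [disjoint_singleton_right, mem_insert, mem_singleton]
      push Not
      exact ⟨hne _ _ (by omega) (by omega) (by omega), hne _ _ (by omega) (by omega) (by omega)⟩
    · rw [disjoint_singleton_right, mem_insert, mem_singleton]
      push Not
      exact ⟨hne _ _ (by omega) (by omega) (by omega), hne _ _ (by omega) (by omega) (by omega)⟩

end Pool.Agent.GaussPoset.EK

end

/-! From `Pool.Agent.W_448cl_h64.ClW` -/

section

/-!
MP_448cb3_co, G2, case B, windows `j - 1` and `j`: a row with the pattern [DL], the doubled end closed, at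
least four sites: THE VALUE.  helper64.
-/

namespace Pool.Agent.GaussPoset.EK

set_option linter.unusedSectionVars false

open Finset Win St Polynomial Wd Win.W4 Win.Rc Win.Pn
open Pool.Agent.GaussPoset.Win.SO (PN vp mem_PN N1f mem_N1f N5f CQ envc chc)

universe u

variable {P : Type u} [Fintype P] [PartialOrder P] [DecidableEq P] {r i j : ℕ}

variable {m : ℕ} {x : ℕ → P} {c : ℕ → ℤ} {β : ℤ} {t : Tops P} {lo hi : ℕ → ℕ} {e : ℕ → ℕ → P}

variable {K : Finset P} {psi : P → P} {w v : P}

/-- twice the value of a part with the shares of its pendants -/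
noncomputable def Vc (i : ℕ) (t : Tops P) : ℤ :=
  2 * own ⟨-1, 9, 1, 4, 3, -1, 2, 13, 0⟩ i (i + 1) t +
    ∑ p ∈ (PD P i).filter (fun p => (topOf p : Tops P) = t), shr ⟨-1, 9, 1, 4, 3, -1, 2, 13, 0⟩ i p

/-- every join of a double and a single element at the part is light -/
def NoHv (j : ℕ) (K : Finset P) (t : Tops P) : Prop :=
  ∀ z y v : P, K2.SD j (topOf : P → Tops P) z y v → (topOf y = t ∨ topOf v = t) →
    sa j (topOf : P → Tops P) K (uc y) (topOf y) *
      sa j (topOf : P → Tops P) K (uc v) (topOf v) = 0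

/-- the bound -/
def VB (i : ℕ) (K : Finset P) (t : Tops P) (m : ℕ) : Prop :=
  0 < Vc i t ∨ (m = 3 ∧ 0 ≤ Vc i t) ∨ (wv (i + 1) (Cx i t) = 1 ∧ -8 < Vc i t) ∨
    (wv (i + 1) (Cx i t) = 1 ∧ -16 < Vc i t ∧ NoHv (i + 1) K t)

namespace ClDL

variable (F : ClDL P r i t m x c lo hi e)
include F

lemma noHv (R : Red P (i + 1) K psi) (hd : (DE (i + 1) (Cx i t) x 2).card = 2)
    (hp : ∀ z y s : P, K2.SD (i + 1) (topOf : P → Tops P) z y s → s ∉ pen (x 2)) :
    NoHv (i + 1) K t := by
  obtain ⟨w, v, D⟩ := F.dlg R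
  intro z y s S hys
  obtain ⟨g1, g2⟩ := dl_no_heavy F.h R D hd hp S
  rcases hys with h6 | h6
  · rw [g1 h6, zero_mul]
  · rw [g2 h6, mul_zero]

/-- an element which hangs below an inner element or a closed end is a pendant of the window `j - 1` -/
lemma pen_PD {k : ℕ} (hk : k ≤ m) (hc : (uc (x k)).card = 2) {q : P} (hq : q ∈ pen (x k)) :
    q ∈ SS i t ∧ q ∈ PD P i ∧ uc q = {x k} := by
  have h := F.h
  have H := h.g.H
  have hu := pen_uc hq
  have hqc := (mem_pen.1 hq).1
  have hl := F.B.row.lev_x k hk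
  have hlq := lev_cov H hqc
  have hxt : x k ≤ (t : P) := by
    rw [← F.B.row.kap k hk]
    exact le_topOf (x k)
  refine ⟨(h.mem (by omega) t (by omega)).2 (hqc.le.trans hxt), ?_, hu⟩
  rw [mem_PD]
  exact ⟨by omega, by rw [hu, card_singleton], x k, hqc, hc⟩

lemma inner2 (h2 : 2 < m) : (uc (x 2)).card = 2 := by
  obtain ⟨hin, -, -⟩ := NJ.inner F.h rfl F.hi1 F.B
  exact hin 2 (by omega) (by omega)

lemma xne {a b : ℕ} (ha : a ≤ m) (hb : b ≤ m) (hab : a ≠ b) : x a ≠ x b := by
  obtain ⟨K, psi, R⟩ := exists_red P (i + 1)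
  obtain ⟨w, v, D⟩ := F.dlg R
  exact D.W.ne ha hb hab

/-- the value from the two windows -/
theorem fin4 (R : Red P (i + 1) K psi) (h4 : 4 ≤ m) (hV : 4 + 2 * (2 * n1 i (SS i t) -
    4 * n5 i (SS i t) + Ow (i + 1) (Cx i t)) ≤ Vc i t) : VB i K t m := by
  obtain ⟨w, v, D⟩ := F.dlg R
  obtain ⟨hw, h5⟩ := F.win4 h4
  rcases h5 with ⟨d, g⟩ | ⟨d, g⟩ | ⟨d, g⟩
  · left
    linarith
  · left
    linarith
  · right; right; right
    rw [d] at hw
    push_cast at hw
    refine ⟨by linarith, by linarith, F.noHv R d ?_⟩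
    intro z y s _ hs
    rw [D.W.pen0 2 le_rfl (by omega)] at hs
    exact absurd hs (notMem_empty _)

theorem fin3 (S : Shape (i + 1) lo hi) (hm3 : m = 3) (hp : pen (x 2) = ∅)
    (h3 : (uc (x 3)).card = 2 → (pen (x 3)).card ≤ 1) (hV : 4 + 2 * (2 * n1 i (SS i t) -
    4 * n5 i (SS i t) + Ow (i + 1) (Cx i t)) ≤ Vc i t) : VB i K t m := by
  rcases F.win3 S hm3 hp h3 with g | ⟨g1, -, g2⟩
  · left
    linarith
  · right; right; left
    exact ⟨g1, by linarith⟩

/-- no pendants -/
theorem case1 (R : Red P (i + 1) K psi) (S : Shape (i + 1) lo hi)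
    (hN : ∀ q ∈ SS i t, q ∉ PD P i ∧ q ∉ PU P i) : VB i K t m := by
  classical
  have hm := F.hm
  obtain ⟨f1, f2, f3⟩ := F.none_vals hN
  have h0 := F.own_ge (q := 0) (by omega) (by
    intro z hz
    rw [f1, f2] at hz
    simp at hz)
  have ha : fa i (SS i t) = 0 := by
    unfold fa
    rw [f1, f2]
    simp
  have hf : fm i (SS i t) x 0 = 0 := by
    unfold fm
    rw [f1, f2]
    simp
  rw [ha, hf, if_neg (by omega)] at h0
  have hV : 4 + 2 * (2 * n1 i (SS i t) - 4 * n5 i (SS i t) + Ow (i + 1) (Cx i t)) ≤ Vc i t := by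
    unfold Vc
    rw [f3, sum_empty]
    linarith
  rcases Nat.lt_or_ge 3 m with h4 | h4
  · exact F.fin4 R h4 hV
  · have hm3 : m = 3 := by omega
    refine F.fin3 S hm3 ?_ ?_ hV
    · rw [eq_empty_iff_forall_notMem]
      intro q hq
      obtain ⟨g1, g2, -⟩ := F.pen_PD (by omega) (F.inner2 (by omega)) hq
      exact (hN q g1).1 g2
    · intro hc
      have : pen (x 3) = ∅ := by
        rw [eq_empty_iff_forall_notMem]
        intro q hq
        obtain ⟨g1, g2, -⟩ := F.pen_PD (by omega) hc hq
        exact (hN q g1).1 g2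
      rw [this, card_empty]
      omega

/-- a pendant below the closed other end -/
theorem case2 (R : Red P (i + 1) K psi) (S : Shape (i + 1) lo hi) {p u : P}
    (D : PdC i t lo hi e (x m) p u) (hcm : (uc (x m)).card = 2) (hU : FU' i (SS i t) = ∅)
    (hn : nn i p ≤ 4) : VB i K t m := by
  classical
  have hm := F.hm
  obtain ⟨f1, f2, f3⟩ := F.one_vals D
  obtain ⟨k0, z0, kz, ks2⟩ := F.pd_num p
  have h0 := F.own_ge (q := m) le_rfl f2
  have ha : fa i (SS i t) = kc p := by
    unfold fa kc
    rw [f1, hU, card_empty]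
    push_cast
    ring
  have hf : fm i (SS i t) x 0 = 0 := by
    obtain ⟨w, v, Dl⟩ := F.dlg R
    have h1 : (FL i (SS i t)).filter (fun z => ¬ Disjoint (sit i z) (se x 0)) = ∅ := by
      rw [eq_empty_iff_forall_notMem]
      intro z hz
      rw [mem_filter] at hz
      obtain ⟨hz1, hz2⟩ := hz
      apply hz2
      rw [f2 z (Or.inl hz1), disjoint_left]
      intro s hs hs2
      have key : ∀ k, k + 1 < m → s ∈ uc (x k) → False := by
        intro k hk hsk
        have h3 := Dl.W.up k m (by omega) le_rfl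
        rw [if_neg (by omega)] at h3
        unfold ucv at h3
        rw [card_eq_zero] at h3
        have h4 : s ∈ univ.filter (fun q => x k ⋖ q ∧ x m ⋖ q) :=
          mem_filter.2 ⟨mem_univ _, mem_uc.1 hsk, mem_uc.1 hs⟩
        rw [h3] at h4
        exact absurd h4 (notMem_empty _)
      unfold se at hs2
      rw [mem_union] at hs2
      rcases hs2 with h5 | h5
      · exact key 0 (by omega) h5
      · exact key 1 (by omega) h5
    unfold fm
    rw [h1, hU]
    simp
  have hs := F.shr_closed D hU hn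
  have hV : 4 + 2 * (2 * n1 i (SS i t) - 4 * n5 i (SS i t) + Ow (i + 1) (Cx i t)) ≤ Vc i t := by
    unfold Vc
    rw [f3, sum_singleton]
    rw [ha, hf] at h0
    have h1 : 0 ≤ 2 * (if m = 3 then kc p else 0) := by
      split_ifs
      · linarith
      · norm_num
    have h2 : 0 ≤ kc p ^ 2 - kc p := by
      have : kc p ≤ 2 := by linarith
      generalize kc p = k at *
      interval_cases k <;> norm_num
    linarith
  rcases Nat.lt_or_ge 3 m with h4 | h4
  · exact F.fin4 R h4 hV
  · have hm3 : m = 3 := by omega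
    have hx3 : x m = x 3 := by rw [hm3]
    refine F.fin3 S hm3 ?_ ?_ hV
    · rw [eq_empty_iff_forall_notMem]
      intro q hq
      obtain ⟨g1, g2, g3⟩ := F.pen_PD (by omega) (F.inner2 (by omega)) hq
      have h5 := D.low q g1 g2
      rw [h5, D.up] at g3
      exact F.xne (by omega) (by omega) (by omega) (singleton_injective g3 : x m = x 2)
    · intro hc
      have : pen (x 3) ⊆ {p} := by
        intro q hq
        obtain ⟨g1, g2, -⟩ := F.pen_PD (by omega) hc hq
        rw [mem_singleton]
        exact D.low q g1 g2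
      have h6 := card_le_card this
      rwa [card_singleton] at h6

/-- a pendant below `x 2` -/
theorem case3 (R : Red P (i + 1) K psi) {p u : P}
    (D : PdC i t lo hi e (x 2) p u) (hm3 : m = 3) (hU : FU' i (SS i t) = ∅) (hn : nn i p ≤ 5)
    (hU2 : UE (i + 1) (Cx i t) x 2 = ∅) (hc3 : (uc (x 3)).card = 1) (hp3 : pen (x 3) = ∅) :
    VB i K t m := by
  classical
  have hm := F.hm
  obtain ⟨w, v, Dl⟩ := F.dlg R
  obtain ⟨f1, f2, f3⟩ := F.one_vals D
  obtain ⟨k0, z0, kz, ks2⟩ := F.pd_num p
  have h0 := F.own_ge (q := 2) (by omega) f2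
  rw [if_neg (by omega)] at h0
  have ha : fa i (SS i t) = kc p := by
    unfold fa kc
    rw [f1, hU, card_empty]
    push_cast
    ring
  have hf : fm i (SS i t) x 0 ≤ kc p := by
    unfold fm
    rw [hU, filter_empty, card_empty]
    have h1 := card_le_card (filter_subset (fun z => ¬ Disjoint (sit i z) (se x 0)) (FL i (SS i t)))
    have h2 : (((FL i (SS i t)).filter (fun z => ¬ Disjoint (sit i z) (se x 0))).card : ℤ) ≤
        (FL i (SS i t)).card := by exact_mod_cast h1
    have h3 : ((FL i (SS i t)).card : ℤ) = kc p := by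
      unfold kc
      rw [f1]
    push_cast
    linarith
  have hpen : pen (x 2) = {p} := by
    ext q
    rw [mem_singleton]
    constructor
    · intro hq
      obtain ⟨g1, g2, -⟩ := F.pen_PD (by omega) (F.inner2 (by omega)) hq
      exact D.low q g1 g2
    · rintro rfl
      exact mem_pen_of_uc D.up
  have hp1 : (pen (x 2)).card = 1 := by rw [hpen, card_singleton]
  obtain ⟨s1, s2⟩ := F.shr_late D hm3 hU hn
  have hV : 4 + 2 * (2 * n1 i (SS i t) - 4 * n5 i (SS i t) + Ow (i + 1) (Cx i t)) +
      (2 * (kc p ^ 2 - 5 * kc p) + shr ⟨-1, 9, 1, 4, 3, -1, 2, 13, 0⟩ i p) ≤ Vc i t := by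
    unfold Vc
    rw [f3, sum_singleton]
    rw [ha] at h0
    linarith
  have hn1 := F.n1_nonneg
  have hw := F.w3
  unfold NE at hw
  rw [hU2, card_empty] at hw
  push_cast at hw
  rcases Dl.Ow_ge3B' hm3 F.hu hU2 hp1 hc3 hp3 F.n5_le3 with ⟨d, g⟩ | ⟨d, g⟩ | ⟨d, g⟩
  · left
    linarith
  · right; left
    exact ⟨hm3, by linarith⟩
  · rw [d] at hw
    push_cast at hw
    rcases (by omega : kc p + zc i (topOf : P → Tops P) p ≤ 1 ∨
      kc p + zc i (topOf : P → Tops P) p = 2) with h5 | h5
    · right; right; left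
      have := s1 h5
      exact ⟨by linarith, by linarith⟩
    · right; right; right
      refine ⟨by linarith, by linarith, F.noHv R d ?_⟩
      intro z y s Sd hs
      rw [hpen, mem_singleton] at hs
      subst hs
      have H := F.h.g.H
      -- the pendant is full
      have hd : Disjoint (ks s) (zs i (topOf : P → Tops P) s) := by
        rw [Finset.disjoint_left]
        intro w hw1 hw2
        rw [mem_ks] at hw1
        obtain ⟨p1, p2, y, y', D', hu', hne⟩ := Z2s_pair H F.h.split (mem_zs.1 hw2).1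
        rw [hw1] at hu'
        have h1 := congrArg Finset.card hu'
        rw [card_singleton, card_pair hne] at h1
        omega
      have hz1 : z ∉ ks s := by
        intro h6
        rw [mem_ks] at h6
        have h7 := Sd.my
        rw [h6, mem_singleton] at h7
        exact Sd.ne h7
      have hz2 : z ∉ zs i (topOf : P → Tops P) s := by
        intro h6
        obtain ⟨p1, p2, y1, y2, D', hu', hne⟩ := Z2s_pair H F.h.split (mem_zs.1 h6).1
        have h7 := Sd.my
        rw [hu', mem_insert, mem_singleton] at h7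
        have h8 := Sd.cy
        rcases h7 with h7 | h7
        · rw [h7, D'.hp, card_singleton] at h8
          omega
        · rw [h7, D'.hp', card_singleton] at h8
          omega
      have h6 : insert z (ks s ∪ zs i (topOf : P → Tops P) s) ⊆ dc s := by
        intro w hw
        rw [mem_insert, mem_union] at hw
        rcases hw with rfl | hw | hw
        · rw [mem_dc]
          refine mem_uc.1 ?_
          rw [Sd.huc]
          exact mem_insert_of_mem (mem_singleton_self _)
        · rw [mem_ks] at hw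
          rw [mem_dc, ← mem_uc, hw]
          exact mem_singleton_self s
        · rw [mem_dc]
          exact mem_uc.1 (mem_zs.1 hw).2
      have h7 := card_le_card h6
      rw [card_insert_of_notMem (by rw [mem_union]; push Not; exact ⟨hz1, hz2⟩),
        card_union_of_disjoint hd] at h7
      have h8 := dc_card_le H s
      unfold kc zc at h5
      have h9 : (ks s).card + (zs i (topOf : P → Tops P) s).card = 2 := by exact_mod_cast h5
      omega

end ClDL

end Pool.Agent.GaussPoset.EK

end

/-! From `Pool.Agent.W_448cl_h64.ClX` -/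

section

/-!
MP_448cb3_co, G2, case B, windows `j - 1` and `j`: a row with the pattern [DL], the doubled end closed, at
least four sites: THE VALUE.  helper64.
-/

namespace Pool.Agent.GaussPoset.EK

set_option linter.unusedSectionVars false

open Finset Win St Polynomial Wd Win.W4 Win.Rc Win.Pn
open Pool.Agent.GaussPoset.Win.SO (PN vp mem_PN N1f mem_N1f N5f CQ envc chc)

universe u

variable {P : Type u} [Fintype P] [PartialOrder P] [DecidableEq P] {r i j : ℕ}

variable {m : ℕ} {x : ℕ → P} {c : ℕ → ℤ} {β : ℤ} {t : Tops P} {lo hi : ℕ → ℕ} {e : ℕ → ℕ → P}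

variable {K : Finset P} {psi : P → P} {w v : P}

/-- the late word: the open end -/
lemma ClDL.late_end (F : ClDL P r i t m x c lo hi e) (hm3 : m = 3)
    (ho : ∀ k, k ≤ 3 → x k = e (i + 1) (hi (i + 1) - k)) {a : ℕ} (ha : 3 ≤ a) (haj : a + 7 = i + 1)
    (hab : lo a = 0 ∧ hi a = 1) (hw : word lo hi a 7 = W7) :
    UE (i + 1) (Cx i t) x 2 = ∅ ∧ (uc (x 3)).card = 1 ∧ pen (x 3) = ∅ := by
  classical
  have h := F.h
  have H := h.g.H
  have C := F.C
  subst hm3
  obtain ⟨w1, w2⟩ := word_spec hw
  obtain rfl : i = a + 6 := by omega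
  have f6 : lo (a + 7) = lo (a + 6) := by
    have h5 := (w2 6 (by omega)).1
    rw [show W7[6]?.map Prod.fst = some false by decide] at h5
    have h6 := of_decide_eq_false (Option.some.inj h5).symm
    push Not at h6
    exact h6
  have f5 : lo (a + 6) = lo (a + 5) := by
    have h5 := (w2 5 (by omega)).1
    rw [show W7[5]?.map Prod.fst = some false by decide] at h5
    have h6 := of_decide_eq_false (Option.some.inj h5).symm
    push Not at h6
    exact h6
  obtain ⟨hV, -⟩ := F.coord
  have g1 : lo (a + 6 + 1) = lo (a + 7) := rfl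
  have g2 : hi (a + 6 + 1) = hi (a + 7) := rfl
  have hx3 : x 3 = e (a + 6 + 1) (lo (a + 6 + 1)) := by
    rw [ho 3 le_rfl]
    congr 1
    omega
  refine ⟨?_, ?_, ?_⟩
  · rw [eq_empty_iff_forall_notMem]
    intro z hz
    obtain ⟨-, -, h6⟩ := NJ.letters h (by omega) F.B C (n := a + 5) rfl hz
    rcases h6 with ⟨h6, -⟩ | ⟨-, h7, -, -⟩
    · have h8 := h6 0 (by omega)
      rw [ho 0 (by omega)] at h8
      have := C.inj (a + 6 + 1) _ _ le_rfl (by omega) (by omega) (by omega) (by omega) h8
      omega
    · have h9 : lo (a + 5 + 1) = lo (a + 6) := rfl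
      omega
  · rw [hx3]
    exact (C.single_up H h.g.good t.2 (k := a + 6) (by omega) le_rfl (by omega)).2 (Or.inl (by omega))
  · rw [hx3]
    exact NJ.pen_late7 h C ha (by omega) hab hw

/-- THE VALUE of a row with the pattern [DL], the doubled end closed, at least four sites -/
theorem ClDL.main (F : ClDL P r i t m x c lo hi e) (R : Red P (i + 1) K psi)
    (S : Shape (i + 1) lo hi) : VB i K t m := by
  rcases F.pend_cases S with hN | ⟨p, u, D, hc, hU, hn⟩ |
    ⟨p, u, D, hm3, hU, hn, ho, a, a1, a2, -, a4, a5⟩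
  · exact F.case1 R S hN
  · exact F.case2 R S D hc hU hn
  · obtain ⟨g1, g2, g3⟩ := F.late_end hm3 ho a1 a2 a4 a5
    exact F.case3 R D hm3 hU hn g1 g2 g3

end Pool.Agent.GaussPoset.EK

end

/-! From `Pool.Agent.W_448cl_h64.ClY` -/

section

/-!
MP_448cb3_co, G2, case B, windows `j - 1` and `j`: THE LEAF `HClosed`.  helper64.
-/

namespace Pool.Agent.GaussPoset.EK

set_option linter.unusedSectionVars false

open Finset Win St Polynomial Wd Win.W4

universe u

variable {P : Type u} [Fintype P] [PartialOrder P] [DecidableEq P]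

/-- THE LEAF: [DL], at least four sites, the doubled end closed -/
theorem hclosed : HClosed P := by
  intro r i K psi t m x c β lo hi e hi1 hC R B C S hm hD hu
  obtain ⟨hb, c0, c1, c2⟩ := hD
  subst hb
  have F : ClDL P r i t m x c lo hi e := ⟨hC.nj, hi1, B, C, hm, hu, c0, c1, c2⟩
  have hV : Vt i t = Vc i t := rfl
  have hw : v3 (i + 1) t = wv (i + 1) (Cx i t) := rfl
  rw [hV, hw]
  rcases F.main R S with h | ⟨h1, h2⟩ | ⟨h1, h2⟩ | ⟨h1, h2, h3⟩
  · exact ⟨fun _ => ⟨h.le, fun _ => h⟩, fun _ => Or.inl (by linarith)⟩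
  · exact ⟨fun _ => ⟨h2, fun _ => by omega⟩, fun _ => Or.inl (by linarith)⟩
  · exact ⟨fun h => by rw [h1] at h; norm_num at h, fun _ => Or.inl h2⟩
  · exact ⟨fun h => by rw [h1] at h; norm_num at h, fun _ => Or.inr ⟨h2, h3⟩⟩

end Pool.Agent.GaussPoset.EK

end

/-! From `Pool.Agent.W_448cl_h64.CmB` -/

section

/-!
MP_448cb3_co, G2, case B: a row with the pattern [DL], the doubled end closed, five sites, no private child
of the last double: a light join.  helper64.
-/

namespace Pool.Agent.GaussPoset.Win.W4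

set_option linter.unusedSectionVars false

open Finset
open Pool.Agent.GaussPoset.Win.SO (PN vp con on mem_PN vp_PD vp_PU)

universe u

variable {P : Type u} [Fintype P] [PartialOrder P] [DecidableEq P] {r i : ℕ}
variable {psi : P → P} {C K : Finset P} {w v : P} {m : ℕ} {x : ℕ → P}

/-- at least five sites, two private children of the double over `x 2`, `x 3`: the sharp bound -/
theorem DLg.Ow_two (h : DLg r i K psi C w v m x) (hm4 : 4 ≤ m) (hu : (uc (x 0)).card = 2)
    (hl : -1 ≤ NE i C x (m - 1)) {n : ℤ} (hn : 2 * n ≤ OCs i C w v)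
    (hd : (DE i C x 2).card = 2) :
    4 * n - 9 ≤ Ow i C ∨ (m = 4 ∧ NE i C x 3 = -1 ∧ 4 * n - 10 ≤ Ow i C) := by
  have hU2 := h.W.ue_inner (k := 2) (by omega) (by omega)
  have h3 := h.TUs_le hm4
  have h5 := h.NE0_sq hu
  have hpos : ∀ k, 3 ≤ k → k + 1 < m → 0 ≤ NE i C x k := fun k hk hk' =>
    h.NE_nonneg (by omega) (by omega)
  have q1 := RS_nonneg (NE i C x) (t := m) (m - 3) 3 (by omega) hpos (fun _ => hl)
  have q3 := RS_add (NE i C x) (s := 3) (t := m) (by omega) hpos hl
  have e2 : NE i C x 2 = 2 := by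
    unfold NE
    rw [hU2, card_empty, hd]
    norm_num
  have t1 : ((TUs i C x).card : ℤ) ≤ 1 := by exact_mod_cast h3
  have t2 : (0 : ℤ) ≤ ((TLs i C x).card : ℤ) := by positivity
  have key : 4 * n - 9 + (RS (NE i C x) 3 m + 4 * NE i C x 3) ≤ Ow i C := by
    rw [h.Ow_form4 hm4 hu, h.Zs_eq hm4, e2]
    rcases h.CH2_num with ⟨d, c⟩ | ⟨d, c⟩ | ⟨d, c⟩
    · omega
    · omega
    · linarith
  by_cases hA : 0 ≤ NE i C x 3
  · left
    rcases Nat.lt_or_ge 4 m with h6 | h6
    · linarith
    · obtain rfl : m = 4 := by omega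
      rw [RS_bot (NE i C x) (by norm_num : 3 < 4), if_neg (by norm_num), RS_self] at key
      nlinarith
  · right
    have h6 : m = 4 := by
      by_contra hne
      exact hA (hpos 3 le_rfl (by omega))
    subst h6
    have h7 : NE i C x 3 = -1 := by
      have : -1 ≤ NE i C x 3 := hl
      omega
    refine ⟨rfl, h7, ?_⟩
    rw [RS_bot (NE i C x) (by norm_num : 3 < 4), if_neg (by norm_num), RS_self, h7] at key
    linarith

end Pool.Agent.GaussPoset.Win.W4

namespace Pool.Agent.GaussPoset.EK

set_option linter.unusedSectionVars false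

open Finset Win St Polynomial Wd Win.W4 Win.Rc Win.Pn
open Pool.Agent.GaussPoset.Win.SO (PN vp mem_PN N1f mem_N1f N5f CQ envc chc)

universe u

variable {P : Type u} [Fintype P] [PartialOrder P] [DecidableEq P] {r i j : ℕ}

variable {m : ℕ} {x : ℕ → P} {c : ℕ → ℤ} {β : ℤ} {t : Tops P} {lo hi : ℕ → ℕ} {e : ℕ → ℕ → P}

variable {K : Finset P} {psi : P → P} {w v : P}

/-- a light join at a double of the part -/
def LJ (i : ℕ) (K : Finset P) (t : Tops P) : Prop :=
  ∃ z y v : P, K2.SD (i + 1) (topOf : P → Tops P) z y v ∧ topOf y = t ∧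
    sa (i + 1) (topOf : P → Tops P) K (uc y) (topOf y) = 0 ∧
    z ∉ So.N5s i (topOf : P → Tops P)

/-- the doubles over the same pair which is joined once are equal -/
lemma dbl_uniq {k l : P} (hd : dcv k l = 1) {y y' : P} (hy : uc y = {k, l})
    (hy' : uc y' = {k, l}) : y = y' := by
  classical
  unfold dcv at hd
  obtain ⟨y0, h9⟩ := card_eq_one.1 hd
  have key : ∀ y : P, uc y = {k, l} → y = y0 := by
    intro y hy
    have e1 : y ∈ ({y0} : Finset P) := by
      rw [← h9, mem_filter]
      refine ⟨mem_univ _, mem_uc.1 ?_, mem_uc.1 ?_⟩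
      · rw [hy]; exact mem_insert_self _ _
      · rw [hy]; exact mem_insert_of_mem (mem_singleton_self _)
    rwa [mem_singleton] at e1
  rw [key y hy, key y' hy']

/-- the private children over a pair which is joined once -/
lemma de_uc {C : Finset P} (H : Gr P r) {k : ℕ} (hd : dcv (x k) (x (k + 1)) = 1) {y : P}
    (hy : uc y = {x k, x (k + 1)}) {a : P} (ha : a ∈ DE i C x k) : uc a = {y} := by
  classical
  obtain ⟨-, h1, h2⟩ := mem_DE.1 ha
  obtain ⟨l1, l2, y', h3, h4⟩ := mem_PD.1 h1
  obtain ⟨y'', h5⟩ := card_eq_one.1 l2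
  have h6 : y' = y'' := by
    have := mem_uc.2 h3
    rw [h5, mem_singleton] at this
    exact this
  subst h6
  have h7 : uc y' = ed x k := by rw [← SO.sit_PD H l1 h5, h2]
  rw [h5, dbl_uniq hd (y := y') (y' := y) h7 hy]

lemma three_dc (H : Gr P r) {y a b z : P} (ha : a ⋖ y) (hb : b ⋖ y) (hz : z ⋖ y) (hab : a ≠ b)
    (haz : a ≠ z) (hbz : b ≠ z) : False := by
  classical
  have hsub : ({a, b, z} : Finset P) ⊆ dc y := by
    intro q hq
    rw [mem_insert, mem_insert, mem_singleton] at hq
    rcases hq with rfl | rfl | rfl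
    · exact mem_dc.2 ha
    · exact mem_dc.2 hb
    · exact mem_dc.2 hz
  have h1 := card_le_card hsub
  have h2 := dc_card_le H y
  rw [card_insert_of_notMem, card_pair hbz] at h1
  · omega
  · rw [mem_insert, mem_singleton]
    push Not
    exact ⟨hab, haz⟩

namespace ClDL

variable (F : ClDL P r i t m x c lo hi e)
include F

/-- five sites, two private children of the double over `x 2`, `x 3`, an upper pendant over the last pair
and no private child there: a light join at the last double -/
theorem light4 (R : Red P (i + 1) K psi) (S : Shape (i + 1) lo hi) (hm4 : m = 4)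
    (hd : (DE (i + 1) (Cx i t) x 2).card = 2) (h3 : NE (i + 1) (Cx i t) x 3 = -1) : LJ i K t := by
  classical
  obtain ⟨w, v, D⟩ := F.dlg R
  have h := F.h
  have H := h.g.H
  subst hm4
  have hj : 2 ≤ i + 1 := by have := F.hi1; omega
  -- the numbers over the last pair
  have hU1 := D.W.UE_one (i := i + 1) (C := Cx i t) 3
  have hU : UE (i + 1) (Cx i t) x (4 - 1) ≠ ∅ := by
    intro h0
    have h0' : UE (i + 1) (Cx i t) x 3 = ∅ := h0
    unfold NE at h3
    rw [h0', card_empty] at h3
    push_cast at h3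
    omega
  have hDE3 : DE (i + 1) (Cx i t) x 3 = ∅ := by
    unfold NE at h3
    rw [← card_eq_zero]
    omega
  have hpl := F.pen_last S hU
  have hx4 : (uc (x 4)).card = 1 := by
    rcases D.W.uc_le (k := 4) le_rfl with h6 | h6
    · exact h6
    · exact absurd (D.W.ue_last (by omega) h6) hU
  -- the doubles
  have d23 : dcv (x 2) (x (2 + 1)) = 1 := by
    have := D.dn 2 3 (by omega) (by omega)
    norm_num at this
    exact this
  have d34 : dcv (x 3) (x (3 + 1)) = 1 := by
    have := D.dn 3 4 (by omega) (by omega)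
    norm_num at this
    exact this
  have hne : ∀ a b, a ≤ 4 → b ≤ 4 → a ≠ b → x a ≠ x b := fun a b ha hb hab => D.W.ne ha hb hab
  have mk : ∀ k, k < 4 → dcv (x k) (x (k + 1)) = 1 → ∃ y, uc y = {x k, x (k + 1)} := by
    intro k hk hd1
    unfold dcv at hd1
    obtain ⟨y, hy⟩ := card_eq_one.1 hd1
    have hy' : y ∈ univ.filter (fun y => y ⋖ x k ∧ y ⋖ x (k + 1)) := by
      rw [hy]; exact mem_singleton_self y
    rw [mem_filter] at hy'
    refine ⟨y, (eq_of_subset_of_card_le ?_ ?_).symm⟩
    · intro s hs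
      rw [mem_insert, mem_singleton] at hs
      rcases hs with rfl | rfl
      · exact mem_uc.2 hy'.2.1
      · exact mem_uc.2 hy'.2.2
    · rw [card_pair (hne _ _ (by omega) (by omega) (by omega))]
      exact uc_card_le H _
  obtain ⟨y2, hy2⟩ := mk 2 (by omega) d23
  obtain ⟨y3, hy3⟩ := mk 3 (by omega) d34
  have l3 : lev y3 = i + 2 := by
    have := lev_uc H (show x 3 ∈ uc y3 by rw [hy3]; exact mem_insert_self _ _)
    have := F.B.row.lev_x 3 (by omega)
    omega
  have t3 : topOf y3 = t := by
    have h1 := h.split (x := y3) (y := x 3) (mem_uc.1 (by rw [hy3]; exact mem_insert_self _ _))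
      (by omega)
    rw [h1]
    exact F.B.row.kap 3 (by omega)
  obtain ⟨a, b, hab, he⟩ := card_eq_two.1 hd
  have ua : uc a = {y2} := de_uc H d23 hy2 (by rw [he]; exact mem_insert_self _ _)
  have ub : uc b = {y2} := de_uc H d23 hy2 (by
    rw [he]; exact mem_insert_of_mem (mem_singleton_self _))
  have ca : a ⋖ y2 := mem_uc.1 (by rw [ua]; exact mem_singleton_self _)
  have cb : b ⋖ y2 := mem_uc.1 (by rw [ub]; exact mem_singleton_self _)
  have l2 : lev y2 = i + 2 := by
    have := lev_uc H (show x 2 ∈ uc y2 by rw [hy2]; exact mem_insert_self _ _)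
    have := F.B.row.lev_x 2 (by omega)
    omega
  have hr3 : i + 3 ≤ r := by
    have h1 := lev_cov H ca
    have h2 := H.hr a
    omega
  have y23 : y2 ≠ y3 := by
    rintro rfl
    have h1 : x 2 ∈ ({x 3, x (3 + 1)} : Finset P) := by
      rw [← hy3, hy2]; exact mem_insert_self _ _
    rw [mem_insert, mem_singleton] at h1
    rcases h1 with h1 | h1
    · exact hne 2 3 (by omega) (by omega) (by omega) h1
    · exact hne 2 4 (by omega) (by omega) (by omega) h1
  -- the child
  obtain ⟨z, hz⟩ := dc_nonempty H (x := y3) (by omega)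
  rw [mem_dc] at hz
  have lz := lev_cov H hz
  have hz1 : (uc z).card ≠ 1 := by
    intro h1
    obtain ⟨q, hq⟩ := card_eq_one.1 h1
    have h2 := mem_uc.2 hz
    rw [hq, mem_singleton] at h2
    subst h2
    have h4 : z ∈ DE (i + 1) (Cx i t) x 3 := by
      refine mem_DE.2 ⟨?_, ?_, ?_⟩
      · unfold Cx
        rw [mem_cext]
        intro p hp hlp
        rcases eq_or_lt_of_le hp with h5 | h5
        · rw [← h5] at hlp
          omega
        · obtain ⟨p', hp', hp2⟩ := Hul.exists_cov h5
          rw [← mem_uc, hq, mem_singleton] at hp'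
          subst hp'
          rw [← t3]
          exact (Split.le (l := i + 1 + 1) (κ := (topOf : P → Tops P)) h.split _ hp2
            (by omega)).symm
      · rw [mem_PD]
        exact ⟨by omega, h1, y3, hz, by rw [hy3, card_pair (hne _ _ (by omega) (by omega)
          (by omega))]⟩
      · rw [SO.sit_PD H (by omega) hq, hy3]
        rfl
    rw [hDE3] at h4
    exact absurd h4 (notMem_empty _)
  have hz2 : (uc z).card = 2 := by
    rcases uc_card_cases H (x := z) (by omega) with h1 | h1
    · exact absurd h1 hz1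
    · exact h1
  obtain ⟨s, hs⟩ : ∃ s, uc z = {y3, s} ∧ y3 ≠ s := by
    obtain ⟨p, q, hpq, hpq2⟩ := card_eq_two.1 hz2
    have h1 := mem_uc.2 hz
    rw [hpq2, mem_insert, mem_singleton] at h1
    rcases h1 with rfl | rfl
    · exact ⟨q, hpq2, hpq⟩
    · exact ⟨p, by rw [hpq2, pair_comm], hpq.symm⟩
  obtain ⟨hs, hs3⟩ := hs
  have zs : z ⋖ s := mem_uc.1 (by rw [hs]; exact mem_insert_of_mem (mem_singleton_self _))
  have ls : lev s = i + 2 := by have := lev_cov H zs; omega
  -- nothing else below `x 3`
  have hc32 : y2 ⋖ x 3 := mem_uc.1 (by rw [hy2]; exact mem_insert_of_mem (mem_singleton_self _))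
  have hc33 : y3 ⋖ x 3 := mem_uc.1 (by rw [hy3]; exact mem_insert_self _ _)
  have hs2 : s ≠ y2 := by
    rintro rfl
    have haz : a ≠ z := by
      rintro rfl
      rw [ua] at hz2
      rw [card_singleton] at hz2
      omega
    have hbz : b ≠ z := by
      rintro rfl
      rw [ub] at hz2
      rw [card_singleton] at hz2
      omega
    exact three_dc H ca cb zs hab haz hbz
  have hsx3 : ¬ s ⋖ x 3 := fun hsx => three_dc H hc32 hc33 hsx y23 hs2.symm hs3
  -- the other cover is single
  have cs : (uc s).card = 1 := by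
    rcases uc_card_cases H (x := s) (by omega) with h1 | h1
    · exact h1
    · exfalso
      obtain ⟨p, hp1, hp2⟩ := NJ.noQ h hj z (by omega) y3 (mem_uc.2 hz) s (mem_uc.2 zs) hs3
        (by rw [hy3, card_pair (hne _ _ (by omega) (by omega) (by omega))]) h1
      rw [hy3, mem_insert, mem_singleton] at hp1
      rcases hp1 with rfl | rfl
      · exact hsx3 (mem_uc.1 hp2)
      · have ts : topOf s = t := by
          have h2 := h.split (x := s) (y := x (3 + 1)) (mem_uc.1 hp2) (by omega)
          rw [h2]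
          exact F.B.row.kap 4 (by omega)
        obtain ⟨k, hk, hk1, huk⟩ := dl_double h D ls h1 ts
        rw [huk, mem_insert, mem_singleton] at hp2
        have hk3 : k = 3 := by
          rcases hp2 with h2 | h2
          · by_contra hne3
            exact hne 4 k (by omega) (by omega) (by omega) h2
          · by_contra hne3
            exact hne 4 (k + 1) (by omega) (by omega) (by omega) h2
        subst hk3
        exact hs3 (dbl_uniq d34 hy3 huk)
  obtain ⟨q, hq⟩ := card_eq_one.1 cs
  have sq : s ⋖ q := mem_uc.1 (by rw [hq]; exact mem_singleton_self q)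
  -- the other cover is outside
  have ts : topOf s ≠ t := by
    intro ts
    have tq : topOf q = t := by
      rw [← ts]
      exact (h.split sq (by omega)).symm
    obtain ⟨k, hk, rfl⟩ : ∃ k, k ≤ 4 ∧ x k = q :=
      D.W.surj q (mem_cext_of_le h.split (by have := lev_cov H sq; omega) tq)
        (by have := lev_cov H sq; omega)
    have hmem : s ∈ pen (x k) := mem_pen.2 ⟨sq, cs⟩
    have hk5 : k ≤ 1 ∨ k = 2 ∨ k = 3 ∨ k = 4 := by omega
    rcases hk5 with h1 | rfl | rfl | rfl
    · rw [dl_pen01 D h1] at hmem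
      exact absurd hmem (notMem_empty _)
    · rw [D.W.pen0 2 le_rfl (by omega)] at hmem
      exact absurd hmem (notMem_empty _)
    · exact hsx3 sq
    · rw [hpl] at hmem
      exact absurd hmem (notMem_empty _)
  have Sd : K2.SD (i + 1) (topOf : P → Tops P) z y3 s :=
    ⟨by omega, hs, fun h1 => ts (by rw [← h1]; exact t3),
      by rw [hy3, card_pair (hne _ _ (by omega) (by omega) (by omega))], cs⟩
  refine ⟨z, y3, s, Sd, t3, ?_, ?_⟩
  · have hd0 : Disjoint ({x 0, x 1} : Finset P) (uc y3) := by
      rw [hy3, disjoint_insert_left, disjoint_singleton_left, mem_insert, mem_singleton,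
        mem_insert, mem_singleton]
      push Not
      exact ⟨⟨hne _ _ (by omega) (by omega) (by omega), hne _ _ (by omega) (by omega) (by omega)⟩,
        hne _ _ (by omega) (by omega) (by omega), hne _ _ (by omega) (by omega) (by omega)⟩
    have hd1 : Disjoint ({x 1, x 2} : Finset P) (uc y3) := by
      rw [hy3, disjoint_insert_left, disjoint_singleton_left, mem_insert, mem_singleton,
        mem_insert, mem_singleton]
      push Not
      exact ⟨⟨hne _ _ (by omega) (by omega) (by omega), hne _ _ (by omega) (by omega) (by omega)⟩,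
        hne _ _ (by omega) (by omega) (by omega), hne _ _ (by omega) (by omega) (by omega)⟩
    rw [t3, fg_sa h R D.Q, D.hw, D.hv, if_pos hd0, if_pos hd1]
    norm_num
  · intro hz5
    obtain ⟨-, -, -, h5⟩ := So.mem_N5s.1 hz5
    have hD : So.CrV i (topOf : P → Tops P) z y3 s := ⟨Sd.lz, Sd.huc, Sd.hk⟩
    rw [So.up_eq] at h5
    have h6 : (lv P i).filter (fun p => z < p) ⊆ uc (x 3) ∪ uc q := by
      intro p hp
      rw [mem_filter, mem_lv] at hp
      obtain ⟨b, hb, hp2⟩ := (hD.mem0 H).1 hp
      rw [hy3, hq, mem_union, mem_insert, mem_singleton, mem_singleton] at hb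
      rw [mem_union]
      rcases hb with (rfl | rfl) | rfl
      · exact Or.inl hp2
      · left
        have h7 := D.W.up 3 4 (by omega) (by omega)
        rw [if_pos rfl] at h7
        unfold ucv at h7
        obtain ⟨u, hu⟩ := card_pos.1 (by rw [h7]; norm_num)
        rw [mem_filter] at hu
        obtain ⟨u', hu'⟩ := card_eq_one.1 hx4
        have h8 := mem_uc.2 hu.2.2
        have hp3 : p ∈ uc (x 4) := hp2
        rw [hu', mem_singleton] at h8 hp3
        rw [hp3, ← h8]
        exact mem_uc.2 hu.2.1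
      · exact Or.inr hp2
    have h7 := card_le_card h6
    have h8 := card_union_le (uc (x 3)) (uc q)
    have h9 := uc_card_le H (x 3)
    have h10 := uc_card_le H q
    omega

end ClDL

end Pool.Agent.GaussPoset.EK

end

/-! From `Pool.Agent.W_448cl_h64.CmC` -/

section

/-!
MP_448cb3_co, G2, case B, step 0 (weights `W1`): a row with the pattern [DL], the doubled end closed, at least
four sites.  helper64.
-/

namespace Pool.Agent.GaussPoset.EK

set_option linter.unusedSectionVars false

open Finset Win St Polynomial Wd Win.W4 Win.Rc Win.Pn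
open Pool.Agent.GaussPoset.Win.SO (PN vp mem_PN N1f mem_N1f N5f CQ envc chc)

universe u

variable {P : Type u} [Fintype P] [PartialOrder P] [DecidableEq P] {r i j : ℕ}

variable {m : ℕ} {x : ℕ → P} {c : ℕ → ℤ} {β : ℤ} {t : Tops P} {lo hi : ℕ → ℕ} {e : ℕ → ℕ → P}

variable {K : Finset P} {psi : P → P} {w v : P}

/-- the value for step 0 -/
noncomputable def Qc (i : ℕ) (t : Tops P) : ℤ :=
  Vc i t + 2 * wv (i + 1) (Cx i t) + 4 * wv (i + 1) (Cx i t) ^ 2

/-- the bound of step 0 -/
def QB (i : ℕ) (K : Finset P) (t : Tops P) : Prop := 0 ≤ Qc i t ∨ (-8 ≤ Qc i t ∧ LJ i K t)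

lemma Qc_ge (i : ℕ) (t : Tops P) : Vc i t ≤ Qc i t := by
  unfold Qc
  have : 0 ≤ 2 * wv (i + 1) (Cx i t) + 4 * wv (i + 1) (Cx i t) ^ 2 := by
    rcases le_or_gt 0 (wv (i + 1) (Cx i t)) with h | h
    · positivity
    · nlinarith
  linarith

lemma Qc_one {i : ℕ} {t : Tops P} (h : wv (i + 1) (Cx i t) = 1) : Qc i t = Vc i t + 6 := by
  unfold Qc
  rw [h]
  ring

namespace ClDL

variable (F : ClDL P r i t m x c lo hi e)
include F

theorem fin4Q (R : Red P (i + 1) K psi) (S : Shape (i + 1) lo hi) (h4 : 4 ≤ m)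
    (hV : 4 + 2 * (2 * n1 i (SS i t) - 4 * n5 i (SS i t) + Ow (i + 1) (Cx i t)) ≤ Vc i t) :
    QB i K t := by
  obtain ⟨w, v, D⟩ := F.dlg R
  obtain ⟨hw, h5⟩ := F.win4 h4
  have hQ := Qc_ge i t
  rcases h5 with ⟨d, g⟩ | ⟨d, g⟩ | ⟨d, g⟩
  · left
    linarith
  · left
    linarith
  · rw [d] at hw
    push_cast at hw
    have hq := Qc_one (i := i) (t := t) (by linarith)
    have hn := F.n1_ge h4
    rw [d] at hn
    push_cast at hn
    have h5 := F.n5_le4 D
    have hl : -1 ≤ NE (i + 1) (Cx i t) x (m - 1) := by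
      unfold NE
      have := D.W.UE_one (i := i + 1) (C := Cx i t) (m - 1)
      have h6 : ((UE (i + 1) (Cx i t) x (m - 1)).card : ℤ) ≤ 1 := by exact_mod_cast this
      have h7 := Int.natCast_nonneg (DE (i + 1) (Cx i t) x (m - 1)).card
      linarith
    rcases D.Ow_two h4 F.hu hl h5 d with g' | ⟨hm4, h3, g'⟩
    · left
      linarith
    · right
      refine ⟨by linarith, F.light4 R S hm4 d h3⟩

theorem fin3Q (S : Shape (i + 1) lo hi) (hm3 : m = 3) (hp : pen (x 2) = ∅)
    (h3 : (uc (x 3)).card = 2 → (pen (x 3)).card ≤ 1) (hV : 4 + 2 * (2 * n1 i (SS i t) -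
    4 * n5 i (SS i t) + Ow (i + 1) (Cx i t)) ≤ Vc i t) : QB i K t := by
  have hQ := Qc_ge i t
  rcases F.win3 S hm3 hp h3 with g | ⟨g1, -, g2⟩
  · left
    linarith
  · left
    rw [Qc_one g1]
    linarith

/-- no pendants -/
theorem case1Q (R : Red P (i + 1) K psi) (S : Shape (i + 1) lo hi)
    (hN : ∀ q ∈ SS i t, q ∉ PD P i ∧ q ∉ PU P i) : QB i K t := by
  classical
  have hm := F.hm
  obtain ⟨f1, f2, f3⟩ := F.none_vals hN
  have h0 := F.own_ge (q := 0) (by omega) (by
    intro z hz
    rw [f1, f2] at hz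
    simp at hz)
  have ha : fa i (SS i t) = 0 := by
    unfold fa
    rw [f1, f2]
    simp
  have hf : fm i (SS i t) x 0 = 0 := by
    unfold fm
    rw [f1, f2]
    simp
  rw [ha, hf, if_neg (by omega)] at h0
  have hV : 4 + 2 * (2 * n1 i (SS i t) - 4 * n5 i (SS i t) + Ow (i + 1) (Cx i t)) ≤ Vc i t := by
    unfold Vc
    rw [f3, sum_empty]
    linarith
  rcases Nat.lt_or_ge 3 m with h4 | h4
  · exact F.fin4Q R S h4 hV
  · have hm3 : m = 3 := by omega
    refine F.fin3Q S hm3 ?_ ?_ hV
    · rw [eq_empty_iff_forall_notMem]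
      intro q hq
      obtain ⟨g1, g2, -⟩ := F.pen_PD (by omega) (F.inner2 (by omega)) hq
      exact (hN q g1).1 g2
    · intro hc
      have : pen (x 3) = ∅ := by
        rw [eq_empty_iff_forall_notMem]
        intro q hq
        obtain ⟨g1, g2, -⟩ := F.pen_PD (by omega) hc hq
        exact (hN q g1).1 g2
      rw [this, card_empty]
      omega

/-- a pendant below the closed other end -/
theorem case2Q (R : Red P (i + 1) K psi) (S : Shape (i + 1) lo hi) {p u : P}
    (D : PdC i t lo hi e (x m) p u) (hU : FU' i (SS i t) = ∅)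
    (hn : nn i p ≤ 4) : QB i K t := by
  classical
  have hm := F.hm
  obtain ⟨f1, f2, f3⟩ := F.one_vals D
  obtain ⟨k0, z0, kz, ks2⟩ := F.pd_num p
  have h0 := F.own_ge (q := m) le_rfl f2
  have ha : fa i (SS i t) = kc p := by
    unfold fa kc
    rw [f1, hU, card_empty]
    push_cast
    ring
  have hf : fm i (SS i t) x 0 = 0 := by
    obtain ⟨w, v, Dl⟩ := F.dlg R
    have h1 : (FL i (SS i t)).filter (fun z => ¬ Disjoint (sit i z) (se x 0)) = ∅ := by
      rw [eq_empty_iff_forall_notMem]
      intro z hz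
      rw [mem_filter] at hz
      obtain ⟨hz1, hz2⟩ := hz
      apply hz2
      rw [f2 z (Or.inl hz1), disjoint_left]
      intro s hs hs2
      have key : ∀ k, k + 1 < m → s ∈ uc (x k) → False := by
        intro k hk hsk
        have h3 := Dl.W.up k m (by omega) le_rfl
        rw [if_neg (by omega)] at h3
        unfold ucv at h3
        rw [card_eq_zero] at h3
        have h4 : s ∈ univ.filter (fun q => x k ⋖ q ∧ x m ⋖ q) :=
          mem_filter.2 ⟨mem_univ _, mem_uc.1 hsk, mem_uc.1 hs⟩
        rw [h3] at h4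
        exact absurd h4 (notMem_empty _)
      unfold se at hs2
      rw [mem_union] at hs2
      rcases hs2 with h5 | h5
      · exact key 0 (by omega) h5
      · exact key 1 (by omega) h5
    unfold fm
    rw [h1, hU]
    simp
  have hs := F.shr_closed D hU hn
  have hV : 4 + 2 * (2 * n1 i (SS i t) - 4 * n5 i (SS i t) + Ow (i + 1) (Cx i t)) ≤ Vc i t := by
    unfold Vc
    rw [f3, sum_singleton]
    rw [ha, hf] at h0
    have h1 : 0 ≤ 2 * (if m = 3 then kc p else 0) := by
      split_ifs
      · linarith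
      · norm_num
    have h2 : 0 ≤ kc p ^ 2 - kc p := by
      have : kc p ≤ 2 := by linarith
      generalize kc p = k at *
      interval_cases k <;> norm_num
    linarith
  rcases Nat.lt_or_ge 3 m with h4 | h4
  · exact F.fin4Q R S h4 hV
  · have hm3 : m = 3 := by omega
    have hx3 : x m = x 3 := by rw [hm3]
    refine F.fin3Q S hm3 ?_ ?_ hV
    · rw [eq_empty_iff_forall_notMem]
      intro q hq
      obtain ⟨g1, g2, g3⟩ := F.pen_PD (by omega) (F.inner2 (by omega)) hq
      have h5 := D.low q g1 g2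
      rw [h5, D.up] at g3
      exact F.xne (by omega) (by omega) (by omega) (singleton_injective g3 : x m = x 2)
    · intro hc
      have : pen (x 3) ⊆ {p} := by
        intro q hq
        obtain ⟨g1, g2, -⟩ := F.pen_PD (by omega) hc hq
        rw [mem_singleton]
        exact D.low q g1 g2
      have h6 := card_le_card this
      rwa [card_singleton] at h6

/-- everything but the late word -/
theorem mainQ (R : Red P (i + 1) K psi) (S : Shape (i + 1) lo hi) : QB i K t ∨
    (∃ p u, PdC i t lo hi e (x 2) p u ∧ m = 3 ∧ FU' i (SS i t) = ∅ ∧ nn i p ≤ 5 ∧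
      (∀ k, k ≤ 3 → x k = e (i + 1) (hi (i + 1) - k)) ∧
      ∃ a, 3 ≤ a ∧ a + 7 = i + 1 ∧ (∀ k, k < a → lo k = 0 ∧ hi k = 0) ∧ (lo a = 0 ∧ hi a = 1) ∧
        word lo hi a 7 = W7) := by
  rcases F.pend_cases S with hN | ⟨p, u, D, hc, hU, hn⟩ | h3
  · exact Or.inl (F.case1Q R S hN)
  · exact Or.inl (F.case2Q R S D hU hn)
  · exact Or.inr h3

end ClDL

end Pool.Agent.GaussPoset.EK

end

/-! From `Pool.Agent.W_448cl_h64.CmD` -/

section

/-!
MP_448cb3_co, G2, case B, step 0 (weights `W1`): a row with the pattern [DL], the doubled end closed, at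
least four sites, `i + 1 ≠ 13`: the closed late word occurs only for `a = 6`.  helper64.
-/

namespace Pool.Agent.GaussPoset.EK

set_option linter.unusedSectionVars false

open Finset Win St Polynomial Wd Win.W4 Win.Rc Win.Pn

universe u

variable {P : Type u} [Fintype P] [PartialOrder P] [DecidableEq P] {r i j : ℕ}

variable {m : ℕ} {x : ℕ → P} {c : ℕ → ℤ} {β : ℤ} {t : Tops P} {lo hi : ℕ → ℕ} {e : ℕ → ℕ → P}

variable {K : Finset P} {psi : P → P}

/-- the closed late word occurs only for `a = 6` -/
lemma w7_six {a : ℕ} (h : W7 ∈ lateW a) : a = 6 := by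
  unfold lateW at h
  simp only [List.mem_append] at h
  rcases h with ((((((h | h) | h) | h) | h) | h) | h) | h
  · exact absurd h (by decide +kernel)
  · split_ifs at h
    · exact absurd h (by decide +kernel)
    · exact absurd h (by decide +kernel)
  · split_ifs at h
    · exact absurd h (by decide +kernel)
    · exact absurd h List.not_mem_nil
  · split_ifs at h
    · exact absurd h (by decide +kernel)
    · exact absurd h List.not_mem_nil
  · split_ifs at h
    · exact absurd h (by decide +kernel)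
    · exact absurd h List.not_mem_nil
  · split_ifs at h
    · exact absurd h (by decide +kernel)
    · exact absurd h List.not_mem_nil
  · split_ifs at h with h6
    · exact h6
    · exact absurd h List.not_mem_nil
  · split_ifs at h
    · exact absurd h (by decide +kernel)
    · exact absurd h List.not_mem_nil

/-- the closed late word in a shape -/
lemma shape_w7 {a n : ℕ} (S : Shape n lo hi) (ha : 3 ≤ a) (hn : a + 7 = n)
    (h0 : ∀ k, k < a → lo k = 0 ∧ hi k = 0) (hab : lo a = 0 ∧ hi a = 1)
    (hw : word lo hi a 7 = W7) : a = 6 := by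
  rcases S with h | ⟨h1, h2⟩ | ⟨-, h2⟩ | ⟨h1, -, -⟩ | ⟨h1, -⟩ | ⟨a', g0, g1, g2, g3, gN, g4⟩
  · have := (h a (by omega)).2
    omega
  · have := (h0 1 (by omega)).2
    omega
  · have e1 := h2.hi 2 (by omega)
    have e2 := (h0 2 (by omega)).2
    omega
  · omega
  · omega
  · have haa : a' = a := by
      rcases lt_trichotomy a' a with g | g | g
      · have := (h0 a' g).2
        omega
      · exact g
      · have := (g2 a g).2
        omega
    subst haa
    rw [show n - a' = 7 by omega, hw] at g4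
    rcases g4 with ⟨-, g5⟩ | g5
    · exact absurd g5 (by decide)
    · exact w7_six g5

/-- THE VALUE of step 0, all levels but 13 -/
theorem ClDL.mainQ' (F : ClDL P r i t m x c lo hi e) (R : Red P (i + 1) K psi)
    (S : Shape (i + 1) lo hi) (h13 : i + 1 ≠ 13) : QB i K t := by
  rcases F.mainQ R S with h | ⟨p, u, D, hm3, hU, hn, ho, a, a1, a2, a3, a4, a5⟩
  · exact h
  · have := shape_w7 S a1 a2 a3 a4 a5
    omega

end Pool.Agent.GaussPoset.EK

end

/-! From `Pool.Agent.W_448cl_h64.CmF` -/

section

/-!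
MP_448cb3_co, G2, case B, window `j`, the functional `TT` of the level 6: a row with the pattern [DL], the
doubled end closed, at least four sites, odd levels; the strict inequality for the closed late word.
helper64.
-/

namespace Pool.Agent.GaussPoset.EK

set_option linter.unusedSectionVars false

open Finset Win St Polynomial Wd Win.W4 Win.Rc Win.Pn

universe u

variable {P : Type u} [Fintype P] [PartialOrder P] [DecidableEq P] {r i j : ℕ}

variable {m : ℕ} {x : ℕ → P} {c : ℕ → ℤ} {β : ℤ} {t : Tops P} {lo hi : ℕ → ℕ} {e : ℕ → ℕ → P}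

variable {K : Finset P} {psi : P → P} {w v : P} {Y V : P → P}

/-- a closed end at the left, the letters `C O` at the right: only in a stair, even level -/
lemma wide_par {n : ℕ} (C : Cp.Comp (n + 2) (t : P) lo hi e) (S : Shape (n + 2) lo hi)
    (hw : lo (n + 2) + 3 ≤ hi (n + 2)) (g1 : lo (n + 2) = lo (n + 1) + 1)
    (g2 : hi (n + 1) = hi n) (g3 : hi (n + 2) = hi (n + 1) + 1) : (n + 2) % 2 = 0 := by
  have hl : ∀ k, k < n + 2 → lo k ≤ lo (k + 1) ∧ lo (k + 1) ≤ lo k + 1 := by
    intro k hk
    have := C.lo_step k hk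
    omega
  have hh : ∀ k, k < n + 2 → hi k ≤ hi (k + 1) ∧ hi (k + 1) ≤ hi k + 1 := by
    intro k hk
    have := C.hi_step k hk
    omega
  rcases S with h | ⟨h1, h2⟩ | ⟨h1, h2⟩ | ⟨h1, h2, h3⟩ | ⟨h1, h2⟩ | ⟨a, h0, h1, h2, h3, hN, h4⟩
  · have := h (n + 2) le_rfl
    omega
  · have e1 := h2.hi (n + 1) (by omega)
    have e2 := C.hi_le (k := n) (by omega)
    have e3 := h2.lo (n + 1) (by omega)
    rw [show n + 1 + 1 = n + 2 by omega] at e1 e3
    omega
  · have e2 := h2.hi (n + 1) (by omega)
    have e3 := h2.hi (n + 2) (by omega)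
    omega
  · have h5 : n + 2 = 3 := h1
    rw [h5] at hw
    omega
  · have h5 : n + 2 = 6 := h1
    rw [h5] at hw
    unfold F1 at h2
    omega
  · exfalso
    have hlo : ∀ k, k < a + (n + 2 - a) → lo (k + 1) = lo k ∨ lo (k + 1) = lo k + 1 :=
      fun k hk => C.lo_step k (by omega)
    have hhi : ∀ k, k < a + (n + 2 - a) → hi (k + 1) = hi k ∨ hi (k + 1) = hi k + 1 :=
      fun k hk => C.hi_step k (by omega)
    have hcnt := word_count (a := a) (d := n + 2 - a) (lo := lo) (hi := hi) hlo hhi
    rw [show a + (n + 2 - a) = n + 2 by omega] at hcnt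
    rcases h4 with ⟨h5, h6⟩ | h4
    · have h7 := Qw_hi h6 (by omega) hhi
      rw [show a + (n + 2 - a) = n + 2 by omega] at h7
      omega
    · rcases lateW_good a _ h4 with g | g | g
      · omega
      · rcases Nat.eq_zero_or_pos (n + 2 - a) with h5 | h5
        · have : a = n + 2 := by omega
          rw [this] at h3
          omega
        · have h6 := word_last (by omega) g
          rw [show a + (n + 2 - a) = n + 2 by omega, show n + 2 - 1 = n + 1 by omega] at h6
          omega
      · obtain ⟨w1, w2⟩ := word_spec g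
        have hl7 : W7.length = 7 := rfl
        rw [hl7] at w1
        obtain rfl : n = a + 5 := by omega
        have f6 : lo (a + 6 + 1) = lo (a + 6) := by
          have h5 := (w2 6 (by omega)).1
          rw [show W7[6]?.map Prod.fst = some false by decide] at h5
          have h6 := of_decide_eq_false (Option.some.inj h5).symm
          push Not at h6
          exact h6
        have e1 : lo (a + 5 + 2) = lo (a + 6 + 1) := rfl
        have e2 : lo (a + 5 + 1) = lo (a + 6) := rfl
        omega

namespace ClDL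

variable (F : ClDL P r i t m x c lo hi e)
include F

/-- odd levels: no upper pendant over the last pair -/
theorem ue_odd (S : Shape (i + 1) lo hi) (ho : (i + 1) % 2 = 1) :
    UE (i + 1) (Cx i t) x (m - 1) = ∅ := by
  rw [eq_empty_iff_forall_notMem]
  intro z hz
  obtain ⟨n, hn⟩ : ∃ n, i + 1 = n + 2 := ⟨i - 1, by have := F.hi1; omega⟩
  have hor := F.letters hn hz
  have C := F.C
  obtain rfl : i = n + 1 := by omega
  have hb := F.coord.1
  have hm := F.hm
  have e1 : lo (n + 1 + 1) = lo (n + 2) := rfl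
  have e2 : hi (n + 1 + 1) = hi (n + 2) := rfl
  rw [e1, e2] at hb
  rcases hor with ⟨-, q0, q1, q2⟩ | ⟨-, q0, q1, q2⟩
  · have := wide_par C S (by omega) q0 q1 q2
    have e3 : n + 1 + 1 = n + 2 := rfl
    omega
  · exact (wide_fuw3 C S (by omega)).2 ⟨q0, q1, q2⟩

/-- twice the value, four sites -/
theorem two_tv (hm3 : m = 3) : 2 * W4.Tv (i + 1) (Cx i t) = Ow (i + 1) (Cx i t) +
    3 * (NE (i + 1) (Cx i t) x 0 + 1 - (pen (x 2)).card) + 2 * (NE (i + 1) (Cx i t) x 2 - 1) +
      4 * (NE (i + 1) (Cx i t) x 2 - 1) ^ 2 := by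
  obtain ⟨K, psi, R⟩ := exists_red P (i + 1)
  obtain ⟨w, v, D⟩ := F.dlg R
  have e3 : Ico 3 m = ∅ := by rw [hm3]; rfl
  have h1 := D.al2_eq
  rw [F.hu, e3, sum_empty] at h1
  push_cast at h1
  have h2 := F.w3
  unfold Ow W4.Tv
  rw [h1, h2]
  ring

/-- four sites, nothing below `x 2` -/
theorem tv3 (hm3 : m = 3) (hU : UE (i + 1) (Cx i t) x 2 = ∅) (hp : pen (x 2) = ∅)
    (h3 : (uc (x 3)).card = 2 → (pen (x 3)).card ≤ 1) : 2 ≤ W4.Tv (i + 1) (Cx i t) := by
  obtain ⟨K, psi, R⟩ := exists_red P (i + 1)
  obtain ⟨w, v, D⟩ := F.dlg R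
  have ht := F.two_tv hm3
  have h0 := D.NE0_nonneg F.hu
  have h4 : (uc (x 3)).card + (pen (x 3)).card ≤ 3 := by
    have h5 := D.W.pen_le (x 3)
    rcases D.W.uc_le (k := 3) (by omega) with h6 | h6
    · omega
    · have := h3 h6
      omega
  have hn : (0 : ℤ) ≤ ((Z4 (i + 1) (Cx i t)).card : ℤ) - (T4 (i + 1) (Cx i t)).card := by
    have := card_le_card (T4_subset (i + 1) (Cx i t))
    have h5 : ((T4 (i + 1) (Cx i t)).card : ℤ) ≤ (Z4 (i + 1) (Cx i t)).card := by
      exact_mod_cast this
    linarith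
  have e2 : NE (i + 1) (Cx i t) x 2 = ((DE (i + 1) (Cx i t) x 2).card : ℤ) := by
    unfold NE
    rw [hU, card_empty]
    push_cast
    ring
  rw [e2, hp, card_empty] at ht
  push_cast at ht
  rcases D.Ow_ge3 hm3 F.hu hU hp h4 hn with ⟨d, g⟩ | ⟨d, g⟩ | ⟨d, g⟩ <;> rw [d] at ht <;>
    push_cast at ht <;> linarith

/-- four sites, one pendant below `x 2`, the other end open, without pendants -/
theorem tv3B (hm3 : m = 3) (hU : UE (i + 1) (Cx i t) x 2 = ∅) (hp : (pen (x 2)).card = 1)
    (h3 : (uc (x 3)).card = 1) (hp3 : pen (x 3) = ∅) : 4 ≤ W4.Tv (i + 1) (Cx i t) := by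
  obtain ⟨K, psi, R⟩ := exists_red P (i + 1)
  obtain ⟨w, v, D⟩ := F.dlg R
  have ht := F.two_tv hm3
  have h0 := D.NE0_nonneg F.hu
  have hn : (0 : ℤ) ≤ ((Z4 (i + 1) (Cx i t)).card : ℤ) - (T4 (i + 1) (Cx i t)).card := by
    have := card_le_card (T4_subset (i + 1) (Cx i t))
    have h5 : ((T4 (i + 1) (Cx i t)).card : ℤ) ≤ (Z4 (i + 1) (Cx i t)).card := by
      exact_mod_cast this
    linarith
  have e2 : NE (i + 1) (Cx i t) x 2 = ((DE (i + 1) (Cx i t) x 2).card : ℤ) := by
    unfold NE
    rw [hU, card_empty]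
    push_cast
    ring
  rw [e2, hp] at ht
  push_cast at ht
  rcases D.Ow_ge3B' hm3 F.hu hU hp h3 hp3 hn with ⟨d, g⟩ | ⟨d, g⟩ | ⟨d, g⟩ <;> rw [d] at ht <;>
    push_cast at ht <;> linarith

/-- THE VALUE at odd levels, and the strict form for the closed late word -/
theorem tv_odd (S : Shape (i + 1) lo hi) (ho : (i + 1) % 2 = 1) :
    2 * ((pen (x 2)).card : ℤ) ≤ W4.Tv (i + 1) (Cx i t) ∧
    (∀ a, 3 ≤ a → a + 7 = i + 1 → (lo a = 0 ∧ hi a = 1) → word lo hi a 7 = W7 →
      2 * ((pen (x 2)).card : ℤ) + 2 ≤ W4.Tv (i + 1) (Cx i t)) := by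
  classical
  obtain ⟨K, psi, R⟩ := exists_red P (i + 1)
  obtain ⟨w, v, D⟩ := F.dlg R
  have hm := F.hm
  have hU := F.ue_odd S ho
  rcases Nat.lt_or_ge 3 m with h4 | h4
  · have hl : 0 ≤ NE (i + 1) (Cx i t) x (m - 1) := by
      unfold NE
      rw [hU, card_empty]
      push_cast
      omega
    have h5 := D.T_ge4 (by omega) F.hu hl
    have h6 : (pen (x 2)).card = 0 := by
      rw [D.W.pen0 2 le_rfl (by omega), card_empty]
    refine ⟨by rw [h6]; push_cast; linarith, ?_⟩
    intro a ha haj hab hw
    exfalso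
    have C := F.C
    have hlo : ∀ k, k < a + 7 → lo (k + 1) = lo k ∨ lo (k + 1) = lo k + 1 :=
      fun k hk => C.lo_step k (by omega)
    have hhi : ∀ k, k < a + 7 → hi (k + 1) = hi k ∨ hi (k + 1) = hi k + 1 :=
      fun k hk => C.hi_step k (by omega)
    have hcnt := word_count (a := a) (d := 7) (lo := lo) (hi := hi) hlo hhi
    rw [hw, show W7.count Wd.CC = 0 by decide, show W7.count OO = 2 by decide] at hcnt
    have h7 := F.coord.1
    have e1 : lo (a + 7) = lo (i + 1) := by rw [haj]
    have e2 : hi (a + 7) = hi (i + 1) := by rw [haj]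
    omega
  · obtain rfl : m = 3 := by omega
    have hU2 : UE (i + 1) (Cx i t) x 2 = ∅ := hU
    rcases F.pend_cases S with hN | ⟨p, u, Dp, hc, hUf, hn⟩ |
      ⟨p, u, Dp, hm3, hUf, hn, hor, a, a1, a2, -, a4, a5⟩
    · have hp2 : pen (x 2) = ∅ := by
        rw [eq_empty_iff_forall_notMem]
        intro q hq
        obtain ⟨g1, g2, -⟩ := F.pen_PD (by omega) (F.inner2 (by omega)) hq
        exact (hN q g1).1 g2
      have h5 := F.tv3 rfl hU2 hp2 (fun hc => by
        have : pen (x 3) = ∅ := by
          rw [eq_empty_iff_forall_notMem]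
          intro q hq
          obtain ⟨g1, g2, -⟩ := F.pen_PD (by omega) hc hq
          exact (hN q g1).1 g2
        rw [this, card_empty]
        omega)
      rw [hp2, card_empty]
      push_cast
      exact ⟨by linarith, fun _ _ _ _ _ => by linarith⟩
    · have hp2 : pen (x 2) = ∅ := by
        rw [eq_empty_iff_forall_notMem]
        intro q hq
        obtain ⟨g1, g2, g3⟩ := F.pen_PD (by omega) (F.inner2 (by omega)) hq
        have h5 := Dp.low q g1 g2
        rw [h5, Dp.up] at g3
        exact F.xne (by omega) (by omega) (by omega) (singleton_injective g3 : x 3 = x 2)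
      have h5 := F.tv3 rfl hU2 hp2 (fun hc => by
        have : pen (x 3) ⊆ {p} := by
          intro q hq
          obtain ⟨g1, g2, -⟩ := F.pen_PD (by omega) hc hq
          rw [mem_singleton]
          exact Dp.low q g1 g2
        have h6 := card_le_card this
        rwa [card_singleton] at h6)
      rw [hp2, card_empty]
      push_cast
      exact ⟨by linarith, fun _ _ _ _ _ => by linarith⟩
    · obtain ⟨-, g2, g3⟩ := F.late_end rfl hor a1 a2 a4 a5
      have hpen : pen (x 2) = {p} := by
        ext q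
        rw [mem_singleton]
        constructor
        · intro hq
          obtain ⟨g1, g2, -⟩ := F.pen_PD (by omega) (F.inner2 (by omega)) hq
          exact Dp.low q g1 g2
        · rintro rfl
          exact mem_pen_of_uc Dp.up
      have hp1 : (pen (x 2)).card = 1 := by rw [hpen, card_singleton]
      have h5 := F.tv3B rfl hU2 hp1 g2 g3
      rw [hp1]
      push_cast
      exact ⟨by linarith, fun _ _ _ _ _ => by linarith⟩

end ClDL

section share

variable (h : NJ P r j) (hj : 2 ≤ j) (R : Red P j K psi) (hY : YV j Y V)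

include h hj R hY

/-- the pattern [DL], at least four sites: the parts of the share -/
theorem NJ.dl_parts (B : RowB P j t m x c β) (hm : 3 ≤ m) (hβ : β = 0) (c0 : c 0 = 1)
    (c1 : c 1 = -1) (c2 : ∀ k, 2 ≤ k → k < m → c k = 0) :
    PA j K Y V t + PB j K Y V t ≤ 2 * ((pen (x 2)).card : ℤ) ∧
      TT j t = W4.Tv j (cext (j + 1) (topOf : P → Tops P) t) := by
  classical
  obtain ⟨w, v, D⟩ := NJ.dlg h hj R B hm hβ c0 c1 c2
  have W := D.W
  have hne : ∀ k l, k ≤ m → l ≤ m → k ≠ l → x k ≠ x l := fun k l hk hl hkl =>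
    W.ne hk hl hkl
  have a1 : PA j K Y V t = 0 := NJ.PA_zero h hj R hY fun y hy ht => by
    have := (B.bad h hj hy ht).2
    omega
  have a2 := NJ.PB_le h hj R hY B (q0 := 2) (b := 1) le_rfl fun q hq hq1 => by
    rw [sa_K5 h R D.Q, D.hw, D.hv] at hq1 ⊢
    have hq3 : q = 0 ∨ q = 1 ∨ q = 2 ∨ 3 ≤ q := by omega
    rcases hq3 with rfl | rfl | rfl | hq3
    · rw [if_neg (by rw [dis_pair]; tauto), if_pos (by
        rw [dis_pair]
        exact ⟨hne 0 1 (by omega) (by omega) (by omega), hne 0 2 (by omega) (by omega) (by omega)⟩)]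
        at hq1
      norm_num at hq1
    · rw [if_neg (by rw [dis_pair]; tauto), if_neg (by rw [dis_pair]; tauto)] at hq1
      norm_num at hq1
    · rw [if_pos (by
        rw [dis_pair]
        exact ⟨hne 2 0 (by omega) (by omega) (by omega), hne 2 1 (by omega) (by omega) (by omega)⟩),
        if_neg (by rw [dis_pair]; tauto)]
      exact ⟨rfl, by norm_num⟩
    · rw [if_pos (by
        rw [dis_pair]
        exact ⟨hne q 0 hq (by omega) (by omega), hne q 1 hq (by omega) (by omega)⟩),
        if_pos (by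
        rw [dis_pair]
        exact ⟨hne q 1 hq (by omega) (by omega), hne q 2 hq (by omega) (by omega)⟩)] at hq1
      norm_num at hq1
  have hs : Small j (topOf : P → Tops P) t := by
    rcases B.small h.g.H h.split with h2 | h2
    · exact h2
    · exfalso
      obtain ⟨h3, -, -, -, h4, -⟩ := h2
      rw [c2 (m - 2) (by omega) (by omega)] at h4
      norm_num at h4
  rw [a1, NJ.TT_small h hj R hs]
  exact ⟨by linarith, rfl⟩

end share

end Pool.Agent.GaussPoset.EK

end

/-! From `Pool.Agent.W_448cl_h64.CmG` -/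

section

/-!
MP_448cb3_co, G2, case B, step 0 at the level 13: a row with the pattern [DL], the doubled end closed, at
least four sites: the sum of the values for `W1` and for `TT`.  helper64.
-/

namespace Pool.Agent.GaussPoset.EK

set_option linter.unusedSectionVars false

open Finset Win St Polynomial Wd Win.W4 Win.Rc Win.Pn
open Pool.Agent.GaussPoset.Win.SO (PN vp mem_PN N1f mem_N1f N5f CQ envc chc)

universe u

variable {P : Type u} [Fintype P] [PartialOrder P] [DecidableEq P] {r i j : ℕ}

variable {m : ℕ} {x : ℕ → P} {c : ℕ → ℤ} {β : ℤ} {t : Tops P} {lo hi : ℕ → ℕ} {e : ℕ → ℕ → P}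

variable {K : Finset P} {psi : P → P} {w v : P} {Y V : P → P}

namespace ClDL

variable (F : ClDL P r i t m x c lo hi e)
include F

/-- the closed late word, a pendant below `x 2`: a lower bound for the weights of step 0 -/
theorem case3Q {p u : P} (D : PdC i t lo hi e (x 2) p u) (hm3 : m = 3)
    (hU : FU' i (SS i t) = ∅) (hn : nn i p ≤ 5) (hU2 : UE (i + 1) (Cx i t) x 2 = ∅)
    (hc3 : (uc (x 3)).card = 1) (hp3 : pen (x 3) = ∅) : -6 ≤ Qc i t := by
  classical
  obtain ⟨K, psi, R⟩ := exists_red P (i + 1)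
  have hm := F.hm
  obtain ⟨w, v, Dl⟩ := F.dlg R
  obtain ⟨f1, f2, f3⟩ := F.one_vals D
  have h0 := F.own_ge (q := 2) (by omega) f2
  rw [if_neg (by omega)] at h0
  have ha : fa i (SS i t) = kc p := by
    unfold fa kc
    rw [f1, hU, card_empty]
    push_cast
    ring
  have hf : fm i (SS i t) x 0 ≤ kc p := by
    unfold fm
    rw [hU, filter_empty, card_empty]
    have h1 := card_le_card (filter_subset (fun z => ¬ Disjoint (sit i z) (se x 0)) (FL i (SS i t)))
    have h2 : (((FL i (SS i t)).filter (fun z => ¬ Disjoint (sit i z) (se x 0))).card : ℤ) ≤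
        (FL i (SS i t)).card := by exact_mod_cast h1
    have h3 : ((FL i (SS i t)).card : ℤ) = kc p := by
      unfold kc
      rw [f1]
    push_cast
    linarith
  have hpen : pen (x 2) = {p} := by
    ext q
    rw [mem_singleton]
    constructor
    · intro hq
      obtain ⟨g1, g2, -⟩ := F.pen_PD (by omega) (F.inner2 (by omega)) hq
      exact D.low q g1 g2
    · rintro rfl
      exact mem_pen_of_uc D.up
  have hp1 : (pen (x 2)).card = 1 := by rw [hpen, card_singleton]
  obtain ⟨-, s2⟩ := F.shr_late D hm3 hU hn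
  have hV : 4 + 2 * (2 * n1 i (SS i t) - 4 * n5 i (SS i t) + Ow (i + 1) (Cx i t)) +
      (2 * (kc p ^ 2 - 5 * kc p) + shr ⟨-1, 9, 1, 4, 3, -1, 2, 13, 0⟩ i p) ≤ Vc i t := by
    unfold Vc
    rw [f3, sum_singleton]
    rw [ha] at h0
    linarith
  have hn1 := F.n1_nonneg
  have hw := F.w3
  unfold NE at hw
  rw [hU2, card_empty] at hw
  push_cast at hw
  have hQ := Qc_ge i t
  rcases Dl.Ow_ge3B' hm3 F.hu hU2 hp1 hc3 hp3 F.n5_le3 with ⟨d, g⟩ | ⟨d, g⟩ | ⟨d, g⟩
  · linarith
  · linarith
  · rw [d] at hw
    push_cast at hw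
    rw [Qc_one (i := i) (t := t) (by linarith)]
    linarith

end ClDL

end Pool.Agent.GaussPoset.EK

end

/-! From `Pool.Agent.W_448cl_h64.CmH` -/

section

/-!
MP_448cb3_co, G2, case B, step 0 at the level 13: a row with the pattern [DL], the doubled end closed, at
least four sites: the value for the weights `5 W1 + 4 TT`.  helper64.
-/

namespace Pool.Agent.GaussPoset.EK

set_option linter.unusedSectionVars false

open Finset Win St Polynomial Wd Win.W4 Win.Rc Win.Pn

universe u

variable {P : Type u} [Fintype P] [PartialOrder P] [DecidableEq P] {r i j : ℕ}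

variable {m : ℕ} {x : ℕ → P} {c : ℕ → ℤ} {t : Tops P} {lo hi : ℕ → ℕ} {e : ℕ → ℕ → P}

variable {K : Finset P} {psi : P → P}

namespace ClDL

variable (F : ClDL P r i t m x c lo hi e)
include F

/-- the two values: either the bound of step 0, or the closed late word -/
theorem pair_odd (R : Red P (i + 1) K psi) (S : Shape (i + 1) lo hi) (ho : (i + 1) % 2 = 1) :
    0 ≤ W4.Tv (i + 1) (Cx i t) ∧
      (QB i K t ∨ (-6 ≤ Qc i t ∧ 4 ≤ W4.Tv (i + 1) (Cx i t))) := by
  obtain ⟨h1, h2⟩ := F.tv_odd S ho
  have h3 : (0 : ℤ) ≤ (pen (x 2)).card := by positivity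
  refine ⟨by linarith, ?_⟩
  rcases F.mainQ R S with h4 | ⟨p, u, D, hm3, hU, hn, hor, a, a1, a2, a3, a4, a5⟩
  · exact Or.inl h4
  · right
    have h6 := h2 a a1 a2 a4 a5
    obtain ⟨g1, g2, g3⟩ := F.late_end hm3 hor a1 a2 a4 a5
    have h7 := F.case3Q D hm3 hU hn g1 g2 g3
    have hpen : p ∈ pen (x 2) := mem_pen_of_uc D.up
    have h8 : 1 ≤ (pen (x 2)).card := card_pos.2 ⟨p, hpen⟩
    have h9 : (1 : ℤ) ≤ (pen (x 2)).card := by exact_mod_cast h8
    exact ⟨h7, by linarith⟩

/-- the weights `5 W1 + 4 TT` -/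
theorem sum13 (R : Red P (i + 1) K psi) (S : Shape (i + 1) lo hi) (ho : (i + 1) % 2 = 1) :
    0 ≤ 5 * Qc i t + 8 * W4.Tv (i + 1) (Cx i t) ∨
      (-40 ≤ 5 * Qc i t + 8 * W4.Tv (i + 1) (Cx i t) ∧ LJ i K t) := by
  obtain ⟨h1, (h2 | ⟨h2, h3⟩) | ⟨h2, h3⟩⟩ := F.pair_odd R S ho
  · left
    linarith
  · right
    exact ⟨by linarith, h3⟩
  · left
    linarith

end ClDL

end Pool.Agent.GaussPoset.EK

end
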