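import Mathlib
import Pool.Agent.W_448zz_h61.Ns
import Pool.Agent.W_448zz_h61.M173
import Pool.Agent.W_448zz_h61.M222
import Pool.Agent.W_448zz_h61.M261

/-! From `Pool.Agent.W_448kr_h10.KrB` -/

section

/-!
MP_448cb3_co, G2, case B, window `j`: the pattern [DL] with four sites (both ends single), the weights
`W#`: the value `2 L - 3 w21 + 13 w32`, the twins over the first two elements, a private child of the
twins.  The proofs about the twins follow helper53 (FgH, FgI).  helper10.
-/

namespace Pool.Agent.GaussPoset.Win.W4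

set_option linter.unusedSectionVars false

open Finset

universe u

variable {P : Type u} [Fintype P] [PartialOrder P] [DecidableEq P] {r i : ℕ}
variable {psi : P → P} {C K : Finset P} {w v : P} {m : ℕ} {x : ℕ → P}

namespace DLg

variable (h : DLg r i K psi C w v m x)
include h

/-- the coefficient (2,1), four sites -/
theorem al2_three (hm3 : m = 3) : I2.al 2 (st i C).card (ZS i C) =
    (NE i C x 0 + (uc (x 0)).card - 1 - (pen (x 2)).card) + (NE i C x 2 - 1) := by
  have hm := h.hm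
  have g0 := h.dg0
  have g2 := h.dg2
  have q2 := h.sum_vp_split
  have e4 : Ico 3 m = ∅ := by rw [hm3]; rfl
  rw [e4, sum_empty] at q2
  have a1 := h.Q.al2 h.hw h.hv h.n01 h.n12 h.n02
  have m1 : mm i K C {x 0, x 1} = 1 := by
    have := h.mmx (a := 0) (b := 1) (by omega) (by omega)
    norm_num at this
    exact this
  have m2 : mm i K C {x 1, x 2} = 0 := by
    have := h.mmx (a := 1) (b := 2) (by omega) (by omega)
    norm_num at this
    exact this
  rw [m1, m2, g0, g2, q2] at a1
  rw [a1]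
  ring

/-- the value at the weights `W#`, window `j` part, both ends single -/
theorem sharp_three (hm3 : m = 3) (hU : UE i C x 2 = ∅) (u0 : (uc (x 0)).card = 1)
    (u3 : (uc (x 3)).card = 1) : ∃ n : ℕ, n ≤ 2 ∧ wv i C = n - 1 ∧
      2 * (NE i C x 0 - (pen (x 2)).card) ^ 2 - (NE i C x 0 - (pen (x 2)).card) + 10 +
        8 * ((pen (x 2)).card : ℤ) + 2 * (n : ℤ) ^ 2 -
        4 * n * (1 + 2 * (pen (x 2)).card + (pen (x 3)).card) +
        4 * ((Z4 i C).card - (T4 i C).card : ℤ) ≤
          2 * Lv i C - 3 * I2.al 2 (st i C).card (ZS i C) + 13 * wv i C := by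
  have e2 : NE i C x 2 = ((DE i C x 2).card : ℤ) := by
    unfold NE
    rw [hU, card_empty]
    push_cast
    ring
  have e3 := h.L_form3 hm3
  have e4 := h.w3_eq
  have e5 := h.al2_three hm3
  rw [u0, u3, e2] at e3
  rw [u0, e2] at e5
  rw [e2] at e4
  push_cast at e3 e5
  rcases h.CH2_num with ⟨d, c⟩ | ⟨d, c⟩ | ⟨d, c⟩
  · refine ⟨0, by omega, by rw [e4, d], ?_⟩
    rw [e3, e4, e5, d]
    push_cast
    linarith
  · refine ⟨1, by omega, by rw [e4, d], ?_⟩
    rw [e3, e4, e5, d]
    push_cast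
    linarith
  · refine ⟨2, by omega, by rw [e4, d], ?_⟩
    rw [e3, e4, e5, d]
    push_cast
    linarith

/-- the twins over the first two elements -/
theorem twins : ∃ a b : P, a ≠ b ∧ uc a = {x 0, x 1} ∧ uc b = {x 0, x 1} ∧ dc (x 0) = {a, b} ∧
    dc (x 1) = {a, b} := by
  classical
  have H := h.W.H
  have hm := h.hm
  have h1 := h.dn 0 1 (by omega) (by omega)
  rw [if_pos rfl, if_pos rfl] at h1
  have h2 := h.deg0
  have h3 := h.deg1
  unfold dcv at h1
  obtain ⟨a, b, hab, he⟩ := card_eq_two.1 h1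
  have ma : a ⋖ x 0 ∧ a ⋖ x 1 := by
    have : a ∈ ({a, b} : Finset P) := mem_insert_self _ _
    rw [← he, mem_filter] at this
    exact this.2
  have mb : b ⋖ x 0 ∧ b ⋖ x 1 := by
    have : b ∈ ({a, b} : Finset P) := mem_insert_of_mem (mem_singleton_self _)
    rw [← he, mem_filter] at this
    exact this.2
  have hne : x 0 ≠ x 1 := h.n01
  have key : ∀ y : P, y ⋖ x 0 → y ⋖ x 1 → uc y = {x 0, x 1} := by
    intro y h4 h5
    refine (eq_of_subset_of_card_le ?_ ?_).symm
    · intro s hs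
      rw [mem_insert, mem_singleton] at hs
      rcases hs with rfl | rfl
      · exact mem_uc.2 h4
      · exact mem_uc.2 h5
    · rw [card_pair hne]
      exact uc_card_le H _
  have key2 : ∀ s : P, (dc s).card = 2 → a ⋖ s → b ⋖ s → dc s = {a, b} := by
    intro s hs h4 h5
    refine (eq_of_subset_of_card_le ?_ ?_).symm
    · intro y hy
      rw [mem_insert, mem_singleton] at hy
      rcases hy with rfl | rfl
      · exact mem_dc.2 h4
      · exact mem_dc.2 h5
    · rw [card_pair hab, hs]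
  exact ⟨a, b, hab, key a ma.1 ma.2, key b mb.1 mb.2, key2 _ h2 ma.1 mb.1, key2 _ h3 ma.2 mb.2⟩

end DLg

end Pool.Agent.GaussPoset.Win.W4

namespace Pool.Agent.GaussPoset.EK

set_option linter.unusedSectionVars false

open Finset Win St Polynomial Wd Win.W4
open Pool.Agent.GaussPoset.Win.SO (PN vp mem_PN)

universe u

variable {P : Type u} [Fintype P] [PartialOrder P] [DecidableEq P] {r i j : ℕ}

variable {m : ℕ} {x : ℕ → P} {c : ℕ → ℤ} {t : Tops P} {lo hi : ℕ → ℕ} {e : ℕ → ℕ → P}

variable {K : Finset P} {psi : P → P} {w v : P}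

/-- the signed numbers at a part with two unmatched elements -/
theorem kr_sa (h : NJ P r j) (R : Red P j K psi)
    (Q : K5 r j K psi (cext (j + 1) (topOf : P → Tops P) t) w v) (T : Finset P) :
    sa j (topOf : P → Tops P) K T t =
      (if Disjoint (uc w) T then 1 else 0) - (if Disjoint (dc v) T then 1 else 0) := by
  classical
  have lw := Q.lw0
  have lv := Q.lv0
  have wK : w ∈ K := (Q.hK w Q.wC).2 (Or.inl rfl)
  have vK : v ∈ K := (Q.hK v Q.vC).2 (Or.inr rfl)
  have wd : w ∈ dbL P j := by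
    rcases mem_union.1 (R.sub wK) with h1 | h1
    · exact h1
    · have := (mem_dbU.1 h1).1
      omega
  have vd : v ∈ dbU P j := by
    rcases mem_union.1 (R.sub vK) with h1 | h1
    · have := (mem_dbL.1 h1).1
      omega
    · exact h1
  have tw : topOf w = t := mem_cext.1 Q.wC w le_rfl (by omega)
  have tv : topOf v = t := mem_cext.1 Q.vC v le_rfl (by omega)
  have hne : w ≠ v := Q.ne
  rw [sa_eq]
  have e1 : K.filter (fun k => topOf k = t ∧ Disjoint (ns j k) T) =
      ({w, v} : Finset P).filter (fun k => Disjoint (ns j k) T) := by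
    ext k
    rw [mem_filter, mem_filter, mem_insert, mem_singleton]
    constructor
    · rintro ⟨h1, h2, h3⟩
      have hl : lev k ≤ j + 1 := by
        rcases mem_union.1 (R.sub h1) with h4 | h4
        · exact (mem_dbL.1 h4).1.le
        · have := (mem_dbU.1 h4).1
          omega
      exact ⟨(Q.hK k (mem_cext_of_le h.split hl h2)).1 h1, h3⟩
    · rintro ⟨h1 | h1, h2⟩
      · subst h1
        exact ⟨wK, tw, h2⟩
      · subst h1
        exact ⟨vK, tv, h2⟩
  rw [e1, sum_filter, sum_pair hne, sgn_low wd, sgn_upp vd, ns_L wd, ns_U vd]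
  split_ifs <;> norm_num

/-- a private child of the twins: a light join below the twins, or an inner element over three sites -/
theorem DL_light (h : NJ P r j) (hj : 2 ≤ j)
    (D : DLg r j K psi (cext (j + 1) (topOf : P → Tops P) t) w v m x)
    (tx : ∀ k, k ≤ m → topOf (x k) = t) (lx : ∀ k, k ≤ m → lev (x k) = j)
    (hDE : (DE j (cext (j + 1) (topOf : P → Tops P) t) x 0).Nonempty) :
    (∃ q, q ∈ Z4 j (cext (j + 1) (topOf : P → Tops P) t) ∧
        q ∉ T4 j (cext (j + 1) (topOf : P → Tops P) t)) ∨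
      ∃ z y s, K2.SD j (topOf : P → Tops P) z y s ∧ topOf y = t ∧ uc y = {x 0, x 1} := by
  classical
  have H := h.g.H
  have hm := D.hm
  obtain ⟨a, b, hab, ua, ub, d0, d1⟩ := D.twins
  have hne : x 0 ≠ x 1 := D.n01
  have l0 : lev (x 0) = j := lx 0 (by omega)
  have la : lev a = j + 1 := by
    have := lev_uc H (show x 0 ∈ uc a by rw [ua]; exact mem_insert_self _ _)
    omega
  have lb : lev b = j + 1 := by
    have := lev_uc H (show x 0 ∈ uc b by rw [ub]; exact mem_insert_self _ _)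
    omega
  -- the private child
  obtain ⟨z, hz⟩ := hDE
  obtain ⟨hzC, hzP, hzs⟩ := mem_DE.1 hz
  obtain ⟨lz, hz1, y, hzy, hy2⟩ := mem_PD.1 hzP
  obtain ⟨y', hy'⟩ := card_eq_one.1 hz1
  have hyy : y = y' := by
    have := mem_uc.2 hzy
    rw [hy', mem_singleton] at this
    exact this
  subst hyy
  have huy : uc y = {x 0, x 1} := by
    rw [← SO.sit_PD H lz hy', hzs]
    rfl
  have hyab : y = a ∨ y = b := by
    have h1 : y ∈ dc (x 0) := mem_dc.2 (mem_uc.1 (by rw [huy]; exact mem_insert_self _ _))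
    rw [d0, mem_insert, mem_singleton] at h1
    exact h1
  -- the twins have at most one common child
  have hdab : dcv a b ≤ 1 := by
    unfold dcv
    have h1 : univ.filter (fun q => q ⋖ a ∧ q ⋖ b) ⊆ (dc y).erase z := by
      intro q hq
      rw [mem_filter] at hq
      rw [mem_erase, mem_dc]
      refine ⟨?_, ?_⟩
      · rintro rfl
        have e1 := mem_uc.2 hq.2.1
        have e2 := mem_uc.2 hq.2.2
        rw [hy', mem_singleton] at e1 e2
        exact hab (e1.trans e2.symm)
      · rcases hyab with rfl | rfl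
        · exact hq.2.1
        · exact hq.2.2
    have h2 := card_le_card h1
    rw [card_erase_of_mem (mem_dc.2 hzy)] at h2
    have h3 := dc_card_le H y
    omega
  have huab : ucv a b = 2 := by
    unfold ucv
    have h1 : univ.filter (fun q => a ⋖ q ∧ b ⋖ q) = {x 0, x 1} := by
      ext q
      rw [mem_filter, ← mem_uc, ← mem_uc, ua, ub]
      simp
    rw [h1, card_pair hne]
  have hDf : Df (j + 1) {a, b} ≠ 0 := by
    rw [Df_pair H la hab, huab]
    intro h1
    have : (dcv a b : ℤ) ≤ 1 := by exact_mod_cast hdab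
    push_cast at h1
    linarith
  -- the twins are not a piece
  have hp : ∃ u ∈ ({a, b} : Finset P), ∃ s, lev s = j + 1 ∧ s ∉ ({a, b} : Finset P) ∧
      dcv u s ≠ 0 := by
    by_contra hcon
    push Not at hcon
    refine hDf (Mp.piece_pair H (by have := h.hr; omega) hab ⟨?_, ?_⟩)
    · intro u hu
      rw [mem_insert, mem_singleton] at hu
      rcases hu with rfl | rfl
      · exact mem_lv.2 la
      · exact mem_lv.2 lb
    · intro u hu s hs hsn
      have h1 := hcon u hu s hs hsn
      have hlu : lev u = j + 1 ∧ uc u = {x 0, x 1} := by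
        rw [mem_insert, mem_singleton] at hu
        rcases hu with rfl | rfl
        · exact ⟨la, ua⟩
        · exact ⟨lb, ub⟩
      have hus : u ≠ s := by
        rintro rfl
        exact hsn hu
      have h2 : ucv u s = 0 := by
        unfold ucv
        rw [card_eq_zero, filter_eq_empty_iff]
        rintro q - ⟨h3, h4⟩
        rw [← mem_uc, hlu.2, mem_insert, mem_singleton] at h3
        rcases h3 with rfl | rfl
        · exact hsn (by rw [← d0]; exact mem_dc.2 h4)
        · exact hsn (by rw [← d1]; exact mem_dc.2 h4)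
      rw [Df_pair H hlu.1 hus, h1, h2]
      simp
  obtain ⟨u, hu, s, ls, hsn, hd⟩ := hp
  have hlu : lev u = j + 1 ∧ uc u = {x 0, x 1} ∧ u ∈ dc (x 0) := by
    refine ⟨?_, ?_, by rw [d0]; exact hu⟩
    · rw [mem_insert, mem_singleton] at hu
      rcases hu with rfl | rfl
      · exact la
      · exact lb
    · rw [mem_insert, mem_singleton] at hu
      rcases hu with rfl | rfl
      · exact ua
      · exact ub
  obtain ⟨lu, uu, du⟩ := hlu
  have hus : u ≠ s := by
    rintro rfl
    exact hsn hu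
  obtain ⟨q, hqu, hqs⟩ := StA_of_dcv (v := u) (v' := s) (by omega)
  have lq := lev_cov H hqu
  have hq : uc q = {u, s} := by
    refine (eq_of_subset_of_card_le ?_ ?_).symm
    · intro p hp
      rw [mem_insert, mem_singleton] at hp
      rcases hp with rfl | rfl
      · exact mem_uc.2 hqu
      · exact mem_uc.2 hqs
    · rw [card_pair hus]
      exact uc_card_le H _
  have hdis : Disjoint (uc u) (uc s) := by
    rw [disjoint_left]
    intro p hp1 hp2
    rw [uu, mem_insert, mem_singleton] at hp1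
    rcases hp1 with rfl | rfl
    · exact hsn (by rw [← d0]; exact mem_dc.2 (mem_uc.1 hp2))
    · exact hsn (by rw [← d1]; exact mem_dc.2 (mem_uc.1 hp2))
  have cu : (uc u).card = 2 := by rw [uu, card_pair hne]
  have cs : (uc s).card = 1 := by
    rcases uc_card_cases H (x := s) (by omega) with h1 | h1
    · exact h1
    · exfalso
      obtain ⟨p, hp1, hp2⟩ := NJ.noQ h hj q (by omega) u
        (mem_uc.2 hqu) s (mem_uc.2 hqs) hus cu h1
      exact disjoint_left.1 hdis hp1 hp2
  have tu : topOf u = t := by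
    have h1 := h.split (x := u) (y := x 0) (mem_dc.1 du) (by omega)
    rw [h1]
    exact tx 0 (by omega)
  by_cases ts : topOf s = t
  · left
    have hqC : q ∈ cext (j + 1) (topOf : P → Tops P) t := by
      rw [mem_cext]
      intro p hp hlp
      rcases eq_or_lt_of_le hp with h1 | h1
      · rw [← h1] at hlp
        omega
      · obtain ⟨p', hp', hp2⟩ := Hul.exists_cov h1
        rw [← mem_uc, hq, mem_insert, mem_singleton] at hp'
        rcases hp' with rfl | rfl
        · rw [← tu]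
          exact (Split.le (l := j + 1) (κ := (topOf : P → Tops P)) h.split _ hp2 (by omega)).symm
        · rw [← ts]
          exact (Split.le (l := j + 1) (κ := (topOf : P → Tops P)) h.split _ hp2 (by omega)).symm
    have hst : sts j q = uc u ∪ uc s := by
      rw [Rd.sts_bi H (by omega), hq, biUnion_insert, singleton_biUnion]
    have hup : up j q = 3 := by
      rw [← card_sts, hst, card_union_of_disjoint hdis, cs, cu]
    refine ⟨q, mem_Z4.2 (Or.inl (mem_ZL.2 ⟨hqC, by omega, hup⟩)), ?_⟩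
    intro h1
    rcases mem_T4.1 h1 with ⟨-, h2⟩ | ⟨h2, -⟩
    · have := h2 s (by rw [hq]; exact mem_insert_of_mem (mem_singleton_self _))
      omega
    · have := (mem_ZU.1 h2).2.1
      omega
  · right
    exact ⟨q, u, s, ⟨by omega, hq, fun h1 => ts (by rw [← h1]; exact tu), cu, cs⟩, tu, uu⟩

end Pool.Agent.GaussPoset.EK

end

/-! From `Pool.Agent.W_448kr_h10.KrC` -/

section

/-!
MP_448cb3_co, G2, case B, window `j - 1`: THE WINDOW `j - 1` OF A PART with at most three sites, no flip,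
no twins, at most as many lower as upper elements over three sites, for the weights
`Wsh = (-1, 9, 1, 4, 3, -1, 2, 13, 0)`: it is nonnegative.  The row may have defects.  The proof is
helper97's (NvD).  helper10.
-/

namespace Pool.Agent.GaussPoset.Win.Pn

set_option linter.unusedSectionVars false

open Finset W4 Wd
open Pool.Agent.GaussPoset.Win.SO (con PN on mem_PN vp F5 mem_F5 N1f N5f)

universe u

variable {P : Type u} [Fintype P] [PartialOrder P] [DecidableEq P] {r j i : ℕ}
  {psi : P → P} {C : Finset P} {p w z : P} {lo hi : ℕ → ℕ} {e : ℕ → ℕ → P}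

/-- the arithmetic of the value -/
lemma kr_arith {D k f n z sk N tw : ℤ} (hD : 0 ≤ D) (hk : 0 ≤ k) (hf : 0 ≤ f) (hf1 : f ≤ 1)
    (hn : n ≤ 5 - f) (hz : 0 ≤ z) (hzk : z + k ≤ 2) (hs : sk ≤ 2 * z) (hN : 0 ≤ N)
    (ht : tw = 0) :
    0 ≤ 2 * (-(D + k - f) + ((D + k - f) ^ 2 + 2 * N)) + (z * (9 + 3) -
      4 * 1 * z * (k + n - 3) - 2 * 1 * sk - 2 * 4 * z * (-(D + k - f)) - 4 * 3 * z * 0 +
        (2 * 3 - 4) * (z * (z - 1)) - tw) := by
  have h0 : 0 ≤ D * D := mul_nonneg hD hD
  have q1 : z = 0 ∨ z = 1 ∨ z = 2 := by omega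
  have q2 : f = 0 ∨ f = 1 := by omega
  rw [ht]
  have hA : 0 ≤ (D + k - f) ^ 2 - (D + k - f) := by
    rcases le_or_gt (D + k - f) 0 with g | g
    · nlinarith
    · nlinarith
  rcases q1 with rfl | rfl | rfl
  · linarith
  · have q3 : k = 0 ∨ k = 1 := by omega
    rcases q2 with rfl | rfl <;> rcases q3 with rfl | rfl <;> ring_nf <;> linarith
  · have q3 : k = 0 := by omega
    subst q3
    rcases q2 with rfl | rfl <;> ring_nf <;> linarith

section nj

variable (h : NJ P r j) (hij : i + 1 = j) (hi1 : 1 ≤ i)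
include h hij hi1

/-- the private children of the pendant are the elements `FL` -/
theorem kr_kc {t : Tops P} (hp : p ∈ PD P i) (ht : (topOf p : Tops P) = t) :
    kc p = ((FL i (SS i t)).card : ℤ) := by
  classical
  have H := h.g.H
  have lp := (mem_PD.1 hp).1
  have hpS : p ∈ SS i t := by rw [← ht]; exact nj_mem h hij hi1 lp
  have hC : Part (i + 1) (SS i t) := h.part (by omega) (by omega) t
  obtain ⟨n1, -, -⟩ := nj_one h hij hi1 t
  rw [card_le_one] at n1
  rw [Pf.nj_kc h hij hi1 t hpS lp]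
  congr 2
  ext x
  rw [mem_FLo, mem_FL]
  constructor
  · rintro ⟨h1, h2⟩
    exact ⟨h1, p, hp, h2⟩
  · rintro ⟨h1, q, hq, h2⟩
    refine ⟨h1, ?_⟩
    have hqS : q ∈ SS i t := hC.up h1 (mem_uc.1 (by rw [h2]; simp))
    have := n1 q (mem_filter.2 ⟨hqS, hq⟩) p (mem_filter.2 ⟨hpS, hp⟩)
    rw [h2, this]

/-- the values of the window `j - 1`: at most three sites, no flip, no twins -/
theorem kr_vals {t : Tops P} (h3 : (st i (SS i t)).card ≤ 3) (hF : F5 i (SS i t) = ∅)
    (hT : Tws i (SS i t) = ∅) : B5 i t = 0 ∧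
      C6 i t = A3 i t ^ 2 + 2 * ((N1f i (SS i t)).card : ℤ) ∧ C8 i t = 0 ∧ C10 i t = 0 := by
  classical
  obtain ⟨-, v5, v6, v8, v10⟩ := W1.vals_open h hij hi1 t hT hF
  have hQ := nj_QQ_three h hij hi1 t h3 hF
  have hN := nj_N5_three h hij hi1 t h3
  rw [hQ, hN, card_empty] at v6
  rw [hN, card_empty] at v10
  refine ⟨v5, ?_, v8, ?_⟩
  · unfold C6 A3
    rw [v6]
    push_cast
    ring
  · unfold C10
    rw [v10]
    norm_num

/-- the net value of the pendant: at most three sites, no flip, no twins -/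
theorem kr_net {t : Tops P} (h3 : (st i (SS i t)).card ≤ 3) (hF : F5 i (SS i t) = ∅)
    (hT : Tws i (SS i t) = ∅) (hp : p ∈ PD P i) (ht : (topOf p : Tops P) = t) :
    rho i (topOf : P → Tops P) 5 p - A3 i (topOf p) = -A3 i t ∧
      rho i (topOf : P → Tops P) 7 p - B5 i (topOf p) = 0 := by
  classical
  subst ht
  have H := h.g.H
  have hC : Part (i + 1) (SS i (topOf p)) := h.part (by omega) (by omega) _
  have n5 := nj_net5 h hij hi1 hp hF
  have n7 := nj_net7 h hij hi1 hp
  have a3 := nj_al3 h hij hi1 _ hF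
  have lp := (mem_PD.1 hp).1
  have hpS : p ∈ SS i (topOf p) := nj_mem h hij hi1 lp
  have hsp : (sit i p).Nonempty := sit_PD_ne H hp
  have hsub : sit i p ⊆ st i (SS i (topOf p)) := SO.sit_part H hC hpS
  have full : ∀ z ∈ SS i (topOf p), (sit i z).card = 3 → ¬ Disjoint (sit i z) (sit i p) := by
    intro z hz hc hd
    have h1 : sit i z = st i (SS i (topOf p)) :=
      eq_of_subset_of_card_le (SO.sit_part H hC hz) (by omega)
    obtain ⟨s, hs⟩ := hsp
    rw [h1] at hd
    exact disjoint_left.1 hd (hsub hs) hs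
  have fL : (ZL i (SS i (topOf p))).filter (fun z => ¬ Disjoint (sit i z) (sit i p)) =
      ZL i (SS i (topOf p)) := by
    refine filter_true_of_mem fun z hz => ?_
    obtain ⟨k1, k2, k3⟩ := mem_ZL.1 hz
    exact full z k1 (by rw [sit_low H (by omega), card_sts]; exact k3)
  have fU : (ZU i (SS i (topOf p))).filter (fun z => ¬ Disjoint (sit i z) (sit i p)) =
      ZU i (SS i (topOf p)) := by
    refine filter_true_of_mem fun z hz => ?_
    obtain ⟨k1, k2, k3⟩ := mem_ZU.1 hz
    exact full z k1 (by rw [sit_upp H (by omega), card_stD]; exact k3)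
  rw [fL, fU] at n5
  rw [hT, hF] at n7
  refine ⟨?_, ?_⟩
  · unfold A3
    rw [n5, a3]
    ring
  · unfold B5
    rw [n7]
    simp

/-- THE WINDOW `j - 1` of a part with at most three sites, no flip, no twins: it is nonnegative -/
theorem kr_share {t : Tops P} (h3 : (st i (SS i t)).card ≤ 3) (hF : F5 i (SS i t) = ∅)
    (hT : Tws i (SS i t) = ∅) (hZ : (ZL i (SS i t)).card ≤ (ZU i (SS i t)).card) :
    0 ≤ 2 * (-A3 i t + 9 * B5 i t + C6 i t + 4 * C8 i t + 3 * C10 i t) +
      ∑ p ∈ (PD P i).filter (fun p => (topOf p : Tops P) = t),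
        shr ⟨-1, 9, 1, 4, 3, -1, 2, 13, 0⟩ i p := by
  classical
  have H := h.g.H
  have g : GoodTo P r (i + 1) := by rw [hij]; exact h.g
  obtain ⟨lo, hi, e, Cm⟩ := Cp.comp_exists g.H t.2 g.hr g.good
  have W := Cm.toWin
  have L : Laws3 lo hi (i + 1) := laws3 (SO_holds P r) g Cm
  have hcs := h.card_SS (i := i) (by omega) (C := (by rw [← hij]; exact Cm))
  have hle := W.lohi i (by omega)
  have hV : hi i ≤ lo i + 2 := by omega
  obtain ⟨v5, v6, v8, v10⟩ := kr_vals h hij hi1 h3 hF hT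
  have hN : (0 : ℤ) ≤ (N1f i (SS i t)).card := Nat.cast_nonneg _
  have hA : 0 ≤ A3 i t ^ 2 - A3 i t := by
    rcases le_or_gt (A3 i t) 0 with k | k
    · nlinarith
    · nlinarith
  rw [v5, v6, v8, v10]
  have ho : -A3 i t + 9 * 0 + (A3 i t ^ 2 + 2 * ((N1f i (SS i t)).card : ℤ)) + 4 * 0 + 3 * 0 =
      -A3 i t + (A3 i t ^ 2 + 2 * ((N1f i (SS i t)).card : ℤ)) := by ring
  rw [ho]
  rcases ((PD P i).filter (fun p => (topOf p : Tops P) = t)).eq_empty_or_nonempty with h0 | ⟨p, hp⟩
  · rw [h0, sum_empty]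
    linarith
  obtain ⟨hpD, hpt⟩ := mem_filter.1 hp
  -- only one pendant
  have hone : (PD P i).filter (fun p => (topOf p : Tops P) = t) = {p} := by
    rw [eq_singleton_iff_unique_mem]
    refine ⟨hp, fun q hq => ?_⟩
    obtain ⟨hqD, hqt⟩ := mem_filter.1 hq
    exact nj_hone h hij hi1 q hqD p hpD (by rw [hqt, hpt])
  obtain ⟨w5, w7⟩ := kr_net h hij hi1 h3 hF hT hpD hpt
  obtain ⟨f1, f2⟩ := small_nn h hij hi1 Cm L hF hV hpD hpt
  have hk := kr_kc h hij hi1 hpD hpt
  have hzk := Pf.nj_zc_kc h hij hi1 (mem_PD.1 hpD).1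
  have a3 : A3 i t = ((ZU i (SS i t)).card : ℤ) - (ZL i (SS i t)).card +
      (FL i (SS i t)).card - (FU' i (SS i t)).card := nj_al3 h hij hi1 t hF
  have hFU := W.card_FU g t.2 (i := i) (by omega) (S := SS i t)
    (fun y hy => h.mem (i := i) (by omega) t (by omega))
  have hS : ∑ z ∈ zs i (topOf : P → Tops P) p, kc z ≤
      2 * zc i (topOf : P → Tops P) p := by
    have h1 : ∀ z ∈ zs i (topOf : P → Tops P) p, kc z ≤ 2 := by
      intro z _
      have h2 : ks z ⊆ dc z := fun y hy => mem_dc.2 (mem_uc.1 (by rw [mem_ks.1 hy]; simp))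
      have h3 := (card_le_card h2).trans (dc_card_le H z)
      unfold kc
      exact_mod_cast h3
    have h2 := Finset.sum_le_sum h1
    rw [sum_const, nsmul_eq_mul] at h2
    unfold zc
    linarith
  rw [hone, sum_singleton]
  unfold shr
  rw [w5, w7]
  have hz0 : 0 ≤ zc i (topOf : P → Tops P) p := Nat.cast_nonneg _
  have hk0 : 0 ≤ kc p := Nat.cast_nonneg _
  have hfu : ((FU' i (SS i t)).card : ℤ) = (Wd.fuw lo hi i : ℤ) := by exact_mod_cast hFU
  have hZ' : ((ZL i (SS i t)).card : ℤ) ≤ (ZU i (SS i t)).card := by exact_mod_cast hZ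
  have f1' : (Wd.fuw lo hi i : ℤ) ≤ 1 := by exact_mod_cast f1
  have f0 : (0 : ℤ) ≤ (Wd.fuw lo hi i : ℤ) := Nat.cast_nonneg _
  rw [← hk, hfu] at a3
  have htw : ((1 : ℤ) - 4 + 3) * ∑ z ∈ zs i (topOf : P → Tops P) p,
      ((tw i (topOf : P → Tops P) z).card : ℤ) = 0 := by norm_num
  rw [htw]
  obtain ⟨D, hD⟩ : ∃ D : ℤ, D = ((ZU i (SS i t)).card : ℤ) - (ZL i (SS i t)).card := ⟨_, rfl⟩
  rw [← hD] at a3
  have hD0 : 0 ≤ D := by linarith
  rw [a3]
  exact kr_arith hD0 hk0 f0 f1' f2 hz0 hzk hS hN rfl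

end nj

end Pool.Agent.GaussPoset.Win.Pn

end

/-! From `Pool.Agent.W_448kr_h10.KrD` -/

section

/-!
MP_448cb3_co, G2, case B, windows `j - 1` and `j`: [DL] with four sites, both ends single, the doubled
edge at the left end.  Here `j = i + 1`.  helper10.
-/

namespace Pool.Agent.GaussPoset.R3

set_option linter.unusedSectionVars false

open Finset Win St Wd Win.W4 EK
open Pool.Agent.GaussPoset.Win.Pn
open Pool.Agent.GaussPoset.Win.Pf
open Pool.Agent.GaussPoset.Win.SO (N1f mem_N1f N5f F5 mem_F5)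

universe u

variable {P : Type u} [Fintype P] [PartialOrder P] [DecidableEq P] {r j i : ℕ}
  {t : Tops P} {lo hi : ℕ → ℕ} {e : ℕ → ℕ → P} {x : ℕ → P} {c : ℕ → ℤ} {β : ℤ}

lemma two_sq_sub' (a : ℤ) : 0 ≤ 2 * a ^ 2 - a := by
  rcases lt_or_ge 0 a with h | h <;> nlinarith

section row

variable (h : NJ P r j) (hij : i + 1 = j) (hi1 : 1 ≤ i) (B : RowB P j t 3 x c β)
include h hij hi1 B

/-- no twins -/
lemma tws_D (c1 : c 1 = -1) (u0 : (uc (x 0)).card = 1) (u3 : (uc (x 3)).card = 1) :
    Tws i (SS i t) = ∅ := by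
  classical
  have h1 := h.tws_test hij hi1 B (fun _ => True)
  simp only [filter_true] at h1
  have h2 : Et x 3 c = ∅ := by
    rw [eq_empty_iff_forall_notMem]
    intro k hk
    obtain ⟨k1, k2⟩ := mem_Et.1 hk
    rw [Ed_one h hij hi1 B u0 u3 k1, c1] at k2
    norm_num at k2
  rw [h2, card_empty] at h1
  exact card_eq_zero.1 (by exact_mod_cast h1)

/-- at most as many lower as upper elements over three sites -/
lemma bal_D (c1 : c 1 = -1) (u0 : (uc (x 0)).card = 1) (u3 : (uc (x 3)).card = 1) :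
    (ZL i (SS i t)).card ≤ (ZU i (SS i t)).card := by
  classical
  have h1 := h.bal_test hij hi1 B (fun _ => True)
  simp only [filter_true] at h1
  have h2 : ∑ k ∈ Ed x 3, c k ≤ 0 := by
    refine sum_nonpos fun k hk => ?_
    rw [Ed_one h hij hi1 B u0 u3 hk, c1]
    norm_num
  have h3 : ((ZL i (SS i t)).card : ℤ) ≤ (ZU i (SS i t)).card := by linarith
  exact_mod_cast h3

/-- a pendant of the part is the private child of `x 2` -/
lemma pd_x2 (u0 : (uc (x 0)).card = 1) (u3 : (uc (x 3)).card = 1) (hp1 : pen (x 1) = ∅) {p : P}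
    (hp : p ∈ PD P i) (ht : (topOf p : Tops P) = t) : uc p = {x 2} := by
  classical
  have H := h.g.H
  obtain ⟨l1, l2, y0, y1, y2⟩ := mem_PD.1 hp
  obtain ⟨y, hy⟩ := card_eq_one.1 l2
  have hyy : y0 = y := by
    rw [← mem_uc, hy, mem_singleton] at y1
    exact y1
  subst hyy
  have ly := lev_uc H (mem_uc.2 y1)
  have hyt : (topOf y0 : Tops P) = t := by
    rw [← ht]
    exact (h.split y1 (by omega)).symm
  obtain ⟨k, hk, hxk⟩ := B.row.surj y0 (by omega) hyt
  have hk4 : k = 0 ∨ k = 1 ∨ k = 2 ∨ k = 3 := by omega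
  rcases hk4 with rfl | rfl | rfl | rfl
  · rw [hxk] at u0; omega
  · exfalso
    have : p ∈ pen (x 1) := mem_pen.2 ⟨by rw [hxk]; exact y1, l2⟩
    rw [hp1] at this
    exact absurd this (notMem_empty _)
  · rw [hy, hxk]
  · rw [hxk] at u3; omega

/-- no pendant: no flip -/
lemma F5_none (he : (PD P i).filter (fun p => (topOf p : Tops P) = t) = ∅) :
    F5 i (SS i t) = ∅ := by
  classical
  rw [eq_empty_iff_forall_notMem]
  intro q hq
  obtain ⟨q1, q2, -⟩ := mem_F5.1 hq
  have hlq := (mem_PD.1 q2).1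
  have hqt : q.1 ≤ (t : P) := (h.mem (by omega) t (by omega)).1 q1
  have : q.1 ∈ (PD P i).filter (fun p => (topOf p : Tops P) = t) := by
    refine mem_filter.2 ⟨q2, Subtype.ext ?_⟩
    exact Hul.top_unique (h.nj (z := q.1) (by omega)) (topOf q.1).2 t.2 (le_topOf q.1) hqt
  rw [he] at this
  exact absurd this (notMem_empty _)

/-- the word OC OO OO, the doubled edge at the open side: no flip -/
lemma F5_open (C : Cp.Comp (i + 1) (t : P) lo hi e) (D : Oc i lo hi)
    (hx2 : x 2 = e (i + 1) 2) (u0 : (uc (x 0)).card = 1) (u3 : (uc (x 3)).card = 1)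
    (hp1 : pen (x 1) = ∅) : F5 i (SS i t) = ∅ := by
  classical
  have H := h.g.H
  have d5 := D.i5
  by_contra hF
  obtain ⟨⟨p, q⟩, hpq⟩ := nonempty_iff_ne_empty.2 hF
  obtain ⟨y, u, a, s, b, F⟩ := nj_flp h hij hi1 t hpq
  -- the pendant
  have hpt : (topOf p : Tops P) = t := by
    have h1 : p ≤ (t : P) := (h.mem (by omega) t (by rw [F.lp]; omega)).1 F.mp
    exact Subtype.ext (Hul.top_unique (h.nj (z := p) (by rw [F.lp]; omega)) (topOf p).2 t.2
      (le_topOf p) h1)
  have hup := pd_x2 h hij hi1 B u0 u3 hp1 F.pD hpt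
  rw [F.cp, singleton_inj] at hup
  have hy : y = e (i + 1) 2 := by rw [hup, hx2]
  have c21 : e (i + 1) 2 ⋖ e i 1 := (C.cov i 2 1 (by omega) (by rw [D.l0]; omega)
    (by rw [D.h0]; omega) (by rw [D.l1]; omega) (by rw [D.h1]; omega)).2 (Or.inr rfl)
  have c22 : e (i + 1) 2 ⋖ e i 2 := (C.cov i 2 2 (by omega) (by rw [D.l0]; omega)
    (by rw [D.h0]; omega) (by rw [D.l1]; omega) (by rw [D.h1])).2 (Or.inl rfl)
  have hne : e i 1 ≠ e i 2 := fun he => by
    have := C.inj i 1 2 (by omega) (by rw [D.l1]; omega) (by rw [D.h1]; omega)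
      (by rw [D.l1]; omega) (by rw [D.h1]) he
    omega
  have hy1 : e i 1 ∈ ({a, s} : Finset P) := by
    rw [← F.cy, hy]
    exact mem_uc.2 c21
  have hy2 : e i 2 ∈ ({a, s} : Finset P) := by
    rw [← F.cy, hy]
    exact mem_uc.2 c22
  -- the upper pendant
  have hqt : q ≤ (t : P) := (h.mem (by omega) t (by have := F.lq; omega)).1 F.mq
  obtain ⟨k, k1, k2, k3⟩ := C.surj q hqt (by have := F.lq; omega)
  have lq : lev q = i - 2 := by have := F.lq; omega
  rw [lq] at k1 k2 k3
  rw [D.l3] at k1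
  rw [D.h3] at k2
  have hcov : ∀ k' s', k' = k ∨ k' = k + 1 → k' ≤ 1 → s' = e (i - 1) k' → s' ∈ dc q := by
    intro k' s' hk hk1 hs
    rw [hs, ← k3]
    have h1 := (C.cov (i - 2) k' k (by omega) (by rw [show i - 2 + 1 = i - 1 by omega, D.l2]; omega)
      (by rw [show i - 2 + 1 = i - 1 by omega, D.h2]; omega) (by rw [D.l3]; omega)
      (by rw [D.h3]; omega)).2 (by omega)
    rw [show i - 2 + 1 = i - 1 by omega] at h1
    exact mem_dc.2 h1
  have hk : k = 1 := by
    by_contra hk1
    obtain rfl : k = 0 := by omega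
    have m0 := hcov 0 _ (Or.inl rfl) (by omega) rfl
    have m1 := hcov 1 _ (Or.inr rfl) (by omega) rfl
    rw [F.cq, mem_singleton] at m0 m1
    have := C.inj (i - 1) 0 1 (by omega) (by rw [D.l2]) (by rw [D.h2]; omega)
      (by rw [D.l2]; omega) (by rw [D.h2]) (m0.trans m1.symm)
    omega
  subst hk
  have m1 := hcov 1 _ (Or.inl rfl) le_rfl rfl
  rw [F.cq, mem_singleton] at m1
  have d1 : e i 1 ⋖ e (i - 1) 1 := by
    have h1 := (C.cov (i - 1) 1 1 (by omega) (by rw [show i - 1 + 1 = i by omega, D.l1]; omega)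
      (by rw [show i - 1 + 1 = i by omega, D.h1]; omega) (by rw [D.l2]; omega)
      (by rw [D.h2])).2 (Or.inl rfl)
    rwa [show i - 1 + 1 = i by omega] at h1
  have d2 : e i 2 ⋖ e (i - 1) 1 := by
    have h1 := (C.cov (i - 1) 2 1 (by omega) (by rw [show i - 1 + 1 = i by omega, D.l1]; omega)
      (by rw [show i - 1 + 1 = i by omega, D.h1]) (by rw [D.l2]; omega)
      (by rw [D.h2])).2 (Or.inr rfl)
    rwa [show i - 1 + 1 = i by omega] at h1
  have hz1 : e i 1 ∈ ({s, b} : Finset P) := by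
    rw [← F.cu, ← m1]
    exact mem_dc.2 d1
  have hz2 : e i 2 ∈ ({s, b} : Finset P) := by
    rw [← F.cu, ← m1]
    exact mem_dc.2 d2
  have n1 := F.as
  have n2 := F.sb
  have n3 := F.ab
  rw [mem_insert, mem_singleton] at hy1 hy2 hz1 hz2
  rcases hy1 with g1 | g1 <;> rcases hy2 with g2 | g2 <;> rcases hz1 with g3 | g3 <;>
    rcases hz2 with g4 | g4 <;>
    first
    | exact hne (g1.trans g2.symm)
    | exact hne (g3.trans g4.symm)
    | exact n1 (g1.symm.trans g3)
    | exact n1 (g2.symm.trans g4)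
    | exact n2 (g1.symm.trans g3)
    | exact n2 (g2.symm.trans g4)
    | exact n3 (g1.symm.trans g3)
    | exact n3 (g2.symm.trans g4)

/-- an element over the first pair is not below five elements of the level `i` -/
lemma not_N5_first (u0 : (uc (x 0)).card = 1) {z y s : P}
    (S : K2.SD j (topOf : P → Tops P) z y s) (hy : uc y = {x 0, x 1}) :
    z ∉ So.N5s i (topOf : P → Tops P) := by
  classical
  have H := h.g.H
  intro hz
  obtain ⟨-, -, -, h5⟩ := So.mem_N5s.1 hz
  have hD : So.CrV i (topOf : P → Tops P) z y s := ⟨by have := S.lz; omega, S.huc, S.hk⟩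
  obtain ⟨q, hq⟩ := card_eq_one.1 S.cv
  rw [So.up_eq] at h5
  have h6 : (lv P i).filter (fun p => z < p) ⊆ uc (x 1) ∪ uc q := by
    intro p hp
    rw [mem_filter, mem_lv] at hp
    obtain ⟨b, hb, hp2⟩ := (hD.mem0 H).1 hp
    rw [hy, hq, mem_union, mem_insert, mem_singleton, mem_singleton] at hb
    rw [mem_union]
    rcases hb with (rfl | rfl) | rfl
    · left
      have h7 := B.ucv_x 0 1 (by omega) (by omega)
      rw [if_pos rfl] at h7
      unfold ucv at h7
      obtain ⟨u, hu⟩ := card_pos.1 (by rw [h7]; norm_num)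
      rw [mem_filter] at hu
      obtain ⟨u', hu'⟩ := card_eq_one.1 u0
      have h8 := mem_uc.2 hu.2.1
      rw [hu', mem_singleton] at h8 hp2
      rw [hp2, ← h8]
      exact mem_uc.2 hu.2.2
    · exact Or.inl hp2
    · exact Or.inr hp2
  have h7 := card_le_card h6
  have h8 := card_union_le (uc (x 1)) (uc q)
  have h9 := uc_card_le H (x 1)
  have h10 := uc_card_le H q
  omega

/-- the window `j - 1` of the row is nonnegative -/
lemma open_share (c1 : c 1 = -1) (u0 : (uc (x 0)).card = 1) (u3 : (uc (x 3)).card = 1)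
    (hF : F5 i (SS i t) = ∅) : 0 ≤ 2 * own1 wR i t +
      ∑ p ∈ (PD P i).filter (fun p => (topOf p : Tops P) = t), shr wR i p := by
  have h3 := three h hij hi1 B u0 u3
  have h1 := kr_share h hij hi1 (t := t) h3.le hF (tws_D h hij hi1 B c1 u0 u3)
    (bal_D h hij hi1 B c1 u0 u3)
  have e1 : own1 wR i t = -A3 i t + 9 * B5 i t + C6 i t + 4 * C8 i t + 3 * C10 i t := by
    unfold own1
    simp only [wR]
    ring
  rw [e1]
  exact h1

/-- THE VALUE of the row: three cases, the exact bounds -/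
theorem open3_fine (hβ : β = 0) (c0 : c 0 = 1) (c1 : c 1 = -1) (c2 : c 2 = 0)
    (C : Cp.Comp (i + 1) (t : P) lo hi e) (u0 : (uc (x 0)).card = 1) (u3 : (uc (x 3)).card = 1)
    (hU : UE j (cext (j + 1) (topOf : P → Tops P) t) x 2 = ∅)
    (hD : pen (x 2) = ∅ ∨ (Oc i lo hi ∧ x 2 = e (i + 1) 2)) :
    0 < 2 * own wR i j t + ∑ p ∈ (PD P i).filter (fun p => (topOf p : Tops P) = t), shr wR i p ∨
    (-6 ≤ 2 * own wR i j t +
        ∑ p ∈ (PD P i).filter (fun p => (topOf p : Tops P) = t), shr wR i p ∧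
      wv j (cext (j + 1) (topOf : P → Tops P) t) = 1) ∨
    (-12 ≤ 2 * own wR i j t +
        ∑ p ∈ (PD P i).filter (fun p => (topOf p : Tops P) = t), shr wR i p ∧
      wv j (cext (j + 1) (topOf : P → Tops P) t) = 1 ∧
      ∃ z y v : P, K2.SD j (topOf : P → Tops P) z y v ∧ topOf y = t ∧
        (∀ (K : Finset P) (psi : P → P), Red P j K psi →
          sa j (topOf : P → Tops P) K (uc y) (topOf y) = 0) ∧
        z ∉ So.N5s i (topOf : P → Tops P)) := by
  classical
  have hc : ∀ k, 2 ≤ k → k < 3 → c k = 0 := fun k h1 h2 => by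
    obtain rfl : k = 2 := by omega
    exact c2
  obtain ⟨K, psi, R⟩ := exists_red P j
  obtain ⟨w, v, Dg⟩ := NJ.dlg h (by omega) R B le_rfl hβ c0 c1 hc
  have p1 : pen (x 1) = ∅ := by
    obtain ⟨a, b, hab, ua, ub, d0, d1⟩ := Dg.twins
    rw [eq_empty_iff_forall_notMem]
    intro q hq
    obtain ⟨h1, h2⟩ := mem_pen.1 hq
    have h3 := mem_dc.2 h1
    rw [d1, mem_insert, mem_singleton] at h3
    rcases h3 with rfl | rfl
    · rw [ua, card_pair Dg.n01] at h2
      omega
    · rw [ub, card_pair Dg.n01] at h2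
      omega
  have hF : F5 i (SS i t) = ∅ := by
    rcases hD with hD | ⟨hD, hx⟩
    · refine F5_none h hij hi1 B ?_
      rw [eq_empty_iff_forall_notMem]
      intro p hp
      obtain ⟨hp, ht⟩ := mem_filter.1 hp
      have h1 := pd_x2 h hij hi1 B u0 u3 p1 hp ht
      have : p ∈ pen (x 2) := mem_pen.2 ⟨mem_uc.1 (by rw [h1]; exact mem_singleton_self _),
        (mem_PD.1 hp).2.1⟩
      rw [hD] at this
      exact absurd this (notMem_empty _)
    · exact F5_open h hij hi1 B C hD hx u0 u3 p1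
  have hs := open_share h hij hi1 B c1 u0 u3 hF
  obtain ⟨n, hn, hw, hv⟩ := Dg.sharp_three rfl hU u0 u3
  have ho : own wR i j t = own1 wR i t + (2 * Lv j (cext (j + 1) (topOf : P → Tops P) t) -
      3 * I2.al 2 (st j (cext (j + 1) (topOf : P → Tops P) t)).card
        (ZS j (cext (j + 1) (topOf : P → Tops P) t)) +
        13 * wv j (cext (j + 1) (topOf : P → Tops P) t)) := by
    rw [own_eq, own2_R]
  rw [ho]
  set V2 := 2 * Lv j (cext (j + 1) (topOf : P → Tops P) t) -
      3 * I2.al 2 (st j (cext (j + 1) (topOf : P → Tops P) t)).card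
        (ZS j (cext (j + 1) (topOf : P → Tops P) t)) +
        13 * wv j (cext (j + 1) (topOf : P → Tops P) t)
  set S := ∑ p ∈ (PD P i).filter (fun p => (topOf p : Tops P) = t), shr wR i p
  have hT := card_le_card (T4_subset j (cext (j + 1) (topOf : P → Tops P) t))
  have hT' : ((T4 j (cext (j + 1) (topOf : P → Tops P) t)).card : ℤ) ≤
      (Z4 j (cext (j + 1) (topOf : P → Tops P) t)).card := by exact_mod_cast hT
  have g2 := Dg.deg2
  have g3 := Dg.deg3' rfl
  have b2 := Dg.W.dc_le (k := 2) (by omega)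
  have b3 := Dg.W.dc_le (k := 3) (by omega)
  have q2 : (pen (x 2)).card = 0 ∨ (pen (x 2)).card = 1 := by omega
  have q3 : (pen (x 3)).card = 0 ∨ (pen (x 3)).card = 1 := by omega
  have hsq := two_sq_sub' (NE j (cext (j + 1) (topOf : P → Tops P) t) x 0 - (pen (x 2)).card)
  have qn : n = 0 ∨ n = 1 ∨ n = 2 := by omega
  rcases qn with rfl | rfl | rfl
  · left
    push_cast at hv
    rcases q2 with q2 | q2 <;> rw [q2] at hv hsq <;> push_cast at hv hsq <;> linarith
  · left
    push_cast at hv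
    rcases q2 with q2 | q2 <;> rcases q3 with q3 | q3 <;> rw [q2] at hv hsq <;>
      rw [q3] at hv <;> push_cast at hv hsq <;> linarith
  · have hw0 : wv j (cext (j + 1) (topOf : P → Tops P) t) = 1 := by
      rw [hw]
      norm_num
    by_cases hq : (pen (x 2)).card = 1 ∧ (pen (x 3)).card = 1
    · obtain ⟨q2', q3'⟩ := hq
      rw [q2'] at hv hsq
      rw [q3'] at hv
      push_cast at hv hsq
      rcases (DE j (cext (j + 1) (topOf : P → Tops P) t) x 0).eq_empty_or_nonempty with h0 | h0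
      · right; left
        refine ⟨?_, hw0⟩
        have e0 : NE j (cext (j + 1) (topOf : P → Tops P) t) x 0 =
            - ((UE j (cext (j + 1) (topOf : P → Tops P) t) x 0).card : ℤ) := by
          unfold NE
          rw [h0, card_empty, Nat.cast_zero, zero_sub]
        have hu : (0 : ℤ) ≤ ((UE j (cext (j + 1) (topOf : P → Tops P) t) x 0).card : ℤ) :=
          Nat.cast_nonneg _
        rw [e0] at hv
        have hu2 := mul_nonneg hu hu
        nlinarith
      · rcases DL_light h (by omega) Dg (fun k hk => B.row.kap k hk)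
          (fun k hk => B.row.lev_x k hk) h0 with ⟨q, hq1, hq2⟩ | ⟨z, y, s, Sd, hy, huy⟩
        · right; left
          refine ⟨?_, hw0⟩
          have h1 : (T4 j (cext (j + 1) (topOf : P → Tops P) t)).card <
              (Z4 j (cext (j + 1) (topOf : P → Tops P) t)).card :=
            card_lt_card ⟨T4_subset j _, fun hh => hq2 (hh hq1)⟩
          have h2 : ((T4 j (cext (j + 1) (topOf : P → Tops P) t)).card : ℤ) + 1 ≤
              (Z4 j (cext (j + 1) (topOf : P → Tops P) t)).card := by exact_mod_cast h1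
          linarith
        · right; right
          refine ⟨by linarith, hw0, z, y, s, Sd, hy, ?_, not_N5_first h hij hi1 B u0 Sd huy⟩
          intro K' psi' R'
          obtain ⟨w', v', D'⟩ := NJ.dlg h (by omega) R' B le_rfl hβ c0 c1 hc
          rw [hy, kr_sa h R' D'.Q, D'.hw, D'.hv, huy, if_neg, if_neg]
          · norm_num
          · rw [disjoint_left]
            push Not
            exact ⟨x 1, mem_insert_self _ _, mem_insert_of_mem (mem_singleton_self _)⟩
          · rw [disjoint_left]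
            push Not
            exact ⟨x 0, mem_insert_self _ _, mem_insert_self _ _⟩
    · left
      push_cast at hv
      rcases q2 with q2 | q2
      · rw [q2] at hv hsq
        rcases q3 with q3 | q3 <;> rw [q3] at hv <;> push_cast at hv hsq <;> linarith
      · rcases q3 with q3 | q3
        · rw [q2] at hv hsq
          rw [q3] at hv
          push_cast at hv hsq
          linarith
        · exact absurd ⟨q2, q3⟩ hq

end row

end Pool.Agent.GaussPoset.R3

end

/-! From `Pool.Agent.W_448op_h53.OeA` -/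

section

/-!
MP_448cb3_co, G2, case B, windows `j - 1` and `j`: [DL] with four sites, both ends single, the weights
`V8` of step 0 at `j = 8`.  Here `j = i + 1`.  After helper10 (KrB - KrD).
helper53.
-/

namespace Pool.Agent.GaussPoset.Win.Pn

set_option linter.unusedSectionVars false

open Finset W4 Wd
open Pool.Agent.GaussPoset.Win.SO (con PN on mem_PN vp F5 mem_F5 N1f N5f)

universe u

variable {P : Type u} [Fintype P] [PartialOrder P] [DecidableEq P] {r j i : ℕ}
  {psi : P → P} {C : Finset P} {p w z : P} {lo hi : ℕ → ℕ} {e : ℕ → ℕ → P}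

/-- the arithmetic of the value -/
lemma oe_arith {k f n z sk N a5 tw : ℤ} (hk : 0 ≤ k) (hf : 0 ≤ f) (hf1 : f ≤ 1)
    (hn : n ≤ 5 - f) (hz : 0 ≤ z) (hzk : z + k ≤ 2) (hs : sk ≤ 2 * z) (hN : 0 ≤ N)
    (h5 : 7 ≤ a5) :
    0 ≤ 2 * (-(1 + k - f) + ((1 + k - f) ^ 2 + 2 * N)) + (z * (a5 + 1) -
      4 * 1 * z * (k + n - 3) - 2 * 1 * sk - 2 * 2 * z * (-(1 + k - f)) - 4 * 1 * z * 0 +
        (2 * 1 - 2) * (z * (z - 1)) - (1 - 2 + 1) * tw) := by
  have q1 : z = 0 ∨ z = 1 ∨ z = 2 := by omega
  have q2 : f = 0 ∨ f = 1 := by omega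
  have q3 : k = 0 ∨ k = 1 ∨ k = 2 := by omega
  rcases q1 with rfl | rfl | rfl
  · rcases q2 with rfl | rfl <;> rcases q3 with rfl | rfl | rfl <;> ring_nf <;> linarith
  · rcases q2 with rfl | rfl <;> rcases q3 with rfl | rfl | rfl <;> ring_nf <;> linarith
  · rcases q2 with rfl | rfl <;> rcases q3 with rfl | rfl | rfl <;> ring_nf <;> linarith

section nj

variable (h : NJ P r j) (hij : i + 1 = j) (hi1 : 1 ≤ i)
include h hij hi1

/-- THE WINDOW `j - 1` of a part with at most three sites, no flip, no twins, one more upper than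
lower element over three sites, the weights `V8` -/
theorem oe_share {t : Tops P} (h3 : (st i (SS i t)).card ≤ 3) (hF : F5 i (SS i t) = ∅)
    (hT : Tws i (SS i t) = ∅)
    (hZ : ((ZU i (SS i t)).card : ℤ) - ((ZL i (SS i t)).card : ℤ) = 1) {a5 f2 f4 f3 f6 : ℤ}
    (h5 : 7 ≤ a5) :
    0 ≤ 2 * own1 ⟨-1, a5, 1, 2, 1, f2, f4, f3, f6⟩ i t +
      ∑ p ∈ (PD P i).filter (fun p => (topOf p : Tops P) = t),
        shr ⟨-1, a5, 1, 2, 1, f2, f4, f3, f6⟩ i p := by
  classical
  have H := h.g.H
  have g : GoodTo P r (i + 1) := by rw [hij]; exact h.g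
  obtain ⟨lo, hi, e, Cm⟩ := Cp.comp_exists g.H t.2 g.hr g.good
  have W := Cm.toWin
  have L : Laws3 lo hi (i + 1) := laws3 (SO_holds P r) g Cm
  have hcs := h.card_SS (i := i) (by omega) (C := (by rw [← hij]; exact Cm))
  have hle := W.lohi i (by omega)
  have hV : hi i ≤ lo i + 2 := by omega
  obtain ⟨v5, v6, v8, v10⟩ := kr_vals h hij hi1 h3 hF hT
  have hN : (0 : ℤ) ≤ (N1f i (SS i t)).card := Nat.cast_nonneg _
  have hA : 0 ≤ A3 i t ^ 2 - A3 i t := by
    rcases le_or_gt (A3 i t) 0 with k | k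
    · nlinarith
    · nlinarith
  unfold own1
  simp only
  rw [v5, v6, v8, v10]
  have ho : -1 * A3 i t + a5 * 0 + 1 * (A3 i t ^ 2 + 2 * ((N1f i (SS i t)).card : ℤ)) + 2 * 0 +
      1 * 0 = -A3 i t + (A3 i t ^ 2 + 2 * ((N1f i (SS i t)).card : ℤ)) := by ring
  rw [ho]
  rcases ((PD P i).filter (fun p => (topOf p : Tops P) = t)).eq_empty_or_nonempty with h0 | ⟨p, hp⟩
  · rw [h0, sum_empty]
    linarith
  obtain ⟨hpD, hpt⟩ := mem_filter.1 hp
  -- only one pendant
  have hone : (PD P i).filter (fun p => (topOf p : Tops P) = t) = {p} := by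
    rw [eq_singleton_iff_unique_mem]
    refine ⟨hp, fun q hq => ?_⟩
    obtain ⟨hqD, hqt⟩ := mem_filter.1 hq
    exact nj_hone h hij hi1 q hqD p hpD (by rw [hqt, hpt])
  obtain ⟨w5, w7⟩ := kr_net h hij hi1 h3 hF hT hpD hpt
  obtain ⟨f1, f2'⟩ := small_nn h hij hi1 Cm L hF hV hpD hpt
  have hk := kr_kc h hij hi1 hpD hpt
  have hzk := Pf.nj_zc_kc h hij hi1 (mem_PD.1 hpD).1
  have a3 : A3 i t = ((ZU i (SS i t)).card : ℤ) - (ZL i (SS i t)).card +
      (FL i (SS i t)).card - (FU' i (SS i t)).card := nj_al3 h hij hi1 t hF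
  have hFU := W.card_FU g t.2 (i := i) (by omega) (S := SS i t)
    (fun y hy => h.mem (i := i) (by omega) t (by omega))
  have hS : ∑ z ∈ zs i (topOf : P → Tops P) p, kc z ≤
      2 * zc i (topOf : P → Tops P) p := by
    have h1 : ∀ z ∈ zs i (topOf : P → Tops P) p, kc z ≤ 2 := by
      intro z _
      have h2 : ks z ⊆ dc z := fun y hy => mem_dc.2 (mem_uc.1 (by rw [mem_ks.1 hy]; simp))
      have h3 := (card_le_card h2).trans (dc_card_le H z)
      unfold kc
      exact_mod_cast h3
    have h2 := Finset.sum_le_sum h1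
    rw [sum_const, nsmul_eq_mul] at h2
    unfold zc
    linarith
  rw [hone, sum_singleton]
  unfold shr
  simp only
  rw [w5, w7]
  have hz0 : 0 ≤ zc i (topOf : P → Tops P) p := Nat.cast_nonneg _
  have hk0 : 0 ≤ kc p := Nat.cast_nonneg _
  have hfu : ((FU' i (SS i t)).card : ℤ) = (Wd.fuw lo hi i : ℤ) := by exact_mod_cast hFU
  have f1' : (Wd.fuw lo hi i : ℤ) ≤ 1 := by exact_mod_cast f1
  have f0 : (0 : ℤ) ≤ (Wd.fuw lo hi i : ℤ) := Nat.cast_nonneg _
  rw [← hk, hfu, hZ] at a3
  rw [a3]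
  exact oe_arith hk0 f0 f1' f2' hz0 hzk hS hN h5

end nj

end Pool.Agent.GaussPoset.Win.Pn

namespace Pool.Agent.GaussPoset.R3

set_option linter.unusedSectionVars false

open Finset Win St Wd Win.W4 EK
open Pool.Agent.GaussPoset.Win.Pn
open Pool.Agent.GaussPoset.Win.Pf
open Pool.Agent.GaussPoset.Win.SO (N1f mem_N1f N5f F5 mem_F5)

universe u

variable {P : Type u} [Fintype P] [PartialOrder P] [DecidableEq P] {r j i : ℕ}
  {t : Tops P} {lo hi : ℕ → ℕ} {e : ℕ → ℕ → P} {x : ℕ → P} {c : ℕ → ℤ} {β : ℤ}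

lemma sq_add_self (a : ℤ) : 0 ≤ a ^ 2 + a := by
  rcases lt_or_ge a 0 with h | h <;> nlinarith

section row

variable (h : NJ P r j) (hij : i + 1 = j) (hi1 : 1 ≤ i) (B : RowB P j t 3 x c β)
include h hij hi1 B

/-- one more upper than lower element over three sites -/
lemma bal_one (c1 : c 1 = -1) (u0 : (uc (x 0)).card = 1) (u3 : (uc (x 3)).card = 1) :
    ((ZU i (SS i t)).card : ℤ) - ((ZL i (SS i t)).card : ℤ) = 1 := by
  classical
  have h1 := h.bal_test hij hi1 B (fun _ => True)
  simp only [filter_true] at h1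
  obtain ⟨g1, -, -⟩ := h.inner hij hi1 B
  have a1 := g1 1 (by omega) (by omega)
  have a2 := g1 2 (by omega) (by omega)
  have h2 : Ed x 3 = {1} := by
    ext k
    rw [mem_singleton]
    constructor
    · exact fun hk => Ed_one h hij hi1 B u0 u3 hk
    · rintro rfl
      exact mem_Ed.2 ⟨by omega, a1, a2⟩
  rw [h2, sum_singleton, c1] at h1
  linarith

/-- the pendants and the flips of the row -/
lemma no_flip_D (hβ : β = 0) (c0 : c 0 = 1) (c1 : c 1 = -1) (c2 : c 2 = 0)
    (C : Cp.Comp (i + 1) (t : P) lo hi e) (u0 : (uc (x 0)).card = 1) (u3 : (uc (x 3)).card = 1)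
    (hD : pen (x 2) = ∅ ∨ (Oc i lo hi ∧ x 2 = e (i + 1) 2)) : F5 i (SS i t) = ∅ := by
  classical
  have hc : ∀ k, 2 ≤ k → k < 3 → c k = 0 := fun k h1 h2 => by
    obtain rfl : k = 2 := by omega
    exact c2
  obtain ⟨K, psi, R⟩ := exists_red P j
  obtain ⟨w, v, Dg⟩ := NJ.dlg h (by omega) R B le_rfl hβ c0 c1 hc
  have p1 : pen (x 1) = ∅ := by
    obtain ⟨a, b, hab, ua, ub, d0, d1⟩ := Dg.twins
    rw [eq_empty_iff_forall_notMem]
    intro q hq
    obtain ⟨h1, h2⟩ := mem_pen.1 hq
    have h3 := mem_dc.2 h1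
    rw [d1, mem_insert, mem_singleton] at h3
    rcases h3 with rfl | rfl
    · rw [ua, card_pair Dg.n01] at h2
      omega
    · rw [ub, card_pair Dg.n01] at h2
      omega
  rcases hD with hD | ⟨hD, hx⟩
  · refine F5_none h hij hi1 B ?_
    rw [eq_empty_iff_forall_notMem]
    intro p hp
    obtain ⟨hp, ht⟩ := mem_filter.1 hp
    have h1 := pd_x2 h hij hi1 B u0 u3 p1 hp ht
    have : p ∈ pen (x 2) := mem_pen.2 ⟨mem_uc.1 (by rw [h1]; exact mem_singleton_self _),
      (mem_PD.1 hp).2.1⟩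
    rw [hD] at this
    exact absurd this (notMem_empty _)
  · exact F5_open h hij hi1 B C hD hx u0 u3 p1

end row

end Pool.Agent.GaussPoset.R3

end
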