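import Mathlib
import Pool.Agent.W_448zz_h61.Ns
import Pool.Agent.W_448zz_h61.M172
import Pool.Agent.W_448zz_h61.M173
import Pool.Agent.W_448zz_h61.M216
import Pool.Agent.W_448zz_h61.M271

/-! From `Pool.Agent.W_448nv_h97.NvD` -/

section

/-!
MP_448cb3_co, G2, case B: THE VALUE OF THE NATURAL PARTS WITH AT MOST THREE SITES, no flip, for the
weights `Wsh = (-1, 9, 1, 4, 3, -1, 2, 13, 0)`.  helper97.
-/

set_option autoImplicit false

namespace Pool.Agent.GaussPoset.Win.Pn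

set_option linter.unusedSectionVars false

open Finset W4 Wd
open Pool.Agent.GaussPoset.Win.SO (con PN on mem_PN vp F5 mem_F5 N1f N5f)

universe u

variable {P : Type u} [Fintype P] [PartialOrder P] [DecidableEq P] {r j i : ℕ}
  {psi : P → P} {C : Finset P} {p w z : P} {lo hi : ℕ → ℕ} {e : ℕ → ℕ → P}

/-- the arithmetic of the value -/
lemma small_arith {D k f n z sk N w tw : ℤ} (hD : 0 ≤ D) (hk : 0 ≤ k) (hf : 0 ≤ f) (hf1 : f ≤ 1)
    (hn : n ≤ 5 - f) (hz : 0 ≤ z) (hzk : z + k ≤ 2) (hs : sk ≤ 2 * z) (hN : 0 ≤ N) (hw : 0 ≤ w)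
    (ht : tw = 0) :
    0 ≤ 2 * (-(D + k - f) + ((D + k - f) ^ 2 + 2 * N) + w) + (z * (9 + 3) -
      4 * 1 * z * (k + n - 3) - 2 * 1 * sk - 2 * 4 * z * (-(D + k - f)) - 4 * 3 * z * 0 +
        (2 * 3 - 4) * (z * (z - 1)) - tw) := by
  have h0 : 0 ≤ D * D := mul_nonneg hD hD
  have q1 : z = 0 ∨ z = 1 ∨ z = 2 := by omega
  have q2 : f = 0 ∨ f = 1 := by omega
  rw [ht]
  have hA : 0 ≤ (D + k - f) ^ 2 - (D + k - f) := by
    rcases le_or_gt (D + k - f) 0 with g | g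
    · nlinarith
    · nlinarith
  rcases q1 with rfl | rfl | rfl
  · linarith
  · have q3 : k = 0 ∨ k = 1 := by omega
    rcases q2 with rfl | rfl <;> rcases q3 with rfl | rfl <;> ring_nf <;> linarith
  · have q3 : k = 0 := by omega
    subst q3
    rcases q2 with rfl | rfl <;> ring_nf <;> linarith

section nj

variable (h : NJ P r j) (hij : i + 1 = j) (hi1 : 1 ≤ i)
include h hij hi1

/-- the covers of a three site element, at most three sites -/
theorem small_ZL_uc {t : Tops P} (Cm : Cp.Comp (i + 1) (t : P) lo hi e) (h3 : hi i ≤ lo i + 2)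
    (hz : z ∈ ZL i (SS i t)) : hi i = lo i + 2 ∧
      uc z = {e (i + 1) (lo i + 1), e (i + 1) (lo i + 2)} := by
  classical
  have H := h.g.H
  have g : GoodTo P r (i + 1) := by rw [hij]; exact h.g
  have W := Cm.toWin
  have hC : Part (i + 1) (SS i t) := h.part (by omega) (by omega) t
  obtain ⟨m1, m2, m3⟩ := mem_ZL.1 hz
  have hc := card_uc_of_up H m2 m3
  obtain ⟨c, d, hcd, hu⟩ := card_eq_two.1 hc
  have e1 : sts i z = uc c ∪ uc d := by
    rw [Rd.sts_bi H m2, hu, biUnion_insert, singleton_biUnion]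
  have e2 : (uc c ∪ uc d).card = 3 := by rw [← e1, card_sts, m3]
  have b1 := uc_card_le H c
  have b2 := uc_card_le H d
  have c1 := card_union_add_card_inter (uc c) (uc d)
  have hT := h.noTT hij hi1
  have mc : c ∈ uc z := by rw [hu]; simp
  have md : d ∈ uc z := by rw [hu]; simp
  have h7 : 1 ≤ (uc c ∩ uc d).card := by
    by_cases h8 : (uc c).card = 2
    · obtain ⟨x, hx1, hx2⟩ := hT z m2 c mc d md hcd h8
      exact card_pos.2 ⟨x, mem_inter.2 ⟨hx1, hx2⟩⟩
    · obtain ⟨x, hx1, hx2⟩ := hT z m2 d md c mc hcd.symm (by omega)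
      exact card_pos.2 ⟨x, mem_inter.2 ⟨hx2, hx1⟩⟩
  have d1 : (uc c).card = 2 := by omega
  have d2 : (uc d).card = 2 := by omega
  have lc := lev_uc H mc
  have ld := lev_uc H md
  have tc := (h.mem (i := i) (by omega) t (y := c) (by omega)).1 (hC.up m1 (mem_uc.1 mc))
  have td := (h.mem (i := i) (by omega) t (y := d) (by omega)).1 (hC.up m1 (mem_uc.1 md))
  obtain ⟨s, s1, s2, rfl⟩ := W.surj (i + 1) le_rfl c (by omega) tc
  obtain ⟨s', s1', s2', rfl⟩ := W.surj (i + 1) le_rfl d (by omega) td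
  have f1 := (W.uc_two g t.2 (k := i) (by omega) s1 s2).1 d1
  have f2 := (W.uc_two g t.2 (k := i) (by omega) s1' s2').1 d2
  have hss : s ≠ s' := by
    rintro rfl
    exact hcd rfl
  refine ⟨by omega, ?_⟩
  rw [hu]
  have hcase : (s = lo i + 1 ∧ s' = lo i + 2) ∨ (s = lo i + 2 ∧ s' = lo i + 1) := by omega
  rcases hcase with ⟨q1, q2⟩ | ⟨q1, q2⟩
  · rw [q1, q2]
  · rw [q1, q2, pair_comm]

/-- the number of the three site elements below of a natural part, at most three sites -/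
theorem small_ZL {t : Tops P} (hn : NatT j (t : P)) (Cm : Cp.Comp (i + 1) (t : P) lo hi e)
    (h3 : hi i ≤ lo i + 2) : (ZL i (SS i t)).card ≤ (ZU i (SS i t)).card := by
  classical
  have H := h.g.H
  have g : GoodTo P r (i + 1) := by rw [hij]; exact h.g
  have W := Cm.toWin
  have hU := W.card_ZU g t.2 hi1 (by omega) (S := SS i t)
    (fun y hy => h.mem (i := i) (by omega) t (by omega))
  rcases (ZL i (SS i t)).eq_empty_or_nonempty with h0 | ⟨z, hz⟩
  · rw [h0, card_empty]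
    exact Nat.zero_le _
  obtain ⟨k1, k2⟩ := small_ZL_uc h hij hi1 Cm h3 hz
  have h1 : (ZL i (SS i t)).card ≤ 1 := by
    rw [card_le_one]
    intro a ha b hb
    obtain ⟨-, a2⟩ := small_ZL_uc h hij hi1 Cm h3 ha
    obtain ⟨-, b2⟩ := small_ZL_uc h hij hi1 Cm h3 hb
    have c1 := W.lo_ge i (by omega)
    have c2 := W.hi_le i (by omega)
    have l1 := W.lev_x (i + 1) le_rfl (lo i + 1) (by omega) (by omega)
    have l2 := W.lev_x (i + 1) le_rfl (lo i + 2) (by omega) (by omega)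
    have hne : e (i + 1) (lo i + 1) ≠ e (i + 1) (lo i + 2) := fun he => by
      have := W.inj' (k := i + 1) le_rfl (by omega) (by omega) (by omega) (by omega) he
      omega
    exact nat_twin h hij hi1 hn (mem_ZL.1 ha).1 hne (by omega) (by omega)
      (mem_uc.1 (by rw [a2]; simp)) (mem_uc.1 (by rw [a2]; simp))
      (mem_uc.1 (by rw [b2]; simp)) (mem_uc.1 (by rw [b2]; simp))
  omega

/-- the private children of the pendant are the elements `FL` -/
theorem small_kc {t : Tops P} (hp : p ∈ PD P i) (ht : (topOf p : Tops P) = t) :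
    kc p = ((FL i (SS i t)).card : ℤ) := by
  classical
  have H := h.g.H
  have lp := (mem_PD.1 hp).1
  have hpS : p ∈ SS i t := by rw [← ht]; exact nj_mem h hij hi1 lp
  have hC : Part (i + 1) (SS i t) := h.part (by omega) (by omega) t
  obtain ⟨n1, -, -⟩ := nj_one h hij hi1 t
  rw [card_le_one] at n1
  rw [Pf.nj_kc h hij hi1 t hpS lp]
  congr 2
  ext x
  rw [mem_FLo, mem_FL]
  constructor
  · rintro ⟨h1, h2⟩
    exact ⟨h1, p, hp, h2⟩
  · rintro ⟨h1, q, hq, h2⟩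
    refine ⟨h1, ?_⟩
    have hqS : q ∈ SS i t := hC.up h1 (mem_uc.1 (by rw [h2]; simp))
    have := n1 q (mem_filter.2 ⟨hqS, hq⟩) p (mem_filter.2 ⟨hpS, hp⟩)
    rw [h2, this]

/-- the values of the window `j - 1`: natural, at most three sites, no flip -/
theorem small_vals {t : Tops P} (hn : NatT j (t : P)) (h3 : (st i (SS i t)).card ≤ 3)
    (hF : F5 i (SS i t) = ∅) : B5 i t = 0 ∧
      C6 i t = A3 i t ^ 2 + 2 * ((N1f i (SS i t)).card : ℤ) ∧ C8 i t = 0 ∧ C10 i t = 0 := by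
  classical
  have hT := nat_Tws h hij hi1 hn
  obtain ⟨-, v5, v6, v8, v10⟩ := W1.vals_open h hij hi1 t hT hF
  have hQ := nj_QQ_three h hij hi1 t h3 hF
  have hN := nj_N5_three h hij hi1 t h3
  rw [hQ, hN, card_empty] at v6
  rw [hN, card_empty] at v10
  refine ⟨v5, ?_, v8, ?_⟩
  · unfold C6 A3
    rw [v6]
    push_cast
    ring
  · unfold C10
    rw [v10]
    norm_num

/-- the net value of the pendant: natural, at most three sites, no flip -/
theorem small_net {t : Tops P} (hn : NatT j (t : P)) (h3 : (st i (SS i t)).card ≤ 3)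
    (hF : F5 i (SS i t) = ∅) (hp : p ∈ PD P i) (ht : (topOf p : Tops P) = t) :
    rho i (topOf : P → Tops P) 5 p - A3 i (topOf p) = -A3 i t ∧
      rho i (topOf : P → Tops P) 7 p - B5 i (topOf p) = 0 := by
  classical
  subst ht
  have H := h.g.H
  have hC : Part (i + 1) (SS i (topOf p)) := h.part (by omega) (by omega) _
  have n5 := nj_net5 h hij hi1 hp hF
  have n7 := nj_net7 h hij hi1 hp
  have a3 := nj_al3 h hij hi1 _ hF
  have hT := nat_Tws h hij hi1 hn
  have lp := (mem_PD.1 hp).1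
  have hpS : p ∈ SS i (topOf p) := nj_mem h hij hi1 lp
  have hsp : (sit i p).Nonempty := sit_PD_ne H hp
  have hsub : sit i p ⊆ st i (SS i (topOf p)) := SO.sit_part H hC hpS
  have full : ∀ z ∈ SS i (topOf p), (sit i z).card = 3 → ¬ Disjoint (sit i z) (sit i p) := by
    intro z hz hc hd
    have h1 : sit i z = st i (SS i (topOf p)) :=
      eq_of_subset_of_card_le (SO.sit_part H hC hz) (by omega)
    obtain ⟨s, hs⟩ := hsp
    rw [h1] at hd
    exact disjoint_left.1 hd (hsub hs) hs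
  have fL : (ZL i (SS i (topOf p))).filter (fun z => ¬ Disjoint (sit i z) (sit i p)) =
      ZL i (SS i (topOf p)) := by
    refine filter_true_of_mem fun z hz => ?_
    obtain ⟨k1, k2, k3⟩ := mem_ZL.1 hz
    exact full z k1 (by rw [sit_low H (by omega), card_sts]; exact k3)
  have fU : (ZU i (SS i (topOf p))).filter (fun z => ¬ Disjoint (sit i z) (sit i p)) =
      ZU i (SS i (topOf p)) := by
    refine filter_true_of_mem fun z hz => ?_
    obtain ⟨k1, k2, k3⟩ := mem_ZU.1 hz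
    exact full z k1 (by rw [sit_upp H (by omega), card_stD]; exact k3)
  rw [fL, fU] at n5
  rw [hT, hF] at n7
  refine ⟨?_, ?_⟩
  · unfold A3
    rw [n5, a3]
    ring
  · unfold B5
    rw [n7]
    simp

/-- THE VALUE of a natural part with at most three sites, no flip (twice): it is nonnegative -/
theorem small_nonneg {t : Tops P} (hn : NatT j (t : P)) (h3 : (st i (SS i t)).card ≤ 3)
    (hF : F5 i (SS i t) = ∅) : 0 ≤ 2 * own ⟨-1, 9, 1, 4, 3, -1, 2, 13, 0⟩ i j t +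
      ∑ p ∈ (PD P i).filter (fun p => (topOf p : Tops P) = t),
        shr ⟨-1, 9, 1, 4, 3, -1, 2, 13, 0⟩ i p := by
  classical
  have H := h.g.H
  have g : GoodTo P r (i + 1) := by rw [hij]; exact h.g
  obtain ⟨lo, hi, e, Cm⟩ := Cp.comp_exists g.H t.2 g.hr g.good
  have W := Cm.toWin
  have L : Laws3 lo hi (i + 1) := laws3 (SO_holds P r) g Cm
  have hcs := h.card_SS (i := i) (by omega) (C := (by rw [← hij]; exact Cm))
  have hle := W.lohi i (by omega)
  have hV : hi i ≤ lo i + 2 := by omega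
  obtain ⟨v5, v6, v8, v10⟩ := small_vals h hij hi1 hn h3 hF
  have hw := EK.NJ.nat_own2 h (by omega) hn
  have ho : own ⟨-1, 9, 1, 4, 3, -1, 2, 13, 0⟩ i j t = -A3 i t + (A3 i t ^ 2 +
      2 * ((N1f i (SS i t)).card : ℤ)) + (-F2 j t + 2 * F4 j t + 13 * F3 j t) := by
    unfold own
    rw [v5, v6, v8, v10]
    ring
  have hN : (0 : ℤ) ≤ (N1f i (SS i t)).card := Nat.cast_nonneg _
  have hA : 0 ≤ A3 i t ^ 2 - A3 i t := by
    rcases le_or_gt (A3 i t) 0 with k | k
    · nlinarith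
    · nlinarith
  rcases ((PD P i).filter (fun p => (topOf p : Tops P) = t)).eq_empty_or_nonempty with h0 | ⟨p, hp⟩
  · rw [h0, sum_empty, ho]
    linarith
  obtain ⟨hpD, hpt⟩ := mem_filter.1 hp
  -- only one pendant
  have hone : (PD P i).filter (fun p => (topOf p : Tops P) = t) = {p} := by
    rw [eq_singleton_iff_unique_mem]
    refine ⟨hp, fun q hq => ?_⟩
    obtain ⟨hqD, hqt⟩ := mem_filter.1 hq
    exact nj_hone h hij hi1 q hqD p hpD (by rw [hqt, hpt])
  obtain ⟨w5, w7⟩ := small_net h hij hi1 hn h3 hF hpD hpt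
  obtain ⟨f1, f2⟩ := small_nn h hij hi1 Cm L hF hV hpD hpt
  have hk := small_kc h hij hi1 hpD hpt
  have hzk := Pf.nj_zc_kc h hij hi1 (mem_PD.1 hpD).1
  have a3 : A3 i t = ((ZU i (SS i t)).card : ℤ) - (ZL i (SS i t)).card +
      (FL i (SS i t)).card - (FU' i (SS i t)).card := nj_al3 h hij hi1 t hF
  have hZ := small_ZL h hij hi1 hn Cm hV
  have hFU := W.card_FU g t.2 (i := i) (by omega) (S := SS i t)
    (fun y hy => h.mem (i := i) (by omega) t (by omega))
  have hS : ∑ z ∈ zs i (topOf : P → Tops P) p, kc z ≤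
      2 * zc i (topOf : P → Tops P) p := by
    have h1 : ∀ z ∈ zs i (topOf : P → Tops P) p, kc z ≤ 2 := by
      intro z _
      have h2 : ks z ⊆ dc z := fun y hy => mem_dc.2 (mem_uc.1 (by rw [mem_ks.1 hy]; simp))
      have h3 := (card_le_card h2).trans (dc_card_le H z)
      unfold kc
      exact_mod_cast h3
    have h2 := Finset.sum_le_sum h1
    rw [sum_const, nsmul_eq_mul] at h2
    unfold zc
    linarith
  rw [hone, sum_singleton, ho]
  unfold shr
  rw [w5, w7]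
  have hz0 : 0 ≤ zc i (topOf : P → Tops P) p := Nat.cast_nonneg _
  have hk0 : 0 ≤ kc p := Nat.cast_nonneg _
  have hfu : ((FU' i (SS i t)).card : ℤ) = (Wd.fuw lo hi i : ℤ) := by exact_mod_cast hFU
  have hZ' : ((ZL i (SS i t)).card : ℤ) ≤ (ZU i (SS i t)).card := by exact_mod_cast hZ
  have f1' : (Wd.fuw lo hi i : ℤ) ≤ 1 := by exact_mod_cast f1
  have f0 : (0 : ℤ) ≤ (Wd.fuw lo hi i : ℤ) := Nat.cast_nonneg _
  rw [← hk, hfu] at a3
  have htw : ((1 : ℤ) - 4 + 3) * ∑ z ∈ zs i (topOf : P → Tops P) p,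
      ((tw i (topOf : P → Tops P) z).card : ℤ) = 0 := by norm_num
  rw [htw]
  obtain ⟨D, hD⟩ : ∃ D : ℤ, D = ((ZU i (SS i t)).card : ℤ) - (ZL i (SS i t)).card := ⟨_, rfl⟩
  rw [← hD] at a3
  have hD0 : 0 ≤ D := by linarith
  rw [a3]
  exact small_arith hD0 hk0 f0 f1' f2 hz0 hzk hS hN hw rfl

end nj

end Pool.Agent.GaussPoset.Win.Pn

end

/-! From `Pool.Agent.W_448n6_h84.NbA` -/

section

/-!
# MP_448cb3_co, case B, STEP 0 at the level 8: natural rows with at least four sites on the level 7,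
functional `<-1, 7, 1, 2, 1, 1, 1, 6, 2>` (helper84)
-/

namespace Pool.Agent.GaussPoset.Wd

set_option linter.unusedSectionVars false

open Finset Win Win.I2 Win.Rc EK Win.Pn

universe u

variable {P : Type u} [Fintype P] [PartialOrder P] [DecidableEq P] {r j i : ℕ}
  {t : Tops P} {lo hi : ℕ → ℕ} {e : ℕ → ℕ → P} {m : ℕ} {x : ℕ → P} {c : ℕ → ℤ} {β : ℤ}

/-- a late component of the level 8 has at most three elements on the level 7 -/
lemma late8_V7 {a : ℕ} (hlo : ∀ k, k < 8 → lo (k + 1) = lo k ∨ lo (k + 1) = lo k + 1)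
    (hhi : ∀ k, k < 8 → hi (k + 1) = hi k ∨ hi (k + 1) = hi k + 1) (h0 : 3 ≤ a) (h1 : a ≤ 8)
    (h2 : ∀ k, k < a → lo k = 0 ∧ hi k = 0) (h3 : lo a = 0 ∧ hi a = 1)
    (h4 : ((1 ≤ 8 - a ∧ 8 - a ≤ a) ∧ word lo hi a (8 - a) = Qw (8 - a)) ∨
      word lo hi a (8 - a) ∈ lateW a) : hi 7 < lo 7 + 3 := by
  have s3 := hlo 3 (by omega)
  have s4 := hlo 4 (by omega)
  have s5 := hlo 5 (by omega)
  have s6 := hlo 6 (by omega)
  have t3 := hhi 3 (by omega)
  have t4 := hhi 4 (by omega)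
  have t5 := hhi 5 (by omega)
  have t6 := hhi 6 (by omega)
  simp only [Nat.reduceAdd] at s3 s4 s5 s6 t3 t4 t5 t6
  have h27 := h2 7
  interval_cases a
  · rcases h4 with ⟨-, h4⟩ | h4
    · simp [word, Qw, CC, OC, List.range_succ] at h4
      omega
    · simp [word, lateW, OO, OC, CO, CC, List.range_succ] at h4
      omega
  · rcases h4 with ⟨-, h4⟩ | h4
    · simp [word, Qw, CC, OC, List.range_succ] at h4
      omega
    · simp [word, lateW, OO, OC, CO, CC, List.range_succ] at h4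
      omega
  · rcases h4 with ⟨-, h4⟩ | h4
    · simp [word, Qw, CC, OC, List.range_succ] at h4
      omega
    · simp [word, lateW, OO, OC, CO, List.range_succ] at h4
      omega
  · omega
  · omega
  · omega

/-- no pendants on the level 7 window of a component with at least four elements there -/
theorem NJ.no_pend8 (h : NJ P r 8) (C : Cp.Comp 8 (t : P) lo hi e) (S : Shape 8 lo hi)
    (hb : lo 7 + 3 ≤ hi 7) : ∀ q ∈ SS 7 t, q ∉ PD P 7 ∧ q ∉ PU P 7 := by
  classical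
  rcases h.pd_coord (i := 7) (j := 8) rfl (by omega) C hb with hN | ⟨n, hn, y, p, u, D, hcase⟩
  · exact hN
  exfalso
  obtain rfl : n = 5 := by omega
  simp only [Nat.reduceAdd] at hcase
  have key : ¬ ((lo 6 = lo 5 + 1 ∧ lo 7 = lo 6) ∨ (hi 6 = hi 5 ∧ hi 7 = hi 6 + 1)) := by
    have l5 := C.hi_le (k := 5) (by omega)
    have l6 := C.hi_le (k := 6) (by omega)
    rcases S with h | ⟨h1, h2⟩ | ⟨h1, h2⟩ | ⟨h1, h2, h3⟩ | ⟨h1, h2⟩ | ⟨a, h0, h1, h2, h3, hN, h4⟩
    · have := h 7 (by omega)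
      omega
    · have a1 := h2.lo 5 (by omega)
      have a2 := h2.lo 6 (by omega)
      have a3 := h2.hi 5 (by omega)
      have a4 := h2.hi 6 (by omega)
      simp only [Nat.reduceAdd] at a1 a2 a3 a4
      omega
    · have a1 := h2.lo 5 (by omega)
      have a2 := h2.lo 6 (by omega)
      have a3 := h2.hi 5 (by omega)
      have a4 := h2.hi 6 (by omega)
      simp only [Nat.reduceAdd] at a1 a2 a3 a4
      omega
    · omega
    · omega
    · have := late8_V7 (fun k hk => C.lo_step k hk) (fun k hk => C.hi_step k hk) h0 h1 h2 h3 h4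
      omega
  rcases hcase with ⟨q1, q2, -⟩ | ⟨q1, q2, -⟩
  · exact key (Or.inl ⟨q1, q2⟩)
  · exact key (Or.inr ⟨q1, q2⟩)

/-- NATURAL ROWS OF THE LEVEL 8 with at least four elements on the level 7: the value is nonnegative,
and the part has no pendant of the window 7 -/
theorem NJ.v8_nat_big (h : NJ P r 8) (B : RowB P 8 t m x c β) (C : Cp.Comp 8 (t : P) lo hi e)
    (S : Shape 8 lo hi) (hβ : β = 0) (hc : ∀ k, k < m → c k = 0)
    (h4 : 4 ≤ (st 7 (SS 7 t)).card) :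
    0 ≤ 2 * own ⟨-1, 7, 1, 2, 1, 1, 1, 6, 2⟩ 7 8 t +
      ∑ p ∈ (PD P 7).filter (fun p => (topOf p : Tops P) = t),
        shr ⟨-1, 7, 1, 2, 1, 1, 1, 6, 2⟩ 7 p := by
  classical
  have H := h.g.H
  have hn : NatT 8 (t : P) := RowB.nat_of h B hc hβ
  have hcard := h.card_SS (i := 7) (by omega) C
  have hb : lo 7 + 3 ≤ hi 7 := by omega
  have hN := NJ.no_pend8 h C S hb
  have f1 : FL 7 (SS 7 t) = ∅ := by
    rw [eq_empty_iff_forall_notMem]
    intro w hw
    rw [mem_FL] at hw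
    obtain ⟨hw1, z, hz1, hz2⟩ := hw
    have hzw : w ⋖ z := by rw [← mem_uc, hz2]; simp
    have hz : z ∈ SS 7 t := (h.part (i := 7) (k := 8 + 1) (by omega) (by omega) t).up hw1 hzw
    exact (hN z hz).1 hz1
  have f2 : FU' 7 (SS 7 t) = ∅ := by
    rw [eq_empty_iff_forall_notMem]
    intro w hw
    rw [mem_FU'] at hw
    obtain ⟨hw1, z, hz1, hz2⟩ := hw
    have lz := (mem_PU.1 hz1).1
    have hzw : z ⋖ w := by rw [← mem_dc, hz2]; simp
    have lw := lev_cov H hzw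
    have hwt : w ≤ (t : P) := (h.mem (by omega) t (by omega)).1 hw1
    have hzS : z ∈ SS 7 t := (h.mem (by omega) t (by omega)).2 (hzw.le.trans hwt)
    exact (hN z hzS).2 hz1
  have k2 : fa 7 (SS 7 t) = 0 := by
    unfold fa
    rw [f1, f2]
    simp
  have k3 : (PD P 7).filter (fun p => (topOf p : Tops P) = t) = ∅ := by
    rw [eq_empty_iff_forall_notMem]
    intro q hq
    rw [mem_filter] at hq
    obtain ⟨hq1, hq2⟩ := hq
    have lq := (mem_PD.1 hq1).1
    exact (hN q ((h.mem (by omega) t (by omega)).2 (hq2 ▸ le_topOf q))).1 hq1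
  have o1 := h.own1_nat (i := 7) (j := 8) rfl (by omega) B ⟨-1, 7, 1, 2, 1, 1, 1, 6, 2⟩ h4 hc
    (q := 0) (Nat.zero_le _) (by
      intro z hz
      rw [f1, f2] at hz
      simp at hz)
  have n1_0 : 0 ≤ n1 7 (SS 7 t) := by
    unfold n1
    exact Int.natCast_nonneg _
  have e3 := EK.NJ.nat_F3 h (by omega) hn
  obtain ⟨-, e2⟩ := EK.NJ.nat_win h (by omega) hn
  have g1 := card_le_card (W4.DU_sub 8 (cext (8 + 1) (topOf : P → Tops P) t))
  have g2 := card_le_card (W4.T4_subset 8 (cext (8 + 1) (topOf : P → Tops P) t))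
  obtain ⟨K, psi, R⟩ := exists_red P 8
  have e6 := (EK.NJ.w3_sq h (by omega) R t).1
  have e6' : 0 ≤ Pn.F6 8 t := e6
  rw [k3, sum_empty, own_eq, o1, k2]
  unfold own2
  simp only
  rw [e3]
  have g1' : (((W4.DU 8 (cext (8 + 1) (topOf : P → Tops P) t)).card : ℕ) : ℤ) ≤
    (W4.DC 8 (cext (8 + 1) (topOf : P → Tops P) t)).card := by exact_mod_cast g1
  have g2' : (((W4.T4 8 (cext (8 + 1) (topOf : P → Tops P) t)).card : ℕ) : ℤ) ≤
    (W4.Z4 8 (cext (8 + 1) (topOf : P → Tops P) t)).card := by exact_mod_cast g2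
  have g3' : (0 : ℤ) ≤ (W4.D2 8 (cext (8 + 1) (topOf : P → Tops P) t)).card :=
    Int.natCast_nonneg _
  linarith

end Pool.Agent.GaussPoset.Wd

end

/-! From `Pool.Agent.W_448v8_h97.VaB` -/

section

/-!
MP_448cb3_co, G2, case B, `j = 8` (Step 0): the value of the natural parts without flip for the weights
`V8 = (-1, 7, 1, 2, 1, 1, 1, 6, 2)`.  helper97.
-/

set_option autoImplicit false

namespace Pool.Agent.GaussPoset.Win.Pn

set_option linter.unusedSectionVars false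

open Finset W4 Wd
open Pool.Agent.GaussPoset.Win.SO (con PN on mem_PN vp F5 mem_F5 N1f N5f)

universe u

variable {P : Type u} [Fintype P] [PartialOrder P] [DecidableEq P] {r j i : ℕ}
  {psi : P → P} {C : Finset P} {p w z : P} {lo hi : ℕ → ℕ} {e : ℕ → ℕ → P}

section nj

variable (h : NJ P r j) (hij : i + 1 = j) (hi1 : 1 ≤ i)
include h hij hi1

/-- the double over a pendant of a natural part is an end of its row -/
theorem nat_end {t : Tops P} (hn : NatT j (t : P)) (Cm : Cp.Comp (i + 1) (t : P) lo hi e)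
    (hp : p ∈ PD P i) (ht : (topOf p : Tops P) = t) {a : ℕ} (ha : lo i ≤ a) (ha' : a + 1 ≤ hi i)
    (hs : sit i p = {e i a, e i (a + 1)}) : lo (i + 1) = a + 1 ∨ hi (i + 1) = a + 1 := by
  classical
  have H := h.g.H
  have g : GoodTo P r (i + 1) := by rw [hij]; exact h.g
  have W := Cm.toWin
  have hC : Part (i + 1) (SS i t) := h.part (by omega) (by omega) t
  obtain ⟨y, huy, lp, ly, hc2, -⟩ := SO.PD_data H hp
  have hsy : sit i p = uc y := sit_PDs H hp huy
  have hpS : p ∈ SS i t := by rw [← ht]; exact nj_mem h hij hi1 lp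
  have hyS : y ∈ SS i t := hC.up hpS (mem_uc.1 (by rw [huy]; exact mem_singleton_self _))
  have hyt : y ≤ (t : P) := (h.mem (i := i) (by omega) t (y := y) (by omega)).1 hyS
  obtain ⟨s, s1, s2, rfl⟩ := W.surj (i + 1) le_rfl y (by omega) hyt
  have c1 := (Cm.cov i s a (by omega) s1 s2 ha (by omega)).1 (mem_uc.1 (by
    rw [← hsy, hs]; exact mem_insert_self _ _))
  have c2 := (Cm.cov i s (a + 1) (by omega) s1 s2 (by omega) ha').1 (mem_uc.1 (by
    rw [← hsy, hs]; exact mem_insert_of_mem (mem_singleton_self _)))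
  obtain rfl : s = a + 1 := by omega
  by_contra hcon
  have l1 : lo (i + 1) ≤ a := by omega
  have l2 : a + 2 ≤ hi (i + 1) := by omega
  have inj : ∀ b b', lo (i + 1) ≤ b → b ≤ hi (i + 1) → lo (i + 1) ≤ b' → b' ≤ hi (i + 1) →
      b ≠ b' → e (i + 1) b ≠ e (i + 1) b' := by
    intro b b' h1 h2 h3 h4 hne he
    exact hne (W.inj' (k := i + 1) le_rfl h1 h2 h3 h4 he)
  have lv : ∀ b, lo (i + 1) ≤ b → b ≤ hi (i + 1) → lev (e (i + 1) b) = j := fun b h1 h2 => by
    rw [W.lev_x (i + 1) le_rfl b h1 h2, hij]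
  have tt : ∀ b, lo (i + 1) ≤ b → b ≤ hi (i + 1) → e (i + 1) b ≤ (t : P) := fun b h1 h2 =>
    W.le_t (i + 1) le_rfl b h1 h2
  refine nat_two_nb H hn (y := e (i + 1) (a + 1)) (y1 := e (i + 1) a) (y2 := e (i + 1) (a + 2))
    (v1 := e i a) (v2 := e i (a + 1)) (p := p) (lv _ s1 s2) (lv _ l1 (by omega))
    (lv _ (by omega) l2) (tt _ s1 s2) (tt _ l1 (by omega)) (tt _ (by omega) l2)
    (inj _ _ s1 s2 l1 (by omega) (by omega)) (inj _ _ s1 s2 (by omega) l2 (by omega))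
    (inj _ _ l1 (by omega) (by omega) l2 (by omega)) ?_ ?_ ?_ ?_ huy
  · exact (Cm.cov i (a + 1) a (by omega) s1 s2 ha (by omega)).2 (by omega)
  · exact (Cm.cov i a a (by omega) l1 (by omega) ha (by omega)).2 (by omega)
  · exact (Cm.cov i (a + 1) (a + 1) (by omega) s1 s2 (by omega) ha').2 (by omega)
  · exact (Cm.cov i (a + 2) (a + 1) (by omega) (by omega) l2 (by omega) ha').2 (by omega)

end nj

/-- the numbers of the upper pendant patterns at the window `7` -/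
lemma fuw7 {lo hi : ℕ → ℕ} (T : Tab7 lo hi)
    (hP : (lo 6 = lo 5 + 1 ∧ lo 7 = lo 6 ∧
        (lo 8 = lo 7 + 1 ∨ hi 8 = lo 7 + 1) ∧ lo 7 < hi 7) ∨
      (hi 6 = hi 5 ∧ hi 7 = hi 6 + 1 ∧ (lo 8 = hi 7 ∨ hi 8 = hi 7) ∧ lo 7 < hi 7)) :
    Wd.fuw lo hi 7 ≤ 1 ∧ ((lo 5 = 0 ∧ hi 5 = 1 ∧ lo 6 = 0 ∧ hi 6 = 1 ∧ lo 7 = 1 ∧ hi 7 = 2 ∧
        lo 8 = 2 ∧ hi 8 = 3 ∧ Wd.fuw lo hi 7 = 0) ∨
      (hi 6 = 0 ∧ lo 7 = 0 ∧ hi 7 = 1 ∧ lo 8 ≤ 1 ∧ hi 8 = 1) ∨
      (lo 6 = 2 ∧ hi 6 = 3 ∧ lo 7 = 2 ∧ hi 7 = 3 ∧ lo 8 = 3 ∧ hi 8 = 3)) := by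
  unfold Tab7 at T
  unfold Wd.fuw Wd.puL Wd.puR
  simp only [Nat.reduceLeDiff, Nat.reduceSub, true_and]
  rcases T with T | T | T | T | T
  · exfalso; omega
  · exfalso; omega
  · obtain ⟨t1, t2, t3, t4, t5, t6, t7, t8, t9, t10⟩ := T
    simp only [t1, t2, t3, t4, t5, t6, t7, t8, t9, t10]
    decide
  · obtain ⟨t1, t2, t3, t4, t5, t6, t7, t8, t9⟩ := T
    have e1 : hi 8 = 1 := by omega
    refine ⟨?_, Or.inr (Or.inl ⟨t6, t7, t8, t9.1, e1⟩)⟩
    simp only [t1, t2, t3, t4, t5, t6, t7, t8]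
    decide
  · obtain ⟨t1, t2, t3, t4, t5, t6, t7, t8, t9, t10⟩ := T
    simp only [t1, t2, t3, t4, t5, t6, t7, t8, t9, t10]
    decide

section eight

variable (h : NJ P r 8)
include h

/-- THE NEAR ELEMENTS of the pendant of a natural part with at most three sites, no flip -/
theorem small_nn8 {t : Tops P} (hn : NatT 8 (t : P)) (Cm : Cp.Comp 8 (t : P) lo hi e)
    (S : Shape 8 lo hi) (hF : F5 7 (SS 7 t) = ∅) (hp : p ∈ PD P 7)
    (ht : (topOf p : Tops P) = t) : Wd.fuw lo hi 7 ≤ 1 ∧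
      nn 7 p ≤ 4 - (Wd.fuw lo hi 7 : ℤ) := by
  have hlo : ∀ k, k < 8 → lo (k + 1) = lo k ∨ lo (k + 1) = lo k + 1 := fun k hk =>
    Cm.lo_step k hk
  have hhi : ∀ k, k < 8 → hi (k + 1) = hi k ∨ hi (k + 1) = hi k + 1 := fun k hk =>
    Cm.hi_step k hk
  obtain ⟨a0, a1, a2, a3⟩ := pu_row h (i := 7) rfl (by norm_num) Cm hF hp ht
  have hPu : Pu7 lo hi := by
    refine ⟨a1, ?_⟩
    rcases a3 with ⟨c1, -⟩ | ⟨c1, -⟩
    · left
      obtain ⟨-, d1, d2, -⟩ := c1
      simp only [Nat.reduceSub] at d1 d2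
      exact ⟨d1, d2⟩
    · right
      obtain ⟨-, d1, d2, -⟩ := c1
      simp only [Nat.reduceSub] at d1 d2
      exact ⟨d1, d2⟩
  have T := tab7 hlo hhi Cm.hi_zero S hPu
  rcases a3 with ⟨c1, c2⟩ | ⟨c1, c2⟩
  · have k1 := nn_le h (i := 7) rfl (by norm_num) Cm (a := lo 7) le_rfl (by omega) c2 (by norm_num)
    have k2 := nat_end h (i := 7) rfl (by norm_num) hn Cm hp ht (a := lo 7) le_rfl (by omega) c2
    obtain ⟨-, d1, d2, -⟩ := c1
    simp only [Nat.reduceSub] at d1 d2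
    obtain ⟨f1, f2⟩ := fuw7 T (Or.inl ⟨d1, d2, k2, a1⟩)
    refine ⟨f1, ?_⟩
    simp only [Nat.reduceAdd, Nat.reduceSub] at k1
    rcases f2 with f2 | f2 | f2
    · omega
    · omega
    · omega
  · have e7 : hi 7 - 1 + 1 = hi 7 := by omega
    have k1 := nn_le h (i := 7) rfl (by norm_num) Cm (a := hi 7 - 1) (by omega) (by omega)
      (by rw [e7]; exact c2) (by norm_num)
    have k2 := nat_end h (i := 7) rfl (by norm_num) hn Cm hp ht (a := hi 7 - 1) (by omega)
      (by omega) (by rw [e7]; exact c2)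
    rw [e7] at k2
    obtain ⟨-, d1, d2, -⟩ := c1
    simp only [Nat.reduceSub] at d1 d2
    obtain ⟨f1, f2⟩ := fuw7 T (Or.inr ⟨d1, d2, k2, a1⟩)
    refine ⟨f1, ?_⟩
    simp only [Nat.reduceAdd, Nat.reduceSub] at k1
    rcases f2 with f2 | f2 | f2
    · omega
    · omega
    · omega

end eight

end Pool.Agent.GaussPoset.Win.Pn

end

/-! From `Pool.Agent.W_448v8_h97.VaC` -/

section

/-!
MP_448cb3_co, G2, case B, `j = 8` (Step 0): the value of the natural parts without flip for the weights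
`V8 = (-1, 7, 1, 2, 1, 1, 1, 6, 2)`, at most three sites.  helper97.
-/

set_option autoImplicit false

namespace Pool.Agent.GaussPoset.Win.Pn

set_option linter.unusedSectionVars false

open Finset W4 Wd
open Pool.Agent.GaussPoset.Win.SO (con PN on mem_PN vp F5 mem_F5 N1f N5f)

universe u

variable {P : Type u} [Fintype P] [PartialOrder P] [DecidableEq P] {r j i : ℕ}
  {psi : P → P} {C : Finset P} {p w z : P} {lo hi : ℕ → ℕ} {e : ℕ → ℕ → P}

/-- the arithmetic of the value for the weights `V8` -/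
lemma small_arith8 {D k f n z sk N w : ℤ} (hD : 0 ≤ D)
    (hn : n ≤ 4 - f) (hz : 0 ≤ z) (hs : sk ≤ 2 * z) (hN : 0 ≤ N) (hw : 0 ≤ w) :
    0 ≤ 2 * (-(D + k - f) + ((D + k - f) ^ 2 + 2 * N) + w) + (z * (7 + 1) -
      4 * 1 * z * (k + n - 3) - 2 * 1 * sk - 2 * 2 * z * (-(D + k - f)) - 4 * 1 * z * 0 +
        (2 * 1 - 2) * (z * (z - 1))) := by
  have hA : 0 ≤ (D + k - f) ^ 2 - (D + k - f) := by
    rcases le_or_gt (D + k - f) 0 with g | g
    · nlinarith
    · nlinarith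
  have h1 : 0 ≤ z * (4 - f - n) := mul_nonneg hz (by linarith)
  have h2 : 0 ≤ z * D := mul_nonneg hz hD
  nlinarith

section eight

variable (h : NJ P r 8)
include h

/-- the window `8` of a natural part for the weights `1, 1, 6, 2` -/
theorem nat_own2_8 {t : Tops P} (hn : NatT 8 (t : P)) :
    0 ≤ F2 8 t + F4 8 t + 6 * F3 8 t + 2 * F6 8 t := by
  obtain ⟨-, e2⟩ := EK.NJ.nat_win h (by norm_num) hn
  have e3 := EK.NJ.nat_F3 h (by norm_num) hn
  obtain ⟨K, psi, R⟩ := EK.exists_red P 8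
  have e6 : 0 ≤ F6 8 t := (EK.NJ.w3_sq h (by norm_num) R t).1
  have h1 := card_le_card (DU_sub 8 (cext (8 + 1) (topOf : P → Tops P) t))
  have h2 := card_le_card (T4_subset 8 (cext (8 + 1) (topOf : P → Tops P) t))
  have h6 : ((DU 8 (cext (8 + 1) (topOf : P → Tops P) t)).card : ℤ) ≤
    (DC 8 (cext (8 + 1) (topOf : P → Tops P) t)).card := by exact_mod_cast h1
  have h7 : ((T4 8 (cext (8 + 1) (topOf : P → Tops P) t)).card : ℤ) ≤
    (Z4 8 (cext (8 + 1) (topOf : P → Tops P) t)).card := by exact_mod_cast h2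
  have h8 : (0 : ℤ) ≤ (D2 8 (cext (8 + 1) (topOf : P → Tops P) t)).card :=
    Nat.cast_nonneg _
  rw [e3]
  linarith

/-- THE VALUE of a natural part with at most three sites, no flip (twice), weights `V8` -/
theorem small_nonneg8 {t : Tops P} (hn : NatT 8 (t : P)) (Cm : Cp.Comp 8 (t : P) lo hi e)
    (S : Shape 8 lo hi) (h3 : (st 7 (SS 7 t)).card ≤ 3) (hF : F5 7 (SS 7 t) = ∅) :
    0 ≤ 2 * own ⟨-1, 7, 1, 2, 1, 1, 1, 6, 2⟩ 7 8 t +
      ∑ p ∈ (PD P 7).filter (fun p => (topOf p : Tops P) = t),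
        shr ⟨-1, 7, 1, 2, 1, 1, 1, 6, 2⟩ 7 p := by
  classical
  have H := h.g.H
  have g : GoodTo P r 8 := h.g
  have W := Cm.toWin
  have hcs := h.card_SS (i := 7) (by norm_num) (C := Cm)
  have hle := W.lohi 7 (by norm_num)
  have hV : hi 7 ≤ lo 7 + 2 := by omega
  obtain ⟨v5, v6, v8, v10⟩ := small_vals h (i := 7) rfl (by norm_num) hn h3 hF
  have hw := nat_own2_8 h hn
  have ho : own ⟨-1, 7, 1, 2, 1, 1, 1, 6, 2⟩ 7 8 t = -A3 7 t + (A3 7 t ^ 2 +
      2 * ((N1f 7 (SS 7 t)).card : ℤ)) + (F2 8 t + F4 8 t + 6 * F3 8 t + 2 * F6 8 t) := by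
    unfold own
    rw [v5, v6, v8, v10]
    ring
  have hN : (0 : ℤ) ≤ (N1f 7 (SS 7 t)).card := Nat.cast_nonneg _
  have hA : 0 ≤ A3 7 t ^ 2 - A3 7 t := by
    rcases le_or_gt (A3 7 t) 0 with k | k
    · nlinarith
    · nlinarith
  rcases Finset.eq_empty_or_nonempty ((PD P 7).filter (fun p => (topOf p : Tops P) = t)) with
    h0 | ⟨p, hp⟩
  · rw [h0, Finset.sum_empty, ho]
    linarith
  obtain ⟨hpD, hpt⟩ := mem_filter.1 hp
  have hone : (PD P 7).filter (fun p => (topOf p : Tops P) = t) = {p} := by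
    rw [eq_singleton_iff_unique_mem]
    refine ⟨hp, fun q hq => ?_⟩
    obtain ⟨hqD, hqt⟩ := mem_filter.1 hq
    exact nj_hone h (i := 7) rfl (by norm_num) q hqD p hpD (by rw [hqt, hpt])
  obtain ⟨w5, w7⟩ := small_net h (i := 7) rfl (by norm_num) hn h3 hF hpD hpt
  obtain ⟨-, f2⟩ := small_nn8 h hn Cm S hF hpD hpt
  have hk := small_kc h (i := 7) rfl (by norm_num) hpD hpt
  have a3 : A3 7 t = ((ZU 7 (SS 7 t)).card : ℤ) - (ZL 7 (SS 7 t)).card +
      (FL 7 (SS 7 t)).card - (FU' 7 (SS 7 t)).card := nj_al3 h (i := 7) rfl (by norm_num) t hF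
  have hZ := small_ZL h (i := 7) rfl (by norm_num) hn Cm hV
  have hFU := W.card_FU g t.2 (i := 7) (by norm_num) (S := SS 7 t)
    (fun y hy => h.mem (i := 7) (by norm_num) t (by omega))
  have hS : ∑ z ∈ zs 7 (topOf : P → Tops P) p, kc z ≤
      2 * zc 7 (topOf : P → Tops P) p := by
    have h1 : ∀ z ∈ zs 7 (topOf : P → Tops P) p, kc z ≤ 2 := by
      intro z _
      have h2 : ks z ⊆ dc z := fun y hy => mem_dc.2 (mem_uc.1 (by rw [mem_ks.1 hy]; simp))
      have h3 := (card_le_card h2).trans (dc_card_le H z)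
      unfold kc
      exact_mod_cast h3
    have h2 := Finset.sum_le_sum h1
    rw [sum_const, nsmul_eq_mul] at h2
    unfold zc
    linarith
  rw [hone, sum_singleton, ho]
  unfold shr
  rw [w5, w7]
  have hz0 : 0 ≤ zc 7 (topOf : P → Tops P) p := Nat.cast_nonneg _
  have hfu : ((FU' 7 (SS 7 t)).card : ℤ) = (Wd.fuw lo hi 7 : ℤ) := by exact_mod_cast hFU
  have hZ' : ((ZL 7 (SS 7 t)).card : ℤ) ≤ (ZU 7 (SS 7 t)).card := by exact_mod_cast hZ
  rw [← hk, hfu] at a3
  have htw : ((1 : ℤ) - 2 + 1) * ∑ z ∈ zs 7 (topOf : P → Tops P) p,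
      ((tw 7 (topOf : P → Tops P) z).card : ℤ) = 0 := by norm_num
  rw [htw, sub_zero]
  obtain ⟨D, hD⟩ : ∃ D : ℤ, D = ((ZU 7 (SS 7 t)).card : ℤ) - (ZL 7 (SS 7 t)).card := ⟨_, rfl⟩
  rw [← hD] at a3
  have hD0 : 0 ≤ D := by linarith
  rw [a3]
  exact small_arith8 hD0 f2 hz0 hS hN hw

end eight

end Pool.Agent.GaussPoset.Win.Pn

end
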