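import Mathlib
import Pool.Agent.W_448zz_h61.Ns
import Pool.Agent.W_448zz_h61.M236
import Pool.Agent.W_448zz_h61.M263
import Pool.Agent.W_448zz_h61.M264
import Pool.Agent.W_448zz_h61.M265
import Pool.Agent.W_448zz_h61.M269
import Pool.Agent.W_448zz_h61.M272
import Pool.Agent.W_448zz_h61.M273
import Pool.Agent.W_448zz_h61.M275
import Pool.Agent.W_448zz_h61.M279
import Pool.Agent.W_448zz_h61.M280

/-! From `Pool.Agent.W_448fg_h53.FgK` -/

section

/-!
MP_448cb3_co, G2, case B, the windows `j - 1` and `j`: the lower bound of a fold row whose double over the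
third pair has two private children.  Here `j = i + 1`.  helper53.
-/

namespace Pool.Agent.GaussPoset.Win.W4

set_option linter.unusedSectionVars false

open Finset

universe u

variable {P : Type u} [Fintype P] [PartialOrder P] [DecidableEq P] {r i : ℕ}
variable {psi : P → P} {C K : Finset P} {w v : P} {m : ℕ} {x : ℕ → P}

namespace DLg

variable (h : DLg r i K psi C w v m x)
include h

/-- the value at the weights `W#`, window `j` part, two private children -/
theorem sharp4two (hm4 : 4 ≤ m) (hl : 0 ≤ NE i C x (m - 1)) (hd : (DE i C x 2).card = 2) :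
    -10 ≤ 2 * Lv i C - 3 * I2.al 2 (st i C).card (ZS i C) + 13 * wv i C := by
  have hU2 := h.W.ue_inner (k := 2) (by omega) (by omega)
  have h3 := h.TUs_le hm4
  have h4 := OCs_nonneg (i := i) (C := C) (w := w) (v := v)
  have hpos : ∀ k, 3 ≤ k → k < m → 0 ≤ NE i C x k := by
    intro k hk hk'
    rcases Nat.lt_or_ge (k + 1) m with h6 | h6
    · exact h.NE_nonneg (by omega) (by omega)
    · have : k = m - 1 := by omega
      rw [this]
      exact hl
  have p3 := hpos 3 le_rfl (by omega)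
  have q1 := QS_three' (NE i C x) (s := 3) (t := m) (by omega) hpos
  have e2 : NE i C x 2 = ((DE i C x 2).card : ℤ) := by
    unfold NE
    rw [hU2, card_empty]
    push_cast
    ring
  have hp : pen (x 2) = ∅ := h.W.pen0 2 le_rfl (by omega)
  have t1 : ((TUs i C x).card : ℤ) ≤ 1 := by exact_mod_cast h3
  have t2 : (0 : ℤ) ≤ ((TLs i C x).card : ℤ) := by positivity
  have t3 := two_sq_sub (NE i C x 0 + (uc (x 0)).card - 1)
  rw [h.L_form hm4, h.Zs_eq hm4, h.al2_form hp, h.w3_eq, e2]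
  rcases h.CH2_num with ⟨d, c⟩ | ⟨d, c⟩ | ⟨d, c⟩
  · omega
  · omega
  · rw [d]
    push_cast
    linarith

end DLg

end Pool.Agent.GaussPoset.Win.W4

namespace Pool.Agent.GaussPoset.EK

set_option linter.unusedSectionVars false

open Finset Win St Polynomial Wd Win.W4
open Pool.Agent.GaussPoset.Win.SO (PN vp mem_PN)
open Pn

universe u

variable {P : Type u} [Fintype P] [PartialOrder P] [DecidableEq P] {r i : ℕ}

variable {m : ℕ} {x : ℕ → P} {c : ℕ → ℤ} {t : Tops P} {lo hi : ℕ → ℕ} {e : ℕ → ℕ → P}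

namespace FoldDL

variable (F : FoldDL P r i t m x c lo hi e)
include F

/-- the value of a fold row with two private children over the third pair -/
theorem own_two (hm4 : 4 ≤ m)
    (hN : (DE (i + 1) (cext (i + 1 + 1) (topOf : P → Tops P) t) x 2).card = 2) :
    -6 ≤ own ⟨-1, 9, 1, 4, 3, -1, 2, 13, 0⟩ i (i + 1) t := by
  classical
  obtain ⟨K, psi, R⟩ := exists_red P (i + 1)
  obtain ⟨w, v, D⟩ := F.dlg R
  have ho := F.own_sharp
  have hlast := F.UE_last
  have hl : 0 ≤ NE (i + 1) (cext (i + 1 + 1) (topOf : P → Tops P) t) x (m - 1) := by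
    unfold NE
    rw [hlast, card_empty]
    push_cast
    omega
  have g := D.sharp4two hm4 hl hN
  have hn := F.N1f_ge (Or.inr hm4)
  have hn' : wv (i + 1) (cext (i + 1 + 1) (topOf : P → Tops P) t) + 1 ≤
      ((SO.N1f i (SS i t)).card : ℤ) := by
    rw [← W1.SS_eq F.h rfl]
    exact hn
  rw [F.Lv_ge.2.2, hN] at hn'
  push_cast at hn'
  rw [ho]
  linarith

end FoldDL

end Pool.Agent.GaussPoset.EK

end

/-! From `Pool.Agent.W_448fg_h53.FgL` -/

section

/-!
MP_448cb3_co, G2, case B, the windows `j - 1` and `j`: THE LEAF `HFoldV` ([DL] at a fold end).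
Here `j = i + 1`.  helper53.
-/

namespace Pool.Agent.GaussPoset.EK

set_option linter.unusedSectionVars false

open Finset Win St Polynomial Wd Win.W4

universe u

variable {P : Type u} [Fintype P] [PartialOrder P] [DecidableEq P]

/-- THE LEAF: [DL] at a fold end -/
theorem hfoldv : HFoldV P := by
  classical
  intro r i K psi t m x c β lo hi e hi1 hC R B C S ev hm hx hD
  obtain ⟨hb, c0, c1, c2⟩ := hD
  subst hb
  have F : FoldDL P r i t m x c lo hi e := ⟨hC.nj, hi1, B, C, S, ev, hm, hx, c0, c1, c2⟩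
  have hz := F.shr_zero Wsh
  have hV : Vt i t = 2 * Pn.own Wsh i (i + 1) t := by
    unfold Vt
    rw [hz, add_zero]
  obtain ⟨w, v, D⟩ := F.dlg R
  rcases F.tri with h1 | ⟨h1, z, y, s, Sd, hy, huy, h5⟩ | ⟨hm4, hN⟩
  · left
    rw [hV]
    unfold Wsh
    linarith
  · right; right
    refine ⟨?_, z, y, s, Sd, hy, ?_, h5⟩
    · rw [hV]
      unfold Wsh
      linarith
    · rw [hy, fg_sa hC.nj R D.Q, D.hw, D.hv, huy, if_neg, if_neg]
      · norm_num
      · rw [disjoint_left]
        push Not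
        exact ⟨x 1, mem_insert_self _ _, mem_insert_of_mem (mem_singleton_self _)⟩
      · rw [disjoint_left]
        push Not
        exact ⟨x 0, mem_insert_self _ _, mem_insert_self _ _⟩
  · right; left
    refine ⟨?_, ?_, ?_⟩
    · have h2 := F.own_two hm4 hN
      rw [hV]
      unfold Wsh
      linarith
    · have e3 : v3 (i + 1) t = wv (i + 1) (cext (i + 1 + 1) (topOf : P → Tops P) t) := rfl
      have hU2 := D.W.ue_inner (k := 2) (by omega) (by omega)
      rw [e3, D.w3_eq]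
      unfold NE
      rw [hU2, card_empty, hN]
      norm_num
    · intro z y s Sd hys
      obtain ⟨g1, g2⟩ := F.no_heavy R hN Sd
      rcases hys with h6 | h6
      · rw [g1 h6, zero_mul]
      · rw [g2 h6, mul_zero]

end Pool.Agent.GaussPoset.EK

end

/-! From `Pool.Agent.W_448fg_h53.FgM` -/

section

/-!
MP_448cb3_co, G2, case B, the windows `j - 1` and `j`: the quadratic form of a fold row (the functional
`W# + w32 + 2 F6`).  Here `j = i + 1`.  helper53.
-/

namespace Pool.Agent.GaussPoset.Win.W4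

set_option linter.unusedSectionVars false

open Finset

universe u

variable {P : Type u} [Fintype P] [PartialOrder P] [DecidableEq P] {r i : ℕ}
variable {psi : P → P} {C K : Finset P} {w v : P} {m : ℕ} {x : ℕ → P}

namespace DLg

variable (h : DLg r i K psi C w v m x)
include h

/-- the value at the weights `W#`, window `j` part, two private children, all terms -/
theorem sharp4two' (hm4 : 4 ≤ m) (hl : 0 ≤ NE i C x (m - 1)) (hd : (DE i C x 2).card = 2) :
    2 * (NE i C x 0 + (uc (x 0)).card - 1) ^ 2 - (NE i C x 0 + (uc (x 0)).card - 1) - 10 +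
      2 * OCs i C w v ≤
      2 * Lv i C - 3 * I2.al 2 (st i C).card (ZS i C) + 13 * wv i C := by
  have hU2 := h.W.ue_inner (k := 2) (by omega) (by omega)
  have h3 := h.TUs_le hm4
  have h4 := OCs_nonneg (i := i) (C := C) (w := w) (v := v)
  have hpos : ∀ k, 3 ≤ k → k < m → 0 ≤ NE i C x k := by
    intro k hk hk'
    rcases Nat.lt_or_ge (k + 1) m with h6 | h6
    · exact h.NE_nonneg (by omega) (by omega)
    · have : k = m - 1 := by omega
      rw [this]
      exact hl
  have p3 := hpos 3 le_rfl (by omega)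
  have q1 := QS_three' (NE i C x) (s := 3) (t := m) (by omega) hpos
  have e2 : NE i C x 2 = ((DE i C x 2).card : ℤ) := by
    unfold NE
    rw [hU2, card_empty]
    push_cast
    ring
  have hp : pen (x 2) = ∅ := h.W.pen0 2 le_rfl (by omega)
  have t1 : ((TUs i C x).card : ℤ) ≤ 1 := by exact_mod_cast h3
  have t2 : (0 : ℤ) ≤ ((TLs i C x).card : ℤ) := by positivity
  rw [h.L_form hm4, h.Zs_eq hm4, h.al2_form hp, h.w3_eq, e2]
  rcases h.CH2_num with ⟨d, c⟩ | ⟨d, c⟩ | ⟨d, c⟩
  · omega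
  · omega
  · rw [d]
    push_cast
    linarith

end DLg

end Pool.Agent.GaussPoset.Win.W4

namespace Pool.Agent.GaussPoset.EK

set_option linter.unusedSectionVars false

open Finset Win St Polynomial Wd Win.W4
open Pool.Agent.GaussPoset.Win.SO (PN vp mem_PN)
open Pn

universe u

variable {P : Type u} [Fintype P] [PartialOrder P] [DecidableEq P] {r i : ℕ}

variable {m : ℕ} {x : ℕ → P} {c : ℕ → ℤ} {t : Tops P} {lo hi : ℕ → ℕ} {e : ℕ → ℕ → P}

lemma two_quad (w : ℤ) : 0 ≤ 2 * w + 4 * w ^ 2 := by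
  rcases lt_or_ge w 0 with h | h
  · nlinarith
  · nlinarith

namespace FoldDL

variable (F : FoldDL P r i t m x c lo hi e)
include F

/-- THE QUADRATIC FORM of a fold row -/
theorem quad : 0 ≤ 2 * own ⟨-1, 9, 1, 4, 3, -1, 2, 13, 0⟩ i (i + 1) t +
      2 * wv (i + 1) (cext (i + 1 + 1) (topOf : P → Tops P) t) +
      4 * wv (i + 1) (cext (i + 1 + 1) (topOf : P → Tops P) t) ^ 2 ∨
    (-8 ≤ 2 * own ⟨-1, 9, 1, 4, 3, -1, 2, 13, 0⟩ i (i + 1) t +
      2 * wv (i + 1) (cext (i + 1 + 1) (topOf : P → Tops P) t) +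
      4 * wv (i + 1) (cext (i + 1 + 1) (topOf : P → Tops P) t) ^ 2 ∧
      ∃ z y s, K2.SD (i + 1) (topOf : P → Tops P) z y s ∧ topOf y = t ∧ uc y = {x 0, x 1} ∧
        z ∉ So.N5s i (topOf : P → Tops P)) := by
  classical
  have q := two_quad (wv (i + 1) (cext (i + 1 + 1) (topOf : P → Tops P) t))
  rcases F.tri with h1 | ⟨h1, h2⟩ | ⟨hm4, hN⟩
  · left
    linarith
  · right
    exact ⟨by linarith, h2⟩
  · obtain ⟨K, psi, R⟩ := exists_red P (i + 1)
    obtain ⟨w, v, D⟩ := F.dlg R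
    have ho := F.own_sharp
    have hlast := F.UE_last
    have hl : 0 ≤ NE (i + 1) (cext (i + 1 + 1) (topOf : P → Tops P) t) x (m - 1) := by
      unfold NE
      rw [hlast, card_empty]
      push_cast
      omega
    have g := D.sharp4two' hm4 hl hN
    have hn := F.N1f_ge (Or.inr hm4)
    have hn' : wv (i + 1) (cext (i + 1 + 1) (topOf : P → Tops P) t) + 1 ≤
        ((SO.N1f i (SS i t)).card : ℤ) := by
      rw [← W1.SS_eq F.h rfl]
      exact hn
    have hw := F.Lv_ge.2.2
    rw [hN] at hw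
    push_cast at hw
    rw [hw] at hn'
    rw [F.uc0] at g
    push_cast at g
    have hU := F.UE0
    have eN : NE (i + 1) (cext (i + 1 + 1) (topOf : P → Tops P) t) x 0 =
        ((DE (i + 1) (cext (i + 1 + 1) (topOf : P → Tops P) t) x 0).card : ℤ) - 1 := by
      unfold NE
      rw [hU]
      push_cast
      ring
    rw [eN] at g
    have hO := OCs_nonneg (i := i + 1) (C := cext (i + 1 + 1) (topOf : P → Tops P) t)
      (w := w) (v := v)
    have g5 := two_sq_sub (((DE (i + 1) (cext (i + 1 + 1) (topOf : P → Tops P) t) x 0).card : ℤ) - 1)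
    rcases Finset.eq_empty_or_nonempty
      (DE (i + 1) (cext (i + 1 + 1) (topOf : P → Tops P) t) x 0) with h0 | h0
    · left
      rw [h0, card_empty] at g
      push_cast at g
      rw [ho]
      rw [hw] at g ⊢
      linarith
    · rcases F.light D h0 with h5 | ⟨z, y, s, S, h5, h6⟩
      · left
        rw [ho]
        rw [hw] at g ⊢
        linarith
      · right
        refine ⟨?_, z, y, s, S, h5, h6, F.not_N5s S h6⟩
        rw [ho]
        rw [hw] at g ⊢
        linarith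

end FoldDL

end Pool.Agent.GaussPoset.EK

end

/-! From `Pool.Agent.W_448fg_h53.FgN` -/

section

/-!
MP_448cb3_co, G2, case B, the windows `j - 1` and `j`: the extra line of the leaf `HFoldV` for the
functional `W# + w32 + 2 F6`.  Here `j = i + 1`.  helper53.
-/

namespace Pool.Agent.GaussPoset.EK

set_option linter.unusedSectionVars false

open Finset Win St Polynomial Wd Win.W4

universe u

variable {P : Type u} [Fintype P] [PartialOrder P] [DecidableEq P]

/-- the extra line of the leaf [DL] at a fold end -/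
theorem hfoldq : ∀ (r i : ℕ) (K : Finset P) (psi : P → P) (t : Tops P) (m : ℕ) (x : ℕ → P)
    (c : ℕ → ℤ) (β : ℤ) (lo hi : ℕ → ℕ) (e : ℕ → ℕ → P), 1 ≤ i → CB P r (i + 1) →
    Red P (i + 1) K psi → RowB P (i + 1) t m x c β → Cp.Comp (i + 1) (t : P) lo hi e →
    StairShape (i + 1) lo hi → (i + 1) % 2 = 0 → 3 ≤ m → x 0 = e (i + 1) ((i + 1) / 2) →
    IsDL m c β →
    0 ≤ Vt i t + 2 * v3 (i + 1) t + 4 * v3 (i + 1) t ^ 2 ∨
      (-8 ≤ Vt i t + 2 * v3 (i + 1) t + 4 * v3 (i + 1) t ^ 2 ∧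
        ∃ z y v : P, K2.SD (i + 1) (topOf : P → Tops P) z y v ∧ topOf y = t ∧
          sa (i + 1) (topOf : P → Tops P) K (uc y) (topOf y) = 0 ∧
          z ∉ So.N5s i (topOf : P → Tops P)) := by
  classical
  intro r i K psi t m x c β lo hi e hi1 hC R B C S ev hm hx hD
  obtain ⟨hb, c0, c1, c2⟩ := hD
  subst hb
  have F : FoldDL P r i t m x c lo hi e := ⟨hC.nj, hi1, B, C, S, ev, hm, hx, c0, c1, c2⟩
  have hz := F.shr_zero Wsh
  have hV : Vt i t = 2 * Pn.own Wsh i (i + 1) t := by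
    unfold Vt
    rw [hz, add_zero]
  obtain ⟨w, v, D⟩ := F.dlg R
  have e3 : v3 (i + 1) t = wv (i + 1) (cext (i + 1 + 1) (topOf : P → Tops P) t) := rfl
  rw [hV, e3]
  unfold Wsh
  rcases F.quad with h1 | ⟨h1, z, y, s, Sd, hy, huy, h5⟩
  · left
    linarith
  · right
    refine ⟨by linarith, z, y, s, Sd, hy, ?_, h5⟩
    rw [hy, fg_sa hC.nj R D.Q, D.hw, D.hv, huy, if_neg, if_neg]
    · norm_num
    · rw [disjoint_left]
      push Not
      exact ⟨x 1, mem_insert_self _ _, mem_insert_of_mem (mem_singleton_self _)⟩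
    · rw [disjoint_left]
      push Not
      exact ⟨x 0, mem_insert_self _ _, mem_insert_self _ _⟩

end Pool.Agent.GaussPoset.EK

end

/-! From `Pool.Agent.W_448s7s_h5.TwG` -/

section

/-!
MP_448cb3_co, G2, case B, windows `j - 1` and `j`: the rows with three sites and a defect, from the
closed [DL] at the window `j - 1`.  helper5.
-/

namespace Pool.Agent.GaussPoset.Tw

set_option linter.unusedSectionVars false

open Finset Win Win.W4 Wd EK Win.Pn

universe u

variable {P : Type u} [Fintype P] [PartialOrder P] [DecidableEq P] {r j i : ℕ}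
  {t : Tops P} {lo hi : ℕ → ℕ} {e : ℕ → ℕ → P} {x : ℕ → P} {c : ℕ → ℤ} {β : ℤ}
  {K : Finset P} {psi : P → P}

/-- the triangle at the window `j` -/
theorem tri_Ow (h : NJ P r j) (hj : 2 ≤ j) (B : RowB P j t 2 x c 2) (c0 : c 0 = -1)
    (c1 : c 1 = -1) : 1 ≤ OwT j (cext (j + 1) (topOf : P → Tops P) t) := by
  have h1 := NJ.tri_own2 h hj B c0 c1
  unfold I2.bb I2.VV at h1
  exact h1

/-- ALL THE ROWS WITH THREE SITES AND A DEFECT, from the closed [DL] at the window `j - 1` -/
theorem three_of (h : NJ P r (i + 1)) (hi1 : 1 ≤ i) (C : Cp.Comp (i + 1) (t : P) lo hi e)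
    (hS : Shape (i + 1) lo hi) (R : Red P (i + 1) K psi) (B : RowB P (i + 1) t 2 x c β)
    (hd : ¬ (β = 0 ∧ ∀ k, k < 2 → c k = 0))
    (hD : ∀ (x : ℕ → P) (c : ℕ → ℤ) (β : ℤ), RowB P (i + 1) t 2 x c β → β = 0 → c 0 = 1 →
      c 1 = -1 → ¬ ((uc (x 0)).card = 1 ∧ (uc (x 2)).card = 1) → -13 ≤ V1 i t) :
    I2.w3 (I2.bb (i + 1) (i + 1 + 1) (topOf : P → Tops P) t)
      (I2.VV (i + 1) (i + 1 + 1) (topOf : P → Tops P) t) ≠ 0 ∧
    (-8 < Vs i t ∨ -16 < Vs i t ∧ ∀ z y v : P, K2.SD (i + 1) (topOf : P → Tops P) z y v →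
      (topOf y = t ∨ topOf v = t) → sa (i + 1) (topOf : P → Tops P) K (uc y) (topOf y) *
        sa (i + 1) (topOf : P → Tops P) K (uc v) (topOf v) = 0) :=
  all_three h hi1 C hS R B hd (fun x c B c0 c1 => by
    have := tri_Ow h (by omega) B c0 c1
    linarith) hD

end Pool.Agent.GaussPoset.Tw

end

/-! From `Pool.Agent.W_448s7s_h5.TwF` -/

section

/-!
MP_448cb3_co, G2, case B: the leaf `HTwo`.  helper5.
-/

namespace Pool.Agent.GaussPoset.EK

set_option linter.unusedSectionVars false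

open Finset Win St Polynomial Wd Win.W4

universe u

variable (P : Type u) [Fintype P] [PartialOrder P] [DecidableEq P]

/-- THE LEAF `HTwo`, from the closed [DL] at the window `j - 1` -/
theorem htwo_of (hD : ∀ (r i : ℕ) (t : Tops P) (x : ℕ → P) (c : ℕ → ℤ) (β : ℤ), 1 ≤ i →
    NJ P r (i + 1) → RowB P (i + 1) t 2 x c β → β = 0 → c 0 = 1 → c 1 = -1 →
    ¬ ((uc (x 0)).card = 1 ∧ (uc (x 2)).card = 1) → -13 ≤ Tw.V1 i t) : HTwo P := by
  intro r i K psi t x c β hi1 h R B hd
  have hn := h.nj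
  obtain ⟨lo, hi, e, C, hS⟩ := hsh (P := P) r (i + 1) hn.g
  exact Tw.three_of hn hi1 (C t) (hS t) R B hd (fun x c β B hβ c0 c1 hu =>
    hD r i t x c β hi1 hn B hβ c0 c1 hu)

end Pool.Agent.GaussPoset.EK

end

/-! From `Pool.Agent.W_448s7s_h5.TwK` -/

section

/-!
MP_448cb3_co, G2, case B: the leaf `HTwo` (rows with three sites).  helper5.
-/

namespace Pool.Agent.GaussPoset.EK

set_option linter.unusedSectionVars false

open Finset Win St Polynomial Wd Win.W4

universe u

variable (P : Type u) [Fintype P] [PartialOrder P] [DecidableEq P]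

/-- THE LEAF `HTwo`: the rows with three sites -/
theorem htwo : HTwo P := by
  refine htwo_of P ?_
  intro r i t x c β hi1 h B _ c0 c1 hu
  have h1 : -12 ≤ Tw.V1 i t := h.dl_closed rfl hi1 B c0 c1 hu
  linarith

end Pool.Agent.GaussPoset.EK

end

/-! From `Pool.Agent.W_448s7s_h5.TwI` -/

section

/-!
MP_448cb3_co, G2, case B, STEP 0: `0 ≤ A + 2 W + 4 W ^ 2` for the rows with three sites and a defect,
except the pattern R without pendants.  helper5.
-/

namespace Pool.Agent.GaussPoset.Tw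

set_option linter.unusedSectionVars false

open Finset Win Win.W4 Wd EK Win.Pn

universe u

variable {P : Type u} [Fintype P] [PartialOrder P] [DecidableEq P] {r j i : ℕ}
  {t : Tops P} {lo hi : ℕ → ℕ} {e : ℕ → ℕ → P} {x : ℕ → P} {c : ℕ → ℤ} {β : ℤ} {p : P}
  {K : Finset P} {psi : P → P}

/-- the class (3,2) of a part -/
noncomputable def W3 (j : ℕ) (t : Tops P) : ℤ :=
  I2.w3 (I2.bb j (j + 1) (topOf : P → Tops P) t) (I2.VV j (j + 1) (topOf : P → Tops P) t)

/-- the pattern R without pendants -/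
def R000 (j : ℕ) (t : Tops P) : Prop :=
  ∃ (x : ℕ → P) (c : ℕ → ℤ), RowB P j t 2 x c 1 ∧ c 0 = -1 ∧ c 1 = 0 ∧
    ∀ k, k ≤ 2 → pen (x k) = ∅

lemma q1_of {A W : ℤ} (h : 0 ≤ A ∨ (-2 ≤ A ∧ W = -1)) : 0 ≤ A + 2 * W + 4 * W ^ 2 := by
  rcases h with h | ⟨h, rfl⟩
  · have h1 : 0 ≤ 2 * W + 4 * W ^ 2 := by
      rcases le_or_gt W (-1) with h2 | h2
      · nlinarith
      · have : 0 ≤ W := by linarith
        nlinarith
    linarith
  · linarith

/-- THE PATTERN R with three sites -/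
theorem r2_q1 (h : NJ P r (i + 1)) (hi1 : 1 ≤ i) (C : Cp.Comp (i + 1) (t : P) lo hi e)
    (hS : Shape (i + 1) lo hi) (R : Red P (i + 1) K psi) (B : RowB P (i + 1) t 2 x c β)
    (hβ : β = 1) (c0 : c 0 = -1) (c1 : c 1 = 0) :
    0 ≤ Vs i t + 2 * W3 (i + 1) t + 4 * W3 (i + 1) t ^ 2 ∨ R000 (i + 1) t := by
  obtain ⟨w, v, D⟩ := NJ.r2 h (by omega) R B hβ c0 c1
  have h1 := D.Ow_ge2
  have h2 := open_Vs h hi1 C hS B D.u0 D.u2
  have W := D.W
  have n01 : x 0 ≠ x 1 := W.ne (by omega) (by omega) (by omega)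
  have n12 : x 1 ≠ x 2 := W.ne (by omega) (by omega) (by omega)
  have n02 : x 0 ≠ x 2 := W.ne (by omega) (by omega) (by omega)
  have hst : st (i + 1) (cext (i + 1 + 1) (topOf : P → Tops P) t) = {x 2, x 0, x 1} := by
    rw [W.st_three]
    ext y
    simp only [mem_insert, mem_singleton]
    tauto
  have h3 := D.Q.three_w3 D.hw D.hv n02.symm n01 n12.symm hst
  have hW : W3 (i + 1) t = -1 := by
    unfold W3 I2.bb I2.VV
    exact h3
  by_cases hp : pen (x 0) = ∅ ∧ pen (x 1) = ∅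
  · right
    refine ⟨x, c, by rw [← hβ]; exact B, c0, c1, fun k hk => ?_⟩
    have hk3 : k = 0 ∨ k = 1 ∨ k = 2 := by omega
    rcases hk3 with rfl | rfl | rfl
    · exact hp.1
    · exact hp.2
    · have D2 := W.deg (k := 2) (by omega)
      have L2 := W.dc_le (k := 2) (by omega)
      have d21 := kf_dcv_comm (x 2) (x 1)
      have d20 := kf_dcv_comm (x 2) (x 0)
      rw [D.d12] at d21
      rw [D.d02] at d20
      rw [(sum_er3 _).2.2, d20, d21] at D2
      rw [← card_eq_zero]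
      omega
  · left
    refine q1_of (Or.inr ⟨?_, hW⟩)
    have h5 : 1 ≤ (pen (x 0)).card + (pen (x 1)).card := by
      by_contra hcon
      exact hp ⟨card_eq_zero.1 (by omega), card_eq_zero.1 (by omega)⟩
    have h6 : (1 : ℤ) ≤ (pen (x 0)).card + (pen (x 1)).card := by exact_mod_cast h5
    have h7 : (0 : ℤ) ≤ (pen (x 0)).card := by positivity
    linarith

/-- [DL] with three sites, from the value of the window `j - 1` -/
theorem dl2_q1 (h : NJ P r (i + 1)) (hi1 : 1 ≤ i) (C : Cp.Comp (i + 1) (t : P) lo hi e)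
    (hS : Shape (i + 1) lo hi) (R : Red P (i + 1) K psi) (B : RowB P (i + 1) t 2 x c β)
    (hβ : β = 0) (c0 : c 0 = 1) (c1 : c 1 = -1)
    (hV : (uc (x 0)).card = 2 → -16 ≤ V1 i t)
    (hV' : (uc (x 0)).card = 1 → (uc (x 2)).card = 2 → -8 * ((pen (x 2)).card : ℤ) ≤ V1 i t) :
    0 ≤ Vs i t + 2 * W3 (i + 1) t + 4 * W3 (i + 1) t ^ 2 := by
  obtain ⟨w, v, D⟩ := NJ.dl2 h (by omega) R B hβ c0 c1
  have h1 := D.Ow_ge
  have W := D.W
  have n01 : x 0 ≠ x 1 := W.ne (by omega) (by omega) (by omega)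
  have n12 : x 1 ≠ x 2 := W.ne (by omega) (by omega) (by omega)
  have n02 : x 0 ≠ x 2 := W.ne (by omega) (by omega) (by omega)
  have h3 := D.Q.three_w3 D.hw D.hv n01 n12 n02 W.st_three
  have hW : W3 (i + 1) t = -1 := by
    unfold W3 I2.bb I2.VV
    exact h3
  have hp : 1 ≤ (pen (x 2)).card := by
    have D2 := W.deg (k := 2) (by omega)
    have d21 := kf_dcv_comm (x 2) (x 1)
    have d20 := kf_dcv_comm (x 2) (x 0)
    rw [D.d12] at d21
    rw [D.d02] at d20
    rw [(sum_er3 _).2.2, d20, d21] at D2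
    have hl := W.lev_x 2 (by omega)
    have hr := h.hr
    obtain ⟨z, hz⟩ := dc_nonempty h.g.H (x := x 2) (by omega)
    have h5 := card_pos.2 ⟨z, hz⟩
    omega
  have hp' : (1 : ℤ) ≤ (pen (x 2)).card := by exact_mod_cast hp
  have h6 := Vs_eq i t
  have U0 := W.uc_le (k := 0) (by omega)
  have U2 := W.uc_le (k := 2) (by omega)
  refine q1_of (Or.inr ⟨?_, hW⟩)
  have c0' : (uc (x 0)).card = 1 ∨ (uc (x 0)).card = 2 := by omega
  have c2' : (uc (x 2)).card = 1 ∨ (uc (x 2)).card = 2 := by omega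
  rcases c0' with u0 | u0
  · rcases c2' with u2 | u2
    · have := open_V1 h rfl hi1 C hS B u0 u2
      rw [u0, u2] at h1
      push_cast at h1
      linarith
    · have := hV' u0 u2
      rw [u0, u2] at h1
      push_cast at h1
      linarith
  · have := hV u0
    rw [u0] at h1
    have h7 : (1 : ℤ) ≤ (uc (x 2)).card := by
      have : 1 ≤ (uc (x 2)).card := by omega
      exact_mod_cast this
    push_cast at h1
    linarith

/-- THE TRIANGLE -/
theorem rr_q1 (h : NJ P r (i + 1)) (hi1 : 1 ≤ i) (C : Cp.Comp (i + 1) (t : P) lo hi e)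
    (hS : Shape (i + 1) lo hi) (B : RowB P (i + 1) t 2 x c β) (hβ : β = 2) (c0 : c 0 = -1)
    (c1 : c 1 = -1) : 0 ≤ Vs i t + 2 * W3 (i + 1) t + 4 * W3 (i + 1) t ^ 2 := by
  obtain ⟨u0, u2⟩ := B.ends (by rw [hβ]; norm_num)
  have h1 := open_Vs h hi1 C hS B u0 u2
  subst hβ
  have h2 := tri_Ow h (by omega) B c0 c1
  exact q1_of (Or.inl (by linarith))

/-- ALL THE ROWS WITH THREE SITES AND A DEFECT -/
theorem all_q1 (h : NJ P r (i + 1)) (hi1 : 1 ≤ i) (C : Cp.Comp (i + 1) (t : P) lo hi e)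
    (hS : Shape (i + 1) lo hi) (R : Red P (i + 1) K psi) (B : RowB P (i + 1) t 2 x c β)
    (hd : ¬ (β = 0 ∧ ∀ k, k < 2 → c k = 0))
    (hV : ∀ (x : ℕ → P) (c : ℕ → ℤ) (β : ℤ), RowB P (i + 1) t 2 x c β → β = 0 → c 0 = 1 →
      c 1 = -1 → (uc (x 0)).card = 2 → -16 ≤ V1 i t)
    (hV' : ∀ (x : ℕ → P) (c : ℕ → ℤ) (β : ℤ), RowB P (i + 1) t 2 x c β → β = 0 → c 0 = 1 →
      c 1 = -1 → (uc (x 0)).card = 1 → (uc (x 2)).card = 2 →
      -8 * ((pen (x 2)).card : ℤ) ≤ V1 i t) :
    0 ≤ Vs i t + 2 * W3 (i + 1) t + 4 * W3 (i + 1) t ^ 2 ∨ R000 (i + 1) t := by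
  rcases B.pat with p1 | ⟨-, p1, p2, p3⟩ | ⟨-, p1, p2, p3⟩ | ⟨-, p1, p2, p3, p4⟩ |
    ⟨-, p1, p2, p3, p4⟩ | p1 | ⟨-, p1, p2, p3⟩ | p1
  · exact absurd p1 hd
  · exact r2_q1 h hi1 C hS R B p1 p2 (p3 1 le_rfl (by omega))
  · exact r2_q1 h hi1 C hS R B.rev p1 p2 (p3 0 (by omega))
  · exact Or.inl (dl2_q1 h hi1 C hS R B p1 p2 p3 (hV x c β B p1 p2 p3) (hV' x c β B p1 p2 p3))
  · exact Or.inl (dl2_q1 h hi1 C hS R B.rev p1 p2 p3 (hV _ _ β B.rev p1 p2 p3)
      (hV' _ _ β B.rev p1 p2 p3))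
  · have := p1.1
    omega
  · exact Or.inl (rr_q1 h hi1 C hS B p1 p2 p3)
  · have := p1.1
    omega

end Pool.Agent.GaussPoset.Tw

end

/-! From `Pool.Agent.W_448s7s_h5.TwL` -/

section

/-!
MP_448cb3_co, G2, case B, STEP 0: the rows with three sites and a defect, `0 ≤ A + 2 W + 4 W ^ 2` or the
pattern R without pendants.  helper5.
-/

namespace Pool.Agent.GaussPoset.EK

set_option linter.unusedSectionVars false

open Finset Win St Polynomial Wd Win.W4

universe u

variable {P : Type u} [Fintype P] [PartialOrder P] [DecidableEq P] {r i : ℕ}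
  {t : Tops P} {x : ℕ → P} {c : ℕ → ℤ} {β : ℤ} {K : Finset P} {psi : P → P}

/-- THE ROWS WITH THREE SITES AND A DEFECT -/
theorem NJ.q1_three (h : NJ P r (i + 1)) (hi1 : 1 ≤ i) (R : Red P (i + 1) K psi)
    (B : RowB P (i + 1) t 2 x c β) (hd : ¬ (β = 0 ∧ ∀ k, k < 2 → c k = 0)) :
    0 ≤ Vt i t + 2 * v3 (i + 1) t + 4 * v3 (i + 1) t ^ 2 ∨ Tw.R000 (i + 1) t := by
  obtain ⟨lo, hi, e, C, hS⟩ := hsh (P := P) r (i + 1) h.g
  have key := Tw.all_q1 h hi1 (C t) (hS t) R B hd
    (fun x c β B _ c0 c1 hu => by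
      have h1 : -12 ≤ Tw.V1 i t := h.dl_closed rfl hi1 B c0 c1 (by rw [hu]; omega)
      linarith)
    (fun x c β B _ c0 c1 hu hu2 => by
      have h1 : -5 ≤ Tw.V1 i t := h.dl_V1 rfl hi1 B c0 c1 (by rw [hu, hu2])
      have W := NJ.prow h (by omega) B (by omega)
      obtain ⟨w, v, D⟩ := NJ.dl2 h (by omega) R B (by assumption) c0 c1
      have W := D.W
      have D2 := W.deg (k := 2) (by omega)
      have d21 := kf_dcv_comm (x 2) (x 1)
      have d20 := kf_dcv_comm (x 2) (x 0)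
      rw [D.d12] at d21
      rw [D.d02] at d20
      rw [(sum_er3 _).2.2, d20, d21] at D2
      have hl := W.lev_x 2 (by omega)
      have hr := h.hr
      obtain ⟨z, hz⟩ := dc_nonempty h.g.H (x := x 2) (by omega)
      have h5 := card_pos.2 ⟨z, hz⟩
      have h6 : (1 : ℤ) ≤ (pen (x 2)).card := by
        have : 1 ≤ (pen (x 2)).card := by omega
        exact_mod_cast this
      linarith)
  exact key

end Pool.Agent.GaussPoset.EK

end

/-! From `Pool.Agent.W_448s7s_h5.TwM` -/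

section

/-!
MP_448cb3_co, G2, case B, STEP 0: the input `HTwoQ` (rows with three sites).  helper5.
-/

namespace Pool.Agent.GaussPoset.EK

set_option linter.unusedSectionVars false

open Finset Win St Polynomial Wd Win.W4

universe u

variable (P : Type u) [Fintype P] [PartialOrder P] [DecidableEq P]

/-- INPUT of step 0: three sites with a defect -/
theorem htwoq : HTwoQ P := by
  intro r i K psi t x c β lo hi e h5 h8 _ _ h R C hS B hd
  have hn := h.nj
  rcases NJ.q1_three hn (by omega) R B hd with h1 | ⟨x', c', B', -, -, h2⟩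
  · exact Or.inl h1
  · exfalso
    rcases NJ.r3_pen hn h5 h8 C hS B' one_ne_zero with h3 | h3 | h3
    · exact h3 (h2 0 (by omega))
    · exact h3 (h2 1 (by omega))
    · exact h3 (h2 2 (by omega))

end Pool.Agent.GaussPoset.EK

end

/-! From `Pool.Agent.W_448kr_h10.KrE` -/

section

/-!
MP_448cb3_co, G2, case B, windows `j - 1` and `j`: THE LEAF `HOpen3` ([DL], four sites, both ends single,
the doubled edge at the low end of a late word).  Here `j = i + 1`.  helper10.
-/

namespace Pool.Agent.GaussPoset.EK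

set_option linter.unusedSectionVars false

open Finset Win St Polynomial Wd Win.W4

universe u

variable {P : Type u} [Fintype P] [PartialOrder P] [DecidableEq P] {r i : ℕ}

/-- the value of the row, fine form -/
theorem open3_altF {t : Tops P} {x : ℕ → P} {c : ℕ → ℤ} {β : ℤ} {lo hi : ℕ → ℕ}
    {e : ℕ → ℕ → P} {a : ℕ} (hi1 : 1 ≤ i) (h : NJ P r (i + 1)) (B : RowB P (i + 1) t 3 x c β)
    (C : Cp.Comp (i + 1) (t : P) lo hi e) (L : LateC (i + 1) a lo hi) (hD : IsDL 3 c β)
    (u0 : (uc (x 0)).card = 1) (u3 : (uc (x 3)).card = 1)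
    (hU : UE (i + 1) (cext (i + 1 + 1) (topOf : P → Tops P) t) x 2 = ∅)
    (hor : ∀ k, k ≤ 3 → x k = e (i + 1) (lo (i + 1) + k)) :
    0 < Vt i t ∨ (-6 ≤ Vt i t ∧ v3 (i + 1) t = 1) ∨
      (-12 ≤ Vt i t ∧ v3 (i + 1) t = 1 ∧ ∃ z y v : P, K2.SD (i + 1) (topOf : P → Tops P) z y v ∧
        topOf y = t ∧ (∀ (K : Finset P) (psi : P → P), Red P (i + 1) K psi →
          sa (i + 1) (topOf : P → Tops P) K (uc y) (topOf y) = 0) ∧
        z ∉ So.N5s i (topOf : P → Tops P)) := by
  obtain ⟨hb, c0, c1, c2⟩ := hD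
  obtain ⟨hlen, -⟩ := B.orient h (by omega) C
  have hx : ∀ k, k ≤ 3 → (fun k => e (i + 1) (hi (i + 1) - k)) k = e (i + 1) (hi (i + 1) - k) :=
    fun k _ => rfl
  have u3' : (uc ((fun k => e (i + 1) (hi (i + 1) - k)) 0)).card = 1 := by
    rw [hor 3 le_rfl] at u3
    show (uc (e (i + 1) (hi (i + 1) - 0))).card = 1
    rw [Nat.sub_zero, hlen]
    exact u3
  have hw := r3_word h rfl hi1 C hlen hx L u3'
  have e2 : x 2 = e (i + 1) (hi (i + 1) - 1) := by
    rw [hor 2 (by omega), hlen]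
    rfl
  have hD : pen (x 2) = ∅ ∨ (R3.Oc i lo hi ∧ x 2 = e (i + 1) 2) := by
    rcases hw with hw | hw
    · left
      rw [e2]
      exact hw
    · right
      refine ⟨hw, ?_⟩
      rw [e2, hw.h0]
  exact R3.open3_fine h rfl hi1 B hb c0 c1 (c2 2 le_rfl (by omega)) C u0 u3 hU hD

/-- THE LEAF `HOpen3` -/
theorem hopen3 (P : Type u) [Fintype P] [PartialOrder P] [DecidableEq P] : HOpen3 P := by
  intro r i t x c β lo hi e a hi1 hC B C _ L hD u0 u3 hU hor
  rcases open3_altF hi1 hC.nj B C L hD u0 u3 hU hor with h1 | ⟨h1, h2⟩ | ⟨h1, h2, h3⟩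
  · exact Or.inl h1
  · refine Or.inr (Or.inl ⟨by linarith, ?_⟩)
    rw [h2]
    norm_num
  · refine Or.inr (Or.inr ⟨by linarith, ?_, h3⟩)
    rw [h2]
    norm_num

end Pool.Agent.GaussPoset.EK

end

/-! From `Pool.Agent.W_448kr_h10.KrF` -/

section

/-!
MP_448cb3_co, G2, case B, STEP 0: THE LEAF `HOpen3Q` ([DL], four sites, both ends single, the doubled edge
at the low end of a late word).  Here `j = i + 1`.  helper10.
-/

namespace Pool.Agent.GaussPoset.EK

set_option linter.unusedSectionVars false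

open Finset Win St Polynomial Wd Win.W4

universe u

variable {P : Type u} [Fintype P] [PartialOrder P] [DecidableEq P] {r i : ℕ}

/-- THE LEAF `HOpen3Q` OF STEP 0 -/
theorem hopen3q (P : Type u) [Fintype P] [PartialOrder P] [DecidableEq P] : HOpen3Q P := by
  intro r i K psi t x c β lo hi e a h5 _ hC R B C _ L hD u0 u3 hU hor
  rcases open3_altF (by omega) hC.nj B C L hD u0 u3 hU hor with h1 | ⟨h1, h2⟩ | ⟨h1, h2, h3⟩
  · left
    have h4 : (0 : ℤ) ≤ 2 * v3 (i + 1) t + 4 * v3 (i + 1) t ^ 2 := by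
      rcases lt_or_ge (v3 (i + 1) t) 0 with h | h <;> nlinarith
    unfold Qt
    linarith
  · left
    unfold Qt
    rw [h2]
    linarith
  · right
    obtain ⟨z, y, v, h4, h5, h6, h7⟩ := h3
    refine ⟨?_, z, y, v, h4, h5, h6 K psi R, h7⟩
    unfold Qt
    rw [h2]
    linarith

end Pool.Agent.GaussPoset.EK

end

/-! From `Pool.Agent.W_448nv_h97.NvE` -/

section

/-!
MP_448cb3_co, G2, case B: THE VALUE OF THE NATURAL PARTS for the weights `Wsh`, all sizes.  helper97.
-/

set_option autoImplicit false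

namespace Pool.Agent.GaussPoset.EK

set_option linter.unusedSectionVars false

open Finset Win St Polynomial Wd Win.W4

universe u

variable {P : Type u} [Fintype P] [PartialOrder P] [DecidableEq P] {r i j : ℕ}
  {t : Tops P} {m : ℕ} {x : ℕ → P} {c : ℕ → ℤ} {β : ℤ}

/-- THE VALUE of a natural part -/
theorem NJ.nat_all (h : NJ P r j) (hij : i + 1 = j) (hi1 : 1 ≤ i) {lo hi : Tops P → ℕ → ℕ}
    {e : Tops P → ℕ → ℕ → P} (C : ∀ t : Tops P, Cp.Comp (i + 1) (t : P) (lo t) (hi t) (e t))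
    (hS : ∀ t : Tops P, Shape (i + 1) (lo t) (hi t)) (B : RowB P j t m x c β)
    (hβ : β = 0) (hc : ∀ k, k < m → c k = 0) :
    0 ≤ 2 * Pn.own ⟨-1, 9, 1, 4, 3, -1, 2, 13, 0⟩ i j t +
      ∑ p ∈ (PD P i).filter (fun p => (topOf p : Tops P) = t),
        Pn.shr ⟨-1, 9, 1, 4, 3, -1, 2, 13, 0⟩ i p := by
  classical
  have hn : NatT j (t : P) := RowB.nat_of h B hc hβ
  rcases Nat.lt_or_ge (st i (SS i t)).card 4 with h4 | h4
  · rcases Finset.eq_empty_or_nonempty (SO.F5 i (SS i t)) with hF | hF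
    · exact Pn.small_nonneg h hij hi1 hn (by omega) hF
    · exact Pf.nat_flip h hij hi1 C hS hn hF.ne_empty
  · exact Wd.NJ.nat_big h hij hi1 B hβ hc h4

end Pool.Agent.GaussPoset.EK

end

/-! From `Pool.Agent.W_448nv_h97.NvF` -/

section

/-!
MP_448cb3_co, G2, case B: THE LEAF `HNat` (helper16's `FnQ`).  helper97.
-/

set_option autoImplicit false

namespace Pool.Agent.GaussPoset.EK

set_option linter.unusedSectionVars false

open Finset Win St Polynomial Wd Win.W4

universe u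

variable (P : Type u) [Fintype P] [PartialOrder P] [DecidableEq P]

/-- THE LEAF: natural rows -/
theorem hnat : HNat P := by
  intro r i t m x c β hi1 h B hβ hc
  obtain ⟨lo, hi, e, C, hS⟩ := hsh (P := P) r (i + 1) h.nj.g
  exact NJ.nat_all h.nj rfl hi1 C hS B hβ hc

end Pool.Agent.GaussPoset.EK

end
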