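import Mathlib
import Pool.Agent.W_448zz_h61.Ns
import Pool.Agent.W_448zz_h61.M269
import Pool.Agent.W_448zz_h61.M272

/-! From `Pool.Agent.W_448op_h53.R3a` -/

section

/-!
# MP_448cb3_co, case B, STEP 0 at the level 8: the rotated rows with four sites, functional
`W_a = <-1, 7, 1, 2, 1, 1, 1, 7, 1>` (helper53, after helper80)
-/

namespace Pool.Agent.GaussPoset.Win.W4

set_option linter.unusedSectionVars false

open Finset
open Pool.Agent.GaussPoset.Win.SO (PN vp con on mem_PN vp_PD vp_PU)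

universe u

variable {P : Type u} [Fintype P] [PartialOrder P] [DecidableEq P] {r i : ℕ}
variable {psi : P → P} {C K : Finset P} {w v : P} {x : ℕ → P}

/-- the arithmetic -/
lemma R3a_ar (n0 n1 n2 n2' n3 p1 : ℕ) (c1 c2 z s : ℤ) (h0 : n0 + n2' ≤ 1) (h1 : n1 ≤ 2)
    (h2 : n2 ≤ 2) (hp : p1 ≤ 1) (hq : n2' = 1 → p1 = 0)
    (hc1 : c1 ≤ 2 * s + n1 * (n1 - 1)) (hs : s ≤ if n1 = 0 then 0 else if n1 = 1 then 2 else 3)
    (hc2 : (n2 : ℤ) * (n2 - 1) ≤ c2) (hz : 0 ≤ z) :
    4 ≤ ((-(n0 : ℤ) + n1 + (n2 - n2') + n3) + (-(n0 : ℤ) + n1 + (n2 - n2') + n3) ^ 2 -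
      2 * (-(n0 : ℤ)) * (n2 - n2') - 2 * n1 * n3 -
      2 * p1 * (-(n0 : ℤ) + n1 + (n2 - n2') + n3) + ((p1 : ℤ) ^ 2 - p1) + 2 + 2 * 1 +
      2 * z - c1 + c2 - 2 * (-(n0 : ℤ) + (n2 - n2') - n1 - n3) -
      (n1 - (n2 - n2') - 1) * (4 + 2 * 1 + 2 * p1)) +
      7 * ((n1 : ℤ) - (n2 - n2') - 1) + ((n1 : ℤ) - (n2 - n2') - 1) ^ 2 + 2 * n1 := by
  have q3 : n3 = 0 ∨ n3 = 1 ∨ 2 ≤ n3 := by omega
  have f3 : (4 : ℤ) * n3 - 4 ≤ (n3 : ℤ) ^ 2 := by nlinarith [sq_nonneg ((n3 : ℤ) - 2)]
  have q0 : (n0 = 0 ∧ n2' = 0) ∨ (n0 = 1 ∧ n2' = 0) ∨ (n0 = 0 ∧ n2' = 1 ∧ p1 = 0) := by omega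
  have q1 : n1 = 0 ∨ n1 = 1 ∨ n1 = 2 := by omega
  have q2 : n2 = 0 ∨ n2 = 1 ∨ n2 = 2 := by omega
  have qp : p1 = 0 ∨ p1 = 1 := by omega
  rcases q0 with ⟨rfl, rfl⟩ | ⟨rfl, rfl⟩ | ⟨rfl, rfl, rfl⟩
  · rcases q1 with rfl | rfl | rfl <;> rcases q2 with rfl | rfl | rfl <;>
      rcases qp with rfl | rfl <;> norm_num at hc1 hs hc2 ⊢ <;>
      rcases q3 with rfl | rfl | q3 <;> (norm_num; linarith)
  · rcases q1 with rfl | rfl | rfl <;> rcases q2 with rfl | rfl | rfl <;>
      rcases qp with rfl | rfl <;> norm_num at hc1 hs hc2 ⊢ <;>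
      rcases q3 with rfl | rfl | q3 <;> (norm_num; linarith)
  · rcases q1 with rfl | rfl | rfl <;> rcases q2 with rfl | rfl | rfl <;>
      norm_num at hc1 hs hc2 ⊢ <;>
      rcases q3 with rfl | rfl | q3 <;> (norm_num; linarith)

/-- THE OWN PART AT THE WINDOW `j` of a rotated row with four sites -/
theorem Rg.owna_ge (h : Rg r i K psi C w v x) (hp0 : pen (x 0) ≠ ∅)
    (hp1 : UE i C x 2 ≠ ∅ → pen (x 1) = ∅) (hU : ∀ z ∈ UE i C x 2, ch i C z ≤ 0) :
    4 ≤ Lv i C + 7 * wv i C + wv i C ^ 2 + 2 * ((DE i C x 1).card : ℤ) := by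
  classical
  have W := h.W
  have c1 : CH i C x 1 ≤ 2 * ∑ a ∈ DE i C x 1, ((pen a).card : ℤ) +
      (DE i C x 1).card * ((DE i C x 1).card - 1) := by
    rw [W.CH_split, W.sum_DE (by omega) h.dcv12, h.UE1, Finset.sum_empty, add_zero, mul_sum]
  obtain ⟨b1, b2⟩ := W.sum_pen_le (k := 1) (by omega) h.dcv12
  obtain ⟨b3, -⟩ := W.sum_pen_le (k := 2) (by omega) h.dcv23
  have c2 : ((DE i C x 2).card : ℤ) * ((DE i C x 2).card - 1) ≤ CH i C x 2 := by
    rw [W.CH_split, W.sum_DE (by omega) h.dcv23]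
    have g1 : 0 ≤ ∑ a ∈ DE i C x 2, (2 * ((pen a).card : ℤ)) :=
      sum_nonneg fun a _ => by positivity
    have g2 : 0 ≤ ∑ z ∈ UE i C x 2, vp i z * ch i C z := by
      refine sum_nonneg fun z hz => ?_
      rw [vp_PU (mem_UE.1 hz).2.1]
      have := hU z hz
      linarith
    linarith
  have u02 := W.ue_sum (i := i) (C := C) 0 2 (by omega) (by omega) (by omega)
  have h9 := card_le_card (T4_subset i C)
  have hp0' := W.dc_le (k := 0) (by omega)
  have hd0 := h.deg0
  have hd1 := h.deg1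
  have hp1' := W.dc_le (k := 1) (by omega)
  have p0 : (pen (x 0)).card = 1 := by
    have := card_pos.2 (nonempty_iff_ne_empty.2 hp0)
    omega
  have e2 : NE i C x 2 = ((DE i C x 2).card : ℤ) - (UE i C x 2).card := rfl
  have hz : (0 : ℤ) ≤ (Z4 i C).card - (T4 i C).card := by
    have : ((T4 i C).card : ℤ) ≤ (Z4 i C).card := by exact_mod_cast h9
    linarith
  have key := R3a_ar (UE i C x 0).card (DE i C x 1).card (DE i C x 2).card (UE i C x 2).card
    (DE i C x 3).card (pen (x 1)).card (CH i C x 1) (CH i C x 2)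
    ((Z4 i C).card - (T4 i C).card) (∑ a ∈ DE i C x 1, ((pen a).card : ℤ)) u02 b1 b3 (by omega)
    (fun h1 => by
      rw [hp1 (fun h2 => by rw [h2, card_empty] at h1; omega), card_empty]) c1 b2 c2 hz
  rw [h.w3_eq, h.L_form, h.NE0, h.NE1, e2, h.NE3, p0]
  push_cast
  linarith

end Pool.Agent.GaussPoset.Win.W4

namespace Pool.Agent.GaussPoset.R3

set_option linter.unusedSectionVars false

open Finset Win St Wd Win.W4 EK
open Pool.Agent.GaussPoset.Win.Pn
open Pool.Agent.GaussPoset.Win.Pf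
open Pool.Agent.GaussPoset.Win.SO (N1f mem_N1f N5f F5 mem_F5)
open Pool.Agent.GaussPoset.Win.Rd (sts_bi)

universe u

variable {P : Type u} [Fintype P] [PartialOrder P] [DecidableEq P] {r j i : ℕ}
  {t : Tops P} {lo hi : ℕ → ℕ} {e : ℕ → ℕ → P} {x : ℕ → P} {c : ℕ → ℤ} {β : ℤ}

section row

variable (h : NJ P r j) (hij : i + 1 = j) (hi1 : 1 ≤ i) (B : RowB P j t 3 x c β)
include h hij hi1 B

/-- the own part of the window `j - 1` without a flip -/
lemma own1_openA (c1 : c 1 = 0) (u0 : (uc (x 0)).card = 1) (u3 : (uc (x 3)).card = 1)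
    (hF : F5 i (SS i t) = ∅) : 2 * ((N1f i (SS i t)).card : ℤ) ≤ own1 Wea i t := by
  have h3 := three h hij hi1 B u0 u3
  have hT := tws_R h hij hi1 B c1 u0 u3
  obtain ⟨-, v5, v6, v8, v10⟩ := W1.vals_open h hij hi1 t hT hF
  rw [nj_QQ_three h hij hi1 t (by omega) hF, nj_N5_three h hij hi1 t (by omega), card_empty] at v6
  rw [nj_N5_three h hij hi1 t (by omega), card_empty] at v10
  have e3 : A3 i t = I2.al 3 (st i (SS i t)).card (ZS i (SS i t)) := rfl
  have e5 : B5 i t = 0 := v5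
  have e6 : C6 i t = _ := v6
  have e8 : C8 i t = 0 := v8
  have e10 : C10 i t = _ := v10
  unfold own1
  rw [e5, e6, e8, e10, e3]
  simp only [Wea]
  push_cast
  set a := I2.al 3 (st i (SS i t)).card (ZS i (SS i t))
  have h1 : 0 ≤ a * (a - 1) := by
    rcases le_or_gt a 0 with h2 | h2
    · exact mul_nonneg_of_nonpos_of_nonpos h2 (by linarith)
    · exact mul_nonneg (by linarith) (by linarith)
  nlinarith

/-- the share of the pendant if there is no flip -/
lemma shr_openA (C : Cp.Comp (i + 1) (t : P) lo hi e) (D : Oc i lo hi) (c1 : c 1 = 0)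
    (u0 : (uc (x 0)).card = 1) (u3 : (uc (x 3)).card = 1) (hF : F5 i (SS i t) = ∅)
    {p : P} (hp : p ∈ PD P i) (ht : (topOf p : Tops P) = t) (hu : uc p = {x 1}) :
    -8 ≤ shr Wea i p := by
  classical
  have H := h.g.H
  have d5 := D.i5
  have hb := bal_R h hij hi1 B c1 u0 u3 (fun T => ¬ Disjoint T (sit i p))
  have hT := tws_R h hij hi1 B c1 u0 u3
  have hk := kc_FL h hij hi1 B hp ht
  have n1 := nLp_le h hij hi1 B hp hu ht
  have n2 := nUp_le h hij hi1 B C D hp hu
  have hS := sum_kc_le H i p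
  have hzk := nj_zc_kc h hij hi1 (p := p) (mem_PD.1 hp).1
  have g : GoodTo P r (i + 1) := by rw [hij]; exact h.g
  have hU : (FU' i (SS i t)).card = 0 := by
    rw [C.toWin.card_FU g t.2 (i := i) (by omega) (S := SS i t)
      (fun y hy => h.mem (by omega) t (by omega))]
    unfold Win.fuw
    rw [D.l3, D.l4, D.h3, D.h4, if_neg (by omega), if_neg (by omega)]
  subst ht
  have e5 := nj_net5 h hij hi1 hp hF
  have e7 := nj_net7 h hij hi1 hp
  rw [hT, hF, filter_empty, card_empty] at e7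
  have e5' : Pn.rho i (topOf : P → Tops P) 5 p - A3 i (topOf p) =
      - ((FL i (SS i (topOf p))).card : ℤ) := by
    unfold A3
    rw [e5, hU]
    have := hb
    push_cast
    linarith
  have e7' : Pn.rho i (topOf : P → Tops P) 7 p - B5 i (topOf p) = 0 := by
    unfold B5
    rw [e7]
    norm_num
  have hnn : nn i p ≤ 5 := by
    unfold nn
    have n1' : ((nLp i p).card : ℤ) ≤ 3 := by exact_mod_cast n1
    have n2' : ((nUp i p).card : ℤ) ≤ 2 := by exact_mod_cast n2
    linarith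
  have hz : 0 ≤ zc i (topOf : P → Tops P) p := by unfold zc; positivity
  have hkc0 : 0 ≤ kc p := by unfold kc; positivity
  unfold shr
  rw [e5', e7']
  simp only [Wea]
  set Z := zc i (topOf : P → Tops P) p
  set F := ((FL i (SS i (topOf p))).card : ℤ)
  have k1 : Z * (kc p + nn i p) ≤ Z * (F + 5) := mul_le_mul_of_nonneg_left (by linarith) hz
  have k3 : Z ≤ 2 := by linarith
  nlinarith

/-- the part and the pendant at the window `j - 1` with a flip -/
lemma flip_valA (C : Cp.Comp (i + 1) (t : P) lo hi e) (D : Oc i lo hi) (c1 : c 1 = 0)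
    (u0 : (uc (x 0)).card = 1) (u3 : (uc (x 3)).card = 1) {p y q u a s b : P}
    (ht : (topOf p : Tops P) = t) (F : Flp i (SS i t) p y q u a s b) :
    4 * ((N1f i (SS i t)).card : ℤ) - 4 ≤ 2 * own1 Wea i t + shr Wea i p := by
  classical
  have H := h.g.H
  have d5 := D.i5
  have hb := bal_R h hij hi1 B c1 u0 u3 (fun _ => True)
  simp only [filter_true] at hb
  obtain ⟨-, -, hZU, hrow⟩ := nj_flip_row h hij hi1 t C F
  rw [D.l0, D.l1, D.l2, D.l3, D.l4, D.h0, D.h1, D.h2, D.h3, D.h4] at hrow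
  rcases hrow with ⟨-, hh, -⟩ | ⟨-, -, r1, r2, r3⟩
  · omega
  rw [if_pos (by norm_num)] at r1
  rw [if_pos rfl, if_neg (by norm_num)] at r2
  rw [if_neg (by omega)] at r3
  have hA := nj_flip_al3 h hij hi1 t F
  rw [r1, r2, r3] at hA
  have hA' : A3 i t = ((FL i (SS i t)).card : ℤ) := by
    unfold A3
    rw [hA]
    push_cast
    linarith
  have hown := nj_flip_own h hij hi1 Wea t F
  rw [own_eq, hA', r1, r2, r3] at hown
  have hS := sum_kc_le H i p
  have hz : 0 ≤ zc i (topOf : P → Tops P) p := by unfold zc; positivity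
  have hzk := nj_zc_kc h hij hi1 (p := p) F.lp
  have hkc := nj_kc h hij hi1 t F.mp F.lp
  obtain ⟨psi, hM⟩ := good_mat h.g.H (h.g.good i (by omega))
  have Q := nj_pso h hij hi1 hM t
  rw [← FL_eq Q F] at hkc
  have hN : (0 : ℤ) ≤ ((N1f i (SS i t)).card : ℤ) := by positivity
  subst ht
  have hshr := nj_flip_shr h hij hi1 Wea F
  rw [hA', r2] at hshr
  rw [hshr]
  have ho : own1 Wea i (topOf p) = ((FL i (SS i (topOf p))).card : ℤ) ^ 2 -
      (FL i (SS i (topOf p))).card + 2 + 2 * (N1f i (SS i (topOf p))).card := by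
    unfold own2 at hown
    simp only [Wea] at hown ⊢
    push_cast at hown
    linarith
  rw [ho]
  simp only [Wea]
  rw [hkc] at hzk
  set Z := zc i (topOf : P → Tops P) p
  obtain ⟨k, hk⟩ : ∃ k, k = (FL i (SS i (topOf p))).card := ⟨_, rfl⟩
  rw [← hk] at hzk ⊢
  have hZ2 : Z ≤ 2 - k := by linarith
  push_cast
  have hk3 : k = 0 ∨ k = 1 ∨ k = 2 := by
    have : (k : ℤ) ≤ 2 := by linarith
    have : k ≤ 2 := by exact_mod_cast this
    omega
  rcases hk3 with rfl | rfl | rfl
  · push_cast at hZ2 ⊢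
    have hZ : Z = 0 ∨ Z = 1 ∨ Z = 2 := by omega
    rcases hZ with hZ | hZ | hZ <;> rw [hZ] at hS ⊢ <;> linarith
  · push_cast at hZ2 ⊢
    have hZ : Z = 0 ∨ Z = 1 := by omega
    rcases hZ with hZ | hZ <;> rw [hZ] at hS ⊢ <;> linarith
  · push_cast at hZ2 ⊢
    have hZ : Z = 0 := by omega
    rw [hZ] at hS ⊢
    linarith

end row

/-- the window `j` -/
theorem owna_pos (h : NJ P r j) (hj : 2 ≤ j) (B : RowB P j t 3 x c β) (hβ : β = 1)
    (c0 : c 0 = -1) (c1 : c 1 = 0) (c2 : c 2 = 0) (C : Cp.Comp j (t : P) lo hi e)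
    (S : Shape j lo hi) (hp0 : pen (x 0) ≠ ∅) :
    4 ≤ own2 Wea j t + 2 * ((DE j (cext (j + 1) (topOf : P → Tops P) t) x 1).card : ℤ) := by
  classical
  have hb : β ≠ 0 := by rw [hβ]; norm_num
  obtain ⟨K, psi, R⟩ := exists_red P j
  obtain ⟨x', hx'⟩ : ∃ x' : ℕ → P, x' = fun k => if k = 4 then x 0 else x k := ⟨_, rfl⟩
  have hxk : ∀ k, k ≤ 3 → x' k = x k := by
    intro k hk
    rw [hx']
    show (if k = 4 then x 0 else x k) = x k
    rw [if_neg (by omega)]
  have hx4 : x' 4 = x' 0 := by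
    rw [hxk 0 (by omega), hx']
    show (if 4 = 4 then x 0 else x 4) = x 0
    rw [if_pos rfl]
  have B' := B.congr hxk
  obtain ⟨w, v, D⟩ := NJ.rg h hj R B' hβ c0 c1 c2 hx4
  have hed : ∀ k, k ≤ 2 → ed x' k = ed x k := by
    intro k hk
    unfold ed
    rw [hxk k (by omega), hxk (k + 1) (by omega)]
  have hUE : UE j (cext (j + 1) (topOf : P → Tops P) t) x' 2 =
      UE j (cext (j + 1) (topOf : P → Tops P) t) x 2 := by
    unfold UE
    rw [hed 2 le_rfl]
  have hDE : DE j (cext (j + 1) (topOf : P → Tops P) t) x' 1 =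
      DE j (cext (j + 1) (topOf : P → Tops P) t) x 1 := by
    unfold DE
    rw [hed 1 (by omega)]
  have key := D.owna_ge (by rw [hxk 0 (by omega)]; exact hp0)
    (by
      rw [hUE, hxk 1 (by omega)]
      exact fun hU => NJ.pen_one_zero h hj B hb C S hU)
    (by
      intro z hz
      obtain ⟨hzC, hzP, -⟩ := mem_UE.1 hz
      have h1 := D.W.ch_PU hzP hzC
      rw [hUE] at hz
      rw [NJ.upen_zero h hj B C S hz, card_empty] at h1
      push_cast at h1
      linarith)
  rw [hDE] at key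
  have hsm : Small j (topOf : P → Tops P) t := by
    refine (B.small h.g.H h.split).resolve_right fun hp => ?_
    have := hp.1
    omega
  have e6 := NJ.F6_small h hj R hsm
  have e2 : own2 Wea j t = Lv j (cext (j + 1) (topOf : P → Tops P) t) +
      7 * wv j (cext (j + 1) (topOf : P → Tops P) t) +
      wv j (cext (j + 1) (topOf : P → Tops P) t) ^ 2 := by
    unfold own2
    simp only [Wea]
    rw [e6, ← EK.F24_eq, EK.F3_eq]
    ring
  rw [e2]
  exact key

/-- THE VALUE OF A ROTATED ROW WITH FOUR SITES -/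
theorem va_nonneg (h : NJ P r j) (hij : i + 1 = j) (hi1 : 1 ≤ i) (B : RowB P j t 3 x c β)
    (hβ : β = 1) (c0 : c 0 = -1) (c1 : c 1 = 0) (c2 : c 2 = 0)
    (C : Cp.Comp j (t : P) lo hi e) (S : Shape j lo hi) (u0 : (uc (x 0)).card = 1)
    (u3 : (uc (x 3)).card = 1) (hp0 : pen (x 0) ≠ ∅) (hp2 : pen (x 2) = ∅)
    (hD : pen (x 1) = ∅ ∨ Oc i lo hi) :
    0 ≤ 2 * own Wea i j t + ∑ p ∈ (PD P i).filter (fun p => (topOf p : Tops P) = t),
      shr Wea i p := by
  classical
  have h2 := owna_pos h (by omega) B hβ c0 c1 c2 C S hp0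
  have hDE := DE_le h hij hi1 B (t := t)
  have hDE' : ((DE j (cext (j + 1) (topOf : P → Tops P) t) x 1).card : ℤ) ≤
      ((N1f i (SS i t)).card : ℤ) := by exact_mod_cast hDE
  rw [own_eq]
  suffices hs : 4 * ((N1f i (SS i t)).card : ℤ) - 8 ≤ 2 * own1 Wea i t +
      ∑ p ∈ (PD P i).filter (fun p => (topOf p : Tops P) = t), shr Wea i p by linarith
  have hin : ∀ p ∈ (PD P i).filter (fun p => (topOf p : Tops P) = t),
      p ∈ (SS i t).filter (· ∈ PD P i) := by
    intro p hp
    obtain ⟨hp1, hp3⟩ := mem_filter.1 hp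
    have hlp := (mem_PD.1 hp1).1
    exact mem_filter.2 ⟨(h.mem (by omega) t (by omega)).2 (by rw [← hp3]; exact le_topOf p), hp1⟩
  have hnoF : (PD P i).filter (fun p => (topOf p : Tops P) = t) = ∅ → F5 i (SS i t) = ∅ := by
    intro he
    rw [eq_empty_iff_forall_notMem]
    intro q hq
    obtain ⟨q1, q2, -⟩ := mem_F5.1 hq
    have hlq := (mem_PD.1 q2).1
    have hqt : q.1 ≤ (t : P) := (h.mem (by omega) t (by omega)).1 q1
    have : q.1 ∈ (PD P i).filter (fun p => (topOf p : Tops P) = t) := by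
      refine mem_filter.2 ⟨q2, Subtype.ext ?_⟩
      exact Hul.top_unique (h.nj (z := q.1) (by omega)) (topOf q.1).2 t.2 (le_topOf q.1) hqt
    rw [he] at this
    exact absurd this (notMem_empty _)
  rcases eq_empty_or_nonempty ((PD P i).filter (fun p => (topOf p : Tops P) = t)) with he | hne
  · rw [he, Finset.sum_empty]
    have := own1_openA h hij hi1 B c1 u0 u3 (hnoF he)
    linarith
  · obtain ⟨p, hp⟩ := hne
    have hOc : Oc i lo hi := by
      rcases hD with hD | hD
      · exfalso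
        rw [no_pd h hij hi1 B u0 u3 hD hp2] at hp
        exact absurd hp (notMem_empty _)
      · exact hD
    have hone : (PD P i).filter (fun p => (topOf p : Tops P) = t) = {p} := by
      obtain ⟨n1, -, -⟩ := nj_one h hij hi1 t
      rw [card_le_one] at n1
      refine eq_singleton_iff_unique_mem.2 ⟨hp, fun q hq => ?_⟩
      exact n1 q (hin q hq) p (hin p hp)
    rw [hone, sum_singleton]
    obtain ⟨hp1, hpt⟩ := mem_filter.1 hp
    have hup := pd_x1 h hij hi1 B u0 u3 hp2 hp1 hpt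
    subst hij
    by_cases hF : F5 i (SS i t) = ∅
    · have g1 := own1_openA h rfl hi1 B c1 u0 u3 hF
      have g2 := shr_openA h rfl hi1 B C hOc c1 u0 u3 hF hp1 hpt hup
      linarith
    · obtain ⟨⟨p', q⟩, hpq⟩ := nonempty_iff_ne_empty.2 hF
      obtain ⟨y, u, a, s, b, F⟩ := nj_flp h rfl hi1 t hpq
      have hp' : p' = p := by
        obtain ⟨n1, -, -⟩ := nj_one h rfl hi1 t
        rw [card_le_one] at n1
        exact n1 p' (mem_filter.2 ⟨F.mp, F.pD⟩) p (hin p hp)
      subst hp'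
      have := flip_valA h rfl hi1 B C hOc c1 u0 u3 hpt F
      linarith

end Pool.Agent.GaussPoset.R3

namespace Pool.Agent.GaussPoset.EK

set_option linter.unusedSectionVars false

open Finset Win St Polynomial Wd Win.W4

universe u

/-- THE LEAF `HRing3A` -/
theorem hring3A (P : Type u) [Fintype P] [PartialOrder P] [DecidableEq P] : HRing3A P := by
  intro r i K psi t x c β lo hi e a h8 hC hR B C S L hβ c0 c1 u0 u3 hp0 hor
  have hi1 : 1 ≤ i := by omega
  obtain ⟨hlen, -⟩ := B.orient hC.nj (by omega) C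
  have hp2 : pen (x 2) = ∅ := B.pen_mid hC.nj (k := 2) (by omega) (by omega)
    (c1 1 le_rfl (by omega)) (c1 2 (by omega) (by omega))
  exact Or.inl (R3.va_nonneg hC.nj rfl hi1 B hβ c0 (c1 1 le_rfl (by omega))
    (c1 2 (by omega) (by omega)) C S u0 u3 hp0 hp2 (r3_word hC.nj rfl hi1 C hlen hor L u0))

end Pool.Agent.GaussPoset.EK

end

/-! From `Pool.Agent.W_448cu_h16.CuA` -/

section

/-!
# The cusp substitution (MP_448cb3_co, case B, counting argument)

The energy variable becomes `- w s ^ 2`, the variable `dd` becomes `w ^ 2 s ^ 3`. `cE w k f` is the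
coefficient of `s ^ k`. `Ev w K f`: the coefficients of `s ^ k` with `2 k < K` vanish.
`count_arg`: the counting argument.
-/

namespace Pool.Agent.GaussPoset.Win.Cu

set_option linter.unusedSectionVars false

open Finset

/-- the exponents of weight `k` -/
def sx (k : ℕ) : Finset (ℕ × ℕ) :=
  ((Finset.range (k + 1)) ×ˢ (Finset.range (k + 1))).filter (fun p => 2 * p.1 + 3 * p.2 = k)

lemma mem_sx {k : ℕ} {p : ℕ × ℕ} : p ∈ sx k ↔ 2 * p.1 + 3 * p.2 = k := by
  unfold sx
  rw [mem_filter, mem_product, mem_range, mem_range]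
  constructor
  · intro h
    exact h.2
  · intro h
    exact ⟨⟨by omega, by omega⟩, h⟩

/-- the coefficient of `s ^ k` after the substitution -/
noncomputable def cE (w : ℤ) (k : ℕ) (f : PowerSeries A) : ℤ :=
  ∑ p ∈ sx k, (-w) ^ p.1 * (w ^ 2) ^ p.2 * PowerSeries.coeff p.2 (PowerSeries.coeff p.1 f : A)

lemma coeff_coeff_mul' (f g : PowerSeries A) (n m : ℕ) :
    PowerSeries.coeff m (PowerSeries.coeff n (f * g) : A) =
      ∑ q ∈ antidiagonal m ×ˢ antidiagonal n,
        PowerSeries.coeff q.1.1 (PowerSeries.coeff q.2.1 f : A) *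
          PowerSeries.coeff q.1.2 (PowerSeries.coeff q.2.2 g : A) := by
  rw [Finset.sum_product, PowerSeries.coeff_mul, map_sum]
  rw [Finset.sum_congr rfl fun p _ => PowerSeries.coeff_mul m (PowerSeries.coeff p.1 f : A)
    (PowerSeries.coeff p.2 g : A)]
  rw [Finset.sum_comm]

/-- the substitution is multiplicative -/
theorem cE_mul (w : ℤ) (k : ℕ) (f g : PowerSeries A) :
    cE w k (f * g) = ∑ q ∈ antidiagonal k, cE w q.1 f * cE w q.2 g := by
  have h1 : cE w k (f * g) = ∑ p ∈ (sx k).sigma (fun p => antidiagonal p.2 ×ˢ antidiagonal p.1),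
      (-w) ^ p.1.1 * (w ^ 2) ^ p.1.2 *
        (PowerSeries.coeff p.2.1.1 (PowerSeries.coeff p.2.2.1 f : A) *
          PowerSeries.coeff p.2.1.2 (PowerSeries.coeff p.2.2.2 g : A)) := by
    unfold cE
    rw [Finset.sum_sigma]
    refine Finset.sum_congr rfl fun p _ => ?_
    rw [coeff_coeff_mul', Finset.mul_sum]
  have h2 : ∑ q ∈ antidiagonal k, cE w q.1 f * cE w q.2 g =
      ∑ p ∈ (antidiagonal k).sigma (fun q => sx q.1 ×ˢ sx q.2),
      ((-w) ^ p.2.1.1 * (w ^ 2) ^ p.2.1.2 *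
        PowerSeries.coeff p.2.1.2 (PowerSeries.coeff p.2.1.1 f : A)) *
      ((-w) ^ p.2.2.1 * (w ^ 2) ^ p.2.2.2 *
        PowerSeries.coeff p.2.2.2 (PowerSeries.coeff p.2.2.1 g : A)) := by
    rw [Finset.sum_sigma]
    refine Finset.sum_congr rfl fun q _ => ?_
    unfold cE
    rw [Finset.sum_mul_sum, ← Finset.sum_product']
  rw [h1, h2]
  refine Finset.sum_bij'
    (i := fun p _ => (⟨(2 * p.2.2.1 + 3 * p.2.1.1, 2 * p.2.2.2 + 3 * p.2.1.2),
      ((p.2.2.1, p.2.1.1), (p.2.2.2, p.2.1.2))⟩ :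
      Σ _ : ℕ × ℕ, (ℕ × ℕ) × (ℕ × ℕ)))
    (j := fun p _ => (⟨(p.2.1.1 + p.2.2.1, p.2.1.2 + p.2.2.2),
      ((p.2.1.2, p.2.2.2), (p.2.1.1, p.2.2.1))⟩ :
      Σ _ : ℕ × ℕ, (ℕ × ℕ) × (ℕ × ℕ))) ?_ ?_ ?_ ?_ ?_
  · rintro ⟨⟨n, m⟩, ⟨⟨u, u'⟩, ⟨v, v'⟩⟩⟩ hp
    simp only [mem_sigma, mem_product, mem_sx, HasAntidiagonal.mem_antidiagonal] at hp ⊢
    exact ⟨by omega, trivial, trivial⟩
  · rintro ⟨⟨a, b⟩, ⟨⟨n, m⟩, ⟨n', m'⟩⟩⟩ hp
    simp only [mem_sigma, mem_product, mem_sx, HasAntidiagonal.mem_antidiagonal] at hp ⊢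
    exact ⟨by omega, trivial, trivial⟩
  · rintro ⟨⟨n, m⟩, ⟨⟨u, u'⟩, ⟨v, v'⟩⟩⟩ hp
    simp only [mem_sigma, mem_product, mem_sx, HasAntidiagonal.mem_antidiagonal] at hp
    obtain ⟨h1, rfl, rfl⟩ := hp
    rfl
  · rintro ⟨⟨a, b⟩, ⟨⟨n, m⟩, ⟨n', m'⟩⟩⟩ hp
    simp only [mem_sigma, mem_product, mem_sx, HasAntidiagonal.mem_antidiagonal] at hp
    obtain ⟨h1, rfl, rfl⟩ := hp
    rfl
  · rintro ⟨⟨n, m⟩, ⟨⟨u, u'⟩, ⟨v, v'⟩⟩⟩ hp
    simp only [mem_sigma, mem_product, mem_sx, HasAntidiagonal.mem_antidiagonal] at hp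
    obtain ⟨h1, rfl, rfl⟩ := hp
    simp only [pow_add]
    ring

lemma cE_add (w : ℤ) (k : ℕ) (f g : PowerSeries A) : cE w k (f + g) = cE w k f + cE w k g := by
  unfold cE
  rw [← Finset.sum_add_distrib]
  refine Finset.sum_congr rfl fun p _ => ?_
  rw [map_add, map_add]
  ring

/-- the coefficients of `s ^ k` with `2 k < K` vanish -/
def Ev (w K : ℤ) (f : PowerSeries A) : Prop := ∀ k : ℕ, 2 * (k : ℤ) < K → cE w k f = 0

lemma Ev.mono {w K L : ℤ} {f : PowerSeries A} (h : Ev w L f) (hK : K ≤ L) : Ev w K f :=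
  fun k hk => h k (by omega)

lemma Ev.mul {w K L : ℤ} {f g : PowerSeries A} (hf : Ev w K f) (hg : Ev w L g) :
    Ev w (K + L) (f * g) := by
  intro k hk
  rw [cE_mul]
  refine Finset.sum_eq_zero fun q hq => ?_
  rw [HasAntidiagonal.mem_antidiagonal] at hq
  by_cases h : 2 * (q.1 : ℤ) < K
  · rw [hf _ h, zero_mul]
  · rw [hg q.2 (by omega), mul_zero]

lemma Ev.add {w K : ℤ} {f g : PowerSeries A} (hf : Ev w K f) (hg : Ev w K g) :
    Ev w K (f + g) := by
  intro k hk
  rw [cE_add, hf k hk, hg k hk, add_zero]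

lemma Ev.zero (w K : ℤ) : Ev w K 0 := by
  intro k _
  unfold cE
  refine Finset.sum_eq_zero fun p _ => ?_
  rw [map_zero, map_zero, mul_zero]

lemma Ev.one {w : ℤ} : Ev w 0 1 := by
  intro k hk
  omega

lemma Ev.sum {ι : Type*} {w K : ℤ} {s : Finset ι} {f : ι → PowerSeries A}
    (h : ∀ a ∈ s, Ev w K (f a)) : Ev w K (∑ a ∈ s, f a) := by
  classical
  induction s using Finset.induction_on with
  | empty =>
    rw [Finset.sum_empty]
    exact Ev.zero w K
  | insert a s ha ih =>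
    rw [Finset.sum_insert ha]
    exact (h a (mem_insert_self _ _)).add (ih fun b hb => h b (mem_insert_of_mem hb))

lemma Ev.prod {ι : Type*} {w : ℤ} {s : Finset ι} {K : ι → ℤ} {f : ι → PowerSeries A}
    (h : ∀ a ∈ s, Ev w (K a) (f a)) : Ev w (∑ a ∈ s, K a) (∏ a ∈ s, f a) := by
  classical
  induction s using Finset.induction_on with
  | empty =>
    rw [Finset.sum_empty, Finset.prod_empty]
    exact Ev.one
  | insert a s ha ih =>
    rw [Finset.sum_insert ha, Finset.prod_insert ha]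
    exact (h a (mem_insert_self _ _)).mul (ih fun b hb => h b (mem_insert_of_mem hb))

/-- monomials of weight at least `K` -/
lemma Ev.of_coeff {w K : ℤ} {f : PowerSeries A}
    (h : ∀ n m, PowerSeries.coeff m (PowerSeries.coeff n f : A) ≠ 0 →
      K ≤ 4 * (n : ℤ) + 6 * m) : Ev w K f := by
  intro k hk
  unfold cE
  refine Finset.sum_eq_zero fun p hp => ?_
  rw [mem_sx] at hp
  by_cases h0 : PowerSeries.coeff p.2 (PowerSeries.coeff p.1 f : A) = 0
  · rw [h0, mul_zero]
  · have := h _ _ h0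
    omega

/-- a component with at most three sites whose initial form vanishes after the substitution -/
lemma Ev.own {w : ℤ} {f : PowerSeries A} {b : ℕ} (hb : b ≤ 3) (hw : w ≠ 0)
    (h : ∀ n m, PowerSeries.coeff m (PowerSeries.coeff n f : A) ≠ 0 → 3 * b ≤ 2 * n + 3 * m)
    (h0 : PowerSeries.coeff b (PowerSeries.coeff 0 f : A) = 1)
    (h3 : PowerSeries.coeff b (dd ^ 2 * PowerSeries.coeff 3 f : A) = w) :
    Ev w (6 * (b : ℤ) + 2) f := by
  have h4 : 2 ≤ b ∧ PowerSeries.coeff (b - 2) (PowerSeries.coeff 3 f : A) = w := by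
    unfold dd at h3
    rw [PowerSeries.coeff_X_pow_mul'] at h3
    by_cases h5 : 2 ≤ b
    · rw [if_pos h5] at h3
      exact ⟨h5, h3⟩
    · rw [if_neg h5] at h3
      exact absurd h3.symm hw
  obtain ⟨h5, h6⟩ := h4
  intro k hk
  rcases Nat.lt_or_ge k (3 * b) with h9 | h9
  · refine Ev.of_coeff (K := 6 * (b : ℤ)) (fun n m hnm => ?_) k (by omega)
    have := h n m hnm
    omega
  · have hk9 : k = 3 * b := by omega
    subst hk9
    unfold cE
    have hs : sx (3 * b) = {(0, b), (3, b - 2)} := by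
      ext ⟨n, m⟩
      rw [mem_sx, mem_insert, mem_singleton]
      simp only [Prod.mk.injEq]
      omega
    rw [hs, Finset.sum_pair (by simp)]
    simp only [h0, h6]
    obtain ⟨c, rfl⟩ : ∃ c, b = c + 2 := ⟨b - 2, by omega⟩
    rw [Nat.add_sub_cancel]
    ring

/-- THE COUNTING ARGUMENT -/
theorem count_arg {ι : Type*} [DecidableEq ι] (s : Finset ι) (b : ι → ℕ) (c : ι → ℤ)
    (V : ι → PowerSeries A) (X : Finset ι → PowerSeries A) (T : PowerSeries A) {w : ℤ}
    (hw : w ≠ 0)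
    (hV : ∀ a ∈ s, Ev w (6 * (b a : ℤ) + c a) (V a))
    (hX : ∀ S, S ⊆ s → S.Nonempty → Ev w (∑ a ∈ S, (6 * (b a : ℤ) + c a)) (X S))
    (hT : ∀ n m, PowerSeries.coeff m (PowerSeries.coeff n T : A) ≠ 0 → ∑ a ∈ s, b a ≤ m)
    (hT0 : PowerSeries.coeff (∑ a ∈ s, b a) (PowerSeries.coeff 0 T : A) = 1)
    (hsum : T = ∏ a ∈ s, V a + ∑ S ∈ s.powerset.erase ∅, X S * ∏ a ∈ s \ S, V a) :
    ∑ a ∈ s, c a ≤ 0 := by
  classical
  have h1 : Ev w (∑ a ∈ s, (6 * (b a : ℤ) + c a)) T := by
    rw [hsum]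
    refine (Ev.prod hV).add (Ev.sum fun S hS => ?_)
    rw [mem_erase, mem_powerset] at hS
    have h2 := (hX S hS.2 (nonempty_iff_ne_empty.2 hS.1)).mul
      (Ev.prod (s := s \ S) (K := fun a => 6 * (b a : ℤ) + c a) (f := V)
        fun a ha => hV a (mem_sdiff.1 ha).1)
    refine h2.mono ?_
    rw [add_comm, Finset.sum_sdiff hS.2]
  obtain ⟨B, hB⟩ : ∃ B : ℕ, B = ∑ a ∈ s, b a := ⟨_, rfl⟩
  have hne : cE w (3 * B) T ≠ 0 := by
    unfold cE
    rw [Finset.sum_eq_single_of_mem (0, B)]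
    · simp only [pow_zero, one_mul]
      rw [hB, hT0, mul_one]
      exact pow_ne_zero _ (pow_ne_zero _ hw)
    · rw [mem_sx]
      simp only
      omega
    · rintro ⟨n, m⟩ hp hnm
      rw [mem_sx] at hp
      simp only at hp ⊢
      by_cases h0 : PowerSeries.coeff m (PowerSeries.coeff n T : A) = 0
      · rw [h0, mul_zero]
      · exfalso
        have h2 := hT n m h0
        apply hnm
        rw [Prod.mk.injEq]
        omega
  have h2 : ¬ 2 * ((3 * B : ℕ) : ℤ) < ∑ a ∈ s, (6 * (b a : ℤ) + c a) := fun h => hne (h1 _ h)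
  rw [Finset.sum_add_distrib, ← Finset.mul_sum] at h2
  have h3 : ((B : ℕ) : ℤ) = ∑ a ∈ s, (b a : ℤ) := by
    rw [hB]
    push_cast
    rfl
  push_cast at h2
  rw [h3] at h2
  linarith

end Pool.Agent.GaussPoset.Win.Cu

end

/-! From `Pool.Agent.W_448cu_h16.CuB` -/

section

/-!
# The counting theorem for labels (MP_448cb3_co, case B)

From the bounds for the own series and for the cross series: the number of the light labels with
three sites and the value `w` is at most four times the number of the labels with two stars.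
-/

namespace Pool.Agent.GaussPoset.Win.Cu

set_option linter.unusedSectionVars false

open Finset I2 K2 Ut

universe u

variable {P : Type u} [Fintype P] [PartialOrder P] [DecidableEq P] {r i : ℕ}

variable {ι : Type*} [DecidableEq ι] {κ : P → ι} {K : Finset P} {psi : P → P}

/-- the own series of a component with at most three sites and the value `w` -/
theorem own_light (H : Gr P r) (hir : i ≤ r) {a : ι} {w : ℤ} (hw0 : w ≠ 0)
    (h3 : (st i (cext (i + 1) κ a)).card ≤ 3)
    (hW : Wt3 (st i (cext (i + 1) κ a)).card (ZS i (cext (i + 1) κ a)))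
    (hw : w3 (bb i (i + 1) κ a) (VV i (i + 1) κ a) = w) :
    Ev w (6 * ((st i (cext (i + 1) κ a)).card : ℤ) + 2) (ZS i (cext (i + 1) κ a)) := by
  refine Ev.own h3 hw0 ?_ ?_ ?_
  · intro n m hne
    by_contra hlt
    apply hne
    exact coeff_zero_of_dvd (hW n) (by omega)
  · rw [coeff_ZS, ZC_zero H hir]
    unfold dd
    rw [PowerSeries.coeff_X_pow, if_pos rfl]
  · rw [← hw]
    unfold w3 bb VV
    rfl

/-- THE COUNTING THEOREM for labels -/
theorem count_label (H : Gr P r) (hir : i ≤ r) (hκ : Split (i + 1) κ) {S0 P6 : Finset ι} {w : ℤ}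
    (hw : w ≠ 0) (h06 : Disjoint S0 P6) (hS : S0 ⊆ univ.image κ) (hP : P6 ⊆ univ.image κ)
    (hW : ∀ a, a ∉ P6 → Wt3 (st i (cext (i + 1) κ a)).card (ZS i (cext (i + 1) κ a)))
    (h3 : ∀ a ∈ S0, (st i (cext (i + 1) κ a)).card ≤ 3)
    (hw3 : ∀ a ∈ S0, w3 (bb i (i + 1) κ a) (VV i (i + 1) κ a) = w)
    (hO : ∀ a ∈ P6, ∀ n m,
      PowerSeries.coeff m (PowerSeries.coeff n (ZS i (cext (i + 1) κ a)) : A) ≠ 0 →
      6 * (st i (cext (i + 1) κ a)).card ≤ 4 * n + 6 * m + 4)
    (hX : ∀ S : Finset ι, S.Nonempty → ∀ n m,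
      PowerSeries.coeff m (PowerSeries.coeff n (XS i (i + 1) κ S) : A) ≠ 0 →
      6 * (∑ a ∈ S, (st i (cext (i + 1) κ a)).card) + (S0 ∩ S).card ≤
        4 * n + 6 * m + 4 * (P6 ∩ S).card) :
    S0.card ≤ 4 * P6.card := by
  classical
  obtain ⟨c, hc⟩ : ∃ c : ι → ℤ, c = fun a => (if a ∈ S0 then 1 else 0) -
      (if a ∈ P6 then 4 else 0) := ⟨_, rfl⟩
  have hcs : ∀ S : Finset ι, ∑ a ∈ S, c a = ((S0 ∩ S).card : ℤ) - 4 * (P6 ∩ S).card := by
    intro S
    rw [hc, Finset.sum_sub_distrib, Finset.sum_ite_mem, Finset.sum_ite_mem, Finset.sum_const,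
      Finset.sum_const, inter_comm S S0, inter_comm S P6, nsmul_eq_mul, nsmul_eq_mul]
    ring
  have key := count_arg (univ.image κ) (fun a => (st i (cext (i + 1) κ a)).card) c
    (fun a => ZS i (cext (i + 1) κ a)) (XS i (i + 1) κ) (TS P i) hw ?_ ?_ ?_ ?_
    (TS_eq H hir (by omega) hκ)
  · rw [hcs, inter_eq_left.2 hS, inter_eq_left.2 hP] at key
    have h1 : (S0.card : ℤ) ≤ 4 * P6.card := by linarith
    exact_mod_cast h1
  · intro a _
    by_cases h6 : a ∈ P6
    · have h0 : a ∉ S0 := fun h => disjoint_left.1 h06 h h6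
      have h1 : c a = -4 := by
        rw [hc]
        simp only
        rw [if_neg h0, if_pos h6]
        norm_num
      rw [h1]
      refine Ev.of_coeff fun n m hne => ?_
      have := hO a h6 n m hne
      omega
    · by_cases h0 : a ∈ S0
      · have h1 : c a = 1 := by
          rw [hc]
          simp only
          rw [if_pos h0, if_neg h6]
          norm_num
        rw [h1]
        exact (own_light H hir hw (h3 a h0) (hW a h6) (hw3 a h0)).mono (by linarith)
      · have h1 : c a = 0 := by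
          rw [hc]
          simp only
          rw [if_neg h0, if_neg h6]
          norm_num
        rw [h1]
        refine Ev.of_coeff fun n m hne => ?_
        by_contra hlt
        apply hne
        exact coeff_zero_of_dvd (hW a h6 n) (by omega)
  · intro S _ hne
    rw [Finset.sum_add_distrib, ← Finset.mul_sum, hcs]
    refine Ev.of_coeff fun n m h => ?_
    have h1 := hX S hne n m h
    have h2 : ((6 * (∑ a ∈ S, (st i (cext (i + 1) κ a)).card) + (S0 ∩ S).card : ℕ) : ℤ) ≤
        ((4 * n + 6 * m + 4 * (P6 ∩ S).card : ℕ) : ℤ) := by exact_mod_cast h1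
    push_cast at h2
    linarith
  · intro n m hne
    rw [sum_card_st (by omega) hκ]
    by_contra hlt
    apply hne
    unfold TS
    rw [PowerSeries.coeff_mk]
    exact coeff_zero_of_dvd (dvd_sum_trm H hir n) (by omega)
  · rw [sum_card_st (by omega) hκ]
    have h1 := TS_form H hir
    have h2 : (Gf (2 * (lv P i).card) (TS P i)).coeff (lv P i).card =
        (Polynomial.X ^ (lv P i).card : Polynomial ℤ).coeff (lv P i).card := by rw [h1]
    rw [coeff_Gf, if_pos le_rfl, Nat.sub_self, Polynomial.coeff_X_pow, if_pos rfl] at h2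
    exact h2

end Pool.Agent.GaussPoset.Win.Cu

end

/-! From `Pool.Agent.W_448cl_h64.CnB` -/

section

/-!
The counting theorem at the window j (MP_448cb3_co, case B): the charge of a component with two
stars.
-/

namespace Pool.Agent.GaussPoset.EK

set_option linter.unusedSectionVars false

open Finset Win St Polynomial Wd

universe u

variable {P : Type u} [Fintype P] [PartialOrder P] [DecidableEq P] {r i : ℕ}

variable {ι : Type*} [DecidableEq ι] {κ : P → ι}

variable {K : Finset P} {psi : P → P} {T : Finset P}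

variable {a : ι} {m : ℕ} {x : ℕ → P} {c : ℕ → ℤ} {β : ℤ} {e : P → ℕ}

/-- exactly one unmatched element with the sites `T`, of lower type -/
lemma Red.one_L (R : Red P i K psi) (hT : Df i T = 1) :
    ∃ k1, lev k1 = i + 1 ∧ ns i k1 = T ∧ ∀ k ∈ K, ns i k = T → k = k1 := by
  have h1 := R.fib T
  rw [hT, abs_one] at h1
  have h2 : (K.filter (fun x => ns i x = T)).card = 1 := by exact_mod_cast h1
  obtain ⟨k1, hk1⟩ := card_eq_one.1 h2
  have h3 := R.nL T
  rw [hT, max_eq_left (by norm_num)] at h3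
  have h4 : 0 < (K ∩ CoreC_L i T).card := by
    have : (K ∩ CoreC_L i T).card = 1 := by exact_mod_cast h3
    omega
  obtain ⟨k, hk⟩ := card_pos.1 h4
  rw [mem_inter, mem_CoreC_L] at hk
  obtain ⟨hkK, hkL, hkT⟩ := hk
  have h5 : k ∈ K.filter (fun x => ns i x = T) := mem_filter.2 ⟨hkK, by rw [ns_L hkL]; exact hkT⟩
  rw [hk1, mem_singleton] at h5
  refine ⟨k1, ?_, ?_, ?_⟩
  · rw [← h5]
    exact (mem_dbL.1 hkL).1
  · rw [← h5, ns_L hkL]
    exact hkT
  · intro k' hk' hns
    have h6 : k' ∈ K.filter (fun x => ns i x = T) := mem_filter.2 ⟨hk', hns⟩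
    rw [hk1, mem_singleton] at h6
    exact h6

/-- exactly one unmatched element with the sites `T`, of upper type -/
lemma Red.one_U (R : Red P i K psi) (hT : Df i T = -1) :
    ∃ k1, lev k1 + 1 = i ∧ ns i k1 = T ∧ ∀ k ∈ K, ns i k = T → k = k1 := by
  have h1 := R.fib T
  rw [hT, abs_neg, abs_one] at h1
  have h2 : (K.filter (fun x => ns i x = T)).card = 1 := by exact_mod_cast h1
  obtain ⟨k1, hk1⟩ := card_eq_one.1 h2
  have h3 := R.nU T
  rw [hT, neg_neg, max_eq_left (by norm_num)] at h3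
  have h4 : 0 < (K ∩ CoreC_U i T).card := by
    have : (K ∩ CoreC_U i T).card = 1 := by exact_mod_cast h3
    omega
  obtain ⟨k, hk⟩ := card_pos.1 h4
  rw [mem_inter, mem_CoreC_U] at hk
  obtain ⟨hkK, hkL, hkT⟩ := hk
  have h5 : k ∈ K.filter (fun x => ns i x = T) := mem_filter.2 ⟨hkK, by rw [ns_U hkL]; exact hkT⟩
  rw [hk1, mem_singleton] at h5
  refine ⟨k1, ?_, ?_, ?_⟩
  · rw [← h5]
    exact (mem_dbU.1 hkL).1
  · rw [← h5, ns_U hkL]
    exact hkT
  · intro k' hk' hns
    have h6 : k' ∈ K.filter (fun x => ns i x = T) := mem_filter.2 ⟨hk', hns⟩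
    rw [hk1, mem_singleton] at h6
    exact h6

/-- THE CHARGE OF A COMPONENT WITH TWO STARS is at most two -/
theorem Row.cap6 (W : Row i κ a m x c β) (R : Red P i K psi) (H : Gr P r) (hir : i ≤ r)
    (hq : K2.NoQ P (i + 2)) (hg : ∀ m, m + 1 = i → Win.Good P m) (hκ : Split (i + 1) κ)
    (hp : Pat6 m c β) (hd : Disjoint (AL i e) (AU i e)) : K2.Cap i κ K e a 2 := by
  have hpp := hp
  obtain ⟨h1, h2, c0, c1, c2, c3, h3⟩ := hp
  obtain ⟨k1, l1, n1, u1⟩ := R.one_L (T := {x 0, x 1}) (by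
    rw [W.df 0 1 (by omega) (by omega), if_pos rfl, c0])
  obtain ⟨k2, l2, n2, u2⟩ := R.one_U (T := {x 1, x 2}) (by
    rw [W.df 1 2 (by omega) (by omega), if_pos rfl, c1])
  obtain ⟨k3, l3, n3, u3⟩ := R.one_U (T := {x (m - 2), x (m - 1)}) (by
    rw [W.df (m - 2) (m - 1) (by omega) (by omega), if_pos (by omega), c2])
  obtain ⟨k4, l4, n4, u4⟩ := R.one_L (T := {x (m - 1), x m}) (by
    rw [W.df (m - 1) m (by omega) (by omega), if_pos (by omega), c3])
  refine K2.cap_two H hir hq hg hκ hd (k1 := k1) (k2 := k2) (k3 := k3) (k4 := k4) (c1 := x 1)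
    (c2 := x (m - 1)) ?_ ?_ ?_ ?_ ?_ ?_ ?_ ?_
  · intro k hk hka
    obtain ⟨p, q, h6, h7, h8, h9⟩ := W.pair R H hκ hk hka
    rcases h9 with ⟨h9, h10⟩ | ⟨_, _, _, h10⟩
    · have hp : p = 0 ∨ p = 1 ∨ p = m - 2 ∨ p = m - 1 := by
        by_contra h11
        exact h10 (h3 p (by omega) (by omega))
      subst h9
      rcases hp with hp | hp | hp | hp
      · subst hp
        exact Or.inl (u1 k hk h8)
      · subst hp
        exact Or.inr (Or.inl (u2 k hk h8))
      · subst hp
        rw [show m - 2 + 1 = m - 1 by omega] at h8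
        exact Or.inr (Or.inr (Or.inl (u3 k hk h8)))
      · subst hp
        rw [show m - 1 + 1 = m by omega] at h8
        exact Or.inr (Or.inr (Or.inr (u4 k hk h8)))
    · exact absurd h2 h10
  · rw [n1]; simp
  · rw [n2]; simp
  · rw [n3]; simp
  · rw [n4]; simp
  · intro h
    have := W.inj _ _ (by omega) (by omega) h
    omega
  · omega
  · omega

end Pool.Agent.GaussPoset.EK

end

/-! From `Pool.Agent.W_448cl_h64.CnC` -/

section

/-!
The counting theorem at the window j (MP_448cb3_co, case B): a component with three sites is light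
at a single element when the signed number of the disjoint unmatched elements is zero.
-/

namespace Pool.Agent.GaussPoset.EK

set_option linter.unusedSectionVars false

open Finset Win St Polynomial Wd

universe u

variable {P : Type u} [Fintype P] [PartialOrder P] [DecidableEq P] {r i : ℕ}

variable {ι : Type*} [DecidableEq ι] {κ : P → ι}

variable {K : Finset P} {psi : P → P}

/-- three sites: the signed number decides -/
theorem Red.own_light (R : Red P i K psi) (H : Gr P r) (hκ : Split (i + 1) κ) {t : ι}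
    (h3 : (st i (cext (i + 1) κ t)).card ≤ 3) {v : P} (hv : lev v = i + 1)
    (hv1 : (uc v).card = 1) (hvt : κ v = t) (hs : sa i κ K (uc v) t = 0) :
    ∀ k ∈ K, κ k = t → ¬ Disjoint (ns i k) (uc v) := by
  classical
  intro k hk hkt hdis
  obtain ⟨x, hx⟩ := card_eq_one.1 hv1
  have hxu : x ∈ uc v := by rw [hx]; exact mem_singleton_self _
  have hxl : lev x = i := by
    have := lev_uc H hxu
    omega
  have hxt : κ x = t := by
    rw [← hvt]
    exact (hκ (mem_uc.1 hxu) (by omega)).symm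
  have hxs : x ∈ st i (cext (i + 1) κ t) := by
    rw [mem_st]
    exact ⟨mem_cext_of_le hκ (by omega) hxt, hxl⟩
  have hc2 : ((st i (cext (i + 1) κ t)).erase x).card ≤ 2 := by
    have := card_erase_add_one hxs
    omega
  have key : ∀ k' ∈ K, κ k' = t → Disjoint (ns i k') (uc v) →
      ns i k' = (st i (cext (i + 1) κ t)).erase x := by
    intro k' hk' hkt' hd'
    refine Finset.eq_of_subset_of_card_le ?_ ?_
    · intro y hy
      have hy2 := kap_ns' H hκ (R.sub hk') hy
      rw [mem_erase, mem_st]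
      refine ⟨?_, mem_cext_of_le hκ (by omega) (hy2.1.trans hkt'), hy2.2⟩
      rintro rfl
      exact disjoint_left.1 hd' hy hxu
    · rw [ns_card (R.sub hk')]
      exact hc2
  have hkey := key k hk hkt hdis
  have h5 : K.filter (fun y => κ y = t ∧ Disjoint (ns i y) (uc v)) =
      K.filter (fun y => ns i y = ns i k) := by
    ext y
    rw [mem_filter, mem_filter]
    constructor
    · rintro ⟨h1, h2, h4⟩
      exact ⟨h1, by rw [key y h1 h2 h4, hkey]⟩
    · rintro ⟨h1, h2⟩
      refine ⟨h1, ?_, ?_⟩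
      · obtain ⟨u, hu⟩ : (ns i y).Nonempty := by
          rw [← card_pos, ns_card (R.sub h1)]
          omega
        have a1 := (kap_ns' H hκ (R.sub h1) hu).1
        rw [h2] at hu
        have a2 := (kap_ns' H hκ (R.sub hk) hu).1
        rw [← a1, a2, hkt]
      · rw [h2]
        exact hdis
  rw [sa_eq, h5, fib_K R.mat R.sub] at hs
  exact R.Df_ne hk hs

end Pool.Agent.GaussPoset.EK

end

/-! From `Pool.Agent.W_448cu_h16.CuD` -/

section

/-!
# The counting theorem in case B (MP_448cb3_co): the end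
-/

namespace Pool.Agent.GaussPoset.EK

set_option linter.unusedSectionVars false

open Finset Win St Polynomial Wd

universe u

variable {P : Type u} [Fintype P] [PartialOrder P] [DecidableEq P] {r j : ℕ}

variable {K : Finset P} {psi : P → P}

section main

variable (h : NJ P r j) (hj : 2 ≤ j) (R : Red P j K psi)

include h hj R

/-- THE COUNTING THEOREM: the light components with at most three sites and the value `-1` are at
most four times as many as the components with two stars -/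
theorem NJ.count {S0 P6 : Finset (Tops P)} (hS : ∀ t ∈ S0, SL j K t)
    (h6 : ∀ t, Is6 j t → t ∈ P6) (h6' : ∀ t ∈ P6, Is6 j t) : S0.card ≤ 4 * P6.card := by
  classical
  have hjr : j ≤ r := by have := h.hr; omega
  have hg : ∀ m, m + 1 = j → Win.Good P m := fun m hm => h.g.good m (by omega)
  have himg : univ.image (topOf : P → Tops P) = (univ : Finset (Tops P)) := by
    ext t
    simp only [mem_univ, iff_true]
    refine mem_image.2 ⟨(t : P), mem_univ _, ?_⟩
    exact Subtype.ext (Hul.top_unique (h.nj (by have := t.2; omega)) (topOf (t : P)).2 t.2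
      (le_topOf (t : P)) le_rfl)
  have hdis : Disjoint S0 P6 := by
    rw [disjoint_left]
    intro t ht ht'
    obtain ⟨-, h1, -⟩ := hS t ht
    obtain ⟨m, x, c, β, B, hp⟩ := h6' t ht'
    have h2 := row_sites h B
    have h3 := hp.1
    omega
  have hst : ∀ t : Tops P, t ∉ P6 → K2.Star j (cext (j + 1) (topOf : P → Tops P) t) K :=
    fun t ht => K2.star_small h.g.H hjr h.split R (NJ.small_not6 h hj fun q => ht (h6 t q))
  have hcap : ∀ e : P → ℕ, Disjoint (AL j e) (AU j e) → ∀ t ∈ P6,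
      K2.Cap j (topOf : P → Tops P) K e t 2 := by
    intro e hd t ht
    obtain ⟨m', x, c, β, B, hp⟩ := h6' t ht
    exact B.row.cap6 R h.g.H hjr (NJ.noQ h hj) hg h.split hp hd
  refine Cu.count_label h.g.H hjr h.split (w := -1) (by norm_num) hdis ?_ ?_ ?_ ?_ ?_ ?_ ?_
  · rw [himg]
    exact subset_univ _
  · rw [himg]
    exact subset_univ _
  · intro t ht
    exact K2.own_Wt3 h.g.H hjr (NJ.noQ h hj) hg h.split R.mat R.sub (hst t ht)
  · intro t ht
    exact (hS t ht).2.1
  · intro t ht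
    exact (hS t ht).1
  · intro t ht n m hne
    have h1 := K2.own_slope h.g.H hjr (NJ.noQ h hj) hg h.split R.mat (a := t) (c := 2)
      (fun e hd XL XU hL hU => hcap e hd t ht XL XU hL hU) hne
    omega
  · intro S _ n m hne
    have h1 := K2.cross_slope h.g.H hjr (NJ.noQ h hj) hg h.split R.mat (T := S) (S0 := S0)
      (P6 := P6) (C := 2) (fun a _ ha => hst a ha) (fun e hd a _ ha => hcap e hd a ha)
      (fun t ht => (hS t ht).2.1)
      (fun t ht z y v S1 hv => by
        subst hv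
        exact R.own_light h.g.H h.split (hS _ ht).2.1 (S1.lv' h.g.H) S1.cv rfl
          ((hS _ ht).2.2 z y v S1 rfl)) hdis hne
    omega

end main

end Pool.Agent.GaussPoset.EK

end

/-! From `Pool.Agent.W_448cu_h16.CuE` -/

section

/-!
# The counting theorem as an input of step 0 (MP_448cb3_co)
-/

namespace Pool.Agent.GaussPoset.EK

set_option linter.unusedSectionVars false

open Finset Win St Polynomial Wd

universe u

variable {P : Type u} [Fintype P] [PartialOrder P] [DecidableEq P]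

/-- INPUT of step 0: THE COUNT -/
theorem hcount : HCount P := by
  intro r j K psi hj h R A B hA hB hB'
  exact NJ.count h hj R (S0 := A) (P6 := B)
    (fun t ht => ⟨(hA t ht).1, (hA t ht).2.1, (hA t ht).2.2⟩) hB hB'

end Pool.Agent.GaussPoset.EK

end
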