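import Mathlib
import Pool.Agent.W_448zz_h61.Ns
import Pool.Agent.W_448zz_h61.M264
import Pool.Agent.W_448zz_h61.M265
import Pool.Agent.W_448zz_h61.M268
import Pool.Agent.W_448zz_h61.M272
import Pool.Agent.W_448zz_h61.M273

/-! From `Pool.Agent.W_448e_h22.WeB` -/

section

/-!
MP_448cb3_co, G2, case B, STEP 0 at the level 8: the window `j - 1` of the rows with three sites and both
ends open; the functional `⟨-1, a, 1, 2, 1, 1, 1, 6, 2⟩`.  helper22.
-/

set_option autoImplicit false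

namespace Pool.Agent.GaussPoset.Wd

set_option linter.unusedSectionVars false

open Finset Win Win.I2 Win.Rc EK Win.Pn
open Pool.Agent.GaussPoset.Win.SO (F5 mem_F5 N1f N5f CQ envc)

universe u

variable {P : Type u} [Fintype P] [PartialOrder P] [DecidableEq P] {r j i : ℕ}
  {t : Tops P} {lo hi : ℕ → ℕ} {e : ℕ → ℕ → P} {x : ℕ → P} {c : ℕ → ℤ} {β : ℤ}
  {p q w : P} {a : ℤ}

lemma We_arith2 {z k f n s : ℤ} (ha : 7 ≤ a) (z0 : 0 ≤ z) (k0 : 0 ≤ k) (zk : z + k ≤ 2)
    (f0 : 0 ≤ f) (f1 : f ≤ 1) (hn : n ≤ 4) (hs : s ≤ 2 * z) :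
    -4 ≤ 2 * ((k - f) ^ 2 - (k - f)) + (z * (a + 1) - 4 * z * (k + n - 3) - 2 * s +
      4 * z * (k - f)) := by
  have z2 : z ≤ 2 := by linarith
  have k2 : k ≤ 2 := by linarith
  interval_cases z <;> interval_cases k <;> interval_cases f <;> linarith

lemma We_arith2' {z k n s : ℤ} (ha : 7 ≤ a) (z0 : 0 ≤ z) (k0 : 0 ≤ k) (zk : z + k ≤ 2)
    (hn : n ≤ 4) (hs : s ≤ 2 * z) :
    4 * (2 - z - k) ≤ 2 * ((k - 1) ^ 2 - (k - 1)) + (z * (a + 1) - 4 * z * (k + n - 3) - 2 * s +
      4 * z * (k - 1)) + 4 := by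
  have z2 : z ≤ 2 := by linarith
  have k2 : k ≤ 2 := by linarith
  interval_cases z <;> interval_cases k <;> linarith

section nj

variable (h : NJ P r j) (hij : i + 1 = j) (hi1 : 1 ≤ i)
include h hij hi1

/-- one element above an upper pendant, if the levels are narrow -/
lemma NJ.we_FU (C : Cp.Comp j (t : P) lo hi e) (hn : ∀ k, k < i → lo k = hi k) (hi3 : 3 ≤ i)
    (hp : p ∈ PD P i) (ht : topOf p = t) : (FU' i (SS i t)).card = 1 := by
  classical
  have H := h.g.H
  refine le_antisymm (Tw.two_FU h hij hi1 C hn) ?_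
  obtain ⟨u, hu, hut⟩ := Tw.pu_of_pd h hij hi1 hp ht
  have lu := (mem_PU.1 hu).1
  have hr := h.hr
  have h1 := C.lo_le (i - 3) (by omega)
  have lw := C.lev_e (i - 3) (lo (i - 3)) (by omega) le_rfl h1
  have wt := C.le_t (i - 3) (lo (i - 3)) (by omega) le_rfl h1
  obtain ⟨w, hw⟩ : ∃ w, w = e (i - 3) (lo (i - 3)) := ⟨_, rfl⟩
  rw [← hw] at lw wt
  obtain ⟨v, hv⟩ := dc_nonempty H (x := w) (by omega)
  have hd : dc w = {u} := by
    refine eq_singleton_iff_unique_mem.2 ⟨?_, ?_⟩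
    · have : v = u := by
        have lv := lev_dc H hv
        exact Tw.narrow h hij hi1 C (k := i - 2) (by omega) (hn _ (by omega))
          ((mem_dc.1 hv).le.trans wt) hut (by omega) (by omega)
      rwa [this] at hv
    · intro v' hv'
      have lv := lev_dc H hv'
      exact Tw.narrow h hij hi1 C (k := i - 2) (by omega) (hn _ (by omega))
        ((mem_dc.1 hv').le.trans wt) hut (by omega) (by omega)
  refine card_pos.2 ⟨w, mem_FU'.2 ⟨(h.mem (by omega) t (by omega)).2 wt, u, hu, hd⟩⟩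

/-- the window `j - 1` of a part with two sites: the values -/
theorem NJ.we_two (B : RowB P j t 2 x c β) (C : Cp.Comp j (t : P) lo hi e)
    (h2 : (st i (SS i t)).card ≤ 2)
    (hn : ∀ p ∈ PD P i, topOf p = t → ∀ k, k < i → lo k = hi k) :
    ((∀ p ∈ PD P i, (topOf p : Tops P) ≠ t) ∧ 0 ≤ V1a a i t) ∨
      ∃ p ∈ PD P i, (topOf p : Tops P) = t ∧ nn i p ≤ 4 ∧ (FU' i (SS i t)).card ≤ 1 ∧
        (3 ≤ i → (FU' i (SS i t)).card = 1) ∧
        V1a a i t = 2 * ((kc p - (FU' i (SS i t)).card) ^ 2 - (kc p - (FU' i (SS i t)).card)) +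
          (zc i (topOf : P → Tops P) p * (a + 1) -
            4 * zc i (topOf : P → Tops P) p * (kc p + nn i p - 3) -
            2 * ∑ z ∈ zs i (topOf : P → Tops P) p, kc z +
            4 * zc i (topOf : P → Tops P) p * (kc p - (FU' i (SS i t)).card)) := by
  classical
  obtain ⟨v5, v6, v8, v10⟩ := Tw.two_vals h hij hi1 t h2
  have v3 := Tw.two_A3 h hij hi1 t h2
  have e1 : own1 (Wa a) i t = A3 i t ^ 2 - A3 i t := by
    unfold own1 Wa
    rw [v5, v6, v8, v10]
    ring
  have e0 : V1a a i t = 2 * own1 (Wa a) i t +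
      ∑ p ∈ (PD P i).filter (fun p => (topOf p : Tops P) = t), shr (Wa a) i p := rfl
  rw [e1] at e0
  by_cases hE : (PD P i).filter (fun p => (topOf p : Tops P) = t) = ∅
  · left
    refine ⟨fun p hp ht => ?_, ?_⟩
    · have : p ∈ (PD P i).filter (fun p => (topOf p : Tops P) = t) := mem_filter.2 ⟨hp, ht⟩
      rw [hE] at this
      exact notMem_empty _ this
    · rw [hE, Finset.sum_empty, add_zero] at e0
      have := W4.sq_sub_nonneg (A3 i t)
      linarith
  · right
    obtain ⟨p, hp⟩ := nonempty_iff_ne_empty.2 hE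
    have hE1 : (PD P i).filter (fun p => (topOf p : Tops P) = t) = {p} := by
      refine eq_singleton_iff_unique_mem.2 ⟨hp, fun q hq => ?_⟩
      rw [mem_filter] at hp hq
      exact nj_hone h hij hi1 q hq.1 p hp.1 (hq.2.trans hp.2.symm)
    rw [hE1, sum_singleton] at e0
    obtain ⟨hp1, hp2⟩ := mem_filter.1 hp
    have hw := hn p hp1 hp2
    obtain ⟨r5, r7⟩ := Tw.two_rho h hij hi1 (p := p) (by rw [hp2]; exact h2) hp1
    have f1 := Tw.two_FU h hij hi1 C hw
    have n1 := Tw.two_nn h hij hi1 C B (hw (i - 1) (by omega)) hp1 hp2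
    have k1 := Tw.two_kc h hij hi1 t hp1 hp2
    refine ⟨p, hp1, hp2, n1, f1, fun h3 => h.we_FU hij hi1 C hw h3 hp1 hp2, ?_⟩
    rw [e0]
    unfold shr
    rw [r5, r7, hp2, v5, v3, k1]
    unfold Wa
    dsimp only
    ring

/-- BOTH ENDS OPEN -/
theorem NJ.we_open (ha : 7 ≤ a) (C : Cp.Comp j (t : P) lo hi e) (hS : Shape j lo hi)
    (B : RowB P j t 2 x c β) (u0 : (uc (x 0)).card = 1) (u2 : (uc (x 2)).card = 1) :
    -4 ≤ V1a a i t ∧ ((∀ p ∈ PD P i, (topOf p : Tops P) ≠ t) → 0 ≤ V1a a i t) ∧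
      (3 ≤ i → ∀ p ∈ PD P i, (topOf p : Tops P) = t →
        4 * (2 - zc i (topOf : P → Tops P) p - kc p) ≤ V1a a i t + 4) := by
  obtain ⟨k1, k2, k3⟩ := Tw.open_ends h hij hi1 B C u0 u2
  have hc := h.card_SS (i := i) (by omega) C
  rcases NJ.we_two (a := a) h hij hi1 B C (by omega)
    (fun p hp ht => Tw.two_shape h hij hi1 C hS k1 k2 k3 hp ht) with
    ⟨g1, g2⟩ | ⟨p, hp, hpt, hn, hf, hf3, hv⟩
  · exact ⟨by linarith, fun _ => g2, fun _ p hp hpt => absurd hpt (g1 p hp)⟩
  · obtain ⟨b1, b2, b3, b4, b5⟩ := h.dt_ch_bd hij hi1 hp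
    have hf0 : (0 : ℤ) ≤ ((FU' i (SS i t)).card : ℤ) := by positivity
    have hf1 : ((FU' i (SS i t)).card : ℤ) ≤ 1 := by exact_mod_cast hf
    refine ⟨?_, fun g => absurd hpt (g p hp), fun h3 p' hp' hpt' => ?_⟩
    · rw [hv]
      exact We_arith2 ha b1 b2 b3 hf0 hf1 hn b5
    · rw [Pn.nj_hone h hij hi1 p' hp' p hp (hpt'.trans hpt.symm), hv, hf3 h3]
      push_cast
      exact We_arith2' ha b1 b2 b3 hn b5

end nj

end Pool.Agent.GaussPoset.Wd

end

/-! From `Pool.Agent.W_448e_h22.WeC` -/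

section

/-!
MP_448cb3_co, G2, case B, STEP 0 at the level 8: the rows with three sites and a defect, the windows
`j - 1` and `j`, the payments.  helper22.
-/

set_option autoImplicit false

namespace Pool.Agent.GaussPoset.EK

set_option linter.unusedSectionVars false

open Finset Win St Polynomial Wd Win.W4

universe u

variable {P : Type u} [Fintype P] [PartialOrder P] [DecidableEq P] {r i j : ℕ}

variable {x : ℕ → P} {c : ℕ → ℤ} {β : ℤ} {t : Tops P} {lo hi : ℕ → ℕ} {e : ℕ → ℕ → P}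

variable {K : Finset P} {psi : P → P} {Y V : P → P}

/-- the triangle at the window `j` -/
theorem NJ.val_tri (h : NJ P r j) (hj : 2 ≤ j) (B : RowB P j t 2 x c 2) (c0 : c 0 = -1)
    (c1 : c 1 = -1) : Pn.F3 j t = -3 ∧ Pn.F6 j t = 9 ∧ 20 ≤ Pn.F2 j t + Pn.F4 j t := by
  obtain ⟨K, psi, R⟩ := exists_red P j
  obtain ⟨v1, v2, w, w', p, T⟩ := NJ.tri h hj B c0 c1
  have h1 := NJ.tri_w3 h hj B c0 c1
  have h2 := T.c1
  have h3 := T.be4_two
  have h6 := NJ.F6_small h hj R (NJ.small_two h hj B)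
  have e3 : Pn.F3 j t = -3 := h1
  refine ⟨e3, ?_, ?_⟩
  · rw [h6, ← F3_eq, e3]
    norm_num
  · have e4 : Pn.F4 j t = Pn.F2 j t ^ 2 -
        2 * I2.be 4 (st j (cext (j + 1) (topOf : P → Tops P) t)).card
          (ZS j (cext (j + 1) (topOf : P → Tops P) t)) +
        2 * I2.c1 (st j (cext (j + 1) (topOf : P → Tops P) t)).card
          (ZS j (cext (j + 1) (topOf : P → Tops P) t)) * Pn.F3 j t := rfl
    rw [e3, h2] at e4
    have h4 := sq_add_nonneg (Pn.F2 j t)
    rw [e4]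
    linarith

/-- the payments of the single elements of a part with three sites: at most one value -/
lemma NJ.pc3_zero (h : NJ P r j) (hj : 2 ≤ j) (R : Red P j K psi) (hY : YV j Y V)
    (B : RowB P j t 2 x c β) (s0 : c 0 ≤ 1) (s1 : c 1 ≤ 1) (s2 : β ≤ 1) :
    ∑ z ∈ (PZ j K Y V).filter (fun z => topOf (V z) = t), (sz j K V z - 1) = 0 := by
  classical
  refine sum_eq_zero fun z hz => ?_
  rw [mem_filter] at hz
  obtain ⟨q, hq, h1, -, h2⟩ := NJ.PZ_V h hj R hY hz.1 hz.2 B
  have h3 := (mem_PZ.1 hz.1).2.2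
  obtain ⟨e0, e1, e2⟩ := NJ.sa_three h R B
  have h4 : q = 0 ∨ q = 1 ∨ q = 2 := by omega
  rcases h4 with rfl | rfl | rfl
  · rw [e0] at h2
    omega
  · rw [e1] at h2
    omega
  · rw [e2] at h2
    omega

/-- the payments of the single element of the triangle -/
lemma NJ.pc3_tri (h : NJ P r (i + 1)) (hi1 : 1 ≤ i) (R : Red P (i + 1) K psi)
    (hY : YV (i + 1) Y V) (B : RowB P (i + 1) t 2 x c 2) (c0 : c 0 = -1) (c1 : c 1 = -1) :
    ∑ z ∈ (PZ (i + 1) K Y V).filter (fun z => topOf (V z) = t), (sz (i + 1) K V z - 1) = 0 ∨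
      ∃ p ∈ PD P i, (topOf p : Tops P) = t ∧
        ∑ z ∈ (PZ (i + 1) K Y V).filter (fun z => topOf (V z) = t), (sz (i + 1) K V z - 1) ≤
          2 - Pn.zc i (topOf : P → Tops P) p - Pn.kc p := by
  classical
  have H := h.g.H
  obtain ⟨e0, e1, e2⟩ := NJ.sa_three h R B
  have a1 := (NJ.inner h rfl hi1 B).1 1 (by omega) (by omega)
  -- the joins
  have key : ∀ z ∈ (PZ (i + 1) K Y V).filter (fun z => topOf (V z) = t),
      V z ∈ PD P i ∧ sz (i + 1) K V z - 1 = 1 ∧ z ⋖ V z := by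
    intro z hz
    rw [mem_filter] at hz
    obtain ⟨q, hq, h1, h5, h2⟩ := NJ.PZ_V h (by omega) R hY hz.1 hz.2 B
    have h3 := (mem_PZ.1 hz.1).2.2
    have h4 : q = 0 ∨ q = 1 ∨ q = 2 := by omega
    rcases h4 with rfl | rfl | rfl
    · rw [e0] at h2
      omega
    · rw [e1] at h2
      obtain ⟨h6, h7⟩ := Win.mem_pen.1 h1
      have l1 := B.row.lev_x 1 (by omega)
      have l2 := lev_cov H h6
      exact ⟨mem_PD.2 ⟨by omega, h7, x 1, h6, a1⟩, by omega, h5⟩
    · rw [e2] at h2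
      omega
  rcases eq_or_ne ((PZ (i + 1) K Y V).filter (fun z => topOf (V z) = t)) ∅ with hE | hE
  · left
    rw [hE, Finset.sum_empty]
  · right
    obtain ⟨z0, hz0⟩ := nonempty_iff_ne_empty.2 hE
    obtain ⟨k1, -, -⟩ := key z0 hz0
    obtain ⟨p, hp⟩ : ∃ p, p = V z0 := ⟨_, rfl⟩
    rw [← hp] at k1
    have hpt : (topOf p : Tops P) = t := by rw [hp]; exact (mem_filter.1 hz0).2
    have hV : ∀ z ∈ (PZ (i + 1) K Y V).filter (fun z => topOf (V z) = t), V z = p := by
      intro z hz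
      exact Pn.nj_hone h rfl hi1 _ (key z hz).1 p k1 ((mem_filter.1 hz).2.trans hpt.symm)
    refine ⟨p, k1, hpt, ?_⟩
    rw [sum_congr rfl (fun z hz => (key z hz).2.1), sum_const, nsmul_eq_mul, mul_one]
    have hκ : Split (i + 2) (topOf : P → Tops P) := h.split
    have hS : ∀ z ∈ (PZ (i + 1) K Y V).filter (fun z => topOf (V z) = t),
        K2.SD (i + 1) (topOf : P → Tops P) z (Y z) (V z) := fun z hz =>
      hY z (mem_PZ.1 (mem_filter.1 hz).1).1
    have d1 : Disjoint ((PZ (i + 1) K Y V).filter (fun z => topOf (V z) = t))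
        (Pn.zs i (topOf : P → Tops P) p) := by
      rw [disjoint_left]
      intro z hz hz'
      obtain ⟨p1, p2, y1, y2, D, hu, hne⟩ := Pn.Z2s_pair H hκ (Pn.mem_zs.1 hz').1
      have S := hS z hz
      have h1 : Y z ∈ uc z := S.my
      have h2 := S.cy
      rw [hu, mem_insert, mem_singleton] at h1
      rcases h1 with h1 | h1
      · rw [h1, D.hp, card_singleton] at h2
        omega
      · rw [h1, D.hp', card_singleton] at h2
        omega
    have d2 : Disjoint ((PZ (i + 1) K Y V).filter (fun z => topOf (V z) = t) ∪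
        Pn.zs i (topOf : P → Tops P) p) (Pn.ks p) := by
      rw [disjoint_left]
      intro z hz hz'
      have h3 := Pn.mem_ks.1 hz'
      rcases mem_union.1 hz with hz | hz
      · have S := hS z hz
        have h1 := S.huc
        rw [h3] at h1
        have := congrArg Finset.card h1
        rw [card_pair S.ne, card_singleton] at this
        omega
      · obtain ⟨p1, p2, y1, y2, D, hu, hne⟩ := Pn.Z2s_pair H hκ (Pn.mem_zs.1 hz).1
        rw [hu] at h3
        have := congrArg Finset.card h3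
        rw [card_pair hne, card_singleton] at this
        omega
    have hsub : (PZ (i + 1) K Y V).filter (fun z => topOf (V z) = t) ∪
        Pn.zs i (topOf : P → Tops P) p ∪ Pn.ks p ⊆ dc p := by
      intro z hz
      rcases mem_union.1 hz with hz | hz
      · rcases mem_union.1 hz with hz | hz
        · rw [← hV z hz]
          exact mem_dc.2 (key z hz).2.2
        · exact mem_dc.2 (mem_uc.1 (Pn.mem_zs.1 hz).2)
      · exact mem_dc.2 (mem_uc.1 (by rw [Pn.mem_ks.1 hz]; exact mem_singleton_self _))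
    have h7 := (card_le_card hsub).trans (dc_card_le H p)
    rw [card_union_of_disjoint d2, card_union_of_disjoint d1] at h7
    unfold Pn.zc Pn.kc
    have : ((((PZ (i + 1) K Y V).filter (fun z => topOf (V z) = t)).card +
      (Pn.zs i (topOf : P → Tops P) p).card + (Pn.ks p).card : ℕ) : ℤ) ≤ 2 := by exact_mod_cast h7
    push_cast at this
    linarith

end Pool.Agent.GaussPoset.EK

end

/-! From `Pool.Agent.W_448e_h22.WeF` -/

section

/-!
MP_448cb3_co, G2, case B, STEP 0 at the level 8: the rows with three sites and a defect, the functional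
`⟨-1, 7, 1, 2, 1, 1, 1, 7, 1⟩` (counting theorem): the value is nonnegative, or at least `-4` (twice)
with (3,2) equal to `-1` and light joins.  helper22.
-/

set_option autoImplicit false

namespace Pool.Agent.GaussPoset.EK

set_option linter.unusedSectionVars false

open Finset Win St Polynomial Wd Win.W4

universe u

variable {P : Type u} [Fintype P] [PartialOrder P] [DecidableEq P] {r i j : ℕ}

variable {x : ℕ → P} {c : ℕ → ℤ} {β : ℤ} {t : Tops P} {lo hi : ℕ → ℕ} {e : ℕ → ℕ → P}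

variable {K : Finset P} {psi : P → P}

/-- the weights of the counting argument at the level 8 -/
def Wct : Pn.Wt := ⟨-1, 7, 1, 2, 1, 1, 1, 7, 1⟩

/-- twice the value of a part -/
lemma Uc_eq (i : ℕ) (t : Tops P) : 2 * Pn.own Wct i (i + 1) t +
    ∑ p ∈ (PD P i).filter (fun p => (topOf p : Tops P) = t), Pn.shr Wct i p =
      V1a 7 i t + 2 * (Pn.F2 (i + 1) t + Pn.F4 (i + 1) t + 7 * Pn.F3 (i + 1) t +
        Pn.F6 (i + 1) t) := by
  have e1 : ∑ p ∈ (PD P i).filter (fun p => (topOf p : Tops P) = t), Pn.shr Wct i p =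
      ∑ p ∈ (PD P i).filter (fun p => (topOf p : Tops P) = t), Pn.shr (Wa 7) i p := rfl
  rw [e1]
  unfold V1a own1 Pn.own Wa Wct
  dsimp only
  ring

/-- [DL] with three sites, with the ends -/
theorem NJ.val_dl2s (h : NJ P r j) (hj : 2 ≤ j) (B : RowB P j t 2 x c β) (hβ : β = 0)
    (c0 : c 0 = 1) (c1 : c 1 = -1) :
    4 + 2 * ((pen (x 2)).card : ℤ) + 4 * ((uc (x 0)).card - 1) + 2 * ((uc (x 2)).card - 1) ≤
      Pn.F2 j t + Pn.F4 j t := by
  obtain ⟨K, psi, R⟩ := exists_red P j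
  obtain ⟨w, v, D⟩ := NJ.dl2 h hj R B hβ c0 c1
  have W := D.W
  have n02 : x 0 ≠ x 2 := W.ne (by omega) (by omega) (by omega)
  have n01 : x 0 ≠ x 1 := W.ne (by omega) (by omega) (by omega)
  have n12 : x 1 ≠ x 2 := W.ne (by omega) (by omega) (by omega)
  have h3 := D.Q.three_w3 D.hw D.hv n01 n12 n02 W.st_three
  have hT := D.rest_ge (D.Q.T_three_ge D.hw D.hv n01 n12 n02 W.st_three)
  rw [F24_eq]
  unfold W4.Tv at hT
  rw [h3] at hT
  linarith

section rows

variable (h : NJ P r (i + 1)) (hi1 : 3 ≤ i) (C : Cp.Comp (i + 1) (t : P) lo hi e)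
  (hS : Shape (i + 1) lo hi) (R : Red P (i + 1) K psi) (B : RowB P (i + 1) t 2 x c β)

include h hi1 C hS R B

/-- [DL] with three sites -/
theorem NJ.dl2_c8 (hβ : β = 0) (c0 : c 0 = 1) (c1 : c 1 = -1) :
    0 ≤ 2 * Pn.own Wct i (i + 1) t +
      ∑ p ∈ (PD P i).filter (fun p => (topOf p : Tops P) = t), Pn.shr Wct i p := by
  classical
  rw [Uc_eq]
  obtain ⟨g3, g6, -⟩ := NJ.val_dl2 h (by omega) B hβ c0 c1
  have g24 := NJ.val_dl2s h (by omega) B hβ c0 c1
  obtain ⟨w, v, D⟩ := NJ.dl2 h (by omega) R B hβ c0 c1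
  have W := D.W
  have hp : 1 ≤ (pen (x 2)).card := by
    have D2 := W.deg (k := 2) (by omega)
    have d21 := kf_dcv_comm (x 2) (x 1)
    have d20 := kf_dcv_comm (x 2) (x 0)
    rw [D.d12] at d21
    rw [D.d02] at d20
    rw [(sum_er3 _).2.2, d20, d21] at D2
    have hl := W.lev_x 2 (by omega)
    have hr := h.hr
    obtain ⟨z, hz⟩ := dc_nonempty h.g.H (x := x 2) (by omega)
    have h5 := card_pos.2 ⟨z, hz⟩
    omega
  have hp' : (1 : ℤ) ≤ (pen (x 2)).card := by exact_mod_cast hp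
  have U0 := W.uc_le (k := 0) (by omega)
  have U2 := W.uc_le (k := 2) (by omega)
  have U0' : (1 : ℤ) ≤ (uc (x 0)).card := by
    have : 1 ≤ (uc (x 0)).card := by omega
    exact_mod_cast this
  have U2' : (1 : ℤ) ≤ (uc (x 2)).card := by
    have : 1 ≤ (uc (x 2)).card := by omega
    exact_mod_cast this
  rw [g3, g6]
  by_cases hu : (uc (x 0)).card = 1 ∧ (uc (x 2)).card = 1
  · have hV := (NJ.we_open (a := 7) h rfl (by omega) le_rfl C hS B hu.1 hu.2).2.1 (by
      intro p hp1 hp2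
      have := (NJ.dl_pd h rfl (by omega) B c0 hp1 hp2).2
      omega)
    linarith
  · have hV := NJ.we_closed h rfl (by omega) B c0 c1 (a := 7) le_rfl hu
    have h9 : (3 : ℤ) ≤ (uc (x 0)).card + (uc (x 2)).card := by
      have : 3 ≤ (uc (x 0)).card + (uc (x 2)).card := by omega
      exact_mod_cast this
    linarith

/-- R with three sites -/
theorem NJ.r2_c8 (hβ : β = 1) (c0 : c 0 = -1) (c1 : c 1 = 0) :
    0 ≤ 2 * Pn.own Wct i (i + 1) t +
      ∑ p ∈ (PD P i).filter (fun p => (topOf p : Tops P) = t), Pn.shr Wct i p ∨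
    (-4 ≤ 2 * Pn.own Wct i (i + 1) t +
      ∑ p ∈ (PD P i).filter (fun p => (topOf p : Tops P) = t), Pn.shr Wct i p ∧
      Pn.F3 (i + 1) t = -1 ∧
      ∀ z y v : P, K2.SD (i + 1) (topOf : P → Tops P) z y v → topOf v = t →
        sa (i + 1) (topOf : P → Tops P) K (uc v) (topOf v) = 0) := by
  classical
  have H := h.g.H
  rw [Uc_eq]
  obtain ⟨g3, g6, g24⟩ := NJ.val_r2 h (by omega) B hβ c0 c1
  obtain ⟨u0, u2⟩ := B.ends (by rw [hβ]; norm_num)
  obtain ⟨k1, k2, k3⟩ := NJ.we_open (a := 7) h rfl (by omega) le_rfl C hS B u0 u2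
  have a1 := (NJ.inner h rfl (by omega) B).1 1 (by omega) (by omega)
  rw [g6]
  by_cases hH : ∀ z y v : P, K2.SD (i + 1) (topOf : P → Tops P) z y v → topOf v = t →
      sa (i + 1) (topOf : P → Tops P) K (uc v) (topOf v) = 0
  · right
    refine ⟨?_, g3, hH⟩
    rw [g3]
    rcases eq_or_ne (pen (x 1)) ∅ with hp | hp
    · have h3 := k2 (by
        intro p hp1 hp2
        obtain ⟨k, hk, e1, e2, e3⟩ := NJ.dt_pd_row h rfl (by omega) B hp1 hp2
        have h4 : k = 0 ∨ k = 1 ∨ k = 2 := by omega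
        rcases h4 with rfl | rfl | rfl
        · omega
        · rw [hp] at e3
          exact notMem_empty _ e3
        · omega)
      rw [hp, card_empty] at g24
      push_cast at g24
      linarith
    · have h3 : 1 ≤ (pen (x 1)).card := card_pos.2 (nonempty_iff_ne_empty.2 hp)
      have h4 : (1 : ℤ) ≤ (pen (x 1)).card := by exact_mod_cast h3
      linarith
  · left
    push Not at hH
    obtain ⟨z, y, v, S, ht, hne⟩ := hH
    have hlv := S.lv' H
    have hpos := NJ.sa_single h (by omega) R hlv S.cv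
    obtain ⟨s, hs⟩ := card_eq_one.1 S.cv
    have hsv : s ∈ uc v := by rw [hs]; exact mem_singleton_self _
    have hls := lev_uc H hsv
    have hts : topOf v = topOf s := h.split (mem_uc.1 hsv) (by omega)
    obtain ⟨q, hq, rfl⟩ := B.row.surj s (by omega) (hts.symm.trans ht)
    obtain ⟨s0, s1, s2⟩ := NJ.sa_three h R B
    rw [hs, ht] at hpos hne
    have hq1 : q = 1 := by
      have h3 : q = 0 ∨ q = 1 ∨ q = 2 := by omega
      rcases h3 with rfl | rfl | rfl
      · rw [s0, c1] at hne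
        exact absurd rfl hne
      · rfl
      · rw [s2, c0] at hpos
        norm_num at hpos
    subst hq1
    have hvp : v ∈ pen (x 1) := Win.mem_pen.2 ⟨mem_uc.1 hsv, S.cv⟩
    have hvD : v ∈ PD P i := mem_PD.2 ⟨by omega, S.cv, x 1, mem_uc.1 hsv, a1⟩
    have hzv : z ∈ dc v := mem_dc.2 (mem_uc.1 S.mv)
    -- the children
    have hκ : Split (i + 2) (topOf : P → Tops P) := h.split
    have d1 : z ∉ Pn.zs i (topOf : P → Tops P) v := by
      intro hz'
      obtain ⟨p1, p2, y1, y2, D, hu, hne'⟩ := Pn.Z2s_pair H hκ (Pn.mem_zs.1 hz').1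
      have h1 : y ∈ uc z := S.my
      have h2 := S.cy
      rw [hu, mem_insert, mem_singleton] at h1
      rcases h1 with h1 | h1
      · rw [h1, D.hp, card_singleton] at h2
        omega
      · rw [h1, D.hp', card_singleton] at h2
        omega
    have d2 : z ∉ Pn.ks v := by
      intro hz'
      have h3 := Pn.mem_ks.1 hz'
      have h1 := S.huc
      rw [h3] at h1
      have := congrArg Finset.card h1
      rw [card_pair S.ne, card_singleton] at this
      omega
    have d3 : Disjoint (Pn.zs i (topOf : P → Tops P) v) (Pn.ks v) := by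
      rw [disjoint_left]
      intro a ha ha'
      have h3 := Pn.mem_ks.1 ha'
      obtain ⟨p1, p2, y1, y2, D, hu, hne'⟩ := Pn.Z2s_pair H hκ (Pn.mem_zs.1 ha).1
      rw [hu] at h3
      have := congrArg Finset.card h3
      rw [card_pair hne', card_singleton] at this
      omega
    have hsub : insert z (Pn.zs i (topOf : P → Tops P) v ∪ Pn.ks v) ⊆ dc v := by
      intro a ha
      rcases mem_insert.1 ha with rfl | ha
      · exact hzv
      rcases mem_union.1 ha with ha | ha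
      · exact mem_dc.2 (mem_uc.1 (Pn.mem_zs.1 ha).2)
      · exact mem_dc.2 (mem_uc.1 (by rw [Pn.mem_ks.1 ha]; exact mem_singleton_self _))
    have h7 := (card_le_card hsub).trans (dc_card_le H v)
    rw [card_insert_of_notMem (by
      rw [mem_union]
      rintro (k | k)
      · exact d1 k
      · exact d2 k), card_union_of_disjoint d3] at h7
    have h8 : Pn.zc i (topOf : P → Tops P) v + Pn.kc v ≤ 1 := by
      unfold Pn.zc Pn.kc
      have : (((Pn.zs i (topOf : P → Tops P) v).card + (Pn.ks v).card + 1 : ℕ) : ℤ) ≤ 2 := by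
        exact_mod_cast h7
      push_cast at this
      linarith
    have h9 := k3 hi1 v hvD ht
    have h10 : (1 : ℤ) ≤ (pen (x 1)).card := by
      have : 1 ≤ (pen (x 1)).card := card_pos.2 ⟨v, hvp⟩
      exact_mod_cast this
    rw [g3]
    linarith

/-- the triangle -/
theorem NJ.rr_c8 (hβ : β = 2) (c0 : c 0 = -1) (c1 : c 1 = -1) :
    12 ≤ 2 * Pn.own Wct i (i + 1) t +
      ∑ p ∈ (PD P i).filter (fun p => (topOf p : Tops P) = t), Pn.shr Wct i p := by
  classical
  rw [Uc_eq]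
  obtain ⟨u0, u2⟩ := B.ends (by rw [hβ]; norm_num)
  obtain ⟨k1, -, -⟩ := NJ.we_open (a := 7) h rfl (by omega) le_rfl C hS B u0 u2
  subst hβ
  obtain ⟨g3, g6, g24⟩ := NJ.val_tri h (by omega) B c0 c1
  rw [g3, g6]
  linarith

/-- THE ROWS WITH THREE SITES AND A DEFECT -/
theorem NJ.three_c8 (hd : ¬ (β = 0 ∧ ∀ k, k < 2 → c k = 0)) :
    0 ≤ 2 * Pn.own (⟨-1, 7, 1, 2, 1, 1, 1, 7, 1⟩ : Pn.Wt) i (i + 1) t +
      ∑ p ∈ (PD P i).filter (fun p => (topOf p : Tops P) = t),
        Pn.shr (⟨-1, 7, 1, 2, 1, 1, 1, 7, 1⟩ : Pn.Wt) i p ∨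
    (-4 ≤ 2 * Pn.own (⟨-1, 7, 1, 2, 1, 1, 1, 7, 1⟩ : Pn.Wt) i (i + 1) t +
      ∑ p ∈ (PD P i).filter (fun p => (topOf p : Tops P) = t),
        Pn.shr (⟨-1, 7, 1, 2, 1, 1, 1, 7, 1⟩ : Pn.Wt) i p ∧
      Pn.F3 (i + 1) t = -1 ∧
      (st (i + 1) (cext (i + 1 + 1) (topOf : P → Tops P) t)).card ≤ 3 ∧
      ∀ z y v : P, K2.SD (i + 1) (topOf : P → Tops P) z y v → topOf v = t →
        sa (i + 1) (topOf : P → Tops P) K (uc v) (topOf v) = 0) := by
  have hst : (st (i + 1) (cext (i + 1 + 1) (topOf : P → Tops P) t)).card ≤ 3 := by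
    have h5 : st (i + 1) (cext (i + 1 + 1) (topOf : P → Tops P) t) ⊆ (range 3).image x := by
      intro v hv
      rw [mem_sites h.split] at hv
      obtain ⟨k, hk, rfl⟩ := B.row.surj v hv.1 hv.2
      exact mem_image_of_mem x (mem_range.2 (by omega))
    have h6 := (card_le_card h5).trans card_image_le
    rwa [card_range] at h6
  have key : 0 ≤ 2 * Pn.own Wct i (i + 1) t +
      ∑ p ∈ (PD P i).filter (fun p => (topOf p : Tops P) = t), Pn.shr Wct i p ∨
    (-4 ≤ 2 * Pn.own Wct i (i + 1) t +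
      ∑ p ∈ (PD P i).filter (fun p => (topOf p : Tops P) = t), Pn.shr Wct i p ∧
      Pn.F3 (i + 1) t = -1 ∧
      ∀ z y v : P, K2.SD (i + 1) (topOf : P → Tops P) z y v → topOf v = t →
        sa (i + 1) (topOf : P → Tops P) K (uc v) (topOf v) = 0) := by
    rcases B.pat with p1 | ⟨-, p1, p2, p3⟩ | ⟨-, p1, p2, p3⟩ | ⟨-, p1, p2, p3, p4⟩ |
      ⟨-, p1, p2, p3, p4⟩ | p1 | ⟨-, p1, p2, p3⟩ | p1
    · exact absurd p1 hd
    · exact NJ.r2_c8 h hi1 C hS R B p1 p2 (p3 1 le_rfl (by omega))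
    · exact NJ.r2_c8 h hi1 C hS R B.rev p1 p2 (p3 0 (by omega))
    · exact Or.inl (NJ.dl2_c8 h hi1 C hS R B p1 p2 p3)
    · exact Or.inl (NJ.dl2_c8 h hi1 C hS R B.rev p1 p2 p3)
    · have := p1.1
      omega
    · left
      have := NJ.rr_c8 h hi1 C hS R B p1 p2 p3
      linarith
    · have := p1.1
      omega
  rcases key with k | ⟨k1, k2, k3⟩
  · exact Or.inl k
  · exact Or.inr ⟨k1, k2, hst, k3⟩

end rows

end Pool.Agent.GaussPoset.EK

end

/-! From `Pool.Agent.W_448six_h74.SkL` -/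

section

/-!
MP_448cb3_co, G2, case B: THE VALUE OF A ROW WITH TWO STARS at the level eight, the weights
`<-1, 7, 1, 2, 1 | 1, 1, 7, 1>`.  helper74.
-/

namespace Pool.Agent.GaussPoset.Win.Si

set_option linter.unusedSectionVars false

open Finset W4 Pa Pb
open Pool.Agent.GaussPoset.Win.SO (PN vp con on mem_PN vp_PD vp_PU)

universe u

variable {P : Type u} [Fintype P] [PartialOrder P] [DecidableEq P] {r i j : ℕ}
variable {psi : P → P} {C K : Finset P} {w v w' v' : P} {m : ℕ} {x : ℕ → P}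

/-- the window `j` part of the value, weights `1, 1, 7, 1` -/
noncomputable def T39 (i : ℕ) (C : Finset P) : ℤ :=
  Lv i C + 7 * I2.w3 (st i C).card (ZS i C) +
    (I2.w3 (st i C).card (ZS i C) ^ 2 - 2 * I2.w6 (st i C).card (ZS i C))

namespace Two

variable (B : Two r i K psi C w v w' v' x m)
include B

/-- THE FORMULA -/
theorem T3_eq : T39 i C = E1 (uc (x 0)).card (NE i C x 0) +
    E1 (uc (x m)).card (NE i C x (m - 1)) + QS (NE i C x) 2 (m - 2) + Eo i C x w v +
    Eo i C (fun k => x (m - k)) w' v' + (if m = 5 then 12 else if m = 6 then 2 else 0) +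
    7 * (NE i C x 2 + NE i C x (m - 3) - 2 - (if m = 5 then 1 else 0)) +
    ((NE i C x 2 + NE i C x (m - 3) - 2 - (if m = 5 then 1 else 0)) ^ 2 -
      2 * ((if 7 ≤ m then NE i C x 2 * NE i C x (m - 3) else 0) -
        (if 6 ≤ m then NE i C x (m - 3) else 0) - (if 6 ≤ m then NE i C x 2 else 0) + 1)) := by
  have hm := B.Q.hm
  have e1 := B.w3v
  have e2 := B.Q.w6v
  rw [dl_NE, dl_NE] at e1 e2
  have n0 : NE i C (fun k => x (m - k)) 0 = NE i C x (m - 1) := by
    rw [NE_mirror (by omega)]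
    rfl
  unfold T39 E1
  rw [B.L_form, e1, e2, Ew_eq, Ew_eq, B.QS_split, n0]
  simp only [show m - 0 = m from rfl]
  ring

/-- both ends closed -/
theorem T3_closed (hn : (uc (x 0)).card = 2) (hn' : (uc (x m)).card = 2) :
    (m = 5 → 18 ≤ T39 i C) ∧
    (m = 6 → 6 ≤ T39 i C + 2 * ∑ k ∈ range m, NE i C x k) ∧
    (7 ≤ m → 4 ≤ T39 i C + 2 * ∑ k ∈ range m, NE i C x k) := by
  have hm := B.Q.hm
  have u0 : 0 ≤ NE i C x 0 := by
    unfold NE
    rw [B.W.ue_zero (by omega) hn, card_empty]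
    push_cast
    omega
  have u1 : 0 ≤ NE i C x (m - 1) := by
    unfold NE
    rw [B.W.ue_last (by omega) hn', card_empty]
    push_cast
    omega
  have q0 := mul_nonneg u0 u0
  have q1 := mul_nonneg u1 u1
  obtain ⟨b, h1, h2⟩ := B.toT.Eo_cs fun z hz => B.Q.zz z hz
  obtain ⟨b', h1', h2'⟩ := B.Eo_cs'
  have e := B.T3_eq
  have s1 := B.sum_split
  unfold E1 at e
  rw [hn, hn'] at e
  push_cast at e
  refine ⟨fun h => ?_, fun h => ?_, fun h => ?_⟩
  · have n2 := B.n5 (by omega)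
    have n1 := B.N1
    have n3 := B.Nm2
    subst h
    simp only [show 5 - 2 = 3 from rfl, show 5 - 3 = 2 from rfl, show 5 - 4 = 1 from rfl,
      show 5 - 1 = 4 from rfl] at e h1' h2' n3 u1 q1
    rw [QS_one, n2] at e
    norm_num at e
    rw [n2] at h1 h1'
    rw [n3] at h2
    rw [n1] at h2'
    have hb : b = 8 := by
      rcases h1 with h | h | h
      · exact h.2
      · omega
      · omega
    have hb' : b' = 8 := by
      rcases h1' with h | h | h
      · exact h.2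
      · omega
      · omega
    linarith
  · subst h
    simp only [show 6 - 2 = 4 from rfl, show 6 - 3 = 3 from rfl, show 6 - 4 = 2 from rfl,
      show 6 - 1 = 5 from rfl] at e h1' h2' s1 u1 q1 ⊢
    rw [QS_pair] at e
    norm_num at e
    rw [s1, sum_two, e]
    generalize NE i C x 2 = p at *
    generalize NE i C x 3 = q at *
    rcases h1 with ⟨rfl, rfl⟩ | ⟨rfl, rfl⟩ | ⟨rfl, rfl⟩ <;>
      rcases h1' with ⟨rfl, rfl⟩ | ⟨rfl, rfl⟩ | ⟨rfl, rfl⟩ <;> linarith
  · obtain ⟨l1, l2⟩ := B.long h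
    obtain ⟨c1, c2, c3, c4⟩ := QS_mid' (NE i C x) (s := 3) (t := m - 3) (by omega)
      fun k hk hk' => B.NE_pos (by omega) (by omega)
    have p3 := B.NE_pos (k := 3) (by omega) (by omega)
    have p4 := B.NE_pos (k := m - 4) (by omega) (by omega)
    have p5 : 0 ≤ ∑ k ∈ Ico 3 (m - 3), NE i C x k := sum_nonneg fun k hk => by
      rw [mem_Ico] at hk
      exact B.NE_pos (by omega) (by omega)
    rw [show m - 3 - 1 = m - 4 by omega] at c3 c4
    rw [l1, if_neg (by omega), if_neg (by omega), if_neg (by omega), if_pos (by omega),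
      if_pos (by omega), if_pos (by omega)] at e
    rw [s1, l2, e]
    generalize NE i C x 2 = p at *
    generalize NE i C x (m - 3) = q at *
    generalize NE i C x 3 = n at *
    generalize NE i C x (m - 4) = n' at *
    generalize QS (NE i C x) 3 (m - 3) = Q at *
    generalize ∑ k ∈ Ico 3 (m - 3), NE i C x k = S at *
    rcases h1 with ⟨rfl, rfl⟩ | ⟨rfl, rfl⟩ | ⟨rfl, rfl⟩ <;>
      rcases h1' with ⟨rfl, rfl⟩ | ⟨rfl, rfl⟩ | ⟨rfl, rfl⟩ <;> linarith

end Two

end Pool.Agent.GaussPoset.Win.Si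

namespace Pool.Agent.GaussPoset.EK

set_option linter.unusedSectionVars false

open Finset Win St Polynomial Wd Win.W4
open Pool.Agent.GaussPoset.Win.SO (PN vp mem_PN chc CQ)
open Pool.Agent.GaussPoset.Win.Si (DLt T39)
open Pool.Agent.GaussPoset.Win.Pn (Wt own shr A3 B5 C6 C8 C10 F2 F3 F4 F6)

universe u

variable {P : Type u} [Fintype P] [PartialOrder P] [DecidableEq P] {r i j : ℕ}

variable {m : ℕ} {x : ℕ → P} {c : ℕ → ℤ} {β : ℤ} {t : Tops P}

/-- the weights of step 0 at the level eight, with `w32 - F6` added -/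
def w9 : Wt := ⟨-1, 7, 1, 2, 1, 1, 1, 7, 1⟩

lemma own2_w9 (j : ℕ) (t : Tops P) :
    own2 w9 j t = T39 j (cext (j + 1) (topOf : P → Tops P) t) := by
  have e2 : F2 j t + F4 j t = Lv j (cext (j + 1) (topOf : P → Tops P) t) := rfl
  have e3 : F3 j t = I2.w3 (st j (cext (j + 1) (topOf : P → Tops P) t)).card
      (ZS j (cext (j + 1) (topOf : P → Tops P) t)) := rfl
  have e4 : F6 j t = I2.w3 (st j (cext (j + 1) (topOf : P → Tops P) t)).card
      (ZS j (cext (j + 1) (topOf : P → Tops P) t)) ^ 2 -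
      2 * I2.w6 (st j (cext (j + 1) (topOf : P → Tops P) t)).card
      (ZS j (cext (j + 1) (topOf : P → Tops P) t)) := rfl
  unfold own2 w9 T39
  rw [← e2, ← e4, ← e3]
  ring

section row

variable (h : NJ P r (i + 1)) (hi1 : 1 ≤ i) (B : RowB P (i + 1) t m x c β) (hp : Pat6 m c β)

include h B hp

lemma UU_w9 : UU w9 i t =
    2 * (own1 w9 i t + T39 (i + 1) (cext (i + 1 + 1) (topOf : P → Tops P) t)) := by
  unfold UU
  rw [NJ.shr6 h rfl B hp w9, own_eq, own2_w9]
  ring

include hi1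

/-- the level eight, both ends closed, weights `w9` -/
theorem six_nine (h0 : (uc (x 0)).card = 2) (h1 : (uc (x m)).card = 2) :
    16 ≤ UU w9 i t ∧ (m ≤ 6 → 20 ≤ UU w9 i t) := by
  obtain ⟨K, psi, R⟩ := exists_red P (i + 1)
  obtain ⟨w, v, w', v', T⟩ := Si.NJ_two h (by omega) R B hp
  have h2 := NJ.own6_two h rfl hi1 B hp w9 rfl rfl h0 h1
  have h3 := six_sum_two h hi1 B hp h0 h1
  have h4 : (0 : ℤ) ≤ ∑ w ∈ CQ i (SS i t), ((chc i (SS i t) w).card : ℤ) :=
    sum_nonneg fun _ _ => by positivity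
  have h6 : (0 : ℤ) ≤ ∑ k ∈ Ed x m,
      ((DE (i + 1) (cext (i + 1 + 1) (topOf : P → Tops P) t) x k).card : ℤ) :=
    sum_nonneg fun _ _ => by positivity
  obtain ⟨g5, g6, g7⟩ := T.T3_closed h0 h1
  rw [UU_w9 h B hp]
  have hm := hp.1
  rcases Nat.lt_or_ge m 7 with hm7 | hm7
  · have key : 20 ≤ 2 * (own1 w9 i t +
        T39 (i + 1) (cext (i + 1 + 1) (topOf : P → Tops P) t)) := by
      rcases Nat.lt_or_ge m 6 with hm6 | hm6
      · have g := g5 (by omega)
        rw [if_pos (by omega)] at h2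
        linarith
      · have g := g6 (by omega)
        rw [if_neg (by omega)] at h2
        linarith
    exact ⟨by linarith, fun _ => key⟩
  · have g := g7 hm7
    rw [if_neg (by omega)] at h2
    exact ⟨by linarith, fun _ => by omega⟩

omit hp hi1 in
/-- both ends closed: the length -/
theorem six_len (hj : 2 ≤ i + 1) (hm : 1 ≤ m) (h0 : (uc (x 0)).card = 2)
    (h1 : (uc (x m)).card = 2) : m + 2 ≤ i + 1 := by
  obtain ⟨lo, hi, e, C⟩ := Cp.comp_exists h.g.H t.2 h.g.hr h.g.good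
  obtain ⟨l1, hor⟩ := B.orient h hj C
  have hh : ∀ k, k ≤ i + 1 → hi k ≤ k := by
    intro k
    induction k with
    | zero => exact fun _ => C.hi_zero.le
    | succ k ih =>
      intro hk
      have := ih (by omega)
      have := C.hi_step k (by omega)
      omega
  have c0 := C.single_up h.g.H h.g.good t.2 (k := i) (s := lo (i + 1)) (by omega) le_rfl (by omega)
  have c1 := C.single_up h.g.H h.g.good t.2 (k := i) (s := hi (i + 1)) (by omega) (by omega) le_rfl
  have s0 := C.lo_step i (by omega)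
  have s1 := C.hi_step i (by omega)
  have hi' := hh i (by omega)
  have e0 : (uc (e (i + 1) (lo (i + 1)))).card ≠ 1 ∧ (uc (e (i + 1) (hi (i + 1)))).card ≠ 1 := by
    rcases hor with hor | hor
    · have a0 := hor 0 (by omega)
      have am := hor m le_rfl
      rw [add_zero] at a0
      rw [← l1] at am
      rw [← a0, ← am]
      omega
    · have a0 := hor 0 (by omega)
      have am := hor m le_rfl
      rw [Nat.sub_zero] at a0
      rw [show hi (i + 1) - m = lo (i + 1) by omega] at am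
      rw [← a0, ← am]
      omega
  have f0 : lo (i + 1) ≠ lo i := fun q => e0.1 (c0.2 (Or.inl q))
  have f1 : hi (i + 1) ≠ hi i + 1 := fun q => e0.2 (c1.2 (Or.inr q))
  omega

end row

/-- THE LEVEL EIGHT, weights `<-1, 7, 1, 2, 1 | 1, 1, 7, 1>`: at least twenty -/
theorem CB.six_w9 (h : CB P r (i + 1)) (h8 : i + 1 = 8) (B : RowB P (i + 1) t m x c β)
    (hp : Pat6 m c β) : 20 ≤ UU w9 i t := by
  have hn := h.nj
  have hm := hp.1
  obtain ⟨g0, g1⟩ := CB.six_ends8 h (by omega) (by omega) B hp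
  have := six_len hn B (by omega) (by omega) g0 g1
  exact (six_nine hn (by omega) B hp g0 g1).2 (by omega)

end Pool.Agent.GaussPoset.EK

end

/-! From `Pool.Agent.W_448st0_h96.SzG` -/

section

/-!
# Final assembly (MP_448cb3_co): STEP 0 at the level 8, with counting: the wrappers of the leaves
-/

namespace Pool.Agent.GaussPoset.EK

set_option linter.unusedSectionVars false

open Finset Win St Polynomial Wd Win.W4

universe u

variable (P : Type u) [Fintype P] [PartialOrder P] [DecidableEq P]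

/-- three sites -/
theorem leaf_twoA : HTwoA P := by
  intro r i K psi t x c β lo hi e h8 hC hT h R C hS B hd
  rcases NJ.three_c8 h.nj (by omega) (C t) (hS t) R B hd with q | ⟨q1, q2, q3, q4⟩
  · exact Or.inl q
  · exact Or.inr ⟨q1, Or.inr ⟨q2, q3, q4⟩⟩

/-- two stars -/
theorem leaf_sixA : HSixA P := by
  intro r i t m x c β h8 h B hp
  exact CB.six_w9 h h8 B hp

end Pool.Agent.GaussPoset.EK

end

/-! From `Pool.Agent.W_448n13_h22.NtC` -/

section

/-!
MP_448cb3_co, G2, case B, STEP 0 at the level 13: the rows with three sites and a defect: the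
functional of the window `j` pays for the joins.  helper22.
-/

set_option autoImplicit false

namespace Pool.Agent.GaussPoset.EK

set_option linter.unusedSectionVars false

open Finset Win St Polynomial Wd Win.W4

universe u

variable {P : Type u} [Fintype P] [PartialOrder P] [DecidableEq P] {r i j : ℕ}

variable {x : ℕ → P} {c : ℕ → ℤ} {β : ℤ} {t : Tops P}

variable {K : Finset P} {psi : P → P} {Y V : P → P}

lemma TT_eq (j : ℕ) (t : Tops P) :
    TT j t = Pn.F2 j t + Pn.F4 j t + 6 * Pn.F3 j t + 2 * Pn.F6 j t := rfl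

/-- THE ROWS WITH THREE SITES AND A DEFECT at the window `j`: every part pays -/
theorem NJ.three_n13 (h : NJ P r (i + 1)) (hi1 : 1 ≤ i) (R : Red P (i + 1) K psi)
    (hY : YV (i + 1) Y V) (B : RowB P (i + 1) t 2 x c β)
    (hd : ¬ (β = 0 ∧ ∀ k, k < 2 → c k = 0)) :
    16 * (PA (i + 1) K Y V t +
      ∑ z ∈ (PZ (i + 1) K Y V).filter (fun z => topOf (V z) = t), (sz (i + 1) K V z - 1)) ≤
    8 * TT (i + 1) t := by
  classical
  have hA : PA (i + 1) K Y V t = 0 :=
    NJ.PA_zero h (by omega) R hY fun y hy ht => by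
      have := B.bad h (by omega) hy ht
      omega
  rw [hA, zero_add, TT_eq]
  have dl : ∀ (x : ℕ → P) (c : ℕ → ℤ) (β : ℤ), RowB P (i + 1) t 2 x c β → β = 0 → c 0 = 1 →
      c 1 = -1 → 16 * ∑ z ∈ (PZ (i + 1) K Y V).filter (fun z => topOf (V z) = t),
        (sz (i + 1) K V z - 1) ≤ 8 * (Pn.F2 (i + 1) t + Pn.F4 (i + 1) t +
          6 * Pn.F3 (i + 1) t + 2 * Pn.F6 (i + 1) t) := by
    intro x c β B hβ c0 c1
    obtain ⟨g3, g6, g24⟩ := NJ.val_dl2 h (by omega) B hβ c0 c1
    rw [NJ.pc3_zero h (by omega) R hY B (by omega) (by omega) (by omega), g3, g6]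
    have : (0 : ℤ) ≤ (pen (x 2)).card := by positivity
    linarith
  have rr : ∀ (x : ℕ → P) (c : ℕ → ℤ) (β : ℤ), RowB P (i + 1) t 2 x c β → β = 1 → c 0 = -1 →
      c 1 = 0 → 16 * ∑ z ∈ (PZ (i + 1) K Y V).filter (fun z => topOf (V z) = t),
        (sz (i + 1) K V z - 1) ≤ 8 * (Pn.F2 (i + 1) t + Pn.F4 (i + 1) t +
          6 * Pn.F3 (i + 1) t + 2 * Pn.F6 (i + 1) t) := by
    intro x c β B hβ c0 c1
    obtain ⟨g3, g6, g24⟩ := NJ.val_r2 h (by omega) B hβ c0 c1
    rw [NJ.pc3_zero h (by omega) R hY B (by omega) (by omega) (by omega), g3, g6]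
    have : (0 : ℤ) ≤ (pen (x 1)).card := by positivity
    linarith
  rcases B.pat with p1 | ⟨-, p1, p2, p3⟩ | ⟨-, p1, p2, p3⟩ | ⟨-, p1, p2, p3, p4⟩ |
    ⟨-, p1, p2, p3, p4⟩ | p1 | ⟨-, p1, p2, p3⟩ | p1
  · exact absurd p1 hd
  · exact rr _ _ _ B p1 p2 (p3 1 le_rfl (by omega))
  · exact rr _ _ _ B.rev p1 p2 (p3 0 (by omega))
  · exact dl _ _ _ B p1 p2 p3
  · exact dl _ _ _ B.rev p1 p2 p3
  · have := p1.1
    omega
  · subst p1
    obtain ⟨g3, g6, g24⟩ := NJ.val_tri h (by omega) B p2 p3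
    rw [g3, g6]
    rcases NJ.pc3_tri h hi1 R hY B p2 p3 with h0 | ⟨p, hp, hpt, h0⟩
    · rw [h0]
      linarith
    · obtain ⟨b1, b2, -, -, -⟩ := Wd.NJ.dt_ch_bd h rfl hi1 hp
      linarith
  · have := p1.1
    omega

end Pool.Agent.GaussPoset.EK

end
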