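import Mathlib
import Pool.Agent.W_448zz_h61.Ns
import Pool.Agent.W_448zz_h61.M204
import Pool.Agent.W_448zz_h61.M211
import Pool.Agent.W_448zz_h61.M259
import Pool.Agent.W_448zz_h61.M260
import Pool.Agent.W_448zz_h61.M274
import Pool.Agent.W_448zz_h61.M278
import Pool.Agent.W_448zz_h61.M281
import Pool.Agent.W_448zz_h61.M282
import Pool.Agent.W_448zz_h61.M283
import Pool.Agent.W_448zz_h61.M284

/-! From `Pool.Agent.W_448s7s_h5.TuR` -/

section

/-!
# Step A for `j = 10, .., 15` (MP_448cb3_co, HJoin10)

The input `HJoin10` of the final assembly from the six theorems `no_join10`, ..,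
`no_join15`; the case `j = 14` uses that there are no joins of a fold end and an end
`(5, 25, 0)`.
-/

namespace Pool.Agent.GaussPoset.Win

set_option linter.unusedSectionVars false

open Finset

universe u

variable {P : Type u} [Fintype P] [PartialOrder P] [DecidableEq P]

/-- INPUT: no joins of a fold end and an end `(5, 25, 0)` for `j = 14` -/
def HFB14 (P : Type u) [Fintype P] [PartialOrder P] [DecidableEq P] : Prop :=
  ∀ (r : ℕ) (lo hi : Tops P → ℕ → ℕ) (e : Tops P → ℕ → ℕ → P),
    Sm.Ctx P r 14 lo hi e → Sm.NoFB P 14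

/-- **step A for `j = 10, .., 15`**, from the input for `j = 14` -/
theorem hjoin10_of (h14 : HFB14 P) : HJoin10 P := by
  intro r j h1 h2 hB z hl
  obtain ⟨lo, hi, e, hC, hS⟩ := hsh (P := P) r j hB.gt
  have K : Sm.Ctx P r j lo hi e := ⟨hB.gt, by omega, by omega, hC, hS⟩
  have hj : j = 10 ∨ j = 11 ∨ j = 12 ∨ j = 13 ∨ j = 14 ∨ j = 15 := by omega
  rcases hj with rfl | rfl | rfl | rfl | rfl | rfl
  · exact Sm.no_join10 K hl
  · exact K.no_join11 hl
  · exact K.no_join12 hl
  · exact K.no_join13 hl
  · exact Sm.no_join14F K (h14 r lo hi e K) hl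
  · exact K.no_join15 hl

end Pool.Agent.GaussPoset.Win

end

/-! From `Pool.Agent.W_448w7_h94.WiT` -/

section

/-!
**Step A for `j = 14`** (MP_448cb3_co, S7): no join of a fold end and an end `(5, 25, 0)` at
level 15.
-/

namespace Pool.Agent.GaussPoset.W7

set_option linter.unusedSectionVars false

open Finset Fi Wd

universe u

variable {P : Type u} [Fintype P] [PartialOrder P] [DecidableEq P] {r : ℕ}
  {lo hi : Tops P → ℕ → ℕ} {e : Tops P → ℕ → ℕ → P}

/-- **No join of a fold end and an end `(5, 25, 0)`.** -/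
theorem noFB14 (K : Sm.Ctx P r 14 lo hi e) : Sm.NoFB P 14 :=
  noFB_of K (fun _ hJ => e15 K hJ) fun _ _ _ _ W _ hc => W.spA hc

/-- **the input for `j = 14`** -/
theorem hfb14 (P : Type u) [Fintype P] [PartialOrder P] [DecidableEq P] : Win.HFB14 P :=
  fun _ _ _ _ K => noFB14 K

end Pool.Agent.GaussPoset.W7

end

/-! From `Pool.Agent.W_448cl_h64.CmE` -/

section

/-!
MP_448cb3_co, G2, case B, step 0 (weights `W1`): THE LEAF `HClosedQ`.  helper64.
-/

namespace Pool.Agent.GaussPoset.EK

set_option linter.unusedSectionVars false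

open Finset Win St Polynomial Wd Win.W4

universe u

variable {P : Type u} [Fintype P] [PartialOrder P] [DecidableEq P]

/-- THE LEAF of step 0: [DL], at least four sites, the doubled end closed -/
theorem hclosedq : HClosedQ P := by
  intro r i K psi t m x c β lo hi e h5 h8 h13 hC R B C S hm hD hu
  obtain ⟨hb, c0, c1, c2⟩ := hD
  subst hb
  have F : ClDL P r i t m x c lo hi e := ⟨hC.nj, by omega, B, C, hm, hu, c0, c1, c2⟩
  have hQ : Qt i t = Qc i t := rfl
  unfold Q0
  rw [hQ]
  rcases F.mainQ' R S h13 with h | ⟨h1, h2⟩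
  · exact Or.inl h
  · exact Or.inr ⟨h1, h2⟩

end Pool.Agent.GaussPoset.EK

end

/-! From `Pool.Agent.W_448st0_h96.SzY` -/

section

/-!
# Final assembly (MP_448cb3_co): what is left
-/

namespace Pool.Agent.GaussPoset.EK

set_option linter.unusedSectionVars false

open Finset Win St Polynomial Wd Win.W4

universe u

/-- THE INPUTS WHICH ARE LEFT -/
structure Left (P : Type u) [Fintype P] [PartialOrder P] [DecidableEq P] : Prop where
  no13 : ∀ r j : ℕ, j = 13 → CB P r j → No6 P j

variable {P : Type u} [Fintype P] [PartialOrder P] [DecidableEq P]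

/-- no element (C) of the level 7 -/
theorem hcc3 (P : Type u) [Fintype P] [PartialOrder P] [DecidableEq P] : HCC3 P :=
  fun r h => hcc3_nj P r h.nj

/-- STEP 0 from the inputs which are left -/
theorem Left.no6 (L : Left P) : HNo6 P := by
  have hC : HCCu P := hccu (hcc3 P)
  exact hno6_count hC (HTail_holds P)
    ⟨hnat P, hclosedq, hopen3q P, hring3 P, hfoldq, htwoq P, hsixq⟩
    ⟨hnatA P, hclosedA P, hfoldA P, hopen3A P, hring3A P, leaf_twoA P, leaf_sixA P, hcount⟩ L.no13

/-- THE THEOREM from the inputs which are left -/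
theorem distrib_left (hG : IsGaussian P) (hc : (SimpleGraph.hasse P).Connected) (L : Left P) :
    IsDistribLatticeOrder P :=
  distrib_of_inputs6 hG hc (hjoin10_of (W7.hfb14 P)) (hcc3 P) (HTail_holds P)
    ⟨L.no6, hnat P, hclosed, hopen3 P, hring3 P, hfoldv, htwo P⟩

end Pool.Agent.GaussPoset.EK

end

/-! From `Pool.Agent.W_448n13_h22.NtD` -/

section

/-!
MP_448cb3_co, G2, case B, STEP 0 at the level 13: the wrappers of the leaves: naturals, three sites, two
stars.  helper22.
-/

namespace Pool.Agent.GaussPoset.EK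

set_option linter.unusedSectionVars false

open Finset Win St Polynomial Wd Win.W4

universe u

variable (P : Type u) [Fintype P] [PartialOrder P] [DecidableEq P]

/-- three sites -/
theorem leaf_twoT : HTwoT P := by
  intro r i K psi Y V t x c β h13 h R hY B hd
  have h1 := NJ.three_n13 h.nj (by omega) R hY B hd
  have h2 : PC (i + 1) K Y V t =
      ∑ z ∈ (PZ (i + 1) K Y V).filter (fun z => topOf (V z) = t), (sz (i + 1) K V z - 1) := rfl
  rw [← h2] at h1
  linarith

/-- two stars -/
theorem leaf_sixT : HSixT P := by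
  intro r i K psi Y V t m x c β lo hi e h13 hC hT h R hY C hS B hp
  exact CB.six13 hC hT h (by omega) (by omega) R hY C hS B hp

end Pool.Agent.GaussPoset.EK

end

/-! From `Pool.Agent.W_448st0_h96.SzZ` -/

section

/-!
# Final assembly (MP_448cb3_co): THE THEOREM
-/

namespace Pool.Agent.GaussPoset.EK

set_option linter.unusedSectionVars false

open Finset Win St Polynomial Wd Win.W4

universe u

variable {P : Type u} [Fintype P] [PartialOrder P] [DecidableEq P]

/-- the leaf `HClosedT` -/
theorem leaf_closedT (P : Type u) [Fintype P] [PartialOrder P] [DecidableEq P] : HClosedT P := by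
  intro r i K psi t m x c β lo hi e h13 h R B C S hm hD hu
  obtain ⟨hb, c0, c1, c2⟩ := hD
  subst hb
  have hn := h.nj
  have hi1 : 1 ≤ i := by omega
  have F : ClDL P r i t m x c lo hi e := ⟨hn, hi1, B, C, hm, hu, c0, c1, c2⟩
  have hs := NJ.small_dl hn (by omega) B c2
  have hQ : Qt i t = Qc i t := rfl
  obtain ⟨Y, V, hY⟩ := exists_YW P (i + 1)
  have hT : TT (i + 1) t = W4.Tv (i + 1) (Cx i t) :=
    (NJ.dl_parts hn (by omega) R hY B hm rfl c0 c1 c2).2
  rw [NJ.Ut_small hn hi1 R hs, hQ, hT]
  rcases F.sum13 R S (by omega) with q | ⟨q1, q2⟩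
  · exact Or.inl q
  · exact Or.inr ⟨by linarith, q2⟩

/-- no input is left -/
theorem left (P : Type u) [Fintype P] [PartialOrder P] [DecidableEq P] : Left P :=
  ⟨no6_thirteen (hccu (hcc3 P)) (HTail_holds P)
    ⟨hnat P, hclosedq, hopen3q P, hring3 P, hfoldq, htwoq P, hsixq⟩
    ⟨hnatT P, leaf_closedT P, hopen3T P, hring3T P, leaf_twoT P, leaf_sixT P⟩⟩

/-- EVERY CONNECTED FINITE GAUSSIAN POSET IS A DISTRIBUTIVE LATTICE -/
theorem distrib (hG : IsGaussian P) (hc : (SimpleGraph.hasse P).Connected) :
    IsDistribLatticeOrder P :=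
  distrib_left hG hc (left P)

end Pool.Agent.GaussPoset.EK

end
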